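import Mathlib

/-! Joined modules of the proof of MP_8a27c0_an (one section per module). -/

section S_H36_DS_Base

/-!
Project MP_8a27c0_DS (helper36): density of stable manifolds for area preserving diffeomorphisms of the
sphere, without the KAM circle hypothesis.  Common definitions of the planar / topological part.
-/

namespace DS

open Metric Set Filter Topology MeasureTheory

/-! ### Riemann maps of complements of continua -/

/-- the exterior of the set `K` in the coordinate `w = 1/z` (the point `0` stands for infinity) -/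
def extDom (K : Set ℂ) : Set ℂ := {w | w = 0 ∨ w⁻¹ ∉ K}

/-- `ψ` maps the unit disc biholomorphically onto the exterior of `K` (coordinate `w = 1/z`),
with `ψ 0 = 0`, and `v` is its inverse -/
structure ExtMap (K : Set ℂ) (ψ v : ℂ → ℂ) : Prop where
  dψ : DifferentiableOn ℂ ψ (ball 0 1)
  dv : DifferentiableOn ℂ v (extDom K)
  mψ : MapsTo ψ (ball 0 1) (extDom K)
  mv : MapsTo v (extDom K) (ball 0 1)
  vψ : ∀ z ∈ ball (0:ℂ) 1, v (ψ z) = z
  ψv : ∀ w ∈ extDom K, ψ (v w) = w
  ψ0 : ψ 0 = 0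

/-- the integral of `f` over the segment from `a` to `b` -/
noncomputable def segI (f : ℂ → ℂ) (a b : ℂ) : ℂ := (b - a) * ∫ t in (0:ℝ)..1, f (a + t * (b - a))

/-- the integral of `f` over the polygon with the given list of vertices -/
noncomputable def polyI (f : ℂ → ℂ) : List ℂ → ℂ
  | [] => 0
  | [_] => 0
  | a :: b :: l => segI f a b + polyI f (b :: l)

/-- all edges of the polygon lie in `U` -/
def PolyIn (U : Set ℂ) : List ℂ → Prop
  | [] => True
  | [a] => a ∈ U
  | a :: b :: l => segment ℝ a b ⊆ U ∧ PolyIn U (b :: l)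

/-- the family of injective holomorphic maps from `U` to the unit disc -/
def Fam (U : Set ℂ) : Set (ℂ → ℂ) :=
  {f | DifferentiableOn ℂ f U ∧ MapsTo f U (ball 0 1) ∧ InjOn f U}

/-! ### Discs in a metric space -/

/-- `φ` is a homeomorphism of the unit disc onto the complement of `K` (inverse `u`) with the two
metric properties of conformal maps: (L0) a connected set with a small image is small; (L1) around
every boundary point there are arbitrarily small circular arcs with small image. -/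
structure DiscMap {X : Type*} [MetricSpace X] (K : Set X) (φ : ℂ → X) (u : X → ℂ) : Prop where
  φ_cont : ContinuousOn φ (ball 0 1)
  φ_maps : MapsTo φ (ball 0 1) Kᶜ
  u_cont : ContinuousOn u Kᶜ
  u_maps : MapsTo u Kᶜ (ball 0 1)
  uφ : ∀ z ∈ ball (0:ℂ) 1, u (φ z) = z
  φu : ∀ x ∈ Kᶜ, φ (u x) = x
  L0 : ∀ ε > 0, ∃ δ > 0, ∀ γ ⊆ ball (0:ℂ) 1, IsPreconnected γ →
    (∀ z ∈ γ, ∀ w ∈ γ, dist (φ z) (φ w) < δ) → ∀ z ∈ γ, ∀ w ∈ γ, dist z w < ε
  L1 : ∀ ζ : ℂ, ‖ζ‖ = 1 → ∀ ε > 0, ∃ ρ, 0 < ρ ∧ ρ < ε ∧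
    ∀ z ∈ ball (0:ℂ) 1, ∀ w ∈ ball (0:ℂ) 1, dist z ζ = ρ → dist w ζ = ρ → dist (φ z) (φ w) < ε

/-! ### Winding numbers, by logarithms -/

/-- `f` has winding number `n` on the circle of radius `ρ` about `c` -/
def HasWind (f : ℂ → ℂ) (c : ℂ) (ρ : ℝ) (n : ℤ) : Prop :=
  ∃ L : ℂ → ℂ, ContinuousOn L (sphere c ρ) ∧ ∀ z ∈ sphere c ρ, f z = (z - c) ^ n * Complex.exp (L z)

/-- `f` has a continuous logarithm on `S` -/
def HasLog (f : ℂ → ℂ) (S : Set ℂ) : Prop :=
  ∃ L : ℂ → ℂ, ContinuousOn L S ∧ ∀ z ∈ S, f z = Complex.exp (L z)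

/-- every continuous nowhere zero function on `W` has a continuous logarithm -/
def AllLogs (W : Set ℂ) : Prop :=
  ∀ f : ℂ → ℂ, ContinuousOn f W → (∀ z ∈ W, f z ≠ 0) → HasLog f W

end DS

end S_H36_DS_Base
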