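import Mathlib
import Pool.Agent.H12.KS.K01

/-! Joined modules of the proof of MP_8a27c0_an (one section per module). -/

section S_H12_TN_Defs

/-!
Project MP_8a27c0_TN (helper12): Theorem N of `/team-store/H12_8a27c0_general.md`, section 3.
Elementary Nielsen theory at infinity for homeomorphisms of the closed unit disc that normalise a
convex cocompact Fuchsian group.  Common definitions.  (`HasLog`, `HasWind` are in `H36/DS/Base`.)
-/

namespace TN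

open Metric Set Filter Topology DS

/-! ### Moebius maps of the disc and Fuchsian groups -/

/-- the Moebius map `x ↦ u (x - b) / (1 - conj b x)` (used for `‖u‖ = 1`, `‖b‖ < 1`) -/
noncomputable def mob (u b x : ℂ) : ℂ := u * (x - b) / (1 - (starRingEnd ℂ) b * x)

/-- the derivative of `mob u b` at `x` -/
noncomputable def mobD (u b x : ℂ) : ℂ :=
  u * (1 - (starRingEnd ℂ) b * b) / (1 - (starRingEnd ℂ) b * x) ^ 2

/-- pseudo-hyperbolic distance -/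
noncomputable def pd (x y : ℂ) : ℝ := ‖x - y‖ / ‖1 - (starRingEnd ℂ) x * y‖

/-- A discrete group of Moebius maps of the closed disc without fixed points in the open disc,
all of whose nontrivial elements are hyperbolic (two fixed points on the circle). -/
structure Fuchs (Γ : Type) [Group Γ] where
  u : Γ → ℂ
  b : Γ → ℂ
  hu : ∀ g, ‖u g‖ = 1
  hb : ∀ g, ‖b g‖ < 1
  one : ∀ x ∈ closedBall (0:ℂ) 1, mob (u 1) (b 1) x = x
  mul : ∀ g h, ∀ x ∈ closedBall (0:ℂ) 1,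
    mob (u (g * h)) (b (g * h)) x = mob (u g) (b g) (mob (u h) (b h) x)
  fin : ∀ r : ℝ, r < 1 → {g | ‖b g‖ ≤ r}.Finite
  free : ∀ g, g ≠ 1 → ∀ x ∈ ball (0:ℂ) 1, mob (u g) (b g) x ≠ x
  hyp : ∀ g, g ≠ 1 → ∃ p q : ℂ, ‖p‖ = 1 ∧ ‖q‖ = 1 ∧ p ≠ q ∧
    mob (u g) (b g) p = p ∧ mob (u g) (b g) q = q

variable {Γ : Type} [Group Γ]

/-- the action -/
noncomputable def Fuchs.act (F : Fuchs Γ) (g : Γ) (x : ℂ) : ℂ := mob (F.u g) (F.b g) x

/-- the derivative of the action -/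
noncomputable def Fuchs.dact (F : Fuchs Γ) (g : Γ) (x : ℂ) : ℂ := mobD (F.u g) (F.b g) x

/-- the limit set -/
def Fuchs.lim (F : Fuchs Γ) : Set ℂ := {ξ | ‖ξ‖ = 1 ∧ ξ ∈ closure (range fun g => F.act g 0)}

/-- restriction to a subgroup -/
noncomputable def Fuchs.sub (F : Fuchs Γ) (Z : Subgroup Γ) : Fuchs Z where
  u g := F.u g
  b g := F.b g
  hu g := F.hu g
  hb g := F.hb g
  one x hx := by simpa using F.one x hx
  mul g h x hx := by simpa using F.mul g h x hx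
  fin r hr := by
    have := (F.fin r hr).preimage (Subtype.val_injective.injOn (s := (Subtype.val : Z → Γ) ⁻¹' _))
    exact this
  free g hg x hx := F.free g (fun h => hg (Subtype.ext h)) x hx
  hyp g hg := F.hyp g (fun h => hg (Subtype.ext h))

/-- nonelementary: two nontrivial elements without common fixed point on the circle -/
def Fuchs.Nonel (F : Fuchs Γ) : Prop :=
  ∃ g h : Γ, g ≠ 1 ∧ h ≠ 1 ∧ ∀ x : ℂ, ‖x‖ = 1 → F.act g x = x → F.act h x ≠ x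

/-- uniformly conical limit set (convex cocompactness) -/
def Fuchs.UC (F : Fuchs Γ) : Prop :=
  ∃ ρ : ℝ, ρ < 1 ∧ ∀ ξ ∈ F.lim, ∀ r : ℝ, 0 ≤ r → r < 1 → ∃ g, ‖F.act g (r * ξ)‖ ≤ ρ

/-- cocompactness on triples of limit points -/
def Fuchs.TC (F : Fuchs Γ) : Prop :=
  ∃ ε : ℝ, 0 < ε ∧ ∀ a ∈ F.lim, ∀ b ∈ F.lim, ∀ c ∈ F.lim, a ≠ b → b ≠ c → a ≠ c →
    ∃ g, ε ≤ dist (F.act g a) (F.act g b) ∧ ε ≤ dist (F.act g b) (F.act g c) ∧
      ε ≤ dist (F.act g a) (F.act g c)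

/-- `p` is the attracting and `q` the repelling fixed point of `g` -/
structure Fuchs.AR (F : Fuchs Γ) (g : Γ) (p q : ℂ) : Prop where
  np : ‖p‖ = 1
  nq : ‖q‖ = 1
  ne : p ≠ q
  fp : F.act g p = p
  fq : F.act g q = q
  att : ∀ x ∈ closedBall (0:ℂ) 1, x ≠ q → Tendsto (fun n : ℕ => F.act (g ^ n) x) atTop (𝓝 p)

/-- `ξ` is a conical limit point of the subgroup `Z` -/
def Fuchs.Con (F : Fuchs Γ) (Z : Subgroup Γ) (ξ : ℂ) : Prop :=
  ∃ ρ : ℝ, ρ < 1 ∧ ∀ r : ℝ, r < 1 → ∃ s : ℝ, r < s ∧ 0 ≤ s ∧ s < 1 ∧ ∃ g ∈ Z, ‖F.act g (s * ξ)‖ ≤ ρ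

/-! ### Homeomorphisms of the closed disc that normalise the group -/

/-- a map `H` (inverse `Hi`) with an automorphism of the group -/
structure Elt (Γ : Type) [Group Γ] where
  H : ℂ → ℂ
  Hi : ℂ → ℂ
  θ : Γ ≃* Γ

/-- `e` is an orientation preserving homeomorphism of the closed disc with `H ∘ g = θ g ∘ H` -/
structure Norm (F : Fuchs Γ) (e : Elt Γ) : Prop where
  cont : ContinuousOn e.H (closedBall 0 1)
  conti : ContinuousOn e.Hi (closedBall 0 1)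
  mapB : MapsTo e.H (ball 0 1) (ball 0 1)
  mapBi : MapsTo e.Hi (ball 0 1) (ball 0 1)
  mapS : MapsTo e.H (sphere 0 1) (sphere 0 1)
  mapSi : MapsTo e.Hi (sphere 0 1) (sphere 0 1)
  left : ∀ x ∈ closedBall (0:ℂ) 1, e.Hi (e.H x) = x
  right : ∀ x ∈ closedBall (0:ℂ) 1, e.H (e.Hi x) = x
  equi : ∀ g, ∀ x ∈ closedBall (0:ℂ) 1, e.H (F.act g x) = F.act (e.θ g) (e.H x)
  orient : HasLog (fun z => e.H z / z) (sphere 0 1)

/-- composition `e ∘ e'` -/
def Elt.comp (e e' : Elt Γ) : Elt Γ := ⟨e.H ∘ e'.H, e'.Hi ∘ e.Hi, e'.θ.trans e.θ⟩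

/-- `c ∘ e` for a group element `c` -/
noncomputable def Elt.lmul (F : Fuchs Γ) (c : Γ) (e : Elt Γ) : Elt Γ :=
  ⟨F.act c ∘ e.H, e.Hi ∘ F.act c⁻¹, e.θ.trans (MulAut.conj c)⟩

/-- the inverse -/
def Elt.inv (e : Elt Γ) : Elt Γ := ⟨e.Hi, e.H, e.θ.symm⟩

/-- the centraliser of `e` in the group -/
def Elt.cen (e : Elt Γ) : Subgroup Γ where
  carrier := {g | e.θ g = g}
  mul_mem' := by
    intro a b (ha : e.θ a = a) (hb : e.θ b = b)
    show e.θ (a * b) = a * b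
    rw [map_mul, ha, hb]
  one_mem' := by simp
  inv_mem' := by
    intro a (ha : e.θ a = a)
    show e.θ a⁻¹ = a⁻¹
    rw [map_inv, ha]

/-- superattracting fixed point on the circle -/
def SA (H : ℂ → ℂ) (ξ : ℂ) : Prop :=
  H ξ = ξ ∧ ∀ ε : ℝ, 0 < ε → ∃ δ : ℝ, 0 < δ ∧ ∀ x ∈ closedBall (0:ℂ) 1, dist x ξ < δ →
    dist (H x) ξ ≤ ε * dist x ξ

/-- all fixed points of `H` in the open disc lie in the `Z`-translates of finitely many pairwise
disjoint holes of index one -/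
structure Holes (F : Fuchs Γ) (H : ℂ → ℂ) (Z : Subgroup Γ) (m : ℕ) (O : Fin m → Set ℂ)
    (k : Fin m → ℂ) : Prop where
  opn : ∀ i, IsOpen (O i)
  mem : ∀ i, k i ∈ O i
  sub : ∀ i, closure (O i) ⊆ ball 0 1
  disj : ∀ i j, ∀ g ∈ Z, (g ≠ 1 ∨ i ≠ j) → Disjoint (F.act g '' closure (O i)) (closure (O j))
  fix : ∀ x ∈ ball (0:ℂ) 1, H x = x → ∃ g ∈ Z, ∃ i, x ∈ F.act g '' O i
  log : ∀ i, HasLog (fun x => (H x - x) / (x - k i)) (frontier (O i))

/-- the family of all lifts of positive degree: closed under composition and under left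
multiplication by the group, and every member satisfies (N1), (N2) in both directions -/
structure Fam (F : Fuchs Γ) (𝓗 : Set (Elt Γ)) : Prop where
  ne : 𝓗.Nonempty
  norm : ∀ e ∈ 𝓗, Norm F e
  comp : ∀ e ∈ 𝓗, ∀ e' ∈ 𝓗, e.comp e' ∈ 𝓗
  lmul : ∀ e ∈ 𝓗, ∀ c, e.lmul F c ∈ 𝓗
  bd : ∀ e ∈ 𝓗, ∀ ξ : ℂ, ‖ξ‖ = 1 → e.H ξ = ξ → ξ ∈ F.lim
  holes : ∀ e ∈ 𝓗, ∃ m O k, Holes F e.H e.cen m O k
  holesi : ∀ e ∈ 𝓗, ∃ m O k, Holes F e.Hi e.cen m O k

/-! ### Coordinates of the strip adapted to two boundary points -/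

/-- the Moebius map onto the upper half plane with `q ↦ 0`, `p ↦ ∞` -/
noncomputable def eta (p q x : ℂ) : ℂ :=
  Complex.I * (1 - p * (starRingEnd ℂ) q) * (x - q) / (p - x)

/-- the coordinate onto the strip `0 ≤ Im ≤ π` -/
noncomputable def om (p q x : ℂ) : ℂ := Complex.log (eta p q x)

/-- the inverse of `om p q` -/
noncomputable def omi (p q ω : ℂ) : ℂ :=
  (p * Complex.exp ω + Complex.I * (1 - p * (starRingEnd ℂ) q) * q) /
    (Complex.exp ω + Complex.I * (1 - p * (starRingEnd ℂ) q))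

end TN

end S_H12_TN_Defs

section S_H12_TN_CO

/-!
CO (strip coordinates, part 1: the maps `eta`, `om`, `omi`).  `p ≠ q` on the unit circle, `conj q = q⁻¹`, `conj p = p⁻¹`,
`c = 1 - p * conj q`.
`pq_re`: `‖p - q‖² = 2 - 2 re (p conj q)`.
`eta_im`: for `x ≠ p` multiply numerator and denominator by `conj (p - x)`: `im (I Z) = re Z` and
`(1 - p conj q)(x - q)(conj p - conj x) = (1 - |x|²) + (conj p x - p conj x) + (conj x q - conj q x) + p conj q |x|² - conj p q`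
has real part `(1 - |x|²)(1 - re (p conj q))`; for `x = p` both sides are `0` (division by zero).
`eta_sub`: `(x - q)/(p - x) - (y - q)/(p - y) = (x - y)(p - q)/((p - x)(p - y))`.
`om`: for `x ∈ Dpq`, `eta` is nonzero with nonnegative imaginary part (`eta_im`), so `exp (log eta) = eta`, `arg ∈ [0, π]`
(`Complex.arg_nonneg_iff`), `arg ∈ (0, π)` iff the imaginary part is positive, i.e. `‖x‖ < 1`; `log` is continuous on
`{z ≠ 0 | 0 ≤ im z}`: on the slit plane `Complex.continuousAt_clog`, on the negative real axis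
`Complex.continuousWithinAt_log_of_re_neg_of_im_zero`.
`omi`: `E = exp ω` has `im E ≥ 0`, and `im (E + I c) = im E + re c > 0` (`pq_re`): the denominator is nonzero.  `x = omi ω` is the
solution of `eta x = E`: `p - x = I c (p - q)/(E + I c) ≠ 0`, `x - q = E (p - q)/(E + I c) ≠ 0`, so `eta x = E` and by `eta_im`
`1 - |x|²` has the sign of `im E = exp (re ω) sin (im ω)`.  `om (omi ω) = log (exp ω) = ω` as `im ω ∈ [0, π] ⊆ (-π, π]`.
`omi (om x) = x`: from `exp (om x) = eta x` and `x (E + I c) = p E + I c q`.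
`om_metric`: `sin (im om) = im eta / ‖eta‖`, `‖eta‖ = ‖p - q‖ ‖x - q‖ / ‖p - x‖`  (`‖1 - p conj q‖ = ‖q - p‖`).
-/

namespace TN
open Metric Set Filter Topology DS

/-- the closed strip `0 ≤ im ≤ π` -/
def Str : Set ℂ := {ω | 0 ≤ ω.im ∧ ω.im ≤ Real.pi}

/-- the closed disc without the points `p`, `q` -/
def Dpq (p q : ℂ) : Set ℂ := {x | ‖x‖ ≤ 1 ∧ x ≠ p ∧ x ≠ q}

variable {p q : ℂ}

private theorem CO_sq {z : ℂ} (h : ‖z‖ = 1) : z.re ^ 2 + z.im ^ 2 = 1 := by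
  have h1 : Complex.normSq z = 1 := by rw [Complex.normSq_eq_norm_sq, h]; norm_num
  rw [Complex.normSq_apply] at h1
  linarith

theorem pq_re (hp : ‖p‖ = 1) (hq : ‖q‖ = 1) :
    1 - (p * (starRingEnd ℂ) q).re = ‖p - q‖ ^ 2 / 2 := by
  have h1 : p.re ^ 2 + p.im ^ 2 = 1 := CO_sq hp
  have h2 : q.re ^ 2 + q.im ^ 2 = 1 := CO_sq hq
  rw [← Complex.normSq_eq_norm_sq, Complex.normSq_apply]
  simp only [Complex.mul_re, Complex.conj_re, Complex.conj_im, Complex.sub_re, Complex.sub_im]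
  linear_combination -(h1 + h2) / 2

theorem pq_norm (hp : ‖p‖ = 1) (hq : ‖q‖ = 1) : ‖1 - p * (starRingEnd ℂ) q‖ = ‖p - q‖ := by
  have h1 : (1 : ℂ) = q * (starRingEnd ℂ) q := by
    rw [Complex.mul_conj, Complex.normSq_eq_norm_sq, hq]; simp
  have h2 : 1 - p * (starRingEnd ℂ) q = (q - p) * (starRingEnd ℂ) q := by
    linear_combination h1
  rw [h2, norm_mul, Complex.norm_conj, hq, mul_one, norm_sub_rev]

theorem eta_im (hp : ‖p‖ = 1) (hq : ‖q‖ = 1) (x : ℂ) :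
    (eta p q x).im = (1 - ‖x‖ ^ 2) * ‖p - q‖ ^ 2 / (2 * ‖p - x‖ ^ 2) := by
  by_cases hx : x = p
  · subst hx
    simp [eta]
  have hpx : p - x ≠ 0 := sub_ne_zero.2 (Ne.symm hx)
  have hn : Complex.normSq (p - x) ≠ 0 := by simpa using hpx
  have h1 : p.re ^ 2 + p.im ^ 2 = 1 := CO_sq hp
  have h2 : q.re ^ 2 + q.im ^ 2 = 1 := CO_sq hq
  rw [eta, Complex.div_im, ← Complex.normSq_eq_norm_sq x, ← Complex.normSq_eq_norm_sq (p - q),
    ← Complex.normSq_eq_norm_sq (p - x)]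
  rw [← sub_div, eq_div_iff (by positivity), div_mul_eq_mul_div, div_eq_iff hn]
  simp only [Complex.normSq_apply, Complex.mul_re, Complex.mul_im, Complex.conj_re, Complex.conj_im,
    Complex.sub_re, Complex.sub_im, Complex.I_re, Complex.I_im, Complex.one_re, Complex.one_im]
  linear_combination (2 * (((p.re - x.re) * (p.re - x.re) + (p.im - x.im) * (p.im - x.im)))) *
    (((q.re ^ 2 + q.im ^ 2) - (q.re * x.re + q.im * x.im) - (1 - (x.re ^ 2 + x.im ^ 2)) / 2) * h1 +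
      (1 - (p.re * x.re + p.im * x.im) - (1 - (x.re ^ 2 + x.im ^ 2)) / 2) * h2)

private theorem CO_c (hp : ‖p‖ = 1) (hq : ‖q‖ = 1) (hpq : p ≠ q) :
    1 - p * (starRingEnd ℂ) q ≠ 0 := by
  rw [← norm_ne_zero_iff, pq_norm hp hq]
  exact norm_ne_zero_iff.2 (sub_ne_zero.2 hpq)

private theorem CO_im_nonneg (hp : ‖p‖ = 1) (hq : ‖q‖ = 1) {x : ℂ} (hx : ‖x‖ ≤ 1) :
    0 ≤ (eta p q x).im := by
  rw [eta_im hp hq]
  have : 0 ≤ 1 - ‖x‖ ^ 2 := by nlinarith [norm_nonneg x]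
  positivity

private theorem CO_im_pos (hp : ‖p‖ = 1) (hq : ‖q‖ = 1) (hpq : p ≠ q) {x : ℂ} (hx : ‖x‖ < 1) :
    0 < (eta p q x).im := by
  rw [eta_im hp hq]
  have h1 : 0 < 1 - ‖x‖ ^ 2 := by nlinarith [norm_nonneg x]
  have h2 : 0 < ‖p - q‖ := norm_pos_iff.2 (sub_ne_zero.2 hpq)
  have hxp : x ≠ p := by rintro rfl; linarith
  have h3 : 0 < ‖p - x‖ := norm_pos_iff.2 (sub_ne_zero.2 (Ne.symm hxp))
  positivity

private theorem CO_eta_cont {x : ℂ} (hx : x ≠ p) : ContinuousAt (eta p q) x := by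
  unfold eta
  refine ContinuousAt.div ?_ ?_ (sub_ne_zero.2 (Ne.symm hx))
  · fun_prop
  · fun_prop

private theorem CO_exp_im {ω : ℂ} (hω : ω ∈ Str) : 0 ≤ (Complex.exp ω).im := by
  rw [Complex.exp_im]
  exact mul_nonneg (Real.exp_pos _).le (Real.sin_nonneg_of_nonneg_of_le_pi hω.1 hω.2)

private theorem CO_omi_sub {ω : ℂ} (hD : Complex.exp ω + Complex.I * (1 - p * (starRingEnd ℂ) q) ≠ 0) :
    omi p q ω - q = Complex.exp ω * (p - q) / (Complex.exp ω + Complex.I * (1 - p * (starRingEnd ℂ) q)) ∧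
    p - omi p q ω = Complex.I * (1 - p * (starRingEnd ℂ) q) * (p - q) /
      (Complex.exp ω + Complex.I * (1 - p * (starRingEnd ℂ) q)) := by
  constructor
  · rw [eq_div_iff hD, sub_mul, omi, div_mul_cancel₀ _ hD]
    ring
  · rw [eq_div_iff hD, sub_mul, omi, div_mul_cancel₀ _ hD]
    ring

private theorem CO_omi (hp : ‖p‖ = 1) (hq : ‖q‖ = 1) (hpq : p ≠ q) {ω : ℂ}
    (hD : Complex.exp ω + Complex.I * (1 - p * (starRingEnd ℂ) q) ≠ 0) :
    omi p q ω ≠ p ∧ omi p q ω ≠ q ∧ eta p q (omi p q ω) = Complex.exp ω := by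
  obtain ⟨h1, h2⟩ := CO_omi_sub hD
  have hc := CO_c hp hq hpq
  have h4 : p - q ≠ 0 := sub_ne_zero.2 hpq
  have hI := Complex.I_ne_zero
  have hE := Complex.exp_ne_zero ω
  have h5 : omi p q ω - q ≠ 0 := by
    rw [h1]; exact div_ne_zero (mul_ne_zero hE h4) hD
  have h6 : p - omi p q ω ≠ 0 := by
    rw [h2]; exact div_ne_zero (mul_ne_zero (mul_ne_zero hI hc) h4) hD
  refine ⟨fun h => h6 (by rw [h, sub_self]), fun h => h5 (by rw [h, sub_self]), ?_⟩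
  rw [eta, h1, h2, ← mul_div_assoc, div_div_div_cancel_right₀ hD,
    div_eq_iff (mul_ne_zero (mul_ne_zero hI hc) h4)]
  ring

theorem eta_ne (hp : ‖p‖ = 1) (hq : ‖q‖ = 1) (hpq : p ≠ q) {x : ℂ} (h1 : x ≠ p) (h2 : x ≠ q) :
    eta p q x ≠ 0 := by
  have hc := CO_c hp hq hpq
  have h3 : p - x ≠ 0 := sub_ne_zero.2 (Ne.symm h1)
  have h4 : x - q ≠ 0 := sub_ne_zero.2 h2
  rw [eta]
  exact div_ne_zero (mul_ne_zero (mul_ne_zero Complex.I_ne_zero hc) h4) h3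

theorem eta_sub {x y : ℂ} (hx : x ≠ p) (hy : y ≠ p) :
    eta p q x - eta p q y = Complex.I * (1 - p * (starRingEnd ℂ) q) * (p - q) * (x - y) /
      ((p - x) * (p - y)) := by
  have h3 : p - x ≠ 0 := sub_ne_zero.2 (Ne.symm hx)
  have h4 : p - y ≠ 0 := sub_ne_zero.2 (Ne.symm hy)
  rw [eta, eta]
  field_simp
  ring

theorem exp_om (hp : ‖p‖ = 1) (hq : ‖q‖ = 1) (hpq : p ≠ q) {x : ℂ} (h1 : x ≠ p) (h2 : x ≠ q) :
    Complex.exp (om p q x) = eta p q x := by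
  rw [om, Complex.exp_log (eta_ne hp hq hpq h1 h2)]

theorem om_mem (hp : ‖p‖ = 1) (hq : ‖q‖ = 1) (hpq : p ≠ q) {x : ℂ} (hx : x ∈ Dpq p q) :
    om p q x ∈ Str := by
  have h := CO_im_nonneg hp hq hx.1
  constructor
  · rw [om, Complex.log_im, Complex.arg_nonneg_iff]; exact h
  · rw [om, Complex.log_im]; exact Complex.arg_le_pi _

theorem om_im_pos (hp : ‖p‖ = 1) (hq : ‖q‖ = 1) (hpq : p ≠ q) {x : ℂ} (hx : ‖x‖ < 1) :
    0 < (om p q x).im ∧ (om p q x).im < Real.pi := by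
  have h := CO_im_pos hp hq hpq hx
  rw [om, Complex.log_im]
  constructor
  · have h1 : 0 ≤ (eta p q x).arg := Complex.arg_nonneg_iff.2 h.le
    refine lt_of_le_of_ne h1 fun h2 => ?_
    have := (Complex.arg_eq_zero_iff.1 h2.symm).2
    linarith
  · rw [Complex.arg_lt_pi_iff]
    exact Or.inr h.ne'

theorem om_im_zero (hp : ‖p‖ = 1) (hq : ‖q‖ = 1) (hpq : p ≠ q) {x : ℂ} (hx : ‖x‖ = 1)
    (h1 : x ≠ p) (h2 : x ≠ q) :
    ((om p q x).im = 0 ∧ 0 < (eta p q x).re) ∨ ((om p q x).im = Real.pi ∧ (eta p q x).re < 0) := by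
  have h0 : (eta p q x).im = 0 := by rw [eta_im hp hq, hx]; simp
  have hne := eta_ne hp hq hpq h1 h2
  have hre : (eta p q x).re ≠ 0 := fun h => hne (Complex.ext h h0)
  rw [om, Complex.log_im]
  rcases lt_or_gt_of_ne hre with h | h
  · exact Or.inr ⟨Complex.arg_eq_pi_iff.2 ⟨h, h0⟩, h⟩
  · exact Or.inl ⟨Complex.arg_eq_zero_iff.2 ⟨h.le, h0⟩, h⟩

theorem om_cont (hp : ‖p‖ = 1) (hq : ‖q‖ = 1) (hpq : p ≠ q) :
    ContinuousOn (om p q) (Dpq p q) := by
  have h1 : ContinuousOn (eta p q) (Dpq p q) := by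
    intro x hx
    exact (CO_eta_cont hx.2.1).continuousWithinAt
  have h2 : ContinuousOn Complex.log {z : ℂ | z ≠ 0 ∧ 0 ≤ z.im} := by
    intro z hz
    by_cases hs : z ∈ Complex.slitPlane
    · exact (continuousAt_clog hs).continuousWithinAt
    · rw [Complex.mem_slitPlane_iff] at hs
      push Not at hs
      have hre : z.re < 0 := lt_of_le_of_ne hs.1 fun h => hz.1 (Complex.ext h hs.2)
      exact (Complex.continuousWithinAt_log_of_re_neg_of_im_zero hre hs.2).mono fun w hw => hw.2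
  exact h2.comp h1 fun x hx => ⟨eta_ne hp hq hpq hx.2.1 hx.2.2, CO_im_nonneg hp hq hx.1⟩

theorem omi_den (hp : ‖p‖ = 1) (hq : ‖q‖ = 1) (hpq : p ≠ q) {ω : ℂ} (hω : ω ∈ Str) :
    Complex.exp ω + Complex.I * (1 - p * (starRingEnd ℂ) q) ≠ 0 := by
  intro h
  have h1 := congrArg Complex.im h
  have h2 := pq_re hp hq
  have h3 : 0 < ‖p - q‖ := norm_pos_iff.2 (sub_ne_zero.2 hpq)
  have h4 := CO_exp_im hω
  simp only [Complex.add_im, Complex.mul_im, Complex.I_re, Complex.I_im, Complex.sub_re,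
    Complex.one_re, Complex.zero_im] at h1
  have h5 : 0 < ‖p - q‖ ^ 2 / 2 := by positivity
  linarith

theorem omi_mem (hp : ‖p‖ = 1) (hq : ‖q‖ = 1) (hpq : p ≠ q) {ω : ℂ} (hω : ω ∈ Str) :
    omi p q ω ∈ Dpq p q := by
  obtain ⟨h1, h2, h3⟩ := CO_omi hp hq hpq (omi_den hp hq hpq hω)
  refine ⟨?_, h1, h2⟩
  have h4 := CO_exp_im hω
  rw [← h3, eta_im hp hq] at h4
  have h5 : 0 < ‖p - q‖ := norm_pos_iff.2 (sub_ne_zero.2 hpq)
  have h6 : 0 < ‖p - omi p q ω‖ := norm_pos_iff.2 (sub_ne_zero.2 (Ne.symm h1))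
  by_contra hc
  push Not at hc
  have h7 : 1 - ‖omi p q ω‖ ^ 2 < 0 := by nlinarith
  have h8 : (1 - ‖omi p q ω‖ ^ 2) * ‖p - q‖ ^ 2 / (2 * ‖p - omi p q ω‖ ^ 2) < 0 :=
    div_neg_of_neg_of_pos (mul_neg_of_neg_of_pos h7 (by positivity)) (by positivity)
  linarith

theorem omi_ball (hp : ‖p‖ = 1) (hq : ‖q‖ = 1) (hpq : p ≠ q) {ω : ℂ} (h0 : 0 < ω.im)
    (h1 : ω.im < Real.pi) : ‖omi p q ω‖ < 1 := by
  obtain ⟨h1, h2, h3⟩ := CO_omi hp hq hpq (omi_den hp hq hpq ⟨h0.le, h1.le⟩)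
  have h4 : 0 < (Complex.exp ω).im := by
    rw [Complex.exp_im]
    exact mul_pos (Real.exp_pos _) (Real.sin_pos_of_pos_of_lt_pi h0 (by assumption))
  rw [← h3, eta_im hp hq] at h4
  by_contra hc
  push Not at hc
  have h7 : 1 - ‖omi p q ω‖ ^ 2 ≤ 0 := by nlinarith
  have h8 : (1 - ‖omi p q ω‖ ^ 2) * ‖p - q‖ ^ 2 / (2 * ‖p - omi p q ω‖ ^ 2) ≤ 0 :=
    div_nonpos_of_nonpos_of_nonneg (mul_nonpos_of_nonpos_of_nonneg h7 (by positivity)) (by positivity)
  linarith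

theorem omi_sphere (hp : ‖p‖ = 1) (hq : ‖q‖ = 1) (hpq : p ≠ q) {ω : ℂ}
    (h : ω.im = 0 ∨ ω.im = Real.pi) : ‖omi p q ω‖ = 1 := by
  have hω : ω ∈ Str := by
    rcases h with h | h
    · exact ⟨h.ge, by rw [h]; exact Real.pi_pos.le⟩
    · exact ⟨by rw [h]; exact Real.pi_pos.le, h.le⟩
  obtain ⟨h1, h2, h3⟩ := CO_omi hp hq hpq (omi_den hp hq hpq hω)
  have h4 : (Complex.exp ω).im = 0 := by
    rw [Complex.exp_im]
    rcases h with h | h <;> simp [h]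
  rw [← h3, eta_im hp hq] at h4
  have h5 : 0 < ‖p - q‖ := norm_pos_iff.2 (sub_ne_zero.2 hpq)
  have h6 : 0 < ‖p - omi p q ω‖ := norm_pos_iff.2 (sub_ne_zero.2 (Ne.symm h1))
  rw [div_eq_zero_iff] at h4
  rcases h4 with h4 | h4
  · rcases mul_eq_zero.1 h4 with h7 | h7
    · have : ‖omi p q ω‖ ^ 2 = 1 := by linarith
      exact (pow_eq_one_iff_of_nonneg (norm_nonneg _) two_ne_zero).1 this
    · exfalso
      have : 0 < ‖p - q‖ ^ 2 := by positivity
      linarith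
  · exfalso
    have : 0 < 2 * ‖p - omi p q ω‖ ^ 2 := by positivity
    linarith

theorem omi_cont (hp : ‖p‖ = 1) (hq : ‖q‖ = 1) (hpq : p ≠ q) : ContinuousOn (omi p q) Str := by
  intro ω hω
  have h1 : ContinuousAt (omi p q) ω := by
    unfold omi
    refine ContinuousAt.div ?_ ?_ (omi_den hp hq hpq hω)
    · fun_prop
    · fun_prop
  exact h1.continuousWithinAt

theorem omi_om (hp : ‖p‖ = 1) (hq : ‖q‖ = 1) (hpq : p ≠ q) {x : ℂ} (hx : x ∈ Dpq p q) :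
    omi p q (om p q x) = x := by
  have hc := CO_c hp hq hpq
  have h3 : p - x ≠ 0 := sub_ne_zero.2 (Ne.symm hx.2.1)
  have h4 : p - q ≠ 0 := sub_ne_zero.2 hpq
  have hI := Complex.I_ne_zero
  have h5 : eta p q x + Complex.I * (1 - p * (starRingEnd ℂ) q) =
      Complex.I * (1 - p * (starRingEnd ℂ) q) * (p - q) / (p - x) := by
    rw [eta, eq_div_iff h3, add_mul, div_mul_cancel₀ _ h3]
    ring
  have h6 : p * eta p q x + Complex.I * (1 - p * (starRingEnd ℂ) q) * q =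
      x * (Complex.I * (1 - p * (starRingEnd ℂ) q) * (p - q) / (p - x)) := by
    rw [← mul_div_assoc, eq_div_iff h3, add_mul, eta, mul_assoc, div_mul_cancel₀ _ h3]
    ring
  rw [omi, exp_om hp hq hpq hx.2.1 hx.2.2, h5, h6]
  exact mul_div_cancel_right₀ _ (div_ne_zero (mul_ne_zero (mul_ne_zero hI hc) h4) h3)

theorem om_omi (hp : ‖p‖ = 1) (hq : ‖q‖ = 1) (hpq : p ≠ q) {ω : ℂ} (hω : ω ∈ Str) :
    om p q (omi p q ω) = ω := by
  obtain ⟨h1, h2, h3⟩ := CO_omi hp hq hpq (omi_den hp hq hpq hω)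
  rw [om, h3, Complex.log_exp]
  · linarith [hω.1, Real.pi_pos]
  · exact hω.2

theorem om_hasDerivAt (hp : ‖p‖ = 1) (hq : ‖q‖ = 1) (hpq : p ≠ q) {x : ℂ} (hx : ‖x‖ < 1) :
    HasDerivAt (om p q) ((p - q) / ((x - q) * (p - x))) x := by
  have hxp : x ≠ p := by rintro rfl; linarith
  have hxq : x ≠ q := by rintro rfl; linarith
  have hc := CO_c hp hq hpq
  have h3 : p - x ≠ 0 := sub_ne_zero.2 (Ne.symm hxp)
  have h4 : x - q ≠ 0 := sub_ne_zero.2 hxq
  have hI := Complex.I_ne_zero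
  have h5 : HasDerivAt (eta p q) (Complex.I * (1 - p * (starRingEnd ℂ) q) * (p - q) / (p - x) ^ 2) x := by
    have h6 : HasDerivAt (fun y : ℂ => Complex.I * (1 - p * (starRingEnd ℂ) q) * (y - q))
        (Complex.I * (1 - p * (starRingEnd ℂ) q)) x := by
      simpa using ((hasDerivAt_id x).sub_const q).const_mul (Complex.I * (1 - p * (starRingEnd ℂ) q))
    have h7 : HasDerivAt (fun y : ℂ => p - y) (-1) x := by
      simpa using (hasDerivAt_id x).const_sub p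
    refine (h6.div h7 h3).congr_deriv ?_
    congr 1
    ring
  have hs : eta p q x ∈ Complex.slitPlane := by
    rw [Complex.mem_slitPlane_iff]
    exact Or.inr (CO_im_pos hp hq hpq hx).ne'
  refine (h5.clog hs).congr_deriv ?_
  rw [eta]
  field_simp

theorem omi_hasDerivAt (hp : ‖p‖ = 1) (hq : ‖q‖ = 1) (hpq : p ≠ q) {ω : ℂ} (hω : ω ∈ Str) :
    HasDerivAt (omi p q) ((omi p q ω - q) * (p - omi p q ω) / (p - q)) ω := by
  have hD := omi_den hp hq hpq hω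
  obtain ⟨h1, h2⟩ := CO_omi_sub hD
  have h4 : p - q ≠ 0 := sub_ne_zero.2 hpq
  rw [h1, h2]
  have hE : HasDerivAt Complex.exp (Complex.exp ω) ω := Complex.hasDerivAt_exp ω
  have h6 : HasDerivAt (fun ω : ℂ => p * Complex.exp ω + Complex.I * (1 - p * (starRingEnd ℂ) q) * q)
      (p * Complex.exp ω) ω := (hE.const_mul p).add_const _
  have h7 : HasDerivAt (fun ω : ℂ => Complex.exp ω + Complex.I * (1 - p * (starRingEnd ℂ) q))
      (Complex.exp ω) ω := hE.add_const _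
  refine (h6.div h7 hD).congr_deriv ?_
  rw [div_mul_div_comm, div_div, div_eq_div_iff (pow_ne_zero 2 hD) (mul_ne_zero (mul_ne_zero hD hD) h4)]
  ring

/-- the hyperbolic metric in the strip coordinate -/
theorem om_metric (hp : ‖p‖ = 1) (hq : ‖q‖ = 1) (hpq : p ≠ q) {x : ℂ} (hx : ‖x‖ < 1) :
    ‖(p - q) / ((x - q) * (p - x))‖ * (1 - ‖x‖ ^ 2) = 2 * Real.sin (om p q x).im := by
  have hxp : x ≠ p := by rintro rfl; linarith
  have hxq : x ≠ q := by rintro rfl; linarith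
  have hne := eta_ne hp hq hpq hxp hxq
  have h3 : 0 < ‖p - x‖ := norm_pos_iff.2 (sub_ne_zero.2 (Ne.symm hxp))
  have h4 : 0 < ‖x - q‖ := norm_pos_iff.2 (sub_ne_zero.2 hxq)
  have h5 : 0 < ‖p - q‖ := norm_pos_iff.2 (sub_ne_zero.2 hpq)
  have h6 : ‖eta p q x‖ = ‖p - q‖ * ‖x - q‖ / ‖p - x‖ := by
    rw [eta, norm_div, norm_mul, norm_mul, Complex.norm_I, one_mul, pq_norm hp hq]
  rw [om, Complex.log_im, Complex.sin_arg, eta_im hp hq, h6, norm_div, norm_mul]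
  field_simp

end TN

end S_H12_TN_CO

section S_H12_TN_MB

/-!
MB (Moebius maps of the disc).  Pure computation, `c = 1 - conj b * x ≠ 0` because `‖conj b * x‖ < 1`.
`mob_norm`: `‖c‖² - ‖x - b‖² = (1 - ‖b‖²)(1 - ‖x‖²)`.
`mob_dist`: `mob u b x - mob u b y = u (1 - ‖b‖²) (x - y) / ((1 - conj b x) (1 - conj b y))`.
`mob_pd`: the same for `1 - conj (mob x) * mob y = (1 - ‖b‖²)(1 - conj x y) / (conj (1 - conj b x) (1 - conj b y))`.
`mob_log`: on the unit circle `z⁻¹ = conj z`, `mob u b z / z = u (1 - b conj z) / (1 - conj b z)`, and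
`1 - b conj z`, `1 - conj b z` are in the slit plane (real part positive): use `Complex.log`.
`mob_comp_inv`: `mob (conj u) (-u b)` is the inverse.
-/

namespace TN
open Metric Set Filter Topology DS

theorem MB_norm_lt {b x : ℂ} (hb : ‖b‖ < 1) (hx : ‖x‖ ≤ 1) : ‖(starRingEnd ℂ) b * x‖ < 1 := by
  rw [norm_mul, RCLike.norm_conj]
  calc ‖b‖ * ‖x‖ ≤ ‖b‖ * 1 := mul_le_mul_of_nonneg_left hx (norm_nonneg _)
    _ < 1 := by linarith

theorem den_ne {b x : ℂ} (hb : ‖b‖ < 1) (hx : ‖x‖ ≤ 1) : 1 - (starRingEnd ℂ) b * x ≠ 0 := by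
  intro h
  have h1 := MB_norm_lt hb hx
  rw [← sub_eq_zero.1 h, norm_one] at h1
  exact lt_irrefl _ h1

theorem den_re {b x : ℂ} (hb : ‖b‖ < 1) (hx : ‖x‖ ≤ 1) : 0 < (1 - (starRingEnd ℂ) b * x).re := by
  rw [Complex.sub_re, Complex.one_re]
  have h1 := MB_norm_lt hb hx
  have h2 := Complex.re_le_norm ((starRingEnd ℂ) b * x)
  linarith

theorem MB_key (b x : ℂ) : ‖1 - (starRingEnd ℂ) b * x‖ ^ 2 - ‖x - b‖ ^ 2 =
    (1 - ‖b‖ ^ 2) * (1 - ‖x‖ ^ 2) := by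
  simp only [Complex.sq_norm, Complex.normSq_apply, Complex.sub_re, Complex.sub_im, Complex.mul_re,
    Complex.mul_im, Complex.conj_re, Complex.conj_im, Complex.one_re, Complex.one_im]
  ring

theorem mob_norm {u b x : ℂ} (hu : ‖u‖ = 1) (hb : ‖b‖ < 1) (hx : ‖x‖ ≤ 1) :
    1 - ‖mob u b x‖ ^ 2 = (1 - ‖b‖ ^ 2) * (1 - ‖x‖ ^ 2) / ‖1 - (starRingEnd ℂ) b * x‖ ^ 2 := by
  have h0 : ‖1 - (starRingEnd ℂ) b * x‖ ≠ 0 := norm_ne_zero_iff.2 (den_ne hb hx)
  rw [← MB_key, mob, norm_div, norm_mul, hu, one_mul, div_pow, sub_div, div_self (pow_ne_zero 2 h0)]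

theorem mob_sub {u b x y : ℂ} (hb : ‖b‖ < 1) (hx : ‖x‖ ≤ 1) (hy : ‖y‖ ≤ 1) :
    mob u b x - mob u b y = u * (1 - (starRingEnd ℂ) b * b) * (x - y) /
      ((1 - (starRingEnd ℂ) b * x) * (1 - (starRingEnd ℂ) b * y)) := by
  have h1 := den_ne hb hx
  have h2 := den_ne hb hy
  rw [mob, mob, div_sub_div _ _ h1 h2]
  congr 1
  ring

theorem MB_norm_bb {b : ℂ} (hb : ‖b‖ < 1) : ‖1 - (starRingEnd ℂ) b * b‖ = 1 - ‖b‖ ^ 2 := by
  have h1 : 1 - (starRingEnd ℂ) b * b = ((1 - ‖b‖ ^ 2 : ℝ) : ℂ) := by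
    rw [Complex.conj_mul']
    push_cast
    rfl
  rw [h1, Complex.norm_real, Real.norm_eq_abs, abs_of_pos]
  nlinarith [norm_nonneg b]

theorem MB_bb_ne {b : ℂ} (hb : ‖b‖ < 1) : 1 - (starRingEnd ℂ) b * b ≠ 0 := den_ne hb hb.le

theorem mob_dist {u b x y : ℂ} (hu : ‖u‖ = 1) (hb : ‖b‖ < 1) (hx : ‖x‖ ≤ 1) (hy : ‖y‖ ≤ 1) :
    dist (mob u b x) (mob u b y) = (1 - ‖b‖ ^ 2) * dist x y /
      (‖1 - (starRingEnd ℂ) b * x‖ * ‖1 - (starRingEnd ℂ) b * y‖) := by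
  rw [dist_eq_norm, mob_sub hb hx hy, norm_div, norm_mul, norm_mul, norm_mul, hu, one_mul,
    MB_norm_bb hb, dist_eq_norm]

theorem mob_ball {u b x : ℂ} (hu : ‖u‖ = 1) (hb : ‖b‖ < 1) (hx : ‖x‖ < 1) : ‖mob u b x‖ < 1 := by
  have h1 := mob_norm hu hb hx.le
  have h2 : 0 < (1 - ‖b‖ ^ 2) * (1 - ‖x‖ ^ 2) / ‖1 - (starRingEnd ℂ) b * x‖ ^ 2 := by
    have h3 : 0 < ‖1 - (starRingEnd ℂ) b * x‖ := norm_pos_iff.2 (den_ne hb hx.le)
    have h4 : 0 < 1 - ‖b‖ ^ 2 := by nlinarith [norm_nonneg b]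
    have h5 : 0 < 1 - ‖x‖ ^ 2 := by nlinarith [norm_nonneg x]
    positivity
  have h3 : ‖mob u b x‖ ^ 2 < 1 := by linarith
  nlinarith [norm_nonneg (mob u b x)]

theorem mob_sphere {u b x : ℂ} (hu : ‖u‖ = 1) (hb : ‖b‖ < 1) (hx : ‖x‖ = 1) : ‖mob u b x‖ = 1 := by
  have h1 := mob_norm hu hb hx.le
  rw [hx] at h1
  have h2 : ‖mob u b x‖ ^ 2 = 1 := by
    have : (1 - ‖b‖ ^ 2) * (1 - (1:ℝ) ^ 2) / ‖1 - (starRingEnd ℂ) b * x‖ ^ 2 = 0 := by simp
    linarith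
  nlinarith [norm_nonneg (mob u b x)]

theorem mob_closedBall {u b x : ℂ} (hu : ‖u‖ = 1) (hb : ‖b‖ < 1) (hx : ‖x‖ ≤ 1) :
    ‖mob u b x‖ ≤ 1 := by
  rcases hx.lt_or_eq with h | h
  · exact (mob_ball hu hb h).le
  · exact (mob_sphere hu hb h).le

theorem mob_hasDerivAt {u b x : ℂ} (hb : ‖b‖ < 1) (hx : ‖x‖ ≤ 1) :
    HasDerivAt (mob u b) (mobD u b x) x := by
  have h0 := den_ne hb hx
  have h1 : HasDerivAt (fun x : ℂ => u * (x - b)) u x := by
    simpa using ((hasDerivAt_id x).sub_const b).const_mul u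
  have h2 : HasDerivAt (fun x : ℂ => 1 - (starRingEnd ℂ) b * x) (-(starRingEnd ℂ) b) x := by
    simpa using ((hasDerivAt_id x).const_mul ((starRingEnd ℂ) b)).const_sub 1
  have h3 := h1.div h2 h0
  refine h3.congr_deriv ?_
  rw [mobD]
  congr 1
  ring

theorem mob_cont {u b : ℂ} (hb : ‖b‖ < 1) : ContinuousOn (mob u b) (closedBall 0 1) :=
  fun x hx => (mob_hasDerivAt hb (by simpa using hx)).continuousAt.continuousWithinAt

theorem mobD_norm {u b x : ℂ} (hu : ‖u‖ = 1) (hb : ‖b‖ < 1) :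
    ‖mobD u b x‖ = (1 - ‖b‖ ^ 2) / ‖1 - (starRingEnd ℂ) b * x‖ ^ 2 := by
  rw [mobD, norm_div, norm_mul, hu, one_mul, MB_norm_bb hb, norm_pow]

theorem MB_u_ne {u : ℂ} (hu : ‖u‖ = 1) : u ≠ 0 := by
  intro h
  rw [h, norm_zero] at hu
  exact zero_ne_one hu

theorem mobD_ne {u b x : ℂ} (hu : ‖u‖ = 1) (hb : ‖b‖ < 1) (hx : ‖x‖ ≤ 1) : mobD u b x ≠ 0 := by
  rw [mobD]
  exact div_ne_zero (mul_ne_zero (MB_u_ne hu) (MB_bb_ne hb)) (pow_ne_zero _ (den_ne hb hx))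

/-- invariance of the hyperbolic metric -/
theorem mob_conf {u b x : ℂ} (hu : ‖u‖ = 1) (hb : ‖b‖ < 1) (hx : ‖x‖ ≤ 1) :
    1 - ‖mob u b x‖ ^ 2 = ‖mobD u b x‖ * (1 - ‖x‖ ^ 2) := by
  rw [mob_norm hu hb hx, mobD_norm hu hb]
  ring

theorem MB_uu {u : ℂ} (hu : ‖u‖ = 1) : (starRingEnd ℂ) u * u = 1 := by
  rw [Complex.conj_mul', hu]
  norm_num

theorem mob_pd {u b x y : ℂ} (hu : ‖u‖ = 1) (hb : ‖b‖ < 1) (hx : ‖x‖ ≤ 1) (hy : ‖y‖ < 1) :
    pd (mob u b x) (mob u b y) = pd x y := by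
  have h1 := den_ne hb hx
  have h2 := den_ne hb hy.le
  have h1' : 1 - b * (starRingEnd ℂ) x ≠ 0 := by
    intro h
    apply h1
    have := congrArg (starRingEnd ℂ) h
    simpa using this
  have hxy : 1 - (starRingEnd ℂ) x * y ≠ 0 := by
    intro h
    have h3 : ‖(starRingEnd ℂ) x * y‖ < 1 := by
      rw [norm_mul, RCLike.norm_conj]
      calc ‖x‖ * ‖y‖ ≤ 1 * ‖y‖ := mul_le_mul_of_nonneg_right hx (norm_nonneg _)
        _ < 1 := by linarith
    rw [← sub_eq_zero.1 h, norm_one] at h3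
    exact lt_irrefl _ h3
  have hk : 1 - (starRingEnd ℂ) (mob u b x) * mob u b y =
      (1 - (starRingEnd ℂ) b * b) * (1 - (starRingEnd ℂ) x * y) /
        ((1 - b * (starRingEnd ℂ) x) * (1 - (starRingEnd ℂ) b * y)) := by
    have huu := MB_uu hu
    rw [mob, mob]
    simp only [map_div₀, map_mul, map_sub, map_one, Complex.conj_conj]
    rw [div_mul_div_comm, eq_div_iff (mul_ne_zero h1' h2), sub_mul, div_mul_cancel₀ _
      (mul_ne_zero h1' h2)]
    linear_combination (-(((starRingEnd ℂ) x - (starRingEnd ℂ) b) * (y - b))) * huu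
  rw [pd, pd, mob_sub hb hx hy.le, hk]
  have e1 : ‖(1 - (starRingEnd ℂ) b * x)‖ = ‖(1 - b * (starRingEnd ℂ) x)‖ := by
    rw [← RCLike.norm_conj (1 - (starRingEnd ℂ) b * x)]
    simp
  simp only [norm_div, norm_mul, hu, one_mul]
  rw [e1]
  have n1 : ‖1 - (starRingEnd ℂ) b * b‖ ≠ 0 := norm_ne_zero_iff.2 (MB_bb_ne hb)
  have n2 : ‖1 - b * (starRingEnd ℂ) x‖ ≠ 0 := norm_ne_zero_iff.2 h1'
  have n3 : ‖1 - (starRingEnd ℂ) b * y‖ ≠ 0 := norm_ne_zero_iff.2 h2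
  have n4 : ‖1 - (starRingEnd ℂ) x * y‖ ≠ 0 := norm_ne_zero_iff.2 hxy
  field_simp

theorem pd_symm (x y : ℂ) : pd x y = pd y x := by
  rw [pd, pd, norm_sub_rev x y, ← RCLike.norm_conj (1 - (starRingEnd ℂ) x * y)]
  congr 2
  simp [mul_comm]

theorem MB_pd_eq (x y : ℂ) : pd x y = ‖mob 1 x y‖ := by
  rw [pd, mob, norm_div, one_mul, norm_sub_rev]

/-- `pd x y < 1` in the disc -/
theorem pd_lt {x y : ℂ} (hx : ‖x‖ < 1) (hy : ‖y‖ < 1) : pd x y < 1 := by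
  rw [MB_pd_eq]
  exact mob_ball norm_one hx hy

/-- a bound for the norm of `y` in terms of `‖x‖` and `pd x y` -/
theorem norm_le_of_pd {ρ r : ℝ} (hρ : ρ < 1) (hr : r < 1) :
    ∃ s : ℝ, s < 1 ∧ ∀ x y : ℂ, ‖x‖ ≤ ρ → ‖y‖ < 1 → pd x y ≤ r → ‖y‖ ≤ s := by
  by_cases h : 0 ≤ r ∧ 0 ≤ ρ
  · obtain ⟨hr0, hρ0⟩ := h
    refine ⟨Real.sqrt (1 - (1 - r ^ 2) * (1 - ρ) ^ 2), ?_, fun x y hx hy hp => ?_⟩
    · rw [Real.sqrt_lt' one_pos]
      have h1 : 0 < (1 - r ^ 2) * (1 - ρ) ^ 2 := by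
        have h2 : 0 < 1 - r ^ 2 := by nlinarith
        have h3 : 0 < 1 - ρ := by linarith
        positivity
      linarith
    · refine Real.le_sqrt_of_sq_le ?_
      have hx1 : ‖x‖ < 1 := lt_of_le_of_lt hx hρ
      have h1 := mob_norm (u := 1) (x := y) norm_one hx1 hy.le
      rw [← MB_pd_eq] at h1
      have hc : 0 < ‖1 - (starRingEnd ℂ) x * y‖ := norm_pos_iff.2 (den_ne hx1 hy.le)
      have hc2 : 1 - ρ ≤ ‖1 - (starRingEnd ℂ) x * y‖ := by
        have h2 : ‖(1:ℂ)‖ - ‖(starRingEnd ℂ) x * y‖ ≤ ‖1 - (starRingEnd ℂ) x * y‖ :=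
          norm_sub_norm_le _ _
        rw [norm_one, norm_mul, RCLike.norm_conj] at h2
        have h3 : ‖x‖ * ‖y‖ ≤ ρ * 1 := mul_le_mul hx hy.le (norm_nonneg _) hρ0
        linarith
      rw [eq_div_iff (by positivity)] at h1
      have hp0 : 0 ≤ pd x y := by unfold pd; positivity
      have h2 : 1 - r ^ 2 ≤ 1 - pd x y ^ 2 := by nlinarith
      have h3 : (1 - r ^ 2) * (1 - ρ) ^ 2 ≤ (1 - pd x y ^ 2) * ‖1 - (starRingEnd ℂ) x * y‖ ^ 2 :=
        mul_le_mul h2 (pow_le_pow_left₀ (by linarith) hc2 2) (by positivity)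
          (by nlinarith)
      have h4 : (1 - ‖x‖ ^ 2) * (1 - ‖y‖ ^ 2) ≤ 1 - ‖y‖ ^ 2 := by
        have : 0 ≤ 1 - ‖y‖ ^ 2 := by nlinarith [norm_nonneg y]
        nlinarith [mul_nonneg (sq_nonneg ‖x‖) this]
      linarith
  · refine ⟨0, one_pos, fun x y hx hy hp => ?_⟩
    exfalso
    apply h
    refine ⟨le_trans ?_ hp, (norm_nonneg x).trans hx⟩
    unfold pd
    positivity

theorem mob_log {u b : ℂ} (hu : ‖u‖ = 1) (hb : ‖b‖ < 1) :
    HasLog (fun z => mob u b z / z) (sphere 0 1) := by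
  have hr : ∀ z ∈ sphere (0:ℂ) 1, 0 < (1 - b * (starRingEnd ℂ) z).re := by
    intro z hz
    have h1 := den_re (b := (starRingEnd ℂ) b) (x := (starRingEnd ℂ) z)
      (by rw [RCLike.norm_conj]; exact hb) (by rw [RCLike.norm_conj]; exact (mem_sphere_zero_iff_norm.1 hz).le)
    simpa using h1
  have hl : ∀ z ∈ sphere (0:ℂ) 1, 0 < (1 - (starRingEnd ℂ) b * z).re := fun z hz =>
    den_re hb (mem_sphere_zero_iff_norm.1 hz).le
  refine ⟨fun z => Complex.log u + Complex.log (1 - b * (starRingEnd ℂ) z) -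
    Complex.log (1 - (starRingEnd ℂ) b * z), ?_, ?_⟩
  · refine (continuousOn_const.add (ContinuousOn.clog ?_ ?_)).sub (ContinuousOn.clog ?_ ?_)
    · exact (continuous_const.sub (continuous_const.mul Complex.continuous_conj)).continuousOn
    · intro z hz
      exact Or.inl (hr z hz)
    · exact (continuous_const.sub (continuous_const.mul continuous_id)).continuousOn
    · intro z hz
      exact Or.inl (hl z hz)
  · intro z hz
    have hz1 : ‖z‖ = 1 := mem_sphere_zero_iff_norm.1 hz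
    have hz0 : z ≠ 0 := MB_u_ne hz1
    have hzz := MB_uu hz1
    have n1 : 1 - b * (starRingEnd ℂ) z ≠ 0 := fun h => by
      have := hr z hz
      rw [h] at this
      simp at this
    have n2 : 1 - (starRingEnd ℂ) b * z ≠ 0 := den_ne hb hz1.le
    simp only
    rw [Complex.exp_sub, Complex.exp_add, Complex.exp_log (MB_u_ne hu), Complex.exp_log n1,
      Complex.exp_log n2, mob, div_div, div_eq_div_iff (mul_ne_zero n2 hz0) n2]
    linear_combination ((u * b) * (1 - (starRingEnd ℂ) b * z)) * hzz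

theorem mob_comp_inv {u b x : ℂ} (hu : ‖u‖ = 1) (hb : ‖b‖ < 1) (hx : ‖x‖ ≤ 1) :
    mob ((starRingEnd ℂ) u) (-(u * b)) (mob u b x) = x ∧
      mob u b (mob ((starRingEnd ℂ) u) (-(u * b)) x) = x := by
  have hub : ‖-(u * b)‖ < 1 := by rw [norm_neg, norm_mul, hu, one_mul]; exact hb
  have hu' : ‖(starRingEnd ℂ) u‖ = 1 := by rw [RCLike.norm_conj]; exact hu
  have huu := MB_uu hu
  have n0 := MB_bb_ne hb
  constructor
  · have n1 := den_ne hub (mob_closedBall hu hb hx)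
    have n2 := den_ne hb hx
    have e1 : (1 - (starRingEnd ℂ) (-(u * b)) * mob u b x) * (1 - (starRingEnd ℂ) b * x) =
        1 - (starRingEnd ℂ) b * b := by
      rw [mob]
      simp only [map_neg, map_mul]
      rw [sub_mul, mul_div_assoc', div_mul_cancel₀ _ n2]
      linear_combination ((starRingEnd ℂ) b * (x - b)) * huu
    have e2 : (mob u b x - -(u * b)) * (1 - (starRingEnd ℂ) b * x) =
        u * x * (1 - (starRingEnd ℂ) b * b) := by
      rw [mob, sub_mul, div_mul_cancel₀ _ n2]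
      ring
    conv_lhs => rw [mob]
    rw [div_eq_iff n1]
    apply mul_right_cancel₀ n2
    linear_combination (starRingEnd ℂ) u * e2 - x * e1 + (x * (1 - (starRingEnd ℂ) b * b)) * huu
  · have n1 := den_ne hb (mob_closedBall hu' hub hx)
    have n2 := den_ne hub hx
    have e1 : (1 - (starRingEnd ℂ) b * mob ((starRingEnd ℂ) u) (-(u * b)) x) *
        (1 - (starRingEnd ℂ) (-(u * b)) * x) = 1 - (starRingEnd ℂ) b * b := by
      rw [mob, sub_mul, mul_div_assoc', div_mul_cancel₀ _ n2]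
      simp only [map_neg, map_mul]
      linear_combination (-((starRingEnd ℂ) b * b)) * huu
    have e2 : (mob ((starRingEnd ℂ) u) (-(u * b)) x - b) * (1 - (starRingEnd ℂ) (-(u * b)) * x) =
        (starRingEnd ℂ) u * x * (1 - (starRingEnd ℂ) b * b) := by
      rw [mob, sub_mul, div_mul_cancel₀ _ n2]
      simp only [map_neg, map_mul]
      linear_combination b * huu
    conv_lhs => rw [mob]
    rw [div_eq_iff n1]
    apply mul_right_cancel₀ n2
    linear_combination u * e2 - x * e1 + (x * (1 - (starRingEnd ℂ) b * b)) * huu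

/-- the radial retraction onto the closed disc -/
noncomputable def rr (z : ℂ) : ℂ := z / (max 1 ‖z‖ : ℝ)

theorem MB_max_pos (z : ℂ) : (0:ℝ) < max 1 ‖z‖ := lt_of_lt_of_le one_pos (le_max_left _ _)

theorem rr_cont : Continuous rr := by
  unfold rr
  refine Continuous.div continuous_id (Complex.continuous_ofReal.comp
    (continuous_const.max continuous_norm)) fun z => ?_
  exact Complex.ofReal_ne_zero.2 (MB_max_pos z).ne'

theorem rr_mem (z : ℂ) : rr z ∈ closedBall (0:ℂ) 1 := by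
  rw [mem_closedBall_zero_iff, rr, norm_div, Complex.norm_real, Real.norm_eq_abs,
    abs_of_pos (MB_max_pos z), div_le_one (MB_max_pos z)]
  exact le_max_right _ _

theorem rr_id {z : ℂ} (hz : ‖z‖ ≤ 1) : rr z = z := by
  rw [rr, max_eq_left hz]
  simp

theorem MB_proj (z y : ℂ) (hy : ‖y‖ ≤ 1) :
    (z.re - (rr z).re) * (y.re - (rr z).re) + (z.im - (rr z).im) * (y.im - (rr z).im) ≤ 0 := by
  by_cases h : ‖z‖ ≤ 1
  · rw [rr_id h]
    simp
  · push Not at h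
    have hz0 : (0:ℝ) < ‖z‖ := by linarith
    have hre : (rr z).re = z.re / ‖z‖ := by
      rw [rr, max_eq_right h.le, Complex.div_ofReal_re]
    have him : (rr z).im = z.im / ‖z‖ := by
      rw [rr, max_eq_right h.le, Complex.div_ofReal_im]
    set a := (rr z).re with ha
    set c := (rr z).im with hc
    have e1 : z.re = ‖z‖ * a := by rw [hre]; field_simp
    have e2 : z.im = ‖z‖ * c := by rw [him]; field_simp
    have hn : a ^ 2 + c ^ 2 = 1 := by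
      have h1 : ‖z‖ ^ 2 = z.re ^ 2 + z.im ^ 2 := by
        rw [Complex.sq_norm, Complex.normSq_apply]
        ring
      rw [hre, him, div_pow, div_pow, ← add_div, ← h1]
      field_simp
    have hyy : y.re ^ 2 + y.im ^ 2 ≤ 1 := by
      have h1 : ‖y‖ ^ 2 = y.re ^ 2 + y.im ^ 2 := by
        rw [Complex.sq_norm, Complex.normSq_apply]
        ring
      rw [← h1]
      nlinarith [norm_nonneg y]
    rw [e1, e2]
    have h2 : a * y.re + c * y.im ≤ 1 := by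
      nlinarith [sq_nonneg (a - y.re), sq_nonneg (c - y.im)]
    have h3 : (‖z‖ * a - a) * (y.re - a) + (‖z‖ * c - c) * (y.im - c) =
        (‖z‖ - 1) * ((a * y.re + c * y.im) - (a ^ 2 + c ^ 2)) := by ring
    rw [h3, hn]
    exact mul_nonpos_of_nonneg_of_nonpos (by linarith) (by linarith)

theorem rr_lip (z w : ℂ) : dist (rr z) (rr w) ≤ dist z w := by
  have h1 := MB_proj z (rr w) (mem_closedBall_zero_iff.1 (rr_mem w))
  have h2 := MB_proj w (rr z) (mem_closedBall_zero_iff.1 (rr_mem z))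
  rw [dist_eq_norm, dist_eq_norm]
  have e1 : ‖rr z - rr w‖ ^ 2 = ((rr z).re - (rr w).re) ^ 2 + ((rr z).im - (rr w).im) ^ 2 := by
    rw [Complex.sq_norm, Complex.normSq_apply, Complex.sub_re, Complex.sub_im]
    ring
  have e2 : ‖z - w‖ ^ 2 = (z.re - w.re) ^ 2 + (z.im - w.im) ^ 2 := by
    rw [Complex.sq_norm, Complex.normSq_apply, Complex.sub_re, Complex.sub_im]
    ring
  refine (sq_le_sq₀ (norm_nonneg _) (norm_nonneg _)).1 ?_
  rw [e1, e2]
  nlinarith [sq_nonneg ((z.re - w.re) - ((rr z).re - (rr w).re)),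
    sq_nonneg ((z.im - w.im) - ((rr z).im - (rr w).im))]

end TN

end S_H12_TN_MB
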