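import Pool.Agent.H12.KS.K02
import Pool.Agent.H12.KS.K03

/-! Joined modules of the proof of MP_8a27c0_an (one section per module). -/

section S_H12_CV_Defs

/-!
Project MP_8a27c0_CV (helper12, helper36): the covering part of `/team-store/H12_8a27c0_general.md` (sections 0, 1, 2, 4).
Common definitions.  `X` is the plane or the open unit disc (a subset of `ℂ`), `p : X → S` the universal covering,
`Γ` the deck group acting by `A`.
-/

namespace CV

open Metric Set Filter Topology Function DS TN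

/-- the deck group of the universal covering `p : X → S` -/
structure Deck {S : Type} [MetricSpace S] (X : Set ℂ) {Γ : Type} [Group Γ] (A : Γ → ℂ → ℂ)
    (p : ℂ → S) : Prop where
  hX : (X = univ ∧ ∀ g, ∃ l : ℂ, ∀ x, A g x = x + l) ∨
    (X = ball 0 1 ∧ ∀ g, ∃ u b : ℂ, ‖u‖ = 1 ∧ ‖b‖ < 1 ∧ ∀ x, A g x = mob u b x)
  one : ∀ x ∈ X, A 1 x = x
  mul : ∀ g h, ∀ x ∈ X, A (g * h) x = A g (A h x)
  free : ∀ g, g ≠ 1 → ∀ x ∈ X, A g x ≠ x
  proper : ∀ C ⊆ X, IsCompact C → {g | ∃ x ∈ C, A g x ∈ C}.Finite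
  pc : ContinuousOn p X
  pop : ∀ O ⊆ X, IsOpen O → IsOpen (p '' O)
  ps : ∀ s, ∃ x ∈ X, p x = s
  fib : ∀ x ∈ X, ∀ y ∈ X, p x = p y ↔ ∃ g, A g x = y

/-- `G` (inverse `Gi`) is a lift of the homeomorphism `g` (inverse `gi`) of `S` to `X`, of class `C¹`, preserving the
invariant density `ρ` -/
structure Lift {S : Type} [MetricSpace S] (X : Set ℂ) {Γ : Type} [Group Γ] (A : Γ → ℂ → ℂ)
    (p : ℂ → S) (g gi : S → S) (G Gi : ℂ → ℂ) (θ : Γ ≃* Γ) (ρ : ℂ → ℝ) : Prop where
  cg : Continuous g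
  cgi : Continuous gi
  ggi : ∀ s, g (gi s) = s
  gig : ∀ s, gi (g s) = s
  mG : MapsTo G X X
  mGi : MapsTo Gi X X
  GiG : ∀ x ∈ X, Gi (G x) = x
  GGi : ∀ x ∈ X, G (Gi x) = x
  c1 : ContDiffOn ℝ 1 G X
  c1i : ContDiffOn ℝ 1 Gi X
  equi : ∀ c, ∀ x ∈ X, G (A c x) = A (θ c) (G x)
  lift : ∀ x ∈ X, p (G x) = g (p x)
  ρc : ContinuousOn ρ X
  ρpos : ∀ x ∈ X, 0 < ρ x
  ρinv : ∀ c, ∀ x ∈ X, ρ (A c x) * ‖deriv (A c) x‖ ^ 2 = ρ x
  area : ∀ x ∈ X, ρ (G x) * (fderiv ℝ G x).det = ρ x

/-- the lift to `X` of the stable set of `p P` -/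
def StabX {S : Type} [MetricSpace S] (X : Set ℂ) (p : ℂ → S) (g : S → S) (P : ℂ) : Set ℂ :=
  {x ∈ X | Tendsto (fun n : ℕ => dist (g^[n] (p x)) (g^[n] (p P))) atTop (𝓝 0)}

/-- `v` is the velocity at `x` of a regular `C¹` curve through `x` contained in `W` -/
def TanX (W : Set ℂ) (x v : ℂ) : Prop :=
  v ≠ 0 ∧ ∃ α : ℝ → ℂ, ContDiffOn ℝ 1 α (Ioo (-1) 1) ∧ (∀ t ∈ Ioo (-1:ℝ) 1, α t ∈ W) ∧ α 0 = x ∧
    deriv α 0 = v

/-- conditions 1 and 2 in terms of the covering; `Hyp s` means that `s` is a hyperbolic periodic point of `g` -/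
structure Cond {S : Type} [MetricSpace S] (X : Set ℂ) {Γ : Type} [Group Γ] (A : Γ → ℂ → ℂ)
    (p : ℂ → S) (g gi : S → S) (G : ℂ → ℂ) (Hyp : S → Prop) : Prop where
  per : ∀ s, Hyp s → s ∈ periodicPts g
  inv : ∀ s, Hyp s → Hyp (gi s)
  tri : ∀ n, 0 < n → ∀ c, ∀ P ∈ X, A c (G^[n] P) = P →
    |LinearMap.trace ℝ ℂ (fderiv ℝ (fun x => A c (G^[n] x)) P : ℂ →ₗ[ℝ] ℂ)| < 2 ∨
      (Hyp (p P) ∧
        2 < |LinearMap.trace ℝ ℂ (fderiv ℝ (fun x => A c (G^[n] x)) P : ℂ →ₗ[ℝ] ℂ)|)
  c2 : ∀ P ∈ X, ∀ Q ∈ X, Hyp (p P) → Hyp (p Q) → ∀ x v w, TanX (StabX X p g P) x v →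
    TanX (StabX X p gi Q) x w → LinearIndependent ℝ ![v, w]

/-- `U` is a component of the preimage of a component, invariant under `g`, of the complement of the closure of
the union of the stable sets; `G` is the lift with `G U = U`, `N` the stabiliser of `U` -/
structure Dom {S : Type} [MetricSpace S] (X : Set ℂ) {Γ : Type} [Group Γ] (A : Γ → ℂ → ℂ)
    (p : ℂ → S) (g : S → S) (G : ℂ → ℂ) (U : Set ℂ) (N : Subgroup Γ) : Prop where
  opn : IsOpen U
  conn : IsConnected U
  sub : U ⊆ X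
  inv : G '' U = U
  mem : ∀ c, c ∈ N ↔ A c '' U = U
  comp : ∀ c, c ∉ N → Disjoint (A c '' U) U
  stab : ∀ P ∈ X, p P ∈ periodicPts g → Disjoint U (StabX X p g P)

/-- the filled set: `U` together with the compact components (islands) of `X \ U` -/
def fil (X U : Set ℂ) : Set ℂ := {x ∈ X | x ∈ U ∨ IsCompact (connectedComponentIn (X \ U) x)}

/-- an island of `U` -/
structure Island (X U Y : Set ℂ) : Prop where
  cpt : IsCompact Y
  comp : ∃ x ∈ X \ U, Y = connectedComponentIn (X \ U) x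

/-- a Riemann map of the domain `W` (inverse `v`) -/
structure Riem (W : Set ℂ) (ψ v : ℂ → ℂ) : Prop where
  dψ : DifferentiableOn ℂ ψ (ball 0 1)
  dv : DifferentiableOn ℂ v W
  mψ : MapsTo ψ (ball 0 1) W
  mv : MapsTo v W (ball 0 1)
  vψ : ∀ z ∈ ball (0:ℂ) 1, v (ψ z) = z
  ψv : ∀ w ∈ W, ψ (v w) = w

/-- the action of the stabiliser `N` in the coordinate of the Riemann map -/
def Act {Γ : Type} [Group Γ] {N : Subgroup Γ} (A : Γ → ℂ → ℂ) (ψ v : ℂ → ℂ) (F : Fuchs N) : Prop :=
  ∀ c : N, ∀ z ∈ ball (0:ℂ) 1, F.act c z = v (A c (ψ z))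

/-- the maps `A c ∘ G^n`, `n ≥ 1`, `c ∈ N`, in the coordinate of the Riemann map, extended to the closed disc -/
structure Lf {Γ : Type} [Group Γ] {N : Subgroup Γ} (A : Γ → ℂ → ℂ) (G Gi : ℂ → ℂ) (θ : Γ ≃* Γ)
    (ψ v : ℂ → ℂ) (F : Fuchs N) (n : ℕ) (c : N) (e : Elt N) : Prop where
  norm : Norm F e
  H : ∀ z ∈ ball (0:ℂ) 1, e.H z = v (A c (G^[n] (ψ z)))
  Hi : ∀ z ∈ ball (0:ℂ) 1, e.Hi z = v (Gi^[n] (A (c : Γ)⁻¹ (ψ z)))
  th : ∀ d : N, ((e.θ d : N) : Γ) = c * (θ^[n] d) * (c : Γ)⁻¹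

/-- the family of all these maps -/
def FamH {Γ : Type} [Group Γ] {N : Subgroup Γ} (A : Γ → ℂ → ℂ) (G Gi : ℂ → ℂ) (θ : Γ ≃* Γ)
    (ψ v : ℂ → ℂ) (F : Fuchs N) : Set (Elt N) :=
  {e | ∃ n, 0 < n ∧ ∃ c : N, Lf A G Gi θ ψ v F n c e}

/-- condition 4: no iterate of `g` has an annular rotation domain -/
def NoAnn {S : Type} [MetricSpace S] (g : S → S) : Prop :=
  ∀ n, 0 < n → ∀ B : Set S, ¬ (IsOpen B ∧ g^[n] '' B = B ∧
    Nonempty (B ≃ₜ {z : ℂ | 1 < ‖z‖ ∧ ‖z‖ < 2}) ∧ ∀ P ∈ B, P ∉ periodicPts g)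

end CV

end S_H12_CV_Defs

section S_H12_CV_TA

/-!
TA (planar topology).  `zor`: `F = X \ U` with `X` open, `U` open (in `ℂ`); let `C = connectedComponentIn (X \ U) x` be compact, `C ⊆ V` open.
Choose an open `V'` with `C ⊆ V'`, `closure V'` compact and contained in `V ∩ X` (`exists_open_between_and_isCompact_closure`).  `K₀ = closure V' \ U` is compact.  The
component of `x` in `K₀` is `C` (it is connected in `X \ U`, and `C ⊆ V' \ U`).  In a compact Hausdorff space (the subtype `K₀`) the component is the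
intersection of the clopen sets containing `x` (`connectedComponent_eq_iInter_isClopen`); the compact set `K₀ \ V'` is disjoint from it, so by compactness (finite intersections of
clopen sets are clopen) there is a clopen subset `Q` of `K₀` with `x ∈ Q`, `C ⊆ Q ⊆ V'`.  `Q` and `K₀ \ Q` are disjoint compact sets: there is an open `O` with
`Q ⊆ O`, `closure O ⊆ V'`, `closure O ∩ (K₀ \ Q) = ∅` (normality).  A point `y` of `frontier O` is in `closure O ⊆ V' ⊆ X`; if `y ∉ U` then `y ∈ K₀`, so `y ∈ Q ⊆ O`, contradiction.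
`comp_sub`: a preconnected set meeting `O` and not meeting `frontier O` is contained in `O` (`IsPreconnected.subset_or_subset...`; `O` open, `(closure O)ᶜ` open).
`comp_closed`: the component `C_y` of a point `y` in `X \ U`: if `C_y ⊆ O` with `closure O ⊆ X` compact then `closure C_y ⊆ X \ U` (`U` open) is connected and contains `y`, so it is `C_y`: compact.
`comp_touch`: `U` nonempty, `C` compact component: `C` meets `closure U`.  Otherwise `zor` with `V = (closure U)ᶜ` gives `O`, nonempty open with `frontier O ⊆ U ∩ (closure U)ᶜ = ∅`, so `O` is clopen,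
`O = univ`, contradiction to `U` nonempty, `O ⊆ closure O ⊆ V`.
`comp_same`: two components with a common point are equal (`connectedComponentIn_eq`).
-/

namespace CV

open Metric Set Filter Topology

theorem zor {X U V : Set ℂ} (hX : IsOpen X) (hU : IsOpen U) {x : ℂ} (hx : x ∈ X \ U)
    (hC : IsCompact (connectedComponentIn (X \ U) x)) (hV : IsOpen V)
    (hCV : connectedComponentIn (X \ U) x ⊆ V) :
    ∃ O : Set ℂ, IsOpen O ∧ connectedComponentIn (X \ U) x ⊆ O ∧ IsCompact (closure O) ∧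
      closure O ⊆ V ∩ X ∧ frontier O ⊆ U := by
  set C := connectedComponentIn (X \ U) x with hCdef
  have hCXU : C ⊆ X \ U := connectedComponentIn_subset _ _
  have hxC : x ∈ C := mem_connectedComponentIn hx
  have hCp : IsPreconnected C := isPreconnected_connectedComponentIn
  obtain ⟨V', hV'o, hCV', hV'cl, hV'c⟩ := exists_open_between_and_isCompact_closure hC
    (hV.inter hX) (fun y hy => ⟨hCV hy, (hCXU hy).1⟩)
  set K₀ : Set ℂ := closure V' \ U with hK₀
  have hK₀c : IsCompact K₀ := hV'c.diff hU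
  have hCK : C ⊆ K₀ := fun y hy => ⟨subset_closure (hCV' hy), (hCXU hy).2⟩
  have hKXU : K₀ ⊆ X \ U := fun y hy => ⟨(hV'cl hy.1).2, hy.2⟩
  have hxK : x ∈ K₀ := hCK hxC
  have hcs : CompactSpace K₀ := isCompact_iff_compactSpace.mp hK₀c
  have hcomp : connectedComponentIn K₀ x ⊆ C :=
    isPreconnected_connectedComponentIn.subset_connectedComponentIn
      (mem_connectedComponentIn hxK) ((connectedComponentIn_subset _ _).trans hKXU)
  have hcomp' : C ⊆ connectedComponentIn K₀ x := hCp.subset_connectedComponentIn hxC hCK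
  have himg : connectedComponentIn K₀ x = Subtype.val '' connectedComponent (⟨x, hxK⟩ : K₀) :=
    connectedComponentIn_eq_image hxK
  -- a clopen set
  obtain ⟨Q, hQcl, hxQ, hQV⟩ : ∃ Q : Set K₀, IsClopen Q ∧
      connectedComponent (⟨x, hxK⟩ : K₀) ⊆ Q ∧ Q ⊆ Subtype.val ⁻¹' V' := by
    have hne : Nonempty {s : Set K₀ // IsClopen s ∧ (⟨x, hxK⟩ : K₀) ∈ s} :=
      ⟨⟨univ, isClopen_univ, mem_univ _⟩⟩
    obtain ⟨i, hi⟩ := exists_subset_nhds_of_compactSpace
      (V := fun s : {s : Set K₀ // IsClopen s ∧ (⟨x, hxK⟩ : K₀) ∈ s} => s.1)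
      (U := Subtype.val ⁻¹' V') (by
        rintro ⟨s, hs, hs'⟩ ⟨t, ht, ht'⟩
        exact ⟨⟨s ∩ t, hs.inter ht, hs', ht'⟩, inter_subset_left, inter_subset_right⟩)
      (fun i => i.2.1.isClosed) (by
        intro y hy
        rw [← connectedComponent_eq_iInter_isClopen] at hy
        refine (hV'o.preimage continuous_subtype_val).mem_nhds ?_
        have h1 : y.1 ∈ connectedComponentIn K₀ x := by
          rw [himg]; exact ⟨y, hy, rfl⟩
        exact hCV' (hcomp h1))
    exact ⟨i.1, i.2.1, i.2.1.connectedComponent_subset i.2.2, hi⟩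
  have hQc : IsCompact (Subtype.val '' Q) :=
    (hQcl.isClosed.isCompact).image continuous_subtype_val
  have hRc : IsCompact (Subtype.val '' Qᶜ) :=
    (hQcl.compl.isClosed.isCompact).image continuous_subtype_val
  obtain ⟨O, hO, hQO, hOcl, hOc⟩ := exists_open_between_and_isCompact_closure hQc
    (hV'o.inter hRc.isClosed.isOpen_compl) (by
      rintro _ ⟨y, hy, rfl⟩
      refine ⟨hQV hy, ?_⟩
      rintro ⟨z, hz, hzy⟩
      exact hz (by rwa [Subtype.ext hzy]))
  refine ⟨O, hO, ?_, hOc, ?_, ?_⟩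
  · refine hcomp'.trans ?_
    rw [himg]
    exact (image_mono hxQ).trans hQO
  · exact fun y hy => hV'cl (subset_closure (hOcl hy).1)
  · intro y hy
    by_contra hyU
    have h1 := hOcl hy.1
    have h2 : y ∈ K₀ := ⟨subset_closure h1.1, hyU⟩
    have h3 : (⟨y, h2⟩ : K₀) ∈ Q := by
      by_contra h4
      exact h1.2 ⟨⟨y, h2⟩, h4, rfl⟩
    have h4 : y ∈ O := hQO ⟨⟨y, h2⟩, h3, rfl⟩
    have h5 := hy.2
    rw [hO.interior_eq] at h5
    exact h5 h4

theorem comp_sub {O C : Set ℂ} (hO : IsOpen O) (hC : IsPreconnected C) (hCO : (C ∩ O).Nonempty)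
    (hf : Disjoint C (frontier O)) : C ⊆ O := by
  refine IsPreconnected.subset_left_of_subset_union (v := (closure O)ᶜ) hO
    isClosed_closure.isOpen_compl ?_ ?_ hCO hC
  · exact Set.disjoint_left.mpr fun y h1 h2 => h2 (subset_closure h1)
  · intro y hy
    by_cases h : y ∈ O
    · exact Or.inl h
    · refine Or.inr fun h2 => Set.disjoint_left.mp hf hy ⟨h2, ?_⟩
      rwa [hO.interior_eq]

theorem comp_cpt {X U O : Set ℂ} (hX : IsOpen X) (hU : IsOpen U) {y : ℂ} (hy : y ∈ X \ U)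
    (hO : IsOpen O) (hyO : y ∈ O) (hc : IsCompact (closure O)) (hOX : closure O ⊆ X)
    (hf : frontier O ⊆ U) : IsCompact (connectedComponentIn (X \ U) y) ∧
      connectedComponentIn (X \ U) y ⊆ O := by
  have _ := hX
  set C := connectedComponentIn (X \ U) y with hCdef
  have hCXU : C ⊆ X \ U := connectedComponentIn_subset _ _
  have hyC : y ∈ C := mem_connectedComponentIn hy
  have hCp : IsPreconnected C := isPreconnected_connectedComponentIn
  have hCO : C ⊆ O := comp_sub hO hCp ⟨y, hyC, hyO⟩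
    (Set.disjoint_left.mpr fun z h1 h2 => (hCXU h1).2 (hf h2))
  have hclO : closure C ⊆ closure O := closure_mono hCO
  have hclU : closure C ⊆ Uᶜ :=
    closure_minimal (fun z hz => (hCXU hz).2) hU.isClosed_compl
  have hclC : closure C ⊆ C := hCp.closure.subset_connectedComponentIn (subset_closure hyC)
    (fun z hz => ⟨hOX (hclO hz), hclU hz⟩)
  have hclosed : IsClosed C := isClosed_of_closure_subset hclC
  exact ⟨hc.of_isClosed_subset hclosed (subset_closure.trans hclO), hCO⟩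

theorem comp_touch {X U : Set ℂ} (hX : IsOpen X) (hU : IsOpen U) (hUn : U.Nonempty) {x : ℂ}
    (hx : x ∈ X \ U) (hC : IsCompact (connectedComponentIn (X \ U) x)) :
    (connectedComponentIn (X \ U) x ∩ closure U).Nonempty := by
  by_contra hcon
  rw [Set.not_nonempty_iff_eq_empty] at hcon
  obtain ⟨O, hO, hCO, hOc, hOV, hfr⟩ := zor hX hU hx hC isClosed_closure.isOpen_compl
    (V := (closure U)ᶜ) (fun y hy h => by
      have : y ∈ connectedComponentIn (X \ U) x ∩ closure U := ⟨hy, h⟩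
      rw [hcon] at this
      exact this)
  have hfe : frontier O = ∅ := by
    rw [Set.eq_empty_iff_forall_notMem]
    intro y hy
    exact (hOV hy.1).1 (subset_closure (hfr hy))
  have hclopen : IsClopen O := isClopen_iff_frontier_eq_empty.mpr hfe
  have hxO : x ∈ O := hCO (mem_connectedComponentIn hx)
  have hOu : O = univ := hclopen.eq_univ ⟨x, hxO⟩
  obtain ⟨u, hu⟩ := hUn
  have h1 : u ∈ closure O := by rw [hOu]; exact subset_closure (mem_univ _)
  exact (hOV h1).1 (subset_closure hu)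

theorem comp_same {F : Set ℂ} {x y z : ℂ} (hx : z ∈ connectedComponentIn F x)
    (hy : z ∈ connectedComponentIn F y) : connectedComponentIn F x = connectedComponentIn F y :=
  (connectedComponentIn_eq hx).trans (connectedComponentIn_eq hy).symm

end CV

end S_H12_CV_TA

section S_H12_CV_TB

/-!
TB (the filled set).  General `X` open connected, not compact, `U ⊆ X` open connected.
`fil_isOpen`: a point of `U` is interior; let `x ∈ X \ U` with compact component; `zor` with `V = univ` gives `O`; by `comp_cpt` every point of `O` is in `fil X U` (or in `U`).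
`fil_isConnected`: for `x ∈ fil X U \ U` with component `C`, `comp_touch` gives `y ∈ C ∩ closure U`; `U ∪ {y}` (between `U` and `closure U`) and `C` are connected with the common point `y`, so `U ∪ C` is connected,
contained in `fil X U` (all points of `C` have the same component `C`); so `fil X U` is a union of connected sets containing `U`.
`fil_comp`: a component `C` of `X \ U` is either contained in `fil X U` or disjoint from it (all its points have the same component).
`fil_front`: let `y ∈ X`, `y ∈ closure (fil X U)`, `y ∉ fil X U`.  Then `y ∈ closure U`: otherwise there is a ball `B` about `y` contained in `X \ U` (X open); it contains a point `w` of `fil X U`, not in `U`; the ball is connected so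
`y` and `w` have the same component in `X \ U`: `y ∈ fil X U`.
`fil_map`: `h` is a homeomorphism of `X` (inverse `hi`), `h '' U = U'`: `h` maps `X \ U` onto `X \ U'`, components onto components (`connectedComponentIn` of `h x`: images of preconnected sets are preconnected, both directions), compact onto compact.
-/

namespace CV

open Metric Set Filter Topology

theorem fil_sub {X U : Set ℂ} : fil X U ⊆ X := fun _ hx => hx.1

theorem sub_fil {X U : Set ℂ} (h : U ⊆ X) : U ⊆ fil X U := fun _ hx => ⟨h hx, Or.inl hx⟩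

theorem TB_iff {X U : Set ℂ} {x : ℂ} (hx : x ∈ X \ U) :
    x ∈ fil X U ↔ IsCompact (connectedComponentIn (X \ U) x) :=
  ⟨fun h => h.2.resolve_left hx.2, fun h => ⟨hx.1, Or.inr h⟩⟩

theorem fil_isOpen {X U : Set ℂ} (hX : IsOpen X) (hU : IsOpen U) (hUX : U ⊆ X) :
    IsOpen (fil X U) := by
  rw [isOpen_iff_mem_nhds]
  intro x hx
  by_cases hxU : x ∈ U
  · exact Filter.mem_of_superset (hU.mem_nhds hxU) (sub_fil hUX)
  · have hx' : x ∈ X \ U := ⟨hx.1, hxU⟩
    obtain ⟨O, hO, hCO, hOc, hOX, hf⟩ := zor hX hU hx' ((TB_iff hx').1 hx) isOpen_univ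
      (subset_univ _)
    refine Filter.mem_of_superset (hO.mem_nhds (hCO (mem_connectedComponentIn hx'))) ?_
    intro y hy
    have hyX : y ∈ X := (hOX (subset_closure hy)).2
    by_cases hyU : y ∈ U
    · exact ⟨hyX, Or.inl hyU⟩
    · exact ⟨hyX, Or.inr (comp_cpt hX hU ⟨hyX, hyU⟩ hO hy hOc (fun z hz => (hOX hz).2) hf).1⟩

theorem fil_comp {X U : Set ℂ} {x y : ℂ} (hx : x ∈ X \ U) (hy : y ∈ connectedComponentIn (X \ U) x) :
    y ∈ fil X U ↔ x ∈ fil X U := by
  have hyX : y ∈ X \ U := connectedComponentIn_subset _ _ hy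
  rw [TB_iff hx, TB_iff hyX, connectedComponentIn_eq hy]

theorem fil_isConnected {X U : Set ℂ} (hX : IsOpen X) (hU : IsOpen U) (hUc : IsConnected U)
    (hUX : U ⊆ X) : IsConnected (fil X U) := by
  obtain ⟨u, hu⟩ := hUc.nonempty
  refine ⟨⟨u, sub_fil hUX hu⟩, ?_⟩
  refine isPreconnected_of_forall u ?_
  intro y hy
  by_cases hyU : y ∈ U
  · exact ⟨U, sub_fil hUX, hu, hyU, hUc.isPreconnected⟩
  · have hy' : y ∈ X \ U := ⟨hy.1, hyU⟩
    have hC := (TB_iff hy').1 hy
    obtain ⟨z, hzC, hzU⟩ := comp_touch hX hU hUc.nonempty hy' hC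
    refine ⟨U ∪ connectedComponentIn (X \ U) y, ?_, Or.inl hu,
      Or.inr (mem_connectedComponentIn hy'), ?_⟩
    · refine union_subset (sub_fil hUX) fun w hw => ?_
      exact (fil_comp hy' hw).2 hy
    · have h1 : IsPreconnected (U ∪ {z}) := by
        refine hUc.isPreconnected.subset_closure subset_union_left ?_
        refine union_subset subset_closure ?_
        rintro w rfl
        exact hzU
      have h2 : U ∪ connectedComponentIn (X \ U) y
          = (U ∪ {z}) ∪ connectedComponentIn (X \ U) y := by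
        rw [union_assoc]
        congr 1
        exact (union_eq_self_of_subset_left (singleton_subset_iff.2 hzC)).symm
      rw [h2]
      exact h1.union z (Or.inr rfl) hzC isPreconnected_connectedComponentIn

/-- a connected subset of `X \ U` meeting the filled set is contained in an island -/
theorem fil_pre {X U C : Set ℂ} (hC : IsPreconnected C) (hCX : C ⊆ X \ U) {x : ℂ} (hxC : x ∈ C)
    (hx : x ∈ fil X U) : Island X U (connectedComponentIn (X \ U) x) ∧
      C ⊆ connectedComponentIn (X \ U) x ∧ C ⊆ fil X U := by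
  have hx' := hCX hxC
  have h1 := hC.subset_connectedComponentIn hxC hCX
  refine ⟨⟨(TB_iff hx').1 hx, x, hx', rfl⟩, h1, fun y hy => ?_⟩
  exact (fil_comp hx' (h1 hy)).2 hx

theorem fil_front {X U : Set ℂ} (hX : IsOpen X) {y : ℂ} (hy : y ∈ X)
    (hyc : y ∈ closure (fil X U)) (hyn : y ∉ fil X U) : y ∈ closure U := by
  by_contra hyU
  have hopen : IsOpen (X ∩ (closure U)ᶜ) := hX.inter isClosed_closure.isOpen_compl
  obtain ⟨ε, hε, hb⟩ := Metric.isOpen_iff.1 hopen y ⟨hy, hyU⟩
  obtain ⟨w, hw, hwb⟩ := Metric.mem_closure_iff.1 hyc ε hε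
  have hsub : ball y ε ⊆ X \ U := fun z hz => ⟨(hb hz).1, fun h => (hb hz).2 (subset_closure h)⟩
  have hwb' : w ∈ ball y ε := by rw [mem_ball, dist_comm]; exact hwb
  have h1 := fil_pre (convex_ball y ε).isPreconnected hsub hwb' hw
  exact hyn (h1.2.2 (mem_ball_self hε))

theorem TB_img {F F' : Set ℂ} {f : ℂ → ℂ} (hc : ContinuousOn f F) (hm : MapsTo f F F') {x : ℂ}
    (hx : x ∈ F) : f '' connectedComponentIn F x ⊆ connectedComponentIn F' (f x) := by
  refine (isPreconnected_connectedComponentIn.image f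
    (hc.mono (connectedComponentIn_subset F x))).subset_connectedComponentIn
    ⟨x, mem_connectedComponentIn hx, rfl⟩ ?_
  rintro _ ⟨y, hy, rfl⟩
  exact hm (connectedComponentIn_subset F x hy)

theorem TB_eq {F F' : Set ℂ} {f g : ℂ → ℂ} (hc : ContinuousOn f F) (hm : MapsTo f F F')
    (hc' : ContinuousOn g F') (hm' : MapsTo g F' F) (h1 : ∀ x ∈ F, g (f x) = x)
    (h2 : ∀ x ∈ F', f (g x) = x) {x : ℂ} (hx : x ∈ F) :
    f '' connectedComponentIn F x = connectedComponentIn F' (f x) := by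
  refine Subset.antisymm (TB_img hc hm hx) ?_
  intro y hy
  have h3 := TB_img hc' hm' (hm hx)
  rw [h1 x hx] at h3
  exact ⟨g y, h3 ⟨y, hy, rfl⟩, h2 y (connectedComponentIn_subset _ _ hy)⟩

theorem fil_map {X U U' : Set ℂ} {h hi : ℂ → ℂ} (hUX : U ⊆ X) (hc : ContinuousOn h X)
    (hic : ContinuousOn hi X)
    (hm : MapsTo h X X) (him : MapsTo hi X X) (h1 : ∀ x ∈ X, hi (h x) = x)
    (h2 : ∀ x ∈ X, h (hi x) = x) (hU : h '' U = U') : h '' fil X U = fil X U' ∧
      ∀ Y, Island X U Y → Island X U' (h '' Y) := by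
  have hF : MapsTo h (X \ U) (X \ U') := by
    rintro x ⟨hx, hxU⟩
    refine ⟨hm hx, ?_⟩
    rw [← hU]
    rintro ⟨u, hu, he⟩
    apply hxU
    rw [← h1 x hx, ← he, h1 u (hUX hu)]
    exact hu
  have hF' : MapsTo hi (X \ U') (X \ U) := by
    rintro y ⟨hy, hyU⟩
    refine ⟨him hy, fun hu => hyU ?_⟩
    rw [← hU, ← h2 y hy]
    exact ⟨hi y, hu, rfl⟩
  have key : ∀ x ∈ X \ U, h '' connectedComponentIn (X \ U) x = connectedComponentIn (X \ U') (h x) :=
    fun x hx => TB_eq (hc.mono sdiff_subset) hF (hic.mono sdiff_subset) hF'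
      (fun x hx => h1 x hx.1) (fun x hx => h2 x hx.1) hx
  have key' : ∀ x ∈ X \ U', hi '' connectedComponentIn (X \ U') x
      = connectedComponentIn (X \ U) (hi x) :=
    fun x hx => TB_eq (hic.mono sdiff_subset) hF' (hc.mono sdiff_subset) hF
      (fun x hx => h2 x hx.1) (fun x hx => h1 x hx.1) hx
  have hsubX : ∀ x, connectedComponentIn (X \ U) x ⊆ X :=
    fun x => (connectedComponentIn_subset _ _).trans sdiff_subset
  have hsubX' : ∀ x, connectedComponentIn (X \ U') x ⊆ X :=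
    fun x => (connectedComponentIn_subset _ _).trans sdiff_subset
  refine ⟨?_, ?_⟩
  · apply Subset.antisymm
    · rintro _ ⟨x, hx, rfl⟩
      by_cases hxU : x ∈ U
      · refine ⟨hm hx.1, Or.inl ?_⟩
        rw [← hU]
        exact ⟨x, hxU, rfl⟩
      · have hx' : x ∈ X \ U := ⟨hx.1, hxU⟩
        refine (TB_iff (hF hx')).2 ?_
        rw [← key x hx']
        exact ((TB_iff hx').1 hx).image_of_continuousOn (hc.mono (hsubX x))
    · intro y hy
      by_cases hyU : y ∈ U'
      · rw [← hU] at hyU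
        obtain ⟨u, hu, rfl⟩ := hyU
        exact ⟨u, sub_fil hUX hu, rfl⟩
      · have hy' : y ∈ X \ U' := ⟨hy.1, hyU⟩
        refine ⟨hi y, (TB_iff (hF' hy')).2 ?_, h2 y hy.1⟩
        rw [← key' y hy']
        exact ((TB_iff hy').1 hy).image_of_continuousOn (hic.mono (hsubX' y))
  · rintro Y ⟨hYc, x, hx, rfl⟩
    exact ⟨hYc.image_of_continuousOn (hc.mono (hsubX x)), h x, hF hx, key x hx⟩

/-- islands are connected, contained in the filled set, disjoint from `U`, and equal or disjoint -/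
theorem Island.basic {X U Y : Set ℂ} (h : Island X U Y) : IsConnected Y ∧ Y ⊆ X \ U ∧
    Y ⊆ fil X U ∧ ∀ Y', Island X U Y' → (Y ∩ Y').Nonempty → Y = Y' := by
  obtain ⟨hYc, x, hx, rfl⟩ := h
  refine ⟨isConnected_connectedComponentIn_iff.2 hx, connectedComponentIn_subset _ _, ?_, ?_⟩
  · intro y hy
    exact (fil_comp hx hy).2 ((TB_iff hx).2 hYc)
  · rintro Y' ⟨-, x', hx', rfl⟩ ⟨z, hz, hz'⟩
    exact comp_same hz hz'

/-- small neighbourhoods of islands with frontier in `U` -/
theorem Island.nhd {X U Y V : Set ℂ} (hX : IsOpen X) (hU : IsOpen U) (h : Island X U Y)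
    (hV : IsOpen V) (hYV : Y ⊆ V) : ∃ O : Set ℂ, IsOpen O ∧ Y ⊆ O ∧ IsCompact (closure O) ∧
      closure O ⊆ V ∩ X ∧ frontier O ⊆ U := by
  obtain ⟨hYc, x, hx, rfl⟩ := h
  exact zor hX hU hx hYc hV hYV

end CV

end S_H12_CV_TB

section S_H12_CV_DK

/-!
DK (deck groups, basic facts).  `X` is `univ` or `ball 0 1`: open, connected, convex, nonempty, not compact.  `A g` is a translation or a Moebius map: maps `X` to `X`, holomorphic on `X`
(`mob_hasDerivAt`, `mob_ball`), bijective with inverse `A g⁻¹` (`mul`, `one`).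
`coc`: `S` is compact and covered by the open sets `p '' (ball 0 n ∩ X')`, `X'` an exhaustion of `X` by relatively compact open sets (`pop`, `ps`); so one of them is everything; take its closure `C`; for `x ∈ X` there is `y ∈ C` with `p y = p x`, `fib`.
`infinite`: if `c^n ≠ 1` for all `n ≥ 1`, then `n ↦ c^n` is injective on `ℕ` and a compact set cannot contain all `A (c^n) x`, `n ≥ 1`: `proper` for `C ∪ {x}`.
`fib_fil`-type statements are in BB.
-/

namespace CV

open Metric Set Filter Topology Function DS TN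

variable {S : Type} [MetricSpace S] {X : Set ℂ} {Γ : Type} [Group Γ] {A : Γ → ℂ → ℂ} {p : ℂ → S}

theorem Deck.opn (D : Deck X A p) : IsOpen X := by
  rcases D.hX with ⟨h, -⟩ | ⟨h, -⟩
  · rw [h]; exact isOpen_univ
  · rw [h]; exact isOpen_ball

theorem Deck.conn (D : Deck X A p) : IsConnected X := by
  rcases D.hX with ⟨h, -⟩ | ⟨h, -⟩
  · rw [h]; exact isConnected_univ
  · rw [h]
    exact ⟨⟨0, mem_ball_self one_pos⟩, (convex_ball (0 : ℂ) 1).isPreconnected⟩

theorem Deck.noncpt (D : Deck X A p) : ¬ IsCompact X := by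
  rcases D.hX with ⟨h, -⟩ | ⟨h, -⟩
  · rw [h]; exact noncompact_univ ℂ
  · rw [h]
    intro hc
    have h1 := hc.isClosed.closure_eq
    rw [closure_ball (0 : ℂ) one_ne_zero] at h1
    have h2 : (1 : ℂ) ∈ closedBall (0 : ℂ) 1 := by simp
    rw [h1] at h2
    simp at h2

theorem Deck.maps (D : Deck X A p) (g : Γ) : MapsTo (A g) X X := by
  rcases D.hX with ⟨h, -⟩ | ⟨h, hA⟩
  · rw [h]; exact mapsTo_univ _ _
  · obtain ⟨u, b, hu, hb, hx⟩ := hA g
    rw [h]
    intro x hx'
    rw [hx, mem_ball_zero_iff]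
    exact mob_ball hu hb (mem_ball_zero_iff.1 hx')

theorem Deck.inv_left (D : Deck X A p) (g : Γ) {x : ℂ} (hx : x ∈ X) : A g⁻¹ (A g x) = x := by
  rw [← D.mul g⁻¹ g x hx, inv_mul_cancel, D.one x hx]

theorem Deck.inv_right (D : Deck X A p) (g : Γ) {x : ℂ} (hx : x ∈ X) : A g (A g⁻¹ x) = x := by
  rw [← D.mul g g⁻¹ x hx, mul_inv_cancel, D.one x hx]

theorem Deck.hol (D : Deck X A p) (g : Γ) : DifferentiableOn ℂ (A g) X := by
  rcases D.hX with ⟨h, hA⟩ | ⟨h, hA⟩
  · obtain ⟨l, hl⟩ := hA g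
    have : A g = fun x => x + l := funext hl
    rw [this]
    exact (differentiable_id.add_const l).differentiableOn
  · obtain ⟨u, b, hu, hb, hx⟩ := hA g
    have : A g = mob u b := funext hx
    rw [this, h]
    intro x hx'
    exact (mob_hasDerivAt hb (mem_ball_zero_iff.1 hx').le).differentiableAt.differentiableWithinAt

theorem Deck.cont (D : Deck X A p) (g : Γ) : ContinuousOn (A g) X := (D.hol g).continuousOn

theorem Deck.inj (D : Deck X A p) (g : Γ) : InjOn (A g) X := by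
  intro x hx y hy h
  rw [← D.inv_left g hx, h, D.inv_left g hy]

theorem Deck.image_mul (D : Deck X A p) (g h : Γ) {B : Set ℂ} (hB : B ⊆ X) :
    A (g * h) '' B = A g '' (A h '' B) := by
  rw [image_image]
  exact image_congr fun x hx => D.mul g h x (hB hx)

theorem Deck.image_inv (D : Deck X A p) (g : Γ) {B : Set ℂ} (hB : B ⊆ X) :
    A g⁻¹ '' (A g '' B) = B := by
  rw [image_image, image_congr fun x hx => D.inv_left g (hB hx)]
  exact image_id' B

theorem Deck.ext (D : Deck X A p) {g h : Γ} {x : ℂ} (hx : x ∈ X) (he : A g x = A h x) : g = h := by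
  by_contra hne
  have h1 : h⁻¹ * g ≠ 1 := by
    intro h2
    exact hne (inv_mul_eq_one.1 h2).symm
  refine D.free _ h1 x hx ?_
  rw [D.mul h⁻¹ g x hx, he, D.inv_left h hx]

theorem Deck.fibre (D : Deck X A p) (g : Γ) {x : ℂ} (hx : x ∈ X) : p (A g x) = p x :=
  ((D.fib x hx _ (D.maps g hx)).2 ⟨g, rfl⟩).symm

theorem Deck.coc [CompactSpace S] (D : Deck X A p) :
    ∃ C ⊆ X, IsCompact C ∧ ∀ x ∈ X, ∃ g, A g x ∈ C := by
  have h1 : ∀ x : X, ∃ r : ℝ, 0 < r ∧ closedBall (x : ℂ) r ⊆ X := by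
    intro x
    obtain ⟨r, hr, h⟩ := Metric.isOpen_iff.1 D.opn x x.2
    exact ⟨r / 2, half_pos hr, (closedBall_subset_ball (half_lt_self hr)).trans h⟩
  choose r hr hrX using h1
  obtain ⟨t, ht⟩ := isCompact_univ.elim_finite_subcover
    (fun x : X => p '' ball (x : ℂ) (r x))
    (fun x => D.pop _ (ball_subset_closedBall.trans (hrX x)) isOpen_ball)
    (by
      intro s _
      obtain ⟨x, hx, rfl⟩ := D.ps s
      rw [mem_iUnion]
      exact ⟨⟨x, hx⟩, x, mem_ball_self (hr _), rfl⟩)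
  refine ⟨⋃ x ∈ t, closedBall (x : ℂ) (r x), ?_, ?_, ?_⟩
  · exact iUnion₂_subset fun x _ => hrX x
  · exact t.isCompact_biUnion fun x _ => isCompact_closedBall _ _
  · intro x hx
    have h2 := ht (mem_univ (p x))
    rw [mem_iUnion₂] at h2
    obtain ⟨z, hz, y, hy, hyx⟩ := h2
    have hy' : y ∈ closedBall (z : ℂ) (r z) := ball_subset_closedBall hy
    obtain ⟨g, hg⟩ := (D.fib x hx y (hrX z hy')).1 hyx.symm
    refine ⟨g, ?_⟩
    rw [hg, mem_iUnion₂]
    exact ⟨z, hz, hy'⟩

theorem Deck.infinite (D : Deck X A p) {c : Γ} (hc : ∀ n : ℕ, 0 < n → c ^ n ≠ 1) {C : Set ℂ}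
    (hCX : C ⊆ X) (hC : IsCompact C) {x : ℂ} (hx : x ∈ X) : ∃ n : ℕ, 0 < n ∧ A (c ^ n) x ∉ C := by
  by_contra hcon
  push Not at hcon
  have hfin := D.proper (C ∪ {x}) (union_subset hCX (singleton_subset_iff.2 hx))
    (hC.union isCompact_singleton)
  have hinj : Injective fun n : ℕ => c ^ (n + 1) := by
    have key : ∀ m n : ℕ, m < n → c ^ (m + 1) ≠ c ^ (n + 1) := by
      intro m n hmn he
      have h1 : c ^ (n + 1) = c ^ (m + 1) * c ^ (n - m) := by
        rw [← pow_add]; congr 1; omega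
      rw [h1] at he
      exact hc (n - m) (by omega) (left_eq_mul.1 he)
    intro m n he
    rcases lt_trichotomy m n with h | h | h
    · exact absurd he (key m n h)
    · exact h
    · exact absurd he.symm (key n m h)
  refine infinite_of_injective_forall_mem hinj (fun n => ?_) hfin
  exact ⟨x, Or.inr rfl, Or.inl (hcon (n + 1) (by omega))⟩

/-- local injectivity of the covering -/
theorem Deck.loc (D : Deck X A p) {x : ℂ} (hx : x ∈ X) : ∃ r > 0, ball x r ⊆ X ∧
    ∀ g, g ≠ 1 → Disjoint (A g '' ball x r) (ball x r) := by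
  obtain ⟨R, hR, hRX⟩ := Metric.isOpen_iff.1 D.opn x hx
  have hC : closedBall x (R / 2) ⊆ X := (closedBall_subset_ball (half_lt_self hR)).trans hRX
  have hfin := D.proper _ hC (isCompact_closedBall _ _)
  have h1 : ∀ g ∈ {g | ∃ y ∈ closedBall x (R / 2), A g y ∈ closedBall x (R / 2)},
      ∀ᶠ r in 𝓝[>] (0 : ℝ), g ≠ 1 → Disjoint (A g '' ball x r) (ball x r) := by
    intro g _
    by_cases hg : g = 1
    · exact Eventually.of_forall fun r h => absurd hg h
    · have hd : 0 < dist (A g x) x / 2 := half_pos (dist_pos.2 (D.free g hg x hx))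
      have hcont := (D.cont g).continuousAt (D.opn.mem_nhds hx)
      obtain ⟨δ, hδ, hδ'⟩ := Metric.continuousAt_iff.1 hcont _ hd
      have h2 : ∀ᶠ r in 𝓝[>] (0 : ℝ), r < min δ (dist (A g x) x / 2) :=
        nhdsWithin_le_nhds (Iio_mem_nhds (lt_min hδ hd))
      filter_upwards [h2] with r hr _
      rw [Set.disjoint_left]
      rintro y ⟨z, hz, rfl⟩ hy
      have h3 : dist (A g z) (A g x) < dist (A g x) x / 2 :=
        hδ' ((mem_ball.1 hz).trans (hr.trans_le (min_le_left _ _)))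
      have h4 : dist (A g z) x < dist (A g x) x / 2 :=
        (mem_ball.1 hy).trans (hr.trans_le (min_le_right _ _))
      have h5 := dist_triangle_left (A g x) x (A g z)
      linarith
  have h2 := (eventually_all_finite hfin).2 h1
  have h3 : ∀ᶠ r in 𝓝[>] (0 : ℝ), r < R / 2 :=
    nhdsWithin_le_nhds (Iio_mem_nhds (half_pos hR))
  obtain ⟨r, hr1, hr2, hr3⟩ := ((h2.and h3).and self_mem_nhdsWithin).exists.imp
    fun r h => (⟨h.1.1, h.1.2, h.2⟩ : _ ∧ _ ∧ _)
  have hsub : ball x r ⊆ closedBall x (R / 2) :=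
    (ball_subset_ball hr2.le).trans ball_subset_closedBall
  refine ⟨r, hr3, hsub.trans hC, fun g hg => ?_⟩
  by_cases hgF : g ∈ {g | ∃ y ∈ closedBall x (R / 2), A g y ∈ closedBall x (R / 2)}
  · exact hr1 g hgF hg
  · rw [Set.disjoint_left]
    rintro y ⟨z, hz, rfl⟩ hy
    exact hgF ⟨z, hsub hz, hsub hy⟩

variable {g gi : S → S} {G Gi : ℂ → ℂ} {θ : Γ ≃* Γ} {ρ : ℂ → ℝ}

theorem Lift.iter (L : Lift X A p g gi G Gi θ ρ) (n : ℕ) : MapsTo (G^[n]) X X ∧
    MapsTo (Gi^[n]) X X ∧ (∀ x ∈ X, Gi^[n] (G^[n] x) = x) ∧ (∀ x ∈ X, G^[n] (Gi^[n] x) = x) ∧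
    ContDiffOn ℝ 1 (G^[n]) X ∧ ContDiffOn ℝ 1 (Gi^[n]) X ∧
    (∀ c, ∀ x ∈ X, G^[n] (A c x) = A (θ^[n] c) (G^[n] x)) ∧
    ∀ x ∈ X, p (G^[n] x) = g^[n] (p x) := by
  induction n with
  | zero =>
    exact ⟨mapsTo_id X, mapsTo_id X, fun x _ => rfl, fun x _ => rfl, contDiffOn_id, contDiffOn_id,
      fun c x _ => rfl, fun x _ => rfl⟩
  | succ n ih =>
    obtain ⟨h1, h2, h3, h4, h5, h6, h7, h8⟩ := ih
    refine ⟨?_, ?_, ?_, ?_, ?_, ?_, ?_, ?_⟩
    · rw [iterate_succ']; exact L.mG.comp h1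
    · rw [iterate_succ']; exact L.mGi.comp h2
    · intro x hx
      rw [iterate_succ_apply, iterate_succ_apply', L.GiG _ (h1 hx), h3 x hx]
    · intro x hx
      rw [iterate_succ_apply, iterate_succ_apply', L.GGi _ (h2 hx), h4 x hx]
    · rw [iterate_succ']; exact L.c1.comp h5 h1
    · rw [iterate_succ']; exact L.c1i.comp h6 h2
    · intro c x hx
      rw [iterate_succ_apply', iterate_succ_apply', iterate_succ_apply', h7 c x hx,
        L.equi _ _ (h1 hx)]
    · intro x hx
      rw [iterate_succ_apply', iterate_succ_apply', L.lift _ (h1 hx), h8 x hx]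

theorem Lift.equi_inv (D : Deck X A p) (L : Lift X A p g gi G Gi θ ρ) (c : Γ) {x : ℂ}
    (hx : x ∈ X) : Gi (A (θ c) x) = A c (Gi x) := by
  have h1 := L.equi c (Gi x) (L.mGi hx)
  rw [L.GGi x hx] at h1
  rw [← h1, L.GiG _ (D.maps c (L.mGi hx))]

variable {U : Set ℂ} {N : Subgroup Γ}

theorem Dom.theta_mem (D : Deck X A p) (L : Lift X A p g gi G Gi θ ρ) (M : Dom X A p g G U N)
    (c : Γ) : θ c ∈ N ↔ c ∈ N := by
  rw [M.mem, M.mem]
  have h1 : A (θ c) '' U = G '' (A c '' U) := by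
    conv_lhs => rw [← M.inv]
    rw [image_image, image_image]
    exact image_congr fun x hx => (L.equi c x (M.sub hx)).symm
  have hinj : InjOn G X := by
    intro x hx y hy h
    rw [← L.GiG x hx, h, L.GiG y hy]
  have hsub : A c '' U ⊆ X := by
    rintro y ⟨x, hx, rfl⟩
    exact D.maps c (M.sub hx)
  rw [h1]
  constructor
  · intro h
    have h2 : G '' (A c '' U) = G '' U := by rw [h, M.inv]
    exact (hinj.image_eq_image_iff hsub M.sub).1 h2
  · intro h
    rw [h, M.inv]

end CV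

end S_H12_CV_DK

section S_H12_CV_B1

/-!
B1, B2 (the filled set of `U`, invariance and disjointness; (0.1) of the note).  `W = fil X U`.
`fil_open`, `fil_conn`: TB.  `fil_inv`, `fil_G`: `fil_map` with `A c`, `A c⁻¹` resp. `G`, `Gi` (`G '' U = U`).
`fil_disj`: let `c ∉ N`, `U' = A c '' U`, disjoint from `U` (`M.comp`), `W' = A c '' W = fil X U'` (`fil_map`).
(a) `U'` does not meet `W`.  Otherwise (`fil_pre`) `U' ⊆ C`, `C` an island of `U`.  Claim `W' ⊆ C`: let `x ∈ W'`, `x ∉ C`.  Then `x ∉ U'`, so the component `C'` of `x` in `X \ U'` is compact.  By Kuratowski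
(`DS.compl_component` with `S = X`, `V = U`, `K = C`; maximality of the component `C`) `X \ C` is preconnected; it is contained in `X \ U'` and contains `x`, so `X \ C ⊆ C'` and `X = C ∪ C'` is compact: contradiction (`Deck.noncpt`).
So `A c '' W ⊆ C ⊆ W` (`Island.basic`), and by induction `A (c^n) '' W ⊆ C` for all `n ≥ 1`.  `c^n ≠ 1` for `n ≥ 1`, since `C` is disjoint from `U ⊆ W`.  `Deck.infinite` for a point of `U`: contradiction.
(b) `U` does not meet `W'`: (a) for `c⁻¹ ∉ N`, transported by `A c`.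
(c) Suppose `W` meets `W'`.  `W` is connected and not contained in `W'` (it contains `U`, nonempty, and (b)), `W'` is open, so `W` meets `closure W' \ W'`: a point `y ∈ W ⊆ X`.  `fil_front` for `U'`: `y ∈ closure U'`; `W` is open and contains `y`, so
`W` meets `U'`: contradiction to (a).
`fil_same`: if `x, A c x ∈ W` then `c ∈ N`.
`fil_inj`: `p` on `W`: `p x = p y` iff `y = A c x` for some `c ∈ N`.
-/

namespace CV

open Metric Set Filter Topology Function DS TN

section
variable {S : Type} [MetricSpace S] {X : Set ℂ} {Γ : Type} [Group Γ]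
  {A : Γ → ℂ → ℂ} {p : ℂ → S} {g gi : S → S} {G Gi : ℂ → ℂ} {θ : Γ ≃* Γ} {ρ : ℂ → ℝ}
  {U : Set ℂ} {N : Subgroup Γ}

theorem fil_open (D : Deck X A p) (M : Dom X A p g G U N) : IsOpen (fil X U) :=
  fil_isOpen D.opn M.opn M.sub

theorem fil_conn (D : Deck X A p) (M : Dom X A p g G U N) : IsConnected (fil X U) :=
  fil_isConnected D.opn M.opn M.conn M.sub

theorem B1_map (D : Deck X A p) (M : Dom X A p g G U N) (c : Γ) :
    A c '' fil X U = fil X (A c '' U) ∧
      ∀ Y, Island X U Y → Island X (A c '' U) (A c '' Y) :=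
  fil_map M.sub (D.cont c) (D.cont c⁻¹) (D.maps c) (D.maps c⁻¹) (fun _ hx => D.inv_left c hx)
    (fun _ hx => D.inv_right c hx) rfl

theorem fil_inv (D : Deck X A p) (M : Dom X A p g G U N) {c : Γ} (hc : c ∈ N) :
    A c '' fil X U = fil X U := by
  rw [(B1_map D M c).1, (M.mem c).1 hc]

theorem fil_G (_D : Deck X A p) (L : Lift X A p g gi G Gi θ ρ) (M : Dom X A p g G U N) :
    G '' fil X U = fil X U :=
  (fil_map M.sub L.c1.continuousOn L.c1i.continuousOn L.mG L.mGi L.GiG L.GGi M.inv).1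

theorem B1_sub (D : Deck X A p) (M : Dom X A p g G U N) (c : Γ) : A c '' U ⊆ X := by
  rintro _ ⟨x, hx, rfl⟩
  exact D.maps c (M.sub hx)

theorem B1_open (D : Deck X A p) (M : Dom X A p g G U N) (c : Γ) : IsOpen (A c '' U) := by
  have h1 : A c '' U = X ∩ A c⁻¹ ⁻¹' U := by
    ext x
    constructor
    · rintro ⟨y, hy, rfl⟩
      refine ⟨D.maps c (M.sub hy), ?_⟩
      show A c⁻¹ (A c y) ∈ U
      rw [D.inv_left c (M.sub hy)]
      exact hy
    · rintro ⟨hx, hxU⟩
      exact ⟨A c⁻¹ x, hxU, D.inv_right c hx⟩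
  rw [h1]
  exact (D.cont c⁻¹).isOpen_inter_preimage D.opn M.opn

/-- (a) -/
theorem B1_a (D : Deck X A p) (M : Dom X A p g G U N) {c : Γ} (hc : c ∉ N) :
    ∀ x, x ∈ A c '' U → x ∉ fil X U := by
  intro x hxU' hxW
  have hpre : IsPreconnected (A c '' U) :=
    M.conn.isPreconnected.image _ ((D.cont c).mono M.sub)
  have hsub : A c '' U ⊆ X \ U := fun y hy =>
    ⟨B1_sub D M c hy, fun hyU => disjoint_left.1 (M.comp c hc) hy hyU⟩
  obtain ⟨hIs, hU'K, -⟩ := fil_pre hpre hsub hxU' hxW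
  set K := connectedComponentIn (X \ U) x with hK
  have hKsub : K ⊆ X \ U := connectedComponentIn_subset _ _
  -- Kuratowski
  have hkur : IsPreconnected (X \ K) := by
    refine DS.compl_component D.conn.isPreconnected M.conn.isPreconnected M.conn.nonempty M.sub
      isPreconnected_connectedComponentIn hKsub ?_
    intro C hC hCp hCK
    exact DS.auxTB_max x C hC hCp hCK
  have hclaim : A c '' fil X U ⊆ K := by
    rw [(B1_map D M c).1]
    rintro y ⟨hyX, hy⟩
    by_contra hyK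
    rcases hy with hy | hy
    · exact hyK (hU'K hy)
    · have h1 : X \ K ⊆ X \ (A c '' U) := fun z hz => ⟨hz.1, fun h => hz.2 (hU'K h)⟩
      have h2 : X \ K ⊆ connectedComponentIn (X \ (A c '' U)) y :=
        hkur.subset_connectedComponentIn ⟨hyX, hyK⟩ h1
      have h3 : X = K ∪ connectedComponentIn (X \ (A c '' U)) y := by
        apply Subset.antisymm
        · intro z hz
          by_cases hzK : z ∈ K
          · exact Or.inl hzK
          · exact Or.inr (h2 ⟨hz, hzK⟩)
        · rintro z (hz | hz)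
          · exact (hKsub hz).1
          · exact (connectedComponentIn_subset _ _ hz).1
      apply D.noncpt
      rw [h3]
      exact hIs.cpt.union hy
  have hKW : K ⊆ fil X U := hIs.basic.2.2.1
  have hind : ∀ n : ℕ, 0 < n → ∀ w ∈ fil X U, A (c ^ n) w ∈ K := by
    intro n hn
    induction n with
    | zero => exact absurd hn (lt_irrefl _)
    | succ n ih =>
      intro w hw
      have hwX : w ∈ X := fil_sub hw
      rcases Nat.eq_zero_or_pos n with h0 | h0
      · subst h0
        rw [zero_add, pow_one]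
        exact hclaim ⟨w, hw, rfl⟩
      · rw [pow_succ', D.mul _ _ w hwX]
        exact hclaim ⟨_, hKW (ih h0 w hw), rfl⟩
  obtain ⟨u, hu⟩ := M.conn.nonempty
  have huX : u ∈ X := M.sub hu
  have huW : u ∈ fil X U := sub_fil M.sub hu
  have hne : ∀ n : ℕ, 0 < n → c ^ n ≠ 1 := by
    intro n hn h1
    have h2 := hind n hn u huW
    rw [h1, D.one u huX] at h2
    exact (hKsub h2).2 hu
  obtain ⟨n, hn, hnK⟩ := D.infinite hne (fun z hz => (hKsub hz).1) hIs.cpt huX
  exact hnK (hind n hn u huW)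

theorem fil_disj (D : Deck X A p) (M : Dom X A p g G U N) {c : Γ} (hc : c ∉ N) :
    Disjoint (A c '' fil X U) (fil X U) := by
  have ha := B1_a D M hc
  have hc' : c⁻¹ ∉ N := fun h => hc (by simpa using N.inv_mem h)
  have hb : ∀ u ∈ U, u ∉ A c '' fil X U := by
    rintro u hu ⟨w, hw, rfl⟩
    have h1 : w ∈ A c⁻¹ '' U := ⟨A c w, hu, D.inv_left c (fil_sub hw)⟩
    exact B1_a D M hc' w h1 hw
  have hW'o : IsOpen (A c '' fil X U) := by
    rw [(B1_map D M c).1]
    exact fil_isOpen D.opn (B1_open D M c) (B1_sub D M c)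
  rw [disjoint_comm, disjoint_iff_inter_eq_empty]
  by_contra hne
  have hne' : (fil X U ∩ A c '' fil X U).Nonempty := nonempty_iff_ne_empty.2 hne
  by_cases h : closure (A c '' fil X U) ∩ fil X U ⊆ A c '' fil X U
  · have h1 := (fil_conn D M).isPreconnected.subset_of_closure_inter_subset hW'o hne' h
    obtain ⟨u, hu⟩ := M.conn.nonempty
    exact hb u hu (h1 (sub_fil M.sub hu))
  · obtain ⟨y, ⟨hy1, hy2⟩, hy3⟩ := not_subset.1 h
    rw [(B1_map D M c).1] at hy1 hy3
    have h2 : y ∈ closure (A c '' U) := fil_front D.opn (fil_sub hy2) hy1 hy3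
    obtain ⟨z, hz1, hz2⟩ := mem_closure_iff.1 h2 _ (fil_open D M) hy2
    exact ha z hz2 hz1

theorem fil_same (D : Deck X A p) (M : Dom X A p g G U N) {c : Γ} {x : ℂ} (hx : x ∈ fil X U)
    (hcx : A c x ∈ fil X U) : c ∈ N := by
  by_contra hc
  exact disjoint_left.1 (fil_disj D M hc) ⟨x, hx, rfl⟩ hcx

/-- `A c ∘ G^n` and its inverse map the filled set onto itself and islands to islands -/
theorem fil_iter (D : Deck X A p) (L : Lift X A p g gi G Gi θ ρ) (M : Dom X A p g G U N) (n : ℕ)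
    {c : Γ} (hc : c ∈ N) : (fun x => A c (G^[n] x)) '' fil X U = fil X U ∧
      (fun x => Gi^[n] (A c⁻¹ x)) '' fil X U = fil X U ∧
      (∀ Y, Island X U Y → Island X U ((fun x => A c (G^[n] x)) '' Y)) ∧
      ∀ Y, Island X U Y → Island X U (A c '' Y) := by
  obtain ⟨i1, i2, i3, i4, i5, i6, -, -⟩ := L.iter n
  have hGU : ∀ k : ℕ, G^[k] '' U = U := by
    intro k
    induction k with
    | zero => simp
    | succ k ih => rw [iterate_succ, image_comp, M.inv, ih]
  have hU : (fun x => A c (G^[n] x)) '' U = U := by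
    have h1 : (fun x => A c (G^[n] x)) '' U = A c '' (G^[n] '' U) := (image_image _ _ _).symm
    rw [h1, hGU, (M.mem c).1 hc]
  have hmain := fil_map (h := fun x => A c (G^[n] x)) (hi := fun x => Gi^[n] (A c⁻¹ x))
    M.sub ((D.cont c).comp i5.continuousOn i1) (i6.continuousOn.comp (D.cont c⁻¹) (D.maps c⁻¹))
    ((D.maps c).comp i1) (i2.comp (D.maps c⁻¹))
    (fun x hx => by
      show Gi^[n] (A c⁻¹ (A c (G^[n] x))) = x
      rw [D.inv_left c (i1 hx), i3 x hx])
    (fun x hx => by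
      show A c (G^[n] (Gi^[n] (A c⁻¹ x))) = x
      rw [i4 _ (D.maps c⁻¹ hx), D.inv_right c hx]) hU
  refine ⟨hmain.1, ?_, hmain.2, ?_⟩
  · conv_lhs => rw [← hmain.1]
    rw [image_image]
    have h2 : ∀ x ∈ fil X U, Gi^[n] (A c⁻¹ (A c (G^[n] x))) = x := by
      intro x hx
      have hxX := fil_sub hx
      rw [D.inv_left c (i1 hxX), i3 x hxX]
    rw [image_congr h2, image_id']
  · have h3 := (B1_map D M c).2
    rw [(M.mem c).1 hc] at h3
    exact h3

end

end CV

end S_H12_CV_B1
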