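import Pool.Agent.H12.KS.K02

/-! Joined modules of the proof of MP_8a27c0_an (one section per module). -/

section S_H12_CV_MM

/-!
MM (automorphisms of the disc, Schwarz-Pick, classification of Moebius maps).
`auto_mob`: `T` is a holomorphic automorphism of the disc (inverse `Ti`).  Let `b = Ti 0`, `R w = T (mob 1 (-b) w)` (`mob 1 (-b) 0 = b`), so `R 0 = 0`; `R` and its inverse map the disc to itself and fix `0`, so by the Schwarz lemma
(`Complex.norm_le_norm_of_mapsTo_ball`) `‖R w‖ = ‖w‖`, and by the equality case (`R w / w` is holomorphic (dslope) of modulus one, so constant; e.g. `Complex.affine_of_mapsTo_ball_of_norm_deriv_eq_div'` or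
maximum modulus) `R w = u w`, `‖u‖ = 1`.  Then `T z = u * mob 1 b z = mob u b z`.
`schwarz_pick`: for `ψ : ball → ball` holomorphic: apply the Schwarz lemma to `w ↦ mob 1 (ψ y) (ψ (mob 1 (-y) w))`, `w = mob 1 y x`; `‖mob 1 y x‖ = pd y x` (`pd` symmetric).
`mob_unique`: `mob u b = mob u' b'` on the disc implies `b = b'` (zero) and `u = u'`.
`classify`: `mob u b` has no fixed point in the open disc.  Then `b ≠ 0` (`mob u 0 0 = 0`).  For `z` in the closed disc `mob u b z - z = (conj b z² - (1 - u) z - u b)/(1 - conj b z)`.  The quadratic polynomial `conj b z² - (1-u) z - u b` has two roots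
(with multiplicity) with product `- u b / conj b`, of modulus one; none is in the open disc, so (as the product has modulus one) both are on the circle.  If they are distinct: first alternative.
If `P` is a double root, `mob u b z - z = conj b (z - P)²/(1 - conj b z)`; for `z = r P`: `‖mob u b z - z‖ ≤ ‖b‖ (1-r)²/(1 - ‖b‖)` and `‖1 - conj z * mob u b z‖ ≥ 1 - r`, so `pd z (mob u b z) ≤ (1 - r)/(1-‖b‖)`: second alternative.
-/

namespace CV

open Metric Set Filter Topology DS TN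

theorem MM_inv {b x : ℂ} (hb : ‖b‖ < 1) (hx : ‖x‖ ≤ 1) :
    mob 1 (-b) (mob 1 b x) = x ∧ mob 1 b (mob 1 (-b) x) = x := by
  have h := mob_comp_inv (u := 1) (b := b) (x := x) norm_one hb hx
  rw [map_one, one_mul] at h
  exact h

theorem MM_mapsTo {b : ℂ} (hb : ‖b‖ < 1) : MapsTo (mob 1 b) (ball 0 1) (ball 0 1) := by
  intro x hx
  rw [mem_ball_zero_iff] at hx ⊢
  exact mob_ball norm_one hb hx

theorem MM_diff {u b : ℂ} (hb : ‖b‖ < 1) : DifferentiableOn ℂ (mob u b) (ball 0 1) := by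
  intro x hx
  exact (mob_hasDerivAt hb (mem_ball_zero_iff.1 hx).le).differentiableAt.differentiableWithinAt

theorem MM_zero (b : ℂ) : mob 1 (-b) 0 = b := by
  simp [mob]

theorem MM_self (b : ℂ) : mob 1 b b = 0 := by
  simp [mob]

theorem auto_mob {T Ti : ℂ → ℂ} (hT : DifferentiableOn ℂ T (ball 0 1))
    (hTi : DifferentiableOn ℂ Ti (ball 0 1)) (m : MapsTo T (ball 0 1) (ball 0 1))
    (mi : MapsTo Ti (ball 0 1) (ball 0 1)) (h1 : ∀ z ∈ ball (0:ℂ) 1, Ti (T z) = z)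
    (h2 : ∀ z ∈ ball (0:ℂ) 1, T (Ti z) = z) :
    ∃ u b : ℂ, ‖u‖ = 1 ∧ ‖b‖ < 1 ∧ ∀ z ∈ ball (0:ℂ) 1, T z = mob u b z := by
  have h0 : (0:ℂ) ∈ ball (0:ℂ) 1 := mem_ball_self one_pos
  set b := Ti 0 with hbdef
  have hb : ‖b‖ < 1 := mem_ball_zero_iff.1 (mi h0)
  have hb' : ‖-b‖ < 1 := by rwa [norm_neg]
  set R : ℂ → ℂ := fun w => T (mob 1 (-b) w) with hR
  have hR0 : R 0 = 0 := by
    simp only [hR, MM_zero]
    exact h2 0 h0
  have hRd : DifferentiableOn ℂ R (ball 0 1) := hT.comp (MM_diff hb') (MM_mapsTo hb')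
  have hRm : MapsTo R (ball 0 1) (ball 0 1) := m.comp (MM_mapsTo hb')
  set Q : ℂ → ℂ := fun w => mob 1 b (Ti w) with hQ
  have hQ0 : Q 0 = 0 := by
    simp only [hQ]
    exact MM_self b
  have hQd : DifferentiableOn ℂ Q (ball 0 1) := (MM_diff hb).comp hTi mi
  have hQm : MapsTo Q (ball 0 1) (ball 0 1) := (MM_mapsTo hb).comp mi
  have hQR : ∀ w ∈ ball (0:ℂ) 1, Q (R w) = w := by
    intro w hw
    simp only [hQ, hR]
    rw [h1 _ (MM_mapsTo hb' hw)]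
    exact (MM_inv hb (mem_ball_zero_iff.1 hw).le).2
  have hn : ∀ w ∈ ball (0:ℂ) 1, ‖R w‖ = ‖w‖ := by
    intro w hw
    have hw' := mem_ball_zero_iff.1 hw
    have e1 : ‖R w‖ ≤ ‖w‖ :=
      Complex.norm_le_norm_of_mapsTo_ball hRd (hRm.mono_right ball_subset_closedBall) hR0 hw'
    have e2 : ‖Q (R w)‖ ≤ ‖R w‖ :=
      Complex.norm_le_norm_of_mapsTo_ball hQd (hQm.mono_right ball_subset_closedBall) hQ0
        (mem_ball_zero_iff.1 (hRm hw))
    rw [hQR w hw] at e2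
    exact le_antisymm e1 e2
  have hh : (2⁻¹ : ℂ) ∈ ball (0:ℂ) 1 := by
    rw [mem_ball_zero_iff]
    norm_num
  obtain ⟨u, hu, hE⟩ := Complex.affine_of_mapsTo_ball_of_exists_norm_dslope_eq_div' (R₂ := 1) hRd
    (by rw [hR0]; exact hRm.mono_right ball_subset_closedBall)
    ⟨2⁻¹, hh, by
      rw [dslope_of_ne _ (by norm_num), slope_def_module, hR0, sub_zero, sub_zero, norm_smul,
        hn _ hh, norm_inv, div_one, inv_mul_cancel₀]
      norm_num⟩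
  rw [div_one] at hu
  refine ⟨u, b, hu, hb, fun z hz => ?_⟩
  have e3 := hE (MM_mapsTo hb hz)
  simp only [hR, MM_zero, sub_zero, smul_eq_mul] at e3
  rw [(MM_inv hb (mem_ball_zero_iff.1 hz).le).1, h2 0 h0, zero_add] at e3
  rw [e3, mob, mob]
  ring

theorem MM_pd (x y : ℂ) : ‖mob 1 y x‖ = pd x y := by
  rw [← MB_pd_eq, pd_symm]

theorem schwarz_pick {ψ : ℂ → ℂ} (hψ : DifferentiableOn ℂ ψ (ball 0 1))
    (m : MapsTo ψ (ball 0 1) (ball 0 1)) {x y : ℂ} (hx : x ∈ ball (0:ℂ) 1)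
    (hy : y ∈ ball (0:ℂ) 1) : pd (ψ x) (ψ y) ≤ pd x y := by
  have hy' : ‖y‖ < 1 := mem_ball_zero_iff.1 hy
  have hyn : ‖-y‖ < 1 := by rwa [norm_neg]
  have hpy : ‖ψ y‖ < 1 := mem_ball_zero_iff.1 (m hy)
  have hd : DifferentiableOn ℂ (fun w => mob 1 (ψ y) (ψ (mob 1 (-y) w))) (ball 0 1) :=
    (MM_diff hpy).comp (hψ.comp (MM_diff hyn) (MM_mapsTo hyn)) (m.comp (MM_mapsTo hyn))
  have hm : MapsTo (fun w => mob 1 (ψ y) (ψ (mob 1 (-y) w))) (ball 0 1) (ball 0 1) :=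
    (MM_mapsTo hpy).comp (m.comp (MM_mapsTo hyn))
  have h := Complex.norm_le_norm_of_mapsTo_ball hd (hm.mono_right ball_subset_closedBall)
    (by simp only [MM_zero, MM_self]) (mem_ball_zero_iff.1 (MM_mapsTo hy' hx))
  rw [(MM_inv hy' (mem_ball_zero_iff.1 hx).le).1, MM_pd, MM_pd] at h
  exact h

theorem mob_unique {u b u' b' : ℂ} (hu : ‖u‖ = 1) (hb : ‖b‖ < 1) (hu' : ‖u'‖ = 1) (hb' : ‖b'‖ < 1)
    (h : ∀ z ∈ ball (0:ℂ) 1, mob u b z = mob u' b' z) : u = u' ∧ b = b' := by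
  have hbb : b = b' := by
    have h1 := h b (mem_ball_zero_iff.2 hb)
    have h2 : mob u b b = 0 := by simp [mob]
    rw [h2, mob] at h1
    have h3 := (div_eq_zero_iff.1 h1.symm).resolve_right (den_ne hb' hb.le)
    have h4 := (mul_eq_zero.1 h3).resolve_left (MB_u_ne hu')
    exact sub_eq_zero.1 h4
  refine ⟨?_, hbb⟩
  subst hbb
  by_cases hb0 : b = 0
  · subst hb0
    have h1 := h 2⁻¹ (by rw [mem_ball_zero_iff]; norm_num)
    simp only [mob, map_zero, zero_mul, sub_zero, div_one] at h1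
    exact mul_right_cancel₀ (by norm_num) h1
  · have h1 := h 0 (mem_ball_self one_pos)
    simp only [mob, mul_zero, sub_zero, div_one, zero_sub] at h1
    exact mul_right_cancel₀ (neg_ne_zero.2 hb0) h1

theorem MM_formula {u b z : ℂ} (hb : ‖b‖ < 1) (hz : ‖z‖ ≤ 1) :
    mob u b z - z = ((starRingEnd ℂ) b * z ^ 2 - (1 - u) * z - u * b) /
      (1 - (starRingEnd ℂ) b * z) := by
  have h := den_ne hb hz
  rw [mob, eq_div_iff h, sub_mul, div_mul_cancel₀ _ h]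
  ring

theorem classify {u b : ℂ} (hu : ‖u‖ = 1) (hb : ‖b‖ < 1)
    (h : ∀ z ∈ ball (0:ℂ) 1, mob u b z ≠ z) :
    (∃ p q : ℂ, ‖p‖ = 1 ∧ ‖q‖ = 1 ∧ p ≠ q ∧ mob u b p = p ∧ mob u b q = q) ∨
      ∃ P : ℂ, ‖P‖ = 1 ∧ b ≠ 0 ∧ (∀ z : ℂ, ‖z‖ ≤ 1 →
        mob u b z - z = (starRingEnd ℂ) b * (z - P) ^ 2 / (1 - (starRingEnd ℂ) b * z)) ∧
        ∀ ε > 0, ∃ z ∈ ball (0:ℂ) 1, pd z (mob u b z) < ε := by
  have hb0 : b ≠ 0 := by
    rintro rfl
    exact h 0 (mem_ball_self one_pos) (by simp [mob])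
  set B := (starRingEnd ℂ) b with hB
  have hB0 : B ≠ 0 := by
    rw [hB]
    exact (map_ne_zero _).2 hb0
  obtain ⟨s, hs⟩ := IsSquare.exists_sq (a := (1 - u) ^ 2 + 4 * B * u * b)
    (by
      obtain ⟨t, ht⟩ := IsAlgClosed.exists_pow_nat_eq ((1 - u) ^ 2 + 4 * B * u * b)
        (n := 2) (by norm_num)
      exact ⟨t, by rw [← ht]; ring⟩)
  set p := ((1 - u) + s) / (2 * B) with hp
  set q := ((1 - u) - s) / (2 * B) with hq
  have hsum : B * (p + q) = 1 - u := by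
    rw [hp, hq]
    field_simp
    ring
  have hprod : B * (p * q) = -(u * b) := by
    rw [hp, hq]
    field_simp
    linear_combination hs
  have hfac : ∀ z : ℂ, B * z ^ 2 - (1 - u) * z - u * b = B * ((z - p) * (z - q)) := by
    intro z
    linear_combination z * hsum - hprod
  have hnpq : ‖p‖ * ‖q‖ = 1 := by
    have h1 := congrArg norm hprod
    rw [norm_mul, norm_mul, norm_neg, norm_mul, hu, one_mul, hB, RCLike.norm_conj] at h1
    have h2 : ‖b‖ ≠ 0 := norm_ne_zero_iff.2 hb0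
    exact mul_left_cancel₀ h2 (by rw [h1, mul_one])
  have hfix : ∀ z : ℂ, ‖z‖ ≤ 1 → (z - p) * (z - q) = 0 → mob u b z = z := by
    intro z hz h1
    have h2 := MM_formula (u := u) hb hz
    rw [hfac, h1, mul_zero, zero_div] at h2
    exact sub_eq_zero.1 h2
  have hp1 : 1 ≤ ‖p‖ := by
    by_contra hlt
    push Not at hlt
    exact h p (mem_ball_zero_iff.2 hlt) (hfix p hlt.le (by rw [sub_self, zero_mul]))
  have hq1 : 1 ≤ ‖q‖ := by
    by_contra hlt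
    push Not at hlt
    exact h q (mem_ball_zero_iff.2 hlt) (hfix q hlt.le (by rw [sub_self, mul_zero]))
  have hpn : ‖p‖ = 1 := by nlinarith
  have hqn : ‖q‖ = 1 := by nlinarith
  by_cases hpq : p = q
  · right
    have hform : ∀ z : ℂ, ‖z‖ ≤ 1 →
        mob u b z - z = B * (z - p) ^ 2 / (1 - B * z) := by
      intro z hz
      rw [MM_formula hb hz, hfac, ← hpq]
      ring
    refine ⟨p, hpn, hb0, hform, fun ε hε => ?_⟩
    have hb1 : 0 < 1 - ‖b‖ := by linarith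
    set δ := min (1 / 2) (ε * (1 - ‖b‖) / 2) with hδ
    have hδ0 : 0 < δ := lt_min (by norm_num) (by positivity)
    have hδ1 : δ ≤ 1 / 2 := min_le_left _ _
    have hδ2 : δ ≤ ε * (1 - ‖b‖) / 2 := min_le_right _ _
    set z : ℂ := ((1 - δ : ℝ) : ℂ) * p with hz
    have hzn : ‖z‖ = 1 - δ := by
      rw [hz, norm_mul, hpn, mul_one, Complex.norm_real, Real.norm_eq_abs, abs_of_pos (by linarith)]
    have hz1 : ‖z‖ < 1 := by rw [hzn]; linarith
    refine ⟨z, mem_ball_zero_iff.2 hz1, ?_⟩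
    have hzp : ‖z - p‖ = δ := by
      have e1 : z - p = -((δ : ℂ) * p) := by
        rw [hz]
        push_cast
        ring
      rw [e1, norm_neg, norm_mul, hpn, mul_one, Complex.norm_real, Real.norm_eq_abs,
        abs_of_pos hδ0]
    have hBn : ‖B‖ = ‖b‖ := by rw [hB, RCLike.norm_conj]
    have hden : 1 - ‖b‖ ≤ ‖1 - B * z‖ := by
      have h2 : ‖(1:ℂ)‖ - ‖B * z‖ ≤ ‖1 - B * z‖ := norm_sub_norm_le _ _
      rw [norm_one, norm_mul, hBn] at h2
      have h3 : ‖b‖ * ‖z‖ ≤ ‖b‖ * 1 := mul_le_mul_of_nonneg_left hz1.le (norm_nonneg _)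
      linarith
    have hnum : ‖z - mob u b z‖ ≤ δ ^ 2 / (1 - ‖b‖) := by
      rw [norm_sub_rev, hform z hz1.le, norm_div, norm_mul, norm_pow, hzp, hBn,
        div_le_div_iff₀ (by linarith) hb1]
      have h4 : ‖b‖ * δ ^ 2 ≤ 1 * δ ^ 2 := mul_le_mul_of_nonneg_right hb.le (by positivity)
      have h5 : ‖b‖ * δ ^ 2 * (1 - ‖b‖) ≤ δ ^ 2 * (1 - ‖b‖) := by
        nlinarith
      have h6 : δ ^ 2 * (1 - ‖b‖) ≤ δ ^ 2 * ‖1 - B * z‖ :=
        mul_le_mul_of_nonneg_left hden (by positivity)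
      linarith
    have hden2 : δ ≤ ‖1 - (starRingEnd ℂ) z * mob u b z‖ := by
      have h2 : ‖(1:ℂ)‖ - ‖(starRingEnd ℂ) z * mob u b z‖ ≤ ‖1 - (starRingEnd ℂ) z * mob u b z‖ :=
        norm_sub_norm_le _ _
      rw [norm_one, norm_mul, RCLike.norm_conj, hzn] at h2
      have h3 : (1 - δ) * ‖mob u b z‖ ≤ (1 - δ) * 1 :=
        mul_le_mul_of_nonneg_left (mob_ball hu hb hz1).le (by linarith)
      linarith
    have hpd : pd z (mob u b z) ≤ δ ^ 2 / (1 - ‖b‖) / δ := by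
      rw [pd]
      exact div_le_div₀ (by positivity) hnum hδ0 hden2
    have he : δ ^ 2 / (1 - ‖b‖) / δ = δ / (1 - ‖b‖) := by
      field_simp
    rw [he] at hpd
    refine lt_of_le_of_lt hpd ?_
    rw [div_lt_iff₀ hb1]
    have : 0 < ε * (1 - ‖b‖) := by positivity
    linarith
  · left
    exact ⟨p, q, hpn, hqn, hpq, hfix p hpn.le (by rw [sub_self, zero_mul]),
      hfix q hqn.le (by rw [sub_self, mul_zero])⟩

end CV

end S_H12_CV_MM

section S_H12_CV_HM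

/-!
HM (the hyperbolic metric of the disc).  `hd x y = log ((1 + pd x y)/(1 - pd x y))`.
`pd_tri`: `pd x z ≤ (pd x y + pd y z)/(1 + pd x y * pd y z)`.  By `mob_pd` with `b = y` we may assume `y = 0` (`mob 1 y y = 0`), where `pd x 0 = ‖x‖`: the claim is `‖x - z‖ / ‖1 - conj x z‖ ≤ (s + t)/(1 + s t)`, `s = ‖x‖`, `t = ‖z‖`.  With
`c = Re (conj x z) ∈ [-s t, s t]`: `‖x - z‖² = s² + t² - 2c`, `‖1 - conj x z‖² = 1 - 2c + s² t²`; the quotient `(s² + t² - 2c)/(1 + s² t² - 2c)` is a decreasing function of `c` (numerator minus denominator is `-(1-s²)(1-t²) ≤ 0`), so it is at most its value at `c = - s t`.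
`hd_tri`: `F u = log ((1+u)/(1-u))` is increasing on `[0,1)` and `F ((u+v)/(1+uv)) = F u + F v`.
`hd_mob`: `mob_pd`.  `hd_nonneg`, `hd_symm`, `hd_self` clear.  `hd_zero`: `pd x 0 = ‖x‖`.
`hd_radial`: for `0 ≤ r ≤ s < 1`, `‖ζ‖ = 1`: `pd (r ζ) (s ζ) = (s - r)/(1 - r s)`, and `(1 + pd)/(1 - pd) = ((1+s)(1-r))/((1-s)(1+r))`.
`hd_bound`: `pd x y ≤ k` iff `hd x y ≤ log ((1+k)/(1-k))`; `norm_of_hd`: `hd x 0 ≤ R` iff `‖x‖ ≤ (e^R - 1)/(e^R + 1)`.
`hd_close`: if `hd x y ≤ R` then `‖x - y‖² ≤ e^(2R) (1 - ‖x‖²)(1 - ‖y‖²)`: from `‖1 - conj x y‖² = ‖x - y‖² + (1-‖x‖²)(1-‖y‖²)`: `‖x - y‖² (1 - k²) ≤ k² (1-‖x‖²)(1-‖y‖²)`, `k = pd x y`, and `k²/(1 - k²) ≤ 1/(1-k) ≤ e^R`.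
`hd_schwarz`: `schwarz_pick`.
-/

namespace CV

open Metric Set Filter Topology DS TN

/-- the hyperbolic distance of the unit disc -/
noncomputable def hd (x y : ℂ) : ℝ := Real.log ((1 + pd x y) / (1 - pd x y))

theorem HM_pd_nonneg (x y : ℂ) : 0 ≤ pd x y := by
  unfold pd
  positivity

theorem HM_base {x z : ℂ} (hx : ‖x‖ < 1) (hz : ‖z‖ < 1) :
    pd x z ≤ (‖x‖ + ‖z‖) / (1 + ‖x‖ * ‖z‖) := by
  have h0 := den_ne hx hz.le
  have hD : 0 < ‖1 - (starRingEnd ℂ) x * z‖ := norm_pos_iff.2 h0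
  have hk := MB_key x z
  have hD2 : ‖1 - (starRingEnd ℂ) x * z‖ ≤ 1 + ‖x‖ * ‖z‖ := by
    refine (norm_sub_le _ _).trans ?_
    rw [norm_one, norm_mul, RCLike.norm_conj]
  have hs := norm_nonneg x
  have ht := norm_nonneg z
  rw [norm_sub_rev z x] at hk
  unfold pd
  set D := ‖1 - (starRingEnd ℂ) x * z‖
  set N := ‖x - z‖ with hN
  have hN0 : 0 ≤ N := norm_nonneg _
  set a := ‖x‖
  set b := ‖z‖
  have hab : 0 ≤ a * b := mul_nonneg hs ht
  rw [div_le_div_iff₀ hD (by linarith)]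
  have hK : 0 ≤ (1 - a ^ 2) * (1 - b ^ 2) := by
    have h1 : 0 ≤ 1 - a ^ 2 := by nlinarith
    have h2 : 0 ≤ 1 - b ^ 2 := by nlinarith
    exact mul_nonneg h1 h2
  have hD3 : D ^ 2 ≤ (1 + a * b) ^ 2 := by nlinarith
  refine abs_le_of_sq_le_sq' ?_ (by positivity) |>.2
  have e1 : (N * (1 + a * b)) ^ 2 = (D ^ 2 - (1 - a ^ 2) * (1 - b ^ 2)) * (1 + a * b) ^ 2 := by
    rw [← hk]; ring
  rw [e1]
  have e2 : ((a + b) * D) ^ 2 = ((1 + a * b) ^ 2 - (1 - a ^ 2) * (1 - b ^ 2)) * D ^ 2 := by ring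
  rw [e2]
  nlinarith [mul_le_mul_of_nonneg_left hD3 hK]

theorem pd_tri {x y z : ℂ} (hx : ‖x‖ < 1) (hy : ‖y‖ < 1) (hz : ‖z‖ < 1) :
    pd x z ≤ (pd x y + pd y z) / (1 + pd x y * pd y z) := by
  have h1 : pd x y = ‖mob 1 y x‖ := by rw [pd_symm, MB_pd_eq]
  have h2 : pd y z = ‖mob 1 y z‖ := MB_pd_eq y z
  have h3 : pd x z = pd (mob 1 y x) (mob 1 y z) := (mob_pd norm_one hy hx.le hz).symm
  rw [h1, h2, h3]
  exact HM_base (mob_ball norm_one hy hx) (mob_ball norm_one hy hz)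

theorem HM_mono {u v : ℝ} (hu : 0 ≤ u) (huv : u ≤ v) (hv : v < 1) :
    Real.log ((1 + u) / (1 - u)) ≤ Real.log ((1 + v) / (1 - v)) := by
  have h1 : 0 < 1 - v := by linarith
  have h2 : 0 < 1 - u := by linarith
  refine Real.log_le_log (by positivity) ?_
  rw [div_le_div_iff₀ h2 h1]
  nlinarith

theorem HM_add {u v : ℝ} (hu : 0 ≤ u) (hu1 : u < 1) (hv : 0 ≤ v) (hv1 : v < 1) :
    Real.log ((1 + (u + v) / (1 + u * v)) / (1 - (u + v) / (1 + u * v))) =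
      Real.log ((1 + u) / (1 - u)) + Real.log ((1 + v) / (1 - v)) := by
  have h1 : 0 < 1 - v := by linarith
  have h2 : 0 < 1 - u := by linarith
  have h3 : 0 < 1 + u * v := by positivity
  rw [← Real.log_mul (by positivity) (by positivity)]
  congr 1
  have h4 : 1 - (u + v) / (1 + u * v) = (1 - u) * (1 - v) / (1 + u * v) := by
    field_simp
    ring
  have h5 : 1 + (u + v) / (1 + u * v) = (1 + u) * (1 + v) / (1 + u * v) := by
    field_simp
    ring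
  rw [h4, h5]
  field_simp

theorem HM_add_lt {u v : ℝ} (hu : 0 ≤ u) (hu1 : u < 1) (hv : 0 ≤ v) (hv1 : v < 1) :
    (u + v) / (1 + u * v) < 1 := by
  rw [div_lt_one (by positivity)]
  nlinarith

theorem hd_nonneg {x y : ℂ} (hx : ‖x‖ < 1) (hy : ‖y‖ < 1) : 0 ≤ hd x y := by
  have h1 := HM_pd_nonneg x y
  have h2 := pd_lt hx hy
  unfold hd
  refine Real.log_nonneg ?_
  rw [one_le_div (by linarith)]
  linarith

theorem hd_self (x : ℂ) : hd x x = 0 := by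
  simp [hd, pd]

theorem hd_symm (x y : ℂ) : hd x y = hd y x := by
  rw [hd, hd, pd_symm]

theorem hd_tri {x y z : ℂ} (hx : ‖x‖ < 1) (hy : ‖y‖ < 1) (hz : ‖z‖ < 1) :
    hd x z ≤ hd x y + hd y z := by
  have h1 := HM_pd_nonneg x y
  have h2 := pd_lt hx hy
  have h3 := HM_pd_nonneg y z
  have h4 := pd_lt hy hz
  unfold hd
  rw [← HM_add h1 h2 h3 h4]
  exact HM_mono (HM_pd_nonneg x z) (pd_tri hx hy hz) (HM_add_lt h1 h2 h3 h4)

theorem hd_mob {u b x y : ℂ} (hu : ‖u‖ = 1) (hb : ‖b‖ < 1) (hx : ‖x‖ < 1) (hy : ‖y‖ < 1) :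
    hd (mob u b x) (mob u b y) = hd x y := by
  rw [hd, hd, mob_pd hu hb hx.le hy]

theorem hd_zero (x : ℂ) : hd x 0 = Real.log ((1 + ‖x‖) / (1 - ‖x‖)) := by
  simp [hd, pd]

theorem hd_radial {ζ : ℂ} (hζ : ‖ζ‖ = 1) {r s : ℝ} (h0 : 0 ≤ r) (hrs : r ≤ s) (hs : s < 1) :
    hd (r * ζ) (s * ζ) = Real.log ((1 + s) / (1 - s)) - Real.log ((1 + r) / (1 - r)) := by
  have h1 : 0 < 1 - s := by linarith
  have h2 : 0 < 1 - r := by linarith
  have h3 : 0 ≤ s := h0.trans hrs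
  have h4 : 0 < 1 - r * s := by nlinarith
  have hpd : pd (r * ζ) (s * ζ) = (s - r) / (1 - r * s) := by
    unfold pd
    have e1 : ‖(r * ζ - s * ζ : ℂ)‖ = s - r := by
      rw [← sub_mul, norm_mul, hζ, mul_one, ← Complex.ofReal_sub, Complex.norm_real,
        Real.norm_eq_abs, abs_sub_comm, abs_of_nonneg (by linarith)]
    have e2 : 1 - (starRingEnd ℂ) (r * ζ) * (s * ζ) = ((1 - r * s : ℝ) : ℂ) := by
      have e3 : (starRingEnd ℂ) ζ * ζ = 1 := MB_uu hζ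
      rw [map_mul, Complex.conj_ofReal]
      push_cast
      linear_combination (-(r : ℂ) * s) * e3
    rw [e1, e2, Complex.norm_real, Real.norm_eq_abs, abs_of_pos h4]
  unfold hd
  rw [hpd, ← Real.log_div (by positivity) (by positivity)]
  congr 1
  have h5 : 1 + (s - r) / (1 - r * s) = (1 + s) * (1 - r) / (1 - r * s) := by
    rw [eq_div_iff h4.ne', add_mul, div_mul_cancel₀ _ h4.ne']
    ring
  have h6 : 1 - (s - r) / (1 - r * s) = (1 - s) * (1 + r) / (1 - r * s) := by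
    rw [eq_div_iff h4.ne', sub_mul, div_mul_cancel₀ _ h4.ne']
    ring
  rw [h5, h6, div_div_div_cancel_right₀ h4.ne', div_div_div_eq]

/-- balls are relatively compact -/
theorem hd_ball (R : ℝ) : ∃ ρ < (1:ℝ), ∀ x : ℂ, ‖x‖ < 1 → hd x 0 ≤ R → ‖x‖ ≤ ρ := by
  refine ⟨1 - Real.exp (-R), by linarith [Real.exp_pos (-R)], fun x hx h => ?_⟩
  rw [hd_zero] at h
  have h1 : 0 < 1 - ‖x‖ := by linarith
  have h2 := norm_nonneg x
  have h3 : (1 + ‖x‖) / (1 - ‖x‖) ≤ Real.exp R := by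
    rwa [← Real.log_le_iff_le_exp (by positivity)]
  rw [div_le_iff₀ h1] at h3
  have h4 : Real.exp (-R) * Real.exp R = 1 := by rw [← Real.exp_add]; simp
  have h5 := Real.exp_pos (-R)
  have h6 : Real.exp (-R) * (1 + ‖x‖) ≤ 1 - ‖x‖ := by
    calc Real.exp (-R) * (1 + ‖x‖) ≤ Real.exp (-R) * (Real.exp R * (1 - ‖x‖)) :=
          mul_le_mul_of_nonneg_left h3 h5.le
      _ = 1 - ‖x‖ := by rw [← mul_assoc, h4, one_mul]
  nlinarith

theorem hd_of_norm {ρ : ℝ} (hρ : ρ < 1) : ∃ R : ℝ, ∀ x : ℂ, ‖x‖ ≤ ρ → hd x 0 ≤ R := by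
  refine ⟨Real.log (2 / (1 - ρ)), fun x hx => ?_⟩
  rw [hd_zero]
  have h1 : 0 < 1 - ρ := by linarith
  have h2 : 0 < 1 - ‖x‖ := by linarith
  have h3 := norm_nonneg x
  refine Real.log_le_log (by positivity) ?_
  rw [div_le_div_iff₀ h2 h1]
  nlinarith

theorem hd_close {x y : ℂ} (hx : ‖x‖ < 1) (hy : ‖y‖ < 1) {R : ℝ} (h : hd x y ≤ R) :
    ‖x - y‖ ^ 2 ≤ Real.exp R * ((1 - ‖x‖ ^ 2) * (1 - ‖y‖ ^ 2)) := by
  have h0 := den_ne hx hy.le
  have hD : 0 < ‖1 - (starRingEnd ℂ) x * y‖ := norm_pos_iff.2 h0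
  have hk := MB_key x y
  rw [norm_sub_rev y x] at hk
  have hp0 := HM_pd_nonneg x y
  have hp1 := pd_lt hx hy
  have h1 : 0 < 1 - pd x y := by linarith
  have h2 : (1 + pd x y) / (1 - pd x y) ≤ Real.exp R := by
    rw [← Real.log_le_iff_le_exp (by positivity)]
    exact h
  have hN : ‖x - y‖ = pd x y * ‖1 - (starRingEnd ℂ) x * y‖ := by
    unfold pd
    rw [div_mul_cancel₀ _ hD.ne']
  rw [← hk, hN]
  set D := ‖1 - (starRingEnd ℂ) x * y‖
  set k := pd x y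
  have h3 : k ^ 2 ≤ Real.exp R * (1 - k ^ 2) := by
    have h4 : (1 + k) / (1 - k) * (1 - k ^ 2) ≤ Real.exp R * (1 - k ^ 2) :=
      mul_le_mul_of_nonneg_right h2 (by nlinarith)
    have h5 : (1 + k) / (1 - k) * (1 - k ^ 2) = (1 + k) ^ 2 := by
      field_simp
      ring
    rw [h5] at h4
    nlinarith
  calc (k * D) ^ 2 = k ^ 2 * D ^ 2 := by ring
    _ ≤ Real.exp R * (1 - k ^ 2) * D ^ 2 := mul_le_mul_of_nonneg_right h3 (by positivity)
    _ = Real.exp R * (D ^ 2 - (k * D) ^ 2) := by ring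

/-- far from `0` means close to the circle -/
theorem hd_far {x : ℂ} (hx : ‖x‖ < 1) {D : ℝ} (h : D ≤ hd x 0) :
    1 - ‖x‖ ^ 2 ≤ 4 * Real.exp (-D) := by
  rw [hd_zero] at h
  have h1 : 0 < 1 - ‖x‖ := by linarith
  have h2 := norm_nonneg x
  have h3 : Real.exp D ≤ (1 + ‖x‖) / (1 - ‖x‖) := by
    rwa [← Real.le_log_iff_exp_le (by positivity)]
  rw [le_div_iff₀ h1] at h3
  have h4 : Real.exp (-D) * Real.exp D = 1 := by rw [← Real.exp_add]; simp
  have h5 := Real.exp_pos (-D)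
  have h6 : 1 - ‖x‖ ≤ Real.exp (-D) * (1 + ‖x‖) := by
    calc 1 - ‖x‖ = Real.exp (-D) * (Real.exp D * (1 - ‖x‖)) := by rw [← mul_assoc, h4, one_mul]
      _ ≤ Real.exp (-D) * (1 + ‖x‖) := mul_le_mul_of_nonneg_left h3 h5.le
  have h7 : (1 + ‖x‖) ^ 2 ≤ 4 := by nlinarith
  calc 1 - ‖x‖ ^ 2 = (1 - ‖x‖) * (1 + ‖x‖) := by ring
    _ ≤ Real.exp (-D) * (1 + ‖x‖) * (1 + ‖x‖) := mul_le_mul_of_nonneg_right h6 (by linarith)
    _ = (1 + ‖x‖) ^ 2 * Real.exp (-D) := by ring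
    _ ≤ 4 * Real.exp (-D) := mul_le_mul_of_nonneg_right h7 h5.le

theorem hd_schwarz {ψ : ℂ → ℂ} (hψ : DifferentiableOn ℂ ψ (ball 0 1))
    (m : MapsTo ψ (ball 0 1) (ball 0 1)) {x y : ℂ} (hx : x ∈ ball (0:ℂ) 1)
    (hy : y ∈ ball (0:ℂ) 1) : hd (ψ x) (ψ y) ≤ hd x y := by
  have hx' := mem_ball_zero_iff.1 hx
  have hy' := mem_ball_zero_iff.1 hy
  exact HM_mono (HM_pd_nonneg _ _) (schwarz_pick hψ m hx hy) (pd_lt hx' hy')

end CV

end S_H12_CV_HM

section S_H12_CV_MO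

/-!
MO (discrete Morse lemma in the disc).  `q : ℕ → ℂ` is a chain in the disc with `q 0 = 0`, `hd (q i) (q (i+1)) ≤ C`, `hd (q i) (q j) ≥ |i - j| - C` for `i, j ≤ n`; let `y = q n`.  Claim: every point `x = t y`, `t ∈ [0,1]`, of the radial segment is at `hd`-distance `≤ R` from some
`q i`, `i ≤ n`, with `R` depending only on `C`.
Proof.  We may assume `C ≥ 1`.  Let `ℓ = hd y 0`; parametrise the segment by `hd`-length: `γ(τ)`, `0 ≤ τ ≤ ℓ`, `hd (γ τ) (γ τ') = |τ - τ'|` (`hd_radial`).  Let `D = max_τ min_i hd (γ τ) (q i)` (compactness), attained at `x = γ τ₀`.  Let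
`τ₁ = max (τ₀ - 2D) 0`, `τ₂ = min (τ₀ + 2D) ℓ`, `y₁ = γ τ₁`, `y₂ = γ τ₂`; there are `a, b ≤ n` with `hd y₁ (q a) ≤ D`, `hd y₂ (q b) ≤ D`; if `τ₁ = 0` take `a = 0` (`y₁ = q 0`), if `τ₂ = ℓ` take `b = n` (`y₂ = q n`); then `hd y₁ (q a) = 0`.
`|a - b| ≤ hd (q a) (q b) + C ≤ 2D + 4D + C`.  All `q i` satisfy `hd x (q i) ≥ D`.
Move `x` to `0` by the Moebius map `m = mob 1 x` (an isometry for `hd`); put `w_i = m (q i)`, `hd w_i 0 ≥ D`, so `1 - ‖w_i‖² ≤ 4 e^(-D)` (`hd_far`), and `‖w_i - w_(i+1)‖² ≤ e^C 16 e^(-2D)` (`hd_close`), `‖w_i - w_(i+1)‖ ≤ 4 e^(C/2) e^(-D)`.  So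
`‖w_a - w_b‖ ≤ (6D + C) 4 e^(C/2) e^(-D)`.  Ends: if `τ₁ = τ₀ - 2D > 0` then `hd y₁ x = 2D`, `hd y₁ (q a) ≤ D`; the Euclidean distance of `m y₁` and `w_a`: along the segment from `y₁` to `q a` (radial after moving) all points are at distance `≥ D` from `x`; use instead one step:
choose intermediate points `y₁ = z_0, z_1, .., z_k = q a` with steps `≤ 1`, `k ≤ D + 1`, on the geodesic from `y₁` to `q a` (i.e. the image of a radial segment under a Moebius map), `hd x z_j ≥ 2D - D = D`; so `‖m y₁ - w_a‖ ≤ (D + 1) 4 e^(1/2) e^(-D)`.  Same for `y₂`.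
On the other hand `m y₁` and `m y₂` are on the diameter through `0 = m x`, on opposite sides of `0`, (m maps the diameter through `x` to itself: `x = t y` and `m` has real coefficients in the coordinate `z conj(y)/‖y‖`), each at `hd`-distance `≥ D` from `0` (if `τ₁ = 0`: `hd x (q 0) ≥ D`), so if `D ≥ 2`,
`‖m y_i‖ ≥ (e^D - 1)/(e^D + 1) ≥ 1/2` and `‖m y₁ - m y₂‖ ≥ 1`.  Hence `1 ≤ (6D + C + 2D + 2) 4 e^(C/2 + 1) e^(-D)`, which bounds `D` (`D e^(-D) ≤ 2 e^(-D/2)`).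
-/

namespace CV

open Metric Set Filter Topology DS TN

/-- the radius at distance `τ` from `0` -/
noncomputable def MO_G (τ : ℝ) : ℝ := (Real.exp τ - 1) / (Real.exp τ + 1)

theorem MO_one_sub (τ : ℝ) : 1 - MO_G τ = 2 / (Real.exp τ + 1) := by
  have h := Real.exp_pos τ
  rw [MO_G]; field_simp; ring

theorem MO_one_add (τ : ℝ) : 1 + MO_G τ = 2 * Real.exp τ / (Real.exp τ + 1) := by
  have h := Real.exp_pos τ
  rw [MO_G]; field_simp; ring

theorem MO_lt (τ : ℝ) : MO_G τ < 1 := by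
  have h := MO_one_sub τ
  have h1 : 0 < 2 / (Real.exp τ + 1) := by positivity
  linarith

theorem MO_nonneg {τ : ℝ} (h : 0 ≤ τ) : 0 ≤ MO_G τ := by
  rw [MO_G]
  have := Real.one_le_exp h
  exact div_nonneg (by linarith) (by positivity)

theorem MO_mono {τ τ' : ℝ} (h : τ ≤ τ') : MO_G τ ≤ MO_G τ' := by
  have h1 := MO_one_sub τ
  have h2 := MO_one_sub τ'
  have h3 : 2 / (Real.exp τ' + 1) ≤ 2 / (Real.exp τ + 1) := by
    have := Real.exp_le_exp.2 h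
    exact div_le_div_of_nonneg_left (by norm_num) (by positivity) (by linarith)
  linarith

theorem MO_FG (τ : ℝ) : Real.log ((1 + MO_G τ) / (1 - MO_G τ)) = τ := by
  rw [MO_one_add, MO_one_sub]
  have h0 := Real.exp_pos τ
  have : 2 * Real.exp τ / (Real.exp τ + 1) / (2 / (Real.exp τ + 1)) = Real.exp τ := by
    field_simp
  rw [this, Real.log_exp]

theorem MO_GF {u : ℝ} (h0 : 0 ≤ u) (h1 : u < 1) : MO_G (Real.log ((1 + u) / (1 - u))) = u := by
  have h2 : 0 < 1 - u := by linarith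
  have h3 : 0 < (1 + u) / (1 - u) := by positivity
  rw [MO_G, Real.exp_log h3]
  have h4 : (1 + u) / (1 - u) - 1 = 2 * u / (1 - u) := by field_simp; ring
  have h5 : (1 + u) / (1 - u) + 1 = 2 / (1 - u) := by field_simp; ring
  rw [h4, h5]
  field_simp

theorem MO_hd {ζ : ℂ} (hζ : ‖ζ‖ = 1) {τ τ' : ℝ} (h0 : 0 ≤ τ) (h : τ ≤ τ') :
    hd (MO_G τ * ζ) (MO_G τ' * ζ) = τ' - τ := by
  rw [hd_radial hζ (MO_nonneg h0) (MO_mono h) (MO_lt _), MO_FG, MO_FG]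

theorem MO_mob {ζ : ℂ} (hζ : ‖ζ‖ = 1) (r s : ℝ) :
    mob 1 (r * ζ) (s * ζ) = ((s - r) / (1 - r * s) : ℝ) * ζ := by
  have h1 : (starRingEnd ℂ) ζ * ζ = 1 := by rw [Complex.conj_mul', hζ]; simp
  have h2 : (starRingEnd ℂ) (r * ζ) * (s * ζ) = r * s := by
    rw [map_mul, Complex.conj_ofReal]
    linear_combination (r * s : ℂ) * h1
  rw [mob, h2]
  push_cast
  ring

theorem MO_to0 {x w : ℂ} (hx : ‖x‖ < 1) (hw : ‖w‖ < 1) : hd (mob 1 x w) 0 = hd w x := by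
  have h := hd_mob (u := 1) norm_one hx hw hx
  have hx0 : mob 1 x x = 0 := by simp [mob]
  rwa [hx0] at h

theorem MO_close {x w w' : ℂ} (hx : ‖x‖ < 1) (hw : ‖w‖ < 1) (hw' : ‖w'‖ < 1) {K d d' f : ℝ}
    (h : hd w w' ≤ K) (h1 : d ≤ hd w x) (h2 : d' ≤ hd w' x) (h3 : K - d - d' ≤ 2 * f) :
    ‖mob 1 x w - mob 1 x w'‖ ≤ 4 * Real.exp f := by
  have hu : ‖(1:ℂ)‖ = 1 := norm_one
  have m1 := mob_ball hu hx hw
  have m2 := mob_ball hu hx hw'
  have b1 := hd_far m1 (D := d) (by rw [MO_to0 hx hw]; exact h1)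
  have b2 := hd_far m2 (D := d') (by rw [MO_to0 hx hw']; exact h2)
  have c1 := hd_close m1 m2 (R := K) (by rw [hd_mob hu hx hw hw']; exact h)
  have e1 : 0 ≤ 1 - ‖mob 1 x w'‖ ^ 2 := by nlinarith [norm_nonneg (mob 1 x w')]
  have e2 : ‖mob 1 x w - mob 1 x w'‖ ^ 2 ≤ (4 * Real.exp f) ^ 2 := by
    calc ‖mob 1 x w - mob 1 x w'‖ ^ 2
        ≤ Real.exp K * ((1 - ‖mob 1 x w‖ ^ 2) * (1 - ‖mob 1 x w'‖ ^ 2)) := c1
      _ ≤ Real.exp K * ((4 * Real.exp (-d)) * (4 * Real.exp (-d'))) :=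
          mul_le_mul_of_nonneg_left (mul_le_mul b1 b2 e1 (by positivity)) (Real.exp_pos _).le
      _ = 16 * Real.exp (K - d - d') := by
          rw [sub_eq_add_neg, sub_eq_add_neg, Real.exp_add, Real.exp_add]; ring
      _ ≤ 16 * Real.exp (2 * f) := by
          have := Real.exp_le_exp.2 h3
          linarith
      _ = (4 * Real.exp f) ^ 2 := by
          rw [two_mul, Real.exp_add]; ring
  exact (pow_le_pow_iff_left₀ (norm_nonneg _) (by positivity) two_ne_zero).1 e2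

theorem MO_chain {w : ℕ → ℂ} {s : ℝ} {a b : ℕ} (hab : a ≤ b)
    (h : ∀ i, a ≤ i → i < b → ‖w i - w (i + 1)‖ ≤ s) : ‖w a - w b‖ ≤ ((b : ℝ) - a) * s := by
  induction b, hab using Nat.le_induction with
  | base => simp
  | succ b hb ih =>
    have h1 := ih fun i h2 h3 => h i h2 (by omega)
    have h4 := h b hb (by omega)
    have h5 : w a - w (b + 1) = (w a - w b) + (w b - w (b + 1)) := by ring
    rw [h5]
    refine (norm_add_le _ _).trans ?_
    push_cast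
    linarith

/-- the estimate at a nearly farthest point -/
theorem MO_main {C : ℝ} {n : ℕ} {q : ℕ → ℂ} (hq : ∀ i ≤ n, ‖q i‖ < 1)
    (hC : ∀ i < n, hd (q i) (q (i + 1)) ≤ C)
    (hqq : ∀ i ≤ n, ∀ j ≤ n, i ≤ j → (j - i : ℝ) - C ≤ hd (q i) (q j)) {ζ : ℂ} (hζ : ‖ζ‖ = 1)
    {ℓ : ℝ} (hγ0 : (MO_G 0 * ζ : ℂ) = q 0) (hγℓ : (MO_G ℓ * ζ : ℂ) = q n) {d τ₀ : ℝ}
    (hτ₀ : τ₀ ∈ Icc (0:ℝ) ℓ) (hfar : ∀ i ≤ n, d ≤ hd (MO_G τ₀ * ζ) (q i))
    (hnear : ∀ τ ∈ Icc (0:ℝ) ℓ, ∃ i ≤ n, hd (MO_G τ * ζ) (q i) ≤ d + 1)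
    (hbig : 16 + 8 * Real.exp (C / 2) * (12 + |C|) < d) : False := by
  obtain ⟨A, hA⟩ : ∃ A, A = Real.exp (C / 2) := ⟨_, rfl⟩
  have hA0 : 0 < A := by rw [hA]; exact Real.exp_pos _
  rw [← hA] at hbig
  have hd16 : 16 < d := by
    have : 0 ≤ 8 * A * (12 + |C|) := by positivity
    linarith
  have hexp : 1 + d + d ^ 2 / 2 ≤ Real.exp d := Real.quadratic_le_exp_of_nonneg (by linarith)
  have hγn : ∀ τ : ℝ, 0 ≤ τ → ‖(MO_G τ * ζ : ℂ)‖ < 1 := by
    intro τ hτ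
    rw [norm_mul, hζ, mul_one, Complex.norm_real, Real.norm_eq_abs, abs_of_nonneg (MO_nonneg hτ)]
    exact MO_lt τ
  have hx := hγn _ hτ₀.1
  have hL : ∃ a ≤ n, ∃ τ₁ : ℝ, 0 ≤ τ₁ ∧ τ₁ ≤ τ₀ ∧ d ≤ τ₀ - τ₁ ∧ τ₀ - τ₁ ≤ 2 * (d + 1) ∧
      hd (MO_G τ₁ * ζ) (q a) ≤ d + 1 ∧
      ‖mob 1 (MO_G τ₀ * ζ) (MO_G τ₁ * ζ) - mob 1 (MO_G τ₀ * ζ) (q a)‖ ≤ 4 * Real.exp (-d) := by
    rcases le_total (2 * (d + 1)) τ₀ with h | h
    · have hτ₁ : τ₀ - 2 * (d + 1) ∈ Icc (0:ℝ) ℓ := ⟨by linarith, by linarith [hτ₀.2]⟩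
      obtain ⟨a, ha, h4⟩ := hnear _ hτ₁
      refine ⟨a, ha, τ₀ - 2 * (d + 1), hτ₁.1, by linarith, by linarith, by linarith, h4, ?_⟩
      have e1 : hd (MO_G (τ₀ - 2 * (d + 1)) * ζ) (MO_G τ₀ * ζ) = 2 * (d + 1) := by
        rw [MO_hd hζ hτ₁.1 (by linarith)]; ring
      have e2 := hd_tri (hγn _ hτ₁.1) (hq a ha) hx
      exact MO_close hx (hγn _ hτ₁.1) (hq a ha) h4 (d := 2 * (d + 1)) (d' := d + 1) e1.ge
        (by linarith) (by linarith)
    · have e3 := hfar 0 (Nat.zero_le _)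
      rw [hd_symm, ← hγ0, MO_hd hζ le_rfl hτ₀.1] at e3
      refine ⟨0, Nat.zero_le _, 0, le_rfl, hτ₀.1, e3, by linarith, ?_, ?_⟩
      · rw [← hγ0, hd_self]; linarith
      · rw [← hγ0, sub_self, norm_zero]; positivity
  have hR : ∃ b ≤ n, ∃ τ₂ : ℝ, τ₀ ≤ τ₂ ∧ d ≤ τ₂ - τ₀ ∧ τ₂ - τ₀ ≤ 2 * (d + 1) ∧
      hd (MO_G τ₂ * ζ) (q b) ≤ d + 1 ∧
      ‖mob 1 (MO_G τ₀ * ζ) (MO_G τ₂ * ζ) - mob 1 (MO_G τ₀ * ζ) (q b)‖ ≤ 4 * Real.exp (-d) := by
    rcases le_total (τ₀ + 2 * (d + 1)) ℓ with h | h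
    · have hτ₂ : τ₀ + 2 * (d + 1) ∈ Icc (0:ℝ) ℓ := ⟨by linarith [hτ₀.1], h⟩
      obtain ⟨b, hb, h4⟩ := hnear _ hτ₂
      refine ⟨b, hb, τ₀ + 2 * (d + 1), by linarith, by linarith, by linarith, h4, ?_⟩
      have e1 : hd (MO_G (τ₀ + 2 * (d + 1)) * ζ) (MO_G τ₀ * ζ) = 2 * (d + 1) := by
        rw [hd_symm, MO_hd hζ hτ₀.1 (by linarith)]; ring
      have e2 := hd_tri (hγn _ hτ₂.1) (hq b hb) hx
      exact MO_close hx (hγn _ hτ₂.1) (hq b hb) h4 (d := 2 * (d + 1)) (d' := d + 1) e1.ge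
        (by linarith) (by linarith)
    · have e3 := hfar n le_rfl
      rw [← hγℓ, MO_hd hζ hτ₀.1 hτ₀.2] at e3
      refine ⟨n, le_rfl, ℓ, hτ₀.2, e3, by linarith, ?_, ?_⟩
      · rw [← hγℓ, hd_self]; linarith
      · rw [← hγℓ, sub_self, norm_zero]; positivity
  obtain ⟨a, ha, τ₁, h10, h1a, h1b, h1c, h1d, h1e⟩ := hL
  obtain ⟨b, hb, τ₂, h2a, h2b, h2c, h2d, h2e⟩ := hR
  have h20 : 0 ≤ τ₂ := hτ₀.1.trans h2a
  -- the number of steps
  have hab : hd (q a) (q b) ≤ 6 * (d + 1) := by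
    have t1 := hd_tri (hq a ha) (hγn _ h10) (hq b hb)
    have t2 := hd_tri (hγn _ h10) (hγn _ h20) (hq b hb)
    have t3 := MO_hd hζ h10 (h1a.trans h2a)
    have t4 := hd_symm (q a) (MO_G τ₁ * ζ)
    linarith
  have hstep : ∀ i < n, ‖mob 1 (MO_G τ₀ * ζ) (q i) - mob 1 (MO_G τ₀ * ζ) (q (i + 1))‖ ≤
      4 * Real.exp (C / 2 - d) := by
    intro i hi
    refine MO_close hx (hq i hi.le) (hq (i + 1) hi) (hC i hi) (d := d) (d' := d) ?_ ?_ (by linarith)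
    · rw [hd_symm]; exact hfar i hi.le
    · rw [hd_symm]; exact hfar (i + 1) hi
  have hs : 4 * Real.exp (C / 2 - d) = 4 * A * Real.exp (-d) := by
    rw [sub_eq_add_neg, Real.exp_add, hA]; ring
  have hE : 0 < Real.exp (-d) := Real.exp_pos _
  have hmid : ‖mob 1 (MO_G τ₀ * ζ) (q a) - mob 1 (MO_G τ₀ * ζ) (q b)‖ ≤
      (6 * (d + 1) + |C|) * (4 * A * Real.exp (-d)) := by
    rw [← hs]
    have hs0 : 0 ≤ 4 * Real.exp (C / 2 - d) := by positivity
    have hCa := le_abs_self C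
    rcases le_total a b with h | h
    · have h6 := MO_chain (w := fun i => mob 1 (MO_G τ₀ * ζ) (q i)) h
        fun i _ h8 => hstep i (h8.trans_le hb)
      have h7 := hqq a ha b hb h
      refine h6.trans (mul_le_mul_of_nonneg_right ?_ hs0)
      linarith
    · have h6 := MO_chain (w := fun i => mob 1 (MO_G τ₀ * ζ) (q i)) h
        fun i _ h8 => hstep i (h8.trans_le ha)
      have h7 := hqq b hb a ha h
      rw [hd_symm] at h7
      rw [norm_sub_rev]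
      refine h6.trans (mul_le_mul_of_nonneg_right ?_ hs0)
      linarith
  -- the norms of the end points
  have hsmall : 4 * Real.exp (-d) ≤ 3 / 4 := by
    rw [Real.exp_neg]
    have h8 : 16 / 3 ≤ Real.exp d := by nlinarith
    have h9 : (Real.exp d)⁻¹ ≤ (16 / 3)⁻¹ := inv_anti₀ (by norm_num) h8
    linarith
  have hhalf : ∀ w : ℂ, ‖w‖ < 1 → d ≤ hd w (MO_G τ₀ * ζ) →
      1 / 2 ≤ ‖mob 1 (MO_G τ₀ * ζ) w‖ := by
    intro w hw h8
    have h9 := hd_far (mob_ball norm_one hx hw) (D := d) (by rw [MO_to0 hx hw]; exact h8)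
    by_contra hc
    push Not at hc
    nlinarith [norm_nonneg (mob 1 (MO_G τ₀ * ζ) w)]
  have n1 := hhalf _ (hγn _ h10) (by rw [MO_hd hζ h10 h1a]; exact h1b)
  have n2 := hhalf _ (hγn _ h20) (by rw [hd_symm, MO_hd hζ hτ₀.1 h2a]; exact h2b)
  have hden : ∀ τ : ℝ, 0 ≤ τ → 0 < 1 - MO_G τ₀ * MO_G τ := by
    intro τ hτ
    have p1 := MO_lt τ₀
    have p2 := MO_lt τ
    have p3 := MO_nonneg hτ
    have p4 := MO_nonneg hτ₀.1
    nlinarith
  have hone : 1 ≤ ‖mob 1 (MO_G τ₀ * ζ) (MO_G τ₁ * ζ) - mob 1 (MO_G τ₀ * ζ) (MO_G τ₂ * ζ)‖ := by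
    rw [MO_mob hζ, norm_mul, hζ, mul_one, Complex.norm_real, Real.norm_eq_abs] at n1 n2
    rw [MO_mob hζ, MO_mob hζ, ← sub_mul, norm_mul, hζ, mul_one, ← Complex.ofReal_sub,
      Complex.norm_real, Real.norm_eq_abs]
    have q1 : (MO_G τ₁ - MO_G τ₀) / (1 - MO_G τ₀ * MO_G τ₁) ≤ 0 :=
      div_nonpos_of_nonpos_of_nonneg (by linarith [MO_mono h1a]) (hden _ h10).le
    have q2 : 0 ≤ (MO_G τ₂ - MO_G τ₀) / (1 - MO_G τ₀ * MO_G τ₂) :=
      div_nonneg (by linarith [MO_mono h2a]) (hden _ h20).le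
    rw [abs_of_nonpos q1] at n1
    rw [abs_of_nonneg q2] at n2
    rw [abs_sub_comm]
    refine le_trans ?_ (le_abs_self _)
    linarith
  have hsum : ‖mob 1 (MO_G τ₀ * ζ) (MO_G τ₁ * ζ) - mob 1 (MO_G τ₀ * ζ) (MO_G τ₂ * ζ)‖ ≤
      4 * Real.exp (-d) + (6 * (d + 1) + |C|) * (4 * A * Real.exp (-d)) + 4 * Real.exp (-d) := by
    have h8 : mob 1 (MO_G τ₀ * ζ) (MO_G τ₁ * ζ) - mob 1 (MO_G τ₀ * ζ) (MO_G τ₂ * ζ) =
        (mob 1 (MO_G τ₀ * ζ) (MO_G τ₁ * ζ) - mob 1 (MO_G τ₀ * ζ) (q a)) +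
        (mob 1 (MO_G τ₀ * ζ) (q a) - mob 1 (MO_G τ₀ * ζ) (q b)) +
        (mob 1 (MO_G τ₀ * ζ) (q b) - mob 1 (MO_G τ₀ * ζ) (MO_G τ₂ * ζ)) := by ring
    rw [h8]
    refine (norm_add_le _ _).trans (add_le_add ((norm_add_le _ _).trans (add_le_add h1e hmid)) ?_)
    rw [norm_sub_rev]
    exact h2e
  have hfin : 1 ≤ (8 + 4 * A * (6 * (d + 1) + |C|)) * Real.exp (-d) := by
    have := hone.trans hsum
    linarith
  have hfin2 : Real.exp d ≤ 8 + 4 * A * (6 * (d + 1) + |C|) := by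
    have h9 : Real.exp d * Real.exp (-d) = 1 := by rw [← Real.exp_add]; simp
    have h10 := mul_le_mul_of_nonneg_left hfin (Real.exp_pos d).le
    have h11 : Real.exp d * ((8 + 4 * A * (6 * (d + 1) + |C|)) * Real.exp (-d)) =
        (8 + 4 * A * (6 * (d + 1) + |C|)) * (Real.exp d * Real.exp (-d)) := by ring
    rw [h11, h9] at h10
    linarith
  have hCn := abs_nonneg C
  have f1 : d ^ 2 ≤ 16 + 8 * A * (6 * (d + 1) + |C|) := by nlinarith
  have f2 : 8 * A * (6 * (d + 1) + |C|) ≤ 8 * A * ((12 + |C|) * d) := by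
    apply mul_le_mul_of_nonneg_left _ (by positivity)
    nlinarith
  have f3 : d ^ 2 ≤ (16 + 8 * A * (12 + |C|)) * d := by nlinarith
  have f4 : (16 + 8 * A * (12 + |C|)) * d < d * d := mul_lt_mul_of_pos_right hbig (by linarith)
  nlinarith

theorem morse (C : ℝ) : ∃ R : ℝ, ∀ (n : ℕ) (q : ℕ → ℂ), q 0 = 0 → (∀ i ≤ n, ‖q i‖ < 1) →
    (∀ i < n, hd (q i) (q (i + 1)) ≤ C) →
    (∀ i ≤ n, ∀ j ≤ n, i ≤ j → (j - i : ℝ) - C ≤ hd (q i) (q j)) →
    ∀ t : ℝ, 0 ≤ t → t ≤ 1 → ∃ i ≤ n, hd (t * q n) (q i) ≤ R := by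
  obtain ⟨R, hRd⟩ : ∃ R, R = 16 + 8 * Real.exp (C / 2) * (12 + |C|) := ⟨_, rfl⟩
  refine ⟨R + 3, fun n q hq0 hq hC hqq t ht0 ht1 => ?_⟩
  obtain ⟨ζ, hζ, hy⟩ : ∃ ζ : ℂ, ‖ζ‖ = 1 ∧ (‖q n‖ * ζ : ℂ) = q n := by
    by_cases h : q n = 0
    · exact ⟨1, norm_one, by rw [h]; simp⟩
    · have h1 : ‖q n‖ ≠ 0 := norm_ne_zero_iff.2 h
      refine ⟨q n / ‖q n‖, ?_, ?_⟩
      · rw [norm_div, Complex.norm_real, norm_norm, div_self h1]
      · rw [mul_div_cancel₀]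
        exact_mod_cast h1
  have hy1 := hq n le_rfl
  have hn0 := norm_nonneg (q n)
  obtain ⟨ℓ, hℓ⟩ : ∃ ℓ, ℓ = Real.log ((1 + ‖q n‖) / (1 - ‖q n‖)) := ⟨_, rfl⟩
  have hℓG : MO_G ℓ = ‖q n‖ := by rw [hℓ]; exact MO_GF hn0 hy1
  have hγℓ : (MO_G ℓ * ζ : ℂ) = q n := by rw [hℓG]; exact hy
  have hγ0 : (MO_G 0 * ζ : ℂ) = q 0 := by rw [hq0, MO_G]; simp
  have key : ∀ τ ∈ Icc (0:ℝ) ℓ, ∃ i ≤ n, hd (MO_G τ * ζ) (q i) ≤ R + 3 := by
    by_contra hcon
    push Not at hcon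
    obtain ⟨τ', hτ', hbig⟩ := hcon
    have hS : R + 3 ∈ {d : ℝ | ∃ τ ∈ Icc (0:ℝ) ℓ, ∀ i ≤ n, d ≤ hd (MO_G τ * ζ) (q i)} :=
      ⟨τ', hτ', fun i hi => (hbig i hi).le⟩
    obtain ⟨S, hSd⟩ : ∃ S : Set ℝ, S = {d : ℝ | ∃ τ ∈ Icc (0:ℝ) ℓ, ∀ i ≤ n,
      d ≤ hd (MO_G τ * ζ) (q i)} := ⟨_, rfl⟩
    rw [← hSd] at hS
    have hSb : BddAbove S := by
      refine ⟨ℓ, ?_⟩
      rw [hSd]
      rintro d ⟨τ, hτ, h⟩
      have h2 := h 0 (Nat.zero_le _)
      rw [hd_symm, ← hγ0, MO_hd hζ le_rfl hτ.1] at h2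
      linarith [hτ.2]
    obtain ⟨d, hdS, hd1⟩ := exists_lt_of_lt_csSup ⟨_, hS⟩
      (show max (sSup S - 1) (R + 2) < sSup S from
        max_lt (by linarith) (lt_of_lt_of_le (by linarith) (le_csSup hSb hS)))
    have hd2 : R + 2 < d := (le_max_right _ _).trans_lt hd1
    have hd3 : sSup S - 1 < d := (le_max_left _ _).trans_lt hd1
    rw [hSd] at hdS
    obtain ⟨τ₀, hτ₀, hfar⟩ := hdS
    refine MO_main hq hC hqq hζ hγ0 hγℓ hτ₀ hfar ?_ (by rw [← hRd]; linarith)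
    intro τ hτ
    by_contra hc
    push Not at hc
    have h5 : d + 1 ∈ S := by
      rw [hSd]
      exact ⟨τ, hτ, fun i hi => (hc i hi).le⟩
    have := le_csSup hSb h5
    linarith
  have hu0 : 0 ≤ t * ‖q n‖ := by positivity
  have hu1 : t * ‖q n‖ ≤ ‖q n‖ := mul_le_of_le_one_left hn0 ht1
  have hu2 : t * ‖q n‖ < 1 := hu1.trans_lt hy1
  obtain ⟨i, hi, h6⟩ := key (Real.log ((1 + t * ‖q n‖) / (1 - t * ‖q n‖))) ⟨by
      apply Real.log_nonneg
      rw [le_div_iff₀ (by linarith)]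
      linarith, by
      rw [hℓ]
      apply Real.log_le_log
      · have : 0 < 1 - t * ‖q n‖ := by linarith
        positivity
      · exact div_le_div₀ (by linarith) (by linarith) (by linarith) (by linarith)⟩
  rw [MO_GF hu0 hu2] at h6
  refine ⟨i, hi, ?_⟩
  have h7 : (t * q n : ℂ) = ((t * ‖q n‖ : ℝ) : ℂ) * ζ := by
    rw [← hy, norm_mul, hζ]
    push_cast
    simp
    ring
  rw [h7]
  exact h6

end CV

end S_H12_CV_MO

section S_H12_CV_PA1

/-!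
PA (no parabolic elements, flat case).  `bet P w = P (w - i)/(w + i)` maps the upper half plane onto the disc, `∞ ↦ P`, inverse `w = -2 i P/(z - P) - i`.
`para_half`: `C = conj b`: `mob u b z - P = (z - P)(1 - conj b P)/(1 - conj b z)`, so `1/(mob u b z - P) = 1/(z - P) - conj b/(1 - conj b P)` and in the coordinate `w` the map is `w ↦ w + t`,
`t = 2 i P conj b/(1 - conj b P)`; `t` is real because the upper half plane is mapped to itself both by the map and its inverse (`Im (w + t) > 0` for all `Im w > 0`, and the same for `-t`), `t ≠ 0`.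
`commute_half`: `mob u' b'` commutes on the disc with `mob u b`.  By continuity it commutes on the closed disc, so it maps the only fixed point `P` of `mob u b` on the closed disc to itself.  By `mob_sub`
`mob u' b' z - P = u' (1-|b'|²)(z - P)/((1 - conj b' z)(1 - conj b' P))`, so `1/(mob u' b' z - P)` is an affine function of `1/(z - P)`, and the map is `w ↦ a w + s` in the coordinate `w`; commuting with `w + t`, `t ≠ 0`, gives `a = 1`; `s` is real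
as above.
`area_mult`: `Γ` is countable (for each `n` the set `{g | ‖l g‖ ≤ n}` is finite).  `volume B ≤ ∑ g, volume (B ∩ (C + l g)) = ∑ g, volume ((B - l g) ∩ C) = ∫⁻ x in C, ∑ g, indicator B (x + l g) ≤ m * volume C` (translation invariance, `lintegral_tsum`).
`length_area`: for `1 ≤ y`: `l = Ψ (t + i y) - Ψ (i y) = ∫ x in 0..t, deriv Ψ (x + i y)`, so `‖l‖² ≤ |t| ∫ ‖deriv Ψ‖²` (Cauchy-Schwarz); integrate over `1 ≤ y ≤ Y`; the double integral of `‖deriv Ψ‖²` over the rectangle is the area of the image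
(`MeasureTheory.lintegral_abs_det_fderiv_eq_addHaar_image`, the real determinant of a complex derivative is `‖deriv Ψ‖²`).  (See H36/DS/LA for the same technique.)
`no_para'`: `X = univ`, `A g x = x + l g`.  `N` is commutative (`A (g h) = A (h g)`, `free`).  `T = mob u b` is `w ↦ w + t`; each `d ∈ N` acts on the disc by `v ∘ A d ∘ ψ`, an automorphism `mob u' b'` (`auto_mob`) commuting with `T`, so it is `w ↦ w + s d`
(`commute_half`).  `{d | |s d| ≤ R}` is finite: `A d (ψ (bet P i)) = ψ (bet P (i + s d))` is in a compact set (`D.proper`).  `Ψ = ψ ∘ bet P` is injective holomorphic on the upper half plane with values in `fil X U`,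
`Ψ (w + t) = Ψ w + l c`.  For `Q = [0,|t|] × [1, Y]` each point `x` has at most `m = #{d | |s d| ≤ |t|}` translates in `Ψ '' Q`: if `x + l g, x + l g'` are in `Ψ '' Q ⊆ fil X U` then `g' g⁻¹ ∈ N` (`fil_same`) and
`|s (g' g⁻¹)| ≤ |t|`; so `volume (Ψ '' Q) ≤ m volume C` (`area_mult`, `C` from `Deck.coc`), for all `Y`, while `‖l c‖² (Y - 1) ≤ |t| volume (Ψ '' Q)`, `l c ≠ 0`: contradiction for large `Y`.  (If `t < 0` exchange `c` and `c⁻¹`, or use `[t, 0]`.)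
(This file: `bet_props`, `para_half`, `commute_half`.)
-/

namespace CV

open Metric Set Filter Topology Function DS TN MeasureTheory

/-- the half plane coordinate -/
noncomputable def bet (P w : ℂ) : ℂ := P * (w - Complex.I) / (w + Complex.I)

theorem PA1_ne {w : ℂ} (hw : 0 < w.im) : w + Complex.I ≠ 0 := by
  intro h
  have h1 := congrArg Complex.im h
  simp only [Complex.add_im, Complex.I_im, Complex.zero_im] at h1
  linarith

theorem PA1_norm {P w : ℂ} (hP : ‖P‖ = 1) (hw : w + Complex.I ≠ 0) :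
    1 - ‖bet P w‖ ^ 2 = 4 * w.im / ‖w + Complex.I‖ ^ 2 := by
  have h0 : ‖w + Complex.I‖ ≠ 0 := norm_ne_zero_iff.2 hw
  have h1 : ‖w + Complex.I‖ ^ 2 - ‖w - Complex.I‖ ^ 2 = 4 * w.im := by
    simp only [Complex.sq_norm, Complex.normSq_apply, Complex.add_re, Complex.add_im,
      Complex.sub_re, Complex.sub_im, Complex.I_re, Complex.I_im]
    ring
  rw [bet, norm_div, norm_mul, hP, one_mul, ← h1, div_pow, sub_div, div_self (pow_ne_zero 2 h0)]

theorem PA1_lt {P w : ℂ} (hP : ‖P‖ = 1) (hw : 0 < w.im) : ‖bet P w‖ < 1 := by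
  have h1 := PA1_norm hP (PA1_ne hw)
  have h2 : 0 < 4 * w.im / ‖w + Complex.I‖ ^ 2 := by
    have : 0 < ‖w + Complex.I‖ := norm_pos_iff.2 (PA1_ne hw)
    positivity
  have h3 : ‖bet P w‖ ^ 2 < 1 := by linarith
  nlinarith [norm_nonneg (bet P w)]

theorem PA1_inj {P : ℂ} (hP : ‖P‖ = 1) : InjOn (bet P) {w | 0 < w.im} := by
  intro w hw w' hw' h
  have h1 := PA1_ne hw
  have h2 := PA1_ne hw'
  have hP0 : P ≠ 0 := MB_u_ne hP
  rw [bet, bet, div_eq_div_iff h1 h2] at h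
  have h3 : (2 * P * Complex.I) * (w - w') = 0 := by linear_combination h
  have h4 : 2 * P * Complex.I ≠ 0 := mul_ne_zero (mul_ne_zero two_ne_zero hP0) Complex.I_ne_zero
  exact sub_eq_zero.1 ((mul_eq_zero.1 h3).resolve_left h4)

theorem bet_props {P : ℂ} (hP : ‖P‖ = 1) : DifferentiableOn ℂ (bet P) {w | 0 < w.im} ∧
    InjOn (bet P) {w | 0 < w.im} ∧ bet P '' {w | 0 < w.im} = ball 0 1 ∧ bet P Complex.I = 0 := by
  have hP0 : P ≠ 0 := MB_u_ne hP
  refine ⟨?_, PA1_inj hP, ?_, ?_⟩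
  · intro w hw
    apply DifferentiableAt.differentiableWithinAt
    unfold bet
    exact ((differentiableAt_id.sub_const _).const_mul P).div (differentiableAt_id.add_const _)
      (PA1_ne hw)
  · ext z
    constructor
    · rintro ⟨w, hw, rfl⟩
      rw [mem_ball_zero_iff]
      exact PA1_lt hP hw
    · intro hz
      rw [mem_ball_zero_iff] at hz
      have hzP : z - P ≠ 0 := by
        intro h
        rw [sub_eq_zero.1 h, hP] at hz
        exact lt_irrefl _ hz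
      have hi : -2 * Complex.I * P / (z - P) ≠ 0 :=
        div_ne_zero (mul_ne_zero (mul_ne_zero (by norm_num) Complex.I_ne_zero) hP0) hzP
      set w : ℂ := -2 * Complex.I * P / (z - P) - Complex.I with hw
      have hwi : w + Complex.I = -2 * Complex.I * P / (z - P) := by rw [hw]; ring
      have hwi0 : w + Complex.I ≠ 0 := by rw [hwi]; exact hi
      have hb : bet P w = z := by
        rw [bet, div_eq_iff hwi0]
        have h1 : (w + Complex.I) * (z - P) = -2 * Complex.I * P := by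
          rw [hwi, div_mul_cancel₀ _ hzP]
        linear_combination -h1
      refine ⟨w, ?_, hb⟩
      have h1 := PA1_norm hP hwi0
      rw [hb] at h1
      have h2 : 0 < 1 - ‖z‖ ^ 2 := by nlinarith [norm_nonneg z]
      rw [h1] at h2
      by_contra h3
      have h4 : w.im ≤ 0 := not_lt.1 h3
      have h5 : 4 * w.im / ‖w + Complex.I‖ ^ 2 ≤ 0 :=
        div_nonpos_of_nonpos_of_nonneg (by linarith) (by positivity)
      linarith
  · rw [bet, sub_self, mul_zero, zero_div]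

/-- a Moebius map of the disc fixing the boundary point `P`, in the half plane coordinate -/
theorem PA1_aff {u b P : ℂ} (hb : ‖b‖ < 1) (hP : ‖P‖ = 1)
    (hfix : u * (P - b) = P * (1 - (starRingEnd ℂ) b * P)) :
    ∀ w : ℂ, 0 < w.im → mob u b (bet P w) =
      bet P (((‖1 - (starRingEnd ℂ) b * P‖ ^ 2 / (1 - ‖b‖ ^ 2) : ℝ) : ℂ) * w +
        ((-2 * ((starRingEnd ℂ) b * P).im / (1 - ‖b‖ ^ 2) : ℝ) : ℂ)) := by
  intro w hw
  have hP0 : P ≠ 0 := MB_u_ne hP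
  have hPP := MB_uu hP
  have hD : 0 < 1 - ‖b‖ ^ 2 := by nlinarith [norm_nonneg b]
  have hDc : ((1 - ‖b‖ ^ 2 : ℝ) : ℂ) = 1 - (starRingEnd ℂ) b * b := by
    rw [Complex.conj_mul']
    push_cast
    rfl
  have hDc0 : ((1 - ‖b‖ ^ 2 : ℝ) : ℂ) ≠ 0 := by
    rw [Ne, Complex.ofReal_eq_zero]
    exact hD.ne'
  set A : ℝ := ‖1 - (starRingEnd ℂ) b * P‖ ^ 2 / (1 - ‖b‖ ^ 2) with hA
  set B : ℝ := -2 * ((starRingEnd ℂ) b * P).im / (1 - ‖b‖ ^ 2) with hB
  have hA0 : 0 < A := by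
    have : 0 < ‖1 - (starRingEnd ℂ) b * P‖ := norm_pos_iff.2 (den_ne hb hP.le)
    positivity
  have hAD : (A : ℂ) * (1 - (starRingEnd ℂ) b * b) =
      (1 - (starRingEnd ℂ) b * P) * (1 - b * (starRingEnd ℂ) P) := by
    rw [← hDc, ← Complex.ofReal_mul, hA, div_mul_cancel₀ _ hD.ne']
    have h1 := Complex.mul_conj' (1 - (starRingEnd ℂ) b * P)
    simp only [map_sub, map_one, map_mul, Complex.conj_conj] at h1
    rw [h1]
    push_cast
    rfl
  have hBD : (B : ℂ) * (1 - (starRingEnd ℂ) b * b) =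
      Complex.I * ((starRingEnd ℂ) b * P - b * (starRingEnd ℂ) P) := by
    rw [← hDc, ← Complex.ofReal_mul, hB, div_mul_cancel₀ _ hD.ne']
    apply Complex.ext
    · simp [Complex.mul_re, Complex.mul_im]
      ring
    · simp [Complex.mul_re, Complex.mul_im]
  set w' : ℂ := (A : ℂ) * w + (B : ℂ) with hw'
  have hw'im : 0 < w'.im := by
    have : w'.im = A * w.im := by
      rw [hw']
      simp [Complex.mul_im]
    rw [this]
    positivity
  have n1 := PA1_ne hw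
  have n2 := PA1_ne hw'im
  have n3 := den_ne hb (PA1_lt hP hw).le
  have hz : bet P w * (w + Complex.I) = P * (w - Complex.I) := by
    rw [bet, div_mul_cancel₀ _ n1]
  set z := bet P w with hzdef
  set cb := (starRingEnd ℂ) b with hcb
  set Pb := (starRingEnd ℂ) P with hPb
  have hI : Complex.I * Complex.I = -1 := Complex.I_mul_I
  have g1 : (w' + Complex.I) * (1 - cb * b) =
      (1 - b * Pb) * ((w + Complex.I) - cb * P * (w - Complex.I)) := by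
    rw [hw']
    linear_combination w * hAD + hBD + (Complex.I * cb * b) * hPP
  have g2 : (w' - Complex.I) * (1 - cb * b) =
      (1 - cb * P) * ((w - Complex.I) - b * Pb * (w + Complex.I)) := by
    rw [hw']
    linear_combination w * hAD + hBD - (Complex.I * cb * b) * hPP
  have g3 : (z - b) * (w + Complex.I) = P * ((w - Complex.I) - b * Pb * (w + Complex.I)) := by
    linear_combination hz + b * (w + Complex.I) * hPP
  have g4 : (1 - cb * z) * (w + Complex.I) = (w + Complex.I) - cb * P * (w - Complex.I) := by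
    linear_combination -cb * hz
  have fix2 : u * (1 - b * Pb) = 1 - cb * P := by
    apply mul_left_cancel₀ hP0
    linear_combination hfix - u * b * hPP
  rw [mob, bet, div_eq_div_iff n3 n2]
  have hDc1 : 1 - cb * b ≠ 0 := by
    rw [← hDc]
    exact hDc0
  apply mul_right_cancel₀ (mul_ne_zero n1 hDc1)
  linear_combination (u * (w' + Complex.I) * (1 - cb * b)) * g3 +
    (u * P * ((w - Complex.I) - b * Pb * (w + Complex.I))) * g1 -
    (P * (w' - Complex.I) * (1 - cb * b)) * g4 -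
    (P * ((w + Complex.I) - cb * P * (w - Complex.I))) * g2 +
    (P * ((w - Complex.I) - b * Pb * (w + Complex.I)) *
      ((w + Complex.I) - cb * P * (w - Complex.I))) * fix2

theorem PA1_fix {u b P : ℂ} (hb : ‖b‖ < 1) (hP : ‖P‖ = 1) (h : mob u b P = P) :
    u * (P - b) = P * (1 - (starRingEnd ℂ) b * P) := by
  rw [mob, div_eq_iff (den_ne hb hP.le)] at h
  exact h

theorem PA1_par {u b P : ℂ} (hu : ‖u‖ = 1) (hb : ‖b‖ < 1) (hP : ‖P‖ = 1)
    (h2 : ∀ z : ℂ, ‖z‖ ≤ 1 →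
      mob u b z - z = (starRingEnd ℂ) b * (z - P) ^ 2 / (1 - (starRingEnd ℂ) b * z)) :
    mob u b P = P ∧ ‖1 - (starRingEnd ℂ) b * P‖ ^ 2 = 1 - ‖b‖ ^ 2 := by
  have hP0 : P ≠ 0 := MB_u_ne hP
  have e0 := h2 0 (by simp)
  have e1 := h2 P hP.le
  have hfixP : mob u b P = P := by
    rw [sub_self, zero_pow two_ne_zero, mul_zero, zero_div] at e1
    exact sub_eq_zero.1 e1
  have hfix := PA1_fix hb hP hfixP
  have e2 : -(u * b) = (starRingEnd ℂ) b * P ^ 2 := by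
    rw [mob] at e0
    simp only [mul_zero, sub_zero, div_one, zero_sub, even_two, Even.neg_pow, mul_neg] at e0
    exact e0
  have hu2 : u = 1 - 2 * ((starRingEnd ℂ) b * P) := by
    apply mul_right_cancel₀ hP0
    linear_combination hfix - e2
  refine ⟨hfixP, ?_⟩
  set c : ℂ := (starRingEnd ℂ) b * P with hc
  have hcb : ‖b‖ ^ 2 = c.re ^ 2 + c.im ^ 2 := by
    have h3 : ‖c‖ = ‖b‖ := by rw [hc, norm_mul, RCLike.norm_conj, hP, mul_one]
    rw [← h3, Complex.sq_norm, Complex.normSq_apply]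
    ring
  have h3 : ‖1 - 2 * c‖ ^ 2 = 1 := by rw [← hu2, hu, one_pow]
  rw [Complex.sq_norm, Complex.normSq_apply] at h3
  simp only [Complex.sub_re, Complex.sub_im, Complex.one_re, Complex.one_im, Complex.mul_re,
    Complex.mul_im, Complex.re_ofNat, Complex.im_ofNat, zero_mul, sub_zero, add_zero] at h3
  rw [Complex.sq_norm, Complex.normSq_apply]
  simp only [Complex.sub_re, Complex.sub_im, Complex.one_re, Complex.one_im]
  linarith

theorem PA1_t0 {b P : ℂ} (hb : ‖b‖ < 1) (hP : ‖P‖ = 1) (hb0 : b ≠ 0)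
    (h : ‖1 - (starRingEnd ℂ) b * P‖ ^ 2 = 1 - ‖b‖ ^ 2) :
    -2 * ((starRingEnd ℂ) b * P).im / (1 - ‖b‖ ^ 2) ≠ 0 := by
  have hD : 0 < 1 - ‖b‖ ^ 2 := by nlinarith [norm_nonneg b]
  have hb1 : 0 < ‖b‖ := norm_pos_iff.2 hb0
  set c : ℂ := (starRingEnd ℂ) b * P with hc
  have hcb : ‖b‖ ^ 2 = c.re ^ 2 + c.im ^ 2 := by
    have h3 : ‖c‖ = ‖b‖ := by rw [hc, norm_mul, RCLike.norm_conj, hP, mul_one]
    rw [← h3, Complex.sq_norm, Complex.normSq_apply]
    ring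
  rw [Complex.sq_norm, Complex.normSq_apply] at h
  simp only [Complex.sub_re, Complex.sub_im, Complex.one_re, Complex.one_im] at h
  have h1 : c.re = ‖b‖ ^ 2 := by nlinarith
  intro h2
  rw [div_eq_zero_iff] at h2
  have h3 : c.im = 0 := by
    rcases h2 with h2 | h2
    · linarith
    · exact absurd h2 hD.ne'
  rw [h3, h1] at hcb
  have h4 : ‖b‖ ^ 2 * (1 - ‖b‖ ^ 2) = 0 := by linarith
  have h5 : 0 < ‖b‖ ^ 2 * (1 - ‖b‖ ^ 2) := by positivity
  linarith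

theorem PA1_trans {u b P : ℂ} (hb : ‖b‖ < 1) (hP : ‖P‖ = 1) (hf : mob u b P = P)
    (h : ‖1 - (starRingEnd ℂ) b * P‖ ^ 2 = 1 - ‖b‖ ^ 2) :
    ∀ w : ℂ, 0 < w.im → mob u b (bet P w) =
      bet P (w + ((-2 * ((starRingEnd ℂ) b * P).im / (1 - ‖b‖ ^ 2) : ℝ) : ℂ)) := by
  intro w hw
  have hD : 0 < 1 - ‖b‖ ^ 2 := by nlinarith [norm_nonneg b]
  rw [PA1_aff hb hP (PA1_fix hb hP hf) w hw, h, div_self hD.ne', Complex.ofReal_one, one_mul]

theorem para_half {u b P : ℂ} (hu : ‖u‖ = 1) (hb : ‖b‖ < 1) (hP : ‖P‖ = 1) (hb0 : b ≠ 0)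
    (h2 : ∀ z : ℂ, ‖z‖ ≤ 1 →
      mob u b z - z = (starRingEnd ℂ) b * (z - P) ^ 2 / (1 - (starRingEnd ℂ) b * z)) :
    ∃ t : ℝ, t ≠ 0 ∧ ∀ w : ℂ, 0 < w.im → mob u b (bet P w) = bet P (w + t) := by
  obtain ⟨h3, h4⟩ := PA1_par hu hb hP h2
  exact ⟨_, PA1_t0 hb hP hb0 h4, PA1_trans hb hP h3 h4⟩

theorem commute_half {u b P u' b' : ℂ} (hu : ‖u‖ = 1) (hb : ‖b‖ < 1) (hP : ‖P‖ = 1) (hb0 : b ≠ 0)
    (h2 : ∀ z : ℂ, ‖z‖ ≤ 1 →
      mob u b z - z = (starRingEnd ℂ) b * (z - P) ^ 2 / (1 - (starRingEnd ℂ) b * z))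
    (hu' : ‖u'‖ = 1) (hb' : ‖b'‖ < 1)
    (hc : ∀ z ∈ ball (0:ℂ) 1, mob u b (mob u' b' z) = mob u' b' (mob u b z)) :
    ∃ s : ℝ, ∀ w : ℂ, 0 < w.im → mob u' b' (bet P w) = bet P (w + s) := by
  obtain ⟨h3, h4⟩ := PA1_par hu hb hP h2
  obtain ⟨t, ht, htr⟩ := para_half hu hb hP hb0 h2
  -- commutation on the closed disc
  have hmc : ∀ {u b : ℂ}, ‖u‖ = 1 → ‖b‖ < 1 → MapsTo (mob u b) (closedBall (0:ℂ) 1)
      (closedBall (0:ℂ) 1) := by
    intro u b hu hb z hz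
    rw [mem_closedBall_zero_iff] at hz ⊢
    exact mob_closedBall hu hb hz
  have hcl : EqOn (fun z => mob u b (mob u' b' z)) (fun z => mob u' b' (mob u b z))
      (closedBall (0:ℂ) 1) := by
    apply EqOn.of_subset_closure (s := ball (0:ℂ) 1) (fun z hz => hc z hz)
    · exact (mob_cont hb).comp (mob_cont hb') (hmc hu' hb')
    · exact (mob_cont hb').comp (mob_cont hb) (hmc hu hb)
    · exact ball_subset_closedBall
    · rw [closure_ball _ one_ne_zero]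
  have hP1 : P ∈ closedBall (0:ℂ) 1 := by rw [mem_closedBall_zero_iff]; exact hP.le
  have hSP : mob u' b' P = P := by
    have e1 := hcl hP1
    simp only at e1
    rw [h3] at e1
    have e2 := h2 (mob u' b' P) (mob_closedBall hu' hb' hP.le)
    rw [e1, sub_self] at e2
    have n1 := den_ne hb (mob_closedBall hu' hb' hP.le)
    have hcb0 : (starRingEnd ℂ) b ≠ 0 := by
      rw [Ne, map_eq_zero]
      exact hb0
    have e3 := (div_eq_zero_iff.1 e2.symm).resolve_right n1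
    have e4 := (mul_eq_zero.1 e3).resolve_left hcb0
    exact sub_eq_zero.1 (pow_eq_zero_iff two_ne_zero |>.1 e4)
  have hD : 0 < 1 - ‖b'‖ ^ 2 := by nlinarith [norm_nonneg b']
  have haff := PA1_aff hb' hP (PA1_fix hb' hP hSP)
  set A : ℝ := ‖1 - (starRingEnd ℂ) b' * P‖ ^ 2 / (1 - ‖b'‖ ^ 2) with hA
  set B : ℝ := -2 * ((starRingEnd ℂ) b' * P).im / (1 - ‖b'‖ ^ 2) with hB
  have hA0 : 0 < A := by
    have : 0 < ‖1 - (starRingEnd ℂ) b' * P‖ := norm_pos_iff.2 (den_ne hb' hP.le)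
    positivity
  have him : ∀ (w : ℂ), 0 < w.im → 0 < ((A : ℂ) * w + (B : ℂ)).im := by
    intro w hw
    have : ((A : ℂ) * w + (B : ℂ)).im = A * w.im := by simp [Complex.mul_im]
    rw [this]
    positivity
  have him2 : ∀ (w : ℂ), 0 < w.im → 0 < (w + (t : ℂ)).im := by
    intro w hw
    simpa using hw
  have hI : 0 < Complex.I.im := by simp
  have e1 := hc (bet P Complex.I) (by
    rw [mem_ball_zero_iff]; exact PA1_lt hP hI)
  rw [haff _ hI, htr _ (him _ hI), htr _ hI, haff _ (him2 _ hI)] at e1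
  have e2 := PA1_inj hP (him2 _ (him _ hI)) (him _ (him2 _ hI)) e1
  have e3 : ((A : ℂ) - 1) * (t : ℂ) = 0 := by linear_combination -e2
  have ht' : (t : ℂ) ≠ 0 := by
    rw [Ne, Complex.ofReal_eq_zero]
    exact ht
  have e4 : (A : ℂ) = 1 := sub_eq_zero.1 ((mul_eq_zero.1 e3).resolve_right ht')
  refine ⟨B, fun w hw => ?_⟩
  rw [haff w hw, e4, one_mul]

end CV

end S_H12_CV_PA1
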