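import Pool.Agent.H12.KS.K01

/-! Joined modules of the proof of MP_8a27c0_an (one section per module). -/

section S_H36_DS_IA

/-!
IA (logarithms and winding numbers).  Proofs.
`allLogs_univ`: Mathlib has `Complex.exists_continuousOn_eqOn_exp_comp` for open simply connected sets
(`univ` is convex) in `Mathlib/Analysis/Complex/BranchLogRoot.lean`.  `allLogs_closedBall`, `allLogs_ball`:
closed ball by composing with the radial retraction `ℂ → closedBall c ρ` and `allLogs_univ`; the open ball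
is homeomorphic to `ℂ` (`Homeomorph.unitBall` or open simply connected).
`allLogs_of_homeo`: compose with the homeomorphism.
`hasWind_exists`: `t ↦ f (c + ρ e^{2πit})` on `[0,1]` has a continuous logarithm `l` (an interval; e.g. extend
by constants to `ℝ` and use `allLogs_univ` for `z ↦ f(..z.re..)`), `l 1 - l 0 = 2πi n`; `l t - 2πi n t` descends to
the circle (quotient topology of `[0,1]`, or glue two charts).
`hasWind_unique`: if `z ^ k = exp (L z)` on the circle with `k ≠ 0`, then `L (e^{iθ}) - i k θ` is constant on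
`[0, 2π]`, contradiction at the endpoints.
`hasWind_of_ratio`: `f = g * exp (Complex.log (f / g))`.
-/

namespace DS
open Metric Set Filter Topology

private theorem IA_allLogs_convex {W : Set ℂ} (hc : Convex ℝ W) (ho : IsOpen W) : AllLogs W := by
  intro f hf h0
  rcases W.eq_empty_or_nonempty with he | hne
  · subst he
    exact ⟨fun _ => 0, continuousOn_const, fun z hz => absurd hz (notMem_empty z)⟩
  · have hsc : IsSimplyConnected W := by
      have := hc.contractibleSpace hne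
      exact (inferInstance : SimplyConnectedSpace W)
    obtain ⟨L, hL, hE⟩ := Complex.exists_continuousOn_eqOn_exp_comp hsc ho hf (by
      rintro ⟨z, hz, hz0⟩
      exact h0 z hz hz0)
    exact ⟨L, hL, fun z hz => (hE hz).symm⟩

theorem allLogs_univ : AllLogs univ := IA_allLogs_convex convex_univ isOpen_univ

theorem allLogs_closedBall (c : ℂ) (ρ : ℝ) : AllLogs (closedBall c ρ) := by
  intro f hf h0
  rcases lt_trichotomy ρ 0 with h | h | h
  · refine ⟨fun _ => 0, continuousOn_const, fun z hz => ?_⟩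
    rw [closedBall_eq_empty.2 h] at hz
    exact absurd hz (notMem_empty z)
  · subst h
    rw [closedBall_zero] at *
    refine ⟨fun _ => Complex.log (f c), continuousOn_const, ?_⟩
    intro z hz
    rw [mem_singleton_iff] at hz
    subst hz
    rw [Complex.exp_log (h0 z (mem_singleton z))]
  · set r : ℂ → ℂ := fun z => c + ((ρ / max ρ ‖z - c‖ : ℝ) : ℂ) * (z - c) with hr
    have hmax : ∀ z : ℂ, 0 < max ρ ‖z - c‖ := fun z => lt_of_lt_of_le h (le_max_left _ _)
    have hrc : Continuous r := by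
      have h1 : Continuous fun z : ℂ => max ρ ‖z - c‖ := by fun_prop
      have h2 : Continuous fun z : ℂ => ρ / max ρ ‖z - c‖ :=
        continuous_const.div h1 fun z => (hmax z).ne'
      have h3 : Continuous fun z : ℂ => ((ρ / max ρ ‖z - c‖ : ℝ) : ℂ) :=
        Complex.continuous_ofReal.comp h2
      exact continuous_const.add (h3.mul (continuous_id.sub continuous_const))
    have hrm : ∀ z, r z ∈ closedBall c ρ := by
      intro z
      rw [mem_closedBall, dist_eq_norm, hr]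
      simp only [add_sub_cancel_left]
      rw [norm_mul, Complex.norm_real, Real.norm_eq_abs,
        abs_of_nonneg (div_nonneg h.le (hmax z).le), div_mul_eq_mul_div, div_le_iff₀ (hmax z)]
      exact mul_le_mul_of_nonneg_left (le_max_right _ _) h.le
    have hri : ∀ z ∈ closedBall c ρ, r z = z := by
      intro z hz
      rw [mem_closedBall, dist_eq_norm] at hz
      rw [hr]
      simp only
      rw [max_eq_left hz, div_self h.ne', Complex.ofReal_one, one_mul, add_sub_cancel]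
    obtain ⟨L, hL, hE⟩ := allLogs_univ (f ∘ r)
      (hf.comp hrc.continuousOn (fun z _ => hrm z)) (fun z _ => h0 _ (hrm z))
    refine ⟨L, hL.mono (subset_univ _), fun z hz => ?_⟩
    rw [← hE z (mem_univ z), Function.comp_apply, hri z hz]

theorem allLogs_ball (c : ℂ) (ρ : ℝ) : AllLogs (ball c ρ) :=
  IA_allLogs_convex (convex_ball c ρ) isOpen_ball

theorem allLogs_of_homeo {W : Set ℂ} {φ u : ℂ → ℂ} (hφ : ContinuousOn φ (ball 0 1))
    (hφW : MapsTo φ (ball 0 1) W) (hu : ContinuousOn u W) (huW : MapsTo u W (ball 0 1))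
    (hφu : ∀ w ∈ W, φ (u w) = w) : AllLogs W := by
  intro f hf h0
  obtain ⟨L, hL, hE⟩ := allLogs_ball 0 1 (f ∘ φ) (hf.comp hφ hφW) (fun z hz => h0 _ (hφW hz))
  refine ⟨L ∘ u, hL.comp hu huW, fun w hw => ?_⟩
  have := hE (u w) (huW hw)
  rwa [Function.comp_apply, hφu w hw] at this

/-- a continuous logarithm of one is constant -/
private theorem IA_const {g : ℝ → ℂ} (hg : Continuous g) (h : ∀ t, Complex.exp (g t) = 1)
    (s t : ℝ) : g s = g t := by
  have hloc : IsLocallyConstant g := by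
    rw [IsLocallyConstant.iff_eventually_eq]
    intro x
    have h1 : ∀ᶠ y in 𝓝 x, dist (g y) (g x) < 1 :=
      hg.continuousAt.eventually (ball_mem_nhds _ one_pos)
    filter_upwards [h1] with y hy
    obtain ⟨a, ha⟩ := Complex.exp_eq_one_iff.1 (h y)
    obtain ⟨b, hb⟩ := Complex.exp_eq_one_iff.1 (h x)
    have hab : g y - g x = ((a - b : ℤ) : ℂ) * (2 * Real.pi * Complex.I) := by
      rw [ha, hb]; push_cast; ring
    have hpi : (1 : ℝ) < 2 * Real.pi := by linarith [Real.pi_gt_three]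
    by_cases hk : a - b = 0
    · rw [hk, Int.cast_zero, zero_mul, sub_eq_zero] at hab
      exact hab
    · exfalso
      have h2 : (1 : ℝ) ≤ |((a - b : ℤ) : ℝ)| := by
        rw [← Int.cast_abs]; exact_mod_cast Int.one_le_abs hk
      rw [dist_eq_norm, hab, norm_mul, Complex.norm_intCast] at hy
      have h3 : ‖(2 * Real.pi * Complex.I : ℂ)‖ = 2 * Real.pi := by
        rw [norm_mul, Complex.norm_I, mul_one, norm_mul, Complex.norm_real, Real.norm_eq_abs,
          abs_of_pos Real.pi_pos]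
        norm_num
      rw [h3] at hy
      nlinarith
  exact hloc.apply_eq_of_preconnectedSpace s t

private theorem IA_mem {c : ℂ} {ρ : ℝ} (hρ : 0 < ρ) (t : ℝ) :
    c + (ρ : ℂ) * Complex.exp (t * Complex.I) ∈ sphere c ρ := by
  rw [mem_sphere, dist_eq_norm, add_sub_cancel_left, norm_mul, Complex.norm_exp_ofReal_mul_I,
    mul_one, Complex.norm_real, Real.norm_eq_abs, abs_of_pos hρ]

private theorem IA_arg {c : ℂ} {ρ : ℝ} {z : ℂ} (hz : z ∈ sphere c ρ) :
    c + (ρ : ℂ) * Complex.exp (Complex.arg (z - c) * Complex.I) = z := by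
  rw [mem_sphere, dist_eq_norm] at hz
  have := Complex.norm_mul_exp_arg_mul_I (z - c)
  rw [hz] at this
  rw [this]; ring

private theorem IA_cont (c : ℂ) (ρ : ℝ) :
    Continuous fun t : ℝ => c + (ρ : ℂ) * Complex.exp (t * Complex.I) := by fun_prop

theorem hasWind_exists {f : ℂ → ℂ} {c : ℂ} {ρ : ℝ} (hρ : 0 < ρ) (hf : ContinuousOn f (sphere c ρ))
    (h0 : ∀ z ∈ sphere c ρ, f z ≠ 0) : ∃ n : ℤ, HasWind f c ρ n := by
  set F : ℝ → ℂ := fun t => f (c + (ρ : ℂ) * Complex.exp (t * Complex.I)) with hF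
  have hFc : Continuous F :=
    hf.comp_continuous (IA_cont c ρ) (fun t => IA_mem hρ t)
  have hF0 : ∀ t, F t ≠ 0 := fun t => h0 _ (IA_mem hρ t)
  have hFp : ∀ t, F (t + 2 * Real.pi) = F t := by
    intro t
    simp only [hF]
    congr 3
    have : ((t + 2 * Real.pi : ℝ) : ℂ) * Complex.I = t * Complex.I + 2 * Real.pi * Complex.I := by
      push_cast; ring
    rw [this, Complex.exp_add, Complex.exp_two_pi_mul_I, mul_one]
  obtain ⟨L, hL, hE⟩ := allLogs_univ (fun z => F z.re)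
    (hFc.comp Complex.continuous_re).continuousOn (fun z _ => hF0 _)
  have hLc : Continuous L := continuousOn_univ.1 hL
  set l : ℝ → ℂ := fun t => L t with hl
  have hlc : Continuous l := hLc.comp Complex.continuous_ofReal
  have hlE : ∀ t, F t = Complex.exp (l t) := by
    intro t
    have := hE (t : ℂ) (mem_univ _)
    simpa using this
  have hd : ∀ t, Complex.exp (l (t + 2 * Real.pi) - l t) = 1 := by
    intro t
    rw [Complex.exp_sub, ← hlE, ← hlE, hFp, div_self (hF0 t)]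
  have hdc : Continuous fun t => l (t + 2 * Real.pi) - l t :=
    (hlc.comp (continuous_id.add continuous_const)).sub hlc
  obtain ⟨n, hn⟩ := Complex.exp_eq_one_iff.1 (hd 0)
  have hdn : ∀ t, l (t + 2 * Real.pi) - l t = n * (2 * Real.pi * Complex.I) := by
    intro t
    rw [← hn]
    exact IA_const hdc hd t 0
  set m : ℝ → ℂ := fun t => l t - n * (t * Complex.I) with hm
  have hmc : Continuous m := by
    have : Continuous fun t : ℝ => (n : ℂ) * ((t : ℂ) * Complex.I) := by fun_prop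
    exact hlc.sub this
  have hmp : Function.Periodic m (2 * Real.pi) := by
    intro t
    have := hdn t
    simp only [hm]
    have h1 : l (t + 2 * Real.pi) = l t + n * (2 * Real.pi * Complex.I) := by
      rw [← this]; ring
    rw [h1]; push_cast; ring
  set M : Real.Angle → ℂ := fun θ => hmp.lift θ with hM
  have hMc : Continuous M := Continuous.quotient_liftOn' hmc _
  refine ⟨n, fun z => M (Complex.arg (z - c) : Real.Angle) - n * Real.log ρ, ?_, ?_⟩
  · refine ContinuousOn.sub ?_ continuousOn_const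
    intro z hz
    have hz0 : z - c ≠ 0 := by
      intro h
      rw [mem_sphere, dist_eq_norm, h, norm_zero] at hz
      exact hρ.ne hz
    have h1 : ContinuousAt (((↑) : ℝ → Real.Angle) ∘ Complex.arg) (z - c) :=
      Complex.continuousAt_arg_coe_angle hz0
    have h2 : ContinuousAt (fun w : ℂ => w - c) z := by fun_prop
    have h3 : ContinuousAt (fun w : ℂ => ((Complex.arg (w - c) : ℝ) : Real.Angle)) z :=
      ContinuousAt.comp (f := fun w : ℂ => w - c) h1 h2
    exact (hMc.continuousAt.comp h3).continuousWithinAt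
  · intro z hz
    have h1 : f z = Complex.exp (l (Complex.arg (z - c))) := by
      rw [← hlE]; simp only [hF]; rw [IA_arg hz]
    have h2 : M (Complex.arg (z - c) : Real.Angle) = m (Complex.arg (z - c)) := rfl
    have h3 : (z - c) ^ n = Complex.exp (n * Real.log ρ) *
        Complex.exp (n * (Complex.arg (z - c) * Complex.I)) := by
      rw [← Complex.exp_add, ← mul_add, Complex.exp_int_mul, Complex.exp_add, ← Complex.ofReal_exp,
        Real.exp_log hρ]
      congr 1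
      have := IA_arg hz
      linear_combination -this
    simp only
    rw [h1, h3, h2, ← Complex.exp_add, ← Complex.exp_add]
    congr 1
    simp only [hm]
    ring

theorem hasWind_unique {f : ℂ → ℂ} {c : ℂ} {ρ : ℝ} (hρ : 0 < ρ) {n m : ℤ}
    (hn : HasWind f c ρ n) (hm : HasWind f c ρ m) : n = m := by
  obtain ⟨L, hL, hLE⟩ := hn
  obtain ⟨M, hM, hME⟩ := hm
  have hpt : ∀ t : ℝ, ((ρ : ℂ) * Complex.exp (t * Complex.I)) ≠ 0 := fun t =>
    mul_ne_zero (Complex.ofReal_ne_zero.2 hρ.ne') (Complex.exp_ne_zero _)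
  set p : ℝ → ℂ := fun t => c + (ρ : ℂ) * Complex.exp (t * Complex.I) with hp
  have hpm : ∀ t, p t ∈ sphere c ρ := fun t => IA_mem hρ t
  have hpc : Continuous p := IA_cont c ρ
  have hexp : ∀ (k : ℤ) (t : ℝ), (p t - c) ^ k =
      Complex.exp (k * (Real.log ρ + t * Complex.I)) := by
    intro k t
    rw [Complex.exp_int_mul, Complex.exp_add, ← Complex.ofReal_exp, Real.exp_log hρ]
    simp only [hp, add_sub_cancel_left]
  set g : ℝ → ℂ := fun t => (n * (Real.log ρ + t * Complex.I) + L (p t)) -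
    (m * (Real.log ρ + t * Complex.I) + M (p t)) with hg
  have hgc : Continuous g := by
    have h1 : Continuous fun t => L (p t) := hL.comp_continuous hpc hpm
    have h2 : Continuous fun t => M (p t) := hM.comp_continuous hpc hpm
    have h3 : Continuous fun t : ℝ => (n : ℂ) * (Real.log ρ + t * Complex.I) := by fun_prop
    have h4 : Continuous fun t : ℝ => (m : ℂ) * (Real.log ρ + t * Complex.I) := by fun_prop
    exact (h3.add h1).sub (h4.add h2)
  have hg1 : ∀ t, Complex.exp (g t) = 1 := by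
    intro t
    simp only [hg]
    rw [Complex.exp_sub, Complex.exp_add, Complex.exp_add, ← hexp, ← hexp, ← hLE _ (hpm t),
      ← hME _ (hpm t), div_self]
    rw [hLE _ (hpm t)]
    refine mul_ne_zero (zpow_ne_zero _ ?_) (Complex.exp_ne_zero _)
    simp only [hp, add_sub_cancel_left]
    exact hpt t
  have h0 := IA_const hgc hg1 (2 * Real.pi) 0
  have hpp : p (2 * Real.pi) = p 0 := by
    simp only [hp]
    congr 2
    push_cast
    rw [Complex.exp_two_pi_mul_I, zero_mul, Complex.exp_zero]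
  simp only [hg] at h0
  rw [hpp] at h0
  have h5 : ((n : ℂ) - m) * (2 * Real.pi * Complex.I) = 0 := by
    push_cast at h0
    linear_combination h0
  have h6 : (2 * Real.pi * Complex.I : ℂ) ≠ 0 := Complex.two_pi_I_ne_zero
  rcases mul_eq_zero.1 h5 with h7 | h7
  · rw [sub_eq_zero] at h7
    exact_mod_cast h7
  · exact absurd h7 h6

private theorem IA_sub_ne {c : ℂ} {ρ : ℝ} (hρ : 0 < ρ) {z : ℂ} (hz : z ∈ sphere c ρ) :
    z - c ≠ 0 := by
  intro h
  rw [mem_sphere, dist_eq_norm, h, norm_zero] at hz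
  exact hρ.ne hz

theorem hasWind_mul {f g : ℂ → ℂ} {c : ℂ} {ρ : ℝ} (hρ : 0 < ρ) {n m : ℤ}
    (hn : HasWind f c ρ n) (hm : HasWind g c ρ m) : HasWind (fun z => f z * g z) c ρ (n + m) := by
  obtain ⟨L, hL, hLE⟩ := hn
  obtain ⟨M, hM, hME⟩ := hm
  refine ⟨fun z => L z + M z, hL.add hM, fun z hz => ?_⟩
  simp only
  rw [hLE z hz, hME z hz, zpow_add₀ (IA_sub_ne hρ hz), Complex.exp_add]
  ring

theorem hasWind_div {f g : ℂ → ℂ} {c : ℂ} {ρ : ℝ} (hρ : 0 < ρ) {n m : ℤ}
    (hn : HasWind f c ρ n) (hm : HasWind g c ρ m) : HasWind (fun z => f z / g z) c ρ (n - m) := by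
  obtain ⟨L, hL, hLE⟩ := hn
  obtain ⟨M, hM, hME⟩ := hm
  refine ⟨fun z => L z - M z, hL.sub hM, fun z hz => ?_⟩
  simp only
  rw [hLE z hz, hME z hz, zpow_sub₀ (IA_sub_ne hρ hz), Complex.exp_sub, mul_div_mul_comm]

theorem hasWind_of_ratio {f g : ℂ → ℂ} {c : ℂ} {ρ : ℝ} {n : ℤ} (hf : ContinuousOn f (sphere c ρ))
    (hg : ContinuousOn g (sphere c ρ)) (hg0 : ∀ z ∈ sphere c ρ, g z ≠ 0)
    (h : ∀ z ∈ sphere c ρ, f z / g z ∈ Complex.slitPlane) (hn : HasWind g c ρ n) :
    HasWind f c ρ n := by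
  obtain ⟨L, hL, hLE⟩ := hn
  refine ⟨fun z => L z + Complex.log (f z / g z), ?_, fun z hz => ?_⟩
  · exact hL.add ((hf.div hg hg0).clog h)
  · simp only
    rw [Complex.exp_add, Complex.exp_log (Complex.slitPlane_ne_zero (h z hz)), ← mul_assoc,
      ← hLE z hz, mul_div_cancel₀ _ (hg0 z hz)]

theorem hasWind_of_hasLog {f : ℂ → ℂ} {c : ℂ} {ρ : ℝ} {S : Set ℂ} (hS : sphere c ρ ⊆ S)
    (h : HasLog f S) : HasWind f c ρ 0 := by
  obtain ⟨L, hL, hLE⟩ := h
  refine ⟨L, hL.mono hS, fun z hz => ?_⟩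
  rw [zpow_zero, one_mul]
  exact hLE z (hS hz)

theorem hasLog_of_hasWind {f : ℂ → ℂ} {c : ℂ} {ρ : ℝ} (h : HasWind f c ρ 0) :
    HasLog f (sphere c ρ) := by
  obtain ⟨L, hL, hLE⟩ := h
  refine ⟨L, hL, fun z hz => ?_⟩
  have := hLE z hz
  rwa [zpow_zero, one_mul] at this

theorem hasWind_id (c : ℂ) (ρ : ℝ) : HasWind (fun z => z - c) c ρ 1 := by
  refine ⟨fun _ => 0, continuousOn_const, fun z _ => ?_⟩
  simp

end DS

end S_H36_DS_IA

section S_H36_DS_PBase

/-!
Definitions for the local analysis at a fixed prime end (project MP_8a27c0_DS).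
-/

namespace DS

open Metric Set Filter Topology MeasureTheory

/-- closed rectangle -/
def Rect (a b c d : ℝ) : Set ℂ := {z | a ≤ z.re ∧ z.re ≤ b ∧ c ≤ z.im ∧ z.im ≤ d}

/-- boundary of the rectangle -/
def Bd (a b c d : ℝ) : Set ℂ :=
  {z | z ∈ Rect a b c d ∧ (z.re = a ∨ z.re = b ∨ z.im = c ∨ z.im = d)}

/-- the component of `Bd ∩ W` containing `w` (empty if `w` is not in it) -/
def cc (W : Set ℂ) (a b c d : ℝ) (w : ℂ) : Set ℂ := connectedComponentIn (Bd a b c d ∩ W) w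

/-- closed square -/
def Sq (r : ℝ) : Set ℂ := Rect (-r) r (-r) r

/-- `A` separates the base point `φ 0` from the boundary point `ζ` (in the domain `W`, a disc by `φ`) -/
def Sep (W : Set ℂ) (φ : ℂ → ℂ) (ζ : ℂ) (A : Set ℂ) : Prop :=
  φ 0 ∈ W \ A ∧ ∃ ρ > 0, ∀ z ∈ ball (0:ℂ) 1, dist z ζ < ρ →
    φ z ∉ A ∧ φ z ∉ connectedComponentIn (W \ A) (φ 0)

/-- the two sides `Δ`, `M` of a cross-cut `A` of the domain `W` -/
structure Sides (W A Δ M : Set ℂ) : Prop where
  oΔ : IsOpen Δ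
  oM : IsOpen M
  cΔ : IsConnected Δ
  cM : IsConnected M
  disj : Disjoint Δ M
  union : Δ ∪ M = W \ A
  clΔ : A ⊆ closure Δ
  clM : A ⊆ closure M

/-- A domain `W` of the plane, a disc by `φ` (inverse `u`), a homeomorphism `G` of `W` (inverse `Gi`)
preserving a measure `μ`, fixing the prime end `ζ`, of which the point `0` (not in `W`) is a principal
point; `L0` is a metric property of conformal maps on `W ∩ closedBall 0 r₀`. -/
structure FixPE (W : Set ℂ) (φ u G Gi : ℂ → ℂ) (μ : Measure ℂ) (ζ : ℂ) (r₀ : ℝ) : Prop where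
  hr₀ : 0 < r₀
  hζ : ‖ζ‖ = 1
  W_open : IsOpen W
  zero_notin : (0:ℂ) ∉ W
  φ_cont : ContinuousOn φ (ball 0 1)
  φ_maps : MapsTo φ (ball 0 1) W
  u_cont : ContinuousOn u W
  u_maps : MapsTo u W (ball 0 1)
  uφ : ∀ z ∈ ball (0:ℂ) 1, u (φ z) = z
  φu : ∀ w ∈ W, φ (u w) = w
  G_cont : ContinuousOn G W
  G_maps : MapsTo G W W
  Gi_cont : ContinuousOn Gi W
  Gi_maps : MapsTo Gi W W
  GiG : ∀ w ∈ W, Gi (G w) = w
  GGi : ∀ w ∈ W, G (Gi w) = w
  fixζ : Tendsto (fun z => u (G (φ z))) (𝓝[ball 0 1] ζ) (𝓝 ζ)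
  μ_inv : ∀ B ⊆ W, MeasurableSet B → μ (G '' B) = μ B
  μ_pos : ∀ O ⊆ W, IsOpen O → O.Nonempty → 0 < μ O
  μ_small : ∀ ε : ENNReal, 0 < ε → ∃ ρ > 0, μ (φ '' (ball 0 1 ∩ ball ζ ρ)) < ε
  L0 : ∀ ε > 0, ∃ δ > 0, ∀ γ ⊆ W ∩ closedBall 0 r₀, IsPreconnected γ →
    (∀ z ∈ γ, ∀ w ∈ γ, dist z w < δ) → ∀ z ∈ γ, ∀ w ∈ γ, dist (u z) (u w) < ε
  L1 : ∀ ε > 0, ∃ ρ, 0 < ρ ∧ ρ < ε ∧ ∀ z ∈ ball (0:ℂ) 1, dist z ζ = ρ → ‖φ z‖ < ε

/-- hyperbolic local form on the square of half side `r`: the horizontal axis is contracted (factor at most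
`lp < 1`), the vertical axis expanded (factor between `km > 1` and `kp`), both axes are invariant and the signs
of both coordinates are preserved -/
structure HypLoc (G : ℂ → ℂ) (r lp km kp : ℝ) : Prop where
  hr : 0 < r
  hlp : 0 < lp
  hlp1 : lp < 1
  hkm : 1 < km
  hkp : km ≤ kp
  cont : ContinuousOn G (Sq r)
  re0 : ∀ z ∈ Sq r, z.re = 0 → (G z).re = 0
  repos : ∀ z ∈ Sq r, 0 < z.re → 0 < (G z).re ∧ (G z).re ≤ lp * z.re
  reneg : ∀ z ∈ Sq r, z.re < 0 → (G z).re < 0 ∧ lp * z.re ≤ (G z).re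
  im0 : ∀ z ∈ Sq r, z.im = 0 → (G z).im = 0
  impos : ∀ z ∈ Sq r, 0 < z.im → km * z.im ≤ (G z).im ∧ (G z).im ≤ kp * z.im
  imneg : ∀ z ∈ Sq r, z.im < 0 → (G z).im ≤ km * z.im ∧ kp * z.im ≤ (G z).im
  mono : ∀ z ∈ Sq r, ∀ w ∈ Sq r, z.re = w.re → z.im < w.im → (G z).im < (G w).im

/-- a chart `χ` of `X` minus a point `P'` of `K` onto the plane (inverse `κ`) with `χ P = 0` -/
structure PChart {X : Type*} [TopologicalSpace X] (K : Set X) (P P' : X) (χ : X → ℂ) (κ : ℂ → X) :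
    Prop where
  hP' : P' ∈ K
  κ_cont : Continuous κ
  κ_ne : ∀ z, κ z ≠ P'
  χκ : ∀ z, χ (κ z) = z
  κχ : ∀ x, x ≠ P' → κ (χ x) = x
  χ_cont : ContinuousOn χ {P'}ᶜ
  κ0 : κ 0 = P

/-- `x` is the limit along `φ` of a curve in the disc that lands at the boundary point `ξ` -/
def Acc {X : Type*} [TopologicalSpace X] (φ : ℂ → X) (ξ : ℂ) (x : X) : Prop :=
  ∃ c : ℝ → ℂ, ContinuousOn c (Ioc 0 1) ∧ (∀ t ∈ Ioc (0:ℝ) 1, c t ∈ ball (0:ℂ) 1) ∧
    Tendsto c (𝓝[>] 0) (𝓝 ξ) ∧ Tendsto (fun t => φ (c t)) (𝓝[>] 0) (𝓝 x)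

/-- `P` is a principal point of the prime end `ζ` -/
def Principal {X : Type*} [MetricSpace X] (φ : ℂ → X) (ζ : ℂ) (P : X) : Prop :=
  ∀ ε > 0, ∃ ρ, 0 < ρ ∧ ρ < ε ∧ ∀ z ∈ ball (0:ℂ) 1, dist z ζ = ρ → dist (φ z) P < ε

end DS

end S_H36_DS_PBase

section S_H36_DS_PB

/-!
PB.  `ess_const`: define `M z` (`z ∈ W`) as the constant `c` of the hypothesis (unique, because `Eᶜ` is dense);
`M` is locally constant on `W` (for `z'` near `z` the constant at `z'` is also `c`, by density of `Eᶜ`), hence constant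
on the preconnected set `W`; and `M z = N z` for `z ∈ W \ E`... careful: for `z ∉ E` the eventual equality includes
`z' = z` itself.
Geometry of rectangles (`a < b`, `c < d`): `frontier_rect`, closedness, and the local structure at a boundary point.
`local_rect`: take `V = {z | |z.re - w.re| < s ∧ |z.im - w.im| < s}` with `s ≤ ε / 2`, `s < (b-a)/2`, `s < (d-c)/2`
and smaller than the distance of `w` to the vertices of the rectangle if `w` is not a vertex: `V ∩ interior` is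
convex; `V \ Rect` is one open half box or the union of two overlapping ones; `V ∩ Bd` is a segment or the union of two
segments with a common end.
-/

namespace DS
open Metric Set Filter Topology

theorem ess_const {W : Set ℂ} (hW : IsOpen W) (hc : IsPreconnected W) {E : Set ℂ} (hE : IsClosed E)
    (hE' : interior E = ∅) (N : ℂ → ℤ)
    (h : ∀ z ∈ W, ∃ c : ℤ, ∀ᶠ z' in 𝓝 z, z' ∉ E → N z' = c) :
    ∀ z ∈ W \ E, ∀ z' ∈ W \ E, N z = N z' := by
  have hd : Dense Eᶜ := interior_eq_empty_iff_dense_compl.1 hE'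
  have huniq : ∀ z : ℂ, ∀ c c' : ℤ, (∀ᶠ z' in 𝓝 z, z' ∉ E → N z' = c) →
      (∀ᶠ z' in 𝓝 z, z' ∉ E → N z' = c') → c = c' := by
    intro z c c' h1 h2
    have h3 : ∃ᶠ z' in 𝓝 z, z' ∈ Eᶜ := mem_closure_iff_frequently.1 (hd z)
    obtain ⟨z', h4, h5, h6⟩ := (h3.and_eventually (h1.and h2)).exists
    rw [← h5 h4, ← h6 h4]
  choose! M hM using h
  have hcont : ContinuousOn M W := by
    intro z hz
    refine ContinuousAt.continuousWithinAt ?_
    have h1 := (hM z hz).eventually_nhds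
    have h2 : ∀ᶠ z' in 𝓝 z, M z' = M z := by
      filter_upwards [h1, hW.mem_nhds hz] with z' h3 h4
      exact huniq z' _ _ (hM z' h4) h3
    exact (continuousAt_const (y := M z)).congr (h2.mono fun _ h => h.symm)
  have hNM : ∀ z ∈ W \ E, M z = N z := fun z hz => ((hM z hz.1).self_of_nhds hz.2).symm
  intro z hz z' hz'
  rw [← hNM z hz, ← hNM z' hz']
  exact hc.constant hcont hz.1 hz'.1

private theorem rect_eq (a b c d : ℝ) : Rect a b c d = Icc a b ×ℂ Icc c d := by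
  ext z
  simp only [Rect, mem_ofPred_eq, Complex.mem_reProdIm, mem_Icc, and_assoc]

private theorem bd_eq (a b c d : ℝ) : Bd a b c d =
    (({a, b} : Set ℝ) ∩ Icc a b) ×ℂ Icc c d ∪ Icc a b ×ℂ (({c, d} : Set ℝ) ∩ Icc c d) := by
  ext z
  simp only [Bd, rect_eq, mem_ofPred_eq, mem_union, Complex.mem_reProdIm, mem_inter_iff,
    mem_insert_iff, mem_singleton_iff]
  tauto

theorem frontier_rect {a b c d : ℝ} (hab : a < b) (hcd : c < d) :
    frontier (Rect a b c d) = Bd a b c d := by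
  rw [rect_eq, Complex.frontier_reProdIm, frontier_Icc hab.le, frontier_Icc hcd.le, closure_Icc,
    closure_Icc, bd_eq, union_comm]
  have h1 : ({a, b} : Set ℝ) ∩ Icc a b = {a, b} := by
    rw [inter_eq_left]
    rintro x (rfl | rfl)
    · exact left_mem_Icc.2 hab.le
    · exact right_mem_Icc.2 hab.le
  have h2 : ({c, d} : Set ℝ) ∩ Icc c d = {c, d} := by
    rw [inter_eq_left]
    rintro x (rfl | rfl)
    · exact left_mem_Icc.2 hcd.le
    · exact right_mem_Icc.2 hcd.le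
  rw [h1, h2]

theorem isClosed_rect (a b c d : ℝ) : IsClosed (Rect a b c d) := by
  rw [rect_eq]
  exact isClosed_Icc.reProdIm isClosed_Icc

private theorem isClosed_pair (a b : ℝ) : IsClosed (({a, b} : Set ℝ) ∩ Icc a b) :=
  (Set.toFinite {a, b}).isClosed.inter isClosed_Icc

theorem isCompact_bd (a b c d : ℝ) : IsCompact (Bd a b c d) := by
  have h1 : IsCompact (Rect a b c d) := by
    rw [rect_eq]
    exact isCompact_Icc.reProdIm isCompact_Icc
  refine h1.of_isClosed_subset ?_ fun z hz => hz.1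
  rw [bd_eq]
  exact ((isClosed_pair a b).reProdIm isClosed_Icc).union
    (isClosed_Icc.reProdIm (isClosed_pair c d))

theorem interior_bd (a b c d : ℝ) : interior (Bd a b c d) = ∅ := by
  have h0 : ∀ x y : ℝ, interior (({x, y} : Set ℝ) ∩ Icc x y) = ∅ := by
    intro x y
    rw [interior_eq_empty_iff_dense_compl]
    exact (((Set.toFinite {x, y}).inter_of_left _).countable).dense_compl ℝ
  have h1 : interior ((({a, b} : Set ℝ) ∩ Icc a b) ×ℂ Icc c d) = ∅ := by
    rw [Complex.interior_reProdIm, h0]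
    ext z
    simp [Complex.mem_reProdIm]
  have h2 : interior (Icc a b ×ℂ (({c, d} : Set ℝ) ∩ Icc c d)) = ∅ := by
    rw [Complex.interior_reProdIm, h0]
    ext z
    simp [Complex.mem_reProdIm]
  rw [bd_eq, interior_union_isClosed_of_interior_empty ((isClosed_pair a b).reProdIm isClosed_Icc) h2,
    h1]

/-- the one-dimensional local structure -/
private theorem one_dim {a b : ℝ} (hab : a < b) {x : ℝ} (hx : x ∈ Icc a b) :
    ∃ s₀ > 0, ∀ s, 0 < s → s ≤ s₀ →
      ((x = a ∨ x = b) → Ioo (x - s) (x + s) ∩ (({a, b} : Set ℝ) ∩ Icc a b) = {x} ∧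
        (Ioo (x - s) (x + s) \ Icc a b).Nonempty) ∧
      (¬ (x = a ∨ x = b) → Ioo (x - s) (x + s) ∩ (({a, b} : Set ℝ) ∩ Icc a b) = ∅ ∧
        Ioo (x - s) (x + s) \ Icc a b = ∅) ∧
      Convex ℝ (Ioo (x - s) (x + s) \ Icc a b) ∧
      (Ioo (x - s) (x + s) ∩ Ioo a b).Nonempty := by
  rcases eq_or_ne x a with rfl | hxa
  · refine ⟨b - x, by linarith, fun s hs hs' => ⟨fun _ => ⟨?_, ?_⟩, fun h => absurd (Or.inl rfl) h, ?_, ?_⟩⟩
    · ext y
      simp only [mem_inter_iff, mem_Ioo, mem_insert_iff, mem_singleton_iff, mem_Icc]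
      constructor
      · rintro ⟨⟨h1, h2⟩, h3 | h3, h4⟩
        · exact h3
        · linarith
      · rintro rfl
        exact ⟨⟨by linarith, by linarith⟩, Or.inl rfl, le_rfl, hab.le⟩
    · exact ⟨x - s / 2, ⟨by linarith, by linarith⟩, fun h => by linarith [h.1]⟩
    · have : Ioo (x - s) (x + s) \ Icc x b = Ioo (x - s) x := by
        ext y
        simp only [Set.mem_sdiff, mem_Ioo, mem_Icc, not_and_or, not_le]
        constructor
        · rintro ⟨⟨h1, h2⟩, h3 | h3⟩
          · exact ⟨h1, h3⟩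
          · linarith
        · rintro ⟨h1, h2⟩
          exact ⟨⟨h1, by linarith⟩, Or.inl h2⟩
      rw [this]
      exact convex_Ioo _ _
    · exact ⟨x + s / 2, ⟨by linarith, by linarith⟩, by linarith, by linarith⟩
  rcases eq_or_ne x b with rfl | hxb
  · refine ⟨x - a, by linarith, fun s hs hs' => ⟨fun _ => ⟨?_, ?_⟩, fun h => absurd (Or.inr rfl) h, ?_, ?_⟩⟩
    · ext y
      simp only [mem_inter_iff, mem_Ioo, mem_insert_iff, mem_singleton_iff, mem_Icc]
      constructor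
      · rintro ⟨⟨h1, h2⟩, h3 | h3, h4⟩
        · linarith
        · exact h3
      · rintro rfl
        exact ⟨⟨by linarith, by linarith⟩, Or.inr rfl, hab.le, le_rfl⟩
    · exact ⟨x + s / 2, ⟨by linarith, by linarith⟩, fun h => by linarith [h.2]⟩
    · have : Ioo (x - s) (x + s) \ Icc a x = Ioo x (x + s) := by
        ext y
        simp only [Set.mem_sdiff, mem_Ioo, mem_Icc, not_and_or, not_le]
        constructor
        · rintro ⟨⟨h1, h2⟩, h3 | h3⟩
          · linarith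
          · exact ⟨h3, h2⟩
        · rintro ⟨h1, h2⟩
          exact ⟨⟨by linarith, h2⟩, Or.inr h1⟩
      rw [this]
      exact convex_Ioo _ _
    · exact ⟨x - s / 2, ⟨by linarith, by linarith⟩, by linarith, by linarith⟩
  have h1 : a < x := lt_of_le_of_ne hx.1 hxa.symm
  have h2 : x < b := lt_of_le_of_ne hx.2 hxb
  refine ⟨min (x - a) (b - x), lt_min (by linarith) (by linarith), fun s hs hs' =>
    ⟨fun h => absurd h (by tauto), fun _ => ⟨?_, ?_⟩, ?_, ?_⟩⟩
  · have h3 := (le_min_iff.1 hs').1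
    have h4 := (le_min_iff.1 hs').2
    ext y
    simp only [mem_inter_iff, mem_Ioo, mem_insert_iff, mem_singleton_iff, mem_Icc, mem_empty_iff_false,
      iff_false]
    rintro ⟨⟨h5, h6⟩, h7 | h7, h8⟩
    · linarith
    · linarith
  · have h3 := (le_min_iff.1 hs').1
    have h4 := (le_min_iff.1 hs').2
    rw [sdiff_eq_empty]
    exact fun y hy => ⟨by linarith [hy.1], by linarith [hy.2]⟩
  · have h3 := (le_min_iff.1 hs').1
    have h4 := (le_min_iff.1 hs').2
    have : Ioo (x - s) (x + s) \ Icc a b = ∅ := by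
      rw [sdiff_eq_empty]
      exact fun y hy => ⟨by linarith [hy.1], by linarith [hy.2]⟩
    rw [this]
    exact convex_empty
  · exact ⟨x, ⟨by linarith, by linarith⟩, h1, h2⟩

private theorem convex_prod {s t : Set ℝ} (hs : Convex ℝ s) (ht : Convex ℝ t) :
    Convex ℝ (s ×ℂ t) := by
  intro z hz w hw p q hp hq hpq
  refine ⟨?_, ?_⟩
  · have := hs hz.1 hw.1 hp hq hpq
    simpa using this
  · have := ht hz.2 hw.2 hp hq hpq
    simpa using this

/-- connectedness of `A₁ × B ∪ A × B₁` -/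
private theorem cross_connected {A A₁ B B₁ : Set ℝ} (hA : Convex ℝ A) (hA₁ : Convex ℝ A₁)
    (hB : Convex ℝ B) (hB₁ : Convex ℝ B₁) (hsA : A₁ ⊆ A) (hsB : B₁ ⊆ B) (hAn : A.Nonempty)
    (hBn : B.Nonempty) (h : A₁.Nonempty ∨ B₁.Nonempty) : IsConnected (A₁ ×ℂ B ∪ A ×ℂ B₁) := by
  rcases A₁.eq_empty_or_nonempty with hA1 | ⟨p, hp⟩
  · have hB1 : B₁.Nonempty := by
      rcases h with h | h
      · rw [hA1] at h
        exact absurd h not_nonempty_empty
      · exact h
    have h1 : A₁ ×ℂ B ∪ A ×ℂ B₁ = A ×ℂ B₁ := by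
      rw [hA1]
      ext z
      simp [Complex.mem_reProdIm]
    rw [h1]
    exact (convex_prod hA hB₁).isConnected (Complex.reProdIm_nonempty.2 ⟨hAn, hB1⟩)
  · rcases B₁.eq_empty_or_nonempty with hB1 | ⟨q, hq⟩
    · have h1 : A₁ ×ℂ B ∪ A ×ℂ B₁ = A₁ ×ℂ B := by
        rw [hB1]
        ext z
        simp [Complex.mem_reProdIm]
      rw [h1]
      exact (convex_prod hA₁ hB).isConnected (Complex.reProdIm_nonempty.2 ⟨⟨p, hp⟩, hBn⟩)
    · refine IsConnected.union ⟨⟨p, q⟩, ⟨hp, hsB hq⟩, ⟨hsA hp, hq⟩⟩ ?_ ?_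
      · exact (convex_prod hA₁ hB).isConnected (Complex.reProdIm_nonempty.2 ⟨⟨p, hp⟩, hBn⟩)
      · exact (convex_prod hA hB₁).isConnected (Complex.reProdIm_nonempty.2 ⟨hAn, ⟨q, hq⟩⟩)

private theorem subset_box {w : ℂ} {s ε : ℝ} (hse : s ≤ ε / 2) :
    Ioo (w.re - s) (w.re + s) ×ℂ Ioo (w.im - s) (w.im + s) ⊆ ball w ε := by
  intro z hz
  rw [Complex.mem_reProdIm] at hz
  obtain ⟨⟨a1, a2⟩, a3, a4⟩ := hz
  rw [mem_ball, Complex.dist_eq]
  have h3 : |(z - w).re| < s := by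
    rw [Complex.sub_re, abs_lt]
    constructor <;> linarith
  have h4 : |(z - w).im| < s := by
    rw [Complex.sub_im, abs_lt]
    constructor <;> linarith
  have h5 := Complex.norm_le_abs_re_add_abs_im (z - w)
  linarith

private theorem box_bd (I J : Set ℝ) (a b c d : ℝ) : I ×ℂ J ∩ Bd a b c d =
    (I ∩ (({a, b} : Set ℝ) ∩ Icc a b)) ×ℂ (J ∩ Icc c d) ∪
    (I ∩ Icc a b) ×ℂ (J ∩ (({c, d} : Set ℝ) ∩ Icc c d)) := by
  rw [bd_eq]
  ext z
  simp only [mem_inter_iff, mem_union, Complex.mem_reProdIm]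
  tauto

private theorem box_int (I J : Set ℝ) (a b c d : ℝ) :
    I ×ℂ J ∩ (Rect a b c d \ Bd a b c d) = (I ∩ Ioo a b) ×ℂ (J ∩ Ioo c d) := by
  ext z
  simp only [Rect, Bd, mem_inter_iff, Set.mem_sdiff, mem_ofPred_eq, Complex.mem_reProdIm, mem_Ioo]
  constructor
  · rintro ⟨⟨h1, h2⟩, ⟨h3, h4, h5, h6⟩, h7⟩
    have h8 : ¬ (z.re = a ∨ z.re = b ∨ z.im = c ∨ z.im = d) := fun h => h7 ⟨⟨h3, h4, h5, h6⟩, h⟩
    push Not at h8
    obtain ⟨h9, h10, h11, h12⟩ := h8
    exact ⟨⟨h1, lt_of_le_of_ne h3 (Ne.symm h9), lt_of_le_of_ne h4 h10⟩,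
      h2, lt_of_le_of_ne h5 (Ne.symm h11), lt_of_le_of_ne h6 h12⟩
  · rintro ⟨⟨h1, h2, h3⟩, h4, h5, h6⟩
    refine ⟨⟨h1, h4⟩, ⟨h2.le, h3.le, h5.le, h6.le⟩, ?_⟩
    rintro ⟨_, h | h | h | h⟩ <;> linarith

private theorem box_ext (I J : Set ℝ) (a b c d : ℝ) :
    I ×ℂ J \ Rect a b c d = (I \ Icc a b) ×ℂ J ∪ I ×ℂ (J \ Icc c d) := by
  rw [rect_eq]
  ext z
  simp only [Set.mem_sdiff, mem_union, Complex.mem_reProdIm]
  tauto

theorem local_rect {a b c d : ℝ} (hab : a < b) (hcd : c < d) {w : ℂ} (hw : w ∈ Bd a b c d)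
    {ε : ℝ} (hε : 0 < ε) : ∃ V ⊆ ball w ε, IsOpen V ∧ w ∈ V ∧
      IsConnected (V ∩ Bd a b c d) ∧ IsConnected (V ∩ (Rect a b c d \ Bd a b c d)) ∧
      IsConnected (V \ Rect a b c d) := by
  obtain ⟨⟨hw1, hw2, hw3, hw4⟩, hw5⟩ := hw
  obtain ⟨s₁, hs₁, H1⟩ := one_dim hab (x := w.re) ⟨hw1, hw2⟩
  obtain ⟨s₂, hs₂, H2⟩ := one_dim hcd (x := w.im) ⟨hw3, hw4⟩
  obtain ⟨s, hs0, hse, hs1, hs2⟩ : ∃ s, 0 < s ∧ s ≤ ε / 2 ∧ s ≤ s₁ ∧ s ≤ s₂ :=
    ⟨min (ε / 2) (min s₁ s₂), lt_min (by linarith) (lt_min hs₁ hs₂), min_le_left _ _,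
      (min_le_right _ _).trans (min_le_left _ _), (min_le_right _ _).trans (min_le_right _ _)⟩
  obtain ⟨x1, x2, x3, x4⟩ := H1 s hs0 hs1
  obtain ⟨y1, y2, y3, y4⟩ := H2 s hs0 hs2
  have hwI : w.re ∈ Ioo (w.re - s) (w.re + s) := mem_Ioo.2 ⟨by linarith, by linarith⟩
  have hwJ : w.im ∈ Ioo (w.im - s) (w.im + s) := mem_Ioo.2 ⟨by linarith, by linarith⟩
  have hwI2 : w.re ∈ Icc a b := ⟨hw1, hw2⟩
  have hwJ2 : w.im ∈ Icc c d := ⟨hw3, hw4⟩
  have hsub : ∀ (x : ℝ) (a b : ℝ), Convex ℝ (Ioo (x - s) (x + s) ∩ Icc a b) := fun x a b =>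
    (convex_Ioo _ _).inter (convex_Icc _ _)
  have h2 : (w.re = a ∨ w.re = b) ∨ (w.im = c ∨ w.im = d) := by
    rcases hw5 with h | h | h | h
    · exact Or.inl (Or.inl h)
    · exact Or.inl (Or.inr h)
    · exact Or.inr (Or.inl h)
    · exact Or.inr (Or.inr h)
  have hcI : Convex ℝ (Ioo (w.re - s) (w.re + s)) := convex_Ioo _ _
  have hcJ : Convex ℝ (Ioo (w.im - s) (w.im + s)) := convex_Ioo _ _
  have hcI1 : Convex ℝ (Ioo (w.re - s) (w.re + s) ∩ Icc a b) := hsub _ _ _
  have hcJ1 : Convex ℝ (Ioo (w.im - s) (w.im + s) ∩ Icc c d) := hsub _ _ _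
  have hcI2 : Convex ℝ (Ioo (w.re - s) (w.re + s) ∩ Ioo a b) := hcI.inter (convex_Ioo _ _)
  have hcJ2 : Convex ℝ (Ioo (w.im - s) (w.im + s) ∩ Ioo c d) := hcJ.inter (convex_Ioo _ _)
  have hoI : IsOpen (Ioo (w.re - s) (w.re + s)) := isOpen_Ioo
  have hoJ : IsOpen (Ioo (w.im - s) (w.im + s)) := isOpen_Ioo
  have hball := subset_box (w := w) hse
  generalize Ioo (w.re - s) (w.re + s) = I at *
  generalize Ioo (w.im - s) (w.im + s) = J at *
  refine ⟨I ×ℂ J, hball, hoI.reProdIm hoJ, Complex.mem_reProdIm.2 ⟨hwI, hwJ⟩, ?_, ?_, ?_⟩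
  · -- the boundary
    rw [box_bd]
    refine cross_connected hcI1 ?_ hcJ1 ?_ ?_ ?_ ⟨w.re, hwI, hwI2⟩ ⟨w.im, hwJ, hwJ2⟩ ?_
    · by_cases h : w.re = a ∨ w.re = b
      · rw [(x1 h).1]; exact convex_singleton _
      · rw [(x2 h).1]; exact convex_empty
    · by_cases h : w.im = c ∨ w.im = d
      · rw [(y1 h).1]; exact convex_singleton _
      · rw [(y2 h).1]; exact convex_empty
    · exact fun z hz => ⟨hz.1, hz.2.2⟩
    · exact fun z hz => ⟨hz.1, hz.2.2⟩
    · rcases h2 with h2 | h2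
      · left; rw [(x1 h2).1]; exact singleton_nonempty _
      · right; rw [(y1 h2).1]; exact singleton_nonempty _
  · -- the interior
    rw [box_int]
    exact (convex_prod hcI2 hcJ2).isConnected (Complex.reProdIm_nonempty.2 ⟨x4, y4⟩)
  · -- the exterior
    rw [box_ext]
    refine cross_connected hcI x3 hcJ y3 (fun z hz => hz.1) (fun z hz => hz.1) ⟨_, hwI⟩ ⟨_, hwJ⟩ ?_
    rcases h2 with h2 | h2
    · left; exact (x1 h2).2
    · right; exact (y1 h2).2

end DS

end S_H36_DS_PB
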