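import Pool.Agent.H12.KS.K01

/-! Joined modules of the proof of MP_8a27c0_an (one section per module). -/

section S_H36_DS_RA

/-!
RA (Montel).  Proof.  Equicontinuity on compacta from the Cauchy estimate: if `closedBall z (2r) ⊆ U` then
`‖deriv (F n)‖ ≤ 1/r` on `ball z r`, so `F n` is `1/r`-Lipschitz there.  Take a countable dense subset
`D` of `U` (e.g. points with rational coordinates), a diagonal subsequence converging at all points of `D`
(bounded sequences in `ℂ`, `Mathlib`: `tendsto_subseq_of_bounded` / compactness of the countable product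
`Pi` of closed balls: the sequence `n ↦ (F n restricted to D)` lives in a compact metrizable space, so it
has a convergent subsequence).  Equi-Lipschitz + pointwise convergence on a dense set gives a uniform
Cauchy sequence on each small ball, hence local uniform convergence on `U` to the pointwise limit `f`;
`f` is holomorphic by `TendstoLocallyUniformlyOn.differentiableOn`.
-/

namespace DS
open Metric Set Filter Topology

theorem RA_lip {U : Set ℂ} {f : ℂ → ℂ} (hd : DifferentiableOn ℂ f U)
    (hb : ∀ z ∈ U, ‖f z‖ ≤ 1) {z : ℂ} {r : ℝ} (hr : 0 < r) (hz : closedBall z (2 * r) ⊆ U)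
    {x : ℂ} (hx : x ∈ ball z r) : ‖f x - f z‖ ≤ 1 / r * ‖x - z‖ := by
  have hsub : ∀ w ∈ ball z r, closedBall w r ⊆ U := by
    intro w hw y hy
    refine hz ?_
    rw [mem_closedBall] at hy ⊢
    rw [mem_ball] at hw
    calc dist y z ≤ dist y w + dist w z := dist_triangle _ _ _
      _ ≤ 2 * r := by linarith
  have hder : ∀ w ∈ ball z r, ‖deriv f w‖ ≤ 1 / r := by
    intro w hw
    refine Complex.norm_deriv_le_of_forall_mem_sphere_norm_le hr ?_ ?_
    · refine DifferentiableOn.diffContOnCl ?_
      rw [closure_ball w hr.ne']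
      exact hd.mono (hsub w hw)
    · intro y hy
      exact hb y (hsub w hw (sphere_subset_closedBall hy))
  have hdiff : ∀ w ∈ ball z r, DifferentiableAt ℂ f w := by
    intro w hw
    refine hd.differentiableAt ?_
    exact mem_of_superset (closedBall_mem_nhds w hr) (hsub w hw)
  exact (convex_ball z r).norm_image_sub_le_of_norm_deriv_le hdiff hder (mem_ball_self hr) hx

theorem montel {U : Set ℂ} (hU : IsOpen U) (F : ℕ → ℂ → ℂ) (hd : ∀ n, DifferentiableOn ℂ (F n) U)
    (hb : ∀ n, ∀ z ∈ U, ‖F n z‖ ≤ 1) :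
    ∃ (k : ℕ → ℕ) (f : ℂ → ℂ), StrictMono k ∧ DifferentiableOn ℂ f U ∧
      TendstoLocallyUniformlyOn (fun n => F (k n)) f atTop U := by
  classical
  set d : ℕ → ℂ := TopologicalSpace.denseSeq ℂ with hdd
  set G : ℕ → ℕ → ℂ := fun n i => if d i ∈ U then F n (d i) else 0 with hG
  have hK : IsCompact (Set.univ.pi fun _ : ℕ => closedBall (0 : ℂ) 1) :=
    isCompact_univ_pi fun _ => isCompact_closedBall _ _
  have hGK : ∀ n, G n ∈ Set.univ.pi fun _ : ℕ => closedBall (0 : ℂ) 1 := by
    intro n i _
    rw [mem_closedBall, dist_zero_right]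
    simp only [hG]
    split_ifs with h
    · exact hb n _ h
    · simp
  obtain ⟨g, -, k, hk, hlim⟩ := hK.tendsto_subseq hGK
  have hlimD : ∀ i, d i ∈ U → Tendsto (fun n => F (k n) (d i)) atTop (𝓝 (g i)) := by
    intro i hi
    have := (tendsto_pi_nhds.1 hlim) i
    refine this.congr fun n => ?_
    simp only [hG, Function.comp, if_pos hi]
  have hrad : ∀ z ∈ U, ∃ r > 0, closedBall z (2 * r) ⊆ U := by
    intro z hz
    obtain ⟨r, hr, h⟩ := Metric.nhds_basis_closedBall.mem_iff.1 (hU.mem_nhds hz)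
    refine ⟨r / 2, by positivity, ?_⟩
    rwa [mul_div_cancel₀ r (two_ne_zero)]
  have hcau : ∀ z ∈ U, ∃ l, Tendsto (fun n => F (k n) z) atTop (𝓝 l) := by
    intro z hz
    refine cauchySeq_tendsto_of_complete ?_
    obtain ⟨r, hr, hball⟩ := hrad z hz
    refine Metric.cauchySeq_iff'.2 fun ε hε => ?_
    have hδ : 0 < min r (ε * r / 4) := lt_min hr (by positivity)
    obtain ⟨x, hx, i, rfl⟩ := (TopologicalSpace.denseRange_denseSeq ℂ).exists_mem_open
      (isOpen_ball (x := z) (ε := min r (ε * r / 4))) ⟨z, mem_ball_self hδ⟩ |>.elim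
      fun i hi => (⟨_, hi, i, rfl⟩ : ∃ x ∈ ball z (min r (ε * r / 4)), ∃ i, d i = x)
    have hxr : d i ∈ ball z r := ball_subset_ball (min_le_left _ _) hx
    have hxU : d i ∈ U := hball (ball_subset_closedBall
      (ball_subset_ball (by linarith) hxr))
    have hxe : ‖d i - z‖ < ε * r / 4 := by
      rw [mem_ball, dist_eq_norm] at hx
      exact lt_of_lt_of_le hx (min_le_right _ _)
    have hclose : ∀ n, dist (F (k n) (d i)) (F (k n) z) < ε / 4 := by
      intro n
      rw [dist_eq_norm]
      refine lt_of_le_of_lt (RA_lip (hd _) (hb _) hr hball hxr) ?_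
      rw [one_div, inv_mul_lt_iff₀ hr]
      linarith
    obtain ⟨N, hN⟩ := Metric.cauchySeq_iff'.1 (hlimD i hxU).cauchySeq (ε / 4) (by positivity)
    refine ⟨N, fun n hn => ?_⟩
    have h1 := hN n hn
    have h2 := hclose n
    have h3 := hclose N
    calc dist (F (k n) z) (F (k N) z) ≤ dist (F (k n) z) (F (k n) (d i)) +
          dist (F (k n) (d i)) (F (k N) (d i)) + dist (F (k N) (d i)) (F (k N) z) :=
          dist_triangle4 _ _ _ _
      _ < ε := by
          rw [dist_comm (F (k n) z)]
          linarith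
  choose! f hf using hcau
  have hloc : TendstoLocallyUniformlyOn (fun n => F (k n)) f atTop U := by
    rw [Metric.tendstoLocallyUniformlyOn_iff]
    intro ε hε z hz
    obtain ⟨r, hr, hball⟩ := hrad z hz
    have hδ : 0 < min r (ε * r / 4) := lt_min hr (by positivity)
    refine ⟨ball z (min r (ε * r / 4)), mem_nhdsWithin_of_mem_nhds (ball_mem_nhds z hδ), ?_⟩
    have hclose : ∀ y ∈ ball z (min r (ε * r / 4)), ∀ n, dist (F (k n) y) (F (k n) z) ≤ ε / 4 := by
      intro y hy n
      have hyr : y ∈ ball z r := ball_subset_ball (min_le_left _ _) hy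
      rw [dist_eq_norm]
      refine (RA_lip (hd _) (hb _) hr hball hyr).trans ?_
      rw [mem_ball, dist_eq_norm] at hy
      have := lt_of_lt_of_le hy (min_le_right _ _)
      rw [one_div, inv_mul_le_iff₀ hr]
      linarith
    have hclosef : ∀ y ∈ ball z (min r (ε * r / 4)), dist (f y) (f z) ≤ ε / 4 := by
      intro y hy
      have hyr : y ∈ ball z r := ball_subset_ball (min_le_left _ _) hy
      have hyU : y ∈ U := hball (ball_subset_closedBall (ball_subset_ball (by linarith) hyr))
      exact le_of_tendsto ((hf y hyU).dist (hf z hz)) (Eventually.of_forall (hclose y hy))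
    filter_upwards [Metric.tendsto_nhds.1 (hf z hz) (ε / 4) (by positivity)] with n hn y hy
    have h1 := hclosef y hy
    have h2 := hclose y hy n
    calc dist (f y) (F (k n) y) ≤ dist (f y) (f z) + dist (f z) (F (k n) z) +
          dist (F (k n) z) (F (k n) y) := dist_triangle4 _ _ _ _
      _ < ε := by
          rw [dist_comm (f z), dist_comm (F (k n) z) (F (k n) y)]
          linarith
  exact ⟨k, f, hk, hloc.differentiableOn (Eventually.of_forall fun n => hd _) hU, hloc⟩

end DS

end S_H36_DS_RA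

section S_H36_DS_RB

/-!
RB (Hurwitz).  Proof.  Suppose `f a = f b` with `a ≠ b` in `U` and `f` not constant on `U`.
`g n z = F n z - F n a` has no zero in `U \ {a}` (injectivity) and converges locally uniformly to
`g z = f z - f a`, not identically zero on the connected set `U`, with an isolated zero at `b`
(`AnalyticAt.eventually_eq_zero_or_eventually_ne_zero` and the identity theorem).  Choose a closed ball
about `b`, inside `U`, not containing `a`, with `g ≠ 0` on its boundary sphere, so `‖g‖ ≥ 2c` there and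
`‖g n‖ ≥ c` there for large `n`.  `1 / g n` is holomorphic near the closed ball, so by the maximum
modulus principle `1/‖g n b‖ ≤ 1/c`, i.e. `‖g n b‖ ≥ c`; but `g n b → g b = 0`.  Contradiction.
(`f` is holomorphic as a locally uniform limit.)
-/

namespace DS
open Metric Set Filter Topology

theorem hurwitz_inj {U : Set ℂ} (hU : IsOpen U) (hc : IsPreconnected U) (F : ℕ → ℂ → ℂ) (f : ℂ → ℂ)
    (hd : ∀ n, DifferentiableOn ℂ (F n) U) (hi : ∀ n, InjOn (F n) U)
    (hlim : TendstoLocallyUniformlyOn F f atTop U) :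
    InjOn f U ∨ ∃ c, EqOn f (fun _ => c) U := by
  by_contra hcon
  push Not at hcon
  obtain ⟨h1, h2⟩ := hcon
  have hf : DifferentiableOn ℂ f U := hlim.differentiableOn (Eventually.of_forall hd) hU
  unfold InjOn at h1
  push Not at h1
  obtain ⟨a, ha, b, hb, hab, hne⟩ := h1
  have hg : AnalyticOnNhd ℂ (fun z => f z - f a) U :=
    (hf.sub (differentiableOn_const _)).analyticOnNhd hU
  have hgb : f b - f a = 0 := by rw [hab, sub_self]
  have hiso : ∀ᶠ z in 𝓝[≠] b, f z - f a ≠ 0 := by
    rcases (hg b hb).eventually_eq_zero_or_eventually_ne_zero with h | h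
    · exfalso
      refine h2 (f a) fun z hz => ?_
      have := hg.eqOn_zero_of_preconnected_of_eventuallyEq_zero hc hb h hz
      exact sub_eq_zero.1 this
    · exact h
  have hev : ∀ᶠ z in 𝓝 b, z ∈ U ∧ z ≠ a ∧ (z ≠ b → f z - f a ≠ 0) := by
    have e1 : ∀ᶠ z in 𝓝 b, z ∈ U := hU.mem_nhds hb
    have e2 : ∀ᶠ z in 𝓝 b, z ≠ a := isOpen_ne.mem_nhds (Ne.symm hne)
    exact e1.and (e2.and (eventually_nhdsWithin_iff.1 hiso))
  obtain ⟨r, hr, hball⟩ := Metric.nhds_basis_closedBall.eventually_iff.1 hev
  have hsubU : closedBall b r ⊆ U := fun z hz => (hball hz).1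
  have hsph : (sphere b r).Nonempty := NormedSpace.sphere_nonempty.2 hr.le
  have hgc : ContinuousOn (fun z => ‖f z - f a‖) (sphere b r) :=
    ((hf.continuousOn.mono (sphere_subset_closedBall.trans hsubU)).sub continuousOn_const).norm
  obtain ⟨z₀, hz₀, hmin⟩ := (isCompact_sphere b r).exists_isMinOn hsph hgc
  set c : ℝ := ‖f z₀ - f a‖ with hcdef
  have hz₀b : z₀ ≠ b := by
    rintro rfl
    rw [mem_sphere, dist_self] at hz₀
    exact hr.ne hz₀
  have hcpos : 0 < c := norm_pos_iff.2 ((hball (sphere_subset_closedBall hz₀)).2.2 hz₀b)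
  have hu : TendstoUniformlyOn F f atTop (closedBall b r) :=
    (tendstoLocallyUniformlyOn_iff_forall_isCompact hU).1 hlim _ hsubU (isCompact_closedBall b r)
  have hu1 := Metric.tendstoUniformlyOn_iff.1 hu (c / 4) (by positivity)
  have hu2 := Metric.tendsto_nhds.1 (hlim.tendsto_at ha) (c / 4) (by positivity)
  obtain ⟨n, hn1, hn2⟩ := (hu1.and hu2).exists
  have hclose : ∀ z ∈ closedBall b r, ‖(F n z - F n a) - (f z - f a)‖ < c / 2 := by
    intro z hz
    have e1 := hn1 z hz
    have e2 := hn2
    rw [dist_eq_norm] at e1 e2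
    calc ‖(F n z - F n a) - (f z - f a)‖ = ‖-(f z - F n z) - (F n a - f a)‖ := by
          congr 1
          ring
      _ ≤ ‖-(f z - F n z)‖ + ‖F n a - f a‖ := norm_sub_le _ _
      _ < c / 4 + c / 4 := by
          rw [norm_neg]
          exact add_lt_add e1 e2
      _ = c / 2 := by ring
  have hnz : ∀ z ∈ closedBall b r, F n z - F n a ≠ 0 := by
    intro z hz h
    exact (hball hz).2.1 (hi n (hsubU hz) ha (sub_eq_zero.1 h))
  have hsphlow : ∀ z ∈ sphere b r, c / 2 ≤ ‖F n z - F n a‖ := by
    intro z hz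
    have e1 := hclose z (sphere_subset_closedBall hz)
    have e2 : c ≤ ‖f z - f a‖ := hmin hz
    have e3 : ‖f z - f a‖ ≤ ‖F n z - F n a‖ + ‖(F n z - F n a) - (f z - f a)‖ := by
      calc ‖f z - f a‖ = ‖(F n z - F n a) - ((F n z - F n a) - (f z - f a))‖ := by
            congr 1
            ring
        _ ≤ _ := norm_sub_le _ _
    linarith
  have hdiff : DiffContOnCl ℂ (fun z => (F n z - F n a)⁻¹) (ball b r) := by
    have hdd : DifferentiableOn ℂ (fun z => (F n z - F n a)⁻¹) (closure (ball b r)) := by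
      rw [closure_ball b hr.ne']
      exact (((hd n).mono hsubU).sub (differentiableOn_const _)).inv hnz
    exact hdd.diffContOnCl
  have hmax := Complex.norm_le_of_forall_mem_frontier_norm_le (C := (c / 2)⁻¹) isBounded_ball hdiff
    (by
      intro z hz
      rw [frontier_ball b hr.ne'] at hz
      rw [norm_inv]
      exact inv_anti₀ (by positivity) (hsphlow z hz)) (subset_closure (mem_ball_self hr))
  rw [norm_inv] at hmax
  have e4 : c / 2 ≤ ‖F n b - F n a‖ := by
    have hp : 0 < ‖F n b - F n a‖ := norm_pos_iff.2 (hnz b (mem_closedBall_self hr.le))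
    exact (inv_le_inv₀ hp (by positivity)).1 hmax
  have e5 := hclose b (mem_closedBall_self hr.le)
  rw [hgb, sub_zero] at e5
  linarith

end DS

end S_H36_DS_RB

section S_H36_DS_RE

/-!
RE (the family is not empty).  Proof.  Take `p ∉ U` and a holomorphic square root `s` of `z - p` on `U`.
`s` is injective and `s z = - s w` is impossible for `z, w ∈ U` (it gives `z = w`, then `s z = 0`, `z = p`).
`s` is not constant on the (open, nonempty) set `U`, so `s '' U` contains a ball `ball c r` (open mapping,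
`U` connected; or: `deriv s z = 1 / (2 s z) ≠ 0` and the local inverse), hence `‖s z + c‖ ≥ r` for all
`z ∈ U`.  Then `f z = (r / 2) / (s z + c)` is holomorphic and injective on `U` with `‖f z‖ ≤ 1/2`.
(Compare the proof of `Complex.exists_mapsTo_unitBall_injOn_deriv_ne_zero` in Mathlib.)
-/

namespace DS
open Metric Set Filter Topology

theorem fam_nonempty {U : Set ℂ} (hU : IsOpen U) (hc : IsConnected U) (hne : U ≠ univ)
    (hsq : ∀ f : ℂ → ℂ, DifferentiableOn ℂ f U → (∀ z ∈ U, f z ≠ 0) →
      ∃ s : ℂ → ℂ, DifferentiableOn ℂ s U ∧ ∀ z ∈ U, s z ^ 2 = f z) :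
    (Fam U).Nonempty := by
  obtain ⟨p, hp⟩ : ∃ p, p ∉ U := by
    by_contra hcon
    push Not at hcon
    exact hne (eq_univ_of_forall hcon)
  have hzp : ∀ z ∈ U, z - p ≠ 0 := by
    intro z hz h
    exact hp ((sub_eq_zero.1 h) ▸ hz)
  obtain ⟨s, hsd, hs⟩ := hsq (fun z => z - p) (by fun_prop) hzp
  have hs0 : ∀ z ∈ U, s z ≠ 0 := by
    intro z hz h
    apply hzp z hz
    have := hs z hz
    rw [h] at this
    simpa using this.symm
  obtain ⟨x, hx⟩ := hc.nonempty
  have hder : HasStrictDerivAt s (2 * s x)⁻¹ x := by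
    refine HasStrictDerivAt.of_local_left_inverse (f := fun w => w ^ 2 + p) ?_ ?_ ?_ ?_
    · exact (hsd.differentiableAt (hU.mem_nhds hx)).continuousAt
    · simpa using (hasStrictDerivAt_pow 2 (s x)).add_const p
    · simpa using hs0 x hx
    · filter_upwards [hU.mem_nhds hx] with z hz
      rw [hs z hz]
      ring
  have himg : s '' U ∈ 𝓝 (s x) := by
    rw [← hder.map_nhds_eq (by simpa using hs0 x hx)]
    exact Filter.image_mem_map (hU.mem_nhds hx)
  obtain ⟨r, hr, hball⟩ := Metric.mem_nhds_iff.1 himg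
  have hfar : ∀ z ∈ U, r ≤ ‖s z + s x‖ := by
    intro z hz
    by_contra hcon
    push Not at hcon
    have h1 : - s z ∈ ball (s x) r := by
      rw [mem_ball, dist_eq_norm]
      have : - s z - s x = -(s z + s x) := by ring
      rw [this, norm_neg]
      exact hcon
    obtain ⟨w, hw, hws⟩ := hball h1
    have h2 : z = w := by
      have e1 := hs z hz
      have e2 := hs w hw
      rw [hws] at e2
      have e3 : (- s z) ^ 2 = s z ^ 2 := by ring
      rw [e3, e1] at e2
      simpa using e2
    rw [← h2] at hws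
    apply hs0 z hz
    linear_combination hws / 2
  have hne0 : ∀ z ∈ U, s z + s x ≠ 0 := by
    intro z hz h
    have := hfar z hz
    rw [h, norm_zero] at this
    linarith
  refine ⟨fun z => ((r / 2 : ℝ) : ℂ) / (s z + s x), ?_, ?_, ?_⟩
  · refine DifferentiableOn.div (differentiableOn_const _) (hsd.add_const _) hne0
  · intro z hz
    rw [mem_ball_zero_iff, norm_div, Complex.norm_real, Real.norm_of_nonneg (by positivity),
      div_lt_one (norm_pos_iff.2 (hne0 z hz))]
    have := hfar z hz
    linarith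
  · intro z hz w hw h
    simp only at h
    have h3 : ((r / 2 : ℝ) : ℂ) ≠ 0 := by
      exact_mod_cast (by positivity : (r / 2 : ℝ) ≠ 0)
    rw [div_eq_div_iff (hne0 z hz) (hne0 w hw)] at h
    have h4 := mul_left_cancel₀ h3 h
    have h5 : s w = s z := by linear_combination h4
    have e1 := hs z hz
    have e2 := hs w hw
    rw [h5, e1] at e2
    simpa using e2

end DS

end S_H36_DS_RE

section S_H36_DS_RG

/-!
RG (primitives from closed polygons).  Proof.  First `polyI` is additive under concatenation: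
`polyI f (l₁ ++ [b]) + polyI f (b :: l₂) = polyI f (l₁ ++ b :: l₂)` and changes sign under reversal
(`segI f a b = - segI f b a` by the substitution `t ↦ 1 - t`).  Fix `z₀ ∈ U`.  Every `z ∈ U` is the end of a
polygon in `U` starting at `z₀` (`U` open connected: the set of such points is open and closed in `U`);
put `F z = polyI f L` for any such polygon (well defined by the hypothesis applied to `L` followed by the
reverse of `L'`).  On a ball around `z` inside `U`: `F w - F z = segI f z w`, and continuity of `f` at `z`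
gives `HasDerivAt F (f z) z` (`‖segI f z w - (w - z) * f z‖ ≤ ε ‖w - z‖`).
-/

namespace DS
open Metric Set Filter Topology

theorem RG_segI_symm (f : ℂ → ℂ) (a b : ℂ) : segI f b a = -segI f a b := by
  unfold segI
  have h : (∫ t in (0:ℝ)..1, f (b + t * (a - b))) = ∫ t in (0:ℝ)..1, f (a + t * (b - a)) := by
    have h1 := intervalIntegral.integral_comp_sub_left (a := (0:ℝ)) (b := 1)
      (fun t : ℝ => f (a + t * (b - a))) 1
    rw [sub_zero, sub_self] at h1
    rw [← h1]
    refine intervalIntegral.integral_congr fun t _ => ?_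
    congr 1
    push_cast
    ring
  rw [h]
  ring

theorem RG_poly_append (f : ℂ → ℂ) (l₁ l₂ : List ℂ) (b c : ℂ) : ∀ a : ℂ,
    polyI f (a :: (l₁ ++ b :: (l₂ ++ [c]))) =
      polyI f (a :: (l₁ ++ [b])) + polyI f (b :: (l₂ ++ [c])) := by
  induction l₁ with
  | nil => intro a; simp [polyI]
  | cons x l ih =>
    intro a
    simp only [List.cons_append, polyI]
    rw [ih x, add_assoc]

theorem RG_in_append {U : Set ℂ} (l₁ l₂ : List ℂ) (b c : ℂ) : ∀ a : ℂ,
    PolyIn U (a :: (l₁ ++ [b])) → PolyIn U (b :: (l₂ ++ [c])) →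
      PolyIn U (a :: (l₁ ++ b :: (l₂ ++ [c]))) := by
  induction l₁ with
  | nil =>
    intro a h1 h2
    exact ⟨h1.1, h2⟩
  | cons x l ih =>
    intro a h1 h2
    exact ⟨h1.1, ih x h1.2 h2⟩

/-- there is a polygon in `U` from `a` to `b` with integral `v` -/
def RG_R (U : Set ℂ) (f : ℂ → ℂ) (a b v : ℂ) : Prop :=
  ∃ l : List ℂ, PolyIn U (a :: (l ++ [b])) ∧ polyI f (a :: (l ++ [b])) = v

theorem RG_trans {U : Set ℂ} {f : ℂ → ℂ} {a b c v w : ℂ} (h1 : RG_R U f a b v)
    (h2 : RG_R U f b c w) : RG_R U f a c (v + w) := by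
  obtain ⟨l₁, h11, h12⟩ := h1
  obtain ⟨l₂, h21, h22⟩ := h2
  refine ⟨l₁ ++ b :: l₂, ?_, ?_⟩
  · have := RG_in_append l₁ l₂ b c a h11 h21
    simpa using this
  · have := RG_poly_append f l₁ l₂ b c a
    rw [h12, h22] at this
    rw [← this]
    simp

theorem RG_seg {U : Set ℂ} {f : ℂ → ℂ} {a b : ℂ} (h : segment ℝ a b ⊆ U) :
    RG_R U f a b (segI f a b) :=
  ⟨[], ⟨h, h (right_mem_segment ℝ a b)⟩, by simp [polyI]⟩

theorem RG_symm {U : Set ℂ} {f : ℂ → ℂ} (l : List ℂ) (b : ℂ) : ∀ a : ℂ,
    PolyIn U (a :: (l ++ [b])) → RG_R U f b a (-polyI f (a :: (l ++ [b]))) := by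
  induction l with
  | nil =>
    intro a h
    have h1 : segment ℝ b a ⊆ U := by rw [segment_symm]; exact h.1
    have h2 := RG_seg (f := f) h1
    rw [RG_segI_symm] at h2
    simpa [polyI] using h2
  | cons x l ih =>
    intro a h
    have h1 : segment ℝ x a ⊆ U := by rw [segment_symm]; exact h.1
    have h2 := RG_trans (ih x h.2) (RG_seg (f := f) h1)
    rw [RG_segI_symm] at h2
    have e : -polyI f (a :: (x :: l ++ [b])) = -polyI f (x :: (l ++ [b])) + -segI f a x := by
      simp only [List.cons_append, polyI]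
      ring
    rw [e]
    exact h2

theorem RG_sub {U : Set ℂ} (hU : IsOpen U) {z : ℂ} (hz : z ∈ U) :
    ∀ᶠ w in 𝓝 z, segment ℝ z w ⊆ U := by
  obtain ⟨r, hr, hb⟩ := Metric.isOpen_iff.mp hU z hz
  filter_upwards [Metric.ball_mem_nhds z hr] with w hw
  exact ((convex_ball z r).segment_subset (mem_ball_self hr) hw).trans hb

theorem prim_of_poly {U : Set ℂ} (hU : IsOpen U) (hc : IsConnected U) {f : ℂ → ℂ}
    (hf : ContinuousOn f U)
    (hp : ∀ (a : ℂ) (l : List ℂ), PolyIn U (a :: (l ++ [a])) → polyI f (a :: (l ++ [a])) = 0) :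
    ∃ F : ℂ → ℂ, ∀ z ∈ U, HasDerivAt F (f z) z := by
  classical
  obtain ⟨z₀, hz₀⟩ := hc.nonempty
  have hsym : ∀ a b v, RG_R U f a b v → RG_R U f b a (-v) := by
    rintro a b v ⟨l, h1, rfl⟩
    exact RG_symm l b a h1
  have hex : ∀ z ∈ U, ∃ v, RG_R U f z₀ z v := by
    intro z hz
    refine hc.isPreconnected.induction₂ (fun a b => ∃ v, RG_R U f a b v) ?_ ?_ ?_ hz₀ hz
    · intro x hx
      filter_upwards [nhdsWithin_le_nhds (RG_sub hU hx)] with y hy
      exact ⟨_, RG_seg hy⟩
    · rintro x y z _ _ _ ⟨v, hv⟩ ⟨w, hw⟩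
      exact ⟨_, RG_trans hv hw⟩
    · rintro x y _ _ ⟨v, hv⟩
      exact ⟨_, hsym _ _ _ hv⟩
  have huni : ∀ z v w, RG_R U f z₀ z v → RG_R U f z₀ z w → v = w := by
    intro z v w hv hw
    obtain ⟨l, h1, h2⟩ := RG_trans hv (hsym _ _ _ hw)
    rw [hp z₀ l h1] at h2
    exact (sub_eq_zero.mp (by rw [sub_eq_add_neg]; exact h2.symm))
  choose! F hF using hex
  refine ⟨F, fun z hz => ?_⟩
  have hFw : ∀ w, segment ℝ z w ⊆ U → F w - F z = segI f z w := by
    intro w hw
    have hwU : w ∈ U := hw (right_mem_segment ℝ z w)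
    rw [huni w _ _ (hF w hwU) (RG_trans (hF z hz) (RG_seg hw))]
    ring
  rw [hasDerivAt_iff_isLittleO, Asymptotics.isLittleO_iff]
  intro ε hε
  have hcz : ContinuousAt f z := hf.continuousAt (hU.mem_nhds hz)
  obtain ⟨r, hr, hb⟩ := Metric.isOpen_iff.mp hU z hz
  obtain ⟨δ, hδ, hδ'⟩ := Metric.continuousAt_iff.mp hcz ε hε
  filter_upwards [Metric.ball_mem_nhds z (lt_min hr hδ)] with w hw
  have hseg : segment ℝ z w ⊆ ball z (min r δ) :=
    (convex_ball z _).segment_subset (mem_ball_self (lt_min hr hδ)) hw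
  have hsegU : segment ℝ z w ⊆ U := (hseg.trans (ball_subset_ball (min_le_left _ _))).trans hb
  rw [hFw w hsegU]
  have hmem : ∀ t ∈ Icc (0:ℝ) 1, z + (t:ℂ) * (w - z) ∈ segment ℝ z w := by
    intro t ht
    rw [segment_eq_image']
    exact ⟨t, ht, by simp⟩
  have hint : IntervalIntegrable (fun t : ℝ => f (z + t * (w - z))) MeasureTheory.volume 0 1 := by
    apply ContinuousOn.intervalIntegrable
    rw [uIcc_of_le zero_le_one]
    exact hf.comp (by fun_prop) fun t ht => hsegU (hmem t ht)
  have e : segI f z w - (w - z) • f z = (w - z) * ∫ t in (0:ℝ)..1, (f (z + t * (w - z)) - f z) := by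
    rw [intervalIntegral.integral_sub hint intervalIntegrable_const]
    simp only [intervalIntegral.integral_const, sub_zero, one_smul, smul_eq_mul]
    unfold segI
    ring
  rw [e, norm_mul, mul_comm]
  apply mul_le_mul_of_nonneg_right _ (norm_nonneg _)
  have h1 := intervalIntegral.norm_integral_le_of_norm_le_const (a := (0:ℝ)) (b := 1) (C := ε)
    (f := fun t : ℝ => f (z + t * (w - z)) - f z) ?_
  · simpa using h1
  · intro t ht
    rw [uIoc_of_le zero_le_one] at ht
    have h2 := hseg (hmem t ⟨ht.1.le, ht.2⟩)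
    rw [← dist_eq_norm]
    exact (hδ' ((mem_ball.mp h2).trans_le (min_le_right _ _))).le

end DS

end S_H36_DS_RG
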