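import Pool.Agent.H12.KS.K01

/-! Joined modules of the proof of MP_8a27c0_an (one section per module). -/

section S_H36_DS_RI

/-!
RI (injective holomorphic functions have nonzero derivative).  Search Mathlib first.  Proof otherwise:
WLOG `z = 0`, `f 0 = 0`.  If `deriv f 0 = 0` then `f w = w ^ n * g w` near `0` with `n ≥ 2`, `g 0 ≠ 0`
(finite order of vanishing: `f` is not locally constant by injectivity).  Choose a holomorphic `n`-th root
`k` of `g` near `0` (`g` close to `g 0 ≠ 0`), so `f w = (w * k w) ^ n`; the function `p w = w * k w` has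
`p 0 = 0`, `deriv p 0 = k 0 ≠ 0`, hence it is open at `0` and takes the two values `t` and
`t * exp (2 π i / n)` for small `t ≠ 0` at two different points, where `f` takes the same value.
-/

namespace DS
open Metric Set Filter Topology

/-- Holomorphic `n`-th root near a point where the function does not vanish. -/
theorem RI_root {g : ℂ → ℂ} {z : ℂ} (hg : AnalyticAt ℂ g z) (hgz : g z ≠ 0) {n : ℕ} (hn : n ≠ 0) :
    ∃ k : ℂ → ℂ, AnalyticAt ℂ k z ∧ k z ≠ 0 ∧ ∀ᶠ w in 𝓝 z, k w ^ n = g w := by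
  obtain ⟨c, hc⟩ : ∃ c : ℂ, c ^ n = g z := IsAlgClosed.exists_pow_nat_eq (g z) (Nat.pos_of_ne_zero hn)
  have hc0 : c ≠ 0 := by
    rintro rfl
    rw [zero_pow hn] at hc
    exact hgz hc.symm
  have h1 : AnalyticAt ℂ (fun w => g w / g z) z := hg.div analyticAt_const hgz
  have h2 : (fun w => g w / g z) z ∈ Complex.slitPlane := by
    simp only [div_self hgz]
    exact Complex.one_mem_slitPlane
  have hl : AnalyticAt ℂ (fun w => Complex.log (g w / g z)) z := h1.clog h2
  refine ⟨fun w => c * Complex.exp (Complex.log (g w / g z) / n), ?_, ?_, ?_⟩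
  · have h3 : AnalyticAt ℂ (fun w => Complex.log (g w / g z) / n) z :=
      hl.div analyticAt_const (by exact_mod_cast hn)
    exact analyticAt_const.mul h3.cexp
  · exact mul_ne_zero hc0 (Complex.exp_ne_zero _)
  · have h4 : ∀ᶠ w in 𝓝 z, g w ≠ 0 := hg.continuousAt.eventually_ne hgz
    filter_upwards [h4] with w hw
    rw [mul_pow, hc, ← Complex.exp_nat_mul, mul_div_cancel₀ _ (by exact_mod_cast hn),
      Complex.exp_log (div_ne_zero hw hgz), mul_div_cancel₀ _ hgz]

theorem deriv_ne_zero_of_injOn {U : Set ℂ} (hU : IsOpen U) {f : ℂ → ℂ} (hf : DifferentiableOn ℂ f U)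
    (hi : InjOn f U) {z : ℂ} (hz : z ∈ U) : deriv f z ≠ 0 := by
  intro hd
  have hUz : U ∈ 𝓝 z := hU.mem_nhds hz
  have hfa : AnalyticAt ℂ f z := hf.analyticAt hUz
  have hFa : AnalyticAt ℂ (fun w => f w - f z) z := hfa.sub analyticAt_const
  have hne : ¬ ∀ᶠ w in 𝓝 z, (fun w => f w - f z) w = 0 := by
    intro h
    have h1 : ∀ᶠ w in 𝓝[≠] z, False := by
      have h2 : ∀ᶠ w in 𝓝[≠] z, (f w - f z = 0 ∧ w ∈ U) :=
        ((h.and hUz).filter_mono nhdsWithin_le_nhds)
      filter_upwards [h2, self_mem_nhdsWithin] with w hw hwz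
      exact hwz (hi hw.2 hz (sub_eq_zero.1 hw.1))
    exact (h1.exists).elim fun _ h => h
  obtain ⟨n, g, hga, hgz, hFg⟩ := (hFa.exists_eventuallyEq_pow_smul_nonzero_iff).2 hne
  have hn0 : n ≠ 0 := by
    rintro rfl
    have := hFg.self_of_nhds
    simp only [sub_self, pow_zero, one_smul] at this
    exact hgz this.symm
  have hn1 : n ≠ 1 := by
    rintro rfl
    have h1 : deriv (fun w => f w - f z) z = deriv (fun w => (w - z) ^ 1 • g w) z :=
      Filter.EventuallyEq.deriv_eq hFg
    have h2 : deriv (fun w => f w - f z) z = 0 := by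
      rw [deriv_sub_const, hd]
    have h3 : HasDerivAt (fun w => (w - z) ^ 1 • g w) (g z) z := by
      have h4 : HasDerivAt (fun w : ℂ => w - z) 1 z := (hasDerivAt_id z).sub_const z
      have h5 := h4.mul hga.differentiableAt.hasDerivAt
      have h6 : (1 : ℂ) * g z + (z - z) * deriv g z = g z := by ring
      rw [h6] at h5
      have h7 : (fun w : ℂ => (w - z) ^ 1 • g w) = ((fun w : ℂ => w - z) * g) := by
        funext w
        simp
      rw [h7]
      exact h5
    rw [h2, h3.deriv] at h1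
    exact hgz h1.symm
  obtain ⟨k, hka, hkz, hkn⟩ := RI_root hga hgz hn0
  set p : ℂ → ℂ := fun w => (w - z) * k w with hp
  have hpa : AnalyticAt ℂ p z := (analyticAt_id.sub analyticAt_const).mul hka
  have hpd : HasStrictDerivAt p (k z) z := by
    have h4 : HasStrictDerivAt (fun w : ℂ => w - z) 1 z := (hasStrictDerivAt_id z).sub_const z
    have h5 := h4.mul (hka.hasStrictDerivAt)
    have h6 : (1 : ℂ) * k z + (z - z) * deriv k z = k z := by ring
    rw [h6] at h5
    exact h5
  have hmap : map p (𝓝 z) = 𝓝 (p z) := hpd.map_nhds_eq hkz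
  have hpz : p z = 0 := by simp [hp]
  set V : Set ℂ := {w | (f w - f z = (p w) ^ n) ∧ w ∈ U} with hV
  have hVn : V ∈ 𝓝 z := by
    filter_upwards [hFg, hkn, hUz] with w h1 h2 h3
    refine ⟨?_, h3⟩
    rw [h1, hp]
    simp only [smul_eq_mul, mul_pow, h2]
  have himg : p '' V ∈ 𝓝 (0 : ℂ) := by
    rw [← hpz, ← hmap]
    exact image_mem_map hVn
  obtain ⟨r, hr, hball⟩ := Metric.mem_nhds_iff.1 himg
  set ζ : ℂ := Complex.exp (2 * Real.pi * Complex.I / n) with hζ
  have hprim : IsPrimitiveRoot ζ n := Complex.isPrimitiveRoot_exp n hn0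
  have hζn : ζ ^ n = 1 := hprim.pow_eq_one
  have hζ1 : ζ ≠ 1 := hprim.ne_one (by omega)
  have hζa : ‖ζ‖ = 1 := hprim.norm'_eq_one hn0
  have ht0 : ((r / 2 : ℝ) : ℂ) ≠ 0 := by
    exact_mod_cast (half_pos hr).ne'
  have hta : ‖((r / 2 : ℝ) : ℂ)‖ < r := by
    rw [Complex.norm_real, Real.norm_of_nonneg (half_pos hr).le]
    exact half_lt_self hr
  obtain ⟨w1, hw1, hw1'⟩ := hball (show ((r / 2 : ℝ) : ℂ) ∈ ball (0 : ℂ) r by
    simpa [mem_ball_zero_iff] using hta)
  obtain ⟨w2, hw2, hw2'⟩ := hball (show ((r / 2 : ℝ) : ℂ) * ζ ∈ ball (0 : ℂ) r by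
    rw [mem_ball_zero_iff, norm_mul, hζa, mul_one]
    exact hta)
  have he : f w1 = f w2 := by
    have h1 := hw1.1
    have h2 := hw2.1
    rw [hw1'] at h1
    rw [hw2', mul_pow, hζn, mul_one] at h2
    have : f w1 - f z = f w2 - f z := by rw [h1, h2]
    exact sub_left_injective this
  have hw : w1 = w2 := hi hw1.2 hw2.2 he
  rw [hw, hw2'] at hw1'
  have : ((r / 2 : ℝ) : ℂ) * ζ = ((r / 2 : ℝ) : ℂ) * 1 := by rw [hw1', mul_one]
  exact hζ1 (mul_left_cancel₀ ht0 this)

end DS

end S_H36_DS_RI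

section S_H36_DS_RD

/-!
RD (Koebe square root step).  Proof.  For `a` in the unit disc let
`B a w = (w - a) / (1 - conj a * w)` (an automorphism of the disc with inverse `B (-a)`).
First replace `f` by `f₀ = B (f z₀) ∘ f`: it is in `Fam U`, `f₀ z₀ = 0`, and
`‖deriv f₀ z₀‖ = ‖deriv f z₀‖ / (1 - ‖f z₀‖ ^ 2) ≥ ‖deriv f z₀‖`; it omits `a₀ = B (f z₀) a`, a point of
the disc.  So assume `f z₀ = 0` and `a ∉ f '' U` (then `a ≠ 0`).  `B a ∘ f` has no zero on `U`; let `s` be a
holomorphic square root of it (`hsq`); `s` maps `U` to the disc and is injective (`s z = s w` gives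
`B a (f z) = B a (f w)`).  Put `b = s z₀`, `b ^ 2 = B a 0 = -a`, `g = B b ∘ s ∈ Fam U`, `g z₀ = 0`.
Derivatives: `deriv (B a) 0 = 1 - ‖a‖ ^ 2`, `2 b * deriv s z₀ = (1 - ‖a‖ ^ 2) * deriv f z₀`,
`deriv (B b) b = 1 / (1 - ‖b‖ ^ 2)`, `‖b‖ ^ 2 = ‖a‖`, so
`‖deriv g z₀‖ = ‖deriv f z₀‖ * (1 + ‖a‖) / (2 * sqrt ‖a‖) > ‖deriv f z₀‖`
because `‖a‖ < 1` and `deriv f z₀ ≠ 0` (`deriv_ne_zero_of_injOn`).
-/

namespace DS
open Metric Set Filter Topology

/-- the disc automorphism -/
private noncomputable def RD_B (a w : ℂ) : ℂ := (w - a) / (1 - (starRingEnd ℂ) a * w)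

private theorem RD_id (a w : ℂ) :
    ‖1 - (starRingEnd ℂ) a * w‖ ^ 2 - ‖w - a‖ ^ 2 = (1 - ‖a‖ ^ 2) * (1 - ‖w‖ ^ 2) := by
  simp only [Complex.sq_norm, Complex.normSq_apply, Complex.sub_re, Complex.sub_im, Complex.mul_re,
    Complex.mul_im, Complex.conj_re, Complex.conj_im, Complex.one_re, Complex.one_im]
  ring

private theorem RD_ne {a w : ℂ} (ha : ‖a‖ < 1) (hw : ‖w‖ < 1) : 1 - (starRingEnd ℂ) a * w ≠ 0 := by
  intro h
  have h1 : ‖(starRingEnd ℂ) a * w‖ < 1 := by
    rw [norm_mul, Complex.norm_conj]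
    exact mul_lt_one_of_nonneg_of_lt_one_left (norm_nonneg _) ha hw.le
  have h2 : (starRingEnd ℂ) a * w = 1 := (sub_eq_zero.1 h).symm
  rw [h2] at h1
  simp at h1

private theorem RD_one_sub {a w : ℂ} (ha : ‖a‖ < 1) (hw : ‖w‖ < 1) :
    1 - ‖RD_B a w‖ ^ 2 = (1 - ‖a‖ ^ 2) * (1 - ‖w‖ ^ 2) / ‖1 - (starRingEnd ℂ) a * w‖ ^ 2 := by
  have h := norm_pos_iff.2 (RD_ne ha hw)
  rw [RD_B, norm_div, div_pow, ← RD_id, sub_div, div_self (by positivity)]

private theorem RD_lt {a w : ℂ} (ha : ‖a‖ < 1) (hw : ‖w‖ < 1) : ‖RD_B a w‖ < 1 := by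
  have h := norm_pos_iff.2 (RD_ne ha hw)
  have h1 := RD_one_sub ha hw
  have h2 : 0 < (1 - ‖a‖ ^ 2) * (1 - ‖w‖ ^ 2) / ‖1 - (starRingEnd ℂ) a * w‖ ^ 2 := by
    apply div_pos
    · apply mul_pos
      · nlinarith [norm_nonneg a]
      · nlinarith [norm_nonneg w]
    · positivity
  nlinarith [norm_nonneg (RD_B a w)]

private theorem RD_inj {a w w' : ℂ} (ha : ‖a‖ < 1) (hw : ‖w‖ < 1) (hw' : ‖w'‖ < 1)
    (h : RD_B a w = RD_B a w') : w = w' := by
  unfold RD_B at h
  rw [div_eq_div_iff (RD_ne ha hw) (RD_ne ha hw')] at h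
  have h1 : (w - w') * (1 - (starRingEnd ℂ) a * a) = 0 := by linear_combination h
  rcases mul_eq_zero.1 h1 with h2 | h2
  · exact sub_eq_zero.1 h2
  · exact absurd h2 (RD_ne ha ha)

private theorem RD_deriv {a w : ℂ} (ha : ‖a‖ < 1) (hw : ‖w‖ < 1) :
    HasDerivAt (RD_B a) ((1 - (starRingEnd ℂ) a * a) / (1 - (starRingEnd ℂ) a * w) ^ 2) w := by
  have h1 : HasDerivAt (fun w : ℂ => w - a) 1 w := (hasDerivAt_id w).sub_const a
  have h2 : HasDerivAt (fun w : ℂ => 1 - (starRingEnd ℂ) a * w) (-((starRingEnd ℂ) a)) w := by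
    have := ((hasDerivAt_id w).const_mul ((starRingEnd ℂ) a)).const_sub 1
    simpa using this
  have h3 := h1.div h2 (RD_ne ha hw)
  have e : (1 * (1 - (starRingEnd ℂ) a * w) - (w - a) * -(starRingEnd ℂ) a) /
      (1 - (starRingEnd ℂ) a * w) ^ 2 =
      (1 - (starRingEnd ℂ) a * a) / (1 - (starRingEnd ℂ) a * w) ^ 2 := by
    congr 1
    ring
  rw [e] at h3
  exact h3

private theorem RD_norm_deriv {a w : ℂ} (ha : ‖a‖ < 1) (hw : ‖w‖ < 1) :
    ‖(1 - (starRingEnd ℂ) a * a) / (1 - (starRingEnd ℂ) a * w) ^ 2‖ * (1 - ‖w‖ ^ 2) =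
      1 - ‖RD_B a w‖ ^ 2 := by
  have h1 : (1 : ℂ) - (starRingEnd ℂ) a * a = ((1 - ‖a‖ ^ 2 : ℝ) : ℂ) := by
    rw [mul_comm, Complex.mul_conj, Complex.normSq_eq_norm_sq]
    push_cast
    ring
  rw [RD_one_sub ha hw, h1, norm_div, norm_pow, Complex.norm_real, Real.norm_eq_abs,
    abs_of_nonneg (by nlinarith [norm_nonneg a])]
  ring

theorem koebe_step {U : Set ℂ} (hU : IsOpen U) (hc : IsConnected U) {z₀ : ℂ} (hz₀ : z₀ ∈ U)
    (hsq : ∀ f : ℂ → ℂ, DifferentiableOn ℂ f U → (∀ z ∈ U, f z ≠ 0) →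
      ∃ s : ℂ → ℂ, DifferentiableOn ℂ s U ∧ ∀ z ∈ U, s z ^ 2 = f z)
    {f : ℂ → ℂ} (hf : f ∈ Fam U) (hns : ∃ a ∈ ball (0:ℂ) 1, a ∉ f '' U) :
    ∃ g ∈ Fam U, ‖deriv f z₀‖ < ‖deriv g z₀‖ := by
  obtain ⟨hfd, hfm, hfi⟩ := hf
  obtain ⟨a, ha, hna⟩ := hns
  rw [mem_ball_zero_iff] at ha
  have hfn : ∀ z ∈ U, ‖f z‖ < 1 := fun z hz => mem_ball_zero_iff.1 (hfm hz)
  have hU0 : ∀ z ∈ U, U ∈ 𝓝 z := fun z hz => hU.mem_nhds hz
  set h : ℂ → ℂ := fun z => RD_B a (f z) with hh
  have hfder : ∀ z ∈ U, HasDerivAt f (deriv f z) z := fun z hz =>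
    ((hfd z hz).differentiableAt (hU0 z hz)).hasDerivAt
  have hhder : ∀ z ∈ U, HasDerivAt h
      ((1 - (starRingEnd ℂ) a * a) / (1 - (starRingEnd ℂ) a * f z) ^ 2 * deriv f z) z :=
    fun z hz => (RD_deriv ha (hfn z hz)).comp z (hfder z hz)
  have hh0 : ∀ z ∈ U, h z ≠ 0 := by
    intro z hz h0
    apply hna
    refine ⟨z, hz, ?_⟩
    have : f z - a = 0 := by
      rcases div_eq_zero_iff.1 h0 with h1 | h1
      · exact h1
      · exact absurd h1 (RD_ne ha (hfn z hz))
    exact sub_eq_zero.1 this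
  obtain ⟨s, hsd, hs⟩ := hsq h (fun z hz => (hhder z hz).differentiableAt.differentiableWithinAt) hh0
  have hsn : ∀ z ∈ U, ‖s z‖ < 1 := by
    intro z hz
    have h1 : ‖s z‖ ^ 2 < 1 := by
      rw [← norm_pow, hs z hz]
      exact RD_lt ha (hfn z hz)
    nlinarith [norm_nonneg (s z)]
  have hsder : ∀ z ∈ U, HasDerivAt s (deriv s z) z := fun z hz =>
    ((hsd z hz).differentiableAt (hU0 z hz)).hasDerivAt
  have hsi : InjOn s U := by
    intro z hz w hw hzw
    apply hfi hz hw
    apply RD_inj ha (hfn z hz) (hfn w hw)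
    have h1 := hs z hz
    rw [hzw, hs w hw] at h1
    exact h1.symm
  set b := s z₀ with hb
  have hbn : ‖b‖ < 1 := hsn z₀ hz₀
  have hb0 : b ≠ 0 := by
    intro h0
    apply hh0 z₀ hz₀
    rw [← hs z₀ hz₀, ← hb, h0]
    simp
  have hbpos := norm_pos_iff.2 hb0
  refine ⟨fun z => RD_B b (s z), ⟨?_, ?_, ?_⟩, ?_⟩
  · intro z hz
    exact ((RD_deriv hbn (hsn z hz)).comp z (hsder z hz)).differentiableAt.differentiableWithinAt
  · intro z hz
    exact mem_ball_zero_iff.2 (RD_lt hbn (hsn z hz))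
  · intro z hz w hw hzw
    exact hsi hz hw (RD_inj hbn (hsn z hz) (hsn w hw) hzw)
  · have hf0 : 0 < ‖deriv f z₀‖ := norm_pos_iff.2 (deriv_ne_zero_of_injOn hU hfd hfi hz₀)
    -- derivative of `s ^ 2 = h` at `z₀`
    have e1 : 2 * b * deriv s z₀ =
        (1 - (starRingEnd ℂ) a * a) / (1 - (starRingEnd ℂ) a * f z₀) ^ 2 * deriv f z₀ := by
      have h1 : HasDerivAt (fun z => s z ^ 2) (2 * b * deriv s z₀) z₀ := by
        have := (hsder z₀ hz₀).pow 2
        have e : ((2 : ℕ) : ℂ) * s z₀ ^ (2 - 1) * deriv s z₀ = 2 * b * deriv s z₀ := by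
          rw [hb]; norm_num
        rw [e] at this
        exact this
      have h2 : HasDerivAt (fun z => s z ^ 2)
          ((1 - (starRingEnd ℂ) a * a) / (1 - (starRingEnd ℂ) a * f z₀) ^ 2 * deriv f z₀) z₀ :=
        (hhder z₀ hz₀).congr_of_eventuallyEq (by
          filter_upwards [hU0 z₀ hz₀] with z hz
          exact hs z hz)
      exact h1.unique h2
    have e2 : deriv (fun z => RD_B b (s z)) z₀ =
        (1 - (starRingEnd ℂ) b * b) / (1 - (starRingEnd ℂ) b * b) ^ 2 * deriv s z₀ :=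
      ((RD_deriv hbn (hsn z₀ hz₀)).comp z₀ (hsder z₀ hz₀)).deriv
    have n1 := RD_norm_deriv ha (hfn z₀ hz₀)
    have n2 := RD_norm_deriv hbn hbn
    have n3 : RD_B b b = 0 := by unfold RD_B; simp
    rw [n3, norm_zero] at n2
    have n4 : ‖RD_B a (f z₀)‖ = ‖b‖ ^ 2 := by
      rw [← norm_pow, hb, hs z₀ hz₀]
    rw [n4] at n1
    set A := ‖(1 - (starRingEnd ℂ) a * a) / (1 - (starRingEnd ℂ) a * f z₀) ^ 2‖ with hA
    set D := ‖(1 - (starRingEnd ℂ) b * b) / (1 - (starRingEnd ℂ) b * b) ^ 2‖ with hD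
    have m1 : 2 * ‖b‖ * ‖deriv s z₀‖ = A * ‖deriv f z₀‖ := by
      have := congrArg norm e1
      rw [norm_mul, norm_mul, norm_mul, Complex.norm_two] at this
      exact this
    have m2 : ‖deriv (fun z => RD_B b (s z)) z₀‖ = D * ‖deriv s z₀‖ := by
      rw [e2, norm_mul]
    rw [m2]
    set x := ‖deriv f z₀‖
    set y := ‖deriv s z₀‖
    set t := ‖b‖
    have hfz := hfn z₀ hz₀
    have hA0 : 0 ≤ A := norm_nonneg _
    have hA1 : 1 - t ^ 4 ≤ A := by
      have : A * (1 - ‖f z₀‖ ^ 2) ≤ A * 1 :=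
        mul_le_mul_of_nonneg_left (by nlinarith [norm_nonneg (f z₀)]) hA0
      have h4 : (t ^ 2) ^ 2 = t ^ 4 := by ring
      rw [h4] at n1
      linarith
    have ht1 : 0 < 1 - t ^ 2 := by nlinarith
    have hDe : D = 1 / (1 - t ^ 2) := by
      rw [eq_div_iff ht1.ne']
      simpa using n2
    have h5 : (1 - t ^ 4) * x ≤ 2 * t * y := by
      rw [m1]
      exact mul_le_mul_of_nonneg_right hA1 hf0.le
    rw [hDe, one_div, inv_mul_eq_div, lt_div_iff₀ ht1]
    -- `x (1 - t²) < y`
    have h6 : 2 * t * (x * (1 - t ^ 2)) < 2 * t * y := by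
      refine lt_of_lt_of_le ?_ h5
      have h7 : (1 - t ^ 4) * x - 2 * t * (x * (1 - t ^ 2)) = x * (1 - t ^ 2) * (1 - t) ^ 2 := by ring
      have h8 : 0 < x * (1 - t ^ 2) * (1 - t) ^ 2 := by
        apply mul_pos (mul_pos hf0 ht1)
        have : 0 < 1 - t := by linarith
        positivity
      linarith
    exact lt_of_mul_lt_mul_left h6 (by positivity)

end DS

end S_H36_DS_RD

section S_H36_DS_RH

/-!
RH (winding numbers of closed polygons around points of a set without compact open pieces).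
Proof.  For a segment `[a,b]` not containing `z`: `segI (fun w => (w - z)⁻¹) a b = Complex.log ((b-z)/(a-z))`
(the quotient is not in `(-∞, 0]`, differentiate `t ↦ log ((a + t (b-a) - z)/(a-z))`).  Hence for a closed
polygon avoiding `z` the sum of the edge integrals has exponential `1`, so it is `2 π i n`, `n ∈ ℤ`
(`wnd_int`).  The sum is continuous in `z` on the (open) set of points off the polygon (each term is a
continuous function of `z`, the logarithm of a quotient in the slit plane), hence locally constant there,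
and it tends to `0` for `‖z‖ → ∞`, so it vanishes for `‖z‖ ≥ R` (`‖sum‖ < 2 π`).
`wnd_zero`: let `C` be the set of `z ∉ U` with nonzero value.  It is relatively open in `Uᶜ` and relatively
closed (locally constant), closed in `ℂ` and bounded, so compact, and of the form `O ∩ Uᶜ` with `O` open;
by hypothesis it is empty.
-/

namespace DS
open Metric Set Filter Topology

private theorem RH_slit {a b z : ℂ} (hz : z ∉ segment ℝ a b) {t : ℝ} (h0 : 0 ≤ t) (h1 : t ≤ 1) :
    (a + t * (b - a) - z) / (a - z) ∈ Complex.slitPlane := by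
  have haz : a - z ≠ 0 := by
    intro h
    apply hz
    rw [← sub_eq_zero.mp h]
    exact left_mem_segment ℝ a b
  by_contra hcon
  rw [Complex.mem_slitPlane_iff_not_le_zero, not_not] at hcon
  obtain ⟨s, hs⟩ : ∃ s : ℝ, (a + t * (b - a) - z) / (a - z) = (s : ℂ) := by
    refine ⟨((a + t * (b - a) - z) / (a - z)).re, ?_⟩
    apply Complex.ext
    · simp
    · rw [Complex.ofReal_im]
      exact (Complex.le_def.mp hcon).2
  have hs0 : s ≤ 0 := by
    rw [hs] at hcon
    exact_mod_cast hcon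
  rw [div_eq_iff haz] at hs
  apply hz
  have h1s : (0 : ℝ) < 1 - s := by linarith
  rw [segment_eq_image']
  refine ⟨t / (1 - s), ⟨by positivity, ?_⟩, ?_⟩
  · rw [div_le_one h1s]
    linarith
  · have h1s' : ((1 : ℂ) - s) ≠ 0 := by
      have : ((1 - s : ℝ) : ℂ) ≠ 0 := by exact_mod_cast h1s.ne'
      push_cast at this
      exact this
    show a + (t / (1 - s)) • (b - a) = z
    rw [Complex.real_smul]
    push_cast
    field_simp
    linear_combination hs

private theorem RH_seg {a b z : ℂ} (hz : z ∉ segment ℝ a b) :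
    segI (fun w => (w - z)⁻¹) a b = Complex.log ((b - z) / (a - z)) := by
  have haz : a - z ≠ 0 := by
    intro h
    apply hz
    rw [← sub_eq_zero.mp h]
    exact left_mem_segment ℝ a b
  have hne : ∀ t ∈ Set.uIcc (0 : ℝ) 1, (a + t * (b - a) - z) ≠ 0 := by
    intro t ht h
    rw [Set.uIcc_of_le zero_le_one] at ht
    have := RH_slit hz ht.1 ht.2
    rw [h, zero_div] at this
    exact Complex.zero_notMem_slitPlane this
  have hd : ∀ t ∈ Set.uIcc (0 : ℝ) 1, HasDerivAt
      (fun t : ℝ => Complex.log ((a + t * (b - a) - z) / (a - z)))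
      ((b - a) * (a + t * (b - a) - z)⁻¹) t := by
    intro t ht
    have h1 : HasDerivAt (fun t : ℝ => (a + t * (b - a) - z) / (a - z)) ((b - a) / (a - z)) t := by
      have h2 : HasDerivAt (fun t : ℝ => ((t : ℝ) : ℂ)) 1 t := Complex.ofRealCLM.hasDerivAt
      have h3 := (((h2.mul_const (b - a)).const_add a).sub_const z).div_const (a - z)
      rw [one_mul] at h3
      exact h3
    have ht' := ht
    rw [Set.uIcc_of_le zero_le_one] at ht'
    have h4 := h1.clog_real (RH_slit hz ht'.1 ht'.2)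
    convert h4 using 1
    have := hne t ht
    field_simp
  have hcont : ContinuousOn (fun t : ℝ => (b - a) * (a + t * (b - a) - z)⁻¹)
      (Set.uIcc (0 : ℝ) 1) := by
    apply ContinuousOn.mul continuousOn_const
    apply ContinuousOn.inv₀ _ hne
    fun_prop
  have := intervalIntegral.integral_eq_sub_of_hasDerivAt hd hcont.intervalIntegrable
  unfold segI
  rw [← intervalIntegral.integral_const_mul, this]
  have e1 : (a + ((1 : ℝ) : ℂ) * (b - a) - z) / (a - z) = (b - z) / (a - z) := by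
    push_cast
    congr 1
    ring
  have e2 : (a + ((0 : ℝ) : ℂ) * (b - a) - z) / (a - z) = 1 := by
    rw [Complex.ofReal_zero, zero_mul, add_zero, div_self haz]
  rw [e1, e2, Complex.log_one, sub_zero]

private theorem RH_exp (z : ℂ) : ∀ (l : List ℂ) (a : ℂ), PolyIn {z}ᶜ (a :: l) →
    Complex.exp (polyI (fun w => (w - z)⁻¹) (a :: l))
      = ((a :: l).getLast (List.cons_ne_nil a l) - z) / (a - z) ∧ a - z ≠ 0 := by
  intro l
  induction l with
  | nil =>
    intro a ha
    have : a ≠ z := ha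
    have h1 : a - z ≠ 0 := sub_ne_zero.mpr this
    refine ⟨?_, h1⟩
    show Complex.exp 0 = _
    rw [Complex.exp_zero, List.getLast_singleton, div_self h1]
  | cons b l ih =>
    intro a ha
    have hab : z ∉ segment ℝ a b := fun h => ha.1 h rfl
    obtain ⟨h1, h2⟩ := ih b ha.2
    have haz : a - z ≠ 0 := by
      intro h
      apply hab
      rw [← sub_eq_zero.mp h]
      exact left_mem_segment ℝ a b
    refine ⟨?_, haz⟩
    show Complex.exp (segI (fun w => (w - z)⁻¹) a b + polyI (fun w => (w - z)⁻¹) (b :: l)) = _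
    rw [Complex.exp_add, h1, RH_seg hab, Complex.exp_log (div_ne_zero h2 haz),
      List.getLast_cons (List.cons_ne_nil b l)]
    field_simp

theorem wnd_int (a : ℂ) (l : List ℂ) (z : ℂ) (hz : PolyIn {z}ᶜ (a :: (l ++ [a]))) :
    ∃ n : ℤ, polyI (fun w => (w - z)⁻¹) (a :: (l ++ [a])) = 2 * Real.pi * Complex.I * n := by
  obtain ⟨h1, h2⟩ := RH_exp z (l ++ [a]) a hz
  have h3 : (a :: (l ++ [a])).getLast (List.cons_ne_nil a (l ++ [a])) = a := by
    simp
  rw [h3, div_self h2, Complex.exp_eq_one_iff] at h1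
  obtain ⟨n, hn⟩ := h1
  exact ⟨n, by rw [hn]; ring⟩

theorem wnd_cont (L : List ℂ) :
    ContinuousOn (fun z => polyI (fun w => (w - z)⁻¹) L) {z | PolyIn {z}ᶜ L} := by
  match L with
  | [] => exact continuousOn_const
  | [a] => exact continuousOn_const
  | a :: b :: l =>
    have ih := wnd_cont (b :: l)
    show ContinuousOn (fun z => segI (fun w => (w - z)⁻¹) a b + polyI (fun w => (w - z)⁻¹) (b :: l))
      {z | PolyIn {z}ᶜ (a :: b :: l)}
    apply ContinuousOn.add
    · have h1 : ContinuousOn (fun z => Complex.log ((b - z) / (a - z)))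
          {z | PolyIn {z}ᶜ (a :: b :: l)} := by
        have hs : ∀ z ∈ {z | PolyIn {z}ᶜ (a :: b :: l)}, z ∉ segment ℝ a b :=
          fun z hz h => hz.1 h rfl
        apply ContinuousOn.clog
        · apply ContinuousOn.div
          · fun_prop
          · fun_prop
          · intro z hz h
            apply hs z hz
            rw [← sub_eq_zero.mp h]
            exact left_mem_segment ℝ a b
        · intro z hz
          have := RH_slit (hs z hz) zero_le_one le_rfl
          have e1 : (a + ((1 : ℝ) : ℂ) * (b - a) - z) / (a - z) = (b - z) / (a - z) := by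
            push_cast
            congr 1
            ring
          rw [e1] at this
          exact this
      refine h1.congr fun z hz => ?_
      exact RH_seg fun h => hz.1 h rfl
    · exact ih.mono fun z hz => hz.2

private theorem RH_mono {U V : Set ℂ} (h : U ⊆ V) : ∀ L : List ℂ, PolyIn U L → PolyIn V L
  | [], _ => trivial
  | [_], ha => h ha
  | _ :: _ :: _, ha => ⟨ha.1.trans h, RH_mono h _ ha.2⟩

private theorem RH_cpt (a b : ℂ) : IsCompact (segment ℝ a b) := by
  rw [segment_eq_image']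
  exact isCompact_Icc.image (by fun_prop)

private theorem RH_open : ∀ L : List ℂ, IsOpen {z : ℂ | PolyIn {z}ᶜ L}
  | [] => isOpen_univ
  | [a] => by
      have : {z : ℂ | PolyIn {z}ᶜ [a]} = {a}ᶜ := by
        ext z
        exact ⟨fun h => fun h' => h (by rw [h']; rfl), fun h => fun h' => h (by rw [h']; rfl)⟩
      rw [this]
      exact isOpen_compl_singleton
  | a :: b :: l => by
      have : {z : ℂ | PolyIn {z}ᶜ (a :: b :: l)} = (segment ℝ a b)ᶜ ∩ {z | PolyIn {z}ᶜ (b :: l)} := by
        ext z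
        constructor
        · rintro ⟨h1, h2⟩
          exact ⟨fun h => h1 h rfl, h2⟩
        · rintro ⟨h1, h2⟩
          exact ⟨fun w hw h => h1 (by rw [← show w = z from h]; exact hw), h2⟩
      rw [this]
      exact (RH_cpt a b).isClosed.isOpen_compl.inter (RH_open (b :: l))

private theorem RH_tend : ∀ L : List ℂ,
    Tendsto (fun z => polyI (fun w => (w - z)⁻¹) L) (cocompact ℂ) (𝓝 0)
  | [] => tendsto_const_nhds
  | [_] => tendsto_const_nhds
  | a :: b :: l => by
      have ih := RH_tend (b :: l)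
      have h1 : Tendsto (fun z : ℂ => (a - z)⁻¹) (cocompact ℂ) (𝓝 0) := by
        rw [← Metric.cobounded_eq_cocompact]
        apply tendsto_inv₀_cobounded.comp
        exact tendsto_const_sub_cobounded a
      have h2 : Tendsto (fun z : ℂ => (b - z) / (a - z)) (cocompact ℂ) (𝓝 1) := by
        have h3 : Tendsto (fun z : ℂ => 1 + (b - a) * (a - z)⁻¹) (cocompact ℂ) (𝓝 1) := by
          have := (h1.const_mul (b - a)).const_add 1
          rwa [mul_zero, add_zero] at this
        refine h3.congr' ?_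
        have h4 : ∀ᶠ z in cocompact ℂ, z ∈ ({a} : Set ℂ)ᶜ :=
          (isCompact_singleton (x := a)).compl_mem_cocompact
        filter_upwards [h4] with z hz
        have : a - z ≠ 0 := fun h => hz (sub_eq_zero.mp h).symm
        field_simp
        ring
      have h3 : Tendsto (fun z : ℂ => Complex.log ((b - z) / (a - z))) (cocompact ℂ) (𝓝 0) := by
        have := h2.clog (by simp)
        rwa [Complex.log_one] at this
      have h5 : Tendsto (fun z : ℂ => segI (fun w => (w - z)⁻¹) a b) (cocompact ℂ) (𝓝 0) := by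
        refine h3.congr' ?_
        have h4 : ∀ᶠ z in cocompact ℂ, z ∈ (segment ℝ a b)ᶜ :=
          (RH_cpt a b).compl_mem_cocompact
        filter_upwards [h4] with z hz
        exact (RH_seg hz).symm
      have := h5.add ih
      rw [add_zero] at this
      exact this

theorem wnd_zero {U : Set ℂ} (hU : IsOpen U)
    (hK : ∀ C ⊆ Uᶜ, IsCompact C → (∃ O, IsOpen O ∧ C = O ∩ Uᶜ) → C = ∅)
    (a : ℂ) (l : List ℂ) (hl : PolyIn U (a :: (l ++ [a]))) {z : ℂ} (hz : z ∉ U) :
    polyI (fun w => (w - z)⁻¹) (a :: (l ++ [a])) = 0 := by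
  set L := a :: (l ++ [a]) with hL
  set I : ℂ → ℂ := fun z => polyI (fun w => (w - z)⁻¹) L with hI
  have hVsub : Uᶜ ⊆ {z | PolyIn {z}ᶜ L} := by
    intro w hw
    have hUw : U ⊆ ({w} : Set ℂ)ᶜ := by
      intro x hx h
      apply hw
      rw [← show x = w from h]
      exact hx
    exact RH_mono hUw L hl
  have hint : ∀ w ∈ Uᶜ, I w ≠ 0 → 1 ≤ ‖I w‖ := by
    intro w hw h0
    obtain ⟨n, hn⟩ := wnd_int a l w (hVsub hw)
    have hn' : I w = 2 * Real.pi * Complex.I * n := hn
    have hn0 : n ≠ 0 := by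
      rintro rfl
      apply h0
      rw [hn']
      simp
    rw [hn', norm_mul, norm_mul, norm_mul, Complex.norm_I, mul_one]
    have h1 : ‖(n : ℂ)‖ = |(n : ℝ)| := by
      rw [Complex.norm_intCast]
    have h2 : (1 : ℝ) ≤ |(n : ℝ)| := by exact_mod_cast Int.one_le_abs hn0
    have h3 : ‖(Real.pi : ℂ)‖ = Real.pi := by
      rw [Complex.norm_real, Real.norm_of_nonneg Real.pi_pos.le]
    have h4 : ‖(2 : ℂ)‖ = 2 := by simp
    rw [h1, h3, h4]
    have := Real.pi_gt_three
    nlinarith
  set C : Set ℂ := {w | w ∈ Uᶜ ∧ I w ≠ 0} with hC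
  have hCO : C = ({w | PolyIn {w}ᶜ L} ∩ I ⁻¹' {0}ᶜ) ∩ Uᶜ := by
    ext w
    constructor
    · rintro ⟨h1, h2⟩
      exact ⟨⟨hVsub h1, h2⟩, h1⟩
    · rintro ⟨⟨h1, h2⟩, h3⟩
      exact ⟨h3, h2⟩
  have hO : IsOpen ({w | PolyIn {w}ᶜ L} ∩ I ⁻¹' {0}ᶜ) :=
    (wnd_cont L).isOpen_inter_preimage (RH_open L) isOpen_compl_singleton
  have hCcl : IsClosed C := by
    have : C = Uᶜ ∩ I ⁻¹' {y | 1 ≤ ‖y‖} := by
      ext w
      constructor
      · rintro ⟨h1, h2⟩
        exact ⟨h1, hint w h1 h2⟩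
      · rintro ⟨h1, h2⟩
        refine ⟨h1, fun h => ?_⟩
        have h3 : 1 ≤ ‖I w‖ := h2
        rw [h, norm_zero] at h3
        linarith
    rw [this]
    exact ((wnd_cont L).mono hVsub).preimage_isClosed_of_isClosed hU.isClosed_compl
      (isClosed_le continuous_const continuous_norm)
  have hCc : IsCompact C := by
    have h1 : ∀ᶠ w in cocompact ℂ, ‖I w‖ < 1 := by
      have := (RH_tend L).norm
      rw [norm_zero] at this
      exact this.eventually_lt_const one_pos
    obtain ⟨t, ht, hts⟩ := Filter.mem_cocompact.mp h1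
    refine ht.of_isClosed_subset hCcl fun w hw => ?_
    by_contra hwt
    have h2 : ‖I w‖ < 1 := hts hwt
    have h3 := hint w hw.1 hw.2
    linarith
  have hCe := hK C (fun w hw => hw.1) hCc ⟨_, hO, hCO⟩
  by_contra h0
  have : z ∈ C := ⟨hz, h0⟩
  rw [hCe] at this
  exact this

end DS

end S_H36_DS_RH

section S_H36_DS_RJ

/-!
RJ (Dixon: the global Cauchy theorem for closed polygons).  Proof (Rudin, Real and Complex Analysis 10.35).
Let `L = a :: (l ++ [a])`, `P` the union of its edges (compact, `⊆ U`), and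
`g z w = (f w - f z) / (w - z)` for `z ≠ w`, `g z z = deriv f z`: continuous on `U × U` (use
`g z w = ∫_0^1 deriv f (z + t (w - z)) dt` near the diagonal; Mathlib's `dslope f z w` is this function).
`h z = polyI (fun w => g z w) L` for `z ∈ U` is holomorphic on `U` (continuous by uniform continuity on compacta;
differentiate under the integral or use Morera/Fubini over small circles).  Let
`Ω₁ = {z | z off the edges, polyI (fun w => (w - z)⁻¹) L = 0}`: open because the value is `2 π i n` and continuous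
(`wnd_int`, `wnd_cont`); `h₁ z = polyI (fun w => f w / (w - z)) L` is holomorphic on `Ω₁` and `h = h₁` on
`U ∩ Ω₁`.  By hypothesis `U ∪ Ω₁ = ℂ`, so the glued function is entire; it tends to `0` at infinity
(`Ω₁` contains the outside of a large ball and `‖h₁ z‖ ≤ C / dist`), so it is `0` by Liouville.
Hence for `z ∈ U` off the edges `polyI (fun w => f w / (w - z)) L = f z * polyI (fun w => (w - z)⁻¹) L`.  Apply
this to `w ↦ f w * (w - z₁)` at a point `z = z₁ ∈ U` off the edges (exists: `U` is open and the edges have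
empty interior; if `U` is empty there is nothing to do): `polyI f L = 0`.
(`PolyIn U L` forces `U` nonempty.)
-/

namespace DS
open Metric Set Filter Topology MeasureTheory

theorem RJ_paramI {V : Set ℂ} (hV : IsOpen V) {F : ℂ → ℝ → ℂ}
    (hF : ContinuousOn (fun p : ℂ × ℝ => F p.1 p.2) (V ×ˢ Icc 0 1))
    (hd : ∀ t ∈ Icc (0:ℝ) 1, DifferentiableOn ℂ (fun z => F z t) V) :
    DifferentiableOn ℂ (fun z => ∫ t in (0:ℝ)..1, F z t) V := by
  intro z₀ hz₀
  apply DifferentiableAt.differentiableWithinAt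
  obtain ⟨r₀, hr₀, hball⟩ := Metric.isOpen_iff.mp hV z₀ hz₀
  set r : ℝ := r₀ / 4 with hr
  have hr0 : 0 < r := by positivity
  have hcb : closedBall z₀ (2 * r) ⊆ V := by
    refine (closedBall_subset_ball ?_).trans hball
    rw [hr]; linarith
  have hcont : ∀ z ∈ V, ContinuousOn (fun t => F z t) (Icc 0 1) := by
    intro z hz
    have h1 : ContinuousOn (fun t : ℝ => ((z, t) : ℂ × ℝ)) (Icc 0 1) := by fun_prop
    exact hF.comp h1 (fun t ht => ⟨hz, ht⟩)
  have hu : uIoc (0:ℝ) 1 ⊆ Icc 0 1 := by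
    rw [uIoc_of_le zero_le_one]; exact Ioc_subset_Icc_self
  have hmeas : ∀ z ∈ V, AEStronglyMeasurable (fun t => F z t) (volume.restrict (uIoc (0:ℝ) 1)) := by
    intro z hz
    exact ((hcont z hz).mono hu).aestronglyMeasurable measurableSet_uIoc
  obtain ⟨M, hM⟩ := ((isCompact_closedBall z₀ (2 * r)).prod
    (isCompact_Icc (a := (0:ℝ)) (b := 1))).exists_bound_of_continuousOn
    (hF.mono (prod_mono hcb (Subset.refl _)))
  have hM' : ∀ z ∈ closedBall z₀ (2 * r), ∀ t ∈ Icc (0:ℝ) 1, ‖F z t‖ ≤ M :=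
    fun z hz t ht => hM (z, t) ⟨hz, ht⟩
  have hball_cb : ∀ z ∈ ball z₀ r, closedBall z r ⊆ closedBall z₀ (2 * r) := by
    intro z hz
    apply closedBall_subset_closedBall'
    have := (mem_ball.mp hz).le
    linarith
  have hderiv : ∀ z ∈ ball z₀ r, ∀ t ∈ Icc (0:ℝ) 1, ‖deriv (fun z => F z t) z‖ ≤ M / r := by
    intro z hz t ht
    apply Complex.norm_deriv_le_of_forall_mem_sphere_norm_le hr0
    · apply DifferentiableOn.diffContOnCl
      refine (hd t ht).mono ?_
      exact (closure_ball_subset_closedBall).trans ((hball_cb z hz).trans hcb)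
    · intro w hw
      exact hM' w (hball_cb z hz (sphere_subset_closedBall hw)) t ht
  have hballV : ball z₀ r ⊆ V := (ball_subset_closedBall.trans
    (closedBall_subset_closedBall (by linarith))).trans hcb
  have hdiff : ∀ z ∈ V, ∀ t ∈ Icc (0:ℝ) 1,
      HasDerivAt (fun z => F z t) (deriv (fun z => F z t) z) z := by
    intro z hz t ht
    exact ((hd t ht).differentiableAt (hV.mem_nhds hz)).hasDerivAt
  have hres := intervalIntegral.hasDerivAt_integral_of_dominated_loc_of_deriv_le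
    (μ := volume) (a := (0:ℝ)) (b := 1) (F := F) (F' := fun z t => deriv (fun z => F z t) z)
    (x₀ := z₀) (s := ball z₀ r) (bound := fun _ => M / r) (ball_mem_nhds z₀ hr0)
    (by filter_upwards [hV.mem_nhds hz₀] with z hz using hmeas z hz)
    (by
      apply ContinuousOn.intervalIntegrable
      rw [uIcc_of_le zero_le_one]
      exact hcont z₀ hz₀)
    (by
      have hlim : ∀ t ∈ Icc (0:ℝ) 1, Tendsto (fun n : ℕ =>
          ((r / (n + 1) : ℝ) : ℂ)⁻¹ • (F (z₀ + ((r / (n + 1) : ℝ) : ℂ)) t - F z₀ t)) atTop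
          (𝓝 (deriv (fun z => F z t) z₀)) := by
        intro t ht
        have h1 := (hdiff z₀ hz₀ t ht).tendsto_slope_zero
        have h2 : Tendsto (fun n : ℕ => ((r / (n + 1) : ℝ) : ℂ)) atTop (𝓝[≠] 0) := by
          rw [tendsto_nhdsWithin_iff]
          constructor
          · have h3 : Tendsto (fun n : ℕ => (r / (n + 1) : ℝ)) atTop (𝓝 0) := by
              have := (tendsto_one_div_add_atTop_nhds_zero_nat (𝕜 := ℝ)).const_mul r
              rw [mul_zero] at this
              refine this.congr ?_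
              intro n; rw [mul_one_div]
            have h4 := (Complex.continuous_ofReal.tendsto 0).comp h3
            rw [Complex.ofReal_zero] at h4
            exact h4
          · filter_upwards with n
            have : (r / (n + 1) : ℝ) ≠ 0 := by positivity
            exact Complex.ofReal_ne_zero.mpr this
        exact h1.comp h2
      refine aestronglyMeasurable_of_tendsto_ae atTop (f := fun (n : ℕ) (t : ℝ) =>
          ((r / (n + 1) : ℝ) : ℂ)⁻¹ • (F (z₀ + ((r / (n + 1) : ℝ) : ℂ)) t - F z₀ t)) ?_ ?_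
      · intro n
        have hmem : z₀ + ((r / (n + 1) : ℝ) : ℂ) ∈ V := by
          apply hcb
          rw [mem_closedBall, dist_eq_norm, add_sub_cancel_left, Complex.norm_real,
            Real.norm_eq_abs, abs_of_pos (by positivity)]
          have : r / (n + 1) ≤ r := div_le_self hr0.le (by
            have : (0:ℝ) ≤ n := Nat.cast_nonneg n
            linarith)
          linarith
        exact AEStronglyMeasurable.const_smul ((hmeas _ hmem).sub (hmeas z₀ hz₀))
          (((r / (n + 1) : ℝ) : ℂ)⁻¹)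
      · rw [ae_restrict_iff' measurableSet_uIoc]
        filter_upwards with t ht
        exact hlim t (hu ht))
    (by filter_upwards with t ht z hz using hderiv z hz t (hu ht))
    (by simp)
    (by filter_upwards with t ht z hz using hdiff z (hballV hz) t (hu ht))
  exact hres.2.differentiableAt


/-- union of the edges -/
def RJ_ed : List ℂ → Set ℂ
  | [] => ∅
  | [a] => {a}
  | a :: b :: l => segment ℝ a b ∪ RJ_ed (b :: l)

theorem RJ_polyIn_iff (V : Set ℂ) : ∀ L : List ℂ, PolyIn V L ↔ RJ_ed L ⊆ V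
  | [] => by simp [PolyIn, RJ_ed]
  | [a] => by simp [PolyIn, RJ_ed]
  | a :: b :: l => by
    rw [PolyIn, RJ_ed, union_subset_iff, RJ_polyIn_iff V (b :: l)]

theorem RJ_ed_compact : ∀ L : List ℂ, IsCompact (RJ_ed L)
  | [] => isCompact_empty
  | [a] => isCompact_singleton
  | a :: b :: l => by
    rw [RJ_ed]
    refine IsCompact.union ?_ (RJ_ed_compact (b :: l))
    rw [segment_eq_image']
    exact isCompact_Icc.image (by fun_prop)

theorem RJ_mem {a b : ℂ} {t : ℝ} (ht : t ∈ Icc (0:ℝ) 1) : a + t * (b - a) ∈ segment ℝ a b := by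
  rw [segment_eq_image']
  exact ⟨t, ht, by simp⟩

theorem RJ_param {V : Set ℂ} (hV : IsOpen V) {F : ℂ → ℂ → ℂ} : ∀ L : List ℂ,
    ContinuousOn (fun p : ℂ × ℂ => F p.1 p.2) (V ×ˢ RJ_ed L) →
    (∀ w ∈ RJ_ed L, DifferentiableOn ℂ (fun z => F z w) V) →
    DifferentiableOn ℂ (fun z => polyI (F z) L) V
  | [] => fun _ _ => by simp [polyI]
  | [a] => fun _ _ => by simp [polyI]
  | a :: b :: l => fun hF hd => by
    have h1 : DifferentiableOn ℂ (fun z => polyI (F z) (b :: l)) V :=
      RJ_param hV (b :: l) (hF.mono (prod_mono (Subset.refl _) subset_union_right))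
        (fun w hw => hd w (Or.inr hw))
    have h2 : DifferentiableOn ℂ (fun z => ∫ t in (0:ℝ)..1, F z (a + t * (b - a))) V := by
      apply RJ_paramI hV (F := fun z t => F z (a + t * (b - a)))
      · have h3 : ContinuousOn (fun p : ℂ × ℝ => ((p.1, a + p.2 * (b - a)) : ℂ × ℂ))
            (V ×ˢ Icc 0 1) := by
          apply Continuous.continuousOn
          fun_prop
        exact hF.comp h3 (fun p hp => ⟨hp.1, Or.inl (RJ_mem hp.2)⟩)
      · intro t ht
        exact hd _ (Or.inl (RJ_mem ht))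
    have h3 : (fun z => polyI (F z) (a :: b :: l)) =
        fun z => (b - a) * (∫ t in (0:ℝ)..1, F z (a + t * (b - a))) + polyI (F z) (b :: l) := by
      funext z
      rw [polyI, segI]
    rw [h3]
    exact (h2.const_mul _).add h1

theorem RJ_congr {f g : ℂ → ℂ} : ∀ L : List ℂ, (∀ w ∈ RJ_ed L, f w = g w) → polyI f L = polyI g L
  | [] => fun _ => rfl
  | [a] => fun _ => rfl
  | a :: b :: l => fun h => by
    rw [polyI, polyI, RJ_congr (b :: l) (fun w hw => h w (Or.inr hw)), segI, segI]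
    congr 2
    apply intervalIntegral.integral_congr
    intro t ht
    rw [uIcc_of_le zero_le_one] at ht
    exact h _ (Or.inl (RJ_mem ht))

theorem RJ_sub {f g : ℂ → ℂ} (c : ℂ) : ∀ L : List ℂ, ContinuousOn f (RJ_ed L) →
    ContinuousOn g (RJ_ed L) → polyI (fun w => f w - c * g w) L = polyI f L - c * polyI g L
  | [] => fun _ _ => by simp [polyI]
  | [a] => fun _ _ => by simp [polyI]
  | a :: b :: l => fun hf hg => by
    have hγ : ContinuousOn (fun t : ℝ => a + (t:ℂ) * (b - a)) (uIcc 0 1) := by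
      apply Continuous.continuousOn
      fun_prop
    have hm : ∀ t ∈ uIcc (0:ℝ) 1, a + (t:ℂ) * (b - a) ∈ RJ_ed (a :: b :: l) := by
      intro t ht
      rw [uIcc_of_le zero_le_one] at ht
      exact Or.inl (RJ_mem ht)
    have h1 : IntervalIntegrable (fun t : ℝ => f (a + t * (b - a))) volume 0 1 :=
      (hf.comp hγ hm).intervalIntegrable
    have h2 : IntervalIntegrable (fun t : ℝ => g (a + t * (b - a))) volume 0 1 :=
      (hg.comp hγ hm).intervalIntegrable
    rw [polyI, polyI, polyI, RJ_sub c (b :: l) (hf.mono subset_union_right)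
      (hg.mono subset_union_right), segI, segI, segI,
      intervalIntegral.integral_sub h1 (h2.const_mul c), intervalIntegral.integral_const_mul]
    ring

theorem RJ_bound : ∀ L : List ℂ, ∃ C : ℝ, 0 ≤ C ∧ ∀ (f : ℂ → ℂ) (M : ℝ),
    (∀ w ∈ RJ_ed L, ‖f w‖ ≤ M) → ‖polyI f L‖ ≤ C * M
  | [] => ⟨0, le_rfl, fun f M _ => by simp [polyI]⟩
  | [a] => ⟨0, le_rfl, fun f M _ => by simp [polyI]⟩
  | a :: b :: l => by
    obtain ⟨C, hC, h⟩ := RJ_bound (b :: l)
    refine ⟨‖b - a‖ + C, by positivity, ?_⟩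
    intro f M hM
    rw [polyI, segI, add_mul]
    refine (norm_add_le _ _).trans (add_le_add ?_ (h f M (fun w hw => hM w (Or.inr hw))))
    rw [norm_mul]
    apply mul_le_mul_of_nonneg_left _ (norm_nonneg _)
    have h1 : ‖∫ t in (0:ℝ)..1, f (a + t * (b - a))‖ ≤ M * |1 - 0| := by
      apply intervalIntegral.norm_integral_le_of_norm_le_const
      intro t ht
      rw [uIoc_of_le zero_le_one] at ht
      exact hM _ (Or.inl (RJ_mem (Ioc_subset_Icc_self ht)))
    simpa using h1

theorem RJ_dslope_cont {U : Set ℂ} (hU : IsOpen U) {f : ℂ → ℂ} (hf : DifferentiableOn ℂ f U) :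
    ContinuousOn (fun p : ℂ × ℂ => dslope f p.1 p.2) (U ×ˢ U) := by
  rintro ⟨z, w⟩ ⟨hz, hw⟩
  apply ContinuousAt.continuousWithinAt
  have hfc : ∀ z ∈ U, ContinuousAt f z := fun z hz =>
    (hf.differentiableAt (hU.mem_nhds hz)).continuousAt
  by_cases hzw : z = w
  · subst hzw
    have hstr : HasStrictDerivAt f (deriv f z) z :=
      ((hf.analyticAt (hU.mem_nhds hz)).hasStrictDerivAt)
    have hder : ContinuousAt (deriv f) z := by
      have := (hf.analyticAt (hU.mem_nhds hz)).deriv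
      exact this.continuousAt
    rw [Metric.continuousAt_iff]
    intro ε hε
    have h1 := (hasStrictDerivAt_iff_hasStrictFDerivAt.mp hstr).isLittleO.def (half_pos hε)
    rw [Metric.eventually_nhds_iff] at h1
    obtain ⟨δ₁, hδ₁, h1⟩ := h1
    obtain ⟨δ₂, hδ₂, h2⟩ := Metric.continuousAt_iff.mp hder ε hε
    refine ⟨min δ₁ δ₂, lt_min hδ₁ hδ₂, ?_⟩
    rintro ⟨x, y⟩ hxy
    have hx : dist x z < δ₂ := (le_max_left _ _).trans_lt (hxy.trans_le (min_le_right _ _))
    have hxy' : dist ((y, x) : ℂ × ℂ) (z, z) < δ₁ := by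
      have := hxy.trans_le (min_le_left δ₁ δ₂)
      rw [Prod.dist_eq] at this ⊢
      rw [max_comm]; exact this
    show dist (dslope f x y) (dslope f z z) < ε
    rw [dslope_same]
    by_cases hne : y = x
    · subst hne
      rw [dslope_same]
      exact h2 hx
    · rw [dslope_of_ne f hne, slope_def_field, dist_eq_norm]
      have h3 := h1 hxy'
      simp only at h3
      have hpos : 0 < ‖y - x‖ := norm_pos_iff.mpr (sub_ne_zero.mpr hne)
      have h4 : (f y - f x) / (y - x) - deriv f z =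
          (f y - f x - (y - x) * deriv f z) / (y - x) := by
        have : y - x ≠ 0 := sub_ne_zero.mpr hne
        field_simp
      rw [h4, norm_div, div_lt_iff₀ hpos]
      have h5 : ‖f y - f x - (y - x) * deriv f z‖ ≤ ε / 2 * ‖y - x‖ := by
        simpa using h3
      nlinarith
  · have hev : (fun p : ℂ × ℂ => dslope f p.1 p.2) =ᶠ[𝓝 (z, w)]
        fun p : ℂ × ℂ => (f p.2 - f p.1) / (p.2 - p.1) := by
      have hne : ∀ᶠ p : ℂ × ℂ in 𝓝 (z, w), p.2 ≠ p.1 := by
        have : IsOpen {p : ℂ × ℂ | p.2 ≠ p.1} := isOpen_ne_fun continuous_snd continuous_fst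
        exact this.mem_nhds (fun h => hzw h.symm)
      filter_upwards [hne] with p hp
      rw [dslope_of_ne f hp, slope_def_field]
    refine ContinuousAt.congr ?_ hev.symm
    apply ContinuousAt.div
    · apply ContinuousAt.sub
      · exact ContinuousAt.comp (f := Prod.snd) (hfc w hw) continuousAt_snd
      · exact ContinuousAt.comp (f := Prod.fst) (hfc z hz) continuousAt_fst
    · exact continuousAt_snd.sub continuousAt_fst
    · exact sub_ne_zero.mpr (fun h => hzw h.symm)

theorem RJ_dslope_symm (f : ℂ → ℂ) (z w : ℂ) : dslope f z w = dslope f w z := by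
  by_cases h : z = w
  · subst h; rfl
  · rw [dslope_of_ne f h, dslope_of_ne f (Ne.symm h), slope_comm]


theorem RJ_head (a : ℂ) (M : List ℂ) : a ∈ RJ_ed (a :: M) := by
  cases M with
  | nil => exact mem_singleton a
  | cons b l => exact Or.inl (left_mem_segment ℝ a b)

theorem RJ_int_zero (a : ℂ) (l : List ℂ) (z : ℂ) (hz : z ∉ RJ_ed (a :: (l ++ [a])))
    (h : ‖polyI (fun w => (w - z)⁻¹) (a :: (l ++ [a]))‖ < 1) :
    polyI (fun w => (w - z)⁻¹) (a :: (l ++ [a])) = 0 := by
  have hP : PolyIn {z}ᶜ (a :: (l ++ [a])) := by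
    rw [RJ_polyIn_iff]
    intro w hw hwz
    rw [mem_singleton_iff] at hwz
    exact hz (hwz ▸ hw)
  obtain ⟨n, hn⟩ := wnd_int a l z hP
  rw [hn] at h ⊢
  have h1 : ‖(2 * Real.pi * Complex.I * n : ℂ)‖ = 2 * Real.pi * |(n:ℝ)| := by
    rw [norm_mul, norm_mul, norm_mul, Complex.norm_I, Complex.norm_real, Complex.norm_intCast,
      Real.norm_eq_abs, abs_of_pos Real.pi_pos]
    simp
  rw [h1] at h
  have hn0 : n = 0 := by
    by_contra hne
    have h2 : (1:ℝ) ≤ |(n:ℝ)| := by exact_mod_cast Int.one_le_abs hne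
    have h3 := Real.pi_gt_three
    nlinarith
  rw [hn0]; simp

theorem RJ_key {U : Set ℂ} (hU : IsOpen U) {f : ℂ → ℂ} (hf : DifferentiableOn ℂ f U)
    (a : ℂ) (l : List ℂ) (hl : PolyIn U (a :: (l ++ [a])))
    (h0 : ∀ z, z ∉ U → polyI (fun w => (w - z)⁻¹) (a :: (l ++ [a])) = 0) {z : ℂ} (hz : z ∈ U) :
    polyI (dslope f z) (a :: (l ++ [a])) = 0 := by
  classical
  set L := a :: (l ++ [a]) with hL
  have hPU : RJ_ed L ⊆ U := (RJ_polyIn_iff U L).mp hl
  have hPc : IsCompact (RJ_ed L) := RJ_ed_compact L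
  have hPo : IsOpen (RJ_ed L)ᶜ := hPc.isClosed.isOpen_compl
  have hfc : ContinuousOn f (RJ_ed L) := hf.continuousOn.mono hPU
  -- the three functions
  have hh : DifferentiableOn ℂ (fun z => polyI (dslope f z) L) U := by
    apply RJ_param hU (F := fun z w => dslope f z w) L
    · exact (RJ_dslope_cont hU hf).mono (prod_mono (Subset.refl _) hPU)
    · intro w hw
      have h1 : (fun z => dslope f z w) = dslope f w := by
        funext z; exact RJ_dslope_symm f z w
      rw [h1]
      exact (Complex.differentiableOn_dslope (hU.mem_nhds (hPU hw))).mpr hf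
  have hne : ∀ z ∈ (RJ_ed L)ᶜ, ∀ w ∈ RJ_ed L, w - z ≠ 0 := by
    intro z hz w hw h
    rw [sub_eq_zero] at h
    exact hz (h ▸ hw)
  have hW : DifferentiableOn ℂ (fun z => polyI (fun w => (w - z)⁻¹) L) (RJ_ed L)ᶜ := by
    apply RJ_param hPo (F := fun z w => (w - z)⁻¹) L
    · apply ContinuousOn.inv₀
      · fun_prop
      · rintro ⟨z, w⟩ ⟨hz, hw⟩
        exact hne z hz w hw
    · intro w hw
      apply DifferentiableOn.inv
      · fun_prop
      · intro z hz
        exact hne z hz w hw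
  have hh1 : DifferentiableOn ℂ (fun z => polyI (fun w => f w * (w - z)⁻¹) L) (RJ_ed L)ᶜ := by
    apply RJ_param hPo (F := fun z w => f w * (w - z)⁻¹) L
    · apply ContinuousOn.mul
      · exact hfc.comp continuousOn_snd (fun p hp => hp.2)
      · apply ContinuousOn.inv₀
        · fun_prop
        · rintro ⟨z, w⟩ ⟨hz, hw⟩
          exact hne z hz w hw
    · intro w hw
      apply DifferentiableOn.const_mul
      apply DifferentiableOn.inv
      · fun_prop
      · intro z hz
        exact hne z hz w hw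
  have hagree : ∀ z ∈ (RJ_ed L)ᶜ, polyI (fun w => (w - z)⁻¹) L = 0 →
      polyI (dslope f z) L = polyI (fun w => f w * (w - z)⁻¹) L := by
    intro z hz hWz
    have hinv : ContinuousOn (fun w => (w - z)⁻¹) (RJ_ed L) := by
      apply ContinuousOn.inv₀
      · fun_prop
      · intro w hw
        exact hne z hz w hw
    have h1 : polyI (dslope f z) L = polyI (fun w => f w * (w - z)⁻¹ - f z * (w - z)⁻¹) L := by
      apply RJ_congr
      intro w hw
      have hwz : w ≠ z := sub_ne_zero.mp (hne z hz w hw)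
      rw [dslope_of_ne f hwz, slope_def_field, div_eq_mul_inv, sub_mul]
    rw [h1, RJ_sub (f := fun w => f w * (w - z)⁻¹) (g := fun w => (w - z)⁻¹) (f z) L
      (hfc.mul hinv) hinv, hWz, mul_zero, sub_zero]
  -- the glued function
  set Φ : ℂ → ℂ := fun z => if z ∈ U then polyI (dslope f z) L
    else polyI (fun w => f w * (w - z)⁻¹) L with hΦ
  have hΦ1 : ∀ z ∈ (RJ_ed L)ᶜ, polyI (fun w => (w - z)⁻¹) L = 0 →
      Φ z = polyI (fun w => f w * (w - z)⁻¹) L := by
    intro z hz hWz
    by_cases hzU : z ∈ U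
    · rw [hΦ]; simp only [hzU, if_true]; exact hagree z hz hWz
    · rw [hΦ]; simp only [hzU, if_false]
  have hΦd : Differentiable ℂ Φ := by
    intro z
    by_cases hzU : z ∈ U
    · have hev : Φ =ᶠ[𝓝 z] fun z => polyI (dslope f z) L := by
        filter_upwards [hU.mem_nhds hzU] with x hx
        rw [hΦ]; simp only [hx, if_true]
      exact ((hh.differentiableAt (hU.mem_nhds hzU)).congr_of_eventuallyEq hev)
    · have hzP : z ∈ (RJ_ed L)ᶜ := fun h => hzU (hPU h)
      have hWz := h0 z hzU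
      have hcont := (hW.differentiableAt (hPo.mem_nhds hzP)).continuousAt
      have hev1 : ∀ᶠ x in 𝓝 z, ‖polyI (fun w => (w - x)⁻¹) L‖ < 1 := by
        have h1 : ContinuousAt (fun x => ‖polyI (fun w => (w - x)⁻¹) L‖) z := hcont.norm
        have h2 : ‖polyI (fun w => (w - z)⁻¹) L‖ < 1 := by rw [hWz, norm_zero]; norm_num
        exact h1.eventually (gt_mem_nhds h2)
      have hev : Φ =ᶠ[𝓝 z] fun z => polyI (fun w => f w * (w - z)⁻¹) L := by
        filter_upwards [hev1, hPo.mem_nhds hzP] with x hx hxP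
        exact hΦ1 x hxP (RJ_int_zero a l x hxP hx)
      exact ((hh1.differentiableAt (hPo.mem_nhds hzP)).congr_of_eventuallyEq hev)
  obtain ⟨C, hC, hbd⟩ := RJ_bound L
  obtain ⟨R, hR⟩ := hPc.isBounded.exists_norm_le
  obtain ⟨M, hM⟩ := hPc.exists_bound_of_continuousOn hfc
  have hM0 : 0 ≤ M := (norm_nonneg _).trans (hM a (RJ_head a _))
  have hlim : Tendsto Φ (cocompact ℂ) (𝓝 0) := by
    rw [Metric.tendsto_nhds]
    intro ε hε
    set T : ℝ := C + C * M / ε + 1 with hT
    have hCM : 0 ≤ C * M / ε := by positivity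
    have hT0 : 0 < T := by rw [hT]; linarith
    filter_upwards [(tendsto_norm_cocompact_atTop (E := ℂ)).eventually_ge_atTop (R + T)] with z hz
    have hdist : ∀ w ∈ RJ_ed L, T ≤ ‖w - z‖ := by
      intro w hw
      have h1 := hR w hw
      have h2 : ‖z‖ ≤ ‖w‖ + ‖w - z‖ := by
        calc ‖z‖ = ‖w - (w - z)‖ := by congr 1; ring
          _ ≤ ‖w‖ + ‖w - z‖ := norm_sub_le _ _
      linarith
    have hinv : ∀ w ∈ RJ_ed L, ‖(w - z)⁻¹‖ ≤ T⁻¹ := by
      intro w hw
      rw [norm_inv]
      exact inv_anti₀ hT0 (hdist w hw)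
    have hzP : z ∈ (RJ_ed L)ᶜ := by
      intro h
      have := hdist z h
      rw [sub_self, norm_zero] at this
      linarith
    have hW1 : ‖polyI (fun w => (w - z)⁻¹) L‖ < 1 := by
      refine (hbd _ _ hinv).trans_lt ?_
      rw [← div_eq_mul_inv, div_lt_one hT0, hT]
      linarith
    rw [hΦ1 z hzP (RJ_int_zero a l z hzP hW1), dist_zero_right]
    have h2 : ‖polyI (fun w => f w * (w - z)⁻¹) L‖ ≤ C * (M * T⁻¹) := by
      apply hbd
      intro w hw
      rw [norm_mul]
      exact mul_le_mul (hM w hw) (hinv w hw) (norm_nonneg _) hM0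
    refine h2.trans_lt ?_
    rw [← mul_assoc, ← div_eq_mul_inv, div_lt_iff₀ hT0]
    have h3 : ε * T = ε * C + C * M + ε := by
      rw [hT]; field_simp
    rw [h3]
    nlinarith
  have hconst := hΦd.eq_const_of_tendsto_cocompact hlim
  have hfin : Φ z = 0 := by rw [hconst]; rfl
  rw [hΦ] at hfin
  simpa only [hz, if_true] using hfin

theorem dixon {U : Set ℂ} (hU : IsOpen U) {f : ℂ → ℂ} (hf : DifferentiableOn ℂ f U)
    (a : ℂ) (l : List ℂ) (hl : PolyIn U (a :: (l ++ [a])))
    (h0 : ∀ z, z ∉ U → polyI (fun w => (w - z)⁻¹) (a :: (l ++ [a])) = 0) :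
    polyI f (a :: (l ++ [a])) = 0 := by
  have hPU : RJ_ed (a :: (l ++ [a])) ⊆ U := (RJ_polyIn_iff U _).mp hl
  have haU : a ∈ U := hPU (RJ_head a _)
  have hf2 : DifferentiableOn ℂ (fun w => f w * (w - a)) U := by
    apply hf.mul
    fun_prop
  have h1 := RJ_key hU hf2 a l hl h0 haU
  rw [← h1]
  apply RJ_congr
  intro w hw
  by_cases hwa : w = a
  · subst hwa
    rw [dslope_same]
    have h2 : HasDerivAt (fun x => f x * (x - w)) (deriv f w * (w - w) + f w * 1) w := by
      apply HasDerivAt.mul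
      · exact (hf.differentiableAt (hU.mem_nhds haU)).hasDerivAt
      · exact (hasDerivAt_id w).sub_const w
    rw [h2.deriv]
    ring
  · rw [dslope_of_ne _ hwa, slope_def_field]
    have : w - a ≠ 0 := sub_ne_zero.mpr hwa
    simp only [sub_self, mul_zero, sub_zero]
    field_simp

end DS

end S_H36_DS_RJ
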