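import Pool.Agent.H12.KS.K07
import Pool.Agent.H12.KS.K08

/-! Joined modules of the proof of MP_8a27c0_an (one section per module). -/

section S_H36_DS_RC

/-!
RC (extremal map).  Proof.  Let `closedBall z₀ r ⊆ U`.  By the Cauchy estimate `‖deriv g z₀‖ ≤ 1/r` for all
`g ∈ Fam U`, so `S = sup ‖deriv g z₀‖` is finite, and `S > 0` by `deriv_ne_zero_of_injOn`.  Take
`g n ∈ Fam U` with `‖deriv (g n) z₀‖ → S`; by `montel` a subsequence converges locally uniformly to `f`,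
`deriv (g (k n)) z₀ → deriv f z₀` (`TendstoLocallyUniformlyOn.deriv`), so `‖deriv f z₀‖ = S > 0`, hence `f`
is not constant near `z₀` and by `hurwitz_inj` it is injective on `U`.  `‖f z‖ ≤ 1` on `U`; by the open
mapping theorem (or the maximum principle) `‖f z‖ < 1` on `U`, since `f` is not constant.  So `f ∈ Fam U`.
-/

namespace DS
open Metric Set Filter Topology

theorem extremal {U : Set ℂ} (hU : IsOpen U) (hc : IsConnected U) {z₀ : ℂ} (hz₀ : z₀ ∈ U)
    (hne : (Fam U).Nonempty) :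
    ∃ f ∈ Fam U, 0 < ‖deriv f z₀‖ ∧ ∀ g ∈ Fam U, ‖deriv g z₀‖ ≤ ‖deriv f z₀‖ := by
  obtain ⟨r, hr, hrU⟩ := Metric.isOpen_iff.1 hU z₀ hz₀
  have hcb : closedBall z₀ (r/2) ⊆ U := (closedBall_subset_ball (by linarith)).trans hrU
  set D : Set ℝ := (fun g : ℂ → ℂ => ‖deriv g z₀‖) '' Fam U with hD
  have hbd : BddAbove D := by
    refine ⟨1 / (r/2), ?_⟩
    rintro _ ⟨g, ⟨gd, gm, gi⟩, rfl⟩
    refine Complex.norm_deriv_le_of_forall_mem_sphere_norm_le (by linarith) ?_ ?_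
    · exact (gd.mono hcb).diffContOnCl_ball (subset_refl _)
    · intro z hz
      have := gm (hcb (sphere_subset_closedBall hz))
      exact (mem_ball_zero_iff.1 this).le
  have hDne : D.Nonempty := hne.image _
  have hle : ∀ g ∈ Fam U, ‖deriv g z₀‖ ≤ sSup D := fun g hg => le_csSup hbd ⟨g, hg, rfl⟩
  have hSpos : 0 < sSup D := by
    obtain ⟨g, hg⟩ := hne
    exact lt_of_lt_of_le (norm_pos_iff.2 (deriv_ne_zero_of_injOn hU hg.1 hg.2.2 hz₀)) (hle g hg)
  obtain ⟨u, -, hut, hu⟩ := exists_seq_tendsto_sSup hDne hbd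
  choose g hg hgu using hu
  obtain ⟨k, f, hk, hfd, hlim⟩ := montel hU g (fun n => (hg n).1)
    (fun n z hz => (mem_ball_zero_iff.1 ((hg n).2.1 hz)).le)
  have hder : Tendsto (fun n => ‖deriv (g (k n)) z₀‖) atTop (𝓝 ‖deriv f z₀‖) :=
    ((hlim.deriv (Eventually.of_forall fun n => (hg (k n)).1) hU).tendsto_at hz₀).norm
  have hder2 : Tendsto (fun n => ‖deriv (g (k n)) z₀‖) atTop (𝓝 (sSup D)) := by
    have := hut.comp hk.tendsto_atTop
    refine this.congr (fun n => ?_)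
    exact (hgu (k n)).symm
  have hfS : ‖deriv f z₀‖ = sSup D := tendsto_nhds_unique hder hder2
  have hnc : ∀ c, ¬ EqOn f (fun _ => c) U := by
    intro c hcst
    have : deriv f z₀ = 0 := by
      have h1 : f =ᶠ[𝓝 z₀] fun _ => c := by
        filter_upwards [hU.mem_nhds hz₀] with z hz using hcst hz
      rw [h1.deriv_eq]; simp
    rw [this, norm_zero] at hfS
    linarith
  have hinj : InjOn f U := by
    rcases hurwitz_inj hU hc.isPreconnected (fun n => g (k n)) f (fun n => (hg (k n)).1)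
      (fun n => (hg (k n)).2.2) hlim with h | ⟨c, h⟩
    · exact h
    · exact absurd h (hnc c)
  have hle1 : ∀ z ∈ U, ‖f z‖ ≤ 1 := by
    intro z hz
    exact le_of_tendsto (hlim.tendsto_at hz).norm
      (Eventually.of_forall fun n => (mem_ball_zero_iff.1 ((hg (k n)).2.1 hz)).le)
  have han : AnalyticOnNhd ℂ f U := hfd.analyticOnNhd hU
  have hopen : IsOpen (f '' U) := by
    rcases han.is_constant_or_isOpen hc.isPreconnected with ⟨w, hw⟩ | h
    · exact absurd (fun z hz => hw z hz) (hnc w)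
    · exact h U (subset_refl _) hU
  have hmaps : MapsTo f U (ball 0 1) := by
    intro z hz
    have h1 : f '' U ⊆ closedBall 0 1 := by
      rintro _ ⟨w, hw, rfl⟩
      exact mem_closedBall_zero_iff.2 (hle1 w hw)
    have h2 : f '' U ⊆ interior (closedBall 0 1) := interior_maximal h1 hopen
    rw [interior_closedBall (0:ℂ) one_ne_zero] at h2
    exact h2 ⟨z, hz, rfl⟩
  refine ⟨f, ⟨hfd, hmaps, hinj⟩, ?_, ?_⟩
  · rw [hfS]; exact hSpos
  · intro g hg
    rw [hfS]; exact hle g hg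

end DS

end S_H36_DS_RC

section S_H36_DS_RF

/-!
RF (Riemann mapping theorem for domains with square roots).  Proof.  By `fam_nonempty` and `extremal`
there is an extremal `f ∈ Fam U` for `z₀`; by `koebe_step` it is onto the disc.  Replace it by
`B (f z₀) ∘ f` (`B a w = (w - a) / (1 - conj a * w)`) to get `f z₀ = 0`.  The inverse `F` of the bijection
`f : U → ball 0 1` is holomorphic: `f` has nonzero derivative (`deriv_ne_zero_of_injOn`) and is open, so
`F` is continuous and `HasStrictDerivAt.of_local_left_inverse` / the inverse function theorem applies.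
-/

namespace DS
open Metric Set Filter Topology

/-- the automorphism of the disc moving `a` to `0` -/
private noncomputable def RF_B (a w : ℂ) : ℂ := (w - a) / (1 - (starRingEnd ℂ) a * w)

private lemma RF_den {a w : ℂ} (ha : ‖a‖ < 1) (hw : ‖w‖ < 1) : 1 - (starRingEnd ℂ) a * w ≠ 0 := by
  intro h
  have h1 : (starRingEnd ℂ) a * w = 1 := (sub_eq_zero.1 h).symm
  have h2 : ‖(starRingEnd ℂ) a * w‖ = 1 := by rw [h1]; simp
  rw [norm_mul, Complex.norm_conj] at h2
  nlinarith [norm_nonneg a, norm_nonneg w]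

private lemma RF_lt {a w : ℂ} (ha : ‖a‖ < 1) (hw : ‖w‖ < 1) : ‖RF_B a w‖ < 1 := by
  have hden := RF_den ha hw
  rw [RF_B, norm_div, div_lt_one (norm_pos_iff.2 hden)]
  have h1 : ‖w - a‖ ^ 2 < ‖1 - (starRingEnd ℂ) a * w‖ ^ 2 := by
    have ha2 : a.re * a.re + a.im * a.im < 1 := by
      have := Complex.normSq_apply a
      rw [Complex.normSq_eq_norm_sq] at this
      rw [← this]; nlinarith [norm_nonneg a]
    have hw2 : w.re * w.re + w.im * w.im < 1 := by
      have := Complex.normSq_apply w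
      rw [Complex.normSq_eq_norm_sq] at this
      rw [← this]; nlinarith [norm_nonneg w]
    rw [← Complex.normSq_eq_norm_sq, ← Complex.normSq_eq_norm_sq, Complex.normSq_apply,
      Complex.normSq_apply]
    simp only [Complex.sub_re, Complex.sub_im, Complex.one_re, Complex.one_im, Complex.mul_re,
      Complex.mul_im, Complex.conj_re, Complex.conj_im]
    nlinarith [mul_pos (sub_pos.2 ha2) (sub_pos.2 hw2)]
  exact lt_of_pow_lt_pow_left₀ 2 (norm_nonneg _) h1

private lemma RF_inv {a w : ℂ} (ha : ‖a‖ < 1) (hw : ‖w‖ < 1) : RF_B (-a) (RF_B a w) = w := by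
  have hden := RF_den ha hw
  have hb := RF_lt ha hw
  have hden2 := RF_den (a := -a) (by simpa using ha) hb
  have haa : (1 : ℂ) - (starRingEnd ℂ) a * a ≠ 0 := RF_den ha ha
  unfold RF_B at hden2 ⊢
  rw [div_eq_iff hden2]
  rw [map_neg] at hden2 ⊢
  generalize (starRingEnd ℂ) a = c at *
  have key : (w - a) / (1 - c * w) - -a = w * (1 - -c * ((w - a) / (1 - c * w))) := by
    have e : (1 - c * w) ≠ 0 := hden
    have e1 : (w - a) / (1 - c * w) * (1 - c * w) = w - a := div_mul_cancel₀ _ e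
    apply mul_right_cancel₀ e
    linear_combination (1 - w * c) * e1
  exact key

private lemma RF_diff {a : ℂ} (ha : ‖a‖ < 1) : DifferentiableOn ℂ (RF_B a) (ball 0 1) := by
  intro w hw
  have hw' : ‖w‖ < 1 := mem_ball_zero_iff.1 hw
  unfold RF_B
  refine DifferentiableWithinAt.div (by fun_prop) (by fun_prop) (RF_den ha hw')

theorem riemann_map {U : Set ℂ} (hU : IsOpen U) (hc : IsConnected U) (hne : U ≠ univ)
    (hsq : ∀ f : ℂ → ℂ, DifferentiableOn ℂ f U → (∀ z ∈ U, f z ≠ 0) →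
      ∃ s : ℂ → ℂ, DifferentiableOn ℂ s U ∧ ∀ z ∈ U, s z ^ 2 = f z)
    {z₀ : ℂ} (hz₀ : z₀ ∈ U) :
    ∃ f F : ℂ → ℂ, DifferentiableOn ℂ f U ∧ DifferentiableOn ℂ F (ball 0 1) ∧
      MapsTo f U (ball 0 1) ∧ MapsTo F (ball 0 1) U ∧ (∀ z ∈ U, F (f z) = z) ∧
      (∀ w ∈ ball (0:ℂ) 1, f (F w) = w) ∧ f z₀ = 0 := by
  obtain ⟨f, hf, -, hmax⟩ := extremal hU hc hz₀ (fam_nonempty hU hc hne hsq)
  have hsurj : ∀ a ∈ ball (0:ℂ) 1, ∃ z ∈ U, f z = a := by
    by_contra hcon
    push Not at hcon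
    obtain ⟨a, ha, hna⟩ := hcon
    obtain ⟨g, hg, hlt⟩ := koebe_step hU hc hz₀ hsq hf
      ⟨a, ha, by rintro ⟨z, hz, hza⟩; exact hna z hz hza⟩
    exact absurd (hmax g hg) (not_le.2 hlt)
  obtain ⟨fd, fm, fi⟩ := hf
  classical
  -- the inverse of `f`
  choose! G hGU hGf using hsurj
  have hGinv : ∀ z ∈ U, G (f z) = z := fun z hz =>
    fi (hGU _ (fm hz)) hz (hGf _ (fm hz))
  have han : AnalyticOnNhd ℂ f U := fd.analyticOnNhd hU
  have hopen : ∀ s ⊆ U, IsOpen s → IsOpen (f '' s) := by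
    rcases han.is_constant_or_isOpen hc.isPreconnected with ⟨w, hw⟩ | h
    · exfalso
      have h0 := hw (G 0) (hGU 0 (by simp))
      have h1 := hw (G (1/2)) (hGU (1/2) (by rw [mem_ball_zero_iff]; norm_num))
      rw [hGf 0 (by simp)] at h0
      rw [hGf (1/2) (by rw [mem_ball_zero_iff]; norm_num)] at h1
      rw [← h0] at h1
      norm_num at h1
    · exact h
  have hGcont : ∀ w ∈ ball (0:ℂ) 1, ContinuousAt G w := by
    intro w hw
    rw [ContinuousAt, Filter.tendsto_def]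
    intro V hV
    obtain ⟨W, hWV, hWo, hW⟩ := _root_.mem_nhds_iff.1 (Filter.inter_mem hV (hU.mem_nhds (hGU w hw)))
    have h1 : f '' W ∈ 𝓝 w :=
      (hopen W (fun x hx => (hWV hx).2) hWo).mem_nhds ⟨G w, hW, hGf w hw⟩
    filter_upwards [h1] with y hy
    obtain ⟨x, hx, rfl⟩ := hy
    show G (f x) ∈ V
    rw [hGinv x (hWV hx).2]
    exact (hWV hx).1
  have hGd : DifferentiableOn ℂ G (ball 0 1) := by
    intro w hw
    have h1 : HasStrictDerivAt f (deriv f (G w)) (G w) :=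
      (han (G w) (hGU w hw)).hasStrictDerivAt
    have h2 : HasStrictDerivAt G (deriv f (G w))⁻¹ w := by
      refine HasStrictDerivAt.of_local_left_inverse (hGcont w hw) h1
        (deriv_ne_zero_of_injOn hU fd fi (hGU w hw)) ?_
      filter_upwards [isOpen_ball.mem_nhds hw] with y hy using hGf y hy
    exact h2.hasDerivAt.differentiableAt.differentiableWithinAt
  -- normalisation
  set a := f z₀ with ha
  have ha1 : ‖a‖ < 1 := mem_ball_zero_iff.1 (fm hz₀)
  have ham : ‖-a‖ < 1 := by simpa using ha1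
  have hBm : MapsTo (RF_B a) (ball 0 1) (ball 0 1) := fun w hw =>
    mem_ball_zero_iff.2 (RF_lt ha1 (mem_ball_zero_iff.1 hw))
  have hBm' : MapsTo (RF_B (-a)) (ball 0 1) (ball 0 1) := fun w hw =>
    mem_ball_zero_iff.2 (RF_lt ham (mem_ball_zero_iff.1 hw))
  refine ⟨fun z => RF_B a (f z), fun w => G (RF_B (-a) w), ?_, ?_, ?_, ?_, ?_, ?_, ?_⟩
  · exact (RF_diff ha1).comp fd fm
  · exact hGd.comp (RF_diff ham) hBm'
  · exact fun z hz => hBm (fm hz)
  · exact fun w hw => hGU _ (hBm' hw)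
  · intro z hz
    show G (RF_B (-a) (RF_B a (f z))) = z
    rw [RF_inv ha1 (mem_ball_zero_iff.1 (fm hz)), hGinv z hz]
  · intro w hw
    show RF_B a (f (G (RF_B (-a) w))) = w
    rw [hGf _ (hBm' hw)]
    have := RF_inv ham (mem_ball_zero_iff.1 hw)
    rwa [neg_neg] at this
  · show RF_B a (f z₀) = 0
    rw [← ha, RF_B]; simp

end DS

end S_H36_DS_RF

section S_H36_DS_RX

/-!
RX (Riemann map of the complement of a continuum).  Proof.  Put `U = extDom K`, so
`Uᶜ = {w | w ≠ 0, w⁻¹ ∈ K}` (recall `0 ∈ K`).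
(1) `U` is open: near `w₀ = 0` because `K` is bounded, near `w₀ ≠ 0` because inversion is continuous and
`K` is closed.  `U` is connected: `(·)⁻¹ '' Kᶜ` is connected (`0 ∉ Kᶜ`), it is `U \ {0}`, and `0` is in its
closure (points of `Kᶜ` go to infinity).  `U ≠ univ`: `K` has a point `k ≠ 0` and `k⁻¹ ∉ U`.
(2) `hK`: if `C ⊆ Uᶜ` is compact, `C = O ∩ Uᶜ`, `O` open, then `C' = (·)⁻¹ '' C ⊆ K \ {0}` is compact and
relatively open in `K` (`C' = {k ∈ K | k ≠ 0 ∧ k⁻¹ ∈ O}`), `0 ∉ C'`; `K` is connected, so `C' = ∅`.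
(3) by `wnd_zero`, `dixon`, `prim_of_poly` every holomorphic function on `U` has a primitive; hence a nowhere
zero holomorphic `f` has a holomorphic logarithm (`g' = f'/f`, `f exp(-g)` is constant) and a square root.
(4) `riemann_map` with `z₀ = 0`.
-/

namespace DS
open Metric Set Filter Topology

theorem RX_isOpen {K : Set ℂ} (hK : IsCompact K) : IsOpen (extDom K) := by
  rw [isOpen_iff_mem_nhds]
  rintro w hw
  by_cases hw0 : w = 0
  · subst hw0
    obtain ⟨R, hR⟩ := hK.isBounded.subset_closedBall (0:ℂ)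
    have hR1 : 0 < max R 1 := lt_of_lt_of_le one_pos (le_max_right _ _)
    filter_upwards [ball_mem_nhds (0:ℂ) (inv_pos.mpr hR1)] with x hx
    by_cases hx0 : x = 0
    · exact Or.inl hx0
    · refine Or.inr fun hxK => ?_
      have h1 := hR hxK
      rw [mem_closedBall_zero_iff, norm_inv] at h1
      rw [mem_ball_zero_iff] at hx
      have hxp : 0 < ‖x‖ := norm_pos_iff.mpr hx0
      have h2 : max R 1 < ‖x‖⁻¹ := by
        rw [lt_inv_comm₀ hR1 hxp]; exact hx
      have := le_max_left R 1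
      linarith
  · have hw' : w⁻¹ ∉ K := hw.resolve_left hw0
    have h1 : (fun x : ℂ => x⁻¹) ⁻¹' Kᶜ ∈ 𝓝 w :=
      (continuousAt_inv₀ hw0).preimage_mem_nhds (hK.isClosed.isOpen_compl.mem_nhds hw')
    filter_upwards [h1] with x hx
    exact Or.inr hx

theorem RX_isConnected {K : Set ℂ} (hK : IsCompact K) (h0 : (0:ℂ) ∈ K) (hcc : IsConnected Kᶜ) :
    IsConnected (extDom K) := by
  have hne : ∀ z ∈ Kᶜ, z ≠ 0 := fun z hz h => hz (h ▸ h0)
  have him : IsConnected ((fun x : ℂ => x⁻¹) '' Kᶜ) :=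
    hcc.image _ (continuousOn_inv₀.mono fun z hz => hne z hz)
  refine him.subset_closure ?_ ?_
  · rintro _ ⟨z, hz, rfl⟩
    exact Or.inr (by simpa using hz)
  · intro w hw
    by_cases hw0 : w = 0
    · subst hw0
      have h1 : (extDom K) ∈ 𝓝 (0:ℂ) := (RX_isOpen hK).mem_nhds (Or.inl rfl)
      rw [mem_closure_iff_frequently]
      have h2 : ∀ᶠ x in 𝓝[≠] (0:ℂ), x ∈ (fun x : ℂ => x⁻¹) '' Kᶜ := by
        filter_upwards [nhdsWithin_le_nhds h1, self_mem_nhdsWithin] with x hx hx0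
        exact ⟨x⁻¹, hx.resolve_left hx0, inv_inv x⟩
      exact (h2.frequently).filter_mono nhdsWithin_le_nhds
    · exact subset_closure ⟨w⁻¹, hw.resolve_left hw0, inv_inv w⟩

theorem RX_pieces {K : Set ℂ} (hc : IsConnected K) (h0 : (0:ℂ) ∈ K) :
    ∀ C ⊆ (extDom K)ᶜ, IsCompact C → (∃ O, IsOpen O ∧ C = O ∩ (extDom K)ᶜ) → C = ∅ := by
  rintro C hC hCc ⟨O, hO, hCO⟩
  by_contra hne
  have hne : C.Nonempty := nonempty_iff_ne_empty.mpr hne
  have hC0 : ∀ z ∈ C, z ≠ 0 := fun z hz h => hC hz (Or.inl h)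
  set C' : Set ℂ := (fun x : ℂ => x⁻¹) '' C with hC'
  have hCK : ∀ z ∈ C, z⁻¹ ∈ K := by
    intro z hz
    by_contra h
    exact hC hz (Or.inr h)
  have hC'c : IsCompact C' := hCc.image_of_continuousOn (continuousOn_inv₀.mono fun z hz => hC0 z hz)
  set V : Set ℂ := {x : ℂ | x ≠ 0} ∩ (fun x : ℂ => x⁻¹) ⁻¹' O with hV
  have hVo : IsOpen V := by
    refine ContinuousOn.isOpen_inter_preimage ?_ isOpen_ne hO
    exact continuousOn_inv₀.mono fun z hz => hz
  have h1 : K ⊆ V ∪ C'ᶜ := by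
    intro k hk
    by_cases hkC : k ∈ C'
    · left
      obtain ⟨z, hz, rfl⟩ := hkC
      refine ⟨inv_ne_zero (hC0 z hz), ?_⟩
      show (z⁻¹)⁻¹ ∈ O
      rw [inv_inv]
      rw [hCO] at hz
      exact hz.1
    · right; exact hkC
  obtain ⟨z, hz⟩ := hne
  have h2 : (K ∩ V).Nonempty := by
    refine ⟨z⁻¹, hCK z hz, inv_ne_zero (hC0 z hz), ?_⟩
    show (z⁻¹)⁻¹ ∈ O
    rw [inv_inv]
    rw [hCO] at hz
    exact hz.1
  have h3 : (K ∩ C'ᶜ).Nonempty := by
    refine ⟨0, h0, ?_⟩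
    rintro ⟨y, hy, hy0⟩
    exact hC0 y hy (inv_eq_zero.mp hy0)
  obtain ⟨k, hkK, ⟨hk0, hkO⟩, hkC⟩ := hc.isPreconnected V C'ᶜ hVo hC'c.isClosed.isOpen_compl h1 h2 h3
  apply hkC
  refine ⟨k⁻¹, ?_, inv_inv k⟩
  rw [hCO]
  refine ⟨hkO, ?_⟩
  rintro (h | h)
  · exact hk0 (inv_eq_zero.mp h)
  · exact h (by rwa [inv_inv])

theorem RX_sqrt {U : Set ℂ} (hU : IsOpen U) (hc : IsConnected U)
    (hK : ∀ C ⊆ Uᶜ, IsCompact C → (∃ O, IsOpen O ∧ C = O ∩ Uᶜ) → C = ∅) {f : ℂ → ℂ}
    (hf : DifferentiableOn ℂ f U) (hf0 : ∀ z ∈ U, f z ≠ 0) :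
    ∃ s : ℂ → ℂ, DifferentiableOn ℂ s U ∧ ∀ z ∈ U, s z ^ 2 = f z := by
  have hprim : ∀ f : ℂ → ℂ, DifferentiableOn ℂ f U → ∃ F : ℂ → ℂ, ∀ z ∈ U, HasDerivAt F (f z) z :=
    fun f hf => prim_of_poly hU hc hf.continuousOn fun a l hl =>
      dixon hU hf a l hl fun z hz => wnd_zero hU hK a l hl hz
  have hdf : DifferentiableOn ℂ (deriv f) U := hf.deriv hU
  obtain ⟨g, hg⟩ := hprim (fun z => deriv f z / f z) (hdf.div hf hf0)
  have hfd : ∀ z ∈ U, HasDerivAt f (deriv f z) z := fun z hz =>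
    (hf.differentiableAt (hU.mem_nhds hz)).hasDerivAt
  have hh : ∀ z ∈ U, HasDerivAt (fun z => f z * Complex.exp (-g z)) 0 z := by
    intro z hz
    have h1 := (hfd z hz).mul ((hg z hz).neg.cexp)
    have h2 : deriv f z * Complex.exp (-g z) +
        f z * (Complex.exp (-g z) * -(deriv f z / f z)) = 0 := by
      have := hf0 z hz
      field_simp
      ring
    exact h1.congr_deriv h2
  obtain ⟨c, hcc⟩ : ∃ c, ∀ z ∈ U, f z * Complex.exp (-g z) = c := by
    obtain ⟨c, hc'⟩ := hU.exists_is_const_of_deriv_eq_zero hc.isPreconnected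
      (fun z hz => (hh z hz).differentiableAt.differentiableWithinAt)
      (fun z hz => (hh z hz).deriv)
    exact ⟨c, hc'⟩
  obtain ⟨z₁, hz₁⟩ := hc.nonempty
  have hc0 : c ≠ 0 := by
    rw [← hcc z₁ hz₁]
    exact mul_ne_zero (hf0 z₁ hz₁) (Complex.exp_ne_zero _)
  refine ⟨fun z => Complex.exp ((g z + Complex.log c) / 2), ?_, ?_⟩
  · intro z hz
    have := ((hg z hz).add_const (Complex.log c)).div_const 2 |>.cexp
    exact this.differentiableAt.differentiableWithinAt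
  · intro z hz
    show Complex.exp ((g z + Complex.log c) / 2) ^ 2 = f z
    rw [← Complex.exp_nat_mul]
    have : ((2:ℕ):ℂ) * ((g z + Complex.log c) / 2) = g z + Complex.log c := by
      push_cast; ring
    rw [this, Complex.exp_add, Complex.exp_log hc0, ← hcc z hz, Complex.exp_neg]
    have := Complex.exp_ne_zero (g z)
    field_simp

theorem ext_map {K : Set ℂ} (hK : IsCompact K) (hc : IsConnected K) (h0 : (0:ℂ) ∈ K)
    (hn : K.Nontrivial) (hcc : IsConnected Kᶜ) : ∃ ψ v : ℂ → ℂ, ExtMap K ψ v := by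
  have hU := RX_isOpen hK
  have hUc := RX_isConnected hK h0 hcc
  have hne : extDom K ≠ univ := by
    obtain ⟨k, hk, hk0⟩ := hn.exists_ne (0:ℂ)
    intro h
    have h1 : k⁻¹ ∈ extDom K := by rw [h]; trivial
    rcases h1 with h1 | h1
    · exact hk0 (inv_eq_zero.mp h1)
    · exact h1 (by rwa [inv_inv])
  have hz : (0:ℂ) ∈ extDom K := Or.inl rfl
  obtain ⟨f, F, h1, h2, h3, h4, h5, h6, h7⟩ := riemann_map hU hUc hne
    (fun f hf hf0 => RX_sqrt hU hUc (RX_pieces hc h0) hf hf0) hz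
  refine ⟨F, f, ⟨h2, h1, h4, h3, h6, h5, ?_⟩⟩
  have := h5 0 hz
  rwa [h7] at this

end DS

end S_H36_DS_RX
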