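import Pool.Agent.H12.KS.K04
import Pool.Agent.H12.KS.K06
import Pool.Agent.H12.KS.K09

/-! Joined modules of the proof of MP_8a27c0_an (one section per module). -/

section S_H12_CV_RM

/-!
RM (Riemann map of the filled set).  `W = fil X U ≠ univ`, `z₀ ∈ U`, `K = {w | w = 0 ∨ z₀ + w⁻¹ ∉ W}` (note: for `w = 0` the second condition is `z₀ + 0 ∉ W`, false, so `K` is
`{0} ∪ {(z - z₀)⁻¹ | z ∉ W}`).
Compact: `W` open contains a ball of radius `r₀` about `z₀`, so `‖w‖ ≤ 1/r₀` on `K`; closed: near `w ≠ 0` clear (`W` open), and `0 ∈ K`.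
Connected: each `w ∈ K`, `w ≠ 0`, `z = z₀ + w⁻¹ ∉ W`, is in a connected unbounded set `E ⊆ ℂ \ W`; then the image of `E` under `z ↦ (z - z₀)⁻¹` is connected, contained in `K`, contains `w`, and `0` is in its closure, so
together with `0` it is connected (`IsConnected.subset_closure`).  The set `E`: (i) `X = univ`: `z ∈ X \ U` has a noncompact component `C`; `C` is closed (`U` open), so unbounded; all points of `C` are not in `W` (`fil_comp`).
(ii) `X = ball 0 1`, `1 ≤ ‖z‖`: `E = {1 ≤ ‖z‖}` (connected: e.g. image of `[1, ∞) × circle`; `isConnected_compl_...` for balls in `ℂ`).  (iii) `X = ball 0 1`, `z ∈ X \ U`, noncompact component `C`: `closure C` is compact; if it were contained in `ball 0 1`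
it would be a connected subset of `X \ U` containing `z`, so `C = closure C` compact; so there is `y ∈ closure C` with `‖y‖ = 1` and `E = C ∪ {y} ∪ {1 ≤ ‖z‖}` is connected.
Nontrivial: a point not in `W`.  `Kᶜ = (fun z => (z - z₀)⁻¹) '' (W \ {z₀})`, and `W \ {z₀}` is connected (`W` open connected in the plane).
`exists_riem`: `ext_map` gives `ψ₁, v₁`; `extDom K = {w | z₀ + w ∈ W}` (`w = 0` or `w⁻¹ ∉ K`, i.e. `z₀ + w ∈ W`); `ψ z = z₀ + ψ₁ z`, `v x = v₁ (x - z₀)`.
`riem_logs`: every continuous nonvanishing function on `W` has a continuous logarithm: compose with `ψ` (`allLogs_ball`, `allLogs_of_homeo` in H36/DS/IA).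
`riem_quot`: there is a continuous `Λ` on `W ×ˢ W` with `(v x - v y) = (x - y) exp (Λ (x, y))`: on `ball × ball` (convex, so simply connected; or see IC (d) in H36/DS/IC) the function `Q (z, w) = (ψ z - ψ w)/(z - w)`, `Q (z, z) = deriv ψ z`,
is continuous and nonvanishing (`ψ` is injective holomorphic); every continuous nonvanishing function on the convex set `ball ×ˢ ball` of `ℂ × ℂ` has a continuous logarithm (lift along segments from the centre, e.g. through
`ContinuousMap` homotopy lifting, or restrict: `AllLogs` for the star shaped set; it is also proved inside IC).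
-/

namespace CV

open Metric Set Filter Topology Function DS TN

/-- the complement of the filled set seen from `z₀` -/
def KW (W : Set ℂ) (z₀ : ℂ) : Set ℂ := {w | w = 0 ∨ z₀ + w⁻¹ ∉ W}

theorem RM_rank : 1 < Module.rank ℝ ℂ := by
  rw [← Module.finrank_eq_rank, Complex.finrank_real_complex]
  norm_num

theorem RM_pball {z₀ : ℂ} {r : ℝ} (hr : 0 < r) : IsPreconnected (ball z₀ r \ {z₀}) := by
  have hconn := isConnected_compl_singleton_of_one_lt_rank RM_rank (0 : ℂ)
  have hcont : Continuous (fun q : ℂ => z₀ + (r / (1 + ‖q‖)) • q) := by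
    refine continuous_const.add (Continuous.smul (Continuous.div continuous_const
      (continuous_const.add continuous_norm) fun q => ?_) continuous_id)
    have := norm_nonneg q
    exact (by linarith : (0 : ℝ) < 1 + ‖q‖).ne'
  have him : (fun q : ℂ => z₀ + (r / (1 + ‖q‖)) • q) '' {0}ᶜ = ball z₀ r \ {z₀} := by
    ext v
    constructor
    · rintro ⟨q, hq, rfl⟩
      have hq' : 0 < ‖q‖ := norm_pos_iff.2 hq
      have h1 : 0 < 1 + ‖q‖ := by linarith
      refine ⟨?_, ?_⟩
      · rw [mem_ball, dist_eq_norm, add_sub_cancel_left, norm_smul, Real.norm_eq_abs,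
          abs_of_pos (div_pos hr h1), div_mul_eq_mul_div, div_lt_iff₀ h1]
        nlinarith
      · intro h
        have h2 : (r / (1 + ‖q‖)) • q = 0 := by
          have h3 : z₀ + (r / (1 + ‖q‖)) • q = z₀ := h
          exact add_eq_left.1 h3
        rcases smul_eq_zero.1 h2 with h3 | h3
        · exact (div_pos hr h1).ne' h3
        · exact hq h3
    · rintro ⟨h1, h2⟩
      rw [mem_ball, dist_eq_norm] at h1
      have h3 : 0 < r - ‖v - z₀‖ := by linarith
      have h2' : v - z₀ ≠ 0 := fun h => h2 (sub_eq_zero.1 h)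
      refine ⟨(r - ‖v - z₀‖)⁻¹ • (v - z₀), ?_, ?_⟩
      · exact smul_ne_zero (inv_ne_zero h3.ne') h2'
      · simp only [norm_smul, norm_inv, Real.norm_eq_abs, abs_of_pos h3]
        rw [smul_smul]
        have : r / (1 + (r - ‖v - z₀‖)⁻¹ * ‖v - z₀‖) * (r - ‖v - z₀‖)⁻¹ = 1 := by
          have h4 : 1 + (r - ‖v - z₀‖)⁻¹ * ‖v - z₀‖ = r / (r - ‖v - z₀‖) := by
            field_simp
            ring
          rw [h4]
          field_simp
        rw [this, one_smul, add_sub_cancel]
  rw [← him]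
  exact hconn.isPreconnected.image _ hcont.continuousOn

theorem RM_ext : IsPreconnected {z : ℂ | 1 ≤ ‖z‖} := by
  have hconn := isConnected_compl_singleton_of_one_lt_rank RM_rank (0 : ℂ)
  have hcont : ContinuousOn (fun q : ℂ => (max 1 ‖q‖ / ‖q‖) • q) {0}ᶜ := by
    refine ContinuousOn.smul (ContinuousOn.div (continuous_const.max continuous_norm).continuousOn
      continuous_norm.continuousOn fun q hq => norm_ne_zero_iff.2 hq) continuousOn_id
  have him : (fun q : ℂ => (max 1 ‖q‖ / ‖q‖) • q) '' {0}ᶜ = {z : ℂ | 1 ≤ ‖z‖} := by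
    ext v
    constructor
    · rintro ⟨q, hq, rfl⟩
      have hq' : 0 < ‖q‖ := norm_pos_iff.2 hq
      have hm : (0 : ℝ) < max 1 ‖q‖ := lt_of_lt_of_le one_pos (le_max_left _ _)
      show 1 ≤ ‖(max 1 ‖q‖ / ‖q‖) • q‖
      rw [norm_smul, Real.norm_eq_abs, abs_of_pos (div_pos hm hq'), div_mul_cancel₀ _ hq'.ne']
      exact le_max_left _ _
    · intro hv
      have hv' : 1 ≤ ‖v‖ := hv
      have hv0 : 0 < ‖v‖ := by linarith
      refine ⟨v, norm_pos_iff.1 hv0, ?_⟩
      show (max 1 ‖v‖ / ‖v‖) • v = v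
      rw [max_eq_right hv', div_self hv0.ne', one_smul]
  rw [← him]
  exact hconn.isPreconnected.image _ hcont

theorem RM_punct {W : Set ℂ} (hW : IsOpen W) (hc : IsPreconnected W) {z₀ : ℂ} (hz : z₀ ∈ W) :
    IsPreconnected (W \ {z₀}) := by
  obtain ⟨r, hr, hb⟩ := Metric.isOpen_iff.1 hW z₀ hz
  have key : ∀ u v : Set ℂ, IsOpen u → IsOpen v → W \ {z₀} ⊆ u ∪ v →
      (W \ {z₀}) ∩ (u ∩ v) = ∅ → ball z₀ r \ {z₀} ⊆ u → W \ {z₀} ⊆ u := by
    intro u v hu hv hs huv hB
    have h1 := isPreconnected_iff_subset_of_disjoint.1 hc (u \ {z₀} ∪ ball z₀ r) (v \ {z₀})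
      ((hu.sdiff isClosed_singleton).union isOpen_ball) (hv.sdiff isClosed_singleton) (by
        intro x hx
        by_cases hxz : x = z₀
        · exact Or.inl (Or.inr (by rw [hxz]; exact mem_ball_self hr))
        · rcases hs ⟨hx, hxz⟩ with h | h
          · exact Or.inl (Or.inl ⟨h, hxz⟩)
          · exact Or.inr ⟨h, hxz⟩) (by
        rw [eq_empty_iff_forall_notMem]
        rintro x ⟨hx, h2, h3, h4⟩
        have hxu : x ∈ u := by
          rcases h2 with h2 | h2
          · exact h2.1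
          · exact hB ⟨h2, h4⟩
        have : x ∈ (W \ {z₀}) ∩ (u ∩ v) := ⟨⟨hx, h4⟩, hxu, h3⟩
        rw [huv] at this
        exact this)
    rcases h1 with h1 | h1
    · rintro x ⟨hx, hxz⟩
      rcases h1 hx with h | h
      · exact h.1
      · exact hB ⟨h, hxz⟩
    · exact absurd rfl (h1 hz).2
  rw [isPreconnected_iff_subset_of_disjoint]
  intro u v hu hv hs huv
  have hsub : ball z₀ r \ {z₀} ⊆ W \ {z₀} := fun x hx => ⟨hb hx.1, hx.2⟩
  have h1 := isPreconnected_iff_subset_of_disjoint.1 (RM_pball hr) u v hu hv (hsub.trans hs) (by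
    rw [eq_empty_iff_forall_notMem]
    rintro x ⟨hx, h2⟩
    have : x ∈ (W \ {z₀}) ∩ (u ∩ v) := ⟨hsub hx, h2⟩
    rw [huv] at this
    exact this)
  rcases h1 with h1 | h1
  · exact Or.inl (key u v hu hv hs huv h1)
  · refine Or.inr (key v u hv hu (by rw [union_comm]; exact hs) (by rw [inter_comm v u]; exact huv) h1)

theorem RM_unb : ¬ Bornology.IsBounded {z : ℂ | 1 ≤ ‖z‖} := by
  intro h
  obtain ⟨R, hR⟩ := h.subset_closedBall (0 : ℂ)
  have h1 : ((max 1 (R + 1) : ℝ) : ℂ) ∈ {z : ℂ | 1 ≤ ‖z‖} := by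
    show 1 ≤ ‖((max 1 (R + 1) : ℝ) : ℂ)‖
    rw [Complex.norm_real, Real.norm_eq_abs]
    exact (le_max_left _ _).trans (le_abs_self _)
  have h2 := hR h1
  rw [mem_closedBall_zero_iff, Complex.norm_real, Real.norm_eq_abs] at h2
  have h3 := (le_max_right 1 (R + 1)).trans (le_abs_self _)
  linarith

section
variable {S : Type} [MetricSpace S] {X : Set ℂ} {Γ : Type} [Group Γ]
  {A : Γ → ℂ → ℂ} {p : ℂ → S} {g : S → S} {G : ℂ → ℂ} {U : Set ℂ} {N : Subgroup Γ}

/-- every point outside the filled set is in an unbounded connected set outside the filled set -/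
theorem RM_E (D : Deck X A p) (M : Dom X A p g G U N) {z : ℂ} (hz : z ∉ fil X U) :
    ∃ E ⊆ (fil X U)ᶜ, z ∈ E ∧ IsPreconnected E ∧ ¬ Bornology.IsBounded E := by
  have hWX : fil X U ⊆ X := fil_sub
  have hUW : U ⊆ fil X U := sub_fil M.sub
  -- the component of a point of `X \ U`
  have hC : ∀ z ∈ X, z ∉ fil X U → z ∈ X \ U ∧
      ¬ IsCompact (connectedComponentIn (X \ U) z) ∧
      connectedComponentIn (X \ U) z ⊆ (fil X U)ᶜ := by
    intro z hzX hzW
    have hz' : z ∈ X \ U := ⟨hzX, fun h => hzW (hUW h)⟩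
    refine ⟨hz', fun h => hzW ((TB_iff hz').2 h), fun y hy hyW => hzW ?_⟩
    exact (fil_comp hz' hy).1 hyW
  rcases D.hX with ⟨hX, -⟩ | ⟨hX, -⟩
  · obtain ⟨h1, h2, h3⟩ := hC z (by rw [hX]; trivial) hz
    refine ⟨_, h3, mem_connectedComponentIn h1, isPreconnected_connectedComponentIn, ?_⟩
    intro hb
    apply h2
    have hcl : closure (connectedComponentIn (X \ U) z) ⊆ connectedComponentIn (X \ U) z := by
      refine (isPreconnected_connectedComponentIn.closure).subset_connectedComponentIn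
        (subset_closure (mem_connectedComponentIn h1)) ?_
      have hF : IsClosed (X \ U) := by
        rw [hX, ← compl_eq_univ_sdiff]
        exact M.opn.isClosed_compl
      exact closure_minimal (connectedComponentIn_subset _ _) hF
    have hclosed : IsClosed (connectedComponentIn (X \ U) z) := isClosed_of_closure_subset hcl
    exact Metric.isCompact_of_isClosed_isBounded hclosed hb
  · have hEW : {z : ℂ | 1 ≤ ‖z‖} ⊆ (fil X U)ᶜ := by
      intro y hy hyW
      have h1 := hWX hyW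
      rw [hX, mem_ball_zero_iff] at h1
      have hy' : 1 ≤ ‖y‖ := hy
      linarith
    by_cases hz1 : 1 ≤ ‖z‖
    · exact ⟨_, hEW, hz1, RM_ext, RM_unb⟩
    · have hzX : z ∈ X := by
        rw [hX, mem_ball_zero_iff]
        exact not_le.1 hz1
      obtain ⟨h1, h2, h3⟩ := hC z hzX hz
      set C := connectedComponentIn (X \ U) z with hCdef
      have hCX : C ⊆ X \ U := connectedComponentIn_subset _ _
      have hzC : z ∈ C := mem_connectedComponentIn h1
      have hCpre : IsPreconnected C := isPreconnected_connectedComponentIn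
      have hclb : closure C ⊆ closedBall (0 : ℂ) 1 := by
        refine closure_minimal (fun y hy => ?_) isClosed_closedBall
        have := (hCX hy).1
        rw [hX] at this
        exact ball_subset_closedBall this
      have hclU : closure C ⊆ Uᶜ := closure_minimal (fun y hy => (hCX hy).2) M.opn.isClosed_compl
      obtain ⟨y, hyC, hy1⟩ : ∃ y ∈ closure C, 1 ≤ ‖y‖ := by
        by_contra hcon
        push Not at hcon
        have hcl : closure C ⊆ C := by
          refine hCpre.closure.subset_connectedComponentIn (subset_closure hzC) ?_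
          intro y hy
          refine ⟨?_, hclU hy⟩
          rw [hX, mem_ball_zero_iff]
          exact hcon y hy
        apply h2
        exact Metric.isCompact_of_isClosed_isBounded (isClosed_of_closure_subset hcl)
          ((Metric.isBounded_closedBall (x := (0 : ℂ)) (r := 1)).subset
            (subset_closure.trans hclb))
      have hCy : IsPreconnected (C ∪ {y}) := by
        refine hCpre.subset_closure subset_union_left ?_
        refine union_subset subset_closure ?_
        rintro w rfl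
        exact hyC
      refine ⟨(C ∪ {y}) ∪ {z : ℂ | 1 ≤ ‖z‖}, ?_, Or.inl (Or.inl hzC), ?_, ?_⟩
      · refine union_subset (union_subset h3 ?_) hEW
        rintro w rfl
        exact hEW hy1
      · exact IsPreconnected.union y (Or.inr rfl) hy1 hCy RM_ext
      · intro hb
        exact RM_unb (hb.subset subset_union_right)

theorem KW_props_fil (D : Deck X A p) (M : Dom X A p g G U N) (hW : fil X U ≠ univ) {z₀ : ℂ}
    (hz₀W : z₀ ∈ fil X U) : IsCompact (KW (fil X U) z₀) ∧ IsConnected (KW (fil X U) z₀) ∧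
      (KW (fil X U) z₀).Nontrivial ∧ IsConnected (KW (fil X U) z₀)ᶜ ∧
      extDom (KW (fil X U) z₀) = {w | z₀ + w ∈ fil X U} := by
  have hWo := fil_open D M
  have hWc := fil_conn D M
  set W := fil X U with hWdef
  have h0K : (0 : ℂ) ∈ KW W z₀ := Or.inl rfl
  have hKc : (KW W z₀)ᶜ = {w | w ≠ 0} ∩ (fun w : ℂ => z₀ + w⁻¹) ⁻¹' W := by
    ext w
    simp only [KW, mem_compl_iff, mem_ofPred_eq, not_or, not_not, mem_inter_iff, mem_preimage]
  have hopen : IsOpen (KW W z₀)ᶜ := by
    rw [hKc]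
    refine ContinuousOn.isOpen_inter_preimage ?_ isOpen_ne hWo
    exact continuousOn_const.add (continuousOn_inv₀.mono fun z hz => hz)
  have hclosed : IsClosed (KW W z₀) := isOpen_compl_iff.1 hopen
  obtain ⟨r₀, hr₀, hball⟩ := Metric.isOpen_iff.1 hWo z₀ hz₀W
  have hbd : KW W z₀ ⊆ closedBall 0 r₀⁻¹ := by
    rintro w (rfl | hw)
    · rw [mem_closedBall_zero_iff, norm_zero]
      exact (inv_pos.2 hr₀).le
    · rw [mem_closedBall_zero_iff]
      by_contra hcon
      push Not at hcon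
      apply hw
      apply hball
      rw [mem_ball, dist_eq_norm, add_sub_cancel_left, norm_inv]
      have h1 : 0 < ‖w‖ := lt_trans (inv_pos.2 hr₀) hcon
      exact (inv_lt_comm₀ hr₀ h1).1 hcon
  refine ⟨Metric.isCompact_of_isClosed_isBounded hclosed
    (Metric.isBounded_closedBall.subset hbd), ?_, ?_, ?_, ?_⟩
  · refine ⟨⟨0, h0K⟩, isPreconnected_of_forall 0 fun w hw => ?_⟩
    by_cases hw0 : w = 0
    · subst hw0
      exact ⟨{0}, by rintro x rfl; exact h0K, rfl, rfl, isPreconnected_singleton⟩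
    · have hz : z₀ + w⁻¹ ∉ W := hw.resolve_left hw0
      obtain ⟨E, hE1, hE2, hE3, hE4⟩ := RM_E D M hz
      have hne : ∀ y ∈ E, y - z₀ ≠ 0 := by
        intro y hy h
        rw [sub_eq_zero] at h
        subst h
        exact hE1 hy hz₀W
      have him : IsPreconnected ((fun y : ℂ => (y - z₀)⁻¹) '' E) := by
        refine hE3.image _ ?_
        exact (continuousOn_id.sub continuousOn_const).inv₀ hne
      refine ⟨{0} ∪ (fun y : ℂ => (y - z₀)⁻¹) '' E, ?_, Or.inl rfl, Or.inr ⟨z₀ + w⁻¹, hE2, ?_⟩, ?_⟩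
      · rintro x (rfl | ⟨y, hy, rfl⟩)
        · exact h0K
        · right
          show z₀ + ((y - z₀)⁻¹)⁻¹ ∉ W
          rw [inv_inv, add_sub_cancel]
          exact hE1 hy
      · show (z₀ + w⁻¹ - z₀)⁻¹ = w
        rw [add_sub_cancel_left, inv_inv]
      · refine him.subset_closure subset_union_right ?_
        refine union_subset ?_ subset_closure
        rintro x rfl
        rw [Metric.mem_closure_iff]
        intro ε hε
        obtain ⟨y, hy, hyn⟩ : ∃ y ∈ E, ε⁻¹ < ‖y - z₀‖ := by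
          by_contra hcon
          push Not at hcon
          apply hE4
          refine (Metric.isBounded_closedBall (x := z₀) (r := ε⁻¹)).subset fun y hy => ?_
          rw [mem_closedBall, dist_eq_norm]
          exact hcon y hy
        refine ⟨(y - z₀)⁻¹, ⟨y, hy, rfl⟩, ?_⟩
        rw [dist_eq_norm, zero_sub, norm_neg, norm_inv]
        have h1 : 0 < ‖y - z₀‖ := lt_trans (inv_pos.2 hε) hyn
        exact (inv_lt_comm₀ hε h1).1 hyn
  · obtain ⟨z, hz⟩ : ∃ z, z ∉ W := by
      by_contra hcon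
      push Not at hcon
      exact hW (eq_univ_of_forall hcon)
    have hne : z - z₀ ≠ 0 := by
      intro h
      rw [sub_eq_zero] at h
      subst h
      exact hz hz₀W
    refine ⟨0, h0K, (z - z₀)⁻¹, Or.inr ?_, (inv_ne_zero hne).symm⟩
    rw [inv_inv, add_sub_cancel]
    exact hz
  · have him : (KW W z₀)ᶜ = (fun z : ℂ => (z - z₀)⁻¹) '' (W \ {z₀}) := by
      rw [hKc]
      ext w
      constructor
      · rintro ⟨h1, h2⟩
        refine ⟨z₀ + w⁻¹, ⟨h2, ?_⟩, ?_⟩
        · intro h
          have h3 : z₀ + w⁻¹ = z₀ := h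
          exact inv_ne_zero h1 (add_eq_left.1 h3)
        · show (z₀ + w⁻¹ - z₀)⁻¹ = w
          rw [add_sub_cancel_left, inv_inv]
      · rintro ⟨z, ⟨h1, h2⟩, rfl⟩
        have h3 : z - z₀ ≠ 0 := fun h => h2 (sub_eq_zero.1 h)
        refine ⟨inv_ne_zero h3, ?_⟩
        show z₀ + ((z - z₀)⁻¹)⁻¹ ∈ W
        rw [inv_inv, add_sub_cancel]
        exact h1
    rw [him]
    have hpre := RM_punct hWo hWc.isPreconnected hz₀W
    refine IsConnected.image ⟨?_, hpre⟩ _ ?_
    · have h1 : ball z₀ r₀ ⊆ W := hball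
      refine ⟨z₀ + ((r₀ / 2 : ℝ) : ℂ), h1 ?_, ?_⟩
      · rw [mem_ball, dist_eq_norm, add_sub_cancel_left, Complex.norm_real, Real.norm_eq_abs,
          abs_of_pos (half_pos hr₀)]
        exact half_lt_self hr₀
      · intro h
        have h3 : z₀ + ((r₀ / 2 : ℝ) : ℂ) = z₀ := h
        have h4 := add_eq_left.1 h3
        rw [Complex.ofReal_eq_zero] at h4
        linarith
    · refine (continuousOn_id.sub continuousOn_const).inv₀ fun z hz h => hz.2 ?_
      exact sub_eq_zero.1 h
  · ext w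
    constructor
    · rintro (rfl | hw)
      · show z₀ + 0 ∈ W
        rw [add_zero]
        exact hz₀W
      · have h1 : w⁻¹ ∈ (KW W z₀)ᶜ := hw
        rw [hKc] at h1
        have h2 : z₀ + (w⁻¹)⁻¹ ∈ W := h1.2
        rw [inv_inv] at h2
        exact h2
    · intro hw
      by_cases h0 : w = 0
      · exact Or.inl h0
      · right
        have h1 : w⁻¹ ∈ (KW W z₀)ᶜ := by
          rw [hKc]
          refine ⟨inv_ne_zero h0, ?_⟩
          show z₀ + (w⁻¹)⁻¹ ∈ W
          rw [inv_inv]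
          exact hw
        exact h1

theorem KW_props (D : Deck X A p) (M : Dom X A p g G U N) (hW : fil X U ≠ univ) {z₀ : ℂ}
    (hz₀ : z₀ ∈ U) : IsCompact (KW (fil X U) z₀) ∧ IsConnected (KW (fil X U) z₀) ∧
      (KW (fil X U) z₀).Nontrivial ∧ IsConnected (KW (fil X U) z₀)ᶜ ∧
      extDom (KW (fil X U) z₀) = {w | z₀ + w ∈ fil X U} :=
  KW_props_fil D M hW (sub_fil M.sub hz₀)

theorem exists_riem (D : Deck X A p) (M : Dom X A p g G U N) (hW : fil X U ≠ univ) :
    ∃ ψ v, Riem (fil X U) ψ v := by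
  obtain ⟨z₀, hz₀⟩ := M.conn.nonempty
  obtain ⟨h1, h2, h3, h4, h5⟩ := KW_props D M hW hz₀
  obtain ⟨ψ₁, v₁, hE⟩ := ext_map h1 h2 (Or.inl rfl) h3 h4
  have hmem : ∀ x, x ∈ fil X U → x - z₀ ∈ extDom (KW (fil X U) z₀) := by
    intro x hx
    rw [h5]
    show z₀ + (x - z₀) ∈ fil X U
    rw [add_sub_cancel]
    exact hx
  refine ⟨fun z => z₀ + ψ₁ z, fun x => v₁ (x - z₀), ?_, ?_, ?_, ?_, ?_, ?_⟩
  · exact hE.dψ.const_add z₀
  · exact hE.dv.comp (differentiableOn_id.sub_const z₀) (fun x hx => hmem x hx)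
  · intro z hz
    have := hE.mψ hz
    rw [h5] at this
    exact this
  · intro x hx
    exact hE.mv (hmem x hx)
  · intro z hz
    show v₁ (z₀ + ψ₁ z - z₀) = z
    rw [add_sub_cancel_left]
    exact hE.vψ z hz
  · intro w hw
    show z₀ + ψ₁ (v₁ (w - z₀)) = w
    rw [hE.ψv _ (hmem w hw), add_sub_cancel]

end

theorem RM_sc {W : Set (ℂ × ℂ)} (hc : Convex ℝ W) (hne : W.Nonempty) : IsSimplyConnected W := by
  have := hc.contractibleSpace hne
  exact (inferInstance : SimplyConnectedSpace W)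

theorem riem_logs {W : Set ℂ} {ψ v : ℂ → ℂ} (R : Riem W ψ v) : AllLogs W :=
  allLogs_of_homeo R.dψ.continuousOn R.mψ R.dv.continuousOn R.mv R.ψv

theorem riem_quot {W : Set ℂ} (hW : IsOpen W) {ψ v : ℂ → ℂ} (R : Riem W ψ v) :
    ∃ Λ : ℂ → ℂ → ℂ, ContinuousOn (fun z : ℂ × ℂ => Λ z.1 z.2) (W ×ˢ W) ∧
      ∀ x ∈ W, ∀ y ∈ W, v x - v y = (x - y) * Complex.exp (Λ x y) := by
  classical
  have hinj : InjOn v W := by
    intro x hx y hy h
    rw [← R.ψv x hx, h, R.ψv y hy]
  have hvc := R.dv.continuousOn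
  have hder : ContinuousOn (deriv v) W := (R.dv.deriv hW).continuousOn
  set Q : ℂ × ℂ → ℂ := fun z => if z.1 = z.2 then deriv v z.1 else (v z.1 - v z.2) / (z.1 - z.2)
    with hQ
  have hQc : ContinuousOn Q (W ×ˢ W) := by
    rintro ⟨x₀, y₀⟩ ⟨hx₀, hy₀⟩
    apply ContinuousAt.continuousWithinAt
    have hx₀' : x₀ ∈ W := hx₀
    have hy₀' : y₀ ∈ W := hy₀
    by_cases hxy : x₀ = y₀
    · subst hxy
      have hstrict : HasStrictDerivAt v (deriv v x₀) x₀ :=
        (R.dv.analyticAt (hW.mem_nhds hx₀')).hasStrictDerivAt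
      have hlo := hstrict.hasStrictFDerivAt.isLittleO
      have hQ0 : Q (x₀, x₀) = deriv v x₀ := by simp [hQ]
      rw [Metric.continuousAt_iff']
      intro ε hε
      rw [hQ0]
      have h1 := hlo.def (half_pos hε)
      have h2 : ∀ᶠ z : ℂ × ℂ in 𝓝 (x₀, x₀), dist (deriv v z.1) (deriv v x₀) < ε := by
        have h3 : ContinuousAt (fun z : ℂ × ℂ => deriv v z.1) (x₀, x₀) :=
          ContinuousAt.comp (g := deriv v) (f := Prod.fst) (x := (x₀, x₀))
            (hder.continuousAt (hW.mem_nhds hx₀')) continuousAt_fst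
        exact Metric.continuousAt_iff'.1 h3 ε hε
      filter_upwards [h1, h2] with z hz1 hz2
      by_cases hz : z.1 = z.2
      · simp only [hQ, if_pos hz]
        exact hz2
      · simp only [hQ, if_neg hz]
        have hne : z.1 - z.2 ≠ 0 := sub_ne_zero.2 hz
        have hpos : 0 < ‖z.1 - z.2‖ := norm_pos_iff.2 hne
        rw [dist_eq_norm]
        have e1 : (v z.1 - v z.2) / (z.1 - z.2) - deriv v x₀ =
            (v z.1 - v z.2 - (z.1 - z.2) * deriv v x₀) / (z.1 - z.2) := by
          field_simp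
        rw [e1, norm_div, div_lt_iff₀ hpos]
        have e2 : ‖v z.1 - v z.2 - (z.1 - z.2) * deriv v x₀‖ ≤ ε / 2 * ‖z.1 - z.2‖ := by
          simpa using hz1
        nlinarith
    · have hne : x₀ - y₀ ≠ 0 := sub_ne_zero.2 hxy
      have h1 : ContinuousAt (fun z : ℂ × ℂ => (v z.1 - v z.2) / (z.1 - z.2)) (x₀, y₀) := by
        have h3 : ContinuousAt (fun z : ℂ × ℂ => v z.1) (x₀, y₀) :=
          ContinuousAt.comp (g := v) (f := Prod.fst) (x := (x₀, y₀))
            (hvc.continuousAt (hW.mem_nhds hx₀')) continuousAt_fst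
        have h4 : ContinuousAt (fun z : ℂ × ℂ => v z.2) (x₀, y₀) :=
          ContinuousAt.comp (g := v) (f := Prod.snd) (x := (x₀, y₀))
            (hvc.continuousAt (hW.mem_nhds hy₀')) continuousAt_snd
        exact (h3.sub h4).div (continuousAt_fst.sub continuousAt_snd) hne
      refine h1.congr ?_
      have h2 : ∀ᶠ z : ℂ × ℂ in 𝓝 (x₀, y₀), z.1 ≠ z.2 := by
        have : IsOpen {z : ℂ × ℂ | z.1 ≠ z.2} := isOpen_ne_fun continuous_fst continuous_snd
        exact this.mem_nhds hxy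
      filter_upwards [h2] with z hz
      simp only [hQ, if_neg hz]
  have hQ0 : ∀ z ∈ W ×ˢ W, Q z ≠ 0 := by
    rintro ⟨x, y⟩ ⟨hx, hy⟩
    have hx' : x ∈ W := hx
    have hy' : y ∈ W := hy
    by_cases hxy : x = y
    · subst hxy
      simp only [hQ, if_true]
      exact deriv_ne_zero_of_injOn hW R.dv hinj hx'
    · simp only [hQ, if_neg hxy]
      exact div_ne_zero (sub_ne_zero.2 fun h => hxy (hinj hx' hy' h)) (sub_ne_zero.2 hxy)
  have hBB : Convex ℝ (ball (0 : ℂ) 1 ×ˢ ball (0 : ℂ) 1) := (convex_ball _ _).prod (convex_ball _ _)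
  have hBo : IsOpen (ball (0 : ℂ) 1 ×ˢ ball (0 : ℂ) 1) := isOpen_ball.prod isOpen_ball
  have hsc : IsSimplyConnected (ball (0 : ℂ) 1 ×ˢ ball (0 : ℂ) 1) :=
    RM_sc hBB ⟨((0 : ℂ), (0 : ℂ)), mem_ball_self one_pos, mem_ball_self one_pos⟩
  have hmaps : MapsTo (fun z : ℂ × ℂ => (ψ z.1, ψ z.2)) (ball (0 : ℂ) 1 ×ˢ ball (0 : ℂ) 1)
      (W ×ˢ W) := fun z hz => ⟨R.mψ hz.1, R.mψ hz.2⟩
  have hψψ : ContinuousOn (fun z : ℂ × ℂ => (ψ z.1, ψ z.2))
      (ball (0 : ℂ) 1 ×ˢ ball (0 : ℂ) 1) :=
    (R.dψ.continuousOn.comp continuousOn_fst fun z hz => hz.1).prodMk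
      (R.dψ.continuousOn.comp continuousOn_snd fun z hz => hz.2)
  obtain ⟨L, hL, hE⟩ := Complex.exists_continuousOn_eqOn_exp_comp hsc hBo
    (g := fun z : ℂ × ℂ => Q (ψ z.1, ψ z.2)) (hQc.comp hψψ hmaps) (by
      rintro ⟨z, hz, hz0⟩
      exact hQ0 _ (hmaps hz) hz0)
  refine ⟨fun x y => L (v x, v y), ?_, ?_⟩
  · have hvv : ContinuousOn (fun z : ℂ × ℂ => (v z.1, v z.2)) (W ×ˢ W) :=
      (hvc.comp continuousOn_fst fun z hz => hz.1).prodMk
        (hvc.comp continuousOn_snd fun z hz => hz.2)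
    exact hL.comp hvv fun z hz => ⟨R.mv hz.1, R.mv hz.2⟩
  · intro x hx y hy
    have h1 : Complex.exp (L (v x, v y)) = Q (ψ (v x), ψ (v y)) :=
      hE (show (v x, v y) ∈ ball (0 : ℂ) 1 ×ˢ ball (0 : ℂ) 1 from ⟨R.mv hx, R.mv hy⟩)
    rw [h1, R.ψv x hx, R.ψv y hy]
    by_cases hxy : x = y
    · subst hxy
      simp
    · simp only [hQ, if_neg hxy]
      rw [mul_div_cancel₀ _ (sub_ne_zero.2 hxy)]

end CV

end S_H12_CV_RM
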