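import Pool.Agent.H12.KS.K02

/-! Joined modules of the proof of MP_8a27c0_an (one section per module). -/

section S_H12_TN_FA

/-!
FA (basics on Fuchsian groups).  All by the formulas of MB.
`act_inv_act`: from `mul`, `one` (`g⁻¹ * g = 1`).  `b_eq`: `act g (b g) = 0` (numerator 0), apply `act g⁻¹`.
`norm_act_zero`: `act g 0 = - u b`.  `norm_b_inv`: `b g⁻¹ = act g 0` (by `b_eq` for `g⁻¹`).
`dact_mul`: uniqueness of derivatives in the open disc: `act (g h)` and `act g ∘ act h` agree on the ball; for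
`‖x‖ = 1` by continuity of both sides on the closed ball (or by differentiating within the closed ball, which is a
`UniqueDiffOn` set).
`proper`: if `‖x‖ ≤ r` and `‖act g x‖ ≤ r` then, by `pd (b g) x = pd (act g (b g)) (act g x) = ‖act g x‖ ≤ r`
and `norm_le_of_pd`, `‖b g‖ ≤ s < 1`; use `fin`.
`lim_inv`: if `act (g n) 0 → ξ` (points of the open disc), then `act (h * g n) 0 = act h (act (g n) 0) → act h ξ` by
continuity on the closed disc.
`lim_of_seq`: if `‖act (g n) x - ξ‖ → 0` for a fixed `x` in the disc and `‖ξ‖ = 1` then `ξ ∈ lim`: by `mob_dist` and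
`mob_pd` (`pd (act g x) (act g 0) = ‖x‖ < 1` and `‖act (g n) x‖ → 1` give `dist (act (g n) x) (act (g n) 0) → 0`).
`pd_close`: `‖x - y‖ = pd x y * ‖1 - conj x y‖ `, `‖1 - conj x y‖² = ‖x - y‖² + (1-‖x‖²)(1-‖y‖²)`, so
`‖x - y‖² (1 - r²) ≤ r² (1-‖x‖²)(1-‖y‖²) ≤ r² (1 - ‖x‖²)`.
-/

namespace TN
open Metric Set Filter Topology DS

theorem pd_close {r : ℝ} (hr : r < 1) {x y : ℂ} (hx : ‖x‖ ≤ 1) (hy : ‖y‖ ≤ 1) (h : pd x y ≤ r)
    (hne : 1 - (starRingEnd ℂ) x * y ≠ 0) :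
    ‖x - y‖ ^ 2 * (1 - r ^ 2) ≤ r ^ 2 * ((1 - ‖x‖ ^ 2) * (1 - ‖y‖ ^ 2)) := by
  have hD : 0 < ‖1 - (starRingEnd ℂ) x * y‖ := norm_pos_iff.2 hne
  have h1 : ‖x - y‖ ≤ r * ‖1 - (starRingEnd ℂ) x * y‖ := by
    unfold pd at h
    exact (div_le_iff₀ hD).1 h
  have h2 : ‖1 - (starRingEnd ℂ) x * y‖ ^ 2 =
      ‖x - y‖ ^ 2 + (1 - ‖x‖ ^ 2) * (1 - ‖y‖ ^ 2) := by
    rw [← Complex.normSq_eq_norm_sq, ← Complex.normSq_eq_norm_sq, ← Complex.normSq_eq_norm_sq,
      ← Complex.normSq_eq_norm_sq]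
    simp only [Complex.normSq_apply, Complex.sub_re, Complex.sub_im, Complex.mul_re,
      Complex.mul_im, Complex.conj_re, Complex.conj_im, Complex.one_re, Complex.one_im]
    ring
  have h3 : ‖x - y‖ ^ 2 ≤ (r * ‖1 - (starRingEnd ℂ) x * y‖) ^ 2 :=
    pow_le_pow_left₀ (norm_nonneg _) h1 2
  rw [mul_pow, h2] at h3
  nlinarith [h3]

theorem FA_uniq {x : ℂ} (hx : ‖x‖ ≤ 1) : UniqueDiffWithinAt ℂ (closedBall (0:ℂ) 1) x := by
  refine uniqueDiffWithinAt_convex_of_isRCLikeNormedField (convex_closedBall _ _) ?_ ?_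
  · rw [interior_closedBall _ one_ne_zero]
    exact ⟨0, by simp⟩
  · exact subset_closure (by simpa using hx)

variable {Γ : Type} [Group Γ] (F : Fuchs Γ)

theorem act_one {x : ℂ} (hx : ‖x‖ ≤ 1) : F.act 1 x = x := F.one x (by simpa using hx)

theorem act_mul (g h : Γ) {x : ℂ} (hx : ‖x‖ ≤ 1) : F.act (g * h) x = F.act g (F.act h x) :=
  F.mul g h x (by simpa using hx)

theorem act_inv_act (g : Γ) {x : ℂ} (hx : ‖x‖ ≤ 1) : F.act g⁻¹ (F.act g x) = x := by
  rw [← act_mul F _ _ hx, inv_mul_cancel, act_one F hx]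

theorem act_act_inv (g : Γ) {x : ℂ} (hx : ‖x‖ ≤ 1) : F.act g (F.act g⁻¹ x) = x := by
  rw [← act_mul F _ _ hx, mul_inv_cancel, act_one F hx]

theorem act_lt (g : Γ) {x : ℂ} (hx : ‖x‖ < 1) : ‖F.act g x‖ < 1 :=
  mob_ball (F.hu g) (F.hb g) hx

theorem act_le (g : Γ) {x : ℂ} (hx : ‖x‖ ≤ 1) : ‖F.act g x‖ ≤ 1 :=
  mob_closedBall (F.hu g) (F.hb g) hx

theorem act_eq (g : Γ) {x : ℂ} (hx : ‖x‖ = 1) : ‖F.act g x‖ = 1 :=
  mob_sphere (F.hu g) (F.hb g) hx

theorem act_cont (g : Γ) : ContinuousOn (F.act g) (closedBall 0 1) :=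
  mob_cont (F.hb g)

theorem act_inj (g : Γ) : InjOn (F.act g) (closedBall 0 1) := by
  intro x hx y hy h
  have hx' : ‖x‖ ≤ 1 := by simpa using hx
  have hy' : ‖y‖ ≤ 1 := by simpa using hy
  rw [← act_inv_act F g hx', ← act_inv_act F g hy', h]

theorem act_hasDerivAt (g : Γ) {x : ℂ} (hx : ‖x‖ ≤ 1) : HasDerivAt (F.act g) (F.dact g x) x :=
  mob_hasDerivAt (F.hb g) hx

theorem dact_mul (g h : Γ) {x : ℂ} (hx : ‖x‖ ≤ 1) :
    F.dact (g * h) x = F.dact g (F.act h x) * F.dact h x := by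
  have hxb : x ∈ closedBall (0:ℂ) 1 := by simpa using hx
  have hu : UniqueDiffWithinAt ℂ (closedBall (0:ℂ) 1) x := FA_uniq hx
  have h1 : HasDerivWithinAt (F.act (g * h)) (F.dact (g * h) x) (closedBall (0:ℂ) 1) x :=
    (act_hasDerivAt F (g * h) hx).hasDerivWithinAt
  have h2 : HasDerivAt (F.act g ∘ F.act h) (F.dact g (F.act h x) * F.dact h x) x :=
    (act_hasDerivAt F g (act_le F h hx)).comp x (act_hasDerivAt F h hx)
  have h3 : HasDerivWithinAt (F.act (g * h)) (F.dact g (F.act h x) * F.dact h x)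
      (closedBall (0:ℂ) 1) x := by
    refine h2.hasDerivWithinAt.congr ?_ ?_
    · intro y hy
      exact act_mul F g h (by simpa using hy)
    · exact act_mul F g h hx
  exact hu.eq_deriv _ h1 h3

theorem dact_one {x : ℂ} (hx : ‖x‖ ≤ 1) : F.dact 1 x = 1 := by
  have h1 : HasDerivWithinAt (F.act 1) (F.dact 1 x) (closedBall (0:ℂ) 1) x :=
    (act_hasDerivAt F 1 hx).hasDerivWithinAt
  have h3 : HasDerivWithinAt (F.act 1) 1 (closedBall (0:ℂ) 1) x := by
    refine (hasDerivAt_id x).hasDerivWithinAt.congr ?_ ?_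
    · intro y hy
      exact act_one F (by simpa using hy)
    · exact act_one F hx
  exact (FA_uniq hx).eq_deriv _ h1 h3

theorem dact_ne (g : Γ) {x : ℂ} (hx : ‖x‖ ≤ 1) : F.dact g x ≠ 0 :=
  mobD_ne (F.hu g) (F.hb g) hx

theorem act_conf (g : Γ) {x : ℂ} (hx : ‖x‖ ≤ 1) :
    1 - ‖F.act g x‖ ^ 2 = ‖F.dact g x‖ * (1 - ‖x‖ ^ 2) :=
  mob_conf (F.hu g) (F.hb g) hx

theorem act_norm (g : Γ) {x : ℂ} (hx : ‖x‖ ≤ 1) :
    1 - ‖F.act g x‖ ^ 2 = (1 - ‖F.b g‖ ^ 2) * (1 - ‖x‖ ^ 2) /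
      ‖1 - (starRingEnd ℂ) (F.b g) * x‖ ^ 2 :=
  mob_norm (F.hu g) (F.hb g) hx

theorem act_dist (g : Γ) {x y : ℂ} (hx : ‖x‖ ≤ 1) (hy : ‖y‖ ≤ 1) :
    dist (F.act g x) (F.act g y) = (1 - ‖F.b g‖ ^ 2) * dist x y /
      (‖1 - (starRingEnd ℂ) (F.b g) * x‖ * ‖1 - (starRingEnd ℂ) (F.b g) * y‖) :=
  mob_dist (F.hu g) (F.hb g) hx hy

theorem act_pd (g : Γ) {x y : ℂ} (hx : ‖x‖ ≤ 1) (hy : ‖y‖ < 1) :
    pd (F.act g x) (F.act g y) = pd x y :=
  mob_pd (F.hu g) (F.hb g) hx hy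

theorem b_eq (g : Γ) : F.b g = F.act g⁻¹ 0 := by
  have h1 : F.act g (F.b g) = 0 := by
    unfold Fuchs.act mob
    rw [sub_self, mul_zero, zero_div]
  rw [← h1, act_inv_act F g (F.hb g).le]

theorem norm_act_zero (g : Γ) : ‖F.act g 0‖ = ‖F.b g‖ := by
  unfold Fuchs.act mob
  rw [mul_zero, sub_zero, div_one, zero_sub, norm_mul, F.hu, one_mul, norm_neg]

theorem norm_b_inv (g : Γ) : ‖F.b g⁻¹‖ = ‖F.b g‖ := by
  rw [b_eq F g⁻¹, inv_inv, norm_act_zero]

/-- proper discontinuity -/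
theorem proper {r : ℝ} (hr : r < 1) : {g | ∃ x : ℂ, ‖x‖ ≤ r ∧ ‖F.act g x‖ ≤ r}.Finite := by
  obtain ⟨s, hs, H⟩ := norm_le_of_pd (ρ := r) (r := r) hr hr
  refine (F.fin s hs).subset ?_
  rintro g ⟨x, hx, hgx⟩
  have h1 : F.act g (F.b g) = 0 := by
    unfold Fuchs.act mob
    rw [sub_self, mul_zero, zero_div]
  refine H x (F.b g) hx (F.hb g) ?_
  rw [← act_pd F g (hx.trans hr.le) (F.hb g), h1]
  unfold pd
  simpa using hgx

/-- if each value is taken finitely often, the norms of the centres tend to one -/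
theorem b_tendsto {g : ℕ → Γ} (hg : ∀ a, {n | g n = a}.Finite) :
    Tendsto (fun n => ‖F.b (g n)‖) atTop (𝓝 1) := by
  rw [Metric.tendsto_atTop']
  intro ε hε
  have h1 : {a | ‖F.b a‖ ≤ 1 - ε}.Finite := F.fin (1 - ε) (by linarith)
  have h2 : {n | ‖F.b (g n)‖ ≤ 1 - ε}.Finite := by
    have : {n | ‖F.b (g n)‖ ≤ 1 - ε} ⊆ ⋃ a ∈ {a | ‖F.b a‖ ≤ 1 - ε}, {n | g n = a} := by
      intro n hn
      simp only [mem_iUnion, mem_setOf_eq]
      exact ⟨g n, hn, rfl⟩
    exact (h1.biUnion fun a _ => hg a).subset this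
  obtain ⟨N, hN⟩ := h2.bddAbove
  refine ⟨N, fun n hn => ?_⟩
  have h3 : ¬ ‖F.b (g n)‖ ≤ 1 - ε := fun h => absurd (hN h) (by omega)
  rw [Real.dist_eq, abs_lt]
  constructor
  · linarith
  · linarith [F.hb (g n)]

theorem lim_sphere {ξ : ℂ} (h : ξ ∈ F.lim) : ‖ξ‖ = 1 := h.1

theorem lim_closed : IsClosed F.lim := by
  have : F.lim = {ξ | ‖ξ‖ = 1} ∩ closure (range fun g => F.act g 0) := rfl
  rw [this]
  exact (isClosed_eq continuous_norm continuous_const).inter isClosed_closure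

theorem lim_inv (g : Γ) {ξ : ℂ} (h : ξ ∈ F.lim) : F.act g ξ ∈ F.lim := by
  refine ⟨act_eq F g h.1, ?_⟩
  have hsub : (range fun g => F.act g 0) ⊆ closedBall (0:ℂ) 1 := by
    rintro _ ⟨a, rfl⟩
    simpa using act_le F a (x := 0) (by simp)
  have hc : ContinuousWithinAt (F.act g) (range fun g => F.act g 0) ξ :=
    (act_cont F g ξ (by simpa using h.1.le)).mono hsub
  refine hc.mem_closure h.2 ?_
  rintro _ ⟨a, rfl⟩
  exact ⟨g * a, act_mul F g a (by simp)⟩

theorem lim_inv_iff (g : Γ) {ξ : ℂ} (hξ : ‖ξ‖ = 1) : F.act g ξ ∈ F.lim ↔ ξ ∈ F.lim := by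
  refine ⟨fun h => ?_, lim_inv F g⟩
  have := lim_inv F g⁻¹ h
  rwa [act_inv_act F g hξ.le] at this

theorem lim_of_seq {g : ℕ → Γ} {x ξ : ℂ} (hx : ‖x‖ < 1) (hξ : ‖ξ‖ = 1)
    (h : Tendsto (fun n => F.act (g n) x) atTop (𝓝 ξ)) : ξ ∈ F.lim := by
  refine ⟨hξ, ?_⟩
  have h0 : Tendsto (fun n => ‖F.act (g n) x‖) atTop (𝓝 1) := by
    have := h.norm
    rwa [hξ] at this
  have hpd : ∀ n, pd (F.act (g n) x) (F.act (g n) 0) ≤ ‖x‖ := by
    intro n
    rw [act_pd F (g n) hx.le (by simp)]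
    unfold pd
    simp
  have h1 : ∀ n, ‖F.act (g n) x - F.act (g n) 0‖ ^ 2 * (1 - ‖x‖ ^ 2) ≤
      1 - ‖F.act (g n) x‖ ^ 2 := by
    intro n
    have ha : ‖F.act (g n) x‖ ≤ 1 := act_le F _ hx.le
    have hb : ‖F.act (g n) 0‖ < 1 := act_lt F _ (by simp)
    have hne : 1 - (starRingEnd ℂ) (F.act (g n) x) * F.act (g n) 0 ≠ 0 := by
      intro h
      have h2 : (starRingEnd ℂ) (F.act (g n) x) * F.act (g n) 0 = 1 := (sub_eq_zero.1 h).symm
      have h3 : ‖(starRingEnd ℂ) (F.act (g n) x) * F.act (g n) 0‖ < 1 := by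
        rw [norm_mul, RCLike.norm_conj]
        calc ‖F.act (g n) x‖ * ‖F.act (g n) 0‖ ≤ 1 * ‖F.act (g n) 0‖ :=
              mul_le_mul_of_nonneg_right ha (norm_nonneg _)
          _ < 1 := by rw [one_mul]; exact hb
      rw [h2, norm_one] at h3
      exact lt_irrefl _ h3
    have h4 := pd_close (r := ‖x‖) hx ha hb.le (hpd n) hne
    have h5 : ‖x‖ ^ 2 ≤ 1 := pow_le_one₀ (norm_nonneg _) hx.le
    have h6 : 0 ≤ 1 - ‖F.act (g n) x‖ ^ 2 := by
      have := pow_le_one₀ (n := 2) (norm_nonneg (F.act (g n) x)) ha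
      linarith
    have h7 : 0 ≤ 1 - ‖F.act (g n) 0‖ ^ 2 := by
      have := pow_le_one₀ (n := 2) (norm_nonneg (F.act (g n) 0)) hb.le
      linarith
    have h8 : 1 - ‖F.act (g n) 0‖ ^ 2 ≤ 1 := by
      have := sq_nonneg ‖F.act (g n) 0‖
      linarith
    have h9 : (1 - ‖F.act (g n) x‖ ^ 2) * (1 - ‖F.act (g n) 0‖ ^ 2) ≤ 1 - ‖F.act (g n) x‖ ^ 2 :=
      mul_le_of_le_one_right h6 h8
    have h10 : ‖x‖ ^ 2 * ((1 - ‖F.act (g n) x‖ ^ 2) * (1 - ‖F.act (g n) 0‖ ^ 2)) ≤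
        (1 - ‖F.act (g n) x‖ ^ 2) * (1 - ‖F.act (g n) 0‖ ^ 2) :=
      mul_le_of_le_one_left (mul_nonneg h6 h7) h5
    linarith
  have hxp : 0 < 1 - ‖x‖ ^ 2 := by
    have : ‖x‖ ^ 2 < 1 := pow_lt_one₀ (norm_nonneg _) hx (by norm_num)
    linarith
  have h2 : Tendsto (fun n => ‖F.act (g n) x - F.act (g n) 0‖ ^ 2) atTop (𝓝 0) := by
    have h3 : Tendsto (fun n => (1 - ‖F.act (g n) x‖ ^ 2) / (1 - ‖x‖ ^ 2)) atTop (𝓝 0) := by
      have := (((h0.pow 2).const_sub 1).div_const (1 - ‖x‖ ^ 2))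
      simpa using this
    refine squeeze_zero (fun n => sq_nonneg _) (fun n => ?_) h3
    rw [le_div_iff₀ hxp]
    exact h1 n
  have h4 : Tendsto (fun n => ‖F.act (g n) x - F.act (g n) 0‖) atTop (𝓝 0) := by
    have := h2.sqrt
    rw [Real.sqrt_zero] at this
    refine this.congr fun n => ?_
    rw [Real.sqrt_sq (norm_nonneg _)]
  have h5 : Tendsto (fun n => F.act (g n) 0) atTop (𝓝 ξ) := by
    have h6 : Tendsto (fun n => F.act (g n) x - F.act (g n) 0) atTop (𝓝 0) :=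
      tendsto_zero_iff_norm_tendsto_zero.2 h4
    have h7 := h.sub h6
    simpa using h7
  exact mem_closure_of_tendsto h5 (Eventually.of_forall fun n => ⟨g n, rfl⟩)

theorem sub_act (Z : Subgroup Γ) (g : Z) (x : ℂ) : (F.sub Z).act g x = F.act g x := rfl

theorem sub_lim (Z : Subgroup Γ) : (F.sub Z).lim ⊆ F.lim := by
  rintro ξ ⟨h1, h2⟩
  refine ⟨h1, closure_mono ?_ h2⟩
  rintro _ ⟨g, rfl⟩
  exact ⟨g, rfl⟩

end TN

end S_H12_TN_FA

section S_H12_TN_FB

/-!
FB (convergence property).  Pass to a subsequence along which `b n = F.b (g n) → d` (closed disc is compact) and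
`act (g n) 0 → c`; the norms tend to one (`b_tendsto`, `norm_act_zero`).  `c ∈ lim` by `lim_of_seq`, and `d ∈ lim`
because `F.b g = act g⁻¹ 0` (`b_eq`).  For `x` in the closed disc with `η ≤ dist x d`:
`dist (act g x) (act g 0) = (1 - ‖b‖²) ‖x‖ / (‖1 - conj b x‖ * 1)` (`act_dist` with `y = 0`) and
`‖1 - conj b x‖ ≥ ‖d - x‖ - ‖1 - conj b d‖ ...`: precisely `‖1 - conj b x‖ ≥ ‖1 - conj d x‖ - ‖b - d‖` and
`‖1 - conj d x‖ = ‖d - x‖` (`‖d‖ = 1`), so it is `≥ η / 2` for large `n`; hence the distance is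
`≤ (1 - ‖b‖²) * 2 / η → 0`.  The second statement is the first for the inverses: `F.b g⁻¹ = act g 0 → c`, `act g⁻¹ 0 = b g → d`.
-/

namespace TN
open Metric Set Filter Topology DS

variable {Γ : Type} [Group Γ]

theorem FB_lower {b d x : ℂ} (hd : ‖d‖ = 1) (hx : ‖x‖ ≤ 1) :
    dist x d - ‖b - d‖ ≤ ‖1 - (starRingEnd ℂ) b * x‖ := by
  have h1 : (starRingEnd ℂ) d * d = 1 := by
    rw [mul_comm, Complex.mul_conj, Complex.normSq_eq_norm_sq, hd]
    norm_num
  have h2 : 1 - (starRingEnd ℂ) d * x = (starRingEnd ℂ) d * (d - x) := by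
    rw [mul_sub, h1]
  have h3 : ‖1 - (starRingEnd ℂ) d * x‖ = dist x d := by
    rw [h2, norm_mul, RCLike.norm_conj, hd, one_mul, dist_comm, dist_eq_norm]
  have h4 : 1 - (starRingEnd ℂ) d * x
      = (1 - (starRingEnd ℂ) b * x) + (starRingEnd ℂ) (b - d) * x := by
    rw [map_sub]; ring
  have h5 : ‖(starRingEnd ℂ) (b - d) * x‖ ≤ ‖b - d‖ := by
    rw [norm_mul, RCLike.norm_conj]
    exact mul_le_of_le_one_right (norm_nonneg _) hx
  have h6 := norm_add_le (1 - (starRingEnd ℂ) b * x) ((starRingEnd ℂ) (b - d) * x)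
  rw [← h4, h3] at h6
  linarith

theorem FB_est (F : Fuchs Γ) {h : ℕ → Γ} {c d : ℂ} (hd : ‖d‖ = 1)
    (h1 : Tendsto (fun n => F.act (h n) 0) atTop (𝓝 c))
    (h2 : Tendsto (fun n => F.b (h n)) atTop (𝓝 d)) :
    ∀ η > 0, ∀ ε > 0, ∀ᶠ n in atTop, ∀ x ∈ closedBall (0:ℂ) 1, η ≤ dist x d →
        dist (F.act (h n) x) c < ε := by
  intro η hη ε hε
  have h3 : Tendsto (fun n => (1 - ‖F.b (h n)‖ ^ 2) * (2 / η)) atTop (𝓝 0) := by
    have h4 := ((h2.norm.pow 2).const_sub 1).mul_const (2 / η)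
    rw [hd] at h4
    simpa using h4
  have h5 : ∀ᶠ n in atTop, (1 - ‖F.b (h n)‖ ^ 2) * (2 / η) < ε / 2 :=
    h3.eventually_lt_const (by linarith)
  have h6 : ∀ᶠ n in atTop, dist (F.act (h n) 0) c < ε / 2 :=
    (Metric.tendsto_nhds.1 h1) (ε / 2) (by linarith)
  have h7 : ∀ᶠ n in atTop, dist (F.b (h n)) d < η / 2 :=
    (Metric.tendsto_nhds.1 h2) (η / 2) (by linarith)
  filter_upwards [h5, h6, h7] with n h5 h6 h7 x hx hxd
  have hx1 : ‖x‖ ≤ 1 := by simpa using hx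
  rw [dist_eq_norm (F.b (h n)) d] at h7
  have h8 := FB_lower (b := F.b (h n)) hd hx1
  have h9 : η / 2 ≤ ‖1 - (starRingEnd ℂ) (F.b (h n)) * x‖ := by linarith
  have h10 := act_dist F (h n) hx1 (y := 0) (by simp)
  have hb : 0 ≤ 1 - ‖F.b (h n)‖ ^ 2 := by
    have := pow_le_one₀ (n := 2) (norm_nonneg (F.b (h n))) (F.hb (h n)).le
    linarith
  have h11 : dist (F.act (h n) x) (F.act (h n) 0) ≤ (1 - ‖F.b (h n)‖ ^ 2) * (2 / η) := by
    rw [h10, mul_zero, sub_zero, norm_one, mul_one, dist_zero_right, mul_div_assoc]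
    apply mul_le_mul_of_nonneg_left _ hb
    rw [div_le_div_iff₀ (by linarith) hη]
    nlinarith
  have h12 := dist_triangle (F.act (h n) x) (F.act (h n) 0) c
  linarith

theorem conv (F : Fuchs Γ) {g : ℕ → Γ} (hg : ∀ a, {n | g n = a}.Finite) :
    ∃ φ : ℕ → ℕ, StrictMono φ ∧ ∃ c ∈ F.lim, ∃ d ∈ F.lim,
      Tendsto (fun n => F.act (g (φ n)) 0) atTop (𝓝 c) ∧
      Tendsto (fun n => F.b (g (φ n))) atTop (𝓝 d) ∧
      (∀ η > 0, ∀ ε > 0, ∀ᶠ n in atTop, ∀ x ∈ closedBall (0:ℂ) 1, η ≤ dist x d →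
        dist (F.act (g (φ n)) x) c < ε) ∧
      (∀ η > 0, ∀ ε > 0, ∀ᶠ n in atTop, ∀ x ∈ closedBall (0:ℂ) 1, η ≤ dist x c →
        dist (F.act (g (φ n))⁻¹ x) d < ε) := by
  have hK : IsCompact (closedBall (0:ℂ) 1 ×ˢ closedBall (0:ℂ) 1) :=
    (isCompact_closedBall _ _).prod (isCompact_closedBall _ _)
  have hmem : ∀ n, ((F.act (g n) 0, F.b (g n)) : ℂ × ℂ) ∈
      closedBall (0:ℂ) 1 ×ˢ closedBall (0:ℂ) 1 := by
    intro n
    refine ⟨?_, ?_⟩
    · simpa using act_le F (g n) (x := 0) (by simp)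
    · simpa using (F.hb (g n)).le
  obtain ⟨⟨c, d⟩, -, φ, hφ, hlim⟩ := hK.tendsto_subseq hmem
  have hc : Tendsto (fun n => F.act (g (φ n)) 0) atTop (𝓝 c) :=
    (continuous_fst.tendsto (c, d)).comp hlim
  have hd : Tendsto (fun n => F.b (g (φ n))) atTop (𝓝 d) :=
    (continuous_snd.tendsto (c, d)).comp hlim
  have hn1 : Tendsto (fun n => ‖F.b (g (φ n))‖) atTop (𝓝 1) :=
    (b_tendsto F hg).comp hφ.tendsto_atTop
  have hd1 : ‖d‖ = 1 := tendsto_nhds_unique hd.norm hn1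
  have hc1 : ‖c‖ = 1 := by
    refine tendsto_nhds_unique hc.norm ?_
    refine hn1.congr fun n => ?_
    rw [norm_act_zero]
  have hc2 : Tendsto (fun n => F.b (g (φ n))⁻¹) atTop (𝓝 c) := by
    refine hc.congr fun n => ?_
    rw [b_eq F (g (φ n))⁻¹, inv_inv]
  have hd2 : Tendsto (fun n => F.act (g (φ n))⁻¹ 0) atTop (𝓝 d) := by
    refine hd.congr fun n => ?_
    rw [b_eq F (g (φ n))]
  refine ⟨φ, hφ, c, lim_of_seq F (x := 0) (by simp) hc1 hc, d,
    lim_of_seq F (g := fun n => (g (φ n))⁻¹) (x := 0) (by simp) hd1 hd2, hc, hd, ?_, ?_⟩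
  · exact FB_est F hd1 hc hd
  · exact FB_est F (h := fun n => (g (φ n))⁻¹) hc1 hd2 hc2

/-- a moving version: if moreover `x n → x ≠ d` then `act (g (φ n)) (x n) → c` -/
theorem conv_seq (F : Fuchs Γ) {g : ℕ → Γ} {c d x : ℂ}
    (h : ∀ η > 0, ∀ ε > 0, ∀ᶠ n in atTop, ∀ x ∈ closedBall (0:ℂ) 1, η ≤ dist x d →
        dist (F.act (g n) x) c < ε) {y : ℕ → ℂ} (hy : ∀ n, y n ∈ closedBall (0:ℂ) 1)
    (hyx : Tendsto y atTop (𝓝 x)) (hx : x ≠ d) : Tendsto (fun n => F.act (g n) (y n)) atTop (𝓝 c) := by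
  rw [Metric.tendsto_nhds]
  intro ε hε
  have h0 : 0 < dist x d := dist_pos.2 hx
  have h1 : ∀ᶠ n in atTop, dist (y n) x < dist x d / 2 :=
    (Metric.tendsto_nhds.1 hyx) _ (by linarith)
  filter_upwards [h (dist x d / 2) (by linarith) ε hε, h1] with n h2 h3
  refine h2 (y n) (hy n) ?_
  have h4 := dist_triangle x (y n) d
  rw [dist_comm x (y n)] at h4
  linarith

end TN

end S_H12_TN_FB

section S_H12_TN_FC

/-!
FC (hyperbolic elements).  For `g ≠ 1` let `p ≠ q` be its two fixed points on the circle (`Fuchs.hyp`).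
Powers: `g ^ n ≠ 1` for `n ≠ 0`.  Compute with the cross ratio coordinate `y = (x - q) / (x - p)`: by `mob_sub`,
`(act g x - q) / (act g x - p) = lam * (x - q) / (x - p)` with `lam = (1 - conj b p) / (1 - conj b q)`, for all `x` in the
closed disc, `x ≠ p`.  `‖lam‖ ≠ 1`: otherwise take `x` in the open disc; `(x - q)/(x - p)` lies for `x` in the closed disc
in a closed half plane bounded by a line through `0` (real multiple of a fixed unit `v` on the circle), which is mapped to itself by the multiplication by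
`lam`, so `lam` is real positive, `lam = 1` if `‖lam‖ = 1`, and then `act g x = x`, contradiction to `free`.
(Another way: `lam` real because it maps the line `{y | x on the circle}` to itself, positive because it preserves the half plane.)
So `lam > 0` real, `lam ≠ 1`.  If `lam > 1` then `(act (g^n) x - q)/(act (g^n) x - p) = lam^n (x-q)/(x-p) → ∞` for `x ≠ q`, so
`act (g ^ n) x → p`: `AR g p q`.  If `lam < 1`: `AR g q p`.
`AR.inv`: the coordinate with `lam⁻¹`.  Uniqueness: `act (g^n) x → p` for `x = 0` determines `p`; inverse determines `q`.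
`AR.conj`, `AR.norm`: transport the limits by the homeomorphism (`act h`, resp. `e.H`): `act ((h g h⁻¹)^n) x =
act h (act (g^n) (act h⁻¹ x))`; for `e`: `act (θ g ^ n) x = e.H (act (g^n) (e.Hi x))`.
`AR.fixed`: a fixed point `x` on the closed disc with `x ≠ q` has `act (g^n) x = x → p`, so `x = p`.
`AR.lim`: `act (g^n) 0 → p`.  `inf_order`: `act (g ^ n) 0` tends to `p` of norm one while `‖act (g^n) 0‖ < 1`.
-/

namespace TN
open Metric Set Filter Topology DS

variable {Γ : Type} [Group Γ] {F : Fuchs Γ}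

/-- the multiplier at two fixed points is real and positive -/
private lemma FC_step (F : Fuchs Γ) {g : Γ} (hg : g ≠ 1) {p q : ℂ} (hp : ‖p‖ = 1) (hq : ‖q‖ = 1)
    (hne : p ≠ q) (hfp : F.act g p = p) (hfq : F.act g q = q) :
    ∃ lam : ℝ, 0 < lam ∧ lam ≠ 1 ∧ ∀ y : ℂ, ‖y‖ ≤ 1 →
      (F.act g y - q) * (y - p) = lam * (y - q) * (F.act g y - p) := by
  set b := F.b g with hb
  set u := F.u g with hu
  have hb1 : ‖b‖ < 1 := F.hb g
  have hu1 : ‖u‖ = 1 := F.hu g
  set z := 1 - (starRingEnd ℂ) b * p with hz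
  set w := 1 - (starRingEnd ℂ) b * q with hw
  have hzre : 0 < z.re := den_re hb1 hp.le
  have hwre : 0 < w.re := den_re hb1 hq.le
  have hz0 : z ≠ 0 := den_ne hb1 hp.le
  have hw0 : w ≠ 0 := den_ne hb1 hq.le
  have hu0 : u ≠ 0 := by intro h; rw [h] at hu1; simp at hu1
  have key : ∀ s : ℂ, ‖s‖ = 1 → F.act g s = s →
      u * (starRingEnd ℂ) (1 - (starRingEnd ℂ) b * s) = 1 - (starRingEnd ℂ) b * s := by
    intro s hs hfs
    have hs0 : s ≠ 0 := by intro h; rw [h] at hs; simp at hs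
    have hss : s * (starRingEnd ℂ) s = 1 := by
      rw [Complex.mul_conj, Complex.normSq_eq_norm_sq, hs]; simp
    have hd : 1 - (starRingEnd ℂ) b * s ≠ 0 := den_ne hb1 hs.le
    have h1 : u * (s - b) / (1 - (starRingEnd ℂ) b * s) = s := hfs
    rw [div_eq_iff hd] at h1
    have h2 : s * (u * (starRingEnd ℂ) (1 - (starRingEnd ℂ) b * s)) =
        s * (1 - (starRingEnd ℂ) b * s) := by
      rw [← h1, map_sub, map_mul, Complex.conj_conj, map_one]
      linear_combination (-u * b) * hss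
    exact mul_left_cancel₀ hs0 h2
  have hkz := key p hp hfp
  have hkw := key q hq hfq
  rw [← hz] at hkz
  rw [← hw] at hkw
  have hcross : z * (starRingEnd ℂ) w = (starRingEnd ℂ) z * w := by
    have : u * (z * (starRingEnd ℂ) w) = u * ((starRingEnd ℂ) z * w) := by
      calc u * (z * (starRingEnd ℂ) w) = z * (u * (starRingEnd ℂ) w) := by ring
        _ = z * w := by rw [hkw]
        _ = (u * (starRingEnd ℂ) z) * w := by rw [hkz]
        _ = u * ((starRingEnd ℂ) z * w) := by ring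
    exact mul_left_cancel₀ hu0 this
  have him : z.im * w.re = z.re * w.im := by
    have h3 := congrArg Complex.im hcross
    simp only [Complex.mul_im, Complex.conj_re, Complex.conj_im] at h3
    linarith
  set lam : ℝ := z.re / w.re with hlam
  have hzl : z = lam * w := by
    apply Complex.ext
    · rw [Complex.re_ofReal_mul, hlam]; field_simp
    · rw [Complex.im_ofReal_mul, hlam]; field_simp; linarith
  refine ⟨lam, by positivity, ?_, ?_⟩
  · intro h1
    rw [h1, Complex.ofReal_one, one_mul, hz, hw] at hzl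
    have h2 : (starRingEnd ℂ) b * (p - q) = 0 := by linear_combination -hzl
    rcases mul_eq_zero.1 h2 with h3 | h3
    · have hb0 : b = 0 := by simpa using h3
      have := F.free g hg 0 (by simp)
      apply this
      rw [← hb, hb0]
      simp [mob]
    · exact hne (sub_eq_zero.1 h3)
  · intro y hy
    have hyd : 1 - (starRingEnd ℂ) b * y ≠ 0 := den_ne hb1 hy
    have e1 : F.act g y - q = u * (1 - (starRingEnd ℂ) b * b) * (y - q) /
        ((1 - (starRingEnd ℂ) b * y) * w) := by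
      rw [← mob_sub hb1 hy hq.le]
      change F.act g y - q = F.act g y - F.act g q
      rw [hfq]
    have e2 : F.act g y - p = u * (1 - (starRingEnd ℂ) b * b) * (y - p) /
        ((1 - (starRingEnd ℂ) b * y) * z) := by
      rw [← mob_sub hb1 hy hp.le]
      change F.act g y - p = F.act g y - F.act g p
      rw [hfp]
    have hlam0 : (lam : ℂ) ≠ 0 := by
      rw [hlam]
      exact_mod_cast (div_pos hzre hwre).ne'
    rw [e1, e2, hzl]
    field_simp

private lemma FC_fix (F : Fuchs Γ) {g : Γ} {p : ℂ} (hp : ‖p‖ ≤ 1) (hfp : F.act g p = p) (n : ℕ) :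
    F.act (g ^ n) p = p := by
  induction n with
  | zero => rw [pow_zero]; exact act_one F hp
  | succ n ih => rw [pow_succ', act_mul F _ _ hp, ih, hfp]

private lemma FC_pow (F : Fuchs Γ) {g : Γ} {p q : ℂ} (hp : ‖p‖ = 1) (hfp : F.act g p = p)
    {lam : ℝ} (h : ∀ y : ℂ, ‖y‖ ≤ 1 →
      (F.act g y - q) * (y - p) = lam * (y - q) * (F.act g y - p)) (n : ℕ) {x : ℂ}
    (hx : ‖x‖ ≤ 1) :
    (F.act (g ^ n) x - q) * (x - p) = (lam : ℂ) ^ n * (x - q) * (F.act (g ^ n) x - p) := by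
  by_cases hxp : x = p
  · rw [hxp, FC_fix F hp.le hfp n]; ring
  induction n with
  | zero => rw [pow_zero, act_one F hx]; ring
  | succ n ih =>
    rw [pow_succ', act_mul F _ _ hx]
    have hy : ‖F.act (g ^ n) x‖ ≤ 1 := act_le F _ hx
    have h1 := h _ hy
    have hyp : F.act (g ^ n) x - p ≠ 0 := by
      intro h2
      apply hxp
      apply act_inj F (g ^ n) (by simpa using hx) (by simpa using hp.le)
      rw [FC_fix F hp.le hfp n]
      exact sub_eq_zero.1 h2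
    apply mul_left_cancel₀ hyp
    rw [pow_succ']
    linear_combination (x - p) * h1 + (lam : ℂ) * (F.act g (F.act (g ^ n) x) - p) * ih

private lemma FC_bd (F : Fuchs Γ) {g : Γ} {p q : ℂ} (hp : ‖p‖ = 1) (hq : ‖q‖ = 1) {lam : ℝ}
    (hlam : 0 < lam) {n : ℕ} {x : ℂ} (hx : ‖x‖ ≤ 1)
    (h : (F.act (g ^ n) x - q) * (x - p) = (lam : ℂ) ^ n * (x - q) * (F.act (g ^ n) x - p)) :
    ‖F.act (g ^ n) x - p‖ * (lam ^ n * ‖x - q‖) ≤ 4 := by
  have h1 := congrArg norm h
  rw [norm_mul, norm_mul, norm_mul, norm_pow, Complex.norm_real, Real.norm_eq_abs,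
    abs_of_pos hlam] at h1
  have h2 : ‖F.act (g ^ n) x - q‖ ≤ 2 := by
    have := norm_sub_le (F.act (g ^ n) x) q
    have := act_le F (g ^ n) hx
    linarith
  have h3 : ‖x - p‖ ≤ 2 := by
    have := norm_sub_le x p
    linarith
  calc ‖F.act (g ^ n) x - p‖ * (lam ^ n * ‖x - q‖) = ‖F.act (g ^ n) x - q‖ * ‖x - p‖ := by
        rw [h1]; ring
    _ ≤ 2 * 2 := mul_le_mul h2 h3 (norm_nonneg _) (by norm_num)
    _ = 4 := by norm_num

private lemma FC_tend {a : ℕ → ℂ} {p : ℂ} {lam c : ℝ} (hlam : 1 < lam) (hc : 0 < c)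
    (h : ∀ n, ‖a n - p‖ * (lam ^ n * c) ≤ 4) : Tendsto a atTop (𝓝 p) := by
  rw [tendsto_iff_norm_sub_tendsto_zero]
  have hlim : Tendsto (fun n : ℕ => 4 / c * (lam⁻¹) ^ n) atTop (𝓝 0) := by
    have h1 := tendsto_pow_atTop_nhds_zero_of_lt_one (inv_nonneg.2 (by linarith : (0:ℝ) ≤ lam))
      (inv_lt_one_of_one_lt₀ hlam)
    have := h1.const_mul (4 / c)
    simpa using this
  refine squeeze_zero (fun n => norm_nonneg _) (fun n => ?_) hlim
  have hl : 0 < lam ^ n := by positivity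
  have h2 := h n
  rw [inv_pow, ← div_eq_mul_inv, div_div, le_div_iff₀ (by positivity)]
  calc ‖a n - p‖ * (c * lam ^ n) = ‖a n - p‖ * (lam ^ n * c) := by ring
    _ ≤ 4 := h2

private lemma FC_AR (F : Fuchs Γ) {g : Γ} {p q : ℂ} (hp : ‖p‖ = 1) (hq : ‖q‖ = 1) (hne : p ≠ q)
    (hfp : F.act g p = p) (hfq : F.act g q = q) {lam : ℝ} (hlam : 1 < lam)
    (h : ∀ y : ℂ, ‖y‖ ≤ 1 → (F.act g y - q) * (y - p) = lam * (y - q) * (F.act g y - p)) :
    F.AR g p q where
  np := hp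
  nq := hq
  ne := hne
  fp := hfp
  fq := hfq
  att := by
    intro x hx hxq
    have hx' : ‖x‖ ≤ 1 := by simpa using hx
    refine FC_tend hlam (norm_pos_iff.2 (sub_ne_zero.2 hxq)) fun n => ?_
    exact FC_bd F hp hq (by linarith) hx' (FC_pow F hp hfp h n hx')

/-- the formula for the inverse multiplier -/
private lemma FC_swap (F : Fuchs Γ) {g : Γ} {p q : ℂ} {lam : ℝ} (hlam : 0 < lam)
    (h : ∀ y : ℂ, ‖y‖ ≤ 1 → (F.act g y - q) * (y - p) = lam * (y - q) * (F.act g y - p)) :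
    ∀ y : ℂ, ‖y‖ ≤ 1 → (F.act g y - p) * (y - q) = (lam⁻¹ : ℝ) * (y - p) * (F.act g y - q) := by
  intro y hy
  have h1 := h y hy
  have hl : (lam : ℂ) ≠ 0 := by exact_mod_cast hlam.ne'
  push_cast
  field_simp
  linear_combination -h1

theorem exists_AR (F : Fuchs Γ) {g : Γ} (hg : g ≠ 1) : ∃ p q, F.AR g p q := by
  obtain ⟨p, q, hp, hq, hne, hfp, hfq⟩ := F.hyp g hg
  obtain ⟨lam, hlam, hlam1, h⟩ := FC_step F hg hp hq hne hfp hfq
  rcases lt_or_gt_of_ne hlam1 with h1 | h1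
  · exact ⟨q, p, FC_AR F hq hp hne.symm hfq hfp ((one_lt_inv₀ hlam).2 h1) (FC_swap F hlam h)⟩
  · exact ⟨p, q, FC_AR F hp hq hne hfp hfq h1 h⟩

private lemma FC_q0 {q : ℂ} (hq : ‖q‖ = 1) : (0 : ℂ) ≠ q := by
  rintro rfl; simp at hq

theorem AR.ne_one {g : Γ} {p q : ℂ} (h : F.AR g p q) : g ≠ 1 := by
  rintro rfl
  have h1 := h.att 0 (by simp) (FC_q0 h.nq)
  have h2 : (fun n : ℕ => F.act ((1 : Γ) ^ n) 0) = fun _ => 0 := by
    funext n; rw [one_pow, act_one F (by simp)]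
  rw [h2] at h1
  have h3 := tendsto_nhds_unique h1 tendsto_const_nhds
  exact FC_q0 h.np h3.symm

private lemma FC_lam {g : Γ} {p q : ℂ} (h : F.AR g p q) : ∃ lam : ℝ, 1 < lam ∧
    ∀ y : ℂ, ‖y‖ ≤ 1 → (F.act g y - q) * (y - p) = lam * (y - q) * (F.act g y - p) := by
  obtain ⟨lam, hlam, hlam1, h1⟩ := FC_step F (AR.ne_one h) h.np h.nq h.ne h.fp h.fq
  rcases lt_or_gt_of_ne hlam1 with h2 | h2
  · exfalso
    have h3 := FC_AR F h.nq h.np h.ne.symm h.fq h.fp ((one_lt_inv₀ hlam).2 h2) (FC_swap F hlam h1)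
    exact h.ne (tendsto_nhds_unique (h.att 0 (by simp) (FC_q0 h.nq))
      (h3.att 0 (by simp) (FC_q0 h.np)))
  · exact ⟨lam, h2, h1⟩

theorem AR.inv {g : Γ} {p q : ℂ} (h : F.AR g p q) : F.AR g⁻¹ q p where
  np := h.nq
  nq := h.np
  ne := h.ne.symm
  fp := by
    have := act_inv_act F g h.nq.le
    rwa [h.fq] at this
  fq := by
    have := act_inv_act F g h.np.le
    rwa [h.fp] at this
  att := by
    intro x hx hxp
    obtain ⟨lam, hlam, h1⟩ := FC_lam h
    have hx' : ‖x‖ ≤ 1 := by simpa using hx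
    refine FC_tend hlam (norm_pos_iff.2 (sub_ne_zero.2 hxp)) fun n => ?_
    set y := F.act (g⁻¹ ^ n) x with hy
    have hy1 : ‖y‖ ≤ 1 := act_le F _ hx'
    have hxy : F.act (g ^ n) y = x := by
      rw [hy, inv_pow]; exact act_act_inv F (g ^ n) hx'
    have h2 := FC_pow F h.np h.fp h1 n hy1
    rw [hxy] at h2
    have h3 := congrArg norm h2
    rw [norm_mul, norm_mul, norm_mul, norm_pow, Complex.norm_real, Real.norm_eq_abs,
      abs_of_pos (by linarith : 0 < lam)] at h3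
    have h4 : ‖x - q‖ ≤ 2 := by
      have := norm_sub_le x q
      have := h.nq
      linarith
    have h5 : ‖y - p‖ ≤ 2 := by
      have := norm_sub_le y p
      have := h.np
      linarith
    calc ‖y - q‖ * (lam ^ n * ‖x - p‖) = ‖x - q‖ * ‖y - p‖ := by rw [h3]; ring
      _ ≤ 2 * 2 := mul_le_mul h4 h5 (norm_nonneg _) (by norm_num)
      _ = 4 := by norm_num

theorem AR.unique {g : Γ} {p q p' q' : ℂ} (h : F.AR g p q) (h' : F.AR g p' q') : p = p' ∧ q = q' := by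
  have key : ∀ {g : Γ} {p q p' q' : ℂ}, F.AR g p q → F.AR g p' q' → p = p' := by
    intro g p q p' q' h h'
    exact tendsto_nhds_unique (h.att 0 (by simp) (FC_q0 h.nq)) (h'.att 0 (by simp) (FC_q0 h'.nq))
  exact ⟨key h h', key (AR.inv h) (AR.inv h')⟩

theorem AR.fixed {g : Γ} {p q x : ℂ} (h : F.AR g p q) (hx : ‖x‖ ≤ 1) (hf : F.act g x = x) :
    x = p ∨ x = q := by
  by_cases hxq : x = q
  · exact Or.inr hxq
  · left
    have h1 := h.att x (by simpa using hx) hxq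
    have h2 : (fun n : ℕ => F.act (g ^ n) x) = fun _ => x := by
      funext n; exact FC_fix F hx hf n
    rw [h2] at h1
    exact tendsto_nhds_unique tendsto_const_nhds h1

theorem AR.conj {g : Γ} {p q : ℂ} (h : F.AR g p q) (a : Γ) :
    F.AR (a * g * a⁻¹) (F.act a p) (F.act a q) := by
  have hact : ∀ (k : Γ) (x : ℂ), ‖x‖ ≤ 1 →
      F.act (a * k * a⁻¹) x = F.act a (F.act k (F.act a⁻¹ x)) := by
    intro k x hx
    rw [act_mul F _ _ hx, act_mul F _ _ (act_le F _ hx)]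
  refine ⟨act_eq F a h.np, act_eq F a h.nq, ?_, ?_, ?_, ?_⟩
  · intro h1
    exact h.ne (act_inj F a (by simpa using h.np.le) (by simpa using h.nq.le) h1)
  · rw [hact _ _ (act_le F a h.np.le), act_inv_act F a h.np.le, h.fp]
  · rw [hact _ _ (act_le F a h.nq.le), act_inv_act F a h.nq.le, h.fq]
  · intro x hx hxq
    have hx' : ‖x‖ ≤ 1 := by simpa using hx
    have hy : ‖F.act a⁻¹ x‖ ≤ 1 := act_le F _ hx'
    have hyq : F.act a⁻¹ x ≠ q := by
      intro h1
      apply hxq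
      rw [← h1, act_act_inv F a hx']
    have h1 := h.att (F.act a⁻¹ x) (by simpa using hy) hyq
    have h2 : (fun n : ℕ => F.act ((a * g * a⁻¹) ^ n) x) =
        fun n : ℕ => F.act a (F.act (g ^ n) (F.act a⁻¹ x)) := by
      funext n
      rw [conj_pow, hact _ _ hx']
    rw [h2]
    have hc := (act_cont F a) p (by simpa using h.np.le)
    refine hc.tendsto.comp (tendsto_nhdsWithin_of_tendsto_nhds_of_eventually_within _ h1 ?_)
    exact Eventually.of_forall fun n => by simpa using act_le F (g ^ n) hy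

private lemma FC_cb {x : ℂ} (hx : ‖x‖ ≤ 1) : x ∈ ball (0:ℂ) 1 ∨ x ∈ sphere (0:ℂ) 1 := by
  rcases hx.lt_or_eq with h | h
  · left; simpa using h
  · right; simpa using h

private lemma FC_H {e : Elt Γ} (he : Norm F e) {x : ℂ} (hx : ‖x‖ ≤ 1) : ‖e.H x‖ ≤ 1 := by
  rcases FC_cb hx with h | h
  · have := he.mapB h
    simp at this
    exact this.le
  · have := he.mapS h
    simp at this
    exact this.le

private lemma FC_Hi {e : Elt Γ} (he : Norm F e) {x : ℂ} (hx : ‖x‖ ≤ 1) : ‖e.Hi x‖ ≤ 1 := by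
  rcases FC_cb hx with h | h
  · have := he.mapBi h
    simp at this
    exact this.le
  · have := he.mapSi h
    simp at this
    exact this.le

theorem AR.norm {g : Γ} {p q : ℂ} (h : F.AR g p q) {e : Elt Γ} (he : Norm F e) :
    F.AR (e.θ g) (e.H p) (e.H q) := by
  have hpc : p ∈ closedBall (0:ℂ) 1 := by simpa using h.np.le
  have hqc : q ∈ closedBall (0:ℂ) 1 := by simpa using h.nq.le
  refine ⟨?_, ?_, ?_, ?_, ?_, ?_⟩
  · have := he.mapS (show p ∈ sphere (0:ℂ) 1 by simpa using h.np)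
    simpa using this
  · have := he.mapS (show q ∈ sphere (0:ℂ) 1 by simpa using h.nq)
    simpa using this
  · intro h1
    apply h.ne
    rw [← he.left p hpc, ← he.left q hqc, h1]
  · rw [← he.equi g p hpc, h.fp]
  · rw [← he.equi g q hqc, h.fq]
  · intro x hx hxq
    have hx' : ‖x‖ ≤ 1 := by simpa using hx
    have hy : ‖e.Hi x‖ ≤ 1 := FC_Hi he hx'
    have hyc : e.Hi x ∈ closedBall (0:ℂ) 1 := by simpa using hy
    have hyq : e.Hi x ≠ q := by
      intro h1
      apply hxq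
      rw [← h1, he.right x hx]
    have h1 := h.att (e.Hi x) hyc hyq
    have h2 : (fun n : ℕ => F.act ((e.θ g) ^ n) x) =
        fun n : ℕ => e.H (F.act (g ^ n) (e.Hi x)) := by
      funext n
      rw [he.equi _ _ hyc, he.right x hx, map_pow]
    rw [h2]
    have hc := he.cont p hpc
    refine hc.tendsto.comp (tendsto_nhdsWithin_of_tendsto_nhds_of_eventually_within _ h1 ?_)
    exact Eventually.of_forall fun n => by simpa using act_le F (g ^ n) hy

theorem AR.lim {g : Γ} {p q : ℂ} (h : F.AR g p q) : p ∈ F.lim ∧ q ∈ F.lim := by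
  have key : ∀ {g : Γ} {p q : ℂ}, F.AR g p q → p ∈ F.lim := by
    intro g p q h
    exact lim_of_seq F (g := fun n => g ^ n) (x := 0) (by simp) h.np
      (h.att 0 (by simp) (FC_q0 h.nq))
  exact ⟨key h, key (AR.inv h)⟩

theorem AR.pow {g : Γ} {p q : ℂ} (h : F.AR g p q) {n : ℕ} (hn : n ≠ 0) : F.AR (g ^ n) p q where
  np := h.np
  nq := h.nq
  ne := h.ne
  fp := FC_fix F h.np.le h.fp n
  fq := FC_fix F h.nq.le h.fq n
  att := by
    intro x hx hxq
    have h1 := h.att x hx hxq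
    have h2 : Tendsto (fun k : ℕ => n * k) atTop atTop :=
      tendsto_id.const_mul_atTop' (Nat.pos_of_ne_zero hn)
    have h3 := h1.comp h2
    refine h3.congr fun k => ?_
    simp only [Function.comp_apply, pow_mul]

theorem inf_order (F : Fuchs Γ) {g : Γ} (hg : g ≠ 1) {n : ℕ} (hn : n ≠ 0) : g ^ n ≠ 1 := by
  obtain ⟨p, q, h⟩ := exists_AR F hg
  exact AR.ne_one (AR.pow h hn)

theorem pow_inj (F : Fuchs Γ) {g : Γ} (hg : g ≠ 1) : Function.Injective (fun n : ℤ => g ^ n) := by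
  rw [injective_zpow_iff_not_isOfFinOrder]
  intro h
  obtain ⟨n, hn, h1⟩ := isOfFinOrder_iff_pow_eq_one.1 h
  exact inf_order F hg (Nat.pos_iff_ne_zero.1 hn) h1

/-- uniform attraction away from the repelling point -/
theorem AR.unif {g : Γ} {p q : ℂ} (h : F.AR g p q) {η ε : ℝ} (hη : 0 < η) (hε : 0 < ε) :
    ∀ᶠ n : ℕ in atTop, ∀ x ∈ closedBall (0:ℂ) 1, η ≤ dist x q → dist (F.act (g ^ n) x) p < ε := by
  obtain ⟨lam, hlam, h1⟩ := FC_lam h
  have hlim : Tendsto (fun n : ℕ => lam ^ n) atTop atTop := tendsto_pow_atTop_atTop_of_one_lt hlam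
  filter_upwards [hlim.eventually_gt_atTop (4 / (ε * η))] with n hn x hx hxq
  have hx' : ‖x‖ ≤ 1 := by simpa using hx
  have h2 := FC_bd F h.np h.nq (by linarith) hx' (FC_pow F h.np h.fp h1 n hx')
  rw [dist_eq_norm] at hxq ⊢
  rw [div_lt_iff₀ (by positivity)] at hn
  by_contra hcon
  push Not at hcon
  have hl : 0 < lam ^ n := by positivity
  have h3 : ε * (lam ^ n * η) ≤ ‖F.act (g ^ n) x - p‖ * (lam ^ n * ‖x - q‖) :=
    mul_le_mul hcon (mul_le_mul_of_nonneg_left hxq hl.le) (by positivity) (norm_nonneg _)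
  nlinarith

end TN

end S_H12_TN_FC

section S_H12_TN_FD

/-!
FD (stabilisers).  Let `AR g p q`.
Step 1: `act c p = p` implies `act c q = q`.  Suppose `act c p = p`, `act c q = q' ≠ q`.  The elements `c_n = g^(-n) c g^n`
(`n ≥ 0`) fix `p` and satisfy `c_n⁻¹ q = g^(-n) c⁻¹ g^n q = g^(-n) (act c⁻¹ q) → q` if `act c⁻¹ q ≠ p`
(it is not `p` as `c` fixes `p`), and they are pairwise distinct: `act c⁻¹ q ≠ q`, and the points
`g^(-n)(act c⁻¹ q)` are pairwise distinct (`AR.inv`, not a fixed point of `g`).  They stay bounded: put `z = act c⁻¹ q`.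
To see that infinitely many distinct `c_n` contradict discreteness, apply `conv` to `c_n`: a subsequence converges to `a` off `d`,
`c_n⁻¹ → d` off `a`.  All `c_n` fix `p`: so `p = a` or `p = d` (if `p ≠ d` then `p = c_n p → a`).
(i) If `p ≠ d`: `p = a`.  Points `q_n = c_n⁻¹ q → q`; `q ≠ d` would give `c_n (q_n) = q → a = p` (`conv_seq`), contradiction; so `d = q`.
Then `AR c_n⁻¹`-type information: take a third point: `x_n = g^(-n) x` with `x` on the circle, `x ≠ p, q`: `x_n → q`.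
`c_n x_n = g^(-n) (act c x) → q` if `act c x ≠ p` (true).  Use instead the derivative at the common fixed point `p`:
`dact c_n p = dact c p` for all `n` (chain rule, all maps fix `p`: `dact_mul`, commutative).  But
`‖dact h p‖ = (1 - ‖b h‖²)/‖1 - conj (b h) p‖²` (`mobD_norm`), and `1 - conj b p = 1 - conj (b) p`; `b (c_n) → d`, `‖b (c_n)‖ → 1`.
If `d ≠ p`: `‖1 - conj b p‖ → ‖1 - conj d p‖ > 0`, so `dact c_n p → 0`, contradiction.
(ii) If `d = p`: apply the same to the inverses: `b (c_n⁻¹) → a`; `dact c_n⁻¹ p` is constant, so if `a ≠ p` contradiction again.  So `a = d = p`.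
Then `q_n = c_n⁻¹ q → d = p` as `q ≠ a`; but `q_n → q`, contradiction.
Step 2: by symmetry (use `g⁻¹`) fixing `q` is the same as fixing `p`.
Step 3: the subgroup `S = {c | act c p = p}` acts by `lam c = dact c p`, a positive real number `< 1` iff attracting; `S → ℝ_{>0}`, `c ↦ ‖dact c p‖` is
a homomorphism, injective (if `‖dact c p‖ = 1` and `c ≠ 1` then `c` is hyperbolic with fixed points `p, q`; its derivative at the attracting point has norm `< 1`:
`1 - ‖act c x‖² = ‖dact c x‖ (1 - ‖x‖²)`... simplest: in the coordinate `y = (x-q)/(x-p)` of FC, `c` is the multiplication by a real `lam ≠ 1` and `dact c p = lam⁻¹`).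
The image is a discrete subgroup of `ℝ_{>0}` (finitely many `c` with `‖dact c p‖` in a compact interval: `y`-coordinate `lam` bounded means `act c 0` stays in a
compact part of the disc, `Fuchs.fin`), hence cyclic: take `κ` with the largest value `‖dact κ p‖ < 1` (exists: `g` or a power has such a value; finiteness)
and use the Archimedean property: for `c ∈ S` choose `n : ℤ` with `‖dact κ p‖ < ‖dact (c κ^n) p‖ ≤ 1`; then `c κ^n = 1`.
-/

namespace TN
open Metric Set Filter Topology DS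

variable {Γ : Type} [Group Γ] {F : Fuchs Γ}

/-- `‖1 - conj b p‖ = ‖p - b‖` on the circle -/
theorem FD_den {b p : ℂ} (hp : ‖p‖ = 1) : ‖1 - (starRingEnd ℂ) b * p‖ = ‖p - b‖ := by
  have h1 : (starRingEnd ℂ) p * p = 1 := by
    rw [mul_comm, Complex.mul_conj, Complex.normSq_eq_norm_sq, hp]
    norm_num
  have h2 : 1 - (starRingEnd ℂ) b * p = (starRingEnd ℂ) (p - b) * p := by
    rw [map_sub, sub_mul, h1]
  rw [h2, norm_mul, hp, mul_one, RCLike.norm_conj]

theorem FD_pos {h : Γ} {p : ℂ} (hp : ‖p‖ ≤ 1) : 0 < ‖1 - (starRingEnd ℂ) (F.b h) * p‖ :=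
  norm_pos_iff.2 (den_ne (F.hb h) hp)

theorem FD_dact (h : Γ) (p : ℂ) :
    ‖F.dact h p‖ = (1 - ‖F.b h‖ ^ 2) / ‖1 - (starRingEnd ℂ) (F.b h) * p‖ ^ 2 :=
  mobD_norm (F.hu h) (F.hb h)

theorem FD_prod {h : Γ} {p q : ℂ} (np : ‖p‖ = 1) (nq : ‖q‖ = 1) (ne : p ≠ q)
    (fp : F.act h p = p) (fq : F.act h q = q) :
    1 - ‖F.b h‖ ^ 2 =
      ‖1 - (starRingEnd ℂ) (F.b h) * p‖ * ‖1 - (starRingEnd ℂ) (F.b h) * q‖ := by
  have e3 := act_dist F h np.le nq.le
  rw [fp, fq] at e3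
  have hP := FD_pos (F := F) (h := h) np.le
  have hQ := FD_pos (F := F) (h := h) nq.le
  have hd : 0 < dist p q := dist_pos.2 ne
  rw [eq_div_iff (mul_pos hP hQ).ne'] at e3
  have : dist p q * (‖1 - (starRingEnd ℂ) (F.b h) * p‖ * ‖1 - (starRingEnd ℂ) (F.b h) * q‖) =
      dist p q * (1 - ‖F.b h‖ ^ 2) := by rw [e3]; ring
  exact (mul_left_cancel₀ hd.ne' this).symm

/-- the ratio of the distances to the fixed points is multiplied by the derivative -/
theorem FD_R {h : Γ} {p q x : ℂ} (np : ‖p‖ = 1) (nq : ‖q‖ = 1) (ne : p ≠ q)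
    (fp : F.act h p = p) (fq : F.act h q = q) (hx : ‖x‖ ≤ 1) :
    dist (F.act h x) p * dist x q = ‖F.dact h p‖ * dist x p * dist (F.act h x) q := by
  have e0 := FD_prod (F := F) np nq ne fp fq
  have e1 := act_dist F h hx np.le
  have e2 := act_dist F h hx nq.le
  rw [fp] at e1
  rw [fq] at e2
  have hP := FD_pos (F := F) (h := h) np.le
  have hQ := FD_pos (F := F) (h := h) nq.le
  have hu := FD_pos (F := F) (h := h) hx
  rw [e1, e2, FD_dact, e0]
  field_simp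

theorem FD_mul_one {h : Γ} {p q : ℂ} (np : ‖p‖ = 1) (nq : ‖q‖ = 1) (ne : p ≠ q)
    (fp : F.act h p = p) (fq : F.act h q = q) : ‖F.dact h p‖ * ‖F.dact h q‖ = 1 := by
  have e0 := FD_prod (F := F) np nq ne fp fq
  have hP := FD_pos (F := F) (h := h) np.le
  have hQ := FD_pos (F := F) (h := h) nq.le
  rw [FD_dact, FD_dact, e0]
  field_simp

/-- the stabiliser of a point -/
def FD_st (F : Fuchs Γ) (p : ℂ) (hp : ‖p‖ ≤ 1) : Subgroup Γ where
  carrier := {c | F.act c p = p}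
  mul_mem' := by
    intro a b (ha : F.act a p = p) (hb : F.act b p = p)
    show F.act (a * b) p = p
    rw [act_mul F a b hp, hb, ha]
  one_mem' := act_one F hp
  inv_mem' := by
    intro a (ha : F.act a p = p)
    show F.act a⁻¹ p = p
    have := act_inv_act F a hp
    rwa [ha] at this

theorem FD_mem {p : ℂ} (hp : ‖p‖ ≤ 1) {c : Γ} : c ∈ FD_st F p hp ↔ F.act c p = p := Iff.rfl

/-- the multiplier homomorphism -/
noncomputable def FD_L (F : Fuchs Γ) (p : ℂ) (hp : ‖p‖ ≤ 1) : FD_st F p hp →* ℝ where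
  toFun c := ‖F.dact c p‖
  map_one' := by
    show ‖F.dact 1 p‖ = 1
    rw [dact_one F hp, norm_one]
  map_mul' := by
    intro a b
    show ‖F.dact (a.1 * b.1) p‖ = ‖F.dact a.1 p‖ * ‖F.dact b.1 p‖
    rw [dact_mul F a.1 b.1 hp, (FD_mem hp).1 b.2, norm_mul]

theorem FD_L_pos {p : ℂ} (hp : ‖p‖ ≤ 1) (c : FD_st F p hp) : 0 < FD_L F p hp c :=
  norm_pos_iff.2 (dact_ne F c.1 hp)

/-- the multiplier at the attracting fixed point is less than one -/
theorem FD_lt {h : Γ} {p q : ℂ} (H : F.AR h p q) : ‖F.dact h p‖ < 1 := by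
  by_contra hge
  push Not at hge
  have hp : ‖p‖ ≤ 1 := H.np.le
  have hq : ‖q‖ ≤ 1 := H.nq.le
  set c : FD_st F p hp := ⟨h, H.fp⟩ with hc
  set c' : FD_st F q hq := ⟨h, H.fq⟩ with hc'
  have h1 : ∀ n : ℕ, dist (F.act (h ^ n) 0) q ≤ dist (F.act (h ^ n) 0) p := by
    intro n
    have fp : F.act (h ^ n) p = p := (c ^ n).2
    have fq : F.act (h ^ n) q = q := (c' ^ n).2
    have e := FD_R (F := F) H.np H.nq H.ne fp fq (x := 0) (by simp)
    rw [dist_zero_left, dist_zero_left, H.np, H.nq, mul_one, mul_one] at e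
    have e2 : ‖F.dact (h ^ n) p‖ = ‖F.dact h p‖ ^ n := by
      have := map_pow (FD_L F p hp) c n
      exact this
    rw [e, e2]
    exact le_mul_of_one_le_left dist_nonneg (one_le_pow₀ hge)
  have h0 := H.att 0 (by simp) (by
    intro h
    have := H.nq
    rw [← h] at this
    simp at this)
  have h2 : Tendsto (fun n : ℕ => dist (F.act (h ^ n) 0) q) atTop (𝓝 (dist p q)) :=
    h0.dist tendsto_const_nhds
  have h3 : Tendsto (fun n : ℕ => dist (F.act (h ^ n) 0) p) atTop (𝓝 (dist p p)) :=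
    h0.dist tendsto_const_nhds
  have h4 := le_of_tendsto_of_tendsto' h2 h3 h1
  rw [dist_self] at h4
  exact absurd (dist_pos.2 H.ne) (not_lt.2 h4)

/-- an element fixing `p` with multiplier one is trivial -/
theorem FD_one {p : ℂ} (hp : ‖p‖ ≤ 1) (c : FD_st F p hp) (h : FD_L F p hp c = 1) : c.1 = 1 := by
  by_contra hne
  obtain ⟨p', q', H⟩ := exists_AR F hne
  rcases AR.fixed H hp c.2 with e | e
  · subst e
    have := FD_lt H
    exact absurd h this.ne
  · subst e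
    have h1 := FD_lt (AR.inv H)
    have h2 : FD_L F p hp c⁻¹ = 1 := by
      rw [map_inv, h, inv_one]
    exact absurd h2 h1.ne

theorem FD_fix {g : Γ} {p q : ℂ} (h : F.AR g p q) {c : Γ} (hc : F.act c p = p) :
    F.act c q = q := by
  have hp : ‖p‖ ≤ 1 := h.np.le
  set a : FD_st F p hp := ⟨c, hc⟩ with ha
  set b : FD_st F p hp := ⟨g, h.fp⟩ with hb
  have h1 : FD_L F p hp (a * b * a⁻¹ * b⁻¹) = 1 := by
    rw [map_mul, map_mul, map_mul, map_inv, map_inv]
    have h2 := FD_L_pos hp a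
    have h3 := FD_L_pos hp b
    field_simp
  have h2 : c * g * c⁻¹ * g⁻¹ = 1 := FD_one hp _ h1
  have h3 : c * g * c⁻¹ = g := by rwa [mul_inv_eq_one] at h2
  have h4 := AR.conj h c
  rw [h3] at h4
  exact (AR.unique h4 h).2

theorem AR.fix_iff {g : Γ} {p q : ℂ} (h : F.AR g p q) (c : Γ) : F.act c p = p ↔ F.act c q = q :=
  ⟨fun hc => FD_fix h hc, fun hc => FD_fix (AR.inv h) hc⟩

/-- discreteness of the multipliers -/
theorem FD_finite {p q : ℂ} (np : ‖p‖ = 1) (nq : ‖q‖ = 1) (ne : p ≠ q) {m : ℝ} (hm : 0 < m) :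
    {c | F.act c p = p ∧ F.act c q = q ∧ m ≤ ‖F.dact c p‖ ∧ ‖F.dact c p‖ ≤ 1}.Finite := by
  have hd : 0 < dist p q := dist_pos.2 ne
  refine (F.fin (1 - m * dist p q ^ 2 / 8) ?_).subset ?_
  · have : 0 < m * dist p q ^ 2 / 8 := by positivity
    linarith
  rintro c ⟨fp, fq, h1, h2⟩
  have hP := FD_pos (F := F) (h := c) np.le
  have hQ := FD_pos (F := F) (h := c) nq.le
  have e0 := FD_prod (F := F) np nq ne fp fq
  have e1 := FD_dact (F := F) c p
  have e2 : ‖F.dact c p‖ * ‖1 - (starRingEnd ℂ) (F.b c) * p‖ =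
      ‖1 - (starRingEnd ℂ) (F.b c) * q‖ := by
    rw [e1, e0]; field_simp
  have e3 : 1 - ‖F.b c‖ ^ 2 = ‖F.dact c p‖ * ‖1 - (starRingEnd ℂ) (F.b c) * p‖ ^ 2 := by
    rw [e0, ← e2]; ring
  have htri : dist p q ≤ ‖1 - (starRingEnd ℂ) (F.b c) * p‖ * (1 + ‖F.dact c p‖) := by
    have : ‖1 - (starRingEnd ℂ) (F.b c) * p‖ * (1 + ‖F.dact c p‖) =
        ‖1 - (starRingEnd ℂ) (F.b c) * p‖ + ‖1 - (starRingEnd ℂ) (F.b c) * q‖ := by
      rw [← e2]; ring
    rw [this, FD_den np, FD_den nq, ← dist_eq_norm, ← dist_eq_norm]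
    exact dist_triangle_right p q (F.b c)
  have h3 : dist p q ≤ ‖1 - (starRingEnd ℂ) (F.b c) * p‖ * 2 :=
    htri.trans (mul_le_mul_of_nonneg_left (by linarith) hP.le)
  have h4 : dist p q ^ 2 ≤ (‖1 - (starRingEnd ℂ) (F.b c) * p‖ * 2) ^ 2 :=
    pow_le_pow_left₀ hd.le h3 2
  have h5 : m * dist p q ^ 2 ≤ 4 * (1 - ‖F.b c‖ ^ 2) := by
    rw [e3]
    calc m * dist p q ^ 2 ≤ ‖F.dact c p‖ * (‖1 - (starRingEnd ℂ) (F.b c) * p‖ * 2) ^ 2 :=
          mul_le_mul h1 h4 (by positivity) (norm_nonneg _)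
      _ = _ := by ring
  have h6 := F.hb c
  have h7 := norm_nonneg (F.b c)
  show ‖F.b c‖ ≤ 1 - m * dist p q ^ 2 / 8
  nlinarith

theorem AR.stab {g : Γ} {p q : ℂ} (h : F.AR g p q) :
    ∃ κ, F.AR κ p q ∧ ∀ c, F.act c p = p ↔ c ∈ Subgroup.zpowers κ := by
  have hp : ‖p‖ ≤ 1 := h.np.le
  have hg1 : ‖F.dact g p‖ < 1 := FD_lt h
  have hg0 : 0 < ‖F.dact g p‖ := norm_pos_iff.2 (dact_ne F g hp)
  set A : Set Γ := {c | F.act c p = p ∧ ‖F.dact g p‖ ≤ ‖F.dact c p‖ ∧ ‖F.dact c p‖ < 1} with hA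
  have hAf : A.Finite := by
    refine (FD_finite (F := F) h.np h.nq h.ne hg0).subset ?_
    rintro c ⟨h1, h2, h3⟩
    exact ⟨h1, FD_fix h h1, h2, h3.le⟩
  have hAn : A.Nonempty := ⟨g, h.fp, le_rfl, hg1⟩
  obtain ⟨κ, hκ, hmax⟩ := Set.exists_max_image A (fun c => ‖F.dact c p‖) hAf hAn
  have hκp : F.act κ p = p := hκ.1
  have hκ1 : ‖F.dact κ p‖ < 1 := hκ.2.2
  have hκ0 : 0 < ‖F.dact κ p‖ := norm_pos_iff.2 (dact_ne F κ hp)
  have hbig : ∀ c, F.act c p = p → ‖F.dact c p‖ < 1 → ‖F.dact c p‖ ≤ ‖F.dact κ p‖ := by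
    intro c hc h1
    rcases le_total ‖F.dact g p‖ ‖F.dact c p‖ with h2 | h2
    · exact hmax c ⟨hc, h2, h1⟩
    · exact h2.trans hκ.2.1
  refine ⟨κ, ?_, fun c => ⟨fun hc => ?_, fun hc => ?_⟩⟩
  · -- `κ` attracts to `p`
    have hne : κ ≠ 1 := by
      intro e
      rw [e, dact_one F hp, norm_one] at hκ1
      exact lt_irrefl _ hκ1
    obtain ⟨p', q', H⟩ := exists_AR F hne
    have hκq : F.act κ q = q := FD_fix h hκp
    rcases AR.fixed H hp hκp with e | e
    · rcases AR.fixed H h.nq.le hκq with e' | e'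
      · exact absurd (e.trans e'.symm) h.ne
      · rw [e, e']; exact H
    · rcases AR.fixed H h.nq.le hκq with e' | e'
      · exfalso
        rw [← e, ← e'] at H
        have h1 := FD_lt H
        have h2 := FD_mul_one (F := F) h.np h.nq h.ne hκp hκq
        have h3 : ‖F.dact κ p‖ * ‖F.dact κ q‖ < 1 := by
          calc ‖F.dact κ p‖ * ‖F.dact κ q‖ ≤ ‖F.dact κ p‖ * 1 :=
                mul_le_mul_of_nonneg_left h1.le hκ0.le
            _ < 1 := by rw [mul_one]; exact hκ1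
        exact absurd h2 h3.ne
      · exact absurd (e.trans e'.symm) h.ne
  · -- elements fixing `p` are powers of `κ`
    set a : FD_st F p hp := ⟨c, hc⟩ with ha
    set k : FD_st F p hp := ⟨κ, hκp⟩ with hk
    have hLk : FD_L F p hp k = ‖F.dact κ p‖ := rfl
    have hy : 1 < (FD_L F p hp k)⁻¹ := by
      rw [hLk]
      exact (one_lt_inv₀ hκ0).2 hκ1
    obtain ⟨n, hn1, hn2⟩ := exists_mem_Ico_zpow (FD_L_pos hp a) hy
    -- the element `a * k ^ n` has multiplier in `[1, 1 / L k)`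
    have hkp : 0 < FD_L F p hp k := FD_L_pos hp k
    have e1 : FD_L F p hp (a * k ^ n)⁻¹ = (FD_L F p hp a)⁻¹ * ((FD_L F p hp k)⁻¹) ^ n := by
      rw [map_inv, map_mul, map_zpow, mul_inv, inv_zpow]
    have hap := FD_L_pos hp a
    have h1 : FD_L F p hp (a * k ^ n)⁻¹ ≤ 1 := by
      rw [e1, inv_mul_le_iff₀ hap, mul_one]
      exact hn1
    have h2 : FD_L F p hp k < FD_L F p hp (a * k ^ n)⁻¹ := by
      rw [e1, lt_inv_mul_iff₀ hap]
      have h3 : (FD_L F p hp k)⁻¹ ^ (n + 1) = (FD_L F p hp k)⁻¹ ^ n * (FD_L F p hp k)⁻¹ := by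
        rw [zpow_add₀ (inv_pos.2 hkp).ne', zpow_one]
      rw [h3] at hn2
      calc FD_L F p hp a * FD_L F p hp k
          < (FD_L F p hp k)⁻¹ ^ n * (FD_L F p hp k)⁻¹ * FD_L F p hp k :=
            mul_lt_mul_of_pos_right hn2 hkp
        _ = (FD_L F p hp k)⁻¹ ^ n := by rw [mul_assoc, inv_mul_cancel₀ hkp.ne', mul_one]
    have h3 : FD_L F p hp (a * k ^ n)⁻¹ = 1 := by
      by_contra hne
      have h4 : FD_L F p hp (a * k ^ n)⁻¹ < 1 := lt_of_le_of_ne h1 hne
      have h5 := hbig ((a * k ^ n)⁻¹).1 ((a * k ^ n)⁻¹).2 h4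
      exact absurd h5 (not_le.2 h2)
    have h4 := FD_one hp _ h3
    have h5 : c * κ ^ n = 1 := by
      have h6 : (c * κ ^ n)⁻¹ = 1 := h4
      exact inv_eq_one.1 h6
    rw [Subgroup.mem_zpowers_iff]
    refine ⟨-n, ?_⟩
    rw [zpow_neg]
    exact (eq_inv_of_mul_eq_one_left h5).symm
  · -- powers of `κ` fix `p`
    have : Subgroup.zpowers κ ≤ FD_st F p hp := by
      rw [Subgroup.zpowers_le]
      exact hκp
    exact this hc

end TN

end S_H12_TN_FD

section S_H12_TN_FE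

/-!
FE (trichotomy for discrete groups).  If not all elements are `1` take `g ≠ 1` and `AR g p q`.
If every `c` fixes `p`: `AR.stab` gives the second alternative.  Otherwise let `act c p ≠ p` and `h = c g c⁻¹`, whose
fixed points are exactly `act c p`, `act c q` (`AR.conj`, `AR.fixed`).
* `act c q = q` is impossible (`AR.fix_iff` for `g`: then `act c p = p`).
* if `act c p = q` and `act c q = p`: let `AR c a b`; then `AR (c^2) a b` (`AR.pow`) and `c^2` fixes `p`, so `p ∈ {a, b}`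
  (`AR.fixed`) is fixed by `c`: contradiction.
* if `act c p = q` and `act c q ≠ p`: `h` fixes `q`, so by `AR.fix_iff` (for `g`) `h` fixes `p`, so `p ∈ {act c p, act c q}`:
  contradiction.
* if `act c p ≠ q` and `act c q = p`: `h` fixes `p`, hence `q`, so `q ∈ {act c p, act c q}`, so `act c q = q`: contradiction.
* otherwise `{act c p, act c q}` and `{p, q}` are disjoint: `Nonel` with `g`, `h`.

`nonel_sub`: fixed points: for the subgroup generated inside; it is only used for `F.sub Z`: `elem (F.sub Z)`.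
`AR_sub`: `AR` for `F.sub Z` and for `F` are the same thing (`act` and powers agree).
-/

namespace TN
open Metric Set Filter Topology DS

variable {Γ : Type} [Group Γ]

theorem elem (F : Fuchs Γ) : (∀ g : Γ, g = 1) ∨
    (∃ κ p q, F.AR κ p q ∧ ∀ c, c ∈ Subgroup.zpowers κ) ∨ F.Nonel := by
  by_cases h1 : ∀ g : Γ, g = 1
  · exact Or.inl h1
  right
  push Not at h1
  obtain ⟨g, hg⟩ := h1
  obtain ⟨p, q, h⟩ := exists_AR F hg
  by_cases hall : ∀ c, F.act c p = p
  · left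
    obtain ⟨κ, hκ, hκ'⟩ := AR.stab h
    exact ⟨κ, p, q, hκ, fun c => (hκ' c).1 (hall c)⟩
  right
  push Not at hall
  obtain ⟨c, hc⟩ := hall
  have hh := AR.conj h c
  have hcq : F.act c q ≠ q := fun e => hc ((AR.fix_iff h c).2 e)
  by_cases hpq : F.act c p = q
  · exfalso
    by_cases hqp : F.act c q = p
    · have hc1 : c ≠ 1 := by
        rintro rfl
        exact hc (act_one F h.np.le)
      obtain ⟨a, b, hab⟩ := exists_AR F hc1
      have hab2 := AR.pow hab (n := 2) (by norm_num)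
      have hfix : F.act (c ^ 2) p = p := by
        rw [pow_two, act_mul F _ _ h.np.le, hpq, hqp]
      rcases AR.fixed hab2 h.np.le hfix with e | e
      · exact hc (by rw [e]; exact hab.fp)
      · exact hc (by rw [e]; exact hab.fq)
    · have hfq : F.act (c * g * c⁻¹) q = q := by
        have := hh.fp
        rwa [hpq] at this
      have hfp := (AR.fix_iff h _).2 hfq
      rcases AR.fixed hh h.np.le hfp with e | e
      · exact hc e.symm
      · exact hqp e.symm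
  · by_cases hqp : F.act c q = p
    · exfalso
      have hfp : F.act (c * g * c⁻¹) p = p := by
        have := hh.fq
        rwa [hqp] at this
      have hfq := (AR.fix_iff h _).1 hfp
      rcases AR.fixed hh h.nq.le hfq with e | e
      · exact hpq e.symm
      · exact hcq e.symm
    · refine ⟨g, c * g * c⁻¹, hg, AR.ne_one hh, fun x hx hgx hhx => ?_⟩
      rcases AR.fixed h hx.le hgx with e | e <;> rcases AR.fixed hh hx.le hhx with e' | e'
      · exact hc (e' ▸ e)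
      · exact hqp (e' ▸ e)
      · exact hpq (e' ▸ e)
      · exact hcq (e' ▸ e)

theorem AR_sub (F : Fuchs Γ) (Z : Subgroup Γ) (z : Z) (p q : ℂ) :
    (F.sub Z).AR z p q ↔ F.AR (z : Γ) p q := by
  constructor
  · intro h
    refine ⟨h.np, h.nq, h.ne, h.fp, h.fq, fun x hx hxq => ?_⟩
    have := h.att x hx hxq
    simpa only [sub_act, Subgroup.coe_pow] using this
  · intro h
    refine ⟨h.np, h.nq, h.ne, h.fp, h.fq, fun x hx hxq => ?_⟩
    have := h.att x hx hxq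
    simpa only [sub_act, Subgroup.coe_pow] using this

/-- the group version: for a subgroup `Z` -/
theorem elem_sub (F : Fuchs Γ) (Z : Subgroup Γ) : Z = ⊥ ∨
    (∃ κ p q, F.AR κ p q ∧ Z = Subgroup.zpowers κ) ∨ (F.sub Z).Nonel := by
  rcases elem (F.sub Z) with h | ⟨κ, p, q, h, hz⟩ | h
  · left
    rw [Subgroup.eq_bot_iff_forall]
    intro x hx
    have := h ⟨x, hx⟩
    exact congrArg Subtype.val this
  · right; left
    refine ⟨κ, p, q, (AR_sub F Z κ p q).1 h, ?_⟩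
    ext x
    constructor
    · intro hx
      obtain ⟨n, hn⟩ := Subgroup.mem_zpowers_iff.1 (hz ⟨x, hx⟩)
      refine Subgroup.mem_zpowers_iff.2 ⟨n, ?_⟩
      have := congrArg Subtype.val hn
      simpa using this
    · intro hx
      obtain ⟨n, rfl⟩ := Subgroup.mem_zpowers_iff.1 hx
      exact Z.zpow_mem κ.2 n
  · exact Or.inr (Or.inr h)

end TN

end S_H12_TN_FE

section S_H12_TN_FF

/-!
FF (limit sets of nonelementary groups).  Let `g₁, g₂` be as in `Nonel`, `AR g_i p_i q_i`; the four points are distinct.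
`near`: let `ξ ∈ lim`, so there is a sequence `a n` of group elements with `act (a n) 0 → ξ`; since `‖ξ‖ = 1` and
`‖act (a n) 0‖ < 1`, each value is taken finitely often.  `conv` gives a subsequence with `act (a (φ n)) x → ξ` uniformly off a
neighbourhood of a point `d`.  One of the two elements, call it `h` with `AR h p q`, has `p ≠ d` and `q ≠ d`.  Then
`act (a (φ n)) p → ξ`, `act (a (φ n)) q → ξ` (`conv_seq` with constant sequences), and `AR (a h a⁻¹) (act a p) (act a q)` (`AR.conj`).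
`perfect`: one of the two points `p'`, `q'` of `near` is different from `ξ`.
`lim_infinite`: nonempty (`AR.lim`), and perfect.
`id_on_lim`: `e.H` fixes the attracting fixed point of every `z` with `e.θ z = z` (`AR.norm`, `AR.unique`); the fixed
point set of `e.H` in the closed ball is closed; density by `near` applied to `F.sub Z`.
`dense_orbit`: with `near`.
-/

namespace TN
open Metric Set Filter Topology DS

variable {Γ : Type} [Group Γ]

theorem near (F : Fuchs Γ) (hN : F.Nonel) {ξ : ℂ} (hξ : ξ ∈ F.lim) {ε : ℝ} (hε : 0 < ε) :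
    ∃ g p q, F.AR g p q ∧ dist p ξ < ε ∧ dist q ξ < ε := by
  obtain ⟨g₁, g₂, hg₁, hg₂, hno⟩ := hN
  obtain ⟨p₁, q₁, h₁⟩ := exists_AR F hg₁
  obtain ⟨p₂, q₂, h₂⟩ := exists_AR F hg₂
  -- a sequence of orbit points
  obtain ⟨x, hx, hlim⟩ := mem_closure_iff_seq_limit.1 hξ.2
  choose a ha using hx
  have hfin : ∀ g, {n | a n = g}.Finite := by
    intro g
    have hev : ∀ᶠ n in atTop, ¬ (a n = g) := by
      have h1 : ‖F.act g 0‖ < ‖ξ‖ := by
        rw [hξ.1]
        exact act_lt F g (by simp)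
      filter_upwards [hlim.norm.eventually (lt_mem_nhds h1)] with n hn he
      rw [← ha n, he] at hn
      exact lt_irrefl _ hn
    rw [← Nat.cofinite_eq_atTop] at hev
    simpa [Filter.eventually_cofinite] using hev
  obtain ⟨φ, hφ, c, hc, d, hd, hc0, -, hcv, -⟩ := conv F hfin
  have hcξ : c = ξ := by
    refine tendsto_nhds_unique hc0 ?_
    have h1 := hlim.comp hφ.tendsto_atTop
    refine h1.congr fun n => ?_
    exact (ha (φ n)).symm
  subst hcξ
  obtain ⟨h, p, q, hAR, hpd, hqd⟩ : ∃ h p q, F.AR h p q ∧ p ≠ d ∧ q ≠ d := by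
    by_cases hd₁ : p₁ ≠ d ∧ q₁ ≠ d
    · exact ⟨g₁, p₁, q₁, h₁, hd₁.1, hd₁.2⟩
    · refine ⟨g₂, p₂, q₂, h₂, ?_⟩
      have hd1 := lim_sphere F hd
      have hf1 : F.act g₁ d = d := by
        by_cases hp : p₁ = d
        · rw [← hp]; exact h₁.fp
        · have hq : q₁ = d := by
            by_contra hq
            exact hd₁ ⟨hp, hq⟩
          rw [← hq]; exact h₁.fq
      have hf2 := hno d hd1 hf1
      exact ⟨fun hp => hf2 (by rw [← hp]; exact h₂.fp), fun hq => hf2 (by rw [← hq]; exact h₂.fq)⟩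
  have hTp := conv_seq F (g := fun n => a (φ n)) hcv (y := fun _ => p)
    (fun _ => mem_closedBall_zero_iff.2 hAR.np.le) tendsto_const_nhds hpd
  have hTq := conv_seq F (g := fun n => a (φ n)) hcv (y := fun _ => q)
    (fun _ => mem_closedBall_zero_iff.2 hAR.nq.le) tendsto_const_nhds hqd
  obtain ⟨n, hn1, hn2⟩ := ((hTp.eventually (ball_mem_nhds _ hε)).and
    (hTq.eventually (ball_mem_nhds _ hε))).exists
  exact ⟨_, _, _, AR.conj hAR (a (φ n)), hn1, hn2⟩

theorem perfect (F : Fuchs Γ) (hN : F.Nonel) {ξ : ℂ} (hξ : ξ ∈ F.lim) {ε : ℝ} (hε : 0 < ε) :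
    ∃ η ∈ F.lim, η ≠ ξ ∧ dist η ξ < ε := by
  obtain ⟨g, p, q, h, hp, hq⟩ := near F hN hξ hε
  by_cases hpξ : p = ξ
  · exact ⟨q, (AR.lim h).2, fun hqξ => h.ne (hpξ.trans hqξ.symm), hq⟩
  · exact ⟨p, (AR.lim h).1, hpξ, hp⟩

theorem lim_infinite (F : Fuchs Γ) (hN : F.Nonel) : F.lim.Infinite := by
  intro hfin
  obtain ⟨p, hp⟩ : F.lim.Nonempty := by
    obtain ⟨g, -, hg, -, -⟩ := hN
    obtain ⟨p, q, h⟩ := exists_AR F hg
    exact ⟨p, (AR.lim h).1⟩
  have h1 : (F.lim \ {p}).Finite := hfin.sdiff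
  have h2 : (F.lim \ {p})ᶜ ∈ 𝓝 p := h1.isClosed.isOpen_compl.mem_nhds (fun h => h.2 rfl)
  obtain ⟨ε, hε, hball⟩ := Metric.mem_nhds_iff.1 h2
  obtain ⟨η, hη, hne, hd⟩ := perfect F hN hp hε
  exact hball (mem_ball.2 hd) ⟨hη, hne⟩

theorem id_on_lim (F : Fuchs Γ) {e : Elt Γ} (he : Norm F e) (hN : (F.sub e.cen).Nonel) :
    ∀ ξ ∈ (F.sub e.cen).lim, e.H ξ = ξ := by
  intro ξ hξ
  have key : ∀ n : ℕ, ∃ p : ℂ, ‖p‖ = 1 ∧ e.H p = p ∧ dist p ξ < 1 / ((n : ℝ) + 1) := by
    intro n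
    obtain ⟨z, p, q, h, hp, -⟩ := near (F.sub e.cen) hN hξ (ε := 1 / ((n : ℝ) + 1)) (by positivity)
    have h1 := (AR_sub F e.cen z p q).1 h
    have h2 := AR.norm h1 he
    have hz : e.θ (z : Γ) = z := z.2
    rw [hz] at h2
    exact ⟨p, h1.np, (AR.unique h1 h2).1.symm, hp⟩
  choose p hp1 hpH hpd using key
  have hT : Tendsto p atTop (𝓝 ξ) := by
    rw [tendsto_iff_dist_tendsto_zero]
    exact squeeze_zero (fun n => dist_nonneg) (fun n => (hpd n).le)
      tendsto_one_div_add_atTop_nhds_zero_nat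
  have hξ1 : ξ ∈ closedBall (0 : ℂ) 1 := by
    rw [mem_closedBall_zero_iff]
    exact (lim_sphere _ hξ).le
  have hT2 : Tendsto (fun n => e.H (p n)) atTop (𝓝 (e.H ξ)) := by
    refine (he.cont ξ hξ1).tendsto.comp ?_
    rw [tendsto_nhdsWithin_iff]
    exact ⟨hT, Eventually.of_forall fun n => mem_closedBall_zero_iff.2 (hp1 n).le⟩
  exact tendsto_nhds_unique hT2 (hT.congr fun n => (hpH n).symm)

/-- superattracting fixed points are isolated -/
theorem SA.isolated {H : ℂ → ℂ} {ξ : ℂ} (h : SA H ξ) :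
    ∃ δ > 0, ∀ x ∈ closedBall (0:ℂ) 1, dist x ξ < δ → H x = x → x = ξ := by
  obtain ⟨δ, hδ, h1⟩ := h.2 (1 / 2) (by norm_num)
  refine ⟨δ, hδ, fun x hx hd hf => ?_⟩
  have h2 := h1 x hx hd
  rw [hf] at h2
  have h3 : dist x ξ ≤ 0 := by linarith
  exact dist_le_zero.1 h3

/-- a common fixed point of `H` and its inverse: the types of `e.H` and `e.Hi` -/
theorem SA.isolated_inv (F : Fuchs Γ) {e : Elt Γ} (he : Norm F e) {ξ : ℂ} (h : SA e.Hi ξ) :
    ∃ δ > 0, ∀ x ∈ closedBall (0:ℂ) 1, dist x ξ < δ → e.H x = x → x = ξ := by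
  obtain ⟨δ, hδ, h1⟩ := h.isolated
  refine ⟨δ, hδ, fun x hx hd hf => h1 x hx hd ?_⟩
  have h2 := he.left x hx
  rwa [hf] at h2

/-- a point of the circle is not both superattracting for `e.H` and for the inverse -/
theorem SA.not_both (F : Fuchs Γ) {e : Elt Γ} (he : Norm F e) {ξ : ℂ} (hξ : ‖ξ‖ = 1)
    (h : SA e.H ξ) : ¬ SA e.Hi ξ := by
  intro h'
  obtain ⟨δ, hδ, h1⟩ := h.2 (1 / 2) (by norm_num)
  obtain ⟨δ', hδ', h2⟩ := h'.2 (1 / 2) (by norm_num)
  obtain ⟨t, ht0, ht1, ht2, ht3⟩ : ∃ t : ℝ, 0 < t ∧ t < 1 ∧ t < δ ∧ t < δ' := by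
    refine ⟨min (1 / 2) (min (δ / 2) (δ' / 2)), by positivity, ?_, ?_, ?_⟩
    · exact lt_of_le_of_lt (min_le_left _ _) (by norm_num)
    · exact lt_of_le_of_lt ((min_le_right _ _).trans (min_le_left _ _)) (by linarith)
    · exact lt_of_le_of_lt ((min_le_right _ _).trans (min_le_right _ _)) (by linarith)
  set x : ℂ := ((1 - t : ℝ) : ℂ) * ξ with hx
  have hxn : ‖x‖ = 1 - t := by
    rw [hx, norm_mul, hξ, mul_one, Complex.norm_real, Real.norm_of_nonneg (by linarith)]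
  have hxd : dist x ξ = t := by
    have e1 : x - ξ = -((t : ℂ) * ξ) := by
      rw [hx]
      push_cast
      ring
    rw [dist_eq_norm, e1, norm_neg, norm_mul, hξ, mul_one, Complex.norm_real,
      Real.norm_of_nonneg ht0.le]
  have hxb : x ∈ ball (0 : ℂ) 1 := by rw [mem_ball_zero_iff, hxn]; linarith
  have hxc : x ∈ closedBall (0 : ℂ) 1 := ball_subset_closedBall hxb
  have h3 := h1 x hxc (by rw [hxd]; exact ht2)
  rw [hxd] at h3
  have h4 := h2 (e.H x) (ball_subset_closedBall (he.mapB hxb)) (by linarith)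
  rw [he.left x hxc, hxd] at h4
  linarith

end TN

end S_H12_TN_FF
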