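import Pool.Agent.H12.KS.K02
import Pool.Agent.H12.KS.K11

/-! Joined modules of the proof of MP_8a27c0_an (one section per module). -/

section S_H12_TN_CP

/-!
CP (strip coordinates, part 2: the element `κ` is the translation by `l`; ends; bi-Lipschitz property; difference quotients).
`om_act`: by `mob_sub` (MB) with the fixed points `p`, `q`: for `x` in the closed disc, `x ≠ p, q`,
`act κ x - q = u (1-|b|²)(x - q)/((1 - conj b x)(1 - conj b q))` and the same with `p`, so `eta (act κ x) = lam * eta x`,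
`lam = (1 - conj b p)/(1 - conj b q) ≠ 0` independent of `x` (`act κ x ≠ p, q` by injectivity).  For `ω` with `0 < im ω < π`,
`exp ω` and `lam * exp ω` are in the upper half plane (take `x = omi ω`): for all directions, so `lam` is a positive real number
(apply it to `ω = i t`, `t → 0` and `t → π`: `im (lam e^{it}) ≥ 0`, i.e. `im lam ≥ 0` and `- im lam ≥ 0`, `re lam > 0` from `t = π/2`).
By attraction (`AR.att`) `act (κ^n) x → p`, i.e. `‖eta (act (κ^n) x)‖ = lam^n ‖eta x‖ → ∞` (`p - act (κ^n) x → 0` while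
`act (κ^n) x - q → p - q ≠ 0`), so `lam > 1`; `l = log lam`; `log (lam * E) = log lam + log E` for real `lam > 0`
(`Complex.log_ofReal_mul`).
`om_act_zpow`: `hl` at `x = 0` identifies `l`; induction for `ℕ`, then negative powers by injectivity.
`omi_p`, `omi_q`: `p - omi ω = I c (p - q)/(E + I c)`, `‖E‖ = exp (re ω) → ∞`; `omi ω - q = E (p - q)/(E + I c)`,
`‖E + I c‖ ≥ re c > 0`.
`om_bilip`: `omi` has at `ω₀ = om x` the nonzero derivative `d` (`omi_hasDerivAt`), so `‖omi ω - omi ω₀ - d (ω - ω₀)‖ ≤ ‖d‖/2 ‖ω - ω₀‖`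
near `ω₀`; put `ω = om y`, `om` is continuous at `x` within `Dpq` (`om_cont`), `omi_om`.
`logq`: for `A ≠ B` in the open upper half plane `(log A - log B)/(A - B) = ∫_0^1 dt/(B + t (A - B))`
(`intervalIntegral.integral_eq_sub_of_hasDerivAt`), and `im (1/w) < 0` for `im w > 0`: so the imaginary part of the
quotient is negative.  `om_quot`: `(om a - om b)/(a - b) = [(log A - log B)/(A - B)] [(A - B)/(a - b)]` with `A = eta a`, `B = eta b`,
`(A - B)/(a - b) = I c (p - q)/((p - a)(p - b))` (`eta_sub`), and `(p - a)/p = 1 - a/p` has positive real part.  So the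
logarithm `Lq a b = log (first) + log (I c (p - q)/p²) - log ((p-a)/p) - log ((p-b)/p)` is continuous where `a ≠ b`.
`expq`: `(e^v - 1)/v = ∫_0^1 e^{tv} dt`, `re e^{tv} = e^{t re v} cos (t im v) > 0` for `|im v| < π/2`.
-/

namespace TN
open Metric Set Filter Topology DS

variable {Γ : Type} [Group Γ] {F : Fuchs Γ} {p q : ℂ}

theorem CP_ball_Dpq {p q : ℂ} (hp : ‖p‖ = 1) (hq : ‖q‖ = 1) {x : ℂ} (hx : x ∈ ball (0:ℂ) 1) :
    x ∈ Dpq p q := by
  have h : ‖x‖ < 1 := by simpa using hx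
  refine ⟨h.le, ?_, ?_⟩
  · rintro rfl; linarith
  · rintro rfl; linarith

theorem CP_act_mem {κ : Γ} (hκ : F.AR κ p q) {x : ℂ} (hx : x ∈ Dpq p q) :
    F.act κ x ∈ Dpq p q := by
  refine ⟨act_le F κ hx.1, ?_, ?_⟩
  · intro h
    apply hx.2.1
    apply act_inj F κ (by simpa using hx.1) (by simp [hκ.np])
    rw [h, hκ.fp]
  · intro h
    apply hx.2.2
    apply act_inj F κ (by simpa using hx.1) (by simp [hκ.nq])
    rw [h, hκ.fq]

theorem CP_act_inv_mem {κ : Γ} (hκ : F.AR κ p q) {x : ℂ} (hx : x ∈ Dpq p q) :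
    F.act κ⁻¹ x ∈ Dpq p q := by
  refine ⟨act_le F κ⁻¹ hx.1, ?_, ?_⟩
  · intro h
    apply hx.2.1
    rw [← act_act_inv F κ hx.1, h, hκ.fp]
  · intro h
    apply hx.2.2
    rw [← act_act_inv F κ hx.1, h, hκ.fq]

theorem CP_eta_act {κ : Γ} (hκ : F.AR κ p q) {x : ℂ} (hx : x ∈ Dpq p q) :
    eta p q (F.act κ x) = (1 - (starRingEnd ℂ) (F.b κ) * p) / (1 - (starRingEnd ℂ) (F.b κ) * q) *
      eta p q x := by
  have hb := F.hb κ
  have h1 := mob_sub (u := F.u κ) hb hx.1 hκ.nq.le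
  have h2 := mob_sub (u := F.u κ) hb hκ.np.le hx.1
  have e1 : mob (F.u κ) (F.b κ) q = q := hκ.fq
  have e2 : mob (F.u κ) (F.b κ) p = p := hκ.fp
  rw [e1] at h1
  rw [e2] at h2
  have dx := den_ne hb hx.1
  have dp := den_ne hb hκ.np.le
  have dq := den_ne hb hκ.nq.le
  have hu : F.u κ ≠ 0 := by
    intro h
    have := F.hu κ
    rw [h, norm_zero] at this
    exact zero_ne_one this
  have hbb : 1 - (starRingEnd ℂ) (F.b κ) * F.b κ ≠ 0 := den_ne hb hb.le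
  have hpx : p - x ≠ 0 := sub_ne_zero.2 (Ne.symm hx.2.1)
  unfold eta Fuchs.act
  rw [h1, h2]
  field_simp

theorem CP_eta_pos {κ : Γ} (hκ : F.AR κ p q) :
    ∃ lam : ℝ, 1 < lam ∧ ∀ x ∈ Dpq p q, eta p q (F.act κ x) = lam * eta p q x := by
  have hp := hκ.np
  have hq := hκ.nq
  have hpq := hκ.ne
  set L : ℂ := (1 - (starRingEnd ℂ) (F.b κ) * p) / (1 - (starRingEnd ℂ) (F.b κ) * q) with hL
  have key : ∀ t : ℝ, t ∈ Ioo 0 Real.pi → 0 < L.re * Real.sin t + L.im * Real.cos t := by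
    intro t ht
    set ω : ℂ := (t : ℂ) * Complex.I with hω
    have hωim : ω.im = t := by simp [hω]
    have hω1 : 0 < ω.im := by rw [hωim]; exact ht.1
    have hω2 : ω.im < Real.pi := by rw [hωim]; exact ht.2
    have hS : ω ∈ Str := ⟨hω1.le, hω2.le⟩
    have hx := omi_ball hp hq hpq hω1 hω2
    have hxD : omi p q ω ∈ Dpq p q := omi_mem hp hq hpq hS
    have h1 := CP_eta_act hκ hxD
    have h2 : eta p q (omi p q ω) = Complex.exp ω := by
      rw [← exp_om hp hq hpq hxD.2.1 hxD.2.2, om_omi hp hq hpq hS]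
    rw [h2, ← hL] at h1
    have h3 : ‖F.act κ (omi p q ω)‖ < 1 := act_lt F κ hx
    have h4 := eta_im hp hq (F.act κ (omi p q ω))
    rw [h1] at h4
    have h5 : 0 < ‖p - q‖ := norm_pos_iff.2 (sub_ne_zero.2 hpq)
    have h6 : 0 < ‖p - F.act κ (omi p q ω)‖ := by
      refine norm_pos_iff.2 (sub_ne_zero.2 ?_)
      intro h
      rw [← h, hp] at h3
      exact lt_irrefl _ h3
    have h7 : 0 < (L * Complex.exp ω).im := by
      rw [h4]
      have h8 : 0 < 1 - ‖F.act κ (omi p q ω)‖ ^ 2 := by nlinarith [norm_nonneg (F.act κ (omi p q ω))]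
      positivity
    rw [hω, Complex.exp_mul_I, ← Complex.ofReal_cos, ← Complex.ofReal_sin] at h7
    simp only [Complex.mul_im, Complex.add_re, Complex.add_im, Complex.ofReal_re,
      Complex.ofReal_im, Complex.mul_re, Complex.I_re, Complex.I_im] at h7
    linarith
  have hcl : ∀ t ∈ Icc (0:ℝ) Real.pi, 0 ≤ L.re * Real.sin t + L.im * Real.cos t := by
    have hclosed : IsClosed {t : ℝ | 0 ≤ L.re * Real.sin t + L.im * Real.cos t} :=
      isClosed_le continuous_const (by fun_prop)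
    have hsub : Ioo (0:ℝ) Real.pi ⊆ {t : ℝ | 0 ≤ L.re * Real.sin t + L.im * Real.cos t} :=
      fun t ht => (key t ht).le
    have h1 := hclosed.closure_subset_iff.2 hsub
    rw [closure_Ioo Real.pi_pos.ne] at h1
    exact h1
  have him : L.im = 0 := by
    have h1 := hcl 0 ⟨le_rfl, Real.pi_pos.le⟩
    have h2 := hcl Real.pi ⟨Real.pi_pos.le, le_rfl⟩
    simp only [Real.sin_zero, Real.cos_zero, Real.sin_pi, Real.cos_pi] at h1 h2
    linarith
  have hre : 0 < L.re := by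
    have h1 := key (Real.pi / 2) ⟨by linarith [Real.pi_pos], by linarith [Real.pi_pos]⟩
    simp only [Real.sin_pi_div_two, Real.cos_pi_div_two] at h1
    linarith
  have hLr : L = (L.re : ℂ) := by
    apply Complex.ext
    · simp
    · simp [him]
  have hmul : ∀ x ∈ Dpq p q, eta p q (F.act κ x) = (L.re : ℂ) * eta p q x := by
    intro x hx
    rw [← hLr]
    exact CP_eta_act hκ hx
  refine ⟨L.re, ?_, hmul⟩
  by_contra hle
  push Not at hle
  have h0D : (0 : ℂ) ∈ Dpq p q := CP_ball_Dpq hp hq (by simp)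
  have hn : ∀ n : ℕ, F.act (κ ^ n) 0 ∈ Dpq p q ∧
      ‖eta p q (F.act (κ ^ n) 0)‖ ≤ ‖eta p q 0‖ := by
    intro n
    induction n with
    | zero => rw [pow_zero, act_one F (by simp)]; exact ⟨h0D, le_rfl⟩
    | succ n ih =>
      rw [pow_succ', act_mul F _ _ (by simp)]
      refine ⟨CP_act_mem hκ ih.1, ?_⟩
      rw [hmul _ ih.1, norm_mul, Complex.norm_real, Real.norm_eq_abs, abs_of_pos hre]
      calc L.re * ‖eta p q (F.act (κ ^ n) 0)‖ ≤ 1 * ‖eta p q (F.act (κ ^ n) 0)‖ :=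
            mul_le_mul_of_nonneg_right hle (norm_nonneg _)
        _ ≤ ‖eta p q 0‖ := by rw [one_mul]; exact ih.2
  have hc : 0 < ‖1 - p * (starRingEnd ℂ) q‖ := by
    rw [pq_norm hp hq]; exact norm_pos_iff.2 (sub_ne_zero.2 hpq)
  have heta : ∀ y : ℂ, ‖eta p q y‖ = ‖1 - p * (starRingEnd ℂ) q‖ * ‖y - q‖ / ‖p - y‖ := by
    intro y
    unfold eta
    rw [norm_div, norm_mul, norm_mul, Complex.norm_I, one_mul]
  have hle2 : ∀ n : ℕ, ‖F.act (κ ^ n) 0 - q‖ ≤ ‖p - F.act (κ ^ n) 0‖ := by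
    intro n
    obtain ⟨h1, h2⟩ := hn n
    rw [heta, heta, zero_sub, norm_neg, sub_zero, hp, hq, mul_one, div_one] at h2
    have h3 : 0 < ‖p - F.act (κ ^ n) 0‖ := norm_pos_iff.2 (sub_ne_zero.2 (Ne.symm h1.2.1))
    rw [div_le_iff₀ h3] at h2
    exact le_of_mul_le_mul_left h2 hc
  have ht := hκ.att 0 (by simp) (by
    intro h
    rw [← h, norm_zero] at hq
    exact zero_ne_one hq)
  have t1 : Tendsto (fun n : ℕ => ‖F.act (κ ^ n) 0 - q‖) atTop (𝓝 ‖p - q‖) :=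
    (ht.sub_const q).norm
  have t2 : Tendsto (fun n : ℕ => ‖p - F.act (κ ^ n) 0‖) atTop (𝓝 ‖p - p‖) :=
    (ht.const_sub p).norm
  have h5 := le_of_tendsto_of_tendsto t1 t2 (Eventually.of_forall hle2)
  rw [sub_self, norm_zero] at h5
  have h6 : 0 < ‖p - q‖ := norm_pos_iff.2 (sub_ne_zero.2 hpq)
  linarith

theorem om_act {κ : Γ} (hκ : F.AR κ p q) :
    ∃ l : ℝ, 0 < l ∧ ∀ x ∈ Dpq p q, F.act κ x ∈ Dpq p q ∧ om p q (F.act κ x) = om p q x + l := by
  obtain ⟨lam, hlam, h⟩ := CP_eta_pos hκ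
  refine ⟨Real.log lam, Real.log_pos hlam, fun x hx => ⟨CP_act_mem hκ hx, ?_⟩⟩
  unfold om
  rw [h x hx, Complex.log_ofReal_mul (by linarith) (eta_ne hκ.np hκ.nq hκ.ne hx.2.1 hx.2.2)]
  ring

theorem om_act_zpow {κ : Γ} (hκ : F.AR κ p q) {l : ℝ}
    (hl : ∀ x ∈ ball (0:ℂ) 1, om p q (F.act κ x) = om p q x + l) :
    0 < l ∧ ∀ z : ℤ, ∀ x ∈ Dpq p q,
      F.act (κ ^ z) x ∈ Dpq p q ∧ om p q (F.act (κ ^ z) x) = om p q x + z * l := by
  obtain ⟨l', hl', h'⟩ := om_act hκ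
  have h0D : (0 : ℂ) ∈ Dpq p q := CP_ball_Dpq hκ.np hκ.nq (by simp)
  have hll : l' = l := by
    have h1 := (h' 0 h0D).2
    rw [hl 0 (by simp)] at h1
    exact_mod_cast (add_left_cancel h1).symm
  subst hll
  refine ⟨hl', fun z => ?_⟩
  have hinv : ∀ x ∈ Dpq p q, F.act κ⁻¹ x ∈ Dpq p q ∧
      om p q (F.act κ⁻¹ x) = om p q x - l' := by
    intro x hx
    have h1 := CP_act_inv_mem hκ hx
    refine ⟨h1, ?_⟩
    have h2 := (h' _ h1).2
    rw [act_act_inv F κ hx.1] at h2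
    rw [h2]; ring
  induction z using Int.induction_on with
  | zero =>
    intro x hx
    rw [zpow_zero, act_one F hx.1]
    exact ⟨hx, by simp⟩
  | succ i ih =>
    intro x hx
    obtain ⟨h1, h2⟩ := ih x hx
    rw [add_comm, zpow_one_add, act_mul F _ _ hx.1]
    refine ⟨(h' _ h1).1, ?_⟩
    rw [(h' _ h1).2, h2]
    push_cast; ring
  | pred i ih =>
    intro x hx
    obtain ⟨h1, h2⟩ := ih x hx
    have h3 : κ ^ (-(i : ℤ) - 1) = κ⁻¹ * κ ^ (-(i : ℤ)) := by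
      rw [sub_eq_add_neg, add_comm, zpow_add, zpow_neg_one]
    rw [h3, act_mul F _ _ hx.1]
    refine ⟨(hinv _ h1).1, ?_⟩
    rw [(hinv _ h1).2, h2]
    push_cast; ring

theorem CP_c_pos (hp : ‖p‖ = 1) (hq : ‖q‖ = 1) (hpq : p ≠ q) :
    0 < ‖1 - p * (starRingEnd ℂ) q‖ := by
  rw [pq_norm hp hq]; exact norm_pos_iff.2 (sub_ne_zero.2 hpq)

theorem omi_p (hp : ‖p‖ = 1) (hq : ‖q‖ = 1) (hpq : p ≠ q) {ε : ℝ} (hε : 0 < ε) :
    ∃ R : ℝ, ∀ ω ∈ Str, R ≤ ω.re → dist (omi p q ω) p < ε := by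
  set c : ℂ := 1 - p * (starRingEnd ℂ) q with hc
  have hc0 : 0 < ‖c‖ := CP_c_pos hp hq hpq
  have hpq0 : 0 < ‖p - q‖ := norm_pos_iff.2 (sub_ne_zero.2 hpq)
  set M : ℝ := ‖c‖ + ‖c‖ * ‖p - q‖ / ε + 1 with hM
  have hMpos : 0 < M := by positivity
  refine ⟨Real.log M, fun ω hω hR => ?_⟩
  have hden := omi_den hp hq hpq hω
  rw [← hc] at hden
  have hE : M ≤ ‖Complex.exp ω‖ := by
    rw [Complex.norm_exp, ← Real.exp_log hMpos]
    exact Real.exp_le_exp.2 hR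
  have hlow : M - ‖c‖ ≤ ‖Complex.exp ω + Complex.I * c‖ := by
    have h1 := norm_sub_le_norm_add (Complex.exp ω) (Complex.I * c)
    rw [norm_mul, Complex.norm_I, one_mul] at h1
    linarith
  have hpos : 0 < M - ‖c‖ := by rw [hM]; have : 0 ≤ ‖c‖ * ‖p - q‖ / ε := by positivity
                                linarith
  have h2 : p - omi p q ω = Complex.I * c * (p - q) / (Complex.exp ω + Complex.I * c) := by
    unfold omi
    rw [← hc]
    field_simp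
    ring
  rw [dist_comm, dist_eq_norm, h2, norm_div, norm_mul, norm_mul, Complex.norm_I, one_mul,
    div_lt_iff₀ (lt_of_lt_of_le hpos hlow)]
  have h3 : ‖c‖ * ‖p - q‖ < ε * (M - ‖c‖) := by
    have h4 : ε * (M - ‖c‖) = ‖c‖ * ‖p - q‖ + ε := by
      rw [hM]; field_simp; ring
    rw [h4]; linarith
  exact lt_of_lt_of_le h3 (mul_le_mul_of_nonneg_left hlow hε.le)

theorem omi_q (hp : ‖p‖ = 1) (hq : ‖q‖ = 1) (hpq : p ≠ q) {ε : ℝ} (hε : 0 < ε) :
    ∃ R : ℝ, ∀ ω ∈ Str, ω.re ≤ R → dist (omi p q ω) q < ε := by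
  set c : ℂ := 1 - p * (starRingEnd ℂ) q with hc
  have hc0 : 0 < ‖c‖ := CP_c_pos hp hq hpq
  have hpq0 : 0 < ‖p - q‖ := norm_pos_iff.2 (sub_ne_zero.2 hpq)
  set m : ℝ := ε * ‖c‖ / (2 * (‖p - q‖ + ε)) with hm
  have hmpos : 0 < m := by positivity
  have hm1 : m * (2 * (‖p - q‖ + ε)) = ε * ‖c‖ := by
    rw [hm]; field_simp
  refine ⟨Real.log m, fun ω hω hR => ?_⟩
  have hden := omi_den hp hq hpq hω
  rw [← hc] at hden
  have hE : ‖Complex.exp ω‖ ≤ m := by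
    rw [Complex.norm_exp, ← Real.exp_log hmpos]
    exact Real.exp_le_exp.2 hR
  have hlow : ‖c‖ - m ≤ ‖Complex.exp ω + Complex.I * c‖ := by
    have h1 := norm_sub_le_norm_add (Complex.I * c) (Complex.exp ω)
    rw [norm_mul, Complex.norm_I, one_mul, add_comm] at h1
    linarith
  have hpos : 0 < ‖Complex.exp ω + Complex.I * c‖ := norm_pos_iff.2 hden
  have h2 : omi p q ω - q = Complex.exp ω * (p - q) / (Complex.exp ω + Complex.I * c) := by
    unfold omi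
    rw [← hc]
    field_simp
    ring
  rw [dist_eq_norm, h2, norm_div, norm_mul, div_lt_iff₀ hpos]
  have h3 : m * ‖p - q‖ < ε * (‖c‖ - m) := by nlinarith
  calc ‖Complex.exp ω‖ * ‖p - q‖ ≤ m * ‖p - q‖ := mul_le_mul_of_nonneg_right hE hpq0.le
    _ < ε * (‖c‖ - m) := h3
    _ ≤ ε * ‖Complex.exp ω + Complex.I * c‖ := mul_le_mul_of_nonneg_left hlow hε.le

theorem om_bilip (hp : ‖p‖ = 1) (hq : ‖q‖ = 1) (hpq : p ≠ q) {x : ℂ} (hx : x ∈ Dpq p q) :
    ∃ c > 0, ∃ C > 0, ∃ δ > 0, ∀ y ∈ Dpq p q, dist y x < δ →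
      c * dist y x ≤ dist (om p q y) (om p q x) ∧ dist (om p q y) (om p q x) ≤ C * dist y x := by
  have hS := om_mem hp hq hpq hx
  have hd := omi_hasDerivAt hp hq hpq hS
  rw [omi_om hp hq hpq hx] at hd
  set d : ℂ := (x - q) * (p - x) / (p - q) with hddef
  have hd0 : d ≠ 0 := by
    rw [hddef]
    exact div_ne_zero (mul_ne_zero (sub_ne_zero.2 hx.2.2) (sub_ne_zero.2 (Ne.symm hx.2.1)))
      (sub_ne_zero.2 hpq)
  have hdn : 0 < ‖d‖ := norm_pos_iff.2 hd0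
  have hlo := (hasDerivAt_iff_isLittleO.1 hd).def (show 0 < ‖d‖ / 2 by positivity)
  have hcont : Tendsto (om p q) (𝓝[Dpq p q] x) (𝓝 (om p q x)) := om_cont hp hq hpq x hx
  have hev := hcont.eventually hlo
  rw [eventually_nhdsWithin_iff, Metric.eventually_nhds_iff] at hev
  obtain ⟨δ, hδ, hev⟩ := hev
  refine ⟨2 / (3 * ‖d‖), by positivity, 2 / ‖d‖, by positivity, δ, hδ, fun y hy hyx => ?_⟩
  have h1 := hev hyx hy
  rw [omi_om hp hq hpq hy, omi_om hp hq hpq hx, smul_eq_mul] at h1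
  set W : ℂ := om p q y - om p q x with hW
  rw [dist_eq_norm, dist_eq_norm]
  have h2 : ‖W * d‖ = ‖d‖ * ‖W‖ := by rw [norm_mul, mul_comm]
  have h3 : ‖W * d‖ - ‖y - x - W * d‖ ≤ ‖y - x‖ := by
    have h4 := norm_sub_le (y - x) (y - x - W * d)
    rw [sub_sub_cancel] at h4
    linarith
  have h5 : ‖y - x‖ ≤ ‖W * d‖ + ‖y - x - W * d‖ := by
    have h4 := norm_add_le (W * d) (y - x - W * d)
    rw [add_sub_cancel] at h4
    exact h4
  rw [h2] at h3 h5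
  constructor
  · rw [div_mul_eq_mul_div, div_le_iff₀ (by positivity)]
    linarith
  · rw [div_mul_eq_mul_div, le_div_iff₀ hdn]
    linarith

theorem CP_mvt {φ φ' : ℝ → ℝ} (h : ∀ t ∈ Icc (0:ℝ) 1, HasDerivAt φ (φ' t) t) :
    ∃ t ∈ Ioo (0:ℝ) 1, φ' t = φ 1 - φ 0 := by
  obtain ⟨t, ht, h2⟩ := exists_hasDerivAt_eq_slope φ φ' (zero_lt_one' ℝ)
    (fun t ht => (h t ht).continuousAt.continuousWithinAt) (fun t ht => h t ⟨ht.1.le, ht.2.le⟩)
  refine ⟨t, ht, ?_⟩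
  rw [h2]; ring

theorem logq {A B : ℂ} (hA : 0 < A.im) (hB : 0 < B.im) (hAB : A ≠ B) :
    ((Complex.log A - Complex.log B) / (A - B)).im < 0 := by
  have hAB' : A - B ≠ 0 := sub_ne_zero.2 hAB
  have him : ∀ t ∈ Icc (0:ℝ) 1, 0 < (B + (t:ℂ) * (A - B)).im := by
    intro t ht
    have : (B + (t:ℂ) * (A - B)).im = (1 - t) * B.im + t * A.im := by
      simp; ring
    rw [this]
    rcases eq_or_lt_of_le ht.1 with h | h
    · rw [← h]; linarith
    · have h1 : 0 ≤ (1 - t) * B.im := mul_nonneg (by linarith [ht.2]) hB.le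
      have h2 : 0 < t * A.im := mul_pos h hA
      linarith
  have hder : ∀ t ∈ Icc (0:ℝ) 1, HasDerivAt
      (fun t : ℝ => (Complex.log (B + (t:ℂ) * (A - B)) / (A - B)).im)
      ((1 / (B + (t:ℂ) * (A - B))).im) t := by
    intro t ht
    have h1 : HasDerivAt (fun t : ℝ => B + (t:ℂ) * (A - B)) (A - B) t := by
      have := ((Complex.ofRealCLM.hasDerivAt (x := t)).mul_const (A - B)).const_add B
      simpa using this
    have hs : B + (t:ℂ) * (A - B) ∈ Complex.slitPlane := Or.inr (him t ht).ne'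
    have h2 := (h1.clog_real hs).div_const (A - B)
    have h3 : (A - B) / (B + (t:ℂ) * (A - B)) / (A - B) = 1 / (B + (t:ℂ) * (A - B)) := by
      field_simp
    rw [h3] at h2
    exact (Complex.imCLM.hasFDerivAt.comp_hasDerivAt t h2)
  obtain ⟨t, ht, h4⟩ := CP_mvt hder
  have h5 : (1 / (B + (t:ℂ) * (A - B))).im < 0 := by
    have h6 := him t ⟨ht.1.le, ht.2.le⟩
    rw [one_div, Complex.inv_im]
    have h7 : 0 < Complex.normSq (B + (t:ℂ) * (A - B)) :=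
      Complex.normSq_pos.2 (fun h0 => by rw [h0] at h6; simp at h6)
    exact div_neg_of_neg_of_pos (by linarith) h7
  rw [h4] at h5
  simp only [Complex.ofReal_one, one_mul, Complex.ofReal_zero, zero_mul, add_zero,
    add_sub_cancel] at h5
  rw [sub_div, Complex.sub_im]
  exact h5

theorem CP_log_mul {f g : ℂ → ℂ} {S : Set ℂ} (hf : HasLog f S) (hg : HasLog g S) :
    HasLog (fun z => f z * g z) S := by
  obtain ⟨L, h1, h2⟩ := hf
  obtain ⟨M, h3, h4⟩ := hg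
  refine ⟨fun z => L z + M z, h1.add h3, fun z hz => ?_⟩
  simp only [h2 z hz, h4 z hz, Complex.exp_add]

theorem CP_log_div {f g : ℂ → ℂ} {S : Set ℂ} (hf : HasLog f S) (hg : HasLog g S) :
    HasLog (fun z => f z / g z) S := by
  obtain ⟨L, h1, h2⟩ := hf
  obtain ⟨M, h3, h4⟩ := hg
  refine ⟨fun z => L z - M z, h1.sub h3, fun z hz => ?_⟩
  simp only [h2 z hz, h4 z hz, Complex.exp_sub]

theorem CP_log_slit {f : ℂ → ℂ} {S : Set ℂ} (hf : ContinuousOn f S)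
    (h : ∀ z ∈ S, f z ∈ Complex.slitPlane) : HasLog f S := by
  refine ⟨fun z => Complex.log (f z), hf.clog h, fun z hz => ?_⟩
  exact (Complex.exp_log (Complex.slitPlane_ne_zero (h z hz))).symm

theorem CP_log_const {a : ℂ} (ha : a ≠ 0) {S : Set ℂ} : HasLog (fun _ => a) S :=
  ⟨fun _ => Complex.log a, continuousOn_const, fun _ _ => (Complex.exp_log ha).symm⟩

theorem CP_log_psub (hp : ‖p‖ = 1) {S : Set ℂ} {f : ℂ → ℂ} (hf : ContinuousOn f S)
    (hf1 : MapsTo f S (ball 0 1)) : HasLog (fun x => p - f x) S := by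
  have hp0 : p ≠ 0 := by intro h; rw [h, norm_zero] at hp; exact zero_ne_one hp
  have h1 : HasLog (fun x => 1 - f x / p) S := by
    refine CP_log_slit (continuousOn_const.sub (hf.div_const p)) fun x hx => Or.inl ?_
    have h2 : ‖f x‖ < 1 := by simpa using hf1 hx
    have h3 : (f x / p).re ≤ ‖f x / p‖ := Complex.re_le_norm _
    rw [norm_div, hp, div_one] at h3
    rw [Complex.sub_re, Complex.one_re]
    linarith
  obtain ⟨L, h4, h5⟩ := CP_log_mul (CP_log_const hp0 (S := S)) h1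
  refine ⟨L, h4, fun x hx => ?_⟩
  rw [← h5 x hx]
  field_simp

/-- difference quotients of `om` in the open disc have a logarithm -/
theorem om_quot (hp : ‖p‖ = 1) (hq : ‖q‖ = 1) (hpq : p ≠ q) {S : Set ℂ} {f g : ℂ → ℂ}
    (hf : ContinuousOn f S) (hg : ContinuousOn g S) (hf1 : MapsTo f S (ball 0 1))
    (hg1 : MapsTo g S (ball 0 1)) (hne : ∀ x ∈ S, f x ≠ g x) :
    HasLog (fun x => (om p q (f x) - om p q (g x)) / (f x - g x)) S := by
  set c : ℂ := 1 - p * (starRingEnd ℂ) q with hc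
  have hc0 : c ≠ 0 := norm_pos_iff.1 (CP_c_pos hp hq hpq)
  have hpq' : p - q ≠ 0 := sub_ne_zero.2 hpq
  have hpf : ∀ x ∈ S, p - f x ≠ 0 := fun x hx =>
    sub_ne_zero.2 (Ne.symm (CP_ball_Dpq hp hq (hf1 hx)).2.1)
  have hpg : ∀ x ∈ S, p - g x ≠ 0 := fun x hx =>
    sub_ne_zero.2 (Ne.symm (CP_ball_Dpq hp hq (hg1 hx)).2.1)
  have hsub : ∀ x ∈ S, eta p q (f x) - eta p q (g x) =
      Complex.I * c * (p - q) * (f x - g x) / ((p - f x) * (p - g x)) := fun x hx =>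
    eta_sub (CP_ball_Dpq hp hq (hf1 hx)).2.1 (CP_ball_Dpq hp hq (hg1 hx)).2.1
  have hne' : ∀ x ∈ S, eta p q (f x) - eta p q (g x) ≠ 0 := by
    intro x hx
    rw [hsub x hx]
    refine div_ne_zero (mul_ne_zero (mul_ne_zero (mul_ne_zero Complex.I_ne_zero hc0) hpq')
      (sub_ne_zero.2 (hne x hx))) (mul_ne_zero (hpf x hx) (hpg x hx))
  have heta : ∀ h : ℂ → ℂ, ContinuousOn h S → (∀ x ∈ S, p - h x ≠ 0) →
      ContinuousOn (fun x => eta p q (h x)) S := by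
    intro h hh hph
    unfold eta
    exact (continuousOn_const.mul (hh.sub continuousOn_const)).div
      (continuousOn_const.sub hh) hph
  have hom : ∀ h : ℂ → ℂ, ContinuousOn h S → MapsTo h S (ball 0 1) →
      ContinuousOn (fun x => om p q (h x)) S := by
    intro h hh hmh
    exact (om_cont hp hq hpq).comp hh (fun x hx => CP_ball_Dpq hp hq (hmh hx))
  have him : ∀ h : ℂ → ℂ, MapsTo h S (ball 0 1) → ∀ x ∈ S, 0 < (eta p q (h x)).im := by
    intro h hmh x hx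
    have h1 : ‖h x‖ < 1 := by simpa using hmh hx
    have h2 : 0 < ‖p - q‖ := norm_pos_iff.2 hpq'
    have h3 : 0 < ‖p - h x‖ := norm_pos_iff.2
      (sub_ne_zero.2 (Ne.symm (CP_ball_Dpq hp hq (hmh hx)).2.1))
    rw [eta_im hp hq]
    have h8 : 0 < 1 - ‖h x‖ ^ 2 := by nlinarith [norm_nonneg (h x)]
    positivity
  have h1 : HasLog (fun x => (om p q (f x) - om p q (g x)) / (eta p q (f x) - eta p q (g x))) S := by
    refine CP_log_slit (((hom f hf hf1).sub (hom g hg hg1)).div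
      ((heta f hf hpf).sub (heta g hg hpg)) hne') fun x hx => Or.inr ?_
    exact (logq (him f hf1 x hx) (him g hg1 x hx) (sub_ne_zero.1 (hne' x hx))).ne
  have h2 : HasLog (fun _ => Complex.I * c * (p - q)) S :=
    CP_log_const (mul_ne_zero (mul_ne_zero Complex.I_ne_zero hc0) hpq')
  obtain ⟨L, h4, h5⟩ := CP_log_div (CP_log_mul h1 h2)
    (CP_log_mul (CP_log_psub hp hf hf1) (CP_log_psub hp hg hg1))
  refine ⟨L, h4, fun x hx => ?_⟩
  rw [← h5 x hx]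
  simp only
  rw [hsub x hx]
  have e1 := hpf x hx
  have e2 := hpg x hx
  have e3 := sub_ne_zero.2 (hne x hx)
  field_simp

theorem expq {v : ℂ} (h0 : v ≠ 0) (hv : |v.im| < Real.pi / 2) : 0 < ((Complex.exp v - 1) / v).re := by
  have hder : ∀ t ∈ Icc (0:ℝ) 1, HasDerivAt (fun t : ℝ => (Complex.exp ((t:ℂ) * v) / v).re)
      ((Complex.exp ((t:ℂ) * v)).re) t := by
    intro t _
    have h1 : HasDerivAt (fun t : ℝ => (t:ℂ) * v) v t := by
      have := ((Complex.ofRealCLM.hasDerivAt (x := t)).mul_const v)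
      simpa using this
    have h2 := (h1.cexp).div_const v
    have h3 : Complex.exp ((t:ℂ) * v) * v / v = Complex.exp ((t:ℂ) * v) := by field_simp
    rw [h3] at h2
    exact (Complex.reCLM.hasFDerivAt.comp_hasDerivAt t h2)
  obtain ⟨t, ht, h4⟩ := CP_mvt hder
  have h5 : 0 < (Complex.exp ((t:ℂ) * v)).re := by
    rw [Complex.exp_re]
    apply mul_pos (Real.exp_pos _)
    apply Real.cos_pos_of_mem_Ioo
    have h6 : ((t:ℂ) * v).im = t * v.im := by simp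
    rw [h6]
    have h7 : |t * v.im| < Real.pi / 2 := by
      rw [abs_mul, abs_of_pos ht.1]
      calc t * |v.im| ≤ 1 * |v.im| := mul_le_mul_of_nonneg_right ht.2.le (abs_nonneg _)
        _ < Real.pi / 2 := by rw [one_mul]; exact hv
    rw [abs_lt] at h7
    exact ⟨h7.1, h7.2⟩
  rw [h4] at h5
  simp only [Complex.ofReal_one, one_mul, Complex.ofReal_zero, zero_mul, Complex.exp_zero] at h5
  rw [sub_div, Complex.sub_re]
  exact h5

end TN

end S_H12_TN_CP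

section S_H12_TN_DI

/-!
DI (Dirichlet domains).
`bis`: for `a`, `b` in the disc, `‖ξ‖ = 1`, put
`Q r = (1-‖b‖²) ‖1 - conj a (r ξ)‖² - (1-‖a‖²) ‖1 - conj b (r ξ)‖²`.  With `α = Re (conj a ξ)`, `β = Re (conj b ξ)`,
`‖1 - conj a (r ξ)‖² = 1 - 2 r α + r² ‖a‖²`, so `Q r = A (1 + r²) - 2 B r` with `A = ‖a‖² - ‖b‖²` and
`B = (1-‖b‖²) α - (1-‖a‖²) β`.  As `r/(1+r²)` is increasing on `[0,1]`, `Q r₀ ≥ 0`, `Q r₁ ≥ 0`, `r₀ ≤ r ≤ r₁ ≤ 1` imply `Q r ≥ 0`:
indeed `Q r / (1 + r²) = A - 2 B (r/(1+r²))` is monotone (increasing or decreasing) in `r`.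
`closer`: for `x` in the disc, `‖act g x‖ ≤ pd (act g x) a` iff (`act_pd`, with `b' = act g⁻¹ 0`, `a' = act g⁻¹ a`) `pd x b' ≤ pd x a'` iff
`(1-‖a'‖²) ‖1 - conj b' x‖² ≤ (1-‖b'‖²) ‖1 - conj a' x‖²` (from `1 - pd² = (1-‖x‖²)(1-‖a‖²)/‖1 - conj a x‖²`).
`radial`: apply `bis` with `b = 0`, `a = act g⁻¹ 0` (`F.b g`), `r₀ = 0`: `‖x‖ ≤ ‖act g x‖` iff `1 - ‖F.b g‖² ≤ ‖1 - conj (F.b g) x‖²` (`act_norm`).
`dirichlet_seq`: for each `n` the orbit of `x n` has a point of smallest norm (discreteness: `proper`); let `y n = act (g n) (x n)`.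
`‖y n‖ → 1`.  Pass to a subsequence with `y n → ξ`.  By `radial`, `r ≤ ‖act h (r • (y n / ‖y n‖))‖` for `r ≤ ‖y n‖`, all `h`; let `n → ∞`.
`halfplane`: if `ξ` is a point of the circle, not in `lim`, there is `s < 1`, `0 < s`, such that no point of the orbit of `0` and no
point of `lim` is in `{x | ‖1 - s conj ξ x‖² < 1 - s²}` (these sets shrink to `ξ` when `s → 1`: `‖1 - s conj ξ x‖ ≥ ‖1 - conj ξ x‖ - (1 - s)`,
and `‖1 - conj ξ x‖ = ‖ξ - x‖`; the orbit and `lim` stay away from `ξ` by the definition of `lim`).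
`halfplane_ray`: if neither `act g 0` nor `act g ζ` (`ζ ∈ lim`) is in that half plane then no `act g (r ζ)` is, `0 ≤ r < 1`: this is
`bis` in the form `closer` for `a = s ξ`: `‖x‖ ≤ pd x a` iff `1 - s² ≤ ‖1 - conj a x‖²` (for `x` in the disc); for the end point `ζ`
the inequality `Q 1 ≥ 0` is `1 - s² ≤ ‖1 - conj a (act g ζ)‖²`, transported by `mob_sub` (or let `r → 1`: if `Q 1 < 0` then `Q r < 0` near `1`,
while the strict inequality at the end point is excluded because ... choose `s` with a margin: `1 - s² < ‖1 - s conj ξ x‖²` strictly on `lim` and the orbit,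
then it holds for `act g (r ζ)` for `r` near `1` by continuity, and `bis` gives all smaller `r`).
`not_UC`: choose `ξ_n ∈ lim`, `r_n`, with `‖act g (r_n ξ_n)‖ > 1 - 1/(n+1)` for all `g`; apply `dirichlet_seq` to `x n = r_n ξ_n`; the limit `ξ` is in `lim`
by `halfplane`, `halfplane_ray` (the points `y n = act g (r_n ξ_n)` tend to `ξ`, and are not in the half plane, which is a neighbourhood of `ξ`).
-/

namespace TN
open Metric Set Filter Topology DS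

theorem DI_nsq {a ξ : ℂ} (hξ : ‖ξ‖ = 1) (r : ℝ) :
    ‖1 - (starRingEnd ℂ) a * (r * ξ)‖ ^ 2 =
      1 - 2 * r * ((starRingEnd ℂ) a * ξ).re + r ^ 2 * ‖a‖ ^ 2 := by
  have h1 : ξ.re * ξ.re + ξ.im * ξ.im = 1 := by
    rw [← Complex.normSq_apply, Complex.normSq_eq_norm_sq, hξ]; norm_num
  rw [← Complex.normSq_eq_norm_sq, ← Complex.normSq_eq_norm_sq, Complex.normSq_apply,
    Complex.normSq_apply]
  simp only [Complex.sub_re, Complex.sub_im, Complex.mul_re, Complex.mul_im, Complex.conj_re,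
    Complex.conj_im, Complex.ofReal_re, Complex.ofReal_im, Complex.one_re, Complex.one_im]
  linear_combination (r ^ 2 * (a.re * a.re + a.im * a.im)) * h1

/-- monotonicity of the comparison of distances along a radius -/
theorem bis {a b ξ : ℂ} (hξ : ‖ξ‖ = 1) {r₀ r r₁ : ℝ} (h0 : 0 ≤ r₀) (h01 : r₀ ≤ r) (h1 : r ≤ r₁)
    (h11 : r₁ ≤ 1)
    (hQ0 : (1 - ‖a‖ ^ 2) * ‖1 - (starRingEnd ℂ) b * (r₀ * ξ)‖ ^ 2 ≤
      (1 - ‖b‖ ^ 2) * ‖1 - (starRingEnd ℂ) a * (r₀ * ξ)‖ ^ 2)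
    (hQ1 : (1 - ‖a‖ ^ 2) * ‖1 - (starRingEnd ℂ) b * (r₁ * ξ)‖ ^ 2 ≤
      (1 - ‖b‖ ^ 2) * ‖1 - (starRingEnd ℂ) a * (r₁ * ξ)‖ ^ 2) :
    (1 - ‖a‖ ^ 2) * ‖1 - (starRingEnd ℂ) b * (r * ξ)‖ ^ 2 ≤
      (1 - ‖b‖ ^ 2) * ‖1 - (starRingEnd ℂ) a * (r * ξ)‖ ^ 2 := by
  simp only [DI_nsq hξ] at hQ0 hQ1 ⊢
  set α := ((starRingEnd ℂ) a * ξ).re
  set β := ((starRingEnd ℂ) b * ξ).re
  set p := ‖a‖ ^ 2
  set q := ‖b‖ ^ 2
  set A := p - q with hA
  set B := (1 - q) * α - (1 - p) * β with hB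
  have hQ : ∀ t : ℝ, (1 - q) * (1 - 2 * t * α + t ^ 2 * p) - (1 - p) * (1 - 2 * t * β + t ^ 2 * q) =
      A * (1 + t ^ 2) - 2 * B * t := by
    intro t
    rw [hA, hB]
    ring
  have k0 : 0 ≤ A * (1 + r₀ ^ 2) - 2 * B * r₀ := by rw [← hQ r₀]; linarith
  have k1 : 0 ≤ A * (1 + r₁ ^ 2) - 2 * B * r₁ := by rw [← hQ r₁]; linarith
  suffices h : 0 ≤ A * (1 + r ^ 2) - 2 * B * r by
    rw [← hQ r] at h; linarith
  have hr0 : 0 ≤ r := h0.trans h01
  have hr1 : r ≤ 1 := h1.trans h11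
  rcases le_total 0 B with hB0 | hB0
  · have e : (1 + r₁ ^ 2) * (A * (1 + r ^ 2) - 2 * B * r) =
        (1 + r ^ 2) * (A * (1 + r₁ ^ 2) - 2 * B * r₁) + 2 * B * ((r₁ - r) * (1 - r * r₁)) := by ring
    have h2 : r * r₁ ≤ 1 := mul_le_one₀ hr1 (hr0.trans h1) h11
    have h3 : 0 ≤ 2 * B * ((r₁ - r) * (1 - r * r₁)) :=
      mul_nonneg (by linarith) (mul_nonneg (by linarith) (by linarith))
    have h4 : 0 ≤ (1 + r ^ 2) * (A * (1 + r₁ ^ 2) - 2 * B * r₁) := mul_nonneg (by positivity) k1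
    have h5 : 0 ≤ (1 + r₁ ^ 2) * (A * (1 + r ^ 2) - 2 * B * r) := by rw [e]; linarith
    exact nonneg_of_mul_nonneg_right h5 (by positivity)
  · have e : (1 + r₀ ^ 2) * (A * (1 + r ^ 2) - 2 * B * r) =
        (1 + r ^ 2) * (A * (1 + r₀ ^ 2) - 2 * B * r₀) + 2 * (-B) * ((r - r₀) * (1 - r * r₀)) := by ring
    have h2 : r * r₀ ≤ 1 := mul_le_one₀ hr1 h0 (h01.trans hr1)
    have h3 : 0 ≤ 2 * (-B) * ((r - r₀) * (1 - r * r₀)) :=
      mul_nonneg (by linarith) (mul_nonneg (by linarith) (by linarith))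
    have h4 : 0 ≤ (1 + r ^ 2) * (A * (1 + r₀ ^ 2) - 2 * B * r₀) := mul_nonneg (by positivity) k0
    have h5 : 0 ≤ (1 + r₀ ^ 2) * (A * (1 + r ^ 2) - 2 * B * r) := by rw [e]; linarith
    exact nonneg_of_mul_nonneg_right h5 (by positivity)

theorem DI_one_sub {u b x y : ℂ} (hu : ‖u‖ = 1) (hb : ‖b‖ < 1) (hx : ‖x‖ ≤ 1) (hy : ‖y‖ ≤ 1) :
    ‖1 - (starRingEnd ℂ) (mob u b x) * mob u b y‖ *
      (‖1 - (starRingEnd ℂ) b * x‖ * ‖1 - (starRingEnd ℂ) b * y‖) =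
      (1 - ‖b‖ ^ 2) * ‖1 - (starRingEnd ℂ) x * y‖ := by
  have hdx := den_ne hb hx
  have hdy := den_ne hb hy
  have hdx' : (starRingEnd ℂ) (1 - (starRingEnd ℂ) b * x) ≠ 0 := by
    rw [Ne, map_eq_zero]; exact hdx
  have huu : (starRingEnd ℂ) u * u = 1 := by
    rw [mul_comm, Complex.mul_conj, Complex.normSq_eq_norm_sq, hu]; norm_num
  have e : (1 - (starRingEnd ℂ) (mob u b x) * mob u b y) *
      ((starRingEnd ℂ) (1 - (starRingEnd ℂ) b * x) * (1 - (starRingEnd ℂ) b * y)) =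
      ((1 - ‖b‖ ^ 2 : ℝ) : ℂ) * (1 - (starRingEnd ℂ) x * y) := by
    have hbb : ((‖b‖ ^ 2 : ℝ) : ℂ) = (starRingEnd ℂ) b * b := by
      rw [mul_comm, Complex.mul_conj, Complex.normSq_eq_norm_sq]
    rw [Complex.ofReal_sub, hbb, Complex.ofReal_one]
    unfold mob
    rw [map_div₀, map_mul]
    have e1 : (starRingEnd ℂ) u * (starRingEnd ℂ) (x - b) / (starRingEnd ℂ) (1 - (starRingEnd ℂ) b * x) *
        (u * (y - b) / (1 - (starRingEnd ℂ) b * y)) *
        ((starRingEnd ℂ) (1 - (starRingEnd ℂ) b * x) * (1 - (starRingEnd ℂ) b * y)) =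
        ((starRingEnd ℂ) u * u) * ((starRingEnd ℂ) (x - b) * (y - b)) := by
      have hgen : ∀ A B P R : ℂ, P ≠ 0 → R ≠ 0 → A / P * (B / R) * (P * R) = A * B := by
        intro A B P R hP hR
        field_simp
      rw [hgen _ _ _ _ hdx' hdy]
      ring
    rw [sub_mul, e1, huu, one_mul, one_mul]
    simp only [map_sub, map_mul, map_one, Complex.conj_conj]
    ring
  have h2 := congrArg norm e
  have hb1 : 0 ≤ 1 - ‖b‖ ^ 2 := by
    have := pow_le_one₀ (n := 2) (norm_nonneg b) hb.le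
    linarith
  rw [norm_mul, norm_mul, norm_mul, RCLike.norm_conj, Complex.norm_real,
    Real.norm_of_nonneg hb1] at h2
  exact h2

variable {Γ : Type} [Group Γ] (F : Fuchs Γ)

/-- a point of smallest norm in an orbit -/
theorem exists_min {x : ℂ} (hx : ‖x‖ < 1) : ∃ g, ∀ h, ‖F.act g x‖ ≤ ‖F.act h x‖ := by
  have hfin : {g | ‖F.act g x‖ ≤ ‖x‖}.Finite := by
    refine (proper F hx).subset fun g hg => ?_
    exact ⟨x, le_rfl, hg⟩
  have hne : {g | ‖F.act g x‖ ≤ ‖x‖}.Nonempty := ⟨1, by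
    show ‖F.act 1 x‖ ≤ ‖x‖
    rw [act_one F hx.le]⟩
  obtain ⟨g, hg, hmin⟩ := Set.exists_min_image _ (fun g => ‖F.act g x‖) hfin hne
  refine ⟨g, fun h => ?_⟩
  by_cases hh : ‖F.act h x‖ ≤ ‖x‖
  · exact hmin h hh
  · push Not at hh
    exact (le_of_lt (lt_of_le_of_lt hg hh))

theorem DI_norm_iff (g : Γ) {y : ℂ} (hy : ‖y‖ < 1) :
    ‖y‖ ≤ ‖F.act g y‖ ↔ 1 - ‖F.b g‖ ^ 2 ≤ ‖1 - (starRingEnd ℂ) (F.b g) * y‖ ^ 2 := by
  have h1 := act_norm F g hy.le
  have hd : 0 < ‖1 - (starRingEnd ℂ) (F.b g) * y‖ ^ 2 := by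
    have := norm_pos_iff.2 (den_ne (F.hb g) hy.le)
    positivity
  have hy2 : 0 < 1 - ‖y‖ ^ 2 := by
    have := pow_lt_one₀ (norm_nonneg y) hy two_ne_zero
    linarith
  have h2 : ‖y‖ ≤ ‖F.act g y‖ ↔ 1 - ‖F.act g y‖ ^ 2 ≤ 1 - ‖y‖ ^ 2 := by
    rw [← sq_le_sq₀ (norm_nonneg _) (norm_nonneg _)]
    constructor <;> intro h <;> linarith
  rw [h2, h1, div_le_iff₀ hd, mul_comm (1 - ‖F.b g‖ ^ 2)]
  exact mul_le_mul_iff_right₀ hy2

theorem radial {x ξ : ℂ} (hξ : ‖ξ‖ = 1) {r t : ℝ} (hr : 0 ≤ r) (hrt : r ≤ t) (ht : t < 1) (g : Γ)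
    (h : t ≤ ‖F.act g (t * ξ)‖) : r ≤ ‖F.act g (r * ξ)‖ := by
  have hn : ∀ s : ℝ, 0 ≤ s → ‖(s : ℂ) * ξ‖ = s := by
    intro s hs
    rw [norm_mul, hξ, mul_one, Complex.norm_real, Real.norm_of_nonneg hs]
  have ht0 : 0 ≤ t := hr.trans hrt
  have h1 : ‖(t : ℂ) * ξ‖ ≤ ‖F.act g (t * ξ)‖ := by rw [hn t ht0]; exact h
  rw [DI_norm_iff F g (by rw [hn t ht0]; exact ht)] at h1
  have h2 := bis (a := F.b g) (b := 0) hξ le_rfl hr hrt ht.le (by
    simp) (by simpa using h1)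
  have h3 : ‖(r : ℂ) * ξ‖ ≤ ‖F.act g (r * ξ)‖ := by
    rw [DI_norm_iff F g (by rw [hn r hr]; exact lt_of_le_of_lt hrt ht)]
    simpa using h2
  rw [hn r hr] at h3
  exact h3

theorem dirichlet_seq {x : ℕ → ℂ} (hx : ∀ n, ‖x n‖ < 1)
    (h : ∀ ρ : ℝ, ρ < 1 → ∀ᶠ n in atTop, ∀ g, ρ ≤ ‖F.act g (x n)‖) :
    ∃ φ : ℕ → ℕ, StrictMono φ ∧ ∃ g : ℕ → Γ, ∃ ξ : ℂ, ‖ξ‖ = 1 ∧
      Tendsto (fun n => F.act (g n) (x (φ n))) atTop (𝓝 ξ) ∧
      ∀ h, ∀ r : ℝ, 0 ≤ r → r < 1 → r ≤ ‖F.act h (r * ξ)‖ := by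
  choose g hg using fun n => exists_min F (hx n)
  set y : ℕ → ℂ := fun n => F.act (g n) (x n) with hy
  have hy1 : ∀ n, ‖y n‖ < 1 := fun n => act_lt F (g n) (hx n)
  have hylim : Tendsto (fun n => ‖y n‖) atTop (𝓝 1) := by
    rw [tendsto_order]
    constructor
    · intro ρ hρ
      have h1 := h ((ρ + 1) / 2) (by linarith)
      filter_upwards [h1] with n hn
      have := hn (g n)
      have h2 : (ρ + 1) / 2 ≤ ‖y n‖ := this
      linarith
    · intro ρ hρ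
      exact Eventually.of_forall fun n => (hy1 n).trans hρ
  obtain ⟨ξ, hξ, φ, hφ, hlim⟩ := (isCompact_closedBall (0 : ℂ) 1).tendsto_subseq
    (x := y) (fun n => mem_closedBall_zero_iff.2 (hy1 n).le)
  have hφt := hφ.tendsto_atTop
  have hξ1 : ‖ξ‖ = 1 := tendsto_nhds_unique hlim.norm (hylim.comp hφt)
  refine ⟨φ, hφ, fun n => g (φ n), ξ, hξ1, hlim, fun k r hr0 hr1 => ?_⟩
  -- the radial projections
  have hy2 : Tendsto (fun n => ‖y (φ n)‖) atTop (𝓝 1) := hylim.comp hφt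
  have hξn : Tendsto (fun n => ((‖y (φ n)‖ : ℝ) : ℂ)⁻¹ * y (φ n)) atTop (𝓝 ξ) := by
    have h1 : Tendsto (fun n => ((‖y (φ n)‖ : ℝ) : ℂ)) atTop (𝓝 ((1 : ℝ) : ℂ)) :=
      (Complex.continuous_ofReal.tendsto 1).comp hy2
    have h2 := (h1.inv₀ (by simp)).mul hlim
    simpa using h2
  have hrn : Tendsto (fun n => (r : ℂ) * (((‖y (φ n)‖ : ℝ) : ℂ)⁻¹ * y (φ n))) atTop
      (𝓝 ((r : ℂ) * ξ)) := hξn.const_mul _
  have hev : ∀ᶠ n in atTop, 0 < ‖y (φ n)‖ ∧ r < ‖y (φ n)‖ :=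
    (hy2.eventually (lt_mem_nhds one_pos)).and (hy2.eventually (lt_mem_nhds hr1))
  have hnorm : ∀ n, 0 < ‖y (φ n)‖ → ‖((‖y (φ n)‖ : ℝ) : ℂ)⁻¹ * y (φ n)‖ = 1 := by
    intro n hn
    rw [norm_mul, norm_inv, Complex.norm_real, Real.norm_of_nonneg hn.le, inv_mul_cancel₀ hn.ne']
  have hrξ : (r : ℂ) * ξ ∈ closedBall (0 : ℂ) 1 := by
    rw [mem_closedBall_zero_iff, norm_mul, hξ1, mul_one, Complex.norm_real, Real.norm_of_nonneg hr0]
    exact hr1.le
  have hT : Tendsto (fun n => F.act k ((r : ℂ) * (((‖y (φ n)‖ : ℝ) : ℂ)⁻¹ * y (φ n)))) atTop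
      (𝓝 (F.act k ((r : ℂ) * ξ))) := by
    have hc := (act_cont F k) _ hrξ
    refine hc.tendsto.comp ?_
    rw [tendsto_nhdsWithin_iff]
    refine ⟨hrn, ?_⟩
    filter_upwards [hev] with n hn
    rw [mem_closedBall_zero_iff, norm_mul, hnorm n hn.1, mul_one, Complex.norm_real,
      Real.norm_of_nonneg hr0]
    exact hr1.le
  refine ge_of_tendsto hT.norm ?_
  filter_upwards [hev] with n hn
  refine radial (x := 0) F (hnorm n hn.1) hr0 hn.2.le (hy1 _) k ?_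
  have e : ((‖y (φ n)‖ : ℝ) : ℂ) * (((‖y (φ n)‖ : ℝ) : ℂ)⁻¹ * y (φ n)) = y (φ n) := by
    rw [← mul_assoc, mul_inv_cancel₀ (by exact_mod_cast hn.1.ne'), one_mul]
  rw [e]
  have h3 := hg (φ n) (k * g (φ n))
  rw [act_mul F _ _ (hx _).le] at h3
  exact h3

/-- comparison of the distances to `0` and to `a` -/
theorem DI_closer (g : Γ) {a z : ℂ} (ha : ‖a‖ < 1) (hz : ‖z‖ < 1) :
    1 - ‖a‖ ^ 2 ≤ ‖1 - (starRingEnd ℂ) a * F.act g z‖ ^ 2 ↔
    (1 - ‖F.act g⁻¹ a‖ ^ 2) * ‖1 - (starRingEnd ℂ) (F.b g) * z‖ ^ 2 ≤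
      (1 - ‖F.b g‖ ^ 2) * ‖1 - (starRingEnd ℂ) (F.act g⁻¹ a) * z‖ ^ 2 := by
  set a' := F.act g⁻¹ a with ha'
  have ha1 : ‖a'‖ < 1 := act_lt F g⁻¹ ha
  have haa : F.act g a' = a := act_act_inv F g ha.le
  have h1 := act_norm F g ha1.le
  rw [haa] at h1
  have h2 := DI_one_sub (F.hu g) (F.hb g) ha1.le hz.le
  have h3 : mob (F.u g) (F.b g) a' = a := haa
  have h4 : mob (F.u g) (F.b g) z = F.act g z := rfl
  rw [h3, h4] at h2
  set D1 := ‖1 - (starRingEnd ℂ) (F.b g) * a'‖ with hD1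
  set D2 := ‖1 - (starRingEnd ℂ) (F.b g) * z‖ with hD2
  set Y := ‖1 - (starRingEnd ℂ) a * F.act g z‖ with hY
  set Z := ‖1 - (starRingEnd ℂ) a' * z‖ with hZ
  have hD1p : 0 < D1 := norm_pos_iff.2 (den_ne (F.hb g) ha1.le)
  have hD2p : 0 < D2 := norm_pos_iff.2 (den_ne (F.hb g) hz.le)
  have hbp : 0 < 1 - ‖F.b g‖ ^ 2 := by
    have := pow_lt_one₀ (norm_nonneg _) (F.hb g) two_ne_zero
    linarith
  set β := 1 - ‖F.b g‖ ^ 2 with hβ
  set A := 1 - ‖a'‖ ^ 2 with hA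
  have hYe : Y ^ 2 * (D1 ^ 2 * D2 ^ 2) = β ^ 2 * Z ^ 2 := by
    have := congrArg (fun x => x ^ 2) h2
    simp only [mul_pow] at this
    linarith
  have h5 : (1 - ‖a‖ ^ 2) * D1 ^ 2 = β * A := by
    rw [h1]
    field_simp
  constructor
  · intro h
    have h6 := mul_le_mul_of_nonneg_right h (show 0 ≤ D1 ^ 2 * D2 ^ 2 by positivity)
    rw [hYe, ← mul_assoc, h5] at h6
    have h7 : β * (A * D2 ^ 2) ≤ β * (β * Z ^ 2) := by linarith
    exact le_of_mul_le_mul_left h7 hbp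
  · intro h
    have h6 := mul_le_mul_of_nonneg_left h hbp.le
    have h7 : (1 - ‖a‖ ^ 2) * (D1 ^ 2 * D2 ^ 2) ≤ Y ^ 2 * (D1 ^ 2 * D2 ^ 2) := by
      rw [hYe, ← mul_assoc, h5]
      linarith
    exact le_of_mul_le_mul_right h7 (by positivity)

/-- geodesic rays from the orbit of `0` to limit points stay away from the complement of the limit set -/
theorem ray_away {ξ : ℂ} (hξ : ‖ξ‖ = 1) (h : ξ ∉ F.lim) :
    ∃ δ > 0, ∀ g, ∀ ζ ∈ F.lim, ∀ r : ℝ, 0 ≤ r → r < 1 → δ ≤ dist (F.act g (r * ζ)) ξ := by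
  -- distance to the closure of the orbit
  have hcl : ξ ∉ closure (range fun g => F.act g 0) := fun hc => h ⟨hξ, hc⟩
  obtain ⟨d0, hd0, hball⟩ := Metric.isOpen_iff.1 isClosed_closure.isOpen_compl ξ hcl
  set d : ℝ := min d0 1 with hd
  have hdp : 0 < d := lt_min hd0 one_pos
  have hd1 : d ≤ 1 := min_le_right _ _
  have hfar : ∀ x ∈ closure (range fun g => F.act g 0), d ≤ ‖ξ - x‖ := by
    intro x hx
    by_contra hcon
    push Not at hcon
    refine hball (mem_ball_iff_norm.2 ?_) hx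
    rw [norm_sub_rev]
    exact lt_of_lt_of_le hcon (min_le_left _ _)
  set ε : ℝ := d ^ 2 / 16 with hε
  have hεp : 0 < ε := by positivity
  have hεd : ε ≤ d / 16 := by
    have : d ^ 2 ≤ d := by nlinarith
    rw [hε]
    linarith
  set s : ℝ := 1 - ε with hs
  have hs0 : 0 < s := by rw [hs]; linarith
  have hs1 : s < 1 := by rw [hs]; linarith
  set a : ℂ := (s : ℂ) * ξ with ha
  have han : ‖a‖ = s := by
    rw [ha, norm_mul, hξ, mul_one, Complex.norm_real, Real.norm_of_nonneg hs0.le]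
  have hξξ : (starRingEnd ℂ) ξ * ξ = 1 := by
    rw [mul_comm, Complex.mul_conj, Complex.normSq_eq_norm_sq, hξ]; norm_num
  -- far points are outside the half plane
  have hout : ∀ x : ℂ, ‖x‖ ≤ 1 → d ≤ ‖ξ - x‖ → 1 - ‖a‖ ^ 2 < ‖1 - (starRingEnd ℂ) a * x‖ ^ 2 := by
    intro x hx hdx
    have e1 : 1 - (starRingEnd ℂ) a * x =
        (starRingEnd ℂ) ξ * (ξ - x) + (ε : ℂ) * ((starRingEnd ℂ) ξ * x) := by
      rw [ha, map_mul, Complex.conj_ofReal, mul_sub, hξξ, hs]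
      push_cast
      ring
    have h1 : ‖(starRingEnd ℂ) ξ * (ξ - x)‖ ≤
        ‖1 - (starRingEnd ℂ) a * x‖ + ‖(ε : ℂ) * ((starRingEnd ℂ) ξ * x)‖ := by
      have e2 : (starRingEnd ℂ) ξ * (ξ - x) = (1 - (starRingEnd ℂ) a * x) -
          (ε : ℂ) * ((starRingEnd ℂ) ξ * x) := by rw [e1]; ring
      rw [e2]
      exact norm_sub_le _ _
    rw [norm_mul, norm_mul, norm_mul, RCLike.norm_conj, hξ, one_mul, one_mul, Complex.norm_real,
      Real.norm_of_nonneg hεp.le] at h1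
    have h2 : ε * ‖x‖ ≤ ε := mul_le_of_le_one_right hεp.le hx
    have h3 : 15 / 16 * d ≤ ‖1 - (starRingEnd ℂ) a * x‖ := by linarith
    have h4 : (15 / 16 * d) ^ 2 ≤ ‖1 - (starRingEnd ℂ) a * x‖ ^ 2 :=
      pow_le_pow_left₀ (by positivity) h3 2
    have h5 : 1 - ‖a‖ ^ 2 < (15 / 16 * d) ^ 2 := by
      rw [han, hs]
      have e3 : 1 - (1 - ε) ^ 2 = 2 * ε - ε ^ 2 := by ring
      rw [e3, hε]
      nlinarith [sq_nonneg (d ^ 2 / 16), pow_pos hdp 2]
    linarith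
  -- the centre `ξ` is in the half plane
  have hcont : Continuous (fun x : ℂ => ‖1 - (starRingEnd ℂ) a * x‖ ^ 2) := by fun_prop
  have hin : ‖1 - (starRingEnd ℂ) a * ξ‖ ^ 2 < 1 - ‖a‖ ^ 2 := by
    have e1 : 1 - (starRingEnd ℂ) a * ξ = (ε : ℂ) := by
      rw [ha, map_mul, Complex.conj_ofReal, mul_assoc, hξξ, hs]
      push_cast
      ring
    rw [e1, Complex.norm_real, Real.norm_of_nonneg hεp.le, han, hs]
    nlinarith
  obtain ⟨δ, hδ, hδ'⟩ := Metric.isOpen_iff.1 (isOpen_lt hcont continuous_const) ξ hin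
  refine ⟨δ, hδ, fun g ζ hζ r hr0 hr1 => ?_⟩
  by_contra hcon
  push Not at hcon
  have hbad : ‖1 - (starRingEnd ℂ) a * F.act g (r * ζ)‖ ^ 2 < 1 - ‖a‖ ^ 2 :=
    hδ' (mem_ball.2 hcon)
  have hζ1 := lim_sphere F hζ
  have hn : ∀ t : ℝ, 0 ≤ t → ‖(t : ℂ) * ζ‖ = t := by
    intro t ht
    rw [norm_mul, hζ1, mul_one, Complex.norm_real, Real.norm_of_nonneg ht]
  have ha1 : ‖a‖ < 1 := by rw [han]; exact hs1
  -- near the end of the ray
  have hgζ := lim_inv F g hζ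
  have hend : 1 - ‖a‖ ^ 2 < ‖1 - (starRingEnd ℂ) a * F.act g ζ‖ ^ 2 :=
    hout _ (act_eq F g hζ1).le (hfar _ hgζ.2)
  have hT : Tendsto (fun t : ℝ => ‖1 - (starRingEnd ℂ) a * F.act g ((t : ℂ) * ζ)‖ ^ 2) (𝓝[<] 1)
      (𝓝 (‖1 - (starRingEnd ℂ) a * F.act g ζ‖ ^ 2)) := by
    have hc := (act_cont F g) ζ (mem_closedBall_zero_iff.2 hζ1.le)
    refine (hcont.tendsto _).comp (hc.tendsto.comp ?_)
    rw [tendsto_nhdsWithin_iff]
    constructor
    · have : Tendsto (fun t : ℝ => (t : ℂ) * ζ) (𝓝 1) (𝓝 (((1 : ℝ) : ℂ) * ζ)) :=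
        (Complex.continuous_ofReal.mul continuous_const).tendsto 1
      rw [Complex.ofReal_one, one_mul] at this
      exact this.mono_left nhdsWithin_le_nhds
    · filter_upwards [Ioo_mem_nhdsLT (show (0 : ℝ) < 1 by norm_num)] with t ht
      rw [mem_closedBall_zero_iff, hn t ht.1.le]
      exact ht.2.le
  obtain ⟨t, ht, htr⟩ := ((hT.eventually (lt_mem_nhds hend)).and (Ioo_mem_nhdsLT hr1)).exists
  have hQ1 := (DI_closer F g (a := a) (z := (t : ℂ) * ζ) ha1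
    (by rw [hn t (hr0.trans htr.1.le)]; exact htr.2)).1 ht.le
  have hQ0 := (DI_closer F g (a := a) (z := ((0 : ℝ) : ℂ) * ζ) ha1 (by simp)).1 (by
    have : ((0 : ℝ) : ℂ) * ζ = 0 := by simp
    rw [this]
    exact (hout _ (act_lt F g (by simp)).le (hfar _ (subset_closure ⟨g, rfl⟩))).le)
  have hQ := bis hζ1 le_rfl hr0 htr.1.le htr.2.le hQ0 hQ1
  have := (DI_closer F g (a := a) (z := (r : ℂ) * ζ) ha1 (by rw [hn r hr0]; exact hr1)).2 hQ
  linarith

theorem not_UC (h : ¬ F.UC) : ∃ ξ ∈ F.lim, ∀ g, ∀ r : ℝ, 0 ≤ r → r < 1 → r ≤ ‖F.act g (r * ξ)‖ := by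
  unfold Fuchs.UC at h
  push Not at h
  choose ζ hζ r hr0 hr1 hρ using fun n : ℕ => h (1 - 1 / ((n : ℝ) + 1)) (by
    have : (0 : ℝ) < 1 / ((n : ℝ) + 1) := by positivity
    linarith)
  have hn : ∀ n, ‖((r n : ℝ) : ℂ) * ζ n‖ = r n := by
    intro n
    rw [norm_mul, lim_sphere F (hζ n), mul_one, Complex.norm_real, Real.norm_of_nonneg (hr0 n)]
  obtain ⟨φ, hφ, g, ξ, hξ, hlim, hray⟩ := dirichlet_seq F (x := fun n => ((r n : ℝ) : ℂ) * ζ n)
    (fun n => by rw [hn n]; exact hr1 n) (by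
      intro ρ hρ1
      have h1 : Tendsto (fun n : ℕ => 1 - 1 / ((n : ℝ) + 1)) atTop (𝓝 (1 - 0)) :=
        tendsto_const_nhds.sub tendsto_one_div_add_atTop_nhds_zero_nat
      rw [sub_zero] at h1
      filter_upwards [h1.eventually (lt_mem_nhds hρ1)] with n hn k
      exact (hn.trans (hρ n k)).le)
  refine ⟨ξ, ?_, hray⟩
  by_contra hcon
  obtain ⟨δ, hδ, hfar⟩ := ray_away F hξ hcon
  have h1 := hlim.eventually (ball_mem_nhds ξ hδ)
  obtain ⟨n, hn1⟩ := h1.exists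
  have h2 := hfar (g n) (ζ (φ n)) (hζ _) (r (φ n)) (hr0 _) (hr1 _)
  have h3 : dist (F.act (g n) ((r (φ n) : ℂ) * ζ (φ n))) ξ < δ := hn1
  linarith

/-- if every point of the limit set is conical then (UC) holds -/
theorem UC_of_con (h : ∀ ξ ∈ F.lim, F.Con ⊤ ξ) : F.UC := by
  by_contra hcon
  obtain ⟨ξ, hξ, hray⟩ := not_UC F hcon
  obtain ⟨ρ, hρ, hc⟩ := h ξ hξ
  obtain ⟨s, hs, hs0, hs1, g, -, hg⟩ := hc ρ hρ
  have := hray g s hs0 hs1
  linarith

end TN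

end S_H12_TN_DI

section S_H12_TN_FN

/-!
FN (homeomorphisms normalising the group).  Elementary.
`Norm.comp`: for `orient`: `e.H (e'.H z) / z = (e.H w / w) * (e'.H z / z)`, `w = e'.H z`, on the circle; the logarithm is
`L (e'.H z) + L' z`.  `Norm.lmul`: `orient` by `mob_log` in the same way.  `Norm.inv`: `equi` by applying `e.H`; `orient`: for `w = e.Hi z`,
`w / z = (e.H w / w)⁻¹`, logarithm `- L (e.Hi z)`.
`Norm.lim_iff`: if `act (g n) 0 → ξ` then `act (θ (g n)) (H 0) = H (act (g n) 0) → H ξ`; use `lim_of_seq` with `x = H 0`; the converse with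
the inverse.
`iter`: `(e.iter n).H = e.H^[n+1]`.
-/

namespace TN
open Metric Set Filter Topology DS

variable {Γ : Type} [Group Γ] (F : Fuchs Γ)

/-- the power `e ^ (n + 1)` -/
def Elt.iter (e : Elt Γ) : ℕ → Elt Γ
  | 0 => e
  | n + 1 => (e.iter n).comp e

theorem Elt.iter_H (e : Elt Γ) (n : ℕ) : (e.iter n).H = e.H^[n + 1] := by
  induction n with
  | zero => rfl
  | succ n ih =>
    rw [Function.iterate_succ, ← ih]
    rfl

theorem Elt.iter_mem {F : Fuchs Γ} {𝓗 : Set (Elt Γ)} (hF : Fam F 𝓗) {e : Elt Γ} (he : e ∈ 𝓗)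
    (n : ℕ) : e.iter n ∈ 𝓗 := by
  induction n with
  | zero => exact he
  | succ n ih => exact hF.comp _ ih _ he

theorem Elt.iter_theta (e : Elt Γ) {g : Γ} (h : e.θ g = g) (n : ℕ) : (e.iter n).θ g = g := by
  induction n with
  | zero => exact h
  | succ n ih =>
    show (e.iter n).θ (e.θ g) = g
    rw [h, ih]

variable {F}

theorem FN_mapC {H : ℂ → ℂ} (hB : MapsTo H (ball 0 1) (ball 0 1))
    (hS : MapsTo H (sphere 0 1) (sphere 0 1)) : MapsTo H (closedBall 0 1) (closedBall 0 1) := by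
  rw [← ball_union_sphere]
  rintro x (hx | hx)
  · exact Or.inl (hB hx)
  · exact Or.inr (hS hx)

theorem FN_ne {w : ℂ} (hw : w ∈ sphere (0:ℂ) 1) : w ≠ 0 := by
  rintro rfl
  simp at hw

theorem Norm.comp {e e' : Elt Γ} (h : Norm F e) (h' : Norm F e') : Norm F (e.comp e') where
  cont := h.cont.comp h'.cont (FN_mapC h'.mapB h'.mapS)
  conti := h'.conti.comp h.conti (FN_mapC h.mapBi h.mapSi)
  mapB := h.mapB.comp h'.mapB
  mapBi := h'.mapBi.comp h.mapBi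
  mapS := h.mapS.comp h'.mapS
  mapSi := h'.mapSi.comp h.mapSi
  left := by
    intro x hx
    show e'.Hi (e.Hi (e.H (e'.H x))) = x
    rw [h.left _ (FN_mapC h'.mapB h'.mapS hx), h'.left x hx]
  right := by
    intro x hx
    show e.H (e'.H (e'.Hi (e.Hi x))) = x
    rw [h'.right _ (FN_mapC h.mapBi h.mapSi hx), h.right x hx]
  equi := by
    intro g x hx
    show e.H (e'.H (F.act g x)) = F.act (e.θ (e'.θ g)) (e.H (e'.H x))
    rw [h'.equi g x hx, h.equi _ _ (FN_mapC h'.mapB h'.mapS hx)]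
  orient := by
    obtain ⟨L, hL, hL2⟩ := h.orient
    obtain ⟨L', hL', hL2'⟩ := h'.orient
    refine ⟨fun z => L (e'.H z) + L' z,
      (hL.comp (h'.cont.mono sphere_subset_closedBall) h'.mapS).add hL', fun z hz => ?_⟩
    have h1 := hL2 (e'.H z) (h'.mapS hz)
    have h2 := hL2' z hz
    have h3 := FN_ne (h'.mapS hz)
    have h4 := FN_ne hz
    show e.H (e'.H z) / z = Complex.exp (L (e'.H z) + L' z)
    rw [Complex.exp_add, ← h1, ← h2]
    field_simp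

theorem FN_act (F : Fuchs Γ) (c : Γ) : Norm F ⟨F.act c, F.act c⁻¹, MulAut.conj c⟩ where
  cont := act_cont F c
  conti := act_cont F c⁻¹
  mapB := fun x hx => mem_ball_zero_iff.2 (act_lt F c (mem_ball_zero_iff.1 hx))
  mapBi := fun x hx => mem_ball_zero_iff.2 (act_lt F c⁻¹ (mem_ball_zero_iff.1 hx))
  mapS := fun x hx => mem_sphere_zero_iff_norm.2 (act_eq F c (mem_sphere_zero_iff_norm.1 hx))
  mapSi := fun x hx => mem_sphere_zero_iff_norm.2 (act_eq F c⁻¹ (mem_sphere_zero_iff_norm.1 hx))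
  left := fun x hx => act_inv_act F c (mem_closedBall_zero_iff.1 hx)
  right := fun x hx => act_act_inv F c (mem_closedBall_zero_iff.1 hx)
  equi := by
    intro g x hx
    have hx' := mem_closedBall_zero_iff.1 hx
    show F.act c (F.act g x) = F.act (c * g * c⁻¹) (F.act c x)
    rw [act_mul F _ _ (act_le F c hx'), act_inv_act F c hx', act_mul F _ _ hx']
  orient := mob_log (F.hu c) (F.hb c)

theorem Norm.lmul {e : Elt Γ} (h : Norm F e) (c : Γ) : Norm F (e.lmul F c) :=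
  (FN_act F c).comp h

theorem Norm.inv {e : Elt Γ} (h : Norm F e) : Norm F e.inv where
  cont := h.conti
  conti := h.cont
  mapB := h.mapBi
  mapBi := h.mapB
  mapS := h.mapSi
  mapSi := h.mapS
  left := h.right
  right := h.left
  equi := by
    intro g x hx
    show e.Hi (F.act g x) = F.act (e.θ.symm g) (e.Hi x)
    have hx' := mem_closedBall_zero_iff.1 hx
    have h1 : e.Hi x ∈ closedBall (0:ℂ) 1 := FN_mapC h.mapBi h.mapSi hx
    have h2 : F.act (e.θ.symm g) (e.Hi x) ∈ closedBall (0:ℂ) 1 :=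
      mem_closedBall_zero_iff.2 (act_le F _ (mem_closedBall_zero_iff.1 h1))
    have h3 := h.equi (e.θ.symm g) (e.Hi x) h1
    rw [h.right x hx, MulEquiv.apply_symm_apply] at h3
    rw [← h3, h.left _ h2]
  orient := by
    obtain ⟨L, hL, hL2⟩ := h.orient
    refine ⟨fun z => -L (e.Hi z),
      (hL.comp (h.conti.mono sphere_subset_closedBall) h.mapSi).neg, fun z hz => ?_⟩
    have h1 : e.H (e.Hi z) / e.Hi z = Complex.exp (L (e.Hi z)) := hL2 (e.Hi z) (h.mapSi hz)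
    have h3 := FN_ne (h.mapSi hz)
    have h4 := FN_ne hz
    rw [h.right z (sphere_subset_closedBall hz)] at h1
    show e.Hi z / z = Complex.exp (-L (e.Hi z))
    rw [Complex.exp_neg, ← h1, inv_div]

theorem Norm.iter {e : Elt Γ} (h : Norm F e) (n : ℕ) : Norm F (e.iter n) := by
  induction n with
  | zero => exact h
  | succ n ih => exact ih.comp h

theorem Norm.mapC {e : Elt Γ} (h : Norm F e) : MapsTo e.H (closedBall 0 1) (closedBall 0 1) :=
  FN_mapC h.mapB h.mapS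

theorem Norm.mapCi {e : Elt Γ} (h : Norm F e) : MapsTo e.Hi (closedBall 0 1) (closedBall 0 1) :=
  FN_mapC h.mapBi h.mapSi

theorem Norm.inj {e : Elt Γ} (h : Norm F e) : InjOn e.H (closedBall 0 1) := by
  intro x hx y hy hxy
  rw [← h.left x hx, ← h.left y hy, hxy]

theorem FN_lim {e : Elt Γ} (h : Norm F e) {ξ : ℂ} (hξ : ξ ∈ F.lim) : e.H ξ ∈ F.lim := by
  obtain ⟨x, hx, hlim⟩ := mem_closure_iff_seq_limit.1 hξ.2
  choose g hg using hx
  have h1 : ξ ∈ closedBall (0:ℂ) 1 := by simpa using hξ.1.le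
  have h2 : Tendsto (fun n => e.H (x n)) atTop (𝓝 (e.H ξ)) := by
    refine (h.cont ξ h1).tendsto.comp (tendsto_nhdsWithin_iff.2 ⟨hlim, Eventually.of_forall fun n => ?_⟩)
    rw [← hg n]
    exact mem_closedBall_zero_iff.2 (act_le F _ (by simp))
  have h3 : Tendsto (fun n => F.act (e.θ (g n)) (e.H 0)) atTop (𝓝 (e.H ξ)) := by
    refine h2.congr fun n => ?_
    rw [← hg n]
    exact h.equi (g n) 0 (by simp)
  have h4 : ‖e.H ξ‖ = 1 := by
    have := h.mapS (show ξ ∈ sphere (0:ℂ) 1 by simpa using hξ.1)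
    simpa using this
  have h5 : ‖e.H 0‖ < 1 := by
    have := h.mapB (show (0:ℂ) ∈ ball (0:ℂ) 1 by simp)
    simpa using this
  exact lim_of_seq F h5 h4 h3

theorem Norm.lim_iff {e : Elt Γ} (h : Norm F e) {ξ : ℂ} (hξ : ‖ξ‖ = 1) :
    e.H ξ ∈ F.lim ↔ ξ ∈ F.lim := by
  refine ⟨fun h1 => ?_, FN_lim h⟩
  have h2 := FN_lim h.inv h1
  have h3 : e.inv.H (e.H ξ) = ξ := h.left ξ (by simpa using hξ.le)
  rwa [h3] at h2

theorem Norm.equi_inv {e : Elt Γ} (h : Norm F e) (g : Γ) {x : ℂ} (hx : x ∈ closedBall (0:ℂ) 1) :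
    e.Hi (F.act g x) = F.act (e.θ.symm g) (e.Hi x) :=
  h.inv.equi g x hx

theorem Elt.inv_cen (e : Elt Γ) : e.inv.cen = e.cen := by
  ext g
  show e.θ.symm g = g ↔ e.θ g = g
  constructor
  · intro h
    rw [← h, MulEquiv.apply_symm_apply, h]
  · intro h
    rw [← h, MulEquiv.symm_apply_apply, h]

end TN

end S_H12_TN_FN
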