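import Pool.Agent.H12.KS.K02
import Pool.Agent.H12.KS.K11

/-! Joined modules of the proof of MP_8a27c0_an (one section per module). -/

section S_H57_TG_TGDefs

/-!
Project MP_8a27c0_TN, block B1 (helper57): gaps of the limit set (section 3.5 of the note).  Definitions.
For `p ≠ q` on the unit circle the function `eta p q` is real on the circle minus `p` and positive exactly on the open arc
that starts at `q` and ends at `p` in the counterclockwise direction.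
-/

namespace TN

open Metric Set Filter Topology DS

/-- the open arc of the circle where `eta p q` is positive (counterclockwise from `q` to `p`) -/
def Arc (p q : ℂ) : Set ℂ := {ξ | ‖ξ‖ = 1 ∧ 0 < (eta p q ξ).re}

variable {Γ : Type} [Group Γ]

/-- `Arc p q` is a component of the complement of the limit set in the circle -/
structure IsGap (F : Fuchs Γ) (p q : ℂ) : Prop where
  mp : p ∈ F.lim
  mq : q ∈ F.lim
  ne : p ≠ q
  gap : ∀ ξ ∈ Arc p q, ξ ∉ F.lim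

/-- a real coordinate on the circle minus the point `ξ`, increasing counterclockwise
(`- cot (θ / 2)` for `x = ξ exp (i θ)`) -/
noncomputable def tco (ξ x : ℂ) : ℝ := (Complex.I * (ξ + x) / (ξ - x)).re

theorem Arc.ne {p q ξ : ℂ} (h : ξ ∈ Arc p q) : ξ ≠ p := by
  rintro rfl
  have := h.2
  simp [eta] at this

theorem Arc.ne' {p q ξ : ℂ} (h : ξ ∈ Arc p q) : ξ ≠ q := by
  rintro rfl
  have := h.2
  simp [eta] at this

end TN

end S_H57_TG_TGDefs

section S_H57_TG_GPA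

/-!
GPA (equivariance of `eta`; images of gaps).

`eta_act`.  `conj q = q⁻¹`, so `1 - p conj q = conj q (q - p)` and `eta p q x = I conj q (q - p)(x - q)/(p - x)`; the same for the images
(`‖act g q‖ = 1`).  By `mob_sub` (MB), `β = F.b g`, `u = F.u g`: `act g x - act g q = u (1-|β|²)(x - q)/((1 - conj β x)(1 - conj β q))` etc.  So for
`x ≠ p`: `eta (gp) (gq) (gx) = eta p q x * [conj (gq) u q (1-|β|²)/(1 - conj β q)²]`, and with
`gq = u (q - β)/(1 - conj β q)`, `conj (gq) = conj u (conj q - conj β)/(1 - β conj q)`, `(conj q - conj β) = conj q (1 - conj β q)`, the bracket is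
`(1-|β|²)/((1 - β conj q)(1 - conj β q)) = (1-|β|²)/‖1 - conj β q‖² = ‖dact g q‖` (`mobD_norm`).  For `x = p` both sides are `0`
(division by zero; `act g p - act g p = 0`), `act g x ≠ act g p` for `x ≠ p` (`act_inj`).
`arc_act`: from `eta_act`, `‖dact g q‖ > 0` (`dact_ne`).
`gap_act`: if `ξ ∈ Arc (gp) (gq)` then `act g⁻¹ ξ ∈ Arc p q` (`arc_act` for `g⁻¹`, `act_inv_act`), so `act g⁻¹ ξ ∉ lim`, and `lim_inv_iff`.
-/

namespace TN

open Metric Set Filter Topology DS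

variable {Γ : Type} [Group Γ]

/-- the algebraic identity behind `eta_act` -/
private theorem GPA_id {u b B p q x : ℂ} (hu : u ≠ 0) (hq0 : q ≠ 0) (hqb : q - b ≠ 0)
    (hcp : 1 - B * p ≠ 0) (hcq : 1 - B * q ≠ 0) (hcx : 1 - B * x ≠ 0) (hbb : 1 - B * b ≠ 0)
    (hpx : p - x ≠ 0) :
    Complex.I * (1 - u * (p - b) / (1 - B * p) * (u * (q - b) / (1 - B * q))⁻¹) *
        (u * (x - b) / (1 - B * x) - u * (q - b) / (1 - B * q)) /
        (u * (p - b) / (1 - B * p) - u * (x - b) / (1 - B * x)) =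
      (1 - B * b) / ((1 - B * q) * ((q - b) / q)) *
        (Complex.I * (1 - p * q⁻¹) * (x - q) / (p - x)) := by
  have h1 : u * (p - b) / (1 - B * p) - u * (x - b) / (1 - B * x) =
      u * (1 - B * b) * (p - x) / ((1 - B * p) * (1 - B * x)) := by
    rw [div_sub_div _ _ hcp hcx]
    congr 1
    ring
  have h2 : u * (x - b) / (1 - B * x) - u * (q - b) / (1 - B * q) =
      u * (1 - B * b) * (x - q) / ((1 - B * x) * (1 - B * q)) := by
    rw [div_sub_div _ _ hcx hcq]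
    congr 1
    ring
  have h3 : 1 - u * (p - b) / (1 - B * p) * (u * (q - b) / (1 - B * q))⁻¹ =
      (1 - B * b) * (q - p) / ((1 - B * p) * (q - b)) := by
    rw [inv_div, div_mul_div_comm, one_sub_div (mul_ne_zero hcp (mul_ne_zero hu hqb)),
      ← mul_div_mul_left _ ((1 - B * p) * (q - b)) hu]
    congr 1 <;> ring
  rw [h1, h2, h3]
  field_simp

theorem eta_act (F : Fuchs Γ) (g : Γ) {p q x : ℂ} (hp : ‖p‖ = 1) (hq : ‖q‖ = 1) (hx : ‖x‖ ≤ 1) :
    eta (F.act g p) (F.act g q) (F.act g x) = (‖F.dact g q‖ : ℂ) * eta p q x := by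
  by_cases hpx : p = x
  · subst hpx
    simp [eta]
  have hb := F.hb g
  have hu := F.hu g
  have hq0 : q ≠ 0 := by
    rintro rfl
    simp at hq
  have hqb : q - F.b g ≠ 0 := by
    rw [sub_ne_zero]
    rintro rfl
    rw [hq] at hb
    exact lt_irrefl _ hb
  have hcp := den_ne hb hp.le
  have hcq := den_ne hb hq.le
  have hcx := den_ne hb hx
  have hbb := MB_bb_ne hb
  have hQ : (starRingEnd ℂ) (F.act g q) = (F.act g q)⁻¹ := by
    rw [Complex.inv_eq_conj (act_eq F g hq)]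
  have hq' : (starRingEnd ℂ) q = q⁻¹ := by
    rw [Complex.inv_eq_conj hq]
  have hd : ((‖F.dact g q‖ : ℝ) : ℂ) = (1 - (starRingEnd ℂ) (F.b g) * F.b g) /
      ((1 - (starRingEnd ℂ) (F.b g) * q) * ((q - F.b g) / q)) := by
    have h1 : ‖F.dact g q‖ = (1 - ‖F.b g‖ ^ 2) / ‖1 - (starRingEnd ℂ) (F.b g) * q‖ ^ 2 :=
      mobD_norm hu hb
    rw [h1]
    push_cast
    rw [← Complex.conj_mul', ← Complex.conj_mul']
    have h2 : (starRingEnd ℂ) (1 - (starRingEnd ℂ) (F.b g) * q) = (q - F.b g) / q := by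
      rw [map_sub, map_one, map_mul, Complex.conj_conj, hq']
      field_simp
    rw [h2, mul_comm ((q - F.b g) / q)]
  have key := GPA_id (u := F.u g) (b := F.b g) (B := (starRingEnd ℂ) (F.b g)) (p := p) (q := q)
    (x := x) (MB_u_ne hu) hq0 hqb hcp hcq hcx hbb (sub_ne_zero.2 hpx)
  unfold eta
  rw [hQ, hq', hd]
  exact key

theorem arc_act (F : Fuchs Γ) (g : Γ) {p q ξ : ℂ} (hp : ‖p‖ = 1) (hq : ‖q‖ = 1) (hξ : ‖ξ‖ = 1) :
    F.act g ξ ∈ Arc (F.act g p) (F.act g q) ↔ ξ ∈ Arc p q := by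
  have h1 := eta_act F g hp hq hξ.le
  have h2 : 0 < ‖F.dact g q‖ := norm_pos_iff.2 (dact_ne F g hq.le)
  have h3 : (eta (F.act g p) (F.act g q) (F.act g ξ)).re = ‖F.dact g q‖ * (eta p q ξ).re := by
    rw [h1, Complex.re_ofReal_mul]
  constructor
  · rintro ⟨-, h⟩
    rw [h3] at h
    exact ⟨hξ, (mul_pos_iff_of_pos_left h2).1 h⟩
  · rintro ⟨-, h⟩
    refine ⟨act_eq F g hξ, ?_⟩
    rw [h3]
    exact mul_pos h2 h

theorem gap_act (F : Fuchs Γ) (g : Γ) {p q : ℂ} (h : IsGap F p q) :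
    IsGap F (F.act g p) (F.act g q) := by
  have hp := lim_sphere F h.mp
  have hq := lim_sphere F h.mq
  refine ⟨lim_inv F g h.mp, lim_inv F g h.mq, ?_, ?_⟩
  · intro he
    exact h.ne (act_inj F g (by simpa using hp.le) (by simpa using hq.le) he)
  · intro ξ hξ hl
    have hn := hξ.1
    have h1 : F.act g (F.act g⁻¹ ξ) = ξ := act_act_inv F g hn.le
    have h2 : ‖F.act g⁻¹ ξ‖ = 1 := act_eq F g⁻¹ hn
    rw [← h1] at hξ hl
    rw [arc_act F g hp hq h2] at hξ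
    exact h.gap _ hξ ((lim_inv_iff F g h2).1 hl)

end TN

end S_H57_TG_GPA

section S_H57_TG_GPC

/-!
GPC (real coordinate on the circle minus a point).  `tco ξ x = re (I (ξ + x)/(ξ - x))`, `‖ξ‖ = ‖x‖ = 1`, `x ≠ ξ`.
`tco_eq`: `I (ξ + x)/(ξ - x)` is real: its conjugate is `- I (ξ⁻¹ + x⁻¹)/(ξ⁻¹ - x⁻¹) = - I (x + ξ)/(x - ξ)`.
`tco_inv`: from `t (ξ - x) = I (ξ + x)`: `x (t + I) = ξ (t - I)`.  So `x = ξ (t - I)/(t + I)` (`t + I ≠ 0` as `t` is real), and `tco` is injective.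
For two such points: `x - y = ξ * 2 I (tx - ty)/((tx + I)(ty + I))`, and `conj q = q⁻¹ = ξ⁻¹ (tq + I)/(tq - I)`,
`1 - p conj q = conj q (q - p)`.  Insert in `eta p q x = I conj q (q - p)(x - q)/(p - x)`:
`eta_tco`: `= 2 (tp - tq)(tx - tq)/((1 + tq²)(tp - tx))` for `x ≠ p` (`(tq - I)(tq + I) = 1 + tq²`).
`eta_tco_self` (`x = ξ`): `ξ - q = ξ 2 I/(tq + I)`, `p - ξ = - ξ 2 I/(tp + I)`: `eta p q ξ = 2 (tq - tp)/(1 + tq²)`.
`tco_cont`: quotient with nonzero denominator.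
-/

namespace TN

open Metric Set Filter Topology DS

private theorem GPC_conj {x : ℂ} (hx : ‖x‖ = 1) : (starRingEnd ℂ) x * x = 1 := by
  rw [← Complex.inv_eq_conj hx]
  refine inv_mul_cancel₀ ?_
  rintro rfl
  simp at hx

private theorem GPC_addI (t : ℝ) : (t : ℂ) + Complex.I ≠ 0 := by
  intro h
  have := congrArg Complex.im h
  simp at this

private theorem GPC_subI (t : ℝ) : (t : ℂ) - Complex.I ≠ 0 := by
  intro h
  have := congrArg Complex.im h
  simp at this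

private theorem GPC_one (t : ℝ) : (1 : ℂ) + (t : ℂ) ^ 2 = ((t : ℂ) - Complex.I) * ((t : ℂ) + Complex.I) := by
  linear_combination Complex.I_sq

theorem tco_eq {ξ x : ℂ} (hξ : ‖ξ‖ = 1) (hx : ‖x‖ = 1) (hne : x ≠ ξ) :
    (tco ξ x : ℂ) = Complex.I * (ξ + x) / (ξ - x) := by
  unfold tco
  rw [← Complex.conj_eq_iff_re]
  have h1 := GPC_conj hξ
  have h2 := GPC_conj hx
  have h3 : ξ - x ≠ 0 := sub_ne_zero.2 hne.symm
  have h4 : (starRingEnd ℂ) ξ - (starRingEnd ℂ) x ≠ 0 := by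
    rw [← map_sub]
    exact (map_ne_zero _).2 h3
  rw [map_div₀, map_mul, map_add, map_sub, Complex.conj_I, div_eq_div_iff h4 h3]
  linear_combination (-2 * Complex.I) * h1 + (2 * Complex.I) * h2

theorem tco_inv {ξ x : ℂ} (hξ : ‖ξ‖ = 1) (hx : ‖x‖ = 1) (hne : x ≠ ξ) :
    x = ξ * ((tco ξ x : ℂ) - Complex.I) / ((tco ξ x : ℂ) + Complex.I) := by
  have h1 := tco_eq hξ hx hne
  have h3 : ξ - x ≠ 0 := sub_ne_zero.2 hne.symm
  rw [eq_div_iff h3] at h1
  rw [eq_div_iff (GPC_addI _)]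
  linear_combination -h1

theorem tco_inj {ξ x y : ℂ} (hξ : ‖ξ‖ = 1) (hx : ‖x‖ = 1) (hxne : x ≠ ξ) (hy : ‖y‖ = 1)
    (hyne : y ≠ ξ) (h : tco ξ x = tco ξ y) : x = y := by
  rw [tco_inv hξ hx hxne, tco_inv hξ hy hyne, h]

theorem tco_cont (ξ : ℂ) : ContinuousOn (tco ξ) {ξ}ᶜ := by
  unfold tco
  refine Complex.continuous_re.comp_continuousOn ?_
  refine ContinuousOn.div ?_ ?_ ?_
  · exact (continuous_const.mul (continuous_const.add continuous_id)).continuousOn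
  · exact (continuous_const.sub continuous_id).continuousOn
  · intro x hx
    exact sub_ne_zero.2 (fun h => hx (h ▸ rfl))

private theorem GPC_one_sub {ξ p q : ℂ} {P Q : ℝ} (hξ : ‖ξ‖ = 1)
    (hp : p = ξ * ((P : ℂ) - Complex.I) / ((P : ℂ) + Complex.I))
    (hq : q = ξ * ((Q : ℂ) - Complex.I) / ((Q : ℂ) + Complex.I)) :
    1 - p * (starRingEnd ℂ) q =
      2 * Complex.I * ((Q : ℂ) - P) / (((P : ℂ) + Complex.I) * ((Q : ℂ) - Complex.I)) := by
  have h1 := GPC_conj hξ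
  have hP := GPC_addI P
  have hQ := GPC_subI Q
  have hcq : (starRingEnd ℂ) q =
      (starRingEnd ℂ) ξ * ((Q : ℂ) + Complex.I) / ((Q : ℂ) - Complex.I) := by
    rw [hq, map_div₀, map_mul, map_sub, map_add, Complex.conj_I, Complex.conj_ofReal,
      sub_neg_eq_add, ← sub_eq_add_neg]
  have h2 : p * (starRingEnd ℂ) q = (((P : ℂ) - Complex.I) * ((Q : ℂ) + Complex.I)) /
      (((P : ℂ) + Complex.I) * ((Q : ℂ) - Complex.I)) := by
    rw [hcq, hp, div_mul_div_comm]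
    congr 1
    linear_combination (((P : ℂ) - Complex.I) * ((Q : ℂ) + Complex.I)) * h1
  rw [h2, eq_div_iff (mul_ne_zero hP hQ), sub_mul, div_mul_cancel₀ _ (mul_ne_zero hP hQ)]
  ring

theorem eta_tco {ξ p q x : ℂ} (hξ : ‖ξ‖ = 1) (hp : ‖p‖ = 1) (hq : ‖q‖ = 1) (hx : ‖x‖ = 1)
    (hpn : p ≠ ξ) (hqn : q ≠ ξ) (hxn : x ≠ ξ) (hxp : x ≠ p) :
    eta p q x = ((2 * (tco ξ p - tco ξ q) * (tco ξ x - tco ξ q) /
      ((1 + tco ξ q ^ 2) * (tco ξ p - tco ξ x)) : ℝ) : ℂ) := by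
  have hξ0 : ξ ≠ 0 := by
    rintro rfl
    simp at hξ
  have hp' := tco_inv hξ hp hpn
  have hq' := tco_inv hξ hq hqn
  have hx' := tco_inv hξ hx hxn
  have hPT : tco ξ p ≠ tco ξ x := fun h => hxp (tco_inj hξ hp hpn hx hxn h).symm
  have e1 := GPC_one_sub hξ hp' hq'
  generalize tco ξ p = P at *
  generalize tco ξ q = Q at *
  generalize tco ξ x = T at *
  have hP := GPC_addI P
  have hQ := GPC_addI Q
  have hQ' := GPC_subI Q
  have hT := GPC_addI T
  have hPT' : (P : ℂ) - T ≠ 0 := sub_ne_zero.2 (by exact_mod_cast hPT)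
  have hI := Complex.I_ne_zero
  have e2 : x - q = ξ * (2 * Complex.I * ((T : ℂ) - Q)) /
      (((T : ℂ) + Complex.I) * ((Q : ℂ) + Complex.I)) := by
    rw [hx', hq', div_sub_div _ _ hT hQ]
    congr 1
    ring
  have e3 : p - x = ξ * (2 * Complex.I * ((P : ℂ) - T)) /
      (((P : ℂ) + Complex.I) * ((T : ℂ) + Complex.I)) := by
    rw [hp', hx', div_sub_div _ _ hP hT]
    congr 1
    ring
  have e4 : Complex.I * (2 * Complex.I * ((Q : ℂ) - P)) = 2 * ((P : ℂ) - Q) := by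
    linear_combination (2 * ((Q : ℂ) - P)) * Complex.I_sq
  unfold eta
  rw [e1, e2, e3]
  push_cast
  rw [GPC_one Q, mul_div_assoc' Complex.I, e4]
  field_simp

theorem eta_tco_self {ξ p q : ℂ} (hξ : ‖ξ‖ = 1) (hp : ‖p‖ = 1) (hq : ‖q‖ = 1)
    (hpn : p ≠ ξ) (hqn : q ≠ ξ) :
    eta p q ξ = ((2 * (tco ξ q - tco ξ p) / (1 + tco ξ q ^ 2) : ℝ) : ℂ) := by
  have hξ0 : ξ ≠ 0 := by
    rintro rfl
    simp at hξ
  have hp' := tco_inv hξ hp hpn
  have hq' := tco_inv hξ hq hqn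
  have e1 := GPC_one_sub hξ hp' hq'
  generalize tco ξ p = P at *
  generalize tco ξ q = Q at *
  have hP := GPC_addI P
  have hQ := GPC_addI Q
  have hQ' := GPC_subI Q
  have hI := Complex.I_ne_zero
  have e2 : ξ - q = ξ * (2 * Complex.I) / ((Q : ℂ) + Complex.I) := by
    rw [hq', eq_div_iff hQ, sub_mul, div_mul_cancel₀ _ hQ]
    ring
  have e3 : p - ξ = -(ξ * (2 * Complex.I)) / ((P : ℂ) + Complex.I) := by
    rw [hp', eq_div_iff hP, sub_mul, div_mul_cancel₀ _ hP]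
    ring
  have e4 : Complex.I * (2 * Complex.I * ((Q : ℂ) - P)) = -(2 * ((Q : ℂ) - P)) := by
    linear_combination (2 * ((Q : ℂ) - P)) * Complex.I_sq
  unfold eta
  rw [e1, e2, e3]
  push_cast
  rw [GPC_one Q, mul_div_assoc' Complex.I, e4]
  field_simp

end TN

end S_H57_TG_GPC

section S_H57_TG_GPD

/-!
GPD (existence and uniqueness of complementary arcs).  Everything through the coordinate `t = tco ξ` of GPC at the point `ξ`.

`arc_exists`: `t` is continuous on the compact set `L` (closed, contained in the circle, `ξ ∉ L`; `tco_cont`); let `p ∈ L` be a point where it is minimal and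
`q ∈ L` one where it is maximal; `p ≠ q`, more precisely `t p < t q`, because `L` has two points and `t` is injective (`tco_inj`).  `eta_tco_self`:
`eta p q ξ = 2 (tq - tp)/(1+tq²) > 0`, so `ξ ∈ Arc p q`.  Let `x ∈ Arc p q`, `x ∈ L`: `x ≠ ξ`, `x ≠ p` (`Arc.ne`), `tp < tx ≤ tq`, and
by `eta_tco` the real number `eta p q x = 2 (tp-tq)(tx-tq)/((1+tq²)(tp-tx))` is `≤ 0` (numerator `≥ 0`, denominator `< 0`): contradiction.

`arc_unique`: the four points are different from `ξ` (`Arc.ne`, `Arc.ne'`).  `ξ ∈ Arc p q` gives `tp < tq`, `ξ ∈ Arc p' q'` gives `tp' < tq'` (`eta_tco_self`).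
A point `x ≠ ξ` of the circle with `t x < t p` is in `Arc p q`, and one with `t x > t q` too (`eta_tco`, signs).  So `h1`: `tp ≤ tp'`, `h3`: `tp' ≤ tp`,
so `p = p'` (`tco_inj`); `h2`: `tq' ≤ tq`, `h4`: `tq ≤ tq'`, so `q = q'`.
-/

namespace TN

open Metric Set Filter Topology DS

theorem arc_exists {L : Set ℂ} (hL : IsClosed L) (hs : ∀ x ∈ L, ‖x‖ = 1)
    (h2 : ∃ a ∈ L, ∃ b ∈ L, a ≠ b) {ξ : ℂ} (hξ : ‖ξ‖ = 1) (h : ξ ∉ L) :
    ∃ p ∈ L, ∃ q ∈ L, p ≠ q ∧ ξ ∈ Arc p q ∧ ∀ x ∈ Arc p q, x ∉ L := by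
  obtain ⟨a, ha, b, hb, hab⟩ := h2
  have hne : ∀ x ∈ L, x ≠ ξ := fun x hx he => h (he ▸ hx)
  have hK : IsCompact L := (isCompact_closedBall (0:ℂ) 1).of_isClosed_subset hL
    fun x hx => by simpa using (hs x hx).le
  have hcont : ContinuousOn (tco ξ) L := (tco_cont ξ).mono fun x hx => hne x hx
  obtain ⟨p, hp, hpm⟩ := hK.exists_isMinOn ⟨a, ha⟩ hcont
  obtain ⟨q, hq, hqm⟩ := hK.exists_isMaxOn ⟨a, ha⟩ hcont
  have hpm' : ∀ x ∈ L, tco ξ p ≤ tco ξ x := fun x hx => hpm hx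
  have hqm' : ∀ x ∈ L, tco ξ x ≤ tco ξ q := fun x hx => hqm hx
  have hlt : tco ξ p < tco ξ q := by
    by_contra hcon
    have h1 : tco ξ a = tco ξ b := by
      have h2 := hpm' a ha
      have h3 := hpm' b hb
      have h4 := hqm' a ha
      have h5 := hqm' b hb
      linarith
    exact hab (tco_inj hξ (hs a ha) (hne a ha) (hs b hb) (hne b hb) h1)
  have hpq : p ≠ q := fun he => by rw [he] at hlt; exact lt_irrefl _ hlt
  refine ⟨p, hp, q, hq, hpq, ⟨hξ, ?_⟩, fun x hx hxL => ?_⟩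
  · rw [eta_tco_self hξ (hs p hp) (hs q hq) (hne p hp) (hne q hq), Complex.ofReal_re]
    exact div_pos (by linarith) (by positivity)
  · have h1 := hx.2
    have hxp := Arc.ne hx
    rw [eta_tco hξ (hs p hp) (hs q hq) (hs x hxL) (hne p hp) (hne q hq) (hne x hxL) hxp,
      Complex.ofReal_re] at h1
    have h2 : tco ξ p < tco ξ x := lt_of_le_of_ne (hpm' x hxL) fun he =>
      hxp (tco_inj hξ (hs x hxL) (hne x hxL) (hs p hp) (hne p hp) he.symm)
    have h3 := hqm' x hxL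
    refine absurd h1 (not_lt.2 ?_)
    apply div_nonpos_of_nonneg_of_nonpos
    · nlinarith
    · have : 0 < 1 + tco ξ q ^ 2 := by positivity
      nlinarith

/-- points to the left of `p` or to the right of `q` are in the arc -/
theorem GPD_mem {p q x ξ : ℂ} (hξ : ‖ξ‖ = 1) (hp : ‖p‖ = 1) (hq : ‖q‖ = 1) (hx : ‖x‖ = 1)
    (hpn : p ≠ ξ) (hqn : q ≠ ξ) (hxn : x ≠ ξ) (hlt : tco ξ p < tco ξ q)
    (h : tco ξ x < tco ξ p ∨ tco ξ q < tco ξ x) : x ∈ Arc p q := by
  refine ⟨hx, ?_⟩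
  have hxp : x ≠ p := by
    rintro rfl
    rcases h with h | h
    · exact lt_irrefl _ h
    · exact lt_asymm h hlt
  rw [eta_tco hξ hp hq hx hpn hqn hxn hxp, Complex.ofReal_re]
  have h0 : 0 < 1 + tco ξ q ^ 2 := by positivity
  rcases h with h | h
  · apply div_pos
    · nlinarith [mul_pos (sub_pos.2 hlt) (sub_pos.2 (h.trans hlt))]
    · exact mul_pos h0 (sub_pos.2 h)
  · have h1 : 0 < (tco ξ q - tco ξ p) * (tco ξ x - tco ξ q) := mul_pos (sub_pos.2 hlt) (sub_pos.2 h)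
    apply div_pos_of_neg_of_neg
    · nlinarith
    · have h2 : tco ξ p - tco ξ x < 0 := by linarith
      exact mul_neg_of_pos_of_neg h0 h2

theorem GPD_lt {p q ξ : ℂ} (hp : ‖p‖ = 1) (hq : ‖q‖ = 1) (h : ξ ∈ Arc p q) :
    tco ξ p < tco ξ q := by
  have h1 := h.2
  rw [eta_tco_self h.1 hp hq (Arc.ne h).symm (Arc.ne' h).symm, Complex.ofReal_re] at h1
  by_contra hcon
  refine absurd h1 (not_lt.2 ?_)
  apply div_nonpos_of_nonpos_of_nonneg
  · linarith
  · positivity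

theorem arc_unique {p q p' q' ξ : ℂ} (hp : ‖p‖ = 1) (hq : ‖q‖ = 1) (hp' : ‖p'‖ = 1)
    (hq' : ‖q'‖ = 1) (h : ξ ∈ Arc p q) (h' : ξ ∈ Arc p' q') (h1 : p' ∉ Arc p q) (h2 : q' ∉ Arc p q)
    (h3 : p ∉ Arc p' q') (h4 : q ∉ Arc p' q') : p = p' ∧ q = q' := by
  have hξ := h.1
  have np := (Arc.ne h).symm
  have nq := (Arc.ne' h).symm
  have np' := (Arc.ne h').symm
  have nq' := (Arc.ne' h').symm
  have l1 := GPD_lt hp hq h
  have l2 := GPD_lt hp' hq' h'
  have e1 : tco ξ p ≤ tco ξ p' := by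
    by_contra hc
    exact h1 (GPD_mem hξ hp hq hp' np nq np' l1 (Or.inl (not_le.1 hc)))
  have e2 : tco ξ p' ≤ tco ξ p := by
    by_contra hc
    exact h3 (GPD_mem hξ hp' hq' hp np' nq' np l2 (Or.inl (not_le.1 hc)))
  have e3 : tco ξ q' ≤ tco ξ q := by
    by_contra hc
    exact h2 (GPD_mem hξ hp hq hq' np nq nq' l1 (Or.inr (not_le.1 hc)))
  have e4 : tco ξ q ≤ tco ξ q' := by
    by_contra hc
    exact h4 (GPD_mem hξ hp' hq' hq np' nq' nq l2 (Or.inr (not_le.1 hc)))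
  exact ⟨tco_inj hξ hp np hp' np' (le_antisymm e1 e2), tco_inj hξ hq nq hq' nq' (le_antisymm e4 e3)⟩

end TN

end S_H57_TG_GPD
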