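import Pool.Agent.H12.KS.K11
import Pool.Agent.H12.KS.K12
import Pool.Agent.H12.KS.K13

/-! Joined modules of the proof of MP_8a27c0_an (one section per module). -/

section S_H57_TG_GPB

/-!
GPB (half planes of disjoint arcs are disjoint).  All points `p, q, p', q'` on the unit circle, so `conj q = q⁻¹`,
`1 - p conj q = conj q (q - p)`, `eta p q x = I conj q (q - p)(x - q)/(p - x)`, and for two points of the circle
`(s - t)² = - |s - t|² s t`  (divide by `s t`: `s/t - 2 + t/s = 2 re (s conj t) - 2`).  Put `w = eta p q x`, `P' = eta p q p'`, `Q' = eta p q q'`.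
`eta_change`: by `eta_sub` with `A = I (1 - p conj q)(p - q)`: `P' - Q' = A (p'-q')/((p-p')(p-q'))`, `w - Q' = A (x-q')/((p-x)(p-q'))`,
`P' - w = A (p'-x)/((p-p')(p-x))`, so `(P'-Q')(w-Q')/(P'-w) = A (p'-q')(x-q')/((p'-x)(p-q')²)`, and
`A (p'-q')/((p-q')² I conj q' (q'-p')) = conj q q' (q-p)²/(p-q')² = |q-p|²/|p-q'|²`.  (`x = p'`: both sides `0`.)
`eta_change'`: `1/(P'-w) = (p-p')(p-x)/(A (p'-x))`, `eta p' p x = I conj p (p-p')(x-p)/(p'-x)`, and `- I conj p A = - conj p conj q (q-p)² = |q-p|²`.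
`eta_swap`: `eta p q q' * eta p q' q = conj q conj q' (q-q')² = - |q-q'|²`.
`eta_diff`: `eta p' q' p * (P' - Q') = - |p-q|² |p'-q'|²/|p-p'|²` (`A = I p |p-q|²`).

`half_disj`: on the circle `eta` is real (`eta_im`), so `x ∉ Arc p q`, `‖x‖ = 1` means `(eta p q x).re ≤ 0`.
Case `p' = p`: if `q' ≠ q` then `eta_swap` says that one of `(eta p q q').re`, `(eta p q' q).re` is positive: contradiction to `h2`, `h4`.
Case `p' ≠ p`, `q' = p`: `P' ≤ 0` (`h1`), `0 < re w`: `re (P' - w) < 0`, so `re (1/(P'-w)) < 0` and by `eta_change'` `(eta p' p x).re < 0`.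
Case `p' ≠ p`, `q' ≠ p`: `P', Q' ≤ 0` (`h1`, `h2`), `(eta p' q' p).re ≤ 0` (`h3`), so by `eta_diff` `P' - Q' > 0`.  By `eta_change` `(eta p' q' x).re` has the sign of
`re ((w-Q')/(P'-w)) = - (|w|² - (P'+Q') re w + P' Q')/|P'-w|² < 0`.
-/

namespace TN

open Metric Set Filter Topology DS

private theorem GPB_ne {s : ℂ} (hs : ‖s‖ = 1) : s ≠ 0 := by
  rintro rfl
  simp at hs

private theorem GPB_nsq {s t : ℂ} (hs : ‖s‖ = 1) (ht : ‖t‖ = 1) :
    ((‖s - t‖ ^ 2 : ℝ) : ℂ) = (s - t) * (s⁻¹ - t⁻¹) := by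
  rw [Complex.inv_eq_conj hs, Complex.inv_eq_conj ht, ← map_sub, Complex.mul_conj,
    Complex.normSq_eq_norm_sq]

private theorem GPB_eta {p q x : ℂ} (hq : ‖q‖ = 1) :
    eta p q x = Complex.I * ((q - p) * q⁻¹) * (x - q) / (p - x) := by
  have h0 := GPB_ne hq
  rw [eta, ← Complex.inv_eq_conj hq, sub_mul, mul_inv_cancel₀ h0]

private theorem GPB_sub {p q x y : ℂ} (hq : ‖q‖ = 1) (hx : x ≠ p) (hy : y ≠ p) :
    eta p q x - eta p q y =
      Complex.I * ((q - p) * q⁻¹) * (p - q) * (x - y) / ((p - x) * (p - y)) := by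
  have h0 := GPB_ne hq
  have e : (q - p) * q⁻¹ = 1 - p * q⁻¹ := by rw [sub_mul, mul_inv_cancel₀ h0]
  rw [eta_sub hx hy, ← Complex.inv_eq_conj hq, e]

theorem eta_change {p q p' q' x : ℂ} (hp : ‖p‖ = 1) (hq : ‖q‖ = 1) (hp' : ‖p'‖ = 1) (hq' : ‖q'‖ = 1)
    (hpq : p ≠ q) (h1 : p' ≠ p) (h2 : q' ≠ p) (hx : x ≠ p) :
    eta p' q' x * (‖p - q‖ ^ 2 : ℝ) = (‖p - q'‖ ^ 2 : ℝ) * ((eta p q p' - eta p q q') *
      (eta p q x - eta p q q') / (eta p q p' - eta p q x)) := by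
  by_cases hxp : x = p'
  · subst hxp
    simp [eta]
  have n1 := GPB_ne hp
  have n2 := GPB_ne hq
  have n3 := GPB_ne hp'
  have n4 := GPB_ne hq'
  have n5 : p - p' ≠ 0 := sub_ne_zero.2 (Ne.symm h1)
  have n6 : p - q' ≠ 0 := sub_ne_zero.2 (Ne.symm h2)
  have n7 : p - x ≠ 0 := sub_ne_zero.2 (Ne.symm hx)
  have n8 : p' - x ≠ 0 := sub_ne_zero.2 (Ne.symm hxp)
  have n9 : p - q ≠ 0 := sub_ne_zero.2 hpq
  have n10 : q - p ≠ 0 := sub_ne_zero.2 (Ne.symm hpq)
  have hI := Complex.I_ne_zero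
  rw [GPB_nsq hp hq, GPB_nsq hp hq', GPB_sub hq h1 h2, GPB_sub hq hx h2, GPB_sub hq h1 hx,
    GPB_eta hq']
  field_simp
  ring

theorem eta_change' {p q p' x : ℂ} (hp : ‖p‖ = 1) (hq : ‖q‖ = 1) (hp' : ‖p'‖ = 1)
    (hpq : p ≠ q) (h1 : p' ≠ p) (hx : x ≠ p) :
    eta p' p x = (‖p - q‖ ^ 2 : ℝ) / (eta p q p' - eta p q x) := by
  by_cases hxp : x = p'
  · subst hxp
    simp [eta]
  have n1 := GPB_ne hp
  have n2 := GPB_ne hq
  have n3 := GPB_ne hp'
  have n5 : p - p' ≠ 0 := sub_ne_zero.2 (Ne.symm h1)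
  have n7 : p - x ≠ 0 := sub_ne_zero.2 (Ne.symm hx)
  have n8 : p' - x ≠ 0 := sub_ne_zero.2 (Ne.symm hxp)
  have n9 : p - q ≠ 0 := sub_ne_zero.2 hpq
  have n10 : q - p ≠ 0 := sub_ne_zero.2 (Ne.symm hpq)
  have hI := Complex.I_ne_zero
  have hI2 : Complex.I ^ 2 = -1 := Complex.I_sq
  rw [GPB_nsq hp hq, GPB_sub hq h1 hx, GPB_eta hp]
  field_simp
  rw [hI2]
  ring

theorem eta_swap {p q q' : ℂ} (hp : ‖p‖ = 1) (hq : ‖q‖ = 1) (hq' : ‖q'‖ = 1) (h1 : q ≠ p)
    (h2 : q' ≠ p) : eta p q q' * eta p q' q = -(‖q - q'‖ ^ 2 : ℝ) := by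
  have n1 := GPB_ne hp
  have n2 := GPB_ne hq
  have n3 := GPB_ne hq'
  have n5 : p - q ≠ 0 := sub_ne_zero.2 (Ne.symm h1)
  have n6 : p - q' ≠ 0 := sub_ne_zero.2 (Ne.symm h2)
  have hI2 : Complex.I ^ 2 = -1 := Complex.I_sq
  rw [GPB_nsq hq hq', GPB_eta hq, GPB_eta hq']
  field_simp
  rw [hI2]
  ring

theorem eta_diff {p q p' q' : ℂ} (hp : ‖p‖ = 1) (hq : ‖q‖ = 1) (hp' : ‖p'‖ = 1) (hq' : ‖q'‖ = 1)
    (hpq : p ≠ q) (h1 : p' ≠ p) (h2 : q' ≠ p) :
    eta p' q' p * (eta p q p' - eta p q q') =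
      -(‖p - q‖ ^ 2 * ‖p' - q'‖ ^ 2 / ‖p - p'‖ ^ 2 : ℝ) := by
  have n1 := GPB_ne hp
  have n2 := GPB_ne hq
  have n3 := GPB_ne hp'
  have n4 := GPB_ne hq'
  have n5 : p - p' ≠ 0 := sub_ne_zero.2 (Ne.symm h1)
  have n5' : p' - p ≠ 0 := sub_ne_zero.2 h1
  have n6 : p - q' ≠ 0 := sub_ne_zero.2 (Ne.symm h2)
  have hI2 : Complex.I ^ 2 = -1 := Complex.I_sq
  have e : ((‖p - q‖ ^ 2 * ‖p' - q'‖ ^ 2 / ‖p - p'‖ ^ 2 : ℝ) : ℂ) =
      (((‖p - q‖ ^ 2 : ℝ) : ℂ) * ((‖p' - q'‖ ^ 2 : ℝ) : ℂ) / ((‖p - p'‖ ^ 2 : ℝ) : ℂ)) := by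
    push_cast
    ring
  rw [e, GPB_nsq hp hq, GPB_nsq hp' hq', GPB_nsq hp hp', GPB_sub hq h1 h2, GPB_eta hq']
  field_simp
  rw [hI2]
  ring

theorem half_disj {p q p' q' x : ℂ} (hp : ‖p‖ = 1) (hq : ‖q‖ = 1) (hp' : ‖p'‖ = 1) (hq' : ‖q'‖ = 1)
    (hpq : p ≠ q) (hpq' : p' ≠ q') (h1 : p' ∉ Arc p q) (h2 : q' ∉ Arc p q) (h3 : p ∉ Arc p' q')
    (h4 : q ∉ Arc p' q') (hd : p ≠ p' ∨ q ≠ q') (hx : ‖x‖ < 1) (hw : 0 < (eta p q x).re) :
    ¬ 0 < (eta p' q' x).re := by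
  intro hw'
  have r1 : ∀ {s t y : ℂ}, ‖s‖ = 1 → ‖t‖ = 1 → ‖y‖ = 1 → (eta s t y).im = 0 := by
    intro s t y hs ht hy
    rw [eta_im hs ht, hy]
    simp
  have r2 : ∀ {s t y : ℂ}, ‖s‖ = 1 → ‖t‖ = 1 → ‖y‖ = 1 → eta s t y = (((eta s t y).re : ℝ) : ℂ) := by
    intro s t y hs ht hy
    exact Complex.ext (by simp) (by simpa using r1 hs ht hy)
  have a1 : (eta p q p').re ≤ 0 := by
    by_contra h
    push Not at h
    exact h1 ⟨hp', h⟩
  have a2 : (eta p q q').re ≤ 0 := by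
    by_contra h
    push Not at h
    exact h2 ⟨hq', h⟩
  have a3 : (eta p' q' p).re ≤ 0 := by
    by_contra h
    push Not at h
    exact h3 ⟨hp, h⟩
  have a4 : (eta p' q' q).re ≤ 0 := by
    by_contra h
    push Not at h
    exact h4 ⟨hq, h⟩
  have hxp : x ≠ p := by
    rintro rfl
    linarith
  have hpqn : 0 < ‖p - q‖ := norm_pos_iff.2 (sub_ne_zero.2 hpq)
  have hpqn' : 0 < ‖p' - q'‖ := norm_pos_iff.2 (sub_ne_zero.2 hpq')
  by_cases hpp : p' = p
  · subst hpp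
    have hqq : q ≠ q' := by
      rcases hd with h | h
      · exact absurd rfl h
      · exact h
    have e := eta_swap hp hq hq' (Ne.symm hpq) (Ne.symm hpq')
    have hqn : 0 < ‖q - q'‖ := norm_pos_iff.2 (sub_ne_zero.2 hqq)
    have e2 := congrArg Complex.re e
    rw [r2 hp hq hq', r2 hp hq' hq, ← Complex.ofReal_mul, ← Complex.ofReal_neg, Complex.ofReal_re,
      Complex.ofReal_re] at e2
    have e3 : 0 ≤ (eta p' q q').re * (eta p' q' q).re := mul_nonneg_of_nonpos_of_nonpos a2 a4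
    have e4 : 0 < ‖q - q'‖ ^ 2 := by positivity
    linarith
  · by_cases hqp : q' = p
    · subst hqp
      have e := eta_change' hp hq hp' hpq hpp hxp
      rw [e] at hw'
      have hz : (eta q' q p' - eta q' q x).re < 0 := by
        rw [Complex.sub_re]
        linarith
      set z := eta q' q p' - eta q' q x with hzd
      rw [div_eq_mul_inv, Complex.re_ofReal_mul, Complex.inv_re] at hw'
      have hn : 0 < Complex.normSq z := by
        rw [Complex.normSq_pos]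
        intro h0
        rw [h0] at hz
        simp at hz
      have k1 : z.re / Complex.normSq z < 0 := div_neg_of_neg_of_pos hz hn
      have k2 : 0 < ‖q' - q‖ ^ 2 := by positivity
      have k3 := mul_neg_of_pos_of_neg k2 k1
      linarith
    · have e := eta_diff hp hq hp' hq' hpq hpp hqp
      have hppn : 0 < ‖p - p'‖ := norm_pos_iff.2 (sub_ne_zero.2 (Ne.symm hpp))
      have hpqn2 : 0 < ‖p - q'‖ := norm_pos_iff.2 (sub_ne_zero.2 (Ne.symm hqp))
      have e2 := congrArg Complex.re e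
      have b1 := r2 hp hq hp'
      have b2 := r2 hp hq hq'
      set P := (eta p q p').re with hP
      set Q := (eta p q q').re with hQ
      rw [b1, b2, r2 hp' hq' hp, ← Complex.ofReal_sub, ← Complex.ofReal_mul, ← Complex.ofReal_neg,
        Complex.ofReal_re, Complex.ofReal_re] at e2
      have hK : 0 < ‖p - q‖ ^ 2 * ‖p' - q'‖ ^ 2 / ‖p - p'‖ ^ 2 := by positivity
      have hPQ : 0 < P - Q := by
        by_contra h
        push Not at h
        have := mul_nonneg_of_nonpos_of_nonpos a3 h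
        linarith
      have f := eta_change hp hq hp' hq' hpq hpp hqp hxp
      rw [b1, b2] at f
      have f2 := congrArg Complex.re f
      set w := eta p q x with hwd
      have f3 : ((P : ℂ) - (Q : ℂ)) * (w - (Q : ℂ)) / ((P : ℂ) - w) =
          ((P - Q : ℝ) : ℂ) * ((w - (Q : ℂ)) / ((P : ℂ) - w)) := by
        push_cast
        ring
      rw [f3, mul_comm (eta p' q' x), Complex.re_ofReal_mul, Complex.re_ofReal_mul,
        Complex.re_ofReal_mul, Complex.div_re] at f2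
      have hn : 0 < Complex.normSq ((P : ℂ) - w) := by
        rw [Complex.normSq_pos]
        intro h0
        have h5 := congrArg Complex.re h0
        rw [Complex.sub_re, Complex.ofReal_re, Complex.zero_re] at h5
        linarith
      have g1 : (w - (Q : ℂ)).re * ((P : ℂ) - w).re / Complex.normSq ((P : ℂ) - w) +
          (w - (Q : ℂ)).im * ((P : ℂ) - w).im / Complex.normSq ((P : ℂ) - w) < 0 := by
        rw [← add_div]
        refine div_neg_of_neg_of_pos ?_ hn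
        simp only [Complex.sub_re, Complex.sub_im, Complex.ofReal_re, Complex.ofReal_im, sub_zero,
          zero_sub]
        have g2 : 0 < (w.re - Q) * (w.re - P) := mul_pos (by linarith) (by linarith)
        nlinarith [sq_nonneg w.im]
      have g3 := mul_neg_of_pos_of_neg (by positivity : 0 < ‖p - q'‖ ^ 2) (mul_neg_of_pos_of_neg hPQ g1)
      have g4 : 0 < ‖p - q‖ ^ 2 * (eta p' q' x).re := by positivity
      linarith

end TN

end S_H57_TG_GPB

section S_H57_TG_TCP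

/-!
TCP (distortion of a group element at a point that it maps to a compact part of the disc; cocompactness on triples).

`tcp_low`.  Put `b = F.b g`, so `act g b = 0` and `pd b z = pd 0 (act g z) = ‖act g z‖ ≤ ρ` (or: `act_norm` at `z` directly,
`1 - ‖act g z‖² = (1-‖b‖²)(1-‖z‖²)/‖1 - conj b z‖²`, so
(1) `(1-ρ²) ‖1 - conj b z‖² ≤ (1-‖b‖²)(1-‖z‖²)`.)
(2) for `‖x‖ ≤ 1`: `‖1 - conj b x‖ (1-‖z‖²) ≤ 2 ‖1 - conj z b‖ ‖1 - conj z x‖`: this is `DI_one_sub` for `mob 1 z` and the points `b`, `x`: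
`‖1 - conj (M b) (M x)‖ ‖1 - conj z b‖ ‖1 - conj z x‖ = (1-‖z‖²) ‖1 - conj b x‖` with `‖1 - conj (M b) (M x)‖ ≤ 2`.
From (1), (2) (`‖1 - conj z b‖ = ‖1 - conj b z‖`): `(1-ρ²)(1-‖z‖²) ‖1 - conj b x‖ ‖1 - conj b y‖ ≤ 4 (1-‖b‖²) ‖1 - conj z x‖ ‖1 - conj z y‖`.
With `act_dist`: `dist (act g x) (act g y) ‖1 - conj b x‖ ‖1 - conj b y‖ = (1-‖b‖²) dist x y`; divide.

`tc_of_uc`.  Let `ρ` be from `UC` (then `0 ≤ ρ` if `lim` is nonempty).  Let `a, b, c ∈ lim` be distinct; the conclusion is symmetric in the three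
points (`dist_comm`), so assume that `δ = dist a b` is the smallest of the three distances; `δ ≤ 2`.  (Prove first the version with the
hypotheses `dist a b ≤ dist a c`, `dist a b ≤ dist b c`.)  Put `r = 1 - δ/2 ∈ [0,1)`, `z = r a`, `g` from `UC` with
`‖act g z‖ ≤ ρ`.  `‖1 - conj z a‖ = 1 - r = δ/2`, `‖1 - conj z b‖ ≤ (1-r) + r dist a b ≤ 3δ/2`, `‖1 - conj z c‖ ≤ δ/2 + dist a c`,
`1 - ‖z‖² ≥ 1 - r = δ/2`.  `tcp_low` gives with `K = (1-ρ²)/4`:
`dist (ga) (gb) ≥ K (δ/2) δ/((δ/2)(3δ/2)) = 2K/3`, `dist (ga) (gc) ≥ K (δ/2) dist a c/((δ/2)(δ/2 + dist a c)) ≥ 2K/3`,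
`dist (gb) (gc) ≥ K (δ/2) dist b c/((3δ/2)(δ/2 + dist a c)) ≥ 2K/15` (as `dist a c ≤ dist a b + dist b c ≤ 2 dist b c`).
So `ε = (1-ρ²)/30` works (if `lim` is empty any `ε` works).
-/

namespace TN

open Metric Set Filter Topology DS

variable {Γ : Type} [Group Γ]

theorem tcp_low (F : Fuchs Γ) {g : Γ} {z x y : ℂ} {ρ : ℝ} (hρ : ρ < 1) (hz : ‖z‖ < 1)
    (hg : ‖F.act g z‖ ≤ ρ) (hx : ‖x‖ ≤ 1) (hy : ‖y‖ ≤ 1) :
    (1 - ρ ^ 2) / 4 * ((1 - ‖z‖ ^ 2) * dist x y) ≤ dist (F.act g x) (F.act g y) *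
      (‖1 - (starRingEnd ℂ) z * x‖ * ‖1 - (starRingEnd ℂ) z * y‖) := by
  have hρ0 : 0 ≤ ρ := (norm_nonneg _).trans hg
  have hρ2 : 0 < 1 - ρ ^ 2 := by nlinarith
  have hS : 0 < 1 - ‖z‖ ^ 2 := by
    have := pow_lt_one₀ (norm_nonneg z) hz two_ne_zero
    linarith
  have hβ : 0 < 1 - ‖F.b g‖ ^ 2 := by
    have := pow_lt_one₀ (norm_nonneg _) (F.hb g) two_ne_zero
    linarith
  have hbz : ‖1 - (starRingEnd ℂ) z * F.b g‖ = ‖1 - (starRingEnd ℂ) (F.b g) * z‖ := by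
    rw [← Complex.norm_conj]
    congr 1
    simp only [map_sub, map_mul, map_one, Complex.conj_conj]
    ring
  -- (1)
  have h1 : (1 - ρ ^ 2) * ‖1 - (starRingEnd ℂ) (F.b g) * z‖ ^ 2
      ≤ (1 - ‖F.b g‖ ^ 2) * (1 - ‖z‖ ^ 2) := by
    have hD : 0 < ‖1 - (starRingEnd ℂ) (F.b g) * z‖ ^ 2 := by
      have := norm_pos_iff.2 (den_ne (F.hb g) hz.le)
      positivity
    have e := act_norm F g hz.le
    have h2 : 1 - ρ ^ 2 ≤ 1 - ‖F.act g z‖ ^ 2 := by
      have := pow_le_pow_left₀ (norm_nonneg _) hg 2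
      linarith
    rw [e, le_div_iff₀ hD] at h2
    exact h2
  -- (2)
  have h2 : ∀ w : ℂ, ‖w‖ ≤ 1 → (1 - ‖z‖ ^ 2) * ‖1 - (starRingEnd ℂ) (F.b g) * w‖
      ≤ 2 * (‖1 - (starRingEnd ℂ) (F.b g) * z‖ * ‖1 - (starRingEnd ℂ) z * w‖) := by
    intro w hw
    have e := DI_one_sub (u := 1) (b := z) (x := F.b g) (y := w) norm_one hz (F.hb g).le hw
    rw [← e, hbz]
    have hM : ‖1 - (starRingEnd ℂ) (mob 1 z (F.b g)) * mob 1 z w‖ ≤ 2 := by
      have m1 : ‖mob 1 z (F.b g)‖ ≤ 1 := mob_closedBall norm_one hz (F.hb g).le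
      have m2 : ‖mob 1 z w‖ ≤ 1 := mob_closedBall norm_one hz hw
      calc ‖1 - (starRingEnd ℂ) (mob 1 z (F.b g)) * mob 1 z w‖
          ≤ ‖(1 : ℂ)‖ + ‖(starRingEnd ℂ) (mob 1 z (F.b g)) * mob 1 z w‖ := norm_sub_le _ _
        _ ≤ 1 + 1 * 1 := by
            rw [norm_one, norm_mul, Complex.norm_conj]
            have := mul_le_mul m1 m2 (norm_nonneg _) zero_le_one
            linarith
        _ = 2 := by norm_num
    exact mul_le_mul_of_nonneg_right hM (mul_nonneg (norm_nonneg _) (norm_nonneg _))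
  have hx2 := h2 x hx
  have hy2 := h2 y hy
  rw [act_dist F g hx hy]
  have hbx : 0 < ‖1 - (starRingEnd ℂ) (F.b g) * x‖ := norm_pos_iff.2 (den_ne (F.hb g) hx)
  have hby : 0 < ‖1 - (starRingEnd ℂ) (F.b g) * y‖ := norm_pos_iff.2 (den_ne (F.hb g) hy)
  set S := 1 - ‖z‖ ^ 2 with hSd
  set β := 1 - ‖F.b g‖ ^ 2 with hβd
  set Bx := ‖1 - (starRingEnd ℂ) (F.b g) * x‖ with hBx
  set By := ‖1 - (starRingEnd ℂ) (F.b g) * y‖ with hBy
  set Bz := ‖1 - (starRingEnd ℂ) (F.b g) * z‖ with hBz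
  set Zx := ‖1 - (starRingEnd ℂ) z * x‖ with hZx
  set Zy := ‖1 - (starRingEnd ℂ) z * y‖ with hZy
  have hBz0 : 0 ≤ Bz := norm_nonneg _
  have hZx0 : 0 ≤ Zx := norm_nonneg _
  have hZy0 : 0 ≤ Zy := norm_nonneg _
  have hd : 0 ≤ dist x y := dist_nonneg
  have h3 : (S * Bx) * (S * By) ≤ (2 * (Bz * Zx)) * (2 * (Bz * Zy)) :=
    mul_le_mul hx2 hy2 (by positivity) (by positivity)
  have h4 : S * ((1 - ρ ^ 2) / 4 * (S * dist x y) * (Bx * By))
      ≤ S * (β * dist x y * (Zx * Zy)) := by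
    calc S * ((1 - ρ ^ 2) / 4 * (S * dist x y) * (Bx * By))
        = ((1 - ρ ^ 2) / 4 * dist x y) * ((S * Bx) * (S * By)) := by ring
      _ ≤ ((1 - ρ ^ 2) / 4 * dist x y) * ((2 * (Bz * Zx)) * (2 * (Bz * Zy))) :=
          mul_le_mul_of_nonneg_left h3 (by positivity)
      _ = ((1 - ρ ^ 2) * Bz ^ 2) * (dist x y * (Zx * Zy)) := by ring
      _ ≤ (β * S) * (dist x y * (Zx * Zy)) := mul_le_mul_of_nonneg_right h1 (by positivity)
      _ = S * (β * dist x y * (Zx * Zy)) := by ring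
  have h5 := le_of_mul_le_mul_left h4 hS
  have e : β * dist x y / (Bx * By) * (Zx * Zy) = β * dist x y * (Zx * Zy) / (Bx * By) := by ring
  rw [e, le_div_iff₀ (by positivity)]
  exact h5

/-- the case where `dist a b` is the smallest distance -/
theorem TCP_main (F : Fuchs Γ) {ρ : ℝ} (hρ : ρ < 1) (hρ0 : 0 ≤ ρ)
    (hU : ∀ ξ ∈ F.lim, ∀ r : ℝ, 0 ≤ r → r < 1 → ∃ g, ‖F.act g (r * ξ)‖ ≤ ρ) {a b c : ℂ}
    (ha : a ∈ F.lim) (hb : b ∈ F.lim) (hc : c ∈ F.lim) (hab : a ≠ b) (h1 : dist a b ≤ dist a c)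
    (h2 : dist a b ≤ dist b c) :
    ∃ g, (1 - ρ ^ 2) / 36 ≤ dist (F.act g a) (F.act g b) ∧
      (1 - ρ ^ 2) / 36 ≤ dist (F.act g b) (F.act g c) ∧
      (1 - ρ ^ 2) / 36 ≤ dist (F.act g a) (F.act g c) := by
  have na := lim_sphere F ha
  have nb := lim_sphere F hb
  have nc := lim_sphere F hc
  set δ := dist a b with hδ
  have hδ0 : 0 < δ := dist_pos.2 hab
  have hδ2 : δ ≤ 2 := by
    rw [hδ, dist_eq_norm]
    have := norm_sub_le a b
    linarith
  set r : ℝ := 1 - δ / 2 with hr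
  have hr0 : 0 ≤ r := by rw [hr]; linarith
  have hr1 : r < 1 := by rw [hr]; linarith
  obtain ⟨g, hg⟩ := hU a ha r hr0 hr1
  set z : ℂ := (r : ℂ) * a with hz
  have nz : ‖z‖ = r := by
    rw [hz, norm_mul, na, mul_one, Complex.norm_real, Real.norm_of_nonneg hr0]
  have haa : (starRingEnd ℂ) a * a = 1 := by
    rw [mul_comm, Complex.mul_conj, Complex.normSq_eq_norm_sq, na]; norm_num
  have hD : ∀ x : ℂ, ‖1 - (starRingEnd ℂ) z * x‖ ≤ δ / 2 + dist a x := by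
    intro x
    have e : 1 - (starRingEnd ℂ) z * x
        = ((1 - r : ℝ) : ℂ) + (r : ℂ) * ((starRingEnd ℂ) a * (a - x)) := by
      rw [hz, map_mul, Complex.conj_ofReal, mul_sub, haa]
      push_cast
      ring
    rw [e]
    refine (norm_add_le _ _).trans ?_
    rw [Complex.norm_real, Real.norm_of_nonneg (by linarith), norm_mul, norm_mul,
      Complex.norm_conj, na, one_mul, Complex.norm_real, Real.norm_of_nonneg hr0, dist_eq_norm]
    have h3 : r * ‖a - x‖ ≤ ‖a - x‖ := mul_le_of_le_one_left (norm_nonneg _) hr1.le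
    have h4 : 1 - r = δ / 2 := by rw [hr]; ring
    linarith
  have hDa : ‖1 - (starRingEnd ℂ) z * a‖ ≤ δ / 2 := by
    have := hD a
    rwa [dist_self, add_zero] at this
  have hDb : ‖1 - (starRingEnd ℂ) z * b‖ ≤ 3 / 2 * δ := by
    have := hD b
    linarith
  have hDc := hD c
  have hS : δ / 2 ≤ 1 - ‖z‖ ^ 2 := by
    rw [nz]
    have e : 1 - r ^ 2 = (1 - r) * (1 + r) := by ring
    have h4 : 1 - r = δ / 2 := by rw [hr]; ring
    rw [e, h4]
    have : δ / 2 * 1 ≤ δ / 2 * (1 + r) := mul_le_mul_of_nonneg_left (by linarith) (by linarith)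
    linarith
  have hz1 : ‖z‖ < 1 := by rw [nz]; exact hr1
  have hK : 0 < 1 - ρ ^ 2 := by nlinarith
  have hac : 0 < dist a c := lt_of_lt_of_le hδ0 h1
  have hbc : 0 < dist b c := lt_of_lt_of_le hδ0 h2
  -- general step
  have step : ∀ (x y : ℂ) (X Y : ℝ), ‖x‖ ≤ 1 → ‖y‖ ≤ 1 → ‖1 - (starRingEnd ℂ) z * x‖ ≤ X →
      ‖1 - (starRingEnd ℂ) z * y‖ ≤ Y → 0 ≤ X → 0 < dist x y →
      X * Y ≤ 9 / 2 * (δ * dist x y) →
      (1 - ρ ^ 2) / 36 ≤ dist (F.act g x) (F.act g y) := by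
    intro x y X Y nx ny hX hY hX0 hd hXY
    have h3 := tcp_low F hρ hz1 hg nx ny
    have h4 : dist (F.act g x) (F.act g y) *
        (‖1 - (starRingEnd ℂ) z * x‖ * ‖1 - (starRingEnd ℂ) z * y‖)
        ≤ dist (F.act g x) (F.act g y) * (X * Y) :=
      mul_le_mul_of_nonneg_left (mul_le_mul hX hY (norm_nonneg _) hX0) dist_nonneg
    have h5 : dist (F.act g x) (F.act g y) * (X * Y)
        ≤ dist (F.act g x) (F.act g y) * (9 / 2 * (δ * dist x y)) :=
      mul_le_mul_of_nonneg_left hXY dist_nonneg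
    have h6 : (1 - ρ ^ 2) / 4 * (δ / 2 * dist x y)
        ≤ (1 - ρ ^ 2) / 4 * ((1 - ‖z‖ ^ 2) * dist x y) := by
      apply mul_le_mul_of_nonneg_left _ (by positivity)
      exact mul_le_mul_of_nonneg_right hS hd.le
    have h7 : (δ * dist x y) * ((1 - ρ ^ 2) / 36)
        ≤ (δ * dist x y) * dist (F.act g x) (F.act g y) := by
      have h8 : (1 - ρ ^ 2) / 4 * (δ / 2 * dist x y)
          = 9 / 2 * ((δ * dist x y) * ((1 - ρ ^ 2) / 36)) := by ring
      have h9 : dist (F.act g x) (F.act g y) * (9 / 2 * (δ * dist x y))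
          = 9 / 2 * ((δ * dist x y) * dist (F.act g x) (F.act g y)) := by ring
      linarith
    exact le_of_mul_le_mul_left h7 (by positivity)
  refine ⟨g, ?_, ?_, ?_⟩
  · apply step a b (δ / 2) (3 / 2 * δ) na.le nb.le hDa hDb (by positivity) hδ0
    rw [← hδ]
    nlinarith
  · apply step b c (3 / 2 * δ) (δ / 2 + dist a c) nb.le nc.le hDb hDc (by positivity) hbc
    have h3 : dist a c ≤ δ + dist b c := dist_triangle a b c
    have h4 : δ / 2 + dist a c ≤ 3 * dist b c := by linarith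
    have h5 : 3 / 2 * δ * (δ / 2 + dist a c) ≤ 3 / 2 * δ * (3 * dist b c) :=
      mul_le_mul_of_nonneg_left h4 (by positivity)
    linarith
  · apply step a c (δ / 2) (δ / 2 + dist a c) na.le nc.le hDa hDc (by positivity) hac
    have h5 : δ / 2 * (δ / 2 + dist a c) ≤ δ / 2 * (3 / 2 * dist a c) :=
      mul_le_mul_of_nonneg_left (by linarith) (by positivity)
    have h6 : 0 ≤ δ * dist a c := by positivity
    linarith

theorem tc_of_uc (F : Fuchs Γ) (hU : F.UC) : F.TC := by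
  obtain ⟨ρ, hρ, hU⟩ := hU
  by_cases hne : F.lim.Nonempty
  · obtain ⟨ξ, hξ⟩ := hne
    obtain ⟨g0, hg0⟩ := hU ξ hξ 0 le_rfl one_pos
    have hρ0 : 0 ≤ ρ := (norm_nonneg _).trans hg0
    refine ⟨(1 - ρ ^ 2) / 36, by nlinarith, ?_⟩
    intro a ha b hb c hc hab hbc hac
    rcases le_total (dist a b) (dist a c) with h1 | h1
    · rcases le_total (dist a b) (dist b c) with h2 | h2
      · exact TCP_main F hρ hρ0 hU ha hb hc hab h1 h2
      · obtain ⟨g, g1, g2, g3⟩ := TCP_main F hρ hρ0 hU hb hc ha hbc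
          (by rw [dist_comm b a]; exact h2) (by rw [dist_comm c a]; exact h2.trans h1)
        refine ⟨g, ?_, g1, ?_⟩
        · rw [dist_comm]; exact g3
        · rw [dist_comm]; exact g2
    · rcases le_total (dist a c) (dist b c) with h2 | h2
      · obtain ⟨g, g1, g2, g3⟩ := TCP_main F hρ hρ0 hU ha hc hb hac h1
          (by rw [dist_comm c b]; exact h2)
        refine ⟨g, g3, ?_, g1⟩
        rw [dist_comm]; exact g2
      · obtain ⟨g, g1, g2, g3⟩ := TCP_main F hρ hρ0 hU hb hc ha hbc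
          (by rw [dist_comm b a]; exact h2.trans h1) (by rw [dist_comm c a]; exact h2)
        refine ⟨g, ?_, g1, ?_⟩
        · rw [dist_comm]; exact g3
        · rw [dist_comm]; exact g2
  · refine ⟨1, one_pos, fun a ha => ?_⟩
    exact absurd ⟨a, ha⟩ hne

end TN

end S_H57_TG_TCP

section S_H57_TG_GPF

/-!
GPF (finitely many large gaps).
`gap_unique`: `arc_unique` (the end points of a gap are in `lim`, so in no gap).
`gap_finite`: suppose that the set `S` of pairs is infinite.  It is contained in the compact set `closedBall 0 1 ×ˢ closedBall 0 1`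
(`lim_sphere`), so it has an accumulation point `(p₀, q₀)` (`Set.Infinite.exists_accPt_of_subset_isCompact`); by closedness `‖p₀‖ = ‖q₀‖ = 1`,
`c ≤ dist p₀ q₀`.  Let `m = omi p₀ q₀ 0`: `‖m‖ = 1` (`omi_sphere`), `m ≠ p₀, q₀` (`omi_mem`), `eta p₀ q₀ m = exp (om p₀ q₀ m) = exp 0 = 1`
(`exp_om`, `om_omi`; `0 ∈ Str`).  The function `(p, q) ↦ eta p q m` is continuous at `(p₀, q₀)` (`p₀ ≠ m`), so
there is a neighbourhood of `(p₀, q₀)` where its real part is positive, i.e. `m ∈ Arc p q`.  It contains two different elements of `S`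
(accumulation point), contradiction to `gap_unique`.
-/

namespace TN

open Metric Set Filter Topology DS

variable {Γ : Type} [Group Γ]

theorem gap_unique (F : Fuchs Γ) {p q p' q' ξ : ℂ} (h : IsGap F p q) (h' : IsGap F p' q')
    (hξ : ξ ∈ Arc p q) (hξ' : ξ ∈ Arc p' q') : p = p' ∧ q = q' :=
  arc_unique (lim_sphere F h.mp) (lim_sphere F h.mq) (lim_sphere F h'.mp) (lim_sphere F h'.mq)
    hξ hξ' (fun hc => h.gap _ hc h'.mp) (fun hc => h.gap _ hc h'.mq)
    (fun hc => h'.gap _ hc h.mp) (fun hc => h'.gap _ hc h.mq)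

theorem GPF_cont {p₀ q₀ m : ℂ} (hm : m ≠ p₀) :
    ContinuousAt (fun s : ℂ × ℂ => (eta s.1 s.2 m).re) (p₀, q₀) := by
  unfold eta
  refine Complex.continuous_re.continuousAt.comp (ContinuousAt.div ?_ ?_ ?_)
  · fun_prop
  · fun_prop
  · simpa [sub_eq_zero] using hm.symm

theorem gap_finite (F : Fuchs Γ) {c : ℝ} (hc : 0 < c) :
    {s : ℂ × ℂ | IsGap F s.1 s.2 ∧ c ≤ dist s.1 s.2}.Finite := by
  by_contra hinf
  have hinf' : {s : ℂ × ℂ | IsGap F s.1 s.2 ∧ c ≤ dist s.1 s.2}.Infinite := hinf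
  set S := {s : ℂ × ℂ | IsGap F s.1 s.2 ∧ c ≤ dist s.1 s.2} with hS
  set T : Set (ℂ × ℂ) := {s | (‖s.1‖ = 1 ∧ ‖s.2‖ = 1) ∧ c ≤ dist s.1 s.2} with hT
  have hST : S ⊆ T := fun s hs => ⟨⟨lim_sphere F hs.1.mp, lim_sphere F hs.1.mq⟩, hs.2⟩
  have hTc : IsClosed T := by
    have h1 : IsClosed {s : ℂ × ℂ | ‖s.1‖ = 1} := isClosed_eq (by fun_prop) continuous_const
    have h2 : IsClosed {s : ℂ × ℂ | ‖s.2‖ = 1} := isClosed_eq (by fun_prop) continuous_const
    have h3 : IsClosed {s : ℂ × ℂ | c ≤ dist s.1 s.2} := isClosed_le continuous_const (by fun_prop)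
    exact (h1.inter h2).inter h3
  have hTK : IsCompact T := by
    refine ((isCompact_closedBall (0:ℂ) 1).prod (isCompact_closedBall (0:ℂ) 1)).of_isClosed_subset
      hTc fun s hs => ?_
    exact ⟨by simpa using hs.1.1.le, by simpa using hs.1.2.le⟩
  obtain ⟨⟨p₀, q₀⟩, hx, hacc⟩ := hinf'.exists_accPt_of_subset_isCompact hTK hST
  have hp : ‖p₀‖ = 1 := hx.1.1
  have hq : ‖q₀‖ = 1 := hx.1.2
  have hpq : p₀ ≠ q₀ := by
    intro he
    have h1 : c ≤ dist p₀ q₀ := hx.2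
    rw [he, dist_self] at h1
    linarith
  have h0 : (0:ℂ) ∈ Str := by
    refine ⟨by simp, ?_⟩
    simp [Real.pi_pos.le]
  set m := omi p₀ q₀ 0 with hm
  have hm1 : ‖m‖ = 1 := omi_sphere hp hq hpq (Or.inl (by simp))
  have hmD : m ∈ Dpq p₀ q₀ := omi_mem hp hq hpq h0
  have hmeta : eta p₀ q₀ m = 1 := by
    rw [← exp_om hp hq hpq hmD.2.1 hmD.2.2, hm, om_omi hp hq hpq h0, Complex.exp_zero]
  have hev : ∀ᶠ s : ℂ × ℂ in 𝓝 (p₀, q₀), 0 < (eta s.1 s.2 m).re := by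
    have h1 := (GPF_cont (p₀ := p₀) (q₀ := q₀) hmD.2.1).tendsto
    refine h1.eventually (lt_mem_nhds ?_)
    show 0 < (eta p₀ q₀ m).re
    rw [hmeta]
    simp
  have hfr := accPt_iff_frequently.1 hacc
  obtain ⟨s, ⟨hs1, hs2⟩, hs3⟩ := (hfr.and_eventually hev).exists
  have hne : ∀ᶠ t : ℂ × ℂ in 𝓝 (p₀, q₀), t ≠ s := by
    have : IsOpen {t : ℂ × ℂ | t ≠ s} := isOpen_ne
    exact this.mem_nhds hs1.symm
  obtain ⟨t, ⟨⟨ht1, ht2⟩, ht3⟩, ht4⟩ := ((hfr.and_eventually hev).and_eventually hne).exists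
  have h5 := gap_unique F ht2.1 hs2.1 ⟨hm1, ht3⟩ ⟨hm1, hs3⟩
  exact ht4 (Prod.ext h5.1 h5.2)

end TN

end S_H57_TG_GPF

section S_H57_TG_GPE

/-!
GPE (images of a gap under the elements that follow a ray; stabiliser of a gap).
`gap_far`: `ρ` from `UC`, `c = (1-ρ²)/8` (`0 ≤ ρ`: if `lim` is empty there is nothing to prove, otherwise `ρ ≥ ‖..‖ ≥ 0`).  Let `p ∈ lim`, `‖q‖ = 1`, `q ≠ p`.
For `n : ℕ` let `r_n = 1 - dist p q/(2 (n + 1))` (`0 ≤ r_n < 1`, `1 - r_n ≤ dist p q`), `g n` from `UC` with `‖act (g n) (r_n p)‖ ≤ ρ`.  `tcp_low` with `z = r_n p`, `x = p`, `y = q`: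
`‖1 - conj z p‖ = 1 - r_n`, `‖1 - conj z q‖ ≤ (1 - r_n) + dist p q ≤ 2 dist p q`, `1 - ‖z‖² = (1 - r_n)(1 + r_n) ≥ 1 - r_n`: so
`dist (g p) (g q) ≥ (1-ρ²)/4 * (1-r_n) dist p q/((1-r_n) 2 dist p q) = (1-ρ²)/8`.
Each value `a` is taken finitely often: otherwise `‖act a (r_n p)‖ ≤ ρ` for infinitely many `n`, and `r_n → 1`, so `‖act a p‖ ≤ ρ < 1` by continuity
(`act_cont`), but `‖act a p‖ = 1` (`act_eq`).
`gap_stab`: take `g` from `gap_far` for `p`, `q`.  All pairs `(act (g n) p, act (g n) q)` are in the finite set `gap_finite F hc` (`gap_act`).  By the pigeonhole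
principle some pair is taken for infinitely many `n`; as `g` takes each value finitely often there are `n, m` with the same pair and `g n ≠ g m`.
`z = (g m)⁻¹ * g n ≠ 1` fixes `p` and `q` (`act_mul`, `act_inv_act`).  `exists_AR`: `AR z p' q'`, and `p, q ∈ {p', q'}` (`AR.fixed`), so `AR z p q` or
`AR z q p`, in the second case `AR z⁻¹ p q` (`AR.inv`).  Then `AR.stab`.
-/

namespace TN

open Metric Set Filter Topology DS

variable {Γ : Type} [Group Γ]

private theorem GPE_conj {p : ℂ} (hp : ‖p‖ = 1) : (starRingEnd ℂ) p * p = 1 := by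
  rw [mul_comm, Complex.mul_conj, Complex.normSq_eq_norm_sq, hp]
  norm_num

private theorem GPE_lim {p : ℂ} {r : ℕ → ℝ} (hr : Tendsto r atTop (𝓝 1)) :
    Tendsto (fun n => ((r n : ℝ) : ℂ) * p) atTop (𝓝 p) := by
  have h1 : Tendsto (fun n => ((r n : ℝ) : ℂ)) atTop (𝓝 ((1 : ℝ) : ℂ)) :=
    (Complex.continuous_ofReal.tendsto 1).comp hr
  have h2 := h1.mul_const p
  rwa [Complex.ofReal_one, one_mul] at h2

theorem gap_far (F : Fuchs Γ) (hU : F.UC) : ∃ c : ℝ, 0 < c ∧ ∀ p ∈ F.lim, ∀ q : ℂ, ‖q‖ = 1 →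
    q ≠ p → ∃ g : ℕ → Γ, (∀ a, {n | g n = a}.Finite) ∧
      ∀ n, c ≤ dist (F.act (g n) p) (F.act (g n) q) := by
  obtain ⟨ρ, hρ, hU⟩ := hU
  by_cases hne : F.lim.Nonempty
  swap
  · exact ⟨1, one_pos, fun p hp => absurd ⟨p, hp⟩ hne⟩
  have hρ0 : 0 ≤ ρ := by
    obtain ⟨ξ, hξ⟩ := hne
    obtain ⟨g, hg⟩ := hU ξ hξ 0 le_rfl one_pos
    exact (norm_nonneg _).trans hg
  have hρ2 : 0 < 1 - ρ ^ 2 := by nlinarith
  refine ⟨(1 - ρ ^ 2) / 8, by positivity, fun p hp q hq hqp => ?_⟩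
  have hpn : ‖p‖ = 1 := lim_sphere F hp
  set d : ℝ := dist p q with hd
  have hd0 : 0 < d := dist_pos.2 hqp.symm
  have hd2 : d ≤ 2 := by
    rw [hd, dist_eq_norm]
    have := norm_sub_le p q
    linarith
  set r : ℕ → ℝ := fun n => 1 - d / (2 * (n + 1)) with hr
  have hrn : ∀ n : ℕ, 0 ≤ r n ∧ r n < 1 ∧ 1 - r n ≤ d := by
    intro n
    have hn : (0:ℝ) < 2 * (n + 1) := by positivity
    have hn1 : (1:ℝ) ≤ n + 1 := by
      have : (0:ℝ) ≤ n := Nat.cast_nonneg n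
      linarith
    have h1 : d / (2 * (n + 1)) ≤ 1 := by
      rw [div_le_one hn]
      linarith
    have h2 : 0 < d / (2 * (n + 1)) := div_pos hd0 hn
    have h3 : d / (2 * (n + 1)) ≤ d := div_le_self hd0.le (by linarith)
    refine ⟨?_, ?_, ?_⟩
    · show 0 ≤ 1 - d / (2 * (n + 1))
      linarith
    · show 1 - d / (2 * (n + 1)) < 1
      linarith
    · show 1 - (1 - d / (2 * (n + 1))) ≤ d
      linarith
  have hrlim : Tendsto r atTop (𝓝 1) := by
    have h1 : Tendsto (fun n : ℕ => (d / 2) * (1 / ((n : ℝ) + 1))) atTop (𝓝 (d / 2 * 0)) :=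
      tendsto_one_div_add_atTop_nhds_zero_nat.const_mul _
    have h2 := h1.const_sub 1
    rw [mul_zero, sub_zero] at h2
    refine h2.congr fun n => ?_
    show 1 - d / 2 * (1 / ((n : ℝ) + 1)) = 1 - d / (2 * (n + 1))
    have hn : ((n : ℝ) + 1) ≠ 0 := by positivity
    field_simp
  choose g hg using fun n => hU p hp (r n) (hrn n).1 (hrn n).2.1
  refine ⟨g, fun a => ?_, fun n => ?_⟩
  · have hzc : ∀ n, ((r n : ℝ) : ℂ) * p ∈ closedBall (0:ℂ) 1 := by
      intro n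
      rw [mem_closedBall_zero_iff, norm_mul, hpn, mul_one, Complex.norm_real,
        Real.norm_of_nonneg (hrn n).1]
      exact (hrn n).2.1.le
    have hpc : p ∈ closedBall (0:ℂ) 1 := by simpa using hpn.le
    have h1 : Tendsto (fun n => F.act a (((r n : ℝ) : ℂ) * p)) atTop (𝓝 (F.act a p)) :=
      (act_cont F a p hpc).tendsto.comp
        (tendsto_nhdsWithin_iff.2 ⟨GPE_lim hrlim, Eventually.of_forall hzc⟩)
    have h2 := h1.norm
    rw [act_eq F a hpn] at h2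
    have hev : ∀ᶠ n in atTop, ¬ (g n = a) := by
      filter_upwards [h2.eventually (lt_mem_nhds hρ)] with n hn he
      have h3 := hg n
      rw [he] at h3
      linarith
    rw [← Nat.cofinite_eq_atTop] at hev
    simpa [Filter.eventually_cofinite] using hev
  · obtain ⟨h0, h1, h2⟩ := hrn n
    set z : ℂ := ((r n : ℝ) : ℂ) * p with hz
    have hzn : ‖z‖ = r n := by
      rw [hz, norm_mul, hpn, mul_one, Complex.norm_real, Real.norm_of_nonneg h0]
    have hlow := tcp_low F (g := g n) (z := z) (x := p) (y := q) (ρ := ρ) hρ (by rw [hzn]; exact h1)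
      (hg n) hpn.le hq.le
    have hc1 : (starRingEnd ℂ) z * p = ((r n : ℝ) : ℂ) := by
      rw [hz, map_mul, Complex.conj_ofReal, mul_assoc, GPE_conj hpn, mul_one]
    have e1 : ‖1 - (starRingEnd ℂ) z * p‖ = 1 - r n := by
      rw [hc1]
      have : (1 - ((r n : ℝ) : ℂ)) = ((1 - r n : ℝ) : ℂ) := by push_cast; ring
      rw [this, Complex.norm_real, Real.norm_of_nonneg (by linarith)]
    have e2 : ‖1 - (starRingEnd ℂ) z * q‖ ≤ 2 * d := by
      have h3 : 1 - (starRingEnd ℂ) z * q = (1 - (starRingEnd ℂ) z * p) +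
          (starRingEnd ℂ) z * (p - q) := by ring
      rw [h3]
      refine (norm_add_le _ _).trans ?_
      rw [e1, norm_mul, Complex.norm_conj, hzn, ← dist_eq_norm]
      have h4 : r n * dist p q ≤ d := mul_le_of_le_one_left hd0.le h1.le
      linarith
    rw [e1, hzn] at hlow
    set D : ℝ := dist (F.act (g n) p) (F.act (g n) q) with hD
    have hD0 : 0 ≤ D := dist_nonneg
    have hr0 : 0 < 1 - r n := by linarith
    have h5 : D * ((1 - r n) * ‖1 - (starRingEnd ℂ) z * q‖) ≤ D * ((1 - r n) * (2 * d)) :=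
      mul_le_mul_of_nonneg_left (mul_le_mul_of_nonneg_left e2 hr0.le) hD0
    have h6 : (1 - ρ ^ 2) / 4 * ((1 - r n) * d) ≤ (1 - ρ ^ 2) / 4 * ((1 - r n ^ 2) * d) := by
      apply mul_le_mul_of_nonneg_left _ (by positivity)
      apply mul_le_mul_of_nonneg_right _ hd0.le
      nlinarith
    have h7 : ((1 - ρ ^ 2) / 8) * ((1 - r n) * (2 * d)) ≤ D * ((1 - r n) * (2 * d)) := by
      have h8 : ((1 - ρ ^ 2) / 8) * ((1 - r n) * (2 * d)) = (1 - ρ ^ 2) / 4 * ((1 - r n) * d) := by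
        ring
      rw [h8]
      exact h6.trans (hlow.trans h5)
    exact le_of_mul_le_mul_right h7 (by positivity)

theorem gap_stab (F : Fuchs Γ) (hU : F.UC) {p q : ℂ} (h : IsGap F p q) :
    ∃ κ, F.AR κ p q ∧ ∀ g, F.act g p = p ↔ g ∈ Subgroup.zpowers κ := by
  have hp : ‖p‖ = 1 := lim_sphere F h.mp
  have hq : ‖q‖ = 1 := lim_sphere F h.mq
  obtain ⟨c, hc, H⟩ := gap_far F hU
  obtain ⟨g, hgf, hgd⟩ := H p h.mp q hq h.ne.symm
  have hfin := gap_finite F hc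
  set f : ℕ → ℂ × ℂ := fun n => (F.act (g n) p, F.act (g n) q) with hf
  have hfS : ∀ n, f n ∈ {s : ℂ × ℂ | IsGap F s.1 s.2 ∧ c ≤ dist s.1 s.2} := fun n =>
    ⟨gap_act F (g n) h, hgd n⟩
  obtain ⟨s, hs⟩ : ∃ s, {n | f n = s}.Infinite := by
    by_contra hcon
    push Not at hcon
    have h1 : (⋃ s ∈ {s : ℂ × ℂ | IsGap F s.1 s.2 ∧ c ≤ dist s.1 s.2}, {n | f n = s}).Finite :=
      hfin.biUnion fun s _ => hcon s
    have h2 : (Set.univ : Set ℕ) ⊆
        ⋃ s ∈ {s : ℂ × ℂ | IsGap F s.1 s.2 ∧ c ≤ dist s.1 s.2}, {n | f n = s} := by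
      intro n _
      exact Set.mem_biUnion (hfS n) rfl
    exact Set.infinite_univ (h1.subset h2)
  obtain ⟨n, hn⟩ := hs.nonempty
  obtain ⟨m, hm, hmn⟩ := hs.exists_notMem_finite (hgf (g n))
  have hnm : f n = f m := hn.trans (show f m = s from hm).symm
  have hnm1 : F.act (g n) p = F.act (g m) p := congrArg Prod.fst hnm
  have hnm2 : F.act (g n) q = F.act (g m) q := congrArg Prod.snd hnm
  have hz : (g m)⁻¹ * g n ≠ 1 := by
    intro h1
    apply hmn
    show g m = g n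
    exact inv_mul_eq_one.1 h1
  have hzp : F.act ((g m)⁻¹ * g n) p = p := by
    rw [act_mul F _ _ hp.le, hnm1, act_inv_act F _ hp.le]
  have hzq : F.act ((g m)⁻¹ * g n) q = q := by
    rw [act_mul F _ _ hq.le, hnm2, act_inv_act F _ hq.le]
  obtain ⟨p', q', hAR⟩ := exists_AR F hz
  rcases AR.fixed hAR hp.le hzp with h1 | h1
  · rcases AR.fixed hAR hq.le hzq with h2 | h2
    · exact absurd (h1.trans h2.symm) h.ne
    · rw [← h1, ← h2] at hAR
      exact AR.stab hAR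
  · rcases AR.fixed hAR hq.le hzq with h2 | h2
    · rw [← h1, ← h2] at hAR
      exact AR.stab (AR.inv hAR)
    · exact absurd (h1.trans h2.symm) h.ne

end TN

end S_H57_TG_GPE

section S_H57_TG_GPR

/-!
GPR (representatives of the orbits of gaps).  Let `c` be from `gap_far` and `S` the finite set `gap_finite F hc`.  Every gap `(p', q')` has an image in
`S` (`gap_far`, `gap_act`).  On the finite type `S` let `s ~ t` iff some `g` maps `s` to `t` (both coordinates); an equivalence relation (`act_one`, `act_mul`,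
`act_inv_act`, all points have norm one).  Let `n` be the number of classes (`Finite (Quotient _)`, `Finite.equivFin`), and
`(p i, q i)` a representative (`Quotient.out`) of the class `i`.
-/

namespace TN

open Metric Set Filter Topology DS

variable {Γ : Type} [Group Γ]

theorem gap_reps (F : Fuchs Γ) (hU : F.UC) : ∃ (n : ℕ) (p q : Fin n → ℂ),
    (∀ i, IsGap F (p i) (q i)) ∧
    (∀ p' q', IsGap F p' q' → ∃ g i, F.act g p' = p i ∧ F.act g q' = q i) ∧
    ∀ i j g, F.act g (p i) = p j → F.act g (q i) = q j → i = j := by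
  classical
  obtain ⟨c, hc, hfar⟩ := gap_far F hU
  set S := {s : ℂ × ℂ | IsGap F s.1 s.2 ∧ c ≤ dist s.1 s.2} with hS
  have hSf : S.Finite := gap_finite F hc
  have hn1 : ∀ s : S, ‖s.1.1‖ ≤ 1 := fun s => (lim_sphere F s.2.1.mp).le
  have hn2 : ∀ s : S, ‖s.1.2‖ ≤ 1 := fun s => (lim_sphere F s.2.1.mq).le
  let st : Setoid S :=
    { r := fun s t => ∃ g, F.act g s.1.1 = t.1.1 ∧ F.act g s.1.2 = t.1.2
      iseqv :=
        { refl := fun s => ⟨1, act_one F (hn1 s), act_one F (hn2 s)⟩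
          symm := by
            rintro s t ⟨g, e1, e2⟩
            exact ⟨g⁻¹, by rw [← e1, act_inv_act F g (hn1 s)], by
              rw [← e2, act_inv_act F g (hn2 s)]⟩
          trans := by
            rintro s t v ⟨g, e1, e2⟩ ⟨g', e3, e4⟩
            exact ⟨g' * g, by rw [act_mul F g' g (hn1 s), e1, e3], by
              rw [act_mul F g' g (hn2 s), e2, e4]⟩ } }
  have : Finite S := hSf
  have : Finite (Quotient st) := Quotient.finite st
  obtain ⟨n, ⟨e⟩⟩ := Finite.exists_equiv_fin (Quotient st)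
  refine ⟨n, fun i => (Quotient.out (e.symm i)).1.1, fun i => (Quotient.out (e.symm i)).1.2,
    fun i => (Quotient.out (e.symm i)).2.1, ?_, ?_⟩
  · intro p' q' h
    obtain ⟨g, -, hg⟩ := hfar p' h.mp q' (lim_sphere F h.mq) h.ne.symm
    have hmem : (F.act (g 0) p', F.act (g 0) q') ∈ S := ⟨gap_act F (g 0) h, hg 0⟩
    set s : S := ⟨_, hmem⟩ with hs
    have h1 : st.r s (Quotient.out (Quotient.mk st s)) := by
      have h2 : Quotient.mk st (Quotient.out (Quotient.mk st s)) = Quotient.mk st s :=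
        Quotient.out_eq _
      exact st.symm (Quotient.exact h2)
    obtain ⟨a, e1, e2⟩ := h1
    have hp' : ‖p'‖ ≤ 1 := (lim_sphere F h.mp).le
    have hq' : ‖q'‖ ≤ 1 := (lim_sphere F h.mq).le
    refine ⟨a * g 0, e (Quotient.mk st s), ?_, ?_⟩
    · beta_reduce
      rw [Equiv.symm_apply_apply, act_mul F a (g 0) hp']
      exact e1
    · beta_reduce
      rw [Equiv.symm_apply_apply, act_mul F a (g 0) hq']
      exact e2
  · intro i j g e1 e2
    have h1 : Quotient.mk st (Quotient.out (e.symm i)) = Quotient.mk st (Quotient.out (e.symm j)) :=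
      Quotient.sound ⟨g, e1, e2⟩
    rw [Quotient.out_eq, Quotient.out_eq] at h1
    exact e.symm.injective h1

end TN

end S_H57_TG_GPR

section S_H57_TG_GPZ

/-!
GPZ (assembly of the statements on gaps).
-/

namespace TN

open Metric Set Filter Topology DS

variable {Γ : Type} [Group Γ]

theorem GPZ_two (F : Fuchs Γ) (hN : F.Nonel) : ∃ a ∈ F.lim, ∃ b ∈ F.lim, a ≠ b := by
  obtain ⟨a, ha, b, hb, hab⟩ := (lim_infinite F hN).nontrivial
  exact ⟨a, ha, b, hb, hab⟩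

/-- every point of the circle off the limit set is in a gap -/
theorem GPZ_mem (F : Fuchs Γ) (hN : F.Nonel) {ξ : ℂ} (hξ : ‖ξ‖ = 1) (h : ξ ∉ F.lim) :
    ∃ p q, IsGap F p q ∧ ξ ∈ Arc p q := by
  obtain ⟨p, hp, q, hq, hne, hmem, hgap⟩ :=
    arc_exists (lim_closed F) (fun x hx => lim_sphere F hx) (GPZ_two F hN) hξ h
  exact ⟨p, q, ⟨hp, hq, hne, hgap⟩, hmem⟩

theorem GPZ_disj (F : Fuchs Γ) {p q p' q' x : ℂ} (h : IsGap F p q) (h' : IsGap F p' q')
    (hd : ¬ (p = p' ∧ q = q')) (hx : ‖x‖ < 1) (hw : 0 < (eta p q x).re) :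
    ¬ 0 < (eta p' q' x).re := by
  refine half_disj (lim_sphere F h.mp) (lim_sphere F h.mq) (lim_sphere F h'.mp)
    (lim_sphere F h'.mq) h.ne h'.ne (fun hc => h.gap _ hc h'.mp) (fun hc => h.gap _ hc h'.mq)
    (fun hc => h'.gap _ hc h.mp) (fun hc => h'.gap _ hc h.mq) ?_ hx hw
  by_contra hcon
  push Not at hcon
  exact hd hcon

/-- all the data of `Gaps` except cocompactness follow from representatives -/
theorem GPZ_main (F : Fuchs Γ) (hN : F.Nonel) (hU : F.UC) :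
    ∃ (n : ℕ) (κ : Fin n → Γ) (p q : Fin n → ℂ),
      (∀ i, IsGap F (p i) (q i)) ∧
      (∀ i, F.AR (κ i) (p i) (q i)) ∧
      (∀ i g, F.act g (p i) = p i ↔ g ∈ Subgroup.zpowers (κ i)) ∧
      (∀ ξ : ℂ, ‖ξ‖ = 1 → ξ ∉ F.lim → ∃ g i, F.act g ξ ∈ Arc (p i) (q i)) ∧
      (∀ i j g, (i ≠ j ∨ g ∉ Subgroup.zpowers (κ i)) → ∀ x ∈ ball (0:ℂ) 1,
        0 < (eta (p i) (q i) x).re → ¬ 0 < (eta (p j) (q j) (F.act g x)).re) := by
  obtain ⟨n, p, q, h1, h2, h3⟩ := gap_reps F hU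
  choose κ hκ hst using fun i => gap_stab F hU (h1 i)
  refine ⟨n, κ, p, q, h1, hκ, hst, ?_, ?_⟩
  · intro ξ hξ hn
    obtain ⟨p', q', hg, hmem⟩ := GPZ_mem F hN hξ hn
    obtain ⟨g, i, e1, e2⟩ := h2 p' q' hg
    refine ⟨g, i, ?_⟩
    rw [← e1, ← e2]
    exact (arc_act F g (lim_sphere F hg.mp) (lim_sphere F hg.mq) hξ).2 hmem
  · intro i j g hij x hx hw
    have hx1 : ‖x‖ < 1 := by simpa using hx
    have hgx : ‖F.act g x‖ < 1 := act_lt F g hx1
    have hgap := gap_act F g (h1 i)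
    have hp1 := lim_sphere F (h1 i).mp
    have hq1 := lim_sphere F (h1 i).mq
    refine GPZ_disj F hgap (h1 j) ?_ hgx ?_
    · rintro ⟨e1, e2⟩
      have hij' := h3 i j g e1 e2
      subst hij'
      rcases hij with hij | hij
      · exact hij rfl
      · exact hij ((hst i g).1 e1)
    · rw [eta_act F g hp1 hq1 hx1.le, Complex.re_ofReal_mul]
      have h0 : 0 < ‖F.dact g (q i)‖ := norm_pos_iff.2 (dact_ne F g hq1.le)
      exact mul_pos h0 hw

theorem gaps_aux (F : Fuchs Γ) (hN : F.Nonel) (hU : F.UC) :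
    ∃ (n : ℕ) (κ : Fin n → Γ) (p q : Fin n → ℂ),
      (∀ i, F.AR (κ i) (p i) (q i)) ∧
      (∀ i g, F.act g (p i) = p i ↔ g ∈ Subgroup.zpowers (κ i)) ∧
      (∀ i, ∀ ξ : ℂ, ‖ξ‖ = 1 → ξ ≠ p i → 0 < (eta (p i) (q i) ξ).re → ξ ∉ F.lim) ∧
      (∀ ξ : ℂ, ‖ξ‖ = 1 → ξ ∉ F.lim →
        ∃ g i, F.act g ξ ≠ p i ∧ 0 < (eta (p i) (q i) (F.act g ξ)).re) ∧
      (∀ i j g, (i ≠ j ∨ g ∉ Subgroup.zpowers (κ i)) → ∀ x ∈ ball (0:ℂ) 1,
        0 < (eta (p i) (q i) x).re → ¬ 0 < (eta (p j) (q j) (F.act g x)).re) ∧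
      (∀ y : ℝ, 0 < y → ∃ ρ : ℝ, ρ < 1 ∧ ∀ x ∈ ball (0:ℂ) 1,
        (∀ i g, y ≤ (om (p i) (q i) (F.act g x)).im) → ∃ g, ‖F.act g x‖ ≤ ρ) := by
  obtain ⟨n, κ, p, q, hgap, hκ, hst, hall, hdisj⟩ := GPZ_main F hN hU
  refine ⟨n, κ, p, q, hκ, hst, fun i ξ hξ _ hpos => (hgap i).gap ξ ⟨hξ, hpos⟩, ?_, hdisj, ?_⟩
  · intro ξ hξ hn
    obtain ⟨g, i, h⟩ := hall ξ hξ hn
    exact ⟨g, i, Arc.ne h, h.2⟩
  · intro y hy
    by_contra hcon
    push Not at hcon
    have h1 : ∀ k : ℕ, (1 - 1 / ((k : ℝ) + 1)) < 1 := fun k => by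
      have : 0 < 1 / ((k : ℝ) + 1) := by positivity
      linarith
    choose x hx hxi hxg using fun k : ℕ => hcon _ (h1 k)
    have hx1 : ∀ k, ‖x k‖ < 1 := fun k => by simpa using hx k
    obtain ⟨φ, hφ, g, ξ, hξ, hlim, hdir⟩ := dirichlet_seq F hx1 (by
      intro ρ hρ
      obtain ⟨N, hN⟩ := exists_nat_one_div_lt (sub_pos.2 hρ)
      filter_upwards [eventually_ge_atTop N] with k hk g
      have h2 := hxg k g
      have h3 : 1 / ((k : ℝ) + 1) ≤ 1 / ((N : ℝ) + 1) := by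
        apply one_div_le_one_div_of_le (by positivity)
        have : (N : ℝ) ≤ k := by exact_mod_cast hk
        linarith
      linarith)
    by_cases hξl : ξ ∈ F.lim
    · obtain ⟨ρ, hρ, hU'⟩ := hU
      obtain ⟨a, ha⟩ := hU' ξ hξl ((max ρ 0 + 1) / 2)
        (by have := le_max_right ρ (0:ℝ); linarith)
        (by have := max_lt hρ zero_lt_one; linarith)
      have h4 := hdir a ((max ρ 0 + 1) / 2)
        (by have := le_max_right ρ (0:ℝ); linarith)
        (by have := max_lt hρ zero_lt_one; linarith)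
      have h5 := le_max_left ρ (0:ℝ)
      have h6 := max_lt hρ zero_lt_one
      linarith
    · obtain ⟨a, i, ha⟩ := hall ξ hξ hξl
      have hpi := lim_sphere F (hgap i).mp
      have hqi := lim_sphere F (hgap i).mq
      have haξ : ‖F.act a ξ‖ = 1 := act_eq F a hξ
      have him : (om (p i) (q i) (F.act a ξ)).im = 0 := by
        rcases om_im_zero hpi hqi (hgap i).ne haξ (Arc.ne ha) (Arc.ne' ha) with h | h
        · exact h.1
        · exact absurd ha.2 (not_lt.2 h.2.le)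
      have hDpq : F.act a ξ ∈ Dpq (p i) (q i) := ⟨haξ.le, Arc.ne ha, Arc.ne' ha⟩
      have hc1 : Tendsto (fun k => F.act a (F.act (g k) (x (φ k)))) atTop (𝓝 (F.act a ξ)) := by
        have hc := (act_cont F a) ξ (by simpa using hξ.le)
        refine hc.tendsto.comp (tendsto_nhdsWithin_iff.2 ⟨hlim, Eventually.of_forall fun k => ?_⟩)
        have := (act_lt F (g k) (hx1 (φ k))).le
        simpa using this
      have hc2 : Tendsto (fun k => (om (p i) (q i) (F.act a (F.act (g k) (x (φ k))))).im) atTop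
          (𝓝 (om (p i) (q i) (F.act a ξ)).im) := by
        have hc := (om_cont hpi hqi (hgap i).ne) _ hDpq
        refine (Complex.continuous_im.tendsto _).comp (hc.tendsto.comp
          (tendsto_nhdsWithin_iff.2 ⟨hc1, Eventually.of_forall fun k => ?_⟩))
        have h7 : ‖F.act a (F.act (g k) (x (φ k)))‖ < 1 := act_lt F a (act_lt F (g k) (hx1 (φ k)))
        refine ⟨h7.le, ?_, ?_⟩
        · intro he
          rw [he, hpi] at h7
          exact lt_irrefl _ h7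
        · intro he
          rw [he, hqi] at h7
          exact lt_irrefl _ h7
      rw [him] at hc2
      have h8 : ∀ k, y ≤ (om (p i) (q i) (F.act a (F.act (g k) (x (φ k))))).im := by
        intro k
        rw [← act_mul F a (g k) (hx1 (φ k)).le]
        exact hxi (φ k) i (a * g k)
      have h9 := ge_of_tendsto hc2 (Eventually.of_forall h8)
      linarith

end TN

end S_H57_TG_GPZ
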