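import Pool.Agent.H12.KS.K11
import Pool.Agent.H12.KS.K14

/-! Joined modules of the proof of MP_8a27c0_an (one section per module). -/

section S_H12_TN_GP

/-!
GP (section 3.5 of the note: gaps of the limit set of a nonelementary group with (UC)).  proof: Pool/Agent/H57/TG
-/

namespace TN
open Metric Set Filter Topology DS

variable {Γ : Type} [Group Γ]

/-- representatives of the orbits of gaps of the limit set: the gap number `i` is the arc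
`{ξ | 0 < eta (p i) (q i) ξ}` of the circle, with end points `p i`, `q i` -/
structure Gaps (F : Fuchs Γ) (n : ℕ) (κ : Fin n → Γ) (p q : Fin n → ℂ) : Prop where
  ar : ∀ i, F.AR (κ i) (p i) (q i)
  stab : ∀ i g, F.act g (p i) = p i ↔ g ∈ Subgroup.zpowers (κ i)
  gap : ∀ i, ∀ ξ : ℂ, ‖ξ‖ = 1 → ξ ≠ p i → 0 < (eta (p i) (q i) ξ).re → ξ ∉ F.lim
  all : ∀ ξ : ℂ, ‖ξ‖ = 1 → ξ ∉ F.lim → ∃ g i, F.act g ξ ≠ p i ∧ 0 < (eta (p i) (q i) (F.act g ξ)).re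
  disj : ∀ i j g, (i ≠ j ∨ g ∉ Subgroup.zpowers (κ i)) → ∀ x ∈ ball (0:ℂ) 1,
    0 < (eta (p i) (q i) x).re → ¬ 0 < (eta (p j) (q j) (F.act g x)).re
  coc : ∀ y : ℝ, 0 < y → ∃ ρ : ℝ, ρ < 1 ∧ ∀ x ∈ ball (0:ℂ) 1,
    (∀ i g, y ≤ (om (p i) (q i) (F.act g x)).im) → ∃ g, ‖F.act g x‖ ≤ ρ

theorem gaps (F : Fuchs Γ) (hN : F.Nonel) (hU : F.UC) :
    ∃ (n : ℕ) (κ : Fin n → Γ) (p q : Fin n → ℂ), Gaps F n κ p q := by
  obtain ⟨n, κ, p, q, h1, h2, h3, h4, h5, h6⟩ := gaps_aux F hN hU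
  exact ⟨n, κ, p, q, h1, h2, h3, h4, h5, h6⟩

end TN

end S_H12_TN_GP

section S_H12_TN_TCs

/-!
TCs: cocompactness on triples of limit points (`TN.tc_of_uc`, section 3.1(e) of the note), proved in Pool/Agent/H57/TG/TCP.lean.
-/

end S_H12_TN_TCs
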