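import Pool.Agent.H12.KS.K02

/-! Joined modules of the proof of MP_8a27c0_an (one section per module). -/

section S_H12_TN_JW

/-!
JW (the covering `ω ↦ exp (2πiω/T)` of the punctured plane).
`ew_eq_iff`: `Complex.exp_eq_exp_iff_exists_int`.  `ew_surj`: `ω = T log w / (2πi)`.
`ew_map`: the map has the nonzero strict derivative `(2πi/T) ew`: `HasStrictDerivAt.map_nhds_eq`.
`ew_contOn`: let `w ∈ S`, `w = ew ω`.  `𝓝[S] w = map (ew T) (𝓝[ew T ⁻¹' S] ω)` by `ew_map` and `Filter.map_inf_principal_preimage`-like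
(`map m (f ⊓ 𝓟 (m ⁻¹' s)) = map m f ⊓ 𝓟 s`); `f ∘ ew T` agrees with `G` on `ew T ⁻¹' S`.
`ew_log`: `L` is invariant under all `z * T` on the (invariant) set `ew T ⁻¹' S` (induction), so it takes the same value at two
points with the same image; define `M w = L ω` for a chosen `ω` with `ew T ω = w`; `M (ew T ω) = L ω`; `ew_contOn`.
-/

namespace TN
open Metric Set Filter Topology DS

/-- the covering of the punctured plane -/
noncomputable def ew (T : ℝ) (ω : ℂ) : ℂ := Complex.exp (2 * Real.pi * Complex.I * ω / T)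

theorem ew_cont (T : ℝ) : Continuous (ew T) := by
  unfold ew
  fun_prop

theorem ew_ne (T : ℝ) (ω : ℂ) : ew T ω ≠ 0 := Complex.exp_ne_zero _

theorem ew_add (T : ℝ) (ω ω' : ℂ) : ew T (ω + ω') = ew T ω * ew T ω' := by
  unfold ew
  rw [← Complex.exp_add]
  congr 1
  ring

theorem ew_norm (T : ℝ) (ω : ℂ) : ‖ew T ω‖ = Real.exp (-(2 * Real.pi * ω.im / T)) := by
  unfold ew
  rw [Complex.norm_exp]
  congr 1
  have h : 2 * (Real.pi : ℂ) * Complex.I * ω / T = ((2 * Real.pi / T : ℝ) : ℂ) * (Complex.I * ω) := by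
    push_cast
    ring
  rw [h, Complex.re_ofReal_mul]
  simp only [Complex.mul_re, Complex.I_re, Complex.I_im, zero_mul, one_mul, zero_sub]
  ring

theorem ew_eq_iff {T : ℝ} (hT : 0 < T) {ω ω' : ℂ} :
    ew T ω = ew T ω' ↔ ∃ z : ℤ, ω' = ω + z * T := by
  have hT' : (T : ℂ) ≠ 0 := by exact_mod_cast hT.ne'
  have hpi : (2 * (Real.pi : ℂ) * Complex.I) ≠ 0 := Complex.two_pi_I_ne_zero
  unfold ew
  rw [eq_comm, Complex.exp_eq_exp_iff_exists_int]
  constructor
  · rintro ⟨n, hn⟩
    refine ⟨n, ?_⟩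
    have h1 : 2 * (Real.pi : ℂ) * Complex.I * ω' = 2 * Real.pi * Complex.I * (ω + n * T) := by
      have h2 := congrArg (fun z => z * (T : ℂ)) hn
      simp only [div_mul_cancel₀ _ hT', add_mul] at h2
      rw [h2]
      ring
    exact mul_left_cancel₀ hpi h1
  · rintro ⟨n, rfl⟩
    refine ⟨n, ?_⟩
    field_simp

theorem ew_surj {T : ℝ} (hT : 0 < T) {w : ℂ} (hw : w ≠ 0) : ∃ ω, ew T ω = w := by
  have hT' : (T : ℂ) ≠ 0 := by exact_mod_cast hT.ne'
  have hpi : (2 * (Real.pi : ℂ) * Complex.I) ≠ 0 := Complex.two_pi_I_ne_zero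
  refine ⟨T * Complex.log w / (2 * Real.pi * Complex.I), ?_⟩
  unfold ew
  have h : 2 * (Real.pi : ℂ) * Complex.I * (T * Complex.log w / (2 * Real.pi * Complex.I)) / T
      = Complex.log w := by
    field_simp
  rw [h, Complex.exp_log hw]

theorem ew_map {T : ℝ} (hT : 0 < T) (ω : ℂ) : map (ew T) (𝓝 ω) = 𝓝 (ew T ω) := by
  have hT' : (T : ℂ) ≠ 0 := by exact_mod_cast hT.ne'
  have hpi : (2 * (Real.pi : ℂ) * Complex.I) ≠ 0 := Complex.two_pi_I_ne_zero
  have h1 : HasStrictDerivAt (fun x : ℂ => 2 * (Real.pi : ℂ) * Complex.I * x / T)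
      (2 * Real.pi * Complex.I * 1 / T) ω :=
    ((hasStrictDerivAt_id ω).const_mul (2 * (Real.pi : ℂ) * Complex.I)).div_const (T : ℂ)
  have h2 := h1.cexp
  have h3 : HasStrictDerivAt (ew T) (Complex.exp (2 * Real.pi * Complex.I * ω / T) *
      (2 * Real.pi * Complex.I * 1 / T)) ω := h2
  refine h3.map_nhds_eq ?_
  refine mul_ne_zero (Complex.exp_ne_zero _) ?_
  rw [mul_one]
  exact div_ne_zero hpi hT'

theorem ew_open {T : ℝ} (hT : 0 < T) {O : Set ℂ} (hO : IsOpen O) : IsOpen (ew T '' O) := by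
  have h : IsOpenMap (ew T) := by
    rw [isOpenMap_iff_nhds_le]
    intro ω
    rw [ew_map hT]
  exact h O hO

theorem ew_contOn {T : ℝ} (hT : 0 < T) {S : Set ℂ} (hS : ∀ w ∈ S, w ≠ 0) {f G : ℂ → ℂ}
    (hG : ContinuousOn G (ew T ⁻¹' S)) (h : ∀ ω, ew T ω ∈ S → f (ew T ω) = G ω) :
    ContinuousOn f S := by
  intro w hw
  obtain ⟨ω, rfl⟩ := ew_surj hT (hS w hw)
  have h1 : 𝓝[S] (ew T ω) = map (ew T) (𝓝[ew T ⁻¹' S] ω) := by
    unfold nhdsWithin
    rw [← ew_map hT ω]
    ext A
    simp only [mem_map, mem_inf_principal]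
    rfl
  show Tendsto f (𝓝[S] (ew T ω)) (𝓝 (f (ew T ω)))
  rw [h1, tendsto_map'_iff, h ω hw]
  refine Tendsto.congr' ?_ (hG ω hw)
  filter_upwards [self_mem_nhdsWithin] with x hx
  exact (h x hx).symm

theorem JW_per {T : ℝ} {S : Set ℂ} {L : ℂ → ℂ}
    (hinv : ∀ (ω : ℂ) (z : ℤ), ew T (ω + z * T) = ew T ω)
    (hp : ∀ ω, ew T ω ∈ S → L (ω + T) = L ω) (n : ℕ) :
    ∀ ω, ew T ω ∈ S → L (ω + n * T) = L ω := by
  induction n with
  | zero => intro ω _; simp
  | succ n ih =>
    intro ω hω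
    have h1 := hp (ω + n * T) (by
      have := hinv ω (n : ℤ)
      rw [Int.cast_natCast] at this
      rw [this]; exact hω)
    rw [ih ω hω] at h1
    rw [← h1]
    congr 1
    push_cast
    ring

theorem ew_log {T : ℝ} (hT : 0 < T) {S : Set ℂ} (hS : ∀ w ∈ S, w ≠ 0) {f L : ℂ → ℂ}
    (hL : ContinuousOn L (ew T ⁻¹' S)) (hp : ∀ ω, ew T ω ∈ S → L (ω + T) = L ω)
    (h : ∀ ω, ew T ω ∈ S → f (ew T ω) = Complex.exp (L ω)) : HasLog f S := by
  classical
  have hinv : ∀ (ω : ℂ) (z : ℤ), ew T (ω + z * T) = ew T ω := fun ω z =>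
    ((ew_eq_iff hT).2 ⟨z, rfl⟩).symm
  have hper : ∀ ω ω', ew T ω ∈ S → ew T ω = ew T ω' → L ω = L ω' := by
    intro ω ω' hω he
    obtain ⟨z, rfl⟩ := (ew_eq_iff hT).1 he
    rcases Int.eq_nat_or_neg z with ⟨n, rfl | rfl⟩
    · rw [Int.cast_natCast, JW_per hinv hp n ω hω]
    · have h1 := JW_per hinv hp n (ω + (-(n : ℤ) : ℤ) * T) (by rw [hinv]; exact hω)
      rw [← h1]
      congr 1
      push_cast
      ring
  choose! g hg using fun (w : ℂ) (hw : w ≠ 0) => ew_surj hT hw
  have key : ∀ ω, ew T ω ∈ S → L (g (ew T ω)) = L ω := by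
    intro ω hω
    have h1 : ew T (g (ew T ω)) = ew T ω := hg _ (ew_ne T ω)
    exact hper _ _ (by rw [h1]; exact hω) h1
  refine ⟨fun w => L (g w), ?_, ?_⟩
  · exact ew_contOn hT hS hL key
  · intro w hw
    have h1 := hg w (hS w hw)
    have h2 := h (g w) (by rw [h1]; exact hw)
    rw [h1] at h2
    exact h2

end TN

end S_H12_TN_JW

section S_H12_TN_JH

/-!
JH (pushing a hole to the punctured plane).  `closure O` is compact (closed, bounded), so `ew T '' closure O` is compact, hence closed and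
contains `closure (ew T '' O)`; the other inclusion is `image_closure_subset_closure_image`.  `ew T '' O` is open (`ew_open`) and bounded.
`ew T` is injective on `closure O` by `ew_eq_iff` and `hd`.  The frontier of `ew T '' O` is
`ew T '' closure O \ ew T '' O`, contained in `ew T '' frontier O`.  Let `r w` be the unique point of `closure O` with
`ew T (r w) = w`, for `w ∈ ew T '' closure O`; `r` is continuous there (continuous injection of a compact space is an embedding; or: for a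
closed `C`, `r ⁻¹' C ∩ ew T '' closure O = ew T '' (C ∩ closure O)` is closed).  If `L` is a logarithm of `f ∘ ew T` on `frontier O` then
`L ∘ r` is one of `f` on the frontier of the image (`r` maps it to `frontier O`).
-/

namespace TN
open Metric Set Filter Topology DS

theorem hole_push {T : ℝ} (hT : 0 < T) {O : Set ℂ} (hO : IsOpen O) (hb : Bornology.IsBounded O)
    (hd : ∀ z : ℤ, z ≠ 0 → ∀ ω ∈ closure O, ω + z * T ∉ closure O) :
    IsOpen (ew T '' O) ∧ Bornology.IsBounded (ew T '' O) ∧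
      closure (ew T '' O) = ew T '' closure O ∧
      ∀ f : ℂ → ℂ, HasLog (fun ω => f (ew T ω)) (frontier O) →
        HasLog f (frontier (ew T '' O)) := by
  have hC : IsCompact (closure O) := hb.isCompact_closure
  have hopen := ew_open hT hO
  have hcl : closure (ew T '' O) = ew T '' closure O :=
    (image_closure_of_isCompact hC (ew_cont T).continuousOn).symm
  have hinj : InjOn (ew T) (closure O) := by
    intro ω hω ω' hω' h
    obtain ⟨z, hz⟩ := (ew_eq_iff hT).1 h
    by_cases hz0 : z = 0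
    · rw [hz, hz0]; simp
    · exact absurd (hz ▸ hω') (hd z hz0 ω hω)
  refine ⟨hopen, (hC.image (ew_cont T)).isBounded.subset (image_mono subset_closure), hcl, ?_⟩
  rintro f ⟨L, hLc, hL⟩
  have hr1 : ∀ w ∈ ew T '' closure O, Function.invFunOn (ew T) (closure O) w ∈ closure O :=
    fun w hw => Function.invFunOn_mem hw
  have hr2 : ∀ w ∈ ew T '' closure O, ew T (Function.invFunOn (ew T) (closure O) w) = w :=
    fun w hw => Function.invFunOn_eq hw
  have hrc : ContinuousOn (Function.invFunOn (ew T) (closure O)) (ew T '' closure O) := by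
    rw [continuousOn_iff_isClosed]
    intro t ht
    refine ⟨ew T '' (closure O ∩ t), ((hC.inter_right ht).image (ew_cont T)).isClosed, ?_⟩
    ext w
    constructor
    · rintro ⟨h1, h2⟩
      exact ⟨⟨_, ⟨hr1 w h2, h1⟩, hr2 w h2⟩, h2⟩
    · rintro ⟨⟨ω, ⟨h1, h2⟩, rfl⟩, h3⟩
      refine ⟨?_, h3⟩
      have := hinj (hr1 _ h3) h1 (hr2 _ h3)
      show Function.invFunOn (ew T) (closure O) (ew T ω) ∈ t
      rw [this]
      exact h2
  have hfr : ∀ w ∈ frontier (ew T '' O), w ∈ ew T '' closure O ∧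
      Function.invFunOn (ew T) (closure O) w ∈ frontier O := by
    intro w hw
    rw [hopen.frontier_eq, hcl] at hw
    refine ⟨hw.1, ?_⟩
    rw [hO.frontier_eq]
    refine ⟨hr1 w hw.1, fun h => hw.2 ⟨_, h, hr2 w hw.1⟩⟩
  refine ⟨fun w => L (Function.invFunOn (ew T) (closure O) w), ?_, ?_⟩
  · exact hLc.comp (hrc.mono fun w hw => (hfr w hw).1) fun w hw => (hfr w hw).2
  · intro w hw
    have h1 := hL _ (hfr w hw).2
    have h2 := hr2 w (hfr w hw).1
    rw [← h1]
    show f w = f (ew T (Function.invFunOn (ew T) (closure O) w))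
    rw [h2]

end TN

end S_H12_TN_JH

section S_H12_TN_RA

/-!
RA (lift of an orientation preserving circle homeomorphism).  Let `E t = exp (2 π i t)`, `L` a continuous logarithm of `H z / z` on the
circle.  `‖H z / z‖ = 1`, so `L` is purely imaginary; put `h t = t + (L (E t)).im / (2 π)`.  Then `H (E t) = E t * exp (L (E t)) = E (h t)`,
`h` is continuous, `h (t + 1) = h t + 1`, and `h` is injective: `h s = h t` gives `H (E s) = H (E t)`, so `E s = E t`,
`t = s + n`, `h t = h s + n`, `n = 0`.  A continuous injective function on `ℝ` is strictly monotone or strictly antitone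
(`Continuous.strictMono_of_inj`), and `h 1 = h 0 + 1`.
-/

namespace TN
open Metric Set Filter Topology DS

theorem circle_lift {H : ℂ → ℂ} (hc : ContinuousOn H (sphere 0 1))
    (hm : MapsTo H (sphere 0 1) (sphere 0 1)) (hi : InjOn H (sphere 0 1))
    (ho : HasLog (fun z => H z / z) (sphere 0 1)) :
    ∃ h : ℝ → ℝ, Continuous h ∧ StrictMono h ∧ (∀ t, h (t + 1) = h t + 1) ∧
      ∀ t : ℝ, H (Complex.exp (2 * Real.pi * t * Complex.I)) =
        Complex.exp (2 * Real.pi * (h t : ℝ) * Complex.I) := by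
  obtain ⟨L, hL, hLH⟩ := ho
  have hpi : (0:ℝ) < 2 * Real.pi := by positivity
  set E : ℝ → ℂ := fun t => Complex.exp (2 * Real.pi * t * Complex.I) with hE
  have hEcont : Continuous E := by
    rw [hE]
    fun_prop
  have hEn : ∀ t, ‖E t‖ = 1 := by
    intro t
    have : E t = Complex.exp (((2 * Real.pi * t : ℝ) : ℂ) * Complex.I) := by
      rw [hE]
      push_cast
      rfl
    rw [this, Complex.norm_exp_ofReal_mul_I]
  have hEs : ∀ t, E t ∈ sphere (0:ℂ) 1 := fun t => mem_sphere_zero_iff_norm.2 (hEn t)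
  have hE0 : ∀ t, E t ≠ 0 := fun t => Complex.exp_ne_zero _
  have hEint : ∀ (t : ℝ) (n : ℤ), E (t + n) = E t := by
    intro t n
    rw [hE]
    show Complex.exp (2 * Real.pi * ((t + n : ℝ) : ℂ) * Complex.I) =
      Complex.exp (2 * Real.pi * (t : ℂ) * Complex.I)
    rw [Complex.exp_eq_exp_iff_exists_int]
    refine ⟨n, ?_⟩
    push_cast
    ring
  have hre : ∀ t, (L (E t)).re = 0 := by
    intro t
    have h1 : ‖Complex.exp (L (E t))‖ = 1 := by
      rw [← hLH _ (hEs t), norm_div, hEn, mem_sphere_zero_iff_norm.1 (hm (hEs t)), div_one]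
    rw [Complex.norm_exp] at h1
    exact (Real.exp_eq_one_iff _).1 h1
  set h : ℝ → ℝ := fun t => t + (L (E t)).im / (2 * Real.pi) with hh
  have hcont : Continuous h := by
    have h1 : Continuous fun t => L (E t) := hL.comp_continuous hEcont hEs
    have h2 : Continuous fun t => (L (E t)).im := Complex.continuous_im.comp h1
    exact continuous_id.add (h2.div_const _)
  have hHE : ∀ t, H (E t) = E (h t) := by
    intro t
    have h1 : H (E t) = E t * Complex.exp (L (E t)) := by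
      rw [← hLH _ (hEs t), mul_div_cancel₀ _ (hE0 t)]
    rw [h1, hE]
    show Complex.exp (2 * Real.pi * (t : ℂ) * Complex.I) * Complex.exp (L (E t)) =
      Complex.exp (2 * Real.pi * ((h t : ℝ) : ℂ) * Complex.I)
    rw [← Complex.exp_add]
    congr 1
    have h2 : L (E t) = ((L (E t)).im : ℂ) * Complex.I := by
      apply Complex.ext
      · simp [hre t]
      · simp
    have h3 : (2 * Real.pi : ℂ) ≠ 0 := by exact_mod_cast hpi.ne'
    rw [h2, hh]
    push_cast
    have h4 : (2 * (Real.pi : ℂ)) * ((t : ℂ) + ((L (E t)).im : ℂ) / (2 * (Real.pi : ℂ))) =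
        2 * Real.pi * t + ((L (E t)).im : ℂ) := by
      field_simp
    rw [h4]
    ring
  have hint : ∀ (t : ℝ) (n : ℤ), h (t + n) = h t + n := by
    intro t n
    show t + n + (L (E (t + n))).im / (2 * Real.pi) = t + (L (E t)).im / (2 * Real.pi) + n
    rw [hEint]
    ring
  have hinj : Function.Injective h := by
    intro s t hst
    have h1 : H (E s) = H (E t) := by rw [hHE, hHE, hst]
    have h2 : E s = E t := hi (hEs s) (hEs t) h1
    have h3 : Complex.exp (2 * Real.pi * (s : ℂ) * Complex.I) =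
      Complex.exp (2 * Real.pi * (t : ℂ) * Complex.I) := h2
    obtain ⟨n, hn⟩ := Complex.exp_eq_exp_iff_exists_int.1 h3
    have h4 : (2 * Real.pi * Complex.I : ℂ) ≠ 0 := Complex.two_pi_I_ne_zero
    have h5 : ((s : ℝ) : ℂ) = ((t + n : ℝ) : ℂ) := by
      apply mul_left_cancel₀ h4
      push_cast
      linear_combination hn
    have h6 : s = t + n := Complex.ofReal_injective h5
    have h7 := hint t n
    rw [← h6, hst] at h7
    have h8 : (n : ℝ) = 0 := by linarith
    rw [h6, h8, add_zero]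
  refine ⟨h, hcont, ?_, ?_, hHE⟩
  · rcases hcont.strictMono_of_inj hinj with h1 | h1
    · exact h1
    · exfalso
      have h2 : h 1 < h 0 := h1 (by norm_num)
      have h3 := hint 0 1
      norm_num at h3
      linarith
  · intro t
    have := hint t 1
    simpa using this

end TN

end S_H12_TN_RA

section S_H12_TN_RB

/-!
RB (rotation theory).  `h` is a continuous strictly increasing function with `h (t+1) = h t + 1`, without periodic point modulo 1.
Make it a `CircleDeg1Lift` `f`, which is a unit (`h` is a bijection with an increasing inverse).  `τ = translationNumber f` is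
irrational (`CircleDeg1Lift.translationNumber_eq_rat_iff`: otherwise there are `n > 0`, `m`, `x` with `h^[n] x = x + m`).
`CircleDeg1Lift.semiconj_of_isUnit_of_translationNumber_eq` for `f` and the translation by `τ` gives a monotone `φ` with
`φ (t+1) = φ t + 1`, `φ (h t) = φ t + τ`.  Its range contains all `φ 0 + n τ + m` (`n : ℕ`, `m : ℤ`), a dense set as `τ` is irrational
(the additive submonoid generated by `τ`, `1`, `-1` is dense: e.g. fractional parts of `n τ`), so `φ` is continuous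
(`Monotone.continuous_of_denseRange`).
The numbers `n τ + m` (`n ≥ 1`, `m : ℤ`) are dense, so choose recursively `a i ≥ 1`, `b i` with `0 < ε i < min (1/(i+2)) (ε (i-1))`,
`ε i = a i * τ + b i`.  `φ (h^[a] t + b) = φ t + a τ + b`.
-/

namespace TN
open Metric Set Filter Topology DS

/-- an irrational rotation system: `φ` semiconjugates the maps `t ↦ h^[a i] t + b i` to the translations by `ε i` -/
structure Rot (h φ : ℝ → ℝ) (a : ℕ → ℕ) (b : ℕ → ℤ) (ε : ℕ → ℝ) : Prop where
  φc : Continuous φ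
  φm : Monotone φ
  φ1 : ∀ t, φ (t + 1) = φ t + 1
  apos : ∀ i, 1 ≤ a i
  εpos : ∀ i, 0 < ε i
  εlt : ∀ i, ε i < 1
  εanti : StrictAnti ε
  εlim : Tendsto ε atTop (𝓝 0)
  φh : ∀ i t, φ (h^[a i] t + b i) = φ t + ε i

theorem rb_small {τ : ℝ} (hτ : ∀ n : ℕ, 1 ≤ n → ∀ m : ℤ, (n : ℝ) * τ ≠ m) (δ : ℝ) (hδ : 0 < δ) :
    ∃ p : ℕ × ℤ, 1 ≤ p.1 ∧ 0 < (p.1 : ℝ) * τ + p.2 ∧ (p.1 : ℝ) * τ + p.2 < δ := by
  obtain ⟨n, hn⟩ := exists_nat_one_div_lt hδ
  obtain ⟨j, k, hk0, hkn, hle⟩ := Real.exists_int_int_abs_mul_sub_le τ (Nat.succ_pos n)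
  obtain ⟨k', rfl⟩ : ∃ k' : ℕ, k = k' := ⟨k.toNat, by omega⟩
  have hk1 : 1 ≤ k' := by omega
  have hlt : |((k' : ℕ) : ℝ) * τ - j| < δ := by
    refine lt_of_le_of_lt ?_ hn
    have h2 : |(((k' : ℕ) : ℤ) : ℝ) * τ - j| ≤ 1 / (((n + 1 : ℕ) : ℝ) + 1) := hle
    rw [Int.cast_natCast] at h2
    refine h2.trans ?_
    push_cast
    apply one_div_le_one_div_of_le <;> nlinarith [Nat.cast_nonneg (α := ℝ) n]
  have hne : ((k' : ℕ) : ℝ) * τ - j ≠ 0 := fun h => hτ k' hk1 j (by linarith)
  rcases lt_or_gt_of_ne hne with hneg | hpos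
  · set x : ℝ := j - (k' : ℝ) * τ with hx
    have hx0 : 0 < x := by rw [hx]; linarith
    have hxδ : x < δ := by
      have h2 := abs_lt.1 hlt
      rw [hx]; linarith [h2.1]
    by_cases hx1 : x < 1
    · set N : ℕ := ⌊1 / x⌋₊ with hN
      have h1 : (N : ℝ) ≤ 1 / x := Nat.floor_le (by positivity)
      have h2 : 1 / x < N + 1 := Nat.lt_floor_add_one _
      have hN1 : 1 ≤ N := by
        rw [hN]
        apply Nat.le_floor
        rw [Nat.cast_one, le_div_iff₀ hx0]
        linarith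
      have h3 : (N : ℝ) * x ≤ 1 := by rwa [le_div_iff₀ hx0] at h1
      have h4 : 1 < ((N : ℝ) + 1) * x := by rwa [div_lt_iff₀ hx0] at h2
      have h5 : (N : ℝ) * x ≠ 1 := by
        intro h
        apply hτ (N * k') (Nat.mul_pos hN1 hk1) (N * j - 1)
        push_cast
        rw [hx] at h
        linarith
      refine ⟨(N * k', 1 - N * j), Nat.mul_pos hN1 hk1, ?_, ?_⟩
      · have : (((N * k' : ℕ)) : ℝ) * τ + ((1 - N * j : ℤ) : ℝ) = 1 - N * x := by
          push_cast
          rw [hx]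
          ring
        show 0 < (((N * k' : ℕ)) : ℝ) * τ + ((1 - N * j : ℤ) : ℝ)
        rw [this]
        have := lt_of_le_of_ne h3 h5
        linarith
      · have : (((N * k' : ℕ)) : ℝ) * τ + ((1 - N * j : ℤ) : ℝ) = 1 - N * x := by
          push_cast
          rw [hx]
          ring
        show (((N * k' : ℕ)) : ℝ) * τ + ((1 - N * j : ℤ) : ℝ) < δ
        rw [this]
        linarith
    · push Not at hx1
      -- `δ > 1`: shift by an integer
      refine ⟨(k', - ⌊(k' : ℝ) * τ⌋), hk1, ?_, ?_⟩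
      · show 0 < (k' : ℝ) * τ + ((-⌊(k' : ℝ) * τ⌋ : ℤ) : ℝ)
        push_cast
        have h1 := Int.floor_le ((k' : ℝ) * τ)
        have h2 : (k' : ℝ) * τ ≠ ⌊(k' : ℝ) * τ⌋ := hτ k' hk1 _
        have h3 := lt_of_le_of_ne h1 (Ne.symm h2)
        linarith
      · show (k' : ℝ) * τ + ((-⌊(k' : ℝ) * τ⌋ : ℤ) : ℝ) < δ
        push_cast
        have h1 := Int.lt_floor_add_one ((k' : ℝ) * τ)
        linarith
  · refine ⟨(k', -j), hk1, ?_, ?_⟩
    · show 0 < (k' : ℝ) * τ + ((-j : ℤ) : ℝ)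
      push_cast
      linarith
    · show (k' : ℝ) * τ + ((-j : ℤ) : ℝ) < δ
      push_cast
      have h2 := abs_lt.1 hlt
      linarith [h2.2]

theorem rb_dense {τ : ℝ} (hτ : ∀ n : ℕ, 1 ≤ n → ∀ m : ℤ, (n : ℝ) * τ ≠ m) (c d : ℝ) (hcd : c < d) :
    ∃ (n : ℕ) (m : ℤ), c < (n : ℝ) * τ + m ∧ (n : ℝ) * τ + m < d := by
  obtain ⟨⟨a, b⟩, ha, h0, h1⟩ := rb_small hτ (d - c) (by linarith)
  simp only at ha h0 h1
  set s : ℝ := (a : ℝ) * τ + b with hs
  have hm : ((⌊c⌋ : ℤ) : ℝ) ≤ c := Int.floor_le c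
  set k : ℕ := ⌊(c - ⌊c⌋) / s⌋₊ with hk
  have hnn : 0 ≤ (c - ⌊c⌋) / s := div_nonneg (by linarith) h0.le
  have h2 : (k : ℝ) ≤ (c - ⌊c⌋) / s := Nat.floor_le hnn
  have h3 : (c - ⌊c⌋) / s < k + 1 := Nat.lt_floor_add_one _
  rw [le_div_iff₀ h0] at h2
  rw [div_lt_iff₀ h0] at h3
  have he : (((k + 1) * a : ℕ) : ℝ) * τ + (((k + 1) * b + ⌊c⌋ : ℤ) : ℝ) = (k + 1) * s + ⌊c⌋ := by
    push_cast
    rw [hs]
    ring
  refine ⟨(k + 1) * a, (k + 1) * b + ⌊c⌋, ?_, ?_⟩
  · rw [he]; linarith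
  · rw [he]; linarith

theorem exists_rot {h : ℝ → ℝ} (hc : Continuous h) (hm : StrictMono h) (h1 : ∀ t, h (t + 1) = h t + 1)
    (hp : ∀ n : ℕ, 1 ≤ n → ∀ m : ℤ, ∀ t, h^[n] t ≠ t + m) :
    ∃ φ a b ε, Rot h φ a b ε := by
  let f : CircleDeg1Lift := ⟨⟨h, hm.monotone⟩, h1⟩
  have hfh : (f : ℝ → ℝ) = h := rfl
  have hfc : Continuous f := hc
  have hsurj : Function.Surjective f := f.continuous_iff_surjective.1 hfc
  have hu : IsUnit f := CircleDeg1Lift.isUnit_iff_bijective.2 ⟨hm.injective, hsurj⟩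
  set τ : ℝ := f.translationNumber with hτdef
  have hτ : ∀ n : ℕ, 1 ≤ n → ∀ m : ℤ, (n : ℝ) * τ ≠ m := by
    intro n hn m he
    have hn0 : (n : ℝ) ≠ 0 := by positivity
    have h2 : f.translationNumber = m / n := by
      rw [eq_div_iff hn0, mul_comm]
      exact he
    obtain ⟨x, hx⟩ := (f.translationNumber_eq_rat_iff hfc (Nat.lt_of_lt_of_le Nat.zero_lt_one hn)).1 h2
    rw [CircleDeg1Lift.coe_pow, hfh] at hx
    exact hp n hn m x hx
  have htr : (((CircleDeg1Lift.translate (Multiplicative.ofAdd τ)) : CircleDeg1Liftˣ) :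
      CircleDeg1Lift).translationNumber = τ := CircleDeg1Lift.translationNumber_translate τ
  obtain ⟨F, hF⟩ := CircleDeg1Lift.semiconj_of_isUnit_of_translationNumber_eq hu
    (Units.isUnit (CircleDeg1Lift.translate (Multiplicative.ofAdd τ))) htr.symm
  have hF1 : ∀ t, F (h t) = F t + τ := by
    intro t
    have h2 := hF t
    rw [CircleDeg1Lift.translate_apply] at h2
    rw [add_comm]
    exact h2
  have hFn : ∀ (n : ℕ) t, F (h^[n] t) = F t + n * τ := by
    intro n
    induction n with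
    | zero => intro t; simp
    | succ n ih =>
      intro t
      rw [Function.iterate_succ_apply, ih, hF1]
      push_cast
      ring
  have hFc : Continuous F := by
    apply F.monotone.continuous_of_denseRange
    apply dense_of_exists_between
    intro c d hcd
    obtain ⟨n, m, hc1, hd1⟩ := rb_dense hτ (c - F 0) (d - F 0) (by linarith)
    refine ⟨F (h^[n] 0 + m), ⟨_, rfl⟩, ?_, ?_⟩
    · rw [CircleDeg1Lift.map_add_int, hFn]; linarith
    · rw [CircleDeg1Lift.map_add_int, hFn]; linarith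
  let T := {p : ℕ × ℤ // 1 ≤ p.1 ∧ 0 < (p.1 : ℝ) * τ + p.2 ∧ (p.1 : ℝ) * τ + p.2 < 1}
  let v : T → ℝ := fun p => (p.1.1 : ℝ) * τ + p.1.2
  have hv0 : ∀ p, 0 < v p := fun p => p.2.2.1
  have hv1 : ∀ p, v p < 1 := fun p => p.2.2.2
  have step : ∀ (i : ℕ) (p : T), ∃ q : T, v q < 1 / ((i : ℝ) + 2) ∧ v q < v p := by
    intro i p
    obtain ⟨q, hq1, hq2, hq3⟩ := rb_small hτ (min (1 / ((i : ℝ) + 2)) (v p))
      (lt_min (by positivity) (hv0 p))
    have h2 := lt_of_lt_of_le hq3 (min_le_left _ _)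
    have h3 := lt_of_lt_of_le hq3 (min_le_right _ _)
    exact ⟨⟨q, hq1, hq2, h3.trans (hv1 p)⟩, h2, h3⟩
  choose nx hnx1 hnx2 using step
  obtain ⟨p0, hp01, hp02, hp03⟩ := rb_small hτ 1 one_pos
  let x : ℕ → T := fun n => Nat.rec ⟨p0, hp01, hp02, hp03⟩ (fun i p => nx i p) n
  have hxs : ∀ i, x (i + 1) = nx i (x i) := fun i => rfl
  refine ⟨F, fun i => (x i).1.1, fun i => (x i).1.2, fun i => v (x i), ?_⟩
  refine ⟨hFc, F.monotone, F.map_add_one, fun i => (x i).2.1, fun i => hv0 _, fun i => hv1 _, ?_, ?_, ?_⟩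
  · apply strictAnti_nat_of_succ_lt
    intro i
    rw [hxs]
    exact hnx2 i _
  · refine squeeze_zero (fun i => (hv0 _).le) (g := fun i : ℕ => 1 / ((i : ℝ) + 1)) ?_
      tendsto_one_div_add_atTop_nhds_zero_nat
    intro i
    cases i with
    | zero =>
      have := hv1 (x 0)
      simpa using this.le
    | succ i =>
      rw [hxs]
      have := hnx1 i (x i)
      push_cast
      have he : (i : ℝ) + 1 + 1 = i + 2 := by ring
      rw [he]
      exact this.le
  · intro i t
    show F (h^[(x i).1.1] t + ((x i).1.2 : ℝ)) = F t + v (x i)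
    rw [CircleDeg1Lift.map_add_int, hFn]
    simp only [v]
    ring

end TN

end S_H12_TN_RB

section S_H12_TN_RC

/-!
RC (fibres of the semiconjugacy).  `φ` is continuous, monotone, `φ (t+1) = φ t + 1` (so `φ (t + n) = φ t + n` for integers and
`φ → ± ∞`, `φ` is onto).  `top φ t` = the largest `s` with `φ s = φ t` (the fibre is a closed bounded set: it is contained in
`[t - 1, t + 1]`), `bot φ t` the smallest.  `Cset φ` = the points where `φ` is not locally constant.
`mem_top`: to the right of `top φ t` the values are larger.  `C_fibre`: a point of `Cset` in the fibre `[bot, top]` is an end point, since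
`φ` is constant on the fibre.  `C_perfect`: if `t ∈ Cset`, then `t = top φ t` or `t = bot φ t`; in the first case, for `s > t`, there is a value
`v` with `φ t < v < φ s`, `v = φ u` and `top φ u ∈ Cset`, `t < top φ u < s`; different `v` give different points, so there are infinitely many points of `Cset` within `δ` of `t`
and one of them is not in `S`.  In the second case the same on the left.
`h_lim`: `h^[a i] t + b i` has `φ`-value `φ t + ε i > φ t` so it is `> top φ t`; for `s > top φ t` it is `< s` as soon as `ε i < φ s - φ t`.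
`exists_seq`: values `v n = φ 0 + (1 - 1/(n+1))/2`, points `x n = top φ u` with `φ u = v n`.
-/

namespace TN
open Metric Set Filter Topology DS

/-- the right end of the fibre of `t` -/
noncomputable def top (φ : ℝ → ℝ) (t : ℝ) : ℝ := sSup {s | φ s = φ t}

/-- the left end of the fibre of `t` -/
noncomputable def bot (φ : ℝ → ℝ) (t : ℝ) : ℝ := sInf {s | φ s = φ t}

/-- the points where `φ` is not locally constant -/
def Cset (φ : ℝ → ℝ) : Set ℝ := {t | ∀ δ > 0, ∃ s, |s - t| < δ ∧ φ s ≠ φ t}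

variable {φ : ℝ → ℝ}

theorem phi_int (h1 : ∀ t, φ (t + 1) = φ t + 1) (t : ℝ) (n : ℤ) : φ (t + n) = φ t + n := by
  induction n with
  | zero => simp
  | succ n ih =>
    have e1 : t + ((n + 1 : ℤ) : ℝ) = (t + ((n : ℤ) : ℝ)) + 1 := by push_cast; ring
    rw [e1, h1, ih]
    push_cast
    ring
  | pred n ih =>
    have e1 : t + ((-(n : ℤ) : ℤ) : ℝ) = (t + ((-(n : ℤ) - 1 : ℤ) : ℝ)) + 1 := by push_cast; ring
    rw [e1, h1] at ih
    have e2 : φ (t + ((-(n : ℤ) - 1 : ℤ) : ℝ)) = φ t + ((-(n : ℤ) : ℤ) : ℝ) - 1 := by linarith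
    rw [e2]
    push_cast
    ring

theorem RC_bdd (hm : Monotone φ) (h1 : ∀ t, φ (t + 1) = φ t + 1) (t : ℝ) :
    BddAbove {s | φ s = φ t} := by
  refine ⟨t + 1, ?_⟩
  rintro s (hs : φ s = φ t)
  by_contra h
  push Not at h
  have := hm h.le
  rw [h1, hs] at this
  linarith

theorem RC_bddb (hm : Monotone φ) (h1 : ∀ t, φ (t + 1) = φ t + 1) (t : ℝ) :
    BddBelow {s | φ s = φ t} := by
  refine ⟨t - 1, ?_⟩
  rintro s (hs : φ s = φ t)
  by_contra h
  push Not at h
  have h2 := hm h.le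
  have h3 := h1 (t - 1)
  rw [sub_add_cancel] at h3
  rw [hs] at h2
  linarith

theorem phi_top (hc : Continuous φ) (hm : Monotone φ) (h1 : ∀ t, φ (t + 1) = φ t + 1) (t : ℝ) :
    φ (top φ t) = φ t ∧ t ≤ top φ t ∧ ∀ s, top φ t < s → φ t < φ s := by
  have hne : {s | φ s = φ t}.Nonempty := ⟨t, rfl⟩
  have hcl : IsClosed {s | φ s = φ t} := isClosed_eq hc continuous_const
  have hb := RC_bdd hm h1 t
  have hmem : top φ t ∈ {s | φ s = φ t} := hcl.csSup_mem hne hb
  have hle : t ≤ top φ t := le_csSup hb rfl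
  refine ⟨hmem, hle, fun s hs => ?_⟩
  refine lt_of_le_of_ne (hm (hle.trans hs.le)) fun h => ?_
  exact absurd (le_csSup hb (show s ∈ {s | φ s = φ t} from h.symm)) (not_le.2 hs)

theorem phi_bot (hc : Continuous φ) (hm : Monotone φ) (h1 : ∀ t, φ (t + 1) = φ t + 1) (t : ℝ) :
    φ (bot φ t) = φ t ∧ bot φ t ≤ t ∧ ∀ s, s < bot φ t → φ s < φ t := by
  have hne : {s | φ s = φ t}.Nonempty := ⟨t, rfl⟩
  have hcl : IsClosed {s | φ s = φ t} := isClosed_eq hc continuous_const
  have hb := RC_bddb hm h1 t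
  have hmem : bot φ t ∈ {s | φ s = φ t} := hcl.csInf_mem hne hb
  have hle : bot φ t ≤ t := csInf_le hb rfl
  refine ⟨hmem, hle, fun s hs => ?_⟩
  refine lt_of_le_of_ne (hm (hs.le.trans hle)) fun h => ?_
  exact absurd (csInf_le hb (show s ∈ {s | φ s = φ t} from h)) (not_le.2 hs)

theorem top_congr {s t : ℝ} (h : φ s = φ t) : top φ s = top φ t ∧ bot φ s = bot φ t := by
  unfold top bot
  rw [h]
  exact ⟨rfl, rfl⟩

/-- (monotonicity is needed: otherwise the fibres can be unbounded) -/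
theorem top_int (hm : Monotone φ) (h1 : ∀ t, φ (t + 1) = φ t + 1) (t : ℝ) (n : ℤ) :
    top φ (t + n) = top φ t + n := by
  unfold top
  apply le_antisymm
  · refine csSup_le ⟨t + n, rfl⟩ ?_
    rintro s (hs : φ s = φ (t + n))
    have h2 : s - n ∈ {s | φ s = φ t} := by
      show φ (s - n) = φ t
      have h3 := phi_int h1 (s - n) n
      rw [sub_add_cancel, hs, phi_int h1] at h3
      linarith
    have := le_csSup (RC_bdd hm h1 t) h2
    linarith
  · rw [← le_sub_iff_add_le]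
    refine csSup_le ⟨t, rfl⟩ ?_
    rintro s (hs : φ s = φ t)
    rw [le_sub_iff_add_le]
    refine le_csSup (RC_bdd hm h1 (t + n)) ?_
    show φ (s + n) = φ (t + n)
    rw [phi_int h1, phi_int h1, hs]

theorem top_C (hc : Continuous φ) (hm : Monotone φ) (h1 : ∀ t, φ (t + 1) = φ t + 1) (t : ℝ) :
    top φ t ∈ Cset φ := by
  intro δ hδ
  obtain ⟨e1, _, e3⟩ := phi_top hc hm h1 t
  refine ⟨top φ t + δ / 2, ?_, ?_⟩
  · rw [add_sub_cancel_left, abs_of_pos (by linarith)]
    linarith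
  · rw [e1]
    exact (e3 _ (by linarith)).ne'

theorem C_int (h1 : ∀ t, φ (t + 1) = φ t + 1) {t : ℝ} (n : ℤ) (h : t ∈ Cset φ) :
    t + n ∈ Cset φ := by
  intro δ hδ
  obtain ⟨s, hs1, hs2⟩ := h δ hδ
  refine ⟨s + n, by rwa [add_sub_add_right_eq_sub], ?_⟩
  rw [phi_int h1, phi_int h1]
  intro h
  exact hs2 (by linarith)

/-- a point of `Cset` in a fibre is an end point -/
theorem C_fibre (hm : Monotone φ) {l r t : ℝ} (h : φ l = φ r) (hl : l < t) (hr : t < r) :
    t ∉ Cset φ := by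
  intro ht
  obtain ⟨s, hs1, hs2⟩ := ht (min (t - l) (r - t)) (lt_min (by linarith) (by linarith))
  rw [lt_min_iff] at hs1
  have h2 := abs_lt.1 hs1.1
  have h3 := abs_lt.1 hs1.2
  have e1 : φ l ≤ φ s := hm (by linarith)
  have e2 : φ s ≤ φ r := hm (by linarith)
  have e3 : φ l ≤ φ t := hm hl.le
  have e4 : φ t ≤ φ r := hm hr.le
  exact hs2 (by linarith)

theorem RC_val (hc : Continuous φ) (hm : Monotone φ) (h1 : ∀ t, φ (t + 1) = φ t + 1) {α β v : ℝ}
    (hab : α ≤ β) (hα : φ α ≤ v) (hβ : v ≤ φ β) : ∃ x ∈ Cset φ, φ x = v := by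
  obtain ⟨u, _, hu⟩ := intermediate_value_Icc hab hc.continuousOn ⟨hα, hβ⟩
  exact ⟨top φ u, top_C hc hm h1 u, by rw [(phi_top hc hm h1 u).1, hu]⟩

theorem RC_inf (hc : Continuous φ) (hm : Monotone φ) (h1 : ∀ t, φ (t + 1) = φ t + 1) {α β : ℝ}
    (hab : φ α < φ β) {S : Set ℝ} (hS : ∀ a b : ℝ, (S ∩ Icc a b).Finite) :
    ∃ s ∈ Cset φ, s ∉ S ∧ α < s ∧ s < β := by
  by_contra hcon
  push Not at hcon
  have hlt : α < β := by
    by_contra h
    push Not at h
    exact absurd (hm h) (not_le.2 hab)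
  have hsub : Ioo (φ α) (φ β) ⊆ φ '' (S ∩ Icc α β) := by
    rintro v ⟨hv1, hv2⟩
    obtain ⟨x, hx, hxv⟩ := RC_val hc hm h1 hlt.le hv1.le hv2.le
    have h2 : α < x := by
      by_contra h
      push Not at h
      have := hm h
      rw [hxv] at this
      linarith
    have h3 : x < β := by
      by_contra h
      push Not at h
      have := hm h
      rw [hxv] at this
      linarith
    refine ⟨x, ⟨?_, h2.le, h3.le⟩, hxv⟩
    by_contra hxS
    exact absurd h3 (not_lt.2 (hcon x hx hxS h2))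
  exact (Ioo_infinite hab) (((hS α β).image φ).subset hsub)

theorem C_perfect (hc : Continuous φ) (hm : Monotone φ) (h1 : ∀ t, φ (t + 1) = φ t + 1) {t : ℝ}
    (ht : t ∈ Cset φ) {S : Set ℝ} (hS : ∀ a b : ℝ, (S ∩ Icc a b).Finite) {δ : ℝ} (hδ : 0 < δ) :
    ∃ s ∈ Cset φ, s ∉ S ∧ |s - t| < δ := by
  obtain ⟨a1, a2, a3⟩ := phi_top hc hm h1 t
  obtain ⟨b1, b2, b3⟩ := phi_bot hc hm h1 t
  by_cases h : t < top φ t
  · have hb : ¬ bot φ t < t := fun h' => C_fibre hm (b1.trans a1.symm) h' h ht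
    have hb' : bot φ t = t := le_antisymm b2 (not_lt.1 hb)
    have h2 : φ (t - δ) < φ t := b3 _ (by rw [hb']; linarith)
    obtain ⟨s, hs, hsS, h3, h4⟩ := RC_inf hc hm h1 h2 hS
    refine ⟨s, hs, hsS, ?_⟩
    rw [abs_lt]
    constructor <;> linarith
  · have ht' : top φ t = t := le_antisymm (not_lt.1 h) a2
    have h2 : φ t < φ (t + δ) := a3 _ (by rw [ht']; linarith)
    obtain ⟨s, hs, hsS, h3, h4⟩ := RC_inf hc hm h1 h2 hS
    refine ⟨s, hs, hsS, ?_⟩
    rw [abs_lt]
    constructor <;> linarith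

/-- a strictly increasing sequence in `Cset` in less than one period -/
theorem exists_seq (hc : Continuous φ) (hm : Monotone φ) (h1 : ∀ t, φ (t + 1) = φ t + 1) :
    ∃ x : ℕ → ℝ, StrictMono x ∧ (∀ n, x n ∈ Cset φ) ∧ ∀ n, x n < x 0 + 1 := by
  have hv : ∀ n : ℕ, ∃ x ∈ Cset φ, φ x = φ 0 + (1 - 1 / ((n : ℝ) + 1)) / 2 := by
    intro n
    have hn : (0 : ℝ) < (n : ℝ) + 1 := by positivity
    have h2 : 1 / ((n : ℝ) + 1) ≤ 1 := by
      rw [div_le_one hn]
      have : (0 : ℝ) ≤ n := Nat.cast_nonneg n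
      linarith
    have h3 : 0 < 1 / ((n : ℝ) + 1) := by positivity
    refine RC_val hc hm h1 (zero_le_one (α := ℝ)) (by linarith) ?_
    have h4 := h1 0
    rw [zero_add] at h4
    rw [h4]
    linarith
  choose x hxC hx using hv
  have hlt : ∀ {m n : ℕ}, m < n → (1 : ℝ) / ((n : ℝ) + 1) < 1 / ((m : ℝ) + 1) := by
    intro m n hmn
    have h2 : (m : ℝ) < n := by exact_mod_cast hmn
    have h3 : (0 : ℝ) < (m : ℝ) + 1 := by positivity
    exact one_div_lt_one_div_of_lt h3 (by linarith)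
  refine ⟨x, ?_, hxC, ?_⟩
  · intro m n hmn
    by_contra h
    push Not at h
    have h2 := hm h
    rw [hx, hx] at h2
    have := hlt hmn
    linarith
  · intro n
    by_contra h
    push Not at h
    have h2 := hm h
    rw [h1, hx, hx] at h2
    have h3 : (0 : ℝ) < 1 / ((n : ℝ) + 1) := by positivity
    simp only [Nat.cast_zero, zero_add, div_one, sub_self, zero_div, add_zero] at h2
    linarith

theorem h_lim {h : ℝ → ℝ} {a : ℕ → ℕ} {b : ℕ → ℤ} {ε : ℕ → ℝ} (R : Rot h φ a b ε) (t : ℝ) :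
    Tendsto (fun i => h^[a i] t + b i) atTop (𝓝 (top φ t)) := by
  obtain ⟨a1, a2, a3⟩ := phi_top R.φc R.φm R.φ1 t
  rw [tendsto_order]
  refine ⟨fun s hs => ?_, fun s hs => ?_⟩
  · refine Eventually.of_forall fun i => hs.trans_le ?_
    by_contra h
    push Not at h
    have h2 := R.φm h.le
    rw [R.φh, a1] at h2
    have := R.εpos i
    linarith
  · have h2 := a3 s hs
    have h3 : ∀ᶠ i in atTop, ε i < φ s - φ t :=
      R.εlim.eventually_lt_const (by linarith)
    filter_upwards [h3] with i hi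
    by_contra h
    push Not at h
    have h4 := R.φm h
    rw [R.φh] at h4
    linarith

end TN

end S_H12_TN_RC

section S_H12_TN_RG

/-!
RG (arcs and separated triples on the circle).
`chord`: let `a, b, c, s` be on the unit circle, `ε ≤ ‖b - a‖`, `ε ≤ ‖c - a‖`, `b ≠ c`, and let `ell` be the real affine function
`ell x = Im ((x - b) * conj (c - b))`, vanishing exactly on the line through `b` and `c`; if `ell s * ell a < 0` (opposite sides) then `ε ≤ ‖s - a‖`.
Proof: on the circle `‖x - a‖² = 2 - 2 Re (x conj a)`, so `b, c` are in the closed half plane `P = {Re (x conj a) ≤ k}`, `k = 1 - ε²/2`.  If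
`‖s - a‖ < ε` then `Re (s conj a) > k`, and `Re (a conj a) = 1 > k` if `ε > 0` (if `ε ≤ 0` nothing to prove), so the segment `[s, a]` is in the
open half plane `Pᶜ`.  It contains a point `y` with `ell y = 0`, i.e. `y = b + t (c - b)`, `t` real, `‖y‖ ≤ 1` (convexity of the disc).
`‖y‖² = 1 - t (1 - t) ‖c - b‖²`, so `0 ≤ t ≤ 1` and `y ∈ [b, c] ⊆ P`: contradiction.
`arc_lemma`: `S` is connected and does not meet `{a, b, c}`.  On the circle, `ell x = 0` iff `x = b` or `x = c` (same computation: `t(1-t) = 0`).  So the sign of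
`ell` on `S` is constant; same for the other two lines.  If for one of them `S` is on the side opposite to the third point, `chord` gives the claim.
Otherwise every `s ∈ S` is strictly on the side of `a` for the line `bc`, on the side of `b` for `ca`, on the side of `c` for `ab`: it is in the open triangle,
so `‖s‖ < 1`: contradiction (if `S` is empty there is nothing to prove).  For the last point: barycentric coordinates
`s = α a + β b + γ c`, `α = ell_bc s / ell_bc a > 0` etc., `α + β + γ = 1`, and strict convexity of the disc.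
`triples`: pass to a subsequence along which the three sequences converge; for large `j ≠ k` the triples are `ε/2`-close, contradiction with `arc_lemma`
applied to `S j k` and the triple `j`: one of its points `x` has `ε ≤ dist s x` for all `s ∈ S j k`, hence for all `s` in the closure, but the corresponding point of the triple
`k` is in the closure of `S j k` and at distance `< ε`.
-/

namespace TN
open Metric Set Filter Topology DS

/-- the affine function vanishing on the line through `b` and `c` -/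
noncomputable def RG_ell (b c x : ℂ) : ℝ := ((x - b) * (starRingEnd ℂ) (c - b)).im

theorem RG_ell_eq (b c x : ℂ) :
    RG_ell b c x = (x.im - b.im) * (c.re - b.re) - (x.re - b.re) * (c.im - b.im) := by
  unfold RG_ell
  simp only [Complex.mul_im, Complex.sub_re, Complex.sub_im, Complex.conj_re, Complex.conj_im]
  ring

theorem RG_cont (b c : ℂ) : Continuous (RG_ell b c) := by
  have : RG_ell b c = fun x : ℂ =>
      (x.im - b.im) * (c.re - b.re) - (x.re - b.re) * (c.im - b.im) := by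
    funext x; exact RG_ell_eq b c x
  rw [this]
  fun_prop

theorem RG_nsq {x : ℂ} (h : ‖x‖ = 1) : x.re ^ 2 + x.im ^ 2 = 1 := by
  have h1 := Complex.sq_norm x
  rw [h, Complex.normSq_apply] at h1
  nlinarith

theorem RG_dsq (x y : ℂ) : dist x y ^ 2 = (x.re - y.re) ^ 2 + (x.im - y.im) ^ 2 := by
  rw [Complex.dist_eq, Complex.sq_norm, Complex.normSq_apply]
  simp only [Complex.sub_re, Complex.sub_im]
  ring

theorem RG_dpos {x y : ℂ} (h : x ≠ y) : 0 < (x.re - y.re) ^ 2 + (x.im - y.im) ^ 2 := by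
  rw [← RG_dsq]
  have := dist_pos.2 h
  positivity

/-- a point of the line through `b`, `c` (real coordinates) -/
theorem RG_line {b1 b2 c1 c2 y1 y2 : ℝ} (hd : 0 < (c1 - b1) ^ 2 + (c2 - b2) ^ 2)
    (h : (y2 - b2) * (c1 - b1) - (y1 - b1) * (c2 - b2) = 0) :
    ∃ t : ℝ, y1 = b1 + t * (c1 - b1) ∧ y2 = b2 + t * (c2 - b2) := by
  refine ⟨((y1 - b1) * (c1 - b1) + (y2 - b2) * (c2 - b2)) / ((c1 - b1) ^ 2 + (c2 - b2) ^ 2),
    ?_, ?_⟩
  · have hd' := hd.ne'
    field_simp
    linear_combination (-(c2 - b2)) * h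
  · have hd' := hd.ne'
    field_simp
    linear_combination (c1 - b1) * h

/-- on the line through two points of the circle, the points of the disc are between them -/
theorem RG_between {b1 b2 c1 c2 t : ℝ} (hb : b1 ^ 2 + b2 ^ 2 = 1) (hc : c1 ^ 2 + c2 ^ 2 = 1)
    (hd : 0 < (c1 - b1) ^ 2 + (c2 - b2) ^ 2)
    (hy : (b1 + t * (c1 - b1)) ^ 2 + (b2 + t * (c2 - b2)) ^ 2 ≤ 1) : 0 ≤ t ∧ t ≤ 1 := by
  have h1 : (b1 + t * (c1 - b1)) ^ 2 + (b2 + t * (c2 - b2)) ^ 2
      = 1 - t * (1 - t) * ((c1 - b1) ^ 2 + (c2 - b2) ^ 2) := by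
    linear_combination (1 - t) * hb + t * hc
  rw [h1] at hy
  have h2 : 0 ≤ t * (1 - t) := by
    by_contra hn
    push Not at hn
    nlinarith [mul_pos_of_neg_of_neg hn (neg_neg_of_pos hd)]
  constructor
  · by_contra hn
    push Not at hn
    nlinarith
  · by_contra hn
    push Not at hn
    nlinarith

/-- `RG_ell b c` vanishes on the circle only at `b` and `c` -/
theorem RG_zero {b c x : ℂ} (hb : ‖b‖ = 1) (hc : ‖c‖ = 1) (hx : ‖x‖ = 1) (hbc : b ≠ c)
    (h : RG_ell b c x = 0) : x = b ∨ x = c := by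
  rw [RG_ell_eq] at h
  have hd := RG_dpos hbc.symm
  obtain ⟨t, h1, h2⟩ := RG_line hd h
  have hb' := RG_nsq hb
  have hc' := RG_nsq hc
  have hx' := RG_nsq hx
  rw [h1, h2] at hx'
  have h3 : t * (1 - t) * ((c.re - b.re) ^ 2 + (c.im - b.im) ^ 2) = 0 := by
    linear_combination (1 - t) * hb' + t * hc' - hx'
  rcases mul_eq_zero.1 h3 with h4 | h4
  · rcases mul_eq_zero.1 h4 with h5 | h5
    · left
      apply Complex.ext
      · rw [h1, h5]; ring
      · rw [h2, h5]; ring
    · right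
      have h6 : t = 1 := by linarith
      apply Complex.ext
      · rw [h1, h6]; ring
      · rw [h2, h6]; ring
  · exact absurd h4 hd.ne'

theorem RG_chord {a b c s : ℂ} (ha : ‖a‖ = 1) (hb : ‖b‖ = 1) (hc : ‖c‖ = 1) (hs : ‖s‖ = 1)
    {ε : ℝ} (hε : 0 < ε) (hab : ε ≤ dist b a) (hac : ε ≤ dist c a) (hbc : b ≠ c)
    (h : RG_ell b c s * RG_ell b c a < 0) : ε ≤ dist s a := by
  by_contra hn
  push Not at hn
  have ha' := RG_nsq ha
  have hb' := RG_nsq hb
  have hc' := RG_nsq hc
  have hs' := RG_nsq hs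
  have h1 : ε ^ 2 ≤ (b.re - a.re) ^ 2 + (b.im - a.im) ^ 2 := by
    rw [← RG_dsq]; gcongr
  have h2 : ε ^ 2 ≤ (c.re - a.re) ^ 2 + (c.im - a.im) ^ 2 := by
    rw [← RG_dsq]; gcongr
  have h3 : (s.re - a.re) ^ 2 + (s.im - a.im) ^ 2 < ε ^ 2 := by
    rw [← RG_dsq]
    exact pow_lt_pow_left₀ hn dist_nonneg two_ne_zero
  have hd := RG_dpos hbc.symm
  obtain ⟨p, hp⟩ : ∃ p, p = RG_ell b c s := ⟨_, rfl⟩
  obtain ⟨q, hq⟩ : ∃ q, q = RG_ell b c a := ⟨_, rfl⟩
  rw [← hp, ← hq] at h
  have hpq : p - q ≠ 0 := by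
    intro h0
    have : p = q := by linarith only [h0]
    rw [this] at h
    exact absurd (mul_self_nonneg q) (not_le.2 h)
  rw [RG_ell_eq] at hp hq
  -- the parameter of the intersection point on `[s, a]`
  obtain ⟨τ, hτ⟩ : ∃ τ, τ = p / (p - q) := ⟨_, rfl⟩
  have hτp : τ * (p - q) = p := by rw [hτ]; field_simp
  have hτ0 : 0 < τ := by
    have h5 : 0 < (p - q) ^ 2 := lt_of_le_of_ne (sq_nonneg _) (pow_ne_zero 2 hpq).symm
    have h6 : τ * (p - q) ^ 2 = p * (p - q) := by
      linear_combination (p - q) * hτp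
    have h7 : 0 < p * (p - q) := by nlinarith only [mul_self_nonneg p, h]
    rw [← h6] at h7
    exact pos_of_mul_pos_left h7 h5.le
  have hτ1 : τ < 1 := by
    have h5 : 0 < (p - q) ^ 2 := lt_of_le_of_ne (sq_nonneg _) (pow_ne_zero 2 hpq).symm
    have h6 : (1 - τ) * (p - q) ^ 2 = (-q) * (p - q) := by
      linear_combination -(p - q) * hτp
    have h7 : 0 < (-q) * (p - q) := by nlinarith only [mul_self_nonneg q, h]
    rw [← h6] at h7
    have h8 : 0 < 1 - τ := pos_of_mul_pos_left h7 h5.le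
    linarith only [h8]
  have hy : (((1 - τ) * s.im + τ * a.im) - b.im) * (c.re - b.re)
      - (((1 - τ) * s.re + τ * a.re) - b.re) * (c.im - b.im) = 0 := by
    linear_combination -(1 - τ) * hp - τ * hq - hτp
  obtain ⟨t, ht1, ht2⟩ := RG_line hd hy
  have hyn : (b.re + t * (c.re - b.re)) ^ 2 + (b.im + t * (c.im - b.im)) ^ 2 ≤ 1 := by
    rw [← ht1, ← ht2]
    have h5 : ((1 - τ) * s.re + τ * a.re) ^ 2 + ((1 - τ) * s.im + τ * a.im) ^ 2
        = 1 - (1 - τ) * τ * ((s.re - a.re) ^ 2 + (s.im - a.im) ^ 2) := by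
      linear_combination (1 - τ) * hs' + τ * ha'
    rw [h5]
    have h6 : 0 ≤ (1 - τ) * τ * ((s.re - a.re) ^ 2 + (s.im - a.im) ^ 2) := by
      have : 0 < 1 - τ := by linarith
      positivity
    linarith
  obtain ⟨ht0, ht1'⟩ := RG_between hb' hc' hd hyn
  -- the linear function `Re (x conj a)`
  have hfb : b.re * a.re + b.im * a.im ≤ 1 - ε ^ 2 / 2 := by linarith only [h1, ha', hb']
  have hfc : c.re * a.re + c.im * a.im ≤ 1 - ε ^ 2 / 2 := by linarith only [h2, ha', hc']
  have hfs : 1 - ε ^ 2 / 2 < s.re * a.re + s.im * a.im := by linarith only [h3, ha', hs']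
  have hf1 : ((1 - τ) * s.re + τ * a.re) * a.re + ((1 - τ) * s.im + τ * a.im) * a.im
      = (1 - τ) * (s.re * a.re + s.im * a.im) + τ := by
    linear_combination τ * ha'
  have hf2 : (b.re + t * (c.re - b.re)) * a.re + (b.im + t * (c.im - b.im)) * a.im
      = (1 - t) * (b.re * a.re + b.im * a.im) + t * (c.re * a.re + c.im * a.im) := by ring
  rw [ht1, ht2, hf2] at hf1
  have h8 : (1 - t) * (b.re * a.re + b.im * a.im) + t * (c.re * a.re + c.im * a.im)
      ≤ 1 - ε ^ 2 / 2 := by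
    have : 0 ≤ 1 - t := by linarith only [ht1']
    have m1 := mul_le_mul_of_nonneg_left hfb this
    have m2 := mul_le_mul_of_nonneg_left hfc ht0
    linarith only [m1, m2]
  have h9 : 1 - ε ^ 2 / 2 < (1 - τ) * (s.re * a.re + s.im * a.im) + τ := by
    have h10 : 0 < 1 - τ := by linarith
    have h11 : 0 < ε ^ 2 := by positivity
    have m1 := mul_lt_mul_of_pos_left hfs h10
    have m2 := mul_pos hτ0 h11
    linarith only [m1, m2]
  linarith

/-- constant sign on a preconnected set -/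
theorem RG_sign {S : Set ℂ} (hS : IsPreconnected S) {f : ℂ → ℝ} (hf : Continuous f)
    (h0 : ∀ s ∈ S, f s ≠ 0) : (∀ s ∈ S, f s < 0) ∨ (∀ s ∈ S, 0 < f s) := by
  by_contra hn
  push Not at hn
  obtain ⟨⟨x, hx, hx1⟩, ⟨y, hy, hy1⟩⟩ := hn
  have := hS.intermediate_value hy hx hf.continuousOn
  obtain ⟨z, hz, hz0⟩ := this ⟨hy1, hx1⟩
  exact h0 z hz hz0

/-- one vertex: either the claim, or `S` is strictly on the side of the vertex -/
theorem RG_vertex {S : Set ℂ} (hS : IsPreconnected S) (hST : S ⊆ sphere 0 1) {a b c : ℂ}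
    (ha : ‖a‖ = 1) (hb : ‖b‖ = 1) (hc : ‖c‖ = 1) (hbS : b ∉ S) (hcS : c ∉ S) {ε : ℝ}
    (hε : 0 < ε) (hba : ε ≤ dist b a) (hca : ε ≤ dist c a) (hbc : b ≠ c) :
    (∀ s ∈ S, ε ≤ dist s a) ∨ (∀ s ∈ S, 0 < RG_ell b c s * RG_ell b c a) := by
  have hab : a ≠ b := by
    rintro rfl
    rw [dist_self] at hba; linarith
  have hac : a ≠ c := by
    rintro rfl
    rw [dist_self] at hca; linarith
  have ha0 : RG_ell b c a ≠ 0 := by
    intro h
    rcases RG_zero hb hc ha hbc h with h | h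
    · exact hab h
    · exact hac h
  have hnorm : ∀ s ∈ S, ‖s‖ = 1 := fun s hs => mem_sphere_zero_iff_norm.1 (hST hs)
  have h0 : ∀ s ∈ S, RG_ell b c s * RG_ell b c a ≠ 0 := by
    intro s hs h
    rcases mul_eq_zero.1 h with h | h
    · rcases RG_zero hb hc (hnorm s hs) hbc h with h | h
      · exact hbS (h ▸ hs)
      · exact hcS (h ▸ hs)
    · exact ha0 h
  rcases RG_sign hS ((RG_cont b c).mul continuous_const) h0 with h | h
  · left
    intro s hs
    exact RG_chord ha hb hc (hnorm s hs) hε hba hca hbc (h s hs)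
  · right
    exact h

theorem arc_lemma {S : Set ℂ} (hS : IsPreconnected S) (hST : S ⊆ sphere 0 1) {a b c : ℂ}
    (ha : ‖a‖ = 1) (hb : ‖b‖ = 1) (hc : ‖c‖ = 1) (haS : a ∉ S) (hbS : b ∉ S) (hcS : c ∉ S) {ε : ℝ}
    (hε : 0 < ε) (hab : ε ≤ dist a b) (hbc : ε ≤ dist b c) (hac : ε ≤ dist a c) :
    (∀ s ∈ S, ε ≤ dist s a) ∨ (∀ s ∈ S, ε ≤ dist s b) ∨ (∀ s ∈ S, ε ≤ dist s c) := by
  have hab' : a ≠ b := by
    rintro rfl
    rw [dist_self] at hab; linarith
  have hac' : a ≠ c := by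
    rintro rfl
    rw [dist_self] at hac; linarith
  have hbc' : b ≠ c := by
    rintro rfl
    rw [dist_self] at hbc; linarith
  rcases RG_vertex hS hST ha hb hc hbS hcS hε (by rwa [dist_comm]) (by rwa [dist_comm]) hbc'
    with h1 | h1
  · exact Or.inl h1
  rcases RG_vertex hS hST hb hc ha hcS haS hε (by rwa [dist_comm]) hab hac'.symm with h2 | h2
  · exact Or.inr (Or.inl h2)
  rcases RG_vertex hS hST hc ha hb haS hbS hε hac hbc hab' with h3 | h3
  · exact Or.inr (Or.inr h3)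
  left
  intro s hs
  exfalso
  have k1 := h1 s hs
  have k2 := h2 s hs
  have k3 := h3 s hs
  have hsn : ‖s‖ = 1 := mem_sphere_zero_iff_norm.1 (hST hs)
  have e1 : RG_ell c a b = RG_ell b c a := by rw [RG_ell_eq, RG_ell_eq]; ring
  have e2 : RG_ell a b c = RG_ell b c a := by rw [RG_ell_eq, RG_ell_eq]; ring
  rw [e1] at k2
  rw [e2] at k3
  have hs' := RG_nsq hsn
  have ha' := RG_nsq ha
  have hb' := RG_nsq hb
  have hc' := RG_nsq hc
  have da := RG_dpos (show a ≠ s from fun h => haS (h ▸ hs))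
  have db := RG_dpos (show b ≠ s from fun h => hbS (h ▸ hs))
  have dc := RG_dpos (show c ≠ s from fun h => hcS (h ▸ hs))
  have fa : 0 < 1 - (a.re * s.re + a.im * s.im) := by nlinarith
  have fb : 0 < 1 - (b.re * s.re + b.im * s.im) := by nlinarith
  have fc : 0 < 1 - (c.re * s.re + c.im * s.im) := by nlinarith
  have key : (RG_ell b c s * RG_ell b c a) * (1 - (a.re * s.re + a.im * s.im))
      + (RG_ell c a s * RG_ell b c a) * (1 - (b.re * s.re + b.im * s.im))
      + (RG_ell a b s * RG_ell b c a) * (1 - (c.re * s.re + c.im * s.im)) = 0 := by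
    have e4 : RG_ell b c s + RG_ell c a s + RG_ell a b s = RG_ell b c a := by
      simp only [RG_ell_eq]; ring
    have e5 : RG_ell b c s * a.re + RG_ell c a s * b.re + RG_ell a b s * c.re
        = RG_ell b c a * s.re := by
      simp only [RG_ell_eq]; ring
    have e6 : RG_ell b c s * a.im + RG_ell c a s * b.im + RG_ell a b s * c.im
        = RG_ell b c a * s.im := by
      simp only [RG_ell_eq]; ring
    linear_combination RG_ell b c a * e4 - RG_ell b c a * s.re * e5 - RG_ell b c a * s.im * e6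
      - RG_ell b c a ^ 2 * hs'
  have p1 := mul_pos k1 fa
  have p2 := mul_pos k2 fb
  have p3 := mul_pos k3 fc
  linarith

theorem triples {ε : ℝ} (hε : 0 < ε) {u : ℕ → Fin 3 → ℂ} (hu : ∀ j a, ‖u j a‖ = 1)
    (hs : ∀ j a b, a ≠ b → ε ≤ dist (u j a) (u j b))
    (h : ∀ j k, j ≠ k → ∃ S : Set ℂ, IsPreconnected S ∧ S ⊆ sphere 0 1 ∧ (∀ a, u j a ∉ S) ∧
      ∀ a, u k a ∈ closure S) : False := by
  have hbd : ∀ j, u j ∈ closedBall (0 : Fin 3 → ℂ) 1 := by
    intro j
    rw [mem_closedBall_zero_iff]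
    exact (pi_norm_le_iff_of_nonneg zero_le_one).2 fun a => (hu j a).le
  obtain ⟨v, -, φ, hφ, hlim⟩ := (isCompact_closedBall (0 : Fin 3 → ℂ) 1).tendsto_subseq hbd
  obtain ⟨N, hN⟩ := Metric.cauchySeq_iff.1 hlim.cauchySeq ε hε
  have hd := hN N le_rfl (N + 1) (Nat.le_succ N)
  have hne : φ N ≠ φ (N + 1) := (hφ (Nat.lt_succ_self N)).ne
  simp only [Function.comp] at hd
  obtain ⟨S, hS, hST, hnot, hcl⟩ := h (φ N) (φ (N + 1)) hne
  have key : ∀ a : Fin 3, (∀ s ∈ S, ε ≤ dist s (u (φ N) a)) → False := by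
    intro a ha
    have h1 : closure S ⊆ {s | ε ≤ dist s (u (φ N) a)} := by
      apply closure_minimal ha
      exact isClosed_le continuous_const (continuous_id.dist continuous_const)
    have h2 : ε ≤ dist (u (φ (N + 1)) a) (u (φ N) a) := h1 (hcl a)
    have h3 : dist (u (φ (N + 1)) a) (u (φ N) a) ≤ dist (u (φ (N + 1))) (u (φ N)) :=
      dist_le_pi_dist _ _ a
    rw [dist_comm] at hd
    linarith
  rcases arc_lemma hS hST (hu (φ N) 0) (hu (φ N) 1) (hu (φ N) 2) (hnot 0) (hnot 1) (hnot 2) hε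
    (hs _ 0 1 (by decide)) (hs _ 1 2 (by decide)) (hs _ 0 2 (by decide)) with h1 | h1 | h1
  · exact key 0 h1
  · exact key 1 h1
  · exact key 2 h1

end TN

end S_H12_TN_RG
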