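import Mathlib

/-! Joined modules of the proof of MP_8a27c0_an (one section per module). -/

section S_H77_ISO_Cross

/-!
# The crossing lemma

Two paths in a set `D` of the plane whose end points `a, c` and `b, d` alternate on the boundary of
a convex set containing `D` have a common point.
-/

namespace Pool.Agent.H77.ISO

open Complex unitInterval

theorem arg_lt {w z : ℂ} (hw : 0 ≤ w.re) (hz : 0 ≤ z.re) (h : 0 < (z * (starRingEnd ℂ) w).im) :
    w.arg < z.arg := by
  have hw0 : w ≠ 0 := by rintro rfl; simp at h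
  have hz0 : z ≠ 0 := by rintro rfl; simp at h
  have h1 := Complex.abs_arg_le_pi_div_two_iff.2 hw
  have h2 := Complex.abs_arg_le_pi_div_two_iff.2 hz
  rw [abs_le] at h1 h2
  have e1 : ‖z‖ * Real.sin z.arg = z.im := by
    rw [Complex.sin_arg]; field_simp
  have e2 : ‖z‖ * Real.cos z.arg = z.re := by
    rw [Complex.cos_arg hz0]; field_simp
  have e3 : ‖w‖ * Real.sin w.arg = w.im := by
    rw [Complex.sin_arg]; field_simp
  have e4 : ‖w‖ * Real.cos w.arg = w.re := by
    rw [Complex.cos_arg hw0]; field_simp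
  have key : (z * (starRingEnd ℂ) w).im = ‖z‖ * ‖w‖ * Real.sin (z.arg - w.arg) := by
    rw [Real.sin_sub]
    simp only [Complex.mul_im, Complex.conj_re, Complex.conj_im]
    rw [← e1, ← e2, ← e3, ← e4]
    ring
  by_contra hlt
  push Not at hlt
  have hs : Real.sin (z.arg - w.arg) ≤ 0 :=
    Real.sin_nonpos_of_nonpos_of_neg_pi_le (by linarith) (by linarith)
  rw [key] at h
  have : ‖z‖ * ‖w‖ * Real.sin (z.arg - w.arg) ≤ 0 :=
    mul_nonpos_of_nonneg_of_nonpos (by positivity) hs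
  linarith

theorem edge_eq {k : I → ℂ} (hk : Continuous k) (hk0 : ∀ t, k t ≠ 0) {n : ℂ} (hn : n ≠ 0)
    (hre : ∀ t, 0 ≤ (k t / n).re) {θ : I → ℝ} (hθ : Continuous θ)
    (hexp : ∀ t, (Circle.exp (θ t) : ℂ) * ‖k t‖ = k t) :
    θ 1 - θ 0 = (k 1 / n).arg - (k 0 / n).arg := by
  have hkn : ∀ t, k t / n ≠ 0 := fun t => div_ne_zero (hk0 t) hn
  have hslit : ∀ t, k t / n ∈ slitPlane := by
    intro t
    rw [Complex.mem_slitPlane_iff]
    rcases (hre t).lt_or_eq with h | h
    · exact Or.inl h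
    · refine Or.inr fun him => hkn t ?_
      exact Complex.ext h.symm him
  have hφ : Continuous fun t => (k t / n).arg := by
    rw [continuous_iff_continuousAt]
    intro t
    exact ContinuousAt.comp (f := fun t => k t / n) (Complex.continuousAt_arg (hslit t))
      (hk.div_const n).continuousAt
  have hc : ∀ t, Circle.exp (θ t - (k t / n).arg) = Circle.exp (n.arg) := by
    intro t
    apply Subtype.ext
    rw [Circle.exp_sub]
    have h1 : (Circle.exp ((k t / n).arg) : ℂ) * ‖k t / n‖ = k t / n := by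
      rw [Circle.coe_exp, mul_comm]
      exact Complex.norm_mul_exp_arg_mul_I _
    have h2 : (Circle.exp (n.arg) : ℂ) * ‖n‖ = n := by
      rw [Circle.coe_exp, mul_comm]
      exact Complex.norm_mul_exp_arg_mul_I _
    have h3 := hexp t
    have hnk : (‖k t‖ : ℂ) ≠ 0 := by
      exact_mod_cast (norm_ne_zero_iff.2 (hk0 t))
    have hnn : (‖n‖ : ℂ) ≠ 0 := by
      exact_mod_cast (norm_ne_zero_iff.2 hn)
    have hq : (Circle.exp ((k t / n).arg) : ℂ) ≠ 0 := Circle.coe_ne_zero _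
    rw [Circle.coe_div, div_eq_iff hq]
    have e1 : (Circle.exp (θ t) : ℂ) = k t / ‖k t‖ := by
      rw [eq_div_iff hnk]; exact h3
    have e2 : (Circle.exp (n.arg) : ℂ) = n / ‖n‖ := by
      rw [eq_div_iff hnn]; exact h2
    have e3 : (Circle.exp ((k t / n).arg) : ℂ) = (k t / n) / (‖k t‖ / ‖n‖) := by
      rw [eq_div_iff (div_ne_zero hnk hnn)]
      rw [norm_div] at h1
      push_cast at h1
      exact h1
    rw [e1, e2, e3]
    field_simp
  have hconst : (fun t => θ t - (k t / n).arg) = fun _ => θ 0 - (k 0 / n).arg := by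
    refine Circle.isCoveringMap_exp.eq_of_comp_eq (hθ.sub hφ) continuous_const ?_ 0 rfl
    funext t
    simp only [Function.comp]
    rw [hc t, hc 0]
  have := congrFun hconst 1
  beta_reduce at this
  linarith

theorem edge_lt {k : I → ℂ} (hk : Continuous k) (hk0 : ∀ t, k t ≠ 0) {n : ℂ} (hn : n ≠ 0)
    (hre : ∀ t, 0 ≤ (k t / n).re) {θ : I → ℝ} (hθ : Continuous θ)
    (hexp : ∀ t, (Circle.exp (θ t) : ℂ) * ‖k t‖ = k t)
    (him : 0 < (k 1 * (starRingEnd ℂ) (k 0)).im) : θ 0 < θ 1 := by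
  have h := edge_eq hk hk0 hn hre hθ hexp
  have hnn : 0 < Complex.normSq n := Complex.normSq_pos.2 hn
  have h2 : (k 0 / n).arg < (k 1 / n).arg := by
    apply arg_lt (hre 0) (hre 1)
    have : k 1 / n * (starRingEnd ℂ) (k 0 / n) =
        (k 1 * (starRingEnd ℂ) (k 0)) * ((Complex.normSq n)⁻¹ : ℝ) := by
      rw [map_div₀, div_mul_div_comm, Complex.mul_conj]
      push_cast
      rw [div_eq_mul_inv]
    rw [this, Complex.im_mul_ofReal]
    positivity
  linarith

theorem edge_gt {k : I → ℂ} (hk : Continuous k) (hk0 : ∀ t, k t ≠ 0) {n : ℂ} (hn : n ≠ 0)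
    (hre : ∀ t, 0 ≤ (k t / n).re) {θ : I → ℝ} (hθ : Continuous θ)
    (hexp : ∀ t, (Circle.exp (θ t) : ℂ) * ‖k t‖ = k t)
    (him : 0 < (k 0 * (starRingEnd ℂ) (k 1)).im) : θ 1 < θ 0 := by
  have h := edge_eq hk hk0 hn hre hθ hexp
  have hnn : 0 < Complex.normSq n := Complex.normSq_pos.2 hn
  have h2 : (k 1 / n).arg < (k 0 / n).arg := by
    apply arg_lt (hre 1) (hre 0)
    have : k 0 / n * (starRingEnd ℂ) (k 1 / n) =
        (k 0 * (starRingEnd ℂ) (k 1)) * ((Complex.normSq n)⁻¹ : ℝ) := by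
      rw [map_div₀, div_mul_div_comm, Complex.mul_conj]
      push_cast
      rw [div_eq_mul_inv]
    rw [this, Complex.im_mul_ofReal]
    positivity
  linarith

/-- The crossing lemma. -/
theorem cross {a b c d na nb nc nd : ℂ} {D : Set ℂ} {f g : I → ℂ} (hf : Continuous f)
    (hg : Continuous g) (hfD : ∀ s, f s ∈ D) (hgD : ∀ t, g t ∈ D)
    (f0 : f 0 = a) (f1 : f 1 = c) (g0 : g 0 = b) (g1 : g 1 = d)
    (hna : na ≠ 0) (hnb : nb ≠ 0) (hnc : nc ≠ 0) (hnd : nd ≠ 0)
    (Ha : ∀ y ∈ D, 0 ≤ ((a - y) / na).re) (Hb : ∀ y ∈ D, 0 ≤ ((y - b) / nb).re)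
    (Hc : ∀ y ∈ D, 0 ≤ ((c - y) / nc).re) (Hd : ∀ y ∈ D, 0 ≤ ((y - d) / nd).re)
    (s1 : 0 < ((a - d) * (starRingEnd ℂ) (a - b)).im)
    (s2 : 0 < ((c - d) * (starRingEnd ℂ) (a - d)).im)
    (s3 : 0 < ((c - b) * (starRingEnd ℂ) (c - d)).im)
    (s4 : 0 < ((a - b) * (starRingEnd ℂ) (c - b)).im) : ∃ s t, f s = g t := by
  by_contra hcon
  push Not at hcon
  have hne : ∀ p : I × I, f p.1 - g p.2 ≠ 0 := fun p => sub_ne_zero.2 (hcon _ _)
  have hcF : Continuous fun p : I × I => f p.1 - g p.2 :=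
    (hf.comp continuous_fst).sub (hg.comp continuous_snd)
  let P : ℝ × ℝ → I × I := fun x =>
    (Set.projIcc 0 1 zero_le_one x.1, Set.projIcc 0 1 zero_le_one x.2)
  have hP : Continuous P :=
    (continuous_projIcc.comp continuous_fst).prodMk (continuous_projIcc.comp continuous_snd)
  have hPc : ∀ p : I × I, P ((p.1 : ℝ), (p.2 : ℝ)) = p := by
    intro p
    simp only [P]
    rw [Set.projIcc_val, Set.projIcc_val]
  let F : C(ℝ × ℝ, Circle) :=
    { toFun := fun x => ⟨(f (P x).1 - g (P x).2) / ‖f (P x).1 - g (P x).2‖, by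
        rw [Submonoid.unitSphere, Submonoid.mem_mk]
        simp [norm_ne_zero_iff.2 (hne (P x))]⟩
      continuous_toFun := by
        apply Continuous.subtype_mk
        exact (hcF.comp hP).div (Complex.continuous_ofReal.comp (hcF.comp hP).norm)
          (fun p => by exact_mod_cast norm_ne_zero_iff.2 (hne (P p))) }
  obtain ⟨r, hr⟩ : ∃ r : ℝ, Circle.exp r = F (0, 0) :=
    ⟨_, Circle.exp_arg (F (0, 0))⟩
  obtain ⟨θ', ⟨-, hθ⟩, -⟩ := Circle.isCoveringMap_exp.existsUnique_continuousMap_lifts F (0, 0) r hr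
  let θ : I × I → ℝ := fun p => θ' ((p.1 : ℝ), (p.2 : ℝ))
  have hθc : Continuous θ := by
    refine θ'.continuous.comp ?_
    exact (continuous_subtype_val.comp continuous_fst).prodMk
      (continuous_subtype_val.comp continuous_snd)
  have hexp : ∀ p : I × I, (Circle.exp (θ p) : ℂ) * ‖f p.1 - g p.2‖ = f p.1 - g p.2 := by
    intro p
    have h1 : Circle.exp (θ p) = F ((p.1 : ℝ), (p.2 : ℝ)) := congrFun hθ _
    rw [h1]
    change (f (P ((p.1 : ℝ), (p.2 : ℝ))).1 - g (P ((p.1 : ℝ), (p.2 : ℝ))).2) /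
      (‖f (P ((p.1 : ℝ), (p.2 : ℝ))).1 - g (P ((p.1 : ℝ), (p.2 : ℝ))).2‖ : ℂ) *
      ‖f p.1 - g p.2‖ = _
    rw [hPc p, div_mul_cancel₀]
    exact_mod_cast norm_ne_zero_iff.2 (hne p)
  have t1 : θ (0, 0) < θ (0, 1) := by
    refine edge_lt (k := fun t => f 0 - g t) (θ := fun t => θ (0, t)) (continuous_const.sub hg)
      (fun t => hne (0, t)) hna (fun t => ?_) (hθc.comp (continuous_const.prodMk continuous_id))
      (fun t => hexp (0, t)) ?_
    · rw [f0]; exact Ha _ (hgD t)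
    · simpa [f0, g0, g1] using s1
  have t2 : θ (0, 1) < θ (1, 1) := by
    refine edge_lt (k := fun t => f t - g 1) (θ := fun t => θ (t, 1)) (hf.sub continuous_const)
      (fun t => hne (t, 1)) hnd (fun t => ?_) (hθc.comp (continuous_id.prodMk continuous_const))
      (fun t => hexp (t, 1)) ?_
    · rw [g1]; exact Hd _ (hfD t)
    · simpa [f0, f1, g1] using s2
  have t3 : θ (1, 1) < θ (1, 0) := by
    refine edge_gt (k := fun t => f 1 - g t) (θ := fun t => θ (1, t)) (continuous_const.sub hg)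
      (fun t => hne (1, t)) hnc (fun t => ?_) (hθc.comp (continuous_const.prodMk continuous_id))
      (fun t => hexp (1, t)) ?_
    · rw [f1]; exact Hc _ (hgD t)
    · simpa [f1, g0, g1] using s3
  have t4 : θ (1, 0) < θ (0, 0) := by
    refine edge_gt (k := fun t => f t - g 0) (θ := fun t => θ (t, 0)) (hf.sub continuous_const)
      (fun t => hne (t, 0)) hnb (fun t => ?_) (hθc.comp (continuous_id.prodMk continuous_const))
      (fun t => hexp (t, 0)) ?_
    · rw [g0]; exact Hb _ (hfD t)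
    · simpa [f0, f1, g0] using s4
  linarith

end Pool.Agent.H77.ISO

end S_H77_ISO_Cross
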