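import Mathlib
import Pool.Agent.H12.KS.K05
import Pool.Agent.H12.KS.K10
import Pool.Agent.H12.KS.K11
import Pool.Agent.H12.KS.K12
import Pool.Agent.H12.KS.K15
import Pool.Agent.H12.KS.K16
import Pool.Agent.H12.KS.K17

/-! Joined modules of the proof of MP_8a27c0_an (one section per module). -/

section S_H12_CV_PA2

/-!
PA (no parabolic elements, flat case).  `bet P w = P (w - i)/(w + i)` maps the upper half plane onto the disc, `∞ ↦ P`, inverse `w = -2 i P/(z - P) - i`.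
`para_half`: `C = conj b`: `mob u b z - P = (z - P)(1 - conj b P)/(1 - conj b z)`, so `1/(mob u b z - P) = 1/(z - P) - conj b/(1 - conj b P)` and in the coordinate `w` the map is `w ↦ w + t`,
`t = 2 i P conj b/(1 - conj b P)`; `t` is real because the upper half plane is mapped to itself both by the map and its inverse (`Im (w + t) > 0` for all `Im w > 0`, and the same for `-t`), `t ≠ 0`.
`commute_half`: `mob u' b'` commutes on the disc with `mob u b`.  By continuity it commutes on the closed disc, so it maps the only fixed point `P` of `mob u b` on the closed disc to itself.  By `mob_sub`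
`mob u' b' z - P = u' (1-|b'|²)(z - P)/((1 - conj b' z)(1 - conj b' P))`, so `1/(mob u' b' z - P)` is an affine function of `1/(z - P)`, and the map is `w ↦ a w + s` in the coordinate `w`; commuting with `w + t`, `t ≠ 0`, gives `a = 1`; `s` is real
as above.
`area_mult`: `Γ` is countable (for each `n` the set `{g | ‖l g‖ ≤ n}` is finite).  `volume B ≤ ∑ g, volume (B ∩ (C + l g)) = ∑ g, volume ((B - l g) ∩ C) = ∫⁻ x in C, ∑ g, indicator B (x + l g) ≤ m * volume C` (translation invariance, `lintegral_tsum`).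
`length_area`: for `1 ≤ y`: `l = Ψ (t + i y) - Ψ (i y) = ∫ x in 0..t, deriv Ψ (x + i y)`, so `‖l‖² ≤ |t| ∫ ‖deriv Ψ‖²` (Cauchy-Schwarz); integrate over `1 ≤ y ≤ Y`; the double integral of `‖deriv Ψ‖²` over the rectangle is the area of the image
(`MeasureTheory.lintegral_abs_det_fderiv_eq_addHaar_image`, the real determinant of a complex derivative is `‖deriv Ψ‖²`).  (See H36/DS/LA for the same technique.)
`no_para'`: `X = univ`, `A g x = x + l g`.  `N` is commutative (`A (g h) = A (h g)`, `free`).  `T = mob u b` is `w ↦ w + t`; each `d ∈ N` acts on the disc by `v ∘ A d ∘ ψ`, an automorphism `mob u' b'` (`auto_mob`) commuting with `T`, so it is `w ↦ w + s d`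
(`commute_half`).  `{d | |s d| ≤ R}` is finite: `A d (ψ (bet P i)) = ψ (bet P (i + s d))` is in a compact set (`D.proper`).  `Ψ = ψ ∘ bet P` is injective holomorphic on the upper half plane with values in `fil X U`,
`Ψ (w + t) = Ψ w + l c`.  For `Q = [0,|t|] × [1, Y]` each point `x` has at most `m = #{d | |s d| ≤ |t|}` translates in `Ψ '' Q`: if `x + l g, x + l g'` are in `Ψ '' Q ⊆ fil X U` then `g' g⁻¹ ∈ N` (`fil_same`) and
`|s (g' g⁻¹)| ≤ |t|`; so `volume (Ψ '' Q) ≤ m volume C` (`area_mult`, `C` from `Deck.coc`), for all `Y`, while `‖l c‖² (Y - 1) ≤ |t| volume (Ψ '' Q)`, `l c ≠ 0`: contradiction for large `Y`.  (If `t < 0` exchange `c` and `c⁻¹`, or use `[t, 0]`.)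
(This file: `area_mult`.)
-/

namespace CV

open Metric Set Filter Topology Function MeasureTheory

theorem area_mult {Γ : Type} {l : Γ → ℂ} (hl : ∀ r : ℝ, {g | ‖l g‖ ≤ r}.Finite) {C : Set ℂ}
    (hC : IsCompact C) (hcov : ∀ x, ∃ g, x + l g ∈ C) (hneg : ∀ g, ∃ g', l g' = - l g) {B : Set ℂ}
    (hB : MeasurableSet B) {m : ℕ} (hm : ∀ x, {g | x + l g ∈ B}.encard ≤ m) :
    volume B ≤ m * volume C := by
  classical
  -- `Γ` is countable
  have hcount : Countable Γ := by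
    rw [← Set.countable_univ_iff]
    have h1 : (Set.univ : Set Γ) = ⋃ n : ℕ, {g | ‖l g‖ ≤ (n : ℝ)} := by
      ext g
      simp only [Set.mem_univ, Set.mem_iUnion, true_iff]
      obtain ⟨n, hn⟩ := exists_nat_ge ‖l g‖
      exact ⟨n, hn⟩
    rw [h1]
    exact Set.countable_iUnion fun n => (hl n).countable
  set V : Set ℂ := range l with hV
  have hVc : Countable V := (Set.countable_range l).to_subtype
  have hchoose : ∀ v : V, ∃ g, l g = -(v : ℂ) := by
    rintro ⟨_, g, rfl⟩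
    exact hneg g
  choose γ hγ using hchoose
  have hγi : Function.Injective γ := by
    intro v w hvw
    have h1 := hγ v
    rw [hvw, hγ w] at h1
    exact Subtype.ext (neg_injective h1.symm)
  -- the counting bound
  have hcnt : ∀ y : ℂ, ∑' v : V, ({z : ℂ | z - (v : ℂ) ∈ B}).indicator (1 : ℂ → ENNReal) y ≤ m := by
    intro y
    rw [ENNReal.tsum_eq_iSup_sum]
    refine iSup_le fun s => ?_
    have h1 : ∑ v ∈ s, ({z : ℂ | z - (v : ℂ) ∈ B}).indicator (1 : ℂ → ENNReal) y =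
        ((s.filter fun v : V => y - (v : ℂ) ∈ B).card : ENNReal) := by
      rw [← Finset.sum_boole]
      refine Finset.sum_congr rfl fun v _ => ?_
      by_cases h2 : y - (v : ℂ) ∈ B
      · have h3 : y ∈ {z : ℂ | z - (v : ℂ) ∈ B} := h2
        rw [if_pos h2, Set.indicator_of_mem h3]
        rfl
      · have h3 : y ∉ {z : ℂ | z - (v : ℂ) ∈ B} := h2
        rw [if_neg h2, Set.indicator_of_notMem h3]
    rw [h1]
    have h2 : (((s.filter fun v : V => y - (v : ℂ) ∈ B).image γ : Finset Γ) : Set Γ) ⊆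
        {g | y + l g ∈ B} := by
      intro g hg
      rw [Finset.mem_coe, Finset.mem_image] at hg
      obtain ⟨v, hv, rfl⟩ := hg
      have h3 := (Finset.mem_filter.1 hv).2
      show y + l (γ v) ∈ B
      rw [hγ v, ← sub_eq_add_neg]
      exact h3
    have h4 := (Set.encard_le_encard h2).trans (hm y)
    rw [Set.encard_coe_eq_coe_finsetCard, Finset.card_image_of_injective _ hγi] at h4
    have h5 : (s.filter fun v : V => y - (v : ℂ) ∈ B).card ≤ m := by exact_mod_cast h4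
    exact_mod_cast h5
  have hmeas : ∀ v : V, MeasurableSet {z : ℂ | z - (v : ℂ) ∈ B} := fun v =>
    (measurable_id.sub_const (v : ℂ)) hB
  -- one translate
  have hone : ∀ v : V, volume (B ∩ {x | x + (v : ℂ) ∈ C}) =
      ∫⁻ y in C, ({z : ℂ | z - (v : ℂ) ∈ B}).indicator (1 : ℂ → ENNReal) y := by
    intro v
    rw [lintegral_indicator_one (hmeas v), Measure.restrict_apply (hmeas v)]
    rw [← measure_preimage_add_right volume (v : ℂ) ({z : ℂ | z - (v : ℂ) ∈ B} ∩ C)]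
    congr 1
    ext x
    show (x ∈ B ∧ x + (v : ℂ) ∈ C) ↔ (x + (v : ℂ) - (v : ℂ) ∈ B ∧ x + (v : ℂ) ∈ C)
    rw [add_sub_cancel_right]
  have hsub : B ⊆ ⋃ v : V, (B ∩ {x | x + (v : ℂ) ∈ C}) := by
    intro x hx
    obtain ⟨g, hg⟩ := hcov x
    exact Set.mem_iUnion.2 ⟨⟨l g, g, rfl⟩, hx, hg⟩
  calc volume B ≤ volume (⋃ v : V, (B ∩ {x | x + (v : ℂ) ∈ C})) := measure_mono hsub
    _ ≤ ∑' v : V, volume (B ∩ {x | x + (v : ℂ) ∈ C}) := measure_iUnion_le _
    _ = ∑' v : V, ∫⁻ y in C, ({z : ℂ | z - (v : ℂ) ∈ B}).indicator (1 : ℂ → ENNReal) y :=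
        tsum_congr hone
    _ = ∫⁻ y in C, ∑' v : V, ({z : ℂ | z - (v : ℂ) ∈ B}).indicator (1 : ℂ → ENNReal) y :=
        (lintegral_tsum fun v => ((measurable_one.indicator (hmeas v)).aemeasurable)).symm
    _ ≤ ∫⁻ _ in C, (m : ENNReal) := lintegral_mono hcnt
    _ = m * volume C := by
        rw [lintegral_const, Measure.restrict_apply MeasurableSet.univ, Set.univ_inter]

end CV

end S_H12_CV_PA2

section S_H12_CV_PA3

/-!
PA (no parabolic elements, flat case).  `bet P w = P (w - i)/(w + i)` maps the upper half plane onto the disc, `∞ ↦ P`, inverse `w = -2 i P/(z - P) - i`.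
`para_half`: `C = conj b`: `mob u b z - P = (z - P)(1 - conj b P)/(1 - conj b z)`, so `1/(mob u b z - P) = 1/(z - P) - conj b/(1 - conj b P)` and in the coordinate `w` the map is `w ↦ w + t`,
`t = 2 i P conj b/(1 - conj b P)`; `t` is real because the upper half plane is mapped to itself both by the map and its inverse (`Im (w + t) > 0` for all `Im w > 0`, and the same for `-t`), `t ≠ 0`.
`commute_half`: `mob u' b'` commutes on the disc with `mob u b`.  By continuity it commutes on the closed disc, so it maps the only fixed point `P` of `mob u b` on the closed disc to itself.  By `mob_sub`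
`mob u' b' z - P = u' (1-|b'|²)(z - P)/((1 - conj b' z)(1 - conj b' P))`, so `1/(mob u' b' z - P)` is an affine function of `1/(z - P)`, and the map is `w ↦ a w + s` in the coordinate `w`; commuting with `w + t`, `t ≠ 0`, gives `a = 1`; `s` is real
as above.
`area_mult`: `Γ` is countable (for each `n` the set `{g | ‖l g‖ ≤ n}` is finite).  `volume B ≤ ∑ g, volume (B ∩ (C + l g)) = ∑ g, volume ((B - l g) ∩ C) = ∫⁻ x in C, ∑ g, indicator B (x + l g) ≤ m * volume C` (translation invariance, `lintegral_tsum`).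
`length_area`: for `1 ≤ y`: `l = Ψ (t + i y) - Ψ (i y) = ∫ x in 0..t, deriv Ψ (x + i y)`, so `‖l‖² ≤ |t| ∫ ‖deriv Ψ‖²` (Cauchy-Schwarz); integrate over `1 ≤ y ≤ Y`; the double integral of `‖deriv Ψ‖²` over the rectangle is the area of the image
(`MeasureTheory.lintegral_abs_det_fderiv_eq_addHaar_image`, the real determinant of a complex derivative is `‖deriv Ψ‖²`).  (See H36/DS/LA for the same technique.)
`no_para'`: `X = univ`, `A g x = x + l g`.  `N` is commutative (`A (g h) = A (h g)`, `free`).  `T = mob u b` is `w ↦ w + t`; each `d ∈ N` acts on the disc by `v ∘ A d ∘ ψ`, an automorphism `mob u' b'` (`auto_mob`) commuting with `T`, so it is `w ↦ w + s d`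
(`commute_half`).  `{d | |s d| ≤ R}` is finite: `A d (ψ (bet P i)) = ψ (bet P (i + s d))` is in a compact set (`D.proper`).  `Ψ = ψ ∘ bet P` is injective holomorphic on the upper half plane with values in `fil X U`,
`Ψ (w + t) = Ψ w + l c`.  For `Q = [0,|t|] × [1, Y]` each point `x` has at most `m = #{d | |s d| ≤ |t|}` translates in `Ψ '' Q`: if `x + l g, x + l g'` are in `Ψ '' Q ⊆ fil X U` then `g' g⁻¹ ∈ N` (`fil_same`) and
`|s (g' g⁻¹)| ≤ |t|`; so `volume (Ψ '' Q) ≤ m volume C` (`area_mult`, `C` from `Deck.coc`), for all `Y`, while `‖l c‖² (Y - 1) ≤ |t| volume (Ψ '' Q)`, `l c ≠ 0`: contradiction for large `Y`.  (If `t < 0` exchange `c` and `c⁻¹`, or use `[t, 0]`.)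
(This file: `length_area`.)
-/

namespace CV

open Metric Set Filter Topology Function MeasureTheory

/-- the real determinant of a complex derivative -/
private theorem PA3_det (c : ℂ) :
    ((ContinuousLinearMap.toSpanSingleton ℂ c).restrictScalars ℝ : ℂ →L[ℝ] ℂ).det = ‖c‖ ^ 2 := by
  have h1 : (((ContinuousLinearMap.toSpanSingleton ℂ c).restrictScalars ℝ : ℂ →L[ℝ] ℂ) :
      ℂ →ₗ[ℝ] ℂ) = LinearMap.mulLeft ℝ c := by
    ext x
    simp [mul_comm]
  rw [ContinuousLinearMap.det, h1]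
  have h2 := Algebra.norm_complex_apply c
  rw [Algebra.norm_apply] at h2
  rw [Complex.sq_norm, ← h2]
  rfl

/-- area formula for injective holomorphic functions -/
private theorem PA3_area {Ω R : Set ℂ} (hΩ : IsOpen Ω) (hR : MeasurableSet R) (hRΩ : R ⊆ Ω)
    {G : ℂ → ℂ} (hG : DifferentiableOn ℂ G Ω) (hi : InjOn G Ω) :
    ∫⁻ x in R, ENNReal.ofReal (‖deriv G x‖ ^ 2) = volume (G '' R) := by
  rw [← lintegral_abs_det_fderiv_eq_addHaar_image volume hR
    (f' := fun x => ((ContinuousLinearMap.toSpanSingleton ℂ (deriv G x)).restrictScalars ℝ))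
    _ (hi.mono hRΩ)]
  · apply lintegral_congr
    intro x
    rw [PA3_det, abs_of_nonneg (sq_nonneg _)]
  · intro x hx
    have h1 : HasDerivAt G (deriv G x) x :=
      (hG.differentiableAt (hΩ.mem_nhds (hRΩ hx))).hasDerivAt
    exact (h1.hasFDerivAt.restrictScalars ℝ).hasFDerivWithinAt

private theorem PA3_cs {t : ℝ} (ht : 0 < t) {h : ℝ → ℝ} (hh : Continuous h) :
    (∫ x in (0:ℝ)..t, h x) ^ 2 ≤ t * ∫ x in (0:ℝ)..t, h x ^ 2 := by
  set I : ℝ := ∫ x in (0:ℝ)..t, h x with hI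
  set m : ℝ := I / t with hm
  have h1 : 0 ≤ ∫ x in (0:ℝ)..t, (h x - m) ^ 2 :=
    intervalIntegral.integral_nonneg ht.le fun x _ => sq_nonneg _
  have h2 : ∫ x in (0:ℝ)..t, (h x - m) ^ 2 =
      (∫ x in (0:ℝ)..t, h x ^ 2) - 2 * m * I + m ^ 2 * t := by
    have e1 : ∀ x, (h x - m) ^ 2 = (h x ^ 2 - 2 * m * h x) + m ^ 2 := fun x => by ring
    simp only [e1]
    rw [intervalIntegral.integral_add, intervalIntegral.integral_sub,
      intervalIntegral.integral_const_mul, intervalIntegral.integral_const]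
    · rw [sub_zero, smul_eq_mul, ← hI]
      ring
    · exact (hh.pow 2).intervalIntegrable _ _
    · exact (hh.const_mul _).intervalIntegrable _ _
    · exact ((hh.pow 2).sub (hh.const_mul _)).intervalIntegrable _ _
    · exact continuous_const.intervalIntegrable _ _
  rw [h2] at h1
  have h3 : m * t = I := by rw [hm]; field_simp
  have h4 : 0 ≤ t * ((∫ x in (0:ℝ)..t, h x ^ 2) - 2 * m * I + m ^ 2 * t) :=
    mul_nonneg ht.le h1
  have h5 : t * ((∫ x in (0:ℝ)..t, h x ^ 2) - 2 * m * I + m ^ 2 * t) =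
      t * (∫ x in (0:ℝ)..t, h x ^ 2) - 2 * (m * t) * I + (m * t) ^ 2 := by ring
  rw [h5, h3] at h4
  linarith

private theorem PA3_line {Ψ : ℂ → ℂ} (hΨ : DifferentiableOn ℂ Ψ {w | 0 < w.im})
    {t : ℝ} (ht : 0 < t) {l : ℂ} (hp : ∀ w : ℂ, 0 < w.im → Ψ (w + t) = Ψ w + l) {y : ℝ}
    (hy : 0 < y) :
    ENNReal.ofReal (‖l‖ ^ 2) ≤ ENNReal.ofReal t *
      ∫⁻ x in Icc (0:ℝ) t, ENNReal.ofReal (‖deriv Ψ ((x:ℂ) + y * Complex.I)‖ ^ 2) := by
  have hopen : IsOpen {w : ℂ | 0 < w.im} := isOpen_lt continuous_const Complex.continuous_im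
  have him : ∀ x : ℝ, (x : ℂ) + y * Complex.I ∈ {w : ℂ | 0 < w.im} := by
    intro x
    show 0 < ((x:ℂ) + y * Complex.I).im
    simpa using hy
  have hγ : Continuous fun x : ℝ => (x : ℂ) + y * Complex.I := by fun_prop
  have hdc : Continuous fun x : ℝ => deriv Ψ ((x:ℂ) + y * Complex.I) :=
    ContinuousOn.comp_continuous (hΨ.deriv hopen).continuousOn hγ him
  have hder : ∀ x : ℝ, HasDerivAt (fun x : ℝ => Ψ ((x:ℂ) + y * Complex.I))
      (deriv Ψ ((x:ℂ) + y * Complex.I)) x := by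
    intro x
    have h1 : HasDerivAt Ψ (deriv Ψ ((x:ℂ) + y * Complex.I)) ((x:ℂ) + y * Complex.I) :=
      (hΨ.differentiableAt (hopen.mem_nhds (him x))).hasDerivAt
    have h2 : HasDerivAt (fun x : ℝ => (x:ℂ) + y * Complex.I) 1 x := by
      simpa using (Complex.ofRealCLM.hasDerivAt (x := x)).add_const ((y:ℂ) * Complex.I)
    have h3 := HasDerivAt.scomp x h1 h2
    rw [one_smul] at h3
    exact h3
  have hint : ∫ x in (0:ℝ)..t, deriv Ψ ((x:ℂ) + y * Complex.I) = l := by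
    rw [intervalIntegral.integral_eq_sub_of_hasDerivAt (fun x _ => hder x)
      (hdc.intervalIntegrable _ _)]
    have h1 := hp ((0:ℝ) + y * Complex.I) (him 0)
    have h2 : ((0:ℝ):ℂ) + y * Complex.I + t = (t:ℂ) + y * Complex.I := by push_cast; ring
    rw [h2] at h1
    rw [h1]
    ring
  have hl : ‖l‖ ≤ ∫ x in (0:ℝ)..t, ‖deriv Ψ ((x:ℂ) + y * Complex.I)‖ := by
    rw [← hint]
    exact intervalIntegral.norm_integral_le_integral_norm ht.le
  have h1 : ‖l‖ ^ 2 ≤ t * ∫ x in (0:ℝ)..t, ‖deriv Ψ ((x:ℂ) + y * Complex.I)‖ ^ 2 := by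
    refine le_trans ?_ (PA3_cs ht hdc.norm)
    exact pow_le_pow_left₀ (norm_nonneg _) hl 2
  refine (ENNReal.ofReal_le_ofReal h1).trans ?_
  rw [ENNReal.ofReal_mul ht.le]
  apply le_of_eq
  congr 1
  rw [intervalIntegral.integral_of_le ht.le, ← integral_Icc_eq_integral_Ioc,
    ofReal_integral_eq_lintegral_ofReal]
  · exact ((hdc.norm.pow 2).continuousOn).integrableOn_Icc
  · exact Filter.Eventually.of_forall fun x => sq_nonneg _

theorem length_area {Ψ : ℂ → ℂ} (hΨ : DifferentiableOn ℂ Ψ {w | 0 < w.im})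
    (hi : InjOn Ψ {w | 0 < w.im}) {t : ℝ} (ht : 0 < t) {l : ℂ}
    (hp : ∀ w : ℂ, 0 < w.im → Ψ (w + t) = Ψ w + l) {Y : ℝ} (hY : 1 < Y) :
    ENNReal.ofReal (‖l‖ ^ 2 * (Y - 1)) ≤
      ENNReal.ofReal t * volume (Ψ '' {w | 0 ≤ w.re ∧ w.re ≤ t ∧ 1 ≤ w.im ∧ w.im ≤ Y}) := by
  have hopen : IsOpen {w : ℂ | 0 < w.im} := isOpen_lt continuous_const Complex.continuous_im
  set R : Set ℂ := {w | 0 ≤ w.re ∧ w.re ≤ t ∧ 1 ≤ w.im ∧ w.im ≤ Y} with hRdef
  have hRm : MeasurableSet R := by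
    apply MeasurableSet.inter (measurableSet_le measurable_const Complex.measurable_re)
    apply MeasurableSet.inter (measurableSet_le Complex.measurable_re measurable_const)
    apply MeasurableSet.inter (measurableSet_le measurable_const Complex.measurable_im)
    exact measurableSet_le Complex.measurable_im measurable_const
  have hRs : R ⊆ {w : ℂ | 0 < w.im} := by
    intro w hw
    have h1 : 1 ≤ w.im := hw.2.2.1
    show 0 < w.im
    linarith
  rw [← PA3_area hopen hRm hRs hΨ hi]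
  set f : ℂ → ENNReal := fun w => ENNReal.ofReal (‖deriv Ψ w‖ ^ 2) with hf
  have hfm : Measurable f := ((measurable_deriv Ψ).norm.pow_const 2).ennreal_ofReal
  have h1 : ∫⁻ w in R, f w =
      ∫⁻ y in Icc (1:ℝ) Y, ∫⁻ x in Icc (0:ℝ) t, f ((x:ℂ) + y * Complex.I) := by
    have hRp : R = Complex.measurableEquivRealProd ⁻¹' (Icc (0:ℝ) t ×ˢ Icc (1:ℝ) Y) := by
      ext w
      rw [mem_preimage, Complex.measurableEquivRealProd_apply, mem_prod]
      show (0 ≤ w.re ∧ w.re ≤ t ∧ 1 ≤ w.im ∧ w.im ≤ Y) ↔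
        (0 ≤ w.re ∧ w.re ≤ t) ∧ (1 ≤ w.im ∧ w.im ≤ Y)
      tauto
    have h2 : ∀ w : ℂ, f w = (fun p : ℝ × ℝ => f ((p.1:ℂ) + p.2 * Complex.I))
        (Complex.measurableEquivRealProd w) := by
      intro w
      simp only [Complex.measurableEquivRealProd_apply, Complex.re_add_im]
    have hgm : Measurable fun p : ℝ × ℝ => f ((p.1:ℂ) + p.2 * Complex.I) := by
      apply hfm.comp
      fun_prop
    have h3 := Complex.volume_preserving_equiv_real_prod.setLIntegral_comp_preimage_emb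
      Complex.measurableEquivRealProd.measurableEmbedding
      (fun p : ℝ × ℝ => f ((p.1:ℂ) + p.2 * Complex.I)) (Icc (0:ℝ) t ×ˢ Icc (1:ℝ) Y)
    rw [lintegral_congr h2, hRp]
    refine h3.trans ?_
    rw [Measure.volume_eq_prod,
      ← Measure.prod_restrict, lintegral_prod_symm _ hgm.aemeasurable]
  rw [h1]
  calc ENNReal.ofReal (‖l‖ ^ 2 * (Y - 1)) = ∫⁻ _ in Icc (1:ℝ) Y, ENNReal.ofReal (‖l‖ ^ 2) := by
        rw [setLIntegral_const, Real.volume_Icc, ← ENNReal.ofReal_mul (sq_nonneg _)]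
    _ ≤ ∫⁻ y in Icc (1:ℝ) Y, ENNReal.ofReal t *
        ∫⁻ x in Icc (0:ℝ) t, f ((x:ℂ) + y * Complex.I) := by
        refine setLIntegral_mono' measurableSet_Icc fun y hy => ?_
        exact PA3_line hΨ ht hp (lt_of_lt_of_le one_pos hy.1)
    _ = _ := by
        rw [lintegral_const_mul' _ _ ENNReal.ofReal_ne_top]

end CV

end S_H12_CV_PA3

section S_H12_CV_PA

/-!
PA (no parabolic elements, flat case).  `bet P w = P (w - i)/(w + i)` maps the upper half plane onto the disc, `∞ ↦ P`, inverse `w = -2 i P/(z - P) - i`.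
`para_half`: `C = conj b`: `mob u b z - P = (z - P)(1 - conj b P)/(1 - conj b z)`, so `1/(mob u b z - P) = 1/(z - P) - conj b/(1 - conj b P)` and in the coordinate `w` the map is `w ↦ w + t`,
`t = 2 i P conj b/(1 - conj b P)`; `t` is real because the upper half plane is mapped to itself both by the map and its inverse (`Im (w + t) > 0` for all `Im w > 0`, and the same for `-t`), `t ≠ 0`.
`commute_half`: `mob u' b'` commutes on the disc with `mob u b`.  By continuity it commutes on the closed disc, so it maps the only fixed point `P` of `mob u b` on the closed disc to itself.  By `mob_sub`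
`mob u' b' z - P = u' (1-|b'|²)(z - P)/((1 - conj b' z)(1 - conj b' P))`, so `1/(mob u' b' z - P)` is an affine function of `1/(z - P)`, and the map is `w ↦ a w + s` in the coordinate `w`; commuting with `w + t`, `t ≠ 0`, gives `a = 1`; `s` is real
as above.
`area_mult`: `Γ` is countable (for each `n` the set `{g | ‖l g‖ ≤ n}` is finite).  `volume B ≤ ∑ g, volume (B ∩ (C + l g)) = ∑ g, volume ((B - l g) ∩ C) = ∫⁻ x in C, ∑ g, indicator B (x + l g) ≤ m * volume C` (translation invariance, `lintegral_tsum`).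
`length_area`: for `1 ≤ y`: `l = Ψ (t + i y) - Ψ (i y) = ∫ x in 0..t, deriv Ψ (x + i y)`, so `‖l‖² ≤ |t| ∫ ‖deriv Ψ‖²` (Cauchy-Schwarz); integrate over `1 ≤ y ≤ Y`; the double integral of `‖deriv Ψ‖²` over the rectangle is the area of the image
(`MeasureTheory.lintegral_abs_det_fderiv_eq_addHaar_image`, the real determinant of a complex derivative is `‖deriv Ψ‖²`).  (See H36/DS/LA for the same technique.)
`no_para'`: `X = univ`, `A g x = x + l g`.  `N` is commutative (`A (g h) = A (h g)`, `free`).  `T = mob u b` is `w ↦ w + t`; each `d ∈ N` acts on the disc by `v ∘ A d ∘ ψ`, an automorphism `mob u' b'` (`auto_mob`) commuting with `T`, so it is `w ↦ w + s d`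
(`commute_half`).  `{d | |s d| ≤ R}` is finite: `A d (ψ (bet P i)) = ψ (bet P (i + s d))` is in a compact set (`D.proper`).  `Ψ = ψ ∘ bet P` is injective holomorphic on the upper half plane with values in `fil X U`,
`Ψ (w + t) = Ψ w + l c`.  For `Q = [0,|t|] × [1, Y]` each point `x` has at most `m = #{d | |s d| ≤ |t|}` translates in `Ψ '' Q`: if `x + l g, x + l g'` are in `Ψ '' Q ⊆ fil X U` then `g' g⁻¹ ∈ N` (`fil_same`) and
`|s (g' g⁻¹)| ≤ |t|`; so `volume (Ψ '' Q) ≤ m volume C` (`area_mult`, `C` from `Deck.coc`), for all `Y`, while `‖l c‖² (Y - 1) ≤ |t| volume (Ψ '' Q)`, `l c ≠ 0`: contradiction for large `Y`.  (If `t < 0` exchange `c` and `c⁻¹`, or use `[t, 0]`.)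
(This file: `no_para'`.)
-/

namespace CV

open Metric Set Filter Topology Function DS TN MeasureTheory

variable {S : Type} [MetricSpace S] [CompactSpace S] {X : Set ℂ} {Γ : Type} [Group Γ]
  {A : Γ → ℂ → ℂ} {p : ℂ → S} {g : S → S} {G : ℂ → ℂ}
  {U : Set ℂ} {N : Subgroup Γ} {ψ v : ℂ → ℂ}

omit [CompactSpace S] in
/-- flat case: `A g x = x + l g` with a homomorphism `l` -/
theorem PA_flat (D : Deck X A p) (hX : X = univ) : ∃ l : Γ → ℂ, (∀ g x, A g x = x + l g) ∧
    (∀ g h, l (g * h) = l g + l h) ∧ l 1 = 0 ∧ (∀ g, l g⁻¹ = - l g) ∧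
    (∀ g, g ≠ 1 → l g ≠ 0) ∧ ∀ r : ℝ, {g | ‖l g‖ ≤ r}.Finite := by
  have h1 : ∀ g, ∃ l : ℂ, ∀ x, A g x = x + l := by
    rcases D.hX with ⟨-, h⟩ | ⟨h, -⟩
    · exact h
    · exfalso
      rw [hX] at h
      have h2 : (1 : ℂ) ∈ ball (0 : ℂ) 1 := h ▸ mem_univ _
      simp at h2
  choose l hl using h1
  have hmem : ∀ x, x ∈ X := fun x => hX ▸ mem_univ x
  have hone : l 1 = 0 := by
    have := D.one 0 (hmem 0)
    rw [hl, zero_add] at this
    exact this
  have hmul : ∀ g h, l (g * h) = l g + l h := by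
    intro g h
    have h2 := D.mul g h 0 (hmem 0)
    rw [hl, hl, hl] at h2
    linear_combination h2
  refine ⟨l, hl, hmul, hone, ?_, ?_, ?_⟩
  · intro g
    have h2 := hmul g⁻¹ g
    rw [inv_mul_cancel, hone] at h2
    linear_combination -h2
  · intro g hg h0
    apply D.free g hg 0 (hmem 0)
    rw [hl, h0, add_zero]
  · intro r
    rcases lt_or_ge r 0 with hr | hr
    · have : {g | ‖l g‖ ≤ r} = ∅ := by
        ext g
        simp only [mem_ofPred_eq, mem_empty_iff_false, iff_false, not_le]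
        exact lt_of_lt_of_le hr (norm_nonneg _)
      rw [this]
      exact finite_empty
    · refine (D.proper (closedBall 0 r) (fun x _ => hmem x) (isCompact_closedBall _ _)).subset ?_
      intro g hg
      refine ⟨0, mem_closedBall_self hr, ?_⟩
      rw [hl, zero_add, mem_closedBall_zero_iff]
      exact hg

omit [CompactSpace S] in
theorem PA_fil (D : Deck X A p) (M : Dom X A p g G U N) (d : N) {x : ℂ} (hx : x ∈ fil X U) :
    A d x ∈ fil X U := by
  rw [← fil_inv D M d.2]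
  exact mem_image_of_mem _ hx

omit [CompactSpace S] in
/-- the automorphisms of the disc -/
theorem PA_auto (D : Deck X A p) (M : Dom X A p g G U N) (R : Riem (fil X U) ψ v) (d : N) :
    ∃ u b : ℂ, ‖u‖ = 1 ∧ ‖b‖ < 1 ∧ ∀ z ∈ ball (0:ℂ) 1, v (A d (ψ z)) = mob u b z := by
  have hsub : fil X U ⊆ X := fun x hx => hx.1
  have hd : ∀ d : N, DifferentiableOn ℂ (fun z => v (A d (ψ z))) (ball 0 1) := by
    intro d
    refine R.dv.comp ((D.hol d).comp R.dψ (fun z hz => hsub (R.mψ hz))) ?_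
    intro z hz
    exact PA_fil D M d (R.mψ hz)
  have hm : ∀ d : N, MapsTo (fun z => v (A d (ψ z))) (ball 0 1) (ball 0 1) := fun d z hz =>
    R.mv (PA_fil D M d (R.mψ hz))
  refine auto_mob (hd d) (hd d⁻¹) (hm d) (hm d⁻¹) ?_ ?_
  · intro z hz
    show v (A ((d⁻¹ : N) : Γ) (ψ (v (A d (ψ z))))) = z
    rw [R.ψv _ (PA_fil D M d (R.mψ hz)), Subgroup.coe_inv, D.inv_left _ (hsub (R.mψ hz)),
      R.vψ z hz]
  · intro z hz
    show v (A d (ψ (v (A ((d⁻¹ : N) : Γ) (ψ z))))) = z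
    rw [R.ψv _ (PA_fil D M d⁻¹ (R.mψ hz)), Subgroup.coe_inv, D.inv_right _ (hsub (R.mψ hz)),
      R.vψ z hz]

theorem no_para' (D : Deck X A p) (hX : X = univ) (M : Dom X A p g G U N)
    (R : Riem (fil X U) ψ v) {c : N} (hc : c ≠ 1) {u b : ℂ} (hu : ‖u‖ = 1) (hb : ‖b‖ < 1)
    (h : ∀ z ∈ ball (0:ℂ) 1, v (A c (ψ z)) = mob u b z) {P : ℂ} (hP : ‖P‖ = 1) (hb0 : b ≠ 0)
    (h2 : ∀ z : ℂ, ‖z‖ ≤ 1 →
      mob u b z - z = (starRingEnd ℂ) b * (z - P) ^ 2 / (1 - (starRingEnd ℂ) b * z)) :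
    False := by
  obtain ⟨l, hl, lmul, l1, linv, lne, lfin⟩ := PA_flat D hX
  have hmem : ∀ x, x ∈ X := fun x => hX ▸ mem_univ x
  obtain ⟨hbd, hbi, hbim, hbI⟩ := bet_props hP
  set HP : Set ℂ := {w : ℂ | 0 < w.im} with hHP
  have hbm : ∀ w ∈ HP, bet P w ∈ ball (0 : ℂ) 1 := by
    intro w hw
    rw [← hbim]
    exact mem_image_of_mem _ hw
  -- the functional equations
  obtain ⟨t, ht0, ht⟩ := para_half hu hb hP hb0 h2
  have hcomm : ∀ g h : Γ, g * h = h * g := by
    intro g h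
    refine D.ext (hmem 0) ?_
    rw [hl, hl, lmul, lmul]
    ring
  choose uu bb huu hbb hT using fun d : N => PA_auto D M R d
  have hcom : ∀ d : N, ∀ z ∈ ball (0:ℂ) 1,
      mob u b (mob (uu d) (bb d) z) = mob (uu d) (bb d) (mob u b z) := by
    intro d z hz
    have hz1 : v (A d (ψ z)) ∈ ball (0:ℂ) 1 := R.mv (PA_fil D M d (R.mψ hz))
    have hz2 : v (A c (ψ z)) ∈ ball (0:ℂ) 1 := R.mv (PA_fil D M c (R.mψ hz))
    rw [← hT d z hz, ← h z hz, ← h _ hz1, ← hT d _ hz2, R.ψv _ (PA_fil D M d (R.mψ hz)),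
      R.ψv _ (PA_fil D M c (R.mψ hz)), ← D.mul _ _ _ (hmem _), ← D.mul _ _ _ (hmem _),
      hcomm (c : Γ) d]
  choose s hs using fun d : N => commute_half hu hb hP hb0 h2 (huu d) (hbb d) (hcom d)
  set Ψ : ℂ → ℂ := fun w => ψ (bet P w) with hΨ
  have hfil : ∀ w ∈ HP, Ψ w ∈ fil X U := fun w hw => R.mψ (hbm w hw)
  have hΨs : ∀ d : N, ∀ w ∈ HP, Ψ (w + s d) = Ψ w + l d := by
    intro d w hw
    have e1 : Ψ (w + s d) = ψ (v (A d (ψ (bet P w)))) := by
      show ψ (bet P (w + s d)) = _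
      rw [← hs d w hw, ← hT d _ (hbm w hw)]
    rw [e1, R.ψv _ (PA_fil D M d (R.mψ (hbm w hw))), hl]
  have hΨt : ∀ w ∈ HP, Ψ (w + t) = Ψ w + l c := by
    intro w hw
    have e1 : Ψ (w + t) = ψ (v (A c (ψ (bet P w)))) := by
      show ψ (bet P (w + t)) = _
      rw [← ht w hw, ← h _ (hbm w hw)]
    rw [e1, R.ψv _ (PA_fil D M c (R.mψ (hbm w hw))), hl]
  have hcΓ : (c : Γ) ≠ 1 := fun h0 => hc (Subtype.ext h0)
  have hlc : l c ≠ 0 := lne _ hcΓ
  -- positive translation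
  obtain ⟨τ, l', hτ, hl', hΨτ⟩ : ∃ (τ : ℝ) (l' : ℂ), 0 < τ ∧ l' ≠ 0 ∧
      ∀ w ∈ HP, Ψ (w + τ) = Ψ w + l' := by
    rcases lt_or_gt_of_ne ht0 with h0 | h0
    · refine ⟨-t, - l c, by linarith, neg_ne_zero.2 hlc, fun w hw => ?_⟩
      have hw' : w + ((-t : ℝ) : ℂ) ∈ HP := by
        simp only [hHP, mem_ofPred_eq, Complex.add_im, Complex.ofReal_im, add_zero]
        exact hw
      have h3 := hΨt _ hw'
      have h4 : w + ((-t : ℝ) : ℂ) + (t : ℂ) = w := by push_cast; ring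
      rw [h4] at h3
      rw [h3]
      ring
    · exact ⟨t, l c, h0, hlc, hΨt⟩
  have hΨd : DifferentiableOn ℂ Ψ HP := R.dψ.comp hbd fun w hw => hbm w hw
  have hΨi : InjOn Ψ HP := by
    intro w hw w' hw' he
    apply hbi hw hw'
    have he' : ψ (bet P w) = ψ (bet P w') := he
    rw [← R.vψ _ (hbm w hw), he', R.vψ _ (hbm w' hw')]
  -- finitely many small translations
  have hI : ∀ x : ℝ, Complex.I + (x : ℂ) ∈ HP := by
    intro x
    simp [hHP]
  have hF : {d : N | |s d| ≤ τ}.Finite := by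
    set K : Set ℂ := Ψ '' ((fun x : ℝ => Complex.I + (x : ℂ)) '' Icc (-τ) τ) with hK
    have hKc : IsCompact K := by
      refine (isCompact_Icc.image (continuous_const.add Complex.continuous_ofReal)).image_of_continuousOn ?_
      refine hΨd.continuousOn.mono ?_
      rintro _ ⟨x, -, rfl⟩
      exact hI x
    have h3 := D.proper K (fun x _ => hmem x) hKc
    have h4 : {d : N | |s d| ≤ τ} ⊆ Subtype.val ⁻¹' {g : Γ | ∃ x ∈ K, A g x ∈ K} := by
      intro d hd
      have hd' : -τ ≤ s d ∧ s d ≤ τ := abs_le.1 (by simpa using hd)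
      refine ⟨Ψ (Complex.I + ((0 : ℝ) : ℂ)),
        ⟨_, ⟨0, ⟨by linarith, hτ.le⟩, rfl⟩, rfl⟩, ?_⟩
      rw [hl, ← hΨs d _ (hI 0)]
      refine ⟨_, ⟨s d, ⟨hd'.1, hd'.2⟩, rfl⟩, ?_⟩
      congr 1
      simp
    exact (h3.preimage Subtype.val_injective.injOn).subset h4
  obtain ⟨m, hm⟩ : ∃ m : ℕ, {d : N | |s d| ≤ τ}.encard = m := by
    obtain ⟨m, hm⟩ := ENat.ne_top_iff_exists.1 hF.encard_lt_top.ne
    exact ⟨m, hm.symm⟩
  obtain ⟨C, -, hCc, hCcov⟩ := D.coc
  -- the area of the images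
  have harea : ∀ Y : ℝ, 1 < Y →
      volume (Ψ '' {w | 0 ≤ w.re ∧ w.re ≤ τ ∧ 1 ≤ w.im ∧ w.im ≤ Y}) ≤ m * volume C := by
    intro Y hY
    set Q : Set ℂ := {w | 0 ≤ w.re ∧ w.re ≤ τ ∧ 1 ≤ w.im ∧ w.im ≤ Y} with hQ
    have hQH : Q ⊆ HP := fun w hw => lt_of_lt_of_le one_pos hw.2.2.1
    have hQc : IsCompact Q := by
      have h3 : Q = (fun x : ℝ × ℝ => (⟨x.1, x.2⟩ : ℂ)) '' (Icc 0 τ ×ˢ Icc 1 Y) := by
        ext w
        constructor
        · rintro ⟨a, b, c, d⟩
          exact ⟨(w.re, w.im), ⟨⟨a, b⟩, ⟨c, d⟩⟩, rfl⟩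
        · rintro ⟨x, ⟨⟨a, b⟩, ⟨c, d⟩⟩, rfl⟩
          exact ⟨a, b, c, d⟩
      rw [h3]
      refine (isCompact_Icc.prod isCompact_Icc).image ?_
      exact Complex.equivRealProdCLM.symm.continuous
    have hBm : MeasurableSet (Ψ '' Q) :=
      (hQc.image_of_continuousOn (hΨd.continuousOn.mono hQH)).isClosed.measurableSet
    refine area_mult lfin hCc (fun x => ?_) (fun g => ⟨g⁻¹, linv g⟩) hBm (fun x => ?_)
    · obtain ⟨g, hg⟩ := hCcov x (hmem x)
      exact ⟨g, by rw [← hl]; exact hg⟩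
    · rcases eq_empty_or_nonempty {g | x + l g ∈ Ψ '' Q} with he | ⟨g₀, w₀, hw₀, hxw₀⟩
      · rw [he, encard_empty]
        exact zero_le
      · have hmaps : MapsTo (fun g : Γ => g * g₀⁻¹) {g | x + l g ∈ Ψ '' Q}
            (Subtype.val '' {d : N | |s d| ≤ τ}) := by
          rintro g ⟨w, hw, hxw⟩
          have h3 : A (g * g₀⁻¹) (Ψ w₀) = Ψ w := by
            rw [hl, lmul, linv, hxw, hxw₀]
            ring
          have hN : g * g₀⁻¹ ∈ N := by
            refine fil_same D M (hfil w₀ (hQH hw₀)) ?_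
            rw [h3]
            exact hfil w (hQH hw)
          refine ⟨⟨g * g₀⁻¹, hN⟩, ?_, rfl⟩
          have h4 := hΨs ⟨g * g₀⁻¹, hN⟩ w₀ (hQH hw₀)
          rw [← hl, h3] at h4
          have h5 : w₀ + (s ⟨g * g₀⁻¹, hN⟩ : ℂ) ∈ HP := by
            simp only [hHP, mem_ofPred_eq, Complex.add_im, Complex.ofReal_im, add_zero]
            exact hQH hw₀
          have h6 := congrArg Complex.re (hΨi h5 (hQH hw) h4)
          simp only [Complex.add_re, Complex.ofReal_re] at h6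
          show |s ⟨g * g₀⁻¹, hN⟩| ≤ τ
          rw [abs_le]
          constructor <;> linarith [hw.1, hw.2.1, hw₀.1, hw₀.2.1]
        have h3 := encard_le_encard_of_injOn hmaps
          (fun g _ g' _ he => mul_right_cancel he)
        rw [Subtype.val_injective.encard_image, hm] at h3
        exact h3
  -- the contradiction
  have hfin : ENNReal.ofReal τ * (m * volume C) ≠ ⊤ :=
    ENNReal.mul_ne_top ENNReal.ofReal_ne_top
      (ENNReal.mul_ne_top (ENNReal.natCast_ne_top m) hCc.measure_lt_top.ne)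
  set L := (ENNReal.ofReal τ * (m * volume C)).toReal with hL
  have hLpos : 0 ≤ L := ENNReal.toReal_nonneg
  have hl'2 : 0 < ‖l'‖ ^ 2 := pow_pos (norm_pos_iff.2 hl') 2
  set Y : ℝ := 2 + L / ‖l'‖ ^ 2 with hYdef
  have hY1 : 1 < Y := by
    have : 0 ≤ L / ‖l'‖ ^ 2 := div_nonneg hLpos hl'2.le
    linarith
  have h3 := length_area hΨd hΨi hτ hΨτ hY1
  have h4 := h3.trans (mul_le_mul_right (harea Y hY1) (ENNReal.ofReal τ))
  rw [← ENNReal.ofReal_toReal hfin, ← hL,
    ENNReal.ofReal_le_ofReal_iff hLpos] at h4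
  have h5 : ‖l'‖ ^ 2 * (Y - 1) = ‖l'‖ ^ 2 + L := by
    rw [hYdef]
    field_simp
    ring
  rw [h5] at h4
  linarith

end CV

end S_H12_CV_PA

section S_H12_CV_FU

/-!
FU (the group on the disc of the Riemann map).
`disc_gap`: `X = ball 0 1`: there is `c₀ > 0` with `c₀ ≤ pd x (A c x)` for all `x` in the disc, `c ≠ 1`.  `Deck.coc`: `C` compact, every `x` is moved into `C` by some `A d`; `pd` is invariant under `A d` (`mob_pd`), and
`A d (A c x) = A (d c d⁻¹) (A d x)`, so we may assume `x ∈ C`.  If `pd x (A c x) < 1/2` then `A c x` is in a compact subset `C'` of the disc depending only on `C` (`norm_le_of_pd`), so by `proper` `c` is in a finite set; for each such `c ≠ 1` the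
continuous function `pd x (A c x)` is positive on `C` (`free`), take the minimum.
`exists_fuchs`: for `c ∈ N` the map `T z = v (A c (ψ z))` with inverse `v (A c⁻¹ (ψ z))` (`fil_inv`) is a holomorphic automorphism of the disc; `auto_mob` gives `u c`, `b c` (choice).
`one`, `mul` on the open disc by computation, on the closed disc by continuity (`mob_cont`, density of the open disc).
`fin`: `‖b c‖ ≤ r < 1`: `act c 0 = - u b` has norm `≤ r`, so `A c (ψ 0) = ψ (act c 0)` is in the compact set `ψ '' closedBall 0 r ⊆ X`, which contains `ψ 0` if `0 ≤ r`: `proper` (restricted to `N`; `Subtype.val` injective).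
`free`: from `D.free`.  `hyp`: `classify`; the second alternative is impossible: if `X = ball 0 1` by `disc_gap` and `schwarz_pick` for `ψ` (`ψ : ball → fil X U ⊆ ball`): `c₀ ≤ pd (ψ z) (A c (ψ z)) ≤ pd z (T z)`;
if `X = univ`: `no_para` of the file PA.
-/

namespace CV

open Metric Set Filter Topology Function DS TN

section
variable {S : Type} [MetricSpace S] [CompactSpace S] {X : Set ℂ} {Γ : Type} [Group Γ]
  {A : Γ → ℂ → ℂ} {p : ℂ → S} {g gi : S → S} {G Gi : ℂ → ℂ} {θ : Γ ≃* Γ} {ρ : ℂ → ℝ}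
  {U : Set ℂ} {N : Subgroup Γ} {ψ v : ℂ → ℂ}

omit [CompactSpace S] in
/-- the deck group of the disc acts by Moebius maps -/
theorem FU_mob (D : Deck X A p) (hX : X = ball 0 1) (c : Γ) :
    ∃ u b : ℂ, ‖u‖ = 1 ∧ ‖b‖ < 1 ∧ ∀ x, A c x = mob u b x := by
  rcases D.hX with ⟨h, -⟩ | ⟨-, h⟩
  · exfalso
    rw [hX] at h
    have h1 : (2 : ℂ) ∈ ball (0 : ℂ) 1 := by rw [h]; trivial
    rw [mem_ball_zero_iff] at h1
    norm_num at h1
  · exact h c

theorem FU_pd (D : Deck X A p) (hX : X = ball 0 1) (c : Γ) {x y : ℂ} (hx : ‖x‖ < 1)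
    (hy : ‖y‖ < 1) : pd (A c x) (A c y) = pd x y := by
  obtain ⟨u, b, hu, hb, h⟩ := FU_mob D hX c
  rw [h, h]
  exact mob_pd hu hb hx.le hy

theorem disc_gap (D : Deck X A p) (hX : X = ball 0 1) :
    ∃ c₀ > 0, ∀ c, c ≠ 1 → ∀ x ∈ ball (0:ℂ) 1, c₀ ≤ pd x (A c x) := by
  have hmem : ∀ x, x ∈ X ↔ ‖x‖ < 1 := fun x => by rw [hX, mem_ball_zero_iff]
  obtain ⟨C, hCX, hC, hcov⟩ := D.coc
  have hCne : C.Nonempty := by
    obtain ⟨d, hd⟩ := hcov 0 ((hmem 0).2 (by simp))
    exact ⟨_, hd⟩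
  obtain ⟨x₀, hx₀, hmax⟩ := hC.exists_isMaxOn hCne continuous_norm.continuousOn
  have hρ : ‖x₀‖ < 1 := (hmem _).1 (hCX hx₀)
  obtain ⟨s, hs, H⟩ := norm_le_of_pd (ρ := ‖x₀‖) (r := 1 / 2) hρ (by norm_num)
  have hC'X : closedBall (0:ℂ) (max ‖x₀‖ s) ⊆ X := by
    intro x hx
    rw [hmem]
    exact lt_of_le_of_lt (mem_closedBall_zero_iff.1 hx) (max_lt hρ hs)
  have hfin := D.proper _ hC'X (isCompact_closedBall _ _)
  -- the minimum for one element
  have hm : ∀ c : Γ, ∃ m : ℝ, 0 < m ∧ (c ≠ 1 → ∀ x ∈ C, m ≤ pd x (A c x)) := by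
    intro c
    by_cases hc : c = 1
    · exact ⟨1, one_pos, fun h => absurd hc h⟩
    · have hcont : ContinuousOn (fun x => pd x (A c x)) C := by
        unfold pd
        have h1 := (D.cont c).mono hCX
        refine ContinuousOn.div ?_ ?_ ?_
        · exact (continuousOn_id.sub h1).norm
        · exact (continuousOn_const.sub
            ((Complex.continuous_conj.comp_continuousOn continuousOn_id).mul h1)).norm
        · intro x hx
          have h2 := (hmem x).1 (hCX hx)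
          have h3 := (hmem _).1 (D.maps c (hCX hx))
          exact norm_ne_zero_iff.2 (den_ne h2 h3.le)
      obtain ⟨y, hy, hmin⟩ := hC.exists_isMinOn hCne hcont
      refine ⟨pd y (A c y), ?_, fun _ x hx => hmin hx⟩
      have h2 := (hmem y).1 (hCX hy)
      have h3 := (hmem _).1 (D.maps c (hCX hy))
      unfold pd
      apply div_pos
      · rw [norm_pos_iff, sub_ne_zero]
        exact (D.free c hc y (hCX hy)).symm
      · exact norm_pos_iff.2 (den_ne h2 h3.le)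
  choose m hm0 hm using hm
  have hev : ∀ᶠ r in 𝓝[>] (0:ℝ), ∀ c ∈ {g | ∃ x ∈ closedBall (0:ℂ) (max ‖x₀‖ s),
      A g x ∈ closedBall (0:ℂ) (max ‖x₀‖ s)}, r ≤ m c :=
    (eventually_all_finite hfin).2 fun c _ => nhdsWithin_le_nhds (Iic_mem_nhds (hm0 c))
  have hev2 : ∀ᶠ r in 𝓝[>] (0:ℝ), r ≤ 1 / 2 :=
    nhdsWithin_le_nhds (Iic_mem_nhds (by norm_num))
  have hev3 : ∀ᶠ r in 𝓝[>] (0:ℝ), 0 < r := self_mem_nhdsWithin
  obtain ⟨c₀, ⟨h1, h2⟩, h3⟩ := ((hev.and hev2).and hev3).exists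
  refine ⟨c₀, h3, fun c hc x hx => ?_⟩
  have hxX : x ∈ X := by rw [hX]; exact hx
  obtain ⟨d, hd⟩ := hcov x hxX
  have e1 : A (d * c * d⁻¹) (A d x) = A d (A c x) := by
    rw [D.mul _ _ _ (D.maps d hxX), D.inv_left d hxX, D.mul _ _ _ hxX]
  have e2 : pd (A d x) (A (d * c * d⁻¹) (A d x)) = pd x (A c x) := by
    rw [e1]
    exact FU_pd D hX d ((hmem _).1 hxX) ((hmem _).1 (D.maps c hxX))
  rw [← e2]
  have hne : d * c * d⁻¹ ≠ 1 := by
    intro h
    apply hc
    have := congrArg (fun t => d⁻¹ * t * d) h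
    simpa [mul_assoc] using this
  by_cases h4 : pd (A d x) (A (d * c * d⁻¹) (A d x)) ≤ 1 / 2
  · have h5 : ‖A (d * c * d⁻¹) (A d x)‖ ≤ s :=
      H _ _ (hmax hd) ((hmem _).1 (D.maps _ (D.maps _ hxX))) h4
    refine (h1 _ ⟨A d x, ?_, ?_⟩).trans (hm _ hne _ hd)
    · rw [mem_closedBall_zero_iff]
      exact (hmax hd : ‖A d x‖ ≤ ‖x₀‖).trans (le_max_left _ _)
    · rw [mem_closedBall_zero_iff]
      exact h5.trans (le_max_right _ _)
  · push Not at h4
    linarith

/-- no parabolic elements, flat case: see the file PA -/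
theorem no_para (D : Deck X A p) (hX : X = univ) (M : Dom X A p g G U N) (R : Riem (fil X U) ψ v)
    {c : N} (hc : c ≠ 1) {u b : ℂ} (hu : ‖u‖ = 1) (hb : ‖b‖ < 1)
    (h : ∀ z ∈ ball (0:ℂ) 1, v (A c (ψ z)) = mob u b z) {P : ℂ} (hP : ‖P‖ = 1) (hb0 : b ≠ 0)
    (h2 : ∀ z : ℂ, ‖z‖ ≤ 1 →
      mob u b z - z = (starRingEnd ℂ) b * (z - P) ^ 2 / (1 - (starRingEnd ℂ) b * z)) :
    False :=
  no_para' D hX M R hc hu hb h hP hb0 h2

theorem FU_ext {f h : ℂ → ℂ} (hf : ContinuousOn f (closedBall 0 1))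
    (hh : ContinuousOn h (closedBall 0 1)) (e : ∀ x ∈ ball (0:ℂ) 1, f x = h x) :
    ∀ x ∈ closedBall (0:ℂ) 1, f x = h x := by
  have : EqOn f h (closedBall 0 1) := by
    refine EqOn.of_subset_closure (s := ball 0 1) e hf hh ball_subset_closedBall ?_
    rw [closure_ball (0:ℂ) one_ne_zero]
  exact this

theorem exists_fuchs (D : Deck X A p) (M : Dom X A p g G U N) (R : Riem (fil X U) ψ v) :
    ∃ F : Fuchs N, Act A ψ v F := by
  have hsub : fil X U ⊆ X := fil_sub
  have hψX : ∀ z ∈ ball (0:ℂ) 1, ψ z ∈ X := fun z hz => hsub (R.mψ hz)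
  have hinv : ∀ c : N, ∀ x ∈ fil X U, A c x ∈ fil X U := by
    intro c x hx
    rw [← fil_inv D M c.2]
    exact ⟨x, hx, rfl⟩
  have hTm : ∀ c : N, MapsTo (fun z => v (A c (ψ z))) (ball 0 1) (ball 0 1) := fun c z hz =>
    R.mv (hinv c _ (R.mψ hz))
  have hTd : ∀ c : N, DifferentiableOn ℂ (fun z => v (A c (ψ z))) (ball 0 1) := by
    intro c
    have h1 : DifferentiableOn ℂ (A c) (fil X U) := (D.hol c).mono hsub
    have h2 : MapsTo (A c) (fil X U) (fil X U) := hinv c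
    exact R.dv.comp (h1.comp R.dψ R.mψ) (h2.comp R.mψ)
  have hTT : ∀ c d : N, ∀ z ∈ ball (0:ℂ) 1,
      v (A (c * d : N) (ψ z)) = v (A c (ψ (v (A d (ψ z))))) := by
    intro c d z hz
    rw [R.ψv _ (hinv d _ (R.mψ hz)), Subgroup.coe_mul, D.mul _ _ _ (hψX z hz)]
  have hT1 : ∀ z ∈ ball (0:ℂ) 1, v (A (1 : N) (ψ z)) = z := by
    intro z hz
    rw [Subgroup.coe_one, D.one _ (hψX z hz), R.vψ z hz]
  have hex : ∀ c : N, ∃ u b : ℂ, ‖u‖ = 1 ∧ ‖b‖ < 1 ∧
      ∀ z ∈ ball (0:ℂ) 1, v (A c (ψ z)) = mob u b z := by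
    intro c
    refine auto_mob (Ti := fun z => v (A (c⁻¹ : N) (ψ z))) (hTd c) (hTd c⁻¹) (hTm c) (hTm c⁻¹) ?_ ?_
    · intro z hz
      rw [← hTT _ _ z hz, inv_mul_cancel]
      exact hT1 z hz
    · intro z hz
      rw [← hTT _ _ z hz, mul_inv_cancel]
      exact hT1 z hz
  choose u b hu hb hT using hex
  have hfree : ∀ c : N, c ≠ 1 → ∀ x ∈ ball (0:ℂ) 1, mob (u c) (b c) x ≠ x := by
    intro c hc x hx h
    rw [← hT c x hx] at h
    have h1 : A c (ψ x) = ψ x := by
      have h2 := R.ψv _ (hinv c _ (R.mψ hx))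
      rw [h] at h2
      exact h2.symm
    exact D.free c (fun h => hc (Subtype.ext h)) _ (hψX x hx) h1
  refine ⟨⟨u, b, hu, hb, ?_, ?_, ?_, hfree, ?_⟩, fun c z hz => (hT c z hz).symm⟩
  · -- one
    refine FU_ext (mob_cont (hb 1)) continuousOn_id fun x hx => ?_
    rw [← hT 1 x hx]
    exact hT1 x hx
  · -- mul
    intro c d
    refine FU_ext (mob_cont (hb _)) ((mob_cont (hb c)).comp (mob_cont (hb d)) ?_) fun x hx => ?_
    · intro x hx
      rw [mem_closedBall_zero_iff] at hx ⊢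
      exact mob_closedBall (hu d) (hb d) hx
    · show mob (u (c * d)) (b (c * d)) x = mob (u c) (b c) (mob (u d) (b d) x)
      rw [← hT _ x hx, ← hT d x hx, ← hT c _ (hTm d hx)]
      exact hTT c d x hx
  · -- fin
    intro r hr
    have hK : IsCompact (ψ '' closedBall (0:ℂ) (max r 0)) := by
      refine (isCompact_closedBall _ _).image_of_continuousOn (R.dψ.continuousOn.mono ?_)
      exact closedBall_subset_ball (max_lt hr one_pos)
    have hKX : ψ '' closedBall (0:ℂ) (max r 0) ⊆ X := by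
      rintro _ ⟨z, hz, rfl⟩
      exact hψX z (closedBall_subset_ball (max_lt hr one_pos) hz)
    have hfin := D.proper _ hKX hK
    refine (hfin.preimage (Subtype.val_injective.injOn (s := _))).subset ?_
    intro c hc
    have h0 : (0:ℂ) ∈ ball (0:ℂ) 1 := mem_ball_self one_pos
    refine ⟨ψ 0, ⟨0, ?_, rfl⟩, ?_⟩
    · rw [mem_closedBall_zero_iff, norm_zero]
      exact le_max_right _ _
    · refine ⟨v (A c (ψ 0)), ?_, R.ψv _ (hinv c _ (R.mψ h0))⟩
      rw [mem_closedBall_zero_iff, hT c 0 h0]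
      have h1 : ‖mob (u c) (b c) 0‖ = ‖b c‖ := by
        unfold mob
        rw [mul_zero, sub_zero, div_one, zero_sub, norm_mul, hu, one_mul, norm_neg]
      rw [h1]
      exact (hc : ‖b c‖ ≤ r).trans (le_max_left _ _)
  · -- hyp
    intro c hc
    rcases classify (hu c) (hb c) (hfree c hc) with h | ⟨P, hP, hb0, h2, h3⟩
    · exact h
    · exfalso
      rcases D.hX with ⟨hX, -⟩ | ⟨hX, -⟩
      · exact no_para D hX M R hc (hu c) (hb c) (hT c) hP hb0 h2
      · obtain ⟨c₀, hc₀, hgap⟩ := disc_gap D hX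
        obtain ⟨z, hz, hlt⟩ := h3 c₀ hc₀
        have hm : MapsTo ψ (ball 0 1) (ball 0 1) := by
          intro x hx
          have := hψX x hx
          rwa [hX] at this
        have hTz : mob (u c) (b c) z ∈ ball (0:ℂ) 1 := by
          rw [← hT c z hz]; exact hTm c hz
        have h4 := schwarz_pick R.dψ hm hz hTz
        have h5 : ψ (mob (u c) (b c) z) = A c (ψ z) := by
          rw [← hT c z hz]
          exact R.ψv _ (hinv c _ (R.mψ hz))
        rw [h5] at h4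
        have h6 := hgap c (fun h => hc (Subtype.ext h)) (ψ z) (hm hz)
        linarith

/-- translations commute, so a nonelementary group is impossible in the plane -/
theorem flat_elem (D : Deck X A p) (hX : X = univ) {F : Fuchs N} (hN : F.Nonel) : False := by
  have hcomm : ∀ a b : Γ, a * b = b * a := by
    intro a b
    rcases D.hX with ⟨-, h⟩ | ⟨h, -⟩
    · obtain ⟨l, hl⟩ := h a
      obtain ⟨l', hl'⟩ := h b
      have h0 : (0:ℂ) ∈ X := by rw [hX]; trivial
      apply D.ext h0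
      rw [D.mul _ _ _ h0, D.mul _ _ _ h0, hl', hl, hl, hl']
      ring
    · exfalso
      have h1 : (2 : ℂ) ∈ X := by rw [hX]; trivial
      rw [h, mem_ball_zero_iff] at h1
      norm_num at h1
  obtain ⟨a, b, ha, hb, h⟩ := hN
  obtain ⟨P, Q, hPQ⟩ := exists_AR F ha
  have h1 := AR.conj hPQ b
  have h2 : b * a * b⁻¹ = a := by
    apply Subtype.ext
    simp only [Subgroup.coe_mul, InvMemClass.coe_inv]
    rw [hcomm (b : Γ) a, mul_inv_cancel_right]
  rw [h2] at h1
  have h3 := (AR.unique h1 hPQ).1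
  exact h P hPQ.np hPQ.fp h3

end

end CV

end S_H12_CV_FU

section S_H12_CV_UA

/-!
UA (the group on `X = disc`).  `exists_fuchs0`: `A c = mob (u c) (b c)` everywhere (`D.hX`; the first alternative is excluded by `hX`, `univ ≠ ball 0 1`); `one`, `mul` on the closed disc by continuity from the open disc; `fin`: `proper` for `closedBall 0 r` (`A c 0` has norm `‖b c‖`);
`free`; `hyp`: `classify` and `disc_gap`.  Cocompact: `Deck.coc` (`C ⊆ ball 0 1` compact is contained in a `closedBall 0 ρ`).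
`sub_nonel`: `elem (F₀.sub N)`: trivial: `F.Nonel` gives `g ≠ 1`; cyclic: all elements of `N` are powers of `κ ≠ 1`; let `AR κ P Q` for `F` (`exists_AR`); a nontrivial power fixes exactly `P, Q` (`AR.pow`, `AR.inv`), so two nontrivial elements `g, h` of
`F.Nonel` would have the common fixed point `P`: contradiction.
`seg_away`, `seg_uc`: (UC) for radial segments ending at orbit points.  `seg_away`: as `ray_away` in TN/DI: choose `s < 1` with `1 - s² < ‖1 - s conj ξ x‖²` for all `x` in the orbit of `0` (the half planes shrink to `ξ ∉ lim`, and the orbit stays away from `ξ`);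
`bis` with `b = act g⁻¹ 0`, `a = act g⁻¹ (s ξ)`, `r₀ = 0`, `r₁ = ‖act c 0‖` (the end points `act g 0`, `act g (act c 0)` are in the orbit) shows that no `act g (r • act c 0)`, `0 ≤ r ≤ 1`, is in the half plane, a neighbourhood of `ξ`.
`seg_uc`: otherwise there are `c_n`, `t_n ∈ [0,1]` with `1 - 1/(n+1) ≤ ‖act g (t_n act c_n 0)‖` for all `g`; `dirichlet_seq` gives `ξ`, a limit of points `act (g n) (t act c 0)`, with `r ≤ ‖act h (r ξ)‖` for all `h`, `r`; `ξ ∈ lim` by `seg_away`; contradiction to (UC) for `r` close to one.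
-/

namespace CV

open Metric Set Filter Topology Function DS TN

section
variable {Γ : Type} [Group Γ] (F : Fuchs Γ)

theorem seg_away {ξ : ℂ} (hξ : ‖ξ‖ = 1) (h : ξ ∉ F.lim) :
    ∃ δ > 0, ∀ g c, ∀ t : ℝ, 0 ≤ t → t ≤ 1 → δ ≤ dist (F.act g (t * F.act c 0)) ξ := by
  -- distance to the closure of the orbit
  have hcl : ξ ∉ closure (range fun g => F.act g 0) := fun hc => h ⟨hξ, hc⟩
  obtain ⟨d0, hd0, hball⟩ := Metric.isOpen_iff.1 isClosed_closure.isOpen_compl ξ hcl
  set d : ℝ := min d0 1 with hd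
  have hdp : 0 < d := lt_min hd0 one_pos
  have hd1 : d ≤ 1 := min_le_right _ _
  have hfar : ∀ x ∈ closure (range fun g => F.act g 0), d ≤ ‖ξ - x‖ := by
    intro x hx
    by_contra hcon
    push Not at hcon
    refine hball (mem_ball_iff_norm.2 ?_) hx
    rw [norm_sub_rev]
    exact lt_of_lt_of_le hcon (min_le_left _ _)
  have horb : ∀ g, d ≤ ‖ξ - F.act g 0‖ := fun g => hfar _ (subset_closure ⟨g, rfl⟩)
  set ε : ℝ := d ^ 2 / 16 with hε
  have hεp : 0 < ε := by positivity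
  have hεd : ε ≤ d / 16 := by
    have : d ^ 2 ≤ d := by nlinarith
    rw [hε]
    linarith
  set s : ℝ := 1 - ε with hs
  have hs0 : 0 < s := by rw [hs]; linarith
  have hs1 : s < 1 := by rw [hs]; linarith
  set a : ℂ := (s : ℂ) * ξ with ha
  have han : ‖a‖ = s := by
    rw [ha, norm_mul, hξ, mul_one, Complex.norm_real, Real.norm_of_nonneg hs0.le]
  have hξξ : (starRingEnd ℂ) ξ * ξ = 1 := by
    rw [mul_comm, Complex.mul_conj, Complex.normSq_eq_norm_sq, hξ]; norm_num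
  -- far points are outside the half plane
  have hout : ∀ x : ℂ, ‖x‖ ≤ 1 → d ≤ ‖ξ - x‖ → 1 - ‖a‖ ^ 2 < ‖1 - (starRingEnd ℂ) a * x‖ ^ 2 := by
    intro x hx hdx
    have e1 : 1 - (starRingEnd ℂ) a * x =
        (starRingEnd ℂ) ξ * (ξ - x) + (ε : ℂ) * ((starRingEnd ℂ) ξ * x) := by
      rw [ha, map_mul, Complex.conj_ofReal, mul_sub, hξξ, hs]
      push_cast
      ring
    have h1 : ‖(starRingEnd ℂ) ξ * (ξ - x)‖ ≤
        ‖1 - (starRingEnd ℂ) a * x‖ + ‖(ε : ℂ) * ((starRingEnd ℂ) ξ * x)‖ := by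
      have e2 : (starRingEnd ℂ) ξ * (ξ - x) = (1 - (starRingEnd ℂ) a * x) -
          (ε : ℂ) * ((starRingEnd ℂ) ξ * x) := by rw [e1]; ring
      rw [e2]
      exact norm_sub_le _ _
    rw [norm_mul, norm_mul, norm_mul, RCLike.norm_conj, hξ, one_mul, one_mul, Complex.norm_real,
      Real.norm_of_nonneg hεp.le] at h1
    have h2 : ε * ‖x‖ ≤ ε := mul_le_of_le_one_right hεp.le hx
    have h3 : 15 / 16 * d ≤ ‖1 - (starRingEnd ℂ) a * x‖ := by linarith
    have h4 : (15 / 16 * d) ^ 2 ≤ ‖1 - (starRingEnd ℂ) a * x‖ ^ 2 :=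
      pow_le_pow_left₀ (by positivity) h3 2
    have h5 : 1 - ‖a‖ ^ 2 < (15 / 16 * d) ^ 2 := by
      rw [han, hs]
      have e3 : 1 - (1 - ε) ^ 2 = 2 * ε - ε ^ 2 := by ring
      rw [e3, hε]
      nlinarith [sq_nonneg (d ^ 2 / 16), pow_pos hdp 2]
    linarith
  -- the centre `ξ` is in the half plane
  have hcont : Continuous (fun x : ℂ => ‖1 - (starRingEnd ℂ) a * x‖ ^ 2) := by fun_prop
  have hin : ‖1 - (starRingEnd ℂ) a * ξ‖ ^ 2 < 1 - ‖a‖ ^ 2 := by
    have e1 : 1 - (starRingEnd ℂ) a * ξ = (ε : ℂ) := by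
      rw [ha, map_mul, Complex.conj_ofReal, mul_assoc, hξξ, hs]
      push_cast
      ring
    rw [e1, Complex.norm_real, Real.norm_of_nonneg hεp.le, han, hs]
    nlinarith
  obtain ⟨δ, hδ, hδ'⟩ := Metric.isOpen_iff.1 (isOpen_lt hcont continuous_const) ξ hin
  refine ⟨δ, hδ, fun g c t ht0 ht1 => ?_⟩
  by_contra hcon
  push Not at hcon
  have hbad : ‖1 - (starRingEnd ℂ) a * F.act g (t * F.act c 0)‖ ^ 2 < 1 - ‖a‖ ^ 2 :=
    hδ' (mem_ball.2 hcon)
  have ha1 : ‖a‖ < 1 := by rw [han]; exact hs1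
  have h00 : ‖(0 : ℂ)‖ < 1 := by simp
  have hc1 : ‖F.act c 0‖ < 1 := act_lt F c h00
  -- the two end points
  have hE0 : 1 - ‖a‖ ^ 2 < ‖1 - (starRingEnd ℂ) a * F.act g 0‖ ^ 2 :=
    hout _ (act_lt F g h00).le (horb g)
  have hE1 : 1 - ‖a‖ ^ 2 < ‖1 - (starRingEnd ℂ) a * F.act g (F.act c 0)‖ ^ 2 := by
    refine hout _ (act_lt F g hc1).le ?_
    rw [← act_mul F g c h00.le]
    exact horb _
  by_cases h0 : F.act c 0 = 0
  · rw [h0, mul_zero] at hbad
    linarith
  set r₁ : ℝ := ‖F.act c 0‖ with hr₁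
  have hr₁0 : 0 < r₁ := norm_pos_iff.2 h0
  set ζ : ℂ := ((r₁ : ℝ) : ℂ)⁻¹ * F.act c 0 with hζd
  have hζ1 : ‖ζ‖ = 1 := by
    rw [hζd, norm_mul, norm_inv, Complex.norm_real, Real.norm_of_nonneg hr₁0.le, ← hr₁,
      inv_mul_cancel₀ hr₁0.ne']
  have hr₁c : ((r₁ : ℝ) : ℂ) ≠ 0 := Complex.ofReal_ne_zero.2 hr₁0.ne'
  have hζr : ((r₁ : ℝ) : ℂ) * ζ = F.act c 0 := by
    rw [hζd, ← mul_assoc, mul_inv_cancel₀ hr₁c, one_mul]
  have hζt : (((t * r₁ : ℝ)) : ℂ) * ζ = t * F.act c 0 := by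
    rw [← hζr]
    push_cast
    ring
  have hn : ∀ t : ℝ, 0 ≤ t → ‖(t : ℂ) * ζ‖ = t := by
    intro t ht
    rw [norm_mul, hζ1, mul_one, Complex.norm_real, Real.norm_of_nonneg ht]
  have htr : t * r₁ ≤ r₁ := mul_le_of_le_one_left hr₁0.le ht1
  have htr0 : 0 ≤ t * r₁ := mul_nonneg ht0 hr₁0.le
  have hQ1 := (DI_closer F g (a := a) (z := (r₁ : ℂ) * ζ) ha1
    (by rw [hn r₁ hr₁0.le]; exact hc1)).1 (by rw [hζr]; exact hE1.le)
  have hQ0 := (DI_closer F g (a := a) (z := ((0 : ℝ) : ℂ) * ζ) ha1 (by simp)).1 (by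
    have : ((0 : ℝ) : ℂ) * ζ = 0 := by simp
    rw [this]
    exact hE0.le)
  have hQ := bis hζ1 le_rfl htr0 htr hc1.le hQ0 hQ1
  have := (DI_closer F g (a := a) (z := ((t * r₁ : ℝ) : ℂ) * ζ) ha1
    (by rw [hn _ htr0]; exact lt_of_le_of_lt htr hc1)).2 hQ
  rw [hζt] at this
  linarith

theorem seg_uc (hU : F.UC) : ∃ ρ : ℝ, ρ < 1 ∧ ∀ c, ∀ t : ℝ, 0 ≤ t → t ≤ 1 →
    ∃ g, ‖F.act g (t * F.act c 0)‖ ≤ ρ := by
  by_contra hcon
  push Not at hcon
  choose c t ht0 ht1 hρ using fun n : ℕ => hcon (1 - 1 / ((n : ℝ) + 1)) (by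
    have : (0 : ℝ) < 1 / ((n : ℝ) + 1) := by positivity
    linarith)
  have h00 : ‖(0 : ℂ)‖ < 1 := by simp
  have hn : ∀ n, ‖((t n : ℝ) : ℂ) * F.act (c n) 0‖ < 1 := by
    intro n
    rw [norm_mul, Complex.norm_real, Real.norm_of_nonneg (ht0 n)]
    have h1 := act_lt F (c n) h00
    calc t n * ‖F.act (c n) 0‖ ≤ 1 * ‖F.act (c n) 0‖ :=
          mul_le_mul_of_nonneg_right (ht1 n) (norm_nonneg _)
      _ < 1 := by rwa [one_mul]
  obtain ⟨φ, hφ, g, ξ, hξ, hlim, hray⟩ := dirichlet_seq F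
    (x := fun n => ((t n : ℝ) : ℂ) * F.act (c n) 0) hn (by
      intro ρ hρ1
      have h1 : Tendsto (fun n : ℕ => 1 - 1 / ((n : ℝ) + 1)) atTop (𝓝 (1 - 0)) :=
        tendsto_const_nhds.sub tendsto_one_div_add_atTop_nhds_zero_nat
      rw [sub_zero] at h1
      filter_upwards [h1.eventually (lt_mem_nhds hρ1)] with n hn k
      exact (hn.trans (hρ n k)).le)
  have hξlim : ξ ∈ F.lim := by
    by_contra hcon
    obtain ⟨δ, hδ, hfar⟩ := seg_away F hξ hcon
    have h1 := hlim.eventually (ball_mem_nhds ξ hδ)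
    obtain ⟨n, hn1⟩ := h1.exists
    have h2 := hfar (g n) (c (φ n)) (t (φ n)) (ht0 _) (ht1 _)
    have h3 : dist (F.act (g n) ((t (φ n) : ℂ) * F.act (c (φ n)) 0)) ξ < δ := hn1
    linarith
  obtain ⟨ρ, hρ1, hUC⟩ := hU
  have hm : max ρ 0 < 1 := max_lt hρ1 one_pos
  obtain ⟨r, hr, hr1⟩ := exists_between hm
  have hr0 : 0 ≤ r := (le_max_right _ _).trans hr.le
  obtain ⟨k, hk⟩ := hUC ξ hξlim r hr0 hr1
  have h4 := hray k r hr0 hr1
  have h5 : ρ < r := lt_of_le_of_lt (le_max_left _ _) hr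
  linarith

end

variable {S : Type} [MetricSpace S] [CompactSpace S] {X : Set ℂ} {Γ : Type} [Group Γ]
  {A : Γ → ℂ → ℂ} {p : ℂ → S} {N : Subgroup Γ} {ψ v : ℂ → ℂ} {F : Fuchs N}

theorem exists_fuchs0 (D : Deck X A p) (hX : X = ball 0 1) :
    ∃ F₀ : Fuchs Γ, (∀ c x, F₀.act c x = A c x) ∧ F₀.UC := by
  choose u b hu hb hA using FU_mob D hX
  have hmem : ∀ x, x ∈ X ↔ ‖x‖ < 1 := fun x => by rw [hX, mem_ball_zero_iff]
  have hfree : ∀ c : Γ, c ≠ 1 → ∀ x ∈ ball (0:ℂ) 1, mob (u c) (b c) x ≠ x := by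
    intro c hc x hx
    rw [← hA]
    exact D.free c hc x (by rw [hX]; exact hx)
  refine ⟨⟨u, b, hu, hb, ?_, ?_, ?_, hfree, ?_⟩, fun c x => (hA c x).symm, ?_⟩
  · -- one
    refine FU_ext (mob_cont (hb 1)) continuousOn_id fun x hx => ?_
    rw [← hA 1 x]
    exact D.one x (by rw [hX]; exact hx)
  · -- mul
    intro c d
    refine FU_ext (mob_cont (hb _)) ((mob_cont (hb c)).comp (mob_cont (hb d)) ?_) fun x hx => ?_
    · intro x hx
      rw [mem_closedBall_zero_iff] at hx ⊢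
      exact mob_closedBall (hu d) (hb d) hx
    · show mob (u (c * d)) (b (c * d)) x = mob (u c) (b c) (mob (u d) (b d) x)
      rw [← hA, ← hA, ← hA]
      exact D.mul c d x (by rw [hX]; exact hx)
  · -- fin
    intro r hr
    have hKX : closedBall (0:ℂ) (max r 0) ⊆ X := by
      rw [hX]
      exact closedBall_subset_ball (max_lt hr one_pos)
    refine (D.proper _ hKX (isCompact_closedBall _ _)).subset ?_
    intro c hc
    refine ⟨0, ?_, ?_⟩
    · rw [mem_closedBall_zero_iff, norm_zero]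
      exact le_max_right _ _
    · rw [mem_closedBall_zero_iff, hA c 0]
      have h1 : ‖mob (u c) (b c) 0‖ = ‖b c‖ := by
        unfold mob
        rw [mul_zero, sub_zero, div_one, zero_sub, norm_mul, hu, one_mul, norm_neg]
      rw [h1]
      exact (hc : ‖b c‖ ≤ r).trans (le_max_left _ _)
  · -- hyp
    intro c hc
    rcases classify (hu c) (hb c) (hfree c hc) with h | ⟨P, hP, hb0, h2, h3⟩
    · exact h
    · exfalso
      obtain ⟨c₀, hc₀, hgap⟩ := disc_gap D hX
      obtain ⟨z, hz, hlt⟩ := h3 c₀ hc₀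
      have h6 := hgap c hc z hz
      rw [hA] at h6
      linarith
  · -- UC
    obtain ⟨C, hCX, hC, hcov⟩ := D.coc
    have hCne : C.Nonempty := by
      obtain ⟨d, hd⟩ := hcov 0 ((hmem 0).2 (by simp))
      exact ⟨_, hd⟩
    obtain ⟨x₀, hx₀, hmax⟩ := hC.exists_isMaxOn hCne continuous_norm.continuousOn
    have hρ : ‖x₀‖ < 1 := (hmem _).1 (hCX hx₀)
    refine ⟨‖x₀‖, hρ, fun ξ hξ r hr0 hr1 => ?_⟩
    have hx : (r : ℂ) * ξ ∈ X := by
      rw [hmem, norm_mul, Complex.norm_real, Real.norm_of_nonneg hr0, hξ.1, mul_one]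
      exact hr1
    obtain ⟨g, hg⟩ := hcov _ hx
    refine ⟨g, ?_⟩
    have h1 : ‖A g (r * ξ)‖ ≤ ‖x₀‖ := hmax hg
    rw [hA] at h1
    exact h1

theorem sub_nonel {F₀ : Fuchs Γ} (hN : F.Nonel) : (F₀.sub N).Nonel := by
  obtain ⟨g, h, hg, hh, hgh⟩ := hN
  rcases elem (F₀.sub N) with h1 | ⟨κ, P₀, Q₀, hκ, hz⟩ | h1
  · exact absurd (h1 g) hg
  · exfalso
    have hκ1 : κ ≠ 1 := AR.ne_one hκ
    obtain ⟨P, Q, hPQ⟩ := exists_AR F hκ1
    have hall : ∀ c : N, F.act c P = P := by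
      intro c
      obtain ⟨n, rfl⟩ := Subgroup.mem_zpowers_iff.1 (hz c)
      have h2 : κ ∈ FD_st F P hPQ.np.le := (FD_mem hPQ.np.le).2 hPQ.fp
      exact (FD_mem hPQ.np.le).1 (Subgroup.zpow_mem _ h2 n)
    exact hgh P hPQ.np (hall g) (hall h)
  · exact h1

end CV

end S_H12_CV_UA

section S_H12_CV_UB

/-!
UB (unlinked limit sets; (4.1) of the note).  `W` open connected subset of the disc, invariant under `act z`, `z ∈ N`.
`ray_path`: `z ∈ N`, `AR z a a'`, `x₀ ∈ W`: `W` is path connected (`IsOpen.isConnected_iff_isPathConnected`); let `γ : [0,1] → W` be a path from `x₀` to `act z x₀`.  Define `f 1 = a` and `f t = act (z^n) (γ s)` for `t = 1 - 1/(n + 1 + s)`, `0 ≤ s ≤ 1`, i.e.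
`τ = 1/(1-t) - 1`, `n = ⌊τ⌋`, `s = fract τ`.  Continuous for `t < 1` (the values at `s = 1` and the next `s = 0` agree: `act (z^n) (act z x₀) = act (z^(n+1)) x₀`); continuous at `1` by `AR.unif` (`γ` has compact image in the open disc, so at positive distance from `a'`).
`two_path`: join two such paths.
`unlinked`: `ell a a' x = Im ((x - a) conj (a' - a))`.  Suppose `a, a' ∈ lim (sub N)`, `b₀, b₀' ∈ lim (sub N)`, `b = act c b₀`, `b' = act c b₀'` and `ell a a' b * ell a a' b' < 0`.  This is an open condition, so by `TN.near` (for `F₀.sub N`) we may replace `a, a', b₀, b₀'` by attracting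
fixed points of elements of `N`.  `two_path` gives `f` from `a` to `a'` with interior in `W`, and `h` from `b₀` to `b₀'`, `act c ∘ h` from `b` to `b'` with interior in `act c '' W`.  The points `a, b, a', b'` are distinct and alternate on the circle, so `Cross.cross` (H77/ISO/Cross:
`D = closedBall 0 1`, supporting half planes `na = a`, `nb = -b` etc.; the four sign conditions say that `a, b, a', b'` is a convex quadrilateral in this orientation; otherwise exchange `b` and `b'`) gives `s, t` with `f s = act c (h t)`.  If this point is in the open disc, it is in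
`W ∩ act c '' W = ∅`; otherwise it is on the circle and `s ∈ {0,1}`, `t ∈ {0,1}`, so one of `a, a'` is one of `b, b'`, but `ell a a' b ≠ 0`: contradiction.
The sign conditions: for `a, b, a', b'` on the circle, `Im ((a - b') conj (a - b))` etc.: `a, b, a', b'` in counterclockwise order: `b` and `b'` on different sides of the line `a a'`; for three points of the circle the sign of `Im ((y - x) conj (z - x))`
determines the cyclic order; use the identity `Im ((y - x) conj (z - x)) = ± 4 sin sin sin /2` or the product formula: for unit numbers `(y - x) conj (z - x) = (y - x)(x - z)/(x z)`... A clean way: `ell a a' b * ell a a' b' < 0` means that the chords `[a, a']` and `[b, b']` meet in an interior point, and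
convexity of the disc gives the four signs: with `o` the intersection point, `a = o + α e`, `a' = o - α' e`, `b = o + β e'`, `b' = o - β' e'`, all `α, α', β, β' > 0`, and `σ = Im (e conj e') ≠ 0`; each of the four expressions is a positive combination of `σ` (or of `-σ`):
`Im ((a - b') conj (a - b)) = Im ((α e + β' e') conj (α e - β e')) = - α β Im (e conj e') + α β' Im (e' conj e) = - α (β + β') σ`, and the same sign for the others.
`same_side`: `a₁, a₂, a₃` distinct points of `lim (sub N)`, `c ∉ N`.  For `x` on the circle, not one of the `a_i`, `x` is on the side opposite to the third point for exactly one of the three lines (it is not in the open triangle; see TN/RG).  `lim (sub N)` is perfect and infinite, so choose `b₁ ∈ act c '' lim`,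
`b₁ ∉ {a_i}`, say `ell a₁ a₂ b₁ * ell a₁ a₂ a₃ < 0`.  Let `S = {x | ‖x‖ = 1, ell a₁ a₂ x * ell a₁ a₂ a₃ < 0}`, an open arc (the circle intersected with an open half plane `Re (x conj n) > k`, `‖n‖ = 1`: the image of the interval `|φ| < arccos k` under `φ ↦ n e^(iφ)`), preconnected, not containing the `a_i`.  By `unlinked` all `b ∈ act c '' lim`, `b ∉ {a₁, a₂, a₃}`, satisfy `ell a₁ a₂ b * ell a₁ a₂ b₁ ≥ 0`, and `ell a₁ a₂ b ≠ 0`, so `b ∈ S`.
As `act c '' lim` is perfect, every point of it is a limit of such `b`.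
(This file: `ray_path`, `two_path`.)
-/

namespace CV

open Metric Set Filter Topology Function DS TN

/-- an affine function vanishing on the line through `a` and `a'` -/
noncomputable def ell (a a' x : ℂ) : ℝ := ((x - a) * (starRingEnd ℂ) (a' - a)).im

variable {Γ : Type} [Group Γ] {F₀ : Fuchs Γ} {N : Subgroup Γ} {W : Set ℂ}

theorem UB_pow {z : Γ} (hz : F₀.act z '' W = W) (hWb : W ⊆ ball 0 1) (n : ℕ) {x : ℂ}
    (hx : x ∈ W) : F₀.act (z ^ n) x ∈ W := by
  have h1 : ∀ y ∈ W, ‖y‖ ≤ 1 := fun y hy => (mem_ball_zero_iff.1 (hWb hy)).le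
  induction n with
  | zero => rwa [pow_zero, act_one F₀ (h1 x hx)]
  | succ n ih =>
    rw [pow_succ', act_mul F₀ _ _ (h1 x hx)]
    have h2 : F₀.act z (F₀.act (z ^ n) x) ∈ F₀.act z '' W := ⟨_, ih, rfl⟩
    rwa [hz] at h2

/-- the infinite concatenation of the translates of a path from `x₀` to `act z x₀` -/
theorem UB_G {z : Γ} {x₀ : ℂ} {γ : ℝ → ℂ} (hx₀ : ‖x₀‖ ≤ 1) (hγ : Continuous γ)
    (hγb : ∀ t, ‖γ t‖ ≤ 1) (h0 : γ 0 = x₀) (h1 : γ 1 = F₀.act z x₀) :
    ContinuousOn (fun τ : ℝ => F₀.act (z ^ ⌊τ⌋₊) (γ (τ - ⌊τ⌋₊))) (Ici 0) := by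
  have hpiece : ∀ n : ℕ, ContinuousOn (fun τ : ℝ => F₀.act (z ^ ⌊τ⌋₊) (γ (τ - ⌊τ⌋₊)))
      (Icc (n : ℝ) (n + 1)) := by
    intro n
    have hc : ContinuousOn (fun τ : ℝ => F₀.act (z ^ n) (γ (τ - n))) (Icc (n : ℝ) (n + 1)) := by
      refine ContinuousOn.comp (act_cont F₀ (z ^ n)) (t := closedBall 0 1)
        (by fun_prop) ?_
      intro τ _
      simpa using hγb _
    refine hc.congr ?_
    intro τ hτ
    rcases lt_or_eq_of_le hτ.2 with h | h
    · have : ⌊τ⌋₊ = n := by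
        rw [Nat.floor_eq_iff (le_trans (Nat.cast_nonneg n) hτ.1)]
        exact ⟨hτ.1, h⟩
      simp only [this]
    · have h5 : ⌊(n : ℝ) + 1⌋₊ = n + 1 := by
        have : ((n : ℝ) + 1) = ((n + 1 : ℕ) : ℝ) := by push_cast; ring
        rw [this, Nat.floor_natCast]
      subst h
      simp only [h5]
      push_cast
      rw [sub_self, h0, add_sub_cancel_left, h1, pow_succ, act_mul F₀ _ _ hx₀]
  have hall : ∀ n : ℕ, ContinuousOn (fun τ : ℝ => F₀.act (z ^ ⌊τ⌋₊) (γ (τ - ⌊τ⌋₊)))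
      (Icc (0 : ℝ) (n + 1)) := by
    intro n
    induction n with
    | zero => simpa using hpiece 0
    | succ n ih =>
      have h2 := hpiece (n + 1)
      have h3 := ih.union_of_isClosed h2 isClosed_Icc isClosed_Icc
      refine h3.mono ?_
      intro τ hτ
      rcases le_total τ (n + 1) with h | h
      · exact Or.inl ⟨hτ.1, h⟩
      · refine Or.inr ⟨?_, hτ.2⟩
        push_cast
        exact h
  intro τ hτ
  have h2 : τ < (⌊τ⌋₊ : ℝ) + 1 := Nat.lt_floor_add_one τ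
  have h3 := hall ⌊τ⌋₊ τ ⟨hτ, h2.le⟩
  refine h3.mono_of_mem_nhdsWithin ?_
  rw [mem_nhdsWithin_iff_exists_mem_nhds_inter]
  exact ⟨Iio ((⌊τ⌋₊ : ℝ) + 1), Iio_mem_nhds h2, fun y hy => ⟨hy.2, (le_of_lt hy.1)⟩⟩

theorem ray_path (hW : IsOpen W) (hWc : IsConnected W) (hWb : W ⊆ ball 0 1)
    {z : Γ} (hz : F₀.act z '' W = W) {a a' : ℂ} (h : F₀.AR z a a') {x₀ : ℂ} (hx₀ : x₀ ∈ W) :
    ∃ f : ℝ → ℂ, ContinuousOn f (Icc 0 1) ∧ f 0 = x₀ ∧ f 1 = a ∧ ∀ t, 0 ≤ t → t < 1 → f t ∈ W := by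
  classical
  have hb1 : ∀ y ∈ W, ‖y‖ < 1 := fun y hy => mem_ball_zero_iff.1 (hWb hy)
  have hzx : F₀.act z x₀ ∈ W := by
    have h2 : F₀.act z x₀ ∈ F₀.act z '' W := ⟨_, hx₀, rfl⟩
    rwa [hz] at h2
  have hj := ((hW.isConnected_iff_isPathConnected).1 hWc).joinedIn x₀ hx₀ _ hzx
  set P := hj.somePath with hP
  have hPm : ∀ t, P t ∈ W := hj.somePath_mem
  set γ : ℝ → ℂ := ⇑P.extend with hγ
  have hγc : Continuous γ := P.continuous_extend
  have hγm : ∀ t, γ t ∈ W := by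
    intro t
    exact hPm (projIcc 0 1 zero_le_one t)
  have hγ0 : γ 0 = x₀ := P.extend_zero
  have hγ1 : γ 1 = F₀.act z x₀ := P.extend_one
  have hG := UB_G (F₀ := F₀) (z := z) (hb1 x₀ hx₀).le hγc (fun t => (hb1 _ (hγm t)).le) hγ0 hγ1
  set G : ℝ → ℂ := fun τ : ℝ => F₀.act (z ^ ⌊τ⌋₊) (γ (τ - ⌊τ⌋₊)) with hGdef
  have hGW : ∀ τ, G τ ∈ W := fun τ => UB_pow hz hWb _ (hγm _)
  refine ⟨fun t => if t < 1 then G (1 / (1 - t) - 1) else a, ?_, ?_, ?_, ?_⟩
  · intro t ht
    rcases lt_or_eq_of_le ht.2 with h1 | h1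
    · -- continuity before `1`
      have hin : 0 ≤ 1 / (1 - t) - 1 := by
        have : 0 < 1 - t := by linarith
        rw [sub_nonneg, le_div_iff₀ this]
        linarith [ht.1]
      have hc1 : ContinuousWithinAt (fun t : ℝ => G (1 / (1 - t) - 1)) (Icc 0 1 ∩ Iio 1) t := by
        refine ContinuousWithinAt.comp (t := Ici 0) (f := fun t : ℝ => 1 / (1 - t) - 1) (g := G)
          (hG _ hin) ?_ ?_
        · have h2 : (1 - t) ≠ 0 := by
            have : 0 < 1 - t := by linarith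
            exact this.ne'
          have h3 : ContinuousAt (fun t : ℝ => 1 / (1 - t) - 1) t :=
            ((continuousAt_const).div (by fun_prop) h2).sub continuousAt_const
          exact h3.continuousWithinAt
        · rintro y ⟨hy1, hy2⟩
          have : 0 < 1 - y := by
            have : y < 1 := hy2
            linarith
          show (0 : ℝ) ≤ 1 / (1 - y) - 1
          rw [sub_nonneg, le_div_iff₀ this]
          linarith [hy1.1]
      have hc2 : ContinuousWithinAt (fun t : ℝ => if t < 1 then G (1 / (1 - t) - 1) else a)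
          (Icc 0 1 ∩ Iio 1) t := by
        refine hc1.congr ?_ ?_
        · rintro y ⟨_, hy2⟩
          exact if_pos hy2
        · exact if_pos h1
      refine hc2.mono_of_mem_nhdsWithin ?_
      exact inter_mem_nhdsWithin _ (Iio_mem_nhds h1)
    · subst h1
      -- continuity at `1`
      have hK : IsCompact (γ '' Icc 0 1) := isCompact_Icc.image hγc
      have ha' : a' ∉ γ '' Icc 0 1 := by
        rintro ⟨s, _, hs⟩
        have := hb1 _ (hγm s)
        rw [hs, h.nq] at this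
        exact lt_irrefl _ this
      obtain ⟨η, hη, hηd⟩ : ∃ η > 0, ∀ x ∈ γ '' Icc 0 1, η ≤ dist x a' := by
        have hne : (γ '' Icc (0:ℝ) 1).Nonempty := ⟨γ 0, 0, by simp, rfl⟩
        refine ⟨infDist a' (γ '' Icc 0 1), ?_, ?_⟩
        · exact (hK.isClosed.notMem_iff_infDist_pos hne).1 ha'
        · intro x hx
          rw [dist_comm]
          exact infDist_le_dist_of_mem hx
      rw [Metric.continuousWithinAt_iff]
      intro ε hε
      obtain ⟨n₀, hn₀⟩ := eventually_atTop.1 (AR.unif h hη hε)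
      refine ⟨1 / ((n₀ : ℝ) + 1), by positivity, ?_⟩
      intro t ht htd
      simp only [lt_irrefl, if_false]
      split_ifs with h1
      · have hpos : 0 < 1 - t := by linarith
        have h2 : 1 - t < 1 / ((n₀ : ℝ) + 1) := by
          rw [Real.dist_eq, abs_sub_comm, abs_of_pos hpos] at htd
          exact htd
        have h3 : (n₀ : ℝ) ≤ 1 / (1 - t) - 1 := by
          have hp : (0:ℝ) < (n₀ : ℝ) + 1 := by positivity
          rw [le_sub_iff_add_le, le_div_iff₀ hpos]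
          rw [lt_div_iff₀ hp] at h2
          nlinarith
        set τ := 1 / (1 - t) - 1 with hτ
        have hτ0 : 0 ≤ τ := le_trans (Nat.cast_nonneg _) h3
        have h4 : n₀ ≤ ⌊τ⌋₊ := Nat.le_floor h3
        refine hn₀ _ h4 _ ?_ ?_
        · rw [mem_closedBall_zero_iff]
          exact (hb1 _ (hγm _)).le
        · refine hηd _ ⟨τ - ⌊τ⌋₊, ⟨?_, ?_⟩, rfl⟩
          · linarith [Nat.floor_le hτ0]
          · linarith [Nat.lt_floor_add_one τ]
      · rw [dist_self]; exact hε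
  · simp only [zero_lt_one, if_true, sub_zero, div_one, sub_self]
    simp only [hGdef, Nat.floor_zero, pow_zero, Nat.cast_zero, sub_zero, hγ0]
    exact act_one F₀ (hb1 _ hx₀).le
  · simp
  · intro t _ h1
    simp only [h1, if_true]
    exact hGW _

theorem two_path (hW : IsOpen W) (hWc : IsConnected W) (hWb : W ⊆ ball 0 1)
    {z z' : Γ} (hz : F₀.act z '' W = W) (hz' : F₀.act z' '' W = W) {a a' b b' : ℂ}
    (h : F₀.AR z a a') (h' : F₀.AR z' b b') :
    ∃ f : unitInterval → ℂ, Continuous f ∧ f 0 = a ∧ f 1 = b ∧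
      ∀ t, t ≠ 0 → t ≠ 1 → f t ∈ W := by
  classical
  obtain ⟨x₀, hx₀⟩ := hWc.nonempty
  obtain ⟨f, hf, hf0, hf1, hfW⟩ := ray_path hW hWc hWb hz h hx₀
  obtain ⟨g, hg, hg0, hg1, hgW⟩ := ray_path hW hWc hWb hz' h' hx₀
  set fe : ℝ → ℂ := fun t => f (projIcc (0:ℝ) 1 zero_le_one t) with hfe
  set ge : ℝ → ℂ := fun t => g (projIcc (0:ℝ) 1 zero_le_one t) with hge
  have hfec : Continuous fe :=
    hf.comp_continuous (continuous_subtype_val.comp continuous_projIcc)
      (fun t => (projIcc (0:ℝ) 1 zero_le_one t).2)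
  have hgec : Continuous ge :=
    hg.comp_continuous (continuous_subtype_val.comp continuous_projIcc)
      (fun t => (projIcc (0:ℝ) 1 zero_le_one t).2)
  have hfe1 : ∀ t : ℝ, t ∈ Icc (0:ℝ) 1 → fe t = f t := by
    intro t ht
    simp only [hfe, projIcc_of_mem zero_le_one ht]
  have hge1 : ∀ t : ℝ, t ∈ Icc (0:ℝ) 1 → ge t = g t := by
    intro t ht
    simp only [hge, projIcc_of_mem zero_le_one ht]
  refine ⟨fun t => if (t : ℝ) ≤ 1 / 2 then fe (1 - 2 * t) else ge (2 * t - 1), ?_, ?_, ?_, ?_⟩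
  · refine Continuous.if_le (by fun_prop) (by fun_prop) (by fun_prop) (by fun_prop) ?_
    intro t ht
    rw [ht]
    norm_num
    rw [hfe1 0 (by simp), hge1 0 (by simp), hf0, hg0]
  · norm_num
    rw [hfe1 1 (by simp), hf1]
  · norm_num
    rw [hge1 1 (by simp), hg1]
  · intro t ht0 ht1
    have h0 : 0 < (t : ℝ) := unitInterval.pos_iff_ne_zero.2 ht0
    have h1 : (t : ℝ) < 1 := unitInterval.lt_one_iff_ne_one.2 ht1
    simp only
    split_ifs with h2
    · rw [hfe1 _ ⟨by linarith, by linarith⟩]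
      exact hfW _ (by linarith) (by linarith)
    · push Not at h2
      rw [hge1 _ ⟨by linarith, by linarith⟩]
      exact hgW _ (by linarith) (by linarith)

end CV

end S_H12_CV_UB

section S_H12_CV_UC

/-!
UB (unlinked limit sets; (4.1) of the note).  `W` open connected subset of the disc, invariant under `act z`, `z ∈ N`.
`ray_path`: `z ∈ N`, `AR z a a'`, `x₀ ∈ W`: `W` is path connected (`IsOpen.isConnected_iff_isPathConnected`); let `γ : [0,1] → W` be a path from `x₀` to `act z x₀`.  Define `f 1 = a` and `f t = act (z^n) (γ s)` for `t = 1 - 1/(n + 1 + s)`, `0 ≤ s ≤ 1`, i.e.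
`τ = 1/(1-t) - 1`, `n = ⌊τ⌋`, `s = fract τ`.  Continuous for `t < 1` (the values at `s = 1` and the next `s = 0` agree: `act (z^n) (act z x₀) = act (z^(n+1)) x₀`); continuous at `1` by `AR.unif` (`γ` has compact image in the open disc, so at positive distance from `a'`).
`two_path`: join two such paths.
`unlinked`: `ell a a' x = Im ((x - a) conj (a' - a))`.  Suppose `a, a' ∈ lim (sub N)`, `b₀, b₀' ∈ lim (sub N)`, `b = act c b₀`, `b' = act c b₀'` and `ell a a' b * ell a a' b' < 0`.  This is an open condition, so by `TN.near` (for `F₀.sub N`) we may replace `a, a', b₀, b₀'` by attracting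
fixed points of elements of `N`.  `two_path` gives `f` from `a` to `a'` with interior in `W`, and `h` from `b₀` to `b₀'`, `act c ∘ h` from `b` to `b'` with interior in `act c '' W`.  The points `a, b, a', b'` are distinct and alternate on the circle, so `Cross.cross` (H77/ISO/Cross:
`D = closedBall 0 1`, supporting half planes `na = a`, `nb = -b` etc.; the four sign conditions say that `a, b, a', b'` is a convex quadrilateral in this orientation; otherwise exchange `b` and `b'`) gives `s, t` with `f s = act c (h t)`.  If this point is in the open disc, it is in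
`W ∩ act c '' W = ∅`; otherwise it is on the circle and `s ∈ {0,1}`, `t ∈ {0,1}`, so one of `a, a'` is one of `b, b'`, but `ell a a' b ≠ 0`: contradiction.
The sign conditions: for `a, b, a', b'` on the circle, `Im ((a - b') conj (a - b))` etc.: `a, b, a', b'` in counterclockwise order: `b` and `b'` on different sides of the line `a a'`; for three points of the circle the sign of `Im ((y - x) conj (z - x))`
determines the cyclic order; use the identity `Im ((y - x) conj (z - x)) = ± 4 sin sin sin /2` or the product formula: for unit numbers `(y - x) conj (z - x) = (y - x)(x - z)/(x z)`... A clean way: `ell a a' b * ell a a' b' < 0` means that the chords `[a, a']` and `[b, b']` meet in an interior point, and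
convexity of the disc gives the four signs: with `o` the intersection point, `a = o + α e`, `a' = o - α' e`, `b = o + β e'`, `b' = o - β' e'`, all `α, α', β, β' > 0`, and `σ = Im (e conj e') ≠ 0`; each of the four expressions is a positive combination of `σ` (or of `-σ`):
`Im ((a - b') conj (a - b)) = Im ((α e + β' e') conj (α e - β e')) = - α β Im (e conj e') + α β' Im (e' conj e) = - α (β + β') σ`, and the same sign for the others.
`same_side`: `a₁, a₂, a₃` distinct points of `lim (sub N)`, `c ∉ N`.  For `x` on the circle, not one of the `a_i`, `x` is on the side opposite to the third point for exactly one of the three lines (it is not in the open triangle; see TN/RG).  `lim (sub N)` is perfect and infinite, so choose `b₁ ∈ act c '' lim`,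
`b₁ ∉ {a_i}`, say `ell a₁ a₂ b₁ * ell a₁ a₂ a₃ < 0`.  Let `S = {x | ‖x‖ = 1, ell a₁ a₂ x * ell a₁ a₂ a₃ < 0}`, an open arc (the circle intersected with an open half plane `Re (x conj n) > k`, `‖n‖ = 1`: the image of the interval `|φ| < arccos k` under `φ ↦ n e^(iφ)`), preconnected, not containing the `a_i`.  By `unlinked` all `b ∈ act c '' lim`, `b ∉ {a₁, a₂, a₃}`, satisfy `ell a₁ a₂ b * ell a₁ a₂ b₁ ≥ 0`, and `ell a₁ a₂ b ≠ 0`, so `b ∈ S`.
As `act c '' lim` is perfect, every point of it is a limit of such `b`.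
(This file: `unlinked`.)
-/

namespace CV

open Metric Set Filter Topology Function DS TN

theorem UC_ofI {x y z : ℂ} (hx : ‖x‖ = 1) (hy : ‖y‖ = 1) (hz : ‖z‖ = 1) :
    ((((y - x) * (starRingEnd ℂ) (z - x)).im : ℝ) : ℂ) * (2 * Complex.I) =
      (y - x) * (x - z) * (y - z) / (x * y * z) := by
  have hx0 : x ≠ 0 := norm_ne_zero_iff.1 (by rw [hx]; exact one_ne_zero)
  have hy0 : y ≠ 0 := norm_ne_zero_iff.1 (by rw [hy]; exact one_ne_zero)
  have hz0 : z ≠ 0 := norm_ne_zero_iff.1 (by rw [hz]; exact one_ne_zero)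
  have cx : (starRingEnd ℂ) x = x⁻¹ := (Complex.inv_eq_conj hx).symm
  have cy : (starRingEnd ℂ) y = y⁻¹ := (Complex.inv_eq_conj hy).symm
  have cz : (starRingEnd ℂ) z = z⁻¹ := (Complex.inv_eq_conj hz).symm
  have h := Complex.sub_conj ((y - x) * (starRingEnd ℂ) (z - x))
  have h2 : ((((y - x) * (starRingEnd ℂ) (z - x)).im : ℝ) : ℂ) * (2 * Complex.I) =
      (2 * ((y - x) * (starRingEnd ℂ) (z - x)).im : ℝ) * Complex.I := by
    push_cast; ring
  rw [h2, ← h]
  rw [map_mul, Complex.conj_conj, map_sub, map_sub, cx, cy, cz]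
  field_simp
  ring

theorem UC_ell (a a' x : ℂ) : ell a a' x = ((x - a) * (starRingEnd ℂ) (a' - a)).im := rfl

/-- the product formula -/
theorem UC_prod {a a' b d : ℂ} (ha : ‖a‖ = 1) (ha' : ‖a'‖ = 1) (hb : ‖b‖ = 1) (hd : ‖d‖ = 1) :
    ell a b d * ell a' d b * ‖a - a'‖ ^ 2 = - (ell a a' d * ell a a' b) * ‖d - b‖ ^ 2 := by
  have ha0 : a ≠ 0 := norm_ne_zero_iff.1 (by rw [ha]; exact one_ne_zero)
  have ha0' : a' ≠ 0 := norm_ne_zero_iff.1 (by rw [ha']; exact one_ne_zero)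
  have hb0 : b ≠ 0 := norm_ne_zero_iff.1 (by rw [hb]; exact one_ne_zero)
  have hd0 : d ≠ 0 := norm_ne_zero_iff.1 (by rw [hd]; exact one_ne_zero)
  have hsq : ∀ {x y : ℂ}, ‖x‖ = 1 → ‖y‖ = 1 → ((‖x - y‖ ^ 2 : ℝ) : ℂ) = - (x - y) ^ 2 / (x * y) := by
    intro x y hx hy
    have hx0 : x ≠ 0 := norm_ne_zero_iff.1 (by rw [hx]; exact one_ne_zero)
    have hy0 : y ≠ 0 := norm_ne_zero_iff.1 (by rw [hy]; exact one_ne_zero)
    rw [← Complex.normSq_eq_norm_sq, ← Complex.mul_conj, map_sub,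
      ← Complex.inv_eq_conj hx, ← Complex.inv_eq_conj hy]
    field_simp
    ring
  have e1 := UC_ofI ha hd hb
  have e2 := UC_ofI ha' hb hd
  have e3 := UC_ofI ha hd ha'
  have e4 := UC_ofI ha hb ha'
  rw [← UC_ell] at e1 e2 e3 e4
  have key : ((ell a b d * ell a' d b * ‖a - a'‖ ^ 2 : ℝ) : ℂ) * (2 * Complex.I) ^ 2 =
      ((- (ell a a' d * ell a a' b) * ‖d - b‖ ^ 2 : ℝ) : ℂ) * (2 * Complex.I) ^ 2 := by
    have l1 : ((ell a b d * ell a' d b * ‖a - a'‖ ^ 2 : ℝ) : ℂ) * (2 * Complex.I) ^ 2 =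
        (((ell a b d : ℝ) : ℂ) * (2 * Complex.I)) * (((ell a' d b : ℝ) : ℂ) * (2 * Complex.I)) *
          ((‖a - a'‖ ^ 2 : ℝ) : ℂ) := by push_cast; ring
    have l2 : ((- (ell a a' d * ell a a' b) * ‖d - b‖ ^ 2 : ℝ) : ℂ) * (2 * Complex.I) ^ 2 =
        - ((((ell a a' d : ℝ) : ℂ) * (2 * Complex.I)) * (((ell a a' b : ℝ) : ℂ) * (2 * Complex.I)) *
          ((‖d - b‖ ^ 2 : ℝ) : ℂ)) := by push_cast; ring
    rw [l1, l2, e1, e2, e3, e4, hsq ha ha', hsq hd hb]
    field_simp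
    ring
  have h2I : (2 * Complex.I) ^ 2 ≠ 0 := by
    apply pow_ne_zero
    exact mul_ne_zero two_ne_zero Complex.I_ne_zero
  exact_mod_cast mul_right_cancel₀ h2I key

theorem UC_cross0 {a a' b d : ℂ} (ha : ‖a‖ = 1) (ha' : ‖a'‖ = 1) (hb : ‖b‖ = 1) (hd : ‖d‖ = 1)
    {f g : unitInterval → ℂ} (hf : Continuous f) (hg : Continuous g)
    (hfD : ∀ s, f s ∈ closedBall (0 : ℂ) 1) (hgD : ∀ s, g s ∈ closedBall (0 : ℂ) 1)
    (f0 : f 0 = a) (f1 : f 1 = a') (g0 : g 0 = b) (g1 : g 1 = d)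
    (h1 : 0 < ell a a' d) (h2 : ell a a' b < 0) : ∃ s t, f s = g t := by
  have hne : b ≠ d := by rintro rfl; linarith
  have hne' : a ≠ a' := by rintro rfl; simp [ell] at h1
  have hp := UC_prod ha ha' hb hd
  have hpos : 0 < ell a b d * ell a' d b := by
    have q1 : 0 < ‖a - a'‖ ^ 2 := by
      have := norm_pos_iff.2 (sub_ne_zero.2 hne'); positivity
    have q2 : 0 < ‖d - b‖ ^ 2 := by
      have := norm_pos_iff.2 (sub_ne_zero.2 hne.symm); positivity
    have q3 : 0 < - (ell a a' d * ell a a' b) := by nlinarith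
    have q4 : 0 < ell a b d * ell a' d b * ‖a - a'‖ ^ 2 := by rw [hp]; positivity
    exact pos_of_mul_pos_left q4 q1.le
  have hsum : ell a b d + ell a' d b = ell a a' d - ell a a' b := by
    simp only [ell, Complex.mul_im, Complex.conj_re, Complex.conj_im, Complex.sub_re,
      Complex.sub_im, map_sub]
    ring
  have hs : 0 < ell a b d ∧ 0 < ell a' d b := by
    rcases lt_or_ge 0 (ell a b d) with h | h
    · exact ⟨h, (mul_pos_iff_of_pos_left h).1 hpos⟩
    · exfalso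
      have : ell a' d b < 0 := by
        by_contra hcon
        push Not at hcon
        have := mul_nonpos_of_nonpos_of_nonneg h hcon
        linarith
      linarith
  have supp : ∀ {x : ℂ}, ‖x‖ = 1 → ∀ y ∈ closedBall (0 : ℂ) 1, 0 ≤ ((x - y) / x).re ∧
      0 ≤ ((y - x) / (-x)).re := by
    intro x hx y hy
    have hx0 : x ≠ 0 := norm_ne_zero_iff.1 (by rw [hx]; exact one_ne_zero)
    have e1 : (x - y) / x = 1 - y / x := by field_simp
    have e2 : (y - x) / (-x) = 1 - y / x := by field_simp; ring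
    have e3 : (y / x).re ≤ 1 := by
      refine (Complex.re_le_norm _).trans ?_
      rw [norm_div, hx, div_one]
      exact mem_closedBall_zero_iff.1 hy
    rw [e1, e2]
    simp only [Complex.sub_re, Complex.one_re]
    constructor <;> linarith
  have nz : ∀ {x : ℂ}, ‖x‖ = 1 → x ≠ 0 := fun {x} hx =>
    norm_ne_zero_iff.1 (by rw [hx]; exact one_ne_zero)
  refine Pool.Agent.H77.ISO.cross (na := a) (nb := -b) (nc := a') (nd := -d) hf hg hfD hgD f0 f1 g0 g1
    (nz ha) (neg_ne_zero.2 (nz hb)) (nz ha') (neg_ne_zero.2 (nz hd))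
    (fun y hy => (supp ha y hy).1) (fun y hy => (supp hb y hy).2)
    (fun y hy => (supp ha' y hy).1) (fun y hy => (supp hd y hy).2) ?_ ?_ ?_ ?_
  · have : ((a - d) * (starRingEnd ℂ) (a - b)).im = ell a b d := by
      simp only [ell, Complex.mul_im, Complex.conj_re, Complex.conj_im, Complex.sub_re,
        Complex.sub_im, map_sub]
      ring
    rw [this]; exact hs.1
  · have : ((a' - d) * (starRingEnd ℂ) (a - d)).im = ell a a' d := by
      simp only [ell, Complex.mul_im, Complex.conj_re, Complex.conj_im, Complex.sub_re,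
        Complex.sub_im, map_sub]
      ring
    rw [this]; exact h1
  · have : ((a' - b) * (starRingEnd ℂ) (a' - d)).im = ell a' d b := by
      simp only [ell, Complex.mul_im, Complex.conj_re, Complex.conj_im, Complex.sub_re,
        Complex.sub_im, map_sub]
      ring
    rw [this]; exact hs.2
  · have : ((a - b) * (starRingEnd ℂ) (a' - b)).im = - ell a a' b := by
      simp only [ell, Complex.mul_im, Complex.conj_re, Complex.conj_im, Complex.sub_re,
        Complex.sub_im, map_sub]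
      ring
    rw [this]; linarith

theorem UC_cross {a a' b d : ℂ} (ha : ‖a‖ = 1) (ha' : ‖a'‖ = 1) (hb : ‖b‖ = 1) (hd : ‖d‖ = 1)
    {f g : unitInterval → ℂ} (hf : Continuous f) (hg : Continuous g)
    (hfD : ∀ s, f s ∈ closedBall (0 : ℂ) 1) (hgD : ∀ s, g s ∈ closedBall (0 : ℂ) 1)
    (f0 : f 0 = a) (f1 : f 1 = a') (g0 : g 0 = b) (g1 : g 1 = d)
    (h : ell a a' b * ell a a' d < 0) : ∃ s t, f s = g t := by
  rcases mul_neg_iff.1 h with ⟨h1, h2⟩ | ⟨h1, h2⟩
  · obtain ⟨s, t, hst⟩ := UC_cross0 ha ha' hd hb hf (hg.comp unitInterval.continuous_symm)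
      hfD (fun s => hgD _) f0 f1 (by simp [g1]) (by simp [g0]) h1 h2
    exact ⟨s, _, hst⟩
  · exact UC_cross0 ha ha' hb hd hf hg hfD hgD f0 f1 g0 g1 h2 h1

variable {Γ : Type} [Group Γ] {F₀ : Fuchs Γ} {N : Subgroup Γ} {W : Set ℂ}

theorem UC_seq (F : Fuchs Γ) (hN : F.Nonel) {ξ : ℂ} (hξ : ξ ∈ F.lim) :
    ∃ (g : ℕ → Γ) (p q : ℕ → ℂ), (∀ n, F.AR (g n) (p n) (q n)) ∧ Tendsto p atTop (𝓝 ξ) := by
  have key : ∀ n : ℕ, ∃ g p q, F.AR g p q ∧ dist p ξ < 1 / ((n : ℝ) + 1) := fun n => by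
    obtain ⟨g, p, q, h, hp, -⟩ := near F hN hξ (ε := 1 / ((n : ℝ) + 1)) (by positivity)
    exact ⟨g, p, q, h, hp⟩
  choose g p q h hp using key
  refine ⟨g, p, q, h, ?_⟩
  rw [tendsto_iff_dist_tendsto_zero]
  exact squeeze_zero (fun n => dist_nonneg) (fun n => (hp n).le)
    tendsto_one_div_add_atTop_nhds_zero_nat

theorem unlinked (hW : IsOpen W) (hWc : IsConnected W) (hWb : W ⊆ ball 0 1)
    (hinv : ∀ z ∈ N, F₀.act z '' W = W) (hN : (F₀.sub N).Nonel) {c : Γ}
    (hc : Disjoint (F₀.act c '' W) W) {a a' b b' : ℂ} (ha : a ∈ (F₀.sub N).lim)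
    (ha' : a' ∈ (F₀.sub N).lim) (hb : b ∈ (F₀.sub N).lim) (hb' : b' ∈ (F₀.sub N).lim) :
    0 ≤ ell a a' (F₀.act c b) * ell a a' (F₀.act c b') := by
  by_contra hcon
  push Not at hcon
  obtain ⟨g1, p1, q1, h1, t1⟩ := UC_seq (F₀.sub N) hN ha
  obtain ⟨g2, p2, q2, h2, t2⟩ := UC_seq (F₀.sub N) hN ha'
  obtain ⟨g3, p3, q3, h3, t3⟩ := UC_seq (F₀.sub N) hN hb
  obtain ⟨g4, p4, q4, h4, t4⟩ := UC_seq (F₀.sub N) hN hb'
  have hact : ∀ (p : ℕ → ℂ) (x : ℂ), (∀ n, ‖p n‖ = 1) → ‖x‖ = 1 → Tendsto p atTop (𝓝 x) →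
      Tendsto (fun n => F₀.act c (p n)) atTop (𝓝 (F₀.act c x)) := by
    intro p x hp hx ht
    refine ((act_cont F₀ c) x (mem_closedBall_zero_iff.2 hx.le)).tendsto.comp ?_
    rw [tendsto_nhdsWithin_iff]
    exact ⟨ht, Eventually.of_forall fun n => mem_closedBall_zero_iff.2 (hp n).le⟩
  have t3' := hact p3 b (fun n => (h3 n).np) (lim_sphere _ hb) t3
  have t4' := hact p4 b' (fun n => (h4 n).np) (lim_sphere _ hb') t4
  have hell : ∀ (x : ℕ → ℂ) (y : ℂ), Tendsto x atTop (𝓝 y) →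
      Tendsto (fun n => ell (p1 n) (p2 n) (x n)) atTop (𝓝 (ell a a' y)) := by
    intro x y hx
    unfold ell
    have e1 : Tendsto (fun n => (x n - p1 n) * (starRingEnd ℂ) (p2 n - p1 n)) atTop
        (𝓝 ((y - a) * (starRingEnd ℂ) (a' - a))) :=
      (hx.sub t1).mul ((Complex.continuous_conj.tendsto _).comp (t2.sub t1))
    exact (Complex.continuous_im.tendsto _).comp e1
  have hT := (hell _ _ t3').mul (hell _ _ t4')
  obtain ⟨n, hn⟩ := (hT.eventually (gt_mem_nhds hcon)).exists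
  have A1 := (AR_sub F₀ N (g1 n) _ _).1 (h1 n)
  have A2 := (AR_sub F₀ N (g2 n) _ _).1 (h2 n)
  have A3 := (AR_sub F₀ N (g3 n) _ _).1 (h3 n)
  have A4 := (AR_sub F₀ N (g4 n) _ _).1 (h4 n)
  obtain ⟨f, hf, f0, f1, hfW⟩ := two_path hW hWc hWb (hinv _ (g1 n).2) (hinv _ (g2 n).2) A1 A2
  obtain ⟨h, hh, e0, e1, hhW⟩ := two_path hW hWc hWb (hinv _ (g3 n).2) (hinv _ (g4 n).2) A3 A4
  have hD : ∀ (k : unitInterval → ℂ) (x y : ℂ), ‖x‖ = 1 → ‖y‖ = 1 → k 0 = x → k 1 = y →
      (∀ t, t ≠ 0 → t ≠ 1 → k t ∈ W) → ∀ s, k s ∈ closedBall (0 : ℂ) 1 := by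
    intro k x y hx hy k0 k1 hk s
    by_cases s0 : s = 0
    · rw [s0, k0]; exact mem_closedBall_zero_iff.2 hx.le
    by_cases s1 : s = 1
    · rw [s1, k1]; exact mem_closedBall_zero_iff.2 hy.le
    exact ball_subset_closedBall (hWb (hk s s0 s1))
  have hfD := hD f _ _ A1.np A2.np f0 f1 hfW
  have hhD := hD h _ _ A3.np A4.np e0 e1 hhW
  have hg : Continuous (fun t => F₀.act c (h t)) := (act_cont F₀ c).comp_continuous hh hhD
  have hgD : ∀ s, F₀.act c (h s) ∈ closedBall (0 : ℂ) 1 := fun s =>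
    mem_closedBall_zero_iff.2 (act_le F₀ c (mem_closedBall_zero_iff.1 (hhD s)))
  obtain ⟨s, t, hst⟩ := UC_cross A1.np A2.np (act_eq F₀ c A3.np) (act_eq F₀ c A4.np) hf hg hfD hgD
    f0 f1 (by simp only [e0]) (by simp only [e1]) hn
  by_cases ht : t ≠ 0 ∧ t ≠ 1
  · have hlt : ‖F₀.act c (h t)‖ < 1 := act_lt F₀ c (mem_ball_zero_iff.1 (hWb (hhW t ht.1 ht.2)))
    rw [← hst] at hlt
    have s0 : s ≠ 0 := by
      rintro rfl; rw [f0, A1.np] at hlt; exact lt_irrefl _ hlt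
    have s1 : s ≠ 1 := by
      rintro rfl; rw [f1, A2.np] at hlt; exact lt_irrefl _ hlt
    exact Set.disjoint_left.1 hc ⟨h t, hhW t ht.1 ht.2, rfl⟩ (hst ▸ hfW s s0 s1)
  · have h01 : F₀.act c (h t) = F₀.act c (p3 n) ∨ F₀.act c (h t) = F₀.act c (p4 n) := by
      by_cases t0 : t = 0
      · left; rw [t0, e0]
      · right
        have : t = 1 := by
          by_contra t1'
          exact ht ⟨t0, t1'⟩
        rw [this, e1]
    have hn1 : ‖F₀.act c (h t)‖ = 1 := by
      rcases h01 with e | e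
      · rw [e]; exact act_eq F₀ c A3.np
      · rw [e]; exact act_eq F₀ c A4.np
    have hs : f s = p1 n ∨ f s = p2 n := by
      by_cases s0 : s = 0
      · left; rw [s0, f0]
      by_cases s1 : s = 1
      · right; rw [s1, f1]
      exfalso
      have := mem_ball_zero_iff.1 (hWb (hfW s s0 s1))
      rw [hst, hn1] at this
      exact lt_irrefl _ this
    have hz : ell (p1 n) (p2 n) (f s) = 0 := by
      rcases hs with e | e
      · rw [e]; simp [ell]
      · rw [e, ell, Complex.mul_conj]; exact Complex.ofReal_im _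
    rw [hst] at hz
    rcases h01 with e | e
    · rw [e] at hz; rw [hz, zero_mul] at hn; exact lt_irrefl _ hn
    · rw [e] at hz; rw [hz, mul_zero] at hn; exact lt_irrefl _ hn

end CV

end S_H12_CV_UC

section S_H12_CV_UE

/-!
UB (unlinked limit sets; (4.1) of the note).  `W` open connected subset of the disc, invariant under `act z`, `z ∈ N`.
`ray_path`: `z ∈ N`, `AR z a a'`, `x₀ ∈ W`: `W` is path connected (`IsOpen.isConnected_iff_isPathConnected`); let `γ : [0,1] → W` be a path from `x₀` to `act z x₀`.  Define `f 1 = a` and `f t = act (z^n) (γ s)` for `t = 1 - 1/(n + 1 + s)`, `0 ≤ s ≤ 1`, i.e.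
`τ = 1/(1-t) - 1`, `n = ⌊τ⌋`, `s = fract τ`.  Continuous for `t < 1` (the values at `s = 1` and the next `s = 0` agree: `act (z^n) (act z x₀) = act (z^(n+1)) x₀`); continuous at `1` by `AR.unif` (`γ` has compact image in the open disc, so at positive distance from `a'`).
`two_path`: join two such paths.
`unlinked`: `ell a a' x = Im ((x - a) conj (a' - a))`.  Suppose `a, a' ∈ lim (sub N)`, `b₀, b₀' ∈ lim (sub N)`, `b = act c b₀`, `b' = act c b₀'` and `ell a a' b * ell a a' b' < 0`.  This is an open condition, so by `TN.near` (for `F₀.sub N`) we may replace `a, a', b₀, b₀'` by attracting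
fixed points of elements of `N`.  `two_path` gives `f` from `a` to `a'` with interior in `W`, and `h` from `b₀` to `b₀'`, `act c ∘ h` from `b` to `b'` with interior in `act c '' W`.  The points `a, b, a', b'` are distinct and alternate on the circle, so `Cross.cross` (H77/ISO/Cross:
`D = closedBall 0 1`, supporting half planes `na = a`, `nb = -b` etc.; the four sign conditions say that `a, b, a', b'` is a convex quadrilateral in this orientation; otherwise exchange `b` and `b'`) gives `s, t` with `f s = act c (h t)`.  If this point is in the open disc, it is in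
`W ∩ act c '' W = ∅`; otherwise it is on the circle and `s ∈ {0,1}`, `t ∈ {0,1}`, so one of `a, a'` is one of `b, b'`, but `ell a a' b ≠ 0`: contradiction.
The sign conditions: for `a, b, a', b'` on the circle, `Im ((a - b') conj (a - b))` etc.: `a, b, a', b'` in counterclockwise order: `b` and `b'` on different sides of the line `a a'`; for three points of the circle the sign of `Im ((y - x) conj (z - x))`
determines the cyclic order; use the identity `Im ((y - x) conj (z - x)) = ± 4 sin sin sin /2` or the product formula: for unit numbers `(y - x) conj (z - x) = (y - x)(x - z)/(x z)`... A clean way: `ell a a' b * ell a a' b' < 0` means that the chords `[a, a']` and `[b, b']` meet in an interior point, and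
convexity of the disc gives the four signs: with `o` the intersection point, `a = o + α e`, `a' = o - α' e`, `b = o + β e'`, `b' = o - β' e'`, all `α, α', β, β' > 0`, and `σ = Im (e conj e') ≠ 0`; each of the four expressions is a positive combination of `σ` (or of `-σ`):
`Im ((a - b') conj (a - b)) = Im ((α e + β' e') conj (α e - β e')) = - α β Im (e conj e') + α β' Im (e' conj e) = - α (β + β') σ`, and the same sign for the others.
`same_side`: `a₁, a₂, a₃` distinct points of `lim (sub N)`, `c ∉ N`.  For `x` on the circle, not one of the `a_i`, `x` is on the side opposite to the third point for exactly one of the three lines (it is not in the open triangle; see TN/RG).  `lim (sub N)` is perfect and infinite, so choose `b₁ ∈ act c '' lim`,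
`b₁ ∉ {a_i}`, say `ell a₁ a₂ b₁ * ell a₁ a₂ a₃ < 0`.  Let `S = {x | ‖x‖ = 1, ell a₁ a₂ x * ell a₁ a₂ a₃ < 0}`, an open arc (the circle intersected with an open half plane `Re (x conj n) > k`, `‖n‖ = 1`: the image of the interval `|φ| < arccos k` under `φ ↦ n e^(iφ)`), preconnected, not containing the `a_i`.  By `unlinked` all `b ∈ act c '' lim`, `b ∉ {a₁, a₂, a₃}`, satisfy `ell a₁ a₂ b * ell a₁ a₂ b₁ ≥ 0`, and `ell a₁ a₂ b ≠ 0`, so `b ∈ S`.
As `act c '' lim` is perfect, every point of it is a limit of such `b`.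
(This file: `same_side`.)
-/

namespace CV

open Metric Set Filter Topology Function DS TN

theorem UE_ell (a a' x : ℂ) : ell a a' x = RG_ell a a' x := rfl

/-- a point of the circle is not in the open triangle -/
theorem UE_tri {a b c s : ℂ} (ha' : ‖a‖ = 1) (hb' : ‖b‖ = 1) (hc' : ‖c‖ = 1) (hs' : ‖s‖ = 1)
    (hab : a ≠ b) (hbc : b ≠ c) (hca : c ≠ a) (hsa : s ≠ a) (hsb : s ≠ b) (hsc : s ≠ c) :
    ell b c s * ell b c a < 0 ∨ ell c a s * ell c a b < 0 ∨ ell a b s * ell a b c < 0 := by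
  by_contra hcon
  push Not at hcon
  obtain ⟨k1, k2, k3⟩ := hcon
  simp only [UE_ell] at k1 k2 k3
  have e1 : RG_ell c a b = RG_ell b c a := by rw [RG_ell_eq, RG_ell_eq]; ring
  have e2 : RG_ell a b c = RG_ell b c a := by rw [RG_ell_eq, RG_ell_eq]; ring
  rw [e1] at k2
  rw [e2] at k3
  have ha0 : RG_ell b c a ≠ 0 := by
    intro h
    rcases RG_zero hb' hc' ha' hbc h with h | h
    · exact hab h
    · exact hca h.symm
  have n1 : RG_ell b c s ≠ 0 := by
    intro h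
    rcases RG_zero hb' hc' hs' hbc h with h | h
    · exact hsb h
    · exact hsc h
  have k1' : 0 < RG_ell b c s * RG_ell b c a := lt_of_le_of_ne k1 (mul_ne_zero n1 ha0).symm
  have hs := RG_nsq hs'
  have ha := RG_nsq ha'
  have hb := RG_nsq hb'
  have hc := RG_nsq hc'
  have da := RG_dpos hsa.symm
  have db := RG_dpos hsb.symm
  have dc := RG_dpos hsc.symm
  have fa : 0 < 1 - (a.re * s.re + a.im * s.im) := by nlinarith
  have fb : 0 < 1 - (b.re * s.re + b.im * s.im) := by nlinarith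
  have fc : 0 < 1 - (c.re * s.re + c.im * s.im) := by nlinarith
  have key : (RG_ell b c s * RG_ell b c a) * (1 - (a.re * s.re + a.im * s.im))
      + (RG_ell c a s * RG_ell b c a) * (1 - (b.re * s.re + b.im * s.im))
      + (RG_ell a b s * RG_ell b c a) * (1 - (c.re * s.re + c.im * s.im)) = 0 := by
    have e4 : RG_ell b c s + RG_ell c a s + RG_ell a b s = RG_ell b c a := by
      simp only [RG_ell_eq]; ring
    have e5 : RG_ell b c s * a.re + RG_ell c a s * b.re + RG_ell a b s * c.re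
        = RG_ell b c a * s.re := by
      simp only [RG_ell_eq]; ring
    have e6 : RG_ell b c s * a.im + RG_ell c a s * b.im + RG_ell a b s * c.im
        = RG_ell b c a * s.im := by
      simp only [RG_ell_eq]; ring
    linear_combination RG_ell b c a * e4 - RG_ell b c a * s.re * e5 - RG_ell b c a * s.im * e6
      - RG_ell b c a ^ 2 * hs
  have p1 := mul_pos k1' fa
  have p2 := mul_nonneg k2 fb.le
  have p3 := mul_nonneg k3 fc.le
  linarith

/-- the part of the circle in an open half plane is preconnected -/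
theorem UE_arc (w : ℂ) (κ : ℝ) :
    IsPreconnected {x : ℂ | ‖x‖ = 1 ∧ κ < (x * (starRingEnd ℂ) w).re} := by
  set α : ℝ := Complex.arg w with hα
  have hw : (‖w‖ : ℂ) * Complex.exp (α * Complex.I) = w := Complex.norm_mul_exp_arg_mul_I w
  have hval : ∀ t : ℝ, (Complex.exp (((α + t : ℝ) : ℂ) * Complex.I) * (starRingEnd ℂ) w).re =
      ‖w‖ * Real.cos t := by
    intro t
    have h1 : (starRingEnd ℂ) w = (‖w‖ : ℂ) * Complex.exp (-(α * Complex.I)) := by
      conv_lhs => rw [← hw]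
      rw [map_mul, Complex.conj_ofReal, ← Complex.exp_conj, map_mul, Complex.conj_ofReal,
        Complex.conj_I, mul_neg]
    have h2 : Complex.exp (((α + t : ℝ) : ℂ) * Complex.I) * (starRingEnd ℂ) w =
        (‖w‖ : ℂ) * Complex.exp ((t : ℂ) * Complex.I) := by
      rw [h1]
      rw [mul_left_comm, ← Complex.exp_add]
      congr 2
      push_cast
      ring
    rw [h2, Complex.re_ofReal_mul, Complex.exp_ofReal_mul_I_re]
  have himg : {x : ℂ | ‖x‖ = 1 ∧ κ < (x * (starRingEnd ℂ) w).re} =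
      (fun t : ℝ => Complex.exp (((α + t : ℝ) : ℂ) * Complex.I)) ''
        {t : ℝ | t ∈ Icc (-Real.pi) Real.pi ∧ κ < ‖w‖ * Real.cos t} := by
    ext x
    constructor
    · rintro ⟨hx1, hx2⟩
      set y : ℂ := x * Complex.exp (-(α * Complex.I)) with hy
      have hyn : ‖y‖ = 1 := by
        rw [hy, norm_mul, hx1, one_mul, Complex.norm_exp]
        simp
      have h3 : Complex.exp ((Complex.arg y : ℂ) * Complex.I) = y := by
        have := Complex.norm_mul_exp_arg_mul_I y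
        rwa [hyn, Complex.ofReal_one, one_mul] at this
      have h4 : Complex.exp (((α + Complex.arg y : ℝ) : ℂ) * Complex.I) = x := by
        push_cast
        rw [add_mul, Complex.exp_add, h3, hy, mul_left_comm, ← Complex.exp_add,
          add_neg_cancel, Complex.exp_zero, mul_one]
      refine ⟨Complex.arg y, ⟨⟨(Complex.neg_pi_lt_arg y).le, Complex.arg_le_pi y⟩, ?_⟩, h4⟩
      rw [← hval, h4]
      exact hx2
    · rintro ⟨t, ⟨_, ht2⟩, rfl⟩
      refine ⟨Complex.norm_exp_ofReal_mul_I _, ?_⟩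
      rw [hval]
      exact ht2
  rw [himg]
  refine IsPreconnected.image ?_ _ (by fun_prop)
  apply Set.OrdConnected.isPreconnected
  refine ⟨?_⟩
  rintro s ⟨hs1, hs2⟩ t ⟨ht1, ht2⟩ u ⟨hu1, hu2⟩
  refine ⟨⟨hs1.1.trans hu1, hu2.trans ht1.2⟩, ?_⟩
  have hnn := norm_nonneg w
  have habs : |u| ≤ |s| ∨ |u| ≤ |t| := by
    rcases le_total 0 u with h | h
    · right
      rw [abs_of_nonneg h, abs_of_nonneg (h.trans hu2)]
      exact hu2
    · left
      rw [abs_of_nonpos h, abs_of_nonpos (hu1.trans h)]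
      linarith
  rcases habs with h | h
  · have h5 : Real.cos |s| ≤ Real.cos |u| :=
      Real.cos_le_cos_of_nonneg_of_le_pi (abs_nonneg _) (abs_le.2 hs1) h
    rw [Real.cos_abs, Real.cos_abs] at h5
    exact hs2.trans_le (mul_le_mul_of_nonneg_left h5 hnn)
  · have h5 : Real.cos |t| ≤ Real.cos |u| :=
      Real.cos_le_cos_of_nonneg_of_le_pi (abs_nonneg _) (abs_le.2 ht1) h
    rw [Real.cos_abs, Real.cos_abs] at h5
    exact ht2.trans_le (mul_le_mul_of_nonneg_left h5 hnn)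

theorem UE_arc_ell (p q : ℂ) (k : ℝ) :
    IsPreconnected {x : ℂ | ‖x‖ = 1 ∧ ell p q x * k < 0} := by
  have h := UE_arc (-(k : ℂ) * Complex.I * (q - p))
    (-k * (p.im * (q.re - p.re) - p.re * (q.im - p.im)))
  have heq : {x : ℂ | ‖x‖ = 1 ∧ ell p q x * k < 0} =
      {x : ℂ | ‖x‖ = 1 ∧ (-k * (p.im * (q.re - p.re) - p.re * (q.im - p.im))) <
        (x * (starRingEnd ℂ) (-(k : ℂ) * Complex.I * (q - p))).re} := by
    ext x
    simp only [mem_setOf_eq]
    have e1 : (x * (starRingEnd ℂ) (-(k : ℂ) * Complex.I * (q - p))).re =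
        -k * (x.im * (q.re - p.re) - x.re * (q.im - p.im)) := by
      simp only [map_mul, map_neg, map_sub, Complex.conj_ofReal, Complex.conj_I, Complex.mul_re,
        Complex.mul_im, Complex.neg_re, Complex.neg_im, Complex.sub_re, Complex.sub_im,
        Complex.conj_re, Complex.conj_im, Complex.ofReal_re, Complex.ofReal_im, Complex.I_re,
        Complex.I_im]
      ring
    have e2 : ell p q x = (x.im - p.im) * (q.re - p.re) - (x.re - p.re) * (q.im - p.im) :=
      RG_ell_eq p q x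
    rw [e1, e2]
    constructor
    · rintro ⟨h1, h2⟩
      exact ⟨h1, by linarith⟩
    · rintro ⟨h1, h2⟩
      exact ⟨h1, by linarith⟩
  rw [heq]
  exact h

variable {Γ : Type} [Group Γ] {F₀ : Fuchs Γ} {N : Subgroup Γ} {W : Set ℂ}

theorem UE_core (hW : IsOpen W) (hWc : IsConnected W) (hWb : W ⊆ ball 0 1)
    (hinv : ∀ z ∈ N, F₀.act z '' W = W) (hN : (F₀.sub N).Nonel) {c : Γ}
    (hc : Disjoint (F₀.act c '' W) W) {p q r : ℂ} (hp : p ∈ (F₀.sub N).lim)
    (hq : q ∈ (F₀.sub N).lim) (hpq : p ≠ q) {b₁ : ℂ}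
    (hb₁ : b₁ ∈ (F₀.sub N).lim) (hneg : ell p q (F₀.act c b₁) * ell p q r < 0) :
    ∃ S : Set ℂ, IsPreconnected S ∧ S ⊆ sphere 0 1 ∧ p ∉ S ∧ q ∉ S ∧ r ∉ S ∧
      ∀ b ∈ (F₀.sub N).lim, F₀.act c b ∈ closure S := by
  have np := lim_sphere (F₀.sub N) hp
  have nq := lim_sphere (F₀.sub N) hq
  set S : Set ℂ := {x : ℂ | ‖x‖ = 1 ∧ ell p q x * ell p q r < 0} with hS
  have hin : ∀ b ∈ (F₀.sub N).lim, F₀.act c b ≠ p → F₀.act c b ≠ q → F₀.act c b ∈ S := by
    intro b hb hbp hbq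
    have nb := lim_sphere (F₀.sub N) hb
    have nab := act_eq F₀ c nb
    refine ⟨nab, ?_⟩
    have h1 := unlinked hW hWc hWb hinv hN hc hp hq hb hb₁
    have h2 : ell p q (F₀.act c b) ≠ 0 := by
      intro h
      rcases RG_zero np nq nab hpq h with h | h
      · exact hbp h
      · exact hbq h
    set A := ell p q (F₀.act c b) with hA
    set B := ell p q (F₀.act c b₁) with hB
    set k := ell p q r with hk
    have hB0 : B ≠ 0 := by
      intro h
      rw [h, zero_mul] at hneg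
      exact lt_irrefl _ hneg
    have h3 : 0 < A * B := lt_of_le_of_ne h1 (mul_ne_zero h2 hB0).symm
    have h4 : (A * k) * (B * B) < 0 := by
      have h5 : (A * B) * (B * k) < 0 := mul_neg_of_pos_of_neg h3 hneg
      have h6 : (A * k) * (B * B) = (A * B) * (B * k) := by ring
      rw [h6]
      exact h5
    by_contra hcon
    push Not at hcon
    have h7 : 0 ≤ (A * k) * (B * B) := mul_nonneg hcon (mul_self_nonneg B)
    linarith
  refine ⟨S, UE_arc_ell p q (ell p q r), fun x hx => by simpa using hx.1, ?_, ?_, ?_, ?_⟩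
  · rintro ⟨_, h⟩
    have : ell p q p = 0 := by simp [ell]
    rw [this, zero_mul] at h
    exact lt_irrefl _ h
  · rintro ⟨_, h⟩
    have : ell p q q = 0 := by
      rw [UE_ell, RG_ell_eq]
      ring
    rw [this, zero_mul] at h
    exact lt_irrefl _ h
  · rintro ⟨_, h⟩
    exact absurd (mul_self_nonneg (ell p q r)) (not_le.2 h)
  · intro b hb
    have nb := lim_sphere (F₀.sub N) hb
    have hbC : b ∈ closedBall (0:ℂ) 1 := by simp [nb]
    rw [Metric.mem_closure_iff]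
    intro ε hε
    have hpq0 : 0 < dist p q := dist_pos.2 hpq
    obtain ⟨δ, hδ, hδc⟩ := (Metric.continuousWithinAt_iff.1 (act_cont F₀ c b hbC))
      (min ε (dist p q)) (lt_min hε hpq0)
    obtain ⟨η, hη, hηb, hηd⟩ := perfect (F₀.sub N) hN hb hδ
    have nη := lim_sphere (F₀.sub N) hη
    have hηC : η ∈ closedBall (0:ℂ) 1 := by simp [nη]
    have h1 := hδc hηC hηd
    rw [lt_min_iff] at h1
    have hne : F₀.act c η ≠ F₀.act c b := fun h => hηb (act_inj F₀ c hηC hbC h)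
    by_cases hbp : F₀.act c b = p
    · refine ⟨F₀.act c η, hin η hη (fun h => hne (h.trans hbp.symm)) (fun h => ?_), ?_⟩
      · have h2 := h1.2
        rw [h, hbp, dist_comm] at h2
        exact lt_irrefl _ h2
      · rw [dist_comm]
        exact h1.1
    · by_cases hbq : F₀.act c b = q
      · refine ⟨F₀.act c η, hin η hη (fun h => ?_) (fun h => hne (h.trans hbq.symm)), ?_⟩
        · have h2 := h1.2
          rw [h, hbq] at h2
          exact lt_irrefl _ h2
        · rw [dist_comm]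
          exact h1.1
      · exact ⟨F₀.act c b, hin b hb hbp hbq, by rwa [dist_self]⟩

theorem same_side (hW : IsOpen W) (hWc : IsConnected W) (hWb : W ⊆ ball 0 1)
    (hinv : ∀ z ∈ N, F₀.act z '' W = W) (hN : (F₀.sub N).Nonel) {c : Γ}
    (hc : Disjoint (F₀.act c '' W) W) {a : Fin 3 → ℂ} (ha : ∀ i, a i ∈ (F₀.sub N).lim)
    (hd : ∀ i j, i ≠ j → a i ≠ a j) :
    ∃ S : Set ℂ, IsPreconnected S ∧ S ⊆ sphere 0 1 ∧ (∀ i, a i ∉ S) ∧
      ∀ b ∈ (F₀.sub N).lim, F₀.act c b ∈ closure S := by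
  have na : ∀ i, ‖a i‖ = 1 := fun i => lim_sphere (F₀.sub N) (ha i)
  -- a point of the image of the limit set different from the `a i`
  have hex : ∃ b₁ ∈ (F₀.sub N).lim, ∀ i, F₀.act c b₁ ≠ a i := by
    by_contra hcon
    push Not at hcon
    have hfin : (F₀.act c '' (F₀.sub N).lim).Finite := by
      refine (Set.finite_range a).subset ?_
      rintro _ ⟨b, hb, rfl⟩
      obtain ⟨i, hi⟩ := hcon b hb
      exact ⟨i, hi.symm⟩
    have hinj : InjOn (F₀.act c) (F₀.sub N).lim := (act_inj F₀ c).mono fun x hx => by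
      simp [lim_sphere (F₀.sub N) hx]
    exact lim_infinite (F₀.sub N) hN (Set.Finite.of_finite_image hfin hinj)
  obtain ⟨b₁, hb₁, hb₁a⟩ := hex
  have nb₁ := act_eq F₀ c (lim_sphere (F₀.sub N) hb₁)
  rcases UE_tri (na 0) (na 1) (na 2) nb₁ (hd 0 1 (by decide)) (hd 1 2 (by decide))
    (hd 2 0 (by decide)) (hb₁a 0) (hb₁a 1) (hb₁a 2) with h | h | h
  · obtain ⟨S, h1, h2, h3, h4, h5, h6⟩ :=
      UE_core hW hWc hWb hinv hN hc (ha 1) (ha 2) (hd 1 2 (by decide)) hb₁ h
    refine ⟨S, h1, h2, fun i => ?_, h6⟩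
    fin_cases i
    · exact h5
    · exact h3
    · exact h4
  · obtain ⟨S, h1, h2, h3, h4, h5, h6⟩ :=
      UE_core hW hWc hWb hinv hN hc (ha 2) (ha 0) (hd 2 0 (by decide)) hb₁ h
    refine ⟨S, h1, h2, fun i => ?_, h6⟩
    fin_cases i
    · exact h4
    · exact h5
    · exact h3
  · obtain ⟨S, h1, h2, h3, h4, h5, h6⟩ :=
      UE_core hW hWc hWb hinv hN hc (ha 0) (ha 1) (hd 0 1 (by decide)) hb₁ h
    refine ⟨S, h1, h2, fun i => ?_, h6⟩
    fin_cases i
    · exact h3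
    · exact h4
    · exact h5


end CV

end S_H12_CV_UE

section S_H12_CV_UF

/-!
UF (quasiconvexity; (4.2) of the note): the subgroup `N` has (UC) on the disc `X`.
Suppose not: `TN.not_UC (F₀.sub N)` gives `ξ ∈ Λ = (F₀.sub N).lim` with `r ≤ ‖act z (r ξ)‖` for all `z ∈ N`, `0 ≤ r < 1`.  `Λ` is perfect: choose `ζ k ∈ Λ`, `ζ k → ξ`, `ζ k ≠ ξ`, and `ω ∈ Λ`, `ω ≠ ξ`, `ω ≠ ζ k` for all `k`.  `F₀.TC` (`tc_of_uc`; `Λ ⊆ F₀.lim`) gives `ε > 0` and `d k` such that
`act (d k)` makes `(ξ, ζ k, ω)` `ε`-separated.  `b k = F₀.b (d k)`.  By `act_dist`: `ε ≤ (1-‖b‖²) ‖ξ - ζ‖/(‖1 - conj b ξ‖ ‖1 - conj b ζ‖)` and the same for `(ξ, ω)`, `(ζ, ω)`.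
(1) `‖1 - conj b ξ‖ ‖1 - conj b ζ k‖ ≤ (1-‖b‖²) ‖ξ - ζ k‖/ε → 0`, and `‖1 - conj b x‖ ≥ 1 - ‖b‖` gives `‖b k‖ → 1`; every limit point `β` of `b k` has `‖β‖ = 1` and `‖1 - conj β ξ‖² = 0`, so `b k → ξ`.  Then `‖1 - conj (b k) ω‖ ≥ ‖ξ - ω‖/2` for large `k` and the `(ξ, ω)` inequality gives
`‖1 - conj (b k) ξ‖ ≤ C (1 - ‖b k‖²)`.
(2) put `r k = ‖b k‖`.  `pd (r k ξ) (b k) ≤ ρ' < 1`: `1 - pd² = (1 - r²)²/‖1 - conj b (r ξ)‖²` and `‖1 - conj b (r ξ)‖ ≤ ‖1 - conj b ξ‖ + (1 - r) ≤ (C + 1)(1 - r²)`, so `1 - pd² ≥ 1/(C+1)²`.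
(3) pass to a subsequence such that for `l < k`: `r k > s (‖b l‖)`, where `s` is the bound of `norm_le_of_pd` for `‖x‖ ≤ ‖b l‖`, `pd ≤ ρ'`.  Then for `l < k`, `z = (d l)⁻¹ d k` is not in `N`: `pd (act z (r k ξ)) (b l) = pd (act (d k) (r k ξ)) 0 = pd (r k ξ) (b k) ≤ ρ'` (`b l = act (d l)⁻¹ 0`), so
`‖act z (r k ξ)‖ ≤ s (‖b l‖) < r k`, contradiction to the property of `ξ`.  So `(d j)⁻¹ d k ∉ N` for all `j ≠ k` (inverses).
(4) `TN.triples` for `u j = act (d j) (ξ, ζ j, ω)`: for `j ≠ k`, `c = (d j)⁻¹ d k`, `same_side` for `a = (ξ, ζ j, ω)` gives `S`; take `act (d j) '' S`: preconnected, `u j i ∉` it (injectivity), and `u k i = act (d j) (act c (a' i))` is in `act (d j) '' closure S ⊆ closure (act (d j) '' S)`.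
-/

namespace CV

open Metric Set Filter Topology Function DS TN

variable {Γ : Type} [Group Γ] {F₀ : Fuchs Γ} {N : Subgroup Γ} {W : Set ℂ}

theorem UF_dist (F₀ : Fuchs Γ) (d : Γ) {x y : ℂ} (hx : ‖x‖ = 1) (hy : ‖y‖ = 1) {ε : ℝ}
    (h : ε ≤ dist (F₀.act d x) (F₀.act d y)) :
    ε * (‖x - F₀.b d‖ * ‖y - F₀.b d‖) ≤ (1 - ‖F₀.b d‖ ^ 2) * dist x y := by
  rw [act_dist F₀ d hx.le hy.le, FD_den hx, FD_den hy] at h
  have hb := F₀.hb d
  have h1 : 0 < ‖x - F₀.b d‖ := by
    rw [norm_pos_iff, sub_ne_zero]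
    rintro h
    rw [← h, hx] at hb
    exact lt_irrefl _ hb
  have h2 : 0 < ‖y - F₀.b d‖ := by
    rw [norm_pos_iff, sub_ne_zero]
    rintro h
    rw [← h, hy] at hb
    exact lt_irrefl _ hb
  rwa [le_div_iff₀ (mul_pos h1 h2)] at h

theorem UF_sq (F₀ : Fuchs Γ) (d : Γ) {x y : ℂ} (hx : ‖x‖ = 1) (hy : ‖y‖ = 1) {ε : ℝ} (hε : 0 < ε)
    (h : ε ≤ dist (F₀.act d x) (F₀.act d y)) :
    ‖x - F₀.b d‖ ^ 2 ≤ (2 + 1 / ε) * dist y x := by
  have h1 := UF_dist F₀ d hx hy h
  have hb := F₀.hb d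
  have hδ : 0 ≤ dist y x := dist_nonneg
  rw [dist_comm x y] at h1
  have h2 : ‖x - F₀.b d‖ ≤ dist y x + ‖y - F₀.b d‖ := by
    rw [dist_comm y x, dist_eq_norm]
    calc ‖x - F₀.b d‖ = ‖(x - y) + (y - F₀.b d)‖ := by congr 1; ring
      _ ≤ _ := norm_add_le _ _
  have h3 : ‖x - F₀.b d‖ ≤ 2 := by
    have := norm_sub_le x (F₀.b d)
    linarith
  have h0 : 0 ≤ ‖x - F₀.b d‖ := norm_nonneg _
  have h4 : (1 - ‖F₀.b d‖ ^ 2) * dist y x ≤ dist y x := by
    nlinarith [mul_nonneg (sq_nonneg ‖F₀.b d‖) hδ]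
  have h5 : ε * (‖x - F₀.b d‖ * (‖x - F₀.b d‖ - dist y x)) ≤ dist y x := by
    refine le_trans ?_ (h1.trans h4)
    have : ‖x - F₀.b d‖ - dist y x ≤ ‖y - F₀.b d‖ := by linarith
    gcongr
  have h6 : ‖x - F₀.b d‖ * dist y x ≤ 2 * dist y x := mul_le_mul_of_nonneg_right h3 hδ
  have h7 : ε * ‖x - F₀.b d‖ ^ 2 ≤ ε * ((2 + 1 / ε) * dist y x) := by
    have e1 : ε * ((2 + 1 / ε) * dist y x) = 2 * ε * dist y x + dist y x := by
      field_simp
    rw [e1]
    nlinarith [mul_le_mul_of_nonneg_left h6 hε.le]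
  exact le_of_mul_le_mul_left h7 hε

theorem UF_lin (F₀ : Fuchs Γ) (d : Γ) {x y : ℂ} (hx : ‖x‖ = 1) (hy : ‖y‖ = 1) {ε : ℝ} (hε : 0 < ε)
    (h : ε ≤ dist (F₀.act d x) (F₀.act d y)) (h' : ‖x - F₀.b d‖ ≤ dist y x / 2) (hne : y ≠ x) :
    ‖x - F₀.b d‖ ≤ 4 / (ε * dist y x) * (1 - ‖F₀.b d‖ ^ 2) := by
  have h1 := UF_dist F₀ d hx hy h
  have hb := F₀.hb d
  have hδ : 0 < dist y x := dist_pos.2 hne
  have h2 : dist y x ≤ ‖y - F₀.b d‖ + ‖x - F₀.b d‖ := by
    rw [dist_eq_norm]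
    calc ‖y - x‖ = ‖(y - F₀.b d) - (x - F₀.b d)‖ := by congr 1; ring
      _ ≤ _ := norm_sub_le _ _
  have h3 : dist y x / 2 ≤ ‖y - F₀.b d‖ := by linarith
  have h4 : dist x y ≤ 2 := by
    have := norm_sub_le x y
    rw [dist_eq_norm]
    linarith
  have hb2 : 0 ≤ 1 - ‖F₀.b d‖ ^ 2 := by nlinarith [norm_nonneg (F₀.b d)]
  have h5 : ε * (‖x - F₀.b d‖ * (dist y x / 2)) ≤ (1 - ‖F₀.b d‖ ^ 2) * 2 := by
    calc _ ≤ ε * (‖x - F₀.b d‖ * ‖y - F₀.b d‖) := by gcongr
      _ ≤ _ := h1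
      _ ≤ _ := by gcongr
  rw [div_mul_eq_mul_div, le_div_iff₀ (mul_pos hε hδ)]
  linarith

theorem UF_pd {b ξ : ℂ} (hb : ‖b‖ < 1) (hξ : ‖ξ‖ = 1) {C : ℝ} (hC : 0 ≤ C)
    (h : ‖ξ - b‖ ≤ C * (1 - ‖b‖ ^ 2)) : pd b (‖b‖ * ξ) ≤ Real.sqrt (1 - 1 / (C + 1) ^ 2) := by
  have hx : ‖((‖b‖ : ℝ) : ℂ) * ξ‖ = ‖b‖ := by
    rw [norm_mul, hξ, mul_one, Complex.norm_real, norm_norm]
  have h1 := mob_norm (u := 1) (b := b) (x := ((‖b‖ : ℝ) : ℂ) * ξ) norm_one hb (by rw [hx]; exact hb.le)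
  rw [← MB_pd_eq, hx] at h1
  have h0 := norm_nonneg b
  have hd : ‖1 - (starRingEnd ℂ) b * (((‖b‖ : ℝ) : ℂ) * ξ)‖ ≤ (C + 1) * (1 - ‖b‖ ^ 2) := by
    have e1 : 1 - (starRingEnd ℂ) b * (((‖b‖ : ℝ) : ℂ) * ξ) = (1 - (starRingEnd ℂ) b * ξ) +
        (starRingEnd ℂ) b * (((1 - ‖b‖ : ℝ) : ℂ) * ξ) := by
      push_cast
      ring
    rw [e1]
    refine (norm_add_le _ _).trans ?_
    rw [FD_den hξ, norm_mul, RCLike.norm_conj, norm_mul, hξ, mul_one, Complex.norm_real,
      Real.norm_of_nonneg (by linarith)]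
    nlinarith
  have hdp : 0 < ‖1 - (starRingEnd ℂ) b * (((‖b‖ : ℝ) : ℂ) * ξ)‖ :=
    norm_pos_iff.2 (den_ne hb (by rw [hx]; exact hb.le))
  have hb2 : 0 < 1 - ‖b‖ ^ 2 := by nlinarith
  have h2 : 1 / (C + 1) ^ 2 ≤ 1 - pd b (((‖b‖ : ℝ) : ℂ) * ξ) ^ 2 := by
    rw [h1, div_le_div_iff₀ (by positivity) (by positivity), one_mul]
    have := pow_le_pow_left₀ hdp.le hd 2
    calc _ ≤ ((C + 1) * (1 - ‖b‖ ^ 2)) ^ 2 := this
      _ = _ := by ring
  apply Real.le_sqrt_of_sq_le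
  linarith

theorem sub_uc (hU : F₀.UC) (hW : IsOpen W) (hWc : IsConnected W) (hWb : W ⊆ ball 0 1)
    (hinv : ∀ z ∈ N, F₀.act z '' W = W) (hN : (F₀.sub N).Nonel)
    (hc : ∀ c, c ∉ N → Disjoint (F₀.act c '' W) W) : (F₀.sub N).UC := by
  by_contra hnot
  obtain ⟨ξ, hξ, hmin⟩ := not_UC (F₀.sub N) hnot
  have hξ1 : ‖ξ‖ = 1 := hξ.1
  obtain ⟨ω, hω, hωξ, -⟩ := perfect (F₀.sub N) hN hξ (ε := 3) (by norm_num)
  have hω1 : ‖ω‖ = 1 := hω.1
  have hD : 0 < dist ω ξ := dist_pos.2 hωξ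
  have hz : ∀ k : ℕ, ∃ ζ ∈ (F₀.sub N).lim, ζ ≠ ξ ∧ ζ ≠ ω ∧ dist ζ ξ < 1 / ((k : ℝ) + 1) := by
    intro k
    obtain ⟨ζ, h1, h2, h3⟩ := perfect (F₀.sub N) hN hξ (ε := min (1 / ((k : ℝ) + 1)) (dist ω ξ))
      (lt_min (by positivity) hD)
    refine ⟨ζ, h1, h2, ?_, h3.trans_le (min_le_left _ _)⟩
    rintro rfl
    exact absurd (h3.trans_le (min_le_right _ _)) (lt_irrefl _)
  choose ζ hζ hζξ hζω hζd using hz
  obtain ⟨ε, hε, HT⟩ := tc_of_uc F₀ hU
  have hd := fun k => HT ξ (sub_lim F₀ N hξ) (ζ k) (sub_lim F₀ N (hζ k)) ω (sub_lim F₀ N hω)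
    (Ne.symm (hζξ k)) (hζω k) (Ne.symm hωξ)
  choose d hd1 hd2 hd3 using hd
  -- convergence of the points `b (d k)`
  have hδ : Tendsto (fun k => dist (ζ k) ξ) atTop (𝓝 0) :=
    squeeze_zero (fun _ => dist_nonneg) (fun k => (hζd k).le) tendsto_one_div_add_atTop_nhds_zero_nat
  have hsq : Tendsto (fun k => ‖ξ - F₀.b (d k)‖ ^ 2) atTop (𝓝 0) := by
    have h1 := hδ.const_mul (2 + 1 / ε)
    rw [mul_zero] at h1
    exact squeeze_zero (fun _ => by positivity)
      (fun k => UF_sq F₀ (d k) hξ1 (hζ k).1 hε (hd1 k)) h1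
  have hX : Tendsto (fun k => ‖ξ - F₀.b (d k)‖) atTop (𝓝 0) := by
    have h1 := (Real.continuous_sqrt.tendsto 0).comp hsq
    rw [Real.sqrt_zero] at h1
    refine h1.congr fun k => ?_
    simp only [Function.comp, Real.sqrt_sq (norm_nonneg _)]
  have hbn : Tendsto (fun k => ‖F₀.b (d k)‖) atTop (𝓝 1) := by
    have h1 : Tendsto (fun k => F₀.b (d k)) atTop (𝓝 ξ) := by
      rw [tendsto_iff_dist_tendsto_zero]
      refine hX.congr fun k => ?_
      rw [dist_comm, dist_eq_norm]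
    have h2 := h1.norm
    rwa [hξ1] at h2
  set C : ℝ := 4 / (ε * dist ω ξ) with hCdef
  have hC : 0 ≤ C := by positivity
  set ρ : ℝ := Real.sqrt (1 - 1 / (C + 1) ^ 2) with hρdef
  have hρ : ρ < 1 := by
    rw [hρdef, Real.sqrt_lt' one_pos]
    have : 0 < 1 / (C + 1) ^ 2 := by positivity
    linarith
  have hpdev : ∀ᶠ k in atTop, pd (F₀.b (d k)) (‖F₀.b (d k)‖ * ξ) ≤ ρ := by
    have h1 : ∀ᶠ k in atTop, ‖ξ - F₀.b (d k)‖ < dist ω ξ / 2 :=
      hX.eventually (gt_mem_nhds (by positivity))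
    filter_upwards [h1] with k hk
    exact UF_pd (F₀.hb _) hξ1 hC (UF_lin F₀ (d k) hξ1 hω1 hε (hd3 k) hk.le hωξ)
  have hs : ∀ l : ℕ, ∃ s : ℝ, s < 1 ∧ ∀ x y : ℂ, ‖x‖ ≤ ‖F₀.b (d l)‖ → ‖y‖ < 1 → pd x y ≤ ρ →
      ‖y‖ ≤ s := fun l => norm_le_of_pd (F₀.hb (d l)) hρ
  choose s hs1 hs2 using hs
  obtain ⟨f, hf1, hf2⟩ := exists_seq_of_forall_finset_exists
    (fun k => pd (F₀.b (d k)) (‖F₀.b (d k)‖ * ξ) ≤ ρ) (fun l k => s l < ‖F₀.b (d k)‖) (by
      intro t _
      have h1 : ∀ᶠ k in atTop, ∀ x ∈ t, s x < ‖F₀.b (d k)‖ := by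
        rw [Filter.eventually_all_finset]
        intro x _
        exact hbn.eventually (lt_mem_nhds (hs1 x))
      obtain ⟨k, hk⟩ := (hpdev.and h1).exists
      exact ⟨k, hk.1, hk.2⟩)
  have hlt : ∀ l k, l < k → (d (f l))⁻¹ * d (f k) ∉ N := by
    intro l k hlk hmem
    set b := F₀.b (d (f k)) with hb
    have hb1 : ‖b‖ < 1 := F₀.hb _
    have hx1 : ‖((‖b‖ : ℝ) : ℂ) * ξ‖ = ‖b‖ := by
      rw [norm_mul, hξ1, mul_one, Complex.norm_real, norm_norm]
    have hx : ‖((‖b‖ : ℝ) : ℂ) * ξ‖ < 1 := by rw [hx1]; exact hb1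
    have h1 := hmin ⟨_, hmem⟩ ‖b‖ (norm_nonneg _) hb1
    rw [sub_act] at h1
    simp only at h1
    have h2 : pd (F₀.b (d (f l))) (F₀.act ((d (f l))⁻¹ * d (f k)) (‖b‖ * ξ)) ≤ ρ := by
      rw [b_eq F₀ (d (f l)), act_mul F₀ _ _ hx.le, act_pd F₀ _ (by simp) (act_lt F₀ _ hx)]
      have e0 : F₀.act (d (f k)) b = 0 := by
        rw [hb, b_eq F₀, act_act_inv F₀ _ (by simp)]
      rw [← e0, act_pd F₀ _ hb1.le hx]
      exact hf1 k
    have h3 := hs2 (f l) _ _ le_rfl (act_lt F₀ _ hx) h2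
    exact absurd (h1.trans h3) (not_le.2 (hf2 l k hlk))
  have hne : ∀ j k, j ≠ k → (d (f j))⁻¹ * d (f k) ∉ N := by
    intro j k hjk
    rcases lt_or_gt_of_ne hjk with h | h
    · exact hlt j k h
    · intro hmem
      apply hlt k j h
      have := N.inv_mem hmem
      rwa [mul_inv_rev, inv_inv] at this
  let a : ℕ → Fin 3 → ℂ := fun j => ![ξ, ζ (f j), ω]
  have ha : ∀ j i, a j i ∈ (F₀.sub N).lim := by
    intro j i
    fin_cases i
    · exact hξ
    · exact hζ _
    · exact hω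
  have had : ∀ j i i', i ≠ i' → a j i ≠ a j i' := by
    intro j i i' hi
    fin_cases i <;> fin_cases i'
    · exact absurd rfl hi
    · exact Ne.symm (hζξ _)
    · exact Ne.symm hωξ
    · exact hζξ _
    · exact absurd rfl hi
    · exact hζω _
    · exact hωξ
    · exact Ne.symm (hζω _)
    · exact absurd rfl hi
  refine triples hε (u := fun j i => F₀.act (d (f j)) (a j i)) ?_ ?_ ?_
  · intro j i
    exact act_eq F₀ _ (ha j i).1
  · intro j i i' hi
    fin_cases i <;> fin_cases i'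
    · exact absurd rfl hi
    · exact hd1 _
    · exact hd3 _
    · show ε ≤ dist (F₀.act (d (f j)) (ζ (f j))) (F₀.act (d (f j)) ξ)
      rw [dist_comm]
      exact hd1 _
    · exact absurd rfl hi
    · exact hd2 _
    · show ε ≤ dist (F₀.act (d (f j)) ω) (F₀.act (d (f j)) ξ)
      rw [dist_comm]
      exact hd3 _
    · show ε ≤ dist (F₀.act (d (f j)) ω) (F₀.act (d (f j)) (ζ (f j)))
      rw [dist_comm]
      exact hd2 _
    · exact absurd rfl hi
  · intro j k hjk
    obtain ⟨S, hS1, hS2, hS3, hS4⟩ := same_side hW hWc hWb hinv hN (hc _ (hne j k hjk)) (ha j) (had j)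
    have hSb : closure S ⊆ closedBall 0 1 :=
      closure_minimal (hS2.trans sphere_subset_closedBall) isClosed_closedBall
    have hSb' : S ⊆ closedBall 0 1 := subset_closure.trans hSb
    refine ⟨F₀.act (d (f j)) '' S, hS1.image _ ((act_cont F₀ _).mono hSb'), ?_, ?_, ?_⟩
    · rintro _ ⟨x, hx, rfl⟩
      have := hS2 hx
      rw [mem_sphere_zero_iff_norm] at this ⊢
      exact act_eq F₀ _ this
    · rintro i ⟨x, hx, hxe⟩
      have hi : a j i ∈ closedBall (0:ℂ) 1 := by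
        rw [mem_closedBall_zero_iff]
        exact (ha j i).1.le
      have := act_inj F₀ _ (hSb' hx) hi hxe
      rw [this] at hx
      exact hS3 i hx
    · intro i
      have h1 := hS4 _ (ha k i)
      have h2 : F₀.act (d (f k)) (a k i) =
          F₀.act (d (f j)) (F₀.act ((d (f j))⁻¹ * d (f k)) (a k i)) := by
        rw [← act_mul F₀ _ _ (ha k i).1.le, mul_inv_cancel_left]
      show F₀.act (d (f k)) (a k i) ∈ _
      rw [h2]
      exact ((act_cont F₀ (d (f j))).mono hSb).image_closure ⟨_, h1, rfl⟩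

end CV

end S_H12_CV_UF

section S_H12_CV_UG

/-!
UG (chains; (4.3) of the note).  `F : Fuchs N` acts on the disc `D'`, `F₁ : Fuchs N` on the disc `X`, `ψ : D' → X` holomorphic and equivariant; `F₁.UC`.  Claim: `F.UC`.
`chain`: there are `C` and for each `c : N` a chain `c_0 = 1, .., c_n = c` in `N` with `hd (F.act c_i 0) (F.act c_(i+1) 0) ≤ C` and `hd (F.act c_i 0) (F.act c_j 0) ≥ |i - j| - C`.
Proof.  `seg_uc F₁` gives `ρ₁`, `R₁` (`hd_of_norm`).  Let `y = F₁.act c 0`, `ℓ = hd y 0`, `n = ⌈ℓ⌉`, and `x_i` the point of the segment `[0, y]` with `hd x_i 0 = min i ℓ` (`i ≤ n`; `x_i = t_i y`); `hd x_i x_j = |min i ℓ - min j ℓ|` (`hd_radial`).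
Choose `c_i` with `hd (F₁.act c_i⁻¹ x_i) 0 ≤ R₁`, i.e. `hd x_i (F₁.act c_i 0) ≤ R₁`, and `c_0 = 1`, `c_n = c` (`x_0 = 0`, `x_n = y`).  So `hd (F₁.act c_i 0) (F₁.act c_(i+1) 0) ≤ 2 R₁ + 1`, i.e. `hd (F₁.act (c_i⁻¹ c_(i+1)) 0) 0 ≤ 2 R₁ + 1`: `c_i⁻¹ c_(i+1)` is in a finite set `B` (`hd_ball`, `F₁.fin`),
independent of `c`; `C' = max over B of hd (F.act b 0) 0`.  Lower bound: `hd (F.act c_i 0) (F.act c_j 0) ≥ hd (ψ ..) (ψ ..) = hd (F₁.act c_i p₀) (F₁.act c_j p₀)` (`hd_schwarz`, `p₀ = ψ 0`) `≥ hd (F₁.act c_i 0) (F₁.act c_j 0) - 2 hd p₀ 0 ≥ |i - j| - 1 - 2 R₁ - 2 hd p₀ 0`.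
`uc_cover`: `morse` for `q_i = F.act c_i 0` gives `R`: for every `c` and `t ∈ [0,1]` there is `i` with `hd (t F.act c 0) (F.act c_i 0) ≤ R`, i.e. `‖F.act c_i⁻¹ (t F.act c 0)‖ ≤ ρ` (`hd_ball`).  Let `ξ ∈ F.lim`, `0 ≤ r < 1`: `ξ = lim F.act (g k) 0`, `‖F.act (g k) 0‖ → 1`; for large `k`, `r ≤ ‖F.act (g k) 0‖` and
`y_k = r F.act (g k) 0 / ‖F.act (g k) 0‖` is of the form `t F.act (g k) 0`; so `‖F.act (h k) y_k‖ ≤ ρ` for some `h k`; `‖y_k‖ = r` so `h k` is in a finite set (`TN.proper`); a constant subsequence `h`, `y_k → r ξ`: `‖F.act h (r ξ)‖ ≤ ρ`.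
`nonel_uc`: `exists_fuchs0`, `sub_nonel`, `sub_uc` with `W = fil X U` (`fil_open`, `fil_conn`, `fil_inv`, `fil_disj`), `uc_cover` with `F₁ = F₀.sub N`.
-/

namespace CV

open Metric Set Filter Topology Function DS TN

section
variable {N : Type} [Group N] (F : Fuchs N)

theorem UG_hd_act (g : N) {x y : ℂ} (hx : ‖x‖ < 1) (hy : ‖y‖ < 1) :
    hd (F.act g x) (F.act g y) = hd x y :=
  hd_mob (F.hu g) (F.hb g) hx hy

theorem UG_zero (g : N) : ‖F.act g 0‖ < 1 := act_lt F g (by simp)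

/-- moving the first point to the origin -/
theorem UG_move (g : N) {x : ℂ} (hx : ‖x‖ < 1) :
    hd (F.act g⁻¹ x) 0 = hd x (F.act g 0) := by
  have h1 := UG_hd_act F g (x := F.act g⁻¹ x) (y := 0) (act_lt F _ hx) (by simp)
  rw [act_act_inv F g hx.le] at h1
  exact h1.symm

theorem UG_move2 (g h : N) : hd (F.act g 0) (F.act h 0) = hd (F.act (g⁻¹ * h) 0) 0 := by
  rw [act_mul F _ _ (by simp), UG_move F g (UG_zero F h), hd_symm]

/-- the elements that move the origin by a bounded amount form a finite set -/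
theorem UG_fin (R : ℝ) : {g : N | hd (F.act g 0) 0 ≤ R}.Finite := by
  obtain ⟨ρ, hρ, H⟩ := hd_ball R
  refine (F.fin ρ hρ).subset fun g hg => ?_
  have h1 := H (F.act g 0) (UG_zero F g) hg
  rwa [norm_act_zero] at h1

end

/-- `log ((1 + r) / (1 - r))` -/
noncomputable def UG_L (r : ℝ) : ℝ := Real.log ((1 + r) / (1 - r))

/-- its inverse -/
noncomputable def UG_r (s : ℝ) : ℝ := (Real.exp s - 1) / (Real.exp s + 1)

theorem UG_r_lt (s : ℝ) : UG_r s < 1 := by
  unfold UG_r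
  rw [div_lt_one (by positivity)]
  linarith

theorem UG_r_nonneg {s : ℝ} (hs : 0 ≤ s) : 0 ≤ UG_r s := by
  unfold UG_r
  have := Real.one_le_exp hs
  exact div_nonneg (by linarith) (by positivity)

theorem UG_r_mono {s t : ℝ} (h : s ≤ t) : UG_r s ≤ UG_r t := by
  unfold UG_r
  rw [div_le_div_iff₀ (by positivity) (by positivity)]
  have := Real.exp_le_exp.2 h
  nlinarith [Real.exp_pos s, Real.exp_pos t]

theorem UG_L_r (s : ℝ) : UG_L (UG_r s) = s := by
  unfold UG_L UG_r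
  have h0 : Real.exp s + 1 ≠ 0 := by positivity
  have h1 : (1 + (Real.exp s - 1) / (Real.exp s + 1)) / (1 - (Real.exp s - 1) / (Real.exp s + 1)) =
      Real.exp s := by
    field_simp
    ring
  rw [h1, Real.log_exp]

theorem UG_r_L {r : ℝ} (h0 : 0 ≤ r) (h1 : r < 1) : UG_r (UG_L r) = r := by
  unfold UG_L UG_r
  have h2 : (0:ℝ) < (1 + r) / (1 - r) := div_pos (by linarith) (by linarith)
  rw [Real.exp_log h2]
  have h3 : (1 - r) ≠ 0 := by linarith
  field_simp
  ring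

theorem UG_L_nonneg {r : ℝ} (h0 : 0 ≤ r) (h1 : r < 1) : 0 ≤ UG_L r := by
  unfold UG_L
  apply Real.log_nonneg
  rw [le_div_iff₀ (by linarith)]
  linarith

/-- the chain -/
theorem UG_chain {N : Type} [Group N] (F₁ F : Fuchs N) (hU : F₁.UC) {ψ : ℂ → ℂ}
    (hψ : DifferentiableOn ℂ ψ (ball 0 1)) (m : MapsTo ψ (ball 0 1) (ball 0 1))
    (he : ∀ c, ∀ z ∈ ball (0:ℂ) 1, ψ (F.act c z) = F₁.act c (ψ z)) :
    ∃ C : ℝ, ∀ c : N, ∃ (n : ℕ) (q : ℕ → N), q 0 = 1 ∧ q n = c ∧
      (∀ i < n, hd (F.act (q i) 0) (F.act (q (i + 1)) 0) ≤ C) ∧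
      (∀ i ≤ n, ∀ j ≤ n, i ≤ j → (j - i : ℝ) - C ≤ hd (F.act (q i) 0) (F.act (q j) 0)) := by
  obtain ⟨ρ₁, hρ₁, H₁⟩ := seg_uc F₁ hU
  obtain ⟨R₀, hR₀⟩ := hd_of_norm hρ₁
  obtain ⟨R₁, hR₁0, hR₁⟩ : ∃ R₁ : ℝ, 0 ≤ R₁ ∧ ∀ x : ℂ, ‖x‖ ≤ ρ₁ → hd x 0 ≤ R₁ :=
    ⟨max R₀ 0, le_max_right _ _, fun x hx => (hR₀ x hx).trans (le_max_left _ _)⟩
  -- the finite set and the bound
  have hfin := UG_fin F₁ (2 * R₁ + 1)
  obtain ⟨C', hC'⟩ : ∃ C' : ℝ, ∀ g : N, hd (F₁.act g 0) 0 ≤ 2 * R₁ + 1 → hd (F.act g 0) 0 ≤ C' := by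
    obtain ⟨C', hC'⟩ := (hfin.image fun g => hd (F.act g 0) 0).bddAbove
    exact ⟨C', fun g hg => hC' ⟨g, hg, rfl⟩⟩
  have hp₀ : ‖ψ 0‖ < 1 := by
    have := m (x := 0) (by simp)
    simpa using this
  have hp : 0 ≤ hd (ψ 0) 0 := hd_nonneg hp₀ (by simp)
  refine ⟨max C' (1 + 2 * R₁ + 2 * hd (ψ 0) 0), fun c => ?_⟩
  have hy1 : ‖F₁.act c 0‖ < 1 := UG_zero F₁ c
  by_cases hy0 : F₁.act c 0 = 0
  · -- trivial chain
    have hc : c = 1 := by
      by_contra hc
      exact F₁.free c hc 0 (by simp) hy0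
    refine ⟨0, fun _ => 1, rfl, hc.symm, fun i hi => absurd hi (Nat.not_lt_zero i), ?_⟩
    intro i hi j hj _
    have hi0 : i = 0 := Nat.le_zero.1 hi
    have hj0 : j = 0 := Nat.le_zero.1 hj
    subst hi0 hj0
    rw [hd_self]
    have h2 : (1 + 2 * R₁ + 2 * hd (ψ 0) 0) ≤ max C' (1 + 2 * R₁ + 2 * hd (ψ 0) 0) := le_max_right _ _
    have h3 : ((0:ℕ) - (0:ℕ) : ℝ) = 0 := by simp
    rw [h3]
    linarith
  set y := F₁.act c 0 with hy
  have hyn : 0 < ‖y‖ := norm_pos_iff.2 hy0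
  set ℓ : ℝ := UG_L ‖y‖ with hℓ
  have hℓ0 : 0 ≤ ℓ := UG_L_nonneg hyn.le hy1
  have hrℓ : UG_r ℓ = ‖y‖ := UG_r_L hyn.le hy1
  have hℓpos : 0 < ℓ := by
    rcases hℓ0.lt_or_eq with h | h
    · exact h
    · exfalso
      rw [← h] at hrℓ
      have : UG_r 0 = 0 := by unfold UG_r; simp
      rw [this] at hrℓ
      linarith
  set n : ℕ := ⌈ℓ⌉₊ with hn
  have hn1 : ℓ ≤ n := Nat.le_ceil ℓ
  have hn2 : (n : ℝ) < ℓ + 1 := Nat.ceil_lt_add_one hℓ0
  have hnpos : 0 < n := Nat.ceil_pos.2 hℓpos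
  -- the points of the segment
  set ζ : ℂ := y / (‖y‖ : ℂ) with hζ
  have hyc : (‖y‖ : ℂ) ≠ 0 := by exact_mod_cast hyn.ne'
  have hζ1 : ‖ζ‖ = 1 := by
    rw [hζ, norm_div, Complex.norm_real, norm_norm, div_self hyn.ne']
  set r : ℕ → ℝ := fun i => UG_r (min (i : ℝ) ℓ) with hr
  have hr0 : ∀ i, 0 ≤ r i := fun i => UG_r_nonneg (le_min (Nat.cast_nonneg _) hℓ0)
  have hr1 : ∀ i, r i < 1 := fun i => UG_r_lt _
  have hry : ∀ i, r i ≤ ‖y‖ := fun i => by
    rw [← hrℓ]
    exact UG_r_mono (min_le_right _ _)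
  set x : ℕ → ℂ := fun i => (r i : ℂ) * ζ with hx
  have hxn : ∀ i, ‖x i‖ < 1 := fun i => by
    rw [hx]
    simp only
    rw [norm_mul, hζ1, mul_one, Complex.norm_real, Real.norm_of_nonneg (hr0 i)]
    exact hr1 i
  have hdx : ∀ i j : ℕ, i ≤ j → hd (x i) (x j) = min (j : ℝ) ℓ - min (i : ℝ) ℓ := by
    intro i j hij
    have hmono : r i ≤ r j := UG_r_mono (min_le_min_right _ (Nat.cast_le.2 hij))
    have h1 := hd_radial hζ1 (hr0 i) hmono (hr1 j)
    have h2 : Real.log ((1 + r j) / (1 - r j)) = min (j : ℝ) ℓ := UG_L_r _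
    have h3 : Real.log ((1 + r i) / (1 - r i)) = min (i : ℝ) ℓ := UG_L_r _
    rw [h2, h3] at h1
    exact h1
  have hseg : ∀ i, ∃ t : ℝ, 0 ≤ t ∧ t ≤ 1 ∧ x i = t * F₁.act c 0 := by
    intro i
    refine ⟨r i / ‖y‖, div_nonneg (hr0 i) hyn.le, (div_le_one hyn).2 (hry i), ?_⟩
    change (r i : ℂ) * ζ = ((r i / ‖y‖ : ℝ) : ℂ) * y
    rw [hζ]
    push_cast
    ring
  -- the group elements
  have hch : ∀ i, ∃ g : N, hd (x i) (F₁.act g 0) ≤ R₁ := by
    intro i
    obtain ⟨t, ht0, ht1, hxt⟩ := hseg i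
    obtain ⟨g, hg⟩ := H₁ c t ht0 ht1
    refine ⟨g⁻¹, ?_⟩
    have h1 := UG_move F₁ g⁻¹ (hxn i)
    rw [inv_inv] at h1
    rw [← h1, hxt]
    exact hR₁ _ hg
  choose g₀ hg₀ using hch
  set q : ℕ → N := fun i => if i = 0 then 1 else if i = n then c else g₀ i with hq
  have hq0 : q 0 = 1 := by simp [hq]
  have hqn : q n = c := by
    simp [hq, hnpos.ne']
  have hqx : ∀ i, hd (x i) (F₁.act (q i) 0) ≤ R₁ := by
    intro i
    by_cases h0 : i = 0
    · subst h0
      rw [hq0]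
      have h1 : x 0 = 0 := by
        have : r 0 = 0 := by
          simp only [hr, Nat.cast_zero, min_eq_left hℓ0]
          unfold UG_r
          simp
        simp [hx, this]
      rw [h1, act_one F₁ (by simp), hd_self]
      exact hR₁0
    · by_cases h1 : i = n
      · rw [h1, hqn]
        have h2 : x n = F₁.act c 0 := by
          have h3 : r n = ‖y‖ := by
            simp only [hr, min_eq_right hn1]
            exact hrℓ
          change (r n : ℂ) * ζ = y
          rw [h3, hζ, mul_div_cancel₀ _ hyc]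
        rw [h2, hd_self]
        exact hR₁0
      · have : q i = g₀ i := by simp [hq, h0, h1]
        rw [this]
        exact hg₀ i
  have hF₁q : ∀ i, ‖F₁.act (q i) 0‖ < 1 := fun i => UG_zero F₁ _
  refine ⟨n, q, hq0, hqn, ?_, ?_⟩
  · intro i hi
    refine le_trans ?_ (le_max_left _ _)
    rw [UG_move2]
    apply hC'
    rw [← UG_move2]
    have h1 := hd_tri (hF₁q i) (hxn i) (hF₁q (i + 1))
    have h2 := hd_tri (hxn i) (hxn (i + 1)) (hF₁q (i + 1))
    have h3 := hdx i (i + 1) (Nat.le_succ i)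
    have h4 : min ((i + 1 : ℕ) : ℝ) ℓ - min (i : ℝ) ℓ ≤ 1 := by
      push_cast
      have : min ((i : ℝ) + 1) ℓ ≤ min (i : ℝ) ℓ + 1 := by
        rw [← min_add_add_right]
        exact min_le_min_left _ (by linarith)
      linarith
    have h5 := hqx i
    have h6 := hqx (i + 1)
    rw [hd_symm] at h5
    linarith
  · intro i hi j hj hij
    have h1 : hd (ψ (F.act (q i) 0)) (ψ (F.act (q j) 0)) ≤ hd (F.act (q i) 0) (F.act (q j) 0) :=
      hd_schwarz hψ m (by simpa using UG_zero F (q i)) (by simpa using UG_zero F (q j))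
    rw [he _ 0 (by simp), he _ 0 (by simp)] at h1
    have hpi : ‖F₁.act (q i) (ψ 0)‖ < 1 := act_lt F₁ _ hp₀
    have hpj : ‖F₁.act (q j) (ψ 0)‖ < 1 := act_lt F₁ _ hp₀
    -- compare with the orbit of `0`
    have h2 : hd (F₁.act (q i) 0) (F₁.act (q j) 0) ≤
        hd (F₁.act (q i) (ψ 0)) (F₁.act (q j) (ψ 0)) + 2 * hd (ψ 0) 0 := by
      have e1 := hd_tri (hF₁q i) hpi (hF₁q j)
      have e2 := hd_tri hpi hpj (hF₁q j)
      have e3 : hd (F₁.act (q i) 0) (F₁.act (q i) (ψ 0)) = hd (ψ 0) 0 := by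
        rw [UG_hd_act F₁ _ (by simp) hp₀, hd_symm]
      have e4 : hd (F₁.act (q j) (ψ 0)) (F₁.act (q j) 0) = hd (ψ 0) 0 :=
        UG_hd_act F₁ _ hp₀ (by simp)
      linarith
    have h3 : hd (x i) (x j) ≤ hd (F₁.act (q i) 0) (F₁.act (q j) 0) + 2 * R₁ := by
      have e1 := hd_tri (hxn i) (hF₁q i) (hxn j)
      have e2 := hd_tri (hF₁q i) (hF₁q j) (hxn j)
      have e3 := hqx i
      have e4 := hqx j
      rw [hd_symm] at e4
      linarith
    have h4 : (j - i : ℝ) - 1 ≤ hd (x i) (x j) := by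
      rw [hdx i j hij]
      have e1 : (j : ℝ) - 1 ≤ min (j : ℝ) ℓ := by
        refine le_min (by linarith) ?_
        have : (j : ℝ) ≤ n := Nat.cast_le.2 hj
        linarith
      have e2 : min (i : ℝ) ℓ ≤ i := min_le_left _ _
      linarith
    have h5 : (1 + 2 * R₁ + 2 * hd (ψ 0) 0) ≤ max C' (1 + 2 * R₁ + 2 * hd (ψ 0) 0) :=
      le_max_right _ _
    linarith

theorem uc_cover {N : Type} [Group N] (F₁ F : Fuchs N) (hU : F₁.UC) {ψ : ℂ → ℂ}
    (hψ : DifferentiableOn ℂ ψ (ball 0 1)) (m : MapsTo ψ (ball 0 1) (ball 0 1))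
    (he : ∀ c, ∀ z ∈ ball (0:ℂ) 1, ψ (F.act c z) = F₁.act c (ψ z)) : F.UC := by
  obtain ⟨C, hC⟩ := UG_chain F₁ F hU hψ m he
  obtain ⟨R, hR⟩ := morse C
  obtain ⟨ρ, hρ, H⟩ := hd_ball R
  -- segments to orbit points
  have hseg : ∀ c : N, ∀ t : ℝ, 0 ≤ t → t ≤ 1 → ∃ g, ‖F.act g (t * F.act c 0)‖ ≤ ρ := by
    intro c t ht0 ht1
    obtain ⟨n, q, hq0, hqn, h1, h2⟩ := hC c
    obtain ⟨i, hi, h3⟩ := hR n (fun i => F.act (q i) 0)
      (by simp only [hq0]; exact act_one F (by simp)) (fun i _ => UG_zero F _) h1 h2 t ht0 ht1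
    simp only [hqn] at h3
    refine ⟨(q i)⁻¹, ?_⟩
    have hx : ‖(t : ℂ) * F.act c 0‖ < 1 := by
      rw [norm_mul, Complex.norm_real, Real.norm_of_nonneg ht0]
      calc t * ‖F.act c 0‖ ≤ 1 * ‖F.act c 0‖ := mul_le_mul_of_nonneg_right ht1 (norm_nonneg _)
        _ < 1 := by rw [one_mul]; exact UG_zero F c
    apply H _ (act_lt F _ hx)
    rw [UG_move F _ hx]
    exact h3
  refine ⟨ρ, hρ, fun ξ hξ r hr0 hr1 => ?_⟩
  -- the finite set
  have hr' : max r ρ < 1 := max_lt hr1 hρ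
  have hfin := proper F hr'
  set T := {g : N | ∃ x : ℂ, ‖x‖ ≤ max r ρ ∧ ‖F.act g x‖ ≤ max r ρ} with hT
  set K : Set ℂ := ⋃ g ∈ T, {x | x ∈ closedBall (0:ℂ) 1 ∧ F.act g x ∈ closedBall (0:ℂ) ρ} with hK
  have hKc : IsClosed K := by
    refine hfin.isClosed_biUnion fun g _ => ?_
    exact (act_cont F g).preimage_isClosed_of_isClosed isClosed_closedBall isClosed_closedBall
  obtain ⟨hξ1, hξc⟩ := hξ
  obtain ⟨w, hw, hwlim⟩ := mem_closure_iff_seq_limit.1 hξc
  choose g hg using hw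
  have hnorm : Tendsto (fun k => ‖w k‖) atTop (𝓝 1) := by
    have := hwlim.norm
    rwa [hξ1] at this
  have hev : ∀ᶠ k in atTop, max r (1 / 2) < ‖w k‖ :=
    hnorm.eventually_const_lt (max_lt hr1 (by norm_num))
  have hlim : Tendsto (fun k => ((r / ‖w k‖ : ℝ) : ℂ) * w k) atTop (𝓝 ((r : ℂ) * ξ)) := by
    have h1 : Tendsto (fun k => (r / ‖w k‖ : ℝ)) atTop (𝓝 (r / 1)) :=
      tendsto_const_nhds.div hnorm one_ne_zero
    rw [div_one] at h1
    exact ((Complex.continuous_ofReal.tendsto r).comp h1).mul hwlim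
  have hmem : ∀ᶠ k in atTop, ((r / ‖w k‖ : ℝ) : ℂ) * w k ∈ K := by
    filter_upwards [hev] with k hk
    have hk1 : r < ‖w k‖ := lt_of_le_of_lt (le_max_left _ _) hk
    have hk2 : (0:ℝ) < ‖w k‖ := lt_of_lt_of_le (by norm_num) ((le_max_right r (1/2)).trans hk.le)
    have ht0 : 0 ≤ r / ‖w k‖ := div_nonneg hr0 hk2.le
    have ht1 : r / ‖w k‖ ≤ 1 := (div_le_one hk2).2 hk1.le
    obtain ⟨h, hh⟩ := hseg (g k) (r / ‖w k‖) ht0 ht1
    have hgk : F.act (g k) 0 = w k := hg k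
    rw [hgk] at hh
    have hn : ‖((r / ‖w k‖ : ℝ) : ℂ) * w k‖ = r := by
      rw [norm_mul, Complex.norm_real, Real.norm_of_nonneg ht0, div_mul_cancel₀ _ hk2.ne']
    rw [hK]
    simp only [mem_iUnion, mem_setOf_eq, exists_prop]
    refine ⟨h, ⟨_, ?_, hh.trans (le_max_right _ _)⟩, ?_, ?_⟩
    · rw [hn]
      exact le_max_left _ _
    · rw [mem_closedBall_zero_iff, hn]
      exact hr1.le
    · rw [mem_closedBall_zero_iff]
      exact hh
  have hfinal : (r : ℂ) * ξ ∈ K := hKc.mem_of_tendsto hlim hmem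
  rw [hK] at hfinal
  simp only [mem_iUnion, mem_setOf_eq, exists_prop] at hfinal
  obtain ⟨h, -, -, hh⟩ := hfinal
  exact ⟨h, by simpa using hh⟩

end CV

end S_H12_CV_UG

section S_H12_CV_B8

/-!
B8 (uniformly conical limit set).  Proof in the header of UG (`nonel_uc`).
-/

namespace CV

open Metric Set Filter Topology Function DS TN

variable {S : Type} [MetricSpace S] [CompactSpace S] {X : Set ℂ} {Γ : Type} [Group Γ]
  {A : Γ → ℂ → ℂ} {p : ℂ → S} {g : S → S} {G : ℂ → ℂ}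
  {U : Set ℂ} {N : Subgroup Γ} {ψ v : ℂ → ℂ} {F : Fuchs N}

theorem nonel_uc (D : Deck X A p) (hX : X = ball 0 1) (M : Dom X A p g G U N)
    (R : Riem (fil X U) ψ v) (hF : Act A ψ v F) (hN : F.Nonel) : F.UC := by
  obtain ⟨F₀, hF₀, hUC⟩ := exists_fuchs0 D hX
  have hact : ∀ c, F₀.act c = A c := fun c => funext (hF₀ c)
  have hWX : fil X U ⊆ ball 0 1 := by
    rw [← hX]
    exact fil_sub
  have h1 : (F₀.sub N).UC := by
    refine sub_uc hUC (fil_open D M) (fil_conn D M) hWX ?_ (sub_nonel hN) ?_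
    · intro z hz
      rw [hact]
      exact fil_inv D M hz
    · intro c hc
      rw [hact]
      exact fil_disj D M hc
  refine uc_cover (F₀.sub N) F h1 R.dψ (fun z hz => hWX (R.mψ hz)) ?_
  intro c z hz
  rw [hF c z hz]
  have h2 : A c (ψ z) ∈ fil X U := by
    rw [← fil_inv D M c.2]
    exact ⟨ψ z, R.mψ hz, rfl⟩
  rw [R.ψv _ h2]
  exact (hF₀ c (ψ z)).symm

end CV

end S_H12_CV_B8

section S_H12_CV_EG

/-!
EG (existence of a gap).  Suppose every point of the circle is in `F.lim`.  (UC): there is `r₀ < 1` such that every `z = r ξ` in the disc is moved into `closedBall 0 r₀` by some `F.act c`.  So `W = fil X U` is the union of the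
`A c '' (ψ '' closedBall 0 r₀)`, `c ∈ N` (`Act`), and `p '' W = p '' (ψ '' closedBall 0 r₀)` is compact (`ψ`, `p` continuous), hence closed, and open (`pop`); `S` is connected (image of the connected `X` under `p`), so `p '' W = univ`.  Hence for `x ∈ X` there
is `y ∈ W` with `p y = p x`, `x = A c y`.  So `X = W ∪ ⋃ c ∉ N, A c '' W` (`fil_inv`), a disjoint union of two open sets (`fil_disj`; `A c` is a homeomorphism of `X`), `X` is connected, `W` nonempty: `X = W`, contradiction.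
-/

namespace CV

open Metric Set Filter Topology Function DS TN

variable {S : Type} [MetricSpace S] [CompactSpace S] {X : Set ℂ} {Γ : Type} [Group Γ]
  {A : Γ → ℂ → ℂ} {p : ℂ → S} {g : S → S} {G : ℂ → ℂ}
  {U : Set ℂ} {N : Subgroup Γ} {ψ v : ℂ → ℂ} {F : Fuchs N}

omit [CompactSpace S] in
theorem EG_open (D : Deck X A p) {W : Set ℂ} (hW : IsOpen W) (hWX : W ⊆ X) (c : Γ) :
    IsOpen (A c '' W) := by
  have h1 : A c '' W = X ∩ A c⁻¹ ⁻¹' W := by
    ext x
    constructor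
    · rintro ⟨y, hy, rfl⟩
      refine ⟨D.maps c (hWX hy), ?_⟩
      show A c⁻¹ (A c y) ∈ W
      rw [D.inv_left c (hWX hy)]
      exact hy
    · rintro ⟨hx, hxU⟩
      exact ⟨A c⁻¹ x, hxU, D.inv_right c hx⟩
  rw [h1]
  exact (D.cont c⁻¹).isOpen_inter_preimage D.opn hW

theorem exists_gap (D : Deck X A p) (M : Dom X A p g G U N)
    (R : Riem (fil X U) ψ v) (hF : Act A ψ v F) (hU : F.UC) (hW : fil X U ≠ X) :
    ∃ ξ : ℂ, ‖ξ‖ = 1 ∧ ξ ∉ F.lim := by
  by_contra hcon
  push Not at hcon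
  obtain ⟨ρ, hρ, hUC⟩ := hU
  set W := fil X U with hWdef
  have hWX : W ⊆ X := fil_sub
  have hWo : IsOpen W := fil_open D M
  have hWc : IsConnected W := fil_conn D M
  have hinv : ∀ c : N, ∀ x ∈ W, A c x ∈ W := by
    intro c x hx
    have h1 := fil_inv D M c.2
    rw [← hWdef] at h1
    rw [← h1]
    exact ⟨x, hx, rfl⟩
  have hr1 : max ρ 0 < 1 := max_lt hρ one_pos
  -- every point of the disc is moved into a compact disc
  have hcl : ∀ z ∈ ball (0:ℂ) 1, ∃ c : N, ‖F.act c z‖ ≤ max ρ 0 := by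
    intro z hz
    by_cases h0 : z = 0
    · refine ⟨1, ?_⟩
      rw [h0, act_one F (by simp), norm_zero]
      exact le_max_right _ _
    · have hz0 : ‖z‖ ≠ 0 := norm_ne_zero_iff.2 h0
      have hn : ‖z / (‖z‖ : ℂ)‖ = 1 := by
        rw [norm_div, Complex.norm_real, norm_norm, div_self hz0]
      obtain ⟨c, hc⟩ := hUC (z / (‖z‖ : ℂ)) (hcon _ hn) ‖z‖ (norm_nonneg _) (mem_ball_zero_iff.1 hz)
      refine ⟨c, ?_⟩
      have e : (‖z‖ : ℂ) * (z / (‖z‖ : ℂ)) = z := by
        rw [mul_div_assoc', mul_div_cancel_left₀ _ (Complex.ofReal_ne_zero.2 hz0)]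
      rw [e] at hc
      exact hc.trans (le_max_left _ _)
  have hKb : closedBall (0:ℂ) (max ρ 0) ⊆ ball 0 1 := closedBall_subset_ball hr1
  have himg : p '' W = p '' (ψ '' closedBall (0:ℂ) (max ρ 0)) := by
    apply Subset.antisymm
    · rintro _ ⟨w, hw, rfl⟩
      obtain ⟨c, hc⟩ := hcl (v w) (R.mv hw)
      rw [hF c _ (R.mv hw), R.ψv w hw] at hc
      refine ⟨A c w, ⟨v (A c w), mem_closedBall_zero_iff.2 hc, R.ψv _ (hinv c w hw)⟩, ?_⟩
      exact D.fibre c (hWX hw)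
    · rintro _ ⟨_, ⟨z, hz, rfl⟩, rfl⟩
      exact ⟨ψ z, R.mψ (hKb hz), rfl⟩
  have hcpt : IsCompact (p '' W) := by
    rw [himg]
    refine IsCompact.image_of_continuousOn ?_ (D.pc.mono ?_)
    · exact (isCompact_closedBall _ _).image_of_continuousOn (R.dψ.continuousOn.mono hKb)
    · rintro _ ⟨z, hz, rfl⟩
      exact hWX (R.mψ (hKb hz))
  have hclopen : IsClopen (p '' W) := ⟨hcpt.isClosed, D.pop W hWX hWo⟩
  have hSc : IsPreconnected (p '' X) := D.conn.isPreconnected.image _ D.pc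
  obtain ⟨w0, hw0⟩ := hWc.nonempty
  have hall : p '' X ⊆ p '' W :=
    hSc.subset_isClopen hclopen ⟨p w0, ⟨w0, hWX hw0, rfl⟩, ⟨w0, hw0, rfl⟩⟩
  set V : Set ℂ := ⋃ c ∈ {c : Γ | c ∉ N}, A c '' W with hV
  have hVo : IsOpen V := isOpen_biUnion fun c _ => EG_open D hWo hWX c
  have hcov : X ⊆ W ∪ V := by
    intro x hx
    obtain ⟨y, hy, hyx⟩ := hall ⟨x, hx, rfl⟩
    obtain ⟨c, hc⟩ := (D.fib y (hWX hy) x hx).1 hyx
    by_cases hcN : c ∈ N
    · left
      rw [← hc]
      exact hinv ⟨c, hcN⟩ y hy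
    · right
      rw [hV, mem_iUnion₂]
      exact ⟨c, hcN, y, hy, hc⟩
  have hdis : ∀ x, x ∈ W → x ∉ V := by
    intro x hx hxV
    rw [hV, mem_iUnion₂] at hxV
    obtain ⟨c, hc, hxc⟩ := hxV
    exact disjoint_left.1 (fil_disj D M hc) hxc hx
  apply hW
  apply Subset.antisymm hWX
  intro x hx
  by_contra hxW
  have hxV : x ∈ V := (hcov hx).resolve_left hxW
  obtain ⟨y, -, hy1, hy2⟩ := D.conn.isPreconnected W V hWo hVo hcov ⟨w0, hWX hw0, hw0⟩ ⟨x, hx, hxV⟩
  exact hdis y hy1 hy2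

end CV

end S_H12_CV_EG

section S_H12_CV_HC

/-!
HC (transport of a hole by the Riemann map).  `v` is a homeomorphism of `W` onto the disc.  `closure O ⊆ W` is compact: so `v '' O` is open, `v '' closure O` is compact, `closure (v '' O) = v '' closure O` (one inclusion: compact is closed; the other:
continuity on `closure O`), and `frontier (v '' O) = v '' frontier O` (`v` injective on `W`).  For `z = v x`, `x ∈ frontier O`: `ψ z = x`, `e z - z = v (H x) - v x = (H x - x) exp (Λ (H x) x)` and `z - v k = v x - v k = (x - k) exp (Λ x k)` (`riem_quot`), so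
`(e z - z)/(z - v k) = (H x - x)/(x - k) * exp (Λ (H x) x - Λ x k)`, with the logarithm `ℓ (ψ z) + Λ (H (ψ z)) (ψ z) - Λ (ψ z) k`, `ℓ` the given logarithm.
-/

namespace CV

open Metric Set Filter Topology Function DS TN

theorem transport {W : Set ℂ} (hW : IsOpen W) {ψ v : ℂ → ℂ} (R : Riem W ψ v) {H : ℂ → ℂ}
    (hc : ContinuousOn H W) (hm : MapsTo H W W) {O : Set ℂ} {k : ℂ} (hO : IsOpen O) (hk : k ∈ O)
    (hOW : closure O ⊆ W) (hOc : IsCompact (closure O))
    (hl : HasLog (fun x => (H x - x) / (x - k)) (frontier O)) {e : ℂ → ℂ}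
    (he : ∀ z ∈ ball (0:ℂ) 1, e z = v (H (ψ z))) :
    IsOpen (v '' O) ∧ closure (v '' O) = v '' closure O ∧ v k ∈ v '' O ∧
      closure (v '' O) ⊆ ball 0 1 ∧ HasLog (fun z => (e z - z) / (z - v k)) (frontier (v '' O)) := by
  have hOW' : O ⊆ W := subset_closure.trans hOW
  have hv : v '' O = ball (0:ℂ) 1 ∩ ψ ⁻¹' O := by
    ext z
    constructor
    · rintro ⟨x, hx, rfl⟩
      refine ⟨R.mv (hOW' hx), ?_⟩
      rw [mem_preimage, R.ψv x (hOW' hx)]
      exact hx
    · rintro ⟨hz, hz2⟩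
      exact ⟨ψ z, hz2, R.vψ z hz⟩
  have hop : IsOpen (v '' O) := by
    rw [hv]
    exact R.dψ.continuousOn.isOpen_inter_preimage isOpen_ball hO
  have hvc : ContinuousOn v (closure O) := R.dv.continuousOn.mono hOW
  have hcl : closure (v '' O) = v '' closure O := by
    apply Subset.antisymm
    · exact closure_minimal (image_mono subset_closure) (hOc.image_of_continuousOn hvc).isClosed
    · exact hvc.image_closure
  have hcb : closure (v '' O) ⊆ ball 0 1 := by
    rw [hcl]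
    rintro _ ⟨x, hx, rfl⟩
    exact R.mv (hOW hx)
  refine ⟨hop, hcl, mem_image_of_mem v hk, hcb, ?_⟩
  have hfr : ∀ z ∈ frontier (v '' O), z ∈ ball (0:ℂ) 1 ∧ ψ z ∈ frontier O := by
    intro z hz
    rw [hop.frontier_eq] at hz
    obtain ⟨hz1, hz2⟩ := hz
    refine ⟨hcb hz1, ?_⟩
    rw [hcl] at hz1
    obtain ⟨x, hx, rfl⟩ := hz1
    rw [R.ψv x (hOW hx), hO.frontier_eq]
    exact ⟨hx, fun h => hz2 (mem_image_of_mem v h)⟩
  obtain ⟨Λ, hΛc, hΛ⟩ := riem_quot hW R
  obtain ⟨l, hlc, hle⟩ := hl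
  have hfW : frontier O ⊆ W := frontier_subset_closure.trans hOW
  have hkW : k ∈ W := hOW' hk
  have hψc : ContinuousOn ψ (frontier (v '' O)) :=
    R.dψ.continuousOn.mono fun z hz => (hfr z hz).1
  have hψm : MapsTo ψ (frontier (v '' O)) (frontier O) := fun z hz => (hfr z hz).2
  have hψW : MapsTo ψ (frontier (v '' O)) W := fun z hz => hfW (hψm hz)
  have hHψ : ContinuousOn (fun z => H (ψ z)) (frontier (v '' O)) := hc.comp hψc hψW
  refine ⟨fun z => l (ψ z) + Λ (H (ψ z)) (ψ z) - Λ (ψ z) k, ?_, ?_⟩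
  · refine ContinuousOn.sub (ContinuousOn.add (hlc.comp hψc hψm) ?_) ?_
    · exact hΛc.comp (hHψ.prodMk hψc) fun z hz => ⟨hm (hψW hz), hψW hz⟩
    · exact hΛc.comp (hψc.prodMk continuousOn_const) fun z hz => ⟨hψW hz, hkW⟩
  · intro z hz
    obtain ⟨hzb, hzf⟩ := hfr z hz
    have hxW : ψ z ∈ W := hfW hzf
    have e1 : e z - z = (H (ψ z) - ψ z) * Complex.exp (Λ (H (ψ z)) (ψ z)) := by
      rw [← hΛ _ (hm hxW) _ hxW, he z hzb, R.vψ z hzb]
    have e2 : z - v k = (ψ z - k) * Complex.exp (Λ (ψ z) k) := by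
      rw [← hΛ _ hxW _ hkW, R.vψ z hzb]
    have e3 := hle (ψ z) hzf
    show (e z - z) / (z - v k) = _
    rw [e1, e2, mul_div_mul_comm, ← Complex.exp_sub, show (H (ψ z) - ψ z) / (ψ z - k) =
      Complex.exp (l (ψ z)) from e3, ← Complex.exp_add]
    congr 1
    ring

end CV

end S_H12_CV_HC
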