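import Pool.Agent.H12.KS.K01

/-! Joined modules of the proof of MP_8a27c0_an (one section per module). -/

section S_H36_DS_LA

/-!
LA (length-area, small arcs around a boundary point).  Proof.  Put `Ω = ball 0 1 ∩ ball ζ r₀`,
`J s = {t | ζ + s e^{it} ∈ ball 0 1}` for `0 < s < r₀`, `ℓ s = ∫ t in J s, s * ‖deriv F (ζ + s e^{it})‖`
(`t` in a period of length `2π`).  By Cauchy-Schwarz `ℓ s ^ 2 ≤ 2π s ∫_{J s} s ‖F'‖² dt`, so
`∫_0^{r₀} ℓ s ^ 2 / s ds ≤ 2π ∫_Ω ‖deriv F‖² = 2π area (F '' Ω) < ∞`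
(polar coordinates about `ζ`; area formula `lintegral_abs_det_fderiv_eq_addHaar_image` for the injective `F`,
the real determinant of multiplication by `F'` is `‖F'‖²`; the image is bounded).  As `∫_0 ds/s = ∞`, for
every `ε > 0` there is `s < min ε r₀` with `ℓ s < ε`.  For two points `z, w` of the disc with
`dist z ζ = dist w ζ = s` the shorter circular arc about `ζ` between them stays in the disc
(`ball 0 1 ∩ sphere ζ s` is an arc: `‖ζ + s e^{it}‖ < 1` iff `2 Re (conj ζ e^{it}) < -s`, an interval of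
`t`), and integrating `F'` along it gives `dist (F z) (F w) ≤ ℓ s < ε`.
You may use `lintegral` throughout.
-/

namespace DS
open Metric Set Filter Topology MeasureTheory ENNReal

/-- the real determinant of a complex derivative -/
theorem LA_det (c : ℂ) :
    ((ContinuousLinearMap.toSpanSingleton ℂ c).restrictScalars ℝ : ℂ →L[ℝ] ℂ).det = ‖c‖ ^ 2 := by
  have h1 : (((ContinuousLinearMap.toSpanSingleton ℂ c).restrictScalars ℝ : ℂ →L[ℝ] ℂ) :
      ℂ →ₗ[ℝ] ℂ) = LinearMap.mulLeft ℝ c := by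
    ext x
    simp [mul_comm]
  rw [ContinuousLinearMap.det, h1]
  have h2 := Algebra.norm_complex_apply c
  rw [Algebra.norm_apply] at h2
  rw [Complex.sq_norm, ← h2]
  rfl

/-- area formula for injective holomorphic functions -/
theorem LA_area {Ω : Set ℂ} (hΩ : IsOpen Ω) {G : ℂ → ℂ} (hG : DifferentiableOn ℂ G Ω)
    (hi : InjOn G Ω) :
    ∫⁻ x in Ω, ENNReal.ofReal (‖deriv G x‖ ^ 2) = volume (G '' Ω) := by
  rw [← lintegral_abs_det_fderiv_eq_addHaar_image volume hΩ.measurableSet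
    (f' := fun x => ((ContinuousLinearMap.toSpanSingleton ℂ (deriv G x)).restrictScalars ℝ))
    _ hi]
  · apply lintegral_congr
    intro x
    rw [LA_det, abs_of_nonneg (sq_nonneg _)]
  · intro x hx
    have h1 : HasDerivAt G (deriv G x) x := (hG.differentiableAt (hΩ.mem_nhds hx)).hasDerivAt
    exact (h1.hasFDerivAt.restrictScalars ℝ).hasFDerivWithinAt

/-- polar coordinates (Tonelli) -/
theorem LA_polar {f : ℂ → ℝ≥0∞} (hf : Measurable f) :
    ∫⁻ s in Ioi (0:ℝ), ∫⁻ t in Ioo (-Real.pi) Real.pi,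
      ENNReal.ofReal s * f (s * (Real.cos t + Real.sin t * Complex.I)) = ∫⁻ p, f p := by
  rw [← Complex.lintegral_comp_polarCoord_symm f]
  rw [polarCoord_target, Measure.volume_eq_prod, ← Measure.prod_restrict]
  simp only [Complex.polarCoord_symm_apply, smul_eq_mul]
  rw [lintegral_prod]
  · apply Measurable.aemeasurable
    apply Measurable.mul
    · exact measurable_fst.ennreal_ofReal
    · apply hf.comp
      apply Measurable.mul
      · exact (Complex.measurable_ofReal).comp measurable_fst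
      · apply Measurable.add
        · exact (Complex.measurable_ofReal).comp (Real.measurable_cos.comp measurable_snd)
        · exact ((Complex.measurable_ofReal).comp
            (Real.measurable_sin.comp measurable_snd)).mul_const _

/-- pointwise inequality replacing Cauchy-Schwarz -/
theorem LA_amgm {ε : ℝ} (hε : 0 < ε) (h : ℝ → ℝ)
    (hL : ENNReal.ofReal ε ≤ ∫⁻ t in Ioo (-Real.pi) Real.pi, ENNReal.ofReal (h t)) :
    ENNReal.ofReal (ε ^ 2 / (4 * Real.pi)) ≤
      ∫⁻ t in Ioo (-Real.pi) Real.pi, ENNReal.ofReal (h t ^ 2) := by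
  have hpi := Real.pi_pos
  by_contra hcon
  rw [not_le] at hcon
  have h1 : ∀ t, ENNReal.ofReal (h t) ≤ ENNReal.ofReal (ε / (4 * Real.pi)) +
      ENNReal.ofReal (Real.pi / ε) * ENNReal.ofReal (h t ^ 2) := by
    intro t
    rw [← ENNReal.ofReal_mul (by positivity), ← ENNReal.ofReal_add (by positivity)
      (mul_nonneg (by positivity) (sq_nonneg _))]
    apply ENNReal.ofReal_le_ofReal
    have h2 : 0 ≤ (h t - ε / (2 * Real.pi)) ^ 2 := sq_nonneg _
    have h3 : ε / (4 * Real.pi) + Real.pi / ε * h t ^ 2 - h t =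
        Real.pi / ε * (h t - ε / (2 * Real.pi)) ^ 2 := by
      field_simp
      ring
    have h4 : 0 ≤ Real.pi / ε * (h t - ε / (2 * Real.pi)) ^ 2 := by positivity
    linarith
  have h5 : ∫⁻ t in Ioo (-Real.pi) Real.pi, ENNReal.ofReal (h t) ≤
      ENNReal.ofReal (ε / 2) + ENNReal.ofReal (Real.pi / ε) *
        ∫⁻ t in Ioo (-Real.pi) Real.pi, ENNReal.ofReal (h t ^ 2) := by
    calc _ ≤ ∫⁻ t in Ioo (-Real.pi) Real.pi, (ENNReal.ofReal (ε / (4 * Real.pi)) +
          ENNReal.ofReal (Real.pi / ε) * ENNReal.ofReal (h t ^ 2)) := lintegral_mono h1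
      _ = _ := by
          rw [lintegral_add_left measurable_const, lintegral_const_mul' _ _ ENNReal.ofReal_ne_top,
            setLIntegral_const, Real.volume_Ioo, ← ENNReal.ofReal_mul (by positivity)]
          congr 2
          field_simp
          ring
  have h6 : ENNReal.ofReal (Real.pi / ε) *
        ∫⁻ t in Ioo (-Real.pi) Real.pi, ENNReal.ofReal (h t ^ 2) < ENNReal.ofReal (ε / 2) := by
    calc _ < ENNReal.ofReal (Real.pi / ε) * ENNReal.ofReal (ε ^ 2 / (4 * Real.pi)) := by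
          apply ENNReal.mul_lt_mul_right (by positivity) ENNReal.ofReal_ne_top hcon
      _ ≤ ENNReal.ofReal (ε / 2) := by
          rw [← ENNReal.ofReal_mul (by positivity)]
          apply ENNReal.ofReal_le_ofReal
          have : Real.pi / ε * (ε ^ 2 / (4 * Real.pi)) = ε / 4 := by
            field_simp
          rw [this]
          linarith
  have h7 : ENNReal.ofReal (ε / 2) + ENNReal.ofReal (Real.pi / ε) *
        ∫⁻ t in Ioo (-Real.pi) Real.pi, ENNReal.ofReal (h t ^ 2) <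
        ENNReal.ofReal (ε / 2) + ENNReal.ofReal (ε / 2) :=
    ENNReal.add_lt_add_left ENNReal.ofReal_ne_top h6
  rw [← ENNReal.ofReal_add (by positivity) (by positivity), add_halves] at h7
  exact absurd (hL.trans h5) (not_le.2 h7)

/-- `∫ c/s ds = ∞` near zero -/
theorem LA_div {c m : ℝ} (hc : 0 < c) (hm : 0 < m) :
    ∫⁻ s in Ioo (0:ℝ) m, ENNReal.ofReal (c / s) = ∞ := by
  by_contra hcon
  have h1 : IntegrableOn (fun s : ℝ => c / s) (Ioo 0 m) := by
    refine ⟨(measurable_const.div measurable_id).aestronglyMeasurable, ?_⟩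
    rw [hasFiniteIntegral_iff_ofReal]
    · exact lt_top_iff_ne_top.2 hcon
    · rw [Filter.EventuallyLE, ae_restrict_iff' measurableSet_Ioo]
      filter_upwards with s hs
      exact div_nonneg hc.le hs.1.le
  have h2 : IntegrableOn (fun s : ℝ => s⁻¹) (Ioo 0 m) := by
    have := h1.const_mul c⁻¹
    refine this.congr ?_
    filter_upwards with s
    field_simp
  have h3 : IntervalIntegrable (fun s : ℝ => s⁻¹) volume 0 m := by
    rw [intervalIntegrable_iff_integrableOn_Ioo_of_le hm.le]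
    exact h2
  rw [intervalIntegrable_inv_iff] at h3
  rcases h3 with h3 | h3
  · exact hm.ne h3
  · exact h3 left_mem_uIcc

/-- the length-area principle for circular arcs around `0` -/
theorem LA_short {Ω : Set ℂ} (hΩ : IsOpen Ω) {G : ℂ → ℂ} (hG : DifferentiableOn ℂ G Ω)
    (hi : InjOn G Ω) (hb : Bornology.IsBounded (G '' Ω)) {ε m : ℝ} (hε : 0 < ε) (hm : 0 < m) :
    ∃ s, 0 < s ∧ s < m ∧ ∫⁻ t in Ioo (-Real.pi) Real.pi, ENNReal.ofReal
      (Ω.indicator (fun w => s * ‖deriv G w‖) (s * (Real.cos t + Real.sin t * Complex.I))) <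
      ENNReal.ofReal ε := by
  classical
  by_contra hcon
  push Not at hcon
  set k : ℂ → ℝ := Ω.indicator (fun w => ‖deriv G w‖) with hk
  have hkm : Measurable k := (measurable_deriv G).norm.indicator hΩ.measurableSet
  set f : ℂ → ℝ≥0∞ := fun w => ENNReal.ofReal (k w ^ 2) with hf
  have hfm : Measurable f := (hkm.pow_const 2).ennreal_ofReal
  have hfin : ∫⁻ p, f p < ∞ := by
    have h1 : ∫⁻ p, f p = ∫⁻ x in Ω, ENNReal.ofReal (‖deriv G x‖ ^ 2) := by
      rw [← lintegral_indicator hΩ.measurableSet]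
      apply lintegral_congr
      intro x
      simp only [hf, hk]
      by_cases hx : x ∈ Ω
      · rw [indicator_of_mem hx, indicator_of_mem hx]
      · rw [indicator_of_notMem hx, indicator_of_notMem hx]
        simp
    rw [h1, LA_area hΩ hG hi]
    exact hb.measure_lt_top
  rw [← LA_polar hfm] at hfin
  have h2 : ∀ s ∈ Ioo (0:ℝ) m, ENNReal.ofReal (ε ^ 2 / (4 * Real.pi) / s) ≤
      ∫⁻ t in Ioo (-Real.pi) Real.pi,
      ENNReal.ofReal s * f (s * (Real.cos t + Real.sin t * Complex.I)) := by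
    intro s hs
    have h3 := LA_amgm hε _ (hcon s hs.1 hs.2)
    have h4 : ∀ t : ℝ, ENNReal.ofReal ((Ω.indicator (fun w => s * ‖deriv G w‖)
        (s * (Real.cos t + Real.sin t * Complex.I))) ^ 2) =
        ENNReal.ofReal s * (ENNReal.ofReal s *
          f (s * (Real.cos t + Real.sin t * Complex.I))) := by
      intro t
      simp only [hf, hk]
      rw [← ENNReal.ofReal_mul hs.1.le, ← ENNReal.ofReal_mul hs.1.le]
      congr 1
      by_cases hx : (s * (Real.cos t + Real.sin t * Complex.I) : ℂ) ∈ Ω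
      · rw [indicator_of_mem hx, indicator_of_mem hx]
        ring
      · rw [indicator_of_notMem hx, indicator_of_notMem hx]
        ring
    simp only [h4] at h3
    rw [lintegral_const_mul' _ _ ENNReal.ofReal_ne_top] at h3
    rw [ENNReal.ofReal_div_of_pos hs.1]
    apply ENNReal.div_le_of_le_mul
    exact h3.trans_eq (mul_comm _ _)
  have h5 : ∫⁻ s in Ioo (0:ℝ) m, ENNReal.ofReal (ε ^ 2 / (4 * Real.pi) / s) ≤
      ∫⁻ s in Ioi (0:ℝ), ∫⁻ t in Ioo (-Real.pi) Real.pi,
      ENNReal.ofReal s * f (s * (Real.cos t + Real.sin t * Complex.I)) := by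
    calc _ ≤ ∫⁻ s in Ioo (0:ℝ) m, ∫⁻ t in Ioo (-Real.pi) Real.pi,
        ENNReal.ofReal s * f (s * (Real.cos t + Real.sin t * Complex.I)) :=
          setLIntegral_mono' measurableSet_Ioo h2
      _ ≤ _ := lintegral_mono_set Ioo_subset_Ioi_self
  have hpi := Real.pi_pos
  rw [LA_div (by positivity) hm] at h5
  exact absurd hfin (not_lt.2 h5)

/-- the point of polar coordinates `s`, `t` -/
noncomputable def LA_pt (s t : ℝ) : ℂ := s * (Real.cos t + Real.sin t * Complex.I)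

theorem LA_pt_eq (s t : ℝ) : LA_pt s t = s * Complex.exp (t * Complex.I) := by
  rw [LA_pt, Complex.exp_mul_I, Complex.ofReal_cos, Complex.ofReal_sin]

theorem LA_pt_deriv (s t : ℝ) :
    HasDerivAt (fun t : ℝ => LA_pt s t) (s * (Complex.exp (t * Complex.I) * Complex.I)) t := by
  have h1 : HasDerivAt (fun t : ℝ => (t : ℂ) * Complex.I) Complex.I t := by
    simpa using (Complex.ofRealCLM.hasDerivAt (x := t)).mul_const Complex.I
  have h2 := (h1.cexp).const_mul (s : ℂ)
  have h3 : (fun t : ℝ => LA_pt s t) = fun t : ℝ => (s : ℂ) * Complex.exp (t * Complex.I) := by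
    funext t
    exact LA_pt_eq s t
  rw [h3]
  exact h2

/-- length of the image of an arc -/
theorem LA_arc {Ω : Set ℂ} (hΩ : IsOpen Ω) {G : ℂ → ℂ} (hG : DifferentiableOn ℂ G Ω)
    {s a b : ℝ} (hs : 0 < s) (hab : a ≤ b) (ha : -Real.pi < a) (hb : b < Real.pi)
    (harc : ∀ t ∈ Icc a b, LA_pt s t ∈ Ω) :
    ENNReal.ofReal (dist (G (LA_pt s b)) (G (LA_pt s a))) ≤
      ∫⁻ t in Ioo (-Real.pi) Real.pi, ENNReal.ofReal
      (Ω.indicator (fun w => s * ‖deriv G w‖) (s * (Real.cos t + Real.sin t * Complex.I))) := by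
  classical
  set g' : ℝ → ℂ := fun t => deriv G (LA_pt s t) * (s * (Complex.exp (t * Complex.I) * Complex.I))
    with hg'
  have hd : ∀ t ∈ uIcc a b, HasDerivAt (fun t : ℝ => G (LA_pt s t)) (g' t) t := by
    intro t ht
    rw [uIcc_of_le hab] at ht
    have h1 : HasDerivAt G (deriv G (LA_pt s t)) (LA_pt s t) :=
      (hG.differentiableAt (hΩ.mem_nhds (harc t ht))).hasDerivAt
    exact h1.comp_of_eq t (LA_pt_deriv s t) rfl
  have hcont : ContinuousOn g' (uIcc a b) := by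
    apply ContinuousOn.mul
    · have h1 : ContinuousOn (deriv G) Ω := (hG.deriv hΩ).continuousOn
      have h2 : Continuous (fun t : ℝ => LA_pt s t) := by
        unfold LA_pt
        fun_prop
      rw [uIcc_of_le hab]
      exact h1.comp h2.continuousOn harc
    · fun_prop
  have hint := intervalIntegral.integral_eq_sub_of_hasDerivAt hd hcont.intervalIntegrable
  rw [dist_eq_norm, ← hint, intervalIntegral.integral_of_le hab]
  have h3 : ‖∫ t in Ioc a b, g' t‖ₑ ≤ ∫⁻ t in Ioc a b, ‖g' t‖ₑ :=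
    enorm_integral_le_lintegral_enorm _
  rw [ofReal_norm]
  refine h3.trans ?_
  have h4 : ∫⁻ t in Ioc a b, ‖g' t‖ₑ ≤ ∫⁻ t in Ioc a b, ENNReal.ofReal
      (Ω.indicator (fun w => s * ‖deriv G w‖) (s * (Real.cos t + Real.sin t * Complex.I))) := by
    apply setLIntegral_mono' measurableSet_Ioc
    intro t ht
    have hmem : (s * (Real.cos t + Real.sin t * Complex.I) : ℂ) ∈ Ω :=
      harc t ⟨ht.1.le, ht.2⟩
    rw [indicator_of_mem hmem, ← ofReal_norm]
    apply ENNReal.ofReal_le_ofReal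
    simp only [hg']
    rw [norm_mul, norm_mul, norm_mul, Complex.norm_exp_ofReal_mul_I, Complex.norm_I,
      Complex.norm_real, Real.norm_of_nonneg hs.le, mul_one, mul_one, mul_comm]
    exact le_of_eq rfl
  exact h4.trans (lintegral_mono_set (fun t ht => ⟨ha.trans ht.1, ht.2.trans_lt hb⟩))

/-- the lens -/
theorem LA_lens {s t : ℝ} (hs : 0 < s) : LA_pt s t ∈ ball (1:ℂ) 1 ↔ s / 2 < Real.cos t := by
  rw [mem_ball, dist_eq_norm, ← sq_lt_one_iff₀ (norm_nonneg _), Complex.sq_norm,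
    Complex.normSq_apply]
  have h1 : (LA_pt s t - 1).re = s * Real.cos t - 1 := by
    simp [LA_pt, Complex.cos_ofReal_re]
  have h2 : (LA_pt s t - 1).im = s * Real.sin t := by
    simp [LA_pt, Complex.cos_ofReal_im, Complex.sin_ofReal_re]
  rw [h1, h2]
  have h3 := Real.sin_sq_add_cos_sq t
  have h4 : (s * Real.cos t - 1) * (s * Real.cos t - 1) + s * Real.sin t * (s * Real.sin t) =
      1 + s * (s - 2 * Real.cos t) := by
    linear_combination s ^ 2 * h3
  rw [h4]
  constructor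
  · intro h5
    by_contra h6
    push Not at h6
    have : 0 ≤ s * (s - 2 * Real.cos t) := mul_nonneg hs.le (by linarith)
    linarith
  · intro h5
    have : s * (s - 2 * Real.cos t) < 0 := mul_neg_of_pos_of_neg hs (by linarith)
    linarith

theorem LA_cos {s a b t : ℝ} (ha : -Real.pi < a) (hb : b < Real.pi)
    (ht : t ∈ Icc a b) (h1 : s / 2 < Real.cos a) (h2 : s / 2 < Real.cos b) :
    s / 2 < Real.cos t := by
  rcases le_or_gt 0 t with h0 | h0
  · have := Real.cos_le_cos_of_nonneg_of_le_pi h0 hb.le ht.2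
    linarith
  · have := Real.cos_le_cos_of_nonneg_of_le_pi (x := -t) (y := -a) (by linarith) (by linarith)
      (by linarith [ht.1])
    rw [Real.cos_neg, Real.cos_neg] at this
    linarith

/-- normalised version: boundary point `0` of the disc with centre `1` -/
theorem LA_norm {G : ℂ → ℂ} {r₀ : ℝ} (hr : 0 < r₀)
    (hG : DifferentiableOn ℂ G (ball 1 1 ∩ ball 0 r₀)) (hi : InjOn G (ball 1 1 ∩ ball 0 r₀))
    (hb : Bornology.IsBounded (G '' (ball 1 1 ∩ ball 0 r₀))) {ε : ℝ} (hε : 0 < ε) :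
    ∃ ρ, 0 < ρ ∧ ρ < ε ∧ ∀ z w : ℂ, z ∈ ball (1:ℂ) 1 → w ∈ ball (1:ℂ) 1 →
      ‖z‖ = ρ → ‖w‖ = ρ → dist (G z) (G w) < ε := by
  have hΩ : IsOpen (ball (1:ℂ) 1 ∩ ball 0 r₀) := isOpen_ball.inter isOpen_ball
  obtain ⟨s, hs0, hsm, hs⟩ := LA_short hΩ hG hi hb hε (lt_min hε hr)
  refine ⟨s, hs0, hsm.trans_le (min_le_left _ _), ?_⟩
  have key : ∀ a b : ℝ, -Real.pi < a → b < Real.pi → a ≤ b → s / 2 < Real.cos a →
      s / 2 < Real.cos b → dist (G (LA_pt s b)) (G (LA_pt s a)) < ε := by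
    intro a b ha hb' hab h1 h2
    have h3 := LA_arc hΩ hG hs0 hab ha hb' (fun t ht => by
      refine ⟨(LA_lens hs0).2 (LA_cos ha hb' ht h1 h2), ?_⟩
      rw [mem_ball_zero_iff, LA_pt_eq, norm_mul, Complex.norm_exp_ofReal_mul_I, Complex.norm_real,
        Real.norm_of_nonneg hs0.le, mul_one]
      exact hsm.trans_le (min_le_right _ _))
    have h4 := h3.trans_lt hs
    exact (ENNReal.ofReal_lt_ofReal_iff hε).1 h4
  have hpol : ∀ z : ℂ, z ∈ ball (1:ℂ) 1 → ‖z‖ = s → ∃ a : ℝ, -Real.pi < a ∧ a < Real.pi ∧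
      s / 2 < Real.cos a ∧ LA_pt s a = z := by
    intro z hz hzs
    have h1 : LA_pt s z.arg = z := by
      rw [LA_pt_eq, ← hzs]
      exact Complex.norm_mul_exp_arg_mul_I z
    have h2 : s / 2 < Real.cos z.arg := by
      rw [← LA_lens hs0, h1]
      exact hz
    refine ⟨z.arg, Complex.neg_pi_lt_arg z, lt_of_le_of_ne (Complex.arg_le_pi z) ?_, h2, h1⟩
    intro h3
    rw [h3, Real.cos_pi] at h2
    linarith
  intro z w hz hw hzs hws
  obtain ⟨a, ha1, ha2, ha3, rfl⟩ := hpol z hz hzs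
  obtain ⟨b, hb1, hb2, hb3, rfl⟩ := hpol w hw hws
  rcases le_total a b with h | h
  · rw [dist_comm]
    exact key a b ha1 hb2 h ha3 hb3
  · exact key b a hb1 ha2 h hb3 ha3

theorem small_arc {F : ℂ → ℂ} {ζ : ℂ} {r₀ : ℝ} (hr : 0 < r₀) (hζ : ‖ζ‖ = 1)
    (hF : DifferentiableOn ℂ F (ball 0 1 ∩ ball ζ r₀)) (hi : InjOn F (ball 0 1 ∩ ball ζ r₀))
    (hb : Bornology.IsBounded (F '' (ball 0 1 ∩ ball ζ r₀))) :
    ∀ ε > 0, ∃ ρ, 0 < ρ ∧ ρ < ε ∧ ∀ z w : ℂ, z ∈ ball (0:ℂ) 1 → w ∈ ball (0:ℂ) 1 →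
      dist z ζ = ρ → dist w ζ = ρ → dist (F z) (F w) < ε := by
  intro ε hε
  have hζ0 : ζ ≠ 0 := by
    intro h
    rw [h, norm_zero] at hζ
    exact zero_ne_one hζ
  have hmaps : MapsTo (fun w : ℂ => ζ * (1 - w)) (ball 1 1 ∩ ball 0 r₀)
      (ball 0 1 ∩ ball ζ r₀) := by
    intro w hw
    constructor
    · rw [mem_ball_zero_iff, norm_mul, hζ, one_mul, norm_sub_rev, ← dist_eq_norm]
      exact hw.1
    · rw [mem_ball, dist_eq_norm]
      have : ζ * (1 - w) - ζ = -(ζ * w) := by ring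
      rw [this, norm_neg, norm_mul, hζ, one_mul, ← mem_ball_zero_iff]
      exact hw.2
  obtain ⟨ρ, h0, h1, h2⟩ := LA_norm (G := fun w => F (ζ * (1 - w))) hr
    (hF.comp (by fun_prop) hmaps)
    (by
      intro a ha b hb' hab
      have h3 := hi (hmaps ha) (hmaps hb') hab
      have h4 := mul_left_cancel₀ hζ0 h3
      linear_combination -h4)
    (hb.subset (by
      rintro _ ⟨w, hw, rfl⟩
      exact ⟨_, hmaps hw, rfl⟩)) hε
  refine ⟨ρ, h0, h1, fun z w hz hw hzρ hwρ => ?_⟩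
  have hinv : ∀ z : ℂ, ζ * (1 - (1 - z / ζ)) = z := by
    intro z
    field_simp
    ring
  have hn : ∀ z : ℂ, ‖1 - z / ζ‖ = dist z ζ := by
    intro z
    have : 1 - z / ζ = (ζ - z) / ζ := by field_simp
    rw [this, norm_div, hζ, div_one, dist_comm, dist_eq_norm]
  have hm : ∀ z : ℂ, z ∈ ball (0:ℂ) 1 → 1 - z / ζ ∈ ball (1:ℂ) 1 := by
    intro z hz
    rw [mem_ball, dist_eq_norm]
    have : 1 - z / ζ - 1 = -(z / ζ) := by ring
    rw [this, norm_neg, norm_div, hζ, div_one]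
    exact mem_ball_zero_iff.1 hz
  have := h2 (1 - z / ζ) (1 - w / ζ) (hm z hz) (hm w hw) (by rw [hn, hzρ]) (by rw [hn, hwρ])
  simpa only [hinv] using this

end DS

end S_H36_DS_LA

section S_H36_DS_LB

/-!
LB (length-area, a circle with short image).  Proof.  For `0 < r < r₁` put
`T r = {t | t ∈ Ioo 0 (4π) ∧ circleMap w₀ r t ∈ Ω}`, `ℓ r = ∫ t in T r, r * ‖deriv u (circleMap w₀ r t)‖`.
Cauchy-Schwarz: `ℓ r ^ 2 ≤ 4π r ∫_{T r} r ‖u'‖²`, and polar coordinates about `w₀` (the angle runs twice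
around) with the area formula for the injective `u` (values in the unit disc, area `≤ π`) give
`∫_0^{r₁} ℓ r ^ 2 / r dr ≤ 4π * 2 * π`.  Since `∫_0^{r₁} dr / r = ∞`, some `r < r₁` has `ℓ r ≤ η`.
-/

namespace DS
open Metric Set Filter Topology MeasureTheory
open scoped ENNReal

/-- the squared modulus of `u'`, cut off outside `Ω` -/
noncomputable def LB_G (Ω : Set ℂ) (u : ℂ → ℂ) (z : ℂ) : ℝ≥0∞ :=
  Ω.indicator (fun z => ENNReal.ofReal (‖deriv u z‖ ^ 2)) z

theorem LB_G_meas {Ω : Set ℂ} (hΩ : IsOpen Ω) (u : ℂ → ℂ) : Measurable (LB_G Ω u) := by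
  refine Measurable.indicator ?_ hΩ.measurableSet
  exact ((measurable_deriv u).norm.pow_const 2).ennreal_ofReal

theorem LB_det (c : ℂ) :
    (((ContinuousLinearMap.toSpanSingleton ℂ c).restrictScalars ℝ : ℂ →L[ℝ] ℂ)).det = ‖c‖ ^ 2 := by
  have : (((ContinuousLinearMap.toSpanSingleton ℂ c).restrictScalars ℝ : ℂ →L[ℝ] ℂ)).det =
      Complex.normSq c := by
    simp [ContinuousLinearMap.det, LinearMap.det_restrictScalars, Algebra.norm_complex_apply]
  rw [this, Complex.normSq_eq_norm_sq]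

/-- the area formula -/
theorem LB_area {Ω : Set ℂ} (hΩ : IsOpen Ω) {u : ℂ → ℂ} (hu : DifferentiableOn ℂ u Ω)
    (hi : InjOn u Ω) (hm : MapsTo u Ω (ball 0 1)) :
    ∫⁻ z, LB_G Ω u z ≤ ENNReal.ofReal Real.pi := by
  have h1 : ∀ x ∈ Ω, HasFDerivWithinAt u
      ((ContinuousLinearMap.toSpanSingleton ℂ (deriv u x)).restrictScalars ℝ : ℂ →L[ℝ] ℂ) Ω x := by
    intro x hx
    have := ((hu.differentiableAt (hΩ.mem_nhds hx)).hasDerivAt).hasFDerivAt
    exact (this.restrictScalars ℝ).hasFDerivWithinAt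
  have h2 := lintegral_abs_det_fderiv_eq_addHaar_image volume hΩ.measurableSet h1 hi
  simp only [LB_det] at h2
  unfold LB_G
  rw [lintegral_indicator hΩ.measurableSet]
  calc (∫⁻ a in Ω, ENNReal.ofReal (‖deriv u a‖ ^ 2)) =
        ∫⁻ a in Ω, ENNReal.ofReal |‖deriv u a‖ ^ 2| := by
          refine lintegral_congr fun a => ?_
          rw [abs_of_nonneg (sq_nonneg ‖deriv u a‖)]
    _ = volume (u '' Ω) := h2
    _ ≤ volume (ball (0:ℂ) 1) := measure_mono (image_subset_iff.2 hm)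
    _ = ENNReal.ofReal Real.pi := by
          rw [Complex.volume_ball]
          simp only [ENNReal.ofReal_one, one_pow, one_mul]
          rw [ENNReal.ofReal, Real.toNNReal_of_nonneg Real.pi_pos.le]
          rfl

/-- polar coordinates about `w₀` -/
theorem LB_polar {Ω : Set ℂ} (hΩ : IsOpen Ω) (u : ℂ → ℂ) (w₀ : ℂ) :
    ∫⁻ r in Ioi (0:ℝ), ENNReal.ofReal r * ∫⁻ t in Ioo (-Real.pi) Real.pi,
      LB_G Ω u (circleMap w₀ r t) = ∫⁻ z, LB_G Ω u z := by
  have h0 : ∫⁻ z, LB_G Ω u z = ∫⁻ z, LB_G Ω u (w₀ + z) := by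
    exact (lintegral_add_left_eq_self (μ := volume) (LB_G Ω u) w₀).symm
  rw [h0, ← Complex.lintegral_comp_polarCoord_symm]
  have h1 : polarCoord.target = Set.Ioi (0 : ℝ) ×ˢ Set.Ioo (-Real.pi) Real.pi := rfl
  rw [h1, Measure.volume_eq_prod, ← Measure.prod_restrict]
  rw [lintegral_prod]
  · refine lintegral_congr fun r => ?_
    rw [← lintegral_const_mul]
    · refine lintegral_congr fun t => ?_
      simp only [smul_eq_mul]
      congr 2
      rw [circleMap, Complex.exp_mul_I]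
      simp
    · exact (LB_G_meas hΩ u).comp (continuous_circleMap w₀ r).measurable
  · apply Measurable.aemeasurable
    refine Measurable.smul (f := fun a : ℝ × ℝ => ENNReal.ofReal a.1) (by fun_prop) ?_
    refine (LB_G_meas hΩ u).comp ?_
    have : Continuous (fun a : ℝ × ℝ => w₀ + Complex.polarCoord.symm a) := by
      simp only [Complex.polarCoord_symm_apply]
      fun_prop
    exact this.measurable

/-- the angle runs twice around -/
theorem LB_twice {F : ℝ → ℝ≥0∞} (hF : Function.Periodic F (2 * Real.pi)) :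
    ∫⁻ t in Ioo 0 (4 * Real.pi), F t ≤ 2 * ∫⁻ t in Ioo (-Real.pi) Real.pi, F t := by
  have hT : (0:ℝ) < 2 * Real.pi := Real.two_pi_pos
  have key : ∀ a b : ℝ, ∫⁻ t in Ioc a (a + 2 * Real.pi), F t =
      ∫⁻ t in Ioc b (b + 2 * Real.pi), F t := by
    intro a b
    refine IsAddFundamentalDomain.setLIntegral_eq (isAddFundamentalDomain_Ioc hT a)
      (isAddFundamentalDomain_Ioc hT b) F ?_
    intro g x
    exact hF.map_vadd_zmultiples g x
  have hsub : Ioo 0 (4 * Real.pi) ⊆ Ioc 0 (0 + 2 * Real.pi) ∪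
      Ioc (2 * Real.pi) (2 * Real.pi + 2 * Real.pi) := by
    intro t ht
    rcases le_or_gt t (2 * Real.pi) with h | h
    · left; exact ⟨ht.1, by linarith⟩
    · right; exact ⟨h, by linarith [ht.2]⟩
  calc ∫⁻ t in Ioo 0 (4 * Real.pi), F t
      ≤ ∫⁻ t in Ioc 0 (0 + 2 * Real.pi) ∪ Ioc (2 * Real.pi) (2 * Real.pi + 2 * Real.pi), F t :=
        lintegral_mono_set hsub
    _ ≤ (∫⁻ t in Ioc 0 (0 + 2 * Real.pi), F t) +
        ∫⁻ t in Ioc (2 * Real.pi) (2 * Real.pi + 2 * Real.pi), F t := lintegral_union_le _ _ _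
    _ = 2 * ∫⁻ t in Ioc (-Real.pi) (-Real.pi + 2 * Real.pi), F t := by
        rw [key 0 (-Real.pi), key (2 * Real.pi) (-Real.pi)]
        exact (two_mul _).symm
    _ = 2 * ∫⁻ t in Ioo (-Real.pi) Real.pi, F t := by
        have : -Real.pi + 2 * Real.pi = Real.pi := by ring
        rw [this, restrict_Ioo_eq_restrict_Ioc]

/-- Cauchy-Schwarz on a set of finite measure -/
theorem LB_CS {s : Set ℝ} {f : ℝ → ℝ≥0∞} (hf : Measurable f) :
    (∫⁻ t in s, f t) ^ 2 ≤ volume s * ∫⁻ t in s, f t ^ 2 := by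
  have h := ENNReal.lintegral_mul_le_Lp_mul_Lq (volume.restrict s)
    (Real.HolderConjugate.two_two) (f := fun _ => 1) (g := f) aemeasurable_const hf.aemeasurable
  simp only [Pi.mul_apply, one_mul, lintegral_const, Measure.restrict_apply,
    MeasurableSet.univ, univ_inter, ENNReal.rpow_two, one_pow] at h
  calc (∫⁻ t in s, f t) ^ 2 ≤ (volume s ^ (1 / (2:ℝ)) * (∫⁻ t in s, f t ^ 2) ^ (1 / (2:ℝ))) ^ 2 :=
        pow_le_pow_left' h 2
    _ = volume s * ∫⁻ t in s, f t ^ 2 := by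
        rw [mul_pow]
        congr 1 <;> rw [← ENNReal.rpow_natCast, ← ENNReal.rpow_mul] <;> norm_num

/-- the logarithmic integral diverges -/
theorem LB_log {c r₁ : ℝ} (hc : 0 < c) (hr₁ : 0 < r₁) :
    ∫⁻ r in Ioo 0 r₁, ENNReal.ofReal (c * r⁻¹) = ∞ := by
  by_contra hne
  have h1 : IntegrableOn (fun r : ℝ => c * r⁻¹) (Ioo 0 r₁) := by
    refine ⟨by fun_prop, ?_⟩
    rw [hasFiniteIntegral_iff_norm]
    have : ∫⁻ r in Ioo 0 r₁, ENNReal.ofReal ‖c * r⁻¹‖ = ∫⁻ r in Ioo 0 r₁, ENNReal.ofReal (c * r⁻¹) := by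
      refine setLIntegral_congr_fun measurableSet_Ioo (fun r hr => ?_)
      have : 0 < c * r⁻¹ := mul_pos hc (inv_pos.2 hr.1)
      simp only [Real.norm_of_nonneg this.le]
    rw [this]
    exact lt_top_iff_ne_top.2 hne
  have h2 : IntegrableOn (fun r : ℝ => r⁻¹) (Ioo 0 r₁) := by
    have h2' : IntegrableOn (fun r : ℝ => c⁻¹ * (c * r⁻¹)) (Ioo 0 r₁) := h1.const_mul c⁻¹
    refine h2'.congr_fun (fun r _ => ?_) measurableSet_Ioo
    simp only
    rw [← mul_assoc, inv_mul_cancel₀ hc.ne', one_mul]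
  have h3 : IntervalIntegrable (fun r : ℝ => r⁻¹) volume 0 r₁ := by
    rw [intervalIntegrable_iff_integrableOn_Ioo_of_le hr₁.le]
    exact h2
  rw [intervalIntegrable_inv_iff] at h3
  rcases h3 with h3 | h3
  · exact hr₁.ne h3
  · exact h3 left_mem_uIcc

theorem short_circle {Ω : Set ℂ} (hΩ : IsOpen Ω) {u : ℂ → ℂ} (hu : DifferentiableOn ℂ u Ω)
    (hi : InjOn u Ω) (hm : MapsTo u Ω (ball 0 1)) (w₀ : ℂ) {η r₁ : ℝ} (hη : 0 < η) (hr₁ : 0 < r₁) :
    ∃ r, 0 < r ∧ r < r₁ ∧
      (∫⁻ t in {t : ℝ | t ∈ Ioo 0 (4 * Real.pi) ∧ circleMap w₀ r t ∈ Ω},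
        ENNReal.ofReal (r * ‖deriv u (circleMap w₀ r t)‖)) ≤ ENNReal.ofReal η := by
  by_contra hcon
  push Not at hcon
  have hpi := Real.pi_pos
  -- lower bound for the inner integral
  have key : ∀ r ∈ Ioo 0 r₁, ENNReal.ofReal (η ^ 2 / (8 * Real.pi) * r⁻¹) ≤
      ENNReal.ofReal r * ∫⁻ t in Ioo (-Real.pi) Real.pi, LB_G Ω u (circleMap w₀ r t) := by
    intro r hr
    have hr0 : 0 < r := hr.1
    have h1 := hcon r hr.1 hr.2
    set T : Set ℝ := {t : ℝ | t ∈ Ioo 0 (4 * Real.pi) ∧ circleMap w₀ r t ∈ Ω} with hT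
    have hTm : MeasurableSet {t : ℝ | circleMap w₀ r t ∈ Ω} :=
      (hΩ.preimage (continuous_circleMap w₀ r)).measurableSet
    set f : ℝ → ℝ≥0∞ := fun t => ENNReal.ofReal (r * ‖deriv u (circleMap w₀ r t)‖) with hf
    have hfm : Measurable f := by
      have := (measurable_deriv u).comp (continuous_circleMap w₀ r).measurable
      exact ((this.norm).const_mul r).ennreal_ofReal
    have h2 : ENNReal.ofReal (η ^ 2) ≤ (∫⁻ t in T, f t) ^ 2 := by
      rw [ENNReal.ofReal_pow hη.le]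
      exact pow_le_pow_left' h1.le 2
    have h3 := LB_CS (s := T) hfm
    have h4 : volume T ≤ ENNReal.ofReal (4 * Real.pi) := by
      refine (measure_mono (fun t ht => ht.1)).trans ?_
      rw [Real.volume_Ioo, sub_zero]
    have h5 : ∫⁻ t in T, f t ^ 2 = ENNReal.ofReal (r ^ 2) *
        ∫⁻ t in Ioo 0 (4 * Real.pi), LB_G Ω u (circleMap w₀ r t) := by
      have hTe : T = {t : ℝ | circleMap w₀ r t ∈ Ω} ∩ Ioo 0 (4 * Real.pi) := by
        ext t; simp [hT, and_comm]
      rw [← lintegral_const_mul]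
      · rw [hTe, ← Measure.restrict_restrict hTm, ← lintegral_indicator hTm]
        refine lintegral_congr fun t => ?_
        by_cases ht : circleMap w₀ r t ∈ Ω
        · have ht' : t ∈ {t : ℝ | circleMap w₀ r t ∈ Ω} := ht
          rw [indicator_of_mem ht', LB_G, indicator_of_mem ht, hf]
          simp only
          rw [← ENNReal.ofReal_pow (by positivity), mul_pow, ENNReal.ofReal_mul (by positivity)]
        · have ht' : t ∉ {t : ℝ | circleMap w₀ r t ∈ Ω} := ht
          rw [indicator_of_notMem ht', LB_G, indicator_of_notMem ht, mul_zero]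
      · exact (LB_G_meas hΩ u).comp (continuous_circleMap w₀ r).measurable
    have h6 : ∫⁻ t in Ioo 0 (4 * Real.pi), LB_G Ω u (circleMap w₀ r t) ≤
        2 * ∫⁻ t in Ioo (-Real.pi) Real.pi, LB_G Ω u (circleMap w₀ r t) := by
      refine LB_twice (F := fun t => LB_G Ω u (circleMap w₀ r t)) ?_
      intro t
      simp only [periodic_circleMap w₀ r t]
    set A := ∫⁻ t in Ioo (-Real.pi) Real.pi, LB_G Ω u (circleMap w₀ r t) with hA
    have h7 : ENNReal.ofReal (η ^ 2) ≤
        ENNReal.ofReal (4 * Real.pi) * (ENNReal.ofReal (r ^ 2) * (2 * A)) := by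
      refine h2.trans (h3.trans ?_)
      rw [h5]
      gcongr
    have h8 : ENNReal.ofReal (η ^ 2) ≤ ENNReal.ofReal (8 * Real.pi * r) * (ENNReal.ofReal r * A) := by
      refine h7.trans (le_of_eq ?_)
      have e1 : ENNReal.ofReal (8 * Real.pi * r) = ENNReal.ofReal (4 * Real.pi) * 2 * ENNReal.ofReal r := by
        rw [show (2:ℝ≥0∞) = ENNReal.ofReal 2 by simp, ← ENNReal.ofReal_mul (by positivity),
          ← ENNReal.ofReal_mul (by positivity)]
        congr 1; ring
      have e2 : ENNReal.ofReal (r ^ 2) = ENNReal.ofReal r * ENNReal.ofReal r := by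
        rw [sq, ENNReal.ofReal_mul hr0.le]
      rw [e1, e2]; ring
    have hpos : 0 < 8 * Real.pi * r := by positivity
    have e3 : η ^ 2 / (8 * Real.pi) * r⁻¹ = η ^ 2 / (8 * Real.pi * r) := by
      field_simp
    rw [e3, ENNReal.ofReal_div_of_pos hpos]
    refine ENNReal.div_le_of_le_mul ?_
    rw [mul_comm]
    exact h8
  have h9 : ∫⁻ r in Ioo 0 r₁, ENNReal.ofReal (η ^ 2 / (8 * Real.pi) * r⁻¹) ≤ ENNReal.ofReal Real.pi := by
    calc ∫⁻ r in Ioo 0 r₁, ENNReal.ofReal (η ^ 2 / (8 * Real.pi) * r⁻¹)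
        ≤ ∫⁻ r in Ioo 0 r₁, ENNReal.ofReal r *
            ∫⁻ t in Ioo (-Real.pi) Real.pi, LB_G Ω u (circleMap w₀ r t) :=
          setLIntegral_mono' measurableSet_Ioo key
      _ ≤ ∫⁻ r in Ioi 0, ENNReal.ofReal r *
            ∫⁻ t in Ioo (-Real.pi) Real.pi, LB_G Ω u (circleMap w₀ r t) :=
          lintegral_mono_set (fun r hr => hr.1)
      _ = ∫⁻ z, LB_G Ω u z := LB_polar hΩ u w₀
      _ ≤ ENNReal.ofReal Real.pi := LB_area hΩ hu hi hm
  rw [LB_log (by positivity) hr₁] at h9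
  exact absurd h9 (by simp)

end DS

end S_H36_DS_LB

section S_H36_DS_LC

/-!
LC.  `norm_u_tendsto`: the inverse Riemann map `u w = v w⁻¹` on `Kᶜ` tends to the unit circle at `K`.
Proof: otherwise there are `w n ∈ Kᶜ`, `w n → w' ∈ K` with `u (w n)` in a compact subset of the disc; pass to
a subsequence `u (w n) → z ∈ ball 0 1`; then `(w n)⁻¹ = ψ (u (w n)) → ψ z ∈ extDom K`.  If `w' = 0` then
`‖(w n)⁻¹‖ → ∞`, contradiction; otherwise `ψ z = w'⁻¹`, which is not in `extDom K`.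
`depth`: if the circle about `w₀` of radius `r` meets `K` and the image under `u` of its part outside `K` has length
`≤ η` then this image lies within `η` of the unit circle.  Proof: let `t ∈ T`, `t₀ ∈ Ioo 0 (4π)` with
`circleMap w₀ r t₀ ∈ K`; say `t < t₀` (the other case is symmetric); let `t₁` be the first parameter after `t` with
`circleMap w₀ r t₁ ∈ K`; `[t, t₁) ⊆ T`, and for `s ∈ [t, t₁)`
`‖u (c s) - u (c t)‖ ≤ ∫_t^s r ‖u'‖ ≤ η`; let `s → t₁`, `‖u (c s)‖ → 1`.
(`0 ∈ K`, so `w ≠ 0` on `Kᶜ` and `u` is holomorphic there.)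
-/

namespace DS
open Metric Set Filter Topology MeasureTheory

theorem LC_mem {K : Set ℂ} {w : ℂ} (hw : w ∉ K) : w⁻¹ ∈ extDom K := by
  right
  rw [inv_inv]; exact hw

theorem norm_u_tendsto {K : Set ℂ} (hK : IsCompact K) (h0 : (0:ℂ) ∈ K) {ψ v : ℂ → ℂ}
    (hE : ExtMap K ψ v) {w' : ℂ} (hw : w' ∈ K) :
    Tendsto (fun w => ‖v w⁻¹‖) (𝓝[Kᶜ] w') (𝓝 1) := by
  have hlt : ∀ w ∈ Kᶜ, ‖v w⁻¹‖ < 1 := by
    intro w hw
    have := hE.mv (LC_mem hw)
    simpa using this
  rw [Metric.tendsto_nhds]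
  intro ε hε
  -- the compact set
  have hC : IsCompact (closedBall (0:ℂ) (1 - ε)) := isCompact_closedBall _ _
  have hCb : closedBall (0:ℂ) (1 - ε) ⊆ ball 0 1 := closedBall_subset_ball (by linarith)
  have hψC : IsCompact (ψ '' closedBall (0:ℂ) (1 - ε)) :=
    hC.image_of_continuousOn (hE.dψ.continuousOn.mono hCb)
  have key : ∀ᶠ w in 𝓝[Kᶜ] w', w⁻¹ ∉ ψ '' closedBall (0:ℂ) (1 - ε) := by
    by_cases hw0 : w' = 0
    · subst hw0
      have h1 : Tendsto (fun w : ℂ => w⁻¹) (𝓝[Kᶜ] 0) (Bornology.cobounded ℂ) := by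
        have h2 : (𝓝[Kᶜ] (0:ℂ)) ≤ 𝓝[≠] 0 := by
          apply nhdsWithin_mono
          intro w hw h
          simp only [mem_singleton_iff] at h
          subst h
          exact hw h0
        exact (Filter.tendsto_inv₀_nhdsNE_zero).mono_left h2
      exact h1.eventually (Bornology.isBounded_def.mp hψC.isBounded)
    · have h1 : Tendsto (fun w : ℂ => w⁻¹) (𝓝[Kᶜ] w') (𝓝 w'⁻¹) :=
        (continuousAt_inv₀ hw0).tendsto.mono_left nhdsWithin_le_nhds
      have h2 : w'⁻¹ ∉ ψ '' closedBall (0:ℂ) (1 - ε) := by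
        rintro ⟨z, hz, hzw⟩
        have h3 := hE.mψ (hCb hz)
        rw [hzw] at h3
        rcases h3 with h3 | h3
        · exact hw0 (inv_eq_zero.mp h3)
        · rw [inv_inv] at h3
          exact h3 hw
      exact h1.eventually (hψC.isClosed.isOpen_compl.mem_nhds h2)
  filter_upwards [key, self_mem_nhdsWithin] with w hw1 hw2
  rw [Real.dist_eq, abs_sub_comm, abs_of_pos (by linarith [hlt w hw2])]
  by_contra hcon
  push Not at hcon
  apply hw1
  refine ⟨v w⁻¹, ?_, hE.ψv _ (LC_mem hw2)⟩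
  rw [mem_closedBall_zero_iff]
  linarith

theorem LC_step {K : Set ℂ} (hK : IsCompact K) (h0 : (0:ℂ) ∈ K) {ψ v : ℂ → ℂ}
    (hE : ExtMap K ψ v) {w₀ : ℂ} {r η : ℝ} (hr : 0 < r) (hη : 0 < η)
    (hint : (∫⁻ t in {t : ℝ | t ∈ Ioo 0 (4 * Real.pi) ∧ circleMap w₀ r t ∈ Kᶜ},
        ENNReal.ofReal (r * ‖deriv (fun w => v w⁻¹) (circleMap w₀ r t)‖)) ≤ ENNReal.ofReal η)
    {a b : ℝ} (hab : a ≤ b) (ha : 0 < a) (hb : b < 4 * Real.pi)
    (hI : ∀ s ∈ Icc a b, circleMap w₀ r s ∉ K) :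
    ‖v (circleMap w₀ r b)⁻¹ - v (circleMap w₀ r a)⁻¹‖ ≤ η := by
  have hKo : IsOpen Kᶜ := hK.isClosed.isOpen_compl
  have hext : IsOpen (extDom K) := by
    rw [isOpen_iff_mem_nhds]
    intro w hw
    by_cases hw0 : w = 0
    · subst hw0
      -- near zero: w⁻¹ is large
      have h2 : ∀ᶠ w in 𝓝[≠] (0:ℂ), w⁻¹ ∈ Kᶜ :=
        (Filter.tendsto_inv₀_nhdsNE_zero).eventually (Bornology.isBounded_def.mp hK.isBounded)
      rw [eventually_nhdsWithin_iff] at h2
      filter_upwards [h2] with w hw2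
      by_cases h : w = 0
      · left; exact h
      · right; exact hw2 h
    · have h2 : w⁻¹ ∈ Kᶜ := by
        rcases hw with h | h
        · exact absurd h hw0
        · exact h
      have h3 := (continuousAt_inv₀ hw0).tendsto.eventually (hKo.mem_nhds h2)
      filter_upwards [h3] with x hx
      right; exact hx
  have hud : DifferentiableOn ℂ (fun w : ℂ => v w⁻¹) Kᶜ := by
    intro w hw
    have hw0 : w ≠ 0 := by rintro rfl; exact hw h0
    have h1 : DifferentiableAt ℂ v w⁻¹ := hE.dv.differentiableAt (hext.mem_nhds (LC_mem hw))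
    have h2 : DifferentiableAt ℂ (fun w : ℂ => w⁻¹) w := differentiableAt_inv hw0
    exact (DifferentiableAt.comp w h1 h2).differentiableWithinAt
  set u : ℂ → ℂ := fun w => v w⁻¹ with hu
  have hdu : ContinuousOn (deriv u) Kᶜ := (hud.deriv hKo).continuousOn
  -- derivative along the circle
  have hder : ∀ s ∈ uIcc a b, HasDerivAt (fun s : ℝ => u (circleMap w₀ r s))
      (deriv u (circleMap w₀ r s) * (circleMap 0 r s * Complex.I)) s := by
    intro s hs
    rw [uIcc_of_le hab] at hs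
    have h1 : HasDerivAt u (deriv u (circleMap w₀ r s)) (circleMap w₀ r s) :=
      (hud.differentiableAt (hKo.mem_nhds (hI s hs))).hasDerivAt
    have h2 := hasDerivAt_circleMap w₀ r s
    exact h1.comp_of_eq s h2 rfl
  have hcont : ContinuousOn (fun s : ℝ => deriv u (circleMap w₀ r s) * (circleMap 0 r s * Complex.I))
      (uIcc a b) := by
    rw [uIcc_of_le hab]
    apply ContinuousOn.mul
    · exact hdu.comp (continuous_circleMap w₀ r).continuousOn (fun s hs => hI s hs)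
    · exact ((continuous_circleMap 0 r).mul continuous_const).continuousOn
  have hint2 : IntervalIntegrable
      (fun s : ℝ => deriv u (circleMap w₀ r s) * (circleMap 0 r s * Complex.I)) volume a b :=
    hcont.intervalIntegrable
  have hftc := intervalIntegral.integral_eq_sub_of_hasDerivAt hder hint2
  have h3 : v (circleMap w₀ r b)⁻¹ - v (circleMap w₀ r a)⁻¹ =
      ∫ s in a..b, deriv u (circleMap w₀ r s) * (circleMap 0 r s * Complex.I) := by
    rw [hftc]
  rw [h3, intervalIntegral.integral_of_le hab]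
  refine (norm_integral_le_lintegral_norm _).trans ?_
  apply ENNReal.toReal_le_of_le_ofReal hη.le
  refine le_trans ?_ hint
  refine le_trans (lintegral_mono_set (s := Ioc a b)
    (t := {t : ℝ | t ∈ Ioo 0 (4 * Real.pi) ∧ circleMap w₀ r t ∈ Kᶜ}) ?_) ?_
  · intro s hs
    exact ⟨⟨ha.trans hs.1, lt_of_le_of_lt hs.2 hb⟩, hI s ⟨hs.1.le, hs.2⟩⟩
  · apply le_of_eq
    congr 1
    ext s
    congr 1
    rw [norm_mul, norm_mul, norm_circleMap_zero, Complex.norm_I, mul_one, abs_of_pos hr, mul_comm]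

theorem depth {K : Set ℂ} (hK : IsCompact K) (h0 : (0:ℂ) ∈ K) {ψ v : ℂ → ℂ}
    (hE : ExtMap K ψ v) {w₀ : ℂ} {r η : ℝ} (hr : 0 < r) (hη : 0 < η)
    (hint : (∫⁻ t in {t : ℝ | t ∈ Ioo 0 (4 * Real.pi) ∧ circleMap w₀ r t ∈ Kᶜ},
        ENNReal.ofReal (r * ‖deriv (fun w => v w⁻¹) (circleMap w₀ r t)‖)) ≤ ENNReal.ofReal η)
    (hmeet : ∃ t₀ ∈ Ioo (0:ℝ) (4 * Real.pi), circleMap w₀ r t₀ ∈ K) :
    ∀ t ∈ Ioo (0:ℝ) (4 * Real.pi), circleMap w₀ r t ∉ K → 1 - η ≤ ‖v (circleMap w₀ r t)⁻¹‖ := by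
  obtain ⟨t₀, ht₀, hc₀⟩ := hmeet
  intro t ht hct
  have hcl : IsClosed {s : ℝ | circleMap w₀ r s ∈ K} :=
    hK.isClosed.preimage (continuous_circleMap w₀ r)
  have hne : t ≠ t₀ := by rintro rfl; exact hct hc₀
  -- limit argument, common to both cases
  have hlim : ∀ (S : Set ℝ) (t₁ : ℝ), circleMap w₀ r t₁ ∈ K → (𝓝[S] t₁).NeBot →
      (∀ s ∈ S, circleMap w₀ r s ∉ K) →
      (∀ s ∈ S, ‖v (circleMap w₀ r s)⁻¹ - v (circleMap w₀ r t)⁻¹‖ ≤ η) →
      1 - η ≤ ‖v (circleMap w₀ r t)⁻¹‖ := by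
    intro S t₁ ht₁ hnb hS1 hS2
    have h1 : Tendsto (fun s => circleMap w₀ r s) (𝓝[S] t₁) (𝓝[Kᶜ] (circleMap w₀ r t₁)) := by
      apply tendsto_nhdsWithin_iff.mpr
      refine ⟨(continuous_circleMap w₀ r).continuousAt.tendsto.mono_left nhdsWithin_le_nhds, ?_⟩
      filter_upwards [self_mem_nhdsWithin] with s hs using hS1 s hs
    have h2 := (norm_u_tendsto hK h0 hE ht₁).comp h1
    have h3 : ∀ᶠ s in 𝓝[S] t₁, ((fun w => ‖v w⁻¹‖) ∘ fun s => circleMap w₀ r s) s ≤
        ‖v (circleMap w₀ r t)⁻¹‖ + η := by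
      filter_upwards [self_mem_nhdsWithin] with s hs
      have h4 := hS2 s hs
      have h5 := norm_sub_norm_le (v (circleMap w₀ r s)⁻¹) (v (circleMap w₀ r t)⁻¹)
      simp only [Function.comp]
      linarith
    have h4 := le_of_tendsto h2 h3
    linarith
  rcases lt_or_gt_of_ne hne with hlt | hgt
  · -- t < t₀
    let A : Set ℝ := {s : ℝ | circleMap w₀ r s ∈ K} ∩ Icc t t₀
    have hAc : IsClosed A := hcl.inter isClosed_Icc
    have hAne : A.Nonempty := ⟨t₀, hc₀, hlt.le, le_rfl⟩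
    have hAb : BddBelow A := ⟨t, fun s hs => hs.2.1⟩
    have hmem : sInf A ∈ A := hAc.csInf_mem hAne hAb
    have ht1 : t < sInf A := by
      rcases lt_or_eq_of_le hmem.2.1 with h | h
      · exact h
      · exfalso; apply hct; rw [h]; exact hmem.1
    have hS1 : ∀ s ∈ Ico t (sInf A), circleMap w₀ r s ∉ K := by
      intro s hs hcon
      have : s ∈ A := ⟨hcon, hs.1, hs.2.le.trans hmem.2.2⟩
      exact absurd (csInf_le hAb this) (not_le.mpr hs.2)
    refine hlim (Ico t (sInf A)) (sInf A) hmem.1 ?_ hS1 ?_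
    · rw [nhdsWithin_Ico_eq_nhdsLT ht1]
      infer_instance
    · intro s hs
      apply LC_step hK h0 hE hr hη hint hs.1 ht.1 (lt_of_lt_of_le hs.2 (hmem.2.2.trans ht₀.2.le))
      intro x hx
      exact hS1 x ⟨hx.1, lt_of_le_of_lt hx.2 hs.2⟩
  · -- t₀ < t
    let A : Set ℝ := {s : ℝ | circleMap w₀ r s ∈ K} ∩ Icc t₀ t
    have hAc : IsClosed A := hcl.inter isClosed_Icc
    have hAne : A.Nonempty := ⟨t₀, hc₀, le_rfl, hgt.le⟩
    have hAb : BddAbove A := ⟨t, fun s hs => hs.2.2⟩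
    have hmem : sSup A ∈ A := hAc.csSup_mem hAne hAb
    have ht1 : sSup A < t := by
      rcases lt_or_eq_of_le hmem.2.2 with h | h
      · exact h
      · exfalso; apply hct; rw [← h]; exact hmem.1
    have hS1 : ∀ s ∈ Ioc (sSup A) t, circleMap w₀ r s ∉ K := by
      intro s hs hcon
      have : s ∈ A := ⟨hcon, hmem.2.1.trans hs.1.le, hs.2⟩
      exact absurd (le_csSup hAb this) (not_le.mpr hs.1)
    refine hlim (Ioc (sSup A) t) (sSup A) hmem.1 ?_ hS1 ?_
    · rw [nhdsWithin_Ioc_eq_nhdsGT ht1]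
      infer_instance
    · intro s hs
      rw [norm_sub_rev]
      apply LC_step hK h0 hE hr hη hint hs.2 (lt_of_le_of_lt (ht₀.1.le.trans hmem.2.1) hs.1) ht.2
      intro x hx
      exact hS1 x ⟨lt_of_lt_of_le hs.1 hx.1, hx.2⟩

end DS

end S_H36_DS_LC

section S_H36_DS_LD

/-!
LD (good rays).  Proof.  Suppose every `θ ∈ Ioo α β` is hit by some `t ∈ T`.  Let `m = (α + β) / 2`,
`T' = {t ∈ T | 0 < re (c t * exp (-m I))}` (open) and `f t = arg (c t * exp (-m I))`; on `T'` it is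
differentiable with `|f'| ≤ ‖c'‖ / ‖c‖ ≤ 2 ‖c'‖`.  If `c t = s * exp (θ I)`, `s > 0`, `θ ∈ Ioo α β`, then
`|θ - m| < π/2`, so `t ∈ T'` and `f t = θ - m`: hence `Ioo (α - m) (β - m) ⊆ f '' T'`.  In one dimension
`volume (f '' T') ≤ ∫⁻ t in T', |f'|` (`MeasureTheory.addHaar_image_le_lintegral_abs_det_fderiv`), so
`β - α ≤ 2 η`, a contradiction.
-/

namespace DS
open Metric Set Filter Topology MeasureTheory

theorem LD_key (w : ℂ) (d : ℂ) (hd : 1 / 2 ≤ ‖w‖) : |(d / w).im| ≤ 2 * ‖d‖ := by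
  have hw : 0 < ‖w‖ := by linarith
  calc |(d / w).im| ≤ ‖d / w‖ := Complex.abs_im_le_norm _
    _ = ‖d‖ / ‖w‖ := norm_div _ _
    _ ≤ 2 * ‖d‖ := by
        rw [div_le_iff₀ hw]
        nlinarith [norm_nonneg d]

theorem good_ray {T : Set ℝ} (hT : IsOpen T) {c c' : ℝ → ℂ} (hc : ∀ t ∈ T, HasDerivAt c (c' t) t)
    (hc' : ContinuousOn c' T)
    (hn : ∀ t ∈ T, 1 / 2 ≤ ‖c t‖) {η : ℝ} (hη : 0 < η)
    (hint : (∫⁻ t in T, ENNReal.ofReal ‖c' t‖) ≤ ENNReal.ofReal η)
    {α β : ℝ} (hαβ : 2 * η < β - α) (hβ : β - α ≤ Real.pi) :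
    ∃ θ ∈ Ioo α β, ∀ t ∈ T, ∀ s : ℝ, 0 < s → c t ≠ s * Complex.exp (θ * Complex.I) := by
  by_contra hcon
  push Not at hcon
  set m : ℝ := (α + β) / 2 with hm
  set e : ℂ := Complex.exp ((-m : ℝ) * Complex.I) with he
  have hen : ‖e‖ = 1 := Complex.norm_exp_ofReal_mul_I _
  have hcc : ContinuousOn (fun t => c t * e) T := fun t ht =>
    ((hc t ht).continuousAt.mul continuousAt_const).continuousWithinAt
  set T' : Set ℝ := T ∩ (fun t => c t * e) ⁻¹' {z | 0 < z.re} with hT'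
  have hT'o : IsOpen T' := hcc.isOpen_inter_preimage hT (isOpen_lt continuous_const
    Complex.continuous_re)
  have hne : ∀ t ∈ T, c t * e ≠ 0 := by
    intro t ht h
    have := hn t ht
    have h2 : ‖c t * e‖ = 0 := by rw [h, norm_zero]
    rw [norm_mul, hen, mul_one] at h2
    linarith
  set f : ℝ → ℝ := fun t => (Complex.log (c t * e)).im with hf
  set f' : ℝ → ℝ := fun t => ((c' t * e) / (c t * e)).im with hf'
  have hder : ∀ t ∈ T', HasDerivAt f (f' t) t := by
    intro t ht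
    have h1 : HasDerivAt (fun t => c t * e) (c' t * e) t := (hc t ht.1).mul_const e
    have h2 : HasDerivAt (fun t => Complex.log (c t * e)) ((c' t * e) / (c t * e)) t :=
      h1.clog_real (Or.inl ht.2)
    exact (Complex.imCLM.hasFDerivAt.comp_hasDerivAt t h2)
  have hvol := addHaar_image_le_lintegral_abs_det_fderiv (μ := volume) (s := T') (f := f)
    (f' := fun t => ContinuousLinearMap.toSpanSingleton ℝ (f' t)) hT'o.measurableSet
    (fun t ht => (hder t ht).hasFDerivAt.hasFDerivWithinAt)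
  simp only [ContinuousLinearMap.det_toSpanSingleton] at hvol
  have hsub : Ioo (α - m) (β - m) ⊆ f '' T' := by
    intro θ hθ
    obtain ⟨t, ht, s, hs, hts⟩ := hcon (θ + m) ⟨by linarith [hθ.1], by linarith [hθ.2]⟩
    have h3 : c t * e = s * (Complex.cos θ + Complex.sin θ * Complex.I) := by
      rw [hts, he, mul_assoc, ← Complex.exp_add, ← Complex.exp_mul_I]
      congr 2
      push_cast
      ring
    have hθ1 : -(Real.pi / 2) < θ := by linarith [hθ.1]
    have hθ2 : θ < Real.pi / 2 := by linarith [hθ.2]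
    refine ⟨t, ⟨ht, ?_⟩, ?_⟩
    · show 0 < (c t * e).re
      rw [h3, Complex.re_ofReal_mul, ← Complex.ofReal_cos, ← Complex.ofReal_sin]
      simp only [Complex.add_re, Complex.ofReal_re, Complex.mul_re, Complex.I_re, Complex.ofReal_im,
        Complex.I_im, mul_zero, zero_mul, sub_zero, add_zero]
      exact mul_pos hs (Real.cos_pos_of_mem_Ioo ⟨hθ1, hθ2⟩)
    · show (Complex.log (c t * e)).im = θ
      rw [Complex.log_im, h3]
      exact Complex.arg_mul_cos_add_sin_mul_I hs ⟨by linarith [Real.pi_pos], by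
        linarith [Real.pi_pos]⟩
  have h4 : volume (Ioo (α - m) (β - m)) ≤ ENNReal.ofReal (2 * η) := by
    refine (measure_mono hsub).trans (hvol.trans ?_)
    have h5 : (∫⁻ t in T', ENNReal.ofReal |f' t|) ≤ ∫⁻ t in T', 2 * ENNReal.ofReal ‖c' t‖ := by
      refine setLIntegral_mono' hT'o.measurableSet fun t ht => ?_
      have h6 : |f' t| ≤ 2 * ‖c' t‖ := by
        have h7 : f' t = (c' t / c t).im := by
          show ((c' t * e) / (c t * e)).im = _
          rw [mul_div_mul_right]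
          intro h0
          rw [h0, norm_zero] at hen
          exact zero_ne_one hen
        rw [h7]
        exact LD_key _ _ (hn t ht.1)
      refine (ENNReal.ofReal_le_ofReal h6).trans ?_
      rw [ENNReal.ofReal_mul (by norm_num)]
      simp
    refine h5.trans ?_
    rw [lintegral_const_mul' _ _ (by simp), ENNReal.ofReal_mul (by norm_num)]
    refine mul_le_mul' (by simp) ?_
    exact (lintegral_mono_set inter_subset_left).trans hint
  rw [Real.volume_Ioo, ENNReal.ofReal_le_ofReal_iff (by linarith)] at h4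
  linarith

end DS

end S_H36_DS_LD
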