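import Pool.Agent.H12.KS.K06

/-! Joined modules of the proof of MP_8a27c0_an (one section per module). -/

section S_H36_DS_HA

/-!
HA.  `disc_minus_ball`: the disc minus a closed ball not containing `0` is path connected.  Proof: rotate so that
the centre `p` is real and `≥ 0`.  A point `w` of the set is joined to `-‖w‖` by an arc of the circle `‖·‖ = ‖w‖` along
which the distance to `p` increases (`‖w - p‖² = ‖w‖² + p² - 2 p ‖w‖ cos θ`), and `-‖w‖` is joined to `0` by the segment,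
all of whose points have distance `≥ p > r` from `p`.  `disc_minus_ball'`: the same for the set
`{z | r ≤ dist z p}`; here `r < ‖p‖`.
`arc_connected`: `ball 0 1 ∩ sphere ζ ρ` is an arc for `‖ζ‖ = 1`, `0 < ρ < 2`: `ζ - ζ ρ e^{iθ}` with
`cos θ > ρ / 2`.
-/

namespace DS
open Metric Set Filter Topology

theorem HA_norm_sq (s q a : ℝ) :
    ‖(s : ℂ) * Complex.exp (a * Complex.I) - q‖ ^ 2 = s ^ 2 + q ^ 2 - 2 * s * q * Real.cos a := by
  rw [← Complex.normSq_eq_norm_sq, Complex.exp_mul_I, ← Complex.ofReal_cos, ← Complex.ofReal_sin,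
    Complex.normSq_apply]
  simp only [Complex.sub_re, Complex.re_ofReal_mul, Complex.add_re, Complex.ofReal_re,
    Complex.mul_re, Complex.I_re, mul_zero, Complex.ofReal_im, Complex.I_im, zero_mul, sub_zero,
    add_zero, Complex.sub_im, Complex.im_ofReal_mul, Complex.add_im, Complex.mul_im, mul_one,
    zero_add]
  nlinarith [Real.sin_sq_add_cos_sq a]

theorem HA_mono {s q a b : ℝ} (hs : 0 ≤ s) (hq : 0 ≤ q) (hab : Real.cos b ≤ Real.cos a) :
    ‖(s : ℂ) * Complex.exp (a * Complex.I) - q‖ ≤ ‖(s : ℂ) * Complex.exp (b * Complex.I) - q‖ := by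
  refine le_of_sq_le_sq ?_ (norm_nonneg _)
  rw [HA_norm_sq, HA_norm_sq]
  have := mul_le_mul_of_nonneg_left hab (mul_nonneg hs hq)
  nlinarith

theorem HA_gen {p : ℂ} (hp : p ≠ 0) {P : ℝ → Prop} (hP : ∀ x y, x ≤ y → P x → P y)
    (hPp : P ‖p‖) : IsConnected {z : ℂ | ‖z‖ < 1 ∧ P (dist z p)} := by
  have h0 : (0 : ℂ) ∈ {z : ℂ | ‖z‖ < 1 ∧ P (dist z p)} := by
    refine ⟨by simp, ?_⟩
    rw [dist_zero_left]
    exact hPp
  refine ⟨⟨0, h0⟩, isPreconnected_of_forall 0 fun w hw => ?_⟩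
  have hpn : 0 < ‖p‖ := norm_pos_iff.2 hp
  set ε : ℝ := if 0 ≤ Complex.arg (w / p) then Real.pi else - Real.pi with hε
  set θ : ℝ := Complex.arg (w / p) with hθ
  set g : ℝ → ℂ := fun t => (p / ‖p‖) * ((‖w‖ : ℝ) *
    Complex.exp ((((1 - t) * θ + t * ε : ℝ) : ℂ) * Complex.I)) with hg
  set d : ℝ → ℂ := fun t => (p / ‖p‖) * (-((‖w‖ : ℝ) * (t : ℂ))) with hd
  have hu : ‖p / (‖p‖ : ℂ)‖ = 1 := by
    rw [norm_div, Complex.norm_real, Real.norm_of_nonneg hpn.le, div_self hpn.ne']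
  have hpp : p = (p / (‖p‖ : ℂ)) * (‖p‖ : ℂ) := by
    rw [div_mul_cancel₀]
    exact_mod_cast hpn.ne'
  have hgc : Continuous g := by
    simp only [hg]
    fun_prop
  have hdc : Continuous d := by
    simp only [hd]
    fun_prop
  have hgn : ∀ t, ‖g t‖ = ‖w‖ := by
    intro t
    simp only [hg]
    rw [norm_mul, hu, one_mul, norm_mul, Complex.norm_exp_ofReal_mul_I, mul_one,
      Complex.norm_real, norm_norm]
  have hg0 : g 0 = w := by
    simp only [hg]
    rw [show ((1 - 0) * θ + 0 * ε : ℝ) = θ by ring]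
    have h1 := Complex.norm_mul_exp_arg_mul_I (w / p)
    rw [← hθ, norm_div] at h1
    have h2 : w = (w / p) * p := by rw [div_mul_cancel₀ _ hp]
    conv_rhs => rw [h2, ← h1]
    push_cast
    have : (‖p‖ : ℂ) ≠ 0 := by exact_mod_cast hpn.ne'
    field_simp
  have hgd : ∀ t, dist (g t) p = ‖((‖w‖ : ℝ) : ℂ) *
      Complex.exp ((((1 - t) * θ + t * ε : ℝ) : ℂ) * Complex.I) - (‖p‖ : ℝ)‖ := by
    intro t
    rw [dist_eq_norm]
    conv_lhs => rw [hpp]
    simp only [hg]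
    rw [show ∀ a b c : ℂ, a * b - a * c = a * (b - c) from fun a b c => by ring, norm_mul, hu,
      one_mul]
  have hθ1 : -Real.pi < θ := Complex.neg_pi_lt_arg _
  have hθ2 : θ ≤ Real.pi := Complex.arg_le_pi _
  have hgm : ∀ t ∈ Icc (0 : ℝ) 1, dist (g 0) p ≤ dist (g t) p := by
    intro t ht
    rw [hgd, hgd]
    refine HA_mono (norm_nonneg _) (norm_nonneg _) ?_
    rw [show ((1 - 0) * θ + 0 * ε : ℝ) = θ by ring]
    rw [← Real.cos_abs θ, ← Real.cos_abs ((1 - t) * θ + t * ε)]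
    have hab : |(1 - t) * θ + t * ε| = (1 - t) * |θ| + t * Real.pi := by
      by_cases h : 0 ≤ θ
      · rw [hε, if_pos h, abs_of_nonneg h, abs_of_nonneg]
        exact add_nonneg (mul_nonneg (by linarith [ht.2]) h) (mul_nonneg ht.1 Real.pi_pos.le)
      · rw [hε, if_neg h, abs_of_neg (not_le.1 h), abs_of_nonpos]
        · ring
        · have h1 : (1 - t) * θ ≤ 0 := mul_nonpos_of_nonneg_of_nonpos (by linarith [ht.2])
            (not_le.1 h).le
          have h2 : 0 ≤ t * Real.pi := mul_nonneg ht.1 Real.pi_pos.le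
          linarith
    have hθa : |θ| ≤ Real.pi := abs_le.2 ⟨by linarith, hθ2⟩
    rw [hab]
    refine Real.cos_le_cos_of_nonneg_of_le_pi (abs_nonneg _) ?_ ?_
    · nlinarith [ht.1, ht.2]
    · nlinarith [ht.1, ht.2]
  have hg1 : g 1 = d 1 := by
    simp only [hg, hd]
    rw [show ((1 - 1) * θ + 1 * ε : ℝ) = ε by ring]
    have : Complex.exp ((ε : ℂ) * Complex.I) = -1 := by
      by_cases h : 0 ≤ θ
      · rw [hε, if_pos h, Complex.exp_pi_mul_I]
      · rw [hε, if_neg h]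
        push_cast
        rw [neg_mul, Complex.exp_neg, Complex.exp_pi_mul_I]
        norm_num
    rw [this]
    push_cast
    ring
  refine ⟨g '' Icc 0 1 ∪ d '' Icc 0 1, ?_, ?_, ?_, ?_⟩
  · rintro z (⟨t, ht, rfl⟩ | ⟨t, ht, rfl⟩)
    · refine ⟨by rw [hgn]; exact hw.1, hP _ _ (hgm t ht) ?_⟩
      rw [hg0]
      exact hw.2
    · refine ⟨?_, hP _ _ ?_ hPp⟩
      · simp only [hd]
        rw [norm_mul, hu, one_mul, norm_neg, norm_mul, Complex.norm_real, Complex.norm_real,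
          norm_norm, Real.norm_of_nonneg ht.1]
        have := hw.1
        nlinarith [norm_nonneg w, ht.2, ht.1]
      · rw [dist_eq_norm]
        have h3 : d t - p = (p / (‖p‖ : ℂ)) * ((-(‖w‖ * t + ‖p‖) : ℝ) : ℂ) := by
          conv_lhs => rw [hpp]
          simp only [hd]
          push_cast
          rw [← hpp]
          have h4 : p = (p / (‖p‖ : ℂ)) * (‖p‖ : ℂ) := hpp
          linear_combination -h4
        rw [h3, norm_mul, hu, one_mul, Complex.norm_real, norm_neg, Real.norm_of_nonneg]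
        · have := mul_nonneg (norm_nonneg w) ht.1
          linarith
        · have := mul_nonneg (norm_nonneg w) ht.1
          linarith
  · right
    refine ⟨0, by simp, ?_⟩
    simp [hd]
  · left
    exact ⟨0, by simp, hg0⟩
  · refine IsPreconnected.union (g 1) ⟨1, by simp, rfl⟩ ⟨1, by simp, hg1.symm⟩
      (isPreconnected_Icc.image _ hgc.continuousOn) (isPreconnected_Icc.image _ hdc.continuousOn)

theorem disc_minus_ball {p : ℂ} {r : ℝ} (hr : 0 ≤ r) (hp : r < ‖p‖) :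
    IsConnected {z : ℂ | ‖z‖ < 1 ∧ r < dist z p} := by
  have hp0 : p ≠ 0 := by
    rintro rfl
    rw [norm_zero] at hp
    linarith
  exact HA_gen (P := fun x => r < x) hp0 (fun x y h h' => lt_of_lt_of_le h' h) hp

theorem disc_minus_ball' {p : ℂ} {r : ℝ} (hr : 0 ≤ r) (hp : r < ‖p‖) :
    IsConnected {z : ℂ | ‖z‖ < 1 ∧ r ≤ dist z p} := by
  have hp0 : p ≠ 0 := by
    rintro rfl
    rw [norm_zero] at hp
    linarith
  exact HA_gen (P := fun x => r ≤ x) hp0 (fun x y h h' => le_trans h' h) hp.le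

theorem arc_connected {ζ : ℂ} (hζ : ‖ζ‖ = 1) {ρ : ℝ} (hρ : 0 < ρ) (hρ2 : ρ < 2) :
    IsConnected {z : ℂ | ‖z‖ < 1 ∧ dist z ζ = ρ} := by
  set g : ℝ → ℂ := fun t => -ζ * ((ρ : ℂ) * Complex.exp ((t : ℂ) * Complex.I) - ((1 : ℝ) : ℂ))
    with hg
  have hζ0 : ζ ≠ 0 := by
    rintro rfl
    rw [norm_zero] at hζ
    exact zero_ne_one hζ
  have hgc : Continuous g := by
    simp only [hg]
    fun_prop
  have hgn : ∀ t, ‖g t‖ ^ 2 = ρ ^ 2 + 1 - 2 * ρ * Real.cos t := by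
    intro t
    simp only [hg]
    rw [norm_mul, norm_neg, hζ, one_mul, HA_norm_sq]
    ring
  have hgd : ∀ t, dist (g t) ζ = ρ := by
    intro t
    rw [dist_eq_norm]
    have : g t - ζ = -ζ * ((ρ : ℂ) * Complex.exp ((t : ℂ) * Complex.I)) := by
      simp only [hg]
      push_cast
      ring
    rw [this, norm_mul, norm_neg, hζ, one_mul, norm_mul, Complex.norm_exp_ofReal_mul_I, mul_one,
      Complex.norm_real, Real.norm_of_nonneg hρ.le]
  have hlt : ∀ t, ‖g t‖ < 1 ↔ ρ / 2 < Real.cos t := by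
    intro t
    rw [← sq_lt_one_iff₀ (norm_nonneg _), hgn]
    constructor
    · intro h
      nlinarith
    · intro h
      nlinarith
  have harc : 0 < Real.arccos (ρ / 2) := Real.arccos_pos.2 (by linarith)
  have heq : {z : ℂ | ‖z‖ < 1 ∧ dist z ζ = ρ} =
      g '' Ioo (-(Real.arccos (ρ / 2))) (Real.arccos (ρ / 2)) := by
    ext z
    constructor
    · rintro ⟨hz1, hz2⟩
      set u : ℂ := (ζ - z) / ζ with hu
      have hun : ‖u‖ = ρ := by
        rw [hu, norm_div, hζ, div_one, ← dist_eq_norm, dist_comm]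
        exact hz2
      have h1 := Complex.norm_mul_exp_arg_mul_I u
      rw [hun] at h1
      have h2 : g (Complex.arg u) = z := by
        simp only [hg]
        rw [h1, hu]
        field_simp
        push_cast
        ring
      refine ⟨Complex.arg u, ?_, h2⟩
      have h3 : ρ / 2 < Real.cos (Complex.arg u) := by
        rw [← hlt, h2]
        exact hz1
      rw [← Real.cos_abs] at h3
      have h4 : |Complex.arg u| ≤ Real.pi := Complex.abs_arg_le_pi u
      have h5 : Real.arccos (Real.cos |Complex.arg u|) < Real.arccos (ρ / 2) :=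
        Real.strictAntiOn_arccos ⟨by linarith, by linarith⟩
          ⟨Real.neg_one_le_cos _, Real.cos_le_one _⟩ h3
      rw [Real.arccos_cos (abs_nonneg _) h4] at h5
      exact abs_lt.1 h5
    · rintro ⟨t, ht, rfl⟩
      refine ⟨?_, hgd t⟩
      rw [hlt, ← Real.cos_abs]
      have h5 : |t| < Real.arccos (ρ / 2) := abs_lt.2 ht
      have h6 := Real.cos_lt_cos_of_nonneg_of_le_pi (abs_nonneg t) (Real.arccos_le_pi _) h5
      rwa [Real.cos_arccos (by linarith) (by linarith)] at h6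
  rw [heq]
  exact (isConnected_Ioo (by linarith)).image _ hgc.continuousOn

end DS

end S_H36_DS_HA

section S_H36_DS_PE

/-!
PE.  General facts about `FixPE`.
`fix_conn`, `fix_logs`: `W = φ '' ball 0 1` (by `φu`), use `allLogs_of_homeo`.
`fix_escape`: if `w n ∈ W`, `w n → 0` and `‖u (w n)‖ ≤ 1 - ε`, a subsequence of `u (w n)` tends to some `z ∈ ball 0 1`, so
`w n = φ (u (w n)) → φ z ∈ W`, i.e. `0 ∈ W`, contradiction.
`sep_of_ne`: put `T = {z ∈ ball 0 1 | dist z ζ = ρ}`, `D = {z ∈ ball 0 1 | dist z ζ < ρ}`.  `u '' A` is connected and misses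
`T` (`A ∩ φ '' T = ∅`), so it is contained in `D` or in `{z | ‖z‖ < 1, ρ < dist z ζ}`.  If it is contained in `D`, then
`{z | ‖z‖ < 1 ∧ ρ ≤ dist z ζ}` is connected (`disc_minus_ball'`, `ρ < 1 = ‖ζ‖`), contains `0` and `z₁` and misses
`u '' A`, so its image under `φ` is connected, contained in `W \ A`, and `φ z₁` would be in the component of `φ 0`.
Otherwise `D ∪ T = {z | ‖z‖ < 1 ∧ dist z ζ ≤ ρ}` is convex, misses `u '' A`, and its image is contained in one component of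
`W \ A`, the one of `φ z₁`, which is not the one of `φ 0`.  If `A` is empty the statement is vacuous in the same way.
-/

namespace DS
open Metric Set Filter Topology MeasureTheory

theorem fix_conn {W : Set ℂ} {φ u G Gi : ℂ → ℂ} {μ : Measure ℂ} {ζ : ℂ} {r₀ : ℝ}
    (H : FixPE W φ u G Gi μ ζ r₀) : IsConnected W := by
  have hWφ : φ '' ball 0 1 = W := by
    ext w
    constructor
    · rintro ⟨z, hz, rfl⟩
      exact H.φ_maps hz
    · intro hw
      exact ⟨u w, H.u_maps hw, H.φu w hw⟩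
  have hball : IsConnected (ball (0:ℂ) 1) :=
    (convex_ball (0:ℂ) 1).isConnected ⟨0, mem_ball_self one_pos⟩
  exact hWφ ▸ hball.image φ H.φ_cont

theorem fix_logs {W : Set ℂ} {φ u G Gi : ℂ → ℂ} {μ : Measure ℂ} {ζ : ℂ} {r₀ : ℝ}
    (H : FixPE W φ u G Gi μ ζ r₀) : AllLogs W :=
  allLogs_of_homeo H.φ_cont H.φ_maps H.u_cont H.u_maps H.φu

theorem fix_escape {W : Set ℂ} {φ u G Gi : ℂ → ℂ} {μ : Measure ℂ} {ζ : ℂ} {r₀ : ℝ}
    (H : FixPE W φ u G Gi μ ζ r₀) : ∀ ε > 0, ∃ r > 0, ∀ w ∈ W, ‖w‖ ≤ r → 1 - ε < ‖u w‖ := by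
  intro ε hε
  have hB : closedBall (0:ℂ) (1 - ε) ⊆ ball 0 1 := closedBall_subset_ball (by linarith)
  have hK : IsCompact (φ '' closedBall (0:ℂ) (1 - ε)) :=
    (isCompact_closedBall _ _).image_of_continuousOn (H.φ_cont.mono hB)
  have h0 : (0:ℂ) ∉ φ '' closedBall (0:ℂ) (1 - ε) := by
    rintro ⟨z, hz, hz0⟩
    exact H.zero_notin (hz0 ▸ H.φ_maps (hB hz))
  obtain ⟨r, hr, hrs⟩ := Metric.isOpen_iff.1 hK.isClosed.isOpen_compl 0 h0
  refine ⟨r / 2, by positivity, fun w hw hwr => ?_⟩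
  by_contra hc
  push Not at hc
  have h1 : w ∈ φ '' closedBall (0:ℂ) (1 - ε) :=
    ⟨u w, mem_closedBall_zero_iff.2 hc, H.φu w hw⟩
  exact hrs (mem_ball_zero_iff.2 (by linarith)) h1

theorem sep_of_ne {W : Set ℂ} {φ u G Gi : ℂ → ℂ} {μ : Measure ℂ} {ζ : ℂ} {r₀ : ℝ}
    (H : FixPE W φ u G Gi μ ζ r₀) {A : Set ℂ} (hAW : A ⊆ W) (hA : IsPreconnected A) {ρ : ℝ}
    (hρ : 0 < ρ) (hρ1 : ρ < 1) (hT : ∀ z ∈ ball (0:ℂ) 1, dist z ζ = ρ → φ z ∉ A) (h0 : φ 0 ∉ A)
    {z₁ : ℂ} (hz₁ : z₁ ∈ ball (0:ℂ) 1) (hz₁' : dist z₁ ζ = ρ)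
    (hne : φ z₁ ∉ connectedComponentIn (W \ A) (φ 0)) : Sep W φ ζ A := by
  have h0b : (0:ℂ) ∈ ball (0:ℂ) 1 := mem_ball_self one_pos
  have h0A : φ 0 ∈ W \ A := ⟨H.φ_maps h0b, h0⟩
  have hAp : IsPreconnected (u '' A) := hA.image u (H.u_cont.mono hAW)
  have hAT : ∀ x ∈ A, dist (u x) ζ ≠ ρ := by
    intro x hx hxρ
    have h1 := hT (u x) (H.u_maps (hAW hx)) hxρ
    rw [H.φu x (hAW hx)] at h1
    exact h1 hx
  by_cases hcase : ∃ x ∈ A, dist (u x) ζ < ρ
  · exfalso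
    obtain ⟨x, hx, hxρ⟩ := hcase
    have hall : ∀ y ∈ A, dist (u y) ζ < ρ := by
      by_contra hcon
      push Not at hcon
      obtain ⟨y, hy, hyρ⟩ := hcon
      have hyρ' : ρ < dist (u y) ζ := lt_of_le_of_ne hyρ (hAT y hy).symm
      have := hAp (ball ζ ρ) (closedBall ζ ρ)ᶜ isOpen_ball isClosed_closedBall.isOpen_compl
        (by
          rintro _ ⟨v, hv, rfl⟩
          rcases lt_or_gt_of_ne (hAT v hv) with h | h
          · exact Or.inl h
          · exact Or.inr (by simpa using h))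
        ⟨u x, ⟨x, hx, rfl⟩, hxρ⟩ ⟨u y, ⟨y, hy, rfl⟩, by simpa using hyρ'⟩
      obtain ⟨v, _, hv1, hv2⟩ := this
      exact hv2 (ball_subset_closedBall hv1)
    have hC := (disc_minus_ball' (p := ζ) hρ.le (by rw [H.hζ]; exact hρ1)).isPreconnected
    have hCs : {z : ℂ | ‖z‖ < 1 ∧ ρ ≤ dist z ζ} ⊆ ball 0 1 := fun z hz => by simpa using hz.1
    have hφC : IsPreconnected (φ '' {z : ℂ | ‖z‖ < 1 ∧ ρ ≤ dist z ζ}) :=
      hC.image φ (H.φ_cont.mono hCs)
    apply hne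
    have hsub : φ '' {z : ℂ | ‖z‖ < 1 ∧ ρ ≤ dist z ζ} ⊆ W \ A := by
      rintro _ ⟨z, hz, rfl⟩
      refine ⟨H.φ_maps (hCs hz), fun hzA => ?_⟩
      have h1 := hall _ hzA
      rw [H.uφ z (hCs hz)] at h1
      exact absurd hz.2 (not_le.2 h1)
    refine hφC.subset_connectedComponentIn ⟨0, ⟨by simp, ?_⟩, rfl⟩ hsub
      ⟨z₁, ⟨by simpa using hz₁, hz₁'.ge⟩, rfl⟩
    rw [dist_comm, dist_zero_right, H.hζ]
    exact hρ1.le
  · push Not at hcase
    refine ⟨h0A, ρ, hρ, fun z hz hzρ => ?_⟩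
    have hnot : ∀ v ∈ ball (0:ℂ) 1 ∩ closedBall ζ ρ, φ v ∉ A := by
      intro v hv hvA
      have h1 := hcase _ hvA
      have h2 := hAT _ hvA
      rw [H.uφ v hv.1] at h1 h2
      exact h2 (le_antisymm hv.2 h1)
    have hS : IsPreconnected (ball (0:ℂ) 1 ∩ closedBall ζ ρ) :=
      ((convex_ball (0:ℂ) 1).inter (convex_closedBall ζ ρ)).isPreconnected
    have hφS := hS.image φ (H.φ_cont.mono Set.inter_subset_left)
    have hzS : z ∈ ball (0:ℂ) 1 ∩ closedBall ζ ρ := ⟨hz, hzρ.le⟩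
    have hsub : φ '' (ball (0:ℂ) 1 ∩ closedBall ζ ρ) ⊆ W \ A := by
      rintro _ ⟨v, hv, rfl⟩
      exact ⟨H.φ_maps hv.1, hnot v hv⟩
    refine ⟨hnot z hzS, fun hzc => hne ?_⟩
    rw [connectedComponentIn_eq hzc]
    exact hφS.subset_connectedComponentIn ⟨z, hzS, rfl⟩ hsub ⟨z₁, ⟨hz₁, hz₁'.le⟩, rfl⟩

end DS

end S_H36_DS_PE
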