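import Mathlib
import Pool.Agent.H12.KS.K06

/-! Joined modules of the proof of MP_8a27c0_an (one section per module). -/

section S_H36_DS_HBase

/-!
The boundary map of a homeomorphism on the prime ends (project MP_8a27c0_DS).
-/

namespace DS
open Metric Set Filter Topology

/-- `hb` is the continuous extension to the closed disc of the map `u ∘ g ∘ φ` of the open disc, `hbi` is
its inverse -/
structure EndMap {X : Type*} (φ : ℂ → X) (u : X → ℂ) (g gi : X → X) (hb hbi : ℂ → ℂ) : Prop where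
  bc : ContinuousOn hb (closedBall 0 1)
  bic : ContinuousOn hbi (closedBall 0 1)
  bm : MapsTo hb (closedBall 0 1) (closedBall 0 1)
  bim : MapsTo hbi (closedBall 0 1) (closedBall 0 1)
  bo : MapsTo hb (ball 0 1) (ball 0 1)
  bio : MapsTo hbi (ball 0 1) (ball 0 1)
  bs : MapsTo hb (sphere 0 1) (sphere 0 1)
  bis : MapsTo hbi (sphere 0 1) (sphere 0 1)
  bib : ∀ z ∈ closedBall (0:ℂ) 1, hbi (hb z) = z
  bbi : ∀ z ∈ closedBall (0:ℂ) 1, hb (hbi z) = z
  be : ∀ z ∈ ball (0:ℂ) 1, hb z = u (g (φ z))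
  bie : ∀ z ∈ ball (0:ℂ) 1, hbi z = u (gi (φ z))

end DS

end S_H36_DS_HBase

section S_H36_DS_Sph

/-!
Project MP_8a27c0_DS: definitions for the sphere.
-/

namespace DS

open Metric Set Filter Topology Function
open scoped Manifold ContDiff

/-- three dimensional Euclidean space -/
abbrev E3 := EuclideanSpace ℝ (Fin 3)

/-- the Euclidean plane (model space of the sphere) -/
abbrev E2 := EuclideanSpace ℝ (Fin 2)

instance factE3 : Fact (Module.finrank ℝ E3 = 2 + 1) := ⟨by simp⟩

/-- the unit sphere in three dimensional space, with the manifold structure of Mathlib -/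
abbrev S2 := sphere (0 : E3) 1

/-- the determinant of three vectors -/
noncomputable def det3 (a b c : E3) : ℝ :=
  Matrix.det !![a 0, a 1, a 2; b 0, b 1, b 2; c 0, c 1, c 2]

/-- a tangent vector of the sphere, as a vector of three dimensional space -/
noncomputable def emb (x : S2) (v : TangentSpace (𝓡 2) x) : E3 :=
  mfderiv (𝓡 2) 𝓘(ℝ, E3) (fun y : S2 => (y : E3)) x v

/-- the area form with density `ρ` with respect to the standard area form of the sphere -/
noncomputable def areaForm (ρ : S2 → ℝ) (x : S2) (v w : TangentSpace (𝓡 2) x) : ℝ :=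
  ρ x * det3 x (emb x v) (emb x w)

/-- `f` preserves the area form with density `ρ` -/
def PreservesArea (ρ : S2 → ℝ) (f : S2 → S2) : Prop :=
  ∀ (x : S2) (v w : TangentSpace (𝓡 2) x),
    areaForm ρ (f x) (mfderiv (𝓡 2) (𝓡 2) f x v) (mfderiv (𝓡 2) (𝓡 2) f x w) = areaForm ρ x v w

/-- the stable set of the orbit of `P` at `P` -/
def stableSet (f : S2 → S2) (P : S2) : Set S2 :=
  {x | Tendsto (fun n : ℕ => dist (f^[n] x) (f^[n] P)) atTop (𝓝 0)}

/-- the derivative at `P` of `f` iterated `q` times -/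
noncomputable def iterDeriv (f : S2 → S2) (q : ℕ) (P : S2) : E2 →L[ℝ] E2 :=
  mfderiv (𝓡 2) (𝓡 2) (f^[q]) P

/-- `μ` is a (complex) eigenvalue of the derivative at the periodic point `P` of the return map -/
def IsMultiplier (f : S2 → S2) (P : S2) (μ : ℂ) : Prop :=
  μ ∈ ((iterDeriv f (minimalPeriod f P) P : E2 →ₗ[ℝ] E2).charpoly.map (algebraMap ℝ ℂ)).roots

/-- condition 1: no multiplier of a periodic point is a root of unity -/
def Cond1 (f : S2 → S2) : Prop :=
  ∀ P ∈ periodicPts f, ∀ μ : ℂ, IsMultiplier f P μ → ∀ n : ℕ, 0 < n → μ ^ n ≠ 1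

/-- hyperbolic periodic points: no multiplier of modulus one -/
def Hyperbolic (f : S2 → S2) (P : S2) : Prop :=
  P ∈ periodicPts f ∧ ∀ μ : ℂ, IsMultiplier f P μ → ‖μ‖ ≠ 1

/-- `v` is the velocity at `x` of a regular `C¹` curve through `x` contained in `W` -/
def TangentTo (W : Set S2) (x : S2) (v : E3) : Prop :=
  v ≠ 0 ∧ ∃ α : ℝ → S2, ContDiffOn ℝ 1 (fun t => (α t : E3)) (Ioo (-1) 1) ∧
    (∀ t ∈ Ioo (-1:ℝ) 1, α t ∈ W) ∧ α 0 = x ∧ deriv (fun t => (α t : E3)) 0 = v

/-- condition 2: the stable and the unstable manifolds of hyperbolic periodic points are transverse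
(velocities of regular curves in the two manifolds at a common point are linearly independent);
`fi` is the inverse of `f` -/
def Cond2 (f fi : S2 → S2) : Prop :=
  ∀ P Q : S2, Hyperbolic f P → Hyperbolic f Q → ∀ x ∈ stableSet f P ∩ stableSet fi Q,
    ∀ v w : E3, TangentTo (stableSet f P) x v → TangentTo (stableSet fi Q) x w →
      LinearIndependent ℝ ![v, w]

/-- `A` is an annular rotation domain of the map `g`: an open `g`-invariant set homeomorphic to an open
annulus without periodic point of `g` -/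
def RotationAnnulus (g : S2 → S2) (A : Set S2) : Prop :=
  IsOpen A ∧ g '' A = A ∧ Nonempty (A ≃ₜ {z : ℂ | 1 < ‖z‖ ∧ ‖z‖ < 2}) ∧ ∀ P ∈ A, P ∉ periodicPts g

/-- condition 4: no iterate of `f` has an annular rotation domain -/
def Cond4 (f : S2 → S2) : Prop :=
  ∀ q : ℕ, 0 < q → ∀ A : Set S2, ¬ RotationAnnulus (f^[q]) A

end DS

end S_H36_DS_Sph

section S_H36_DS_XBase

/-!
Definitions for the sphere (project MP_8a27c0_DS): charts, the dynamical system, components.
-/

namespace DS

open Metric Set Filter Topology MeasureTheory Function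
open scoped Manifold ContDiff

/-- a stereographic chart with pole `O` onto the plane (`p`), with inverse `q` -/
structure SC (O : S2) (p : S2 → ℂ) (q : ℂ → S2) : Prop where
  q_smooth : ContMDiff 𝓘(ℝ, ℂ) (𝓡 2) 1 q
  p_smooth : ContMDiffOn (𝓡 2) 𝓘(ℝ, ℂ) 1 p {O}ᶜ
  q_ne : ∀ z, q z ≠ O
  pq : ∀ z, p (q z) = z
  qp : ∀ x, x ≠ O → q (p x) = x
  q_lim : Tendsto q (cocompact ℂ) (𝓝 O)
  p_lim : Tendsto p (𝓝[≠] O) (cocompact ℂ)

/-- a `C¹` chart of the sphere minus the point `O` onto the plane (`χ`), with inverse `κ` -/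
structure PC1 (O : S2) (χ : S2 → ℂ) (κ : ℂ → S2) : Prop where
  κ_smooth : ContMDiff 𝓘(ℝ, ℂ) (𝓡 2) 1 κ
  χ_smooth : ContMDiffOn (𝓡 2) 𝓘(ℝ, ℂ) 1 χ {O}ᶜ
  κ_ne : ∀ z, κ z ≠ O
  χκ : ∀ z, χ (κ z) = z
  κχ : ∀ x, x ≠ O → κ (χ x) = x

/-- the dynamical system: a `C¹` diffeomorphism `f` (inverse `fi`) of the sphere preserving a finite
measure positive on open sets, with derivatives of determinant one at periodic points and the conditions
1 and 2 -/
structure Sys (f fi : S2 → S2) (ν : Measure S2) : Prop where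
  cf : ContMDiff (𝓡 2) (𝓡 2) 1 f
  cfi : ContMDiff (𝓡 2) (𝓡 2) 1 fi
  ffi : ∀ x, f (fi x) = x
  fif : ∀ x, fi (f x) = x
  fin : ν univ < ⊤
  inv : ∀ B, MeasurableSet B → ν (f '' B) = ν B
  pos : ∀ O, IsOpen O → O.Nonempty → 0 < ν O
  det1 : ∀ P n, f^[n] P = P → (iterDeriv f n P).det = 1
  h1 : Cond1 f
  h2 : Cond2 f fi

/-- `K` is a connected component of the complement of the domain `V`, which misses the stable sets of the
periodic points -/
structure CompK (f : S2 → S2) (V K : Set S2) : Prop where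
  V_open : IsOpen V
  V_conn : IsConnected V
  V_stab : ∀ P ∈ periodicPts f, Disjoint V (stableSet f P)
  K_closed : IsClosed K
  K_conn : IsConnected K
  K_V : Disjoint K V
  K_max : ∀ C : Set S2, IsPreconnected C → Disjoint C V → (C ∩ K).Nonempty → C ⊆ K

/-- a regular curve in the stable set of a hyperbolic periodic point passes through `x` -/
def SPt (f : S2 → S2) (x : S2) : Prop :=
  ∃ (Q : S2) (v : E3), Hyperbolic f Q ∧ TangentTo (stableSet f Q) x v

/-- the trace of the derivative at `P` of the `n`-th iterate -/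
noncomputable def tr (f : S2 → S2) (n : ℕ) (P : S2) : ℝ :=
  LinearMap.trace ℝ E2 (iterDeriv f n P : E2 →ₗ[ℝ] E2)

end DS

end S_H36_DS_XBase
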