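import Pool.Agent.H12.KS.K08
import Pool.Agent.H12.KS.K19
import Pool.Agent.H12.KS.K20
import Pool.Agent.H12.KS.K21

/-! Joined modules of the proof of MP_8a27c0_an (one section per module). -/

section S_H36_DS_HB

/-!
HB (the boundary homeomorphism of prime ends).  Proof.  `h z = u (g (φ z))` is a homeomorphism of the open disc (inverse
`u (gi (φ z))`; `g` maps `Kᶜ` onto itself).  Claim: `h` has a limit at every `ζ` of the circle.  Let `0 < ε < 1/4`, `δ` from `L0`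
for `ε`, `η` from the uniform continuity of `g` (`dist x y < η → dist (g x) (g y) < δ`).  As `h` is proper, for `ρ` small
`h` maps `ball 0 1 ∩ closedBall ζ ρ` into `{‖z‖ > 1/2}` (`h ⁻¹` of the compact `closedBall 0 (1/2)` is compact in the disc).
By `L1` there is such a `ρ < 1` with `dist (φ z) (φ w) < η` on `C = {z ∈ ball 0 1 | dist z ζ = ρ}`.  `C` is connected
(`arc_connected`), so `h '' C` is connected and its image under `φ` (which is `g (φ '' C)`) has diameter `< δ`; by `L0`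
`h '' C ⊆ closedBall p ε` for `p = h z₀`, `z₀ ∈ C`, `‖p‖ > 1/2`.  `E = {z | ‖z‖ < 1 ∧ ε < dist z p}` is connected
(`disc_minus_ball`), contains `0` and misses `h '' C`; so `h ⁻¹ '' E` is connected, misses `C`, contains `h ⁻¹ 0`, which is not
in `ball ζ ρ`; so it misses `ball ζ ρ`, i.e. `h '' (ball 0 1 ∩ ball ζ ρ) ⊆ closedBall p ε`.  So `h` is Cauchy at `ζ`.
Let `hb = extendFrom (ball 0 1) h` (`continuousOn_extendFrom`), the same for the inverse; the compositions are the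
identity on the open disc, so on its closure; `hb` maps the circle to the circle: if `‖hb ζ‖ < 1` then
`ζ = hbi (hb ζ) = u (gi (φ (hb ζ)))` would be in the open disc.
-/

namespace DS
open Metric Set Filter Topology

/-- the map is continuous on the open disc -/
theorem HB_cont {X : Type*} [MetricSpace X] {K : Set X} {φ : ℂ → X} {u : X → ℂ}
    (H : DiscMap K φ u) {g : X → X} (hg : Continuous g) (hgK : MapsTo g Kᶜ Kᶜ) :
    ContinuousOn (fun z => u (g (φ z))) (ball 0 1) := by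
  have h1 : ContinuousOn (fun z => g (φ z)) (ball 0 1) := hg.comp_continuousOn H.φ_cont
  exact H.u_cont.comp h1 (fun z hz => hgK (H.φ_maps hz))

/-- the map is nearly constant near a boundary point -/
theorem HB_small {X : Type*} [MetricSpace X] [CompactSpace X] {K : Set X}
    {φ : ℂ → X} {u : X → ℂ} (H : DiscMap K φ u) {g gi : X → X} (hg : Continuous g)
    (hgi : Continuous gi) (hggi : ∀ x, g (gi x) = x) (hgig : ∀ x, gi (g x) = x)
    (hgK : MapsTo g Kᶜ Kᶜ) (hgiK : MapsTo gi Kᶜ Kᶜ) {ζ : ℂ} (hζ : ‖ζ‖ = 1) {ε : ℝ} (hε : 0 < ε)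
    (hε4 : ε < 1 / 4) :
    ∃ ρ > 0, ∀ z ∈ ball (0:ℂ) 1, ∀ w ∈ ball (0:ℂ) 1, dist z ζ < ρ → dist w ζ < ρ →
      dist (u (g (φ z))) (u (g (φ w))) < 2 * ε := by
  set h : ℂ → ℂ := fun z => u (g (φ z)) with hh
  set hi : ℂ → ℂ := fun z => u (gi (φ z)) with hhi
  have hhm : MapsTo h (ball 0 1) (ball 0 1) := fun z hz => H.u_maps (hgK (H.φ_maps hz))
  have him : MapsTo hi (ball 0 1) (ball 0 1) := fun z hz => H.u_maps (hgiK (H.φ_maps hz))
  have hhc : ContinuousOn h (ball 0 1) := HB_cont H hg hgK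
  have hic : ContinuousOn hi (ball 0 1) := HB_cont H hgi hgiK
  have hih : ∀ z ∈ ball (0:ℂ) 1, hi (h z) = z := by
    intro z hz
    simp only [hh, hhi]
    rw [H.φu _ (hgK (H.φ_maps hz)), hgig, H.uφ z hz]
  have hhi' : ∀ z ∈ ball (0:ℂ) 1, h (hi z) = z := by
    intro z hz
    simp only [hh, hhi]
    rw [H.φu _ (hgiK (H.φ_maps hz)), hggi, H.uφ z hz]
  obtain ⟨δ, hδ, hL0⟩ := H.L0 ε hε
  have hgu : UniformContinuous g := CompactSpace.uniformContinuous_of_continuous hg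
  obtain ⟨η, hη, hgη⟩ := Metric.uniformContinuous_iff.1 hgu δ hδ
  -- properness
  have hhalf : closedBall (0:ℂ) (1/2) ⊆ ball 0 1 := closedBall_subset_ball (by norm_num)
  set Q : Set ℂ := hi '' closedBall 0 (1/2) with hQ
  have hQc : IsCompact Q := (isCompact_closedBall _ _).image_of_continuousOn (hic.mono hhalf)
  have hQb : Q ⊆ ball 0 1 := by
    rintro _ ⟨z, hz, rfl⟩
    exact him (hhalf hz)
  have hζQ : ζ ∉ Q := by
    intro hc
    have := hQb hc
    rw [mem_ball_zero_iff, hζ] at this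
    exact lt_irrefl _ this
  obtain ⟨r0, hr0, hr0Q⟩ := Metric.isOpen_iff.1 hQc.isClosed.isOpen_compl ζ hζQ
  have hbig : ∀ z ∈ ball (0:ℂ) 1, dist z ζ < r0 → 1 / 2 < ‖h z‖ := by
    intro z hz hzr
    by_contra hc
    push Not at hc
    have h1 : z ∈ Q := ⟨h z, by rwa [mem_closedBall_zero_iff], hih z hz⟩
    exact hr0Q (mem_ball.2 hzr) h1
  obtain ⟨ρ, hρ, hρ2, hL1⟩ := H.L1 ζ hζ (min η (min r0 1)) (by positivity)
  have hρη : min η (min r0 1) ≤ η := min_le_left _ _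
  have hρr : min η (min r0 1) ≤ r0 := (min_le_right _ _).trans (min_le_left _ _)
  have hρ1 : min η (min r0 1) ≤ 1 := (min_le_right _ _).trans (min_le_right _ _)
  have hC := arc_connected hζ hρ (by linarith)
  set Cc : Set ℂ := {z : ℂ | ‖z‖ < 1 ∧ dist z ζ = ρ} with hCc
  have hCb : Cc ⊆ ball 0 1 := fun z hz => mem_ball_zero_iff.2 hz.1
  obtain ⟨z₀, hz₀⟩ := hC.nonempty
  have hp : 1 / 2 < ‖h z₀‖ := hbig z₀ (hCb hz₀) (by rw [hz₀.2]; linarith)
  have hCsmall : ∀ a ∈ Cc, ∀ b ∈ Cc, dist (h a) (h b) < ε := by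
    have h2 : ∀ z ∈ h '' Cc, ∀ w ∈ h '' Cc, dist (φ z) (φ w) < δ := by
      rintro _ ⟨a, ha, rfl⟩ _ ⟨b, hb, rfl⟩
      simp only [hh]
      rw [H.φu _ (hgK (H.φ_maps (hCb ha))), H.φu _ (hgK (H.φ_maps (hCb hb)))]
      exact hgη (lt_of_lt_of_le (hL1 a (hCb ha) b (hCb hb) ha.2 hb.2) hρη)
    have h3 := hL0 (h '' Cc) (by rintro _ ⟨a, ha, rfl⟩; exact hhm (hCb ha))
      (hC.isPreconnected.image h (hhc.mono hCb)) h2
    intro a ha b hb
    exact h3 _ ⟨a, ha, rfl⟩ _ ⟨b, hb, rfl⟩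
  have hE := disc_minus_ball' (p := h z₀) hε.le (by linarith)
  set E : Set ℂ := {z : ℂ | ‖z‖ < 1 ∧ ε ≤ dist z (h z₀)} with hEdef
  have hEb : E ⊆ ball 0 1 := fun z hz => mem_ball_zero_iff.2 hz.1
  have h0E : (0:ℂ) ∈ E := by
    refine ⟨by simp, ?_⟩
    rw [dist_zero_left]
    linarith
  have hEi : IsPreconnected (hi '' E) := hE.isPreconnected.image hi (hic.mono hEb)
  have hEρ : ∀ x ∈ hi '' E, dist x ζ ≠ ρ := by
    rintro _ ⟨e, he, rfl⟩ hc
    have h4 : hi e ∈ Cc := ⟨mem_ball_zero_iff.1 (him (hEb he)), hc⟩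
    have h5 := hCsmall _ h4 _ hz₀
    rw [hhi' e (hEb he)] at h5
    exact absurd he.2 (not_le.2 h5)
  have h0big : ρ < dist (hi 0) ζ := by
    have h6 : hi 0 ∈ Q := ⟨0, by simp, rfl⟩
    by_contra hc
    push Not at hc
    exact hr0Q (mem_ball.2 (lt_of_le_of_lt hc (by linarith))) h6
  have hEbig : ∀ x ∈ hi '' E, ρ < dist x ζ := by
    intro x hx
    by_contra hc
    push Not at hc
    have h7 := hEi.intermediate_value hx ⟨0, h0E, rfl⟩
      (f := fun y => dist y ζ) (by fun_prop)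
    obtain ⟨y, hy, hyρ⟩ := h7 ⟨hc, h0big.le⟩
    exact hEρ y hy hyρ
  have hin : ∀ z ∈ ball (0:ℂ) 1, dist z ζ < ρ → dist (h z) (h z₀) < ε := by
    intro z hz hzρ
    by_contra hc
    push Not at hc
    have h8 : h z ∈ E := ⟨mem_ball_zero_iff.1 (hhm hz), hc⟩
    have h9 := hEbig (hi (h z)) ⟨h z, h8, rfl⟩
    rw [hih z hz] at h9
    exact absurd hzρ (not_lt.2 h9.le)
  refine ⟨ρ, hρ, fun z hz w hw hz1 hw1 => ?_⟩
  have h10 := hin z hz hz1
  have h11 := hin w hw hw1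
  calc dist (h z) (h w) ≤ dist (h z) (h z₀) + dist (h w) (h z₀) := dist_triangle_right _ _ _
    _ < 2 * ε := by linarith

/-- the limits exist -/
theorem HB_lim {X : Type*} [MetricSpace X] [CompactSpace X] {K : Set X}
    {φ : ℂ → X} {u : X → ℂ} (H : DiscMap K φ u) {g gi : X → X} (hg : Continuous g)
    (hgi : Continuous gi) (hggi : ∀ x, g (gi x) = x) (hgig : ∀ x, gi (g x) = x)
    (hgK : MapsTo g Kᶜ Kᶜ) (hgiK : MapsTo gi Kᶜ Kᶜ) (x : ℂ) (hx : x ∈ closedBall (0:ℂ) 1) :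
    ∃ y, Tendsto (fun z => u (g (φ z))) (𝓝[ball 0 1] x) (𝓝 y) := by
  by_cases hxb : x ∈ ball (0:ℂ) 1
  · exact ⟨_, HB_cont H hg hgK x hxb⟩
  · have hx1 : ‖x‖ = 1 := by
      rw [mem_closedBall_zero_iff] at hx
      rw [mem_ball_zero_iff, not_lt] at hxb
      exact le_antisymm hx hxb
    have hcl : x ∈ closure (ball (0:ℂ) 1) := by
      rw [closure_ball _ one_ne_zero]
      exact hx
    have hne : (𝓝[ball 0 1] x).NeBot := mem_closure_iff_nhdsWithin_neBot.1 hcl
    have hcau : Cauchy (map (fun z => u (g (φ z))) (𝓝[ball 0 1] x)) := by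
      rw [Metric.cauchy_iff]
      refine ⟨hne.map _, fun e he => ?_⟩
      obtain ⟨ρ, hρ, hρ2⟩ := HB_small H hg hgi hggi hgig hgK hgiK hx1
        (ε := min (e / 2) (1 / 8)) (by positivity)
        (lt_of_le_of_lt (min_le_right _ _) (by norm_num))
      refine ⟨(fun z => u (g (φ z))) '' (ball x ρ ∩ ball 0 1), ?_, ?_⟩
      · apply image_mem_map
        rw [inter_comm]
        exact inter_mem_nhdsWithin _ (ball_mem_nhds x hρ)
      · rintro _ ⟨a, ha, rfl⟩ _ ⟨b, hb, rfl⟩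
        have h1 := hρ2 a ha.2 b hb.2 ha.1 hb.1
        have h2 : min (e / 2) (1 / 8) ≤ e / 2 := min_le_left _ _
        exact lt_of_lt_of_le h1 (by linarith)
    exact cauchy_map_iff_exists_tendsto.1 hcau

theorem end_homeo {X : Type*} [MetricSpace X] [CompactSpace X] {K : Set X} (hK : IsClosed K)
    {φ : ℂ → X} {u : X → ℂ} (H : DiscMap K φ u) {g gi : X → X} (hg : Continuous g)
    (hgi : Continuous gi) (hggi : ∀ x, g (gi x) = x) (hgig : ∀ x, gi (g x) = x)
    (hgK : g '' K = K) :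
    ∃ hb hbi : ℂ → ℂ, EndMap φ u g gi hb hbi := by
  have hm : MapsTo g Kᶜ Kᶜ := by
    intro x hx hc
    rw [← hgK] at hc
    obtain ⟨y, hy, hyx⟩ := hc
    have h1 : y = x := by rw [← hgig y, hyx, hgig]
    exact hx (h1 ▸ hy)
  have hmi : MapsTo gi Kᶜ Kᶜ := by
    intro x hx hc
    apply hx
    show x ∈ K
    rw [← hgK]
    exact ⟨gi x, hc, hggi x⟩
  have hcl : closure (ball (0:ℂ) 1) = closedBall 0 1 := closure_ball _ one_ne_zero
  have hlim := HB_lim H hg hgi hggi hgig hm hmi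
  have hlimi := HB_lim H hgi hg hgig hggi hmi hm
  set h : ℂ → ℂ := fun z => u (g (φ z)) with hh
  set hi : ℂ → ℂ := fun z => u (gi (φ z)) with hhi
  have hhm : MapsTo h (ball 0 1) (ball 0 1) := fun z hz => H.u_maps (hm (H.φ_maps hz))
  have him : MapsTo hi (ball 0 1) (ball 0 1) := fun z hz => H.u_maps (hmi (H.φ_maps hz))
  have hhc : ContinuousOn h (ball 0 1) := HB_cont H hg hm
  have hic : ContinuousOn hi (ball 0 1) := HB_cont H hgi hmi
  have hih : ∀ z ∈ ball (0:ℂ) 1, hi (h z) = z := by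
    intro z hz
    simp only [hh, hhi]
    rw [H.φu _ (hm (H.φ_maps hz)), hgig, H.uφ z hz]
  have hhi' : ∀ z ∈ ball (0:ℂ) 1, h (hi z) = z := by
    intro z hz
    simp only [hh, hhi]
    rw [H.φu _ (hmi (H.φ_maps hz)), hggi, H.uφ z hz]
  have hbc : ContinuousOn (extendFrom (ball 0 1) h) (closedBall 0 1) :=
    continuousOn_extendFrom hcl.ge hlim
  have hbic : ContinuousOn (extendFrom (ball 0 1) hi) (closedBall 0 1) :=
    continuousOn_extendFrom hcl.ge hlimi
  have hbe : ∀ z ∈ ball (0:ℂ) 1, extendFrom (ball 0 1) h z = h z := fun z hz =>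
    extendFrom_eq (subset_closure hz) (hhc z hz)
  have hbie : ∀ z ∈ ball (0:ℂ) 1, extendFrom (ball 0 1) hi z = hi z := fun z hz =>
    extendFrom_eq (subset_closure hz) (hic z hz)
  have hbo : MapsTo (extendFrom (ball 0 1) h) (ball 0 1) (ball 0 1) := by
    intro z hz
    rw [hbe z hz]
    exact hhm hz
  have hbio : MapsTo (extendFrom (ball 0 1) hi) (ball 0 1) (ball 0 1) := by
    intro z hz
    rw [hbie z hz]
    exact him hz
  have hbm : MapsTo (extendFrom (ball 0 1) h) (closedBall 0 1) (closedBall 0 1) := by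
    have := hbo.closure_of_continuousOn (by rw [hcl]; exact hbc)
    rwa [hcl] at this
  have hbim : MapsTo (extendFrom (ball 0 1) hi) (closedBall 0 1) (closedBall 0 1) := by
    have := hbio.closure_of_continuousOn (by rw [hcl]; exact hbic)
    rwa [hcl] at this
  have hbib : ∀ z ∈ closedBall (0:ℂ) 1,
      extendFrom (ball 0 1) hi (extendFrom (ball 0 1) h z) = z := by
    have h1 : EqOn (fun z => extendFrom (ball 0 1) hi (extendFrom (ball 0 1) h z)) id
        (ball 0 1) := by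
      intro z hz
      simp only [id]
      rw [hbe z hz, hbie _ (hhm hz), hih z hz]
    exact h1.of_subset_closure (hbic.comp hbc hbm) continuousOn_id ball_subset_closedBall hcl.ge
  have hbbi : ∀ z ∈ closedBall (0:ℂ) 1,
      extendFrom (ball 0 1) h (extendFrom (ball 0 1) hi z) = z := by
    have h1 : EqOn (fun z => extendFrom (ball 0 1) h (extendFrom (ball 0 1) hi z)) id
        (ball 0 1) := by
      intro z hz
      simp only [id]
      rw [hbie z hz, hbe _ (him hz), hhi' z hz]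
    exact h1.of_subset_closure (hbc.comp hbic hbim) continuousOn_id ball_subset_closedBall hcl.ge
  refine ⟨extendFrom (ball 0 1) h, extendFrom (ball 0 1) hi, hbc, hbic, hbm, hbim, hbo, hbio,
    ?_, ?_, hbib, hbbi, hbe, hbie⟩
  · intro ζ hζ
    have hζ1 : ζ ∈ closedBall (0:ℂ) 1 := sphere_subset_closedBall hζ
    by_contra hc
    have h2 : extendFrom (ball 0 1) h ζ ∈ ball (0:ℂ) 1 := by
      have h3 := hbm hζ1
      rw [mem_closedBall_zero_iff] at h3
      rw [mem_ball_zero_iff]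
      rw [mem_sphere_zero_iff_norm] at hc
      exact lt_of_le_of_ne h3 hc
    have h4 := hbio h2
    rw [hbib ζ hζ1, mem_ball_zero_iff, mem_sphere_zero_iff_norm.1 hζ] at h4
    exact lt_irrefl _ h4
  · intro ζ hζ
    have hζ1 : ζ ∈ closedBall (0:ℂ) 1 := sphere_subset_closedBall hζ
    by_contra hc
    have h2 : extendFrom (ball 0 1) hi ζ ∈ ball (0:ℂ) 1 := by
      have h3 := hbim hζ1
      rw [mem_closedBall_zero_iff] at h3
      rw [mem_ball_zero_iff]
      rw [mem_sphere_zero_iff_norm] at hc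
      exact lt_of_le_of_ne h3 hc
    have h4 := hbo h2
    rw [hbbi ζ hζ1, mem_ball_zero_iff, mem_sphere_zero_iff_norm.1 hζ] at h4
    exact lt_irrefl _ h4

/-- composition -/
theorem HB_comp {X : Type*} [MetricSpace X] {K : Set X} {φ : ℂ → X} {u : X → ℂ}
    (H : DiscMap K φ u) {g1 gi1 g2 gi2 : X → X} (hgK : MapsTo g1 Kᶜ Kᶜ)
    (hgiK : MapsTo gi2 Kᶜ Kᶜ) {hb1 hbi1 hb2 hbi2 : ℂ → ℂ}
    (h1 : EndMap φ u g1 gi1 hb1 hbi1) (h2 : EndMap φ u g2 gi2 hb2 hbi2) :
    EndMap φ u (g2 ∘ g1) (gi1 ∘ gi2) (hb2 ∘ hb1) (hbi1 ∘ hbi2) where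
  bc := h2.bc.comp h1.bc h1.bm
  bic := h1.bic.comp h2.bic h2.bim
  bm := h2.bm.comp h1.bm
  bim := h1.bim.comp h2.bim
  bo := h2.bo.comp h1.bo
  bio := h1.bio.comp h2.bio
  bs := h2.bs.comp h1.bs
  bis := h1.bis.comp h2.bis
  bib := fun z hz => by
    simp only [Function.comp_apply]
    rw [h2.bib _ (h1.bm hz), h1.bib z hz]
  bbi := fun z hz => by
    simp only [Function.comp_apply]
    rw [h1.bbi _ (h2.bim hz), h2.bbi z hz]
  be := fun z hz => by
    simp only [Function.comp_apply]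
    rw [h2.be _ (h1.bo hz), h1.be z hz, H.φu _ (hgK (H.φ_maps hz))]
  bie := fun z hz => by
    simp only [Function.comp_apply]
    rw [h1.bie _ (h2.bio hz), h2.bie z hz, H.φu _ (hgiK (H.φ_maps hz))]

/-- the square of the boundary map is the boundary map of the square -/
theorem endMap_iter {X : Type*} [MetricSpace X] {K : Set X} {φ : ℂ → X} {u : X → ℂ}
    (H : DiscMap K φ u) {g gi : X → X} (hgK : MapsTo g Kᶜ Kᶜ) (hgiK : MapsTo gi Kᶜ Kᶜ) {hb hbi : ℂ → ℂ}
    (hE : EndMap φ u g gi hb hbi) (n : ℕ) :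
    EndMap φ u (g^[n]) (gi^[n]) (hb^[n]) (hbi^[n]) := by
  induction n with
  | zero =>
    simp only [Function.iterate_zero]
    exact ⟨continuousOn_id, continuousOn_id, mapsTo_id _, mapsTo_id _, mapsTo_id _, mapsTo_id _,
      mapsTo_id _, mapsTo_id _, fun _ _ => rfl, fun _ _ => rfl, fun z hz => (H.uφ z hz).symm,
      fun z hz => (H.uφ z hz).symm⟩
  | succ n ih =>
    rw [Function.iterate_succ g, Function.iterate_succ hb, Function.iterate_succ' gi,
      Function.iterate_succ' hbi]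
    exact HB_comp H hgK (hgiK.iterate n) hE ih

end DS

end S_H36_DS_HB

section S_H36_DS_LE

/-!
LE (no long curves with short image).  Proof.  Write `u w = v w⁻¹` (holomorphic and injective on `Kᶜ`, values in
the disc), `F z = (ψ z)⁻¹` for `z ∈ ball 0 1`, `z ≠ 0` (values in `Kᶜ`), `u (F z) = z`, `‖F z‖ → ∞` for `z → 0`.
By `norm_u_tendsto` applied along `F (z n) → w₀` (and `F (z' n) → w₀`) we get `‖a‖ = ‖b‖ = 1`.  Let `a = e^{iα}`,
`b = e^{iβ}` with `α < β < α + 2π`.  Choose `η < 1/2` with `2 η <` the lengths of both intervals `(α, β)` and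
`(β, α + 2π)` and `< π`; choose `r₁ > 0` such that `K` has a point outside `closedBall w₀ r₁`; by `short_circle`
(`Ω = Kᶜ`) there is `r < r₁` with image length `≤ η`; the circle `sphere w₀ r` meets `K` (connected, contains
`w₀` and a point outside), so `depth` applies: all points `u w`, `w ∈ Kᶜ`, `‖w - w₀‖ = r`, have norm
`≥ 1 - η ≥ 1/2`.  By `good_ray` (with `T = {t | t ∈ Ioo 0 (4π) ∧ circleMap w₀ r t ∈ Kᶜ}`, `c t = u (circleMap w₀ r t)`)
there are `θ₁ ∈ (α, β)` and `θ₂ ∈ (β, α + 2π)` (subintervals of length `≤ π` if necessary) such that no point of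
`E = u '' (sphere w₀ r ∩ Kᶜ)` lies on the rays of angles `θ₁, θ₂` (every point of the circle has a parameter in
`Ioo 0 (4π)`).
Let `z` be in the disc, `z ≠ 0`, with `‖z‖ < 1 - η` or on one of the two rays.  The function
`s ↦ ‖F (s z) - w₀‖` on `(0, 1]` is continuous, tends to `∞` for `s → 0` and is never `r` (otherwise `s z ∈ E`),
so `‖F z - w₀‖ > r`.  For large `n` all `z ∈ γ n` have `‖F z - w₀‖ < r`.  Hence `γ n` is contained in
`{z | 1 - η ≤ ‖z‖ < 1}` and misses the two rays: it is contained in the union of the two disjoint open sectors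
`{s e^{iθ} | s > 0, θ₁ < θ < θ₂}` and `{s e^{iθ} | s > 0, θ₂ < θ < θ₁ + 2π}`, the first contains `z' n` and the
second contains `z n` for large `n`; this contradicts the connectedness of `γ n`.
-/

namespace DS
open Metric Set Filter Topology MeasureTheory

private theorem LE_param (w₀ : ℂ) {r : ℝ} {w : ℂ} (hw : dist w w₀ = r) :
    ∃ t ∈ Ioo (0:ℝ) (4 * Real.pi), circleMap w₀ r t = w := by
  refine ⟨Complex.arg (w - w₀) + 2 * Real.pi, ⟨?_, ?_⟩, ?_⟩
  · have := Complex.neg_pi_lt_arg (w - w₀)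
    linarith [Real.pi_pos]
  · have := Complex.arg_le_pi (w - w₀)
    linarith [Real.pi_pos]
  · rw [periodic_circleMap w₀ r (Complex.arg (w - w₀))]
    unfold circleMap
    have h := Complex.norm_mul_exp_arg_mul_I (w - w₀)
    rw [← dist_eq_norm, hw] at h
    rw [h]
    ring

private theorem LE_ext {K : Set ℂ} (h0 : (0:ℂ) ∈ K) {w : ℂ} (hw : w ∉ K) :
    w ≠ 0 ∧ w⁻¹ ∈ extDom K := by
  refine ⟨fun h => hw (h ▸ h0), Or.inr ?_⟩
  rwa [inv_inv]

private theorem LE_F {K : Set ℂ} {ψ v : ℂ → ℂ} (hE : ExtMap K ψ v) {z : ℂ}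
    (hz : z ∈ ball (0:ℂ) 1) (hz0 : z ≠ 0) : ψ z ≠ 0 ∧ (ψ z)⁻¹ ∉ K := by
  have h1 : ψ z ≠ 0 := by
    intro h
    have h2 := hE.vψ z hz
    have h3 := hE.vψ 0 (by simp)
    rw [h] at h2
    rw [hE.ψ0] at h3
    exact hz0 (h2.symm.trans h3)
  refine ⟨h1, ?_⟩
  rcases hE.mψ hz with h | h
  · exact absurd h h1
  · exact h

private theorem LE_diff {K : Set ℂ} (h0 : (0:ℂ) ∈ K) {ψ v : ℂ → ℂ} (hE : ExtMap K ψ v) :
    DifferentiableOn ℂ (fun w => v w⁻¹) Kᶜ := by
  refine hE.dv.comp ?_ fun w hw => (LE_ext h0 hw).2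
  exact differentiableOn_inv.mono fun w hw => (LE_ext h0 hw).1

private theorem LE_inj {K : Set ℂ} (h0 : (0:ℂ) ∈ K) {ψ v : ℂ → ℂ} (hE : ExtMap K ψ v) :
    InjOn (fun w => v w⁻¹) Kᶜ := by
  intro w hw w' hw' h
  have h1 := hE.ψv _ (LE_ext h0 hw).2
  have h2 := hE.ψv _ (LE_ext h0 hw').2
  have h3 : v w⁻¹ = v w'⁻¹ := h
  rw [h3, h2] at h1
  exact (inv_injective h1).symm

/-- limits of the points lie on the unit circle -/
private theorem LE_norm {K : Set ℂ} (hK : IsCompact K) (h0 : (0:ℂ) ∈ K) {ψ v : ℂ → ℂ}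
    (hE : ExtMap K ψ v) {w₀ : ℂ} (hw₀ : w₀ ∈ K) {z : ℕ → ℂ} (hz : ∀ n, z n ∈ ball (0:ℂ) 1 \ {0})
    (hF : Tendsto (fun n => (ψ (z n))⁻¹) atTop (𝓝 w₀)) {a : ℂ} (ha : Tendsto z atTop (𝓝 a)) :
    ‖a‖ = 1 := by
  have h1 : Tendsto (fun n => (ψ (z n))⁻¹) atTop (𝓝[Kᶜ] w₀) := by
    rw [tendsto_nhdsWithin_iff]
    exact ⟨hF, Eventually.of_forall fun n => (LE_F hE (hz n).1 (hz n).2).2⟩
  have h2 := (norm_u_tendsto hK h0 hE hw₀).comp h1
  have h3 : ((fun w => ‖v w⁻¹‖) ∘ fun n => (ψ (z n))⁻¹) = fun n => ‖z n‖ := by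
    funext n
    simp only [Function.comp_apply, inv_inv]
    rw [hE.vψ _ (hz n).1]
  rw [h3] at h2
  exact tendsto_nhds_unique ha.norm h2

/-- the circle and the two good rays -/
private theorem LE_circle {K : Set ℂ} (hK : IsCompact K) (hc : IsConnected K) (h0 : (0:ℂ) ∈ K)
    (hn : K.Nontrivial) {ψ v : ℂ → ℂ} (hE : ExtMap K ψ v) {w₀ : ℂ} (hw₀ : w₀ ∈ K) {α β : ℝ}
    (h1 : α < β) (h2 : β < α + 2 * Real.pi) :
    ∃ (r η θ₁ θ₂ : ℝ), 0 < r ∧ 0 < η ∧ η < 1 / 2 ∧ α < θ₁ ∧ θ₁ < β ∧ β < θ₂ ∧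
      θ₂ < α + 2 * Real.pi ∧
      ∀ w, w ∉ K → dist w w₀ = r → 1 - η ≤ ‖v w⁻¹‖ ∧
        (∀ s : ℝ, 0 < s → v w⁻¹ ≠ s * Complex.exp (θ₁ * Complex.I)) ∧
        (∀ s : ℝ, 0 < s → v w⁻¹ ≠ s * Complex.exp (θ₂ * Complex.I)) := by
  have hpi := Real.pi_pos
  obtain ⟨η, hη0, hη⟩ : ∃ η : ℝ, 0 < η ∧ η < 1 / 2 ∧ 2 * η < β - α ∧
      2 * η < α + 2 * Real.pi - β ∧ 2 * η < Real.pi := by
    have hp : 0 < min (min (1 / 2) ((β - α) / 2)) (min ((α + 2 * Real.pi - β) / 2)
        (Real.pi / 2)) := by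
      refine lt_min (lt_min (by norm_num) (by linarith)) (lt_min (by linarith) (by linarith))
    refine ⟨min (min (1 / 2) ((β - α) / 2)) (min ((α + 2 * Real.pi - β) / 2)
        (Real.pi / 2)) / 2, by linarith, ?_, ?_, ?_, ?_⟩
    · have := (min_le_left (min (1 / 2) ((β - α) / 2)) (min ((α + 2 * Real.pi - β) / 2)
        (Real.pi / 2))).trans (min_le_left _ _)
      linarith
    · have := (min_le_left (min (1 / 2) ((β - α) / 2)) (min ((α + 2 * Real.pi - β) / 2)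
        (Real.pi / 2))).trans (min_le_right _ _)
      linarith
    · have := (min_le_right (min (1 / 2) ((β - α) / 2)) (min ((α + 2 * Real.pi - β) / 2)
        (Real.pi / 2))).trans (min_le_left _ _)
      linarith
    · have := (min_le_right (min (1 / 2) ((β - α) / 2)) (min ((α + 2 * Real.pi - β) / 2)
        (Real.pi / 2))).trans (min_le_right _ _)
      linarith
  obtain ⟨hη1, hη2, hη3, hη4⟩ := hη
  obtain ⟨k, hk, hkw⟩ := hn.exists_ne w₀
  have hKo : IsOpen Kᶜ := hK.isClosed.isOpen_compl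
  have hd := LE_diff h0 hE
  obtain ⟨r, hr0, hr1, hint⟩ := short_circle hKo hd (LE_inj h0 hE)
    (fun w hw => hE.mv (LE_ext h0 hw).2) w₀ hη0 (dist_pos.2 hkw)
  -- the circle meets `K`
  obtain ⟨p, hp, hpr⟩ : ∃ p ∈ K, dist p w₀ = r := by
    have h3 := hc.isPreconnected.intermediate_value hw₀ hk
      (f := fun w => dist w w₀) (by fun_prop)
    have h4 : r ∈ Icc (dist w₀ w₀) (dist k w₀) := ⟨by rw [dist_self]; exact hr0.le, hr1.le⟩
    obtain ⟨p, hp, h5⟩ := h3 h4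
    exact ⟨p, hp, h5⟩
  have hmeet : ∃ t₀ ∈ Ioo (0:ℝ) (4 * Real.pi), circleMap w₀ r t₀ ∈ K := by
    obtain ⟨t, ht, h3⟩ := LE_param w₀ hpr
    exact ⟨t, ht, h3 ▸ hp⟩
  have hdepth := depth hK h0 hE hr0 hη0 hint hmeet
  -- the curve
  have hTo : IsOpen {t : ℝ | t ∈ Ioo 0 (4 * Real.pi) ∧ circleMap w₀ r t ∈ Kᶜ} :=
    isOpen_Ioo.inter (hKo.preimage (continuous_circleMap w₀ r))
  have hcd : ∀ t ∈ {t : ℝ | t ∈ Ioo 0 (4 * Real.pi) ∧ circleMap w₀ r t ∈ Kᶜ},
      HasDerivAt (fun t => (fun w => v w⁻¹) (circleMap w₀ r t))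
        (deriv (fun w => v w⁻¹) (circleMap w₀ r t) * (circleMap 0 r t * Complex.I)) t := by
    intro t ht
    have h3 : HasDerivAt (fun w => v w⁻¹) (deriv (fun w => v w⁻¹) (circleMap w₀ r t))
        (circleMap w₀ r t) := (hd.differentiableAt (hKo.mem_nhds ht.2)).hasDerivAt
    exact h3.scomp_of_eq t (hasDerivAt_circleMap w₀ r t) rfl |>.congr_deriv (by
      rw [smul_eq_mul, mul_comm])
  have hcc : ContinuousOn (fun t => deriv (fun w => v w⁻¹) (circleMap w₀ r t) *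
      (circleMap 0 r t * Complex.I))
      {t : ℝ | t ∈ Ioo 0 (4 * Real.pi) ∧ circleMap w₀ r t ∈ Kᶜ} := by
    refine ContinuousOn.mul ?_ (by fun_prop)
    have h3 : ContinuousOn (deriv (fun w => v w⁻¹)) Kᶜ := (hd.deriv hKo).continuousOn
    exact h3.comp (continuous_circleMap w₀ r).continuousOn fun t ht => ht.2
  have hnorm : ∀ t ∈ {t : ℝ | t ∈ Ioo 0 (4 * Real.pi) ∧ circleMap w₀ r t ∈ Kᶜ},
      1 / 2 ≤ ‖(fun w => v w⁻¹) (circleMap w₀ r t)‖ := by
    intro t ht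
    have := hdepth t ht.1 ht.2
    beta_reduce
    linarith
  have hint' : (∫⁻ t in {t : ℝ | t ∈ Ioo 0 (4 * Real.pi) ∧ circleMap w₀ r t ∈ Kᶜ},
      ENNReal.ofReal ‖deriv (fun w => v w⁻¹) (circleMap w₀ r t) *
        (circleMap 0 r t * Complex.I)‖) ≤ ENNReal.ofReal η := by
    refine le_trans (le_of_eq ?_) hint
    refine lintegral_congr fun t => ?_
    congr 1
    rw [norm_mul, norm_mul, Complex.norm_I, mul_one, norm_circleMap_zero, abs_of_pos hr0, mul_comm]
  -- the rays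
  obtain ⟨θ₁, ⟨ha1, ha2⟩, hθ₁⟩ := good_ray hTo hcd hcc hnorm hη0 hint'
    (α := α) (β := min β (α + Real.pi))
    (by rcases min_cases β (α + Real.pi) with h | h <;> rw [h.1] <;> linarith)
    (by have := min_le_right β (α + Real.pi); linarith)
  obtain ⟨θ₂, ⟨hb1, hb2⟩, hθ₂⟩ := good_ray hTo hcd hcc hnorm hη0 hint'
    (α := β) (β := min (α + 2 * Real.pi) (β + Real.pi))
    (by rcases min_cases (α + 2 * Real.pi) (β + Real.pi) with h | h <;> rw [h.1] <;> linarith)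
    (by have := min_le_right (α + 2 * Real.pi) (β + Real.pi); linarith)
  refine ⟨r, η, θ₁, θ₂, hr0, hη0, hη1, ha1, lt_of_lt_of_le ha2 (min_le_left _ _), hb1,
    lt_of_lt_of_le hb2 (min_le_left _ _), ?_⟩
  intro w hw hwr
  obtain ⟨t, ht, rfl⟩ := LE_param w₀ hwr
  exact ⟨hdepth t ht hw, fun s hs => hθ₁ t ⟨ht, hw⟩ s hs, fun s hs => hθ₂ t ⟨ht, hw⟩ s hs⟩

/-- points whose radial segment misses the image of the circle -/
private theorem LE_far {K : Set ℂ} {ψ v : ℂ → ℂ} (hE : ExtMap K ψ v) {w₀ : ℂ} {r : ℝ}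
    (hr : 0 < r) {z : ℂ} (hz : z ∈ ball (0:ℂ) 1) (hz0 : z ≠ 0)
    (h : ∀ s : ℝ, 0 < s → s ≤ 1 → ∀ w, w ∉ K → dist w w₀ = r → v w⁻¹ ≠ s * z) :
    r < dist (ψ z)⁻¹ w₀ := by
  have hmem : ∀ s : ℝ, 0 < s → s ≤ 1 → (s * z : ℂ) ∈ ball (0:ℂ) 1 ∧ (s * z : ℂ) ≠ 0 := by
    intro s hs hs1
    refine ⟨?_, mul_ne_zero (by exact_mod_cast hs.ne') hz0⟩
    rw [mem_ball_zero_iff] at hz ⊢
    rw [norm_mul, Complex.norm_real, Real.norm_eq_abs, abs_of_pos hs]
    have := mul_le_of_le_one_left (norm_nonneg z) hs1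
    linarith
  have hne : ∀ s : ℝ, 0 < s → s ≤ 1 → dist (ψ (s * z))⁻¹ w₀ ≠ r := by
    intro s hs hs1 h1
    obtain ⟨m1, m2⟩ := hmem s hs hs1
    obtain ⟨f1, f2⟩ := LE_F hE m1 m2
    refine h s hs hs1 _ f2 h1 ?_
    rw [inv_inv]
    exact hE.vψ _ m1
  -- a point near zero
  obtain ⟨s₀, hs0, hs1, hs2⟩ : ∃ s : ℝ, 0 < s ∧ s ≤ 1 ∧ r < dist (ψ (s * z))⁻¹ w₀ := by
    have hc : ContinuousAt ψ 0 :=
      (hE.dψ.differentiableAt (ball_mem_nhds 0 one_pos)).continuousAt
    have h2 : Tendsto (fun s : ℝ => ψ (s * z)) (𝓝[>] 0) (𝓝 (ψ 0)) := by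
      refine hc.tendsto.comp ?_
      have h3 : Tendsto (fun s : ℝ => (s * z : ℂ)) (𝓝 0) (𝓝 ((0:ℝ) * z)) := by
        have : Continuous (fun s : ℝ => (s * z : ℂ)) := by fun_prop
        exact this.tendsto 0
      rw [Complex.ofReal_zero, zero_mul] at h3
      exact h3.mono_left nhdsWithin_le_nhds
    rw [hE.ψ0] at h2
    have h4 : ∀ᶠ s : ℝ in 𝓝[>] 0, ‖ψ (s * z)‖ < 1 / (r + ‖w₀‖ + 1) := by
      have h5 := h2.norm
      rw [norm_zero] at h5
      exact h5.eventually_lt_const (by positivity)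
    have h6 : ∀ᶠ s : ℝ in 𝓝[>] 0, s ≤ 1 :=
      nhdsWithin_le_nhds (Iic_mem_nhds one_pos)
    obtain ⟨s, hs, hs1, hs2⟩ := (h4.and (h6.and self_mem_nhdsWithin)).exists
    refine ⟨s, hs2, hs1, ?_⟩
    have hψ : 0 < ‖ψ (s * z)‖ := norm_pos_iff.2 (LE_F hE (hmem s hs2 hs1).1 (hmem s hs2 hs1).2).1
    have h7 : r + ‖w₀‖ + 1 < ‖(ψ (s * z))⁻¹‖ := by
      rw [norm_inv, lt_inv_comm₀ (by positivity) hψ, ← one_div]
      exact hs
    have h8 : ‖(ψ (s * z))⁻¹‖ ≤ dist (ψ (s * z))⁻¹ w₀ + ‖w₀‖ := by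
      rw [dist_eq_norm]
      exact norm_le_norm_sub_add _ _
    linarith
  -- intermediate values
  by_contra hcon
  push Not at hcon
  have hlt : dist (ψ ((1:ℝ) * z))⁻¹ w₀ < r := by
    refine lt_of_le_of_ne ?_ (hne 1 one_pos le_rfl)
    rw [Complex.ofReal_one, one_mul]
    exact hcon
  have hcont : ContinuousOn (fun s : ℝ => dist (ψ (s * z))⁻¹ w₀) (Icc s₀ 1) := by
    refine (continuous_id.dist continuous_const).comp_continuousOn (ContinuousOn.inv₀ ?_ ?_)
    · refine hE.dψ.continuousOn.comp (by fun_prop) fun s hs => ?_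
      exact (hmem s (lt_of_lt_of_le hs0 hs.1) hs.2).1
    · intro s hs
      have := hmem s (lt_of_lt_of_le hs0 hs.1) hs.2
      exact (LE_F hE this.1 this.2).1
  have h9 := intermediate_value_Icc' hs1 hcont
  obtain ⟨s, hs, h10⟩ := h9 (show r ∈ Icc _ _ from ⟨hlt.le, hs2.le⟩)
  exact hne s (lt_of_lt_of_le hs0 hs.1) hs.2 h10

private theorem LE_arg {t : ℝ} (h1 : -Real.pi < t) (h2 : t ≤ Real.pi) :
    Complex.arg (Complex.exp (t * Complex.I)) = t := by
  rw [Complex.exp_mul_I, Complex.arg_cos_add_sin_mul_I ⟨h1, h2⟩]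

private theorem LE_rot {z : ℂ} {θ τ : ℝ}
    (h : Complex.arg (z * Complex.exp (-(θ * Complex.I))) = τ) :
    z = ‖z‖ * Complex.exp ((τ + θ : ℝ) * Complex.I) := by
  have h1 := Complex.norm_mul_exp_arg_mul_I (z * Complex.exp (-(θ * Complex.I)))
  have h2 : ‖Complex.exp (-(θ * Complex.I))‖ = 1 := by
    have : -((θ:ℂ) * Complex.I) = ((-θ : ℝ) : ℂ) * Complex.I := by push_cast; ring
    rw [this, Complex.norm_exp_ofReal_mul_I]
  rw [h, norm_mul, h2, mul_one] at h1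
  have h3 : z = z * Complex.exp (-(θ * Complex.I)) * Complex.exp (θ * Complex.I) := by
    rw [mul_assoc, ← Complex.exp_add]
    simp
  rw [h3, ← h1, mul_assoc, ← Complex.exp_add]
  congr 2
  · have h5 : (τ : ℂ) * Complex.I + θ * Complex.I = ((τ + θ : ℝ) : ℂ) * Complex.I := by
      push_cast; ring
    rw [norm_mul, Complex.norm_real, norm_norm, h5, Complex.norm_exp_ofReal_mul_I, mul_one]
  · push_cast
    ring

private theorem LE_ca {θ : ℝ} {x : ℂ} (hx : x ≠ 0)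
    (h : Complex.arg (x * Complex.exp (-(θ * Complex.I))) ≠ Real.pi) :
    ContinuousAt (fun x : ℂ => Complex.arg (x * Complex.exp (-(θ * Complex.I)))) x := by
  have hζ : Continuous (fun x : ℂ => x * Complex.exp (-(θ * Complex.I))) := by fun_prop
  refine ContinuousAt.comp (g := Complex.arg) (f := fun x : ℂ => x * Complex.exp (-(θ * Complex.I)))
    (x := x) (Complex.continuousAt_arg ?_) hζ.continuousAt
  rw [Complex.mem_slitPlane_iff_arg]
  exact ⟨h, mul_ne_zero hx (Complex.exp_ne_zero _)⟩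

private theorem LE_main {K : Set ℂ} (hK : IsCompact K) (hc : IsConnected K) (h0 : (0:ℂ) ∈ K)
    (hn : K.Nontrivial) {ψ v : ℂ → ℂ} (hE : ExtMap K ψ v) (γ : ℕ → Set ℂ)
    (hγ : ∀ n, IsPreconnected (γ n)) (hγD : ∀ n, γ n ⊆ ball 0 1 \ {0}) {w₀ : ℂ} (hw₀ : w₀ ∈ K)
    (hlim : ∀ ε > 0, ∀ᶠ n in atTop, ∀ z ∈ γ n, dist (ψ z)⁻¹ w₀ < ε) (z z' : ℕ → ℂ)
    (hz : ∀ n, z n ∈ γ n) (hz' : ∀ n, z' n ∈ γ n) {α β : ℝ}
    (ha : Tendsto z atTop (𝓝 (Complex.exp (α * Complex.I))))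
    (hb : Tendsto z' atTop (𝓝 (Complex.exp (β * Complex.I)))) (h1 : α < β)
    (h2 : β < α + 2 * Real.pi) : False := by
  obtain ⟨r, η, θ₁, θ₂, hr, hη, hη1, ha1, ha2, hb1, hb2, hw⟩ := LE_circle hK hc h0 hn hE hw₀ h1 h2
  have hpi := Real.pi_pos
  have hfar : ∀ x ∈ ball (0:ℂ) 1, x ≠ 0 → ∀ θ : ℝ, (θ = θ₁ ∨ θ = θ₂) →
      x = ‖x‖ * Complex.exp (θ * Complex.I) → r < dist (ψ x)⁻¹ w₀ := by
    intro x hx hx0 θ hθ hxe
    refine LE_far hE hr hx hx0 fun s hs _ w hwK hwr => ?_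
    have hs' : 0 < s * ‖x‖ := mul_pos hs (norm_pos_iff.2 hx0)
    have e : (s : ℂ) * x = ((s * ‖x‖ : ℝ) : ℂ) * Complex.exp (θ * Complex.I) := by
      conv_lhs => rw [hxe]
      push_cast
      ring
    rw [e]
    rcases hθ with rfl | rfl
    · exact (hw w hwK hwr).2.1 _ hs'
    · exact (hw w hwK hwr).2.2 _ hs'
  -- the function
  have hexp : ∀ t : ℝ, Complex.exp (t * Complex.I) *
      Complex.exp (-(((θ₁ + Real.pi : ℝ) : ℂ) * Complex.I)) =
      Complex.exp ((t - θ₁ - Real.pi : ℝ) * Complex.I) := by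
    intro t
    rw [← Complex.exp_add]
    congr 1
    push_cast
    ring
  have hargb : Complex.arg (Complex.exp (β * Complex.I) *
      Complex.exp (-(((θ₁ + Real.pi : ℝ) : ℂ) * Complex.I))) = β - θ₁ - Real.pi := by
    rw [hexp, LE_arg (by linarith) (by linarith)]
  have harga : Complex.arg (Complex.exp (α * Complex.I) *
      Complex.exp (-(((θ₁ + Real.pi : ℝ) : ℂ) * Complex.I))) = α + Real.pi - θ₁ := by
    have e : Complex.exp (α * Complex.I) = Complex.exp (((α + 2 * Real.pi : ℝ) : ℂ) * Complex.I) := by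
      have : (((α + 2 * Real.pi : ℝ) : ℂ) * Complex.I) = α * Complex.I + 2 * Real.pi * Complex.I := by
        push_cast; ring
      rw [this, Complex.exp_add, Complex.exp_two_pi_mul_I, mul_one]
    rw [e, hexp, LE_arg (by linarith) (by linarith)]
    ring
  have hcontA := LE_ca (θ := θ₁ + Real.pi) (Complex.exp_ne_zero (α * Complex.I))
    (by rw [harga]; linarith)
  have hcontB := LE_ca (θ := θ₁ + Real.pi) (Complex.exp_ne_zero (β * Complex.I))
    (by rw [hargb]; linarith)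
  have e1 := (hcontA.tendsto.comp ha).eventually_const_lt
    (show θ₂ - θ₁ - Real.pi < _ by rw [harga]; linarith)
  have e2 := (hcontB.tendsto.comp hb).eventually_lt_const
    (show _ < θ₂ - θ₁ - Real.pi by rw [hargb]; linarith)
  obtain ⟨n, hn1, hn2, hn3⟩ := (e1.and (e2.and (hlim r hr))).exists
  have hg : ∀ x ∈ γ n, ∀ θ : ℝ, (θ = θ₁ ∨ θ = θ₂) → x ≠ ‖x‖ * Complex.exp (θ * Complex.I) := by
    intro x hx θ hθ hxe
    have h3 := hfar x (hγD n hx).1 (hγD n hx).2 θ hθ hxe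
    have h4 := hn3 x hx
    linarith
  have hcont : ContinuousOn (fun x : ℂ => Complex.arg (x *
      Complex.exp (-(((θ₁ + Real.pi : ℝ) : ℂ) * Complex.I)))) (γ n) := by
    intro x hx
    refine ContinuousAt.continuousWithinAt (LE_ca (hγD n hx).2 ?_)
    intro h3
    have h4 := LE_rot h3
    refine hg x hx θ₁ (Or.inl rfl) ?_
    have e : Complex.exp (((Real.pi + (θ₁ + Real.pi) : ℝ) : ℂ) * Complex.I) =
        Complex.exp (θ₁ * Complex.I) := by
      have : (((Real.pi + (θ₁ + Real.pi) : ℝ) : ℂ) * Complex.I) =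
          θ₁ * Complex.I + 2 * Real.pi * Complex.I := by
        push_cast; ring
      rw [this, Complex.exp_add, Complex.exp_two_pi_mul_I, mul_one]
    rw [e] at h4
    exact h4
  obtain ⟨x, hx, hxe⟩ := (hγ n).intermediate_value (hz' n) (hz n) hcont
    (show θ₂ - θ₁ - Real.pi ∈ Icc _ _ from ⟨le_of_lt hn2, le_of_lt hn1⟩)
  have h4 := LE_rot hxe
  have e : θ₂ - θ₁ - Real.pi + (θ₁ + Real.pi) = θ₂ := by ring
  rw [e] at h4
  exact hg x hx θ₂ (Or.inr rfl) h4

theorem no_long {K : Set ℂ} (hK : IsCompact K) (hc : IsConnected K) (h0 : (0:ℂ) ∈ K)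
    (hn : K.Nontrivial) {ψ v : ℂ → ℂ} (hE : ExtMap K ψ v) (γ : ℕ → Set ℂ)
    (hγ : ∀ n, IsPreconnected (γ n)) (hγD : ∀ n, γ n ⊆ ball 0 1 \ {0}) {w₀ : ℂ} (hw₀ : w₀ ∈ K)
    (hlim : ∀ ε > 0, ∀ᶠ n in atTop, ∀ z ∈ γ n, dist (ψ z)⁻¹ w₀ < ε) (z z' : ℕ → ℂ)
    (hz : ∀ n, z n ∈ γ n) (hz' : ∀ n, z' n ∈ γ n) {a b : ℂ} (ha : Tendsto z atTop (𝓝 a))
    (hb : Tendsto z' atTop (𝓝 b)) : a = b := by
  have hF : ∀ x : ℕ → ℂ, (∀ n, x n ∈ γ n) → Tendsto (fun n => (ψ (x n))⁻¹) atTop (𝓝 w₀) := by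
    intro x hx
    rw [Metric.tendsto_nhds]
    intro ε hε
    filter_upwards [hlim ε hε] with n h
    exact h _ (hx n)
  have hna := LE_norm hK h0 hE hw₀ (fun n => hγD n (hz n)) (hF z hz) ha
  have hnb := LE_norm hK h0 hE hw₀ (fun n => hγD n (hz' n)) (hF z' hz') hb
  have ea : a = Complex.exp (Complex.arg a * Complex.I) := by
    have := Complex.norm_mul_exp_arg_mul_I a
    rw [hna, Complex.ofReal_one, one_mul] at this
    exact this.symm
  have eb : b = Complex.exp (Complex.arg b * Complex.I) := by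
    have := Complex.norm_mul_exp_arg_mul_I b
    rw [hnb, Complex.ofReal_one, one_mul] at this
    exact this.symm
  have a1 := Complex.neg_pi_lt_arg a
  have a2 := Complex.arg_le_pi a
  have b1 := Complex.neg_pi_lt_arg b
  have b2 := Complex.arg_le_pi b
  rcases lt_trichotomy (Complex.arg a) (Complex.arg b) with h | h | h
  · exfalso
    rw [ea] at ha
    rw [eb] at hb
    exact LE_main hK hc h0 hn hE γ hγ hγD hw₀ hlim z z' hz hz' ha hb h (by linarith)
  · rw [ea, eb, h]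
  · exfalso
    rw [ea] at ha
    rw [eb] at hb
    exact LE_main hK hc h0 hn hE γ hγ hγD hw₀ hlim z' z hz' hz hb ha h (by linarith)

end DS

end S_H36_DS_LE

section S_H36_DS_SM

/-!
SM (multipliers of iterates).
`iterDeriv_iter`: `(f^[m])^[1] = f^[m]`.  `iterDeriv_pow`: chain rule `mfderiv_comp` at the fixed point of `f^[m]`, induction.
`tr_two`: for a linear map `A` of a two dimensional space with determinant one `A² - (tr A) A + 1 = 0`
(Cayley-Hamilton), so `tr (A²) = (tr A)² - 2`.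
`trichotomy`: let `q = minimalPeriod f P`, `n = q k`, `A = iterDeriv f q P`, `det A = 1`; its characteristic polynomial is
`X² - t X + 1`, `t = tr A`, with complex roots `λ`, `λ⁻¹`; `Cond1` says that `λ^j ≠ 1` for all `j > 0`.  `tr (A^k) = λ^k + λ^{-k}`.
If `|t| < 2`: `λ = e^{iθ}`, `tr (A^k) = 2 cos (kθ)`, and `λ^{2k} ≠ 1` gives `|2 cos (kθ)| < 2`.  `|t| = 2` is impossible
(`λ = ±1`, `λ² = 1`).  If `|t| > 2`: `λ` is real, `|λ| ≠ 1`, `P` is hyperbolic and `|λ^k + λ^{-k}| > 2`.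
-/

namespace DS
open Metric Set Filter Topology Function MeasureTheory
open scoped Manifold ContDiff

theorem iterDeriv_iter (f : S2 → S2) (m : ℕ) (P : S2) :
    iterDeriv (f^[m]) 1 P = iterDeriv f m P := by
  unfold iterDeriv
  rw [Function.iterate_one]

private theorem SM_iter {f : S2 → S2} (cf : ContMDiff (𝓡 2) (𝓡 2) 1 f) (k : ℕ) :
    ContMDiff (𝓡 2) (𝓡 2) 1 (f^[k]) := by
  induction k with
  | zero => exact contMDiff_id
  | succ k ih =>
    rw [Function.iterate_succ']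
    exact cf.comp ih

private theorem SM_add {f : S2 → S2} (cf : ContMDiff (𝓡 2) (𝓡 2) 1 f) (a b : ℕ) (P : S2) :
    iterDeriv f (a + b) P = (iterDeriv f a (f^[b] P)).comp (iterDeriv f b P) := by
  unfold iterDeriv
  rw [Function.iterate_add]
  exact mfderiv_comp P ((SM_iter cf a).mdifferentiable (by norm_num) (f^[b] P))
    ((SM_iter cf b).mdifferentiable (by norm_num) P)

theorem iterDeriv_pow {f : S2 → S2} (cf : ContMDiff (𝓡 2) (𝓡 2) 1 f) {m : ℕ} {P : S2}
    (hP : f^[m] P = P) (k : ℕ) :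
    (iterDeriv f (m * k) P : E2 →ₗ[ℝ] E2) = (iterDeriv f m P : E2 →ₗ[ℝ] E2) ^ k := by
  induction k with
  | zero =>
    rw [Nat.mul_zero, pow_zero]
    unfold iterDeriv
    rw [Function.iterate_zero, mfderiv_id]
    rfl
  | succ k ih =>
    rw [Nat.mul_succ, SM_add cf, hP, pow_succ, ← ih]
    rfl

private theorem SM_charpoly (A : E2 →ₗ[ℝ] E2) (hA : LinearMap.det A = 1) :
    A.charpoly = Polynomial.X ^ 2 - Polynomial.C (LinearMap.trace ℝ E2 A) * Polynomial.X + 1 := by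
  have b : Module.Basis (Fin 2) ℝ E2 := (EuclideanSpace.basisFun (Fin 2) ℝ).toBasis
  rw [← LinearMap.charpoly_toMatrix A b, Matrix.charpoly_fin_two, LinearMap.trace_eq_matrix_trace ℝ b A,
    LinearMap.det_toMatrix, hA, map_one]

private theorem SM_sq (A : E2 →ₗ[ℝ] E2) (hA : LinearMap.det A = 1) :
    A ^ 2 = (LinearMap.trace ℝ E2 A) • A - 1 := by
  have h := LinearMap.aeval_self_charpoly A
  rw [SM_charpoly A hA] at h
  simp only [map_add, map_sub, map_mul, map_pow, Polynomial.aeval_X, Polynomial.aeval_C, map_one,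
    Module.algebraMap_end_eq_smul_id] at h
  have h2 : (LinearMap.trace ℝ E2 A • LinearMap.id) * A = LinearMap.trace ℝ E2 A • A := by
    ext x
    rfl
  rw [h2] at h
  have h3 : A ^ 2 = (A ^ 2 - (LinearMap.trace ℝ E2 A) • A + 1) + ((LinearMap.trace ℝ E2 A) • A - 1) := by
    abel
  rw [h, zero_add] at h3
  exact h3

private theorem SM_tr_one : LinearMap.trace ℝ E2 (1 : E2 →ₗ[ℝ] E2) = 2 := by
  rw [LinearMap.trace_one]
  simp

private theorem SM_rec (A : E2 →ₗ[ℝ] E2) (hA : LinearMap.det A = 1) (k : ℕ) :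
    LinearMap.trace ℝ E2 (A ^ (k + 2)) =
      LinearMap.trace ℝ E2 A * LinearMap.trace ℝ E2 (A ^ (k + 1)) - LinearMap.trace ℝ E2 (A ^ k) := by
  have h : A ^ (k + 2) = (LinearMap.trace ℝ E2 A) • A ^ (k + 1) - A ^ k := by
    rw [pow_add, SM_sq A hA, mul_sub, mul_one, mul_smul_comm, ← pow_succ]
  rw [h, map_sub, map_smul, smul_eq_mul]

private theorem SM_complex (A : E2 →ₗ[ℝ] E2) (hA : LinearMap.det A = 1) (z : ℂ) (hz0 : z ≠ 0)
    (hz : z + z⁻¹ = ((LinearMap.trace ℝ E2 A : ℝ) : ℂ)) (k : ℕ) :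
    ((LinearMap.trace ℝ E2 (A ^ k) : ℝ) : ℂ) = z ^ k + z⁻¹ ^ k ∧
    ((LinearMap.trace ℝ E2 (A ^ (k + 1)) : ℝ) : ℂ) = z ^ (k + 1) + z⁻¹ ^ (k + 1) := by
  induction k with
  | zero =>
    refine ⟨?_, ?_⟩
    · rw [pow_zero, SM_tr_one]
      norm_num
    · rw [zero_add, pow_one, pow_one, pow_one, hz]
  | succ k ih =>
    refine ⟨ih.2, ?_⟩
    rw [show k + 1 + 1 = k + 2 by ring, SM_rec A hA k]
    push_cast
    rw [ih.1, ih.2, ← hz]
    have h1 : z * z⁻¹ = 1 := mul_inv_cancel₀ hz0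
    have e1 : z * z⁻¹ ^ (k + 1) = z⁻¹ ^ k := by
      rw [pow_succ', ← mul_assoc, h1, one_mul]
    have e2 : z⁻¹ * z ^ (k + 1) = z ^ k := by
      rw [pow_succ', ← mul_assoc, inv_mul_cancel₀ hz0, one_mul]
    have e3 : z * z ^ (k + 1) = z ^ (k + 2) := (pow_succ' z (k + 1)).symm
    have e4 : z⁻¹ * z⁻¹ ^ (k + 1) = z⁻¹ ^ (k + 2) := (pow_succ' z⁻¹ (k + 1)).symm
    linear_combination e1 + e2 + e3 + e4

theorem tr_two {f fi : S2 → S2} {ν : Measure S2} (hS : Sys f fi ν) {m : ℕ} {P : S2}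
    (hP : f^[m] P = P) : tr f (2 * m) P = tr f m P ^ 2 - 2 := by
  have hA : LinearMap.det (iterDeriv f m P : E2 →ₗ[ℝ] E2) = 1 := hS.det1 P m hP
  unfold tr
  rw [Nat.mul_comm, iterDeriv_pow hS.cf hP 2]
  have h := SM_rec _ hA 0
  rw [zero_add, zero_add, pow_one, pow_zero, SM_tr_one] at h
  rw [h]
  ring

private theorem SM_root (A : E2 →ₗ[ℝ] E2) (hA : LinearMap.det A = 1) (μ : ℂ) :
    μ ∈ (A.charpoly.map (algebraMap ℝ ℂ)).roots ↔
      μ ^ 2 - ((LinearMap.trace ℝ E2 A : ℝ) : ℂ) * μ + 1 = 0 := by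
  have hne : A.charpoly.map (algebraMap ℝ ℂ) ≠ 0 :=
    ((LinearMap.charpoly_monic A).map _).ne_zero
  rw [Polynomial.mem_roots hne, Polynomial.IsRoot, SM_charpoly A hA]
  simp

/-- real trace at most `2` forces modulus one -/
private theorem SM_norm (w : ℂ) (T : ℝ) (hT : |T| ≤ 2) (hw : w ^ 2 - (T : ℂ) * w + 1 = 0) : ‖w‖ = 1 := by
  have hre := congrArg Complex.re hw
  have him := congrArg Complex.im hw
  simp only [Complex.add_re, Complex.sub_re, Complex.mul_re, Complex.ofReal_re, Complex.ofReal_im,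
    Complex.one_re, Complex.zero_re, pow_two, zero_mul, sub_zero] at hre
  simp only [Complex.add_im, Complex.sub_im, Complex.mul_im, Complex.ofReal_re, Complex.ofReal_im,
    Complex.one_im, Complex.zero_im, pow_two, zero_mul, add_zero] at him
  have hT2 : T ^ 2 ≤ 4 := by
    have := sq_le_sq' (abs_le.mp hT).1 (abs_le.mp hT).2
    linarith
  have hsq : w.re ^ 2 + w.im ^ 2 = 1 := by
    have h1 : w.im * (2 * w.re - T) = 0 := by linarith
    rcases mul_eq_zero.mp h1 with h2 | h2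
    · have h3 : (w.re - T / 2) ^ 2 = T ^ 2 / 4 - 1 := by
        rw [h2] at hre
        nlinarith
      have h4 : (w.re - T / 2) ^ 2 = 0 := le_antisymm (by linarith) (sq_nonneg _)
      have h5 : w.re = T / 2 := by
        have := pow_eq_zero_iff (n := 2) (by norm_num) |>.mp h4
        linarith
      rw [h2, h5]
      nlinarith
    · have h5 : T = 2 * w.re := by linarith
      rw [h5] at hre
      nlinarith
  have h6 : ‖w‖ ^ 2 = 1 := by
    rw [← Complex.normSq_eq_norm_sq, Complex.normSq_apply]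
    nlinarith
  exact (pow_eq_one_iff_of_nonneg (norm_nonneg w) (by norm_num)).mp h6

theorem trichotomy {f fi : S2 → S2} {ν : Measure S2} (hS : Sys f fi ν) {n : ℕ} (hn : 0 < n)
    {P : S2} (hP : f^[n] P = P) : |tr f n P| < 2 ∨ (Hyperbolic f P ∧ 2 < |tr f n P|) := by
  have hper : P ∈ periodicPts f := mk_mem_periodicPts hn hP
  obtain ⟨q, hq⟩ : ∃ q, q = minimalPeriod f P := ⟨_, rfl⟩
  have hqP : f^[q] P = P := by rw [hq]; exact iterate_minimalPeriod
  obtain ⟨k, hk⟩ : q ∣ n := by rw [hq]; exact IsPeriodicPt.minimalPeriod_dvd hP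
  have hk0 : 0 < k := by
    rcases Nat.eq_zero_or_pos k with h | h
    · rw [h, Nat.mul_zero] at hk; omega
    · exact h
  set A : E2 →ₗ[ℝ] E2 := (iterDeriv f q P : E2 →ₗ[ℝ] E2) with hAdef
  have hA : LinearMap.det A = 1 := hS.det1 P q hqP
  have htr : tr f n P = LinearMap.trace ℝ E2 (A ^ k) := by
    unfold tr
    rw [hk, iterDeriv_pow hS.cf hqP k]
  have hmult : ∀ μ : ℂ, IsMultiplier f P μ ↔ μ ^ 2 - ((LinearMap.trace ℝ E2 A : ℝ) : ℂ) * μ + 1 = 0 := by
    intro μ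
    unfold IsMultiplier
    rw [← hq]
    exact SM_root A hA μ
  -- a root
  obtain ⟨z, hz⟩ : ∃ z : ℂ, z ^ 2 - ((LinearMap.trace ℝ E2 A : ℝ) : ℂ) * z + 1 = 0 := by
    obtain ⟨s, hs⟩ := IsAlgClosed.exists_pow_nat_eq
      (((LinearMap.trace ℝ E2 A : ℝ) : ℂ) ^ 2 - 4) (n := 2) (by norm_num)
    refine ⟨(((LinearMap.trace ℝ E2 A : ℝ) : ℂ) + s) / 2, ?_⟩
    linear_combination (1 / 4) * hs
  have hz0 : z ≠ 0 := by
    rintro rfl
    norm_num at hz
  have hzz : z + z⁻¹ = ((LinearMap.trace ℝ E2 A : ℝ) : ℂ) := by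
    field_simp
    linear_combination hz
  have hT := (SM_complex A hA z hz0 hzz k).1
  rw [← htr] at hT
  by_cases hnorm : ‖z‖ = 1
  · left
    set w := z ^ k with hw
    have hwn : ‖w‖ = 1 := by rw [hw, norm_pow, hnorm, one_pow]
    have hwinv : z⁻¹ ^ k = (starRingEnd ℂ) w := by
      rw [inv_pow, ← hw, Complex.inv_def, Complex.normSq_eq_norm_sq, hwn]
      simp
    rw [hwinv, Complex.add_conj] at hT
    have hT' : tr f n P = 2 * w.re := by exact_mod_cast hT
    have hre : |w.re| ≤ 1 := by rw [← hwn]; exact Complex.abs_re_le_norm w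
    have hne : |w.re| ≠ 1 := by
      intro h1
      have h2 : w.re ^ 2 = 1 := by rw [← sq_abs, h1, one_pow]
      have h3 : w.re ^ 2 + w.im ^ 2 = 1 := by
        have : ‖w‖ ^ 2 = 1 := by rw [hwn, one_pow]
        rw [← Complex.normSq_eq_norm_sq, Complex.normSq_apply] at this
        nlinarith
      have h4 : w.im = 0 := by
        have : w.im ^ 2 = 0 := by linarith
        exact pow_eq_zero_iff (n := 2) (by norm_num) |>.mp this
      have h5 : w ^ 2 = 1 := by
        apply Complex.ext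
        · rw [pow_two, Complex.mul_re, h4]
          simp only [mul_zero, sub_zero, Complex.one_re]
          nlinarith
        · rw [pow_two, Complex.mul_im, h4]
          simp
      have h6 : z ^ (k * 2) = 1 := by rw [pow_mul, ← hw]; exact h5
      exact hS.h1 P hper z ((hmult z).2 hz) (k * 2) (by omega) h6
    rw [hT', abs_mul, abs_two]
    have := lt_of_le_of_ne hre hne
    linarith
  · right
    constructor
    · refine ⟨hper, fun μ hμ => ?_⟩
      have h1 := (hmult μ).1 hμ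
      have h2 : (μ - z) * (μ - z⁻¹) = 0 := by
        have h3 : z * z⁻¹ = 1 := mul_inv_cancel₀ hz0
        rw [← hzz] at h1
        linear_combination h1 + h3
      rcases mul_eq_zero.mp h2 with h3 | h3
      · rw [sub_eq_zero.mp h3]; exact hnorm
      · rw [sub_eq_zero.mp h3, norm_inv]
        intro h4
        exact hnorm (inv_eq_one.mp h4)
    · by_contra hcon
      push Not at hcon
      set w := z ^ k with hw
      have hw0 : w ≠ 0 := pow_ne_zero _ hz0
      have hroot : w ^ 2 - ((tr f n P : ℝ) : ℂ) * w + 1 = 0 := by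
        rw [hT, inv_pow, ← hw]
        field_simp
        ring
      have h1 := SM_norm w (tr f n P) hcon hroot
      rw [hw, norm_pow] at h1
      exact hnorm ((pow_eq_one_iff_of_nonneg (norm_nonneg z) hk0.ne').mp h1)

end DS

end S_H36_DS_SM

section S_H36_DS_XB

/-!
XB (the Riemann map of the complement of a continuum of the sphere satisfies the two metric properties).
Write `φ z = O` for `z = 0`, `φ z = q (k₀ + (ψ z)⁻¹)` otherwise, `u x = 0` for `x = O`, `u x = v ((p x - k₀)⁻¹)` otherwise, and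
`K' = q '' ((k₀ + ·) '' K)`; note `O ∉ K'`.
Continuity: away from `0` and `O` clear (`ψ z ≠ 0` for `z ≠ 0`, `k₀ + (ψ z)⁻¹ ∉ k₀ + K`); at `0`: `(ψ z)⁻¹ → ∞` and `q_lim`;
at `O`: `(p x - k₀)⁻¹ → 0` by `p_lim`, and `v 0 = v (ψ 0) = 0`.
`L1`: `F z = (ψ z)⁻¹` on `ball 0 1 ∩ ball ζ (1/2)` is holomorphic, injective and bounded (`ψ` is injective and open with
`ψ 0 = 0`, so `‖ψ z‖ ≥ c > 0` for `1/2 ≤ ‖z‖ < 1`); `small_arc` gives the arcs, and `q` is uniformly continuous on bounded sets.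
`L0`: otherwise there are `ε > 0` and connected `γ n` in the disc with `φ`-image of diameter `< 1/(n+1)`, and points
`z n, z' n ∈ γ n` with `dist ≥ ε`.  Pass to a subsequence: `φ (z n) → x₀`, `z n → a`, `z' n → b`, `dist a b ≥ ε`.  If `x₀ ∉ K'`
then `z n = u (φ (z n)) → u x₀` and the same for `z' n` (as `φ (z' n) → x₀`), contradiction.  If `x₀ = q (k₀ + w₀)`,
`w₀ ∈ K`: all points of `φ '' γ n` are close to `x₀ ≠ O`, so `γ n` does not contain `0` for large `n` and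
`(ψ z)⁻¹ = p (φ z) - k₀ → w₀` uniformly for `z ∈ γ n`; `no_long` gives `a = b`, contradiction.
-/

namespace DS
open Metric Set Filter Topology Function

private theorem XB_isOpen {K : Set ℂ} (hK : IsCompact K) : IsOpen (extDom K) := by
  rw [isOpen_iff_mem_nhds]
  rintro w hw
  by_cases hw0 : w = 0
  · subst hw0
    obtain ⟨R, hR⟩ := hK.isBounded.subset_closedBall (0:ℂ)
    have hR1 : 0 < max R 1 := lt_of_lt_of_le one_pos (le_max_right _ _)
    filter_upwards [ball_mem_nhds (0:ℂ) (inv_pos.mpr hR1)] with x hx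
    by_cases hx0 : x = 0
    · exact Or.inl hx0
    · refine Or.inr fun hxK => ?_
      have h1 := hR hxK
      rw [mem_closedBall_zero_iff, norm_inv] at h1
      rw [mem_ball_zero_iff] at hx
      have hxp : 0 < ‖x‖ := norm_pos_iff.mpr hx0
      have h2 : max R 1 < ‖x‖⁻¹ := by
        rw [lt_inv_comm₀ hR1 hxp]; exact hx
      have := le_max_left R 1
      linarith
  · have hw' : w⁻¹ ∉ K := hw.resolve_left hw0
    have h1 : (fun x : ℂ => x⁻¹) ⁻¹' Kᶜ ∈ 𝓝 w :=
      (continuousAt_inv₀ hw0).preimage_mem_nhds (hK.isClosed.isOpen_compl.mem_nhds hw')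
    filter_upwards [h1] with x hx
    exact Or.inr hx

private theorem XB_F {K : Set ℂ} {ψ v : ℂ → ℂ} (hE : ExtMap K ψ v) {z : ℂ}
    (hz : z ∈ ball (0:ℂ) 1) (hz0 : z ≠ 0) : ψ z ≠ 0 ∧ (ψ z)⁻¹ ∉ K := by
  have h1 : ψ z ≠ 0 := by
    intro h
    have h2 := hE.vψ z hz
    have h3 := hE.vψ 0 (by simp)
    rw [h] at h2
    rw [hE.ψ0] at h3
    exact hz0 (h2.symm.trans h3)
  refine ⟨h1, ?_⟩
  rcases hE.mψ hz with h | h
  · exact absurd h h1
  · exact h

private theorem XB_aux {O : S2} {p : S2 → ℂ} {q : ℂ → S2} (hS : SC O p q) {K : Set ℂ}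
    (hK : IsCompact K) (hc : IsConnected K) (h0 : (0:ℂ) ∈ K) (hn : K.Nontrivial) {ψ v : ℂ → ℂ}
    (hE : ExtMap K ψ v) (k₀ : ℂ) {φ : ℂ → S2} {u : S2 → ℂ} (hφ0 : φ 0 = O)
    (hφ : ∀ z, z ≠ 0 → φ z = q (k₀ + (ψ z)⁻¹)) (hu0 : u O = 0)
    (hu : ∀ x, x ≠ O → u x = v ((p x - k₀)⁻¹)) :
    DiscMap (q '' ((fun z => k₀ + z) '' K)) φ u := by
  have hqc : Continuous q := hS.q_smooth.continuous
  have hpc : ∀ x, x ≠ O → ContinuousAt p x := fun x hx =>
    hS.p_smooth.continuousOn.continuousAt (isOpen_compl_singleton.mem_nhds hx)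
  have hinj : Injective q := fun a b hab => by
    have := congrArg p hab
    rwa [hS.pq, hS.pq] at this
  have h0b : (0:ℂ) ∈ ball (0:ℂ) 1 := mem_ball_self one_pos
  have hv0 : v 0 = 0 := by
    have := hE.vψ 0 h0b
    rwa [hE.ψ0] at this
  have hopen := XB_isOpen hK
  have h0e : (0:ℂ) ∈ extDom K := Or.inl rfl
  have hvc : ∀ w ∈ extDom K, ContinuousAt v w := fun w hw =>
    (hE.dv.differentiableAt (hopen.mem_nhds hw)).continuousAt
  have hψc : ∀ z ∈ ball (0:ℂ) 1, ContinuousAt ψ z := fun z hz =>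
    (hE.dψ.differentiableAt (isOpen_ball.mem_nhds hz)).continuousAt
  -- complement of `K'`
  have hK'1 : ∀ x, x ≠ O → x ∉ q '' ((fun z => k₀ + z) '' K) → p x - k₀ ∉ K := by
    intro x hx hxK hpx
    apply hxK
    refine ⟨p x, ⟨p x - k₀, hpx, ?_⟩, hS.qp x hx⟩
    show k₀ + (p x - k₀) = p x
    ring
  have hK'O : O ∉ q '' ((fun z => k₀ + z) '' K) := by
    rintro ⟨w, -, hw⟩
    exact hS.q_ne w hw
  have hφmaps : MapsTo φ (ball 0 1) (q '' ((fun z => k₀ + z) '' K))ᶜ := by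
    intro z hz
    by_cases hz0 : z = 0
    · rw [hz0, hφ0]; exact hK'O
    · rw [hφ z hz0]
      rintro ⟨w, ⟨k, hk, rfl⟩, hw⟩
      have h1 := hinj hw
      have h2 : k = (ψ z)⁻¹ := by
        have h3 : k₀ + k = k₀ + (ψ z)⁻¹ := h1
        exact add_left_cancel h3
      exact (XB_F hE hz hz0).2 (h2 ▸ hk)
  have hφne : ∀ z, z ≠ 0 → φ z ≠ O := by
    intro z hz
    rw [hφ z hz]
    exact hS.q_ne _
  have hpφ : ∀ z, z ≠ 0 → p (φ z) = k₀ + (ψ z)⁻¹ := by
    intro z hz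
    rw [hφ z hz, hS.pq]
  have hφcont : ContinuousOn φ (ball 0 1) := by
    intro z hz
    apply ContinuousAt.continuousWithinAt
    by_cases hz0 : z = 0
    · subst hz0
      rw [continuousAt_iff_punctured_nhds, hφ0]
      have hev : ∀ᶠ z : ℂ in 𝓝[≠] 0, q (k₀ + (ψ z)⁻¹) = φ z := by
        filter_upwards [self_mem_nhdsWithin] with z hz
        exact (hφ z hz).symm
      refine Tendsto.congr' hev ?_
      have h1 : Tendsto ψ (𝓝[≠] 0) (𝓝[≠] 0) := by
        rw [tendsto_nhdsWithin_iff]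
        constructor
        · have h2 := (hψc 0 h0b).tendsto
          rw [hE.ψ0] at h2
          exact h2.mono_left nhdsWithin_le_nhds
        · have hb : ball (0:ℂ) 1 ∈ 𝓝[≠] (0:ℂ) := mem_nhdsWithin_of_mem_nhds (isOpen_ball.mem_nhds h0b)
          filter_upwards [hb, self_mem_nhdsWithin] with z hz hz0
          exact (XB_F hE hz hz0).1
      have h2 : Tendsto (fun z => (ψ z)⁻¹) (𝓝[≠] 0) (Bornology.cobounded ℂ) :=
        tendsto_inv₀_nhdsNE_zero.comp h1
      have h3 : Tendsto (fun z => k₀ + (ψ z)⁻¹) (𝓝[≠] 0) (Bornology.cobounded ℂ) :=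
        (tendsto_const_add_cobounded k₀).comp h2
      rw [Metric.cobounded_eq_cocompact] at h3
      exact hS.q_lim.comp h3
    · have hev : (fun z => q (k₀ + (ψ z)⁻¹)) =ᶠ[𝓝 z] φ := by
        filter_upwards [isOpen_ne.mem_nhds hz0] with w hw
        exact (hφ w hw).symm
      refine ContinuousAt.congr ?_ hev
      have h1 : ContinuousAt (fun z => k₀ + (ψ z)⁻¹) z :=
        continuousAt_const.add ((hψc z hz).inv₀ (XB_F hE hz hz0).1)
      exact hqc.continuousAt.comp h1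
  have hucont : ContinuousOn u (q '' ((fun z => k₀ + z) '' K))ᶜ := by
    intro x hx
    apply ContinuousAt.continuousWithinAt
    by_cases hxO : x = O
    · subst hxO
      rw [continuousAt_iff_punctured_nhds, hu0]
      have hev : ∀ᶠ y : S2 in 𝓝[≠] x, v ((p y - k₀)⁻¹) = u y := by
        filter_upwards [self_mem_nhdsWithin] with y hy
        exact (hu y hy).symm
      refine Tendsto.congr' hev ?_
      have h1 := hS.p_lim
      rw [← Metric.cobounded_eq_cocompact] at h1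
      have h2 : Tendsto (fun y => p y - k₀) (𝓝[≠] x) (Bornology.cobounded ℂ) :=
        (tendsto_sub_const_cobounded k₀).comp h1
      have h3 : Tendsto (fun y => (p y - k₀)⁻¹) (𝓝[≠] x) (𝓝 0) :=
        tendsto_inv₀_cobounded.comp h2
      have h4 := (hvc 0 h0e).tendsto
      rw [hv0] at h4
      exact h4.comp h3
    · have hev : (fun y => v ((p y - k₀)⁻¹)) =ᶠ[𝓝 x] u := by
        filter_upwards [isOpen_ne.mem_nhds hxO] with y hy
        exact (hu y hy).symm
      refine ContinuousAt.congr ?_ hev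
      have h1 : p x - k₀ ∉ K := hK'1 x hxO hx
      have h2 : p x - k₀ ≠ 0 := fun h => h1 (h ▸ h0)
      have h3 : ContinuousAt (fun y => (p y - k₀)⁻¹) x :=
        ((hpc x hxO).sub continuousAt_const).inv₀ h2
      have h4 : (p x - k₀)⁻¹ ∈ extDom K := Or.inr (by rwa [inv_inv])
      exact (hvc _ h4).comp_of_eq h3 rfl
  have huφ : ∀ z ∈ ball (0:ℂ) 1, u (φ z) = z := by
    intro z hz
    by_cases hz0 : z = 0
    · rw [hz0, hφ0, hu0]
    · rw [hu _ (hφne z hz0), hpφ z hz0]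
      have : k₀ + (ψ z)⁻¹ - k₀ = (ψ z)⁻¹ := by ring
      rw [this, inv_inv]
      exact hE.vψ z hz
  have humaps : MapsTo u (q '' ((fun z => k₀ + z) '' K))ᶜ (ball 0 1) := by
    intro x hx
    by_cases hxO : x = O
    · rw [hxO, hu0]; exact h0b
    · rw [hu x hxO]
      apply hE.mv
      exact Or.inr (by rw [inv_inv]; exact hK'1 x hxO hx)
  have hφu : ∀ x ∈ (q '' ((fun z => k₀ + z) '' K))ᶜ, φ (u x) = x := by
    intro x hx
    by_cases hxO : x = O
    · rw [hxO, hu0, hφ0]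
    · rw [hu x hxO]
      have h1 : p x - k₀ ∉ K := hK'1 x hxO hx
      have h2 : p x - k₀ ≠ 0 := fun h => h1 (h ▸ h0)
      have h4 : (p x - k₀)⁻¹ ∈ extDom K := Or.inr (by rwa [inv_inv])
      have h5 := hE.ψv _ h4
      have h6 : v ((p x - k₀)⁻¹) ≠ 0 := by
        intro h7
        rw [h7, hE.ψ0] at h5
        exact inv_ne_zero h2 h5.symm
      rw [hφ _ h6, h5, inv_inv]
      have : k₀ + (p x - k₀) = p x := by ring
      rw [this]
      exact hS.qp x hxO
  refine ⟨hφcont, hφmaps, hucont, humaps, huφ, hφu, ?_, ?_⟩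
  · -- L0
    intro ε hε
    by_contra hcon
    have hseq : ∀ n : ℕ, ∃ (γ : Set ℂ) (z w : ℂ), γ ⊆ ball (0:ℂ) 1 ∧ IsPreconnected γ ∧
        (∀ s ∈ γ, ∀ t ∈ γ, dist (φ s) (φ t) < 1 / ((n : ℝ) + 1)) ∧ z ∈ γ ∧ w ∈ γ ∧
        ε ≤ dist z w := by
      intro n
      by_contra hno
      apply hcon
      refine ⟨1 / ((n : ℝ) + 1), by positivity, ?_⟩
      intro γ hγ1 hγ2 hγ3 z hz w hw
      by_contra hle
      exact hno ⟨γ, z, w, hγ1, hγ2, hγ3, hz, hw, not_lt.mp hle⟩
    choose γ z w hγb hγp hγd hz hw hzw using hseq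
    have hcomp : IsCompact ((univ : Set S2) ×ˢ (closedBall (0:ℂ) 1 ×ˢ closedBall (0:ℂ) 1)) :=
      isCompact_univ.prod ((isCompact_closedBall _ _).prod (isCompact_closedBall _ _))
    obtain ⟨⟨x₀, a, b⟩, -, θ, hθ, hlim⟩ := hcomp.tendsto_subseq
      (x := fun n => (φ (z n), z n, w n))
      (fun n => ⟨mem_univ _, ball_subset_closedBall (hγb n (hz n)),
        ball_subset_closedBall (hγb n (hw n))⟩)
    have hlim1 : Tendsto (fun n => φ (z (θ n))) atTop (𝓝 x₀) := by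
      have := (continuous_fst.tendsto _).comp hlim
      exact this
    have hlim2 : Tendsto (fun n => z (θ n)) atTop (𝓝 a) := by
      have := ((continuous_fst.comp continuous_snd).tendsto _).comp hlim
      exact this
    have hlim3 : Tendsto (fun n => w (θ n)) atTop (𝓝 b) := by
      have := ((continuous_snd.comp continuous_snd).tendsto _).comp hlim
      exact this
    have hab : ε ≤ dist a b :=
      ge_of_tendsto' (hlim2.dist hlim3) fun n => hzw (θ n)
    have hsmall : Tendsto (fun n : ℕ => 1 / (((θ n : ℕ) : ℝ) + 1)) atTop (𝓝 0) :=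
      tendsto_one_div_add_atTop_nhds_zero_nat.comp hθ.tendsto_atTop
    have hnear : ∀ r > 0, ∀ᶠ n in atTop, ∀ t ∈ γ (θ n), dist (φ t) x₀ < r := by
      intro r hr
      have e1 : ∀ᶠ n in atTop, dist (φ (z (θ n))) x₀ < r / 2 :=
        (Metric.tendsto_nhds.mp hlim1) (r / 2) (by positivity)
      have e2 : ∀ᶠ n : ℕ in atTop, 1 / (((θ n : ℕ) : ℝ) + 1) < r / 2 :=
        hsmall.eventually_lt_const (by positivity)
      filter_upwards [e1, e2] with n h1 h2 t ht
      have h3 := hγd (θ n) t ht (z (θ n)) (hz (θ n))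
      have h4 := dist_triangle (φ t) (φ (z (θ n))) x₀
      linarith
    by_cases hx₀ : x₀ ∈ q '' ((fun z => k₀ + z) '' K)
    · obtain ⟨y, ⟨w₀, hw₀, rfl⟩, hy⟩ := hx₀
      have hx₀O : x₀ ≠ O := by rw [← hy]; exact hS.q_ne _
      have hpx₀ : p x₀ = k₀ + w₀ := by
        rw [← hy]
        exact hS.pq _
      obtain ⟨N, hN⟩ := eventually_atTop.mp (hnear (dist O x₀) (dist_pos.mpr (Ne.symm hx₀O)))
      have hne0 : ∀ n, ∀ t ∈ γ (θ (n + N)), t ≠ 0 := by
        intro n t ht ht0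
        have h1 := hN (n + N) (by omega) t ht
        rw [ht0, hφ0] at h1
        exact lt_irrefl _ h1
      have hab' : a = b := by
        apply no_long hK hc h0 hn hE (fun n => γ (θ (n + N))) (fun n => hγp _)
          (fun n t ht => ⟨hγb _ ht, hne0 n t ht⟩) hw₀ _ (fun n => z (θ (n + N)))
          (fun n => w (θ (n + N))) (fun n => hz _) (fun n => hw _)
          (hlim2.comp (tendsto_add_atTop_nat N)) (hlim3.comp (tendsto_add_atTop_nat N))
        intro ε' hε'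
        obtain ⟨δ, hδ, hδp⟩ := Metric.continuousAt_iff.mp (hpc x₀ hx₀O) ε' hε'
        have e1 := (tendsto_add_atTop_nat N).eventually (hnear δ hδ)
        filter_upwards [e1] with n h1 t ht
        have h2 := hδp (h1 t ht)
        rw [hpφ t (hne0 n t ht), hpx₀] at h2
        rwa [dist_add_left] at h2
      rw [hab', dist_self] at hab
      linarith
    · have hcx := hucont x₀ hx₀
      have hphi : ∀ n, φ (z (θ n)) ∈ (q '' ((fun z => k₀ + z) '' K))ᶜ := fun n =>
        hφmaps (hγb _ (hz _))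
      have hphi' : ∀ n, φ (w (θ n)) ∈ (q '' ((fun z => k₀ + z) '' K))ᶜ := fun n =>
        hφmaps (hγb _ (hw _))
      have hlim1' : Tendsto (fun n => φ (w (θ n))) atTop (𝓝 x₀) := by
        rw [Metric.tendsto_nhds]
        intro r hr
        filter_upwards [hnear r hr] with n h1
        exact h1 _ (hw _)
      have t1 : Tendsto (fun n => u (φ (z (θ n)))) atTop (𝓝 (u x₀)) :=
        hcx.tendsto.comp (tendsto_nhdsWithin_iff.mpr ⟨hlim1, Eventually.of_forall hphi⟩)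
      have t2 : Tendsto (fun n => u (φ (w (θ n)))) atTop (𝓝 (u x₀)) :=
        hcx.tendsto.comp (tendsto_nhdsWithin_iff.mpr ⟨hlim1', Eventually.of_forall hphi'⟩)
      have t1' : Tendsto (fun n => z (θ n)) atTop (𝓝 (u x₀)) := by
        refine t1.congr fun n => ?_
        exact huφ _ (hγb _ (hz _))
      have t2' : Tendsto (fun n => w (θ n)) atTop (𝓝 (u x₀)) := by
        refine t2.congr fun n => ?_
        exact huφ _ (hγb _ (hw _))
      have ha := tendsto_nhds_unique hlim2 t1'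
      have hb := tendsto_nhds_unique hlim3 t2'
      rw [ha, hb, dist_self] at hab
      linarith
  · -- L1
    intro ζ hζ ε hε
    -- lower bound for `ψ`
    obtain ⟨c, hc0, hcv⟩ : ∃ c > 0, ∀ w : ℂ, ‖w‖ < c → ‖v w‖ < 1 / 2 := by
      have h1 := Metric.continuousAt_iff.mp (hvc 0 h0e) (1 / 2) (by norm_num)
      obtain ⟨c, hc0, h2⟩ := h1
      refine ⟨c, hc0, fun w hw => ?_⟩
      have h3 := h2 (x := w) (by rwa [dist_zero_right])
      rwa [hv0, dist_zero_right] at h3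
    have hfar : ∀ z : ℂ, dist z ζ < 1 / 2 → 1 / 2 < ‖z‖ := by
      intro z hz
      have h1 : ‖ζ‖ ≤ ‖z‖ + dist z ζ := by
        rw [dist_comm, dist_eq_norm]
        have := norm_add_le z (ζ - z)
        rw [add_sub_cancel] at this
        exact this
      rw [hζ] at h1
      linarith
    have hne : ∀ z : ℂ, dist z ζ < 1 / 2 → z ≠ 0 := by
      intro z hz hz0
      have := hfar z hz
      rw [hz0, norm_zero] at this
      linarith
    have hψlow : ∀ z ∈ ball (0:ℂ) 1, dist z ζ < 1 / 2 → c ≤ ‖ψ z‖ := by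
      intro z hz hzζ
      by_contra hlt
      push Not at hlt
      have h1 := hcv _ hlt
      rw [hE.vψ z hz] at h1
      have := hfar z hzζ
      linarith
    have hFd : DifferentiableOn ℂ (fun z => (ψ z)⁻¹) (ball 0 1 ∩ ball ζ (1 / 2)) := by
      apply DifferentiableOn.inv (hE.dψ.mono inter_subset_left)
      intro z hz
      exact (XB_F hE hz.1 (hne z hz.2)).1
    have hFi : InjOn (fun z => (ψ z)⁻¹) (ball 0 1 ∩ ball ζ (1 / 2)) := by
      intro z hz z' hz' h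
      have h1 : ψ z = ψ z' := inv_injective h
      have h2 := hE.vψ z hz.1
      rw [h1, hE.vψ z' hz'.1] at h2
      exact h2.symm
    have hFle : ∀ z ∈ ball (0:ℂ) 1, dist z ζ < 1 / 2 → ‖(ψ z)⁻¹‖ ≤ c⁻¹ := by
      intro z hz hzζ
      rw [norm_inv]
      exact inv_anti₀ hc0 (hψlow z hz hzζ)
    have hFb : Bornology.IsBounded ((fun z => (ψ z)⁻¹) '' (ball 0 1 ∩ ball ζ (1 / 2))) := by
      rw [isBounded_iff_forall_norm_le]
      refine ⟨c⁻¹, ?_⟩
      rintro _ ⟨z, hz, rfl⟩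
      exact hFle z hz.1 hz.2
    -- uniform continuity of `q`
    have huc : UniformContinuousOn q (closedBall k₀ c⁻¹) :=
      (isCompact_closedBall _ _).uniformContinuousOn_of_continuous hqc.continuousOn
    obtain ⟨δ, hδ, hδq⟩ := Metric.uniformContinuousOn_iff.mp huc ε hε
    obtain ⟨ρ, hρ0, hρ1, hρ2⟩ := small_arc (by norm_num : (0:ℝ) < 1 / 2) hζ hFd hFi hFb
      (min (min ε (1 / 2)) δ) (by positivity)
    have hρε : ρ < ε := lt_of_lt_of_le hρ1 ((min_le_left _ _).trans (min_le_left _ _))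
    have hρ12 : ρ < 1 / 2 := lt_of_lt_of_le hρ1 ((min_le_left _ _).trans (min_le_right _ _))
    refine ⟨ρ, hρ0, hρε, ?_⟩
    intro z hz w hw hzρ hwρ
    have hz' : dist z ζ < 1 / 2 := by rw [hzρ]; exact hρ12
    have hw' : dist w ζ < 1 / 2 := by rw [hwρ]; exact hρ12
    have h1 := hρ2 z w hz hw hzρ hwρ
    have h2 : dist (ψ z)⁻¹ (ψ w)⁻¹ < δ := lt_of_lt_of_le h1 (min_le_right _ _)
    rw [hφ z (hne z hz'), hφ w (hne w hw')]
    apply hδq
    · rw [mem_closedBall, dist_eq_norm, add_sub_cancel_left]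
      exact hFle z hz hz'
    · rw [mem_closedBall, dist_eq_norm, add_sub_cancel_left]
      exact hFle w hw hw'
    · rwa [dist_add_left]

open Classical in
theorem discMap_ext {O : S2} {p : S2 → ℂ} {q : ℂ → S2} (hS : SC O p q) {K : Set ℂ}
    (hK : IsCompact K) (hc : IsConnected K) (h0 : (0:ℂ) ∈ K) (hn : K.Nontrivial) {ψ v : ℂ → ℂ}
    (hE : ExtMap K ψ v) (k₀ : ℂ) :
    DiscMap (q '' ((fun z => k₀ + z) '' K)) (fun z => if z = 0 then O else q (k₀ + (ψ z)⁻¹))
      (fun x => if x = O then 0 else v ((p x - k₀)⁻¹)) := by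
  apply XB_aux hS hK hc h0 hn hE k₀
  · simp
  · intro z hz
    simp [hz]
  · simp
  · intro x hx
    simp [hx]

end DS

end S_H36_DS_XB
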