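import Pool.Agent.H12.KS.K19
import Pool.Agent.H12.KS.K22

/-! Joined modules of the proof of MP_8a27c0_an (one section per module). -/

section S_H36_DG_GA

/-!
GA (length-area for quasiconformal maps of the disc: small images of arcs about a boundary point).
Adapt the proof of `DS.small_arc` (Pool/Agent/H36/DS/LA.lean).  Let `h` be `C¹` and injective on the disc, with values in the
disc and `‖fderiv ℝ h z‖ ^ 2 ≤ Kq * |det (fderiv ℝ h z)|`.  For `0 < s < 1` let `J s = {t | ζ + s e^{it} ∈ ball 0 1}`,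
`ℓ s = ∫ t in J s, s * ‖fderiv ℝ h (ζ + s e^{it})‖`.  By Cauchy-Schwarz `ℓ s ^ 2 ≤ 2π s ∫_{J s} s ‖Dh‖² dt`, so
`∫_0^1 ℓ s ^ 2 / s ds ≤ 2π ∫ ‖Dh‖² ≤ 2π Kq ∫ |det Dh| ≤ 2π Kq π` (polar coordinates about `ζ`; area formula
`lintegral_abs_det_fderiv_eq_addHaar_image`, image in the unit disc).  As `∫_0 ds/s = ∞`, for every `ε > 0` there is
`s < ε` with `ℓ s < ε`; two points of the arc `ball 0 1 ∩ sphere ζ s` are joined by a subarc, along which `h` moves by at most
`ℓ s`.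
-/

namespace DG
open Metric Set Filter Topology DS

open MeasureTheory ENNReal in
/-- area estimate -/
theorem GA_area {Ω : Set ℂ} (hΩ : IsOpen Ω) {G : ℂ → ℂ} (hG : DifferentiableOn ℝ G Ω)
    (hi : InjOn G Ω) {Kq : ℝ} (hq : ∀ z ∈ Ω, ‖fderiv ℝ G z‖ ^ 2 ≤ Kq * |(fderiv ℝ G z).det|) :
    ∫⁻ x in Ω, ENNReal.ofReal (‖fderiv ℝ G x‖ ^ 2) ≤ ENNReal.ofReal Kq * volume (G '' Ω) := by
  rw [← lintegral_abs_det_fderiv_eq_addHaar_image volume hΩ.measurableSet
    (f' := fun x => fderiv ℝ G x) _ hi, ← lintegral_const_mul' _ _ ENNReal.ofReal_ne_top]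
  · apply setLIntegral_mono' hΩ.measurableSet
    intro x hx
    rw [← ENNReal.ofReal_mul' (abs_nonneg _)]
    exact ENNReal.ofReal_le_ofReal (hq x hx)
  · intro x hx
    exact ((hG.differentiableAt (hΩ.mem_nhds hx)).hasFDerivAt).hasFDerivWithinAt

open MeasureTheory ENNReal in
/-- the length-area principle for circular arcs around `0` -/
theorem GA_short {Ω : Set ℂ} (hΩ : IsOpen Ω) {G : ℂ → ℂ} (hG : DifferentiableOn ℝ G Ω)
    (hi : InjOn G Ω) (hb : Bornology.IsBounded (G '' Ω)) {Kq : ℝ}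
    (hq : ∀ z ∈ Ω, ‖fderiv ℝ G z‖ ^ 2 ≤ Kq * |(fderiv ℝ G z).det|)
    {ε m : ℝ} (hε : 0 < ε) (hm : 0 < m) :
    ∃ s, 0 < s ∧ s < m ∧ ∫⁻ t in Ioo (-Real.pi) Real.pi, ENNReal.ofReal
      (Ω.indicator (fun w => s * ‖fderiv ℝ G w‖) (s * (Real.cos t + Real.sin t * Complex.I))) <
      ENNReal.ofReal ε := by
  classical
  by_contra hcon
  push Not at hcon
  set k : ℂ → ℝ := Ω.indicator (fun w => ‖fderiv ℝ G w‖) with hk
  have hkm : Measurable k := (measurable_fderiv ℝ G).norm.indicator hΩ.measurableSet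
  set f : ℂ → ℝ≥0∞ := fun w => ENNReal.ofReal (k w ^ 2) with hf
  have hfm : Measurable f := (hkm.pow_const 2).ennreal_ofReal
  have hfin : ∫⁻ p, f p < ∞ := by
    have h1 : ∫⁻ p, f p = ∫⁻ x in Ω, ENNReal.ofReal (‖fderiv ℝ G x‖ ^ 2) := by
      rw [← lintegral_indicator hΩ.measurableSet]
      apply lintegral_congr
      intro x
      simp only [hf, hk]
      by_cases hx : x ∈ Ω
      · rw [indicator_of_mem hx, indicator_of_mem hx]
      · rw [indicator_of_notMem hx, indicator_of_notMem hx]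
        simp
    rw [h1]
    exact (GA_area hΩ hG hi hq).trans_lt (ENNReal.mul_lt_top ENNReal.ofReal_lt_top hb.measure_lt_top)
  rw [← LA_polar hfm] at hfin
  have h2 : ∀ s ∈ Ioo (0:ℝ) m, ENNReal.ofReal (ε ^ 2 / (4 * Real.pi) / s) ≤
      ∫⁻ t in Ioo (-Real.pi) Real.pi,
      ENNReal.ofReal s * f (s * (Real.cos t + Real.sin t * Complex.I)) := by
    intro s hs
    have h3 := LA_amgm hε _ (hcon s hs.1 hs.2)
    have h4 : ∀ t : ℝ, ENNReal.ofReal ((Ω.indicator (fun w => s * ‖fderiv ℝ G w‖)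
        (s * (Real.cos t + Real.sin t * Complex.I))) ^ 2) =
        ENNReal.ofReal s * (ENNReal.ofReal s *
          f (s * (Real.cos t + Real.sin t * Complex.I))) := by
      intro t
      simp only [hf, hk]
      rw [← ENNReal.ofReal_mul hs.1.le, ← ENNReal.ofReal_mul hs.1.le]
      congr 1
      by_cases hx : (s * (Real.cos t + Real.sin t * Complex.I) : ℂ) ∈ Ω
      · rw [indicator_of_mem hx, indicator_of_mem hx]
        ring
      · rw [indicator_of_notMem hx, indicator_of_notMem hx]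
        ring
    simp only [h4] at h3
    rw [lintegral_const_mul' _ _ ENNReal.ofReal_ne_top] at h3
    rw [ENNReal.ofReal_div_of_pos hs.1]
    apply ENNReal.div_le_of_le_mul
    exact h3.trans_eq (mul_comm _ _)
  have h5 : ∫⁻ s in Ioo (0:ℝ) m, ENNReal.ofReal (ε ^ 2 / (4 * Real.pi) / s) ≤
      ∫⁻ s in Ioi (0:ℝ), ∫⁻ t in Ioo (-Real.pi) Real.pi,
      ENNReal.ofReal s * f (s * (Real.cos t + Real.sin t * Complex.I)) := by
    calc _ ≤ ∫⁻ s in Ioo (0:ℝ) m, ∫⁻ t in Ioo (-Real.pi) Real.pi,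
        ENNReal.ofReal s * f (s * (Real.cos t + Real.sin t * Complex.I)) :=
          setLIntegral_mono' measurableSet_Ioo h2
      _ ≤ _ := lintegral_mono_set Ioo_subset_Ioi_self
  have hpi := Real.pi_pos
  rw [LA_div (by positivity) hm] at h5
  exact absurd hfin (not_lt.2 h5)

open MeasureTheory ENNReal in
/-- length of the image of an arc -/
theorem GA_arc {Ω : Set ℂ} (hΩ : IsOpen Ω) {G : ℂ → ℂ} (hG : ContDiffOn ℝ 1 G Ω)
    {s a b : ℝ} (hs : 0 < s) (hab : a ≤ b) (ha : -Real.pi < a) (hb : b < Real.pi)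
    (harc : ∀ t ∈ Icc a b, LA_pt s t ∈ Ω) :
    ENNReal.ofReal (dist (G (LA_pt s b)) (G (LA_pt s a))) ≤
      ∫⁻ t in Ioo (-Real.pi) Real.pi, ENNReal.ofReal
      (Ω.indicator (fun w => s * ‖fderiv ℝ G w‖) (s * (Real.cos t + Real.sin t * Complex.I))) := by
  classical
  have hGd : DifferentiableOn ℝ G Ω := hG.differentiableOn one_ne_zero
  set g' : ℝ → ℂ := fun t => fderiv ℝ G (LA_pt s t) (s * (Complex.exp (t * Complex.I) * Complex.I))
    with hg'
  have hd : ∀ t ∈ uIcc a b, HasDerivAt (fun t : ℝ => G (LA_pt s t)) (g' t) t := by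
    intro t ht
    rw [uIcc_of_le hab] at ht
    have h1 : HasFDerivAt G (fderiv ℝ G (LA_pt s t)) (LA_pt s t) :=
      (hGd.differentiableAt (hΩ.mem_nhds (harc t ht))).hasFDerivAt
    exact h1.comp_hasDerivAt t (LA_pt_deriv s t)
  have hcont : ContinuousOn g' (uIcc a b) := by
    have h2 : Continuous (fun t : ℝ => LA_pt s t) := by
      unfold LA_pt
      fun_prop
    have h1 : ContinuousOn (fderiv ℝ G) Ω := hG.continuousOn_fderiv_of_isOpen hΩ le_rfl
    rw [uIcc_of_le hab]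
    exact (h1.comp h2.continuousOn harc).clm_apply (by fun_prop)
  have hint := intervalIntegral.integral_eq_sub_of_hasDerivAt hd hcont.intervalIntegrable
  rw [dist_eq_norm, ← hint, intervalIntegral.integral_of_le hab]
  have h3 : ‖∫ t in Ioc a b, g' t‖ₑ ≤ ∫⁻ t in Ioc a b, ‖g' t‖ₑ :=
    enorm_integral_le_lintegral_enorm _
  rw [ofReal_norm]
  refine h3.trans ?_
  have h4 : ∫⁻ t in Ioc a b, ‖g' t‖ₑ ≤ ∫⁻ t in Ioc a b, ENNReal.ofReal
      (Ω.indicator (fun w => s * ‖fderiv ℝ G w‖) (s * (Real.cos t + Real.sin t * Complex.I))) := by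
    apply setLIntegral_mono' measurableSet_Ioc
    intro t ht
    have hmem : (s * (Real.cos t + Real.sin t * Complex.I) : ℂ) ∈ Ω :=
      harc t ⟨ht.1.le, ht.2⟩
    rw [indicator_of_mem hmem, ← ofReal_norm]
    apply ENNReal.ofReal_le_ofReal
    simp only [hg']
    refine (ContinuousLinearMap.le_opNorm _ _).trans ?_
    rw [norm_mul, norm_mul, Complex.norm_exp_ofReal_mul_I, Complex.norm_I,
      Complex.norm_real, Real.norm_of_nonneg hs.le, mul_one, mul_one, mul_comm]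
    exact le_of_eq rfl
  exact h4.trans (lintegral_mono_set (fun t ht => ⟨ha.trans ht.1, ht.2.trans_lt hb⟩))

open MeasureTheory ENNReal in
/-- normalised version: boundary point `0` of the disc with centre `1` -/
theorem GA_norm {G : ℂ → ℂ} (hG : ContDiffOn ℝ 1 G (ball 1 1)) (hi : InjOn G (ball 1 1))
    (hb : Bornology.IsBounded (G '' (ball 1 1))) {Kq : ℝ}
    (hq : ∀ z ∈ ball (1:ℂ) 1, ‖fderiv ℝ G z‖ ^ 2 ≤ Kq * |(fderiv ℝ G z).det|)
    {ε : ℝ} (hε : 0 < ε) :
    ∃ ρ, 0 < ρ ∧ ρ < ε ∧ ∀ z w : ℂ, z ∈ ball (1:ℂ) 1 → w ∈ ball (1:ℂ) 1 →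
      ‖z‖ = ρ → ‖w‖ = ρ → dist (G z) (G w) < ε := by
  have hΩ : IsOpen (ball (1:ℂ) 1) := isOpen_ball
  obtain ⟨s, hs0, hsm, hs⟩ := GA_short hΩ (hG.differentiableOn one_ne_zero) hi hb hq hε hε
  refine ⟨s, hs0, hsm, ?_⟩
  have key : ∀ a b : ℝ, -Real.pi < a → b < Real.pi → a ≤ b → s / 2 < Real.cos a →
      s / 2 < Real.cos b → dist (G (LA_pt s b)) (G (LA_pt s a)) < ε := by
    intro a b ha hb' hab h1 h2
    have h3 := GA_arc hΩ hG hs0 hab ha hb' (fun t ht =>
      (LA_lens hs0).2 (LA_cos ha hb' ht h1 h2))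
    have h4 := h3.trans_lt hs
    exact (ENNReal.ofReal_lt_ofReal_iff hε).1 h4
  have hpol : ∀ z : ℂ, z ∈ ball (1:ℂ) 1 → ‖z‖ = s → ∃ a : ℝ, -Real.pi < a ∧ a < Real.pi ∧
      s / 2 < Real.cos a ∧ LA_pt s a = z := by
    intro z hz hzs
    have h1 : LA_pt s z.arg = z := by
      rw [LA_pt_eq, ← hzs]
      exact Complex.norm_mul_exp_arg_mul_I z
    have h2 : s / 2 < Real.cos z.arg := by
      rw [← LA_lens hs0, h1]
      exact hz
    refine ⟨z.arg, Complex.neg_pi_lt_arg z, lt_of_le_of_ne (Complex.arg_le_pi z) ?_, h2, h1⟩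
    intro h3
    rw [h3, Real.cos_pi] at h2
    linarith
  intro z w hz hw hzs hws
  obtain ⟨a, ha1, ha2, ha3, rfl⟩ := hpol z hz hzs
  obtain ⟨b, hb1, hb2, hb3, rfl⟩ := hpol w hw hws
  rcases le_total a b with h | h
  · rw [dist_comm]
    exact key a b ha1 hb2 h ha3 hb3
  · exact key b a hb1 ha2 h hb3 ha3

theorem qc_small_arc {h : ℂ → ℂ} (hh : ContDiffOn ℝ 1 h (ball 0 1)) (hi : InjOn h (ball 0 1))
    (hm : MapsTo h (ball 0 1) (ball 0 1)) {Kq : ℝ}
    (hq : ∀ z ∈ ball (0:ℂ) 1, ‖fderiv ℝ h z‖ ^ 2 ≤ Kq * |(fderiv ℝ h z).det|) {ζ : ℂ}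
    (hζ : ‖ζ‖ = 1) :
    ∀ ε > 0, ∃ ρ, 0 < ρ ∧ ρ < ε ∧ ∀ z w : ℂ, z ∈ ball (0:ℂ) 1 → w ∈ ball (0:ℂ) 1 →
      dist z ζ = ρ → dist w ζ = ρ → dist (h z) (h w) < ε := by
  intro ε hε
  have hζ0 : ζ ≠ 0 := by
    intro h
    rw [h, norm_zero] at hζ
    exact zero_ne_one hζ
  have hmaps : MapsTo (fun w : ℂ => ζ * (1 - w)) (ball 1 1) (ball 0 1) := by
    intro w hw
    rw [mem_ball_zero_iff, norm_mul, hζ, one_mul, norm_sub_rev, ← dist_eq_norm]
    exact hw
  set L : ℂ →L[ℝ] ℂ := (ContinuousLinearMap.toSpanSingleton ℂ (-ζ)).restrictScalars ℝ with hL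
  have hLd : ∀ w : ℂ, HasFDerivAt (fun w : ℂ => ζ * (1 - w)) L w := by
    intro w
    have h1 : HasDerivAt (fun w : ℂ => ζ * (1 - w)) (-ζ) w := by
      have := ((hasDerivAt_id w).const_sub 1).const_mul ζ
      simpa using this
    exact h1.hasFDerivAt.restrictScalars ℝ
  have hLdet : L.det = 1 := by
    rw [hL, LA_det, norm_neg, hζ, one_pow]
  have hLn : ‖L‖ ≤ 1 := by
    refine ContinuousLinearMap.opNorm_le_bound _ zero_le_one fun x => ?_
    show ‖x • (-ζ)‖ ≤ 1 * ‖x‖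
    rw [norm_smul, norm_neg, hζ, mul_one, one_mul]
  have hG : ContDiffOn ℝ 1 (fun w => h (ζ * (1 - w))) (ball 1 1) :=
    hh.comp (by fun_prop) hmaps
  have hfd : ∀ w ∈ ball (1:ℂ) 1, fderiv ℝ (fun w => h (ζ * (1 - w))) w =
      (fderiv ℝ h (ζ * (1 - w))).comp L := by
    intro w hw
    have h1 : HasFDerivAt h (fderiv ℝ h (ζ * (1 - w))) (ζ * (1 - w)) :=
      ((hh.differentiableOn one_ne_zero).differentiableAt
        (isOpen_ball.mem_nhds (hmaps hw))).hasFDerivAt
    exact (h1.comp w (hLd w)).fderiv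
  obtain ⟨ρ, h0, h1, h2⟩ := GA_norm (G := fun w => h (ζ * (1 - w))) hG
    (by
      intro a ha b hb' hab
      have h3 := hi (hmaps ha) (hmaps hb') hab
      have h4 := mul_left_cancel₀ hζ0 h3
      linear_combination -h4)
    ((isBounded_ball (x := (0:ℂ)) (r := 1)).subset (by
      rintro _ ⟨w, hw, rfl⟩
      exact hm (hmaps hw))) (Kq := Kq) (by
      intro w hw
      rw [hfd w hw]
      have h5 : ((fderiv ℝ h (ζ * (1 - w))).comp L).det = (fderiv ℝ h (ζ * (1 - w))).det := by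
        have h6 : ((fderiv ℝ h (ζ * (1 - w))).comp L).det =
            (fderiv ℝ h (ζ * (1 - w))).det * L.det := by
          simp only [ContinuousLinearMap.det]
          rw [← LinearMap.det_comp]
          rfl
        rw [h6, hLdet, mul_one]
      rw [h5]
      refine le_trans ?_ (hq _ (hmaps hw))
      have h7 : ‖(fderiv ℝ h (ζ * (1 - w))).comp L‖ ≤ ‖fderiv ℝ h (ζ * (1 - w))‖ := by
        refine (ContinuousLinearMap.opNorm_comp_le _ _).trans ?_
        exact mul_le_of_le_one_right (norm_nonneg _) hLn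
      exact pow_le_pow_left₀ (norm_nonneg _) h7 2) hε
  refine ⟨ρ, h0, h1, fun z w hz hw hzρ hwρ => ?_⟩
  have hinv : ∀ z : ℂ, ζ * (1 - (1 - z / ζ)) = z := by
    intro z
    field_simp
    ring
  have hn : ∀ z : ℂ, ‖1 - z / ζ‖ = dist z ζ := by
    intro z
    have : 1 - z / ζ = (ζ - z) / ζ := by field_simp
    rw [this, norm_div, hζ, div_one, dist_comm, dist_eq_norm]
  have hm : ∀ z : ℂ, z ∈ ball (0:ℂ) 1 → 1 - z / ζ ∈ ball (1:ℂ) 1 := by
    intro z hz
    rw [mem_ball, dist_eq_norm]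
    have : 1 - z / ζ - 1 = -(z / ζ) := by ring
    rw [this, norm_neg, norm_div, hζ, div_one]
    exact mem_ball_zero_iff.1 hz
  have := h2 (1 - z / ζ) (1 - w / ζ) (hm z hz) (hm w hw) (by rw [hn, hzρ]) (by rw [hn, hwρ])
  simpa only [hinv] using this

end DG

end S_H36_DG_GA

section S_H36_DG_GB

/-!
GB (quasiconformal homeomorphisms of the disc extend to the closed disc).  Proof (compare `DS.end_homeo`,
Pool/Agent/H36/DS/HB.lean): `h` is a homeomorphism of the open disc.  Let `ζ` be on the circle and `0 < ε < 1/4`.  `h` is proper: for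
`ρ` small it maps `ball 0 1 ∩ closedBall ζ ρ` into `{‖z‖ > 1/2}`.  By `qc_small_arc` there is such a `ρ < 1` with
`dist (h z) (h w) < ε` on `C = {z ∈ ball 0 1 | dist z ζ = ρ}`; `h '' C` is connected (`arc_connected`), contained in
`closedBall p ε` for `p = h z₀`, `‖p‖ > 1/2`, and `E = {z | ‖z‖ < 1 ∧ ε < dist z p}` is connected (`disc_minus_ball`), contains
`0`, misses `h '' C`; so `hi '' E` misses `C` and contains `hi 0 ∉ ball ζ ρ`, hence misses `ball ζ ρ`: `h '' (ball 0 1 ∩ ball ζ ρ) ⊆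
closedBall p ε`.  So `h` has a limit at `ζ`.  The same for `hi`.  `extendFrom` gives `hb`, `hbi`; the rest as in `end_homeo`.
-/

namespace DG
open Metric Set Filter Topology DS

/-- a homeomorphism of the disc with small images of arcs is nearly constant near a boundary point -/
theorem GB_small {h hi : ℂ → ℂ} (hhc : ContinuousOn h (ball 0 1)) (hic : ContinuousOn hi (ball 0 1))
    (hhm : MapsTo h (ball 0 1) (ball 0 1)) (him : MapsTo hi (ball 0 1) (ball 0 1))
    (hih : ∀ z ∈ ball (0:ℂ) 1, hi (h z) = z) (hhi' : ∀ z ∈ ball (0:ℂ) 1, h (hi z) = z)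
    {ζ : ℂ} (hζ : ‖ζ‖ = 1)
    (harc : ∀ ε > 0, ∃ ρ, 0 < ρ ∧ ρ < ε ∧ ∀ z w : ℂ, z ∈ ball (0:ℂ) 1 → w ∈ ball (0:ℂ) 1 →
      dist z ζ = ρ → dist w ζ = ρ → dist (h z) (h w) < ε) {ε : ℝ} (hε : 0 < ε)
    (hε4 : ε < 1 / 4) :
    ∃ ρ > 0, ∀ z ∈ ball (0:ℂ) 1, ∀ w ∈ ball (0:ℂ) 1, dist z ζ < ρ → dist w ζ < ρ →
      dist (h z) (h w) < 2 * ε := by
  have hhalf : closedBall (0:ℂ) (1/2) ⊆ ball 0 1 := closedBall_subset_ball (by norm_num)
  set Q : Set ℂ := hi '' closedBall 0 (1/2) with hQ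
  have hQc : IsCompact Q := (isCompact_closedBall _ _).image_of_continuousOn (hic.mono hhalf)
  have hQb : Q ⊆ ball 0 1 := by
    rintro _ ⟨z, hz, rfl⟩
    exact him (hhalf hz)
  have hζQ : ζ ∉ Q := by
    intro hc
    have := hQb hc
    rw [mem_ball_zero_iff, hζ] at this
    exact lt_irrefl _ this
  obtain ⟨r0, hr0, hr0Q⟩ := Metric.isOpen_iff.1 hQc.isClosed.isOpen_compl ζ hζQ
  have hbig : ∀ z ∈ ball (0:ℂ) 1, dist z ζ < r0 → 1 / 2 < ‖h z‖ := by
    intro z hz hzr
    by_contra hc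
    push Not at hc
    have h1 : z ∈ Q := ⟨h z, by rwa [mem_closedBall_zero_iff], hih z hz⟩
    exact hr0Q (mem_ball.2 hzr) h1
  obtain ⟨ρ, hρ, hρ2, hL1⟩ := harc (min ε (min r0 1)) (by positivity)
  have hρη : min ε (min r0 1) ≤ ε := min_le_left _ _
  have hρr : min ε (min r0 1) ≤ r0 := (min_le_right _ _).trans (min_le_left _ _)
  have hρ1 : min ε (min r0 1) ≤ 1 := (min_le_right _ _).trans (min_le_right _ _)
  have hC := arc_connected hζ hρ (by linarith)
  set Cc : Set ℂ := {z : ℂ | ‖z‖ < 1 ∧ dist z ζ = ρ} with hCc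
  have hCb : Cc ⊆ ball 0 1 := fun z hz => mem_ball_zero_iff.2 hz.1
  obtain ⟨z₀, hz₀⟩ := hC.nonempty
  have hp : 1 / 2 < ‖h z₀‖ := hbig z₀ (hCb hz₀) (by rw [hz₀.2]; linarith)
  have hCsmall : ∀ a ∈ Cc, ∀ b ∈ Cc, dist (h a) (h b) < ε := by
    intro a ha b hb
    exact lt_of_lt_of_le (hL1 a b (hCb ha) (hCb hb) ha.2 hb.2) hρη
  have hE := disc_minus_ball' (p := h z₀) hε.le (by linarith)
  set E : Set ℂ := {z : ℂ | ‖z‖ < 1 ∧ ε ≤ dist z (h z₀)} with hEdef
  have hEb : E ⊆ ball 0 1 := fun z hz => mem_ball_zero_iff.2 hz.1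
  have h0E : (0:ℂ) ∈ E := by
    refine ⟨by simp, ?_⟩
    rw [dist_zero_left]
    linarith
  have hEi : IsPreconnected (hi '' E) := hE.isPreconnected.image hi (hic.mono hEb)
  have hEρ : ∀ x ∈ hi '' E, dist x ζ ≠ ρ := by
    rintro _ ⟨e, he, rfl⟩ hc
    have h4 : hi e ∈ Cc := ⟨mem_ball_zero_iff.1 (him (hEb he)), hc⟩
    have h5 := hCsmall _ h4 _ hz₀
    rw [hhi' e (hEb he)] at h5
    exact absurd he.2 (not_le.2 h5)
  have h0big : ρ < dist (hi 0) ζ := by
    have h6 : hi 0 ∈ Q := ⟨0, by simp, rfl⟩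
    by_contra hc
    push Not at hc
    exact hr0Q (mem_ball.2 (lt_of_le_of_lt hc (by linarith))) h6
  have hEbig : ∀ x ∈ hi '' E, ρ < dist x ζ := by
    intro x hx
    by_contra hc
    push Not at hc
    have h7 := hEi.intermediate_value hx ⟨0, h0E, rfl⟩
      (f := fun y => dist y ζ) (by fun_prop)
    obtain ⟨y, hy, hyρ⟩ := h7 ⟨hc, h0big.le⟩
    exact hEρ y hy hyρ
  have hin : ∀ z ∈ ball (0:ℂ) 1, dist z ζ < ρ → dist (h z) (h z₀) < ε := by
    intro z hz hzρ
    by_contra hc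
    push Not at hc
    have h8 : h z ∈ E := ⟨mem_ball_zero_iff.1 (hhm hz), hc⟩
    have h9 := hEbig (hi (h z)) ⟨h z, h8, rfl⟩
    rw [hih z hz] at h9
    exact absurd hzρ (not_lt.2 h9.le)
  refine ⟨ρ, hρ, fun z hz w hw hz1 hw1 => ?_⟩
  have h10 := hin z hz hz1
  have h11 := hin w hw hw1
  calc dist (h z) (h w) ≤ dist (h z) (h z₀) + dist (h w) (h z₀) := dist_triangle_right _ _ _
    _ < 2 * ε := by linarith

/-- the limits exist -/
theorem GB_lim {h hi : ℂ → ℂ} (hhc : ContinuousOn h (ball 0 1)) (hic : ContinuousOn hi (ball 0 1))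
    (hhm : MapsTo h (ball 0 1) (ball 0 1)) (him : MapsTo hi (ball 0 1) (ball 0 1))
    (hih : ∀ z ∈ ball (0:ℂ) 1, hi (h z) = z) (hhi' : ∀ z ∈ ball (0:ℂ) 1, h (hi z) = z)
    (harc : ∀ ζ : ℂ, ‖ζ‖ = 1 → ∀ ε > 0, ∃ ρ, 0 < ρ ∧ ρ < ε ∧ ∀ z w : ℂ, z ∈ ball (0:ℂ) 1 →
      w ∈ ball (0:ℂ) 1 → dist z ζ = ρ → dist w ζ = ρ → dist (h z) (h w) < ε)
    (x : ℂ) (hx : x ∈ closedBall (0:ℂ) 1) :
    ∃ y, Tendsto h (𝓝[ball 0 1] x) (𝓝 y) := by
  by_cases hxb : x ∈ ball (0:ℂ) 1
  · exact ⟨_, hhc x hxb⟩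
  · have hx1 : ‖x‖ = 1 := by
      rw [mem_closedBall_zero_iff] at hx
      rw [mem_ball_zero_iff, not_lt] at hxb
      exact le_antisymm hx hxb
    have hcl : x ∈ closure (ball (0:ℂ) 1) := by
      rw [closure_ball _ one_ne_zero]
      exact hx
    have hne : (𝓝[ball 0 1] x).NeBot := mem_closure_iff_nhdsWithin_neBot.1 hcl
    have hcau : Cauchy (map h (𝓝[ball 0 1] x)) := by
      rw [Metric.cauchy_iff]
      refine ⟨hne.map _, fun e he => ?_⟩
      obtain ⟨ρ, hρ, hρ2⟩ := GB_small hhc hic hhm him hih hhi' hx1 (harc x hx1)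
        (ε := min (e / 2) (1 / 8)) (by positivity)
        (lt_of_le_of_lt (min_le_right _ _) (by norm_num))
      refine ⟨h '' (ball x ρ ∩ ball 0 1), ?_, ?_⟩
      · apply image_mem_map
        rw [inter_comm]
        exact inter_mem_nhdsWithin _ (ball_mem_nhds x hρ)
      · rintro _ ⟨a, ha, rfl⟩ _ ⟨b, hb, rfl⟩
        have h1 := hρ2 a ha.2 b hb.2 ha.1 hb.1
        have h2 : min (e / 2) (1 / 8) ≤ e / 2 := min_le_left _ _
        exact lt_of_lt_of_le h1 (by linarith)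
    exact cauchy_map_iff_exists_tendsto.1 hcau

theorem qc_extend {h hi : ℂ → ℂ} (hh : ContDiffOn ℝ 1 h (ball 0 1))
    (hhi : ContDiffOn ℝ 1 hi (ball 0 1)) (hm : MapsTo h (ball 0 1) (ball 0 1))
    (hmi : MapsTo hi (ball 0 1) (ball 0 1)) (hih : ∀ z ∈ ball (0:ℂ) 1, hi (h z) = z)
    (hhi' : ∀ z ∈ ball (0:ℂ) 1, h (hi z) = z) {Kq : ℝ}
    (hq : ∀ z ∈ ball (0:ℂ) 1, ‖fderiv ℝ h z‖ ^ 2 ≤ Kq * |(fderiv ℝ h z).det|)
    (hqi : ∀ z ∈ ball (0:ℂ) 1, ‖fderiv ℝ hi z‖ ^ 2 ≤ Kq * |(fderiv ℝ hi z).det|) :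
    ∃ hb hbi : ℂ → ℂ, EndMap (fun z : ℂ => z) (fun z : ℂ => z) h hi hb hbi := by
  have hcl : closure (ball (0:ℂ) 1) = closedBall 0 1 := closure_ball _ one_ne_zero
  have hhc : ContinuousOn h (ball 0 1) := hh.continuousOn
  have hic : ContinuousOn hi (ball 0 1) := hhi.continuousOn
  have hinj : InjOn h (ball 0 1) := fun a ha b hb hab => by
    rw [← hih a ha, hab, hih b hb]
  have hinji : InjOn hi (ball 0 1) := fun a ha b hb hab => by
    rw [← hhi' a ha, hab, hhi' b hb]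
  have hlim := GB_lim hhc hic hm hmi hih hhi' fun ζ hζ => qc_small_arc hh hinj hm hq hζ
  have hlimi := GB_lim hic hhc hmi hm hhi' hih fun ζ hζ => qc_small_arc hhi hinji hmi hqi hζ
  have hbc : ContinuousOn (extendFrom (ball 0 1) h) (closedBall 0 1) :=
    continuousOn_extendFrom hcl.ge hlim
  have hbic : ContinuousOn (extendFrom (ball 0 1) hi) (closedBall 0 1) :=
    continuousOn_extendFrom hcl.ge hlimi
  have hbe : ∀ z ∈ ball (0:ℂ) 1, extendFrom (ball 0 1) h z = h z := fun z hz =>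
    extendFrom_eq (subset_closure hz) (hhc z hz)
  have hbie : ∀ z ∈ ball (0:ℂ) 1, extendFrom (ball 0 1) hi z = hi z := fun z hz =>
    extendFrom_eq (subset_closure hz) (hic z hz)
  have hbo : MapsTo (extendFrom (ball 0 1) h) (ball 0 1) (ball 0 1) := by
    intro z hz
    rw [hbe z hz]
    exact hm hz
  have hbio : MapsTo (extendFrom (ball 0 1) hi) (ball 0 1) (ball 0 1) := by
    intro z hz
    rw [hbie z hz]
    exact hmi hz
  have hbm : MapsTo (extendFrom (ball 0 1) h) (closedBall 0 1) (closedBall 0 1) := by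
    have := hbo.closure_of_continuousOn (by rw [hcl]; exact hbc)
    rwa [hcl] at this
  have hbim : MapsTo (extendFrom (ball 0 1) hi) (closedBall 0 1) (closedBall 0 1) := by
    have := hbio.closure_of_continuousOn (by rw [hcl]; exact hbic)
    rwa [hcl] at this
  have hbib : ∀ z ∈ closedBall (0:ℂ) 1,
      extendFrom (ball 0 1) hi (extendFrom (ball 0 1) h z) = z := by
    have h1 : EqOn (fun z => extendFrom (ball 0 1) hi (extendFrom (ball 0 1) h z)) id
        (ball 0 1) := by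
      intro z hz
      simp only [id]
      rw [hbe z hz, hbie _ (hm hz), hih z hz]
    exact h1.of_subset_closure (hbic.comp hbc hbm) continuousOn_id ball_subset_closedBall hcl.ge
  have hbbi : ∀ z ∈ closedBall (0:ℂ) 1,
      extendFrom (ball 0 1) h (extendFrom (ball 0 1) hi z) = z := by
    have h1 : EqOn (fun z => extendFrom (ball 0 1) h (extendFrom (ball 0 1) hi z)) id
        (ball 0 1) := by
      intro z hz
      simp only [id]
      rw [hbie z hz, hbe _ (hmi hz), hhi' z hz]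
    exact h1.of_subset_closure (hbc.comp hbic hbim) continuousOn_id ball_subset_closedBall hcl.ge
  refine ⟨extendFrom (ball 0 1) h, extendFrom (ball 0 1) hi, hbc, hbic, hbm, hbim, hbo, hbio,
    ?_, ?_, hbib, hbbi, hbe, hbie⟩
  · intro ζ hζ
    have hζ1 : ζ ∈ closedBall (0:ℂ) 1 := sphere_subset_closedBall hζ
    by_contra hc
    have h2 : extendFrom (ball 0 1) h ζ ∈ ball (0:ℂ) 1 := by
      have h3 := hbm hζ1
      rw [mem_closedBall_zero_iff] at h3
      rw [mem_ball_zero_iff]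
      rw [mem_sphere_zero_iff_norm] at hc
      exact lt_of_le_of_ne h3 hc
    have h4 := hbio h2
    rw [hbib ζ hζ1, mem_ball_zero_iff, mem_sphere_zero_iff_norm.1 hζ] at h4
    exact lt_irrefl _ h4
  · intro ζ hζ
    have hζ1 : ζ ∈ closedBall (0:ℂ) 1 := sphere_subset_closedBall hζ
    by_contra hc
    have h2 : extendFrom (ball 0 1) hi ζ ∈ ball (0:ℂ) 1 := by
      have h3 := hbim hζ1
      rw [mem_closedBall_zero_iff] at h3
      rw [mem_ball_zero_iff]
      rw [mem_sphere_zero_iff_norm] at hc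
      exact lt_of_le_of_ne h3 hc
    have h4 := hbo h2
    rw [hbbi ζ hζ1, mem_ball_zero_iff, mem_sphere_zero_iff_norm.1 hζ] at h4
    exact lt_irrefl _ h4

end DG

end S_H36_DG_GB

section S_H36_DG_LR

/-!
LR (length-area: short arcs and short radial segments at all small scales).  Coordinates `z = ζ * (1 - LA_pt s t)`, `dist z ζ = s`, `z ∈ ball 0 1 ↔ s / 2 < cos t` (`LA_lens`).
Let `K w = k (ζ * (1 - w))` on `Ω = {w ∈ ball 1 1, ‖w‖ < r₀}`, `0` outside.  `∫⁻ K ^ 2 < ⊤`, so (monotone limit, `MeasureTheory.tendsto_measure_iInter` for `withDensity`, or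
`MeasureTheory.exists_pos_setLIntegral_lt_of_measure_lt`) the integral over `{‖w‖ < r}` tends to `0` for `r → 0`.  By `LA_polar` it is `∫⁻ s in Ioo 0 r, ∫⁻ t in Ioo (-π) π, s K(s,t)²`.
Arcs: if `ℓ s = ∫⁻ t in Ioo (-π) π, s K ≥ ε` for all `s ∈ (r/2, r)` then (`LA_amgm`, as in `LA_short`) `∫⁻ t, s K² ≥ ε² / (4 π s)` up to a constant, so the integral over `(r/2, r)` is
`≥ c ε² log 2`, a constant: impossible for small `r`.
Radial: `∫⁻ t in Ioo (-π/4) (π/4), (∫⁻ s in Ioo (r/4) r, K ds)² dt ≤ ∫⁻∫⁻ K² s ds dt * ∫ ds / s = (small) * log 4` (Cauchy-Schwarz, or again the pointwise inequality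
`2 x y ≤ λ x² s + y² / (λ s)`), so for some `t` the inner integral is `< ε`.
-/

namespace DG
open Metric Set Filter Topology DS MeasureTheory

theorem LR_mp {ζ : ℂ} (hζ : ‖ζ‖ = 1) :
    MeasurePreserving (fun w : ℂ => ζ * (1 - w)) volume volume := by
  have hc : ζ ∈ Submonoid.unitSphere ℂ := mem_sphere_zero_iff_norm.2 hζ
  have h1 : MeasurePreserving (rotation ⟨ζ, hc⟩ : ℂ → ℂ) volume volume :=
    (rotation ⟨ζ, hc⟩).measurePreserving
  have h2 : MeasurePreserving (fun w : ℂ => 1 - w) volume volume := by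
    have h3 := (measurePreserving_add_left (volume : Measure ℂ) 1).comp
      (Measure.measurePreserving_neg (volume : Measure ℂ))
    have h4 : (fun w : ℂ => 1 - w) = (fun w : ℂ => 1 + w) ∘ (Neg.neg : ℂ → ℂ) := by
      funext w
      simp [sub_eq_add_neg]
    rw [h4]
    exact h3
  exact h1.comp h2

theorem LR_maps {ζ : ℂ} (hζ : ‖ζ‖ = 1) (r₀ : ℝ) (w : ℂ) :
    ζ * (1 - w) ∈ ball (0:ℂ) 1 ∩ ball ζ r₀ ↔ w ∈ ball (1:ℂ) 1 ∩ ball 0 r₀ := by
  have h1 : ζ * (1 - w) ∈ ball (0:ℂ) 1 ↔ w ∈ ball (1:ℂ) 1 := by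
    rw [mem_ball_zero_iff, norm_mul, hζ, one_mul, mem_ball, dist_eq_norm, norm_sub_rev]
  have h2 : ζ * (1 - w) ∈ ball ζ r₀ ↔ w ∈ ball (0:ℂ) r₀ := by
    rw [mem_ball, dist_eq_norm]
    have : ζ * (1 - w) - ζ = -(ζ * w) := by ring
    rw [this, norm_neg, norm_mul, hζ, one_mul, mem_ball_zero_iff]
  rw [mem_inter_iff, mem_inter_iff, h1, h2]

theorem LR_norm {s t : ℝ} (hs : 0 < s) : ‖LA_pt s t‖ = s := by
  rw [LA_pt_eq, norm_mul, Complex.norm_exp_ofReal_mul_I, Complex.norm_real,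
    Real.norm_of_nonneg hs.le, mul_one]

/-- the mass of `s F` in polar coordinates over `0 < s < r` is at most the mass of `F` over the ball -/
theorem LR_polar {F : ℂ → ENNReal} (hF : Measurable F) {r : ℝ} :
    ∫⁻ s in Ioo (0:ℝ) r, ∫⁻ t in Ioo (-Real.pi) Real.pi, ENNReal.ofReal s * F (LA_pt s t) ≤
      ∫⁻ w in ball (0:ℂ) r, F w := by
  rw [← lintegral_indicator isOpen_ball.measurableSet, ← LA_polar (hF.indicator isOpen_ball.measurableSet)]
  calc ∫⁻ s in Ioo (0:ℝ) r, ∫⁻ t in Ioo (-Real.pi) Real.pi, ENNReal.ofReal s * F (LA_pt s t)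
      = ∫⁻ s in Ioo (0:ℝ) r, ∫⁻ t in Ioo (-Real.pi) Real.pi, ENNReal.ofReal s *
          (ball (0:ℂ) r).indicator F (s * (Real.cos t + Real.sin t * Complex.I)) := by
        apply setLIntegral_congr_fun measurableSet_Ioo
        intro s hs
        apply lintegral_congr
        intro t
        have h1 : (s * (Real.cos t + Real.sin t * Complex.I) : ℂ) ∈ ball (0:ℂ) r := by
          have : ‖LA_pt s t‖ < r := by rw [LR_norm hs.1]; exact hs.2
          rw [mem_ball_zero_iff]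
          exact this
        rw [indicator_of_mem h1]
        rfl
    _ ≤ _ := lintegral_mono_set Ioo_subset_Ioi_self

theorem short_arcs {k : ℂ → ℝ} {ζ : ℂ} (hζ : ‖ζ‖ = 1) {r₀ : ℝ} (hr₀ : 0 < r₀)
    (hk : ContinuousOn k (ball 0 1 ∩ ball ζ r₀)) (hk0 : ∀ z, 0 ≤ k z)
    (hfin : ∫⁻ z in ball (0:ℂ) 1 ∩ ball ζ r₀, ENNReal.ofReal (k z ^ 2) < ⊤) {ε : ℝ} (hε : 0 < ε) :
    ∃ r₁ > 0, r₁ < 1 ∧ r₁ < r₀ ∧ ∀ r, 0 < r → r < r₁ →
      (∃ s, r / 2 < s ∧ s < r ∧ ∫⁻ t in Ioo (-Real.pi) Real.pi, ENNReal.ofReal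
        ((ball (1:ℂ) 1).indicator (fun w => s * k (ζ * (1 - w))) (LA_pt s t)) <
          ENNReal.ofReal ε) ∧
      ∃ t, |t| < Real.pi / 4 ∧ ∫⁻ s in Ioo (r / 4) r, ENNReal.ofReal
        (k (ζ * (1 - LA_pt s t))) < ENNReal.ofReal ε := by
  classical
  have hpi := Real.pi_pos
  have hΩ : MeasurableSet (ball (0:ℂ) 1 ∩ ball ζ r₀) := (isOpen_ball.inter isOpen_ball).measurableSet
  set Kz : ℂ → ℝ := (ball (0:ℂ) 1 ∩ ball ζ r₀).indicator k with hKz
  have hKzm : Measurable Kz := by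
    rw [hKz, ← Set.piecewise_eq_indicator]
    exact ContinuousOn.measurable_piecewise hk continuousOn_const hΩ
  set K : ℂ → ℝ := fun w => Kz (ζ * (1 - w)) with hK
  have hKm : Measurable K := hKzm.comp (by fun_prop)
  have hKeq : ∀ w, w ∈ ball (1:ℂ) 1 → w ∈ ball (0:ℂ) r₀ → K w = k (ζ * (1 - w)) := by
    intro w h1 h2
    simp only [hK, hKz]
    rw [indicator_of_mem ((LR_maps hζ r₀ w).2 ⟨h1, h2⟩)]
  have hKzero : ∀ w, w ∉ ball (1:ℂ) 1 → K w = 0 := by
    intro w h1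
    simp only [hK, hKz]
    rw [indicator_of_notMem fun h => h1 ((LR_maps hζ r₀ w).1 h).1]
  have hK0 : ∀ w, 0 ≤ K w := by
    intro w
    simp only [hK, hKz]
    exact indicator_nonneg (fun z _ => hk0 z) _
  set F : ℂ → ENNReal := fun w => ENNReal.ofReal (K w ^ 2) with hF
  have hFm : Measurable F := (hKm.pow_const 2).ennreal_ofReal
  have hFfin : ∫⁻ w, F w ≠ ⊤ := by
    have h1 := (LR_mp hζ).lintegral_comp (f := fun z => ENNReal.ofReal (Kz z ^ 2))
      (hKzm.pow_const 2).ennreal_ofReal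
    have h2 : ∫⁻ w, F w = ∫⁻ z, ENNReal.ofReal (Kz z ^ 2) := h1
    have h3 : ∫⁻ z, ENNReal.ofReal (Kz z ^ 2) =
        ∫⁻ z in ball (0:ℂ) 1 ∩ ball ζ r₀, ENNReal.ofReal (k z ^ 2) := by
      rw [← lintegral_indicator hΩ]
      apply lintegral_congr
      intro z
      simp only [hKz]
      by_cases hz : z ∈ ball (0:ℂ) 1 ∩ ball ζ r₀
      · rw [indicator_of_mem hz, indicator_of_mem hz]
      · rw [indicator_of_notMem hz, indicator_of_notMem hz]
        simp
    rw [h2, h3]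
    exact hfin.ne
  -- small mass near the point
  obtain ⟨δ, hδ, hδs⟩ := exists_pos_setLIntegral_lt_of_measure_lt hFfin
    (ε := ENNReal.ofReal (ε ^ 2 / (8 * Real.pi))) (by
      rw [Ne, ENNReal.ofReal_eq_zero, not_le]
      positivity)
  obtain ⟨r₂, hr₂, hr₂δ⟩ : ∃ r₂ : ℝ, 0 < r₂ ∧ volume (ball (0:ℂ) r₂) < δ := by
    rcases eq_or_ne δ ⊤ with rfl | hδt
    · exact ⟨1, one_pos, measure_ball_lt_top⟩
    · have hδ' : 0 < δ.toReal := ENNReal.toReal_pos hδ.ne' hδt
      refine ⟨min 1 (δ.toReal / (2 * Real.pi)), lt_min one_pos (by positivity), ?_⟩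
      set r := min 1 (δ.toReal / (2 * Real.pi)) with hr
      have hr0 : 0 < r := lt_min one_pos (by positivity)
      have h1 : r ^ 2 * Real.pi ≤ δ.toReal / 2 := by
        have h2 : r ≤ 1 := min_le_left _ _
        have h3 : r ≤ δ.toReal / (2 * Real.pi) := min_le_right _ _
        have h4 : r ^ 2 ≤ r := by nlinarith
        calc r ^ 2 * Real.pi ≤ δ.toReal / (2 * Real.pi) * Real.pi := by
              apply mul_le_mul_of_nonneg_right (h4.trans h3) hpi.le
          _ = δ.toReal / 2 := by field_simp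
      rw [Complex.volume_ball]
      have h5 : ENNReal.ofReal r ^ 2 * (NNReal.pi : ENNReal) = ENNReal.ofReal (r ^ 2 * Real.pi) := by
        rw [ENNReal.ofReal_mul (by positivity), ENNReal.ofReal_pow hr0.le]
        congr 1
        rw [← NNReal.coe_real_pi, ENNReal.ofReal_coe_nnreal]
      rw [h5, ENNReal.ofReal_lt_iff_lt_toReal (by positivity) hδt]
      linarith
  set r₁ := min r₂ (min (1 / 2) (r₀ / 2)) with hr₁
  have hr₁0 : 0 < r₁ := lt_min hr₂ (lt_min (by norm_num) (by linarith))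
  have hr₁1 : r₁ < 1 := by
    have : r₁ ≤ 1 / 2 := (min_le_right _ _).trans (min_le_left _ _)
    linarith
  have hr₁r : r₁ < r₀ := by
    have : r₁ ≤ r₀ / 2 := (min_le_right _ _).trans (min_le_right _ _)
    linarith
  have hmass : ∫⁻ w in ball (0:ℂ) r₁, F w < ENNReal.ofReal (ε ^ 2 / (8 * Real.pi)) :=
    hδs _ (lt_of_le_of_lt (measure_mono (ball_subset_ball (min_le_left _ _))) hr₂δ)
  have hpol := (LR_polar hFm (r := r₁)).trans_lt hmass
  refine ⟨r₁, hr₁0, hr₁1, hr₁r, fun r hr hrr => ⟨?_, ?_⟩⟩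
  · -- arcs
    by_contra hcon
    push Not at hcon
    have h1 : ∀ s ∈ Ioo (r / 2) r, ENNReal.ofReal (ε ^ 2 / (4 * Real.pi) / r) ≤
        ∫⁻ t in Ioo (-Real.pi) Real.pi, ENNReal.ofReal s * F (LA_pt s t) := by
      intro s hs
      have hs0 : 0 < s := by linarith [hs.1]
      have h3 := LA_amgm hε _ (hcon s hs.1 hs.2)
      have h4 : ∀ t : ℝ, ENNReal.ofReal (((ball (1:ℂ) 1).indicator
          (fun w => s * k (ζ * (1 - w))) (LA_pt s t)) ^ 2) =
          ENNReal.ofReal s * (ENNReal.ofReal s * F (LA_pt s t)) := by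
        intro t
        simp only [hF]
        rw [← ENNReal.ofReal_mul hs0.le, ← ENNReal.ofReal_mul hs0.le]
        congr 1
        by_cases hx : LA_pt s t ∈ ball (1:ℂ) 1
        · rw [indicator_of_mem hx, hKeq _ hx]
          · ring
          · rw [mem_ball_zero_iff, LR_norm hs0]
            linarith [hs.2]
        · rw [indicator_of_notMem hx, hKzero _ hx]
          ring
      simp only [h4] at h3
      rw [lintegral_const_mul' _ _ ENNReal.ofReal_ne_top] at h3
      calc ENNReal.ofReal (ε ^ 2 / (4 * Real.pi) / r)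
          ≤ ENNReal.ofReal (ε ^ 2 / (4 * Real.pi) / s) := by
            apply ENNReal.ofReal_le_ofReal
            exact div_le_div_of_nonneg_left (by positivity) hs0 hs.2.le
        _ ≤ _ := by
            rw [ENNReal.ofReal_div_of_pos hs0]
            apply ENNReal.div_le_of_le_mul
            exact h3.trans_eq (mul_comm _ _)
    have h5 : ENNReal.ofReal (ε ^ 2 / (8 * Real.pi)) ≤
        ∫⁻ s in Ioo (0:ℝ) r₁, ∫⁻ t in Ioo (-Real.pi) Real.pi, ENNReal.ofReal s * F (LA_pt s t) := by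
      calc ENNReal.ofReal (ε ^ 2 / (8 * Real.pi))
          = ∫⁻ s in Ioo (r / 2) r, ENNReal.ofReal (ε ^ 2 / (4 * Real.pi) / r) := by
            rw [setLIntegral_const, Real.volume_Ioo, ← ENNReal.ofReal_mul (by positivity)]
            congr 1
            field_simp
            ring
        _ ≤ ∫⁻ s in Ioo (r / 2) r, ∫⁻ t in Ioo (-Real.pi) Real.pi,
              ENNReal.ofReal s * F (LA_pt s t) := setLIntegral_mono' measurableSet_Ioo h1
        _ ≤ _ := by
            apply lintegral_mono_set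
            intro s hs
            exact ⟨by linarith [hs.1], by linarith [hs.2]⟩
    exact absurd hpol (not_lt.2 h5)
  · -- radial segments
    by_contra hcon
    push Not at hcon
    have h1 : ∀ t ∈ Ioo (-(Real.pi / 4)) (Real.pi / 4), ENNReal.ofReal (ε ^ 2 / 3) ≤
        ∫⁻ s in Ioo (r / 4) r, ENNReal.ofReal s * F (LA_pt s t) := by
      intro t ht
      have h2 := hcon t (abs_lt.2 ht)
      have hcos : 1 / 2 < Real.cos t := by
        rw [← Real.cos_pi_div_three, ← Real.cos_abs t]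
        apply Real.cos_lt_cos_of_nonneg_of_le_pi (abs_nonneg t) (by linarith)
        have := abs_lt.2 ht
        linarith
      have h3 : ∀ s ∈ Ioo (r / 4) r, ENNReal.ofReal (k (ζ * (1 - LA_pt s t))) ≤
          ENNReal.ofReal (3 / (2 * ε)) * (ENNReal.ofReal s * F (LA_pt s t)) +
            ENNReal.ofReal (2 * ε / (3 * r)) := by
        intro s hs
        have hs0 : 0 < s := by linarith [hs.1]
        have hx : LA_pt s t ∈ ball (1:ℂ) 1 := by
          rw [LA_lens hs0]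
          linarith [hs.2]
        have hy : LA_pt s t ∈ ball (0:ℂ) r₀ := by
          rw [mem_ball_zero_iff, LR_norm hs0]
          linarith [hs.2]
        rw [← hKeq _ hx hy]
        simp only [hF]
        rw [← ENNReal.ofReal_mul hs0.le, ← ENNReal.ofReal_mul (by positivity),
          ← ENNReal.ofReal_add (by positivity) (by positivity)]
        apply ENNReal.ofReal_le_ofReal
        set y := K (LA_pt s t) with hy
        have h4 : ε / (6 * s) ≤ 2 * ε / (3 * r) := by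
          rw [div_le_div_iff₀ (by positivity) (by positivity)]
          nlinarith [hs.1]
        have h5 : y ≤ 3 / (2 * ε) * (s * y ^ 2) + ε / (6 * s) := by
          have h6 : 3 / (2 * ε) * (s * y ^ 2) + ε / (6 * s) - y =
              3 * s / (2 * ε) * (y - ε / (3 * s)) ^ 2 := by
            field_simp
            ring
          have h7 : 0 ≤ 3 * s / (2 * ε) * (y - ε / (3 * s)) ^ 2 := by positivity
          linarith
        linarith
      have h4 : ENNReal.ofReal ε ≤ ENNReal.ofReal (3 / (2 * ε)) *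
          (∫⁻ s in Ioo (r / 4) r, ENNReal.ofReal s * F (LA_pt s t)) + ENNReal.ofReal (ε / 2) := by
        refine h2.trans ((setLIntegral_mono' measurableSet_Ioo h3).trans ?_)
        rw [lintegral_add_right _ measurable_const, lintegral_const_mul' _ _ ENNReal.ofReal_ne_top,
          setLIntegral_const, Real.volume_Ioo, ← ENNReal.ofReal_mul (by positivity)]
        have : 2 * ε / (3 * r) * (r - r / 4) = ε / 2 := by
          field_simp
          ring
        rw [this]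
      by_contra h5
      push Not at h5
      have h6 : ENNReal.ofReal (3 / (2 * ε)) *
          (∫⁻ s in Ioo (r / 4) r, ENNReal.ofReal s * F (LA_pt s t)) < ENNReal.ofReal (ε / 2) := by
        calc _ < ENNReal.ofReal (3 / (2 * ε)) * ENNReal.ofReal (ε ^ 2 / 3) := by
              apply ENNReal.mul_lt_mul_right (by positivity) ENNReal.ofReal_ne_top h5
          _ = ENNReal.ofReal (ε / 2) := by
              rw [← ENNReal.ofReal_mul (by positivity)]
              congr 1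
              field_simp
      have h7 : ENNReal.ofReal (ε / 2) + ENNReal.ofReal (3 / (2 * ε)) *
          (∫⁻ s in Ioo (r / 4) r, ENNReal.ofReal s * F (LA_pt s t)) <
          ENNReal.ofReal (ε / 2) + ENNReal.ofReal (ε / 2) :=
        ENNReal.add_lt_add_left ENNReal.ofReal_ne_top h6
      rw [← ENNReal.ofReal_add (by positivity) (by positivity), add_halves, add_comm] at h7
      exact absurd (h4.trans_lt h7) (lt_irrefl _)
    have hmeas : Measurable (Function.uncurry fun t s : ℝ => ENNReal.ofReal s * F (LA_pt s t)) := by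
      have e1 : Measurable fun x : ℝ × ℝ => ENNReal.ofReal x.2 := measurable_snd.ennreal_ofReal
      have e2 : Measurable fun x : ℝ × ℝ => F (LA_pt x.2 x.1) := by
        apply hFm.comp
        unfold LA_pt
        fun_prop
      exact e1.mul e2
    have h5 : ENNReal.ofReal (ε ^ 2 / (8 * Real.pi)) ≤
        ∫⁻ s in Ioo (0:ℝ) r₁, ∫⁻ t in Ioo (-Real.pi) Real.pi, ENNReal.ofReal s * F (LA_pt s t) := by
      calc ENNReal.ofReal (ε ^ 2 / (8 * Real.pi))
          ≤ ENNReal.ofReal (Real.pi / 2 * (ε ^ 2 / 3)) := by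
            apply ENNReal.ofReal_le_ofReal
            rw [div_le_iff₀ (by positivity)]
            have : 3 < Real.pi := Real.pi_gt_three
            have h8 : (1:ℝ) ≤ Real.pi / 2 * (1 / 3) * (8 * Real.pi) := by nlinarith
            nlinarith [sq_nonneg ε, mul_le_mul_of_nonneg_left h8 (sq_nonneg ε)]
        _ = ∫⁻ t in Ioo (-(Real.pi / 4)) (Real.pi / 4), ENNReal.ofReal (ε ^ 2 / 3) := by
            rw [setLIntegral_const, Real.volume_Ioo, ← ENNReal.ofReal_mul (by positivity)]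
            congr 1
            ring
        _ ≤ ∫⁻ t in Ioo (-(Real.pi / 4)) (Real.pi / 4), ∫⁻ s in Ioo (r / 4) r,
              ENNReal.ofReal s * F (LA_pt s t) := setLIntegral_mono' measurableSet_Ioo h1
        _ = ∫⁻ s in Ioo (r / 4) r, ∫⁻ t in Ioo (-(Real.pi / 4)) (Real.pi / 4),
              ENNReal.ofReal s * F (LA_pt s t) := lintegral_lintegral_swap hmeas.aemeasurable
        _ ≤ ∫⁻ s in Ioo (r / 4) r, ∫⁻ t in Ioo (-Real.pi) Real.pi,
              ENNReal.ofReal s * F (LA_pt s t) := by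
            apply lintegral_mono
            intro s
            exact lintegral_mono_set fun t ht => ⟨by linarith [ht.1], by linarith [ht.2]⟩
        _ ≤ _ := by
            apply lintegral_mono_set
            intro s hs
            exact ⟨by linarith [hs.1], by linarith [hs.2]⟩
    exact absurd hpol (not_lt.2 h5)

end DG

end S_H36_DG_LR
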