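import Pool.Agent.H12.KS.K06

/-! Joined modules of the proof of MP_8a27c0_an (one section per module). -/

section S_H36_DS_PA

/-!
PA (side function of a relatively clopen piece of a boundary).  Proof.  `A` and `A' = (frontier R ∩ W) \ A` are
disjoint and relatively closed in `W`; by Urysohn in the (normal) subspace `W` there is
`κ : ℂ → ℝ`, continuous on `W`, values in `[0,1]`, `κ = 1` on `A`, `κ = 0` on `A'`.  Put
`f z = exp (2 π I κ z)` for `z ∈ R` and `f z = 1` for `z ∉ R`.  `f` is continuous on `W`: off `frontier R` clear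
(`R` is locally everything or nothing), at points of `A` both expressions tend to `1` (`exp (2πI) = 1`), at points
of `A'` too (`exp 0 = 1`).  It is nowhere zero; let `L` be a continuous logarithm on `W` (`AllLogs W`).
`N z = round ((κ z * 1_R z - L z / (2πI)).re)`: the number inside is an integer for every `z ∈ W`
(`exp` of `2πI` times it is `1`).  At `z ∈ W \ A` the function `κ * 1_R` is continuous (at `A'` because `κ = 0` there), so
`N` is locally constant.  At `w ∈ A`, for `z` near `w` off the frontier: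
`N z - 1_R z = (κ z - 1) * 1_R z - L z / (2πI)` is an integer and close to `- L w / (2πI)`, hence constant.
-/

namespace DS
open Metric Set Filter Topology

/-- a continuous integer valued function is locally constant -/
lemma PA_locConst {s : Set ℂ} (hs : IsOpen s) {m : ℂ → ℂ} (hm : ContinuousOn m s)
    (hi : ∀ z ∈ s, ∃ n : ℤ, m z = n) {z : ℂ} (hz : z ∈ s) : ∀ᶠ z' in 𝓝 z, m z' = m z := by
  have hc : ContinuousAt m z := hm.continuousAt (hs.mem_nhds hz)
  have h1 : ∀ᶠ z' in 𝓝 z, dist (m z') (m z) < 1 := Metric.tendsto_nhds.1 hc 1 one_pos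
  filter_upwards [h1, hs.mem_nhds hz] with z' h h'
  obtain ⟨n, hn⟩ := hi z hz
  obtain ⟨n', hn'⟩ := hi z' h'
  rw [hn, hn'] at h ⊢
  rw [dist_eq_norm, ← Int.cast_sub, Complex.norm_intCast] at h
  have h2 : |n' - n| < 1 := by exact_mod_cast h
  have h3 : n' - n = 0 := Int.abs_lt_one_iff.1 h2
  have : n' = n := by omega
  rw [this]

open Classical in
theorem side_function {W : Set ℂ} (hW : IsOpen W) (hL : AllLogs W) {R : Set ℂ} (hR : IsClosed R)
    {A : Set ℂ} (hA : A ⊆ frontier R ∩ W) (h1 : ∃ F, IsClosed F ∧ A = F ∩ W)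
    (h2 : ∃ F, IsClosed F ∧ (frontier R ∩ W) \ A = F ∩ W) :
    ∃ N : ℂ → ℤ, (∀ z ∈ W \ A, ∀ᶠ z' in 𝓝 z, N z' = N z) ∧
      ∀ w ∈ A, ∃ c : ℤ, ∀ᶠ z in 𝓝 w, z ∉ frontier R → N z = c + (if z ∈ R then 1 else 0) := by
  obtain ⟨F₁, hF₁, hAF⟩ := h1
  obtain ⟨F₂, hF₂, hAF'⟩ := h2
  -- Urysohn function
  obtain ⟨κ, hκc, hκ1, hκ0⟩ : ∃ κ : ℂ → ℝ, ContinuousOn κ W ∧ (∀ z ∈ A, κ z = 1) ∧
      (∀ z ∈ (frontier R ∩ W) \ A, κ z = 0) := by
    have hd : Disjoint (((↑) : W → ℂ) ⁻¹' F₂) (((↑) : W → ℂ) ⁻¹' F₁) := by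
      rw [Set.disjoint_left]
      intro x hx2 hx1
      have h3 : (x : ℂ) ∈ (frontier R ∩ W) \ A := by rw [hAF']; exact ⟨hx2, x.2⟩
      exact h3.2 (by rw [hAF]; exact ⟨hx1, x.2⟩)
    obtain ⟨g, hg0, hg1, -⟩ := exists_continuous_zero_one_of_isClosed
      (hF₂.preimage continuous_subtype_val) (hF₁.preimage continuous_subtype_val) hd
    refine ⟨fun z => if h : z ∈ W then g ⟨z, h⟩ else 0, ?_, ?_, ?_⟩
    · rw [continuousOn_iff_continuous_domRestrict]
      have : (W.domRestrict fun z => if h : z ∈ W then g ⟨z, h⟩ else 0) = g := by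
        funext x
        simp [Set.domRestrict, x.2]
      rw [this]
      exact g.continuous
    · intro z hz
      have hzW : z ∈ W := (hA hz).2
      have hzF : z ∈ F₁ := by rw [hAF] at hz; exact hz.1
      simp only [hzW, dif_pos]
      exact hg1 (show (⟨z, hzW⟩ : W) ∈ ((↑) : W → ℂ) ⁻¹' F₁ from hzF)
    · intro z hz
      have hzW : z ∈ W := hz.1.2
      have hzF : z ∈ F₂ := by rw [hAF'] at hz; exact hz.1
      simp only [hzW, dif_pos]
      exact hg0 (show (⟨z, hzW⟩ : W) ∈ ((↑) : W → ℂ) ⁻¹' F₂ from hzF)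
  have hπ : (2 * Real.pi * Complex.I : ℂ) ≠ 0 := Complex.two_pi_I_ne_zero
  set f : ℂ → ℂ := R.piecewise (fun z => Complex.exp (2 * Real.pi * Complex.I * (κ z : ℂ))) (fun _ => 1)
    with hf
  have hfc : ContinuousOn f W := by
    refine ContinuousOn.piecewise ?_ ?_ continuousOn_const
    · intro a ha
      by_cases haA : a ∈ A
      · rw [hκ1 a haA]
        simp [Complex.exp_two_pi_mul_I]
      · rw [hκ0 a ⟨⟨ha.2, ha.1⟩, haA⟩]
        simp
    · refine ContinuousOn.cexp (ContinuousOn.mul continuousOn_const ?_)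
      exact Complex.continuous_ofReal.comp_continuousOn (hκc.mono inter_subset_left)
  have hf0 : ∀ z ∈ W, f z ≠ 0 := by
    intro z _
    by_cases hz : z ∈ R
    · simp [hf, Set.piecewise_eq_of_mem _ _ _ hz, Complex.exp_ne_zero]
    · simp [hf, Set.piecewise_eq_of_notMem _ _ _ hz]
  obtain ⟨L, hLc, hLf⟩ := hL f hfc hf0
  set m : ℂ → ℂ := fun z => R.piecewise (fun z => (κ z : ℂ)) (fun _ => 0) z
    - L z / (2 * Real.pi * Complex.I) with hm
  have hmint : ∀ z ∈ W, ∃ n : ℤ, m z = n := by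
    intro z hz
    have h3 : Complex.exp (2 * Real.pi * Complex.I * m z) = 1 := by
      have h4 := hLf z hz
      by_cases hzR : z ∈ R
      · simp only [hf, Set.piecewise_eq_of_mem _ _ _ hzR] at h4
        simp only [hm, Set.piecewise_eq_of_mem _ _ _ hzR]
        rw [mul_sub, mul_div_cancel₀ _ hπ, Complex.exp_sub, h4, div_self (Complex.exp_ne_zero _)]
      · simp only [hf, Set.piecewise_eq_of_notMem _ _ _ hzR] at h4
        simp only [hm, Set.piecewise_eq_of_notMem _ _ _ hzR]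
        rw [mul_sub, mul_div_cancel₀ _ hπ, Complex.exp_sub, ← h4]
        simp
    obtain ⟨n, hn⟩ := Complex.exp_eq_one_iff.1 h3
    refine ⟨n, ?_⟩
    have h5 : 2 * Real.pi * Complex.I * m z = 2 * Real.pi * Complex.I * (n : ℂ) := by
      rw [hn]; ring
    exact mul_left_cancel₀ hπ h5
  have hN : ∀ z ∈ W, ((round (m z).re : ℤ) : ℂ) = m z := by
    intro z hz
    obtain ⟨n, hn⟩ := hmint z hz
    rw [hn]
    simp
  refine ⟨fun z => round (m z).re, ?_, ?_⟩
  · intro z hz
    have hs : IsOpen (W \ A) := by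
      have : W \ A = W \ F₁ := by
        rw [hAF]; ext x; simp
      rw [this]
      exact hW.sdiff hF₁
    have hmc : ContinuousOn m (W \ A) := by
      refine ContinuousOn.sub ?_ (ContinuousOn.div_const (hLc.mono sdiff_subset) _)
      refine ContinuousOn.piecewise ?_ ?_ continuousOn_const
      · intro a ha
        rw [hκ0 a ⟨⟨ha.2, ha.1.1⟩, ha.1.2⟩]
        simp
      · exact Complex.continuous_ofReal.comp_continuousOn
          (hκc.mono (inter_subset_left.trans sdiff_subset))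
    filter_upwards [PA_locConst hs hmc (fun z hz => hmint z hz.1) hz] with z' hz'
    simp only [hz']
  · intro w hw
    have hs : IsOpen (W \ F₂) := hW.sdiff hF₂
    set m' : ℂ → ℂ := fun z => R.piecewise (fun z => (κ z : ℂ) - 1) (fun _ => 0) z
      - L z / (2 * Real.pi * Complex.I) with hm'
    have hmm : ∀ z, m z = m' z + (if z ∈ R then 1 else 0) := by
      intro z
      by_cases hz : z ∈ R
      · simp only [hm, hm', Set.piecewise_eq_of_mem _ _ _ hz, if_pos hz]
        ring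
      · simp only [hm, hm', Set.piecewise_eq_of_notMem _ _ _ hz, if_neg hz]
        ring
    have hmc : ContinuousOn m' (W \ F₂) := by
      refine ContinuousOn.sub ?_ (ContinuousOn.div_const (hLc.mono sdiff_subset) _)
      refine ContinuousOn.piecewise ?_ ?_ continuousOn_const
      · intro a ha
        have haA : a ∈ A := by
          by_contra h
          have : a ∈ (frontier R ∩ W) \ A := ⟨⟨ha.2, ha.1.1⟩, h⟩
          rw [hAF'] at this
          exact ha.1.2 this.1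
        rw [hκ1 a haA]
        simp
      · exact (Complex.continuous_ofReal.comp_continuousOn
          (hκc.mono (inter_subset_left.trans sdiff_subset))).sub continuousOn_const
    have hm'int : ∀ z ∈ W \ F₂, ∃ n : ℤ, m' z = n := by
      intro z hz
      obtain ⟨n, hn⟩ := hmint z hz.1
      have h3 := hmm z
      by_cases hzR : z ∈ R
      · refine ⟨n - 1, ?_⟩
        rw [if_pos hzR, hn] at h3
        push_cast
        rw [h3]; ring
      · refine ⟨n, ?_⟩
        rw [if_neg hzR, hn, add_zero] at h3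
        exact h3.symm
    have hwW : w ∈ W \ F₂ := by
      refine ⟨(hA hw).2, fun h => ?_⟩
      have : w ∈ (frontier R ∩ W) \ A := by rw [hAF']; exact ⟨h, (hA hw).2⟩
      exact this.2 hw
    obtain ⟨c, hc⟩ := hm'int w hwW
    refine ⟨c, ?_⟩
    filter_upwards [PA_locConst hs hmc hm'int hwW, hs.mem_nhds hwW] with z hz hzs _
    have h3 : ((round (m z).re : ℤ) : ℂ) = ((c + (if z ∈ R then 1 else 0) : ℤ) : ℂ) := by
      rw [hN z hzs.1, hmm z, hz, hc]
      push_cast
      rfl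
    exact_mod_cast h3

end DS

end S_H36_DS_PA

section S_H36_DS_PC

/-!
PC (the two sides of a rectangular cross-cut).  Proof.  Let `A = cc W a b c d w`.  For `z ∈ A` let `V z` be a
neighbourhood from `local_rect` inside `W` (`W` open); `V z ∩ Bd` is connected, contained in `Bd ∩ W` and contains
`z`, so it is contained in `A`; in particular `A` is open in `Bd ∩ W`, and so are the other components: `A` and the rest
are relatively closed in `W` (`Bd` is closed).
Let `In = ⋃ z ∈ A, V z ∩ (Rect \ Bd)` and `Out = ⋃ z ∈ A, V z \ Rect`.  They are connected: for `z` fixed the sets for `z'`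
near `z` (`z' ∈ V z ∩ A`) meet the one for `z` (both contain points close to `z'`), and `A` is connected, so any two can
be joined by a chain (use: the relation -- the unions over `A` -- `IsPreconnected` of a union indexed by a connected
set with local overlaps; e.g. the set of `z' ∈ A` whose piece lies in the connected component of the piece of `z` is
open and closed in `A`).
Let `Cin`, `Cout` be the connected components of `W \ A` containing `In`, `Out` (`In`, `Out ⊆ W \ A`).  Open, connected.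
`A ⊆ closure Cin`, `closure Cout`.  Every component `C` of `W \ A` is `Cin` or `Cout`: `C` is open, `C ≠ W` and `W` is
connected, so `C` is not relatively closed in `W`, hence some `z ∈ A` is in `closure C`; `V z ∩ C ≠ ∅`,
`V z ⊆ In ∪ Out ∪ A` (on `V z`: points of `Bd` are in `A`), so `C` meets `Cin` or `Cout`.
Disjoint: take `N` from `side_function` (`R = Rect`, `frontier_rect`): it is locally constant on `W \ A`, hence constant on
`Cin` and on `Cout`, and near a point of `A` its values inside and outside differ by `1`.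
-/

namespace DS
open Metric Set Filter Topology

private theorem PC_near {a b c d : ℝ} (hab : a < b) (hcd : c < d) {z : ℂ} (hz : z ∈ Bd a b c d)
    {U : Set ℂ} (hU : U ∈ 𝓝 z) : (∃ y ∈ U, y ∈ Rect a b c d \ Bd a b c d) ∧
      ∃ y ∈ U, y ∉ Rect a b c d := by
  obtain ⟨ε, hε, hball⟩ := Metric.mem_nhds_iff.1 hU
  obtain ⟨V, hVb, -, -, -, h1, h2⟩ := local_rect hab hcd hz hε
  obtain ⟨y, hy⟩ := h1.nonempty
  obtain ⟨y', hy'⟩ := h2.nonempty
  exact ⟨⟨y, hball (hVb hy.1), hy.2⟩, ⟨y', hball (hVb hy'.1), hy'.2⟩⟩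

private theorem PC_const {N : ℂ → ℤ} {C : Set ℂ} (hC : IsPreconnected C)
    (hN : ∀ z ∈ C, ∀ᶠ z' in 𝓝 z, N z' = N z) {x y : ℂ} (hx : x ∈ C) (hy : y ∈ C) : N x = N y := by
  refine hC.induction₂ (fun a b => N a = N b) (fun z hz => ?_) (fun _ _ _ _ _ _ h1 h2 => h1.trans h2)
    (fun _ _ _ _ h => h.symm) hx hy
  exact (eventually_nhdsWithin_of_eventually_nhds (hN z hz)).mono fun _ h => h.symm

theorem crosscut_sides {W : Set ℂ} (hW : IsOpen W) (hc : IsConnected W) (hL : AllLogs W)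
    {a b c d : ℝ} (hab : a < b) (hcd : c < d) {w : ℂ} (hw : w ∈ Bd a b c d ∩ W) :
    ∃ Cin Cout : Set ℂ, Sides W (cc W a b c d w) Cin Cout ∧
      (∃ F, IsClosed F ∧ cc W a b c d w = F ∩ W) ∧
      (∃ F, IsClosed F ∧ (Bd a b c d ∩ W) \ cc W a b c d w = F ∩ W) ∧
      ∀ z ∈ cc W a b c d w, ∀ᶠ z' in 𝓝 z, z' ∉ Bd a b c d →
        (z' ∈ Rect a b c d → z' ∈ Cin) ∧ (z' ∉ Rect a b c d → z' ∈ Cout) := by
  classical
  set A := cc W a b c d w with hAdef
  have hBdR : Bd a b c d ⊆ Rect a b c d := fun z hz => hz.1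
  have hBdc : IsClosed (Bd a b c d) := (isCompact_bd a b c d).isClosed
  have hAsub : A ⊆ Bd a b c d ∩ W := connectedComponentIn_subset _ _
  have hwA : w ∈ A := mem_connectedComponentIn hw
  have hApre : IsPreconnected A := isPreconnected_connectedComponentIn
  -- local pieces
  have hV : ∀ z ∈ Bd a b c d ∩ W, ∃ V ⊆ W, IsOpen V ∧ z ∈ V ∧
      IsConnected (V ∩ Bd a b c d) ∧ IsConnected (V ∩ (Rect a b c d \ Bd a b c d)) ∧
      IsConnected (V \ Rect a b c d) := by
    intro z hz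
    obtain ⟨ε, hε, hball⟩ := Metric.isOpen_iff.1 hW z hz.2
    obtain ⟨V, hVb, h⟩ := local_rect hab hcd hz.1 hε
    exact ⟨V, hVb.trans hball, h⟩
  choose! V hVW hVo hVz hVB hVi hVe using hV
  have hVsub : ∀ z ∈ Bd a b c d ∩ W, V z ∩ Bd a b c d ⊆ cc W a b c d z := by
    intro z hz
    exact (hVB z hz).isPreconnected.subset_connectedComponentIn ⟨hVz z hz, hz.1⟩
      (fun y hy => ⟨hy.2, hVW z hz hy.1⟩)
  have hVA : ∀ z ∈ A, V z ∩ Bd a b c d ⊆ A := by
    intro z hz
    have h1 := hVsub z (hAsub hz)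
    have h2 : A = cc W a b c d z := connectedComponentIn_eq hz
    rw [h2]
    exact h1
  have hVA' : ∀ z ∈ (Bd a b c d ∩ W) \ A, Disjoint (V z ∩ Bd a b c d) A := by
    intro z hz
    rw [Set.disjoint_left]
    intro y hy hyA
    have h1 := hVsub z hz.1 hy
    have h2 : cc W a b c d z = cc W a b c d y := connectedComponentIn_eq h1
    have h3 : A = cc W a b c d y := connectedComponentIn_eq hyA
    apply hz.2
    rw [h3, ← h2]
    exact mem_connectedComponentIn hz.1
  -- relative closedness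
  have hcl1 : A = closure A ∩ W := by
    refine Subset.antisymm (fun z hz => ⟨subset_closure hz, (hAsub hz).2⟩) ?_
    rintro z ⟨hz, hzW⟩
    by_contra hzA
    have hzB : z ∈ Bd a b c d :=
      closure_minimal (fun y hy => (hAsub hy).1) hBdc hz
    have hz' : z ∈ (Bd a b c d ∩ W) \ A := ⟨⟨hzB, hzW⟩, hzA⟩
    obtain ⟨y, hy1, hy2⟩ := _root_.mem_closure_iff.1 hz (V z) (hVo z hz'.1) (hVz z hz'.1)
    exact Set.disjoint_left.1 (hVA' z hz') ⟨hy1, (hAsub hy2).1⟩ hy2
  have hcl2 : (Bd a b c d ∩ W) \ A = closure ((Bd a b c d ∩ W) \ A) ∩ W := by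
    refine Subset.antisymm (fun z hz => ⟨subset_closure hz, hz.1.2⟩) ?_
    rintro z ⟨hz, hzW⟩
    have hzB : z ∈ Bd a b c d :=
      closure_minimal (fun y hy => hy.1.1) hBdc hz
    refine ⟨⟨hzB, hzW⟩, fun hzA => ?_⟩
    obtain ⟨y, hy1, hy2⟩ := _root_.mem_closure_iff.1 hz (V z) (hVo z ⟨hzB, hzW⟩) (hVz z ⟨hzB, hzW⟩)
    exact hy2.2 (hVA z hzA ⟨hy1, hy2.1.1⟩)
  have hWA : IsOpen (W \ A) := by
    have : W \ A = W ∩ (closure A)ᶜ := by
      ext z
      constructor
      · rintro ⟨h1, h2⟩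
        refine ⟨h1, fun h3 => h2 ?_⟩
        rw [hcl1]
        exact ⟨h3, h1⟩
      · rintro ⟨h1, h2⟩
        exact ⟨h1, fun h3 => h2 (subset_closure h3)⟩
    rw [this]
    exact hW.inter isClosed_closure.isOpen_compl
  -- the pieces `In z`, `Out z`
  have hIn : ∀ z ∈ A, V z ∩ (Rect a b c d \ Bd a b c d) ⊆ W \ A := by
    intro z hz y hy
    exact ⟨hVW z (hAsub hz) hy.1, fun hyA => hy.2.2 (hAsub hyA).1⟩
  have hOut : ∀ z ∈ A, V z \ Rect a b c d ⊆ W \ A := by
    intro z hz y hy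
    exact ⟨hVW z (hAsub hz) hy.1, fun hyA => hy.2 (hBdR (hAsub hyA).1)⟩
  have hVnhds : ∀ z ∈ A, V z ∈ 𝓝 z := fun z hz =>
    (hVo z (hAsub hz)).mem_nhds (hVz z (hAsub hz))
  obtain ⟨p, hp⟩ := (hVi w (hAsub hwA)).nonempty
  obtain ⟨q, hq⟩ := (hVe w (hAsub hwA)).nonempty
  set Cin := connectedComponentIn (W \ A) p with hCin
  set Cout := connectedComponentIn (W \ A) q with hCout
  have hpC : p ∈ W \ A := hIn w hwA hp
  have hqC : q ∈ W \ A := hOut w hwA hq
  -- if a connected piece meets a component it is contained in it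
  have hmeet : ∀ (x : ℂ) (S : Set ℂ), IsPreconnected S → S ⊆ W \ A →
      (S ∩ connectedComponentIn (W \ A) x).Nonempty → S ⊆ connectedComponentIn (W \ A) x := by
    rintro x S hS hSW ⟨y, hyS, hyC⟩
    rw [connectedComponentIn_eq hyC]
    exact hS.subset_connectedComponentIn hyS hSW
  have hInC : ∀ z ∈ A, V z ∩ (Rect a b c d \ Bd a b c d) ⊆ Cin := by
    intro z hz
    have key : (V w ∩ (Rect a b c d \ Bd a b c d) ⊆ Cin ↔
        V z ∩ (Rect a b c d \ Bd a b c d) ⊆ Cin) := by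
      refine hApre.induction₂ (fun x y => (V x ∩ (Rect a b c d \ Bd a b c d) ⊆ Cin ↔
        V y ∩ (Rect a b c d \ Bd a b c d) ⊆ Cin)) (fun x hx => ?_)
        (fun _ _ _ _ _ _ h1 h2 => h1.trans h2) (fun _ _ _ _ h => h.symm) hwA hz
      have h1 : ∀ᶠ y in 𝓝[A] x, y ∈ V x := nhdsWithin_le_nhds (hVnhds x hx)
      have h2 : ∀ᶠ y in 𝓝[A] x, y ∈ A := self_mem_nhdsWithin
      filter_upwards [h1, h2] with y hy1 hy2
      obtain ⟨⟨t, ht1, ht2⟩, -⟩ := PC_near hab hcd (hAsub hy2).1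
        (inter_mem ((hVo x (hAsub hx)).mem_nhds hy1) (hVnhds y hy2))
      constructor
      · intro h
        exact hmeet p _ (hVi y (hAsub hy2)).isPreconnected (hIn y hy2)
          ⟨t, ⟨ht1.2, ht2⟩, h ⟨ht1.1, ht2⟩⟩
      · intro h
        exact hmeet p _ (hVi x (hAsub hx)).isPreconnected (hIn x hx)
          ⟨t, ⟨ht1.1, ht2⟩, h ⟨ht1.2, ht2⟩⟩
    exact key.1 (hmeet p _ (hVi w (hAsub hwA)).isPreconnected (hIn w hwA)
      ⟨p, hp, mem_connectedComponentIn hpC⟩)
  have hOutC : ∀ z ∈ A, V z \ Rect a b c d ⊆ Cout := by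
    intro z hz
    have key : (V w \ Rect a b c d ⊆ Cout ↔ V z \ Rect a b c d ⊆ Cout) := by
      refine hApre.induction₂ (fun x y => (V x \ Rect a b c d ⊆ Cout ↔
        V y \ Rect a b c d ⊆ Cout)) (fun x hx => ?_)
        (fun _ _ _ _ _ _ h1 h2 => h1.trans h2) (fun _ _ _ _ h => h.symm) hwA hz
      have h1 : ∀ᶠ y in 𝓝[A] x, y ∈ V x := nhdsWithin_le_nhds (hVnhds x hx)
      have h2 : ∀ᶠ y in 𝓝[A] x, y ∈ A := self_mem_nhdsWithin
      filter_upwards [h1, h2] with y hy1 hy2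
      obtain ⟨-, ⟨t, ht1, ht2⟩⟩ := PC_near hab hcd (hAsub hy2).1
        (inter_mem ((hVo x (hAsub hx)).mem_nhds hy1) (hVnhds y hy2))
      constructor
      · intro h
        exact hmeet q _ (hVe y (hAsub hy2)).isPreconnected (hOut y hy2)
          ⟨t, ⟨ht1.2, ht2⟩, h ⟨ht1.1, ht2⟩⟩
      · intro h
        exact hmeet q _ (hVe x (hAsub hx)).isPreconnected (hOut x hx)
          ⟨t, ⟨ht1.1, ht2⟩, h ⟨ht1.2, ht2⟩⟩
    exact key.1 (hmeet q _ (hVe w (hAsub hwA)).isPreconnected (hOut w hwA)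
      ⟨q, hq, mem_connectedComponentIn hqC⟩)
  -- disjointness
  have hdisj : Disjoint Cin Cout := by
    rw [Set.disjoint_left]
    intro x hx1 hx2
    have hEq : Cin = Cout := by
      rw [hCin, hCout, connectedComponentIn_eq hx1, connectedComponentIn_eq hx2]
    have hfr : frontier (Rect a b c d) = Bd a b c d := frontier_rect hab hcd
    obtain ⟨N, hN1, hN2⟩ := side_function hW hL (isClosed_rect a b c d)
      (A := A) (by rw [hfr]; exact hAsub) ⟨closure A, isClosed_closure, hcl1⟩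
      (by rw [hfr]; exact ⟨_, isClosed_closure, hcl2⟩)
    obtain ⟨k, hk⟩ := hN2 w hwA
    rw [hfr] at hk
    obtain ⟨⟨y, hy1, hy2⟩, ⟨y', hy1', hy2'⟩⟩ := PC_near hab hcd (hAsub hwA).1
      (inter_mem hk (hVnhds w hwA))
    have e1 : N y = k + 1 := by
      have := hy1.1 hy2.2
      rwa [if_pos hy2.1] at this
    have e2 : N y' = k := by
      have := hy1'.1 (fun h => hy2' (hBdR h))
      rwa [if_neg hy2', add_zero] at this
    have hyC : y ∈ Cin := hInC w hwA ⟨hy1.2, hy2⟩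
    have hyC' : y' ∈ Cin := by
      rw [hEq]
      exact hOutC w hwA ⟨hy1'.2, hy2'⟩
    have := PC_const (isPreconnected_connectedComponentIn (F := W \ A) (x := p))
      (fun z hz => hN1 z (connectedComponentIn_subset _ _ hz)) hyC hyC'
    omega
  refine ⟨Cin, Cout, ?_, ⟨closure A, isClosed_closure, hcl1⟩, ⟨_, isClosed_closure, hcl2⟩, ?_⟩
  · refine ⟨hWA.connectedComponentIn, hWA.connectedComponentIn,
      isConnected_connectedComponentIn_iff.2 hpC, isConnected_connectedComponentIn_iff.2 hqC,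
      hdisj, ?_, ?_, ?_⟩
    · apply Subset.antisymm
      · exact union_subset (connectedComponentIn_subset _ _) (connectedComponentIn_subset _ _)
      · intro x hx
        set C := connectedComponentIn (W \ A) x with hC
        have hCo : IsOpen C := hWA.connectedComponentIn
        have hxC : x ∈ C := mem_connectedComponentIn hx
        obtain ⟨z, hzA, hzC⟩ : ∃ z ∈ A, z ∈ closure C := by
          by_contra hcon
          push Not at hcon
          have hsub : W ⊆ C := by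
            refine hc.isPreconnected.subset_of_closure_inter_subset hCo ⟨x, hx.1, hxC⟩ ?_
            rintro y ⟨hy1, hy2⟩
            have hyA : y ∉ A := fun h => hcon y h hy1
            have hyWA : y ∈ W \ A := ⟨hy2, hyA⟩
            obtain ⟨t, ht1, ht2⟩ := _root_.mem_closure_iff.1 hy1 (connectedComponentIn (W \ A) y)
              hWA.connectedComponentIn (mem_connectedComponentIn hyWA)
            rw [hC, connectedComponentIn_eq ht2, ← connectedComponentIn_eq ht1]
            exact mem_connectedComponentIn hyWA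
          exact (connectedComponentIn_subset _ _ (hsub hw.2)).2 hwA
        obtain ⟨y, hy1, hy2⟩ := _root_.mem_closure_iff.1 hzC (V z) (hVo z (hAsub hzA)) (hVz z (hAsub hzA))
        have hyWA : y ∈ W \ A := connectedComponentIn_subset _ _ hy2
        have hyB : y ∉ Bd a b c d := fun h => hyWA.2 (hVA z hzA ⟨hy1, h⟩)
        by_cases hyR : y ∈ Rect a b c d
        · left
          have h1 := hInC z hzA ⟨hy1, hyR, hyB⟩
          rw [hCin, connectedComponentIn_eq h1, ← connectedComponentIn_eq hy2]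
          exact hxC
        · right
          have h1 := hOutC z hzA ⟨hy1, hyR⟩
          rw [hCout, connectedComponentIn_eq h1, ← connectedComponentIn_eq hy2]
          exact hxC
    · intro z hz
      rw [_root_.mem_closure_iff]
      intro o ho hzo
      obtain ⟨⟨y, hy1, hy2⟩, -⟩ := PC_near hab hcd (hAsub hz).1
        (inter_mem (ho.mem_nhds hzo) (hVnhds z hz))
      exact ⟨y, hy1.1, hInC z hz ⟨hy1.2, hy2⟩⟩
    · intro z hz
      rw [_root_.mem_closure_iff]
      intro o ho hzo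
      obtain ⟨-, ⟨y, hy1, hy2⟩⟩ := PC_near hab hcd (hAsub hz).1
        (inter_mem (ho.mem_nhds hzo) (hVnhds z hz))
      exact ⟨y, hy1.1, hOutC z hz ⟨hy1.2, hy2⟩⟩
  · intro z hz
    filter_upwards [hVnhds z hz] with y hy hyB
    exact ⟨fun h => hInC z hz ⟨hy, h, hyB⟩, fun h => hOutC z hz ⟨hy, h⟩⟩

end DS

end S_H36_DS_PC

section S_H36_DS_YBase

/-!
Definitions for the local analysis at a hyperbolic principal point (project MP_8a27c0_DS).
-/

namespace DS

open Metric Set Filter Topology MeasureTheory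

/-- the L-shaped set with corner `(s,t)` from `(xs,t)` to `(s,ys)` (end points excluded) -/
def Lset (s t xs ys : ℝ) : Set ℂ :=
  {z | (z.im = t ∧ xs < z.re ∧ z.re ≤ s) ∨ (z.re = s ∧ ys < z.im ∧ z.im ≤ t)}

/-- the U-shaped set: from `(s',ys')` up to `(s',t)`, right to `(s,t)`, down to `(s,ys)`
(end points excluded) -/
def Uset (s' s t ys' ys : ℝ) : Set ℂ :=
  {z | (z.im = t ∧ s' ≤ z.re ∧ z.re ≤ s) ∨ (z.re = s ∧ ys < z.im ∧ z.im ≤ t) ∨
    (z.re = s' ∧ ys' < z.im ∧ z.im ≤ t)}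

/-- the L-shaped set is contained in `W` and its two end points are not in `W` -/
structure Corner (W : Set ℂ) (s t xs ys : ℝ) : Prop where
  hxs : 0 ≤ xs
  hxs' : xs < s
  hys : 0 ≤ ys
  hys' : ys < t
  hx : (⟨xs, t⟩ : ℂ) ∉ W
  hy : (⟨s, ys⟩ : ℂ) ∉ W
  htop : ∀ x, xs < x → x ≤ s → (⟨x, t⟩ : ℂ) ∈ W
  hside : ∀ y, ys < y → y ≤ t → (⟨s, y⟩ : ℂ) ∈ W

/-- separating components of boundaries of rectangles in the ball of radius `r₁` meet their images -/
def Meet (W : Set ℂ) (φ G : ℂ → ℂ) (ζ : ℂ) (r₁ : ℝ) : Prop :=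
  ∀ a b c d : ℝ, a < b → c < d → Rect a b c d ⊆ closedBall 0 r₁ → ∀ w ∈ Bd a b c d ∩ W,
    Sep W φ ζ (cc W a b c d w) → (cc W a b c d w ∩ G '' cc W a b c d w).Nonempty

/-- the conclusion of the local analysis, in the first quadrant: the quadrant (near `0`) is contained in `W`,
`u` tends to `ζ` at `0` in it, and either there are points of the vertical half axis arbitrarily close to `0`
not in `W`, or the upper half box is in `W` and `u` tends to `ζ` at `0` in it -/
structure GoodQuad (W : Set ℂ) (u : ℂ → ℂ) (ζ : ℂ) (δ : ℝ) : Prop where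
  hδ : 0 < δ
  sub : ∀ x y : ℝ, 0 < x → x ≤ δ → 0 < y → y ≤ δ → (⟨x, y⟩ : ℂ) ∈ W
  lim : ∀ ε > 0, ∃ η > 0, ∀ x y : ℝ, 0 < x → x < η → 0 < y → y < η → dist (u ⟨x, y⟩) ζ < ε
  alt : (∀ ε > 0, ∃ y, 0 < y ∧ y < ε ∧ (⟨0, y⟩ : ℂ) ∉ W) ∨
    ((∀ x y : ℝ, |x| ≤ δ → 0 < y → y ≤ δ → (⟨x, y⟩ : ℂ) ∈ W) ∧
      ∀ ε > 0, ∃ η > 0, ∀ x y : ℝ, |x| < η → 0 < y → y < η → dist (u ⟨x, y⟩) ζ < ε)

/-- multiplication of the coordinates by `σ₁`, `σ₂` -/
def refl (σ₁ σ₂ : ℝ) (z : ℂ) : ℂ := ⟨σ₁ * z.re, σ₂ * z.im⟩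

end DS

end S_H36_DS_YBase

section S_H36_DS_YL

/-!
YL (explicit form of the corner components).  `corner_exists`: `xs` is the largest element of the compact set
`{x ∈ Icc 0 s | ⟨x, t⟩ ∉ W}` (contains `0`, not `s`), `ys` the largest element of `{y ∈ Icc 0 t | ⟨s, y⟩ ∉ W}`
(contains `0`, not `t`); `W` is open.
`corner_cc`: `Lset` is connected (two segments with the common point `(s,t)`), contained in `Bd a s c t ∩ W` and contains
`(s,t)`.  It is relatively clopen in `Bd a s c t ∩ W`: relatively open because every point of it has a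
neighbourhood in which the points of `Bd a s c t` belong to it; relatively closed because its closure adds only the two
end points, which are not in `W`.  A connected clopen subset containing the point is the component.
`corner_cc'`: the same for `Uset` and the rectangle `Rect s' s c t`.
`clopen_L`, `clopen_U`: the closed sets needed for `side_function` (closure of the set; and `Bd` minus a relatively open
neighbourhood).
-/

namespace DS
open Metric Set Filter Topology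

private theorem YL_cont_re (t : ℝ) : Continuous (fun x : ℝ => (⟨x, t⟩ : ℂ)) := by
  have : (fun x : ℝ => (⟨x, t⟩ : ℂ)) = fun x : ℝ => (x : ℂ) + t * Complex.I := by
    funext x
    apply Complex.ext <;> simp
  rw [this]
  fun_prop

private theorem YL_cont_im (s : ℝ) : Continuous (fun y : ℝ => (⟨s, y⟩ : ℂ)) := by
  have : (fun y : ℝ => (⟨s, y⟩ : ℂ)) = fun y : ℝ => (s : ℂ) + y * Complex.I := by
    funext x
    apply Complex.ext <;> simp
  rw [this]
  fun_prop

private theorem YL_last {F : Set ℝ} (hF : IsClosed F) {s : ℝ} (hs : 0 < s) (h0 : 0 ∈ F)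
    (hsF : s ∉ F) : ∃ x₀, 0 ≤ x₀ ∧ x₀ < s ∧ x₀ ∈ F ∧ ∀ x, x₀ < x → x ≤ s → x ∉ F := by
  have hK : IsCompact (F ∩ Icc 0 s) := isCompact_Icc.inter_left hF
  obtain ⟨x₀, hx₀, hmax⟩ := hK.exists_isGreatest ⟨0, h0, le_rfl, hs.le⟩
  refine ⟨x₀, hx₀.2.1, lt_of_le_of_ne hx₀.2.2 (fun e => hsF (e ▸ hx₀.1)), hx₀.1, ?_⟩
  intro x h1 h2 hx
  exact absurd (hmax ⟨hx, hx₀.2.1.trans h1.le, h2⟩) (not_le.mpr h1)

theorem corner_exists {W : Set ℂ} (hW : IsOpen W) {s t : ℝ} (hs : 0 < s) (ht : 0 < t)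
    (h0t : (⟨0, t⟩ : ℂ) ∉ W) (hs0 : (⟨s, 0⟩ : ℂ) ∉ W) (hst : (⟨s, t⟩ : ℂ) ∈ W) :
    ∃ xs ys, Corner W s t xs ys := by
  have hc1 : IsClosed {x : ℝ | (⟨x, t⟩ : ℂ) ∉ W} :=
    (hW.preimage (YL_cont_re t)).isClosed_compl
  have hc2 : IsClosed {y : ℝ | (⟨s, y⟩ : ℂ) ∉ W} :=
    (hW.preimage (YL_cont_im s)).isClosed_compl
  obtain ⟨xs, h1, h2, h3, h4⟩ := YL_last hc1 hs h0t (fun h => h hst)
  obtain ⟨ys, h5, h6, h7, h8⟩ := YL_last hc2 ht hs0 (fun h => h hst)
  exact ⟨xs, ys, h1, h2, h5, h6, h3, h7, fun x hx hx' => not_not.mp (h4 x hx hx'),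
    fun y hy hy' => not_not.mp (h8 y hy hy')⟩

private theorem YL_closed_rect (a b c d : ℝ) : IsClosed (Rect a b c d) := by
  have e : Rect a b c d = {z : ℂ | a ≤ z.re} ∩ ({z : ℂ | z.re ≤ b} ∩
      ({z : ℂ | c ≤ z.im} ∩ {z : ℂ | z.im ≤ d})) := by
    ext z
    simp [Rect]
  rw [e]
  exact (isClosed_le continuous_const Complex.continuous_re).inter
    ((isClosed_le Complex.continuous_re continuous_const).inter
      ((isClosed_le continuous_const Complex.continuous_im).inter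
        (isClosed_le Complex.continuous_im continuous_const)))

private theorem YL_closed_bd (a b c d : ℝ) : IsClosed (Bd a b c d) := by
  have e : Bd a b c d = Rect a b c d ∩ ({z : ℂ | z.re = a} ∪ ({z : ℂ | z.re = b} ∪
      ({z : ℂ | z.im = c} ∪ {z : ℂ | z.im = d}))) := by
    ext z
    exact Iff.rfl
  rw [e]
  exact (YL_closed_rect a b c d).inter
    ((isClosed_eq Complex.continuous_re continuous_const).union
      ((isClosed_eq Complex.continuous_re continuous_const).union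
        ((isClosed_eq Complex.continuous_im continuous_const).union
          (isClosed_eq Complex.continuous_im continuous_const))))

private theorem YL_closed_hseg (t x₁ x₂ : ℝ) :
    IsClosed {z : ℂ | z.im = t ∧ x₁ ≤ z.re ∧ z.re ≤ x₂} := by
  have e : {z : ℂ | z.im = t ∧ x₁ ≤ z.re ∧ z.re ≤ x₂} = {z : ℂ | z.im = t} ∩
      ({z : ℂ | x₁ ≤ z.re} ∩ {z : ℂ | z.re ≤ x₂}) := by
    ext z
    simp
  rw [e]
  exact (isClosed_eq Complex.continuous_im continuous_const).inter
    ((isClosed_le continuous_const Complex.continuous_re).inter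
      (isClosed_le Complex.continuous_re continuous_const))

private theorem YL_closed_vseg (s y₁ y₂ : ℝ) :
    IsClosed {z : ℂ | z.re = s ∧ y₁ ≤ z.im ∧ z.im ≤ y₂} := by
  have e : {z : ℂ | z.re = s ∧ y₁ ≤ z.im ∧ z.im ≤ y₂} = {z : ℂ | z.re = s} ∩
      ({z : ℂ | y₁ ≤ z.im} ∩ {z : ℂ | z.im ≤ y₂}) := by
    ext z
    simp
  rw [e]
  exact (isClosed_eq Complex.continuous_re continuous_const).inter
    ((isClosed_le continuous_const Complex.continuous_im).inter
      (isClosed_le Complex.continuous_im continuous_const))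

private theorem YL_L_sub {W : Set ℂ} {s t xs ys : ℝ} (h : Corner W s t xs ys) :
    Lset s t xs ys ⊆ W := by
  rintro z (⟨h1, h2, h3⟩ | ⟨h1, h2, h3⟩)
  · have e : z = ⟨z.re, t⟩ := Complex.ext rfl h1
    rw [e]
    exact h.htop _ h2 h3
  · have e : z = ⟨s, z.im⟩ := Complex.ext h1 rfl
    rw [e]
    exact h.hside _ h2 h3

private theorem YL_U_sub {W : Set ℂ} {s s' t xs ys ys' : ℝ} (h : Corner W s t xs ys)
    (h' : Corner W s' t xs ys') : Uset s' s t ys' ys ⊆ W := by
  rintro z (⟨h1, h2, h3⟩ | ⟨h1, h2, h3⟩ | ⟨h1, h2, h3⟩)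
  · have e : z = ⟨z.re, t⟩ := Complex.ext rfl h1
    rw [e]
    exact h.htop _ (lt_of_lt_of_le h'.hxs' h2) h3
  · have e : z = ⟨s, z.im⟩ := Complex.ext h1 rfl
    rw [e]
    exact h.hside _ h2 h3
  · have e : z = ⟨s', z.im⟩ := Complex.ext h1 rfl
    rw [e]
    exact h'.hside _ h2 h3

private theorem YL_L_bd {W : Set ℂ} {s t xs ys : ℝ} (h : Corner W s t xs ys) {a c : ℝ} (ha : a < 0)
    (hc : c < 0) {z : ℂ} : z ∈ Lset s t xs ys ↔ z ∈ Bd a s c t ∧ xs < z.re ∧ ys < z.im := by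
  have e1 := h.hxs
  have e2 := h.hxs'
  have e3 := h.hys
  have e4 := h.hys'
  constructor
  · rintro (⟨h1, h2, h3⟩ | ⟨h1, h2, h3⟩)
    · exact ⟨⟨⟨by linarith, h3, by linarith, h1.le⟩, Or.inr (Or.inr (Or.inr h1))⟩, h2, by linarith⟩
    · exact ⟨⟨⟨by linarith, h1.le, by linarith, h3⟩, Or.inr (Or.inl h1)⟩, by linarith, h2⟩
  · rintro ⟨⟨⟨h1, h2, h3, h4⟩, h5⟩, h6, h7⟩
    rcases h5 with h5 | h5 | h5 | h5
    · exfalso; linarith
    · exact Or.inr ⟨h5, h7, h4⟩
    · exfalso; linarith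
    · exact Or.inl ⟨h5, h6, h2⟩

private theorem YL_pre_h (t : ℝ) {S : Set ℝ} (hS : IsPreconnected S) :
    IsPreconnected {z : ℂ | z.im = t ∧ z.re ∈ S} := by
  have e : {z : ℂ | z.im = t ∧ z.re ∈ S} = (fun x : ℝ => (⟨x, t⟩ : ℂ)) '' S := by
    ext z
    constructor
    · rintro ⟨h1, h2⟩
      exact ⟨z.re, h2, Complex.ext rfl h1.symm⟩
    · rintro ⟨x, hx, rfl⟩
      exact ⟨rfl, hx⟩
  rw [e]
  exact hS.image _ (YL_cont_re t).continuousOn

private theorem YL_pre_v (s : ℝ) {S : Set ℝ} (hS : IsPreconnected S) :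
    IsPreconnected {z : ℂ | z.re = s ∧ z.im ∈ S} := by
  have e : {z : ℂ | z.re = s ∧ z.im ∈ S} = (fun y : ℝ => (⟨s, y⟩ : ℂ)) '' S := by
    ext z
    constructor
    · rintro ⟨h1, h2⟩
      exact ⟨z.im, h2, Complex.ext h1.symm rfl⟩
    · rintro ⟨x, hx, rfl⟩
      exact ⟨rfl, hx⟩
  rw [e]
  exact hS.image _ (YL_cont_im s).continuousOn

private theorem YL_cc {B W A F₁ F₂ : Set ℂ} {w : ℂ} (hF₁ : IsClosed F₁) (hF₂ : IsClosed F₂)
    (h1 : A = F₁ ∩ W) (h2 : (B ∩ W) \ A = F₂ ∩ W) (hAB : A ⊆ B) (hA : IsPreconnected A)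
    (hw : w ∈ A) : connectedComponentIn (B ∩ W) w = A := by
  have hAW : A ⊆ W := by rw [h1]; exact inter_subset_right
  have hABW : A ⊆ B ∩ W := fun z hz => ⟨hAB hz, hAW hz⟩
  apply Subset.antisymm
  · have hpre : IsPreconnected (connectedComponentIn (B ∩ W) w) :=
      isPreconnected_connectedComponentIn
    have hsub : connectedComponentIn (B ∩ W) w ⊆ B ∩ W := connectedComponentIn_subset _ _
    have hwC : w ∈ connectedComponentIn (B ∩ W) w := mem_connectedComponentIn (hABW hw)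
    intro z hz
    by_contra hzA
    have hcov : connectedComponentIn (B ∩ W) w ⊆ F₁ ∪ F₂ := by
      intro y hy
      by_cases hyA : y ∈ A
      · left
        rw [h1] at hyA
        exact hyA.1
      · right
        have : y ∈ (B ∩ W) \ A := ⟨hsub hy, hyA⟩
        rw [h2] at this
        exact this.1
    have hw1 : w ∈ F₁ := by
      rw [h1] at hw
      exact hw.1
    have hz2 : z ∈ F₂ := by
      have : z ∈ (B ∩ W) \ A := ⟨hsub hz, hzA⟩
      rw [h2] at this
      exact this.1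
    obtain ⟨y, hyC, hy1, hy2⟩ := isPreconnected_closed_iff.1 hpre F₁ F₂ hF₁ hF₂ hcov
      ⟨w, hwC, hw1⟩ ⟨z, hz, hz2⟩
    have hyW := (hsub hyC).2
    have hyA : y ∈ A := by
      rw [h1]
      exact ⟨hy1, hyW⟩
    have hyA' : y ∈ (B ∩ W) \ A := by
      rw [h2]
      exact ⟨hy2, hyW⟩
    exact hyA'.2 hyA
  · exact hA.subset_connectedComponentIn hw hABW

theorem clopen_L {W : Set ℂ} {s t xs ys : ℝ} (h : Corner W s t xs ys) {a c : ℝ} (ha : a < 0)
    (hc : c < 0) : (∃ F, IsClosed F ∧ Lset s t xs ys = F ∩ W) ∧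
      (∃ F, IsClosed F ∧ (Bd a s c t ∩ W) \ Lset s t xs ys = F ∩ W) := by
  constructor
  · refine ⟨{z : ℂ | z.im = t ∧ xs ≤ z.re ∧ z.re ≤ s} ∪ {z : ℂ | z.re = s ∧ ys ≤ z.im ∧ z.im ≤ t},
      (YL_closed_hseg _ _ _).union (YL_closed_vseg _ _ _), ?_⟩
    apply Subset.antisymm
    · intro z hz
      refine ⟨?_, YL_L_sub h hz⟩
      rcases hz with ⟨h1, h2, h3⟩ | ⟨h1, h2, h3⟩
      · exact Or.inl ⟨h1, h2.le, h3⟩
      · exact Or.inr ⟨h1, h2.le, h3⟩
    · rintro z ⟨⟨h1, h2, h3⟩ | ⟨h1, h2, h3⟩, hzW⟩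
      · rcases h2.lt_or_eq with h4 | h4
        · exact Or.inl ⟨h1, h4, h3⟩
        · exfalso
          have e : z = ⟨xs, t⟩ := Complex.ext h4.symm h1
          rw [e] at hzW
          exact h.hx hzW
      · rcases h2.lt_or_eq with h4 | h4
        · exact Or.inr ⟨h1, h4, h3⟩
        · exfalso
          have e : z = ⟨s, ys⟩ := Complex.ext h1 h4.symm
          rw [e] at hzW
          exact h.hy hzW
  · refine ⟨Bd a s c t ∩ ({z : ℂ | z.re ≤ xs} ∪ {z : ℂ | z.im ≤ ys}),
      (YL_closed_bd _ _ _ _).inter ((isClosed_le Complex.continuous_re continuous_const).union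
        (isClosed_le Complex.continuous_im continuous_const)), ?_⟩
    ext z
    constructor
    · rintro ⟨⟨h1, h2⟩, h3⟩
      rw [YL_L_bd h ha hc] at h3
      refine ⟨⟨h1, ?_⟩, h2⟩
      by_contra hcon
      apply h3
      simp only [mem_union, mem_ofPred_eq, not_or, not_le] at hcon
      exact ⟨h1, hcon.1, hcon.2⟩
    · rintro ⟨⟨h1, h2⟩, h3⟩
      refine ⟨⟨h1, h3⟩, ?_⟩
      rw [YL_L_bd h ha hc]
      rintro ⟨-, h4, h5⟩
      rcases h2 with h2 | h2
      · exact absurd h4 (not_lt.mpr h2)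
      · exact absurd h5 (not_lt.mpr h2)

theorem clopen_U {W : Set ℂ} {s s' t xs ys ys' : ℝ} (h : Corner W s t xs ys)
    (h' : Corner W s' t xs ys') (hss : s' < s) {c : ℝ} (hc : c < 0) :
    (∃ F, IsClosed F ∧ Uset s' s t ys' ys = F ∩ W) ∧
      (∃ F, IsClosed F ∧ (Bd s' s c t ∩ W) \ Uset s' s t ys' ys = F ∩ W) := by
  have e3 := h.hys
  have e4 := h.hys'
  have e5 := h'.hys
  have e6 := h'.hys'
  constructor
  · refine ⟨{z : ℂ | z.im = t ∧ s' ≤ z.re ∧ z.re ≤ s} ∪ ({z : ℂ | z.re = s ∧ ys ≤ z.im ∧ z.im ≤ t} ∪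
      {z : ℂ | z.re = s' ∧ ys' ≤ z.im ∧ z.im ≤ t}),
      (YL_closed_hseg _ _ _).union ((YL_closed_vseg _ _ _).union (YL_closed_vseg _ _ _)), ?_⟩
    apply Subset.antisymm
    · intro z hz
      refine ⟨?_, YL_U_sub h h' hz⟩
      rcases hz with ⟨h1, h2, h3⟩ | ⟨h1, h2, h3⟩ | ⟨h1, h2, h3⟩
      · exact Or.inl ⟨h1, h2, h3⟩
      · exact Or.inr (Or.inl ⟨h1, h2.le, h3⟩)
      · exact Or.inr (Or.inr ⟨h1, h2.le, h3⟩)
    · rintro z ⟨⟨h1, h2, h3⟩ | ⟨h1, h2, h3⟩ | ⟨h1, h2, h3⟩, hzW⟩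
      · exact Or.inl ⟨h1, h2, h3⟩
      · rcases h2.lt_or_eq with h4 | h4
        · exact Or.inr (Or.inl ⟨h1, h4, h3⟩)
        · exfalso
          have e : z = ⟨s, ys⟩ := Complex.ext h1 h4.symm
          rw [e] at hzW
          exact h.hy hzW
      · rcases h2.lt_or_eq with h4 | h4
        · exact Or.inr (Or.inr ⟨h1, h4, h3⟩)
        · exfalso
          have e : z = ⟨s', ys'⟩ := Complex.ext h1 h4.symm
          rw [e] at hzW
          exact h'.hy hzW
  · refine ⟨Bd s' s c t ∩ ({z : ℂ | z.re = s ∧ z.im ≤ ys} ∪ ({z : ℂ | z.re = s' ∧ z.im ≤ ys'} ∪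
      {z : ℂ | z.im = c})), (YL_closed_bd _ _ _ _).inter ?_, ?_⟩
    · refine IsClosed.union ?_ (IsClosed.union ?_
        (isClosed_eq Complex.continuous_im continuous_const))
      · exact (isClosed_eq Complex.continuous_re continuous_const).inter
          (isClosed_le Complex.continuous_im continuous_const)
      · exact (isClosed_eq Complex.continuous_re continuous_const).inter
          (isClosed_le Complex.continuous_im continuous_const)
    · ext z
      constructor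
      · rintro ⟨⟨h1, h2⟩, h3⟩
        refine ⟨⟨h1, ?_⟩, h2⟩
        have hR := h1.1
        rcases h1.2 with h4 | h4 | h4 | h4
        · right; left
          refine ⟨h4, ?_⟩
          by_contra hcon
          exact h3 (Or.inr (Or.inr ⟨h4, not_le.mp hcon, hR.2.2.2⟩))
        · left
          refine ⟨h4, ?_⟩
          by_contra hcon
          exact h3 (Or.inr (Or.inl ⟨h4, not_le.mp hcon, hR.2.2.2⟩))
        · exact Or.inr (Or.inr h4)
        · exact absurd (Or.inl ⟨h4, hR.1, hR.2.1⟩) h3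
      · rintro ⟨⟨h1, h2⟩, h3⟩
        refine ⟨⟨h1, h3⟩, ?_⟩
        rintro (⟨h4, h5, h6⟩ | ⟨h4, h5, h6⟩ | ⟨h4, h5, h6⟩)
        · rcases h2 with ⟨h7, h8⟩ | ⟨h7, h8⟩ | h7
          · linarith
          · linarith
          · have h7' : z.im = c := h7
            linarith
        · rcases h2 with ⟨h7, h8⟩ | ⟨h7, h8⟩ | h7
          · linarith
          · linarith
          · have h7' : z.im = c := h7
            linarith
        · rcases h2 with ⟨h7, h8⟩ | ⟨h7, h8⟩ | h7
          · linarith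
          · linarith
          · have h7' : z.im = c := h7
            linarith

theorem corner_cc {W : Set ℂ} {s t xs ys : ℝ} (h : Corner W s t xs ys) {a c : ℝ} (ha : a < 0)
    (hc : c < 0) : cc W a s c t ⟨s, t⟩ = Lset s t xs ys := by
  obtain ⟨⟨F₁, hF₁, e₁⟩, ⟨F₂, hF₂, e₂⟩⟩ := clopen_L h ha hc
  refine YL_cc hF₁ hF₂ e₁ e₂ (fun z hz => ((YL_L_bd h ha hc).1 hz).1) ?_
    (Or.inl ⟨rfl, h.hxs', le_rfl⟩)
  exact IsPreconnected.union (s := {z : ℂ | z.im = t ∧ z.re ∈ Ioc xs s})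
    (t := {z : ℂ | z.re = s ∧ z.im ∈ Ioc ys t}) (⟨s, t⟩ : ℂ)
    ⟨rfl, h.hxs', le_rfl⟩ ⟨rfl, h.hys', le_rfl⟩ (YL_pre_h t isPreconnected_Ioc)
    (YL_pre_v s isPreconnected_Ioc)

theorem corner_cc' {W : Set ℂ} {s s' t xs ys ys' : ℝ} (h : Corner W s t xs ys)
    (h' : Corner W s' t xs ys') (hss : s' < s) {c : ℝ} (hc : c < 0) :
    cc W s' s c t ⟨s, t⟩ = Uset s' s t ys' ys := by
  obtain ⟨⟨F₁, hF₁, e₁⟩, ⟨F₂, hF₂, e₂⟩⟩ := clopen_U h h' hss hc
  have e3 := h.hys
  have e4 := h.hys'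
  have e5 := h'.hys
  have e6 := h'.hys'
  refine YL_cc hF₁ hF₂ e₁ e₂ ?_ ?_ (Or.inl ⟨rfl, hss.le, le_rfl⟩)
  · rintro z (⟨h1, h2, h3⟩ | ⟨h1, h2, h3⟩ | ⟨h1, h2, h3⟩)
    · exact ⟨⟨h2, h3, by linarith, h1.le⟩, Or.inr (Or.inr (Or.inr h1))⟩
    · exact ⟨⟨by linarith, h1.le, by linarith, h3⟩, Or.inr (Or.inl h1)⟩
    · exact ⟨⟨h1.ge, by linarith, by linarith, h3⟩, Or.inl h1⟩
  · have hp := (YL_pre_v s (isPreconnected_Ioc (a := ys) (b := t)))
    have hp' := (YL_pre_v s' (isPreconnected_Ioc (a := ys') (b := t)))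
    have hq := IsPreconnected.union (s := {z : ℂ | z.im = t ∧ z.re ∈ Icc s' s})
      (t := {z : ℂ | z.re = s ∧ z.im ∈ Ioc ys t}) (⟨s, t⟩ : ℂ)
      ⟨rfl, hss.le, le_rfl⟩ ⟨rfl, h.hys', le_rfl⟩ (YL_pre_h t isPreconnected_Icc) hp
    have hq' := IsPreconnected.union (s := {z : ℂ | z.im = t ∧ z.re ∈ Icc s' s} ∪
        {z : ℂ | z.re = s ∧ z.im ∈ Ioc ys t}) (t := {z : ℂ | z.re = s' ∧ z.im ∈ Ioc ys' t})
        (⟨s', t⟩ : ℂ) (Or.inl ⟨rfl, le_rfl, hss.le⟩) ⟨rfl, h'.hys', le_rfl⟩ hq hp'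
    have e : Uset s' s t ys' ys = ({z : ℂ | z.im = t ∧ z.re ∈ Icc s' s} ∪
        {z : ℂ | z.re = s ∧ z.im ∈ Ioc ys t}) ∪ {z : ℂ | z.re = s' ∧ z.im ∈ Ioc ys' t} := by
      ext z
      simp only [Uset, mem_union, mem_ofPred_eq, mem_Icc, mem_Ioc, or_assoc]
    rw [e]
    exact hq'

end DS

end S_H36_DS_YL
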