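import Pool.Agent.H12.KS.K21
import Pool.Agent.H12.KS.K24

/-! Joined modules of the proof of MP_8a27c0_an (one section per module). -/

section S_H36_DS_JBase

/-!
Definitions for the theorem on fixed prime ends (project MP_8a27c0_DS).
Here `X` is a compact metric space (the sphere), `K` a closed subset whose complement is a disc by `φ`.
-/

namespace DS

open Metric Set Filter Topology MeasureTheory

/-- elliptic local form of the homeomorphism `g` at the point `P` of `K` -/
def EllPt {X : Type*} [TopologicalSpace X] (K : Set X) (g : X → X) (P : X) : Prop :=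
  ∃ (P' : X) (χ : X → ℂ) (κ : ℂ → X) (w₁ : ℂ), PChart K P P' χ κ ∧ ‖w₁‖ = 1 ∧ w₁ ≠ 1 ∧
    Tendsto (fun z => χ (g (κ z)) / z) (𝓝[κ ⁻¹' Kᶜ] 0) (𝓝 w₁)

/-- hyperbolic local form of the homeomorphism `g` at the point `P` of `K`; the horizontal axis is contained in
`K`; `SP` is a predicate (a point lies on a regular curve contained in a stable set), satisfied on the horizontal
axis, and a point of `K` on the vertical axis with this predicate is accumulated by points of `K` from both sides -/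
structure HypChart {X : Type*} [TopologicalSpace X] (K : Set X) (SP : X → Prop) (g : X → X) (P P' : X)
    (χ : X → ℂ) (κ : ℂ → X) (r lp km kp : ℝ) : Prop where
  ch : PChart K P P' χ κ
  loc : HypLoc (fun w => χ (g (κ w))) r lp km kp
  ne : ∀ w ∈ Sq r, g (κ w) ≠ P'
  axis : ∀ x : ℝ, |x| ≤ r → κ ⟨x, 0⟩ ∈ K
  sp : ∀ x : ℝ, 0 < |x| → |x| < r → SP (κ ⟨x, 0⟩)
  cross : ∀ y : ℝ, 0 < |y| → |y| < r → κ ⟨0, y⟩ ∈ K → SP (κ ⟨0, y⟩) → ∀ ε > 0,
    (∃ z ∈ ball (⟨0, y⟩ : ℂ) ε, 0 < z.re ∧ κ z ∈ K) ∧ ∃ z ∈ ball (⟨0, y⟩ : ℂ) ε, z.re < 0 ∧ κ z ∈ K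

/-- an invariant arc of prime ends asymptotic to the prime end `ζ` and consisting of accessible prime ends
whose points satisfy `SP` -/
structure StabArc {X : Type*} [TopologicalSpace X] (k : ℂ → ℂ) (φ : ℂ → X) (SP : X → Prop)
    (E : Set ℂ) (ζ : ℂ) (J : Set ℂ) : Prop where
  conn : IsConnected J
  sub : J ⊆ E \ {ζ}
  inv : k '' J = J
  lim : ∀ b ∈ J, Tendsto (fun n : ℕ => k^[n] b) atTop (𝓝 ζ)
  acc : ∀ b ∈ J, ∃ x, Acc φ b x ∧ SP x

/-- the data of the local analysis at a fixed prime end `ζ` with hyperbolic principal point -/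
structure GoodChart {X : Type*} [MetricSpace X] (K : Set X) (SP : X → Prop) (φ : ℂ → X) (u : X → ℂ)
    (g gi : X → X) (ζ : ℂ) (P P' : X) (χ : X → ℂ) (κ : ℂ → X) (μ : Measure ℂ)
    (r r₀ lp km kp δ : ℝ) : Prop where
  hyp : HypChart K SP g P P' χ κ r lp km kp
  prin : Principal φ ζ P
  pe : FixPE (κ ⁻¹' Kᶜ) (fun z => χ (φ z)) (fun w => u (κ w)) (fun w => χ (g (κ w)))
    (fun w => χ (gi (κ w))) μ ζ r₀
  quad : GoodQuad (κ ⁻¹' Kᶜ) (fun w => u (κ w)) ζ δ
  hδr : δ < r
  hδr₀ : 4 * δ < r₀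

end DS

end S_H36_DS_JBase

section S_H36_DS_YA

/-!
YA (a component meeting its image contains a corner).  Proof.  `A = cc W a b c d w` is connected, contained in
`Bd a b c d ∩ W`, and `(a,0)`, `(b,0)` are not in `W`.  Suppose no corner is in `A`.  Then `A` is contained in the union of the
six open segments: top, bottom, upper and lower half of the left side, upper and lower half of the right side; these are
pairwise separated (relatively open in `Bd` minus the six points), so `A` is contained in one of them.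
Top: `im z = d > 0` on `A`, `im (G z) ≥ km d > d`, so `A ∩ G '' A = ∅`.  Bottom: the same.  Right side: `re z = b > 0`,
`re (G z) ≤ lp b < b`.  Left side: the same.  Contradiction.
-/

namespace DS
open Metric Set Filter Topology

theorem YA_open (f₀ f₁ f₂ f₃ : ℂ → ℝ) (h₀ : Continuous f₀) (h₁ : Continuous f₁)
    (h₂ : Continuous f₂) (h₃ : Continuous f₃) :
    IsOpen {z : ℂ | f₀ z < f₁ z ∧ f₀ z < f₂ z ∧ f₀ z < f₃ z} := by
  have e : {z : ℂ | f₀ z < f₁ z ∧ f₀ z < f₂ z ∧ f₀ z < f₃ z} =
      {z | f₀ z < f₁ z} ∩ ({z | f₀ z < f₂ z} ∩ {z | f₀ z < f₃ z}) := by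
    ext z; rfl
  rw [e]
  exact (isOpen_lt h₀ h₁).inter ((isOpen_lt h₀ h₂).inter (isOpen_lt h₀ h₃))

theorem corner_in {W : Set ℂ} {G : ℂ → ℂ} {r lp km kp : ℝ} (HL : HypLoc G r lp km kp)
    (hax : ∀ x : ℝ, |x| ≤ r → (⟨x, 0⟩ : ℂ) ∉ W) {a b c d : ℝ} (ha : a < 0) (hb : 0 < b) (hc : c < 0)
    (hd : 0 < d) (hR : Rect a b c d ⊆ Sq r) {w : ℂ}
    (hmeet : (cc W a b c d w ∩ G '' cc W a b c d w).Nonempty) :
    (⟨b, d⟩ : ℂ) ∈ cc W a b c d w ∨ (⟨a, d⟩ : ℂ) ∈ cc W a b c d w ∨
      (⟨b, c⟩ : ℂ) ∈ cc W a b c d w ∨ (⟨a, c⟩ : ℂ) ∈ cc W a b c d w := by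
  have _ := hax
  by_contra hcon
  push Not at hcon
  obtain ⟨n1, n2, n3, n4⟩ := hcon
  have hpre : IsPreconnected (cc W a b c d w) := isPreconnected_connectedComponentIn
  have hsub : cc W a b c d w ⊆ Bd a b c d ∩ W := connectedComponentIn_subset _ _
  set A := cc W a b c d w with hA
  have cre := Complex.continuous_re
  have cim := Complex.continuous_im
  have e0 : Continuous fun z : ℂ => z.re - a := cre.sub continuous_const
  have e1 : Continuous fun z : ℂ => b - z.re := continuous_const.sub cre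
  have e2 : Continuous fun z : ℂ => z.im - c := cim.sub continuous_const
  have e3 : Continuous fun z : ℂ => d - z.im := continuous_const.sub cim
  set OL : Set ℂ := {z | z.re - a < b - z.re ∧ z.re - a < z.im - c ∧ z.re - a < d - z.im} with hOL
  set OR : Set ℂ := {z | b - z.re < z.re - a ∧ b - z.re < z.im - c ∧ b - z.re < d - z.im} with hOR
  set OB : Set ℂ := {z | z.im - c < z.re - a ∧ z.im - c < b - z.re ∧ z.im - c < d - z.im} with hOB
  set OT : Set ℂ := {z | d - z.im < z.re - a ∧ d - z.im < b - z.re ∧ d - z.im < z.im - c} with hOT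
  have oL : IsOpen OL := YA_open _ _ _ _ e0 e1 e2 e3
  have oR : IsOpen OR := YA_open _ _ _ _ e1 e0 e2 e3
  have oB : IsOpen OB := YA_open _ _ _ _ e2 e0 e1 e3
  have oT : IsOpen OT := YA_open _ _ _ _ e3 e0 e1 e2
  -- the sides
  have hcov : ∀ z ∈ A, (z.re = a ∧ z ∈ OL) ∨ (z.re = b ∧ z ∈ OR) ∨ (z.im = c ∧ z ∈ OB) ∨
      (z.im = d ∧ z ∈ OT) := by
    intro z hz
    obtain ⟨⟨⟨r1, r2, r3, r4⟩, hside⟩, -⟩ := hsub hz
    have m1 : ¬ (z.re = b ∧ z.im = d) := fun h => n1 (by
      have : (⟨b, d⟩ : ℂ) = z := Complex.ext h.1.symm h.2.symm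
      rw [this]; exact hz)
    have m2 : ¬ (z.re = a ∧ z.im = d) := fun h => n2 (by
      have : (⟨a, d⟩ : ℂ) = z := Complex.ext h.1.symm h.2.symm
      rw [this]; exact hz)
    have m3 : ¬ (z.re = b ∧ z.im = c) := fun h => n3 (by
      have : (⟨b, c⟩ : ℂ) = z := Complex.ext h.1.symm h.2.symm
      rw [this]; exact hz)
    have m4 : ¬ (z.re = a ∧ z.im = c) := fun h => n4 (by
      have : (⟨a, c⟩ : ℂ) = z := Complex.ext h.1.symm h.2.symm
      rw [this]; exact hz)
    rcases hside with h | h | h | h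
    · left
      have k1 : z.im < d := lt_of_le_of_ne r4 fun h' => m2 ⟨h, h'⟩
      have k2 : c < z.im := lt_of_le_of_ne r3 fun h' => m4 ⟨h, h'.symm⟩
      refine ⟨h, ?_, ?_, ?_⟩ <;> rw [h] <;> linarith
    · right; left
      have k1 : z.im < d := lt_of_le_of_ne r4 fun h' => m1 ⟨h, h'⟩
      have k2 : c < z.im := lt_of_le_of_ne r3 fun h' => m3 ⟨h, h'.symm⟩
      refine ⟨h, ?_, ?_, ?_⟩ <;> rw [h] <;> linarith
    · right; right; left
      have k1 : z.re < b := lt_of_le_of_ne r2 fun h' => m3 ⟨h', h⟩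
      have k2 : a < z.re := lt_of_le_of_ne r1 fun h' => m4 ⟨h'.symm, h⟩
      refine ⟨h, ?_, ?_, ?_⟩ <;> rw [h] <;> linarith
    · right; right; right
      have k1 : z.re < b := lt_of_le_of_ne r2 fun h' => m1 ⟨h', h⟩
      have k2 : a < z.re := lt_of_le_of_ne r1 fun h' => m2 ⟨h'.symm, h⟩
      refine ⟨h, ?_, ?_, ?_⟩ <;> rw [h] <;> linarith
  have hLR : Disjoint OL OR := Set.disjoint_left.mpr fun z h1 h2 => by
    have := h1.1; have := h2.1; linarith
  have hBT : Disjoint OB OT := Set.disjoint_left.mpr fun z h1 h2 => by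
    have := h1.2.2; have := h2.2.2; linarith
  have hD : Disjoint (OL ∪ OR) (OB ∪ OT) := by
    refine Set.disjoint_left.mpr fun z h1 h2 => ?_
    rcases h1 with ⟨a1, a2, a3⟩ | ⟨a1, a2, a3⟩ <;> rcases h2 with ⟨b1, b2, b3⟩ | ⟨b1, b2, b3⟩ <;>
      linarith
  obtain ⟨z, hz, z', hz', hG⟩ := hmeet
  have hz'S : z' ∈ Sq r := hR (hsub hz').1.1
  have hAc : A ⊆ (OL ∪ OR) ∪ (OB ∪ OT) := by
    intro y hy
    rcases hcov y hy with h | h | h | h
    · exact Or.inl (Or.inl h.2)
    · exact Or.inl (Or.inr h.2)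
    · exact Or.inr (Or.inl h.2)
    · exact Or.inr (Or.inr h.2)
  rcases hpre.subset_or_subset (oL.union oR) (oB.union oT) hD hAc with h1 | h1
  · rcases hpre.subset_or_subset oL oR hLR h1 with h2 | h2
    · have key : ∀ y ∈ A, y.re = a := by
        intro y hy
        have hyL := h2 hy
        rcases hcov y hy with h | h | h | h
        · exact h.1
        · exact (Set.disjoint_left.mp hLR hyL h.2).elim
        · exact (Set.disjoint_left.mp hD (Or.inl hyL) (Or.inl h.2)).elim
        · exact (Set.disjoint_left.mp hD (Or.inl hyL) (Or.inr h.2)).elim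
      have k1 := key z hz
      have k2 := key z' hz'
      have k3 := (HL.reneg z' hz'S (by rw [k2]; exact ha)).2
      rw [hG, k1, k2] at k3
      have := HL.hlp1
      nlinarith
    · have key : ∀ y ∈ A, y.re = b := by
        intro y hy
        have hyL := h2 hy
        rcases hcov y hy with h | h | h | h
        · exact (Set.disjoint_left.mp hLR h.2 hyL).elim
        · exact h.1
        · exact (Set.disjoint_left.mp hD (Or.inr hyL) (Or.inl h.2)).elim
        · exact (Set.disjoint_left.mp hD (Or.inr hyL) (Or.inr h.2)).elim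
      have k1 := key z hz
      have k2 := key z' hz'
      have k3 := (HL.repos z' hz'S (by rw [k2]; exact hb)).2
      rw [hG, k1, k2] at k3
      have := HL.hlp1
      nlinarith
  · rcases hpre.subset_or_subset oB oT hBT h1 with h2 | h2
    · have key : ∀ y ∈ A, y.im = c := by
        intro y hy
        have hyL := h2 hy
        rcases hcov y hy with h | h | h | h
        · exact (Set.disjoint_left.mp hD (Or.inl h.2) (Or.inl hyL)).elim
        · exact (Set.disjoint_left.mp hD (Or.inr h.2) (Or.inl hyL)).elim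
        · exact h.1
        · exact (Set.disjoint_left.mp hBT hyL h.2).elim
      have k1 := key z hz
      have k2 := key z' hz'
      have k3 := (HL.imneg z' hz'S (by rw [k2]; exact hc)).1
      rw [hG, k1, k2] at k3
      have := HL.hkm
      nlinarith
    · have key : ∀ y ∈ A, y.im = d := by
        intro y hy
        have hyL := h2 hy
        rcases hcov y hy with h | h | h | h
        · exact (Set.disjoint_left.mp hD (Or.inl h.2) (Or.inr hyL)).elim
        · exact (Set.disjoint_left.mp hD (Or.inr h.2) (Or.inr hyL)).elim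
        · exact (Set.disjoint_left.mp hBT h.2 hyL).elim
        · exact h.1
      have k1 := key z hz
      have k2 := key z' hz'
      have k3 := (HL.impos z' hz'S (by rw [k2]; exact hd)).1
      rw [hG, k1, k2] at k3
      have := HL.hkm
      nlinarith

end DS

end S_H36_DS_YA
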