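import Pool.Agent.H12.KS.K04
import Pool.Agent.H12.KS.K10
import Pool.Agent.H12.KS.K19
import Pool.Agent.H12.KS.K21
import Pool.Agent.H12.KS.K25

/-! Joined modules of the proof of MP_8a27c0_an (one section per module). -/

section S_H36_DG_Defs

/-!
Common definitions for the blocks B4, B5, B6 of the covering part (project MP_8a27c0, helper36).
-/

namespace CV

open Metric Set Filter Topology Function DS TN MeasureTheory

/-- the measure with density `ρ` on `X` -/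
noncomputable def mX (X : Set ℂ) (ρ : ℂ → ℝ) : Measure ℂ :=
  (volume.withDensity (fun x => ENNReal.ofReal (ρ x))).restrict X

/-- `x` lies on a regular curve contained in the lift of the stable set of a hyperbolic point -/
def SPX {S : Type} [MetricSpace S] (X : Set ℂ) (p : ℂ → S) (g : S → S) (Hyp : S → Prop)
    (x : ℂ) : Prop :=
  x ∈ X ∧ ∃ Q ∈ X, Hyp (p Q) ∧ ∃ v, TanX (StabX X p g Q) x v

/-- the same predicate for points of the sphere; `j` is an embedding of `X` into the sphere -/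
def SPS {S : Type} [MetricSpace S] (X : Set ℂ) (p : ℂ → S) (g : S → S) (Hyp : S → Prop)
    (j : ℂ → S2) (s : S2) : Prop :=
  ∃ x ∈ X, j x = s ∧ SPX X p g Hyp x

/-- a hyperbolic chart `k` at the fixed point `P` of `G` in `X`; `F` is `G ∘ G` in the chart -/
structure HData (X : Set ℂ) (G : ℂ → ℂ) (P : ℂ) (k F : ℂ → ℂ) (Vo : Set ℂ)
    (r lp km kp : ℝ) : Prop where
  loc : HypLoc F r lp km kp
  opn : IsOpen Vo
  sq : Sq r ⊆ Vo
  c1 : ContDiffOn ℝ 1 k Vo
  mX : MapsTo k Vo X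
  inj : ∀ z ∈ Vo, Injective (fderiv ℝ k z)
  kinj : InjOn k Vo
  k0 : k 0 = P
  conj : ∀ w ∈ Sq r, F w ∈ Sq r → k (F w) = G (G (k w))

end CV

end S_H36_DG_Defs

section S_H36_DG_FK

/-!
FK (the complement of the filled set, seen from a point of it, is a continuum).  `W = fil X U`, `E = {w | w = 0 ∨ w₀ + w⁻¹ ∉ W}` (so `E \ {0}` is the image of
`Wᶜ` by `x ↦ (x - w₀)⁻¹`, and `0` stands for infinity).
Compact: `W` is open (`fil_isOpen`) and contains `ball w₀ r`, so `E ⊆ closedBall 0 r⁻¹`; closed: near `w ≠ 0` the map `w ↦ w₀ + w⁻¹` is continuous.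
Connected: it suffices to connect each `w ∈ E \ {0}`, `x = w₀ + w⁻¹ ∉ W`, to `0` by a connected subset of `E`.
(1) `x ∉ X` (so `X = ball 0 1`, `‖x‖ ≥ 1`): the ray `{x + t x | t ≥ 0}` misses `X`; its image in `E` together with `0` is connected (it is the image of `[0, 1)` and the
limit point `0`).
(2) `x ∈ X \ W`: then `x ∈ X \ U` and `C = connectedComponentIn (X \ U) x` is not compact (`TB_iff`), disjoint from `W` (`fil_comp`), connected, closed in `X`.  If
`X = univ`, `C` is closed, so unbounded: the image of `C` in `E` is connected and has `0` in its closure.  If `X = ball 0 1`: `C` is bounded; it is not closed (else compact), so its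
closure contains a point `y` not in `C`; `C` is closed in `X` (components are closed in `X \ U`, which is closed in `X`), so `y ∉ X`; the closure of `C` minus ... : `C ∪ {y}` is connected and
`C ∪ {y} ∪ ray of y` is a connected subset of the complement of `W` containing `x`; continue as in (1).
Nontrivial: `W ≠ univ`.
-/

namespace CV

open Metric Set Filter Topology Function DS TN

section
variable {S : Type} [MetricSpace S] {X : Set ℂ} {Γ : Type} [Group Γ]
  {A : Γ → ℂ → ℂ} {p : ℂ → S} {g : S → S} {G : ℂ → ℂ} {U : Set ℂ} {N : Subgroup Γ}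

theorem fil_compl_conn (D : Deck X A p) (M : Dom X A p g G U N) {w₀ : ℂ} (hw : w₀ ∈ fil X U)
    (hW : fil X U ≠ univ) :
    IsCompact {w : ℂ | w = 0 ∨ w₀ + w⁻¹ ∉ fil X U} ∧
      IsConnected {w : ℂ | w = 0 ∨ w₀ + w⁻¹ ∉ fil X U} ∧
      ({w : ℂ | w = 0 ∨ w₀ + w⁻¹ ∉ fil X U}).Nontrivial := by
  obtain ⟨h1, h2, h3, -, -⟩ := KW_props_fil D M hW hw
  exact ⟨h1, h2, h3⟩

end

end CV

end S_H36_DG_FK

section S_H36_DG_GD

/-!
GD (homeomorphisms of the plane extend to the sphere).  `gs x = q (g (p x))` for `x ≠ O`, `gs O = O`; continuous at `O`: a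
homeomorphism of the plane is proper (`g z → ∞` for `z → ∞`), `p_lim`, `q_lim`.
-/

namespace DG
open Metric Set Filter Topology DS

open Classical in
/-- the extension of a map of the plane to the sphere -/
noncomputable def GD_ext (O : S2) (p : S2 → ℂ) (q : ℂ → S2) (g : ℂ → ℂ) (x : S2) : S2 :=
  if x = O then O else q (g (p x))

theorem GD_cont {O : S2} {p : S2 → ℂ} {q : ℂ → S2} (hS : SC O p q) {g gi : ℂ → ℂ}
    (hg : Continuous g) (hgi : Continuous gi) (h1 : ∀ z, gi (g z) = z) (h2 : ∀ z, g (gi z) = z) :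
    Continuous (GD_ext O p q g) := by
  let e : ℂ ≃ₜ ℂ := ⟨⟨g, gi, h1, h2⟩, hg, hgi⟩
  have hprop : Tendsto g (cocompact ℂ) (cocompact ℂ) := e.isClosedEmbedding.tendsto_cocompact
  rw [continuous_iff_continuousAt]
  intro x
  by_cases hx : x = O
  · subst hx
    rw [continuousAt_iff_punctured_nhds]
    have h3 : GD_ext x p q g x = x := by simp [GD_ext]
    rw [h3]
    have h4 : Tendsto (fun y => q (g (p y))) (𝓝[≠] x) (𝓝 x) :=
      hS.q_lim.comp (hprop.comp hS.p_lim)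
    refine h4.congr' ?_
    filter_upwards [self_mem_nhdsWithin] with y hy
    have hy' : y ≠ x := hy
    simp [GD_ext, hy']
  · have hx' : {O}ᶜ ∈ 𝓝 x := isOpen_compl_singleton.mem_nhds hx
    have h3 : ContinuousAt (fun y => q (g (p y))) x := by
      have h4 : ContinuousAt p x := hS.p_smooth.continuousOn.continuousAt hx'
      exact (hS.q_smooth.continuous.comp hg).continuousAt.comp h4
    refine h3.congr ?_
    filter_upwards [hx'] with y hy
    have hy' : y ≠ O := hy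
    simp [GD_ext, hy']

theorem GD_q {O : S2} {p : S2 → ℂ} {q : ℂ → S2} (hS : SC O p q) (g : ℂ → ℂ) (z : ℂ) :
    GD_ext O p q g (q z) = q (g z) := by
  simp [GD_ext, hS.q_ne z, hS.pq]

theorem GD_ne {O : S2} {p : S2 → ℂ} {q : ℂ → S2} (hS : SC O p q) (g : ℂ → ℂ) (x : S2) (hx : x ≠ O) :
    GD_ext O p q g x ≠ O ∧ p (GD_ext O p q g x) = g (p x) := by
  simp [GD_ext, hx, hS.q_ne, hS.pq]

theorem GD_inv {O : S2} {p : S2 → ℂ} {q : ℂ → S2} (hS : SC O p q) {g gi : ℂ → ℂ}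
    (h1 : ∀ z, gi (g z) = z) (x : S2) : GD_ext O p q gi (GD_ext O p q g x) = x := by
  by_cases hx : x = O
  · subst hx
    simp [GD_ext]
  · have h3 : GD_ext O p q g x = q (g (p x)) := by simp [GD_ext, hx]
    rw [h3, GD_q hS, h1, hS.qp x hx]

theorem sphere_ext {O : S2} {p : S2 → ℂ} {q : ℂ → S2} (hS : SC O p q) {g gi : ℂ → ℂ}
    (hg : Continuous g) (hgi : Continuous gi) (h1 : ∀ z, gi (g z) = z) (h2 : ∀ z, g (gi z) = z) :
    ∃ gs gsi : S2 → S2, Continuous gs ∧ Continuous gsi ∧ (∀ x, gsi (gs x) = x) ∧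
      (∀ x, gs (gsi x) = x) ∧ gs O = O ∧ gsi O = O ∧ (∀ z, gs (q z) = q (g z)) ∧
      (∀ z, gsi (q z) = q (gi z)) ∧ (∀ x, x ≠ O → gs x ≠ O ∧ p (gs x) = g (p x)) ∧
      ∀ x, x ≠ O → gsi x ≠ O ∧ p (gsi x) = gi (p x) := by
  refine ⟨GD_ext O p q g, GD_ext O p q gi, GD_cont hS hg hgi h1 h2, GD_cont hS hgi hg h2 h1,
    GD_inv hS h1, GD_inv hS h2, by simp [GD_ext], by simp [GD_ext], GD_q hS g, GD_q hS gi,
    GD_ne hS g, GD_ne hS gi⟩

end DG

end S_H36_DG_GD

section S_H36_DG_GE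

/-!
GE (charts of the sphere with a prescribed pole, in terms of a fixed stereographic chart).
Case `P' = O`: `κ₀ z = q (P₀ + z)`, `χ₀ x = p x - P₀`, `c z = P₀ + z`, `ρ = 1`.
Case `P' ≠ O`: `P' = q P₁`, `P₁ = p P' ≠ P₀`.  Put `s = (P₀ - P₁)⁻¹`; `κ₀ z = q (P₁ + (z + s)⁻¹)` for `z ≠ -s`, `κ₀ (-s) = O`;
`χ₀ x = (p x - P₁)⁻¹ - s` for `x ≠ O, P'`, `χ₀ O = -s` (arbitrary at `P'`).  Mutually inverse; continuity of `κ₀` at `-s`: `(z+s)⁻¹ → ∞` and
`q_lim`; `κ₀ z ≠ P'`; continuity of `χ₀` at `O`: `p_lim`.  `c z = P₁ + (z + s)⁻¹`, holomorphic and injective on `ball 0 ‖s‖`, `c 0 = P₀`,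
`c' 0 = - s⁻²  ≠ 0`.
-/

namespace DG
open Metric Set Filter Topology DS

theorem pole_chart {O : S2} {p : S2 → ℂ} {q : ℂ → S2} (hS : SC O p q) {K : Set S2} {P₀ : ℂ}
    {P' : S2} (hP' : P' ∈ K) (hne : q P₀ ≠ P') :
    ∃ (χ₀ : S2 → ℂ) (κ₀ : ℂ → S2) (c : ℂ → ℂ) (ρ : ℝ), 0 < ρ ∧ PChart K (q P₀) P' χ₀ κ₀ ∧
      DifferentiableOn ℂ c (ball 0 ρ) ∧ c 0 = P₀ ∧ (∀ z ∈ ball (0:ℂ) ρ, deriv c z ≠ 0) ∧
      InjOn c (ball 0 ρ) ∧ ∀ z ∈ ball (0:ℂ) ρ, κ₀ z = q (c z) := by
  have hqc : Continuous q := hS.q_smooth.continuous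
  have hpc : ∀ x, x ≠ O → ContinuousAt p x := fun x hx =>
    hS.p_smooth.continuousOn.continuousAt (isOpen_compl_singleton.mem_nhds hx)
  by_cases hPO : P' = O
  · subst hPO
    refine ⟨fun x => p x - P₀, fun z => q (P₀ + z), fun z => P₀ + z, 1, one_pos, ?_, ?_, ?_, ?_, ?_, ?_⟩
    · refine ⟨hP', hqc.comp (continuous_const.add continuous_id), fun z => hS.q_ne _, ?_, ?_, ?_, ?_⟩
      · intro z
        rw [hS.pq]
        ring
      · intro x hx
        show q (P₀ + (p x - P₀)) = x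
        rw [add_sub_cancel, hS.qp x hx]
      · exact hS.p_smooth.continuousOn.sub continuousOn_const
      · simp
    · exact ((differentiable_const _).add differentiable_id).differentiableOn
    · simp
    · intro z _
      simp
    · intro z _ w _ h
      simpa using h
    · intro z _
      rfl
  · set P₁ := p P' with hP₁
    have hqP₁ : q P₁ = P' := hS.qp P' hPO
    have hne' : P₀ - P₁ ≠ 0 := by
      intro h
      apply hne
      rw [sub_eq_zero.mp h, hqP₁]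
    set s : ℂ := (P₀ - P₁)⁻¹ with hs
    have hs0 : s ≠ 0 := inv_ne_zero hne'
    have hinj : ∀ a b, q a = q b → a = b := fun a b hab => by
      have := congrArg p hab
      rwa [hS.pq, hS.pq] at this
    classical
    set κ₀ : ℂ → S2 := fun z => if z = -s then O else q (P₁ + (z + s)⁻¹) with hκ
    set χ₀ : S2 → ℂ := fun x => if x = O then -s else (p x - P₁)⁻¹ - s with hχ
    have k1 : κ₀ (-s) = O := by rw [hκ]; simp
    have k2 : ∀ z, z ≠ -s → κ₀ z = q (P₁ + (z + s)⁻¹) := fun z hz => by rw [hκ]; simp [hz]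
    have c1 : χ₀ O = -s := by rw [hχ]; simp
    have c2 : ∀ x, x ≠ O → χ₀ x = (p x - P₁)⁻¹ - s := fun x hx => by rw [hχ]; simp [hx]
    have hzs : ∀ z : ℂ, z ≠ -s → z + s ≠ 0 := fun z hz h => hz (eq_neg_of_add_eq_zero_left h)
    have hpx : ∀ x, x ≠ O → x ≠ P' → p x - P₁ ≠ 0 := by
      intro x hx hx' h
      apply hx'
      rw [← hS.qp x hx, sub_eq_zero.mp h, hqP₁]
    have hball : ∀ z ∈ ball (0:ℂ) ‖s‖, z ≠ -s := by
      intro z hz h
      rw [mem_ball_zero_iff, h, norm_neg] at hz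
      exact lt_irrefl _ hz
    refine ⟨χ₀, κ₀, fun z => P₁ + (z + s)⁻¹, ‖s‖, norm_pos_iff.mpr hs0, ?_, ?_, ?_, ?_, ?_, ?_⟩
    · refine ⟨hP', ?_, ?_, ?_, ?_, ?_, ?_⟩
      · rw [continuous_iff_continuousAt]
        intro z
        by_cases hz : z = -s
        · subst hz
          rw [continuousAt_iff_punctured_nhds, k1]
          have hev : ∀ᶠ z : ℂ in 𝓝[≠] (-s), q (P₁ + (z + s)⁻¹) = κ₀ z := by
            filter_upwards [self_mem_nhdsWithin] with z hz
            exact (k2 z hz).symm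
          refine Tendsto.congr' hev ?_
          have h1 : Tendsto (fun z : ℂ => z + s) (𝓝[≠] (-s)) (𝓝[≠] 0) := by
            rw [tendsto_nhdsWithin_iff]
            constructor
            · have h2 : Tendsto (fun z : ℂ => z + s) (𝓝 (-s)) (𝓝 (-s + s)) :=
                (continuous_id.add continuous_const).tendsto _
              rw [neg_add_cancel] at h2
              exact h2.mono_left nhdsWithin_le_nhds
            · filter_upwards [self_mem_nhdsWithin] with z hz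
              exact hzs z hz
          have h2 : Tendsto (fun z : ℂ => (z + s)⁻¹) (𝓝[≠] (-s)) (Bornology.cobounded ℂ) :=
            tendsto_inv₀_nhdsNE_zero.comp h1
          have h3 : Tendsto (fun z : ℂ => P₁ + (z + s)⁻¹) (𝓝[≠] (-s)) (Bornology.cobounded ℂ) :=
            (tendsto_const_add_cobounded P₁).comp h2
          rw [Metric.cobounded_eq_cocompact] at h3
          exact hS.q_lim.comp h3
        · have hev : (fun z => q (P₁ + (z + s)⁻¹)) =ᶠ[𝓝 z] κ₀ := by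
            filter_upwards [isOpen_ne.mem_nhds hz] with w hw
            exact (k2 w hw).symm
          refine ContinuousAt.congr ?_ hev
          have h1 : ContinuousAt (fun z : ℂ => P₁ + (z + s)⁻¹) z :=
            continuousAt_const.add ((continuousAt_id.add continuousAt_const).inv₀ (hzs z hz))
          exact hqc.continuousAt.comp h1
      · intro z hz
        by_cases hzs' : z = -s
        · rw [hzs', k1] at hz
          exact hPO hz.symm
        · rw [k2 z hzs', ← hqP₁] at hz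
          have h1 := hinj _ _ hz
          have h2 : (z + s)⁻¹ = 0 := by simpa using h1
          exact inv_ne_zero (hzs z hzs') h2
      · intro z
        by_cases hz : z = -s
        · rw [hz, k1, c1]
        · rw [k2 z hz, c2 _ (hS.q_ne _), hS.pq, add_sub_cancel_left, inv_inv]
          ring
      · intro x hx
        by_cases hxO : x = O
        · rw [hxO, c1, k1]
        · have h1 := hpx x hxO hx
          rw [c2 x hxO, k2]
          · rw [sub_add_cancel, inv_inv, add_sub_cancel, hS.qp x hxO]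
          · intro h
            have h2 : (p x - P₁)⁻¹ = 0 := by
              have h3 : (p x - P₁)⁻¹ - s + s = -s + s := by rw [h]
              simpa using h3
            exact inv_ne_zero h1 h2
      · intro x hx
        have hx' : x ≠ P' := hx
        apply ContinuousAt.continuousWithinAt
        by_cases hxO : x = O
        · subst hxO
          rw [continuousAt_iff_punctured_nhds, c1]
          have hev : ∀ᶠ y : S2 in 𝓝[≠] x, (p y - P₁)⁻¹ - s = χ₀ y := by
            filter_upwards [self_mem_nhdsWithin] with y hy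
            exact (c2 y hy).symm
          refine Tendsto.congr' hev ?_
          have h1 := hS.p_lim
          rw [← Metric.cobounded_eq_cocompact] at h1
          have h2 : Tendsto (fun y => p y - P₁) (𝓝[≠] x) (Bornology.cobounded ℂ) :=
            (tendsto_sub_const_cobounded P₁).comp h1
          have h3 : Tendsto (fun y => (p y - P₁)⁻¹) (𝓝[≠] x) (𝓝 0) :=
            tendsto_inv₀_cobounded.comp h2
          have h4 := h3.sub_const s
          rwa [zero_sub] at h4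
        · have hev : (fun y => (p y - P₁)⁻¹ - s) =ᶠ[𝓝 x] χ₀ := by
            filter_upwards [isOpen_ne.mem_nhds hxO] with y hy
            exact (c2 y hy).symm
          refine ContinuousAt.congr ?_ hev
          exact (((hpc x hxO).sub continuousAt_const).inv₀ (hpx x hxO hx')).sub continuousAt_const
      · rw [k2 0 (fun h => hs0 (by simpa using h.symm)), zero_add, hs, inv_inv, add_sub_cancel]
    · intro z hz
      have h1 := hzs z (hball z hz)
      have h3 : HasDerivAt (fun z : ℂ => z + s) 1 z := (hasDerivAt_id z).add_const s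
      exact ((h3.inv h1).const_add P₁).differentiableAt.differentiableWithinAt
    · show P₁ + (0 + s)⁻¹ = P₀
      rw [zero_add, hs, inv_inv, add_sub_cancel]
    · intro z hz
      have h1 := hzs z (hball z hz)
      have h2 : HasDerivAt (fun z : ℂ => P₁ + (z + s)⁻¹) (-1 / (z + s) ^ 2) z := by
        have h3 : HasDerivAt (fun z : ℂ => z + s) 1 z := (hasDerivAt_id z).add_const s
        exact (h3.inv h1).const_add P₁
      rw [h2.deriv]
      exact div_ne_zero (by norm_num) (pow_ne_zero 2 h1)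
    · intro z hz w hw h
      have h1 : (z + s)⁻¹ = (w + s)⁻¹ := add_left_cancel h
      exact add_right_cancel (inv_injective h1)
    · intro z hz
      exact k2 z (hball z hz)

end DG

end S_H36_DG_GE

section S_H36_DG_LLb

/-!
LLb (stable sets and domains for powers and composition with deck transformations).
`stabX_pow`: `(g^[n])^[m] = g^[n * m]` (`Function.iterate_mul`).  `⊇`: subsequence.  `⊆`: write `k = n m + j`, `j < n`; the maps `g^[j]`, `j < n`, are
uniformly continuous (`S` compact); so `dist (g^[j] (g^[n m] s)) (g^[j] (g^[n m] t)) → 0` uniformly in `j < n` as `m → ∞`.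
`Dom.mul`: `(A c ∘ G) '' U = A c '' (G '' U) = A c '' U = U`.  `Dom.pow`: `G^[n] '' U = U` by induction, `periodicPts (g^[n]) ⊆ periodicPts g`, `stabX_pow`.
-/

namespace CV

open Metric Set Filter Topology Function DS TN

theorem LLb_unif {S : Type} [MetricSpace S] [CompactSpace S] {g : S → S} (hg : Continuous g)
    {ε : ℝ} (hε : 0 < ε) (n : ℕ) :
    ∃ δ > 0, ∀ a b, dist a b < δ → ∀ j < n, dist (g^[j] a) (g^[j] b) < ε := by
  induction n with
  | zero => exact ⟨1, one_pos, fun a b _ j hj => absurd hj (Nat.not_lt_zero j)⟩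
  | succ n ih =>
    obtain ⟨δ, hδ, h⟩ := ih
    have hu : UniformContinuous (g^[n]) :=
      CompactSpace.uniformContinuous_of_continuous (hg.iterate n)
    obtain ⟨δ', hδ', h'⟩ := Metric.uniformContinuous_iff.1 hu ε hε
    refine ⟨min δ δ', lt_min hδ hδ', fun a b hab j hj => ?_⟩
    rcases Nat.lt_succ_iff_lt_or_eq.1 hj with h1 | h1
    · exact h a b (lt_of_lt_of_le hab (min_le_left _ _)) j h1
    · rw [h1]
      exact h' (lt_of_lt_of_le hab (min_le_right _ _))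

theorem LLb_tend {S : Type} [MetricSpace S] [CompactSpace S] {g : S → S} (hg : Continuous g)
    {n : ℕ} (hn : 0 < n) (s t : S) :
    Tendsto (fun m : ℕ => dist ((g^[n])^[m] s) ((g^[n])^[m] t)) atTop (𝓝 0) ↔
      Tendsto (fun k : ℕ => dist (g^[k] s) (g^[k] t)) atTop (𝓝 0) := by
  have e : ∀ (m : ℕ) (s : S), (g^[n])^[m] s = g^[n * m] s := fun m s => by
    rw [Function.iterate_mul]
  simp only [e]
  constructor
  · intro h
    rw [Metric.tendsto_atTop] at h ⊢
    intro ε hε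
    obtain ⟨δ, hδ, hd⟩ := LLb_unif hg hε n
    obtain ⟨M, hM⟩ := h δ hδ
    refine ⟨n * M, fun k hk => ?_⟩
    have h1 : M ≤ k / n := (Nat.le_div_iff_mul_le hn).2 (by rw [mul_comm]; exact hk)
    have h2 := hM (k / n) h1
    rw [Real.dist_eq, sub_zero, abs_of_nonneg dist_nonneg] at h2 ⊢
    have h3 := hd _ _ h2 (k % n) (Nat.mod_lt k hn)
    rw [← Function.iterate_add_apply, ← Function.iterate_add_apply, Nat.mod_add_div] at h3
    exact h3
  · intro h
    refine h.comp (tendsto_atTop_mono (fun m => ?_) tendsto_id)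
    exact Nat.le_mul_of_pos_left m hn

section
variable {S : Type} [MetricSpace S] [CompactSpace S] {X : Set ℂ} {Γ : Type} [Group Γ]
  {A : Γ → ℂ → ℂ} {p : ℂ → S} {g gi : S → S} {G Gi : ℂ → ℂ} {θ : Γ ≃* Γ} {ρ : ℂ → ℝ}
  {U : Set ℂ} {N : Subgroup Γ}

theorem stabX_pow {g : S → S} (hg : Continuous g) {n : ℕ} (hn : 0 < n) (P : ℂ) :
    StabX X p (g^[n]) P = StabX X p g P := by
  ext x
  exact and_congr_right fun _ => LLb_tend hg hn (p x) (p P)

theorem per_pow {g : S → S} {n : ℕ} (hn : 0 < n) (s : S) :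
    s ∈ periodicPts (g^[n]) ↔ s ∈ periodicPts g := by
  constructor
  · rintro ⟨m, hm, h⟩
    refine ⟨n * m, Nat.mul_pos hn hm, ?_⟩
    have h1 : (g^[n])^[m] s = s := h
    show g^[n * m] s = s
    rw [Function.iterate_mul]
    exact h1
  · rintro ⟨m, hm, h⟩
    refine ⟨m, hm, ?_⟩
    have h1 : g^[m] s = s := h
    show (g^[n])^[m] s = s
    rw [← Function.iterate_mul, mul_comm, Function.iterate_mul]
    exact Function.iterate_fixed h1 n

theorem Dom.mul (M : Dom X A p g G U N) {c : Γ} (hc : c ∈ N) :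
    Dom X A p g (fun x => A c (G x)) U N := by
  refine ⟨M.opn, M.conn, M.sub, ?_, M.mem, M.comp, M.stab⟩
  have h1 : (fun x => A c (G x)) '' U = A c '' (G '' U) := (image_image (A c) G U).symm
  rw [h1, M.inv]
  exact (M.mem c).1 hc

theorem Dom.pow (hg : Continuous g) (M : Dom X A p g G U N) {n : ℕ} (hn : 0 < n) :
    Dom X A p (g^[n]) (G^[n]) U N := by
  refine ⟨M.opn, M.conn, M.sub, ?_, M.mem, M.comp, fun P hP hper => ?_⟩
  · clear hn
    induction n with
    | zero => exact image_id U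
    | succ n ih => rw [Function.iterate_succ, image_comp, M.inv, ih]
  · rw [stabX_pow hg hn]
    exact M.stab P hP ((per_pow hn _).1 hper)

/-- the predicate `SPX` for powers -/
theorem spx_pow {g : S → S} (hg : Continuous g) {n : ℕ} (hn : 0 < n) (Hyp : S → Prop) (x : ℂ) :
    SPX X p (g^[n]) Hyp x ↔ SPX X p g Hyp x := by
  unfold SPX
  simp only [stabX_pow hg hn]

end

end CV

end S_H36_DG_LLb

section S_H36_DG_HDA

/-!
HDA (the axes of a hyperbolic chart are in the stable and unstable sets).  Compare `axis_stable`, `axis_unstable` in Pool/Agent/H36/DS/SW.lean.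
`axis_st`: `w = ⟨x, 0⟩ ∈ Sq r`; by `H.loc` (`im0`, `repos`, `reneg`, `re0`) `F w = ⟨x', 0⟩` with `|x'| ≤ lp |x| ≤ r`, so `F^[n] w = ⟨x_n, 0⟩`, `|x_n| ≤ lp ^ n |x|`, `k (F^[n] w) = (G ∘ G)^[n] (k w)` (`conj`), and
`k (F^[n] w) → k 0 = P` (`k` continuous at `0 ∈ Vo`).  So `p (G^[2 n] y) → p P` for `y = k w`, i.e. `(g^[2])^[n] (p y) → p P` (`Lift.iter`), and `g^[2]` fixes `p P`; by `stabX_pow` (DG/LLb, `n = 2`)
`y ∈ StabX X p g P`.
`axis_un`: for `0 < |y| ≤ r` there is `y'` of the same sign, `|y'| ≤ |y| / km`, with `F ⟨0, y'⟩ = ⟨0, y⟩` (intermediate value theorem for `t ↦ (F ⟨0, t⟩).im` on `[0, y]`; `re0`, `impos`, `imneg`); so `k ⟨0, y⟩ = G (G (k ⟨0, y'⟩))`,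
`Gi (Gi (k ⟨0, y⟩)) = k ⟨0, y'⟩`.  Iterate: `(Gi ∘ Gi)^[n] (k ⟨0, y⟩) = k ⟨0, y_n⟩ → P`.
-/

namespace CV

open Metric Set Filter Topology Function DS TN

section
variable {S : Type} [MetricSpace S] [CompactSpace S] {X : Set ℂ} {Γ : Type} [Group Γ]
  {A : Γ → ℂ → ℂ} {p : ℂ → S} {g gi : S → S} {G Gi : ℂ → ℂ} {θ : Γ ≃* Γ} {ρ : ℂ → ℝ}

theorem HDA_step {P : ℂ} {k F : ℂ → ℂ} {Vo : Set ℂ} {r lp km kp : ℝ}
    (H : HData X G P k F Vo r lp km kp) {x : ℝ} (hx : |x| ≤ r) :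
    ∃ x' : ℝ, |x'| ≤ lp * |x| ∧ G (G (k ⟨x, 0⟩)) = k ⟨x', 0⟩ := by
  have HL := H.loc
  have hr := HL.hr
  have hlp := HL.hlp
  have hlp1 := HL.hlp1
  have hS : (⟨x, 0⟩ : ℂ) ∈ Sq r := by
    have := abs_le.1 hx
    exact ⟨this.1, this.2, by simp only; linarith, by simp only; linarith⟩
  have h1 : |(F ⟨x, 0⟩).re| ≤ lp * |x| := by
    rcases lt_trichotomy x 0 with h | h | h
    · have := HL.reneg _ hS h
      simp only at this
      rw [abs_of_neg h, abs_of_neg this.1]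
      linarith [this.2]
    · have := HL.re0 _ hS h
      rw [this, abs_zero]
      positivity
    · have := HL.repos _ hS h
      simp only at this
      rw [abs_of_pos h, abs_of_pos this.1]
      linarith [this.2]
  have him : (F ⟨x, 0⟩).im = 0 := HL.im0 _ hS rfl
  have e : (⟨(F ⟨x, 0⟩).re, 0⟩ : ℂ) = F ⟨x, 0⟩ := Complex.ext rfl him.symm
  have h2 : |(F ⟨x, 0⟩).re| ≤ r := by
    have : lp * |x| ≤ 1 * |x| := mul_le_mul_of_nonneg_right hlp1.le (abs_nonneg x)
    linarith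
  refine ⟨(F ⟨x, 0⟩).re, h1, ?_⟩
  rw [e, H.conj _ hS]
  have := abs_le.1 h2
  exact ⟨this.1, this.2, by rw [him]; linarith, by rw [him]; linarith⟩

theorem axis_st (D : Deck X A p) (L : Lift X A p g gi G Gi θ ρ) {P : ℂ} (hP : P ∈ X)
    (hGP : G P = P) {k F : ℂ → ℂ} {Vo : Set ℂ} {r lp km kp : ℝ}
    (H : HData X G P k F Vo r lp km kp) {x : ℝ} (hx : |x| ≤ r) :
    k ⟨x, 0⟩ ∈ StabX X p g P := by
  have HL := H.loc
  have hr := HL.hr
  have hlp := HL.hlp
  have hlp1 := HL.hlp1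
  have hS : (⟨x, 0⟩ : ℂ) ∈ Sq r := by
    have := abs_le.1 hx
    exact ⟨this.1, this.2, by simp only; linarith, by simp only; linarith⟩
  have hall : ∀ n : ℕ, ∃ x' : ℝ, |x'| ≤ lp ^ n * |x| ∧ G^[2 * n] (k ⟨x, 0⟩) = k ⟨x', 0⟩ := by
    intro n
    induction n with
    | zero => exact ⟨x, by simp, rfl⟩
    | succ n ih =>
      obtain ⟨x₁, h1, h2⟩ := ih
      have h3 : lp ^ n * |x| ≤ |x| := by
        have := pow_le_one₀ (n := n) hlp.le hlp1.le
        nlinarith [abs_nonneg x]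
      obtain ⟨x₂, h4, h5⟩ := HDA_step H (h1.trans (h3.trans hx))
      refine ⟨x₂, ?_, ?_⟩
      · rw [pow_succ]
        nlinarith
      · rw [show 2 * (n + 1) = 2 * n + 1 + 1 by ring, iterate_succ_apply', iterate_succ_apply', h2,
          h5]
  choose z hz1 hz2 using hall
  have hz : Tendsto (fun n => (⟨z n, 0⟩ : ℂ)) atTop (𝓝 0) := by
    rw [tendsto_zero_iff_norm_tendsto_zero]
    refine squeeze_zero (fun n => norm_nonneg _) (fun n => ?_)
      (g := fun n => lp ^ n * |x|) ?_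
    · refine le_trans ?_ (hz1 n)
      have := Complex.norm_le_abs_re_add_abs_im (⟨z n, 0⟩ : ℂ)
      simpa using this
    · have := (tendsto_pow_atTop_nhds_zero_of_lt_one hlp.le hlp1).mul_const |x|
      rwa [zero_mul] at this
  have h0V : (0 : ℂ) ∈ Vo := by
    apply H.sq
    exact ⟨by simpa using hr.le, by simpa using hr.le, by simpa using hr.le, by simpa using hr.le⟩
  have hk : ContinuousAt k 0 := H.c1.continuousOn.continuousAt (H.opn.mem_nhds h0V)
  have hpP : ContinuousAt p (k 0) := by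
    rw [H.k0]
    exact D.pc.continuousAt (D.opn.mem_nhds hP)
  have hlim : Tendsto (fun n => p (k ⟨z n, 0⟩)) atTop (𝓝 (p P)) := by
    have h1 := (hpP.tendsto.comp hk.tendsto).comp hz
    rw [H.k0] at h1
    exact h1
  have hyX : k ⟨x, 0⟩ ∈ X := H.mX (H.sq hS)
  rw [← stabX_pow (X := X) (p := p) L.cg (n := 2) two_pos P]
  refine ⟨hyX, ?_⟩
  have e1 : ∀ n : ℕ, ∀ y ∈ X, (g^[2])^[n] (p y) = p (G^[2 * n] y) := by
    intro n y hy
    rw [← iterate_mul]
    exact ((L.iter (2 * n)).2.2.2.2.2.2.2 y hy).symm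
  have e2 : ∀ n : ℕ, G^[n] P = P := fun n => iterate_fixed hGP n
  refine (tendsto_iff_dist_tendsto_zero.1 hlim).congr fun n => ?_
  rw [e1 n _ hyX, e1 n _ hP, hz2 n, e2]

end

end CV

end S_H36_DG_HDA

section S_H36_DG_HDB

/-!
HDB (the axes of a hyperbolic chart are in the stable and unstable sets).  Compare `axis_stable`, `axis_unstable` in Pool/Agent/H36/DS/SW.lean.
`axis_st`: `w = ⟨x, 0⟩ ∈ Sq r`; by `H.loc` (`im0`, `repos`, `reneg`, `re0`) `F w = ⟨x', 0⟩` with `|x'| ≤ lp |x| ≤ r`, so `F^[n] w = ⟨x_n, 0⟩`, `|x_n| ≤ lp ^ n |x|`, `k (F^[n] w) = (G ∘ G)^[n] (k w)` (`conj`), and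
`k (F^[n] w) → k 0 = P` (`k` continuous at `0 ∈ Vo`).  So `p (G^[2 n] y) → p P` for `y = k w`, i.e. `(g^[2])^[n] (p y) → p P` (`Lift.iter`), and `g^[2]` fixes `p P`; by `stabX_pow` (DG/LLb, `n = 2`)
`y ∈ StabX X p g P`.
`axis_un`: for `0 < |y| ≤ r` there is `y'` of the same sign, `|y'| ≤ |y| / km`, with `F ⟨0, y'⟩ = ⟨0, y⟩` (intermediate value theorem for `t ↦ (F ⟨0, t⟩).im` on `[0, y]`; `re0`, `impos`, `imneg`); so `k ⟨0, y⟩ = G (G (k ⟨0, y'⟩))`,
`Gi (Gi (k ⟨0, y⟩)) = k ⟨0, y'⟩`.  Iterate: `(Gi ∘ Gi)^[n] (k ⟨0, y⟩) = k ⟨0, y_n⟩ → P`.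
-/

namespace CV

open Metric Set Filter Topology Function DS TN

section
variable {S : Type} [MetricSpace S] [CompactSpace S] {X : Set ℂ} {Γ : Type} [Group Γ]
  {A : Γ → ℂ → ℂ} {p : ℂ → S} {g gi : S → S} {G Gi : ℂ → ℂ} {θ : Γ ≃* Γ} {ρ : ℂ → ℝ}

theorem axis_un (D : Deck X A p) (L : Lift X A p g gi G Gi θ ρ) {P : ℂ} (hP : P ∈ X)
    (hGP : G P = P) {k F : ℂ → ℂ} {Vo : Set ℂ} {r lp km kp : ℝ}
    (H : HData X G P k F Vo r lp km kp) {y : ℝ} (hy : |y| ≤ r) :
    k ⟨0, y⟩ ∈ StabX X p gi P := by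
  have HL := H.loc
  have hr := HL.hr
  have hkm := HL.hkm
  have hkm0 : 0 < km := by linarith
  have hS : ∀ y : ℝ, |y| ≤ r → (⟨0, y⟩ : ℂ) ∈ Sq r := by
    intro y hy
    have := abs_le.1 hy
    exact ⟨by simp only; linarith, by simp only; linarith, this.1, this.2⟩
  have hcont : ContinuousOn (fun y : ℝ => (F ⟨0, y⟩).im) {y | |y| ≤ r} := by
    have h1 : ContinuousOn (fun y : ℝ => F ⟨0, y⟩) {y | |y| ≤ r} := by
      refine HL.cont.comp (f := fun y : ℝ => (⟨0, y⟩ : ℂ)) ?_ (fun y hy => hS y hy)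
      have : (fun y : ℝ => (⟨0, y⟩ : ℂ)) = fun y : ℝ => (y : ℂ) * Complex.I := by
        funext y
        apply Complex.ext <;> simp
      rw [this]
      fun_prop
    exact Complex.continuous_im.comp_continuousOn h1
  have hF : ∀ y' : ℝ, |y'| ≤ r → ∀ y : ℝ, (F ⟨0, y'⟩).im = y → F ⟨0, y'⟩ = ⟨0, y⟩ := by
    intro y' hy' y h
    have hre := HL.re0 _ (hS y' hy') rfl
    exact Complex.ext hre h
  have h00 : (F ⟨0, 0⟩).im = 0 := HL.im0 _ (hS 0 (by simpa using hr.le)) rfl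
  have hstep : ∀ y : ℝ, |y| ≤ r → ∃ y' : ℝ, |y'| ≤ km⁻¹ * |y| ∧ F ⟨0, y'⟩ = ⟨0, y⟩ := by
    intro y hy
    rcases lt_trichotomy y 0 with h | h | h
    · have h1 := (HL.imneg _ (hS y hy) h).1
      simp only at h1
      have hsub : Icc y 0 ⊆ {y | |y| ≤ r} := by
        intro w hw
        have := abs_le.1 hy
        show |w| ≤ r
        exact abs_le.2 ⟨by linarith [hw.1, this.1], by linarith [hw.2, this.2]⟩
      obtain ⟨y', hy', he⟩ := intermediate_value_Icc h.le (hcont.mono hsub)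
        (show y ∈ Icc _ _ from ⟨by nlinarith, by rw [h00]; exact h.le⟩)
      have he' : (F ⟨0, y'⟩).im = y := he
      refine ⟨y', ?_, hF y' (hsub hy') y he'⟩
      have hneg : y' < 0 := by
        refine lt_of_le_of_ne hy'.2 (fun e => ?_)
        rw [e, h00] at he'
        linarith
      have h2 := (HL.imneg _ (hS y' (hsub hy')) hneg).1
      simp only at h2
      rw [he'] at h2
      rw [abs_of_neg hneg, abs_of_neg h, inv_mul_eq_div, le_div_iff₀ hkm0]
      linarith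
    · subst h
      exact ⟨0, by simp, hF 0 hy 0 h00⟩
    · have h1 := (HL.impos _ (hS y hy) h).1
      simp only at h1
      have hsub : Icc 0 y ⊆ {y | |y| ≤ r} := by
        intro w hw
        have := abs_le.1 hy
        show |w| ≤ r
        exact abs_le.2 ⟨by linarith [hw.1, this.1], by linarith [hw.2, this.2]⟩
      obtain ⟨y', hy', he⟩ := intermediate_value_Icc h.le (hcont.mono hsub)
        (show y ∈ Icc _ _ from ⟨by rw [h00]; exact h.le, by nlinarith⟩)
      have he' : (F ⟨0, y'⟩).im = y := he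
      refine ⟨y', ?_, hF y' (hsub hy') y he'⟩
      have hpos : 0 < y' := by
        refine lt_of_le_of_ne hy'.1 (fun e => ?_)
        rw [← e, h00] at he'
        linarith
      have h2 := (HL.impos _ (hS y' (hsub hy')) hpos).1
      simp only at h2
      rw [he'] at h2
      rw [abs_of_pos hpos, abs_of_pos h, inv_mul_eq_div, le_div_iff₀ hkm0]
      linarith
  have hk0 : 0 ≤ km⁻¹ := (inv_pos.2 hkm0).le
  have hk1 : km⁻¹ < 1 := inv_lt_one_of_one_lt₀ hkm
  have hkX : ∀ y : ℝ, |y| ≤ r → k ⟨0, y⟩ ∈ X := fun y hy => H.mX (H.sq (hS y hy))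
  -- one step downstairs
  have hdown : ∀ y : ℝ, |y| ≤ r → ∃ y' : ℝ, |y'| ≤ km⁻¹ * |y| ∧
      (gi^[2]) (p (k ⟨0, y⟩)) = p (k ⟨0, y'⟩) := by
    intro y hy
    obtain ⟨y', h1, h2⟩ := hstep y hy
    have hy' : |y'| ≤ r := by
      refine h1.trans (le_trans ?_ hy)
      have := abs_nonneg y
      nlinarith
    refine ⟨y', h1, ?_⟩
    have h3 := H.conj _ (hS y' hy') (by rw [h2]; exact hS y hy)
    rw [h2] at h3
    have hX' := hkX y' hy'
    rw [h3, L.lift _ (L.mG hX'), L.lift _ hX']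
    show gi (gi (g (g (p (k ⟨0, y'⟩))))) = p (k ⟨0, y'⟩)
    rw [L.gig, L.gig]
  have hall : ∀ n : ℕ, ∃ y' : ℝ, |y'| ≤ km⁻¹ ^ n * |y| ∧
      (gi^[2])^[n] (p (k ⟨0, y⟩)) = p (k ⟨0, y'⟩) := by
    intro n
    induction n with
    | zero => exact ⟨y, by simp, rfl⟩
    | succ n ih =>
      obtain ⟨y₁, h1, h2⟩ := ih
      have h3 : km⁻¹ ^ n * |y| ≤ |y| := by
        have := pow_le_one₀ (n := n) hk0 hk1.le
        nlinarith [abs_nonneg y]
      obtain ⟨y₂, h4, h5⟩ := hdown y₁ (h1.trans (h3.trans hy))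
      refine ⟨y₂, ?_, ?_⟩
      · rw [pow_succ]
        nlinarith [mul_le_mul_of_nonneg_left h1 hk0]
      · rw [Function.iterate_succ_apply', h2, h5]
  have hgi : gi (p P) = p P := by
    have h1 : g (p P) = p P := by rw [← L.lift P hP, hGP]
    have h2 := L.gig (p P)
    rwa [h1] at h2
  have hfix : (gi^[2]) (p P) = p P := by
    show gi (gi (p P)) = p P
    rw [hgi, hgi]
  have h0V : (0 : ℂ) ∈ Vo := H.sq (hS 0 (by simpa using hr.le))
  have hkc : ContinuousAt k 0 := H.c1.continuousOn.continuousAt (H.opn.mem_nhds h0V)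
  have hpc : ContinuousAt p P := by
    have hXo : IsOpen X := by
      rcases D.hX with h | h
      · rw [h.1]; exact isOpen_univ
      · rw [h.1]; exact isOpen_ball
    exact D.pc.continuousAt (hXo.mem_nhds hP)
  choose z hz1 hz2 using hall
  have hlim : Tendsto (fun n => (⟨0, z n⟩ : ℂ)) atTop (𝓝 0) := by
    rw [tendsto_zero_iff_norm_tendsto_zero]
    have h1 : Tendsto (fun n : ℕ => km⁻¹ ^ n * |y|) atTop (𝓝 0) := by
      simpa using (tendsto_pow_atTop_nhds_zero_of_lt_one hk0 hk1).mul_const (|y|)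
    refine squeeze_zero (fun n => norm_nonneg _) (fun n => ?_) h1
    refine le_trans ?_ (hz1 n)
    have := Complex.norm_le_abs_re_add_abs_im (⟨0, z n⟩ : ℂ)
    simpa using this
  have hlim2 : Tendsto (fun n => p (k ⟨0, z n⟩)) atTop (𝓝 (p P)) := by
    have h1 : Tendsto (fun n => k ⟨0, z n⟩) atTop (𝓝 P) := by
      have := hkc.tendsto.comp hlim
      rwa [H.k0] at this
    exact hpc.tendsto.comp h1
  rw [← stabX_pow (X := X) (p := p) L.cgi (two_pos) P]
  refine ⟨hkX y hy, ?_⟩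
  have hfixn : ∀ n : ℕ, (gi^[2])^[n] (p P) = p P := fun n => Function.iterate_fixed hfix n
  have h1 := (tendsto_iff_dist_tendsto_zero.1 hlim2)
  refine h1.congr fun n => ?_
  rw [hfixn, hz2]

end

end CV

end S_H36_DG_HDB

section S_H36_DG_HDC

/-!
HDC (a regular curve in a stable set crosses the unstable axis).  Compare `SL_cross`, `SL_axis` in Pool/Agent/H36/DS/SL.lean.  Put `z₀ = ⟨0, y⟩`, `b = fderiv ℝ k z₀`, injective, so bijective.
The curve `β t = k ⟨0, y + t e⟩` (`e > 0` small, `|y| + e < r`) is a regular `C¹` curve in `StabX X p gi P` (`axis_un`) with `β 0 = k z₀`, velocity `e • b I ≠ 0`: `TanX (StabX X p gi P) (k z₀) (e • b I)`.  `α` gives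
`TanX (StabX X p g Q) (k z₀) (deriv α 0)`.  By `C.c2 Q P` they are linearly independent; so `deriv α 0 = b u` with `u.re ≠ 0` (otherwise `u` is a real multiple of `I`).
`k` is `C¹` on the open set `Vo`, with invertible derivative at `z₀`: by the inverse function theorem it has a local inverse `κ'` near `k z₀`, `κ' (k z₀) = z₀`, differentiable at `k z₀` with derivative `b⁻¹`
(`ContDiffAt.toOpenPartialHomeomorph` / `HasStrictFDerivAt.to_localInverse`).  `c t = κ' (α t)` is defined for small `t`, `k (c t) = α t`, `c t ∈ Vo`, `c 0 = z₀`, `HasDerivAt c u 0`; its real part is `t u.re + o(t)`, so it takes positive and negative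
values at arbitrarily small `t`, while `c t → z₀`.
-/

namespace CV

open Metric Set Filter Topology Function DS TN

/-- a real function with nonzero derivative at a zero takes both signs near it -/
theorem HDC_sign {f : ℝ → ℝ} {a : ℝ} (hf : HasDerivAt f a 0) (h0 : f 0 = 0) (ha : a ≠ 0)
    {P : ℝ → Prop} (hP : ∀ᶠ t in 𝓝 0, P t) : (∃ t, P t ∧ 0 < f t) ∧ ∃ t, P t ∧ f t < 0 := by
  have h1 : Tendsto (slope f 0) (𝓝[≠] 0) (𝓝 a) := hasDerivAt_iff_tendsto_slope.1 hf
  have hsl : ∀ t, slope f 0 t = t⁻¹ * f t := by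
    intro t
    simp [slope, h0]
  have hr : 𝓝[>] (0:ℝ) ≤ 𝓝[≠] 0 := nhdsWithin_mono _ (fun t ht => ne_of_gt ht)
  have hl : 𝓝[<] (0:ℝ) ≤ 𝓝[≠] 0 := nhdsWithin_mono _ (fun t ht => ne_of_lt ht)
  have hPr : ∀ᶠ t in 𝓝[>] (0:ℝ), P t := nhdsWithin_le_nhds hP
  have hPl : ∀ᶠ t in 𝓝[<] (0:ℝ), P t := nhdsWithin_le_nhds hP
  have hgt : ∀ᶠ t in 𝓝[>] (0:ℝ), 0 < t := eventually_mem_nhdsWithin
  have hlt : ∀ᶠ t in 𝓝[<] (0:ℝ), t < 0 := eventually_mem_nhdsWithin
  rcases lt_or_gt_of_ne ha with hneg | hpos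
  · have h2 : ∀ᶠ t in 𝓝[≠] (0:ℝ), slope f 0 t < 0 := h1.eventually (gt_mem_nhds hneg)
    constructor
    · obtain ⟨t, ⟨ht1, ht2⟩, ht3⟩ := ((hPl.and hlt).and (hl h2)).exists
      refine ⟨t, ht1, ?_⟩
      have h3 : slope f 0 t < 0 := ht3
      rw [hsl] at h3
      have h4 : f t = t * (t⁻¹ * f t) := by
        rw [← mul_assoc, mul_inv_cancel₀ (ne_of_lt ht2), one_mul]
      rw [h4]
      exact mul_pos_of_neg_of_neg ht2 h3
    · obtain ⟨t, ⟨ht1, ht2⟩, ht3⟩ := ((hPr.and hgt).and (hr h2)).exists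
      refine ⟨t, ht1, ?_⟩
      have h3 : slope f 0 t < 0 := ht3
      rw [hsl] at h3
      have h4 : f t = t * (t⁻¹ * f t) := by
        rw [← mul_assoc, mul_inv_cancel₀ (ne_of_gt ht2), one_mul]
      rw [h4]
      exact mul_neg_of_pos_of_neg ht2 h3
  · have h2 : ∀ᶠ t in 𝓝[≠] (0:ℝ), 0 < slope f 0 t := h1.eventually (lt_mem_nhds hpos)
    constructor
    · obtain ⟨t, ⟨ht1, ht2⟩, ht3⟩ := ((hPr.and hgt).and (hr h2)).exists
      refine ⟨t, ht1, ?_⟩
      have h3 : 0 < slope f 0 t := ht3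
      rw [hsl] at h3
      have h4 : f t = t * (t⁻¹ * f t) := by
        rw [← mul_assoc, mul_inv_cancel₀ (ne_of_gt ht2), one_mul]
      rw [h4]
      exact mul_pos ht2 h3
    · obtain ⟨t, ⟨ht1, ht2⟩, ht3⟩ := ((hPl.and hlt).and (hl h2)).exists
      refine ⟨t, ht1, ?_⟩
      have h3 : 0 < slope f 0 t := ht3
      rw [hsl] at h3
      have h4 : f t = t * (t⁻¹ * f t) := by
        rw [← mul_assoc, mul_inv_cancel₀ (ne_of_lt ht2), one_mul]
      rw [h4]
      exact mul_neg_of_neg_of_pos ht2 h3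

/-- the inverse function theorem along a curve -/
theorem HDC_lift {k : ℂ → ℂ} {Vo : Set ℂ} (hVo : IsOpen Vo) (hk : ContDiffOn ℝ 1 k Vo) {z₀ : ℂ}
    (hz₀ : z₀ ∈ Vo) (hinj : Injective (fderiv ℝ k z₀)) {α : ℝ → ℂ} {a : ℂ}
    (hα : HasDerivAt α a 0) (hα0 : α 0 = k z₀) :
    ∃ (c : ℝ → ℂ) (u : ℂ), HasDerivAt c u 0 ∧ c 0 = z₀ ∧ fderiv ℝ k z₀ u = a ∧
      ∀ᶠ t in 𝓝 (0:ℝ), k (c t) = α t := by
  have hkat : ContDiffAt ℝ 1 k z₀ := hk.contDiffAt (hVo.mem_nhds hz₀)
  let b : ℂ ≃L[ℝ] ℂ := (LinearEquiv.ofInjectiveEndo (fderiv ℝ k z₀ : ℂ →ₗ[ℝ] ℂ)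
    hinj).toContinuousLinearEquiv
  have hb : (b : ℂ →L[ℝ] ℂ) = fderiv ℝ k z₀ := by
    ext x
    rfl
  have hs : HasStrictFDerivAt k (b : ℂ →L[ℝ] ℂ) z₀ := by
    rw [hb]
    exact hkat.hasStrictFDerivAt one_ne_zero
  have hinv := hs.to_localInverse
  have h1 : HasFDerivAt (hs.localInverse k b z₀) (b.symm : ℂ →L[ℝ] ℂ) (α 0) := by
    rw [hα0]
    exact hinv.hasFDerivAt
  refine ⟨fun t => hs.localInverse k b z₀ (α t), b.symm a, h1.comp_hasDerivAt 0 hα, ?_, ?_, ?_⟩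
  · show hs.localInverse k b z₀ (α 0) = z₀
    rw [hα0]
    exact hs.localInverse_apply_image
  · rw [← hb]
    exact b.apply_symm_apply a
  · have h2 := hs.eventually_right_inverse
    rw [← hα0] at h2
    exact hα.continuousAt.eventually h2

section
variable {S : Type} [MetricSpace S] [CompactSpace S] {X : Set ℂ} {Γ : Type} [Group Γ]
  {A : Γ → ℂ → ℂ} {p : ℂ → S} {g gi : S → S} {G Gi : ℂ → ℂ} {θ : Γ ≃* Γ} {ρ : ℂ → ℝ}
  {Hyp : S → Prop}

theorem cross_pl (D : Deck X A p) (L : Lift X A p g gi G Gi θ ρ) (C : Cond X A p g gi G Hyp)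
    {P : ℂ} (hP : P ∈ X) (hGP : G P = P) (hH : Hyp (p P)) {k F : ℂ → ℂ} {Vo : Set ℂ}
    {r lp km kp : ℝ} (H : HData X G P k F Vo r lp km kp) {y : ℝ} (h0 : 0 < |y|) (hy : |y| < r)
    {Q : ℂ} (hQ : Q ∈ X) (hHQ : Hyp (p Q)) {α : ℝ → ℂ} (hα : ContDiffOn ℝ 1 α (Ioo (-1) 1))
    (hαs : ∀ t ∈ Ioo (-1:ℝ) 1, α t ∈ StabX X p g Q) (hα0 : α 0 = k ⟨0, y⟩)
    (hαd : deriv α 0 ≠ 0) {ε : ℝ} (hε : 0 < ε) :
    (∃ z ∈ ball (⟨0, y⟩ : ℂ) ε, 0 < z.re ∧ z ∈ Vo ∧ ∃ t ∈ Ioo (-1:ℝ) 1, k z = α t) ∧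
      ∃ z ∈ ball (⟨0, y⟩ : ℂ) ε, z.re < 0 ∧ z ∈ Vo ∧ ∃ t ∈ Ioo (-1:ℝ) 1, k z = α t := by
  set z₀ : ℂ := ⟨0, y⟩ with hz₀
  have hr : 0 < r := (abs_nonneg y).trans_lt hy
  have hSq : ∀ s : ℝ, |s| ≤ r → (⟨0, s⟩ : ℂ) ∈ Vo := by
    intro s hs
    have h1 := abs_le.1 hs
    refine H.sq ⟨?_, ?_, h1.1, h1.2⟩
    · show -r ≤ 0
      linarith
    · exact hr.le
  have hz₀V : z₀ ∈ Vo := hSq y hy.le
  have hinj := H.inj z₀ hz₀V
  have hIoo : Ioo (-1:ℝ) 1 ∈ 𝓝 (0:ℝ) := Ioo_mem_nhds (by norm_num) (by norm_num)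
  have hαD : HasDerivAt α (deriv α 0) 0 :=
    ((hα.contDiffAt hIoo).differentiableAt one_ne_zero).hasDerivAt
  obtain ⟨c, u, hc, hc0, hu, hkc⟩ := HDC_lift H.opn H.c1 hz₀V hinj hαD hα0
  -- the curve on the vertical axis
  set e : ℝ := (r - |y|) / 2 with he
  have he0 : 0 < e := by rw [he]; linarith
  have hline : ∀ t ∈ Ioo (-1:ℝ) 1, |y + t * e| ≤ r := by
    intro t ht
    have h1 : |t * e| ≤ e := by
      rw [abs_mul, abs_of_pos he0]
      have h2 : |t| ≤ 1 := abs_le.2 ⟨ht.1.le, ht.2.le⟩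
      nlinarith
    have h2 := abs_add_le y (t * e)
    have h3 : |y| + e ≤ r := by rw [he]; linarith
    linarith
  have hlc : ∀ t : ℝ, (⟨0, y + t * e⟩ : ℂ) = z₀ + t • (e • Complex.I) := by
    intro t
    apply Complex.ext <;> simp [hz₀]
  have hlD : HasDerivAt (fun t : ℝ => (⟨0, y + t * e⟩ : ℂ)) (e • Complex.I) 0 := by
    simp only [hlc]
    have h1 : HasDerivAt (fun t : ℝ => t • (e • Complex.I)) ((1:ℝ) • (e • Complex.I)) 0 :=
      (hasDerivAt_id (0:ℝ)).smul_const _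
    rw [one_smul] at h1
    exact h1.const_add z₀
  have hlz : (⟨0, y + 0 * e⟩ : ℂ) = z₀ := by simp [hz₀]
  have hkD : HasFDerivAt k (fderiv ℝ k z₀) (⟨0, y + 0 * e⟩ : ℂ) := by
    rw [hlz]
    exact ((H.c1.contDiffAt (H.opn.mem_nhds hz₀V)).differentiableAt one_ne_zero).hasFDerivAt
  have hβD : HasDerivAt (fun t : ℝ => k ⟨0, y + t * e⟩) (fderiv ℝ k z₀ (e • Complex.I)) 0 :=
    hkD.comp_hasDerivAt 0 hlD
  have hTβ : TanX (StabX X p gi P) (k z₀) (fderiv ℝ k z₀ (e • Complex.I)) := by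
    refine ⟨?_, fun t : ℝ => k ⟨0, y + t * e⟩, ?_, ?_, ?_, hβD.deriv⟩
    · intro h
      have h1 : e • Complex.I = 0 := hinj (h.trans (map_zero _).symm)
      rcases smul_eq_zero.1 h1 with h2 | h2
      · exact he0.ne' h2
      · exact Complex.I_ne_zero h2
    · refine H.c1.comp (f := fun t : ℝ => (⟨0, y + t * e⟩ : ℂ)) ?_ ?_
      · simp only [hlc]
        exact (contDiff_const.add (contDiff_id.smul contDiff_const)).contDiffOn
      · intro t ht
        exact hSq _ (hline t ht)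
    · intro t ht
      exact axis_un D L hP hGP H (hline t ht)
    · show k ⟨0, y + 0 * e⟩ = k z₀
      rw [hlz]
  have hTα : TanX (StabX X p g Q) (k z₀) (deriv α 0) := ⟨hαd, α, hα, hαs, hα0, rfl⟩
  have hli := C.c2 Q hQ P hP hHQ hH _ _ _ hTα hTβ
  have hure : u.re ≠ 0 := by
    intro h
    have h1 : u = u.im • Complex.I := by
      apply Complex.ext <;> simp [h]
    have h2 := LinearIndependent.pair_iff.1 hli e (-u.im) (by
      rw [← hu]
      nth_rw 1 [h1]
      rw [← map_smul, ← map_smul, ← map_add]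
      have h3 : e • u.im • Complex.I + (-u.im) • e • Complex.I = 0 := by
        rw [smul_smul, smul_smul, ← add_smul]
        have h4 : e * u.im + -u.im * e = 0 := by ring
        rw [h4, zero_smul]
      rw [h3, map_zero])
    exact he0.ne' h2.1
  have hre : HasDerivAt (fun t => (c t).re) u.re 0 := by
    have h1 := Complex.reCLM.hasFDerivAt.comp_hasDerivAt (0:ℝ) hc
    exact h1
  have hre0 : (c 0).re = 0 := by rw [hc0]
  have hcc : ContinuousAt c 0 := hc.continuousAt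
  have hball : ∀ᶠ t in 𝓝 (0:ℝ), c t ∈ ball z₀ ε := by
    refine hcc.eventually ?_
    rw [hc0]
    exact ball_mem_nhds _ hε
  have hVe : ∀ᶠ t in 𝓝 (0:ℝ), c t ∈ Vo := by
    refine hcc.eventually ?_
    rw [hc0]
    exact H.opn.mem_nhds hz₀V
  have hIe : ∀ᶠ t in 𝓝 (0:ℝ), t ∈ Ioo (-1:ℝ) 1 := hIoo
  obtain ⟨⟨t, ⟨ht1, ht2, ht3, ht4⟩, ht5⟩, s, ⟨hs1, hs2, hs3, hs4⟩, hs5⟩ :=
    HDC_sign hre hre0 hure (hball.and (hVe.and (hIe.and hkc)))
  exact ⟨⟨c t, ht1, ht5, ht2, t, ht3, ht4⟩, c s, hs1, hs5, hs2, s, hs3, hs4⟩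

end

end CV

end S_H36_DG_HDC

section S_H36_DG_TU

/-!
TU (a homeomorphism of `X` onto the plane which is the identity near a compact set; complements of islands).
`exists_tau`: `X = univ`: identity, `V = univ`.  `X = ball 0 1`: `Y ⊆ ball 0 r₁`, `0 < r₁ < 1` (`Y` compact in the open ball); `τ z = z` for `‖z‖ ≤ r₁`, `τ z = ((1 - r₁) / (1 - ‖z‖)) • z` for `r₁ ≤ ‖z‖ < 1`;
`τi w = w` for `‖w‖ ≤ r₁`, `τi w = (‖w‖ + 1 - r₁)⁻¹ • w` for `‖w‖ ≥ r₁`; `V = ball 0 r₁`.
`island_top`: `Y` is compact, connected (`Island.basic`); `X \ Y` is preconnected by `compl_component` (DS/TB) with `S = X`, `V = U`, `K = Y` (`auxTB_max`); if `X = ball 0 1` then `Yᶜ = (X \ Y) ∪ {‖z‖ ≥ 1}`, the second set is connected and every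
point of the circle is a limit of points of `X \ Y` (`Y` is compact in the open ball).
`tau_lift`: `H = τ ∘ G ∘ τi`, a homeomorphism of the plane; `sphere_ext`.
-/

namespace CV

open Metric Set Filter Topology Function DS TN

/-- data of the homeomorphism -/
structure Tau (X Y : Set ℂ) (τ τi : ℂ → ℂ) (V : Set ℂ) : Prop where
  cτ : ContinuousOn τ X
  cτi : Continuous τi
  mτi : ∀ z, τi z ∈ X
  left : ∀ z ∈ X, τi (τ z) = z
  right : ∀ z, τ (τi z) = z
  opn : IsOpen V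
  sub : Y ⊆ V
  VX : V ⊆ X
  id : ∀ z ∈ V, τ z = z ∧ τi z = z

/-- the radial map of the disc onto the plane -/
noncomputable def TU_t (r : ℝ) (z : ℂ) : ℂ := ((1 - r) / (1 - max r ‖z‖)) • z

/-- its inverse -/
noncomputable def TU_s (r : ℝ) (w : ℂ) : ℂ := (max r ‖w‖ + 1 - r)⁻¹ • w

theorem TU_t_small {r : ℝ} (hr : r < 1) {z : ℂ} (hz : ‖z‖ ≤ r) : TU_t r z = z := by
  unfold TU_t
  rw [max_eq_left hz, div_self (by linarith), one_smul]

theorem TU_s_small {r : ℝ} {z : ℂ} (hz : ‖z‖ ≤ r) : TU_s r z = z := by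
  unfold TU_s
  rw [max_eq_left hz, show r + 1 - r = 1 by ring, inv_one, one_smul]

theorem TU_s_mem {r : ℝ} (hr : r < 1) (h0 : 0 < r) (w : ℂ) : ‖TU_s r w‖ < 1 := by
  rcases le_total ‖w‖ r with h | h
  · rw [TU_s_small h]; linarith
  · unfold TU_s
    rw [max_eq_right h, norm_smul, norm_inv, Real.norm_eq_abs,
      abs_of_pos (by linarith : 0 < ‖w‖ + 1 - r), inv_mul_lt_iff₀ (by linarith)]
    linarith

theorem TU_left {r : ℝ} (hr : r < 1) (h0 : 0 < r) {z : ℂ} (hz : ‖z‖ < 1) :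
    TU_s r (TU_t r z) = z := by
  rcases le_total ‖z‖ r with h | h
  · rw [TU_t_small hr h, TU_s_small h]
  · have h1 : 0 < 1 - ‖z‖ := by linarith
    have h2 : 0 < 1 - r := by linarith
    have hn : ‖TU_t r z‖ = (1 - r) / (1 - ‖z‖) * ‖z‖ := by
      unfold TU_t
      rw [max_eq_right h, norm_smul, Real.norm_eq_abs, abs_of_pos (by positivity)]
    have hge : r ≤ ‖TU_t r z‖ := by
      rw [hn]
      have : 1 ≤ (1 - r) / (1 - ‖z‖) := by
        rw [one_le_div h1]; linarith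
      nlinarith [norm_nonneg z]
    have e1 : ‖TU_t r z‖ + 1 - r = (1 - r) / (1 - ‖z‖) := by
      rw [hn]
      field_simp
      ring
    unfold TU_s
    rw [max_eq_right hge, e1]
    unfold TU_t
    rw [max_eq_right h, smul_smul, inv_mul_cancel₀ (by positivity), one_smul]

theorem TU_right {r : ℝ} (hr : r < 1) (h0 : 0 < r) (w : ℂ) : TU_t r (TU_s r w) = w := by
  rcases le_total ‖w‖ r with h | h
  · rw [TU_s_small h, TU_t_small hr h]
  · have h1 : 0 < ‖w‖ + 1 - r := by linarith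
    have h2 : 0 < 1 - r := by linarith
    have hn : ‖TU_s r w‖ = ‖w‖ / (‖w‖ + 1 - r) := by
      unfold TU_s
      rw [max_eq_right h, norm_smul, norm_inv, Real.norm_eq_abs, abs_of_pos h1, inv_mul_eq_div]
    have hge : r ≤ ‖TU_s r w‖ := by
      rw [hn, le_div_iff₀ h1]
      nlinarith
    have e1 : (1 - r) / (1 - ‖TU_s r w‖) = ‖w‖ + 1 - r := by
      rw [hn]
      have : 1 - ‖w‖ / (‖w‖ + 1 - r) = (1 - r) / (‖w‖ + 1 - r) := by
        field_simp
        ring
      rw [this]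
      field_simp
    unfold TU_t
    rw [max_eq_right hge, e1]
    unfold TU_s
    rw [max_eq_right h, smul_smul, mul_inv_cancel₀ (by positivity), one_smul]

theorem TU_rad {Y : Set ℂ} (hY : IsCompact Y) (hYX : Y ⊆ ball (0:ℂ) 1) :
    ∃ r : ℝ, 0 < r ∧ r < 1 ∧ Y ⊆ ball 0 r := by
  rcases Y.eq_empty_or_nonempty with rfl | hne
  · exact ⟨1 / 2, by norm_num, by norm_num, empty_subset _⟩
  · obtain ⟨y, hy, hmax⟩ := hY.exists_isMaxOn hne continuous_norm.continuousOn
    have hy1 : ‖y‖ < 1 := by simpa using hYX hy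
    refine ⟨(1 + ‖y‖) / 2, by positivity, by linarith, fun z hz => ?_⟩
    have : ‖z‖ ≤ ‖y‖ := hmax hz
    rw [mem_ball_zero_iff]
    linarith

/-- the exterior of the disc is preconnected -/
theorem TU_ext : IsPreconnected {z : ℂ | 1 ≤ ‖z‖} := by
  have hr : (1 : Cardinal) < Module.rank ℝ ℂ := by
    rw [Complex.rank_real_complex]; norm_num
  have h0 := (isConnected_compl_singleton_of_one_lt_rank hr (0:ℂ)).isPreconnected
  have hc : ContinuousOn (fun z : ℂ => (max 1 ‖z‖ / ‖z‖) • z) {0}ᶜ := by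
    have h1 : ContinuousOn (fun z : ℂ => max 1 ‖z‖ / ‖z‖) {0}ᶜ := by
      refine ContinuousOn.div (continuous_const.max continuous_norm).continuousOn
        continuous_norm.continuousOn fun z hz => ?_
      exact norm_ne_zero_iff.mpr hz
    exact h1.smul continuousOn_id
  have h2 := h0.image _ hc
  have : (fun z : ℂ => (max 1 ‖z‖ / ‖z‖) • z) '' {0}ᶜ = {z : ℂ | 1 ≤ ‖z‖} := by
    ext z
    constructor
    · rintro ⟨w, hw, rfl⟩
      have hw0 : 0 < ‖w‖ := norm_pos_iff.mpr hw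
      change (1:ℝ) ≤ ‖(max 1 ‖w‖ / ‖w‖) • w‖
      rw [norm_smul, Real.norm_of_nonneg (by positivity), div_mul_cancel₀ _ hw0.ne']
      exact le_max_left _ _
    · intro hz
      have hz1 : (1:ℝ) ≤ ‖z‖ := hz
      refine ⟨z, ?_, ?_⟩
      · intro h
        rw [mem_singleton_iff] at h
        rw [h, norm_zero] at hz1
        linarith
      · simp only
        rw [max_eq_right hz1, div_self (by linarith), one_smul]
  rwa [this] at h2

theorem exists_tau {X Y : Set ℂ} (hX : X = univ ∨ X = ball (0:ℂ) 1) (hY : IsCompact Y)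
    (hYX : Y ⊆ X) : ∃ τ τi V, Tau X Y τ τi V := by
  rcases hX with rfl | rfl
  · exact ⟨fun z => z, fun z => z, univ, ⟨continuousOn_id, continuous_id, fun z => mem_univ _,
      fun z _ => rfl, fun z => rfl, isOpen_univ, subset_univ _, subset_univ _,
      fun z _ => ⟨rfl, rfl⟩⟩⟩
  · obtain ⟨r, hr0, hr1, hYr⟩ := TU_rad hY hYX
    refine ⟨TU_t r, TU_s r, ball 0 r, ⟨?_, ?_, ?_, ?_, TU_right hr1 hr0, isOpen_ball, hYr,
      ball_subset_ball hr1.le, ?_⟩⟩
    · intro z hz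
      rw [mem_ball_zero_iff] at hz
      have hpos : 1 - max r ‖z‖ ≠ 0 := by
        have : max r ‖z‖ < 1 := max_lt hr1 hz
        linarith
      have h1 : ContinuousAt (fun z : ℂ => 1 - max r ‖z‖) z :=
        (continuous_const.sub (continuous_const.max continuous_norm)).continuousAt
      have h2 : ContinuousAt (fun z : ℂ => (1 - r) / (1 - max r ‖z‖)) z :=
        ContinuousAt.div continuousAt_const h1 hpos
      have : ContinuousAt (TU_t r) z := h2.smul (continuousAt_id (x := z))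
      exact this.continuousWithinAt
    · have h1 : Continuous (fun w : ℂ => max r ‖w‖ + 1 - r) :=
        ((continuous_const.max continuous_norm).add continuous_const).sub continuous_const
      have h2 : Continuous (fun w : ℂ => (max r ‖w‖ + 1 - r)⁻¹) := by
        refine h1.inv₀ fun w => ?_
        have : r ≤ max r ‖w‖ := le_max_left _ _
        have : 0 < max r ‖w‖ + 1 - r := by linarith
        exact this.ne'
      exact h2.smul continuous_id
    · intro z
      rw [mem_ball_zero_iff]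
      exact TU_s_mem hr1 hr0 z
    · intro z hz
      exact TU_left hr1 hr0 (by simpa using hz)
    · intro z hz
      rw [mem_ball_zero_iff] at hz
      exact ⟨TU_t_small hr1 hz.le, TU_s_small hz.le⟩

section
variable {S : Type} [MetricSpace S] {X : Set ℂ} {Γ : Type} [Group Γ]
  {A : Γ → ℂ → ℂ} {p : ℂ → S} {g gi : S → S} {G Gi : ℂ → ℂ} {θ : Γ ≃* Γ} {ρ : ℂ → ℝ}
  {U : Set ℂ} {N : Subgroup Γ}

theorem island_top (D : Deck X A p) (M : Dom X A p g G U N) {Y : Set ℂ} (hY : Island X U Y) :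
    IsCompact Y ∧ IsConnected Y ∧ Y ⊆ X ∧ IsConnected Yᶜ := by
  obtain ⟨hc, hsub, -⟩ := hY.basic
  have hYX : Y ⊆ X := fun y hy => (hsub hy).1
  obtain ⟨x, hx, hYx⟩ := hY.comp
  have hXc : X = univ ∨ X = ball (0:ℂ) 1 := by
    rcases D.hX with h | h
    · exact Or.inl h.1
    · exact Or.inr h.1
  have hXpre : IsPreconnected X := by
    rcases hXc with rfl | rfl
    · exact isPreconnected_univ
    · exact (convex_ball (0:ℂ) 1).isPreconnected
  have hpre : IsPreconnected (X \ Y) := by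
    refine compl_component hXpre M.conn.isPreconnected M.conn.nonempty M.sub hc.isPreconnected
      hsub ?_
    intro C hC hCp hCK
    rw [hYx] at hCK ⊢
    exact auxTB_max x C hC hCp hCK
  have hUY : ∀ u ∈ U, u ∈ Yᶜ := fun u hu hy => (hsub hy).2 hu
  obtain ⟨u, hu⟩ := M.conn.nonempty
  refine ⟨hY.cpt, hc, hYX, ⟨u, hUY u hu⟩, ?_⟩
  rcases hXc with rfl | rfl
  · rwa [compl_eq_univ_sdiff]
  · -- the disc
    obtain ⟨r, hr0, hr1, hYr⟩ := TU_rad hY.cpt hYX
    have h1cl : (1:ℂ) ∈ closure (ball (0:ℂ) 1 \ Y) := by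
      rw [Metric.mem_closure_iff]
      intro ε hε
      set t : ℝ := max r (1 - ε / 2)
      have ht0 : 0 < t := lt_of_lt_of_le hr0 (le_max_left _ _)
      have ht1 : t < 1 := max_lt hr1 (by linarith)
      have htr : r ≤ t := le_max_left _ _
      have hte : 1 - ε / 2 ≤ t := le_max_right _ _
      refine ⟨(t : ℂ), ⟨?_, ?_⟩, ?_⟩
      · rw [mem_ball_zero_iff, Complex.norm_real, Real.norm_of_nonneg ht0.le]
        exact ht1
      · intro h
        have := hYr h
        rw [mem_ball_zero_iff, Complex.norm_real, Real.norm_of_nonneg ht0.le] at this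
        linarith
      · rw [dist_eq_norm, show (1:ℂ) - (t:ℂ) = ((1 - t : ℝ) : ℂ) by push_cast; ring,
          Complex.norm_real, Real.norm_of_nonneg (by linarith)]
        linarith
    have hA : IsPreconnected ((ball (0:ℂ) 1 \ Y) ∪ {1}) := by
      refine hpre.subset_closure subset_union_left ?_
      rintro z (hz | hz)
      · exact subset_closure hz
      · rw [mem_singleton_iff] at hz
        rw [hz]
        exact h1cl
    have hu2 := IsPreconnected.union (1:ℂ) (Or.inr (mem_singleton (1:ℂ)))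
      (show (1:ℂ) ∈ {z : ℂ | 1 ≤ ‖z‖} by simp) hA TU_ext
    have : Yᶜ = ((ball (0:ℂ) 1 \ Y) ∪ {1}) ∪ {z : ℂ | 1 ≤ ‖z‖} := by
      ext z
      constructor
      · intro hz
        by_cases h : ‖z‖ < 1
        · exact Or.inl (Or.inl ⟨by simpa using h, hz⟩)
        · exact Or.inr (not_lt.mp h)
      · rintro ((hz | hz) | hz) hzY
        · exact hz.2 hzY
        · rw [mem_singleton_iff] at hz
          have := hYX hzY
          rw [hz] at this
          simp at this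
        · have h1 := hYX hzY
          rw [mem_ball_zero_iff] at h1
          exact absurd hz (not_le.mpr h1)
    rw [this]
    exact hu2

theorem tau_lift (D : Deck X A p) (L : Lift X A p g gi G Gi θ ρ) {Y V : Set ℂ} {τ τi : ℂ → ℂ}
    (hT : Tau X Y τ τi V) {O : S2} {pp : S2 → ℂ} {q : ℂ → S2} (hS : SC O pp q) :
    ∃ gs gsi : S2 → S2, Continuous gs ∧ Continuous gsi ∧ (∀ x, gsi (gs x) = x) ∧
      (∀ x, gs (gsi x) = x) ∧ (∀ z ∈ X, gs (q (τ z)) = q (τ (G z))) ∧
      ∀ z ∈ X, gsi (q (τ z)) = q (τ (Gi z)) := by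
  have c1 : Continuous (fun z => τ (G (τi z))) :=
    hT.cτ.comp_continuous (L.c1.continuousOn.comp_continuous hT.cτi hT.mτi)
      fun z => L.mG (hT.mτi z)
  have c2 : Continuous (fun z => τ (Gi (τi z))) :=
    hT.cτ.comp_continuous (L.c1i.continuousOn.comp_continuous hT.cτi hT.mτi)
      fun z => L.mGi (hT.mτi z)
  have h1 : ∀ z, τ (Gi (τi (τ (G (τi z))))) = z := by
    intro z
    rw [hT.left _ (L.mG (hT.mτi z)), L.GiG _ (hT.mτi z), hT.right]
  have h2 : ∀ z, τ (G (τi (τ (Gi (τi z))))) = z := by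
    intro z
    rw [hT.left _ (L.mGi (hT.mτi z)), L.GGi _ (hT.mτi z), hT.right]
  obtain ⟨gs, gsi, k1, k2, k3, k4, -, -, k5, k6, -, -⟩ := DG.sphere_ext hS c1 c2 h1 h2
  refine ⟨gs, gsi, k1, k2, k3, k4, fun z hz => ?_, fun z hz => ?_⟩
  · rw [k5, hT.left z hz]
  · rw [k6, hT.left z hz]

end

end CV

end S_H36_DG_TU

section S_H36_DG_LLa

/-!
LLa (lifts: composition with deck transformations, powers, inverse).
`Deck.fd`: `A c` is `x ↦ x + l` or `mob u b`, `‖u‖ = 1`, `‖b‖ < 1`; by `Deck.hol` it is holomorphic on the open set `X`, with inverse `A c⁻¹`, so the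
derivative is not zero (chain rule for `A c⁻¹ (A c y) = y` near `x`); the real derivative is the multiplication by `deriv (A c) x`, whose
determinant is `‖·‖ ^ 2` (`LA_det` in Pool/Agent/H36/DS/LA.lean).
`Lift.mul`: `equi`: `A c (G (A d x)) = A c (A (θ d) (G x)) = A (c * θ d) (G x) = A (c * θ d * c⁻¹) (A c (G x))` (`Deck.mul`); `lift`: `Deck.fibre`;
`area`: chain rule, `ρinv` and `Deck.fd`.  `Lift.pow`: induction on `n` (`θn = ` the composition of `n` copies of `θ`), using `Lift.iter` (DK); for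
`area` the chain rule.  `Lift.symm`: `Lift.equi_inv` (DK); `lift`: `g (p (Gi x)) = p (G (Gi x)) = p x`; `area` at `Gi x` and
`det (DG (Gi x)) * det (DGi x) = 1`.
-/

namespace CV

open Metric Set Filter Topology Function DS TN

section
variable {S : Type} [MetricSpace S] {X : Set ℂ} {Γ : Type} [Group Γ]
  {A : Γ → ℂ → ℂ} {p : ℂ → S} {g gi : S → S} {G Gi : ℂ → ℂ} {θ : Γ ≃* Γ} {ρ : ℂ → ℝ}

theorem LLa_fd {f : ℂ → ℂ} {d x : ℂ} (h : HasDerivAt f d x) :
    HasFDerivAt f ((ContinuousLinearMap.toSpanSingleton ℂ d).restrictScalars ℝ : ℂ →L[ℝ] ℂ) x :=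
  h.hasFDerivAt.restrictScalars ℝ

theorem Deck.fd (D : Deck X A p) (c : Γ) {x : ℂ} (hx : x ∈ X) :
    HasDerivAt (A c) (deriv (A c) x) x ∧ deriv (A c) x ≠ 0 ∧
      (fderiv ℝ (A c) x).det = ‖deriv (A c) x‖ ^ 2 ∧
      ∀ w, fderiv ℝ (A c) x w = deriv (A c) x * w := by
  have h1 : HasDerivAt (A c) (deriv (A c) x) x :=
    ((D.hol c).differentiableAt (D.opn.mem_nhds hx)).hasDerivAt
  have h2 : HasDerivAt (A c⁻¹) (deriv (A c⁻¹) (A c x)) (A c x) :=
    ((D.hol c⁻¹).differentiableAt (D.opn.mem_nhds (D.maps c hx))).hasDerivAt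
  have h3 : HasDerivAt (fun y => A c⁻¹ (A c y)) (deriv (A c⁻¹) (A c x) * deriv (A c) x) x :=
    h2.comp x h1
  have h4 : (fun y => A c⁻¹ (A c y)) =ᶠ[𝓝 x] id := by
    filter_upwards [D.opn.mem_nhds hx] with y hy
    exact D.inv_left c hy
  have h5 : HasDerivAt (fun y => A c⁻¹ (A c y)) 1 x := (hasDerivAt_id x).congr_of_eventuallyEq h4
  have h6 := h3.unique h5
  have h7 := (LLa_fd h1).fderiv
  refine ⟨h1, ?_, ?_, ?_⟩
  · intro h0
    rw [h0, mul_zero] at h6
    exact zero_ne_one h6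
  · rw [h7, LA_det]
  · intro w
    rw [h7]
    simp [mul_comm]

theorem LLa_detid : (ContinuousLinearMap.id ℝ ℂ).det = 1 := by
  show LinearMap.det (LinearMap.id : ℂ →ₗ[ℝ] ℂ) = 1
  exact LinearMap.det_id

theorem LLa_smooth (D : Deck X A p) (c : Γ) : ContDiffOn ℝ 1 (A c) X :=
  ((D.hol c).contDiffOn D.opn).restrict_scalars ℝ

theorem Lift.mul (D : Deck X A p) (L : Lift X A p g gi G Gi θ ρ) (c : Γ) :
    Lift X A p g gi (fun x => A c (G x)) (fun x => Gi (A c⁻¹ x)) (θ.trans (MulAut.conj c)) ρ where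
  cg := L.cg
  cgi := L.cgi
  ggi := L.ggi
  gig := L.gig
  mG := (D.maps c).comp L.mG
  mGi := L.mGi.comp (D.maps c⁻¹)
  GiG := by
    intro x hx
    show Gi (A c⁻¹ (A c (G x))) = x
    rw [D.inv_left c (L.mG hx), L.GiG x hx]
  GGi := by
    intro x hx
    show A c (G (Gi (A c⁻¹ x))) = x
    rw [L.GGi _ (D.maps c⁻¹ hx), D.inv_right c hx]
  c1 := (LLa_smooth D c).comp L.c1 L.mG
  c1i := L.c1i.comp (LLa_smooth D c⁻¹) (D.maps c⁻¹)
  equi := by
    intro d x hx
    show A c (G (A d x)) = A (c * θ d * c⁻¹) (A c (G x))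
    rw [L.equi d x hx, ← D.mul c _ _ (L.mG hx), ← D.mul _ c _ (L.mG hx), inv_mul_cancel_right]
  lift := by
    intro x hx
    show p (A c (G x)) = g (p x)
    rw [D.fibre c (L.mG hx), L.lift x hx]
  ρc := L.ρc
  ρpos := L.ρpos
  ρinv := L.ρinv
  area := by
    intro x hx
    have hG : HasFDerivAt G (fderiv ℝ G x) x :=
      ((L.c1.differentiableOn one_ne_zero).differentiableAt (D.opn.mem_nhds hx)).hasFDerivAt
    obtain ⟨h1, -, h3, -⟩ := D.fd c (L.mG hx)
    have hA : HasFDerivAt (A c) (fderiv ℝ (A c) (G x)) (G x) :=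
      (LLa_fd h1).differentiableAt.hasFDerivAt
    have h4 := (hA.comp x hG).fderiv
    have h5 : fderiv ℝ (fun x => A c (G x)) x = (fderiv ℝ (A c) (G x)).comp (fderiv ℝ G x) := h4
    show ρ (A c (G x)) * (fderiv ℝ (fun x => A c (G x)) x).det = ρ x
    rw [h5]
    have h6 : ((fderiv ℝ (A c) (G x)).comp (fderiv ℝ G x)).det =
        (fderiv ℝ (A c) (G x)).det * (fderiv ℝ G x).det := by
      simp only [ContinuousLinearMap.det, ContinuousLinearMap.toLinearMap_comp]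
      exact LinearMap.det_comp _ _
    rw [h6, h3, ← mul_assoc, L.ρinv c _ (L.mG hx), L.area x hx]

theorem Lift.pow (D : Deck X A p) (L : Lift X A p g gi G Gi θ ρ) (n : ℕ) :
    ∃ θn : Γ ≃* Γ, (∀ d, θn d = θ^[n] d) ∧
      Lift X A p (g^[n]) (gi^[n]) (G^[n]) (Gi^[n]) θn ρ := by
  induction n with
  | zero =>
    refine ⟨MulEquiv.refl Γ, fun d => rfl, ?_⟩
    constructor
    · exact continuous_id
    · exact continuous_id
    · intro s; rfl
    · intro s; rfl
    · exact mapsTo_id X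
    · exact mapsTo_id X
    · intro x _; rfl
    · intro x _; rfl
    · exact contDiffOn_id
    · exact contDiffOn_id
    · intro c x _; rfl
    · intro x _; rfl
    · exact L.ρc
    · exact L.ρpos
    · exact L.ρinv
    · intro x _
      show ρ x * (fderiv ℝ id x).det = ρ x
      rw [fderiv_id, LLa_detid, mul_one]
  | succ n ih =>
    obtain ⟨θn, hθ, M⟩ := ih
    obtain ⟨i1, i2, i3, i4, i5, i6, i7, i8⟩ := L.iter (n + 1)
    refine ⟨θn.trans θ, ?_, ?_⟩
    · intro d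
      rw [iterate_succ_apply']
      show θ (θn d) = _
      rw [hθ]
    · constructor
      · rw [iterate_succ']; exact L.cg.comp M.cg
      · rw [iterate_succ']; exact L.cgi.comp M.cgi
      · intro s
        rw [iterate_succ_apply, iterate_succ_apply', L.ggi, M.ggi]
      · intro s
        rw [iterate_succ_apply, iterate_succ_apply', L.gig, M.gig]
      · exact i1
      · exact i2
      · exact i3
      · exact i4
      · exact i5
      · exact i6
      · intro c x hx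
        rw [i7 c x hx]
        congr 1
        rw [iterate_succ_apply']
        show θ _ = θ (θn c)
        rw [hθ]
      · exact i8
      · exact L.ρc
      · exact L.ρpos
      · exact L.ρinv
      · intro x hx
        have hG : HasFDerivAt G (fderiv ℝ G (G^[n] x)) (G^[n] x) :=
          ((L.c1.differentiableOn one_ne_zero).differentiableAt
            (D.opn.mem_nhds (M.mG hx))).hasFDerivAt
        have hGn : HasFDerivAt (G^[n]) (fderiv ℝ (G^[n]) x) x :=
          ((M.c1.differentiableOn one_ne_zero).differentiableAt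
            (D.opn.mem_nhds hx)).hasFDerivAt
        have h4 := (hG.comp x hGn).fderiv
        rw [← iterate_succ'] at h4
        rw [h4]
        have h6 : ((fderiv ℝ G (G^[n] x)).comp (fderiv ℝ (G^[n]) x)).det =
            (fderiv ℝ G (G^[n] x)).det * (fderiv ℝ (G^[n]) x).det := by
          simp only [ContinuousLinearMap.det, ContinuousLinearMap.toLinearMap_comp]
          exact LinearMap.det_comp _ _
        rw [h6, iterate_succ_apply', ← mul_assoc, L.area _ (M.mG hx), M.area x hx]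

theorem Lift.symm (D : Deck X A p) (L : Lift X A p g gi G Gi θ ρ) :
    Lift X A p gi g Gi G θ.symm ρ where
  cg := L.cgi
  cgi := L.cg
  ggi := L.gig
  gig := L.ggi
  mG := L.mGi
  mGi := L.mG
  GiG := L.GGi
  GGi := L.GiG
  c1 := L.c1i
  c1i := L.c1
  equi := by
    intro c x hx
    have h1 := L.equi_inv D (θ.symm c) hx
    rw [MulEquiv.apply_symm_apply] at h1
    exact h1
  lift := by
    intro x hx
    have h1 := L.lift (Gi x) (L.mGi hx)
    rw [L.GGi x hx] at h1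
    rw [h1, L.gig]
  ρc := L.ρc
  ρpos := L.ρpos
  ρinv := L.ρinv
  area := by
    intro x hx
    have hG : HasFDerivAt G (fderiv ℝ G (Gi x)) (Gi x) :=
      ((L.c1.differentiableOn one_ne_zero).differentiableAt
        (D.opn.mem_nhds (L.mGi hx))).hasFDerivAt
    have hGi : HasFDerivAt Gi (fderiv ℝ Gi x) x :=
      ((L.c1i.differentiableOn one_ne_zero).differentiableAt (D.opn.mem_nhds hx)).hasFDerivAt
    have h4 := hG.comp x hGi
    have h5 : (G ∘ Gi) =ᶠ[𝓝 x] id := by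
      filter_upwards [D.opn.mem_nhds hx] with y hy
      exact L.GGi y hy
    have h6 := (hasFDerivAt_id (𝕜 := ℝ) x).congr_of_eventuallyEq h5
    have h7 := h4.unique h6
    have h8 : (fderiv ℝ G (Gi x)).det * (fderiv ℝ Gi x).det = 1 := by
      have h9 : ((fderiv ℝ G (Gi x)).comp (fderiv ℝ Gi x)).det =
          (fderiv ℝ G (Gi x)).det * (fderiv ℝ Gi x).det := by
        simp only [ContinuousLinearMap.det, ContinuousLinearMap.toLinearMap_comp]
        exact LinearMap.det_comp _ _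
      rw [← h9, h7, LLa_detid]
    have h10 := L.area (Gi x) (L.mGi hx)
    rw [L.GGi x hx] at h10
    rw [← h10, mul_assoc, h8, mul_one]

end

end CV

end S_H36_DG_LLa

section S_H36_DG_MA

/-!
MA (the invariant measure on `X`).  `mX X ρ B = ∫⁻ x in B ∩ X, ofReal (ρ x)` for measurable `B` (`withDensity_apply`, `Measure.restrict_apply`).
`mX_G`: `G` is injective and differentiable on the measurable set `B ⊆ X` (`X` open): `G '' B` is measurable (`MeasureTheory.measurable_image_of_fderivWithin` or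
`MeasurableSet.image_of_continuousOn_injOn`), and the change of variables formula (`lintegral_image_eq_lintegral_abs_det_fderiv_mul`) gives
`∫⁻ y in G '' B, ofReal (ρ y) = ∫⁻ x in B, ofReal |det DG x| * ofReal (ρ (G x)) = ∫⁻ x in B, ofReal (ρ x)` (`area`; `det DG x > 0`).  The same for `A c` with `ρinv` and `Deck.fd`.
`mX_pos`: `ρ > 0` on the open nonempty set `B`, `volume B > 0` (`withDensity` positive: `lintegral_pos_iff_support` or a small ball on which `ρ ≥ ε`).  `mX_cpt`: `ρ` is bounded on `C`.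
-/

namespace CV

open Metric Set Filter Topology Function DS TN MeasureTheory

section
variable {S : Type} [MetricSpace S] {X : Set ℂ} {Γ : Type} [Group Γ]
  {A : Γ → ℂ → ℂ} {p : ℂ → S} {g gi : S → S} {G Gi : ℂ → ℂ} {θ : Γ ≃* Γ} {ρ : ℂ → ℝ}

omit [MetricSpace S] in
theorem MA_apply {B : Set ℂ} (hBX : B ⊆ X) (hB : MeasurableSet B) :
    mX X ρ B = ∫⁻ x in B, ENNReal.ofReal (ρ x) := by
  unfold mX
  rw [Measure.restrict_apply hB, inter_eq_left.2 hBX, withDensity_apply _ hB]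

theorem MA_gen {T : ℂ → ℂ} {T' : ℂ → ℂ →L[ℝ] ℂ} {B : Set ℂ}
    (hB : MeasurableSet B) (hT : ∀ x ∈ B, HasFDerivWithinAt T (T' x) B x) (hi : InjOn T B)
    (hm : MapsTo T B X) :
    MeasurableSet (T '' B) ∧
      mX X ρ (T '' B) = ∫⁻ x in B, ENNReal.ofReal (|(T' x).det|) * ENNReal.ofReal (ρ (T x)) := by
  have h1 := measurable_image_of_fderivWithin hB hT hi
  refine ⟨h1, ?_⟩
  rw [MA_apply (hm.image_subset) h1, lintegral_image_eq_lintegral_abs_det_fderiv_mul _ hB hT hi]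

theorem MA_gen2 {T : ℂ → ℂ} {T' : ℂ → ℂ →L[ℝ] ℂ} {B : Set ℂ} (hBX : B ⊆ X)
    (hB : MeasurableSet B) (hT : ∀ x ∈ B, HasFDerivWithinAt T (T' x) B x) (hi : InjOn T B)
    (hm : MapsTo T B X) (hρ : ∀ x ∈ B, |(T' x).det| * ρ (T x) = ρ x) :
    MeasurableSet (T '' B) ∧ mX X ρ (T '' B) = mX X ρ B := by
  obtain ⟨h1, h2⟩ := MA_gen (ρ := ρ) hB hT hi hm
  refine ⟨h1, ?_⟩
  rw [h2, MA_apply hBX hB]
  refine setLIntegral_congr_fun hB fun x hx => ?_
  rw [← ENNReal.ofReal_mul (abs_nonneg _), hρ x hx]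

theorem mX_G (D : Deck X A p) (L : Lift X A p g gi G Gi θ ρ) {B : Set ℂ} (hBX : B ⊆ X)
    (hB : MeasurableSet B) : MeasurableSet (G '' B) ∧ mX X ρ (G '' B) = mX X ρ B := by
  refine MA_gen2 (T' := fun x => fderiv ℝ G x) hBX hB (fun x hx => ?_) ?_ (L.mG.mono_left hBX)
    fun x hx => ?_
  · have h1 : ContDiffAt ℝ 1 G x := L.c1.contDiffAt (D.opn.mem_nhds (hBX hx))
    exact (h1.differentiableAt one_ne_zero).hasFDerivAt.hasFDerivWithinAt
  · intro x hx y hy h
    rw [← L.GiG x (hBX hx), h, L.GiG y (hBX hy)]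
  · have h1 := L.area x (hBX hx)
    have h2 := L.ρpos x (hBX hx)
    have h3 := L.ρpos _ (L.mG (hBX hx))
    have h4 : 0 < (fderiv ℝ G x).det := by
      rw [← h1] at h2
      exact pos_of_mul_pos_right h2 h3.le
    rw [abs_of_pos h4, mul_comm]
    exact h1

theorem mX_A (D : Deck X A p) (L : Lift X A p g gi G Gi θ ρ) (c : Γ) {B : Set ℂ} (hBX : B ⊆ X)
    (hB : MeasurableSet B) : MeasurableSet (A c '' B) ∧ mX X ρ (A c '' B) = mX X ρ B := by
  refine MA_gen2 (T' := fun x => fderiv ℝ (A c) x) hBX hB (fun x hx => ?_)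
    ((D.inj c).mono hBX) ((D.maps c).mono_left hBX) fun x hx => ?_
  · exact ((D.fd c (hBX hx)).1.differentiableAt.restrictScalars ℝ).hasFDerivAt.hasFDerivWithinAt
  · rw [(D.fd c (hBX hx)).2.2.1, abs_of_nonneg (by positivity), mul_comm]
    exact L.ρinv c x (hBX hx)

theorem mX_pos (D : Deck X A p) (L : Lift X A p g gi G Gi θ ρ) {B : Set ℂ} (hBX : B ⊆ X)
    (hB : IsOpen B) (hn : B.Nonempty) : 0 < mX X ρ B := by
  obtain ⟨x, hx⟩ := hn
  have hρ := L.ρpos x (hBX hx)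
  have hc : ContinuousAt ρ x := L.ρc.continuousAt (D.opn.mem_nhds (hBX hx))
  have h1 : ∀ᶠ y in 𝓝 x, ρ x / 2 < ρ y := hc.eventually_const_lt (by linarith)
  obtain ⟨r, hr, hball⟩ := Metric.mem_nhds_iff.1 (inter_mem h1 (hB.mem_nhds hx))
  have h2 : ball x r ⊆ B := fun y hy => (hball hy).2
  rw [MA_apply hBX hB.measurableSet]
  have h3 : ENNReal.ofReal (ρ x / 2) * volume (ball x r) ≤ ∫⁻ y in B, ENNReal.ofReal (ρ y) := by
    rw [← setLIntegral_const]
    refine (setLIntegral_mono' measurableSet_ball fun y hy => ?_).trans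
      (lintegral_mono_set h2)
    exact ENNReal.ofReal_le_ofReal (hball hy).1.le
  refine lt_of_lt_of_le ?_ h3
  exact ENNReal.mul_pos (by simpa using by linarith) (measure_ball_pos _ _ hr).ne'

theorem mX_cpt (D : Deck X A p) (L : Lift X A p g gi G Gi θ ρ) {C : Set ℂ} (hC : IsCompact C)
    (hCX : C ⊆ X) : mX X ρ C < ⊤ := by
  have _ := D
  obtain ⟨M, hM⟩ := hC.exists_bound_of_continuousOn (L.ρc.mono hCX)
  rw [MA_apply hCX hC.measurableSet]
  have h1 : ∫⁻ x in C, ENNReal.ofReal (ρ x) ≤ ENNReal.ofReal M * volume C := by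
    rw [← setLIntegral_const]
    refine setLIntegral_mono' hC.measurableSet fun x hx => ?_
    exact ENNReal.ofReal_le_ofReal ((le_abs_self _).trans (hM x hx))
  exact lt_of_le_of_lt h1 (ENNReal.mul_lt_top ENNReal.ofReal_lt_top hC.measure_lt_top)

/-- holomorphic change of variables -/
theorem mX_hol (D : Deck X A p) (L : Lift X A p g gi G Gi θ ρ) {ψ : ℂ → ℂ} {B : Set ℂ}
    (hB : IsOpen B) (hψ : DifferentiableOn ℂ ψ B) (hi : InjOn ψ B) (hm : MapsTo ψ B X) :
    ∫⁻ z in B, ENNReal.ofReal ((√(ρ (ψ z)) * ‖deriv ψ z‖) ^ 2) = mX X ρ (ψ '' B) := by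
  have _ := D
  have hd : ∀ x ∈ B, HasDerivAt ψ (deriv ψ x) x := fun x hx =>
    (hψ.differentiableAt (hB.mem_nhds hx)).hasDerivAt
  have h1 : ∀ x ∈ B, HasFDerivWithinAt ψ
      ((ContinuousLinearMap.toSpanSingleton ℂ (deriv ψ x)).restrictScalars ℝ) B x := by
    intro x hx
    exact ((hd x hx).hasFDerivAt.restrictScalars ℝ).hasFDerivWithinAt
  have h2 := measurable_image_of_fderivWithin hB.measurableSet h1 hi
  rw [MA_apply hm.image_subset h2,
    lintegral_image_eq_lintegral_abs_det_fderiv_mul _ hB.measurableSet h1 hi]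
  refine setLIntegral_congr_fun hB.measurableSet fun x hx => ?_
  have h3 : (((ContinuousLinearMap.toSpanSingleton ℂ (deriv ψ x)).restrictScalars ℝ)).det
      = ‖deriv ψ x‖ ^ 2 := LA_det _
  rw [h3, abs_of_nonneg (by positivity), ← ENNReal.ofReal_mul (by positivity), mul_pow,
    Real.sq_sqrt (L.ρpos _ (hm hx)).le, mul_comm]

end

end CV

end S_H36_DG_MA

section S_H36_DG_INb

/-!
INb: `in_meas`, see the parts `hν`, `hpos`, `hfin` below.  (no fixed prime end of the exterior of an invariant nontrivial island).  Apply `no_fixed_end` (DS/JF) with `K = q '' Y`, `E = sphere 0 1`, `g = gs`, `gi = gsi`, `ν = Measure.map (fun x => q (τ x)) (mX X ρ)` (`q ∘ τ` is measurable on `X`: `ContinuousOn.aemeasurable`),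
`SP = SPS X p g Hyp (fun x => q (τ x))`.  Facts: `τ = id` on `V ⊇ Y`, so `gs '' (q '' Y) = q '' Y` by `G '' Y = Y`.
`hν`: `{x ∈ X | q (τ x) ∈ gs '' B} = G '' {x ∈ X | q (τ x) ∈ B}` (`gs`, `gsi` inverse, `gsi (q (τ x)) = q (τ (Gi x))`), `mX_G`.  `hpos`: a nonempty open `O'` of the sphere contains some `q z` (`z = τ (τi z)`): the open set `{x ∈ X | q (τ x) ∈ O'}` is nonempty (a nonempty open set is not
`{O}`: `p_lim`/`q_lim`, or use `O' \ {O}`; the sphere has no isolated point; see `XB`/`TBase`), `mX_pos`.  `hSP`: `spx_back`.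
`hfin`: let `V₁` be open, `Y ⊆ V₁`, `closure V₁` compact, in `V`; `S2 \ q '' V₁` is compact in `Kᶜ`, its image under `u` is compact in `ball 0 1`, so it is in `closedBall 0 ρ'`, `ρ' < 1`; then `φ '' (ball 0 1 ∩ ball ζ (1 - ρ')) ⊆ q '' V₁`, of measure `≤ mX X ρ (closure V₁) < ⊤`
(`mX_cpt`; `τ = id` on `V`; `q (τ x) ∈ q '' V₁` implies `τ x ∈ V₁`, `x = τi (τ x) ∈ V₁`).
`hloc`: `m > 0`, `hb^[m] ζ = ζ`: the maps `hb^[m]`, `hbi^[m]` are an `EndMap` for `gs^[m]`, `gsi^[m]` (`endMap_iter`, DS/HB).  `exists_principal` (DS/XC): `P₁ ∈ K`, `Principal φ ζ P₁`; `P₁ = q P`, `P ∈ Y`.  `gs^[m] P₁ = P₁`: as in `SL_fix` (DS/SL; its proof: `fixPE_of`, `near_fixed`, needs a `PChart`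
with `P' ∈ K`, `P' ≠ P₁`: `pole_chart` in DG/GE; `Y` is nontrivial).  So `q (G^[m] P) = q P`, `G^[m] P = P` (`G^[i] P ∈ Y ⊆ V`).  With `Lift.pow`, `Cond.pow`, `Dom.pow`: `Cond.one`, then `ell_end` or `hyp_end` for `gs^[m]`, `G^[m]`, on the open set `V' = {z ∈ V | G^[i] z ∈ V for i ≤ m}`
(there `gs^[m] (q z) = q (G^[m] z)`), `j = q ∘ τ`, `K = q '' Y`, `P' ∈ K`, `hKc`: a connected `T ⊆ X \ U` that meets `Y` is contained in `Y` (`Y` is a component).  `spx_pow`; `(gs^[m])^[2] = gs^[2 * m]`.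
`hnext`: `E = sphere 0 1`.
-/

namespace CV

open Metric Set Filter Topology Function DS TN MeasureTheory

/-- a closed ball of radius less than one contains a compact subset of the open unit disc -/
theorem INb_ball {C : Set ℂ} (hC : IsCompact C) (hC1 : C ⊆ ball (0:ℂ) 1) :
    ∃ r < 1, 0 ≤ r ∧ ∀ z ∈ C, ‖z‖ ≤ r := by
  rcases C.eq_empty_or_nonempty with h0 | h0
  · exact ⟨0, one_pos, le_rfl, fun z hz => absurd hz (by rw [h0]; simp)⟩
  · obtain ⟨z₀, hz₀, hmax⟩ := hC.exists_isMaxOn h0 continuous_norm.continuousOn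
    refine ⟨‖z₀‖, by simpa using hC1 hz₀, norm_nonneg _, fun z hz => hmax hz⟩

/-- the preimage of a measurable set in `X` -/
theorem INb_ms {X : Set ℂ} (hX : MeasurableSet X) {j : ℂ → S2} (hj : ContinuousOn j X) {B : Set S2}
    (hB : MeasurableSet B) : MeasurableSet (X ∩ j ⁻¹' B) := by
  have h1 : MeasurableSet {x : X | j x ∈ B} :=
    (continuousOn_iff_continuous_domRestrict.1 hj).measurable hB
  have h2 := hX.subtype_image h1
  convert h2 using 1
  ext x
  simp [and_comm]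

section
variable {S : Type} [MetricSpace S] [CompactSpace S] {X : Set ℂ} {Γ : Type} [Group Γ]
  {A : Γ → ℂ → ℂ} {p : ℂ → S} {g gi : S → S} {G Gi : ℂ → ℂ} {θ : Γ ≃* Γ} {ρ : ℂ → ℝ}
  {Hyp : S → Prop} {U : Set ℂ} {N : Subgroup Γ}

theorem in_meas (D : Deck X A p) (L : Lift X A p g gi G Gi θ ρ)
    (M : Dom X A p g G U N) {Y : Set ℂ} (hY : Island X U Y) {O : S2} {pp : S2 → ℂ} {q : ℂ → S2}
    (hS : SC O pp q) {τ τi : ℂ → ℂ} {V : Set ℂ} (hT : Tau X Y τ τi V) {gs gsi : S2 → S2}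
    (hgig : ∀ x, gsi (gs x) = x) (hggi : ∀ x, gs (gsi x) = x)
    (hgs : ∀ z ∈ X, gs (q (τ z)) = q (τ (G z)))
    (hgsi : ∀ z ∈ X, gsi (q (τ z)) = q (τ (Gi z))) {φ : ℂ → S2} {u : S2 → ℂ}
    (hD : DiscMap (q '' Y) φ u) :
    ∃ ν : Measure S2, (∀ B, MeasurableSet B → MeasurableSet (gs '' B) → ν (gs '' B) = ν B) ∧
      (∀ O' : Set S2, IsOpen O' → O'.Nonempty → 0 < ν O') ∧
      ∀ ζ : ℂ, ‖ζ‖ = 1 → ∃ ρ' > 0, ν (φ '' (ball 0 1 ∩ ball ζ ρ')) < ⊤ := by
  have hXm : MeasurableSet X := D.opn.measurableSet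
  have hqc : Continuous q := hS.q_smooth.continuous
  have hj : ContinuousOn (fun x => q (τ x)) X := hqc.comp_continuousOn hT.cτ
  set j : ℂ → S2 := fun x => q (τ x) with hjdef
  have hae : AEMeasurable j (mX X ρ) := hj.aemeasurable hXm
  have hres : ∀ s : Set ℂ, mX X ρ s = mX X ρ (X ∩ s) := by
    intro s
    unfold mX
    rw [Measure.restrict_apply' hXm, Measure.restrict_apply' hXm]
    congr 1
    ext x
    simp only [mem_inter_iff]
    tauto
  have hν : ∀ B, MeasurableSet B → Measure.map j (mX X ρ) B = mX X ρ (X ∩ j ⁻¹' B) := by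
    intro B hB
    rw [Measure.map_apply_of_aemeasurable hae hB]
    exact hres _
  refine ⟨Measure.map j (mX X ρ), ?_, ?_, ?_⟩
  · intro B hB hgB
    rw [hν _ hB, hν _ hgB]
    have h1 : X ∩ j ⁻¹' (gs '' B) = G '' (X ∩ j ⁻¹' B) := by
      ext x
      constructor
      · rintro ⟨hx, b, hb, hbx⟩
        refine ⟨Gi x, ⟨L.mGi hx, ?_⟩, L.GGi x hx⟩
        show q (τ (Gi x)) ∈ B
        rw [← hgsi x hx]
        have h2 : gs b = q (τ x) := hbx
        rw [← h2, hgig]
        exact hb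
      · rintro ⟨y, ⟨hy, hyB⟩, rfl⟩
        refine ⟨L.mG hy, q (τ y), hyB, ?_⟩
        exact hgs y hy
    rw [h1]
    exact (mX_G D L inter_subset_left (INb_ms hXm hj hB)).2
  · intro O' hO' hne
    rw [hν _ hO'.measurableSet]
    refine mX_pos D L inter_subset_left (hj.isOpen_inter_preimage D.opn hO') ?_
    have hz : ∃ z, q z ∈ O' := by
      obtain ⟨x, hx⟩ := hne
      by_cases hxO : x = O
      · have h1 : ∀ᶠ z in cocompact ℂ, q z ∈ O' :=
          hS.q_lim.eventually (hO'.mem_nhds (hxO ▸ hx))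
        exact h1.exists
      · exact ⟨pp x, by rw [hS.qp x hxO]; exact hx⟩
    obtain ⟨z, hz⟩ := hz
    refine ⟨τi z, hT.mτi z, ?_⟩
    show q (τ (τi z)) ∈ O'
    rw [hT.right]
    exact hz
  · intro ζ hζ
    obtain ⟨V₁, hV₁o, hYV₁, hV₁V, hV₁c⟩ := exists_open_between_and_isCompact_closure hY.cpt hT.opn
      hT.sub
    have hqV : IsOpen (q '' V₁) := by
      have h1 : q '' V₁ = {O}ᶜ ∩ pp ⁻¹' V₁ := by
        ext x
        constructor
        · rintro ⟨z, hz, rfl⟩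
          refine ⟨hS.q_ne z, ?_⟩
          show pp (q z) ∈ V₁
          rw [hS.pq]
          exact hz
        · rintro ⟨hx, hxV⟩
          exact ⟨pp x, hxV, hS.qp x hx⟩
      rw [h1]
      exact hS.p_smooth.continuousOn.isOpen_inter_preimage isClosed_singleton.isOpen_compl hV₁o
    have hKc : IsCompact (q '' V₁)ᶜ := hqV.isClosed_compl.isCompact
    have hKs : (q '' V₁)ᶜ ⊆ (q '' Y)ᶜ := compl_subset_compl.2 (image_mono hYV₁)
    obtain ⟨r, hr1, hr0, hr⟩ := INb_ball (hKc.image_of_continuousOn (hD.u_cont.mono hKs))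
      (by rintro _ ⟨x, hx, rfl⟩; exact hD.u_maps (hKs hx))
    refine ⟨1 - r, by linarith, ?_⟩
    have hsub : φ '' (ball 0 1 ∩ ball ζ (1 - r)) ⊆ q '' V₁ := by
      rintro _ ⟨z, ⟨hz1, hz2⟩, rfl⟩
      by_contra hcon
      have h1 := hr (u (φ z)) ⟨φ z, hcon, rfl⟩
      rw [hD.uφ z hz1] at h1
      have h2 : ‖z - ζ‖ < 1 - r := by simpa [dist_eq_norm] using hz2
      have h3 : ‖ζ‖ ≤ ‖z‖ + ‖z - ζ‖ := by
        have h4 := norm_sub_le z (z - ζ)
        simpa using h4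
      linarith
    refine lt_of_le_of_lt (measure_mono hsub) ?_
    rw [hν _ hqV.measurableSet]
    refine lt_of_le_of_lt (measure_mono ?_) (mX_cpt D L hV₁c (hV₁V.trans hT.VX))
    rintro x ⟨hx, v, hv, hvx⟩
    have h1 : q v = q (τ x) := hvx
    have h2 : v = τ x := by rw [← hS.pq v, h1, hS.pq]
    have h3 : τi (τ x) = x := hT.left x hx
    have hvV : v ∈ V := hV₁V (subset_closure hv)
    have h4 : τi v = v := (hT.id v hvV).2
    rw [← h2, h4] at h3
    rw [← h3]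
    exact subset_closure hv

end

end CV

end S_H36_DG_INb

section S_H36_DG_LLc

/-!
LLc (the conditions for powers and compositions with deck transformations).
On `X` one has `(A c ∘ G)^[n] x = A c' (G^[n] x)` with `c'` depending only on `c` and `n` (induction; `Lift.equi`, `Deck.mul`), so near `P ∈ X` the maps
`x ↦ A d ((A c ∘ G)^[n] x)` and `x ↦ A (d * c') (G^[n] x)` are equal and have the same derivative (`Filter.EventuallyEq.fderiv_eq`, `X` open).
`Cond.pow`: `(G^[n])^[m] = G^[n * m]`; `per_pow`, `stabX_pow` (for `g` and for `gi`, both continuous).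
-/

namespace CV

open Metric Set Filter Topology Function DS TN

section
variable {S : Type} [MetricSpace S] [CompactSpace S] {X : Set ℂ} {Γ : Type} [Group Γ]
  {A : Γ → ℂ → ℂ} {p : ℂ → S} {g gi : S → S} {G Gi : ℂ → ℂ} {θ : Γ ≃* Γ} {ρ : ℂ → ℝ}
  {Hyp : S → Prop}

theorem LLc_iter (D : Deck X A p) (L : Lift X A p g gi G Gi θ ρ) (c : Γ) (n : ℕ) :
    ∃ c' : Γ, ∀ x ∈ X, (fun x => A c (G x))^[n] x = A c' (G^[n] x) := by
  induction n with
  | zero => exact ⟨1, fun x hx => (D.one x hx).symm⟩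
  | succ n ih =>
    obtain ⟨c', h⟩ := ih
    refine ⟨c * θ c', fun x hx => ?_⟩
    have h1 : G^[n] x ∈ X := (L.iter n).1 hx
    rw [Function.iterate_succ_apply', Function.iterate_succ_apply', h x hx]
    show A c (G (A c' (G^[n] x))) = _
    rw [L.equi c' _ h1, ← D.mul _ _ _ (L.mG h1)]

theorem Cond.mul (D : Deck X A p) (L : Lift X A p g gi G Gi θ ρ) (C : Cond X A p g gi G Hyp)
    (c : Γ) : Cond X A p g gi (fun x => A c (G x)) Hyp := by
  refine ⟨C.per, C.inv, fun n hn d P hP hfix => ?_, C.c2⟩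
  obtain ⟨c', h⟩ := LLc_iter D L c n
  have h1 : ∀ x ∈ X, A d ((fun x => A c (G x))^[n] x) = A (d * c') (G^[n] x) := fun x hx => by
    rw [h x hx, D.mul _ _ _ ((L.iter n).1 hx)]
  have h2 : (fun x => A d ((fun x => A c (G x))^[n] x)) =ᶠ[𝓝 P] fun x => A (d * c') (G^[n] x) := by
    filter_upwards [D.opn.mem_nhds hP] with x hx
    exact h1 x hx
  rw [h2.fderiv_eq]
  exact C.tri n hn (d * c') P hP ((h1 P hP).symm.trans hfix)

theorem Cond.pow (D : Deck X A p) (L : Lift X A p g gi G Gi θ ρ) (C : Cond X A p g gi G Hyp)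
    {n : ℕ} (hn : 0 < n) : Cond X A p (g^[n]) (gi^[n]) (G^[n]) Hyp := by
  refine ⟨fun s hs => (per_pow hn s).2 (C.per s hs), fun s hs => ?_, fun m hm c P hP hfix => ?_,
    fun P hP Q hQ hP' hQ' x v w h1 h2 => ?_⟩
  · clear hn
    induction n with
    | zero => exact hs
    | succ n ih =>
      rw [Function.iterate_succ_apply']
      exact C.inv _ ih
  · rw [← Function.iterate_mul] at hfix ⊢
    exact C.tri (n * m) (Nat.mul_pos hn hm) c P hP hfix
  · rw [stabX_pow L.cg hn] at h1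
    rw [stabX_pow L.cgi hn] at h2
    exact C.c2 P hP Q hQ hP' hQ' x v w h1 h2

/-- the trichotomy at a fixed point of `G` -/
theorem Cond.one (D : Deck X A p) (L : Lift X A p g gi G Gi θ ρ) (C : Cond X A p g gi G Hyp)
    {P : ℂ} (hP : P ∈ X) (hGP : G P = P) : (fderiv ℝ G P).det = 1 ∧
      (|LinearMap.trace ℝ ℂ (fderiv ℝ G P : ℂ →ₗ[ℝ] ℂ)| < 2 ∨
      (Hyp (p P) ∧ 2 < |LinearMap.trace ℝ ℂ (fderiv ℝ G P : ℂ →ₗ[ℝ] ℂ)|)) := by
  constructor
  · have h1 := L.area P hP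
    rw [hGP] at h1
    have h2 : ρ P ≠ 0 := (L.ρpos P hP).ne'
    exact mul_left_cancel₀ h2 (h1.trans (mul_one _).symm)
  · have h1 : (fun x => A 1 (G^[1] x)) =ᶠ[𝓝 P] G := by
      filter_upwards [D.opn.mem_nhds hP] with x hx
      exact D.one _ (L.mG hx)
    have h2 := C.tri 1 one_pos 1 P hP (by
      rw [Function.iterate_one, hGP]
      exact D.one P hP)
    rw [h1.fderiv_eq] at h2
    exact h2

end

end CV

end S_H36_DG_LLc

section S_H36_DG_LS

/-!
LS (short curves have small image in `S`).  Let `C ⊆ X` be compact with `∀ x ∈ X, ∃ c, A c x ∈ C` (`Deck.coc`); if `C = ∅` then `X = ∅`, impossible.  There is `η₀ > 0` such that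
`C' = cthickening η₀ C ⊆ X`, compact (`IsCompact.exists_cthickening_subset_open`).  `p` is uniformly continuous on `C'`: there is `0 < η ≤ η₀` with `dist (p x) (p y) < ε` for `x ∈ C`, `dist x y ≤ η`.
`√ρ ≥ λ₀ > 0` on `C'`.  Take `δ = λ₀ * η`.  Given `γ`: choose `c` with `A c (γ a) ∈ C` and put `σ t = A c (γ t)`, `σ' t = deriv (A c) (γ t) * γ' t`.  By `ρinv`
`√(ρ (σ t)) * ‖σ' t‖ = √(ρ (γ t)) * ‖γ' t‖`, so `∫⁻ √ρ(σ) ‖σ'‖ < δ`.  Claim: `dist (σ t) (σ a) ≤ η` for all `t ∈ [a, b]`.  Otherwise let `t₁` be the infimum of the `t` with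
`dist (σ t) (σ a) > η`; then `dist (σ t₁) (σ a) ≥ η` and `σ t ∈ C'` for `t ∈ [a, t₁]`, so
`η ≤ dist (σ t₁) (σ a) ≤ ∫ ‖σ'‖ ≤ λ₀⁻¹ ∫ √ρ(σ) ‖σ'‖ < η` (fundamental theorem of calculus, as in `LA_arc`, Pool/Agent/H36/DS/LA.lean).  So `dist (p (γ a)) (p (γ b)) =
dist (p (σ a)) (p (σ b)) < ε` (`Deck.fibre`).
-/

namespace CV

open Metric Set Filter Topology Function DS TN MeasureTheory

section
variable {S : Type} [MetricSpace S] {X : Set ℂ} {Γ : Type} [Group Γ]
  {A : Γ → ℂ → ℂ} {p : ℂ → S} {g gi : S → S} {G Gi : ℂ → ℂ} {θ : Γ ≃* Γ} {ρ : ℂ → ℝ}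

theorem len_dist [CompactSpace S] (D : Deck X A p) (L : Lift X A p g gi G Gi θ ρ) {ε : ℝ}
    (hε : 0 < ε) : ∃ δ > 0, ∀ (a b : ℝ) (γ γ' : ℝ → ℂ), a ≤ b → (∀ t ∈ Icc a b, γ t ∈ X) →
      (∀ t ∈ Icc a b, HasDerivAt γ (γ' t) t) → ContinuousOn γ' (Icc a b) →
      ∫⁻ t in Icc a b, ENNReal.ofReal (√(ρ (γ t)) * ‖γ' t‖) < ENNReal.ofReal δ →
      dist (p (γ a)) (p (γ b)) < ε := by
  obtain ⟨C, hCX, hC, hcoc⟩ := D.coc
  obtain ⟨η₀, hη₀, hthick⟩ := hC.exists_cthickening_subset_open D.opn hCX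
  have hC' : IsCompact (cthickening η₀ C) := hC.cthickening
  have huc := hC'.uniformContinuousOn_of_continuous (D.pc.mono hthick)
  obtain ⟨η₁, hη₁, huc⟩ := Metric.uniformContinuousOn_iff.1 huc ε hε
  obtain ⟨l, hl, hlam⟩ := hC'.exists_forall_le' (f := fun x => √(ρ x)) (a := 0)
    ((L.ρc.mono hthick).sqrt) (fun x hx => Real.sqrt_pos.2 (L.ρpos x (hthick hx)))
  set η : ℝ := min η₀ (η₁ / 2) with hη
  have hη0 : 0 < η := lt_min hη₀ (by positivity)
  refine ⟨l * η, mul_pos hl hη0, ?_⟩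
  intro a b γ γ' hab hγX hγd hγc hint
  obtain ⟨c, hc⟩ := hcoc (γ a) (hγX a (left_mem_Icc.2 hab))
  set σ : ℝ → ℂ := fun t => A c (γ t) with hσ
  set σ' : ℝ → ℂ := fun t => deriv (A c) (γ t) * γ' t with hσ'
  have hd : ∀ t ∈ Icc a b, HasDerivAt σ (σ' t) t := by
    intro t ht
    have h1 : HasDerivAt (A c) (deriv (A c) (γ t)) (γ t) :=
      ((D.hol c).differentiableAt (D.opn.mem_nhds (hγX t ht))).hasDerivAt
    exact h1.comp_of_eq t (hγd t ht) rfl
  have hγcont : ContinuousOn γ (Icc a b) := fun t ht => (hγd t ht).continuousAt.continuousWithinAt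
  have hσcont : ContinuousOn σ (Icc a b) := fun t ht => (hd t ht).continuousAt.continuousWithinAt
  have hσ'c : ContinuousOn σ' (Icc a b) := by
    apply ContinuousOn.mul _ hγc
    exact (((D.hol c).deriv D.opn).continuousOn).comp hγcont (fun t ht => hγX t ht)
  have hw : ∀ t ∈ Icc a b, √(ρ (σ t)) * ‖σ' t‖ = √(ρ (γ t)) * ‖γ' t‖ := by
    intro t ht
    have h1 := L.ρinv c (γ t) (hγX t ht)
    have h2 : √(ρ (γ t)) = √(ρ (σ t)) * ‖deriv (A c) (γ t)‖ := by
      rw [← h1, Real.sqrt_mul' _ (by positivity), Real.sqrt_sq (norm_nonneg _)]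
    rw [h2, hσ', norm_mul, mul_assoc]
  have key : ∀ t ∈ Icc a b, dist (σ t) (σ a) < η := by
    by_contra hcon
    push Not at hcon
    obtain ⟨t₀, ht₀, ht₀'⟩ := hcon
    have hTc : IsCompact {t ∈ Icc a b | η ≤ dist (σ t) (σ a)} := by
      apply IsCompact.of_isClosed_subset isCompact_Icc _ (fun t ht => ht.1)
      have hdc : ContinuousOn (fun t => Dist.dist (σ t) (σ a)) (Icc a b) :=
        continuous_dist.comp_continuousOn (hσcont.prodMk continuousOn_const)
      exact hdc.preimage_isClosed_of_isClosed isClosed_Icc isClosed_Ici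
    obtain ⟨t₁, ⟨ht₁, ht₁'⟩, hmin⟩ := hTc.exists_isLeast ⟨t₀, ht₀, ht₀'⟩
    have hlt : ∀ t ∈ Ioo a t₁, dist (σ t) (σ a) < η := by
      intro t ht
      by_contra h
      have := hmin (⟨⟨ht.1.le, ht.2.le.trans ht₁.2⟩, not_lt.1 h⟩ : t ∈ {t ∈ Icc a b | η ≤ dist (σ t) (σ a)})
      exact absurd ht.2 (not_lt.2 this)
    have hsub : uIcc a t₁ ⊆ Icc a b := by
      rw [uIcc_of_le ht₁.1]
      exact Icc_subset_Icc le_rfl ht₁.2
    have hftc := intervalIntegral.integral_eq_sub_of_hasDerivAt (fun t ht => hd t (hsub ht))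
      (hσ'c.mono hsub).intervalIntegrable
    have h1 : ENNReal.ofReal (dist (σ t₁) (σ a)) ≤ ∫⁻ t in Ioo a t₁, ‖σ' t‖ₑ := by
      rw [dist_eq_norm, ← hftc, intervalIntegral.integral_of_le ht₁.1, ofReal_norm]
      refine (enorm_integral_le_lintegral_enorm _).trans ?_
      exact (setLIntegral_congr Ioo_ae_eq_Ioc).ge
    have h2 : ENNReal.ofReal (l * η) ≤ ∫⁻ t in Icc a b, ENNReal.ofReal (√(ρ (γ t)) * ‖γ' t‖) := by
      calc ENNReal.ofReal (l * η) = ENNReal.ofReal l * ENNReal.ofReal η := ENNReal.ofReal_mul hl.le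
        _ ≤ ENNReal.ofReal l * ENNReal.ofReal (dist (σ t₁) (σ a)) := by gcongr
        _ ≤ ENNReal.ofReal l * ∫⁻ t in Ioo a t₁, ‖σ' t‖ₑ := by gcongr
        _ = ∫⁻ t in Ioo a t₁, ENNReal.ofReal l * ‖σ' t‖ₑ :=
            (lintegral_const_mul' _ _ ENNReal.ofReal_ne_top).symm
        _ ≤ ∫⁻ t in Ioo a t₁, ENNReal.ofReal (√(ρ (γ t)) * ‖γ' t‖) := by
            apply setLIntegral_mono' measurableSet_Ioo
            intro t ht
            have htI : t ∈ Icc a b := ⟨ht.1.le, ht.2.le.trans ht₁.2⟩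
            rw [← hw t htI, ← ofReal_norm, ← ENNReal.ofReal_mul hl.le]
            apply ENNReal.ofReal_le_ofReal
            apply mul_le_mul_of_nonneg_right _ (norm_nonneg _)
            apply hlam
            exact mem_cthickening_of_dist_le (σ t) (σ a) η₀ C hc
              ((hlt t ht).le.trans (min_le_left _ _))
        _ ≤ ∫⁻ t in Icc a b, ENNReal.ofReal (√(ρ (γ t)) * ‖γ' t‖) :=
            lintegral_mono_set (fun t ht => ⟨ht.1.le, ht.2.le.trans ht₁.2⟩)
    exact absurd hint (not_lt.2 h2)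
  have hb := key b (right_mem_Icc.2 hab)
  have hσa : σ a ∈ cthickening η₀ C := self_subset_cthickening C hc
  have hσb : σ b ∈ cthickening η₀ C :=
    mem_cthickening_of_dist_le (σ b) (σ a) η₀ C hc (hb.le.trans (min_le_left _ _))
  have hfin := huc (σ a) hσa (σ b) hσb (by
    rw [dist_comm]
    refine hb.trans_le ((min_le_right _ _).trans ?_)
    linarith)
  have e1 : p (σ a) = p (γ a) := D.fibre c (hγX a (left_mem_Icc.2 hab))
  have e2 : p (σ b) = p (γ b) := D.fibre c (hγX b (right_mem_Icc.2 hab))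
  rwa [e1, e2] at hfin

end

end CV

end S_H36_DG_LS

section S_H36_DG_QA

/-!
QA (a lift is quasiconformal).  Let `C ⊆ X` be compact with `∀ x ∈ X, ∃ c, A c x ∈ C` (`Deck.coc`).  On `X` the function `‖DG x‖ ^ 2 / |det DG x|`
is continuous (`det DG x ≠ 0` by `area`, `ρpos`), so it is bounded by some `Kq` on `C`.  It is invariant: for `x ∈ X`, `y = A c x`, from
`G (A c x) = A (θ c) (G x)` near `x` (`Deck.fd`): `DG y (a w) = a' * DG x w` with `a = deriv (A c) x ≠ 0`, `a' = deriv (A (θ c)) (G x) ≠ 0`;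
so `‖DG y‖ ‖a‖ = ‖a'‖ ‖DG x‖` and `det DG y * ‖a‖ ^ 2 = ‖a'‖ ^ 2 * det DG x`.
-/

namespace CV

open Metric Set Filter Topology Function DS TN

section
variable {S : Type} [MetricSpace S] [CompactSpace S] {X : Set ℂ} {Γ : Type} [Group Γ]
  {A : Γ → ℂ → ℂ} {p : ℂ → S} {g gi : S → S} {G Gi : ℂ → ℂ} {θ : Γ ≃* Γ} {ρ : ℂ → ℝ}

theorem qc_lift (D : Deck X A p) (L : Lift X A p g gi G Gi θ ρ) :
    ∃ Kq : ℝ, ∀ x ∈ X, ‖fderiv ℝ G x‖ ^ 2 ≤ Kq * |(fderiv ℝ G x).det| := by
  obtain ⟨C, hCX, hC, hcoc⟩ := D.coc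
  have hcD : ContinuousOn (fderiv ℝ G) X := L.c1.continuousOn_fderiv_of_isOpen D.opn le_rfl
  have hdet : ∀ x ∈ X, (fderiv ℝ G x).det ≠ 0 := by
    intro x hx h
    have h1 := L.area x hx
    rw [h, mul_zero] at h1
    exact (L.ρpos x hx).ne h1
  have hcdet : ContinuousOn (fun x => (fderiv ℝ G x).det) X :=
    ContinuousLinearMap.continuous_det.comp_continuousOn hcD
  have hf : ContinuousOn (fun x => ‖fderiv ℝ G x‖ ^ 2 / |(fderiv ℝ G x).det|) C := by
    refine ContinuousOn.div ((hcD.mono hCX).norm.pow 2) (hcdet.mono hCX).abs fun x hx => ?_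
    exact abs_ne_zero.2 (hdet x (hCX hx))
  obtain ⟨K, hK⟩ := hC.exists_bound_of_continuousOn hf
  refine ⟨K, fun x hx => ?_⟩
  obtain ⟨c, hc⟩ := hcoc x hx
  have hy : A c x ∈ X := hCX hc
  have hGx : G x ∈ X := L.mG hx
  obtain ⟨h1, h2, h3, h4⟩ := D.fd c hx
  obtain ⟨k1, k2, k3, k4⟩ := D.fd (θ c) hGx
  have hdG : ∀ z ∈ X, DifferentiableAt ℝ G z := fun z hz =>
    (L.c1.differentiableOn one_ne_zero).differentiableAt (D.opn.mem_nhds hz)
  have e1 : HasFDerivAt (fun z => G (A c z)) ((fderiv ℝ G (A c x)).comp (fderiv ℝ (A c) x)) x :=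
    (hdG _ hy).hasFDerivAt.comp x
      ((h1.differentiableAt.restrictScalars ℝ).hasFDerivAt)
  have e2 : HasFDerivAt (fun z => A (θ c) (G z))
      ((fderiv ℝ (A (θ c)) (G x)).comp (fderiv ℝ G x)) x :=
    ((k1.differentiableAt.restrictScalars ℝ).hasFDerivAt).comp x (hdG x hx).hasFDerivAt
  have e3 : HasFDerivAt (fun z => G (A c z))
      ((fderiv ℝ (A (θ c)) (G x)).comp (fderiv ℝ G x)) x := by
    refine e2.congr_of_eventuallyEq ?_
    filter_upwards [D.opn.mem_nhds hx] with z hz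
    exact L.equi c z hz
  have he := e1.unique e3
  have hdd : (fderiv ℝ G (A c x)).det * ‖deriv (A c) x‖ ^ 2 =
      ‖deriv (A (θ c)) (G x)‖ ^ 2 * (fderiv ℝ G x).det := by
    have := congrArg ContinuousLinearMap.det he
    rw [← h3, ← k3]
    simpa [ContinuousLinearMap.det, ContinuousLinearMap.coe_comp, LinearMap.det_comp] using this
  have hnn : ‖fderiv ℝ G x‖ ≤ ‖deriv (A (θ c)) (G x)‖⁻¹ * ‖deriv (A c) x‖ *
      ‖fderiv ℝ G (A c x)‖ := by
    refine ContinuousLinearMap.opNorm_le_bound _ (by positivity) fun w => ?_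
    have h5 : deriv (A (θ c)) (G x) * fderiv ℝ G x w =
        fderiv ℝ G (A c x) (deriv (A c) x * w) := by
      rw [← k4, ← h4]
      exact (congrArg (fun T : ℂ →L[ℝ] ℂ => T w) he).symm
    have h6 : fderiv ℝ G x w = (deriv (A (θ c)) (G x))⁻¹ *
        fderiv ℝ G (A c x) (deriv (A c) x * w) := by
      rw [← h5, inv_mul_cancel_left₀ k2]
    rw [h6, norm_mul, norm_inv, mul_assoc, mul_assoc]
    refine mul_le_mul_of_nonneg_left ?_ (by positivity)
    refine (ContinuousLinearMap.le_opNorm _ _).trans ?_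
    rw [norm_mul]
    exact le_of_eq (by ring)
  have hKy := hK _ hc
  rw [Real.norm_eq_abs, abs_of_nonneg (by positivity),
    div_le_iff₀ (abs_pos.2 (hdet _ hy))] at hKy
  have ha : 0 < ‖deriv (A c) x‖ := norm_pos_iff.2 h2
  have ha' : 0 < ‖deriv (A (θ c)) (G x)‖ := norm_pos_iff.2 k2
  have habs : |(fderiv ℝ G (A c x)).det| * ‖deriv (A c) x‖ ^ 2 =
      ‖deriv (A (θ c)) (G x)‖ ^ 2 * |(fderiv ℝ G x).det| := by
    have := congrArg abs hdd
    rw [abs_mul, abs_mul, abs_of_nonneg (sq_nonneg ‖deriv (A c) x‖),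
      abs_of_nonneg (sq_nonneg ‖deriv (A (θ c)) (G x)‖)] at this
    exact this
  calc ‖fderiv ℝ G x‖ ^ 2 ≤ (‖deriv (A (θ c)) (G x)‖⁻¹ * ‖deriv (A c) x‖ *
      ‖fderiv ℝ G (A c x)‖) ^ 2 := pow_le_pow_left₀ (norm_nonneg _) hnn 2
    _ = (‖deriv (A (θ c)) (G x)‖⁻¹) ^ 2 * ‖deriv (A c) x‖ ^ 2 * ‖fderiv ℝ G (A c x)‖ ^ 2 := by
      ring
    _ ≤ (‖deriv (A (θ c)) (G x)‖⁻¹) ^ 2 * ‖deriv (A c) x‖ ^ 2 *
        (K * |(fderiv ℝ G (A c x)).det|) := mul_le_mul_of_nonneg_left hKy (by positivity)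
    _ = K * ((‖deriv (A (θ c)) (G x)‖⁻¹) ^ 2 *
        (|(fderiv ℝ G (A c x)).det| * ‖deriv (A c) x‖ ^ 2)) := by ring
    _ = K * |(fderiv ℝ G x).det| := by
      have h7 : ‖deriv (A (θ c)) (G x)‖⁻¹ ^ 2 * ‖deriv (A (θ c)) (G x)‖ ^ 2 = 1 := by
        rw [← mul_pow, inv_mul_cancel₀ ha'.ne', one_pow]
      rw [habs, ← mul_assoc (‖deriv (A (θ c)) (G x)‖⁻¹ ^ 2), h7, one_mul]

end

end CV

end S_H36_DG_QA

section S_H36_DG_QB

/-!
QB (a lift in the coordinate of a Riemann map).  `ψ`, `v` are holomorphic, inverse to each other, so `ψ' ≠ 0`, `v' ≠ 0`; `fderiv ℝ (v ∘ G ∘ ψ) z w =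
v' (G (ψ z)) * DG (ψ z) (ψ' z * w)`; norm and determinant of the derivative change by conformal factors, so the constant of `qc_lift` for `G` and for
`Gi` (use `Lift.symm`; take the maximum of the two constants) works.  `G` and `Gi` map `fil X U` to itself (`fil_G` in CV/B1).  Determinant positive:
`L.area` and `ρpos`.
-/

namespace CV

open Metric Set Filter Topology Function DS TN

section

/-- multiplication by `c` as a real linear map -/
noncomputable abbrev QB_m (c : ℂ) : ℂ →L[ℝ] ℂ :=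
  (ContinuousLinearMap.toSpanSingleton ℂ c).restrictScalars ℝ

theorem QB_norm (c : ℂ) : ‖QB_m c‖ ≤ ‖c‖ := by
  refine ContinuousLinearMap.opNorm_le_bound _ (norm_nonneg c) fun x => ?_
  have h : QB_m c x = x * c := rfl
  rw [h, norm_mul, mul_comm]

variable {W : Set ℂ} {ψ v H : ℂ → ℂ}

theorem QB_hψ (R : Riem W ψ v) {z : ℂ} (hz : z ∈ ball (0:ℂ) 1) :
    HasDerivAt ψ (deriv ψ z) z :=
  (R.dψ.differentiableAt (isOpen_ball.mem_nhds hz)).hasDerivAt

theorem QB_hv (hW : IsOpen W) (R : Riem W ψ v) {w : ℂ} (hw : w ∈ W) :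
    HasDerivAt v (deriv v w) w :=
  (R.dv.differentiableAt (hW.mem_nhds hw)).hasDerivAt

theorem QB_ψne (hW : IsOpen W) (R : Riem W ψ v) {z : ℂ} (hz : z ∈ ball (0:ℂ) 1) :
    deriv ψ z ≠ 0 := by
  have h1 : HasDerivAt (fun z => v (ψ z)) (deriv v (ψ z) * deriv ψ z) z :=
    (QB_hv hW R (R.mψ hz)).comp z (QB_hψ R hz)
  have h2 : HasDerivAt (fun z => v (ψ z)) 1 z := by
    refine (hasDerivAt_id z).congr_of_eventuallyEq ?_
    filter_upwards [isOpen_ball.mem_nhds hz] with y hy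
    exact R.vψ y hy
  intro h
  have h3 := h1.unique h2
  rw [h, mul_zero] at h3
  exact zero_ne_one h3

theorem QB_vne (hW : IsOpen W) (R : Riem W ψ v) {w : ℂ} (hw : w ∈ W) :
    deriv v w ≠ 0 := by
  have h1 : HasDerivAt (fun w => ψ (v w)) (deriv ψ (v w) * deriv v w) w :=
    (QB_hψ R (R.mv hw)).comp w (QB_hv hW R hw)
  have h2 : HasDerivAt (fun w => ψ (v w)) 1 w := by
    refine (hasDerivAt_id w).congr_of_eventuallyEq ?_
    filter_upwards [hW.mem_nhds hw] with y hy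
    exact R.ψv y hy
  intro h
  have h3 := h1.unique h2
  rw [h, mul_zero] at h3
  exact zero_ne_one h3

theorem QB_fd (hW : IsOpen W) (R : Riem W ψ v) (hH : ∀ w ∈ W, DifferentiableAt ℝ H w)
    (mH : MapsTo H W W) {z : ℂ} (hz : z ∈ ball (0:ℂ) 1) :
    fderiv ℝ (fun z => v (H (ψ z))) z =
      (QB_m (deriv v (H (ψ z)))).comp ((fderiv ℝ H (ψ z)).comp (QB_m (deriv ψ z))) := by
  have h1 : HasFDerivAt ψ (QB_m (deriv ψ z)) z := (QB_hψ R hz).hasFDerivAt.restrictScalars ℝ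
  have h2 : HasFDerivAt H (fderiv ℝ H (ψ z)) (ψ z) := (hH _ (R.mψ hz)).hasFDerivAt
  have h3 : HasFDerivAt v (QB_m (deriv v (H (ψ z)))) (H (ψ z)) :=
    (QB_hv hW R (mH (R.mψ hz))).hasFDerivAt.restrictScalars ℝ
  exact (h3.comp z (h2.comp z h1)).fderiv

theorem QB_det (hW : IsOpen W) (R : Riem W ψ v) (hH : ∀ w ∈ W, DifferentiableAt ℝ H w)
    (mH : MapsTo H W W) {z : ℂ} (hz : z ∈ ball (0:ℂ) 1) :
    (fderiv ℝ (fun z => v (H (ψ z))) z).det =
      ‖deriv v (H (ψ z))‖ ^ 2 * ((fderiv ℝ H (ψ z)).det * ‖deriv ψ z‖ ^ 2) := by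
  rw [QB_fd hW R hH mH hz, ← LA_det (deriv v (H (ψ z))), ← LA_det (deriv ψ z)]
  have h1 : ∀ S T : ℂ →L[ℝ] ℂ, (S.comp T).det = S.det * T.det := fun S T =>
    LinearMap.det_comp _ _
  rw [h1, h1]

theorem QB_qc (hW : IsOpen W) (R : Riem W ψ v) (hH : ∀ w ∈ W, DifferentiableAt ℝ H w)
    (mH : MapsTo H W W) {Kq K' : ℝ} (hK : ∀ w ∈ W, ‖fderiv ℝ H w‖ ^ 2 ≤ Kq * |(fderiv ℝ H w).det|)
    (hle : Kq ≤ K') {z : ℂ} (hz : z ∈ ball (0:ℂ) 1) :
    ‖fderiv ℝ (fun z => v (H (ψ z))) z‖ ^ 2 ≤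
      K' * |(fderiv ℝ (fun z => v (H (ψ z))) z).det| := by
  have hn : ‖fderiv ℝ (fun z => v (H (ψ z))) z‖ ≤
      ‖deriv v (H (ψ z))‖ * (‖fderiv ℝ H (ψ z)‖ * ‖deriv ψ z‖) := by
    rw [QB_fd hW R hH mH hz]
    refine (ContinuousLinearMap.opNorm_comp_le _ _).trans ?_
    refine mul_le_mul (QB_norm _) ?_ (norm_nonneg _) (norm_nonneg _)
    refine (ContinuousLinearMap.opNorm_comp_le _ _).trans ?_
    exact mul_le_mul_of_nonneg_left (QB_norm _) (norm_nonneg _)
  rw [QB_det hW R hH mH hz, abs_mul, abs_mul, abs_of_nonneg (sq_nonneg ‖deriv v (H (ψ z))‖),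
    abs_of_nonneg (sq_nonneg ‖deriv ψ z‖)]
  have h1 := hK _ (R.mψ hz)
  have h2 : Kq * |(fderiv ℝ H (ψ z)).det| ≤ K' * |(fderiv ℝ H (ψ z)).det| :=
    mul_le_mul_of_nonneg_right hle (abs_nonneg _)
  calc ‖fderiv ℝ (fun z => v (H (ψ z))) z‖ ^ 2
      ≤ (‖deriv v (H (ψ z))‖ * (‖fderiv ℝ H (ψ z)‖ * ‖deriv ψ z‖)) ^ 2 :=
        pow_le_pow_left₀ (norm_nonneg _) hn 2
    _ = ‖deriv v (H (ψ z))‖ ^ 2 * ‖deriv ψ z‖ ^ 2 * ‖fderiv ℝ H (ψ z)‖ ^ 2 := by ring
    _ ≤ ‖deriv v (H (ψ z))‖ ^ 2 * ‖deriv ψ z‖ ^ 2 * (K' * |(fderiv ℝ H (ψ z)).det|) :=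
        mul_le_mul_of_nonneg_left (h1.trans h2) (by positivity)
    _ = K' * (‖deriv v (H (ψ z))‖ ^ 2 * (|(fderiv ℝ H (ψ z)).det| * ‖deriv ψ z‖ ^ 2)) := by
        ring

theorem QB_cd (hW : IsOpen W) (R : Riem W ψ v) (hH : ContDiffOn ℝ 1 H W)
    (mH : MapsTo H W W) : ContDiffOn ℝ 1 (fun z => v (H (ψ z))) (ball 0 1) := by
  have h1 : ContDiffOn ℝ 1 ψ (ball 0 1) :=
    (R.dψ.contDiffOn isOpen_ball : ContDiffOn ℂ 1 ψ (ball 0 1)).restrict_scalars ℝ
  have h2 : ContDiffOn ℝ 1 v W :=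
    (R.dv.contDiffOn hW : ContDiffOn ℂ 1 v W).restrict_scalars ℝ
  exact h2.comp (hH.comp h1 R.mψ) fun z hz => mH (R.mψ hz)

end

section
variable {S : Type} [MetricSpace S] [CompactSpace S] {X : Set ℂ} {Γ : Type} [Group Γ]
  {A : Γ → ℂ → ℂ} {p : ℂ → S} {g gi : S → S} {G Gi : ℂ → ℂ} {θ : Γ ≃* Γ} {ρ : ℂ → ℝ}
  {U : Set ℂ} {N : Subgroup Γ} {ψ v : ℂ → ℂ}

theorem fil_maps (D : Deck X A p) (L : Lift X A p g gi G Gi θ ρ) (M : Dom X A p g G U N) :
    MapsTo G (fil X U) (fil X U) ∧ MapsTo Gi (fil X U) (fil X U) := by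
  have h := fil_G D L M
  refine ⟨fun x hx => h ▸ mem_image_of_mem G hx, fun x hx => ?_⟩
  rw [← h] at hx
  obtain ⟨y, hy, rfl⟩ := hx
  rw [L.GiG y hy.1]
  exact hy

theorem riem_coord (D : Deck X A p) (L : Lift X A p g gi G Gi θ ρ) (M : Dom X A p g G U N)
    (R : Riem (fil X U) ψ v) :
    ContDiffOn ℝ 1 (fun z => v (G (ψ z))) (ball 0 1) ∧
      ContDiffOn ℝ 1 (fun z => v (Gi (ψ z))) (ball 0 1) ∧
      MapsTo (fun z => v (G (ψ z))) (ball 0 1) (ball 0 1) ∧
      MapsTo (fun z => v (Gi (ψ z))) (ball 0 1) (ball 0 1) ∧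
      (∀ z ∈ ball (0:ℂ) 1, v (Gi (ψ (v (G (ψ z))))) = z) ∧
      (∀ z ∈ ball (0:ℂ) 1, v (G (ψ (v (Gi (ψ z))))) = z) ∧
      (∃ Kq : ℝ, (∀ z ∈ ball (0:ℂ) 1, ‖fderiv ℝ (fun z => v (G (ψ z))) z‖ ^ 2 ≤
        Kq * |(fderiv ℝ (fun z => v (G (ψ z))) z).det|) ∧
        ∀ z ∈ ball (0:ℂ) 1, ‖fderiv ℝ (fun z => v (Gi (ψ z))) z‖ ^ 2 ≤
          Kq * |(fderiv ℝ (fun z => v (Gi (ψ z))) z).det|) ∧
      ∀ z ∈ ball (0:ℂ) 1, 0 < (fderiv ℝ (fun z => v (G (ψ z))) z).det := by
  have hW : IsOpen (fil X U) := fil_open D M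
  have hsub : fil X U ⊆ X := fun x hx => hx.1
  obtain ⟨mG, mGi⟩ := fil_maps D L M
  have dG : ∀ w ∈ fil X U, DifferentiableAt ℝ G w := fun w hw =>
    (L.c1.differentiableOn one_ne_zero).differentiableAt (D.opn.mem_nhds (hsub hw))
  have dGi : ∀ w ∈ fil X U, DifferentiableAt ℝ Gi w := fun w hw =>
    (L.c1i.differentiableOn one_ne_zero).differentiableAt (D.opn.mem_nhds (hsub hw))
  obtain ⟨K1, hK1⟩ := qc_lift D L
  obtain ⟨K2, hK2⟩ := qc_lift D (L.symm D)
  refine ⟨QB_cd hW R (L.c1.mono hsub) mG, QB_cd hW R (L.c1i.mono hsub) mGi,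
    fun z hz => R.mv (mG (R.mψ hz)), fun z hz => R.mv (mGi (R.mψ hz)), fun z hz => ?_,
    fun z hz => ?_, ⟨max K1 K2, fun z hz => ?_, fun z hz => ?_⟩, fun z hz => ?_⟩
  · rw [R.ψv _ (mG (R.mψ hz)), L.GiG _ (hsub (R.mψ hz)), R.vψ z hz]
  · rw [R.ψv _ (mGi (R.mψ hz)), L.GGi _ (hsub (R.mψ hz)), R.vψ z hz]
  · exact QB_qc hW R dG mG (fun w hw => hK1 w (hsub hw)) (le_max_left _ _) hz
  · exact QB_qc hW R dGi mGi (fun w hw => hK2 w (hsub hw)) (le_max_right _ _) hz
  · rw [QB_det hW R dG mG hz]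
    have h1 : 0 < ‖deriv v (G (ψ z))‖ := norm_pos_iff.2 (QB_vne hW R (mG (R.mψ hz)))
    have h2 : 0 < ‖deriv ψ z‖ := norm_pos_iff.2 (QB_ψne hW R hz)
    have h3 : 0 < (fderiv ℝ G (ψ z)).det := by
      have hx : ψ z ∈ X := hsub (R.mψ hz)
      have h4 := L.area _ hx
      have h5 := L.ρpos _ hx
      have h6 := L.ρpos _ (L.mG hx)
      rw [← h4] at h5
      exact (pos_iff_pos_of_mul_pos h5).1 h6
    positivity

end

end CV

end S_H36_DG_QB

section S_H36_DG_SPB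

/-!
SPB (`SPX` is invariant under the inverse lift).  `x ∈ X`, `Q ∈ X`, `Hyp (p Q)`, a curve `α` in `StabX X p g Q` with `α 0 = x`, velocity `v ≠ 0`.  Take `Gi Q`, `Gi ∘ α`: `Hyp (p (Gi Q)) = Hyp (gi (p Q))`
(`(L.symm D).lift`, `C.inv`); `Gi ∘ α` is `C¹` on `Ioo (-1) 1` (`c1i`), its velocity is `DGi(x) v ≠ 0` (chain rule; `DGi(x)` is injective because `DG(Gi x) ∘ DGi(x) = 1`);
`g^[n] (p (Gi y)) = g^[n] (gi (p y)) = g^[n-1] (p y)` for `n ≥ 1`, the same for `Q`, so `Gi y ∈ StabX X p g (Gi Q)` for `y ∈ StabX X p g Q`.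
-/

namespace CV

open Metric Set Filter Topology Function DS TN

section
variable {S : Type} [MetricSpace S] {X : Set ℂ} {Γ : Type} [Group Γ]
  {A : Γ → ℂ → ℂ} {p : ℂ → S} {g gi : S → S} {G Gi : ℂ → ℂ} {θ : Γ ≃* Γ} {ρ : ℂ → ℝ}
  {Hyp : S → Prop}

theorem SPB_stab (D : Deck X A p) (L : Lift X A p g gi G Gi θ ρ) {Q y : ℂ} (hQ : Q ∈ X)
    (hy : y ∈ StabX X p g Q) : Gi y ∈ StabX X p g (Gi Q) := by
  obtain ⟨hyX, hlim⟩ := hy
  have hl := (L.symm D).lift
  refine ⟨L.mGi hyX, ?_⟩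
  rw [hl y hyX, hl Q hQ]
  rw [← tendsto_add_atTop_iff_nat 1]
  refine hlim.congr fun n => ?_
  rw [iterate_succ_apply, iterate_succ_apply, L.ggi, L.ggi]

theorem spx_back (D : Deck X A p) (L : Lift X A p g gi G Gi θ ρ) (C : Cond X A p g gi G Hyp)
    {x : ℂ} (h : SPX X p g Hyp x) : SPX X p g Hyp (Gi x) := by
  obtain ⟨hx, Q, hQ, hHyp, v, hv, α, hα, hαW, hα0, hαd⟩ := h
  have hl := (L.symm D).lift
  have hXn : X ∈ 𝓝 x := D.opn.mem_nhds hx
  have hGix : Gi x ∈ X := L.mGi hx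
  have dGi : DifferentiableAt ℝ Gi x := (L.c1i.differentiableOn one_ne_zero x hx).differentiableAt hXn
  have dG : DifferentiableAt ℝ G (Gi x) :=
    (L.c1.differentiableOn one_ne_zero (Gi x) hGix).differentiableAt (D.opn.mem_nhds hGix)
  have dα : DifferentiableAt ℝ α 0 :=
    (hα.differentiableOn one_ne_zero 0 (by constructor <;> norm_num)).differentiableAt
      (Ioo_mem_nhds (by norm_num) (by norm_num))
  have hinj : fderiv ℝ G (Gi x) (fderiv ℝ Gi x v) = v := by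
    have h1 : HasFDerivAt (fun y => G (Gi y)) ((fderiv ℝ G (Gi x)).comp (fderiv ℝ Gi x)) x :=
      dG.hasFDerivAt.comp x dGi.hasFDerivAt
    have h2 : HasFDerivAt (fun y => G (Gi y)) (ContinuousLinearMap.id ℝ ℂ) x := by
      refine (hasFDerivAt_id x).congr_of_eventuallyEq ?_
      filter_upwards [hXn] with y hy
      exact L.GGi y hy
    have h3 := h1.unique h2
    have h4 := congrArg (fun T : ℂ →L[ℝ] ℂ => T v) h3
    simpa using h4
  refine ⟨hGix, Gi Q, L.mGi hQ, ?_, fderiv ℝ Gi x v, ?_, fun t => Gi (α t), ?_, ?_, ?_, ?_⟩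
  · rw [hl Q hQ]
    exact C.inv _ hHyp
  · intro h0
    rw [h0, map_zero] at hinj
    exact hv hinj.symm
  · exact L.c1i.comp hα fun t ht => (hαW t ht).1
  · intro t ht
    exact SPB_stab D L hQ (hαW t ht)
  · simp only [hα0]
  · have h1 : HasFDerivAt Gi (fderiv ℝ Gi x) (α 0) := by rw [hα0]; exact dGi.hasFDerivAt
    have h2 := h1.comp_hasDerivAt (0 : ℝ) dα.hasDerivAt
    rw [hαd] at h2
    exact h2.deriv

end

end CV

end S_H36_DG_SPB
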