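import Mathlib

/-! Joined modules of the proof of MP_8a27c0_an (one section per module). -/

section S_H36_DS_FBase

/-!
Definitions for hyperbolic fixed points in the plane (project MP_8a27c0_DS).
-/

namespace DS
open Metric Set Filter Topology

/-- the diagonal linear map `(x, y) ↦ (l x, m y)` -/
noncomputable def diagL (l m : ℝ) : ℂ →L[ℝ] ℂ :=
  LinearMap.toContinuousLinearMap
    { toFun := fun z => (⟨l * z.re, m * z.im⟩ : ℂ)
      map_add' := by
        intro x y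
        apply Complex.ext <;> simp <;> ring
      map_smul' := by
        intro c x
        apply Complex.ext <;> simp <;> ring }

/-- a `C¹` map of the plane fixing `0`, at bounded distance from the diagonal map, with derivative close
to it -/
structure NearDiag (F : ℂ → ℂ) (l m ε : ℝ) : Prop where
  c1 : ContDiff ℝ 1 F
  zero : F 0 = 0
  near : ∀ z, ‖fderiv ℝ F z - diagL l m‖ ≤ ε
  bdd : ∃ C, ∀ z, ‖F z - diagL l m z‖ ≤ C

end DS

end S_H36_DS_FBase

section S_H36_DS_FA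

/-!
FA (Lipschitz invariant graph over the expanding direction, by the graph transform).
WLOG `η ≤ 1`.  Write `F z = diagL l m z + f z`; `f` is `ε`-Lipschitz (mean value), bounded by `C`, `f 0 = 0`.
Let `E` be the set of bounded continuous functions `w : ℝ → ℝ` with `w 0 = 0`, Lipschitz constant `≤ η`, and
`|w y| ≤ C / (1 - l)`: a closed subset of `BoundedContinuousFunction ℝ ℝ`, complete, nonempty.
For `w ∈ E` the map `g_w y = (F ⟨w y, y⟩).im = m y + f₂ (w y, y)` is strictly increasing and onto, with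
`|g_w y - g_w y'| ≥ (m - 2ε) |y - y'|` (continuous, tends to `± ∞`); let `Γ w y' = (F ⟨w y, y⟩).re` for the `y` with
`g_w y = y'`.  `Γ w 0 = 0`; `|Γ w y'| ≤ l sup |w| + C`, Lipschitz constant `≤ (l η + 2 ε) / (m - 2 ε) ≤ η` for
`ε` small (`ε` depends on `l, m, η`; `(m - l) η ≥ 2 ε (1 + η)` suffices).
Contraction: if `g_w y = y' = g_v z`, then `m |y - z| ≤ |f₂ (w y, y) - f₂ (v z, z)| ≤ ε (‖w - v‖ + 2 |y - z|)`
(`|w y - v z| ≤ ‖w - v‖ + η |y - z|`), so `|y - z| ≤ ε ‖w - v‖ / (m - 2 ε)` and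
`|Γ w y' - Γ v y'| ≤ l (‖w - v‖ + |y - z|) + ε (‖w - v‖ + 2 |y - z|) ≤ θ ‖w - v‖` with `θ < 1` for `ε` small.
The fixed point `w` satisfies the claims.
-/

namespace DS
open Metric Set Filter Topology

/-- admissible functions -/
def FA_E (η : ℝ) : Set (BoundedContinuousFunction ℝ ℝ) :=
  {w | w 0 = 0 ∧ ∀ y y', |w y - w y'| ≤ η * |y - y'|}

theorem FA_closed (η : ℝ) : IsClosed (FA_E η) := by
  have h1 : FA_E η = {w : BoundedContinuousFunction ℝ ℝ | w 0 = 0} ∩
      ⋂ y, ⋂ y', {w : BoundedContinuousFunction ℝ ℝ | |w y - w y'| ≤ η * |y - y'|} := by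
    ext w
    simp [FA_E]
  rw [h1]
  have hc : ∀ y : ℝ, Continuous fun w : BoundedContinuousFunction ℝ ℝ => w y :=
    fun y => continuous_eval_const y
  refine IsClosed.inter (isClosed_eq (hc 0) continuous_const) ?_
  refine isClosed_iInter fun y => isClosed_iInter fun y' => ?_
  exact isClosed_le ((hc y).sub (hc y')).abs continuous_const

/-- the data of the graph transform -/
structure FA_D (l m η ε C : ℝ) (f1 f2 : ℝ → ℝ → ℝ) : Prop where
  l0 : 0 < l
  l1 : l < 1
  m1 : 1 < m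
  η0 : 0 < η
  η1 : η ≤ 1
  ε0 : 0 < ε
  εm : 4 * ε ≤ η * (m - 1)
  εl : 8 * ε ≤ 1 - l
  h1 : ∀ x y x' y', |f1 x y - f1 x' y'| ≤ ε * (|x - x'| + |y - y'|)
  h2 : ∀ x y x' y', |f2 x y - f2 x' y'| ≤ ε * (|x - x'| + |y - y'|)
  z2 : f2 0 0 = 0
  z1 : f1 0 0 = 0
  hC : ∀ x y, |f1 x y| ≤ C

section
variable {l m η ε C : ℝ} {f1 f2 : ℝ → ℝ → ℝ} (D : FA_D l m η ε C f1 f2)
include D

theorem FA_D.εm' : 4 * ε ≤ m - 1 := by
  have h1 := D.εm
  have h2 := D.η1
  have h3 := D.m1
  nlinarith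

theorem FA_lip2 {w : BoundedContinuousFunction ℝ ℝ} (hw : w ∈ FA_E η) (y y' : ℝ) :
    |f2 (w y) y - f2 (w y') y'| ≤ 2 * ε * |y - y'| := by
  have h1 := D.h2 (w y) y (w y') y'
  have h2 := hw.2 y y'
  have h3 := D.η1
  have h4 := D.ε0
  have h5 := abs_nonneg (y - y')
  have h6 : |w y - w y'| ≤ |y - y'| := h2.trans (by nlinarith)
  nlinarith

theorem FA_lip1 {w : BoundedContinuousFunction ℝ ℝ} (hw : w ∈ FA_E η) (y y' : ℝ) :
    |(l * w y + f1 (w y) y) - (l * w y' + f1 (w y') y')| ≤ (l * η + 2 * ε) * |y - y'| := by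
  have h1 := D.h1 (w y) y (w y') y'
  have h2 := hw.2 y y'
  have h3 := D.η1
  have h4 := D.ε0
  have h5 := abs_nonneg (y - y')
  have h6 : |w y - w y'| ≤ |y - y'| := h2.trans (by nlinarith)
  have h7 : (l * w y + f1 (w y) y) - (l * w y' + f1 (w y') y')
      = l * (w y - w y') + (f1 (w y) y - f1 (w y') y') := by ring
  rw [h7]
  refine (abs_add_le _ _).trans ?_
  rw [abs_mul, abs_of_pos D.l0]
  have h8 : l * |w y - w y'| ≤ l * (η * |y - y'|) := mul_le_mul_of_nonneg_left h2 D.l0.le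
  nlinarith

theorem FA_mono {w : BoundedContinuousFunction ℝ ℝ} (hw : w ∈ FA_E η) {y y' : ℝ} (h : y ≤ y') :
    (m - 2 * ε) * (y' - y) ≤ (m * y' + f2 (w y') y') - (m * y + f2 (w y) y) := by
  have h1 := FA_lip2 D hw y' y
  rw [abs_of_nonneg (sub_nonneg.2 h)] at h1
  have h2 := (abs_le.1 h1).1
  linarith

theorem FA_abs {w : BoundedContinuousFunction ℝ ℝ} (hw : w ∈ FA_E η) (y y' : ℝ) :
    (m - 2 * ε) * |y' - y| ≤ |(m * y' + f2 (w y') y') - (m * y + f2 (w y) y)| := by
  rcases le_total y y' with h | h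
  · rw [abs_of_nonneg (sub_nonneg.2 h)]
    exact (FA_mono D hw h).trans (le_abs_self _)
  · rw [abs_sub_comm y' y, abs_of_nonneg (sub_nonneg.2 h), abs_sub_comm]
    exact (FA_mono D hw h).trans (le_abs_self _)

theorem FA_surj {w : BoundedContinuousFunction ℝ ℝ} (hw : w ∈ FA_E η) :
    Function.Surjective fun y => m * y + f2 (w y) y := by
  have h4 := D.εm'
  have h4' := D.m1
  have h4'' := D.ε0
  have hc : Continuous fun y => m * y + f2 (w y) y := by
    have h1 : Continuous fun y => f2 (w y) y := by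
      have h2 : LipschitzWith (Real.toNNReal (2 * ε)) fun y => f2 (w y) y := by
        refine LipschitzWith.of_dist_le_mul fun a b => ?_
        rw [Real.dist_eq, Real.dist_eq, Real.coe_toNNReal _ (by linarith)]
        exact FA_lip2 D hw a b
      exact h2.continuous
    exact (continuous_const.mul continuous_id).add h1
  have h0 : m * 0 + f2 (w 0) 0 = 0 := by rw [hw.1, D.z2]; ring
  refine hc.surjective ?_ ?_
  · have h5 : Tendsto (fun y : ℝ => (m - 2 * ε) * y) atTop atTop :=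
      Tendsto.const_mul_atTop (by linarith) tendsto_id
    refine tendsto_atTop_mono' _ ?_ h5
    filter_upwards [eventually_ge_atTop (0 : ℝ)] with y hy
    have := FA_mono D hw hy
    rw [h0] at this
    linarith
  · have h5 : Tendsto (fun y : ℝ => (m - 2 * ε) * y) atBot atBot :=
      Tendsto.const_mul_atBot (by linarith) tendsto_id
    refine tendsto_atBot_mono' _ ?_ h5
    filter_upwards [eventually_le_atBot (0 : ℝ)] with y hy
    have := FA_mono D hw hy
    rw [h0] at this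
    linarith

theorem FA_step {w : BoundedContinuousFunction ℝ ℝ} (hw : w ∈ FA_E η) :
    ∃ v ∈ FA_E η, ∀ y, v (m * y + f2 (w y) y) = l * w y + f1 (w y) y := by
  have h4 := D.εm'
  have h4' := D.m1
  have h4'' := D.ε0
  have hsurj := FA_surj D hw
  obtain ⟨h, hh⟩ : ∃ h : ℝ → ℝ, ∀ a, m * h a + f2 (w (h a)) (h a) = a :=
    ⟨Function.surjInv hsurj, fun a => Function.surjInv_eq hsurj a⟩
  have hinj : ∀ y y', m * y + f2 (w y) y = m * y' + f2 (w y') y' → y = y' := by
    intro y y' he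
    have h5 := FA_abs D hw y y'
    rw [he, sub_self, abs_zero] at h5
    have h6 := abs_nonneg (y' - y)
    have h7 : |y' - y| = 0 := by nlinarith
    have h8 := abs_eq_zero.1 h7
    linarith
  have hlip : ∀ a b, |(l * w (h a) + f1 (w (h a)) (h a)) - (l * w (h b) + f1 (w (h b)) (h b))|
      ≤ η * |a - b| := by
    intro a b
    have h5 := FA_lip1 D hw (h a) (h b)
    have h6 := FA_abs D hw (h b) (h a)
    rw [hh, hh] at h6
    have h7 := abs_nonneg (h a - h b)
    have h8 : l * η + 2 * ε ≤ η * (m - 2 * ε) := by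
      have := D.εm
      have := D.η1
      have := D.l1
      have := D.η0
      nlinarith
    calc _ ≤ (l * η + 2 * ε) * |h a - h b| := h5
      _ ≤ (η * (m - 2 * ε)) * |h a - h b| := mul_le_mul_of_nonneg_right h8 h7
      _ = η * ((m - 2 * ε) * |h a - h b|) := by ring
      _ ≤ η * |a - b| := mul_le_mul_of_nonneg_left h6 D.η0.le
  have hcont : Continuous fun a => l * w (h a) + f1 (w (h a)) (h a) := by
    have h2 : LipschitzWith (Real.toNNReal η) fun a => l * w (h a) + f1 (w (h a)) (h a) := by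
      refine LipschitzWith.of_dist_le_mul fun a b => ?_
      rw [Real.dist_eq, Real.dist_eq, Real.coe_toNNReal _ D.η0.le]
      exact hlip a b
    exact h2.continuous
  refine ⟨BoundedContinuousFunction.ofNormedAddCommGroup
    (fun a => l * w (h a) + f1 (w (h a)) (h a)) hcont (l * ‖w‖ + C) ?_, ⟨?_, ?_⟩, ?_⟩
  · intro a
    rw [Real.norm_eq_abs]
    refine (abs_add_le _ _).trans ?_
    rw [abs_mul, abs_of_pos D.l0]
    have h5 := w.norm_coe_le_norm (h a)
    rw [Real.norm_eq_abs] at h5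
    have h6 := D.hC (w (h a)) (h a)
    have h7 := D.l0
    nlinarith
  · show l * w (h 0) + f1 (w (h 0)) (h 0) = 0
    have h5 : h 0 = 0 := by
      apply hinj
      rw [hh, hw.1, D.z2]
      ring
    rw [h5, hw.1, D.z1]
    ring
  · intro a b
    exact hlip a b
  · intro y
    show l * w (h (m * y + f2 (w y) y)) + f1 (w (h (m * y + f2 (w y) y))) (h (m * y + f2 (w y) y)) = _
    rw [hinj _ _ (hh (m * y + f2 (w y) y))]

theorem FA_contr {w w' v v' : BoundedContinuousFunction ℝ ℝ} (hw : w ∈ FA_E η) (hw' : w' ∈ FA_E η)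
    (hv : ∀ y, v (m * y + f2 (w y) y) = l * w y + f1 (w y) y)
    (hv' : ∀ y, v' (m * y + f2 (w' y) y) = l * w' y + f1 (w' y) y) :
    dist v v' ≤ (1 + l) / 2 * dist w w' := by
  have hl0 := D.l0
  have hl1 := D.l1
  have h4 := D.εm'
  have h4' := D.m1
  have h4'' := D.ε0
  have hεl := D.εl
  have hη1 := D.η1
  have hη0 := D.η0
  rw [BoundedContinuousFunction.dist_le (by have := dist_nonneg (x := w) (y := w'); nlinarith)]
  intro a
  obtain ⟨y, hy⟩ := FA_surj D hw a
  obtain ⟨z, hz⟩ := FA_surj D hw' a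
  have hy' : m * y + f2 (w y) y = a := hy
  have hz' : m * z + f2 (w' z) z = a := hz
  obtain ⟨Δ, hΔ⟩ : ∃ Δ, Δ = dist w w' := ⟨_, rfl⟩
  have hΔ0 : 0 ≤ Δ := by rw [hΔ]; exact dist_nonneg
  have e1 : |w y - w' z| ≤ Δ + |y - z| := by
    have h5 : |w y - w' y| ≤ Δ := by
      rw [hΔ, ← Real.dist_eq]
      exact BoundedContinuousFunction.dist_coe_le_dist y
    have h6 := hw'.2 y z
    have h7 := abs_nonneg (y - z)
    have h8 : |w y - w' z| ≤ |w y - w' y| + |w' y - w' z| := abs_sub_le _ _ _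
    nlinarith
  have e2 : m * |y - z| ≤ ε * (Δ + 2 * |y - z|) := by
    have h5 : m * (y - z) = f2 (w' z) z - f2 (w y) y := by linarith
    have h6 : m * |y - z| = |f2 (w' z) z - f2 (w y) y| := by
      rw [← h5, abs_mul, abs_of_pos (show (0 : ℝ) < m by linarith)]
    rw [h6, abs_sub_comm]
    refine (D.h2 (w y) y (w' z) z).trans ?_
    apply mul_le_mul_of_nonneg_left _ h4''.le
    linarith
  have e3 : |y - z| ≤ ε * Δ := by
    have h7 := abs_nonneg (y - z)
    nlinarith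
  have e4 : v a - v' a = l * (w y - w' z) + (f1 (w y) y - f1 (w' z) z) := by
    have h5 := hv y
    have h6 := hv' z
    rw [hy'] at h5
    rw [hz'] at h6
    rw [h5, h6]
    ring
  rw [Real.dist_eq, e4, ← hΔ]
  refine (abs_add_le _ _).trans ?_
  rw [abs_mul, abs_of_pos hl0]
  have e5 := D.h1 (w y) y (w' z) z
  have e6 : l * |w y - w' z| ≤ l * (Δ + ε * Δ) :=
    mul_le_mul_of_nonneg_left (e1.trans (by linarith)) hl0.le
  have e7 : ε * (|w y - w' z| + |y - z|) ≤ ε * (Δ + 2 * (ε * Δ)) :=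
    mul_le_mul_of_nonneg_left (by linarith) h4''.le
  have e8 : l * (ε * Δ) ≤ ε * Δ := by
    have : 0 ≤ ε * Δ := by positivity
    nlinarith
  have e9 : ε * (ε * Δ) ≤ ε * Δ * (1 / 8) := by
    have h5 : 0 ≤ ε * Δ := by positivity
    nlinarith
  have e10 : 4 * (ε * Δ) ≤ (1 - l) / 2 * Δ := by nlinarith
  have e11 : 0 ≤ ε * Δ := by positivity
  calc l * |w y - w' z| + |f1 (w y) y - f1 (w' z) z|
      ≤ l * (Δ + ε * Δ) + ε * (Δ + 2 * (ε * Δ)) := add_le_add e6 (e5.trans e7)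
    _ = l * Δ + l * (ε * Δ) + ε * Δ + 2 * (ε * (ε * Δ)) := by ring
    _ ≤ (1 + l) / 2 * Δ := by linarith

theorem FA_fixed : ∃ w ∈ FA_E η, ∀ y, w (m * y + f2 (w y) y) = l * w y + f1 (w y) y := by
  have hl0 := D.l0
  have hl1 := D.l1
  choose! Γ hΓ1 hΓ2 using fun (w : BoundedContinuousFunction ℝ ℝ) (hw : w ∈ FA_E η) => FA_step D hw
  have : CompleteSpace (FA_E η) := (FA_closed η).completeSpace_coe
  have : Nonempty (FA_E η) := ⟨⟨0, by
    refine ⟨rfl, fun y y' => ?_⟩
    have := D.η0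
    simp only [BoundedContinuousFunction.coe_zero, Pi.zero_apply, sub_zero, abs_zero]
    positivity⟩⟩
  let T : FA_E η → FA_E η := fun w => ⟨Γ w.1, hΓ1 w.1 w.2⟩
  have hT : ContractingWith (Real.toNNReal ((1 + l) / 2)) T := by
    refine ⟨?_, ?_⟩
    · rw [← NNReal.coe_lt_coe, Real.coe_toNNReal _ (by linarith), NNReal.coe_one]
      linarith
    · refine LipschitzWith.of_dist_le_mul fun a b => ?_
      rw [Real.coe_toNNReal _ (by linarith)]
      exact FA_contr D a.2 b.2 (hΓ2 a.1 a.2) (hΓ2 b.1 b.2)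
  have hfix := hT.fixedPoint_isFixedPt
  obtain ⟨w, hw⟩ : ∃ w, w = ContractingWith.fixedPoint T hT := ⟨_, rfl⟩
  rw [← hw] at hfix
  have h1 : Γ w.1 = w.1 := congrArg Subtype.val hfix
  refine ⟨w.1, w.2, ?_⟩
  have h2 := hΓ2 w.1 w.2
  rw [h1] at h2
  exact h2

end

theorem lip_graph {l m η : ℝ} (hl : 0 < l) (hl1 : l < 1) (hm : 1 < m) (hη : 0 < η) :
    ∃ ε > 0, ∀ F : ℂ → ℂ, NearDiag F l m ε → ∃ w : ℝ → ℝ, w 0 = 0 ∧
      (∀ y y', |w y - w y'| ≤ η * |y - y'|) ∧
      (∀ y, (F ⟨w y, y⟩).re = w (F ⟨w y, y⟩).im) ∧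
      (∀ y y', y < y' → (m + 1) / 2 * (y' - y) ≤ (F ⟨w y', y'⟩).im - (F ⟨w y, y⟩).im) ∧
      ∀ y', ∃ y, (F ⟨w y, y⟩).im = y' := by
  obtain ⟨η', hη'⟩ : ∃ η', η' = min η 1 := ⟨_, rfl⟩
  have hη'0 : 0 < η' := by rw [hη']; exact lt_min hη one_pos
  have hη'1 : η' ≤ 1 := by rw [hη']; exact min_le_right _ _
  have hη'η : η' ≤ η := by rw [hη']; exact min_le_left _ _
  obtain ⟨ε, hε⟩ : ∃ ε, ε = min (η' * (m - 1) / 4) ((1 - l) / 8) := ⟨_, rfl⟩
  have hm0 : 0 < m - 1 := by linarith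
  have hε0 : 0 < ε := by
    rw [hε]
    exact lt_min (by positivity) (by linarith)
  have hε1 : 4 * ε ≤ η' * (m - 1) := by
    have := min_le_left (η' * (m - 1) / 4) ((1 - l) / 8)
    rw [← hε] at this
    linarith
  have hε2 : 8 * ε ≤ 1 - l := by
    have := min_le_right (η' * (m - 1) / 4) ((1 - l) / 8)
    rw [← hε] at this
    linarith
  refine ⟨ε, hε0, ?_⟩
  intro F hF
  obtain ⟨C, hC⟩ := hF.bdd
  obtain ⟨f, hf⟩ : ∃ f : ℂ → ℂ, ∀ z, f z = F z - diagL l m z := ⟨_, fun _ => rfl⟩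
  have hff : f = fun z => F z - diagL l m z := funext hf
  have hdF : Differentiable ℝ F := hF.c1.differentiable (by norm_num)
  have hlipf : ∀ z z' : ℂ, ‖f z - f z'‖ ≤ ε * ‖z - z'‖ := by
    intro z z'
    have hd : ∀ x ∈ (univ : Set ℂ), DifferentiableAt ℝ f x := by
      intro x _
      rw [hff]
      exact (hdF x).sub (diagL l m).differentiableAt
    have hb : ∀ x ∈ (univ : Set ℂ), ‖fderiv ℝ f x‖ ≤ ε := by
      intro x _
      have h1 : fderiv ℝ f x = fderiv ℝ F x - diagL l m := by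
        rw [hff, fderiv_fun_sub (hdF x) (diagL l m).differentiableAt,
          ContinuousLinearMap.fderiv]
      rw [h1]
      exact hF.near x
    exact convex_univ.norm_image_sub_le_of_norm_fderiv_le hd hb (mem_univ _) (mem_univ _)
  have hre : ∀ x y, (F ⟨x, y⟩).re = l * x + (f ⟨x, y⟩).re := by
    intro x y
    rw [hf]
    simp [diagL]
  have him : ∀ x y, (F ⟨x, y⟩).im = m * y + (f ⟨x, y⟩).im := by
    intro x y
    rw [hf]
    simp [diagL]
  have hnrm : ∀ x y x' y' : ℝ, ‖(⟨x, y⟩ : ℂ) - ⟨x', y'⟩‖ ≤ |x - x'| + |y - y'| := by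
    intro x y x' y'
    have := Complex.norm_le_abs_re_add_abs_im ((⟨x, y⟩ : ℂ) - ⟨x', y'⟩)
    simpa using this
  have hz : f ⟨0, 0⟩ = 0 := by
    have h0 : (⟨0, 0⟩ : ℂ) = 0 := rfl
    rw [h0, hf, hF.zero, map_zero, sub_zero]
  have D : FA_D l m η' ε C (fun x y => (f ⟨x, y⟩).re) (fun x y => (f ⟨x, y⟩).im) :=
    { l0 := hl
      l1 := hl1
      m1 := hm
      η0 := hη'0
      η1 := hη'1
      ε0 := hε0
      εm := hε1
      εl := hε2
      h1 := by
        intro x y x' y'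
        have h1 := Complex.abs_re_le_norm (f ⟨x, y⟩ - f ⟨x', y'⟩)
        rw [Complex.sub_re] at h1
        exact h1.trans ((hlipf _ _).trans (mul_le_mul_of_nonneg_left (hnrm _ _ _ _) hε0.le))
      h2 := by
        intro x y x' y'
        have h1 := Complex.abs_im_le_norm (f ⟨x, y⟩ - f ⟨x', y'⟩)
        rw [Complex.sub_im] at h1
        exact h1.trans ((hlipf _ _).trans (mul_le_mul_of_nonneg_left (hnrm _ _ _ _) hε0.le))
      z2 := by
        show (f ⟨0, 0⟩).im = 0
        rw [hz]; rfl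
      z1 := by
        show (f ⟨0, 0⟩).re = 0
        rw [hz]; rfl
      hC := by
        intro x y
        have h1 := hC ⟨x, y⟩
        rw [← hf] at h1
        exact (Complex.abs_re_le_norm _).trans h1 }
  obtain ⟨w, hw, hfix⟩ := FA_fixed D
  refine ⟨w, hw.1, ?_, ?_, ?_, ?_⟩
  · intro y y'
    exact (hw.2 y y').trans (mul_le_mul_of_nonneg_right hη'η (abs_nonneg _))
  · intro y
    rw [hre, him]
    exact (hfix y).symm
  · intro y y' hyy
    rw [him, him]
    refine le_trans ?_ (FA_mono D hw hyy.le)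
    have h1 := D.εm'
    exact mul_le_mul_of_nonneg_right (by linarith) (by linarith)
  · intro y'
    obtain ⟨y, hy⟩ := FA_surj D hw y'
    exact ⟨y, by rw [him]; exact hy⟩

end DS

end S_H36_DS_FA

section S_H36_DS_FB

/-!
FB (the invariant graph is `C¹`).  Take `η' = min η 1` and `ε` from `lip_graph` for `η'`, and smaller, so that
with `θ = (l + 2ε) (1 + ...) / ...` below is `< 1`: precisely, for a matrix `M` with `‖M - diagL l m‖ ≤ ε` the action on slopes
`s ↦ M·s`, defined by `M (s, 1) = (a, b)`, `M·s = a / b`, maps `[-1, 1]` to itself and is a `θ`-contraction there,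
`θ = (l + 1)/2 < 1` (for `ε` small, `b ≥ m - 2ε > 1`, `|a/b|≤ (l + 2ε)/(m - 2ε) < 1`, derivative of the Moebius map).
Let `y ↦ ȳ` be the inverse of `y ↦ (F ⟨w y, y⟩).im` (a contraction with factor `2/(m+1) < 1`, continuous), `z y = ⟨w y, y⟩`,
so `F (z ȳ) = z y`.  Secant slopes: for `y ≠ y'`, `s(y,y') = (w y - w y')/(y - y')`, `|s| ≤ 1`, and
`s(y, y') = M·s(ȳ, ȳ')` with `M = ∫_0^1 F'(z ȳ' + t (z ȳ - z ȳ')) dt`.
Fix `y₀`, its backward orbit `y_k` (`y_{k+1} = ȳ_k`), `A_k = F'(z y_k)` for `k ≥ 1`, and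
`d_n(y₀) = A_1·(A_2·(... A_n·0))`; `|d_n - d_{n+1}| ≤ θ^n`, so `d_n(y) → d(y)` uniformly, `d_n` is continuous in `y`, so `d` is
continuous, `|d| ≤ 1`.  For `y → y₀` and fixed `n` the secant slope `s(y, y₀)` is `M_1·(... M_n·s(y_n, y₀_n))` with `M_k → A_k`
(continuity of `F'`), so `limsup |s(y,y₀) - d_n(y₀)| ≤ 2 θ^n`; hence `w` is differentiable at `y₀` with derivative
`d(y₀)`.  So `w` is `C¹`; `|w'| ≤ η` from the Lipschitz bound.
-/

namespace DS
open Metric Set Filter Topology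

/-- `w` is approximately linear at `y₀` with slope at most one in modulus and error `c` -/
def FB_P (w : ℝ → ℝ) (c y₀ : ℝ) : Prop :=
  ∃ σ : ℝ, |σ| ≤ 1 ∧ ∃ δ > 0, ∀ y y', |y - y₀| < δ → |y' - y₀| < δ →
    |w y - w y' - σ * (y - y')| ≤ c * |y - y'|

theorem FB_mk (x y : ℝ) : (⟨x, y⟩ : ℂ) = x • (1 : ℂ) + y • Complex.I := by
  apply Complex.ext <;> simp

theorem FB_entries {A : ℂ →L[ℝ] ℂ} {l m ε : ℝ} (h : ‖A - diagL l m‖ ≤ ε) :
    ∃ a b c d : ℝ, |a - l| ≤ ε ∧ |b| ≤ ε ∧ |c| ≤ ε ∧ |d - m| ≤ ε ∧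
      ∀ x y : ℝ, (A ⟨x, y⟩).re = a * x + b * y ∧ (A ⟨x, y⟩).im = c * x + d * y := by
  have h1 : ‖(A - diagL l m) 1‖ ≤ ε := by
    refine ((A - diagL l m).le_opNorm 1).trans ?_
    simpa using h
  have h2 : ‖(A - diagL l m) Complex.I‖ ≤ ε := by
    refine ((A - diagL l m).le_opNorm Complex.I).trans ?_
    simpa using h
  have e1 : (A - diagL l m) 1 = A 1 - ⟨l, 0⟩ := by
    rw [sub_apply]
    congr 1
    apply Complex.ext <;> simp [diagL]
  have e2 : (A - diagL l m) Complex.I = A Complex.I - ⟨0, m⟩ := by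
    rw [sub_apply]
    congr 1
    apply Complex.ext <;> simp [diagL]
  rw [e1] at h1
  rw [e2] at h2
  refine ⟨(A 1).re, (A Complex.I).re, (A 1).im, (A Complex.I).im, ?_, ?_, ?_, ?_, ?_⟩
  · have := (Complex.abs_re_le_norm (A 1 - ⟨l, 0⟩)).trans h1
    simpa using this
  · have := (Complex.abs_re_le_norm (A Complex.I - ⟨0, m⟩)).trans h2
    simpa using this
  · have := (Complex.abs_im_le_norm (A 1 - ⟨l, 0⟩)).trans h1
    simpa using this
  · have := (Complex.abs_im_le_norm (A Complex.I - ⟨0, m⟩)).trans h2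
    simpa using this
  · intro x y
    rw [FB_mk, map_add, map_smul, map_smul]
    constructor
    · simp only [Complex.add_re, Complex.real_smul, Complex.mul_re, Complex.ofReal_re,
        Complex.ofReal_im]
      ring
    · simp only [Complex.add_im, Complex.real_smul, Complex.mul_im, Complex.ofReal_re,
        Complex.ofReal_im]
      ring

/-- one step of the argument -/
theorem FB_step {l m ε : ℝ} (hl : 0 < l) (hm : 1 < m) (hε : 0 < ε)
    (hε1 : ε ≤ (1 - l) / 4) {F : ℂ → ℂ} (hF : NearDiag F l m ε) {w : ℝ → ℝ}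
    (hw : ∀ y y', |w y - w y'| ≤ 1 * |y - y'|)
    (hinv : ∀ y, (F ⟨w y, y⟩).re = w (F ⟨w y, y⟩).im)
    (hexp : ∀ y y', y < y' → (m + 1) / 2 * (y' - y) ≤ (F ⟨w y', y'⟩).im - (F ⟨w y, y⟩).im)
    (honto : ∀ y', ∃ y, (F ⟨w y, y⟩).im = y') {c : ℝ} (hc : 0 ≤ c) {y₀ : ℝ}
    (hP : FB_P w c y₀) {e : ℝ} (he : 0 < e) :
    FB_P w ((l + 2 * ε) * c + e) ((F ⟨w y₀, y₀⟩).im) := by
  obtain ⟨σ, hσ, δ, hδ, hs⟩ := hP
  have hexp' : ∀ y y', |y - y'| ≤ |(F ⟨w y, y⟩).im - (F ⟨w y', y'⟩).im| := by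
    intro y y'
    rcases lt_trichotomy y y' with h | h | h
    · have h1 := hexp y y' h
      rw [abs_sub_comm y y', abs_sub_comm (F ⟨w y, y⟩).im, abs_of_pos (sub_pos.mpr h)]
      refine le_trans ?_ (le_abs_self _)
      nlinarith [sub_pos.mpr h]
    · subst h; simp
    · have h1 := hexp y' y h
      rw [abs_of_pos (sub_pos.mpr h)]
      refine le_trans ?_ (le_abs_self _)
      nlinarith [sub_pos.mpr h]
  set z₀ : ℂ := ⟨w y₀, y₀⟩ with hz₀
  obtain ⟨a, b, c', d, ha, hb, hc', hd, hA⟩ := FB_entries (hF.near z₀)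
  have hstrict : HasStrictFDerivAt F (fderiv ℝ F z₀) z₀ :=
    hF.c1.contDiffAt.hasStrictFDerivAt (by norm_num)
  have hlo := hstrict.isLittleO.def (show (0 : ℝ) < e / 4 by positivity)
  rw [Metric.eventually_nhds_iff] at hlo
  obtain ⟨ρ, hρ, hlo⟩ := hlo
  have hlo' : ∀ z z' : ℂ, dist z z₀ < ρ → dist z' z₀ < ρ →
      ‖F z - F z' - fderiv ℝ F z₀ (z - z')‖ ≤ e / 4 * ‖z - z'‖ := by
    intro z z' h1 h2
    have := hlo (y := (z, z')) (by rw [Prod.dist_eq]; exact max_lt h1 h2)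
    simpa using this
  have hzd : ∀ y y' : ℝ, ‖(⟨w y, y⟩ : ℂ) - ⟨w y', y'⟩‖ ≤ 2 * |y - y'| := by
    intro y y'
    refine (Complex.norm_le_abs_re_add_abs_im _).trans ?_
    have := hw y y'
    simp only [Complex.sub_re, Complex.sub_im]
    linarith
  have ha' := abs_le.mp ha
  have hd' := abs_le.mp hd
  have hb' := abs_le.mp hb
  have hcc := abs_le.mp hc'
  have hσ' := abs_le.mp hσ
  have hcσ : |c' * σ| ≤ ε := by
    rw [abs_mul]
    calc |c'| * |σ| ≤ ε * 1 := mul_le_mul hc' hσ (abs_nonneg _) hε.le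
      _ = ε := mul_one _
  have haa : |a| ≤ l + ε := by
    rw [abs_le]; constructor <;> linarith [ha'.1, ha'.2]
  have haσ : |a * σ| ≤ l + ε := by
    rw [abs_mul]
    calc |a| * |σ| ≤ (l + ε) * 1 := mul_le_mul haa hσ (abs_nonneg _) (by linarith)
      _ = l + ε := mul_one _
  have hD : 0 < c' * σ + d := by
    have := (abs_le.mp hcσ).1
    linarith [hd'.1]
  have hND : |a * σ + b| ≤ c' * σ + d := by
    have h1 := (abs_le.mp hcσ).1
    have h2 := abs_le.mp haσ
    rw [abs_le]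
    constructor <;> linarith [hd'.1, hb'.1, hb'.2, h2.1, h2.2]
  set σ' : ℝ := (a * σ + b) / (c' * σ + d) with hσd
  have hσ1 : |σ'| ≤ 1 := by
    rw [hσd, abs_div, abs_of_pos hD]
    exact (div_le_one hD).mpr hND
  have hσm : σ' * (c' * σ + d) = a * σ + b := by
    rw [hσd, div_mul_cancel₀ _ hD.ne']
  refine ⟨σ', hσ1, min δ (ρ / 2), lt_min hδ (by positivity), ?_⟩
  intro Y Y' hY hY'
  obtain ⟨y, rfl⟩ := honto Y
  obtain ⟨y', rfl⟩ := honto Y'
  have hy := (hexp' y y₀).trans_lt hY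
  have hy' := (hexp' y' y₀).trans_lt hY'
  have k1 := hs y y' (hy.trans_le (min_le_left _ _)) (hy'.trans_le (min_le_left _ _))
  have k2 := hlo' ⟨w y, y⟩ ⟨w y', y'⟩
    (by rw [dist_eq_norm]; refine (hzd y y₀).trans_lt ?_
        have := hy.trans_le (min_le_right _ _); linarith)
    (by rw [dist_eq_norm]; refine (hzd y' y₀).trans_lt ?_
        have := hy'.trans_le (min_le_right _ _); linarith)
  have k3 := k2.trans (mul_le_mul_of_nonneg_left (hzd y y') (by positivity : 0 ≤ e / 4))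
  have e0 : (⟨w y, y⟩ : ℂ) - ⟨w y', y'⟩ = ⟨w y - w y', y - y'⟩ := by
    apply Complex.ext <;> simp
  rw [e0] at k3
  obtain ⟨A1, A2⟩ := hA (w y - w y') (y - y')
  have r1 := (Complex.abs_re_le_norm _).trans k3
  have r2 := (Complex.abs_im_le_norm _).trans k3
  rw [Complex.sub_re, Complex.sub_re, A1] at r1
  rw [Complex.sub_im, Complex.sub_im, A2] at r2
  rw [← hinv y, ← hinv y']
  set R1 : ℝ := (F ⟨w y, y⟩).re - (F ⟨w y', y'⟩).re - (a * (w y - w y') + b * (y - y')) with hR1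
  set R2 : ℝ := (F ⟨w y, y⟩).im - (F ⟨w y', y'⟩).im - (c' * (w y - w y') + d * (y - y')) with hR2
  set τ : ℝ := w y - w y' - σ * (y - y') with hτ
  have key : (F ⟨w y, y⟩).re - (F ⟨w y', y'⟩).re
      - σ' * ((F ⟨w y, y⟩).im - (F ⟨w y', y'⟩).im)
      = a * τ + R1 - σ' * (c' * τ + R2) := by
    have : (F ⟨w y, y⟩).re - (F ⟨w y', y'⟩).re = a * (w y - w y') + b * (y - y') + R1 := by
      rw [hR1]; ring
    rw [this]
    have : (F ⟨w y, y⟩).im - (F ⟨w y', y'⟩).im = c' * (w y - w y') + d * (y - y') + R2 := by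
      rw [hR2]; ring
    rw [this, hτ]
    linear_combination (-(y - y')) * hσm
  rw [key]
  have q1 : |a * τ| ≤ (l + ε) * |τ| := by
    rw [abs_mul]; exact mul_le_mul_of_nonneg_right haa (abs_nonneg _)
  have q2 : |σ' * (c' * τ + R2)| ≤ ε * |τ| + |R2| := by
    rw [abs_mul]
    calc |σ'| * |c' * τ + R2| ≤ 1 * |c' * τ + R2| :=
          mul_le_mul_of_nonneg_right hσ1 (abs_nonneg _)
      _ ≤ |c' * τ| + |R2| := by rw [one_mul]; exact abs_add_le _ _
      _ ≤ ε * |τ| + |R2| := by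
          rw [abs_mul]
          have := mul_le_mul_of_nonneg_right hc' (abs_nonneg τ)
          linarith
  have q3 : |a * τ + R1 - σ' * (c' * τ + R2)| ≤ |a * τ| + |R1| + |σ' * (c' * τ + R2)| := by
    refine (abs_sub _ _).trans ?_
    have := abs_add_le (a * τ) R1
    linarith
  have q4 := hexp' y y'
  have q5 : (l + 2 * ε) * |τ| ≤ (l + 2 * ε) * (c * |y - y'|) :=
    mul_le_mul_of_nonneg_left k1 (by linarith)
  have q6 : ((l + 2 * ε) * c + e) * |y - y'| ≤
      ((l + 2 * ε) * c + e) * |(F ⟨w y, y⟩).im - (F ⟨w y', y'⟩).im| :=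
    mul_le_mul_of_nonneg_left q4 (by positivity)
  nlinarith [abs_nonneg τ, abs_nonneg (y - y')]

theorem c1_graph {l m η : ℝ} (hl : 0 < l) (hl1 : l < 1) (hm : 1 < m) (hη : 0 < η) :
    ∃ ε > 0, ∀ F : ℂ → ℂ, NearDiag F l m ε → ∃ w : ℝ → ℝ, ContDiff ℝ 1 w ∧ w 0 = 0 ∧
      (∀ y, |deriv w y| ≤ η) ∧ (∀ y, (F ⟨w y, y⟩).re = w (F ⟨w y, y⟩).im) ∧
      ∀ y', ∃ y, (F ⟨w y, y⟩).im = y' := by
  obtain ⟨ε₀, hε₀, hlip⟩ := lip_graph hl hl1 hm (lt_min hη one_pos)
  refine ⟨min ε₀ ((1 - l) / 4), lt_min hε₀ (by linarith), ?_⟩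
  intro F hF
  obtain ⟨w, hw0, hwl, hinv, hexp, honto⟩ := hlip F
    ⟨hF.c1, hF.zero, fun z => (hF.near z).trans (min_le_left _ _), hF.bdd⟩
  have hw1 : ∀ y y', |w y - w y'| ≤ 1 * |y - y'| := fun y y' =>
    (hwl y y').trans (mul_le_mul_of_nonneg_right (min_le_right _ _) (abs_nonneg _))
  set ε : ℝ := min ε₀ ((1 - l) / 4) with hε
  have hε0 : 0 < ε := lt_min hε₀ (by linarith)
  have hε1 : ε ≤ (1 - l) / 4 := min_le_right _ _
  set θ : ℝ := l + 2 * ε with hθ
  have hθ0 : 0 < θ := by rw [hθ]; linarith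
  have hθ1 : θ < 1 := by rw [hθ]; linarith
  have hiter : ∀ n : ℕ, ∀ Y e : ℝ, 0 < e → FB_P w (θ ^ n + e) Y := by
    intro n
    induction n with
    | zero =>
      intro Y e he
      refine ⟨0, by simp, 1, one_pos, fun y y' _ _ => ?_⟩
      have := hw1 y y'
      have h2 : 0 ≤ e * |y - y'| := by positivity
      rw [zero_mul, sub_zero, pow_zero, add_mul]
      linarith
    | succ n ih =>
      intro Y e he
      obtain ⟨y, rfl⟩ := honto Y
      have h1 := FB_step hl hm hε0 hε1 hF hw1 hinv hexp honto (c := θ ^ n + e / 2)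
        (by positivity) (ih y (e / 2) (by positivity)) (half_pos he)
      obtain ⟨σ, hσ, δ, hδ, hs⟩ := h1
      refine ⟨σ, hσ, δ, hδ, fun u u' hu hu' => (hs u u' hu hu').trans ?_⟩
      refine mul_le_mul_of_nonneg_right ?_ (abs_nonneg _)
      rw [← hθ, pow_succ]
      nlinarith [pow_pos hθ0 n]
  have hall : ∀ Y c : ℝ, 0 < c → FB_P w c Y := by
    intro Y c hc
    obtain ⟨n, hn⟩ := exists_pow_lt_of_lt_one (half_pos hc) hθ1
    obtain ⟨σ, hσ, δ, hδ, hs⟩ := hiter n Y (c / 2) (half_pos hc)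
    refine ⟨σ, hσ, δ, hδ, fun u u' hu hu' => (hs u u' hu hu').trans ?_⟩
    exact mul_le_mul_of_nonneg_right (by linarith) (abs_nonneg _)
  -- differentiability
  have hdiff : ∀ Y : ℝ, ∃ d : ℝ, ∀ c > 0, ∃ δ > 0, ∀ y y', |y - Y| < δ → |y' - Y| < δ →
      |w y - w y' - d * (y - y')| ≤ c * |y - y'| := by
    intro Y
    choose σ hσ δ hδ hs using fun n : ℕ => hall Y ((1 : ℝ) / 2 ^ n) (by positivity)
    have hcmp : ∀ n k : ℕ, |σ n - σ k| ≤ 1 / 2 ^ n + 1 / 2 ^ k := by
      intro n k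
      set t : ℝ := min (δ n) (δ k) / 2 with ht
      have ht0 : 0 < t := by have := lt_min (hδ n) (hδ k); positivity
      have h0 := hs n (Y + t) Y
        (by rw [add_sub_cancel_left, abs_of_pos ht0]
            have := min_le_left (δ n) (δ k); have := hδ n; rw [ht]; linarith)
        (by simpa using hδ n)
      have h1 := hs k (Y + t) Y
        (by rw [add_sub_cancel_left, abs_of_pos ht0]
            have := min_le_right (δ n) (δ k); have := hδ k; rw [ht]; linarith)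
        (by simpa using hδ k)
      rw [add_sub_cancel_left, abs_of_pos ht0] at h0 h1
      have h2 : |(σ n - σ k) * t| ≤ (1 / 2 ^ n + 1 / 2 ^ k) * t := by
        have e : (σ n - σ k) * t = (w (Y + t) - w Y - σ k * t) - (w (Y + t) - w Y - σ n * t) := by
          ring
        rw [e]
        refine (abs_sub _ _).trans ?_
        linarith
      rw [abs_mul, abs_of_pos ht0] at h2
      exact le_of_mul_le_mul_right h2 ht0
    have hcau : CauchySeq σ := by
      refine cauchySeq_of_le_tendsto_0 (fun n => (2 : ℝ) * (1 / 2 ^ n)) ?_ ?_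
      · intro n k N hn hk
        rw [Real.dist_eq]
        refine (hcmp n k).trans ?_
        have h1 : (1 : ℝ) / 2 ^ n ≤ 1 / 2 ^ N :=
          one_div_le_one_div_of_le (by positivity) (pow_le_pow_right₀ (by norm_num) hn)
        have h2 : (1 : ℝ) / 2 ^ k ≤ 1 / 2 ^ N :=
          one_div_le_one_div_of_le (by positivity) (pow_le_pow_right₀ (by norm_num) hk)
        linarith
      · have h1 : Tendsto (fun n : ℕ => (1 / 2 : ℝ) ^ n) atTop (𝓝 0) :=
          tendsto_pow_atTop_nhds_zero_of_lt_one (by norm_num) (by norm_num)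
        have h2 := h1.const_mul 2
        simpa [one_div, inv_pow] using h2
    obtain ⟨d, hd⟩ := cauchySeq_tendsto_of_complete hcau
    refine ⟨d, fun c hc => ?_⟩
    have hb : ∀ n : ℕ, |σ n - d| ≤ 1 / 2 ^ n := by
      intro n
      have h1 : Tendsto (fun k => |σ n - σ k|) atTop (𝓝 |σ n - d|) :=
        (tendsto_const_nhds.sub hd).abs
      have h2 : Tendsto (fun k : ℕ => (1 : ℝ) / 2 ^ n + 1 / 2 ^ k) atTop (𝓝 (1 / 2 ^ n + 0)) := by
        refine tendsto_const_nhds.add ?_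
        have h1 : Tendsto (fun n : ℕ => (1 / 2 : ℝ) ^ n) atTop (𝓝 0) :=
          tendsto_pow_atTop_nhds_zero_of_lt_one (by norm_num) (by norm_num)
        simpa [one_div, inv_pow] using h1
      have := le_of_tendsto_of_tendsto' h1 h2 (hcmp n)
      simpa using this
    obtain ⟨n, hn⟩ := exists_pow_lt_of_lt_one (show (0 : ℝ) < c / 2 by positivity)
      (show (1 / 2 : ℝ) < 1 by norm_num)
    have hn' : (1 : ℝ) / 2 ^ n < c / 2 := by simpa [one_div, inv_pow] using hn
    refine ⟨δ n, hδ n, fun y y' hy hy' => ?_⟩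
    have h1 := hs n y y' hy hy'
    have h2 : |(σ n - d) * (y - y')| ≤ 1 / 2 ^ n * |y - y'| := by
      rw [abs_mul]; exact mul_le_mul_of_nonneg_right (hb n) (abs_nonneg _)
    have e : w y - w y' - d * (y - y')
        = (w y - w y' - σ n * (y - y')) + (σ n - d) * (y - y') := by ring
    rw [e]
    refine (abs_add_le _ _).trans ?_
    have : (1 / 2 ^ n + 1 / 2 ^ n) * |y - y'| ≤ c * |y - y'| :=
      mul_le_mul_of_nonneg_right (by linarith) (abs_nonneg _)
    linarith
  choose d hd using hdiff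
  have hder : ∀ Y, HasDerivAt w (d Y) Y := by
    intro Y
    rw [hasDerivAt_iff_isLittleO]
    rw [Asymptotics.isLittleO_iff]
    intro c hc
    obtain ⟨δ, hδ, h⟩ := hd Y c hc
    filter_upwards [Metric.ball_mem_nhds Y hδ] with y hy
    rw [Real.norm_eq_abs, Real.norm_eq_abs, smul_eq_mul, mul_comm]
    exact h y Y (by simpa [Real.dist_eq] using hy) (by simpa using hδ)
  have hderiv : deriv w = d := funext fun Y => (hder Y).deriv
  have hcont : Continuous d := by
    rw [Metric.continuous_iff]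
    intro Y c hc
    obtain ⟨δ, hδ, h⟩ := hd Y (c / 4) (by positivity)
    refine ⟨δ, hδ, fun Z hZ => ?_⟩
    rw [Real.dist_eq] at hZ ⊢
    obtain ⟨δ', hδ', h'⟩ := hd Z (c / 4) (by positivity)
    set t : ℝ := min (δ - |Z - Y|) δ' / 2 with ht
    have ht0 : 0 < t := by
      have := lt_min (sub_pos.mpr hZ) hδ'
      positivity
    have ht1 : t < δ - |Z - Y| := by
      have h1 := min_le_left (δ - |Z - Y|) δ'
      have h2 := sub_pos.mpr hZ
      rw [ht]; linarith
    have ht2 : t < δ' := by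
      have h1 := min_le_right (δ - |Z - Y|) δ'
      rw [ht]; linarith
    have h1 := h (Z + t) Z (by
      have : Z + t - Y = (Z - Y) + t := by ring
      rw [this]
      refine (abs_add_le _ _).trans_lt ?_
      rw [abs_of_pos ht0]; linarith) hZ
    have h2 := h' (Z + t) Z (by rw [add_sub_cancel_left, abs_of_pos ht0]; exact ht2)
      (by simpa using hδ')
    rw [add_sub_cancel_left, abs_of_pos ht0] at h1 h2
    have h3 : |(d Z - d Y) * t| ≤ (c / 2) * t := by
      have e : (d Z - d Y) * t = (w (Z + t) - w Z - d Y * t) - (w (Z + t) - w Z - d Z * t) := by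
        ring
      rw [e]
      refine (abs_sub _ _).trans ?_
      linarith
    rw [abs_mul, abs_of_pos ht0] at h3
    have := le_of_mul_le_mul_right h3 ht0
    linarith
  refine ⟨w, ?_, hw0, ?_, hinv, honto⟩
  · rw [contDiff_one_iff_deriv]
    exact ⟨fun Y => (hder Y).differentiableAt, by rw [hderiv]; exact hcont⟩
  · intro y
    have h1 : ‖deriv w y‖ ≤ min η 1 := by
      refine norm_deriv_le_of_lip' (le_min hη.le zero_le_one) ?_
      filter_upwards with u
      rw [Real.norm_eq_abs, Real.norm_eq_abs]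
      exact hwl u y
    exact h1.trans (min_le_left _ _)

end DS

end S_H36_DS_FB
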