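import Pool.Agent.H12.KS.K06
import Pool.Agent.H12.KS.K08
import Pool.Agent.H12.KS.K27

/-! Joined modules of the proof of MP_8a27c0_an (one section per module). -/

section S_H36_DS_FC

/-!
FC (global diffeomorphisms).
`near_diffeo`: `F = diagL l m + f` with `f` Lipschitz of constant `ε < 1/2 ≤ ` (lower bound of the diagonal map): `F` is injective
and onto (for `w` the map `z ↦ (diagL l m)⁻¹ (w - f z)` is a contraction; or `ApproximatesLinearOn.toHomeomorph`);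
the inverse is `C¹` by the inverse function theorem (`ContDiffAt.to_localInverse`, the derivative is invertible,
`ε < min l m`), `fderiv Fi w = (fderiv F (Fi w))⁻¹` is within `ε'` of `diagL l⁻¹ m⁻¹` (`‖A⁻¹ - B⁻¹‖ ≤ ‖A⁻¹‖ ‖B⁻¹‖ ‖A - B‖`), and
`‖Fi w - diagL l⁻¹ m⁻¹ w‖ ≤ l⁻¹ ‖f (Fi w)‖`.
`straighten`: `Ψ z = ⟨z.re - w z.im, z.im - v z.re⟩` is the identity minus a map with Lipschitz constant `≤ 1/2`.
-/

namespace DS
open Metric Set Filter Topology

theorem FC_gen {A B : ℂ →L[ℝ] ℂ} (hAB : ∀ z, A (B z) = z) (hBA : ∀ z, B (A z) = z) {N c : ℝ}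
    (hN : ∀ z, ‖B z‖ ≤ N * ‖z‖) (hN0 : 0 < N) (hc0 : 0 ≤ c) (hc : N * c < 1) {F : ℂ → ℂ}
    (hF : ContDiff ℝ 1 F) (hnear : ∀ z, ‖fderiv ℝ F z - A‖ ≤ c) :
    ∃ Fi : ℂ → ℂ, ContDiff ℝ 1 Fi ∧ (∀ z, Fi (F z) = z) ∧ (∀ z, F (Fi z) = z) ∧
      ∀ w, ‖fderiv ℝ Fi w - B‖ ≤ N ^ 2 * c / (1 - N * c) := by
  have hFd : Differentiable ℝ F := hF.differentiable (by simp)
  set e : ℂ ≃L[ℝ] ℂ := ContinuousLinearEquiv.equivOfInverse A B hBA hAB with he
  have heA : (e : ℂ →L[ℝ] ℂ) = A := rfl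
  have heB : (e.symm : ℂ →L[ℝ] ℂ) = B := rfl
  have hA : ApproximatesLinearOn F (e : ℂ →L[ℝ] ℂ) univ ⟨c, hc0⟩ := by
    intro x _ y _
    exact convex_univ.norm_image_sub_le_of_norm_fderiv_le' (𝕜 := ℝ) (φ := A)
      (fun z _ => hFd z) (fun z _ => hnear z) (mem_univ y) (mem_univ x)
  have hBN : ‖B‖ ≤ N := B.opNorm_le_bound hN0.le hN
  have hB0 : 0 < ‖B‖ := by
    rw [norm_pos_iff]
    intro h0
    have := hBA 1
    rw [h0] at this
    simp at this
  have hc' : (⟨c, hc0⟩ : NNReal) < ‖(e.symm : ℂ →L[ℝ] ℂ)‖₊⁻¹ := by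
    rw [heB]
    have h1 : c < N⁻¹ := by
      rw [← one_div, lt_div_iff₀ hN0]
      linarith
    exact NNReal.coe_lt_coe.1 (show c < ‖B‖⁻¹ from lt_of_lt_of_le h1 (inv_anti₀ hB0 hBN))
  set H := hA.toHomeomorph F (Or.inr hc') with hH
  have hHF : ∀ z, H z = F z := fun z => rfl
  have key : ∀ z v, ‖v‖ * (1 - N * c) ≤ N * ‖fderiv ℝ F z v‖ ∧
      ‖v - B (fderiv ℝ F z v)‖ ≤ N * c * ‖v‖ := by
    intro z v
    have h1 : ‖v - B (fderiv ℝ F z v)‖ ≤ N * c * ‖v‖ := by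
      have h2 : v - B (fderiv ℝ F z v) = - B ((fderiv ℝ F z - A) v) := by
        rw [sub_apply, map_sub, hBA]
        ring
      rw [h2, norm_neg]
      refine (hN _).trans ?_
      rw [mul_assoc]
      exact mul_le_mul_of_nonneg_left (((fderiv ℝ F z - A).le_opNorm v).trans
        (mul_le_mul_of_nonneg_right (hnear z) (norm_nonneg _))) hN0.le
    refine ⟨?_, h1⟩
    have h3 : ‖v‖ ≤ ‖v - B (fderiv ℝ F z v)‖ + ‖B (fderiv ℝ F z v)‖ := by
      calc ‖v‖ = ‖(v - B (fderiv ℝ F z v)) + B (fderiv ℝ F z v)‖ := by rw [sub_add_cancel]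
        _ ≤ _ := norm_add_le _ _
    have h4 := hN (fderiv ℝ F z v)
    nlinarith
  have hex : ∀ z, ∃ f' : ℂ ≃L[ℝ] ℂ, (f' : ℂ →L[ℝ] ℂ) = fderiv ℝ F z := by
    intro z
    have hinj : Function.Injective (fderiv ℝ F z).toLinearMap := by
      rw [← LinearMap.ker_eq_bot, LinearMap.ker_eq_bot']
      intro v hv
      have h1 := (key z v).1
      have h2 : fderiv ℝ F z v = 0 := hv
      rw [h2, norm_zero, mul_zero] at h1
      have h3 : ‖v‖ ≤ 0 := by
        by_contra hcon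
        push Not at hcon
        have := mul_pos hcon (sub_pos.2 hc)
        linarith
      exact norm_le_zero_iff.1 h3
    refine ⟨(LinearEquiv.ofInjectiveEndo (fderiv ℝ F z).toLinearMap hinj).toContinuousLinearEquiv, ?_⟩
    ext v
    rfl
  choose f' hf' using hex
  have hHd : ∀ z, HasFDerivAt H (f' z : ℂ →L[ℝ] ℂ) z := by
    intro z
    rw [hf']
    exact (hFd z).hasFDerivAt
  have hcd : ContDiff ℝ 1 (H.symm : ℂ → ℂ) := H.contDiff_symm hHd hF
  have hl : ∀ z, H.symm (F z) = z := fun z => H.symm_apply_apply z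
  have hr : ∀ z, F (H.symm z) = z := fun z => H.apply_symm_apply z
  refine ⟨H.symm, hcd, hl, hr, fun w => ?_⟩
  have hpos : 0 < 1 - N * c := sub_pos.2 hc
  refine ContinuousLinearMap.opNorm_le_bound _ (by positivity) fun u => ?_
  have h1 : fderiv ℝ F (H.symm w) (fderiv ℝ H.symm w u) = u := by
    have h2 : HasFDerivAt (fun z => F (H.symm z)) ((fderiv ℝ F (H.symm w)).comp
        (fderiv ℝ H.symm w)) w :=
      (hFd _).hasFDerivAt.comp w (hcd.differentiable (by simp) w).hasFDerivAt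
    have h3 : HasFDerivAt (fun z => F (H.symm z)) (ContinuousLinearMap.id ℝ ℂ) w := by
      have : (fun z => F (H.symm z)) = id := funext hr
      rw [this]
      exact hasFDerivAt_id w
    have h4 := h2.unique h3
    have h5 := congrArg (fun L => L u) h4
    simpa using h5
  obtain ⟨k1, k2⟩ := key (H.symm w) (fderiv ℝ H.symm w u)
  rw [h1] at k1 k2
  rw [sub_apply]
  refine k2.trans ?_
  rw [div_mul_eq_mul_div, le_div_iff₀ hpos]
  have h6 : 0 ≤ N * c := by positivity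
  nlinarith [mul_le_mul_of_nonneg_left k1 h6]

theorem FC_norm {x y a b N : ℝ} (hN : 0 ≤ N) (ha : |a| ≤ N * |x|) (hb : |b| ≤ N * |y|) :
    ‖(⟨a, b⟩ : ℂ)‖ ≤ N * ‖(⟨x, y⟩ : ℂ)‖ := by
  rw [← pow_le_pow_iff_left₀ (norm_nonneg _) (by positivity) two_ne_zero, mul_pow,
    Complex.sq_norm, Complex.sq_norm, Complex.normSq_apply, Complex.normSq_apply]
  simp only
  have h1 : a ^ 2 ≤ (N * x) ^ 2 := by
    rw [sq_le_sq, abs_mul, abs_of_nonneg hN]; exact ha
  have h2 : b ^ 2 ≤ (N * y) ^ 2 := by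
    rw [sq_le_sq, abs_mul, abs_of_nonneg hN]; exact hb
  nlinarith

theorem FC_diag (l m : ℝ) (z : ℂ) : diagL l m z = ⟨l * z.re, m * z.im⟩ := rfl

theorem near_diffeo {l m : ℝ} (hl : 0 < l) (hl1 : l < 1) (hm : 1 < m) {ε' : ℝ} (hε' : 0 < ε') :
    ∃ ε > 0, ∀ F : ℂ → ℂ, NearDiag F l m ε → ∃ Fi : ℂ → ℂ, NearDiag Fi l⁻¹ m⁻¹ ε' ∧
      (∀ z, Fi (F z) = z) ∧ ∀ z, F (Fi z) = z := by
  have hm0 : 0 < m := by linarith
  have hAB : ∀ z, diagL l m (diagL l⁻¹ m⁻¹ z) = z := by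
    intro z
    rw [FC_diag, FC_diag]
    apply Complex.ext
    · simp only; field_simp
    · simp only; field_simp
  have hBA : ∀ z, diagL l⁻¹ m⁻¹ (diagL l m z) = z := by
    intro z
    rw [FC_diag, FC_diag]
    apply Complex.ext
    · simp only; field_simp
    · simp only; field_simp
  have hli : 0 < l⁻¹ := inv_pos.2 hl
  have hN : ∀ z, ‖diagL l⁻¹ m⁻¹ z‖ ≤ l⁻¹ * ‖z‖ := by
    intro z
    rw [FC_diag]
    refine FC_norm (x := z.re) (y := z.im) hli.le ?_ ?_
    · rw [abs_mul, abs_of_pos hli]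
    · rw [abs_mul, abs_of_pos (inv_pos.2 hm0)]
      refine mul_le_mul_of_nonneg_right ?_ (abs_nonneg _)
      exact inv_anti₀ hl (by linarith)
  set ε : ℝ := min (l / 2) (l ^ 2 * ε' / 2) with hε
  have hε0 : 0 < ε := by rw [hε]; positivity
  have hε1 : l⁻¹ * ε ≤ 1 / 2 := by
    rw [inv_mul_le_iff₀ hl]
    have := min_le_left (l / 2) (l ^ 2 * ε' / 2)
    rw [← hε] at this
    linarith
  have hε2 : l⁻¹ ^ 2 * ε ≤ ε' / 2 := by
    rw [inv_pow, inv_mul_le_iff₀ (by positivity)]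
    have := min_le_right (l / 2) (l ^ 2 * ε' / 2)
    rw [← hε] at this
    linarith
  refine ⟨ε, hε0, fun F hF => ?_⟩
  obtain ⟨C, hC⟩ := hF.bdd
  obtain ⟨Fi, h1, h2, h3, h4⟩ := FC_gen hAB hBA hN hli hε0.le (by linarith) hF.c1 hF.near
  refine ⟨Fi, ⟨h1, ?_, fun z => (h4 z).trans ?_, ⟨l⁻¹ * C, fun z => ?_⟩⟩, h2, h3⟩
  · have := h2 0
    rwa [hF.zero] at this
  · rw [div_le_iff₀ (by linarith)]
    nlinarith
  · have h5 : Fi z - diagL l⁻¹ m⁻¹ z = - diagL l⁻¹ m⁻¹ (F (Fi z) - diagL l m (Fi z)) := by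
      rw [map_sub, hBA, h3]
      ring
    rw [h5, norm_neg]
    exact (hN _).trans (mul_le_mul_of_nonneg_left (hC _) hli.le)

theorem FC_fderiv {v w : ℝ → ℝ} (hv : ContDiff ℝ 1 v) (hw : ContDiff ℝ 1 w) {η : ℝ} (hη : 0 < η)
    (hv' : ∀ x, |deriv v x| ≤ η) (hw' : ∀ x, |deriv w x| ≤ η) (z : ℂ) :
    ‖fderiv ℝ (fun z : ℂ => (⟨z.re - w z.im, z.im - v z.re⟩ : ℂ)) z -
      ContinuousLinearMap.id ℝ ℂ‖ ≤ η := by
  have h1 : HasFDerivAt (fun z : ℂ => w z.im) (deriv w z.im • Complex.imCLM) z :=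
    ((hw.differentiable (by simp) z.im).hasDerivAt).comp_hasFDerivAt z
      Complex.imCLM.hasFDerivAt
  have h2 : HasFDerivAt (fun z : ℂ => v z.re) (deriv v z.re • Complex.reCLM) z :=
    ((hv.differentiable (by simp) z.re).hasDerivAt).comp_hasFDerivAt z
      Complex.reCLM.hasFDerivAt
  have h3 : HasFDerivAt (fun z : ℂ => (⟨z.re - w z.im, z.im - v z.re⟩ : ℂ))
      ((Complex.equivRealProdCLM.symm : (ℝ × ℝ) →L[ℝ] ℂ).comp
        ((Complex.reCLM - deriv w z.im • Complex.imCLM).prod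
          (Complex.imCLM - deriv v z.re • Complex.reCLM))) z := by
    have h4 := ((Complex.reCLM.hasFDerivAt (x := z)).sub h1).prodMk
      ((Complex.imCLM.hasFDerivAt (x := z)).sub h2)
    exact (Complex.equivRealProdCLM.symm : (ℝ × ℝ) →L[ℝ] ℂ).hasFDerivAt.comp z h4
  rw [h3.fderiv]
  refine ContinuousLinearMap.opNorm_le_bound _ hη.le fun u => ?_
  have h5 : (((Complex.equivRealProdCLM.symm : (ℝ × ℝ) →L[ℝ] ℂ).comp
        ((Complex.reCLM - deriv w z.im • Complex.imCLM).prod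
          (Complex.imCLM - deriv v z.re • Complex.reCLM))) - ContinuousLinearMap.id ℝ ℂ) u =
      (⟨- (deriv w z.im * u.im), - (deriv v z.re * u.re)⟩ : ℂ) := by
    apply Complex.ext <;> simp
  rw [h5]
  have h6 : ‖u‖ = ‖(⟨u.im, u.re⟩ : ℂ)‖ := by
    rw [← pow_left_inj₀ (norm_nonneg _) (norm_nonneg _) two_ne_zero, Complex.sq_norm,
      Complex.sq_norm, Complex.normSq_apply, Complex.normSq_apply]
    ring
  rw [h6]
  refine FC_norm hη.le ?_ ?_
  · rw [abs_neg, abs_mul]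
    exact mul_le_mul_of_nonneg_right (hw' _) (abs_nonneg _)
  · rw [abs_neg, abs_mul]
    exact mul_le_mul_of_nonneg_right (hv' _) (abs_nonneg _)

theorem FC_contDiff {v w : ℝ → ℝ} (hv : ContDiff ℝ 1 v) (hw : ContDiff ℝ 1 w) :
    ContDiff ℝ 1 (fun z : ℂ => (⟨z.re - w z.im, z.im - v z.re⟩ : ℂ)) := by
  have h1 : ContDiff ℝ 1 (fun z : ℂ => (z.re - w z.im, z.im - v z.re)) :=
    (Complex.reCLM.contDiff.sub (hw.comp Complex.imCLM.contDiff)).prodMk
      (Complex.imCLM.contDiff.sub (hv.comp Complex.reCLM.contDiff))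
  exact (Complex.equivRealProdCLM.symm : (ℝ × ℝ) →L[ℝ] ℂ).contDiff.comp h1

theorem straighten {v w : ℝ → ℝ} (hv : ContDiff ℝ 1 v) (hw : ContDiff ℝ 1 w) (hv0 : v 0 = 0)
    (hw0 : w 0 = 0) {η : ℝ} (hη : 0 < η) (hη2 : η ≤ 1 / 2) (hv' : ∀ x, |deriv v x| ≤ η)
    (hw' : ∀ x, |deriv w x| ≤ η) :
    ∃ Ψ Ψi : ℂ → ℂ, (∀ z : ℂ, Ψ z = ⟨z.re - w z.im, z.im - v z.re⟩) ∧ ContDiff ℝ 1 Ψ ∧
      ContDiff ℝ 1 Ψi ∧ (∀ z, Ψi (Ψ z) = z) ∧ (∀ z, Ψ (Ψi z) = z) ∧ Ψ 0 = 0 ∧
      (∀ z, ‖fderiv ℝ Ψ z - ContinuousLinearMap.id ℝ ℂ‖ ≤ 2 * η) ∧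
      ∀ z, ‖fderiv ℝ Ψi z - ContinuousLinearMap.id ℝ ℂ‖ ≤ 4 * η := by
  obtain ⟨Fi, h1, h2, h3, h4⟩ := FC_gen (A := ContinuousLinearMap.id ℝ ℂ)
    (B := ContinuousLinearMap.id ℝ ℂ) (fun z => rfl) (fun z => rfl) (N := 1) (c := η)
    (fun z => by simp) one_pos hη.le (by linarith) (FC_contDiff hv hw)
    (FC_fderiv hv hw hη hv' hw')
  refine ⟨_, Fi, fun z => rfl, FC_contDiff hv hw, h1, h2, h3, ?_,
    fun z => (FC_fderiv hv hw hη hv' hw' z).trans (by linarith), fun z => (h4 z).trans ?_⟩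
  · apply Complex.ext <;> simp [hv0, hw0]
  · rw [one_mul, one_pow, one_mul, div_le_iff₀ (by linarith)]
    nlinarith

end DS

end S_H36_DS_FC

section S_H36_DS_FE

/-!
FE (global straightening of a map close to a diagonal map).  Proof.  Fix `η > 0` small (depending on `l`, `m`; see
the end).  Unstable graph: `c1_graph` for `F` gives `w`.  Stable graph: let `τ z = ⟨z.im, z.re⟩` and let `Fi` be the inverse
(`near_diffeo`); `τ ∘ Fi ∘ τ` is `NearDiag` for `(m⁻¹, l⁻¹)` (`m⁻¹ < 1 < l⁻¹`), so `c1_graph` gives `v` with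
`(Fi ⟨x, v x⟩).im = v (Fi ⟨x, v x⟩).re`, and every `x'` is `(Fi ⟨x, v x⟩).re` for some `x`.  So `Fi` maps the graph
`{(x, v x)}` onto itself, hence also `F`.  `F` maps `{(w y, y)}` onto itself.
Take `Ψ`, `Ψi` from `straighten`.  `Ψ` maps the graph of `v` to the horizontal axis (onto) and the graph of `w` to the vertical
axis.  `G = Ψ ∘ F ∘ Ψi` is `C¹`, maps each axis to itself, and `‖fderiv G z - diagL l m‖ ≤ κ` everywhere, where
`κ ≤ (1 + 2η)(ε + m·...)...` can be made `≤ min ((1 - l)/2) ((m - 1)/2) (l/2)` by the choice of `η` and `ε`.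
With `lp = (1 + l)/2`, `km = (1 + m)/2`, `kp = 2 m`: for `z` with `z.re > 0`, `(G z).re = (G z).re - (G ⟨0, z.im⟩).re` is an
integral of the entry `∂₁ G₁ ∈ [l/2, (1+l)/2]` over `[0, z.re]` (mean value theorem); the same for the other inequalities;
`mono`: `∂₂ G₂ > 0`.
-/

namespace DS
open Metric Set Filter Topology

theorem FE_mono {F : ℂ → ℂ} {l m ε ε' : ℝ} (h : NearDiag F l m ε) (hε : ε ≤ ε') :
    NearDiag F l m ε' :=
  ⟨h.c1, h.zero, fun z => (h.near z).trans hε, h.bdd⟩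

/-- the swap of the coordinates -/
noncomputable def FE_t : ℂ →L[ℝ] ℂ :=
  (ContinuousLinearMap.mul ℝ ℂ Complex.I).comp (Complex.conjCLE : ℂ →L[ℝ] ℂ)

theorem FE_t_apply (z : ℂ) : FE_t z = ⟨z.im, z.re⟩ := by
  apply Complex.ext <;> simp [FE_t]

theorem FE_t_norm (z : ℂ) : ‖FE_t z‖ = ‖z‖ := by
  have h : FE_t z = Complex.I * (starRingEnd ℂ) z := by simp [FE_t]
  rw [h, norm_mul, Complex.norm_I, one_mul, Complex.norm_conj]

theorem FE_t_op : ‖FE_t‖ ≤ 1 := by
  apply ContinuousLinearMap.opNorm_le_bound _ zero_le_one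
  intro z
  rw [FE_t_norm, one_mul]

theorem FE_t_t (z : ℂ) : FE_t (FE_t z) = z := by
  rw [FE_t_apply, FE_t_apply]

theorem FE_t_diag (l m : ℝ) (z : ℂ) : FE_t (diagL l m (FE_t z)) = diagL m l z := by
  rw [FE_t_apply, FE_t_apply]
  rfl

theorem FE_swap {F : ℂ → ℂ} {l m ε : ℝ} (h : NearDiag F l m ε) :
    NearDiag (fun z => FE_t (F (FE_t z))) m l ε := by
  refine ⟨?_, ?_, ?_, ?_⟩
  · exact FE_t.contDiff.comp (h.c1.comp FE_t.contDiff)
  · simp only [map_zero, h.zero]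
  · intro z
    have hd : DifferentiableAt ℝ F (FE_t z) := h.c1.differentiable (by norm_num) _
    have h1 : HasFDerivAt (fun z => FE_t (F (FE_t z)))
        (FE_t.comp ((fderiv ℝ F (FE_t z)).comp FE_t)) z :=
      FE_t.hasFDerivAt.comp z (hd.hasFDerivAt.comp z FE_t.hasFDerivAt)
    rw [h1.fderiv]
    have h2 : FE_t.comp ((fderiv ℝ F (FE_t z)).comp FE_t) - diagL m l
        = FE_t.comp ((fderiv ℝ F (FE_t z) - diagL l m).comp FE_t) := by
      ext1 w
      simp only [_root_.sub_apply, ContinuousLinearMap.comp_apply, map_sub, FE_t_diag]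
    rw [h2]
    have h3 := h.near (FE_t z)
    have h4 := FE_t_op
    calc ‖FE_t.comp ((fderiv ℝ F (FE_t z) - diagL l m).comp FE_t)‖
        ≤ ‖FE_t‖ * ‖(fderiv ℝ F (FE_t z) - diagL l m).comp FE_t‖ :=
          ContinuousLinearMap.opNorm_comp_le _ _
      _ ≤ 1 * (‖fderiv ℝ F (FE_t z) - diagL l m‖ * ‖FE_t‖) := by
          apply mul_le_mul h4 (ContinuousLinearMap.opNorm_comp_le _ _) (norm_nonneg _) zero_le_one
      _ ≤ 1 * (ε * 1) := by
          apply mul_le_mul_of_nonneg_left _ zero_le_one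
          apply mul_le_mul h3 h4 (norm_nonneg _) (le_trans (norm_nonneg _) h3)
      _ = ε := by ring
  · obtain ⟨C, hC⟩ := h.bdd
    refine ⟨C, fun z => ?_⟩
    rw [← FE_t_diag, ← map_sub, FE_t_norm]
    exact hC _

/-- mean value inequalities for the entries of a map close to a diagonal map -/
theorem FE_re {G : ℂ → ℂ} (hG : ContDiff ℝ 1 G) {l m κ : ℝ}
    (h : ∀ z, ‖fderiv ℝ G z - diagL l m‖ ≤ κ) (y : ℝ) {s t : ℝ} (hst : s ≤ t) :
    (l - κ) * (t - s) ≤ (G ⟨t, y⟩).re - (G ⟨s, y⟩).re ∧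
      (G ⟨t, y⟩).re - (G ⟨s, y⟩).re ≤ (l + κ) * (t - s) := by
  have hder : ∀ x : ℝ, HasDerivAt (fun x : ℝ => (G ⟨x, y⟩).re) ((fderiv ℝ G ⟨x, y⟩ 1).re) x := by
    intro x
    have h1 : HasDerivAt (fun x : ℝ => (⟨x, y⟩ : ℂ)) 1 x := by
      have h2 : (fun x : ℝ => (⟨x, y⟩ : ℂ)) = fun x : ℝ => (x : ℂ) + (y : ℂ) * Complex.I := by
        funext x
        apply Complex.ext <;> simp
      rw [h2]
      exact (Complex.ofRealCLM.hasDerivAt (x := x)).add_const _
    have h3 : HasDerivAt (fun x : ℝ => G ⟨x, y⟩) (fderiv ℝ G ⟨x, y⟩ 1) x :=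
      (hG.differentiable (by norm_num) _).hasFDerivAt.comp_hasDerivAt x h1
    exact Complex.reCLM.hasFDerivAt.comp_hasDerivAt x h3
  have hb : ∀ x : ℝ, |(fderiv ℝ G ⟨x, y⟩ 1).re - l| ≤ κ := by
    intro x
    have h1 : (fderiv ℝ G ⟨x, y⟩ 1).re - l = ((fderiv ℝ G ⟨x, y⟩ - diagL l m) 1).re := by
      rw [_root_.sub_apply, Complex.sub_re]
      congr 1
      change l = l * (1 : ℂ).re
      simp
    rw [h1]
    calc |((fderiv ℝ G ⟨x, y⟩ - diagL l m) 1).re| ≤ ‖(fderiv ℝ G ⟨x, y⟩ - diagL l m) 1‖ :=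
          Complex.abs_re_le_norm _
      _ ≤ ‖fderiv ℝ G ⟨x, y⟩ - diagL l m‖ * ‖(1 : ℂ)‖ := ContinuousLinearMap.le_opNorm _ _
      _ ≤ κ := by rw [norm_one, mul_one]; exact h _
  have hdiff : Differentiable ℝ (fun x : ℝ => (G ⟨x, y⟩).re) := fun x => (hder x).differentiableAt
  constructor
  · apply mul_sub_le_image_sub_of_le_deriv hdiff _ hst
    intro x
    rw [(hder x).deriv]
    have := (abs_le.1 (hb x)).1
    linarith
  · apply image_sub_le_mul_sub_of_deriv_le hdiff _ hst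
    intro x
    rw [(hder x).deriv]
    have := (abs_le.1 (hb x)).2
    linarith

theorem FE_im {G : ℂ → ℂ} (hG : ContDiff ℝ 1 G) {l m κ : ℝ}
    (h : ∀ z, ‖fderiv ℝ G z - diagL l m‖ ≤ κ) (y : ℝ) {s t : ℝ} (hst : s ≤ t) :
    (m - κ) * (t - s) ≤ (G ⟨y, t⟩).im - (G ⟨y, s⟩).im ∧
      (G ⟨y, t⟩).im - (G ⟨y, s⟩).im ≤ (m + κ) * (t - s) := by
  have hder : ∀ x : ℝ, HasDerivAt (fun x : ℝ => (G ⟨y, x⟩).im)
      ((fderiv ℝ G ⟨y, x⟩ Complex.I).im) x := by
    intro x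
    have h1 : HasDerivAt (fun x : ℝ => (⟨y, x⟩ : ℂ)) Complex.I x := by
      have h2 : (fun x : ℝ => (⟨y, x⟩ : ℂ)) = fun x : ℝ => (y : ℂ) + (x : ℂ) * Complex.I := by
        funext x
        apply Complex.ext <;> simp
      rw [h2]
      have h3 := ((Complex.ofRealCLM.hasDerivAt (x := x)).mul_const Complex.I).const_add (y : ℂ)
      simpa using h3
    have h3 : HasDerivAt (fun x : ℝ => G ⟨y, x⟩) (fderiv ℝ G ⟨y, x⟩ Complex.I) x :=
      (hG.differentiable (by norm_num) _).hasFDerivAt.comp_hasDerivAt x h1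
    exact Complex.imCLM.hasFDerivAt.comp_hasDerivAt x h3
  have hb : ∀ x : ℝ, |(fderiv ℝ G ⟨y, x⟩ Complex.I).im - m| ≤ κ := by
    intro x
    have h1 : (fderiv ℝ G ⟨y, x⟩ Complex.I).im - m
        = ((fderiv ℝ G ⟨y, x⟩ - diagL l m) Complex.I).im := by
      rw [_root_.sub_apply, Complex.sub_im]
      congr 1
      change m = m * (Complex.I).im
      simp
    rw [h1]
    calc |((fderiv ℝ G ⟨y, x⟩ - diagL l m) Complex.I).im|
        ≤ ‖(fderiv ℝ G ⟨y, x⟩ - diagL l m) Complex.I‖ := Complex.abs_im_le_norm _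
      _ ≤ ‖fderiv ℝ G ⟨y, x⟩ - diagL l m‖ * ‖Complex.I‖ := ContinuousLinearMap.le_opNorm _ _
      _ ≤ κ := by rw [Complex.norm_I, mul_one]; exact h _
  have hdiff : Differentiable ℝ (fun x : ℝ => (G ⟨y, x⟩).im) := fun x => (hder x).differentiableAt
  constructor
  · apply mul_sub_le_image_sub_of_le_deriv hdiff _ hst
    intro x
    rw [(hder x).deriv]
    have := (abs_le.1 (hb x)).1
    linarith
  · apply image_sub_le_mul_sub_of_deriv_le hdiff _ hst
    intro x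
    rw [(hder x).deriv]
    have := (abs_le.1 (hb x)).2
    linarith

/-- a map close to a diagonal map, which preserves both axes, is hyperbolic -/
theorem FE_hyp {G : ℂ → ℂ} (hG : ContDiff ℝ 1 G) {l m κ : ℝ} (hl : 0 < l) (hl1 : l < 1)
    (hm : 1 < m) (h : ∀ z, ‖fderiv ℝ G z - diagL l m‖ ≤ κ) (k1 : κ ≤ (1 - l) / 2)
    (k2 : κ ≤ l / 2) (k3 : κ ≤ (m - 1) / 2) (hre : ∀ z : ℂ, z.re = 0 → (G z).re = 0)
    (him : ∀ z : ℂ, z.im = 0 → (G z).im = 0) {r : ℝ} (hr : 0 < r) :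
    HypLoc G r ((1 + l) / 2) ((1 + m) / 2) (2 * m) := by
  have eta : ∀ z : ℂ, (⟨z.re, z.im⟩ : ℂ) = z := fun z => rfl
  refine ⟨hr, by linarith, by linarith, by linarith, by linarith, hG.continuous.continuousOn,
    fun z _ => hre z, ?_, ?_, fun z _ => him z, ?_, ?_, ?_⟩
  · intro z _ hz
    obtain ⟨h1, h2⟩ := FE_re hG h z.im hz.le
    rw [eta, hre ⟨0, z.im⟩ rfl, sub_zero, sub_zero] at h1 h2
    constructor
    · have : 0 < (l - κ) * z.re := mul_pos (by linarith) hz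
      linarith
    · have : (l + κ) * z.re ≤ (1 + l) / 2 * z.re := mul_le_mul_of_nonneg_right (by linarith) hz.le
      linarith
  · intro z _ hz
    obtain ⟨h1, h2⟩ := FE_re hG h z.im hz.le
    rw [eta, hre ⟨0, z.im⟩ rfl, zero_sub, zero_sub] at h1 h2
    constructor
    · have : 0 < (l - κ) * (-z.re) := mul_pos (by linarith) (by linarith)
      linarith
    · have : (l + κ) * (-z.re) ≤ (1 + l) / 2 * (-z.re) :=
        mul_le_mul_of_nonneg_right (by linarith) (by linarith)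
      linarith
  · intro z _ hz
    obtain ⟨h1, h2⟩ := FE_im hG h z.re hz.le
    rw [eta, him ⟨z.re, 0⟩ rfl, sub_zero, sub_zero] at h1 h2
    constructor
    · have : (1 + m) / 2 * z.im ≤ (m - κ) * z.im := mul_le_mul_of_nonneg_right (by linarith) hz.le
      linarith
    · have : (m + κ) * z.im ≤ 2 * m * z.im := mul_le_mul_of_nonneg_right (by linarith) hz.le
      linarith
  · intro z _ hz
    obtain ⟨h1, h2⟩ := FE_im hG h z.re hz.le
    rw [eta, him ⟨z.re, 0⟩ rfl, zero_sub, zero_sub] at h1 h2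
    constructor
    · have : (1 + m) / 2 * (-z.im) ≤ (m - κ) * (-z.im) :=
        mul_le_mul_of_nonneg_right (by linarith) (by linarith)
      linarith
    · have : (m + κ) * (-z.im) ≤ 2 * m * (-z.im) :=
        mul_le_mul_of_nonneg_right (by linarith) (by linarith)
      linarith
  · intro z _ w _ hzw hlt
    obtain ⟨h1, -⟩ := FE_im hG h z.re hlt.le
    rw [eta] at h1
    rw [hzw, eta] at h1
    have : 0 < (m - κ) * (w.im - z.im) := mul_pos (by linarith) (by linarith)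
    linarith

/-- the norm estimate for the conjugated derivative -/
theorem FE_norm {P Q R D : ℂ →L[ℝ] ℂ} {η ε : ℝ} (hη : 0 ≤ η) (hη2 : η ≤ 1 / 2) (hε1 : ε ≤ 1)
    (hP : ‖P - ContinuousLinearMap.id ℝ ℂ‖ ≤ 2 * η) (hQ : ‖Q - D‖ ≤ ε)
    (hR : ‖R - ContinuousLinearMap.id ℝ ℂ‖ ≤ 4 * η) :
    ‖P.comp (Q.comp R) - D‖ ≤ 10 * η * (‖D‖ + 1) + 3 * ε := by
  have hε0 : 0 ≤ ε := (norm_nonneg _).trans hQ
  have hRn : ‖R‖ ≤ 3 := by
    have h1 : R = (R - ContinuousLinearMap.id ℝ ℂ) + ContinuousLinearMap.id ℝ ℂ := by abel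
    rw [h1]
    refine (norm_add_le _ _).trans ?_
    have : ‖ContinuousLinearMap.id ℝ ℂ‖ ≤ 1 := ContinuousLinearMap.norm_id_le
    linarith
  have hQn : ‖Q‖ ≤ ‖D‖ + 1 := by
    have h1 : Q = (Q - D) + D := by abel
    rw [h1]
    refine (norm_add_le _ _).trans ?_
    linarith
  have hD0 := norm_nonneg D
  have e : P.comp (Q.comp R) - D = (P - ContinuousLinearMap.id ℝ ℂ).comp (Q.comp R)
      + (Q - D).comp R + D.comp (R - ContinuousLinearMap.id ℝ ℂ) := by
    ext1 w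
    simp only [_root_.sub_apply, _root_.add_apply, ContinuousLinearMap.comp_apply,
      ContinuousLinearMap.id_apply, map_sub]
    abel
  rw [e]
  have n1 : ‖(P - ContinuousLinearMap.id ℝ ℂ).comp (Q.comp R)‖ ≤ 2 * η * ((‖D‖ + 1) * 3) := by
    refine (ContinuousLinearMap.opNorm_comp_le _ _).trans ?_
    apply mul_le_mul hP _ (norm_nonneg _) (by linarith)
    refine (ContinuousLinearMap.opNorm_comp_le _ _).trans ?_
    exact mul_le_mul hQn hRn (norm_nonneg _) (by linarith)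
  have n2 : ‖(Q - D).comp R‖ ≤ ε * 3 := by
    refine (ContinuousLinearMap.opNorm_comp_le _ _).trans ?_
    exact mul_le_mul hQ hRn (norm_nonneg _) hε0
  have n3 : ‖D.comp (R - ContinuousLinearMap.id ℝ ℂ)‖ ≤ ‖D‖ * (4 * η) := by
    refine (ContinuousLinearMap.opNorm_comp_le _ _).trans ?_
    exact mul_le_mul_of_nonneg_left hR hD0
  have n4 := norm_add_le ((P - ContinuousLinearMap.id ℝ ℂ).comp (Q.comp R)
      + (Q - D).comp R) (D.comp (R - ContinuousLinearMap.id ℝ ℂ))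
  have n5 := norm_add_le ((P - ContinuousLinearMap.id ℝ ℂ).comp (Q.comp R)) ((Q - D).comp R)
  have n6 : 0 ≤ η * ‖D‖ := by positivity
  linarith

theorem global_straight {l m : ℝ} (hl : 0 < l) (hl1 : l < 1) (hm : 1 < m) :
    ∃ ε > 0, ∀ F : ℂ → ℂ, NearDiag F l m ε → ∃ (Ψ Ψi : ℂ → ℂ) (lp km kp : ℝ),
      ContDiff ℝ 1 Ψ ∧ ContDiff ℝ 1 Ψi ∧ (∀ z, Ψi (Ψ z) = z) ∧ (∀ z, Ψ (Ψi z) = z) ∧ Ψ 0 = 0 ∧
      ∀ r, 0 < r → HypLoc (fun z => Ψ (F (Ψi z))) r lp km kp := by
  have hm0 : 0 < m := by linarith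
  obtain ⟨κ, hκ, k1, k2, k3⟩ : ∃ κ : ℝ, 0 < κ ∧ κ ≤ (1 - l) / 2 ∧ κ ≤ l / 2 ∧ κ ≤ (m - 1) / 2 :=
    ⟨min ((1 - l) / 2) (min (l / 2) ((m - 1) / 2)),
      lt_min (by linarith) (lt_min (by linarith) (by linarith)), min_le_left _ _,
      (min_le_right _ _).trans (min_le_left _ _), (min_le_right _ _).trans (min_le_right _ _)⟩
  have hM : 0 < ‖diagL l m‖ + 1 := by positivity
  obtain ⟨η, hη, hη2, hηκ⟩ : ∃ η : ℝ, 0 < η ∧ η ≤ 1 / 2 ∧ 20 * (‖diagL l m‖ + 1) * η ≤ κ := by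
    refine ⟨min (1 / 2) (κ / (20 * (‖diagL l m‖ + 1))), lt_min (by norm_num) (by positivity),
      min_le_left _ _, ?_⟩
    have : min (1 / 2) (κ / (20 * (‖diagL l m‖ + 1))) ≤ κ / (20 * (‖diagL l m‖ + 1)) :=
      min_le_right _ _
    rw [le_div_iff₀ (by positivity)] at this
    linarith
  obtain ⟨ε₁, hε₁, h1⟩ := c1_graph hl hl1 hm hη
  obtain ⟨ε₂, hε₂, h2⟩ := c1_graph (inv_pos.2 hm0) (inv_lt_one_of_one_lt₀ hm)
    ((one_lt_inv₀ hl).2 hl1) hη
  obtain ⟨ε₃, hε₃, h3⟩ := near_diffeo hl hl1 hm hε₂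
  refine ⟨min (min ε₁ ε₃) (min 1 (κ / 6)),
    lt_min (lt_min hε₁ hε₃) (lt_min one_pos (by linarith)), fun F hF => ?_⟩
  obtain ⟨w, hw1, hw0, hw', hwinv, -⟩ :=
    h1 F (FE_mono hF ((min_le_left _ _).trans (min_le_left _ _)))
  obtain ⟨Fi, hFi, hFiF, hFFi⟩ :=
    h3 F (FE_mono hF ((min_le_left _ _).trans (min_le_right _ _)))
  obtain ⟨v, hv1, hv0, hv', hvinv, hvsurj⟩ := h2 _ (FE_swap hFi)
  obtain ⟨Ψ, Ψi, hΨ, hΨ1, hΨi1, hiΨ, hΨi, hΨ0, hΨd, hΨid⟩ :=
    straighten hv1 hw1 hv0 hw0 hη hη2 hv' hw'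
  refine ⟨Ψ, Ψi, (1 + l) / 2, (1 + m) / 2, 2 * m, hΨ1, hΨi1, hiΨ, hΨi, hΨ0, fun r hr => ?_⟩
  have hFε := hF.near
  refine FE_hyp (hΨ1.comp (hF.c1.comp hΨi1)) hl hl1 hm ?_ k1 k2 k3 ?_ ?_ hr
  · intro z
    have hd1 : HasFDerivAt Ψi (fderiv ℝ Ψi z) z :=
      (hΨi1.differentiable (by norm_num) z).hasFDerivAt
    have hd2 : HasFDerivAt F (fderiv ℝ F (Ψi z)) (Ψi z) :=
      (hF.c1.differentiable (by norm_num) _).hasFDerivAt
    have hd3 : HasFDerivAt Ψ (fderiv ℝ Ψ (F (Ψi z))) (F (Ψi z)) :=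
      (hΨ1.differentiable (by norm_num) _).hasFDerivAt
    have hd : HasFDerivAt (fun z => Ψ (F (Ψi z)))
        ((fderiv ℝ Ψ (F (Ψi z))).comp ((fderiv ℝ F (Ψi z)).comp (fderiv ℝ Ψi z))) z :=
      hd3.comp z (hd2.comp z hd1)
    change ‖fderiv ℝ (fun z => Ψ (F (Ψi z))) z - diagL l m‖ ≤ κ
    rw [hd.fderiv]
    have := FE_norm (ε := κ / 6) hη.le hη2 (by linarith) (hΨd (F (Ψi z)))
      ((hFε (Ψi z)).trans ((min_le_right _ _).trans (min_le_right _ _))) (hΨid z)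
    linarith
  · intro z hz
    change (Ψ (F (Ψi z))).re = 0
    set p := Ψi z with hp
    have hpz : Ψ p = z := hΨi z
    have h4 : p.re = w p.im := by
      have h5 := congrArg Complex.re hpz
      rw [hΨ, hz] at h5
      simp only at h5
      linarith
    rw [hΨ]
    simp only
    have h6 := hwinv p.im
    rw [← h4] at h6
    change (F p).re - w (F p).im = 0
    have h7 : (⟨p.re, p.im⟩ : ℂ) = p := rfl
    rw [h7] at h6
    rw [h6]; ring
  · intro z hz
    change (Ψ (F (Ψi z))).im = 0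
    set p := Ψi z with hp
    have hpz : Ψ p = z := hΨi z
    have h4 : p.im = v p.re := by
      have h5 := congrArg Complex.im hpz
      rw [hΨ, hz] at h5
      simp only at h5
      linarith
    obtain ⟨x, hx⟩ := hvsurj p.re
    have h8 := hvinv x
    simp only [FE_t_apply] at hx h8
    rw [hx, ← h4] at h8
    have h9 : Fi ⟨x, v x⟩ = p := Complex.ext hx h8
    have h10 : F p = ⟨x, v x⟩ := by rw [← h9, hFFi]
    rw [hΨ, h10]
    simp

end DS

end S_H36_DS_FE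

section S_H36_DS_IC

/-!
IC (the index of an invariant continuum without fixed prime ends is one).
Proof.  Write `F z = k₀ + (ψ z)⁻¹` for `0 < ‖z‖ < 1`; it is a homeomorphism onto the complement of
`K' = (fun z => k₀ + z) '' K` with inverse `x ↦ v ((x - k₀)⁻¹)`.
For `ρ < 1` let `O ρ = K' ∪ {x | ρ < ‖v ((x - k₀)⁻¹)‖}` (equivalently the complement of
`F '' (closedBall 0 ρ \ {0})`).  For `0 < ρ < 1`: `O ρ` is open and bounded, its frontier is `F '' sphere 0 ρ`,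
its closure is `K' ∪ F '' {z | ρ ≤ ‖z‖ < 1}`; for `ρ → 1` the closures shrink to `K'`
(a compactness argument), so `closure (O ρ) ⊆ N` for `ρ` close to `1`.
Take also `ρ ≥ ρ₀` with `1 - ρ < c`, and, by `hlim`, `1 - c/2 < ‖h z‖` on `sphere 0 ρ`, and `ρ > 1 - c/2`.  On `sphere 0 ρ`:
(a) `z - h z` has winding number `1` (about `0`): the ratio to `z` is `1 - h z / z`, and it lies in the slit plane,
because `h z = t z` with `t ≥ 1` gives `‖h z - z‖ = (t - 1) ρ ≤ 1 - ρ < c`;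
(b) `h z` has winding number `1`: compare with `- z`; `h z = t z`, `t ≥ 0` gives `‖h z - z‖ = |‖h z‖ - ‖z‖| < c`;
(c) `ψ z = z * q z` with `q` continuous nowhere zero on the disc (`ψ 0 = 0`, `ψ` injective,
`deriv_ne_zero_of_injOn`), so `HasWind ψ 0 ρ 1`, and `q (h z)` has winding number `0` on the circle, since
`q = exp l` on the ball; so `ψ (h z)` has winding number `1`;
(d) `ψ z - ψ w = (z - w) * Q z w` with `Q` continuous nowhere zero on `ball × ball` (`dslope`), so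
`z ↦ Q z (h z)` has winding number `0`: `Q` has a continuous logarithm on the contractible `ball × ball`
(or: homotopy `Q z (h z) → Q (s z) (s h z)`, `s ∈ [0,1]`, to a constant; only values on the circle are used).
Then with `g (F z) = F (h z)`:
`g (F z) - F z = (ψ z - ψ (h z)) / (ψ z * ψ (h z))` has winding number `1 - 1 - 1 = -1`;
`F z - k = (1 - (k - k₀) ψ z) / ψ z` has winding number `-1` (the numerator is nowhere zero on the ball as
`F z ≠ k`, so it has a logarithm there), and `g (F z) - k = (1 - (k - k₀) ψ (h z)) / ψ (h z)` has winding number `-1`.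
Hence both quotients have winding number `0` on `sphere 0 ρ` as functions of `z`, so they have
continuous logarithms there; transport them to the frontier by `x ↦ v ((x - k₀)⁻¹)`.
`g x ≠ x` on `closure (O ρ) \ K'` since `F (h z) ≠ F z`.
-/

namespace DS
open Metric Set Filter Topology

theorem IC_log_mono {f : ℂ → ℂ} {S T : Set ℂ} (h : HasLog f T) (hST : S ⊆ T) : HasLog f S := by
  obtain ⟨L, h1, h2⟩ := h
  exact ⟨L, h1.mono hST, fun z hz => h2 z (hST hz)⟩

theorem IC_log_congr {f g : ℂ → ℂ} {S : Set ℂ} (h : HasLog f S) (hfg : ∀ z ∈ S, g z = f z) :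
    HasLog g S := by
  obtain ⟨L, h1, h2⟩ := h
  exact ⟨L, h1, fun z hz => (hfg z hz).trans (h2 z hz)⟩

theorem IC_log_mul {f g : ℂ → ℂ} {S : Set ℂ} (hf : HasLog f S) (hg : HasLog g S) :
    HasLog (fun z => f z * g z) S := by
  obtain ⟨L, h1, h2⟩ := hf
  obtain ⟨M, h3, h4⟩ := hg
  refine ⟨fun z => L z + M z, h1.add h3, fun z hz => ?_⟩
  simp only [h2 z hz, h4 z hz, Complex.exp_add]

theorem IC_log_div {f g : ℂ → ℂ} {S : Set ℂ} (hf : HasLog f S) (hg : HasLog g S) :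
    HasLog (fun z => f z / g z) S := by
  obtain ⟨L, h1, h2⟩ := hf
  obtain ⟨M, h3, h4⟩ := hg
  refine ⟨fun z => L z - M z, h1.sub h3, fun z hz => ?_⟩
  simp only [h2 z hz, h4 z hz, Complex.exp_sub]

theorem IC_log_comp {f h : ℂ → ℂ} {S T : Set ℂ} (hf : HasLog f T) (hh : ContinuousOn h S)
    (hm : MapsTo h S T) : HasLog (fun z => f (h z)) S := by
  obtain ⟨L, h1, h2⟩ := hf
  exact ⟨fun z => L (h z), h1.comp hh hm, fun z hz => h2 _ (hm hz)⟩

theorem IC_log_slit {f : ℂ → ℂ} {S : Set ℂ} (hf : ContinuousOn f S)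
    (h : ∀ z ∈ S, f z ∈ Complex.slitPlane) : HasLog f S := by
  refine ⟨fun z => Complex.log (f z), hf.clog h, fun z hz => ?_⟩
  exact (Complex.exp_log (Complex.slitPlane_ne_zero (h z hz))).symm

theorem IC_log_neg {f : ℂ → ℂ} {S : Set ℂ} (hf : HasLog (fun z => - f z) S) : HasLog f S := by
  obtain ⟨L, h1, h2⟩ := hf
  refine ⟨fun z => L z + Real.pi * Complex.I, h1.add continuousOn_const, fun z hz => ?_⟩
  have h3 : - f z = Complex.exp (L z) := h2 z hz
  show f z = Complex.exp (L z + Real.pi * Complex.I)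
  rw [Complex.exp_add, Complex.exp_pi_mul_I, ← h3]
  ring

section aux
variable {K : Set ℂ} {ψ v : ℂ → ℂ}

theorem IC_v0 (hE : ExtMap K ψ v) : v 0 = 0 := by
  have := hE.vψ 0 (mem_ball_self one_pos)
  rwa [hE.ψ0] at this

theorem IC_psi_ne (hE : ExtMap K ψ v) {z : ℂ} (hz : z ∈ ball (0:ℂ) 1) (h0 : z ≠ 0) : ψ z ≠ 0 := by
  intro h
  apply h0
  rw [← hE.vψ z hz, h, IC_v0 hE]

theorem IC_inv_notMem (hE : ExtMap K ψ v) {z : ℂ} (hz : z ∈ ball (0:ℂ) 1) (h0 : z ≠ 0) :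
    (ψ z)⁻¹ ∉ K := by
  rcases hE.mψ hz with h | h
  · exact absurd h (IC_psi_ne hE hz h0)
  · exact h

theorem IC_injOn (hE : ExtMap K ψ v) : InjOn ψ (ball 0 1) := by
  intro a ha b hb hab
  rw [← hE.vψ a ha, ← hE.vψ b hb, hab]

theorem IC_q (hE : ExtMap K ψ v) : ∃ q : ℂ → ℂ, HasLog q (ball 0 1) ∧
    ∀ z ∈ ball (0:ℂ) 1, ψ z = z * q z := by
  have hc : ContinuousOn (dslope ψ 0) (ball 0 1) :=
    ((Complex.differentiableOn_dslope
      (isOpen_ball.mem_nhds (mem_ball_self one_pos))).mpr hE.dψ).continuousOn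
  have hne : ∀ z ∈ ball (0:ℂ) 1, dslope ψ 0 z ≠ 0 := by
    intro z hz
    by_cases h : z = 0
    · subst h
      rw [dslope_same]
      exact deriv_ne_zero_of_injOn isOpen_ball hE.dψ (IC_injOn hE) hz
    · rw [dslope_of_ne _ h, slope_def_field, hE.ψ0, sub_zero, sub_zero]
      exact div_ne_zero (IC_psi_ne hE hz h) h
  refine ⟨dslope ψ 0, allLogs_ball 0 1 _ hc hne, fun z hz => ?_⟩
  by_cases h : z = 0
  · subst h
    simp [hE.ψ0]
  · rw [dslope_of_ne _ h, slope_def_field, hE.ψ0, sub_zero, sub_zero]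
    field_simp

theorem IC_m (hE : ExtMap K ψ v) {κ : ℂ} (hκ : κ ∈ K) :
    HasLog (fun z => 1 - κ * ψ z) (ball 0 1) := by
  apply allLogs_ball
  · exact continuousOn_const.sub (continuousOn_const.mul hE.dψ.continuousOn)
  · intro z hz h
    have h1 : κ * ψ z = 1 := by
      have := sub_eq_zero.mp h
      exact this.symm
    have h2 : ψ z ≠ 0 := right_ne_zero_of_mul_eq_one h1
    have h3 : z ≠ 0 := by
      rintro rfl
      exact h2 hE.ψ0
    apply IC_inv_notMem hE hz h3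
    rwa [← eq_inv_of_mul_eq_one_left h1]

theorem IC_Q (hE : ExtMap K ψ v) {h : ℂ → ℂ} {ρ c : ℝ} (hρ : 0 < ρ) (hρ1 : ρ < 1) (hc : 0 < c)
    (hh : ContinuousOn h (sphere 0 ρ))
    (hm : ∀ z ∈ sphere (0:ℂ) ρ, ‖h z‖ < 1 ∧ c ≤ ‖h z - z‖) :
    HasLog (fun z => (ψ z - ψ (h z)) / (z - h z)) (sphere 0 ρ) := by
  set n : ℂ → ℂ := fun w => ((ρ / ‖w‖ : ℝ) : ℂ) * w with hn
  set p : ℂ → ℂ := fun w => ((‖w‖ / ρ : ℝ) : ℂ) * h (n w) with hp
  have hns : ∀ w : ℂ, w ≠ 0 → n w ∈ sphere (0:ℂ) ρ := by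
    intro w hw
    have hw' : 0 < ‖w‖ := norm_pos_iff.mpr hw
    rw [mem_sphere_zero_iff_norm, hn]
    simp only [norm_mul, Complex.norm_real, Real.norm_eq_abs]
    rw [abs_of_pos (by positivity)]
    field_simp
  have hnc : ContinuousOn n {0}ᶜ := by
    intro w hw
    have hw' : ‖w‖ ≠ 0 := norm_ne_zero_iff.mpr hw
    apply ContinuousAt.continuousWithinAt
    refine ContinuousAt.mul ?_ continuousAt_id
    exact Complex.continuous_ofReal.continuousAt.comp
      (continuousAt_const.div continuous_norm.continuousAt hw')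
  have hpc : ContinuousOn p {0}ᶜ := by
    refine ContinuousOn.mul ?_ (hh.comp hnc fun w hw => hns w hw)
    exact (Complex.continuous_ofReal.comp (continuous_norm.div_const ρ)).continuousOn
  have hpn : ∀ w : ℂ, ‖p w‖ ≤ ‖w‖ / ρ := by
    intro w
    by_cases hw : w = 0
    · subst hw
      simp [hp]
    · rw [hp]
      simp only [norm_mul, Complex.norm_real, Real.norm_eq_abs]
      rw [abs_of_nonneg (by positivity)]
      have := (hm _ (hns w hw)).1
      have h0 : 0 ≤ ‖w‖ / ρ := by positivity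
      nlinarith
  have hpb : ∀ w ∈ closedBall (0:ℂ) ρ, p w ∈ ball (0:ℂ) 1 := by
    intro w hw
    rw [mem_closedBall_zero_iff] at hw
    rw [mem_ball_zero_iff]
    by_cases hw0 : w = 0
    · subst hw0
      simp [hp]
    · rw [hp]
      simp only [norm_mul, Complex.norm_real, Real.norm_eq_abs]
      rw [abs_of_nonneg (by positivity)]
      have h1 := (hm _ (hns w hw0)).1
      have h2 : ‖w‖ / ρ ≤ 1 := by rw [div_le_one hρ]; exact hw
      have h0 : 0 ≤ ‖w‖ / ρ := by positivity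
      have h3 := norm_nonneg (h (n w))
      nlinarith
  have hne : ∀ w : ℂ, w ≠ 0 → w - p w ≠ 0 := by
    intro w hw h0
    have hw' : 0 < ‖w‖ := norm_pos_iff.mpr hw
    have h1 := (hm _ (hns w hw)).2
    have h2 : w = ((‖w‖ / ρ : ℝ) : ℂ) * n w := by
      rw [hn]
      simp only
      rw [← mul_assoc, ← Complex.ofReal_mul]
      have : ‖w‖ / ρ * (ρ / ‖w‖) = 1 := by field_simp
      rw [this]
      simp
    have h3 : ((‖w‖ / ρ : ℝ) : ℂ) * (h (n w) - n w) = 0 := by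
      rw [mul_sub, ← h2]
      have : w = p w := sub_eq_zero.mp h0
      have h4 : p w = ((‖w‖ / ρ : ℝ) : ℂ) * h (n w) := rfl
      rw [← h4, ← this, sub_self]
    have h5 : ((‖w‖ / ρ : ℝ) : ℂ) ≠ 0 := by
      rw [Ne, Complex.ofReal_eq_zero]
      positivity
    rcases mul_eq_zero.mp h3 with h6 | h6
    · exact h5 h6
    · rw [h6, norm_zero] at h1
      linarith
  have hp0 : Tendsto p (𝓝 0) (𝓝 0) := by
    rw [tendsto_zero_iff_norm_tendsto_zero]
    refine squeeze_zero (fun w => norm_nonneg _) hpn ?_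
    have : Tendsto (fun w : ℂ => ‖w‖ / ρ) (𝓝 0) (𝓝 (‖(0:ℂ)‖ / ρ)) :=
      (continuous_norm.div_const ρ).tendsto 0
    simpa using this
  have hstrict : HasStrictDerivAt ψ (deriv ψ 0) 0 :=
    (hE.dψ.analyticAt (isOpen_ball.mem_nhds (mem_ball_self one_pos))).hasStrictDerivAt
  have hψc : ∀ z ∈ ball (0:ℂ) 1, ContinuousAt ψ z := fun z hz =>
    hE.dψ.continuousOn.continuousAt (isOpen_ball.mem_nhds hz)
  set f : ℂ → ℂ := fun w => if w = 0 then deriv ψ 0 else (ψ w - ψ (p w)) / (w - p w) with hf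
  have hballs : closedBall (0:ℂ) ρ ⊆ ball 0 1 := closedBall_subset_ball hρ1
  have hfc : ContinuousOn f (closedBall 0 ρ) := by
    intro w hw
    by_cases hw0 : w = 0
    · subst hw0
      apply ContinuousAt.continuousWithinAt
      rw [continuousAt_iff_punctured_nhds]
      have hf0 : f 0 = deriv ψ 0 := by simp [hf]
      rw [hf0]
      have h1 := hstrict.hasStrictFDerivAt.isLittleO
      have h2 : Tendsto (fun w : ℂ => (w, p w)) (𝓝[≠] 0) (𝓝 ((0:ℂ), (0:ℂ))) := by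
        rw [nhds_prod_eq]
        exact (tendsto_id.mono_left nhdsWithin_le_nhds).prodMk (hp0.mono_left nhdsWithin_le_nhds)
      have h3 := (h1.comp_tendsto h2).tendsto_div_nhds_zero
      have h4 := h3.add_const (deriv ψ 0)
      rw [zero_add] at h4
      refine h4.congr' ?_
      filter_upwards [self_mem_nhdsWithin] with w hw
      have hw1 : w ≠ 0 := hw
      have h5 := hne w hw1
      simp only [Function.comp, hf, if_neg hw1]
      rw [div_add' _ _ _ h5]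
      congr 1
      simp
      ring
    · apply ContinuousAt.continuousWithinAt
      have h1 : ContinuousAt (fun w => (ψ w - ψ (p w)) / (w - p w)) w := by
        have h2 : ContinuousAt p w := hpc.continuousAt (isOpen_compl_singleton.mem_nhds hw0)
        have h3 : ContinuousAt (fun w => ψ (p w)) w :=
          ContinuousAt.comp (g := ψ) (f := p) (hψc _ (hpb w hw)) h2
        exact ((hψc w (hballs hw)).sub h3).div (continuousAt_id.sub h2) (hne w hw0)
      refine h1.congr ?_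
      filter_upwards [isOpen_compl_singleton.mem_nhds hw0] with w' hw'
      have : w' ≠ 0 := hw'
      simp only [hf, if_neg this]
  have hfne : ∀ w ∈ closedBall (0:ℂ) ρ, f w ≠ 0 := by
    intro w hw
    by_cases hw0 : w = 0
    · simp only [hf, if_pos hw0]
      exact deriv_ne_zero_of_injOn isOpen_ball hE.dψ (IC_injOn hE) (mem_ball_self one_pos)
    · simp only [hf, if_neg hw0]
      refine div_ne_zero ?_ (hne w hw0)
      intro h1
      apply hne w hw0
      rw [sub_eq_zero]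
      exact IC_injOn hE (hballs hw) (hpb w hw) (sub_eq_zero.mp h1)
  have hlog := allLogs_closedBall 0 ρ f hfc hfne
  refine IC_log_congr (IC_log_mono hlog sphere_subset_closedBall) ?_
  intro z hz
  rw [mem_sphere_zero_iff_norm] at hz
  have hz0 : z ≠ 0 := by
    rintro rfl
    rw [norm_zero] at hz
    linarith
  have hnz : n z = z := by
    rw [hn]
    simp only
    rw [hz, div_self hρ.ne']
    simp
  have hpz : p z = h z := by
    rw [hp]
    simp only
    rw [hnz, hz, div_self hρ.ne']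
    simp
  simp only [hf, if_neg hz0, hpz]

/-- if `h z = t z` with `t ≥ 0` then `‖h z - z‖ = |‖h z‖ - ‖z‖|` -/
theorem IC_ray {z w : ℂ} (hz : z ≠ 0) (hw : -w / z ∉ Complex.slitPlane) :
    ‖w - z‖ = |‖w‖ - ‖z‖| := by
  rw [Complex.mem_slitPlane_iff] at hw
  push Not at hw
  obtain ⟨h1, h2⟩ := hw
  set t : ℝ := -(-w / z).re with ht
  have ht0 : 0 ≤ t := by linarith
  have h3 : -w / z = ((-t : ℝ) : ℂ) := by
    apply Complex.ext
    · simp [ht]
    · simp [h2]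
  have h4 : w = (t : ℂ) * z := by
    have h5 : -w = ((-t : ℝ) : ℂ) * z := by
      rw [← h3]
      field_simp
    have h6 : w = - (-w) := by ring
    rw [h6, h5]
    push_cast
    ring
  have h7 : w - z = ((t - 1 : ℝ) : ℂ) * z := by
    rw [h4]
    push_cast
    ring
  rw [h7, norm_mul, Complex.norm_real, Real.norm_eq_abs, h4, norm_mul, Complex.norm_real,
    Real.norm_eq_abs, abs_of_nonneg ht0]
  have h8 : t * ‖z‖ - ‖z‖ = (t - 1) * ‖z‖ := by ring
  rw [h8, abs_mul, abs_norm]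

theorem IC_a {h : ℂ → ℂ} {ρ c : ℝ} (hρ : 0 < ρ) (hρc : 1 - ρ < c)
    (hh : ContinuousOn h (sphere 0 ρ))
    (hm : ∀ z ∈ sphere (0:ℂ) ρ, ‖h z‖ < 1 ∧ c ≤ ‖h z - z‖) :
    HasLog (fun z => (z - h z) / z) (sphere 0 ρ) := by
  have hz0 : ∀ z ∈ sphere (0:ℂ) ρ, z ≠ 0 := by
    rintro z hz rfl
    rw [mem_sphere_zero_iff_norm, norm_zero] at hz
    linarith
  apply IC_log_slit
  · exact (continuousOn_id.sub hh).div continuousOn_id hz0
  · intro z hz
    have hz0' := hz0 z hz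
    obtain ⟨h1, h2⟩ := hm z hz
    rw [mem_sphere_zero_iff_norm] at hz
    by_contra hcon
    rw [Complex.mem_slitPlane_iff] at hcon
    push Not at hcon
    obtain ⟨h3, h4⟩ := hcon
    have h5 : (z - h z) / z = 1 + (- h z / z) := by
      field_simp
      ring
    rw [h5] at h3 h4
    simp only [Complex.add_re, Complex.one_re, Complex.add_im, Complex.one_im, zero_add] at h3 h4
    have h6 : -h z / z ∉ Complex.slitPlane := by
      rw [Complex.mem_slitPlane_iff]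
      push Not
      exact ⟨by linarith, h4⟩
    have h7 := IC_ray hz0' h6
    have h8 : ‖z‖ ≤ ‖h z‖ := by
      have h9 : -h z / z = (((-h z / z).re : ℝ) : ℂ) := by
        apply Complex.ext
        · simp
        · rw [h4]; simp
      have h10 : ‖-h z / z‖ = |(-h z / z).re| := by
        conv_lhs => rw [h9]
        rw [Complex.norm_real, Real.norm_eq_abs]
      have h11 : 1 ≤ ‖-h z / z‖ := by
        rw [h10, abs_of_nonpos (by linarith)]
        linarith
      rw [norm_div, norm_neg, le_div_iff₀ (norm_pos_iff.mpr hz0'), one_mul] at h11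
      exact h11
    rw [abs_of_nonneg (by linarith)] at h7
    linarith

theorem IC_b {h : ℂ → ℂ} {ρ c : ℝ} (hρ : 0 < ρ) (hρ1 : ρ < 1) (hρc : 1 - c / 2 < ρ)
    (hh : ContinuousOn h (sphere 0 ρ))
    (hm : ∀ z ∈ sphere (0:ℂ) ρ, ‖h z‖ < 1 ∧ c ≤ ‖h z - z‖ ∧ 1 - c / 2 < ‖h z‖) :
    HasLog (fun z => h z / z) (sphere 0 ρ) := by
  have hz0 : ∀ z ∈ sphere (0:ℂ) ρ, z ≠ 0 := by
    rintro z hz rfl
    rw [mem_sphere_zero_iff_norm, norm_zero] at hz
    linarith
  apply IC_log_neg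
  have : HasLog (fun z => (- h z) / z) (sphere 0 ρ) := by
    apply IC_log_slit
    · exact hh.neg.div continuousOn_id hz0
    · intro z hz
      obtain ⟨h1, h2, h3⟩ := hm z hz
      by_contra hcon
      have h4 := IC_ray (hz0 z hz) hcon
      rw [mem_sphere_zero_iff_norm] at hz
      rw [h4, hz] at h2
      have h5 : |‖h z‖ - ρ| < c := by
        rw [abs_lt]
        constructor <;> linarith
      linarith
  exact IC_log_congr this fun z _ => by ring

end aux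

theorem star_nontrivial {K : Set ℂ} (hK : IsCompact K) (hKc : IsConnected K) (h0 : (0:ℂ) ∈ K)
    {ψ v : ℂ → ℂ} (hE : ExtMap K ψ v) (k₀ : ℂ) {g h : ℂ → ℂ} {ρ₀ c : ℝ} (hρ₀ : 0 < ρ₀)
    (hρ₀' : ρ₀ < 1) (hc : 0 < c) (hh : ContinuousOn h {z | ρ₀ ≤ ‖z‖ ∧ ‖z‖ < 1})
    (hm : ∀ z : ℂ, ρ₀ ≤ ‖z‖ → ‖z‖ < 1 → ‖h z‖ < 1 ∧ h z ≠ 0 ∧ c ≤ ‖h z - z‖ ∧
      g (k₀ + (ψ z)⁻¹) = k₀ + (ψ (h z))⁻¹)
    (hlim : ∀ ε > 0, ∃ ρ < (1:ℝ), ∀ z : ℂ, ρ ≤ ‖z‖ → ‖z‖ < 1 → 1 - ε < ‖h z‖)
    {N : Set ℂ} (hN : IsOpen N) (hKN : (fun z => k₀ + z) '' K ⊆ N) {k : ℂ}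
    (hk : k ∈ (fun z => k₀ + z) '' K) :
    ∃ O : Set ℂ, IsOpen O ∧ (fun z => k₀ + z) '' K ⊆ O ∧ closure O ⊆ N ∧ Bornology.IsBounded O ∧
      HasLog (fun x => (g x - x) / (x - k)) (frontier O) ∧
      HasLog (fun x => (g x - k) / (x - k)) (frontier O) ∧
      ∀ x ∈ closure O, x ∉ (fun z => k₀ + z) '' K → g x ≠ x := by
  classical
  obtain ⟨κ, hκ, rfl⟩ := hk
  set K' : Set ℂ := (fun z => k₀ + z) '' K with hK'
  set F : ℂ → ℂ := fun z => k₀ + (ψ z)⁻¹ with hF
  set u : ℂ → ℂ := fun x => v ((x - k₀)⁻¹) with hu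
  have memK : ∀ x, x ∈ K' ↔ x - k₀ ∈ K := by
    intro x
    constructor
    · rintro ⟨y, hy, rfl⟩
      simpa using hy
    · intro hx
      exact ⟨x - k₀, hx, by ring⟩
  have hK'c : IsCompact K' := hK.image (continuous_const.add continuous_id)
  have hK'cl : IsClosed K' := hK'c.isClosed
  have F1 : ∀ z ∈ ball (0:ℂ) 1, z ≠ 0 → F z ∉ K' ∧ u (F z) = z := by
    intro z hz hz0
    constructor
    · rw [memK]
      simp only [hF, add_sub_cancel_left]
      exact IC_inv_notMem hE hz hz0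
    · simp only [hu, hF, add_sub_cancel_left, inv_inv]
      exact hE.vψ z hz
  have hx0 : ∀ x, x ∉ K' → x - k₀ ≠ 0 := by
    intro x hx h1
    rw [memK, h1] at hx
    exact hx h0
  have hxE : ∀ x, x ∉ K' → (x - k₀)⁻¹ ∈ extDom K := by
    intro x hx
    right
    rw [inv_inv]
    rwa [← memK]
  have F2a : ∀ x, x ∉ K' → u x ∈ ball (0:ℂ) 1 := fun x hx => hE.mv (hxE x hx)
  have F2b : ∀ x, x ∉ K' → ψ (u x) = (x - k₀)⁻¹ := fun x hx => hE.ψv _ (hxE x hx)
  have F2c : ∀ x, x ∉ K' → u x ≠ 0 := by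
    intro x hx h1
    have h2 := F2b x hx
    rw [h1, hE.ψ0] at h2
    exact hx0 x hx (inv_eq_zero.mp h2.symm)
  have F2d : ∀ x, x ∉ K' → F (u x) = x := by
    intro x hx
    simp only [hF]
    rw [F2b x hx, inv_inv]
    ring
  have F3 : ContinuousOn u K'ᶜ := by
    refine hE.dv.continuousOn.comp ?_ fun x hx => hxE x hx
    exact (continuousOn_id.sub continuousOn_const).inv₀ fun x hx => hx0 x hx
  -- the neighbourhoods
  set O : ℝ → Set ℂ := fun ρ => {x | x ∈ K' ∨ ρ < ‖u x‖} with hO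
  have hOmono : ∀ ρ ρ', ρ ≤ ρ' → O ρ' ⊆ O ρ := by
    rintro ρ ρ' h1 x (hx | hx)
    · exact Or.inl hx
    · exact Or.inr (lt_of_le_of_lt h1 hx)
  have G3o : ∀ ρ, IsOpen {x | x ∉ K' ∧ ‖u x‖ < ρ} := by
    intro ρ
    have := F3.norm.isOpen_inter_preimage hK'cl.isOpen_compl (isOpen_Iio (a := ρ))
    exact this
  have G3 : ∀ ρ, closure (O ρ) ⊆ {x | x ∈ K' ∨ ρ ≤ ‖u x‖} := by
    intro ρ
    have h1 : IsClosed {x | x ∈ K' ∨ ρ ≤ ‖u x‖} := by
      rw [← isOpen_compl_iff]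
      convert G3o ρ using 1
      ext x
      simp only [mem_compl_iff, mem_ofPred_eq, not_or, not_le]
    refine closure_minimal ?_ h1
    rintro x (hx | hx)
    · exact Or.inl hx
    · exact Or.inr hx.le
  have memS : ∀ ρ, ρ < 1 → ∀ x, (x ∉ O ρ ↔ x ≠ k₀ ∧ (x - k₀)⁻¹ ∈ ψ '' closedBall (0:ℂ) ρ) := by
    intro ρ hρ x
    simp only [hO, mem_ofPred_eq, not_or, not_lt]
    constructor
    · rintro ⟨h1, h2⟩
      refine ⟨fun h3 => hx0 x h1 (by rw [h3, sub_self]), u x, ?_, F2b x h1⟩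
      rwa [mem_closedBall_zero_iff]
    · rintro ⟨h1, z, hz, hz2⟩
      have hzb : z ∈ ball (0:ℂ) 1 := closedBall_subset_ball hρ hz
      have hz0 : z ≠ 0 := by
        rintro rfl
        rw [hE.ψ0] at hz2
        have := inv_eq_zero.mp hz2.symm
        exact h1 (sub_eq_zero.mp this)
      have h3 : F z = x := by
        simp only [hF]
        rw [hz2, inv_inv]
        ring
      obtain ⟨h4, h5⟩ := F1 z hzb hz0
      rw [h3] at h4 h5
      refine ⟨h4, ?_⟩
      rw [h5]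
      rwa [mem_closedBall_zero_iff] at hz
  have hPc : ∀ ρ, ρ < 1 → IsCompact (ψ '' closedBall (0:ℂ) ρ) := fun ρ hρ =>
    (isCompact_closedBall 0 ρ).image_of_continuousOn
      (hE.dψ.continuousOn.mono (closedBall_subset_ball hρ))
  have G1 : ∀ ρ, ρ < 1 → IsOpen (O ρ) := by
    intro ρ hρ
    rw [← isClosed_compl_iff]
    obtain ⟨M, hM⟩ := (hPc ρ hρ).isBounded.exists_norm_le
    have hM' : ∀ w ∈ ψ '' closedBall (0:ℂ) ρ, ‖w‖ ≤ max M 1 := fun w hw =>
      (hM w hw).trans (le_max_left _ _)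
    have hM1 : 0 < max M 1 := lt_of_lt_of_le one_pos (le_max_right _ _)
    have h1 : (O ρ)ᶜ = {x | 1 / max M 1 ≤ ‖x - k₀‖} ∩
        (fun x => (x - k₀)⁻¹) ⁻¹' (ψ '' closedBall (0:ℂ) ρ) := by
      ext x
      rw [mem_compl_iff, memS ρ hρ x]
      constructor
      · rintro ⟨h2, h3⟩
        refine ⟨?_, h3⟩
        have h4 := hM' _ h3
        have h5 : 0 < ‖x - k₀‖ := norm_pos_iff.mpr (sub_ne_zero.mpr h2)
        rw [norm_inv] at h4
        rw [mem_ofPred_eq, one_div]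
        exact inv_le_of_inv_le₀ h5 h4
      · rintro ⟨h2, h3⟩
        refine ⟨?_, h3⟩
        rintro rfl
        rw [mem_ofPred_eq, sub_self, norm_zero] at h2
        have : 0 < 1 / max M 1 := by positivity
        linarith
    rw [h1]
    refine ContinuousOn.preimage_isClosed_of_isClosed ?_
      (isClosed_le continuous_const (continuous_id.sub continuous_const).norm)
      (hPc ρ hρ).isClosed
    refine (continuousOn_id.sub continuousOn_const).inv₀ ?_
    intro x hx h2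
    rw [mem_ofPred_eq] at hx
    have h3 : x - k₀ = 0 := h2
    rw [h3, norm_zero] at hx
    have : 0 < 1 / max M 1 := by positivity
    linarith
  have hE0 : extDom K ∈ 𝓝 (0:ℂ) := by
    obtain ⟨M, hM⟩ := hK.isBounded.exists_norm_le
    have hM1 : 0 < max M 1 := lt_of_lt_of_le one_pos (le_max_right _ _)
    rw [Metric.mem_nhds_iff]
    refine ⟨1 / max M 1, by positivity, ?_⟩
    intro w hw
    rw [mem_ball_zero_iff] at hw
    by_cases hw0 : w = 0
    · exact Or.inl hw0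
    · refine Or.inr fun h1 => ?_
      have h2 := (hM _ h1).trans (le_max_left M 1)
      have h3 : 0 < ‖w‖ := norm_pos_iff.mpr hw0
      rw [norm_inv, inv_le_comm₀ h3 hM1] at h2
      rw [one_div] at hw
      linarith
  have G2 : ∀ ρ, 0 < ρ → ρ < 1 → Bornology.IsBounded (O ρ) := by
    intro ρ hρ hρ1
    have h1 : ContinuousAt v 0 := by
      have := hE.dv.continuousOn 0 (Or.inl rfl)
      exact this.continuousAt hE0
    have h2 : ∀ᶠ w in 𝓝 (0:ℂ), ‖v w‖ < ρ ∧ w ∈ extDom K := by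
      refine Filter.Eventually.and ?_ hE0
      have h3 : Tendsto (fun w => ‖v w‖) (𝓝 0) (𝓝 0) := by
        have := h1.norm
        rw [ContinuousAt, IC_v0 hE, norm_zero] at this
        exact this
      exact h3.eventually_lt_const hρ
    obtain ⟨δ, hδ, hδ2⟩ := Metric.eventually_nhds_iff.mp h2
    refine (isBounded_closedBall (x := k₀) (r := 1 / δ)).subset ?_
    intro x hx
    rw [mem_closedBall, dist_eq_norm]
    by_contra hcon
    push Not at hcon
    have hpos : 0 < ‖x - k₀‖ := lt_trans (by positivity) hcon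
    have hne : x - k₀ ≠ 0 := norm_pos_iff.mp hpos
    have h3 : dist (x - k₀)⁻¹ 0 < δ := by
      rw [dist_zero_right, norm_inv]
      rw [one_div] at hcon
      exact inv_lt_of_inv_lt₀ hδ hcon
    obtain ⟨h4, h5⟩ := hδ2 h3
    have h6 : x ∉ K' := by
      rw [memK]
      rcases h5 with h5 | h5
      · exact absurd (inv_eq_zero.mp h5) hne
      · rwa [inv_inv] at h5
    rcases hx with hx | hx
    · exact h6 hx
    · exact absurd (lt_trans hx h4) (lt_irrefl _)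
  have G4 : ∀ ρ, ρ < 1 → ∀ x ∈ frontier (O ρ), x ∉ K' ∧ ‖u x‖ = ρ := by
    intro ρ hρ x hx
    rw [frontier, (G1 ρ hρ).interior_eq] at hx
    obtain ⟨h1, h2⟩ := hx
    have h3 := G3 ρ h1
    simp only [hO, mem_ofPred_eq, not_or, not_lt] at h2
    rcases h3 with h3 | h3
    · exact absurd h3 h2.1
    · exact ⟨h2.1, le_antisymm h2.2 h3⟩
  have G5 : ∃ m < (1:ℝ), ∀ ρ, m < ρ → ρ < 1 → closure (O ρ) ⊆ N := by
    have hb : IsCompact (closure (O (1/2)) ∩ Nᶜ) := by
      have h1 : IsCompact (closure (O (1/2))) :=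
        (G2 (1/2) (by norm_num) (by norm_num)).isCompact_closure
      exact h1.inter_right hN.isClosed_compl
    have hbK : closure (O (1/2)) ∩ Nᶜ ⊆ K'ᶜ := by
      rintro x ⟨_, h2⟩ h3
      exact h2 (hKN h3)
    obtain ⟨m, hm1, hm2⟩ : ∃ m < (1:ℝ), ∀ x ∈ closure (O (1/2)) ∩ Nᶜ, ‖u x‖ ≤ m := by
      by_cases hne : (closure (O (1/2)) ∩ Nᶜ).Nonempty
      · obtain ⟨x₀, hx₀, hx₁⟩ := hb.exists_isMaxOn hne (F3.mono hbK).norm
        refine ⟨‖u x₀‖, ?_, fun x hx => hx₁ hx⟩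
        have := F2a x₀ (hbK hx₀)
        rwa [mem_ball_zero_iff] at this
      · refine ⟨0, one_pos, fun x hx => absurd ⟨x, hx⟩ hne⟩
    refine ⟨max m (1/2), max_lt hm1 (by norm_num), fun ρ h1 h2 x hx => ?_⟩
    by_contra hxN
    have h3 : x ∈ closure (O (1/2)) := closure_mono
      (hOmono _ _ ((le_max_right _ _).trans h1.le)) hx
    have h4 := hm2 x ⟨h3, hxN⟩
    have h5 : x ∉ K' := hbK ⟨h3, hxN⟩
    rcases G3 ρ hx with h6 | h6
    · exact h5 h6
    · have h7 := lt_of_le_of_lt (le_max_left m (1/2)) h1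
      linarith
  obtain ⟨m, hm1, hmN⟩ := G5
  obtain ⟨ρ₁, hρ₁, hlim₁⟩ := hlim (c / 2) (by positivity)
  obtain ⟨ρ, hρA, hρ1⟩ := exists_between
    (show max (max m ρ₀) (max ρ₁ (1 - c / 2)) < 1 from
      max_lt (max_lt hm1 hρ₀') (max_lt hρ₁ (by linarith)))
  have hρm : m < ρ := lt_of_le_of_lt ((le_max_left _ _).trans (le_max_left _ _)) hρA
  have hρρ₀ : ρ₀ < ρ := lt_of_le_of_lt ((le_max_right _ _).trans (le_max_left _ _)) hρA
  have hρρ₁ : ρ₁ < ρ := lt_of_le_of_lt ((le_max_left _ _).trans (le_max_right _ _)) hρA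
  have hρc : 1 - c / 2 < ρ := lt_of_le_of_lt ((le_max_right _ _).trans (le_max_right _ _)) hρA
  have hρ : 0 < ρ := hρ₀.trans hρρ₀
  -- the data on the circle
  have hsph : ∀ z ∈ sphere (0:ℂ) ρ, ‖z‖ = ρ := fun z hz => by
    rwa [mem_sphere_zero_iff_norm] at hz
  have hsb : ∀ z ∈ sphere (0:ℂ) ρ, z ∈ ball (0:ℂ) 1 := fun z hz => by
    rw [mem_ball_zero_iff, hsph z hz]
    exact hρ1
  have hs0 : ∀ z ∈ sphere (0:ℂ) ρ, z ≠ 0 := by
    rintro z hz rfl
    have := hsph _ hz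
    rw [norm_zero] at this
    linarith
  have hmS : ∀ z ∈ sphere (0:ℂ) ρ, ‖h z‖ < 1 ∧ h z ≠ 0 ∧ c ≤ ‖h z - z‖ ∧
      g (k₀ + (ψ z)⁻¹) = k₀ + (ψ (h z))⁻¹ := fun z hz =>
    hm z (by rw [hsph z hz]; exact hρρ₀.le) (by rw [hsph z hz]; exact hρ1)
  have hlS : ∀ z ∈ sphere (0:ℂ) ρ, 1 - c / 2 < ‖h z‖ := fun z hz =>
    hlim₁ z (by rw [hsph z hz]; exact hρρ₁.le) (by rw [hsph z hz]; exact hρ1)
  have hhS : ContinuousOn h (sphere 0 ρ) := hh.mono fun z hz =>
    ⟨by rw [hsph z hz]; exact hρρ₀.le, by rw [hsph z hz]; exact hρ1⟩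
  have hhB : MapsTo h (sphere 0 ρ) (ball 0 1) := fun z hz => by
    rw [mem_ball_zero_iff]
    exact (hmS z hz).1
  have La := IC_a hρ (by linarith : 1 - ρ < c) hhS fun z hz => ⟨(hmS z hz).1, (hmS z hz).2.2.1⟩
  have Lb := IC_b hρ hρ1 hρc hhS fun z hz =>
    ⟨(hmS z hz).1, (hmS z hz).2.2.1, hlS z hz⟩
  have LQ := IC_Q hE hρ hρ1 hc hhS fun z hz => ⟨(hmS z hz).1, (hmS z hz).2.2.1⟩
  obtain ⟨q, Lq, hq⟩ := IC_q hE
  have Lqs : HasLog q (sphere 0 ρ) := IC_log_mono Lq hsb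
  have Lqh : HasLog (fun z => q (h z)) (sphere 0 ρ) := IC_log_comp (f := q) Lq hhS hhB
  have Lm := IC_m hE hκ
  have Lms : HasLog (fun z => 1 - κ * ψ z) (sphere 0 ρ) := IC_log_mono Lm hsb
  have Lmh : HasLog (fun z => 1 - κ * ψ (h z)) (sphere 0 ρ) :=
    IC_log_comp (f := fun z => 1 - κ * ψ z) Lm hhS hhB
  have hψs : ∀ z ∈ sphere (0:ℂ) ρ, ψ z ≠ 0 := fun z hz => IC_psi_ne hE (hsb z hz) (hs0 z hz)
  have hψh : ∀ z ∈ sphere (0:ℂ) ρ, ψ (h z) ≠ 0 := fun z hz =>
    IC_psi_ne hE (hhB hz) (hmS z hz).2.1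
  have hlogne : ∀ {f : ℂ → ℂ} {S : Set ℂ}, HasLog f S → ∀ z ∈ S, f z ≠ 0 := by
    rintro f S ⟨L, _, h2⟩ z hz
    rw [h2 z hz]
    exact Complex.exp_ne_zero _
  have LA : HasLog (fun z => (g (F z) - F z) / (F z - (k₀ + κ))) (sphere 0 ρ) := by
    refine IC_log_congr (IC_log_div (IC_log_mul La LQ) (IC_log_mul (IC_log_mul Lb Lqh) Lms)) ?_
    intro z hz
    obtain ⟨h1, h2, h3, h4⟩ := hmS z hz
    have hz0 := hs0 z hz
    have hzψ := hψs z hz
    have hzh := hψh z hz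
    have hq1 := hq z (hsb z hz)
    have hq2 := hq (h z) (hhB hz)
    have hmz := hlogne Lms z hz
    have hqz := hlogne Lqh z hz
    have hzw : z - h z ≠ 0 := by
      intro h5
      have h6 : h z - z = 0 := by
        rw [← neg_sub, h5, neg_zero]
      rw [h6, norm_zero] at h3
      linarith
    simp only [hF]
    rw [h4]
    have e1 : k₀ + (ψ (h z))⁻¹ - (k₀ + (ψ z)⁻¹) = (ψ z - ψ (h z)) / (ψ z * ψ (h z)) := by
      field_simp
      ring
    have e2 : k₀ + (ψ z)⁻¹ - (k₀ + κ) = (1 - κ * ψ z) / ψ z := by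
      field_simp
      ring
    rw [e1, e2]
    have e3 : (ψ z - ψ (h z)) / (ψ z * ψ (h z)) / ((1 - κ * ψ z) / ψ z) =
        (ψ z - ψ (h z)) / (ψ (h z) * (1 - κ * ψ z)) := by
      field_simp
    have e4 : (z - h z) / z * ((ψ z - ψ (h z)) / (z - h z)) /
        (h z / z * q (h z) * (1 - κ * ψ z)) =
        (ψ z - ψ (h z)) / ((h z * q (h z)) * (1 - κ * ψ z)) := by
      field_simp
    rw [e3, e4, ← hq2]
  have LB : HasLog (fun z => (g (F z) - (k₀ + κ)) / (F z - (k₀ + κ))) (sphere 0 ρ) := by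
    refine IC_log_congr (IC_log_div (IC_log_mul Lmh Lqs) (IC_log_mul (IC_log_mul Lb Lqh) Lms)) ?_
    intro z hz
    obtain ⟨h1, h2, h3, h4⟩ := hmS z hz
    have hz0 := hs0 z hz
    have hzψ := hψs z hz
    have hzh := hψh z hz
    have hq1 := hq z (hsb z hz)
    have hq2 := hq (h z) (hhB hz)
    have hmz := hlogne Lms z hz
    have hqz := hlogne Lqh z hz
    simp only [hF]
    rw [h4]
    have e1 : k₀ + (ψ (h z))⁻¹ - (k₀ + κ) = (1 - κ * ψ (h z)) / ψ (h z) := by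
      field_simp
      ring
    have e2 : k₀ + (ψ z)⁻¹ - (k₀ + κ) = (1 - κ * ψ z) / ψ z := by
      field_simp
      ring
    rw [e1, e2]
    have e3 : (1 - κ * ψ (h z)) / ψ (h z) / ((1 - κ * ψ z) / ψ z) =
        (1 - κ * ψ (h z)) * ψ z / (ψ (h z) * (1 - κ * ψ z)) := by
      field_simp
    have e4 : (1 - κ * ψ (h z)) * q z / (h z / z * q (h z) * (1 - κ * ψ z)) =
        (1 - κ * ψ (h z)) * (z * q z) / ((h z * q (h z)) * (1 - κ * ψ z)) := by
      field_simp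
    rw [e3, e4, ← hq2, ← hq1]
  have hfr : ∀ x ∈ frontier (O ρ), u x ∈ sphere (0:ℂ) ρ := fun x hx => by
    rw [mem_sphere_zero_iff_norm]
    exact (G4 ρ hρ1 x hx).2
  have hufr : ContinuousOn u (frontier (O ρ)) := F3.mono fun x hx => (G4 ρ hρ1 x hx).1
  refine ⟨O ρ, G1 ρ hρ1, fun x hx => Or.inl hx, hmN ρ hρm hρ1, G2 ρ hρ hρ1, ?_, ?_, ?_⟩
  · refine IC_log_congr (IC_log_comp
      (f := fun z => (g (F z) - F z) / (F z - (k₀ + κ))) LA hufr hfr) fun x hx => ?_
    simp only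
    rw [F2d x (G4 ρ hρ1 x hx).1]
  · refine IC_log_congr (IC_log_comp
      (f := fun z => (g (F z) - (k₀ + κ)) / (F z - (k₀ + κ))) LB hufr hfr) fun x hx => ?_
    simp only
    rw [F2d x (G4 ρ hρ1 x hx).1]
  · intro x hx hxK hgx
    rcases G3 ρ hx with h1 | h1
    · exact hxK h1
    · have h2 := F2a x hxK
      rw [mem_ball_zero_iff] at h2
      obtain ⟨h3, h4, h5, h6⟩ := hm (u x) (hρρ₀.le.trans h1) h2
      have h7 : F (u x) = x := F2d x hxK
      have h8 : k₀ + (ψ (u x))⁻¹ = x := h7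
      rw [h8, hgx] at h6
      have h9 : (ψ (u x))⁻¹ = (ψ (h (u x)))⁻¹ := by
        have : k₀ + (ψ (u x))⁻¹ = k₀ + (ψ (h (u x)))⁻¹ := h8.trans h6
        exact add_left_cancel this
      have h10 : ψ (u x) = ψ (h (u x)) := inv_injective h9
      have h11 : u x = h (u x) := IC_injOn hE (F2a x hxK)
        (by rw [mem_ball_zero_iff]; exact h3) h10
      rw [← h11, sub_self, norm_zero] at h5
      linarith

end DS

end S_H36_DS_IC

section S_H36_DS_ID

/-!
ID (the index of a nondegenerate fixed point with positive determinants).  Proof.  Let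
`g z = P + B (z - P) + R z` with `‖R z‖ ≤ ε ‖z - P‖` on `closedBall P ρ₁`.  A real linear map `A` of `ℂ` is
`A v = α v + β conj v` with `det A = ‖α‖² - ‖β‖²`; if `det A > 0` then
`A v / v = α + β (conj v / v)` lies in the ball about `α` of radius `‖β‖ < ‖α‖`.  With `A = B - 1`, on the circle
`sphere P ρ` the function `(g z - z) / (z - P) = A v / v + R z / v` (`v = z - P`) stays in
`ball α ‖α‖` when `ε < ‖α‖ - ‖β‖`, so division by `α` puts it in `ball 1 1 ⊆ slitPlane` and `Complex.log` gives the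
logarithm.  The same with `A = B` for `(g z - P) / (z - P)`.  Take `O = ball P ρ` with `ρ` small (`closedBall P ρ ⊆ N`,
`g` continuous on the ball, `‖(B - 1) v‖ ≥ (‖α‖ - ‖β‖) ‖v‖` gives `g z ≠ z` for `z ≠ P`).  frontier = sphere.
-/

namespace DS
open Metric Set Filter Topology

private theorem ID_lin (A : ℂ →L[ℝ] ℂ) (h : 0 < A.det) : ∃ α : ℂ, ∃ m : ℝ, 0 < m ∧
    ∀ v, ‖A v - α * v‖ ≤ (‖α‖ - m) * ‖v‖ := by
  set a : ℂ := A 1 with ha
  set b : ℂ := A Complex.I with hb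
  have hdet : A.det = a.re * b.im - b.re * a.im := by
    have h1 : A.det = LinearMap.det (A : ℂ →ₗ[ℝ] ℂ) := rfl
    rw [h1, ← LinearMap.det_toMatrix Complex.basisOneI, Matrix.det_fin_two]
    simp only [LinearMap.toMatrix_apply, Complex.coe_basisOneI_repr, Complex.coe_basisOneI,
      Matrix.cons_val_zero, Matrix.cons_val_one, ContinuousLinearMap.coe_coe]
    rfl
  set α : ℂ := (a - Complex.I * b) / 2 with hα
  set β : ℂ := (a + Complex.I * b) / 2 with hβ
  have hAv : ∀ v : ℂ, A v - α * v = β * (starRingEnd ℂ) v := by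
    intro v
    have h1 : A v = v.re * a + v.im * b := by
      have h2 : v = v.re • (1 : ℂ) + v.im • Complex.I := by
        simp [Complex.re_add_im]
      conv_lhs => rw [h2]
      rw [map_add, map_smul, map_smul]
      simp [ha, hb]
    rw [h1, hα, hβ]
    apply Complex.ext
    · simp; ring
    · simp; ring
  have hn : ‖β‖ < ‖α‖ := by
    have h1 : ‖α‖ ^ 2 - ‖β‖ ^ 2 = A.det := by
      rw [hdet, Complex.sq_norm, Complex.sq_norm, Complex.normSq_apply, Complex.normSq_apply, hα,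
        hβ]
      simp
      ring
    have h2 : ‖β‖ ^ 2 < ‖α‖ ^ 2 := by linarith
    exact lt_of_pow_lt_pow_left₀ 2 (norm_nonneg _) h2
  refine ⟨α, ‖α‖ - ‖β‖, by linarith, fun v => ?_⟩
  rw [hAv v, norm_mul, RCLike.norm_conj]
  apply le_of_eq
  ring

private theorem ID_log {f : ℂ → ℂ} {S : Set ℂ} {α : ℂ} (hf : ContinuousOn f S)
    (h : ∀ z ∈ S, ‖f z - α‖ < ‖α‖) : HasLog f S := by
  rcases S.eq_empty_or_nonempty with he | ⟨z₀, hz₀⟩
  · subst he
    exact ⟨fun _ => 0, continuousOn_const, fun z hz => absurd hz (notMem_empty z)⟩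
  have hα : α ≠ 0 := norm_pos_iff.1 ((norm_nonneg _).trans_lt (h z₀ hz₀))
  have hslit : ∀ z ∈ S, f z / α ∈ Complex.slitPlane := by
    intro z hz
    refine Complex.ball_one_subset_slitPlane ?_
    rw [mem_ball, dist_eq_norm]
    have h1 : f z / α - 1 = (f z - α) / α := by field_simp
    rw [h1, norm_div, div_lt_one (norm_pos_iff.2 hα)]
    exact h z hz
  refine ⟨fun z => Complex.log (f z / α) + Complex.log α,
    ((hf.div_const α).clog hslit).add continuousOn_const, fun z hz => ?_⟩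
  rw [Complex.exp_add, Complex.exp_log (Complex.slitPlane_ne_zero (hslit z hz)),
    Complex.exp_log hα, div_mul_cancel₀ _ hα]

/-- the quotient is close to the conformal part -/
private theorem ID_near {g : ℂ → ℂ} {P : ℂ} {B : ℂ →L[ℝ] ℂ} (hg : HasFDerivAt g B P)
    (hgP : g P = P) {A : ℂ →L[ℝ] ℂ} {F : ℂ → ℂ} (hA : 0 < A.det)
    (hF : ∀ z, F z = g z - P - B (z - P) + A (z - P)) :
    ∃ α : ℂ, ∀ᶠ z in 𝓝 P, z ≠ P → ‖F z / (z - P) - α‖ < ‖α‖ := by
  obtain ⟨α, m, hm, hα⟩ := ID_lin A hA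
  refine ⟨α, ?_⟩
  have h1 := hg.isLittleO.def (half_pos hm)
  filter_upwards [h1] with z hz hzP
  rw [hgP] at hz
  have hv : z - P ≠ 0 := sub_ne_zero.2 hzP
  have hv' : 0 < ‖z - P‖ := norm_pos_iff.2 hv
  have h2 : F z / (z - P) - α = ((g z - P - B (z - P)) + (A (z - P) - α * (z - P))) / (z - P) := by
    rw [hF z]; field_simp; ring
  rw [h2, norm_div, div_lt_iff₀ hv']
  refine (norm_add_le _ _).trans_lt ?_
  have h3 := hα (z - P)
  nlinarith

theorem star_point {g : ℂ → ℂ} {P : ℂ} {B : ℂ →L[ℝ] ℂ} (hg : HasFDerivAt g B P) (hgP : g P = P)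
    (hdet : 0 < (B - ContinuousLinearMap.id ℝ ℂ).det) (hdet2 : 0 < B.det)
    (hcont : ∀ᶠ z in 𝓝 P, ContinuousAt g z) {N : Set ℂ} (hN : IsOpen N) (hPN : P ∈ N) :
    ∃ O : Set ℂ, IsOpen O ∧ P ∈ O ∧ closure O ⊆ N ∧ Bornology.IsBounded O ∧
      HasLog (fun x => (g x - x) / (x - P)) (frontier O) ∧
      HasLog (fun x => (g x - P) / (x - P)) (frontier O) ∧
      ∀ x ∈ closure O, x ≠ P → g x ≠ x := by
  obtain ⟨α, hα⟩ := ID_near hg hgP (F := fun z => g z - z) hdet (by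
    intro z
    simp only [sub_apply, ContinuousLinearMap.id_apply]
    ring)
  obtain ⟨β, hβ⟩ := ID_near hg hgP (F := fun z => g z - P) hdet2 (by
    intro z
    ring)
  obtain ⟨ρ, hρ, hball⟩ := Metric.nhds_basis_closedBall.mem_iff.1
    (((hα.and hβ).and hcont).and (hN.mem_nhds hPN))
  have hfr : frontier (ball P ρ) = sphere P ρ := frontier_ball P hρ.ne'
  have hcl : closure (ball P ρ) = closedBall P ρ := closure_ball P hρ.ne'
  have hsub : sphere P ρ ⊆ closedBall P ρ := sphere_subset_closedBall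
  have hne : ∀ z ∈ sphere P ρ, z ≠ P := by
    intro z hz h
    rw [h, mem_sphere, dist_self] at hz
    exact hρ.ne hz
  have hgc : ContinuousOn g (sphere P ρ) := fun z hz =>
    (hball (hsub hz)).1.2.continuousWithinAt
  have hden : ContinuousOn (fun z : ℂ => z - P) (sphere P ρ) := by fun_prop
  have hden0 : ∀ z ∈ sphere P ρ, z - P ≠ 0 := fun z hz => sub_ne_zero.2 (hne z hz)
  refine ⟨ball P ρ, isOpen_ball, mem_ball_self hρ, ?_, isBounded_ball, ?_, ?_, ?_⟩
  · rw [hcl]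
    exact fun z hz => (hball hz).2
  · rw [hfr]
    exact ID_log ((hgc.sub continuousOn_id).div hden hden0)
      (fun z hz => (hball (hsub hz)).1.1.1 (hne z hz))
  · rw [hfr]
    exact ID_log ((hgc.sub continuousOn_const).div hden hden0)
      (fun z hz => (hball (hsub hz)).1.1.2 (hne z hz))
  · rw [hcl]
    intro x hx hxP hgx
    have := (hball hx).1.1.1 hxP
    rw [hgx, sub_self, zero_div, zero_sub, norm_neg] at this
    exact lt_irrefl _ this

end DS

end S_H36_DS_ID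

section S_H36_DS_IE

/-!
IE (a function of winding number one has a zero inside).  Proof.  Let `L` be a continuous logarithm of
`f z / (z - k)` on the closed set `frontier O`; extend it by Tietze to a continuous function `L : ℂ → ℂ`.
Define `G z = f z` on `closure O` and `G z = (z - k) * exp (L z)` on `Oᶜ`.  The definitions agree on
`frontier O = closure O ∩ Oᶜ`, so `G` is continuous on `ℂ`, nowhere zero (`k ∈ O`).  By `allLogs_univ` it has winding number
`0` on every circle; on a large circle `sphere k R` outside `closure O` it has winding number `1`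
(`hasWind_id`, `hasWind_mul`).  Contradiction with `hasWind_unique`.
-/

namespace DS
open Metric Set Filter Topology

theorem no_nonvanishing {O : Set ℂ} (hO : IsOpen O) (hb : Bornology.IsBounded O) {k : ℂ} (hk : k ∈ O)
    {f : ℂ → ℂ} (hf : ContinuousOn f (closure O)) (hf0 : ∀ z ∈ closure O, f z ≠ 0)
    (hlog : HasLog (fun z => f z / (z - k)) (frontier O)) : False := by
  classical
  obtain ⟨L0, hL0, hL0E⟩ := hlog
  have hfc : IsClosed (frontier O) := isClosed_frontier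
  obtain ⟨L, hL⟩ := ContinuousMap.exists_restrict_eq hfc
    (⟨(frontier O).domRestrict L0, continuousOn_iff_continuous_domRestrict.1 hL0⟩ : C(frontier O, ℂ))
  have hLE : ∀ z ∈ frontier O, L z = L0 z := by
    intro z hz
    have h1 := DFunLike.congr_fun hL ⟨z, hz⟩
    exact h1
  have hLc : Continuous L := L.continuous
  have hkf : ∀ z ∈ Oᶜ, z - k ≠ 0 := by
    intro z hz h0
    rw [sub_eq_zero] at h0
    rw [h0] at hz
    exact hz hk
  have hfE : ∀ z ∈ frontier O, f z = (z - k) * Complex.exp (L z) := by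
    intro z hz
    have h1 := hL0E z hz
    simp only at h1
    have h2 : z ∈ Oᶜ := by
      rw [hO.frontier_eq] at hz
      exact hz.2
    rw [hLE z hz, ← h1, mul_div_cancel₀ _ (hkf z h2)]
  set G : ℂ → ℂ := fun z => if z ∈ closure O then f z else (z - k) * Complex.exp (L z) with hG
  have hG1 : ∀ z ∈ closure O, G z = f z := fun z hz => by simp only [hG]; rw [if_pos hz]
  have hG2 : ∀ z ∈ Oᶜ, G z = (z - k) * Complex.exp (L z) := by
    intro z hz
    by_cases hz2 : z ∈ closure O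
    · rw [hG1 z hz2]
      refine hfE z ?_
      rw [hO.frontier_eq]
      exact ⟨hz2, hz⟩
    · simp only [hG]
      rw [if_neg hz2]
  have hGc : ContinuousOn G univ := by
    have h1 : ContinuousOn G (closure O) := hf.congr hG1
    have h2 : ContinuousOn G Oᶜ := by
      refine ContinuousOn.congr (f := fun z => (z - k) * Complex.exp (L z)) ?_ hG2
      exact ((continuous_id.sub continuous_const).mul (Complex.continuous_exp.comp hLc)).continuousOn
    have h3 := h1.union_of_isClosed h2 isClosed_closure hO.isClosed_compl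
    refine h3.mono ?_
    intro z _
    by_cases hz : z ∈ O
    · exact Or.inl (subset_closure hz)
    · exact Or.inr hz
  have hG0 : ∀ z ∈ univ, G z ≠ 0 := by
    intro z _
    by_cases hz : z ∈ O
    · rw [hG1 z (subset_closure hz)]
      exact hf0 z (subset_closure hz)
    · rw [hG2 z hz]
      exact mul_ne_zero (hkf z hz) (Complex.exp_ne_zero _)
  have hGL : HasLog G univ := allLogs_univ G hGc hG0
  obtain ⟨R, hR, hRb⟩ := hb.subset_closedBall_lt 0 k
  have hR1 : 0 < R + 1 := by linarith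
  have hout : ∀ z ∈ sphere k (R + 1), z ∈ Oᶜ := by
    intro z hz hzO
    have h1 := hRb hzO
    rw [mem_closedBall] at h1
    rw [mem_sphere] at hz
    linarith
  have hw0 : HasWind G k (R + 1) 0 := hasWind_of_hasLog (subset_univ _) hGL
  have hw1 : HasWind G k (R + 1) 1 := by
    have h1 : HasWind (fun z => (z - k) * Complex.exp (L z)) k (R + 1) (1 + 0) :=
      hasWind_mul hR1 (hasWind_id k (R + 1))
        (hasWind_of_hasLog (subset_univ _) ⟨L, hLc.continuousOn, fun z _ => rfl⟩)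
    obtain ⟨M, hM, hME⟩ := h1
    exact ⟨M, hM, fun z hz => by rw [hG2 z (hout z hz)]; exact hME z hz⟩
  have := hasWind_unique hR1 hw0 hw1
  omega

end DS

end S_H36_DS_IE
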