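import Pool.Agent.H12.KS.K06

/-! Joined modules of the proof of MP_8a27c0_an (one section per module). -/

section S_H36_DS_PF

/-!
PF (the abstract area argument).  Proof.  `A' = G '' A`, `Δ' = G '' Δ`, `M' = G '' M` are the sides of the image
(all open: `G '' B = W ∩ Gi ⁻¹' B` for `B ⊆ W`; connected; `A' ⊆ closure Δ'` and `A' ⊆ closure M'` by continuity).
Suppose `A ∩ A' = ∅`.  `A'` is connected and contained in `W \ A = Δ ∪ M`, so `A' ⊆ Δ` or `A' ⊆ M`; similarly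
`A ⊆ Δ'` or `A ⊆ M'`.
Case 1: `A' ⊆ Δ`, `A ⊆ Δ'`.  `M` is connected, disjoint from `A'`, so `M ⊆ Δ'` or `M ⊆ M'`; as `A ⊆ closure M` and
`A ⊆ Δ'` (open, `A` nonempty) `M ∩ Δ' ≠ ∅`, so `M ⊆ Δ'` and `μ M ≤ μ Δ' = μ Δ`, contradiction.
Case 2: `A' ⊆ M`, `A ⊆ M'`.  `Δ` is connected, disjoint from `A'`, meets `M'`, so `Δ ⊆ M'` and `Δ ∩ Δ' = ∅`, contradiction.
Case 3: `A' ⊆ Δ`, `A ⊆ M'`.  `M` is connected, disjoint from `A'`, meets `M'`, so `M ⊆ M'`; hence `Δ' ⊆ Δ` (it misses `A ⊆ M'`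
and `M`), and `Δ ∩ M'` is nonempty open (`A ⊆ closure Δ`), disjoint from `Δ'`:
`μ Δ ≥ μ Δ' + μ (Δ ∩ M') > μ Δ' = μ Δ` (finite), contradiction.
Case 4: `A' ⊆ M`, `A ⊆ Δ'`.  `Δ` is connected, disjoint from `A'`, meets `Δ'`, so `Δ ⊆ Δ'`; `Δ' ∩ M` is nonempty open,
`μ Δ' ≥ μ Δ + μ (Δ' ∩ M) > μ Δ`, contradiction.
-/

namespace DS
open Metric Set Filter Topology MeasureTheory

theorem PF_Y {A C U : Set ℂ} (hne : A.Nonempty) (hU : IsOpen U) (hAU : A ⊆ U) (hAC : A ⊆ closure C) :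
    (C ∩ U).Nonempty := by
  obtain ⟨x, hx⟩ := hne
  obtain ⟨y, hy1, hy2⟩ := _root_.mem_closure_iff.1 (hAC hx) U hU (hAU hx)
  exact ⟨y, hy2, hy1⟩

theorem PF_image {W : Set ℂ} {G Gi : ℂ → ℂ} (hGm : MapsTo G W W) (hGiG : ∀ w ∈ W, Gi (G w) = w)
    (hGGi : ∀ w ∈ W, G (Gi w) = w) {B : Set ℂ} (hB : B ⊆ W) : G '' B = W ∩ Gi ⁻¹' B := by
  ext x
  constructor
  · rintro ⟨z, hz, rfl⟩
    exact ⟨hGm (hB hz), by rw [mem_preimage, hGiG z (hB hz)]; exact hz⟩
  · rintro ⟨hx, hu⟩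
    exact ⟨Gi x, hu, hGGi x hx⟩

theorem PF_sides {W A Δ M : Set ℂ} (hW : IsOpen W) (hS : Sides W A Δ M) (hAW : A ⊆ W) {G Gi : ℂ → ℂ}
    (hG : ContinuousOn G W) (hGm : MapsTo G W W) (hGi : ContinuousOn Gi W) (hGiG : ∀ w ∈ W, Gi (G w) = w)
    (hGim : MapsTo Gi W W) (hGGi : ∀ w ∈ W, G (Gi w) = w) : Sides W (G '' A) (G '' Δ) (G '' M) := by
  have hMW : M ⊆ W := fun z hz => ((by rw [← hS.union]; exact Or.inr hz : z ∈ W \ A)).1
  have hΔW : Δ ⊆ W := fun z hz => ((by rw [← hS.union]; exact Or.inl hz : z ∈ W \ A)).1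
  have hop : ∀ B : Set ℂ, B ⊆ W → IsOpen B → IsOpen (G '' B) := by
    intro B hB hBo
    rw [PF_image hGm hGiG hGGi hB]
    exact hGi.isOpen_inter_preimage hW hBo
  have hcl : ∀ B : Set ℂ, B ⊆ W → A ⊆ closure B → G '' A ⊆ closure (G '' B) := by
    rintro B hB hAB _ ⟨x, hx, rfl⟩
    exact ((hG x (hAW hx)).mono hB).mem_closure_image (hAB hx)
  refine ⟨hop Δ hΔW hS.oΔ, hop M hMW hS.oM, hS.cΔ.image G (hG.mono hΔW), hS.cM.image G (hG.mono hMW), ?_, ?_,
    hcl Δ hΔW hS.clΔ, hcl M hMW hS.clM⟩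
  · rw [Set.disjoint_left]
    rintro _ ⟨x, hx, rfl⟩ ⟨y, hy, e⟩
    have : y = x := by rw [← hGiG y (hMW hy), e, hGiG x (hΔW hx)]
    rw [this] at hy
    exact Set.disjoint_left.1 hS.disj hx hy
  · rw [← Set.image_union, hS.union]
    ext x
    constructor
    · rintro ⟨z, ⟨hz1, hz2⟩, rfl⟩
      refine ⟨hGm hz1, ?_⟩
      rintro ⟨y, hy, e⟩
      have : y = z := by rw [← hGiG y (hAW hy), e, hGiG z hz1]
      rw [this] at hy
      exact hz2 hy
    · rintro ⟨hx1, hx2⟩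
      exact ⟨Gi x, ⟨hGim hx1, fun h => hx2 ⟨Gi x, h, hGGi x hx1⟩⟩, hGGi x hx1⟩

theorem area_abstract {W A Δ M : Set ℂ} (hW : IsOpen W) (hS : Sides W A Δ M) (hA : IsConnected A)
    (hAW : A ⊆ W) {G Gi : ℂ → ℂ} (hG : ContinuousOn G W) (hGm : MapsTo G W W)
    (hGi : ContinuousOn Gi W) (hGim : MapsTo Gi W W) (hGiG : ∀ w ∈ W, Gi (G w) = w)
    (hGGi : ∀ w ∈ W, G (Gi w) = w) {μ : Measure ℂ}
    (hinv : ∀ B ⊆ W, MeasurableSet B → μ (G '' B) = μ B)
    (hpos : ∀ O ⊆ W, IsOpen O → O.Nonempty → 0 < μ O) (h1 : μ Δ < μ M) (h2 : μ Δ ≠ ⊤)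
    (h3 : (Δ ∩ G '' Δ).Nonempty) : (A ∩ G '' A).Nonempty := by
  by_contra hno
  have hdisj : Disjoint A (G '' A) := by
    rw [Set.disjoint_iff_inter_eq_empty, ← Set.not_nonempty_iff_eq_empty]; exact hno
  have hS' := PF_sides hW hS hAW hG hGm hGi hGiG hGim hGGi
  have hMW : M ⊆ W := fun z hz => ((by rw [← hS.union]; exact Or.inr hz : z ∈ W \ A)).1
  have hΔW : Δ ⊆ W := fun z hz => ((by rw [← hS.union]; exact Or.inl hz : z ∈ W \ A)).1
  have hA' : IsConnected (G '' A) := hA.image G (hG.mono hAW)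
  have hΔ'W : G '' Δ ⊆ W := by rintro _ ⟨x, hx, rfl⟩; exact hGm (hΔW hx)
  have hμ' : μ (G '' Δ) = μ Δ := hinv Δ hΔW hS.oΔ.measurableSet
  have c1 : G '' A ⊆ Δ ∨ G '' A ⊆ M := by
    apply hA'.isPreconnected.subset_or_subset hS.oΔ hS.oM hS.disj
    rw [hS.union]
    rintro x hx
    refine ⟨?_, fun h => Set.disjoint_left.1 hdisj h hx⟩
    obtain ⟨y, hy, rfl⟩ := hx
    exact hGm (hAW hy)
  have c2 : A ⊆ G '' Δ ∨ A ⊆ G '' M := by
    apply hA.isPreconnected.subset_or_subset hS'.oΔ hS'.oM hS'.disj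
    rw [hS'.union]
    exact fun x hx => ⟨hAW hx, fun h => Set.disjoint_left.1 hdisj hx h⟩
  have hMcov : G '' A ⊆ Δ → M ⊆ G '' Δ ∪ G '' M := by
    intro h x hx
    rw [hS'.union]
    exact ⟨hMW hx, fun h' => Set.disjoint_left.1 hS.disj (h h') hx⟩
  have hΔcov : G '' A ⊆ M → Δ ⊆ G '' Δ ∪ G '' M := by
    intro h x hx
    rw [hS'.union]
    exact ⟨hΔW hx, fun h' => Set.disjoint_left.1 hS.disj hx (h h')⟩
  rcases c1 with c1 | c1 <;> rcases c2 with c2 | c2
  · -- A' ⊆ Δ, A ⊆ Δ'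
    have hm := PF_Y hA.nonempty hS'.oΔ c2 hS.clM
    have hsub : M ⊆ G '' Δ :=
      hS.cM.isPreconnected.subset_left_of_subset_union hS'.oΔ hS'.oM hS'.disj (hMcov c1) hm
    have := measure_mono (μ := μ) hsub
    rw [hμ'] at this
    exact absurd h1 (not_lt.2 this)
  · -- A' ⊆ Δ, A ⊆ M'
    have hm := PF_Y hA.nonempty hS'.oM c2 hS.clM
    have hsub : M ⊆ G '' M :=
      hS.cM.isPreconnected.subset_right_of_subset_union hS'.oΔ hS'.oM hS'.disj (hMcov c1) hm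
    have hsub2 : G '' Δ ⊆ Δ := by
      intro z hz
      have hzM' : z ∉ G '' M := fun h => Set.disjoint_left.1 hS'.disj hz h
      have : z ∈ Δ ∪ M := by
        rw [hS.union]; exact ⟨hΔ'W hz, fun h => hzM' (c2 h)⟩
      exact this.resolve_right (fun h => hzM' (hsub h))
    have hne := PF_Y hA.nonempty hS'.oM c2 hS.clΔ
    have hop : IsOpen (Δ ∩ G '' M) := hS.oΔ.inter hS'.oM
    have hp := hpos (Δ ∩ G '' M) (fun x hx => hΔW hx.1) hop hne
    have hd : Disjoint (G '' Δ) (Δ ∩ G '' M) :=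
      Set.disjoint_left.2 fun x hx hx' => Set.disjoint_left.1 hS'.disj hx hx'.2
    have hle : μ (G '' Δ) + μ (Δ ∩ G '' M) ≤ μ Δ := by
      rw [← measure_union hd hop.measurableSet]
      exact measure_mono (union_subset hsub2 inter_subset_left)
    rw [hμ'] at hle
    have : μ Δ < μ Δ + μ (Δ ∩ G '' M) := ENNReal.lt_add_right h2 hp.ne'
    exact absurd this (not_lt.2 hle)
  · -- A' ⊆ M, A ⊆ Δ'
    have hm := PF_Y hA.nonempty hS'.oΔ c2 hS.clΔ
    have hsub : Δ ⊆ G '' Δ :=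
      hS.cΔ.isPreconnected.subset_left_of_subset_union hS'.oΔ hS'.oM hS'.disj (hΔcov c1) hm
    have hne := PF_Y hA.nonempty hS'.oΔ c2 hS.clM
    have hop : IsOpen (M ∩ G '' Δ) := hS.oM.inter hS'.oΔ
    have hp := hpos (M ∩ G '' Δ) (fun x hx => hMW hx.1) hop hne
    have hd : Disjoint Δ (M ∩ G '' Δ) :=
      Set.disjoint_left.2 fun x hx hx' => Set.disjoint_left.1 hS.disj hx hx'.1
    have hle : μ Δ + μ (M ∩ G '' Δ) ≤ μ (G '' Δ) := by
      rw [← measure_union hd hop.measurableSet]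
      exact measure_mono (union_subset hsub inter_subset_right)
    rw [hμ'] at hle
    have : μ Δ < μ Δ + μ (M ∩ G '' Δ) := ENNReal.lt_add_right h2 hp.ne'
    exact absurd this (not_lt.2 hle)
  · -- A' ⊆ M, A ⊆ M'
    have hm := PF_Y hA.nonempty hS'.oM c2 hS.clΔ
    have hsub : Δ ⊆ G '' M :=
      hS.cΔ.isPreconnected.subset_right_of_subset_union hS'.oΔ hS'.oM hS'.disj (hΔcov c1) hm
    obtain ⟨x, hx1, hx2⟩ := h3
    exact Set.disjoint_left.1 hS'.disj hx2 (hsub hx1)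

end DS

end S_H36_DS_PF

section S_H36_DS_XC

/-!
XC (principal points exist).  Proof.  By `L1` there are `ρ n < 1/(n+1)` with `dist (φ z) (φ w) < 1/(n+1)` on
`C n = {z ∈ ball 0 1 | dist z ζ = ρ n}`, nonempty (e.g. `(1 - ρ n) ζ`).  Pick `z n ∈ C n`; a subsequence of
`φ (z n)` converges to a point `P`; it is a principal point.  If `P ∉ K` then `u` is continuous at `P`, so
`z n = u (φ (z n)) → u P ∈ ball 0 1` along the subsequence; but `z n → ζ`.
-/

namespace DS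
open Metric Set Filter Topology

theorem exists_principal {X : Type*} [MetricSpace X] [CompactSpace X] {K : Set X}
    (hK : IsClosed K) {φ : ℂ → X} {u : X → ℂ} (H : DiscMap K φ u) {ζ : ℂ} (hζ : ‖ζ‖ = 1) :
    ∃ P ∈ K, Principal φ ζ P := by
  have hpos : ∀ n : ℕ, (0 : ℝ) < 1 / ((n : ℝ) + 1) := fun n => Nat.one_div_pos_of_nat
  choose ρ hρ0 hρ1 hρL using fun n : ℕ => H.L1 ζ hζ (1 / ((n : ℝ) + 1)) (hpos n)
  have hle1 : ∀ n : ℕ, 1 / ((n : ℝ) + 1) ≤ 1 := by
    intro n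
    rw [div_le_one (by positivity)]
    have : (0 : ℝ) ≤ n := Nat.cast_nonneg n
    linarith
  set z : ℕ → ℂ := fun n => ((1 - ρ n : ℝ) : ℂ) * ζ with hz
  have hzb : ∀ n, z n ∈ ball (0 : ℂ) 1 := by
    intro n
    have h1 := hρ1 n
    have h2 := hle1 n
    rw [mem_ball_zero_iff, hz]
    simp only
    rw [norm_mul, hζ, mul_one, Complex.norm_real, Real.norm_eq_abs, abs_of_nonneg (by linarith)]
    linarith [hρ0 n]
  have hzd : ∀ n, dist (z n) ζ = ρ n := by
    intro n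
    have h1 : z n - ζ = ((-ρ n : ℝ) : ℂ) * ζ := by
      rw [hz]
      push_cast
      ring
    rw [dist_eq_norm, h1, norm_mul, hζ, mul_one, Complex.norm_real, Real.norm_eq_abs, abs_neg,
      abs_of_pos (hρ0 n)]
  have hlim0 : Tendsto (fun n : ℕ => 1 / ((n : ℝ) + 1)) atTop (𝓝 0) :=
    tendsto_one_div_add_atTop_nhds_zero_nat
  obtain ⟨P, s, hs, hP⟩ := CompactSpace.tendsto_subseq (fun n => φ (z n))
  refine ⟨P, ?_, ?_⟩
  · by_contra hPK
    have h1 : ContinuousAt u P := H.u_cont.continuousAt (hK.isOpen_compl.mem_nhds hPK)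
    have h2 : Tendsto (fun n => u (φ (z (s n)))) atTop (𝓝 (u P)) := h1.tendsto.comp hP
    have h3 : Tendsto (fun n => z (s n)) atTop (𝓝 (u P)) :=
      h2.congr fun n => H.uφ _ (hzb _)
    have h4 : Tendsto z atTop (𝓝 ζ) := by
      rw [tendsto_iff_dist_tendsto_zero]
      refine squeeze_zero (fun n => dist_nonneg) (fun n => ?_) hlim0
      rw [hzd]
      exact (hρ1 n).le
    have h5 := tendsto_nhds_unique h3 (h4.comp hs.tendsto_atTop)
    have h6 := H.u_maps hPK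
    rw [h5, mem_ball_zero_iff, hζ] at h6
    exact lt_irrefl _ h6
  · intro ε hε
    have hε2 : 0 < ε / 2 := by linarith
    have e1 : ∀ᶠ n in atTop, 1 / (((s n : ℕ) : ℝ) + 1) < ε / 2 :=
      (hlim0.comp hs.tendsto_atTop).eventually (gt_mem_nhds hε2)
    have e2 : ∀ᶠ n in atTop, dist (φ (z (s n))) P < ε / 2 :=
      hP.eventually (ball_mem_nhds P hε2)
    obtain ⟨n, hn1, hn2⟩ := (e1.and e2).exists
    refine ⟨ρ (s n), hρ0 _, ?_, ?_⟩
    · have := hρ1 (s n)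
      linarith
    · intro w hw hwd
      have h1 := hρL (s n) w hw (z (s n)) (hzb _) hwd (hzd _)
      have h2 := dist_triangle (φ w) (φ (z (s n))) P
      linarith

end DS

end S_H36_DS_XC

section S_H36_DS_XD

/-!
XD (passing to a chart).  Proof.  `μ = Measure.comap κ ν`: `κ` is a homeomorphism onto the open set `{P'}ᶜ`
(inverse `χ`), so it is a measurable embedding and `μ B = ν (κ '' B)` for measurable `B`.  `Kᶜ ⊆ {P'}ᶜ`.
`G = χ ∘ g ∘ κ` maps `W = κ ⁻¹' Kᶜ` to itself (`g` is a bijection with `g '' K = K`, and `κ (χ x) = x` for `x ∉ K`).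
`μ_inv`: `κ '' (G '' B) = g '' (κ '' B)`, measurable because `gi` is continuous (a homeomorphism).
`μ_pos`: `κ '' O = {P'}ᶜ ∩ χ ⁻¹' O` is open.  `μ_small`: the sets `φ '' (ball 0 1 ∩ ball ζ ρ)` are open
(`Kᶜ ∩ u ⁻¹' _`), decrease to the empty set for `ρ → 0`, the first one has finite measure (`hfin`); their preimages under `κ` are the sets
`χ ∘ φ '' _`.
`L0`: `κ` is uniformly continuous on the compact `closedBall 0 r₀`; for connected `γ ⊆ W ∩ closedBall 0 r₀` of small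
diameter `κ '' γ ⊆ Kᶜ` is connected of small diameter and `u '' (κ '' γ)` is a connected subset of the disc whose image under `φ`
is `κ '' γ`: apply `H.L0`.
`L1`: from `hPr`, because `χ` is continuous at `P = κ 0 ≠ P'` and `χ P = 0`.
`fixζ`: for `z` in the disc `u (κ (χ (g (κ (χ (φ z)))))) = u (g (φ z))`.
-/

namespace DS
open Metric Set Filter Topology MeasureTheory

theorem fixPE_of {X : Type*} [MetricSpace X] [MeasurableSpace X] [BorelSpace X]
    {K : Set X} (hK : IsClosed K) {φ : ℂ → X} {u : X → ℂ} (H : DiscMap K φ u) {g gi : X → X}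
    (hg : Continuous g) (hgi : Continuous gi) (hggi : ∀ x, g (gi x) = x)
    (hgig : ∀ x, gi (g x) = x) (hgK : g '' K = K) (ν : Measure X)
    (hν : ∀ B ⊆ Kᶜ, MeasurableSet B → ν (g '' B) = ν B)
    (hpos : ∀ O ⊆ Kᶜ, IsOpen O → O.Nonempty → 0 < ν O)
    {P P' : X} {χ : X → ℂ} {κ : ℂ → X} (hχ : PChart K P P' χ κ) (hP : P ∈ K) {ζ : ℂ}
    (hζ : ‖ζ‖ = 1) (hfin : ∃ ρ > 0, ν (φ '' (ball 0 1 ∩ ball ζ ρ)) < ⊤)
    (hfix : Tendsto (fun z => u (g (φ z))) (𝓝[ball 0 1] ζ) (𝓝 ζ))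
    (hPr : Principal φ ζ P) {r₀ : ℝ} (hr₀ : 0 < r₀) :
    ∃ μ : Measure ℂ, FixPE (κ ⁻¹' Kᶜ) (fun z => χ (φ z)) (fun w => u (κ w))
      (fun w => χ (g (κ w))) (fun w => χ (gi (κ w))) μ ζ r₀ := by
  have hoP : IsOpen ({P'}ᶜ : Set X) := isClosed_singleton.isOpen_compl
  have hKc : ∀ x, x ∉ K → x ≠ P' := fun x hx h => hx (h ▸ hχ.hP')
  have hinj : Function.Injective κ := fun a b h => by
    have := congrArg χ h
    rwa [hχ.χκ, hχ.χκ] at this
  have himg : ∀ O : Set ℂ, κ '' O = {P'}ᶜ ∩ χ ⁻¹' O := by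
    intro O
    ext x
    constructor
    · rintro ⟨w, hw, rfl⟩
      exact ⟨hχ.κ_ne w, by simpa [hχ.χκ] using hw⟩
    · rintro ⟨h1, h2⟩
      exact ⟨χ x, h2, hχ.κχ x h1⟩
  have hopen : ∀ O : Set ℂ, IsOpen O → IsOpen (κ '' O) := by
    intro O hO
    rw [himg O]
    exact hχ.χ_cont.isOpen_inter_preimage hoP hO
  have hemb : IsOpenEmbedding κ :=
    IsOpenEmbedding.of_continuous_injective_isOpenMap hχ.κ_cont hinj hopen
  have hme : MeasurableEmbedding κ := hemb.measurableEmbedding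
  have hgc : ∀ x, x ∉ K → g x ∉ K := by
    intro x hx h
    rw [← hgK] at h
    obtain ⟨y, hy, hyx⟩ := h
    have := congrArg gi hyx
    rw [hgig, hgig] at this
    exact hx (this ▸ hy)
  have hgic : ∀ x, x ∉ K → gi x ∉ K := by
    intro x hx h
    apply hx
    rw [← hgK]
    exact ⟨gi x, h, hggi x⟩
  have hκχ : ∀ x, x ∉ K → κ (χ x) = x := fun x hx => hχ.κχ x (hKc x hx)
  have hφm : ∀ z ∈ ball (0:ℂ) 1, φ z ∉ K := fun z hz => H.φ_maps hz
  have hPP : P ≠ P' := by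
    intro h
    exact hχ.κ_ne 0 (hχ.κ0.trans h)
  have hχP : χ P = 0 := by
    rw [← hχ.κ0]
    exact hχ.χκ 0
  refine ⟨Measure.comap κ ν, ?_⟩
  have hcu : ContinuousOn χ Kᶜ := hχ.χ_cont.mono (fun x hx => hKc x hx)
  refine
    { hr₀ := hr₀
      hζ := hζ
      W_open := hK.isOpen_compl.preimage hχ.κ_cont
      zero_notin := ?_
      φ_cont := hcu.comp H.φ_cont H.φ_maps
      φ_maps := ?_
      u_cont := H.u_cont.comp hχ.κ_cont.continuousOn (fun w hw => hw)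
      u_maps := fun w hw => H.u_maps hw
      uφ := ?_
      φu := ?_
      G_cont := ?_
      G_maps := ?_
      Gi_cont := ?_
      Gi_maps := ?_
      GiG := ?_
      GGi := ?_
      fixζ := ?_
      μ_inv := ?_
      μ_pos := ?_
      μ_small := ?_
      L0 := ?_
      L1 := ?_ }
  · intro h
    apply h
    rw [hχ.κ0]
    exact hP
  · intro z hz
    show κ (χ (φ z)) ∉ K
    rw [hκχ _ (hφm z hz)]
    exact hφm z hz
  · intro z hz
    show u (κ (χ (φ z))) = z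
    rw [hκχ _ (hφm z hz)]
    exact H.uφ z hz
  · intro w hw
    show χ (φ (u (κ w))) = w
    rw [H.φu _ hw]
    exact hχ.χκ w
  · exact hcu.comp (hg.comp hχ.κ_cont).continuousOn (fun w hw => hgc _ hw)
  · intro w hw
    show κ (χ (g (κ w))) ∉ K
    rw [hκχ _ (hgc _ hw)]
    exact hgc _ hw
  · exact hcu.comp (hgi.comp hχ.κ_cont).continuousOn (fun w hw => hgic _ hw)
  · intro w hw
    show κ (χ (gi (κ w))) ∉ K
    rw [hκχ _ (hgic _ hw)]
    exact hgic _ hw
  · intro w hw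
    show χ (gi (κ (χ (g (κ w))))) = w
    rw [hκχ _ (hgc _ hw), hgig]
    exact hχ.χκ w
  · intro w hw
    show χ (g (κ (χ (gi (κ w))))) = w
    rw [hκχ _ (hgic _ hw), hggi]
    exact hχ.χκ w
  · refine Tendsto.congr' ?_ hfix
    filter_upwards [self_mem_nhdsWithin] with z hz
    rw [hκχ _ (hφm z hz), hκχ _ (hgc _ (hφm z hz))]
  · intro B hB hBm
    rw [hme.comap_apply, hme.comap_apply]
    have h1 : κ '' ((fun w => χ (g (κ w))) '' B) = g '' (κ '' B) := by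
      rw [image_image, image_image]
      apply image_congr
      intro w hw
      exact hκχ _ (hgc _ (hB hw))
    rw [h1]
    apply hν
    · rintro x ⟨w, hw, rfl⟩
      exact hB hw
    · exact hme.measurableSet_image.2 hBm
  · intro O hO hO1 hO2
    rw [hme.comap_apply]
    apply hpos
    · rintro x ⟨w, hw, rfl⟩
      exact hO hw
    · exact hopen O hO1
    · exact hO2.image κ
  · intro ε hε
    obtain ⟨ρ₀, hρ₀, hfin'⟩ := hfin
    have hS : ∀ S ⊆ ball (0:ℂ) 1, φ '' S = Kᶜ ∩ u ⁻¹' S := by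
      intro S hS
      ext x
      constructor
      · rintro ⟨z, hz, rfl⟩
        refine ⟨hφm z (hS hz), ?_⟩
        show u (φ z) ∈ S
        rw [H.uφ z (hS hz)]
        exact hz
      · rintro ⟨h1, h2⟩
        exact ⟨u x, h2, H.φu x h1⟩
    set s : ℕ → Set X := fun n => φ '' (ball 0 1 ∩ ball ζ (ρ₀ / (n + 1))) with hs
    have hsm : ∀ n, NullMeasurableSet (s n) ν := by
      intro n
      apply MeasurableSet.nullMeasurableSet
      apply IsOpen.measurableSet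
      show IsOpen (φ '' (ball 0 1 ∩ ball ζ (ρ₀ / (n + 1))))
      rw [hS _ inter_subset_left]
      exact H.u_cont.isOpen_inter_preimage hK.isOpen_compl (isOpen_ball.inter isOpen_ball)
    have hanti : Antitone s := by
      intro n m hnm
      apply image_mono
      apply inter_subset_inter_right
      apply ball_subset_ball
      apply div_le_div_of_nonneg_left hρ₀.le (by positivity)
      have : (n:ℝ) ≤ m := by exact_mod_cast hnm
      linarith
    have hf0 : ∃ n, ν (s n) ≠ ⊤ := by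
      refine ⟨0, ?_⟩
      simp only [hs, Nat.cast_zero, zero_add, div_one]
      exact hfin'.ne
    have hlim := tendsto_measure_iInter_atTop hsm hanti hf0
    have hempty : ⋂ n, s n = ∅ := by
      apply eq_empty_of_forall_notMem
      intro x hx
      rw [mem_iInter] at hx
      have hx0 := hx 0
      simp only [hs] at hx0
      obtain ⟨z, hz, rfl⟩ := hx0
      have hd : ∀ n : ℕ, dist z ζ < ρ₀ / (n + 1) := by
        intro n
        obtain ⟨w, hw, hwz⟩ := hx n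
        have : w = z := by
          rw [← H.uφ w hw.1, hwz, H.uφ z hz.1]
        rw [← this]
        exact hw.2
      have h0 : dist z ζ ≤ 0 := by
        have ht : Tendsto (fun n : ℕ => ρ₀ / ((n:ℝ) + 1)) atTop (𝓝 0) := by
          have h := (tendsto_one_div_add_atTop_nhds_zero_nat (𝕜 := ℝ)).const_mul ρ₀
          rw [mul_zero] at h
          refine h.congr (fun n => ?_)
          rw [mul_one_div]
        exact ge_of_tendsto' ht (fun n => (hd n).le)
      have hzζ : z = ζ := dist_le_zero.1 h0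
      have := hz.1
      rw [mem_ball_zero_iff, hzζ, hζ] at this
      exact lt_irrefl _ this
    rw [hempty, measure_empty] at hlim
    have hev := (tendsto_order.1 hlim).2 ε hε
    obtain ⟨n, hn⟩ := hev.exists
    refine ⟨ρ₀ / (n + 1), by positivity, ?_⟩
    rw [hme.comap_apply]
    have h1 : κ '' ((fun z => χ (φ z)) '' (ball 0 1 ∩ ball ζ (ρ₀ / (n + 1)))) =
        φ '' (ball 0 1 ∩ ball ζ (ρ₀ / (n + 1))) := by
      rw [image_image]
      apply image_congr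
      intro z hz
      exact hκχ _ (hφm z hz.1)
    rw [h1]
    exact hn
  · intro ε hε
    obtain ⟨δ₁, hδ₁, hL⟩ := H.L0 ε hε
    have hu := (isCompact_closedBall (0:ℂ) r₀).uniformContinuousOn_of_continuous
      hχ.κ_cont.continuousOn
    rw [Metric.uniformContinuousOn_iff] at hu
    obtain ⟨δ, hδ, hκu⟩ := hu δ₁ hδ₁
    refine ⟨δ, hδ, ?_⟩
    intro γ hγ hpc hdist z hz w hw
    have hγ' : ContinuousOn (fun w => u (κ w)) γ :=
      (H.u_cont.comp hχ.κ_cont.continuousOn (fun w hw => hw)).mono (fun w hw => (hγ hw).1)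
    refine hL ((fun w => u (κ w)) '' γ) ?_ (hpc.image _ hγ') ?_ _ ⟨z, hz, rfl⟩ _ ⟨w, hw, rfl⟩
    · rintro _ ⟨w, hw, rfl⟩
      exact H.u_maps (hγ hw).1
    · rintro _ ⟨a, ha, rfl⟩ _ ⟨b, hb, rfl⟩
      simp only
      rw [H.φu _ (hγ ha).1, H.φu _ (hγ hb).1]
      exact hκu a (hγ ha).2 b (hγ hb).2 (hdist a ha b hb)
  · intro ε hε
    have hcP : ContinuousAt χ P := hχ.χ_cont.continuousAt (hoP.mem_nhds hPP)
    rw [Metric.continuousAt_iff] at hcP
    obtain ⟨δ, hδ, hc⟩ := hcP ε hε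
    obtain ⟨ρ, h1, h2, h3⟩ := hPr (min δ ε) (lt_min hδ hε)
    refine ⟨ρ, h1, lt_of_lt_of_le h2 (min_le_right _ _), ?_⟩
    intro z hz hzρ
    have := hc (lt_of_lt_of_le (h3 z hz hzρ) (min_le_left _ _))
    rw [hχP, dist_zero_right] at this
    exact this

end DS

end S_H36_DS_XD
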