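import Mathlib
import Pool.Agent.H12.KS.K01
import Pool.Agent.H12.KS.K06
import Pool.Agent.H12.KS.K11
import Pool.Agent.H12.KS.K12
import Pool.Agent.H12.KS.K20
import Pool.Agent.H12.KS.K21
import Pool.Agent.H12.KS.K22
import Pool.Agent.H12.KS.K23
import Pool.Agent.H12.KS.K26
import Pool.Agent.H12.KS.K28
import Pool.Agent.H12.KS.K29

/-! Joined modules of the proof of MP_8a27c0_an (one section per module). -/

section S_H36_DG_WA

/-!
WA (the group moves small neighbourhoods of a point outside the limit set).  Suppose not: for `n ≥ 1` there are `c_n ≠ 1`, `x_n` in the closed disc with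
`dist x_n ζ < 1/n`, `dist (act c_n x_n) ζ < 1/n`.  If some value `c` is taken infinitely often: by continuity (`act_cont`) `act c ζ = ζ`, `c ≠ 1`; but the fixed points on the circle of a
nontrivial element are in the limit set (`FC`: the two fixed points are attracting and repelling, `Fuchs.AR` exists; they are limits of `act (c ^ n) 0`, `act (c⁻¹ ^ n) 0`): contradiction.
Otherwise (pass to a subsequence on which each value is taken finitely often; `conv` in TN/FB needs `∀ a, {n | c n = a}.Finite`) `conv` gives `c_∞, d_∞ ∈ F.lim` with `act (c_n) → c_∞` uniformly off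
`d_∞`; `ζ ≠ d_∞`, so by `conv_seq` `act c_n x_n → c_∞ ≠ ζ`: contradiction.
-/

namespace TN
open Metric Set Filter Topology DS

variable {Γ : Type} [Group Γ]

theorem wander (F : Fuchs Γ) {ζ : ℂ} (hζ : ‖ζ‖ = 1) (h : ζ ∉ F.lim) :
    ∃ r > 0, ∀ c, c ≠ 1 → ∀ x ∈ closedBall (0:ℂ) 1, dist x ζ < r → r ≤ dist (F.act c x) ζ := by
  by_contra hcon
  push Not at hcon
  have h1 : ∀ n : ℕ, (0:ℝ) < 1 / ((n:ℝ) + 1) := fun n => Nat.one_div_pos_of_nat
  choose c hc1 x hx hxd hcd using fun n : ℕ => hcon (1 / ((n:ℝ) + 1)) (h1 n)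
  have h2 : Tendsto (fun n : ℕ => 1 / ((n:ℝ) + 1)) atTop (𝓝 0) :=
    tendsto_one_div_add_atTop_nhds_zero_nat
  have hx' : Tendsto x atTop (𝓝 ζ) := by
    rw [tendsto_iff_dist_tendsto_zero]
    exact squeeze_zero (fun n => dist_nonneg) (fun n => (hxd n).le) h2
  have hc' : Tendsto (fun n => F.act (c n) (x n)) atTop (𝓝 ζ) := by
    rw [tendsto_iff_dist_tendsto_zero]
    exact squeeze_zero (fun n => dist_nonneg) (fun n => (hcd n).le) h2
  by_cases hfin : ∀ a, {n | c n = a}.Finite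
  · obtain ⟨φ, hφ, cc, hcc, d, hd, -, -, h3, -⟩ := conv F hfin
    have h4 := conv_seq F (g := fun n => c (φ n)) (c := cc) (d := d) (x := ζ) h3
      (y := fun n => x (φ n)) (fun n => hx _) (hx'.comp hφ.tendsto_atTop)
      (fun he => h (he ▸ hd))
    have h5 := tendsto_nhds_unique h4 (hc'.comp hφ.tendsto_atTop)
    exact h (h5 ▸ hcc)
  · push Not at hfin
    obtain ⟨a, ha⟩ := hfin
    have hfr : ∃ᶠ n in atTop, c n = a := Nat.frequently_atTop_iff_infinite.2 ha
    obtain ⟨φ, hφ, hφa⟩ := extraction_of_frequently_atTop hfr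
    have hane : a ≠ 1 := by
      rw [← hφa 0]
      exact hc1 _
    have hζb : ζ ∈ closedBall (0:ℂ) 1 := by simpa using hζ.le
    have h3 : Tendsto (fun n => x (φ n)) atTop (𝓝[closedBall (0:ℂ) 1] ζ) :=
      tendsto_nhdsWithin_iff.2 ⟨hx'.comp hφ.tendsto_atTop, Eventually.of_forall fun n => hx _⟩
    have h4 : Tendsto (fun n => F.act a (x (φ n))) atTop (𝓝 (F.act a ζ)) :=
      (act_cont F a ζ hζb).tendsto.comp h3
    have h5 : Tendsto (fun n => F.act a (x (φ n))) atTop (𝓝 ζ) := by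
      have h6 := hc'.comp hφ.tendsto_atTop
      refine h6.congr fun n => ?_
      simp only [Function.comp_apply, hφa n]
    have h6 : F.act a ζ = ζ := tendsto_nhds_unique h4 h5
    obtain ⟨p, q, hpq⟩ := exists_AR F hane
    rcases AR.fixed hpq hζ.le h6 with e | e
    · exact h (e ▸ (AR.lim hpq).1)
    · exact h (e ▸ (AR.lim hpq).2)

end TN

end S_H36_DG_WA

section S_H36_DG_WB

/-!
WB (the covering is injective near a prime end outside the limit set).  If `p (ψ z) = p (ψ w)`, `z ≠ w` in `ball 0 1 ∩ ball ζ r`: `A c (ψ z) = ψ w` for some `c` (`Deck.fib`), `c ∈ N` by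
`fil_same` (CV/B1), so `F.act c z = v (A c (ψ z)) = w` (`Act`, `Riem`), `c ≠ 1` (else `w = z`), contradiction to `wander` for `F`.
-/

namespace CV

open Metric Set Filter Topology Function DS TN

section
variable {S : Type} [MetricSpace S] {X : Set ℂ} {Γ : Type} [Group Γ]
  {A : Γ → ℂ → ℂ} {p : ℂ → S} {g : S → S} {G : ℂ → ℂ} {U : Set ℂ} {N : Subgroup Γ}
  {ψ v : ℂ → ℂ} {F : Fuchs N}

theorem inj_near (D : Deck X A p) (M : Dom X A p g G U N) (R : Riem (fil X U) ψ v)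
    (hF : Act A ψ v F) {ζ : ℂ} (hζ : ‖ζ‖ = 1) (h : ζ ∉ F.lim) :
    ∃ r > 0, InjOn (fun z => p (ψ z)) (ball 0 1 ∩ ball ζ r) := by
  obtain ⟨r, hr, hw⟩ := wander F hζ h
  refine ⟨r, hr, ?_⟩
  rintro z ⟨hz1, hz2⟩ w ⟨hw1, hw2⟩ hzw
  have hzW : ψ z ∈ fil X U := R.mψ hz1
  have hwW : ψ w ∈ fil X U := R.mψ hw1
  obtain ⟨c, hc⟩ := (D.fib _ (fil_sub hzW) _ (fil_sub hwW)).1 hzw
  have hcN : c ∈ N := fil_same D M hzW (by rw [hc]; exact hwW)
  have h1 : F.act ⟨c, hcN⟩ z = w := by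
    rw [hF ⟨c, hcN⟩ z hz1]
    show v (A c (ψ z)) = w
    rw [hc, R.vψ w hw1]
  by_contra hne
  have hc1 : (⟨c, hcN⟩ : N) ≠ 1 := by
    intro h2
    have h3 : c = 1 := congrArg Subtype.val h2
    apply hne
    have h4 : ψ z = ψ w := by rw [← hc, h3, D.one _ (fil_sub hzW)]
    rw [← R.vψ z hz1, h4, R.vψ w hw1]
  have h2 := hw ⟨c, hcN⟩ hc1 z (ball_subset_closedBall hz1) (mem_ball.1 hz2)
  rw [h1] at h2
  exact absurd (mem_ball.1 hw2) (not_lt.2 h2)

end

end CV

end S_H36_DG_WB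

section S_H36_DG_MB

/-!
MB (sets on which the covering is injective have bounded measure).  `Γ` is countable: by `Deck.proper` applied to an exhaustion of `X` by compact sets `C_n` (for a point `x ∈ C_0`, every `g` has
`A g x ∈ C_n` for some `n`; finitely many `g` for each `n`).  Let `C ⊆ X` be compact with `∀ x ∈ X, ∃ c, A c x ∈ C` (`Deck.coc`), `m = mX X ρ C < ⊤` (`mX_cpt`).  Let `B ⊆ X` be measurable, `p` injective
on `B`.  With an enumeration `c_n` of `Γ` let `B_n = {x ∈ B | A c_n x ∈ C} \ ⋃_{k < n} B_k`: measurable, disjoint, with union `B`.  The sets `A c_n '' B_n ⊆ C` are measurable of the same measure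
(`mX_A`) and pairwise disjoint: `A c_n x = A c_k y` implies `p x = p y` (`Deck.fibre`), `x = y`, so `n = k`.  Sum.
`Γ` may be finite or trivial as a type; `Countable Γ` is enough (`exists_surjective_nat` or `Encodable`); `disjointed`.
-/

namespace CV

open Metric Set Filter Topology Function DS TN MeasureTheory

section
variable {S : Type} [MetricSpace S] {X : Set ℂ} {Γ : Type} [Group Γ]
  {A : Γ → ℂ → ℂ} {p : ℂ → S} {g gi : S → S} {G Gi : ℂ → ℂ} {θ : Γ ≃* Γ} {ρ : ℂ → ℝ}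

/-- a countable exhaustion of `X` -/
theorem MB_exh (D : Deck X A p) : ∃ C : ℕ → Set ℂ, (∀ n, IsCompact (C n)) ∧ (∀ n, C n ⊆ X) ∧
    Monotone C ∧ ∀ x ∈ X, ∃ n, x ∈ C n := by
  rcases D.hX with ⟨h, -⟩ | ⟨h, -⟩
  · refine ⟨fun n => closedBall 0 n, fun n => isCompact_closedBall _ _, fun n => ?_, ?_, ?_⟩
    · rw [h]; exact subset_univ _
    · intro a b hab
      exact closedBall_subset_closedBall (by exact_mod_cast hab)
    · intro x _
      obtain ⟨n, hn⟩ := exists_nat_ge ‖x‖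
      exact ⟨n, by rw [mem_closedBall_zero_iff]; exact hn⟩
  · refine ⟨fun n => closedBall 0 (1 - 1 / ((n : ℝ) + 1)), fun n => isCompact_closedBall _ _,
      fun n => ?_, ?_, ?_⟩
    · rw [h]
      refine closedBall_subset_ball ?_
      have : 0 < 1 / ((n : ℝ) + 1) := Nat.one_div_pos_of_nat
      linarith
    · intro a b hab
      refine closedBall_subset_closedBall ?_
      have := Nat.one_div_le_one_div (α := ℝ) hab
      linarith
    · intro x hx
      rw [h, mem_ball_zero_iff] at hx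
      obtain ⟨n, hn⟩ := exists_nat_one_div_lt (sub_pos.2 hx)
      refine ⟨n, ?_⟩
      rw [mem_closedBall_zero_iff]
      linarith

theorem Deck.countable (D : Deck X A p) : Countable Γ := by
  obtain ⟨C, hC, hCX, hmono, hcov⟩ := MB_exh D
  obtain ⟨x₀, hx₀⟩ := D.conn.nonempty
  have h1 : (univ : Set Γ) ⊆ ⋃ n, {g | ∃ x ∈ C n, A g x ∈ C n} := by
    intro g _
    obtain ⟨a, ha⟩ := hcov x₀ hx₀
    obtain ⟨b, hb⟩ := hcov _ (D.maps g hx₀)
    rw [mem_iUnion]
    exact ⟨max a b, x₀, hmono (le_max_left a b) ha, hmono (le_max_right a b) hb⟩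
  have h2 : (⋃ n, {g | ∃ x ∈ C n, A g x ∈ C n}).Countable :=
    countable_iUnion fun n => (D.proper (C n) (hCX n) (hC n)).countable
  exact countable_univ_iff.1 (h2.mono h1)

theorem mX_fin [CompactSpace S] (D : Deck X A p) (L : Lift X A p g gi G Gi θ ρ) :
    ∃ m : ENNReal, m < ⊤ ∧ ∀ B ⊆ X, MeasurableSet B → InjOn p B → mX X ρ B ≤ m := by
  obtain ⟨C, hCX, hC, hcov⟩ := D.coc
  refine ⟨mX X ρ C, mX_cpt D L hC hCX, fun B hBX hB hinj => ?_⟩
  have := D.countable
  obtain ⟨e, he⟩ := exists_surjective_nat Γ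
  obtain ⟨E, hE⟩ : ∃ E : ℕ → Set ℂ, E = fun n => {x ∈ B | A (e n) x ∈ C} := ⟨_, rfl⟩
  have hEm : ∀ n, MeasurableSet (E n) := by
    intro n
    have h1 : E n = B \ (X ∩ A (e n) ⁻¹' Cᶜ) := by
      rw [hE]
      ext x
      constructor
      · rintro ⟨h1, h2⟩
        exact ⟨h1, fun h => h.2 h2⟩
      · rintro ⟨h1, h2⟩
        refine ⟨h1, ?_⟩
        by_contra h3
        exact h2 ⟨hBX h1, h3⟩
    rw [h1]
    exact hB.diff ((D.cont (e n)).isOpen_inter_preimage D.opn hC.isClosed.isOpen_compl).measurableSet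
  have hEB : ∀ n, E n ⊆ B := fun n x hx => by
    rw [hE] at hx
    exact hx.1
  have hEC : ∀ n, ∀ x ∈ E n, A (e n) x ∈ C := fun n x hx => by
    rw [hE] at hx
    exact hx.2
  have hdm : ∀ n, MeasurableSet (disjointed E n) := fun n => MeasurableSet.disjointed hEm n
  have hdB : ∀ n, disjointed E n ⊆ B := fun n => (disjointed_subset E n).trans (hEB n)
  have hU : B = ⋃ n, disjointed E n := by
    rw [iUnion_disjointed]
    apply Subset.antisymm
    · intro x hx
      obtain ⟨c, hc⟩ := hcov x (hBX hx)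
      obtain ⟨n, rfl⟩ := he c
      rw [mem_iUnion]
      refine ⟨n, ?_⟩
      rw [hE]
      exact ⟨hx, hc⟩
    · exact iUnion_subset hEB
  have hdisj := disjoint_disjointed E
  have h1 : mX X ρ B = ∑' n, mX X ρ (disjointed E n) := by
    conv_lhs => rw [hU]
    exact measure_iUnion hdisj hdm
  have h2 : ∀ n, mX X ρ (disjointed E n) = mX X ρ (A (e n) '' disjointed E n) := fun n =>
    (mX_A D L (e n) ((hdB n).trans hBX) (hdm n)).2.symm
  have h3 : ∑' n, mX X ρ (A (e n) '' disjointed E n) =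
      mX X ρ (⋃ n, A (e n) '' disjointed E n) := by
    refine (measure_iUnion ?_ fun n => (mX_A D L (e n) ((hdB n).trans hBX) (hdm n)).1).symm
    intro a b hab
    rw [Function.onFun, Set.disjoint_left]
    rintro _ ⟨x, hx, rfl⟩ ⟨y, hy, hxy⟩
    have hpx : p x = p y := by
      rw [← D.fibre (e a) (hBX (hdB a hx)), ← D.fibre (e b) (hBX (hdB b hy)), hxy]
    have hxy' := hinj (hdB a hx) (hdB b hy) hpx
    subst hxy'
    exact Set.disjoint_left.1 (hdisj hab) hx hy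
  rw [h1]
  simp only [h2]
  rw [h3]
  refine measure_mono (iUnion_subset fun n => ?_)
  rintro _ ⟨x, hx, rfl⟩
  exact hEC n x (disjointed_subset E n hx)

end

end CV

end S_H36_DG_MB

section S_H36_DG_AMa

/-!
AMa (the invariant measure in the coordinate of the disc).  Measure on the disc: `μ = Measure.map v ((mX X ρ).restrict (fil X U))`, so `μ B = mX X ρ (ψ '' B)` for measurable `B ⊆ ball 0 1` (`v ⁻¹' B ∩ fil X U = ψ '' B`;
`v` is measurable on the open set `fil X U`: `ContinuousOn.aemeasurable`; `Measure.map_apply_of_aemeasurable`).  With `h z = v (G (ψ z))`: `μ (h '' B) = μ B` for measurable `B ⊆ ball 0 1`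
(`ψ '' (h '' B) = G '' (ψ '' B)`, `mX_G`; `h '' B` is measurable: continuous injective image, or preimage of `B` under the continuous inverse `fun z => v (Gi (ψ z))`, `riem_coord`); `μ O > 0` for nonempty open `O ⊆ ball 0 1`
(`mX_pos`; `ψ '' O` is open: it is `fil X U ∩ v ⁻¹' O`).
-/

namespace CV

open Metric Set Filter Topology Function DS TN MeasureTheory

section
variable {S : Type} [MetricSpace S] [CompactSpace S] {X : Set ℂ} {Γ : Type} [Group Γ]
  {A : Γ → ℂ → ℂ} {p : ℂ → S} {g gi : S → S} {G Gi : ℂ → ℂ} {θ : Γ ≃* Γ} {ρ : ℂ → ℝ}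
  {U : Set ℂ} {N : Subgroup Γ} {ψ v : ℂ → ℂ} {F : Fuchs N}

/-- the measure on the disc -/
theorem disc_measure (D : Deck X A p) (L : Lift X A p g gi G Gi θ ρ)
    (M : Dom X A p g G U N) (R : Riem (fil X U) ψ v) : ∃ μ : Measure ℂ,
      (∀ B ⊆ ball (0:ℂ) 1, MeasurableSet B → μ B = mX X ρ (ψ '' B)) ∧
      (∀ B ⊆ ball (0:ℂ) 1, MeasurableSet B → μ ((fun z => v (G (ψ z))) '' B) = μ B) ∧
      ∀ O ⊆ ball (0:ℂ) 1, IsOpen O → O.Nonempty → 0 < μ O := by
  have hW : IsOpen (fil X U) := fil_open D M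
  have hWX : fil X U ⊆ X := fil_sub
  have hGW : MapsTo G (fil X U) (fil X U) := by
    intro x hx
    rw [← fil_G D L M]
    exact ⟨x, hx, rfl⟩
  obtain ⟨r1, -, r3, -, r5, -, -, -⟩ := riem_coord D L M R
  have hvm : AEMeasurable v ((mX X ρ).restrict (fil X U)) :=
    R.dv.continuousOn.aemeasurable hW.measurableSet
  have hpre : ∀ B ⊆ ball (0:ℂ) 1, v ⁻¹' B ∩ fil X U = ψ '' B := by
    intro B hB
    ext w
    constructor
    · rintro ⟨h1, h2⟩
      exact ⟨v w, h1, R.ψv w h2⟩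
    · rintro ⟨z, hz, rfl⟩
      refine ⟨?_, R.mψ (hB hz)⟩
      show v (ψ z) ∈ B
      rw [R.vψ z (hB hz)]
      exact hz
  have hψinj : InjOn ψ (ball 0 1) := by
    intro x hx y hy h
    rw [← R.vψ x hx, h, R.vψ y hy]
  have h1 : ∀ B ⊆ ball (0:ℂ) 1, MeasurableSet B →
      Measure.map v ((mX X ρ).restrict (fil X U)) B = mX X ρ (ψ '' B) := by
    intro B hB hBm
    rw [Measure.map_apply_of_aemeasurable hvm hBm, Measure.restrict_apply' hW.measurableSet,
      hpre B hB]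
  refine ⟨Measure.map v ((mX X ρ).restrict (fil X U)), h1, ?_, ?_⟩
  · intro B hB hBm
    have hinj : InjOn (fun z => v (G (ψ z))) (ball 0 1) := by
      intro x hx y hy h
      simp only at h
      rw [← r5 x hx, h, r5 y hy]
    have hm1 : MeasurableSet ((fun z => v (G (ψ z))) '' B) :=
      hBm.image_of_continuousOn_injOn (r1.continuousOn.mono hB) (hinj.mono hB)
    have hm2 : MeasurableSet (ψ '' B) :=
      hBm.image_of_continuousOn_injOn (R.dψ.continuousOn.mono hB) (hψinj.mono hB)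
    have hsub : (fun z => v (G (ψ z))) '' B ⊆ ball (0:ℂ) 1 := by
      rintro _ ⟨z, hz, rfl⟩
      exact r3 (hB hz)
    have hsub2 : ψ '' B ⊆ X := by
      rintro _ ⟨z, hz, rfl⟩
      exact hWX (R.mψ (hB hz))
    rw [h1 _ hsub hm1, h1 B hB hBm, ← (mX_G D L hsub2 hm2).2]
    congr 1
    rw [image_image, image_image]
    exact image_congr fun z hz => R.ψv _ (hGW (R.mψ (hB hz)))
  · intro O hO hOo hne
    rw [h1 O hO hOo.measurableSet]
    refine mX_pos D L ?_ ?_ (hne.image _)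
    · rintro _ ⟨z, hz, rfl⟩
      exact hWX (R.mψ (hO hz))
    · rw [← hpre O hO, inter_comm]
      exact R.dv.continuousOn.isOpen_inter_preimage hW hOo

end

end CV

end S_H36_DG_AMa

section S_H36_DG_AMb

/-!
AMb (the two sides of a circular arc in the disc).  `W = ball 0 1`, arc `A = {z | ‖z‖ < 1 ∧ dist z ζ = s}`, `Δ = {z | ‖z‖ < 1 ∧ dist z ζ < s}` is convex (intersection of two balls) and nonempty, `M = {z | ‖z‖ < 1 ∧ s < dist z ζ}` is connected by
`disc_minus_ball` (DS/HA) with `p = ζ`, `r = s < 1 = ‖p‖`.  `Δ ∪ M = W \ A`, disjoint, open.  Closures: let `z ∈ A`; for `t` close to `1` the point `ζ + t (z - ζ)` is in the disc (open) and its distance to `ζ` is `t s`: `t ↑ 1` gives `z ∈ closure Δ`, `t ↓ 1` gives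
`z ∈ closure M`.
-/

namespace CV

open Metric Set Filter Topology Function DS

theorem AMb_tend {ζ z : ℂ} {P : ℝ → Prop} (hz : ‖z‖ < 1) {l : Filter ℝ} (hl : l ≤ 𝓝 1) [l.NeBot]
    (hP : ∀ᶠ t in l, P t) : z ∈ closure {w : ℂ | ‖w‖ < 1 ∧ ∃ t, P t ∧ w = ζ + t * (z - ζ)} := by
  have ht : Tendsto (fun t : ℝ => ζ + (t : ℂ) * (z - ζ)) l (𝓝 z) := by
    have hc : Continuous (fun t : ℝ => ζ + (t : ℂ) * (z - ζ)) := by fun_prop
    have h1 := (hc.tendsto 1).mono_left hl
    have h2 : ζ + ((1:ℝ) : ℂ) * (z - ζ) = z := by push_cast; ring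
    rwa [h2] at h1
  refine mem_closure_of_tendsto ht ?_
  have h3 : ∀ᶠ t : ℝ in l, ‖ζ + (t : ℂ) * (z - ζ)‖ < 1 := ht.norm.eventually_lt_const hz
  filter_upwards [h3, hP] with t h4 h5
  exact ⟨h4, t, h5, rfl⟩

theorem AMb_dist {ζ z : ℂ} {t : ℝ} (ht : 0 ≤ t) : dist (ζ + t * (z - ζ)) ζ = t * dist z ζ := by
  rw [dist_eq_norm, add_sub_cancel_left, norm_mul, Complex.norm_real, Real.norm_of_nonneg ht,
    dist_eq_norm]

theorem arc_sides {ζ : ℂ} (hζ : ‖ζ‖ = 1) {s : ℝ} (hs : 0 < s) (hs1 : s < 1) :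
    Sides (ball 0 1) {z : ℂ | ‖z‖ < 1 ∧ dist z ζ = s} {z : ℂ | ‖z‖ < 1 ∧ dist z ζ < s}
      {z : ℂ | ‖z‖ < 1 ∧ s < dist z ζ} := by
  have hd : Continuous fun z : ℂ => dist z ζ := continuous_id.dist continuous_const
  have eΔ : {z : ℂ | ‖z‖ < 1 ∧ dist z ζ < s} = ball 0 1 ∩ ball ζ s := by
    ext z
    simp [mem_ball]
  have eM : {z : ℂ | ‖z‖ < 1 ∧ s < dist z ζ} = ball 0 1 \ closedBall ζ s := by
    ext z
    simp [mem_ball, mem_closedBall]
  refine ⟨?_, ?_, ?_, ?_, ?_, ?_, ?_, ?_⟩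
  · rw [eΔ]
    exact isOpen_ball.inter isOpen_ball
  · rw [eM]
    exact isOpen_ball.sdiff isClosed_closedBall
  · rw [eΔ]
    refine ⟨⟨(1 - s / 2 : ℝ) * ζ, ?_, ?_⟩, ((convex_ball _ _).inter (convex_ball _ _)).isPreconnected⟩
    · rw [mem_ball_zero_iff, norm_mul, hζ, mul_one, Complex.norm_real,
        Real.norm_of_nonneg (by linarith)]
      linarith
    · rw [mem_ball, dist_eq_norm]
      have : ((1 - s / 2 : ℝ) : ℂ) * ζ - ζ = -((s / 2 : ℝ) * ζ) := by push_cast; ring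
      rw [this, norm_neg, norm_mul, hζ, mul_one, Complex.norm_real,
        Real.norm_of_nonneg (by linarith)]
      linarith
  · exact disc_minus_ball hs.le (by rw [hζ]; exact hs1)
  · rw [disjoint_left]
    intro z h1 h2
    have := h1.2
    have := h2.2
    linarith
  · ext z
    constructor
    · rintro (⟨h1, h2⟩ | ⟨h1, h2⟩)
      · exact ⟨mem_ball_zero_iff.2 h1, fun h => h2.ne h.2⟩
      · exact ⟨mem_ball_zero_iff.2 h1, fun h => h2.ne' h.2⟩
    · rintro ⟨h1, h2⟩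
      have h1' : ‖z‖ < 1 := mem_ball_zero_iff.1 h1
      rcases lt_or_gt_of_ne (fun h => h2 ⟨h1', h⟩ : dist z ζ ≠ s) with h | h
      · exact Or.inl ⟨h1', h⟩
      · exact Or.inr ⟨h1', h⟩
  · rintro z ⟨h1, h2⟩
    have h3 := AMb_tend (ζ := ζ) (P := fun t => 0 < t ∧ t < 1) h1 (l := 𝓝[<] 1) nhdsWithin_le_nhds
      (by
        filter_upwards [self_mem_nhdsWithin, mem_nhdsWithin_of_mem_nhds (Ioi_mem_nhds one_pos)]
          with t ht1 ht2
        exact ⟨ht2, ht1⟩)
    refine closure_mono ?_ h3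
    rintro w ⟨hw, t, ht, rfl⟩
    refine ⟨hw, ?_⟩
    rw [AMb_dist ht.1.le, h2]
    nlinarith [ht.2]
  · rintro z ⟨h1, h2⟩
    have h3 := AMb_tend (ζ := ζ) (P := fun t => 1 < t) h1 (l := 𝓝[>] 1) nhdsWithin_le_nhds
      self_mem_nhdsWithin
    refine closure_mono ?_ h3
    rintro w ⟨hw, t, ht, rfl⟩
    refine ⟨hw, ?_⟩
    rw [AMb_dist (zero_le_one.trans (le_of_lt ht)), h2]
    nlinarith [ht]

end CV

end S_H36_DG_AMb

section S_H36_DG_AM

/-!
AM (small arcs about a fixed prime end meet their images).  Measure on the disc: `μ = Measure.map v ((mX X ρ).restrict (fil X U))`, so `μ B = mX X ρ (ψ '' B)` for measurable `B ⊆ ball 0 1` (`v ⁻¹' B ∩ fil X U = ψ '' B`;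
`v` is measurable on the open set `fil X U`: `ContinuousOn.aemeasurable`; `Measure.map_apply_of_aemeasurable`).  With `h z = v (G (ψ z))`: `μ (h '' B) = μ B` for measurable `B ⊆ ball 0 1`
(`ψ '' (h '' B) = G '' (ψ '' B)`, `mX_G`); `μ O > 0` for nonempty open `O ⊆ ball 0 1` (`mX_pos`; `ψ '' O` is open: it is `fil X U ∩ v ⁻¹' O`).  By `inj_near` and `mX_fin` `μ (ball 0 1 ∩ ball ζ r₀) < ⊤`, so
`μ (ball 0 1 ∩ ball ζ s) → 0` for `s → 0` (decreasing sets with empty intersection, `tendsto_measure_iInter`).  For small `s < 1`: `W = ball 0 1`, arc `A = {z | ‖z‖ < 1 ∧ dist z ζ = s}` (connected, `arc_connected` in DS/HA),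
`Δ = {z ∈ W | dist z ζ < s}`, `M = {z ∈ W | s < dist z ζ}` (connected: `Δ` is convex; `M`: `disc_minus_ball`-like, DS/HA, or a limit/union of such sets: `M = {z | ‖z‖ < 1 ∧ s < dist z ζ}` is star shaped about `0`? no; use
`disc_minus_ball` with centre `ζ`: its hypothesis `r < ‖p‖` is `s < 1`), `Sides W A Δ M` (closures: a point of the arc is a limit of points of the disc on the segment towards `ζ` and away from it).
`μ Δ < μ M` for small `s` (`M ⊇ ball 0 (1/2)` for `s < 1/2`).  `(Δ ∩ h '' Δ).Nonempty`: by continuity of `e.H` at `ζ`, `e.H ζ = ζ`, points of the disc close to `ζ` have images in `Δ`.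
`area_abstract` (DS/PF) with `h = fun z => v (G (ψ z))`, `hi = fun z => v (Gi (ψ z))` (`riem_coord`) gives `x, h x ∈ A`.
-/

namespace CV

open Metric Set Filter Topology Function DS TN MeasureTheory

section
variable {S : Type} [MetricSpace S] [CompactSpace S] {X : Set ℂ} {Γ : Type} [Group Γ]
  {A : Γ → ℂ → ℂ} {p : ℂ → S} {g gi : S → S} {G Gi : ℂ → ℂ} {θ : Γ ≃* Γ} {ρ : ℂ → ℝ}
  {U : Set ℂ} {N : Subgroup Γ} {ψ v : ℂ → ℂ} {F : Fuchs N}

theorem AM_fin (D : Deck X A p) (L : Lift X A p g gi G Gi θ ρ)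
    (M : Dom X A p g G U N) (R : Riem (fil X U) ψ v) (hF : Act A ψ v F) {ζ : ℂ} (hζ : ‖ζ‖ = 1)
    (h : ζ ∉ F.lim) {μ : Measure ℂ}
    (hμ : ∀ B ⊆ ball (0:ℂ) 1, MeasurableSet B → μ B = mX X ρ (ψ '' B)) :
    ∃ r > 0, μ (ball 0 1 ∩ ball ζ r) < ⊤ := by
  obtain ⟨r₀, hr₀, hinj⟩ := inj_near D M R hF hζ h
  obtain ⟨m, hm, hmB⟩ := mX_fin D L
  refine ⟨r₀, hr₀, ?_⟩
  set Q : Set ℂ := ball 0 1 ∩ ball ζ r₀ with hQ
  have hQo : IsOpen Q := isOpen_ball.inter isOpen_ball
  have hQs : Q ⊆ ball (0:ℂ) 1 := inter_subset_left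
  have himg : ψ '' Q = fil X U ∩ v ⁻¹' Q := by
    ext x
    constructor
    · rintro ⟨z, hz, rfl⟩
      refine ⟨R.mψ (hQs hz), ?_⟩
      rw [mem_preimage, R.vψ z (hQs hz)]
      exact hz
    · rintro ⟨h1, h2⟩
      exact ⟨v x, h2, R.ψv x h1⟩
  have hop : IsOpen (ψ '' Q) := by
    rw [himg]
    exact R.dv.continuousOn.isOpen_inter_preimage (fil_open D M) hQo
  have hsub : ψ '' Q ⊆ X := by
    rintro _ ⟨z, hz, rfl⟩
    exact fil_sub (R.mψ (hQs hz))
  have hpi : InjOn p (ψ '' Q) := by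
    rintro _ ⟨z, hz, rfl⟩ _ ⟨w, hw, rfl⟩ he
    rw [hinj hz hw he]
  rw [hμ Q hQs hQo.measurableSet]
  exact (hmB _ hsub hop.measurableSet hpi).trans_lt hm

theorem AM_small {μ : Measure ℂ} {ζ : ℂ} (hζ : ‖ζ‖ = 1) {r : ℝ} (hr : 0 < r)
    (hfin : μ (ball 0 1 ∩ ball ζ r) < ⊤) {a : ENNReal} (ha : 0 < a) :
    ∃ s > 0, s ≤ r ∧ μ (ball 0 1 ∩ ball ζ s) < a := by
  set T : ℕ → Set ℂ := fun n => ball 0 1 ∩ ball ζ (r / (n + 1)) with hT
  have hanti : Antitone T := by
    intro m n hmn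
    refine inter_subset_inter_right _ (ball_subset_ball ?_)
    have h1 : (m : ℝ) ≤ n := by exact_mod_cast hmn
    gcongr
  have h1 : Tendsto (μ ∘ T) atTop (𝓝 (μ (⋂ n, T n))) := by
    refine tendsto_measure_iInter_atTop
      (fun n => (isOpen_ball.inter isOpen_ball).measurableSet.nullMeasurableSet) hanti ⟨0, ?_⟩
    have : T 0 = ball 0 1 ∩ ball ζ r := by simp [hT]
    rw [this]
    exact hfin.ne
  have h2 : (⋂ n, T n) = ∅ := by
    rw [Set.eq_empty_iff_forall_notMem]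
    intro z hz
    rw [mem_iInter] at hz
    have hz1 : ‖z‖ < 1 := by simpa using (hz 0).1
    have hd : 0 < dist z ζ := by
      rw [dist_pos]
      rintro rfl
      linarith
    obtain ⟨n, hn⟩ := exists_nat_gt (r / dist z ζ)
    have h3 : dist z ζ < r / (n + 1) := (hz n).2
    rw [lt_div_iff₀ (by positivity)] at h3
    rw [div_lt_iff₀ hd] at hn
    nlinarith
  rw [h2, measure_empty] at h1
  obtain ⟨n, hn⟩ := (h1.eventually (gt_mem_nhds ha)).exists
  refine ⟨r / (n + 1), by positivity, ?_, hn⟩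
  exact div_le_self hr.le (by linarith [(Nat.cast_nonneg n : (0:ℝ) ≤ n)])

theorem arc_meet (D : Deck X A p) (L : Lift X A p g gi G Gi θ ρ)
    (M : Dom X A p g G U N) (R : Riem (fil X U) ψ v) (hF : Act A ψ v F) {e : Elt N}
    (he : Norm F e) (heH : ∀ z ∈ ball (0:ℂ) 1, e.H z = v (G (ψ z))) {ζ : ℂ} (hζ : ‖ζ‖ = 1)
    (h : ζ ∉ F.lim) (hf : e.H ζ = ζ) : ∃ r₁ > 0, ∀ s, 0 < s → s < r₁ →
      ∃ z ∈ ball (0:ℂ) 1, dist z ζ = s ∧ dist (e.H z) ζ = s := by
  obtain ⟨μ, hμ1, hμ2, hμ3⟩ := disc_measure D L M R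
  obtain ⟨hc1, hc2, hm1, hm2, hli, hri, -, -⟩ := riem_coord D L M R
  obtain ⟨r, hr, hfin⟩ := AM_fin D L M R hF hζ h hμ1
  have hpos : 0 < μ (ball (0:ℂ) (1/2)) :=
    hμ3 _ (ball_subset_ball (by norm_num)) isOpen_ball ⟨0, by simp⟩
  obtain ⟨s₁, hs₁, -, hs1⟩ := AM_small hζ hr hfin hpos
  refine ⟨min s₁ (1/2), lt_min hs₁ (by norm_num), fun s hs hsr => ?_⟩
  have hsa : s < s₁ := hsr.trans_le (min_le_left _ _)
  have hsb : s < 1/2 := hsr.trans_le (min_le_right _ _)
  have hΔ : μ {z : ℂ | ‖z‖ < 1 ∧ dist z ζ < s} < μ (ball (0:ℂ) (1/2)) := by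
    refine lt_of_le_of_lt (measure_mono ?_) hs1
    rintro z ⟨hz1, hz2⟩
    exact ⟨by simpa using hz1, hz2.trans hsa⟩
  have hMs : μ (ball (0:ℂ) (1/2)) ≤ μ {z : ℂ | ‖z‖ < 1 ∧ s < dist z ζ} := by
    refine measure_mono ?_
    intro z hz
    have hz' : ‖z‖ < 1/2 := by simpa using hz
    refine ⟨by linarith, ?_⟩
    rw [dist_eq_norm]
    have h1 := norm_sub_norm_le ζ z
    rw [norm_sub_rev] at h1
    linarith
  have hne : ({z : ℂ | ‖z‖ < 1 ∧ dist z ζ < s} ∩
      (fun z => v (G (ψ z))) '' {z : ℂ | ‖z‖ < 1 ∧ dist z ζ < s}).Nonempty := by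
    have hζc : ζ ∈ closedBall (0:ℂ) 1 := by simpa using hζ.le
    obtain ⟨δ, hδ, hcont⟩ := Metric.continuousOn_iff.1 he.cont ζ hζc s hs
    set t : ℝ := min (min δ s) 1 / 2 with ht
    have h0 : 0 < min (min δ s) 1 := lt_min (lt_min hδ hs) one_pos
    have ht0 : 0 < t := half_pos h0
    have htm : t < min (min δ s) 1 := half_lt_self h0
    have ht1 : t < 1 := htm.trans_le (min_le_right _ _)
    have htδ : t < δ := htm.trans_le ((min_le_left _ _).trans (min_le_left _ _))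
    have hts : t < s := htm.trans_le ((min_le_left _ _).trans (min_le_right _ _))
    have hzn : ‖((1 - t : ℝ) : ℂ) * ζ‖ < 1 := by
      rw [norm_mul, hζ, mul_one, Complex.norm_real, Real.norm_eq_abs, abs_of_pos (by linarith)]
      linarith
    have hzd : dist (((1 - t : ℝ) : ℂ) * ζ) ζ = t := by
      have e1 : ((1 - t : ℝ) : ℂ) * ζ - ζ = ((-t : ℝ) : ℂ) * ζ := by push_cast; ring
      rw [dist_eq_norm, e1, norm_mul, hζ, mul_one, Complex.norm_real, Real.norm_eq_abs, abs_neg,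
        abs_of_pos ht0]
    have hzb : ((1 - t : ℝ) : ℂ) * ζ ∈ ball (0:ℂ) 1 := by
      rw [mem_ball_zero_iff]; exact hzn
    have h1 := hcont _ (ball_subset_closedBall hzb) (by rw [hzd]; exact htδ)
    rw [hf] at h1
    refine ⟨e.H (((1 - t : ℝ) : ℂ) * ζ), ⟨?_, h1⟩, _, ⟨hzn, ?_⟩, (heH _ hzb).symm⟩
    · exact mem_ball_zero_iff.1 (he.mapB hzb)
    · rw [hzd]; exact hts
  obtain ⟨z, hz1, w, hw, hwz⟩ := area_abstract isOpen_ball (arc_sides hζ hs (by linarith))
    (arc_connected hζ hs (by linarith)) (fun z hz => by simpa using hz.1) hc1.continuousOn hm1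
    hc2.continuousOn hm2 hli hri hμ2 hμ3 (hΔ.trans_le hMs) hΔ.ne_top hne
  have hwb : w ∈ ball (0:ℂ) 1 := by simpa using hw.1
  refine ⟨w, hwb, hw.2, ?_⟩
  rw [heH w hwb]
  have h2 : v (G (ψ w)) = z := hwz
  rw [h2]
  exact hz1.2

end

end CV

end S_H36_DG_AM

section S_H36_DG_FMa

/-!
FMa (a `DiscMap` composed with a homeomorphism of a compact metric space is a `DiscMap`).  `T` and `Ti` are uniformly continuous (`CompactSpace.uniformContinuous_of_continuous`).  `φ_maps`, `u_cont`, ...: `(T '' K)ᶜ = Ti ⁻¹' Kᶜ`.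
L0: for `ε` let `δ` be from `H.L0`; `δ'` such that `dist x y < δ'` implies `dist (Ti x) (Ti y) < δ`.  L1: for `ε` let `ε' ≤ ε` be such that `dist x y < ε'` implies `dist (T x) (T y) < ε`; apply `H.L1` with `ε'`.
-/

namespace CV

open Metric Set Filter Topology Function DS

theorem discMap_homeo {X : Type*} [MetricSpace X] [CompactSpace X] {K : Set X} {φ : ℂ → X}
    {u : X → ℂ} (H : DiscMap K φ u) {T Ti : X → X} (hT : Continuous T) (hTi : Continuous Ti)
    (h1 : ∀ x, Ti (T x) = x) (h2 : ∀ x, T (Ti x) = x) :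
    DiscMap (T '' K) (fun z => T (φ z)) (fun x => u (Ti x)) := by
  have hTu := CompactSpace.uniformContinuous_of_continuous hT
  have hTiu := CompactSpace.uniformContinuous_of_continuous hTi
  have hK : ∀ x, x ∈ (T '' K)ᶜ ↔ Ti x ∈ Kᶜ := by
    intro x
    simp only [mem_compl_iff, mem_image, not_iff_not]
    constructor
    · rintro ⟨y, hy, rfl⟩; rwa [h1]
    · intro h; exact ⟨Ti x, h, h2 x⟩
  refine ⟨hT.comp_continuousOn H.φ_cont, ?_, ?_, ?_, ?_, ?_, ?_, ?_⟩
  · intro z hz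
    rw [hK]
    simp only [h1]
    exact H.φ_maps hz
  · exact H.u_cont.comp hTi.continuousOn fun x hx => (hK x).1 hx
  · intro x hx
    exact H.u_maps ((hK x).1 hx)
  · intro z hz
    simp only [h1]
    exact H.uφ z hz
  · intro x hx
    rw [H.φu _ ((hK x).1 hx), h2]
  · intro ε hε
    obtain ⟨δ, hδ, hL⟩ := H.L0 ε hε
    obtain ⟨δ', hδ', hu⟩ := Metric.uniformContinuous_iff.1 hTiu δ hδ
    refine ⟨δ', hδ', fun γ hγ hγc hd => hL γ hγ hγc fun z hz w hw => ?_⟩
    have := hu (hd z hz w hw)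
    simpa only [h1] using this
  · intro ζ hζ ε hε
    obtain ⟨δ, hδ, hu⟩ := Metric.uniformContinuous_iff.1 hTu ε hε
    obtain ⟨ρ, hρ, hρ', hL⟩ := H.L1 ζ hζ (min ε δ) (lt_min hε hδ)
    refine ⟨ρ, hρ, hρ'.trans_le (min_le_left _ _), fun z hz w hw h3 h4 => ?_⟩
    exact hu ((hL z hz w hw h3 h4).trans_le (min_le_right _ _))

end CV

end S_H36_DG_FMa

section S_H36_DG_FM

/-!
FM (the Riemann map of the filled set satisfies `DiscMap` on the sphere).  `W = fil X U ≠ univ`: otherwise `v` is a bounded entire function, constant by Liouville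
(`Differentiable.apply_eq_apply_of_bounded`), contradiction to `v (ψ z) = z`.
Put `w₀ = ψ 0`, `K' = {w | w = 0 ∨ w₀ + w⁻¹ ∉ W}` (`fil_compl_conn`).  Then `extDom K' = {w | w₀ + w ∈ W}` (for `w ≠ 0`: `w⁻¹ ∉ K'` iff `w₀ + w ∈ W`; for `w = 0` both hold), and
`ExtMap K' (fun z => ψ z - w₀) (fun w => v (w₀ + w))`.  By `discMap_ext` (DS/XB) with `k₀ = 0`: `DiscMap (q '' K') φ' u'`, `φ' z = if z = 0 then O else q ((ψ z - w₀)⁻¹)`.
The map `T : S2 → S2`, `T O = q w₀`, `T (q 0) = O`, `T (q w) = q (w₀ + w⁻¹)` (`w ≠ 0`) is a homeomorphism of the sphere (`q_lim`, `p_lim`), `T (φ' z) = q (ψ z)` for all `z` in the disc,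
`u' (T⁻¹ x) = v (pp x)` for `x ∈ q '' W`, and `T '' (q '' K') = (q '' W)ᶜ`.
General lemma (`discMap_homeo`): a `DiscMap` composed with a homeomorphism of a compact metric space is a `DiscMap` (L0, L1: uniform continuity of `T` and `T⁻¹`).
-/

namespace CV

open Metric Set Filter Topology Function DS TN

theorem FM_congr {X : Type*} [MetricSpace X] {K : Set X} {φ φ₂ : ℂ → X} {u u₂ : X → ℂ}
    (H : DiscMap K φ u) (h1 : ∀ z ∈ ball (0:ℂ) 1, φ₂ z = φ z) (h2 : ∀ x ∈ Kᶜ, u₂ x = u x) :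
    DiscMap K φ₂ u₂ where
  φ_cont := H.φ_cont.congr h1
  φ_maps := fun z hz => by
    rw [h1 z hz]
    exact H.φ_maps hz
  u_cont := H.u_cont.congr h2
  u_maps := fun x hx => by
    rw [h2 x hx]
    exact H.u_maps hx
  uφ := fun z hz => by
    rw [h1 z hz, h2 _ (H.φ_maps hz)]
    exact H.uφ z hz
  φu := fun x hx => by
    rw [h2 x hx, h1 _ (H.u_maps hx)]
    exact H.φu x hx
  L0 := fun ε hε => by
    obtain ⟨δ, hδ, h⟩ := H.L0 ε hε
    refine ⟨δ, hδ, fun γ hγ hc hd => h γ hγ hc fun z hz w hw => ?_⟩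
    rw [← h1 z (hγ hz), ← h1 w (hγ hw)]
    exact hd z hz w hw
  L1 := fun ζ hζ ε hε => by
    obtain ⟨ρ, h0, hρ, h⟩ := H.L1 ζ hζ ε hε
    refine ⟨ρ, h0, hρ, fun z hz w hw hzd hwd => ?_⟩
    rw [h1 z hz, h1 w hw]
    exact h z hz w hw hzd hwd

/-- the inversion of the sphere -/
theorem FM_T {O : S2} {pp : S2 → ℂ} {q : ℂ → S2} (hS : SC O pp q) (w₀ : ℂ) :
    ∃ T Ti : S2 → S2, Continuous T ∧ Continuous Ti ∧ (∀ x, Ti (T x) = x) ∧ (∀ x, T (Ti x) = x) ∧
      T O = q w₀ ∧ T (q 0) = O ∧ (∀ w, w ≠ 0 → T (q w) = q (w₀ + w⁻¹)) := by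
  classical
  have hqc : Continuous q := hS.q_smooth.continuous
  have hpc : ∀ x, x ≠ O → ContinuousAt pp x := fun x hx =>
    hS.p_smooth.continuousOn.continuousAt (isOpen_compl_singleton.mem_nhds hx)
  obtain ⟨T, hT⟩ : ∃ T : S2 → S2, T = fun x => if x = O then q w₀ else
    if pp x = 0 then O else q (w₀ + (pp x)⁻¹) := ⟨_, rfl⟩
  obtain ⟨Ti, hTi⟩ : ∃ Ti : S2 → S2, Ti = fun x => if x = O then q 0 else
    if pp x = w₀ then O else q ((pp x - w₀)⁻¹) := ⟨_, rfl⟩
  have T1 : T O = q w₀ := by rw [hT]; exact if_pos rfl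
  have T2 : T (q 0) = O := by
    rw [hT]
    show (if q 0 = O then q w₀ else if pp (q 0) = 0 then O else q (w₀ + (pp (q 0))⁻¹)) = O
    rw [if_neg (hS.q_ne 0), if_pos (hS.pq 0)]
  have T3 : ∀ w, w ≠ 0 → T (q w) = q (w₀ + w⁻¹) := by
    intro w hw
    rw [hT]
    show (if q w = O then q w₀ else if pp (q w) = 0 then O else q (w₀ + (pp (q w))⁻¹)) = _
    rw [if_neg (hS.q_ne w), hS.pq, if_neg hw]
  have I1 : Ti O = q 0 := by rw [hTi]; exact if_pos rfl
  have I2 : Ti (q w₀) = O := by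
    rw [hTi]
    show (if q w₀ = O then q 0 else if pp (q w₀) = w₀ then O else q ((pp (q w₀) - w₀)⁻¹)) = O
    rw [if_neg (hS.q_ne w₀), if_pos (hS.pq w₀)]
  have I3 : ∀ w, w ≠ w₀ → Ti (q w) = q ((w - w₀)⁻¹) := by
    intro w hw
    rw [hTi]
    show (if q w = O then q 0 else if pp (q w) = w₀ then O else q ((pp (q w) - w₀)⁻¹)) = _
    rw [if_neg (hS.q_ne w), hS.pq, if_neg hw]
  have hcase : ∀ x : S2, x = O ∨ ∃ w, x = q w := by
    intro x
    by_cases hx : x = O
    · exact Or.inl hx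
    · exact Or.inr ⟨pp x, (hS.qp x hx).symm⟩
  have hIT : ∀ x, Ti (T x) = x := by
    intro x
    rcases hcase x with rfl | ⟨w, rfl⟩
    · rw [T1, I2]
    · by_cases hw : w = 0
      · rw [hw, T2, I1]
      · rw [T3 w hw, I3 _ (by
          intro h
          exact inv_ne_zero hw (add_eq_left.1 h)), add_sub_cancel_left, inv_inv]
  have hTI : ∀ x, T (Ti x) = x := by
    intro x
    rcases hcase x with rfl | ⟨w, rfl⟩
    · rw [I1, T2]
    · by_cases hw : w = w₀
      · rw [hw, I2, T1]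
      · rw [I3 w hw, T3 _ (inv_ne_zero (sub_ne_zero.2 hw)), inv_inv, add_sub_cancel]
  have hinv : ∀ y : S2, y ≠ O → pp y ≠ 0 → q (w₀ + (pp y)⁻¹) = T y := by
    intro y hy hy0
    conv_rhs => rw [← hS.qp y hy]
    rw [T3 _ hy0]
  have hTc : Continuous T := by
    rw [continuous_iff_continuousAt]
    intro x
    by_cases hx : x = O
    · subst hx
      rw [continuousAt_iff_punctured_nhds, T1]
      have h1 := hS.p_lim
      rw [← Metric.cobounded_eq_cocompact] at h1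
      have h3 : Tendsto (fun y => (pp y)⁻¹) (𝓝[≠] x) (𝓝 0) := tendsto_inv₀_cobounded.comp h1
      have h4 : Tendsto (fun y => w₀ + (pp y)⁻¹) (𝓝[≠] x) (𝓝 w₀) := by
        have h5 := h3.const_add w₀
        rwa [add_zero] at h5
      have h6 : Tendsto (fun y => q (w₀ + (pp y)⁻¹)) (𝓝[≠] x) (𝓝 (q w₀)) :=
        (hqc.tendsto w₀).comp h4
      refine h6.congr' ?_
      have h7 : ∀ᶠ y in 𝓝[≠] x, pp y ≠ 0 := h1.eventually (Bornology.eventually_ne_cobounded 0)
      filter_upwards [self_mem_nhdsWithin, h7] with y hy hy0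
      exact hinv y hy hy0
    · by_cases hx0 : pp x = 0
      · rw [continuousAt_iff_punctured_nhds]
        have hTx : T x = O := by
          rw [← hS.qp x hx, hx0, T2]
        rw [hTx]
        have h1 : Tendsto pp (𝓝[≠] x) (𝓝[≠] 0) := by
          rw [tendsto_nhdsWithin_iff]
          constructor
          · have h2 := (hpc x hx).tendsto
            rw [hx0] at h2
            exact h2.mono_left nhdsWithin_le_nhds
          · have h3 : ∀ᶠ y in 𝓝[≠] x, y ≠ O :=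
              mem_nhdsWithin_of_mem_nhds (isOpen_ne.mem_nhds hx)
            filter_upwards [h3, self_mem_nhdsWithin] with y hy hyx
            intro h4
            apply hyx
            have h5 : pp y = 0 := h4
            show y = x
            rw [← hS.qp y hy, h5, ← hx0, hS.qp x hx]
        have h2 : Tendsto (fun y => (pp y)⁻¹) (𝓝[≠] x) (Bornology.cobounded ℂ) :=
          tendsto_inv₀_nhdsNE_zero.comp h1
        have h3 : Tendsto (fun y => w₀ + (pp y)⁻¹) (𝓝[≠] x) (Bornology.cobounded ℂ) :=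
          (tendsto_const_add_cobounded w₀).comp h2
        rw [Metric.cobounded_eq_cocompact] at h3
        refine (hS.q_lim.comp h3).congr' ?_
        have h4 : ∀ᶠ y in 𝓝[≠] x, y ≠ O :=
          mem_nhdsWithin_of_mem_nhds (isOpen_ne.mem_nhds hx)
        have h5 := h1.eventually (self_mem_nhdsWithin (a := (0:ℂ)) (s := {0}ᶜ))
        filter_upwards [h4, h5] with y hy hy0
        exact hinv y hy hy0
      · have h1 : ContinuousAt (fun y => q (w₀ + (pp y)⁻¹)) x :=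
          hqc.continuousAt.comp (continuousAt_const.add ((hpc x hx).inv₀ hx0))
        refine h1.congr ?_
        have h2 : ∀ᶠ y in 𝓝 x, y ≠ O := isOpen_ne.mem_nhds hx
        have h3 : ∀ᶠ y in 𝓝 x, pp y ≠ 0 := (hpc x hx).eventually_ne hx0
        filter_upwards [h2, h3] with y hy hy0
        exact hinv y hy hy0
  have hTic : Continuous Ti := by
    let e : S2 ≃ S2 := ⟨T, Ti, hIT, hTI⟩
    exact (hTc.homeoOfEquivCompactToT2 (f := e)).symm.continuous
  exact ⟨T, Ti, hTc, hTic, hIT, hTI, T1, T2, T3⟩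

section
variable {S : Type} [MetricSpace S] {X : Set ℂ} {Γ : Type} [Group Γ]
  {A : Γ → ℂ → ℂ} {p : ℂ → S} {g : S → S} {G : ℂ → ℂ} {U : Set ℂ} {N : Subgroup Γ}
  {ψ v : ℂ → ℂ}

theorem riem_ne_univ {W : Set ℂ} (R : Riem W ψ v) : W ≠ univ := by
  intro hW
  rw [hW] at R
  have hd : Differentiable ℂ v := fun x => (R.dv x (mem_univ x)).differentiableAt univ_mem
  have hb : Bornology.IsBounded (range v) := by
    refine (isBounded_ball (x := (0:ℂ)) (r := 1)).subset ?_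
    rintro _ ⟨x, rfl⟩
    exact R.mv (mem_univ x)
  have h1 := hd.apply_eq_apply_of_bounded hb (ψ 0) (ψ (1 / 2))
  rw [R.vψ 0 (by simp), R.vψ (1 / 2) (by rw [mem_ball_zero_iff]; norm_num)] at h1
  norm_num at h1

theorem fil_discMap (D : Deck X A p) (M : Dom X A p g G U N) (R : Riem (fil X U) ψ v)
    {O : S2} {pp : S2 → ℂ} {q : ℂ → S2} (hS : SC O pp q) :
    DiscMap (q '' fil X U)ᶜ (fun z => q (ψ z)) (fun x => v (pp x)) := by
  have hW := riem_ne_univ R
  obtain ⟨w₀, hw₀⟩ : ∃ w₀, w₀ = ψ 0 := ⟨_, rfl⟩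
  have h0b : (0:ℂ) ∈ ball (0:ℂ) 1 := mem_ball_self one_pos
  have hw : w₀ ∈ fil X U := by
    rw [hw₀]
    exact R.mψ h0b
  obtain ⟨hKc, hKconn, hKn⟩ := fil_compl_conn D M hw hW
  obtain ⟨K, hK⟩ : ∃ K : Set ℂ, K = {w : ℂ | w = 0 ∨ w₀ + w⁻¹ ∉ fil X U} := ⟨_, rfl⟩
  rw [← hK] at hKc hKconn hKn
  have hKmem : ∀ w, w ∈ K ↔ w = 0 ∨ w₀ + w⁻¹ ∉ fil X U := fun w => by rw [hK]; exact Iff.rfl
  have h0K : (0:ℂ) ∈ K := (hKmem 0).2 (Or.inl rfl)
  have hext : ∀ w, w ∈ extDom K ↔ w₀ + w ∈ fil X U := by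
    intro w
    show (w = 0 ∨ w⁻¹ ∉ K) ↔ _
    by_cases h : w = 0
    · rw [h, add_zero]
      exact ⟨fun _ => hw, fun _ => Or.inl rfl⟩
    · rw [hKmem, inv_inv]
      constructor
      · rintro (h1 | h1)
        · exact absurd h1 h
        · by_contra h2
          exact h1 (Or.inr h2)
      · intro h1
        refine Or.inr ?_
        rintro (h2 | h2)
        · exact inv_ne_zero h h2
        · exact h2 h1
  have hE : ExtMap K (fun z => ψ z - w₀) (fun w => v (w₀ + w)) := by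
    refine ⟨R.dψ.sub_const w₀, ?_, fun z hz => ?_, fun w hw' => ?_, fun z hz => ?_, fun w hw' => ?_, ?_⟩
    · refine R.dv.comp (differentiable_id.const_add w₀).differentiableOn fun w hw' => ?_
      exact (hext w).1 hw'
    · rw [hext, add_sub_cancel]
      exact R.mψ hz
    · exact R.mv ((hext w).1 hw')
    · show v (w₀ + (ψ z - w₀)) = z
      rw [add_sub_cancel]
      exact R.vψ z hz
    · show ψ (v (w₀ + w)) - w₀ = w
      rw [R.ψv _ ((hext w).1 hw'), add_sub_cancel_left]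
    · show ψ 0 - w₀ = 0
      rw [hw₀, sub_self]
  have hD := discMap_ext hS hKc hKconn h0K hKn hE 0
  obtain ⟨T, Ti, hTc, hTic, hIT, hTI, T1, T2, T3⟩ := FM_T hS w₀
  have hD2 := discMap_homeo hD hTc hTic hIT hTI
  have hqinj : ∀ a b, q a = q b → a = b := fun a b h => by
    rw [← hS.pq a, h, hS.pq]
  have I2 : Ti (q w₀) = O := by rw [← T1, hIT]
  have I3 : ∀ w, w ≠ w₀ → Ti (q w) = q ((w - w₀)⁻¹) := by
    intro w hw'
    have h1 := T3 (w - w₀)⁻¹ (inv_ne_zero (sub_ne_zero.2 hw'))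
    rw [inv_inv, add_sub_cancel] at h1
    rw [← h1, hIT]
  have hset : T '' (q '' ((fun z => 0 + z) '' K)) = (q '' fil X U)ᶜ := by
    have h1 : (fun z : ℂ => 0 + z) '' K = K := by
      simp only [zero_add, image_id']
    rw [h1]
    ext y
    constructor
    · rintro ⟨_, ⟨w, hwK, rfl⟩, rfl⟩
      rintro ⟨b, hb, hbe⟩
      rcases (hKmem w).1 hwK with h | h
      · rw [h, T2] at hbe
        exact hS.q_ne b hbe
      · by_cases h2 : w = 0
        · rw [h2, T2] at hbe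
          exact hS.q_ne b hbe
        · rw [T3 w h2] at hbe
          exact h (hqinj _ _ hbe ▸ hb)
    · intro hy
      by_cases hyO : y = O
      · exact ⟨q 0, ⟨0, h0K, rfl⟩, by rw [T2, hyO]⟩
      · have hb : pp y ∉ fil X U := fun h => hy ⟨pp y, h, hS.qp y hyO⟩
        have hne : pp y ≠ w₀ := fun h => hb (h ▸ hw)
        refine ⟨q ((pp y - w₀)⁻¹), ⟨(pp y - w₀)⁻¹, (hKmem _).2 (Or.inr ?_), rfl⟩, ?_⟩
        · rw [inv_inv, add_sub_cancel]
          exact hb
        · rw [T3 _ (inv_ne_zero (sub_ne_zero.2 hne)), inv_inv, add_sub_cancel, hS.qp y hyO]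
  rw [hset] at hD2
  refine FM_congr hD2 (fun z hz => ?_) fun x hx => ?_
  · by_cases hz0 : z = 0
    · simp only [if_pos hz0]
      rw [T1, hz0, hw₀]
    · simp only [if_neg hz0, zero_add]
      have hne : ψ z ≠ w₀ := by
        intro h
        have h1 := R.vψ z hz
        rw [h, hw₀, R.vψ 0 h0b] at h1
        exact hz0 h1.symm
      rw [T3 _ (inv_ne_zero (sub_ne_zero.2 hne)), inv_inv, add_sub_cancel]
  · rw [compl_compl] at hx
    obtain ⟨w, hwW, rfl⟩ := hx
    by_cases hwe : w = w₀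
    · rw [hwe, I2, hS.pq]
      simp only [if_true]
      rw [hw₀, R.vψ 0 h0b]
    · rw [I3 w hwe, hS.pq, if_neg (hS.q_ne _), hS.pq, sub_zero, inv_inv, add_sub_cancel]

end

end CV

end S_H36_DG_FM

section S_H36_DG_FX

/-!
FX (fixed points of `g` on `S` are finite in number).
`fix_finite`: if the closed set `{s | g s = s}` in the compact space `S` is infinite it has an accumulation point `s` in it (`Set.Infinite.exists_accPt_of_subset_isCompact`): `s_j → s`, `s_j ≠ s`, `g s_j = s_j`.  Let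
`p x = s`, `x ∈ X` (`Deck.ps`).  As `p` is open (`Deck.pop`), there are `x_j ∈ X`, `x_j → x`, `p x_j = s_j` (for `j` large, after passing to a subsequence; or argue with neighbourhoods: for each ball about `x` its image is a
neighbourhood of `s`).  `p (G x_j) = g s_j = p x_j`, so `G x_j = A c_j x_j` (`Deck.fib`), and `G x = A c x`.  By `Deck.loc` at `G x` (or at `x`): `A c x_j → A c x = G x`, `G x_j = A (c_j c⁻¹) (A c x_j)`, both `G x_j` and
`A c x_j` are in the small ball about `G x` for `j` large, so `c_j = c`.  So `x_j ≠ x` are fixed points of `G' = A c⁻¹ ∘ G`, converging to the fixed point `x`.  By `Cond.mul`, `Cond.one`: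
`det (DG' x) = 1`, `|tr| ≠ 2`, so `DG' x - 1` is invertible (`det (B - 1) = 2 - tr B`), and a fixed point with invertible `DG' x - 1` is isolated (`HasFDerivAt`; `‖(B - 1) w‖ ≥ c ‖w‖`): contradiction.
-/

namespace CV

open Metric Set Filter Topology Function DS TN

section
variable {S : Type} [MetricSpace S] [CompactSpace S] {X : Set ℂ} {Γ : Type} [Group Γ]
  {A : Γ → ℂ → ℂ} {p : ℂ → S} {g gi : S → S} {G Gi : ℂ → ℂ} {θ : Γ ≃* Γ} {ρ : ℂ → ℝ}
  {Hyp : S → Prop}

/-- a linear map of the plane with determinant one and trace different from two has no eigenvalue one -/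
private theorem FX_inj (B : ℂ →L[ℝ] ℂ) (hdet : B.det = 1)
    (htr : LinearMap.trace ℝ ℂ (B : ℂ →ₗ[ℝ] ℂ) ≠ 2) :
    ∃ κ : NNReal, AntilipschitzWith κ (B - ContinuousLinearMap.id ℝ ℂ) := by
  set M := LinearMap.toMatrix Complex.basisOneI Complex.basisOneI (B : ℂ →ₗ[ℝ] ℂ) with hM
  have h1 : M.det = 1 := by
    rw [hM, LinearMap.det_toMatrix]; exact hdet
  have h2 : LinearMap.trace ℝ ℂ (B : ℂ →ₗ[ℝ] ℂ) = M.trace := by
    rw [hM, LinearMap.trace_eq_matrix_trace ℝ Complex.basisOneI]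
  have h3 : LinearMap.det ((B : ℂ →ₗ[ℝ] ℂ) - LinearMap.id) = (M - 1).det := by
    rw [← LinearMap.det_toMatrix Complex.basisOneI, map_sub, LinearMap.toMatrix_id]
  have h4 : LinearMap.det ((B : ℂ →ₗ[ℝ] ℂ) - LinearMap.id) ≠ 0 := by
    rw [h3]
    rw [h2, Matrix.trace_fin_two] at htr
    rw [Matrix.det_fin_two] at h1 ⊢
    simp only [Matrix.sub_apply, Matrix.one_apply_eq]
    have e1 : (1 : Matrix (Fin 2) (Fin 2) ℝ) 0 1 = 0 := by simp
    have e2 : (1 : Matrix (Fin 2) (Fin 2) ℝ) 1 0 = 0 := by simp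
    rw [e1, e2]
    intro h
    apply htr
    linarith
  set e := (LinearMap.equivOfDetNeZero ((B : ℂ →ₗ[ℝ] ℂ) - LinearMap.id) h4).toContinuousLinearEquiv
    with he
  exact ⟨_, e.antilipschitz⟩

theorem fix_finite (D : Deck X A p) (L : Lift X A p g gi G Gi θ ρ)
    (C : Cond X A p g gi G Hyp) : {s : S | g s = s}.Finite := by
  by_contra hinf
  have hcl : IsClosed {s : S | g s = s} := isClosed_eq L.cg continuous_id
  obtain ⟨s, hs, hacc⟩ := Set.Infinite.exists_accPt_of_subset_isCompact hinf hcl.isCompact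
    Subset.rfl
  have hs' : g s = s := hs
  obtain ⟨x, hx, hxs⟩ := D.ps s
  have hGx : G x ∈ X := L.mG hx
  obtain ⟨c, hc⟩ := (D.fib x hx (G x) hGx).1 (by rw [L.lift x hx, hxs, hs'])
  obtain ⟨r, hr, hrX, hdis⟩ := D.loc hGx
  -- nearby fixed points have the same deck transformation
  have hcG : ContinuousAt G x := L.c1.continuousOn.continuousAt (D.opn.mem_nhds hx)
  have hcA : ContinuousAt (A c) x := (D.cont c).continuousAt (D.opn.mem_nhds hx)
  have ev1 : ∀ᶠ y in 𝓝 x, G y ∈ ball (G x) r := hcG.eventually (ball_mem_nhds _ hr)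
  have ev2 : ∀ᶠ y in 𝓝 x, A c y ∈ ball (G x) r := by
    apply hcA.eventually
    rw [hc]
    exact ball_mem_nhds _ hr
  have ev3 : ∀ᶠ y in 𝓝 x, y ∈ X := D.opn.mem_nhds hx
  have ev : ∀ᶠ y in 𝓝 x, g (p y) = p y → A c⁻¹ (G y) = y := by
    filter_upwards [ev1, ev2, ev3] with y h1 h2 h3 h4
    obtain ⟨d, hd⟩ := (D.fib y h3 (G y) (L.mG h3)).1 (by rw [L.lift y h3, h4])
    have h5 : A (d * c⁻¹) (A c y) = G y := by
      rw [← D.mul _ _ y h3, inv_mul_cancel_right, hd]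
    have h6 : d * c⁻¹ = 1 := by
      by_contra hne
      exact Set.disjoint_left.1 (hdis _ hne) ⟨A c y, h2, h5⟩ h1
    have h7 : d = c := mul_inv_eq_one.1 h6
    rw [← hd, h7, D.inv_left c h3]
  have hfix : A c⁻¹ (G x) = x := by rw [← hc, D.inv_left c hx]
  -- the derivative
  have L' := Lift.mul D L c⁻¹
  have C' := Cond.mul D L C c⁻¹
  obtain ⟨hdet, htr⟩ := Cond.one D L' C' hx hfix
  have hd : DifferentiableAt ℝ (fun y => A c⁻¹ (G y)) x :=
    (L'.c1.differentiableOn one_ne_zero).differentiableAt (D.opn.mem_nhds hx)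
  set B := fderiv ℝ (fun y => A c⁻¹ (G y)) x with hB
  have htr2 : LinearMap.trace ℝ ℂ (B : ℂ →ₗ[ℝ] ℂ) ≠ 2 := by
    intro h
    rw [h] at htr
    have h2 : |(2:ℝ)| = 2 := abs_of_pos two_pos
    rcases htr with h1 | ⟨_, h1⟩
    · rw [h2] at h1; exact lt_irrefl _ h1
    · rw [h2] at h1; exact lt_irrefl _ h1
  obtain ⟨κ, hκ⟩ := FX_inj B hdet htr2
  have hdd : HasFDerivAt (fun y => A c⁻¹ (G y) - y) (B - ContinuousLinearMap.id ℝ ℂ) x :=
    hd.hasFDerivAt.sub (hasFDerivAt_id x)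
  have hev : ∀ᶠ y in 𝓝[≠] x, A c⁻¹ (G y) - y ≠ 0 := hdd.eventually_ne ⟨κ, hκ⟩
  -- the accumulation of fixed points
  have hall : ∀ᶠ y in 𝓝 x, g (p y) = p y → y = x := by
    rw [eventually_nhdsWithin_iff] at hev
    filter_upwards [ev, hev] with y h1 h2 h3
    by_contra hne
    exact h2 hne (sub_eq_zero.2 (h1 h3))
  obtain ⟨O, hO1, hO2, hO3⟩ := _root_.mem_nhds_iff.1 (Filter.inter_mem hall ev3)
  have hOX : O ⊆ X := fun y hy => (hO1 hy).2
  have hpO : IsOpen (p '' O) := D.pop O hOX hO2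
  have hsO : s ∈ p '' O := ⟨x, hO3, hxs⟩
  rw [accPt_iff_nhds] at hacc
  obtain ⟨s', ⟨⟨y, hy, hys⟩, hs'F⟩, hne⟩ := hacc (p '' O) (hpO.mem_nhds hsO)
  have h1 : g (p y) = p y := by
    rw [hys]; exact hs'F
  have h2 : y = x := (hO1 hy).1 h1
  apply hne
  rw [← hys, h2, hxs]

end

end CV

end S_H36_DG_FX

section S_H36_DG_FXa

/-!
FXa (convergence of almost fixed chains).
`conv_of_steps`: the set of cluster points of `s` is nonempty, contained in the finite set `{a | g a = a}` (first hypothesis and continuity).  If `s n` does not converge to the cluster point `a`: let `r > 0` be smaller than a third of the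
distances of points of the finite set and such that `dist (s n) a ≥ r` infinitely often; `dist (s n) a < r / 2` infinitely often too; by the second hypothesis the sequence is infinitely often in the shell
`r / 2 ≤ dist · a ≤ r`, hence has a cluster point there: contradiction.
-/

namespace CV

open Metric Set Filter Topology Function

theorem FXa_sep {S : Type} [MetricSpace S] {F : Set S} (hF : F.Finite) :
    ∃ r > 0, ∀ a ∈ F, ∀ b ∈ F, dist a b < 3 * r → a = b := by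
  classical
  rcases (hF.toFinset.offDiag).eq_empty_or_nonempty with he | hne
  · refine ⟨1, one_pos, fun a ha b hb _ => ?_⟩
    by_contra hab
    have h1 : (a, b) ∈ hF.toFinset.offDiag :=
      Finset.mem_offDiag.2 ⟨hF.mem_toFinset.2 ha, hF.mem_toFinset.2 hb, hab⟩
    rw [he] at h1
    exact absurd h1 (Finset.notMem_empty _)
  · obtain ⟨⟨x, y⟩, hxy, hmin⟩ := Finset.exists_min_image _ (fun q : S × S => dist q.1 q.2) hne
    have hne' : x ≠ y := (Finset.mem_offDiag.1 hxy).2.2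
    have hpos : 0 < dist x y := dist_pos.2 hne'
    refine ⟨dist x y / 3, by positivity, fun a ha b hb hab => ?_⟩
    by_contra hab'
    have h1 : (a, b) ∈ hF.toFinset.offDiag :=
      Finset.mem_offDiag.2 ⟨hF.mem_toFinset.2 ha, hF.mem_toFinset.2 hb, hab'⟩
    have h2 := hmin (a, b) h1
    simp only at h2
    linarith

theorem FXa_near {S : Type} [MetricSpace S] [CompactSpace S] {g : S → S}
    (hg : Continuous g) {s : ℕ → S}
    (h1 : Tendsto (fun n => dist (s n) (g (s n))) atTop (𝓝 0)) {ε : ℝ}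
    (hε : 0 < ε) : ∀ᶠ n in atTop, ∃ a, g a = a ∧ dist (s n) a < ε := by
  have hK : IsCompact {x : S | ∀ a, g a = a → ε ≤ dist x a} := by
    apply IsClosed.isCompact
    have e : {x : S | ∀ a, g a = a → ε ≤ dist x a} =
        ⋂ a : {a // g a = a}, {x : S | ε ≤ dist x a} := by
      ext x
      simp only [mem_ofPred_eq, mem_iInter, Subtype.forall]
    rw [e]
    exact isClosed_iInter fun a => isClosed_le continuous_const (continuous_id.dist continuous_const)
  have hc : ContinuousOn (fun x : S => dist x (g x)) {x : S | ∀ a, g a = a → ε ≤ dist x a} :=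
    (continuous_id.dist hg).continuousOn
  have key : ∃ m > 0, ∀ x : S, (∀ a, g a = a → ε ≤ dist x a) → m ≤ dist x (g x) ∨ ε ≤ 0 := by
    rcases ({x : S | ∀ a, g a = a → ε ≤ dist x a}).eq_empty_or_nonempty with he | hne
    · refine ⟨1, one_pos, fun x hx => ?_⟩
      have h2 : x ∈ {x : S | ∀ a, g a = a → ε ≤ dist x a} := hx
      rw [he] at h2
      exact absurd h2 (notMem_empty x)
    · obtain ⟨y, hy, hmin⟩ := hK.exists_isMinOn hne hc
      by_cases hgy : g y = y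
      · refine ⟨1, one_pos, fun x _ => Or.inr ?_⟩
        have h3 := hy y hgy
        rwa [dist_self] at h3
      · refine ⟨dist y (g y), dist_pos.2 (Ne.symm hgy), fun x hx => Or.inl ?_⟩
        exact hmin hx
  obtain ⟨m, hm, hmin⟩ := key
  have h2 : ∀ᶠ n in atTop, dist (s n) (g (s n)) < m := h1.eventually (gt_mem_nhds hm)
  filter_upwards [h2] with n hn
  by_contra hcon
  push Not at hcon
  rcases hmin (s n) hcon with h3 | h3
  · linarith
  · linarith

theorem conv_of_steps {S : Type} [MetricSpace S] [CompactSpace S] {g : S → S}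
    (hg : Continuous g) (hfin : {s | g s = s}.Finite) {s : ℕ → S}
    (h1 : Tendsto (fun n => dist (s n) (g (s n))) atTop (𝓝 0))
    (h2 : Tendsto (fun n => dist (s n) (s (n + 1))) atTop (𝓝 0)) :
    ∃ a, g a = a ∧ Tendsto s atTop (𝓝 a) := by
  obtain ⟨r, hr, hsep⟩ := FXa_sep hfin
  have e1 := FXa_near hg h1 hr
  have e2 : ∀ᶠ n in atTop, dist (s n) (s (n + 1)) < r := h2.eventually (gt_mem_nhds hr)
  obtain ⟨N, hN⟩ := eventually_atTop.1 (e1.and e2)
  obtain ⟨a, ha, haN⟩ := (hN N le_rfl).1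
  have hall : ∀ n, N ≤ n → dist (s n) a < r := by
    intro n hn
    induction n, hn using Nat.le_induction with
    | base => exact haN
    | succ n hn ih =>
      obtain ⟨b, hb, hbn⟩ := (hN (n + 1) (by omega)).1
      have h3 := (hN n hn).2
      have h4 : a = b := by
        refine hsep a ha b hb ?_
        have t1 := dist_triangle a (s n) b
        have t2 := dist_triangle (s n) (s (n + 1)) b
        rw [dist_comm a (s n)] at t1
        linarith
      rw [h4]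
      exact hbn
  refine ⟨a, ha, ?_⟩
  rw [Metric.tendsto_atTop]
  intro ε hε
  obtain ⟨M, hM⟩ := eventually_atTop.1 (FXa_near hg h1 (lt_min hε hr))
  refine ⟨max N M, fun n hn => ?_⟩
  obtain ⟨b, hb, hbn⟩ := hM n ((le_max_right _ _).trans hn)
  have h3 := hall n ((le_max_left _ _).trans hn)
  have h4 : a = b := by
    refine hsep a ha b hb ?_
    have t1 := dist_triangle a (s n) b
    rw [dist_comm a (s n)] at t1
    have := min_le_right ε r
    linarith
  rw [h4]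
  exact lt_of_lt_of_le hbn (min_le_left _ _)

end CV

end S_H36_DG_FXa

section S_H36_DG_GC

/-!
GC (cone extension of a homeomorphism of the closed disc to the plane).  `g z = hb z` for `‖z‖ ≤ 1` and
`g z = ‖z‖ * hb (z / ‖z‖)` for `‖z‖ ≥ 1` (the two agree on the circle); continuous (two closed pieces); the same formula for
`hbi` gives the inverse (`‖hb (z/‖z‖)‖ = 1`).
-/

namespace DG
open Metric Set Filter Topology DS

/-- the cone extension of a map of the closed disc -/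
noncomputable def GC_ext (b : ℂ → ℂ) (z : ℂ) : ℂ :=
  if ‖z‖ ≤ 1 then b z else ‖z‖ • b (‖z‖⁻¹ • z)

theorem GC_sphere {z : ℂ} (hz : 1 ≤ ‖z‖) : ‖z‖⁻¹ • z ∈ sphere (0:ℂ) 1 := by
  have h0 : ‖z‖ ≠ 0 := by linarith
  rw [mem_sphere_zero_iff_norm, norm_smul, norm_inv, norm_norm, inv_mul_cancel₀ h0]

theorem GC_cont {b : ℂ → ℂ} (hb : ContinuousOn b (closedBall 0 1)) : Continuous (GC_ext b) := by
  unfold GC_ext
  refine continuous_if_le continuous_norm continuous_const ?_ ?_ ?_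
  · refine hb.mono fun z hz => ?_
    rw [mem_closedBall_zero_iff]; exact hz
  · have h1 : ContinuousOn (fun z : ℂ => ‖z‖⁻¹ • z) {z | 1 ≤ ‖z‖} := by
      refine ContinuousOn.smul (continuous_norm.continuousOn.inv₀ ?_) continuousOn_id
      intro z hz h0
      have : (1:ℝ) ≤ ‖z‖ := hz
      linarith
    exact continuous_norm.continuousOn.smul
      (hb.comp h1 fun z hz => sphere_subset_closedBall (GC_sphere hz))
  · intro z hz
    rw [hz, inv_one, one_smul, one_smul]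

theorem GC_in {b : ℂ → ℂ} {z : ℂ} (hz : ‖z‖ ≤ 1) : GC_ext b z = b z := if_pos hz

theorem GC_out {b : ℂ → ℂ} {z : ℂ} (hz : 1 ≤ ‖z‖) : GC_ext b z = ‖z‖ • b (‖z‖⁻¹ • z) := by
  rcases eq_or_lt_of_le hz with h | h
  · rw [GC_in h.symm.le, ← h, inv_one, one_smul, one_smul]
  · exact if_neg (not_le.mpr h)

theorem GC_norm {b : ℂ → ℂ} (hs : MapsTo b (sphere 0 1) (sphere 0 1)) {z : ℂ} (hz : 1 ≤ ‖z‖) :
    ‖GC_ext b z‖ = ‖z‖ := by
  rw [GC_out hz, norm_smul, norm_norm, mem_sphere_zero_iff_norm.mp (hs (GC_sphere hz)), mul_one]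

theorem GC_inv {b bi : ℂ → ℂ} (hm : MapsTo b (closedBall 0 1) (closedBall 0 1))
    (hs : MapsTo b (sphere 0 1) (sphere 0 1)) (hi : ∀ z ∈ closedBall (0:ℂ) 1, bi (b z) = z)
    (z : ℂ) : GC_ext bi (GC_ext b z) = z := by
  rcases le_total ‖z‖ 1 with h | h
  · have h1 : z ∈ closedBall (0:ℂ) 1 := by rwa [mem_closedBall_zero_iff]
    rw [GC_in h, GC_in (by simpa using hm h1), hi z h1]
  · have h0 : ‖z‖ ≠ 0 := by linarith
    have h1 := GC_norm hs h
    rw [GC_out (b := bi) (by rw [h1]; exact h), h1, GC_out h, smul_smul, inv_mul_cancel₀ h0,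
      one_smul, hi _ (sphere_subset_closedBall (GC_sphere h)), smul_smul, mul_inv_cancel₀ h0,
      one_smul]

theorem cone_extend {h hi hb hbi : ℂ → ℂ}
    (hE : EndMap (fun z : ℂ => z) (fun z : ℂ => z) h hi hb hbi) :
    ∃ g gi : ℂ → ℂ, Continuous g ∧ Continuous gi ∧ (∀ z, gi (g z) = z) ∧ (∀ z, g (gi z) = z) ∧
      (∀ z ∈ closedBall (0:ℂ) 1, g z = hb z) ∧ (∀ z ∈ closedBall (0:ℂ) 1, gi z = hbi z) ∧
      (∀ z ∈ ball (0:ℂ) 1, g z = h z) ∧ (∀ z ∈ ball (0:ℂ) 1, gi z = hi z) ∧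
      ∀ z : ℂ, z ∉ ball (0:ℂ) 1 → g z ∉ ball (0:ℂ) 1 ∧ gi z ∉ ball (0:ℂ) 1 := by
  have hin : ∀ z ∈ closedBall (0:ℂ) 1, ‖z‖ ≤ 1 := fun z hz => by simpa using hz
  refine ⟨GC_ext hb, GC_ext hbi, GC_cont hE.bc, GC_cont hE.bic, GC_inv hE.bm hE.bs hE.bib,
    GC_inv hE.bim hE.bis hE.bbi, fun z hz => GC_in (hin z hz), fun z hz => GC_in (hin z hz),
    fun z hz => ?_, fun z hz => ?_, fun z hz => ?_⟩
  · rw [GC_in (hin z (ball_subset_closedBall hz)), hE.be z hz]
  · rw [GC_in (hin z (ball_subset_closedBall hz)), hE.bie z hz]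
  · rw [mem_ball_zero_iff, not_lt] at hz
    rw [mem_ball_zero_iff, mem_ball_zero_iff, not_lt, not_lt, GC_norm hE.bs hz,
      GC_norm hE.bis hz]
    exact ⟨hz, hz⟩

end DG

end S_H36_DG_GC

section S_H36_DG_LT

/-!
LT (short arcs and radial segments at a prime end outside the limit set, measured in `S`).  `k z = √(ρ (ψ z)) * ‖deriv ψ z‖`, continuous on the disc.  By `inj_near` there is `r₀` with `p ∘ ψ` injective on
`B = ball 0 1 ∩ ball ζ r₀`; `∫⁻_B k² = mX X ρ (ψ '' B)` (`mX_hol`) `< ⊤` (`mX_fin`; `ψ '' B` is open).  `short_arcs` with the `δ` of `len_dist` for `ε`.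
Two points `z, w` of the arc `ball 0 1 ∩ sphere ζ s` are `ζ * (1 - LA_pt s t)` with `s / 2 < cos t`, `-π < t < π` (as in `LA_norm`, Pool/Agent/H36/DS/LA.lean); apply `len_dist` to
`γ t = ψ (ζ * (1 - LA_pt s t))` between the two parameters (`LA_cos`), `‖γ' t‖ = s ‖deriv ψ‖` (`LA_pt_deriv`).  Radial segments: `γ s = ψ (ζ * (1 - LA_pt s t))`, `‖γ' s‖ = ‖deriv ψ‖`; for
`|t| < π / 4` and `s < 1` the points are in the disc.
-/

namespace CV

open Metric Set Filter Topology Function DS TN MeasureTheory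

section
variable {S : Type} [MetricSpace S] {X : Set ℂ} {Γ : Type} [Group Γ]
  {A : Γ → ℂ → ℂ} {p : ℂ → S} {g gi : S → S} {G Gi : ℂ → ℂ} {θ : Γ ≃* Γ} {ρ : ℂ → ℝ}
  {U : Set ℂ} {N : Subgroup Γ} {ψ v : ℂ → ℂ} {F : Fuchs N}

theorem LT_len_lt {δ : ℝ} {ψ : ℂ → ℂ} (hψ : DifferentiableOn ℂ ψ (ball 0 1)) {k : ℂ → ℝ}
    (hk : ∀ z, k z = √(ρ (ψ z)) * ‖deriv ψ z‖) (c c' : ℝ → ℂ) {a b : ℝ} (m : ℝ → ℝ)
    (hmem : ∀ t ∈ Icc a b, c t ∈ ball (0:ℂ) 1) (hc : ∀ t ∈ Icc a b, HasDerivAt c (c' t) t)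
    (hcc : ContinuousOn c' (Icc a b)) (hm : ∀ t ∈ Icc a b, ‖c' t‖ = m t)
    (hlt : ∫⁻ t in Icc a b, ENNReal.ofReal (m t * k (c t)) < ENNReal.ofReal δ) :
    (∀ t ∈ Icc a b, HasDerivAt (fun t => ψ (c t)) (deriv ψ (c t) * c' t) t) ∧
    ContinuousOn (fun t => deriv ψ (c t) * c' t) (Icc a b) ∧
    ∫⁻ t in Icc a b, ENNReal.ofReal (√(ρ (ψ (c t))) * ‖deriv ψ (c t) * c' t‖) <
      ENNReal.ofReal δ := by
  refine ⟨fun t ht => ?_, ?_, ?_⟩
  · have h1 : HasDerivAt ψ (deriv ψ (c t)) (c t) :=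
      (hψ.differentiableAt (isOpen_ball.mem_nhds (hmem t ht))).hasDerivAt
    exact h1.comp_of_eq t (hc t ht) rfl
  · apply ContinuousOn.mul _ hcc
    have h1 : ContinuousOn (deriv ψ) (ball 0 1) := (hψ.deriv isOpen_ball).continuousOn
    exact h1.comp (fun t ht => (hc t ht).continuousAt.continuousWithinAt) hmem
  · refine lt_of_eq_of_lt (setLIntegral_congr_fun measurableSet_Icc fun t ht => ?_) hlt
    change ENNReal.ofReal (√(ρ (ψ (c t))) * ‖deriv ψ (c t) * c' t‖) =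
      ENNReal.ofReal (m t * k (c t))
    rw [hk, norm_mul, hm t ht]
    congr 1
    ring

theorem small_S [CompactSpace S] (D : Deck X A p) (L : Lift X A p g gi G Gi θ ρ)
    (M : Dom X A p g G U N) (R : Riem (fil X U) ψ v) (hF : Act A ψ v F) {ζ : ℂ} (hζ : ‖ζ‖ = 1)
    (h : ζ ∉ F.lim) {ε : ℝ} (hε : 0 < ε) : ∃ r₁ > 0, r₁ < 1 ∧ ∀ r, 0 < r → r < r₁ →
      (∃ s, r / 2 < s ∧ s < r ∧ ∀ z ∈ ball (0:ℂ) 1, ∀ w ∈ ball (0:ℂ) 1, dist z ζ = s →
        dist w ζ = s → dist (p (ψ z)) (p (ψ w)) < ε) ∧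
      ∃ t, |t| < Real.pi / 4 ∧ ∀ s ∈ Ioo (r / 4) r, ∀ s' ∈ Ioo (r / 4) r,
        dist (p (ψ (ζ * (1 - LA_pt s t)))) (p (ψ (ζ * (1 - LA_pt s' t)))) < ε := by
  classical
  obtain ⟨δ, hδ, hlen⟩ := len_dist D L hε
  obtain ⟨r₀, hr₀, hinj⟩ := inj_near D M R hF hζ h
  set k : ℂ → ℝ := fun z => √(ρ (ψ z)) * ‖deriv ψ z‖ with hkdef
  have hψX : ∀ z ∈ ball (0:ℂ) 1, ψ z ∈ X := fun z hz => (R.mψ hz).1
  have hψc : ContinuousOn ψ (ball 0 1) := R.dψ.continuousOn
  have hψinj : InjOn ψ (ball 0 1) := by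
    intro z hz w hw hzw
    rw [← R.vψ z hz, ← R.vψ w hw, hzw]
  have hB : ball (0:ℂ) 1 ∩ ball ζ r₀ ⊆ ball 0 1 := inter_subset_left
  have hBo : IsOpen (ball (0:ℂ) 1 ∩ ball ζ r₀) := isOpen_ball.inter isOpen_ball
  have hkc : ContinuousOn k (ball 0 1 ∩ ball ζ r₀) := by
    apply ContinuousOn.mul
    · exact ((L.ρc.comp hψc hψX).sqrt).mono hB
    · exact (((R.dψ.deriv isOpen_ball).continuousOn).norm).mono hB
  have hk0 : ∀ z, 0 ≤ k z := fun z => mul_nonneg (Real.sqrt_nonneg _) (norm_nonneg _)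
  have hfin : ∫⁻ z in ball (0:ℂ) 1 ∩ ball ζ r₀, ENNReal.ofReal (k z ^ 2) < ⊤ := by
    have h1 := mX_hol D L hBo (R.dψ.mono hB) (hψinj.mono hB) (fun z hz => hψX z (hB hz))
    obtain ⟨m, hm, hm2⟩ := mX_fin D L
    have h2 := hm2 (ψ '' (ball (0:ℂ) 1 ∩ ball ζ r₀))
      (by rintro _ ⟨z, hz, rfl⟩; exact hψX z (hB hz))
      (hBo.measurableSet.image_of_continuousOn_injOn (hψc.mono hB) (hψinj.mono hB))
      (by
        rintro _ ⟨z, hz, rfl⟩ _ ⟨w, hw, rfl⟩ hzw
        rw [hinj hz hw hzw])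
    exact lt_of_eq_of_lt h1 (h2.trans_lt hm)
  obtain ⟨r₁, hr₁, hr₁1, -, hr⟩ := DG.short_arcs hζ hr₀ hkc hk0 hfin hδ
  refine ⟨r₁, hr₁, hr₁1, fun r hr0 hrr => ?_⟩
  obtain ⟨⟨s, hs1, hs2, hs⟩, t, ht, hst⟩ := hr r hr0 hrr
  have hpt : ∀ s t : ℝ, LA_pt s t ∈ ball (1:ℂ) 1 → ζ * (1 - LA_pt s t) ∈ ball (0:ℂ) 1 := by
    intro s t hst
    rw [mem_ball_zero_iff, norm_mul, hζ, one_mul, norm_sub_rev, ← dist_eq_norm]
    exact hst
  refine ⟨⟨s, hs1, hs2, ?_⟩, t, ht, ?_⟩
  · have hs0 : 0 < s := by linarith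
    have key : ∀ a b : ℝ, -Real.pi < a → b < Real.pi → a ≤ b → s / 2 < Real.cos a →
        s / 2 < Real.cos b →
        dist (p (ψ (ζ * (1 - LA_pt s a)))) (p (ψ (ζ * (1 - LA_pt s b)))) < ε := by
      intro a b ha hb hab h1 h2
      have hball : ∀ t ∈ Icc a b, LA_pt s t ∈ ball (1:ℂ) 1 := fun t ht =>
        (LA_lens hs0).2 (LA_cos ha hb ht h1 h2)
      have hmem : ∀ t ∈ Icc a b, ζ * (1 - LA_pt s t) ∈ ball (0:ℂ) 1 := fun t ht =>
        hpt s t (hball t ht)
      have hder : ∀ t : ℝ, HasDerivAt (fun t : ℝ => ζ * (1 - LA_pt s t))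
          (ζ * -(s * (Complex.exp (t * Complex.I) * Complex.I))) t := fun t =>
        ((LA_pt_deriv s t).const_sub 1).const_mul ζ
      obtain ⟨g1, g2, g3⟩ := LT_len_lt (ρ := ρ) (δ := δ) R.dψ (k := k) (fun z => rfl)
        (fun t : ℝ => ζ * (1 - LA_pt s t))
        (fun t : ℝ => ζ * -(s * (Complex.exp (t * Complex.I) * Complex.I)))
        (fun _ => s) hmem (fun t _ => hder t) (by fun_prop)
        (fun t _ => by
          rw [norm_mul, hζ, one_mul, norm_neg, norm_mul, norm_mul,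
            Complex.norm_exp_ofReal_mul_I, Complex.norm_I, Complex.norm_real,
            Real.norm_of_nonneg hs0.le, mul_one, mul_one])
        (by
          refine lt_of_le_of_lt ?_ hs
          refine le_trans (le_of_eq (setLIntegral_congr_fun measurableSet_Icc fun t ht => ?_))
            (lintegral_mono_set (fun t ht => ⟨ha.trans_le ht.1, ht.2.trans_lt hb⟩))
          change ENNReal.ofReal (s * k (ζ * (1 - LA_pt s t))) = ENNReal.ofReal
            ((ball (1:ℂ) 1).indicator (fun w => s * k (ζ * (1 - w))) (LA_pt s t))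
          rw [indicator_of_mem (hball t ht)])
      exact hlen a b _ _ hab (fun t ht => hψX _ (hmem t ht)) g1 g2 g3
    have hpol : ∀ z : ℂ, z ∈ ball (0:ℂ) 1 → dist z ζ = s → ∃ a : ℝ, -Real.pi < a ∧
        a < Real.pi ∧ s / 2 < Real.cos a ∧ ζ * (1 - LA_pt s a) = z := by
      intro z hz hzs
      have hζ0 : ζ ≠ 0 := by
        intro h
        rw [h, norm_zero] at hζ
        exact zero_ne_one hζ
      set y : ℂ := 1 - z / ζ with hy
      have hyn : ‖y‖ = s := by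
        have : y = (ζ - z) / ζ := by rw [hy]; field_simp
        rw [this, norm_div, hζ, div_one, ← hzs, dist_comm, dist_eq_norm]
      have hyb : y ∈ ball (1:ℂ) 1 := by
        rw [mem_ball, dist_eq_norm]
        have : y - 1 = -(z / ζ) := by rw [hy]; ring
        rw [this, norm_neg, norm_div, hζ, div_one]
        exact mem_ball_zero_iff.1 hz
      have h1 : LA_pt s y.arg = y := by
        rw [LA_pt_eq, ← hyn]
        exact Complex.norm_mul_exp_arg_mul_I y
      have h2 : s / 2 < Real.cos y.arg := by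
        rw [← LA_lens hs0, h1]
        exact hyb
      refine ⟨y.arg, Complex.neg_pi_lt_arg y, lt_of_le_of_ne (Complex.arg_le_pi y) ?_, h2, ?_⟩
      · intro h3
        rw [h3, Real.cos_pi] at h2
        linarith
      · rw [h1, hy]
        field_simp
        ring
    intro z hz w hw hzs hws
    obtain ⟨a, ha1, ha2, ha3, rfl⟩ := hpol z hz hzs
    obtain ⟨b, hb1, hb2, hb3, rfl⟩ := hpol w hw hws
    rcases le_total a b with h | h
    · exact key a b ha1 hb2 h ha3 hb3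
    · rw [dist_comm]
      exact key b a hb1 ha2 h hb3 ha3
  · have hcos : (1:ℝ) / 2 < Real.cos t := by
      have h1 : Real.cos (Real.pi / 3) < Real.cos |t| := by
        apply Real.cos_lt_cos_of_nonneg_of_le_pi (abs_nonneg t)
        · linarith [Real.pi_pos]
        · linarith [Real.pi_pos]
      rw [Real.cos_pi_div_three, Real.cos_abs] at h1
      exact h1
    have key : ∀ a ∈ Ioo (r / 4) r, ∀ b ∈ Ioo (r / 4) r, a ≤ b →
        dist (p (ψ (ζ * (1 - LA_pt a t)))) (p (ψ (ζ * (1 - LA_pt b t)))) < ε := by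
      intro a ha b hb hab
      have ha0 : 0 < a := by linarith [ha.1]
      have hball : ∀ u ∈ Icc a b, LA_pt u t ∈ ball (1:ℂ) 1 := by
        intro u hu
        rw [LA_lens (ha0.trans_le hu.1)]
        linarith [hu.2, hb.2]
      have hmem : ∀ u ∈ Icc a b, ζ * (1 - LA_pt u t) ∈ ball (0:ℂ) 1 := fun u hu =>
        hpt u t (hball u hu)
      have hder : ∀ u : ℝ, HasDerivAt (fun u : ℝ => ζ * (1 - LA_pt u t))
          (ζ * -(Real.cos t + Real.sin t * Complex.I)) u := by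
        intro u
        have h1 : HasDerivAt (fun u : ℝ => (u : ℂ)) 1 u := Complex.ofRealCLM.hasDerivAt
        have h2 := ((h1.mul_const ((Real.cos t : ℂ) + Real.sin t * Complex.I)).const_sub
          1).const_mul ζ
        rw [one_mul] at h2
        exact h2
      obtain ⟨g1, g2, g3⟩ := LT_len_lt (ρ := ρ) (δ := δ) R.dψ (k := k) (fun z => rfl)
        (fun u : ℝ => ζ * (1 - LA_pt u t))
        (fun u : ℝ => ζ * -(Real.cos t + Real.sin t * Complex.I))
        (fun _ => 1) hmem (fun t _ => hder t) continuousOn_const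
        (fun u _ => by
          rw [norm_mul, hζ, one_mul, norm_neg]
          have h1 : ((Real.cos t : ℂ) + Real.sin t * Complex.I) =
              Complex.exp (t * Complex.I) := by
            rw [Complex.exp_mul_I, Complex.ofReal_cos, Complex.ofReal_sin]
          rw [h1, Complex.norm_exp_ofReal_mul_I])
        (by
          refine lt_of_le_of_lt ?_ hst
          refine le_trans (le_of_eq (setLIntegral_congr_fun measurableSet_Icc fun u hu => ?_))
            (lintegral_mono_set (fun u hu => ⟨ha.1.trans_le hu.1, hu.2.trans_lt hb.2⟩))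
          change ENNReal.ofReal (1 * k (ζ * (1 - LA_pt u t))) = ENNReal.ofReal
            (k (ζ * (1 - LA_pt u t)))
          rw [one_mul])
      exact hlen a b _ _ hab (fun t ht => hψX _ (hmem t ht)) g1 g2 g3
    intro a ha b hb
    rcases le_total a b with h | h
    · exact key a ha b hb h
    · rw [dist_comm]
      exact key b hb a ha h

end

end CV

end S_H36_DG_LT

section S_H36_DG_PT

/-!
PT (the arcs about a fixed prime end outside the limit set converge to a fixed point).  For `n ∈ ℕ` let `r_n = 2 ^ (-n) r_*`.  By `small_S` (with `ε → 0`) choose for all large `n` radii `s_n ∈ (r_n / 2, r_n)` such that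
`diam_S (p (ψ (arc s_n))) → 0`, and angles `t_n`, `|t_n| < π / 4`, such that the segment `R_n = {ζ * (1 - LA_pt s t_n) | s ∈ (r_n / 4, r_n)}` has `diam_S (p (ψ R_n)) → 0`.  `R_n` meets the arcs `s_n` and `s_(n+1)`
(`s_n, s_(n+1) ∈ (r_n / 4, r_n)`; `dist (ζ * (1 - LA_pt s t)) ζ = s`).  By `arc_meet` there is `z_n` in the arc `s_n` with `e.H z_n` in the arc `s_n`; `p (ψ (e.H z_n)) = p (G (ψ z_n)) = g (p (ψ z_n))`.
So `σ_n = p (ψ z_n)` satisfies `dist σ_n (g σ_n) → 0`, `dist σ_n σ_(n+1) → 0`: `σ_n → a`, `g a = a` (`conv_of_steps`, `fix_finite`).  Hence `p (ψ x) → a` uniformly for `x` in `T_n = arc s_n ∪ R_n`, `n → ∞`.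
Let `p x₀ = a`, `x₀ ∈ X`, and `r` as in `Deck.loc` for `x₀`.  For `0 < r' ≤ r` the set `p '' ball x₀ r'` is an open neighbourhood of `a`, so for `n ≥ n(r')` `ψ '' T_n ⊆ p ⁻¹' (p '' ball x₀ r') ∩ X = ⋃ c, A c '' ball x₀ r'`
(disjoint open sets: `Deck.loc`); `⋃_{n ≥ n(r')} T_n` is connected (arcs are connected, `arc_connected`; consecutive ones are joined by `R_n`), so `ψ` of it is contained in one `A c '' ball x₀ r'`.  For `r' = r` call the element `c`; for smaller `r'` the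
element is the same, because `A c' '' ball x₀ r' ∩ A c '' ball x₀ r` is nonempty.  So `ψ (arc s_n) → P = A c x₀` (continuity of `A c`): `Principal ψ ζ P`.  `P ∈ X`.  `ψ z_n → P`, `ψ (e.H z_n) = G (ψ z_n) → P`, so `G P = P`
(`G` continuous at `P`).  `P ∉ fil X U`: otherwise `v` is continuous at `P` and `z_n = v (ψ z_n) → v P ∈ ball 0 1`, but `z_n → ζ`.
-/

namespace CV

open Metric Set Filter Topology Function DS TN MeasureTheory

section
variable {S : Type} [MetricSpace S] [CompactSpace S] {X : Set ℂ} {Γ : Type} [Group Γ]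
  {A : Γ → ℂ → ℂ} {p : ℂ → S} {g gi : S → S} {G Gi : ℂ → ℂ} {θ : Γ ≃* Γ} {ρ : ℂ → ℝ}
  {U : Set ℂ} {N : Subgroup Γ} {ψ v : ℂ → ℂ} {F : Fuchs N} {Hyp : S → Prop}

private theorem PT_norm {ζ : ℂ} (hζ : ‖ζ‖ = 1) {s t : ℝ} (hs : 0 < s) (hs1 : s < 1)
    (ht : |t| < Real.pi / 4) :
    ζ * (1 - LA_pt s t) ∈ ball (0:ℂ) 1 ∧ dist (ζ * (1 - LA_pt s t)) ζ = s := by
  have h0 : ‖LA_pt s t‖ = s := by
    rw [LA_pt_eq, norm_mul, Complex.norm_exp_ofReal_mul_I, mul_one, Complex.norm_real,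
      Real.norm_of_nonneg hs.le]
  constructor
  · have hc : s / 2 < Real.cos t := by
      have h1 : Real.cos (Real.pi / 4) ≤ Real.cos |t| :=
        Real.cos_le_cos_of_nonneg_of_le_pi (abs_nonneg t) (by linarith [Real.pi_pos]) ht.le
      rw [Real.cos_abs, Real.cos_pi_div_four] at h1
      have h2 : 1 < √2 := by
        rw [Real.lt_sqrt (by norm_num)]
        norm_num
      linarith
    have h2 := (LA_lens (t := t) hs).2 hc
    rw [mem_ball, dist_eq_norm] at h2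
    rw [mem_ball_zero_iff, norm_mul, hζ, one_mul, norm_sub_rev]
    exact h2
  · have h1 : ζ * (1 - LA_pt s t) - ζ = -(ζ * LA_pt s t) := by ring
    rw [dist_eq_norm, h1, norm_neg, norm_mul, hζ, one_mul, h0]

private theorem PT_seq {Q : ℕ → ℝ → Prop} (hm : ∀ n ε ε', ε ≤ ε' → Q n ε → Q n ε')
    (h1 : ∀ n, Q n 1) (h : ∀ ε > 0, ∃ n₀, ∀ n ≥ n₀, Q n ε) :
    ∃ e : ℕ → ℝ, Tendsto e atTop (𝓝 0) ∧ ∀ n, Q n (e n) := by
  set e : ℕ → ℝ := fun n => sInf {ε | 0 < ε ∧ Q n ε} + 1 / (n + 1) with he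
  have hbd : ∀ n, BddBelow {ε | 0 < ε ∧ Q n ε} := fun n => ⟨0, fun ε hε => hε.1.le⟩
  have hne : ∀ n, {ε | 0 < ε ∧ Q n ε}.Nonempty := fun n => ⟨1, one_pos, h1 n⟩
  have h0 : ∀ n, 0 ≤ sInf {ε | 0 < ε ∧ Q n ε} := fun n =>
    le_csInf (hne n) fun ε hε => hε.1.le
  refine ⟨e, ?_, ?_⟩
  · have h2 : Tendsto (fun n : ℕ => sInf {ε | 0 < ε ∧ Q n ε}) atTop (𝓝 0) := by
      rw [Metric.tendsto_atTop]
      intro ε hε
      obtain ⟨n₀, hn₀⟩ := h (ε / 2) (half_pos hε)
      refine ⟨n₀, fun n hn => ?_⟩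
      have h3 : sInf {ε | 0 < ε ∧ Q n ε} ≤ ε / 2 := csInf_le (hbd n) ⟨half_pos hε, hn₀ n hn⟩
      rw [Real.dist_eq, sub_zero, abs_of_nonneg (h0 n)]
      linarith
    have h3 := h2.add (tendsto_one_div_add_atTop_nhds_zero_nat (𝕜 := ℝ))
    simpa [he] using h3
  · intro n
    have hpos : (0:ℝ) < 1 / (n + 1) := by positivity
    obtain ⟨ε, hε, hlt⟩ := exists_lt_of_csInf_lt (hne n)
      (show sInf {ε | 0 < ε ∧ Q n ε} < e n by simp only [he]; linarith)
    exact hm n ε (e n) hlt.le hε.2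

private theorem PT_conn {ζ : ℂ} (hζ : ‖ζ‖ = 1) {r s t : ℕ → ℝ} (hr1 : ∀ n, r n < 1)
    (hr : ∀ n, 0 < r n) (hrs : ∀ n, r (n + 1) = r n / 2) (hs1 : ∀ n, r n / 2 < s n)
    (hs2 : ∀ n, s n < r n) (ht : ∀ n, |t n| < Real.pi / 4) (m : ℕ) :
    IsPreconnected (⋃ n : ℕ, ({z : ℂ | ‖z‖ < 1 ∧ dist z ζ = s (m + n)} ∪
      (fun x : ℝ => ζ * (1 - LA_pt x (t (m + n)))) '' Ioo (r (m + n) / 4) (r (m + n)))) := by
  have hs0 : ∀ n, 0 < s n := fun n => by have := hr n; have := hs1 n; linarith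
  apply IsPreconnected.iUnion_of_chain
  · intro n
    have hk := hr (m + n)
    have h1 := hs1 (m + n)
    have h2 := hs2 (m + n)
    have h3 := hr1 (m + n)
    have hc1 : IsPreconnected {z : ℂ | ‖z‖ < 1 ∧ dist z ζ = s (m + n)} :=
      (arc_connected hζ (hs0 _) (by linarith)).isPreconnected
    have hc2 : IsPreconnected ((fun x : ℝ => ζ * (1 - LA_pt x (t (m + n)))) ''
        Ioo (r (m + n) / 4) (r (m + n))) := by
      apply isPreconnected_Ioo.image
      apply Continuous.continuousOn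
      unfold LA_pt
      fun_prop
    have hp := PT_norm hζ (hs0 (m + n)) (by linarith) (ht (m + n))
    refine hc1.union (ζ * (1 - LA_pt (s (m + n)) (t (m + n)))) ?_ ?_ hc2
    · exact ⟨mem_ball_zero_iff.1 hp.1, hp.2⟩
    · exact ⟨s (m + n), ⟨by linarith, h2⟩, rfl⟩
  · intro n
    have hk := hr (m + n)
    have h1 := hs1 (m + n)
    have h2 := hs2 (m + n)
    have h3 := hr1 (m + n)
    have h4 := hs1 (m + n + 1)
    have h5 := hs2 (m + n + 1)
    rw [hrs (m + n)] at h4 h5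
    have hp := PT_norm hζ (hs0 (m + n + 1)) (by linarith) (ht (m + n))
    refine ⟨ζ * (1 - LA_pt (s (m + n + 1)) (t (m + n))), Or.inr ?_, Or.inl ?_⟩
    · exact ⟨s (m + n + 1), ⟨by linarith, by linarith⟩, rfl⟩
    · exact ⟨mem_ball_zero_iff.1 hp.1, hp.2⟩

theorem arcs_to_pt (D : Deck X A p) (L : Lift X A p g gi G Gi θ ρ)
    (C : Cond X A p g gi G Hyp) (M : Dom X A p g G U N) (R : Riem (fil X U) ψ v)
    (hF : Act A ψ v F) {e : Elt N} (he : Norm F e)
    (heH : ∀ z ∈ ball (0:ℂ) 1, e.H z = v (G (ψ z))) {ζ : ℂ} (hζ : ‖ζ‖ = 1)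
    (h : ζ ∉ F.lim) (hf : e.H ζ = ζ) :
    ∃ P ∈ X, G P = P ∧ P ∉ fil X U ∧ Principal ψ ζ P := by
  obtain ⟨ra, hra0, hra⟩ := arc_meet D L M R hF he heH hζ h hf
  obtain ⟨rb, hrb0, hrb1, hrb⟩ := small_S D L M R hF hζ h one_pos
  set r₀ : ℝ := min ra rb / 2 with hr₀
  have hr₀0 : 0 < r₀ := by rw [hr₀]; exact half_pos (lt_min hra0 hrb0)
  have hr₀a : r₀ < ra := by
    rw [hr₀]; have := min_le_left ra rb; have := lt_min hra0 hrb0; linarith
  have hr₀b : r₀ < rb := by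
    rw [hr₀]; have := min_le_right ra rb; have := lt_min hra0 hrb0; linarith
  set r : ℕ → ℝ := fun n => r₀ * (1 / 2) ^ n with hr
  have hr0 : ∀ n, 0 < r n := fun n => by simp only [hr]; positivity
  have hrs : ∀ n, r (n + 1) = r n / 2 := fun n => by simp only [hr]; ring
  have hrle : ∀ n, r n ≤ r₀ := fun n => by
    simp only [hr]
    exact mul_le_of_le_one_right hr₀0.le (pow_le_one₀ (by norm_num) (by norm_num))
  have hrt : Tendsto r atTop (𝓝 0) := by
    have := (tendsto_pow_atTop_nhds_zero_of_lt_one (r := (1 / 2 : ℝ)) (by norm_num)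
      (by norm_num)).const_mul r₀
    simpa [hr] using this
  obtain ⟨ε, hε0, hQ⟩ := PT_seq (Q := fun n ε =>
      (∃ s, r n / 2 < s ∧ s < r n ∧ ∀ z ∈ ball (0:ℂ) 1, ∀ w ∈ ball (0:ℂ) 1, dist z ζ = s →
        dist w ζ = s → dist (p (ψ z)) (p (ψ w)) < ε) ∧
      ∃ t, |t| < Real.pi / 4 ∧ ∀ s ∈ Ioo (r n / 4) (r n), ∀ s' ∈ Ioo (r n / 4) (r n),
        dist (p (ψ (ζ * (1 - LA_pt s t)))) (p (ψ (ζ * (1 - LA_pt s' t)))) < ε)
    (by
      rintro n ε ε' hle ⟨⟨s, h1, h2, h3⟩, t, h4, h5⟩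
      exact ⟨⟨s, h1, h2, fun z hz w hw hzs hws => (h3 z hz w hw hzs hws).trans_le hle⟩, t, h4,
        fun s hs s' hs' => (h5 s hs s' hs').trans_le hle⟩)
    (fun n => hrb (r n) (hr0 n) ((hrle n).trans_lt hr₀b))
    (by
      intro ε hε
      obtain ⟨rc, hrc0, -, hrc⟩ := small_S D L M R hF hζ h hε
      obtain ⟨n₀, hn₀⟩ := Filter.eventually_atTop.1 (hrt.eventually (gt_mem_nhds hrc0))
      exact ⟨n₀, fun n hn => hrc (r n) (hr0 n) (hn₀ n hn)⟩)
  choose hQ1 hQ2 using hQ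
  choose s hs1 hs2 hs3 using hQ1
  choose t ht1 ht2 using hQ2
  have hs0 : ∀ n, 0 < s n := fun n => by have := hr0 n; have := hs1 n; linarith
  have hrlt1 : ∀ n, r n < 1 := fun n => (hrle n).trans_lt (hr₀b.trans hrb1)
  have hslt1 : ∀ n, s n < 1 := fun n => (hs2 n).trans (hrlt1 n)
  have hz : ∀ n, ∃ z ∈ ball (0:ℂ) 1, dist z ζ = s n ∧ dist (e.H z) ζ = s n := fun n =>
    hra (s n) (hs0 n) ((hs2 n).trans ((hrle n).trans_lt hr₀a))
  choose z hzb hzs hHz using hz
  have hst : Tendsto s atTop (𝓝 0) :=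
    squeeze_zero (fun n => (hs0 n).le) (fun n => (hs2 n).le) hrt
  -- the images
  have hψW : ∀ x ∈ ball (0:ℂ) 1, ψ x ∈ fil X U := R.mψ
  have hψX : ∀ x ∈ ball (0:ℂ) 1, ψ x ∈ X := fun x hx => fil_sub (hψW x hx)
  have hGW : ∀ x ∈ ball (0:ℂ) 1, G (ψ x) ∈ fil X U := fun x hx => by
    rw [← fil_G D L M]
    exact ⟨_, hψW x hx, rfl⟩
  have hHb : ∀ n, e.H (z n) ∈ ball (0:ℂ) 1 := fun n => he.mapB (hzb n)
  have hψH : ∀ n, ψ (e.H (z n)) = G (ψ (z n)) := fun n => by
    rw [heH _ (hzb n), R.ψv _ (hGW _ (hzb n))]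
  have hgσ : ∀ n, p (ψ (e.H (z n))) = g (p (ψ (z n))) := fun n => by
    rw [hψH, L.lift _ (hψX _ (hzb n))]
  have hy : ∀ n, ζ * (1 - LA_pt (s n) (t n)) ∈ ball (0:ℂ) 1 ∧
      dist (ζ * (1 - LA_pt (s n) (t n))) ζ = s n := fun n =>
    PT_norm hζ (hs0 n) (hslt1 n) (ht1 n)
  have hy' : ∀ n, ζ * (1 - LA_pt (s (n + 1)) (t n)) ∈ ball (0:ℂ) 1 ∧
      dist (ζ * (1 - LA_pt (s (n + 1)) (t n))) ζ = s (n + 1) := fun n =>
    PT_norm hζ (hs0 (n + 1)) (hslt1 (n + 1)) (ht1 n)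
  have hm1 : ∀ n, s n ∈ Ioo (r n / 4) (r n) := fun n =>
    ⟨by have := hr0 n; have := hs1 n; linarith, hs2 n⟩
  have hm2 : ∀ n, s (n + 1) ∈ Ioo (r n / 4) (r n) := fun n => by
    have h1 := hs1 (n + 1)
    have h2 := hs2 (n + 1)
    have h3 := hr0 n
    rw [hrs] at h1 h2
    exact ⟨by linarith, by linarith⟩
  have hd1 : ∀ n, dist (p (ψ (z n))) (g (p (ψ (z n)))) ≤ ε n := fun n => by
    rw [← hgσ]
    exact (hs3 n _ (hzb n) _ (hHb n) (hzs n) (hHz n)).le
  have hd2 : ∀ n, dist (p (ψ (z n))) (p (ψ (z (n + 1)))) ≤ ε n + ε n + ε (n + 1) := fun n => by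
    have h1 := hs3 n _ (hzb n) _ (hy n).1 (hzs n) (hy n).2
    have h2 := ht2 n _ (hm1 n) _ (hm2 n)
    have h3 := hs3 (n + 1) _ (hy' n).1 _ (hzb (n + 1)) (hy' n).2 (hzs (n + 1))
    have h4 := dist_triangle4 (p (ψ (z n))) (p (ψ (ζ * (1 - LA_pt (s n) (t n)))))
      (p (ψ (ζ * (1 - LA_pt (s (n + 1)) (t n))))) (p (ψ (z (n + 1))))
    linarith
  obtain ⟨a, hga, hσa⟩ := conv_of_steps L.cg (fix_finite D L C) (s := fun n => p (ψ (z n)))
    (squeeze_zero (fun n => dist_nonneg) hd1 hε0)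
    (squeeze_zero (fun n => dist_nonneg) hd2 (by
      have := (hε0.add hε0).add ((tendsto_add_atTop_iff_nat 1).2 hε0)
      simpa using this))
  obtain ⟨x₀, hx₀, hpx₀⟩ := D.ps a
  obtain ⟨l, hl0, hlX, hl⟩ := D.loc hx₀
  set T : ℕ → Set ℂ := fun n => {z : ℂ | ‖z‖ < 1 ∧ dist z ζ = s n} ∪
      (fun x : ℝ => ζ * (1 - LA_pt x (t n))) '' Ioo (r n / 4) (r n) with hT
  have hTb : ∀ n, T n ⊆ ball (0:ℂ) 1 := by
    rintro n x (hx | ⟨y, hy, rfl⟩)
    · exact mem_ball_zero_iff.2 hx.1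
    · have := hr0 n
      exact (PT_norm hζ (by linarith [hy.1]) (hy.2.trans (hrlt1 n)) (ht1 n)).1
  have hTd : ∀ n, ∀ x ∈ T n, dist (p (ψ x)) (p (ψ (z n))) ≤ ε n + ε n := by
    rintro n x (hx | ⟨y, hy', rfl⟩)
    · have h1 := hs3 n _ (mem_ball_zero_iff.2 hx.1) _ (hzb n) hx.2 (hzs n)
      have h2 : 0 ≤ ε n := dist_nonneg.trans h1.le
      linarith
    · have h1 := ht2 n _ hy' _ (hm1 n)
      have h2 := hs3 n _ (hy n).1 _ (hzb n) (hy n).2 (hzs n)
      have h3 := dist_triangle (p (ψ (ζ * (1 - LA_pt y (t n)))))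
        (p (ψ (ζ * (1 - LA_pt (s n) (t n))))) (p (ψ (z n)))
      show dist (p (ψ (ζ * (1 - LA_pt y (t n))))) (p (ψ (z n))) ≤ ε n + ε n
      linarith
  -- uniform convergence in `S`
  have hunif : ∀ O : Set S, IsOpen O → a ∈ O → ∃ m, ∀ n ≥ m, ∀ x ∈ T n, p (ψ x) ∈ O := by
    intro O hO haO
    obtain ⟨δ, hδ, hδO⟩ := Metric.isOpen_iff.1 hO a haO
    have h1 : Tendsto (fun n => ε n + ε n + dist (p (ψ (z n))) a) atTop (𝓝 0) := by
      have := (hε0.add hε0).add (tendsto_iff_dist_tendsto_zero.1 hσa)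
      simpa using this
    obtain ⟨m, hm⟩ := Filter.eventually_atTop.1 (h1.eventually (gt_mem_nhds hδ))
    refine ⟨m, fun n hn x hx => hδO ?_⟩
    rw [mem_ball]
    have h2 := dist_triangle (p (ψ x)) (p (ψ (z n))) a
    have h3 := hTd n x hx
    have h4 := hm n hn
    linarith
  have hball : ∀ l', 0 < l' → l' ≤ l → ∃ m, ∀ n ≥ m, ∀ x ∈ T n, p (ψ x) ∈ p '' ball x₀ l' := by
    intro l' h1 h2
    exact hunif _ (D.pop _ ((ball_subset_ball h2).trans hlX) isOpen_ball)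
      ⟨x₀, mem_ball_self h1, hpx₀⟩
  obtain ⟨m, hm⟩ := hball l hl0 le_rfl
  -- one sheet
  have hAo : ∀ c, IsOpen (A c '' ball x₀ l) := by
    intro c
    have h1 : A c '' ball x₀ l = X ∩ A c⁻¹ ⁻¹' ball x₀ l := by
      ext x
      constructor
      · rintro ⟨y, hy, rfl⟩
        refine ⟨D.maps c (hlX hy), ?_⟩
        show A c⁻¹ (A c y) ∈ ball x₀ l
        rw [D.inv_left c (hlX hy)]
        exact hy
      · rintro ⟨hx, hxU⟩
        exact ⟨A c⁻¹ x, hxU, D.inv_right c hx⟩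
    rw [h1]
    exact (D.cont c⁻¹).isOpen_inter_preimage D.opn isOpen_ball
  have hsheet : ∀ x ∈ X, p x ∈ p '' ball x₀ l → ∃ c, x ∈ A c '' ball x₀ l := by
    rintro x hx ⟨y, hy, hyx⟩
    obtain ⟨c, hc⟩ := (D.fib y (hlX hy) x hx).1 hyx
    exact ⟨c, y, hy, hc⟩
  have huniq : ∀ c c', ∀ y ∈ ball x₀ l, ∀ y' ∈ ball x₀ l, A c y = A c' y' → c = c' := by
    intro c c' y hy y' hy' hcc
    by_contra hne
    have h1 : c'⁻¹ * c ≠ 1 := fun h2 => hne (inv_mul_eq_one.1 h2).symm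
    refine disjoint_left.1 (hl _ h1) ⟨y, hy, rfl⟩ ?_
    rw [D.mul _ _ _ (hlX hy), hcc, D.inv_left _ (hlX hy')]
    exact hy'
  have hYc : IsPreconnected (⋃ n : ℕ, T (m + n)) := PT_conn hζ hrlt1 hr0 hrs hs1 hs2 ht1 m
  have hYb : (⋃ n : ℕ, T (m + n)) ⊆ ball (0:ℂ) 1 := iUnion_subset fun n => hTb (m + n)
  have hψY : IsPreconnected (ψ '' ⋃ n : ℕ, T (m + n)) :=
    hYc.image ψ (R.dψ.continuousOn.mono hYb)
  have hzT : ∀ n, z n ∈ T n := fun n => Or.inl ⟨mem_ball_zero_iff.1 (hzb n), hzs n⟩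
  have hHT : ∀ n, e.H (z n) ∈ T n := fun n => Or.inl ⟨mem_ball_zero_iff.1 (hHb n), hHz n⟩
  obtain ⟨c, hc⟩ := hsheet _ (hψX _ (hzb m)) (hm m le_rfl _ (hzT m))
  have hsub : (ψ '' ⋃ n : ℕ, T (m + n)) ⊆ A c '' ball x₀ l := by
    refine hψY.subset_left_of_subset_union (v := ⋃ c' ∈ {c' | c' ≠ c}, A c' '' ball x₀ l)
      (hAo c) (isOpen_biUnion fun c' _ => hAo c') ?_ ?_ ?_
    · rw [disjoint_left]
      rintro x ⟨y, hy, rfl⟩ hx
      simp only [mem_iUnion] at hx
      obtain ⟨c', hc', y', hy', hx⟩ := hx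
      exact hc' (huniq c' c y' hy' y hy hx)
    · rintro _ ⟨x, hx, rfl⟩
      obtain ⟨n, hn⟩ := mem_iUnion.1 hx
      obtain ⟨c', hc'⟩ := hsheet _ (hψX _ (hTb _ hn)) (hm (m + n) (Nat.le_add_right _ _) _ hn)
      by_cases hcc : c' = c
      · left
        rw [← hcc]
        exact hc'
      · right
        exact mem_biUnion (show c' ∈ {c' | c' ≠ c} from hcc) hc'
    · exact ⟨ψ (z m), ⟨z m, mem_iUnion.2 ⟨0, hzT m⟩, rfl⟩, hc⟩
  have hPX : A c x₀ ∈ X := D.maps c hx₀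
  -- uniform convergence in `X`
  have hconv : ∀ δ > 0, ∃ k, ∀ n ≥ k, ∀ x ∈ T n, dist (ψ x) (A c x₀) < δ := by
    intro δ hδ
    have hcA : ContinuousAt (A c) x₀ := (D.cont c).continuousAt (D.opn.mem_nhds hx₀)
    obtain ⟨l₁, hl₁, hl₁'⟩ := Metric.continuousAt_iff.1 hcA δ hδ
    obtain ⟨k, hk⟩ := hball (min l₁ l) (lt_min hl₁ hl0) (min_le_right _ _)
    refine ⟨max k m, fun n hn x hx => ?_⟩
    have hkn : k ≤ n := (le_max_left _ _).trans hn
    have hmn : m ≤ n := (le_max_right _ _).trans hn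
    obtain ⟨y, hy, hyx⟩ := hk n hkn x hx
    have hy1 : y ∈ ball x₀ l := ball_subset_ball (min_le_right _ _) hy
    have hy2 : dist y x₀ < l₁ := lt_of_lt_of_le (mem_ball.1 hy) (min_le_left _ _)
    have hxb := hTb n hx
    obtain ⟨c', hc'⟩ := (D.fib y (hlX hy1) _ (hψX _ hxb)).1 hyx
    obtain ⟨y', hy', hyy⟩ := hsub ⟨x, mem_iUnion.2 ⟨n - m, by
      rw [Nat.add_sub_cancel' hmn]; exact hx⟩, rfl⟩
    have hcc : c' = c := huniq c' c y hy1 y' hy' (by rw [hc', hyy])
    rw [← hc', hcc]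
    exact hl₁' hy2
  have hlim1 : Tendsto (fun n => ψ (z n)) atTop (𝓝 (A c x₀)) := by
    rw [Metric.tendsto_atTop]
    intro δ hδ
    obtain ⟨k, hk⟩ := hconv δ hδ
    exact ⟨k, fun n hn => hk n hn _ (hzT n)⟩
  have hlim2 : Tendsto (fun n => G (ψ (z n))) atTop (𝓝 (A c x₀)) := by
    rw [Metric.tendsto_atTop]
    intro δ hδ
    obtain ⟨k, hk⟩ := hconv δ hδ
    refine ⟨k, fun n hn => ?_⟩
    rw [← hψH]
    exact hk n hn _ (hHT n)
  refine ⟨A c x₀, hPX, ?_, ?_, ?_⟩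
  · have hGc : ContinuousAt G (A c x₀) := L.c1.continuousOn.continuousAt (D.opn.mem_nhds hPX)
    exact tendsto_nhds_unique (hGc.tendsto.comp hlim1) hlim2
  · intro hPW
    have hvc : ContinuousAt v (A c x₀) :=
      R.dv.continuousOn.continuousAt ((fil_open D M).mem_nhds hPW)
    have h1 : Tendsto (fun n => v (ψ (z n))) atTop (𝓝 (v (A c x₀))) := hvc.tendsto.comp hlim1
    have h2 : Tendsto z atTop (𝓝 ζ) := by
      rw [tendsto_iff_dist_tendsto_zero]
      simp only [hzs]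
      exact hst
    have h3 : v (A c x₀) = ζ := by
      refine tendsto_nhds_unique h1 (h2.congr fun n => ?_)
      rw [R.vψ _ (hzb n)]
    have h4 := R.mv hPW
    rw [h3, mem_ball_zero_iff, hζ] at h4
    exact lt_irrefl _ h4
  · intro δ hδ
    obtain ⟨k, hk⟩ := hconv δ hδ
    obtain ⟨k', hk'⟩ := Filter.eventually_atTop.1 (hst.eventually (gt_mem_nhds hδ))
    refine ⟨s (max k k'), hs0 _, hk' _ (le_max_right _ _), fun x hx hxs => ?_⟩
    exact hk _ (le_max_left _ _) x (Or.inl ⟨mem_ball_zero_iff.1 hx, hxs⟩)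

end

end CV

end S_H36_DG_PT

section S_H36_DG_QO

/-!
QO (orientation at the boundary).  Let `B = fderiv ℝ h w₀`, `det B > 0`.  By `star_point`-like estimates (Pool/Agent/H36/DS/ID.lean: there the log of
`(g x - P)/(x - P)` near a fixed point is obtained from `det B > 0`; here apply it, or its proof, to `g x = h x + w₀`, `P = w₀`): there is a small closed
ball `closedBall w₀ r ⊆ ball 0 1` such that `h z / (z - w₀)` has a continuous logarithm on `sphere w₀ r`.  (Direct proof: `B z = a z + b conj z` with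
`‖a‖ > ‖b‖`, so `h z / (z - w₀)` is in the disc with centre `a` and radius `< ‖a‖` for `z` near `w₀`, `z ≠ w₀`; such a disc is contained in a rotated slit
plane, `IC_log_slit`.)  So it also has one on the closed ball minus ... : define `F z = h z / (z - w₀)` for `z ∈ closedBall 0 1`, `‖z - w₀‖ ≥ r`, and for `‖z - w₀‖ ≤ r`
let `F z = exp (L' z)` with `L'` a continuous extension (`IB_tietze`) of the logarithm from the circle; `F` is continuous and nowhere zero on
`closedBall 0 1` (`h z ≠ 0` for `z ≠ w₀` by injectivity), so it has a logarithm (`allLogs_closedBall`).  On the unit circle `F z = h z / (z - w₀)`, and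
`(z - w₀) / z = 1 - w₀ / z` is in the slit plane.  Multiply (`IC_log_mul`).
-/

namespace DG
open Metric Set Filter Topology DS

theorem QO_lin (A : ℂ →L[ℝ] ℂ) (h : 0 < A.det) : ∃ α : ℂ, ∃ m : ℝ, 0 < m ∧
    ∀ v, ‖A v - α * v‖ ≤ (‖α‖ - m) * ‖v‖ := by
  set a : ℂ := A 1 with ha
  set b : ℂ := A Complex.I with hb
  have hdet : A.det = a.re * b.im - b.re * a.im := by
    have h1 : A.det = LinearMap.det (A : ℂ →ₗ[ℝ] ℂ) := rfl
    rw [h1, ← LinearMap.det_toMatrix Complex.basisOneI, Matrix.det_fin_two]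
    simp only [LinearMap.toMatrix_apply, Complex.coe_basisOneI_repr, Complex.coe_basisOneI,
      Matrix.cons_val_zero, Matrix.cons_val_one, ContinuousLinearMap.coe_coe]
    rfl
  set α : ℂ := (a - Complex.I * b) / 2 with hα
  set β : ℂ := (a + Complex.I * b) / 2 with hβ
  have hAv : ∀ v : ℂ, A v - α * v = β * (starRingEnd ℂ) v := by
    intro v
    have h1 : A v = v.re * a + v.im * b := by
      have h2 : v = v.re • (1 : ℂ) + v.im • Complex.I := by
        simp [Complex.re_add_im]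
      conv_lhs => rw [h2]
      rw [map_add, map_smul, map_smul]
      simp [ha, hb]
    rw [h1, hα, hβ]
    apply Complex.ext
    · simp; ring
    · simp; ring
  have hn : ‖β‖ < ‖α‖ := by
    have h1 : ‖α‖ ^ 2 - ‖β‖ ^ 2 = A.det := by
      rw [hdet, Complex.sq_norm, Complex.sq_norm, Complex.normSq_apply, Complex.normSq_apply, hα,
        hβ]
      simp
      ring
    have h2 : ‖β‖ ^ 2 < ‖α‖ ^ 2 := by linarith
    exact lt_of_pow_lt_pow_left₀ 2 (norm_nonneg _) h2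
  refine ⟨α, ‖α‖ - ‖β‖, by linarith, fun v => ?_⟩
  rw [hAv v, norm_mul, RCLike.norm_conj]
  apply le_of_eq
  ring

theorem QO_log {f : ℂ → ℂ} {S : Set ℂ} {α : ℂ} (hf : ContinuousOn f S)
    (h : ∀ z ∈ S, ‖f z - α‖ < ‖α‖) : HasLog f S := by
  rcases S.eq_empty_or_nonempty with he | ⟨z₀, hz₀⟩
  · subst he
    exact ⟨fun _ => 0, continuousOn_const, fun z hz => absurd hz (notMem_empty z)⟩
  have hα : α ≠ 0 := norm_pos_iff.1 ((norm_nonneg _).trans_lt (h z₀ hz₀))
  have hslit : ∀ z ∈ S, f z / α ∈ Complex.slitPlane := by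
    intro z hz
    refine Complex.ball_one_subset_slitPlane ?_
    rw [mem_ball, dist_eq_norm]
    have h1 : f z / α - 1 = (f z - α) / α := by field_simp
    rw [h1, norm_div, div_lt_one (norm_pos_iff.2 hα)]
    exact h z hz
  refine ⟨fun z => Complex.log (f z / α) + Complex.log α,
    ((hf.div_const α).clog hslit).add continuousOn_const, fun z hz => ?_⟩
  rw [Complex.exp_add, Complex.exp_log (Complex.slitPlane_ne_zero (hslit z hz)),
    Complex.exp_log hα, div_mul_cancel₀ _ hα]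

/-- the quotient is close to the conformal part -/
theorem QO_near {g : ℂ → ℂ} {P : ℂ} {B : ℂ →L[ℝ] ℂ} (hg : HasFDerivAt g B P)
    (hgP : g P = P) {A : ℂ →L[ℝ] ℂ} {F : ℂ → ℂ} (hA : 0 < A.det)
    (hF : ∀ z, F z = g z - P - B (z - P) + A (z - P)) :
    ∃ α : ℂ, ∀ᶠ z in 𝓝 P, z ≠ P → ‖F z / (z - P) - α‖ < ‖α‖ := by
  obtain ⟨α, m, hm, hα⟩ := QO_lin A hA
  refine ⟨α, ?_⟩
  have h1 := hg.isLittleO.def (half_pos hm)
  filter_upwards [h1] with z hz hzP
  rw [hgP] at hz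
  have hv : z - P ≠ 0 := sub_ne_zero.2 hzP
  have hv' : 0 < ‖z - P‖ := norm_pos_iff.2 hv
  have h2 : F z / (z - P) - α = ((g z - P - B (z - P)) + (A (z - P) - α * (z - P))) / (z - P) := by
    rw [hF z]; field_simp; ring
  rw [h2, norm_div, div_lt_iff₀ hv']
  refine (norm_add_le _ _).trans_lt ?_
  have h3 := hα (z - P)
  nlinarith

theorem orient_log {h : ℂ → ℂ} (hc : ContinuousOn h (closedBall 0 1))
    (hi : InjOn h (closedBall 0 1)) {w₀ : ℂ} (hw : w₀ ∈ ball (0:ℂ) 1) (h0 : h w₀ = 0)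
    (hd : DifferentiableAt ℝ h w₀) (hdet : 0 < (fderiv ℝ h w₀).det) :
    HasLog (fun z => h z / z) (sphere 0 1) := by
  classical
  -- the logarithm near `w₀`
  have hg : HasFDerivAt (fun z => h z + w₀) (fderiv ℝ h w₀) w₀ := hd.hasFDerivAt.add_const w₀
  obtain ⟨α, hα⟩ := QO_near hg (by simp only [h0, zero_add]) (F := fun z => h z) hdet (by
    intro z
    ring)
  obtain ⟨r, hr, hball⟩ := Metric.nhds_basis_closedBall.mem_iff.1
    (hα.and (isOpen_ball.mem_nhds hw))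
  have hrb : closedBall w₀ r ⊆ ball (0:ℂ) 1 := fun z hz => (hball hz).2
  have hne : ∀ z ∈ sphere w₀ r, z ≠ w₀ := by
    intro z hz h
    rw [h, mem_sphere, dist_self] at hz
    exact hr.ne hz
  have hsub : sphere w₀ r ⊆ closedBall w₀ r := sphere_subset_closedBall
  have hq : ContinuousOn (fun z => h z / (z - w₀)) (closedBall 0 1 \ {w₀}) := by
    refine (hc.mono diff_subset).div (by fun_prop) fun z hz => ?_
    exact sub_ne_zero.2 hz.2
  have hlog : HasLog (fun z => h z / (z - w₀)) (sphere w₀ r) := by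
    refine QO_log (α := α) (hq.mono fun z hz => ⟨?_, hne z hz⟩) fun z hz => ?_
    · exact ball_subset_closedBall (hrb (hsub hz))
    · exact (hball (hsub hz)).1 (hne z hz)
  obtain ⟨L₀, hL₀, hL₀E⟩ := hlog
  -- extension
  obtain ⟨g, hgL⟩ : ∃ g : C(ℂ, ℂ), ∀ z ∈ sphere w₀ r, g z = L₀ z := by
    obtain ⟨g, hg⟩ := ContinuousMap.exists_restrict_eq (Y := ℂ)
      (Metric.isClosed_sphere (x := w₀) (ε := r)) ⟨_, hL₀.restrict⟩
    refine ⟨g, fun z hz => ?_⟩
    have := congrArg (fun f : C(sphere w₀ r, ℂ) => f ⟨z, hz⟩) hg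
    exact this
  set F : ℂ → ℂ := fun z => if ‖z - w₀‖ ≤ r then Complex.exp (g z) else h z / (z - w₀) with hF
  have hF1 : ∀ z, ‖z - w₀‖ ≤ r → F z = Complex.exp (g z) := fun z hz => if_pos hz
  have hF2 : ∀ z, r ≤ ‖z - w₀‖ → F z = h z / (z - w₀) := by
    intro z hz
    rcases hz.eq_or_lt with h1 | h1
    · rw [hF1 z h1.symm.le]
      have hzs : z ∈ sphere w₀ r := by rw [mem_sphere, dist_eq_norm]; exact h1.symm
      rw [hgL z hzs]
      exact (hL₀E z hzs).symm
    · exact if_neg (not_le.2 h1)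
  have hne' : ∀ z, r ≤ ‖z - w₀‖ → z ≠ w₀ := by
    rintro z hz rfl
    rw [sub_self, norm_zero] at hz
    exact absurd hr (not_lt.2 hz)
  have hFc : ContinuousOn F (closedBall 0 1) := by
    have hcov : closedBall (0:ℂ) 1 = (closedBall 0 1 ∩ {z | ‖z - w₀‖ ≤ r}) ∪
        (closedBall 0 1 ∩ {z | r ≤ ‖z - w₀‖}) := by
      ext z
      constructor
      · intro hz
        rcases le_total ‖z - w₀‖ r with h1 | h1
        · exact Or.inl ⟨hz, h1⟩
        · exact Or.inr ⟨hz, h1⟩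
      · rintro (h1 | h1) <;> exact h1.1
    rw [hcov]
    apply ContinuousOn.union_of_isClosed
    · refine ((Complex.continuous_exp.comp g.continuous).continuousOn).congr ?_
      rintro z ⟨-, hz⟩
      exact hF1 z hz
    · refine (hq.mono ?_).congr ?_
      · rintro z ⟨hz, hz2⟩
        exact ⟨hz, hne' z hz2⟩
      · rintro z ⟨-, hz⟩
        exact hF2 z hz
    · exact isClosed_closedBall.inter (isClosed_le (by fun_prop) continuous_const)
    · exact isClosed_closedBall.inter (isClosed_le continuous_const (by fun_prop))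
  have hF0 : ∀ z ∈ closedBall (0:ℂ) 1, F z ≠ 0 := by
    intro z hz
    rcases le_total ‖z - w₀‖ r with h1 | h1
    · rw [hF1 z h1]
      exact Complex.exp_ne_zero _
    · rw [hF2 z h1]
      refine div_ne_zero (fun h2 => hne' z h1 ?_) (sub_ne_zero.2 (hne' z h1))
      exact hi hz (ball_subset_closedBall hw) (h2.trans h0.symm)
  obtain ⟨L, hL, hLE⟩ := allLogs_closedBall 0 1 F hFc hF0
  have hs : sphere (0:ℂ) 1 ⊆ closedBall 0 1 := sphere_subset_closedBall
  have hs0 : ∀ z ∈ sphere (0:ℂ) 1, z ≠ 0 := by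
    intro z hz h
    rw [h, mem_sphere, dist_self] at hz
    exact zero_ne_one hz
  have hs1 : ∀ z ∈ sphere (0:ℂ) 1, r ≤ ‖z - w₀‖ := by
    intro z hz
    by_contra h1
    push Not at h1
    have h2 : z ∈ ball (0:ℂ) 1 := hrb (by rw [mem_closedBall, dist_eq_norm]; exact h1.le)
    rw [mem_ball] at h2
    rw [mem_sphere] at hz
    linarith
  have hsl : ∀ z ∈ sphere (0:ℂ) 1, 1 - w₀ / z ∈ Complex.slitPlane := by
    intro z hz
    refine Complex.ball_one_subset_slitPlane ?_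
    rw [mem_ball, dist_eq_norm]
    have h1 : 1 - w₀ / z - 1 = -(w₀ / z) := by ring
    rw [h1, norm_neg, norm_div, mem_sphere_zero_iff_norm.1 hz, div_one]
    exact mem_ball_zero_iff.1 hw
  refine ⟨fun z => L z + Complex.log (1 - w₀ / z), ?_, fun z hz => ?_⟩
  · refine (hL.mono hs).add (ContinuousOn.clog ?_ hsl)
    exact continuousOn_const.sub (continuousOn_const.div continuousOn_id hs0)
  · have hz0 := hs0 z hz
    have hz1 : z - w₀ ≠ 0 := sub_ne_zero.2 (hne' z (hs1 z hz))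
    change h z / z = _
    rw [Complex.exp_add, Complex.exp_log (Complex.slitPlane_ne_zero (hsl z hz)),
      ← hLE z (hs hz), hF2 z (hs1 z hz)]
    field_simp

end DG

end S_H36_DG_QO

section S_H36_DG_QC

/-!
QC (extension to the closed disc; block B4).
`exists_norm`: `riem_coord` and `qc_extend` (DG/GB) give `hb`, `hbi` (EndMap of the identity); `e = ⟨hb, hbi, θN⟩` with `θN` the restriction of `θ` to
`N` (`Dom.theta_mem` in CV/DK).  The fields of `Norm` are those of `EndMap`; `equi`: for `x` in the open disc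
`hb (F.act c x) = v (G (ψ (v (A c (ψ x))))) = v (G (A c (ψ x))) = v (A (θ c) (G (ψ x))) = F.act (θ c) (hb x)` (`Act`; `A c` maps `fil X U` to itself, `fil_inv`),
both sides are continuous on the closed disc (`act_cont`), and the open disc is dense in it.  `orient`: `orient_log` with `w₀ = hbi 0` (the derivative of `hb` at a
point of the open disc is that of `v ∘ G ∘ ψ`).
`exists_lf'`: apply `exists_norm` to `Lift.mul (Lift.pow ..)` with the domain data `Dom.mul (Dom.pow ..)`.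
-/

namespace CV

open Metric Set Filter Topology Function DS TN

section
variable {S : Type} [MetricSpace S] [CompactSpace S] {X : Set ℂ} {Γ : Type} [Group Γ]
  {A : Γ → ℂ → ℂ} {p : ℂ → S} {g gi : S → S} {G Gi : ℂ → ℂ} {θ : Γ ≃* Γ} {ρ : ℂ → ℝ}
  {U : Set ℂ} {N : Subgroup Γ} {ψ v : ℂ → ℂ} {F : Fuchs N}

/-- the restriction of `θ` to the stabiliser -/
def QC_theta (D : Deck X A p) (L : Lift X A p g gi G Gi θ ρ) (M : Dom X A p g G U N) : N ≃* N where
  toFun d := ⟨θ d, (M.theta_mem D L d).2 d.2⟩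
  invFun d := ⟨θ.symm d, (M.theta_mem D L (θ.symm d)).1 (by rw [MulEquiv.apply_symm_apply]; exact d.2)⟩
  left_inv d := Subtype.ext (by simp)
  right_inv d := Subtype.ext (by simp)
  map_mul' d d' := Subtype.ext (by simp)

theorem exists_norm (D : Deck X A p) (L : Lift X A p g gi G Gi θ ρ) (M : Dom X A p g G U N)
    (R : Riem (fil X U) ψ v) (hF : Act A ψ v F) :
    ∃ e : Elt N, Norm F e ∧ (∀ z ∈ ball (0:ℂ) 1, e.H z = v (G (ψ z))) ∧
      (∀ z ∈ ball (0:ℂ) 1, e.Hi z = v (Gi (ψ z))) ∧ ∀ d : N, ((e.θ d : N) : Γ) = θ d := by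
  obtain ⟨c1, c1i, m, mi, il, ir, ⟨Kq, hq, hqi⟩, hdet⟩ := riem_coord D L M R
  obtain ⟨hb, hbi, hE⟩ := DG.qc_extend c1 c1i m mi il ir hq hqi
  obtain ⟨mG, mGi⟩ := fil_maps D L M
  have hbe : ∀ z ∈ ball (0:ℂ) 1, hb z = v (G (ψ z)) := hE.be
  have hbie : ∀ z ∈ ball (0:ℂ) 1, hbi z = v (Gi (ψ z)) := hE.bie
  have hcl : closure (ball (0:ℂ) 1) = closedBall 0 1 := closure_ball _ one_ne_zero
  have hsub : ball (0:ℂ) 1 ⊆ closedBall 0 1 := ball_subset_closedBall
  refine ⟨⟨hb, hbi, QC_theta D L M⟩, ⟨hE.bc, hE.bic, hE.bo, hE.bio, hE.bs, hE.bis, hE.bib, hE.bbi,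
    ?_, ?_⟩, hbe, hbie, fun d => rfl⟩
  · intro c
    have hmaps : ∀ d : N, MapsTo (F.act d) (closedBall 0 1) (closedBall 0 1) := by
      intro d x hx
      rw [mem_closedBall_zero_iff] at hx ⊢
      exact mob_closedBall (F.hu d) (F.hb d) hx
    have hmapsb : ∀ d : N, MapsTo (F.act d) (ball 0 1) (ball 0 1) := by
      intro d x hx
      rw [mem_ball_zero_iff] at hx ⊢
      exact mob_ball (F.hu d) (F.hb d) hx
    have hbm : MapsTo hb (closedBall 0 1) (closedBall 0 1) := hE.bm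
    have key : EqOn (fun x => hb (F.act c x)) (fun x => F.act (QC_theta D L M c) (hb x))
        (ball 0 1) := by
      intro x hx
      have hW : ψ x ∈ fil X U := R.mψ hx
      have hcW : A (c : Γ) (ψ x) ∈ fil X U := by
        rw [← fil_inv D M c.2]
        exact mem_image_of_mem _ hW
      show hb (F.act c x) = F.act (QC_theta D L M c) (hb x)
      rw [hbe _ (hmapsb c hx), hF c x hx, R.ψv _ hcW, L.equi _ _ hW.1, hbe x hx,
        hF _ _ (R.mv (mG hW)), R.ψv _ (mG hW)]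
      rfl
    have h2 : EqOn (fun x => hb (F.act c x)) (fun x => F.act (QC_theta D L M c) (hb x))
        (closedBall 0 1) := by
      have hac : ∀ d : N, ContinuousOn (F.act d) (closedBall 0 1) := fun d => mob_cont (F.hb d)
      apply key.of_subset_closure (hE.bc.comp (hac c) (hmaps c))
        ((hac _).comp hE.bc hbm) hsub
      rw [hcl]
    exact fun x hx => h2 hx
  · have h0 : (0:ℂ) ∈ ball (0:ℂ) 1 := mem_ball_self one_pos
    have hw : hbi 0 ∈ ball (0:ℂ) 1 := hE.bio h0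
    have hev : hb =ᶠ[𝓝 (hbi 0)] fun z => v (G (ψ z)) := by
      filter_upwards [isOpen_ball.mem_nhds hw] with z hz
      exact hbe z hz
    have hd : DifferentiableAt ℝ (fun z => v (G (ψ z))) (hbi 0) :=
      (c1.contDiffAt (isOpen_ball.mem_nhds hw)).differentiableAt (by norm_num)
    refine DG.orient_log hE.bc ?_ hw (hE.bbi 0 (hsub h0)) (hev.differentiableAt_iff.2 hd) ?_
    · intro a ha b hb' hab
      have hab' : hb a = hb b := hab
      rw [← hE.bib a ha, hab', hE.bib b hb']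
    · rw [hev.fderiv_eq]
      exact hdet _ hw

theorem exists_lf' (D : Deck X A p) (L : Lift X A p g gi G Gi θ ρ) (M : Dom X A p g G U N)
    (R : Riem (fil X U) ψ v) (hF : Act A ψ v F) {n : ℕ} (hn : 0 < n) (c : N) :
    ∃ e, Lf A G Gi θ ψ v F n c e := by
  obtain ⟨θn, hθn, Ln⟩ := Lift.pow D L n
  have Lm := Lift.mul D Ln (c : Γ)
  have Mm := Dom.mul (Dom.pow L.cg M hn) c.2
  obtain ⟨e, h1, h2, h3, h4⟩ := exists_norm D Lm Mm R hF
  refine ⟨e, h1, h2, h3, fun d => ?_⟩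
  rw [h4, ← hθn]
  rfl

end

end CV

end S_H36_DG_QC

section S_H36_DG_SE

/-!
SE (a lift extends to a homeomorphism of the sphere).  Case `X = univ`: `sphere_ext` (DG/GD) for `G`, `Gi` (continuous, inverse to each other on `univ`).
Case `X = ball 0 1`: `qc_lift` for `G` and (by `Lift.symm`) for `Gi`, `qc_extend` (DG/GB) with `h = G`, `hi = Gi`, `cone_extend` (DG/GC), `sphere_ext`.
-/

namespace CV

open Metric Set Filter Topology Function DS TN

section
variable {S : Type} [MetricSpace S] [CompactSpace S] {X : Set ℂ} {Γ : Type} [Group Γ]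
  {A : Γ → ℂ → ℂ} {p : ℂ → S} {g gi : S → S} {G Gi : ℂ → ℂ} {θ : Γ ≃* Γ} {ρ : ℂ → ℝ}

/-- a lift extends to a homeomorphism of the plane -/
theorem plane_lift (D : Deck X A p) (L : Lift X A p g gi G Gi θ ρ) :
    ∃ H Hi : ℂ → ℂ, Continuous H ∧ Continuous Hi ∧ (∀ z, Hi (H z) = z) ∧ (∀ z, H (Hi z) = z) ∧
      (∀ z ∈ X, H z = G z) ∧ ∀ z ∈ X, Hi z = Gi z := by
  rcases D.hX with ⟨hX, -⟩ | ⟨hX, -⟩
  · refine ⟨G, Gi, ?_, ?_, fun z => ?_, fun z => ?_, fun z _ => rfl, fun z _ => rfl⟩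
    · rw [← continuousOn_univ, ← hX]
      exact L.c1.continuousOn
    · rw [← continuousOn_univ, ← hX]
      exact L.c1i.continuousOn
    · exact L.GiG z (hX ▸ mem_univ z)
    · exact L.GGi z (hX ▸ mem_univ z)
  · obtain ⟨K1, hK1⟩ := qc_lift D L
    obtain ⟨K2, hK2⟩ := qc_lift D (Lift.symm D L)
    have c1 := L.c1
    have c1i := L.c1i
    have mG := L.mG
    have mGi := L.mGi
    have GiG := L.GiG
    have GGi := L.GGi
    rw [hX] at hK1 hK2 c1 c1i mG mGi GiG GGi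
    obtain ⟨hb, hbi, hE⟩ := DG.qc_extend c1 c1i mG mGi GiG GGi (Kq := max K1 K2)
      (fun z hz => (hK1 z hz).trans
        (mul_le_mul_of_nonneg_right (le_max_left _ _) (abs_nonneg _)))
      (fun z hz => (hK2 z hz).trans
        (mul_le_mul_of_nonneg_right (le_max_right _ _) (abs_nonneg _)))
    obtain ⟨H, Hi, h1, h2, h3, h4, -, -, h7, h8, -⟩ := DG.cone_extend hE
    rw [hX]
    exact ⟨H, Hi, h1, h2, h3, h4, h7, h8⟩

theorem sphere_lift (D : Deck X A p) (L : Lift X A p g gi G Gi θ ρ) {O : S2} {pp : S2 → ℂ}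
    {q : ℂ → S2} (hS : SC O pp q) :
    ∃ gs gsi : S2 → S2, Continuous gs ∧ Continuous gsi ∧ (∀ x, gsi (gs x) = x) ∧
      (∀ x, gs (gsi x) = x) ∧ (∀ z ∈ X, gs (q z) = q (G z)) ∧ ∀ z ∈ X, gsi (q z) = q (Gi z) := by
  obtain ⟨H, Hi, h1, h2, h3, h4, h5, h6⟩ := plane_lift D L
  obtain ⟨gs, gsi, g1, g2, g3, g4, -, -, g7, g8, -, -⟩ := DG.sphere_ext hS h1 h2 h3 h4
  exact ⟨gs, gsi, g1, g2, g3, g4, fun z hz => by rw [g7, h5 z hz], fun z hz => by rw [g8, h6 z hz]⟩

end

end CV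

end S_H36_DG_SE
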