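import Pool.Agent.H12.KS.K21

/-! Joined modules of the proof of MP_8a27c0_an (one section per module). -/

section S_H36_DS_SV

/-!
SV (charts and velocities).
`vel_emb`: the inclusion `S2 → E3` is smooth (`contMDiff_coe_sphere`) with injective differential
(`mfderiv_coe_sphere_injective`), `κ` is `C¹` with `χ ∘ κ = id`, so its differential is injective; `mfderiv = fderiv` between
vector spaces, `contMDiff_iff_contDiff`.
`vel_chart`: let `χ' : E3 → ℂ`, `χ' x = χ (x / ‖x‖)` (defined near the point `α t₀`; the retraction `x ↦ x / ‖x‖` to the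
sphere is smooth off `0`: `ContMDiff.codRestrict_sphere`); `χ ∘ α = χ' ∘ (coe ∘ α)` is differentiable at `t₀` by the chain rule;
near `t₀` `α = κ ∘ χ ∘ α`, so `coe ∘ α = (coe ∘ κ) ∘ (χ ∘ α)` and the chain rule gives the formula for `v`.
`chart_deriv`: `B` is the composition of `mfderiv` of `κ` at `χ P`, of `g` at `P`, and of `χ` at `P`
(`P ≠ O`, the set `{O}ᶜ` is open); `mfderiv κ` and `mfderiv χ` are mutually inverse, so `B` is conjugate to the differential of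
`g`; `LinearMap.det_conj`, `LinearMap.trace_conj'`.
`chart_c1`: composition of `C¹` maps on the open set.
-/

namespace DS
open Metric Set Filter Topology Function
open scoped Manifold ContDiff

theorem SV_mdiff {α : ℝ → S2} {v : E3} {t₀ : ℝ}
    (hα : HasDerivAt (fun t => (α t : E3)) v t₀) : MDifferentiableAt 𝓘(ℝ, ℝ) (𝓡 2) α t₀ := by
  rw [mdifferentiableAt_iff_target]
  constructor
  · rw [Topology.IsInducing.subtypeVal.continuousAt_iff]
    exact hα.continuousAt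
  · rw [mdifferentiableAt_iff_differentiableAt]
    let U : _ ≃ₗᵢ[ℝ] _ :=
      (OrthonormalBasis.fromOrthogonalSpanSingleton
        2 (ne_zero_of_mem_unit_sphere (-(α t₀)))).repr
    have hU : ContDiff ℝ 1 U := U.contDiff
    have h1 : DifferentiableAt ℝ (stereoToFun ((-(α t₀) : S2) : E3)) (α t₀ : E3) := by
      have h2 : ContDiffOn ℝ 1 (stereoToFun ((-(α t₀) : S2) : E3))
          {x : E3 | innerSL ℝ ((-(α t₀) : S2) : E3) x ≠ (1 : ℝ)} := contDiffOn_stereoToFun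
      refine (h2.differentiableOn (by norm_num)).differentiableAt ?_
      refine IsOpen.mem_nhds ?_ ?_
      · exact isOpen_ne.preimage (innerSL ℝ ((-(α t₀) : S2) : E3)).continuous
      · have h3 : ‖(α t₀ : E3)‖ = 1 := by simp
        show innerSL ℝ ((-(α t₀) : S2) : E3) (α t₀ : E3) ≠ (1 : ℝ)
        rw [innerSL_apply_apply]
        have h5 : ((-(α t₀) : S2) : E3) = -(α t₀ : E3) := rfl
        rw [h5, inner_neg_left, real_inner_self_eq_norm_sq, h3]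
        norm_num
    have h4 : DifferentiableAt ℝ (fun t => stereoToFun ((-(α t₀) : S2) : E3) (α t : E3)) t₀ :=
      DifferentiableAt.comp (g := stereoToFun ((-(α t₀) : S2) : E3)) t₀ h1 hα.differentiableAt
    have h6 := ((hU.differentiable (by norm_num)).differentiableAt
      (x := stereoToFun ((-(α t₀) : S2) : E3) (α t₀ : E3))).comp t₀ h4
    convert! h6 using 1

theorem SV_kmd {O : S2} {χ : S2 → ℂ} {κ : ℂ → S2} (h : PC1 O χ κ) (z : ℂ) :
    MDifferentiableAt 𝓘(ℝ, ℂ) (𝓡 2) κ z :=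
  h.κ_smooth.mdifferentiable (by norm_num) z

theorem SV_xmd {O : S2} {χ : S2 → ℂ} {κ : ℂ → S2} (h : PC1 O χ κ) {x : S2} (hx : x ≠ O) :
    MDifferentiableAt (𝓡 2) 𝓘(ℝ, ℂ) χ x :=
  ((h.χ_smooth x hx).contMDiffAt (isOpen_compl_singleton.mem_nhds hx)).mdifferentiableAt
    (by norm_num)

theorem SV_coe : ContMDiff (𝓡 2) 𝓘(ℝ, E3) 1 (fun y : S2 => (y : E3)) := contMDiff_coe_sphere

theorem SV_XK {O : S2} {χ : S2 → ℂ} {κ : ℂ → S2} (h : PC1 O χ κ) (z : ℂ) (v : ℂ) :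
    mfderiv (𝓡 2) 𝓘(ℝ, ℂ) χ (κ z) (mfderiv 𝓘(ℝ, ℂ) (𝓡 2) κ z v) = v := by
  have h1 := (SV_xmd h (h.κ_ne z)).hasMFDerivAt.comp z (SV_kmd h z).hasMFDerivAt
  have h2 : HasMFDerivAt 𝓘(ℝ, ℂ) 𝓘(ℝ, ℂ) (χ ∘ κ) z
      (ContinuousLinearMap.id ℝ (TangentSpace 𝓘(ℝ, ℂ) z)) := by
    have h3 : χ ∘ κ = id := funext h.χκ
    rw [h3]
    exact hasMFDerivAt_id z
  have h4 := hasMFDerivAt_unique h1 h2
  exact congrArg (fun L => L v) h4

theorem vel_emb {O : S2} {χ : S2 → ℂ} {κ : ℂ → S2} (h : PC1 O χ κ) :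
    ContDiff ℝ 1 (fun z : ℂ => (κ z : E3)) ∧
      ∀ z, Function.Injective (fderiv ℝ (fun z : ℂ => (κ z : E3)) z) := by
  constructor
  · rw [← contMDiff_iff_contDiff]
    exact SV_coe.comp h.κ_smooth
  · intro z
    let L1 : E2 →L[ℝ] E3 := mfderiv (𝓡 2) 𝓘(ℝ, E3) (fun y : S2 => (y : E3)) (κ z)
    let L2 : ℂ →L[ℝ] E2 := mfderiv 𝓘(ℝ, ℂ) (𝓡 2) κ z
    have h1 : HasMFDerivAt 𝓘(ℝ, ℂ) 𝓘(ℝ, E3) ((fun y : S2 => (y : E3)) ∘ κ) z (L1.comp L2) :=
      (SV_coe.mdifferentiable (by norm_num) (κ z)).hasMFDerivAt.comp z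
      (SV_kmd h z).hasMFDerivAt
    have h2 : HasFDerivAt (fun z : ℂ => (κ z : E3)) (L1.comp L2) z := h1.hasFDerivAt
    rw [h2.fderiv]
    intro a b hab
    have h4 : L2 a = L2 b := mfderiv_coe_sphere_injective (κ z) hab
    have h5 := congrArg (fun u => mfderiv (𝓡 2) 𝓘(ℝ, ℂ) χ (κ z) u) h4
    have h6 := SV_XK h z a
    have h7 := SV_XK h z b
    exact h6.symm.trans (h5.trans h7)

theorem vel_chart {O : S2} {χ : S2 → ℂ} {κ : ℂ → S2} (h : PC1 O χ κ) {α : ℝ → S2} {v : E3}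
    {t₀ : ℝ} (hα : HasDerivAt (fun t => (α t : E3)) v t₀) (hO : α t₀ ≠ O) :
    ∃ V : ℂ, HasDerivAt (fun t => χ (α t)) V t₀ ∧
      v = fderiv ℝ (fun z : ℂ => (κ z : E3)) (χ (α t₀)) V := by
  have hm := SV_mdiff hα
  have h1 : MDifferentiableAt 𝓘(ℝ, ℝ) 𝓘(ℝ, ℂ) (fun t => χ (α t)) t₀ := (SV_xmd h hO).comp t₀ hm
  rw [mdifferentiableAt_iff_differentiableAt] at h1
  refine ⟨deriv (fun t => χ (α t)) t₀, h1.hasDerivAt, ?_⟩
  have h2 : HasFDerivAt (fun z : ℂ => (κ z : E3))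
      (fderiv ℝ (fun z : ℂ => (κ z : E3)) (χ (α t₀))) (χ (α t₀)) :=
    ((vel_emb h).1.differentiable (by norm_num)).differentiableAt.hasFDerivAt
  have h3 := h2.comp_hasDerivAt t₀ h1.hasDerivAt
  have h4 : (fun t => (α t : E3)) =ᶠ[𝓝 t₀] (fun z : ℂ => (κ z : E3)) ∘ fun t => χ (α t) := by
    filter_upwards [hm.continuousAt.eventually (isOpen_compl_singleton.mem_nhds hO)] with t ht
    show (α t : E3) = (κ (χ (α t)) : E3)
    rw [h.κχ _ ht]
  exact (hα.congr_of_eventuallyEq h4.symm).unique h3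

theorem pc1_comp {O : S2} {χ : S2 → ℂ} {κ : ℂ → S2} (h : PC1 O χ κ) {g gi : S2 → S2}
    (hg : ContMDiff (𝓡 2) (𝓡 2) 1 g) (hgi : ContMDiff (𝓡 2) (𝓡 2) 1 gi)
    (hggi : ∀ x, g (gi x) = x) (hgig : ∀ x, gi (g x) = x) :
    PC1 (g O) (fun x => χ (gi x)) (fun z => g (κ z)) where
  κ_smooth := hg.comp h.κ_smooth
  χ_smooth := by
    refine ContMDiffOn.comp (t := {O}ᶜ) (g := χ) (f := gi) h.χ_smooth hgi.contMDiffOn ?_
    intro x hx hx'
    apply hx
    have h1 : gi x = O := hx'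
    show x = g O
    rw [← h1, hggi]
  κ_ne := fun z hz => h.κ_ne z (by rw [← hgig (κ z), hz, hgig])
  χκ := fun z => by rw [hgig, h.χκ]
  κχ := fun x hx => by
    rw [h.κχ _ (fun h' => hx (by rw [← h', hggi])), hggi]

theorem pc1_plane {O : S2} {χ : S2 → ℂ} {κ : ℂ → S2} (h : PC1 O χ κ) {Φ Φi : ℂ → ℂ}
    (hΦ : ContDiff ℝ 1 Φ) (hΦi : ContDiff ℝ 1 Φi) (h1 : ∀ z, Φi (Φ z) = z)
    (h2 : ∀ z, Φ (Φi z) = z) : PC1 O (fun x => Φ (χ x)) (fun z => κ (Φi z)) where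
  κ_smooth := h.κ_smooth.comp hΦi.contMDiff
  χ_smooth := hΦ.contMDiff.comp_contMDiffOn h.χ_smooth
  κ_ne := fun z => h.κ_ne _
  χκ := fun z => by rw [h.χκ, h2]
  κχ := fun x hx => by rw [h1, h.κχ x hx]

theorem pchart_of_pc1 {O P : S2} {χ : S2 → ℂ} {κ : ℂ → S2} (h : PC1 O χ κ) {K : Set S2}
    (hO : O ∈ K) (h0 : κ 0 = P) : PChart K P O χ κ where
  hP' := hO
  κ_cont := h.κ_smooth.continuous
  κ_ne := h.κ_ne
  χκ := h.χκ
  κχ := h.κχ
  χ_cont := h.χ_smooth.continuousOn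
  κ0 := h0

theorem chart_c1 {O : S2} {χ : S2 → ℂ} {κ : ℂ → S2} (h : PC1 O χ κ) {g : S2 → S2}
    (hg : ContMDiff (𝓡 2) (𝓡 2) 1 g) :
    IsOpen {z | g (κ z) ≠ O} ∧ ContDiffOn ℝ 1 (fun z => χ (g (κ z))) {z | g (κ z) ≠ O} := by
  constructor
  · exact isOpen_compl_singleton.preimage (hg.continuous.comp h.κ_smooth.continuous)
  · rw [← contMDiffOn_iff_contDiffOn]
    exact ContMDiffOn.comp (t := {O}ᶜ) (g := χ) (f := fun z => g (κ z)) h.χ_smooth
      (hg.comp h.κ_smooth).contMDiffOn fun z hz => hz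

theorem SV_KX {O : S2} {χ : S2 → ℂ} {κ : ℂ → S2} (h : PC1 O χ κ) {x : S2} (hx : x ≠ O)
    (v : E2) :
    mfderiv 𝓘(ℝ, ℂ) (𝓡 2) κ (χ x) (mfderiv (𝓡 2) 𝓘(ℝ, ℂ) χ x v) = v := by
  have h1 := (SV_kmd h (χ x)).hasMFDerivAt.comp x (SV_xmd h hx).hasMFDerivAt
  have h2 : HasMFDerivAt (𝓡 2) (𝓡 2) (κ ∘ χ) x
      (ContinuousLinearMap.id ℝ (TangentSpace (𝓡 2) x)) := by
    refine (hasMFDerivAt_id x).congr_of_eventuallyEq ?_
    filter_upwards [isOpen_compl_singleton.mem_nhds hx] with y hy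
    exact h.κχ y hy
  have h4 := hasMFDerivAt_unique h1 h2
  exact congrArg (fun L => L v) h4

theorem chart_deriv {O : S2} {χ : S2 → ℂ} {κ : ℂ → S2} (h : PC1 O χ κ) {g : S2 → S2}
    (hg : ContMDiff (𝓡 2) (𝓡 2) 1 g) {P : S2} (hP : g P = P) (hO : P ≠ O) :
    ∃ B : ℂ →L[ℝ] ℂ, HasFDerivAt (fun z => χ (g (κ z))) B (χ P) ∧
      B.det = (iterDeriv g 1 P).det ∧ LinearMap.trace ℝ ℂ (B : ℂ →ₗ[ℝ] ℂ) = tr g 1 P := by
  let X : E2 →L[ℝ] ℂ := mfderiv (𝓡 2) 𝓘(ℝ, ℂ) χ P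
  let K : ℂ →L[ℝ] E2 := mfderiv 𝓘(ℝ, ℂ) (𝓡 2) κ (χ P)
  let G : E2 →L[ℝ] E2 := mfderiv (𝓡 2) (𝓡 2) g P
  have hG : iterDeriv g 1 P = G := by
    unfold iterDeriv
    rw [iterate_one]
  have hκP : κ (χ P) = P := h.κχ P hO
  have hX : HasMFDerivAt (𝓡 2) 𝓘(ℝ, ℂ) χ P X := (SV_xmd h hO).hasMFDerivAt
  have hK : HasMFDerivAt 𝓘(ℝ, ℂ) (𝓡 2) κ (χ P) K := (SV_kmd h (χ P)).hasMFDerivAt
  have hGd : HasMFDerivAt (𝓡 2) (𝓡 2) g P G := (hg.mdifferentiable (by norm_num) P).hasMFDerivAt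
  have hGd' : HasMFDerivAt (𝓡 2) (𝓡 2) g (κ (χ P)) G := by rw [hκP]; exact hGd
  have hX' : HasMFDerivAt (𝓡 2) 𝓘(ℝ, ℂ) χ ((g ∘ κ) (χ P)) X := by
    have : (g ∘ κ) (χ P) = P := by rw [comp_apply, hκP, hP]
    rw [this]; exact hX
  have hB : HasMFDerivAt 𝓘(ℝ, ℂ) 𝓘(ℝ, ℂ) (χ ∘ (g ∘ κ)) (χ P) (X.comp (G.comp K)) :=
    hX'.comp (χ P) (hGd'.comp (χ P) hK)
  have hXK : ∀ v, X (K v) = v := by
    intro v
    have := SV_XK h (χ P) v
    rw [hκP] at this
    exact this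
  have hKX : ∀ v, K (X v) = v := fun v => SV_KX h hO v
  refine ⟨X.comp (G.comp K), hB.hasFDerivAt, ?_, ?_⟩
  all_goals
    let e : E2 ≃ₗ[ℝ] ℂ := LinearEquiv.ofLinearMap (X : E2 →ₗ[ℝ] ℂ) (K : ℂ →ₗ[ℝ] E2)
      (LinearMap.ext fun v => hXK v) (LinearMap.ext fun v => hKX v)
  · rw [hG]
    have := LinearMap.det_conj (G : E2 →ₗ[ℝ] E2) e
    exact this
  · unfold tr
    rw [hG]
    have := LinearMap.trace_conj' (G : E2 →ₗ[ℝ] E2) e
    exact this

end DS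

end S_H36_DS_SV

section S_H36_DS_XA

/-!
XA (stereographic charts).  Proof.  Mathlib: `stereographic' 2 O : OpenPartialHomeomorph S2 E2` has source `{O}ᶜ` and
target `univ`; the chart at the point `x` of the manifold structure is `stereographic' 2 (-x)`, so `stereographic' 2 O` is
the chart at `-O` (in the atlas), hence smooth with smooth inverse (`contMDiffOn_chart`, `contMDiffOn_chart_symm`).  Compose with the
linear isometry `E2 ≃ₗᵢ[ℝ] ℂ` (`Complex.orthonormalBasisOneI.repr`).  `q_lim`: `q` is a homeomorphism from the plane onto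
the complement of `O` in a compact space: for an open neighbourhood `U` of `O` the set `p '' Uᶜ` is compact, and outside of
it `q` is in `U`.  `p_lim`: for a compact `C` of the plane `q '' C` is compact, so closed, and does not contain `O`.
-/

namespace DS
open Metric Set Filter Topology Function
open scoped Manifold ContDiff

theorem exists_SC (O : S2) : ∃ (p : S2 → ℂ) (q : ℂ → S2), SC O p q := by
  set e : ℂ ≃ₗᵢ[ℝ] E2 := Complex.orthonormalBasisOneI.repr with he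
  set s : OpenPartialHomeomorph S2 E2 := stereographic' 2 O with hs
  have hsrc : s.source = {O}ᶜ := stereographic'_source O
  have htgt : s.target = univ := stereographic'_target O
  have hchart : chartAt E2 (-O) = s := by
    change stereographic' 2 (- -O) = _
    rw [neg_neg]
  have hs1 : ContMDiffOn (𝓡 2) (𝓡 2) 1 s {O}ᶜ := by
    have := contMDiffOn_chart (I := 𝓡 2) (n := 1) (H := E2) (x := -O)
    rw [hchart, hsrc] at this
    exact this
  have hs2 : ContMDiff (𝓡 2) (𝓡 2) 1 s.symm := by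
    have := contMDiffOn_chart_symm (I := 𝓡 2) (n := 1) (H := E2) (x := -O)
    rw [hchart, htgt] at this
    exact contMDiffOn_univ.mp this
  have he1 : ContMDiff (𝓡 2) 𝓘(ℝ, ℂ) 1 (e.symm : E2 → ℂ) :=
    (e.symm.toContinuousLinearEquiv : E2 →L[ℝ] ℂ).contMDiff
  have he2 : ContMDiff 𝓘(ℝ, ℂ) (𝓡 2) 1 (e : ℂ → E2) :=
    (e.toContinuousLinearEquiv : ℂ →L[ℝ] E2).contMDiff
  have hps : ContMDiffOn (𝓡 2) 𝓘(ℝ, ℂ) 1 (fun x => e.symm (s x)) {O}ᶜ := he1.comp_contMDiffOn hs1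
  have hqs : ContMDiff 𝓘(ℝ, ℂ) (𝓡 2) 1 (fun z => s.symm (e z)) := hs2.comp he2
  have hqne : ∀ z, s.symm (e z) ≠ O := by
    intro z h
    have h1 : s.symm (e z) ∈ s.source := s.map_target (by rw [htgt]; trivial)
    rw [hsrc] at h1
    exact h1 h
  have hpq : ∀ z, e.symm (s (s.symm (e z))) = z := by
    intro z
    rw [s.right_inv (by rw [htgt]; trivial), e.symm_apply_apply]
  have hqp : ∀ x, x ≠ O → s.symm (e (e.symm (s x))) = x := by
    intro x hx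
    rw [e.apply_symm_apply, s.left_inv (by rw [hsrc]; exact hx)]
  refine ⟨fun x => e.symm (s x), fun z => s.symm (e z), hqs, hps, hqne, hpq, hqp, ?_, ?_⟩
  · intro U hU
    rw [mem_map]
    obtain ⟨U', hU'U, hU'o, hOU'⟩ := _root_.mem_nhds_iff.mp hU
    have hK : IsCompact U'ᶜ := hU'o.isClosed_compl.isCompact
    have hKs : U'ᶜ ⊆ {O}ᶜ := by
      intro x hx h
      rw [mem_singleton_iff] at h
      exact hx (h ▸ hOU')
    have hpK : IsCompact ((fun x => e.symm (s x)) '' U'ᶜ) :=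
      hK.image_of_continuousOn (hps.continuousOn.mono hKs)
    refine mem_of_superset hpK.compl_mem_cocompact ?_
    intro z hz
    apply hU'U
    by_contra hcon
    exact hz ⟨s.symm (e z), hcon, hpq z⟩
  · intro U hU
    rw [mem_map]
    obtain ⟨C, hC, hCU⟩ := mem_cocompact.mp hU
    have hqC : IsCompact ((fun z => s.symm (e z)) '' C) := hC.image hqs.continuous
    have hO : O ∉ (fun z => s.symm (e z)) '' C := by
      rintro ⟨z, _, hz⟩
      exact hqne z hz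
    have h1 : ((fun z => s.symm (e z)) '' C)ᶜ ∈ 𝓝 O := hqC.isClosed.isOpen_compl.mem_nhds hO
    rw [mem_nhdsWithin_iff_eventually]
    filter_upwards [h1] with x hx hxO
    apply hCU
    intro hxC
    exact hx ⟨e.symm (s x), hxC, hqp x hxO⟩

theorem pc1_of_SC {O : S2} {p : S2 → ℂ} {q : ℂ → S2} (h : SC O p q) : PC1 O p q :=
  ⟨h.q_smooth, h.p_smooth, h.q_ne, h.pq, h.qp⟩

end DS

end S_H36_DS_XA
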