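import Pool.Agent.H12.KS.K20
import Pool.Agent.H12.KS.K24
import Pool.Agent.H12.KS.K29

/-! Joined modules of the proof of MP_8a27c0_an (one section per module). -/

section S_H36_DS_PH

/-!
PH (small separating sets are close to the prime end).  Proof.  WLOG `ε < 1`.  Let `δ` be the number of `L0` for
`ε / 4` and, by `fix_escape`, `r > 0` with `1 - ε / 4 < ‖u w‖` for `w ∈ W`, `‖w‖ ≤ r`; take
`r₁ < min r₀ r (δ/4)`.  `A` is nonempty (`W` is connected, `Sep` of the empty set is impossible: take `z` in the disc near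
`ζ`); let `w ∈ A`, `p = u w`; `u z ∈ ball p (ε/4)` for `z ∈ A` (`L0`), `‖p‖ > 1 - ε/4 > ε/4`.
`E = {z | ‖z‖ < 1 ∧ ε/4 ≤ dist z p}` is connected (`disc_minus_ball'`), contains `0`, misses `u '' A`; so `φ '' E` is
contained in the component `M₀` of `φ 0` in `W \ A`.  So `dist (u z) p < ε/4` for `z ∈ W \ M₀`.  By `Sep`, all `φ z` with `z` in the
disc near `ζ` are not in `M₀`, hence `dist ζ p ≤ ε/4`.  So `dist (u z) ζ ≤ ε/2 < ε` for `z ∈ W \ M₀` and for `z ∈ A`.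
-/

namespace DS
open Metric Set Filter Topology MeasureTheory

theorem sep_close {W : Set ℂ} {φ u G Gi : ℂ → ℂ} {μ : Measure ℂ} {ζ : ℂ} {r₀ : ℝ}
    (H : FixPE W φ u G Gi μ ζ r₀) : ∀ ε > 0, ∃ r₁ > 0, ∀ A ⊆ W ∩ closedBall 0 r₁,
      IsPreconnected A → Sep W φ ζ A → (∀ z ∈ A, dist (u z) ζ < ε) ∧
        ∀ z ∈ W, z ∉ connectedComponentIn (W \ A) (φ 0) → dist (u z) ζ < ε := by
  intro ε hε
  set e : ℝ := min ε 1 with he
  have he0 : 0 < e := lt_min hε one_pos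
  have he1 : e ≤ 1 := min_le_right _ _
  have heε : e ≤ ε := min_le_left _ _
  obtain ⟨δ, hδ, hL0⟩ := H.L0 (e / 4) (by positivity)
  obtain ⟨r, hr, hesc⟩ := fix_escape H (e / 4) (by positivity)
  refine ⟨min (min r₀ r) (δ / 4), lt_min (lt_min H.hr₀ hr) (by positivity), ?_⟩
  intro A hA hAc hsep
  obtain ⟨hφ0, ρ, hρ, hS⟩ := hsep
  -- a point of the disc near `ζ`
  obtain ⟨z₁, hz₁, hz₁ρ, hz₁e⟩ : ∃ z₁ ∈ ball (0:ℂ) 1, dist z₁ ζ < ρ ∧ dist z₁ ζ < e / 4 := by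
    set t : ℝ := min (ρ / 2) (e / 8) with ht
    have ht0 : 0 < t := lt_min (by positivity) (by positivity)
    have ht1 : t ≤ e / 8 := min_le_right _ _
    have ht2 : t ≤ ρ / 2 := min_le_left _ _
    have hd : dist (((1 - t : ℝ) : ℂ) * ζ) ζ = t := by
      rw [dist_eq_norm]
      have h1 : ((1 - t : ℝ) : ℂ) * ζ - ζ = ((-t : ℝ) : ℂ) * ζ := by push_cast; ring
      rw [h1, norm_mul, H.hζ, mul_one, Complex.norm_real, Real.norm_eq_abs, abs_neg,
        abs_of_pos ht0]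
    refine ⟨((1 - t : ℝ) : ℂ) * ζ, ?_, ?_, ?_⟩
    · rw [mem_ball_zero_iff, norm_mul, H.hζ, mul_one, Complex.norm_real, Real.norm_eq_abs,
        abs_of_pos (by linarith)]
      linarith
    · rw [hd]; linarith
    · rw [hd]; linarith
  -- `A` is nonempty
  have hAne : A.Nonempty := by
    by_contra hcon
    rw [not_nonempty_iff_eq_empty] at hcon
    have h1 := (hS z₁ hz₁ hz₁ρ).2
    rw [hcon, sdiff_empty] at h1
    exact h1 ((fix_conn H).isPreconnected.subset_connectedComponentIn hφ0.1 subset_rfl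
      (H.φ_maps hz₁))
  obtain ⟨w, hw⟩ := hAne
  have hnorm : ∀ z ∈ A, ‖z‖ ≤ min (min r₀ r) (δ / 4) := fun z hz => by
    simpa using (hA hz).2
  have hwr : ‖w‖ ≤ r := (hnorm w hw).trans ((min_le_left _ _).trans (min_le_right _ _))
  have hp := hesc w (hA hw).1 hwr
  have hclose : ∀ z ∈ A, dist (u z) (u w) < e / 4 := by
    intro z hz
    refine hL0 A ?_ hAc ?_ z hz w hw
    · intro x hx
      refine ⟨(hA hx).1, ?_⟩
      rw [mem_closedBall_zero_iff]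
      exact (hnorm x hx).trans ((min_le_left _ _).trans (min_le_left _ _))
    · intro x hx y hy
      have h1 := (hnorm x hx).trans (min_le_right _ _)
      have h2 := (hnorm y hy).trans (min_le_right _ _)
      have h3 : dist x y ≤ ‖x‖ + ‖y‖ := by rw [dist_eq_norm]; exact norm_sub_le x y
      linarith
  set E : Set ℂ := {z : ℂ | ‖z‖ < 1 ∧ e / 4 ≤ dist z (u w)} with hE
  have hEc : IsConnected E := disc_minus_ball' (by positivity) (by linarith)
  have hEb : E ⊆ ball 0 1 := fun z hz => by rw [mem_ball_zero_iff]; exact hz.1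
  have h0E : (0:ℂ) ∈ E := ⟨by simp, by rw [dist_comm, dist_zero_right]; linarith⟩
  have hsub : φ '' E ⊆ connectedComponentIn (W \ A) (φ 0) := by
    refine (hEc.isPreconnected.image φ (H.φ_cont.mono hEb)).subset_connectedComponentIn
      ⟨0, h0E, rfl⟩ ?_
    rintro _ ⟨z, hz, rfl⟩
    refine ⟨H.φ_maps (hEb hz), fun hzA => ?_⟩
    have h1 := hclose _ hzA
    rw [H.uφ z (hEb hz)] at h1
    exact absurd hz.2 (not_le.mpr h1)
  have hfar : ∀ z ∈ W, z ∉ connectedComponentIn (W \ A) (φ 0) → dist (u z) (u w) < e / 4 := by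
    intro z hz hz'
    by_contra hcon
    apply hz'
    apply hsub
    refine ⟨u z, ⟨?_, not_lt.mp hcon⟩, H.φu z hz⟩
    simpa using H.u_maps hz
  have hζp : dist ζ (u w) < e / 2 := by
    have h1 := hfar (φ z₁) (H.φ_maps hz₁) (hS z₁ hz₁ hz₁ρ).2
    rw [H.uφ z₁ hz₁] at h1
    have h2 := dist_triangle ζ z₁ (u w)
    rw [dist_comm ζ z₁] at h2
    linarith
  constructor
  · intro z hz
    have h1 := hclose z hz
    have h2 := dist_triangle (u z) (u w) ζ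
    rw [dist_comm (u w) ζ] at h2
    linarith
  · intro z hz hz'
    have h1 := hfar z hz hz'
    have h2 := dist_triangle (u z) (u w) ζ
    rw [dist_comm (u w) ζ] at h2
    linarith

end DS

end S_H36_DS_PH

section S_H36_DS_PG

/-!
PG (a small separating component meets its image).  Proof.  Let `m₀ = μ (φ '' ball 0 (1/2)) > 0`
(open nonempty: `φ '' O = W ∩ u ⁻¹' O`), and `ε < 1/2` with `μ (φ '' (ball 0 1 ∩ ball ζ ε)) < m₀` (`μ_small`);
take `r₁` from `sep_close` for this `ε`.  Let `A = cc W a b c d w ⊆ Rect ⊆ closedBall 0 r₁` be connected with `Sep`.  By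
`crosscut_sides` (`fix_conn`, `fix_logs`) there are sides `Cin`, `Cout`; the component `M` of `φ 0` in `W \ A` is one of
them (`φ 0 ∈ Cin ∪ Cout`, both open, connected, disjoint, so each is a connected component of their union `W \ A`),
let `Δ` be the other; `Sides W A Δ M` holds.  By `sep_close` `u '' Δ ⊆ ball ζ ε`, so `μ Δ < m₀`, `μ Δ ≠ ⊤`,
and `φ '' ball 0 (1/2) ⊆ M` (points of `W \ M` have `dist (u z) ζ < ε < 1/2`, so `‖u z‖ > 1/2`), so `μ Δ < μ M`.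
By `Sep` there is `ρ` with `φ z ∈ Δ` for all `z` in the disc with `dist z ζ < ρ`; by `fixζ` there is such a `z` with also
`dist (u (G (φ z))) ζ < ρ`, so `G (φ z) = φ (u (G (φ z))) ∈ Δ ∩ G '' Δ`.  Apply `area_abstract`.
-/

namespace DS
open Metric Set Filter Topology MeasureTheory

theorem PG_image {W : Set ℂ} {φ u G Gi : ℂ → ℂ} {μ : Measure ℂ} {ζ : ℂ} {r₀ : ℝ}
    (H : FixPE W φ u G Gi μ ζ r₀) {O : Set ℂ} (hO : O ⊆ ball 0 1) : φ '' O = W ∩ u ⁻¹' O := by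
  ext x
  constructor
  · rintro ⟨z, hz, rfl⟩
    exact ⟨H.φ_maps (hO hz), by rw [mem_preimage, H.uφ z (hO hz)]; exact hz⟩
  · rintro ⟨hx, hu⟩
    exact ⟨u x, hu, H.φu x hx⟩

theorem PG_sides {W : Set ℂ} {φ u G Gi : ℂ → ℂ} {μ : Measure ℂ} {ζ : ℂ} {r₀ : ℝ}
    (H : FixPE W φ u G Gi μ ζ r₀) {A Δ M : Set ℂ} (hS : Sides W A Δ M) (hA : IsConnected A) (hAW : A ⊆ W)
    {ρ0 ε : ℝ} (hε1 : ε ≤ ρ0) (hε2 : ε ≤ 1 / 2)
    (hμ : μ (φ '' (ball 0 1 ∩ ball ζ ρ0)) < μ (φ '' ball 0 (1 / 2)))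
    (hclose : ∀ z ∈ W, z ∉ connectedComponentIn (W \ A) (φ 0) → dist (u z) ζ < ε)
    (hsep : Sep W φ ζ A) (h0 : φ 0 ∈ M) : (A ∩ G '' A).Nonempty := by
  have hMW : M ⊆ W \ A := by rw [← hS.union]; exact subset_union_right
  have hΔW : Δ ⊆ W \ A := by rw [← hS.union]; exact subset_union_left
  have hM : connectedComponentIn (W \ A) (φ 0) = M := by
    apply Subset.antisymm
    · apply isPreconnected_connectedComponentIn.subset_right_of_subset_union hS.oΔ hS.oM hS.disj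
      · rw [hS.union]; exact connectedComponentIn_subset _ _
      · exact ⟨φ 0, mem_connectedComponentIn (hMW h0), h0⟩
    · exact hS.cM.isPreconnected.subset_connectedComponentIn h0 hMW
  rw [hM] at hclose
  have hΔ1 : Δ ⊆ φ '' (ball 0 1 ∩ ball ζ ρ0) := by
    intro z hz
    have hzW := (hΔW hz).1
    have hzM : z ∉ M := fun h => Set.disjoint_left.1 hS.disj hz h
    refine ⟨u z, ⟨H.u_maps hzW, ?_⟩, H.φu z hzW⟩
    exact lt_of_lt_of_le (hclose z hzW hzM) hε1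
  have hμΔ : μ Δ < μ (φ '' ball 0 (1 / 2)) := lt_of_le_of_lt (measure_mono hΔ1) hμ
  have hball : ball (0:ℂ) (1 / 2) ⊆ ball 0 1 := ball_subset_ball (by norm_num)
  have hM1 : φ '' ball 0 (1 / 2) ⊆ M := by
    rintro _ ⟨x, hx, rfl⟩
    by_contra hxM
    have h1 := hclose (φ x) (H.φ_maps (hball hx)) hxM
    rw [H.uφ x (hball hx)] at h1
    have h2 : ‖x‖ < 1 / 2 := by simpa using hx
    have h3 : ‖ζ‖ ≤ ‖x‖ + dist x ζ := by
      rw [dist_eq_norm]
      calc ‖ζ‖ = ‖x - (x - ζ)‖ := by ring_nf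
        _ ≤ _ := norm_sub_le _ _
    rw [H.hζ] at h3
    linarith
  have h1 : μ Δ < μ M := lt_of_lt_of_le hμΔ (measure_mono hM1)
  have h2 : μ Δ ≠ ⊤ := ne_top_of_lt h1
  obtain ⟨-, ρ, hρ, hsep⟩ := hsep
  rw [hM] at hsep
  have hΔin : ∀ z ∈ ball (0:ℂ) 1, dist z ζ < ρ → φ z ∈ Δ := by
    intro z hz hzρ
    obtain ⟨a1, a2⟩ := hsep z hz hzρ
    have : φ z ∈ Δ ∪ M := by rw [hS.union]; exact ⟨H.φ_maps hz, a1⟩
    exact this.resolve_right a2
  have hne : (𝓝[ball (0:ℂ) 1] ζ).NeBot := by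
    rw [← mem_closure_iff_nhdsWithin_neBot, closure_ball (0:ℂ) one_ne_zero]
    simp [H.hζ]
  have ev1 : ∀ᶠ z in 𝓝[ball (0:ℂ) 1] ζ, dist (u (G (φ z))) ζ < ρ := by
    have := H.fixζ (Metric.ball_mem_nhds ζ hρ)
    exact this
  have ev2 : ∀ᶠ z in 𝓝[ball (0:ℂ) 1] ζ, dist z ζ < ρ :=
    nhdsWithin_le_nhds (Metric.ball_mem_nhds ζ hρ)
  have ev3 : ∀ᶠ z in 𝓝[ball (0:ℂ) 1] ζ, z ∈ ball (0:ℂ) 1 := self_mem_nhdsWithin
  obtain ⟨z, ⟨hz1, hz2⟩, hz3⟩ := ((ev1.and ev2).and ev3).exists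
  have hzΔ := hΔin z hz3 hz2
  have hGW : G (φ z) ∈ W := H.G_maps (H.φ_maps hz3)
  have hGΔ : G (φ z) ∈ Δ := by
    have := hΔin (u (G (φ z))) (H.u_maps hGW) hz1
    rwa [H.φu _ hGW] at this
  exact area_abstract H.W_open hS hA hAW H.G_cont H.G_maps H.Gi_cont H.Gi_maps H.GiG H.GGi H.μ_inv H.μ_pos h1 h2
    ⟨_, hGΔ, φ z, hzΔ, rfl⟩

theorem area_meet {W : Set ℂ} {φ u G Gi : ℂ → ℂ} {μ : Measure ℂ} {ζ : ℂ} {r₀ : ℝ}
    (H : FixPE W φ u G Gi μ ζ r₀) : ∃ r₁ > 0, ∀ a b c d : ℝ, a < b → c < d →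
      Rect a b c d ⊆ closedBall 0 r₁ → ∀ w ∈ Bd a b c d ∩ W, Sep W φ ζ (cc W a b c d w) →
        (cc W a b c d w ∩ G '' cc W a b c d w).Nonempty := by
  have hball : ball (0:ℂ) (1 / 2) ⊆ ball 0 1 := ball_subset_ball (by norm_num)
  have hO : IsOpen (φ '' ball 0 (1 / 2)) := by
    rw [PG_image H hball]
    exact H.u_cont.isOpen_inter_preimage H.W_open isOpen_ball
  have hm0 : 0 < μ (φ '' ball 0 (1 / 2)) := by
    apply H.μ_pos _ _ hO
    · exact ⟨φ 0, 0, mem_ball_self (by norm_num), rfl⟩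
    · rintro _ ⟨x, hx, rfl⟩
      exact H.φ_maps (hball hx)
  obtain ⟨ρ0, hρ0, hμ⟩ := H.μ_small _ hm0
  obtain ⟨r₁, hr₁, hsc⟩ := sep_close H (min ρ0 (1 / 2)) (lt_min hρ0 (by norm_num))
  refine ⟨r₁, hr₁, ?_⟩
  intro a b c d hab hcd hR w hw hsep
  have hAsub : cc W a b c d w ⊆ Bd a b c d ∩ W := connectedComponentIn_subset _ _
  have hAW : cc W a b c d w ⊆ W := fun z hz => (hAsub hz).2
  have hAc : IsConnected (cc W a b c d w) := isConnected_connectedComponentIn_iff.2 hw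
  have hA2 := (hsc _ (fun z hz => ⟨(hAsub hz).2, hR (hAsub hz).1.1⟩) hAc.isPreconnected hsep).2
  obtain ⟨Cin, Cout, hS, -, -, -⟩ := crosscut_sides H.W_open (fix_conn H) (fix_logs H) hab hcd hw
  have h0 : φ 0 ∈ Cin ∪ Cout := by rw [hS.union]; exact hsep.1
  rcases h0 with h0 | h0
  · have hS' : Sides W (cc W a b c d w) Cout Cin :=
      ⟨hS.oM, hS.oΔ, hS.cM, hS.cΔ, hS.disj.symm, by rw [union_comm]; exact hS.union, hS.clM, hS.clΔ⟩
    exact PG_sides H hS' hAc hAW (min_le_left _ _) (min_le_right _ _) hμ hA2 hsep h0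
  · exact PG_sides H hS hAc hAW (min_le_left _ _) (min_le_right _ _) hμ hA2 hsep h0

end DS

end S_H36_DS_PG
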