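import Pool.Agent.H12.KS.K06

/-! Joined modules of the proof of MP_8a27c0_an (one section per module). -/

section S_H36_DS_IB

/-!
IB (additivity).  Proof.  Let `X = (⋃ i, O i)ᶜ`, `G z = f z * ∏ i, (z - k i) ^ (- n i)` on `X`: continuous and
nowhere zero.  For each `i` let `L i` be a continuous logarithm of `f z / (z - k i) ^ n i` on the closed set
`frontier (O i) ⊆ X` (closures of different `O j` are disjoint, `O i` open); extend it by Tietze
(`ContinuousMap.exists_extension` / real and imaginary parts) to a continuous `L i : ℂ → ℂ`, and on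
`closure (O i)` put `G z = exp (L i z) * ∏ j ≠ i, (z - k j) ^ (- n j)` (no zero or pole there: `k j ∉ closure (O i)`).
The two definitions agree on `frontier (O i)`, so `G` is a continuous nowhere zero function on `ℂ`
(finitely many closed pieces).  Hence `G = exp` of a continuous function (`allLogs_univ`) and `HasWind G 0 R 0`.
For `R` large the circle `sphere 0 R` lies in `X` and `G z / (c * z ^ (N - ∑ n i)) → 1`
(`(z - k)/z → 1`), so by `hasWind_of_ratio` `HasWind G 0 R (N - ∑ n i)`; by uniqueness `N = ∑ n i`.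
-/

namespace DS
open Metric Set Filter Topology

theorem IB_tietze {S : Set ℂ} (hS : IsClosed S) {L : ℂ → ℂ} (hL : ContinuousOn L S) :
    ∃ L' : ℂ → ℂ, Continuous L' ∧ ∀ z ∈ S, L' z = L z := by
  obtain ⟨g, hg⟩ := ContinuousMap.exists_restrict_eq hS
    (⟨fun x : S => L x, hL.comp_continuous continuous_subtype_val fun x => x.2⟩ : C(S, ℂ))
  refine ⟨g, g.continuous, fun z hz => ?_⟩
  exact congrArg (fun h : C(S, ℂ) => h ⟨z, hz⟩) hg

theorem IB_ne_cobounded : ∀ᶠ z : ℂ in Bornology.cobounded ℂ, z ≠ 0 := by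
  rw [← comap_norm_atTop, eventually_comap, eventually_atTop]
  refine ⟨1, fun b hb z hz h0 => ?_⟩
  rw [h0, norm_zero] at hz
  linarith

theorem IB_frontier {m : ℕ} {O : Fin m → Set ℂ}
    (hd : ∀ i j, i ≠ j → Disjoint (closure (O i)) (closure (O j))) {i : Fin m} {z : ℂ}
    (hz : z ∈ closure (O i)) (hz' : z ∉ O i) : z ∈ (⋃ i, O i)ᶜ := by
  intro h
  rw [mem_iUnion] at h
  obtain ⟨j, hj⟩ := h
  by_cases hij : i = j
  · subst hij
    exact hz' hj
  · exact Set.disjoint_left.mp (hd i j hij) hz (subset_closure hj)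

theorem IB_tendsto_factor (k : ℂ) (n : ℤ) :
    Tendsto (fun z : ℂ => (z - k) ^ (-n) * z ^ n) (cocompact ℂ) (𝓝 1) := by
  rw [← Metric.cobounded_eq_cocompact]
  have h1 : Tendsto (fun z : ℂ => 1 - k * z⁻¹) (Bornology.cobounded ℂ) (𝓝 1) := by
    have := (tendsto_inv₀_cobounded (α := ℂ)).const_mul k
    have h2 := this.const_sub 1
    simpa using h2
  have h3 := h1.zpow₀ (-n) (Or.inl one_ne_zero)
  rw [one_zpow] at h3
  refine h3.congr' ?_
  have h0 : ∀ᶠ z : ℂ in Bornology.cobounded ℂ, z ≠ 0 := IB_ne_cobounded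
  filter_upwards [h0] with z hz
  have e : (1 : ℂ) - k * z⁻¹ = (z - k) * z⁻¹ := by
    field_simp
  rw [e, mul_zpow, inv_zpow, zpow_neg z, inv_inv]

theorem add_index {m : ℕ} (O : Fin m → Set ℂ) (k : Fin m → ℂ) (n : Fin m → ℤ)
    (hO : ∀ i, IsOpen (O i)) (hb : ∀ i, Bornology.IsBounded (O i)) (hk : ∀ i, k i ∈ O i)
    (hd : ∀ i j, i ≠ j → Disjoint (closure (O i)) (closure (O j))) (f : ℂ → ℂ)
    (hf : ContinuousOn f (⋃ i, O i)ᶜ) (hf0 : ∀ z ∈ (⋃ i, O i)ᶜ, f z ≠ 0)
    (hlog : ∀ i, HasLog (fun z => f z / (z - k i) ^ (n i)) (frontier (O i)))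
    (N : ℤ) {c : ℂ} (hc : c ≠ 0) (hinf : Tendsto (fun z => f z / z ^ N) (cocompact ℂ) (𝓝 c)) :
    N = ∑ i, n i := by
  classical
  choose Lf hLf hLf' using hlog
  choose L hLc hLe using fun i => IB_tietze (isClosed_frontier (s := O i)) (hLf i)
  have huniq : ∀ i j z, z ∈ O i → z ∈ O j → i = j := by
    intro i j z hi hj
    by_contra hij
    exact Set.disjoint_left.mp (hd i j hij) (subset_closure hi) (subset_closure hj)
  have hkj : ∀ i j, j ≠ i → ∀ z ∈ closure (O i), z - k j ≠ 0 := by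
    intro i j hij z hz h0
    have : z = k j := sub_eq_zero.mp h0
    rw [this] at hz
    exact Set.disjoint_left.mp (hd i j (Ne.symm hij)) hz (subset_closure (hk j))
  have hkX : ∀ j, ∀ z ∈ (⋃ i, O i)ᶜ, z - k j ≠ 0 := by
    intro j z hz h0
    have : z = k j := sub_eq_zero.mp h0
    rw [this] at hz
    exact hz (mem_iUnion.mpr ⟨j, hk j⟩)
  set E : Fin m → ℂ → ℂ := fun i z =>
    Complex.exp (L i z) * ∏ j ∈ Finset.univ.erase i, (z - k j) ^ (-n j) with hE
  set F : ℂ → ℂ := fun z => f z * ∏ j, (z - k j) ^ (-n j) with hF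
  set G : ℂ → ℂ := fun z => if h : ∃ i, z ∈ O i then E h.choose z else F z with hG
  have hGO : ∀ i z, z ∈ O i → G z = E i z := by
    intro i z hz
    have h : ∃ i, z ∈ O i := ⟨i, hz⟩
    have h2 : h.choose = i := huniq _ _ z h.choose_spec hz
    rw [hG]
    simp only
    rw [dif_pos h, h2]
  have hGX : ∀ z ∈ (⋃ i, O i)ᶜ, G z = F z := by
    intro z hz
    have h : ¬ ∃ i, z ∈ O i := fun ⟨i, hi⟩ => hz (mem_iUnion.mpr ⟨i, hi⟩)
    rw [hG]
    simp only
    rw [dif_neg h]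
  have hGcl : ∀ i, ∀ z ∈ closure (O i), G z = E i z := by
    intro i z hz
    by_cases hzO : z ∈ O i
    · exact hGO i z hzO
    · have hzX := IB_frontier hd hz hzO
      rw [hGX z hzX, hF, hE]
      simp only
      have hfr : z ∈ frontier (O i) := by
        rw [(hO i).frontier_eq]
        exact ⟨hz, hzO⟩
      rw [hLe i z hfr, ← hLf' i z hfr,
        ← Finset.mul_prod_erase Finset.univ (fun j => (z - k j) ^ (-n j)) (Finset.mem_univ i)]
      simp only
      rw [zpow_neg, ← mul_assoc, div_eq_mul_inv]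
  have hEcont : ∀ i, ContinuousOn (E i) (closure (O i)) := by
    intro i
    refine ContinuousOn.mul (Complex.continuous_exp.comp (hLc i)).continuousOn ?_
    refine continuousOn_finsetProd _ fun j hj => ?_
    refine ContinuousOn.zpow₀ (by fun_prop) _ fun z hz => Or.inl ?_
    exact hkj i j (Finset.ne_of_mem_erase hj) z hz
  have hFcont : ContinuousOn F (⋃ i, O i)ᶜ := by
    refine hf.mul ?_
    refine continuousOn_finsetProd _ fun j _ => ?_
    exact ContinuousOn.zpow₀ (by fun_prop) _ fun z hz => Or.inl (hkX j z hz)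
  have hGcont : Continuous G := by
    refine LocallyFinite.continuous (f := fun o : Option (Fin m) =>
      Option.elim o (⋃ i, O i)ᶜ (fun i => closure (O i))) (locallyFinite_of_finite _) ?_ ?_ ?_
    · rw [eq_univ_iff_forall]
      intro z
      rw [mem_iUnion]
      by_cases h : ∃ i, z ∈ O i
      · obtain ⟨i, hi⟩ := h
        exact ⟨some i, subset_closure hi⟩
      · refine ⟨none, fun hz => h ?_⟩
        exact mem_iUnion.mp hz
    · rintro (_ | i)
      · exact (isOpen_iUnion hO).isClosed_compl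
      · exact isClosed_closure
    · rintro (_ | i)
      · exact hFcont.congr hGX
      · exact (hEcont i).congr (hGcl i)
  have hG0 : ∀ z ∈ (univ : Set ℂ), G z ≠ 0 := by
    intro z _
    by_cases h : ∃ i, z ∈ O i
    · obtain ⟨i, hi⟩ := h
      rw [hGO i z hi]
      refine mul_ne_zero (Complex.exp_ne_zero _) (Finset.prod_ne_zero_iff.mpr fun j hj => ?_)
      exact zpow_ne_zero _ (hkj i j (Finset.ne_of_mem_erase hj) z (subset_closure hi))
    · have hzX : z ∈ (⋃ i, O i)ᶜ := fun hz => h (mem_iUnion.mp hz)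
      rw [hGX z hzX]
      refine mul_ne_zero (hf0 z hzX) (Finset.prod_ne_zero_iff.mpr fun j _ => ?_)
      exact zpow_ne_zero _ (hkX j z hzX)
  have hlogG := allLogs_univ G hGcont.continuousOn hG0
  -- behaviour at infinity
  set M : ℤ := N - ∑ i, n i with hM
  have hlim : Tendsto (fun z => F z / (c * z ^ M)) (cocompact ℂ) (𝓝 1) := by
    have h1 : Tendsto (fun z => (f z / z ^ N) * ∏ j, ((z - k j) ^ (-n j) * z ^ (n j)))
        (cocompact ℂ) (𝓝 (c * ∏ _j : Fin m, (1 : ℂ))) :=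
      hinf.mul (tendsto_finsetProd _ fun j _ => IB_tendsto_factor (k j) (n j))
    have h2 := h1.const_mul c⁻¹
    rw [Finset.prod_const_one, mul_one, inv_mul_cancel₀ hc] at h2
    refine h2.congr' ?_
    have h0 : ∀ᶠ z : ℂ in cocompact ℂ, z ≠ 0 := by
      rw [← Metric.cobounded_eq_cocompact]
      exact IB_ne_cobounded
    filter_upwards [h0] with z hz
    rw [Finset.prod_mul_distrib, hM, zpow_sub₀ hz, hF]
    have e : ∏ j, z ^ (n j) = z ^ (∑ i, n i) := by
      clear * - hz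
      induction (Finset.univ : Finset (Fin m)) using Finset.induction_on with
      | empty => simp
      | insert a s ha ih => rw [Finset.prod_insert ha, Finset.sum_insert ha, zpow_add₀ hz, ih]
    rw [e]
    have hzN : z ^ N ≠ 0 := zpow_ne_zero _ hz
    have hzS : z ^ (∑ i, n i) ≠ 0 := zpow_ne_zero _ hz
    field_simp
  have hev1 : ∀ᶠ z : ℂ in cocompact ℂ, ‖F z / (c * z ^ M) - 1‖ < 1 := by
    have := hlim.sub_const 1
    rw [sub_self] at this
    have h3 := this.norm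
    rw [norm_zero] at h3
    exact h3.eventually (gt_mem_nhds one_pos)
  have hev2 : ∀ᶠ z : ℂ in cocompact ℂ, z ∈ (⋃ i, O i)ᶜ := by
    have hbU : Bornology.IsBounded (⋃ i, O i) := Bornology.isBounded_iUnion.mpr hb
    rw [← Metric.cobounded_eq_cocompact]
    exact hbU
  have hev := hev1.and hev2
  rw [← Metric.cobounded_eq_cocompact, ← comap_norm_atTop, eventually_comap,
    eventually_atTop] at hev
  obtain ⟨R0, hR0⟩ := hev
  set R : ℝ := max R0 1 with hR
  have hRpos : 0 < R := lt_of_lt_of_le one_pos (le_max_right _ _)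
  have hRz : ∀ z ∈ sphere (0 : ℂ) R, ‖F z / (c * z ^ M) - 1‖ < 1 ∧ z ∈ (⋃ i, O i)ᶜ := by
    intro z hz
    refine hR0 R (le_max_left _ _) z ?_
    simpa using hz
  have hz0 : ∀ z ∈ sphere (0 : ℂ) R, z ≠ 0 := by
    intro z hz h0
    rw [h0] at hz
    simp at hz
    exact hRpos.ne hz
  have hw1 : HasWind G 0 R 0 := hasWind_of_hasLog (subset_univ _) hlogG
  have hw2 : HasWind G 0 R M := by
    refine hasWind_of_ratio (g := fun z => c * z ^ M) hGcont.continuousOn ?_ ?_ ?_ ?_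
    · refine continuousOn_const.mul (continuousOn_id.zpow₀ _ fun z hz => Or.inl (hz0 z hz))
    · intro z hz
      exact mul_ne_zero hc (zpow_ne_zero _ (hz0 z hz))
    · intro z hz
      obtain ⟨h1, h2⟩ := hRz z hz
      rw [hGX z h2]
      have := Complex.mem_slitPlane_of_norm_lt_one h1
      simpa using this
    · refine ⟨fun _ => Complex.log c, continuousOn_const, fun z _ => ?_⟩
      rw [sub_zero, Complex.exp_log hc, mul_comm]
  have := hasWind_unique hRpos hw1 hw2
  omega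

end DS

end S_H36_DS_IB

section S_H36_DS_IF

/-!
IF (exactly two holes).  Here `g` is a homeomorphism of the sphere in a planar chart: continuous off the point `a`
(the preimage of infinity), `g z → ∞` for `z → a`, `g z → b` for `z → ∞`.
Proof.  Choose a small disc `D = ball a s` whose closure misses all `closure (O i)`, on which (off `a`)
`‖g z‖` is large.  On its frontier `f z = g z - k i₀` is continuous and nowhere zero, so
`HasWind f a s n` for some `n` (`hasWind_exists`), i.e. `f z / (z - a) ^ n` has a logarithm on `frontier D`.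
(1) `add_index` for `f z = g z - k i₀` with the holes `O i₀` (exponent `1`, `hlog2`) and `D` (exponent `n`), `N = 0`,
`c = b - k i₀`: `0 = 1 + n`, so `n = -1`.  (`f` has no zero outside `O i₀ ∪ D` by `hk`.)
(2) on `frontier D` (for `s` small) `(g z - z) / (g z - k i₀)` is close to `1`, so `g z - z` also has winding number `-1` there.
`add_index` for `f z = g z - z` with the holes `O i` (exponent `1`, `hlog1`) and `D` (exponent `-1`), `N = 1`, `c = -1`
(`(g z - z)/z → -1`): `1 = m - 1`.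
-/

namespace DS
open Metric Set Filter Topology

theorem two_holes {m : ℕ} (O : Fin m → Set ℂ) (k : Fin m → ℂ)
    (hO : ∀ i, IsOpen (O i)) (hb : ∀ i, Bornology.IsBounded (O i)) (hk : ∀ i, k i ∈ O i)
    (hd : ∀ i j, i ≠ j → Disjoint (closure (O i)) (closure (O j))) {g : ℂ → ℂ} {a b : ℂ}
    (ha : ∀ i, a ∉ closure (O i)) (hg : ContinuousOn g {a}ᶜ)
    (hfix : ∀ z, z ≠ a → g z = z → ∃ i, z ∈ O i) (hpole : Tendsto g (𝓝[≠] a) (cocompact ℂ))
    (hinf : Tendsto g (cocompact ℂ) (𝓝 b))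
    (hlog1 : ∀ i, HasLog (fun z => (g z - z) / (z - k i)) (frontier (O i))) (i₀ : Fin m)
    (hk₀ : ∀ z, z ≠ a → g z = k i₀ → z ∈ O i₀) (hbk : b ≠ k i₀)
    (hlog2 : HasLog (fun z => (g z - k i₀) / (z - k i₀)) (frontier (O i₀))) : m = 2 := by
  -- the radius
  set C : ℝ := 2 * ‖k i₀‖ + ‖a‖ + 1 with hC
  have hev : ∀ᶠ z in 𝓝 a, (z ≠ a → C < ‖g z‖) ∧ ∀ i, z ∉ closure (O i) := by
    refine Filter.Eventually.and ?_ ?_
    · have h1 : ∀ᶠ z in 𝓝[≠] a, C < ‖g z‖ :=
        hpole.eventually ((tendsto_norm_cocompact_atTop (E := ℂ)).eventually (eventually_gt_atTop C))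
      rw [eventually_nhdsWithin_iff] at h1
      exact h1
    · rw [eventually_all]
      exact fun i => isClosed_closure.isOpen_compl.mem_nhds (ha i)
  obtain ⟨ε, hε, hball⟩ := Metric.eventually_nhds_iff.1 hev
  set s : ℝ := min 1 (ε / 2) with hs
  have hs0 : 0 < s := lt_min one_pos (half_pos hε)
  have hs1 : s ≤ 1 := min_le_left _ _
  have hsε : s < ε := lt_of_le_of_lt (min_le_right _ _) (half_lt_self hε)
  have hcl : ∀ z, dist z a ≤ s → (z ≠ a → C < ‖g z‖) ∧ ∀ i, z ∉ closure (O i) := fun z hz =>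
    hball (lt_of_le_of_lt hz hsε)
  have hfr : frontier (ball a s) = sphere a s := frontier_ball a hs0.ne'
  have hclD : closure (ball a s) = closedBall a s := closure_ball a hs0.ne'
  have haD : a ∈ ball a s := mem_ball_self hs0
  have hsph : ∀ z ∈ sphere a s, z ≠ a ∧ C < ‖g z‖ ∧ ‖z‖ ≤ ‖a‖ + 1 := by
    intro z hz
    have h1 : dist z a = s := hz
    have h2 : z ≠ a := by
      rintro rfl
      rw [dist_self] at h1
      exact hs0.ne h1
    refine ⟨h2, (hcl z h1.le).1 h2, ?_⟩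
    have h3 : ‖z‖ ≤ ‖a‖ + ‖z - a‖ := by
      calc ‖z‖ = ‖a + (z - a)‖ := by rw [add_sub_cancel]
        _ ≤ ‖a‖ + ‖z - a‖ := norm_add_le _ _
    rw [← dist_eq_norm, h1] at h3
    linarith
  have hsph2 : ∀ z ∈ sphere a s, ‖k i₀ - z‖ < ‖g z - k i₀‖ := by
    intro z hz
    obtain ⟨-, h2, h3⟩ := hsph z hz
    have h4 : ‖k i₀ - z‖ ≤ ‖k i₀‖ + ‖z‖ := norm_sub_le _ _
    have h5 : ‖g z‖ ≤ ‖g z - k i₀‖ + ‖k i₀‖ := by
      calc ‖g z‖ = ‖(g z - k i₀) + k i₀‖ := by rw [sub_add_cancel]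
        _ ≤ _ := norm_add_le _ _
    rw [hC] at h2
    linarith
  have hgs : ContinuousOn g (sphere a s) := hg.mono fun z hz => (hsph z hz).1
  have hne : ∀ z ∈ sphere a s, g z - k i₀ ≠ 0 := by
    intro z hz h0
    have h1 := hsph2 z hz
    rw [h0, norm_zero] at h1
    exact absurd h1 (not_lt.2 (norm_nonneg _))
  have hlogD : ∀ (f : ℂ → ℂ) (n : ℤ), HasWind f a s n →
      HasLog (fun z => f z / (z - a) ^ n) (frontier (ball a s)) := by
    rintro f n ⟨L, hL, hLz⟩
    rw [hfr]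
    refine ⟨L, hL, fun z hz => ?_⟩
    have h1 : z - a ≠ 0 := sub_ne_zero.2 (hsph z hz).1
    show f z / (z - a) ^ n = _
    rw [hLz z hz, mul_div_cancel_left₀ _ (zpow_ne_zero n h1)]
  obtain ⟨n, hn⟩ := hasWind_exists (f := fun z => g z - k i₀) hs0 (hgs.sub continuousOn_const) hne
  -- step 1
  have hn1 : n = -1 := by
    have key := add_index (m := 2) (![O i₀, ball a s]) (![k i₀, a]) (![1, n]) ?_ ?_ ?_ ?_
      (fun z => g z - k i₀) ?_ ?_ ?_ 0 (sub_ne_zero.2 hbk) ?_
    · rw [Fin.sum_univ_two] at key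
      simp only [Matrix.cons_val_zero, Matrix.cons_val_one] at key
      omega
    · intro i
      fin_cases i
      · exact hO i₀
      · exact isOpen_ball
    · intro i
      fin_cases i
      · exact hb i₀
      · exact isBounded_ball
    · intro i
      fin_cases i
      · exact hk i₀
      · exact haD
    · have h01 : Disjoint (closure (O i₀)) (closure (ball a s)) := by
        rw [hclD, Set.disjoint_left]
        intro z hz hz'
        exact (hcl z hz').2 i₀ hz
      intro i j hij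
      fin_cases i <;> fin_cases j
      · exact absurd rfl hij
      · exact h01
      · exact h01.symm
      · exact absurd rfl hij
    · refine (hg.mono ?_).sub continuousOn_const
      rintro z hz rfl
      exact hz (mem_iUnion.2 ⟨1, haD⟩)
    · intro z hz h0
      have hza : z ≠ a := by
        rintro rfl
        exact hz (mem_iUnion.2 ⟨1, haD⟩)
      exact hz (mem_iUnion.2 ⟨0, hk₀ z hza (sub_eq_zero.1 h0)⟩)
    · intro i
      fin_cases i
      · show HasLog (fun z => (g z - k i₀) / (z - k i₀) ^ (1 : ℤ)) (frontier (O i₀))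
        simpa only [zpow_one] using hlog2
      · exact hlogD _ n hn
    · simp only [zpow_zero, div_one]
      exact hinf.sub_const _
  -- step 2
  have hwind : HasWind (fun z => g z - z) a s (-1) := by
    refine hasWind_of_ratio (hgs.sub continuousOn_id) (hgs.sub continuousOn_const) hne ?_ (hn1 ▸ hn)
    intro z hz
    have h1 : (g z - z) / (g z - k i₀) = 1 + (k i₀ - z) / (g z - k i₀) := by
      have := hne z hz
      field_simp
      ring
    show (g z - z) / (g z - k i₀) ∈ Complex.slitPlane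
    rw [h1]
    refine Complex.mem_slitPlane_of_norm_lt_one ?_
    rw [norm_div, div_lt_one (norm_pos_iff.2 (hne z hz))]
    exact hsph2 z hz
  have hlim : Tendsto (fun z => (g z - z) / z ^ (1 : ℤ)) (cocompact ℂ) (𝓝 (-1)) := by
    have h1 : Tendsto (fun z : ℂ => z⁻¹) (cocompact ℂ) (𝓝 0) := by
      rw [← Metric.cobounded_eq_cocompact]
      exact tendsto_inv₀_cobounded
    have h2 : Tendsto (fun z => g z * z⁻¹ - 1) (cocompact ℂ) (𝓝 (b * 0 - 1)) :=
      (hinf.mul h1).sub_const 1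
    rw [mul_zero, zero_sub] at h2
    refine h2.congr' ?_
    have h3 : ∀ᶠ z : ℂ in cocompact ℂ, (0 : ℝ) < ‖z‖ :=
      (tendsto_norm_cocompact_atTop (E := ℂ)).eventually (eventually_gt_atTop 0)
    filter_upwards [h3] with z hz
    have hz0 : z ≠ 0 := norm_pos_iff.1 hz
    rw [zpow_one, sub_div, div_self hz0, div_eq_mul_inv]
  have key := add_index (m := m + 1) (Fin.cons (ball a s) O) (Fin.cons a k)
    (Fin.cons (-1) (fun _ : Fin m => (1 : ℤ))) ?_ ?_ ?_ ?_
    (fun z => g z - z) ?_ ?_ ?_ 1 (neg_ne_zero.2 one_ne_zero) hlim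
  · rw [Fin.sum_univ_succ] at key
    simp only [Fin.cons_zero, Fin.cons_succ, Finset.sum_const, Finset.card_univ, Fintype.card_fin,
      nsmul_eq_mul, mul_one] at key
    omega
  · intro i
    refine Fin.cases ?_ (fun i => ?_) i
    · exact isOpen_ball
    · exact hO i
  · intro i
    refine Fin.cases ?_ (fun i => ?_) i
    · exact isBounded_ball
    · exact hb i
  · intro i
    refine Fin.cases ?_ (fun i => ?_) i
    · exact haD
    · exact hk i
  · have h01 : ∀ i, Disjoint (closure (O i)) (closure (ball a s)) := by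
      intro i
      rw [hclD, Set.disjoint_left]
      intro z hz hz'
      exact (hcl z hz').2 i hz
    intro i j
    refine Fin.cases ?_ (fun i => ?_) i <;> refine Fin.cases ?_ (fun j => ?_) j
    · intro hij; exact absurd rfl hij
    · intro _; exact (h01 j).symm
    · intro _; exact h01 i
    · intro hij
      exact hd i j fun h => hij (congrArg Fin.succ h)
  · refine (hg.mono ?_).sub continuousOn_id
    rintro z hz rfl
    exact hz (mem_iUnion.2 ⟨0, haD⟩)
  · intro z hz h0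
    have hza : z ≠ a := by
      rintro rfl
      exact hz (mem_iUnion.2 ⟨0, haD⟩)
    obtain ⟨i, hi⟩ := hfix z hza (sub_eq_zero.1 h0)
    exact hz (mem_iUnion.2 ⟨i.succ, hi⟩)
  · intro i
    refine Fin.cases ?_ (fun i => ?_) i
    · exact hlogD _ (-1) hwind
    · show HasLog (fun z => (g z - z) / (z - k i) ^ (1 : ℤ)) (frontier (O i))
      simpa only [zpow_one] using hlog1 i

end DS

end S_H36_DS_IF

section S_H36_DS_JA

/-!
JA (accessible points).  The arcs `C ρ = {z ∈ ball 0 1 | dist z ξ = ρ}` separate `ξ` from `0` in the disc.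
`acc_principal`: let `c` be a curve landing at `ζ` with `φ (c t) → x`, and `ρ n → 0` with
`dist (φ z) P < 1/(n+1)` on `C (ρ n)`.  For large `n` the curve meets `C (ρ n)` (intermediate value theorem for
`t ↦ dist (c t) ζ`, which tends to `0` and is positive), at a parameter `t n`; `t n → 0` (on `[t', 1]` the distance is
bounded below) so `φ (c (t n)) → x` and `→ P`.
`acc_unique`: two curves landing at the same `ξ` with limits `x`, `y`: `L1` gives `ρ n → 0` with
`dist (φ z) (φ w) < 1/(n+1)` on `C (ρ n)`, both curves meet `C (ρ n)`; so `dist x y = 0`.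
`acc_mem`: if `x ∉ K` then `c t = u (φ (c t)) → u x ∈ ball 0 1`, but `c t → ξ`.
`acc_map`: the curve `hb ∘ c` (values in the disc, where `hb = u ∘ g ∘ φ`, so `φ (hb z) = g (φ z)`).
`acc_curve`: a curve `α : (0,1] → Kᶜ` in `X` with `α t → x` and `u (α t) → ξ`: take `c = u ∘ α`.
-/

namespace DS
open Metric Set Filter Topology

theorem JA_pos {z ξ : ℂ} (hz : z ∈ ball (0:ℂ) 1) (hξ : ‖ξ‖ = 1) : 0 < dist z ξ := by
  rw [dist_pos]
  rintro rfl
  rw [mem_ball_zero_iff] at hz
  linarith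

/-- the curve meets all small circles about its landing point, for small parameters -/
theorem JA_hit {c : ℝ → ℂ} {ξ : ℂ} (hc : ContinuousOn c (Ioc 0 1))
    (ht : Tendsto c (𝓝[>] 0) (𝓝 ξ)) {δ : ℝ} (hδ : 0 < δ) (hδ1 : δ ≤ 1) {ρ : ℝ} (hρ : 0 < ρ)
    (hρ' : ρ < dist (c δ) ξ) : ∃ t ∈ Ioc (0:ℝ) δ, dist (c t) ξ = ρ := by
  have h1 : ∀ᶠ t in 𝓝[>] (0:ℝ), dist (c t) ξ < ρ := ht (ball_mem_nhds ξ hρ)
  have h2 : ∀ᶠ t in 𝓝[>] (0:ℝ), t ∈ Ioc (0:ℝ) δ := Ioc_mem_nhdsGT hδ
  obtain ⟨t', ⟨ht'0, ht'δ⟩, ht'⟩ := (h2.and h1).exists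
  have hcont : ContinuousOn (fun t => dist (c t) ξ) (Icc t' δ) := by
    have hcd : Continuous (fun z : ℂ => dist z ξ) := continuous_id.dist continuous_const
    apply hcd.comp_continuousOn
    apply hc.mono
    intro s hs
    exact ⟨lt_of_lt_of_le ht'0 hs.1, hs.2.trans hδ1⟩
  obtain ⟨s, hs, hs'⟩ := intermediate_value_Icc ht'δ hcont ⟨ht'.le, hρ'.le⟩
  exact ⟨s, ⟨lt_of_lt_of_le ht'0 hs.1, hs.2⟩, hs'⟩

theorem JA_small {X : Type*} [MetricSpace X] {f : ℝ → X} {x : X}
    (h : Tendsto f (𝓝[>] 0) (𝓝 x)) {ε : ℝ} (hε : 0 < ε) :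
    ∃ δ : ℝ, 0 < δ ∧ δ ≤ 1 ∧ ∀ t ∈ Ioc (0:ℝ) δ, dist (f t) x < ε := by
  have h1 : ∀ᶠ t in 𝓝[>] (0:ℝ), dist (f t) x < ε := h (ball_mem_nhds x hε)
  obtain ⟨u, hu, hu'⟩ := (mem_nhdsGT_iff_exists_Ioc_subset).1 h1
  refine ⟨min u 1, lt_min hu one_pos, min_le_right _ _, ?_⟩
  intro t ht
  exact hu' ⟨ht.1, ht.2.trans (min_le_left _ _)⟩

theorem acc_principal {X : Type*} [MetricSpace X] {φ : ℂ → X} {ζ : ℂ} (hζ : ‖ζ‖ = 1) {x P : X}
    (h : Acc φ ζ x) (hP : Principal φ ζ P) : x = P := by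
  obtain ⟨c, hc, hcb, hct, hcx⟩ := h
  by_contra hne
  have hd : 0 < dist x P := dist_pos.2 hne
  obtain ⟨δ, hδ, hδ1, hδt⟩ := JA_small hcx (half_pos hd)
  have hρ0 := JA_pos (hcb δ ⟨hδ, hδ1⟩) hζ
  obtain ⟨ρ, hρ, hρε, hρz⟩ := hP (min (dist x P / 2) (dist (c δ) ζ)) (lt_min (half_pos hd) hρ0)
  obtain ⟨t, ht, hdt⟩ := JA_hit hc hct hδ hδ1 hρ (lt_of_lt_of_le hρε (min_le_right _ _))
  have h1 := hρz (c t) (hcb t ⟨ht.1, ht.2.trans hδ1⟩) hdt
  have h2 := lt_of_lt_of_le h1 (min_le_left _ _)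
  have h3 := hδt t ht
  have h4 := dist_triangle_left x P (φ (c t))
  linarith

theorem acc_unique {X : Type*} [MetricSpace X] {K : Set X} {φ : ℂ → X} {u : X → ℂ}
    (H : DiscMap K φ u) {ξ : ℂ} (hξ : ‖ξ‖ = 1) {x y : X} (hx : Acc φ ξ x) (hy : Acc φ ξ y) :
    x = y := by
  obtain ⟨c, hc, hcb, hct, hcx⟩ := hx
  obtain ⟨e, he, heb, het, hey⟩ := hy
  by_contra hne
  have hd : 0 < dist x y / 3 := by
    have := dist_pos.2 hne
    linarith
  obtain ⟨δ, hδ, hδ1, hδt⟩ := JA_small hcx hd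
  obtain ⟨η, hη, hη1, hηt⟩ := JA_small hey hd
  have hρ0 := JA_pos (hcb δ ⟨hδ, hδ1⟩) hξ
  have hρ1 := JA_pos (heb η ⟨hη, hη1⟩) hξ
  obtain ⟨ρ, hρ, hρε, hρz⟩ := H.L1 ξ hξ (min (dist x y / 3) (min (dist (c δ) ξ) (dist (e η) ξ)))
    (lt_min hd (lt_min hρ0 hρ1))
  obtain ⟨t, ht, hdt⟩ := JA_hit hc hct hδ hδ1 hρ
    (lt_of_lt_of_le hρε ((min_le_right _ _).trans (min_le_left _ _)))
  obtain ⟨s, hs, hds⟩ := JA_hit he het hη hη1 hρ
    (lt_of_lt_of_le hρε ((min_le_right _ _).trans (min_le_right _ _)))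
  have h1 := hρz (c t) (hcb t ⟨ht.1, ht.2.trans hδ1⟩) (e s) (heb s ⟨hs.1, hs.2.trans hη1⟩) hdt hds
  have h2 := lt_of_lt_of_le h1 (min_le_left _ _)
  have h3 := hδt t ht
  have h4 := hηt s hs
  have h5 := dist_triangle_left x y (φ (c t))
  have h6 := dist_triangle (φ (c t)) (φ (e s)) y
  linarith

theorem acc_mem {X : Type*} [MetricSpace X] {K : Set X} (hK : IsClosed K) {φ : ℂ → X} {u : X → ℂ}
    (H : DiscMap K φ u) {ξ : ℂ} (hξ : ‖ξ‖ = 1) {x : X} (hx : Acc φ ξ x) : x ∈ K := by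
  obtain ⟨c, hc, hcb, hct, hcx⟩ := hx
  by_contra hxK
  have hev : ∀ᶠ t in 𝓝[>] (0:ℝ), t ∈ Ioc (0:ℝ) 1 := Ioc_mem_nhdsGT one_pos
  have h1 : Tendsto (fun t => φ (c t)) (𝓝[>] 0) (𝓝[Kᶜ] x) := by
    apply tendsto_nhdsWithin_of_tendsto_nhds_of_eventually_within _ hcx
    filter_upwards [hev] with t ht
    exact H.φ_maps (hcb t ht)
  have h2 : Tendsto (fun t => u (φ (c t))) (𝓝[>] 0) (𝓝 (u x)) :=
    Tendsto.comp (H.u_cont x hxK) h1
  have h3 : Tendsto (fun t => u (φ (c t))) (𝓝[>] 0) (𝓝 ξ) := by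
    apply hct.congr'
    filter_upwards [hev] with t ht
    exact (H.uφ _ (hcb t ht)).symm
  have h4 : u x = ξ := tendsto_nhds_unique h2 h3
  have h5 := H.u_maps (show x ∈ Kᶜ from hxK)
  rw [h4, mem_ball_zero_iff] at h5
  linarith

theorem acc_map {X : Type*} [MetricSpace X] {K : Set X} {φ : ℂ → X} {u : X → ℂ}
    (H : DiscMap K φ u) {g : X → X} (hg : Continuous g) (hgK : MapsTo g Kᶜ Kᶜ) {hb : ℂ → ℂ}
    (hbc : ContinuousOn hb (closedBall 0 1)) (hbm : MapsTo hb (ball 0 1) (ball 0 1))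
    (hbe : ∀ z ∈ ball (0:ℂ) 1, hb z = u (g (φ z))) {ξ : ℂ} (hξ : ‖ξ‖ = 1) {x : X}
    (hx : Acc φ ξ x) : Acc φ (hb ξ) (g x) := by
  obtain ⟨c, hc, hcb, hct, hcx⟩ := hx
  have hev : ∀ᶠ t in 𝓝[>] (0:ℝ), t ∈ Ioc (0:ℝ) 1 := Ioc_mem_nhdsGT one_pos
  refine ⟨fun t => hb (c t), ?_, fun t ht => hbm (hcb t ht), ?_, ?_⟩
  · exact hbc.comp hc (fun t ht => ball_subset_closedBall (hcb t ht))
  · have h1 : Tendsto c (𝓝[>] 0) (𝓝[closedBall 0 1] ξ) := by
      apply tendsto_nhdsWithin_of_tendsto_nhds_of_eventually_within _ hct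
      filter_upwards [hev] with t ht
      exact ball_subset_closedBall (hcb t ht)
    have h2 : ξ ∈ closedBall (0:ℂ) 1 := by rw [mem_closedBall_zero_iff, hξ]
    exact Tendsto.comp (hbc ξ h2) h1
  · have h1 : Tendsto (fun t => g (φ (c t))) (𝓝[>] 0) (𝓝 (g x)) :=
      (hg.tendsto x).comp hcx
    apply h1.congr'
    filter_upwards [hev] with t ht
    rw [hbe _ (hcb t ht), H.φu _ (hgK (H.φ_maps (hcb t ht)))]

theorem acc_curve {X : Type*} [MetricSpace X] {K : Set X} {φ : ℂ → X} {u : X → ℂ}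
    (H : DiscMap K φ u) {α : ℝ → X} (hα : ContinuousOn α (Ioc 0 1))
    (hαK : ∀ t ∈ Ioc (0:ℝ) 1, α t ∉ K) {x : X} (hx : Tendsto α (𝓝[>] 0) (𝓝 x)) {ξ : ℂ}
    (hξ : Tendsto (fun t => u (α t)) (𝓝[>] 0) (𝓝 ξ)) : Acc φ ξ x := by
  refine ⟨fun t => u (α t), H.u_cont.comp hα (fun t ht => hαK t ht),
    fun t ht => H.u_maps (hαK t ht), hξ, ?_⟩
  apply hx.congr'
  filter_upwards [(Ioc_mem_nhdsGT one_pos : ∀ᶠ t in 𝓝[>] (0:ℝ), t ∈ Ioc (0:ℝ) 1)] with t ht
  exact (H.φu _ (hαK t ht)).symm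

end DS

end S_H36_DS_JA

section S_H36_DS_PK

/-!
PK.  `bd_not_sub`: otherwise `z ↦ z` is nowhere zero on `W` and has a continuous logarithm `L` on `W ⊇ Bd`.  For
`z ∈ sphere 0 1` let `s z = (max (max (z.re / b) (z.re / a)) (max (z.im / d) (z.im / c)))⁻¹` (the maximum is
positive, `a < 0 < b`, `c < 0 < d`); `s` is positive, continuous and `s z * z ∈ Bd a b c d`.  So
`s z * z = exp (L (s z * z))` gives `HasWind (fun z => s z * z) 0 1 0`; compared with `z` (`hasWind_of_ratio`: the quotient is a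
positive real number, `hasWind_id`) it has winding number `1`; contradiction with `hasWind_unique`.
`arg_var`: let `z₀ ∈ Bd`, `z₀ ∉ W` (`bd_not_sub`).  For `z ∈ Bd \ {z₀}` the number `- z / z₀` is in `slitPlane` (the open ray from
`0` through `z₀` meets `Bd` only at `z₀`), so `ℓ z = Complex.log (- z / z₀)` is continuous on `A ⊆ Bd ∩ W`, with
`(ℓ z).im ∈ (-π, π)`; `exp (Θ z - ℓ z) = - z₀` is constant on the connected set `A`, so `Θ z - ℓ z` is constant on `A`
(it takes values in a discrete set).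
-/

namespace DS
open Metric Set Filter Topology

/-- the gauge of the rectangle -/
noncomputable def PK_m (a b c d : ℝ) (z : ℂ) : ℝ :=
  max (max (z.re / b) (z.re / a)) (max (z.im / d) (z.im / c))

private theorem PK_m_cont (a b c d : ℝ) : Continuous (PK_m a b c d) := by
  unfold PK_m
  exact ((Complex.continuous_re.div_const _).max (Complex.continuous_re.div_const _)).max
    ((Complex.continuous_im.div_const _).max (Complex.continuous_im.div_const _))

private theorem PK_m_pos {a b c d : ℝ} (ha : a < 0) (hb : 0 < b) (hc : c < 0) (hd : 0 < d) {z : ℂ}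
    (hz : z ≠ 0) : 0 < PK_m a b c d z := by
  rw [PK_m, lt_max_iff, lt_max_iff, lt_max_iff]
  rcases lt_trichotomy z.re 0 with h | h | h
  · exact Or.inl (Or.inr (div_pos_of_neg_of_neg h ha))
  · rcases lt_trichotomy z.im 0 with h' | h' | h'
    · exact Or.inr (Or.inr (div_pos_of_neg_of_neg h' hc))
    · exact absurd (Complex.ext h h') hz
    · exact Or.inr (Or.inl (div_pos h' hd))
  · exact Or.inl (Or.inl (div_pos h hb))

private theorem PK_m_smul {a b c d : ℝ} {t : ℝ} (ht : 0 ≤ t) (z : ℂ) :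
    PK_m a b c d ((t : ℂ) * z) = t * PK_m a b c d z := by
  simp only [PK_m, Complex.re_ofReal_mul, Complex.im_ofReal_mul, mul_div_assoc]
  rw [mul_max_of_nonneg _ _ ht, mul_max_of_nonneg _ _ ht, mul_max_of_nonneg _ _ ht]

private theorem PK_Bd {a b c d : ℝ} (ha : a < 0) (hb : 0 < b) (hc : c < 0) (hd : 0 < d) {z : ℂ} :
    z ∈ Bd a b c d ↔ PK_m a b c d z = 1 := by
  have e1 : z.re / b ≤ 1 ↔ z.re ≤ b := div_le_one hb
  have e2 : z.re / a ≤ 1 ↔ a ≤ z.re := by
    rw [div_le_iff_of_neg ha, one_mul]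
  have e3 : z.im / d ≤ 1 ↔ z.im ≤ d := div_le_one hd
  have e4 : z.im / c ≤ 1 ↔ c ≤ z.im := by
    rw [div_le_iff_of_neg hc, one_mul]
  have f1 : z.re / b = 1 ↔ z.re = b := div_eq_one_iff_eq hb.ne'
  have f2 : z.re / a = 1 ↔ z.re = a := div_eq_one_iff_eq ha.ne
  have f3 : z.im / d = 1 ↔ z.im = d := div_eq_one_iff_eq hd.ne'
  have f4 : z.im / c = 1 ↔ z.im = c := div_eq_one_iff_eq hc.ne
  constructor
  · rintro ⟨⟨h1, h2, h3, h4⟩, h5⟩
    apply le_antisymm
    · exact max_le (max_le (e1.2 h2) (e2.2 h1)) (max_le (e3.2 h4) (e4.2 h3))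
    · rw [PK_m, le_max_iff, le_max_iff, le_max_iff]
      rcases h5 with h | h | h | h
      · exact Or.inl (Or.inr (f2.2 h).ge)
      · exact Or.inl (Or.inl (f1.2 h).ge)
      · exact Or.inr (Or.inr (f4.2 h).ge)
      · exact Or.inr (Or.inl (f3.2 h).ge)
  · intro h
    have h1 : z.re / b ≤ 1 := by
      rw [← h]; exact (le_max_left _ _).trans (le_max_left _ _)
    have h2 : z.re / a ≤ 1 := by
      rw [← h]; exact (le_max_right _ _).trans (le_max_left _ _)
    have h3 : z.im / d ≤ 1 := by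
      rw [← h]; exact (le_max_left _ _).trans (le_max_right _ _)
    have h4 : z.im / c ≤ 1 := by
      rw [← h]; exact (le_max_right _ _).trans (le_max_right _ _)
    refine ⟨⟨e2.1 h2, e1.1 h1, e4.1 h4, e3.1 h3⟩, ?_⟩
    have h5 : 1 ≤ PK_m a b c d z := h.ge
    rw [PK_m, le_max_iff, le_max_iff, le_max_iff] at h5
    rcases h5 with (h6 | h6) | (h6 | h6)
    · exact Or.inr (Or.inl (f1.1 (le_antisymm h1 h6)))
    · exact Or.inl (f2.1 (le_antisymm h2 h6))
    · exact Or.inr (Or.inr (Or.inr (f3.1 (le_antisymm h3 h6))))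
    · exact Or.inr (Or.inr (Or.inl (f4.1 (le_antisymm h4 h6))))

theorem bd_not_sub {W : Set ℂ} (hL : AllLogs W) (h0 : (0:ℂ) ∉ W) {a b c d : ℝ} (ha : a < 0)
    (hb : 0 < b) (hc : c < 0) (hd : 0 < d) : ¬ Bd a b c d ⊆ W := by
  intro hsub
  obtain ⟨L, hLc, hLe⟩ := hL (fun z => z) continuousOn_id (fun z hz h => h0 (h ▸ hz))
  have hne : ∀ z ∈ sphere (0:ℂ) 1, z ≠ 0 := by
    intro z hz h
    rw [h, mem_sphere_zero_iff_norm, norm_zero] at hz
    norm_num at hz
  have hpos : ∀ z ∈ sphere (0:ℂ) 1, 0 < (PK_m a b c d z)⁻¹ := fun z hz =>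
    inv_pos.2 (PK_m_pos ha hb hc hd (hne z hz))
  have hmem : ∀ z ∈ sphere (0:ℂ) 1, (((PK_m a b c d z)⁻¹ : ℝ) : ℂ) * z ∈ Bd a b c d := by
    intro z hz
    rw [PK_Bd ha hb hc hd, PK_m_smul (hpos z hz).le]
    exact inv_mul_cancel₀ (PK_m_pos ha hb hc hd (hne z hz)).ne'
  have hcont : ContinuousOn (fun z : ℂ => (((PK_m a b c d z)⁻¹ : ℝ) : ℂ) * z) (sphere 0 1) := by
    refine ContinuousOn.mul ?_ continuousOn_id
    refine Complex.continuous_ofReal.comp_continuousOn ?_
    exact (PK_m_cont a b c d).continuousOn.inv₀ fun z hz => (PK_m_pos ha hb hc hd (hne z hz)).ne'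
  have hw0 : HasWind (fun z : ℂ => (((PK_m a b c d z)⁻¹ : ℝ) : ℂ) * z) 0 1 0 := by
    refine ⟨fun z => L ((((PK_m a b c d z)⁻¹ : ℝ) : ℂ) * z), ?_, ?_⟩
    · exact hLc.comp hcont fun z hz => hsub (hmem z hz)
    · intro z hz
      rw [zpow_zero, one_mul]
      exact hLe _ (hsub (hmem z hz))
  have hw1 : HasWind (fun z : ℂ => (((PK_m a b c d z)⁻¹ : ℝ) : ℂ) * z) 0 1 1 := by
    refine hasWind_of_ratio (g := fun z => z - 0) hcont (by fun_prop) ?_ ?_ (hasWind_id 0 1)
    · intro z hz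
      rw [sub_zero]
      exact hne z hz
    · intro z hz
      simp only [sub_zero]
      rw [mul_div_assoc, div_self (hne z hz), mul_one]
      exact Complex.ofReal_mem_slitPlane.2 (hpos z hz)
  exact absurd (hasWind_unique one_pos hw0 hw1) (by norm_num)

private theorem PK_disc : DiscreteTopology (range ((↑) : ℤ → ℝ)) :=
  (Int.isClosedEmbedding_coe_real.isEmbedding.toHomeomorph).symm.isEmbedding.discreteTopology

theorem arg_var {W : Set ℂ} (hL : AllLogs W) (h0 : (0:ℂ) ∉ W) {Θ : ℂ → ℂ} (hΘ : ContinuousOn Θ W)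
    (hexp : ∀ z ∈ W, Complex.exp (Θ z) = z) {a b c d : ℝ} (ha : a < 0)
    (hb : 0 < b) (hc : c < 0) (hd : 0 < d) {A : Set ℂ} (hA : IsPreconnected A)
    (hAB : A ⊆ Bd a b c d ∩ W) : ∀ z ∈ A, ∀ w ∈ A, |(Θ z).im - (Θ w).im| < 2 * Real.pi := by
  obtain ⟨z₀, hz₀, hz₀W⟩ := Set.not_subset.1 (bd_not_sub hL h0 ha hb hc hd)
  have hz₀m : PK_m a b c d z₀ = 1 := (PK_Bd ha hb hc hd).1 hz₀
  have hz₀0 : z₀ ≠ 0 := by
    rintro rfl
    have : PK_m a b c d 0 = 0 := by simp [PK_m]
    rw [this] at hz₀m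
    norm_num at hz₀m
  have hslit : ∀ z ∈ A, -z / z₀ ∈ Complex.slitPlane := by
    intro z hz
    have hzm : PK_m a b c d z = 1 := (PK_Bd ha hb hc hd).1 (hAB hz).1
    have hzW : z ∈ W := (hAB hz).2
    by_contra hcon
    rw [Complex.mem_slitPlane_iff, not_or, not_lt, not_not] at hcon
    obtain ⟨h1, h2⟩ := hcon
    set t : ℝ := -(-z / z₀).re with ht
    have ht0 : 0 ≤ t := by rw [ht]; linarith
    have h3 : (-z / z₀) = ((-t : ℝ) : ℂ) := by
      apply Complex.ext
      · rw [Complex.ofReal_re, ht, neg_neg]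
      · rw [Complex.ofReal_im, h2]
    have h4 : z = (t : ℂ) * z₀ := by
      have h5 : -z = ((-t : ℝ) : ℂ) * z₀ := by
        rw [← h3, div_mul_cancel₀ _ hz₀0]
      push_cast at h5
      linear_combination -h5
    rw [h4, PK_m_smul ht0, hz₀m, mul_one] at hzm
    rw [hzm, Complex.ofReal_one, one_mul] at h4
    rw [h4] at hzW
    exact hz₀W hzW
  have hgc : ContinuousOn (fun z => Θ z - Complex.log (-z / z₀)) A := by
    refine (hΘ.mono fun z hz => (hAB hz).2).sub ?_
    refine ContinuousOn.clog ?_ hslit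
    exact (continuous_neg.div_const _).continuousOn
  have hge : ∀ z ∈ A, Complex.exp (Θ z - Complex.log (-z / z₀)) = -z₀ := by
    intro z hz
    have hz0 : z ≠ 0 := fun h => h0 (h ▸ (hAB hz).2)
    rw [Complex.exp_sub, hexp z (hAB hz).2, Complex.exp_log (Complex.slitPlane_ne_zero (hslit z hz))]
    field_simp
  intro z hz w hw
  have hconst : ∀ x ∈ A, ∃ n : ℤ, ((Θ x - Complex.log (-x / z₀)) - (Θ w - Complex.log (-w / z₀))) =
      n * (2 * Real.pi * Complex.I) := by
    intro x hx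
    apply Complex.exp_eq_one_iff.1
    rw [Complex.exp_sub, hge x hx, hge w hw]
    exact div_self (neg_ne_zero.2 hz₀0)
  set q : ℂ → ℝ := fun x =>
    ((Θ x - Complex.log (-x / z₀)) - (Θ w - Complex.log (-w / z₀))).im / (2 * Real.pi) with hq
  have hqc : ContinuousOn q A :=
    (Complex.continuous_im.comp_continuousOn (hgc.sub continuousOn_const)).div_const _
  have hqm : MapsTo q A (range ((↑) : ℤ → ℝ)) := by
    intro x hx
    obtain ⟨n, hn⟩ := hconst x hx
    refine ⟨n, ?_⟩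
    rw [hq]
    simp only
    rw [hn]
    have h1 : ((n : ℂ) * (2 * Real.pi * Complex.I)).im = n * (2 * Real.pi) := by
      simp
    rw [h1]
    have := Real.pi_pos
    field_simp
  have hdisc : IsDiscrete (range ((↑) : ℤ → ℝ)) := ⟨PK_disc⟩
  have h1 : q z = q w := hA.constant_of_mapsTo hdisc hqc hqm hz hw
  have h2 : q w = 0 := by simp [hq]
  rw [h2, hq] at h1
  simp only at h1
  have hpi := Real.pi_pos
  rw [div_eq_zero_iff] at h1
  have h3 := h1.resolve_right (by positivity)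
  simp only [Complex.sub_im, Complex.log_im] at h3
  have h4 := Complex.mem_slitPlane_iff_arg.1 (hslit z hz)
  have h5 := Complex.mem_slitPlane_iff_arg.1 (hslit w hw)
  have h6 := Complex.arg_mem_Ioc (-z / z₀)
  have h7 := Complex.arg_mem_Ioc (-w / z₀)
  have h8 : (-z / z₀).arg < Real.pi := lt_of_le_of_ne h6.2 h4.1
  have h9 : (-w / z₀).arg < Real.pi := lt_of_le_of_ne h7.2 h5.1
  rw [abs_lt]
  constructor
  · linarith [h6.1]
  · linarith [h7.1]

end DS

end S_H36_DS_PK
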