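import Pool.Agent.H12.KS.K20
import Pool.Agent.H12.KS.K24

/-! Joined modules of the proof of MP_8a27c0_an (one section per module). -/

section S_H36_DS_PD

/-!
PD (existence of a separating component).  Proof.  Notation: `W` is connected (homeomorphic to the disc), open,
`AllLogs W` (`allLogs_of_homeo`).  Choose `ρ` from `L1` with `ε` so small that `φ z ∈ Rect \ Bd` for all `z` in the
disc with `dist z ζ = ρ` (`0` is an interior point of the rectangle) and `ρ < 1`; let `T = {z ∈ ball 0 1 | dist z ζ = ρ}`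
(connected, nonempty: an arc), `D = {z ∈ ball 0 1 | dist z ζ < ρ}` (convex).  Fix `z₁ ∈ T` and a path (compact connected set)
`Γ ⊆ W` from `φ 0` to `φ z₁` (image of a segment).  `Γ ∩ Bd` is compact in `Bd ∩ W` and is covered by the relatively open
components, so it meets only finitely many of them, `A 1, ..., A k`; the rest `A 0 = (Bd ∩ W) \ ⋃ A i` is clopen.
For each `i = 0..k` take `N i` from `side_function`.  `N = ∑ N i - 1_Rect` satisfies the hypothesis of
`ess_const` with `E = Bd` (at a point of `A j` the jump of `N j` cancels that of `1_Rect`, the other `N i` are locally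
constant; off `Bd` everything is locally constant).  So `N (φ 0) = N (φ z₁)` (both are off `Bd`), i.e.
`∑ i, (N i (φ z₁) - N i (φ 0)) = 1`.  `N 0` is locally constant along the connected `Γ ⊆ W \ A 0`, so its term vanishes,
and some `i ≥ 1` has `N i (φ z₁) ≠ N i (φ 0)`; hence `φ z₁` and `φ 0` are in different components of `W \ A i`.
`A i = cc W a b c d w` for a point `w` of it.  It remains to see `Sep`:
`A i ∩ φ '' T = ∅`, so `u '' (A i)` is connected and misses `T`; if it is contained in `D`, then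
`ball 0 1 \ D` is connected (see `disc_minus_ball` in HA), contains `0` and `T` and misses `u '' A i`, so `φ 0` and
`φ z₁` would not be separated.  So `u '' (A i)` misses `D ∪ T`, which is connected; all of `φ '' D` is in the component of
`φ z₁`.
-/

namespace DS
open Metric Set Filter Topology MeasureTheory

/-- A locally constant integer valued function is constant on a preconnected set. -/
theorem PD_locconst {S : Set ℂ} (hS : IsPreconnected S) {f : ℂ → ℤ}
    (hf : ∀ z ∈ S, ∀ᶠ z' in 𝓝 z, f z' = f z) {x y : ℂ} (hx : x ∈ S) (hy : y ∈ S) : f x = f y := by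
  refine hS.constant (f := f) (fun z hz => ?_) hx hy
  have h : ContinuousAt f z := by
    refine (continuousAt_const (y := f z)).congr ?_
    filter_upwards [hf z hz] with z' h using h.symm
  exact h.continuousWithinAt

/-- If the relative boundary of a closed set `R` is a finite disjoint union of relatively closed
pieces, then one of the side functions of the pieces separates a point outside `R` from a point
inside. -/
theorem PD_sum {W : Set ℂ} (hW : IsOpen W) (hc : IsPreconnected W) (hL : AllLogs W)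
    {R E : Set ℂ} (hR : IsClosed R) (hE : frontier R = E) (hE' : interior E = ∅)
    (s : Finset (Set ℂ)) (hd : ∀ A ∈ s, ∀ B ∈ s, A ≠ B → Disjoint A B)
    (hU : ∀ z ∈ E ∩ W, ∃ A ∈ s, z ∈ A) (hsub : ∀ A ∈ s, A ⊆ E ∩ W)
    (hcl : ∀ A ∈ s, ∃ F, IsClosed F ∧ A = F ∩ W) {x y : ℂ} (hx : x ∈ W) (hxR : x ∉ R)
    (hy : y ∈ W) (hyR : y ∈ R) (hyE : y ∉ E) :
    ∃ A ∈ s, ∃ N : ℂ → ℤ, (∀ z ∈ W \ A, ∀ᶠ z' in 𝓝 z, N z' = N z) ∧ N x ≠ N y := by
  classical
  have hEc : IsClosed E := hE ▸ isClosed_frontier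
  have key : ∀ A ∈ s, ∃ N : ℂ → ℤ, (∀ z ∈ W \ A, ∀ᶠ z' in 𝓝 z, N z' = N z) ∧
      ∀ w ∈ A, ∃ c : ℤ, ∀ᶠ z in 𝓝 w, z ∉ frontier R → N z = c + (if z ∈ R then 1 else 0) := by
    intro A hA
    have h2 : ∃ F, IsClosed F ∧ (frontier R ∩ W) \ A = F ∩ W := by
      choose! F hF1 hF2 using hcl
      refine ⟨⋃ B ∈ s.erase A, F B, isClosed_biUnion_finset fun B hB =>
        hF1 B (Finset.mem_of_mem_erase hB), ?_⟩
      ext z
      simp only [hE, Set.mem_sdiff, Set.mem_inter_iff, Set.mem_iUnion, exists_prop]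
      constructor
      · rintro ⟨⟨hz1, hz2⟩, hz3⟩
        obtain ⟨B, hB, hzB⟩ := hU z ⟨hz1, hz2⟩
        refine ⟨⟨B, Finset.mem_erase.2 ⟨fun h => hz3 (h ▸ hzB), hB⟩, ?_⟩, hz2⟩
        rw [hF2 B hB] at hzB
        exact hzB.1
      · rintro ⟨⟨B, hB, hzB⟩, hz2⟩
        have hB' := Finset.mem_erase.1 hB
        have hzB' : z ∈ B := by
          rw [hF2 B hB'.2]
          exact ⟨hzB, hz2⟩
        refine ⟨hsub B hB'.2 hzB', fun hzA => ?_⟩
        exact Set.disjoint_left.1 (hd B hB'.2 A hA hB'.1) hzB' hzA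
    have := side_function hW hL hR (A := A) (hE ▸ hsub A hA) (hcl A hA) h2
    obtain ⟨N, h3, h4⟩ := this
    refine ⟨N, h3, fun w hw => ?_⟩
    obtain ⟨c, hc⟩ := h4 w hw
    refine ⟨c, hc.mono fun z hz hzf => ?_⟩
    rw [hz hzf]
  choose! N hN1 hN2 using key
  by_contra hcon
  push Not at hcon
  have h1 : ∀ A ∈ s, N A x = N A y := fun A hA => hcon A hA (N A) (hN1 A hA)
  have h2 := ess_const hW hc hEc hE' (fun z => ∑ A ∈ s, N A z - (if z ∈ R then 1 else 0)) (by
    intro z hz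
    by_cases hzE : z ∈ E
    · obtain ⟨A, hA, hzA⟩ := hU z ⟨hzE, hz⟩
      obtain ⟨c, hcz⟩ := hN2 A hA z hzA
      refine ⟨c + ∑ B ∈ s.erase A, N B z, ?_⟩
      have h3 : ∀ᶠ z' in 𝓝 z, ∀ B ∈ s.erase A, N B z' = N B z := by
        rw [Filter.eventually_all_finset]
        intro B hB
        have hB' := Finset.mem_erase.1 hB
        exact hN1 B hB'.2 z ⟨hz, fun hzB =>
          Set.disjoint_left.1 (hd B hB'.2 A hA hB'.1) hzB hzA⟩
      filter_upwards [h3, hcz] with z' h3 h4 hz'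
      rw [← Finset.add_sum_erase s _ hA, h4 (by rw [hE]; exact hz'), Finset.sum_congr rfl h3]
      ring
    · refine ⟨∑ A ∈ s, N A z - (if z ∈ R then 1 else 0), ?_⟩
      have h3 : ∀ᶠ z' in 𝓝 z, ∀ B ∈ s, N B z' = N B z := by
        rw [Filter.eventually_all_finset]
        intro B hB
        exact hN1 B hB z ⟨hz, fun hzB => hzE (hsub B hB hzB).1⟩
      have h4 : ∀ᶠ z' in 𝓝 z, (z' ∈ R ↔ z ∈ R) := by
        by_cases hzR : z ∈ R
        · have : z ∈ interior R := by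
            by_contra h5
            apply hzE
            rw [← hE, hR.frontier_eq]
            exact ⟨hzR, h5⟩
          filter_upwards [isOpen_interior.mem_nhds this] with z' hz'
          exact ⟨fun _ => hzR, fun _ => interior_subset hz'⟩
        · filter_upwards [hR.isOpen_compl.mem_nhds hzR] with z' hz'
          exact ⟨fun h => absurd h hz', fun h => absurd h hzR⟩
      filter_upwards [h3, h4] with z' h3 h4 _
      simp only [h4]
      rw [Finset.sum_congr rfl h3]) x ⟨hx, fun h => hxR (by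
        rw [← hE, hR.frontier_eq] at h
        exact h.1)⟩ y ⟨hy, hyE⟩
  simp only [if_neg hxR, if_pos hyR] at h2
  rw [Finset.sum_congr rfl h1] at h2
  omega

/-- A small ball about `0` is contained in the interior of the rectangle. -/
theorem PD_small {a b c d : ℝ} (ha : a < 0) (hb : 0 < b) (hc : c < 0) (hd : 0 < d) :
    ∃ ε > 0, ∀ z : ℂ, ‖z‖ < ε → z ∈ Rect a b c d ∧ z ∉ Bd a b c d := by
  refine ⟨min (min (-a) b) (min (-c) d), by simp [ha, hb, hc, hd], fun z hz => ?_⟩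
  simp only [lt_min_iff] at hz
  have h1 := abs_le.1 (Complex.abs_re_le_norm z)
  have h2 := abs_le.1 (Complex.abs_im_le_norm z)
  refine ⟨⟨by linarith, by linarith, by linarith, by linarith⟩, fun h => ?_⟩
  rcases h.2 with h3 | h3 | h3 | h3 <;> linarith

theorem exists_sep {W : Set ℂ} {φ u G Gi : ℂ → ℂ} {μ : Measure ℂ} {ζ : ℂ} {r₀ : ℝ}
    (H : FixPE W φ u G Gi μ ζ r₀) {a b c d : ℝ} (ha : a < 0) (hb : 0 < b) (hc : c < 0) (hd : 0 < d)
    (h0 : φ 0 ∉ Rect a b c d) :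
    ∃ w ∈ Bd a b c d ∩ W, Sep W φ ζ (cc W a b c d w) := by
  classical
  have hWφ : φ '' ball 0 1 = W := by
    ext w
    constructor
    · rintro ⟨z, hz, rfl⟩
      exact H.φ_maps hz
    · intro hw
      exact ⟨u w, H.u_maps hw, H.φu w hw⟩
  have hball : IsConnected (ball (0:ℂ) 1) :=
    (convex_ball (0:ℂ) 1).isConnected ⟨0, mem_ball_self one_pos⟩
  have hWc : IsConnected W := hWφ ▸ hball.image φ H.φ_cont
  have hL : AllLogs W := allLogs_of_homeo H.φ_cont H.φ_maps H.u_cont H.u_maps H.φu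
  have hab : a < b := ha.trans hb
  have hcd : c < d := hc.trans hd
  have h0b : (0:ℂ) ∈ ball (0:ℂ) 1 := mem_ball_self one_pos
  obtain ⟨ε, hε, hsmall⟩ := PD_small ha hb hc hd
  obtain ⟨ρ, hρ, hρε, hρL⟩ := H.L1 (min ε 1) (lt_min hε one_pos)
  have hρ1 : ρ < 1 := hρε.trans_le (min_le_right _ _)
  have hT : ∀ z ∈ ball (0:ℂ) 1, dist z ζ = ρ → φ z ∈ Rect a b c d ∧ φ z ∉ Bd a b c d :=
    fun z hz hzρ => hsmall _ ((hρL z hz hzρ).trans_le (min_le_left _ _))
  obtain ⟨z₁, hz₁, hz₁ρ⟩ := (arc_connected H.hζ hρ (by linarith)).nonempty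
  have hz₁b : z₁ ∈ ball (0:ℂ) 1 := by simpa using hz₁
  obtain ⟨hz₁R, hz₁E⟩ := hT z₁ hz₁b hz₁ρ
  -- the compact connected set `Γ`
  have hBsub : closedBall (0:ℂ) ‖z₁‖ ⊆ ball 0 1 := closedBall_subset_ball hz₁
  have hΓc : IsCompact (φ '' closedBall (0:ℂ) ‖z₁‖) :=
    (isCompact_closedBall _ _).image_of_continuousOn (H.φ_cont.mono hBsub)
  have hΓp : IsPreconnected (φ '' closedBall (0:ℂ) ‖z₁‖) :=
    (convex_closedBall (0:ℂ) ‖z₁‖).isPreconnected.image φ (H.φ_cont.mono hBsub)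
  have hΓW : φ '' closedBall (0:ℂ) ‖z₁‖ ⊆ W := by
    rintro _ ⟨z, hz, rfl⟩
    exact H.φ_maps (hBsub hz)
  set Γ := φ '' closedBall (0:ℂ) ‖z₁‖ with hΓ
  have h0Γ : φ 0 ∈ Γ := ⟨0, mem_closedBall_self (norm_nonneg _), rfl⟩
  have h1Γ : φ z₁ ∈ Γ := ⟨z₁, by simp, rfl⟩
  -- the components
  have key : ∀ w ∈ Bd a b c d ∩ W, (∃ F, IsClosed F ∧ cc W a b c d w = F ∩ W) ∧
      (∃ F, IsClosed F ∧ (Bd a b c d ∩ W) \ cc W a b c d w = F ∩ W) := by
    intro w hw
    obtain ⟨_, _, _, h1, h2, _⟩ := crosscut_sides H.W_open hWc hL hab hcd hw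
    exact ⟨h1, h2⟩
  have key2 : ∀ w ∈ Bd a b c d ∩ W, ∃ F, IsClosed F ∧
      (Bd a b c d ∩ W) \ cc W a b c d w = F ∩ W := fun w hw => (key w hw).2
  choose! F' hF'1 hF'2 using key2
  have hmem : ∀ w ∈ Bd a b c d ∩ W, w ∈ cc W a b c d w := fun w hw =>
    mem_connectedComponentIn hw
  have hccs : ∀ w, cc W a b c d w ⊆ Bd a b c d ∩ W := fun w => connectedComponentIn_subset _ _
  obtain ⟨t, ht1, ht2⟩ := (hΓc.inter_right (isCompact_bd a b c d).isClosed).elim_nhds_subcover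
    (fun w => (F' w)ᶜ) (by
      intro w hw
      have hw' : w ∈ Bd a b c d ∩ W := ⟨hw.2, hΓW hw.1⟩
      refine (hF'1 w hw').isOpen_compl.mem_nhds fun hwF => ?_
      have : w ∈ F' w ∩ W := ⟨hwF, hw'.2⟩
      rw [← hF'2 w hw'] at this
      exact this.2 (hmem w hw'))
  have ht1' : ∀ w ∈ t, w ∈ Bd a b c d ∩ W := fun w hw => ⟨(ht1 w hw).2, hΓW (ht1 w hw).1⟩
  have ht3 : ∀ x ∈ Γ ∩ Bd a b c d, ∃ w ∈ t, x ∈ cc W a b c d w := by
    intro x hx
    obtain ⟨w, hw, hxw⟩ := Set.mem_iUnion₂.1 (ht2 hx)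
    refine ⟨w, hw, ?_⟩
    by_contra hcon
    have : x ∈ (Bd a b c d ∩ W) \ cc W a b c d w := ⟨⟨hx.2, hΓW hx.1⟩, hcon⟩
    rw [hF'2 w (ht1' w hw)] at this
    exact hxw this.1
  -- the finite family
  set A₀ : Set ℂ := (Bd a b c d ∩ W) \ ⋃ w ∈ t, cc W a b c d w with hA₀
  have hsum := PD_sum H.W_open hWc.isPreconnected hL (isClosed_rect a b c d)
    (frontier_rect hab hcd) (interior_bd a b c d) (insert A₀ (t.image (cc W a b c d)))
    (by
      have hdis : ∀ w ∈ t, Disjoint A₀ (cc W a b c d w) := by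
        intro w hw
        rw [Set.disjoint_left]
        intro x hx hxw
        exact hx.2 (Set.mem_biUnion hw hxw)
      intro A hA B hB hAB
      rw [Finset.mem_insert, Finset.mem_image] at hA hB
      rcases hA with rfl | ⟨w, hw, rfl⟩
      · rcases hB with rfl | ⟨w', hw', rfl⟩
        · exact absurd rfl hAB
        · exact hdis w' hw'
      · rcases hB with rfl | ⟨w', hw', rfl⟩
        · exact (hdis w hw).symm
        · rw [Set.disjoint_left]
          intro x hx hx'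
          exact hAB ((connectedComponentIn_eq hx).trans (connectedComponentIn_eq hx').symm))
    (by
      intro z hz
      by_cases hz2 : z ∈ ⋃ w ∈ t, cc W a b c d w
      · obtain ⟨w, hw, hzw⟩ := Set.mem_iUnion₂.1 hz2
        exact ⟨_, Finset.mem_insert_of_mem (Finset.mem_image_of_mem _ hw), hzw⟩
      · exact ⟨_, Finset.mem_insert_self _ _, hz, hz2⟩)
    (by
      intro A hA
      rw [Finset.mem_insert, Finset.mem_image] at hA
      rcases hA with rfl | ⟨w, hw, rfl⟩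
      · exact Set.sdiff_subset
      · exact hccs w)
    (by
      intro A hA
      rw [Finset.mem_insert, Finset.mem_image] at hA
      rcases hA with rfl | ⟨w, hw, rfl⟩
      · refine ⟨Bd a b c d ∩ ⋂ w ∈ t, F' w, (isCompact_bd a b c d).isClosed.inter
          (isClosed_biInter fun w hw => hF'1 w (ht1' w hw)), ?_⟩
        ext x
        simp only [hA₀, Set.mem_sdiff, Set.mem_inter_iff, Set.mem_iUnion, Set.mem_iInter,
          exists_prop, not_exists, not_and]
        constructor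
        · rintro ⟨⟨hx1, hx2⟩, hx3⟩
          refine ⟨⟨hx1, fun w hw => ?_⟩, hx2⟩
          have : x ∈ (Bd a b c d ∩ W) \ cc W a b c d w := ⟨⟨hx1, hx2⟩, hx3 w hw⟩
          rw [hF'2 w (ht1' w hw)] at this
          exact this.1
        · rintro ⟨⟨hx1, hx3⟩, hx2⟩
          refine ⟨⟨hx1, hx2⟩, fun w hw hxw => ?_⟩
          have : x ∈ F' w ∩ W := ⟨hx3 w hw, hx2⟩
          rw [← hF'2 w (ht1' w hw)] at this
          exact this.2 hxw
      · exact (key w (ht1' w hw)).1)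
    (H.φ_maps h0b) h0 (H.φ_maps hz₁b) hz₁R hz₁E
  obtain ⟨A, hA, N, hN, hne⟩ := hsum
  rw [Finset.mem_insert, Finset.mem_image] at hA
  rcases hA with rfl | ⟨w, hw, rfl⟩
  · refine absurd (PD_locconst hΓp (fun z hz => hN z ⟨hΓW hz, fun hzA => ?_⟩) h0Γ h1Γ) hne
    obtain ⟨w, hw, hzw⟩ := ht3 z ⟨hz, hzA.1.1⟩
    exact hzA.2 (Set.mem_biUnion hw hzw)
  refine ⟨w, ht1' w hw, ?_⟩
  set A := cc W a b c d w with hAdef
  have hAs : A ⊆ Bd a b c d ∩ W := hccs w
  have h0A : φ 0 ∈ W \ A := ⟨H.φ_maps h0b, fun h => h0 (hAs h).1.1⟩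
  have hsep : ∀ x ∈ W \ A, N x = N (φ z₁) → x ∉ connectedComponentIn (W \ A) (φ 0) := by
    intro x hx hxN hxc
    apply hne
    rw [← hxN]
    exact PD_locconst isPreconnected_connectedComponentIn
      (fun z hz => hN z (connectedComponentIn_subset _ _ hz)) (mem_connectedComponentIn h0A) hxc
  have hAp : IsPreconnected (u '' A) :=
    (isPreconnected_connectedComponentIn).image u (H.u_cont.mono fun x hx => (hAs hx).2)
  have hAu : ∀ z ∈ ball (0:ℂ) 1, φ z ∈ A → z ∈ u '' A := fun z hz hzA =>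
    ⟨φ z, hzA, H.uφ z hz⟩
  have hAT : ∀ x ∈ A, dist (u x) ζ ≠ ρ := by
    intro x hx hxρ
    have h1 := hT (u x) (H.u_maps (hAs hx).2) hxρ
    rw [H.φu x (hAs hx).2] at h1
    exact h1.2 (hAs hx).1
  by_cases hcase : ∃ x ∈ A, dist (u x) ζ < ρ
  · -- the case of a component near the boundary point
    exfalso
    obtain ⟨x, hx, hxρ⟩ := hcase
    have hall : ∀ y ∈ A, dist (u y) ζ < ρ := by
      by_contra hcon
      push Not at hcon
      obtain ⟨y, hy, hyρ⟩ := hcon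
      have hyρ' : ρ < dist (u y) ζ := lt_of_le_of_ne hyρ (hAT y hy).symm
      have := hAp (ball ζ ρ) (closedBall ζ ρ)ᶜ isOpen_ball isClosed_closedBall.isOpen_compl
        (by
          rintro _ ⟨v, hv, rfl⟩
          rcases lt_or_gt_of_ne (hAT v hv) with h | h
          · exact Or.inl h
          · exact Or.inr (by simpa using h))
        ⟨u x, ⟨x, hx, rfl⟩, hxρ⟩ ⟨u y, ⟨y, hy, rfl⟩, by simpa using hyρ'⟩
      obtain ⟨v, _, hv1, hv2⟩ := this
      exact hv2 (ball_subset_closedBall hv1)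
    have hC := (disc_minus_ball' (p := ζ) hρ.le (by rw [H.hζ]; exact hρ1)).isPreconnected
    have hCs : {z : ℂ | ‖z‖ < 1 ∧ ρ ≤ dist z ζ} ⊆ ball 0 1 := fun z hz => by simpa using hz.1
    have hφC : IsPreconnected (φ '' {z : ℂ | ‖z‖ < 1 ∧ ρ ≤ dist z ζ}) :=
      hC.image φ (H.φ_cont.mono hCs)
    apply hne
    refine PD_locconst hφC ?_ ⟨0, ⟨by simp, ?_⟩, rfl⟩ ⟨z₁, ⟨hz₁, hz₁ρ.ge⟩, rfl⟩
    · rintro _ ⟨z, hz, rfl⟩
      refine hN _ ⟨H.φ_maps (hCs hz), fun hzA => ?_⟩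
      have h1 := hall _ hzA
      rw [H.uφ z (hCs hz)] at h1
      exact absurd hz.2 (not_le.2 h1)
    · rw [dist_comm, dist_zero_right, H.hζ]
      exact hρ1.le
  · push Not at hcase
    refine ⟨h0A, ρ, hρ, fun z hz hzρ => ?_⟩
    have hnot : ∀ v ∈ ball (0:ℂ) 1 ∩ closedBall ζ ρ, φ v ∉ A := by
      intro v hv hvA
      have h1 := hcase _ hvA
      have h2 := hAT _ hvA
      rw [H.uφ v hv.1] at h1 h2
      exact h2 (le_antisymm hv.2 h1)
    have hS : IsPreconnected (ball (0:ℂ) 1 ∩ closedBall ζ ρ) :=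
      ((convex_ball (0:ℂ) 1).inter (convex_closedBall ζ ρ)).isPreconnected
    have hφS := hS.image φ (H.φ_cont.mono Set.inter_subset_left)
    have hzS : z ∈ ball (0:ℂ) 1 ∩ closedBall ζ ρ := ⟨hz, hzρ.le⟩
    refine ⟨hnot z hzS, hsep _ ⟨H.φ_maps hz, hnot z hzS⟩ ?_⟩
    refine PD_locconst hφS ?_ ⟨z, hzS, rfl⟩ ⟨z₁, ⟨hz₁b, hz₁ρ.le⟩, rfl⟩
    rintro _ ⟨v, hv, rfl⟩
    exact hN _ ⟨H.φ_maps hv.1, hnot v hv⟩

end DS

end S_H36_DS_PD

section S_H36_DS_PI

/-!
PI (splitting a separating L-shaped set).  Proof.  Let `A = Lset s t xs ys`, `A' = Lset s' t xs ys'`,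
`Y = Uset s' s t ys' ys`, `R = Rect a s c t`, `R' = Rect a s' c t`, `R'' = Rect s' s c t`; take the functions `N`, `N'`, `N''` of
`side_function` for `(R, A)`, `(R', A')`, `(R'', Y)` (`fix_logs`, `frontier_rect`, `clopen_L`, `clopen_U`).
The function `M = N' + N'' - N` satisfies the hypothesis of `ess_const` with `E = Bd a s c t ∪ Bd a s' c t ∪ Bd s' s c t`
(closed, empty interior: contained in six lines).  Indeed for `z ∈ W`: if `z ∉ A ∪ A' ∪ Y` all three are constant near `z`.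
For points of the three sets (explicit): `re z < s'`: `z ∈ A ↔ z ∈ A'`, `z ∉ Y`, and near `z` membership in `R` and in `R'` are
the same; `re z > s'`: `z ∈ A ↔ z ∈ Y`, `z ∉ A'`, near `z` membership in `R` and in `R''` are the same;
`re z = s'`, `im z < t`: `z ∉ A`, `z ∈ A' ↔ z ∈ Y`, and near `z`, off `E`, exactly one of `z ∈ R'`, `z ∈ R''` holds;
`z = (s', t)`: in all three sets, and near `z`, off `E`, `1_{R'} + 1_{R''} = 1_R`.
Let `M₀` be the component of `φ 0` in `W \ A`.  Take `ρ < 1` from `L1` with `‖φ z‖ < ε` on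
`T = {z ∈ ball 0 1 | dist z ζ = ρ}`, `ε` smaller than `-a`, `s'`, `-c`, `t` and `ρ` smaller than the number in `hsep`'s definition: so
`φ '' T` misses `E` and for `z₁ ∈ T` (`arc_connected`: nonempty) `φ z₁ ∉ A`, `φ z₁ ∉ M₀`.
`N (φ z₁) ≠ N (φ 0)`: by `crosscut_sides` (with `corner_cc`) the two sides of `A`: `φ 0` is in one and `φ z₁` in the other (each
side is a component of `W \ A`); `N` is constant on each side (locally constant on `W \ A`), and near a point of `A` the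
values on the two sides differ by `1`.
So `N' (φ z₁) ≠ N' (φ 0)` or `N'' (φ z₁) ≠ N'' (φ 0)`; as `N'` is locally constant on `W \ A'`, in the first case `φ z₁` is not
in the component of `φ 0` in `W \ A'` and `sep_of_ne` applies; similarly for `Y`.
-/

namespace DS
open Metric Set Filter Topology MeasureTheory

private theorem PI_const {N : ℂ → ℤ} {C : Set ℂ} (hC : IsPreconnected C)
    (hN : ∀ z ∈ C, ∀ᶠ z' in 𝓝 z, N z' = N z) {x y : ℂ} (hx : x ∈ C) (hy : y ∈ C) : N x = N y := by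
  refine hC.induction₂ (fun a b => N a = N b) (fun z hz => ?_) (fun _ _ _ _ _ _ h1 h2 => h1.trans h2)
    (fun _ _ _ _ h => h.symm) hx hy
  exact (eventually_nhdsWithin_of_eventually_nhds (hN z hz)).mono fun _ h => h.symm

private theorem PI_re_lt {z : ℂ} {b : ℝ} (h : z.re < b) : ∀ᶠ z' in 𝓝 z, z'.re < b :=
  (isOpen_Iio.preimage Complex.continuous_re).mem_nhds h

private theorem PI_lt_re {z : ℂ} {b : ℝ} (h : b < z.re) : ∀ᶠ z' in 𝓝 z, b < z'.re :=
  (isOpen_Ioi.preimage Complex.continuous_re).mem_nhds h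

private theorem PI_im_lt {z : ℂ} {b : ℝ} (h : z.im < b) : ∀ᶠ z' in 𝓝 z, z'.im < b :=
  (isOpen_Iio.preimage Complex.continuous_im).mem_nhds h

private theorem PI_lt_im {z : ℂ} {b : ℝ} (h : b < z.im) : ∀ᶠ z' in 𝓝 z, b < z'.im :=
  (isOpen_Ioi.preimage Complex.continuous_im).mem_nhds h

open Classical in
/-- the geometric part -/
private theorem PI_geo {a c s s' t xs ys ys' : ℝ} (ha : a < 0) (hc : c < 0) (hxs : 0 ≤ xs)
    (hxs' : xs < s') (hys' : 0 ≤ ys') (hss : s' < s) (hct : c < t) (z : ℂ) :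
    ∃ k : ℤ, ∀ᶠ z' in 𝓝 z, z' ∉ Bd a s c t → z' ∉ Bd a s' c t → z' ∉ Bd s' s c t →
      (if z ∈ Lset s' t xs ys' then (if z' ∈ Rect a s' c t then (1:ℤ) else 0) else 0) +
      (if z ∈ Uset s' s t ys' ys then (if z' ∈ Rect s' s c t then (1:ℤ) else 0) else 0) -
      (if z ∈ Lset s t xs ys then (if z' ∈ Rect a s c t then (1:ℤ) else 0) else 0) = k := by
  rcases lt_trichotomy z.re s' with hlt | heq | hgt
  · -- left of `s'`
    have hY : z ∉ Uset s' s t ys' ys := by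
      rintro (⟨-, h1, -⟩ | ⟨h1, -⟩ | ⟨h1, -⟩) <;> linarith
    have hA : z ∈ Lset s t xs ys ↔ z ∈ Lset s' t xs ys' := by
      constructor
      · rintro (⟨h1, h2, h3⟩ | ⟨h1, -⟩)
        · exact Or.inl ⟨h1, h2, hlt.le⟩
        · linarith
      · rintro (⟨h1, h2, h3⟩ | ⟨h1, -⟩)
        · exact Or.inl ⟨h1, h2, by linarith⟩
        · linarith
    refine ⟨0, ?_⟩
    filter_upwards [PI_re_lt hlt] with z' hz' _ _ _
    have hR : z' ∈ Rect a s c t ↔ z' ∈ Rect a s' c t := by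
      constructor
      · rintro ⟨h1, h2, h3, h4⟩
        exact ⟨h1, hz'.le, h3, h4⟩
      · rintro ⟨h1, h2, h3, h4⟩
        exact ⟨h1, by linarith, h3, h4⟩
    simp only [if_neg hY, hA, hR]
    ring
  · -- on the line
    have hA : z ∈ Lset s t xs ys ↔ z.im = t := by
      constructor
      · rintro (⟨h1, h2, h3⟩ | ⟨h1, -⟩)
        · exact h1
        · linarith
      · intro h1
        exact Or.inl ⟨h1, by linarith, by linarith⟩
    have hYA : z ∈ Uset s' s t ys' ys ↔ z ∈ Lset s' t xs ys' := by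
      constructor
      · rintro (⟨h1, -, -⟩ | ⟨h1, -⟩ | ⟨h1, h2, h3⟩)
        · exact Or.inl ⟨h1, by linarith, heq.le⟩
        · linarith
        · exact Or.inr ⟨h1, h2, h3⟩
      · rintro (⟨h1, -, -⟩ | ⟨h1, h2, h3⟩)
        · exact Or.inl ⟨h1, heq.ge, by linarith⟩
        · exact Or.inr (Or.inr ⟨h1, h2, h3⟩)
    by_cases hz : z ∈ Lset s' t xs ys'
    · have hzc : c < z.im := by
        rcases hz with ⟨h1, -, -⟩ | ⟨-, h2, -⟩
        · linarith
        · linarith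
      have hzt : z.im ≤ t := by
        rcases hz with ⟨h1, -, -⟩ | ⟨-, -, h3⟩
        · exact h1.le
        · exact h3
      rcases hzt.lt_or_eq with him | him
      · refine ⟨1, ?_⟩
        have hzA : z ∉ Lset s t xs ys := fun h => by linarith [hA.1 h]
        filter_upwards [PI_im_lt him, PI_lt_im hzc, PI_re_lt (show z.re < s by linarith),
          PI_lt_re (show a < z.re by linarith)] with z' g1 g2 g3 g4 e1 e2 e3
        have hne : z'.re ≠ s' := by
          intro h1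
          exact e2 ⟨⟨g4.le, h1.le, g2.le, g1.le⟩, Or.inr (Or.inl h1)⟩
        rw [if_pos hz, if_pos (hYA.2 hz), if_neg hzA]
        rcases lt_or_gt_of_ne hne with h1 | h1
        · rw [if_pos ⟨g4.le, h1.le, g2.le, g1.le⟩, if_neg (fun h => by linarith [h.1])]
          ring
        · rw [if_neg (fun h => by linarith [h.2.1]), if_pos ⟨h1.le, g3.le, g2.le, g1.le⟩]
          ring
      · refine ⟨0, ?_⟩
        filter_upwards [PI_lt_im hzc, PI_re_lt (show z.re < s by linarith),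
          PI_lt_re (show a < z.re by linarith)] with z' g2 g3 g4 e1 e2 e3
        rw [if_pos hz, if_pos (hYA.2 hz), if_pos (hA.2 him)]
        rcases le_or_gt z'.im t with g1 | g1
        · have hne : z'.re ≠ s' := by
            intro h1
            exact e2 ⟨⟨g4.le, h1.le, g2.le, g1⟩, Or.inr (Or.inl h1)⟩
          rcases lt_or_gt_of_ne hne with h1 | h1
          · rw [if_pos ⟨g4.le, h1.le, g2.le, g1⟩, if_neg (fun h => by linarith [h.1]),
              if_pos ⟨g4.le, g3.le, g2.le, g1⟩]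
            ring
          · rw [if_neg (fun h => by linarith [h.2.1]), if_pos ⟨h1.le, g3.le, g2.le, g1⟩,
              if_pos ⟨g4.le, g3.le, g2.le, g1⟩]
            ring
        · rw [if_neg (fun h => by linarith [h.2.2.2]), if_neg (fun h => by linarith [h.2.2.2]),
            if_neg (fun h => by linarith [h.2.2.2])]
          ring
    · refine ⟨0, Eventually.of_forall fun z' _ _ _ => ?_⟩
      have hzA : z ∉ Lset s t xs ys := by
        intro h1
        exact hz (Or.inl ⟨hA.1 h1, by linarith, heq.le⟩)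
      rw [if_neg hz, if_neg (fun h1 => hz (hYA.1 h1)), if_neg hzA]
      ring
  · -- right of `s'`
    have hA' : z ∉ Lset s' t xs ys' := by
      rintro (⟨-, -, h1⟩ | ⟨h1, -⟩) <;> linarith
    have hA : z ∈ Lset s t xs ys ↔ z ∈ Uset s' s t ys' ys := by
      constructor
      · rintro (⟨h1, h2, h3⟩ | ⟨h1, h2, h3⟩)
        · exact Or.inl ⟨h1, hgt.le, h3⟩
        · exact Or.inr (Or.inl ⟨h1, h2, h3⟩)
      · rintro (⟨h1, h2, h3⟩ | ⟨h1, h2, h3⟩ | ⟨h1, -⟩)
        · exact Or.inl ⟨h1, by linarith, h3⟩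
        · exact Or.inr ⟨h1, h2, h3⟩
        · linarith
    refine ⟨0, ?_⟩
    filter_upwards [PI_lt_re hgt] with z' hz' _ _ _
    have hR : z' ∈ Rect a s c t ↔ z' ∈ Rect s' s c t := by
      constructor
      · rintro ⟨h1, h2, h3, h4⟩
        exact ⟨hz'.le, h2, h3, h4⟩
      · rintro ⟨h1, h2, h3, h4⟩
        exact ⟨by linarith, h2, h3, h4⟩
    simp only [if_neg hA', hA, hR]
    ring

open Classical in
/-- the side function near an arbitrary point -/
private theorem PI_side {W A R B : Set ℂ} {N : ℂ → ℤ}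
    (h1 : ∀ z ∈ W \ A, ∀ᶠ z' in 𝓝 z, N z' = N z)
    (h2 : ∀ w ∈ A, ∃ c : ℤ, ∀ᶠ z in 𝓝 w, z ∉ B → N z = c + (if z ∈ R then 1 else 0))
    {z : ℂ} (hz : z ∈ W) : ∃ k : ℤ, ∀ᶠ z' in 𝓝 z, z' ∉ B →
      N z' = k + (if z ∈ A then (if z' ∈ R then (1:ℤ) else 0) else 0) := by
  by_cases hzA : z ∈ A
  · obtain ⟨k, hk⟩ := h2 z hzA
    refine ⟨k, hk.mono fun z' hz' hB => ?_⟩
    rw [if_pos hzA]
    exact hz' hB
  · refine ⟨N z, (h1 z ⟨hz, hzA⟩).mono fun z' hz' _ => ?_⟩
    rw [if_neg hzA, add_zero]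
    exact hz'

theorem sep_add {W : Set ℂ} {φ u G Gi : ℂ → ℂ} {μ : Measure ℂ} {ζ : ℂ} {r₀ : ℝ}
    (H : FixPE W φ u G Gi μ ζ r₀) {a c s s' t xs ys ys' : ℝ} (ha : a < 0) (hc : c < 0)
    (h : Corner W s t xs ys) (h' : Corner W s' t xs ys') (hss : s' < s)
    (h0 : φ 0 ∉ Rect a s c t) (hsep : Sep W φ ζ (Lset s t xs ys)) :
    Sep W φ ζ (Lset s' t xs ys') ∨ Sep W φ ζ (Uset s' s t ys' ys) := by
  classical
  have hWo := H.W_open
  have hWc := fix_conn H
  have hWL := fix_logs H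
  have hxs := h.hxs
  have hxs' := h'.hxs'
  have hys := h.hys
  have hyt := h.hys'
  have hys' := h'.hys
  have hs'0 : 0 < s' := by linarith
  have has : a < s := by linarith
  have has' : a < s' := by linarith
  have hct : c < t := by linarith
  have e1 := corner_cc h ha hc
  have e2 := corner_cc h' ha hc
  have e3 := corner_cc' h h' hss hc
  have s1 : Lset s t xs ys ⊆ Bd a s c t ∩ W := by
    rw [← e1]; exact connectedComponentIn_subset _ _
  have s2 : Lset s' t xs ys' ⊆ Bd a s' c t ∩ W := by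
    rw [← e2]; exact connectedComponentIn_subset _ _
  have s3 : Uset s' s t ys' ys ⊆ Bd s' s c t ∩ W := by
    rw [← e3]; exact connectedComponentIn_subset _ _
  have f1 := frontier_rect has hct
  have f2 := frontier_rect has' hct
  have f3 := frontier_rect hss hct
  obtain ⟨c1, c1'⟩ := clopen_L h ha hc
  obtain ⟨c2, c2'⟩ := clopen_L h' ha hc
  obtain ⟨c3, c3'⟩ := clopen_U h h' hss hc
  obtain ⟨N, hN1, hN2⟩ := side_function hWo hWL (isClosed_rect a s c t)
    (A := Lset s t xs ys) (by rw [f1]; exact s1) c1 (by rw [f1]; exact c1')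
  obtain ⟨N', hN1', hN2'⟩ := side_function hWo hWL (isClosed_rect a s' c t)
    (A := Lset s' t xs ys') (by rw [f2]; exact s2) c2 (by rw [f2]; exact c2')
  obtain ⟨N'', hN1'', hN2''⟩ := side_function hWo hWL (isClosed_rect s' s c t)
    (A := Uset s' s t ys' ys) (by rw [f3]; exact s3) c3 (by rw [f3]; exact c3')
  rw [f1] at hN2
  rw [f2] at hN2'
  rw [f3] at hN2''
  -- the exceptional set
  set E : Set ℂ := Bd a s c t ∪ (Bd a s' c t ∪ Bd s' s c t) with hE
  have hEc : IsClosed E := (isCompact_bd _ _ _ _).isClosed.union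
    ((isCompact_bd _ _ _ _).isClosed.union (isCompact_bd _ _ _ _).isClosed)
  have hEi : interior E = ∅ := by
    rw [hE, interior_union_isClosed_of_interior_empty (isCompact_bd _ _ _ _).isClosed,
      interior_bd]
    rw [interior_union_isClosed_of_interior_empty (isCompact_bd _ _ _ _).isClosed,
      interior_bd]
    exact interior_bd _ _ _ _
  have hess : ∀ z ∈ W, ∃ k : ℤ, ∀ᶠ z' in 𝓝 z, z' ∉ E → N' z' + N'' z' - N z' = k := by
    intro z hz
    obtain ⟨k1, hk1⟩ := PI_side hN1 hN2 hz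
    obtain ⟨k2, hk2⟩ := PI_side hN1' hN2' hz
    obtain ⟨k3, hk3⟩ := PI_side hN1'' hN2'' hz
    obtain ⟨k, hk⟩ := PI_geo (ys := ys) (t := t) ha hc hxs hxs' hys' hss hct z
    refine ⟨k2 + k3 - k1 + k, ?_⟩
    filter_upwards [hk1, hk2, hk3, hk] with z' g1 g2 g3 g4 hzE
    have n1 : z' ∉ Bd a s c t := fun hh => hzE (Or.inl hh)
    have n2 : z' ∉ Bd a s' c t := fun hh => hzE (Or.inr (Or.inl hh))
    have n3 : z' ∉ Bd s' s c t := fun hh => hzE (Or.inr (Or.inr hh))
    have g5 := g4 n1 n2 n3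
    rw [g1 n1, g2 n2, g3 n3]
    linarith
  have hM := ess_const hWo hWc.isPreconnected hEc hEi (fun z => N' z + N'' z - N z) hess
  -- the arc
  obtain ⟨h0W, ρ₀, hρ₀, hsep'⟩ := hsep
  obtain ⟨ε, hε0, hεa, hεs, hεc, hεt, hερ, hε1⟩ : ∃ ε, 0 < ε ∧ ε ≤ -a ∧ ε ≤ s' ∧ ε ≤ -c ∧ ε ≤ t ∧
      ε ≤ ρ₀ ∧ ε ≤ 1 := by
    refine ⟨min (-a) (min s' (min (-c) (min t (min ρ₀ 1)))), ?_, ?_, ?_, ?_, ?_, ?_, ?_⟩
    · refine lt_min (by linarith) (lt_min hs'0 (lt_min (by linarith) (lt_min (by linarith)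
        (lt_min hρ₀ one_pos))))
    · exact min_le_left _ _
    · exact (min_le_right _ _).trans (min_le_left _ _)
    · exact (min_le_right _ _).trans ((min_le_right _ _).trans (min_le_left _ _))
    · exact (min_le_right _ _).trans ((min_le_right _ _).trans ((min_le_right _ _).trans
        (min_le_left _ _)))
    · exact (min_le_right _ _).trans ((min_le_right _ _).trans ((min_le_right _ _).trans
        ((min_le_right _ _).trans (min_le_left _ _))))
    · exact (min_le_right _ _).trans ((min_le_right _ _).trans ((min_le_right _ _).trans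
        ((min_le_right _ _).trans (min_le_right _ _))))
  obtain ⟨ρ, hρ, hρε, hρT⟩ := H.L1 ε hε0
  have hTbox : ∀ z ∈ ball (0:ℂ) 1, dist z ζ = ρ →
      a < (φ z).re ∧ (φ z).re < s' ∧ c < (φ z).im ∧ (φ z).im < t := by
    intro z hz hzρ
    have g1 := hρT z hz hzρ
    have g2 := Complex.abs_re_le_norm (φ z)
    have g3 := Complex.abs_im_le_norm (φ z)
    have g4 := abs_le.1 g2
    have g5 := abs_le.1 g3
    refine ⟨?_, ?_, ?_, ?_⟩ <;> linarith [g4.1, g4.2, g5.1, g5.2]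
  have hTE : ∀ z ∈ ball (0:ℂ) 1, dist z ζ = ρ → φ z ∉ E := by
    intro z hz hzρ hzE
    obtain ⟨g1, g2, g3, g4⟩ := hTbox z hz hzρ
    rcases hzE with ⟨-, k | k | k | k⟩ | ⟨-, k | k | k | k⟩ | ⟨k, -⟩
    all_goals first
      | linarith
      | linarith [k.1]
  obtain ⟨z₁, hz₁, hz₁'⟩ : ∃ z₁ ∈ ball (0:ℂ) 1, dist z₁ ζ = ρ := by
    refine ⟨((1 - ρ : ℝ) : ℂ) * ζ, ?_, ?_⟩
    · rw [mem_ball_zero_iff, norm_mul, H.hζ, mul_one, Complex.norm_real, Real.norm_eq_abs,
        abs_of_nonneg (by linarith)]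
      linarith
    · rw [Complex.dist_eq]
      have : ((1 - ρ : ℝ) : ℂ) * ζ - ζ = ((-ρ : ℝ) : ℂ) * ζ := by
        push_cast; ring
      rw [this, norm_mul, H.hζ, mul_one, Complex.norm_real, Real.norm_eq_abs, abs_neg,
        abs_of_pos hρ]
  have hz1W : φ z₁ ∈ W := H.φ_maps hz₁
  have h0W' : φ 0 ∈ W := h0W.1
  obtain ⟨hz1A, hz1c⟩ := hsep' z₁ hz₁ (by rw [hz₁']; linarith)
  have h0E : φ 0 ∉ E := by
    rintro (k | k | k)
    · exact h0 k.1
    · exact h0 ⟨k.1.1, k.1.2.1.trans hss.le, k.1.2.2⟩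
    · exact h0 ⟨has'.le.trans k.1.1, k.1.2⟩
  have hMeq := hM (φ 0) ⟨h0W', h0E⟩ (φ z₁) ⟨hz1W, hTE z₁ hz₁ hz₁'⟩
  -- the values of `N`
  have hstW : (⟨s, t⟩ : ℂ) ∈ Bd a s c t ∩ W :=
    ⟨⟨⟨has.le, le_rfl, hct.le, le_rfl⟩, Or.inr (Or.inl rfl)⟩, h.htop s h.hxs' le_rfl⟩
  have hstA : (⟨s, t⟩ : ℂ) ∈ Lset s t xs ys := Or.inl ⟨rfl, h.hxs', le_rfl⟩
  obtain ⟨Cin, Cout, hS, -, -, hloc⟩ := crosscut_sides hWo hWc hWL has hct hstW
  rw [e1] at hS hloc
  have hNne : N (φ 0) ≠ N (φ z₁) := by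
    obtain ⟨k, hk⟩ := hN2 _ hstA
    have hnear := hk.and (hloc _ hstA)
    obtain ⟨r, hr, hball⟩ := Metric.eventually_nhds_iff_ball.1 hnear
    obtain ⟨V, hVr, -, -, -, i1, i2⟩ := local_rect has hct hstW.1 hr
    obtain ⟨y, hyV, hyR, hyB⟩ := i1.nonempty
    obtain ⟨y', hyV', hyR'⟩ := i2.nonempty
    have hyB' : y' ∉ Bd a s c t := fun hh => hyR' hh.1
    obtain ⟨p1, p2⟩ := hball y (hVr hyV)
    obtain ⟨p1', p2'⟩ := hball y' (hVr hyV')
    have q1 := p1 hyB
    rw [if_pos hyR] at q1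
    have q1' := p1' hyB'
    rw [if_neg hyR'] at q1'
    have q2 : y ∈ Cin := (p2 hyB).1 hyR
    have q2' : y' ∈ Cout := (p2' hyB').2 hyR'
    have hin : Cin ⊆ W \ Lset s t xs ys := by
      rw [← hS.union]; exact subset_union_left
    have hout : Cout ⊆ W \ Lset s t xs ys := by
      rw [← hS.union]; exact subset_union_right
    have kin : ∀ x ∈ Cin, N x = k + 1 := fun x hx => by
      rw [← q1]
      exact PI_const hS.cΔ.isPreconnected (fun z hz => hN1 z (hin hz)) hx q2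
    have kout : ∀ x ∈ Cout, N x = k := fun x hx => by
      rw [add_zero] at q1'
      rw [← q1']
      exact PI_const hS.cM.isPreconnected (fun z hz => hN1 z (hout hz)) hx q2'
    have m0 : φ 0 ∈ Cin ∪ Cout := by rw [hS.union]; exact h0W
    have m1 : φ z₁ ∈ Cin ∪ Cout := by rw [hS.union]; exact ⟨hz1W, hz1A⟩
    rcases m0 with m0 | m0 <;> rcases m1 with m1 | m1
    · exact absurd (hS.cΔ.isPreconnected.subset_connectedComponentIn m0 hin m1) hz1c
    · rw [kin _ m0, kout _ m1]; omega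
    · rw [kout _ m0, kin _ m1]; omega
    · exact absurd (hS.cM.isPreconnected.subset_connectedComponentIn m0 hout m1) hz1c
  have hcase : N' (φ 0) ≠ N' (φ z₁) ∨ N'' (φ 0) ≠ N'' (φ z₁) := by
    by_contra hcon
    push Not at hcon
    obtain ⟨k1, k2⟩ := hcon
    apply hNne
    have hMeq' : N' (φ 0) + N'' (φ 0) - N (φ 0) = N' (φ z₁) + N'' (φ z₁) - N (φ z₁) := hMeq
    omega
  rcases hcase with hcase | hcase
  · left
    refine sep_of_ne H (fun z hz => (s2 hz).2) ?_ hρ (by linarith) ?_ ?_ hz₁ hz₁' ?_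
    · rw [← e2]; exact isPreconnected_connectedComponentIn
    · intro z hz hzρ hzA
      exact hTE z hz hzρ (Or.inr (Or.inl (s2 hzA).1))
    · intro hzA
      exact h0E (Or.inr (Or.inl (s2 hzA).1))
    · intro hcon
      apply hcase
      have hφ0 : φ 0 ∈ W \ Lset s' t xs ys' :=
        ⟨h0W', fun hzA => h0E (Or.inr (Or.inl (s2 hzA).1))⟩
      exact PI_const isPreconnected_connectedComponentIn
        (fun z hz => hN1' z (connectedComponentIn_subset _ _ hz))
        (mem_connectedComponentIn hφ0) hcon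
  · right
    refine sep_of_ne H (fun z hz => (s3 hz).2) ?_ hρ (by linarith) ?_ ?_ hz₁ hz₁' ?_
    · rw [← e3]; exact isPreconnected_connectedComponentIn
    · intro z hz hzρ hzA
      exact hTE z hz hzρ (Or.inr (Or.inr (s3 hzA).1))
    · intro hzA
      exact h0E (Or.inr (Or.inr (s3 hzA).1))
    · intro hcon
      apply hcase
      have hφ0 : φ 0 ∈ W \ Uset s' s t ys' ys :=
        ⟨h0W', fun hzA => h0E (Or.inr (Or.inr (s3 hzA).1))⟩
      exact PI_const isPreconnected_connectedComponentIn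
        (fun z hz => hN1'' z (connectedComponentIn_subset _ _ hz))
        (mem_connectedComponentIn hφ0) hcon

end DS

end S_H36_DS_PI

section S_H36_DS_YB

/-!
YB (filling the quadrant).  Proof.
(1) For any `s₁ ∈ (0, s]` with `Corner W s₁ t xs ys₁` and `Sep (Lset s₁ t xs ys₁)`: by `hmeet` (with `corner_cc`;
the rectangle `Rect a s₁ c t` is contained in `Rect a s c t`) some `q` of `A = Lset s₁ t xs ys₁` has `G q ∈ A`.  If `q` is on the
top (`im q = t`) then `im (G q) ≥ km t > t`, impossible.  So `q = (s₁, y)` with `ys₁ < y ≤ t`, `re (G q) ≤ lp s₁ < s₁`, so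
`G q` is on the top: `im (G q) = t` and `xs < re (G q) ≤ lp s₁`.  In particular `xs < lp s₁`.
(2) For `s₂` with `lp s₁ < s₂ < s₁`: `xs < s₂`; `Corner W s₂ t xs ys₂` for some `ys₂` (as in `corner_exists`: `(s₂, 0) ∉ W`,
`(s₂, t) ∈ W`, and the same `xs`).  By `sep_add` either `Sep (Lset s₂ t xs ys₂)` or `Sep (Uset s₂ s₁ t ys₂ ys₁)`.  The second is
impossible: by `hmeet` (with `corner_cc'`) some `q ∈ Uset` has `G q ∈ Uset`; but `0 < re q ≤ s₁`, so `re (G q) ≤ lp s₁ < s₂`.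
(3) Hence the set of `s₁ ∈ (0, s]` for which `xs < s₁` and `Sep (Lset s₁ t xs ys₁)` holds (for the `ys₁` with
`Corner W s₁ t xs ys₁`, which is unique) contains `s` and with `s₁` all of `(lp s₁, s₁]`; so it is all of `(0, s]`
(iterate with the factor `(1 + lp)/2`).  By (1) `xs < lp s₁` for all `s₁ ∈ (0, s]`, so `xs = 0`; and for every
`x ∈ (0, s]` there is `y_x ∈ (0, t]` with `im (G (x, y_x)) = t` and `(x, y) ∈ W` for `y_x ≤ y ≤ t`.
(4) Hence `(x, y) ∈ W` whenever `0 < x ≤ s`, `0 < y ≤ t`, `t ≤ im (G (x,y))` (monotonicity in `y`: `mono`, so `y_x ≤ y`).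
(5) For a general `q = (x, y)`, `0 < x ≤ s`, `0 < y ≤ t`: by `repos`, `impos` the iterates `G^[n] q` stay in
`{0 < re ≤ s, 0 < im}` as long as the imaginary part is `≤ t`, and the imaginary part grows by the factor `km > 1`; let `n` be
the first index with `t < im (G^[n+1] q)`; then `G^[n] q ∈ W` by (4), and `hWi` gives `G^[i] q ∈ W` for `i = n, ..., 0`.
-/

namespace DS
open Metric Set Filter Topology MeasureTheory

theorem fill_quad {W : Set ℂ} {φ u G Gi : ℂ → ℂ} {μ : Measure ℂ} {ζ : ℂ} {r₀ : ℝ}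
    (H : FixPE W φ u G Gi μ ζ r₀) {r lp km kp : ℝ} (HL : HypLoc G r lp km kp)
    (hWi : ∀ z ∈ Sq r, G z ∈ W → z ∈ W) (hax : ∀ x : ℝ, |x| ≤ r → (⟨x, 0⟩ : ℂ) ∉ W) {r₁ : ℝ}
    (hmeet : Meet W φ G ζ r₁) {a c s t xs ys : ℝ} (ha : a < 0) (hc : c < 0) (hs : 0 < s)
    (ht : 0 < t) (hR : Rect a s c t ⊆ closedBall 0 r₁) (hR' : Rect a s c t ⊆ Sq r)
    (h0 : φ 0 ∉ Rect a s c t) (h0t : (⟨0, t⟩ : ℂ) ∉ W) (hcor : Corner W s t xs ys)
    (hsep : Sep W φ ζ (Lset s t xs ys)) :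
    ∀ x y : ℝ, 0 < x → x ≤ s → 0 < y → y ≤ t → (⟨x, y⟩ : ℂ) ∈ W := by
  have hlp := HL.hlp
  have hlp1 := HL.hlp1
  have hkm := HL.hkm
  have hsub : ∀ {b : ℝ}, b ≤ s → Rect a b c t ⊆ Rect a s c t := fun hb z hz =>
    ⟨hz.1, hz.2.1.trans hb, hz.2.2⟩
  have hmemR : ∀ x y : ℝ, 0 < x → x ≤ s → 0 < y → y ≤ t → (⟨x, y⟩ : ℂ) ∈ Sq r := by
    intro x y hx hxs' hy hyt
    exact hR' ⟨(ha.trans hx).le, hxs', (hc.trans hy).le, hyt⟩
  have hsr : s ≤ r := (hmemR s t hs le_rfl ht le_rfl).2.1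
  -- step 1
  have claim1 : ∀ s₁ ys₁ : ℝ, 0 < s₁ → s₁ ≤ s → Corner W s₁ t xs ys₁ →
      Sep W φ ζ (Lset s₁ t xs ys₁) →
      xs < lp * s₁ ∧ ∃ y, ys₁ < y ∧ y ≤ t ∧ (G ⟨s₁, y⟩).im = t := by
    intro s₁ ys₁ hs₁ hs₁s hC hS
    have hcc := corner_cc hC ha hc
    have hw : (⟨s₁, t⟩ : ℂ) ∈ Bd a s₁ c t ∩ W :=
      ⟨⟨⟨(ha.trans hs₁).le, le_rfl, (hc.trans ht).le, le_rfl⟩, Or.inr (Or.inl rfl)⟩,
        hC.htop s₁ hC.hxs' le_rfl⟩
    have hm := hmeet a s₁ c t (ha.trans hs₁) (hc.trans ht) ((hsub hs₁s).trans hR) _ hw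
      (by rw [hcc]; exact hS)
    rw [hcc] at hm
    obtain ⟨q', hq', q, hq, rfl⟩ := hm
    rcases hq with ⟨h1, h2, h3⟩ | ⟨h1, h2, h3⟩
    · exfalso
      have hre : 0 < q.re := lt_of_le_of_lt hC.hxs h2
      have hqS : q ∈ Sq r := hR' ⟨(ha.trans hre).le, h3.trans hs₁s, by rw [h1]; exact (hc.trans ht).le,
        h1.le⟩
      have h4 := (HL.impos q hqS (by rw [h1]; exact ht)).1
      rw [h1] at h4
      have h5 : (G q).im ≤ t := by
        rcases hq' with ⟨h, -, -⟩ | ⟨-, -, h⟩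
        · exact h.le
        · exact h
      nlinarith
    · have hre : 0 < q.re := by rw [h1]; exact hs₁
      have him : 0 < q.im := lt_of_le_of_lt hC.hys h2
      have hqS : q ∈ Sq r := hR' ⟨(ha.trans hre).le, by rw [h1]; exact hs₁s, (hc.trans him).le, h3⟩
      have h4 := (HL.repos q hqS hre).2
      rw [h1] at h4
      have h5 : (G q).re < s₁ := by nlinarith
      have e : q = ⟨s₁, q.im⟩ := by
        apply Complex.ext
        · exact h1
        · rfl
      rcases hq' with ⟨h6, h7, h8⟩ | ⟨h6, -, -⟩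
      · refine ⟨lt_of_lt_of_le h7 h4, q.im, h2, h3, ?_⟩
        rw [← e]
        exact h6
      · exact absurd h6 (ne_of_lt h5)
  -- step 2
  have claim2 : ∀ s₁ ys₁ s₂ : ℝ, 0 < s₁ → s₁ ≤ s → Corner W s₁ t xs ys₁ →
      Sep W φ ζ (Lset s₁ t xs ys₁) → lp * s₁ < s₂ → s₂ < s₁ →
      ∃ ys₂, Corner W s₂ t xs ys₂ ∧ Sep W φ ζ (Lset s₂ t xs ys₂) := by
    intro s₁ ys₁ s₂ hs₁ hs₁s hC hS h1 h2
    obtain ⟨hx1, -⟩ := claim1 s₁ ys₁ hs₁ hs₁s hC hS
    have hs₂ : 0 < s₂ := lt_trans (by positivity) h1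
    have hW₂ : (⟨s₂, t⟩ : ℂ) ∈ W := hC.htop s₂ (hx1.trans h1) h2.le
    have hW₂' : (⟨s₂, 0⟩ : ℂ) ∉ W := hax s₂ (by rw [abs_of_pos hs₂]; linarith)
    obtain ⟨xs', ys₂, hC₂⟩ := corner_exists H.W_open hs₂ ht h0t hW₂' hW₂
    have hxx : xs' = xs := by
      rcases lt_trichotomy xs' xs with h | h | h
      · exact absurd (hC₂.htop xs h (hx1.trans h1).le) hC.hx
      · exact h
      · exact absurd (hC.htop xs' h (hC₂.hxs'.trans h2).le) hC₂.hx
    subst hxx
    refine ⟨ys₂, hC₂, ?_⟩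
    rcases sep_add H ha hc hC hC₂ h2 (fun h => h0 (hsub hs₁s h)) hS with h | h
    · exact h
    · exfalso
      have hcc := corner_cc' hC hC₂ h2 hc
      have hw : (⟨s₁, t⟩ : ℂ) ∈ Bd s₂ s₁ c t ∩ W :=
        ⟨⟨⟨h2.le, le_rfl, (hc.trans ht).le, le_rfl⟩, Or.inr (Or.inl rfl)⟩,
          hC.htop s₁ hC.hxs' le_rfl⟩
      have hsub' : Rect s₂ s₁ c t ⊆ Rect a s c t := fun z hz =>
        ⟨(ha.trans hs₂).le.trans hz.1, hz.2.1.trans hs₁s, hz.2.2⟩
      have hm := hmeet s₂ s₁ c t h2 (hc.trans ht) (hsub'.trans hR) _ hw (by rw [hcc]; exact h)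
      rw [hcc] at hm
      obtain ⟨q', hq', q, hq, rfl⟩ := hm
      have hqr : s₂ ≤ q.re ∧ q.re ≤ s₁ ∧ 0 < q.im ∧ q.im ≤ t := by
        rcases hq with ⟨h3, h4, h5⟩ | ⟨h3, h4, h5⟩ | ⟨h3, h4, h5⟩
        · exact ⟨h4, h5, by rw [h3]; exact ht, h3.le⟩
        · exact ⟨by rw [h3]; exact h2.le, h3.le, lt_of_le_of_lt hC.hys h4, h5⟩
        · exact ⟨h3.ge, by rw [h3]; exact h2.le, lt_of_le_of_lt hC₂.hys h4, h5⟩
      obtain ⟨h3, h4, h5, h6⟩ := hqr
      have hre : 0 < q.re := lt_of_lt_of_le hs₂ h3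
      have hqS : q ∈ Sq r := hR' ⟨(ha.trans hre).le, h4.trans hs₁s, (hc.trans h5).le, h6⟩
      have h7 := (HL.repos q hqS hre).2
      have h8 : s₂ ≤ (G q).re := by
        rcases hq' with ⟨-, h, -⟩ | ⟨h, -, -⟩ | ⟨h, -, -⟩
        · exact h
        · rw [h]; exact h2.le
        · exact h.ge
      nlinarith
  -- step 3
  have claim3 : ∀ s₂ : ℝ, 0 < s₂ → s₂ ≤ s →
      ∃ ys₂, Corner W s₂ t xs ys₂ ∧ Sep W φ ζ (Lset s₂ t xs ys₂) := by
    have hk : lp < (1 + lp) / 2 := by linarith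
    have hk1 : (1 + lp) / 2 < 1 := by linarith
    have hk0 : 0 < (1 + lp) / 2 := by linarith
    have key : ∀ n : ℕ, ∀ s₂ : ℝ, s * ((1 + lp) / 2) ^ n ≤ s₂ → s₂ ≤ s →
        ∃ ys₂, Corner W s₂ t xs ys₂ ∧ Sep W φ ζ (Lset s₂ t xs ys₂) := by
      intro n
      induction n with
      | zero =>
        intro s₂ h1 h2
        rw [pow_zero, mul_one] at h1
        obtain rfl := le_antisymm h2 h1
        exact ⟨ys, hcor, hsep⟩
      | succ n ih =>
        intro s₂ h1 h2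
        by_cases h3 : s * ((1 + lp) / 2) ^ n ≤ s₂
        · exact ih s₂ h3 h2
        · push Not at h3
          have hp : 0 < s * ((1 + lp) / 2) ^ n := by positivity
          have hle : s * ((1 + lp) / 2) ^ n ≤ s :=
            mul_le_of_le_one_right hs.le (pow_le_one₀ hk0.le hk1.le)
          obtain ⟨ys₁, hC, hS⟩ := ih _ le_rfl hle
          refine claim2 _ ys₁ s₂ hp hle hC hS ?_ h3
          refine lt_of_lt_of_le ?_ h1
          rw [pow_succ]
          nlinarith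
    intro s₂ h1 h2
    obtain ⟨n, hn⟩ := exists_pow_lt_of_lt_one (div_pos h1 hs) hk1
    refine key n s₂ ?_ h2
    rw [lt_div_iff₀ hs] at hn
    linarith
  have hxs0 : xs = 0 := by
    by_contra hne
    have hpos : 0 < xs := lt_of_le_of_ne hcor.hxs (Ne.symm hne)
    obtain ⟨_, hC, -⟩ := claim3 xs hpos hcor.hxs'.le
    exact lt_irrefl _ hC.hxs'
  -- step 4
  have claim4 : ∀ x y : ℝ, 0 < x → x ≤ s → 0 < y → y ≤ t → t ≤ (G ⟨x, y⟩).im →
      (⟨x, y⟩ : ℂ) ∈ W := by
    intro x y hx hxs hy hyt hG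
    obtain ⟨ys₁, hC, hS⟩ := claim3 x hx hxs
    obtain ⟨-, y', h1, h2, h3⟩ := claim1 x ys₁ hx hxs hC hS
    refine hC.hside y ?_ hyt
    by_contra hcon
    push Not at hcon
    have hlt : y < y' := lt_of_le_of_lt hcon h1
    have h4 := HL.mono ⟨x, y⟩ (hmemR x y hx hxs hy hyt) ⟨x, y'⟩
      (hmemR x y' hx hxs (hy.trans hlt) h2) rfl hlt
    rw [h3] at h4
    linarith
  -- step 5
  have claim5 : ∀ n : ℕ, ∀ x y : ℝ, 0 < x → x ≤ s → 0 < y → y ≤ t → t < km ^ n * y →
      (⟨x, y⟩ : ℂ) ∈ W := by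
    intro n
    induction n with
    | zero =>
      intro x y _ _ _ hyt h
      rw [pow_zero, one_mul] at h
      exact absurd h (not_lt.mpr hyt)
    | succ n ih =>
      intro x y hx hxs hy hyt h
      by_cases hG : t ≤ (G ⟨x, y⟩).im
      · exact claim4 x y hx hxs hy hyt hG
      · push Not at hG
        have hS := hmemR x y hx hxs hy hyt
        have h1 := HL.repos ⟨x, y⟩ hS hx
        have h2 := HL.impos ⟨x, y⟩ hS hy
        simp only at h1 h2
        apply hWi ⟨x, y⟩ hS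
        have h3 := ih (G ⟨x, y⟩).re (G ⟨x, y⟩).im h1.1 (by nlinarith [h1.2]) (by nlinarith [h2.1])
          hG.le (by
            have : km ^ n * (km * y) ≤ km ^ n * (G ⟨x, y⟩).im :=
              mul_le_mul_of_nonneg_left h2.1 (by positivity)
            rw [pow_succ] at h
            nlinarith)
        exact h3
  intro x y hx hxs hy hyt
  obtain ⟨n, hn⟩ := pow_unbounded_of_one_lt (t / y) hkm
  refine claim5 n x y hx hxs hy hyt ?_
  rwa [div_lt_iff₀ hy] at hn

end DS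

end S_H36_DS_YB
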