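import Pool.Agent.H12.KS.K22
import Pool.Agent.H12.KS.K25
import Pool.Agent.H12.KS.K29
import Pool.Agent.H12.KS.K31
import Pool.Agent.H12.KS.K33
import Pool.Agent.H12.KS.K34
import Pool.Agent.H12.KS.K35
import Pool.Agent.H12.KS.K36

/-! Joined modules of the proof of MP_8a27c0_an (one section per module). -/

section S_H36_DS_EA

/-!
EA (no fixed prime end with an elliptic principal point).  Proof.  `W` has a continuous logarithm
`Θ : W → ℂ`, `exp (Θ z) = z` (`fix_logs`, `0 ∉ W`).  Write `ω = exp (i α)`, `0 < α < 2π`, and `β₀ = min α (2π - α)`.  Choose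
`k ≥ 1` with `k β₀ > 2 * (2π + 1)`, and `η` with `0 < η < β₀ / 2`, `η < 1/4`, `k η < 1`.
There is `ρ > 0` such that for `z ∈ W`, `‖z‖ < ρ`: `‖G z‖ ≤ 2 ‖z‖`, and `D z = (Θ (G z) - Θ z).im` is within `η` of
`α + 2π m` for an integer `m = m z` (unique), because `exp (Θ (G z) - Θ z) = G z / z` is close to `ω`.
`D` is continuous on `W`, so `m` is constant on connected subsets of `W ∩ ball 0 ρ`.
Take a square `Rect (-s) s (-s) s` so small that `2 ^ (k+1) * 2 s < ρ`, that it is contained in the balls `closedBall 0 r₁` of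
`area_meet` for the systems of `h 1` and `h k`, and that it does not contain `φ 0`.  By `exists_sep` there is `w`
with `Sep (A)`, `A = cc W (-s) s (-s) s w`, and `A ∩ G '' A` and `A ∩ G^[k] '' A` are nonempty (`Sep` only depends on `W, φ, ζ`; on `W` the map `Gj` of `h j` is `G^[j]`).
For `0 ≤ i ≤ k` the set `G^[i] '' A` is connected, contained in `W ∩ ball 0 ρ`, and meets the previous one
(`G^[i] '' (A ∩ G '' A) ≠ ∅`), so `m` has the same value on all of them; put `β = α + 2π m`, `|β| ≥ β₀`.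
For `z ∈ A`: `(Θ (G^[k] z) - Θ z).im = ∑_{i<k} D (G^[i] z)` is within `k η < 1` of `k β`, of modulus `> 2π + 1`.
For `z ∈ A` with `G^[k] z ∈ A` this contradicts `arg_var` (`|...| < 2π`).
-/

namespace DS
open Metric Set Filter Topology MeasureTheory

/-- a continuous function with values in `c + 2πℤ` is constant on a preconnected set -/
private lemma EA_const {T : Set ℂ} (hT : IsPreconnected T) {g : ℂ → ℝ} (hg : ContinuousOn g T)
    {c : ℝ} (hi : ∀ z ∈ T, ∃ n : ℤ, g z = c + 2 * Real.pi * n) {z w : ℂ} (hz : z ∈ T)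
    (hw : w ∈ T) : g z = g w := by
  have hpi := Real.pi_pos
  have key : ∀ z ∈ T, ∀ w ∈ T, ¬ g z < g w := by
    intro z hz w hw hlt
    have hord : (g '' T).OrdConnected := (hT.image g hg).ordConnected
    obtain ⟨n, hn⟩ := hi z hz
    obtain ⟨m, hm⟩ := hi w hw
    have hnm : n < m := by
      have h1 : 2 * Real.pi * (n : ℝ) < 2 * Real.pi * m := by linarith
      have h2 : (n : ℝ) < m := lt_of_mul_lt_mul_left h1 (by positivity)
      exact_mod_cast h2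
    have hnm' : (n : ℝ) + 1 ≤ m := by exact_mod_cast hnm
    have h3 : g z + Real.pi ∈ Icc (g z) (g w) := by
      constructor
      · linarith
      · rw [hn, hm]; nlinarith
    obtain ⟨v, hv, hv2⟩ := hord.out ⟨z, hz, rfl⟩ ⟨w, hw, rfl⟩ h3
    obtain ⟨l, hl⟩ := hi v hv
    rw [hl, hn] at hv2
    have h4 : 2 * Real.pi * ((l : ℝ) - n - 1 / 2) = 0 := by linarith
    have h5 : (l : ℝ) - n - 1 / 2 = 0 := by
      rcases mul_eq_zero.1 h4 with h | h
      · linarith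
      · exact h
    have h6 : (2 * (l - n) : ℤ) = 1 := by
      have : (2 : ℝ) * (l - n) = 1 := by linarith
      exact_mod_cast this
    omega
  rcases lt_trichotomy (g z) (g w) with h | h | h
  · exact absurd h (key z hz w hw)
  · exact h
  · exact absurd h (key w hw z hz)

private lemma EA_rect {s : ℝ} {z : ℂ} (hz : z ∈ Rect (-s) s (-s) s) : ‖z‖ ≤ 2 * s := by
  obtain ⟨h1, h2, h3, h4⟩ := hz
  have h5 : |z.re| ≤ s := abs_le.2 ⟨h1, h2⟩
  have h6 : |z.im| ≤ s := abs_le.2 ⟨h3, h4⟩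
  have := Complex.norm_le_abs_re_add_abs_im z
  linarith

theorem elliptic_false {W : Set ℂ} {φ u G : ℂ → ℂ} {ζ : ℂ}
    (h : ∀ j : ℕ, 0 < j → ∃ (Gj Gij : ℂ → ℂ) (μ : Measure ℂ) (r : ℝ),
      FixPE W φ u Gj Gij μ ζ r ∧ ∀ w ∈ W, Gj w = G^[j] w)
    {ω : ℂ} (hω : ‖ω‖ = 1) (hω1 : ω ≠ 1) (hG : Tendsto (fun z => G z / z) (𝓝[W] 0) (𝓝 ω)) :
    False := by
  have hpi := Real.pi_pos
  obtain ⟨G1, Gi1, μ1, r1, H1, hG1⟩ := h 1 one_pos
  have hG1' : ∀ w ∈ W, G1 w = G w := fun w hw => by rw [hG1 w hw]; rfl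
  have hGc : ContinuousOn G W := H1.G_cont.congr fun w hw => (hG1' w hw).symm
  have hGm : MapsTo G W W := fun w hw => by rw [← hG1' w hw]; exact H1.G_maps hw
  have hL : AllLogs W := fix_logs H1
  have h0W : (0 : ℂ) ∉ W := H1.zero_notin
  have hne : ∀ z ∈ W, z ≠ 0 := fun z hz hz0 => h0W (hz0 ▸ hz)
  obtain ⟨Θ, hΘc, hΘ⟩ := hL (fun z => z) continuousOn_id hne
  have hexp : ∀ z ∈ W, Complex.exp (Θ z) = z := fun z hz => (hΘ z hz).symm
  have hω0 : ω ≠ 0 := by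
    intro h0; rw [h0] at hω; simp at hω
  -- the argument of `ω`
  have hβ : 0 < |ω.arg| := by
    rw [abs_pos]
    intro h0
    apply hω1
    have := Complex.norm_mul_exp_arg_mul_I ω
    rw [hω, h0] at this
    simpa using this.symm
  set β := |ω.arg| with hβdef
  obtain ⟨k, hk⟩ := exists_nat_gt ((2 * Real.pi + 1) / β)
  rw [div_lt_iff₀ hβ] at hk
  have hk0 : 0 < k := by
    rcases Nat.eq_zero_or_pos k with h0 | h0
    · rw [h0] at hk
      simp at hk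
      linarith
    · exact h0
  obtain ⟨Gk, Gik, μk, rk, Hk, hGk⟩ := h k hk0
  set η : ℝ := 1 / (k + 1) with hη
  have hη0 : 0 < η := by positivity
  have hkη : (k : ℝ) * η < 1 := by
    rw [hη, mul_one_div, div_lt_one (by positivity)]
    linarith
  -- `q z = G z / z / ω` is close to `1`
  set q : ℂ → ℂ := fun z => G z / z / ω with hq
  have hqlim : Tendsto q (𝓝[W] 0) (𝓝 1) := by
    have := hG.div_const ω
    rwa [div_self hω0] at this
  have hev1 : ∀ᶠ z in 𝓝[W] 0, q z ∈ Complex.slitPlane :=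
    hqlim.eventually (Complex.isOpen_slitPlane.mem_nhds Complex.one_mem_slitPlane)
  have hev2 : ∀ᶠ z in 𝓝[W] 0, |(q z).arg| < η := by
    have h1 : Tendsto (fun z => (q z).arg) (𝓝[W] 0) (𝓝 0) := by
      have := (Complex.continuousAt_arg Complex.one_mem_slitPlane).tendsto.comp hqlim
      rwa [Complex.arg_one] at this
    have h2 := h1.eventually (Metric.ball_mem_nhds 0 hη0)
    filter_upwards [h2] with z hz
    simpa [Real.dist_eq] using hz
  have hev3 : ∀ᶠ z in 𝓝[W] 0, ‖G z / z‖ < 2 := by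
    have h1 := hG.norm
    rw [hω] at h1
    exact h1.eventually (gt_mem_nhds one_lt_two)
  have hev := (hev1.and (hev2.and hev3))
  rw [eventually_nhdsWithin_iff, Metric.eventually_nhds_iff] at hev
  obtain ⟨ρ, hρ, hρ2⟩ := hev
  have hS1 : ∀ z ∈ W, ‖z‖ < ρ → q z ∈ Complex.slitPlane := fun z hz hz2 =>
    (hρ2 (by simpa using hz2) hz).1
  have hS2 : ∀ z ∈ W, ‖z‖ < ρ → |(q z).arg| < η := fun z hz hz2 =>
    (hρ2 (by simpa using hz2) hz).2.1
  have hS3 : ∀ z ∈ W, ‖z‖ < ρ → ‖G z‖ ≤ 2 * ‖z‖ := by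
    intro z hz hz2
    have h1 := (hρ2 (by simpa using hz2) hz).2.2
    rw [norm_div, div_lt_iff₀ (norm_pos_iff.2 (hne z hz))] at h1
    exact h1.le
  -- the function `e`
  set e : ℂ → ℝ := fun z => (Θ (G z)).im - (Θ z).im - (q z).arg with he
  have hec : ContinuousOn e (W ∩ ball 0 ρ) := by
    have h1 : ContinuousOn (fun z => Θ (G z)) (W ∩ ball 0 ρ) :=
      (hΘc.comp hGc hGm).mono inter_subset_left
    have h2 : ContinuousOn q (W ∩ ball 0 ρ) := by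
      refine ContinuousOn.div_const ?_ _
      exact (hGc.mono inter_subset_left).div continuousOn_id fun z hz => hne z hz.1
    have h3 : ContinuousOn (fun z => (q z).arg) (W ∩ ball 0 ρ) := by
      intro z hz
      have h4 : q z ∈ Complex.slitPlane := hS1 z hz.1 (by simpa using hz.2)
      exact (Complex.continuousAt_arg h4).comp_continuousWithinAt (h2 z hz)
    exact ((Complex.continuous_im.comp_continuousOn h1).sub
      (Complex.continuous_im.comp_continuousOn (hΘc.mono inter_subset_left))).sub h3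
  have hei : ∀ z ∈ W ∩ ball 0 ρ, ∃ n : ℤ, e z = ω.arg + 2 * Real.pi * n := by
    rintro z ⟨hz, -⟩
    have hz0 := hne z hz
    have hGz0 := hne _ (hGm hz)
    have hqz0 : q z ≠ 0 := div_ne_zero (div_ne_zero hGz0 hz0) hω0
    have h1 : Complex.exp (Θ (G z) - Θ z - Complex.log (q z) - Complex.log ω) = 1 := by
      rw [Complex.exp_sub, Complex.exp_sub, Complex.exp_sub, hexp _ (hGm hz), hexp z hz,
        Complex.exp_log hqz0, Complex.exp_log hω0, hq]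
      field_simp
    obtain ⟨n, hn⟩ := Complex.exp_eq_one_iff.1 h1
    refine ⟨n, ?_⟩
    have h2 := congrArg Complex.im hn
    simp only [Complex.sub_im, Complex.log_im] at h2
    have h3 : ((n : ℂ) * (2 * Real.pi * Complex.I)).im = 2 * Real.pi * n := by
      simp
      ring
    rw [h3] at h2
    simp only [he]
    linarith
  have hlow : ∀ x : ℝ, (∃ n : ℤ, x = ω.arg + 2 * Real.pi * n) → β ≤ |x| := by
    rintro x ⟨n, hn⟩
    by_cases hn0 : n = 0
    · rw [hn, hn0]; simp [hβdef]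
    · have h1 : (1 : ℝ) ≤ |(n : ℝ)| := by
        have := Int.one_le_abs hn0
        exact_mod_cast this
      have h2 := Complex.abs_arg_le_pi ω
      have h3 : |2 * Real.pi * (n : ℝ)| ≤ |x| + |ω.arg| := by
        have : 2 * Real.pi * (n : ℝ) = x - ω.arg := by rw [hn]; ring
        rw [this]
        exact abs_sub _ _
      rw [abs_mul, abs_of_pos (by positivity : (0:ℝ) < 2 * Real.pi)] at h3
      have h4 : 2 * Real.pi * 1 ≤ 2 * Real.pi * |(n : ℝ)| :=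
        mul_le_mul_of_nonneg_left h1 (by positivity)
      rw [hβdef]
      linarith
  -- the square
  obtain ⟨ra, hra, harea1⟩ := area_meet H1
  obtain ⟨rb, hrb, hareak⟩ := area_meet Hk
  have hφ0 : φ 0 ∈ W := H1.φ_maps (by simp)
  have hφ0' : 0 < ‖φ 0‖ := norm_pos_iff.2 (hne _ hφ0)
  obtain ⟨s, hs, hs1, hs2, hs3, hs4⟩ : ∃ s : ℝ, 0 < s ∧ 2 ^ (k + 1) * (2 * s) < ρ ∧ 2 * s ≤ ra ∧
      2 * s ≤ rb ∧ 2 * s < ‖φ 0‖ := by
    set M := min (min (ρ / (2 * 2 ^ (k + 1))) ra) (min rb ‖φ 0‖) with hM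
    have hM0 : 0 < M := by
      rw [hM]
      exact lt_min (lt_min (by positivity) hra) (lt_min hrb hφ0')
    have hM1 : M ≤ ρ / (2 * 2 ^ (k + 1)) := (min_le_left _ _).trans (min_le_left _ _)
    have hM2 : M ≤ ra := (min_le_left _ _).trans (min_le_right _ _)
    have hM3 : M ≤ rb := (min_le_right _ _).trans (min_le_left _ _)
    have hM4 : M ≤ ‖φ 0‖ := (min_le_right _ _).trans (min_le_right _ _)
    refine ⟨M / 4, by positivity, ?_, by linarith, by linarith, by linarith⟩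
    rw [le_div_iff₀ (by positivity)] at hM1
    nlinarith [pow_pos (two_pos : (0:ℝ) < 2) (k + 1)]
  have hφ0R : φ 0 ∉ Rect (-s) s (-s) s := fun hcon => by
    have := EA_rect hcon
    linarith
  obtain ⟨w, hw, hsep⟩ := exists_sep H1 (neg_lt_zero.2 hs) hs (neg_lt_zero.2 hs) hs hφ0R
  set A := cc W (-s) s (-s) s w with hA
  have hApre : IsPreconnected A := isPreconnected_connectedComponentIn
  have hAsub : A ⊆ Bd (-s) s (-s) s ∩ W := connectedComponentIn_subset _ _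
  have hAW : A ⊆ W := fun z hz => (hAsub hz).2
  have hAn : ∀ z ∈ A, ‖z‖ ≤ 2 * s := fun z hz => EA_rect (hAsub hz).1.1
  have hsub1 : Rect (-s) s (-s) s ⊆ closedBall 0 ra := fun z hz => by
    rw [mem_closedBall_zero_iff]
    exact (EA_rect hz).trans hs2
  have hsub2 : Rect (-s) s (-s) s ⊆ closedBall 0 rb := fun z hz => by
    rw [mem_closedBall_zero_iff]
    exact (EA_rect hz).trans hs3
  have hss : -s < s := by linarith
  obtain ⟨y, hyA, x, hxA, hxy⟩ := harea1 _ _ _ _ hss hss hsub1 w hw hsep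
  obtain ⟨y', hyA', x', hxA', hxy'⟩ := hareak _ _ _ _ hss hss hsub2 w hw hsep
  rw [hG1' x (hAW hxA)] at hxy
  rw [hGk x' (hAW hxA')] at hxy'
  -- iterates
  have hitm : ∀ i : ℕ, MapsTo (G^[i]) W W := fun i => hGm.iterate i
  have hitc : ∀ i : ℕ, ContinuousOn (G^[i]) W := by
    intro i
    induction i with
    | zero => exact continuousOn_id
    | succ i ih =>
      rw [Function.iterate_succ']
      exact hGc.comp ih (hitm i)
  have hitn : ∀ i : ℕ, i ≤ k → ∀ z ∈ A, ‖G^[i] z‖ ≤ 2 ^ i * (2 * s) := by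
    intro i
    induction i with
    | zero => intro _ z hz; simpa using hAn z hz
    | succ i ih =>
      intro hi z hz
      have h1 := ih (by omega) z hz
      have h2 : (2:ℝ) ^ i * (2 * s) ≤ 2 ^ (k + 1) * (2 * s) :=
        mul_le_mul_of_nonneg_right (pow_le_pow_right₀ one_le_two (by omega)) (by positivity)
      rw [Function.iterate_succ_apply']
      have h3 := hS3 _ (hitm i (hAW hz)) (by linarith)
      calc ‖G (G^[i] z)‖ ≤ 2 * ‖G^[i] z‖ := h3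
        _ ≤ 2 * (2 ^ i * (2 * s)) := by linarith
        _ = 2 ^ (i + 1) * (2 * s) := by ring
  have hitS : ∀ i : ℕ, i ≤ k → ∀ z ∈ A, G^[i] z ∈ W ∩ ball 0 ρ := by
    intro i hi z hz
    refine ⟨hitm i (hAW hz), ?_⟩
    rw [mem_ball_zero_iff]
    have h2 : (2:ℝ) ^ i * (2 * s) ≤ 2 ^ (k + 1) * (2 * s) :=
      mul_le_mul_of_nonneg_right (pow_le_pow_right₀ one_le_two (by omega)) (by positivity)
    have := hitn i hi z hz
    linarith
  have hcst : ∀ i : ℕ, i ≤ k → ∀ z ∈ A, ∀ z' ∈ A, e (G^[i] z) = e (G^[i] z') := by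
    intro i hi z hz z' hz'
    have hpre : IsPreconnected (G^[i] '' A) := hApre.image _ ((hitc i).mono hAW)
    have hsub : G^[i] '' A ⊆ W ∩ ball 0 ρ := by
      rintro _ ⟨v, hv, rfl⟩
      exact hitS i hi v hv
    exact EA_const hpre (hec.mono hsub) (fun v hv => hei v (hsub hv)) ⟨z, hz, rfl⟩ ⟨z', hz', rfl⟩
  have hall : ∀ i : ℕ, i ≤ k → ∀ z ∈ A, e (G^[i] z) = e x := by
    intro i
    induction i with
    | zero => intro hi z hz; exact hcst 0 hi z hz x hxA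
    | succ i ih =>
      intro hi z hz
      rw [hcst (i + 1) hi z hz x hxA, Function.iterate_succ_apply, hxy]
      exact ih (by omega) y hyA
  -- the total variation
  have hsum : (Θ (G^[k] x')).im - (Θ x').im = ∑ i ∈ Finset.range k,
      (e x + (q (G^[i] x')).arg) := by
    have h1 := Finset.sum_range_sub (fun i => (Θ (G^[i] x')).im) k
    simp only [Function.iterate_zero, id_eq] at h1
    rw [← h1]
    refine Finset.sum_congr rfl fun i hi => ?_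
    have hik : i ≤ k := (Finset.mem_range.1 hi).le
    rw [← hall i hik x' hxA', Function.iterate_succ_apply']
    simp only [he]
    ring
  rw [Finset.sum_add_distrib, Finset.sum_const, Finset.card_range, nsmul_eq_mul] at hsum
  have hsmall : |∑ i ∈ Finset.range k, (q (G^[i] x')).arg| ≤ k * η := by
    refine (Finset.abs_sum_le_sum_abs _ _).trans ?_
    calc ∑ i ∈ Finset.range k, |(q (G^[i] x')).arg| ≤ ∑ _i ∈ Finset.range k, η := by
          refine Finset.sum_le_sum fun i hi => ?_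
          have hik : i ≤ k := (Finset.mem_range.1 hi).le
          have h1 := hitS i hik x' hxA'
          exact (hS2 _ h1.1 (by simpa using h1.2)).le
      _ = k * η := by rw [Finset.sum_const, Finset.card_range, nsmul_eq_mul]
  have hbig : (k : ℝ) * β ≤ |(k : ℝ) * e x| := by
    rw [abs_mul, Nat.abs_cast]
    exact mul_le_mul_of_nonneg_left
      (hlow _ (hei x (by simpa using hitS 0 (Nat.zero_le _) x hxA))) (Nat.cast_nonneg _)
  have hvar := arg_var hL h0W hΘc hexp (neg_lt_zero.2 hs) hs (neg_lt_zero.2 hs) hs hApre hAsub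
    y' hyA' x' hxA'
  rw [← hxy', hsum] at hvar
  have h7 : |(k : ℝ) * e x| ≤ |(k : ℝ) * e x + ∑ i ∈ Finset.range k, (q (G^[i] x')).arg| +
      |∑ i ∈ Finset.range k, (q (G^[i] x')).arg| := by
    have := abs_sub ((k : ℝ) * e x + ∑ i ∈ Finset.range k, (q (G^[i] x')).arg)
      (∑ i ∈ Finset.range k, (q (G^[i] x')).arg)
    rwa [add_sub_cancel_right] at this
  linarith

end DS

end S_H36_DS_EA

section S_H36_DS_YD

/-!
YD (normalized local analysis).  `hNP`: arbitrarily small rectangles with a separating component containing the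
corner `(b,d)`, and `(0,d) ∉ W` unless a piece `(0, t₀]` of the vertical half axis is in `W`.
Proof.  Let `r₁` be from `area_meet` (so `Meet W φ G ζ r₁`).
Case A: there is `t₀ > 0` with `(0, y) ∈ W` for `0 < y ≤ t₀`.  `half_box` gives `δ`; shrink it below `r₀ / 2`.
Case B: otherwise for every `ε` there is `y ∈ (0, ε)` with `(0, y) ∉ W`; take one small rectangle from `hNP` (contained in
`closedBall 0 r₁ ∩ Sq r`, not containing `φ 0`; the point `(0,d)` is not in `W`); `corner_exists`, `corner_cc`, `fill_quad` give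
the box `(0, b] × (0, d] ⊆ W`; `δ = min b d` (and `< r₀/2`).
Limit.  In both cases let `B` be the box (`B = (0,δ]×(0,δ]` or `[-δ,δ]×(0,δ]`), convex, contained in `W ∩ closedBall 0 r₀`.
Given `ε`, let `δ₁` be from `L0` for `ε/2`, and `η` small with diameter of `B ∩ {|re| < η, |im| < η}` `< δ₁`; by `hNP` and
`sep_close` there is a rectangle with size `< η` whose corner `(b,d)` satisfies `dist (u (b,d)) ζ < ε/2` (it is in the
separating component); so `dist (u z) ζ < ε` for all `z` in `B ∩ {|re| < η, |im| < η}`.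
-/

namespace DS
open Metric Set Filter Topology MeasureTheory

private theorem YD_norm {z : ℂ} {e : ℝ} (h1 : |z.re| < e) (h2 : |z.im| < e) : ‖z‖ < 2 * e := by
  have := Complex.norm_le_abs_re_add_abs_im z
  linarith

private theorem YD_rect {a b c d e : ℝ} (ha : -e < a) (hb : b < e) (hc : -e < c) (hd : d < e) {z : ℂ}
    (hz : z ∈ Rect a b c d) : |z.re| < e ∧ |z.im| < e := by
  obtain ⟨h1, h2, h3, h4⟩ := hz
  exact ⟨abs_lt.2 ⟨by linarith, by linarith⟩, abs_lt.2 ⟨by linarith, by linarith⟩⟩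

private theorem YD_lim {W : Set ℂ} {φ u G Gi : ℂ → ℂ} {μ : Measure ℂ} {ζ : ℂ} {r₀ : ℝ}
    (H : FixPE W φ u G Gi μ ζ r₀)
    (hNP : ∀ ε > 0, ∃ a b c d : ℝ, -ε < a ∧ a < 0 ∧ 0 < b ∧ b < ε ∧ -ε < c ∧ c < 0 ∧ 0 < d ∧ d < ε ∧
      (⟨b, d⟩ : ℂ) ∈ W ∧ Sep W φ ζ (cc W a b c d ⟨b, d⟩) ∧
      ((⟨0, d⟩ : ℂ) ∉ W ∨ ∃ t₀ > 0, ∀ y : ℝ, 0 < y → y ≤ t₀ → (⟨0, y⟩ : ℂ) ∈ W))
    {δ : ℝ} (hδ : 0 < δ) {B : Set ℂ} (hBc : Convex ℝ B) (hBW : B ⊆ W) (hBr : B ⊆ closedBall 0 r₀)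
    (hBq : ∀ x y : ℝ, 0 < x → x ≤ δ → 0 < y → y ≤ δ → (⟨x, y⟩ : ℂ) ∈ B) :
    ∀ ε > 0, ∃ η > 0, ∀ z ∈ B, |z.re| < η → |z.im| < η → dist (u z) ζ < ε := by
  intro ε hε
  obtain ⟨δ₁, hδ₁, hL⟩ := H.L0 (ε / 2) (by positivity)
  obtain ⟨r₂, hr₂, hclose⟩ := sep_close H (ε / 2) (by positivity)
  set η := min δ (δ₁ / 4) with hη
  have hη0 : 0 < η := lt_min hδ (by positivity)
  have hηδ : η ≤ δ := min_le_left _ _
  have hηδ₁ : η ≤ δ₁ / 4 := min_le_right _ _
  refine ⟨η, hη0, ?_⟩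
  intro z hz hz1 hz2
  set e := min η (r₂ / 2) with he
  have he0 : 0 < e := lt_min hη0 (by positivity)
  have heη : e ≤ η := min_le_left _ _
  have her : e ≤ r₂ / 2 := min_le_right _ _
  obtain ⟨a, b, c, d, ha, ha0, hb0, hb, hc, hc0, hd0, hd, hbd, hsep, -⟩ := hNP e he0
  have hmem : (⟨b, d⟩ : ℂ) ∈ cc W a b c d ⟨b, d⟩ := by
    apply mem_connectedComponentIn
    exact ⟨⟨⟨(ha0.trans hb0).le, le_rfl, (hc0.trans hd0).le, le_rfl⟩, Or.inr (Or.inl rfl)⟩, hbd⟩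
  have hsub : cc W a b c d ⟨b, d⟩ ⊆ W ∩ closedBall 0 r₂ := by
    intro w hw
    have h1 := connectedComponentIn_subset _ _ hw
    refine ⟨h1.2, ?_⟩
    obtain ⟨h2, h3⟩ := YD_rect ha hb hc hd h1.1.1
    have h4 := YD_norm h2 h3
    rw [mem_closedBall_zero_iff]
    linarith
  have h1 := (hclose _ hsub isPreconnected_connectedComponentIn hsep).1 _ hmem
  -- compare with the corner
  set γ : Set ℂ := B ∩ {w | |w.re| < η ∧ |w.im| < η} with hγ
  have hconv : Convex ℝ {w : ℂ | |w.re| < η ∧ |w.im| < η} := by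
    have h2 : {w : ℂ | |w.re| < η ∧ |w.im| < η} = ({w : ℂ | w.re < η} ∩ {w : ℂ | -η < w.re}) ∩
        ({w : ℂ | w.im < η} ∩ {w : ℂ | -η < w.im}) := by
      ext w
      simp only [mem_inter_iff, abs_lt]
      constructor
      · rintro ⟨⟨h1, h2⟩, h3, h4⟩
        exact ⟨⟨h2, h1⟩, h4, h3⟩
      · rintro ⟨⟨h1, h2⟩, h3, h4⟩
        exact ⟨⟨h2, h1⟩, h4, h3⟩
    rw [h2]
    exact ((convex_halfSpace_re_lt η).inter (convex_halfSpace_re_gt (-η))).inter
      ((convex_halfSpace_im_lt η).inter (convex_halfSpace_im_gt (-η)))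
  have hγc : IsPreconnected γ := (hBc.inter hconv).isPreconnected
  have hγs : γ ⊆ W ∩ closedBall 0 r₀ := fun w hw => ⟨hBW hw.1, hBr hw.1⟩
  have hγd : ∀ z ∈ γ, ∀ w ∈ γ, dist z w < δ₁ := by
    rintro z ⟨-, h2, h3⟩ w ⟨-, h4, h5⟩
    rw [dist_eq_norm]
    have h6 := Complex.norm_le_abs_re_add_abs_im (z - w)
    rw [Complex.sub_re, Complex.sub_im] at h6
    have h7 := abs_sub (z.re) (w.re)
    have h8 := abs_sub (z.im) (w.im)
    linarith
  have hcor : (⟨b, d⟩ : ℂ) ∈ γ := by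
    refine ⟨hBq b d hb0 (by linarith) hd0 (by linarith), ?_, ?_⟩
    · show |b| < η
      rw [abs_of_pos hb0]; linarith
    · show |d| < η
      rw [abs_of_pos hd0]; linarith
  have h2 := hL γ hγs hγc hγd z ⟨hz, hz1, hz2⟩ _ hcor
  calc dist (u z) ζ ≤ dist (u z) (u ⟨b, d⟩) + dist (u ⟨b, d⟩) ζ := dist_triangle _ _ _
    _ < ε / 2 + ε / 2 := add_lt_add h2 h1
    _ = ε := by ring

theorem good_quad {W : Set ℂ} {φ u G Gi : ℂ → ℂ} {μ : Measure ℂ} {ζ : ℂ} {r₀ : ℝ}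
    (H : FixPE W φ u G Gi μ ζ r₀) {r lp km kp : ℝ} (HL : HypLoc G r lp km kp)
    (hWi : ∀ z ∈ Sq r, G z ∈ W → z ∈ W) (hax : ∀ x : ℝ, |x| ≤ r → (⟨x, 0⟩ : ℂ) ∉ W)
    (hNP : ∀ ε > 0, ∃ a b c d : ℝ, -ε < a ∧ a < 0 ∧ 0 < b ∧ b < ε ∧ -ε < c ∧ c < 0 ∧ 0 < d ∧ d < ε ∧
      (⟨b, d⟩ : ℂ) ∈ W ∧ Sep W φ ζ (cc W a b c d ⟨b, d⟩) ∧
      ((⟨0, d⟩ : ℂ) ∉ W ∨ ∃ t₀ > 0, ∀ y : ℝ, 0 < y → y ≤ t₀ → (⟨0, y⟩ : ℂ) ∈ W)) :
    ∃ δ, GoodQuad W u ζ δ := by
  have hr₀ := H.hr₀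
  have hr := HL.hr
  by_cases hA : ∃ t₀ > 0, ∀ y : ℝ, 0 < y → y ≤ t₀ → (⟨0, y⟩ : ℂ) ∈ W
  · -- case A
    obtain ⟨t₀, ht₀, hv⟩ := hA
    obtain ⟨δ₀, hδ₀, hbox⟩ := half_box H.W_open HL hWi ht₀ hv
    set δ := min δ₀ (r₀ / 2) with hδ
    have hδ0 : 0 < δ := lt_min hδ₀ (by positivity)
    have hδ₀' : δ ≤ δ₀ := min_le_left _ _
    have hδr : δ ≤ r₀ / 2 := min_le_right _ _
    have hsub : ∀ x y : ℝ, |x| ≤ δ → 0 < y → y ≤ δ → (⟨x, y⟩ : ℂ) ∈ W := fun x y h1 h2 h3 =>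
      hbox x y (h1.trans hδ₀') h2 (h3.trans hδ₀')
    have hlim := YD_lim H hNP hδ0 (B := {z : ℂ | |z.re| ≤ δ ∧ 0 < z.im ∧ z.im ≤ δ})
      (by
        have h2 : {z : ℂ | |z.re| ≤ δ ∧ 0 < z.im ∧ z.im ≤ δ} =
            ({w : ℂ | w.re ≤ δ} ∩ {w : ℂ | -δ ≤ w.re}) ∩
            ({w : ℂ | w.im ≤ δ} ∩ {w : ℂ | 0 < w.im}) := by
          ext w
          simp only [mem_inter_iff, abs_le]
          constructor
          · rintro ⟨⟨h1, h2⟩, h3, h4⟩
            exact ⟨⟨h2, h1⟩, h4, h3⟩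
          · rintro ⟨⟨h1, h2⟩, h3, h4⟩
            exact ⟨⟨h2, h1⟩, h4, h3⟩
        rw [h2]
        exact ((convex_halfSpace_re_le δ).inter (convex_halfSpace_re_ge (-δ))).inter
          ((convex_halfSpace_im_le δ).inter (convex_halfSpace_im_gt 0)))
      (fun z hz => hsub z.re z.im hz.1 hz.2.1 hz.2.2)
      (by
        intro z hz
        rw [mem_closedBall_zero_iff]
        have h1 := Complex.norm_le_abs_re_add_abs_im z
        rw [abs_of_pos hz.2.1] at h1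
        have h2 := hz.1
        have h3 := hz.2.2
        linarith)
      (fun x y h1 h2 h3 h4 => ⟨by show |x| ≤ δ; rw [abs_of_pos h1]; exact h2, h3, h4⟩)
    have hlim' : ∀ ε > 0, ∃ η > 0, ∀ x y : ℝ, |x| < η → 0 < y → y < η → dist (u ⟨x, y⟩) ζ < ε := by
      intro ε hε
      obtain ⟨η, hη, h⟩ := hlim ε hε
      refine ⟨min η δ, lt_min hη hδ0, fun x y h1 h2 h3 => ?_⟩
      refine h ⟨x, y⟩ ⟨?_, h2, (h3.trans_le (min_le_right _ _)).le⟩ (h1.trans_le (min_le_left _ _)) ?_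
      · exact (h1.trans_le (min_le_right _ _)).le
      · show |y| < η
        rw [abs_of_pos h2]
        exact h3.trans_le (min_le_left _ _)
    refine ⟨δ, hδ0, ?_, ?_, Or.inr ⟨hsub, hlim'⟩⟩
    · intro x y h1 h2 h3 h4
      exact hsub x y (by rw [abs_of_pos h1]; exact h2) h3 h4
    · intro ε hε
      obtain ⟨η, hη, h⟩ := hlim' ε hε
      exact ⟨η, hη, fun x y h1 h2 h3 h4 => h x y (by rw [abs_of_pos h1]; exact h2) h3 h4⟩
  · -- case B
    have hA' : ∀ ε > 0, ∃ y : ℝ, 0 < y ∧ y < ε ∧ (⟨0, y⟩ : ℂ) ∉ W := by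
      intro ε hε
      by_contra hcon
      push Not at hcon
      exact hA ⟨ε / 2, by positivity, fun y h1 h2 => hcon y h1 (by linarith)⟩
    obtain ⟨r₁, hr₁, hmeet⟩ := area_meet H
    have hφ0 : φ 0 ∈ W := H.φ_maps (by simp)
    have hφ0' : 0 < ‖φ 0‖ := by
      rw [norm_pos_iff]
      intro h
      exact H.zero_notin (h ▸ hφ0)
    set e := min (min (r₁ / 2) r) (‖φ 0‖ / 2) with he
    have he0 : 0 < e := lt_min (lt_min (by positivity) hr) (by positivity)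
    have he1 : e ≤ r₁ / 2 := (min_le_left _ _).trans (min_le_left _ _)
    have he2 : e ≤ r := (min_le_left _ _).trans (min_le_right _ _)
    have he3 : e ≤ ‖φ 0‖ / 2 := min_le_right _ _
    obtain ⟨a, b, c, d, ha, ha0, hb0, hb, hc, hc0, hd0, hd, hbd, hsep, halt⟩ := hNP e he0
    have h0d : (⟨0, d⟩ : ℂ) ∉ W := by
      rcases halt with h | h
      · exact h
      · exact absurd h hA
    obtain ⟨xs, ys, hcor⟩ := corner_exists H.W_open hb0 hd0 h0d
      (hax b (by rw [abs_of_pos hb0]; linarith)) hbd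
    rw [corner_cc hcor ha0 hc0] at hsep
    have hquad := fill_quad H HL hWi hax (r₁ := r₁) hmeet ha0 hc0 hb0 hd0
      (fun z hz => by
        obtain ⟨h2, h3⟩ := YD_rect ha hb hc hd hz
        have h4 := YD_norm h2 h3
        rw [mem_closedBall_zero_iff]
        linarith)
      (fun z hz => by
        obtain ⟨h2, h3⟩ := YD_rect ha hb hc hd hz
        rw [abs_lt] at h2 h3
        exact ⟨by linarith, by linarith, by linarith, by linarith⟩)
      (fun hz => by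
        obtain ⟨h2, h3⟩ := YD_rect ha hb hc hd hz
        have h4 := YD_norm h2 h3
        linarith)
      h0d hcor hsep
    set δ := min (min b d) (r₀ / 2) with hδ
    have hδ0 : 0 < δ := lt_min (lt_min hb0 hd0) (by positivity)
    have hδb : δ ≤ b := (min_le_left _ _).trans (min_le_left _ _)
    have hδd : δ ≤ d := (min_le_left _ _).trans (min_le_right _ _)
    have hδr : δ ≤ r₀ / 2 := min_le_right _ _
    have hsub : ∀ x y : ℝ, 0 < x → x ≤ δ → 0 < y → y ≤ δ → (⟨x, y⟩ : ℂ) ∈ W :=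
      fun x y h1 h2 h3 h4 => hquad x y h1 (h2.trans hδb) h3 (h4.trans hδd)
    have hlim := YD_lim H hNP hδ0 (B := {z : ℂ | 0 < z.re ∧ z.re ≤ δ ∧ 0 < z.im ∧ z.im ≤ δ})
      (by
        have h2 : {z : ℂ | 0 < z.re ∧ z.re ≤ δ ∧ 0 < z.im ∧ z.im ≤ δ} =
            ({w : ℂ | 0 < w.re} ∩ {w : ℂ | w.re ≤ δ}) ∩
            ({w : ℂ | 0 < w.im} ∩ {w : ℂ | w.im ≤ δ}) := by
          ext w
          constructor
          · rintro ⟨h1, h2, h3, h4⟩
            exact ⟨⟨h1, h2⟩, h3, h4⟩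
          · rintro ⟨⟨h1, h2⟩, h3, h4⟩
            exact ⟨h1, h2, h3, h4⟩
        rw [h2]
        exact ((convex_halfSpace_re_gt 0).inter (convex_halfSpace_re_le δ)).inter
          ((convex_halfSpace_im_gt 0).inter (convex_halfSpace_im_le δ)))
      (fun z hz => hsub z.re z.im hz.1 hz.2.1 hz.2.2.1 hz.2.2.2)
      (by
        intro z hz
        rw [mem_closedBall_zero_iff]
        have h1 := Complex.norm_le_abs_re_add_abs_im z
        rw [abs_of_pos hz.1, abs_of_pos hz.2.2.1] at h1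
        have h2 := hz.2.1
        have h3 := hz.2.2.2
        linarith)
      (fun x y h1 h2 h3 h4 => ⟨h1, h2, h3, h4⟩)
    refine ⟨δ, hδ0, hsub, ?_, Or.inl hA'⟩
    intro ε hε
    obtain ⟨η, hη, h⟩ := hlim ε hε
    refine ⟨min η δ, lt_min hη hδ0, fun x y h1 h2 h3 h4 => ?_⟩
    refine h ⟨x, y⟩ ⟨h1, (h2.trans_le (min_le_right _ _)).le, h3, (h4.trans_le (min_le_right _ _)).le⟩
      ?_ ?_
    · show |x| < η
      rw [abs_of_pos h1]
      exact h2.trans_le (min_le_left _ _)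
    · show |y| < η
      rw [abs_of_pos h3]
      exact h4.trans_le (min_le_left _ _)

end DS

end S_H36_DS_YD

section S_H36_DS_YE

/-!
YE (local analysis at a hyperbolic principal point).  Proof.  Let `r₁` be from `area_meet`.
For every `n` choose a rectangle `a < 0 < b`, `c < 0 < d` of size `< 1/(n+1)`, contained in `closedBall 0 r₁ ∩ Sq r`, not
containing `φ 0` (possible as `φ 0 ≠ 0`), such that `(0,d) ∉ W` unless a piece of the upper vertical half axis is in `W`, and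
`(0,c) ∉ W` unless a piece of the lower vertical half axis is in `W`.  By `exists_sep` there is `w` with
`Sep (cc W a b c d w)`; by `area_meet` and `corner_in` this component contains one of the four corners `v`, and
`cc W a b c d w = cc W a b c d v`.  Some type of corner occurs for infinitely many `n`.  Apply `good_quad` to the reflected system
(`refl_fixPE`, `refl_hypLoc`, `refl_sep_h`, `refl_sep_v`, `refl_sep_hv`; the hypothesis `hNP` in the reflected coordinates).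
-/

namespace DS
open Metric Set Filter Topology MeasureTheory

/-- small rectangles with the given corner in a separating component -/
def YE_Q (W : Set ℂ) (φ : ℂ → ℂ) (ζ : ℂ) (k : Fin 4) (ε : ℝ) : Prop :=
  ∃ a b c d : ℝ, -ε < a ∧ a < 0 ∧ 0 < b ∧ b < ε ∧ -ε < c ∧ c < 0 ∧ 0 < d ∧ d < ε ∧
    (((⟨0, d⟩ : ℂ) ∉ W ∨ ∃ t₀ > 0, ∀ y : ℝ, 0 < y → y ≤ t₀ → (⟨0, y⟩ : ℂ) ∈ W) ∧
     ((⟨0, c⟩ : ℂ) ∉ W ∨ ∃ t₀ > 0, ∀ y : ℝ, 0 < y → y ≤ t₀ → (⟨0, -y⟩ : ℂ) ∈ W)) ∧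
    (![(⟨b, d⟩ : ℂ), ⟨a, d⟩, ⟨b, c⟩, ⟨a, c⟩] k ∈ W ∧
      Sep W φ ζ (cc W a b c d (![(⟨b, d⟩ : ℂ), ⟨a, d⟩, ⟨b, c⟩, ⟨a, c⟩] k)))

theorem YE_mono {W : Set ℂ} {φ : ℂ → ℂ} {ζ : ℂ} {k : Fin 4} {ε ε' : ℝ} (h : ε ≤ ε')
    (hQ : YE_Q W φ ζ k ε) : YE_Q W φ ζ k ε' := by
  obtain ⟨a, b, c, d, h1, h2, h3, h4, h5, h6, h7, h8, h9⟩ := hQ
  exact ⟨a, b, c, d, by linarith, h2, h3, by linarith, by linarith, h6, h7, by linarith, h9⟩

theorem YE_choose (W : Set ℂ) (s : ℝ) {ε : ℝ} (hε : 0 < ε) :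
    ∃ d, 0 < d ∧ d < ε ∧ ((⟨0, s * d⟩ : ℂ) ∉ W ∨
      ∃ t₀ > 0, ∀ y : ℝ, 0 < y → y ≤ t₀ → (⟨0, s * y⟩ : ℂ) ∈ W) := by
  by_cases h : ∃ t₀ > 0, ∀ y : ℝ, 0 < y → y ≤ t₀ → (⟨0, s * y⟩ : ℂ) ∈ W
  · exact ⟨ε / 2, by linarith, by linarith, Or.inr h⟩
  · push Not at h
    obtain ⟨y, hy0, hy1, hy2⟩ := h (ε / 2) (by linarith)
    exact ⟨y, hy0, by linarith, Or.inl hy2⟩

theorem YE_pigeon {W : Set ℂ} {φ : ℂ → ℂ} {ζ : ℂ} (h : ∀ ε > 0, ∃ k, YE_Q W φ ζ k ε) :
    ∃ k, ∀ ε > 0, YE_Q W φ ζ k ε := by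
  by_contra hcon
  push Not at hcon
  choose e he hQ using hcon
  obtain ⟨m, hm, hmin⟩ : ∃ m > 0, ∀ k, m ≤ e k := by
    refine ⟨min (min (e 0) (e 1)) (min (e 2) (e 3)), ?_, ?_⟩
    · exact lt_min (lt_min (he 0) (he 1)) (lt_min (he 2) (he 3))
    · intro k
      fin_cases k
      · exact (min_le_left _ _).trans (min_le_left _ _)
      · exact (min_le_left _ _).trans (min_le_right _ _)
      · exact (min_le_right _ _).trans (min_le_left _ _)
      · exact (min_le_right _ _).trans (min_le_right _ _)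
  obtain ⟨k, hk⟩ := h m hm
  exact hQ k (YE_mono (hmin k) hk)

theorem YE_exists {W : Set ℂ} {φ u G Gi : ℂ → ℂ} {μ : Measure ℂ} {ζ : ℂ} {r₀ : ℝ}
    (H : FixPE W φ u G Gi μ ζ r₀) {r lp km kp : ℝ} (HL : HypLoc G r lp km kp)
    (hax : ∀ x : ℝ, |x| ≤ r → (⟨x, 0⟩ : ℂ) ∉ W) (ε : ℝ) (hε : 0 < ε) :
    ∃ k, YE_Q W φ ζ k ε := by
  obtain ⟨r₁, hr₁, hmeet⟩ := area_meet H
  have h0W : φ 0 ∈ W := H.φ_maps (mem_ball_self one_pos)
  have h0 : 0 < ‖φ 0‖ := by
    rw [norm_pos_iff]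
    intro h
    exact H.zero_notin (h ▸ h0W)
  set e : ℝ := min (min ε r) (min (r₁ / 2) (‖φ 0‖ / 2)) with he
  have hr : 0 < r := HL.hr
  have hepos : 0 < e := lt_min (lt_min hε hr) (lt_min (by linarith) (by linarith))
  have he1 : e ≤ ε := (min_le_left _ _).trans (min_le_left _ _)
  have he2 : e ≤ r := (min_le_left _ _).trans (min_le_right _ _)
  have he3 : e ≤ r₁ / 2 := (min_le_right _ _).trans (min_le_left _ _)
  have he4 : e ≤ ‖φ 0‖ / 2 := (min_le_right _ _).trans (min_le_right _ _)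
  obtain ⟨d, hd0, hde, hdW⟩ := YE_choose W 1 hepos
  obtain ⟨c', hc0, hce, hcW⟩ := YE_choose W (-1) hepos
  simp only [one_mul] at hdW
  simp only [neg_mul, one_mul] at hcW
  have ha : -(e / 2) < 0 := by linarith
  have hb : 0 < e / 2 := by linarith
  have hc : -c' < 0 := by linarith
  have hnorm : ∀ z ∈ Rect (-(e / 2)) (e / 2) (-c') d, |z.re| < e ∧ |z.im| < e := by
    rintro z ⟨h1, h2, h3, h4⟩
    constructor
    · rw [abs_lt]; constructor <;> linarith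
    · rw [abs_lt]; constructor <;> linarith
  have hnorm2 : ∀ z ∈ Rect (-(e / 2)) (e / 2) (-c') d, ‖z‖ < 2 * e := by
    intro z hz
    have h1 := hnorm z hz
    have h2 := Complex.norm_le_abs_re_add_abs_im z
    linarith [h1.1, h1.2]
  have hR1 : Rect (-(e / 2)) (e / 2) (-c') d ⊆ closedBall 0 r₁ := by
    intro z hz
    rw [mem_closedBall_zero_iff]
    have := hnorm2 z hz
    linarith
  have hR2 : Rect (-(e / 2)) (e / 2) (-c') d ⊆ Sq r := by
    intro z hz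
    obtain ⟨h1, h2⟩ := hnorm z hz
    rw [abs_lt] at h1 h2
    exact ⟨by linarith, by linarith, by linarith, by linarith⟩
  have hR3 : φ 0 ∉ Rect (-(e / 2)) (e / 2) (-c') d := by
    intro h
    have := hnorm2 _ h
    linarith
  obtain ⟨w, hw, hsep⟩ := exists_sep H ha hb hc hd0 hR3
  have hm := hmeet _ _ _ _ (ha.trans hb) (hc.trans hd0) hR1 w hw hsep
  have hcor := corner_in HL hax ha hb hc hd0 hR2 hm
  have hcc : ∀ v ∈ cc W (-(e / 2)) (e / 2) (-c') d w,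
      v ∈ W ∧ Sep W φ ζ (cc W (-(e / 2)) (e / 2) (-c') d v) := by
    intro v hv
    have h1 : v ∈ Bd (-(e / 2)) (e / 2) (-c') d ∩ W := connectedComponentIn_subset _ _ hv
    have h2 : cc W (-(e / 2)) (e / 2) (-c') d w = cc W (-(e / 2)) (e / 2) (-c') d v :=
      connectedComponentIn_eq hv
    exact ⟨h1.2, h2 ▸ hsep⟩
  rcases hcor with h | h | h | h
  · exact ⟨0, _, _, _, _, by linarith, ha, hb, by linarith, by linarith, hc, hd0, by linarith,
      ⟨hdW, hcW⟩, hcc _ h⟩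
  · exact ⟨1, _, _, _, _, by linarith, ha, hb, by linarith, by linarith, hc, hd0, by linarith,
      ⟨hdW, hcW⟩, hcc _ h⟩
  · exact ⟨2, _, _, _, _, by linarith, ha, hb, by linarith, by linarith, hc, hd0, by linarith,
      ⟨hdW, hcW⟩, hcc _ h⟩
  · exact ⟨3, _, _, _, _, by linarith, ha, hb, by linarith, by linarith, hc, hd0, by linarith,
      ⟨hdW, hcW⟩, hcc _ h⟩

theorem YE_apply {W : Set ℂ} {φ u G Gi : ℂ → ℂ} {μ : Measure ℂ} {ζ : ℂ} {r₀ : ℝ}
    (H : FixPE W φ u G Gi μ ζ r₀) {r lp km kp : ℝ} (HL : HypLoc G r lp km kp)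
    (hWi : ∀ z ∈ Sq r, G z ∈ W → z ∈ W) (hax : ∀ x : ℝ, |x| ≤ r → (⟨x, 0⟩ : ℂ) ∉ W)
    {σ₁ σ₂ : ℝ} (h1 : σ₁ = 1 ∨ σ₁ = -1) (h2 : σ₂ = 1 ∨ σ₂ = -1)
    (hNP : ∀ ε > 0, ∃ a b c d : ℝ, -ε < a ∧ a < 0 ∧ 0 < b ∧ b < ε ∧ -ε < c ∧ c < 0 ∧ 0 < d ∧ d < ε ∧
      (⟨b, d⟩ : ℂ) ∈ refl σ₁ σ₂ ⁻¹' W ∧
      Sep (refl σ₁ σ₂ ⁻¹' W) (fun z => refl σ₁ σ₂ (φ z)) ζ
        (cc (refl σ₁ σ₂ ⁻¹' W) a b c d ⟨b, d⟩) ∧
      ((⟨0, d⟩ : ℂ) ∉ refl σ₁ σ₂ ⁻¹' W ∨
        ∃ t₀ > 0, ∀ y : ℝ, 0 < y → y ≤ t₀ → (⟨0, y⟩ : ℂ) ∈ refl σ₁ σ₂ ⁻¹' W)) :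
    ∃ σ₁ σ₂ δ : ℝ, (σ₁ = 1 ∨ σ₁ = -1) ∧ (σ₂ = 1 ∨ σ₂ = -1) ∧
      GoodQuad (refl σ₁ σ₂ ⁻¹' W) (fun w => u (refl σ₁ σ₂ w)) ζ δ := by
  have hSq : ∀ z ∈ Sq r, refl σ₁ σ₂ z ∈ Sq r := by
    rintro z ⟨z1, z2, z3, z4⟩
    rcases h1 with rfl | rfl <;> rcases h2 with rfl | rfl <;>
      refine ⟨?_, ?_, ?_, ?_⟩ <;> simp only [refl, one_mul, neg_mul] <;> linarith
  obtain ⟨δ, hδ⟩ := good_quad (refl_fixPE H h1 h2) (refl_hypLoc HL h1 h2)
    (by
      intro z hz hG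
      have hG' : refl σ₁ σ₂ (refl σ₁ σ₂ (G (refl σ₁ σ₂ z))) ∈ W := hG
      rw [refl_refl h1 h2] at hG'
      exact hWi _ (hSq z hz) hG')
    (by
      intro x hx hmem
      have hmem' : (⟨σ₁ * x, σ₂ * 0⟩ : ℂ) ∈ W := hmem
      rw [mul_zero] at hmem'
      refine hax (σ₁ * x) ?_ hmem'
      rcases h1 with rfl | rfl
      · rwa [one_mul]
      · rwa [neg_one_mul, abs_neg]) hNP
  exact ⟨σ₁, σ₂, δ, h1, h2, hδ⟩

theorem local_hyp {W : Set ℂ} {φ u G Gi : ℂ → ℂ} {μ : Measure ℂ} {ζ : ℂ} {r₀ : ℝ}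
    (H : FixPE W φ u G Gi μ ζ r₀) {r lp km kp : ℝ} (HL : HypLoc G r lp km kp)
    (hWi : ∀ z ∈ Sq r, G z ∈ W → z ∈ W) (hax : ∀ x : ℝ, |x| ≤ r → (⟨x, 0⟩ : ℂ) ∉ W) :
    ∃ σ₁ σ₂ δ : ℝ, (σ₁ = 1 ∨ σ₁ = -1) ∧ (σ₂ = 1 ∨ σ₂ = -1) ∧
      GoodQuad (refl σ₁ σ₂ ⁻¹' W) (fun w => u (refl σ₁ σ₂ w)) ζ δ := by
  obtain ⟨k, hk⟩ := YE_pigeon (YE_exists H HL hax)
  fin_cases k
  · refine YE_apply H HL hWi hax (Or.inl rfl) (Or.inl rfl) ?_
    have hid : refl 1 1 = id := by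
      funext z
      simp [refl]
    intro ε hε
    obtain ⟨a, b, c, d, k1, k2, k3, k4, k5, k6, k7, k8, ⟨k9, -⟩, k10, k11⟩ := hk ε hε
    refine ⟨a, b, c, d, k1, k2, k3, k4, k5, k6, k7, k8, ?_⟩
    rw [hid]
    exact ⟨k10, k11, k9⟩
  · refine YE_apply H HL hWi hax (Or.inr rfl) (Or.inl rfl) ?_
    intro ε hε
    obtain ⟨a, b, c, d, k1, k2, k3, k4, k5, k6, k7, k8, ⟨k9, -⟩, k10, k11⟩ := hk ε hε
    refine ⟨-b, -a, c, d, by linarith, by linarith, by linarith, by linarith, k5, k6, k7, k8,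
      ?_, ?_, ?_⟩
    · change (⟨-1 * -a, 1 * d⟩ : ℂ) ∈ W
      have : (⟨-1 * -a, 1 * d⟩ : ℂ) = ⟨a, d⟩ := by congr 1 <;> ring
      rw [this]
      exact k10
    · have h3 := refl_sep_h (W := W) (φ := φ) (ζ := ζ) (a := a) (b := b) (c := c) (d := d)
        (w := ⟨a, d⟩) k11
      have : refl (-1) 1 (⟨a, d⟩ : ℂ) = ⟨-a, d⟩ := by
        simp [refl]
      rw [this] at h3
      exact h3
    · have h4 : ∀ y : ℝ, (⟨0, y⟩ : ℂ) ∈ refl (-1) 1 ⁻¹' W ↔ (⟨0, y⟩ : ℂ) ∈ W := by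
        intro y
        have : refl (-1) 1 (⟨0, y⟩ : ℂ) = ⟨0, y⟩ := by simp [refl]
        rw [Set.mem_preimage, this]
      simp only [h4]
      exact k9
  · refine YE_apply H HL hWi hax (Or.inl rfl) (Or.inr rfl) ?_
    intro ε hε
    obtain ⟨a, b, c, d, k1, k2, k3, k4, k5, k6, k7, k8, ⟨-, k9⟩, k10, k11⟩ := hk ε hε
    refine ⟨a, b, -d, -c, k1, k2, k3, k4, by linarith, by linarith, by linarith, by linarith,
      ?_, ?_, ?_⟩
    · change (⟨1 * b, -1 * -c⟩ : ℂ) ∈ W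
      have : (⟨1 * b, -1 * -c⟩ : ℂ) = ⟨b, c⟩ := by congr 1 <;> ring
      rw [this]
      exact k10
    · have h3 := refl_sep_v (W := W) (φ := φ) (ζ := ζ) (a := a) (b := b) (c := c) (d := d)
        (w := ⟨b, c⟩) k11
      have : refl 1 (-1) (⟨b, c⟩ : ℂ) = ⟨b, -c⟩ := by
        simp [refl]
      rw [this] at h3
      exact h3
    · have h4 : ∀ y : ℝ, (⟨0, y⟩ : ℂ) ∈ refl 1 (-1) ⁻¹' W ↔ (⟨0, -y⟩ : ℂ) ∈ W := by
        intro y
        have : refl 1 (-1) (⟨0, y⟩ : ℂ) = ⟨0, -y⟩ := by simp [refl]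
        rw [Set.mem_preimage, this]
      simp only [h4, neg_neg]
      exact k9
  · refine YE_apply H HL hWi hax (Or.inr rfl) (Or.inr rfl) ?_
    intro ε hε
    obtain ⟨a, b, c, d, k1, k2, k3, k4, k5, k6, k7, k8, ⟨-, k9⟩, k10, k11⟩ := hk ε hε
    refine ⟨-b, -a, -d, -c, by linarith, by linarith, by linarith, by linarith, by linarith,
      by linarith, by linarith, by linarith, ?_, ?_, ?_⟩
    · change (⟨-1 * -a, -1 * -c⟩ : ℂ) ∈ W
      have : (⟨-1 * -a, -1 * -c⟩ : ℂ) = ⟨a, c⟩ := by congr 1 <;> ring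
      rw [this]
      exact k10
    · have h3 := refl_sep_hv (W := W) (φ := φ) (ζ := ζ) (a := a) (b := b) (c := c) (d := d)
        (w := ⟨a, c⟩) k11
      have : refl (-1) (-1) (⟨a, c⟩ : ℂ) = ⟨-a, -c⟩ := by
        simp [refl]
      rw [this] at h3
      exact h3
    · have h4 : ∀ y : ℝ, (⟨0, y⟩ : ℂ) ∈ refl (-1) (-1) ⁻¹' W ↔ (⟨0, -y⟩ : ℂ) ∈ W := by
        intro y
        have : refl (-1) (-1) (⟨0, y⟩ : ℂ) = ⟨0, -y⟩ := by simp [refl]
        rw [Set.mem_preimage, this]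
      simp only [h4, neg_neg]
      exact k9

end DS

end S_H36_DS_YE

section S_H36_DS_JD

/-!
JD (elliptic principal points are impossible; good charts at hyperbolic ones).
`fixes_end`: `hb` is continuous on the closed disc, `hb ζ = ζ`, and `hb = u ∘ g ∘ φ` on the open disc.
`no_ell_end`: let `P', χ, κ, w₁` be from `EllPt`, `W = κ ⁻¹' Kᶜ`, `G = χ ∘ g ∘ κ`.  For `j > 0` the homeomorphism `g^[j]` has the boundary
map `hb^[j]` (`endMap_iter`), which fixes `ζ`; `fixPE_of` gives a `FixPE` structure with `Gj = χ ∘ g^[j] ∘ κ`, and `Gj = G^[j]` on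
`W` by induction (`κ (G w) = g (κ w)` for `w ∈ W`, because `g (κ w) ∉ K`, so it is `≠ P'`).  The measure `ν` is invariant under
`g^[j]` for subsets of `Kᶜ`.  Apply `elliptic_false`.
`exists_good`: from `HypChart` for `g`; `fixPE_of` gives `FixPE` for any `r₀`, say `r₀ = 1`; `hWi`: if `z ∈ Sq r` and
`G z ∈ W` then `g (κ z) = κ (G z) ∉ K` (`g (κ z) ≠ P'`), so `κ z ∉ K`; `local_hyp` gives `σ₁, σ₂, δ` with `GoodQuad` for the reflected
system; put `χ' = refl σ₁ σ₂ ∘ χ`, `κ' = κ ∘ refl σ₁ σ₂` (`refl_refl`), `refl_fixPE`, `refl_hypLoc`; `HypChart` for `χ', κ'`: the axis, `sp` and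
`cross` are symmetric under reflections.  `GoodQuad` is monotone in `δ`: shrink `δ` below `r / 2` and `r₀ / 8`.
-/

namespace DS
open Metric Set Filter Topology MeasureTheory

private theorem JD_image_iter {X : Type*} {K : Set X} {g : X → X} (hgK : g '' K = K) (j : ℕ) :
    g^[j] '' K = K := by
  induction j with
  | zero => simp
  | succ n ih => rw [Function.iterate_succ', image_comp, ih, hgK]

private theorem JD_inv_iter {X : Type*} {g gi : X → X} (h : ∀ x, g (gi x) = x) (j : ℕ) (x : X) :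
    g^[j] (gi^[j] x) = x :=
  Function.LeftInverse.iterate h j x

private theorem JD_maps {X : Type*} {K : Set X} {g gi : X → X} (hgig : ∀ x, gi (g x) = x)
    (hgK : g '' K = K) : MapsTo g Kᶜ Kᶜ := by
  intro x hx hgx
  rw [← hgK] at hgx
  obtain ⟨y, hy, hyx⟩ := hgx
  have : y = x := by rw [← hgig y, hyx, hgig]
  exact hx (this ▸ hy)

private theorem JD_maps' {X : Type*} {K : Set X} {g gi : X → X} (hggi : ∀ x, g (gi x) = x)
    (hgK : g '' K = K) : MapsTo gi Kᶜ Kᶜ := by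
  intro x hx hgx
  apply hx
  rw [← hggi x, ← hgK]
  exact ⟨_, hgx, rfl⟩

private theorem JD_nu_iter {X : Type*} [MetricSpace X] [MeasurableSpace X] [BorelSpace X] {K : Set X}
    {g gi : X → X} (hg : Continuous g) (hgi : Continuous gi) (hggi : ∀ x, g (gi x) = x)
    (hgig : ∀ x, gi (g x) = x) (hgK : g '' K = K) (ν : Measure X)
    (hν : ∀ B ⊆ Kᶜ, MeasurableSet B → ν (g '' B) = ν B) (j : ℕ) :
    ∀ B ⊆ Kᶜ, MeasurableSet B → ν (g^[j] '' B) = ν B := by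
  induction j with
  | zero => intro B _ _; simp
  | succ n ih =>
    intro B hB hBm
    rw [Function.iterate_succ, image_comp]
    have h1 : g '' B = gi ⁻¹' B := by
      ext y
      constructor
      · rintro ⟨x, hx, rfl⟩
        simpa [hgig] using hx
      · intro hy
        exact ⟨gi y, hy, hggi y⟩
    rw [ih, hν B hB hBm]
    · exact (mapsTo_iff_image_subset.1 ((JD_maps hgig hgK).mono_left hB))
    · rw [h1]; exact hgi.measurable hBm

private theorem JD_abs {σ : ℝ} (h : σ = 1 ∨ σ = -1) (x : ℝ) : |σ * x| = |x| := by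
  rcases h with rfl | rfl <;> simp

private theorem JD_refl_sq {σ₁ σ₂ : ℝ} (h1 : σ₁ = 1 ∨ σ₁ = -1) (h2 : σ₂ = 1 ∨ σ₂ = -1) {r : ℝ}
    {z : ℂ} (hz : z ∈ Sq r) : refl σ₁ σ₂ z ∈ Sq r := by
  obtain ⟨a, b, c, d⟩ := hz
  rcases h1 with rfl | rfl <;> rcases h2 with rfl | rfl <;>
    refine ⟨?_, ?_, ?_, ?_⟩ <;> simp only [refl] <;> linarith

private theorem JD_refl_cont {σ₁ σ₂ : ℝ} : Continuous (refl σ₁ σ₂) := by
  have : refl σ₁ σ₂ = fun z : ℂ => ((σ₁ * z.re : ℝ) : ℂ) + ((σ₂ * z.im : ℝ) : ℂ) * Complex.I := by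
    funext z
    apply Complex.ext <;> simp [refl]
  rw [this]
  fun_prop

private theorem JD_refl_dist {σ₁ σ₂ : ℝ} (h1 : σ₁ = 1 ∨ σ₁ = -1) (h2 : σ₂ = 1 ∨ σ₂ = -1) (z w : ℂ) :
    dist (refl σ₁ σ₂ z) (refl σ₁ σ₂ w) = dist z w := by
  rw [Complex.dist_eq_re_im, Complex.dist_eq_re_im]
  rcases h1 with rfl | rfl <;> rcases h2 with rfl | rfl <;> simp only [refl] <;> congr 1 <;> ring

private theorem JD_quad_mono {W : Set ℂ} {u : ℂ → ℂ} {ζ : ℂ} {δ δ' : ℝ} (h : GoodQuad W u ζ δ)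
    (h0 : 0 < δ') (hle : δ' ≤ δ) : GoodQuad W u ζ δ' := by
  refine ⟨h0, fun x y hx hx' hy hy' => h.sub x y hx (hx'.trans hle) hy (hy'.trans hle), h.lim, ?_⟩
  rcases h.alt with h1 | ⟨h1, h2⟩
  · exact Or.inl h1
  · exact Or.inr ⟨fun x y hx hy hy' => h1 x y (hx.trans hle) hy (hy'.trans hle), h2⟩

private theorem JD_chart {X : Type*} [TopologicalSpace X] {K : Set X} {SP : X → Prop} {g : X → X}
    {P P' : X} {χ : X → ℂ} {κ : ℂ → X} {r lp km kp : ℝ} (hH : HypChart K SP g P P' χ κ r lp km kp)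
    {σ₁ σ₂ : ℝ} (h1 : σ₁ = 1 ∨ σ₁ = -1) (h2 : σ₂ = 1 ∨ σ₂ = -1) :
    HypChart K SP g P P' (fun x => refl σ₁ σ₂ (χ x)) (fun w => κ (refl σ₁ σ₂ w)) r lp km kp := by
  have hre : ∀ x : ℝ, refl σ₁ σ₂ ⟨x, 0⟩ = ⟨σ₁ * x, 0⟩ := by
    intro x; apply Complex.ext <;> simp [refl]
  have him : ∀ x : ℝ, refl σ₁ σ₂ ⟨0, x⟩ = ⟨0, σ₂ * x⟩ := by
    intro x; apply Complex.ext <;> simp [refl]
  refine ⟨⟨hH.ch.hP', hH.ch.κ_cont.comp JD_refl_cont, fun z => hH.ch.κ_ne _, ?_, ?_, ?_, ?_⟩,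
    refl_hypLoc hH.loc h1 h2, fun w hw => hH.ne _ (JD_refl_sq h1 h2 hw), ?_, ?_, ?_⟩
  · intro z
    simp only [hH.ch.χκ, refl_refl h1 h2]
  · intro x hx
    simp only [refl_refl h1 h2]
    exact hH.ch.κχ x hx
  · exact JD_refl_cont.comp_continuousOn hH.ch.χ_cont
  · have : refl σ₁ σ₂ 0 = 0 := by apply Complex.ext <;> simp [refl]
    simp only [this]
    exact hH.ch.κ0
  · intro x hx
    simp only [hre]
    apply hH.axis
    rw [JD_abs h1]; exact hx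
  · intro x hx hx'
    simp only [hre]
    apply hH.sp
    · rw [JD_abs h1]; exact hx
    · rw [JD_abs h1]; exact hx'
  · intro y hy hy' hK hSP ε hε
    simp only [him] at hK hSP
    obtain ⟨⟨z, hz, hz0, hzK⟩, ⟨w, hw, hw0, hwK⟩⟩ := hH.cross (σ₂ * y) (by rw [JD_abs h2]; exact hy)
      (by rw [JD_abs h2]; exact hy') hK hSP ε hε
    have e1 : ∀ z : ℂ, z ∈ ball (⟨0, σ₂ * y⟩ : ℂ) ε → refl σ₁ σ₂ z ∈ ball (⟨0, y⟩ : ℂ) ε := by
      intro z hz
      have : refl σ₁ σ₂ (⟨0, σ₂ * y⟩ : ℂ) = ⟨0, y⟩ := by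
        rw [← him, refl_refl h1 h2]
      rw [mem_ball, ← this, JD_refl_dist h1 h2]
      exact hz
    rcases h1 with rfl | rfl
    · refine ⟨⟨_, e1 z hz, ?_, ?_⟩, ⟨_, e1 w hw, ?_, ?_⟩⟩
      · simpa [refl] using hz0
      · simpa [refl_refl (Or.inl rfl) h2] using hzK
      · simpa [refl] using hw0
      · simpa [refl_refl (Or.inl rfl) h2] using hwK
    · refine ⟨⟨_, e1 w hw, ?_, ?_⟩, ⟨_, e1 z hz, ?_, ?_⟩⟩
      · simpa [refl] using hw0
      · simpa [refl_refl (Or.inr rfl) h2] using hwK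
      · simpa [refl] using hz0
      · simpa [refl_refl (Or.inr rfl) h2] using hzK

theorem fixes_end {X : Type*} {φ : ℂ → X} {u : X → ℂ} {g gi : X → X} {hb hbi : ℂ → ℂ}
    (hE : EndMap φ u g gi hb hbi) {ζ : ℂ} (hζ : ‖ζ‖ = 1) (hfix : hb ζ = ζ) :
    Tendsto (fun z => u (g (φ z))) (𝓝[ball 0 1] ζ) (𝓝 ζ) := by
  have h1 : Tendsto hb (𝓝[closedBall 0 1] ζ) (𝓝 (hb ζ)) :=
    hE.bc ζ (by rw [mem_closedBall_zero_iff, hζ])
  rw [hfix] at h1
  have h2 := h1.mono_left (nhdsWithin_mono ζ (ball_subset_closedBall (x := (0:ℂ)) (ε := 1)))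
  refine h2.congr' ?_
  filter_upwards [self_mem_nhdsWithin] with z hz
  exact hE.be z hz

theorem no_ell_end {X : Type*} [MetricSpace X] [MeasurableSpace X] [BorelSpace X] {K : Set X}
    (hK : IsClosed K) {φ : ℂ → X} {u : X → ℂ} (hD : DiscMap K φ u) {g gi : X → X}
    (hg : Continuous g) (hgi : Continuous gi) (hggi : ∀ x, g (gi x) = x)
    (hgig : ∀ x, gi (g x) = x) (hgK : g '' K = K) {hb hbi : ℂ → ℂ}
    (hE : EndMap φ u g gi hb hbi) (ν : Measure X)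
    (hν : ∀ B ⊆ Kᶜ, MeasurableSet B → ν (g '' B) = ν B)
    (hpos : ∀ O ⊆ Kᶜ, IsOpen O → O.Nonempty → 0 < ν O) {ζ : ℂ} (hζ : ‖ζ‖ = 1)
    (hfin : ∃ ρ > 0, ν (φ '' (ball 0 1 ∩ ball ζ ρ)) < ⊤) (hfix : hb ζ = ζ) {P : X} (hP : P ∈ K)
    (hPr : Principal φ ζ P) (hell : EllPt K g P) : False := by
  obtain ⟨P', χ, κ, w₁, hχ, hw, hw1, hlim⟩ := hell
  have hm := JD_maps hgig hgK
  have hmi := JD_maps' hggi hgK
  have hne : ∀ x ∈ Kᶜ, x ≠ P' := fun x hx h => hx (h ▸ hχ.hP')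
  refine elliptic_false (W := κ ⁻¹' Kᶜ) (φ := fun z => χ (φ z)) (u := fun w => u (κ w))
    (G := fun w => χ (g (κ w))) (ζ := ζ) ?_ hw hw1 hlim
  intro j hj
  have hEj := endMap_iter hD hm hmi hE j
  have hfj : hb^[j] ζ = ζ := Function.iterate_fixed hfix j
  obtain ⟨μ, hμ⟩ := fixPE_of hK hD (hg.iterate j) (hgi.iterate j) (JD_inv_iter hggi j)
    (JD_inv_iter hgig j) (JD_image_iter hgK j) ν
    (JD_nu_iter hg hgi hggi hgig hgK ν hν j) hpos hχ hP hζ hfin (fixes_end hEj hζ hfj) hPr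
    (one_pos : (0:ℝ) < 1)
  refine ⟨_, _, μ, 1, hμ, ?_⟩
  have hit : ∀ (n : ℕ) (w : ℂ), κ w ∈ Kᶜ → κ ((fun w => χ (g (κ w)))^[n] w) = g^[n] (κ w) := by
    intro n
    induction n with
    | zero => intro w _; rfl
    | succ n ih =>
      intro w hw
      rw [Function.iterate_succ, Function.iterate_succ, Function.comp, Function.comp]
      have h1 : κ (χ (g (κ w))) = g (κ w) := hχ.κχ _ (hne _ (hm hw))
      have h2 : κ (χ (g (κ w))) ∈ Kᶜ := by rw [h1]; exact hm hw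
      rw [ih _ h2, h1]
  intro w hw
  show χ (g^[j] (κ w)) = _
  rw [← hit j w hw, hχ.χκ]

theorem exists_good {X : Type*} [MetricSpace X] [MeasurableSpace X] [BorelSpace X] {K : Set X}
    (hK : IsClosed K) {φ : ℂ → X} {u : X → ℂ} (hD : DiscMap K φ u) {g gi : X → X}
    (hg : Continuous g) (hgi : Continuous gi) (hggi : ∀ x, g (gi x) = x)
    (hgig : ∀ x, gi (g x) = x) (hgK : g '' K = K) {hb hbi : ℂ → ℂ}
    (hE : EndMap φ u g gi hb hbi) (ν : Measure X)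
    (hν : ∀ B ⊆ Kᶜ, MeasurableSet B → ν (g '' B) = ν B)
    (hpos : ∀ O ⊆ Kᶜ, IsOpen O → O.Nonempty → 0 < ν O) {SP : X → Prop} {ζ : ℂ} (hζ : ‖ζ‖ = 1)
    (hfin : ∃ ρ > 0, ν (φ '' (ball 0 1 ∩ ball ζ ρ)) < ⊤) (hfix : hb ζ = ζ) {P P' : X} (hP : P ∈ K)
    (hPr : Principal φ ζ P) {χ : X → ℂ} {κ : ℂ → X} {r lp km kp : ℝ}
    (hH : HypChart K SP g P P' χ κ r lp km kp) :
    ∃ (χ' : X → ℂ) (κ' : ℂ → X) (μ : Measure ℂ) (r₀ δ : ℝ),
      GoodChart K SP φ u g gi ζ P P' χ' κ' μ r r₀ lp km kp δ := by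
  obtain ⟨μ, hμ⟩ := fixPE_of hK hD hg hgi hggi hgig hgK ν hν hpos hH.ch hP hζ hfin
    (fixes_end hE hζ hfix) hPr (one_pos : (0:ℝ) < 1)
  have hWi : ∀ z ∈ Sq r, χ (g (κ z)) ∈ κ ⁻¹' Kᶜ → z ∈ κ ⁻¹' Kᶜ := by
    intro z hz hGz hzK
    apply hGz
    have h1 : κ (χ (g (κ z))) = g (κ z) := hH.ch.κχ _ (hH.ne z hz)
    rw [h1, ← hgK]
    exact ⟨_, hzK, rfl⟩
  have hax : ∀ x : ℝ, |x| ≤ r → (⟨x, 0⟩ : ℂ) ∉ κ ⁻¹' Kᶜ := fun x hx h => h (hH.axis x hx)
  obtain ⟨σ₁, σ₂, δ, h1, h2, hq⟩ := local_hyp hμ hH.loc hWi hax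
  have hr : 0 < r := hH.loc.hr
  have hδ : 0 < min δ (min (r / 2) (1 / 8)) := lt_min hq.hδ (lt_min (by linarith) (by norm_num))
  refine ⟨fun x => refl σ₁ σ₂ (χ x), fun w => κ (refl σ₁ σ₂ w), Measure.map (refl σ₁ σ₂) μ, 1,
    min δ (min (r / 2) (1 / 8)), ⟨JD_chart hH h1 h2, hPr, refl_fixPE hμ h1 h2,
      JD_quad_mono hq hδ (min_le_left _ _), ?_, ?_⟩⟩
  · calc min δ (min (r / 2) (1 / 8)) ≤ r / 2 := (min_le_right _ _).trans (min_le_left _ _)
      _ < r := by linarith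
  · have : min δ (min (r / 2) (1 / 8)) ≤ 1 / 8 := (min_le_right _ _).trans (min_le_right _ _)
    linarith

end DS

end S_H36_DS_JD

section S_H36_DS_SW

/-!
SW (local stable and unstable sets).
`stable_iter`: with `g = f^[M]`, `g P = P`: if `g^[n] x → P` then `dist (f^[n] x) (f^[n] P) → 0`
(write `n = M k + j`, `j < M`; the finitely many maps `f^[j]` are uniformly continuous on the compact sphere).
`axis_stable`: for `|x| ≤ r` the iterates under `G = χ ∘ g ∘ κ` of `(x, 0)` stay on the horizontal axis in `Sq r`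
(`im0`, `repos`, `reneg`, `re0`) and tend to `0`; as `g (κ w) ≠ O` for `w ∈ Sq r`, `κ (G w) = g (κ w)`; so
`g^[n] (κ ⟨x, 0⟩) → κ 0 = P`.
`axis_unstable`: for `0 < y ≤ r` there is `y' ∈ (0, y / km]` with `G ⟨0, y'⟩ = ⟨0, y⟩` (`re0`, intermediate value theorem,
`im0`, `impos`), so `gi (κ ⟨0, y⟩) = κ ⟨0, y'⟩`; iterate: `gi^[n] (κ ⟨0,y⟩) → P`; then `stable_iter` for `fi`.
`stable_back`: if `x ∈ stableSet f P`, `f^[M] P = P`, then `fi^[M * n] x ∈ stableSet f P`.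
`hyp_of_tr`: from `trichotomy`.
-/

namespace DS
open Metric Set Filter Topology Function MeasureTheory
open scoped Manifold ContDiff

theorem stable_iter {f : S2 → S2} (hf : Continuous f) {M : ℕ} (hM : 0 < M) {P x : S2}
    (hP : f^[M] P = P) (h : Tendsto (fun n : ℕ => (f^[M])^[n] x) atTop (𝓝 P)) :
    x ∈ stableSet f P := by
  show Tendsto (fun n : ℕ => dist (f^[n] x) (f^[n] P)) atTop (𝓝 0)
  rw [Metric.tendsto_nhds]
  intro ε hε
  have hj : ∀ j : ℕ, ∀ᶠ k : ℕ in atTop, dist (f^[j] ((f^[M])^[k] x)) (f^[j] P) < ε := by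
    intro j
    have h1 : Tendsto (fun k : ℕ => f^[j] ((f^[M])^[k] x)) atTop (𝓝 (f^[j] P)) :=
      ((hf.iterate j).tendsto P).comp h
    exact (Metric.tendsto_nhds.1 h1) ε hε
  have hall : ∀ᶠ k : ℕ in atTop, ∀ j ∈ Finset.range M,
      dist (f^[j] ((f^[M])^[k] x)) (f^[j] P) < ε := by
    rw [Filter.eventually_all_finset]
    intro j _
    exact hj j
  obtain ⟨K, hK⟩ := Filter.eventually_atTop.1 hall
  filter_upwards [Filter.eventually_ge_atTop (M * K)] with n hn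
  have hk : K ≤ n / M := by
    rw [Nat.le_div_iff_mul_le hM]
    linarith [Nat.mul_comm M K]
  have hfix : ∀ k : ℕ, (f^[M])^[k] P = P := fun k => Function.iterate_fixed hP k
  have e : ∀ z, f^[n] z = f^[n % M] ((f^[M])^[n / M] z) := by
    intro z
    rw [← Function.iterate_mul, ← Function.iterate_add_apply, Nat.mod_add_div]
  rw [Real.dist_eq, sub_zero, abs_of_nonneg dist_nonneg, e x, e P, hfix]
  exact hK _ hk _ (Finset.mem_range.2 (Nat.mod_lt _ hM))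

theorem stable_back {f fi : S2 → S2} (hffi : ∀ x, f (fi x) = x) {M : ℕ} {P x : S2}
    (hP : f^[M] P = P) (h : x ∈ stableSet f P) (n : ℕ) : (fi^[M])^[n] x ∈ stableSet f P := by
  have h' : Tendsto (fun n : ℕ => dist (f^[n] x) (f^[n] P)) atTop (𝓝 0) := h
  show Tendsto (fun k : ℕ => dist (f^[k] ((fi^[M])^[n] x)) (f^[k] P)) atTop (𝓝 0)
  rw [← tendsto_add_atTop_iff_nat (M * n)]
  refine h'.congr fun k => ?_
  have e1 : f^[M * n] P = P := by
    rw [Function.iterate_mul]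
    exact Function.iterate_fixed hP n
  have e2 : f^[M * n] ((fi^[M])^[n] x) = x := by
    rw [← Function.iterate_mul]
    exact (Function.LeftInverse.iterate hffi (M * n)) x
  rw [Function.iterate_add_apply, Function.iterate_add_apply, e1, e2]

private theorem SW_squeeze {κ : ℂ → S2} (hκ : Continuous κ) {q : ℝ} (hq0 : 0 ≤ q) (hq : q < 1)
    {P : S2} (h0 : κ 0 = P) {c : ℝ} {z : ℕ → ℂ} (hz : ∀ n, ‖z n‖ ≤ q ^ n * c) :
    Tendsto (fun n => κ (z n)) atTop (𝓝 P) := by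
  rw [← h0]
  apply (hκ.tendsto 0).comp
  rw [tendsto_zero_iff_norm_tendsto_zero]
  refine squeeze_zero (fun n => norm_nonneg _) hz ?_
  have := (tendsto_pow_atTop_nhds_zero_of_lt_one hq0 hq).mul_const c
  rwa [zero_mul] at this

theorem axis_stable {f : S2 → S2} (hf : Continuous f) {M : ℕ} (hM : 0 < M) {O P : S2}
    {χ : S2 → ℂ} {κ : ℂ → S2} (hχ : PC1 O χ κ) (h0 : κ 0 = P) (hP : f^[M] P = P)
    {r lp km kp : ℝ} (HL : HypLoc (fun w => χ (f^[M] (κ w))) r lp km kp)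
    (hO : ∀ w ∈ Sq r, f^[M] (κ w) ≠ O) {x : ℝ} (hx : |x| ≤ r) :
    κ ⟨x, 0⟩ ∈ stableSet f P := by
  have hr := HL.hr
  have hlp := HL.hlp
  have hlp1 := HL.hlp1
  have hstep : ∀ x : ℝ, |x| ≤ r → ∃ x' : ℝ, |x'| ≤ lp * |x| ∧ f^[M] (κ ⟨x, 0⟩) = κ ⟨x', 0⟩ := by
    intro x hx
    have hS : (⟨x, 0⟩ : ℂ) ∈ Sq r := by
      have := abs_le.1 hx
      exact ⟨this.1, this.2, by simp only; linarith, by simp only; linarith⟩
    refine ⟨(χ (f^[M] (κ ⟨x, 0⟩))).re, ?_, ?_⟩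
    · rcases lt_trichotomy x 0 with h | h | h
      · have := HL.reneg _ hS h
        simp only at this
        rw [abs_of_neg h, abs_of_neg this.1]
        linarith [this.2]
      · have := HL.re0 _ hS h
        rw [this, abs_zero]
        positivity
      · have := HL.repos _ hS h
        simp only at this
        rw [abs_of_pos h, abs_of_pos this.1]
        linarith [this.2]
    · have him := HL.im0 _ hS rfl
      have e : (⟨(χ (f^[M] (κ ⟨x, 0⟩))).re, 0⟩ : ℂ) = χ (f^[M] (κ ⟨x, 0⟩)) :=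
        Complex.ext rfl him.symm
      rw [e, hχ.κχ _ (hO _ hS)]
  have hall : ∀ n : ℕ, ∃ x' : ℝ, |x'| ≤ lp ^ n * |x| ∧ (f^[M])^[n] (κ ⟨x, 0⟩) = κ ⟨x', 0⟩ := by
    intro n
    induction n with
    | zero => exact ⟨x, by simp, rfl⟩
    | succ n ih =>
      obtain ⟨x₁, h1, h2⟩ := ih
      have h3 : lp ^ n * |x| ≤ |x| := by
        have := pow_le_one₀ (n := n) hlp.le hlp1.le
        nlinarith [abs_nonneg x]
      obtain ⟨x₂, h4, h5⟩ := hstep x₁ (h1.trans (h3.trans hx))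
      refine ⟨x₂, ?_, ?_⟩
      · rw [pow_succ]
        nlinarith
      · rw [Function.iterate_succ_apply', h2, h5]
  choose z hz1 hz2 using hall
  apply stable_iter hf hM hP
  have hlim := SW_squeeze (z := fun n => (⟨z n, 0⟩ : ℂ)) hχ.κ_smooth.continuous hlp.le hlp1 h0
    (c := |x|) (fun n => by
      refine le_trans ?_ (hz1 n)
      have := Complex.norm_le_abs_re_add_abs_im (⟨z n, 0⟩ : ℂ)
      simpa using this)
  refine hlim.congr fun n => ?_
  rw [hz2 n]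

theorem axis_unstable {f fi : S2 → S2} (hf : Continuous f) (hfi : Continuous fi)
    (hffi : ∀ x, f (fi x) = x) (hfif : ∀ x, fi (f x) = x) {M : ℕ} (hM : 0 < M) {O P : S2}
    {χ : S2 → ℂ} {κ : ℂ → S2} (hχ : PC1 O χ κ) (h0 : κ 0 = P) (hP : f^[M] P = P)
    {r lp km kp : ℝ} (HL : HypLoc (fun w => χ (f^[M] (κ w))) r lp km kp)
    (hO : ∀ w ∈ Sq r, f^[M] (κ w) ≠ O) {y : ℝ} (hy : |y| ≤ r) :
    κ ⟨0, y⟩ ∈ stableSet fi P := by
  have hr := HL.hr
  have hkm := HL.hkm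
  have hkm0 : 0 < km := by linarith
  have hS : ∀ y : ℝ, |y| ≤ r → (⟨0, y⟩ : ℂ) ∈ Sq r := by
    intro y hy
    have := abs_le.1 hy
    exact ⟨by simp only; linarith, by simp only; linarith, this.1, this.2⟩
  have hcont : ContinuousOn (fun y : ℝ => (χ (f^[M] (κ ⟨0, y⟩))).im) {y | |y| ≤ r} := by
    have h1 : ContinuousOn (fun y : ℝ => χ (f^[M] (κ ⟨0, y⟩))) {y | |y| ≤ r} := by
      refine HL.cont.comp (f := fun y : ℝ => (⟨0, y⟩ : ℂ)) ?_ (fun y hy => hS y hy)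
      have : (fun y : ℝ => (⟨0, y⟩ : ℂ)) = fun y : ℝ => (y : ℂ) * Complex.I := by
        funext y
        apply Complex.ext <;> simp
      rw [this]
      fun_prop
    exact Complex.continuous_im.comp_continuousOn h1
  have hival : ∀ y' : ℝ, |y'| ≤ r → ∀ y : ℝ, (χ (f^[M] (κ ⟨0, y'⟩))).im = y →
      fi^[M] (κ ⟨0, y⟩) = κ ⟨0, y'⟩ := by
    intro y' hy' y h
    have hre := HL.re0 _ (hS y' hy') rfl
    have e : (⟨0, y⟩ : ℂ) = χ (f^[M] (κ ⟨0, y'⟩)) := Complex.ext hre.symm h.symm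
    rw [e, hχ.κχ _ (hO _ (hS y' hy'))]
    exact (Function.LeftInverse.iterate hfif M) _
  have h00 : (χ (f^[M] (κ ⟨0, 0⟩))).im = 0 := HL.im0 _ (hS 0 (by simpa using hr.le)) rfl
  have hstep : ∀ y : ℝ, |y| ≤ r → ∃ y' : ℝ, |y'| ≤ km⁻¹ * |y| ∧
      fi^[M] (κ ⟨0, y⟩) = κ ⟨0, y'⟩ := by
    intro y hy
    rcases lt_trichotomy y 0 with h | h | h
    · have h1 := (HL.imneg _ (hS y hy) h).1
      simp only at h1
      have hsub : Icc y 0 ⊆ {y | |y| ≤ r} := by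
        intro w hw
        have := abs_le.1 hy
        show |w| ≤ r
        exact abs_le.2 ⟨by linarith [hw.1, this.1], by linarith [hw.2, this.2]⟩
      obtain ⟨y', hy', he⟩ := intermediate_value_Icc h.le (hcont.mono hsub)
        (show y ∈ Icc _ _ from ⟨by nlinarith, by rw [h00]; exact h.le⟩)
      have he' : (χ (f^[M] (κ ⟨0, y'⟩))).im = y := he
      refine ⟨y', ?_, hival y' (hsub hy') y he'⟩
      have hneg : y' < 0 := by
        refine lt_of_le_of_ne hy'.2 (fun e => ?_)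
        rw [e, h00] at he'
        linarith
      have h2 := (HL.imneg _ (hS y' (hsub hy')) hneg).1
      simp only at h2
      rw [he'] at h2
      rw [abs_of_neg hneg, abs_of_neg h, inv_mul_eq_div, le_div_iff₀ hkm0]
      linarith
    · subst h
      exact ⟨0, by simp, hival 0 hy 0 h00⟩
    · have h1 := (HL.impos _ (hS y hy) h).1
      simp only at h1
      have hsub : Icc 0 y ⊆ {y | |y| ≤ r} := by
        intro w hw
        have := abs_le.1 hy
        show |w| ≤ r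
        exact abs_le.2 ⟨by linarith [hw.1, this.1], by linarith [hw.2, this.2]⟩
      obtain ⟨y', hy', he⟩ := intermediate_value_Icc h.le (hcont.mono hsub)
        (show y ∈ Icc _ _ from ⟨by rw [h00]; exact h.le, by nlinarith⟩)
      have he' : (χ (f^[M] (κ ⟨0, y'⟩))).im = y := he
      refine ⟨y', ?_, hival y' (hsub hy') y he'⟩
      have hpos : 0 < y' := by
        refine lt_of_le_of_ne hy'.1 (fun e => ?_)
        rw [← e, h00] at he'
        linarith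
      have h2 := (HL.impos _ (hS y' (hsub hy')) hpos).1
      simp only at h2
      rw [he'] at h2
      rw [abs_of_pos hpos, abs_of_pos h, inv_mul_eq_div, le_div_iff₀ hkm0]
      linarith
  have hk0 : 0 ≤ km⁻¹ := (inv_pos.2 hkm0).le
  have hk1 : km⁻¹ < 1 := inv_lt_one_of_one_lt₀ hkm
  have hall : ∀ n : ℕ, ∃ y' : ℝ, |y'| ≤ km⁻¹ ^ n * |y| ∧
      (fi^[M])^[n] (κ ⟨0, y⟩) = κ ⟨0, y'⟩ := by
    intro n
    induction n with
    | zero => exact ⟨y, by simp, rfl⟩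
    | succ n ih =>
      obtain ⟨y₁, h1, h2⟩ := ih
      have h3 : km⁻¹ ^ n * |y| ≤ |y| := by
        have := pow_le_one₀ (n := n) hk0 hk1.le
        nlinarith [abs_nonneg y]
      obtain ⟨y₂, h4, h5⟩ := hstep y₁ (h1.trans (h3.trans hy))
      refine ⟨y₂, ?_, ?_⟩
      · rw [pow_succ]
        nlinarith [mul_le_mul_of_nonneg_left h1 hk0]
      · rw [Function.iterate_succ_apply', h2, h5]
  have hPi : fi^[M] P = P := by
    have := (Function.LeftInverse.iterate hfif M) P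
    rwa [hP] at this
  choose z hz1 hz2 using hall
  apply stable_iter hfi hM hPi
  have hlim := SW_squeeze (z := fun n => (⟨0, z n⟩ : ℂ)) hχ.κ_smooth.continuous hk0 hk1 h0
    (c := |y|) (fun n => by
      refine le_trans ?_ (hz1 n)
      have := Complex.norm_le_abs_re_add_abs_im (⟨0, z n⟩ : ℂ)
      simpa using this)
  refine hlim.congr fun n => ?_
  rw [hz2 n]

end DS

end S_H36_DS_SW
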