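import Pool.Agent.H12.KS.K20
import Pool.Agent.H12.KS.K24
import Pool.Agent.H12.KS.K25
import Pool.Agent.H12.KS.K34
import Pool.Agent.H12.KS.K36

/-! Joined modules of the proof of MP_8a27c0_an (one section per module). -/

section S_H36_DS_PJ

/-!
PJ (segments landing at boundary points).
`seg_limit`: let `c t = (1 - t) z₁ + t zs`.  By `L0` the diameters of `u '' (c '' Ico t 1)` tend to `0` for `t → 1`, so
`u (c t)` has a limit `e` (Cauchy) in the closed disc; if `‖e‖ < 1` then `c t = φ (u (c t)) → φ e ∈ W`, but `c t → zs ∉ W`.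
So `‖e‖ = 1`.  If `e = ζ`: for every `ε > 0` take `ρ < min ε (dist (u z₁) ζ)` from `L1`; the continuous function
`t ↦ dist (u (c t)) ζ` takes the value `ρ` at some `t`, and then `‖c t‖ = ‖φ (u (c t))‖ < ε`; for `ε → 0` also `ρ → 0`, so
`t → 1` (the function is bounded below on `[0, t']`), so `‖zs‖ = 0`, contradiction.
-/

namespace DS
open Metric Set Filter Topology MeasureTheory

theorem seg_limit {W : Set ℂ} {φ u G Gi : ℂ → ℂ} {μ : Measure ℂ} {ζ : ℂ} {r₀ : ℝ}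
    (H : FixPE W φ u G Gi μ ζ r₀) {z₁ zs : ℂ} (hzs : zs ∉ W) (hzs0 : zs ≠ 0)
    (hseg : ∀ t ∈ Ico (0:ℝ) 1, (1 - t) * z₁ + t * zs ∈ W ∩ closedBall 0 r₀) :
    ∃ e : ℂ, ‖e‖ = 1 ∧ e ≠ ζ ∧
      Tendsto (fun t : ℝ => u ((1 - t) * z₁ + t * zs)) (𝓝[<] 1) (𝓝 e) := by
  let c : ℝ → ℂ := fun t => (1 - t) * z₁ + t * zs
  have hcc : Continuous c := by
    show Continuous (fun t : ℝ => (1 - (t : ℂ)) * z₁ + t * zs)
    fun_prop
  have hc : ∀ t ∈ Ico (0:ℝ) 1, c t ∈ W ∩ closedBall 0 r₀ := hseg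
  have hc1 : c 1 = zs := by simp [c]
  have hdist : ∀ t s : ℝ, dist (c t) (c s) = |t - s| * ‖zs - z₁‖ := by
    intro t s
    have h1 : c t - c s = ((t - s : ℝ) : ℂ) * (zs - z₁) := by
      simp only [c]
      push_cast
      ring
    rw [dist_eq_norm, h1, norm_mul, Complex.norm_real, Real.norm_eq_abs]
  have hlt1 : Tendsto c (𝓝[<] 1) (𝓝 zs) := by
    have h1 : Tendsto c (𝓝 1) (𝓝 (c 1)) := hcc.tendsto 1
    rw [hc1] at h1
    exact h1.mono_left nhdsWithin_le_nhds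
  have hIco : ∀ a : ℝ, a < 1 → Ico a 1 ∈ 𝓝[<] (1:ℝ) := fun a ha => Ico_mem_nhdsLT ha
  -- the limit
  have hcau : Cauchy (Filter.map (fun t => u (c t)) (𝓝[<] (1:ℝ))) := by
    rw [Metric.cauchy_iff]
    refine ⟨inferInstance, fun ε hε => ?_⟩
    obtain ⟨δ, hδ, hL⟩ := H.L0 ε hε
    have hM : 0 < ‖zs - z₁‖ + 1 := by positivity
    obtain ⟨η, hη0, hη1, hη⟩ : ∃ η : ℝ, 0 < η ∧ η ≤ 1 ∧ η * (‖zs - z₁‖ + 1) ≤ δ := by
      refine ⟨min 1 (δ / (‖zs - z₁‖ + 1)), lt_min one_pos (div_pos hδ hM), min_le_left _ _, ?_⟩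
      calc min 1 (δ / (‖zs - z₁‖ + 1)) * (‖zs - z₁‖ + 1)
          ≤ δ / (‖zs - z₁‖ + 1) * (‖zs - z₁‖ + 1) :=
            mul_le_mul_of_nonneg_right (min_le_right _ _) hM.le
        _ = δ := div_mul_cancel₀ _ hM.ne'
    have hsubI : Ico (1 - η) 1 ⊆ Ico (0:ℝ) 1 := Ico_subset_Ico_left (by linarith)
    have h1 := hL (c '' Ico (1 - η) 1) (by
        rintro _ ⟨t, ht, rfl⟩
        exact hc t (hsubI ht))
      (isPreconnected_Ico.image _ hcc.continuousOn) (by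
        rintro _ ⟨t, ht, rfl⟩ _ ⟨s, hs, rfl⟩
        rw [hdist]
        have h2 : |t - s| ≤ η := by
          rw [abs_le]
          exact ⟨by linarith [ht.1, hs.2], by linarith [ht.2, hs.1]⟩
        have h3 : |t - s| * ‖zs - z₁‖ ≤ η * ‖zs - z₁‖ :=
          mul_le_mul_of_nonneg_right h2 (norm_nonneg _)
        have h4 : η * (‖zs - z₁‖ + 1) = η * ‖zs - z₁‖ + η := by ring
        linarith)
    refine ⟨(fun t => u (c t)) '' Ico (1 - η) 1, Filter.image_mem_map (hIco _ (by linarith)), ?_⟩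
    rintro _ ⟨t, ht, rfl⟩ _ ⟨s, hs, rfl⟩
    exact h1 _ ⟨t, ht, rfl⟩ _ ⟨s, hs, rfl⟩
  obtain ⟨e, he⟩ := cauchy_map_iff_exists_tendsto.1 hcau
  have hev : ∀ᶠ t in 𝓝[<] (1:ℝ), t ∈ Ico (0:ℝ) 1 := hIco 0 one_pos
  have hle : ‖e‖ ≤ 1 := by
    have h1 : Tendsto (fun t => ‖u (c t)‖) (𝓝[<] (1:ℝ)) (𝓝 ‖e‖) := he.norm
    refine le_of_tendsto h1 ?_
    filter_upwards [hev] with t ht
    have := H.u_maps (hc t ht).1
    rw [mem_ball_zero_iff] at this
    exact this.le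
  have hone : ‖e‖ = 1 := by
    refine le_antisymm hle ?_
    by_contra hlt
    push Not at hlt
    have heb : e ∈ ball (0:ℂ) 1 := by rwa [mem_ball_zero_iff]
    have h1 : ContinuousAt φ e := H.φ_cont.continuousAt (isOpen_ball.mem_nhds heb)
    have h2 : Tendsto (fun t => φ (u (c t))) (𝓝[<] (1:ℝ)) (𝓝 (φ e)) := h1.tendsto.comp he
    have h3 : Tendsto (fun t => φ (u (c t))) (𝓝[<] (1:ℝ)) (𝓝 zs) := by
      refine hlt1.congr' ?_
      filter_upwards [hev] with t ht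
      exact (H.φu _ (hc t ht).1).symm
    have h4 := tendsto_nhds_unique h2 h3
    exact hzs (h4 ▸ H.φ_maps heb)
  refine ⟨e, hone, ?_, he⟩
  rintro rfl
  apply hzs0
  rw [← norm_eq_zero]
  refine le_antisymm ?_ (norm_nonneg _)
  refine le_of_forall_pos_le_add fun ε' hε' => ?_
  rw [zero_add]
  have hM : 0 < ‖zs - z₁‖ + 1 := by positivity
  obtain ⟨η, hη0, hη1, hη⟩ : ∃ η : ℝ, 0 < η ∧ η ≤ 1 ∧ η * (‖zs - z₁‖ + 1) ≤ ε' / 2 := by
    refine ⟨min 1 (ε' / 2 / (‖zs - z₁‖ + 1)), lt_min one_pos (div_pos (half_pos hε') hM),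
      min_le_left _ _, ?_⟩
    calc min 1 (ε' / 2 / (‖zs - z₁‖ + 1)) * (‖zs - z₁‖ + 1)
        ≤ ε' / 2 / (‖zs - z₁‖ + 1) * (‖zs - z₁‖ + 1) :=
          mul_le_mul_of_nonneg_right (min_le_right _ _) hM.le
      _ = ε' / 2 := div_mul_cancel₀ _ hM.ne'
  set t₀ : ℝ := 1 - η with ht₀
  have ht₀m : t₀ ∈ Ico (0:ℝ) 1 := ⟨by linarith, by linarith⟩
  have hpos : ∀ t ∈ Ico (0:ℝ) 1, 0 < dist (u (c t)) e := by
    intro t ht
    rw [dist_pos]
    intro h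
    have h1 := H.u_maps (hc t ht).1
    rw [h, mem_ball_zero_iff] at h1
    linarith
  have hfc : ContinuousOn (fun t => dist (u (c t)) e) (Ico (0:ℝ) 1) := by
    have h1 : ContinuousOn (fun t => u (c t)) (Ico (0:ℝ) 1) :=
      H.u_cont.comp hcc.continuousOn fun t ht => (hc t ht).1
    exact continuous_dist.comp_continuousOn (h1.prodMk continuousOn_const)
  have hf0 : Tendsto (fun t => dist (u (c t)) e) (𝓝[<] (1:ℝ)) (𝓝 0) := by
    have := he.dist (tendsto_const_nhds (x := e))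
    rwa [dist_self] at this
  obtain ⟨ρ, hρ0, hρ, hρL⟩ := H.L1 (min (ε' / 2) (dist (u (c t₀)) e))
    (lt_min (half_pos hε') (hpos t₀ ht₀m))
  obtain ⟨t₁, ht₁, ht₁m⟩ : ∃ t₁, dist (u (c t₁)) e < ρ ∧ t₁ ∈ Ico t₀ 1 := by
    have h1 : ∀ᶠ t in 𝓝[<] (1:ℝ), dist (u (c t)) e < ρ := hf0.eventually (Iio_mem_nhds hρ0)
    exact (h1.and (hIco t₀ ht₀m.2)).exists
  have hsubI : Icc t₀ t₁ ⊆ Ico (0:ℝ) 1 := fun t ht =>
    ⟨ht₀m.1.trans ht.1, ht.2.trans_lt ht₁m.2⟩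
  obtain ⟨t, ht, htρ⟩ := intermediate_value_Icc' ht₁m.1 (hfc.mono hsubI)
    (show ρ ∈ Icc (dist (u (c t₁)) e) (dist (u (c t₀)) e) from
      ⟨ht₁.le, (hρ.trans_le (min_le_right _ _)).le⟩)
  have htm := hsubI ht
  have h1 : ‖φ (u (c t))‖ < min (ε' / 2) (dist (u (c t₀)) e) :=
    hρL _ (H.u_maps (hc t htm).1) htρ
  rw [H.φu _ (hc t htm).1] at h1
  have h2 : ‖c t‖ < ε' / 2 := h1.trans_le (min_le_left _ _)
  have h3 : ‖zs - c t‖ ≤ ε' / 2 := by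
    rw [← hc1, ← dist_eq_norm, hdist]
    have h4 : |1 - t| ≤ η := by
      rw [abs_of_nonneg (by linarith [htm.2])]
      linarith [ht.1]
    have h5 : |1 - t| * ‖zs - z₁‖ ≤ η * ‖zs - z₁‖ :=
      mul_le_mul_of_nonneg_right h4 (norm_nonneg _)
    have h6 : η * (‖zs - z₁‖ + 1) = η * ‖zs - z₁‖ + η := by ring
    linarith
  calc ‖zs‖ = ‖(zs - c t) + c t‖ := by rw [sub_add_cancel]
    _ ≤ ‖zs - c t‖ + ‖c t‖ := norm_add_le _ _
    _ ≤ ε' := by linarith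

end DS

end S_H36_DS_PJ

section S_H36_DS_JB

/-!
JB (boundary values along the stable axis).  Setting: `FixPE`, the horizontal axis near `0` is not in `W`, the box
`(0,δ] × (0,δ]` is in `W` and `u → ζ` at `0` in it.
`axis_values`: for `0 < x ≤ δ` `seg_limit` (`z₁ = ⟨x, δ⟩`, `zs = ⟨x, 0⟩ ≠ 0`; the segment is in `W ∩ closedBall 0 r₀`,
because `2 δ < r₀`) gives the limit `a x` of `u ⟨x, y⟩` for `y → 0+` (reparametrize), `‖a x‖ = 1`, `a x ≠ ζ`.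
`lim2` (the limit inside the box): for `0 < x < δ` and `ε > 0` take `δ₁` from `L0`; the box
`B = {z | |z.re - x| < η, 0 < z.im < η}` is connected, contained in `W`, of diameter `< δ₁` for `η` small; so `u '' B` has diameter
`≤ ε`, and `dist (u z) (a x) ≤ ε` for `z ∈ B` (for every point of `B` on the vertical line through `x` and then all).
Continuity of `a` on `(0, δ)`: `a x'` is a limit of points of `u '' B` for `x'` near `x`.  For the right end point shrink: take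
`δ' = δ / 2`.  `a x → ζ` for `x → 0`: `hlim`.
`equi`: let `w = ⟨x, y⟩`, `y → 0+`: `hb (u w) = u (G (φ (u w))) = u (G w)` (`u w` in the disc).  The left side tends to `hb (a x)`
(continuity on the closed disc).  `G w → G ⟨x, 0⟩ = ⟨x', 0⟩` with `0 < x' ≤ lp x < δ` (`im0`, `repos`) and `G w` has positive real and imaginary
parts (`repos`, `impos`), so by `lim2` `u (G w) → a x'`.
-/

namespace DS
open Metric Set Filter Topology MeasureTheory

private theorem JB_norm_le (x y : ℝ) : ‖(⟨x, y⟩ : ℂ)‖ ≤ |x| + |y| := by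
  have := Complex.norm_le_abs_re_add_abs_im (⟨x, y⟩ : ℂ)
  exact this

private theorem JB_dist_le (z w : ℂ) : dist z w ≤ |z.re - w.re| + |z.im - w.im| := by
  rw [Complex.dist_eq]
  have := Complex.norm_le_abs_re_add_abs_im (z - w)
  rwa [Complex.sub_re, Complex.sub_im] at this

private theorem JB_convex_box (x η : ℝ) :
    Convex ℝ {z : ℂ | |z.re - x| < η ∧ 0 < z.im ∧ z.im < η} := by
  intro z hz w hw p q hp hq hpq
  obtain ⟨h1, h2, h3⟩ := hz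
  obtain ⟨h4, h5, h6⟩ := hw
  rw [abs_lt] at h1 h4
  have hre : (p • z + q • w).re = p * z.re + q * w.re := by simp
  have him : (p • z + q • w).im = p * z.im + q * w.im := by simp
  refine ⟨?_, ?_, ?_⟩
  · rw [hre, abs_lt]
    have hx : p * z.re + q * w.re - x = p * (z.re - x) + q * (w.re - x) := by
      have : x = (p + q) * x := by rw [hpq, one_mul]
      linear_combination (-1) * this
    rw [hx]
    rcases hp.eq_or_lt with rfl | hp'
    · have : q = 1 := by linarith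
      subst this
      constructor <;> linarith [h4.1, h4.2]
    · constructor
      · nlinarith [mul_lt_mul_of_pos_left h1.1 hp', mul_le_mul_of_nonneg_left h4.1.le hq]
      · nlinarith [mul_lt_mul_of_pos_left h1.2 hp', mul_le_mul_of_nonneg_left h4.2.le hq]
  · rw [him]
    rcases hp.eq_or_lt with rfl | hp'
    · have : q = 1 := by linarith
      subst this
      linarith
    · have := mul_pos hp' h2
      have := mul_nonneg hq h5.le
      linarith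
  · rw [him]
    rcases hp.eq_or_lt with rfl | hp'
    · have : q = 1 := by linarith
      subst this
      linarith
    · nlinarith [mul_lt_mul_of_pos_left h3 hp', mul_le_mul_of_nonneg_left h6.le hq]

theorem axis_values {W : Set ℂ} {φ u G Gi : ℂ → ℂ} {μ : Measure ℂ} {ζ : ℂ} {r₀ : ℝ}
    (H : FixPE W φ u G Gi μ ζ r₀) {r lp km kp : ℝ} (HL : HypLoc G r lp km kp)
    (hax : ∀ x : ℝ, |x| ≤ r → (⟨x, 0⟩ : ℂ) ∉ W) {δ : ℝ} (hδ : 0 < δ) (hδr : δ < r)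
    (hδr₀ : 4 * δ < r₀)
    (hsub : ∀ x y : ℝ, 0 < x → x ≤ δ → 0 < y → y ≤ δ → (⟨x, y⟩ : ℂ) ∈ W)
    (hlim : ∀ ε > 0, ∃ η > 0, ∀ x y : ℝ, 0 < x → x < η → 0 < y → y < η → dist (u ⟨x, y⟩) ζ < ε)
    {hb : ℂ → ℂ} (hbc : ContinuousOn hb (closedBall 0 1))
    (hbe : ∀ z ∈ ball (0:ℂ) 1, hb z = u (G (φ z))) :
    ∃ δ' > 0, δ' ≤ δ ∧ ∃ a : ℝ → ℂ, ContinuousOn a (Ioc 0 δ') ∧
      (∀ x ∈ Ioc (0:ℝ) δ', ‖a x‖ = 1 ∧ a x ≠ ζ) ∧ Tendsto a (𝓝[>] 0) (𝓝 ζ) ∧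
      (∀ x ∈ Ioc (0:ℝ) δ', Tendsto (fun y : ℝ => u ⟨x, y⟩) (𝓝[>] 0) (𝓝 (a x))) ∧
      (∀ x ∈ Ioc (0:ℝ) δ', hb (a x) = a (G ⟨x, 0⟩).re) ∧
      ∀ x ∈ Ioc (0:ℝ) δ', 0 < (G ⟨x, 0⟩).re ∧ (G ⟨x, 0⟩).re ≤ lp * x := by
  have hlp := HL.hlp
  have hlp1 := HL.hlp1
  -- the values
  have hval : ∀ x : ℝ, 0 < x → x ≤ δ → ∃ e : ℂ, ‖e‖ = 1 ∧ e ≠ ζ ∧
      Tendsto (fun y : ℝ => u ⟨x, y⟩) (𝓝[>] 0) (𝓝 e) := by
    intro x hx hxδ
    have hzs : (⟨x, 0⟩ : ℂ) ∉ W := hax x (by rw [abs_of_pos hx]; linarith)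
    have hzs0 : (⟨x, 0⟩ : ℂ) ≠ 0 := fun h => hx.ne' (by simpa using congrArg Complex.re h)
    have hpt : ∀ t : ℝ, (1 - (t : ℂ)) * (⟨x, δ⟩ : ℂ) + (t : ℂ) * (⟨x, 0⟩ : ℂ) =
        ⟨x, (1 - t) * δ⟩ := by
      intro t
      apply Complex.ext
      · simp
        ring
      · simp
    have hseg : ∀ t ∈ Ico (0:ℝ) 1, (1 - (t : ℂ)) * (⟨x, δ⟩ : ℂ) + (t : ℂ) * (⟨x, 0⟩ : ℂ) ∈
        W ∩ closedBall 0 r₀ := by
      intro t ht
      rw [hpt]
      have h1 : 0 < (1 - t) * δ := mul_pos (by linarith [ht.2]) hδ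
      have h2 : (1 - t) * δ ≤ δ := by nlinarith [ht.1]
      refine ⟨hsub x _ hx hxδ h1 h2, ?_⟩
      rw [mem_closedBall_zero_iff]
      refine (JB_norm_le _ _).trans ?_
      rw [abs_of_pos hx, abs_of_pos h1]
      linarith
    obtain ⟨e, he1, he2, he3⟩ := seg_limit H hzs hzs0 hseg
    refine ⟨e, he1, he2, ?_⟩
    have hrep : Tendsto (fun y : ℝ => 1 - y / δ) (𝓝[>] 0) (𝓝[<] 1) := by
      apply tendsto_nhdsWithin_of_tendsto_nhds_of_eventually_within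
      · have : Tendsto (fun y : ℝ => 1 - y / δ) (𝓝 0) (𝓝 (1 - 0 / δ)) :=
          (continuous_const.sub (continuous_id.div_const δ)).tendsto 0
        rw [zero_div, sub_zero] at this
        exact this.mono_left nhdsWithin_le_nhds
      · filter_upwards [self_mem_nhdsWithin] with y hy
        have : 0 < y / δ := div_pos hy hδ
        simp only [mem_Iio]
        linarith
    have := he3.comp hrep
    refine this.congr ?_
    intro y
    simp only [Function.comp_apply]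
    rw [hpt]
    congr 2
    field_simp
    ring
  choose! a ha1 ha2 ha3 using hval
  -- the limit inside the box
  have lim2 : ∀ x : ℝ, 0 < x → x < δ → ∀ ε > 0, ∃ η > 0, η ≤ x ∧ η ≤ δ - x ∧
      ∀ x' y' : ℝ, |x' - x| < η → 0 < y' → y' < η → dist (u ⟨x', y'⟩) (a x) ≤ ε := by
    intro x hx hxδ ε hε
    obtain ⟨δ₁, hδ₁, hL⟩ := H.L0 ε hε
    have hη : 0 < min (min x (δ - x)) (δ₁ / 4) :=
      lt_min (lt_min hx (by linarith)) (by linarith)
    have hη1 : min (min x (δ - x)) (δ₁ / 4) ≤ x := (min_le_left _ _).trans (min_le_left _ _)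
    have hη2 : min (min x (δ - x)) (δ₁ / 4) ≤ δ - x := (min_le_left _ _).trans (min_le_right _ _)
    have hη3 : min (min x (δ - x)) (δ₁ / 4) ≤ δ₁ / 4 := min_le_right _ _
    generalize min (min x (δ - x)) (δ₁ / 4) = η at hη hη1 hη2 hη3
    refine ⟨η, hη, hη1, hη2, ?_⟩
    have hB : {z : ℂ | |z.re - x| < η ∧ 0 < z.im ∧ z.im < η} ⊆ W ∩ closedBall 0 r₀ := by
      rintro z ⟨h1, h2, h3⟩
      rw [abs_lt] at h1
      have h4 : 0 < z.re := by linarith [h1.1]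
      have h5 : z.re ≤ δ := by linarith [h1.2]
      have h6 : z.im ≤ δ := by linarith
      refine ⟨hsub z.re z.im h4 h5 h2 h6, ?_⟩
      rw [mem_closedBall_zero_iff]
      refine (JB_norm_le z.re z.im).trans ?_
      rw [abs_of_pos h4, abs_of_pos h2]
      linarith
    have hd := hL _ hB (JB_convex_box x η).isPreconnected (by
      rintro z ⟨h1, h2, h3⟩ w ⟨h4, h5, h6⟩
      refine lt_of_le_of_lt (JB_dist_le z w) ?_
      have e1 : |z.re - w.re| < 2 * η := by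
        rw [abs_lt] at h1 h4 ⊢
        constructor <;> linarith [h1.1, h1.2, h4.1, h4.2]
      have e2 : |z.im - w.im| < η := by
        rw [abs_lt]
        constructor <;> linarith
      linarith)
    intro x' y' h1 h2 h3
    have hin : (⟨x', y'⟩ : ℂ) ∈ {z : ℂ | |z.re - x| < η ∧ 0 < z.im ∧ z.im < η} := ⟨h1, h2, h3⟩
    have ht : Tendsto (fun y : ℝ => dist (u ⟨x', y'⟩) (u ⟨x, y⟩)) (𝓝[>] 0)
        (𝓝 (dist (u ⟨x', y'⟩) (a x))) := tendsto_const_nhds.dist (ha3 x hx hxδ.le)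
    refine le_of_tendsto ht ?_
    filter_upwards [Ioo_mem_nhdsGT hη] with y hy
    exact (hd _ hin ⟨x, y⟩ ⟨by simpa using hη, hy.1, hy.2⟩).le
  have lim3 : ∀ x : ℝ, 0 < x → x < δ → ∀ ε > 0, ∃ η > 0,
      ∀ x' : ℝ, |x' - x| < η → dist (a x') (a x) ≤ ε := by
    intro x hx hxδ ε hε
    obtain ⟨η, hη, hη1, hη2, h⟩ := lim2 x hx hxδ ε hε
    refine ⟨η, hη, fun x' hx' => ?_⟩
    have hx'' := abs_lt.1 hx'
    have ht : Tendsto (fun y : ℝ => dist (u ⟨x', y⟩) (a x)) (𝓝[>] 0)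
        (𝓝 (dist (a x') (a x))) :=
      (ha3 x' (by linarith [hx''.1]) (by linarith [hx''.2])).dist tendsto_const_nhds
    refine le_of_tendsto ht ?_
    filter_upwards [Ioo_mem_nhdsGT hη] with y hy
    exact h x' y hx' hy.1 hy.2
  have hG0 : ∀ x : ℝ, 0 < x → x ≤ δ → 0 < (G ⟨x, 0⟩).re ∧ (G ⟨x, 0⟩).re ≤ lp * x ∧
      (G ⟨x, 0⟩).im = 0 := by
    intro x hx hxδ
    have hS : (⟨x, 0⟩ : ℂ) ∈ Sq r := by
      refine ⟨?_, ?_, ?_, ?_⟩ <;> simp only <;> linarith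
    have h1 := HL.repos _ hS hx
    exact ⟨h1.1, h1.2, HL.im0 _ hS rfl⟩
  refine ⟨δ / 2, by linarith, by linarith, a, ?_, ?_, ?_, ?_, ?_, ?_⟩
  · rw [Metric.continuousOn_iff]
    intro x hx ε hε
    obtain ⟨η, hη, h⟩ := lim3 x hx.1 (by linarith [hx.2]) (ε / 2) (by linarith)
    refine ⟨η, hη, fun x' _ hx'' => ?_⟩
    rw [Real.dist_eq] at hx''
    have := h x' hx''
    linarith
  · intro x hx
    exact ⟨ha1 x hx.1 (by linarith [hx.2]), ha2 x hx.1 (by linarith [hx.2])⟩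
  · rw [Metric.tendsto_nhds]
    intro ε hε
    obtain ⟨η, hη, h⟩ := hlim (ε / 2) (by linarith)
    filter_upwards [Ioo_mem_nhdsGT (lt_min hη hδ)] with x hx
    have hxη : x < η := lt_of_lt_of_le hx.2 (min_le_left _ _)
    have hxδ : x < δ := lt_of_lt_of_le hx.2 (min_le_right _ _)
    have ht : Tendsto (fun y : ℝ => dist (u ⟨x, y⟩) ζ) (𝓝[>] 0) (𝓝 (dist (a x) ζ)) :=
      (ha3 x hx.1 hxδ.le).dist tendsto_const_nhds
    have : dist (a x) ζ ≤ ε / 2 := by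
      refine le_of_tendsto ht ?_
      filter_upwards [Ioo_mem_nhdsGT hη] with y hy
      exact (h x y hx.1 hxη hy.1 hy.2).le
    linarith
  · intro x hx
    exact ha3 x hx.1 (by linarith [hx.2])
  · intro x hx
    have hxδ : x ≤ δ := by linarith [hx.2]
    obtain ⟨h1, h2, h3⟩ := hG0 x hx.1 hxδ
    have hx'δ : (G ⟨x, 0⟩).re < δ := by nlinarith [hx.1]
    have hinS : ∀ y : ℝ, 0 ≤ y → y ≤ δ → (⟨x, y⟩ : ℂ) ∈ Sq r := by
      intro y hy hyδ
      have := hx.1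
      refine ⟨?_, ?_, ?_, ?_⟩ <;> simp only <;> linarith
    -- left side
    have hu : Tendsto (fun y : ℝ => u ⟨x, y⟩) (𝓝[>] 0) (𝓝[closedBall 0 1] (a x)) := by
      apply tendsto_nhdsWithin_of_tendsto_nhds_of_eventually_within _ (ha3 x hx.1 hxδ)
      filter_upwards [Ioo_mem_nhdsGT hδ] with y hy
      exact ball_subset_closedBall (H.u_maps (hsub x y hx.1 hxδ hy.1 hy.2.le))
    have hl : Tendsto (fun y : ℝ => hb (u ⟨x, y⟩)) (𝓝[>] 0) (𝓝 (hb (a x))) :=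
      (hbc (a x) (by rw [mem_closedBall_zero_iff, ha1 x hx.1 hxδ])).tendsto.comp hu
    -- right side
    have hpt : Tendsto (fun y : ℝ => (⟨x, y⟩ : ℂ)) (𝓝[>] 0) (𝓝[Sq r] ⟨x, 0⟩) := by
      apply tendsto_nhdsWithin_of_tendsto_nhds_of_eventually_within
      · have hc : Continuous (fun y : ℝ => (⟨x, y⟩ : ℂ)) := by
          have : (fun y : ℝ => (⟨x, y⟩ : ℂ)) = fun y : ℝ => (x : ℂ) + y * Complex.I := by
            funext y
            apply Complex.ext <;> simp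
          rw [this]
          fun_prop
        exact (hc.tendsto 0).mono_left nhdsWithin_le_nhds
      · filter_upwards [Ioo_mem_nhdsGT hδ] with y hy
        exact hinS y hy.1.le hy.2.le
    have hGt : Tendsto (fun y : ℝ => G ⟨x, y⟩) (𝓝[>] 0) (𝓝 (G ⟨x, 0⟩)) :=
      (HL.cont _ (hinS 0 le_rfl hδ.le)).tendsto.comp hpt
    have hr : Tendsto (fun y : ℝ => u (G ⟨x, y⟩)) (𝓝[>] 0) (𝓝 (a (G ⟨x, 0⟩).re)) := by
      rw [Metric.tendsto_nhds]
      intro ε hε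
      obtain ⟨η, hη, -, -, h⟩ := lim2 _ h1 hx'δ (ε / 2) (by linarith)
      have hclose := Metric.tendsto_nhds.1 hGt η hη
      filter_upwards [hclose, Ioo_mem_nhdsGT hδ] with y hy hyδ
      have e1 : |(G ⟨x, y⟩).re - (G ⟨x, 0⟩).re| < η := by
        refine lt_of_le_of_lt ?_ hy
        rw [Complex.dist_eq, ← Complex.sub_re]
        exact Complex.abs_re_le_norm _
      have e2 : (G ⟨x, y⟩).im < η := by
        refine lt_of_le_of_lt ?_ hy
        rw [Complex.dist_eq]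
        have := Complex.abs_im_le_norm (G ⟨x, y⟩ - G ⟨x, 0⟩)
        rw [Complex.sub_im, h3, sub_zero] at this
        exact (le_abs_self _).trans this
      have e3 : 0 < (G ⟨x, y⟩).im := by
        have := (HL.impos ⟨x, y⟩ (hinS y hyδ.1.le hyδ.2.le) hyδ.1).1
        have h5 : 0 < km * y := mul_pos (by linarith [HL.hkm]) hyδ.1
        exact lt_of_lt_of_le h5 this
      have := h (G ⟨x, y⟩).re (G ⟨x, y⟩).im e1 e3 e2
      have h6 : dist (u (G ⟨x, y⟩)) (a (G ⟨x, 0⟩).re) ≤ ε / 2 := this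
      linarith
    refine tendsto_nhds_unique hl (hr.congr' ?_)
    filter_upwards [Ioo_mem_nhdsGT hδ] with y hy
    have hW := hsub x y hx.1 hxδ hy.1 hy.2.le
    rw [hbe _ (H.u_maps hW), H.φu _ hW]
  · intro x hx
    obtain ⟨h1, h2, -⟩ := hG0 x hx.1 (by linarith [hx.2])
    exact ⟨h1, h2⟩

end DS

end S_H36_DS_JB

section S_H36_DS_JV

/-!
JV (boundary values along the unstable axis).  Setting as in JB.  Let `0 < y₀ < δ`, `⟨0, y₀⟩ ∉ W`.
For `0 < y < δ` with `⟨0, y⟩ ∉ W`: `seg_limit` (`z₁ = ⟨δ, y⟩`, `zs = ⟨0, y⟩`) gives the limit `b y` of `u ⟨x, y⟩` for `x → 0+`,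
`‖b y‖ = 1`, `b y ≠ ζ`; and as in JB: `u z → b y` for `z → ⟨0, y⟩` inside the box (small boxes
`{z | 0 < z.re < η, |z.im - y| < η}` are connected with small image).
`G` maps the vertical axis to itself with `(G ⟨0, y⟩).im` continuous and increasing in `y`, `≥ km y` (`re0`, `im0`, `impos`, `mono`), so there is
`y₁ ∈ (0, y₀ / km]` with `G ⟨0, y₁⟩ = ⟨0, y₀⟩`; `⟨0, y₁⟩ ∉ W` because `G` maps `W` to `W`.  For `w = ⟨x, y₁⟩`, `x → 0+`:
`hb (u w) = u (G w)`, and `G w → ⟨0, y₀⟩` inside the box (`repos`, `impos`), so `hb (b y₁) = b y₀`, i.e. `b y₁ = hbi (b y₀)`.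
By induction there are `y_n → 0` with `hbi^[n] (b y₀) = b y_n`, and `b y_n → ζ` by `hlim`.
-/

namespace DS
open Metric Set Filter Topology MeasureTheory

/-- `e` is the limit of `u` at `⟨0, y⟩` from the right -/
private def JV_Lim (u : ℂ → ℂ) (ζ : ℂ) (y : ℝ) (e : ℂ) : Prop :=
  ‖e‖ = 1 ∧ e ≠ ζ ∧ ∀ ε > 0, ∃ η > 0, ∀ z : ℂ, 0 < z.re → z.re < η → |z.im - y| < η →
    dist (u z) e ≤ ε

private theorem JV_lim {W : Set ℂ} {φ u G Gi : ℂ → ℂ} {μ : Measure ℂ} {ζ : ℂ} {r₀ : ℝ}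
    (H : FixPE W φ u G Gi μ ζ r₀) {δ : ℝ} (hδ : 0 < δ) (hδr₀ : 4 * δ < r₀)
    (hsub : ∀ x y : ℝ, 0 < x → x ≤ δ → 0 < y → y ≤ δ → (⟨x, y⟩ : ℂ) ∈ W) {y : ℝ} (hy : 0 < y)
    (hyδ : y < δ) (hyW : (⟨0, y⟩ : ℂ) ∉ W) : ∃ e, JV_Lim u ζ y e := by
  have hc : ∀ t : ℝ, (1 - (t:ℂ)) * (⟨δ, y⟩ : ℂ) + t * (⟨0, y⟩ : ℂ) = ⟨(1 - t) * δ, y⟩ := by
    intro t
    apply Complex.ext
    · simp
    · simp
      ring
  have hbox : ∀ z : ℂ, 0 < z.re → z.re ≤ δ → 0 < z.im → z.im ≤ δ → z ∈ W ∩ closedBall 0 r₀ := by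
    intro z h1 h2 h3 h4
    refine ⟨hsub z.re z.im h1 h2 h3 h4, ?_⟩
    rw [mem_closedBall_zero_iff]
    have h5 := Complex.norm_le_abs_re_add_abs_im z
    rw [abs_of_pos h1, abs_of_pos h3] at h5
    linarith
  obtain ⟨e, he1, he2, he3⟩ := seg_limit H (z₁ := ⟨δ, y⟩) (zs := ⟨0, y⟩) hyW
    (by
      intro h
      have := congrArg Complex.im h
      simp at this
      linarith)
    (by
      intro t ht
      rw [hc]
      refine hbox _ ?_ ?_ hy hyδ.le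
      · exact mul_pos (by linarith [ht.2]) hδ
      · change (1 - t) * δ ≤ δ
        nlinarith [ht.1])
  refine ⟨e, he1, he2, fun ε hε => ?_⟩
  obtain ⟨δ₁, hδ₁, hL⟩ := H.L0 ε hε
  obtain ⟨η, hη, h1, h2, h3, h4⟩ : ∃ η, 0 < η ∧ η ≤ δ ∧ η ≤ y ∧ η ≤ δ - y ∧ 3 * η ≤ δ₁ := by
    refine ⟨min δ (min y (min (δ - y) (δ₁ / 3))), ?_, min_le_left _ _, ?_, ?_, ?_⟩
    · exact lt_min hδ (lt_min hy (lt_min (by linarith) (by linarith)))
    · exact (min_le_right _ _).trans (min_le_left _ _)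
    · exact (min_le_right _ _).trans ((min_le_right _ _).trans (min_le_left _ _))
    · have := ((min_le_right δ (min y (min (δ - y) (δ₁ / 3)))).trans
        ((min_le_right _ _).trans (min_le_right _ _)))
      linarith
  refine ⟨η, hη, fun z hz1 hz2 hz3 => ?_⟩
  set B : Set ℂ := {w | 0 < w.re ∧ w.re < η ∧ |w.im - y| < η} with hB
  have hBc : IsPreconnected B := by
    have : B = Ioo 0 η ×ℂ Ioo (y - η) (y + η) := by
      ext w
      simp only [hB, mem_ofPred_eq, Complex.mem_reProdIm, mem_Ioo, abs_lt]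
      constructor
      · rintro ⟨g1, g2, g3, g4⟩
        exact ⟨⟨g1, g2⟩, by linarith, by linarith⟩
      · rintro ⟨⟨g1, g2⟩, g3, g4⟩
        exact ⟨g1, g2, by linarith, by linarith⟩
    rw [this]
    have hcv : Convex ℝ (Ioo 0 η ×ℂ Ioo (y - η) (y + η)) := by
      intro z hz w hw p q hp hq hpq
      refine ⟨?_, ?_⟩
      · have := convex_Ioo 0 η hz.1 hw.1 hp hq hpq
        simpa using this
      · have := convex_Ioo (y - η) (y + η) hz.2 hw.2 hp hq hpq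
        simpa using this
    exact hcv.isPreconnected
  have hBW : B ⊆ W ∩ closedBall 0 r₀ := by
    rintro w ⟨g1, g2, g3⟩
    rw [abs_lt] at g3
    exact hbox w g1 (by linarith) (by linarith [g3.1]) (by linarith [g3.2])
  have hBd : ∀ z ∈ B, ∀ w ∈ B, dist z w < δ₁ := by
    rintro z ⟨g1, g2, g3⟩ w ⟨g1', g2', g3'⟩
    rw [abs_lt] at g3 g3'
    rw [Complex.dist_eq]
    have h5 := Complex.norm_le_abs_re_add_abs_im (z - w)
    have h6 : |(z - w).re| < η := by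
      rw [Complex.sub_re, abs_lt]
      constructor <;> linarith
    have h7 : |(z - w).im| < 2 * η := by
      rw [Complex.sub_im, abs_lt]
      constructor <;> linarith [g3.1, g3.2, g3'.1, g3'.2]
    linarith
  have hu := hL B hBW hBc hBd
  have hev : ∀ᶠ t : ℝ in 𝓝[<] 1, (1 - (t:ℂ)) * (⟨δ, y⟩ : ℂ) + t * (⟨0, y⟩ : ℂ) ∈ B := by
    have h5 : ∀ᶠ t : ℝ in 𝓝[<] 1, 1 - η / δ < t :=
      nhdsWithin_le_nhds (Ioi_mem_nhds (by have := div_pos hη hδ; linarith))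
    filter_upwards [h5, self_mem_nhdsWithin] with t h6 h7
    rw [hc]
    have h7' : t < 1 := h7
    refine ⟨mul_pos (by linarith) hδ, ?_, ?_⟩
    · change (1 - t) * δ < η
      have h8 : 1 - t < η / δ := by linarith
      rwa [lt_div_iff₀ hδ] at h8
    · change |y - y| < η
      rw [sub_self, abs_zero]
      exact hη
  have ht : Tendsto (fun t : ℝ => dist (u z) (u ((1 - (t:ℂ)) * (⟨δ, y⟩ : ℂ) + t * (⟨0, y⟩ : ℂ))))
      (𝓝[<] 1) (𝓝 (dist (u z) e)) := tendsto_const_nhds.dist he3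
  exact le_of_tendsto ht (hev.mono fun t ht' => (hu z ⟨hz1, hz2, hz3⟩ _ ht').le)

private theorem JV_tendsto {u : ℂ → ℂ} {ζ : ℂ} {y : ℝ} {e : ℂ} (h : JV_Lim u ζ y e) :
    Tendsto (fun x : ℝ => u ⟨x, y⟩) (𝓝[>] 0) (𝓝 e) := by
  rw [Metric.tendsto_nhds]
  intro ε hε
  obtain ⟨η, hη, h1⟩ := h.2.2 (ε / 2) (by linarith)
  have h5 : ∀ᶠ x : ℝ in 𝓝[>] 0, x < η := nhdsWithin_le_nhds (Iio_mem_nhds hη)
  filter_upwards [h5, self_mem_nhdsWithin] with x h6 h7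
  have h7' : 0 < x := h7
  have := h1 ⟨x, y⟩ h7' h6 (by change |y - y| < η; rw [sub_self, abs_zero]; exact hη)
  linarith

private theorem JV_pre {G : ℂ → ℂ} {r lp km kp : ℝ} (HL : HypLoc G r lp km kp) {y : ℝ}
    (hy : 0 < y) (hyr : y < r) : ∃ y₁, 0 < y₁ ∧ y₁ ≤ y / km ∧ G ⟨0, y₁⟩ = ⟨0, y⟩ := by
  have hkm := HL.hkm
  have hSq : ∀ t ∈ Icc (0:ℝ) y, (⟨0, t⟩ : ℂ) ∈ Sq r := by
    intro t ht
    have := HL.hr
    refine ⟨?_, ?_, ?_, ?_⟩
    · change -r ≤ 0; linarith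
    · change 0 ≤ r; linarith
    · change -r ≤ t; linarith [ht.1]
    · change t ≤ r; linarith [ht.2]
  have hcont : ContinuousOn (fun t : ℝ => (G ⟨0, t⟩).im) (Icc 0 y) := by
    refine Complex.continuous_im.comp_continuousOn ?_
    refine HL.cont.comp ?_ hSq
    have : Continuous (fun t : ℝ => (⟨0, t⟩ : ℂ)) := by
      have h2 : (fun t : ℝ => (⟨0, t⟩ : ℂ)) = fun t : ℝ => (t : ℂ) * Complex.I := by
        funext t
        apply Complex.ext <;> simp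
      rw [h2]
      exact Complex.continuous_ofReal.mul continuous_const
    exact this.continuousOn
  have h0 : (G ⟨0, 0⟩).im = 0 := HL.im0 _ (hSq 0 ⟨le_rfl, hy.le⟩) rfl
  have h1 : y ≤ (G ⟨0, y⟩).im := by
    have h2 := (HL.impos ⟨0, y⟩ (hSq y ⟨hy.le, le_rfl⟩) hy).1
    have h3 : km * y ≤ (G ⟨0, y⟩).im := h2
    nlinarith
  obtain ⟨y₁, hy₁, hy₁'⟩ := intermediate_value_Icc hy.le hcont
    (show y ∈ Icc ((G ⟨0, 0⟩).im) ((G ⟨0, y⟩).im) from ⟨by rw [h0]; exact hy.le, h1⟩)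
  have hy₁'' : (G ⟨0, y₁⟩).im = y := hy₁'
  have hpos : 0 < y₁ := by
    rcases hy₁.1.lt_or_eq with h2 | h2
    · exact h2
    · rw [← h2, h0] at hy₁''
      linarith
  refine ⟨y₁, hpos, ?_, ?_⟩
  · rw [le_div_iff₀ (by linarith)]
    have h2 := (HL.impos ⟨0, y₁⟩ (hSq y₁ hy₁) hpos).1
    have h3 : km * y₁ ≤ (G ⟨0, y₁⟩).im := h2
    linarith
  · apply Complex.ext
    · exact HL.re0 _ (hSq y₁ hy₁) rfl
    · exact hy₁''

private theorem JV_equi {W : Set ℂ} {φ u G Gi : ℂ → ℂ} {μ : Measure ℂ} {ζ : ℂ} {r₀ : ℝ}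
    (H : FixPE W φ u G Gi μ ζ r₀) {r lp km kp : ℝ} (HL : HypLoc G r lp km kp) {δ : ℝ}
    (hδ : 0 < δ) (hδr : δ < r)
    (hsub : ∀ x y : ℝ, 0 < x → x ≤ δ → 0 < y → y ≤ δ → (⟨x, y⟩ : ℂ) ∈ W)
    {hb : ℂ → ℂ} (hbc : ContinuousOn hb (closedBall 0 1))
    (hbe : ∀ z ∈ ball (0:ℂ) 1, hb z = u (G (φ z))) {y y₁ : ℝ} (hy₁ : 0 < y₁) (hy₁δ : y₁ < δ)
    (hG : G ⟨0, y₁⟩ = ⟨0, y⟩) {e e₁ : ℂ} (he : JV_Lim u ζ y e) (he₁ : JV_Lim u ζ y₁ e₁) :
    hb e₁ = e := by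
  have hline : Tendsto (fun x : ℝ => (⟨x, y₁⟩ : ℂ)) (𝓝[>] 0) (𝓝 ⟨0, y₁⟩) := by
    have h2 : Continuous (fun x : ℝ => (⟨x, y₁⟩ : ℂ)) := by
      have h3 : (fun x : ℝ => (⟨x, y₁⟩ : ℂ)) = fun x : ℝ => (x : ℂ) + (y₁ : ℂ) * Complex.I := by
        funext t
        apply Complex.ext <;> simp
      rw [h3]
      exact Complex.continuous_ofReal.add continuous_const
    exact (h2.tendsto 0).mono_left nhdsWithin_le_nhds
  have hsmall : ∀ᶠ x : ℝ in 𝓝[>] 0, 0 < x ∧ x < δ := by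
    have h5 : ∀ᶠ x : ℝ in 𝓝[>] 0, x < δ := nhdsWithin_le_nhds (Iio_mem_nhds hδ)
    filter_upwards [h5, self_mem_nhdsWithin] with x h6 h7
    exact ⟨h7, h6⟩
  have hSq : ∀ x : ℝ, 0 ≤ x → x < δ → (⟨x, y₁⟩ : ℂ) ∈ Sq r := by
    intro x h1 h2
    refine ⟨?_, ?_, ?_, ?_⟩
    · change -r ≤ x; linarith
    · change x ≤ r; linarith
    · change -r ≤ y₁; linarith
    · change y₁ ≤ r; linarith
  -- left side
  have hT1 : Tendsto (fun x : ℝ => hb (u ⟨x, y₁⟩)) (𝓝[>] 0) (𝓝 (hb e₁)) := by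
    have h1 : ContinuousWithinAt hb (closedBall 0 1) e₁ :=
      hbc e₁ (by rw [mem_closedBall_zero_iff, he₁.1])
    refine h1.tendsto.comp ?_
    rw [tendsto_nhdsWithin_iff]
    refine ⟨JV_tendsto he₁, ?_⟩
    filter_upwards [hsmall] with x hx
    exact ball_subset_closedBall (H.u_maps (hsub x y₁ hx.1 hx.2.le hy₁ hy₁δ.le))
  -- right side
  have hT2 : Tendsto (fun x : ℝ => u (G ⟨x, y₁⟩)) (𝓝[>] 0) (𝓝 e) := by
    have hGt : Tendsto (fun x : ℝ => G ⟨x, y₁⟩) (𝓝[>] 0) (𝓝 ⟨0, y⟩) := by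
      rw [← hG]
      refine (HL.cont ⟨0, y₁⟩ (hSq 0 le_rfl hδ)).tendsto.comp ?_
      rw [tendsto_nhdsWithin_iff]
      refine ⟨hline, ?_⟩
      filter_upwards [hsmall] with x hx
      exact hSq x hx.1.le hx.2
    rw [Metric.tendsto_nhds]
    intro ε hε
    obtain ⟨η, hη, h1⟩ := he.2.2 (ε / 2) (by linarith)
    have h2 := Metric.tendsto_nhds.1 hGt η hη
    filter_upwards [h2, hsmall] with x h3 hx
    have h4 := (HL.repos ⟨x, y₁⟩ (hSq x hx.1.le hx.2) hx.1).1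
    rw [Complex.dist_eq] at h3
    have h5 := (Complex.abs_re_le_norm (G ⟨x, y₁⟩ - ⟨0, y⟩)).trans_lt h3
    have h6 := (Complex.abs_im_le_norm (G ⟨x, y₁⟩ - ⟨0, y⟩)).trans_lt h3
    have h7 : (G ⟨x, y₁⟩ - ⟨0, y⟩).re = (G ⟨x, y₁⟩).re := by
      rw [Complex.sub_re]; simp
    have h8 : (G ⟨x, y₁⟩ - ⟨0, y⟩).im = (G ⟨x, y₁⟩).im - y := by
      rw [Complex.sub_im]
    rw [h7] at h5
    rw [h8] at h6
    have := h1 (G ⟨x, y₁⟩) h4 ((abs_lt.1 h5).2) h6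
    linarith
  refine tendsto_nhds_unique (hT1.congr' ?_) hT2
  filter_upwards [hsmall] with x hx
  have hxW := hsub x y₁ hx.1 hx.2.le hy₁ hy₁δ.le
  rw [hbe _ (H.u_maps hxW), H.φu _ hxW]

theorem vaxis_value {W : Set ℂ} {φ u G Gi : ℂ → ℂ} {μ : Measure ℂ} {ζ : ℂ} {r₀ : ℝ}
    (H : FixPE W φ u G Gi μ ζ r₀) {r lp km kp : ℝ} (HL : HypLoc G r lp km kp) {δ : ℝ}
    (hδ : 0 < δ) (hδr : δ < r) (hδr₀ : 4 * δ < r₀)
    (hsub : ∀ x y : ℝ, 0 < x → x ≤ δ → 0 < y → y ≤ δ → (⟨x, y⟩ : ℂ) ∈ W)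
    (hlim : ∀ ε > 0, ∃ η > 0, ∀ x y : ℝ, 0 < x → x < η → 0 < y → y < η → dist (u ⟨x, y⟩) ζ < ε)
    {hb hbi : ℂ → ℂ} (hbc : ContinuousOn hb (closedBall 0 1))
    (hbe : ∀ z ∈ ball (0:ℂ) 1, hb z = u (G (φ z)))
    (hbi1 : ∀ z ∈ closedBall (0:ℂ) 1, hbi (hb z) = z) {y₀ : ℝ} (hy₀ : 0 < y₀) (hy₀δ : y₀ < δ)
    (hy₀W : (⟨0, y₀⟩ : ℂ) ∉ W) :
    ∃ b : ℂ, ‖b‖ = 1 ∧ b ≠ ζ ∧ Tendsto (fun x : ℝ => u ⟨x, y₀⟩) (𝓝[>] 0) (𝓝 b) ∧
      Tendsto (fun n : ℕ => hbi^[n] b) atTop (𝓝 ζ) := by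
  have hkm := HL.hkm
  have hkm0 : 0 < km := by linarith
  obtain ⟨b, hb0⟩ := JV_lim H hδ hδr₀ hsub hy₀ hy₀δ hy₀W
  have key : ∀ n : ℕ, ∃ y, 0 < y ∧ y ≤ y₀ / km ^ n ∧ (⟨0, y⟩ : ℂ) ∉ W ∧
      JV_Lim u ζ y (hbi^[n] b) := by
    intro n
    induction n with
    | zero => exact ⟨y₀, hy₀, by simp, hy₀W, hb0⟩
    | succ n ih =>
      obtain ⟨y, hy, hyn, hyW, hyL⟩ := ih
      have hyy₀ : y ≤ y₀ := hyn.trans (div_le_self hy₀.le (one_le_pow₀ hkm.le))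
      obtain ⟨y₁, hy₁, hy₁', hG⟩ := JV_pre HL hy (by linarith)
      have hy₁y : y₁ ≤ y := hy₁'.trans (div_le_self hy.le hkm.le)
      have hy₁W : (⟨0, y₁⟩ : ℂ) ∉ W := by
        intro hcon
        apply hyW
        rw [← hG]
        exact H.G_maps hcon
      obtain ⟨e₁, he₁⟩ := JV_lim H hδ hδr₀ hsub hy₁ (by linarith) hy₁W
      have h1 := JV_equi H HL hδ hδr hsub hbc hbe hy₁ (by linarith) hG hyL he₁
      refine ⟨y₁, hy₁, ?_, hy₁W, ?_⟩
      · calc y₁ ≤ y / km := hy₁'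
          _ ≤ (y₀ / km ^ n) / km := by gcongr
          _ = y₀ / km ^ (n + 1) := by rw [div_div, pow_succ]
      · rw [Function.iterate_succ_apply', ← h1,
          hbi1 e₁ (by rw [mem_closedBall_zero_iff, he₁.1])]
        exact he₁
  refine ⟨b, hb0.1, hb0.2.1, JV_tendsto hb0, ?_⟩
  rw [Metric.tendsto_atTop]
  intro ε hε
  obtain ⟨η, hη, h1⟩ := hlim (ε / 2) (by linarith)
  have h2 : Tendsto (fun n : ℕ => y₀ / km ^ n) atTop (𝓝 0) :=
    tendsto_const_nhds.div_atTop (tendsto_pow_atTop_atTop_of_one_lt hkm)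
  obtain ⟨n₀, hn₀⟩ := (h2.eventually (Iio_mem_nhds hη)).exists_forall_of_atTop
  refine ⟨n₀, fun n hn => ?_⟩
  obtain ⟨y, hy, hyn, -, hyL⟩ := key n
  have hyη : y < η := lt_of_le_of_lt hyn (hn₀ n hn)
  have h3 : Tendsto (fun x : ℝ => dist (u ⟨x, y⟩) ζ) (𝓝[>] 0) (𝓝 (dist (hbi^[n] b) ζ)) :=
    (JV_tendsto hyL).dist tendsto_const_nhds
  have h4 : dist (hbi^[n] b) ζ ≤ ε / 2 := by
    refine le_of_tendsto h3 ?_
    have h5 : ∀ᶠ x : ℝ in 𝓝[>] 0, x < η := nhdsWithin_le_nhds (Iio_mem_nhds hη)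
    filter_upwards [h5, self_mem_nhdsWithin] with x h6 h7
    exact (h1 x y h7 h6 hy hyη).le
  linarith

end DS

end S_H36_DS_JV

section S_H36_DS_JG

/-!
JG (the invariant arc of prime ends of a stable half axis).  Here `k` is the boundary map of `g` (`EndMap`), `a x` the boundary
values, `pt x ∈ X` the points of the half axis.  `J = ⋃ n, ki^[n] '' (a '' Ioc 0 δ)`.
Shrink `δ` first so that `a x ∈ E` for `x ∈ (0, δ]` (`a x → ζ ∈ E`, `E` is relatively open in the circle, `‖a x‖ = 1`);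
the shrunk interval is still mapped into itself by `x ↦ s x`, `s x ≤ lp x < x`.
`k` maps `a '' Ioc 0 δ` into itself (`k (a x) = a (s x)`), so the sets `ki^[n] '' (a '' Ioc 0 δ)` increase with `n`; each is
connected (continuous image of an interval), so `J` is connected; `k '' J = J` (`k (ki b) = b` on the circle).
`lim`: for `b = ki^[n] (a x)`: `k^[n + m] b = k^[m] (a x) = a (s^[m] x) → ζ` as `s^[m] x ≤ lp^m x → 0`.
`sub`: `J ⊆ E` because `E` is invariant under `ki` (from `k '' E = E` and injectivity on the circle), `ζ ∉ J` because `k ζ = ζ` and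
`a x ≠ ζ`.
`acc`: `Acc φ (a x) (pt x)` is given; `acc_map` for the inverse homeomorphism `gi` (boundary map `ki`) gives
`Acc φ (ki^[n] (a x)) (gi^[n] (pt x))`, and `SP` is preserved by `gi`.
The last claim is by definition of `J`.
-/

namespace DS
open Metric Set Filter Topology

theorem stab_arc {X : Type*} [MetricSpace X] {K : Set X} {φ : ℂ → X} {u : X → ℂ}
    (hD : DiscMap K φ u) {g gi : X → X} (hg : Continuous g) (hgi : Continuous gi)
    (hgK : MapsTo g Kᶜ Kᶜ) (hgiK : MapsTo gi Kᶜ Kᶜ) {k ki : ℂ → ℂ} (hE : EndMap φ u g gi k ki)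
    {SP : X → Prop} (hSP : ∀ x, SP x → SP (gi x)) {E : Set ℂ} (hEs : E ⊆ sphere 0 1)
    (hEo : ∀ ζ ∈ E, ∃ ρ > 0, sphere 0 1 ∩ ball ζ ρ ⊆ E) (hEk : k '' E = E) {ζ : ℂ} (hζ : ζ ∈ E)
    (hkζ : k ζ = ζ) {δ lp : ℝ} (hδ : 0 < δ) (hlp : 0 < lp) (hlp1 : lp < 1) {a : ℝ → ℂ} {s : ℝ → ℝ}
    {pt : ℝ → X} (ha : ContinuousOn a (Ioc 0 δ))
    (ha1 : ∀ x ∈ Ioc (0:ℝ) δ, ‖a x‖ = 1 ∧ a x ≠ ζ) (ha0 : Tendsto a (𝓝[>] 0) (𝓝 ζ))
    (hs : ∀ x ∈ Ioc (0:ℝ) δ, 0 < s x ∧ s x ≤ lp * x) (hk : ∀ x ∈ Ioc (0:ℝ) δ, k (a x) = a (s x))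
    (hacc : ∀ x ∈ Ioc (0:ℝ) δ, Acc φ (a x) (pt x)) (hsp : ∀ x ∈ Ioc (0:ℝ) δ, SP (pt x)) :
    ∃ J : Set ℂ, StabArc k φ SP E ζ J ∧
      ∀ b ∈ J, ∃ (n : ℕ) (x : ℝ), x ∈ Ioc (0:ℝ) δ ∧ k^[n] b = a x := by
  obtain ⟨ρ, hρ, hρE⟩ := hEo ζ hζ
  have hev : {x : ℝ | a x ∈ ball ζ ρ} ∈ 𝓝[>] (0:ℝ) := ha0 (ball_mem_nhds ζ hρ)
  obtain ⟨d0, hd0, hd0s⟩ := mem_nhdsGT_iff_exists_Ioc_subset.mp hev
  have hd0' : (0:ℝ) < d0 := hd0
  set d : ℝ := min δ d0 with hd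
  have hdpos : 0 < d := lt_min hδ hd0'
  have hdδ : d ≤ δ := min_le_left _ _
  have hsub : Ioc (0:ℝ) d ⊆ Ioc (0:ℝ) δ := Ioc_subset_Ioc_right hdδ
  have hsub0 : Ioc (0:ℝ) d ⊆ Ioc (0:ℝ) d0 := Ioc_subset_Ioc_right (min_le_right _ _)
  have haE : ∀ x ∈ Ioc (0:ℝ) d, a x ∈ E := fun x hx =>
    hρE ⟨mem_sphere_zero_iff_norm.mpr (ha1 x (hsub hx)).1, hd0s (hsub0 hx)⟩
  have hsd : ∀ x ∈ Ioc (0:ℝ) d, s x ∈ Ioc (0:ℝ) d := fun x hx => by
    have h1 := hs x (hsub hx)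
    refine ⟨h1.1, h1.2.trans ?_⟩
    have h2 := hx.1
    have h3 := hx.2
    nlinarith
  -- facts on the circle
  have hball : sphere (0:ℂ) 1 ⊆ closedBall 0 1 := sphere_subset_closedBall
  have hkik : ∀ b ∈ sphere (0:ℂ) 1, ki (k b) = b := fun b hb => hE.bib b (hball hb)
  have hkki : ∀ b ∈ sphere (0:ℂ) 1, k (ki b) = b := fun b hb => hE.bbi b (hball hb)
  have hkis : ∀ (n : ℕ), ∀ b ∈ sphere (0:ℂ) 1, ki^[n] b ∈ sphere (0:ℂ) 1 := by
    intro n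
    induction n with
    | zero => exact fun b hb => hb
    | succ n ih =>
      intro b hb
      rw [Function.iterate_succ_apply']
      exact hE.bis (ih b hb)
  have hkn : ∀ (n : ℕ), ∀ b ∈ sphere (0:ℂ) 1, k^[n] (ki^[n] b) = b := by
    intro n
    induction n with
    | zero => exact fun b _ => rfl
    | succ n ih =>
      intro b hb
      rw [Function.iterate_succ_apply, Function.iterate_succ_apply' ki, hkki _ (hkis n b hb)]
      exact ih b hb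
  set A : Set ℂ := a '' Ioc 0 d with hA
  have hAs : A ⊆ sphere (0:ℂ) 1 := by
    rintro _ ⟨x, hx, rfl⟩
    exact mem_sphere_zero_iff_norm.mpr (ha1 x (hsub hx)).1
  have hkA : ∀ b ∈ A, k b ∈ A := by
    rintro _ ⟨x, hx, rfl⟩
    exact ⟨s x, hsd x hx, (hk x (hsub hx)).symm⟩
  have hmono : ∀ n : ℕ, A ⊆ ki^[n] '' A := by
    intro n
    induction n with
    | zero => exact fun b hb => ⟨b, hb, rfl⟩
    | succ n ih =>
      intro b hb
      obtain ⟨c, hc, hcb⟩ := ih hb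
      refine ⟨k c, hkA c hc, ?_⟩
      rw [Function.iterate_succ_apply, hkik c (hAs hc)]
      exact hcb
  have hconnA : IsPreconnected A := isPreconnected_Ioc.image a (ha.mono hsub)
  have hconn : ∀ n : ℕ, IsPreconnected (ki^[n] '' A) := by
    intro n
    induction n with
    | zero => simpa using hconnA
    | succ n ih =>
      have e : ki^[n + 1] '' A = ki '' (ki^[n] '' A) := by
        rw [Function.iterate_succ', image_comp]
      rw [e]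
      refine ih.image ki (hE.bic.mono ?_)
      rintro _ ⟨c, hc, rfl⟩
      exact hball (hkis n c (hAs hc))
  have hiter : ∀ m : ℕ, ∀ x ∈ Ioc (0:ℝ) d, s^[m] x ∈ Ioc (0:ℝ) d ∧ s^[m] x ≤ lp ^ m * x ∧
      k^[m] (a x) = a (s^[m] x) := by
    intro m
    induction m with
    | zero => exact fun x hx => ⟨hx, by simp, rfl⟩
    | succ m ih =>
      intro x hx
      obtain ⟨h1, h2, h3⟩ := ih x hx
      rw [Function.iterate_succ_apply', Function.iterate_succ_apply' k, h3]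
      refine ⟨hsd _ h1, ?_, hk _ (hsub h1)⟩
      refine (hs _ (hsub h1)).2.trans ?_
      rw [pow_succ', mul_assoc]
      exact mul_le_mul_of_nonneg_left h2 hlp.le
  have hEki : ∀ b ∈ E, ki b ∈ E := by
    intro b hb
    rw [← hEk] at hb
    obtain ⟨e, he, rfl⟩ := hb
    rw [hkik e (hEs he)]
    exact he
  have hEkin : ∀ n : ℕ, ∀ b ∈ E, ki^[n] b ∈ E := by
    intro n
    induction n with
    | zero => exact fun b hb => hb
    | succ n ih =>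
      intro b hb
      rw [Function.iterate_succ_apply']
      exact hEki _ (ih b hb)
  have hkζn : ∀ n : ℕ, k^[n] ζ = ζ := fun n => Function.iterate_fixed hkζ n
  refine ⟨⋃ n : ℕ, ki^[n] '' A, ⟨?_, ?_, ?_, ?_, ?_⟩, ?_⟩
  · -- connected
    have hd1 : a d ∈ A := ⟨d, ⟨hdpos, le_refl d⟩, rfl⟩
    refine ⟨⟨a d, mem_iUnion.mpr ⟨0, hmono 0 hd1⟩⟩, ?_⟩
    exact isPreconnected_iUnion ⟨a d, mem_iInter.mpr fun n => hmono n hd1⟩ hconn
  · -- in E
    intro b hb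
    obtain ⟨n, hn⟩ := mem_iUnion.mp hb
    obtain ⟨c, hc, rfl⟩ := hn
    have hc' := hc
    obtain ⟨x, hx, rfl⟩ := hc'
    refine ⟨hEkin n _ (haE x hx), ?_⟩
    intro h
    have h' : ki^[n] (a x) = ζ := h
    have h1 := hkn n (a x) (hAs hc)
    rw [h', hkζn n] at h1
    exact (ha1 x (hsub hx)).2 h1.symm
  · -- invariant
    apply Subset.antisymm
    · rintro _ ⟨b, hb, rfl⟩
      obtain ⟨n, hn⟩ := mem_iUnion.mp hb
      obtain ⟨c, hc, rfl⟩ := hn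
      cases n with
      | zero => exact mem_iUnion.mpr ⟨0, k c, hkA c hc, rfl⟩
      | succ m =>
        refine mem_iUnion.mpr ⟨m, c, hc, ?_⟩
        rw [Function.iterate_succ_apply', hkki _ (hkis m c (hAs hc))]
    · intro b hb
      obtain ⟨n, hn⟩ := mem_iUnion.mp hb
      obtain ⟨c, hc, rfl⟩ := hn
      refine ⟨ki (ki^[n] c), mem_iUnion.mpr ⟨n + 1, c, hc, ?_⟩, hkki _ (hkis n c (hAs hc))⟩
      rw [Function.iterate_succ_apply']
  · -- limit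
    intro b hb
    obtain ⟨n, hn⟩ := mem_iUnion.mp hb
    obtain ⟨c, hc, rfl⟩ := hn
    have hc' := hc
    obtain ⟨x, hx, rfl⟩ := hc'
    rw [← tendsto_add_atTop_iff_nat n]
    have e : (fun m : ℕ => k^[m + n] (ki^[n] (a x))) = fun m : ℕ => a (s^[m] x) := by
      funext m
      rw [Function.iterate_add_apply, hkn n _ (hAs hc)]
      exact (hiter m x hx).2.2
    rw [e]
    refine ha0.comp (tendsto_nhdsWithin_iff.mpr ⟨?_, Eventually.of_forall fun m =>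
      (hiter m x hx).1.1⟩)
    refine squeeze_zero (fun m => (hiter m x hx).1.1.le) (fun m => (hiter m x hx).2.1) ?_
    have h1 := (tendsto_pow_atTop_nhds_zero_of_lt_one hlp.le hlp1).mul_const x
    rwa [zero_mul] at h1
  · -- accessible
    intro b hb
    obtain ⟨n, hn⟩ := mem_iUnion.mp hb
    obtain ⟨c, hc, rfl⟩ := hn
    have hc' := hc
    obtain ⟨x, hx, rfl⟩ := hc'
    have key : ∀ m : ℕ, Acc φ (ki^[m] (a x)) (gi^[m] (pt x)) ∧ SP (gi^[m] (pt x)) := by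
      intro m
      induction m with
      | zero => exact ⟨hacc x (hsub hx), hsp x (hsub hx)⟩
      | succ m ih =>
        rw [Function.iterate_succ_apply', Function.iterate_succ_apply']
        exact ⟨acc_map hD hgi hgiK hE.bic hE.bio hE.bie
          (mem_sphere_zero_iff_norm.mp (hkis m _ (hAs hc))) ih.1, hSP _ ih.2⟩
    exact ⟨_, key n⟩
  · intro b hb
    obtain ⟨n, hn⟩ := mem_iUnion.mp hb
    obtain ⟨c, hc, rfl⟩ := hn
    have hc' := hc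
    obtain ⟨x, hx, rfl⟩ := hc'
    exact ⟨n, x, hsub hx, hkn n _ (hAs hc)⟩

end DS

end S_H36_DS_JG

section S_H36_DS_JE

/-!
JE (the arcs at a fixed prime end with a good chart).  Write `W = κ ⁻¹' Kᶜ`, `G = χ ∘ g ∘ κ`, `uu = u ∘ κ`, `pp = χ ∘ φ`; `k = u ∘ g ∘ φ` on
the disc, i.e. `k z = uu (G (pp z))` (`κ (χ x) = x` off `P'`, in particular on `Kᶜ`).
First arc: `axis_values` (hypotheses from `GoodChart`; the horizontal axis is not in `W` by `hyp.axis`) gives `a` on `(0, δ']`;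
`pt x = κ ⟨x, 0⟩`; `Acc φ (a x) (pt x)` by `acc_curve` with the curve `t ↦ κ ⟨x, t δ'⟩`; `s x = (G ⟨x, 0⟩).re`; `hyp.sp`.  `stab_arc`
gives `J`.
Alternative 2 of `GoodQuad` (the half box): the reflected system (`refl (-1) 1`: chart `refl ∘ χ`, `κ ∘ refl`; `refl_fixPE`,
`refl_hypLoc`) satisfies the same hypotheses, so there are `a'` on `(0, δ'']`, `pt' x = κ ⟨-x, 0⟩`, and an arc `J'`.  Disjoint: if
`b ∈ J ∩ J'` then `k^[n] b = a x`, `k^[m] b = a' x'`; applying `k` further to both (`k (a x) = a (s x)`) we may assume `n = m`, so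
`a x = a' x'` and `acc_unique` gives `κ ⟨x, 0⟩ = κ ⟨-x', 0⟩`, so `x = -x'` (`κ` is injective), impossible.
(For this also use `ExistsUnique`-free form: `Acc φ (a x) (pt x)` for all `x` in the interval and `s x` stays in the interval.)
Alternative 1: there is `y₀ ∈ (0, δ)` with `⟨0, y₀⟩ ∉ W`; `vaxis_value` gives `b`; `z = κ ⟨0, y₀⟩ ∈ K`;
`Acc φ b z` by `acc_curve` with `t ↦ κ ⟨t δ, y₀⟩`.  `¬ SP z`: otherwise `hyp.cross` with `ε` smaller than `y₀` and `δ - y₀` gives a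
point `w` with `0 < w.re < δ`, `0 < w.im < δ`, `κ w ∈ K`, but `w ∈ W` by `quad.sub`.  `b ∈ E`: `ki^[n] b → ζ ∈ E`, so
`ki^[n] b ∈ E` for some `n`, and `b = k^[n] (ki^[n] b) ∈ E`.
-/

namespace DS
open Metric Set Filter Topology MeasureTheory

/-- `k^[n] (ki^[n] b) = b` -/
theorem JE_iter {k ki : ℂ → ℂ} {S : Set ℂ} (him : MapsTo ki S S) (h : ∀ z ∈ S, k (ki z) = z)
    (n : ℕ) : ∀ b ∈ S, k^[n] (ki^[n] b) = b := by
  have hm : ∀ n : ℕ, ∀ b ∈ S, ki^[n] b ∈ S := fun n b hb => him.iterate n hb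
  induction n with
  | zero => intro b _; rfl
  | succ n ih =>
    intro b hb
    rw [Function.iterate_succ_apply, Function.iterate_succ_apply', h _ (hm n b hb)]
    exact ih b hb

theorem JE_gK {X : Type*} {K : Set X} {g gi : X → X} (hgig : ∀ x, gi (g x) = x)
    (hgK : g '' K = K) : MapsTo g Kᶜ Kᶜ := by
  intro x hx hgx
  rw [← hgK] at hgx
  obtain ⟨y, hy, hyx⟩ := hgx
  apply hx
  rw [← hgig x, ← hyx, hgig y]
  exact hy

theorem JE_giK {X : Type*} {K : Set X} {g gi : X → X} (hggi : ∀ x, g (gi x) = x)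
    (hgK : g '' K = K) : MapsTo gi Kᶜ Kᶜ := by
  intro x hx hgx
  apply hx
  rw [← hggi x, ← hgK]
  exact ⟨_, hgx, rfl⟩

/-- the formula of the boundary map in the chart -/
theorem JE_be {X : Type*} [MetricSpace X] {K : Set X} {φ : ℂ → X} {u : X → ℂ}
    (hD : DiscMap K φ u) {g gi : X → X} (hgig : ∀ x, gi (g x) = x) (hgK : g '' K = K)
    {k ki : ℂ → ℂ} (hE : EndMap φ u g gi k ki) {P P' : X} {χ : X → ℂ} {κ : ℂ → X}
    (hch : PChart K P P' χ κ) :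
    ∀ z ∈ ball (0:ℂ) 1, k z = u (κ (χ (g (κ (χ (φ z)))))) := by
  intro z hz
  have h1 : φ z ∉ K := hD.φ_maps hz
  have h2 : φ z ≠ P' := fun h => h1 (h ▸ hch.hP')
  rw [hch.κχ _ h2]
  have h3 : g (φ z) ∉ K := JE_gK hgig hgK h1
  have h4 : g (φ z) ≠ P' := fun h => h3 (h ▸ hch.hP')
  rw [hch.κχ _ h4]
  exact hE.be z hz

/-- the arc of one half axis -/
theorem JE_arc {X : Type*} [MetricSpace X] {K : Set X} {φ : ℂ → X}
    {u : X → ℂ} (hD : DiscMap K φ u) {g gi : X → X} (hg : Continuous g) (hgi : Continuous gi)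
    (hggi : ∀ x, g (gi x) = x) (hgig : ∀ x, gi (g x) = x) (hgK : g '' K = K) {k ki : ℂ → ℂ}
    (hE : EndMap φ u g gi k ki) {SP : X → Prop} (hSP : ∀ x, SP x → SP (gi x)) {E : Set ℂ}
    (hEs : E ⊆ sphere 0 1) (hEo : ∀ ζ ∈ E, ∃ ρ > 0, sphere 0 1 ∩ ball ζ ρ ⊆ E) (hEk : k '' E = E)
    {ζ : ℂ} (hζ : ζ ∈ E) (hkζ : k ζ = ζ) {P P' : X} {χ : X → ℂ} {κ : ℂ → X} {μ : Measure ℂ}
    {r r₀ lp km kp δ : ℝ} (hch : PChart K P P' χ κ)
    (hloc : HypLoc (fun w => χ (g (κ w))) r lp km kp)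
    (hpe : FixPE (κ ⁻¹' Kᶜ) (fun z => χ (φ z)) (fun w => u (κ w)) (fun w => χ (g (κ w)))
      (fun w => χ (gi (κ w))) μ ζ r₀)
    (haxis : ∀ x : ℝ, |x| ≤ r → κ ⟨x, 0⟩ ∈ K)
    (hsp : ∀ x : ℝ, 0 < |x| → |x| < r → SP (κ ⟨x, 0⟩))
    (hδ : 0 < δ) (hδr : δ < r) (hδr₀ : 4 * δ < r₀)
    (hsub : ∀ x y : ℝ, 0 < x → x ≤ δ → 0 < y → y ≤ δ → (⟨x, y⟩ : ℂ) ∈ κ ⁻¹' Kᶜ)
    (hlim : ∀ ε > 0, ∃ η > 0, ∀ x y : ℝ, 0 < x → x < η → 0 < y → y < η →
      dist (u (κ ⟨x, y⟩)) ζ < ε) :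
    ∃ J : Set ℂ, StabArc k φ SP E ζ J ∧
      ∀ b ∈ J, ∃ n : ℕ, ∀ m : ℕ, n ≤ m → ∃ x : ℝ, 0 < x ∧ Acc φ (k^[m] b) (κ ⟨x, 0⟩) := by
  obtain ⟨δ', hδ', hδδ, a, hac, ha1, ha0, hau, hak, has⟩ := axis_values hpe hloc
    (fun x hx h => h (haxis x hx)) hδ hδr hδr₀ hsub hlim (hb := k) hE.bc
    (JE_be hD hgig hgK hE hch)
  have hacc : ∀ x ∈ Ioc (0:ℝ) δ', Acc φ (a x) (κ ⟨x, 0⟩) := by
    intro x hx
    have hcont : Continuous (fun t : ℝ => κ ⟨x, t * δ⟩) := by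
      apply hch.κ_cont.comp
      exact (continuous_const.prodMk (continuous_id.mul continuous_const)).comp' continuous_id
        |> fun h => Complex.equivRealProdCLM.symm.continuous.comp h
    apply acc_curve hD (α := fun t : ℝ => κ ⟨x, t * δ⟩)
    · exact hcont.continuousOn
    · intro t ht
      exact hsub x (t * δ) hx.1 (hx.2.trans hδδ) (mul_pos ht.1 hδ)
        (by nlinarith [ht.2])
    · have h1 : Tendsto (fun t : ℝ => κ ⟨x, t * δ⟩) (𝓝 0) (𝓝 (κ ⟨x, 0 * δ⟩)) := hcont.tendsto 0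
      rw [zero_mul] at h1
      exact h1.mono_left nhdsWithin_le_nhds
    · have h1 : Tendsto (fun t : ℝ => t * δ) (𝓝[>] 0) (𝓝[>] 0) := by
        apply tendsto_nhdsWithin_iff.2
        constructor
        · have h2 : Tendsto (fun t : ℝ => t * δ) (𝓝 0) (𝓝 (0 * δ)) :=
            (continuous_id.mul continuous_const).tendsto 0
          rw [zero_mul] at h2
          exact h2.mono_left nhdsWithin_le_nhds
        · filter_upwards [self_mem_nhdsWithin] with t ht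
          exact mul_pos ht hδ
      exact (hau x hx).comp h1
  obtain ⟨J, hJ, hJa⟩ := stab_arc hD hg hgi (JE_gK hgig hgK) (JE_giK hggi hgK) hE hSP hEs hEo hEk
    hζ hkζ hδ' hloc.hlp hloc.hlp1 (a := a) (s := fun x => (χ (g (κ ⟨x, 0⟩))).re)
    (pt := fun x => κ ⟨x, 0⟩) hac ha1 ha0 has hak hacc
    (fun x hx => hsp x (by rw [abs_of_pos hx.1]; exact hx.1) (by
      rw [abs_of_pos hx.1]; exact (hx.2.trans hδδ).trans_lt hδr))
  refine ⟨J, hJ, fun b hb => ?_⟩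
  obtain ⟨n, x, hx, hnx⟩ := hJa b hb
  have hiter : ∀ j : ℕ, ∃ y ∈ Ioc (0:ℝ) δ', k^[n + j] b = a y := by
    intro j
    induction j with
    | zero => exact ⟨x, hx, hnx⟩
    | succ j ih =>
      obtain ⟨y, hy, hyb⟩ := ih
      refine ⟨(χ (g (κ ⟨y, 0⟩))).re, ⟨(has y hy).1, ?_⟩, ?_⟩
      · have h1 := (has y hy).2
        have h2 := hloc.hlp1
        have h3 := hy.1
        have h4 := hy.2
        nlinarith
      · rw [← add_assoc, Function.iterate_succ_apply', hyb]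
        exact hak y hy
  refine ⟨n, fun m hm => ?_⟩
  obtain ⟨j, rfl⟩ := Nat.exists_eq_add_of_le hm
  obtain ⟨y, hy, hyb⟩ := hiter j
  exact ⟨y, hy.1, by rw [hyb]; exact hacc y hy⟩

theorem JE_refl_cont (σ₁ σ₂ : ℝ) : Continuous (refl σ₁ σ₂) := by
  have h : Continuous (fun z : ℂ => ((σ₁ * z.re, σ₂ * z.im) : ℝ × ℝ)) :=
    (continuous_const.mul Complex.continuous_re).prodMk
      (continuous_const.mul Complex.continuous_im)
  exact Complex.equivRealProdCLM.symm.continuous.comp h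

theorem local_end {X : Type*} [MetricSpace X] {K : Set X} (hK : IsClosed K) {φ : ℂ → X}
    {u : X → ℂ} (hD : DiscMap K φ u) {g gi : X → X} (hg : Continuous g) (hgi : Continuous gi)
    (hggi : ∀ x, g (gi x) = x) (hgig : ∀ x, gi (g x) = x) (hgK : g '' K = K) {k ki : ℂ → ℂ}
    (hE : EndMap φ u g gi k ki) {SP : X → Prop} (hSP : ∀ x, SP x → SP (gi x)) {E : Set ℂ}
    (hEs : E ⊆ sphere 0 1) (hEo : ∀ ζ ∈ E, ∃ ρ > 0, sphere 0 1 ∩ ball ζ ρ ⊆ E) (hEk : k '' E = E)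
    {ζ : ℂ} (hζ : ζ ∈ E) (hkζ : k ζ = ζ) {P P' : X} {χ : X → ℂ} {κ : ℂ → X} {μ : Measure ℂ}
    {r r₀ lp km kp δ : ℝ} (hG : GoodChart K SP φ u g gi ζ P P' χ κ μ r r₀ lp km kp δ) :
    ∃ J : Set ℂ, StabArc k φ SP E ζ J ∧
      ((∃ J' : Set ℂ, StabArc k φ SP E ζ J' ∧ Disjoint J J') ∨
        ∃ b ∈ E, b ≠ ζ ∧ Tendsto (fun n : ℕ => ki^[n] b) atTop (𝓝 ζ) ∧
          ∃ z, Acc φ b z ∧ ¬ SP z) := by
  have hch := hG.hyp.ch
  have hδ := hG.quad.hδ
  obtain ⟨J, hJ, hJa⟩ := JE_arc hD hg hgi hggi hgig hgK hE hSP hEs hEo hEk hζ hkζ hch hG.hyp.loc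
    hG.pe hG.hyp.axis hG.hyp.sp hδ hG.hδr hG.hδr₀ hG.quad.sub hG.quad.lim
  refine ⟨J, hJ, ?_⟩
  rcases hG.quad.alt with halt | ⟨halt1, halt2⟩
  · -- points of the vertical axis
    right
    obtain ⟨y₀, hy₀, hy₀δ, hy₀W⟩ := halt δ hδ
    obtain ⟨b, hb1, hbζ, hbt, hbn⟩ := vaxis_value hG.pe hG.hyp.loc hδ hG.hδr hG.hδr₀ hG.quad.sub
      hG.quad.lim (hb := k) (hbi := ki) hE.bc (JE_be hD hgig hgK hE hch) hE.bib hy₀ hy₀δ hy₀W
    have hbs : b ∈ sphere (0:ℂ) 1 := by simpa using hb1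
    have hzK : κ ⟨0, y₀⟩ ∈ K := by
      by_contra h
      exact hy₀W h
    refine ⟨b, ?_, hbζ, hbn, κ ⟨0, y₀⟩, ?_, ?_⟩
    · obtain ⟨ρ, hρ, hρE⟩ := hEo ζ hζ
      have h1 : ∀ᶠ n : ℕ in atTop, ki^[n] b ∈ ball ζ ρ := hbn (ball_mem_nhds ζ hρ)
      obtain ⟨n, hn⟩ := h1.exists
      have h2 : ki^[n] b ∈ E := hρE ⟨hE.bis.iterate n hbs, hn⟩
      have h3 : MapsTo k E E := fun z hz => hEk ▸ ⟨z, hz, rfl⟩
      have h4 := h3.iterate n h2
      rwa [JE_iter (S := closedBall 0 1) hE.bim hE.bbi n b (sphere_subset_closedBall hbs)] at h4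
    · have hcont : Continuous (fun t : ℝ => κ ⟨t * δ, y₀⟩) := by
        apply hch.κ_cont.comp
        have h : Continuous (fun t : ℝ => ((t * δ, y₀) : ℝ × ℝ)) :=
          (continuous_id.mul continuous_const).prodMk continuous_const
        exact Complex.equivRealProdCLM.symm.continuous.comp h
      apply acc_curve hD (α := fun t : ℝ => κ ⟨t * δ, y₀⟩)
      · exact hcont.continuousOn
      · intro t ht
        exact hG.quad.sub (t * δ) y₀ (mul_pos ht.1 hδ) (by nlinarith [ht.2]) hy₀ hy₀δ.le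
      · have h1 : Tendsto (fun t : ℝ => κ ⟨t * δ, y₀⟩) (𝓝 0) (𝓝 (κ ⟨0 * δ, y₀⟩)) :=
          hcont.tendsto 0
        rw [zero_mul] at h1
        exact h1.mono_left nhdsWithin_le_nhds
      · have h1 : Tendsto (fun t : ℝ => t * δ) (𝓝[>] 0) (𝓝[>] 0) := by
          apply tendsto_nhdsWithin_iff.2
          constructor
          · have h2 : Tendsto (fun t : ℝ => t * δ) (𝓝 0) (𝓝 (0 * δ)) :=
              (continuous_id.mul continuous_const).tendsto 0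
            rw [zero_mul] at h2
            exact h2.mono_left nhdsWithin_le_nhds
          · filter_upwards [self_mem_nhdsWithin] with t ht
            exact mul_pos ht hδ
        exact hbt.comp h1
    · intro hSPz
      obtain ⟨⟨z, hz, hzre, hzK'⟩, -⟩ := hG.hyp.cross y₀ (by rw [abs_of_pos hy₀]; exact hy₀)
        (by rw [abs_of_pos hy₀]; exact hy₀δ.trans hG.hδr) hzK hSPz (min y₀ (δ - y₀))
        (lt_min hy₀ (by linarith))
      rw [mem_ball, Complex.dist_eq] at hz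
      have h1 : |(z - ⟨0, y₀⟩ : ℂ).re| < min y₀ (δ - y₀) := (Complex.abs_re_le_norm _).trans_lt hz
      have h2 : |(z - ⟨0, y₀⟩ : ℂ).im| < min y₀ (δ - y₀) := (Complex.abs_im_le_norm _).trans_lt hz
      rw [Complex.sub_re, abs_lt] at h1
      rw [Complex.sub_im, abs_lt] at h2
      simp only at h1 h2
      have h3 := min_le_left y₀ (δ - y₀)
      have h4 := min_le_right y₀ (δ - y₀)
      have h5 := hG.quad.sub z.re z.im hzre (by linarith [h1.2]) (by linarith [h2.1])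
        (by linarith [h2.2])
      exact h5 hzK'
  · -- the reflected arc
    left
    have hs1 : (-1 : ℝ) = 1 ∨ (-1 : ℝ) = -1 := Or.inr rfl
    have hs2 : (1 : ℝ) = 1 ∨ (1 : ℝ) = -1 := Or.inl rfl
    have hrr : ∀ z, refl (-1) 1 (refl (-1) 1 z) = z := refl_refl hs1 hs2
    have hr0 : ∀ x y : ℝ, refl (-1) 1 ⟨x, y⟩ = ⟨-x, y⟩ := by
      intro x y
      apply Complex.ext <;> simp [refl]
    have hch' : PChart K P P' (fun x => refl (-1) 1 (χ x)) (fun w => κ (refl (-1) 1 w)) := by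
      refine ⟨hch.hP', hch.κ_cont.comp (JE_refl_cont _ _), fun z => hch.κ_ne _, fun z => ?_,
        fun x hx => ?_, ?_, ?_⟩
      · rw [hch.χκ, hrr]
      · rw [hrr, hch.κχ x hx]
      · exact (JE_refl_cont _ _).comp_continuousOn hch.χ_cont
      · have h1 : refl (-1) 1 (0 : ℂ) = 0 := by
          apply Complex.ext <;> simp [refl]
        rw [h1]
        exact hch.κ0
    obtain ⟨J', hJ', hJa'⟩ := JE_arc hD hg hgi hggi hgig hgK hE hSP hEs hEo hEk hζ hkζ hch'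
      (r := r) (r₀ := r₀) (lp := lp) (km := km) (kp := kp) (δ := δ)
      (μ := Measure.map (refl (-1) 1) μ)
      (refl_hypLoc hG.hyp.loc hs1 hs2) (refl_fixPE hG.pe hs1 hs2)
      (fun x hx => by
        rw [hr0]
        exact hG.hyp.axis (-x) (by rwa [abs_neg]))
      (fun x hx hxr => by
        rw [hr0]
        exact hG.hyp.sp (-x) (by rwa [abs_neg]) (by rwa [abs_neg]))
      hδ hG.hδr hG.hδr₀
      (fun x y hx hxδ hy hyδ => by
        have h1 := halt1 (-x) y (by rw [abs_neg, abs_of_pos hx]; exact hxδ) hy hyδ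
        show κ (refl (-1) 1 ⟨x, y⟩) ∉ K
        rw [hr0]
        exact h1)
      (fun ε hε => by
        obtain ⟨η, hη, h⟩ := halt2 ε hε
        refine ⟨η, hη, fun x y hx hxη hy hyη => ?_⟩
        rw [hr0]
        exact h (-x) y (by rw [abs_neg, abs_of_pos hx]; exact hxη) hy hyη)
    refine ⟨J', hJ', ?_⟩
    rw [Set.disjoint_left]
    intro b hb hb'
    obtain ⟨n, hn⟩ := hJa b hb
    obtain ⟨n', hn'⟩ := hJa' b hb'
    obtain ⟨x, hx, hxA⟩ := hn (max n n') (le_max_left _ _)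
    obtain ⟨x', hx', hxA'⟩ := hn' (max n n') (le_max_right _ _)
    have hbs : b ∈ sphere (0:ℂ) 1 := hEs (hJ.sub hb).1
    have hks : k^[max n n'] b ∈ sphere (0:ℂ) 1 := hE.bs.iterate _ hbs
    have h1 := acc_unique hD (by simpa using hks) hxA hxA'
    rw [hr0] at h1
    have h2 := congrArg χ h1
    rw [hch.χκ, hch.χκ] at h2
    have h3 := congrArg Complex.re h2
    simp only at h3
    linarith

end DS

end S_H36_DS_JE
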