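import Mathlib
import Pool.Agent.H12.KS.K29
import Pool.Agent.H12.KS.K31
import Pool.Agent.H12.KS.K32
import Pool.Agent.H12.KS.K33
import Pool.Agent.H12.KS.K35
import Pool.Agent.H12.KS.K37
import Pool.Agent.H12.KS.K38

/-! Joined modules of the proof of MP_8a27c0_an (one section per module). -/

section S_H36_DS_JC

/-!
JC (dynamics of circle homeomorphisms with a fixed point; the circle is `sphere (0:ℂ) 1`).
Common setting: `k₀`, `k₀i` are mutually inverse homeomorphisms of the circle, `k₀ ζ = ζ`, and `k = k₀ ∘ k₀`, `ki = k₀i ∘ k₀i`.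
Parametrize `sphere 0 1 \ {ζ}` by `ℝ` (homeomorphism `e`, e.g. `t ↦ ζ * exp (i (π + 2 arctan t))`; `|t| → ∞` corresponds to the
points tending to `ζ`).  The conjugate of `k₀` is a homeomorphism of `ℝ`, hence strictly monotone or antitone, and the
conjugate `κ` of `k` is a strictly increasing homeomorphism.  Connected subsets of `sphere 0 1 \ {ζ}` correspond to
order connected sets.
CD1: `J` corresponds to a nonempty interval `I` with `κ '' I = I`, and `|κ^[n] x| → ∞` for `x ∈ I`.  If `κ y = y` for some `y ∈ I`,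
contradiction.  So `κ y > y` on all of `I` (or `<`; symmetric) by the intermediate value theorem; then `κ^[n] y` is increasing
and tends to `+∞`, so `I` is not bounded above; the sequence `κ⁻ⁿ y` is decreasing; if it is bounded below it tends to a fixed
point `α` of `κ`; `α ∉ I`, `α` is a lower bound of `I` (fixed points below an orbit are below the whole of `I`: if `y' ∈ I`,
`y' ≤ α`, then `α ∈ I` as `I` is order connected), so `I = (α, ∞)`; all backward orbits in `I` tend to `α` (they are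
decreasing, bounded below by `α`, and the limit is a fixed point in `[α, y)`, not in `I`).  `e' =` the point of `α`.  If it is
not bounded below then `I = ℝ`, all backward orbits tend to `-∞`, and `e' = ζ`.
CD2a: `J` corresponds to `I` with `|κ⁻ⁿ x| → ∞` on `I`, so `I` is a half line (or `ℝ`): by the symmetry `t ↦ -t` we may assume
`κ y > y` on `I` (so `κ⁻ⁿ y → -∞`, `(-∞, y] ⊆ I`).  `J₁` corresponds to `I₁` with `|κ^n x| → ∞` on `I₁`; if `κ y < y` on `I₁` then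
`I₁` contains a half line `(-∞, y]`, which meets `I`, contradiction with `κ y > y` on `I`; so `κ y > y` on `I₁` and `[y, ∞) ⊆ I₁`
for some `y`.  If `κ⁻ⁿ b → ±∞` in absolute value: for large `n` `κ⁻ⁿ b` is in `I` or in `I₁`; the backward orbit is monotone, and if it tends
to `+∞` then eventually in `I₁` it would have to decrease, contradiction; so it tends to `-∞`, is eventually in `I`, and
`b ∈ I` by invariance.
CD2b: as in CD2a both `I₁` and `I₂` contain half lines `[y, ∞)`, so they meet.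
-/

namespace DS
open Metric Set Filter Topology Function

/-- mutually inverse homeomorphisms of the unit circle -/
structure CircHomeo (k ki : ℂ → ℂ) : Prop where
  kc : ContinuousOn k (sphere 0 1)
  kic : ContinuousOn ki (sphere 0 1)
  km : MapsTo k (sphere 0 1) (sphere 0 1)
  kim : MapsTo ki (sphere 0 1) (sphere 0 1)
  kki : ∀ z ∈ sphere (0:ℂ) 1, k (ki z) = z
  kik : ∀ z ∈ sphere (0:ℂ) 1, ki (k z) = z

/-! ### Real dynamics -/

/-- mutually inverse increasing homeomorphisms of the line -/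
structure JC_RD (κ l : ℝ → ℝ) : Prop where
  kc : Continuous κ
  lc : Continuous l
  km : StrictMono κ
  lm : StrictMono l
  kl : ∀ t, κ (l t) = t
  lk : ∀ t, l (κ t) = t

/-- an invariant interval -/
structure JC_Inv (κ l : ℝ → ℝ) (I : Set ℝ) : Prop where
  oc : OrdConnected I
  hk : ∀ y ∈ I, κ y ∈ I
  hl : ∀ y ∈ I, l y ∈ I

private theorem JC_iter_mem {f : ℝ → ℝ} {I : Set ℝ} (h : ∀ y ∈ I, f y ∈ I) (n : ℕ) :
    ∀ y ∈ I, f^[n] y ∈ I := by
  induction n with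
  | zero => intro y hy; exact hy
  | succ n ih =>
    intro y hy
    rw [iterate_succ_apply']
    exact h _ (ih y hy)

private theorem JC_dir {κ l : ℝ → ℝ} {I : Set ℝ} (R : JC_RD κ l) (hI : JC_Inv κ l I)
    (hf : ∀ y ∈ I, κ y ≠ y) : (∀ y ∈ I, y < κ y) ∨ (∀ y ∈ I, κ y < y) := by
  by_contra hcon
  push Not at hcon
  obtain ⟨⟨y1, hy1, h1⟩, y2, hy2, h2⟩ := hcon
  obtain ⟨x, hx, hxe⟩ := hI.oc.isPreconnected.intermediate_value₂ hy1 hy2 R.kc.continuousOn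
    continuousOn_id h1 h2
  exact hf x hx hxe

private theorem JC_top {x : ℕ → ℝ} (hm : Monotone x)
    (h : Tendsto (fun n => |x n|) atTop atTop) : Tendsto x atTop atTop := by
  refine tendsto_atTop_atTop_of_monotone hm fun b => ?_
  obtain ⟨n, hn⟩ := (h.eventually (eventually_ge_atTop (max b (|x 0| + 1)))).exists
  refine ⟨n, ?_⟩
  have h0 : x 0 ≤ x n := hm (Nat.zero_le n)
  have h1 := neg_abs_le (x 0)
  rcases le_or_gt 0 (x n) with h2 | h2
  · rw [abs_of_nonneg h2] at hn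
    exact (le_max_left _ _).trans hn
  · rw [abs_of_neg h2] at hn
    have h3 := (le_max_right b (|x 0| + 1)).trans hn
    linarith

private theorem JC_bot {x : ℕ → ℝ} (hm : Antitone x)
    (h : Tendsto (fun n => |x n|) atTop atTop) : Tendsto x atTop atBot := by
  have h1 : Tendsto (fun n => -x n) atTop atTop := by
    refine JC_top (fun a b hab => neg_le_neg (hm hab)) ?_
    simpa only [abs_neg] using h
  have h2 := tendsto_neg_atTop_atBot.comp h1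
  exact h2.congr fun n => neg_neg _

private theorem JC_const {c : ℝ} (h : Tendsto (fun _ : ℕ => |c|) atTop atTop) : False := by
  obtain ⟨n, hn⟩ := (h.eventually (eventually_gt_atTop |c|)).exists
  exact lt_irrefl _ hn

private theorem JC_refl_iter (f : ℝ → ℝ) (n : ℕ) :
    ∀ t, (fun t => -f (-t))^[n] t = -(f^[n] (-t)) := by
  induction n with
  | zero => intro t; simp
  | succ n ih =>
    intro t
    rw [iterate_succ_apply, ih, iterate_succ_apply, neg_neg]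

private theorem JC_RD.refl {κ l : ℝ → ℝ} (R : JC_RD κ l) :
    JC_RD (fun t => -κ (-t)) (fun t => -l (-t)) where
  kc := (R.kc.comp continuous_neg).neg
  lc := (R.lc.comp continuous_neg).neg
  km := fun a b hab => neg_lt_neg (R.km (neg_lt_neg hab))
  lm := fun a b hab => neg_lt_neg (R.lm (neg_lt_neg hab))
  kl := fun t => by simp [R.kl]
  lk := fun t => by simp [R.lk]

private theorem JC_Inv.refl {κ l : ℝ → ℝ} {I : Set ℝ} (hI : JC_Inv κ l I) :
    JC_Inv (fun t => -κ (-t)) (fun t => -l (-t)) {t | -t ∈ I} where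
  oc := by
    constructor
    intro a ha b hb c hc
    exact hI.oc.out hb ha ⟨neg_le_neg hc.2, neg_le_neg hc.1⟩
  hk := fun y hy => by
    change -(-κ (-y)) ∈ I
    rw [neg_neg]; exact hI.hk _ hy
  hl := fun y hy => by
    change -(-l (-y)) ∈ I
    rw [neg_neg]; exact hI.hl _ hy

private theorem JC_l_lt {κ l : ℝ → ℝ} (R : JC_RD κ l) {y : ℝ} (h : l y < κ (l y)) : l y < y := by
  rwa [R.kl] at h

private theorem JC_fix_iter {f : ℝ → ℝ} {a : ℝ} (h : f a = a) (n : ℕ) : f^[n] a = a :=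
  iterate_fixed h n

/-- CD1, increasing -/
private theorem JC_r1 {κ l : ℝ → ℝ} {I : Set ℝ} (R : JC_RD κ l) (hI : JC_Inv κ l I)
    (hup : ∀ y ∈ I, y < κ y) :
    (∃ α, κ α = α ∧ α ∉ I ∧ ∀ y ∈ I, Tendsto (fun n => l^[n] y) atTop (𝓝 α)) ∨
      (∀ y ∈ I, Tendsto (fun n => |l^[n] y|) atTop atTop) := by
  have hanti : ∀ y ∈ I, Antitone (fun n => l^[n] y) := fun y hy =>
    R.lm.monotone.antitone_iterate_of_map_le (JC_l_lt R (hup _ (hI.hl y hy))).le
  have hlim : ∀ y β, Tendsto (fun n => l^[n] y) atTop (𝓝 β) → κ β = β := by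
    intro y β hβ
    have h1 : Tendsto (fun n => l^[n + 1] y) atTop (𝓝 β) := hβ.comp (tendsto_add_atTop_nat 1)
    have h2 : Tendsto (fun n => l^[n + 1] y) atTop (𝓝 (l β)) := by
      simp only [iterate_succ_apply']
      exact (R.lc.tendsto β).comp hβ
    have h3 := tendsto_nhds_unique h1 h2
    calc κ β = κ (l β) := by rw [← h3]
      _ = β := R.kl β
  have hnotI : ∀ β, κ β = β → β ∉ I := fun β hβ hm => absurd (hup β hm) (by rw [hβ]; exact lt_irrefl _)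
  by_cases hb : ∃ y ∈ I, BddBelow (range (fun n => l^[n] y))
  · obtain ⟨y0, hy0, hbdd⟩ := hb
    left
    set α := ⨅ n, l^[n] y0 with hα
    have ht : Tendsto (fun n => l^[n] y0) atTop (𝓝 α) := tendsto_atTop_ciInf (hanti y0 hy0) hbdd
    have hfix := hlim y0 α ht
    have hαI := hnotI α hfix
    have hαle : α ≤ y0 := by
      have := ciInf_le hbdd 0
      simpa using this
    have hlow : ∀ y ∈ I, α < y := by
      intro y hy
      by_contra hcon
      push Not at hcon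
      exact hαI (hI.oc.out hy hy0 ⟨hcon, hαle⟩)
    have hlα : l α = α := by
      calc l α = l (κ α) := by rw [hfix]
        _ = α := R.lk α
    refine ⟨α, hfix, hαI, fun y hy => ?_⟩
    have hge : ∀ n, α ≤ l^[n] y := by
      intro n
      have h1 := (R.lm.monotone.iterate n) (hlow y hy).le
      rwa [JC_fix_iter hlα n] at h1
    have hbd : BddBelow (range (fun n => l^[n] y)) := ⟨α, by rintro _ ⟨n, rfl⟩; exact hge n⟩
    have ht2 : Tendsto (fun n => l^[n] y) atTop (𝓝 (⨅ n, l^[n] y)) :=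
      tendsto_atTop_ciInf (hanti y hy) hbd
    set β := ⨅ n, l^[n] y with hβ
    have hβfix := hlim y β ht2
    have hβI := hnotI β hβfix
    have hαβ : α ≤ β := le_ciInf hge
    rcases hαβ.eq_or_lt with h | h
    · rw [h]; exact ht2
    · exfalso
      obtain ⟨n, hn⟩ := (ht.eventually (gt_mem_nhds h)).exists
      have h2 : β ≤ y := by
        have := ciInf_le hbd 0
        simpa using this
      exact hβI (hI.oc.out (JC_iter_mem hI.hl n y0 hy0) hy ⟨hn.le, h2⟩)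
  · right
    intro y hy
    have h1 : Tendsto (fun n => l^[n] y) atTop atBot := by
      refine tendsto_atTop_atBot_of_antitone (hanti y hy) fun b => ?_
      by_contra hcon
      push Not at hcon
      exact hb ⟨y, hy, b, by rintro _ ⟨n, rfl⟩; exact (hcon n).le⟩
    exact tendsto_abs_atBot_atTop.comp h1

private theorem JC_r1' {κ l : ℝ → ℝ} {I : Set ℝ} (R : JC_RD κ l) (hI : JC_Inv κ l I)
    (hf : ∀ y ∈ I, κ y ≠ y) :
    (∃ α, κ α = α ∧ α ∉ I ∧ ∀ y ∈ I, Tendsto (fun n => l^[n] y) atTop (𝓝 α)) ∨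
      (∀ y ∈ I, Tendsto (fun n => |l^[n] y|) atTop atTop) := by
  rcases JC_dir R hI hf with h | h
  · exact JC_r1 R hI h
  · have h' : ∀ y ∈ {t : ℝ | -t ∈ I}, y < (fun t => -κ (-t)) y := by
      intro y hy
      have h1 := h (-y) hy
      change y < -κ (-y)
      linarith
    rcases JC_r1 R.refl hI.refl h' with ⟨α, h1, h2, h3⟩ | h3
    · left
      refine ⟨-α, ?_, h2, fun y hy => ?_⟩
      · have h4 : -κ (-α) = α := h1
        linarith
      · have h4 := h3 (-y) (by change - -y ∈ I; rwa [neg_neg])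
        simp only [JC_refl_iter, neg_neg] at h4
        simpa using h4.neg
    · right
      intro y hy
      have h4 := h3 (-y) (by change - -y ∈ I; rwa [neg_neg])
      simp only [JC_refl_iter, neg_neg, abs_neg] at h4
      exact h4

/-- the direction on `I₁` -/
private theorem JC_r2 {κ l : ℝ → ℝ} {I I₁ : Set ℝ} (R : JC_RD κ l) (hI : JC_Inv κ l I)
    (hI₁ : JC_Inv κ l I₁) (hne : I.Nonempty) (hup : ∀ y ∈ I, y < κ y)
    (hl : ∀ y ∈ I, Tendsto (fun n => |l^[n] y|) atTop atTop)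
    (hk : ∀ y ∈ I₁, Tendsto (fun n => |κ^[n] y|) atTop atTop) :
    (∀ y ∈ I, Tendsto (fun n => l^[n] y) atTop atBot) ∧
    (∀ y ∈ I₁, y < κ y) ∧ (∀ y ∈ I₁, Tendsto (fun n => κ^[n] y) atTop atTop) := by
  have hbot : ∀ y ∈ I, Tendsto (fun n => l^[n] y) atTop atBot := fun y hy =>
    JC_bot (R.lm.monotone.antitone_iterate_of_map_le (JC_l_lt R (hup _ (hI.hl y hy))).le) (hl y hy)
  have hf : ∀ y ∈ I₁, κ y ≠ y := by
    intro y hy h
    have h1 := hk y hy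
    simp only [JC_fix_iter h] at h1
    exact JC_const h1
  rcases JC_dir R hI₁ hf with h | h
  · exact ⟨hbot, h, fun y hy => JC_top (R.km.monotone.monotone_iterate_of_le_map (h y hy).le)
      (hk y hy)⟩
  · refine ⟨hbot, ?_⟩
    have key : ∀ y ∈ I₁, False := by
      intro y₁ hy₁
      obtain ⟨y, hy⟩ := hne
      have h1 : Tendsto (fun n => κ^[n] y₁) atTop atBot :=
        JC_bot (R.km.monotone.antitone_iterate_of_map_le (h y₁ hy₁).le) (hk y₁ hy₁)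
      obtain ⟨n, hn⟩ := (h1.eventually (eventually_le_atBot y)).exists
      obtain ⟨m, hm⟩ := ((hbot y hy).eventually (eventually_le_atBot (κ^[n] y₁))).exists
      have h2 : κ^[n] y₁ ∈ I := hI.oc.out (JC_iter_mem hI.hl m y hy) hy ⟨hm, hn⟩
      have h3 := h _ (JC_iter_mem hI₁.hk n y₁ hy₁)
      have h4 := hup _ h2
      exact absurd h3 (not_lt.2 h4.le)
    exact ⟨fun y hy => (key y hy).elim, fun y hy => (key y hy).elim⟩

private theorem JC_k_l_iter {κ l : ℝ → ℝ} (R : JC_RD κ l) (n : ℕ) : ∀ t, κ^[n] (l^[n] t) = t :=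
  (show Function.RightInverse l κ from R.kl).iterate n

private theorem JC_r2a_up {κ l : ℝ → ℝ} {I I₁ : Set ℝ} (R : JC_RD κ l) (hI : JC_Inv κ l I)
    (hI₁ : JC_Inv κ l I₁) (hne : I.Nonempty) (hne₁ : I₁.Nonempty) (hup : ∀ y ∈ I, y < κ y)
    (hl : ∀ y ∈ I, Tendsto (fun n => |l^[n] y|) atTop atTop)
    (hk : ∀ y ∈ I₁, Tendsto (fun n => |κ^[n] y|) atTop atTop) {b : ℝ}
    (hb : Tendsto (fun n => |l^[n] b|) atTop atTop) : b ∈ I := by
  obtain ⟨hbot, h1, htop⟩ := JC_r2 R hI hI₁ hne hup hl hk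
  obtain ⟨y, hy⟩ := hne
  obtain ⟨y₁, hy₁⟩ := hne₁
  rcases lt_trichotomy (l b) b with h | h | h
  · have hbb : Tendsto (fun n => l^[n] b) atTop atBot :=
      JC_bot (R.lm.monotone.antitone_iterate_of_map_le h.le) hb
    obtain ⟨n, hn⟩ := (hbb.eventually (eventually_le_atBot y)).exists
    obtain ⟨m, hm⟩ := ((hbot y hy).eventually (eventually_le_atBot (l^[n] b))).exists
    have h2 : l^[n] b ∈ I := hI.oc.out (JC_iter_mem hI.hl m y hy) hy ⟨hm, hn⟩
    have h3 := JC_iter_mem hI.hk n _ h2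
    rwa [JC_k_l_iter R] at h3
  · exfalso
    simp only [JC_fix_iter h] at hb
    exact JC_const hb
  · exfalso
    have hmono := R.lm.strictMono_iterate_of_lt_map h
    have hbb : Tendsto (fun n => l^[n] b) atTop atTop := JC_top hmono.monotone hb
    obtain ⟨n, hn⟩ := (hbb.eventually (eventually_ge_atTop y₁)).exists
    obtain ⟨m, hm⟩ := ((htop y₁ hy₁).eventually (eventually_ge_atTop (l^[n] b))).exists
    have h2 : l^[n] b ∈ I₁ := hI₁.oc.out hy₁ (JC_iter_mem hI₁.hk m y₁ hy₁) ⟨hn, hm⟩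
    have h3 : l^[n] b < l^[n + 1] b := hmono (Nat.lt_succ_self n)
    rw [iterate_succ_apply'] at h3
    have h4 := R.km h3
    rw [R.kl] at h4
    exact absurd (h1 _ h2) (not_lt.2 h4.le)

private theorem JC_r2b_up {κ l : ℝ → ℝ} {I I₁ I₂ : Set ℝ} (R : JC_RD κ l) (hI : JC_Inv κ l I)
    (hI₁ : JC_Inv κ l I₁) (hI₂ : JC_Inv κ l I₂) (hne : I.Nonempty) (hne₁ : I₁.Nonempty)
    (hne₂ : I₂.Nonempty) (hup : ∀ y ∈ I, y < κ y)
    (hl : ∀ y ∈ I, Tendsto (fun n => |l^[n] y|) atTop atTop)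
    (hk : ∀ y ∈ I₁, Tendsto (fun n => |κ^[n] y|) atTop atTop)
    (hk₂ : ∀ y ∈ I₂, Tendsto (fun n => |κ^[n] y|) atTop atTop) : ∃ z, z ∈ I₁ ∧ z ∈ I₂ := by
  obtain ⟨-, -, htop⟩ := JC_r2 R hI hI₁ hne hup hl hk
  obtain ⟨-, -, htop₂⟩ := JC_r2 R hI hI₂ hne hup hl hk₂
  obtain ⟨y₁, hy₁⟩ := hne₁
  obtain ⟨y₂, hy₂⟩ := hne₂
  obtain ⟨n, hn⟩ := ((htop₂ y₂ hy₂).eventually (eventually_ge_atTop y₁)).exists
  obtain ⟨m, hm⟩ := ((htop y₁ hy₁).eventually (eventually_ge_atTop (κ^[n] y₂))).exists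
  exact ⟨κ^[n] y₂, hI₁.oc.out hy₁ (JC_iter_mem hI₁.hk m y₁ hy₁) ⟨hn, hm⟩,
    JC_iter_mem hI₂.hk n y₂ hy₂⟩

private theorem JC_refl_abs {f : ℝ → ℝ} {I : Set ℝ}
    (h : ∀ y ∈ I, Tendsto (fun n => |f^[n] y|) atTop atTop) :
    ∀ y ∈ {t : ℝ | -t ∈ I}, Tendsto (fun n => |(fun t => -f (-t))^[n] y|) atTop atTop := by
  intro y hy
  simp only [JC_refl_iter, abs_neg]
  exact h _ hy

private theorem JC_refl_ne {I : Set ℝ} (h : I.Nonempty) : {t : ℝ | -t ∈ I}.Nonempty := by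
  obtain ⟨y, hy⟩ := h
  exact ⟨-y, by change - -y ∈ I; rwa [neg_neg]⟩

private theorem JC_nofix {κ l : ℝ → ℝ} {I : Set ℝ} (R : JC_RD κ l)
    (hl : ∀ y ∈ I, Tendsto (fun n => |l^[n] y|) atTop atTop) : ∀ y ∈ I, κ y ≠ y := by
  intro y hy h
  have h1 := hl y hy
  have h2 : l y = y := by
    calc l y = l (κ y) := by rw [h]
      _ = y := R.lk y
  simp only [JC_fix_iter h2] at h1
  exact JC_const h1

private theorem JC_refl_up {κ : ℝ → ℝ} {I : Set ℝ} (h : ∀ y ∈ I, κ y < y) :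
    ∀ y ∈ {t : ℝ | -t ∈ I}, y < (fun t => -κ (-t)) y := by
  intro y hy
  have h1 := h (-y) hy
  change y < -κ (-y)
  linarith

private theorem JC_r2a {κ l : ℝ → ℝ} {I I₁ : Set ℝ} (R : JC_RD κ l) (hI : JC_Inv κ l I)
    (hI₁ : JC_Inv κ l I₁) (hne : I.Nonempty) (hne₁ : I₁.Nonempty)
    (hl : ∀ y ∈ I, Tendsto (fun n => |l^[n] y|) atTop atTop)
    (hk : ∀ y ∈ I₁, Tendsto (fun n => |κ^[n] y|) atTop atTop) {b : ℝ}
    (hb : Tendsto (fun n => |l^[n] b|) atTop atTop) : b ∈ I := by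
  rcases JC_dir R hI (JC_nofix R hl) with h | h
  · exact JC_r2a_up R hI hI₁ hne hne₁ h hl hk hb
  · have h1 := JC_r2a_up R.refl hI.refl hI₁.refl (JC_refl_ne hne) (JC_refl_ne hne₁)
      (JC_refl_up h) (JC_refl_abs hl) (JC_refl_abs hk) (b := -b)
      (by simp only [JC_refl_iter, abs_neg, neg_neg]; exact hb)
    have h2 : - -b ∈ I := h1
    rwa [neg_neg] at h2

private theorem JC_r2b {κ l : ℝ → ℝ} {I I₁ I₂ : Set ℝ} (R : JC_RD κ l) (hI : JC_Inv κ l I)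
    (hI₁ : JC_Inv κ l I₁) (hI₂ : JC_Inv κ l I₂) (hne : I.Nonempty) (hne₁ : I₁.Nonempty)
    (hne₂ : I₂.Nonempty)
    (hl : ∀ y ∈ I, Tendsto (fun n => |l^[n] y|) atTop atTop)
    (hk : ∀ y ∈ I₁, Tendsto (fun n => |κ^[n] y|) atTop atTop)
    (hk₂ : ∀ y ∈ I₂, Tendsto (fun n => |κ^[n] y|) atTop atTop) : ∃ z, z ∈ I₁ ∧ z ∈ I₂ := by
  rcases JC_dir R hI (JC_nofix R hl) with h | h
  · exact JC_r2b_up R hI hI₁ hI₂ hne hne₁ hne₂ h hl hk hk₂
  · obtain ⟨z, hz1, hz2⟩ := JC_r2b_up R.refl hI.refl hI₁.refl hI₂.refl (JC_refl_ne hne)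
      (JC_refl_ne hne₁) (JC_refl_ne hne₂) (JC_refl_up h) (JC_refl_abs hl) (JC_refl_abs hk)
      (JC_refl_abs hk₂)
    exact ⟨-z, hz1, hz2⟩

/-! ### The parametrization of the circle without a point -/

open Complex in
/-- the parametrization of the circle minus `ζ` -/
noncomputable def JC_P (ζ : ℂ) (t : ℝ) : ℂ := ζ * (((t : ℂ) - I) / ((t : ℂ) + I))

open Complex in
/-- the inverse of `JC_P` -/
noncomputable def JC_Q (ζ : ℂ) (z : ℂ) : ℝ :=
  (I * (1 + z * (starRingEnd ℂ) ζ) / (1 - z * (starRingEnd ℂ) ζ)).re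

section
open Complex

private theorem JC_tI (t : ℝ) : (t : ℂ) + I ≠ 0 := by
  intro h
  have := congrArg Complex.im h
  simp at this

private theorem JC_zz {ζ : ℂ} (hζ : ζ ∈ sphere (0:ℂ) 1) : ζ * (starRingEnd ℂ) ζ = 1 := by
  rw [mem_sphere_zero_iff_norm] at hζ
  rw [Complex.mul_conj, Complex.normSq_eq_norm_sq, hζ]
  norm_num

private theorem JC_P_mem {ζ : ℂ} (hζ : ζ ∈ sphere (0:ℂ) 1) (t : ℝ) :
    JC_P ζ t ∈ sphere (0:ℂ) 1 \ {ζ} := by
  have hz : ‖ζ‖ = 1 := by rwa [mem_sphere_zero_iff_norm] at hζ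
  have hz0 : ζ ≠ 0 := by intro h; rw [h, norm_zero] at hz; norm_num at hz
  refine ⟨?_, ?_⟩
  · rw [mem_sphere_zero_iff_norm, JC_P, norm_mul, hz, one_mul, norm_div]
    have h1 : (t : ℂ) - I = (starRingEnd ℂ) ((t : ℂ) + I) := by
      rw [map_add, Complex.conj_ofReal, Complex.conj_I]; ring
    rw [h1, RCLike.norm_conj]
    exact div_self (norm_ne_zero_iff.2 (JC_tI t))
  · rw [mem_singleton_iff, JC_P]
    intro h
    have h1 : ((t : ℂ) - I) / ((t : ℂ) + I) = 1 := by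
      have h2 : ζ * (((t : ℂ) - I) / ((t : ℂ) + I)) = ζ * 1 := by rw [h, mul_one]
      exact mul_left_cancel₀ hz0 h2
    rw [div_eq_one_iff_eq (JC_tI t)] at h1
    have h2 := congrArg Complex.im h1
    norm_num at h2

private theorem JC_QP {ζ : ℂ} (hζ : ζ ∈ sphere (0:ℂ) 1) (t : ℝ) : JC_Q ζ (JC_P ζ t) = t := by
  have h1 : JC_P ζ t * (starRingEnd ℂ) ζ = ((t : ℂ) - I) / ((t : ℂ) + I) := by
    rw [JC_P]
    linear_combination (((t : ℂ) - I) / ((t : ℂ) + I)) * JC_zz hζ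
  rw [JC_Q, h1]
  have h2 := JC_tI t
  have h3 : I * (1 + ((t : ℂ) - I) / ((t : ℂ) + I)) / (1 - ((t : ℂ) - I) / ((t : ℂ) + I)) =
      (t : ℂ) := by
    have h4 : 1 - ((t : ℂ) - I) / ((t : ℂ) + I) = 2 * I / ((t : ℂ) + I) := by
      field_simp
      ring
    have h5 : 1 + ((t : ℂ) - I) / ((t : ℂ) + I) = 2 * t / ((t : ℂ) + I) := by
      field_simp
      ring
    rw [h4, h5]
    have h6 : I ≠ 0 := Complex.I_ne_zero
    field_simp
  rw [h3, Complex.ofReal_re]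

private theorem JC_w_ne {ζ z : ℂ} (hζ : ζ ∈ sphere (0:ℂ) 1) (hz : z ≠ ζ) :
    1 - z * (starRingEnd ℂ) ζ ≠ 0 := by
  intro h
  apply hz
  have h1 := JC_zz hζ
  linear_combination (-z) * h1 - ζ * h

private theorem JC_PQ {ζ z : ℂ} (hζ : ζ ∈ sphere (0:ℂ) 1) (hz : z ∈ sphere (0:ℂ) 1 \ {ζ}) :
    JC_P ζ (JC_Q ζ z) = z := by
  have hzζ : z ≠ ζ := hz.2
  have h0 := JC_w_ne hζ hzζ
  have h1 := JC_zz hζ
  have h2 := JC_zz hz.1
  set w := z * (starRingEnd ℂ) ζ with hw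
  have hww : w * (starRingEnd ℂ) w = 1 := by
    rw [hw, map_mul, Complex.conj_conj]
    calc z * (starRingEnd ℂ) ζ * ((starRingEnd ℂ) z * ζ)
        = (z * (starRingEnd ℂ) z) * (ζ * (starRingEnd ℂ) ζ) := by ring
      _ = 1 := by rw [h1, h2, mul_one]
  have h0' : 1 - (starRingEnd ℂ) w ≠ 0 := by
    intro h
    apply h0
    have h3 := congrArg (starRingEnd ℂ) h
    rw [map_sub, map_one, Complex.conj_conj, map_zero] at h3
    exact h3
  have hre : ((JC_Q ζ z : ℝ) : ℂ) = I * (1 + w) / (1 - w) := by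
    rw [JC_Q, ← hw]
    rw [← Complex.conj_eq_iff_re]
    rw [map_div₀, map_mul, map_add, map_sub, map_one, Complex.conj_I, div_eq_div_iff h0' h0]
    linear_combination (2 * I) * hww
  have hI : I ≠ 0 := Complex.I_ne_zero
  rw [JC_P, hre]
  have h3 : I * (1 + w) / (1 - w) - I = 2 * I * w / (1 - w) := by
    field_simp
    ring
  have h4 : I * (1 + w) / (1 - w) + I = 2 * I / (1 - w) := by
    field_simp
    ring
  rw [h3, h4, div_div_div_cancel_right₀ h0]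
  have h5 : 2 * I * w / (2 * I) = w := by
    field_simp
  rw [h5, hw]
  linear_combination z * h1

private theorem JC_P_cont (ζ : ℂ) : Continuous (JC_P ζ) := by
  refine continuous_const.mul (Continuous.div ?_ ?_ JC_tI)
  · exact Complex.continuous_ofReal.sub continuous_const
  · exact Complex.continuous_ofReal.add continuous_const

private theorem JC_Q_cont {ζ : ℂ} (hζ : ζ ∈ sphere (0:ℂ) 1) :
    ContinuousOn (JC_Q ζ) (sphere (0:ℂ) 1 \ {ζ}) := by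
  refine Complex.continuous_re.comp_continuousOn (ContinuousOn.div ?_ ?_ ?_)
  · fun_prop
  · fun_prop
  · intro z hz
    exact JC_w_ne hζ hz.2

private theorem JC_P_dist {ζ : ℂ} (hζ : ζ ∈ sphere (0:ℂ) 1) (t : ℝ) :
    ‖JC_P ζ t - ζ‖ = 2 / ‖(t : ℂ) + I‖ := by
  have hz : ‖ζ‖ = 1 := by rwa [mem_sphere_zero_iff_norm] at hζ
  have h1 : JC_P ζ t - ζ = ζ * (-(2 * I) / ((t : ℂ) + I)) := by
    rw [JC_P]
    have := JC_tI t
    field_simp
    ring
  rw [h1, norm_mul, hz, one_mul, norm_div, norm_neg, norm_mul, Complex.norm_I]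
  norm_num

private theorem JC_P_tendsto {ζ : ℂ} (hζ : ζ ∈ sphere (0:ℂ) 1) (x : ℕ → ℝ) :
    Tendsto (fun n => JC_P ζ (x n)) atTop (𝓝 ζ) ↔ Tendsto (fun n => |x n|) atTop atTop := by
  have hlow : ∀ t : ℝ, |t| ≤ ‖(t : ℂ) + I‖ := by
    intro t
    have := Complex.abs_re_le_norm ((t : ℂ) + I)
    simpa using this
  have hupp : ∀ t : ℝ, ‖(t : ℂ) + I‖ ≤ |t| + 1 := by
    intro t
    have := norm_add_le (t : ℂ) I
    rwa [Complex.norm_real, Complex.norm_I] at this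
  have hpos : ∀ t : ℝ, 0 < ‖(t : ℂ) + I‖ := fun t => norm_pos_iff.2 (JC_tI t)
  rw [tendsto_iff_norm_sub_tendsto_zero]
  simp only [JC_P_dist hζ]
  constructor
  · intro h
    rw [Filter.tendsto_atTop]
    intro b
    have h1 : (0 : ℝ) < 2 / (|b| + 2) := by positivity
    filter_upwards [h.eventually (gt_mem_nhds h1)] with n hn
    rw [div_lt_div_iff₀ (hpos _) (by positivity)] at hn
    have h2 := hupp (x n)
    have h3 := le_abs_self b
    linarith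
  · intro h
    have h1 : Tendsto (fun n => ‖((x n : ℝ) : ℂ) + I‖) atTop atTop :=
      tendsto_atTop_mono (fun n => hlow (x n)) h
    exact h1.const_div_atTop 2

end

/-! ### Transfer -/

private theorem JC_symm {k ki : ℂ → ℂ} (h : CircHomeo k ki) : CircHomeo ki k where
  kc := h.kic
  kic := h.kc
  km := h.kim
  kim := h.km
  kki := h.kik
  kik := h.kki

private theorem JC_ki_fix {k ki : ℂ → ℂ} (h : CircHomeo k ki) {ζ : ℂ}
    (hζ : ζ ∈ sphere (0:ℂ) 1) (hkζ : k ζ = ζ) : ki ζ = ζ := by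
  have h1 := h.kik ζ hζ
  rwa [hkζ] at h1

private theorem JC_k_mem {k ki : ℂ → ℂ} (h : CircHomeo k ki) {ζ : ℂ}
    (hζ : ζ ∈ sphere (0:ℂ) 1) (hkζ : k ζ = ζ) {z : ℂ} (hz : z ∈ sphere (0:ℂ) 1 \ {ζ}) :
    k z ∈ sphere (0:ℂ) 1 \ {ζ} := by
  refine ⟨h.km hz.1, ?_⟩
  intro h1
  rw [mem_singleton_iff] at h1
  have h2 := h.kik z hz.1
  rw [h1, JC_ki_fix h hζ hkζ] at h2
  exact hz.2 h2.symm

/-- the conjugate of `k` -/
noncomputable def JC_K (ζ : ℂ) (k : ℂ → ℂ) (t : ℝ) : ℝ := JC_Q ζ (k (JC_P ζ t))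

private theorem JC_PK {k ki : ℂ → ℂ} (h : CircHomeo k ki) {ζ : ℂ}
    (hζ : ζ ∈ sphere (0:ℂ) 1) (hkζ : k ζ = ζ) (t : ℝ) : JC_P ζ (JC_K ζ k t) = k (JC_P ζ t) := by
  rw [JC_K, JC_PQ hζ (JC_k_mem h hζ hkζ (JC_P_mem hζ t))]

private theorem JC_KL {k ki : ℂ → ℂ} (h : CircHomeo k ki) {ζ : ℂ}
    (hζ : ζ ∈ sphere (0:ℂ) 1) (hkζ : k ζ = ζ) (t : ℝ) : JC_K ζ k (JC_K ζ ki t) = t := by
  rw [JC_K, JC_PK (JC_symm h) hζ (JC_ki_fix h hζ hkζ), h.kki _ (JC_P_mem hζ t).1, JC_QP hζ]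

private theorem JC_K_cont {k ki : ℂ → ℂ} (h : CircHomeo k ki) {ζ : ℂ}
    (hζ : ζ ∈ sphere (0:ℂ) 1) (hkζ : k ζ = ζ) : Continuous (JC_K ζ k) := by
  have h1 : Continuous (fun t => k (JC_P ζ t)) :=
    h.kc.comp_continuous (JC_P_cont ζ) (fun t => (JC_P_mem hζ t).1)
  exact (JC_Q_cont hζ).comp_continuous h1 (fun t => JC_k_mem h hζ hkζ (JC_P_mem hζ t))

private theorem JC_KK_mono {k ki : ℂ → ℂ} (h : CircHomeo k ki) {ζ : ℂ}
    (hζ : ζ ∈ sphere (0:ℂ) 1) (hkζ : k ζ = ζ) : StrictMono (fun t => JC_K ζ k (JC_K ζ k t)) := by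
  have hinj : Function.Injective (JC_K ζ k) := by
    intro a b hab
    have h1 := JC_KL (JC_symm h) hζ (JC_ki_fix h hζ hkζ) a
    have h2 := JC_KL (JC_symm h) hζ (JC_ki_fix h hζ hkζ) b
    rw [← h1, ← h2, hab]
  rcases (JC_K_cont h hζ hkζ).strictMono_of_inj hinj with h1 | h1
  · exact h1.comp h1
  · exact h1.comp h1

private theorem JC_RD_of {k ki : ℂ → ℂ} (h : CircHomeo k ki) {ζ : ℂ}
    (hζ : ζ ∈ sphere (0:ℂ) 1) (hkζ : k ζ = ζ) :
    JC_RD (fun t => JC_K ζ k (JC_K ζ k t)) (fun t => JC_K ζ ki (JC_K ζ ki t)) where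
  kc := (JC_K_cont h hζ hkζ).comp (JC_K_cont h hζ hkζ)
  lc := (JC_K_cont (JC_symm h) hζ (JC_ki_fix h hζ hkζ)).comp
    (JC_K_cont (JC_symm h) hζ (JC_ki_fix h hζ hkζ))
  km := JC_KK_mono h hζ hkζ
  lm := JC_KK_mono (JC_symm h) hζ (JC_ki_fix h hζ hkζ)
  kl := fun t => by
    simp only [JC_KL h hζ hkζ]
  lk := fun t => by
    simp only [JC_KL (JC_symm h) hζ (JC_ki_fix h hζ hkζ)]

private theorem JC_semi {k ki : ℂ → ℂ} (h : CircHomeo k ki) {ζ : ℂ}
    (hζ : ζ ∈ sphere (0:ℂ) 1) (hkζ : k ζ = ζ) (n : ℕ) (t : ℝ) :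
    JC_P ζ ((fun t => JC_K ζ k (JC_K ζ k t))^[n] t) = (k^[2])^[n] (JC_P ζ t) := by
  have h1 : Function.Semiconj (JC_P ζ) (fun t => JC_K ζ k (JC_K ζ k t)) (k^[2]) := by
    intro t
    rw [JC_PK h hζ hkζ, JC_PK h hζ hkζ]
    rfl
  exact (h1.iterate_right n) t

private theorem JC_Inv_of {k ki : ℂ → ℂ} (h : CircHomeo k ki) {ζ : ℂ}
    (hζ : ζ ∈ sphere (0:ℂ) 1) (hkζ : k ζ = ζ) {J : Set ℂ} (hJ : IsConnected J)
    (hJs : J ⊆ sphere 0 1 \ {ζ}) (hJk : (k^[2]) '' J = J) :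
    JC_Inv (fun t => JC_K ζ k (JC_K ζ k t)) (fun t => JC_K ζ ki (JC_K ζ ki t))
      {t | JC_P ζ t ∈ J} where
  oc := by
    have h1 : {t | JC_P ζ t ∈ J} = JC_Q ζ '' J := by
      ext t
      constructor
      · intro ht
        exact ⟨JC_P ζ t, ht, JC_QP hζ t⟩
      · rintro ⟨z, hz, rfl⟩
        change JC_P ζ (JC_Q ζ z) ∈ J
        rwa [JC_PQ hζ (hJs hz)]
    rw [h1]
    exact (hJ.isPreconnected.image _ ((JC_Q_cont hζ).mono hJs)).ordConnected
  hk := fun y hy => by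
    change JC_P ζ (JC_K ζ k (JC_K ζ k y)) ∈ J
    rw [JC_PK h hζ hkζ, JC_PK h hζ hkζ, ← hJk]
    exact ⟨JC_P ζ y, hy, rfl⟩
  hl := fun y hy => by
    change JC_P ζ (JC_K ζ ki (JC_K ζ ki y)) ∈ J
    have hki := JC_ki_fix h hζ hkζ
    rw [JC_PK (JC_symm h) hζ hki, JC_PK (JC_symm h) hζ hki]
    have h1 : JC_P ζ y ∈ (k^[2]) '' J := by rw [hJk]; exact hy
    obtain ⟨z, hz, hzy⟩ := h1
    rw [← hzy]
    have h2 : ki (ki (k^[2] z)) = z := by
      change ki (ki (k (k z))) = z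
      have hz1 := (hJs hz).1
      rw [h.kik _ (h.km hz1), h.kik _ hz1]
    rw [h2]
    exact hz

private theorem JC_abs {k ki : ℂ → ℂ} (h : CircHomeo k ki) {ζ : ℂ}
    (hζ : ζ ∈ sphere (0:ℂ) 1) (hkζ : k ζ = ζ) {J : Set ℂ}
    (hJt : ∀ b ∈ J, Tendsto (fun n : ℕ => (k^[2])^[n] b) atTop (𝓝 ζ)) :
    ∀ y ∈ {t | JC_P ζ t ∈ J},
      Tendsto (fun n => |(fun t => JC_K ζ k (JC_K ζ k t))^[n] y|) atTop atTop := by
  intro y hy
  rw [← JC_P_tendsto hζ]
  simp only [JC_semi h hζ hkζ]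
  exact hJt _ hy

private theorem JC_nonempty {ζ : ℂ} (hζ : ζ ∈ sphere (0:ℂ) 1) {J : Set ℂ} (hJ : IsConnected J)
    (hJs : J ⊆ sphere 0 1 \ {ζ}) : {t | JC_P ζ t ∈ J}.Nonempty := by
  obtain ⟨z, hz⟩ := hJ.nonempty
  refine ⟨JC_Q ζ z, ?_⟩
  change JC_P ζ (JC_Q ζ z) ∈ J
  rwa [JC_PQ hζ (hJs hz)]

theorem circle_CD1 {k ki : ℂ → ℂ} (h : CircHomeo k ki) {ζ : ℂ} (hζ : ζ ∈ sphere (0:ℂ) 1)
    (hkζ : k ζ = ζ) {J : Set ℂ} (hJ : IsConnected J) (hJs : J ⊆ sphere 0 1 \ {ζ})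
    (hJk : (k^[2]) '' J = J) (hJt : ∀ b ∈ J, Tendsto (fun n : ℕ => (k^[2])^[n] b) atTop (𝓝 ζ)) :
    ∃ e ∈ sphere (0:ℂ) 1, (k^[2]) e = e ∧ e ∉ J ∧
      ∀ b ∈ J, Tendsto (fun n : ℕ => (ki^[2])^[n] b) atTop (𝓝 e) := by
  have R := JC_RD_of h hζ hkζ
  have hI := JC_Inv_of h hζ hkζ hJ hJs hJk
  have hki := JC_ki_fix h hζ hkζ
  have habs := JC_abs h hζ hkζ hJt
  have hf : ∀ y ∈ {t | JC_P ζ t ∈ J}, (fun t => JC_K ζ k (JC_K ζ k t)) y ≠ y := by
    intro y hy h1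
    have h2 := habs y hy
    refine JC_const (c := y) (h2.congr fun n => ?_)
    rw [iterate_fixed h1 n]
  rcases JC_r1' R hI hf with ⟨α, h1, h2, h3⟩ | h3
  · refine ⟨JC_P ζ α, (JC_P_mem hζ α).1, ?_, h2, ?_⟩
    · have h4 := JC_semi h hζ hkζ 1 α
      rw [iterate_one, iterate_one] at h4
      rw [← h4, h1]
    · intro b hb
      have hb1 : JC_Q ζ b ∈ {t | JC_P ζ t ∈ J} := by
        change JC_P ζ (JC_Q ζ b) ∈ J
        rwa [JC_PQ hζ (hJs hb)]
      have h4 := ((JC_P_cont ζ).tendsto α).comp (h3 _ hb1)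
      refine h4.congr fun n => ?_
      rw [comp_apply, JC_semi (JC_symm h) hζ hki, JC_PQ hζ (hJs hb)]
  · refine ⟨ζ, hζ, ?_, fun h4 => (hJs h4).2 rfl, ?_⟩
    · change k (k ζ) = ζ
      rw [hkζ, hkζ]
    · intro b hb
      have hb1 : JC_Q ζ b ∈ {t | JC_P ζ t ∈ J} := by
        change JC_P ζ (JC_Q ζ b) ∈ J
        rwa [JC_PQ hζ (hJs hb)]
      have h4 := (JC_P_tendsto hζ _).2 (h3 _ hb1)
      refine h4.congr fun n => ?_
      rw [JC_semi (JC_symm h) hζ hki, JC_PQ hζ (hJs hb)]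

theorem circle_CD2a {k ki : ℂ → ℂ} (h : CircHomeo k ki) {ζ : ℂ} (hζ : ζ ∈ sphere (0:ℂ) 1)
    (hkζ : k ζ = ζ) {J : Set ℂ} (hJ : IsConnected J) (hJs : J ⊆ sphere 0 1 \ {ζ})
    (hJk : (k^[2]) '' J = J) (hJt : ∀ b ∈ J, Tendsto (fun n : ℕ => (ki^[2])^[n] b) atTop (𝓝 ζ))
    {J₁ : Set ℂ} (hJ₁ : IsConnected J₁) (hJ₁s : J₁ ⊆ sphere 0 1 \ {ζ})
    (hJ₁k : (k^[2]) '' J₁ = J₁)
    (hJ₁t : ∀ b ∈ J₁, Tendsto (fun n : ℕ => (k^[2])^[n] b) atTop (𝓝 ζ))
    {b : ℂ} (hb : b ∈ sphere (0:ℂ) 1) (hbζ : b ≠ ζ)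
    (hbt : Tendsto (fun n : ℕ => (ki^[2])^[n] b) atTop (𝓝 ζ)) : b ∈ J := by
  have R := JC_RD_of h hζ hkζ
  have hki := JC_ki_fix h hζ hkζ
  have hI := JC_Inv_of h hζ hkζ hJ hJs hJk
  have hI₁ := JC_Inv_of h hζ hkζ hJ₁ hJ₁s hJ₁k
  have hb' : b ∈ sphere (0:ℂ) 1 \ {ζ} := ⟨hb, hbζ⟩
  have h1 : JC_Q ζ b ∈ {t | JC_P ζ t ∈ J} := by
    refine JC_r2a R hI hI₁ (JC_nonempty hζ hJ hJs) (JC_nonempty hζ hJ₁ hJ₁s)
      (JC_abs (JC_symm h) hζ hki hJt) (JC_abs h hζ hkζ hJ₁t) ?_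
    rw [← JC_P_tendsto hζ]
    simp only [JC_semi (JC_symm h) hζ hki, JC_PQ hζ hb']
    exact hbt
  have h2 : JC_P ζ (JC_Q ζ b) ∈ J := h1
  rwa [JC_PQ hζ hb'] at h2

theorem circle_CD2b {k ki : ℂ → ℂ} (h : CircHomeo k ki) {ζ : ℂ} (hζ : ζ ∈ sphere (0:ℂ) 1)
    (hkζ : k ζ = ζ) {J : Set ℂ} (hJ : IsConnected J) (hJs : J ⊆ sphere 0 1 \ {ζ})
    (hJk : (k^[2]) '' J = J) (hJt : ∀ b ∈ J, Tendsto (fun n : ℕ => (ki^[2])^[n] b) atTop (𝓝 ζ))
    {J₁ J₂ : Set ℂ} (hJ₁ : IsConnected J₁) (hJ₁s : J₁ ⊆ sphere 0 1 \ {ζ})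
    (hJ₁k : (k^[2]) '' J₁ = J₁)
    (hJ₁t : ∀ b ∈ J₁, Tendsto (fun n : ℕ => (k^[2])^[n] b) atTop (𝓝 ζ))
    (hJ₂ : IsConnected J₂) (hJ₂s : J₂ ⊆ sphere 0 1 \ {ζ}) (hJ₂k : (k^[2]) '' J₂ = J₂)
    (hJ₂t : ∀ b ∈ J₂, Tendsto (fun n : ℕ => (k^[2])^[n] b) atTop (𝓝 ζ))
    (hd : Disjoint J₁ J₂) : False := by
  have R := JC_RD_of h hζ hkζ
  have hki := JC_ki_fix h hζ hkζ
  have hI := JC_Inv_of h hζ hkζ hJ hJs hJk
  have hI₁ := JC_Inv_of h hζ hkζ hJ₁ hJ₁s hJ₁k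
  have hI₂ := JC_Inv_of h hζ hkζ hJ₂ hJ₂s hJ₂k
  obtain ⟨z, hz1, hz2⟩ := JC_r2b R hI hI₁ hI₂ (JC_nonempty hζ hJ hJs) (JC_nonempty hζ hJ₁ hJ₁s)
    (JC_nonempty hζ hJ₂ hJ₂s) (JC_abs (JC_symm h) hζ hki hJt) (JC_abs h hζ hkζ hJ₁t)
    (JC_abs h hζ hkζ hJ₂t)
  exact (Set.disjoint_left.1 hd) hz1 hz2

end DS

end S_H36_DS_JC

section S_H36_DS_JF

/-!
JF (the theorem on fixed prime ends).  Proof.  Suppose `ζ ∈ E`, `hb ζ = ζ`.
(1) `hloc` for `m = 1` gives `P`; the elliptic alternative is impossible (`no_ell_end`).  So there is a `HypChart` for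
`g^[2]`; its boundary map is `k = hb^[2]` (`endMap_iter`), `ν` and `K` are invariant under `g^[2]`; `exists_good` and `local_end` (with
`SP` invariant under `gi^[2]`) give `J` with `StabArc k φ SP E ζ J`.
(2) `circle_CD1` for the circle homeomorphism `hb` (`J ⊆ E \ {ζ} ⊆ sphere \ {ζ}`) gives `e` with `k e = e`, `e ∉ J`, and
`(hbi^[2])^[n] b → e` for `b ∈ J`.  By `hnext` (`m = 2`: `hb^[2] ζ = ζ`) `e ∈ E`.
(3) `hloc` for `m = 2` at `e`: elliptic is impossible (`no_ell_end` for `g^[2]`), so there is a `HypChart` for `g^[4]`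
(`(g^[2])^[2]`), with boundary map `k^[2]`; `exists_good` and `local_end` give `J₁` with `StabArc (k^[2]) φ SP E e J₁` and one of the
alternatives.  `J` is also invariant under `k^[2]`, `J ⊆ sphere \ {e}`, connected, and `(ki^[2])^[n] b → e` on `J`
(`ki = hbi^[2]`; a subsequence of the sequence in (2)).
Alternative 1: `J₁` and a disjoint `J₂`: contradiction by `circle_CD2b` for the circle homeomorphism `k` (which fixes `e`).
Alternative 2: `b ∈ E`, `b ≠ e`, `(ki^[2])^[n] b → e`, `Acc φ b z`, `¬ SP z`: `circle_CD2a` gives `b ∈ J`, so `Acc φ b x` with `SP x`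
(`StabArc.acc` for `J`), and `acc_unique` gives `x = z`, contradiction.
-/

namespace DS
open Metric Set Filter Topology MeasureTheory

theorem JF_compl {X : Type*} {K : Set X} {g gi : X → X} (hggi : ∀ x, g (gi x) = x)
    (hgig : ∀ x, gi (g x) = x) (hgK : g '' K = K) : MapsTo g Kᶜ Kᶜ ∧ MapsTo gi Kᶜ Kᶜ := by
  constructor
  · intro x hx hgx
    rw [← hgK] at hgx
    obtain ⟨y, hy, hyx⟩ := hgx
    have h1 : y = x := by rw [← hgig y, hyx, hgig]
    exact hx (h1 ▸ hy)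
  · intro x hx hgx
    apply hx
    rw [← hgK]
    exact ⟨gi x, hgx, hggi x⟩

theorem JF_meas {X : Type*} [MetricSpace X] [MeasurableSpace X] [BorelSpace X] {K : Set X}
    {g gi : X → X} (hgi : Continuous gi) (hggi : ∀ x, g (gi x) = x)
    (hgig : ∀ x, gi (g x) = x) (hgK : g '' K = K) (ν : Measure X)
    (hν : ∀ B ⊆ Kᶜ, MeasurableSet B → ν (g '' B) = ν B) (m : ℕ) :
    ∀ B ⊆ Kᶜ, MeasurableSet B →
      (g^[m] '' B ⊆ Kᶜ ∧ MeasurableSet (g^[m] '' B)) ∧ ν (g^[m] '' B) = ν B := by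
  intro B hB hBm
  induction m with
  | zero => simpa using ⟨hB, hBm⟩
  | succ m ih =>
    obtain ⟨⟨h1, h2⟩, h3⟩ := ih
    rw [Function.iterate_succ', image_comp]
    refine ⟨⟨?_, ?_⟩, ?_⟩
    · rintro _ ⟨x, hx, rfl⟩
      exact (JF_compl hggi hgig hgK).1 (h1 hx)
    · have h4 : g '' (g^[m] '' B) = gi ⁻¹' (g^[m] '' B) := by
        ext x
        constructor
        · rintro ⟨y, hy, rfl⟩
          rw [mem_preimage, hgig]
          exact hy
        · intro hx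
          exact ⟨gi x, hx, hggi x⟩
      rw [h4]
      exact hgi.measurable h2
    · rw [hν _ h1 h2, h3]

theorem JF_image {α : Type*} {f : α → α} {S : Set α} (h : f '' S = S) (m : ℕ) :
    f^[m] '' S = S := by
  induction m with
  | zero => simp
  | succ m ih => rw [Function.iterate_succ', image_comp, ih, h]

theorem JF_SP {X : Type*} {gi : X → X} {SP : X → Prop} (hSP : ∀ x, SP x → SP (gi x)) (m : ℕ) :
    ∀ x, SP x → SP (gi^[m] x) := by
  induction m with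
  | zero => intro x hx; exact hx
  | succ m ih =>
    intro x hx
    rw [Function.iterate_succ_apply']
    exact hSP _ (ih x hx)

theorem JF_step {X : Type*} [MetricSpace X] [MeasurableSpace X] [BorelSpace X] {K : Set X}
    (hK : IsClosed K) {φ : ℂ → X} {u : X → ℂ} (hD : DiscMap K φ u) {g gi : X → X}
    (hg : Continuous g) (hgi : Continuous gi) (hggi : ∀ x, g (gi x) = x)
    (hgig : ∀ x, gi (g x) = x) (hgK : g '' K = K) {hb hbi : ℂ → ℂ}
    (hE : EndMap φ u g gi hb hbi) (ν : Measure X)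
    (hν : ∀ B ⊆ Kᶜ, MeasurableSet B → ν (g '' B) = ν B)
    (hpos : ∀ O ⊆ Kᶜ, IsOpen O → O.Nonempty → 0 < ν O) {SP : X → Prop}
    (hSP : ∀ x, SP x → SP (gi x)) {E : Set ℂ} (hEs : E ⊆ sphere 0 1)
    (hEo : ∀ ζ ∈ E, ∃ ρ > 0, sphere 0 1 ∩ ball ζ ρ ⊆ E) (hEb : hb '' E = E)
    (hfin : ∀ ζ ∈ E, ∃ ρ > 0, ν (φ '' (ball 0 1 ∩ ball ζ ρ)) < ⊤)
    (hloc : ∀ ζ ∈ E, ∀ m : ℕ, 0 < m → hb^[m] ζ = ζ → ∃ P ∈ K, Principal φ ζ P ∧
      (EllPt K (g^[m]) P ∨ ∃ (P' : X) (χ : X → ℂ) (κ : ℂ → X) (r lp km kp : ℝ),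
        HypChart K SP (g^[2 * m]) P P' χ κ r lp km kp))
    {e : ℂ} (he : e ∈ E) {m : ℕ} (hm : 0 < m) (hfix : hb^[m] e = e) :
    ∃ J : Set ℂ, StabArc (hb^[2 * m]) φ SP E e J ∧
      ((∃ J' : Set ℂ, StabArc (hb^[2 * m]) φ SP E e J' ∧ Disjoint J J') ∨
        ∃ b ∈ E, b ≠ e ∧ Tendsto (fun n : ℕ => (hbi^[2 * m])^[n] b) atTop (𝓝 e) ∧
          ∃ z, Acc φ b z ∧ ¬ SP z) := by
  have hc := JF_compl hggi hgig hgK
  have hgg : ∀ n : ℕ, ∀ x, g^[n] (gi^[n] x) = x := fun n x =>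
    Function.LeftInverse.iterate (f := gi) (g := g) hggi n x
  have hgg' : ∀ n : ℕ, ∀ x, gi^[n] (g^[n] x) = x := fun n x =>
    Function.LeftInverse.iterate (f := g) (g := gi) hgig n x
  have hmeas := fun n : ℕ => fun B (hB : B ⊆ Kᶜ) (hBm : MeasurableSet B) =>
    (JF_meas hgi hggi hgig hgK ν hν n B hB hBm).2
  have hEn := fun n : ℕ => endMap_iter hD hc.1 hc.2 hE n
  have hζ : ‖e‖ = 1 := mem_sphere_zero_iff_norm.1 (hEs he)
  obtain ⟨P, hPK, hPr, hell | ⟨P', χ, κ, r, lp, km, kp, hH⟩⟩ := hloc e he m hm hfix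
  · exact (no_ell_end hK hD (hg.iterate m) (hgi.iterate m) (hgg m) (hgg' m) (JF_image hgK m)
      (hEn m) ν (hmeas m) hpos hζ (hfin e he) hfix hPK hPr hell).elim
  · have hfix2 : hb^[2 * m] e = e := by
      rw [mul_comm, Function.iterate_mul]
      exact Function.iterate_fixed hfix 2
    obtain ⟨χ', κ', μ, r₀, δ, hG⟩ := exists_good hK hD (hg.iterate (2 * m)) (hgi.iterate (2 * m))
      (hgg (2 * m)) (hgg' (2 * m)) (JF_image hgK (2 * m)) (hEn (2 * m)) ν (hmeas (2 * m)) hpos hζ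
      (hfin e he) hfix2 hPK hPr hH
    exact local_end hK hD (hg.iterate (2 * m)) (hgi.iterate (2 * m))
      (hgg (2 * m)) (hgg' (2 * m)) (JF_image hgK (2 * m)) (hEn (2 * m)) (JF_SP hSP (2 * m)) hEs hEo
      (JF_image hEb (2 * m)) he hfix2 hG

theorem no_fixed_end {X : Type*} [MetricSpace X] [MeasurableSpace X] [BorelSpace X] {K : Set X}
    (hK : IsClosed K) {φ : ℂ → X} {u : X → ℂ} (hD : DiscMap K φ u) {g gi : X → X}
    (hg : Continuous g) (hgi : Continuous gi) (hggi : ∀ x, g (gi x) = x)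
    (hgig : ∀ x, gi (g x) = x) (hgK : g '' K = K) {hb hbi : ℂ → ℂ}
    (hE : EndMap φ u g gi hb hbi) (ν : Measure X)
    (hν : ∀ B ⊆ Kᶜ, MeasurableSet B → ν (g '' B) = ν B)
    (hpos : ∀ O ⊆ Kᶜ, IsOpen O → O.Nonempty → 0 < ν O) {SP : X → Prop}
    (hSP : ∀ x, SP x → SP (gi x)) {E : Set ℂ} (hEs : E ⊆ sphere 0 1)
    (hEo : ∀ ζ ∈ E, ∃ ρ > 0, sphere 0 1 ∩ ball ζ ρ ⊆ E) (hEb : hb '' E = E)
    (hfin : ∀ ζ ∈ E, ∃ ρ > 0, ν (φ '' (ball 0 1 ∩ ball ζ ρ)) < ⊤)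
    (hloc : ∀ ζ ∈ E, ∀ m : ℕ, 0 < m → hb^[m] ζ = ζ → ∃ P ∈ K, Principal φ ζ P ∧
      (EllPt K (g^[m]) P ∨ ∃ (P' : X) (χ : X → ℂ) (κ : ℂ → X) (r lp km kp : ℝ),
        HypChart K SP (g^[2 * m]) P P' χ κ r lp km kp))
    (hnext : ∀ ζ ∈ E, ∀ m : ℕ, 0 < m → hb^[m] ζ = ζ → ∀ J ⊆ E \ {ζ}, IsConnected J →
      (hb^[m]) '' J = J → (∀ b ∈ J, Tendsto (fun n : ℕ => (hb^[m])^[n] b) atTop (𝓝 ζ)) →
      ∀ e ∈ sphere (0:ℂ) 1, (∀ b ∈ J, Tendsto (fun n : ℕ => (hbi^[m])^[n] b) atTop (𝓝 e)) →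
      e ∈ E) :
    ∀ ζ ∈ E, hb ζ ≠ ζ := by
  intro ζ hζ hfix
  have step := fun {e : ℂ} (he : e ∈ E) {m : ℕ} (hm : 0 < m) (hfix : hb^[m] e = e) =>
    JF_step hK hD hg hgi hggi hgig hgK hE ν hν hpos hSP hEs hEo hEb hfin hloc he hm hfix
  obtain ⟨J, hJ, -⟩ := step hζ one_pos (by simpa using hfix)
  rw [mul_one] at hJ
  have hcirc : CircHomeo hb hbi :=
    ⟨hE.bc.mono sphere_subset_closedBall, hE.bic.mono sphere_subset_closedBall, hE.bs, hE.bis,
      fun z hz => hE.bbi z (sphere_subset_closedBall hz),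
      fun z hz => hE.bib z (sphere_subset_closedBall hz)⟩
  have hJs : J ⊆ sphere 0 1 \ {ζ} := fun x hx => ⟨hEs (hJ.sub hx).1, (hJ.sub hx).2⟩
  obtain ⟨e, he1, he2, he3, he4⟩ := circle_CD1 hcirc (hEs hζ) hfix hJ.conn hJs hJ.inv hJ.lim
  have heE : e ∈ E := hnext ζ hζ 2 two_pos (Function.iterate_fixed hfix 2) J hJ.sub hJ.conn hJ.inv
    hJ.lim e he1 he4
  obtain ⟨J₁, hJ₁, halt⟩ := step heE two_pos he2
  have hc := JF_compl hggi hgig hgK
  have hE2 := endMap_iter hD hc.1 hc.2 hE 2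
  have hcirc2 : CircHomeo (hb^[2]) (hbi^[2]) :=
    ⟨hE2.bc.mono sphere_subset_closedBall, hE2.bic.mono sphere_subset_closedBall, hE2.bs, hE2.bis,
      fun z hz => hE2.bbi z (sphere_subset_closedBall hz),
      fun z hz => hE2.bib z (sphere_subset_closedBall hz)⟩
  rw [Function.iterate_mul] at hJ₁ halt
  have hJe : J ⊆ sphere 0 1 \ {e} := fun x hx => ⟨(hJs hx).1, fun h => he3 (h ▸ hx)⟩
  have hJ2 : ((hb^[2])^[2]) '' J = J := JF_image hJ.inv 2
  have hJt : ∀ b ∈ J, Tendsto (fun n : ℕ => ((hbi^[2])^[2])^[n] b) atTop (𝓝 e) := by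
    intro b hb
    have h1 : Tendsto (fun n : ℕ => 2 * n) atTop atTop :=
      tendsto_id.const_mul_atTop' two_pos
    refine ((he4 b hb).comp h1).congr fun n => ?_
    rw [Function.comp_apply, Function.iterate_mul]
  have hsub : ∀ {J' : Set ℂ}, StabArc ((hb^[2])^[2]) φ SP E e J' → J' ⊆ sphere 0 1 \ {e} :=
    fun h x hx => ⟨hEs (h.sub hx).1, (h.sub hx).2⟩
  rcases halt with ⟨J₂, hJ₂, hdis⟩ | ⟨b, hbE, hbe, hbt, z, hz, hSz⟩
  · exact circle_CD2b hcirc2 he1 he2 hJ.conn hJe hJ2 hJt hJ₁.conn (hsub hJ₁) hJ₁.inv hJ₁.lim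
      hJ₂.conn (hsub hJ₂) hJ₂.inv hJ₂.lim hdis
  · rw [Function.iterate_mul] at hbt
    have hbJ : b ∈ J := circle_CD2a hcirc2 he1 he2 hJ.conn hJe hJ2 hJt hJ₁.conn (hsub hJ₁)
      hJ₁.inv hJ₁.lim (hEs hbE) hbe hbt
    obtain ⟨x, hx1, hx2⟩ := hJ.acc b hbJ
    have h1 := acc_unique hD (mem_sphere_zero_iff_norm.1 (hEs hbE)) hx1 hz
    exact hSz (h1 ▸ hx2)

end DS

end S_H36_DS_JF

section S_H36_DS_PL

/-!
PL.  Proof.  Take a square `Rect (-s) s (-s) s` contained in `closedBall 0 r₁` (`area_meet`), not containing `φ 0`, with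
`2 s < ε`; `exists_sep` gives a separating component `A`; by `area_meet` there is `z ∈ A` with `G z ∈ A`.
-/

namespace DS
open Metric Set Filter Topology MeasureTheory

theorem PL_norm {s : ℝ} {z : ℂ} (hz : z ∈ Rect (-s) s (-s) s) : ‖z‖ ≤ 2 * s := by
  obtain ⟨h1, h2, h3, h4⟩ := hz
  have h5 : |z.re| ≤ s := abs_le.2 ⟨h1, h2⟩
  have h6 : |z.im| ≤ s := abs_le.2 ⟨h3, h4⟩
  have h7 := Complex.norm_le_abs_re_add_abs_im z
  linarith

theorem near_fixed {W : Set ℂ} {φ u G Gi : ℂ → ℂ} {μ : Measure ℂ} {ζ : ℂ} {r₀ : ℝ}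
    (H : FixPE W φ u G Gi μ ζ r₀) : ∀ ε > 0, ∃ z ∈ W, ‖z‖ < ε ∧ ‖G z‖ < ε := by
  intro ε hε
  obtain ⟨r₁, hr₁, h⟩ := area_meet H
  have hφ0 : φ 0 ∈ W := H.φ_maps (mem_ball_self one_pos)
  have hne : φ 0 ≠ 0 := fun h0 => H.zero_notin (h0 ▸ hφ0)
  have hn : 0 < ‖φ 0‖ := norm_pos_iff.2 hne
  obtain ⟨s, hs, hsε, hsr, hsn⟩ : ∃ s : ℝ, 0 < s ∧ 2 * s < ε ∧ 2 * s < r₁ ∧ 2 * s < ‖φ 0‖ := by
    refine ⟨min (min ε r₁) ‖φ 0‖ / 3, by positivity, ?_, ?_, ?_⟩
    · have := (min_le_left (min ε r₁) ‖φ 0‖).trans (min_le_left ε r₁)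
      linarith
    · have := (min_le_left (min ε r₁) ‖φ 0‖).trans (min_le_right ε r₁)
      linarith
    · have := min_le_right (min ε r₁) ‖φ 0‖
      linarith
  have h0 : φ 0 ∉ Rect (-s) s (-s) s := fun hin => by
    have := PL_norm hin
    linarith
  obtain ⟨w, hw, hsep⟩ := exists_sep H (neg_lt_zero.2 hs) hs (neg_lt_zero.2 hs) hs h0
  have hsub : Rect (-s) s (-s) s ⊆ closedBall 0 r₁ := fun z hz => by
    rw [mem_closedBall_zero_iff]
    have := PL_norm hz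
    linarith
  obtain ⟨x, hx, z, hz, rfl⟩ := h (-s) s (-s) s (by linarith) (by linarith) hsub w hw hsep
  have hzs := connectedComponentIn_subset _ _ hz
  have hxs := connectedComponentIn_subset _ _ hx
  refine ⟨z, hzs.2, ?_, ?_⟩
  · have := PL_norm hzs.1.1
    linarith
  · have := PL_norm hxs.1.1
    linarith

end DS

end S_H36_DS_PL

section S_H36_DS_SL

/-!
SL (local data at fixed prime ends, sphere case; helper60 is PI of this file).
`spt_back`: if `α` is a regular curve in `stableSet f Q` through `x`, then `fi ∘ α` is a regular curve in `stableSet f (fi Q)`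
through `fi x`; `fi Q` is hyperbolic (same minimal period, the differential of the return map at `fi Q` is conjugate to
the one at `Q` by the differential of `f`).
`sphere_loc`: see the message of helper36 / the header of JBase.
-/

namespace DS
open Metric Set Filter Topology Function MeasureTheory
open scoped Manifold ContDiff

/-- the differentials of `g` at `y` and of its inverse at `g y` are inverse to each other -/
theorem SL_equiv {g gi : S2 → S2} (hg : ContMDiff (𝓡 2) (𝓡 2) 1 g)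
    (hgi : ContMDiff (𝓡 2) (𝓡 2) 1 gi) (hggi : ∀ x, g (gi x) = x) (hgig : ∀ x, gi (g x) = x)
    (y : S2) : ∃ e : E2 ≃ₗ[ℝ] E2, ∀ v : E2, e v = mfderiv (𝓡 2) (𝓡 2) g y v := by
  let A : E2 →L[ℝ] E2 := mfderiv (𝓡 2) (𝓡 2) g y
  let B : E2 →L[ℝ] E2 := mfderiv (𝓡 2) (𝓡 2) gi (g y)
  have hA : HasMFDerivAt (𝓡 2) (𝓡 2) g y A := (hg.mdifferentiable (by norm_num) y).hasMFDerivAt
  have hB : HasMFDerivAt (𝓡 2) (𝓡 2) gi (g y) B :=
    (hgi.mdifferentiable (by norm_num) (g y)).hasMFDerivAt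
  have hA' : HasMFDerivAt (𝓡 2) (𝓡 2) g (gi (g y)) A := by rw [hgig]; exact hA
  have h1 : HasMFDerivAt (𝓡 2) (𝓡 2) (gi ∘ g) y (B.comp A) := hB.comp y hA
  have h2 : HasMFDerivAt (𝓡 2) (𝓡 2) (g ∘ gi) (g y) (A.comp B) := hA'.comp (g y) hB
  have e1 : gi ∘ g = id := funext hgig
  have e2 : g ∘ gi = id := funext hggi
  rw [e1] at h1
  rw [e2] at h2
  have h3 := hasMFDerivAt_unique h1 (hasMFDerivAt_id y)
  have h4 := hasMFDerivAt_unique h2 (hasMFDerivAt_id (g y))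
  refine ⟨LinearEquiv.ofLinearMap (A : E2 →ₗ[ℝ] E2) (B : E2 →ₗ[ℝ] E2)
      (LinearMap.ext fun v => congrArg (fun L => L v) h4)
      (LinearMap.ext fun v => congrArg (fun L => L v) h3), fun v => rfl⟩

theorem SL_iter {f : S2 → S2} (cf : ContMDiff (𝓡 2) (𝓡 2) 1 f) (k : ℕ) :
    ContMDiff (𝓡 2) (𝓡 2) 1 (f^[k]) := by
  induction k with
  | zero => exact contMDiff_id
  | succ k ih =>
    rw [Function.iterate_succ']
    exact cf.comp ih

theorem SL_comm {f fi : S2 → S2} (hffi : ∀ x, f (fi x) = x) (hfif : ∀ x, fi (f x) = x) (n : ℕ) :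
    ∀ x : S2, f^[n] (fi x) = fi (f^[n] x) := by
  induction n with
  | zero => intro x; rfl
  | succ n ih =>
    intro x
    rw [Function.iterate_succ_apply', ih, hffi, Function.iterate_succ_apply', hfif]

theorem SL_hyp {f fi : S2 → S2} {ν : Measure S2} (hS : Sys f fi ν) {Q : S2}
    (h : Hyperbolic f Q) : Hyperbolic f (fi Q) := by
  have hper : fi Q ∈ periodicPts f := by
    obtain ⟨n, hn, hnQ⟩ := h.1
    refine mk_mem_periodicPts hn ?_
    show f^[n] (fi Q) = fi Q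
    rw [SL_comm hS.ffi hS.fif, hnQ]
  have hmin : minimalPeriod f (fi Q) = minimalPeriod f Q := by
    have := minimalPeriod_apply hper
    rw [hS.ffi] at this
    exact this.symm
  refine ⟨hper, fun μ hμ => h.2 μ ?_⟩
  unfold IsMultiplier at hμ ⊢
  rw [hmin] at hμ
  obtain ⟨q, hq⟩ : ∃ q, q = minimalPeriod f Q := ⟨_, rfl⟩
  rw [← hq] at hμ ⊢
  have hqQ : f^[q] Q = Q := by rw [hq]; exact iterate_minimalPeriod
  obtain ⟨e, he⟩ := SL_equiv hS.cf hS.cfi hS.ffi hS.fif (fi Q)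
  have key : (iterDeriv f q Q : E2 →ₗ[ℝ] E2) =
      e.conj (iterDeriv f q (fi Q) : E2 →ₗ[ℝ] E2) := by
    have c1 : mfderiv (𝓡 2) (𝓡 2) (f^[q] ∘ f) (fi Q) =
        (mfderiv (𝓡 2) (𝓡 2) (f^[q]) (f (fi Q))).comp (mfderiv (𝓡 2) (𝓡 2) f (fi Q)) :=
      mfderiv_comp (fi Q) ((SL_iter hS.cf q).mdifferentiable (by norm_num) _)
        (hS.cf.mdifferentiable (by norm_num) _)
    have c2 : mfderiv (𝓡 2) (𝓡 2) (f ∘ f^[q]) (fi Q) =
        (mfderiv (𝓡 2) (𝓡 2) f (f^[q] (fi Q))).comp (mfderiv (𝓡 2) (𝓡 2) (f^[q]) (fi Q)) :=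
      mfderiv_comp (fi Q) (hS.cf.mdifferentiable (by norm_num) _)
        ((SL_iter hS.cf q).mdifferentiable (by norm_num) _)
    have c3 : f^[q] ∘ f = f ∘ f^[q] := by
      rw [← Function.iterate_succ, ← Function.iterate_succ']
    have hqf : f^[q] (fi Q) = fi Q := by rw [SL_comm hS.ffi hS.fif, hqQ]
    rw [c3, c2, hS.ffi, hqf] at c1
    apply LinearMap.ext
    intro v
    rw [LinearEquiv.conj_apply_apply]
    have h1 : ∀ w : E2, e (iterDeriv f q (fi Q) w) = iterDeriv f q Q (e w) := by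
      intro w
      rw [he, he]
      exact congrArg (fun L => L w) c1
    have h2 := h1 (e.symm v)
    rw [LinearEquiv.apply_symm_apply] at h2
    exact h2.symm
  rw [key, LinearEquiv.charpoly_conj]
  exact hμ

theorem SL_stab {f fi : S2 → S2} {ν : Measure S2} (hS : Sys f fi ν) {Q y : S2}
    (h : y ∈ stableSet f Q) : fi y ∈ stableSet f (fi Q) := by
  have hu : UniformContinuous fi := CompactSpace.uniformContinuous_of_continuous hS.cfi.continuous
  show Tendsto (fun n : ℕ => dist (f^[n] (fi y)) (f^[n] (fi Q))) atTop (𝓝 0)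
  rw [Metric.tendsto_atTop]
  intro ε hε
  obtain ⟨δ, hδ, hd⟩ := Metric.uniformContinuous_iff.1 hu ε hε
  have h' : Tendsto (fun n : ℕ => dist (f^[n] y) (f^[n] Q)) atTop (𝓝 0) := h
  rw [Metric.tendsto_atTop] at h'
  obtain ⟨N, hN⟩ := h' δ hδ
  refine ⟨N, fun n hn => ?_⟩
  have h1 := hN n hn
  rw [Real.dist_eq, sub_zero, abs_of_nonneg dist_nonneg] at h1 ⊢
  rw [SL_comm hS.ffi hS.fif, SL_comm hS.ffi hS.fif]
  exact hd h1

/-- the image of a regular curve -/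
theorem SL_tangent {g gi : S2 → S2} (hg : ContMDiff (𝓡 2) (𝓡 2) 1 g)
    (hgi : ContMDiff (𝓡 2) (𝓡 2) 1 gi) (hggi : ∀ x, g (gi x) = x) (hgig : ∀ x, gi (g x) = x)
    {W W' : Set S2} (hW : ∀ y ∈ W, g y ∈ W') {x : S2} {v : E3} (h : TangentTo W x v) :
    ∃ v' : E3, TangentTo W' (g x) v' := by
  obtain ⟨hv, α, hα, hαW, hα0, hαv⟩ := h
  set σ : ℝ → ℝ := fun t => 1 / 2 * Real.sin t with hσ
  have hσm : ∀ t, σ t ∈ Ioo (-1:ℝ) 1 := by
    intro t
    have h1 := Real.sin_le_one t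
    have h2 := Real.neg_one_le_sin t
    constructor
    · show -1 < 1 / 2 * Real.sin t
      linarith
    · show 1 / 2 * Real.sin t < 1
      linarith
  have hσ0 : σ 0 = 0 := by simp [hσ]
  have hσc : ContDiff ℝ 1 σ := contDiff_const.mul Real.contDiff_sin
  have hσd : HasDerivAt σ (1 / 2) 0 := by
    have h1 := (Real.hasDerivAt_sin 0).const_mul (1 / 2)
    rw [Real.cos_zero, mul_one] at h1
    exact h1
  have hb : ContDiff ℝ 1 (fun t => (α (σ t) : E3)) := by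
    rw [← contDiffOn_univ]
    exact hα.comp hσc.contDiffOn (fun t _ => hσm t)
  -- the curve as a map to the sphere
  have hbm : ContMDiff 𝓘(ℝ, ℝ) (𝓡 2) 1 (fun t => α (σ t)) := by
    have h1 := ContMDiff.codRestrict_sphere (n := 2) (m := 1) (hb.contMDiff)
      (fun t => (α (σ t)).2)
    exact h1
  have hgb : ContDiff ℝ 1 (fun t => (g (α (σ t)) : E3)) := by
    rw [← contMDiff_iff_contDiff]
    exact SV_coe.comp (hg.comp hbm)
  -- velocities
  have hα' : HasDerivAt (fun t => (α t : E3)) v 0 := by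
    have h0 : (0:ℝ) ∈ Ioo (-1:ℝ) 1 := by constructor <;> norm_num
    have h1 : DifferentiableAt ℝ (fun t => (α t : E3)) 0 :=
      (hα.differentiableOn (by norm_num)).differentiableAt (isOpen_Ioo.mem_nhds h0)
    rw [← hαv]
    exact h1.hasDerivAt
  have hb' : HasDerivAt (fun t => (α (σ t) : E3)) ((1 / 2 : ℝ) • v) 0 := by
    have h1 : HasDerivAt (fun t => (α t : E3)) v (σ 0) := by rw [hσ0]; exact hα'
    exact h1.scomp 0 hσd
  -- a chart
  obtain ⟨O, hO⟩ : ∃ O : S2, α (σ 0) ≠ O := by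
    refine ⟨-(α (σ 0)), ?_⟩
    intro h
    have h1 : ((α (σ 0) : S2) : E3) = -((α (σ 0) : S2) : E3) := congrArg Subtype.val h
    have h2 : ((α (σ 0) : S2) : E3) = 0 := by
      have h4 : (2:ℝ) • ((α (σ 0) : S2) : E3) = 0 := by
        rw [two_smul]
        nth_rewrite 2 [h1]
        exact add_neg_cancel _
      rcases smul_eq_zero.1 h4 with h5 | h5
      · norm_num at h5
      · exact h5
    have h3 : ‖((α (σ 0) : S2) : E3)‖ = 1 := by simp
    rw [h2] at h3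
    simp at h3
  obtain ⟨p, q, hpq⟩ := exists_SC O
  have hPC : PC1 O p q := ⟨hpq.q_smooth, hpq.p_smooth, hpq.q_ne, hpq.pq, hpq.qp⟩
  obtain ⟨V, hV, hvV⟩ := vel_chart hPC (α := fun t => α (σ t)) hb' hO
  have hV0 : V ≠ 0 := by
    rintro rfl
    rw [map_zero] at hvV
    rcases smul_eq_zero.1 hvV with h | h
    · norm_num at h
    · exact hv h
  have hPC' := pc1_comp hPC hg hgi hggi hgig
  obtain ⟨hc, hinj⟩ := vel_emb hPC'
  set v' : E3 := fderiv ℝ (fun z : ℂ => (g (q z) : E3)) (p (α (σ 0))) V with hv'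
  have hv'0 : v' ≠ 0 := by
    intro h
    apply hV0
    apply hinj (p (α (σ 0)))
    rw [map_zero]
    exact h
  have hd : HasDerivAt (fun t => (g (α (σ t)) : E3)) v' 0 := by
    have h2 : HasFDerivAt (fun z : ℂ => (g (q z) : E3))
        (fderiv ℝ (fun z : ℂ => (g (q z) : E3)) (p (α (σ 0)))) (p (α (σ 0))) :=
      (hc.differentiable (by norm_num)).differentiableAt.hasFDerivAt
    have h3 := h2.comp_hasDerivAt (0:ℝ) hV
    refine h3.congr_of_eventuallyEq ?_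
    filter_upwards [hbm.continuous.continuousAt.eventually (isOpen_compl_singleton.mem_nhds hO)]
      with t ht
    show (g (α (σ t)) : E3) = (g (q (p (α (σ t)))) : E3)
    rw [hpq.qp _ ht]
  refine ⟨v', hv'0, fun t => g (α (σ t)), hgb.contDiffOn, fun t _ => hW _ (hαW _ (hσm t)), ?_,
    hd.deriv⟩
  show g (α (σ 0)) = g x
  rw [hσ0, hα0]

theorem spt_back {f fi : S2 → S2} {ν : Measure S2} (hS : Sys f fi ν) {x : S2} (h : SPt f x) :
    SPt f (fi x) := by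
  obtain ⟨Q, v, hQ, hv⟩ := h
  obtain ⟨v', hv'⟩ := SL_tangent hS.cfi hS.cf hS.fif hS.ffi
    (W := stableSet f Q) (W' := stableSet f (fi Q)) (fun y hy => SL_stab hS hy) hv
  exact ⟨fi Q, v', SL_hyp hS hQ, hv'⟩

theorem SL_image {f fi : S2 → S2} {ν : Measure S2} (hS : Sys f fi ν) {B : Set S2}
    (hB : MeasurableSet B) (n : ℕ) :
    MeasurableSet (f^[n] '' B) ∧ ν (f^[n] '' B) = ν B := by
  induction n with
  | zero => simp [hB]
  | succ n ih =>
    have h1 : f^[n + 1] '' B = f '' (f^[n] '' B) := by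
      rw [Function.iterate_succ', image_comp]
    have h2 : f '' (f^[n] '' B) = fi ⁻¹' (f^[n] '' B) := by
      ext y
      constructor
      · rintro ⟨x, hx, rfl⟩
        show fi (f x) ∈ f^[n] '' B
        rw [hS.fif]; exact hx
      · intro hy
        exact ⟨fi y, hy, hS.ffi y⟩
    rw [h1]
    refine ⟨?_, (hS.inv _ ih.1).trans ih.2⟩
    rw [h2]
    exact hS.cfi.continuous.measurable ih.1

theorem SL_inv {f fi : S2 → S2} (hffi : ∀ x, f (fi x) = x) (n : ℕ) :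
    ∀ x : S2, f^[n] (fi^[n] x) = x := by
  induction n with
  | zero => intro x; rfl
  | succ n ih =>
    intro x
    rw [Function.iterate_succ_apply, Function.iterate_succ_apply', hffi, ih]

/-- a principal point of a fixed prime end is a fixed point -/
theorem SL_fix {f fi : S2 → S2} {ν : Measure S2} (hS : Sys f fi ν) {K : Set S2}
    (hK : IsClosed K) {φ : ℂ → S2} {u : S2 → ℂ} (hD : DiscMap K φ u) {m : ℕ}
    (hm : f^[m] '' K = K) {hb hbi : ℂ → ℂ}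
    (hE : EndMap φ u (f^[m]) (fi^[m]) hb hbi) {ζ : ℂ} (hζ : ‖ζ‖ = 1) (hfix : hb ζ = ζ)
    {P P' : S2} (hP : P ∈ K) (hPr : Principal φ ζ P) {χ : S2 → ℂ} {κ : ℂ → S2}
    (hχ : PChart K P P' χ κ) : f^[m] P = P := by
  have hg : Continuous (f^[m]) := (SL_iter hS.cf m).continuous
  have hgi : Continuous (fi^[m]) := (SL_iter hS.cfi m).continuous
  have hggi := SL_inv hS.ffi m
  have hgig := SL_inv hS.fif m
  have hfin : ∃ ρ > 0, ν (φ '' (ball 0 1 ∩ ball ζ ρ)) < ⊤ :=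
    ⟨1, one_pos, lt_of_le_of_lt (measure_mono (subset_univ _)) hS.fin⟩
  obtain ⟨μ, H⟩ := fixPE_of hK hD hg hgi hggi hgig hm ν
    (fun B _ hB => (SL_image hS hB m).2) (fun O _ hO hne => hS.pos O hO hne) hχ hP hζ hfin
    (fixes_end hE hζ hfix) hPr (r₀ := 1) one_pos
  have hnear := near_fixed H
  choose z hzW hz1 hz2 using fun n : ℕ => hnear (1 / ((n : ℝ) + 1)) (by positivity)
  have hlim : Tendsto (fun n : ℕ => 1 / ((n : ℝ) + 1)) atTop (𝓝 0) :=
    tendsto_one_div_add_atTop_nhds_zero_nat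
  have t1 : Tendsto z atTop (𝓝 0) :=
    squeeze_zero_norm (fun n => (hz1 n).le) hlim
  have t2 : Tendsto (fun n => χ (f^[m] (κ (z n)))) atTop (𝓝 0) :=
    squeeze_zero_norm (fun n => (hz2 n).le) hlim
  have t3 : Tendsto (fun n => f^[m] (κ (z n))) atTop (𝓝 (f^[m] P)) := by
    have := ((hg.comp hχ.κ_cont).tendsto 0).comp t1
    rw [comp_apply, hχ.κ0] at this
    exact this
  have t4 : Tendsto (fun n => κ (χ (f^[m] (κ (z n))))) atTop (𝓝 P) := by
    have := (hχ.κ_cont.tendsto 0).comp t2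
    rw [hχ.κ0] at this
    exact this
  have e : (fun n => κ (χ (f^[m] (κ (z n))))) = fun n => f^[m] (κ (z n)) := by
    funext n
    apply hχ.κχ
    intro h
    have h1 : κ (z n) ∈ Kᶜ := hzW n
    apply h1
    have h2 : f^[m] (κ (z n)) ∈ f^[m] '' K := by rw [hm, h]; exact hχ.hP'
    obtain ⟨k, hk, hke⟩ := h2
    have h3 := congrArg (fi^[m]) hke
    rw [hgig, hgig] at h3
    rw [← h3]; exact hk
  rw [e] at t4
  exact tendsto_nhds_unique t3 t4

/-- a curve along an axis -/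
theorem SL_axis {O : S2} {χ : S2 → ℂ} {κ : ℂ → S2} (h : PC1 O χ κ) {W : Set S2} {z d : ℂ}
    (hd : d ≠ 0) (hW : ∀ t ∈ Ioo (-1:ℝ) 1, κ (z + (t : ℂ) * d) ∈ W) :
    TangentTo W (κ z) (fderiv ℝ (fun z : ℂ => (κ z : E3)) z d) := by
  obtain ⟨hc, hinj⟩ := vel_emb h
  have hl : ContDiff ℝ 1 (fun t : ℝ => z + (t : ℂ) * d) := by
    have : ContDiff ℝ 1 (fun t : ℝ => (t : ℂ)) := Complex.ofRealCLM.contDiff
    exact contDiff_const.add (this.mul contDiff_const)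
  have hld : HasDerivAt (fun t : ℝ => z + (t : ℂ) * d) d 0 := by
    have h1 : HasDerivAt (fun t : ℝ => (t : ℂ)) 1 (0:ℝ) := Complex.ofRealCLM.hasDerivAt
    have := (h1.mul_const d).const_add z
    simpa using this
  refine ⟨?_, fun t => κ (z + (t : ℂ) * d), (hc.comp hl).contDiffOn, hW, by simp, ?_⟩
  · intro h0
    apply hd
    apply hinj z
    rw [h0, map_zero]
  · have h2 : HasFDerivAt (fun z : ℂ => (κ z : E3)) (fderiv ℝ (fun z : ℂ => (κ z : E3)) z)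
        (z + ((0:ℝ) : ℂ) * d) := by
      have : z + ((0:ℝ) : ℂ) * d = z := by simp
      rw [this]
      exact (hc.differentiable (by norm_num)).differentiableAt.hasFDerivAt
    exact (h2.comp_hasDerivAt (0:ℝ) hld).deriv

/-- a continuous curve in a stable set through a point of `K` stays in `K` -/
theorem SL_inK {f : S2 → S2} {V K : Set S2} (hC : CompK f V K) {Q : S2}
    (hQ : Q ∈ periodicPts f) {T : Set ℝ} (hT : IsPreconnected T) {α : ℝ → S2}
    (hα : ContinuousOn α T) (hs : ∀ t ∈ T, α t ∈ stableSet f Q) {t₀ : ℝ} (ht₀ : t₀ ∈ T)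
    (hK : α t₀ ∈ K) : ∀ t ∈ T, α t ∈ K := by
  have h1 : α '' T ⊆ K := by
    refine hC.K_max _ (hT.image α hα) ?_ ⟨α t₀, ⟨t₀, ht₀, rfl⟩, hK⟩
    refine Disjoint.mono_left ?_ (hC.V_stab Q hQ).symm
    rintro _ ⟨t, ht, rfl⟩
    exact hs t ht
  intro t ht
  exact h1 ⟨t, ht, rfl⟩

/-- crossing -/
theorem SL_cross {f fi : S2 → S2} {ν : Measure S2} (hS : Sys f fi ν) {V K : Set S2}
    (hC : CompK f V K) {O : S2} {χ : S2 → ℂ} {κ : ℂ → S2} (h : PC1 O χ κ) {P : S2}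
    (hP : Hyperbolic f P) {y e : ℝ} (he : 0 < e)
    (hu : ∀ t ∈ Ioo (-1:ℝ) 1, κ ⟨0, y + t * e⟩ ∈ stableSet fi P)
    (hK : κ ⟨0, y⟩ ∈ K) (hSP : SPt f (κ ⟨0, y⟩)) {ε : ℝ} (hε : 0 < ε) :
    (∃ z ∈ ball (⟨0, y⟩ : ℂ) ε, 0 < z.re ∧ κ z ∈ K) ∧
      ∃ z ∈ ball (⟨0, y⟩ : ℂ) ε, z.re < 0 ∧ κ z ∈ K := by
  obtain ⟨Q, v, hQ, hT⟩ := hSP
  have hT' := hT
  obtain ⟨hv, α, hα, hαW, hα0, hαv⟩ := hT'
  set D := fderiv ℝ (fun z : ℂ => (κ z : E3)) ⟨0, y⟩ with hD
  have hI0 : (0:ℝ) ∈ Ioo (-1:ℝ) 1 := by constructor <;> norm_num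
  have hw : TangentTo (stableSet fi P) (κ ⟨0, y⟩) (D ((e : ℂ) * Complex.I)) := by
    refine SL_axis h ?_ ?_
    · simp [he.ne']
    · intro t ht
      have := hu t ht
      convert this using 2
      apply Complex.ext <;> simp
  have hx : κ ⟨0, y⟩ ∈ stableSet f Q ∩ stableSet fi P := by
    refine ⟨?_, ?_⟩
    · rw [← hα0]; exact hαW 0 hI0
    · have := hu 0 hI0
      simpa using this
  have hli := hS.h2 Q P hQ hP _ hx v _ hT hw
  have hα' : HasDerivAt (fun t => (α t : E3)) v 0 := by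
    have h1 : DifferentiableAt ℝ (fun t => (α t : E3)) 0 :=
      (hα.differentiableOn (by norm_num)).differentiableAt (isOpen_Ioo.mem_nhds hI0)
    rw [← hαv]
    exact h1.hasDerivAt
  have hO : α 0 ≠ O := by rw [hα0]; exact h.κ_ne _
  obtain ⟨V', hV', hvV⟩ := vel_chart h hα' hO
  have hχ0 : χ (α 0) = ⟨0, y⟩ := by rw [hα0, h.χκ]
  rw [hχ0, ← hD] at hvV
  have hre : V'.re ≠ 0 := by
    intro h0
    have e1 : V' = (V'.im / e : ℝ) • ((e : ℂ) * Complex.I) := by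
      apply Complex.ext
      · simp [h0]
      · simp
        field_simp
    have e2 : v = (V'.im / e : ℝ) • D ((e : ℂ) * Complex.I) := by
      rw [hvV, ← map_smul, ← e1]
    rw [LinearIndependent.pair_iff] at hli
    have := hli 1 (-(V'.im / e)) (by rw [e2]; module)
    exact one_ne_zero this.1
  -- the curve stays in `K`
  have hαc : ContinuousOn α (Ioo (-1:ℝ) 1) := by
    have h1 : ContinuousOn (fun t => (α t : E3)) (Ioo (-1:ℝ) 1) := hα.continuousOn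
    rw [continuousOn_iff_continuous_domRestrict] at h1 ⊢
    exact continuous_induced_rng.2 h1
  have hαK : ∀ t ∈ Ioo (-1:ℝ) 1, α t ∈ K :=
    SL_inK hC hQ.1 isPreconnected_Ioo hαc hαW hI0 (by rw [hα0]; exact hK)
  have hcont0 : ContinuousAt α 0 := hαc.continuousAt (isOpen_Ioo.mem_nhds hI0)
  have hev1 : ∀ᶠ t in 𝓝 (0:ℝ), α t ≠ O := hcont0.eventually (isOpen_compl_singleton.mem_nhds hO)
  have hev2 : ∀ᶠ t in 𝓝 (0:ℝ), χ (α t) ∈ ball (⟨0, y⟩ : ℂ) ε := by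
    have := hV'.continuousAt
    have h3 : Tendsto (fun t => χ (α t)) (𝓝 0) (𝓝 (⟨0, y⟩ : ℂ)) := by
      have h4 : Tendsto (fun t => χ (α t)) (𝓝 0) (𝓝 (χ (α 0))) := this
      rwa [hχ0] at h4
    exact h3 (ball_mem_nhds _ hε)
  have hev3 : ∀ᶠ t in 𝓝 (0:ℝ), t ∈ Ioo (-1:ℝ) 1 := isOpen_Ioo.mem_nhds hI0
  -- the sign of the real part
  have hR : HasDerivAt (fun t => (χ (α t)).re) V'.re 0 := by
    have := Complex.reCLM.hasFDerivAt.comp_hasDerivAt (0:ℝ) hV'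
    exact this
  have hR0 : (χ (α 0)).re = 0 := by rw [hχ0]
  have hsl : Tendsto (fun t => t⁻¹ * (χ (α t)).re) (𝓝[≠] 0) (𝓝 V'.re) := by
    have h5 := hasDerivAt_iff_tendsto_slope_zero.1 hR
    refine h5.congr ?_
    intro t
    rw [zero_add, hR0, sub_zero, smul_eq_mul]
  have hall : ∀ s : ℝ, s ≠ 0 → ∃ z ∈ ball (⟨0, y⟩ : ℂ) ε, 0 < s * z.re ∧ κ z ∈ K := by
    intro s hs
    have hpos : 0 < V'.re * V'.re := mul_self_pos.2 hre
    have h6 : ∀ᶠ t in 𝓝[≠] (0:ℝ), 0 < V'.re * (t⁻¹ * (χ (α t)).re) := by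
      have := (hsl.const_mul V'.re).eventually (lt_mem_nhds hpos)
      exact this
    have h7 : ∀ᶠ t in 𝓝[≠] (0:ℝ), 0 < V'.re * (t⁻¹ * (χ (α t)).re) ∧ α t ≠ O ∧
        χ (α t) ∈ ball (⟨0, y⟩ : ℂ) ε ∧ t ∈ Ioo (-1:ℝ) 1 :=
      h6.and ((hev1.filter_mono nhdsWithin_le_nhds).and
        ((hev2.filter_mono nhdsWithin_le_nhds).and (hev3.filter_mono nhdsWithin_le_nhds)))
    -- choose the sign of `t`
    have h8 : Tendsto (fun n : ℕ => (s * V'.re) * (1 / ((n : ℝ) + 1))) atTop (𝓝[≠] 0) := by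
      rw [tendsto_nhdsWithin_iff]
      constructor
      · have := tendsto_one_div_add_atTop_nhds_zero_nat (𝕜 := ℝ)
        simpa using this.const_mul (s * V'.re)
      · refine Eventually.of_forall fun n => ?_
        have : (0:ℝ) < 1 / ((n : ℝ) + 1) := by positivity
        exact mul_ne_zero (mul_ne_zero hs hre) this.ne'
    obtain ⟨n, hn⟩ := (h8.eventually h7).exists
    obtain ⟨h9, h10, h11, h12⟩ := hn
    set t := (s * V'.re) * (1 / ((n : ℝ) + 1)) with ht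
    refine ⟨χ (α t), h11, ?_, ?_⟩
    · have hc : (0:ℝ) < 1 / ((n : ℝ) + 1) := by positivity
      have ht0 : t ≠ 0 := mul_ne_zero (mul_ne_zero hs hre) hc.ne'
      have h13 : 0 < (V'.re * (t⁻¹ * (χ (α t)).re)) * t ^ 2 := by positivity
      have h14 : (V'.re * (t⁻¹ * (χ (α t)).re)) * t ^ 2 =
          (V'.re ^ 2 * (1 / ((n : ℝ) + 1))) * (s * (χ (α t)).re) := by
        have : (V'.re * (t⁻¹ * (χ (α t)).re)) * t ^ 2 = V'.re * (χ (α t)).re * t := by
          field_simp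
        rw [this, ht]; ring
      rw [h14] at h13
      exact (pos_iff_pos_of_mul_pos h13).1 (by positivity)
    · rw [h.κχ _ h10]
      exact hαK t h12
  constructor
  · obtain ⟨z, hz, h1, h2⟩ := hall 1 one_ne_zero
    exact ⟨z, hz, by linarith, h2⟩
  · obtain ⟨z, hz, h1, h2⟩ := hall (-1) (by norm_num)
    exact ⟨z, hz, by linarith, h2⟩

theorem SL_tr1 {f : S2 → S2} (m : ℕ) (P : S2) : tr (f^[m]) 1 P = tr f m P := by
  unfold tr
  rw [iterDeriv_iter]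

theorem sphere_loc {f fi : S2 → S2} {ν : Measure S2} (hS : Sys f fi ν) {V K : Set S2}
    (hC : CompK f V K) (hn : K.Nontrivial) {φ : ℂ → S2} {u : S2 → ℂ} (hD : DiscMap K φ u) {m : ℕ}
    (hm0 : 0 < m) (hm : f^[m] '' K = K) {hb hbi : ℂ → ℂ}
    (hE : EndMap φ u (f^[m]) (fi^[m]) hb hbi) {ζ : ℂ} (hζ : ‖ζ‖ = 1) (hfix : hb ζ = ζ) :
    ∃ P ∈ K, Principal φ ζ P ∧ (EllPt K (f^[m]) P ∨
      ∃ (P' : S2) (χ : S2 → ℂ) (κ : ℂ → S2) (r lp km kp : ℝ),
        HypChart K (SPt f) (f^[2 * m]) P P' χ κ r lp km kp) := by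
  obtain ⟨P, hP, hPr⟩ := exists_principal hC.K_closed hD hζ
  refine ⟨P, hP, hPr, ?_⟩
  obtain ⟨P', hP', hne⟩ := hn.exists_ne P
  have hne' : P ≠ P' := hne.symm
  obtain ⟨p, q, hpq⟩ := exists_SC P'
  have hPC : PC1 P' p q := ⟨hpq.q_smooth, hpq.p_smooth, hpq.q_ne, hpq.pq, hpq.qp⟩
  have hPC0 : PC1 P' (fun x => p x - p P) (fun z => q (z + p P)) :=
    pc1_plane hPC (Φ := fun z => z - p P) (Φi := fun z => z + p P)
      (contDiff_id.sub contDiff_const) (contDiff_id.add contDiff_const)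
      (fun z => by ring) (fun z => by ring)
  have hχ := pchart_of_pc1 (P := P) hPC0 hP' (by
    show q (0 + p P) = P
    rw [zero_add]; exact hpq.qp P hne')
  have hfixP : f^[m] P = P := SL_fix hS hC.K_closed hD hm hE hζ hfix hP hPr hχ
  have hper : P ∈ periodicPts f := mk_mem_periodicPts hm0 hfixP
  rcases trichotomy hS hm0 hfixP with htr | ⟨hyp, htr⟩
  · left
    obtain ⟨χ, κ, w₁, h1, h2, h3, h4, h5⟩ := ell_chart (SL_iter hS.cf m) hfixP hne'
      (by rw [iterDeriv_iter]; exact hS.det1 P m hfixP) (by rw [SL_tr1]; exact htr)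
    refine ⟨P', χ, κ, w₁, pchart_of_pc1 h1 hP' h2, h3, h4, ?_⟩
    refine h5.mono_left (nhdsWithin_mono _ ?_)
    intro z hz h0
    have h0' : z = 0 := h0
    rw [h0'] at hz
    apply hz
    rw [h2]; exact hP
  · right
    have hfix2 : f^[2 * m] P = P := by
      rw [two_mul, Function.iterate_add_apply, hfixP, hfixP]
    have htr2 : 2 < tr (f^[2 * m]) 1 P := by
      rw [SL_tr1, tr_two hS hfixP]
      have : (2:ℝ) ^ 2 < tr f m P ^ 2 := by
        rw [← sq_abs (tr f m P)]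
        exact pow_lt_pow_left₀ htr (by norm_num) (by norm_num)
      linarith
    obtain ⟨χ, κ, r, lp, km, kp, h1, h2, h3, h4⟩ := hyp_chart (SL_iter hS.cf (2 * m)) hfix2 hne'
      (by rw [iterDeriv_iter]; exact hS.det1 P _ hfix2) htr2
    have h2m : 0 < 2 * m := by omega
    have hr := h3.hr
    have hst : ∀ x : ℝ, |x| ≤ r → κ ⟨x, 0⟩ ∈ stableSet f P := fun x hx =>
      axis_stable hS.cf.continuous h2m h1 h2 hfix2 h3 h4 hx
    have hun : ∀ y : ℝ, |y| ≤ r → κ ⟨0, y⟩ ∈ stableSet fi P := fun y hy =>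
      axis_unstable hS.cf.continuous hS.cfi.continuous hS.ffi hS.fif h2m h1 h2 hfix2 h3 h4 hy
    refine ⟨P', χ, κ, r, lp, km, kp, pchart_of_pc1 h1 hP' h2, h3, h4, ?_, ?_, ?_⟩
    · intro x hx
      have hcont : Continuous (fun t : ℝ => κ ⟨t, 0⟩) := by
        have h5 : Continuous (fun t : ℝ => (⟨t, 0⟩ : ℂ)) := by
          have : (fun t : ℝ => (⟨t, 0⟩ : ℂ)) = fun t : ℝ => (t : ℂ) := rfl
          rw [this]; exact Complex.continuous_ofReal
        exact h1.κ_smooth.continuous.comp h5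
      refine SL_inK hC hper (T := Icc (-r) r) isPreconnected_Icc (α := fun t : ℝ => κ ⟨t, 0⟩)
        hcont.continuousOn (fun t ht => hst t (abs_le.2 ht)) (t₀ := 0)
        ⟨by linarith, hr.le⟩ ?_ x (abs_le.1 hx)
      show κ ⟨0, 0⟩ ∈ K
      have : (⟨0, 0⟩ : ℂ) = 0 := rfl
      rw [this, h2]; exact hP
    · intro x _ hx
      refine ⟨P, _, hyp, SL_axis h1 (z := ⟨x, 0⟩) (d := ((r - |x| : ℝ) : ℂ)) ?_ ?_⟩
      · have : r - |x| ≠ 0 := by linarith
        exact_mod_cast this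
      · intro t ht
        have h5 : (⟨x, 0⟩ : ℂ) + (t : ℂ) * ((r - |x| : ℝ) : ℂ) = ⟨x + t * (r - |x|), 0⟩ := by
          apply Complex.ext <;> simp
        rw [h5]
        apply hst
        have h6 : |t * (r - |x|)| ≤ r - |x| := by
          rw [abs_mul, abs_of_nonneg (by linarith : 0 ≤ r - |x|)]
          have : |t| ≤ 1 := abs_le.2 ⟨ht.1.le, ht.2.le⟩
          nlinarith [abs_nonneg t]
        calc |x + t * (r - |x|)| ≤ |x| + |t * (r - |x|)| := abs_add_le _ _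
          _ ≤ r := by linarith
    · intro y _ hy hyK hySP ε hε
      refine SL_cross hS hC h1 hyp (e := r - |y|) (by linarith) ?_ hyK hySP hε
      intro t ht
      apply hun
      have h6 : |t * (r - |y|)| ≤ r - |y| := by
        rw [abs_mul, abs_of_nonneg (by linarith : 0 ≤ r - |y|)]
        have : |t| ≤ 1 := abs_le.2 ⟨ht.1.le, ht.2.le⟩
        nlinarith [abs_nonneg t]
      calc |y + t * (r - |y|)| ≤ |y| + |t * (r - |y|)| := abs_add_le _ _
        _ ≤ r := by linarith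

end DS

end S_H36_DS_SL
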