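import Pool.Agent.H12.KS.K03
import Pool.Agent.H12.KS.K09
import Pool.Agent.H12.KS.K21
import Pool.Agent.H12.KS.K22
import Pool.Agent.H12.KS.K28
import Pool.Agent.H12.KS.K31
import Pool.Agent.H36.DS.Surf

/-! Joined modules of the proof of MP_8a27c0_an (one section per module). -/

section S_H36_DS_BD

/-!
BD (area forms on the sphere).  Let `om` be an area form on `S` in the sense of `Surf`, `Ψ : S2 → S` a diffeomorphism, and
`om' x v w = om (Ψ x) (DΨ v) (DΨ w)` (alternating, nonzero, on the two dimensional tangent spaces of the sphere).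
`A x v w = det3 x (emb x v) (emb x w)` is also a nonzero alternating form (`emb x` is injective with values orthogonal to
`x`).  So there is a unique `ρ x ≠ 0` with `om' x v w = ρ x * A x v w` for all `v, w`.  `ρ` is continuous: for the stereographic chart
`q : ℂ → S2` with pole `O` (`exists_SC`, `C¹`), `ρ (q z) = om (Ψ (q z)) (D(Ψ∘q) 1) (D(Ψ∘q) I) / A (q z) (Dq 1) (Dq I)`; the numerator is
continuous by `IsAreaForm.cont` (chain rule for `mfderiv (Ψ ∘ q)`), the denominator is `det3 (q z) (∂₁ q) (∂₂ q)` with the continuous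
partial derivatives of `q : ℂ → E3`.  `q` is an open embedding onto `{O}ᶜ`; two poles cover the sphere.
The sphere is connected, so `ρ` has constant sign; replace it by its absolute value (`|ρ|` also satisfies the invariance
equation: if `ρ < 0` use `-ρ`).  `f' = Ψ.symm ∘ f ∘ Ψ` preserves `om'` (chain rule), i.e. `PreservesArea ρ f'`.
-/

namespace DS
open Metric Set Filter Topology Function
open scoped Manifold ContDiff

private theorem BD_basis (v : E2) : v = v 0 • (EuclideanSpace.single 0 1 : E2) +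
    v 1 • (EuclideanSpace.single 1 1 : E2) := by
  ext i
  fin_cases i <;> simp

private theorem BD_form (B : E2 →ₗ[ℝ] E2 →ₗ[ℝ] ℝ) (hB : ∀ v, B v v = 0) (v w : E2) :
    B v w = (v 0 * w 1 - v 1 * w 0) *
      B (EuclideanSpace.single 0 1) (EuclideanSpace.single 1 1) := by
  set x : E2 := EuclideanSpace.single 0 1 with hx
  set y : E2 := EuclideanSpace.single 1 1 with hy
  have h1 : B y x = - B x y := by
    have h := hB (x + y)
    simp only [map_add, LinearMap.add_apply, hB] at h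
    linarith
  conv_lhs => rw [BD_basis v, BD_basis w]
  simp only [← hx, ← hy, map_add, map_smul, LinearMap.add_apply, LinearMap.smul_apply, hB, h1,
    smul_eq_mul]
  ring

private theorem BD_det3 (p x y : E3) (a b c d : ℝ) :
    det3 p (a • x + b • y) (c • x + d • y) = (a * d - b * c) * det3 p x y := by
  simp [det3, Matrix.det_fin_three]
  ring

private theorem BD_detE (T : E2 →ₗ[ℝ] E3) (p : E3) (v w : E2) :
    det3 p (T v) (T w) = (v 0 * w 1 - v 1 * w 0) *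
      det3 p (T (EuclideanSpace.single 0 1)) (T (EuclideanSpace.single 1 1)) := by
  conv_lhs => rw [BD_basis v, BD_basis w]
  rw [map_add, map_add, map_smul, map_smul, map_smul, map_smul, BD_det3]

private theorem BD_detC (T : ℂ →ₗ[ℝ] E3) (p : E3) (v w : ℂ) :
    det3 p (T v) (T w) = (v.re * w.im - v.im * w.re) * det3 p (T 1) (T Complex.I) := by
  have h : ∀ v : ℂ, v = v.re • (1 : ℂ) + v.im • Complex.I := by
    intro v
    apply Complex.ext <;> simp
  conv_lhs => rw [h v, h w]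
  rw [map_add, map_add, map_smul, map_smul, map_smul, map_smul, BD_det3]

/-- two vectors orthogonal to a vector with nonzero determinant -/
private theorem BD_vec (x : E3) (hx : x ≠ 0) : ∃ v w : E3, inner ℝ x v = 0 ∧ inner ℝ x w = 0 ∧
    det3 x v w ≠ 0 := by
  have hx' : x 0 ≠ 0 ∨ x 1 ≠ 0 ∨ x 2 ≠ 0 := by
    by_contra hc
    push Not at hc
    apply hx
    ext i
    fin_cases i
    · exact hc.1
    · exact hc.2.1
    · exact hc.2.2
  by_cases h01 : x 0 = 0 ∧ x 1 = 0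
  · have h2 : x 2 ≠ 0 := by tauto
    refine ⟨!₂[1, 0, 0], !₂[0, 1, 0], ?_, ?_, ?_⟩
    · simp [PiLp.inner_apply, Fin.sum_univ_three, h01.1, h01.2]
    · simp [PiLp.inner_apply, Fin.sum_univ_three, h01.1, h01.2]
    · simp [det3, Matrix.det_fin_three, h01.1, h01.2, h2]
  · refine ⟨!₂[-x 1, x 0, 0], !₂[-(x 2 * x 0), -(x 2 * x 1), x 0 * x 0 + x 1 * x 1], ?_, ?_, ?_⟩
    · simp [PiLp.inner_apply, Fin.sum_univ_three]; ring
    · simp [PiLp.inner_apply, Fin.sum_univ_three]; ring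
    · have : det3 x !₂[-x 1, x 0, 0] !₂[-(x 2 * x 0), -(x 2 * x 1), x 0 * x 0 + x 1 * x 1] =
          (x 0 ^ 2 + x 1 ^ 2) * (x 0 ^ 2 + x 1 ^ 2 + x 2 ^ 2) := by
        simp [det3, Matrix.det_fin_three]; ring
      rw [this]
      have h1 : 0 < x 0 ^ 2 + x 1 ^ 2 := by
        rcases not_and_or.1 h01 with h | h
        · positivity
        · positivity
      have h2 : 0 < x 0 ^ 2 + x 1 ^ 2 + x 2 ^ 2 := by positivity
      positivity

/-- the derivative of the inclusion of the sphere -/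
private noncomputable def BD_T (x : S2) : E2 →L[ℝ] E3 :=
  mfderiv (𝓡 2) 𝓘(ℝ, E3) (fun y : S2 => (y : E3)) x

private theorem BD_nonzero (P : S2) : ∃ a b : E2, det3 P (BD_T P a) (BD_T P b) ≠ 0 := by
  have hPn : ‖(P : E3)‖ = 1 := by simp
  have hP0 : (P : E3) ≠ 0 := by
    intro h
    rw [h] at hPn
    simp at hPn
  obtain ⟨v, w, hv, hw, hD⟩ := BD_vec (P : E3) hP0
  have hrange := range_mfderiv_coe_sphere (n := 2) P
  have hmem : ∀ u : E3, inner ℝ (P : E3) u = 0 → ∃ e : E2, BD_T P e = u := by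
    intro u hu
    have h3 : u ∈ (ℝ ∙ (P : E3))ᗮ := by
      rw [Submodule.mem_orthogonal_singleton_iff_inner_right]
      exact hu
    rw [← hrange] at h3
    obtain ⟨e, he⟩ := h3
    exact ⟨e, he⟩
  obtain ⟨a, rfl⟩ := hmem v hv
  obtain ⟨b, rfl⟩ := hmem w hw
  exact ⟨a, b, hD⟩

private theorem BD_den0 (x : S2) : det3 x (BD_T x (EuclideanSpace.single 0 1))
    (BD_T x (EuclideanSpace.single 1 1)) ≠ 0 := by
  obtain ⟨a, b, h⟩ := BD_nonzero x
  have h1 := BD_detE (BD_T x : E2 →ₗ[ℝ] E3) x a b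
  simp only [ContinuousLinearMap.coe_coe] at h1
  intro h2
  rw [h2, mul_zero] at h1
  exact h h1

section

variable {S : Type*} [MetricSpace S] [ChartedSpace E2 S] [IsManifold (𝓡 2) ∞ S]

/-- the derivative of the diffeomorphism -/
private noncomputable def BD_D (Ψ : Diffeomorph (𝓡 2) (𝓡 2) S2 S ∞) (x : S2) : E2 →L[ℝ] E2 :=
  mfderiv (𝓡 2) (𝓡 2) Ψ x

/-- the pulled back form -/
private noncomputable def BD_om (Ψ : Diffeomorph (𝓡 2) (𝓡 2) S2 S ∞)
    (om : ∀ x : S, TangentSpace (𝓡 2) x →ₗ[ℝ] TangentSpace (𝓡 2) x →ₗ[ℝ] ℝ) (x : S2) :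
    E2 →ₗ[ℝ] E2 →ₗ[ℝ] ℝ :=
  LinearMap.compl₁₂ (om (Ψ x)) (BD_D Ψ x : E2 →ₗ[ℝ] E2) (BD_D Ψ x : E2 →ₗ[ℝ] E2)

omit [IsManifold (𝓡 2) ∞ S] in
private theorem BD_om_apply (Ψ : Diffeomorph (𝓡 2) (𝓡 2) S2 S ∞)
    (om : ∀ x : S, TangentSpace (𝓡 2) x →ₗ[ℝ] TangentSpace (𝓡 2) x →ₗ[ℝ] ℝ) (x : S2) (v w : E2) :
    BD_om Ψ om x v w = om (Ψ x) (mfderiv (𝓡 2) (𝓡 2) Ψ x v) (mfderiv (𝓡 2) (𝓡 2) Ψ x w) := rfl

private noncomputable def BD_rho (Ψ : Diffeomorph (𝓡 2) (𝓡 2) S2 S ∞)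
    (om : ∀ x : S, TangentSpace (𝓡 2) x →ₗ[ℝ] TangentSpace (𝓡 2) x →ₗ[ℝ] ℝ) (x : S2) : ℝ :=
  BD_om Ψ om x (EuclideanSpace.single 0 1) (EuclideanSpace.single 1 1) /
    det3 x (BD_T x (EuclideanSpace.single 0 1)) (BD_T x (EuclideanSpace.single 1 1))

omit [IsManifold (𝓡 2) ∞ S] in
private theorem BD_key (Ψ : Diffeomorph (𝓡 2) (𝓡 2) S2 S ∞)
    (om : ∀ x : S, TangentSpace (𝓡 2) x →ₗ[ℝ] TangentSpace (𝓡 2) x →ₗ[ℝ] ℝ)
    (hom : Surf.IsAreaForm om) (x : S2) (v w : E2) :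
    BD_om Ψ om x v w = BD_rho Ψ om x * det3 x (BD_T x v) (BD_T x w) := by
  have h1 := BD_form (BD_om Ψ om x) (fun v => hom.alt _ _) v w
  have h2 := BD_detE (BD_T x : E2 →ₗ[ℝ] E3) x v w
  simp only [ContinuousLinearMap.coe_coe] at h2
  rw [h1, h2, BD_rho]
  have := BD_den0 x
  field_simp

omit [IsManifold (𝓡 2) ∞ S] in
private theorem BD_surj (Ψ : Diffeomorph (𝓡 2) (𝓡 2) S2 S ∞) (x : S2) (u : E2) :
    ∃ v : E2, BD_D Ψ x v = u := by
  have h1 : MDifferentiableAt (𝓡 2) (𝓡 2) Ψ x :=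
    (Ψ.contMDiff.contMDiffAt).mdifferentiableAt (by simp)
  have h2 : MDifferentiableAt (𝓡 2) (𝓡 2) Ψ.symm (Ψ x) :=
    (Ψ.symm.contMDiff.contMDiffAt).mdifferentiableAt (by simp)
  have h3 : mfderiv (𝓡 2) (𝓡 2) (Ψ.symm ∘ Ψ) x =
      (mfderiv (𝓡 2) (𝓡 2) Ψ.symm (Ψ x)).comp (mfderiv (𝓡 2) (𝓡 2) Ψ x) := mfderiv_comp x h2 h1
  have h4 : (Ψ.symm ∘ Ψ : S2 → S2) = id := by
    funext y
    exact Ψ.symm_apply_apply y
  rw [h4, mfderiv_id] at h3
  have hinj : Function.Injective (BD_D Ψ x : E2 →ₗ[ℝ] E2) := by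
    intro v w hvw
    have e1 : ∀ v : E2, (mfderiv (𝓡 2) (𝓡 2) Ψ.symm (Ψ x) : E2 →L[ℝ] E2) (BD_D Ψ x v) = v := by
      intro v
      exact (DFunLike.congr_fun h3 v).symm
    rw [← e1 v, ← e1 w]
    exact congrArg _ hvw
  exact LinearMap.injective_iff_surjective.1 hinj u

omit [IsManifold (𝓡 2) ∞ S] in
private theorem BD_rho_ne (Ψ : Diffeomorph (𝓡 2) (𝓡 2) S2 S ∞)
    (om : ∀ x : S, TangentSpace (𝓡 2) x →ₗ[ℝ] TangentSpace (𝓡 2) x →ₗ[ℝ] ℝ)
    (hom : Surf.IsAreaForm om) (x : S2) : BD_rho Ψ om x ≠ 0 := by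
  intro h
  obtain ⟨v, w, hvw⟩ := hom.ne (Ψ x)
  obtain ⟨v', rfl⟩ := BD_surj Ψ x v
  obtain ⟨w', rfl⟩ := BD_surj Ψ x w
  apply hvw
  have := BD_key Ψ om hom x v' w'
  rw [h, zero_mul] at this
  exact this


omit [IsManifold (𝓡 2) ∞ S] in
/-- continuity in a stereographic chart -/
private theorem BD_cont_chart (Ψ : Diffeomorph (𝓡 2) (𝓡 2) S2 S ∞)
    (om : ∀ x : S, TangentSpace (𝓡 2) x →ₗ[ℝ] TangentSpace (𝓡 2) x →ₗ[ℝ] ℝ)
    (hom : Surf.IsAreaForm om) {O : S2} {p : S2 → ℂ} {q : ℂ → S2} (h : SC O p q) :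
    Continuous (fun z => BD_rho Ψ om (q z)) := by
  have hq : ∀ z, MDifferentiableAt 𝓘(ℝ, ℂ) (𝓡 2) q z := fun z =>
    (h.q_smooth.contMDiffAt).mdifferentiableAt (by norm_num)
  have hΨ : ∀ x, MDifferentiableAt (𝓡 2) (𝓡 2) Ψ x := fun x =>
    (Ψ.contMDiff.contMDiffAt).mdifferentiableAt (by simp)
  have hc : ∀ x : S2, MDifferentiableAt (𝓡 2) 𝓘(ℝ, E3) (fun y : S2 => (y : E3)) x := fun x =>
    ((contMDiff_coe_sphere (m := 1)).contMDiffAt).mdifferentiableAt (by norm_num)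
  let Q : ℂ → (ℂ →L[ℝ] E2) := fun z => mfderiv 𝓘(ℝ, ℂ) (𝓡 2) q z
  let N : ℂ → ℝ := fun z => BD_om Ψ om (q z) (Q z 1) (Q z Complex.I)
  have hN : Continuous N := by
    have h1 := hom.cont (Ψ ∘ q) ((Ψ.contMDiff.of_le (by simp)).comp h.q_smooth)
    have h2 : N = (fun z => om ((Ψ ∘ q) z) (mfderiv 𝓘(ℝ, ℂ) (𝓡 2) (Ψ ∘ q) z (1:ℂ))
      (mfderiv 𝓘(ℝ, ℂ) (𝓡 2) (Ψ ∘ q) z Complex.I)) := by
      funext z
      have h3 : mfderiv 𝓘(ℝ, ℂ) (𝓡 2) (Ψ ∘ q) z =
          (mfderiv (𝓡 2) (𝓡 2) Ψ (q z)).comp (mfderiv 𝓘(ℝ, ℂ) (𝓡 2) q z) :=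
        mfderiv_comp z (hΨ _) (hq z)
      rw [h3]
      rfl
    rw [h2]
    exact h1
  -- the chart as a map into the space
  have hqE : ContDiff ℝ 1 (fun z => (q z : E3)) := by
    rw [← contMDiff_iff_contDiff]
    exact (contMDiff_coe_sphere (m := 1)).comp h.q_smooth
  have hqE' : ∀ (z w : ℂ), BD_T (q z) (Q z w) = fderiv ℝ (fun z => (q z : E3)) z w := by
    intro z w
    have h3 : mfderiv 𝓘(ℝ, ℂ) 𝓘(ℝ, E3) ((fun y : S2 => (y : E3)) ∘ q) z =
        (mfderiv (𝓡 2) 𝓘(ℝ, E3) (fun y : S2 => (y : E3)) (q z)).comp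
          (mfderiv 𝓘(ℝ, ℂ) (𝓡 2) q z) := mfderiv_comp z (hc _) (hq z)
    rw [mfderiv_eq_fderiv] at h3
    exact (DFunLike.congr_fun h3 w).symm
  have hfd : Continuous (fderiv ℝ (fun z => (q z : E3))) := hqE.continuous_fderiv (by norm_num)
  let M : ℂ → ℝ := fun z => det3 (q z) (BD_T (q z) (Q z 1)) (BD_T (q z) (Q z Complex.I))
  have hM : Continuous M := by
    have e0 : Continuous (fun z => (q z : E3)) := hqE.continuous
    have e1 : Continuous (fun z => fderiv ℝ (fun z => (q z : E3)) z 1) :=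
      hfd.clm_apply continuous_const
    have e2 : Continuous (fun z => fderiv ℝ (fun z => (q z : E3)) z Complex.I) :=
      hfd.clm_apply continuous_const
    have h2 : M = fun z => det3 (q z) (fderiv ℝ (fun z => (q z : E3)) z 1)
        (fderiv ℝ (fun z => (q z : E3)) z Complex.I) := by
      funext z
      change det3 (q z) (BD_T (q z) (Q z 1)) (BD_T (q z) (Q z Complex.I)) = _
      rw [hqE', hqE']
    rw [h2]
    have f0 : ∀ i : Fin 3, Continuous (fun z => (q z : E3) i) := fun i =>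
      (EuclideanSpace.proj i : E3 →L[ℝ] ℝ).continuous.comp e0
    have f1 : ∀ i : Fin 3, Continuous (fun z => (fderiv ℝ (fun z => (q z : E3)) z 1) i) := fun i =>
      (EuclideanSpace.proj i : E3 →L[ℝ] ℝ).continuous.comp e1
    have f2 : ∀ i : Fin 3, Continuous (fun z => (fderiv ℝ (fun z => (q z : E3)) z Complex.I) i) :=
      fun i => (EuclideanSpace.proj i : E3 →L[ℝ] ℝ).continuous.comp e2
    simp only [det3, Matrix.det_fin_three, Matrix.of_apply, Matrix.cons_val', Matrix.cons_val_zero,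
      Matrix.cons_val_one, Matrix.cons_val]
    fun_prop (disch := assumption)
  have hM0 : ∀ z, M z ≠ 0 := by
    intro z hz
    obtain ⟨a, b, hab⟩ := BD_nonzero (q z)
    -- surjectivity of the derivative
    have hp : MDifferentiableAt (𝓡 2) 𝓘(ℝ, ℂ) p (q z) :=
      (h.p_smooth.contMDiffAt (isOpen_compl_singleton.mem_nhds (h.q_ne z))).mdifferentiableAt
        (by norm_num)
    have h3 : mfderiv 𝓘(ℝ, ℂ) 𝓘(ℝ, ℂ) (p ∘ q) z =
        (mfderiv (𝓡 2) 𝓘(ℝ, ℂ) p (q z)).comp (mfderiv 𝓘(ℝ, ℂ) (𝓡 2) q z) :=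
      mfderiv_comp z hp (hq z)
    have h4 : p ∘ q = id := by
      funext y
      exact h.pq y
    rw [h4, mfderiv_id] at h3
    have hinj : Function.Injective (Q z : ℂ →ₗ[ℝ] E2) := by
      intro v w hvw
      have e1 : ∀ v : ℂ, (mfderiv (𝓡 2) 𝓘(ℝ, ℂ) p (q z) : E2 →L[ℝ] ℂ) (Q z v) = v := by
        intro v
        exact (DFunLike.congr_fun h3 v).symm
      rw [← e1 v, ← e1 w]
      exact congrArg _ hvw
    have hsurj : Function.Surjective (Q z : ℂ →ₗ[ℝ] E2) := by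
      refine (LinearMap.injective_iff_surjective_of_finrank_eq_finrank ?_).1 hinj
      simp [Complex.finrank_real_complex]
    obtain ⟨s, rfl⟩ := hsurj a
    obtain ⟨s', rfl⟩ := hsurj b
    have h5 := BD_detC ((BD_T (q z) ∘L Q z : ℂ →L[ℝ] E3) : ℂ →ₗ[ℝ] E3) (q z) s s'
    simp only [ContinuousLinearMap.coe_coe, ContinuousLinearMap.comp_apply] at h5
    apply hab
    refine h5.trans ?_
    have h6 : det3 (q z) (BD_T (q z) (Q z 1)) (BD_T (q z) (Q z Complex.I)) = 0 := hz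
    rw [h6, mul_zero]
  have hfin : (fun z => BD_rho Ψ om (q z)) = fun z => N z / M z := by
    funext z
    have h1 := BD_key Ψ om hom (q z) (Q z 1) (Q z Complex.I)
    rw [eq_div_iff (hM0 z)]
    exact h1.symm
  rw [hfin]
  exact hN.div hM hM0

omit [IsManifold (𝓡 2) ∞ S] in
private theorem BD_cont (Ψ : Diffeomorph (𝓡 2) (𝓡 2) S2 S ∞)
    (om : ∀ x : S, TangentSpace (𝓡 2) x →ₗ[ℝ] TangentSpace (𝓡 2) x →ₗ[ℝ] ℝ)
    (hom : Surf.IsAreaForm om) : Continuous (BD_rho Ψ om) := by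
  rw [continuous_iff_continuousAt]
  intro x
  obtain ⟨p, q, h⟩ := exists_SC (-x)
  have hne : x ≠ -x := by
    intro hx
    have h1 : (x : E3) = -(x : E3) := congrArg Subtype.val hx
    have h2 : ‖(x : E3)‖ = 1 := by simp
    have h3 : (x : E3) = 0 := by
      ext i
      have h4 := congrArg (fun v : E3 => v i) h1
      simp only [PiLp.neg_apply] at h4
      simp only [PiLp.zero_apply]
      linarith
    rw [h3] at h2
    simp at h2
  have hx : {-x}ᶜ ∈ 𝓝 x := isOpen_compl_singleton.mem_nhds hne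
  have h1 : ContinuousAt (fun y => BD_rho Ψ om (q (p y))) x := by
    have h2 : ContinuousAt p x := (h.p_smooth.continuousOn).continuousAt hx
    exact ContinuousAt.comp (g := fun z => BD_rho Ψ om (q z)) (BD_cont_chart Ψ om hom h).continuousAt h2
  refine h1.congr ?_
  filter_upwards [hx] with y hy
  rw [h.qp y hy]

end

theorem BD_area {S : Type*} [MetricSpace S] [ChartedSpace E2 S] [IsManifold (𝓡 2) ∞ S]
    (Ψ : Diffeomorph (𝓡 2) (𝓡 2) S2 S ∞) (f : Diffeomorph (𝓡 2) (𝓡 2) S S 1)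
    (om : ∀ x : S, TangentSpace (𝓡 2) x →ₗ[ℝ] TangentSpace (𝓡 2) x →ₗ[ℝ] ℝ)
    (hom : Surf.IsAreaForm om) (hf : Surf.PreservesArea om f) :
    ∃ ρ : S2 → ℝ, Continuous ρ ∧ (∀ x, 0 < ρ x) ∧
      PreservesArea ρ (fun y => Ψ.symm (f (Ψ y))) := by
  have hcont := BD_cont Ψ om hom
  have hne := BD_rho_ne Ψ om hom
  -- invariance
  have hinv : PreservesArea (BD_rho Ψ om) (fun y => Ψ.symm (f (Ψ y))) := by
    intro x v w
    set g : S2 → S2 := fun y => Ψ.symm (f (Ψ y)) with hg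
    have hΨ : ∀ x, MDifferentiableAt (𝓡 2) (𝓡 2) Ψ x := fun x =>
      (Ψ.contMDiff.contMDiffAt).mdifferentiableAt (by simp)
    have hΨs : ∀ x, MDifferentiableAt (𝓡 2) (𝓡 2) Ψ.symm x := fun x =>
      (Ψ.symm.contMDiff.contMDiffAt).mdifferentiableAt (by simp)
    have hfd : ∀ x, MDifferentiableAt (𝓡 2) (𝓡 2) f x := fun x =>
      (f.contMDiff.contMDiffAt).mdifferentiableAt (by norm_num)
    have hgd : MDifferentiableAt (𝓡 2) (𝓡 2) g x :=
      (hΨs _).comp x ((hfd _).comp x (hΨ x))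
    have h1 : mfderiv (𝓡 2) (𝓡 2) (Ψ ∘ g) x =
        (mfderiv (𝓡 2) (𝓡 2) Ψ (g x)).comp (mfderiv (𝓡 2) (𝓡 2) g x) :=
      mfderiv_comp x (hΨ _) hgd
    have h2 : (Ψ ∘ g : S2 → S) = f ∘ Ψ := by
      funext y
      exact Ψ.apply_symm_apply _
    have h3 : mfderiv (𝓡 2) (𝓡 2) (f ∘ Ψ) x =
        (mfderiv (𝓡 2) (𝓡 2) f (Ψ x)).comp (mfderiv (𝓡 2) (𝓡 2) Ψ x) :=
      mfderiv_comp x (hfd _) (hΨ x)
    have h4 : ∀ (y : S), y = f (Ψ x) → ∀ (L : E2 →L[ℝ] E2),
        L = (mfderiv (𝓡 2) (𝓡 2) f (Ψ x) : E2 →L[ℝ] E2).comp (mfderiv (𝓡 2) (𝓡 2) Ψ x : E2 →L[ℝ] E2) →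
        om y (L v) (L w) = om (Ψ x) (mfderiv (𝓡 2) (𝓡 2) Ψ x v) (mfderiv (𝓡 2) (𝓡 2) Ψ x w) := by
      rintro y rfl L rfl
      exact hf (Ψ x) _ _
    have h5 := h4 (Ψ (g x)) (Ψ.apply_symm_apply _) ((mfderiv (𝓡 2) (𝓡 2) Ψ (g x) : E2 →L[ℝ] E2).comp
      (mfderiv (𝓡 2) (𝓡 2) g x : E2 →L[ℝ] E2)) (by
        have h6 : (mfderiv (𝓡 2) (𝓡 2) (Ψ ∘ g) x : E2 →L[ℝ] E2) = mfderiv (𝓡 2) (𝓡 2) (f ∘ Ψ) x := by
          rw [h2]
        exact h1.symm.trans (h6.trans h3))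
    have h7 := BD_key Ψ om hom (g x) (mfderiv (𝓡 2) (𝓡 2) g x v) (mfderiv (𝓡 2) (𝓡 2) g x w)
    have h8 := BD_key Ψ om hom x v w
    exact h7.symm.trans (h5.trans h8)
  -- the sign
  have hsign : (∀ x, 0 < BD_rho Ψ om x) ∨ (∀ x, BD_rho Ψ om x < 0) := by
    have hconn : PreconnectedSpace S2 := by
      have hr : 1 < Module.rank ℝ E3 := by
        rw [← Module.finrank_eq_rank, finrank_euclideanSpace_fin]
        exact_mod_cast (by norm_num : 1 < 3)
      exact isPreconnected_iff_preconnectedSpace.1 (isPreconnected_sphere hr 0 1)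
    by_contra hcon
    push Not at hcon
    obtain ⟨⟨a, ha⟩, ⟨b, hb⟩⟩ := hcon
    obtain ⟨z, hz⟩ := mem_range_of_exists_le_of_exists_ge hcont ⟨a, ha⟩ ⟨b, hb⟩
    exact hne z hz
  rcases hsign with h | h
  · exact ⟨BD_rho Ψ om, hcont, h, hinv⟩
  · refine ⟨fun x => - BD_rho Ψ om x, hcont.neg, fun x => neg_pos.2 (h x), ?_⟩
    intro x v w
    have := hinv x v w
    unfold areaForm at this ⊢
    simp only [neg_mul]
    rw [this]

end DS

end S_H36_DS_BD

section S_H36_DS_NA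

/-!
NA (complements of two continua of the sphere are annuli).
`plane_annulus`: `K` compact connected nonempty in the plane with connected complement.  If `K = {k}`: translate `k` to `0`;
`z ↦ (z / ‖z‖) * (1 + ‖z‖ / (1 + ‖z‖))` is a homeomorphism from `ℂ \ {0}` to the annulus.  If `K` is nontrivial: translate so that
`0 ∈ K`; `ext_map` gives `ψ, v`; `w ↦ v w⁻¹` is a homeomorphism from `Kᶜ` onto `ball 0 1 \ {0}` (inverse `z ↦ (ψ z)⁻¹`; `ψ z = 0` only for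
`z = 0`), and `z ↦ (z / ‖z‖) * (1 + ‖z‖)` maps the punctured disc onto the annulus.
`sphere_plane`: `K ⊆ S2` closed connected nonempty with connected complement, `Kᶜ` nonempty: there are `h : ℂ → S2`, `hi : S2 → ℂ`, `h` a homeomorphism
of the plane onto `Kᶜ`.  Take a stereographic chart `(p, q)` with pole `O ∉ K` if `K` is nontrivial: `K' = p '' K` is compact, connected,
nontrivial, its complement in the plane is connected (`p '' (Kᶜ \ {O})`: a connected open subset of the sphere minus a point is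
connected; see below), `ext_map` for `K' - k₀` and then the disc is homeomorphic to the plane (`z ↦ z / (1 - ‖z‖)`); the map
`z ↦ q (k₀ + (ψ z)⁻¹)`, `0 ↦ O`, as in XB (`discMap_ext` gives the continuity statements).  If `K = {O}`: `q, p`.
Connectedness of `Kᶜ \ {O}`: `Kᶜ` open connected in the sphere, minus a point: near `O` (in a chart) a punctured disc is
connected; the standard argument: if `Kᶜ \ {O} ⊆ A ∪ B` disjoint open, a small punctured disc `D'` about `O` is contained in one of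
them, say `A`; then `Kᶜ = (A ∪ D) ∪ B` disconnects `Kᶜ`.
`two_annulus`: `h, hi` from `sphere_plane` for `K₁`; `K₂' = hi '' K₂` is compact connected nonempty in the plane with complement
`hi '' (K₁ ∪ K₂)ᶜ`, connected; `plane_annulus`; compose with `h`.
-/

namespace DS
open Metric Set Filter Topology

private def NA_homeo {X Y : Type*} [TopologicalSpace X] [TopologicalSpace Y] {A : Set X} {B : Set Y}
    (f : X → Y) (g : Y → X) (hf : ContinuousOn f A) (hg : ContinuousOn g B) (mf : MapsTo f A B)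
    (mg : MapsTo g B A) (gf : ∀ x ∈ A, g (f x) = x) (fg : ∀ y ∈ B, f (g y) = y) : A ≃ₜ B where
  toFun x := ⟨f x, mf x.2⟩
  invFun y := ⟨g y, mg y.2⟩
  left_inv x := Subtype.ext (gf x x.2)
  right_inv y := Subtype.ext (fg y y.2)
  continuous_toFun := Continuous.subtype_mk hf.domRestrict _
  continuous_invFun := Continuous.subtype_mk hg.domRestrict _

private theorem NA_disc_annulus :
    Nonempty (({z : ℂ | z ≠ 0 ∧ ‖z‖ < 1} : Set ℂ) ≃ₜ {z : ℂ | 1 < ‖z‖ ∧ ‖z‖ < 2}) := by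
  refine ⟨NA_homeo (fun z => (1 + ‖z‖⁻¹) • z) (fun y => (1 - ‖y‖⁻¹) • y) ?_ ?_ ?_ ?_ ?_ ?_⟩
  · intro z hz
    have h1 : ‖z‖ ≠ 0 := norm_ne_zero_iff.mpr hz.1
    exact ((continuousAt_const.add (continuous_norm.continuousAt.inv₀ h1)).smul
      continuousAt_id).continuousWithinAt
  · intro z hz
    have h1 : ‖z‖ ≠ 0 := by have := hz.1; intro h; rw [h] at this; linarith
    exact ((continuousAt_const.sub (continuous_norm.continuousAt.inv₀ h1)).smul
      continuousAt_id).continuousWithinAt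
  · intro z hz
    have h1 : 0 < ‖z‖ := norm_pos_iff.mpr hz.1
    have h2 : ‖(1 + ‖z‖⁻¹) • z‖ = ‖z‖ + 1 := by
      rw [norm_smul, Real.norm_of_nonneg (by positivity)]
      field_simp
    refine ⟨?_, ?_⟩
    · show 1 < ‖(1 + ‖z‖⁻¹) • z‖
      rw [h2]; linarith
    · show ‖(1 + ‖z‖⁻¹) • z‖ < 2
      rw [h2]; linarith [hz.2]
  · intro y hy
    have h0 : 1 < ‖y‖ := hy.1
    have h1 : 0 < ‖y‖ := by linarith
    have h3 : ‖y‖⁻¹ < 1 := inv_lt_one_of_one_lt₀ h0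
    have h2 : ‖(1 - ‖y‖⁻¹) • y‖ = ‖y‖ - 1 := by
      rw [norm_smul, Real.norm_of_nonneg (by linarith)]
      field_simp
    refine ⟨?_, ?_⟩
    · show (1 - ‖y‖⁻¹) • y ≠ 0
      rw [← norm_ne_zero_iff, h2]
      linarith
    · show ‖(1 - ‖y‖⁻¹) • y‖ < 1
      rw [h2]; linarith [hy.2]
  · intro z hz
    have h1 : 0 < ‖z‖ := norm_pos_iff.mpr hz.1
    have h2 : ‖(1 + ‖z‖⁻¹) • z‖ = ‖z‖ + 1 := by
      rw [norm_smul, Real.norm_of_nonneg (by positivity)]
      field_simp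
    show (1 - ‖(1 + ‖z‖⁻¹) • z‖⁻¹) • ((1 + ‖z‖⁻¹) • z) = z
    rw [h2, smul_smul]
    have : (1 - (‖z‖ + 1)⁻¹) * (1 + ‖z‖⁻¹) = 1 := by field_simp; ring
    rw [this, one_smul]
  · intro y hy
    have h0 : 1 < ‖y‖ := hy.1
    have h1 : 0 < ‖y‖ := by linarith
    have h3 : ‖y‖⁻¹ < 1 := inv_lt_one_of_one_lt₀ h0
    have h2 : ‖(1 - ‖y‖⁻¹) • y‖ = ‖y‖ - 1 := by
      rw [norm_smul, Real.norm_of_nonneg (by linarith)]
      field_simp
    show (1 + ‖(1 - ‖y‖⁻¹) • y‖⁻¹) • ((1 - ‖y‖⁻¹) • y) = y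
    rw [h2, smul_smul]
    have h4 : ‖y‖ - 1 ≠ 0 := by linarith
    have : (1 + (‖y‖ - 1)⁻¹) * (1 - ‖y‖⁻¹) = 1 := by field_simp; ring
    rw [this, one_smul]

/-- the maps between the plane and the disc -/
private theorem NA_toDisc_norm (z : ℂ) : ‖(1 + ‖z‖)⁻¹ • z‖ = ‖z‖ / (1 + ‖z‖) := by
  rw [norm_smul, Real.norm_of_nonneg (by positivity)]
  field_simp

private theorem NA_toDisc_lt (z : ℂ) : ‖(1 + ‖z‖)⁻¹ • z‖ < 1 := by
  rw [NA_toDisc_norm, div_lt_one (by positivity)]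
  linarith

private theorem NA_toDisc_cont : Continuous (fun z : ℂ => (1 + ‖z‖)⁻¹ • z) := by
  have h1 : Continuous (fun z : ℂ => (1 + ‖z‖)⁻¹) :=
    Continuous.inv₀ (f := fun z : ℂ => 1 + ‖z‖) (continuous_const.add continuous_norm)
      fun z => (by positivity : (1 + ‖z‖ : ℝ) ≠ 0)
  exact h1.smul continuous_id

private theorem NA_toPlane_cont : ContinuousOn (fun z : ℂ => (1 - ‖z‖)⁻¹ • z) (ball 0 1) := by
  intro z hz
  rw [mem_ball_zero_iff] at hz
  have h1 : ContinuousAt (fun z : ℂ => (1 - ‖z‖)⁻¹) z :=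
    ContinuousAt.inv₀ (f := fun z : ℂ => 1 - ‖z‖)
      (continuousAt_const.sub continuous_norm.continuousAt) (by
        have : (1 - ‖z‖ : ℝ) ≠ 0 := by linarith
        exact this)
  exact (h1.smul continuousAt_id).continuousWithinAt

private theorem NA_pd (z : ℂ) :
    (1 - ‖(1 + ‖z‖)⁻¹ • z‖)⁻¹ • ((1 + ‖z‖)⁻¹ • z) = z := by
  rw [NA_toDisc_norm, smul_smul]
  have h1 : 0 < 1 + ‖z‖ := by positivity
  have : (1 - ‖z‖ / (1 + ‖z‖))⁻¹ * (1 + ‖z‖)⁻¹ = 1 := by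
    have h2 : 1 - ‖z‖ / (1 + ‖z‖) = (1 + ‖z‖)⁻¹ := by field_simp; ring
    rw [h2, inv_inv]
    field_simp
  rw [this, one_smul]

private theorem NA_dp (z : ℂ) (hz : ‖z‖ < 1) :
    (1 + ‖(1 - ‖z‖)⁻¹ • z‖)⁻¹ • ((1 - ‖z‖)⁻¹ • z) = z := by
  have h1 : 0 < 1 - ‖z‖ := by linarith
  have h2 : ‖(1 - ‖z‖)⁻¹ • z‖ = ‖z‖ / (1 - ‖z‖) := by
    rw [norm_smul, Real.norm_of_nonneg (by positivity)]
    field_simp
  rw [h2, smul_smul]
  have : (1 + ‖z‖ / (1 - ‖z‖))⁻¹ * (1 - ‖z‖)⁻¹ = 1 := by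
    have h3 : 1 + ‖z‖ / (1 - ‖z‖) = (1 - ‖z‖)⁻¹ := by field_simp; ring
    rw [h3, inv_inv]
    field_simp
  rw [this, one_smul]

private theorem NA_plane_disc (k : ℂ) :
    Nonempty (({k}ᶜ : Set ℂ) ≃ₜ ({z : ℂ | z ≠ 0 ∧ ‖z‖ < 1} : Set ℂ)) := by
  refine ⟨NA_homeo (fun z => (1 + ‖z - k‖)⁻¹ • (z - k)) (fun y => k + (1 - ‖y‖)⁻¹ • y)
    ?_ ?_ ?_ ?_ ?_ ?_⟩
  · exact (NA_toDisc_cont.comp (continuous_id.sub continuous_const)).continuousOn
  · refine ContinuousOn.add continuousOn_const (NA_toPlane_cont.mono ?_)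
    intro z hz
    rw [mem_ball_zero_iff]
    exact hz.2
  · intro z hz
    refine ⟨?_, NA_toDisc_lt _⟩
    have h1 : z - k ≠ 0 := sub_ne_zero.mpr hz
    exact smul_ne_zero (by positivity) h1
  · intro y hy h
    have h1 : k + (1 - ‖y‖)⁻¹ • y = k := h
    have h2 : (1 - ‖y‖)⁻¹ • y = 0 := by simpa using h1
    have h3 : (1 - ‖y‖)⁻¹ ≠ 0 := inv_ne_zero (by linarith [hy.2])
    exact (smul_ne_zero h3 hy.1) h2
  · intro z hz
    show k + (1 - ‖(1 + ‖z - k‖)⁻¹ • (z - k)‖)⁻¹ • ((1 + ‖z - k‖)⁻¹ • (z - k)) = z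
    rw [NA_pd]
    ring
  · intro y hy
    show (1 + ‖k + (1 - ‖y‖)⁻¹ • y - k‖)⁻¹ • (k + (1 - ‖y‖)⁻¹ • y - k) = y
    rw [add_sub_cancel_left]
    exact NA_dp y hy.2

private theorem NA_psi {K : Set ℂ} {ψ v : ℂ → ℂ} (hE : ExtMap K ψ v) {z : ℂ}
    (hz : z ∈ ball (0:ℂ) 1) (hz0 : z ≠ 0) : ψ z ≠ 0 ∧ (ψ z)⁻¹ ∉ K := by
  have h1 : ψ z ≠ 0 := by
    intro h
    have h2 := hE.vψ z hz
    have h3 := hE.vψ 0 (by simp)
    rw [h] at h2
    rw [hE.ψ0] at h3
    exact hz0 (h2.symm.trans h3)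
  refine ⟨h1, ?_⟩
  rcases hE.mψ hz with h | h
  · exact absurd h h1
  · exact h

/-- translate of `K` with `0` inside -/
private theorem NA_trans {K : Set ℂ} (hK : IsCompact K) (hc : IsConnected K) (hcc : IsConnected Kᶜ)
    (hn : K.Nontrivial) {k₀ : ℂ} (hk₀ : k₀ ∈ K) :
    ∃ K₀ : Set ℂ, IsCompact K₀ ∧ IsConnected K₀ ∧ IsConnected K₀ᶜ ∧ K₀.Nontrivial ∧ (0:ℂ) ∈ K₀ ∧
      (∀ z, z ∈ K₀ ↔ k₀ + z ∈ K) ∧ (fun z => k₀ + z) '' K₀ = K := by
  have hiff : ∀ z, z ∈ (fun z => z - k₀) '' K ↔ k₀ + z ∈ K := by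
    intro z
    constructor
    · rintro ⟨w, hw, rfl⟩
      simpa using hw
    · intro h
      exact ⟨k₀ + z, h, by simp⟩
  have hcont : Continuous (fun z : ℂ => z - k₀) := continuous_id.sub continuous_const
  refine ⟨(fun z => z - k₀) '' K, hK.image hcont, hc.image _ hcont.continuousOn, ?_, ?_, ?_, hiff, ?_⟩
  · have : ((fun z => z - k₀) '' K)ᶜ = (fun z => z - k₀) '' Kᶜ := by
      ext z
      rw [mem_compl_iff, hiff]
      constructor
      · intro h
        exact ⟨k₀ + z, h, by simp⟩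
      · rintro ⟨w, hw, rfl⟩
        simpa using hw
    rw [this]
    exact hcc.image _ hcont.continuousOn
  · exact hn.image (fun a b h => by simpa using h)
  · exact ⟨k₀, hk₀, by simp⟩
  · ext z
    constructor
    · rintro ⟨w, hw, rfl⟩
      exact (hiff w).mp hw
    · intro h
      exact ⟨z - k₀, ⟨z, h, rfl⟩, by simp⟩

private theorem NA_ext_disc {K : Set ℂ} (hK : IsCompact K) (h0 : (0:ℂ) ∈ K) {K' : Set ℂ} {k₀ : ℂ}
    (hKK : ∀ z, z ∈ K ↔ k₀ + z ∈ K') {ψ v : ℂ → ℂ} (hE : ExtMap K ψ v) :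
    Nonempty ((K'ᶜ : Set ℂ) ≃ₜ ({z : ℂ | z ≠ 0 ∧ ‖z‖ < 1} : Set ℂ)) := by
  have hopen := RX_isOpen hK
  have hvc : ∀ w ∈ extDom K, ContinuousAt v w := fun w hw =>
    (hE.dv.differentiableAt (hopen.mem_nhds hw)).continuousAt
  have hψc : ∀ z ∈ ball (0:ℂ) 1, ContinuousAt ψ z := fun z hz =>
    (hE.dψ.differentiableAt (isOpen_ball.mem_nhds hz)).continuousAt
  have hmem : ∀ z ∈ K'ᶜ, z - k₀ ∉ K := by
    intro z hz h
    apply hz
    have := (hKK _).mp h
    simpa using this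
  have hne : ∀ z ∈ K'ᶜ, z - k₀ ≠ 0 := fun z hz h => hmem z hz (h ▸ h0)
  have hdom : ∀ z ∈ K'ᶜ, (z - k₀)⁻¹ ∈ extDom K := fun z hz => Or.inr (by
    rw [inv_inv]; exact hmem z hz)
  have hball : ∀ z ∈ ({z : ℂ | z ≠ 0 ∧ ‖z‖ < 1} : Set ℂ), z ∈ ball (0:ℂ) 1 := fun z hz => by
    rw [mem_ball_zero_iff]; exact hz.2
  refine ⟨NA_homeo (fun z => v ((z - k₀)⁻¹)) (fun z => k₀ + (ψ z)⁻¹) ?_ ?_ ?_ ?_ ?_ ?_⟩
  · intro z hz
    have h1 : ContinuousAt (fun z : ℂ => (z - k₀)⁻¹) z :=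
      (continuousAt_id.sub continuousAt_const).inv₀ (hne z hz)
    exact ((hvc _ (hdom z hz)).comp_of_eq h1 rfl).continuousWithinAt
  · intro z hz
    exact (continuousAt_const.add ((hψc z (hball z hz)).inv₀
      (NA_psi hE (hball z hz) hz.1).1)).continuousWithinAt
  · intro z hz
    refine ⟨?_, ?_⟩
    · intro h
      have h1 := hE.ψv _ (hdom z hz)
      have h2 : v ((z - k₀)⁻¹) = 0 := h
      rw [h2, hE.ψ0] at h1
      exact inv_ne_zero (hne z hz) h1.symm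
    · have := hE.mv (hdom z hz)
      rwa [mem_ball_zero_iff] at this
  · intro z hz h
    exact (NA_psi hE (hball z hz) hz.1).2 ((hKK _).mpr h)
  · intro z hz
    show k₀ + (ψ (v ((z - k₀)⁻¹)))⁻¹ = z
    rw [hE.ψv _ (hdom z hz), inv_inv]
    ring
  · intro z hz
    show v ((k₀ + (ψ z)⁻¹ - k₀)⁻¹) = z
    rw [add_sub_cancel_left, inv_inv]
    exact hE.vψ z (hball z hz)

theorem plane_annulus {K : Set ℂ} (hK : IsCompact K) (hc : IsConnected K) (hcc : IsConnected Kᶜ) :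
    Nonempty ((Kᶜ : Set ℂ) ≃ₜ {z : ℂ | 1 < ‖z‖ ∧ ‖z‖ < 2}) := by
  obtain ⟨a⟩ := NA_disc_annulus
  obtain ⟨k₀, hk₀⟩ := hc.nonempty
  by_cases hn : K.Nontrivial
  · obtain ⟨K₀, h1, h2, h3, h4, h5, h6, -⟩ := NA_trans hK hc hcc hn hk₀
    obtain ⟨ψ, v, hE⟩ := ext_map h1 h2 h5 h4 h3
    obtain ⟨b⟩ := NA_ext_disc h1 h5 h6 hE
    exact ⟨b.trans a⟩
  · have hs : K = {k₀} := by
      rw [not_nontrivial_iff] at hn
      exact hn.eq_singleton_of_mem hk₀
    rw [hs]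
    obtain ⟨b⟩ := NA_plane_disc k₀
    exact ⟨b.trans a⟩

private theorem NA_ring (R : ℝ) (hR : 0 ≤ R) : IsConnected {z : ℂ | R < ‖z‖} := by
  have h1 : IsConnected (sphere (0:ℂ) 1) := by
    apply isConnected_sphere _ _ zero_le_one
    rw [Complex.rank_real_complex]
    norm_num
  have h2 : IsConnected (sphere (0:ℂ) 1 ×ˢ Ioi R) := h1.prod isConnected_Ioi
  have h3 : (fun p : ℂ × ℝ => p.2 • p.1) '' (sphere (0:ℂ) 1 ×ˢ Ioi R) = {z : ℂ | R < ‖z‖} := by
    ext z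
    constructor
    · rintro ⟨⟨u, r⟩, ⟨hu, hr⟩, rfl⟩
      have hu' : ‖u‖ = 1 := by simpa using hu
      have hr' : R < r := hr
      show R < ‖r • u‖
      rw [norm_smul, hu', Real.norm_of_nonneg (by linarith)]
      linarith
    · intro hz
      have hz' : R < ‖z‖ := hz
      have hzp : 0 < ‖z‖ := by linarith
      refine ⟨(‖z‖⁻¹ • z, ‖z‖), ⟨?_, hz'⟩, ?_⟩
      · rw [mem_sphere_zero_iff_norm]
        show ‖‖z‖⁻¹ • z‖ = 1
        rw [norm_smul, norm_inv, norm_norm]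
        field_simp
      · show ‖z‖ • (‖z‖⁻¹ • z) = z
        rw [smul_smul, mul_inv_cancel₀ hzp.ne', one_smul]
  rw [← h3]
  exact h2.image _ (continuous_snd.smul continuous_fst).continuousOn

private theorem NA_side {X : Type*} [TopologicalSpace X] {U D : Set X} {O : X}
    (hc : IsPreconnected U) (hO : O ∈ U) (hOD : O ∈ D) (hDo : IsOpen D)
    (hcl : IsClosed ({O} : Set X)) {A B : Set X} (hA : IsOpen A)
    (hB : IsOpen B) (hAB : U \ {O} ⊆ A ∪ B) (hDA : D \ {O} ⊆ A) (hb : ((U \ {O}) ∩ B).Nonempty) :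
    ((U \ {O}) ∩ (A ∩ B)).Nonempty := by
  have h1 : U ⊆ (A ∪ D) ∪ (B \ {O}) := by
    intro x hx
    by_cases hxO : x = O
    · exact Or.inl (Or.inr (hxO ▸ hOD))
    · rcases hAB ⟨hx, hxO⟩ with h | h
      · exact Or.inl (Or.inl h)
      · exact Or.inr ⟨h, hxO⟩
  have h2 : (U ∩ (A ∪ D)).Nonempty := ⟨O, hO, Or.inr hOD⟩
  have h3 : (U ∩ (B \ {O})).Nonempty := by
    obtain ⟨x, ⟨hx, hxO⟩, hxB⟩ := hb
    exact ⟨x, hx, hxB, hxO⟩
  obtain ⟨x, hxU, hx1, hxB, hxO⟩ := hc (A ∪ D) (B \ {O}) (hA.union hDo)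
    (hB.sdiff hcl) h1 h2 h3
  refine ⟨x, ⟨hxU, hxO⟩, ?_, hxB⟩
  rcases hx1 with h | h
  · exact h
  · exact hDA ⟨h, hxO⟩

theorem punctured_connected {O : S2} {p : S2 → ℂ} {q : ℂ → S2} (hS : SC O p q) {U : Set S2}
    (hU : IsOpen U) (hc : IsConnected U) (hO : O ∈ U) : IsConnected (U \ {O}) := by
  -- a radius
  obtain ⟨R, hR0, hR⟩ : ∃ R : ℝ, 0 ≤ R ∧ ∀ z : ℂ, R < ‖z‖ → q z ∈ U := by
    have h1 : q ⁻¹' U ∈ cocompact ℂ := hS.q_lim (hU.mem_nhds hO)
    rw [← Metric.cobounded_eq_cocompact] at h1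
    obtain ⟨R, -, hR⟩ := (hasBasis_cobounded_compl_closedBall (0:ℂ)).mem_iff.mp h1
    refine ⟨max R 0, le_max_right _ _, fun z hz => hR ?_⟩
    rw [mem_compl_iff, mem_closedBall_zero_iff, not_le]
    exact lt_of_le_of_lt (le_max_left _ _) hz
  set D' : Set S2 := q '' {z : ℂ | R < ‖z‖} with hD'
  have hD'c : IsConnected D' := (NA_ring R hR0).image _ hS.q_smooth.continuous.continuousOn
  have hD'U : D' ⊆ U \ {O} := by
    rintro _ ⟨z, hz, rfl⟩
    exact ⟨hR z hz, hS.q_ne z⟩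
  set D : Set S2 := D' ∪ {O} with hD
  have hmemD' : ∀ x, x ∈ D' ↔ x ≠ O ∧ R < ‖p x‖ := by
    intro x
    constructor
    · rintro ⟨z, hz, rfl⟩
      exact ⟨hS.q_ne z, by rw [hS.pq]; exact hz⟩
    · rintro ⟨h1, h2⟩
      exact ⟨p x, h2, hS.qp x h1⟩
  have hD'o : IsOpen D' := by
    have h1 : IsOpen ({O}ᶜ ∩ p ⁻¹' {z : ℂ | R < ‖z‖}) :=
      hS.p_smooth.continuousOn.isOpen_inter_preimage isOpen_compl_singleton
        (isOpen_lt continuous_const continuous_norm)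
    have h2 : D' = {O}ᶜ ∩ p ⁻¹' {z : ℂ | R < ‖z‖} := by
      ext x
      rw [hmemD']
      rfl
    rw [h2]
    exact h1
  have hDo : IsOpen D := by
    rw [isOpen_iff_mem_nhds]
    rintro x (hx | hx)
    · exact mem_of_superset (hD'o.mem_nhds hx) subset_union_left
    · rw [mem_singleton_iff] at hx
      subst hx
      have h1 := hS.p_lim
      rw [← Metric.cobounded_eq_cocompact] at h1
      have h2 : {z : ℂ | R < ‖z‖} ∈ Bornology.cobounded ℂ := by
        refine (hasBasis_cobounded_compl_closedBall (0:ℂ)).mem_iff.mpr ⟨R, trivial, fun z hz => ?_⟩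
        rw [mem_compl_iff, mem_closedBall_zero_iff, not_le] at hz
        exact hz
      have h3 := h1 h2
      rw [mem_map, mem_nhdsWithin_iff_eventually] at h3
      filter_upwards [h3] with y hy
      by_cases hyO : y = x
      · right; exact hyO
      · left
        exact (hmemD' y).mpr ⟨hyO, hy hyO⟩
  have hDA : D \ {O} ⊆ D' := by
    rintro x ⟨hx | hx, hxO⟩
    · exact hx
    · exact absurd hx hxO
  have hOD : O ∈ D := Or.inr rfl
  refine ⟨hD'c.nonempty.mono hD'U, ?_⟩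
  intro A B hA hB hAB ha hb
  by_contra hne
  have hdis : D' ⊆ A ∨ D' ⊆ B := by
    by_contra hcon
    push Not at hcon
    obtain ⟨h1, h2⟩ := hcon
    obtain ⟨x, hx, hxA⟩ := not_subset.mp h1
    obtain ⟨y, hy, hyB⟩ := not_subset.mp h2
    have hxB : x ∈ B := (hAB (hD'U hx)).resolve_left hxA
    have hyA : y ∈ A := (hAB (hD'U hy)).resolve_right hyB
    obtain ⟨w, hw, hwA⟩ := hD'c.isPreconnected A B hA hB (hD'U.trans hAB) ⟨y, hy, hyA⟩ ⟨x, hx, hxB⟩
    exact hne ⟨w, hD'U hw, hwA⟩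
  rcases hdis with h | h
  · exact hne (NA_side hc.isPreconnected hO hOD hDo isClosed_singleton hA hB hAB (hDA.trans h) hb)
  · apply hne
    rw [inter_comm A B]
    exact NA_side hc.isPreconnected hO hOD hDo isClosed_singleton hB hA (by rwa [union_comm])
      (hDA.trans h) ha

theorem sphere_plane {K : Set S2} (hK : IsClosed K) (hc : IsConnected K) (hcc : IsConnected Kᶜ) :
    ∃ (h : ℂ → S2) (hi : S2 → ℂ), Continuous h ∧ ContinuousOn hi Kᶜ ∧ (∀ z, h z ∈ Kᶜ) ∧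
      (∀ z, hi (h z) = z) ∧ ∀ x ∈ Kᶜ, h (hi x) = x := by
  by_cases hn : K.Nontrivial
  · obtain ⟨O, hO⟩ := hcc.nonempty
    obtain ⟨p, q, hS⟩ := exists_SC O
    have hKO : K ⊆ {O}ᶜ := fun x hx h => hO (by rw [mem_singleton_iff] at h; exact h ▸ hx)
    have hpK : ContinuousOn p K := hS.p_smooth.continuousOn.mono hKO
    have h1 : IsCompact (p '' K) := hK.isCompact.image_of_continuousOn hpK
    have h2 : IsConnected (p '' K) := hc.image _ hpK
    have hiff : ∀ z, z ∈ p '' K ↔ q z ∈ K := by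
      intro z
      constructor
      · rintro ⟨x, hx, rfl⟩
        rw [hS.qp x (hKO hx)]
        exact hx
      · intro h
        exact ⟨q z, h, hS.pq z⟩
    have h3 : IsConnected (p '' K)ᶜ := by
      have h4 : IsConnected (Kᶜ \ {O}) := punctured_connected hS hK.isOpen_compl hcc hO
      have h5 : (p '' K)ᶜ = p '' (Kᶜ \ {O}) := by
        ext z
        rw [mem_compl_iff, hiff]
        constructor
        · intro h
          exact ⟨q z, ⟨h, hS.q_ne z⟩, hS.pq z⟩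
        · rintro ⟨x, ⟨hx, hxO⟩, rfl⟩
          rw [hS.qp x hxO]
          exact hx
      rw [h5]
      exact h4.image _ (hS.p_smooth.continuousOn.mono fun x hx => hx.2)
    have h4 : (p '' K).Nontrivial := by
      obtain ⟨a, ha, b, hb, hab⟩ := hn
      refine ⟨p a, ⟨a, ha, rfl⟩, p b, ⟨b, hb, rfl⟩, fun h => hab ?_⟩
      rw [← hS.qp a (hKO ha), ← hS.qp b (hKO hb), h]
    obtain ⟨k₀, hk₀⟩ := h2.nonempty
    obtain ⟨K₀, g1, g2, g3, g4, g5, g6, g7⟩ := NA_trans h1 h2 h3 h4 hk₀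
    obtain ⟨ψ, v, hE⟩ := ext_map g1 g2 g5 g4 g3
    have hD := discMap_ext hS g1 g2 g5 g4 hE k₀
    rw [g7] at hD
    have hqK : q '' (p '' K) = K := by
      ext x
      constructor
      · rintro ⟨_, ⟨y, hy, rfl⟩, rfl⟩
        rw [hS.qp y (hKO hy)]
        exact hy
      · intro hx
        exact ⟨p x, ⟨x, hx, rfl⟩, hS.qp x (hKO hx)⟩
    rw [hqK] at hD
    generalize (fun z => if z = 0 then O else q (k₀ + (ψ z)⁻¹)) = φ at hD
    generalize (fun x => if x = O then 0 else v ((p x - k₀)⁻¹)) = u at hD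
    have hb : ∀ z : ℂ, (1 + ‖z‖)⁻¹ • z ∈ ball (0:ℂ) 1 := fun z => by
      rw [mem_ball_zero_iff]; exact NA_toDisc_lt z
    refine ⟨fun z => φ ((1 + ‖z‖)⁻¹ • z), fun x => (1 - ‖u x‖)⁻¹ • u x, ?_, ?_, ?_, ?_, ?_⟩
    · exact hD.φ_cont.comp_continuous NA_toDisc_cont hb
    · exact NA_toPlane_cont.comp hD.u_cont hD.u_maps
    · exact fun z => hD.φ_maps (hb z)
    · intro z
      simp only
      rw [hD.uφ _ (hb z)]
      exact NA_pd z
    · intro x hx
      simp only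
      have h5 := hD.u_maps hx
      rw [mem_ball_zero_iff] at h5
      rw [NA_dp _ h5]
      exact hD.φu x hx
  · obtain ⟨O, hO⟩ := hc.nonempty
    have hs : K = {O} := by
      rw [not_nontrivial_iff] at hn
      exact hn.eq_singleton_of_mem hO
    obtain ⟨p, q, hS⟩ := exists_SC O
    rw [hs]
    exact ⟨q, p, hS.q_smooth.continuous, hS.p_smooth.continuousOn, hS.q_ne, hS.pq, hS.qp⟩

theorem two_annulus {K₁ K₂ : Set S2} (h1 : IsClosed K₁) (h2 : IsClosed K₂) (hc1 : IsConnected K₁)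
    (hc2 : IsConnected K₂) (hd : Disjoint K₁ K₂) (hcc1 : IsConnected K₁ᶜ)
    (hcc : IsConnected (K₁ ∪ K₂)ᶜ) :
    Nonempty (((K₁ ∪ K₂)ᶜ : Set S2) ≃ₜ {z : ℂ | 1 < ‖z‖ ∧ ‖z‖ < 2}) := by
  obtain ⟨h, hi, hh, hhi, hm, hih, hhi'⟩ := sphere_plane h1 hc1 hcc1
  have h21 : K₂ ⊆ K₁ᶜ := fun x hx hx1 => disjoint_left.mp hd hx1 hx
  have hiK : ContinuousOn hi K₂ := hhi.mono h21
  have g1 : IsCompact (hi '' K₂) := h2.isCompact.image_of_continuousOn hiK
  have g2 : IsConnected (hi '' K₂) := hc2.image _ hiK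
  have hiff : ∀ z, z ∈ hi '' K₂ ↔ h z ∈ K₂ := by
    intro z
    constructor
    · rintro ⟨x, hx, rfl⟩
      rw [hhi' x (h21 hx)]
      exact hx
    · intro hz
      exact ⟨h z, hz, hih z⟩
  have hsub : (K₁ ∪ K₂)ᶜ ⊆ K₁ᶜ := compl_subset_compl.mpr subset_union_left
  have g3 : IsConnected (hi '' K₂)ᶜ := by
    have h5 : (hi '' K₂)ᶜ = hi '' (K₁ ∪ K₂)ᶜ := by
      ext z
      rw [mem_compl_iff, hiff]
      constructor
      · intro hz
        refine ⟨h z, ?_, hih z⟩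
        rintro (h6 | h6)
        · exact hm z h6
        · exact hz h6
      · rintro ⟨x, hx, rfl⟩
        rw [hhi' x (hsub hx)]
        exact fun h6 => hx (Or.inr h6)
    rw [h5]
    exact hcc.image _ (hhi.mono hsub)
  obtain ⟨a⟩ := plane_annulus g1 g2 g3
  refine ⟨Homeomorph.trans (NA_homeo hi h (hhi.mono hsub) hh.continuousOn ?_ ?_ ?_ ?_) a⟩
  · intro x hx
    rw [mem_compl_iff, hiff, hhi' x (hsub hx)]
    exact fun h6 => hx (Or.inr h6)
  · intro z hz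
    rintro (h6 | h6)
    · exact hm z h6
    · exact hz ((hiff z).mpr h6)
  · intro x hx
    exact hhi' x (hsub hx)
  · intro z _
    exact hih z

end DS

end S_H36_DS_NA

section S_H36_DS_TBase

/-!
Definitions and simple facts for the topological assembly (project MP_8a27c0_DS, helper91).
-/

namespace DS
open Metric Set Filter Topology Function MeasureTheory
open scoped Manifold ContDiff

/-- `V` is an open connected set missing the stable sets of the periodic points, invariant under `f^[m]` -/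
structure InvV (f : S2 → S2) (m : ℕ) (V : Set S2) : Prop where
  V_open : IsOpen V
  V_conn : IsConnected V
  V_stab : ∀ P ∈ periodicPts f, Disjoint V (stableSet f P)
  hm : 0 < m
  inv : f^[m] '' V = V

/-- the connected components of `Vᶜ` invariant under `g` -/
def invComp (g : S2 → S2) (V : Set S2) : Set (Set S2) :=
  {K | (∃ x ∉ V, K = connectedComponentIn Vᶜ x) ∧ g '' K = K}

/-- Star property of the compact set `K'` of the plane for the planar map `g` with base point `k` -/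
def Star (g : ℂ → ℂ) (k : ℂ) (K' : Set ℂ) : Prop :=
  ∀ N : Set ℂ, IsOpen N → K' ⊆ N → ∃ O : Set ℂ, IsOpen O ∧ K' ⊆ O ∧ closure O ⊆ N ∧
    Bornology.IsBounded O ∧ HasLog (fun x => (g x - x) / (x - k)) (frontier O) ∧
    HasLog (fun x => (g x - k) / (x - k)) (frontier O) ∧ ∀ x ∈ closure O, x ∉ K' → g x ≠ x

instance TBase_conn : ConnectedSpace S2 := by
  have h : IsConnected (sphere (0 : E3) 1) := by
    apply isConnected_sphere _ _ zero_le_one
    rw [rank_eq_card_basis (EuclideanSpace.basisFun (Fin 3) ℝ).toBasis]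
    simp only [Fintype.card_fin]
    norm_num
  exact isConnected_iff_connectedSpace.mp h

instance TBase_locconn : LocallyConnectedSpace S2 := ChartedSpace.locallyConnectedSpace E2 S2

theorem per_stable {f : S2 → S2} (x : S2) : x ∈ stableSet f x := by
  show Tendsto (fun n : ℕ => dist (f^[n] x) (f^[n] x)) atTop (𝓝 0)
  simp

/-- periodic points are not in `V` -/
theorem InvV.not_per {f : S2 → S2} {m : ℕ} {V : Set S2} (hV : InvV f m V) {P : S2}
    (hP : P ∈ periodicPts f) : P ∉ V := fun h =>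
  disjoint_left.mp (hV.V_stab P hP) h (per_stable P)

theorem iter_fif {f fi : S2 → S2} (h : ∀ x, fi (f x) = x) (m : ℕ) (x : S2) :
    fi^[m] (f^[m] x) = x := (Function.LeftInverse.iterate h m) x

/-- `f^[m]` maps `V` to `V` and `Vᶜ` to `Vᶜ` -/
theorem InvV.mem_iff {f fi : S2 → S2} {ν : Measure S2} (hS : Sys f fi ν) {m : ℕ} {V : Set S2}
    (hV : InvV f m V) (x : S2) : f^[m] x ∈ V ↔ x ∈ V := by
  constructor
  · intro h
    rw [← hV.inv] at h
    obtain ⟨y, hy, hyx⟩ := h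
    have : y = x := by
      rw [← iter_fif hS.fif m y, hyx, iter_fif hS.fif]
    rwa [← this]
  · intro h
    rw [← hV.inv]
    exact mem_image_of_mem _ h

/-- the homeomorphism `f^[m]` -/
def Sys.homeo {f fi : S2 → S2} {ν : Measure S2} (hS : Sys f fi ν) (m : ℕ) : S2 ≃ₜ S2 where
  toFun := f^[m]
  invFun := fi^[m]
  left_inv := iter_fif hS.fif m
  right_inv := iter_fif hS.ffi m
  continuous_toFun := hS.cf.continuous.iterate m
  continuous_invFun := hS.cfi.continuous.iterate m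

/-- the image of a component of `Vᶜ` is the component of the image -/
theorem InvV.image_comp {f fi : S2 → S2} {ν : Measure S2} (hS : Sys f fi ν) {m : ℕ} {V : Set S2}
    (hV : InvV f m V) {x : S2} (hx : x ∉ V) :
    f^[m] '' connectedComponentIn Vᶜ x = connectedComponentIn Vᶜ (f^[m] x) := by
  have h := (hS.homeo m).image_connectedComponentIn (s := Vᶜ) (x := x) hx
  change f^[m] '' connectedComponentIn Vᶜ x = connectedComponentIn (f^[m] '' Vᶜ) (f^[m] x) at h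
  rw [h]
  congr 1
  ext y
  constructor
  · rintro ⟨z, hz, rfl⟩ h
    exact hz ((hV.mem_iff hS z).mp h)
  · intro hy
    refine ⟨fi^[m] y, fun h => hy ?_, iter_fif hS.ffi m y⟩
    rw [← iter_fif hS.ffi m y]
    exact (hV.mem_iff hS _).mpr h

/-- the component of a fixed point is invariant -/
theorem InvV.comp_fix {f fi : S2 → S2} {ν : Measure S2} (hS : Sys f fi ν) {m : ℕ} {V : Set S2}
    (hV : InvV f m V) {x : S2} (hx : f^[m] x = x) :
    connectedComponentIn Vᶜ x ∈ invComp (f^[m]) V := by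
  have h1 : x ∉ V := hV.not_per ⟨m, hV.hm, hx⟩
  exact ⟨⟨x, h1, rfl⟩, by rw [hV.image_comp hS h1, hx]⟩

/-- a component of `Vᶜ` is a `CompK` -/
theorem InvV.compK {f : S2 → S2} {m : ℕ} {V : Set S2} (hV : InvV f m V) {x : S2} (hx : x ∉ V) :
    CompK f V (connectedComponentIn Vᶜ x) where
  V_open := hV.V_open
  V_conn := hV.V_conn
  V_stab := hV.V_stab
  K_closed := by
    have h1 : closure (connectedComponentIn Vᶜ x) ⊆ Vᶜ :=
      closure_minimal (connectedComponentIn_subset _ _) hV.V_open.isClosed_compl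
    have h2 : closure (connectedComponentIn Vᶜ x) ⊆ connectedComponentIn Vᶜ x :=
      auxTB_max x _ h1 isPreconnected_connectedComponentIn.closure
        ⟨x, subset_closure (mem_connectedComponentIn hx), mem_connectedComponentIn hx⟩
    exact isClosed_of_closure_subset h2
  K_conn := isConnected_connectedComponentIn_iff.mpr hx
  K_V := by
    rw [disjoint_left]
    intro z hz
    exact connectedComponentIn_subset _ _ hz
  K_max := by
    intro C hC hCV hCK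
    exact auxTB_max x C (fun z hz => disjoint_left.mp hCV hz) hC hCK

theorem InvV.compK' {f : S2 → S2} {m : ℕ} {V K : Set S2} (hV : InvV f m V)
    (hK : K ∈ invComp (f^[m]) V) : CompK f V K := by
  obtain ⟨⟨x, hx, rfl⟩, -⟩ := hK
  exact hV.compK hx

/-- the complement of a component is connected -/
theorem InvV.compl_conn {f : S2 → S2} {m : ℕ} {V : Set S2} (hV : InvV f m V) {x : S2}
    (hx : x ∉ V) : IsConnected (connectedComponentIn Vᶜ x)ᶜ := by
  obtain ⟨y, hy⟩ := hV.V_conn.nonempty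
  exact ⟨⟨y, fun h => connectedComponentIn_subset _ _ h hy⟩,
    compl_comp hV.V_conn.isPreconnected hV.V_conn.nonempty x hx⟩

/-- two different components are disjoint -/
theorem comp_disj {V : Set S2} {x y : S2}
    (h : connectedComponentIn Vᶜ x ≠ connectedComponentIn Vᶜ y) :
    Disjoint (connectedComponentIn Vᶜ x) (connectedComponentIn Vᶜ y) := by
  rw [disjoint_left]
  intro z hz hz'
  exact h (by rw [connectedComponentIn_eq hz, connectedComponentIn_eq hz'])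

theorem invComp_disj {g : S2 → S2} {V K K' : Set S2} (hK : K ∈ invComp g V)
    (hK' : K' ∈ invComp g V) (h : K ≠ K') : Disjoint K K' := by
  obtain ⟨⟨x, hx, rfl⟩, -⟩ := hK
  obtain ⟨⟨y, hy, rfl⟩, -⟩ := hK'
  exact comp_disj h

end DS

end S_H36_DS_TBase

section S_H36_DS_TS

/-!
TS (a continuum without fixed prime ends has the star property).  Proof.  Let `k₀ ∈ K`, `K₀ = {z - k₀ | z ∈ K}`: compact,
connected, contains `0`, nontrivial, connected complement; `ext_map` gives `ψ, v`; `discMap_ext` gives the `DiscMap` with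
`φ z = O` for `z = 0`, `φ z = q (k₀ + (ψ z)⁻¹)` otherwise; `end_homeo` gives `hb, hbi`.  By `hno` `hb` has no fixed point on the circle; by
compactness of the closed disc there are `c > 0`, `ρ₀ < 1` (and `0 < ρ₀`) with `‖hb z - z‖ ≥ c` and `hb z ≠ 0` for
`ρ₀ ≤ ‖z‖ ≤ 1` (`hb` maps the circle to itself); for every `ε > 0` `‖hb z‖ > 1 - ε` for `‖z‖` close to `1`.
For `ρ₀ ≤ ‖z‖ < 1`: `hb z` is in the open disc and `φ (hb z) = g (φ z)` (`φu`, `g (φ z) ∉ q '' K`), i.e.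
`q (k₀ + (ψ (hb z))⁻¹) = g (q (k₀ + (ψ z)⁻¹))`; apply `p`.  `star_nontrivial` with `h = hb`, for every `N` and every `k ∈ K`.
-/

namespace DS
open Metric Set Filter Topology

theorem TS_near {f : ℂ → ℝ} {a : ℝ} (hf : ContinuousOn f (closedBall (0:ℂ) 1))
    (h : ∀ z ∈ sphere (0:ℂ) 1, a < f z) :
    ∃ ρ < (1:ℝ), 0 < ρ ∧ ∀ z : ℂ, ρ ≤ ‖z‖ → ‖z‖ ≤ 1 → a < f z := by
  have hc : IsCompact (closedBall (0:ℂ) 1 ∩ f ⁻¹' Iic a) := by
    have h1 : IsClosed (closedBall (0:ℂ) 1 ∩ f ⁻¹' Iic a) :=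
      hf.preimage_isClosed_of_isClosed isClosed_closedBall isClosed_Iic
    exact (isCompact_closedBall 0 1).of_isClosed_subset h1 inter_subset_left
  by_cases hne : (closedBall (0:ℂ) 1 ∩ f ⁻¹' Iic a).Nonempty
  · obtain ⟨x, hx, hmax⟩ := hc.exists_isMaxOn hne continuous_norm.continuousOn
    have hx1 : ‖x‖ ≤ 1 := by
      have := hx.1
      rwa [mem_closedBall_zero_iff] at this
    have hx2 : ‖x‖ < 1 := by
      rcases hx1.lt_or_eq with h1 | h1
      · exact h1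
      · exfalso
        have h2 := h x (by rw [mem_sphere_zero_iff_norm]; exact h1)
        have h3 : f x ≤ a := hx.2
        linarith
    refine ⟨(1 + ‖x‖) / 2, by linarith, by positivity, fun z hz1 hz2 => ?_⟩
    by_contra hcon
    have h4 : ‖z‖ ≤ ‖x‖ := hmax (show z ∈ closedBall (0:ℂ) 1 ∩ f ⁻¹' Iic a from
      ⟨by rw [mem_closedBall_zero_iff]; exact hz2, not_lt.mp hcon⟩)
    linarith
  · refine ⟨1 / 2, by norm_num, by norm_num, fun z _ hz2 => ?_⟩
    by_contra hcon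
    exact hne ⟨z, by rw [mem_closedBall_zero_iff]; exact hz2, not_lt.mp hcon⟩

theorem star_of_ends {O : S2} {p : S2 → ℂ} {q : ℂ → S2} (hS : SC O p q) {g gi : S2 → S2}
    (hg : Continuous g) (hgi : Continuous gi) (hggi : ∀ x, g (gi x) = x)
    (hgig : ∀ x, gi (g x) = x) {K : Set ℂ} (hK : IsCompact K) (hc : IsConnected K)
    (hn : K.Nontrivial) (hcc : IsConnected Kᶜ) (hgK : g '' (q '' K) = q '' K)
    (hno : ∀ (φ : ℂ → S2) (u : S2 → ℂ) (hb hbi : ℂ → ℂ), DiscMap (q '' K) φ u →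
      EndMap φ u g gi hb hbi → ∀ ζ ∈ sphere (0:ℂ) 1, hb ζ ≠ ζ) {k : ℂ} (hk : k ∈ K) :
    Star (fun z => p (g (q z))) k K := by
  set K₀ : Set ℂ := (fun z => z - k) '' K with hK₀
  have hKK : (fun z => k + z) '' K₀ = K := by
    rw [hK₀, image_image]
    have : (fun x : ℂ => k + (x - k)) = id := by
      funext x
      simp
    rw [this, image_id]
  have hK₀c : IsCompact K₀ := hK.image (continuous_id.sub continuous_const)
  have hK₀conn : IsConnected K₀ :=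
    hc.image _ (continuous_id.sub continuous_const).continuousOn
  have h0 : (0:ℂ) ∈ K₀ := ⟨k, hk, sub_self k⟩
  have hinj : Function.Injective (fun z : ℂ => z - k) := sub_left_injective
  have hn₀ : K₀.Nontrivial := hn.image hinj
  have hsurj : Function.Surjective (fun z : ℂ => z - k) := fun z => ⟨z + k, by simp⟩
  have hcc₀ : IsConnected K₀ᶜ := by
    rw [hK₀, ← image_compl_eq ⟨hinj, hsurj⟩]
    exact hcc.image _ (continuous_id.sub continuous_const).continuousOn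
  obtain ⟨ψ, v, hE⟩ := ext_map hK₀c hK₀conn h0 hn₀ hcc₀
  have hD := discMap_ext hS hK₀c hK₀conn h0 hn₀ hE k
  rw [hKK] at hD
  have hqK : IsClosed (q '' K) := (hK.image hS.q_smooth.continuous).isClosed
  obtain ⟨hb, hbi, hEM⟩ := end_homeo hqK hD hg hgi hggi hgig hgK
  have hfix := hno _ _ hb hbi hD hEM
  have hsub : sphere (0:ℂ) 1 ⊆ closedBall (0:ℂ) 1 := sphere_subset_closedBall
  -- the function
  have hfc : ContinuousOn (fun z => min ‖hb z - z‖ ‖hb z‖) (closedBall (0:ℂ) 1) :=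
    ContinuousOn.inf (hEM.bc.sub continuousOn_id).norm hEM.bc.norm
  obtain ⟨x, hx, hmin⟩ := (isCompact_sphere (0:ℂ) 1).exists_isMinOn
    ⟨1, by simp⟩ (hfc.mono hsub)
  have hsn : ∀ z ∈ sphere (0:ℂ) 1, ‖hb z‖ = 1 := by
    intro z hz
    have := hEM.bs hz
    rwa [mem_sphere_zero_iff_norm] at this
  have hxpos : 0 < min ‖hb x - x‖ ‖hb x‖ := by
    refine lt_min (norm_pos_iff.mpr (sub_ne_zero.mpr (hfix x hx))) ?_
    rw [hsn x hx]
    exact one_pos
  set m : ℝ := min ‖hb x - x‖ ‖hb x‖ with hm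
  obtain ⟨ρ₀, hρ1, hρ0, hρ⟩ := TS_near (a := m / 2) hfc fun z hz => by
    have h1 : m ≤ min ‖hb z - z‖ ‖hb z‖ := hmin hz
    show m / 2 < min ‖hb z - z‖ ‖hb z‖
    linarith
  have hgcompl : ∀ y, y ∉ q '' K → g y ∉ q '' K := by
    intro y hy hgy
    rw [← hgK] at hgy
    obtain ⟨w, hw, hwy⟩ := hgy
    have h1 : w = y := by rw [← hgig w, hwy, hgig]
    exact hy (h1 ▸ hw)
  have hmain : ∀ z : ℂ, ρ₀ ≤ ‖z‖ → ‖z‖ < 1 → ‖hb z‖ < 1 ∧ hb z ≠ 0 ∧ m / 2 ≤ ‖hb z - z‖ ∧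
      (fun z => p (g (q z))) (k + (ψ z)⁻¹) = k + (ψ (hb z))⁻¹ := by
    intro z hz1 hz2
    have hzb : z ∈ ball (0:ℂ) 1 := by rw [mem_ball_zero_iff]; exact hz2
    have h1 := hρ z hz1 hz2.le
    have h2 : m / 2 < ‖hb z - z‖ := lt_of_lt_of_le h1 (min_le_left _ _)
    have h3 : m / 2 < ‖hb z‖ := lt_of_lt_of_le h1 (min_le_right _ _)
    have hb0 : hb z ≠ 0 := by
      intro h4
      rw [h4, norm_zero] at h3
      linarith
    have hz0 : z ≠ 0 := by
      rintro rfl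
      rw [norm_zero] at hz1
      linarith
    have hbb : hb z ∈ ball (0:ℂ) 1 := hEM.bo hzb
    refine ⟨by rwa [mem_ball_zero_iff] at hbb, hb0, h2.le, ?_⟩
    have h5 := hD.φu _ (hgcompl _ (hD.φ_maps hzb))
    rw [← hEM.be z hzb] at h5
    simp only [if_neg hb0, if_neg hz0] at h5
    show p (g (q (k + (ψ z)⁻¹))) = k + (ψ (hb z))⁻¹
    rw [← h5, hS.pq]
  have hlim : ∀ ε > 0, ∃ ρ < (1:ℝ), ∀ z : ℂ, ρ ≤ ‖z‖ → ‖z‖ < 1 → 1 - ε < ‖hb z‖ := by
    intro ε hε
    obtain ⟨ρ, h1, -, h2⟩ := TS_near (f := fun z => ‖hb z‖) (a := 1 - ε) hEM.bc.norm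
      fun z hz => by
        show 1 - ε < ‖hb z‖
        rw [hsn z hz]
        linarith
    exact ⟨ρ, h1, fun z hz1 hz2 => h2 z hz1 hz2.le⟩
  have hhc : ContinuousOn hb {z | ρ₀ ≤ ‖z‖ ∧ ‖z‖ < 1} := hEM.bc.mono fun z hz => by
    rw [mem_closedBall_zero_iff]
    exact hz.2.le
  intro N hN hKN
  have hKN' : (fun z => k + z) '' K₀ ⊆ N := by rw [hKK]; exact hKN
  have hk' : k ∈ (fun z => k + z) '' K₀ := by rw [hKK]; exact hk
  obtain ⟨U, h1, h2, h3, h4, h5, h6, h7⟩ := star_nontrivial hK₀c hK₀conn h0 hE k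
    (g := fun z => p (g (q z))) (h := hb) hρ0 hρ1 (half_pos hxpos) hhc hmain hlim hN hKN' hk'
  rw [hKK] at h2 h7
  exact ⟨U, h1, h2, h3, h4, h5, h6, h7⟩

end DS

end S_H36_DS_TS
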