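import Pool.Agent.H12.KS.K02
import Pool.Agent.H12.KS.K11
import Pool.Agent.H12.KS.K12
import Pool.Agent.H12.KS.K15
import Pool.Agent.H12.KS.K22
import Pool.Agent.H12.KS.K25
import Pool.Agent.H12.KS.K26
import Pool.Agent.H12.KS.K28
import Pool.Agent.H12.KS.K29
import Pool.Agent.H12.KS.K30
import Pool.Agent.H12.KS.K31
import Pool.Agent.H12.KS.K32
import Pool.Agent.H12.KS.K39
import Pool.Agent.H12.KS.K40

/-! Joined modules of the proof of MP_8a27c0_an (one section per module). -/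

section S_H36_DG_HN

/-!
HN (the next fixed prime end is in the same gap).  Write `T` for the circle, `Λ = F.lim` (closed).  Suppose `x ∈ Λ`.  Then `F` is not the trivial group (`Λ = ∅` if `∀ g, g = 1`).
`J` is a connected subset of `T \ Λ` and `ζ ∈ closure J` (limit of the iterates of a point of `J` in `J`), `x ∈ closure J`; `ζ ∉ Λ`, so `J ∪ {ζ}` is connected and is contained in the component `I` of `ζ` in `T \ Λ`; `x ∈ closure I`.
Claim: there is `d ∈ Γ` with `e.θ d = d`, `F.act (d ^ n) ζ → x`, `F.act (d ^ n) ζ ∈ I` for all `n`.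
(Cyclic case, `elem`: `Γ = zpowers κ`, `F.AR κ p q`, `Λ = {p, q}`.  Nonelementary case: `F.UC` by `hI`; `gaps` (TN/GP): there are `g`, `i` with `F.act g ζ` in the gap `i`; conjugate `κ_i`, `p_i`, `q_i` by `g⁻¹`: `κ ∈ Γ`, `F.AR κ p q`, `Fix`-stabiliser
`F.act c p = p ↔ c ∈ zpowers κ`, and the gap is the arc `{ξ | 0 < eta p q ξ}` (image of the gap `i` by `F.act g⁻¹`), which contains `ζ` and no point of `Λ`.)
In both cases: `I` is the open arc `{ξ ∈ T | 0 < (eta p q ξ).re}` or `{ξ ∈ T | (eta p q ξ).re < 0}` with end points `p, q ∈ Λ` (`eta p q` is a homeomorphism of `T \ {p}` onto the real line, `eta p q (act κ ξ) = λ * eta p q ξ`, `λ > 0`), so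
`x ∈ {p, q}` (`x ∈ closure I`, `x ∉ I`), `act κ '' I = I`, `act (κ ^ n) ζ → p`, `act (κ⁻¹ ^ n) ζ → q` (`AR.att`).  Commuting: `e.H` maps `Λ` to `Λ` and `T \ Λ` to itself, hence components to components, fixes `ζ`: `e.H '' I = I`, so `e.H` permutes
`{p, q}`; it is an orientation preserving homeomorphism of the circle (`he.orient`; see TN/CO, `CircleDeg1`; helper files TN/CO, TN/CP) with a fixed point `ζ`, so it fixes `p` and `q` (it preserves each of the two arcs of `I \ {ζ}`; in a lift to the line with fixed point it is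
increasing).  Then `e.θ κ` satisfies `act (e.θ κ) p = e.H (act κ (e.Hi p)) = p`, so `e.θ κ ∈ zpowers κ`, and it has the attracting fixed point `p`; the same for `e.θ.symm`; so `e.θ κ = κ` (an automorphism of the infinite cyclic group
`zpowers κ` which preserves the attracting fixed point is the identity).  `d = κ` or `κ⁻¹`.
Contradiction: the points `ζ_n = act (d ^ n) ζ` are fixed by `e.H` (`e.H (act (d^n) ζ) = act (e.θ (d^n)) (e.H ζ)`), converge to `x`, lie in `I`, are different from `ζ` for `n ≥ 1`.  `J` is a connected subset of the arc `I \ {ζ}` with `ζ` and `x` in its closure,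
so it contains the open arc between `ζ` and `x` in `I`, hence `ζ_n` for large `n` (these lie on the side of `x`).  But points of `J` converge to `ζ` under `e.H`, and `ζ_n ≠ ζ` is fixed.
-/

namespace TN
open Metric Set Filter Topology DS

variable {Γ : Type} [Group Γ]

theorem HN_eta_ne {p q : ℂ} (hp : ‖p‖ = 1) (hq : ‖q‖ = 1) (hpq : p ≠ q) {ξ : ℂ} (hξ : ‖ξ‖ = 1)
    (h1 : ξ ≠ p) (h2 : ξ ≠ q) : (eta p q ξ).re ≠ 0 := by
  intro h
  apply eta_ne hp hq hpq h1 h2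
  apply Complex.ext
  · exact h
  · rw [eta_im hp hq, hξ]; simp

theorem HN_eta_cont {p q : ℂ} {ξ : ℂ} (h1 : ξ ≠ p) :
    ContinuousAt (fun x => (eta p q x).re) ξ := by
  have h : ContinuousAt (eta p q) ξ := by
    unfold eta
    exact (continuousAt_const.mul (continuousAt_id.sub continuousAt_const)).div
      (continuousAt_const.sub continuousAt_id) (sub_ne_zero.2 (Ne.symm h1))
  exact Complex.continuous_re.continuousAt.comp h

/-- on the circle `eta` is real -/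
theorem HN_real {p q : ℂ} (hp : ‖p‖ = 1) (hq : ‖q‖ = 1) {ξ : ℂ} (hξ : ‖ξ‖ = 1) :
    eta p q ξ = ((eta p q ξ).re : ℂ) := by
  apply Complex.ext
  · simp
  · rw [eta_im hp hq, hξ]; simp

theorem HN_inj {p q : ℂ} (hp : ‖p‖ = 1) (hq : ‖q‖ = 1) (hpq : p ≠ q) {ξ ξ' : ℂ} (hξ : ‖ξ‖ = 1)
    (hξ' : ‖ξ'‖ = 1) (h1 : ξ ≠ p) (h1' : ξ' ≠ p) (h : (eta p q ξ).re = (eta p q ξ').re) :
    ξ = ξ' := by
  have h2 : eta p q ξ = eta p q ξ' := by
    rw [HN_real hp hq hξ, HN_real hp hq hξ', h]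
  have h3 := eta_sub (q := q) h1 h1'
  rw [h2, sub_self] at h3
  have hd : (p - ξ) * (p - ξ') ≠ 0 :=
    mul_ne_zero (sub_ne_zero.2 (Ne.symm h1)) (sub_ne_zero.2 (Ne.symm h1'))
  have h4 := (div_eq_zero_iff.1 h3.symm).resolve_right hd
  have hc : (1 - p * (starRingEnd ℂ) q) ≠ 0 := by
    rw [← norm_ne_zero_iff, pq_norm hp hq]
    exact norm_ne_zero_iff.2 (sub_ne_zero.2 hpq)
  have h5 : Complex.I * (1 - p * (starRingEnd ℂ) q) * (p - q) ≠ 0 :=
    mul_ne_zero (mul_ne_zero Complex.I_ne_zero hc) (sub_ne_zero.2 hpq)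
  exact sub_eq_zero.1 ((mul_eq_zero.1 h4).resolve_left h5)

/-- near `p` the coordinate is large -/
theorem HN_large {p q : ℂ} (hp : ‖p‖ = 1) (hq : ‖q‖ = 1) (hpq : p ≠ q) {J : Set ℂ}
    (hJ1 : ∀ ξ ∈ J, ‖ξ‖ = 1) (hJp : p ∉ J) (hJ0 : ∀ ξ ∈ J, 0 < (eta p q ξ).re)
    (hcl : p ∈ closure J) (v : ℝ) : ∃ ξ ∈ J, v < (eta p q ξ).re := by
  set D : ℝ := ‖p - q‖ with hD
  have hD0 : 0 < D := norm_pos_iff.2 (sub_ne_zero.2 hpq)
  set ε : ℝ := min (D / 2) (D ^ 2 / (2 * (|v| + 1))) with hε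
  have hv : 0 < |v| + 1 := by positivity
  have hε0 : 0 < ε := by positivity
  obtain ⟨ξ, hξ, hd⟩ := Metric.mem_closure_iff.1 hcl ε hε0
  refine ⟨ξ, hξ, ?_⟩
  rw [dist_eq_norm] at hd
  have hξp : p - ξ ≠ 0 := sub_ne_zero.2 fun h => hJp (h ▸ hξ)
  have hn0 : 0 < ‖p - ξ‖ := norm_pos_iff.2 hξp
  have h1 : (eta p q ξ).re = D * ‖ξ - q‖ / ‖p - ξ‖ := by
    have h2 : ‖eta p q ξ‖ = (eta p q ξ).re := by
      rw [HN_real hp hq (hJ1 ξ hξ), Complex.norm_real, Real.norm_eq_abs,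
        abs_of_pos (hJ0 ξ hξ), Complex.ofReal_re]
    rw [← h2, eta, norm_div, norm_mul, norm_mul, Complex.norm_I, one_mul, pq_norm hp hq]
  have h3 : D / 2 ≤ ‖ξ - q‖ := by
    have h4 : D ≤ ‖p - ξ‖ + ‖ξ - q‖ := norm_sub_le_norm_sub_add_norm_sub p ξ q
    have h5 : ‖p - ξ‖ < D / 2 := hd.trans_le (min_le_left _ _)
    linarith
  rw [h1, lt_div_iff₀ hn0]
  have h6 : ‖p - ξ‖ < D ^ 2 / (2 * (|v| + 1)) := hd.trans_le (min_le_right _ _)
  rw [lt_div_iff₀ (by positivity)] at h6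
  have h7 : v * ‖p - ξ‖ ≤ |v| * ‖p - ξ‖ := mul_le_mul_of_nonneg_right (le_abs_self v) hn0.le
  have h8 : D * (D / 2) ≤ D * ‖ξ - q‖ := mul_le_mul_of_nonneg_left h3 hD0.le
  nlinarith

/-- the main step: an arc in a gap from `ζ` to an end point contains a translate of `ζ` -/
theorem HN_core (F : Fuchs Γ) {κ : Γ} {p q : ℂ} (hκ : F.AR κ p q)
    (hgap : ∀ ξ : ℂ, ‖ξ‖ = 1 → ξ ≠ p → 0 < (eta p q ξ).re → ξ ∉ F.lim) {ζ x : ℂ} (hζ : ‖ζ‖ = 1)
    (hζp : ζ ≠ p) (hζ0 : 0 < (eta p q ζ).re) {J : Set ℂ} (hJ1 : ∀ ξ ∈ J, ‖ξ‖ = 1)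
    (hJl : ∀ ξ ∈ J, ξ ∉ F.lim) (hJc : IsPreconnected J) (hζJ : ζ ∈ closure J)
    (hx : ‖x‖ = 1) (hxJ : x ∈ closure J) (hxl : x ∈ F.lim) : ∃ g : Γ, g ≠ 1 ∧ F.act g ζ ∈ J := by
  have hp := hκ.np
  have hq := hκ.nq
  have hpq := hκ.ne
  obtain ⟨lp, lq⟩ := AR.lim hκ
  have hJp : p ∉ J := fun h => hJl p h lp
  have hJq : q ∉ J := fun h => hJl q h lq
  set f : ℂ → ℝ := fun ξ => (eta p q ξ).re with hf
  have hfc : ContinuousOn f J := fun ξ hξ =>
    (HN_eta_cont (p := p) (q := q) (ξ := ξ) (fun h : ξ = p => hJp (h ▸ hξ))).continuousWithinAt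
  have hf0 : ∀ ξ ∈ J, f ξ ≠ 0 := fun ξ hξ =>
    HN_eta_ne hp hq hpq (hJ1 ξ hξ) (fun h => hJp (h ▸ hξ)) (fun h => hJq (h ▸ hξ))
  have hζcl : f ζ ∈ closure (f '' J) := mem_closure_image (HN_eta_cont hζp) hζJ
  have himg : IsPreconnected (f '' J) := hJc.image f hfc
  have hoc : (f '' J).OrdConnected := himg.ordConnected
  -- the coordinate is positive on `J`
  have hpos : ∀ ξ ∈ J, 0 < f ξ := by
    intro ξ hξ
    by_contra hn
    push Not at hn
    obtain ⟨_, ⟨ξ₀, hξ₀, rfl⟩, h2⟩ := Metric.mem_closure_iff.1 hζcl (f ζ) hζ0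
    rw [Real.dist_eq, abs_lt] at h2
    have h3 : 0 < f ξ₀ := by linarith [h2.2]
    obtain ⟨ξ₁, hξ₁, h4⟩ := hoc.out ⟨ξ, hξ, rfl⟩ ⟨ξ₀, hξ₀, rfl⟩ ⟨hn, h3.le⟩
    exact hf0 ξ₁ hξ₁ h4
  -- the multiplier
  have hlt := FD_lt hκ
  have hone := FD_mul_one (F := F) hp hq hpq hκ.fp hκ.fq
  set lam : ℝ := ‖F.dact κ q‖ with hlam
  have hlam1 : 1 < lam := by
    have h0 : 0 < ‖F.dact κ p‖ := norm_pos_iff.2 (dact_ne F κ hp.le)
    by_contra hcon
    push Not at hcon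
    have : ‖F.dact κ p‖ * lam < 1 := by
      calc ‖F.dact κ p‖ * lam ≤ ‖F.dact κ p‖ * 1 := mul_le_mul_of_nonneg_left hcon h0.le
        _ < 1 := by rw [mul_one]; exact hlt
    exact absurd hone this.ne
  have hlam0 : 0 < lam := by linarith
  have hact : ∀ y : ℂ, ‖y‖ = 1 → f (F.act κ y) = lam * f y := by
    intro y hy
    have h1 := eta_act F κ hp hq hy.le
    rw [hκ.fp, hκ.fq] at h1
    simp only [hf]
    rw [h1, Complex.re_ofReal_mul]
  have hne_p : ∀ (g : Γ) {y : ℂ}, ‖y‖ = 1 → F.act g p = p → y ≠ p → F.act g y ≠ p := by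
    intro g y hy hg hyp h
    exact hyp (act_inj F g (by simp [hy]) (by simp [hp]) (h.trans hg.symm))
  have hfpi : F.act κ⁻¹ p = p := (AR.inv hκ).fq
  have hmem : ∀ g : Γ, F.act g p = p → f (F.act g ζ) ∈ f '' J → F.act g ζ ∈ J := by
    intro g hg h
    obtain ⟨ξ, hξ, h1⟩ := h
    have h2 := HN_inj hp hq hpq (hJ1 ξ hξ) (act_eq F g hζ) (fun h => hJp (h ▸ hξ))
      (hne_p g hζ hg hζp) h1
    rw [← h2]
    exact hξ
  have hζf : 0 < f ζ := hζ0
  by_cases hxp : x = p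
  · -- the arc goes to `p`
    have hclp : p ∈ closure J := hxp ▸ hxJ
    refine ⟨κ, AR.ne_one hκ, hmem κ hκ.fp ?_⟩
    rw [hact ζ hζ]
    obtain ⟨ξ₁, hξ₁, h1⟩ := HN_large hp hq hpq hJ1 hJp hpos hclp (lam * f ζ)
    have h2 : 0 < (lam - 1) * f ζ := mul_pos (by linarith) hζf
    obtain ⟨_, ⟨ξ₀, hξ₀, rfl⟩, h3⟩ := Metric.mem_closure_iff.1 hζcl _ h2
    rw [Real.dist_eq, abs_lt] at h3
    exact hoc.out ⟨ξ₀, hξ₀, rfl⟩ ⟨ξ₁, hξ₁, rfl⟩ ⟨by linarith [h3.1], h1.le⟩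
  · -- the arc goes to `q`
    have hxcl : f x ∈ closure (f '' J) := mem_closure_image (HN_eta_cont hxp) hxJ
    have hx0 : f x ≤ 0 := by
      by_contra hcon
      push Not at hcon
      exact hgap x hx hxp hcon hxl
    refine ⟨κ⁻¹, AR.ne_one (AR.inv hκ), hmem κ⁻¹ hfpi ?_⟩
    have h1 : lam * f (F.act κ⁻¹ ζ) = f ζ := by
      rw [← hact _ (act_eq F _ hζ), act_act_inv F κ hζ.le]
    set w : ℝ := f (F.act κ⁻¹ ζ) with hw
    have hw0 : 0 < w := by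
      by_contra hcon
      push Not at hcon
      have : lam * w ≤ 0 := mul_nonpos_of_nonneg_of_nonpos hlam0.le hcon
      linarith
    have hwz : w < f ζ := by
      rw [← h1]
      nlinarith
    obtain ⟨_, ⟨ξ₀, hξ₀, rfl⟩, h3⟩ := Metric.mem_closure_iff.1 hζcl (f ζ - w) (by linarith)
    rw [Real.dist_eq, abs_lt] at h3
    obtain ⟨_, ⟨ξ₁, hξ₁, rfl⟩, h4⟩ := Metric.mem_closure_iff.1 hxcl w hw0
    rw [Real.dist_eq, abs_lt] at h4
    exact hoc.out ⟨ξ₁, hξ₁, rfl⟩ ⟨ξ₀, hξ₀, rfl⟩ ⟨by linarith [h4.1], by linarith [h3.2]⟩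

/-- the limit set of a cyclic group -/
theorem HN_cyc (F : Fuchs Γ) {κ : Γ} {p q : ℂ} (hκ : F.AR κ p q)
    (hz : ∀ c, c ∈ Subgroup.zpowers κ) {ξ : ℂ} (hξ : ξ ∈ F.lim) : ξ = p ∨ ξ = q := by
  have h0 : ∀ {g : Γ} {a b : ℂ}, F.AR g a b → ξ ∈ closure (range fun n : ℕ => F.act (g ^ n) 0) →
      ξ = a := by
    intro g a b hg hcl
    have ht : Tendsto (fun n : ℕ => F.act (g ^ n) 0) atTop (𝓝 a) := hg.att 0 (by simp) (by
      intro h
      have := hg.nq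
      rw [← h] at this
      simp at this)
    have hcpt := ht.isCompact_insert_range
    have hsub : closure (range fun n : ℕ => F.act (g ^ n) 0) ⊆
        insert a (range fun n : ℕ => F.act (g ^ n) 0) :=
      closure_minimal (subset_insert _ _) hcpt.isClosed
    rcases hsub hcl with h | ⟨n, hn⟩
    · exact h
    · exfalso
      have h1 := act_lt F (g ^ n) (x := 0) (by simp)
      have h2 := lim_sphere F hξ
      rw [← hn] at h2
      exact absurd h2 h1.ne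
  have h1 : (range fun g : Γ => F.act g 0) ⊆ (range fun n : ℕ => F.act (κ ^ n) 0) ∪
      (range fun n : ℕ => F.act (κ⁻¹ ^ n) 0) := by
    rintro _ ⟨g, rfl⟩
    obtain ⟨n, rfl⟩ := Subgroup.mem_zpowers_iff.1 (hz g)
    obtain ⟨m, rfl | rfl⟩ := n.eq_nat_or_neg
    · left
      exact ⟨m, by simp⟩
    · right
      exact ⟨m, by simp⟩
  have h2 := closure_mono h1 hξ.2
  rw [closure_union] at h2
  rcases h2 with h | h
  · exact Or.inl (h0 hκ h)
  · exact Or.inr (h0 (AR.inv hκ) h)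

/-- one of the two orders gives a positive coordinate -/
theorem HN_swap {p q : ℂ} (hp : ‖p‖ = 1) (hq : ‖q‖ = 1) (hpq : p ≠ q) {ξ : ℂ} (hξ : ‖ξ‖ = 1)
    (h1 : ξ ≠ p) (h2 : ξ ≠ q) : 0 < (eta p q ξ).re ∨ 0 < (eta q p ξ).re := by
  by_contra hcon
  push Not at hcon
  obtain ⟨c1, c2⟩ := hcon
  have hx1 : p - ξ ≠ 0 := sub_ne_zero.2 (Ne.symm h1)
  have hx2 : q - ξ ≠ 0 := sub_ne_zero.2 (Ne.symm h2)
  have hpp : p * (starRingEnd ℂ) p = 1 := by
    rw [Complex.mul_conj, Complex.normSq_eq_norm_sq, hp]; norm_num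
  have hqq : q * (starRingEnd ℂ) q = 1 := by
    rw [Complex.mul_conj, Complex.normSq_eq_norm_sq, hq]; norm_num
  have e1 : eta p q ξ * eta q p ξ = -((1 - p * (starRingEnd ℂ) q) * (1 - q * (starRingEnd ℂ) p)) := by
    have hI := Complex.I_mul_I
    rw [eta, eta, div_mul_div_comm, div_eq_iff (mul_ne_zero hx1 hx2)]
    linear_combination ((1 - p * (starRingEnd ℂ) q) * (ξ - q) * (1 - q * (starRingEnd ℂ) p) *
      (ξ - p)) * hI
  have e2 : (1 - p * (starRingEnd ℂ) q) * (1 - q * (starRingEnd ℂ) p) = ((‖p - q‖ ^ 2 : ℝ) : ℂ) := by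
    have h3 : (1 - q * (starRingEnd ℂ) p) = (starRingEnd ℂ) (1 - p * (starRingEnd ℂ) q) := by
      rw [map_sub, map_one, map_mul, Complex.conj_conj, mul_comm]
    rw [h3, Complex.mul_conj, Complex.normSq_eq_norm_sq, pq_norm hp hq]
  rw [e2, HN_real hp hq hξ, HN_real hq hp hξ] at e1
  have e3 : (eta p q ξ).re * (eta q p ξ).re = -‖p - q‖ ^ 2 := by exact_mod_cast e1
  have h4 : 0 < ‖p - q‖ := norm_pos_iff.2 (sub_ne_zero.2 hpq)
  have h5 : 0 ≤ (eta p q ξ).re * (eta q p ξ).re := mul_nonneg_of_nonpos_of_nonpos c1 c2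
  have h6 : 0 < ‖p - q‖ ^ 2 := by positivity
  linarith

theorem gap_next (F : Fuchs Γ) (hI : F.Nonel → F.UC) {e : Elt Γ} (he : Norm F e) {ζ : ℂ}
    (hζ : ‖ζ‖ = 1) (hζl : ζ ∉ F.lim) (hf : e.H ζ = ζ) {J : Set ℂ}
    (hJ : J ⊆ (sphere 0 1 \ F.lim) \ {ζ}) (hJc : IsConnected J) (hJi : e.H '' J = J)
    (hJt : ∀ b ∈ J, Tendsto (fun n : ℕ => e.H^[n] b) atTop (𝓝 ζ)) {x : ℂ} (hx : ‖x‖ = 1)
    (hJx : ∀ b ∈ J, Tendsto (fun n : ℕ => e.Hi^[n] b) atTop (𝓝 x)) : x ∉ F.lim := by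
  intro hxl
  have hJ1 : ∀ ξ ∈ J, ‖ξ‖ = 1 := fun ξ hξ => by simpa using (hJ hξ).1.1
  have hJl : ∀ ξ ∈ J, ξ ∉ F.lim := fun ξ hξ => (hJ hξ).1.2
  obtain ⟨b, hb⟩ := hJc.nonempty
  have hJn : ∀ n : ℕ, e.H^[n] b ∈ J := by
    intro n
    induction n with
    | zero => exact hb
    | succ n ih =>
      rw [Function.iterate_succ_apply', ← hJi]
      exact ⟨_, ih, rfl⟩
  have hJin : ∀ n : ℕ, e.Hi^[n] b ∈ J := by
    intro n
    induction n with
    | zero => exact hb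
    | succ n ih =>
      rw [Function.iterate_succ_apply']
      rw [← hJi] at ih
      obtain ⟨b', hb', h1⟩ := ih
      rw [← h1, he.left b' (by simp [hJ1 b' hb'])]
      exact hb'
  have hζJ : ζ ∈ closure J := mem_closure_of_tendsto (hJt b hb) (Eventually.of_forall hJn)
  have hxJ : x ∈ closure J := mem_closure_of_tendsto (hJx b hb) (Eventually.of_forall hJin)
  -- a translate of `ζ` in `J`
  have hex : ∃ k : Γ, k ≠ 1 ∧ F.act k ζ ∈ J := by
    rcases elem F with h1 | ⟨κ, p, q, hκ, hz⟩ | hN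
    · exfalso
      have h2 := hxl.2
      have h3 : (range fun g : Γ => F.act g 0) ⊆ {F.act 1 0} := by
        rintro _ ⟨g, rfl⟩
        rw [h1 g]
        rfl
      have h4 := closure_mono h3 h2
      rw [closure_singleton] at h4
      have h5 : x = F.act 1 0 := h4
      rw [act_one F (by simp)] at h5
      rw [h5] at hx
      simp at hx
    · obtain ⟨lp, lq⟩ := AR.lim hκ
      have hζp : ζ ≠ p := fun h => hζl (h ▸ lp)
      have hζq : ζ ≠ q := fun h => hζl (h ▸ lq)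
      rcases HN_swap hκ.np hκ.nq hκ.ne hζ hζp hζq with h | h
      · refine HN_core F hκ (fun ξ hξ hξp hξ0 hl => ?_) hζ hζp h hJ1 hJl hJc.isPreconnected
          hζJ hx hxJ hxl
        rcases HN_cyc F hκ hz hl with h6 | h6
        · exact hξp h6
        · rw [h6] at hξ0
          simp [eta] at hξ0
      · refine HN_core F (AR.inv hκ) (fun ξ hξ hξp hξ0 hl => ?_) hζ hζq h hJ1 hJl
          hJc.isPreconnected hζJ hx hxJ hxl
        rcases HN_cyc F hκ hz hl with h6 | h6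
        · rw [h6] at hξ0
          simp [eta] at hξ0
        · exact hξp h6
    · obtain ⟨n, κ, p, q, G⟩ := gaps F hN (hI hN)
      obtain ⟨g, i, hgp, hg0⟩ := G.all ζ hζ hζl
      have hcA : ContinuousOn (F.act g) (closedBall 0 1) := act_cont F g
      have hJC : J ⊆ closedBall (0:ℂ) 1 := fun ξ hξ => by simp [hJ1 ξ hξ]
      have hcl : ∀ y : ℂ, ‖y‖ = 1 → y ∈ closure J → F.act g y ∈ closure (F.act g '' J) := by
        intro y hy hyJ
        exact ((hcA y (by simp [hy])).mono hJC).mem_closure_image hyJ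
      obtain ⟨k, hk1, hkJ⟩ := HN_core F (G.ar i) (G.gap i) (act_eq F g hζ) hgp hg0
        (J := F.act g '' J) (x := F.act g x)
        (by rintro _ ⟨ξ, hξ, rfl⟩; exact act_eq F g (hJ1 ξ hξ))
        (by
          rintro _ ⟨ξ, hξ, rfl⟩ h
          exact hJl ξ hξ ((lim_inv_iff F g (hJ1 ξ hξ)).1 h))
        (hJc.isPreconnected.image _ (hcA.mono hJC)) (hcl ζ hζ hζJ) (act_eq F g hx)
        (hcl x hx hxJ) (lim_inv F g hxl)
      refine ⟨g⁻¹ * k * g, ?_, ?_⟩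
      · intro h
        apply hk1
        have : k = g * (g⁻¹ * k * g) * g⁻¹ := by group
        rw [this, h]
        group
      · obtain ⟨ξ, hξ, h5⟩ := hkJ
        have h6 : F.act (g⁻¹ * k * g) ζ = ξ := by
          rw [act_mul F _ _ hζ.le, act_mul F _ _ (act_le F g hζ.le), ← h5,
            act_inv_act F g (hJ1 ξ hξ).le]
        rw [h6]
        exact hξ
  obtain ⟨k, hk1, hkJ⟩ := hex
  have ht := hJt _ hkJ
  -- the iterates are translates of `ζ`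
  have hit : ∀ n : ℕ, e.H^[n] (F.act k ζ) = F.act (e.θ^[n] k) ζ := by
    intro n
    induction n with
    | zero => rfl
    | succ n ih =>
      rw [Function.iterate_succ_apply', ih, he.equi _ ζ (by simp [hζ]), hf,
        Function.iterate_succ_apply']
  have hkn : ∀ n : ℕ, e.θ^[n] k ≠ 1 := by
    intro n
    induction n with
    | zero => exact hk1
    | succ n ih =>
      rw [Function.iterate_succ_apply']
      intro h
      apply ih
      exact e.θ.injective (h.trans (map_one e.θ).symm)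
  have ht' : Tendsto (fun n : ℕ => F.act (e.θ^[n] k) ζ) atTop (𝓝 ζ) := ht.congr hit
  have hζC : ζ ∈ closedBall (0:ℂ) 1 := by simp [hζ]
  by_cases hfin : ∀ a, {n : ℕ | e.θ^[n] k = a}.Finite
  · obtain ⟨φ, hφ, c, hc, d, hd, _, _, hu, _⟩ := conv F hfin
    have h1 := conv_seq F (g := fun n => e.θ^[φ n] k) hu (y := fun _ => ζ) (x := ζ)
      (fun _ => hζC) tendsto_const_nhds (fun h => hζl (h ▸ hd))
    have h2 := ht'.comp hφ.tendsto_atTop
    have h3 : ζ = c := tendsto_nhds_unique h2 h1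
    exact hζl (h3 ▸ hc)
  · push Not at hfin
    obtain ⟨a, ha⟩ := hfin
    have hfr : ∃ᶠ n in atTop, e.θ^[n] k = a := Nat.frequently_atTop_iff_infinite.2 ha
    have hfa : F.act a ζ = ζ := by
      by_contra hne
      have h1 : ∀ᶠ n in atTop, F.act (e.θ^[n] k) ζ ≠ F.act a ζ :=
        ht'.eventually_ne (Ne.symm hne)
      obtain ⟨n, h2, h3⟩ := (hfr.and_eventually h1).exists
      exact h3 (by rw [h2])
    obtain ⟨n, hn⟩ := hfr.exists
    have ha1 : a ≠ 1 := hn ▸ hkn n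
    obtain ⟨p', q', H⟩ := exists_AR F ha1
    rcases AR.fixed H hζ.le hfa with h | h
    · exact hζl (h ▸ (AR.lim H).1)
    · exact hζl (h ▸ (AR.lim H).2)


end TN

end S_H36_DG_HN

section S_H36_DG_GF

/-!
GF (local forms on the sphere from planar data).  Take `χ₀, κ₀, c, ρ` from `pole_chart`.  Near `0` the map `χ₀ ∘ gs ∘ κ₀` equals
`F = c⁻¹ ∘ G ∘ c` (`c⁻¹` the local inverse of `c` near `P₀`, holomorphic; `gs (κ₀ z) = gs (q (c z)) = q (G (c z))`, and for `w` near `P₀`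
`χ₀ (q w) = c⁻¹ w`).  Its derivative at `0` is conjugate to that of `G` at `P₀` by the multiplication by `c' 0`: same determinant
and trace.
`ell_pl`: `B₁ = fderiv F 0` satisfies `B₁² - t B₁ + 1 = 0`, `|t| < 2`; as in `DS.ell_chart` (Pool/Agent/H36/DS/SH.lean) there is a real linear
isomorphism `L` of `ℂ` with `L B₁ L⁻¹ = ` multiplication by `w₁`, `‖w₁‖ = 1`, `w₁ ≠ 1`.  `χ = L ∘ χ₀`, `κ = κ₀ ∘ L⁻¹`.
`hyp_pl`: `planar_hyp` (Pool/Agent/H36/DS/FD.lean) for `F` on a small ball gives `Φ, Φi, r`; `χ = Φ ∘ χ₀`, `κ = κ₀ ∘ Φi`, `k = c ∘ Φi` on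
`Vo = Φi ⁻¹' (small ball)`; shrink `r` (HypLoc on a smaller square) so that `Sq r ⊆ Vo` and `k '' Vo ⊆ U`.  The derivative of `k` is
injective because `Φ ∘ Φi = id` and `c' ≠ 0`.  `gs (κ w) ≠ P'` for `w ∈ Sq r`: `gs (κ w)` is near `q P₀ ≠ P'`.
-/

namespace DG
open Metric Set Filter Topology DS

/-- the domain of the local inverse of `c` -/
private def GFV (q : ℂ → S2) (P' : S2) (χ₀ : S2 → ℂ) (ρ : ℝ) : Set ℂ :=
  {w | q w ≠ P' ∧ χ₀ (q w) ∈ ball (0:ℂ) ρ}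

private theorem GF_cont {O : S2} {p : S2 → ℂ} {q : ℂ → S2} (hS : SC O p q) {K : Set S2} {P₀ : ℂ}
    {P' : S2} {χ₀ : S2 → ℂ} {κ₀ : ℂ → S2} (hC : PChart K (q P₀) P' χ₀ κ₀) :
    ContinuousOn (fun w => χ₀ (q w)) (q ⁻¹' {P'}ᶜ) :=
  hC.χ_cont.comp hS.q_smooth.continuous.continuousOn (fun _ hw => hw)

private theorem GF_open {O : S2} {p : S2 → ℂ} {q : ℂ → S2} (hS : SC O p q) {K : Set S2} {P₀ : ℂ}
    {P' : S2} {χ₀ : S2 → ℂ} {κ₀ : ℂ → S2} (hC : PChart K (q P₀) P' χ₀ κ₀) (ρ : ℝ) :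
    IsOpen (GFV q P' χ₀ ρ) := by
  have h1 : IsOpen (q ⁻¹' {P'}ᶜ) := isOpen_compl_singleton.preimage hS.q_smooth.continuous
  exact (GF_cont hS hC).isOpen_inter_preimage h1 isOpen_ball

private theorem GF_right {O : S2} {p : S2 → ℂ} {q : ℂ → S2} (hS : SC O p q) {K : Set S2} {P₀ : ℂ}
    {P' : S2} {χ₀ : S2 → ℂ} {κ₀ : ℂ → S2} (hC : PChart K (q P₀) P' χ₀ κ₀) {c : ℂ → ℂ} {ρ : ℝ}
    (hκ : ∀ z ∈ ball (0:ℂ) ρ, κ₀ z = q (c z)) {w : ℂ} (hw : w ∈ GFV q P' χ₀ ρ) :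
    c (χ₀ (q w)) = w := by
  have h1 := hκ _ hw.2
  rw [hC.κχ _ hw.1] at h1
  rw [← hS.pq (c (χ₀ (q w))), ← h1, hS.pq]

private theorem GF_deriv {O : S2} {p : S2 → ℂ} {q : ℂ → S2} (hS : SC O p q) {K : Set S2} {P₀ : ℂ}
    {P' : S2} {χ₀ : S2 → ℂ} {κ₀ : ℂ → S2} (hC : PChart K (q P₀) P' χ₀ κ₀) {c : ℂ → ℂ} {ρ : ℝ}
    (hc : DifferentiableOn ℂ c (ball 0 ρ)) (hc' : ∀ z ∈ ball (0:ℂ) ρ, deriv c z ≠ 0)
    (hκ : ∀ z ∈ ball (0:ℂ) ρ, κ₀ z = q (c z)) {w : ℂ} (hw : w ∈ GFV q P' χ₀ ρ) :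
    HasDerivAt (fun w => χ₀ (q w)) (deriv c (χ₀ (q w)))⁻¹ w := by
  have h1 : IsOpen (q ⁻¹' {P'}ᶜ) := isOpen_compl_singleton.preimage hS.q_smooth.continuous
  refine HasDerivAt.of_local_left_inverse (f := c) ?_ ?_ (hc' _ hw.2) ?_
  · exact (GF_cont hS hC).continuousAt (h1.mem_nhds hw.1)
  · exact (hc.differentiableAt (isOpen_ball.mem_nhds hw.2)).hasDerivAt
  · filter_upwards [(GF_open hS hC ρ).mem_nhds hw] with y hy
    exact GF_right hS hC hκ hy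

private theorem GF_diff {O : S2} {p : S2 → ℂ} {q : ℂ → S2} (hS : SC O p q) {K : Set S2} {P₀ : ℂ}
    {P' : S2} {χ₀ : S2 → ℂ} {κ₀ : ℂ → S2} (hC : PChart K (q P₀) P' χ₀ κ₀) {c : ℂ → ℂ} {ρ : ℝ}
    (hc : DifferentiableOn ℂ c (ball 0 ρ)) (hc' : ∀ z ∈ ball (0:ℂ) ρ, deriv c z ≠ 0)
    (hκ : ∀ z ∈ ball (0:ℂ) ρ, κ₀ z = q (c z)) :
    ContDiffOn ℝ 1 (fun w => χ₀ (q w)) (GFV q P' χ₀ ρ) := by
  have h1 : DifferentiableOn ℂ (fun w => χ₀ (q w)) (GFV q P' χ₀ ρ) := fun w hw =>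
    (GF_deriv hS hC hc hc' hκ hw).differentiableAt.differentiableWithinAt
  have h2 : ContDiffOn ℂ 1 (fun w => χ₀ (q w)) (GFV q P' χ₀ ρ) := h1.contDiffOn (GF_open hS hC ρ)
  exact h2.restrict_scalars ℝ

private theorem GF_mem {q : ℂ → S2} {K : Set S2} {P₀ : ℂ}
    {P' : S2} {χ₀ : S2 → ℂ} {κ₀ : ℂ → S2} (hC : PChart K (q P₀) P' χ₀ κ₀) {ρ : ℝ} (hρ : 0 < ρ) :
    P₀ ∈ GFV q P' χ₀ ρ := by
  refine ⟨?_, ?_⟩
  · rw [← hC.κ0]
    exact hC.κ_ne 0
  · rw [← hC.κ0, hC.χκ]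
    exact mem_ball_self hρ

/-- multiplication by a nonzero number -/
private noncomputable def GFe (a : ℂ) (ha : a ≠ 0) : ℂ ≃ₗ[ℝ] ℂ :=
  { LinearMap.mulLeft ℝ a with
    invFun := fun z => a⁻¹ * z
    left_inv := fun z => by
      change a⁻¹ * (a * z) = z
      rw [← mul_assoc, inv_mul_cancel₀ ha, one_mul]
    right_inv := fun z => by
      change a * (a⁻¹ * z) = z
      rw [← mul_assoc, mul_inv_cancel₀ ha, one_mul] }

/-- conjugation of `B` by the multiplication by `a` -/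
private noncomputable def GFB (a : ℂ) (B : ℂ →L[ℝ] ℂ) : ℂ →L[ℝ] ℂ :=
  ((ContinuousLinearMap.toSpanSingleton ℂ a⁻¹).restrictScalars ℝ : ℂ →L[ℝ] ℂ).comp
    (B.comp ((ContinuousLinearMap.toSpanSingleton ℂ a).restrictScalars ℝ : ℂ →L[ℝ] ℂ))

private theorem GFB_eq {a : ℂ} (ha : a ≠ 0) (B : ℂ →L[ℝ] ℂ) :
    (GFB a B : ℂ →ₗ[ℝ] ℂ) = (GFe a ha).symm.conj (B : ℂ →ₗ[ℝ] ℂ) := by
  apply LinearMap.ext
  intro z
  change B (z * a) * a⁻¹ = a⁻¹ * B (a * z)
  rw [mul_comm z a, mul_comm]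

private theorem GFB_det {a : ℂ} (ha : a ≠ 0) (B : ℂ →L[ℝ] ℂ) : (GFB a B).det = B.det := by
  change LinearMap.det (GFB a B : ℂ →ₗ[ℝ] ℂ) = LinearMap.det (B : ℂ →ₗ[ℝ] ℂ)
  rw [GFB_eq ha]
  exact LinearMap.det_conj (B : ℂ →ₗ[ℝ] ℂ) (GFe a ha).symm

private theorem GFB_tr {a : ℂ} (ha : a ≠ 0) (B : ℂ →L[ℝ] ℂ) :
    LinearMap.trace ℝ ℂ (GFB a B : ℂ →ₗ[ℝ] ℂ) = LinearMap.trace ℝ ℂ (B : ℂ →ₗ[ℝ] ℂ) := by
  rw [GFB_eq ha]
  exact LinearMap.trace_conj' (B : ℂ →ₗ[ℝ] ℂ) (GFe a ha).symm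

/-- the derivative of the map in the chart -/
private theorem GF_main {O : S2} {p : S2 → ℂ} {q : ℂ → S2} (hS : SC O p q) {K : Set S2} {P₀ : ℂ}
    {P' : S2} {χ₀ : S2 → ℂ} {κ₀ : ℂ → S2} (hC : PChart K (q P₀) P' χ₀ κ₀) {c : ℂ → ℂ} {ρ : ℝ}
    (hρ : 0 < ρ)
    (hc : DifferentiableOn ℂ c (ball 0 ρ)) (hc0 : c 0 = P₀)
    (hc' : ∀ z ∈ ball (0:ℂ) ρ, deriv c z ≠ 0)
    (hκ : ∀ z ∈ ball (0:ℂ) ρ, κ₀ z = q (c z)) {gs : S2 → S2} {G : ℂ → ℂ}
    (hGq : ∀ᶠ z in 𝓝 P₀, gs (q z) = q (G z)) (hGP : G P₀ = P₀) {B : ℂ →L[ℝ] ℂ}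
    (hB : HasFDerivAt G B P₀) :
    HasFDerivAt (fun z => χ₀ (gs (κ₀ z))) (GFB (deriv c 0) B) 0 := by
  have h0 : (0:ℂ) ∈ ball (0:ℂ) ρ := mem_ball_self hρ
  have hcd : HasDerivAt c (deriv c 0) 0 :=
    (hc.differentiableAt (isOpen_ball.mem_nhds h0)).hasDerivAt
  have hχP : χ₀ (q P₀) = 0 := by rw [← hC.κ0, hC.χκ]
  have h1 := GF_deriv hS hC hc hc' hκ (GF_mem hC hρ)
  rw [hχP] at h1
  have h2 : HasFDerivAt (fun z => G (c z))
      (B.comp ((ContinuousLinearMap.toSpanSingleton ℂ (deriv c 0)).restrictScalars ℝ : ℂ →L[ℝ] ℂ))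
      0 := by
    rw [← hc0] at hB
    exact hB.comp 0 (hcd.hasFDerivAt.restrictScalars ℝ)
  have h3 : HasFDerivAt (fun z => χ₀ (q (G (c z)))) (GFB (deriv c 0) B) 0 := by
    have h4 : HasFDerivAt (fun w => χ₀ (q w))
        ((ContinuousLinearMap.toSpanSingleton ℂ (deriv c 0)⁻¹).restrictScalars ℝ : ℂ →L[ℝ] ℂ)
        (G (c 0)) := by
      rw [hc0, hGP]
      exact h1.hasFDerivAt.restrictScalars ℝ
    exact h4.comp 0 h2
  refine h3.congr_of_eventuallyEq ?_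
  have h5 : ∀ᶠ z in 𝓝 (0:ℂ), gs (q (c z)) = q (G (c z)) := by
    have : Tendsto c (𝓝 0) (𝓝 P₀) := by
      rw [← hc0]
      exact hcd.continuousAt
    exact this.eventually hGq
  filter_upwards [h5, isOpen_ball.mem_nhds h0] with z hz hz'
  rw [hκ z hz', hz]

theorem ell_pl {O : S2} {p : S2 → ℂ} {q : ℂ → S2} (hS : SC O p q) {K : Set S2} {P₀ : ℂ} {P' : S2}
    (hP' : P' ∈ K) (hPK : q P₀ ∈ K) (hne : q P₀ ≠ P') {gs : S2 → S2} {G : ℂ → ℂ}
    (hGq : ∀ᶠ z in 𝓝 P₀, gs (q z) = q (G z)) (hGP : G P₀ = P₀) {B : ℂ →L[ℝ] ℂ}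
    (hB : HasFDerivAt G B P₀) (hdet : B.det = 1)
    (htr : |LinearMap.trace ℝ ℂ (B : ℂ →ₗ[ℝ] ℂ)| < 2) : EllPt K gs (q P₀) := by
  obtain ⟨χ₀, κ₀, c, ρ, hρ, hC, hc, hc0, hc', -, hκ⟩ := pole_chart hS hP' hne
  have ha : deriv c 0 ≠ 0 := hc' 0 (mem_ball_self hρ)
  have hF := GF_main hS hC hρ hc hc0 hc' hκ hGq hGP hB
  obtain ⟨L, M, w₁, hLM, hML, hw1, hw2, hconj⟩ := SH_conj (B := GFB (deriv c 0) B)
    (by rw [GFB_det ha, hdet]) (by rw [GFB_tr ha]; exact htr)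
  have hχP : χ₀ (q P₀) = 0 := by rw [← hC.κ0, hC.χκ]
  refine ⟨P', fun x => L (χ₀ x), fun z => κ₀ (M z), w₁, ?_, hw1, hw2, ?_⟩
  · exact
      { hP' := hP'
        κ_cont := hC.κ_cont.comp M.continuous
        κ_ne := fun z => hC.κ_ne _
        χκ := fun z => by rw [hC.χκ, hLM]
        κχ := fun x hx => by rw [hML, hC.κχ x hx]
        χ_cont := L.continuous.comp_continuousOn hC.χ_cont
        κ0 := by rw [map_zero, hC.κ0] }
  · have hB' : HasFDerivAt (fun z => χ₀ (gs (κ₀ z))) (GFB (deriv c 0) B) (M 0) := by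
      rw [map_zero]; exact hF
    have h1 : HasFDerivAt (fun z => χ₀ (gs (κ₀ (M z)))) ((GFB (deriv c 0) B).comp M) 0 :=
      hB'.comp 0 M.hasFDerivAt
    have h2 : HasFDerivAt (fun z => L (χ₀ (gs (κ₀ (M z)))))
        (L.comp ((GFB (deriv c 0) B).comp M)) 0 := L.hasFDerivAt.comp 0 h1
    have h3 : HasFDerivAt (𝕜 := ℂ) (fun z => L (χ₀ (gs (κ₀ (M z)))))
        (ContinuousLinearMap.toSpanSingleton ℂ w₁) 0 := by
      apply hasFDerivAt_of_restrictScalars ℝ h2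
      ext z
      · simp only [ContinuousLinearMap.coe_restrictScalars',
          ContinuousLinearMap.toSpanSingleton_apply,
          ContinuousLinearMap.comp_apply, smul_eq_mul]
        rw [hconj, mul_comm]
    have h4 := h3.hasDerivAt
    rw [ContinuousLinearMap.toSpanSingleton_apply, one_smul] at h4
    rw [hasDerivAt_iff_tendsto_slope_zero] at h4
    have h5 : L (χ₀ (gs (κ₀ (M 0)))) = 0 := by
      rw [map_zero, hC.κ0, hGq.self_of_nhds, hGP, hχP, map_zero]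
    have h6 : 𝓝[(fun z => κ₀ (M z)) ⁻¹' Kᶜ] (0:ℂ) ≤ 𝓝[≠] 0 := by
      apply nhdsWithin_mono
      intro z hz hz0
      rw [Set.mem_singleton_iff] at hz0
      rw [hz0] at hz
      apply hz
      change κ₀ (M 0) ∈ K
      rw [map_zero, hC.κ0]
      exact hPK
    refine (h4.mono_left h6).congr fun z => ?_
    rw [zero_add, h5, sub_zero, smul_eq_mul, div_eq_inv_mul]

theorem hyp_pl {O : S2} {p : S2 → ℂ} {q : ℂ → S2} (hS : SC O p q) {K : Set S2} {P₀ : ℂ} {P' : S2}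
    (hP' : P' ∈ K) (hne : q P₀ ≠ P') {gs : S2 → S2} {G : ℂ → ℂ} {U : Set ℂ} (hU : IsOpen U)
    (hPU : P₀ ∈ U) (hG : ContDiffOn ℝ 1 G U) (hGq : ∀ z ∈ U, gs (q z) = q (G z))
    (hGP : G P₀ = P₀) (hdet : (fderiv ℝ G P₀).det = 1)
    (htr : 2 < LinearMap.trace ℝ ℂ (fderiv ℝ G P₀ : ℂ →ₗ[ℝ] ℂ)) :
    ∃ (χ : S2 → ℂ) (κ : ℂ → S2) (k : ℂ → ℂ) (Vo : Set ℂ) (r lp km kp : ℝ),
      PChart K (q P₀) P' χ κ ∧ HypLoc (fun w => χ (gs (κ w))) r lp km kp ∧
      (∀ w ∈ Sq r, gs (κ w) ≠ P') ∧ IsOpen Vo ∧ Sq r ⊆ Vo ∧ ContDiffOn ℝ 1 k Vo ∧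
      (∀ z ∈ Vo, κ z = q (k z) ∧ k z ∈ U) ∧ (∀ z ∈ Vo, Function.Injective (fderiv ℝ k z)) ∧
      k 0 = P₀ := by
  obtain ⟨χ₀, κ₀, c, ρ, hρ, hC, hc, hc0, hc', -, hκ⟩ := pole_chart hS hP' hne
  have h0 : (0:ℂ) ∈ ball (0:ℂ) ρ := mem_ball_self hρ
  have ha : deriv c 0 ≠ 0 := hc' 0 h0
  have hχP : χ₀ (q P₀) = 0 := by rw [← hC.κ0, hC.χκ]
  have hVo := GF_open hS hC ρ
  have hcC : ContDiffOn ℝ 1 c (ball 0 ρ) := by
    have h2 : ContDiffOn ℂ 1 c (ball 0 ρ) := hc.contDiffOn isOpen_ball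
    exact h2.restrict_scalars ℝ
  -- the domain
  set U₀ : Set ℂ := U ∩ G ⁻¹' (GFV q P' χ₀ ρ) with hU₀
  have hU₀o : IsOpen U₀ := hG.continuousOn.isOpen_inter_preimage hU hVo
  set U₁ : Set ℂ := ball 0 ρ ∩ c ⁻¹' U₀ with hU₁
  have hU₁o : IsOpen U₁ := hc.continuousOn.isOpen_inter_preimage isOpen_ball hU₀o
  have h0U₁ : (0:ℂ) ∈ U₁ := by
    refine ⟨h0, ?_, ?_⟩
    · rw [hc0]; exact hPU
    · change G (c 0) ∈ GFV q P' χ₀ ρ
      rw [hc0, hGP]
      exact GF_mem hC hρ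
  set F : ℂ → ℂ := fun z => χ₀ (gs (κ₀ z)) with hF
  have hFeq : ∀ z ∈ U₁, F z = χ₀ (q (G (c z))) := by
    intro z hz
    rw [hF]
    simp only
    rw [hκ z hz.1, hGq _ hz.2.1]
  have hFc : ContDiffOn ℝ 1 F U₁ := by
    have h1 : ContDiffOn ℝ 1 (fun z => G (c z)) U₁ :=
      hG.comp (hcC.mono inter_subset_left) (fun z hz => hz.2.1)
    have h2 : ContDiffOn ℝ 1 (fun z => χ₀ (q (G (c z)))) U₁ :=
      (GF_diff hS hC hc hc' hκ).comp h1 (fun z hz => hz.2.2)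
    exact h2.congr hFeq
  have hF0 : F 0 = 0 := by
    rw [hFeq 0 h0U₁, hc0, hGP, hχP]
  have hGd : HasFDerivAt G (fderiv ℝ G P₀) P₀ :=
    ((hG.differentiableOn one_ne_zero).differentiableAt (hU.mem_nhds hPU)).hasFDerivAt
  have hGq' : ∀ᶠ z in 𝓝 P₀, gs (q z) = q (G z) := by
    filter_upwards [hU.mem_nhds hPU] with z hz
    exact hGq z hz
  have hFd := GF_main hS hC hρ hc hc0 hc' hκ hGq' hGP hGd
  have hFd' : fderiv ℝ F 0 = GFB (deriv c 0) (fderiv ℝ G P₀) := hFd.fderiv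
  obtain ⟨Φ, Φi, r, lp, km, kp, c1, c2, c3, c4, c5, c6, c7⟩ := planar_hyp hU₁o h0U₁ hFc hF0
    (by rw [hFd', GFB_det ha, hdet]) (by rw [hFd', GFB_tr ha]; exact htr)
  have hΦi0 : Φi 0 = 0 := by
    have := c3 0
    rwa [c5] at this
  refine ⟨fun x => Φ (χ₀ x), fun z => κ₀ (Φi z), fun z => c (Φi z), Φi ⁻¹' U₁, r, lp, km, kp,
    ?_, c6, ?_, hU₁o.preimage c2.continuous, fun w hw => c7 w hw, ?_, ?_, ?_, ?_⟩
  · exact
      { hP' := hP'
        κ_cont := hC.κ_cont.comp c2.continuous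
        κ_ne := fun z => hC.κ_ne _
        χκ := fun z => by rw [hC.χκ, c4]
        κχ := fun x hx => by rw [c3, hC.κχ x hx]
        χ_cont := c1.continuous.comp_continuousOn hC.χ_cont
        κ0 := by rw [hΦi0, hC.κ0] }
  · intro w hw
    have hw' := c7 w hw
    simp only
    rw [hκ _ hw'.1, hGq _ hw'.2.1]
    exact hw'.2.2.1
  · exact hcC.comp c2.contDiffOn (fun z hz => hz.1)
  · intro z hz
    exact ⟨hκ _ hz.1, hz.2.1⟩
  · intro z hz
    have h1 : HasFDerivAt Φi (fderiv ℝ Φi z) z :=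
      (c2.differentiable one_ne_zero z).hasFDerivAt
    have h2 : HasFDerivAt Φ (fderiv ℝ Φ (Φi z)) (Φi z) :=
      (c1.differentiable one_ne_zero _).hasFDerivAt
    have h3 : HasFDerivAt (fun z => Φ (Φi z)) ((fderiv ℝ Φ (Φi z)).comp (fderiv ℝ Φi z)) z :=
      h2.comp z h1
    have h4 : (fun z => Φ (Φi z)) = id := funext c4
    rw [h4] at h3
    have h5 : (fderiv ℝ Φ (Φi z)).comp (fderiv ℝ Φi z) = ContinuousLinearMap.id ℝ ℂ :=
      h3.unique (hasFDerivAt_id z)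
    have h6 : HasDerivAt c (deriv c (Φi z)) (Φi z) :=
      (hc.differentiableAt (isOpen_ball.mem_nhds hz.1)).hasDerivAt
    have h7 : HasFDerivAt (fun z => c (Φi z))
        (((ContinuousLinearMap.toSpanSingleton ℂ (deriv c (Φi z))).restrictScalars ℝ :
          ℂ →L[ℝ] ℂ).comp (fderiv ℝ Φi z)) z :=
      (h6.hasFDerivAt.restrictScalars ℝ).comp z h1
    rw [h7.fderiv]
    intro x y hxy
    have h8 : (fderiv ℝ Φi z x) * deriv c (Φi z) = (fderiv ℝ Φi z y) * deriv c (Φi z) := hxy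
    have h9 := mul_right_cancel₀ (hc' _ hz.1) h8
    have h10 : ∀ x, fderiv ℝ Φ (Φi z) (fderiv ℝ Φi z x) = x := fun x => by
      have := congrArg (fun T : ℂ →L[ℝ] ℂ => T x) h5
      exact this
    rw [← h10 x, ← h10 y, h9]
  · change c (Φi 0) = P₀
    rw [hΦi0, hc0]

end DG

end S_H36_DG_GF

section S_H36_DG_HEd

/-!
HEd (hyperbolic charts at a fixed point of a lift).  Let `G2 z = G (G z)`, `V' = V ∩ G ⁻¹' V` (open: `V ⊆ X` open, `G` continuous on `X`), `P ∈ V'`; `gs (gs (q z)) = q (G2 z)` on `V'`; `B = fderiv ℝ G P`, `fderiv ℝ G2 P = B ∘ B`, `det = 1`, trace `= (tr B) ^ 2 - 2 > 2`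
(`2 < |tr B|`; for 2x2 matrices of determinant one `tr (B²) = (tr B)² - 2`, see `SH_entries` in DS/SH).  `hyp_pl` (DG/GF) for `gs ∘ gs`, `G2`, `V'` gives `χ κ k Vo r lp km kp`.  `HData X G P k F Vo r lp km kp` with
`F w = χ (gs (gs (κ w)))`: `kinj`: `κ = q ∘ k` on `Vo` is injective (`χ (κ z) = z`); `conj`: for `w ∈ Sq r` `gs (gs (κ w)) = q (G2 (k w))` and, as it is `≠ P'` (`ne`), `κ (F w) = gs (gs (κ w))` (`κχ`); if `F w ∈ Sq r ⊆ Vo` then
`q (k (F w)) = κ (F w) = q (G2 (k w))`, `q` is injective (`pq`).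
-/

namespace CV

open Metric Set Filter Topology Function DS TN

section
variable {S : Type} [MetricSpace S] [CompactSpace S] {X : Set ℂ} {Γ : Type} [Group Γ]
  {A : Γ → ℂ → ℂ} {p : ℂ → S} {g gi : S → S} {G Gi : ℂ → ℂ} {θ : Γ ≃* Γ} {ρ : ℂ → ℝ}
  {Hyp : S → Prop} {U : Set ℂ} {N : Subgroup Γ}

/-- the hyperbolic chart at a fixed point of `G`, on the sphere and in the plane -/
theorem hyp_data (D : Deck X A p) (L : Lift X A p g gi G Gi θ ρ)
    {O : S2} {pp : S2 → ℂ} {q : ℂ → S2} (hS : SC O pp q) {K : Set S2} {P' : S2} (hP' : P' ∈ K)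
    {P : ℂ} (hP : P ∈ X) (hGP : G P = P) (hne : q P ≠ P')
    {gs : S2 → S2} {V : Set ℂ} (hV : IsOpen V) (hPV : P ∈ V) (hVX : V ⊆ X)
    (hgs : ∀ z ∈ V, gs (q z) = q (G z)) (hdet : (fderiv ℝ G P).det = 1)
    (htr : 2 < |LinearMap.trace ℝ ℂ (fderiv ℝ G P : ℂ →ₗ[ℝ] ℂ)|) :
    ∃ (χ : S2 → ℂ) (κ : ℂ → S2) (k : ℂ → ℂ) (Vo : Set ℂ) (r lp km kp : ℝ),
      PChart K (q P) P' χ κ ∧ (∀ w ∈ Sq r, gs (gs (κ w)) ≠ P') ∧
      HData X G P k (fun w => χ (gs (gs (κ w)))) Vo r lp km kp ∧ 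
      (∀ z ∈ Vo, κ z = q (k z) ∧ k z ∈ V) := by
  have hcG : ContDiffOn ℝ 1 G V := L.c1.mono hVX
  set V' : Set ℂ := V ∩ G ⁻¹' V with hV'
  have hV'o : IsOpen V' := hcG.continuousOn.isOpen_inter_preimage hV hV
  have hPV' : P ∈ V' := by
    refine ⟨hPV, ?_⟩
    change G P ∈ V
    rw [hGP]; exact hPV
  have hcG2 : ContDiffOn ℝ 1 (fun z => G (G z)) V' :=
    hcG.comp (hcG.mono inter_subset_left) (fun z hz => hz.2)
  have hq2 : ∀ z ∈ V', gs (gs (q z)) = q (G (G z)) := by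
    intro z hz
    rw [hgs z hz.1, hgs (G z) hz.2]
  have hdG : DifferentiableAt ℝ G P :=
    (hcG.contDiffAt (hV.mem_nhds hPV)).differentiableAt (by norm_num)
  have hfd : fderiv ℝ (fun z => G (G z)) P = (fderiv ℝ G P).comp (fderiv ℝ G P) := by
    have h1 : HasFDerivAt G (fderiv ℝ G P) (G P) := by
      rw [hGP]; exact hdG.hasFDerivAt
    exact (h1.comp P hdG.hasFDerivAt).fderiv
  have hdet2 : (fderiv ℝ (fun z => G (G z)) P).det = 1 := by
    rw [hfd]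
    change LinearMap.det (((fderiv ℝ G P : ℂ →ₗ[ℝ] ℂ)).comp (fderiv ℝ G P : ℂ →ₗ[ℝ] ℂ)) = 1
    rw [LinearMap.det_comp]
    have h2 : LinearMap.det (fderiv ℝ G P : ℂ →ₗ[ℝ] ℂ) = 1 := hdet
    rw [h2, one_mul]
  have htr2 : 2 < LinearMap.trace ℝ ℂ (fderiv ℝ (fun z => G (G z)) P : ℂ →ₗ[ℝ] ℂ) := by
    rw [hfd]
    have e1 := SH_entries (fderiv ℝ G P)
    have e2 := (SH_entries ((fderiv ℝ G P).comp (fderiv ℝ G P))).2
    rw [e2]
    rw [e1.2] at htr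
    have hd := e1.1
    rw [hdet] at hd
    have hB := SH_apply (fderiv ℝ G P)
    rw [ContinuousLinearMap.comp_apply, ContinuousLinearMap.comp_apply,
      hB ((fderiv ℝ G P) 1), hB ((fderiv ℝ G P) Complex.I)]
    have hsq : 4 < (((fderiv ℝ G P) 1).re + ((fderiv ℝ G P) Complex.I).im) ^ 2 := by
      have := (sq_lt_sq.2 (by rw [abs_of_pos (by norm_num : (0:ℝ) < 2)]; exact htr :
        |(2:ℝ)| < |((fderiv ℝ G P) 1).re + ((fderiv ℝ G P) Complex.I).im|))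
      linarith
    simp only [Complex.add_re, Complex.add_im, Complex.mul_re, Complex.mul_im, Complex.ofReal_re,
      Complex.ofReal_im]
    nlinarith
  obtain ⟨χ, κ, k, Vo, r, lp, km, kp, hC, hloc, hne2, hVo, hsq, hk1, hkV, hkinj, hk0⟩ :=
    DG.hyp_pl (gs := fun x => gs (gs x)) (G := fun z => G (G z)) hS hP' hne hV'o hPV' hcG2 hq2
      (by rw [hGP, hGP]) hdet2 htr2
  refine ⟨χ, κ, k, Vo, r, lp, km, kp, hC, hne2, ?_, fun z hz => ⟨(hkV z hz).1, (hkV z hz).2.1⟩⟩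
  refine ⟨hloc, hVo, hsq, hk1, fun z hz => hVX (hkV z hz).2.1, hkinj, ?_, hk0, ?_⟩
  · intro z hz z' hz' h
    have h1 : κ z = κ z' := by rw [(hkV z hz).1, (hkV z' hz').1, h]
    rw [← hC.χκ z, h1, hC.χκ]
  · intro w hw hFw
    have h1 : κ (χ (gs (gs (κ w)))) = gs (gs (κ w)) := hC.κχ _ (hne2 w hw)
    have h2 : κ (χ (gs (gs (κ w)))) = q (k (χ (gs (gs (κ w))))) := (hkV _ (hsq hFw)).1
    have h3 : gs (gs (κ w)) = q (G (G (k w))) := by
      rw [(hkV w (hsq hw)).1, hq2 (k w) (hkV w (hsq hw)).2]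
    have h4 : q (k (χ (gs (gs (κ w))))) = q (G (G (k w))) := by
      rw [← h2, h1, h3]
    change k (χ (gs (gs (κ w)))) = G (G (k w))
    rw [← hS.pq (k (χ (gs (gs (κ w))))), h4, hS.pq]

end

end CV

end S_H36_DG_HEd

section S_H36_DG_HEa

/-!
HEa.  `ell_end`: `ell_pl` (DG/GF) with `B = fderiv ℝ G P`, `det B = 1` (`Cond.one`).
`hyp_arc`: `exists_SC` (DS/XA), `gs x = q (G (pp x))` (so `gs (q z) = q (G z)`), `K = univ`, `P' = O` (`q P ≠ O`), `V = X`: `hyp_data` gives `HData`; `T = k '' {⟨x, 0⟩ | 0 ≤ x ≤ r}`: connected (image of a segment in `Sq r ⊆ Vo`), in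
`StabX X p g P` by `axis_st`, contains `P = k 0` and `k ⟨r, 0⟩ ≠ P` (`kinj`).
-/

namespace CV

open Metric Set Filter Topology Function DS TN

section
variable {S : Type} [MetricSpace S] [CompactSpace S] {X : Set ℂ} {Γ : Type} [Group Γ]
  {A : Γ → ℂ → ℂ} {p : ℂ → S} {g gi : S → S} {G Gi : ℂ → ℂ} {θ : Γ ≃* Γ} {ρ : ℂ → ℝ}
  {Hyp : S → Prop} {U : Set ℂ} {N : Subgroup Γ}

theorem ell_end (D : Deck X A p) (L : Lift X A p g gi G Gi θ ρ) (C : Cond X A p g gi G Hyp)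
    {O : S2} {pp : S2 → ℂ} {q : ℂ → S2} (hS : SC O pp q) {K : Set S2} {P' : S2} (hP' : P' ∈ K)
    {P : ℂ} (hP : P ∈ X) (hGP : G P = P) (hPK : q P ∈ K) (hne : q P ≠ P') {gs : S2 → S2}
    {V : Set ℂ} (hV : IsOpen V) (hPV : P ∈ V) (hVX : V ⊆ X) (hgs : ∀ z ∈ V, gs (q z) = q (G z))
    (htr : |LinearMap.trace ℝ ℂ (fderiv ℝ G P : ℂ →ₗ[ℝ] ℂ)| < 2) : EllPt K gs (q P) := by
  have hB : HasFDerivAt G (fderiv ℝ G P) P :=
    ((L.c1.differentiableOn one_ne_zero).differentiableAt (D.opn.mem_nhds hP)).hasFDerivAt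
  have hGq : ∀ᶠ z in 𝓝 P, gs (q z) = q (G z) := by
    filter_upwards [hV.mem_nhds hPV] with z hz
    exact hgs z hz
  exact DG.ell_pl hS hP' hPK hne hGq hGP hB (C.one D L hP hGP).1 htr

/-- a connected subset of the stable set of a hyperbolic fixed point -/
theorem hyp_arc (D : Deck X A p) (L : Lift X A p g gi G Gi θ ρ) (C : Cond X A p g gi G Hyp)
    {P : ℂ} (hP : P ∈ X) (hGP : G P = P) (hH : Hyp (p P))
    (htr : 2 < |LinearMap.trace ℝ ℂ (fderiv ℝ G P : ℂ →ₗ[ℝ] ℂ)|) :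
    ∃ T ⊆ StabX X p g P, IsConnected T ∧ P ∈ T ∧ ∃ y ∈ T, y ≠ P := by
  have hne : (sphere (0 : E3) 1).Nonempty := NormedSpace.sphere_nonempty.2 zero_le_one
  obtain ⟨O⟩ : Nonempty S2 := hne.to_subtype
  obtain ⟨pp, q, hS⟩ := exists_SC O
  obtain ⟨χ, κ, k, Vo, r, lp, km, kp, -, -, H, -⟩ :=
    hyp_data D L hS (K := univ) (P' := O) (mem_univ _) hP hGP (hS.q_ne P)
      (gs := fun x => q (G (pp x))) D.opn hP Subset.rfl
      (fun z _ => by show q (G (pp (q z))) = q (G z); rw [hS.pq]) (C.one D L hP hGP).1 htr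
  have hr : 0 < r := H.loc.hr
  have hmem : ∀ x ∈ Icc (0:ℝ) r, (⟨x, 0⟩ : ℂ) ∈ Vo := by
    intro x hx
    apply H.sq
    exact ⟨by simp only; linarith [hx.1], hx.2, by simp only; linarith, by simp only; linarith⟩
  have hline : Continuous fun x : ℝ => (⟨x, 0⟩ : ℂ) := by
    have h1 : (fun x : ℝ => (⟨x, 0⟩ : ℂ)) = fun x : ℝ => (x : ℂ) := by
      funext x
      exact Complex.ext (by simp) (by simp)
    rw [h1]
    exact Complex.continuous_ofReal
  have h0 : k ⟨0, 0⟩ = P := H.k0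
  refine ⟨(fun x : ℝ => k ⟨x, 0⟩) '' Icc 0 r, ?_, ?_, ⟨0, left_mem_Icc.2 hr.le, h0⟩,
    k ⟨r, 0⟩, ⟨r, right_mem_Icc.2 hr.le, rfl⟩, ?_⟩
  · rintro _ ⟨x, hx, rfl⟩
    exact axis_st D L hP hGP H (by rw [abs_of_nonneg hx.1]; exact hx.2)
  · refine (isConnected_Icc hr.le).image _ ?_
    exact H.c1.continuousOn.comp hline.continuousOn hmem
  · intro h1
    rw [← h0] at h1
    have h2 := H.kinj (hmem r (right_mem_Icc.2 hr.le)) (hmem 0 (left_mem_Icc.2 hr.le)) h1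
    have h3 := congrArg Complex.re h2
    simp only at h3
    exact hr.ne' h3

end

end CV

end S_H36_DG_HEa

section S_H36_DG_HE

/-!
HE (hyperbolic local form at a fixed point of a lift, on the sphere).  `j = q` on `V`; `K` is a subset of the sphere such that a connected subset `T` of `X \ U` with a point in `q⁻¹ K` is in `q⁻¹ K` (`hKc`).
`hyp_data` (DG/HEd; `det = 1` by `Cond.one`) gives `χ κ k Vo r lp km kp`; `gs^[2] = gs ∘ gs`.
`HypChart` for `gs^[2]`: `axis`: `T = {k ⟨x', 0⟩ : x' between 0 and x}` is connected, in `StabX X p g P` (`axis_st`) so in `X \ U` (`M.stab`, `C.per`), contains `P = k 0`, `q P ∈ K`: so `q (k ⟨x, 0⟩) ∈ K`.  `sp`: `SPX` at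
`k ⟨x, 0⟩` with `Q = P` and the curve `t ↦ k ⟨x + t e, 0⟩`, `e` small (regular by `inj`); `j (k ..) = q (k ..)` as `k z ∈ V`.  `cross`: `κ ⟨0, y⟩ ∈ K` with `SPS`: some `x₁ ∈ X` with `j x₁ = κ ⟨0, y⟩`, `SPX x₁`, i.e. `Q`, `v`, `α` in
`StabX X p g Q`, `α 0 = x₁`; `j x₁ = q (k ⟨0, y⟩) = j (k ⟨0, y⟩)`, so `x₁ = k ⟨0, y⟩` by injectivity of `j` on `X` (`hji`).  `cross_pl` gives `z` with `k z = α t`; the set `α '' Ioo (-1) 1` is connected, in `X \ U`, contains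
`k ⟨0, y⟩` with `q (k ⟨0, y⟩) ∈ K`, so `κ z = q (k z) = q (α t) ∈ K`.
-/

namespace CV

open Metric Set Filter Topology Function DS TN

section
variable {S : Type} [MetricSpace S] [CompactSpace S] {X : Set ℂ} {Γ : Type} [Group Γ]
  {A : Γ → ℂ → ℂ} {p : ℂ → S} {g gi : S → S} {G Gi : ℂ → ℂ} {θ : Γ ≃* Γ} {ρ : ℂ → ℝ}
  {Hyp : S → Prop} {U : Set ℂ} {N : Subgroup Γ}

omit [CompactSpace S] in
theorem HE_sub (C : Cond X A p g gi G Hyp) (M : Dom X A p g G U N) {Q : ℂ} (hQ : Q ∈ X)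
    (hHQ : Hyp (p Q)) {x : ℂ} (hx : x ∈ StabX X p g Q) : x ∈ X \ U :=
  ⟨hx.1, fun hxU => disjoint_left.1 (M.stab Q hQ (C.per _ hHQ)) hxU hx⟩

theorem HE_sq {r x : ℝ} (h : |x| ≤ r) : ((x : ℝ) : ℂ) ∈ Sq r := by
  have h1 := abs_le.1 h
  have h2 : 0 ≤ r := (abs_nonneg _).trans h
  refine ⟨h1.1, h1.2, ?_, ?_⟩
  · simp [h2]
  · simp [h2]

theorem HE_sp (D : Deck X A p) (L : Lift X A p g gi G Gi θ ρ) {P : ℂ} (hP : P ∈ X)
    (hGP : G P = P) (hH : Hyp (p P)) {k F : ℂ → ℂ} {Vo : Set ℂ} {r lp km kp : ℝ}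
    (H : HData X G P k F Vo r lp km kp) {x : ℝ} (hx : |x| < r) :
    SPX X p g Hyp (k ⟨x, 0⟩) := by
  have hz₀ : (⟨x, 0⟩ : ℂ) ∈ Vo := H.sq (HE_sq hx.le)
  have he : 0 < r - |x| := by linarith
  obtain ⟨e, hee⟩ : ∃ e, e = r - |x| := ⟨_, rfl⟩
  rw [← hee] at he
  have hline : ∀ t ∈ Ioo (-1:ℝ) 1, |x + t * e| ≤ r := by
    intro t ht
    have h1 : |t| ≤ 1 := (abs_lt.2 ht).le
    calc |x + t * e| ≤ |x| + |t * e| := abs_add_le _ _
      _ = |x| + |t| * e := by rw [abs_mul, abs_of_pos he]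
      _ ≤ |x| + 1 * e := by
          have := mul_le_mul_of_nonneg_right h1 he.le
          linarith
      _ = r := by rw [hee]; ring
  have hdl : HasDerivAt (fun t : ℝ => (((x + t * e : ℝ)) : ℂ)) (e : ℂ) 0 := by
    have h1 : HasDerivAt (fun t : ℝ => x + t * e) e 0 := by
      simpa using ((hasDerivAt_id (0:ℝ)).mul_const e).const_add x
    exact h1.ofReal_comp
  have hkd : HasFDerivAt k (fderiv ℝ k ⟨x, 0⟩) ((fun t : ℝ => (((x + t * e : ℝ)) : ℂ)) 0) := by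
    have h2 : ((fun t : ℝ => (((x + t * e : ℝ)) : ℂ)) 0) = ⟨x, 0⟩ := by
      simp only [zero_mul, add_zero]
      rfl
    rw [h2]
    exact ((H.c1.contDiffAt (H.opn.mem_nhds hz₀)).differentiableAt (by norm_num)).hasFDerivAt
  have hd : HasDerivAt (fun t : ℝ => k ((x + t * e : ℝ) : ℂ)) (fderiv ℝ k ⟨x, 0⟩ (e : ℂ)) 0 :=
    HasFDerivAt.comp_hasDerivAt (f := fun t : ℝ => (((x + t * e : ℝ)) : ℂ)) (0:ℝ) hkd hdl
  refine ⟨H.mX hz₀, P, hP, hH, fderiv ℝ k ⟨x, 0⟩ (e : ℂ), ?_, fun t => k ((x + t * e : ℝ) : ℂ),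
    ?_, ?_, ?_, hd.deriv⟩
  · intro h0
    have h1 := H.inj _ hz₀ (h0.trans (map_zero (fderiv ℝ k ⟨x, 0⟩)).symm)
    exact he.ne' (by exact_mod_cast h1)
  · have hc : ContDiff ℝ 1 (fun t : ℝ => (((x + t * e : ℝ)) : ℂ)) :=
      Complex.ofRealCLM.contDiff.comp (contDiff_const.add (contDiff_id.mul contDiff_const))
    exact H.c1.comp hc.contDiffOn fun t ht => H.sq (HE_sq (hline t ht))
  · intro t ht
    exact axis_st D L hP hGP H (hline t ht)
  · simp only [zero_mul, add_zero]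
    rfl

theorem hyp_end (D : Deck X A p) (L : Lift X A p g gi G Gi θ ρ) (C : Cond X A p g gi G Hyp)
    (M : Dom X A p g G U N) {O : S2} {pp : S2 → ℂ} {q : ℂ → S2} (hS : SC O pp q) {K : Set S2}
    {P' : S2} (hP' : P' ∈ K) {P : ℂ} (hP : P ∈ X) (hGP : G P = P) (hPK : q P ∈ K)
    (hne : q P ≠ P')
    (hKc : ∀ T ⊆ X \ U, IsPreconnected T → ∀ x ∈ T, q x ∈ K → ∀ y ∈ T, q y ∈ K)
    {gs : S2 → S2} {V : Set ℂ} (hV : IsOpen V) (hPV : P ∈ V) (hVX : V ⊆ X)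
    (hgs : ∀ z ∈ V, gs (q z) = q (G z)) {j : ℂ → S2} (hj : ∀ z ∈ V, j z = q z)
    (hji : InjOn j X) (hH : Hyp (p P))
    (htr : 2 < |LinearMap.trace ℝ ℂ (fderiv ℝ G P : ℂ →ₗ[ℝ] ℂ)|) :
    ∃ (χ : S2 → ℂ) (κ : ℂ → S2) (r lp km kp : ℝ),
      HypChart K (SPS X p g Hyp j) (gs^[2]) (q P) P' χ κ r lp km kp := by
  have hdet := (Cond.one D L C hP hGP).1
  obtain ⟨χ, κ, k, Vo, r, lp, km, kp, hch, hne', H, hk⟩ :=
    hyp_data D L hS hP' hP hGP hne hV hPV hVX hgs hdet htr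
  refine ⟨χ, κ, r, lp, km, kp, hch, H.loc, hne', ?_, ?_, ?_⟩
  · intro x hx
    have hz : (⟨x, 0⟩ : ℂ) ∈ Vo := H.sq (HE_sq hx)
    rw [(hk _ hz).1]
    have hline : ∀ s ∈ Icc (0:ℝ) 1, |s * x| ≤ r := by
      intro s hs
      rw [abs_mul, abs_of_nonneg hs.1]
      exact (mul_le_of_le_one_left (abs_nonneg _) hs.2).trans hx
    have hc : ContinuousOn (fun s : ℝ => k ((s * x : ℝ) : ℂ)) (Icc 0 1) := by
      refine H.c1.continuousOn.comp ?_ fun s hs => H.sq (HE_sq (hline s hs))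
      exact (Complex.continuous_ofReal.comp (continuous_id.mul continuous_const)).continuousOn
    refine hKc ((fun s : ℝ => k ((s * x : ℝ) : ℂ)) '' Icc 0 1) ?_ (isPreconnected_Icc.image _ hc)
      P ⟨0, ⟨le_rfl, zero_le_one⟩, ?_⟩ hPK _ ⟨1, ⟨zero_le_one, le_rfl⟩, ?_⟩
    · rintro _ ⟨s, hs, rfl⟩
      exact HE_sub C M hP hH (axis_st D L hP hGP H (hline s hs))
    · simp only [zero_mul, Complex.ofReal_zero]
      exact H.k0
    · simp only [one_mul]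
      rfl
  · intro x hx0 hx
    have hz : (⟨x, 0⟩ : ℂ) ∈ Vo := H.sq (HE_sq hx.le)
    obtain ⟨h1, h2⟩ := hk _ hz
    exact ⟨k ⟨x, 0⟩, H.mX hz, by rw [hj _ h2, h1], HE_sp D L hP hGP hH H hx⟩
  · rintro y hy0 hy hyK ⟨x₁, hx₁X, hj₁, -, Q, hQ, hHQ, v, hv0, α, hα, hαs, hα0, hαd⟩ ε hε
    have hz : (⟨0, y⟩ : ℂ) ∈ Vo := by
      apply H.sq
      have h1 := abs_le.1 hy.le
      have h2 : 0 ≤ r := (abs_nonneg _).trans hy.le
      exact ⟨by simpa using h2, by simpa using h2, h1.1, h1.2⟩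
    obtain ⟨h1, h2⟩ := hk _ hz
    have hx₁ : x₁ = k ⟨0, y⟩ := by
      apply hji hx₁X (H.mX hz)
      rw [hj₁, hj _ h2, h1]
    have hT : ∀ t ∈ Ioo (-1:ℝ) 1, q (α t) ∈ K := by
      intro t ht
      refine hKc (α '' Ioo (-1) 1) ?_ (isPreconnected_Ioo.image α hα.continuousOn) (k ⟨0, y⟩)
        ⟨0, ⟨by norm_num, by norm_num⟩, hα0.trans hx₁⟩ (by rw [← h1]; exact hyK) _ ⟨t, ht, rfl⟩
      rintro _ ⟨s, hs, rfl⟩
      exact HE_sub C M hQ hHQ (hαs s hs)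
    obtain ⟨⟨z, a1, a2, a3, t, a4, a5⟩, z', b1, b2, b3, t', b4, b5⟩ :=
      cross_pl D L C hP hGP hH H hy0 hy hQ hHQ hα hαs (hα0.trans hx₁) (by rw [hαd]; exact hv0) hε
    refine ⟨⟨z, a1, a2, ?_⟩, z', b1, b2, ?_⟩
    · rw [(hk z a3).1, a5]; exact hT t a4
    · rw [(hk z' b3).1, b5]; exact hT t' b4

end

end CV

end S_H36_DG_HE

section S_H36_DG_FLa

/-!
FLa (`fl_loc`).  For `m > 0`, `e.H^[m] ζ = ζ`: `e' = e.iter (m - 1)` (TN/FN: `Elt.iter_H`, `Norm.iter`) has `Norm F e'`, `e'.H = e.H^[m]`, `e'.H z = v (G^[m] (ψ z))` on the disc (induction; `fil_maps`, `Riem`); with `Lift.pow`, `Cond.pow`, `Dom.pow`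
`arcs_to_pt` gives `P ∈ X`, `G^[m] P = P`, `P ∉ W = fil X U`, `Principal ψ ζ P`, so `Principal (q ∘ ψ) ζ (q P)` (`q` continuous: for `ε` take `δ` with `dist w P < δ → dist (q w) (q P) < ε` and apply `Principal ψ ζ P` with `min ε δ`), `q P ∉ q '' W` (`q` injective).
`Cond.one` for the power: `ell_end` or `hyp_end` (`V = X`, `P' = O ∈ (q '' W)ᶜ`, `j = q`, `hKc`: a connected `T ⊆ X \ U` with a point not in `W` has no point in `W`, `fil_pre` in CV/TB) for `gs^[m]` (`gs^[m] (q z) = q (G^[m] z)` for `z ∈ X`, induction); `spx_pow` to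
replace `SPS X p (g^[m]) Hyp q` by `SPS X p g Hyp q`, `(gs^[m])^[2] = gs^[2 * m]` (`Function.iterate_mul`).
-/

namespace CV

open Metric Set Filter Topology Function DS TN MeasureTheory

section
variable {S : Type} [MetricSpace S] [CompactSpace S] {X : Set ℂ} {Γ : Type} [Group Γ]
  {A : Γ → ℂ → ℂ} {p : ℂ → S} {g gi : S → S} {G Gi : ℂ → ℂ} {θ : Γ ≃* Γ} {ρ : ℂ → ℝ}
  {Hyp : S → Prop} {U : Set ℂ} {N : Subgroup Γ} {ψ v : ℂ → ℂ} {F : Fuchs N}

/-- the local data at a fixed prime end outside the limit set -/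
theorem fl_loc (D : Deck X A p) (L : Lift X A p g gi G Gi θ ρ) (C : Cond X A p g gi G Hyp)
    (M : Dom X A p g G U N) (R : Riem (fil X U) ψ v) (hF : Act A ψ v F) {e : Elt N}
    (he : Norm F e) (heH : ∀ z ∈ ball (0:ℂ) 1, e.H z = v (G (ψ z)))
    {O : S2} {pp : S2 → ℂ} {q : ℂ → S2} (hS : SC O pp q) {gs : S2 → S2}
    (hgs : ∀ z ∈ X, gs (q z) = q (G z)) {ζ : ℂ} (hζ : ‖ζ‖ = 1) (hζl : ζ ∉ F.lim) {m : ℕ}
    (hm : 0 < m) (hf : e.H^[m] ζ = ζ) :
    ∃ P ∈ (q '' fil X U)ᶜ, Principal (fun z => q (ψ z)) ζ P ∧ (EllPt (q '' fil X U)ᶜ (gs^[m]) P ∨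
      ∃ (P' : S2) (χ : S2 → ℂ) (κ : ℂ → S2) (r lp km kp : ℝ),
        HypChart (q '' fil X U)ᶜ (SPS X p g Hyp q) (gs^[2 * m]) P P' χ κ r lp km kp) := by
  have he' : Norm F (e.iter (m - 1)) := he.iter (m - 1)
  have hH' : (e.iter (m - 1)).H = e.H^[m] := by
    rw [Elt.iter_H, Nat.sub_add_cancel hm]
  have hfm := (fil_maps D L M).1
  have hit : ∀ k : ℕ, ∀ x ∈ fil X U, G^[k] x ∈ fil X U := by
    intro k
    induction k with
    | zero => intro x hx; exact hx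
    | succ k ih =>
      intro x hx
      rw [Function.iterate_succ_apply']
      exact hfm (ih x hx)
  have hk : ∀ k : ℕ, ∀ z ∈ ball (0:ℂ) 1, e.H^[k] z = v (G^[k] (ψ z)) := by
    intro k
    induction k with
    | zero => intro z hz; exact (R.vψ z hz).symm
    | succ k ih =>
      intro z hz
      have h1 : G^[k] (ψ z) ∈ fil X U := hit k _ (R.mψ hz)
      rw [Function.iterate_succ_apply', Function.iterate_succ_apply', ih z hz,
        heH _ (R.mv h1), R.ψv _ h1]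
  have heH' : ∀ z ∈ ball (0:ℂ) 1, (e.iter (m - 1)).H z = v (G^[m] (ψ z)) := by
    intro z hz
    rw [hH']
    exact hk m z hz
  obtain ⟨θn, -, L'⟩ := L.pow D m
  have C' : Cond X A p (g^[m]) (gi^[m]) (G^[m]) Hyp := C.pow D L hm
  have M' : Dom X A p (g^[m]) (G^[m]) U N := M.pow L.cg hm
  obtain ⟨P, hPX, hGP, hPf, hPr⟩ := arcs_to_pt D L' C' M' R hF he' heH' hζ hζl
    (by rw [hH']; exact hf)
  have hqi : Injective q := fun a b h => by rw [← hS.pq a, h, hS.pq b]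
  have hqK : ∀ x, q x ∈ (q '' fil X U)ᶜ ↔ x ∉ fil X U := by
    intro x
    rw [mem_compl_iff, hqi.mem_set_image]
  have hOK : O ∈ (q '' fil X U)ᶜ := by
    rintro ⟨x, -, hx⟩
    exact hS.q_ne x hx
  have hgs' : ∀ z ∈ X, gs^[m] (q z) = q (G^[m] z) := by
    have h1 : ∀ k : ℕ, ∀ z ∈ X, gs^[k] (q z) = q (G^[k] z) := by
      intro k
      induction k with
      | zero => intro z _; rfl
      | succ k ih =>
        intro z hz
        rw [Function.iterate_succ_apply, Function.iterate_succ_apply, hgs z hz]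
        exact ih (G z) (L.mG hz)
    exact h1 m
  refine ⟨q P, (hqK P).2 hPf, ?_, ?_⟩
  · intro ε hε
    have hqc : ContinuousAt q P := hS.q_smooth.continuous.continuousAt
    obtain ⟨δ, hδ, h1⟩ := Metric.continuousAt_iff.1 hqc ε hε
    obtain ⟨s, hs0, hs1, hs2⟩ := hPr (min ε δ) (lt_min hε hδ)
    exact ⟨s, hs0, hs1.trans_le (min_le_left _ _), fun z hz hzs =>
      h1 ((hs2 z hz hzs).trans_le (min_le_right _ _))⟩
  · rcases (Cond.one D L' C' hPX hGP).2 with htr | ⟨hH, htr⟩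
    · exact Or.inl (ell_end D L' C' hS hOK hPX hGP ((hqK P).2 hPf) (hS.q_ne P) D.opn hPX
        Subset.rfl hgs' htr)
    · refine Or.inr ⟨O, ?_⟩
      have h1 := hyp_end D L' C' M' hS hOK hPX hGP ((hqK P).2 hPf) (hS.q_ne P)
        (fun T hT hTc x hx hxK y hy => (hqK y).2 fun hyf =>
          (hqK x).1 hxK ((fil_pre hTc hT hy hyf).2.2 hx))
        D.opn hPX Subset.rfl hgs' (j := q) (fun z _ => rfl) hqi.injOn hH htr
      have h2 : SPS X p (g^[m]) Hyp q = SPS X p g Hyp q := by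
        funext s
        simp only [SPS, spx_pow L.cg hm]
      have h3 : (gs^[m])^[2] = gs^[2 * m] := by
        rw [Nat.mul_comm, Function.iterate_mul]
      rw [h2, h3] at h1
      exact h1

end

end CV

end S_H36_DG_FLa

section S_H36_DG_FL

/-!
FL (block B5: no fixed point on the circle outside the limit set).
`fixed_lim1`: apply `no_fixed_end` (Pool/Agent/H36/DS/JF.lean) with the space `S2`, a stereographic chart `SC O pp q` (`exists_SC`, DS/XA), `W = fil X U`, `K = (q '' W)ᶜ` (closed: `q '' W` is open since it is `{x ≠ O | pp x ∈ W}`),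
`φ = q ∘ ψ`, `u = v ∘ pp` (`fil_discMap`), `gs, gsi` from `sphere_lift`, `hb = e.H`, `hbi = e.Hi` (EndMap: the fields of `Norm`; `e.H z = v (G (ψ z)) = v (pp (gs (q (ψ z))))`), `ν = Measure.map q (mX X ρ)` (`q` is a measurable embedding), `SP = SPS X p g Hyp q`,
`E = sphere 0 1 \ F.lim`.
`gs '' K = K`: `gs (q z) = q (G z)`, `G '' W = W` (`fil_G`).  `hν`: `B ⊆ Kᶜ = q '' W`: `q ⁻¹' (gs '' B) ∩ X = G '' (q ⁻¹' B ∩ X)`, `mX_G`.  `hpos`: `q ⁻¹' O` is open, nonempty, in `W ⊆ X`: `mX_pos`.  `hSP`: `spx_back`, `gsi (q x) = q (Gi x)`.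
`hEo`: `lim_closed`.  `hEb`: `Norm.lim_iff` (TN/FN).  `hfin`: `inj_near`, `mX_fin` (`q ⁻¹' (φ '' B) = ψ '' B`, open).
`hloc`: `fl_loc` (DG/FLa).
`hnext`: `gap_next` for `e.iter (m - 1)`.
`fixed_lim'`: `fixed_lim1` for `Lift.mul (Lift.pow ..)`, `Cond.mul (Cond.pow ..)`, `Dom.mul (Dom.pow ..)`.
-/

namespace CV

open Metric Set Filter Topology Function DS TN MeasureTheory

section
variable {S : Type} [MetricSpace S] [CompactSpace S] {X : Set ℂ} {Γ : Type} [Group Γ]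
  {A : Γ → ℂ → ℂ} {p : ℂ → S} {g gi : S → S} {G Gi : ℂ → ℂ} {θ : Γ ≃* Γ} {ρ : ℂ → ℝ}
  {Hyp : S → Prop} {U : Set ℂ} {N : Subgroup Γ} {ψ v : ℂ → ℂ} {F : Fuchs N}

theorem FL_qopen {O : S2} {pp : S2 → ℂ} {q : ℂ → S2} (hS : SC O pp q) {V : Set ℂ}
    (hV : IsOpen V) : IsOpen (q '' V) := by
  have h1 : q '' V = {O}ᶜ ∩ pp ⁻¹' V := by
    ext x
    constructor
    · rintro ⟨z, hz, rfl⟩
      refine ⟨hS.q_ne z, ?_⟩
      rw [mem_preimage, hS.pq]
      exact hz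
    · rintro ⟨hx, hx'⟩
      exact ⟨pp x, hx', hS.qp x hx⟩
  rw [h1]
  exact hS.p_smooth.continuousOn.isOpen_inter_preimage isOpen_compl_singleton hV

theorem FL_qinj {O : S2} {pp : S2 → ℂ} {q : ℂ → S2} (hS : SC O pp q) : Injective q := by
  intro x y h
  rw [← hS.pq x, ← hS.pq y, h]

theorem FL_iter_Hi {Γ : Type} [Group Γ] (e : Elt Γ) (n : ℕ) : (e.iter n).Hi = e.Hi^[n + 1] := by
  induction n with
  | zero => rfl
  | succ n ih =>
    rw [Function.iterate_succ', ← ih]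
    rfl

theorem fixed_lim1 (D : Deck X A p) (L : Lift X A p g gi G Gi θ ρ) (C : Cond X A p g gi G Hyp)
    (M : Dom X A p g G U N) (R : Riem (fil X U) ψ v) (hF : Act A ψ v F)
    (hI : F.Nonel → F.UC) {e : Elt N} (he : Norm F e)
    (heH : ∀ z ∈ ball (0:ℂ) 1, e.H z = v (G (ψ z)))
    (heHi : ∀ z ∈ ball (0:ℂ) 1, e.Hi z = v (Gi (ψ z))) {ξ : ℂ} (hξ : ‖ξ‖ = 1)
    (hf : e.H ξ = ξ) : ξ ∈ F.lim := by
  obtain ⟨O, hO⟩ : (sphere (0 : E3) 1).Nonempty := NormedSpace.sphere_nonempty.2 zero_le_one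
  obtain ⟨pp, q, hS⟩ := exists_SC (⟨O, hO⟩ : S2)
  have hWX : fil X U ⊆ X := fun x hx => hx.1
  have hWo : IsOpen (fil X U) := fil_open D M
  have hqi := FL_qinj hS
  have hqc : Continuous q := hS.q_smooth.continuous
  have hDM := fil_discMap D M R hS
  obtain ⟨gs, gsi, cgs, cgsi, h1, h2, h3, h4⟩ := sphere_lift D L hS
  have hGW : G '' fil X U = fil X U := fil_G D L M
  have hgsim : ∀ B : Set S2, gs '' B = gsi ⁻¹' B := by
    intro B
    ext x
    constructor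
    · rintro ⟨y, hy, rfl⟩
      rw [mem_preimage, h1]
      exact hy
    · intro hx
      exact ⟨gsi x, hx, h2 x⟩
  have hgsW : gs '' (q '' fil X U) = q '' fil X U := by
    rw [image_image, image_congr fun z hz => h3 z (hWX hz), ← image_image, hGW]
  have hK : gs '' (q '' fil X U)ᶜ = (q '' fil X U)ᶜ := by
    rw [hgsim, preimage_compl, ← hgsim, hgsW]
  have hE : EndMap (fun z => q (ψ z)) (fun x => v (pp x)) gs gsi e.H e.Hi := by
    refine ⟨he.cont, he.conti, he.mapC, he.mapCi, he.mapB, he.mapBi, he.mapS, he.mapSi, he.left,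
      he.right, fun z hz => ?_, fun z hz => ?_⟩
    · rw [h3 _ (hWX (R.mψ hz)), hS.pq, heH z hz]
    · rw [h4 _ (hWX (R.mψ hz)), hS.pq, heHi z hz]
  have hmap : ∀ B : Set S2, MeasurableSet B →
      Measure.map q (mX X ρ) B = mX X ρ (q ⁻¹' B) := fun B hB =>
    Measure.map_apply hqc.measurable hB
  by_contra hξl
  refine no_fixed_end (hK := (FL_qopen hS hWo).isClosed_compl) hDM cgs cgsi h2 h1 hK hE
    (Measure.map q (mX X ρ)) ?_ ?_ (SP := SPS X p g Hyp q) ?_ (E := sphere 0 1 \ F.lim)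
    sdiff_subset ?_ ?_ ?_ ?_ ?_ ξ ⟨mem_sphere_zero_iff_norm.2 hξ, hξl⟩ hf
  · -- invariance of the measure
    intro B hB hBm
    rw [compl_compl] at hB
    have h5 : MeasurableSet (gs '' B) := by
      rw [hgsim]
      exact cgsi.measurable hBm
    rw [hmap _ h5, hmap _ hBm]
    have h6 : q ⁻¹' (gs '' B) = G '' (q ⁻¹' B) := by
      ext z
      constructor
      · rintro ⟨b, hb, hbz⟩
        obtain ⟨w, hw, rfl⟩ := hB hb
        rw [h3 w (hWX hw)] at hbz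
        exact ⟨w, hb, hqi hbz⟩
      · rintro ⟨w, hw, rfl⟩
        have hw' : w ∈ X := by
          obtain ⟨w', hw', h7⟩ := hB hw
          rw [← hqi h7]
          exact hWX hw'
        exact ⟨q w, hw, h3 w hw'⟩
    rw [h6]
    refine (mX_G D L ?_ (hqc.measurable hBm)).2
    intro w hw
    obtain ⟨w', hw', h7⟩ := hB hw
    rw [← hqi h7]
    exact hWX hw'
  · intro V hV hVo hVn
    rw [compl_compl] at hV
    rw [hmap _ hVo.measurableSet]
    refine mX_pos D L ?_ (hVo.preimage hqc) ?_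
    · intro w hw
      obtain ⟨w', hw', h7⟩ := hV hw
      rw [← hqi h7]
      exact hWX hw'
    · obtain ⟨x, hx⟩ := hVn
      obtain ⟨w, hw, rfl⟩ := hV hx
      exact ⟨w, hx⟩
  · rintro _ ⟨x, hx, rfl, hsp⟩
    refine ⟨Gi x, L.mGi hx, (h4 x hx).symm, spx_back D L C hsp⟩
  · rintro ζ ⟨hζ, hζl⟩
    obtain ⟨r, hr, hr'⟩ := Metric.isOpen_iff.1 (lim_closed F).isOpen_compl ζ hζl
    exact ⟨r, hr, fun x hx => ⟨hx.1, hr' hx.2⟩⟩
  · ext ζ
    constructor
    · rintro ⟨x, ⟨hx, hxl⟩, rfl⟩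
      refine ⟨he.mapS hx, fun h => hxl ((he.lim_iff (mem_sphere_zero_iff_norm.1 hx)).1 h)⟩
    · rintro ⟨hζ, hζl⟩
      have h5 : e.H (e.Hi ζ) = ζ := he.right ζ (sphere_subset_closedBall hζ)
      refine ⟨e.Hi ζ, ⟨he.mapSi hζ, fun h => hζl ?_⟩, h5⟩
      rw [← h5]
      exact (he.lim_iff (mem_sphere_zero_iff_norm.1 (he.mapSi hζ))).2 h
  · rintro ζ ⟨hζ, hζl⟩
    obtain ⟨r, hr, hinj⟩ := inj_near D M R hF (mem_sphere_zero_iff_norm.1 hζ) hζl
    obtain ⟨m, hm, hm'⟩ := mX_fin D L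
    refine ⟨r, hr, ?_⟩
    have hBo : IsOpen (ψ '' (ball 0 1 ∩ ball ζ r)) := by
      have h5 : ψ '' (ball 0 1 ∩ ball ζ r) = fil X U ∩ v ⁻¹' (ball 0 1 ∩ ball ζ r) := by
        ext w
        constructor
        · rintro ⟨z, hz, rfl⟩
          refine ⟨R.mψ hz.1, ?_⟩
          rw [mem_preimage, R.vψ z hz.1]
          exact hz
        · rintro ⟨hw, hw'⟩
          exact ⟨v w, hw', R.ψv w hw⟩
      rw [h5]
      exact R.dv.continuousOn.isOpen_inter_preimage hWo (isOpen_ball.inter isOpen_ball)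
    have h6 : (fun z => q (ψ z)) '' (ball 0 1 ∩ ball ζ r) = q '' (ψ '' (ball 0 1 ∩ ball ζ r)) := by
      rw [image_image]
    rw [h6, hmap _ (FL_qopen hS hBo).measurableSet, preimage_image_eq _ hqi]
    refine lt_of_le_of_lt (hm' _ ?_ hBo.measurableSet ?_) hm
    · rintro _ ⟨z, hz, rfl⟩
      exact hWX (R.mψ hz.1)
    · rintro _ ⟨z, hz, rfl⟩ _ ⟨w, hw, rfl⟩ h
      rw [hinj hz hw h]
  · rintro ζ ⟨hζ, hζl⟩ m hm hf'
    exact fl_loc D L C M R hF he heH hS h3 (mem_sphere_zero_iff_norm.1 hζ) hζl hm hf'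
  · rintro ζ ⟨hζ, hζl⟩ m hm hf' J hJ hJc hJi hJt x hx hJx
    obtain ⟨n, rfl⟩ : ∃ n, m = n + 1 := ⟨m - 1, (Nat.succ_pred_eq_of_pos hm).symm⟩
    refine ⟨hx, ?_⟩
    rw [← Elt.iter_H] at hf' hJi hJt
    rw [← FL_iter_Hi] at hJx
    exact gap_next F hI (he.iter n) (mem_sphere_zero_iff_norm.1 hζ) hζl hf' hJ hJc hJi hJt
      (mem_sphere_zero_iff_norm.1 hx) hJx

theorem fixed_lim' (D : Deck X A p) (L : Lift X A p g gi G Gi θ ρ) (C : Cond X A p g gi G Hyp)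
    (M : Dom X A p g G U N) (R : Riem (fil X U) ψ v) (hF : Act A ψ v F)
    (hI : F.Nonel → F.UC) {n : ℕ} (hn : 0 < n) {c : N} {e : Elt N}
    (he : Lf A G Gi θ ψ v F n c e) {ξ : ℂ} (hξ : ‖ξ‖ = 1) (hf : e.H ξ = ξ) : ξ ∈ F.lim := by
  obtain ⟨θn, -, Ln⟩ := Lift.pow D L n
  exact fixed_lim1 D (Lift.mul D Ln c) (Cond.mul D Ln (Cond.pow D L C hn) c)
    (Dom.mul (Dom.pow L.cg M hn) c.2) R hF hI he.norm he.H he.Hi hξ hf

end

end CV

end S_H36_DG_FL

section S_H36_DG_INa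

/-!
INa: `in_loc`, see the part `hloc` below.  (no fixed prime end of the exterior of an invariant nontrivial island).  Apply `no_fixed_end` (DS/JF) with `K = q '' Y`, `E = sphere 0 1`, `g = gs`, `gi = gsi`, `ν = Measure.map (fun x => q (τ x)) (mX X ρ)` (`q ∘ τ` is measurable on `X`: `ContinuousOn.aemeasurable`),
`SP = SPS X p g Hyp (fun x => q (τ x))`.  Facts: `τ = id` on `V ⊇ Y`, so `gs '' (q '' Y) = q '' Y` by `G '' Y = Y`.
`hν`: `{x ∈ X | q (τ x) ∈ gs '' B} = G '' {x ∈ X | q (τ x) ∈ B}` (`gs`, `gsi` inverse, `gsi (q (τ x)) = q (τ (Gi x))`), `mX_G`.  `hpos`: a nonempty open `O'` of the sphere contains some `q z` (`z = τ (τi z)`): the open set `{x ∈ X | q (τ x) ∈ O'}` is nonempty (a nonempty open set is not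
`{O}`: `p_lim`/`q_lim`, or use `O' \ {O}`; the sphere has no isolated point; see `XB`/`TBase`), `mX_pos`.  `hSP`: `spx_back`.
`hfin`: let `V₁` be open, `Y ⊆ V₁`, `closure V₁` compact, in `V`; `S2 \ q '' V₁` is compact in `Kᶜ`, its image under `u` is compact in `ball 0 1`, so it is in `closedBall 0 ρ'`, `ρ' < 1`; then `φ '' (ball 0 1 ∩ ball ζ (1 - ρ')) ⊆ q '' V₁`, of measure `≤ mX X ρ (closure V₁) < ⊤`
(`mX_cpt`; `τ = id` on `V`; `q (τ x) ∈ q '' V₁` implies `τ x ∈ V₁`, `x = τi (τ x) ∈ V₁`).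
`hloc`: `m > 0`, `hb^[m] ζ = ζ`: the maps `hb^[m]`, `hbi^[m]` are an `EndMap` for `gs^[m]`, `gsi^[m]` (`endMap_iter`, DS/HB).  `exists_principal` (DS/XC): `P₁ ∈ K`, `Principal φ ζ P₁`; `P₁ = q P`, `P ∈ Y`.  `gs^[m] P₁ = P₁`: as in `SL_fix` (DS/SL; its proof: `fixPE_of`, `near_fixed`, needs a `PChart`
with `P' ∈ K`, `P' ≠ P₁`: `pole_chart` in DG/GE; `Y` is nontrivial).  So `q (G^[m] P) = q P`, `G^[m] P = P` (`G^[i] P ∈ Y ⊆ V`).  With `Lift.pow`, `Cond.pow`, `Dom.pow`: `Cond.one`, then `ell_end` or `hyp_end` for `gs^[m]`, `G^[m]`, on the open set `V' = {z ∈ V | G^[i] z ∈ V for i ≤ m}`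
(there `gs^[m] (q z) = q (G^[m] z)`), `j = q ∘ τ`, `K = q '' Y`, `P' ∈ K`, `hKc`: a connected `T ⊆ X \ U` that meets `Y` is contained in `Y` (`Y` is a component).  `spx_pow`; `(gs^[m])^[2] = gs^[2 * m]`.
`hnext`: `E = sphere 0 1`.
-/

namespace CV

open Metric Set Filter Topology Function DS TN MeasureTheory

theorem INa_inv {α : Type*} {f fi : α → α} (h : ∀ x, f (fi x) = x) (n : ℕ) :
    ∀ x, f^[n] (fi^[n] x) = x := by
  induction n with
  | zero => intro x; rfl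
  | succ n ih =>
    intro x
    rw [Function.iterate_succ_apply, Function.iterate_succ_apply', h, ih]

/-- a principal point of a fixed prime end is a fixed point -/
theorem INa_fix {g gi : S2 → S2} (hg : Continuous g) (hgi : Continuous gi)
    (hggi : ∀ x, g (gi x) = x) (hgig : ∀ x, gi (g x) = x) {K : Set S2}
    (hK : IsClosed K) {φ : ℂ → S2} {u : S2 → ℂ} (hD : DiscMap K φ u)
    (hgK : g '' K = K) (ν : Measure S2)
    (hν : ∀ B ⊆ Kᶜ, MeasurableSet B → ν (g '' B) = ν B)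
    (hpos : ∀ O ⊆ Kᶜ, IsOpen O → O.Nonempty → 0 < ν O) {hb hbi : ℂ → ℂ}
    (hE : EndMap φ u g gi hb hbi) {ζ : ℂ} (hζ : ‖ζ‖ = 1) (hfix : hb ζ = ζ)
    (hfin : ∃ ρ > 0, ν (φ '' (ball 0 1 ∩ ball ζ ρ)) < ⊤)
    {P P' : S2} (hP : P ∈ K) (hPr : Principal φ ζ P) {χ : S2 → ℂ} {κ : ℂ → S2}
    (hχ : PChart K P P' χ κ) : g P = P := by
  obtain ⟨μ, H⟩ := fixPE_of hK hD hg hgi hggi hgig hgK ν hν hpos hχ hP hζ hfin
    (fixes_end hE hζ hfix) hPr (r₀ := 1) one_pos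
  have hnear := near_fixed H
  choose z hzW hz1 hz2 using fun n : ℕ => hnear (1 / ((n : ℝ) + 1)) (by positivity)
  have hlim : Tendsto (fun n : ℕ => 1 / ((n : ℝ) + 1)) atTop (𝓝 0) :=
    tendsto_one_div_add_atTop_nhds_zero_nat
  have t1 : Tendsto z atTop (𝓝 0) :=
    squeeze_zero_norm (fun n => (hz1 n).le) hlim
  have t2 : Tendsto (fun n => χ (g (κ (z n)))) atTop (𝓝 0) :=
    squeeze_zero_norm (fun n => (hz2 n).le) hlim
  have t3 : Tendsto (fun n => g (κ (z n))) atTop (𝓝 (g P)) := by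
    have := ((hg.comp hχ.κ_cont).tendsto 0).comp t1
    rw [comp_apply, hχ.κ0] at this
    exact this
  have t4 : Tendsto (fun n => κ (χ (g (κ (z n))))) atTop (𝓝 P) := by
    have := (hχ.κ_cont.tendsto 0).comp t2
    rw [hχ.κ0] at this
    exact this
  have e : (fun n => κ (χ (g (κ (z n))))) = fun n => g (κ (z n)) := by
    funext n
    apply hχ.κχ
    intro h
    have h1 : κ (z n) ∈ Kᶜ := hzW n
    apply h1
    have h2 : g (κ (z n)) ∈ g '' K := by rw [hgK, h]; exact hχ.hP'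
    obtain ⟨k, hk, hke⟩ := h2
    have h3 := congrArg gi hke
    rw [hgig, hgig] at h3
    rw [← h3]; exact hk
  rw [e] at t4
  exact tendsto_nhds_unique t3 t4

theorem INa_meas {g gi : S2 → S2} (hgi : Continuous gi)
    (hggi : ∀ x, g (gi x) = x) (hgig : ∀ x, gi (g x) = x) {K : Set S2}
    (hgK : MapsTo g Kᶜ Kᶜ) {ν : Measure S2}
    (hν : ∀ B ⊆ Kᶜ, MeasurableSet B → ν (g '' B) = ν B) (n : ℕ) {B : Set S2} (hB : B ⊆ Kᶜ)
    (hm : MeasurableSet B) : g^[n] '' B ⊆ Kᶜ ∧ MeasurableSet (g^[n] '' B) ∧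
      ν (g^[n] '' B) = ν B := by
  induction n with
  | zero => simp [hB, hm]
  | succ n ih =>
    obtain ⟨i1, i2, i3⟩ := ih
    have h1 : g^[n + 1] '' B = g '' (g^[n] '' B) := by
      rw [Function.iterate_succ', image_comp]
    have h2 : g '' (g^[n] '' B) = gi ⁻¹' (g^[n] '' B) := by
      ext y
      constructor
      · rintro ⟨x, hx, rfl⟩
        show gi (g x) ∈ g^[n] '' B
        rw [hgig]; exact hx
      · intro hy
        exact ⟨gi y, hy, hggi y⟩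
    rw [h1]
    refine ⟨?_, ?_, (hν _ i1 i2).trans i3⟩
    · rintro _ ⟨x, hx, rfl⟩
      exact hgK (i1 hx)
    · rw [h2]
      exact hgi.measurable i2

section
variable {S : Type} [MetricSpace S] [CompactSpace S] {X : Set ℂ} {Γ : Type} [Group Γ]
  {A : Γ → ℂ → ℂ} {p : ℂ → S} {g gi : S → S} {G Gi : ℂ → ℂ} {θ : Γ ≃* Γ} {ρ : ℂ → ℝ}
  {Hyp : S → Prop} {U : Set ℂ} {N : Subgroup Γ}

/-- the local data at a fixed prime end of an island -/
theorem in_loc (D : Deck X A p) (L : Lift X A p g gi G Gi θ ρ)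
    (C : Cond X A p g gi G Hyp) (M : Dom X A p g G U N) {Y : Set ℂ} (hY : Island X U Y)
    (hGY : G '' Y = Y) (hn : Y.Nontrivial) {O : S2} {pp : S2 → ℂ} {q : ℂ → S2} (hS : SC O pp q)
    {τ τi : ℂ → ℂ} {V : Set ℂ} (hT : Tau X Y τ τi V) {gs gsi : S2 → S2} (hg : Continuous gs)
    (hgi : Continuous gsi) (hgig : ∀ x, gsi (gs x) = x) (hggi : ∀ x, gs (gsi x) = x)
    (hgs : ∀ z ∈ X, gs (q (τ z)) = q (τ (G z)))
    (hgsi : ∀ z ∈ X, gsi (q (τ z)) = q (τ (Gi z))) {φ : ℂ → S2} {u : S2 → ℂ} {hb hbi : ℂ → ℂ}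
    (hD : DiscMap (q '' Y) φ u) (hE : EndMap φ u gs gsi hb hbi) {ζ : ℂ} (hζ : ‖ζ‖ = 1) {m : ℕ}
    (hm : 0 < m) (hf : hb^[m] ζ = ζ)
    (hν : ∃ ν : Measure S2, (∀ B ⊆ (q '' Y)ᶜ, MeasurableSet B → ν (gs '' B) = ν B) ∧
      (∀ O' ⊆ (q '' Y)ᶜ, IsOpen O' → O'.Nonempty → 0 < ν O') ∧
      ∃ ρ' > 0, ν (φ '' (ball 0 1 ∩ ball ζ ρ')) < ⊤) :
    ∃ P₁ ∈ q '' Y, Principal φ ζ P₁ ∧ (EllPt (q '' Y) (gs^[m]) P₁ ∨
      ∃ (P' : S2) (χ : S2 → ℂ) (κ : ℂ → S2) (r lp km kp : ℝ),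
        HypChart (q '' Y) (SPS X p g Hyp (fun x => q (τ x))) (gs^[2 * m]) P₁ P' χ κ r lp km kp) := by
  obtain ⟨ν, hν1, hν2, hν3⟩ := hν
  have hqc : Continuous q := hS.q_smooth.continuous
  have hqi : Function.Injective q := fun a b h => by
    have := congrArg pp h
    rwa [hS.pq, hS.pq] at this
  have hK : IsClosed (q '' Y) := (hY.cpt.image hqc).isClosed
  have hstep : ∀ z ∈ V, G z ∈ V → gs (q z) = q (G z) := by
    intro z hz hGz
    have h1 := hgs z (hT.VX hz)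
    rwa [(hT.id z hz).1, (hT.id _ hGz).1] at h1
  have hGYm : ∀ z ∈ Y, G z ∈ Y := fun z hz => by
    rw [← hGY]
    exact mem_image_of_mem G hz
  have hgsK : gs '' (q '' Y) = q '' Y := by
    ext x
    constructor
    · rintro ⟨_, ⟨z, hz, rfl⟩, rfl⟩
      exact ⟨G z, hGYm z hz, (hstep z (hT.sub hz) (hT.sub (hGYm z hz))).symm⟩
    · rintro ⟨z, hz, rfl⟩
      rw [← hGY] at hz
      obtain ⟨w, hw, rfl⟩ := hz
      exact ⟨q w, ⟨w, hw, rfl⟩, hstep w (hT.sub hw) (hT.sub (hGYm w hw))⟩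
  have hgKc : MapsTo gs (q '' Y)ᶜ (q '' Y)ᶜ := by
    intro x hx h
    rw [← hgsK] at h
    obtain ⟨y, hy, hyx⟩ := h
    have := congrArg gsi hyx
    rw [hgig, hgig] at this
    exact hx (this ▸ hy)
  have hgiKc : MapsTo gsi (q '' Y)ᶜ (q '' Y)ᶜ := by
    intro x hx h
    apply hx
    rw [← hgsK]
    exact ⟨gsi x, h, hggi x⟩
  have hEm := endMap_iter hD hgKc hgiKc hE m
  have hgmK : gs^[m] '' (q '' Y) = q '' Y := by
    clear hEm hf hm
    induction m with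
    | zero => simp
    | succ m ih => rw [Function.iterate_succ, image_comp, hgsK, ih]
  obtain ⟨P₁, hP₁, hPr⟩ := exists_principal hK hD hζ
  refine ⟨P₁, hP₁, hPr, ?_⟩
  obtain ⟨P, hPY, rfl⟩ := hP₁
  obtain ⟨P'', hP''Y, hP''⟩ := hn.exists_ne P
  have hne : q P ≠ q P'' := fun h => hP'' (hqi h).symm
  have hP'K : q P'' ∈ q '' Y := ⟨P'', hP''Y, rfl⟩
  have hPK : q P ∈ q '' Y := ⟨P, hPY, rfl⟩
  obtain ⟨χ₀, κ₀, c, ρ₀, -, hχ₀, -⟩ := DG.pole_chart hS hP'K hne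
  have hfixP : gs^[m] (q P) = q P :=
    INa_fix (hg.iterate m) (hgi.iterate m) (INa_inv hggi m) (INa_inv hgig m) hK hD hgmK ν
      (fun B hB hBm => (INa_meas hgi hggi hgig hgKc hν1 m hB hBm).2.2) hν2 hEm hζ hf hν3
      hPK hPr hχ₀
  -- the lift
  have hiterY : ∀ i, G^[i] P ∈ Y := by
    intro i
    induction i with
    | zero => exact hPY
    | succ i ih =>
      rw [Function.iterate_succ_apply']
      exact hGYm _ ih
  have hVsub : ∀ z, (∀ i ≤ m, G^[i] z ∈ V) → ∀ i ≤ m, gs^[i] (q z) = q (G^[i] z) := by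
    intro z hz i
    induction i with
    | zero => intro _; rfl
    | succ i ih =>
      intro hi
      rw [Function.iterate_succ_apply', ih (by omega), Function.iterate_succ_apply']
      refine hstep _ (hz i (by omega)) ?_
      rw [← Function.iterate_succ_apply' G i z]
      exact hz (i + 1) hi
  have hPX : P ∈ X := hT.VX (hT.sub hPY)
  have hGm : G^[m] P = P := by
    apply hqi
    rw [← hVsub P (fun i _ => hT.sub (hiterY i)) m le_rfl, hfixP]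
  obtain ⟨θm, -, Lm⟩ := L.pow D m
  have Cm := C.pow D L hm
  have Mm := M.pow L.cg hm
  have hXo : IsOpen X := by
    rcases D.hX with ⟨h, -⟩ | ⟨h, -⟩
    · rw [h]; exact isOpen_univ
    · rw [h]; exact isOpen_ball
  have hGc : ∀ i, ContinuousOn (G^[i]) X ∧ MapsTo (G^[i]) X X := by
    intro i
    induction i with
    | zero => exact ⟨continuousOn_id, mapsTo_id _⟩
    | succ i ih =>
      rw [Function.iterate_succ']
      exact ⟨L.c1.continuousOn.comp ih.1 ih.2, L.mG.comp ih.2⟩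
  set V' : Set ℂ := {z | ∀ i ≤ m, G^[i] z ∈ V} with hV'
  have hV'V : V' ⊆ V := fun z hz => hz 0 (Nat.zero_le _)
  have hV'o : IsOpen V' := by
    have h1 : V' = ⋂ i ∈ Finset.range (m + 1), (V ∩ G^[i] ⁻¹' V) := by
      ext z
      simp only [hV', mem_ofPred_eq, mem_iInter, mem_inter_iff, mem_preimage, Finset.mem_range,
        Nat.lt_succ_iff]
      constructor
      · intro h i hi
        exact ⟨h 0 (Nat.zero_le _), h i hi⟩
      · intro h i hi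
        exact (h i hi).2
    rw [h1]
    refine isOpen_biInter_finset fun i _ => ?_
    exact ((hGc i).1.mono hT.VX).isOpen_inter_preimage hT.opn hT.opn
  have hPV' : P ∈ V' := fun i _ => hT.sub (hiterY i)
  have hgsm : ∀ z ∈ V', gs^[m] (q z) = q (G^[m] z) := fun z hz => hVsub z hz m le_rfl
  obtain ⟨-, htr | ⟨hH, htr⟩⟩ := Cm.one D Lm hPX hGm
  · left
    exact ell_end D Lm Cm hS hP'K hPX hGm hPK hne hV'o hPV' (hV'V.trans hT.VX) hgsm htr
  · right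
    have hKc : ∀ T ⊆ X \ U, IsPreconnected T → ∀ x ∈ T, q x ∈ q '' Y → ∀ y ∈ T,
        q y ∈ q '' Y := by
      intro T hTs hTc x hx hxY y hy
      obtain ⟨x', hx', hxx⟩ := hxY
      rw [hqi hxx] at hx'
      obtain ⟨x₀, hx₀, hYe⟩ := hY.comp
      rw [hYe] at hx'
      have h1 := hTc.subset_connectedComponentIn hx hTs
      rw [← connectedComponentIn_eq hx'] at h1
      refine ⟨y, ?_, rfl⟩
      rw [hYe]
      exact h1 hy
    have hji : InjOn (fun x => q (τ x)) X := by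
      intro x hx y hy h
      have h1 := hqi h
      have h2 := congrArg τi h1
      rwa [hT.left x hx, hT.left y hy] at h2
    obtain ⟨χ, κ, r, lp, km, kp, hch⟩ := hyp_end D Lm Cm Mm hS hP'K hPX hGm hPK hne hKc hV'o hPV'
      (hV'V.trans hT.VX) hgsm (j := fun x => q (τ x))
      (fun z hz => by rw [(hT.id z (hV'V hz)).1]) hji hH htr
    refine ⟨q P'', χ, κ, r, lp, km, kp, ?_⟩
    have e1 : SPS X p (g^[m]) Hyp (fun x => q (τ x)) = SPS X p g Hyp (fun x => q (τ x)) := by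
      funext s
      unfold SPS
      simp only [spx_pow L.cg hm]
    have e2 : (gs^[m])^[2] = gs^[2 * m] := by
      rw [mul_comm, Function.iterate_mul]
    rw [e1, e2] at hch
    exact hch

end

end CV

end S_H36_DG_INa

section S_H36_DG_IN

/-!
IN (no fixed prime end of the exterior of an invariant nontrivial island).  Apply `no_fixed_end` (DS/JF) with `K = q '' Y`, `E = sphere 0 1`, `g = gs`, `gi = gsi`, `ν = Measure.map (fun x => q (τ x)) (mX X ρ)` (`q ∘ τ` is measurable on `X`: `ContinuousOn.aemeasurable`),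
`SP = SPS X p g Hyp (fun x => q (τ x))`.  Facts: `τ = id` on `V ⊇ Y`, so `gs '' (q '' Y) = q '' Y` by `G '' Y = Y`.
`hν`: `{x ∈ X | q (τ x) ∈ gs '' B} = G '' {x ∈ X | q (τ x) ∈ B}` (`gs`, `gsi` inverse, `gsi (q (τ x)) = q (τ (Gi x))`), `mX_G`.  `hpos`: a nonempty open `O'` of the sphere contains some `q z` (`z = τ (τi z)`): the open set `{x ∈ X | q (τ x) ∈ O'}` is nonempty (a nonempty open set is not
`{O}`: `p_lim`/`q_lim`, or use `O' \ {O}`; the sphere has no isolated point; see `XB`/`TBase`), `mX_pos`.  `hSP`: `spx_back`.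
`hfin`: let `V₁` be open, `Y ⊆ V₁`, `closure V₁` compact, in `V`; `S2 \ q '' V₁` is compact in `Kᶜ`, its image under `u` is compact in `ball 0 1`, so it is in `closedBall 0 ρ'`, `ρ' < 1`; then `φ '' (ball 0 1 ∩ ball ζ (1 - ρ')) ⊆ q '' V₁`, of measure `≤ mX X ρ (closure V₁) < ⊤`
(`mX_cpt`; `τ = id` on `V`; `q (τ x) ∈ q '' V₁` implies `τ x ∈ V₁`, `x = τi (τ x) ∈ V₁`).
`hloc`: `m > 0`, `hb^[m] ζ = ζ`: the maps `hb^[m]`, `hbi^[m]` are an `EndMap` for `gs^[m]`, `gsi^[m]` (`endMap_iter`, DS/HB).  `exists_principal` (DS/XC): `P₁ ∈ K`, `Principal φ ζ P₁`; `P₁ = q P`, `P ∈ Y`.  `gs^[m] P₁ = P₁`: as in `SL_fix` (DS/SL; its proof: `fixPE_of`, `near_fixed`, needs a `PChart`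
with `P' ∈ K`, `P' ≠ P₁`: `pole_chart` in DG/GE; `Y` is nontrivial).  So `q (G^[m] P) = q P`, `G^[m] P = P` (`G^[i] P ∈ Y ⊆ V`).  With `Lift.pow`, `Cond.pow`, `Dom.pow`: `Cond.one`, then `ell_end` or `hyp_end` for `gs^[m]`, `G^[m]`, on the open set `V' = {z ∈ V | G^[i] z ∈ V for i ≤ m}`
(there `gs^[m] (q z) = q (G^[m] z)`), `j = q ∘ τ`, `K = q '' Y`, `P' ∈ K`, `hKc`: a connected `T ⊆ X \ U` that meets `Y` is contained in `Y` (`Y` is a component).  `spx_pow`; `(gs^[m])^[2] = gs^[2 * m]`.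
`hnext`: `E = sphere 0 1`.
-/

namespace CV

open Metric Set Filter Topology Function DS TN MeasureTheory

section
variable {S : Type} [MetricSpace S] [CompactSpace S] {X : Set ℂ} {Γ : Type} [Group Γ]
  {A : Γ → ℂ → ℂ} {p : ℂ → S} {g gi : S → S} {G Gi : ℂ → ℂ} {θ : Γ ≃* Γ} {ρ : ℂ → ℝ}
  {Hyp : S → Prop} {U : Set ℂ} {N : Subgroup Γ}

theorem island_noend (D : Deck X A p) (L : Lift X A p g gi G Gi θ ρ)
    (C : Cond X A p g gi G Hyp) (M : Dom X A p g G U N) {Y : Set ℂ} (hY : Island X U Y)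
    (hGY : G '' Y = Y) (hn : Y.Nontrivial) {O : S2} {pp : S2 → ℂ} {q : ℂ → S2} (hS : SC O pp q)
    {τ τi : ℂ → ℂ} {V : Set ℂ} (hT : Tau X Y τ τi V) {gs gsi : S2 → S2} (hg : Continuous gs)
    (hgi : Continuous gsi) (hgig : ∀ x, gsi (gs x) = x) (hggi : ∀ x, gs (gsi x) = x)
    (hgs : ∀ z ∈ X, gs (q (τ z)) = q (τ (G z)))
    (hgsi : ∀ z ∈ X, gsi (q (τ z)) = q (τ (Gi z))) :
    ∀ (φ : ℂ → S2) (u : S2 → ℂ) (hb hbi : ℂ → ℂ), DiscMap (q '' Y) φ u →
      EndMap φ u gs gsi hb hbi → ∀ ζ ∈ sphere (0:ℂ) 1, hb ζ ≠ ζ := by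
  intro φ u hb hbi hD hE
  obtain ⟨ν, hν, hpos, hfin⟩ := in_meas D L M hY hS hT hgig hggi hgs hgsi hD
  have hqc : Continuous q := hS.q_smooth.continuous
  have hK : IsClosed (q '' Y) := (hY.cpt.image hqc).isClosed
  have hYX : Y ⊆ X := hT.sub.trans hT.VX
  have hq1 : ∀ y ∈ Y, gs (q y) = q (G y) := by
    intro y hy
    have h1 := hgs y (hYX hy)
    have h2 : G y ∈ Y := hGY ▸ mem_image_of_mem G hy
    rwa [(hT.id y (hT.sub hy)).1, (hT.id _ (hT.sub h2)).1] at h1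
  have hgK : gs '' (q '' Y) = q '' Y := by
    ext x
    constructor
    · rintro ⟨_, ⟨y, hy, rfl⟩, rfl⟩
      exact ⟨G y, hGY ▸ mem_image_of_mem G hy, (hq1 y hy).symm⟩
    · rintro ⟨y, hy, rfl⟩
      rw [← hGY] at hy
      obtain ⟨y', hy', rfl⟩ := hy
      exact ⟨q y', mem_image_of_mem q hy', hq1 y' hy'⟩
  have hgsB : ∀ B : Set S2, MeasurableSet B → MeasurableSet (gs '' B) := by
    intro B hB
    have h1 : gs '' B = gsi ⁻¹' B := by
      ext x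
      constructor
      · rintro ⟨y, hy, rfl⟩
        show gsi (gs y) ∈ B
        rw [hgig]
        exact hy
      · intro hx
        exact ⟨gsi x, hx, hggi x⟩
    rw [h1]
    exact hgi.measurable hB
  have hSP : ∀ x, SPS X p g Hyp (fun x => q (τ x)) x → SPS X p g Hyp (fun x => q (τ x)) (gsi x) := by
    rintro x ⟨y, hy, hyx, hsp⟩
    have h1 : q (τ y) = x := hyx
    refine ⟨Gi y, L.mGi hy, ?_, spx_back D L C hsp⟩
    show q (τ (Gi y)) = gsi x
    rw [← h1, hgsi y hy]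
  have hEb : hb '' sphere (0:ℂ) 1 = sphere 0 1 := by
    ext x
    constructor
    · rintro ⟨y, hy, rfl⟩
      exact hE.bs hy
    · intro hx
      exact ⟨hbi x, hE.bis hx, hE.bbi x (sphere_subset_closedBall hx)⟩
  have hfin' : ∀ ζ ∈ sphere (0:ℂ) 1, ∃ ρ' > 0, ν (φ '' (ball 0 1 ∩ ball ζ ρ')) < ⊤ :=
    fun ζ hζ => hfin ζ (mem_sphere_zero_iff_norm.1 hζ)
  refine no_fixed_end hK hD hg hgi hggi hgig hgK hE ν (fun B _ hB => hν B hB (hgsB B hB))
    (fun O' _ hO hne => hpos O' hO hne) hSP subset_rfl (fun ζ _ => ⟨1, one_pos, inter_subset_left⟩)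
    hEb hfin' ?_ ?_
  · intro ζ hζ m hm hf
    exact in_loc D L C M hY hGY hn hS hT hg hgi hgig hggi hgs hgsi hD hE
      (mem_sphere_zero_iff_norm.1 hζ) hm hf
      ⟨ν, fun B _ hB => hν B hB (hgsB B hB), fun O' _ hO hne => hpos O' hO hne, hfin' ζ hζ⟩
  · intro _ _ _ _ _ _ _ _ _ _ e he _
    exact he

end

end CV

end S_H36_DG_IN

section S_H36_DG_ISa

/-!
IS (the star property of invariant islands, block B6).
`island_star_nt`: `exists_tau`, `tau_lift`, `exists_SC`, `star_of_ends` (DS/TS) with `K = Y` (`island_top`) and `island_noend` give `Star (fun z => pp (gs (q z))) k Y`; on the neighbourhood `V ∩ G ⁻¹' V` of `Y` the map `pp ∘ gs ∘ q` is equal to `G` (`τ = id` on `V`).  Apply it with `N ∩ V ∩ G ⁻¹' V`.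
`island_star_pt`: `Y = {P}`, `G P = P`.  `Cond.one`: if `Hyp (p P)`, `2 < |tr|`: `hyp_arc` gives a connected `T ⊆ StabX X p g P ⊆ X \ U` (`M.stab`, `C.per`) containing `P` and another point; it is contained in the component `Y = {P}`: contradiction.  So `|tr| < 2`,
`det (B - 1) = 2 - tr B > 0` for `B = fderiv ℝ G P`; `star_point` (DS/ID).
`island_index'`: `L' = Lift.mul (Lift.pow ..)` etc. for `H' x = A c (G^[n] x)`, `k ∈ Y` arbitrary, `island_star` with `V ∩ X`.  If `H = H'` on `X`: direct (`frontier O ⊆ closure O ⊆ X`).  If `H = Gi^[n] (A c⁻¹ x)` on `X`: apply it with the neighbourhood `V₁ = {x ∈ V ∩ X | H' x ∈ V ∩ X}` to get `O₁`, and put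
`O = H' '' O₁` (open: `H'` is a homeomorphism of `X`; `closure O = H' '' closure O₁`, `closure O₁` is compact in `X`; `frontier O = H' '' frontier O₁`; `H' '' Y = Y`).  For `x = H' y`, `y ∈ frontier O₁`:
`(H x - x) / (x - k) = (y - H' y) / (H' y - k) = - ((H' y - y) / (y - k)) / ((H' y - k) / (y - k))` has a logarithm (`IC_log_div`, `IC_log_neg`, `IC_log_comp` with `H`).
-/

namespace CV

open Metric Set Filter Topology Function DS TN MeasureTheory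

section
variable {S : Type} [MetricSpace S] [CompactSpace S] {X : Set ℂ} {Γ : Type} [Group Γ]
  {A : Γ → ℂ → ℂ} {p : ℂ → S} {g gi : S → S} {G Gi : ℂ → ℂ} {θ : Γ ≃* Γ} {ρ : ℂ → ℝ}
  {Hyp : S → Prop} {U : Set ℂ} {N : Subgroup Γ}

theorem island_star_nt (D : Deck X A p) (L : Lift X A p g gi G Gi θ ρ)
    (C : Cond X A p g gi G Hyp) (M : Dom X A p g G U N) {Y : Set ℂ} (hY : Island X U Y)
    (hGY : G '' Y = Y) (hn : Y.Nontrivial) {k : ℂ} (hk : k ∈ Y) : Star G k Y := by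
  obtain ⟨hYc, hYconn, hYX, hYcc⟩ := island_top D M hY
  have hX : X = univ ∨ X = ball (0:ℂ) 1 := by
    rcases D.hX with h | h
    · exact Or.inl h.1
    · exact Or.inr h.1
  obtain ⟨τ, τi, V, hT⟩ := exists_tau hX hYc hYX
  obtain ⟨O⟩ : Nonempty S2 := TBase_conn.toNonempty
  obtain ⟨pp, q, hS⟩ := exists_SC O
  obtain ⟨gs, gsi, hgs, hgsi, h1, h2, h3, h4⟩ := tau_lift D L hT hS
  have hGY' : ∀ z ∈ Y, G z ∈ Y := fun z hz => hGY ▸ mem_image_of_mem G hz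
  have hloc : ∀ z ∈ V, G z ∈ V → gs (q z) = q (G z) := by
    intro z hz hGz
    have e1 := h3 z (hT.VX hz)
    rwa [(hT.id z hz).1, (hT.id (G z) hGz).1] at e1
  have hgK : gs '' (q '' Y) = q '' Y := by
    ext w
    constructor
    · rintro ⟨_, ⟨z, hz, rfl⟩, rfl⟩
      rw [hloc z (hT.sub hz) (hT.sub (hGY' z hz))]
      exact mem_image_of_mem q (hGY' z hz)
    · rintro ⟨z, hz, rfl⟩
      rw [← hGY] at hz
      obtain ⟨y, hy, rfl⟩ := hz
      exact ⟨q y, mem_image_of_mem q hy, hloc y (hT.sub hy) (hT.sub (hGY' y hy))⟩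
  have hno := island_noend D L C M hY hGY hn hS hT hgs hgsi h1 h2 h3 h4
  have hStar := star_of_ends hS hgs hgsi h2 h1 hYc hYconn hn hYcc hgK hno hk
  intro W hW hYW
  have hopen : IsOpen (V ∩ G ⁻¹' V) :=
    (L.c1.continuousOn.mono hT.VX).isOpen_inter_preimage hT.opn hT.opn
  obtain ⟨O', hO1, hO2, hO3, hO4, hO5, hO6, hO7⟩ := hStar (W ∩ (V ∩ G ⁻¹' V)) (hW.inter hopen)
    (fun z hz => ⟨hYW hz, hT.sub hz, hT.sub (hGY' z hz)⟩)
  have heq : ∀ z ∈ closure O', pp (gs (q z)) = G z := by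
    intro z hz
    have h5 := hO3 hz
    rw [hloc z h5.2.1 h5.2.2, hS.pq]
  have hfr : ∀ z ∈ frontier O', G z = pp (gs (q z)) := fun z hz =>
    (heq z (frontier_subset_closure hz)).symm
  refine ⟨O', hO1, hO2, fun z hz => (hO3 hz).1, hO4, ?_, ?_, ?_⟩
  · exact IC_log_congr hO5 (fun z hz => by rw [hfr z hz])
  · exact IC_log_congr hO6 (fun z hz => by rw [hfr z hz])
  · intro z hz hzY h
    exact hO7 z hz hzY ((heq z hz).trans h)

end

end CV

end S_H36_DG_ISa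

section S_H36_DG_ISb

/-!
IS (the star property of invariant islands, block B6).
`island_star_nt`: `exists_tau`, `tau_lift`, `exists_SC`, `star_of_ends` (DS/TS) with `K = Y` (`island_top`) and `island_noend` give `Star (fun z => pp (gs (q z))) k Y`; on the neighbourhood `V ∩ G ⁻¹' V` of `Y` the map `pp ∘ gs ∘ q` is equal to `G` (`τ = id` on `V`).  Apply it with `N ∩ V ∩ G ⁻¹' V`.
`island_star_pt`: `Y = {P}`, `G P = P`.  `Cond.one`: if `Hyp (p P)`, `2 < |tr|`: `hyp_arc` gives a connected `T ⊆ StabX X p g P ⊆ X \ U` (`M.stab`, `C.per`) containing `P` and another point; it is contained in the component `Y = {P}`: contradiction.  So `|tr| < 2`,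
`det (B - 1) = 2 - tr B > 0` for `B = fderiv ℝ G P`; `star_point` (DS/ID).
`island_index'`: `L' = Lift.mul (Lift.pow ..)` etc. for `H' x = A c (G^[n] x)`, `k ∈ Y` arbitrary, `island_star` with `V ∩ X`.  If `H = H'` on `X`: direct (`frontier O ⊆ closure O ⊆ X`).  If `H = Gi^[n] (A c⁻¹ x)` on `X`: apply it with the neighbourhood `V₁ = {x ∈ V ∩ X | H' x ∈ V ∩ X}` to get `O₁`, and put
`O = H' '' O₁` (open: `H'` is a homeomorphism of `X`; `closure O = H' '' closure O₁`, `closure O₁` is compact in `X`; `frontier O = H' '' frontier O₁`; `H' '' Y = Y`).  For `x = H' y`, `y ∈ frontier O₁`: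
`(H x - x) / (x - k) = (y - H' y) / (H' y - k) = - ((H' y - y) / (y - k)) / ((H' y - k) / (y - k))` has a logarithm (`IC_log_div`, `IC_log_neg`, `IC_log_comp` with `H`).
-/

namespace CV

open Metric Set Filter Topology Function DS TN MeasureTheory

section
variable {S : Type} [MetricSpace S] [CompactSpace S] {X : Set ℂ} {Γ : Type} [Group Γ]
  {A : Γ → ℂ → ℂ} {p : ℂ → S} {g gi : S → S} {G Gi : ℂ → ℂ} {θ : Γ ≃* Γ} {ρ : ℂ → ℝ}
  {Hyp : S → Prop} {U : Set ℂ} {N : Subgroup Γ}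

theorem ISb_det (B : ℂ →L[ℝ] ℂ) : (B - ContinuousLinearMap.id ℝ ℂ).det =
    B.det - LinearMap.trace ℝ ℂ (B : ℂ →ₗ[ℝ] ℂ) + 1 := by
  have h1 : ∀ T : ℂ →ₗ[ℝ] ℂ, LinearMap.det T =
      (T 1).re * (T Complex.I).im - (T Complex.I).re * (T 1).im := by
    intro T
    rw [← LinearMap.det_toMatrix Complex.basisOneI, Matrix.det_fin_two]
    simp [LinearMap.toMatrix_apply]
  have h2 : LinearMap.trace ℝ ℂ (B : ℂ →ₗ[ℝ] ℂ) = (B 1).re + (B Complex.I).im := by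
    rw [LinearMap.trace_eq_matrix_trace ℝ Complex.basisOneI, Matrix.trace_fin_two]
    simp [LinearMap.toMatrix_apply]
  have h3 : B.det = (B 1).re * (B Complex.I).im - (B Complex.I).re * (B 1).im := h1 _
  have h4 : (B - ContinuousLinearMap.id ℝ ℂ).det = ((B 1).re - 1) * ((B Complex.I).im - 1) -
      (B Complex.I).re * (B 1).im := by
    have := h1 ((B - ContinuousLinearMap.id ℝ ℂ : ℂ →L[ℝ] ℂ) : ℂ →ₗ[ℝ] ℂ)
    refine this.trans ?_
    simp
  rw [h4, h3, h2]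
  ring

theorem island_star_pt (D : Deck X A p) (L : Lift X A p g gi G Gi θ ρ)
    (C : Cond X A p g gi G Hyp) (M : Dom X A p g G U N) {P : ℂ} (hY : Island X U {P})
    (hGY : G '' {P} = {P}) : Star G P {P} := by
  obtain ⟨x, hx, hcx⟩ := hY.comp
  have hxP : x = P := by
    have h1 : x ∈ connectedComponentIn (X \ U) x := mem_connectedComponentIn hx
    rw [← hcx] at h1
    exact h1
  subst hxP
  have hPX : x ∈ X := hx.1
  have hGP : G x = x := by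
    rw [image_singleton] at hGY
    exact singleton_injective hGY
  obtain ⟨hdet, htri⟩ := Cond.one D L C hPX hGP
  have htr : |LinearMap.trace ℝ ℂ (fderiv ℝ G x : ℂ →ₗ[ℝ] ℂ)| < 2 := by
    rcases htri with h | ⟨hH, h⟩
    · exact h
    · exfalso
      obtain ⟨T, hT, hTc, hPT, y, hy, hyne⟩ := hyp_arc D L C hPX hGP hH h
      have h1 : T ⊆ X \ U := by
        intro w hw
        refine ⟨(hT hw).1, fun hwU => ?_⟩
        exact (Set.disjoint_left.1 (M.stab x hPX (C.per _ hH))) hwU (hT hw)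
      have h2 := hTc.isPreconnected.subset_connectedComponentIn hPT h1 hy
      rw [← hcx] at h2
      exact hyne h2
  have hB : HasFDerivAt G (fderiv ℝ G x) x :=
    ((L.c1.differentiableOn one_ne_zero x hPX).differentiableAt (D.opn.mem_nhds hPX)).hasFDerivAt
  have hcont : ∀ᶠ z in 𝓝 x, ContinuousAt G z := by
    filter_upwards [D.opn.mem_nhds hPX] with z hz
    exact L.c1.continuousOn.continuousAt (D.opn.mem_nhds hz)
  have hd1 : 0 < (fderiv ℝ G x - ContinuousLinearMap.id ℝ ℂ).det := by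
    rw [ISb_det, hdet]
    linarith [(abs_lt.1 htr).2]
  intro N' hN' hPN'
  obtain ⟨O, o1, o2, o3, o4, o5, o6, o7⟩ := star_point hB hGP hd1 (by rw [hdet]; exact one_pos)
    hcont hN' (hPN' rfl)
  exact ⟨O, o1, singleton_subset_iff.2 o2, o3, o4, o5, o6, fun z hz hzP => o7 z hz hzP⟩

end

end CV

end S_H36_DG_ISb

section S_H36_DG_IS

/-!
IS (the star property of invariant islands, block B6).
`island_star_nt`: `exists_tau`, `tau_lift`, `exists_SC`, `star_of_ends` (DS/TS) with `K = Y` (`island_top`) and `island_noend` give `Star (fun z => pp (gs (q z))) k Y`; on the neighbourhood `V ∩ G ⁻¹' V` of `Y` the map `pp ∘ gs ∘ q` is equal to `G` (`τ = id` on `V`).  Apply it with `N ∩ V ∩ G ⁻¹' V`.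
`island_star_pt`: `Y = {P}`, `G P = P`.  `Cond.one`: if `Hyp (p P)`, `2 < |tr|`: `hyp_arc` gives a connected `T ⊆ StabX X p g P ⊆ X \ U` (`M.stab`, `C.per`) containing `P` and another point; it is contained in the component `Y = {P}`: contradiction.  So `|tr| < 2`,
`det (B - 1) = 2 - tr B > 0` for `B = fderiv ℝ G P`; `star_point` (DS/ID).
`island_index'`: `L' = Lift.mul (Lift.pow ..)` etc. for `H' x = A c (G^[n] x)`, `k ∈ Y` arbitrary, `island_star` with `V ∩ X`.  If `H = H'` on `X`: direct (`frontier O ⊆ closure O ⊆ X`).  If `H = Gi^[n] (A c⁻¹ x)` on `X`: apply it with the neighbourhood `V₁ = {x ∈ V ∩ X | H' x ∈ V ∩ X}` to get `O₁`, and put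
`O = H' '' O₁` (open: `H'` is a homeomorphism of `X`; `closure O = H' '' closure O₁`, `closure O₁` is compact in `X`; `frontier O = H' '' frontier O₁`; `H' '' Y = Y`).  For `x = H' y`, `y ∈ frontier O₁`:
`(H x - x) / (x - k) = (y - H' y) / (H' y - k) = - ((H' y - y) / (y - k)) / ((H' y - k) / (y - k))` has a logarithm (`IC_log_div`, `IC_log_neg`, `IC_log_comp` with `H`).
-/

namespace CV

open Metric Set Filter Topology Function DS TN MeasureTheory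

section
variable {S : Type} [MetricSpace S] [CompactSpace S] {X : Set ℂ} {Γ : Type} [Group Γ]
  {A : Γ → ℂ → ℂ} {p : ℂ → S} {g gi : S → S} {G Gi : ℂ → ℂ} {θ : Γ ≃* Γ} {ρ : ℂ → ℝ}
  {Hyp : S → Prop} {U : Set ℂ} {N : Subgroup Γ}

private theorem IS_star (D : Deck X A p) (L : Lift X A p g gi G Gi θ ρ)
    (C : Cond X A p g gi G Hyp) (M : Dom X A p g G U N) {Y : Set ℂ} (hY : Island X U Y)
    (hGY : G '' Y = Y) {k : ℂ} (hk : k ∈ Y) : Star G k Y := by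
  rcases Y.subsingleton_or_nontrivial with h | h
  · have hYk : Y = {k} := h.eq_singleton_of_mem hk
    subst hYk
    exact island_star_pt D L C M hY hGY
  · exact island_star_nt D L C M hY hGY h hk

theorem island_index' (D : Deck X A p) (L : Lift X A p g gi G Gi θ ρ) (C : Cond X A p g gi G Hyp)
    (M : Dom X A p g G U N) {n : ℕ} (hn : 0 < n) (c : N) {Y : Set ℂ} (hY : Island X U Y)
    (hHY : (fun x => A c (G^[n] x)) '' Y = Y) {V : Set ℂ} (hV : IsOpen V) (hYV : Y ⊆ V)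
    {H : ℂ → ℂ} (hH : (∀ x ∈ X, H x = A c (G^[n] x)) ∨ ∀ x ∈ X, H x = Gi^[n] (A (c : Γ)⁻¹ x)) :
    ∃ O : Set ℂ, ∃ k ∈ Y, IsOpen O ∧ Y ⊆ O ∧ closure O ⊆ V ∧ Bornology.IsBounded O ∧
      HasLog (fun x => (H x - x) / (x - k)) (frontier O) ∧
      ∀ x ∈ closure O, x ∉ Y → H x ≠ x := by
  obtain ⟨hYc, hYX, -⟩ := hY.basic
  have hYX' : Y ⊆ X := fun x hx => (hYX hx).1
  obtain ⟨k, hk⟩ := hYc.nonempty
  obtain ⟨θn, -, L1⟩ := L.pow D n
  have L2 := L1.mul D (c : Γ)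
  have C2 := (C.pow D L hn).mul D L1 (c : Γ)
  have M2 := (M.pow L.cg hn).mul c.2
  set H' : ℂ → ℂ := fun x => A c (G^[n] x) with hH'
  set Hi : ℂ → ℂ := fun x => Gi^[n] (A (c : Γ)⁻¹ x) with hHi
  have hst : Star H' k Y := IS_star D L2 C2 M2 hY hHY hk
  have hXo : IsOpen X := D.opn
  have hc' : ContinuousOn H' X := L2.c1.continuousOn
  have hci : ContinuousOn Hi X := L2.c1i.continuousOn
  have hm' : MapsTo H' X X := L2.mG
  have hmi : MapsTo Hi X X := L2.mGi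
  have hiH : ∀ x ∈ X, Hi (H' x) = x := L2.GiG
  have hHi' : ∀ x ∈ X, H' (Hi x) = x := L2.GGi
  rcases hH with hH | hH
  · obtain ⟨O, h1, h2, h3, h4, h5, -, h7⟩ := hst (V ∩ X) (hV.inter hXo)
      (subset_inter hYV hYX')
    refine ⟨O, k, hk, h1, h2, h3.trans inter_subset_left, h4, ?_, ?_⟩
    · refine IC_log_congr h5 fun z hz => ?_
      rw [hH z (h3 (frontier_subset_closure hz)).2]
    · intro x hx hxY
      rw [hH x (h3 hx).2]
      exact h7 x hx hxY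
  · have hV₁ : IsOpen (X ∩ V ∩ (X ∩ H' ⁻¹' (V ∩ X))) :=
      (hXo.inter hV).inter (hc'.isOpen_inter_preimage hXo (hV.inter hXo))
    have hHYm : ∀ y ∈ Y, H' y ∈ Y := fun y hy => by
      have h : H' y ∈ H' '' Y := mem_image_of_mem _ hy
      rwa [hHY] at h
    obtain ⟨O₁, h1, h2, h3, h4, h5, h6, h7⟩ := hst _ hV₁ (fun y hy =>
      ⟨⟨hYX' hy, hYV hy⟩, hYX' hy, hYV (hHYm y hy), hYX' (hHYm y hy)⟩)
    have hO₁X : closure O₁ ⊆ X := fun x hx => (h3 hx).1.1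
    have hcpt : IsCompact (closure O₁) := isCompact_of_isClosed_isBounded isClosed_closure
      h4.closure
    have hOeq : H' '' O₁ = X ∩ Hi ⁻¹' O₁ := by
      ext y
      constructor
      · rintro ⟨x, hx, rfl⟩
        have hxX := hO₁X (subset_closure hx)
        exact ⟨hm' hxX, by simpa [hiH x hxX] using hx⟩
      · rintro ⟨hy, hy'⟩
        exact ⟨Hi y, hy', hHi' y hy⟩
    have hOo : IsOpen (H' '' O₁) := by
      rw [hOeq]
      exact hci.isOpen_inter_preimage hXo h1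
    have hcl : closure (H' '' O₁) = H' '' closure O₁ := by
      apply subset_antisymm
      · exact closure_minimal (image_mono subset_closure)
          (hcpt.image_of_continuousOn (hc'.mono hO₁X)).isClosed
      · exact (hc'.mono hO₁X).image_closure
    have hinj : InjOn H' X := fun x hx y hy h => by
      rw [← hiH x hx, ← hiH y hy, h]
    have hfr : ∀ x ∈ frontier (H' '' O₁), x ∈ X ∧ Hi x ∈ frontier O₁ := by
      intro x hx
      rw [hOo.frontier_eq, hcl] at hx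
      obtain ⟨⟨y, hy, rfl⟩, hx2⟩ := hx
      have hyX := hO₁X hy
      refine ⟨hm' hyX, ?_⟩
      rw [hiH y hyX, h1.frontier_eq]
      exact ⟨hy, fun h => hx2 (mem_image_of_mem _ h)⟩
    refine ⟨H' '' O₁, k, hk, hOo, ?_, ?_, ?_, ?_, ?_⟩
    · calc Y = H' '' Y := hHY.symm
        _ ⊆ H' '' O₁ := image_mono h2
    · rw [hcl]
      rintro _ ⟨x, hx, rfl⟩
      exact (h3 hx).2.2.1
    · exact ((hcpt.image_of_continuousOn (hc'.mono hO₁X)).isBounded).subset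
        (image_mono subset_closure)
    · have hq : HasLog (fun y => ((H' y - y) / (y - k)) / ((H' y - k) / (y - k)))
          (frontier O₁) := IC_log_div h5 h6
      have hq2 : HasLog (fun x => ((H' (Hi x) - Hi x) / (Hi x - k)) /
          ((H' (Hi x) - k) / (Hi x - k))) (frontier (H' '' O₁)) :=
        IC_log_comp (h := Hi) hq (hci.mono fun x hx => (hfr x hx).1) (fun x hx => (hfr x hx).2)
      apply IC_log_neg
      refine IC_log_congr hq2 fun x hx => ?_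
      obtain ⟨hxX, hx2⟩ := hfr x hx
      have hne : Hi x - k ≠ 0 := by
        rw [h1.frontier_eq] at hx2
        intro h
        exact hx2.2 (by rw [sub_eq_zero.mp h]; exact h2 hk)
      show -((H x - x) / (x - k)) = _
      rw [hH x hxX, hHi' x hxX, div_div_div_cancel_right₀ hne]
      show -((Hi x - x) / (x - k)) = _
      rw [← neg_div, neg_sub]
    · intro x hx hxY h
      rw [hcl] at hx
      obtain ⟨y, hy, rfl⟩ := hx
      have hyX := hO₁X hy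
      have h8 : Hi (H' y) = H' y := by
        have := hH (H' y) (hm' hyX)
        rw [h] at this
        exact this.symm
      rw [hiH y hyX] at h8
      exact h7 y hy (fun hyY => hxY (hHYm y hyY)) h8.symm

end

end CV

end S_H36_DG_IS
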