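import Pool.Agent.H12.KS.K04
import Pool.Agent.H12.KS.K41

/-! Joined modules of the proof of MP_8a27c0_an (one section per module). -/

section S_H12_CV_B6

/-!
B6 (index of an island, (1.1) of the note; block of helper36).  Proof: Pool/Agent/H36/DG.
-/

namespace CV

open Metric Set Filter Topology Function DS TN

variable {S : Type} [MetricSpace S] [CompactSpace S] {X : Set ℂ} {Γ : Type} [Group Γ]
  {A : Γ → ℂ → ℂ} {p : ℂ → S} {g gi : S → S} {G Gi : ℂ → ℂ} {θ : Γ ≃* Γ} {ρ : ℂ → ℝ}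
  {Hyp : S → Prop} {U : Set ℂ} {N : Subgroup Γ}

/-- index of an island; `H` is `A c ∘ G^n` or its inverse -/
theorem island_index (D : Deck X A p) (L : Lift X A p g gi G Gi θ ρ) (C : Cond X A p g gi G Hyp)
    (M : Dom X A p g G U N) {n : ℕ} (hn : 0 < n) (c : N) {Y : Set ℂ} (hY : Island X U Y)
    (hHY : (fun x => A c (G^[n] x)) '' Y = Y) {V : Set ℂ} (hV : IsOpen V) (hYV : Y ⊆ V)
    {H : ℂ → ℂ} (hH : (∀ x ∈ X, H x = A c (G^[n] x)) ∨ ∀ x ∈ X, H x = Gi^[n] (A (c : Γ)⁻¹ x)) :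
    ∃ O : Set ℂ, ∃ k ∈ Y, IsOpen O ∧ Y ⊆ O ∧ closure O ⊆ V ∧ Bornology.IsBounded O ∧
      HasLog (fun x => (H x - x) / (x - k)) (frontier O) ∧
      ∀ x ∈ closure O, x ∉ Y → H x ≠ x :=
  island_index' D L C M hn c hY hHY hV hYV hH

end CV

end S_H12_CV_B6

section S_H12_CV_HA

/-!
HA (fixed points of the lifts).
`isolated`: for `H = A c ∘ G^n`, `H P = P`, `P ∈ X`: the derivative `B = fderiv ℝ H P` (H is `C¹` on the open set `X`) has determinant `1`: `ρ (H x) det (fderiv H x) = ρ x`: `ρ` is `G`-invariant (`L.area` iterated) and `A c`-invariant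
(`L.ρinv`, the real determinant of the derivative of the holomorphic map `A c` is `‖deriv‖²`), and `H P = P`, `ρ P ≠ 0`.  By `C.tri` the trace is not `2`, so `det (B - 1) = 1 - tr + 1 ≠ 0`, `B - 1` is injective, `‖(B - 1) v‖ ≥ c ‖v‖`, and `H x ≠ x` for `x ≠ P` near `P`.
`fin_cpt`: fixed points of `H` in a compact subset of `X` are a closed discrete set, finite.
`fin_mod`: the fixed points of all `A d ∘ G^n` (`d ∈ Γ`, fixed `n`) in the compact set `C` of `Deck.coc` are finite in number: `A d (G^n x) = x`, `x ∈ C`, then `d` is in a finite set (`proper` for the compact set `C ∪ G^n '' C`).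
So there is a finite `T ⊆ C` such that every fixed point `x` of any `A d ∘ G^n` in `X` is `A a t` for some `t ∈ T`, `a ∈ Γ`.
`cen_fix`: `H = A c ∘ G^n`, `H x = x`, and `H (A d x) = A d x` where `x, A d x ∈ fil X U`: then `d ∈ N` (`fil_same`) and `c * θ^n d * c⁻¹ = d`: `H (A d x) = A (c θ^n(d) c⁻¹) (H x)`, `Deck.ext`.
-/

namespace CV

open Metric Set Filter Topology Function DS TN

variable {S : Type} [MetricSpace S] {X : Set ℂ} {Γ : Type} [Group Γ]
  {A : Γ → ℂ → ℂ} {p : ℂ → S} {g gi : S → S} {G Gi : ℂ → ℂ} {θ : Γ ≃* Γ} {ρ : ℂ → ℝ}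
  {Hyp : S → Prop} {U : Set ℂ} {N : Subgroup Γ} {ψ v : ℂ → ℂ}

theorem Hcomm (D : Deck X A p) (L : Lift X A p g gi G Gi θ ρ) (n : ℕ) (c d : Γ) {x : ℂ}
    (hx : x ∈ X) : A c (G^[n] (A d x)) = A (c * θ^[n] d * c⁻¹) (A c (G^[n] x)) := by
  obtain ⟨i1, -, -, -, -, -, i7, -⟩ := L.iter n
  have hy : G^[n] x ∈ X := i1 hx
  rw [i7 d x hx, ← D.mul _ _ _ hy, ← D.mul _ _ _ hy]
  congr 1
  group

theorem CV_HA_det {f : ℂ → ℂ} {y : ℂ} (_hf : DifferentiableAt ℂ f y) :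
    ((fderiv ℂ f y).restrictScalars ℝ).det = ‖deriv f y‖ ^ 2 := by
  have h1 : (((fderiv ℂ f y).restrictScalars ℝ : ℂ →L[ℝ] ℂ) : ℂ →ₗ[ℝ] ℂ) =
      Algebra.lmul ℝ ℂ (deriv f y) := by
    apply LinearMap.ext
    intro z
    show fderiv ℂ f y z = deriv f y * z
    rw [fderiv_eq_smul_deriv, smul_eq_mul, mul_comm]
  show LinearMap.det (((fderiv ℂ f y).restrictScalars ℝ : ℂ →L[ℝ] ℂ) : ℂ →ₗ[ℝ] ℂ) = _
  rw [h1, ← Algebra.norm_apply, Algebra.norm_complex_apply, Complex.normSq_eq_norm_sq]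

theorem CV_HA_area (D : Deck X A p) (L : Lift X A p g gi G Gi θ ρ) (n : ℕ) {x : ℂ} (hx : x ∈ X) :
    ρ (G^[n] x) * (fderiv ℝ (G^[n]) x).det = ρ x := by
  induction n with
  | zero =>
    have h1 : (fderiv ℝ (G^[0]) x).det = 1 := by
      rw [iterate_zero, fderiv_id]
      exact LinearMap.det_id
    rw [h1, mul_one]
    rfl
  | succ n ih =>
    obtain ⟨i1, -, -, -, i5, -, -, -⟩ := L.iter n
    have hy : G^[n] x ∈ X := i1 hx
    have hG : HasFDerivAt (G^[n]) (fderiv ℝ (G^[n]) x) x :=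
      ((i5.contDiffAt (D.opn.mem_nhds hx)).differentiableAt (by norm_num)).hasFDerivAt
    have hG1 : HasFDerivAt G (fderiv ℝ G (G^[n] x)) (G^[n] x) :=
      ((L.c1.contDiffAt (D.opn.mem_nhds hy)).differentiableAt (by norm_num)).hasFDerivAt
    have h1 := hG1.comp x hG
    rw [← iterate_succ'] at h1
    rw [h1.fderiv]
    have hdet : ((fderiv ℝ G (G^[n] x)).comp (fderiv ℝ (G^[n]) x)).det =
        (fderiv ℝ G (G^[n] x)).det * (fderiv ℝ (G^[n]) x).det := LinearMap.det_comp _ _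
    rw [hdet, ← mul_assoc, iterate_succ_apply', L.area _ hy, ih]

theorem CV_HA_inj (B : ℂ →L[ℝ] ℂ) (hdet : B.det = 1) (htr : LinearMap.trace ℝ ℂ (B : ℂ →ₗ[ℝ] ℂ) ≠ 2) :
    ∃ K : NNReal, AntilipschitzWith K (B - ContinuousLinearMap.id ℝ ℂ : ℂ →L[ℝ] ℂ) := by
  set b := Complex.basisOneI with hb
  set M := LinearMap.toMatrix b b (B : ℂ →ₗ[ℝ] ℂ) with hM
  have h1 : M.det = 1 := by rw [hM, LinearMap.det_toMatrix]; exact hdet
  have h2 : M.trace ≠ 2 := by
    rw [hM, ← LinearMap.trace_eq_matrix_trace ℝ b]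
    exact htr
  set T : ℂ →ₗ[ℝ] ℂ := (B : ℂ →ₗ[ℝ] ℂ) - LinearMap.id with hT
  have h3 : LinearMap.det T ≠ 0 := by
    have h4 : LinearMap.toMatrix b b T = M - 1 := by
      rw [hT, map_sub, LinearMap.toMatrix_id]
    rw [← LinearMap.det_toMatrix b, h4, Matrix.det_fin_two]
    rw [Matrix.det_fin_two] at h1
    rw [Matrix.trace_fin_two] at h2
    simp only [Matrix.sub_apply, Matrix.one_apply_eq, ne_eq]
    rw [Matrix.one_apply_ne (by decide), Matrix.one_apply_ne (by decide)]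
    intro h5
    apply h2
    linarith
  have hker : LinearMap.ker T = ⊥ := by
    by_contra hne
    apply h3
    exact LinearMap.det_eq_zero_iff_ker_ne_bot.2 hne
  obtain ⟨K, -, hK⟩ := (LinearMap.injective_iff_antilipschitz T).1 (LinearMap.ker_eq_bot.1 hker)
  exact ⟨K, hK⟩

theorem deriv_fix (D : Deck X A p) (L : Lift X A p g gi G Gi θ ρ) {n : ℕ}
    {c : Γ} {P : ℂ} (hP : P ∈ X) (hf : A c (G^[n] P) = P) :
    HasFDerivAt (fun x => A c (G^[n] x)) (fderiv ℝ (fun x => A c (G^[n] x)) P) P ∧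
      (fderiv ℝ (fun x => A c (G^[n] x)) P).det = 1 := by
  obtain ⟨i1, -, -, -, i5, -, -, -⟩ := L.iter n
  have hy : G^[n] P ∈ X := i1 hP
  have hA := (D.hol c).differentiableAt (D.opn.mem_nhds hy)
  have hAR : HasFDerivAt (A c) ((fderiv ℂ (A c) (G^[n] P)).restrictScalars ℝ) (G^[n] P) :=
    hA.hasFDerivAt.restrictScalars ℝ
  have hG : HasFDerivAt (G^[n]) (fderiv ℝ (G^[n]) P) P :=
    ((i5.contDiffAt (D.opn.mem_nhds hP)).differentiableAt (by norm_num)).hasFDerivAt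
  have hH := hAR.comp P hG
  have hH' : HasFDerivAt (fun x => A c (G^[n] x)) (((fderiv ℂ (A c) (G^[n] P)).restrictScalars ℝ).comp
    (fderiv ℝ (G^[n]) P)) P := hH
  refine ⟨hH'.differentiableAt.hasFDerivAt, ?_⟩
  rw [hH'.fderiv]
  have hdet : (((fderiv ℂ (A c) (G^[n] P)).restrictScalars ℝ).comp (fderiv ℝ (G^[n]) P)).det =
      ((fderiv ℂ (A c) (G^[n] P)).restrictScalars ℝ).det * (fderiv ℝ (G^[n]) P).det :=
    LinearMap.det_comp _ _
  rw [hdet, CV_HA_det hA]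
  have h1 := CV_HA_area D L n hP
  have h2 := L.ρinv c _ hy
  rw [hf] at h2
  have h3 := L.ρpos P hP
  have h4 : ρ P * (‖deriv (A c) (G^[n] P)‖ ^ 2 * (fderiv ℝ (G^[n]) P).det) = ρ P * 1 := by
    rw [← mul_assoc, h2, h1, mul_one]
  exact mul_left_cancel₀ h3.ne' h4

theorem isolated (D : Deck X A p) (L : Lift X A p g gi G Gi θ ρ) (C : Cond X A p g gi G Hyp)
    {n : ℕ} (hn : 0 < n) {c : Γ} {P : ℂ} (hP : P ∈ X) (hf : A c (G^[n] P) = P) :
    ∀ᶠ x in 𝓝 P, A c (G^[n] x) = x → x = P := by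
  obtain ⟨h1, h2⟩ := deriv_fix D L hP hf
  have htr : LinearMap.trace ℝ ℂ (fderiv ℝ (fun x => A c (G^[n] x)) P : ℂ →ₗ[ℝ] ℂ) ≠ 2 := by
    intro h
    rcases C.tri n hn c P hP hf with h3 | ⟨-, h3⟩
    · rw [h, abs_of_pos (by norm_num : (0:ℝ) < 2)] at h3
      exact lt_irrefl _ h3
    · rw [h, abs_of_pos (by norm_num : (0:ℝ) < 2)] at h3
      exact lt_irrefl _ h3
  have h4 : HasFDerivAt (fun x => A c (G^[n] x) - x)
      (fderiv ℝ (fun x => A c (G^[n] x)) P - ContinuousLinearMap.id ℝ ℂ) P :=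
    h1.sub (hasFDerivAt_id P)
  have h5 := h4.eventually_ne (c := 0) (CV_HA_inj _ h2 htr)
  rw [eventually_nhdsWithin_iff] at h5
  filter_upwards [h5] with x hx hfx
  by_contra hne
  exact hx hne (sub_eq_zero.2 hfx)

theorem fin_cpt (D : Deck X A p) (L : Lift X A p g gi G Gi θ ρ) (C : Cond X A p g gi G Hyp)
    {n : ℕ} (hn : 0 < n) (c : Γ) {B : Set ℂ} (hBX : B ⊆ X) (hB : IsCompact B) :
    {x ∈ B | A c (G^[n] x) = x}.Finite := by
  have hcont : ContinuousOn (fun x => A c (G^[n] x)) X := by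
    obtain ⟨i1, -, -, -, i5, -, -, -⟩ := L.iter n
    exact (D.cont c).comp i5.continuousOn i1
  have hex : ∀ x ∈ B, ∃ V ∈ 𝓝 x, ∀ y ∈ V, A c (G^[n] y) = y → y = x := by
    intro x hx
    by_cases hfx : A c (G^[n] x) = x
    · exact ⟨_, isolated D L C hn (hBX hx) hfx, fun y hy => hy⟩
    · have h1 : ContinuousAt (fun x => A c (G^[n] x)) x :=
        hcont.continuousAt (D.opn.mem_nhds (hBX hx))
      have h2 : ∀ᶠ y in 𝓝 x, A c (G^[n] y) ≠ y := by
        have h3 := (h1.sub continuousAt_id).eventually_ne (sub_ne_zero.2 hfx)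
        filter_upwards [h3] with y hy hy'
        exact hy (sub_eq_zero.2 hy')
      exact ⟨_, h2, fun y hy h => absurd h hy⟩
  choose! V hV hV' using hex
  obtain ⟨t, ht, htB⟩ := hB.elim_nhds_subcover V hV
  refine t.finite_toSet.subset ?_
  rintro x ⟨hxB, hx⟩
  obtain ⟨y, hy, hxy⟩ := mem_iUnion₂.1 (htB hxB)
  rw [hV' y (ht y hy) x hxy hx]
  exact hy

theorem fin_mod [CompactSpace S] (D : Deck X A p) (L : Lift X A p g gi G Gi θ ρ)
    (C : Cond X A p g gi G Hyp) {n : ℕ} (hn : 0 < n) :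
    ∃ T : Set ℂ, T.Finite ∧ T ⊆ X ∧ ∀ x ∈ X, ∀ d, A d (G^[n] x) = x → ∃ t ∈ T, ∃ a, A a t = x := by
  obtain ⟨i1, -, -, -, i5, -, i7, -⟩ := L.iter n
  obtain ⟨K, hKX, hK, hcoc⟩ := D.coc
  have hKG : IsCompact (G^[n] '' K) := hK.image_of_continuousOn (i5.continuousOn.mono hKX)
  have hKGX : G^[n] '' K ⊆ X := by
    rintro _ ⟨x, hx, rfl⟩
    exact i1 (hKX hx)
  have hfin := D.proper (K ∪ G^[n] '' K) (union_subset hKX hKGX) (hK.union hKG)
  refine ⟨⋃ d ∈ {g | ∃ x ∈ K ∪ G^[n] '' K, A g x ∈ K ∪ G^[n] '' K}, {x ∈ K | A d (G^[n] x) = x},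
    hfin.biUnion fun d _ => fin_cpt D L C hn d hKX hK, ?_, ?_⟩
  · intro x hx
    obtain ⟨d, -, hxd⟩ := mem_iUnion₂.1 hx
    exact hKX hxd.1
  · intro x hx d hd
    obtain ⟨a, ha⟩ := hcoc x hx
    have hGx : G^[n] x ∈ X := i1 hx
    have h1 : A (a * d * (θ^[n] a)⁻¹) (G^[n] (A a x)) = A a x := by
      rw [i7 a x hx, ← D.mul _ _ _ hGx]
      have h2 : a * d * (θ^[n] a)⁻¹ * θ^[n] a = a * d := by group
      rw [h2, D.mul _ _ _ hGx, hd]
    refine ⟨A a x, ?_, a⁻¹, D.inv_left a hx⟩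
    rw [mem_iUnion₂]
    refine ⟨a * d * (θ^[n] a)⁻¹, ⟨G^[n] (A a x), Or.inr ⟨_, ha, rfl⟩, ?_⟩, ha, h1⟩
    rw [h1]
    exact Or.inl ha

theorem cen_fix (D : Deck X A p) (L : Lift X A p g gi G Gi θ ρ) (M : Dom X A p g G U N) {n : ℕ}
    {c d : Γ} {x : ℂ} (hx : x ∈ fil X U) (hdx : A d x ∈ fil X U) (hf : A c (G^[n] x) = x)
    (hdf : A c (G^[n] (A d x)) = A d x) : d ∈ N ∧ c * θ^[n] d * c⁻¹ = d := by
  have hxX : x ∈ X := fil_sub hx
  have h1 := Hcomm D L n c d hxX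
  rw [hdf, hf] at h1
  exact ⟨fil_same D M hx hdx, (D.ext hxX h1).symm⟩

/-- representatives of the fixed points in the filled set modulo the centraliser -/
theorem fin_cen [CompactSpace S] (D : Deck X A p) (L : Lift X A p g gi G Gi θ ρ)
    (C : Cond X A p g gi G Hyp) (M : Dom X A p g G U N) {n : ℕ} (hn : 0 < n) (c : N) :
    ∃ T : Set ℂ, T.Finite ∧ T ⊆ fil X U ∧ (∀ t ∈ T, A c (G^[n] t) = t) ∧
      ∀ x ∈ fil X U, A c (G^[n] x) = x → ∃ t ∈ T, ∃ d ∈ N, c * θ^[n] d * (c : Γ)⁻¹ = d ∧ A d t = x := by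
  obtain ⟨T', hT'f, hT'X, hT'⟩ := fin_mod D L C hn
  classical
  let good : ℂ → Prop := fun t => ∃ x, x ∈ fil X U ∧ A c (G^[n] x) = x ∧ ∃ a, A a t = x
  let rep : ℂ → ℂ := fun t => if h : good t then h.choose else 0
  have hrep : ∀ t, good t → rep t ∈ fil X U ∧ A c (G^[n] (rep t)) = rep t ∧ ∃ a, A a t = rep t := by
    intro t ht
    have h1 : rep t = ht.choose := by simp only [rep, dif_pos ht]
    rw [h1]
    exact ht.choose_spec
  refine ⟨rep '' {t ∈ T' | good t}, (hT'f.subset (sep_subset _ _)).image _, ?_, ?_, ?_⟩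
  · rintro _ ⟨t, ⟨-, ht⟩, rfl⟩
    exact (hrep t ht).1
  · rintro _ ⟨t, ⟨-, ht⟩, rfl⟩
    exact (hrep t ht).2.1
  · intro x hx hfx
    obtain ⟨t, htT, a, ha⟩ := hT' x (fil_sub hx) c hfx
    have hgood : good t := ⟨x, hx, hfx, a, ha⟩
    obtain ⟨r1, r2, b, hb⟩ := hrep t hgood
    have htX : t ∈ X := hT'X htT
    have h1 : A (a * b⁻¹) (rep t) = x := by
      rw [← hb, ← D.mul _ _ _ htX]
      have h2 : a * b⁻¹ * b = a := by group
      rw [h2, ha]
    have h2 := cen_fix D L M (n := n) (c := c) (d := a * b⁻¹) r1 (by rw [h1]; exact hx) r2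
      (by rw [h1]; exact hfx)
    exact ⟨rep t, ⟨t, ⟨htT, hgood⟩, rfl⟩, a * b⁻¹, h2.1, h2.2, h1⟩

end CV

end S_H12_CV_HA

section S_H12_CV_HB

/-!
HB (islands containing fixed points).  `H x = A c (G^n x)`, `c ∈ N`.
`island_free`: `A d '' Y` is an island (`fil_iter` with `n = 0`), so it is `Y` or disjoint from `Y`; if `A d '' Y = Y` then `A (d^n) '' Y = Y` for all `n`, contradiction to `Deck.infinite` for a point `x ∈ Y` (all `A (d^n) x ∈ Y`).
`not_mem_U`: `H x = x` implies `p x ∈ periodicPts g` (`Lift.iter`, `Deck.fibre`: `p x = p (G^n x) = g^n (p x)`), and `x ∈ StabX X p g x`, so `x ∉ U` by `M.stab`.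
`choose_islands`: `fin_cen` gives the finite set `T` of fixed points.  For `t ∈ T` let `Y_t = connectedComponentIn (X \ U) t`, an island (`t ∈ fil X U`, `t ∉ U`), `H '' Y_t = Y_t` (it is an island by `fil_iter`, containing `t`).  Let `Z = {d ∈ N | c θ^n(d) c⁻¹ = d}`, a
subgroup (kernel type condition).  `t ~ t'` iff `A d '' Y_t = Y_t'` for some `d ∈ Z`: an equivalence relation; choose one representative in each class and enumerate them by `Fin m`.  Different representatives: `A d '' Y_i` and `Y_j` are islands, not equal, so disjoint.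
Last statement: `x = A d t`, `d ∈ Z`, `t ~ t_i`, `A d' '' Y_t = Y_i`: `A (d' d⁻¹) x = A d' t ∈ Y_i`.
`separate`: `W` open contained in `X`; choose compact neighbourhoods `K_i ⊆ W` of `Y_i`.  The set of `d` with `A d '' K_i ∩ K_j ≠ ∅` for some `i, j` is finite (`proper` for the union of the `K_i`).  For each of the finitely many triples `(i, j, d)` with
`d ∈ Z`, `d ≠ 1` or `i ≠ j`, the compact sets `A d '' Y_i`, `Y_j` are disjoint, so there are open neighbourhoods of `Y_i` and `Y_j` (inside the interiors of `K_i`, `K_j`) whose closures have this property; `V_i` = finite intersections.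
-/

namespace CV

open Metric Set Filter Topology Function DS TN

variable {S : Type} [MetricSpace S] {X : Set ℂ} {Γ : Type} [Group Γ]
  {A : Γ → ℂ → ℂ} {p : ℂ → S} {g gi : S → S} {G Gi : ℂ → ℂ} {θ : Γ ≃* Γ} {ρ : ℂ → ℝ}
  {Hyp : S → Prop} {U : Set ℂ} {N : Subgroup Γ} {ψ v : ℂ → ℂ}

theorem island_free (D : Deck X A p) (L : Lift X A p g gi G Gi θ ρ) (M : Dom X A p g G U N)
    {Y : Set ℂ} (hY : Island X U Y) {d : Γ} (hd : d ∈ N) (tf : ∀ n : ℕ, 0 < n → d ^ n ≠ 1) :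
    Disjoint (A d '' Y) Y := by
  by_contra hcon
  have hI : Island X U (A d '' Y) := (fil_iter D L M 0 hd).2.2.2 Y hY
  obtain ⟨hYc, hYX, -, hYe⟩ := hY.basic
  have hYX' : Y ⊆ X := fun x hx => (hYX hx).1
  have heq : Y = A d '' Y := by
    refine hYe _ hI ?_
    rw [Set.disjoint_iff_inter_eq_empty, ← Set.not_nonempty_iff_eq_empty, not_not,
      Set.inter_comm] at hcon
    exact hcon
  have hall : ∀ n : ℕ, A (d ^ n) '' Y = Y := by
    intro n
    induction n with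
    | zero =>
      rw [pow_zero]
      rw [Set.image_congr (fun x hx => D.one x (hYX' hx))]
      exact Set.image_id' Y
    | succ n ih => rw [pow_succ, D.image_mul _ _ hYX', ← heq, ih]
  obtain ⟨x, hx⟩ := hYc.nonempty
  obtain ⟨n, -, hn⟩ := D.infinite tf hYX' hY.cpt (hYX' hx)
  apply hn
  rw [← hall n]
  exact ⟨x, hx, rfl⟩

theorem not_mem_U (D : Deck X A p) (L : Lift X A p g gi G Gi θ ρ) (M : Dom X A p g G U N) {n : ℕ}
    (hn : 0 < n) {c : Γ} {x : ℂ} (hx : x ∈ X) (hf : A c (G^[n] x) = x) :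
    x ∉ U ∧ p x ∈ periodicPts g := by
  obtain ⟨i1, -, -, -, -, -, -, i8⟩ := L.iter n
  have h1 : g^[n] (p x) = p x := by
    have h2 := D.fibre c (i1 hx)
    rw [hf, i8 x hx] at h2
    exact h2.symm
  have hper : p x ∈ periodicPts g := mk_mem_periodicPts hn h1
  refine ⟨fun hxU => ?_, hper⟩
  refine disjoint_left.1 (M.stab x hx hper) hxU ⟨hx, ?_⟩
  simp only [dist_self]
  exact tendsto_const_nhds

/-- a maximal set of pairwise unrelated elements -/
theorem CV_HB_reps {α : Type*} [DecidableEq α] (r : α → α → Prop) (hrefl : ∀ a, r a a)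
    (hsymm : ∀ a b, r a b → r b a) (T : Finset α) : ∃ R : Finset α, R ⊆ T ∧
      (∀ a ∈ R, ∀ b ∈ R, a ≠ b → ¬ r a b) ∧ ∀ t ∈ T, ∃ a ∈ R, r t a := by
  induction T using Finset.induction_on with
  | empty =>
    exact ⟨∅, Finset.Subset.refl _, fun a ha => absurd ha (Finset.notMem_empty a),
      fun a ha => absurd ha (Finset.notMem_empty a)⟩
  | insert t T _ ih =>
    obtain ⟨R, hRT, hR, hT⟩ := ih
    by_cases h : ∃ a ∈ R, r t a
    · refine ⟨R, hRT.trans (Finset.subset_insert _ _), hR, fun s hs => ?_⟩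
      rcases Finset.mem_insert.1 hs with rfl | hs
      · exact h
      · exact hT s hs
    · push Not at h
      refine ⟨insert t R, Finset.insert_subset_insert _ hRT, ?_, ?_⟩
      · intro a ha b hb hab
        rcases Finset.mem_insert.1 ha with rfl | ha'
        · rcases Finset.mem_insert.1 hb with rfl | hb'
          · exact absurd rfl hab
          · exact h b hb'
        · rcases Finset.mem_insert.1 hb with rfl | hb'
          · exact fun hr => h a ha' (hsymm _ _ hr)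
          · exact hR a ha' b hb' hab
      · intro s hs
        rcases Finset.mem_insert.1 hs with rfl | hs
        · exact ⟨s, Finset.mem_insert_self _ _, hrefl s⟩
        · obtain ⟨a, ha, hra⟩ := hT s hs
          exact ⟨a, Finset.mem_insert_of_mem ha, hra⟩

theorem CV_HB_inv {n : ℕ} {c d : Γ} (h : c * θ^[n] d * c⁻¹ = d) :
    c * θ^[n] d⁻¹ * c⁻¹ = d⁻¹ := by
  have h1 : θ^[n] d⁻¹ = (θ^[n] d)⁻¹ := by
    apply eq_inv_of_mul_eq_one_left
    rw [← iterate_map_mul θ n, inv_mul_cancel, iterate_map_one]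
  rw [h1]
  calc c * (θ^[n] d)⁻¹ * c⁻¹ = (c * θ^[n] d * c⁻¹)⁻¹ := by group
    _ = d⁻¹ := by rw [h]

theorem CV_HB_mul {n : ℕ} {c d e : Γ} (h : c * θ^[n] d * c⁻¹ = d) (h' : c * θ^[n] e * c⁻¹ = e) :
    c * θ^[n] (d * e) * c⁻¹ = d * e := by
  have h1 : θ^[n] (d * e) = θ^[n] d * θ^[n] e := iterate_map_mul θ n d e
  rw [h1]
  calc c * (θ^[n] d * θ^[n] e) * c⁻¹ = (c * θ^[n] d * c⁻¹) * (c * θ^[n] e * c⁻¹) := by group
    _ = d * e := by rw [h, h']

theorem choose_islands [CompactSpace S] (D : Deck X A p) (L : Lift X A p g gi G Gi θ ρ)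
    (C : Cond X A p g gi G Hyp) (M : Dom X A p g G U N) {n : ℕ} (hn : 0 < n) (c : N) :
    ∃ (m : ℕ) (Y : Fin m → Set ℂ), (∀ i, Island X U (Y i)) ∧
      (∀ i, (fun x => A c (G^[n] x)) '' Y i = Y i) ∧
      (∀ i j, ∀ d ∈ N, c * θ^[n] d * (c : Γ)⁻¹ = d → i ≠ j → Disjoint (A d '' Y i) (Y j)) ∧
      ∀ x ∈ fil X U, A c (G^[n] x) = x →
        ∃ d ∈ N, c * θ^[n] d * (c : Γ)⁻¹ = d ∧ ∃ i, A d x ∈ Y i := by
  classical
  obtain ⟨T, hTf, hTU, hTfix, hT⟩ := fin_cen D L C M hn c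
  set I : ℂ → Set ℂ := fun t => connectedComponentIn (X \ U) t with hI
  have hTX : ∀ t ∈ T, t ∈ X \ U := fun t ht =>
    ⟨fil_sub (hTU ht), (not_mem_U D L M hn (fil_sub (hTU ht)) (hTfix t ht)).1⟩
  have hIsl : ∀ t ∈ T, Island X U (I t) := fun t ht =>
    ⟨(TB_iff (hTX t ht)).1 (hTU ht), t, hTX t ht, rfl⟩
  have hIX : ∀ t, I t ⊆ X := fun t x hx => (connectedComponentIn_subset _ _ hx).1
  have hmem : ∀ t ∈ T, t ∈ I t := fun t ht => mem_connectedComponentIn (hTX t ht)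
  have hinv : ∀ t ∈ T, (fun x => A c (G^[n] x)) '' I t = I t := by
    intro t ht
    have h1 := (fil_iter D L M n c.2).2.2.1 _ (hIsl t ht)
    refine ((hIsl t ht).basic.2.2.2 _ h1 ⟨t, hmem t ht, t, hmem t ht, hTfix t ht⟩).symm
  let r : ℂ → ℂ → Prop := fun t s => ∃ d ∈ N, c * θ^[n] d * (c : Γ)⁻¹ = d ∧ A d '' I t = I s
  have hrefl : ∀ t, r t t := by
    intro t
    refine ⟨1, N.one_mem, ?_, ?_⟩
    · rw [iterate_map_one θ n]; group
    · rw [Set.image_congr (fun x hx => D.one x (hIX t hx))]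
      exact Set.image_id' _
  have hsymm : ∀ t s, r t s → r s t := by
    rintro t s ⟨d, hd, hcd, hds⟩
    refine ⟨d⁻¹, N.inv_mem hd, CV_HB_inv hcd, ?_⟩
    rw [← hds, D.image_inv _ (hIX t)]
  obtain ⟨R, hRT, hR, hR'⟩ := CV_HB_reps r hrefl hsymm hTf.toFinset
  have hRT' : ∀ t ∈ R, t ∈ T := fun t ht => hTf.mem_toFinset.1 (hRT ht)
  let e := R.equivFin
  have he : ∀ i, ((e.symm i : R) : ℂ) ∈ T := fun i => hRT' _ (e.symm i).2
  refine ⟨R.card, fun i => I (e.symm i : R), fun i => hIsl _ (he i), fun i => hinv _ (he i), ?_, ?_⟩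
  · intro i j d hd hcd hij
    by_contra hcon
    have hI1 : Island X U (A d '' I (e.symm i : R)) := (fil_iter D L M 0 hd).2.2.2 _ (hIsl _ (he i))
    rw [Set.disjoint_iff_inter_eq_empty, ← Set.not_nonempty_iff_eq_empty, not_not] at hcon
    have heq := hI1.basic.2.2.2 _ (hIsl _ (he j)) hcon
    refine hR _ (e.symm i).2 _ (e.symm j).2 ?_ ⟨d, hd, hcd, heq⟩
    intro h
    exact hij (e.symm.injective (Subtype.ext h))
  · intro x hx hfx
    obtain ⟨t, ht, d, hd, hcd, rfl⟩ := hT x hx hfx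
    obtain ⟨s, hs, d', hd', hcd', hts⟩ := hR' t (hTf.mem_toFinset.2 ht)
    refine ⟨d' * d⁻¹, N.mul_mem hd' (N.inv_mem hd), CV_HB_mul hcd' (CV_HB_inv hcd), e ⟨s, hs⟩, ?_⟩
    have htX : t ∈ X := (hTX t ht).1
    rw [D.mul _ _ _ (D.maps d htX), D.inv_left d htX]
    change A d' t ∈ I (e.symm (e ⟨s, hs⟩) : R)
    rw [Equiv.symm_apply_apply, ← hts]
    exact ⟨t, hmem t ht, rfl⟩

theorem separate (D : Deck X A p) {W : Set ℂ} (hW : IsOpen W) (hWX : W ⊆ X) {m : ℕ}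
    {Y : Fin m → Set ℂ} (hY : ∀ i, IsCompact (Y i)) (hYW : ∀ i, Y i ⊆ W) {Z : Set Γ}
    (hd : ∀ i j, ∀ d ∈ Z, (d ≠ 1 ∨ i ≠ j) → Disjoint (A d '' Y i) (Y j)) :
    ∃ V : Fin m → Set ℂ, (∀ i, IsOpen (V i) ∧ Y i ⊆ V i ∧ closure (V i) ⊆ W ∧
      IsCompact (closure (V i))) ∧
      ∀ i j, ∀ d ∈ Z, (d ≠ 1 ∨ i ≠ j) → Disjoint (A d '' closure (V i)) (closure (V j)) := by
  have h1 : ∀ i, ∃ δ : ℝ, 0 < δ ∧ cthickening δ (Y i) ⊆ W := fun i =>
    (hY i).exists_cthickening_subset_open hW (hYW i)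
  choose δ hδ hδW using h1
  set K : Set ℂ := ⋃ i, cthickening (δ i) (Y i) with hK
  have hKc : IsCompact K := isCompact_iUnion fun i => (hY i).cthickening
  have hKW : K ⊆ W := iUnion_subset hδW
  have hfin := D.proper K (hKW.trans hWX) hKc
  -- eventually small thickenings are good
  have h2 : ∀ i, ∀ᶠ r in 𝓝[>] (0 : ℝ), r < δ i := fun i =>
    nhdsWithin_le_nhds (Iio_mem_nhds (hδ i))
  have h3 : ∀ d ∈ {g | ∃ y ∈ K, A g y ∈ K}, ∀ᶠ r in 𝓝[>] (0 : ℝ), ∀ i j, d ∈ Z →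
      (d ≠ 1 ∨ i ≠ j) → Disjoint (A d '' cthickening r (Y i)) (cthickening r (Y j)) := by
    intro d _
    rw [eventually_all]
    intro i
    rw [eventually_all]
    intro j
    by_cases hdZ : d ∈ Z
    · by_cases hij : d ≠ 1 ∨ i ≠ j
      · have hcpt : IsCompact (A d '' Y i) :=
          (hY i).image_of_continuousOn ((D.cont d).mono ((hYW i).trans hWX))
        obtain ⟨O₁, O₂, hO₁, hO₂, hs₁, hs₂, hdis⟩ :=
          SeparatedNhds.of_isCompact_isCompact hcpt (hY j) (hd i j d hdZ hij)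
        have hO : IsOpen (X ∩ A d ⁻¹' O₁) := (D.cont d).isOpen_inter_preimage D.opn hO₁
        obtain ⟨a, ha, haO⟩ := (hY i).exists_cthickening_subset_open hO
          (fun x hx => ⟨hWX (hYW i hx), hs₁ ⟨x, hx, rfl⟩⟩)
        obtain ⟨b, hb, hbO⟩ := (hY j).exists_cthickening_subset_open hO₂ hs₂
        have h4 : ∀ᶠ r in 𝓝[>] (0 : ℝ), r < min a b :=
          nhdsWithin_le_nhds (Iio_mem_nhds (lt_min ha hb))
        filter_upwards [h4] with r hr _ _
        refine Set.disjoint_of_subset ?_ ?_ hdis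
        · rintro _ ⟨x, hx, rfl⟩
          exact (haO (cthickening_mono (hr.le.trans (min_le_left _ _)) _ hx)).2
        · exact (cthickening_mono (hr.le.trans (min_le_right _ _)) _).trans hbO
      · exact Eventually.of_forall fun r _ h => absurd h hij
    · exact Eventually.of_forall fun r h => absurd h hdZ
  have h4 := (eventually_all_finite hfin).2 h3
  have h5 := eventually_all.2 h2
  obtain ⟨r, hr1, hr2, hr3⟩ := ((h4.and h5).and self_mem_nhdsWithin).exists.imp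
    fun r h => (⟨h.1.1, h.1.2, h.2⟩ : _ ∧ _ ∧ _)
  have hsub : ∀ i, closure (thickening r (Y i)) ⊆ cthickening r (Y i) := fun i =>
    closure_thickening_subset_cthickening r (Y i)
  have hsub2 : ∀ i, cthickening r (Y i) ⊆ cthickening (δ i) (Y i) := fun i =>
    cthickening_mono (hr2 i).le _
  refine ⟨fun i => thickening r (Y i), fun i => ⟨isOpen_thickening,
    self_subset_thickening hr3 _, (hsub i).trans ((hsub2 i).trans (hδW i)),
    (hY i).cthickening.of_isClosed_subset isClosed_closure (hsub i)⟩, ?_⟩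
  intro i j d hdZ hij
  by_cases hdF : d ∈ {g | ∃ y ∈ K, A g y ∈ K}
  · exact Set.disjoint_of_subset (Set.image_mono (hsub i)) (hsub j) (hr1 d hdF i j hdZ hij)
  · rw [Set.disjoint_left]
    rintro _ ⟨x, hx, rfl⟩ hy
    exact hdF ⟨x, mem_iUnion.2 ⟨i, hsub2 i (hsub i hx)⟩, mem_iUnion.2 ⟨j, hsub2 j (hsub j hy)⟩⟩

end CV

end S_H12_CV_HB
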