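import Pool.Agent.H12.KS.K12
import Pool.Agent.H12.KS.K16
import Pool.Agent.H12.KS.K28
import Pool.Agent.H12.KS.K34

/-! Joined modules of the proof of MP_8a27c0_an (one section per module). -/

section S_H12_TN_JA

/-!
JA: `add_index` with an arbitrary finite index type.
-/

namespace TN
open Metric Set Filter Topology DS

theorem add_index' {ι : Type} [Fintype ι] (O : ι → Set ℂ) (k : ι → ℂ) (n : ι → ℤ)
    (hO : ∀ i, IsOpen (O i)) (hb : ∀ i, Bornology.IsBounded (O i)) (hk : ∀ i, k i ∈ O i)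
    (hd : ∀ i j, i ≠ j → Disjoint (closure (O i)) (closure (O j))) (f : ℂ → ℂ)
    (hf : ContinuousOn f (⋃ i, O i)ᶜ) (hf0 : ∀ z ∈ (⋃ i, O i)ᶜ, f z ≠ 0)
    (hlog : ∀ i, HasLog (fun z => f z / (z - k i) ^ (n i)) (frontier (O i)))
    (N : ℤ) {c : ℂ} (hc : c ≠ 0) (hinf : Tendsto (fun z => f z / z ^ N) (cocompact ℂ) (𝓝 c)) :
    N = ∑ i, n i := by
  classical
  let e := Fintype.equivFin ι
  have hU : (⋃ i, O (e.symm i)) = ⋃ i, O i := e.symm.surjective.iUnion_comp O
  have h := add_index (fun i => O (e.symm i)) (fun i => k (e.symm i)) (fun i => n (e.symm i))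
    (fun i => hO _) (fun i => hb _) (fun i => hk _)
    (fun i j hij => hd _ _ (fun h => hij (e.symm.injective h))) f (by rw [hU]; exact hf)
    (by rw [hU]; exact hf0) (fun i => hlog _) N hc hinf
  rw [h]
  exact Equiv.sum_comp e.symm n

end TN

end S_H12_TN_JA

section S_H12_TN_JD

/-!
JD (logarithms of differences in the punctured plane).  With `a = f ω`, `b = g ω`, `v = 2πi (a - b)/T`:
`ew a - ew b = ew b (exp v - 1)`, `v = (2πi/T)(a - b)`, `|im v| = 2π |re (a - b)|/T < π/2`, so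
`(ew a - ew b)/(a - b) = ew b * (2πi/T) * ((exp v - 1)/v)`, the last factor has positive real part (`expq` in CP): the logarithm is
`2πi b/T + log (2πi/T) + log ((exp v - 1)/v)`.
`hole_log`: `(ew (Fh ω) - ew ω)/(ew ω - ew k)^n = [(Fh ω - ω)/(ω - k)^n] * D₁ / D₂^n` with the two difference quotients `D₁`
(of `Fh ω`, `ω`) and `D₂` (of `ω`, `k`).
`centre_log` (the central hole): on the circle `‖w‖ = exp (-2πy₁/T)`, i.e. `im ω = y₁` (`ew_norm`): `f (ew ω) / (ew ω)^(1 + N w)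
= (exp v - 1) / (ew ω)^(N w)`, `v = 2πi (Fh ω - ω)/T`, `exp v - 1 = (2πi/T) (Fh ω - ω) ((exp v - 1)/v)`; with the logarithm `L` of
`Fh ω - ω` the exponent is `L ω - N w (2πi ω/T) + log (2πi/T) + log ((exp v - 1)/v)`, it is continuous and `T`-periodic:
`T = N l`, `L (ω + N l) = L ω + 2πi w N` (induction on `N`), `v` is `l`-periodic.  Apply `ew_log` with `S = sphere 0 (exp (-(2πy₁/T)))`.
`f_inf`: `‖f z + z‖ ≤ 1` (`ew_norm`, `im (Fh ω) ≥ 0`, `ew_surj`), so `f z / z → -1`.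
-/

namespace TN
open Metric Set Filter Topology DS

theorem JD_im {T : ℝ} (hT : 0 < T) {x : ℂ} (hx : |x.re| < T / 4) :
    |(2 * Real.pi * Complex.I * x / T : ℂ).im| < Real.pi / 2 := by
  have e : (2 * Real.pi * Complex.I * x / T : ℂ) = ((2 * Real.pi / T : ℝ) : ℂ) * (Complex.I * x) := by
    push_cast; ring
  rw [e, Complex.im_ofReal_mul]
  have e2 : (Complex.I * x).im = x.re := by simp
  rw [e2, abs_mul, abs_of_pos (by positivity)]
  calc 2 * Real.pi / T * |x.re| < 2 * Real.pi / T * (T / 4) := mul_lt_mul_of_pos_left hx (by positivity)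
    _ = Real.pi / 2 := by field_simp; ring

theorem JD_c {T : ℝ} (hT : 0 < T) : (2 * Real.pi * Complex.I / T : ℂ) ≠ 0 := by
  have h1 : (T : ℂ) ≠ 0 := by exact_mod_cast hT.ne'
  have h2 : (Real.pi : ℂ) ≠ 0 := by exact_mod_cast Real.pi_ne_zero
  exact div_ne_zero (mul_ne_zero (mul_ne_zero two_ne_zero h2) Complex.I_ne_zero) h1

/-- the factor `(exp v - 1) / v`, `v = 2πi x / T` -/
noncomputable def JD_q (T : ℝ) (x : ℂ) : ℂ :=
  (Complex.exp (2 * Real.pi * Complex.I * x / T) - 1) / (2 * Real.pi * Complex.I * x / T)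

theorem JD_v {T : ℝ} (hT : 0 < T) {x : ℂ} (hx : x ≠ 0) : (2 * Real.pi * Complex.I * x / T : ℂ) ≠ 0 := by
  have e : (2 * Real.pi * Complex.I * x / T : ℂ) = 2 * Real.pi * Complex.I / T * x := by ring
  rw [e]
  exact mul_ne_zero (JD_c hT) hx

theorem JD_q_re {T : ℝ} (hT : 0 < T) {x : ℂ} (hx : x ≠ 0) (hr : |x.re| < T / 4) : 0 < (JD_q T x).re :=
  expq (JD_v hT hx) (JD_im hT hr)

theorem JD_q_mul {T : ℝ} (hT : 0 < T) {x : ℂ} (hx : x ≠ 0) :
    Complex.exp (2 * Real.pi * Complex.I * x / T) - 1 = 2 * Real.pi * Complex.I / T * x * JD_q T x := by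
  have h1 := JD_v hT hx
  unfold JD_q
  have e : (2 * Real.pi * Complex.I / T : ℂ) * x = 2 * Real.pi * Complex.I * x / T := by ring
  rw [e, mul_div_cancel₀ _ h1]

theorem JD_q_log {T : ℝ} (hT : 0 < T) {x : ℂ} (hx : x ≠ 0) (hr : |x.re| < T / 4) :
    Complex.exp (Complex.log (JD_q T x)) = JD_q T x := by
  apply Complex.exp_log
  intro h0
  have := JD_q_re hT hx hr
  rw [h0] at this
  simp at this

theorem JD_q_cont {T : ℝ} (hT : 0 < T) {X : Set ℂ} {u : ℂ → ℂ} (hu : ContinuousOn u X)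
    (hne : ∀ ω ∈ X, u ω ≠ 0) (hre : ∀ ω ∈ X, |(u ω).re| < T / 4) :
    ContinuousOn (fun ω => Complex.log (JD_q T (u ω))) X := by
  have h1 : ContinuousOn (fun ω => (2 * Real.pi * Complex.I * u ω / T : ℂ)) X :=
    (continuousOn_const.mul hu).div_const _
  apply ContinuousOn.clog
  · unfold JD_q
    exact (h1.cexp.sub continuousOn_const).div h1 (fun ω hω => JD_v hT (hne ω hω))
  · intro ω hω
    exact Or.inl (JD_q_re hT (hne ω hω) (hre ω hω))

theorem JD_ew {T : ℝ} (x y : ℂ) : ew T x - ew T y =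
    ew T y * (Complex.exp (2 * Real.pi * Complex.I * (x - y) / T) - 1) := by
  have h1 : ew T x = ew T y * ew T (x - y) := by rw [← ew_add]; congr 1; ring
  rw [h1]
  have h2 : ew T (x - y) = Complex.exp (2 * Real.pi * Complex.I * (x - y) / T) := rfl
  rw [h2]; ring

theorem ew_diff_log {T : ℝ} (hT : 0 < T) {X : Set ℂ} {f g : ℂ → ℂ} (hf : ContinuousOn f X)
    (hg : ContinuousOn g X) (hne : ∀ ω ∈ X, f ω ≠ g ω)
    (hre : ∀ ω ∈ X, |(f ω - g ω).re| < T / 4) :
    HasLog (fun ω => (ew T (f ω) - ew T (g ω)) / (f ω - g ω)) X := by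
  have hne' : ∀ ω ∈ X, f ω - g ω ≠ 0 := fun ω hω => sub_ne_zero.2 (hne ω hω)
  refine ⟨fun ω => 2 * Real.pi * Complex.I * g ω / T + Complex.log (2 * Real.pi * Complex.I / T) +
    Complex.log (JD_q T (f ω - g ω)), ?_, ?_⟩
  · exact (((continuousOn_const.mul hg).div_const _).add continuousOn_const).add
      (JD_q_cont hT (hf.sub hg) hne' hre)
  · intro ω hω
    have h0 := hne' ω hω
    simp only
    rw [Complex.exp_add, Complex.exp_add, Complex.exp_log (JD_c hT), JD_q_log hT h0 (hre ω hω),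
      JD_ew, JD_q_mul hT h0]
    have h2 : Complex.exp (2 * Real.pi * Complex.I * g ω / T) = ew T (g ω) := rfl
    rw [h2]
    field_simp

theorem hole_log {T : ℝ} (hT : 0 < T) {X : Set ℂ} {Fh : ℂ → ℂ} (hF : Continuous Fh) {k : ℂ} {n : ℤ}
    (hne : ∀ ω ∈ X, Fh ω ≠ ω) (hk : ∀ ω ∈ X, ω ≠ k) (h1 : ∀ ω ∈ X, |(Fh ω - ω).re| < T / 4)
    (h2 : ∀ ω ∈ X, |(ω - k).re| < T / 4) (h : HasLog (fun ω => (Fh ω - ω) / (ω - k) ^ n) X) :
    HasLog (fun ω => (ew T (Fh ω) - ew T ω) / (ew T ω - ew T k) ^ n) X := by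
  obtain ⟨L0, hL0, e0⟩ := h
  obtain ⟨L1, hL1, e1⟩ := ew_diff_log hT (X := X) hF.continuousOn continuousOn_id hne h1
  obtain ⟨L2, hL2, e2⟩ := ew_diff_log hT (X := X) continuousOn_id (continuousOn_const (c := k)) hk h2
  refine ⟨fun ω => L0 ω + L1 ω - n * L2 ω, (hL0.add hL1).sub (continuousOn_const.mul hL2), ?_⟩
  intro ω hω
  have a0 := e0 ω hω
  have a1 := e1 ω hω
  have a2 := e2 ω hω
  simp only [id] at a0 a1 a2 ⊢
  have b1 : Fh ω - ω ≠ 0 := sub_ne_zero.2 (hne ω hω)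
  have b2 : ω - k ≠ 0 := sub_ne_zero.2 (hk ω hω)
  have b3 : ew T ω - ew T k ≠ 0 := by
    intro h0
    rw [h0, zero_div] at a2
    exact Complex.exp_ne_zero _ a2.symm
  rw [Complex.exp_sub, Complex.exp_add, Complex.exp_int_mul, ← a0, ← a1, ← a2, div_zpow]
  have c1 : (ω - k) ^ n ≠ 0 := zpow_ne_zero _ b2
  have c2 : (ew T ω - ew T k) ^ n ≠ 0 := zpow_ne_zero _ b3
  field_simp

theorem JD_per {l : ℝ} {L : ℂ → ℂ} {y₁ : ℝ} {w : ℤ}
    (hLp : ∀ ω : ℂ, ω.im = y₁ → L (ω + l) = L ω + 2 * Real.pi * w * Complex.I) (m : ℕ) :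
    ∀ ω : ℂ, ω.im = y₁ → L (ω + m * l) = L ω + m * (2 * Real.pi * w * Complex.I) := by
  induction m with
  | zero => intro ω _; simp
  | succ m ih =>
    intro ω hω
    have e : ω + ((m + 1 : ℕ) : ℂ) * l = (ω + m * l) + l := by push_cast; ring
    have him : (ω + m * l : ℂ).im = y₁ := by
      rw [Complex.add_im, hω]
      simp
    rw [e, hLp _ him, ih ω hω]
    push_cast; ring

theorem JD_perF {l : ℝ} {Fh : ℂ → ℂ} (hp : ∀ ω, Fh (ω + l) = Fh ω + l) (m : ℕ) :
    ∀ ω : ℂ, Fh (ω + m * l) = Fh ω + m * l := by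
  induction m with
  | zero => intro ω; simp
  | succ m ih =>
    intro ω
    have e : ω + ((m + 1 : ℕ) : ℂ) * l = (ω + m * l) + l := by push_cast; ring
    rw [e, hp, ih ω]
    push_cast; ring

theorem centre_log {l : ℝ} (hl : 0 < l) {N : ℕ} (hN : 0 < N) {Fh : ℂ → ℂ} (hF : Continuous Fh)
    (hp : ∀ ω, Fh (ω + l) = Fh ω + l) (h1 : ∀ ω, |(Fh ω - ω).re| < N * l / 4) {y₁ : ℝ} {w : ℤ}
    {L : ℂ → ℂ} (hL : ContinuousOn L {ω | ω.im = y₁})
    (hLe : ∀ ω : ℂ, ω.im = y₁ → Fh ω - ω = Complex.exp (L ω))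
    (hLp : ∀ ω : ℂ, ω.im = y₁ → L (ω + l) = L ω + 2 * Real.pi * w * Complex.I) {f : ℂ → ℂ}
    (hf : ∀ ω, f (ew (N * l) ω) = ew (N * l) (Fh ω) - ew (N * l) ω) :
    HasLog (fun z => f z / (z - 0) ^ (1 + N * w))
      (sphere 0 (Real.exp (-(2 * Real.pi * y₁ / (N * l))))) := by
  have hT : (0:ℝ) < N * l := by positivity
  have hTC : ((N : ℂ) * l) ≠ 0 := by exact_mod_cast hT.ne'
  have hmem : ∀ ω, ew (N * l) ω ∈ sphere (0:ℂ) (Real.exp (-(2 * Real.pi * y₁ / (N * l)))) → ω.im = y₁ := by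
    intro ω hω
    rw [mem_sphere_zero_iff_norm, ew_norm, Real.exp_eq_exp] at hω
    have h2 : 2 * Real.pi * ω.im / (N * l) = 2 * Real.pi * y₁ / (N * l) := neg_injective hω
    rw [div_left_inj' hT.ne'] at h2
    exact mul_left_cancel₀ (by positivity) h2
  have hX : ew (N * l) ⁻¹' sphere (0:ℂ) (Real.exp (-(2 * Real.pi * y₁ / (N * l)))) ⊆ {ω | ω.im = y₁} := hmem
  have hne : ∀ ω ∈ {ω : ℂ | ω.im = y₁}, Fh ω - ω ≠ 0 := by
    intro ω hω
    rw [hLe ω hω]
    exact Complex.exp_ne_zero _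
  refine ew_log hT (L := fun ω => L ω - ((N * w : ℤ) : ℂ) * (2 * Real.pi * Complex.I * ω / ((N * l : ℝ) : ℂ)) +
    Complex.log (2 * Real.pi * Complex.I / ((N * l : ℝ) : ℂ)) + Complex.log (JD_q (N * l) (Fh ω - ω)))
    ?_ ?_ ?_ ?_
  · intro z hz h0
    rw [h0, mem_sphere_zero_iff_norm, norm_zero] at hz
    exact (Real.exp_pos _).ne hz
  · apply ContinuousOn.mono _ hX
    refine ((hL.sub ?_).add continuousOn_const).add ?_
    · exact continuousOn_const.mul ((continuousOn_const.mul continuousOn_id).div_const _)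
    · exact JD_q_cont hT (hF.continuousOn.sub continuousOn_id) hne (fun ω _ => h1 ω)
  · intro ω hω
    have him := hmem ω hω
    have e1 := JD_per hLp N ω him
    have e2 := JD_perF hp N ω
    have e3 : ω + ((N * l : ℝ) : ℂ) = ω + N * l := by push_cast; ring
    rw [e3, e1, e2]
    have e4 : Fh ω + N * l - (ω + N * l) = Fh ω - ω := by ring
    rw [e4]
    have e5 : ((N * w : ℤ) : ℂ) * (2 * Real.pi * Complex.I * (ω + N * l) / ((N * l : ℝ) : ℂ)) =
      ((N * w : ℤ) : ℂ) * (2 * Real.pi * Complex.I * ω / ((N * l : ℝ) : ℂ)) +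
        N * (2 * Real.pi * w * Complex.I) := by
      have : ((N * l : ℝ) : ℂ) = N * l := by push_cast; ring
      have hN0 : (N : ℂ) ≠ 0 := left_ne_zero_of_mul hTC
      have hl0 : (l : ℂ) ≠ 0 := right_ne_zero_of_mul hTC
      rw [this]
      push_cast
      field_simp
    rw [e5]; ring
  · intro ω hω
    have him := hmem ω hω
    have h0 := hne ω him
    have hr : |(Fh ω - ω).re| < (N * l : ℝ) / 4 := h1 ω
    rw [hf ω, JD_ew, JD_q_mul hT h0]
    rw [Complex.exp_add, Complex.exp_add, Complex.exp_sub, ← hLe ω him, Complex.exp_log (JD_c hT),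
      JD_q_log hT h0 hr, Complex.exp_int_mul]
    have h2 : Complex.exp (2 * Real.pi * Complex.I * ω / ((N * l : ℝ) : ℂ)) = ew (N * l) ω := rfl
    rw [h2, sub_zero, zpow_add₀ (ew_ne _ _), zpow_one]
    have h3 := ew_ne (N * l) ω
    have h4 : (ew (N * l) ω) ^ (N * w : ℤ) ≠ 0 := zpow_ne_zero _ h3
    field_simp

theorem f_inf {T : ℝ} (hT : 0 < T) {Fh : ℂ → ℂ} (him : ∀ ω, 0 ≤ (Fh ω).im) {f : ℂ → ℂ}
    (hf : ∀ ω, f (ew T ω) = ew T (Fh ω) - ew T ω) :
    Tendsto (fun z => f z / z ^ (1:ℤ)) (cocompact ℂ) (𝓝 (-1)) := by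
  rw [tendsto_iff_norm_sub_tendsto_zero]
  have hlim : Tendsto (fun z : ℂ => ‖z‖⁻¹) (cocompact ℂ) (𝓝 0) :=
    tendsto_inv_atTop_zero.comp (tendsto_norm_cocompact_atTop (E := ℂ))
  refine squeeze_zero' (Eventually.of_forall fun z => norm_nonneg _) ?_ hlim
  filter_upwards [(tendsto_norm_cocompact_atTop (E := ℂ)).eventually (eventually_gt_atTop 0)] with z hz
  have hz0 : z ≠ 0 := norm_pos_iff.1 hz
  obtain ⟨ω, rfl⟩ := ew_surj hT hz0
  rw [hf, zpow_one]
  have e : (ew T (Fh ω) - ew T ω) / ew T ω - -1 = ew T (Fh ω) / ew T ω := by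
    field_simp; ring
  rw [e, norm_div, div_eq_mul_inv]
  have h1 : ‖ew T (Fh ω)‖ ≤ 1 := by
    rw [ew_norm, Real.exp_le_one_iff, neg_nonpos]
    have := him ω
    positivity
  calc ‖ew T (Fh ω)‖ * ‖ew T ω‖⁻¹ ≤ 1 * ‖ew T ω‖⁻¹ :=
        mul_le_mul_of_nonneg_right h1 (inv_nonneg.2 (norm_nonneg _))
    _ = _ := one_mul _

end TN

end S_H12_TN_JD

section S_H12_TN_JS

/-!
JS (the strip map).  `clm` = vertical clamp onto the strip, `sm p q H = om ∘ H ∘ omi ∘ clm`.
`norm_fix`: `AR.norm` for `κ` (`θ κ = κ`) and `AR.unique`.  `norm_Dpq`: `Norm.mapC`, `Norm.inj`, `norm_fix`.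
`sm_cont`: `omi_cont`, `om_cont`, `Norm.cont`, `clm` continuous (`clm_lip`).
`sm_add`: for `ω ∈ Str`, `x = omi ω`: `omi (ω + l) = act κ x` (`om_act_zpow` with `z = 1`, `omi_om`), `e.H (act κ x) = act κ (e.H x)` (`equi`, `hc`).
`sm_bdd`: `ω ↦ (sm ω - ω).re` depends only on `clm ω` (same real part), is `l`-periodic and continuous: bounded by its maximum on the
compact set `[0, l] × [0, π]`; every real number is `r + z l` with `0 ≤ r < l`.
`sm_fix`: if `sm ω = ω` then `ω ∈ Str` (`om_mem`), `clm ω = ω`, apply `omi`.  `sm_inv`: `sm_om` twice.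
-/

namespace TN
open Metric Set Filter Topology DS

/-- vertical clamp onto the strip -/
noncomputable def clm (ω : ℂ) : ℂ := ⟨ω.re, max 0 (min ω.im Real.pi)⟩

/-- the map in the strip coordinate, extended to the plane by the clamp -/
noncomputable def sm (p q : ℂ) (H : ℂ → ℂ) (ω : ℂ) : ℂ := om p q (H (omi p q (clm ω)))

theorem clm_mem (ω : ℂ) : clm ω ∈ Str :=
  ⟨le_max_left _ _, max_le Real.pi_pos.le (min_le_right _ _)⟩

theorem clm_id {ω : ℂ} (h : ω ∈ Str) : clm ω = ω := by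
  apply Complex.ext
  · rfl
  · show max 0 (min ω.im Real.pi) = ω.im
    rw [min_eq_left h.2, max_eq_right h.1]

theorem JS_real (a b : ℝ) :
    (max 0 (min a Real.pi) - max 0 (min b Real.pi)) ^ 2 ≤ (a - b) ^ 2 := by
  have key : ∀ a b : ℝ, a ≤ b → 0 ≤ max 0 (min b Real.pi) - max 0 (min a Real.pi) ∧
      max 0 (min b Real.pi) - max 0 (min a Real.pi) ≤ b - a := by
    intro a b hab
    have hp := Real.pi_pos
    rcases le_total a Real.pi with h1 | h1 <;> rcases le_total b Real.pi with h2 | h2 <;>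
      rcases le_total a 0 with h3 | h3 <;> rcases le_total b 0 with h4 | h4
    all_goals
      simp only [h1, h2, h3, h4, min_eq_left, min_eq_right, max_eq_left, max_eq_right, hp.le]
      constructor <;> linarith
  rcases le_total a b with h | h
  · obtain ⟨h1, h2⟩ := key a b h
    nlinarith
  · obtain ⟨h1, h2⟩ := key b a h
    nlinarith

theorem clm_lip (ω ω' : ℂ) : dist (clm ω) (clm ω') ≤ dist ω ω' := by
  rw [Complex.dist_eq_re_im, Complex.dist_eq_re_im]
  apply Real.sqrt_le_sqrt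
  have h1 := JS_real ω.im ω'.im
  have h2 : (clm ω).re = ω.re := rfl
  have h3 : (clm ω').re = ω'.re := rfl
  have h4 : (clm ω).im = max 0 (min ω.im Real.pi) := rfl
  have h5 : (clm ω').im = max 0 (min ω'.im Real.pi) := rfl
  rw [h2, h3, h4, h5]
  linarith

theorem JS_clm_cont : Continuous clm := by
  have h : LipschitzWith 1 clm := by
    refine LipschitzWith.of_dist_le_mul fun a b => ?_
    rw [NNReal.coe_one, one_mul]
    exact clm_lip a b
  exact h.continuous

theorem clm_add (ω : ℂ) (r : ℝ) : clm (ω + r) = clm ω + r := by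
  apply Complex.ext
  · show (ω + r).re = (clm ω + r).re
    rw [Complex.add_re, Complex.add_re]
    rfl
  · show max 0 (min (ω + r).im Real.pi) = (clm ω + r).im
    rw [Complex.add_im, Complex.add_im, Complex.ofReal_im, add_zero, add_zero]
    rfl

theorem sm_clm (p q : ℂ) (H : ℂ → ℂ) (ω : ℂ) : sm p q H (clm ω) = sm p q H ω := by
  unfold sm
  rw [clm_id (clm_mem ω)]

variable {Γ : Type} [Group Γ] {F : Fuchs Γ} {p q : ℂ} {e : Elt Γ} {κ : Γ}

theorem norm_fix (he : Norm F e) (hκ : F.AR κ p q) (hc : e.θ κ = κ) : e.H p = p ∧ e.H q = q := by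
  have h1 := AR.norm hκ he
  rw [hc] at h1
  obtain ⟨h2, h3⟩ := AR.unique hκ h1
  exact ⟨h2.symm, h3.symm⟩

theorem norm_fixi (he : Norm F e) (hκ : F.AR κ p q) (hc : e.θ κ = κ) :
    e.Hi p = p ∧ e.Hi q = q := by
  obtain ⟨h1, h2⟩ := norm_fix he hκ hc
  have hp : p ∈ closedBall (0:ℂ) 1 := by simpa using hκ.np.le
  have hq : q ∈ closedBall (0:ℂ) 1 := by simpa using hκ.nq.le
  have h3 := he.left p hp
  have h4 := he.left q hq
  rw [h1] at h3
  rw [h2] at h4
  exact ⟨h3, h4⟩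

theorem norm_Dpq (he : Norm F e) (hκ : F.AR κ p q) (hc : e.θ κ = κ) {x : ℂ} (hx : x ∈ Dpq p q) :
    e.H x ∈ Dpq p q ∧ e.Hi x ∈ Dpq p q := by
  obtain ⟨h1, h2⟩ := norm_fix he hκ hc
  obtain ⟨h3, h4⟩ := norm_fixi he hκ hc
  obtain ⟨hx1, hx2, hx3⟩ := hx
  have hxc : x ∈ closedBall (0:ℂ) 1 := by simpa using hx1
  refine ⟨⟨?_, ?_, ?_⟩, ⟨?_, ?_, ?_⟩⟩
  · exact mem_closedBall_zero_iff.1 (he.mapC hxc)
  · intro h
    apply hx2
    have h5 := he.left x hxc
    rw [h, h3] at h5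
    exact h5.symm
  · intro h
    apply hx3
    have h5 := he.left x hxc
    rw [h, h4] at h5
    exact h5.symm
  · exact mem_closedBall_zero_iff.1 (he.mapCi hxc)
  · intro h
    apply hx2
    have h5 := he.right x hxc
    rw [h, h1] at h5
    exact h5.symm
  · intro h
    apply hx3
    have h5 := he.right x hxc
    rw [h, h2] at h5
    exact h5.symm

theorem JS_mem (he : Norm F e) (hκ : F.AR κ p q) (hc : e.θ κ = κ) (ω : ℂ) :
    e.H (omi p q (clm ω)) ∈ Dpq p q :=
  (norm_Dpq he hκ hc (omi_mem hκ.np hκ.nq hκ.ne (clm_mem ω))).1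

theorem sm_cont (he : Norm F e) (hκ : F.AR κ p q) (hc : e.θ κ = κ) : Continuous (sm p q e.H) := by
  have h2 : Continuous fun ω => omi p q (clm ω) :=
    (omi_cont hκ.np hκ.nq hκ.ne).comp_continuous JS_clm_cont clm_mem
  have h3 : Continuous fun ω => e.H (omi p q (clm ω)) :=
    he.cont.comp_continuous h2 fun ω =>
      mem_closedBall_zero_iff.2 (omi_mem hκ.np hκ.nq hκ.ne (clm_mem ω)).1
  exact (om_cont hκ.np hκ.nq hκ.ne).comp_continuous h3 (JS_mem he hκ hc)

theorem sm_mem (he : Norm F e) (hκ : F.AR κ p q) (hc : e.θ κ = κ) (ω : ℂ) :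
    sm p q e.H ω ∈ Str :=
  om_mem hκ.np hκ.nq hκ.ne (JS_mem he hκ hc ω)

theorem sm_om (he : Norm F e) (hκ : F.AR κ p q) (hc : e.θ κ = κ) {x : ℂ} (hx : x ∈ Dpq p q) :
    sm p q e.H (om p q x) = om p q (e.H x) := by
  have _ := he
  have _ := hc
  unfold sm
  rw [clm_id (om_mem hκ.np hκ.nq hκ.ne hx), omi_om hκ.np hκ.nq hκ.ne hx]

theorem sm_add (he : Norm F e) (hκ : F.AR κ p q) (hc : e.θ κ = κ) {l : ℝ}
    (hl : ∀ x ∈ ball (0:ℂ) 1, om p q (F.act κ x) = om p q x + l) (ω : ℂ) :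
    sm p q e.H (ω + l) = sm p q e.H ω + l := by
  have hx := omi_mem hκ.np hκ.nq hκ.ne (clm_mem ω)
  obtain ⟨x, hxdef⟩ : ∃ x, x = omi p q (clm ω) := ⟨_, rfl⟩
  rw [← hxdef] at hx
  have hz : ∀ y ∈ Dpq p q, F.act κ y ∈ Dpq p q ∧ om p q (F.act κ y) = om p q y + l := by
    intro y hy
    have h1 := (om_act_zpow hκ hl).2 1 y hy
    rw [zpow_one, Int.cast_one, one_mul] at h1
    exact h1
  have h1 : om p q x = clm ω := by rw [hxdef, om_omi hκ.np hκ.nq hκ.ne (clm_mem ω)]
  have h2 : omi p q (clm (ω + l)) = F.act κ x := by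
    rw [clm_add, ← h1, ← (hz x hx).2, omi_om hκ.np hκ.nq hκ.ne (hz x hx).1]
  have h3 : e.H (F.act κ x) = F.act κ (e.H x) := by
    rw [he.equi κ x (mem_closedBall_zero_iff.2 hx.1), hc]
  unfold sm
  rw [h2, h3, ← hxdef, (hz _ (norm_Dpq he hκ hc hx).1).2]

theorem sm_bdd (he : Norm F e) (hκ : F.AR κ p q) (hc : e.θ κ = κ) {l : ℝ}
    (hl : ∀ x ∈ ball (0:ℂ) 1, om p q (F.act κ x) = om p q x + l) :
    ∃ M : ℝ, ∀ ω, |(sm p q e.H ω - ω).re| ≤ M := by
  have hl0 := (om_act_zpow hκ hl).1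
  have hcont : Continuous fun ω => (sm p q e.H ω - ω).re :=
    Complex.continuous_re.comp ((sm_cont he hκ hc).sub continuous_id)
  have hK : IsCompact (Icc (0:ℝ) l ×ℂ Icc (0:ℝ) Real.pi) := isCompact_Icc.reProdIm isCompact_Icc
  obtain ⟨M, hM⟩ := hK.exists_bound_of_continuousOn hcont.continuousOn
  refine ⟨M, fun ω => ?_⟩
  have hper : Function.Periodic (fun ω => (sm p q e.H ω - ω).re) (l : ℂ) := by
    intro ω
    simp only
    rw [sm_add he hκ hc hl]
    congr 1
    ring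
  have h1 : (sm p q e.H ω - ω).re = (sm p q e.H (clm ω) - clm ω).re := by
    rw [sm_clm, Complex.sub_re, Complex.sub_re]
    rfl
  have h2 := hper.sub_zsmul_eq (x := clm ω) ⌊ω.re / l⌋
  rw [h1, ← h2]
  refine hM _ ?_
  rw [Complex.mem_reProdIm]
  have h3 : (clm ω - ⌊ω.re / l⌋ • (l : ℂ)).re = ω.re - ⌊ω.re / l⌋ * l := by
    rw [Complex.sub_re, zsmul_eq_mul]
    have h4 : ((⌊ω.re / l⌋ : ℤ) : ℂ) = (((⌊ω.re / l⌋ : ℤ) : ℝ) : ℂ) := by push_cast; rfl
    rw [h4, ← Complex.ofReal_mul, Complex.ofReal_re]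
    rfl
  have h5 : (clm ω - ⌊ω.re / l⌋ • (l : ℂ)).im = (clm ω).im := by
    rw [Complex.sub_im, zsmul_eq_mul]
    have h4 : ((⌊ω.re / l⌋ : ℤ) : ℂ) = (((⌊ω.re / l⌋ : ℤ) : ℝ) : ℂ) := by push_cast; rfl
    rw [h4, ← Complex.ofReal_mul, Complex.ofReal_im, sub_zero]
  rw [h3, h5]
  exact ⟨⟨Int.sub_floor_div_mul_nonneg _ hl0, (Int.sub_floor_div_mul_lt _ hl0).le⟩, clm_mem ω⟩

theorem sm_fix (he : Norm F e) (hκ : F.AR κ p q) (hc : e.θ κ = κ) {ω : ℂ} :
    sm p q e.H ω = ω ↔ ω ∈ Str ∧ e.H (omi p q ω) = omi p q ω := by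
  constructor
  · intro h
    have hS : ω ∈ Str := by
      have := sm_mem he hκ hc ω
      rwa [h] at this
    refine ⟨hS, ?_⟩
    have h1 := JS_mem he hκ hc ω
    unfold sm at h
    rw [clm_id hS] at h h1
    have h2 := omi_om hκ.np hκ.nq hκ.ne h1
    rw [h] at h2
    exact h2.symm
  · rintro ⟨hS, h⟩
    unfold sm
    rw [clm_id hS, h, om_omi hκ.np hκ.nq hκ.ne hS]

theorem sm_inv (he : Norm F e) (hκ : F.AR κ p q) (hc : e.θ κ = κ) {ω : ℂ} (hω : ω ∈ Str) :
    sm p q e.Hi (sm p q e.H ω) = ω := by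
  have hx := omi_mem hκ.np hκ.nq hκ.ne hω
  have h1 := JS_mem he hκ hc ω
  have h2 : sm p q e.H ω = om p q (e.H (omi p q ω)) := by
    unfold sm
    rw [clm_id hω]
  rw [clm_id hω] at h1
  rw [h2]
  unfold sm
  rw [clm_id (om_mem hκ.np hκ.nq hκ.ne h1), omi_om hκ.np hκ.nq hκ.ne h1,
    he.left _ (mem_closedBall_zero_iff.2 hx.1), om_omi hκ.np hκ.nq hκ.ne hω]

end TN

end S_H12_TN_JS

section S_H12_TN_JI

/-!
JI (interior holes in the strip coordinate).  `closure O` is a compact subset of the open disc.  `om p q` is a homeomorphism of the open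
disc onto the open strip with inverse `omi p q` (CO): `om '' O = {ω | 0 < im ω < π} ∩ omi ⁻¹' O` is open (`omi_cont` on the open strip),
`om '' closure O` is compact, so it is closed and equals the closure of `om '' O`; the frontier of `om '' O` is
`om '' closure O \ om '' O = om '' frontier O` (injectivity).  Log: on `frontier O` the function
`x ↦ (om (e.H x) - om x)/(om x - om k) = [(om (e.H x) - om x)/(e.H x - x)] [(e.H x - x)/(x - k)] / [(om x - om k)/(x - k)]` has a log by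
`om_quot` (twice; `e.H x ≠ x` because the given quotient is an exponential and `x ≠ k`, as `k ∈ O` is not in the frontier of the open set) and the
hypothesis; compose with `omi` (`IC_log_comp`), and use `sm_om`.
`int_closed`: the union of all translates of a compact set is closed (locally finite), and invariant.
-/

namespace TN
open Metric Set Filter Topology DS

variable {Γ : Type} [Group Γ] {F : Fuchs Γ} {p q : ℂ} {e : Elt Γ} {κ : Γ}

theorem int_hole (he : Norm F e) (hκ : F.AR κ p q) (hc : e.θ κ = κ) {O : Set ℂ} {k : ℂ}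
    (hO : IsOpen O) (hk : k ∈ O) (hs : closure O ⊆ ball 0 1)
    (hlog : HasLog (fun x => (e.H x - x) / (x - k)) (frontier O)) :
    IsOpen (om p q '' O) ∧ closure (om p q '' O) = om p q '' closure O ∧
      IsCompact (om p q '' closure O) ∧
      (∀ ω ∈ om p q '' closure O, 0 < ω.im ∧ ω.im < Real.pi) ∧
      HasLog (fun ω => (sm p q e.H ω - ω) / (ω - om p q k) ^ (1:ℤ)) (frontier (om p q '' O)) := by
  have hp := hκ.np
  have hq := hκ.nq
  have hpq := hκ.ne
  have hB : ∀ x ∈ ball (0:ℂ) 1, ‖x‖ < 1 := fun x hx => mem_ball_zero_iff.1 hx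
  have hBD : ∀ x ∈ ball (0:ℂ) 1, x ∈ Dpq p q := fun x hx => CP_ball_Dpq hp hq hx
  have hOs : O ⊆ ball 0 1 := subset_closure.trans hs
  have homc : ContinuousOn (om p q) (ball 0 1) := (om_cont hp hq hpq).mono hBD
  set U : Set ℂ := {ω | 0 < ω.im ∧ ω.im < Real.pi} with hU
  have hUo : IsOpen U := (isOpen_lt continuous_const Complex.continuous_im).inter
    (isOpen_lt Complex.continuous_im continuous_const)
  have hUS : U ⊆ Str := fun ω hω => ⟨hω.1.le, hω.2.le⟩
  have himg : om p q '' O = U ∩ omi p q ⁻¹' O := by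
    ext ω
    constructor
    · rintro ⟨x, hx, rfl⟩
      refine ⟨om_im_pos hp hq hpq (hB x (hOs hx)), ?_⟩
      change omi p q (om p q x) ∈ O
      rwa [omi_om hp hq hpq (hBD x (hOs hx))]
    · rintro ⟨h1, h2⟩
      exact ⟨omi p q ω, h2, om_omi hp hq hpq (hUS h1)⟩
  have hopen : IsOpen (om p q '' O) := by
    rw [himg]
    exact ((omi_cont hp hq hpq).mono hUS).isOpen_inter_preimage hUo hO
  have hcO : IsCompact (closure O) :=
    Metric.isCompact_of_isClosed_isBounded isClosed_closure (isBounded_ball.subset hs)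
  have hcomp : IsCompact (om p q '' closure O) := hcO.image_of_continuousOn (homc.mono hs)
  have hclo : closure (om p q '' O) = om p q '' closure O := by
    apply Subset.antisymm
    · exact closure_minimal (image_mono subset_closure) hcomp.isClosed
    · exact (homc.mono hs).image_closure
  have hS : frontier O ⊆ ball 0 1 := frontier_subset_closure.trans hs
  have hkS : ∀ x ∈ frontier O, x ≠ k := by
    intro x hx h
    rw [hO.frontier_eq] at hx
    rw [h] at hx
    exact hx.2 hk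
  obtain ⟨L0, -, hL0⟩ := id hlog
  have hne : ∀ x ∈ frontier O, e.H x ≠ x := by
    intro x hx h
    have h1 := hL0 x hx
    simp only [h, sub_self, zero_div] at h1
    exact Complex.exp_ne_zero _ h1.symm
  have hq1 : HasLog (fun x => (om p q (e.H x) - om p q x) / (e.H x - x)) (frontier O) :=
    om_quot hp hq hpq (f := e.H) (g := fun x => x)
      (he.cont.mono (hS.trans ball_subset_closedBall)) continuousOn_id
      (fun x hx => he.mapB (hS hx)) (fun x hx => hS hx) hne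
  have hq2 : HasLog (fun x => (om p q x - om p q k) / (x - k)) (frontier O) :=
    om_quot hp hq hpq (f := fun x => x) (g := fun _ => k) continuousOn_id continuousOn_const
      (fun x hx => hS hx) (fun x hx => hOs hk) hkS
  have hF : HasLog (fun x => (om p q (e.H x) - om p q x) / (om p q x - om p q k))
      (frontier O) := by
    refine IC_log_congr (IC_log_div (IC_log_mul hq1 hlog) hq2) fun x hx => ?_
    have h1 : e.H x - x ≠ 0 := sub_ne_zero.2 (hne x hx)
    have h2 : x - k ≠ 0 := sub_ne_zero.2 (hkS x hx)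
    rw [div_mul_div_comm, mul_comm (e.H x - x) (x - k), mul_div_mul_right _ _ h1,
      div_div_div_cancel_right₀ h2]
  refine ⟨hopen, hclo, hcomp, ?_, ?_⟩
  · rintro ω ⟨x, hx, rfl⟩
    exact om_im_pos hp hq hpq (hB x (hs hx))
  · have hfr : ∀ ω ∈ frontier (om p q '' O), ∃ x ∈ frontier O, ω = om p q x := by
      intro ω hω
      rw [hopen.frontier_eq, hclo] at hω
      obtain ⟨⟨x, hx, rfl⟩, h2⟩ := hω
      refine ⟨x, ?_, rfl⟩
      rw [hO.frontier_eq]
      exact ⟨hx, fun h => h2 ⟨x, h, rfl⟩⟩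
    have hmaps : MapsTo (omi p q) (frontier (om p q '' O)) (frontier O) := by
      intro ω hω
      obtain ⟨x, hx, rfl⟩ := hfr ω hω
      rwa [omi_om hp hq hpq (hBD x (hS hx))]
    have hsub : frontier (om p q '' O) ⊆ Str := by
      intro ω hω
      obtain ⟨x, hx, rfl⟩ := hfr ω hω
      exact om_mem hp hq hpq (hBD x (hS hx))
    refine IC_log_congr (IC_log_comp hF ((omi_cont hp hq hpq).mono hsub) hmaps) fun ω hω => ?_
    obtain ⟨x, hx, rfl⟩ := hfr ω hω
    rw [omi_om hp hq hpq (hBD x (hS hx)), sm_om he hκ hc (hBD x (hS hx)), zpow_one]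

theorem int_closed {l : ℝ} (hl : 0 < l) {C : Set ℂ} (hC : IsCompact C) :
    IsClosed {ω : ℂ | ∃ z : ℤ, ω + z * l ∈ C} := by
  have h1 : {ω : ℂ | ∃ z : ℤ, ω + z * l ∈ C} = ⋃ z : ℤ, (fun ω : ℂ => ω + z * l) ⁻¹' C := by
    ext ω
    simp only [mem_iUnion]
    rfl
  rw [h1]
  refine LocallyFinite.isClosed_iUnion ?_ fun z =>
    hC.isClosed.preimage (continuous_id.add continuous_const)
  obtain ⟨M, hM⟩ := hC.isBounded.exists_norm_le
  intro ω₀
  refine ⟨ball ω₀ 1, ball_mem_nhds _ one_pos, ?_⟩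
  set K : ℝ := (M + (‖ω₀‖ + 1)) / l with hK
  refine (Set.finite_Icc (-⌈K⌉) ⌈K⌉).subset ?_
  rintro z ⟨ω, h2, h3⟩
  have h4 : ‖ω + z * l‖ ≤ M := hM _ h2
  have h5 : ‖ω‖ ≤ ‖ω₀‖ + 1 := by
    have h6 : ‖ω - ω₀‖ < 1 := mem_ball_iff_norm.1 h3
    have h7 := norm_le_norm_add_norm_sub' ω ω₀
    linarith
  have h6 : ‖((z : ℂ) * (l : ℂ))‖ ≤ M + (‖ω₀‖ + 1) := by
    have h7 : ((z : ℂ) * (l : ℂ)) = (ω + z * l) - ω := by ring
    rw [h7]
    exact (norm_sub_le _ _).trans (add_le_add h4 h5)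
  rw [norm_mul, Complex.norm_real, Complex.norm_intCast, Real.norm_eq_abs, abs_of_pos hl] at h6
  have h7 : |(z : ℝ)| ≤ K := by
    rw [hK, le_div_iff₀ hl]
    exact h6
  have h8 : |(z : ℝ)| ≤ (⌈K⌉ : ℝ) := h7.trans (Int.le_ceil K)
  have h9 : |z| ≤ ⌈K⌉ := by exact_mod_cast h8
  exact ⟨(abs_le.1 h9).1, (abs_le.1 h9).2⟩

end TN

end S_H12_TN_JI

section S_H12_TN_JL

/-!
JL (local indices at boundary fixed points, in the coordinate of the disc).  `f z = e.H (rr z) - z`, `rr` = radial retraction (MB).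
`rrA`: `SA` with `ε = 1/2`: for `dist z ξ < δ`, `rr z` is in the closed disc and `dist (rr z) ξ ≤ dist z ξ` (`rr_lip`, `rr ξ = ξ`), so
`‖e.H (rr z) - ξ‖ ≤ ‖z - ξ‖/2` and `f z/(z - ξ) = -1 + (e.H (rr z) - ξ)/(z - ξ)` has negative real part: log by `IC_log_slit`, `IC_log_neg`.
`rrR`: `SA e.Hi ξ` with `ε = 1/10`: for `x` in the closed disc near `ξ`, `e.H x` is near `ξ` and `e.Hi (e.H x) = x`, so `dist (e.H x) ξ ≥ 10 dist x ξ`.
Claim: for `z` on the sphere of radius `s` about `ξ` (`s` small, `s < 1/10`), `f z ≠ 0` and `f z` is not `t ξ` with `t > 0`.  Let `f z = t ξ`,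
`t ≥ 0`.  If `‖z‖ ≤ 1`: `rr z = z`, `‖e.H z - ξ‖ ≥ 10 s`, so `t = ‖e.H z - z‖ ≥ 9 s`; `e.H z = z + t ξ` has real part of `e.H z * conj ξ` equal to
`re (z conj ξ) + t ≥ 1 - s + 9 s > 1`, contradiction to `‖e.H z‖ ≤ 1`.  If `‖z‖ > 1`: `e.H (rr z) = z + t ξ`,
`‖z + t ξ‖² = ‖z‖² + 2 t re (z conj ξ) + t² ≥ ‖z‖² > 1`, contradiction.  So `- f z / ξ` is in the slit plane.
(`n = 0`: `(z - ξ)^0 = 1`.)
-/

namespace TN
open Metric Set Filter Topology DS

variable {Γ : Type} [Group Γ] {F : Fuchs Γ} {e : Elt Γ}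

theorem JL_rr_dist {ξ : ℂ} (hξ : ‖ξ‖ = 1) (z : ℂ) : dist (rr z) ξ ≤ dist z ξ := by
  have h := rr_lip z ξ
  rwa [rr_id hξ.le] at h

theorem JL_cont (he : Norm F e) : Continuous fun z => e.H (rr z) :=
  continuousOn_univ.1 (he.cont.comp rr_cont.continuousOn fun z _ => rr_mem z)

theorem rrA (he : Norm F e) {ξ : ℂ} (hξ : ‖ξ‖ = 1) (hs : SA e.H ξ) :
    ∃ δ > 0, ∀ s : ℝ, 0 < s → s < δ →
      HasLog (fun z => (e.H (rr z) - z) / (z - ξ) ^ (1:ℤ)) (sphere ξ s) := by
  obtain ⟨δ, hδ, hb⟩ := hs.2 (1 / 2) (by norm_num)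
  refine ⟨δ, hδ, ?_⟩
  intro s hs0 hs1
  have hne : ∀ z ∈ sphere ξ s, z - ξ ≠ 0 := by
    intro z hz h
    rw [mem_sphere, dist_eq_norm, h, norm_zero] at hz
    exact hs0.ne hz
  apply IC_log_neg
  apply IC_log_slit
  · apply ContinuousOn.neg
    apply ContinuousOn.div
    · exact ((JL_cont he).sub continuous_id).continuousOn
    · simp only [zpow_one]
      exact (continuous_id.sub continuous_const).continuousOn
    · intro z hz
      rw [zpow_one]
      exact hne z hz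
  · intro z hz
    have hz' : ‖z - ξ‖ = s := by rw [← dist_eq_norm]; exact hz
    have h1 : dist (rr z) ξ < δ := lt_of_le_of_lt (JL_rr_dist hξ z) (by rw [mem_sphere.1 hz]; exact hs1)
    have h2 : dist (e.H (rr z)) ξ ≤ 1 / 2 * s := by
      have h3 := hb (rr z) (rr_mem z) h1
      have h4 := JL_rr_dist hξ z
      rw [mem_sphere.1 hz] at h4
      linarith
    rw [zpow_one]
    have h5 : -((e.H (rr z) - z) / (z - ξ)) = 1 - (e.H (rr z) - ξ) / (z - ξ) := by
      have := hne z hz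
      field_simp
      ring
    rw [h5]
    have h6 : ‖(e.H (rr z) - ξ) / (z - ξ)‖ ≤ 1 / 2 := by
      rw [norm_div, hz', div_le_iff₀ hs0, ← dist_eq_norm]
      exact h2
    left
    have h7 := (Complex.abs_re_le_norm ((e.H (rr z) - ξ) / (z - ξ))).trans h6
    have h8 := (abs_le.1 h7).2
    rw [Complex.sub_re, Complex.one_re]
    linarith

theorem JL_log_const {c : ℂ} (hc : c ≠ 0) (S : Set ℂ) : HasLog (fun _ => c) S :=
  ⟨fun _ => Complex.log c, continuousOn_const, fun _ _ => by rw [Complex.exp_log hc]⟩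

/-- real part of `z * conj ξ` -/
theorem JL_re {ξ z : ℂ} (hξ : ‖ξ‖ = 1) {s : ℝ} (hz : ‖z - ξ‖ = s) :
    1 - s ≤ z.re * ξ.re + z.im * ξ.im := by
  have h1 : ξ.re ^ 2 + ξ.im ^ 2 = 1 := by
    have := Complex.sq_norm ξ
    rw [hξ, Complex.normSq_apply] at this
    nlinarith
  have h2 : |((z - ξ) * (starRingEnd ℂ) ξ).re| ≤ s := by
    have := Complex.abs_re_le_norm ((z - ξ) * (starRingEnd ℂ) ξ)
    rw [norm_mul, hz, RCLike.norm_conj, hξ, mul_one] at this
    exact this
  have h3 : ((z - ξ) * (starRingEnd ℂ) ξ).re = z.re * ξ.re + z.im * ξ.im - (ξ.re ^ 2 + ξ.im ^ 2) := by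
    simp [Complex.mul_re]
    ring
  rw [h3, h1] at h2
  have := (abs_le.1 h2).1
  linarith

theorem rrR (he : Norm F e) {ξ : ℂ} (hξ : ‖ξ‖ = 1) (hs : SA e.Hi ξ) :
    ∃ δ > 0, ∀ s : ℝ, 0 < s → s < δ →
      HasLog (fun z => (e.H (rr z) - z) / (z - ξ) ^ (0:ℤ)) (sphere ξ s) := by
  have hξ0 : ξ ≠ 0 := by
    intro h
    rw [h, norm_zero] at hξ
    exact zero_ne_one hξ
  have hξc : ξ ∈ closedBall (0:ℂ) 1 := by simp [hξ]
  have hHξ : e.H ξ = ξ := by
    have := he.right ξ hξc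
    rwa [hs.1] at this
  obtain ⟨δ₀, hδ₀, hb⟩ := hs.2 (1 / 10) (by norm_num)
  obtain ⟨δ₁, hδ₁, hc⟩ := Metric.continuousWithinAt_iff.1 (he.cont ξ hξc) δ₀ hδ₀
  rw [hHξ] at hc
  have hexp : ∀ x ∈ closedBall (0:ℂ) 1, dist x ξ < δ₁ → 10 * dist x ξ ≤ dist (e.H x) ξ := by
    intro x hx hd
    have h1 := hb (e.H x) (he.mapC hx) (hc hx hd)
    rw [he.left x hx] at h1
    linarith
  refine ⟨min δ₁ (1 / 10), lt_min hδ₁ (by norm_num), ?_⟩
  intro s hs0 hs1
  have hsδ : s < δ₁ := lt_of_lt_of_le hs1 (min_le_left _ _)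
  have hs10 : s < 1 / 10 := lt_of_lt_of_le hs1 (min_le_right _ _)
  have key : ∀ z ∈ sphere ξ s, -(e.H (rr z) - z) / ξ ∈ Complex.slitPlane := by
    intro z hz
    have hz' : ‖z - ξ‖ = s := by rw [← dist_eq_norm]; exact hz
    have hre := JL_re hξ hz'
    by_contra hw
    rw [Complex.mem_slitPlane_iff_not_le_zero, not_not] at hw
    set w := -(e.H (rr z) - z) / ξ with hwdef
    obtain ⟨hw1, hw2⟩ := Complex.le_def.1 hw
    simp only [Complex.zero_re, Complex.zero_im] at hw1 hw2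
    have hwr : w = ((w.re : ℝ) : ℂ) := by
      apply Complex.ext
      · simp
      · simpa using hw2
    set t : ℝ := -w.re with ht
    have ht0 : 0 ≤ t := by rw [ht]; linarith
    have heq : e.H (rr z) = z + (t : ℂ) * ξ := by
      have h1 : w * ξ = -(e.H (rr z) - z) := by
        rw [hwdef]; field_simp
      rw [hwr] at h1
      have h2 : (t : ℂ) = -((w.re : ℝ) : ℂ) := by rw [ht]; push_cast; ring
      rw [h2]
      linear_combination h1
    have hle : ‖e.H (rr z)‖ ≤ 1 := by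
      have := he.mapC (rr_mem z)
      simpa using this
    have hnsq : ‖e.H (rr z)‖ ^ 2 = ‖z‖ ^ 2 + 2 * t * (z.re * ξ.re + z.im * ξ.im) + t ^ 2 := by
      have h1 : ξ.re ^ 2 + ξ.im ^ 2 = 1 := by
        have := Complex.sq_norm ξ
        rw [hξ, Complex.normSq_apply] at this
        nlinarith
      rw [heq, Complex.sq_norm, Complex.sq_norm, Complex.normSq_apply, Complex.normSq_apply]
      simp only [Complex.add_re, Complex.add_im, Complex.mul_re, Complex.mul_im, Complex.ofReal_re,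
        Complex.ofReal_im, zero_mul, sub_zero, add_zero]
      linear_combination t ^ 2 * h1
    have hnsq1 : ‖e.H (rr z)‖ ^ 2 ≤ 1 := by
      have := pow_le_pow_left₀ (norm_nonneg _) hle 2
      simpa using this
    have hre0 : 0 < z.re * ξ.re + z.im * ξ.im := by linarith
    rcases le_or_gt ‖z‖ 1 with hz1 | hz1
    · rw [rr_id hz1] at heq hnsq hnsq1
      have h1 := hexp z (by simpa using hz1) (by rw [mem_sphere.1 hz]; exact hsδ)
      rw [mem_sphere.1 hz, dist_eq_norm] at h1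
      have h2 : ‖e.H z - ξ‖ ≤ ‖e.H z - z‖ + ‖z - ξ‖ := by
        have : e.H z - ξ = (e.H z - z) + (z - ξ) := by ring
        rw [this]
        exact norm_add_le _ _
      have h3 : ‖e.H z - z‖ = t := by
        have : e.H z - z = (t : ℂ) * ξ := by rw [heq]; ring
        rw [this, norm_mul, hξ, mul_one, Complex.norm_real, Real.norm_eq_abs, abs_of_nonneg ht0]
      rw [h3, hz'] at h2
      have h4 : 9 * s ≤ t := by linarith
      -- lower bound of the norm of z
      have h5 : (z.re * ξ.re + z.im * ξ.im) ^ 2 ≤ ‖z‖ ^ 2 := by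
        have h1' : ξ.re ^ 2 + ξ.im ^ 2 = 1 := by
          have := Complex.sq_norm ξ
          rw [hξ, Complex.normSq_apply] at this
          nlinarith
        rw [Complex.sq_norm, Complex.normSq_apply]
        nlinarith [sq_nonneg (z.re * ξ.im - z.im * ξ.re)]
      have h6 : (z.re * ξ.re + z.im * ξ.im + t) ^ 2 ≤ 1 := by nlinarith
      have h7 : 1 < z.re * ξ.re + z.im * ξ.im + t := by linarith
      nlinarith
    · have h1 : 1 < ‖z‖ ^ 2 := by nlinarith
      have h2 : 0 ≤ 2 * t * (z.re * ξ.re + z.im * ξ.im) := by positivity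
      nlinarith [sq_nonneg t]
  have h1 : HasLog (fun z => -(e.H (rr z) - z) / ξ) (sphere ξ s) := by
    apply IC_log_slit _ key
    apply ContinuousOn.div_const
    exact (((JL_cont he).sub continuous_id).neg).continuousOn
  have h2 := IC_log_mul h1 (JL_log_const (neg_ne_zero.2 hξ0) (sphere ξ s))
  apply IC_log_congr h2
  intro z _
  rw [zpow_zero, div_one]
  field_simp

end TN

end S_H12_TN_JL

section S_H12_TN_JP

/-!
JP (periodic index theorem).  Choose `M' ≥ M` bounding also `|(ω - k i).re|` on all `closure (O i)` (bounded sets, `ι` finite), `N ≥ 1`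
with `N l > 4 M' + 4`, `T = N l`.  There is `f` with `f (ew T ω) = ew T (Fh ω) - ew T ω` for all `ω` (`Fh (ω + z T) = Fh ω + z T`,
`ew_eq_iff`; choose a preimage; `f 0` arbitrary).  Apply `add_index'` with the index type `Option (ι × Fin N)`:
* `none`: `ball 0 r`, `r = exp (-(2πy₁/T))`, centre `0`, exponent `1 + N w`, log by `centre_log` (the frontier of the ball is the sphere);
* `some (i, j)`: `ew T '' ((fun ω => ω + j l) '' O i)`, centre `ew T (k i + j l)`, exponent `n i`; the translated hole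
  `O' = (· + j l) '' O i` is open, bounded, its closure (frontier) is the translate of the closure (frontier) (homeomorphism), it satisfies
  the hypothesis of `hole_push` (`hd` with `i = j`), and `(Fh ω - ω)/(ω - (k i + j l))^n` has a log on its frontier (periodicity of `Fh ω - ω`):
  `hole_log`, `hole_push`.  (`Fh ω ≠ ω` and `ω ≠ k` on the frontier: `k i + j l` is in the open set; a fixed point of `Fh` on the frontier of `O i`
  has, by `hz`, a translate in some `O i'`: this contradicts `hd` (`closure (O i)` meets a translate of `O i'`) unless `i' = i`, `z = 0`, and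
  then the point is in `O i`, not in the frontier.)
Disjoint closures: `closure = ew T '' closure`; `ω + j l ≡ ω' + j' l` mod `T` gives `ω' = ω + z l` with `z = j - j' + N z'`, so by `hd`
`i = i'` and `z = 0`, so `j = j'` (`0 ≤ j, j' < N`).  The central closed ball: `‖ew T ω‖ ≤ r` iff `y₁ ≤ im ω` (`ew_norm`), excluded by `hy`.
`f` is continuous and nonzero off the holes: a point `z` there has `‖z‖ ≥ r > 0`, `z = ew T ω`, `im ω ≤ y₁`; `ew_contOn` with
`S = (⋃ holes)ᶜ`; if `f z = 0` then `Fh ω = ω + z' T` (`ew_eq_iff`), `|z'| T ≤ M < T`, `z' = 0`, `Fh ω = ω`, and by `hz` `ω + z l ∈ O i`; with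
`j = -z mod N` the point is in the hole `(i, j)`.
`f_inf` gives the behaviour at infinity with exponent `1`.  So `1 = 1 + N w + N ∑ n i`.
-/

namespace TN
open Metric Set Filter Topology DS

theorem JP_per {l : ℝ} {Fh : ℂ → ℂ} (hp : ∀ ω, Fh (ω + l) = Fh ω + l) (z : ℤ) (ω : ℂ) :
    Fh (ω + z * l) = Fh ω + z * l := by
  induction z using Int.induction_on generalizing ω with
  | zero => simp
  | succ i ih =>
    have h1 : ω + ((i + 1 : ℤ) : ℂ) * l = (ω + (i : ℤ) * l) + l := by push_cast; ring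
    rw [h1, hp, ih]
    push_cast; ring
  | pred i ih =>
    have h1 : ω + (-(i : ℤ) : ℤ) * (l:ℂ) = (ω + ((-(i : ℤ) - 1 : ℤ) : ℂ) * l) + l := by
      push_cast; ring
    have h2 := ih ω
    rw [h1, hp] at h2
    have h3 := add_right_cancel (h2.trans (by push_cast; ring :
      Fh ω + (-(i : ℤ) : ℤ) * (l:ℂ) = (Fh ω + ((-(i : ℤ) - 1 : ℤ) : ℂ) * l) + l))
    exact h3

theorem JP_perT {l : ℝ} {N : ℕ} {Fh : ℂ → ℂ} (hp : ∀ ω, Fh (ω + l) = Fh ω + l) (z : ℤ) (ω : ℂ) :
    Fh (ω + z * ((N * l : ℝ) : ℂ)) = Fh ω + z * ((N * l : ℝ) : ℂ) := by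
  have h := JP_per hp (z * N) ω
  have e : ((z * N : ℤ) : ℂ) * (l:ℂ) = z * ((N * l : ℝ) : ℂ) := by push_cast; ring
  rwa [e] at h

/-- the map induced in the punctured plane -/
theorem JP_f {T : ℝ} (hT : 0 < T) {Fh : ℂ → ℂ} (hp : ∀ (z : ℤ) ω, Fh (ω + z * T) = Fh ω + z * T) :
    ∃ f : ℂ → ℂ, ∀ ω, f (ew T ω) = ew T (Fh ω) - ew T ω := by
  classical
  refine ⟨fun w => if h : ∃ ω, ew T ω = w then ew T (Fh h.choose) - w else 0, fun ω => ?_⟩
  have hex : ∃ ω', ew T ω' = ew T ω := ⟨ω, rfl⟩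
  simp only [dif_pos hex]
  obtain ⟨z, hz⟩ := (ew_eq_iff hT).1 hex.choose_spec
  have h1 : Fh ω = Fh hex.choose + z * T := by
    conv_lhs => rw [hz]
    exact hp z _
  have h2 : ew T (Fh hex.choose) = ew T (Fh ω) := (ew_eq_iff hT).2 ⟨z, h1⟩
  rw [h2]

theorem JP_closure (a : ℂ) (S : Set ℂ) :
    closure ((fun ω => ω + a) '' S) = (fun ω => ω + a) '' closure S :=
  ((Homeomorph.addRight a).image_closure S).symm

theorem JP_frontier (a : ℂ) (S : Set ℂ) :
    frontier ((fun ω => ω + a) '' S) = (fun ω => ω + a) '' frontier S :=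
  ((Homeomorph.addRight a).image_frontier S).symm

theorem JP_open (a : ℂ) {S : Set ℂ} (h : IsOpen S) : IsOpen ((fun ω => ω + a) '' S) :=
  (Homeomorph.addRight a).isOpenMap S h

theorem JP_bdd (a : ℂ) {S : Set ℂ} (h : Bornology.IsBounded S) :
    Bornology.IsBounded ((fun ω => ω + a) '' S) := by
  obtain ⟨R, hR⟩ := h.exists_norm_le
  refine isBounded_iff_forall_norm_le.2 ⟨R + ‖a‖, ?_⟩
  rintro _ ⟨x, hx, rfl⟩
  exact (norm_add_le _ _).trans (by linarith [hR x hx])

/-- an integer multiple of a large period is small only if the integer is zero -/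
theorem JP_small {T x : ℝ} (hT : 0 < T) {z : ℤ} (hx : |x| < T) (h : x = z * T) : z = 0 := by
  rw [h, abs_mul, abs_of_pos hT] at hx
  have h1 : |(z:ℝ)| < 1 := by
    by_contra hn
    push Not at hn
    nlinarith
  exact Int.abs_lt_one_iff.1 (by exact_mod_cast h1)

theorem pai {l : ℝ} (hl : 0 < l) {Fh : ℂ → ℂ} (hF : Continuous Fh)
    (hp : ∀ ω, Fh (ω + l) = Fh ω + l) {M : ℝ} (hM : ∀ ω, |(Fh ω - ω).re| ≤ M)
    (him : ∀ ω, 0 ≤ (Fh ω).im) {y₁ : ℝ} {ι : Type} [Fintype ι] (O : ι → Set ℂ) (k : ι → ℂ)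
    (n : ι → ℤ) (hO : ∀ i, IsOpen (O i)) (hb : ∀ i, Bornology.IsBounded (O i))
    (hk : ∀ i, k i ∈ O i) (hy : ∀ i, ∀ ω ∈ closure (O i), ω.im < y₁)
    (hd : ∀ i j, ∀ z : ℤ, (i ≠ j ∨ z ≠ 0) → ∀ ω ∈ closure (O i), ω + z * l ∉ closure (O j))
    (hz : ∀ ω : ℂ, ω.im ≤ y₁ → Fh ω = ω → ∃ i, ∃ z : ℤ, ω + z * l ∈ O i)
    (hlog : ∀ i, HasLog (fun ω => (Fh ω - ω) / (ω - k i) ^ (n i)) (frontier (O i)))
    (w : ℤ) {L : ℂ → ℂ} (hL : ContinuousOn L {ω | ω.im = y₁})
    (hLe : ∀ ω : ℂ, ω.im = y₁ → Fh ω - ω = Complex.exp (L ω))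
    (hLp : ∀ ω : ℂ, ω.im = y₁ → L (ω + l) = L ω + 2 * Real.pi * w * Complex.I) :
    w + ∑ i, n i = 0 := by
  classical
  -- the bound `M'`
  obtain ⟨M', hMM, hM'⟩ : ∃ M', M ≤ M' ∧ ∀ i, ∀ ω ∈ closure (O i), |(ω - k i).re| ≤ M' := by
    have h1 : ∀ i, ∃ R : ℝ, ∀ ω ∈ closure (O i), |(ω - k i).re| ≤ R := by
      intro i
      obtain ⟨R, hR⟩ := (hb i).closure.exists_norm_le
      refine ⟨R + ‖k i‖, fun ω hω => ?_⟩
      exact (Complex.abs_re_le_norm _).trans ((norm_sub_le _ _).trans (by linarith [hR ω hω]))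
    choose R hR using h1
    obtain ⟨B, hB⟩ := (Set.finite_range R).bddAbove
    refine ⟨max M B, le_max_left _ _, fun i ω hω => (hR i ω hω).trans ?_⟩
    exact (hB ⟨i, rfl⟩).trans (le_max_right _ _)
  have hM0 : 0 ≤ M := (abs_nonneg _).trans (hM 0)
  obtain ⟨N, hN⟩ : ∃ N : ℕ, (4 * M' + 4) / l < N := exists_nat_gt _
  rw [div_lt_iff₀ hl] at hN
  have hN0 : 0 < N := by
    rcases Nat.eq_zero_or_pos N with h | h
    · rw [h, Nat.cast_zero, zero_mul] at hN
      linarith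
    · exact h
  obtain ⟨T, hTdef⟩ : ∃ T : ℝ, T = N * l := ⟨_, rfl⟩
  have hT : 0 < T := by rw [hTdef]; positivity
  rw [← hTdef] at hN
  have hpT : ∀ (z : ℤ) ω, Fh (ω + z * T) = Fh ω + z * T := by
    intro z ω
    rw [hTdef]
    exact JP_perT hp z ω
  obtain ⟨f, hf⟩ := JP_f hT hpT
  have hMT : ∀ ω, |(Fh ω - ω).re| < T / 4 := fun ω => by linarith [hM ω]
  -- periodicity in the form of hd
  have hcast : ∀ (z : ℤ), ((z * N : ℤ) : ℂ) * l = z * T := by
    intro z
    rw [hTdef]; push_cast; ring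
  -- radius of the central hole
  obtain ⟨r, hr⟩ : ∃ r : ℝ, r = Real.exp (-(2 * Real.pi * y₁ / T)) := ⟨_, rfl⟩
  have hr0 : 0 < r := hr ▸ Real.exp_pos _
  have him_iff : ∀ ω : ℂ, ‖ew T ω‖ ≤ r → y₁ ≤ ω.im := by
    intro ω h
    rw [ew_norm, hr, Real.exp_le_exp, neg_le_neg_iff, div_le_div_iff_of_pos_right hT] at h
    exact le_of_mul_le_mul_left h (by positivity)
  have him_iff' : ∀ ω : ℂ, r ≤ ‖ew T ω‖ → ω.im ≤ y₁ := by
    intro ω h
    rw [ew_norm, hr, Real.exp_le_exp, neg_le_neg_iff, div_le_div_iff_of_pos_right hT] at h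
    exact le_of_mul_le_mul_left h (by positivity)
  -- the translated holes
  have hpush : ∀ (i : ι) (j : ℂ), IsOpen (ew T '' ((fun ω => ω + j) '' O i)) ∧
      Bornology.IsBounded (ew T '' ((fun ω => ω + j) '' O i)) ∧
      closure (ew T '' ((fun ω => ω + j) '' O i)) = ew T '' ((fun ω => ω + j) '' closure (O i)) ∧
      ∀ f : ℂ → ℂ, HasLog (fun ω => f (ew T ω)) ((fun ω => ω + j) '' frontier (O i)) →
        HasLog f (frontier (ew T '' ((fun ω => ω + j) '' O i))) := by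
    intro i j
    have h := hole_push hT (JP_open j (hO i)) (JP_bdd j (hb i)) (by
      intro z hz0 ω hω
      rw [JP_closure] at hω ⊢
      rintro ⟨ω₂, hω₂, h2⟩
      obtain ⟨ω₁, hω₁, rfl⟩ := hω
      have h3 : ω₂ = ω₁ + ((z * N : ℤ) : ℂ) * l := by
        rw [hcast]
        simp only at h2
        linear_combination h2
      refine hd i i (z * N) (Or.inr ?_) ω₁ hω₁ (h3 ▸ hω₂)
      exact mul_ne_zero hz0 (by exact_mod_cast hN0.ne'))
    rw [JP_closure, JP_frontier] at h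
    exact h
  -- the index type
  let O' : Option (ι × Fin N) → Set ℂ := fun o => match o with
    | none => ball 0 r
    | some (i, j) => ew T '' ((fun ω => ω + ((j : ℕ) : ℂ) * l) '' O i)
  let k' : Option (ι × Fin N) → ℂ := fun o => match o with
    | none => 0
    | some (i, j) => ew T (k i + ((j : ℕ) : ℂ) * l)
  let n' : Option (ι × Fin N) → ℤ := fun o => match o with
    | none => 1 + N * w
    | some (i, _) => n i
  have hcl : ∀ (i : ι) (j : Fin N), closure (O' (some (i, j))) =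
      ew T '' ((fun ω => ω + ((j : ℕ) : ℂ) * l) '' closure (O i)) := fun i j => (hpush i _).2.2.1
  have hmain := add_index' O' k' n' ?_ ?_ ?_ ?_ f ?_ ?_ ?_ 1 (c := -1) (by norm_num) (f_inf hT him hf)
  · -- conclusion
    rw [Fintype.sum_option, Fintype.sum_prod_type] at hmain
    have h1 : ∀ i : ι, ∑ j : Fin N, n' (some (i, j)) = N * n i := by
      intro i
      show ∑ _j : Fin N, n i = N * n i
      rw [Finset.sum_const, Finset.card_univ, Fintype.card_fin, nsmul_eq_mul]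
    simp only [h1] at hmain
    rw [← Finset.mul_sum] at hmain
    have h2 : n' none = 1 + N * w := rfl
    rw [h2] at hmain
    have h3 : (N : ℤ) * (w + ∑ i, n i) = 0 := by linear_combination -hmain
    rcases mul_eq_zero.1 h3 with h4 | h4
    · exact absurd h4 (by exact_mod_cast hN0.ne')
    · exact h4
  · -- open
    rintro (_ | ⟨i, j⟩)
    · exact isOpen_ball
    · exact (hpush i _).1
  · rintro (_ | ⟨i, j⟩)
    · exact isBounded_ball
    · exact (hpush i _).2.1
  · rintro (_ | ⟨i, j⟩)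
    · exact mem_ball_self hr0
    · exact ⟨_, ⟨k i, hk i, rfl⟩, rfl⟩
  · -- disjoint closures
    have hns : ∀ (i : ι) (j : Fin N), Disjoint (closure (O' none)) (closure (O' (some (i, j)))) := by
      intro i j
      rw [Set.disjoint_left]
      intro x hx1 hx2
      have hx1' : ‖x‖ ≤ r := by
        have : x ∈ closedBall (0:ℂ) r := closure_ball_subset_closedBall hx1
        simpa using this
      rw [hcl] at hx2
      obtain ⟨_, ⟨ω, hω, rfl⟩, rfl⟩ := hx2
      have h1 := him_iff _ hx1'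
      have h2 := hy i ω hω
      have h3 : (ω + ((j : ℕ) : ℂ) * l).im = ω.im := by
        simp
      rw [h3] at h1
      linarith
    rintro (_ | ⟨i, j⟩) (_ | ⟨i', j'⟩) hne
    · exact absurd rfl hne
    · exact hns i' j'
    · exact (hns i j).symm
    · rw [Set.disjoint_left]
      intro x hx1 hx2
      rw [hcl] at hx1 hx2
      obtain ⟨_, ⟨ω, hω, rfl⟩, rfl⟩ := hx1
      obtain ⟨_, ⟨ω', hω', rfl⟩, h2⟩ := hx2
      obtain ⟨z, hz1⟩ := (ew_eq_iff hT).1 h2.symm
      simp only at hz1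
      have h3 : ω' = ω + (((j : ℕ) : ℤ) - ((j' : ℕ) : ℤ) + z * N : ℤ) * (l:ℂ) := by
        have := hcast z
        push_cast at this ⊢
        linear_combination hz1 - this
      have h4 := fun hh => hd i i' (((j : ℕ) : ℤ) - ((j' : ℕ) : ℤ) + z * N) hh ω hω (h3 ▸ hω')
      have h5 : i = i' := by
        by_contra hh
        exact h4 (Or.inl hh)
      have h6 : ((j : ℕ) : ℤ) - ((j' : ℕ) : ℤ) + z * N = 0 := by
        by_contra hh
        exact h4 (Or.inr hh)
      apply hne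
      have h7 : (j : ℕ) = (j' : ℕ) := by
        have hj := j.isLt
        have hj' := j'.isLt
        have hz0 : z = 0 := by
          by_contra hz0
          rcases lt_or_gt_of_ne hz0 with hz' | hz'
          · have : z * N ≤ -1 * N := mul_le_mul_of_nonneg_right (by omega) (by positivity)
            omega
          · have : 1 * N ≤ z * N := mul_le_mul_of_nonneg_right (by omega) (by positivity)
            omega
        rw [hz0] at h6
        omega
      rw [h5, Fin.ext h7]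
  · -- continuity
    refine ew_contOn hT (G := fun ω => ew T (Fh ω) - ew T ω) ?_ ?_ ?_
    · intro x hx h0
      apply hx
      rw [Set.mem_iUnion]
      refine ⟨none, ?_⟩
      rw [h0]
      exact mem_ball_self hr0
    · exact ((((ew_cont T).comp hF).sub (ew_cont T))).continuousOn
    · intro ω _
      exact hf ω
  · -- nonvanishing
    intro x hx h0
    have hx0 : x ∉ ball (0:ℂ) r := fun h => hx (Set.mem_iUnion.2 ⟨none, h⟩)
    have hxr : r ≤ ‖x‖ := by
      by_contra hh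
      push Not at hh
      exact hx0 (by simpa using hh)
    have hxne : x ≠ 0 := by
      rintro rfl
      rw [norm_zero] at hxr
      linarith
    obtain ⟨ω, rfl⟩ := ew_surj hT hxne
    have him' := him_iff' ω hxr
    rw [hf, sub_eq_zero] at h0
    obtain ⟨z, hz1⟩ := (ew_eq_iff hT).1 h0
    have hz0 : -z = 0 := by
      apply JP_small hT (x := (Fh ω - ω).re) (lt_of_lt_of_le (hMT ω) (by linarith))
      have h2 : Fh ω - ω = ((-(z:ℝ) * T : ℝ) : ℂ) := by
        push_cast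
        linear_combination (-1 : ℂ) * hz1
      rw [h2, Complex.ofReal_re]
      push_cast; ring
    have hz0' : z = 0 := by omega
    rw [hz0', Int.cast_zero, zero_mul, add_zero] at hz1
    obtain ⟨i, z₁, hi⟩ := hz ω him' hz1.symm
    apply hx
    rw [Set.mem_iUnion]
    have hNz : (N : ℤ) ≠ 0 := by exact_mod_cast hN0.ne'
    have hm0 := Int.emod_nonneg (-z₁) hNz
    have hm1 := Int.emod_lt_of_pos (-z₁) (by exact_mod_cast hN0 : (0:ℤ) < N)
    have hm2 := Int.emod_add_mul_ediv (-z₁) N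
    obtain ⟨j, hj⟩ : ∃ j : ℕ, (j : ℤ) = (-z₁) % N := ⟨((-z₁) % N).toNat, Int.toNat_of_nonneg hm0⟩
    have hjN : j < N := by omega
    refine ⟨some (i, ⟨j, hjN⟩), (ω + z₁ * l) + (j : ℂ) * l, ⟨ω + z₁ * l, hi, rfl⟩, ?_⟩
    symm
    rw [ew_eq_iff hT]
    refine ⟨-((-z₁) / N), ?_⟩
    rw [← hcast]
    rw [← hj] at hm2
    have hm3 : (z₁ : ℂ) + j = ((-(-z₁ / N) * N : ℤ) : ℂ) := by
      have : z₁ + (j : ℤ) = -(-z₁ / N) * N := by linear_combination hm2
      rw [← this]
      push_cast; ring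
    rw [← hm3]
    ring
  · -- logarithms
    rintro (_ | ⟨i, j⟩)
    · show HasLog (fun z => f z / (z - 0) ^ (1 + N * w)) (frontier (ball 0 r))
      rw [frontier_ball _ hr0.ne']
      have h := centre_log hl hN0 hF hp (by rw [← hTdef]; exact hMT) hL hLe hLp
        (f := f) (by rw [← hTdef]; exact hf)
      rw [← hTdef, ← hr] at h
      exact h
    · show HasLog (fun z => f z / (z - ew T (k i + ((j : ℕ) : ℂ) * l)) ^ (n i))
        (frontier (ew T '' ((fun ω => ω + ((j : ℕ) : ℂ) * l) '' O i)))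
      obtain ⟨a, ha⟩ : ∃ a : ℤ, a = ((j : ℕ) : ℤ) := ⟨_, rfl⟩
      have ha' : ((j : ℕ) : ℂ) = (a : ℂ) := by rw [ha]; push_cast; rfl
      rw [ha']
      apply (hpush i _).2.2.2
      have hfr : ∀ ω ∈ frontier (O i), ω ∈ closure (O i) ∧ ω ∉ O i := by
        intro ω hω
        rw [(hO i).frontier_eq] at hω
        exact hω
      -- the difference is invariant
      have hdiff : ∀ ω, Fh (ω + a * l) - (ω + a * l) = Fh ω - ω := by
        intro ω
        rw [JP_per hp]
        ring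
      have h := hole_log (T := T) hT (X := (fun ω => ω + (a : ℂ) * l) '' frontier (O i)) hF
        (k := k i + a * l) (n := n i) ?_ ?_ ?_ ?_ ?_
      · obtain ⟨L', hL', hL''⟩ := h
        refine ⟨L', hL', fun ω hω => ?_⟩
        rw [← hL'' ω hω]
        simp only [hf]
      · rintro _ ⟨ω, hω, rfl⟩ h0
        have h1 := hdiff ω
        simp only at h0
        rw [h0, sub_self] at h1
        have h2 : Fh ω = ω := (sub_eq_zero.1 h1.symm)
        obtain ⟨hω1, hω2⟩ := hfr ω hω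
        obtain ⟨i', z, hi'⟩ := hz ω (hy i ω hω1).le h2
        by_cases hc : i ≠ i' ∨ z ≠ 0
        · exact hd i i' z hc ω hω1 (subset_closure hi')
        · push Not at hc
          rw [hc.2, Int.cast_zero, zero_mul, add_zero, ← hc.1] at hi'
          exact hω2 hi'
      · rintro _ ⟨ω, hω, rfl⟩ h0
        simp only [add_left_inj] at h0
        exact (hfr ω hω).2 (h0 ▸ hk i)
      · intro ω _
        exact hMT ω
      · rintro _ ⟨ω, hω, rfl⟩
        have h1 := hM' i ω (hfr ω hω).1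
        have h2 : (ω + (a : ℂ) * l) - (k i + a * l) = ω - k i := by ring
        simp only [h2]
        linarith
      · obtain ⟨L', hL', hL''⟩ := hlog i
        refine ⟨fun ω => L' (ω - a * l), ?_, ?_⟩
        · apply hL'.comp (by fun_prop)
          rintro _ ⟨ω, hω, rfl⟩
          simpa using hω
        · rintro _ ⟨ω, hω, rfl⟩
          have h1 := hL'' ω hω
          simp only at h1 ⊢
          rw [hdiff, add_sub_cancel_right, ← h1]
          congr 2
          ring

end TN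

end S_H12_TN_JP
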