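import Pool.Agent.H12.KS.K11
import Pool.Agent.H12.KS.K12
import Pool.Agent.H12.KS.K16

/-! Joined modules of the proof of MP_8a27c0_an (one section per module). -/

section S_H12_TN_TA

/-!
TA (a conical sequence).  `r n = 1 - 2^(-n)`.  `exists_conical`: (UC) gives `ρ` and, for each `n`, some `d n` with `‖act (d n) (r n ξ)‖ ≤ ρ`; replace `ρ` by `max ρ 0`.
Fields of `Conic`:
* `K`: with `b = F.b (d n)`, `r = r n`, `D = ‖1 - conj b (r ξ)‖`: `act_norm` gives `1 - ρ² ≤ (1-‖b‖²)(1-r²)/D²`.  `1 - r ≤ D` (as `‖b‖ ≤ 1`), so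
`(1-r)² (1-ρ²) ≤ (1-‖b‖²)(1-r²) ≤ 2 (1-‖b‖²)(1-r)`, `1 - r ≤ 2 (1-‖b‖²)/(1-ρ²)`, then `D² ≤ 2 (1-‖b‖²)(1-r)/(1-ρ²) ≤ (2 (1-‖b‖²)/(1-ρ²))²`, and
`‖1 - conj b ξ‖ ≤ D + (1 - r) ≤ 2 D ≤ 4 (1-‖b‖²)/(1-ρ²)`: `K = 4/(1-ρ²)`.
* `fin`: `g = d (n+1) * (d n)⁻¹` maps `y = act (d n) (r n ξ)`, `‖y‖ ≤ ρ`, to `act (d (n+1)) (r n ξ)`, at `pd`-distance `pd (r n) (r (n+1)) ≤ 1/2` from
`act (d (n+1)) (r (n+1) ξ)`, of norm `≤ ρ`; so (`norm_le_of_pd`) its norm is `≤ s < 1`, `s` independent of `n`; `proper`.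
(`pd (r ξ) (r' ξ) = (r' - r)/(1 - r r') ≤ 1/2` for `r = 1 - 2^(-n)`, `r' = 1 - 2^(-n-1)`.)
* `b1`: `1 - ρ² ≤ (1-‖b‖²)(1-r²)/D²` and `D ≥ 1 - ‖b‖` give `(1-‖b‖)² (1 - ρ²) ≤ (1 - r²)(1-‖b‖²)`, so `(1-‖b‖)(1-ρ²) ≤ 2 (1 - r²) → 0`.
* `C`: for `g` in the finite set, `‖b (d (n+1))‖ = ‖act (d (n+1)) 0‖ = ‖act g (act (d n) 0)‖` and `act_norm` gives
`1 - ‖b (d (n+1))‖² ≥ (1 - ‖F.b g‖²)(1 - ‖b (d n)‖²)/4`; `C` = maximum of `4/(1-‖F.b g‖²)`.
`sep`: `act_dist` with `y = 0`: `dist (act (d n) ξ) (act (d n) 0) = (1-‖b‖²)/‖1 - conj b ξ‖ ≥ 1/K`.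
-/

namespace TN
open Metric Set Filter Topology DS

variable {Γ : Type} [Group Γ]

/-- `d n` maps the points `(1 - 2^(-n)) ξ` of the radius into a compact part of the disc -/
structure Conic (F : Fuchs Γ) (ξ : ℂ) (d : ℕ → Γ) (ρ K C : ℝ) : Prop where
  ρ0 : 0 ≤ ρ
  ρ1 : ρ < 1
  K1 : 1 ≤ K
  C1 : 1 ≤ C
  bd : ∀ n, ‖F.act (d n) ((1 - 2⁻¹ ^ n : ℝ) * ξ)‖ ≤ ρ
  hK : ∀ n, ‖1 - (starRingEnd ℂ) (F.b (d n)) * ξ‖ ≤ K * (1 - ‖F.b (d n)‖ ^ 2)
  b1 : Tendsto (fun n => ‖F.b (d n)‖) atTop (𝓝 1)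
  hC : ∀ n, 1 - ‖F.b (d n)‖ ^ 2 ≤ C * (1 - ‖F.b (d (n + 1))‖ ^ 2)
  fin : (range fun n => d (n + 1) * (d n)⁻¹).Finite

theorem TA_den {b ξ : ℂ} {r : ℝ} (hb : ‖b‖ < 1) (hξ : ‖ξ‖ = 1) (hr0 : 0 ≤ r) (hr1 : r < 1) :
    1 - r ≤ ‖1 - (starRingEnd ℂ) b * (r * ξ)‖ ∧ 1 - ‖b‖ ≤ ‖1 - (starRingEnd ℂ) b * (r * ξ)‖ ∧
      ‖1 - (starRingEnd ℂ) b * ξ‖ ≤ ‖1 - (starRingEnd ℂ) b * (r * ξ)‖ + (1 - r) := by
  have hnb := norm_nonneg b
  have h1 : ‖(starRingEnd ℂ) b * ((r : ℂ) * ξ)‖ = ‖b‖ * r := by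
    rw [norm_mul, norm_mul, RCLike.norm_conj, hξ, mul_one, Complex.norm_real, Real.norm_eq_abs,
      abs_of_nonneg hr0]
  have h2 : ‖(1:ℂ)‖ - ‖(starRingEnd ℂ) b * ((r : ℂ) * ξ)‖ ≤
      ‖1 - (starRingEnd ℂ) b * ((r : ℂ) * ξ)‖ := norm_sub_norm_le _ _
  rw [norm_one, h1] at h2
  have h3 : ‖b‖ * r ≤ r := mul_le_of_le_one_left hr0 hb.le
  have h4 : ‖b‖ * r ≤ ‖b‖ := mul_le_of_le_one_right hnb hr1.le
  refine ⟨by linarith, by linarith, ?_⟩
  have h5 : 1 - (starRingEnd ℂ) b * ξ = (1 - (starRingEnd ℂ) b * ((r : ℂ) * ξ))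
      - (starRingEnd ℂ) b * (((1 - r : ℝ) : ℂ) * ξ) := by
    push_cast; ring
  have h6 : ‖(starRingEnd ℂ) b * (((1 - r : ℝ) : ℂ) * ξ)‖ ≤ 1 - r := by
    rw [norm_mul, norm_mul, RCLike.norm_conj, hξ, mul_one, Complex.norm_real, Real.norm_eq_abs,
      abs_of_nonneg (by linarith : (0:ℝ) ≤ 1 - r)]
    exact mul_le_of_le_one_left (by linarith) hb.le
  rw [h5]
  exact (norm_sub_le _ _).trans (by linarith)

theorem TA_bd (F : Fuchs Γ) {g : Γ} {ξ : ℂ} {r ρ : ℝ} (hξ : ‖ξ‖ = 1) (hr0 : 0 ≤ r) (hr1 : r < 1)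
    (hρ0 : 0 ≤ ρ) (hρ1 : ρ < 1) (h : ‖F.act g (r * ξ)‖ ≤ ρ) :
    ‖1 - (starRingEnd ℂ) (F.b g) * ξ‖ ≤ 4 / (1 - ρ ^ 2) * (1 - ‖F.b g‖ ^ 2) ∧
      1 - ‖F.b g‖ ≤ 4 / (1 - ρ ^ 2) * (1 - r) := by
  have hb := F.hb g
  have hnb := norm_nonneg (F.b g)
  obtain ⟨h1, h2, h3⟩ := TA_den hb hξ hr0 hr1
  have hx : ‖(r : ℂ) * ξ‖ = r := by
    rw [norm_mul, hξ, mul_one, Complex.norm_real, Real.norm_eq_abs, abs_of_nonneg hr0]
  have h4 := act_norm F g (x := (r : ℂ) * ξ) (by rw [hx]; exact hr1.le)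
  rw [hx] at h4
  set D := ‖1 - (starRingEnd ℂ) (F.b g) * ((r : ℂ) * ξ)‖ with hD
  set E := ‖1 - (starRingEnd ℂ) (F.b g) * ξ‖ with hE
  set β := ‖F.b g‖ with hβ
  have hD0 : 0 < D := by linarith
  have hκ : 0 < 1 - ρ ^ 2 := by nlinarith
  have hna := norm_nonneg (F.act g ((r : ℂ) * ξ))
  have h5 : 1 - ρ ^ 2 ≤ 1 - ‖F.act g ((r : ℂ) * ξ)‖ ^ 2 := by nlinarith
  have h6 : (1 - ρ ^ 2) * D ^ 2 ≤ (1 - β ^ 2) * (1 - r ^ 2) := by
    rw [h4, le_div_iff₀ (by positivity)] at h5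
    exact h5
  have hB : 0 < 1 - β ^ 2 := by nlinarith
  have hr' : 0 < 1 - r := by linarith
  -- `(1 - r) κ ≤ 2 B`
  have h7 : (1 - r) * (1 - ρ ^ 2) ≤ 2 * (1 - β ^ 2) := by
    have e1 : (1 - ρ ^ 2) * (1 - r) ^ 2 ≤ (1 - ρ ^ 2) * D ^ 2 :=
      mul_le_mul_of_nonneg_left (pow_le_pow_left₀ hr'.le h1 2) hκ.le
    have e2 : (1 - β ^ 2) * (1 - r ^ 2) ≤ 2 * (1 - β ^ 2) * (1 - r) := by
      have : 1 - r ^ 2 ≤ 2 * (1 - r) := by nlinarith only [hr', hr1]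
      have := mul_le_mul_of_nonneg_left this hB.le
      linarith
    have e3 : (1 - r) * (1 - ρ ^ 2) * (1 - r) ≤ 2 * (1 - β ^ 2) * (1 - r) := by linarith
    exact le_of_mul_le_mul_right e3 hr'
  have h8 : (1 - ρ ^ 2) * D ≤ 2 * (1 - β ^ 2) := by
    have e1 : (1 - ρ ^ 2) * D ^ 2 ≤ 2 * (1 - β ^ 2) * (1 - r) := by
      have : 1 - r ^ 2 ≤ 2 * (1 - r) := by nlinarith only [hr', hr1]
      have := mul_le_mul_of_nonneg_left this hB.le
      linarith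
    have e2 : (1 - ρ ^ 2) * ((1 - ρ ^ 2) * D ^ 2) ≤ (1 - ρ ^ 2) * (2 * (1 - β ^ 2) * (1 - r)) :=
      mul_le_mul_of_nonneg_left e1 hκ.le
    have e3 : (2 * (1 - β ^ 2)) * ((1 - r) * (1 - ρ ^ 2)) ≤ (2 * (1 - β ^ 2)) * (2 * (1 - β ^ 2)) :=
      mul_le_mul_of_nonneg_left h7 (by linarith)
    have e4 : ((1 - ρ ^ 2) * D) ^ 2 ≤ (2 * (1 - β ^ 2)) ^ 2 := by linarith
    exact le_of_sq_le_sq e4 (by linarith)
  constructor
  · rw [div_mul_eq_mul_div, le_div_iff₀ hκ]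
    have e1 : E ≤ 2 * D := by linarith
    have e2 := mul_le_mul_of_nonneg_right e1 hκ.le
    linarith
  · rw [div_mul_eq_mul_div, le_div_iff₀ hκ]
    have hb' : 0 < 1 - β := by linarith
    have e1 : (1 - ρ ^ 2) * (1 - β) ^ 2 ≤ (1 - ρ ^ 2) * D ^ 2 :=
      mul_le_mul_of_nonneg_left (pow_le_pow_left₀ hb'.le h2 2) hκ.le
    have e2 : (1 - β ^ 2) * (1 - r ^ 2) ≤ (1 - β) * (4 * (1 - r)) := by
      have f1 : 1 - β ^ 2 ≤ (1 - β) * 2 := by nlinarith only [hb', hb]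
      have f2 : 1 - r ^ 2 ≤ 2 * (1 - r) := by nlinarith only [hr', hr1]
      have f3 : 0 ≤ 1 - r ^ 2 := by nlinarith only [hr', hr1, hr0]
      calc (1 - β ^ 2) * (1 - r ^ 2) ≤ ((1 - β) * 2) * (2 * (1 - r)) :=
            mul_le_mul f1 f2 f3 (by linarith)
        _ = (1 - β) * (4 * (1 - r)) := by ring
    have e3 : (1 - β) * ((1 - β) * (1 - ρ ^ 2)) ≤ (1 - β) * (4 * (1 - r)) := by linarith
    exact le_of_mul_le_mul_left e3 hb'

theorem TA_pd {ξ : ℂ} (hξ : ‖ξ‖ = 1) (n : ℕ) :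
    pd ((1 - 2⁻¹ ^ (n + 1) : ℝ) * ξ) ((1 - 2⁻¹ ^ n : ℝ) * ξ) ≤ 1 / 2 := by
  have ht0 : (0:ℝ) < 2⁻¹ ^ n := by positivity
  have ht1 : (2⁻¹ : ℝ) ^ n ≤ 1 := pow_le_one₀ (by norm_num) (by norm_num)
  have hp : (2⁻¹ : ℝ) ^ (n + 1) = 2⁻¹ ^ n / 2 := by rw [pow_succ]; ring
  rw [hp]
  generalize (2⁻¹ : ℝ) ^ n = t at ht0 ht1
  have hss : (starRingEnd ℂ) ξ * ξ = 1 := by
    rw [Complex.conj_mul', hξ]; norm_num
  unfold pd
  have e1 : ((1 - t / 2 : ℝ) : ℂ) * ξ - ((1 - t : ℝ) : ℂ) * ξ = ((t / 2 : ℝ) : ℂ) * ξ := by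
    push_cast; ring
  have e2 : 1 - (starRingEnd ℂ) (((1 - t / 2 : ℝ) : ℂ) * ξ) * (((1 - t : ℝ) : ℂ) * ξ)
      = ((t * (3 - t) / 2 : ℝ) : ℂ) := by
    rw [map_mul, Complex.conj_ofReal]
    push_cast
    linear_combination (-(1 - (t:ℂ) / 2) * (1 - t)) * hss
  rw [e1, e2, norm_mul, hξ, mul_one, Complex.norm_real, Complex.norm_real, Real.norm_eq_abs,
    Real.norm_eq_abs, abs_of_pos (by positivity)]
  have h3 : 0 < t * (3 - t) / 2 := by
    have : 0 < 3 - t := by linarith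
    positivity
  rw [abs_of_pos h3, div_le_iff₀ h3]
  nlinarith

theorem TA_C (F : Fuchs Γ) (g h : Γ) :
    1 - ‖F.b h‖ ^ 2 ≤ 4 / (1 - ‖F.b g‖ ^ 2) * (1 - ‖F.b (g * h)‖ ^ 2) := by
  have hx : ‖F.act h 0‖ ≤ 1 := by rw [norm_act_zero]; exact (F.hb h).le
  have h1 := act_norm F g hx
  rw [← act_mul F g h (by simp), norm_act_zero, norm_act_zero] at h1
  have hb := F.hb g
  have hnb := norm_nonneg (F.b g)
  have hB : 0 < 1 - ‖F.b g‖ ^ 2 := by nlinarith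
  have hH : 0 < 1 - ‖F.b h‖ ^ 2 := by nlinarith [F.hb h, norm_nonneg (F.b h)]
  have hD : 0 < ‖1 - (starRingEnd ℂ) (F.b g) * F.act h 0‖ := norm_pos_iff.2 (den_ne hb hx)
  have hD2 : ‖1 - (starRingEnd ℂ) (F.b g) * F.act h 0‖ ≤ 2 := by
    have h2 := norm_sub_le (1:ℂ) ((starRingEnd ℂ) (F.b g) * F.act h 0)
    have h3 := MB_norm_lt hb hx
    rw [norm_one] at h2
    linarith
  rw [h1, ← mul_div_assoc, le_div_iff₀ (by positivity)]
  have e1 : 4 / (1 - ‖F.b g‖ ^ 2) * ((1 - ‖F.b g‖ ^ 2) * (1 - ‖F.b h‖ ^ 2))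
      = 4 * (1 - ‖F.b h‖ ^ 2) := by
    field_simp
  rw [e1]
  have h4 : ‖1 - (starRingEnd ℂ) (F.b g) * F.act h 0‖ ^ 2 ≤ 4 := by nlinarith
  nlinarith [mul_le_mul_of_nonneg_left h4 hH.le]

theorem exists_conical (F : Fuchs Γ) (hU : F.UC) {ξ : ℂ} (hξ : ξ ∈ F.lim) :
    ∃ d ρ K C, Conic F ξ d ρ K C := by
  obtain ⟨ρ', hρ', hU⟩ := hU
  have hξ1 : ‖ξ‖ = 1 := hξ.1
  have ht0 : ∀ n : ℕ, (0:ℝ) < 2⁻¹ ^ n := fun n => by positivity
  have ht1 : ∀ n : ℕ, (2⁻¹ : ℝ) ^ n ≤ 1 := fun n => pow_le_one₀ (by norm_num) (by norm_num)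
  have hr0 : ∀ n : ℕ, (0:ℝ) ≤ 1 - 2⁻¹ ^ n := fun n => by linarith [ht1 n]
  have hr1 : ∀ n : ℕ, (1 - 2⁻¹ ^ n : ℝ) < 1 := fun n => by linarith [ht0 n]
  choose d hd using fun n : ℕ => hU ξ hξ (1 - 2⁻¹ ^ n) (hr0 n) (hr1 n)
  obtain ⟨ρ, hρ⟩ : ∃ ρ, ρ = max ρ' 0 := ⟨_, rfl⟩
  have hρ0 : 0 ≤ ρ := hρ ▸ le_max_right _ _
  have hρ1 : ρ < 1 := hρ ▸ max_lt hρ' one_pos
  have hd' : ∀ n, ‖F.act (d n) ((1 - 2⁻¹ ^ n : ℝ) * ξ)‖ ≤ ρ := fun n =>
    (hd n).trans (hρ ▸ le_max_left _ _)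
  have hκ : 0 < 1 - ρ ^ 2 := by nlinarith
  have hxn : ∀ n : ℕ, ‖((1 - 2⁻¹ ^ n : ℝ) : ℂ) * ξ‖ < 1 := by
    intro n
    rw [norm_mul, hξ1, mul_one, Complex.norm_real, Real.norm_eq_abs, abs_of_nonneg (hr0 n)]
    exact hr1 n
  have hfin : (range fun n => d (n + 1) * (d n)⁻¹).Finite := by
    obtain ⟨s, hs, H⟩ := norm_le_of_pd (ρ := ρ) (r := 1 / 2) hρ1 (by norm_num)
    refine (proper F (max_lt hρ1 hs)).subset ?_
    rintro _ ⟨n, rfl⟩
    refine ⟨F.act (d n) ((1 - 2⁻¹ ^ n : ℝ) * ξ), (hd' n).trans (le_max_left _ _), ?_⟩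
    have h1 : F.act (d (n + 1) * (d n)⁻¹) (F.act (d n) ((1 - 2⁻¹ ^ n : ℝ) * ξ))
        = F.act (d (n + 1)) ((1 - 2⁻¹ ^ n : ℝ) * ξ) := by
      rw [act_mul F _ _ ((hd' n).trans hρ1.le), act_inv_act F _ (hxn n).le]
    rw [h1]
    refine (H _ _ (hd' (n + 1)) ?_ ?_).trans (le_max_right _ _)
    · exact mob_ball (F.hu _) (F.hb _) (hxn n)
    · rw [act_pd F _ (hxn (n + 1)).le (hxn n)]
      exact TA_pd hξ1 n
  obtain ⟨C, hC⟩ := (hfin.image fun g => 4 / (1 - ‖F.b g‖ ^ 2)).bddAbove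
  refine ⟨d, ρ, 4 / (1 - ρ ^ 2), max C 1, ⟨hρ0, hρ1, ?_, le_max_right _ _, hd', ?_, ?_, ?_, hfin⟩⟩
  · rw [le_div_iff₀ hκ]
    nlinarith
  · intro n
    exact (TA_bd F hξ1 (hr0 n) (hr1 n) hρ0 hρ1 (hd' n)).1
  · have h1 : ∀ n, 1 - 4 / (1 - ρ ^ 2) * 2⁻¹ ^ n ≤ ‖F.b (d n)‖ := by
      intro n
      have := (TA_bd F hξ1 (hr0 n) (hr1 n) hρ0 hρ1 (hd' n)).2
      rw [sub_sub_cancel] at this
      linarith
    have h2 : Tendsto (fun n : ℕ => 1 - 4 / (1 - ρ ^ 2) * (2⁻¹ : ℝ) ^ n) atTop (𝓝 1) := by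
      have h3 := (tendsto_pow_atTop_nhds_zero_of_lt_one (r := (2⁻¹ : ℝ)) (by norm_num)
        (by norm_num)).const_mul (4 / (1 - ρ ^ 2))
      simpa using h3.const_sub 1
    exact tendsto_of_tendsto_of_tendsto_of_le_of_le h2 tendsto_const_nhds h1
      (fun n => (F.hb (d n)).le)
  · intro n
    have h1 := TA_C F (d (n + 1) * (d n)⁻¹) (d n)
    rw [inv_mul_cancel_right] at h1
    have h2 : 4 / (1 - ‖F.b (d (n + 1) * (d n)⁻¹)‖ ^ 2) ≤ max C 1 :=
      (hC ⟨_, ⟨n, rfl⟩, rfl⟩).trans (le_max_left _ _)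
    have h3 : 0 ≤ 1 - ‖F.b (d (n + 1))‖ ^ 2 := by
      nlinarith [F.hb (d (n + 1)), norm_nonneg (F.b (d (n + 1)))]
    exact h1.trans (mul_le_mul_of_nonneg_right h2 h3)

theorem Conic.sep {F : Fuchs Γ} {ξ : ℂ} {d : ℕ → Γ} {ρ K C : ℝ} (h : Conic F ξ d ρ K C)
    (hξ : ‖ξ‖ = 1) (n : ℕ) : K⁻¹ ≤ dist (F.act (d n) ξ) (F.act (d n) 0) := by
  have hK : 0 < K := lt_of_lt_of_le one_pos h.K1
  rw [act_dist F _ hξ.le (by simp), dist_zero_right, hξ, mul_one, mul_zero, sub_zero, norm_one,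
    mul_one]
  have hD : 0 < ‖1 - (starRingEnd ℂ) (F.b (d n)) * ξ‖ := norm_pos_iff.2 (den_ne (F.hb _) hξ.le)
  rw [inv_eq_one_div, div_le_div_iff₀ hK hD, one_mul, mul_comm _ K]
  exact h.hK n

/-- if `d n * (θ (d n))⁻¹` takes a value infinitely often then `ξ` is conical for the centraliser -/
theorem Conic.con {F : Fuchs Γ} {e : Elt Γ} {ξ : ℂ} {d : ℕ → Γ} {ρ K C : ℝ}
    (h : Conic F ξ d ρ K C) (hξ : ‖ξ‖ = 1) {a : Γ} (ha : {n | d n * (e.θ (d n))⁻¹ = a}.Infinite) :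
    F.Con e.cen ξ := by
  obtain ⟨n0, hn0⟩ := ha.nonempty
  have ht0 : ∀ n : ℕ, (0:ℝ) < 2⁻¹ ^ n := fun n => by positivity
  have ht1 : ∀ n : ℕ, (2⁻¹ : ℝ) ^ n ≤ 1 := fun n => pow_le_one₀ (by norm_num) (by norm_num)
  obtain ⟨s, hs, H⟩ := norm_le_of_pd (ρ := ‖F.b (d n0)⁻¹‖) (r := ρ) (F.hb _) h.ρ1
  refine ⟨s, hs, ?_⟩
  intro r hr
  obtain ⟨N, hN⟩ := exists_pow_lt_of_lt_one (show (0:ℝ) < 1 - r by linarith)
    (show (2⁻¹ : ℝ) < 1 by norm_num)
  obtain ⟨n, hn, hNn⟩ := ha.exists_gt N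
  have h1 : (2⁻¹ : ℝ) ^ n ≤ 2⁻¹ ^ N :=
    pow_le_pow_of_le_one (by norm_num) (by norm_num) hNn.le
  refine ⟨1 - 2⁻¹ ^ n, by linarith, by linarith [ht1 n], by linarith [ht0 n], (d n0)⁻¹ * d n,
    ?_, ?_⟩
  · show e.θ ((d n0)⁻¹ * d n) = (d n0)⁻¹ * d n
    have e1 : e.θ (d n) = a⁻¹ * d n := by
      rw [← (hn : d n * (e.θ (d n))⁻¹ = a)]; group
    have e2 : e.θ (d n0) = a⁻¹ * d n0 := by
      rw [← (hn0 : d n0 * (e.θ (d n0))⁻¹ = a)]; group
    rw [map_mul, map_inv, e1, e2]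
    group
  · have hx : ‖((1 - 2⁻¹ ^ n : ℝ) : ℂ) * ξ‖ < 1 := by
      rw [norm_mul, hξ, mul_one, Complex.norm_real, Real.norm_eq_abs,
        abs_of_nonneg (by linarith [ht1 n])]
      linarith [ht0 n]
    rw [act_mul F _ _ hx.le]
    have hy := h.bd n
    have hy1 : ‖F.act (d n) ((1 - 2⁻¹ ^ n : ℝ) * ξ)‖ < 1 := lt_of_le_of_lt hy h.ρ1
    refine H (F.act (d n0)⁻¹ 0) _ (norm_act_zero F _).le ?_ ?_
    · exact mob_ball (F.hu _) (F.hb _) hy1
    · rw [act_pd F _ (by simp) hy1]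
      unfold pd
      simpa using hy

end TN

end S_H12_TN_TA

section S_H12_TN_TB

/-!
TB (dichotomy).  `Typ F H d ξ r n`: the map `H_n = act (d n) ∘ H ∘ act (d n)⁻¹` maps the complement of the ball of radius `r` about `act (d n) 0` into the ball of radius `r`
about `act (d n) ξ`.
`dichotomy`: assume the contrary for a sequence of `n` (frequently not) : there is a strictly increasing sequence `n_k` with neither.  Let `ε_k = d n_k * (e.θ (d n_k))⁻¹`;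
`act (d n) (e.H (act (d n)⁻¹ x)) = act (ε n) (e.H x)` (`equi` for `(d n)⁻¹`), and `act (d n) (e.Hi (act (d n)⁻¹ x)) = e.Hi (act (ε n)⁻¹ x)`.
Pass to subsequences: `act (d n) ξ → ξ'`, `act (d n) 0 → η'`, `‖ξ'‖ = ‖η'‖ = 1`, `ξ' ≠ η'` (`Conic.sep`), and `conv` for `ε`: `ε → p` off `q`, `ε⁻¹ → q` off `p`.
* `act ε (e.H (act d ξ)) = act d ξ → ξ'`, and `e.H (act d ξ) → e.H ξ'`: so `e.H ξ' ≠ q` implies `ξ' = p` (`conv_seq`).
* `act ε (e.H (act d 0)) = act d (e.H 0)`, at constant `pd`-distance `pd 0 (e.H 0) < 1` from `act d 0`, of norm tending to one, so it tends to `η'` (`pd_close`); so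
`e.H η' ≠ q` implies `η' = p`.
Since `ξ' ≠ η'` one of `e.H ξ'`, `e.H η'` is `q`, and not both.
Case `e.H η' = q`: `p = ξ'`.  For `x` in the closed disc, `r ≤ dist x (act d 0)`, for large index `r/2 ≤ dist x η'`, so `δ ≤ dist (e.H x) q` for a constant `δ > 0` (uniform
continuity of `e.Hi` on the closed disc), so `act ε (e.H x)` is `r/2`-close to `p = ξ'`, hence `r`-close to `act d ξ`: first alternative, contradiction.
Case `e.H ξ' = q`: `p = η'`.  For such `x`, `act ε⁻¹ x` is close to `q` uniformly, so `e.Hi (act ε⁻¹ x)` is close to `e.Hi q = ξ'`: second alternative, contradiction.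
`exclusive`: for `r ≤ K⁻¹ / 3`, `r ≤ 1/3`, `n` large (`‖act (d n) 0‖ ≥ 1/2`): apply the first to `x = 0` (`r ≤ dist 0 (act (d n) 0)`): `y = H_n 0` is `r`-close to `act (d n) ξ`, so at distance
`≥ K⁻¹ - r > r` from `act (d n) 0`; the second applied to `y` gives that `0` is `r`-close to `act (d n) ξ`, of norm one: contradiction.
`step`: with `β = d (n+1) * (d n)⁻¹`, `H_(n+1) = act β ∘ H_n ∘ act β⁻¹`; `β` is in a finite set so `act β`, `act β⁻¹` are Lipschitz with a common constant `L ≥ 1` on the closed disc (`act_dist`);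
`Typ H (r/L) n` implies `Typ H r (n+1)`.
`eventually`: let `r` be small, `r' = r / L`.  For large `n`: `Typ H r' n` or `Typ Hi r' n` (dichotomy); `Typ H r' n → Typ H r (n+1) → ¬ Typ Hi r (n+1) → ¬ Typ Hi r' (n+1)` (`Typ.mono`: `Typ r' → Typ r` for `r' ≤ r`)
`→ Typ H r' (n+1)`.  So if `Typ H r' n` for one large `n` then for all larger ones; otherwise `Typ Hi r' n` for all large `n`.  The alternative does not depend on `r` (small `r` implies larger `r`, and `exclusive`).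
-/

namespace TN
open Metric Set Filter Topology DS

variable {Γ : Type} [Group Γ]

def Typ (F : Fuchs Γ) (H : ℂ → ℂ) (d : ℕ → Γ) (ξ : ℂ) (r : ℝ) (n : ℕ) : Prop :=
  ∀ x ∈ closedBall (0:ℂ) 1, r ≤ dist x (F.act (d n) 0) →
    dist (F.act (d n) (H (F.act (d n)⁻¹ x))) (F.act (d n) ξ) < r

theorem Typ.mono {F : Fuchs Γ} {H : ℂ → ℂ} {d : ℕ → Γ} {ξ : ℂ} {r r' : ℝ} {n : ℕ}
    (h : Typ F H d ξ r' n) (hr : r' ≤ r) : Typ F H d ξ r n :=
  fun x hx hxr => (h x hx (hr.trans hxr)).trans_le hr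

theorem TB_key {F : Fuchs Γ} {e : Elt Γ} (he : Norm F e) (g : Γ) {x : ℂ}
    (hx : x ∈ closedBall (0:ℂ) 1) :
    F.act g (e.H (F.act g⁻¹ x)) = F.act (g * (e.θ g)⁻¹) (e.H x) := by
  have hHx : ‖e.H x‖ ≤ 1 := by simpa using he.mapC hx
  rw [he.equi g⁻¹ x hx, map_inv, act_mul F _ _ hHx]

theorem TB_key2 {F : Fuchs Γ} {e : Elt Γ} (he : Norm F e) (g : Γ) {x : ℂ}
    (hx : x ∈ closedBall (0:ℂ) 1) :
    F.act g (e.H x) = F.act (g * (e.θ g)⁻¹) (e.H (F.act g x)) := by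
  have hx1 : ‖x‖ ≤ 1 := by simpa using hx
  have hgx : F.act g x ∈ closedBall (0:ℂ) 1 := by simpa using act_le F g hx1
  rw [← TB_key he g hgx, act_inv_act F g hx1]

theorem TB_keyi {F : Fuchs Γ} {e : Elt Γ} (he : Norm F e) (g : Γ) {x : ℂ}
    (hx : x ∈ closedBall (0:ℂ) 1) :
    F.act g (e.Hi (F.act g⁻¹ x)) = e.Hi (F.act (g * (e.θ g)⁻¹)⁻¹ x) := by
  have hx1 : ‖x‖ ≤ 1 := by simpa using hx
  have hax : F.act (g * (e.θ g)⁻¹)⁻¹ x ∈ closedBall (0:ℂ) 1 := by simpa using act_le F _ hx1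
  have hgx : F.act g⁻¹ x ∈ closedBall (0:ℂ) 1 := by simpa using act_le F _ hx1
  set y := e.Hi (F.act (g * (e.θ g)⁻¹)⁻¹ x) with hy
  have hyC : y ∈ closedBall (0:ℂ) 1 := he.mapCi hax
  have hy1 : ‖y‖ ≤ 1 := by simpa using hyC
  have h1 : e.H y = F.act (g * (e.θ g)⁻¹)⁻¹ x := he.right _ hax
  have h2 := TB_key he g hyC
  rw [h1, act_act_inv F _ hx1] at h2
  have hgy : F.act g⁻¹ y ∈ closedBall (0:ℂ) 1 := by simpa using act_le F _ hy1
  have hHgy : ‖e.H (F.act g⁻¹ y)‖ ≤ 1 := by simpa using he.mapC hgy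
  have h3 : F.act g⁻¹ x = e.H (F.act g⁻¹ y) := by
    rw [← h2, act_inv_act F g hHgy]
  rw [h3, he.left _ hgy, act_act_inv F g hy1]

/-- all points of the open disc have the same limit on the circle -/
theorem TB_same {F : Fuchs Γ} {g : ℕ → Γ} {η x : ℂ} (hx : ‖x‖ < 1)
    (hb : Tendsto (fun n => ‖F.b (g n)‖) atTop (𝓝 1))
    (h0 : Tendsto (fun n => F.act (g n) 0) atTop (𝓝 η)) :
    Tendsto (fun n => F.act (g n) x) atTop (𝓝 η) := by
  have h1 : ∀ n, dist (F.act (g n) x) (F.act (g n) 0) ≤ (1 - ‖F.b (g n)‖ ^ 2) * (‖x‖ / (1 - ‖x‖)) := by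
    intro n
    have hbn := F.hb (g n)
    rw [act_dist F (g n) hx.le (by simp), mul_zero, sub_zero, norm_one, mul_one, dist_zero_right,
      mul_div_assoc]
    have h2 : 1 - ‖x‖ ≤ ‖1 - (starRingEnd ℂ) (F.b (g n)) * x‖ := by
      have h3 := norm_sub_norm_le (1 : ℂ) ((starRingEnd ℂ) (F.b (g n)) * x)
      rw [norm_one, norm_mul, RCLike.norm_conj] at h3
      have h4 : ‖F.b (g n)‖ * ‖x‖ ≤ ‖x‖ := mul_le_of_le_one_left (norm_nonneg _) hbn.le
      linarith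
    have h5 : 0 ≤ 1 - ‖F.b (g n)‖ ^ 2 := by
      have := pow_le_one₀ (n := 2) (norm_nonneg (F.b (g n))) hbn.le
      linarith
    exact mul_le_mul_of_nonneg_left
      (div_le_div_of_nonneg_left (norm_nonneg _) (by linarith) h2) h5
  have h2 : Tendsto (fun n => (1 - ‖F.b (g n)‖ ^ 2) * (‖x‖ / (1 - ‖x‖))) atTop (𝓝 0) := by
    have := ((hb.pow 2).const_sub 1).mul_const (‖x‖ / (1 - ‖x‖))
    simpa using this
  have h3 : Tendsto (fun n => dist (F.act (g n) x) (F.act (g n) 0)) atTop (𝓝 0) :=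
    squeeze_zero (fun _ => dist_nonneg) h1 h2
  exact (tendsto_iff_of_dist h3).2 h0

theorem dichotomy {F : Fuchs Γ} {e : Elt Γ} (he : Norm F e) {ξ : ℂ} (hξ : ‖ξ‖ = 1)
    (hf : e.H ξ = ξ) {d : ℕ → Γ} {ρ K C : ℝ} (h : Conic F ξ d ρ K C)
    (hfin : ∀ a, {n | d n * (e.θ (d n))⁻¹ = a}.Finite) {r : ℝ} (hr : 0 < r) :
    ∀ᶠ n in atTop, Typ F e.H d ξ r n ∨ Typ F e.Hi d ξ r n := by
  by_contra hcon
  rw [not_eventually] at hcon
  obtain ⟨φ₀, hφ₀, hno⟩ := extraction_of_frequently_atTop hcon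
  have hg : ∀ a, {n | d (φ₀ n) * (e.θ (d (φ₀ n)))⁻¹ = a}.Finite := fun a =>
    (hfin a).preimage (hφ₀.injective.injOn)
  obtain ⟨φ₁, hφ₁, p, hp, q, hq, _, _, hu, hui⟩ := conv F hg
  have hmem : ∀ n, ((F.act (d (φ₀ (φ₁ n))) ξ, F.act (d (φ₀ (φ₁ n))) 0) : ℂ × ℂ) ∈
      closedBall (0:ℂ) 1 ×ˢ closedBall (0:ℂ) 1 := fun n =>
    ⟨by simpa using act_le F _ hξ.le, by simpa using act_le F (d (φ₀ (φ₁ n))) (x := 0) (by simp)⟩
  obtain ⟨⟨ξ', η'⟩, _, φ₂, hφ₂, hlim⟩ :=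
    ((isCompact_closedBall (0:ℂ) 1).prod (isCompact_closedBall (0:ℂ) 1)).tendsto_subseq hmem
  set ψ : ℕ → ℕ := fun n => φ₀ (φ₁ (φ₂ n)) with hψ
  have hψm : StrictMono ψ := hφ₀.comp (hφ₁.comp hφ₂)
  have l1 : Tendsto (fun n => F.act (d (ψ n)) ξ) atTop (𝓝 ξ') := hlim.fst_nhds
  have l2 : Tendsto (fun n => F.act (d (ψ n)) 0) atTop (𝓝 η') := hlim.snd_nhds
  have hb : Tendsto (fun n => ‖F.b (d (ψ n))‖) atTop (𝓝 1) := h.b1.comp hψm.tendsto_atTop
  have nξ : ‖ξ'‖ = 1 := by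
    have h1 := l1.norm
    have h2 : (fun n => ‖F.act (d (ψ n)) ξ‖) = fun _ => (1:ℝ) := funext fun n => act_eq F _ hξ
    rw [h2] at h1
    exact (tendsto_nhds_unique h1 tendsto_const_nhds)
  have nη : ‖η'‖ = 1 := by
    have h1 := l2.norm
    have h2 : (fun n => ‖F.act (d (ψ n)) 0‖) = fun n => ‖F.b (d (ψ n))‖ :=
      funext fun n => norm_act_zero F _
    rw [h2] at h1
    exact (tendsto_nhds_unique h1 hb)
  have hK : 0 < K⁻¹ := inv_pos.2 (lt_of_lt_of_le one_pos h.K1)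
  have hne : ξ' ≠ η' := by
    intro heq
    have h1 : K⁻¹ ≤ dist ξ' η' :=
      ge_of_tendsto' (l1.dist l2) fun n => h.sep hξ (ψ n)
    rw [heq, dist_self] at h1
    linarith
  have hξC : ξ' ∈ closedBall (0:ℂ) 1 := by simp [nξ]
  have hηC : η' ∈ closedBall (0:ℂ) 1 := by simp [nη]
  have hqC : q ∈ closedBall (0:ℂ) 1 := by simp [lim_sphere F hq]
  -- uniform convergence along the subsequence
  have hu' : ∀ η > 0, ∀ ε > 0, ∀ᶠ n in atTop, ∀ x ∈ closedBall (0:ℂ) 1, η ≤ dist x q →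
      dist (F.act (d (ψ n) * (e.θ (d (ψ n)))⁻¹) x) p < ε := fun η hη ε hε =>
    hφ₂.tendsto_atTop.eventually (hu η hη ε hε)
  have hui' : ∀ η > 0, ∀ ε > 0, ∀ᶠ n in atTop, ∀ x ∈ closedBall (0:ℂ) 1, η ≤ dist x p →
      dist (F.act (d (ψ n) * (e.θ (d (ψ n)))⁻¹)⁻¹ x) q < ε := fun η hη ε hε =>
    hφ₂.tendsto_atTop.eventually (hui η hη ε hε)
  have hDξ : ∀ n, F.act (d (ψ n)) ξ ∈ closedBall (0:ℂ) 1 := fun n => by
    simpa using act_le F _ hξ.le
  have hD0 : ∀ n, F.act (d (ψ n)) 0 ∈ closedBall (0:ℂ) 1 := fun n => by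
    simpa using act_le F (d (ψ n)) (x := 0) (by simp)
  have hHc : ∀ {y : ℕ → ℂ} {z : ℂ}, (∀ n, y n ∈ closedBall (0:ℂ) 1) → z ∈ closedBall (0:ℂ) 1 →
      Tendsto y atTop (𝓝 z) → Tendsto (fun n => e.H (y n)) atTop (𝓝 (e.H z)) := by
    intro y z hy hz hyz
    exact (he.cont z hz).tendsto.comp (tendsto_nhdsWithin_iff.2
      ⟨hyz, Eventually.of_forall hy⟩)
  have a1 : e.H ξ' ≠ q → ξ' = p := by
    intro hne'
    have t1 : Tendsto (fun n => e.H (F.act (d (ψ n)) ξ)) atTop (𝓝 (e.H ξ')) := hHc hDξ hξC l1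
    have t2 := conv_seq F (g := fun n => d (ψ n) * (e.θ (d (ψ n)))⁻¹) hu'
      (fun n => he.mapC (hDξ n)) t1 hne'
    have t3 : ∀ n, F.act (d (ψ n) * (e.θ (d (ψ n)))⁻¹) (e.H (F.act (d (ψ n)) ξ)) =
        F.act (d (ψ n)) ξ := by
      intro n
      rw [← TB_key2 he _ (by simp [hξ]), hf]
    exact tendsto_nhds_unique l1 (t2.congr t3)
  have h0C : (0:ℂ) ∈ closedBall (0:ℂ) 1 := by simp
  have nH0 : ‖e.H 0‖ < 1 := by
    have := he.mapB (x := 0) (by simp)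
    simpa using this
  have a2 : e.H η' ≠ q → η' = p := by
    intro hne'
    have t1 : Tendsto (fun n => e.H (F.act (d (ψ n)) 0)) atTop (𝓝 (e.H η')) := hHc hD0 hηC l2
    have t2 := conv_seq F (g := fun n => d (ψ n) * (e.θ (d (ψ n)))⁻¹) hu'
      (fun n => he.mapC (hD0 n)) t1 hne'
    have t3 : ∀ n, F.act (d (ψ n) * (e.θ (d (ψ n)))⁻¹) (e.H (F.act (d (ψ n)) 0)) =
        F.act (d (ψ n)) (e.H 0) := by
      intro n
      rw [← TB_key2 he _ h0C]
    have t4 : Tendsto (fun n => F.act (d (ψ n)) (e.H 0)) atTop (𝓝 η') := TB_same nH0 hb l2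
    exact tendsto_nhds_unique t4 (t2.congr t3)
  have hinj : e.H ξ' = e.H η' → False := fun heq => hne (he.inj hξC hηC heq)
  -- continuity of the inverse at `q`
  have hδ : ∃ δ > 0, ∀ a ∈ closedBall (0:ℂ) 1, dist a q < δ → dist (e.Hi a) (e.Hi q) < r / 2 := by
    have hc := he.conti q hqC
    rw [Metric.continuousWithinAt_iff] at hc
    obtain ⟨δ, hδ, H⟩ := hc (r / 2) (by linarith)
    exact ⟨δ, hδ, fun a ha hd => H ha hd⟩
  obtain ⟨δ, hδ0, hδ⟩ := hδ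
  have e1 : ∀ᶠ n in atTop, dist (F.act (d (ψ n)) ξ) ξ' < r / 2 :=
    (Metric.tendsto_nhds.1 l1) (r / 2) (by linarith)
  have e2 : ∀ᶠ n in atTop, dist (F.act (d (ψ n)) 0) η' < r / 2 :=
    (Metric.tendsto_nhds.1 l2) (r / 2) (by linarith)
  by_cases hc : e.H η' = q
  · have hpξ : ξ' = p := a1 fun h' => hinj (h'.trans hc.symm)
    have hHiq : e.Hi q = η' := by rw [← hc, he.left _ hηC]
    obtain ⟨n, h1, h2, h3⟩ := (e1.and (e2.and (hu' δ hδ0 (r / 2) (by linarith)))).exists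
    refine hno (φ₁ (φ₂ n)) (Or.inl ?_)
    intro x hx hxr
    change r ≤ dist x (F.act (d (ψ n)) 0) at hxr
    change dist (F.act (d (ψ n)) (e.H (F.act (d (ψ n))⁻¹ x))) (F.act (d (ψ n)) ξ) < r
    rw [TB_key he _ hx]
    have h4 : r / 2 ≤ dist x η' := by
      have := dist_triangle x η' (F.act (d (ψ n)) 0)
      rw [dist_comm η'] at this
      linarith
    have h5 : δ ≤ dist (e.H x) q := by
      by_contra hlt
      push Not at hlt
      have := hδ _ (he.mapC hx) hlt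
      rw [he.left _ hx, hHiq] at this
      linarith
    have h6 := h3 (e.H x) (he.mapC hx) h5
    rw [← hpξ] at h6
    calc dist (F.act (d (ψ n) * (e.θ (d (ψ n)))⁻¹) (e.H x)) (F.act (d (ψ n)) ξ)
        ≤ dist (F.act (d (ψ n) * (e.θ (d (ψ n)))⁻¹) (e.H x)) ξ' +
          dist (F.act (d (ψ n)) ξ) ξ' := dist_triangle_right _ _ _
      _ < r := by linarith
  · have hpη : η' = p := a2 hc
    have hHξ : e.H ξ' = q := by
      by_contra h'
      exact hne ((a1 h').trans hpη.symm)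
    have hHiq : e.Hi q = ξ' := by rw [← hHξ, he.left _ hξC]
    obtain ⟨n, h1, h2, h3⟩ := (e1.and (e2.and (hui' (r / 2) (by linarith) δ hδ0))).exists
    refine hno (φ₁ (φ₂ n)) (Or.inr ?_)
    intro x hx hxr
    change r ≤ dist x (F.act (d (ψ n)) 0) at hxr
    change dist (F.act (d (ψ n)) (e.Hi (F.act (d (ψ n))⁻¹ x))) (F.act (d (ψ n)) ξ) < r
    rw [TB_keyi he _ hx]
    have hx1 : ‖x‖ ≤ 1 := by simpa using hx
    have h4 : r / 2 ≤ dist x p := by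
      have := dist_triangle x η' (F.act (d (ψ n)) 0)
      rw [dist_comm η'] at this
      rw [← hpη]
      linarith
    have h5 := h3 x hx h4
    have h6 := hδ _ (by simpa using act_le F _ hx1) h5
    rw [hHiq] at h6
    calc dist (e.Hi (F.act (d (ψ n) * (e.θ (d (ψ n)))⁻¹)⁻¹ x)) (F.act (d (ψ n)) ξ)
        ≤ dist (e.Hi (F.act (d (ψ n) * (e.θ (d (ψ n)))⁻¹)⁻¹ x)) ξ' +
          dist (F.act (d (ψ n)) ξ) ξ' := dist_triangle_right _ _ _
      _ < r := by linarith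

theorem Typ.exclusive {F : Fuchs Γ} {e : Elt Γ} (he : Norm F e) {ξ : ℂ} (hξ : ‖ξ‖ = 1)
    {d : ℕ → Γ} {ρ K C : ℝ} (h : Conic F ξ d ρ K C) {r : ℝ} (hr : 0 < r) (hrK : 3 * r ≤ K⁻¹) :
    ∀ᶠ n in atTop, Typ F e.H d ξ r n → ¬ Typ F e.Hi d ξ r n := by
  have hK1 : K⁻¹ ≤ 1 := inv_le_one_of_one_le₀ h.K1
  have h1 : ∀ᶠ n in atTop, 1 / 2 < ‖F.b (d n)‖ := h.b1.eventually_const_lt (by norm_num)
  filter_upwards [h1] with n hn t1 t2
  have h0C : (0:ℂ) ∈ closedBall (0:ℂ) 1 := by simp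
  have h2 : r ≤ dist 0 (F.act (d n) 0) := by
    rw [dist_zero_left, norm_act_zero]
    linarith
  have h3 := t1 0 h0C h2
  have hd0 : F.act (d n)⁻¹ 0 ∈ closedBall (0:ℂ) 1 := by
    simpa using act_le F (d n)⁻¹ (x := 0) (by simp)
  have hH : e.H (F.act (d n)⁻¹ 0) ∈ closedBall (0:ℂ) 1 := he.mapC hd0
  have hH1 : ‖e.H (F.act (d n)⁻¹ 0)‖ ≤ 1 := by simpa using hH
  set y := F.act (d n) (e.H (F.act (d n)⁻¹ 0)) with hy
  have hyC : y ∈ closedBall (0:ℂ) 1 := by simpa using act_le F (d n) hH1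
  have h4 := h.sep hξ n
  have h5 : r ≤ dist y (F.act (d n) 0) := by
    have h6 := dist_triangle (F.act (d n) ξ) y (F.act (d n) 0)
    rw [dist_comm (F.act (d n) ξ) y] at h6
    linarith
  have h7 := t2 y hyC h5
  rw [hy, act_inv_act F _ hH1, he.left _ hd0, act_act_inv F _ (by simp), dist_zero_left,
    act_eq F _ hξ] at h7
  linarith

theorem TB_lip {F : Fuchs Γ} (g : Γ) {x y : ℂ} (hx : ‖x‖ ≤ 1) (hy : ‖y‖ ≤ 1) :
    dist (F.act g x) (F.act g y) ≤ 2 / (1 - ‖F.b g‖) * dist x y := by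
  have hb := F.hb g
  have hb0 : 0 < 1 - ‖F.b g‖ := by linarith
  have hden : ∀ {z : ℂ}, ‖z‖ ≤ 1 → 1 - ‖F.b g‖ ≤ ‖1 - (starRingEnd ℂ) (F.b g) * z‖ := by
    intro z hz
    have h3 := norm_sub_norm_le (1 : ℂ) ((starRingEnd ℂ) (F.b g) * z)
    rw [norm_one, norm_mul, RCLike.norm_conj] at h3
    have h4 : ‖F.b g‖ * ‖z‖ ≤ ‖F.b g‖ := mul_le_of_le_one_right (norm_nonneg _) hz
    linarith
  rw [act_dist F g hx hy]
  have h1 : (1 - ‖F.b g‖) * (1 - ‖F.b g‖) ≤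
      ‖1 - (starRingEnd ℂ) (F.b g) * x‖ * ‖1 - (starRingEnd ℂ) (F.b g) * y‖ :=
    mul_le_mul (hden hx) (hden hy) hb0.le (norm_nonneg _)
  have h2 : 0 ≤ (1 - ‖F.b g‖ ^ 2) * dist x y := by
    have := pow_le_one₀ (n := 2) (norm_nonneg (F.b g)) hb.le
    exact mul_nonneg (by linarith) dist_nonneg
  refine (div_le_div_of_nonneg_left h2 (mul_pos hb0 hb0) h1).trans ?_
  rw [div_mul_eq_mul_div, div_le_div_iff₀ (mul_pos hb0 hb0) hb0]
  have h3 : (1 - ‖F.b g‖ ^ 2) ≤ 2 * (1 - ‖F.b g‖) := by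
    nlinarith [norm_nonneg (F.b g)]
  have h4 : (1 - ‖F.b g‖ ^ 2) * (dist x y * (1 - ‖F.b g‖)) ≤
      2 * (1 - ‖F.b g‖) * (dist x y * (1 - ‖F.b g‖)) :=
    mul_le_mul_of_nonneg_right h3 (mul_nonneg dist_nonneg hb0.le)
  linarith [h4]

theorem Typ.step {F : Fuchs Γ} {e : Elt Γ} (he : Norm F e) {ξ : ℂ} (hξ : ‖ξ‖ = 1)
    {d : ℕ → Γ} {ρ K C : ℝ} (h : Conic F ξ d ρ K C) :
    ∃ L : ℝ, 1 ≤ L ∧ ∀ r > 0, ∀ n, Typ F e.H d ξ (r / L) n → Typ F e.H d ξ r (n + 1) := by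
  obtain ⟨M, hM⟩ := (h.fin.image fun g => 2 / (1 - ‖F.b g‖)).bddAbove
  refine ⟨max M 1, le_max_right _ _, fun r hr n ht x hx hxr => ?_⟩
  set L := max M 1 with hL
  have hL1 : 1 ≤ L := le_max_right _ _
  have hL0 : 0 < L := by linarith
  set β := d (n + 1) * (d n)⁻¹ with hβ
  have hβL : 2 / (1 - ‖F.b β‖) ≤ L :=
    (hM ⟨β, ⟨n, rfl⟩, rfl⟩).trans (le_max_left _ _)
  have hlip : ∀ {x y : ℂ}, ‖x‖ ≤ 1 → ‖y‖ ≤ 1 → dist (F.act β x) (F.act β y) ≤ L * dist x y :=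
    fun hx hy => (TB_lip β hx hy).trans (mul_le_mul_of_nonneg_right hβL dist_nonneg)
  have hx1 : ‖x‖ ≤ 1 := by simpa using hx
  have hd : d (n + 1) = β * d n := by rw [hβ]; group
  have hdi : (d n)⁻¹ * β⁻¹ = (d (n + 1))⁻¹ := by rw [hβ]; group
  set x' := F.act β⁻¹ x with hx'
  have hx'1 : ‖x'‖ ≤ 1 := act_le F _ hx1
  have hx'C : x' ∈ closedBall (0:ℂ) 1 := by simpa using hx'1
  have hxx' : F.act β x' = x := act_act_inv F _ hx1
  have h01 : ‖F.act (d n) 0‖ ≤ 1 := act_le F _ (by simp)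
  have h1 : r ≤ L * dist x' (F.act (d n) 0) := by
    rw [hd, act_mul F _ _ (by simp), ← hxx'] at hxr
    exact hxr.trans (hlip hx'1 h01)
  have h2 : r / L ≤ dist x' (F.act (d n) 0) := by
    rw [div_le_iff₀ hL0, mul_comm]
    exact h1
  have h3 := ht x' hx'C h2
  have e1 : F.act (d n)⁻¹ x' = F.act (d (n + 1))⁻¹ x := by
    rw [hx', ← act_mul F _ _ hx1, hdi]
  rw [e1] at h3
  have hz : F.act (d (n + 1))⁻¹ x ∈ closedBall (0:ℂ) 1 := by simpa using act_le F _ hx1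
  have hHz : ‖e.H (F.act (d (n + 1))⁻¹ x)‖ ≤ 1 := by simpa using he.mapC hz
  rw [hd, act_mul F β (d n) hξ.le, act_mul F β (d n) (by rw [← hd]; exact hHz), ← hd]
  refine (hlip (act_le F _ hHz) (act_le F _ hξ.le)).trans_lt ?_
  rw [← lt_div_iff₀' hL0]
  exact h3

theorem eventually_typ {F : Fuchs Γ} {e : Elt Γ} (he : Norm F e) {ξ : ℂ} (hξ : ‖ξ‖ = 1)
    (hf : e.H ξ = ξ) {d : ℕ → Γ} {ρ K C : ℝ} (h : Conic F ξ d ρ K C)
    (hfin : ∀ a, {n | d n * (e.θ (d n))⁻¹ = a}.Finite) :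
    (∀ r > 0, ∀ᶠ n in atTop, Typ F e.H d ξ r n) ∨ (∀ r > 0, ∀ᶠ n in atTop, Typ F e.Hi d ξ r n) := by
  obtain ⟨L, hL1, hstep⟩ := Typ.step he hξ h
  have hL0 : 0 < L := by linarith
  have hK0 : 0 < K⁻¹ := inv_pos.2 (lt_of_lt_of_le one_pos h.K1)
  set r₀ := K⁻¹ / 3 with hr₀
  have hr₀0 : 0 < r₀ := by positivity
  have hr₀K : 3 * r₀ ≤ K⁻¹ := by rw [hr₀]; linarith
  set r' := r₀ / L with hr'
  have hr'0 : 0 < r' := by positivity
  have hr'r : r' ≤ r₀ := div_le_self hr₀0.le hL1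
  have hr'K : 3 * r' ≤ K⁻¹ := by linarith
  have ev := ((dichotomy he hξ hf h hfin hr'0).and
    ((Typ.exclusive he hξ h hr₀0 hr₀K).and (Typ.exclusive he hξ h hr'0 hr'K)))
  obtain ⟨N, hN⟩ := eventually_atTop.1 ev
  have hprop : ∀ n ≥ N, Typ F e.H d ξ r' n → Typ F e.H d ξ r' (n + 1) := by
    intro n hn ht
    have h1 : Typ F e.H d ξ r₀ (n + 1) := hstep r₀ hr₀0 n ht
    have h2 := (hN (n + 1) (by omega)).2.1 h1
    rcases (hN (n + 1) (by omega)).1 with h3 | h3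
    · exact h3
    · exact absurd (h3.mono hr'r) h2
  by_cases hex : ∃ n₀ ≥ N, Typ F e.H d ξ r' n₀
  · left
    obtain ⟨n₀, hn₀, ht₀⟩ := hex
    have hall : ∀ n ≥ n₀, Typ F e.H d ξ r' n := by
      intro n hn
      induction n, hn using Nat.le_induction with
      | base => exact ht₀
      | succ n hn ih => exact hprop n (hn₀.trans hn) ih
    intro r hr
    rcases le_total r' r with hle | hle
    · exact eventually_atTop.2 ⟨n₀, fun n hn => (hall n hn).mono hle⟩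
    · filter_upwards [dichotomy he hξ hf h hfin hr, eventually_ge_atTop n₀] with n h1 h2
      rcases h1 with h1 | h1
      · exact h1
      · exact absurd (h1.mono hle) ((hN n (hn₀.trans h2)).2.2 (hall n h2))
  · right
    push Not at hex
    have hall : ∀ n ≥ N, Typ F e.Hi d ξ r' n := fun n hn =>
      ((hN n hn).1).resolve_left (hex n hn)
    intro r hr
    rcases le_total r' r with hle | hle
    · exact eventually_atTop.2 ⟨N, fun n hn => (hall n hn).mono hle⟩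
    · filter_upwards [dichotomy he hξ hf h hfin hr, eventually_ge_atTop N] with n h1 h2
      rcases h1 with h1 | h1
      · exact absurd (h1.mono hle) (hex n h2)
      · exact h1

end TN

end S_H12_TN_TB

section S_H12_TN_TD

/-!
TD (superattracting points).  `SA_of_typ`: put `b_n = F.b (d n)`, `δ_n = 1 - ‖b_n‖² → 0`, `δ_n ≤ C δ_(n+1)`.  Let `r > 0` be small:
`r K ≤ 1/4`.  Put `M = 1/(2r) - K ≥ 1/(4r)`.  For large `n ≥ N`: `Typ F H d ξ r n`.
(1) if `x` is in the closed disc, `1/2 ≤ ‖x‖`, `dist x ξ ≤ M δ_n`, `n ≥ N`, then `‖1 - conj b_n x‖ ≤ ‖1 - conj b_n ξ‖ + dist x ξ ≤ (K + M) δ_n`, so by `act_dist`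
`dist (act (d n) x) (act (d n) 0) = δ_n ‖x‖ / ‖1 - conj b_n x‖ ≥ 1/(2 (K+M)) = r`.  By `Typ` at `act (d n) x`: `dist (act (d n) (H x)) (act (d n) ξ) < r`.
(2) `H x` is in the closed disc and by `act_dist` `dist (H x) ξ = dist (act (d n) (H x)) (act (d n) ξ) ‖1 - conj b_n (H x)‖ ‖1 - conj b_n ξ‖ / δ_n ≤ r K ‖1 - conj b_n (H x)‖ ≤
r K (K δ_n + dist (H x) ξ)`, hence `dist (H x) ξ ≤ 2 r K² δ_n`.
(3) given `x ≠ ξ` with `dist x ξ ≤ M δ_N`, `1/2 ≤ ‖x‖`, let `n ≥ N` be the largest index with `dist x ξ ≤ M δ_n` (exists as `δ_n → 0`); then `M δ_(n+1) < dist x ξ`, so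
`δ_n < C dist x ξ / M ≤ 4 r C dist x ξ` and `dist (H x) ξ ≤ 8 r² K² C dist x ξ`.  Given `ε` choose `r` with `8 r² K² C ≤ ε`.
`trich`: `exists_conical`; if some value of `d n * (θ (d n))⁻¹` is taken infinitely often: `Conic.con`.  Otherwise `eventually_typ` and `SA_of_typ` for `e.H` resp. `e.Hi`
(`e.Hi ξ = ξ`).
-/

namespace TN
open Metric Set Filter Topology DS

variable {Γ : Type} [Group Γ]

theorem TD_conj {b x y : ℂ} (hb : ‖b‖ ≤ 1) :
    ‖1 - (starRingEnd ℂ) b * x‖ ≤ ‖1 - (starRingEnd ℂ) b * y‖ + dist x y := by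
  have e : 1 - (starRingEnd ℂ) b * x = (1 - (starRingEnd ℂ) b * y) - (starRingEnd ℂ) b * (x - y) := by ring
  rw [e]
  calc _ ≤ ‖1 - (starRingEnd ℂ) b * y‖ + ‖(starRingEnd ℂ) b * (x - y)‖ := norm_sub_le _ _
    _ ≤ _ := by
      rw [norm_mul, RCLike.norm_conj, dist_eq_norm]
      have := mul_le_mul_of_nonneg_right hb (norm_nonneg (x - y))
      linarith

theorem TD_pos {b x : ℂ} (hb : ‖b‖ < 1) (hx : ‖x‖ ≤ 1) : 0 < ‖1 - (starRingEnd ℂ) b * x‖ := by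
  rw [norm_pos_iff]
  intro h0
  have h1 : (starRingEnd ℂ) b * x = 1 := by linear_combination -h0
  have h2 : ‖(starRingEnd ℂ) b * x‖ = 1 := by rw [h1]; simp
  rw [norm_mul, RCLike.norm_conj] at h2
  nlinarith [norm_nonneg b, norm_nonneg x]

/-- the basic estimate -/
theorem TD_est {F : Fuchs Γ} {H : ℂ → ℂ} (hH : MapsTo H (closedBall 0 1) (closedBall 0 1))
    {ξ : ℂ} (hξ : ‖ξ‖ = 1) {d : ℕ → Γ} {ρ K C : ℝ} (h : Conic F ξ d ρ K C) {r : ℝ} (hr : 0 < r)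
    (hrK : r * K ≤ 1 / 4) {n : ℕ} (ht : Typ F H d ξ r n) {x : ℂ} (hx : ‖x‖ ≤ 1) (hx2 : 1 / 2 ≤ ‖x‖)
    (hd : dist x ξ ≤ 1 / (4 * r) * (1 - ‖F.b (d n)‖ ^ 2)) :
    dist (H x) ξ ≤ 2 * r * K ^ 2 * (1 - ‖F.b (d n)‖ ^ 2) := by
  set b := F.b (d n) with hbd
  have hb : ‖b‖ < 1 := F.hb (d n)
  set δ := 1 - ‖b‖ ^ 2 with hδd
  have hδ : 0 < δ := by rw [hδd]; nlinarith [norm_nonneg b]
  have hK : 1 ≤ K := h.K1
  have hKn : ‖1 - (starRingEnd ℂ) b * ξ‖ ≤ K * δ := h.hK n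
  have hxx := TD_pos hb hx
  have hξξ := TD_pos hb hξ.le
  have hHx : ‖H x‖ ≤ 1 := by
    have := hH (x := x) (by rwa [mem_closedBall_zero_iff])
    rwa [mem_closedBall_zero_iff] at this
  have hHH := TD_pos hb hHx
  have h1 : ‖1 - (starRingEnd ℂ) b * x‖ ≤ (K + 1 / (4 * r)) * δ := by
    have := TD_conj (x := x) (y := ξ) hb.le
    linarith
  have h2 : K + 1 / (4 * r) ≤ 1 / (2 * r) := by
    have : K ≤ 1 / (4 * r) := by rw [le_div_iff₀ (by positivity)]; linarith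
    have e : 1 / (2 * r) = 1 / (4 * r) + 1 / (4 * r) := by field_simp; ring
    linarith
  have h3 : r ≤ dist (F.act (d n) x) (F.act (d n) 0) := by
    rw [act_dist F (d n) hx (by simp), ← hbd]
    have e : (1 - ‖b‖ ^ 2) * dist x 0 / (‖1 - (starRingEnd ℂ) b * x‖ * ‖1 - (starRingEnd ℂ) b * 0‖) =
      δ * ‖x‖ / ‖1 - (starRingEnd ℂ) b * x‖ := by simp [hδd]
    rw [e, le_div_iff₀ hxx]
    have h4 : ‖1 - (starRingEnd ℂ) b * x‖ ≤ 1 / (2 * r) * δ :=
      h1.trans (mul_le_mul_of_nonneg_right h2 hδ.le)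
    calc r * ‖1 - (starRingEnd ℂ) b * x‖ ≤ r * (1 / (2 * r) * δ) := mul_le_mul_of_nonneg_left h4 hr.le
      _ = δ * (1 / 2) := by field_simp
      _ ≤ δ * ‖x‖ := mul_le_mul_of_nonneg_left hx2 hδ.le
  have h4 := ht (F.act (d n) x) (by rw [mem_closedBall_zero_iff]; exact act_le F _ hx) h3
  rw [act_inv_act F (d n) hx, act_dist F (d n) hHx hξ.le, ← hbd, div_lt_iff₀ (by positivity)] at h4
  have h5 : δ * dist (H x) ξ ≤ r * (‖1 - (starRingEnd ℂ) b * H x‖ * (K * δ)) := by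
    refine h4.le.trans (mul_le_mul_of_nonneg_left (mul_le_mul_of_nonneg_left hKn hHH.le) hr.le)
  have h6 : dist (H x) ξ ≤ r * K * ‖1 - (starRingEnd ℂ) b * H x‖ := by
    have : δ * dist (H x) ξ ≤ δ * (r * K * ‖1 - (starRingEnd ℂ) b * H x‖) := by
      refine h5.trans (le_of_eq ?_)
      ring
    exact le_of_mul_le_mul_left this hδ
  have h7 : ‖1 - (starRingEnd ℂ) b * H x‖ ≤ K * δ + dist (H x) ξ := by
    have := TD_conj (x := H x) (y := ξ) hb.le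
    linarith
  have h8 : r * K * ‖1 - (starRingEnd ℂ) b * H x‖ ≤ r * K * (K * δ + dist (H x) ξ) :=
    mul_le_mul_of_nonneg_left h7 (by positivity)
  have h9 : r * K * dist (H x) ξ ≤ 1 / 4 * dist (H x) ξ := mul_le_mul_of_nonneg_right hrK dist_nonneg
  have h10 : r * K * (K * δ + dist (H x) ξ) = r * K ^ 2 * δ + r * K * dist (H x) ξ := by ring
  have h11 : 2 * r * K ^ 2 * δ = 2 * (r * K ^ 2 * δ) := by ring
  have h12 : 0 ≤ r * K ^ 2 * δ := by positivity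
  rw [h11]
  linarith [dist_nonneg (x := H x) (y := ξ)]

theorem SA_of_typ {F : Fuchs Γ} {H : ℂ → ℂ} (hH : MapsTo H (closedBall 0 1) (closedBall 0 1))
    {ξ : ℂ} (hξ : ‖ξ‖ = 1) (hf : H ξ = ξ) {d : ℕ → Γ} {ρ K C : ℝ} (h : Conic F ξ d ρ K C)
    (ht : ∀ r > 0, ∀ᶠ n in atTop, Typ F H d ξ r n) : SA H ξ := by
  refine ⟨hf, ?_⟩
  intro ε hε
  have hK : 1 ≤ K := h.K1
  have hC : 1 ≤ C := h.C1
  set r : ℝ := min (1 / (4 * K)) (ε / (8 * K ^ 2 * C)) with hrd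
  have hr : 0 < r := lt_min (by positivity) (by positivity)
  have hr1 : r ≤ 1 / (4 * K) := min_le_left _ _
  have hr2 : r ≤ ε / (8 * K ^ 2 * C) := min_le_right _ _
  have hrK : r * K ≤ 1 / 4 := by
    calc r * K ≤ 1 / (4 * K) * K := mul_le_mul_of_nonneg_right hr1 (by positivity)
      _ = 1 / 4 := by field_simp
  have hrle : r ≤ 1 := by nlinarith
  have hrε : 8 * r ^ 2 * K ^ 2 * C ≤ ε := by
    rw [le_div_iff₀ (by positivity)] at hr2
    have h1 : r ^ 2 ≤ r := by nlinarith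
    calc 8 * r ^ 2 * K ^ 2 * C = r ^ 2 * (8 * K ^ 2 * C) := by ring
      _ ≤ r * (8 * K ^ 2 * C) := mul_le_mul_of_nonneg_right h1 (by positivity)
      _ ≤ ε := hr2
  obtain ⟨N, hN⟩ := eventually_atTop.1 (ht r hr)
  have hδpos : ∀ n, 0 < 1 - ‖F.b (d n)‖ ^ 2 := by
    intro n
    have := F.hb (d n)
    nlinarith [norm_nonneg (F.b (d n))]
  have hδlim : Tendsto (fun n => 1 / (4 * r) * (1 - ‖F.b (d n)‖ ^ 2)) atTop (𝓝 0) := by
    have h1 := ((h.b1.pow 2).const_sub 1).const_mul (1 / (4 * r))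
    simpa using h1
  refine ⟨min (1 / (4 * r) * (1 - ‖F.b (d N)‖ ^ 2)) (1 / 2),
    lt_min (mul_pos (by positivity) (hδpos N)) (by norm_num), ?_⟩
  intro x hx hxd
  rw [mem_closedBall_zero_iff] at hx
  by_cases hxξ : x = ξ
  · rw [hxξ, hf]; simp
  · have hpos : 0 < dist x ξ := dist_pos.2 hxξ
    have hx2 : 1 / 2 ≤ ‖x‖ := by
      have h1 : dist x ξ < 1 / 2 := lt_of_lt_of_le hxd (min_le_right _ _)
      have h2 : ‖ξ‖ ≤ ‖x‖ + dist x ξ := by
        rw [dist_eq_norm]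
        calc ‖ξ‖ = ‖x - (x - ξ)‖ := by ring_nf
          _ ≤ _ := norm_sub_le _ _
      rw [hξ] at h2
      linarith
    have hex : ∃ j, 1 / (4 * r) * (1 - ‖F.b (d (N + j))‖ ^ 2) < dist x ξ := by
      obtain ⟨j, hj⟩ := ((hδlim.eventually (gt_mem_nhds hpos)).and (eventually_ge_atTop N)).exists
      exact ⟨j - N, by rw [Nat.add_sub_cancel' hj.2]; exact hj.1⟩
    classical
    have hm0 : Nat.find hex ≠ 0 := by
      intro h0
      have := Nat.find_spec hex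
      rw [h0, add_zero] at this
      exact absurd (lt_of_lt_of_le hxd (min_le_left _ _)) (not_lt.2 this.le)
    obtain ⟨j, hj⟩ := Nat.exists_eq_succ_of_ne_zero hm0
    have hlast : dist x ξ ≤ 1 / (4 * r) * (1 - ‖F.b (d (N + j))‖ ^ 2) := by
      have := Nat.find_min hex (m := j) (by omega)
      exact not_lt.1 this
    have hnext : 1 / (4 * r) * (1 - ‖F.b (d (N + j + 1))‖ ^ 2) < dist x ξ := by
      have := Nat.find_spec hex
      rw [hj] at this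
      exact this
    have h1 := TD_est hH hξ h hr hrK (hN (N + j) (by omega)) hx hx2 hlast
    have h2 := h.hC (N + j)
    have h3 : 1 - ‖F.b (d (N + j + 1))‖ ^ 2 ≤ 4 * r * dist x ξ := by
      have : 1 - ‖F.b (d (N + j + 1))‖ ^ 2 = 4 * r * (1 / (4 * r) * (1 - ‖F.b (d (N + j + 1))‖ ^ 2)) := by
        field_simp
      rw [this]
      exact mul_le_mul_of_nonneg_left hnext.le (by positivity)
    have h4 : 1 - ‖F.b (d (N + j))‖ ^ 2 ≤ C * (4 * r * dist x ξ) :=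
      h2.trans (mul_le_mul_of_nonneg_left h3 (by positivity))
    calc dist (H x) ξ ≤ 2 * r * K ^ 2 * (1 - ‖F.b (d (N + j))‖ ^ 2) := h1
      _ ≤ 2 * r * K ^ 2 * (C * (4 * r * dist x ξ)) := mul_le_mul_of_nonneg_left h4 (by positivity)
      _ = 8 * r ^ 2 * K ^ 2 * C * dist x ξ := by ring
      _ ≤ ε * dist x ξ := mul_le_mul_of_nonneg_right hrε dist_nonneg

theorem trich (F : Fuchs Γ) (hU : F.UC) {e : Elt Γ} (he : Norm F e) {ξ : ℂ} (hξ : ξ ∈ F.lim)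
    (hf : e.H ξ = ξ) : SA e.H ξ ∨ SA e.Hi ξ ∨ F.Con e.cen ξ := by
  obtain ⟨d, ρ, K, C, h⟩ := exists_conical F hU hξ
  by_cases hfin : ∀ a, {n | d n * (e.θ (d n))⁻¹ = a}.Finite
  · rcases eventually_typ he hξ.1 hf h hfin with ht | ht
    · exact Or.inl (SA_of_typ he.mapC hξ.1 hf h ht)
    · refine Or.inr (Or.inl (SA_of_typ he.mapCi hξ.1 ?_ h ht))
      have := he.left ξ (by rw [mem_closedBall_zero_iff]; exact hξ.1.le)
      rwa [hf] at this
  · push Not at hfin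
    obtain ⟨a, ha⟩ := hfin
    exact Or.inr (Or.inr (Conic.con h hξ.1 ha))

end TN

end S_H12_TN_TD

section S_H12_TN_NA

/-!
NA (conical points of subgroups).
`con_lim`: `Con Z ξ`, `‖ξ‖ = 1`: there are `s_n → 1`, `g_n ∈ Z` with `‖act g_n (s_n ξ)‖ ≤ ρ`.  Then `pd (s_n ξ) (act g_n⁻¹ 0) = pd (act g_n (s_n ξ)) 0 ≤ ρ` (`pd x 0 = ‖x‖`), so (`pd_close`) `act g_n⁻¹ 0 → ξ`.
`con_bot`: for `Z = ⊥` `‖s ξ‖ = s ≤ ρ` for `s → 1`.
`con_cyc`: by `con_lim` for `F.sub (zpowers κ)`: `ξ` is in the closure of the orbit `act (κ^n) 0`, `n ∈ ℤ`, and as `‖ξ‖ = 1` it is a limit of `act (κ^(n_k)) 0` with `|n_k| → ∞` (each power gives a point of norm `< 1`), so of a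
subsequence with `n_k → +∞` or `n_k → -∞`: `ξ = p` or `ξ = q` (`AR.att`, `AR.inv`).
`no_nonel`: let `Z = f.cen`, `F' = F.sub Z` nonelementary.  `f.H ζ = ζ` for `ζ ∈ F'.lim` (`id_on_lim`), `F'.lim ⊆ F.lim`.  By `trich` `ζ` is of type `SA f.H`, `SA f.Hi` or `F.Con Z ζ`; the first two are isolated fixed points
(`SA.isolated`, `SA.isolated_inv`), impossible as `F'.lim` is perfect (`perfect F'`) and consists of fixed points.  So `F.Con Z ζ`, i.e. `F'.Con ⊤ ζ`, for all `ζ ∈ F'.lim`, and `UC_of_con` gives `F'.UC`.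
Now `ph F'` for `e' = ⟨f.H, f.Hi, MulEquiv.refl Z⟩`: `Norm F' e'` (equi: `f.H (act z x) = act (f.θ z) (f.H x)`, `f.θ z = z`); holes from `hF.holes f` (`Holes F f.H Z m O k` gives `Holes F' f.H ⊤ m O k`);
`hT`: a fixed point `ζ ∉ F'.lim` on the circle is in `F.lim` (`hF.bd`), `trich`, and `F.Con Z ζ` is impossible by `con_lim`.
-/

namespace TN
open Metric Set Filter Topology DS

variable {Γ : Type} [Group Γ]

private theorem NA_pd_zero (x : ℂ) : pd x 0 = ‖x‖ := by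
  simp [pd]

theorem con_lim (F : Fuchs Γ) (Z : Subgroup Γ) {ξ : ℂ} (hξ : ‖ξ‖ = 1) (h : F.Con Z ξ) :
    ξ ∈ (F.sub Z).lim := by
  refine ⟨hξ, ?_⟩
  obtain ⟨ρ, hρ, hcon⟩ := h
  rw [Metric.mem_closure_iff]
  intro ε hε
  have hρ0 : 0 ≤ ρ := by
    obtain ⟨s, -, -, -, g, -, hg⟩ := hcon 0 one_pos
    exact (norm_nonneg _).trans hg
  have hρ2 : 0 < 1 - ρ ^ 2 := by nlinarith
  set η : ℝ := min (ε / 2) ((ε / 2) ^ 2 * (1 - ρ ^ 2) / 2) with hη
  have hη0 : 0 < η := lt_min (by linarith) (by positivity)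
  obtain ⟨s, hs1, hs0, hs2, g, hgZ, hg⟩ := hcon (1 - η) (by linarith)
  have hxn : ‖(s : ℂ) * ξ‖ = s := by
    rw [norm_mul, hξ, mul_one, Complex.norm_real, Real.norm_eq_abs, abs_of_nonneg hs0]
  have h01 : ‖(0 : ℂ)‖ < 1 := by simp
  have hy : ‖F.act g⁻¹ 0‖ < 1 := act_lt F g⁻¹ h01
  have hpd : pd ((s : ℂ) * ξ) (F.act g⁻¹ 0) ≤ ρ := by
    rw [← act_pd F g (by rw [hxn]; exact hs2.le) hy, act_act_inv F g h01.le, NA_pd_zero]
    exact hg
  have hne : 1 - (starRingEnd ℂ) ((s : ℂ) * ξ) * F.act g⁻¹ 0 ≠ 0 :=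
    den_ne (by rw [hxn]; exact hs2) hy.le
  have hcl := pd_close hρ (by rw [hxn]; exact hs2.le) hy.le hpd hne
  rw [hxn] at hcl
  refine ⟨F.act g⁻¹ 0, ⟨⟨g⁻¹, Z.inv_mem hgZ⟩, ?_⟩, ?_⟩
  · exact sub_act F Z _ 0
  · have h1 : dist ξ ((s : ℂ) * ξ) = 1 - s := by
      rw [Complex.dist_eq]
      have : ξ - (s : ℂ) * ξ = ((1 - s : ℝ) : ℂ) * ξ := by push_cast; ring
      rw [this, norm_mul, hξ, mul_one, Complex.norm_real, Real.norm_eq_abs,
        abs_of_nonneg (by linarith)]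
    have h2 : dist ((s : ℂ) * ξ) (F.act g⁻¹ 0) < ε / 2 := by
      rw [Complex.dist_eq]
      set D := ‖(s : ℂ) * ξ - F.act g⁻¹ 0‖ with hD
      set Y := ‖F.act g⁻¹ 0‖ with hY
      have hY0 : 0 ≤ Y := norm_nonneg _
      have hD0 : 0 ≤ D := norm_nonneg _
      have h3 : (1 - s ^ 2) * (1 - Y ^ 2) ≤ 2 * (1 - s) := by
        have h4 : 0 ≤ 1 - s ^ 2 := by nlinarith
        have h5 : 1 - Y ^ 2 ≤ 1 := by nlinarith
        have h6 : (1 - s ^ 2) * (1 - Y ^ 2) ≤ (1 - s ^ 2) * 1 := mul_le_mul_of_nonneg_left h5 h4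
        nlinarith
      have h3' : 0 ≤ (1 - s ^ 2) * (1 - Y ^ 2) := by
        have h4 : 0 ≤ 1 - s ^ 2 := by nlinarith
        have h5 : 0 ≤ 1 - Y ^ 2 := by nlinarith
        positivity
      have h7 : ρ ^ 2 * ((1 - s ^ 2) * (1 - Y ^ 2)) ≤ 1 * ((1 - s ^ 2) * (1 - Y ^ 2)) := by
        apply mul_le_mul_of_nonneg_right _ h3'
        nlinarith
      have h8 : D ^ 2 * (1 - ρ ^ 2) ≤ 2 * (1 - s) := by linarith
      have h9 : 1 - s < (ε / 2) ^ 2 * (1 - ρ ^ 2) / 2 := by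
        have := min_le_right (ε / 2) ((ε / 2) ^ 2 * (1 - ρ ^ 2) / 2)
        linarith
      have h10 : D ^ 2 * (1 - ρ ^ 2) < (ε / 2) ^ 2 * (1 - ρ ^ 2) := by linarith
      have h11 : D ^ 2 < (ε / 2) ^ 2 := lt_of_mul_lt_mul_right h10 hρ2.le
      exact lt_of_pow_lt_pow_left₀ 2 (by linarith) h11
    have h12 : 1 - s < ε / 2 := by
      have := min_le_left (ε / 2) ((ε / 2) ^ 2 * (1 - ρ ^ 2) / 2)
      linarith
    calc dist ξ (F.act g⁻¹ 0) ≤ dist ξ ((s : ℂ) * ξ) + dist ((s : ℂ) * ξ) (F.act g⁻¹ 0) :=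
          dist_triangle _ _ _
      _ < ε := by rw [h1]; linarith

theorem con_bot (F : Fuchs Γ) {ξ : ℂ} (hξ : ‖ξ‖ = 1) : ¬ F.Con ⊥ ξ := by
  rintro ⟨ρ, hρ, hcon⟩
  obtain ⟨s, hs1, hs0, hs2, g, hgZ, hg⟩ := hcon ρ hρ
  have hxn : ‖(s : ℂ) * ξ‖ = s := by
    rw [norm_mul, hξ, mul_one, Complex.norm_real, Real.norm_eq_abs, abs_of_nonneg hs0]
  rw [Subgroup.mem_bot] at hgZ
  subst hgZ
  rw [act_one F (by rw [hxn]; exact hs2.le), hxn] at hg
  linarith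

theorem con_cyc (F : Fuchs Γ) {κ : Γ} {p q : ℂ} (hκ : F.AR κ p q) {ξ : ℂ} (hξ : ‖ξ‖ = 1)
    (h : F.Con (Subgroup.zpowers κ) ξ) : ξ = p ∨ ξ = q := by
  by_contra hcon
  push Not at hcon
  obtain ⟨hp, hq⟩ := hcon
  have hcl := (con_lim F _ hξ h).2
  have h01 : (0 : ℂ) ∈ closedBall (0:ℂ) 1 := by simp
  have h0q : (0 : ℂ) ≠ q := by
    intro h1
    have := hκ.nq
    rw [← h1] at this
    simp at this
  have h0p : (0 : ℂ) ≠ p := by
    intro h1
    have := hκ.np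
    rw [← h1] at this
    simp at this
  obtain ⟨ε, hε, hεp, hεq⟩ : ∃ ε > 0, ε < dist ξ p ∧ ε < dist ξ q := by
    have h1 : 0 < dist ξ p := dist_pos.2 hp
    have h2 : 0 < dist ξ q := dist_pos.2 hq
    refine ⟨min (dist ξ p) (dist ξ q) / 2, by positivity, ?_, ?_⟩
    · have := min_le_left (dist ξ p) (dist ξ q)
      linarith
    · have := min_le_right (dist ξ p) (dist ξ q)
      linarith
  obtain ⟨N₁, hN₁⟩ := (Metric.tendsto_nhds.1 (hκ.att 0 h01 h0q) ε hε).exists_forall_of_atTop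
  obtain ⟨N₂, hN₂⟩ := (Metric.tendsto_nhds.1 ((AR.inv hκ).att 0 h01 h0p) ε hε).exists_forall_of_atTop
  set A : Set ℂ := closedBall p ε ∪ (closedBall q ε ∪
    (fun k : ℤ => F.act (κ ^ k) 0) '' (Set.Icc (-(N₂ : ℤ)) N₁)) with hA
  have hAc : IsClosed A := isClosed_closedBall.union (isClosed_closedBall.union
    ((Set.finite_Icc _ _).image _).isClosed)
  have hsub : (range fun g : Subgroup.zpowers κ => (F.sub (Subgroup.zpowers κ)).act g 0) ⊆ A := by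
    rintro _ ⟨g, rfl⟩
    obtain ⟨k, hk⟩ := Subgroup.mem_zpowers_iff.1 g.2
    simp only
    rw [sub_act F, ← hk]
    by_cases h1 : (N₁ : ℤ) ≤ k
    · left
      obtain ⟨n, rfl⟩ := Int.eq_ofNat_of_zero_le (show 0 ≤ k by omega)
      have h2 : N₁ ≤ n := by exact_mod_cast h1
      rw [mem_closedBall, zpow_natCast]
      exact (hN₁ n h2).le
    · right
      by_cases h2 : k ≤ -(N₂ : ℤ)
      · left
        obtain ⟨n, hn⟩ := Int.eq_ofNat_of_zero_le (show 0 ≤ -k by omega)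
        have h3 : N₂ ≤ n := by
          have : (N₂ : ℤ) ≤ n := by omega
          exact_mod_cast this
        have h4 : k = -(n : ℤ) := by omega
        rw [mem_closedBall, h4, zpow_neg, zpow_natCast, ← inv_pow]
        exact (hN₂ n h3).le
      · right
        exact ⟨k, ⟨by omega, by omega⟩, rfl⟩
  have hξA : ξ ∈ A := closure_minimal hsub hAc hcl
  rcases hξA with h1 | h1 | ⟨k, -, hk⟩
  · rw [mem_closedBall] at h1
    linarith
  · rw [mem_closedBall] at h1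
    linarith
  · have h2 : ‖F.act (κ ^ k) 0‖ < 1 := act_lt F _ (by simp)
    have hk' : F.act (κ ^ k) 0 = ξ := hk
    rw [hk', hξ] at h2
    exact lt_irrefl _ h2

end TN

end S_H12_TN_NA

section S_H12_TN_RF

/-!
RF (frames).  `Frame F e κ π h`: `π : ℝ → circle` is a parametrisation of an `e`-invariant part of the circle, `h` the lift of `e`, and `t ↦ t + 1` the lift of
`κ` (case A: `κ = 1`, `π` the universal covering of the circle; case B: `κ ≠ 1`, `π` a homeomorphism onto the open arc opposite to a gap).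
`e.tw F κ n m` is the map `κ^m ∘ e^n` (`n ≥ 1`).
`tw_H`: `e.H^[n] (π t) = π (h^[n] t)`, `act κ^m (π t) = π (t + m)` for integers `m` (from `πκ`; for negative `m` apply the inverse).
`tw_theta`: `e^n` has `θ κ = κ` and conjugation by `κ^m` fixes `κ`.  The others: `FN`.
-/

namespace TN
open Metric Set Filter Topology DS

variable {Γ : Type} [Group Γ]

structure Frame (F : Fuchs Γ) (e : Elt Γ) (κ : Γ) (π : ℝ → ℂ) (h : ℝ → ℝ) : Prop where
  πc : Continuous π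
  πn : ∀ t, ‖π t‖ = 1
  hc : Continuous h
  hm : StrictMono h
  hs : Function.Surjective h
  h1 : ∀ t, h (t + 1) = h t + 1
  πh : ∀ t, e.H (π t) = π (h t)
  πκ : ∀ t, π (t + 1) = F.act κ (π t)
  comm : e.θ κ = κ
  inj : ∀ s t, π s = π t → ∃ n : ℤ, t = s + n ∧ κ ^ n = 1
  fin : {ξ | ξ ∈ F.lim ∧ ξ ∉ range π}.Finite
  meet : ∃ t, π t ∈ F.lim
  fixR : ∀ c, c ∉ Subgroup.zpowers κ → ∀ a b, F.AR c a b → a ∈ range π ∨ b ∈ range π

/-- `κ^m ∘ e^n`, `n ≥ 1` -/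
noncomputable def Elt.tw (F : Fuchs Γ) (e : Elt Γ) (κ : Γ) (n : ℕ) (m : ℤ) : Elt Γ :=
  (e.iter (n - 1)).lmul F (κ ^ m)

variable {F : Fuchs Γ} {e : Elt Γ} {κ : Γ} {π : ℝ → ℂ} {h : ℝ → ℝ}

theorem RF_pred (fr : Frame F e κ π h) (t : ℝ) : π t = F.act κ⁻¹ (π (t + 1)) := by
  rw [fr.πκ, act_inv_act F κ (fr.πn t).le]

theorem Frame.pow (fr : Frame F e κ π h) (t : ℝ) (m : ℤ) : π (t + m) = F.act (κ ^ m) (π t) := by
  induction m with
  | zero =>
    rw [Int.cast_zero, add_zero, zpow_zero, act_one F (fr.πn t).le]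
  | succ n ih =>
    have e1 : t + (((n : ℤ) + 1 : ℤ) : ℝ) = (t + ((n : ℤ) : ℝ)) + 1 := by push_cast; ring
    rw [e1, fr.πκ, ih, ← act_mul F _ _ (fr.πn t).le, add_comm (n : ℤ) 1, zpow_one_add]
  | pred n ih =>
    have e1 : (t + ((-(n : ℤ) - 1 : ℤ) : ℝ)) + 1 = t + ((-(n : ℤ) : ℤ) : ℝ) := by push_cast; ring
    rw [RF_pred fr (t + ((-(n : ℤ) - 1 : ℤ) : ℝ)), e1, ih, ← act_mul F _ _ (fr.πn t).le,
      sub_eq_neg_add, zpow_add, zpow_neg_one]

theorem Frame.int (fr : Frame F e κ π h) (n : ℕ) (t : ℝ) (m : ℤ) :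
    h^[n] (t + m) = h^[n] t + m := by
  induction n generalizing t with
  | zero => rfl
  | succ n ih =>
    rw [Function.iterate_succ_apply, Function.iterate_succ_apply, phi_int fr.h1, ih]

theorem RF_iter (fr : Frame F e κ π h) (n : ℕ) (t : ℝ) : e.H^[n] (π t) = π (h^[n] t) := by
  induction n generalizing t with
  | zero => rfl
  | succ n ih =>
    rw [Function.iterate_succ_apply, Function.iterate_succ_apply, fr.πh, ih]

theorem Frame.tw_H (fr : Frame F e κ π h) (he : Norm F e) {n : ℕ} (hn : 1 ≤ n) (m : ℤ) (t : ℝ) :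
    (e.tw F κ n m).H (π t) = π (h^[n] t + m) := by
  have _ := he
  have h1 : (e.tw F κ n m).H (π t) = F.act (κ ^ m) ((e.iter (n - 1)).H (π t)) := rfl
  rw [h1, Elt.iter_H, Nat.sub_add_cancel hn, RF_iter fr, Frame.pow fr]

theorem Norm.tw (he : Norm F e) (n : ℕ) (m : ℤ) : Norm F (e.tw F κ n m) :=
  (he.iter (n - 1)).lmul (κ ^ m)

theorem Frame.tw_theta (fr : Frame F e κ π h) (n : ℕ) (m : ℤ) : (e.tw F κ n m).θ κ = κ := by
  have h1 : (e.tw F κ n m).θ κ = κ ^ m * (e.iter (n - 1)).θ κ * (κ ^ m)⁻¹ := rfl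
  rw [h1, Elt.iter_theta e fr.comm]
  have h2 : κ ^ m * κ = κ * κ ^ m := (Commute.zpow_self κ m).eq
  rw [h2, mul_inv_cancel_right]

theorem Fam.tw {𝓗 : Set (Elt Γ)} (hF : Fam F 𝓗) (he : e ∈ 𝓗) (n : ℕ) (m : ℤ) :
    e.tw F κ n m ∈ 𝓗 :=
  hF.lmul _ (Elt.iter_mem hF he _) _

/-- the increasing homeomorphism `t ↦ h^[n] t + m` preserves `π ⁻¹' F.lim` -/
theorem Frame.lim_iff (fr : Frame F e κ π h) (he : Norm F e) {n : ℕ} (hn : 1 ≤ n) (m : ℤ) (t : ℝ) :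
    π (h^[n] t + m) ∈ F.lim ↔ π t ∈ F.lim := by
  rw [← Frame.tw_H fr he hn m t]
  exact (Norm.tw he n m).lim_iff (fr.πn t)

end TN

end S_H12_TN_RF

section S_H12_TN_RD

/-!
RD (points where `φ` is not locally constant are limit points).  Let `t ∈ Cset φ`, `π t ∉ F.lim`.  As `F.lim` is closed and `π` continuous, there is `δ > 0` with
`π s ∉ F.lim` for `|s - t| ≤ δ`; `t ∈ Cset` gives `s` with `|s - t| < δ`, `φ s ≠ φ t`.  Let `x < y` be the two points `s`, `t`: `φ x < φ y`, and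
`[x, y]` contains no point of `π ⁻¹' F.lim`.  Choose `i` with `ε i < φ y - φ x` and let `k u = h^[a i] u + b i`, an increasing homeomorphism of `ℝ` with
`φ (k u) = φ u + ε i`, preserving `π ⁻¹' F.lim` (`Frame.lim_iff`).  `x < k x < y`.
Every real `u` lies in some interval `[k^j x, k^(j+1) x]`, `j ∈ ℤ`.  To avoid negative powers: let `u₀` be a point with `π u₀ ∈ F.lim` (`meet`).  Subtracting an integer
(`π (u₀ - n) = act (κ^(-n)) (π u₀) ∈ F.lim`) we may assume `u₀ > x`... (choose `n` with `x < u₀ - n`... any integer translate larger than `x`).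
The sequence `k^[j] x` is increasing and tends to infinity (`φ (k^[j] x) = φ x + j ε i`), so there is `j` with `k^[j] x ≤ u₀ < k^[j+1] x`, and
`u₀ = k^[j] u₁` with `x ≤ u₁ < k x < y` (`k^[j]` is an increasing bijection).  Then `π u₁ ∈ F.lim`: contradiction.
-/

namespace TN
open Metric Set Filter Topology DS

variable {Γ : Type} [Group Γ] {F : Fuchs Γ} {e : Elt Γ} {κ : Γ} {π : ℝ → ℂ} {h : ℝ → ℝ}
  {φ : ℝ → ℝ} {a : ℕ → ℕ} {b : ℕ → ℤ} {ε : ℕ → ℝ}

theorem RD_closed (F : Fuchs Γ) : IsClosed F.lim := by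
  have h : F.lim = {ξ : ℂ | ‖ξ‖ = 1} ∩ closure (range fun g => F.act g 0) := rfl
  rw [h]
  exact (isClosed_eq continuous_norm continuous_const).inter isClosed_closure

theorem RD_shift (fr : Frame F e κ π h) (he : Norm F e) (u : ℝ) (m : ℤ) :
    π (u + m) ∈ F.lim ↔ π u ∈ F.lim := by
  obtain ⟨t, rfl⟩ := fr.hs u
  have h1 := fr.lim_iff he (le_refl 1) m t
  have h2 := fr.lim_iff he (le_refl 1) 0 t
  simp only [Function.iterate_one, Int.cast_zero, add_zero] at h1 h2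
  rw [h1, h2]

theorem C_lim (fr : Frame F e κ π h) (he : Norm F e) (R : Rot h φ a b ε) {t : ℝ}
    (ht : t ∈ Cset φ) : π t ∈ F.lim := by
  by_contra hcon
  have hopen : IsOpen (π ⁻¹' (F.lim)ᶜ) := (RD_closed F).isOpen_compl.preimage fr.πc
  obtain ⟨δ, hδ, hball⟩ := Metric.isOpen_iff.1 hopen t hcon
  obtain ⟨s, hs1, hs2⟩ := ht δ hδ
  -- the interval `[x, y]`
  obtain ⟨x, y, hxy, hφ, hI⟩ : ∃ x y : ℝ, x < y ∧ φ x < φ y ∧ ∀ u, x ≤ u → u ≤ y → π u ∉ F.lim := by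
    have hb : ∀ u, |u - t| < δ → π u ∉ F.lim := fun u hu => hball (by
      rw [Metric.mem_ball, Real.dist_eq]; exact hu)
    have h2 := abs_lt.1 hs1
    rcases lt_trichotomy s t with h | h | h
    · refine ⟨s, t, h, lt_of_le_of_ne (R.φm h.le) hs2, fun u h3 h4 => hb u ?_⟩
      rw [abs_lt]; constructor <;> linarith
    · exact absurd (by rw [h]) hs2
    · refine ⟨t, s, h, lt_of_le_of_ne (R.φm h.le) hs2.symm, fun u h3 h4 => hb u ?_⟩
      rw [abs_lt]; constructor <;> linarith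
  obtain ⟨i, hi⟩ : ∃ i, ε i < φ y - φ x :=
    (R.εlim.eventually_lt_const (show (0 : ℝ) < φ y - φ x by linarith)).exists
  set k : ℝ → ℝ := fun u => h^[a i] u + b i with hk
  have hkφ : ∀ u, φ (k u) = φ u + ε i := fun u => R.φh i u
  have hkm : StrictMono k := fun u v huv => by
    have := (fr.hm.iterate (a i)) huv
    simp only [hk]; linarith
  have hks : Function.Surjective k := fun v => by
    obtain ⟨u, hu⟩ := (fr.hs.iterate (a i)) (v - b i)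
    exact ⟨u, by simp only [hk]; rw [hu]; ring⟩
  have hkl : ∀ u, π (k u) ∈ F.lim ↔ π u ∈ F.lim := fun u => fr.lim_iff he (R.apos i) (b i) u
  have hkx : k x < y := by
    by_contra hle
    push Not at hle
    have := R.φm hle
    rw [hkφ] at this
    linarith
  -- no limit points in `[x, k^j x)`
  have hj : ∀ j : ℕ, ∀ u, x ≤ u → u < k^[j] x → π u ∉ F.lim := by
    intro j
    induction j with
    | zero => intro u h1 h2; simp only [Function.iterate_zero, id] at h2; linarith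
    | succ j ih =>
      intro u h1 h2
      rw [Function.iterate_succ_apply'] at h2
      by_cases huy : u ≤ y
      · exact hI u h1 huy
      · obtain ⟨u', rfl⟩ := hks u
        rw [hkl]
        have h3 : x < u' := hkm.lt_iff_lt.1 (by linarith)
        exact ih u' h3.le (hkm.lt_iff_lt.1 h2)
  obtain ⟨u0, hu0⟩ := fr.meet
  obtain ⟨n, hn⟩ := exists_nat_gt (x - u0)
  have hu : π (u0 + ((n : ℤ) : ℝ)) ∈ F.lim := (RD_shift fr he u0 n).2 hu0
  have hφj : ∀ j : ℕ, φ (k^[j] x) = φ x + j * ε i := by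
    intro j
    induction j with
    | zero => simp
    | succ j ih =>
      rw [Function.iterate_succ_apply', hkφ, ih]; push_cast; ring
  obtain ⟨j, hj2⟩ := exists_nat_gt ((φ (u0 + ((n : ℤ) : ℝ)) - φ x) / ε i)
  rw [div_lt_iff₀ (R.εpos i)] at hj2
  refine hj j _ ?_ ?_ hu
  · push_cast; linarith
  · by_contra hle
    push Not at hle
    have := R.φm hle
    rw [hφj] at this
    linarith

end TN

end S_H12_TN_RD

section S_H12_TN_RE

/-!
RE (an element outside the stabiliser maps `π (Cset)` into one fibre).  Let `e_i = e.tw F κ (a i) (b i)`, `g_i = e_i.θ c`, so `e_i.H (act c x) = act g_i (e_i.H x)`, and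
`k_i t = h^[a i] t + b i`, `e_i.H (π t) = π (k_i t)`.
(1) `i ↦ g_i` is injective: let `AR c p' q'`; by `AR.norm`, `AR g_i (e_i.H p') (e_i.H q')`.  If `g_i = g_j` then (`AR.unique`) `e_i.H` and `e_j.H` agree at `p'` and `q'`, one of
which is `π s` (`fixR`): `π (k_i s) = π (k_j s)`, so `k_j s = k_i s + n`, `φ s + ε j = φ s + ε i + n`, and `|ε i - ε j| < 1` gives `n = 0`, `ε i = ε j`, `i = j`.
(2) `conv`: a subsequence `g_(ψ k)` converges to `p` locally uniformly off `q`.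
(3) Claim: if `π (top φ t) ≠ q` and `act c (π t) = π s` then `π (top φ s) = p`.  Indeed `e_i.H (act c (π t)) = act g_i (e_i.H (π t)) = act g_i (π (k_i t))`, and
`k_i t → top φ t` (`h_lim`), so by `conv_seq` the right side tends to `p`; the left side is `π (k_i s) → π (top φ s)`.
(4) Let `S` be the set of `t ∈ Cset` with `π (top φ t) = q` or `act c (π t) ∉ range π`.  `S ∩ [α, β]` is finite: `π` is finite-to-one on bounded intervals (`inj`); if `act c (π t) ∉ range π`,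
`t ∈ Cset`, then `act c (π t)` is in the finite set `fin` (`C_lim`, `lim_inv`), and `act c` is injective; if `π (top φ t) = q` then `top φ t` is in a locally finite set (bounded interval
`[α, β + 1]`: `top φ t ≤ t + 1`), and for `t ∈ Cset`, `t` is `top φ t` or `bot φ t` (`C_fibre`; if both ends coincide nothing to do), `bot φ t = bot φ (top φ t)`.
(5) `Cset` is not contained in `S` (`C_perfect`); let `t₀ ∈ Cset ∖ S`, `act c (π t₀) = π s₀`, `r = top φ s₀`, `l = bot φ s₀`, `π r = p`.  For every `t ∈ Cset ∖ S`: `act c (π t) = π s`, `π (top φ s) = p = π r`,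
so `r = top φ s + n`, `κ^n = 1`, `π s = π (s + n)` (`Frame.pow`), `s + n ∈ [bot φ (s+n), top φ (s+n)] = [l, r]` (`top_int`: `top φ (s+n) = r`, and `φ (bot) = φ (top)`: same fibre as `r`).
So `act c (π t) ∈ π '' [l, r]`, a compact set.
(6) for `t ∈ Cset` arbitrary take `t_n → t`, `t_n ∈ Cset ∖ S` (`C_perfect`): the compact set is closed.
(7) `l < r`: otherwise `act c (π t)` is the same point for all `t ∈ Cset`, but `act c`, and `π` on an interval of length `< 1`, are injective (case `κ^n = 1`, `n ≠ 0` is excluded by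
`|t - s| < 1`), and `Cset` has two points at distance `< 1` (`C_perfect`).
-/

namespace TN
open Metric Set Filter Topology DS

variable {Γ : Type} [Group Γ] {F : Fuchs Γ} {e : Elt Γ} {κ : Γ} {π : ℝ → ℂ} {h : ℝ → ℝ}
  {φ : ℝ → ℝ} {a : ℕ → ℕ} {b : ℕ → ℤ} {ε : ℕ → ℝ}

theorem RE_norm (fr : Frame F e κ π h) (t : ℝ) : π t ∈ closedBall (0:ℂ) 1 := by
  rw [mem_closedBall_zero_iff, fr.πn t]

/-- `π` is finite-to-one on bounded intervals -/
theorem RE_fin (fr : Frame F e κ π h) (ξ : ℂ) (α β : ℝ) : {t | t ∈ Icc α β ∧ π t = ξ}.Finite := by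
  by_cases hne : {t | t ∈ Icc α β ∧ π t = ξ}.Nonempty
  · obtain ⟨t₀, ht₀, hξ⟩ := hne
    obtain ⟨N, hN⟩ := exists_nat_gt (β - α)
    apply ((Set.finite_Icc (-(N : ℤ)) N).image (fun n : ℤ => t₀ + (n : ℝ))).subset
    rintro t ⟨ht, hπ⟩
    obtain ⟨n, hn, -⟩ := fr.inj t₀ t (by rw [hξ, hπ])
    refine ⟨n, ?_, hn.symm⟩
    have h1 : (n : ℝ) ≤ N := by
      have : (n : ℝ) = t - t₀ := by rw [hn]; ring
      rw [this]; linarith [ht.2, ht₀.1]
    have h2 : -(N : ℝ) ≤ n := by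
      have : (n : ℝ) = t - t₀ := by rw [hn]; ring
      rw [this]; linarith [ht.1, ht₀.2]
    constructor
    · exact_mod_cast h2
    · exact_mod_cast h1
  · rw [Set.not_nonempty_iff_eq_empty] at hne
    rw [hne]
    exact Set.finite_empty

theorem RE_end (R : Rot h φ a b ε) {t : ℝ} (ht : t ∈ Cset φ) : t = top φ t ∨ t = bot φ t := by
  obtain ⟨t1, t2, -⟩ := phi_top R.φc R.φm R.φ1 t
  obtain ⟨b1, b2, -⟩ := phi_bot R.φc R.φm R.φ1 t
  by_contra hno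
  push Not at hno
  exact C_fibre R.φm (b1.trans t1.symm) (lt_of_le_of_ne b2 (fun h => hno.2 h.symm))
    (lt_of_le_of_ne t2 hno.1) ht

theorem RE_top_le (R : Rot h φ a b ε) (t : ℝ) : top φ t ≤ t + 1 := by
  obtain ⟨t1, t2, -⟩ := phi_top R.φc R.φm R.φ1 t
  by_contra hlt
  push Not at hlt
  have := R.φm hlt.le
  rw [R.φ1, t1] at this
  linarith

theorem RE_top_int (R : Rot h φ a b ε) (t : ℝ) (n : ℤ) : top φ (t + n) = top φ t + n := by
  obtain ⟨t1, t2, t3⟩ := phi_top R.φc R.φm R.φ1 t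
  obtain ⟨u1, u2, u3⟩ := phi_top R.φc R.φm R.φ1 (t + n)
  have e0 := phi_int R.φ1 t n
  have e1 : φ (top φ t + n) = φ t + n := by rw [phi_int R.φ1, t1]
  apply le_antisymm
  · by_contra hlt
    push Not at hlt
    have h1 := t3 (top φ (t + n) + ((-n : ℤ) : ℝ)) (by push_cast; linarith)
    rw [phi_int R.φ1, u1, e0] at h1
    push_cast at h1
    linarith
  · by_contra hlt
    push Not at hlt
    have h1 := u3 _ hlt
    rw [e1, e0] at h1
    exact lt_irrefl _ h1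

/-- the exceptional set -/
def RE_S (F : Fuchs Γ) (π : ℝ → ℂ) (φ : ℝ → ℝ) (c : Γ) (q : ℂ) : Set ℝ :=
  {t | t ∈ Cset φ ∧ (π (top φ t) = q ∨ F.act c (π t) ∉ range π)}

theorem RE_S_fin (fr : Frame F e κ π h) (he : Norm F e) (R : Rot h φ a b ε) (c : Γ) (q : ℂ) (α β : ℝ) :
    (RE_S F π φ c q ∩ Icc α β).Finite := by
  have h1 : (⋃ ξ ∈ {ξ | ξ ∈ F.lim ∧ ξ ∉ range π}, {t | t ∈ Icc α β ∧ π t = F.act c⁻¹ ξ}).Finite :=
    fr.fin.biUnion (fun ξ _ => RE_fin fr _ α β)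
  have h2 := RE_fin fr q α β
  have h3 := (RE_fin fr q α (β + 1)).image (bot φ)
  apply ((h1.union h2).union h3).subset
  rintro t ⟨⟨htC, hor⟩, htI⟩
  rcases hor with hq | hr
  · rcases RE_end R htC with ht | ht
    · left; right
      rw [← ht] at hq
      exact ⟨htI, hq⟩
    · right
      obtain ⟨t1, t2, -⟩ := phi_top R.φc R.φm R.φ1 t
      refine ⟨top φ t, ⟨⟨htI.1.trans t2, (RE_top_le R t).trans (by linarith [htI.2])⟩, hq⟩, ?_⟩
      rw [(top_congr t1).2, ← ht]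
  · left; left
    have hlim : F.act c (π t) ∈ F.lim := lim_inv F c (C_lim fr he R htC)
    rw [Set.mem_iUnion₂]
    exact ⟨F.act c (π t), ⟨hlim, hr⟩, htI, (act_inv_act F c (fr.πn t).le).symm⟩

theorem RE_inj (fr : Frame F e κ π h) (he : Norm F e) (R : Rot h φ a b ε) {c : Γ}
    (hc : c ∉ Subgroup.zpowers κ) : Function.Injective (fun i => (e.tw F κ (a i) (b i)).θ c) := by
  have hc1 : c ≠ 1 := by
    rintro rfl
    exact hc (Subgroup.one_mem _)
  obtain ⟨p', q', hAR⟩ := exists_AR F hc1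
  intro i j hij
  simp only at hij
  have h1 := AR.norm hAR (he.tw (κ := κ) (a i) (b i))
  have h2 := AR.norm hAR (he.tw (κ := κ) (a j) (b j))
  rw [hij] at h1
  obtain ⟨u1, u2⟩ := AR.unique h1 h2
  have key : ∃ s, π (h^[a i] s + b i) = π (h^[a j] s + b j) := by
    rcases fr.fixR c hc p' q' hAR with ⟨s, hs⟩ | ⟨s, hs⟩
    · refine ⟨s, ?_⟩
      rw [← fr.tw_H he (R.apos i), ← fr.tw_H he (R.apos j), hs, u1]
    · refine ⟨s, ?_⟩
      rw [← fr.tw_H he (R.apos i), ← fr.tw_H he (R.apos j), hs, u2]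
  obtain ⟨s, hs⟩ := key
  obtain ⟨n, hn, -⟩ := fr.inj _ _ hs
  have e1 := R.φh j s
  rw [hn, phi_int R.φ1, R.φh i s] at e1
  have e2 : (n : ℝ) = ε j - ε i := by linarith
  have e3 : (n : ℝ) < 1 := by rw [e2]; linarith [R.εlt j, R.εpos i]
  have e4 : (-1 : ℝ) < n := by rw [e2]; linarith [R.εlt i, R.εpos j]
  have e5 : n = 0 := by
    have a1 : n < 1 := by exact_mod_cast e3
    have a2 : -1 < n := by exact_mod_cast e4
    omega
  rw [e5] at e2
  have e6 : ε i = ε j := by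
    have : ((0 : ℤ) : ℝ) = 0 := Int.cast_zero
    rw [this] at e2
    linarith
  exact R.εanti.injective e6

theorem incl (fr : Frame F e κ π h) (he : Norm F e) (R : Rot h φ a b ε) {c : Γ}
    (hc : c ∉ Subgroup.zpowers κ) :
    ∃ l r : ℝ, l < r ∧ φ l = φ r ∧ ∀ t ∈ Cset φ, F.act c (π t) ∈ π '' Icc l r := by
  have hinj := RE_inj fr he R hc
  obtain ⟨ψ, hψ, p, -, q, -, -, -, h3, -⟩ := conv F (g := fun i => (e.tw F κ (a i) (b i)).θ c) (by
    intro x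
    apply Set.Subsingleton.finite
    intro i hi j hj
    exact hinj (hi.trans hj.symm))
  have hk : ∀ t, Tendsto (fun i => h^[a (ψ i)] t + b (ψ i)) atTop (𝓝 (top φ t)) := fun t =>
    (h_lim R t).comp hψ.tendsto_atTop
  -- (3)
  have claim : ∀ t s, π (top φ t) ≠ q → F.act c (π t) = π s → π (top φ s) = p := by
    intro t s hq hs
    have e1 : ∀ i, π (h^[a (ψ i)] s + b (ψ i)) =
        F.act ((e.tw F κ (a (ψ i)) (b (ψ i))).θ c) (π (h^[a (ψ i)] t + b (ψ i))) := by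
      intro i
      rw [← fr.tw_H he (R.apos (ψ i)), ← fr.tw_H he (R.apos (ψ i)), ← hs]
      exact (he.tw (κ := κ) (a (ψ i)) (b (ψ i))).equi c (π t) (RE_norm fr t)
    have e2 : Tendsto (fun i => π (h^[a (ψ i)] s + b (ψ i))) atTop (𝓝 (π (top φ s))) :=
      (fr.πc.tendsto _).comp (hk s)
    have e3 : Tendsto (fun i => F.act ((e.tw F κ (a (ψ i)) (b (ψ i))).θ c) (π (h^[a (ψ i)] t + b (ψ i))))
        atTop (𝓝 p) :=
      conv_seq F (g := fun i => (e.tw F κ (a (ψ i)) (b (ψ i))).θ c) h3 (fun i => RE_norm fr _)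
        ((fr.πc.tendsto _).comp (hk t)) hq
    simp only [e1] at e2
    exact tendsto_nhds_unique e2 e3
  have hSfin := RE_S_fin fr he R c q
  have hC0 : top φ 0 ∈ Cset φ := top_C R.φc R.φm R.φ1 0
  obtain ⟨t₀, ht₀, ht₀S, -⟩ := C_perfect R.φc R.φm R.φ1 hC0 hSfin one_pos
  have hnotS : ∀ t ∈ Cset φ, t ∉ RE_S F π φ c q → π (top φ t) ≠ q ∧ ∃ s, F.act c (π t) = π s := by
    intro t ht hS
    constructor
    · intro hq
      exact hS ⟨ht, Or.inl hq⟩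
    · by_contra hno
      apply hS
      refine ⟨ht, Or.inr ?_⟩
      rintro ⟨s, hs⟩
      exact hno ⟨s, hs.symm⟩
  obtain ⟨hq₀, s₀, hs₀⟩ := hnotS t₀ ht₀ ht₀S
  have hr := claim t₀ s₀ hq₀ hs₀
  obtain ⟨T1, T2, -⟩ := phi_top R.φc R.φm R.φ1 s₀
  obtain ⟨B1, B2, -⟩ := phi_bot R.φc R.φm R.φ1 s₀
  have hgood : ∀ t ∈ Cset φ, t ∉ RE_S F π φ c q → F.act c (π t) ∈ π '' Icc (bot φ s₀) (top φ s₀) := by
    intro t ht hS
    obtain ⟨hq, s, hs⟩ := hnotS t ht hS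
    have h5 := claim t s hq hs
    obtain ⟨n, hn, hκ⟩ := fr.inj (top φ s) (top φ s₀) (by rw [h5, hr])
    refine ⟨s + n, ?_, ?_⟩
    · have h6 : top φ (s + n) = top φ s₀ := by rw [RE_top_int R, hn]
      obtain ⟨U1, U2, -⟩ := phi_top R.φc R.φm R.φ1 (s + n)
      obtain ⟨V1, V2, -⟩ := phi_bot R.φc R.φm R.φ1 (s + n)
      have h7 : φ (s + n) = φ s₀ := by rw [← U1, h6, T1]
      rw [(top_congr h7).2] at V2
      rw [h6] at U2
      exact ⟨V2, U2⟩
    · rw [fr.pow, hκ, act_one F (fr.πn s).le, hs]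
  have hcont : Continuous (fun t => F.act c (π t)) :=
    (act_cont F c).comp_continuous fr.πc (RE_norm fr)
  have hcomp : IsCompact (π '' Icc (bot φ s₀) (top φ s₀)) := isCompact_Icc.image fr.πc
  have hcl : IsClosed ((fun t => F.act c (π t)) ⁻¹' (π '' Icc (bot φ s₀) (top φ s₀))) :=
    hcomp.isClosed.preimage hcont
  have hall : ∀ t ∈ Cset φ, F.act c (π t) ∈ π '' Icc (bot φ s₀) (top φ s₀) := by
    intro t ht
    have : t ∈ closure ((fun t => F.act c (π t)) ⁻¹' (π '' Icc (bot φ s₀) (top φ s₀))) := by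
      rw [Metric.mem_closure_iff]
      intro δ hδ
      obtain ⟨s, hs, hsS, hst⟩ := C_perfect R.φc R.φm R.φ1 ht hSfin hδ
      refine ⟨s, hgood s hs hsS, ?_⟩
      rw [dist_comm, Real.dist_eq]
      exact hst
    rw [hcl.closure_eq] at this
    exact this
  refine ⟨bot φ s₀, top φ s₀, ?_, B1.trans T1.symm, hall⟩
  apply lt_of_le_of_ne (B2.trans T2)
  intro heq
  obtain ⟨t₁, ht₁, ht₁S, ht₁d⟩ := C_perfect R.φc R.φm R.φ1 hC0 (S := {top φ 0})
    (fun α β => (Set.finite_singleton _).subset inter_subset_left) one_pos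
  have h8 := hall _ hC0
  have h9 := hall _ ht₁
  rw [← heq, Icc_self, image_singleton, mem_singleton_iff] at h8 h9
  have h10 : π t₁ = π (top φ 0) := act_inj F c (RE_norm fr _) (RE_norm fr _) (h9.trans h8.symm)
  obtain ⟨n, hn, -⟩ := fr.inj _ _ h10
  have h11 : |(n : ℝ)| < 1 := by
    have : (n : ℝ) = -(t₁ - top φ 0) := by rw [hn]; ring
    rw [this, abs_neg]
    exact ht₁d
  have h12 : n = 0 := by
    have : |n| < 1 := by exact_mod_cast h11
    exact Int.abs_lt_one_iff.1 this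
  rw [h12] at hn
  apply ht₁S
  rw [mem_singleton_iff, hn]
  simp

end TN

end S_H12_TN_RE

section S_H12_TN_RH

/-!
RH (rational rotation number in a frame).  Suppose not: then `exists_rot` gives `Rot h φ a b ε`.  `x : ℕ → ℝ` from `exists_seq`; the triples
`t_j = (π (x (2j)), π (x (2j+1)), π (x (2j+2)))` consist of three distinct points of `F.lim` (`C_lim`; distinct by `inj` and `|x m - x n| < 1`).  (TC) gives `d j`
such that `u j i = act (d j) (t_j i)` is `ε₀`-separated.  Apply `triples` with, for `j ≠ k` and `c = (d j)⁻¹ * d k`: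
* if `c ∉ zpowers κ`: `S = act (d j) '' (π '' Ioo l r)` with `l, r` of `incl`.  `u j i = act (d j) (π (x (2j+i)))` is not in `S`: otherwise `π (x (2j+i)) = π s`, `s ∈ Ioo l r`,
  `x (2j+i) = s + n` so `s ∈ Cset` (`C_int`), contradiction to `C_fibre`.  `u k i = act (d j) (act c (π (x (2k+i)))) ∈ act (d j) '' (π '' Icc l r) ⊆ closure S` (`closure (Ioo l r) = Icc l r`, continuity).
* if `c = κ^n`: `S = act (d j) '' (π '' Ioo (x (2k) + n) (x (2k+2) + n))`; `u k i = act (d j) (π (x (2k+i) + n))` is in the closure.  `u j i ∈ S` would give `x (2j+i) + m ∈ Ioo (x (2k) + n) (x (2k+2) + n)` for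
  an integer `m` (`inj`); as all `x` lie in `[x 0, x 0 + 1)`, `m = n` and `2k < 2j + i < 2k + 2`, so `2j + i = 2k + 1`, `i = 1`, `j = k`: contradiction.
-/

namespace TN
open Metric Set Filter Topology DS

variable {Γ : Type} [Group Γ] {F : Fuchs Γ} {e : Elt Γ} {κ : Γ} {π : ℝ → ℂ} {h : ℝ → ℝ}

theorem RH_fcont (fr : Frame F e κ π h) (g : Γ) : Continuous (fun t => F.act g (π t)) :=
  (act_cont F g).comp_continuous fr.πc fun t => by
    rw [mem_closedBall_zero_iff]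
    exact (fr.πn t).le

theorem frame_rot (hT : F.TC) (fr : Frame F e κ π h) (he : Norm F e) :
    ∃ n : ℕ, 1 ≤ n ∧ ∃ m : ℤ, ∃ t, h^[n] t = t + m := by
  by_contra hcon
  have hcon' : ∀ n : ℕ, 1 ≤ n → ∀ m : ℤ, ∀ t, h^[n] t ≠ t + m := fun n hn m t ht =>
    hcon ⟨n, hn, m, t, ht⟩
  obtain ⟨φ, a, b, ε, R⟩ := exists_rot fr.hc fr.hm fr.h1 hcon'
  obtain ⟨x, hxm, hxC, hxb⟩ := exists_seq R.φc R.φm R.φ1
  obtain ⟨ε₀, hε₀, hTC⟩ := hT
  have hx0 : ∀ n, x 0 ≤ x n := fun n => hxm.monotone (Nat.zero_le n)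
  have hint : ∀ (m n : ℕ) (k : ℤ), x m = x n + k → k = 0 := by
    intro m n k hk
    have h1 := hx0 m
    have h2 := hxb m
    have h3 := hx0 n
    have h4 := hxb n
    have h5 : (k : ℝ) < 1 := by linarith
    have h6 : (-1 : ℝ) < k := by linarith
    have h5' : k < 1 := by exact_mod_cast h5
    have h6' : (-1 : ℤ) < k := by exact_mod_cast h6
    omega
  have hne : ∀ m n : ℕ, m ≠ n → π (x m) ≠ π (x n) := by
    intro m n hmn hπ
    obtain ⟨k, hk, -⟩ := fr.inj _ _ hπ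
    have hk0 := hint n m k hk
    rw [hk0, Int.cast_zero, add_zero] at hk
    exact hmn (hxm.injective hk).symm
  have hnc : ∀ t, ‖π t‖ ≤ 1 := fun t => (fr.πn t).le
  have hmem : ∀ t, π t ∈ closedBall (0:ℂ) 1 := fun t => by
    rw [mem_closedBall_zero_iff]; exact hnc t
  have hlim : ∀ n, π (x n) ∈ F.lim := fun n => C_lim fr he R (hxC n)
  choose d hd using fun j : ℕ => hTC (π (x (2 * j))) (hlim _) (π (x (2 * j + 1))) (hlim _)
    (π (x (2 * j + 2))) (hlim _) (hne _ _ (by omega)) (hne _ _ (by omega)) (hne _ _ (by omega))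
  have key := triples hε₀ (u := fun j i => F.act (d j) (π (x (2 * j + (i : ℕ)))))
    (fun j i => act_eq F (d j) (fr.πn _))
    (fun j i i' hii => by
      obtain ⟨h1, h2, h3⟩ := hd j
      fin_cases i <;> fin_cases i' <;> simp at hii ⊢
      · exact h1
      · exact h3
      · rw [dist_comm]; exact h1
      · exact h2
      · rw [dist_comm]; exact h3
      · rw [dist_comm]; exact h2)
  apply key
  intro j k hjk
  -- the action of `d k` in terms of `d j`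
  have hdk : ∀ t, F.act (d k) (π t) = F.act (d j) (F.act ((d j)⁻¹ * d k) (π t)) := by
    intro t
    rw [← act_mul F _ _ (hnc t)]
    congr 1
    group
  by_cases hc : (d j)⁻¹ * d k ∈ Subgroup.zpowers κ
  · obtain ⟨n, hn⟩ := Subgroup.mem_zpowers_iff.1 hc
    have h2 : x (2 * k) + (n:ℝ) < x (2 * k + 2) + n := by
      have := hxm (show 2 * k < 2 * k + 2 by omega)
      linarith
    refine ⟨(fun t => F.act (d j) (π t)) '' Ioo (x (2 * k) + n) (x (2 * k + 2) + n), ?_, ?_, ?_, ?_⟩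
    · exact isPreconnected_Ioo.image _ (RH_fcont fr (d j)).continuousOn
    · rintro _ ⟨t, -, rfl⟩
      rw [mem_sphere_zero_iff_norm]
      exact act_eq F (d j) (fr.πn _)
    · rintro i ⟨t, ht, hti⟩
      have h3 := act_inj F (d j) (hmem _) (hmem _) hti
      obtain ⟨m, hm, -⟩ := fr.inj _ _ h3
      -- `x (2 j + i) = t + m`
      have h4 := hx0 (2 * j + (i:ℕ))
      have h5 := hxb (2 * j + (i:ℕ))
      have h6 := hx0 (2 * k)
      have h7 := hxb (2 * k + 2)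
      obtain ⟨ht1, ht2⟩ := ht
      have h8 : (-1 : ℝ) < ((n + m : ℤ) : ℝ) := by
        push_cast
        have := hxb (2 * k)
        linarith [hx0 (2 * k + 2)]
      have h9 : ((n + m : ℤ) : ℝ) < 1 := by
        push_cast
        have := hx0 (2 * k + 2)
        have := hxb (2 * k)
        linarith
      have h10 : n + m = 0 := by
        have h8' : (-1 : ℤ) < n + m := by exact_mod_cast h8
        have h9' : n + m < 1 := by exact_mod_cast h9
        omega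
      have h11 : (m : ℝ) = -n := by
        have : ((n + m : ℤ) : ℝ) = 0 := by rw [h10]; simp
        push_cast at this
        linarith
      have h12 : x (2 * k) < x (2 * j + (i:ℕ)) := by linarith
      have h13 : x (2 * j + (i:ℕ)) < x (2 * k + 2) := by linarith
      have h14 := hxm.lt_iff_lt.1 h12
      have h15 := hxm.lt_iff_lt.1 h13
      have h16 := i.2
      omega
    · intro i
      have h3 : F.act (d k) (π (x (2 * k + (i:ℕ)))) = F.act (d j) (π (x (2 * k + (i:ℕ)) + n)) := by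
        rw [hdk, ← hn, ← Frame.pow fr]
      show F.act (d k) (π (x (2 * k + (i:ℕ)))) ∈ _
      rw [h3]
      apply image_closure_subset_closure_image (RH_fcont fr (d j))
      refine ⟨x (2 * k + (i:ℕ)) + n, ?_, rfl⟩
      rw [closure_Ioo h2.ne]
      have h16 := i.2
      have h17 := hxm.monotone (show 2 * k ≤ 2 * k + (i:ℕ) by omega)
      have h18 := hxm.monotone (show 2 * k + (i:ℕ) ≤ 2 * k + 2 by omega)
      exact ⟨by linarith, by linarith⟩
  · obtain ⟨l, r, hlr, hφ, hincl⟩ := incl fr he R hc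
    refine ⟨(fun t => F.act (d j) (π t)) '' Ioo l r, ?_, ?_, ?_, ?_⟩
    · exact isPreconnected_Ioo.image _ (RH_fcont fr (d j)).continuousOn
    · rintro _ ⟨t, -, rfl⟩
      rw [mem_sphere_zero_iff_norm]
      exact act_eq F (d j) (fr.πn _)
    · rintro i ⟨t, ht, hti⟩
      have h3 := act_inj F (d j) (hmem _) (hmem _) hti
      obtain ⟨m, hm, -⟩ := fr.inj _ _ h3
      have h4 : t = x (2 * j + (i:ℕ)) + ((-m : ℤ) : ℝ) := by
        rw [hm]; push_cast; ring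
      have h5 := C_int R.φ1 (-m) (hxC (2 * j + (i:ℕ)))
      rw [← h4] at h5
      exact C_fibre R.φm hφ ht.1 ht.2 h5
    · intro i
      show F.act (d k) (π (x (2 * k + (i:ℕ)))) ∈ _
      rw [hdk]
      obtain ⟨s, hs, hs2⟩ := hincl (x (2 * k + (i:ℕ))) (hxC _)
      rw [← hs2]
      apply image_closure_subset_closure_image (RH_fcont fr (d j))
      refine ⟨s, ?_, rfl⟩
      rw [closure_Ioo hlr.ne]
      exact hs

end TN

end S_H12_TN_RH

section S_H12_TN_RI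

/-!
RI (case A: the whole circle).  `π t = exp (2 π i t)`, `κ = 1`.  `circle_lift` (with `he.cont`, `he.mapS`, `he.inj`, `he.orient`) gives `h`; it is onto (continuous, `h (t+n) = h t + n`).
`inj`: `exp (2 π i s) = exp (2 π i t)` iff `t - s` is an integer.  `range π` = the circle.  `meet`: `F.lim` is not empty (`lim_infinite`).  `fixR`: the attracting point is on the circle.
`rotA`: `frame_rot` gives `h^[n] t = t + m`, so `e.H^[n] (π t) = π (h^[n] t) = π t`; `iter_H` with `n - 1`.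
-/

namespace TN
open Metric Set Filter Topology DS

variable {Γ : Type} [Group Γ]

private theorem RI_norm (t : ℝ) : ‖Complex.exp (2 * Real.pi * t * Complex.I)‖ = 1 := by
  have h : (2 * Real.pi * t * Complex.I : ℂ) = ((2 * Real.pi * t : ℝ) : ℂ) * Complex.I := by
    push_cast; ring
  rw [h, Complex.norm_exp_ofReal_mul_I]

private theorem RI_range {ξ : ℂ} (hξ : ‖ξ‖ = 1) :
    ξ ∈ range fun t : ℝ => Complex.exp (2 * Real.pi * t * Complex.I) := by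
  refine ⟨ξ.arg / (2 * Real.pi), ?_⟩
  have h1 := Complex.norm_mul_exp_arg_mul_I ξ
  rw [hξ, Complex.ofReal_one, one_mul] at h1
  have h2 : (2 * Real.pi * ((ξ.arg / (2 * Real.pi) : ℝ) : ℂ) * Complex.I : ℂ) = ξ.arg * Complex.I := by
    have hpi : (Real.pi : ℂ) ≠ 0 := Complex.ofReal_ne_zero.2 Real.pi_ne_zero
    push_cast
    field_simp
  show Complex.exp (2 * Real.pi * ((ξ.arg / (2 * Real.pi) : ℝ) : ℂ) * Complex.I) = ξ
  rw [h2, h1]

theorem frameA (F : Fuchs Γ) (hN : F.Nonel) {e : Elt Γ} (he : Norm F e) :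
    ∃ h, Frame F e 1 (fun t => Complex.exp (2 * Real.pi * t * Complex.I)) h := by
  obtain ⟨h, hc, hm, h1, hH⟩ := circle_lift (he.cont.mono sphere_subset_closedBall) he.mapS
    (he.inj.mono sphere_subset_closedBall) he.orient
  have hhn : ∀ (n : ℕ) t, h (t + n) = h t + n := by
    intro n
    induction n with
    | zero => intro t; simp
    | succ n ih =>
      intro t
      push_cast
      rw [← add_assoc, h1, ih, add_assoc]
  have hhs : Function.Surjective h := by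
    refine hc.surjective ?_ ?_
    · refine hm.monotone.tendsto_atTop_atTop fun b => ?_
      obtain ⟨n, hn⟩ := exists_nat_ge (b - h 0)
      refine ⟨0 + n, ?_⟩
      rw [hhn]
      linarith
    · refine hm.monotone.tendsto_atBot_atBot fun b => ?_
      obtain ⟨n, hn⟩ := exists_nat_ge (h 0 - b)
      refine ⟨-(n : ℝ), ?_⟩
      have h2 := hhn n (-(n : ℝ))
      rw [neg_add_cancel] at h2
      linarith
  refine ⟨h, ?_, RI_norm, hc, hm, hhs, h1, hH, ?_, map_one _, ?_, ?_, ?_, ?_⟩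
  · fun_prop
  · intro t
    rw [act_one F (RI_norm t).le]
    show Complex.exp (2 * Real.pi * ((t + 1 : ℝ) : ℂ) * Complex.I) = _
    have h2 : (2 * Real.pi * ((t + 1 : ℝ) : ℂ) * Complex.I : ℂ) =
        2 * Real.pi * t * Complex.I + 2 * Real.pi * Complex.I := by
      push_cast; ring
    rw [h2, Complex.exp_add, Complex.exp_two_pi_mul_I, mul_one]
  · intro s t hst
    obtain ⟨n, hn⟩ := Complex.exp_eq_exp_iff_exists_int.1 hst.symm
    refine ⟨n, ?_, one_zpow n⟩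
    have h2 : (2 * Real.pi * Complex.I : ℂ) ≠ 0 := Complex.two_pi_I_ne_zero
    have h3 : ((t : ℂ)) = s + n := by
      apply mul_left_cancel₀ h2
      linear_combination hn
    exact_mod_cast h3
  · have h2 : {ξ | ξ ∈ F.lim ∧ ξ ∉ range fun t : ℝ => Complex.exp (2 * Real.pi * t * Complex.I)} = ∅ := by
      rw [Set.eq_empty_iff_forall_notMem]
      rintro ξ ⟨h3, h4⟩
      exact h4 (RI_range h3.1)
    rw [h2]
    exact Set.finite_empty
  · obtain ⟨ξ, hξ⟩ := (lim_infinite F hN).nonempty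
    obtain ⟨t, ht⟩ := RI_range hξ.1
    refine ⟨t, ?_⟩
    rw [← ht] at hξ
    exact hξ
  · intro c _ a b hab
    exact Or.inl (RI_range hab.np)

theorem rotA (F : Fuchs Γ) (hN : F.Nonel) (hT : F.TC) {e : Elt Γ} (he : Norm F e) :
    ∃ n : ℕ, ∃ ξ : ℂ, ‖ξ‖ = 1 ∧ (e.iter n).H ξ = ξ := by
  obtain ⟨h, fr⟩ := frameA F hN he
  obtain ⟨n, hn, m, t, ht⟩ := frame_rot hT fr he
  refine ⟨n - 1, Complex.exp (2 * Real.pi * t * Complex.I), RI_norm t, ?_⟩
  have h1 : ∀ k : ℕ, ∀ s : ℝ, e.H^[k] (Complex.exp (2 * Real.pi * s * Complex.I)) =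
      Complex.exp (2 * Real.pi * (h^[k] s : ℝ) * Complex.I) := by
    intro k
    induction k with
    | zero => intro s; rfl
    | succ k ih =>
      intro s
      rw [Function.iterate_succ_apply, Function.iterate_succ_apply, ← ih (h s)]
      congr 1
      exact fr.πh s
  rw [Elt.iter_H, Nat.sub_add_cancel hn, h1, ht]
  have h2 := fr.pow t m
  simp only [one_zpow] at h2
  rw [act_one F (RI_norm t).le] at h2
  exact h2

end TN

end S_H12_TN_RI

section S_H12_TN_RJ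

/-!
RJ (case B: the arc opposite to a gap).  `J = {ξ | ‖ξ‖ = 1, 0 < re (eta p q ξ)}` is the gap, `R = {ξ | ‖ξ‖ = 1, re (eta p q ξ) < 0}` the opposite arc: the circle is the disjoint union of `J`, `R`, `{p, q}`
(`eta` is real and nonzero on the circle off `p, q`).  `om` maps `R` homeomorphically onto the line `im = π`, `om (act κ x) = om x + l`, `l > 0` (CP).
`frameB`: `π t = omi p q (l t + π I)`, `h t = (om p q (e.H (π t))).re / l`.  `e.H` maps `R` onto `R` because it maps `J` onto `J` and fixes `p`, `q` (`e.H` commutes with `κ`: `AR.norm`, `AR.unique`).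
`h` is continuous, injective, `h (t + 1) = h t + 1` (`e.H (act κ x) = act κ (e.H x)`), so it is strictly increasing and onto.  `inj`: `π` is injective, `n = 0`.
`fin`: `F.lim` does not meet `J`, so `F.lim` minus `range π = R` is contained in `{p, q}`.  `meet`: `F.lim` is infinite.
`fixR`: let `AR c a b`; `a, b ∈ F.lim` (`AR.lim`); if both are not in `R` they are in `{p, q}` and distinct, so `act c p = p`, and `c ∈ zpowers κ` by `hst`.
-/

namespace TN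
open Metric Set Filter Topology DS

variable {Γ : Type} [Group Γ]

private theorem RJ_pt {p q : ℂ} (hp : ‖p‖ = 1) (hq : ‖q‖ = 1) (hpq : p ≠ q) (s : ℝ) :
    ((s : ℂ) + Real.pi * Complex.I ∈ Str) ∧ ‖omi p q ((s : ℂ) + Real.pi * Complex.I)‖ = 1 ∧
    omi p q ((s : ℂ) + Real.pi * Complex.I) ∈ Dpq p q ∧
    om p q (omi p q ((s : ℂ) + Real.pi * Complex.I)) = (s : ℂ) + Real.pi * Complex.I := by
  have him : ((s : ℂ) + Real.pi * Complex.I).im = Real.pi := by simp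
  have hS : ((s : ℂ) + Real.pi * Complex.I) ∈ Str := by
    refine ⟨?_, ?_⟩
    · rw [him]; exact Real.pi_pos.le
    · rw [him]
  exact ⟨hS, omi_sphere hp hq hpq (Or.inr him), omi_mem hp hq hpq hS, om_omi hp hq hpq hS⟩

private theorem RJ_back {p q : ℂ} (hp : ‖p‖ = 1) (hq : ‖q‖ = 1) (hpq : p ≠ q) {l : ℝ} (hl : 0 < l)
    {x : ℂ} (hx : x ∈ Dpq p q) (him : (om p q x).im = Real.pi) :
    x = omi p q (((l * ((om p q x).re / l) : ℝ) : ℂ) + Real.pi * Complex.I) := by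
  have h1 : (((l * ((om p q x).re / l) : ℝ) : ℂ) + Real.pi * Complex.I) = om p q x := by
    rw [mul_div_cancel₀ _ hl.ne']
    apply Complex.ext
    · simp
    · simp [him]
  rw [h1, omi_om hp hq hpq hx]

theorem frameB (F : Fuchs Γ) (hI : F.lim.Infinite) {e : Elt Γ} (he : Norm F e) {κ : Γ} {p q : ℂ}
    (hκ : F.AR κ p q) (hc : e.θ κ = κ) (hst : ∀ g, F.act g p = p ↔ g ∈ Subgroup.zpowers κ)
    (hgap : ∀ ξ : ℂ, ‖ξ‖ = 1 → 0 < (eta p q ξ).re → ξ ∉ F.lim)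
    (hJ : ∀ ξ : ℂ, ‖ξ‖ = 1 → (0 < (eta p q ξ).re ↔ 0 < (eta p q (e.H ξ)).re)) :
    ∃ π h, Frame F e κ π h ∧ ∀ t, π t ≠ p ∧ π t ≠ q := by
  have hp := hκ.np
  have hq := hκ.nq
  have hpq := hκ.ne
  obtain ⟨l, hl, hom⟩ := om_act hκ
  -- the fixed points of `e.H`
  have hfix := AR.norm hκ he
  rw [hc] at hfix
  obtain ⟨hHp, hHq⟩ := AR.unique hfix hκ
  have hcb : ∀ x : ℂ, ‖x‖ ≤ 1 → x ∈ closedBall (0:ℂ) 1 := fun x hx => by simpa using hx
  have hinjH : ∀ x y : ℂ, ‖x‖ ≤ 1 → ‖y‖ ≤ 1 → e.H x = e.H y → x = y := by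
    intro x y hx hy hxy
    rw [← he.left x (hcb x hx), ← he.left y (hcb y hy), hxy]
  have hHs : ∀ x : ℂ, ‖x‖ = 1 → ‖e.H x‖ = 1 := by
    intro x hx
    have := he.mapS (show x ∈ sphere (0:ℂ) 1 by simpa using hx)
    simpa using this
  have hR : ∀ x : ℂ, ‖x‖ = 1 → x ∈ Dpq p q → (om p q x).im = Real.pi →
      e.H x ∈ Dpq p q ∧ (om p q (e.H x)).im = Real.pi := by
    intro x hx hD him
    have h1 : e.H x ≠ p := by
      intro h
      apply hD.2.1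
      exact hinjH x p hx.le hp.le (h.trans hHp.symm)
    have h2 : e.H x ≠ q := by
      intro h
      apply hD.2.2
      exact hinjH x q hx.le hq.le (h.trans hHq.symm)
    refine ⟨⟨(hHs x hx).le, h1, h2⟩, ?_⟩
    rcases om_im_zero hp hq hpq (hHs x hx) h1 h2 with h3 | h3
    · exfalso
      have h4 := (hJ x hx).2 h3.2
      rcases om_im_zero hp hq hpq hx hD.2.1 hD.2.2 with h5 | h5
      · rw [h5.1] at him
        exact Real.pi_pos.ne him
      · linarith [h5.2]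
    · exact h3.1
  set π : ℝ → ℂ := fun t => omi p q (((l * t : ℝ) : ℂ) + Real.pi * Complex.I) with hπ
  have hπS : ∀ t : ℝ, (((l * t : ℝ) : ℂ) + Real.pi * Complex.I) ∈ Str := fun t =>
    (RJ_pt hp hq hpq (l * t)).1
  have hπn : ∀ t, ‖π t‖ = 1 := fun t => (RJ_pt hp hq hpq (l * t)).2.1
  have hπD : ∀ t, π t ∈ Dpq p q := fun t => (RJ_pt hp hq hpq (l * t)).2.2.1
  have hπo : ∀ t, om p q (π t) = ((l * t : ℝ) : ℂ) + Real.pi * Complex.I := fun t =>
    (RJ_pt hp hq hpq (l * t)).2.2.2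
  have hπim : ∀ t, (om p q (π t)).im = Real.pi := by
    intro t
    rw [hπo]
    simp
  set h : ℝ → ℝ := fun t => (om p q (e.H (π t))).re / l with hh
  have hHπ : ∀ t, e.H (π t) ∈ Dpq p q ∧ (om p q (e.H (π t))).im = Real.pi := fun t =>
    hR (π t) (hπn t) (hπD t) (hπim t)
  have hπh : ∀ t, e.H (π t) = π (h t) := fun t => RJ_back hp hq hpq hl (hHπ t).1 (hHπ t).2
  have hπinj : ∀ s t, π s = π t → s = t := by
    intro s t hst'
    have h1 := congrArg (fun z => (om p q z).re) hst'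
    simp only [hπo] at h1
    simp only [Complex.add_re, Complex.ofReal_re, Complex.mul_re, Complex.I_re, mul_zero,
      Complex.ofReal_im, Complex.I_im, mul_one, sub_self, add_zero] at h1
    exact mul_left_cancel₀ hl.ne' h1
  have hπκ : ∀ t, π (t + 1) = F.act κ (π t) := by
    intro t
    obtain ⟨h1, h2⟩ := hom (π t) (hπD t)
    rw [← omi_om hp hq hpq h1, h2, hπo]
    show omi p q (((l * (t + 1) : ℝ) : ℂ) + Real.pi * Complex.I) = _
    congr 1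
    push_cast
    ring
  have hπc : Continuous π := by
    have h1 : Continuous fun t : ℝ => (((l * t : ℝ) : ℂ) + Real.pi * Complex.I) := by fun_prop
    exact (omi_cont hp hq hpq).comp_continuous h1 hπS
  have hhc : Continuous h := by
    have h1 : Continuous fun t => e.H (π t) :=
      he.cont.comp_continuous hπc fun t => hcb _ (hπn t).le
    have h2 : Continuous fun t => om p q (e.H (π t)) :=
      (om_cont hp hq hpq).comp_continuous h1 fun t => (hHπ t).1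
    exact (Complex.continuous_re.comp h2).div_const l
  have hh1 : ∀ t, h (t + 1) = h t + 1 := by
    intro t
    apply hπinj
    rw [← hπh, hπκ, he.equi κ _ (hcb _ (hπn t).le), hc, hπh, hπκ]
  have hhinj : Function.Injective h := by
    intro s t hst'
    apply hπinj
    apply hinjH _ _ (hπn s).le (hπn t).le
    rw [hπh, hπh, hst']
  have hhm : StrictMono h := by
    rcases hhc.strictMono_of_inj hhinj with h1 | h1
    · exact h1
    · exfalso
      have h2 := h1 (lt_add_one (0:ℝ))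
      rw [hh1] at h2
      linarith
  have hhn : ∀ (n : ℕ) t, h (t + n) = h t + n := by
    intro n
    induction n with
    | zero => intro t; simp
    | succ n ih =>
      intro t
      push_cast
      rw [← add_assoc, hh1, ih, add_assoc]
  have hhs : Function.Surjective h := by
    refine hhc.surjective ?_ ?_
    · refine hhm.monotone.tendsto_atTop_atTop fun b => ?_
      obtain ⟨n, hn⟩ := exists_nat_ge (b - h 0)
      refine ⟨0 + n, ?_⟩
      rw [hhn]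
      linarith
    · refine hhm.monotone.tendsto_atBot_atBot fun b => ?_
      obtain ⟨n, hn⟩ := exists_nat_ge (h 0 - b)
      refine ⟨-(n : ℝ), ?_⟩
      have h2 := hhn n (-(n : ℝ))
      rw [neg_add_cancel] at h2
      linarith
  have hlim : ∀ ξ ∈ F.lim, ξ ≠ p → ξ ≠ q → ξ ∈ range π := by
    intro ξ hξ h1 h2
    have hn : ‖ξ‖ = 1 := hξ.1
    rcases om_im_zero hp hq hpq hn h1 h2 with h3 | h3
    · exact absurd hξ (hgap ξ hn h3.2)
    · exact ⟨_, (RJ_back hp hq hpq hl ⟨hn.le, h1, h2⟩ h3.1).symm⟩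
  have hlim2 : ∀ ξ ∈ F.lim, ξ ∉ range π → ξ = p ∨ ξ = q := by
    intro ξ hξ h1
    by_contra h2
    push Not at h2
    exact h1 (hlim ξ hξ h2.1 h2.2)
  refine ⟨π, h, ?_, fun t => ⟨(hπD t).2.1, (hπD t).2.2⟩⟩
  refine ⟨hπc, hπn, hhc, hhm, hhs, hh1, hπh, hπκ, hc, ?_, ?_, ?_, ?_⟩
  · intro s t hst'
    refine ⟨0, ?_, zpow_zero κ⟩
    rw [hπinj s t hst']
    simp
  · refine (Set.toFinite {p, q}).subset ?_
    rintro ξ ⟨h1, h2⟩
    exact hlim2 ξ h1 h2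
  · obtain ⟨ξ, hξ, h1⟩ := hI.exists_notMem_finite (Set.toFinite {p, q})
    have h2 : ξ ≠ p ∧ ξ ≠ q := by
      constructor
      · rintro rfl; exact h1 (by simp)
      · rintro rfl; exact h1 (by simp)
    obtain ⟨t, ht⟩ := hlim ξ hξ h2.1 h2.2
    exact ⟨t, by rw [ht]; exact hξ⟩
  · intro c hcz a b hab
    by_contra hcon
    push Not at hcon
    obtain ⟨hla, hlb⟩ := AR.lim hab
    have hfp : F.act c p = p := by
      rcases hlim2 a hla hcon.1 with h1 | h1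
      · rw [← h1]; exact hab.fp
      · rcases hlim2 b hlb hcon.2 with h2 | h2
        · rw [← h2]; exact hab.fq
        · exact absurd (h1.trans h2.symm) hab.ne
    exact hcz ((hst c).1 hfp)

end TN

end S_H12_TN_RJ
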