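import Pool.Agent.H12.KS.K11
import Pool.Agent.H12.KS.K15
import Pool.Agent.H12.KS.K43
import Pool.Agent.H12.KS.K44

/-! Joined modules of the proof of MP_8a27c0_an (one section per module). -/

section S_H12_TN_JB

/-!
JB (fixed points on the boundary of the strip).  Let `a ∈ Str`, `a.im = 0` or `a.im = π`, `ξ = omi a` (on the circle, `≠ p, q`),
`e.H ξ = ξ`, so `sm a = a`; write `S = sm p q e.H`.
`sa_strip`: by `om_bilip` at `ξ` (constants `c, C, δ`): for `ω ∈ Str` near `a`, `y = omi ω` is near `ξ` (`omi_cont`), `e.H y` is near `ξ`,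
`dist (S ω) a = dist (om (e.H y)) (om ξ) ≤ C dist (e.H y) ξ ≤ C ε' dist y ξ ≤ (C ε'/c) dist ω a`.  For arbitrary `ω` near `a`: `S ω = S (clm ω)`,
`clm a = a`, `dist (clm ω) a ≤ dist ω a` (`clm_lip`).
Isolation: `FF` (`SA.isolated`, `SA.isolated_inv`): the fixed points of `S` are in `Str` and correspond to those of `e.H` (`sm_fix`).
Type A (`SA e.H ξ`): `ε = 1/2`: for `0 < dist ω a < δ`, `(S ω - ω)/(ω - a) = -1 + (S ω - a)/(ω - a)` has negative real part
(norm of the last term `≤ 1/2`), so `- (S ω - ω)/(ω - a)` is in the slit plane: log on the sphere (`IC_log_slit`, `IC_log_neg`).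
Type R (`SA e.Hi ξ`): apply `sa_strip` to `e.inv` (`Norm.inv`) with `ε = 1/10`: for `ω ∈ Str` near `a`, `S ω` is near `a` (continuity) and
`sm p q e.Hi (S ω) = ω` (`sm_inv`), so `dist ω a ≤ (1/10) dist (S ω) a`.  Claim: for `0 < dist ω a = s < δ` the number
`S ω - ω` is not of the form `- i t` (if `a.im = 0`), resp. `i t` (if `a.im = π`) with `t > 0`, and not `0`: if `S ω = ω - i t` then
`im ω - t = im (S ω) ≥ 0`, so `im ω ≥ t > 0` and `ω ∈ Str` (near `a`, `im ω < π`), hence `dist (S ω) a ≥ 10 s` and `t ≥ 9 s`, but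
`t ≤ im ω ≤ s`.  Same at the upper line.  So `(S ω - ω)/i` (resp. `-(S ω - ω)/i`) is in the slit plane on the sphere.
`sa_act`: `e.H (act g x) = act g (e.H x)`; the Moebius map is bi-Lipschitz on the closed disc: by `act_dist`,
`(1-‖b‖)²... ` precisely `dist (act g x) (act g y)` is between `((1-‖b‖²)/4) dist x y` and `((1-‖b‖²)/(1-‖b‖)²) dist x y`.
-/

namespace TN
open Metric Set Filter Topology DS

variable {Γ : Type} [Group Γ] {F : Fuchs Γ} {p q : ℂ} {e : Elt Γ} {κ : Γ}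

private theorem JB_log_slit {f : ℂ → ℂ} {S : Set ℂ} (hf : ContinuousOn f S)
    (h : ∀ z ∈ S, f z ∈ Complex.slitPlane) : HasLog f S := by
  refine ⟨fun z => Complex.log (f z), ?_, fun z hz => ?_⟩
  · intro z hz
    exact (hf z hz).clog (h z hz)
  · exact (Complex.exp_log (Complex.slitPlane_ne_zero (h z hz))).symm

private theorem JB_log_cmul {f : ℂ → ℂ} {S : Set ℂ} {c : ℂ} (hc : c ≠ 0)
    (hf : HasLog (fun z => c * f z) S) : HasLog f S := by
  obtain ⟨L, h1, h2⟩ := hf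
  refine ⟨fun z => L z - Complex.log c, h1.sub continuousOn_const, fun z hz => ?_⟩
  show f z = Complex.exp (L z - Complex.log c)
  rw [Complex.exp_sub, ← h2 z hz, Complex.exp_log hc]
  field_simp

private theorem JB_Str {a : ℂ} (ha : a.im = 0 ∨ a.im = Real.pi) : a ∈ Str := by
  rcases ha with h | h
  · exact ⟨h.ge, by rw [h]; exact Real.pi_pos.le⟩
  · exact ⟨by rw [h]; exact Real.pi_pos.le, h.le⟩

theorem sa_strip (he : Norm F e) (hκ : F.AR κ p q) (hc : e.θ κ = κ) {a : ℂ}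
    (ha : a.im = 0 ∨ a.im = Real.pi) (hs : SA e.H (omi p q a)) :
    ∀ ε > 0, ∃ δ > 0, ∀ ω : ℂ, dist ω a < δ → dist (sm p q e.H ω) a ≤ ε * dist ω a := by
  intro ε hε
  have hp := hκ.np
  have hq := hκ.nq
  have hpq := hκ.ne
  have haS : a ∈ Str := JB_Str ha
  set ξ : ℂ := omi p q a with hξ
  have hξD : ξ ∈ Dpq p q := omi_mem hp hq hpq haS
  have hoξ : om p q ξ = a := om_omi hp hq hpq haS
  obtain ⟨c, hc0, C, hC0, δ0, hδ0, hb⟩ := om_bilip hp hq hpq hξD
  rw [hoξ] at hb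
  obtain ⟨δ1, hδ1, h1⟩ := hs.2 (ε * c / C) (by positivity)
  obtain ⟨δ2, hδ2, h2⟩ := hs.2 1 one_pos
  have hcont := omi_cont hp hq hpq a haS
  rw [Metric.continuousWithinAt_iff] at hcont
  obtain ⟨δ3, hδ3, h3⟩ := hcont (min δ0 (min δ1 δ2)) (by positivity)
  refine ⟨δ3, hδ3, fun ω hω => ?_⟩
  have hcl : dist (clm ω) a ≤ dist ω a := by
    have := clm_lip ω a
    rwa [clm_id haS] at this
  have hy := h3 (clm_mem ω) (lt_of_le_of_lt hcl hω)
  set y : ℂ := omi p q (clm ω) with hydef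
  have hyD : y ∈ Dpq p q := omi_mem hp hq hpq (clm_mem ω)
  have hyc : y ∈ closedBall (0:ℂ) 1 := by simpa using hyD.1
  have hoy : om p q y = clm ω := om_omi hp hq hpq (clm_mem ω)
  have hy0 : dist y ξ < δ0 := lt_of_lt_of_le hy (min_le_left _ _)
  have hy1 : dist y ξ < δ1 := lt_of_lt_of_le hy ((min_le_right _ _).trans (min_le_left _ _))
  have hy2 : dist y ξ < δ2 := lt_of_lt_of_le hy ((min_le_right _ _).trans (min_le_right _ _))
  have g1 := h1 y hyc hy1
  have g2 := h2 y hyc hy2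
  have hHD := (norm_Dpq he hκ hc hyD).1
  have g3 := (hb (e.H y) hHD (by linarith)).2
  have g4 := (hb y hyD hy0).1
  rw [hoy] at g4
  show dist (om p q (e.H y)) a ≤ ε * dist ω a
  calc dist (om p q (e.H y)) a ≤ C * dist (e.H y) ξ := g3
    _ ≤ C * (ε * c / C * dist y ξ) := mul_le_mul_of_nonneg_left g1 hC0.le
    _ = ε * (c * dist y ξ) := by field_simp
    _ ≤ ε * dist (clm ω) a := mul_le_mul_of_nonneg_left g4 hε.le
    _ ≤ ε * dist ω a := mul_le_mul_of_nonneg_left hcl hε.le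

theorem typeA (he : Norm F e) (hκ : F.AR κ p q) (hc : e.θ κ = κ) {a : ℂ}
    (ha : a.im = 0 ∨ a.im = Real.pi) (hs : SA e.H (omi p q a)) :
    ∃ δ > 0, (∀ ω : ℂ, 0 < dist ω a → dist ω a < δ → sm p q e.H ω ≠ ω) ∧
      ∀ s : ℝ, 0 < s → s < δ → HasLog (fun ω => (sm p q e.H ω - ω) / (ω - a) ^ (1:ℤ)) (sphere a s) := by
  obtain ⟨δ, hδ, h⟩ := sa_strip he hκ hc ha hs (1 / 2) (by norm_num)
  refine ⟨δ, hδ, ?_, ?_⟩
  · intro ω h0 h1 h2
    have h3 := h ω h1
    rw [h2] at h3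
    linarith
  · intro s hs0 hsδ
    apply JB_log_cmul (c := -1) (by norm_num)
    have hne : ∀ z ∈ sphere a s, z - a ≠ 0 := by
      intro z hz h1
      rw [mem_sphere, dist_eq_norm, h1, norm_zero] at hz
      linarith
    apply JB_log_slit
    · simp only [zpow_one]
      refine continuousOn_const.mul (ContinuousOn.div ?_ ?_ hne)
      · exact ((sm_cont he hκ hc).sub continuous_id).continuousOn
      · fun_prop
    · intro z hz
      simp only [zpow_one]
      have h1 := hne z hz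
      have h2 : dist z a = s := hz
      have h3 := h z (by rw [h2]; exact hsδ)
      rw [dist_eq_norm, dist_eq_norm] at h3
      have h4 : ‖(sm p q e.H z - a) / (z - a)‖ ≤ 1 / 2 := by
        rw [norm_div, div_le_iff₀ (norm_pos_iff.2 h1)]
        exact h3
      have h5 : -1 * ((sm p q e.H z - z) / (z - a)) = 1 - (sm p q e.H z - a) / (z - a) := by
        field_simp
        ring
      rw [h5, Complex.mem_slitPlane_iff]
      left
      have h6 := Complex.re_le_norm ((sm p q e.H z - a) / (z - a))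
      simp only [Complex.sub_re, Complex.one_re]
      linarith

theorem typeR (he : Norm F e) (hκ : F.AR κ p q) (hc : e.θ κ = κ) {a : ℂ}
    (ha : a.im = 0 ∨ a.im = Real.pi) (hs : SA e.Hi (omi p q a)) :
    ∃ δ > 0, (∀ ω : ℂ, 0 < dist ω a → dist ω a < δ → sm p q e.H ω ≠ ω) ∧
      ∀ s : ℝ, 0 < s → s < δ → HasLog (fun ω => (sm p q e.H ω - ω) / (ω - a) ^ (0:ℤ)) (sphere a s) := by
  have hp := hκ.np
  have hq := hκ.nq
  have hpq := hκ.ne
  have haS : a ∈ Str := JB_Str ha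
  have hξn : ‖omi p q a‖ = 1 := omi_sphere hp hq hpq ha
  have hξc : omi p q a ∈ closedBall (0:ℂ) 1 := by simpa using hξn.le
  have hci : e.inv.θ κ = κ := by
    show e.θ.symm κ = κ
    rw [MulEquiv.symm_apply_eq, hc]
  obtain ⟨δ1, hδ1, h1⟩ := sa_strip he.inv hκ hci ha (show SA e.inv.H (omi p q a) from hs)
    (1 / 10) (by norm_num)
  have hfa : e.H (omi p q a) = omi p q a := by
    have := he.right _ hξc
    rwa [hs.1] at this
  have hSa : sm p q e.H a = a := (sm_fix he hκ hc).2 ⟨haS, hfa⟩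
  have hcont := (sm_cont he hκ hc).continuousAt (x := a)
  rw [Metric.continuousAt_iff] at hcont
  obtain ⟨δ2, hδ2, h2⟩ := hcont δ1 hδ1
  rw [hSa] at h2
  have hkey : ∀ ω ∈ Str, dist ω a < δ2 → dist ω a ≤ 1 / 10 * dist (sm p q e.H ω) a := by
    intro ω hω hd
    have h3 := h1 (sm p q e.H ω) (h2 hd)
    have h4 : sm p q e.inv.H (sm p q e.H ω) = ω := sm_inv he hκ hc hω
    rwa [h4] at h3
  -- the sign `c = I` (lower line), `c = - I` (upper line)
  have hsl : ∃ c : ℂ, c ≠ 0 ∧ ∀ ω, 0 < dist ω a → dist ω a < min δ2 Real.pi →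
      c * (sm p q e.H ω - ω) ∈ Complex.slitPlane := by
    have hfin : ∀ ω, 0 < dist ω a → dist ω a < min δ2 Real.pi → ω ∈ Str →
        ∀ t : ℝ, 0 ≤ t → t ≤ dist ω a → dist (sm p q e.H ω) ω ≤ t → False := by
      intro ω h0 hd hS t ht0 ht1 ht2
      have h5 := hkey ω hS (lt_of_lt_of_le hd (min_le_left _ _))
      have h6 := dist_triangle (sm p q e.H ω) ω a
      linarith
    rcases ha with ha | ha
    · refine ⟨-Complex.I, neg_ne_zero.2 Complex.I_ne_zero, fun ω h0 hd => ?_⟩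
      by_contra hcon
      rw [Complex.mem_slitPlane_iff] at hcon
      push Not at hcon
      obtain ⟨h3, h4⟩ := hcon
      simp only [Complex.mul_re, Complex.mul_im, Complex.neg_re, Complex.neg_im, Complex.I_re,
        Complex.I_im, Complex.sub_re, Complex.sub_im] at h3 h4
      have hSm := sm_mem he hκ hc ω
      have him : |ω.im - a.im| ≤ dist ω a := by
        rw [dist_eq_norm, ← Complex.sub_im]
        exact Complex.abs_im_le_norm _
      rw [ha, sub_zero] at him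
      have him1 := abs_le.1 him
      have hdpi := lt_of_lt_of_le hd (min_le_right _ _)
      have hre : (sm p q e.H ω).re = ω.re := by linarith
      have ht : (sm p q e.H ω).im ≤ ω.im := by linarith
      refine hfin ω h0 hd ⟨?_, ?_⟩ (ω.im - (sm p q e.H ω).im) (by linarith) ?_ ?_
      · linarith [hSm.1]
      · linarith
      · linarith [hSm.1]
      · rw [dist_eq_norm]
        have h7 : sm p q e.H ω - ω = ((-(ω.im - (sm p q e.H ω).im) : ℝ) : ℂ) * Complex.I := by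
          apply Complex.ext
          · simp [hre]
          · simp
        rw [h7, norm_mul, Complex.norm_I, mul_one, Complex.norm_real, Real.norm_eq_abs, abs_neg,
          abs_of_nonneg (by linarith)]
    · refine ⟨Complex.I, Complex.I_ne_zero, fun ω h0 hd => ?_⟩
      by_contra hcon
      rw [Complex.mem_slitPlane_iff] at hcon
      push Not at hcon
      obtain ⟨h3, h4⟩ := hcon
      simp only [Complex.mul_re, Complex.mul_im, Complex.I_re,
        Complex.I_im, Complex.sub_re, Complex.sub_im] at h3 h4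
      have hSm := sm_mem he hκ hc ω
      have him : |ω.im - a.im| ≤ dist ω a := by
        rw [dist_eq_norm, ← Complex.sub_im]
        exact Complex.abs_im_le_norm _
      rw [ha] at him
      have him1 := abs_le.1 him
      have hdpi := lt_of_lt_of_le hd (min_le_right _ _)
      have hre : (sm p q e.H ω).re = ω.re := by linarith
      have ht : ω.im ≤ (sm p q e.H ω).im := by linarith
      refine hfin ω h0 hd ⟨?_, ?_⟩ ((sm p q e.H ω).im - ω.im) (by linarith) ?_ ?_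
      · linarith
      · linarith [hSm.2]
      · linarith [hSm.2]
      · rw [dist_eq_norm]
        have h7 : sm p q e.H ω - ω = (((sm p q e.H ω).im - ω.im : ℝ) : ℂ) * Complex.I := by
          apply Complex.ext
          · simp [hre]
          · simp
        rw [h7, norm_mul, Complex.norm_I, mul_one, Complex.norm_real, Real.norm_eq_abs,
          abs_of_nonneg (by linarith)]
  obtain ⟨c, hc0, hsl⟩ := hsl
  refine ⟨min δ2 Real.pi, lt_min hδ2 Real.pi_pos, ?_, ?_⟩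
  · intro ω h0 hd h3
    have h4 := hsl ω h0 hd
    rw [h3, sub_self, mul_zero] at h4
    exact Complex.slitPlane_ne_zero h4 rfl
  · intro s hs0 hsδ
    apply JB_log_cmul hc0
    apply JB_log_slit
    · simp only [zpow_zero, div_one]
      exact (continuous_const.mul ((sm_cont he hκ hc).sub continuous_id)).continuousOn
    · intro z hz
      simp only [zpow_zero, div_one]
      have h2 : dist z a = s := hz
      exact hsl z (by rw [h2]; exact hs0) (by rw [h2]; exact hsδ)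

private theorem JB_lip (F : Fuchs Γ) (g : Γ) : ∃ K : ℝ, 0 < K ∧ ∀ x y : ℂ, ‖x‖ ≤ 1 → ‖y‖ ≤ 1 →
    dist (F.act g x) (F.act g y) ≤ K * dist x y := by
  have hb := F.hb g
  have hb0 : 0 < 1 - ‖F.b g‖ := by linarith
  have hb1 : 0 < 1 - ‖F.b g‖ ^ 2 := by nlinarith [norm_nonneg (F.b g)]
  have hlow : ∀ x : ℂ, ‖x‖ ≤ 1 → 1 - ‖F.b g‖ ≤ ‖1 - (starRingEnd ℂ) (F.b g) * x‖ := by
    intro x hx
    have h1 := norm_sub_norm_le 1 ((starRingEnd ℂ) (F.b g) * x)
    rw [norm_one, norm_mul, Complex.norm_conj] at h1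
    have h2 : ‖F.b g‖ * ‖x‖ ≤ ‖F.b g‖ := mul_le_of_le_one_right (norm_nonneg _) hx
    linarith
  refine ⟨(1 - ‖F.b g‖ ^ 2) / ((1 - ‖F.b g‖) * (1 - ‖F.b g‖)), by positivity, fun x y hx hy => ?_⟩
  rw [act_dist F g hx hy, div_mul_eq_mul_div]
  have h1 := hlow x hx
  have h2 := hlow y hy
  exact div_le_div_of_nonneg_left (by positivity) (by positivity)
    (mul_le_mul h1 h2 hb0.le (hb0.le.trans h1))

theorem sa_act (he : Norm F e) {g : Γ} (hg : e.θ g = g) {ξ : ℂ} (hξ : ‖ξ‖ = 1) (hs : SA e.H ξ) :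
    SA e.H (F.act g ξ) := by
  have hξc : ξ ∈ closedBall (0:ℂ) 1 := by simpa using hξ.le
  refine ⟨?_, ?_⟩
  · rw [he.equi g ξ hξc, hg, hs.1]
  · intro ε hε
    obtain ⟨K1, hK1, hL1⟩ := JB_lip F g
    obtain ⟨K2, hK2, hL2⟩ := JB_lip F g⁻¹
    obtain ⟨δ, hδ, h1⟩ := hs.2 (ε / (K1 * K2)) (by positivity)
    refine ⟨δ / K2, by positivity, fun x hx hd => ?_⟩
    have hx1 : ‖x‖ ≤ 1 := by simpa using hx
    have hy1 : ‖F.act g⁻¹ x‖ ≤ 1 := act_le F g⁻¹ hx1
    have hyc : F.act g⁻¹ x ∈ closedBall (0:ℂ) 1 := by simpa using hy1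
    have hHy : ‖e.H (F.act g⁻¹ x)‖ ≤ 1 := by
      have := he.mapC hyc
      simpa using this
    have h2 := hL2 x (F.act g ξ) hx1 (act_le F g hξ.le)
    rw [act_inv_act F g hξ.le] at h2
    have h3 : dist (F.act g⁻¹ x) ξ < δ := by
      rw [lt_div_iff₀ hK2] at hd
      linarith
    have h4 := h1 _ hyc h3
    have h5 : e.H x = F.act g (e.H (F.act g⁻¹ x)) := by
      have h6 := he.equi g _ hyc
      rw [act_act_inv F g hx1, hg] at h6
      exact h6
    rw [h5]
    calc dist (F.act g (e.H (F.act g⁻¹ x))) (F.act g ξ) ≤ K1 * dist (e.H (F.act g⁻¹ x)) ξ :=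
          hL1 _ _ hHy hξ.le
      _ ≤ K1 * (ε / (K1 * K2) * dist (F.act g⁻¹ x) ξ) := mul_le_mul_of_nonneg_left h4 hK1.le
      _ ≤ K1 * (ε / (K1 * K2) * (K2 * dist x (F.act g ξ))) := by gcongr
      _ = ε * dist x (F.act g ξ) := by field_simp

end TN

end S_H12_TN_JB

section S_H12_TN_JF

/-!
JF (finitely many boundary holes).  Abstract statement about a continuous map `S` of the plane commuting with the translation by `l`, a set
`B` of fixed points which is closed, translation invariant, and isolated (local data at each point), and a closed translation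
invariant set `K` disjoint from `B`.  Proof.  `A = {a ∈ B | 0 ≤ a.re ∧ a.re < l}`.  `B ∩ {0 ≤ re ≤ l}` is compact (closed, and bounded because `im` is in
`[0, π]`) and every point of it is isolated in the set of fixed points: finite.  So `A` is finite.  Every `a ∈ B` has exactly one
translate in `A`.  For `a, b ∈ A` and `z : ℤ` with `(a, 0) ≠ (b, z)` we have `a ≠ b + z l`, and
the distances `dist a (b + z l)` are bounded below by a positive number (for `|z| ≥ 2` the distance is at least `l` by the real parts; finitely many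
others).  `K` is closed and does not contain `a ∈ A`: a positive distance.  Take `s` smaller than a third of all these numbers, than all
the `δ a` and than the given bound `s₀`.
-/

namespace TN
open Metric Set Filter Topology DS

theorem JF_inv {l : ℝ} {X : Set ℂ} (h : ∀ a, a ∈ X ↔ a + l ∈ X) (z : ℤ) (a : ℂ) :
    a ∈ X ↔ a + z * l ∈ X := by
  induction z using Int.induction_on with
  | zero => simp
  | succ i ih =>
    rw [ih, h (a + (i : ℤ) * l)]
    have e : a + ((i : ℤ) : ℂ) * l + l = a + (((i : ℤ) + 1 : ℤ) : ℂ) * l := by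
      push_cast
      ring
    rw [e]
  | pred i ih =>
    rw [ih, h (a + ((-(i : ℤ) - 1 : ℤ) : ℂ) * l)]
    have e : a + ((-(i : ℤ) - 1 : ℤ) : ℂ) * l + l = a + ((-(i : ℤ) : ℤ) : ℂ) * l := by
      push_cast
      ring
    rw [e]

theorem bd_holes {l : ℝ} (hl : 0 < l) {S : ℂ → ℂ} (hS : Continuous S)
    (hp : ∀ ω, S (ω + l) = S ω + l) {B : Set ℂ} (hB : IsClosed B)
    (hBs : ∀ a ∈ B, 0 ≤ a.im ∧ a.im ≤ Real.pi ∧ S a = a) (hBp : ∀ a, a ∈ B ↔ a + l ∈ B)
    {δ : ℂ → ℝ} (hδ : ∀ a ∈ B, 0 < δ a ∧ ∀ ω : ℂ, 0 < dist ω a → dist ω a < δ a → S ω ≠ ω)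
    {K : Set ℂ} (hK : IsClosed K) (hKp : ∀ a, a ∈ K ↔ a + l ∈ K) (hKB : Disjoint K B)
    {s₀ : ℝ} (hs₀ : 0 < s₀) :
    ∃ (A : Finset ℂ) (s : ℝ), 0 < s ∧ s < s₀ ∧ (∀ a ∈ A, a ∈ B ∧ s < δ a) ∧
      (∀ a ∈ B, ∃ z : ℤ, a + z * l ∈ A) ∧
      (∀ a ∈ A, ∀ b ∈ A, ∀ z : ℤ, (a ≠ b ∨ z ≠ 0) →
        ∀ ω ∈ closedBall a s, ω + z * l ∉ closedBall b s) ∧
      ∀ a ∈ A, ∀ z : ℤ, ∀ ω ∈ closedBall a s, ω + z * l ∉ K := by
  classical
  have hcl : IsClosed {a : ℂ | 0 ≤ a.re ∧ a.re ≤ l} := by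
    exact (isClosed_le continuous_const Complex.continuous_re).inter
      (isClosed_le Complex.continuous_re continuous_const)
  have hcomp : IsCompact (B ∩ {a : ℂ | 0 ≤ a.re ∧ a.re ≤ l}) := by
    refine Metric.isCompact_of_isClosed_isBounded (hB.inter hcl) ?_
    refine (isBounded_closedBall (x := (0:ℂ)) (r := l + Real.pi)).subset ?_
    rintro a ⟨ha, h1, h2⟩
    obtain ⟨h3, h4, -⟩ := hBs a ha
    rw [mem_closedBall_zero_iff]
    refine (Complex.norm_le_abs_re_add_abs_im a).trans ?_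
    rw [abs_of_nonneg h1, abs_of_nonneg h3]
    linarith
  have hfin0 : (B ∩ {a : ℂ | 0 ≤ a.re ∧ a.re ≤ l}).Finite := by
    obtain ⟨t, ht1, ht2⟩ := hcomp.elim_nhds_subcover (fun a => ball a (δ a))
      (fun a ha => ball_mem_nhds a (hδ a ha.1).1)
    refine t.finite_toSet.subset fun y hy => ?_
    obtain ⟨x, hx, hyx⟩ := mem_iUnion₂.1 (ht2 hy)
    by_cases hxy : y = x
    · rw [hxy]
      exact hx
    · exfalso
      exact (hδ x (ht1 x hx).1).2 y (dist_pos.2 hxy) (mem_ball.1 hyx) (hBs y hy.1).2.2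
  have hfin : {a : ℂ | a ∈ B ∧ 0 ≤ a.re ∧ a.re < l}.Finite :=
    hfin0.subset fun a ha => ⟨ha.1, ha.2.1, ha.2.2.le⟩
  set A : Finset ℂ := hfin.toFinset with hA
  have hmemA : ∀ a, a ∈ A ↔ a ∈ B ∧ 0 ≤ a.re ∧ a.re < l := by
    intro a
    rw [hA, Set.Finite.mem_toFinset]
    rfl
  have hsmall : ∀ c : ℝ, 0 < c → ∀ᶠ s : ℝ in 𝓝[>] 0, s < c := fun c hc =>
    mem_nhdsWithin_of_mem_nhds (Iio_mem_nhds hc)
  have hpos : ∀ᶠ s : ℝ in 𝓝[>] 0, 0 < s := self_mem_nhdsWithin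
  have h1 : ∀ᶠ s : ℝ in 𝓝[>] 0, ∀ a ∈ A, s < δ a := by
    rw [Filter.eventually_all_finset]
    intro a ha
    exact hsmall _ (hδ a ((hmemA a).1 ha).1).1
  have hre : ∀ (a : ℂ) (z : ℤ), (a + z * l).re = a.re + z * l := by
    intro a z
    rw [Complex.add_re]
    congr 1
    rw [← Complex.ofReal_intCast, ← Complex.ofReal_mul, Complex.ofReal_re]
  have h2 : ∀ᶠ s : ℝ in 𝓝[>] 0, ∀ a ∈ A, ∀ b ∈ A, ∀ z ∈ Finset.Icc (-1 : ℤ) 1,
      (a ≠ b ∨ z ≠ 0) → 2 * s < dist (a + z * l) b := by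
    rw [Filter.eventually_all_finset]
    intro a ha
    rw [Filter.eventually_all_finset]
    intro b hb
    rw [Filter.eventually_all_finset]
    intro z _
    by_cases hz : a ≠ b ∨ z ≠ 0
    · have hne : a + z * l ≠ b := by
        intro h
        have ha' := ((hmemA a).1 ha).2
        have hb' := ((hmemA b).1 hb).2
        have h3 := congrArg Complex.re h
        rw [hre] at h3
        have hz0 : z = 0 := by
          have h4 : (z : ℝ) * l < 1 * l := by linarith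
          have h5 : (-1 : ℝ) * l < z * l := by linarith
          have h6 : (z : ℝ) < 1 := lt_of_mul_lt_mul_right h4 hl.le
          have h7 : (-1 : ℝ) < z := lt_of_mul_lt_mul_right h5 hl.le
          have h8 : z < 1 := by exact_mod_cast h6
          have h9 : -1 < z := by exact_mod_cast h7
          omega
        rcases hz with hz | hz
        · apply hz
          rw [hz0] at h
          simpa using h
        · exact hz hz0
      have hd : 0 < dist (a + z * l) b / 2 := by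
        have := dist_pos.2 hne
        positivity
      filter_upwards [hsmall _ hd] with s hs _
      linarith
    · exact Eventually.of_forall fun s h => absurd h hz
  have h3 : ∀ᶠ s : ℝ in 𝓝[>] 0, ∀ a ∈ A, ∀ ω ∈ closedBall a s, ω ∉ K := by
    rw [Filter.eventually_all_finset]
    intro a ha
    have haK : a ∈ Kᶜ := fun h => Set.disjoint_left.1 hKB h ((hmemA a).1 ha).1
    obtain ⟨ε, hε, hb⟩ := Metric.isOpen_iff.1 hK.isOpen_compl a haK
    filter_upwards [hsmall ε hε] with s hs ω hω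
    exact hb (lt_of_le_of_lt (mem_closedBall.1 hω) hs)
  obtain ⟨s, hs0, hss, hs1, hs2, hs3, hsl⟩ :=
    (hpos.and ((hsmall s₀ hs₀).and (h1.and (h2.and (h3.and (hsmall (l / 2) (by positivity))))))).exists
  refine ⟨A, s, hs0, hss, fun a ha => ⟨((hmemA a).1 ha).1, hs1 a ha⟩, ?_, ?_, ?_⟩
  · intro a ha
    refine ⟨-⌊a.re / l⌋, (hmemA _).2 ⟨(JF_inv hBp _ _).1 ha, ?_⟩⟩
    rw [hre]
    have f1 := Int.floor_le (a.re / l)
    have f2 := Int.lt_floor_add_one (a.re / l)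
    rw [le_div_iff₀ hl] at f1
    rw [div_lt_iff₀ hl] at f2
    push_cast
    constructor
    · linarith
    · linarith
  · intro a ha b hb z hz ω hω hω'
    have hd : dist (a + z * l) b ≤ 2 * s := by
      have e1 : dist (a + z * l) (ω + z * l) ≤ s := by
        rw [dist_add_right, dist_comm]
        exact mem_closedBall.1 hω
      have e2 : dist (ω + z * l) b ≤ s := mem_closedBall.1 hω'
      linarith [dist_triangle (a + z * l) (ω + z * l) b]
    by_cases hz1 : z ∈ Finset.Icc (-1 : ℤ) 1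
    · exact absurd (hs2 a ha b hb z hz1 hz) (not_lt.2 hd)
    · have ha' := ((hmemA a).1 ha).2
      have hb' := ((hmemA b).1 hb).2
      have h4 : |(a + z * l - b).re| ≤ dist (a + z * l) b := by
        rw [dist_eq_norm]
        exact Complex.abs_re_le_norm _
      rw [Complex.sub_re, hre] at h4
      rw [Finset.mem_Icc, not_and_or] at hz1
      rcases hz1 with hz1 | hz1
      · have h5 : (z : ℝ) ≤ -2 := by
          have : z ≤ -2 := by omega
          exact_mod_cast this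
        have h6 : (z : ℝ) * l ≤ -2 * l := mul_le_mul_of_nonneg_right h5 hl.le
        have h7 := neg_abs_le (a.re + z * l - b.re)
        linarith
      · have h5 : (2 : ℝ) ≤ z := by
          have : 2 ≤ z := by omega
          exact_mod_cast this
        have h6 : 2 * l ≤ (z : ℝ) * l := mul_le_mul_of_nonneg_right h5 hl.le
        have h7 := le_abs_self (a.re + z * l - b.re)
        linarith
  · intro a ha z ω hω h
    exact hs3 a ha ω hω ((JF_inv hKp z ω).2 h)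

end TN

end S_H12_TN_JF

section S_H12_TN_JX

/-!
JX (index modulo a cyclic group).  `l` from `om_act`; `S = sm p q e.H` satisfies the hypotheses on `Fh` of `pai` (JS; `M` from `sm_bdd`, `im ≥ 0` from
`sm_mem`).  `B = {a | (a.im = 0 ∨ a.im = π) ∧ S a = a}`: closed, invariant; for `a ∈ B` the point `omi a` is on the circle (`omi_sphere`), `≠ p, q`
(`omi_mem`), fixed by `e.H` (`sm_fix`), so by `hT` it is `SA` for `e.H` or `e.Hi`: `typeA`, `typeR` give `δ a > 0` (choose; if `SA e.H (omi a)` take the one of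
`typeA`) and the log for the exponent `n a = if SA e.H (omi a) then 1 else 0`.
`K = ⋃ i, {ω | ∃ z, ω + z l ∈ om '' closure (O i)}` closed (`int_closed`, finite union), invariant, disjoint from `B` (`0 < im < π` by `int_hole`).
`bd_holes` (with `s₀ = 1`) gives `A`, `s`.
Apply `pai` with `y₁ = π + 1`, index type `Fin m ⊕ A` (`A` as a subtype), holes `om '' O i`, centres `om (k i)`, exponents `1`; balls `ball a s`, centre `a`,
exponent `n a`; `L ω = log (S ω - ω)` on `im ω = π + 1` (there `im (S ω - ω) ≤ -1`: slit plane), `w = 0`.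
`hy`: `im < π < y₁`, resp. `im ≤ π + s < π + 1`.  `hd`: two interior holes: if `om x + z l = om y`, `x ∈ closure (O i)`, `y ∈ closure (O j)` then
`om_act_zpow` gives `act (κ^z) x = y` (`omi_om`), contradiction to `Holes.disj` for `g = κ ^ z` (`g ≠ 1` if `z ≠ 0`: `pow_inj`); interior and ball: `K`;
two balls: `bd_holes`.  (`closure (ball a s) ⊆ closedBall a s`, `frontier (ball a s) = sphere a s`.)
`hz`: `S ω = ω` gives `ω ∈ Str`, `x = omi ω` fixed.  If `‖x‖ < 1`: `Holes.fix`: `x = act (κ^z) y`, `y ∈ O i`, so `ω = om x = om y + z l`.  If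
`‖x‖ = 1`: `ω ∈ B` (`om_im_zero`), a translate is in `A`.
Conclusion: `0 + (m + ∑_{a ∈ A} n a) = 0` with all terms `≥ 0`: `m = 0` and `n a = 0` for `a ∈ A`.  If `SA e.H ξ`, `ξ ≠ p, q` on the circle, then
`om ξ ∈ B`, `om ξ + z l ∈ A`, `omi (om ξ + z l) = act (κ^z) ξ` is `SA` by `sa_act` (`θ (κ^z) = κ^z`), so `n = 1`: contradiction.
-/

namespace TN
open Metric Set Filter Topology DS

variable {Γ : Type} [Group Γ]

private theorem JX_im {ω : ℂ} {z : ℤ} {l : ℝ} : (ω + z * l).im = ω.im := by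
  simp

open Classical in
theorem index1' (F : Fuchs Γ) {e : Elt Γ} (he : Norm F e) {κ : Γ} {p q : ℂ} (hκ : F.AR κ p q)
    (hc : e.θ κ = κ) {m : ℕ} {O : Fin m → Set ℂ} {k : Fin m → ℂ}
    (ho : Holes F e.H (Subgroup.zpowers κ) m O k)
    (hT : ∀ ξ : ℂ, ‖ξ‖ = 1 → ξ ≠ p → ξ ≠ q → e.H ξ = ξ → SA e.H ξ ∨ SA e.Hi ξ) :
    m = 0 ∧ ∀ ξ : ℂ, ‖ξ‖ = 1 → ξ ≠ p → ξ ≠ q → ¬ SA e.H ξ := by
  have hp := hκ.np
  have hq := hκ.nq
  have hpq := hκ.ne
  obtain ⟨l, hl, hact⟩ := om_act hκ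
  have hballD : ∀ x ∈ ball (0:ℂ) 1, x ∈ Dpq p q := fun x hx => CP_ball_Dpq hp hq hx
  have hlb : ∀ x ∈ ball (0:ℂ) 1, om p q (F.act κ x) = om p q x + l := fun x hx =>
    (hact x (hballD x hx)).2
  obtain ⟨-, hzp⟩ := om_act_zpow hκ hlb
  set S : ℂ → ℂ := sm p q e.H with hSdef
  have hS : Continuous S := sm_cont he hκ hc
  have hSp : ∀ ω, S (ω + l) = S ω + l := fun ω => sm_add he hκ hc hlb ω
  obtain ⟨M, hM⟩ := sm_bdd he hκ hc hlb
  have him : ∀ ω, 0 ≤ (S ω).im := fun ω => (sm_mem he hκ hc ω).1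
  have him' : ∀ ω, (S ω).im ≤ Real.pi := fun ω => (sm_mem he hκ hc ω).2
  -- `κ ≠ 1`
  have hκ1 : κ ≠ 1 := by
    intro h
    have h1 := hlb 0 (by simp)
    rw [h, act_one F (by simp)] at h1
    have h2 : ((l : ℝ) : ℂ) = 0 := by simpa using h1
    exact hl.ne' (by exact_mod_cast h2)
  have hinj : ∀ x ∈ Dpq p q, ∀ y ∈ Dpq p q, om p q x = om p q y → x = y := by
    intro x hx y hy h
    rw [← omi_om hp hq hpq hx, ← omi_om hp hq hpq hy, h]
  -- the boundary fixed points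
  set B : Set ℂ := {a | (a.im = 0 ∨ a.im = Real.pi) ∧ S a = a} with hBdef
  have hBc : IsClosed B := by
    have h1 : IsClosed {a : ℂ | a.im = 0 ∨ a.im = Real.pi} :=
      (isClosed_eq Complex.continuous_im continuous_const).union
        (isClosed_eq Complex.continuous_im continuous_const)
    exact h1.inter (isClosed_eq hS continuous_id)
  have hBs : ∀ a ∈ B, 0 ≤ a.im ∧ a.im ≤ Real.pi ∧ S a = a := by
    rintro a ⟨h | h, h2⟩
    · exact ⟨h.ge, by rw [h]; exact Real.pi_pos.le, h2⟩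
    · exact ⟨by rw [h]; exact Real.pi_pos.le, h.le, h2⟩
  have hBp : ∀ a, a ∈ B ↔ a + l ∈ B := by
    intro a
    show _ ∧ _ ↔ _ ∧ _
    rw [hSp]
    simp
  set n : ℂ → ℤ := fun a => if SA e.H (omi p q a) then 1 else 0 with hn
  have hn0 : ∀ a, 0 ≤ n a := by
    intro a
    rw [hn]
    dsimp only
    split_ifs <;> norm_num
  have hloc : ∀ a ∈ B, ∃ δ : ℝ, 0 < δ ∧ (∀ ω : ℂ, 0 < dist ω a → dist ω a < δ → S ω ≠ ω) ∧
      ∀ s : ℝ, 0 < s → s < δ → HasLog (fun ω => (S ω - ω) / (ω - a) ^ (n a)) (sphere a s) := by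
    rintro a ⟨ha, ha2⟩
    obtain ⟨hstr, hfix⟩ := (sm_fix he hκ hc).mp ha2
    have h1 := omi_sphere hp hq hpq ha
    have h2 := omi_mem hp hq hpq hstr
    by_cases hsa : SA e.H (omi p q a)
    · obtain ⟨δ, hδ, h3, h4⟩ := typeA he hκ hc ha hsa
      refine ⟨δ, hδ, h3, ?_⟩
      have : n a = 1 := by rw [hn]; simp [hsa]
      rw [this]
      exact h4
    · have hsr := (hT _ h1 h2.2.1 h2.2.2 hfix).resolve_left hsa
      obtain ⟨δ, hδ, h3, h4⟩ := typeR he hκ hc ha hsr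
      refine ⟨δ, hδ, h3, ?_⟩
      have : n a = 0 := by rw [hn]; simp [hsa]
      rw [this]
      exact h4
  choose! δ hδ hδ1 hδ2 using hloc
  -- the interior holes
  have hint := fun i => int_hole he hκ hc (ho.opn i) (ho.mem i) (ho.sub i) (ho.log i)
  set K : Set ℂ := ⋃ i, {ω : ℂ | ∃ z : ℤ, ω + z * l ∈ om p q '' closure (O i)} with hKdef
  have hKc : IsClosed K := isClosed_iUnion_of_finite fun i => int_closed hl (hint i).2.2.1
  have hKp : ∀ a, a ∈ K ↔ a + l ∈ K := by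
    intro a
    rw [hKdef, mem_iUnion, mem_iUnion]
    refine exists_congr fun i => ?_
    constructor
    · rintro ⟨z, hz⟩
      refine ⟨z - 1, ?_⟩
      have : a + l + ((z - 1 : ℤ) : ℂ) * l = a + z * l := by push_cast; ring
      rw [this]
      exact hz
    · rintro ⟨z, hz⟩
      refine ⟨z + 1, ?_⟩
      have : a + ((z + 1 : ℤ) : ℂ) * l = a + l + z * l := by push_cast; ring
      rw [this]
      exact hz
  have hKB : Disjoint K B := by
    rw [disjoint_left]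
    rintro a haK ⟨haB, -⟩
    rw [hKdef, mem_iUnion] at haK
    obtain ⟨i, z, hz⟩ := haK
    obtain ⟨h1, h2⟩ := (hint i).2.2.2.1 _ hz
    rw [JX_im] at h1 h2
    rcases haB with h | h
    · rw [h] at h1; exact lt_irrefl _ h1
    · rw [h] at h2; exact lt_irrefl _ h2
  obtain ⟨A, s, hs, hs1, hA1, hA2, hA3, hA4⟩ := bd_holes hl hS hSp hBc hBs hBp
    (δ := δ) (fun a ha => ⟨hδ a ha, hδ1 a ha⟩) hKc hKp hKB one_pos
  have hmemK : ∀ i, ∀ ω ∈ om p q '' closure (O i), ω ∈ K := by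
    intro i ω hω
    rw [hKdef, mem_iUnion]
    exact ⟨i, 0, by simpa using hω⟩
  have hcl : ∀ a : ℂ, closure (ball a s) ⊆ closedBall a s := fun a => closure_ball_subset_closedBall
  have hkey : (0:ℤ) + ∑ i : Fin m ⊕ A, (Sum.elim (fun _ => (1:ℤ)) (fun a : A => n a) i) = 0 := by
    refine pai hl hS hSp hM him (y₁ := Real.pi + 1) (ι := Fin m ⊕ A)
      (Sum.elim (fun i => om p q '' O i) (fun a => ball (a : ℂ) s))
      (Sum.elim (fun i => om p q (k i)) (fun a => (a : ℂ)))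
      (Sum.elim (fun _ => (1:ℤ)) (fun a : A => n a)) ?_ ?_ ?_ ?_ ?_ ?_ ?_ 0
      (L := fun ω => Complex.log (S ω - ω)) ?_ ?_ ?_
    · rintro (i | a)
      · exact (hint i).1
      · exact isOpen_ball
    · rintro (i | a)
      · exact (hint i).2.2.1.isBounded.subset (image_mono subset_closure)
      · exact isBounded_ball
    · rintro (i | a)
      · exact ⟨k i, ho.mem i, rfl⟩
      · exact mem_ball_self hs
    · rintro (i | a) ω hω
      · have hω' : ω ∈ closure (om p q '' O i) := hω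
        rw [(hint i).2.1] at hω'
        have := ((hint i).2.2.2.1 ω hω').2
        linarith
      · have hω' : ω ∈ closedBall (a : ℂ) s := hcl _ hω
        rw [mem_closedBall, dist_eq_norm] at hω'
        have h1 := Complex.abs_im_le_norm (ω - a)
        rw [Complex.sub_im] at h1
        have h2 := (abs_le.mp (h1.trans hω')).2
        have h3 := (hBs a (hA1 a a.2).1).2.1
        linarith
    · rintro (i | a) (j | b) z hijz ω hω hωz
      · have hω' : ω ∈ closure (om p q '' O i) := hω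
        have hωz' : ω + z * l ∈ closure (om p q '' O j) := hωz
        rw [(hint i).2.1] at hω'
        rw [(hint j).2.1] at hωz'
        obtain ⟨x, hx, rfl⟩ := hω'
        obtain ⟨y, hy, hxy⟩ := hωz'
        have hxD := hballD x (ho.sub i hx)
        have hyD := hballD y (ho.sub j hy)
        obtain ⟨h1, h2⟩ := hzp z x hxD
        have h3 : F.act (κ ^ z) x = y := hinj _ h1 _ hyD (h2.trans hxy.symm)
        have h4 : κ ^ z ≠ 1 ∨ i ≠ j := by
          rcases hijz with h | h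
          · exact Or.inr fun hij => h (by rw [hij])
          · left
            intro h5
            apply h
            apply pow_inj F hκ1
            show κ ^ z = κ ^ (0:ℤ)
            rw [h5, zpow_zero]
        have h5 := ho.disj i j (κ ^ z) ⟨z, rfl⟩ h4
        exact disjoint_left.mp h5 ⟨x, hx, h3⟩ hy
      · have hω' : ω ∈ closure (om p q '' O i) := hω
        rw [(hint i).2.1] at hω'
        have hωz' : ω + z * l ∈ closedBall (b : ℂ) s := hcl _ hωz
        have h1 := hA4 b b.2 (-z) _ hωz'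
        apply h1
        have : ω + z * l + ((-z : ℤ) : ℂ) * l = ω := by push_cast; ring
        rw [this]
        exact hmemK i ω hω'
      · have hωz' : ω + z * l ∈ closure (om p q '' O j) := hωz
        rw [(hint j).2.1] at hωz'
        have hω' : ω ∈ closedBall (a : ℂ) s := hcl _ hω
        exact hA4 a a.2 z ω hω' (hmemK j _ hωz')
      · have hω' : ω ∈ closedBall (a : ℂ) s := hcl _ hω
        have hωz' : ω + z * l ∈ closedBall (b : ℂ) s := hcl _ hωz
        refine hA3 a a.2 b b.2 z ?_ ω hω' hωz'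
        rcases hijz with h | h
        · exact Or.inl fun hab => h (by rw [Subtype.ext hab])
        · exact Or.inr h
    · intro ω _ hω
      obtain ⟨hstr, hfix⟩ := (sm_fix he hκ hc).mp hω
      have hD := omi_mem hp hq hpq hstr
      have hom := om_omi hp hq hpq hstr
      by_cases hlt : ‖omi p q ω‖ < 1
      · obtain ⟨g, ⟨z, rfl⟩, i, y, hy, hyx⟩ := ho.fix (omi p q ω) (mem_ball_zero_iff.mpr hlt) hfix
        refine ⟨Sum.inl i, -z, ?_⟩
        show ω + ((-z : ℤ) : ℂ) * l ∈ om p q '' O i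
        refine ⟨y, hy, ?_⟩
        have hyD := hballD y (ho.sub i (subset_closure hy))
        have h1 := (hzp z y hyD).2
        have h2 : F.act (κ ^ z) y = omi p q ω := hyx
        rw [h2, hom] at h1
        rw [h1]
        push_cast
        ring
      · have h1 : ‖omi p q ω‖ = 1 := le_antisymm hD.1 (not_lt.mp hlt)
        have h2 := om_im_zero hp hq hpq h1 hD.2.1 hD.2.2
        rw [hom] at h2
        have hωB : ω ∈ B := by
          refine ⟨?_, hω⟩
          rcases h2 with h | h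
          · exact Or.inl h.1
          · exact Or.inr h.1
        obtain ⟨z, hz⟩ := hA2 ω hωB
        exact ⟨Sum.inr ⟨_, hz⟩, z, mem_ball_self hs⟩
    · rintro (i | a)
      · exact (hint i).2.2.2.2
      · show HasLog (fun ω => (S ω - ω) / (ω - (a : ℂ)) ^ (n a)) (frontier (ball (a : ℂ) s))
        rw [frontier_ball _ hs.ne']
        exact hδ2 a (hA1 a a.2).1 s hs (hA1 a a.2).2
    · refine ContinuousOn.clog (hS.sub continuous_id).continuousOn ?_
      intro ω hω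
      have h1 : ω.im = Real.pi + 1 := hω
      right
      rw [Complex.sub_im]
      have := him' ω
      rw [h1]
      linarith
    · intro ω hω
      rw [Complex.exp_log]
      intro h
      have h2 := congrArg Complex.im h
      rw [Complex.sub_im, hω, Complex.zero_im] at h2
      have := him' ω
      linarith
    · intro ω _
      rw [hSp]
      have : S ω + l - (ω + l) = S ω - ω := by ring
      rw [this]
      simp
  rw [Fintype.sum_sum_type] at hkey
  simp only [Sum.elim_inl, Sum.elim_inr] at hkey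
  have h1 : (0:ℤ) ≤ ∑ a : A, n a := Finset.sum_nonneg fun a _ => hn0 a
  rw [Finset.sum_const, Finset.card_univ, Fintype.card_fin] at hkey
  simp only [nsmul_eq_mul, mul_one, zero_add] at hkey
  refine ⟨by omega, ?_⟩
  intro ξ hξ hξp hξq hsa
  have h2 : ∑ a : A, n a = 0 := by omega
  have hξD : ξ ∈ Dpq p q := ⟨hξ.le, hξp, hξq⟩
  have hB : om p q ξ ∈ B := by
    refine ⟨?_, ?_⟩
    · rcases om_im_zero hp hq hpq hξ hξp hξq with h | h
      · exact Or.inl h.1
      · exact Or.inr h.1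
    · rw [hSdef, sm_om he hκ hc hξD, hsa.1]
  obtain ⟨z, hz⟩ := hA2 _ hB
  obtain ⟨h3, h4⟩ := hzp z ξ hξD
  have h5 : omi p q (om p q ξ + z * l) = F.act (κ ^ z) ξ := by
    rw [← h4, omi_om hp hq hpq h3]
  have h6 : e.θ (κ ^ z) = κ ^ z := by rw [map_zpow, hc]
  have h7 := sa_act he h6 hξ hsa
  have h8 := (Finset.sum_eq_zero_iff_of_nonneg (s := Finset.univ) (f := fun a : A => n a)
    (fun a _ => hn0 a)).mp h2 ⟨_, hz⟩ (Finset.mem_univ _)
  have h9 : n (om p q ξ + z * l) = 1 := by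
    rw [hn]
    dsimp only
    rw [h5, if_pos h7]
  have h10 : n (om p q ξ + z * l) = 0 := h8
  omega

end TN

end S_H12_TN_JX

section S_H12_TN_JC

/-!
JC (the collar index).  `S = sm p q e.H`, `l > 0` (`om_act_zpow`).  `B = {a | a.im = 0 ∧ S a = a}`: closed, invariant; for `a ∈ B` `omi a` is on the circle, fixed,
and `0 < (eta (omi a)).re` (`om_im_zero`, `om_omi`), so `hT` applies; `δ a`, `n a ∈ {0, 1}` and logs as in JX (`typeA`, `typeR`).
`no_low` : there is `y₀ ∈ (0, π/2)` such that `S ω ≠ ω` for `0 < im ω ≤ y₀`.  Otherwise there are fixed points `ω_n` with `0 < im ω_n → 0`; translate them to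
`0 ≤ re ≤ l`; a subsequence converges to `a` with `im a = 0`, `S a = a`, `a ∈ B`, contradiction to the isolation of `a` (`ω_n ≠ a` as `im ω_n > 0`).
`D = {ω | 0 < im ω < y₀}` is convex and open, hence simply connected: `Complex.exists_continuousOn_eqOn_exp_comp` (as in IA of H36/DS) gives a log `L` of
`S ω - ω` on `D`.  On `D` the function `(L (ω + l) - L ω)/(2πi)` is continuous with integer values (`S (ω+l) - (ω+l) = S ω - ω`), `D` is connected: it is a constant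
integer `w`.  `y₁ = y₀/2`.  On `im ω ≤ y₁`, `clm ω = ω`, so `S ω = om (e.H (omi ω))`.
First conclusion: for `x` in the disc with `im (om x) ≤ y₁` put `ω = om x`, `0 < im ω`: `S ω ≠ ω` means `e.H x ≠ x` (`sm_om`).
`w ≤ 0`: `bd_holes` with `K = ∅`, `s₀ = y₁`; `pai` at height `y₁` with index type `A`, holes `ball a s` (`im ≤ s < y₁`), `hz`: a fixed point with `im ≤ y₁` is in
`Str` and has `im = 0`, so it is in `B`.  `L` is continuous on the line `im = y₁` and satisfies `hLe`, `hLp`.  So `w = - ∑ n a ≤ 0`.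
-/

namespace TN
open Metric Set Filter Topology DS

variable {Γ : Type} [Group Γ]

theorem JC_add_int {S : ℂ → ℂ} {l : ℝ} (hp : ∀ ω, S (ω + l) = S ω + l) (z : ℤ) :
    ∀ ω, S (ω + z * l) = S ω + z * l := by
  induction z using Int.induction_on with
  | zero => intro ω; simp
  | succ n ih =>
    intro ω
    have h1 : ω + ((n + 1 : ℤ) : ℂ) * l = (ω + ((n : ℤ) : ℂ) * l) + l := by push_cast; ring
    rw [h1, hp, ih]
    push_cast
    ring
  | pred n ih =>
    intro ω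
    have h1 : S (ω + ((-n - 1 : ℤ) : ℂ) * l) + l = S (ω + ((-n : ℤ) : ℂ) * l) := by
      rw [← hp]
      congr 1
      push_cast
      ring
    rw [ih] at h1
    push_cast at h1 ⊢
    linear_combination h1

/-- the local data at a fixed point of the lower boundary line -/
theorem JC_local {F : Fuchs Γ} {e : Elt Γ} (he : Norm F e) {κ : Γ} {p q : ℂ} (hκ : F.AR κ p q)
    (hc : e.θ κ = κ)
    (hT : ∀ ξ : ℂ, ‖ξ‖ = 1 → ξ ≠ p → ξ ≠ q → 0 < (eta p q ξ).re → e.H ξ = ξ → SA e.H ξ ∨ SA e.Hi ξ)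
    {a : ℂ} (ha : a.im = 0) (hS : sm p q e.H a = a) :
    ∃ δ : ℝ, ∃ n : ℤ, 0 ≤ n ∧ 0 < δ ∧ (∀ ω : ℂ, 0 < dist ω a → dist ω a < δ → sm p q e.H ω ≠ ω) ∧
      ∀ s : ℝ, 0 < s → s < δ → HasLog (fun ω => (sm p q e.H ω - ω) / (ω - a) ^ n) (sphere a s) := by
  obtain ⟨hStr, hfix⟩ := (sm_fix he hκ hc).1 hS
  have hmem := omi_mem hκ.np hκ.nq hκ.ne hStr
  have hsph := omi_sphere hκ.np hκ.nq hκ.ne (Or.inl ha)
  have heta : 0 < (eta p q (omi p q a)).re := by
    rcases om_im_zero hκ.np hκ.nq hκ.ne hsph hmem.2.1 hmem.2.2 with h | h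
    · exact h.2
    · exfalso
      rw [om_omi hκ.np hκ.nq hκ.ne hStr, ha] at h
      exact Real.pi_pos.ne h.1
  rcases hT _ hsph hmem.2.1 hmem.2.2 heta hfix with h | h
  · obtain ⟨δ, hδ, h1, h2⟩ := typeA he hκ hc (Or.inl ha) h
    exact ⟨δ, 1, by norm_num, hδ, h1, h2⟩
  · obtain ⟨δ, hδ, h1, h2⟩ := typeR he hκ hc (Or.inl ha) h
    exact ⟨δ, 0, le_rfl, hδ, h1, h2⟩

theorem no_low (F : Fuchs Γ) {e : Elt Γ} (he : Norm F e) {κ : Γ} {p q : ℂ} (hκ : F.AR κ p q)
    (hc : e.θ κ = κ) {l : ℝ} (hl : ∀ x ∈ ball (0:ℂ) 1, om p q (F.act κ x) = om p q x + l)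
    (hT : ∀ ξ : ℂ, ‖ξ‖ = 1 → ξ ≠ p → ξ ≠ q → 0 < (eta p q ξ).re → e.H ξ = ξ → SA e.H ξ ∨ SA e.Hi ξ) :
    ∃ y₀ : ℝ, 0 < y₀ ∧ y₀ < Real.pi / 2 ∧
      ∀ ω : ℂ, 0 < ω.im → ω.im ≤ y₀ → sm p q e.H ω ≠ ω := by
  have hl0 : 0 < l := (om_act_zpow hκ hl).1
  have hcont : Continuous (sm p q e.H) := sm_cont he hκ hc
  have hadd := JC_add_int (sm_add he hκ hc hl)
  set G : Set ℂ := {ω | 0 < ω.im → sm p q e.H ω ≠ ω} with hG
  set K : Set ℂ := Icc 0 l ×ℂ {0} with hK
  have hKc : IsCompact K := isCompact_Icc.reProdIm isCompact_singleton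
  have hKG : K ⊆ interior G := by
    intro a ha
    have ha0 : a.im = 0 := by
      have := ha.2
      simpa using this
    rw [mem_interior_iff_mem_nhds]
    by_cases hS : sm p q e.H a = a
    · obtain ⟨δ, n, -, hδ, h1, -⟩ := JC_local he hκ hc hT ha0 hS
      filter_upwards [ball_mem_nhds a hδ] with ω hω hω0
      have hne : ω ≠ a := by
        rintro rfl
        rw [ha0] at hω0
        exact lt_irrefl _ hω0
      exact h1 ω (dist_pos.2 hne) hω
    · have h2 : ∀ᶠ ω in 𝓝 a, sm p q e.H ω ≠ ω :=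
        (hcont.continuousAt.ne_iff_eventually_ne continuousAt_id).1 hS
      filter_upwards [h2] with ω hω _
      exact hω
  obtain ⟨δ, hδ, hsub⟩ := hKc.exists_thickening_subset_open isOpen_interior hKG
  refine ⟨min (δ / 2) 1, by positivity, lt_of_le_of_lt (min_le_right _ _) (by linarith [Real.pi_gt_three]), ?_⟩
  intro ω hω0 hω1 hfix
  set z : ℤ := -⌊ω.re / l⌋ with hz
  have hre : (ω + z * l).re = ω.re + z * l := by simp
  have him : (ω + z * l).im = ω.im := by simp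
  have h1 : 0 ≤ ω.re + z * l := by
    have := Int.floor_le (ω.re / l)
    rw [le_div_iff₀ hl0] at this
    rw [hz]; push_cast; linarith
  have h2 : ω.re + z * l ≤ l := by
    have := (Int.lt_floor_add_one (ω.re / l)).le
    rw [div_le_iff₀ hl0] at this
    rw [hz]; push_cast; linarith
  have hth : ω + z * l ∈ thickening δ K := by
    rw [mem_thickening_iff]
    refine ⟨⟨(ω + z * l).re, 0⟩, ⟨?_, by simp⟩, ?_⟩
    · show (ω + z * l).re ∈ Icc 0 l
      rw [hre]
      exact ⟨h1, h2⟩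
    · rw [Complex.dist_eq]
      have h3 : ω + z * l - ⟨(ω + z * l).re, 0⟩ = ((ω.im : ℝ) : ℂ) * Complex.I := by
        apply Complex.ext <;> simp
      rw [h3, norm_mul, Complex.norm_I, mul_one, Complex.norm_real, Real.norm_eq_abs, abs_of_pos hω0]
      have := hω1.trans (min_le_left _ _)
      linarith
  have h4 := interior_subset (hsub hth)
  apply h4
  · rw [him]; exact hω0
  · rw [hadd, hfix]

theorem JC_allLogs {W : Set ℂ} (hc : Convex ℝ W) (ho : IsOpen W) {f : ℂ → ℂ} (hf : ContinuousOn f W)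
    (h0 : ∀ z ∈ W, f z ≠ 0) : HasLog f W := by
  rcases W.eq_empty_or_nonempty with he | hne
  · subst he
    exact ⟨fun _ => 0, continuousOn_const, fun z hz => absurd hz (notMem_empty z)⟩
  · have hsc : IsSimplyConnected W := by
      have := hc.contractibleSpace hne
      exact (inferInstance : SimplyConnectedSpace W)
    obtain ⟨L, hL, hE⟩ := Complex.exists_continuousOn_eqOn_exp_comp hsc ho hf (by
      rintro ⟨z, hz, hz0⟩
      exact h0 z hz hz0)
    exact ⟨L, hL, fun z hz => (hE hz).symm⟩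

theorem JC_int_const {D : Set ℂ} (hD : IsPreconnected D) {h : ℂ → ℝ} (hc : ContinuousOn h D)
    (hi : ∀ ω ∈ D, ∃ n : ℤ, h ω = n) {x y : ℂ} (hx : x ∈ D) (hy : y ∈ D) : h x = h y := by
  have key : ∀ x ∈ D, ∀ y ∈ D, ¬ h x < h y := by
    intro x hx y hy hlt
    have ho := (hD.image h hc).ordConnected
    obtain ⟨n, hn⟩ := hi x hx
    obtain ⟨m, hm⟩ := hi y hy
    rw [hn, hm] at hlt
    have hlt' : n < m := by exact_mod_cast hlt
    have hle : (n:ℝ) + 1 ≤ m := by exact_mod_cast hlt'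
    have hmem := ho.out (mem_image_of_mem h hx) (mem_image_of_mem h hy)
      (show (n:ℝ) + 1 / 2 ∈ Icc (h x) (h y) by rw [hn, hm]; constructor <;> linarith)
    obtain ⟨z, hz, hzz⟩ := hmem
    obtain ⟨k, hk⟩ := hi z hz
    rw [hk] at hzz
    have h1 : (2 * k : ℤ) = 2 * n + 1 := by
      have : (2:ℝ) * k = 2 * n + 1 := by linarith
      exact_mod_cast this
    omega
  exact le_antisymm (not_lt.1 (key y hy x hx)) (not_lt.1 (key x hx y hy))

theorem collar' (F : Fuchs Γ) {e : Elt Γ} (he : Norm F e) {κ : Γ} {p q : ℂ} (hκ : F.AR κ p q)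
    (hc : e.θ κ = κ) {l : ℝ} (hl : ∀ x ∈ ball (0:ℂ) 1, om p q (F.act κ x) = om p q x + l)
    (hT : ∀ ξ : ℂ, ‖ξ‖ = 1 → ξ ≠ p → ξ ≠ q → 0 < (eta p q ξ).re → e.H ξ = ξ → SA e.H ξ ∨ SA e.Hi ξ) :
    ∃ y₁ : ℝ, 0 < y₁ ∧ y₁ < Real.pi / 2 ∧
      (∀ x ∈ ball (0:ℂ) 1, (om p q x).im ≤ y₁ → e.H x ≠ x) ∧
      ∃ L : ℂ → ℂ, ContinuousOn L {ω : ℂ | 0 < ω.im ∧ ω.im ≤ y₁} ∧
        (∀ ω : ℂ, 0 < ω.im → ω.im ≤ y₁ → om p q (e.H (omi p q ω)) - ω = Complex.exp (L ω)) ∧
        ∃ w : ℤ, w ≤ 0 ∧ ∀ ω : ℂ, 0 < ω.im → ω.im ≤ y₁ →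
          L (ω + l) = L ω + 2 * Real.pi * w * Complex.I := by
  have hl0 : 0 < l := (om_act_zpow hκ hl).1
  have hcont : Continuous (sm p q e.H) := sm_cont he hκ hc
  have hadd1 := sm_add he hκ hc hl
  have hpi := Real.pi_pos
  obtain ⟨y₀, hy₀, hy₀', hno⟩ := no_low F he hκ hc hl hT
  set D : Set ℂ := {ω | 0 < ω.im ∧ ω.im < y₀} with hDdef
  have hDc : Convex ℝ D := by
    have h1 : Convex ℝ {ω : ℂ | 0 < ω.im} := convex_halfSpace_im_gt 0
    have h2 : Convex ℝ {ω : ℂ | ω.im < y₀} := convex_halfSpace_im_lt y₀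
    exact h1.inter h2
  have hDo : IsOpen D :=
    (isOpen_lt continuous_const Complex.continuous_im).inter
      (isOpen_lt Complex.continuous_im continuous_const)
  obtain ⟨L, hL, hLe⟩ := JC_allLogs hDc hDo (f := fun ω => sm p q e.H ω - ω)
    (hcont.sub continuous_id).continuousOn (fun ω hω => sub_ne_zero.2 (hno ω hω.1 hω.2.le))
  have hDl : ∀ ω ∈ D, ω + l ∈ D := fun ω hω => by
    simp only [hDdef, mem_ofPred_eq, Complex.add_im, Complex.ofReal_im, add_zero]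
    exact hω
  have h2pi : (2 * Real.pi * Complex.I : ℂ) ≠ 0 := Complex.two_pi_I_ne_zero
  -- the integer
  have hint : ∀ ω ∈ D, ∃ n : ℤ, L (ω + l) - L ω = n * (2 * Real.pi * Complex.I) := by
    intro ω hω
    rw [← Complex.exp_eq_one_iff, Complex.exp_sub, ← hLe ω hω, ← hLe _ (hDl ω hω)]
    show (sm p q e.H (ω + l) - (ω + l)) / (sm p q e.H ω - ω) = 1
    rw [hadd1, add_sub_add_right_eq_sub]
    exact div_self (sub_ne_zero.2 (hno ω hω.1 hω.2.le))
  have hω₀ : (⟨0, y₀ / 2⟩ : ℂ) ∈ D := ⟨by simp; linarith, by simp; linarith⟩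
  obtain ⟨w, hw⟩ := hint _ hω₀
  have hwall : ∀ ω ∈ D, L (ω + l) = L ω + 2 * Real.pi * w * Complex.I := by
    intro ω hω
    have hcg : ContinuousOn (fun ω => ((L (ω + l) - L ω) / (2 * Real.pi * Complex.I)).re) D := by
      refine Complex.continuous_re.comp_continuousOn ?_
      refine ContinuousOn.div_const ?_ _
      refine ContinuousOn.sub ?_ hL
      exact hL.comp (continuous_id.add continuous_const).continuousOn hDl
    have h1 := JC_int_const hDc.isPreconnected hcg (fun ω hω => by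
      obtain ⟨n, hn⟩ := hint ω hω
      refine ⟨n, ?_⟩
      rw [hn, mul_div_cancel_right₀ _ h2pi, Complex.intCast_re]) hω hω₀
    obtain ⟨n, hn⟩ := hint ω hω
    rw [hn, hw, mul_div_cancel_right₀ _ h2pi, mul_div_cancel_right₀ _ h2pi, Complex.intCast_re,
      Complex.intCast_re] at h1
    have h2 : n = w := by exact_mod_cast h1
    rw [h2] at hn
    linear_combination hn
  have hStrD : ∀ ω : ℂ, 0 < ω.im → ω.im ≤ y₀ / 2 → ω ∈ Str := fun ω h1 h2 =>
    ⟨h1.le, by linarith⟩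
  have hsm : ∀ ω : ℂ, 0 < ω.im → ω.im ≤ y₀ / 2 → sm p q e.H ω = om p q (e.H (omi p q ω)) := by
    intro ω h1 h2
    rw [sm, clm_id (hStrD ω h1 h2)]
  have hsubD : ∀ ω : ℂ, 0 < ω.im → ω.im ≤ y₀ / 2 → ω ∈ D := fun ω h1 h2 => ⟨h1, by linarith⟩
  refine ⟨y₀ / 2, by linarith, by linarith, ?_, L, ?_, ?_, w, ?_, ?_⟩
  · intro x hx hxy hfix
    have hxD := CP_ball_Dpq hκ.np hκ.nq hx
    have h1 := (om_im_pos hκ.np hκ.nq hκ.ne (by simpa using hx : ‖x‖ < 1)).1
    apply hno (om p q x) h1 (by linarith)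
    rw [sm_om he hκ hc hxD, hfix]
  · exact hL.mono fun ω hω => hsubD ω hω.1 hω.2
  · intro ω h1 h2
    rw [← hsm ω h1 h2]
    exact hLe ω (hsubD ω h1 h2)
  · -- the sign of `w`
    set B : Set ℂ := {a | a.im = 0 ∧ sm p q e.H a = a} with hBdef
    have hBc : IsClosed B :=
      (isClosed_eq Complex.continuous_im continuous_const).inter (isClosed_eq hcont continuous_id)
    choose! δ n hn0 hδ hiso hlog using fun a (ha : a ∈ B) => JC_local he hκ hc hT ha.1 ha.2
    obtain ⟨A, s, hs0, hs1, hA, hAB, hdis, -⟩ := bd_holes hl0 hcont hadd1 hBc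
      (fun a ha => ⟨ha.1.ge, by rw [ha.1]; exact hpi.le, ha.2⟩)
      (fun a => by
        simp only [hBdef, mem_ofPred_eq, Complex.add_im, Complex.ofReal_im, add_zero, hadd1]
        constructor
        · rintro ⟨h1, h2⟩
          exact ⟨h1, by rw [h2]⟩
        · rintro ⟨h1, h2⟩
          exact ⟨h1, by linear_combination h2⟩)
      (δ := δ) (fun a ha => ⟨hδ a ha, hiso a ha⟩) (K := ∅) isClosed_empty (by simp) (by simp)
      (s₀ := y₀ / 2) (by linarith)
    obtain ⟨M, hM⟩ := sm_bdd he hκ hc hl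
    have hpai := pai hl0 hcont hadd1 hM (fun ω => (sm_mem he hκ hc ω).1) (y₁ := y₀ / 2)
      (ι := {a // a ∈ A}) (fun a => ball (a:ℂ) s) (fun a => (a:ℂ)) (fun a => n a)
      (fun a => isOpen_ball) (fun a => isBounded_ball) (fun a => mem_ball_self hs0)
      (fun a ω hω => by
        have h1 : dist ω a ≤ s := closure_ball_subset_closedBall hω
        have h2 : (a:ℂ).im = 0 := (hA a a.2).1.1
        have h3 : |(ω - a).im| ≤ ‖ω - a‖ := Complex.abs_im_le_norm _
        rw [Complex.sub_im, h2, sub_zero, ← Complex.dist_eq] at h3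
        have h4 := le_abs_self ω.im
        linarith)
      (fun a b z hab ω hω hcon => by
        refine hdis a a.2 b b.2 z ?_ ω (closure_ball_subset_closedBall hω)
          (closure_ball_subset_closedBall hcon)
        rcases hab with h | h
        · exact Or.inl fun h' => h (Subtype.ext h')
        · exact Or.inr h)
      (fun ω hω hfix => by
        have h1 := ((sm_fix he hκ hc).1 hfix).1
        have h2 : ω.im = 0 := by
          rcases h1.1.lt_or_eq with h | h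
          · exact absurd hfix (hno ω h (by linarith))
          · exact h.symm
        obtain ⟨z, hz⟩ := hAB ω ⟨h2, hfix⟩
        exact ⟨⟨_, hz⟩, z, mem_ball_self hs0⟩)
      (fun a => by
        rw [frontier_ball _ hs0.ne']
        exact hlog a (hA a a.2).1 s hs0 (hA a a.2).2)
      w (L := L) (hL.mono fun ω (hω : ω.im = y₀ / 2) => hsubD ω (by rw [hω]; linarith) hω.le)
      (fun ω hω => hLe ω (hsubD ω (by rw [hω]; linarith) hω.le))
      (fun ω hω => hwall ω (hsubD ω (by rw [hω]; linarith) hω.le))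
    have hsum : 0 ≤ ∑ a : {a // a ∈ A}, n a := Finset.sum_nonneg fun a _ => hn0 a (hA a a.2).1
    linarith
  · intro ω h1 h2
    exact hwall ω (hsubD ω h1 h2)

end TN

end S_H12_TN_JC

section S_H12_TN_JZ

/-!
JZ (index of the closed disc).  `Φ = {ξ | ‖ξ‖ = 1 ∧ e.H ξ = ξ}` is compact and every point is isolated in it (`SA.isolated`, `SA.isolated_inv`, `hT`), so
it is finite; `n ξ = if SA e.H ξ then 1 else 0`.  (A point with `SA e.H ξ` is fixed, by definition of `SA`.)  For every `ξ ∈ Φ` a radius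
bound: `rrA`/`rrR`, and the isolation radius (no other fixed point of `e.H` in the closed disc).  Choose `s > 0` smaller than all of them, than half of the
distances between the points of `Φ` and than the distances of the points of `Φ` to the compact sets `closure (O i)` (subsets of the open disc,
`Holes.sub`).  Apply `add_index'` with index type `Fin m ⊕ Φ` (finite type), holes `O i` (centre `k i`, exponent `1`), balls `ball ξ s` (centre `ξ`,
exponent `n ξ`), `f z = e.H (rr z) - z`, `N = 1`, `c = -1`: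
the closures of the `O i` are pairwise disjoint (`Holes.disj` with `g = 1`, `act_one`), bounded; `closure (ball ξ s) ⊆ closedBall ξ s`;
`f` is continuous (`rr_cont`, `rr_mem`, `Norm.cont`); a zero `z` of `f` has `z = e.H (rr z)` in the closed disc (`Norm.mapC`), so `rr z = z`, `e.H z = z`: if
`‖z‖ < 1` it is in some `O i` (`Holes.fix`, `g ∈ ⊥` means `g = 1`), if `‖z‖ = 1` it is in `Φ`, in a ball; logs on the frontiers: on `frontier (O i)` (in the
open disc) `rr z = z`, `Holes.log`, and `(z - k)^(1:ℤ) = z - k`; on `frontier (ball ξ s) = sphere ξ s` by `rrA`/`rrR`; at infinity `‖f z + z‖ ≤ 1`.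
So `1 = m + #{ξ ∈ Φ | SA e.H ξ}`.
-/

namespace TN
open Metric Set Filter Topology DS

variable {Γ : Type} [Group Γ]

open Classical in
theorem JZ_radius (F : Fuchs Γ) {e : Elt Γ} (he : Norm F e) {m : ℕ} {O : Fin m → Set ℂ}
    (hsub : ∀ i, closure (O i) ⊆ ball (0:ℂ) 1) {ξ : ℂ} (hξ : ‖ξ‖ = 1)
    (hT : SA e.H ξ ∨ SA e.Hi ξ) :
    ∃ δ > 0, (∀ s : ℝ, 0 < s → s < δ → HasLog (fun z => (e.H (rr z) - z) /
        (z - ξ) ^ (if SA e.H ξ then (1:ℤ) else 0)) (sphere ξ s)) ∧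
      (∀ x ∈ closedBall (0:ℂ) 1, dist x ξ < δ → e.H x = x → x = ξ) ∧
      ∀ i, Disjoint (ball ξ δ) (closure (O i)) := by
  obtain ⟨δ₁, hδ₁, h1⟩ : ∃ δ > 0, ∀ s : ℝ, 0 < s → s < δ → HasLog (fun z => (e.H (rr z) - z) /
        (z - ξ) ^ (if SA e.H ξ then (1:ℤ) else 0)) (sphere ξ s) := by
    by_cases h : SA e.H ξ
    · obtain ⟨δ, hδ, h1⟩ := rrA he hξ h
      refine ⟨δ, hδ, fun s hs hs2 => ?_⟩
      rw [if_pos h]
      exact h1 s hs hs2
    · obtain ⟨δ, hδ, h1⟩ := rrR he hξ (hT.resolve_left h)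
      refine ⟨δ, hδ, fun s hs hs2 => ?_⟩
      rw [if_neg h]
      exact h1 s hs hs2
  obtain ⟨δ₂, hδ₂, h2⟩ : ∃ δ > 0, ∀ x ∈ closedBall (0:ℂ) 1, dist x ξ < δ → e.H x = x → x = ξ := by
    rcases hT with h | h
    · exact h.isolated
    · exact SA.isolated_inv F he h
  obtain ⟨δ₃, hδ₃, h3⟩ : ∃ δ > 0, ball ξ δ ⊆ (⋃ i, closure (O i))ᶜ := by
    have hcl : IsClosed (⋃ i, closure (O i)) := isClosed_iUnion_of_finite fun i => isClosed_closure
    refine Metric.mem_nhds_iff.1 (hcl.isOpen_compl.mem_nhds fun hmem => ?_)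
    obtain ⟨i, hi⟩ := mem_iUnion.1 hmem
    have := mem_ball_zero_iff.1 (hsub i hi)
    linarith
  refine ⟨min δ₁ (min δ₂ δ₃), lt_min hδ₁ (lt_min hδ₂ hδ₃), ?_, ?_, ?_⟩
  · intro s hs hs2
    exact h1 s hs (hs2.trans_le (min_le_left _ _))
  · intro x hx hd
    exact h2 x hx (hd.trans_le ((min_le_right _ _).trans (min_le_left _ _)))
  · intro i
    rw [Set.disjoint_left]
    intro x hx hx2
    have hx3 : x ∈ ball ξ δ₃ := ball_subset_ball ((min_le_right _ _).trans (min_le_right _ _)) hx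
    exact h3 hx3 (mem_iUnion.2 ⟨i, hx2⟩)

theorem index0' (F : Fuchs Γ) {e : Elt Γ} (he : Norm F e) {m : ℕ} {O : Fin m → Set ℂ} {k : Fin m → ℂ}
    (ho : Holes F e.H ⊥ m O k)
    (hT : ∀ ξ : ℂ, ‖ξ‖ = 1 → e.H ξ = ξ → SA e.H ξ ∨ SA e.Hi ξ) :
    ∃ A : Finset ℂ, (∀ ξ, ξ ∈ A ↔ ‖ξ‖ = 1 ∧ SA e.H ξ) ∧ m + A.card = 1 := by
  classical
  set Φ : Set ℂ := {ξ | ‖ξ‖ = 1 ∧ e.H ξ = ξ} with hΦ
  have hrad : ∀ ξ : ℂ, ∃ δ : ℝ, ξ ∈ Φ → 0 < δ ∧
      (∀ s : ℝ, 0 < s → s < δ → HasLog (fun z => (e.H (rr z) - z) /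
        (z - ξ) ^ (if SA e.H ξ then (1:ℤ) else 0)) (sphere ξ s)) ∧
      (∀ x ∈ closedBall (0:ℂ) 1, dist x ξ < δ → e.H x = x → x = ξ) ∧
      ∀ i, Disjoint (ball ξ δ) (closure (O i)) := by
    intro ξ
    by_cases h : ξ ∈ Φ
    · obtain ⟨δ, h1, h2⟩ := JZ_radius F he ho.sub h.1 (hT ξ h.1 h.2)
      exact ⟨δ, fun _ => ⟨h1, h2⟩⟩
    · exact ⟨1, fun h' => absurd h' h⟩
  choose δ hδ using hrad
  -- `Φ` is finite
  have hΦc : IsCompact Φ := by
    have hcl : IsClosed (closedBall (0:ℂ) 1 ∩ {x | e.H x - x = 0}) := by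
      have := (he.cont.sub continuousOn_id).preimage_isClosed_of_isClosed isClosed_closedBall
        (isClosed_singleton (x := (0:ℂ)))
      exact this
    have heq : Φ = sphere (0:ℂ) 1 ∩ (closedBall (0:ℂ) 1 ∩ {x | e.H x - x = 0}) := by
      ext x
      simp only [hΦ, mem_ofPred_eq, mem_inter_iff, mem_sphere_zero_iff_norm,
        mem_closedBall_zero_iff, sub_eq_zero]
      constructor
      · rintro ⟨h1, h2⟩
        exact ⟨h1, h1.le, h2⟩
      · rintro ⟨h1, _, h2⟩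
        exact ⟨h1, h2⟩
    rw [heq]
    exact (isCompact_sphere _ _).inter_right hcl
  have hΦb : ∀ ξ ∈ Φ, ξ ∈ closedBall (0:ℂ) 1 := fun ξ h => mem_closedBall_zero_iff.2 h.1.le
  have hfin : Φ.Finite := by
    obtain ⟨t, ht1, ht⟩ := hΦc.elim_nhds_subcover (fun ξ => ball ξ (δ ξ))
      (fun ξ h => ball_mem_nhds ξ (hδ ξ h).1)
    refine (t.finite_toSet).subset fun x hx => ?_
    obtain ⟨ξ, hξ, hxξ⟩ := mem_iUnion₂.1 (ht hx)
    rw [(hδ ξ (ht1 ξ hξ)).2.2.1 x (hΦb x hx) hxξ hx.2]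
    exact hξ
  -- a common radius
  obtain ⟨s, hs3, hs⟩ : ∃ s : ℝ, (∀ ξ ∈ Φ, 3 * s < δ ξ) ∧ 0 < s := by
    have h1 : ∀ᶠ s in 𝓝[>] (0:ℝ), ∀ ξ ∈ Φ, 3 * s < δ ξ := by
      refine (eventually_all_finite hfin).2 fun ξ hξ => ?_
      have h2 : Tendsto (fun s : ℝ => 3 * s) (𝓝[>] (0:ℝ)) (𝓝 (3 * 0)) :=
        ((continuous_const.mul continuous_id).tendsto 0).mono_left nhdsWithin_le_nhds
      rw [mul_zero] at h2
      exact h2.eventually (gt_mem_nhds (hδ ξ hξ).1)
    exact (h1.and self_mem_nhdsWithin).exists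
  -- the holes
  let P : Finset ℂ := hfin.toFinset
  have hP : ∀ ξ, ξ ∈ P ↔ ξ ∈ Φ := fun ξ => hfin.mem_toFinset
  let O' : Fin m ⊕ P → Set ℂ := Sum.elim O fun ξ => ball ξ.1 s
  let k' : Fin m ⊕ P → ℂ := Sum.elim k fun ξ => ξ.1
  let n' : Fin m ⊕ P → ℤ := Sum.elim (fun _ => 1) fun ξ => if SA e.H ξ.1 then 1 else 0
  have hclb : ∀ ξ : P, closure (ball ξ.1 s) ⊆ closedBall ξ.1 s := fun ξ => closure_ball_subset_closedBall
  have hbδ : ∀ ξ : P, closedBall ξ.1 s ⊆ ball ξ.1 (δ ξ.1) := by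
    intro ξ
    refine closedBall_subset_ball ?_
    have := hs3 ξ.1 ((hP _).1 ξ.2)
    linarith
  have hfc : Continuous fun z => e.H (rr z) - z :=
    (he.cont.comp_continuous rr_cont rr_mem).sub continuous_id
  have hdis1 : ∀ (i : Fin m) (ξ : P), Disjoint (closure (O i)) (closure (ball ξ.1 s)) := by
    intro i ξ
    exact (((hδ ξ.1 ((hP _).1 ξ.2)).2.2.2 i).mono_left ((hclb ξ).trans (hbδ ξ))).symm
  have key := add_index' O' k' n' ?_ ?_ ?_ ?_ (fun z => e.H (rr z) - z) hfc.continuousOn ?_ ?_ 1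
    (c := -1) (by norm_num) ?_
  · -- conclusion
    refine ⟨P.filter fun ξ => SA e.H ξ, ?_, ?_⟩
    · intro ξ
      rw [Finset.mem_filter, hP]
      constructor
      · rintro ⟨h1, h2⟩
        exact ⟨h1.1, h2⟩
      · rintro ⟨h1, h2⟩
        exact ⟨⟨h1, h2.1⟩, h2⟩
    · rw [Fintype.sum_sum_type] at key
      have h1 : ∑ x : P, n' (Sum.inr x) = ((P.filter fun ξ => SA e.H ξ).card : ℤ) := by
        show ∑ x : P, (if SA e.H x.1 then (1:ℤ) else 0) = _
        rw [Finset.sum_coe_sort P (fun x => if SA e.H x then (1:ℤ) else 0), Finset.sum_boole]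
      have h2 : ∑ x : Fin m, n' (Sum.inl x) = (m : ℤ) := by
        show ∑ x : Fin m, (1:ℤ) = _
        simp
      rw [h1, h2] at key
      exact_mod_cast key.symm
  · rintro (i | ξ)
    · exact ho.opn i
    · exact isOpen_ball
  · rintro (i | ξ)
    · exact isBounded_ball.subset (subset_closure.trans (ho.sub i))
    · exact isBounded_ball
  · rintro (i | ξ)
    · exact ho.mem i
    · exact mem_ball_self hs
  · rintro (i | ξ) (j | η) hij
    · have h1 := ho.disj i j 1 (one_mem _) (Or.inr fun h => hij (by rw [h]))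
      have h2 : F.act 1 '' closure (O i) = closure (O i) := by
        refine Set.EqOn.image_eq_self fun x hx => ?_
        exact act_one F (mem_ball_zero_iff.1 (ho.sub i hx)).le
      rw [h2] at h1
      exact h1
    · exact hdis1 i η
    · exact (hdis1 j ξ).symm
    · show Disjoint (closure (ball ξ.1 s)) (closure (ball η.1 s))
      refine Disjoint.mono (hclb ξ) (hclb η) ?_
      rw [Set.disjoint_left]
      intro x hx hx2
      have h1 : dist ξ.1 η.1 ≤ 2 * s := by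
        have := dist_triangle_left ξ.1 η.1 x
        rw [mem_closedBall] at hx hx2
        linarith
      have h2 := hs3 η.1 ((hP _).1 η.2)
      have h3 := (hδ η.1 ((hP _).1 η.2)).2.2.1 ξ.1 (hΦb _ ((hP _).1 ξ.2)) (by linarith)
        ((hP _).1 ξ.2).2
      exact hij (by rw [Subtype.ext h3])
  · intro z hz h0
    apply hz
    have h1 : e.H (rr z) = z := sub_eq_zero.1 h0
    have h2 : z ∈ closedBall (0:ℂ) 1 := by
      rw [← h1]
      exact he.mapC (rr_mem z)
    have h3 : ‖z‖ ≤ 1 := mem_closedBall_zero_iff.1 h2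
    rw [rr_id h3] at h1
    rcases h3.lt_or_eq with h4 | h4
    · obtain ⟨g, hg, i, x, hx, hxz⟩ := ho.fix z (mem_ball_zero_iff.2 h4) h1
      rw [Subgroup.mem_bot] at hg
      rw [hg, act_one F (mem_ball_zero_iff.1 (ho.sub i (subset_closure hx))).le] at hxz
      rw [← hxz]
      exact mem_iUnion.2 ⟨Sum.inl i, hx⟩
    · exact mem_iUnion.2 ⟨Sum.inr ⟨z, (hP z).2 ⟨h4, h1⟩⟩, mem_ball_self hs⟩
  · rintro (i | ξ)
    · refine IC_log_congr (ho.log i) fun z hz => ?_
      have h1 : z ∈ ball (0:ℂ) 1 := ho.sub i (frontier_subset_closure hz)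
      show (e.H (rr z) - z) / (z - k i) ^ (1:ℤ) = _
      rw [rr_id (mem_ball_zero_iff.1 h1).le, zpow_one]
    · show HasLog (fun z => (e.H (rr z) - z) / (z - ξ.1) ^ (if SA e.H ξ.1 then (1:ℤ) else 0))
        (frontier (ball ξ.1 s))
      rw [frontier_ball ξ.1 hs.ne']
      refine (hδ ξ.1 ((hP _).1 ξ.2)).2.1 s hs ?_
      have := hs3 ξ.1 ((hP _).1 ξ.2)
      linarith
  · -- at infinity
    have h1 : Tendsto (fun z : ℂ => e.H (rr z) / z) (cocompact ℂ) (𝓝 0) := by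
      rw [tendsto_zero_iff_norm_tendsto_zero]
      have h2 : Tendsto (fun z : ℂ => ‖z‖⁻¹) (cocompact ℂ) (𝓝 0) :=
        tendsto_inv_atTop_zero.comp (tendsto_norm_cocompact_atTop)
      refine squeeze_zero (fun z => norm_nonneg _) (fun z => ?_) h2
      rw [norm_div, div_eq_mul_inv]
      have h3 : ‖e.H (rr z)‖ ≤ 1 := mem_closedBall_zero_iff.1 (he.mapC (rr_mem z))
      have h4 : 0 ≤ ‖z‖⁻¹ := inv_nonneg.2 (norm_nonneg _)
      nlinarith
    have h5 : ∀ᶠ z : ℂ in cocompact ℂ, z ≠ 0 := by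
      have := (isCompact_singleton (x := (0:ℂ))).compl_mem_cocompact
      filter_upwards [this] with z hz h0
      exact hz h0
    have h6 : Tendsto (fun z : ℂ => e.H (rr z) / z - 1) (cocompact ℂ) (𝓝 (0 - 1)) :=
      h1.sub tendsto_const_nhds
    rw [zero_sub] at h6
    refine h6.congr' ?_
    filter_upwards [h5] with z hz
    rw [zpow_one, sub_div, div_self hz]

end TN

end S_H12_TN_JZ

section S_H12_TN_IX

/-!
IX (section 3.4 of the note: the index lemmas I0, I1 and the collar index).  Proofs in JZ, JX, JC (helper91).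
-/

namespace TN
open Metric Set Filter Topology DS

variable {Γ : Type} [Group Γ]

/-- I0: holes modulo the trivial group; `1 = m + #A` -/
theorem index0 (F : Fuchs Γ) {e : Elt Γ} (he : Norm F e) {m : ℕ} {O : Fin m → Set ℂ} {k : Fin m → ℂ}
    (ho : Holes F e.H ⊥ m O k)
    (hT : ∀ ξ : ℂ, ‖ξ‖ = 1 → e.H ξ = ξ → SA e.H ξ ∨ SA e.Hi ξ) :
    ∃ A : Finset ℂ, (∀ ξ, ξ ∈ A ↔ ‖ξ‖ = 1 ∧ SA e.H ξ) ∧ m + A.card = 1 :=
  index0' F he ho hT

/-- I1: holes modulo a cyclic group; `0 = m + #A` -/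
theorem index1 (F : Fuchs Γ) {e : Elt Γ} (he : Norm F e) {κ : Γ} {p q : ℂ} (hκ : F.AR κ p q)
    (hc : e.θ κ = κ) {m : ℕ} {O : Fin m → Set ℂ} {k : Fin m → ℂ}
    (ho : Holes F e.H (Subgroup.zpowers κ) m O k)
    (hT : ∀ ξ : ℂ, ‖ξ‖ = 1 → ξ ≠ p → ξ ≠ q → e.H ξ = ξ → SA e.H ξ ∨ SA e.Hi ξ) :
    m = 0 ∧ ∀ ξ : ℂ, ‖ξ‖ = 1 → ξ ≠ p → ξ ≠ q → ¬ SA e.H ξ :=
  index1' F he hκ hc ho hT

/-- the collar index: `w = - #A`, along the arc `0 < eta p q` -/
theorem collar (F : Fuchs Γ) {e : Elt Γ} (he : Norm F e) {κ : Γ} {p q : ℂ} (hκ : F.AR κ p q)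
    (hc : e.θ κ = κ) {l : ℝ} (hl : ∀ x ∈ ball (0:ℂ) 1, om p q (F.act κ x) = om p q x + l)
    (hT : ∀ ξ : ℂ, ‖ξ‖ = 1 → ξ ≠ p → ξ ≠ q → 0 < (eta p q ξ).re → e.H ξ = ξ → SA e.H ξ ∨ SA e.Hi ξ) :
    ∃ y₁ : ℝ, 0 < y₁ ∧ y₁ < Real.pi / 2 ∧
      (∀ x ∈ ball (0:ℂ) 1, (om p q x).im ≤ y₁ → e.H x ≠ x) ∧
      ∃ L : ℂ → ℂ, ContinuousOn L {ω : ℂ | 0 < ω.im ∧ ω.im ≤ y₁} ∧
        (∀ ω : ℂ, 0 < ω.im → ω.im ≤ y₁ → om p q (e.H (omi p q ω)) - ω = Complex.exp (L ω)) ∧
        ∃ w : ℤ, w ≤ 0 ∧ ∀ ω : ℂ, 0 < ω.im → ω.im ≤ y₁ →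
          L (ω + l) = L ω + 2 * Real.pi * w * Complex.I :=
  collar' F he hκ hc hl hT

end TN

end S_H12_TN_IX

section S_H12_TN_RK

/-!
RK (case B: an element of the family preserving a gap and commuting with its stabiliser).
`gap_pres`: `J = {ξ | ‖ξ‖ = 1, 0 < re (eta p q ξ)}` is connected (image of the real line under `omi`, CO), its image under `f.H` is connected, contained in the circle minus `F.lim`, hence in the circle
minus `{p, q}` = `J ∪ R`, `R = {re (eta p q ξ) < 0}`, two relatively open sets; it contains `f.H y ∈ J`.  So `f.H` maps `J` to `J`, and so does `f.Hi` (it maps `f.H y ∈ J` to `y ∈ J`).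
`gap_sq`: `f.H p` is in the closure of `f.H (J) = J`, which is contained in `J ∪ {p, q}` (the complement of `R`, `R` open in the circle), and in `F.lim` (`lim_iff`), so in `{p, q}`; same for `q`; `f.H` is injective,
so it permutes `{p, q}` and `f.H (f.H p) = p`, `f.H (f.H q) = q`.  Let `f2 = f.comp f`.  `AR (f2.θ κ) p q` (`AR.norm`), so `f2.θ κ` fixes `p`: `f2.θ κ = κ^n`; the same for `f2.inv`: `f2.θ.symm κ = κ^m`.
`κ = f2.θ (κ^m) = κ^(n m)`, so `n m = 1` (`pow_inj`), `n = ± 1`, and `n = -1` would give `AR κ⁻¹ p q`, contradiction to `AR.inv`, `AR.unique`.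
`rotB`: `gaps`; a point `ξ₀` of the circle not in `F.lim` (`hL` and `F.lim ⊆ sphere`).  Let `e ∈ 𝓗` and `ξ_0 = ξ₀`, `ξ_n = (e.iter (n-1)).H ξ₀ = e.H^[n] ξ₀` not in `F.lim`.  `Gaps.all` gives `g_n`, `i_n` with
`0 < re (eta (p i_n) (q i_n) (act g_n ξ_n))`.  Pigeonhole: `m < n` with `i_m = i_n = i`.  Let `e' = e.iter (n - m - 1)` (so `e'.H ξ_m = ξ_n`) and `f = e'.lmul F (g_n * e'.θ g_m⁻¹)`; `f ∈ 𝓗` and
`f.H (act g_m ξ_m) = act g_n (act (e'.θ g_m⁻¹) (e'.H (act g_m ξ_m))) = act g_n (e'.H ξ_m) = act g_n ξ_n`.  So `gap_pres`, `gap_sq` apply to `f` with `y = act g_m ξ_m`; `f2 = f.comp f ∈ 𝓗`, `f2.θ κ = κ`.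
`frameB` for `f2` (`F.lim` infinite: `lim_infinite`), `frame_rot` gives `h^[n] t = t + m`, and `f3 = f2.tw F κ n (-m)` fixes `π t` (`Frame.tw_H`), `f3.θ κ = κ` (`Frame.tw_theta`), `f3 ∈ 𝓗` (`Fam.tw`).
-/

namespace TN
open Metric Set Filter Topology DS

variable {Γ : Type} [Group Γ]

theorem RK_mem {p q : ℂ} {ξ : ℂ} (hξ : ‖ξ‖ = 1) (h : (eta p q ξ).re ≠ 0) : ξ ∈ Dpq p q := by
  refine ⟨hξ.le, ?_, ?_⟩
  · rintro rfl
    apply h
    simp [eta]
  · rintro rfl
    apply h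
    simp [eta]

/-- the gap is the image of the real line -/
theorem RK_J {p q : ℂ} (hp : ‖p‖ = 1) (hq : ‖q‖ = 1) (hpq : p ≠ q) :
    {ξ : ℂ | ‖ξ‖ = 1 ∧ 0 < (eta p q ξ).re} = omi p q '' {ω : ℂ | ω.im = 0} := by
  ext ξ
  constructor
  · rintro ⟨h1, h2⟩
    have hD := RK_mem h1 h2.ne'
    refine ⟨om p q ξ, ?_, omi_om hp hq hpq hD⟩
    rcases om_im_zero hp hq hpq h1 hD.2.1 hD.2.2 with h3 | h3
    · exact h3.1
    · exact absurd h2 (not_lt.2 h3.2.le)
  · rintro ⟨ω, hω, rfl⟩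
    have hω' : ω.im = 0 := hω
    have hS : ω ∈ Str := ⟨hω'.ge, by rw [hω']; exact Real.pi_pos.le⟩
    have hD := omi_mem hp hq hpq hS
    refine ⟨omi_sphere hp hq hpq (Or.inl hω'), ?_⟩
    rw [← exp_om hp hq hpq hD.2.1 hD.2.2, om_omi hp hq hpq hS, Complex.exp_re, hω', Real.cos_zero,
      mul_one]
    exact Real.exp_pos _

theorem RK_line_mem {p q : ℂ} (hp : ‖p‖ = 1) (hq : ‖q‖ = 1) (hpq : p ≠ q) (t : ℝ) :
    ‖omi p q t‖ = 1 ∧ 0 < (eta p q (omi p q t)).re := by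
  have h : omi p q t ∈ {ξ : ℂ | ‖ξ‖ = 1 ∧ 0 < (eta p q ξ).re} := by
    rw [RK_J hp hq hpq]
    exact ⟨(t : ℂ), Complex.ofReal_im t, rfl⟩
  exact h

theorem RK_eta_ne {p q : ℂ} (hp : ‖p‖ = 1) (hq : ‖q‖ = 1) (hpq : p ≠ q) {ξ : ℂ} (hξ : ‖ξ‖ = 1)
    (h1 : ξ ≠ p) (h2 : ξ ≠ q) : (eta p q ξ).re ≠ 0 := by
  intro h
  apply eta_ne hp hq hpq h1 h2
  apply Complex.ext
  · exact h
  · rw [eta_im hp hq, hξ]; simp

theorem RK_eta_cont {p q : ℂ} {ξ : ℂ} (h1 : ξ ≠ p) :
    ContinuousAt (fun x => (eta p q x).re) ξ := by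
  have h : ContinuousAt (eta p q) ξ := by
    unfold eta
    exact (continuousAt_const.mul (continuousAt_id.sub continuousAt_const)).div
      (continuousAt_const.sub continuousAt_id) (sub_ne_zero.2 (Ne.symm h1))
  exact Complex.continuous_re.continuousAt.comp h

theorem RK_half (F : Fuchs Γ) {f : Elt Γ} (hf : Norm F f) {κ : Γ} {p q : ℂ} (hκ : F.AR κ p q)
    (hgap : ∀ ξ : ℂ, ‖ξ‖ = 1 → 0 < (eta p q ξ).re → ξ ∉ F.lim) {y : ℂ} (hy : ‖y‖ = 1)
    (hyJ : 0 < (eta p q y).re) (hfy : 0 < (eta p q (f.H y)).re) :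
    ∀ ξ : ℂ, ‖ξ‖ = 1 → 0 < (eta p q ξ).re → 0 < (eta p q (f.H ξ)).re := by
  have hp := hκ.np
  have hq := hκ.nq
  have hpq := hκ.ne
  set J : Set ℂ := {ξ : ℂ | ‖ξ‖ = 1 ∧ 0 < (eta p q ξ).re} with hJ
  have hJc : IsPreconnected J := by
    rw [hJ, RK_J hp hq hpq]
    have h1 : IsPreconnected {ω : ℂ | ω.im = 0} := by
      have h2 : Convex ℝ {ω : ℂ | ω.im = 0} := by
        intro x hx y hy a b _ _ _
        simp only [mem_ofPred_eq] at hx hy ⊢
        simp [hx, hy]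
      exact h2.isPreconnected
    refine h1.image _ ((omi_cont hp hq hpq).mono ?_)
    intro ω hω
    have hω' : ω.im = 0 := hω
    exact ⟨hω'.ge, by rw [hω']; exact Real.pi_pos.le⟩
  have hJB : J ⊆ closedBall (0:ℂ) 1 := fun ξ hξ => by
    rw [mem_closedBall_zero_iff]; exact hξ.1.le
  have hnorm : ∀ ξ ∈ J, ‖f.H ξ‖ = 1 := by
    intro ξ hξ
    have := hf.mapS (show ξ ∈ sphere (0:ℂ) 1 by rw [mem_sphere_zero_iff_norm]; exact hξ.1)
    rwa [mem_sphere_zero_iff_norm] at this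
  have hnl : ∀ ξ ∈ J, f.H ξ ∉ F.lim := by
    intro ξ hξ h
    exact hgap ξ hξ.1 hξ.2 ((hf.lim_iff hξ.1).1 h)
  have hnp : ∀ ξ ∈ J, f.H ξ ≠ p := fun ξ hξ h => hnl ξ hξ (h ▸ (AR.lim hκ).1)
  have hnq : ∀ ξ ∈ J, f.H ξ ≠ q := fun ξ hξ h => hnl ξ hξ (h ▸ (AR.lim hκ).2)
  have hcont : ContinuousOn (fun ξ => (eta p q (f.H ξ)).re) J := by
    intro ξ hξ
    exact ContinuousAt.comp_continuousWithinAt (g := fun x => (eta p q x).re) (f := f.H)
      (RK_eta_cont (hnp ξ hξ)) ((hf.cont.mono hJB) ξ hξ)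
  have himg := hJc.image _ hcont
  intro ξ h1 h2
  by_contra hcon
  push Not at hcon
  have hmem0 : (0:ℝ) ∈ (fun ξ => (eta p q (f.H ξ)).re) '' J :=
    (isPreconnected_iff_ordConnected.1 himg).out ⟨ξ, ⟨h1, h2⟩, rfl⟩ ⟨y, ⟨hy, hyJ⟩, rfl⟩
      ⟨hcon, hfy.le⟩
  obtain ⟨η, hη, h0⟩ := hmem0
  exact RK_eta_ne hp hq hpq (hnorm η hη) (hnp η hη) (hnq η hη) h0

theorem gap_pres (F : Fuchs Γ) {f : Elt Γ} (hf : Norm F f) {κ : Γ} {p q : ℂ} (hκ : F.AR κ p q)
    (hgap : ∀ ξ : ℂ, ‖ξ‖ = 1 → 0 < (eta p q ξ).re → ξ ∉ F.lim) {y : ℂ} (hy : ‖y‖ = 1)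
    (hyJ : 0 < (eta p q y).re) (hfy : 0 < (eta p q (f.H y)).re) :
    ∀ ξ : ℂ, ‖ξ‖ = 1 → (0 < (eta p q ξ).re ↔ 0 < (eta p q (f.H ξ)).re) := by
  have hfn : ∀ ξ : ℂ, ‖ξ‖ = 1 → ‖f.H ξ‖ = 1 := by
    intro ξ hξ
    have := hf.mapS (show ξ ∈ sphere (0:ℂ) 1 by rw [mem_sphere_zero_iff_norm]; exact hξ)
    rwa [mem_sphere_zero_iff_norm] at this
  have hleft : ∀ ξ : ℂ, ‖ξ‖ = 1 → f.Hi (f.H ξ) = ξ := fun ξ hξ =>
    hf.left ξ (by rw [mem_closedBall_zero_iff]; exact hξ.le)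
  intro ξ hξ
  refine ⟨RK_half F hf hκ hgap hy hyJ hfy ξ hξ, fun h => ?_⟩
  have h1 := RK_half F hf.inv hκ hgap (hfn y hy) hfy
    (show 0 < (eta p q (f.inv.H (f.H y))).re by
      change 0 < (eta p q (f.Hi (f.H y))).re
      rw [hleft y hy]; exact hyJ) (f.H ξ) (hfn ξ hξ) h
  change 0 < (eta p q (f.Hi (f.H ξ))).re at h1
  rwa [hleft ξ hξ] at h1

/-- the end points of the gap are permuted -/
theorem RK_end (F : Fuchs Γ) {f : Elt Γ} (hf : Norm F f) {κ : Γ} {p q : ℂ} (hκ : F.AR κ p q)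
    (hJ : ∀ ξ : ℂ, ‖ξ‖ = 1 → (0 < (eta p q ξ).re ↔ 0 < (eta p q (f.H ξ)).re)) {z : ℂ}
    (hz : ‖z‖ = 1) (hz0 : (eta p q z).re = 0) {u : ℕ → ℝ}
    (hu : Tendsto (fun n => omi p q (u n)) atTop (𝓝 z)) : f.H z = p ∨ f.H z = q := by
  have hp := hκ.np
  have hq := hκ.nq
  have hpq := hκ.ne
  by_contra hcon
  push Not at hcon
  have hfz : ‖f.H z‖ = 1 := by
    have := hf.mapS (show z ∈ sphere (0:ℂ) 1 by rw [mem_sphere_zero_iff_norm]; exact hz)
    rwa [mem_sphere_zero_iff_norm] at this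
  have hne := RK_eta_ne hp hq hpq hfz hcon.1 hcon.2
  have hle : (eta p q (f.H z)).re ≤ 0 := by
    by_contra h
    push Not at h
    have := (hJ z hz).2 h
    rw [hz0] at this
    exact lt_irrefl _ this
  have hzc : z ∈ closedBall (0:ℂ) 1 := by rw [mem_closedBall_zero_iff]; exact hz.le
  have ht : Tendsto (fun n => f.H (omi p q (u n))) atTop (𝓝 (f.H z)) := by
    refine (hf.cont z hzc).tendsto.comp ?_
    rw [tendsto_nhdsWithin_iff]
    exact ⟨hu, Eventually.of_forall fun n => by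
      rw [mem_closedBall_zero_iff]; exact (RK_line_mem hp hq hpq (u n)).1.le⟩
  have ht2 : Tendsto (fun n => (eta p q (f.H (omi p q (u n)))).re) atTop
      (𝓝 ((eta p q (f.H z)).re)) :=
    (RK_eta_cont (p := p) (q := q) hcon.1).tendsto.comp ht
  have hge : 0 ≤ (eta p q (f.H z)).re := by
    refine ge_of_tendsto ht2 (Eventually.of_forall fun n => ?_)
    obtain ⟨h1, h2⟩ := RK_line_mem hp hq hpq (u n)
    exact ((hJ _ h1).1 h2).le
  exact hne (le_antisymm hle hge)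

theorem gap_sq (F : Fuchs Γ) {f : Elt Γ} (hf : Norm F f) {κ : Γ} {p q : ℂ} (hκ : F.AR κ p q)
    (hst : ∀ g, F.act g p = p ↔ g ∈ Subgroup.zpowers κ)
    (hJ : ∀ ξ : ℂ, ‖ξ‖ = 1 → (0 < (eta p q ξ).re ↔ 0 < (eta p q (f.H ξ)).re)) :
    (f.comp f).θ κ = κ := by
  have hp := hκ.np
  have hq := hκ.nq
  have hpq := hκ.ne
  have htp : Tendsto (fun n : ℕ => omi p q ((n : ℝ) : ℂ)) atTop (𝓝 p) := by
    rw [Metric.tendsto_atTop]
    intro ε hε
    obtain ⟨R, hR⟩ := omi_p hp hq hpq hε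
    obtain ⟨N, hN⟩ := exists_nat_ge R
    refine ⟨N, fun n hn => hR _ ⟨by simp, by simp [Real.pi_pos.le]⟩ ?_⟩
    simp only [Complex.ofReal_re]
    exact hN.trans (by exact_mod_cast hn)
  have htq : Tendsto (fun n : ℕ => omi p q ((-(n : ℝ) : ℝ) : ℂ)) atTop (𝓝 q) := by
    rw [Metric.tendsto_atTop]
    intro ε hε
    obtain ⟨R, hR⟩ := omi_q hp hq hpq hε
    obtain ⟨N, hN⟩ := exists_nat_ge (-R)
    refine ⟨N, fun n hn => hR _ ⟨by simp, by simp [Real.pi_pos.le]⟩ ?_⟩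
    simp only [Complex.ofReal_re]
    have h1 : (N : ℝ) ≤ n := by exact_mod_cast hn
    linarith
  have hfp := RK_end F hf hκ hJ hp (by simp [eta]) (u := fun n => (n : ℝ)) htp
  have hfq := RK_end F hf hκ hJ hq (by simp [eta]) (u := fun n => -(n : ℝ)) htq
  have hpc : p ∈ closedBall (0:ℂ) 1 := by rw [mem_closedBall_zero_iff]; exact hp.le
  have hqc : q ∈ closedBall (0:ℂ) 1 := by rw [mem_closedBall_zero_iff]; exact hq.le
  have hne : f.H p ≠ f.H q := fun h => hpq (hf.inj hpc hqc h)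
  have h2 : f.H (f.H p) = p ∧ f.H (f.H q) = q := by
    rcases hfp with h | h <;> rcases hfq with h' | h'
    · exact absurd (h.trans h'.symm) hne
    · rw [h, h']; exact ⟨h, h'⟩
    · constructor
      · rw [h]; exact h'
      · rw [h']; exact h
    · exact absurd (h.trans h'.symm) hne
  set f2 : Elt Γ := f.comp f with hf2
  have hf2n : Norm F f2 := hf.comp hf
  have hf2p : f2.H p = p := h2.1
  have hf2q : f2.H q = q := h2.2
  have hip : f2.inv.H p = p := by
    change f2.Hi p = p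
    have := hf2n.left p hpc
    rwa [hf2p] at this
  have hiq : f2.inv.H q = q := by
    change f2.Hi q = q
    have := hf2n.left q hqc
    rwa [hf2q] at this
  have hA := AR.norm hκ hf2n
  rw [hf2p, hf2q] at hA
  have hB := AR.norm hκ hf2n.inv
  rw [hip, hiq] at hB
  obtain ⟨n, hn⟩ := Subgroup.mem_zpowers_iff.1 ((hst _).1 hA.fp)
  obtain ⟨m, hm⟩ := Subgroup.mem_zpowers_iff.1 ((hst _).1 hB.fp)
  have hm' : κ ^ m = f2.θ.symm κ := hm
  have h3 : κ ^ (n * m) = κ ^ (1 : ℤ) := by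
    rw [zpow_mul, hn, ← map_zpow, hm', MulEquiv.apply_symm_apply, zpow_one]
  have h4 : n * m = 1 := pow_inj F (AR.ne_one hκ) h3
  rcases Int.isUnit_iff.1 (IsUnit.of_mul_eq_one m h4) with h5 | h5
  · rw [← hn, h5, zpow_one]
  · exfalso
    rw [← hn, h5, zpow_neg_one] at hA
    exact hpq (AR.unique hA (AR.inv hκ)).1

theorem rotB (F : Fuchs Γ) (hN : F.Nonel) (hU : F.UC) (hT : F.TC) {𝓗 : Set (Elt Γ)}
    (hF : Fam F 𝓗) (hL : ∃ ξ : ℂ, ‖ξ‖ = 1 ∧ ξ ∉ F.lim) :
    ∃ f ∈ 𝓗, ∃ κ p q ξ, F.AR κ p q ∧ (∀ g, F.act g p = p ↔ g ∈ Subgroup.zpowers κ) ∧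
      f.θ κ = κ ∧ ‖ξ‖ = 1 ∧ ξ ≠ p ∧ ξ ≠ q ∧ f.H ξ = ξ := by
  obtain ⟨N, κ, p, q, G⟩ := gaps F hN hU
  obtain ⟨ξ₀, hξ₀, hξ₀L⟩ := hL
  obtain ⟨e, heH⟩ := hF.ne
  have he := hF.norm e heH
  have hmaps : ∀ (f : Elt Γ), Norm F f → ∀ ξ : ℂ, ‖ξ‖ = 1 → ‖f.H ξ‖ = 1 := by
    intro f hf ξ hξ
    have := hf.mapS (show ξ ∈ sphere (0:ℂ) 1 by rw [mem_sphere_zero_iff_norm]; exact hξ)
    rwa [mem_sphere_zero_iff_norm] at this
  have horb : ∀ k : ℕ, ‖e.H^[k] ξ₀‖ = 1 ∧ e.H^[k] ξ₀ ∉ F.lim := by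
    intro k
    induction k with
    | zero => exact ⟨hξ₀, hξ₀L⟩
    | succ k ih =>
      rw [Function.iterate_succ_apply']
      exact ⟨hmaps e he _ ih.1, fun h => ih.2 ((he.lim_iff ih.1).1 h)⟩
  choose g i hgi using fun k => G.all (e.H^[k] ξ₀) (horb k).1 (horb k).2
  obtain ⟨m, n, hmn, him⟩ : ∃ m n : ℕ, m < n ∧ i m = i n := by
    obtain ⟨a, b, hab, h⟩ := Finite.exists_ne_map_eq_of_infinite i
    rcases lt_or_gt_of_ne hab with h1 | h1
    · exact ⟨a, b, h1, h⟩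
    · exact ⟨b, a, h1, h.symm⟩
  set e' : Elt Γ := e.iter (n - m - 1) with he'
  have he'n : Norm F e' := he.iter _
  have he'm : e' ∈ 𝓗 := Elt.iter_mem hF heH _
  have he'H : e'.H (e.H^[m] ξ₀) = e.H^[n] ξ₀ := by
    rw [he', Elt.iter_H, ← Function.iterate_add_apply]
    congr 2
    omega
  set c : Γ := g n * (e'.θ (g m))⁻¹ with hc
  set f : Elt Γ := e'.lmul F c with hf
  have hfn : Norm F f := he'n.lmul c
  have hfm : f ∈ 𝓗 := hF.lmul e' he'm c
  have hm1 := (horb m).1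
  have hn1 := (horb n).1
  have hfy : f.H (F.act (g m) (e.H^[m] ξ₀)) = F.act (g n) (e.H^[n] ξ₀) := by
    change F.act c (e'.H (F.act (g m) (e.H^[m] ξ₀))) = _
    rw [he'n.equi (g m) _ (by rw [mem_closedBall_zero_iff]; exact hm1.le), he'H, hc,
      act_mul F _ _ (act_le F _ hn1.le), act_inv_act F _ hn1.le]
  have hyJ := (hgi m).2
  have hfyJ := (hgi n).2
  rw [← him, ← hfy] at hfyJ
  have hκ := G.ar (i m)
  have hst := G.stab (i m)
  have hgap : ∀ ξ : ℂ, ‖ξ‖ = 1 → 0 < (eta (p (i m)) (q (i m)) ξ).re → ξ ∉ F.lim := by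
    intro ξ h1 h2
    exact G.gap (i m) ξ h1 (RK_mem h1 h2.ne').2.1 h2
  have hJ := gap_pres F hfn hκ hgap (act_eq F _ hm1) hyJ hfyJ
  have hθ := gap_sq F hfn hκ hst hJ
  set f2 : Elt Γ := f.comp f with hf2
  have hf2n : Norm F f2 := hfn.comp hfn
  have hf2m : f2 ∈ 𝓗 := hF.comp f hfm f hfm
  have hJ2 : ∀ ξ : ℂ, ‖ξ‖ = 1 →
      (0 < (eta (p (i m)) (q (i m)) ξ).re ↔ 0 < (eta (p (i m)) (q (i m)) (f2.H ξ)).re) := by
    intro ξ hξ
    exact (hJ ξ hξ).trans (hJ (f.H ξ) (hmaps f hfn ξ hξ))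
  obtain ⟨π, h, fr, hπ⟩ := frameB F (lim_infinite F hN) hf2n hκ hθ hst hgap hJ2
  obtain ⟨k, hk, z, t, hkt⟩ := frame_rot hT fr hf2n
  refine ⟨f2.tw F (κ (i m)) k (-z), Fam.tw hF hf2m k (-z), κ (i m), p (i m), q (i m), π t, hκ, hst,
    fr.tw_theta k (-z), fr.πn t, (hπ t).1, (hπ t).2, ?_⟩
  rw [fr.tw_H hf2n hk (-z) t, hkt]
  congr 1
  push_cast
  ring

end TN

end S_H12_TN_RK
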