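import Pool.Agent.H12.KS.K12
import Pool.Agent.H12.KS.K15

/-! Joined modules of the proof of MP_8a27c0_an (one section per module). -/

section S_H60_PH_Base

/-!
Project MP_8a27c0_TN, block PH (section 3.7 of /team-store/H12_8a27c0_general.md; helper60): Poincare-Hopf
inequality for vector fields equivariant under a convex cocompact Fuchsian group.  Common definitions.
All integrals are over the open unit disc `ball 0 1`.
-/

namespace TN
open Metric Set Filter Topology DS MeasureTheory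

variable {Γ : Type} [Group Γ]

/-- Wirtinger derivative `∂f/∂z` -/
noncomputable def dz (f : ℂ → ℂ) (x : ℂ) : ℂ :=
  (fderiv ℝ f x 1 - Complex.I * fderiv ℝ f x Complex.I) / 2

/-- Wirtinger derivative `∂f/∂(conj z)` -/
noncomputable def dzb (f : ℂ → ℂ) (x : ℂ) : ℂ :=
  (fderiv ℝ f x 1 + Complex.I * fderiv ℝ f x Complex.I) / 2

/-- the derivative of `om p q` -/
noncomputable def omD (p q x : ℂ) : ℂ := (p - q) / ((x - q) * (p - x))

/-- the holomorphic vector field `1 / om'` -/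
noncomputable def Xf (p q x : ℂ) : ℂ := (x - q) * (p - x) / (p - q)

/-- the height of `g x` above the gap with end points `p`, `q` -/
noncomputable def Fuchs.ht (F : Fuchs Γ) (p q : ℂ) (g : Γ) (x : ℂ) : ℝ := (om p q (F.act g x)).im

/-- sum over the group -/
noncomputable def Fuchs.S (F : Fuchs Γ) (f : ℂ → ℝ) (x : ℂ) : ℝ := ∑ᶠ g : Γ, f (F.act g x)

/-- equivariant vector fields -/
def Fuchs.Equi (F : Fuchs Γ) (V : ℂ → ℂ) : Prop :=
  ∀ g, ∀ x ∈ ball (0:ℂ) 1, V (F.act g x) = F.dact g x * V x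

/-- invariant forms `E d(conj z)` -/
def Fuchs.CoEqui (F : Fuchs Γ) (E : ℂ → ℂ) : Prop :=
  ∀ g, ∀ x ∈ ball (0:ℂ) 1, E (F.act g x) * (starRingEnd ℂ) (F.dact g x) = E x

/-- invariant functions -/
def Fuchs.Invt (F : Fuchs Γ) (χ : ℂ → ℝ) : Prop :=
  ∀ g, ∀ x ∈ ball (0:ℂ) 1, χ (F.act g x) = χ x

open Classical in
/-- product function in the strip coordinate -/
noncomputable def psiI (p q : ℂ) (τ ρ : ℝ → ℝ) (x : ℂ) : ℝ :=
  if ‖x‖ < 1 then τ (om p q x).re * ρ (om p q x).im else 0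

/-- the vector field of a map `H` of the disc -/
noncomputable def vf (H : ℂ → ℂ) (x : ℂ) : ℂ :=
  (H x - x) * ((1 - ‖x‖ ^ 2 : ℝ) : ℂ) / (1 - (starRingEnd ℂ) x * H x)

/-- a partition function along one period -/
structure Tau (l : ℝ) (τ : ℝ → ℝ) : Prop where
  smooth : ContDiff ℝ 2 τ
  nonneg : ∀ t, 0 ≤ τ t
  supp : ∀ t, l ≤ |t| → τ t = 0
  sum : ∀ t, ∑ᶠ n : ℤ, τ (t + n * l) = 1
  int : ∫ t, τ t = l

/-- a step from `0` to `1` between `a` and `b` -/
structure Step (a b : ℝ) (c : ℝ → ℝ) : Prop where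
  smooth : ContDiff ℝ 2 c
  nonneg : ∀ t, 0 ≤ c t
  le_one : ∀ t, c t ≤ 1
  zero : ∀ t, t ≤ a → c t = 0
  one : ∀ t, b ≤ t → c t = 1

/-- an invariant function which is the step function `c` of the height on the half planes of the gaps and
`1` off them -/
structure Cut (F : Fuchs Γ) {n : ℕ} (p q : Fin n → ℂ) (c : ℝ → ℝ) (χ : ℂ → ℝ) : Prop where
  smooth : ContDiffOn ℝ 2 χ (ball 0 1)
  invt : F.Invt χ
  nonneg : ∀ x ∈ ball (0:ℂ) 1, 0 ≤ χ x
  le_one : ∀ x ∈ ball (0:ℂ) 1, χ x ≤ 1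
  near : ∀ i, ∀ x ∈ ball (0:ℂ) 1, (om (p i) (q i) x).im < Real.pi / 2 → χ x = c (om (p i) (q i) x).im
  far : ∀ x ∈ ball (0:ℂ) 1, (∀ i g, Real.pi / 2 ≤ F.ht (p i) (q i) g x) → χ x = 1

end TN

end S_H60_PH_Base

section S_H60_PH_LP

/-!
LP (heights).  `om_half`: `im (log z) = arg z`, for `0 < arg z < π`: `arg z < π/2 ↔ 0 < re z` (`Complex.abs_arg_lt_pi_div_two_iff`).
`ht_lip`: on the convex ball `ball x δ₀ ⊆ ball 0 r`, `r < 1`, the function `y ↦ om (p i) (q i) (act g y)` has derivative of norm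
`‖omD (act g y)‖ * ‖dact g y‖ = 2 sin (..) / (1 - ‖act g y‖²) * ‖dact g y‖ = 2 sin (..) / (1 - ‖y‖²) ≤ 2 / (1 - r²)` (`om_metric`, `act_conf`);
`Convex.norm_image_sub_le_of_norm_hasDerivWithin_le`.  `ht_kappa`: `om_act`, `act_mul`.
`ht_fin` (heights over a compact set are bounded below): suppose `‖x n‖ ≤ r`, `F.ht (p i) (q i) (g n) (x n) → 0` (pass to a subsequence with a
fixed `i`; there are finitely many `i`).  Multiply `g n` by a power of `κ i` (`om_act_zpow`: `om (act (κ^z) y) = om y + z l`), which does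
not change the height (`ht_kappa`), so that `re (om (act (g n) (x n))) ∈ [0, l]`.  Along a subsequence `ω n = om (act (g n) (x n)) → t + 0 i`,
`y n = act (g n) (x n) = omi (ω n) → ξ = omi t` (`omi_cont`), `‖ξ‖ = 1` (`omi_sphere`), `eta ξ = exp t > 0`, `ξ ≠ p`
(`omi_mem`), so `ξ ∉ F.lim` by `Gaps.gap`.  But `pd (y n) (act (g n) 0) = pd (x n) 0 = ‖x n‖ ≤ r` and `‖y n‖ → 1`, so
`dist (y n) (act (g n) 0) → 0` (`pd_close`), `act (g n) 0 → ξ`, `ξ ∈ F.lim`.  Contradiction.
-/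

namespace TN
open Metric Set Filter Topology DS MeasureTheory

variable {Γ : Type} [Group Γ]

theorem LP_ne {p x : ℂ} (hp : ‖p‖ = 1) (hx : ‖x‖ < 1) : x ≠ p := by
  rintro rfl
  exact hx.ne hp

theorem LP_lip (F : Fuchs Γ) {p q : ℂ} (hp : ‖p‖ = 1) (hq : ‖q‖ = 1) (hpq : p ≠ q) {r : ℝ}
    (hr0 : 0 ≤ r) (hr : r < 1) (g : Γ) {x x' : ℂ} (hx : x ∈ ball (0:ℂ) r)
    (hx' : x' ∈ ball (0:ℂ) r) :
    |F.ht p q g x' - F.ht p q g x| ≤ 2 / (1 - r ^ 2) * ‖x' - x‖ := by
  have h3 : 0 < 1 - r ^ 2 := by nlinarith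
  have hd : ∀ y ∈ ball (0:ℂ) r, HasDerivWithinAt (fun y => om p q (F.act g y))
      ((p - q) / ((F.act g y - q) * (p - F.act g y)) * F.dact g y) (ball (0:ℂ) r) y := by
    intro y hy
    have hy1 : ‖y‖ < 1 := lt_trans (mem_ball_zero_iff.1 hy) hr
    exact ((om_hasDerivAt hp hq hpq (act_lt F g hy1)).comp y
      (act_hasDerivAt F g hy1.le)).hasDerivWithinAt
  have hb : ∀ y ∈ ball (0:ℂ) r,
      ‖(p - q) / ((F.act g y - q) * (p - F.act g y)) * F.dact g y‖ ≤ 2 / (1 - r ^ 2) := by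
    intro y hy
    have hy0 : ‖y‖ < r := mem_ball_zero_iff.1 hy
    have hy1 : ‖y‖ < 1 := hy0.trans hr
    have h1 := om_metric hp hq hpq (act_lt F g hy1)
    rw [act_conf F g hy1.le] at h1
    have h2 : ‖y‖ ^ 2 < r ^ 2 := pow_lt_pow_left₀ hy0 (norm_nonneg y) two_ne_zero
    rw [norm_mul, le_div_iff₀ h3]
    have h4 : ‖(p - q) / ((F.act g y - q) * (p - F.act g y))‖ * ‖F.dact g y‖ * (1 - r ^ 2) ≤
        ‖(p - q) / ((F.act g y - q) * (p - F.act g y))‖ * ‖F.dact g y‖ * (1 - ‖y‖ ^ 2) :=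
      mul_le_mul_of_nonneg_left (by linarith) (by positivity)
    refine h4.trans ?_
    rw [mul_assoc, h1]
    linarith [Real.sin_le_one (om p q (F.act g y)).im]
  have h := (convex_ball (0:ℂ) r).norm_image_sub_le_of_norm_hasDerivWithin_le hd hb hx hx'
  have h5 : F.ht p q g x' - F.ht p q g x = (om p q (F.act g x') - om p q (F.act g x)).im := by
    unfold Fuchs.ht
    rw [Complex.sub_im]
  rw [h5]
  exact (Complex.abs_im_le_norm _).trans h

theorem om_half {p q : ℂ} (hp : ‖p‖ = 1) (hq : ‖q‖ = 1) (hpq : p ≠ q) {x : ℂ} (hx : ‖x‖ < 1) :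
    (om p q x).im < Real.pi / 2 ↔ 0 < (eta p q x).re := by
  have h1 := om_im_pos hp hq hpq hx
  have e : (om p q x).im = Complex.arg (eta p q x) := Complex.log_im _
  rw [e] at h1 ⊢
  have h2 : eta p q x ≠ 0 := eta_ne hp hq hpq (LP_ne hp hx) (LP_ne hq hx)
  have h3 := Complex.abs_arg_lt_pi_div_two_iff (z := eta p q x)
  rw [abs_of_pos h1.1] at h3
  rw [h3]
  exact or_iff_left h2

theorem ht_lip (F : Fuchs Γ) {n : ℕ} {κ : Fin n → Γ} {p q : Fin n → ℂ} (G : Gaps F n κ p q) {x : ℂ}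
    (hx : ‖x‖ < 1) {η : ℝ} (hη : 0 < η) : ∃ δ > 0, ∀ x' ∈ ball (0:ℂ) 1, dist x' x < δ → ∀ i g,
      |F.ht (p i) (q i) g x' - F.ht (p i) (q i) g x| < η := by
  have hx0 := norm_nonneg x
  obtain ⟨r, hr⟩ : ∃ r : ℝ, r = (1 + ‖x‖) / 2 := ⟨_, rfl⟩
  have hr1 : r < 1 := by linarith
  have hxr : ‖x‖ < r := by linarith
  have hr0 : 0 ≤ r := by linarith
  have h3 : 0 < 1 - r ^ 2 := by nlinarith
  refine ⟨min (r - ‖x‖) (η * (1 - r ^ 2) / 2), lt_min (by linarith) (by positivity),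
    fun x' _ hd i g => ?_⟩
  have hd1 := lt_of_lt_of_le hd (min_le_left _ _)
  have hd2 := lt_of_lt_of_le hd (min_le_right _ _)
  rw [dist_eq_norm] at hd1 hd2
  have hxb : x ∈ ball (0:ℂ) r := mem_ball_zero_iff.2 hxr
  have hxb' : x' ∈ ball (0:ℂ) r := by
    rw [mem_ball_zero_iff]
    have h4 : ‖x'‖ ≤ ‖x‖ + ‖x' - x‖ := by
      have h5 := norm_add_le x (x' - x)
      rwa [add_sub_cancel] at h5
    linarith
  refine lt_of_le_of_lt (LP_lip F (G.ar i).np (G.ar i).nq (G.ar i).ne hr0 hr1 g hxb hxb') ?_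
  calc 2 / (1 - r ^ 2) * ‖x' - x‖ < 2 / (1 - r ^ 2) * (η * (1 - r ^ 2) / 2) :=
        mul_lt_mul_of_pos_left hd2 (by positivity)
    _ = η := by field_simp

theorem ht_mul (F : Fuchs Γ) (p q : ℂ) (g h : Γ) {x : ℂ} (hx : ‖x‖ < 1) :
    F.ht p q g (F.act h x) = F.ht p q (g * h) x := by
  unfold Fuchs.ht
  rw [act_mul F g h hx.le]

theorem ht_kappa (F : Fuchs Γ) {n : ℕ} {κ : Fin n → Γ} {p q : Fin n → ℂ} (G : Gaps F n κ p q) (i : Fin n)
    {c : Γ} (hc : c ∈ Subgroup.zpowers (κ i)) (g : Γ) {x : ℂ} (hx : ‖x‖ < 1) :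
    F.ht (p i) (q i) (c * g) x = F.ht (p i) (q i) g x := by
  obtain ⟨z, rfl⟩ := Subgroup.mem_zpowers_iff.1 hc
  obtain ⟨l, _, hl⟩ := om_act (G.ar i)
  have h1 := (om_act_zpow (G.ar i) (l := l) fun y hy =>
    (hl y (CP_ball_Dpq (G.ar i).np (G.ar i).nq hy)).2).2 z (F.act g x)
    (CP_ball_Dpq (G.ar i).np (G.ar i).nq (mem_ball_zero_iff.2 (act_lt F g hx)))
  unfold Fuchs.ht
  rw [act_mul F _ g hx.le, h1.2, Complex.add_im, ← Complex.ofReal_intCast, ← Complex.ofReal_mul,
    Complex.ofReal_im, add_zero]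

/-- two half planes meet only if they are equal -/
theorem ht_disj (F : Fuchs Γ) {n : ℕ} {κ : Fin n → Γ} {p q : Fin n → ℂ} (G : Gaps F n κ p q) {i j : Fin n}
    {g h : Γ} {x : ℂ} (hx : ‖x‖ < 1) (h1 : F.ht (p i) (q i) g x < Real.pi / 2)
    (h2 : F.ht (p j) (q j) h x < Real.pi / 2) : i = j ∧ h * g⁻¹ ∈ Subgroup.zpowers (κ i) := by
  by_contra hcon
  have h3 : i ≠ j ∨ h * g⁻¹ ∉ Subgroup.zpowers (κ i) := not_and_or.1 hcon
  have h4 := (om_half (G.ar i).np (G.ar i).nq (G.ar i).ne (act_lt F g hx)).1 h1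
  have h5 := (om_half (G.ar j).np (G.ar j).nq (G.ar j).ne (act_lt F h hx)).1 h2
  refine G.disj i j (h * g⁻¹) h3 (F.act g x) (mem_ball_zero_iff.2 (act_lt F g hx)) h4 ?_
  rw [← act_mul F _ g hx.le, inv_mul_cancel_right]
  exact h5

theorem LP_fin_one (F : Fuchs Γ) {κ : Γ} {p q : ℂ} (hA : F.AR κ p q)
    (hgap : ∀ ξ : ℂ, ‖ξ‖ = 1 → ξ ≠ p → 0 < (eta p q ξ).re → ξ ∉ F.lim) {r : ℝ} (hr : r < 1) :
    ∃ y > 0, ∀ x : ℂ, ‖x‖ ≤ r → ∀ g, y ≤ F.ht p q g x := by
  have hp := hA.np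
  have hq := hA.nq
  have hpq := hA.ne
  by_contra hcon
  push Not at hcon
  have hex : ∀ m : ℕ, ∃ x : ℂ, ‖x‖ ≤ r ∧ ∃ g, F.ht p q g x < 1 / ((m : ℝ) + 1) :=
    fun m => hcon _ (by positivity)
  choose x hxr g hg using hex
  have hr0 : 0 ≤ r := (norm_nonneg _).trans (hxr 0)
  have hx1 : ∀ m, ‖x m‖ < 1 := fun m => (hxr m).trans_lt hr
  obtain ⟨l, hl0, hl⟩ := om_act hA
  have hz := (om_act_zpow hA (l := l) fun y hy => (hl y (CP_ball_Dpq hp hq hy)).2).2
  -- normalised sequence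
  obtain ⟨z, hzdef⟩ : ∃ z : ℕ → ℤ, z = fun m => - ⌊(om p q (F.act (g m) (x m))).re / l⌋ :=
    ⟨_, rfl⟩
  obtain ⟨y, hydef⟩ : ∃ y : ℕ → ℂ, y = fun m => F.act (κ ^ z m * g m) (x m) := ⟨_, rfl⟩
  have hy1 : ∀ m, ‖y m‖ < 1 := fun m => by
    rw [hydef]
    exact act_lt F _ (hx1 m)
  have hyD : ∀ m, y m ∈ Dpq p q := fun m => CP_ball_Dpq hp hq (mem_ball_zero_iff.2 (hy1 m))
  have hyo : ∀ m, om p q (y m) = om p q (F.act (g m) (x m)) + z m * l := fun m => by
    rw [hydef]
    show om p q (F.act (κ ^ z m * g m) (x m)) = _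
    rw [act_mul F _ _ (hx1 m).le]
    exact (hz (z m) _ (CP_ball_Dpq hp hq (mem_ball_zero_iff.2 (act_lt F (g m) (hx1 m))))).2
  have him : ∀ m, (om p q (y m)).im = F.ht p q (g m) (x m) := fun m => by
    rw [hyo m, Complex.add_im, ← Complex.ofReal_intCast, ← Complex.ofReal_mul,
      Complex.ofReal_im, add_zero]
    rfl
  have hre : ∀ m, (om p q (y m)).re ∈ Icc 0 l := fun m => by
    rw [hyo m, Complex.add_re, ← Complex.ofReal_intCast, ← Complex.ofReal_mul, Complex.ofReal_re,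
      hzdef]
    obtain ⟨R, hR⟩ : ∃ R, R = (om p q (F.act (g m) (x m))).re := ⟨_, rfl⟩
    simp only [← hR]
    have h1 := Int.floor_le (R / l)
    have h2 := Int.lt_floor_add_one (R / l)
    rw [le_div_iff₀ hl0] at h1
    rw [div_lt_iff₀ hl0] at h2
    push_cast
    constructor
    · linarith
    · nlinarith
  have hK : IsCompact (Icc (0:ℝ) l ×ℂ Icc (0:ℝ) Real.pi) := isCompact_Icc.reProdIm isCompact_Icc
  have hmemK : ∀ m, om p q (y m) ∈ Icc (0:ℝ) l ×ℂ Icc (0:ℝ) Real.pi := fun m =>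
    ⟨hre m, om_mem hp hq hpq (hyD m)⟩
  obtain ⟨ω, hω, φ, hφ, hlim⟩ := hK.tendsto_subseq hmemK
  have hωS : ω ∈ Str := hω.2
  have hωim : ω.im = 0 := by
    have h1 : Tendsto (fun m => (om p q (y (φ m))).im) atTop (𝓝 ω.im) :=
      (Complex.continuous_im.tendsto ω).comp hlim
    have h2 : Tendsto (fun m => (om p q (y (φ m))).im) atTop (𝓝 0) := by
      have h3 : Tendsto (fun m : ℕ => 1 / ((φ m : ℝ) + 1)) atTop (𝓝 0) :=
        tendsto_one_div_add_atTop_nhds_zero_nat.comp hφ.tendsto_atTop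
      refine squeeze_zero (fun m => (om_mem hp hq hpq (hyD _)).1) (fun m => ?_) h3
      rw [him]
      exact (hg (φ m)).le
    exact tendsto_nhds_unique h1 h2
  obtain ⟨ξ, hξ⟩ : ∃ ξ, ξ = omi p q ω := ⟨_, rfl⟩
  have hylim : Tendsto (fun m => y (φ m)) atTop (𝓝 ξ) := by
    have h1 : Tendsto (fun m => omi p q (om p q (y (φ m)))) atTop (𝓝 (omi p q ω)) := by
      refine (omi_cont hp hq hpq ω hωS).tendsto.comp (tendsto_nhdsWithin_iff.2 ⟨hlim, ?_⟩)
      exact Eventually.of_forall fun m => om_mem hp hq hpq (hyD _)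
    rw [← hξ] at h1
    refine h1.congr fun m => ?_
    exact omi_om hp hq hpq (hyD _)
  have hξ1 : ‖ξ‖ = 1 := by
    rw [hξ]
    exact omi_sphere hp hq hpq (Or.inl hωim)
  have hξD : ξ ∈ Dpq p q := by
    rw [hξ]
    exact omi_mem hp hq hpq hωS
  have heta : 0 < (eta p q ξ).re := by
    rw [← exp_om hp hq hpq hξD.2.1 hξD.2.2, hξ, om_omi hp hq hpq hωS, Complex.exp_re, hωim,
      Real.cos_zero, mul_one]
    exact Real.exp_pos _
  refine hgap ξ hξ1 hξD.2.1 heta ?_
  refine lim_of_seq F (g := fun m => κ ^ z (φ m) * g (φ m)) (x := 0) (by simp) hξ1 ?_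
  have hr2 : 0 < 1 - r ^ 2 := by nlinarith
  have hnorm : Tendsto (fun m => ‖y (φ m)‖) atTop (𝓝 1) := by
    have h1 := hylim.norm
    rwa [hξ1] at h1
  have hdist : ∀ m, ‖y (φ m) - F.act (κ ^ z (φ m) * g (φ m)) 0‖ ^ 2 * (1 - r ^ 2) ≤
      r ^ 2 * (1 - ‖y (φ m)‖ ^ 2) := by
    intro m
    have h0 : ‖F.act (κ ^ z (φ m) * g (φ m)) 0‖ < 1 := act_lt F _ (by simp)
    have h1 : pd (y (φ m)) (F.act (κ ^ z (φ m) * g (φ m)) 0) ≤ r := by
      rw [hydef]
      show pd (F.act (κ ^ z (φ m) * g (φ m)) (x (φ m))) (F.act (κ ^ z (φ m) * g (φ m)) 0) ≤ r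
      rw [act_pd F _ (hx1 _).le (by simp)]
      unfold pd
      rw [sub_zero, mul_zero, sub_zero, norm_one, div_one]
      exact hxr _
    have h2 := pd_close hr (hy1 _).le h0.le h1 (den_ne (hy1 _) h0.le)
    refine h2.trans ?_
    have h3 : 0 ≤ 1 - ‖y (φ m)‖ ^ 2 := by
      have := hy1 (φ m)
      nlinarith [norm_nonneg (y (φ m))]
    have h4 : 1 - ‖F.act (κ ^ z (φ m) * g (φ m)) 0‖ ^ 2 ≤ 1 := by
      nlinarith [norm_nonneg (F.act (κ ^ z (φ m) * g (φ m)) 0)]
    refine mul_le_mul_of_nonneg_left ?_ (sq_nonneg r)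
    nlinarith
  have hd0 : Tendsto (fun m => ‖y (φ m) - F.act (κ ^ z (φ m) * g (φ m)) 0‖ ^ 2) atTop (𝓝 0) := by
    have h1 : Tendsto (fun m => r ^ 2 * (1 - ‖y (φ m)‖ ^ 2) / (1 - r ^ 2)) atTop (𝓝 0) := by
      have h2 := (((hnorm.pow 2).const_sub 1).const_mul (r ^ 2)).div_const (1 - r ^ 2)
      simpa using h2
    refine squeeze_zero (fun m => sq_nonneg _) (fun m => ?_) h1
    rw [le_div_iff₀ hr2]
    exact hdist m
  have hd1 : Tendsto (fun m => ‖y (φ m) - F.act (κ ^ z (φ m) * g (φ m)) 0‖) atTop (𝓝 0) := by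
    have h1 := (Real.continuous_sqrt.tendsto 0).comp hd0
    rw [Real.sqrt_zero] at h1
    refine h1.congr fun m => ?_
    exact Real.sqrt_sq (norm_nonneg _)
  have hd2 : Tendsto (fun m => y (φ m) - F.act (κ ^ z (φ m) * g (φ m)) 0) atTop (𝓝 0) :=
    tendsto_zero_iff_norm_tendsto_zero.2 hd1
  have h1 := hylim.sub hd2
  rw [sub_zero] at h1
  refine h1.congr fun m => ?_
  exact sub_sub_cancel _ _

theorem ht_fin (F : Fuchs Γ) {n : ℕ} {κ : Fin n → Γ} {p q : Fin n → ℂ} (G : Gaps F n κ p q) {r : ℝ}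
    (hr : r < 1) : ∃ y > 0, ∀ x : ℂ, ‖x‖ ≤ r → ∀ i g, y ≤ F.ht (p i) (q i) g x := by
  have hi : ∀ i, ∃ y > 0, ∀ x : ℂ, ‖x‖ ≤ r → ∀ g, y ≤ F.ht (p i) (q i) g x := by
    intro i
    exact LP_fin_one F (G.ar i) (G.gap i) hr
  choose y hy0 hy using hi
  rcases isEmpty_or_nonempty (Fin n) with he | hne
  · exact ⟨1, one_pos, fun x _ i => (he.false i).elim⟩
  · obtain ⟨j, hj⟩ := Finite.exists_min y
    exact ⟨y j, hy0 j, fun x hx i g => (hj i).trans (hy i x hx g)⟩

end TN

end S_H60_PH_LP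

section S_H60_PH_SO

/-!
SO (sums over the group).  `fin_supp`: `F.proper` (FA) for `max r r'`.  `S_eq`: outside of the finite set all terms vanish
(`finsum_eq_sum_of_support_subset`).  `S_inv`: reindex by right multiplication `g ↦ g * h` (`finsum_comp_equiv (Equiv.mulRight h)`,
`act_mul`).  `S_mul`: `χ (act g x) = χ x`, pull the constant out of the (finite) sum.  `S_smooth`: near a point of the disc `F.S f` is a
finite sum of the functions `f ∘ act g`; `act g` is a smooth map of the disc to itself (complex differentiable on an open set, so `ContDiffOn ℂ`,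
then restrict scalars).  `S_add`: both finite sums over a common finite set.
-/

namespace TN
open Metric Set Filter Topology DS MeasureTheory

variable {Γ : Type} [Group Γ]

theorem act_smooth (F : Fuchs Γ) (g : Γ) {n : ℕ} : ContDiffOn ℝ n (F.act g) (ball 0 1) := by
  have h : ContDiffOn ℂ n (fun x : ℂ => F.u g * (x - F.b g) / (1 - (starRingEnd ℂ) (F.b g) * x))
      (ball 0 1) := by
    refine ContDiffOn.div ?_ ?_ fun x hx => den_ne (F.hb g) (mem_ball_zero_iff.1 hx).le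
    · exact (contDiff_const.mul (contDiff_id.sub contDiff_const)).contDiffOn
    · exact (contDiff_const.sub (contDiff_const.mul contDiff_id)).contDiffOn
  exact h.restrict_scalars ℝ

theorem dact_smooth (F : Fuchs Γ) (g : Γ) {n : ℕ} : ContDiffOn ℝ n (F.dact g) (ball 0 1) := by
  have h : ContDiffOn ℂ n (fun x : ℂ => F.u g * (1 - (starRingEnd ℂ) (F.b g) * F.b g) /
      (1 - (starRingEnd ℂ) (F.b g) * x) ^ 2) (ball 0 1) := by
    refine ContDiffOn.div ?_ ?_ fun x hx => pow_ne_zero _ (den_ne (F.hb g) (mem_ball_zero_iff.1 hx).le)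
    · exact contDiff_const.contDiffOn
    · exact ((contDiff_const.sub (contDiff_const.mul contDiff_id)).pow 2).contDiffOn
  exact h.restrict_scalars ℝ

theorem fin_supp (F : Fuchs Γ) {r r' : ℝ} (hr : r < 1) (hr' : r' < 1) :
    ∃ t : Finset Γ, ∀ g, g ∉ t → ∀ x : ℂ, ‖x‖ ≤ r' → r < ‖F.act g x‖ ∧ r < ‖F.act g⁻¹ x‖ := by
  classical
  have hA := proper F (r := max r r') (max_lt hr hr')
  refine ⟨hA.toFinset ∪ hA.toFinset.image (fun g => g⁻¹), fun g hg x hx => ?_⟩
  rw [Finset.mem_union, not_or] at hg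
  constructor
  · by_contra hlt
    push Not at hlt
    apply hg.1
    rw [Set.Finite.mem_toFinset]
    exact ⟨x, hx.trans (le_max_right _ _), hlt.trans (le_max_left _ _)⟩
  · by_contra hlt
    push Not at hlt
    apply hg.2
    rw [Finset.mem_image]
    refine ⟨g⁻¹, ?_, inv_inv g⟩
    rw [Set.Finite.mem_toFinset]
    exact ⟨x, hx.trans (le_max_right _ _), hlt.trans (le_max_left _ _)⟩

theorem S_eq (F : Fuchs Γ) {f : ℂ → ℝ} {r r' : ℝ} (hf : ∀ x, r < ‖x‖ → f x = 0) {t : Finset Γ}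
    (ht : ∀ g, g ∉ t → ∀ x : ℂ, ‖x‖ ≤ r' → r < ‖F.act g x‖ ∧ r < ‖F.act g⁻¹ x‖) {x : ℂ} (hx : ‖x‖ ≤ r') :
    F.S f x = ∑ g ∈ t, f (F.act g x) := by
  refine finsum_eq_sum_of_support_subset _ fun g hg => ?_
  by_contra hgt
  exact hg (hf _ (ht g hgt x hx).1)

/-- the sum over the inverses -/
theorem S_eq_inv (F : Fuchs Γ) {f : ℂ → ℝ} {r r' : ℝ} (hf : ∀ x, r < ‖x‖ → f x = 0) {t : Finset Γ}
    (ht : ∀ g, g ∉ t → ∀ x : ℂ, ‖x‖ ≤ r' → r < ‖F.act g x‖ ∧ r < ‖F.act g⁻¹ x‖) {x : ℂ} (hx : ‖x‖ ≤ r') :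
    F.S f x = ∑ g ∈ t, f (F.act g⁻¹ x) := by
  have h1 : F.S f x = ∑ᶠ g : Γ, f (F.act g⁻¹ x) :=
    (finsum_comp_equiv (Equiv.inv Γ) (f := fun g => f (F.act g x))).symm
  rw [h1]
  refine finsum_eq_sum_of_support_subset _ fun g hg => ?_
  by_contra hgt
  exact hg (hf _ (ht g hgt x hx).2)

theorem S_inv (F : Fuchs Γ) (f : ℂ → ℝ) (h : Γ) {x : ℂ} (hx : ‖x‖ ≤ 1) : F.S f (F.act h x) = F.S f x := by
  have h1 : F.S f (F.act h x) = ∑ᶠ g : Γ, f (F.act (g * h) x) := by
    unfold Fuchs.S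
    refine finsum_congr fun g => ?_
    rw [act_mul F g h hx]
  rw [h1]
  exact finsum_comp_equiv (Equiv.mulRight h) (f := fun g => f (F.act g x))

theorem S_mul (F : Fuchs Γ) {χ : ℂ → ℝ} (hχ : F.Invt χ) (f : ℂ → ℝ) {x : ℂ} (hx : x ∈ ball (0:ℂ) 1) :
    F.S (fun y => χ y * f y) x = χ x * F.S f x := by
  have h1 : F.S (fun y => χ y * f y) x = ∑ᶠ g : Γ, χ x • f (F.act g x) := by
    unfold Fuchs.S
    refine finsum_congr fun g => ?_
    show χ (F.act g x) * f (F.act g x) = _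
    rw [hχ g x hx, smul_eq_mul]
  rw [h1, ← smul_finsum, smul_eq_mul]
  rfl

theorem S_add (F : Fuchs Γ) {f h : ℂ → ℝ} {r : ℝ} (hr : r < 1) (hf : ∀ x, r < ‖x‖ → f x = 0)
    (hh : ∀ x, r < ‖x‖ → h x = 0) {x : ℂ} (hx : x ∈ ball (0:ℂ) 1) :
    F.S (fun y => f y + h y) x = F.S f x + F.S h x := by
  obtain ⟨t, ht⟩ := fin_supp F hr (mem_ball_zero_iff.1 hx)
  rw [S_eq F hf ht le_rfl, S_eq F hh ht le_rfl, ← Finset.sum_add_distrib]
  refine S_eq F (r := r) (r' := ‖x‖) ?_ ht le_rfl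
  intro y hy
  rw [hf y hy, hh y hy, add_zero]

theorem S_nonneg (F : Fuchs Γ) {f : ℂ → ℝ} (hf : ∀ x, 0 ≤ f x) (x : ℂ) : 0 ≤ F.S f x :=
  finsum_nonneg fun _ => hf _

/-- one term is a lower bound -/
theorem S_ge (F : Fuchs Γ) {f : ℂ → ℝ} {r : ℝ} (hr : r < 1) (hf : ∀ x, r < ‖x‖ → f x = 0)
    (h0 : ∀ x, 0 ≤ f x) (g : Γ) {x : ℂ} (hx : x ∈ ball (0:ℂ) 1) : f (F.act g x) ≤ F.S f x := by
  obtain ⟨t, ht⟩ := fin_supp F hr (mem_ball_zero_iff.1 hx)
  by_cases hg : g ∈ t
  · rw [S_eq F hf ht le_rfl]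
    exact Finset.single_le_sum (f := fun g => f (F.act g x)) (fun _ _ => h0 _) hg
  · rw [hf _ (ht g hg x le_rfl).1]
    exact S_nonneg F h0 x

theorem S_smooth (F : Fuchs Γ) {f : ℂ → ℝ} {r : ℝ} (hr : r < 1) (hf : ∀ x, r < ‖x‖ → f x = 0) {n : ℕ}
    (hs : ContDiffOn ℝ n f (ball 0 1)) : ContDiffOn ℝ n (F.S f) (ball 0 1) := by
  intro x hx
  have hx1 : ‖x‖ < 1 := mem_ball_zero_iff.1 hx
  obtain ⟨t, ht⟩ := fin_supp F hr (r' := (1 + ‖x‖) / 2) (by linarith)
  have h1 : ContDiffOn ℝ n (fun y => ∑ g ∈ t, f (F.act g y)) (ball 0 1) := by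
    refine ContDiffOn.sum fun g _ => ?_
    exact hs.comp (act_smooth F g) fun y hy => mem_ball_zero_iff.2 (act_lt F g (mem_ball_zero_iff.1 hy))
  have h2 : ContDiffAt ℝ n (fun y => ∑ g ∈ t, f (F.act g y)) x := h1.contDiffAt (isOpen_ball.mem_nhds hx)
  have h3 : F.S f =ᶠ[𝓝 x] fun y => ∑ g ∈ t, f (F.act g y) := by
    have h4 : ball (0:ℂ) ((1 + ‖x‖) / 2) ∈ 𝓝 x :=
      isOpen_ball.mem_nhds (mem_ball_zero_iff.2 (by linarith))
    filter_upwards [h4] with y hy
    exact S_eq F hf ht (mem_ball_zero_iff.1 hy).le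
  exact (h2.congr_of_eventuallyEq h3).contDiffWithinAt

end TN

end S_H60_PH_SO

section S_H60_PH_CR

/-!
CR (the core has interior points).  Since `F` is nonelementary the limit set has three different points `a₁, a₂, a₃`: the four end points of two
elements without common fixed point (`AR.lim`, Pool/Agent/H12/TN/FC), see also FD.  Let `K x = 2 x / (1 + ‖x‖²)` (homeomorphism of the disc onto itself,
`K x = x` on the circle).  Direct computation for `‖p‖ = ‖q‖ = 1`:
`re (eta p q x) * ‖p - x‖² / (1 + ‖x‖²) = - im (K x * conj (p - q)) - im (p * conj q)`   (*)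
(`re (I (1 - p conj q)(x - q) conj (p - x)) = - im (..)`, expand).  For `g` and `p' = act g⁻¹ p`, `q' = act g⁻¹ q`:
`eta p q (act g x) = λ * eta p' q' x` with `λ = (1 - ‖b‖²)/‖1 - conj b q'‖² > 0` (`mob_sub`, and
`1 - p conj q = (1-‖b‖²)(1 - p' conj q') / ((1 - conj b p') conj (1 - conj b q'))`).
For `a ∈ F.lim`: `act g a ∈ F.lim`, so `¬ 0 < re (eta (p i) (q i) (act g a))` or `act g a = p i` by `Gaps.gap`; in both cases the affine
function `A y = - im (y * conj (p' - q')) - im (p' * conj q')` satisfies `A a ≤ 0` (for `a = p'`: `A p' = 0`).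
So `A ≤ 0` on the triangle with vertices `a₁, a₂, a₃` (three points of the circle, so not collinear, interior nonempty), and by (*)
`re (eta (p i) (q i) (act g x)) ≤ 0` for all `x` in the disc with `K x` in the triangle; `om_half`.  `K` is continuous and onto a
neighbourhood: take `x₀` with `K x₀` = the centroid (`x₀ = y/(1 + sqrt (1 - ‖y‖²))`), and `ε` by continuity of `K`.
`exists_f0`: let `β` be a `ContDiffBump` at `x₀` with support in `ball x₀ ε ∩ closedBall 0 r`, `t` the finite set of `fin_supp` for `r' = r`, and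
`f₀ = β / (t.card + 1)`.  For `x` in the disc: if no translate of `x` is in `closedBall 0 r` then `F.S f₀ x = 0`; otherwise
`F.S f₀ x = F.S f₀ (act h x)` (`S_inv`) with `‖act h x‖ ≤ r`, a sum of at most `t.card` terms (`S_eq`), each `≤ 1/(t.card + 1)`.
The integral of a continuous nonnegative function, positive at `x₀`, is positive.
-/

namespace TN
open Metric Set Filter Topology DS MeasureTheory

variable {Γ : Type} [Group Γ]

/-- the affine function of a chord -/
noncomputable def CR_A (p q y : ℂ) : ℝ :=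
  -(y * (starRingEnd ℂ) (p - q)).im - (p * (starRingEnd ℂ) q).im

/-- the map `K` -/
noncomputable def CR_K (x : ℂ) : ℂ := ((2 / (1 + ‖x‖ ^ 2) : ℝ) : ℂ) * x

private theorem CR_sq (z : ℂ) : ‖z‖ ^ 2 = z.re ^ 2 + z.im ^ 2 := by
  rw [← Complex.normSq_eq_norm_sq, Complex.normSq_apply]
  ring

private theorem CR_star {p q x : ℂ} (hp : ‖p‖ = 1) (hq : ‖q‖ = 1) :
    (eta p q x).re * ‖p - x‖ ^ 2 = (1 + ‖x‖ ^ 2) * CR_A p q (CR_K x) := by
  have hp2 : p.re ^ 2 + p.im ^ 2 = 1 := by rw [← CR_sq, hp]; norm_num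
  have hq2 : q.re ^ 2 + q.im ^ 2 = 1 := by rw [← CR_sq, hq]; norm_num
  have h1 : (0:ℝ) < 1 + ‖x‖ ^ 2 := by positivity
  have hR : (1 + ‖x‖ ^ 2) * CR_A p q (CR_K x) =
      -2 * (x * (starRingEnd ℂ) (p - q)).im - (1 + ‖x‖ ^ 2) * (p * (starRingEnd ℂ) q).im := by
    unfold CR_A CR_K
    rw [mul_assoc, Complex.im_ofReal_mul]
    field_simp
  rw [hR]
  by_cases hpx : p - x = 0
  · have hx : x = p := (sub_eq_zero.1 hpx).symm
    subst hx
    rw [sub_self, norm_zero, hp]
    simp only [Complex.mul_im, Complex.conj_re, Complex.conj_im, Complex.sub_re, Complex.sub_im,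
      map_sub]
    ring
  · have h2 : (eta p q x).re * ‖p - x‖ ^ 2 =
        (Complex.I * (1 - p * (starRingEnd ℂ) q) * (x - q) * (starRingEnd ℂ) (p - x)).re := by
      have h3 : eta p q x * ((‖p - x‖ ^ 2 : ℝ) : ℂ) =
          Complex.I * (1 - p * (starRingEnd ℂ) q) * (x - q) * (starRingEnd ℂ) (p - x) := by
        rw [← Complex.normSq_eq_norm_sq, ← Complex.mul_conj, eta]
        field_simp
      rw [← h3, Complex.re_mul_ofReal]
    rw [h2, CR_sq x]
    simp only [Complex.mul_im, Complex.mul_re, Complex.conj_re, Complex.conj_im, Complex.sub_re,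
      Complex.sub_im, map_sub, Complex.I_re, Complex.I_im, Complex.one_re, Complex.one_im]
    linear_combination (x.im * q.re - x.re * q.im) * hp2 - (x.im * p.re - x.re * p.im) * hq2

/-- sign of `re eta` from the sign of the affine function -/
private theorem CR_le {p q x : ℂ} (hp : ‖p‖ = 1) (hq : ‖q‖ = 1)
    (h : CR_A p q (CR_K x) ≤ 0) : (eta p q x).re ≤ 0 := by
  have h1 := CR_star (x := x) hp hq
  by_cases hpx : p = x
  · subst hpx
    simp [eta]
  have h2 : 0 < ‖p - x‖ ^ 2 := by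
    have : 0 < ‖p - x‖ := norm_pos_iff.2 (sub_ne_zero.2 hpx)
    positivity
  have h3 : (eta p q x).re * ‖p - x‖ ^ 2 ≤ 0 := by
    rw [h1]
    exact mul_nonpos_of_nonneg_of_nonpos (by positivity) h
  by_contra h4
  push Not at h4
  have := mul_pos h4 h2
  linarith

/-- the affine function is nonpositive at the points of the limit set -/
private theorem CR_lim (F : Fuchs Γ) {n : ℕ} {κ : Fin n → Γ} {p q : Fin n → ℂ}
    (G : Gaps F n κ p q) (i : Fin n) (g : Γ) {a : ℂ} (ha : a ∈ F.lim) :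
    CR_A (F.act g⁻¹ (p i)) (F.act g⁻¹ (q i)) a ≤ 0 := by
  have hp := (G.ar i).np
  have hq := (G.ar i).nq
  have hp' : ‖F.act g⁻¹ (p i)‖ = 1 := act_eq F _ hp
  have hq' : ‖F.act g⁻¹ (q i)‖ = 1 := act_eq F _ hq
  have han : ‖a‖ = 1 := ha.1
  have hK : CR_K a = a := by
    unfold CR_K
    rw [han]
    norm_num
  have h1 := CR_star (x := a) hp' hq'
  rw [hK, han] at h1
  have h2 : (eta (F.act g⁻¹ (p i)) (F.act g⁻¹ (q i)) a).re ≤ 0 := by
    by_contra h3
    push Not at h3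
    have hne : F.act g a ≠ p i := by
      intro h4
      have h5 : F.act g⁻¹ (p i) = a := by rw [← h4, act_inv_act F g han.le]
      rw [h5] at h3
      simp [eta] at h3
    have h6 := eta_act F g hp' hq' han.le
    rw [act_act_inv F g hp.le, act_act_inv F g hq.le] at h6
    have h7 : 0 < (eta (p i) (q i) (F.act g a)).re := by
      rw [h6, Complex.re_ofReal_mul]
      exact mul_pos (norm_pos_iff.2 (dact_ne F g hq'.le)) h3
    exact G.gap i _ (act_eq F g han) hne h7 (lim_inv F g ha)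
  have h8 : (eta (F.act g⁻¹ (p i)) (F.act g⁻¹ (q i)) a).re * ‖F.act g⁻¹ (p i) - a‖ ^ 2 ≤ 0 :=
    mul_nonpos_of_nonpos_of_nonneg h2 (by positivity)
  rw [h1] at h8
  norm_num at h8
  linarith

/-- points above the triangle are in the core -/
private theorem CR_pt (F : Fuchs Γ) {n : ℕ} {κ : Fin n → Γ} {p q : Fin n → ℂ}
    (G : Gaps F n κ p q) {a b c : ℂ} (ha : a ∈ F.lim) (hb : b ∈ F.lim) (hc : c ∈ F.lim)
    {x : ℂ} (hx : ‖x‖ < 1) {s t : ℝ} (hs : 0 ≤ s) (ht : 0 ≤ t) (hst : s + t ≤ 1)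
    (hK : CR_K x = a + s * (b - a) + t * (c - a)) (i : Fin n) (g : Γ) :
    Real.pi / 2 ≤ F.ht (p i) (q i) g x := by
  have hp := (G.ar i).np
  have hq := (G.ar i).nq
  have hp' : ‖F.act g⁻¹ (p i)‖ = 1 := act_eq F _ hp
  have hq' : ‖F.act g⁻¹ (q i)‖ = 1 := act_eq F _ hq
  have h1 := CR_lim F G i g ha
  have h2 := CR_lim F G i g hb
  have h3 := CR_lim F G i g hc
  have h4 : CR_A (F.act g⁻¹ (p i)) (F.act g⁻¹ (q i)) (CR_K x) =
      (1 - s - t) * CR_A (F.act g⁻¹ (p i)) (F.act g⁻¹ (q i)) a +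
      s * CR_A (F.act g⁻¹ (p i)) (F.act g⁻¹ (q i)) b +
      t * CR_A (F.act g⁻¹ (p i)) (F.act g⁻¹ (q i)) c := by
    rw [hK]
    unfold CR_A
    simp only [Complex.mul_im, Complex.mul_re, Complex.conj_re, Complex.conj_im, Complex.sub_re,
      Complex.sub_im, Complex.add_re, Complex.add_im, map_sub, Complex.ofReal_re,
      Complex.ofReal_im]
    ring
  have h5 : CR_A (F.act g⁻¹ (p i)) (F.act g⁻¹ (q i)) (CR_K x) ≤ 0 := by
    rw [h4]
    have e1 : (1 - s - t) * CR_A (F.act g⁻¹ (p i)) (F.act g⁻¹ (q i)) a ≤ 0 :=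
      mul_nonpos_of_nonneg_of_nonpos (by linarith) h1
    have e2 : s * CR_A (F.act g⁻¹ (p i)) (F.act g⁻¹ (q i)) b ≤ 0 :=
      mul_nonpos_of_nonneg_of_nonpos hs h2
    have e3 : t * CR_A (F.act g⁻¹ (p i)) (F.act g⁻¹ (q i)) c ≤ 0 :=
      mul_nonpos_of_nonneg_of_nonpos ht h3
    linarith
  have h6 := CR_le hp' hq' h5
  have h7 := eta_act F g hp' hq' hx.le
  rw [act_act_inv F g hp.le, act_act_inv F g hq.le] at h7
  have h8 : (eta (p i) (q i) (F.act g x)).re ≤ 0 := by
    rw [h7, Complex.re_ofReal_mul]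
    exact mul_nonpos_of_nonneg_of_nonpos (norm_nonneg _) h6
  by_contra h9
  push Not at h9
  have := (om_half hp hq (G.ar i).ne (act_lt F g hx)).1 h9
  linarith

/-- three points of the circle are not collinear -/
private theorem CR_det {a b c : ℂ} (ha : ‖a‖ = 1) (hb : ‖b‖ = 1) (hc : ‖c‖ = 1) (hab : a ≠ b)
    (hac : a ≠ c) (hbc : b ≠ c) : ((b - a) * (starRingEnd ℂ) (c - a)).im ≠ 0 := by
  intro h
  have ha0 : a ≠ 0 := by rintro rfl; simp at ha
  have hb0 : b ≠ 0 := by rintro rfl; simp at hb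
  have hc0 : c ≠ 0 := by rintro rfl; simp at hc
  have h1 : (b - a) * (starRingEnd ℂ) (c - a) - (starRingEnd ℂ) ((b - a) * (starRingEnd ℂ) (c - a)) = 0 := by
    rw [Complex.sub_conj, h]
    simp
  rw [map_mul, Complex.conj_conj, map_sub, map_sub, ← Complex.inv_eq_conj ha,
    ← Complex.inv_eq_conj hb, ← Complex.inv_eq_conj hc] at h1
  have h2 : (b - a) * (c⁻¹ - a⁻¹) - (b⁻¹ - a⁻¹) * (c - a) = (b - a) * (a - c) * (b - c) / (a * b * c) := by
    field_simp
    ring
  rw [h2, div_eq_zero_iff] at h1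
  rcases h1 with h1 | h1
  · exact mul_ne_zero (mul_ne_zero (sub_ne_zero.2 hab.symm) (sub_ne_zero.2 hac)) (sub_ne_zero.2 hbc) h1
  · exact mul_ne_zero (mul_ne_zero ha0 hb0) hc0 h1

private theorem CR_K_cont : Continuous CR_K := by
  unfold CR_K
  refine Continuous.mul (Complex.continuous_ofReal.comp ?_) continuous_id
  refine Continuous.div continuous_const (by fun_prop) fun x => ?_
  positivity

/-- `K` is onto the disc -/
private theorem CR_onto {y : ℂ} (hy : ‖y‖ < 1) : ∃ x : ℂ, ‖x‖ < 1 ∧ CR_K x = y := by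
  have h0 : 0 < 1 - ‖y‖ ^ 2 := by nlinarith [norm_nonneg y]
  set s := Real.sqrt (1 - ‖y‖ ^ 2) with hs
  have hs0 : 0 < s := Real.sqrt_pos.2 h0
  have hs2 : s ^ 2 = 1 - ‖y‖ ^ 2 := Real.sq_sqrt h0.le
  have hn : ‖(((1 + s)⁻¹ : ℝ) : ℂ) * y‖ = (1 + s)⁻¹ * ‖y‖ := by
    rw [norm_mul, Complex.norm_real, Real.norm_eq_abs, abs_of_pos (by positivity)]
  refine ⟨(((1 + s)⁻¹ : ℝ) : ℂ) * y, ?_, ?_⟩
  · rw [hn, inv_mul_lt_iff₀ (by positivity)]
    linarith
  · unfold CR_K
    rw [hn]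
    have h1 : 2 / (1 + ((1 + s)⁻¹ * ‖y‖) ^ 2) = 1 + s := by
      have h2 : ‖y‖ ^ 2 = (1 - s) * (1 + s) := by linarith
      rw [mul_pow, h2]
      field_simp
      ring
    rw [h1, ← mul_assoc, ← Complex.ofReal_mul, mul_inv_cancel₀ (by positivity), Complex.ofReal_one,
      one_mul]

theorem exists_core (F : Fuchs Γ) (hN : F.Nonel) {n : ℕ} {κ : Fin n → Γ} {p q : Fin n → ℂ}
    (G : Gaps F n κ p q) : ∃ x₀ ∈ ball (0:ℂ) 1, ∃ ε > 0, ball x₀ ε ⊆ ball 0 1 ∧
      ∀ x ∈ ball x₀ ε, ∀ i g, Real.pi / 2 ≤ F.ht (p i) (q i) g x := by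
  obtain ⟨g, h, hg, hh, hgh⟩ := hN
  obtain ⟨a, b, hab⟩ := exists_AR F hg
  obtain ⟨c, c', hcc⟩ := exists_AR F hh
  have hac : a ≠ c := by
    rintro rfl
    exact hgh a hab.np hab.fp hcc.fp
  have hbc : b ≠ c := by
    rintro rfl
    exact hgh b hab.nq hab.fq hcc.fp
  have ha := (AR.lim hab).1
  have hb := (AR.lim hab).2
  have hc := (AR.lim hcc).1
  set d := ((b - a) * (starRingEnd ℂ) (c - a)).im with hd
  have hd0 : d ≠ 0 := CR_det hab.np hab.nq hcc.np hab.ne hac hbc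
  let s : ℂ → ℝ := fun y => ((y - a) * (starRingEnd ℂ) (c - a)).im / d
  let t : ℂ → ℝ := fun y => -((y - a) * (starRingEnd ℂ) (b - a)).im / d
  have hsc : Continuous s := by
    refine Continuous.div_const (Complex.continuous_im.comp ?_) d
    fun_prop
  have htc : Continuous t := by
    refine Continuous.div_const (Continuous.neg (Complex.continuous_im.comp ?_)) d
    fun_prop
  have hrep : ∀ y : ℂ, y = a + s y * (b - a) + t y * (c - a) := by
    intro y
    have hd' : (b.im - a.im) * (c.re - a.re) - (b.re - a.re) * (c.im - a.im) = d := by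
      rw [hd]
      simp only [Complex.mul_im, Complex.conj_re, Complex.conj_im, Complex.sub_re,
        Complex.sub_im, map_sub]
      ring
    have h1 : s y * d = (y.im - a.im) * (c.re - a.re) - (y.re - a.re) * (c.im - a.im) := by
      simp only [s]
      rw [div_mul_cancel₀ _ hd0]
      simp only [Complex.mul_im, Complex.conj_re, Complex.conj_im, Complex.sub_re,
        Complex.sub_im, map_sub]
      ring
    have h2 : t y * d = -((y.im - a.im) * (b.re - a.re) - (y.re - a.re) * (b.im - a.im)) := by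
      simp only [t]
      rw [div_mul_cancel₀ _ hd0]
      simp only [Complex.mul_im, Complex.conj_re, Complex.conj_im, Complex.sub_re,
        Complex.sub_im, map_sub]
      ring
    apply Complex.ext
    · simp only [Complex.mul_re, Complex.sub_re,
        Complex.sub_im, Complex.add_re, Complex.ofReal_re, Complex.ofReal_im]
      apply mul_left_cancel₀ hd0
      linear_combination (y.re - a.re) * (-hd') - (b.re - a.re) * h1 - (c.re - a.re) * h2
    · simp only [Complex.mul_im, Complex.sub_re,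
        Complex.sub_im, Complex.add_im, Complex.ofReal_re, Complex.ofReal_im]
      apply mul_left_cancel₀ hd0
      linear_combination (y.im - a.im) * (-hd') - (b.im - a.im) * h1 - (c.im - a.im) * h2
  have hy1 : ‖(a + b + c) / 3‖ < 1 := by
    have e1 : ‖a + b‖ ^ 2 = 4 - ‖a - b‖ ^ 2 := by
      have ha2 : a.re ^ 2 + a.im ^ 2 = 1 := by rw [← CR_sq, hab.np]; norm_num
      have hb2 : b.re ^ 2 + b.im ^ 2 = 1 := by rw [← CR_sq, hab.nq]; norm_num
      rw [CR_sq, CR_sq]
      simp only [Complex.sub_re, Complex.sub_im, Complex.add_re, Complex.add_im]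
      linear_combination 2 * ha2 + 2 * hb2
    have e2 : 0 < ‖a - b‖ := norm_pos_iff.2 (sub_ne_zero.2 hab.ne)
    have e3 : ‖a + b‖ < 2 := by nlinarith [norm_nonneg (a + b)]
    have e4 : ‖a + b + c‖ ≤ ‖a + b‖ + ‖c‖ := norm_add_le _ _
    rw [hcc.np] at e4
    rw [norm_div, Complex.norm_ofNat, div_lt_one (by norm_num)]
    linarith
  obtain ⟨x₀, hx₀, hKx⟩ := CR_onto hy1
  have hs0 : s ((a + b + c) / 3) = 1 / 3 := by
    simp only [s]
    have : (a + b + c) / 3 - a = (((1:ℝ) / 3 : ℝ) : ℂ) * (b - a) + (((1:ℝ) / 3 : ℝ) : ℂ) * (c - a) := by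
      push_cast
      ring
    rw [this, add_mul, mul_assoc, mul_assoc, Complex.add_im, Complex.im_ofReal_mul,
      Complex.im_ofReal_mul, ← hd, Complex.mul_conj, Complex.ofReal_im]
    field_simp
    ring
  have ht0 : t ((a + b + c) / 3) = 1 / 3 := by
    simp only [t]
    have : (a + b + c) / 3 - a = (((1:ℝ) / 3 : ℝ) : ℂ) * (b - a) + (((1:ℝ) / 3 : ℝ) : ℂ) * (c - a) := by
      push_cast
      ring
    have h3 : ((c - a) * (starRingEnd ℂ) (b - a)).im = -d := by
      rw [hd]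
      simp only [Complex.mul_im, Complex.conj_re, Complex.conj_im, Complex.sub_re,
        Complex.sub_im, map_sub]
      ring
    rw [this, add_mul, mul_assoc, mul_assoc, Complex.add_im, Complex.im_ofReal_mul,
      Complex.im_ofReal_mul, h3, Complex.mul_conj, Complex.ofReal_im]
    field_simp
    ring
  have hev : ∀ᶠ x in 𝓝 x₀, x ∈ ball (0:ℂ) 1 ∧ 0 < s (CR_K x) ∧ 0 < t (CR_K x) ∧
      s (CR_K x) + t (CR_K x) < 1 := by
    have k1 : ∀ᶠ x in 𝓝 x₀, x ∈ ball (0:ℂ) 1 := isOpen_ball.mem_nhds (by simpa using hx₀)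
    have k2 : ∀ᶠ x in 𝓝 x₀, 0 < s (CR_K x) := by
      refine ((hsc.comp CR_K_cont).tendsto x₀).eventually (lt_mem_nhds ?_)
      rw [Function.comp_apply, hKx, hs0]
      norm_num
    have k3 : ∀ᶠ x in 𝓝 x₀, 0 < t (CR_K x) := by
      refine ((htc.comp CR_K_cont).tendsto x₀).eventually (lt_mem_nhds ?_)
      rw [Function.comp_apply, hKx, ht0]
      norm_num
    have k4 : ∀ᶠ x in 𝓝 x₀, s (CR_K x) + t (CR_K x) < 1 := by
      refine (((hsc.comp CR_K_cont).add (htc.comp CR_K_cont)).tendsto x₀).eventually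
        (gt_mem_nhds ?_)
      change s (CR_K x₀) + t (CR_K x₀) < 1
      rw [hKx, ht0, hs0]
      norm_num
    filter_upwards [k1, k2, k3, k4] with x h1 h2 h3 h4
    exact ⟨h1, h2, h3, h4⟩
  obtain ⟨ε, hε, hb'⟩ := Metric.eventually_nhds_iff_ball.1 hev
  refine ⟨x₀, by simpa using hx₀, ε, hε, fun x hx => (hb' x hx).1, fun x hx i g => ?_⟩
  obtain ⟨h1, h2, h3, h4⟩ := hb' x hx
  exact CR_pt F G ha hb hc (by simpa using h1) h2.le h3.le h4.le (hrep _) i g

/-- a test function in the core -/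
theorem exists_f0 (F : Fuchs Γ) (hN : F.Nonel) {n : ℕ} {κ : Fin n → Γ} {p q : Fin n → ℂ}
    (G : Gaps F n κ p q) : ∃ (f₀ : ℂ → ℝ) (r : ℝ), r < 1 ∧ Continuous f₀ ∧ (∀ x, 0 ≤ f₀ x) ∧
      (∀ x, r < ‖x‖ → f₀ x = 0) ∧ (∀ x ∈ ball (0:ℂ) 1, F.S f₀ x ≤ 1) ∧
      (∀ x ∈ ball (0:ℂ) 1, f₀ x ≠ 0 → ∀ i g, Real.pi / 2 ≤ F.ht (p i) (q i) g x) ∧
      0 < ∫ x in ball (0:ℂ) 1, f₀ x / (1 - ‖x‖ ^ 2) ^ 2 := by
  obtain ⟨x₀, hx₀, ε, hε, -, hcore⟩ := exists_core F hN G
  rw [mem_ball_zero_iff] at hx₀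
  set ε' := min ε ((1 - ‖x₀‖) / 2) with hε'
  have hε'0 : 0 < ε' := lt_min hε (by linarith)
  set r := (1 + ‖x₀‖) / 2 with hr
  have hr1 : r < 1 := by rw [hr]; linarith
  obtain ⟨t, ht⟩ := fin_supp F hr1 hr1
  have hN0 : (0:ℝ) < t.card + 1 := by positivity
  let f₀ : ℂ → ℝ := fun x => max 0 (1 - dist x x₀ / ε') / (t.card + 1)
  have hf0 : ∀ x, 0 ≤ f₀ x := fun x => div_nonneg (le_max_left _ _) hN0.le
  have hf1 : ∀ x, f₀ x ≤ 1 / (t.card + 1) := by
    intro x
    refine div_le_div_of_nonneg_right (max_le zero_le_one ?_) hN0.le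
    have : 0 ≤ dist x x₀ / ε' := by positivity
    linarith
  have hfc : Continuous f₀ := by
    refine Continuous.div_const (continuous_const.max ?_) _
    exact continuous_const.sub ((continuous_id.dist continuous_const).div_const _)
  have hfz : ∀ x, ε' ≤ dist x x₀ → f₀ x = 0 := by
    intro x hx
    have : 1 ≤ dist x x₀ / ε' := (one_le_div hε'0).2 hx
    simp only [f₀]
    rw [max_eq_left (by linarith), zero_div]
  have hfr : ∀ x, r < ‖x‖ → f₀ x = 0 := by
    intro x hx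
    apply hfz
    have h1 : ‖x‖ ≤ dist x x₀ + ‖x₀‖ := by
      rw [dist_eq_norm]
      simpa using norm_add_le (x - x₀) x₀
    have h2 : ε' ≤ (1 - ‖x₀‖) / 2 := min_le_right _ _
    rw [hr] at hx
    linarith
  refine ⟨f₀, r, hr1, hfc, hf0, hfr, ?_, ?_, ?_⟩
  · intro x hx
    rw [mem_ball_zero_iff] at hx
    by_cases hex : ∃ h, ‖F.act h x‖ ≤ r
    · obtain ⟨h, hh⟩ := hex
      rw [← S_inv F f₀ h hx.le, S_eq F hfr ht hh]
      calc ∑ g ∈ t, f₀ (F.act g (F.act h x)) ≤ ∑ g ∈ t, 1 / ((t.card : ℝ) + 1) :=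
            Finset.sum_le_sum fun g _ => hf1 _
        _ = t.card / (t.card + 1) := by
            rw [Finset.sum_const, nsmul_eq_mul]
            ring
        _ ≤ 1 := (div_le_one hN0).2 (by linarith)
    · push Not at hex
      have : F.S f₀ x = 0 := by
        unfold Fuchs.S
        rw [← finsum_zero (α := Γ) (M := ℝ)]
        exact finsum_congr fun g => hfr _ (hex g)
      rw [this]
      exact zero_le_one
  · intro x _ hfx i g
    refine hcore x ?_ i g
    rw [mem_ball]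
    by_contra h
    push Not at h
    exact hfx (hfz x ((min_le_left _ _).trans h))
  · have hcl : ∀ x, r < ‖x‖ → f₀ x / (1 - ‖x‖ ^ 2) ^ 2 = 0 := fun x hx => by
      rw [hfr x hx, zero_div]
    have hφc : Continuous fun x : ℂ => f₀ x / (1 - ‖x‖ ^ 2) ^ 2 := by
      rw [continuous_iff_continuousAt]
      intro x
      by_cases hx : ‖x‖ < 1
      · have : (1 - ‖x‖ ^ 2) ^ 2 ≠ 0 := by
          have : 0 < 1 - ‖x‖ ^ 2 := by nlinarith [norm_nonneg x]
          positivity
        exact hfc.continuousAt.div (by fun_prop) this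
      · have h1 : ∀ᶠ y in 𝓝 x, r < ‖y‖ :=
          (continuous_norm.tendsto x).eventually (lt_mem_nhds (by linarith))
        have h2 : (fun x : ℂ => f₀ x / (1 - ‖x‖ ^ 2) ^ 2) =ᶠ[𝓝 x] fun _ => 0 := by
          filter_upwards [h1] with y hy
          exact hcl y hy
        exact continuousAt_const.congr h2.symm
    have hsup : HasCompactSupport fun x : ℂ => f₀ x / (1 - ‖x‖ ^ 2) ^ 2 := by
      refine HasCompactSupport.intro (isCompact_closedBall (0:ℂ) r) fun x hx => hcl x ?_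
      simpa using hx
    rw [setIntegral_eq_integral_of_forall_compl_eq_zero]
    · refine hφc.integral_pos_of_hasCompactSupport_nonneg_nonzero hsup (fun x => ?_) (x := x₀) ?_
      · exact div_nonneg (hf0 x) (by positivity)
      · have h1 : 0 < 1 - ‖x₀‖ ^ 2 := by nlinarith [norm_nonneg x₀]
        have h2 : 0 < f₀ x₀ := by
          simp only [f₀, dist_self, zero_div, sub_zero]
          rw [max_eq_right zero_le_one]
          positivity
        positivity
    · intro x hx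
      rw [mem_ball_zero_iff, not_lt] at hx
      exact hcl x (by linarith)

end TN

end S_H60_PH_CR

section S_H60_PH_CV

/-!
CV (changes of variables).  `cv`: `integral_image_eq_integral_abs_det_fderiv_smul` for the injective map `act g` on `ball 0 1`
(`F.act_inj`, `F.act_hasDerivAt`, image = the ball: `act_lt`, `act_act_inv`); the real determinant of the multiplication by `c` is
`‖c‖²` (see the proof of LA in Pool/Agent/H36/DS/LA.lean, or `Complex.conformalAt`/`LinearMap.det` by the matrix in the basis `1, I`).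
`strip_cv`: the same for `om p q` from the disc onto the open strip (`om_im_pos`, `omi_ball`, `om_omi`, `omi_om`, `om_hasDerivAt`);
`strip_prod`: the strip is the product `ℝ × (0, π)` (`Complex.measurableEquivRealProd`, `Complex.volume_preserving_equiv_real_prod`),
`MeasureTheory.integral_prod_mul` after writing the set integral over the strip with indicator of `Ioo 0 π` in the second factor.
-/

namespace TN
open Metric Set Filter Topology DS MeasureTheory

variable {Γ : Type} [Group Γ]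

/-- the real determinant of a complex derivative -/
theorem CV_det (c : ℂ) :
    ((ContinuousLinearMap.toSpanSingleton ℂ c).restrictScalars ℝ : ℂ →L[ℝ] ℂ).det = ‖c‖ ^ 2 := by
  have h1 : (((ContinuousLinearMap.toSpanSingleton ℂ c).restrictScalars ℝ : ℂ →L[ℝ] ℂ) :
      ℂ →ₗ[ℝ] ℂ) = LinearMap.mulLeft ℝ c := by
    ext x
    simp [mul_comm]
  rw [ContinuousLinearMap.det, h1]
  have h2 := Algebra.norm_complex_apply c
  rw [Algebra.norm_apply] at h2
  rw [Complex.sq_norm, ← h2]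
  rfl

/-- change of variables for injective holomorphic maps -/
theorem CV_gen {E : Type*} [NormedAddCommGroup E] [NormedSpace ℝ E] {Ω : Set ℂ}
    (hΩ : MeasurableSet Ω) {f f' : ℂ → ℂ} (hf : ∀ x ∈ Ω, HasDerivAt f (f' x) x)
    (hi : InjOn f Ω) (k : ℂ → E) :
    ∫ y in f '' Ω, k y = ∫ x in Ω, (‖f' x‖ ^ 2) • k (f x) := by
  rw [integral_image_eq_integral_abs_det_fderiv_smul volume hΩ
    (f' := fun x => ((ContinuousLinearMap.toSpanSingleton ℂ (f' x)).restrictScalars ℝ)) _ hi]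
  · apply integral_congr_ae
    apply Eventually.of_forall
    intro x
    simp only
    rw [CV_det, abs_of_nonneg (sq_nonneg _)]
  · intro x hx
    exact ((hf x hx).hasFDerivAt.restrictScalars ℝ).hasFDerivWithinAt

theorem cv (F : Fuchs Γ) (g : Γ) {E : Type*} [NormedAddCommGroup E] [NormedSpace ℝ E] (k : ℂ → E) :
    ∫ y in ball (0:ℂ) 1, k y = ∫ x in ball (0:ℂ) 1, (‖F.dact g x‖ ^ 2) • k (F.act g x) := by
  have himg : F.act g '' ball (0:ℂ) 1 = ball (0:ℂ) 1 := by
    ext y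
    simp only [mem_image, mem_ball_zero_iff]
    constructor
    · rintro ⟨x, hx, rfl⟩
      exact act_lt F g hx
    · intro hy
      exact ⟨F.act g⁻¹ y, act_lt F _ hy, act_act_inv F g hy.le⟩
  have h := CV_gen (measurableSet_ball (x := (0:ℂ)) (ε := 1)) (f := F.act g) (f' := F.dact g)
    (fun x hx => act_hasDerivAt F g (mem_ball_zero_iff.1 hx).le)
    ((act_inj F g).mono ball_subset_closedBall) k
  rw [himg] at h
  exact h

theorem strip_cv {p q : ℂ} (hp : ‖p‖ = 1) (hq : ‖q‖ = 1) (hpq : p ≠ q) (k : ℂ → ℝ) :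
    ∫ x in ball (0:ℂ) 1, ‖omD p q x‖ ^ 2 * k (om p q x) = ∫ ω in {ω : ℂ | 0 < ω.im ∧ ω.im < Real.pi}, k ω := by
  have hmem : ∀ x ∈ ball (0:ℂ) 1, x ∈ Dpq p q := by
    intro x hx
    have hx1 : ‖x‖ < 1 := mem_ball_zero_iff.1 hx
    refine ⟨hx1.le, ?_, ?_⟩
    · rintro rfl; linarith
    · rintro rfl; linarith
  have himg : om p q '' ball (0:ℂ) 1 = {ω : ℂ | 0 < ω.im ∧ ω.im < Real.pi} := by
    ext y
    simp only [mem_image, mem_ball_zero_iff, mem_ofPred_eq]
    constructor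
    · rintro ⟨x, hx, rfl⟩
      exact om_im_pos hp hq hpq hx
    · intro hy
      exact ⟨omi p q y, omi_ball hp hq hpq hy.1 hy.2, om_omi hp hq hpq ⟨hy.1.le, hy.2.le⟩⟩
  have hinj : InjOn (om p q) (ball (0:ℂ) 1) := by
    intro x hx y hy h
    rw [← omi_om hp hq hpq (hmem x hx), ← omi_om hp hq hpq (hmem y hy), h]
  have h := CV_gen (measurableSet_ball (x := (0:ℂ)) (ε := 1)) (f := om p q) (f' := omD p q)
    (fun x hx => om_hasDerivAt hp hq hpq (mem_ball_zero_iff.1 hx)) hinj k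
  rw [himg] at h
  rw [h]
  simp only [smul_eq_mul]

theorem strip_prod {p q : ℂ} (hp : ‖p‖ = 1) (hq : ‖q‖ = 1) (hpq : p ≠ q) (τ k : ℝ → ℝ) :
    ∫ x in ball (0:ℂ) 1, ‖omD p q x‖ ^ 2 * (τ (om p q x).re * k (om p q x).im) =
      (∫ t, τ t) * ∫ s in (0:ℝ)..Real.pi, k s := by
  rw [strip_cv hp hq hpq (fun ω => τ ω.re * k ω.im)]
  have hS : MeasurableSet {ω : ℂ | 0 < ω.im ∧ ω.im < Real.pi} :=
    ((isOpen_lt continuous_const Complex.continuous_im).inter
      (isOpen_lt Complex.continuous_im continuous_const)).measurableSet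
  rw [← integral_indicator hS]
  have h1 : ∀ ω : ℂ, ({ω : ℂ | 0 < ω.im ∧ ω.im < Real.pi}.indicator (fun ω : ℂ => τ ω.re * k ω.im)) ω =
      (fun z : ℝ × ℝ => τ z.1 * (Ioo 0 Real.pi).indicator k z.2) (Complex.measurableEquivRealProd ω) := by
    intro ω
    simp only [Complex.measurableEquivRealProd_apply]
    by_cases hω : 0 < ω.im ∧ ω.im < Real.pi
    · rw [indicator_of_mem (by exact hω), indicator_of_mem (by exact hω)]
    · rw [indicator_of_notMem (by exact hω), indicator_of_notMem (by exact hω), mul_zero]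
  rw [integral_congr_ae (Eventually.of_forall h1),
    Complex.volume_preserving_equiv_real_prod.integral_comp
      Complex.measurableEquivRealProd.measurableEmbedding
      (fun z : ℝ × ℝ => τ z.1 * (Ioo 0 Real.pi).indicator k z.2),
    Measure.volume_eq_prod, integral_prod_mul, integral_indicator measurableSet_Ioo,
    intervalIntegral.integral_of_le Real.pi_pos.le, integral_Ioc_eq_integral_Ioo]

end TN

end S_H60_PH_CV

section S_H60_PH_EX

/-!
EX (invariant extension of functions given on the collars).  `C x = c i (act g x)` if `F.ht (p i) (q i) g x < π/2` for some `i`, `g` (chosen),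
and `C x = 0` otherwise.  By `ht_disj` another choice `(j, h)` has `j = i` and `h = κ_i^z g`, and `c i` is invariant under powers of
`κ i` (induction on `z : ℤ`, `act_mul`), so `C x = c i (act g x)` for every such pair `(i, g)`.  Invariance: `ht_mul`.
Local statement at `x`: let `δ` be from `ht_lip` with `η = (π/2 - y₁)/2`.  If `F.ht (p i) (q i) g x < π/2 - η` for some `i, g`: then for
`x'` near `x` the height is `< π/2`, so `C x' = c i (act g x')`.  Otherwise all heights at `x'` are `> y₁`, so `C x' = 0`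
(either no height is `< π/2`, or `C x' = c i (act g x') = 0` by `hz`).
`exists_cut`: apply `inv_ext` to `c i x = c (im om) - 1` (real), `y₁ = b`, and put `χ = 1 + C`.
-/

namespace TN
open Metric Set Filter Topology DS MeasureTheory

variable {Γ : Type} [Group Γ]

theorem EX_zpow {F : Fuchs Γ} {κ : Γ} {E : Type} {c : ℂ → E}
    (hinv : ∀ x ∈ ball (0:ℂ) 1, c (F.act κ x) = c x) (k : Γ) (hk : k ∈ Subgroup.zpowers κ) :
    ∀ x ∈ ball (0:ℂ) 1, c (F.act k x) = c x := by
  have hle : ∀ x ∈ ball (0:ℂ) 1, ‖x‖ ≤ 1 := fun x hx => by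
    have : ‖x‖ < 1 := by simpa using hx
    exact this.le
  have hb : ∀ g : Γ, ∀ x ∈ ball (0:ℂ) 1, F.act g x ∈ ball (0:ℂ) 1 := fun g x hx => by
    have : ‖x‖ < 1 := by simpa using hx
    simpa using act_lt F g this
  have hm : ∀ x ∈ ball (0:ℂ) 1, c (F.act κ⁻¹ x) = c x := by
    intro x hx
    rw [← hinv _ (hb κ⁻¹ x hx), act_act_inv F κ (hle x hx)]
  rw [Subgroup.mem_zpowers_iff] at hk
  obtain ⟨z, rfl⟩ := hk
  induction z using Int.induction_on with
  | zero =>
    intro x hx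
    rw [zpow_zero, act_one F (hle x hx)]
  | succ n ih =>
    intro x hx
    rw [zpow_add_one, act_mul F _ _ (hle x hx), ih _ (hb κ x hx), hinv x hx]
  | pred n ih =>
    intro x hx
    rw [zpow_sub_one, act_mul F _ _ (hle x hx), ih _ (hb κ⁻¹ x hx), hm x hx]

theorem inv_ext (F : Fuchs Γ) {n : ℕ} {κ : Fin n → Γ} {p q : Fin n → ℂ} (G : Gaps F n κ p q)
    {E : Type} [Zero E] {c : Fin n → ℂ → E} {y₁ : ℝ} (hy : y₁ < Real.pi / 2)
    (hinv : ∀ i, ∀ x ∈ ball (0:ℂ) 1, c i (F.act (κ i) x) = c i x)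
    (hz : ∀ i, ∀ x ∈ ball (0:ℂ) 1, y₁ ≤ (om (p i) (q i) x).im → c i x = 0) :
    ∃ C : ℂ → E, (∀ g, ∀ x ∈ ball (0:ℂ) 1, C (F.act g x) = C x) ∧
      (∀ i, ∀ x ∈ ball (0:ℂ) 1, (om (p i) (q i) x).im < Real.pi / 2 → C x = c i x) ∧
      (∀ x ∈ ball (0:ℂ) 1, (∀ i g, y₁ ≤ F.ht (p i) (q i) g x) → C x = 0) ∧
      ∀ x ∈ ball (0:ℂ) 1, ∃ δ > 0, (∃ i g, ∀ x' ∈ ball (0:ℂ) 1, dist x' x < δ → C x' = c i (F.act g x')) ∨
        (∀ x' ∈ ball (0:ℂ) 1, dist x' x < δ → C x' = 0) := by
  classical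
  have hlt : ∀ x ∈ ball (0:ℂ) 1, ‖x‖ < 1 := fun x hx => by simpa using hx
  have hb : ∀ g : Γ, ∀ x ∈ ball (0:ℂ) 1, F.act g x ∈ ball (0:ℂ) 1 := fun g x hx => by
    simpa using act_lt F g (hlt x hx)
  let C : ℂ → E := fun x => if h : ∃ a : Fin n × Γ, F.ht (p a.1) (q a.1) a.2 x < Real.pi / 2 then
    c h.choose.1 (F.act h.choose.2 x) else 0
  have hC0 : ∀ x, (¬ ∃ a : Fin n × Γ, F.ht (p a.1) (q a.1) a.2 x < Real.pi / 2) → C x = 0 := by
    intro x hx
    exact dif_neg hx
  have hC1 : ∀ x ∈ ball (0:ℂ) 1, ∀ i g, F.ht (p i) (q i) g x < Real.pi / 2 →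
      C x = c i (F.act g x) := by
    intro x hx i g hg
    have h : ∃ a : Fin n × Γ, F.ht (p a.1) (q a.1) a.2 x < Real.pi / 2 := ⟨(i, g), hg⟩
    have e1 : C x = c h.choose.1 (F.act h.choose.2 x) := dif_pos h
    rw [e1]
    have h2 := h.choose_spec
    generalize h.choose = a at h2 ⊢
    obtain ⟨j, k⟩ := a
    obtain ⟨e2, e3⟩ := ht_disj F G (hlt x hx) hg h2
    subst e2
    have e4 : F.act k x = F.act (k * g⁻¹) (F.act g x) := by
      rw [← act_mul F _ _ (hlt x hx).le, inv_mul_cancel_right]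
    simp only
    rw [e4]
    exact EX_zpow (hinv i) _ e3 _ (hb g x hx)
  have hC2 : ∀ x ∈ ball (0:ℂ) 1, (∀ i g, y₁ ≤ F.ht (p i) (q i) g x) → C x = 0 := by
    intro x hx h
    by_cases h1 : ∃ a : Fin n × Γ, F.ht (p a.1) (q a.1) a.2 x < Real.pi / 2
    · obtain ⟨⟨i, g⟩, hg⟩ := h1
      rw [hC1 x hx i g hg]
      exact hz i _ (hb g x hx) (h i g)
    · exact hC0 x h1
  refine ⟨C, ?_, ?_, hC2, ?_⟩
  · intro g x hx
    by_cases h1 : ∃ a : Fin n × Γ, F.ht (p a.1) (q a.1) a.2 (F.act g x) < Real.pi / 2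
    · obtain ⟨⟨i, h⟩, hh⟩ := h1
      rw [hC1 _ (hb g x hx) i h hh]
      simp only at hh
      rw [ht_mul F _ _ _ _ (hlt x hx)] at hh
      rw [hC1 x hx i (h * g) hh, act_mul F _ _ (hlt x hx).le]
    · rw [hC0 _ h1, hC0 x]
      rintro ⟨⟨i, h⟩, hh⟩
      apply h1
      refine ⟨(i, h * g⁻¹), ?_⟩
      simp only at hh ⊢
      rw [ht_mul F _ _ _ _ (hlt x hx), inv_mul_cancel_right]
      exact hh
  · intro i x hx h
    have e1 : F.act 1 x = x := act_one F (hlt x hx).le
    have h1 : F.ht (p i) (q i) 1 x < Real.pi / 2 := by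
      rw [Fuchs.ht, e1]
      exact h
    rw [hC1 x hx i 1 h1, e1]
  · intro x hx
    have hη : 0 < (Real.pi / 2 - y₁) / 2 := by linarith
    obtain ⟨δ, hδ, H⟩ := ht_lip F G (hlt x hx) hη
    refine ⟨δ, hδ, ?_⟩
    by_cases h1 : ∃ a : Fin n × Γ, F.ht (p a.1) (q a.1) a.2 x < Real.pi / 2 - (Real.pi / 2 - y₁) / 2
    · obtain ⟨⟨i, g⟩, hg⟩ := h1
      left
      refine ⟨i, g, fun x' hx' hd => hC1 x' hx' i g ?_⟩
      have := abs_lt.1 (H x' hx' hd i g)
      simp only at hg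
      linarith [this.2]
    · right
      intro x' hx' hd
      refine hC2 x' hx' fun i g => ?_
      have h2 := abs_lt.1 (H x' hx' hd i g)
      have h3 : Real.pi / 2 - (Real.pi / 2 - y₁) / 2 ≤ F.ht (p i) (q i) g x := by
        by_contra h4
        exact h1 ⟨(i, g), not_le.1 h4⟩
      linarith [h2.1]

theorem EX_ht_smooth (F : Fuchs Γ) {p q : ℂ} (hp : ‖p‖ = 1) (hq : ‖q‖ = 1) (hpq : p ≠ q) (g : Γ)
    {m : WithTop ℕ∞} : ContDiffOn ℝ m (fun x => (om p q (F.act g x)).im) (ball 0 1) := by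
  have h1 : DifferentiableOn ℂ (fun x => om p q (F.act g x)) (ball 0 1) := by
    intro x hx
    have hx' : ‖x‖ < 1 := by simpa using hx
    have h2 := (om_hasDerivAt hp hq hpq (act_lt F g hx')).comp x (act_hasDerivAt F g hx'.le)
    exact h2.differentiableAt.differentiableWithinAt
  have h2 : ContDiffOn ℂ m (fun x => om p q (F.act g x)) (ball 0 1) := h1.contDiffOn isOpen_ball
  exact Complex.imCLM.contDiff.comp_contDiffOn (h2.restrict_scalars ℝ)

theorem exists_cut (F : Fuchs Γ) {n : ℕ} {κ : Fin n → Γ} {p q : Fin n → ℂ} (G : Gaps F n κ p q)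
    {a b : ℝ} {c : ℝ → ℝ} (hc : Step a b c) (hb : b < Real.pi / 2) :
    ∃ χ : ℂ → ℝ, Cut F p q c χ := by
  have hlt : ∀ x ∈ ball (0:ℂ) 1, ‖x‖ < 1 := fun x hx => by simpa using hx
  obtain ⟨C, h1, h2, h3, h4⟩ := inv_ext F G (E := ℝ) (c := fun i x => c (om (p i) (q i) x).im - 1) hb
    (by
      intro i x hx
      have e := ht_kappa F G i (Subgroup.mem_zpowers (κ i)) 1 (hlt x hx)
      rw [Fuchs.ht, Fuchs.ht, mul_one, act_one F (hlt x hx).le] at e
      simp only [e])
    (by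
      intro i x hx h
      rw [hc.one _ h, sub_self])
  have hval : ∀ x ∈ ball (0:ℂ) 1, C x = 0 ∨ ∃ i g, C x = c (om (p i) (q i) (F.act g x)).im - 1 := by
    intro x hx
    obtain ⟨δ, hδ, H | H⟩ := h4 x hx
    · obtain ⟨i, g, H⟩ := H
      exact Or.inr ⟨i, g, H x hx (by simpa using hδ)⟩
    · exact Or.inl (H x hx (by simpa using hδ))
  refine ⟨fun x => 1 + C x, ?_, ?_, ?_, ?_, ?_, ?_⟩
  · intro x hx
    obtain ⟨δ, hδ, H | H⟩ := h4 x hx
    · obtain ⟨i, g, H⟩ := H
      have hs : ContDiffOn ℝ 2 (fun y => 1 + (c (om (p i) (q i) (F.act g y)).im - 1)) (ball 0 1) := by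
        have := hc.smooth.comp_contDiffOn
          (EX_ht_smooth F (G.ar i).np (G.ar i).nq (G.ar i).ne g (m := 2))
        exact contDiffOn_const.add (this.sub contDiffOn_const)
      refine ((hs x hx).congr_of_eventuallyEq ?_ ?_)
      · have : ball x δ ∈ 𝓝[ball 0 1] x := mem_nhdsWithin_of_mem_nhds (ball_mem_nhds x hδ)
        filter_upwards [this, self_mem_nhdsWithin] with y hy hy1
        rw [H y hy1 hy]
      · rw [H x hx (by simpa using hδ)]
    · have hs : ContDiffOn ℝ 2 (fun _ : ℂ => (1 : ℝ)) (ball 0 1) := contDiffOn_const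
      refine ((hs x hx).congr_of_eventuallyEq ?_ ?_)
      · have : ball x δ ∈ 𝓝[ball 0 1] x := mem_nhdsWithin_of_mem_nhds (ball_mem_nhds x hδ)
        filter_upwards [this, self_mem_nhdsWithin] with y hy hy1
        rw [H y hy1 hy, add_zero]
      · rw [H x hx (by simpa using hδ), add_zero]
  · intro g x hx
    simp only [h1 g x hx]
  · intro x hx
    rcases hval x hx with h | ⟨i, g, h⟩
    · simp [h]
    · simp [h, hc.nonneg]
  · intro x hx
    rcases hval x hx with h | ⟨i, g, h⟩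
    · simp [h]
    · simp [h, hc.le_one]
  · intro i x hx h
    rw [h2 i x hx h]
    ring
  · intro x hx h
    rw [h3 x hx fun i g => hb.le.trans (h i g), add_zero]

/-- values of a cut-off function in terms of one height -/
theorem Cut.eq {F : Fuchs Γ} {n : ℕ} {p q : Fin n → ℂ} {c : ℝ → ℝ} {χ : ℂ → ℝ} (h : Cut F p q c χ)
    {i : Fin n} {g : Γ} {x : ℂ} (hx : ‖x‖ < 1) (hh : F.ht (p i) (q i) g x < Real.pi / 2) :
    χ x = c (F.ht (p i) (q i) g x) := by
  rw [← h.invt g x (by simpa using hx)]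
  exact h.near i _ (by simpa using act_lt F g hx) hh

/-- where all heights are at least `b` the cut-off function is `1` -/
theorem Cut.eq_one {F : Fuchs Γ} {n : ℕ} {p q : Fin n → ℂ} {a b : ℝ} {c : ℝ → ℝ} {χ : ℂ → ℝ}
    (h : Cut F p q c χ) (hc : Step a b c) {x : ℂ} (hx : ‖x‖ < 1)
    (hh : ∀ i g, b ≤ F.ht (p i) (q i) g x) : χ x = 1 := by
  by_cases h1 : ∃ i g, F.ht (p i) (q i) g x < Real.pi / 2
  · obtain ⟨i, g, hg⟩ := h1
    rw [h.eq hx hg]
    exact hc.one _ (hh i g)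
  · push Not at h1
    exact h.far x (by simpa using hx) h1

/-- where the cut-off function is not zero all heights are greater than `a` -/
theorem Cut.ne_zero {F : Fuchs Γ} {n : ℕ} {p q : Fin n → ℂ} {a b : ℝ} {c : ℝ → ℝ} {χ : ℂ → ℝ}
    (h : Cut F p q c χ) (hc : Step a b c) (ha : a < Real.pi / 2) {x : ℂ} (hx : ‖x‖ < 1) (hh : χ x ≠ 0) :
    ∀ i g, a < F.ht (p i) (q i) g x := by
  intro i g
  by_contra h1
  push Not at h1
  apply hh
  rw [h.eq hx (h1.trans_lt ha)]
  exact hc.zero _ h1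

end TN

end S_H60_PH_EX

section S_H60_PH_PT

/-!
PT (equivariant patching on holes).  For `x` in the disc at most one pair `(g, i)` has `act g x ∈ closure (O i)`: if also `act h x ∈ closure (O j)`
then `act (h g⁻¹) (act g x) = act h x`, so `h g⁻¹ = 1` and `i = j` by `hd`.  Define `f' x = (J g x)⁻¹ * fi i (act g x)` if `act g x ∈ O i` for some
(chosen) pair, and `f' x = f x` otherwise (`J g x ≠ 0`, since `J g⁻¹ (act g x) * J g x = J 1 x = 1`).
Invariance: if `act g x ∈ O i` then `act (g h⁻¹) (act h x) ∈ O i`, and `J g x = J (g h⁻¹) (act h x) * J h x`.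
Local statement at `x`: all closures are compact subsets of the disc (`closure (O i)` is closed and bounded), contained in `closedBall 0 r`, `r < 1`; take
`fin_supp` with a ball around `x` in `closedBall 0 r'`: only finitely many `g` can map a point near `x` into some `closure (O i)`.  If no pair has
`act g x ∈ closure (O i)` then the same holds near `x` (finitely many closed sets): first alternative.  Otherwise, with the unique pair `(g, i)`, near `x`
no other pair `(h, j)` has `act h x' ∈ closure (O j)`: if `act g x' ∈ O i` then `f' (act g x') = fi i (act g x')` (pair `(1, i)`, `hJ1`), otherwise `act g x'` is in no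
translate of an `O j` and `f' (act g x') = f (act g x')`.
-/

namespace TN
open Metric Set Filter Topology DS MeasureTheory

variable {Γ : Type} [Group Γ]

theorem PT_uniq (F : Fuchs Γ) {m : ℕ} {O : Fin m → Set ℂ}
    (hd : ∀ i j g, (g ≠ 1 ∨ i ≠ j) → Disjoint (F.act g '' closure (O i)) (closure (O j)))
    {x : ℂ} (hx : ‖x‖ < 1) {g h : Γ} {i j : Fin m} (h1 : F.act g x ∈ closure (O i))
    (h2 : F.act h x ∈ closure (O j)) : h = g ∧ i = j := by
  by_contra hne
  have h3 : h * g⁻¹ ≠ 1 ∨ i ≠ j := by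
    by_contra h4
    push Not at h4
    exact hne ⟨mul_inv_eq_one.1 h4.1, h4.2⟩
  refine (Set.disjoint_left.1 (hd i j _ h3)) (Set.mem_image_of_mem _ h1) ?_
  rw [← act_mul F _ _ hx.le, inv_mul_cancel_right]
  exact h2

theorem PT_J (F : Fuchs Γ) {J : Γ → ℂ → ℂ} (hJ1 : ∀ x ∈ ball (0:ℂ) 1, J 1 x = 1)
    (hJ : ∀ g h, ∀ x ∈ ball (0:ℂ) 1, J (g * h) x = J g (F.act h x) * J h x) (g : Γ) {x : ℂ}
    (hx : x ∈ ball (0:ℂ) 1) : J g x ≠ 0 := by
  intro h
  have h1 := hJ g⁻¹ g x hx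
  rw [inv_mul_cancel, hJ1 x hx, h, mul_zero] at h1
  exact one_ne_zero h1

theorem PT_rad {m : ℕ} {O : Fin m → Set ℂ} (hs : ∀ i, closure (O i) ⊆ ball 0 1) :
    ∃ r : ℝ, r < 1 ∧ ∀ i, ∀ x ∈ closure (O i), ‖x‖ ≤ r := by
  have hK : IsCompact (⋃ i, closure (O i)) :=
    isCompact_iUnion fun i =>
      Metric.isCompact_of_isClosed_isBounded isClosed_closure (isBounded_ball.subset (hs i))
  rcases (⋃ i, closure (O i)).eq_empty_or_nonempty with h0 | hne
  · refine ⟨0, one_pos, fun i x hx => ?_⟩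
    have : x ∈ ⋃ i, closure (O i) := mem_iUnion.2 ⟨i, hx⟩
    rw [h0] at this
    exact absurd this (Set.notMem_empty x)
  · obtain ⟨x₀, hx₀, hm⟩ := hK.exists_isMaxOn hne continuous_norm.continuousOn
    obtain ⟨i₀, hi₀⟩ := mem_iUnion.1 hx₀
    exact ⟨‖x₀‖, mem_ball_zero_iff.1 (hs i₀ hi₀), fun i x hx => hm (mem_iUnion.2 ⟨i, hx⟩)⟩

theorem PT_loc (F : Fuchs Γ) {m : ℕ} {O : Fin m → Set ℂ} (hs : ∀ i, closure (O i) ⊆ ball 0 1)
    {x : ℂ} (hx : ‖x‖ < 1) :
    ∃ δ > 0, ∀ x' ∈ ball (0:ℂ) 1, dist x' x < δ → ∀ g i, F.act g x ∉ closure (O i) →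
      F.act g x' ∉ closure (O i) := by
  obtain ⟨r, hr, hrO⟩ := PT_rad hs
  obtain ⟨t, ht⟩ := fin_supp F hr (r' := (1 + ‖x‖) / 2) (by linarith)
  have h1 : ∀ g i, ∀ᶠ x' in 𝓝 x, F.act g x ∉ closure (O i) → F.act g x' ∉ closure (O i) := by
    intro g i
    by_cases h : F.act g x ∈ closure (O i)
    · exact Filter.Eventually.of_forall fun x' h' => absurd h h'
    · have hc : ContinuousAt (F.act g) x := (act_cont F g).continuousAt
        (mem_of_superset (isOpen_ball.mem_nhds (mem_ball_zero_iff.2 hx)) ball_subset_closedBall)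
      have h2 : (closure (O i))ᶜ ∈ 𝓝 (F.act g x) := isClosed_closure.isOpen_compl.mem_nhds h
      filter_upwards [hc.preimage_mem_nhds h2] with x' hx' _
      exact hx'
  have h2 : ∀ᶠ x' in 𝓝 x, ∀ g ∈ t, ∀ i, F.act g x ∉ closure (O i) → F.act g x' ∉ closure (O i) := by
    rw [Filter.eventually_all_finset]
    intro g _
    rw [Filter.eventually_all]
    exact h1 g
  have h3 : ball (0:ℂ) ((1 + ‖x‖) / 2) ∈ 𝓝 x :=
    isOpen_ball.mem_nhds (mem_ball_zero_iff.2 (by linarith))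
  obtain ⟨δ, hδ, H⟩ := Metric.eventually_nhds_iff.1 (h2.and h3)
  refine ⟨δ, hδ, fun x' _ hd g i hg => ?_⟩
  obtain ⟨H1, H2⟩ := H hd
  by_cases hgt : g ∈ t
  · exact H1 g hgt i hg
  · intro hmem
    exact absurd (hrO i _ hmem) (not_le.2 (ht g hgt x' (mem_ball_zero_iff.1 H2).le).1)

open Classical in
theorem patch (F : Fuchs Γ) {m : ℕ} {O : Fin m → Set ℂ} (ho : ∀ i, IsOpen (O i))
    (hs : ∀ i, closure (O i) ⊆ ball 0 1)
    (hd : ∀ i j g, (g ≠ 1 ∨ i ≠ j) → Disjoint (F.act g '' closure (O i)) (closure (O j)))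
    {J : Γ → ℂ → ℂ} (hJ1 : ∀ x ∈ ball (0:ℂ) 1, J 1 x = 1)
    (hJ : ∀ g h, ∀ x ∈ ball (0:ℂ) 1, J (g * h) x = J g (F.act h x) * J h x) {f : ℂ → ℂ}
    (hf : ∀ g, ∀ x ∈ ball (0:ℂ) 1, f (F.act g x) = J g x * f x) (fi : Fin m → ℂ → ℂ) :
    ∃ f' : ℂ → ℂ, (∀ g, ∀ x ∈ ball (0:ℂ) 1, f' (F.act g x) = J g x * f' x) ∧
      (∀ i, ∀ x ∈ O i, f' x = fi i x) ∧
      (∀ x ∈ ball (0:ℂ) 1, (∀ g i, F.act g x ∉ O i) → f' x = f x) ∧
      ∀ x ∈ ball (0:ℂ) 1, ∃ δ > 0,
        (∀ x' ∈ ball (0:ℂ) 1, dist x' x < δ → f' x' = f x' ∧ ∀ g i, F.act g x' ∉ O i) ∨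
        ∃ g i, F.act g x ∈ closure (O i) ∧ ∀ x' ∈ ball (0:ℂ) 1, dist x' x < δ →
          f' (F.act g x') = if F.act g x' ∈ O i then fi i (F.act g x') else f (F.act g x') := by
  have hlt : ∀ x ∈ ball (0:ℂ) 1, ‖x‖ < 1 := fun x hx => mem_ball_zero_iff.1 hx
  have hb : ∀ g : Γ, ∀ x ∈ ball (0:ℂ) 1, F.act g x ∈ ball (0:ℂ) 1 :=
    fun g x hx => mem_ball_zero_iff.2 (act_lt F g (hlt x hx))
  have hOb : ∀ i, O i ⊆ ball 0 1 := fun i => subset_closure.trans (hs i)
  let f' : ℂ → ℂ := fun x => if h : ∃ a : Γ × Fin m, F.act a.1 x ∈ O a.2 then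
    (J h.choose.1 x)⁻¹ * fi h.choose.2 (F.act h.choose.1 x) else f x
  have h1 : ∀ x ∈ ball (0:ℂ) 1, ∀ g i, F.act g x ∈ O i → f' x = (J g x)⁻¹ * fi i (F.act g x) := by
    intro x hx g i hg
    have h : ∃ a : Γ × Fin m, F.act a.1 x ∈ O a.2 := ⟨(g, i), hg⟩
    have e1 : f' x = (J h.choose.1 x)⁻¹ * fi h.choose.2 (F.act h.choose.1 x) := dif_pos h
    rw [e1]
    have h2 := h.choose_spec
    generalize h.choose = a at h2 ⊢
    obtain ⟨k, j⟩ := a
    obtain ⟨e2, e3⟩ := PT_uniq F hd (hlt x hx) (subset_closure hg) (subset_closure h2)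
    simp only at e2
    subst e2 e3
    rfl
  have h3 : ∀ x ∈ ball (0:ℂ) 1, (∀ g i, F.act g x ∉ O i) → f' x = f x := by
    intro x _ hg
    refine dif_neg ?_
    rintro ⟨a, ha⟩
    exact hg _ _ ha
  have h2 : ∀ i, ∀ x ∈ O i, f' x = fi i x := by
    intro i x hx
    have hxb := hOb i hx
    have e : F.act 1 x = x := act_one F (hlt x hxb).le
    rw [h1 x hxb 1 i (by rw [e]; exact hx), hJ1 x hxb, e, inv_one, one_mul]
  refine ⟨f', ?_, h2, h3, ?_⟩
  · intro h x hx
    by_cases hex : ∃ g i, F.act g x ∈ O i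
    · obtain ⟨g, i, hg⟩ := hex
      have e1 : F.act (g * h⁻¹) (F.act h x) = F.act g x := by
        rw [← act_mul F _ _ (hlt x hx).le, inv_mul_cancel_right]
      have e2 : J g x = J (g * h⁻¹) (F.act h x) * J h x := by
        rw [← hJ _ _ x hx, inv_mul_cancel_right]
      rw [h1 x hx g i hg, h1 _ (hb h x hx) (g * h⁻¹) i (by rw [e1]; exact hg), e1, e2]
      have n1 := PT_J F hJ1 hJ h hx
      have n2 := PT_J F hJ1 hJ (g * h⁻¹) (hb h x hx)
      field_simp
    · push Not at hex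
      rw [h3 x hx hex, h3 _ (hb h x hx) fun g i => by
        rw [← act_mul F _ _ (hlt x hx).le]; exact hex _ _]
      exact hf h x hx
  · intro x hx
    obtain ⟨δ, hδ, H⟩ := PT_loc F hs (hlt x hx)
    refine ⟨δ, hδ, ?_⟩
    by_cases hex : ∃ g i, F.act g x ∈ closure (O i)
    · obtain ⟨g, i, hg⟩ := hex
      right
      refine ⟨g, i, hg, fun x' hx' hd' => ?_⟩
      by_cases hO : F.act g x' ∈ O i
      · rw [if_pos hO, h2 i _ hO]
      · rw [if_neg hO, h3 _ (hb g x' hx')]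
        intro h j hj
        rw [← act_mul F _ _ (hlt x' hx').le] at hj
        by_cases hc : F.act (h * g) x ∈ closure (O j)
        · obtain ⟨e1, e2⟩ := PT_uniq F hd (hlt x hx) hg hc
          rw [e1, ← e2] at hj
          exact hO hj
        · exact H x' hx' hd' _ j hc (subset_closure hj)
    · push Not at hex
      left
      intro x' hx' hd'
      have h4 : ∀ g i, F.act g x' ∉ O i := fun g i hgi =>
        H x' hx' hd' g i (hex g i) (subset_closure hgi)
      exact ⟨h3 x' hx' h4, h4⟩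

end TN

end S_H60_PH_PT

section S_H60_PH_HF

/-!
HF (the vector field inside the holes).  Choose `s > 0` with `closedBall (k i) s ⊆ O i` for all `i`.  Let `Li` be a continuous logarithm of
`V x / (x - k i)` on `frontier (O i)`; the closed sets `frontier (O i)` and `closedBall (k i) s` are disjoint (`O i` open), so by the Tietze theorem
(real and imaginary parts, or `ContinuousMap.exists_extension`; `frontier (O i)` and the ball are closed in `ℂ`) there is a continuous `Λ i : ℂ → ℂ` with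
`Λ i = Li` on the frontier and `Λ i = 0` on the ball.  `fi i x = (x - k i) * exp (Λ i x)`.  Apply `patch` with `J g x = F.dact g x` (`dact_mul`, `dact_one`), `f = V`.
Continuity of `V'` at `x`: in the first alternative `V' = V` near `x`.  In the second, near `x`: `V' x' = (dact g x')⁻¹ * V' (act g x')` and
`V' (act g x') = (if act g x' ∈ O i then fi i .. else V ..)`; the function `y ↦ if y ∈ O i then fi i y else V y` is continuous on the disc because `fi i = V` on
`frontier (O i)` (`ContinuousOn.if` / `ContinuousOn.piecewise`; `k i ∉ frontier (O i)`).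
Zeros: if `V' x = 0` and `act g x ∈ O i` then `V' (act g x) = fi i (act g x) = 0`, so `act g x = k i`; if `x` is in no translate of a hole then `V x = 0`, which is
impossible by `hV0`.
-/

namespace TN
open Metric Set Filter Topology DS MeasureTheory

variable {Γ : Type} [Group Γ]

/-- the extension of a logarithm from a closed set, vanishing on a disjoint closed set -/
theorem HF_ext {S T : Set ℂ} (hS : IsClosed S) (hT : IsClosed T) (hd : Disjoint T S) {L : ℂ → ℂ}
    (hL : ContinuousOn L S) :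
    ∃ Λ : ℂ → ℂ, Continuous Λ ∧ (∀ x ∈ S, Λ x = L x) ∧ ∀ x ∈ T, Λ x = 0 := by
  obtain ⟨G, hG⟩ := ContinuousMap.exists_restrict_eq (Y := ℂ) hS
    (⟨S.domRestrict L, hL.domRestrict⟩ : C(S, ℂ))
  obtain ⟨u, hu0, hu1, -⟩ := exists_continuous_zero_one_of_isClosed hT hS hd
  refine ⟨fun x => (u x : ℂ) * G x, ?_, fun x hx => ?_, fun x hx => ?_⟩
  · exact (Complex.continuous_ofReal.comp u.continuous).mul G.continuous
  · have h1 : G x = L x := by
      exact congrArg (fun f : C(S, ℂ) => f ⟨x, hx⟩) hG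
    have h2 : u x = 1 := hu1 hx
    simp only
    rw [h1, h2]
    simp
  · have h2 : u x = 0 := hu0 hx
    simp only
    rw [h2]
    simp

theorem holes_field (F : Fuchs Γ) {H : ℂ → ℂ} {m : ℕ} {O : Fin m → Set ℂ} {k : Fin m → ℂ}
    (ho : Holes F H ⊤ m O k) {V : ℂ → ℂ} (hVc : ContinuousOn V (ball 0 1)) (hVe : F.Equi V)
    (hV0 : ∀ x ∈ ball (0:ℂ) 1, V x = 0 → ∃ g i, F.act g x ∈ O i)
    (hlog : ∀ i, HasLog (fun x => V x / (x - k i)) (frontier (O i))) :
    ∃ (V' : ℂ → ℂ) (s : ℝ), 0 < s ∧ ContinuousOn V' (ball 0 1) ∧ F.Equi V' ∧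
      (∀ i, closedBall (k i) s ⊆ O i ∧ ∀ x ∈ closedBall (k i) s, V' x = x - k i) ∧
      (∀ x ∈ ball (0:ℂ) 1, V' x = 0 → ∃ g i, F.act g x = k i) ∧
      ∀ x ∈ ball (0:ℂ) 1, (∀ g i, F.act g x ∉ O i) → V' x = V x := by
  classical
  have hle : ∀ x ∈ ball (0:ℂ) 1, ‖x‖ < 1 := fun x hx => mem_ball_zero_iff.1 hx
  have hball : ∀ (g : Γ), ∀ x ∈ ball (0:ℂ) 1, F.act g x ∈ ball (0:ℂ) 1 := fun g x hx =>
    mem_ball_zero_iff.2 (act_lt F g (hle x hx))
  -- the radius
  obtain ⟨s, hs0, hsO⟩ : ∃ s : ℝ, 0 < s ∧ ∀ i, closedBall (k i) s ⊆ O i := by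
    have h1 : ∀ i, ∀ᶠ s : ℝ in 𝓝[>] 0, closedBall (k i) s ⊆ O i := by
      intro i
      obtain ⟨ε, hε, hb⟩ := Metric.isOpen_iff.1 (ho.opn i) (k i) (ho.mem i)
      have h2 : ∀ᶠ s : ℝ in 𝓝[>] 0, s < ε := mem_nhdsWithin_of_mem_nhds (Iio_mem_nhds hε)
      filter_upwards [h2] with s hs
      exact (closedBall_subset_ball hs).trans hb
    have h2 : ∀ᶠ s : ℝ in 𝓝[>] 0, 0 < s := self_mem_nhdsWithin
    exact (h2.and (Filter.eventually_all.2 h1)).exists
  have hkf : ∀ i, ∀ x ∈ frontier (O i), x ∉ O i := by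
    intro i x hx h
    rw [(ho.opn i).frontier_eq] at hx
    exact hx.2 h
  -- the logarithms
  choose L hLc hL using hlog
  have hΛ : ∀ i, ∃ Λ : ℂ → ℂ, Continuous Λ ∧ (∀ x ∈ frontier (O i), Λ x = L i x) ∧
      ∀ x ∈ closedBall (k i) s, Λ x = 0 := by
    intro i
    refine HF_ext isClosed_frontier isClosed_closedBall ?_ (hLc i)
    refine Set.disjoint_left.2 fun x hx hx' => ?_
    exact hkf i x hx' (hsO i hx)
  choose Λ hΛc hΛf hΛ0 using hΛ
  set fi : Fin m → ℂ → ℂ := fun i x => (x - k i) * Complex.exp (Λ i x) with hfi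
  have hfic : ∀ i, Continuous (fi i) := fun i =>
    (continuous_id.sub continuous_const).mul (Complex.continuous_exp.comp (hΛc i))
  obtain ⟨V', hV1, hV2, hV3, hV4⟩ := patch F (J := fun g x => F.dact g x) (f := V) ho.opn ho.sub
    (fun i j g h => ho.disj i j g (Subgroup.mem_top g) h)
    (fun x hx => dact_one F (hle x hx).le)
    (fun g h x hx => dact_mul F g h (hle x hx).le) hVe fi
  have hfr : ∀ i, ∀ y ∈ frontier (O i), fi i y = V y := by
    intro i y hy
    have hne : y - k i ≠ 0 := by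
      intro h
      rw [sub_eq_zero] at h
      exact hkf i y hy (h ▸ ho.mem i)
    simp only [hfi]
    rw [hΛf i y hy, ← hL i y hy]
    field_simp
  have hE : ∀ i, ContinuousOn (fun y => if y ∈ O i then fi i y else V y) (ball (0:ℂ) 1) := by
    intro i
    refine ContinuousOn.if (fun a ha => hfr i a ha.2) (hfic i).continuousOn
      (hVc.mono inter_subset_left)
  refine ⟨V', s, hs0, ?_, hV1, fun i => ⟨hsO i, fun x hx => ?_⟩, ?_, hV3⟩
  · intro x hx
    obtain ⟨δ, hδ, h | ⟨g, i, -, h⟩⟩ := hV4 x hx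
    · have hev : V' =ᶠ[𝓝[ball (0:ℂ) 1] x] V := by
        filter_upwards [self_mem_nhdsWithin, mem_nhdsWithin_of_mem_nhds (ball_mem_nhds x hδ)]
          with x' h1 h2
        exact (h x' h1 h2).1
      exact (hVc x hx).congr_of_eventuallyEq hev (h x hx (by rw [dist_self]; exact hδ)).1
    · have heq : ∀ x' ∈ ball (0:ℂ) 1, dist x' x < δ → V' x' = (F.dact g x')⁻¹ *
          (if F.act g x' ∈ O i then fi i (F.act g x') else V (F.act g x')) := by
        intro x' h1 h2
        rw [← h x' h1 h2, hV1 g x' h1, inv_mul_cancel_left₀ (dact_ne F g (hle x' h1).le)]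
      have hc : ContinuousWithinAt (fun x' => (F.dact g x')⁻¹ *
          (if F.act g x' ∈ O i then fi i (F.act g x') else V (F.act g x'))) (ball (0:ℂ) 1) x := by
        refine ContinuousWithinAt.mul ?_ ?_
        · exact (((dact_smooth F g (n := 1)).continuousOn) x hx).inv₀ (dact_ne F g (hle x hx).le)
        · exact ((hE i).comp ((act_cont F g).mono ball_subset_closedBall) (hball g)) x hx
      refine hc.congr_of_eventuallyEq ?_ (heq x hx (by rw [dist_self]; exact hδ))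
      filter_upwards [self_mem_nhdsWithin, mem_nhdsWithin_of_mem_nhds (ball_mem_nhds x hδ)]
        with x' h1 h2
      exact heq x' h1 h2
  · rw [hV2 i x (hsO i hx)]
    simp only [hfi]
    rw [hΛ0 i x hx, Complex.exp_zero, mul_one]
  · intro x hx h0
    by_cases h : ∃ g i, F.act g x ∈ O i
    · obtain ⟨g, i, hgi⟩ := h
      refine ⟨g, i, ?_⟩
      have h1 := hV1 g x hx
      rw [h0, mul_zero, hV2 i _ hgi] at h1
      simp only [hfi] at h1
      exact sub_eq_zero.1 ((mul_eq_zero.1 h1).resolve_right (Complex.exp_ne_zero _))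
    · exfalso
      have h1 := hV3 x hx (fun g i hgi => h ⟨g, i, hgi⟩)
      rw [h0] at h1
      exact h (hV0 x hx h1.symm)

end TN

end S_H60_PH_HF

section S_H60_PH_WR

/-!
WR (Wirtinger calculus).  Everything from `fderiv` rules.  `dz_comp`: for `HasDerivAt g g' x` (complex), the real derivative of `g`
is `v ↦ g' * v`, so `fderiv ℝ (f ∘ g) x v = fderiv ℝ f (g x) (g' * v)`; write a real linear map `A` of `ℂ` as
`A w = α w + β conj w` with `α = (A 1 - I A I)/2`, `β = (A 1 + I A I)/2`.  `dz_conj`: `fderiv ℝ (conj ∘ f) x v = conj (fderiv ℝ f x v)`.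
`dz_dzb`: symmetry of second derivatives (`ContDiffAt.isSymmSndFDerivAt`, or `second_derivative_symmetric`).
-/

namespace TN
open Metric Set Filter Topology

private theorem WR_eq (A : ℂ →L[ℝ] ℂ) (w : ℂ) :
    A w = (A 1 - Complex.I * A Complex.I) / 2 * w +
      (A 1 + Complex.I * A Complex.I) / 2 * (starRingEnd ℂ) w := by
  have h1 : A w = (w.re : ℂ) * A 1 + (w.im : ℂ) * A Complex.I := by
    have h2 : w = w.re • (1 : ℂ) + w.im • Complex.I := by
      rw [Complex.real_smul, Complex.real_smul, mul_one]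
      exact (Complex.re_add_im w).symm
    conv_lhs => rw [h2, map_add, map_smul, map_smul]
    rw [Complex.real_smul, Complex.real_smul]
  have h3 : w = (w.re : ℂ) + (w.im : ℂ) * Complex.I := (Complex.re_add_im w).symm
  have h4 : (starRingEnd ℂ) w = (w.re : ℂ) - (w.im : ℂ) * Complex.I := by
    apply Complex.ext <;> simp
  rw [h1, h4]
  conv_rhs => rw [h3]
  simp only [Complex.add_re, Complex.add_im, Complex.ofReal_re, Complex.ofReal_im,
    Complex.mul_re, Complex.mul_im, Complex.I_re, Complex.I_im, mul_zero, mul_one, zero_mul,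
    add_zero, sub_zero, zero_add]
  linear_combination ((w.im : ℂ) * A Complex.I) * Complex.I_mul_I

private theorem WR_of {f : ℂ → ℂ} {x : ℂ} {A : ℂ →L[ℝ] ℂ} (h : HasFDerivAt f A x) :
    dz f x = (A 1 - Complex.I * A Complex.I) / 2 ∧
      dzb f x = (A 1 + Complex.I * A Complex.I) / 2 := by
  rw [dz, dzb, h.fderiv]
  exact ⟨rfl, rfl⟩

private theorem WR_has {f : ℂ → ℂ} {x : ℂ} (h : DifferentiableAt ℝ f x) :
    HasFDerivAt f (fderiv ℝ f x) x := h.hasFDerivAt

theorem wr_expand (f : ℂ → ℂ) (x w : ℂ) :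
    fderiv ℝ f x w = dz f x * w + dzb f x * (starRingEnd ℂ) w :=
  WR_eq _ w

theorem dz_congr {f g : ℂ → ℂ} {x : ℂ} (h : f =ᶠ[𝓝 x] g) : dz f x = dz g x ∧ dzb f x = dzb g x := by
  rw [dz, dz, dzb, dzb, h.fderiv_eq]
  exact ⟨rfl, rfl⟩

theorem dz_const (c x : ℂ) : dz (fun _ => c) x = 0 ∧ dzb (fun _ => c) x = 0 := by
  obtain ⟨h1, h2⟩ := WR_of (hasFDerivAt_const (𝕜 := ℝ) c x)
  rw [h1, h2]
  simp

theorem dz_add {f g : ℂ → ℂ} {x : ℂ} (hf : DifferentiableAt ℝ f x) (hg : DifferentiableAt ℝ g x) :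
    dz (fun y => f y + g y) x = dz f x + dz g x ∧ dzb (fun y => f y + g y) x = dzb f x + dzb g x := by
  obtain ⟨h1, h2⟩ := WR_of (HasFDerivAt.fun_add (WR_has hf) (WR_has hg))
  rw [h1, h2, dz, dz, dzb, dzb]
  simp only [add_apply]
  constructor <;> ring

theorem dz_sub {f g : ℂ → ℂ} {x : ℂ} (hf : DifferentiableAt ℝ f x) (hg : DifferentiableAt ℝ g x) :
    dz (fun y => f y - g y) x = dz f x - dz g x ∧ dzb (fun y => f y - g y) x = dzb f x - dzb g x := by
  obtain ⟨h1, h2⟩ := WR_of (HasFDerivAt.fun_sub (WR_has hf) (WR_has hg))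
  rw [h1, h2, dz, dz, dzb, dzb]
  simp only [sub_apply]
  constructor <;> ring

theorem dz_mul {f g : ℂ → ℂ} {x : ℂ} (hf : DifferentiableAt ℝ f x) (hg : DifferentiableAt ℝ g x) :
    dz (fun y => f y * g y) x = dz f x * g x + f x * dz g x ∧
      dzb (fun y => f y * g y) x = dzb f x * g x + f x * dzb g x := by
  obtain ⟨h1, h2⟩ := WR_of (HasFDerivAt.fun_mul (WR_has hf) (WR_has hg))
  rw [h1, h2, dz, dz, dzb, dzb]
  simp only [add_apply, smul_apply, smul_eq_mul]
  constructor <;> ring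

private theorem WR_diff_div {f g : ℂ → ℂ} {x : ℂ} (hf : DifferentiableAt ℝ f x)
    (hg : DifferentiableAt ℝ g x) (h0 : g x ≠ 0) : DifferentiableAt ℝ (fun y => f y / g y) x := by
  have h1 : DifferentiableAt ℝ (fun y => (g y)⁻¹) x := hg.fun_inv h0
  have h2 := hf.fun_mul h1
  simp only [div_eq_mul_inv]
  exact h2

theorem dz_div {f g : ℂ → ℂ} {x : ℂ} (hf : DifferentiableAt ℝ f x) (hg : DifferentiableAt ℝ g x)
    (h0 : g x ≠ 0) : dz (fun y => f y / g y) x = (dz f x * g x - f x * dz g x) / g x ^ 2 ∧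
      dzb (fun y => f y / g y) x = (dzb f x * g x - f x * dzb g x) / g x ^ 2 := by
  have hq := WR_diff_div hf hg h0
  obtain ⟨h1, h2⟩ := dz_mul hq hg
  have hev : (fun y => f y / g y * g y) =ᶠ[𝓝 x] f := by
    filter_upwards [hg.continuousAt.eventually_ne h0] with y hy
    rw [div_mul_cancel₀ _ hy]
  obtain ⟨h3, h4⟩ := dz_congr hev
  rw [h3] at h1
  rw [h4] at h2
  constructor
  · rw [h1]
    field_simp
    ring
  · rw [h2]
    field_simp
    ring

theorem dz_sum {ι : Type*} (s : Finset ι) {f : ι → ℂ → ℂ} {x : ℂ}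
    (hf : ∀ i ∈ s, DifferentiableAt ℝ (f i) x) :
    dz (fun y => ∑ i ∈ s, f i y) x = ∑ i ∈ s, dz (f i) x := by
  classical
  induction s using Finset.induction_on with
  | empty => simpa using (dz_const 0 x).1
  | insert a s ha ih =>
    simp only [Finset.sum_insert ha]
    have h1 : ∀ i ∈ s, DifferentiableAt ℝ (f i) x := fun i hi => hf i (Finset.mem_insert_of_mem hi)
    have h2 : DifferentiableAt ℝ (fun y => ∑ i ∈ s, f i y) x := DifferentiableAt.fun_sum h1
    rw [(dz_add (hf a (Finset.mem_insert_self a s)) h2).1, ih h1]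

private theorem WR_holo {g : ℂ → ℂ} {x g' : ℂ} (hg : HasDerivAt g g' x) :
    ∃ A : ℂ →L[ℝ] ℂ, HasFDerivAt g A x ∧ ∀ v, A v = v * g' := by
  refine ⟨_, hg.hasFDerivAt.restrictScalars ℝ, fun v => ?_⟩
  simp

theorem dz_holo {g : ℂ → ℂ} {x g' : ℂ} (hg : HasDerivAt g g' x) : dz g x = g' ∧ dzb g x = 0 := by
  obtain ⟨A, hA, hv⟩ := WR_holo hg
  obtain ⟨h1, h2⟩ := WR_of hA
  rw [h1, h2, hv, hv]
  constructor
  · linear_combination (-g' / 2) * Complex.I_mul_I
  · linear_combination (g' / 2) * Complex.I_mul_I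

theorem dz_conj {f : ℂ → ℂ} {x : ℂ} (hf : DifferentiableAt ℝ f x) :
    dz (fun y => (starRingEnd ℂ) (f y)) x = (starRingEnd ℂ) (dzb f x) ∧
      dzb (fun y => (starRingEnd ℂ) (f y)) x = (starRingEnd ℂ) (dz f x) := by
  have h : HasFDerivAt (fun y => (starRingEnd ℂ) (f y))
      ((Complex.conjCLE : ℂ →L[ℝ] ℂ).comp (fderiv ℝ f x)) x :=
    (Complex.conjCLE : ℂ →L[ℝ] ℂ).hasFDerivAt.comp x (WR_has hf)
  obtain ⟨h1, h2⟩ := WR_of h
  have h3 : ∀ v, ((Complex.conjCLE : ℂ →L[ℝ] ℂ).comp (fderiv ℝ f x)) v =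
      (starRingEnd ℂ) (fderiv ℝ f x v) := fun v => rfl
  rw [h1, h2, h3, h3, dz, dzb]
  simp only [map_div₀, map_add, map_sub, map_mul, Complex.conj_I, map_ofNat]
  constructor <;> ring

theorem dz_comp {f g : ℂ → ℂ} {x g' : ℂ} (hf : DifferentiableAt ℝ f (g x)) (hg : HasDerivAt g g' x) :
    dz (fun y => f (g y)) x = dz f (g x) * g' ∧
      dzb (fun y => f (g y)) x = dzb f (g x) * (starRingEnd ℂ) g' := by
  obtain ⟨A, hA, hv⟩ := WR_holo hg
  have h : HasFDerivAt (fun y => f (g y)) ((fderiv ℝ f (g x)).comp A) x :=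
    (WR_has hf).comp x hA
  obtain ⟨h1, h2⟩ := WR_of h
  have h3 : ∀ v, ((fderiv ℝ f (g x)).comp A) v = dz f (g x) * (v * g') +
      dzb f (g x) * (starRingEnd ℂ) (v * g') := by
    intro v
    rw [ContinuousLinearMap.comp_apply, wr_expand, hv]
  rw [h1, h2, h3, h3]
  simp only [map_mul, map_one, Complex.conj_I, one_mul]
  constructor
  · linear_combination (-(dz f (g x) * g') / 2 + (dzb f (g x) * (starRingEnd ℂ) g') / 2) *
      Complex.I_mul_I
  · linear_combination ((dz f (g x) * g') / 2 - (dzb f (g x) * (starRingEnd ℂ) g') / 2) *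
      Complex.I_mul_I

/-- a real function of a real function -/
theorem dz_real {c t : ℝ → ℝ} {s : ℂ → ℝ} {x : ℂ} (hc : DifferentiableAt ℝ c (s x))
    (hs : DifferentiableAt ℝ s x) :
    dz (fun y => ((c (s y) : ℝ) : ℂ)) x = (deriv c (s x) : ℝ) * dz (fun y => ((s y : ℝ) : ℂ)) x ∧
      dzb (fun y => ((c (s y) : ℝ) : ℂ)) x = (deriv c (s x) : ℝ) * dzb (fun y => ((s y : ℝ) : ℂ)) x := by
  have hs1 : HasFDerivAt s (fderiv ℝ s x) x := hs.hasFDerivAt
  have hc1 : HasFDerivAt (fun y => c (s y)) (deriv c (s x) • fderiv ℝ s x) x :=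
    hc.hasDerivAt.comp_hasFDerivAt x hs1
  have h1 : HasFDerivAt (fun y => ((s y : ℝ) : ℂ)) (Complex.ofRealCLM.comp (fderiv ℝ s x)) x :=
    Complex.ofRealCLM.hasFDerivAt.comp x hs1
  have h2 : HasFDerivAt (fun y => ((c (s y) : ℝ) : ℂ))
      (Complex.ofRealCLM.comp (deriv c (s x) • fderiv ℝ s x)) x :=
    Complex.ofRealCLM.hasFDerivAt.comp x hc1
  obtain ⟨h3, h4⟩ := WR_of h1
  obtain ⟨h5, h6⟩ := WR_of h2
  rw [h3, h4, h5, h6]
  have h7 : ∀ v, Complex.ofRealCLM.comp (fderiv ℝ s x) v = ((fderiv ℝ s x v : ℝ) : ℂ) :=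
    fun v => rfl
  have h8 : ∀ v, Complex.ofRealCLM.comp (deriv c (s x) • fderiv ℝ s x) v =
      ((deriv c (s x) : ℝ) : ℂ) * ((fderiv ℝ s x v : ℝ) : ℂ) := by
    intro v
    rw [← Complex.ofReal_mul]
    rfl
  rw [h7, h7, h8, h8]
  constructor <;> ring

theorem dz_im {g : ℂ → ℂ} {x g' : ℂ} (hg : HasDerivAt g g' x) :
    dz (fun y => (((g y).im : ℝ) : ℂ)) x = g' / (2 * Complex.I) ∧
      dzb (fun y => (((g y).im : ℝ) : ℂ)) x = (Complex.I / 2) * (starRingEnd ℂ) g' := by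
  obtain ⟨A, hA, hv⟩ := WR_holo hg
  have h : HasFDerivAt (fun y => (((g y).im : ℝ) : ℂ))
      (Complex.ofRealCLM.comp (Complex.imCLM.comp A)) x :=
    Complex.ofRealCLM.hasFDerivAt.comp x (Complex.imCLM.hasFDerivAt.comp x hA)
  obtain ⟨h1, h2⟩ := WR_of h
  have h3 : ∀ v, (Complex.ofRealCLM.comp (Complex.imCLM.comp A)) v = (((v * g').im : ℝ) : ℂ) := by
    intro v
    rw [← hv v]
    rfl
  rw [h1, h2, h3, h3]
  have hI := Complex.I_ne_zero
  constructor
  · rw [eq_div_iff (by simpa using hI)]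
    apply Complex.ext <;> simp <;> ring
  · apply Complex.ext <;> simp <;> ring

theorem dz_re {g : ℂ → ℂ} {x g' : ℂ} (hg : HasDerivAt g g' x) :
    dz (fun y => (((g y).re : ℝ) : ℂ)) x = g' / 2 ∧
      dzb (fun y => (((g y).re : ℝ) : ℂ)) x = (starRingEnd ℂ) g' / 2 := by
  obtain ⟨A, hA, hv⟩ := WR_holo hg
  have h : HasFDerivAt (fun y => (((g y).re : ℝ) : ℂ))
      (Complex.ofRealCLM.comp (Complex.reCLM.comp A)) x :=
    Complex.ofRealCLM.hasFDerivAt.comp x (Complex.reCLM.hasFDerivAt.comp x hA)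
  obtain ⟨h1, h2⟩ := WR_of h
  have h3 : ∀ v, (Complex.ofRealCLM.comp (Complex.reCLM.comp A)) v = (((v * g').re : ℝ) : ℂ) := by
    intro v
    rw [← hv v]
    rfl
  rw [h1, h2, h3, h3]
  constructor
  · apply Complex.ext <;> simp
  · apply Complex.ext <;> simp

theorem dz_smooth {f : ℂ → ℂ} {U : Set ℂ} (hU : IsOpen U) {n : ℕ} (hf : ContDiffOn ℝ (n + 1) f U) :
    ContDiffOn ℝ n (dz f) U ∧ ContDiffOn ℝ n (dzb f) U := by
  have h1 : ContDiffOn ℝ n (fderiv ℝ f) U := hf.fderiv_of_isOpen hU le_rfl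
  have h2 : ∀ v : ℂ, ContDiffOn ℝ n (fun y => fderiv ℝ f y v) U := fun v =>
    h1.clm_apply contDiffOn_const
  constructor
  · exact ((h2 1).sub (contDiffOn_const.mul (h2 Complex.I))).div_const 2
  · exact ((h2 1).add (contDiffOn_const.mul (h2 Complex.I))).div_const 2

theorem dz_dzb {f : ℂ → ℂ} {x : ℂ} (hf : ContDiffAt ℝ 2 f x) : dz (dzb f) x = dzb (dz f) x := by
  have h1 : ContDiffAt ℝ 1 (fderiv ℝ f) x := hf.fderiv_right (by norm_num)
  have h2 : HasFDerivAt (fderiv ℝ f) (fderiv ℝ (fderiv ℝ f) x) x :=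
    (h1.differentiableAt (by norm_num)).hasFDerivAt
  have h3 : ∀ v : ℂ, HasFDerivAt (fun y => fderiv ℝ f y v)
      ((fderiv ℝ (fderiv ℝ f) x).flip v) x := by
    intro v
    exact (h2.clm_apply (hasFDerivAt_const v x)).congr_fderiv (by ext w <;> simp)
  have hsym : fderiv ℝ (fderiv ℝ f) x 1 Complex.I = fderiv ℝ (fderiv ℝ f) x Complex.I 1 :=
    (hf.isSymmSndFDerivAt (by simp)) 1 Complex.I
  have hb : DifferentiableAt ℝ (fun y => Complex.I * fderiv ℝ f y Complex.I) x :=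
    (differentiableAt_const _).fun_mul (h3 Complex.I).differentiableAt
  have key : ∀ (ε : ℂ), HasFDerivAt (fun y => (fderiv ℝ f y 1 + ε * fderiv ℝ f y Complex.I) / 2)
      ((1 / 2 : ℝ) • ((fderiv ℝ (fderiv ℝ f) x).flip 1 +
        ε • (fderiv ℝ (fderiv ℝ f) x).flip Complex.I)) x := by
    intro ε
    have h4 := ((h3 1).fun_add ((h3 Complex.I).const_mul ε)).const_smul (1 / 2 : ℝ)
    refine (h4.congr_of_eventuallyEq (Eventually.of_forall fun y => ?_)).congr_fderiv ?_
    · simp only [Pi.smul_apply, Complex.real_smul]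
      push_cast
      ring
    · rfl
  have k1 := key Complex.I
  have k2 := key (-Complex.I)
  have e1 : (fun y => (fderiv ℝ f y 1 + Complex.I * fderiv ℝ f y Complex.I) / 2) = dzb f := rfl
  have e2 : (fun y => (fderiv ℝ f y 1 + (-Complex.I) * fderiv ℝ f y Complex.I) / 2) = dz f := by
    funext y
    rw [dz]
    ring
  rw [e1] at k1
  rw [e2] at k2
  rw [(WR_of k1).1, (WR_of k2).2]
  simp only [smul_apply, add_apply, ContinuousLinearMap.flip_apply, Complex.real_smul,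
    smul_eq_mul, hsym]
  push_cast
  ring

/-- `log |·|`-free form: the derivative of `‖y‖ ^ 2` -/
theorem dz_normSq (x : ℂ) : dz (fun y => ((‖y‖ ^ 2 : ℝ) : ℂ)) x = (starRingEnd ℂ) x ∧
    dzb (fun y => ((‖y‖ ^ 2 : ℝ) : ℂ)) x = x := by
  have h1 : (fun y : ℂ => ((‖y‖ ^ 2 : ℝ) : ℂ)) = fun y => y * (starRingEnd ℂ) y := by
    funext y
    rw [Complex.mul_conj, Complex.normSq_eq_norm_sq]
  have hid : DifferentiableAt ℝ (fun y : ℂ => y) x := differentiableAt_id
  have hcj : DifferentiableAt ℝ (fun y : ℂ => (starRingEnd ℂ) y) x :=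
    (Complex.conjCLE : ℂ →L[ℝ] ℂ).differentiableAt
  obtain ⟨h2, h3⟩ := dz_mul hid hcj
  obtain ⟨h4, h5⟩ := dz_holo (hasDerivAt_id x)
  obtain ⟨h6, h7⟩ := dz_conj hid
  have h4' : dz (fun y : ℂ => y) x = 1 := h4
  have h5' : dzb (fun y : ℂ => y) x = 0 := h5
  rw [h1, h2, h3, h6, h7, h4', h5']
  simp

end TN

end S_H60_PH_WR

section S_H60_PH_IP

/-!
IP (integration by parts).  `contDiff_of_supp`: `f` is smooth on the open disc and vanishes on the open set `{r < ‖x‖}`; the two open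
sets cover the plane.  `ibp`: let `β` be a smooth bump function (`ContDiffBump` at `0` with radii `r' = (1+r)/2`, `r'' = (1+r')/2`), and
`h' = β h` (zero off the disc, `C¹` on the plane by `contDiff_of_supp`), equal to `h` on `ball 0 r'`, so `dz h' = dz h` there; outside of
`closedBall 0 r` both integrands vanish (`f = 0`, `dz f = 0`).  `integral_mul_fderiv_eq_neg_fderiv_mul_of_integrable` in the
directions `1` and `I` (all functions are continuous with compact support) gives `∫ f * dz h' = - ∫ dz f * h'` over the plane.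
-/

namespace TN
open Metric Set Filter Topology MeasureTheory

theorem contDiff_of_supp {E : Type*} [NormedAddCommGroup E] [NormedSpace ℝ E] {f : ℂ → E} {n : ℕ}
    (hf : ContDiffOn ℝ n f (ball 0 1)) {r : ℝ} (hr : r < 1) (hs : ∀ x, r < ‖x‖ → f x = 0) :
    ContDiff ℝ n f := by
  rw [contDiff_iff_contDiffAt]
  intro x
  by_cases hx : ‖x‖ < 1
  · exact hf.contDiffAt (isOpen_ball.mem_nhds (mem_ball_zero_iff.2 hx))
  · have h1 : f =ᶠ[𝓝 x] fun _ => 0 := by
      have h2 : {y : ℂ | r < ‖y‖} ∈ 𝓝 x :=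
        (isOpen_lt continuous_const continuous_norm).mem_nhds (by
          show r < ‖x‖
          linarith [not_lt.1 hx])
      filter_upwards [h2] with y hy
      exact hs y hy
    exact contDiffAt_const.congr_of_eventuallyEq h1

theorem IP_integrable_supp {E : Type*} [NormedAddCommGroup E] {f : ℂ → E}
    (hf : ContinuousOn f (ball 0 1)) {r : ℝ} (hr : r < 1) (hs : ∀ x, r < ‖x‖ → f x = 0) :
    IntegrableOn f (ball 0 1) := by
  have h1 : IntegrableOn f (closedBall 0 r) :=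
    (hf.mono (closedBall_subset_ball hr)).integrableOn_compact (isCompact_closedBall _ _)
  refine h1.of_forall_sdiff_eq_zero measurableSet_ball fun x hx => hs x ?_
  have h2 := hx.2
  rw [mem_closedBall_zero_iff, not_le] at h2
  exact h2

theorem IP_integrable {E : Type*} [NormedAddCommGroup E] {f : ℂ → E}
    (hf : ContinuousOn f (ball 0 1)) {r : ℝ} (hr : r < 1) (hs : ∀ x, r < ‖x‖ → f x = 0) :
    Integrable f := by
  refine (integrableOn_iff_integrable_of_support_subset ?_).1 (IP_integrable_supp hf hr hs)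
  intro x hx
  by_contra h
  rw [mem_ball_zero_iff, not_lt] at h
  exact hx (hs x (by linarith))

theorem IP_fderiv {f : ℂ → ℂ} {r : ℝ} (hs : ∀ x, r < ‖x‖ → f x = 0) {x : ℂ} (hx : r < ‖x‖) :
    fderiv ℝ f x = 0 := by
  have h1 : f =ᶠ[𝓝 x] fun _ => 0 := by
    have h2 : {y : ℂ | r < ‖y‖} ∈ 𝓝 x :=
      (isOpen_lt continuous_const continuous_norm).mem_nhds hx
    filter_upwards [h2] with y hy
    exact hs y hy
  rw [h1.fderiv_eq]
  simp

theorem ibp {f h : ℂ → ℂ} {r : ℝ} (hr : r < 1) (hf : ContDiffOn ℝ 1 f (ball 0 1))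
    (hs : ∀ x, r < ‖x‖ → f x = 0) (hh : ContDiffOn ℝ 1 h (ball 0 1)) :
    ∫ x in ball (0:ℂ) 1, f x * dz h x = - ∫ x in ball (0:ℂ) 1, dz f x * h x := by
  have hF : ContDiff ℝ 1 f := contDiff_of_supp (n := 1) hf hr hs
  have hfd : ∀ v : ℂ, ContinuousOn (fun x => fderiv ℝ f x v) (ball 0 1) := fun v =>
    (hf.continuousOn_fderiv_of_isOpen isOpen_ball le_rfl).clm_apply continuousOn_const
  have hhd : ∀ v : ℂ, ContinuousOn (fun x => fderiv ℝ h x v) (ball 0 1) := fun v =>
    (hh.continuousOn_fderiv_of_isOpen isOpen_ball le_rfl).clm_apply continuousOn_const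
  have i1 : ∀ v : ℂ, Integrable (fun x => fderiv ℝ f x v * h x) := fun v =>
    IP_integrable ((hfd v).mul hh.continuousOn) hr fun x hx => by
      simp only [IP_fderiv hs hx, ContinuousLinearMap.zero_apply, zero_mul]
  have i2 : ∀ v : ℂ, Integrable (fun x => f x * fderiv ℝ h x v) := fun v =>
    IP_integrable (hf.continuousOn.mul (hhd v)) hr fun x hx => by
      simp only [hs x hx, zero_mul]
  have i3 : Integrable (fun x => f x * h x) :=
    IP_integrable (hf.continuousOn.mul hh.continuousOn) hr fun x hx => by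
      simp only [hs x hx, zero_mul]
  have hts : ∀ x ∈ tsupport f, x ∈ ball (0:ℂ) 1 := by
    intro x hx
    have h1 : tsupport f ⊆ closedBall (0:ℂ) r := by
      refine closure_minimal ?_ isClosed_closedBall
      intro y hy
      rw [mem_closedBall_zero_iff]
      by_contra hn
      exact hy (hs y (not_le.1 hn))
    exact closedBall_subset_ball hr (h1 hx)
  have key : ∀ v : ℂ, ∫ x, f x * fderiv ℝ h x v = - ∫ x, fderiv ℝ f x v * h x := by
    intro v
    refine integral_mul_fderiv_eq_neg_fderiv_mul_of_integrable (i1 v) (i2 v) i3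
      (fun x _ => (hF.differentiable one_ne_zero) x) fun x hx => ?_
    exact (hh.differentiableOn one_ne_zero).differentiableAt (isOpen_ball.mem_nhds (hts x hx))
  have e1 : ∫ x in ball (0:ℂ) 1, f x * dz h x = ∫ x, f x * dz h x := by
    refine setIntegral_eq_integral_of_forall_compl_eq_zero fun x hx => ?_
    rw [mem_ball_zero_iff, not_lt] at hx
    rw [hs x (by linarith), zero_mul]
  have e2 : ∫ x in ball (0:ℂ) 1, dz f x * h x = ∫ x, dz f x * h x := by
    refine setIntegral_eq_integral_of_forall_compl_eq_zero fun x hx => ?_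
    rw [mem_ball_zero_iff, not_lt] at hx
    unfold dz
    rw [IP_fderiv hs (by linarith : r < ‖x‖)]
    simp
  have e3 : ∀ x, f x * dz h x =
      (f x * fderiv ℝ h x 1 - Complex.I * (f x * fderiv ℝ h x Complex.I)) / 2 := by
    intro x
    unfold dz
    ring
  have e4 : ∀ x, dz f x * h x =
      (fderiv ℝ f x 1 * h x - Complex.I * (fderiv ℝ f x Complex.I * h x)) / 2 := by
    intro x
    unfold dz
    ring
  rw [e1, e2]
  simp only [e3, e4]
  rw [integral_div, integral_div, integral_sub (i2 1) ((i2 _).const_mul _),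
    integral_sub (i1 1) ((i1 _).const_mul _), integral_const_mul, integral_const_mul, key, key]
  ring

/-- continuous functions on the disc with support in a smaller disc are integrable -/
theorem integrable_supp {E : Type*} [NormedAddCommGroup E] {f : ℂ → E}
    (hf : ContinuousOn f (ball 0 1)) {r : ℝ} (hr : r < 1) (hs : ∀ x, r < ‖x‖ → f x = 0) :
    IntegrableOn f (ball 0 1) := IP_integrable_supp hf hr hs

end TN

end S_H60_PH_IP

section S_H60_PH_PA

/-!
PA (product functions in the strip coordinate).  The set `omi p q '' {ω | |re ω| ≤ R, a ≤ im ω ≤ c}` is a compact subset of the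
open disc (`omi_cont`, `omi_ball`), so contained in `closedBall 0 r`, `r < 1`; if `‖x‖ < 1` and `psiI x ≠ 0` then `om x` is in the
rectangle and `x = omi (om x)` (`omi_om`).  Smooth on the disc: `om p q` is holomorphic there (`om_hasDerivAt`), so `ContDiffOn ℝ`;
compose with `re`, `im`, `τ`, `ρ`.  `contDiff_of_supp`.
-/

namespace TN
open Metric Set Filter Topology MeasureTheory

theorem om_smooth {p q : ℂ} (hp : ‖p‖ = 1) (hq : ‖q‖ = 1) (hpq : p ≠ q) {n : ℕ} :
    ContDiffOn ℝ n (om p q) (ball 0 1) := by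
  have h1 : DifferentiableOn ℂ (om p q) (ball 0 1) := fun x hx =>
    (om_hasDerivAt hp hq hpq (mem_ball_zero_iff.1 hx)).differentiableAt.differentiableWithinAt
  exact (h1.contDiffOn isOpen_ball).restrict_scalars ℝ

theorem PA_ne {p x : ℂ} (hp : ‖p‖ = 1) (hx : x ∈ ball (0:ℂ) 1) : x ≠ p := by
  rintro rfl
  rw [mem_ball_zero_iff] at hx
  linarith

theorem omD_smooth {p q : ℂ} (hp : ‖p‖ = 1) (hq : ‖q‖ = 1) (hpq : p ≠ q) {n : ℕ} :
    ContDiffOn ℝ n (omD p q) (ball 0 1) ∧ ContDiffOn ℝ n (Xf p q) (ball 0 1) ∧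
      ∀ x ∈ ball (0:ℂ) 1, omD p q x ≠ 0 ∧ Xf p q x ≠ 0 ∧ Xf p q x * omD p q x = 1 := by
  have hpq' : p - q ≠ 0 := sub_ne_zero.2 hpq
  refine ⟨?_, ?_, ?_⟩
  · have h1 : DifferentiableOn ℂ (omD p q) (ball 0 1) := by
      intro x hx
      have h2 : x - q ≠ 0 := sub_ne_zero.2 (PA_ne hq hx)
      have h3 : p - x ≠ 0 := sub_ne_zero.2 (PA_ne hp hx).symm
      unfold omD
      apply DifferentiableAt.differentiableWithinAt
      apply DifferentiableAt.div
      · fun_prop
      · fun_prop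
      · exact mul_ne_zero h2 h3
    exact (h1.contDiffOn isOpen_ball).restrict_scalars ℝ
  · have h1 : DifferentiableOn ℂ (Xf p q) (ball 0 1) := by
      intro x _
      unfold Xf
      apply DifferentiableAt.differentiableWithinAt
      fun_prop
    exact (h1.contDiffOn isOpen_ball).restrict_scalars ℝ
  · intro x hx
    have h2 : x - q ≠ 0 := sub_ne_zero.2 (PA_ne hq hx)
    have h3 : p - x ≠ 0 := sub_ne_zero.2 (PA_ne hp hx).symm
    have h4 := mul_ne_zero h2 h3
    refine ⟨div_ne_zero hpq' h4, div_ne_zero h4 hpq', ?_⟩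
    unfold Xf omD
    field_simp

theorem psiI_smooth {p q : ℂ} (hp : ‖p‖ = 1) (hq : ‖q‖ = 1) (hpq : p ≠ q) {τ ρ : ℝ → ℝ}
    (hτ : ContDiff ℝ 2 τ) (hρ : ContDiff ℝ 2 ρ) {R a c : ℝ} (ha : 0 < a) (hc : c < Real.pi)
    (hR : ∀ t, R ≤ |t| → τ t = 0) (hρ0 : ∀ t, t ≤ a ∨ c ≤ t → ρ t = 0) :
    ContDiff ℝ 2 (psiI p q τ ρ) ∧ ∃ r : ℝ, r < 1 ∧ ∀ x, r < ‖x‖ → psiI p q τ ρ x = 0 := by
  set K : Set ℂ := Icc (-R) R ×ℂ Icc a c with hK
  have hKc : IsCompact K := isCompact_Icc.reProdIm isCompact_Icc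
  have hKS : K ⊆ Str := by
    intro ω hω
    have h1 : ω.im ∈ Icc a c := hω.2
    exact ⟨(ha.trans_le h1.1).le, (h1.2.trans_lt hc).le⟩
  have himg : IsCompact (omi p q '' K) := hKc.image_of_continuousOn ((omi_cont hp hq hpq).mono hKS)
  have hsub : omi p q '' K ⊆ ball (0:ℂ) 1 := by
    rintro _ ⟨ω, hω, rfl⟩
    have h1 : ω.im ∈ Icc a c := hω.2
    rw [mem_ball_zero_iff]
    exact omi_ball hp hq hpq (ha.trans_le h1.1) (h1.2.trans_lt hc)
  obtain ⟨r, hr, hKr⟩ := exists_lt_subset_ball himg.isClosed hsub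
  have hzero : ∀ x, r < ‖x‖ → psiI p q τ ρ x = 0 := by
    intro x hx
    by_contra hne
    unfold psiI at hne
    split_ifs at hne with h1
    · have h2 : τ (om p q x).re ≠ 0 := left_ne_zero_of_mul hne
      have h3 : ρ (om p q x).im ≠ 0 := right_ne_zero_of_mul hne
      have h4 : |(om p q x).re| < R := by
        by_contra h
        exact h2 (hR _ (not_lt.1 h))
      have h5 : a < (om p q x).im ∧ (om p q x).im < c := by
        constructor
        · by_contra h
          exact h3 (hρ0 _ (Or.inl (not_lt.1 h)))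
        · by_contra h
          exact h3 (hρ0 _ (Or.inr (not_lt.1 h)))
      have h6 : om p q x ∈ K := ⟨⟨(abs_lt.1 h4).1.le, (abs_lt.1 h4).2.le⟩, h5.1.le, h5.2.le⟩
      have h7 : x ∈ Dpq p q := CP_ball_Dpq hp hq (mem_ball_zero_iff.2 h1)
      have h8 : x ∈ omi p q '' K := ⟨_, h6, omi_om hp hq hpq h7⟩
      have h9 := mem_ball_zero_iff.1 (hKr h8)
      linarith
    · exact hne rfl
  refine ⟨?_, r, hr, hzero⟩
  refine contDiff_of_supp (n := 2) ?_ hr hzero
  have h1 : ContDiffOn ℝ 2 (fun x => τ (om p q x).re * ρ (om p q x).im) (ball 0 1) := by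
    have h2 : ContDiffOn ℝ 2 (om p q) (ball 0 1) := om_smooth (n := 2) hp hq hpq
    have h3 : ContDiffOn ℝ 2 (fun x => (om p q x).re) (ball 0 1) :=
      Complex.reCLM.contDiff.comp_contDiffOn h2
    have h4 : ContDiffOn ℝ 2 (fun x => (om p q x).im) (ball 0 1) :=
      Complex.imCLM.contDiff.comp_contDiffOn h2
    exact (hτ.comp_contDiffOn h3).mul (hρ.comp_contDiffOn h4)
  refine h1.congr fun x hx => ?_
  unfold psiI
  rw [if_pos (mem_ball_zero_iff.1 hx)]

end TN

end S_H60_PH_PA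

section S_H60_PH_PB

/-!
PB (the sum over the group of a product function in the strip coordinate).  Let `f = psiI (p i) (q i) τ ρ`.
If all heights at `x` (for the gap `i`) are `≥ π/2 > c` then every term `f (act g x) = τ (..) * ρ (F.ht .. g x)` vanishes.
Let `F.ht (p i) (q i) g x < π/2`.  If a term `f (act h x)` is not zero then `F.ht (p i) (q i) h x < c < π/2`, so `h = κ_i ^ z * g` for some
`z : ℤ` by `ht_disj`.  The map `z ↦ κ_i ^ z * g` is injective (`pow_inj` with `AR.ne_one`), and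
`f (act (κ_i ^ z * g) x) = τ (re (om (act g x)) + z l) * ρ (F.ht (p i) (q i) g x)` (`om_act_zpow`, `act_mul`).  So the sum is
`(∑ᶠ z, τ (.. + z l)) * ρ (F.ht .. g x) = ρ (F.ht .. g x)`.
-/

namespace TN
open Metric Set Filter Topology DS MeasureTheory

variable {Γ : Type} [Group Γ]

theorem S_psiI (F : Fuchs Γ) {n : ℕ} {κ : Fin n → Γ} {p q : Fin n → ℂ} (G : Gaps F n κ p q) (i : Fin n)
    {l : ℝ} (hl : ∀ x ∈ ball (0:ℂ) 1, om (p i) (q i) (F.act (κ i) x) = om (p i) (q i) x + l)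
    {τ ρ : ℝ → ℝ} (hτ : Tau l τ) {c : ℝ} (hc : c < Real.pi / 2) (hρ : ∀ t, c ≤ t → ρ t = 0) {x : ℂ}
    (hx : ‖x‖ < 1) :
    (∀ g, F.ht (p i) (q i) g x < Real.pi / 2 →
      F.S (psiI (p i) (q i) τ ρ) x = ρ (F.ht (p i) (q i) g x)) ∧
    ((∀ g, Real.pi / 2 ≤ F.ht (p i) (q i) g x) → F.S (psiI (p i) (q i) τ ρ) x = 0) := by
  have hκ := G.ar i
  have hval : ∀ g, psiI (p i) (q i) τ ρ (F.act g x)
      = τ (om (p i) (q i) (F.act g x)).re * ρ (F.ht (p i) (q i) g x) := by
    intro g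
    unfold psiI
    rw [if_pos (act_lt F g hx)]
    rfl
  refine ⟨fun g hg => ?_, fun h => ?_⟩
  · obtain ⟨-, hz⟩ := om_act_zpow hκ hl
    have hinj : Function.Injective (fun z : ℤ => κ i ^ z * g) := by
      intro a b hab
      exact pow_inj F (AR.ne_one hκ) (mul_right_cancel hab)
    have hsup : ∀ h, h ∉ Set.range (fun z : ℤ => κ i ^ z * g) →
        psiI (p i) (q i) τ ρ (F.act h x) = 0 := by
      intro h hh
      rw [hval]
      by_cases hc' : c ≤ F.ht (p i) (q i) h x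
      · rw [hρ _ hc', mul_zero]
      · exfalso
        apply hh
        have h2 : F.ht (p i) (q i) h x < Real.pi / 2 := by linarith [not_le.1 hc']
        obtain ⟨-, h3⟩ := ht_disj F G hx hg h2
        obtain ⟨z, h4⟩ := Subgroup.mem_zpowers_iff.1 h3
        exact ⟨z, by simp only [h4, inv_mul_cancel_right]⟩
    have hterm : ∀ z : ℤ, psiI (p i) (q i) τ ρ (F.act (κ i ^ z * g) x)
        = τ ((om (p i) (q i) (F.act g x)).re + z * l) * ρ (F.ht (p i) (q i) g x) := by
      intro z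
      rw [hval, ht_kappa F G i (Subgroup.zpow_mem_zpowers (κ i) z) g hx, act_mul F _ _ hx.le,
        (hz z _ (CP_ball_Dpq hκ.np hκ.nq (by simpa using act_lt F g hx))).2]
      congr 2
      simp
    unfold Fuchs.S
    rw [← finsum_mem_univ, finsum_mem_inter_support_eq _ _ (Set.range (fun z : ℤ => κ i ^ z * g)),
      finsum_mem_range hinj, finsum_congr hterm, ← finsum_mul, hτ.sum, one_mul]
    ext h
    simp only [mem_inter_iff, mem_univ, true_and, Function.mem_support]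
    constructor
    · intro h1
      refine ⟨?_, h1⟩
      by_contra h2
      exact h1 (hsup h h2)
    · exact fun h1 => h1.2
  · unfold Fuchs.S
    rw [finsum_congr (g := fun _ => (0:ℝ)), finsum_zero]
    intro g
    rw [hval, hρ _ (hc.le.trans (h g)), mul_zero]

end TN

end S_H60_PH_PB

section S_H60_PH_RG

/-!
RG (a regularisation of `- 1/(2 conj z)`).  `T = s²`; `r t = (2 - t/T)/T` for `t < T`, `r t = 1/t` for `t ≥ T`.  `r` is `C¹` on the real line: the derivatives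
`-1/T²` and `-1/t²` agree at `T` (`contDiff_one_iff_deriv`, `HasDerivAt` at `T` from the left and the right).
`R z = - z * r (‖z‖²) / 2`.  `dz R z = - (r t + t r' t)/2` with `t = ‖z‖²` (`dz_mul`, `dz_normSq`), and `r + t r' = (t r)' = 2 (1 - t/T)/T ≥ 0` for `t < T`, `0` for
`t ≥ T`.  For `‖z‖ ≥ s`: `R z = - z/(2 ‖z‖²) = -1/(2 conj z)`.
-/

namespace TN
open Metric Set Filter Topology

/-- the profile -/
noncomputable def RG_r (T t : ℝ) : ℝ := if t < T then (2 - t / T) / T else 1 / t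

/-- its derivative -/
noncomputable def RG_d (T t : ℝ) : ℝ := if t < T then -1 / T ^ 2 else -1 / t ^ 2

theorem RG_hasDerivAt {T : ℝ} (hT : 0 < T) (t : ℝ) : HasDerivAt (RG_r T) (RG_d T t) t := by
  have hl : ∀ t : ℝ, HasDerivAt (fun t : ℝ => (2 - t / T) / T) (-1 / T ^ 2) t := by
    intro t
    have h1 : HasDerivAt (fun t : ℝ => (2 - t / T) / T) ((0 - 1 / T) / T) t :=
      (((hasDerivAt_const t (2:ℝ)).sub ((hasDerivAt_id t).div_const T)).div_const T)
    convert h1 using 1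
    field_simp
    ring
  have hr : ∀ t : ℝ, 0 < t → HasDerivAt (fun t : ℝ => 1 / t) (-1 / t ^ 2) t := by
    intro t ht
    have h1 := hasDerivAt_inv ht.ne'
    have h2 : (fun t : ℝ => 1 / t) = fun t => t⁻¹ := by funext t; rw [one_div]
    rw [h2]
    have h3 : -1 / t ^ 2 = -(t ^ 2)⁻¹ := by rw [neg_div, one_div]
    rw [h3]
    exact h1
  rcases lt_trichotomy t T with h | h | h
  · have e : RG_d T t = -1 / T ^ 2 := if_pos h
    rw [e]
    refine (hl t).congr_of_eventuallyEq ?_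
    filter_upwards [gt_mem_nhds h] with s hs
    exact if_pos hs
  · subst h
    have e : RG_d t t = -1 / t ^ 2 := if_neg (lt_irrefl t)
    rw [e]
    have h1 : HasDerivWithinAt (RG_r t) (-1 / t ^ 2) (Iic t) t := by
      refine (hl t).hasDerivWithinAt.congr_of_mem ?_ self_mem_Iic
      intro s hs
      rcases (mem_Iic.1 hs).lt_or_eq with h | h
      · exact if_pos h
      · subst h
        show RG_r s s = (2 - s / s) / s
        unfold RG_r
        rw [if_neg (lt_irrefl s), div_self hT.ne']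
        ring
    have h2 : HasDerivWithinAt (RG_r t) (-1 / t ^ 2) (Ici t) t := by
      refine (hr t hT).hasDerivWithinAt.congr_of_mem ?_ self_mem_Ici
      intro s hs
      exact if_neg (not_lt.2 hs)
    have h3 := h1.union h2
    rw [Iic_union_Ici] at h3
    exact h3.hasDerivAt univ_mem
  · have e : RG_d T t = -1 / t ^ 2 := if_neg (not_lt.2 h.le)
    rw [e]
    refine (hr t (hT.trans h)).congr_of_eventuallyEq ?_
    filter_upwards [lt_mem_nhds h] with s hs
    exact if_neg (not_lt.2 (le_of_lt hs))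

theorem PHRG_cont {T : ℝ} (hT : 0 < T) : Continuous (RG_d T) := by
  have e : RG_d T = fun t => -1 / (max t T) ^ 2 := by
    funext t
    unfold RG_d
    split_ifs with h
    · rw [max_eq_right h.le]
    · rw [max_eq_left (not_lt.1 h)]
  rw [e]
  refine continuous_const.div (by fun_prop) ?_
  intro t
  have : 0 < max t T := lt_max_of_lt_right hT
  positivity

theorem RG_smooth {T : ℝ} (hT : 0 < T) : ContDiff ℝ 1 (RG_r T) := by
  rw [contDiff_one_iff_deriv]
  refine ⟨fun t => (RG_hasDerivAt hT t).differentiableAt, ?_⟩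
  have : deriv (RG_r T) = RG_d T := funext fun t => (RG_hasDerivAt hT t).deriv
  rw [this]
  exact PHRG_cont hT

theorem exists_reg {s : ℝ} (hs : 0 < s) : ∃ R : ℂ → ℂ, ContDiff ℝ 1 R ∧
    (∀ z, s ≤ ‖z‖ → R z = -1 / (2 * (starRingEnd ℂ) z)) ∧ ∀ z, (dz R z).re ≤ 0 := by
  have hT : 0 < s ^ 2 := by positivity
  have hq : ContDiff ℝ 1 (fun z : ℂ => ‖z‖ ^ 2) := contDiff_norm_sq ℝ
  have hrc : ContDiff ℝ 1 (fun z : ℂ => ((RG_r (s ^ 2) (‖z‖ ^ 2) : ℝ) : ℂ)) :=
    Complex.ofRealCLM.contDiff.comp ((RG_smooth hT).comp hq)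
  have hlin : ContDiff ℝ 1 (fun z : ℂ => (-1 / 2 : ℂ) * z) := contDiff_const.mul contDiff_id
  refine ⟨fun z => (-1 / 2 : ℂ) * z * ((RG_r (s ^ 2) (‖z‖ ^ 2) : ℝ) : ℂ), hlin.mul hrc, ?_, ?_⟩
  · intro z hz
    have h1 : s ^ 2 ≤ ‖z‖ ^ 2 := by gcongr
    have h2 : RG_r (s ^ 2) (‖z‖ ^ 2) = 1 / ‖z‖ ^ 2 := if_neg (not_lt.2 h1)
    have hz0 : z ≠ 0 := by
      rintro rfl
      rw [norm_zero] at hz
      linarith
    have hc0 : (starRingEnd ℂ) z ≠ 0 := (map_ne_zero _).2 hz0
    have h3 : ((‖z‖ ^ 2 : ℝ) : ℂ) = z * (starRingEnd ℂ) z := by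
      rw [Complex.mul_conj, Complex.normSq_eq_norm_sq]
    show (-1 / 2 : ℂ) * z * ((RG_r (s ^ 2) (‖z‖ ^ 2) : ℝ) : ℂ) = _
    rw [h2, Complex.ofReal_div, h3, Complex.ofReal_one]
    field_simp
  · intro z
    have hd1 : DifferentiableAt ℝ (fun z : ℂ => (-1 / 2 : ℂ) * z) z := hlin.differentiable (by norm_num) z
    have hd2 : DifferentiableAt ℝ (fun z : ℂ => ((RG_r (s ^ 2) (‖z‖ ^ 2) : ℝ) : ℂ)) z :=
      hrc.differentiable (by norm_num) z
    have e1 := (dz_mul hd1 hd2).1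
    have e2 : dz (fun z : ℂ => (-1 / 2 : ℂ) * z) z = -1 / 2 := by
      have h : HasDerivAt (fun z : ℂ => (-1 / 2 : ℂ) * z) ((-1 / 2 : ℂ) * 1) z :=
        (hasDerivAt_id z).const_mul (-1 / 2 : ℂ)
      rw [(dz_holo h).1, mul_one]
    have e3 := (dz_real (t := fun _ => 0) (s := fun y : ℂ => ‖y‖ ^ 2) (x := z)
      (RG_hasDerivAt hT (‖z‖ ^ 2)).differentiableAt (hq.differentiable (by norm_num) z)).1
    rw [(RG_hasDerivAt hT (‖z‖ ^ 2)).deriv, (dz_normSq z).1] at e3
    rw [e1, e2, e3]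
    have h3 : z * (starRingEnd ℂ) z = ((‖z‖ ^ 2 : ℝ) : ℂ) := by
      rw [Complex.mul_conj, Complex.normSq_eq_norm_sq]
    have h4 : (-1 / 2 : ℂ) * ((RG_r (s ^ 2) (‖z‖ ^ 2) : ℝ) : ℂ) +
        (-1 / 2 : ℂ) * z * (((RG_d (s ^ 2) (‖z‖ ^ 2) : ℝ) : ℂ) * (starRingEnd ℂ) z) =
        ((-1 / 2 * (RG_r (s ^ 2) (‖z‖ ^ 2) + ‖z‖ ^ 2 * RG_d (s ^ 2) (‖z‖ ^ 2)) : ℝ) : ℂ) := by
      push_cast
      have h3' : z * (starRingEnd ℂ) z = (‖z‖ : ℂ) ^ 2 := by rw [h3]; push_cast; ring
      linear_combination (-1 / 2 : ℂ) * ((RG_d (s ^ 2) (‖z‖ ^ 2) : ℝ) : ℂ) * h3'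
    rw [h4, Complex.ofReal_re]
    have h5 : 0 ≤ RG_r (s ^ 2) (‖z‖ ^ 2) + ‖z‖ ^ 2 * RG_d (s ^ 2) (‖z‖ ^ 2) := by
      unfold RG_r RG_d
      split_ifs with h
      · have : (2 - ‖z‖ ^ 2 / s ^ 2) / s ^ 2 + ‖z‖ ^ 2 * (-1 / (s ^ 2) ^ 2) =
            2 * (s ^ 2 - ‖z‖ ^ 2) / (s ^ 2) ^ 2 := by
          field_simp
          ring
        rw [this]
        have : 0 ≤ s ^ 2 - ‖z‖ ^ 2 := by linarith
        positivity
      · have hpos : 0 < ‖z‖ ^ 2 := lt_of_lt_of_le hT (not_lt.1 h)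
        have : 1 / ‖z‖ ^ 2 + ‖z‖ ^ 2 * (-1 / (‖z‖ ^ 2) ^ 2) = 0 := by
          field_simp
          ring
        rw [this]
    linarith

end TN

end S_H60_PH_RG

section S_H60_PH_ST

/-!
ST (functions of one real variable).
`exists_step`: `c t = Real.smoothTransition ((t - a) / (b - a))`.
`exists_tau`: let `c` be a step function between `0` and `l`, `τ t = c (t + l) - c t`.  For `t ≤ 0` it is `c (t + l) ≥ 0`, for `t ≥ 0`
it is `1 - c t ≥ 0`; it vanishes for `|t| ≥ l`; the sum over the integers telescopes: for `t` given only finitely many terms are nonzero,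
and `∑_{|n| ≤ N} τ (t + n l) = c (t + (N+1) l) - c (t - N l) = 1` for large `N`.  The integral is
`∫_{-l}^0 c (t + l) + ∫_0^l (1 - c t) = l`.
`cot_ibp`: `c` vanishes on `[0, a]`; on `[a, b']` `(- cos/sin)' = 1/sin²`; integrate by parts; `c a = 0`, `c b' = 1`; `deriv c = 0` off `[a, b]`.
-/

namespace TN
open Metric Set Filter Topology MeasureTheory

theorem exists_step {a b : ℝ} (hab : a < b) : ∃ c : ℝ → ℝ, Step a b c := by
  have h0 : 0 < b - a := by linarith
  refine ⟨fun t => Real.smoothTransition ((t - a) / (b - a)), ?_, fun t => Real.smoothTransition.nonneg _,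
    fun t => Real.smoothTransition.le_one _, fun t ht => ?_, fun t ht => ?_⟩
  · exact (Real.smoothTransition.contDiff (n := 2)).comp
      ((contDiff_id.sub contDiff_const).div_const _)
  · exact Real.smoothTransition.zero_of_nonpos (div_nonpos_of_nonpos_of_nonneg (by linarith) h0.le)
  · exact Real.smoothTransition.one_of_one_le ((one_le_div h0).2 (by linarith))

theorem exists_tau {l : ℝ} (hl : 0 < l) : ∃ τ : ℝ → ℝ, Tau l τ := by
  obtain ⟨c, hc⟩ := exists_step hl
  have hsupp : ∀ t, l ≤ |t| → c (t + l) - c t = 0 := by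
    intro t ht
    rcases le_abs.1 ht with h | h
    · rw [hc.one t h, hc.one (t + l) (by linarith), sub_self]
    · rw [hc.zero t (by linarith), hc.zero (t + l) (by linarith), sub_self]
  refine ⟨fun t => c (t + l) - c t, ?_, fun t => ?_, hsupp, fun t => ?_, ?_⟩
  · exact (hc.smooth.comp (contDiff_id.add contDiff_const)).sub hc.smooth
  · rcases le_total t 0 with h | h
    · rw [hc.zero t h, sub_zero]
      exact hc.nonneg _
    · rw [hc.one (t + l) (by linarith)]
      linarith [hc.le_one t]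
  · obtain ⟨N, hN⟩ := exists_nat_gt ((l + |t|) / l)
    rw [div_lt_iff₀ hl] at hN
    have hinj : Function.Injective (fun j : ℕ => (j : ℤ) - N) := by
      intro i j h
      simp only at h
      omega
    have hs : Function.support (fun n : ℤ => c (t + n * l + l) - c (t + n * l)) ⊆
        ((Finset.range (2 * N)).map ⟨_, hinj⟩ : Finset ℤ) := by
      intro n hn
      rw [Function.mem_support] at hn
      have h1 : |t + n * l| < l := by
        by_contra h
        exact hn (hsupp _ (not_lt.1 h))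
      rw [abs_lt] at h1
      have h2 := neg_abs_le t
      have h3 := le_abs_self t
      have h4 : (n : ℝ) * l < N * l := by linarith
      have h5 : (-(N:ℝ)) * l < n * l := by linarith
      have h6 : (n : ℝ) < N := lt_of_mul_lt_mul_right h4 hl.le
      have h7 : (-(N:ℝ)) < n := lt_of_mul_lt_mul_right h5 hl.le
      have h8 : n < N := by exact_mod_cast h6
      have h9 : -(N : ℤ) < n := by exact_mod_cast h7
      rw [Finset.mem_coe, Finset.mem_map]
      refine ⟨(n + N).toNat, ?_, ?_⟩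
      · rw [Finset.mem_range]
        omega
      · change (((n + N).toNat : ℕ) : ℤ) - N = n
        omega
    rw [finsum_eq_sum_of_support_subset _ hs, Finset.sum_map]
    have h1 : ∀ j ∈ Finset.range (2 * N), c (t + (((⟨fun j : ℕ => (j : ℤ) - N, hinj⟩ :
        ℕ ↪ ℤ) j : ℤ) : ℝ) * l + l) - c (t + (((⟨fun j : ℕ => (j : ℤ) - N, hinj⟩ :
        ℕ ↪ ℤ) j : ℤ) : ℝ) * l) =
        (fun j : ℕ => c (t + ((j : ℝ) - N) * l)) (j + 1) -
          (fun j : ℕ => c (t + ((j : ℝ) - N) * l)) j := by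
      intro j _
      simp only [Function.Embedding.coeFn_mk]
      push_cast
      congr 2
      ring
    rw [Finset.sum_congr rfl h1]
    refine (Finset.sum_range_sub (fun j : ℕ => c (t + ((j : ℝ) - N) * l)) (2 * N)).trans ?_
    rw [hc.one, hc.zero, sub_zero]
    · push_cast
      have h3 := le_abs_self t
      have : t + (0 - (N:ℝ)) * l = t - N * l := by ring
      rw [this]
      linarith
    · push_cast
      have h2 := neg_abs_le t
      have : t + (2 * (N:ℝ) - N) * l = t + N * l := by ring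
      rw [this]
      linarith
  · have hs : Function.support (fun t => c (t + l) - c t) ⊆ Ioc (-l) l := by
      intro t ht
      have h1 : |t| < l := by
        by_contra h
        exact ht (hsupp _ (not_lt.1 h))
      rw [abs_lt] at h1
      exact ⟨h1.1, h1.2.le⟩
    rw [← intervalIntegral.integral_eq_integral_of_support_subset hs]
    have hcc := hc.smooth.continuous
    have hint : ∀ x y : ℝ, IntervalIntegrable c volume x y := fun x y =>
      hcc.intervalIntegrable x y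
    have hint2 : IntervalIntegrable (fun x => c (x + l)) volume (-l) l :=
      (hcc.comp (continuous_id.add continuous_const)).intervalIntegrable _ _
    rw [intervalIntegral.integral_sub hint2 (hint _ _),
      intervalIntegral.integral_comp_add_right, neg_add_cancel,
      ← intervalIntegral.integral_add_adjacent_intervals (hint 0 l) (hint l (l + l)),
      ← intervalIntegral.integral_add_adjacent_intervals (hint (-l) 0) (hint 0 l)]
    have e1 : ∫ x in l..(l + l), c x = l := by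
      have : ∫ x in l..(l + l), c x = ∫ x in l..(l + l), (1 : ℝ) := by
        refine intervalIntegral.integral_congr fun x hx => ?_
        rw [uIcc_of_le (by linarith)] at hx
        exact hc.one x hx.1
      rw [this, intervalIntegral.integral_const]
      simp
    have e2 : ∫ x in (-l)..0, c x = 0 := by
      have : ∫ x in (-l)..0, c x = ∫ x in (-l)..0, (0 : ℝ) := by
        refine intervalIntegral.integral_congr fun x hx => ?_
        rw [uIcc_of_le (by linarith)] at hx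
        exact hc.zero x hx.2
      rw [this, intervalIntegral.integral_zero]
    rw [e1, e2]
    ring

theorem step_deriv {a b : ℝ} {c : ℝ → ℝ} (hc : Step a b c) {t : ℝ} (ht : t ≤ a ∨ b ≤ t) : deriv c t = 0 := by
  rcases ht with h | h
  · refine IsLocalMin.deriv_eq_zero (Filter.Eventually.of_forall fun x => ?_)
    rw [hc.zero t h]
    exact hc.nonneg x
  · refine IsLocalMax.deriv_eq_zero (Filter.Eventually.of_forall fun x => ?_)
    rw [hc.one t h]
    exact hc.le_one x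

theorem ST_cont {a b : ℝ} {c : ℝ → ℝ} (hc : Step a b c) : Continuous (deriv c) :=
  hc.smooth.continuous_deriv (by norm_num)

theorem step_int {a b : ℝ} {c : ℝ → ℝ} (hc : Step a b c) (ha : 0 ≤ a) (hb : b ≤ Real.pi) :
    ∫ t in (0:ℝ)..Real.pi, deriv c t = 1 := by
  rw [intervalIntegral.integral_deriv_eq_sub (fun t _ => (hc.smooth.differentiable (by norm_num)) t)
    ((ST_cont hc).intervalIntegrable _ _), hc.one _ hb, hc.zero _ ha, sub_zero]

theorem cot_ibp {a b b' : ℝ} {c : ℝ → ℝ} (hc : Step a b c) (ha : 0 < a) (hab : a < b) (hb : b ≤ b')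
    (hb' : b' < Real.pi) :
    ∫ t in (0:ℝ)..b', c t / Real.sin t ^ 2 =
      (∫ t in (0:ℝ)..Real.pi, deriv c t * (Real.cos t / Real.sin t)) - Real.cos b' / Real.sin b' := by
  have hsin : ∀ t ∈ uIcc a b', Real.sin t ≠ 0 := by
    intro t ht
    rw [uIcc_of_le (by linarith)] at ht
    exact (Real.sin_pos_of_pos_of_lt_pi (by linarith [ht.1]) (by linarith [ht.2])).ne'
  have hc1 : ContinuousOn (fun t => c t / Real.sin t ^ 2) (uIcc a b') :=
    hc.smooth.continuous.continuousOn.div (Real.continuous_sin.pow 2).continuousOn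
      fun t ht => pow_ne_zero 2 (hsin t ht)
  have hc2 : ContinuousOn (fun t => deriv c t * (Real.cos t / Real.sin t)) (uIcc a b') :=
    (ST_cont hc).continuousOn.mul (Real.continuous_cos.continuousOn.div
      Real.continuous_sin.continuousOn hsin)
  have hz1 : ∀ t ∈ uIcc 0 a, c t / Real.sin t ^ 2 = 0 := by
    intro t ht
    rw [uIcc_of_le ha.le] at ht
    rw [hc.zero t ht.2, zero_div]
  have hz2 : ∀ t ∈ uIcc 0 a, deriv c t * (Real.cos t / Real.sin t) = 0 := by
    intro t ht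
    rw [uIcc_of_le ha.le] at ht
    rw [step_deriv hc (Or.inl ht.2), zero_mul]
  have hz3 : ∀ t ∈ uIcc b' Real.pi, deriv c t * (Real.cos t / Real.sin t) = 0 := by
    intro t ht
    rw [uIcc_of_le hb'.le] at ht
    rw [step_deriv hc (Or.inr (hb.trans ht.1)), zero_mul]
  have i1 : IntervalIntegrable (fun t => c t / Real.sin t ^ 2) volume a b' := hc1.intervalIntegrable
  have i2 : IntervalIntegrable (fun t => deriv c t * (Real.cos t / Real.sin t)) volume a b' :=
    hc2.intervalIntegrable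
  have i3 : IntervalIntegrable (fun t => c t / Real.sin t ^ 2) volume 0 a :=
    (continuousOn_const.congr hz1).intervalIntegrable
  have i4 : IntervalIntegrable (fun t => deriv c t * (Real.cos t / Real.sin t)) volume 0 a :=
    (continuousOn_const.congr hz2).intervalIntegrable
  have i5 : IntervalIntegrable (fun t => deriv c t * (Real.cos t / Real.sin t)) volume b' Real.pi :=
    (continuousOn_const.congr hz3).intervalIntegrable
  have e1 : ∫ t in (0:ℝ)..a, c t / Real.sin t ^ 2 = 0 := by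
    rw [intervalIntegral.integral_congr hz1, intervalIntegral.integral_zero]
  have e2 : ∫ t in (0:ℝ)..a, deriv c t * (Real.cos t / Real.sin t) = 0 := by
    rw [intervalIntegral.integral_congr hz2, intervalIntegral.integral_zero]
  have e3 : ∫ t in b'..Real.pi, deriv c t * (Real.cos t / Real.sin t) = 0 := by
    rw [intervalIntegral.integral_congr hz3, intervalIntegral.integral_zero]
  rw [← intervalIntegral.integral_add_adjacent_intervals i3 i1, e1, zero_add,
    ← intervalIntegral.integral_add_adjacent_intervals (i4.trans i2) i5, e3, add_zero,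
    ← intervalIntegral.integral_add_adjacent_intervals i4 i2, e2, zero_add]
  have hG : ∫ t in a..b', (c t / Real.sin t ^ 2 - deriv c t * (Real.cos t / Real.sin t)) =
      (fun t => -(c t * (Real.cos t / Real.sin t))) b' -
        (fun t => -(c t * (Real.cos t / Real.sin t))) a := by
    refine intervalIntegral.integral_eq_sub_of_hasDerivAt
      (f := fun t => -(c t * (Real.cos t / Real.sin t))) (fun t ht => ?_) (i1.sub i2)
    have hs := hsin t ht
    have d1 : HasDerivAt c (deriv c t) t :=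
      ((hc.smooth.differentiable (by norm_num)) t).hasDerivAt
    have d2 := (Real.hasDerivAt_cos t).div (Real.hasDerivAt_sin t) hs
    refine (d1.mul d2).neg.congr_deriv ?_
    have h1 := Real.sin_sq_add_cos_sq t
    have h2 : -Real.sin t * Real.sin t - Real.cos t * Real.cos t = -1 := by linarith
    simp only [Pi.div_apply]
    rw [h2]
    field_simp
    ring
  rw [intervalIntegral.integral_sub i1 i2] at hG
  simp only at hG
  rw [hc.zero a le_rfl, hc.one b' hb] at hG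
  linarith

end TN

end S_H60_PH_ST

section S_H60_PH_VF

/-!
VF (the vector field `vf H x = (H x - x)(1 - ‖x‖²)/(1 - conj x * H x)` of a map commuting with the group).
For `x` in the disc `‖conj x * H x‖ < 1`, the denominator has positive real part.  `vf_equi`: `H (act g x) = act g (H x)`;
`mob_sub`: `act g (H x) - act g x = u (1 - ‖b‖²)(H x - x)/((1 - conj b H x)(1 - conj b x))`;
`1 - conj (act g x) * act g (H x) = (1 - ‖b‖²)(1 - conj x H x)/(conj (1 - conj b x)(1 - conj b H x))` (`‖u‖ = 1`, direct expansion), `act_norm`,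
`dact g x = u (1 - ‖b‖²)/(1 - conj b x)²`.
`vf_log`: `vf H x / (x - k i) = ((H x - x)/(x - k i)) * (1 - ‖x‖²) / (1 - conj x * H x)`; the first factor has a logarithm on the frontier
(`Holes.log`), the second is positive real, the third has positive real part (`Complex.log`, slit plane); the frontier is in the disc
(`Holes.sub`, `frontier ⊆ closure`).
-/

namespace TN
open Metric Set Filter Topology DS MeasureTheory

variable {Γ : Type} [Group Γ]

theorem vf_den {H : ℂ → ℂ} {x : ℂ} (hx : ‖x‖ < 1) (hH : ‖H x‖ < 1) :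
    0 < (1 - (starRingEnd ℂ) x * H x).re := den_re hx hH.le

theorem VF_map {F : Fuchs Γ} {e : Elt Γ} (he : Norm F e) {x : ℂ} (hx : x ∈ ball (0:ℂ) 1) :
    ‖e.H x‖ < 1 := mem_ball_zero_iff.1 (he.mapB hx)

theorem VF_den {F : Fuchs Γ} {e : Elt Γ} (he : Norm F e) {x : ℂ} (hx : x ∈ ball (0:ℂ) 1) :
    1 - (starRingEnd ℂ) x * e.H x ≠ 0 := den_ne (mem_ball_zero_iff.1 hx) (VF_map he hx).le

theorem vf_cont {F : Fuchs Γ} {e : Elt Γ} (he : Norm F e) : ContinuousOn (vf e.H) (ball 0 1) := by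
  have h1 : ContinuousOn e.H (ball 0 1) := he.cont.mono ball_subset_closedBall
  have h2 : ContinuousOn (fun x : ℂ => (starRingEnd ℂ) x) (ball 0 1) :=
    Complex.continuous_conj.continuousOn
  unfold vf
  refine ContinuousOn.div (ContinuousOn.mul (h1.sub continuousOn_id) ?_)
    (continuousOn_const.sub (h2.mul h1)) fun x hx => VF_den he hx
  exact (Complex.continuous_ofReal.comp (continuous_const.sub (continuous_norm.pow 2))).continuousOn

theorem VF_sq (z : ℂ) : ((1 - ‖z‖ ^ 2 : ℝ) : ℂ) = 1 - (starRingEnd ℂ) z * z := by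
  rw [Complex.conj_mul']
  push_cast
  rfl

theorem VF_alg {u U b B x X y : ℂ} (hU : U * u = 1) (hB : 1 - B * b ≠ 0) (h1 : 1 - B * x ≠ 0)
    (h1' : 1 - b * X ≠ 0) (h2 : 1 - B * y ≠ 0) (h3 : 1 - X * y ≠ 0) :
    (u * (y - b) / (1 - B * y) - u * (x - b) / (1 - B * x)) *
      (1 - U * (X - B) / (1 - b * X) * (u * (x - b) / (1 - B * x))) /
      (1 - U * (X - B) / (1 - b * X) * (u * (y - b) / (1 - B * y))) =
    u * (1 - B * b) / (1 - B * x) ^ 2 * ((y - x) * (1 - X * x) / (1 - X * y)) := by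
  have e1 : u * (y - b) / (1 - B * y) - u * (x - b) / (1 - B * x) =
      u * (1 - B * b) * (y - x) / ((1 - B * x) * (1 - B * y)) := by
    rw [div_sub_div _ _ h2 h1, div_eq_div_iff (mul_ne_zero h2 h1) (mul_ne_zero h1 h2)]
    ring
  have e2 : ∀ w : ℂ, 1 - B * w ≠ 0 → 1 - U * (X - B) / (1 - b * X) * (u * (w - b) / (1 - B * w)) =
      (1 - B * b) * (1 - X * w) / ((1 - b * X) * (1 - B * w)) := by
    intro w hw
    have e3 : U * (X - B) / (1 - b * X) * (u * (w - b) / (1 - B * w)) =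
        (U * u) * ((X - B) * (w - b)) / ((1 - b * X) * (1 - B * w)) := by
      rw [div_mul_div_comm]
      ring
    rw [e3, hU, eq_div_iff (mul_ne_zero h1' hw), sub_mul, div_mul_cancel₀ _ (mul_ne_zero h1' hw)]
    ring
  rw [e1, e2 x h1, e2 y h2]
  generalize 1 - B * b = D at *
  generalize 1 - B * x = D1 at *
  generalize 1 - b * X = D2 at *
  generalize 1 - B * y = D3 at *
  generalize 1 - X * y = D4 at *
  field_simp

theorem vf_equi (F : Fuchs Γ) {e : Elt Γ} (he : Norm F e) (hc : ∀ g, e.θ g = g) : F.Equi (vf e.H) := by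
  intro g x hx
  have hx1 : ‖x‖ < 1 := mem_ball_zero_iff.1 hx
  have hy1 := VF_map he hx
  have e0 : e.H (F.act g x) = F.act g (e.H x) := by
    rw [he.equi g x (ball_subset_closedBall hx), hc]
  have hU : (starRingEnd ℂ) (F.u g) * F.u g = 1 := MB_uu (F.hu g)
  have hb := F.hb g
  have c1 : (starRingEnd ℂ) (F.act g x) = (starRingEnd ℂ) (F.u g) *
      ((starRingEnd ℂ) x - (starRingEnd ℂ) (F.b g)) / (1 - F.b g * (starRingEnd ℂ) x) := by
    rw [Fuchs.act, mob]
    simp only [map_div₀, map_mul, map_sub, map_one, Complex.conj_conj]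
  have n1 : 1 - (starRingEnd ℂ) (F.b g) * F.b g ≠ 0 := den_ne hb hb.le
  have n2 : 1 - (starRingEnd ℂ) (F.b g) * x ≠ 0 := den_ne hb hx1.le
  have n3 : 1 - (starRingEnd ℂ) (F.b g) * e.H x ≠ 0 := den_ne hb hy1.le
  have n4 : 1 - F.b g * (starRingEnd ℂ) x ≠ 0 := by
    rw [mul_comm]
    exact den_ne hx1 hb.le
  have n5 : 1 - (starRingEnd ℂ) x * e.H x ≠ 0 := VF_den he hx
  have key := VF_alg hU n1 n2 n4 n3 n5
  unfold vf
  rw [e0, VF_sq, VF_sq, c1, Fuchs.dact, mobD, ← key]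
  rfl

theorem vf_zero {F : Fuchs Γ} {e : Elt Γ} (he : Norm F e) {x : ℂ} (hx : x ∈ ball (0:ℂ) 1) :
    vf e.H x = 0 ↔ e.H x = x := by
  have hx1 : ‖x‖ < 1 := mem_ball_zero_iff.1 hx
  have h1 : ((1 - ‖x‖ ^ 2 : ℝ) : ℂ) ≠ 0 := by
    rw [Complex.ofReal_ne_zero]
    have : ‖x‖ ^ 2 < 1 := by
      have := norm_nonneg x
      nlinarith
    linarith
  unfold vf
  rw [div_eq_zero_iff, mul_eq_zero, sub_eq_zero]
  constructor
  · rintro ((h | h) | h)
    · exact h
    · exact absurd h h1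
    · exact absurd h (VF_den he hx)
  · intro h
    exact Or.inl (Or.inl h)

theorem vf_log (F : Fuchs Γ) {e : Elt Γ} (he : Norm F e) {m : ℕ} {O : Fin m → Set ℂ} {k : Fin m → ℂ}
    (ho : Holes F e.H ⊤ m O k) (i : Fin m) : HasLog (fun x => vf e.H x / (x - k i)) (frontier (O i)) := by
  have hfr : frontier (O i) ⊆ ball 0 1 := frontier_subset_closure.trans (ho.sub i)
  have hH : ContinuousOn e.H (frontier (O i)) := he.cont.mono (hfr.trans ball_subset_closedBall)
  have h1 : HasLog (fun x : ℂ => ((1 - ‖x‖ ^ 2 : ℝ) : ℂ)) (frontier (O i)) := by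
    refine CP_log_slit ?_ fun x hx => Or.inl ?_
    · exact (Complex.continuous_ofReal.comp
        (continuous_const.sub (continuous_norm.pow 2))).continuousOn
    · have hx1 : ‖x‖ < 1 := mem_ball_zero_iff.1 (hfr hx)
      rw [Complex.ofReal_re]
      have := norm_nonneg x
      nlinarith
  have h2 : HasLog (fun x : ℂ => 1 - (starRingEnd ℂ) x * e.H x) (frontier (O i)) := by
    refine CP_log_slit ?_ fun x hx => Or.inl ?_
    · exact continuousOn_const.sub ((Complex.continuous_conj.continuousOn).mul hH)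
    · exact vf_den (mem_ball_zero_iff.1 (hfr hx)) (VF_map he (hfr hx))
  obtain ⟨L, h3, h4⟩ := CP_log_mul (ho.log i) (CP_log_div h1 h2)
  refine ⟨L, h3, fun x hx => ?_⟩
  rw [← h4 x hx]
  unfold vf
  ring

end TN

end S_H60_PH_VF

section S_H60_PH_VC

/-!
VC (the vector field near a gap).  Let `ω = om p q x`, `y = im ω ∈ (0, π)`, `δ = om p q (H x) - ω`, so `im δ ∈ (-y, π - y)`.
`vf_strip`: with `A = eta p q (H x) = exp (ω + δ)`, `B = eta p q x = exp ω`: `vf H x * omD p q x = (A - B)(B - conj B)/(B (A - conj B))`: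
by `eta_sub` `A - B = I c (p - q)(H x - x)/((p - H x)(p - x))`, `B = I c (x - q)/(p - x)`, and (direct computation, `c = 1 - p conj q`)
`B - conj B = 2 i im B`, `eta_im`; `A - conj B = I c (p - q)(…)`: `conj B = conj(I c (x-q)/(p-x))`.  Multiply out (numerically checked).
Then insert the exponentials: `(e^δ - 1)(e^{2iy} - 1)/(e^{δ+2iy} - 1) = 2 i sin y sinh(δ/2) / sinh(δ/2 + iy)`.
`sinh_re`: `sinh z / z = ∫_0^1 cosh (t z) dt`, `re cosh (t (a + i b)) = cosh (t a) cos (t b) > 0` for `|b| < π/2` (see `expq` in CP).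
`sinh_shift`: `sinh (z + i y)/i` has real part `sin (im z + y) cosh (re z)`.
`collar_log`: `M ω = L ω + log (sinh(δ/2)/(δ/2)) + log (sin y) - log (sinh(δ/2 + iy)/i)`, `δ = exp (L ω)`, `y = im ω`; all arguments of `Complex.log` have positive
real part, so `M` is continuous; `exp (M ω) = δ * (sinh(δ/2)/(δ/2)) * sin y / (sinh(δ/2+iy)/i) = vf * omD`, and `Xf * omD = 1`; `x = omi (om x)` (`omi_om`);
`im δ = im (om (H x)) - y` is in `(-y, π - y)` by `om_im_pos` (`x = omi ω`, `H x` in the disc).  Periodicity: `exp (L (ω + l)) = exp (L ω)`.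
-/

namespace TN
open Metric Set Filter Topology DS MeasureTheory

variable {Γ : Type} [Group Γ]

private theorem VC_cosh_re (z : ℂ) : (Complex.cosh z).re = Real.cosh z.re * Real.cos z.im := by
  conv_lhs => rw [← Complex.re_add_im z]
  rw [Complex.cosh_add, Complex.sinh_mul_I, Complex.cosh_mul_I, ← Complex.ofReal_sinh,
    ← Complex.ofReal_cosh, ← Complex.ofReal_sin, ← Complex.ofReal_cos]
  simp only [Complex.add_re, Complex.mul_re, Complex.mul_im, Complex.ofReal_re, Complex.ofReal_im,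
    Complex.I_re, Complex.I_im]
  ring

theorem sinh_re {z : ℂ} (h0 : z ≠ 0) (hz : |z.im| < Real.pi / 2) : 0 < (Complex.sinh z / z).re := by
  have hder : ∀ t ∈ Icc (0:ℝ) 1, HasDerivAt (fun t : ℝ => (Complex.sinh ((t:ℂ) * z) / z).re)
      ((Complex.cosh ((t:ℂ) * z)).re) t := by
    intro t _
    have h1 : HasDerivAt (fun t : ℝ => (t:ℂ) * z) z t := by
      have := ((Complex.ofRealCLM.hasDerivAt (x := t)).mul_const z)
      simpa using this
    have h2 := ((Complex.hasDerivAt_sinh ((t:ℂ) * z)).comp t h1).div_const z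
    have h3 : Complex.cosh ((t:ℂ) * z) * z / z = Complex.cosh ((t:ℂ) * z) := by field_simp
    rw [h3] at h2
    exact (Complex.reCLM.hasFDerivAt.comp_hasDerivAt t h2)
  obtain ⟨t, ht, h4⟩ := CP_mvt hder
  have h5 : 0 < (Complex.cosh ((t:ℂ) * z)).re := by
    have h6 : ((t:ℂ) * z).im = t * z.im := by simp
    rw [VC_cosh_re, h6]
    apply mul_pos (Real.cosh_pos _)
    apply Real.cos_pos_of_mem_Ioo
    have h7 : |t * z.im| < Real.pi / 2 := by
      rw [abs_mul, abs_of_pos ht.1]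
      calc t * |z.im| ≤ 1 * |z.im| := mul_le_mul_of_nonneg_right ht.2.le (abs_nonneg _)
        _ < Real.pi / 2 := by rw [one_mul]; exact hz
    rw [abs_lt] at h7
    exact ⟨h7.1, h7.2⟩
  rw [h4] at h5
  simp only [Complex.ofReal_one, one_mul, Complex.ofReal_zero, zero_mul, Complex.sinh_zero,
    zero_div, Complex.zero_re, sub_zero] at h5
  exact h5

theorem sinh_shift {z : ℂ} {y : ℝ} (h0 : 0 < z.im + y) (h1 : z.im + y < Real.pi) :
    0 < (Complex.sinh (z + Complex.I * y) / Complex.I).re := by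
  have e1 : z + Complex.I * y = (z.re : ℂ) + ((z.im + y : ℝ) : ℂ) * Complex.I := by
    apply Complex.ext <;> simp
  rw [e1, Complex.sinh_add, Complex.sinh_mul_I, Complex.cosh_mul_I, ← Complex.ofReal_sinh,
    ← Complex.ofReal_cosh, ← Complex.ofReal_sin, ← Complex.ofReal_cos, Complex.div_I]
  have h2 : 0 < Real.cosh z.re * Real.sin (z.im + y) :=
    mul_pos (Real.cosh_pos _) (Real.sin_pos_of_pos_of_lt_pi h0 h1)
  simp only [Complex.neg_re, Complex.mul_re, Complex.add_re, Complex.add_im, Complex.mul_im,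
    Complex.ofReal_re, Complex.ofReal_im, Complex.I_re, Complex.I_im]
  ring_nf
  ring_nf at h2
  exact h2

private theorem VC_conj {z : ℂ} (h : ‖z‖ = 1) : z * (starRingEnd ℂ) z = 1 := by
  rw [Complex.mul_conj, Complex.normSq_eq_norm_sq, h]; simp

private theorem VC_ne {z x : ℂ} (h : ‖z‖ = 1) (hx : ‖x‖ < 1) : z - x ≠ 0 := by
  refine sub_ne_zero.2 ?_
  rintro rfl
  linarith

private theorem VC_alg {p q : ℂ} (hp : ‖p‖ = 1) (hq : ‖q‖ = 1) (hpq : p ≠ q) {h x : ℂ}
    (hx : ‖x‖ < 1) (hH : ‖h‖ < 1) :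
    eta p q h - (starRingEnd ℂ) (eta p q x) =
      -(Complex.I * (p - q) ^ 2 * (starRingEnd ℂ) q * (1 - (starRingEnd ℂ) x * h)) /
        ((p - h) * (1 - p * (starRingEnd ℂ) x)) := by
  have hpP := VC_conj hp
  have hqQ := VC_conj hq
  have n1 := VC_ne hp hx
  have n2 := VC_ne hp hH
  have n3 : (starRingEnd ℂ) p - (starRingEnd ℂ) x ≠ 0 := by
    rw [← map_sub]
    exact (map_ne_zero _).2 n1
  have n4 : 1 - p * (starRingEnd ℂ) x ≠ 0 := by
    have : 1 - p * (starRingEnd ℂ) x = p * ((starRingEnd ℂ) p - (starRingEnd ℂ) x) := by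
      linear_combination -hpP
    rw [this]
    refine mul_ne_zero ?_ n3
    rintro rfl
    simp at hp
  have hC : (starRingEnd ℂ) (eta p q x) =
      Complex.I * (p - q) * ((starRingEnd ℂ) q - (starRingEnd ℂ) x) / (1 - p * (starRingEnd ℂ) x) := by
    unfold eta
    simp only [map_div₀, map_mul, map_sub, map_one, Complex.conj_I, Complex.conj_conj]
    rw [div_eq_div_iff n3 n4]
    linear_combination (Complex.I * ((starRingEnd ℂ) q - (starRingEnd ℂ) x) *
      (p * (starRingEnd ℂ) x * 0 + q * (starRingEnd ℂ) x - 1)) * hpP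
  rw [hC]
  unfold eta
  rw [div_sub_div _ _ n2 n4, div_left_inj' (mul_ne_zero n2 n4)]
  linear_combination (Complex.I * (2 * p * h * (starRingEnd ℂ) x - p ^ 2 * (starRingEnd ℂ) x - h -
    h * q * (starRingEnd ℂ) x + q)) * hqQ

theorem vf_strip {p q : ℂ} (hp : ‖p‖ = 1) (hq : ‖q‖ = 1) (hpq : p ≠ q) {H : ℂ → ℂ} {x : ℂ}
    (hx : ‖x‖ < 1) (hH : ‖H x‖ < 1) :
    vf H x * omD p q x = 2 * Complex.I * ((Real.sin (om p q x).im : ℝ) : ℂ) *
      Complex.sinh ((om p q (H x) - om p q x) / 2) /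
      Complex.sinh ((om p q (H x) - om p q x) / 2 + Complex.I * ((om p q x).im : ℂ)) := by
  have n0 : p - q ≠ 0 := sub_ne_zero.2 hpq
  have n1 := VC_ne hp hx
  have n2 := VC_ne hp hH
  have n3 : x - q ≠ 0 := by
    rw [← neg_sub]
    exact neg_ne_zero.2 (VC_ne hq hx)
  have n4 : 1 - p * (starRingEnd ℂ) x ≠ 0 := by
    have : 1 - p * (starRingEnd ℂ) x = p * ((starRingEnd ℂ) p - (starRingEnd ℂ) x) := by
      linear_combination -(VC_conj hp)
    rw [this]
    refine mul_ne_zero ?_ ?_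
    · rintro rfl
      simp at hp
    · rw [← map_sub]
      exact (map_ne_zero _).2 n1
  have n5 : 1 - (starRingEnd ℂ) x * H x ≠ 0 := by
    intro h
    have := vf_den hx hH
    rw [h] at this
    simp at this
  have nQ : (starRingEnd ℂ) q ≠ 0 := by
    intro h
    have := VC_conj hq
    rw [h] at this
    simp at this
  have nc : 1 - p * (starRingEnd ℂ) q ≠ 0 := by
    rw [← norm_ne_zero_iff, pq_norm hp hq]
    exact norm_ne_zero_iff.2 n0
  have hI := Complex.I_ne_zero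
  have xp : x ≠ p := (sub_ne_zero.1 n1).symm
  have xq : x ≠ q := sub_ne_zero.1 n3
  have Hp : H x ≠ p := (sub_ne_zero.1 n2).symm
  have Hq : H x ≠ q := (sub_ne_zero.1 (VC_ne hq hH)).symm
  have hAB := eta_sub (p := p) (q := q) Hp xp
  have hBC := VC_alg hp hq hpq (h := x) hx hx
  have hAC := VC_alg hp hq hpq (h := H x) hx hH
  have hB : eta p q x = Complex.I * (1 - p * (starRingEnd ℂ) q) * (x - q) / (p - x) := rfl
  have hxx : ((1 - ‖x‖ ^ 2 : ℝ) : ℂ) = 1 - (starRingEnd ℂ) x * x := by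
    rw [mul_comm, Complex.mul_conj, Complex.normSq_eq_norm_sq]
    push_cast
    ring
  have nB := eta_ne hp hq hpq xp xq
  have nAC : eta p q (H x) - (starRingEnd ℂ) (eta p q x) ≠ 0 := by
    rw [hAC]
    refine div_ne_zero (neg_ne_zero.2 ?_) (mul_ne_zero n2 n4)
    exact mul_ne_zero (mul_ne_zero (mul_ne_zero hI (pow_ne_zero 2 n0)) nQ) n5
  have key : vf H x * omD p q x =
      (eta p q (H x) - eta p q x) * (eta p q x - (starRingEnd ℂ) (eta p q x)) /
        (eta p q x * (eta p q (H x) - (starRingEnd ℂ) (eta p q x))) := by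
    have n4' : 1 - (starRingEnd ℂ) x * p ≠ 0 := by rwa [mul_comm]
    have n5' : 1 - H x * (starRingEnd ℂ) x ≠ 0 := by rwa [mul_comm]
    rw [hAB, hBC, hAC, hB, vf, omD, hxx]
    field_simp
  rw [key]
  set ω := om p q x with hω
  set δ := om p q (H x) - ω with hδ
  have eB : eta p q x = Complex.exp ω := (exp_om hp hq hpq xp xq).symm
  have eA : eta p q (H x) = Complex.exp ω * Complex.exp (δ / 2) ^ 2 := by
    rw [← exp_om hp hq hpq Hp Hq, ← Complex.exp_nat_mul, ← Complex.exp_add]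
    congr 1
    rw [hδ]
    push_cast
    ring
  have eC : (starRingEnd ℂ) (eta p q x) = Complex.exp ω / Complex.exp (Complex.I * (ω.im : ℂ)) ^ 2 := by
    rw [eB, ← Complex.exp_conj, ← Complex.exp_nat_mul, ← Complex.exp_sub]
    congr 1
    apply Complex.ext
    · simp
    · simp
      ring
  have eS : ((Real.sin ω.im : ℝ) : ℂ) = ((Complex.exp (Complex.I * (ω.im : ℂ)))⁻¹ -
      Complex.exp (Complex.I * (ω.im : ℂ))) * Complex.I / 2 := by
    rw [Complex.ofReal_sin, Complex.sin, neg_mul, Complex.exp_neg, mul_comm (ω.im : ℂ) Complex.I]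
  have e1 : Complex.sinh (δ / 2) = (Complex.exp (δ / 2) - (Complex.exp (δ / 2))⁻¹) / 2 := by
    rw [Complex.sinh, Complex.exp_neg]
  have e2 : Complex.sinh (δ / 2 + Complex.I * (ω.im : ℂ)) =
      (Complex.exp (δ / 2) * Complex.exp (Complex.I * (ω.im : ℂ)) -
        (Complex.exp (δ / 2) * Complex.exp (Complex.I * (ω.im : ℂ)))⁻¹) / 2 := by
    rw [Complex.sinh, Complex.exp_neg, Complex.exp_add]
  rw [eS, e1, e2]
  rw [eA, eC] at nAC
  rw [eA, eC, eB]
  have hne := Complex.exp_ne_zero ω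
  have hna := Complex.exp_ne_zero (δ / 2)
  have hnb := Complex.exp_ne_zero (Complex.I * (ω.im : ℂ))
  generalize Complex.exp (δ / 2) = a at nAC hna ⊢
  generalize Complex.exp (Complex.I * (ω.im : ℂ)) = b at nAC hnb ⊢
  generalize Complex.exp ω = E at nAC hne ⊢
  have nab : a ^ 2 * b ^ 2 - 1 ≠ 0 := by
    intro h
    apply nAC
    rw [sub_eq_zero, eq_div_iff (pow_ne_zero 2 hnb)]
    linear_combination E * h
  have f1 : E * a ^ 2 - E = E * (a ^ 2 - 1) := by ring
  have f2 : E - E / b ^ 2 = E * (b ^ 2 - 1) / b ^ 2 := by field_simp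
  have f3 : E * a ^ 2 - E / b ^ 2 = E * (a ^ 2 * b ^ 2 - 1) / b ^ 2 := by field_simp
  have f4 : (a - a⁻¹) / 2 = (a ^ 2 - 1) / (2 * a) := by field_simp
  have f5 : (a * b - (a * b)⁻¹) / 2 = (a ^ 2 * b ^ 2 - 1) / (2 * (a * b)) := by field_simp
  have f6 : (b⁻¹ - b) * Complex.I / 2 = - ((b ^ 2 - 1) * Complex.I) / (2 * b) := by
    field_simp
    ring
  rw [f1, f2, f3, f4, f5, f6]
  field_simp
  linear_combination ((1 - a ^ 2) * (1 - b ^ 2)) * Complex.I_sq

theorem collar_log (F : Fuchs Γ) {e : Elt Γ} (he : Norm F e) {κ : Γ} {p q : ℂ} (hκ : F.AR κ p q)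
    {l : ℝ} {y₁ : ℝ} (hy₁ : y₁ < Real.pi / 2) {L : ℂ → ℂ}
    (hLc : ContinuousOn L {ω : ℂ | 0 < ω.im ∧ ω.im ≤ y₁})
    (hL : ∀ ω : ℂ, 0 < ω.im → ω.im ≤ y₁ → om p q (e.H (omi p q ω)) - ω = Complex.exp (L ω)) {w : ℤ}
    (hLp : ∀ ω : ℂ, 0 < ω.im → ω.im ≤ y₁ → L (ω + l) = L ω + 2 * Real.pi * w * Complex.I) :
    ∃ M : ℂ → ℂ, ContinuousOn M {ω : ℂ | 0 < ω.im ∧ ω.im ≤ y₁} ∧
      (∀ ω : ℂ, 0 < ω.im → ω.im ≤ y₁ → M (ω + l) = M ω + 2 * Real.pi * w * Complex.I) ∧
      ∀ x ∈ ball (0:ℂ) 1, (om p q x).im ≤ y₁ → vf e.H x = Xf p q x * Complex.exp (M (om p q x)) := by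
  have hp := hκ.np
  have hq := hκ.nq
  have hpq := hκ.ne
  have hpi := Real.pi_pos
  -- the bound on the imaginary part of `exp (L ω)`
  have him : ∀ ω : ℂ, 0 < ω.im → ω.im ≤ y₁ → 0 < (Complex.exp (L ω)).im + ω.im ∧
      (Complex.exp (L ω)).im + ω.im < Real.pi := by
    intro ω h0 h1
    have hx : ‖omi p q ω‖ < 1 := omi_ball hp hq hpq h0 (by linarith)
    have hHx : ‖e.H (omi p q ω)‖ < 1 := by
      have := he.mapB (by simpa using hx : omi p q ω ∈ ball (0:ℂ) 1)
      simpa using this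
    have h2 := om_im_pos hp hq hpq hHx
    have h3 := hL ω h0 h1
    have h4 := congrArg Complex.im h3
    rw [Complex.sub_im] at h4
    constructor <;> linarith [h2.1, h2.2]
  have hexp : ContinuousOn (fun ω => Complex.exp (L ω)) {ω : ℂ | 0 < ω.im ∧ ω.im ≤ y₁} := hLc.cexp
  have hG1 : ∀ ω : ℂ, 0 < ω.im → ω.im ≤ y₁ →
      0 < (Complex.sinh (Complex.exp (L ω) / 2) / (Complex.exp (L ω) / 2)).re := by
    intro ω h0 h1
    refine sinh_re (div_ne_zero (Complex.exp_ne_zero _) two_ne_zero) ?_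
    have h2 := him ω h0 h1
    have h3 : (Complex.exp (L ω) / 2).im = (Complex.exp (L ω)).im / 2 := by
      rw [Complex.div_ofNat_im]
    rw [h3, abs_lt]
    constructor <;> linarith [h2.1, h2.2]
  have hG2 : ∀ ω : ℂ, 0 < ω.im → ω.im ≤ y₁ →
      0 < (Complex.sinh (Complex.exp (L ω) / 2 + Complex.I * (ω.im : ℂ)) / Complex.I).re := by
    intro ω h0 h1
    have h2 := him ω h0 h1
    have h3 : (Complex.exp (L ω) / 2).im = (Complex.exp (L ω)).im / 2 := by
      rw [Complex.div_ofNat_im]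
    refine sinh_shift ?_ ?_ <;> rw [h3] <;> linarith [h2.1, h2.2]
  have hG3 : ∀ ω : ℂ, 0 < ω.im → ω.im ≤ y₁ → 0 < Real.sin ω.im := fun ω h0 h1 =>
    Real.sin_pos_of_pos_of_lt_pi h0 (by linarith)
  have hcim : Continuous (fun ω : ℂ => ω.im) := Complex.continuous_im
  refine ⟨fun ω => L ω + Complex.log (Complex.sinh (Complex.exp (L ω) / 2) / (Complex.exp (L ω) / 2)) +
    Complex.log ((Real.sin ω.im : ℝ) : ℂ) -
    Complex.log (Complex.sinh (Complex.exp (L ω) / 2 + Complex.I * (ω.im : ℂ)) / Complex.I),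
    ?_, ?_, ?_⟩
  · refine ((hLc.add ?_).add ?_).sub ?_
    · refine ContinuousOn.clog ?_ fun ω hω => Or.inl (hG1 ω hω.1 hω.2)
      refine ContinuousOn.div ?_ (hexp.div_const 2) fun ω _ => div_ne_zero (Complex.exp_ne_zero _) two_ne_zero
      exact Complex.continuous_sinh.comp_continuousOn (hexp.div_const 2)
    · refine ContinuousOn.clog ?_ fun ω hω => Or.inl ?_
      · exact (Complex.continuous_ofReal.comp (Real.continuous_sin.comp hcim)).continuousOn
      · rw [Complex.ofReal_re]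
        exact hG3 ω hω.1 hω.2
    · refine ContinuousOn.clog ?_ fun ω hω => Or.inl (hG2 ω hω.1 hω.2)
      refine ContinuousOn.div_const ?_ _
      refine Complex.continuous_sinh.comp_continuousOn ((hexp.div_const 2).add ?_)
      exact (continuous_const.mul (Complex.continuous_ofReal.comp hcim)).continuousOn
  · intro ω h0 h1
    have e1 : Complex.exp (L (ω + l)) = Complex.exp (L ω) := by
      rw [hLp ω h0 h1, Complex.exp_add]
      have : (2 : ℂ) * Real.pi * w * Complex.I = w * (2 * Real.pi * Complex.I) := by ring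
      rw [this, Complex.exp_int_mul_two_pi_mul_I, mul_one]
    have e2 : (ω + l).im = ω.im := by simp
    simp only [e1, e2]
    rw [hLp ω h0 h1]
    ring
  · intro x hx hy
    have hx1 : ‖x‖ < 1 := by simpa using hx
    have hHx : ‖e.H x‖ < 1 := by
      have := he.mapB hx
      simpa using this
    have hyy := om_im_pos hp hq hpq hx1
    have h1 := hL (om p q x) hyy.1 hy
    rw [omi_om hp hq hpq (CP_ball_Dpq hp hq hx)] at h1
    have h2 := vf_strip hp hq hpq hx1 hHx
    rw [h1] at h2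
    have h3 : Xf p q x * omD p q x = 1 := by
      have n0 : p - q ≠ 0 := sub_ne_zero.2 hpq
      have n1 := VC_ne hp hx1
      have n3 : x - q ≠ 0 := by
        rw [← neg_sub]
        exact neg_ne_zero.2 (VC_ne hq hx1)
      rw [Xf, omD]
      field_simp
    have h4 : omD p q x ≠ 0 := by
      intro h
      rw [h, mul_zero] at h3
      exact zero_ne_one h3
    have g1 := hG1 _ hyy.1 hy
    have g2 := hG2 _ hyy.1 hy
    have g3 := hG3 _ hyy.1 hy
    have hI := Complex.I_ne_zero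
    apply mul_right_cancel₀ h4
    rw [mul_right_comm, h3, one_mul, h2, Complex.exp_sub, Complex.exp_add, Complex.exp_add,
      Complex.exp_log (by intro h; rw [h] at g1; simp at g1),
      Complex.exp_log (by rw [Ne, Complex.ofReal_eq_zero]; exact g3.ne'),
      Complex.exp_log (by intro h; rw [h] at g2; simp at g2)]
    have g4 : Complex.sinh (Complex.exp (L (om p q x)) / 2 + Complex.I * ((om p q x).im : ℂ)) ≠ 0 := by
      intro h
      rw [h] at g2
      simp at g2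
    have g5 := Complex.exp_ne_zero (L (om p q x))
    field_simp

end TN

end S_H60_PH_VC
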