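import Mathlib
import Pool.Agent.H12.KS.K45
import Pool.Agent.H12.KS.K46

/-! Joined modules of the proof of MP_8a27c0_an (one section per module). -/

section S_H60_PH_AX

/-!
AX (smooth approximation, exact on a set).  `exists_contMDiffMap_forall_mem_convex_of_local` (Mathlib/Geometry/Manifold/PartitionOfUnity) on the
manifold `ℂ` (model `𝓘(ℝ, ℂ)`, `n = 2`) with the convex sets `t x = univ` for `‖x‖ > r`, `t x = {W x}` for `‖x‖ ≤ r`, `x ∈ A`, and
`t x = closedBall (W x) (‖W x‖ / 2)` for `‖x‖ ≤ r`, `x ∉ A`.  Local sections: at `x` with `‖x‖ > r` the function `0` on the open set `{r < ‖·‖}`;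
at `x ∈ A`, `‖x‖ ≤ r`: the function `W` itself on a neighbourhood where it is `C²` (`ContDiffAt.contDiffOn`; `W y` is in both kinds of sets); at
`x ∉ A`, `‖x‖ ≤ r`: the constant `W x` on a neighbourhood disjoint from `A` where `‖W y - W x‖ ≤ ‖W y‖ / 2` (`W` is continuous and `W x ≠ 0`).
-/

namespace TN
open Metric Set Filter Topology
open scoped Manifold ContDiff

open Classical in
/-- the convex sets -/
noncomputable def AX_t (r : ℝ) (W : ℂ → ℂ) (A : Set ℂ) (x : ℂ) : Set ℂ :=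
  if r < ‖x‖ then univ else if x ∈ A then {W x} else closedBall (W x) (‖W x‖ / 2)

theorem approx {r : ℝ} (hr : r < 1) {W : ℂ → ℂ} {A : Set ℂ} (hW : ContinuousOn W (ball 0 1))
    (hAcl : ∀ x ∈ ball (0:ℂ) 1, x ∉ A → ∃ ε > 0, ∀ y, dist y x < ε → y ∉ A)
    (hAs : ∀ x ∈ ball (0:ℂ) 1, x ∈ A → ContDiffAt ℝ 2 W x)
    (hne : ∀ x ∈ ball (0:ℂ) 1, x ∉ A → W x ≠ 0) :
    ∃ V : ℂ → ℂ, ContDiff ℝ 2 V ∧ (∀ x, ‖x‖ ≤ r → x ∈ A → V x = W x) ∧
      ∀ x, ‖x‖ ≤ r → x ∉ A → ‖V x - W x‖ ≤ ‖W x‖ / 2 := by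
  have hconv : ∀ x, Convex ℝ (AX_t r W A x) := by
    intro x
    unfold AX_t
    split_ifs
    · exact convex_univ
    · exact convex_singleton _
    · exact convex_closedBall _ _
  have hself : ∀ y, W y ∈ AX_t r W A y := by
    intro y
    unfold AX_t
    split_ifs
    · exact mem_univ _
    · exact mem_singleton _
    · exact mem_closedBall_self (by positivity)
  have hloc : ∀ x : ℂ, ∃ U ∈ 𝓝 x, ∃ g : ℂ → ℂ,
      ContMDiffOn 𝓘(ℝ, ℂ) 𝓘(ℝ, ℂ) ((2:ℕ∞) : WithTop ℕ∞) g U ∧ ∀ y ∈ U, g y ∈ AX_t r W A y := by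
    intro x
    by_cases hx : r < ‖x‖
    · refine ⟨{y | r < ‖y‖}, (isOpen_lt continuous_const continuous_norm).mem_nhds hx, fun _ => 0,
        contMDiffOn_const, ?_⟩
      intro y hy
      have hy' : r < ‖y‖ := hy
      unfold AX_t
      rw [if_pos hy']
      exact mem_univ _
    · push Not at hx
      have hxb : x ∈ ball (0:ℂ) 1 := by
        rw [mem_ball, dist_zero_right]
        linarith
      by_cases hxA : x ∈ A
      · obtain ⟨u, hu, hcu⟩ := (hAs x hxb hxA).contDiffOn (m := 2) le_rfl (by simp)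
        refine ⟨u, by simpa using hu, W, ?_, fun y _ => hself y⟩
        rw [contMDiffOn_iff_contDiffOn]
        exact hcu
      · obtain ⟨ε, hε, hεA⟩ := hAcl x hxb hxA
        have hWx := hne x hxb hxA
        have hcW : ContinuousAt W x := hW.continuousAt (isOpen_ball.mem_nhds hxb)
        have h1 : ∀ᶠ y in 𝓝 x, ‖W x - W y‖ < ‖W x‖ / 4 := by
          have := hcW.eventually (ball_mem_nhds (W x) (by positivity : 0 < ‖W x‖ / 4))
          filter_upwards [this] with y hy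
          rw [norm_sub_rev]
          simpa [dist_eq_norm] using hy
        have h2 : ∀ᶠ y in 𝓝 x, dist y x < ε := ball_mem_nhds x hε
        refine ⟨_, h1.and h2, fun _ => W x, contMDiffOn_const, ?_⟩
        rintro y ⟨hy1, hy2⟩
        unfold AX_t
        by_cases hyr : r < ‖y‖
        · rw [if_pos hyr]; exact mem_univ _
        · rw [if_neg hyr, if_neg (hεA y hy2), mem_closedBall, dist_eq_norm]
          have h3 : ‖W x‖ ≤ ‖W x - W y‖ + ‖W y‖ := by
            calc ‖W x‖ = ‖(W x - W y) + W y‖ := by rw [sub_add_cancel]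
              _ ≤ _ := norm_add_le _ _
          show ‖W x - W y‖ ≤ ‖W y‖ / 2
          linarith [norm_nonneg (W y)]
  obtain ⟨g, hg⟩ := exists_contMDiffMap_forall_mem_convex_of_local (n := 2) 𝓘(ℝ, ℂ)
    (t := AX_t r W A) hconv hloc
  refine ⟨g, ?_, ?_, ?_⟩
  · have := g.contMDiff
    rw [contMDiff_iff_contDiff] at this
    exact this
  · intro x hx hxA
    have h := hg x
    unfold AX_t at h
    rw [if_neg (not_lt.2 hx), if_pos hxA] at h
    exact h
  · intro x hx hxA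
    have h := hg x
    unfold AX_t at h
    rw [if_neg (not_lt.2 hx), if_neg hxA, mem_closedBall, dist_eq_norm] at h
    exact h

end TN

end S_H60_PH_AX

section S_H60_PH_CF

/-!
CF (the vector field in the collars).  Let `c` be a step function between `y₁/2` and `y₁` (`exists_step`).  For `x` in the disc with `ω = om (p i) (q i) x` put
`C i x = - (1 - c (im ω)) * (M i ω - 2 π w i / l i * re ω * I)` if `im ω ≤ y₁`, and `0` otherwise.  It is invariant under `κ i` (`hl`: `ω` becomes `ω + l i`,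
`hMp`), it vanishes for `im ω ≥ y₁`, and it is continuous on the disc (the two definitions agree for `im ω = y₁`: `ContinuousOn.if`).
`inv_ext` gives an invariant function `N`, equal to `C i` where `im (om (p i) (q i) x) < π/2`, locally `C i ∘ act g` or `0`, hence continuous on the disc.
`V' = V * exp N`.  For `im ω < y₁/2`: `c = 0`, `N x = - M i ω + 2 π w i / l i * re ω * I`, so `V' x = Xf * exp (M i ω) * exp (N x)`.
-/

namespace TN
open Metric Set Filter Topology DS MeasureTheory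

variable {Γ : Type} [Group Γ]

open Classical in
/-- the correction on one collar -/
noncomputable def CF_C (p q : ℂ) (l : ℝ) (w : ℤ) (y₁ : ℝ) (c : ℝ → ℝ) (M : ℂ → ℂ) (x : ℂ) : ℂ :=
  if (om p q x).im ≤ y₁ then -(((1 - c (om p q x).im : ℝ) : ℂ) *
    (M (om p q x) - ((2 * Real.pi * w / l * (om p q x).re : ℝ) : ℂ) * Complex.I)) else 0

theorem CF_om_cont {p q : ℂ} (hp : ‖p‖ = 1) (hq : ‖q‖ = 1) (hpq : p ≠ q) :
    ContinuousOn (om p q) (ball 0 1) := fun _ hx =>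
  (om_hasDerivAt hp hq hpq (mem_ball_zero_iff.1 hx)).continuousAt.continuousWithinAt

theorem CF_cont {p q : ℂ} (hp : ‖p‖ = 1) (hq : ‖q‖ = 1) (hpq : p ≠ q) {l : ℝ} {w : ℤ} {y₁ : ℝ}
    {c : ℝ → ℝ} (hc : Step (y₁ / 2) y₁ c) {M : ℂ → ℂ}
    (hM : ContinuousOn M {ω : ℂ | 0 < ω.im ∧ ω.im ≤ y₁}) :
    ContinuousOn (CF_C p q l w y₁ c M) (ball 0 1) := by
  have h0 := CF_om_cont hp hq hpq
  rw [continuousOn_iff_continuous_domRestrict]
  have h1 : Continuous ((ball (0:ℂ) 1).domRestrict (om p q)) := continuousOn_iff_continuous_domRestrict.1 h0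
  have h2 : Continuous (fun x : ball (0:ℂ) 1 => (om p q x).im) := Complex.continuous_im.comp h1
  have h3 : Continuous (fun x : ball (0:ℂ) 1 => (om p q x).re) := Complex.continuous_re.comp h1
  have h4 : ContinuousOn (fun x : ball (0:ℂ) 1 => M (om p q x)) {x | (om p q x).im ≤ y₁} := by
    refine hM.comp h1.continuousOn fun x hx => ?_
    exact ⟨(om_im_pos hp hq hpq (mem_ball_zero_iff.1 x.2)).1, hx⟩
  refine continuous_if_le h2 continuous_const ?_ continuousOn_const ?_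
  · refine ContinuousOn.neg (ContinuousOn.mul ?_ (ContinuousOn.sub h4 ?_))
    · exact (Complex.continuous_ofReal.comp
        (continuous_const.sub (hc.smooth.continuous.comp h2))).continuousOn
    · exact ((Complex.continuous_ofReal.comp (continuous_const.mul h3)).mul
        continuous_const).continuousOn
  · intro x hx
    rw [hx, hc.one _ le_rfl, sub_self, Complex.ofReal_zero, zero_mul, neg_zero]

theorem collar_field (F : Fuchs Γ) {n : ℕ} {κ : Fin n → Γ} {p q : Fin n → ℂ} (G : Gaps F n κ p q)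
    {l : Fin n → ℝ} (hl0 : ∀ i, 0 < l i)
    (hl : ∀ i, ∀ x ∈ ball (0:ℂ) 1, om (p i) (q i) (F.act (κ i) x) = om (p i) (q i) x + l i)
    {w : Fin n → ℤ} {y₁ : ℝ} (hy : 0 < y₁) (hy' : y₁ < Real.pi / 2) {V : ℂ → ℂ}
    (hVc : ContinuousOn V (ball 0 1)) (hVe : F.Equi V) {M : Fin n → ℂ → ℂ}
    (hM : ∀ i, ContinuousOn (M i) {ω : ℂ | 0 < ω.im ∧ ω.im ≤ y₁})
    (hMp : ∀ i, ∀ ω : ℂ, 0 < ω.im → ω.im ≤ y₁ → M i (ω + l i) = M i ω + 2 * Real.pi * w i * Complex.I)
    (hVM : ∀ i, ∀ x ∈ ball (0:ℂ) 1, (om (p i) (q i) x).im ≤ y₁ →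
      V x = Xf (p i) (q i) x * Complex.exp (M i (om (p i) (q i) x))) :
    ∃ V' : ℂ → ℂ, ContinuousOn V' (ball 0 1) ∧ F.Equi V' ∧
      (∀ i, ∀ x ∈ ball (0:ℂ) 1, (om (p i) (q i) x).im < y₁ / 2 → V' x = Xf (p i) (q i) x *
        Complex.exp (((2 * Real.pi * w i / l i * (om (p i) (q i) x).re : ℝ) : ℂ) * Complex.I)) ∧
      (∀ x ∈ ball (0:ℂ) 1, V' x = 0 ↔ V x = 0) ∧
      ∀ x ∈ ball (0:ℂ) 1, (∀ i g, y₁ ≤ F.ht (p i) (q i) g x) → V' x = V x := by
  obtain ⟨c, hc⟩ := exists_step (a := y₁ / 2) (b := y₁) (by linarith)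
  obtain ⟨N, hN1, hN2, hN3, hN4⟩ := inv_ext F G (E := ℂ)
    (c := fun i => CF_C (p i) (q i) (l i) (w i) y₁ c (M i)) hy' (by
      intro i x hx
      have hpos := (om_im_pos (G.ar i).np (G.ar i).nq (G.ar i).ne (mem_ball_zero_iff.1 hx)).1
      simp only [CF_C]
      rw [hl i x hx]
      have e1 : (om (p i) (q i) x + l i).im = (om (p i) (q i) x).im := by simp
      have e2 : (om (p i) (q i) x + l i).re = (om (p i) (q i) x).re + l i := by simp
      rw [e1, e2]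
      by_cases h : (om (p i) (q i) x).im ≤ y₁
      · rw [if_pos h, if_pos h, hMp i _ hpos h]
        have hli : (l i : ℂ) ≠ 0 := Complex.ofReal_ne_zero.2 (hl0 i).ne'
        congr 2
        push_cast
        field_simp
        ring
      · rw [if_neg h, if_neg h])
    (by
      intro i x hx h
      simp only [CF_C]
      split_ifs with h2
      · rw [hc.one _ h, sub_self, Complex.ofReal_zero, zero_mul, neg_zero]
      · rfl)
  have hNc : ContinuousOn N (ball 0 1) := by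
    intro x hx
    obtain ⟨δ, hδ, H⟩ := hN4 x hx
    have hn : ball x δ ∈ 𝓝[ball 0 1] x := mem_nhdsWithin_of_mem_nhds (ball_mem_nhds x hδ)
    rcases H with ⟨i, g, H⟩ | H
    · have h1 : ContinuousOn (fun y => CF_C (p i) (q i) (l i) (w i) y₁ c (M i) (F.act g y))
          (ball 0 1) := by
        refine (CF_cont (G.ar i).np (G.ar i).nq (G.ar i).ne hc (hM i)).comp
          ((act_cont F g).mono ball_subset_closedBall) fun y hy => ?_
        exact mem_ball_zero_iff.2 (act_lt F g (mem_ball_zero_iff.1 hy))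
      refine (h1 x hx).congr_of_eventuallyEq ?_ (H x hx (by simpa using hδ))
      filter_upwards [hn, self_mem_nhdsWithin] with y hy hy1
      exact H y hy1 hy
    · refine (continuousWithinAt_const (b := (0:ℂ))).congr_of_eventuallyEq ?_
        (H x hx (by simpa using hδ))
      filter_upwards [hn, self_mem_nhdsWithin] with y hy hy1
      exact H y hy1 hy
  refine ⟨fun x => V x * Complex.exp (N x), ?_, ?_, ?_, ?_, ?_⟩
  · exact hVc.mul (Complex.continuous_exp.comp_continuousOn hNc)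
  · intro g x hx
    simp only
    rw [hN1 g x hx, hVe g x hx, mul_assoc]
  · intro i x hx h
    simp only
    have h1 : (om (p i) (q i) x).im ≤ y₁ := by linarith
    rw [hN2 i x hx (by linarith), hVM i x hx h1, CF_C, if_pos h1, hc.zero _ h.le, mul_assoc,
      ← Complex.exp_add]
    congr 2
    push_cast
    ring
  · intro x _
    simp only [mul_eq_zero, Complex.exp_ne_zero, or_false]
  · intro x hx h
    simp only
    rw [hN3 x hx h, Complex.exp_zero, mul_one]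

end TN

end S_H60_PH_CF

section S_H60_PH_EZ

/-!
EZ (the connection form of a vector field): `e0 V = (dzb V / V - conj (dz V / V)) / 2 - x / (1 - ‖x‖²)`.
`e0_smooth`: `dz V`, `dzb V` are `C¹` (`dz_smooth`), `V x ≠ 0`, `1 - ‖x‖² ≠ 0`.
`e0_dz`: with `dz_div`, `dz_conj`, `dz_dzb`: `dz (dzb V / V) = (dz dzb V * V - dzb V * dz V)/V² =: a`, `dzb (dz V / V) = (dzb dz V * V - dz V * dzb V)/V² = a`, so
`dz (conj (dz V / V)) = conj a` and `a - conj a` is purely imaginary; `dz (x / (1 - ‖x‖²)) = 1/(1-‖x‖²) + x conj x/(1-‖x‖²)² = 1/(1-‖x‖²)²` (`dz_normSq`).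
`e0_equi`: near `x`: `V (act g y) = dact g y * V y`; apply `dz_comp`, `dz_mul`, `dz_holo`: `dzb V (act g x) * conj (dact g x) = dact g x * dzb V x` and
`dz V (act g x) * dact g x = D * V x + dact g x * dz V x`, `D` the derivative of `dact g` at `x`, `D / dact g x = 2 conj b/(1 - conj b x)`; and
`act g x * conj (dact g x)/(1 - ‖act g x‖²) = x/(1-‖x‖²) - conj (D / dact g x)/2` (apply `dzb` to `1 - ‖act g y‖² = ‖dact g y‖ (1 - ‖y‖²)`, or directly with `act_norm`).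
`e0_collar`: `V = Xf * exp (i c re om)` near `x`: `dzb V / V = i c conj (omD) / 2`, `dz V / V = 1/(x - q) - 1/(p - x) + i c omD / 2`; the identity
`- conj (1/(x - q) - 1/(p - x))/2 - x/(1-‖x‖²) = (I/2) (cos y/ sin y) conj (omD)`, `y = im om`, follows from `cos y / sin y = re eta / im eta`, `eta_im`, and
`re (eta) = - im ((1 - p conj q)(x - q)/(p - x))` (numerically checked), or by applying `dzb ∘ log` to `om_metric`.
`e0_zero`: `V y = y - k` near `x`: `dz V = 1`, `dzb V = 0`.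
-/

namespace TN
open Metric Set Filter Topology DS MeasureTheory

variable {Γ : Type} [Group Γ]

noncomputable def e0 (V : ℂ → ℂ) (x : ℂ) : ℂ :=
  (dzb V x / V x - (starRingEnd ℂ) (dz V x / V x)) / 2 - x / ((1 - ‖x‖ ^ 2 : ℝ) : ℂ)

theorem EZ_N_ne {x : ℂ} (hx : ‖x‖ < 1) : ((1 - ‖x‖ ^ 2 : ℝ) : ℂ) ≠ 0 := by
  have h1 : 0 < 1 - ‖x‖ ^ 2 := by nlinarith [norm_nonneg x]
  exact_mod_cast h1.ne'

theorem EZ_N_smooth {n : ℕ} (x : ℂ) : ContDiffAt ℝ n (fun y : ℂ => ((1 - ‖y‖ ^ 2 : ℝ) : ℂ)) x := by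
  have h1 : ContDiff ℝ n (fun y : ℂ => (1 - ‖y‖ ^ 2 : ℝ)) := contDiff_const.sub (contDiff_norm_sq ℝ)
  exact (Complex.ofRealCLM.contDiff.comp h1).contDiffAt

theorem EZ_N (x : ℂ) : ((1 - ‖x‖ ^ 2 : ℝ) : ℂ) = 1 - x * (starRingEnd ℂ) x := by
  rw [Complex.mul_conj, Complex.normSq_eq_norm_sq]
  push_cast
  ring

theorem EZ_div {f g : ℂ → ℂ} {n : ℕ} {x : ℂ} (hf : ContDiffAt ℝ n f x) (hg : ContDiffAt ℝ n g x)
    (h0 : g x ≠ 0) : ContDiffAt ℝ n (fun y => f y / g y) x := by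
  have h1 : ContDiffAt ℝ n (fun y => (g y)⁻¹) x := hg.inv h0
  simp only [div_eq_mul_inv]
  exact hf.mul h1

theorem EZ_conj {f : ℂ → ℂ} {n : ℕ} {x : ℂ} (hf : ContDiffAt ℝ n f x) :
    ContDiffAt ℝ n (fun y => (starRingEnd ℂ) (f y)) x :=
  (Complex.conjCLE.contDiff (n := n)).contDiffAt.comp x hf

theorem EZ_pre {V : ℂ → ℂ} (hV : ContDiffOn ℝ 2 V (ball 0 1)) {x : ℂ} (hx : ‖x‖ < 1) :
    ContDiffAt ℝ 1 V x ∧ ContDiffAt ℝ 1 (dz V) x ∧ ContDiffAt ℝ 1 (dzb V) x := by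
  have hxb : ball (0 : ℂ) 1 ∈ 𝓝 x := isOpen_ball.mem_nhds (mem_ball_zero_iff.2 hx)
  obtain ⟨h1, h2⟩ := dz_smooth (n := 1) isOpen_ball (by norm_num; exact hV)
  exact ⟨(hV.contDiffAt hxb).of_le (by norm_num), h1.contDiffAt hxb, h2.contDiffAt hxb⟩

theorem e0_smooth {V : ℂ → ℂ} (hV : ContDiffOn ℝ 2 V (ball 0 1)) {x : ℂ} (hx : ‖x‖ < 1) (h0 : V x ≠ 0) :
    ContDiffAt ℝ 1 (e0 V) x := by
  obtain ⟨h1, h2, h3⟩ := EZ_pre hV hx
  have h4 := EZ_div (n := 1) h3 h1 h0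
  have h5 := EZ_conj (EZ_div (n := 1) h2 h1 h0)
  exact ((h4.sub h5).div_const 2).sub (EZ_div (n := 1) contDiffAt_id (EZ_N_smooth x) (EZ_N_ne hx))

theorem EZ_half {f : ℂ → ℂ} {x : ℂ} (hf : DifferentiableAt ℝ f x) :
    dz (fun y => f y / 2) x = dz f x / 2 := by
  rw [(dz_div hf (differentiableAt_const (2 : ℂ)) two_ne_zero).1, (dz_const 2 x).1]
  ring

theorem EZ_dzN (x : ℂ) : dz (fun y : ℂ => ((1 - ‖y‖ ^ 2 : ℝ) : ℂ)) x = - (starRingEnd ℂ) x := by
  have h1 : (fun y : ℂ => ((1 - ‖y‖ ^ 2 : ℝ) : ℂ)) = fun y => (1 : ℂ) - ((‖y‖ ^ 2 : ℝ) : ℂ) := by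
    funext y
    push_cast
    ring
  have h2 : ContDiff ℝ 1 (fun y : ℂ => ((‖y‖ ^ 2 : ℝ) : ℂ)) :=
    Complex.ofRealCLM.contDiff.comp (contDiff_norm_sq ℝ)
  have h3 : DifferentiableAt ℝ (fun y : ℂ => ((‖y‖ ^ 2 : ℝ) : ℂ)) x :=
    (h2.differentiable (by norm_num)).differentiableAt
  rw [h1, (dz_sub (differentiableAt_const (1 : ℂ)) h3).1, (dz_const 1 x).1, (dz_normSq x).1, zero_sub]

theorem EZ_dzx {x : ℂ} (hx : ‖x‖ < 1) : dz (fun y : ℂ => y / ((1 - ‖y‖ ^ 2 : ℝ) : ℂ)) x =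
    ((1 / (1 - ‖x‖ ^ 2) ^ 2 : ℝ) : ℂ) := by
  have hN := EZ_N_ne hx
  have h1 : dz (fun y : ℂ => y) x = 1 := (dz_holo (hasDerivAt_id x)).1
  rw [(dz_div (f := fun y => y) differentiableAt_id
    ((EZ_N_smooth (n := 1) x).differentiableAt (by norm_num)) hN).1, EZ_dzN, h1]
  rw [div_eq_iff (pow_ne_zero 2 hN)]
  have h2 : ((1 / (1 - ‖x‖ ^ 2) ^ 2 : ℝ) : ℂ) * ((1 - ‖x‖ ^ 2 : ℝ) : ℂ) ^ 2 = 1 := by
    rw [← Complex.ofReal_pow, ← Complex.ofReal_mul]
    have h3 : 0 < 1 - ‖x‖ ^ 2 := by nlinarith [norm_nonneg x]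
    rw [one_div, inv_mul_cancel₀ (pow_ne_zero 2 h3.ne')]
    simp
  rw [h2, EZ_N]
  ring

theorem e0_dz {V : ℂ → ℂ} (hV : ContDiffOn ℝ 2 V (ball 0 1)) {x : ℂ} (hx : ‖x‖ < 1) (h0 : V x ≠ 0) :
    (dz (e0 V) x).re = -1 / (1 - ‖x‖ ^ 2) ^ 2 := by
  have hxb : ball (0 : ℂ) 1 ∈ 𝓝 x := isOpen_ball.mem_nhds (mem_ball_zero_iff.2 hx)
  obtain ⟨h1, h2, h3⟩ := EZ_pre hV hx
  have hd1 := h1.differentiableAt (by norm_num)
  have hd2 := h2.differentiableAt (by norm_num)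
  have hd3 := h3.differentiableAt (by norm_num)
  have h4 := (EZ_div (n := 1) h3 h1 h0).differentiableAt (by norm_num)
  have h5 := (EZ_div (n := 1) h2 h1 h0).differentiableAt (by norm_num)
  have h5' := (EZ_conj (EZ_div (n := 1) h2 h1 h0)).differentiableAt (by norm_num)
  have h6 := (EZ_div (n := 1) contDiffAt_id (EZ_N_smooth x) (EZ_N_ne hx)).differentiableAt (by norm_num)
  have hA : dz (fun y => dzb V y / V y) x = (dz (dzb V) x * V x - dzb V x * dz V x) / V x ^ 2 :=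
    (dz_div hd3 hd1 h0).1
  have hB : dz (fun y => (starRingEnd ℂ) (dz V y / V y)) x =
      (starRingEnd ℂ) ((dzb (dz V) x * V x - dz V x * dzb V x) / V x ^ 2) := by
    rw [(dz_conj h5).1, (dz_div hd2 hd1 h0).2]
  have hC : dz (fun y => (dzb V y / V y - (starRingEnd ℂ) (dz V y / V y)) / 2) x =
      ((dz (dzb V) x * V x - dzb V x * dz V x) / V x ^ 2 -
      (starRingEnd ℂ) ((dz (dzb V) x * V x - dzb V x * dz V x) / V x ^ 2)) / 2 := by
    rw [EZ_half (h4.fun_sub h5'), (dz_sub h4 h5').1, hA, hB, dz_dzb (hV.contDiffAt hxb),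
      mul_comm (dz V x) (dzb V x)]
  have hD : dz (e0 V) x = dz (fun y => (dzb V y / V y - (starRingEnd ℂ) (dz V y / V y)) / 2) x -
      dz (fun y : ℂ => y / ((1 - ‖y‖ ^ 2 : ℝ) : ℂ)) x :=
    (dz_sub (f := fun y => (dzb V y / V y - (starRingEnd ℂ) (dz V y / V y)) / 2)
      (((EZ_div (n := 1) h3 h1 h0).sub (EZ_conj (EZ_div (n := 1) h2 h1 h0))).div_const
        2 |>.differentiableAt (by norm_num)) h6).1
  rw [hD, hC, EZ_dzx hx, Complex.sub_re, Complex.ofReal_re]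
  set a := (dz (dzb V) x * V x - dzb V x * dz V x) / V x ^ 2
  have h7 : ((a - (starRingEnd ℂ) a) / 2).re = 0 := by
    rw [Complex.div_ofNat_re, Complex.sub_re, Complex.conj_re, sub_self, zero_div]
  rw [h7]
  ring

theorem EZ_dact (F : Fuchs Γ) (g : Γ) {x : ℂ} (hx : ‖x‖ < 1) :
    HasDerivAt (F.dact g) (F.dact g x * (2 * (starRingEnd ℂ) (F.b g) /
      (1 - (starRingEnd ℂ) (F.b g) * x))) x := by
  have hne := den_ne (F.hb g) hx.le
  have h1 : HasDerivAt (fun y : ℂ => 1 - (starRingEnd ℂ) (F.b g) * y) (-(starRingEnd ℂ) (F.b g)) x := by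
    simpa using ((hasDerivAt_id x).const_mul ((starRingEnd ℂ) (F.b g))).const_sub 1
  have h2 := (h1.pow 2)
  have h3 := (h2.inv (pow_ne_zero 2 hne)).const_mul (F.u g * (1 - (starRingEnd ℂ) (F.b g) * F.b g))
  have h4 : F.dact g = fun y => F.u g * (1 - (starRingEnd ℂ) (F.b g) * F.b g) *
      (((1 - (starRingEnd ℂ) (F.b g) * y) ^ 2))⁻¹ := by
    funext y
    rw [← div_eq_mul_inv]
    rfl
  rw [h4]
  refine h3.congr_deriv ?_
  simp only [Nat.cast_ofNat, Nat.add_one_sub_one, pow_one, Pi.pow_apply]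
  field_simp

theorem e0_equi (F : Fuchs Γ) {V : ℂ → ℂ} (hV : ContDiffOn ℝ 2 V (ball 0 1)) (hVe : F.Equi V) (g : Γ)
    {x : ℂ} (hx : ‖x‖ < 1) (h0 : V x ≠ 0) :
    e0 V (F.act g x) * (starRingEnd ℂ) (F.dact g x) = e0 V x := by
  have hxb : ball (0 : ℂ) 1 ∈ 𝓝 x := isOpen_ball.mem_nhds (mem_ball_zero_iff.2 hx)
  have ha : ‖F.act g x‖ < 1 := act_lt F g hx
  obtain ⟨h1, -, -⟩ := EZ_pre hV hx
  obtain ⟨h1', -, -⟩ := EZ_pre hV ha
  have hd1 := h1.differentiableAt (by norm_num)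
  have hd1' := h1'.differentiableAt (by norm_num)
  have hDa := act_hasDerivAt F g hx.le
  have hDd := EZ_dact F g hx
  have hDne : F.dact g x ≠ 0 := dact_ne F g hx.le
  have hVa : V (F.act g x) = F.dact g x * V x := hVe g x (mem_ball_zero_iff.2 hx)
  have hev : (fun y => V (F.act g y)) =ᶠ[𝓝 x] fun y => F.dact g y * V y := by
    filter_upwards [hxb] with y hy
    exact hVe g y hy
  obtain ⟨e1, e2⟩ := dz_congr hev
  obtain ⟨e3, e4⟩ := dz_comp hd1' hDa
  obtain ⟨e5, e6⟩ := dz_mul (f := F.dact g) (hDd.differentiableAt.restrictScalars ℝ) hd1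
  obtain ⟨e7, e8⟩ := dz_holo hDd
  rw [e3, e5, e7] at e1
  rw [e4, e6, e8, zero_mul, zero_add] at e2
  have hne := den_ne (F.hb g) hx.le
  have hne' : (1 : ℂ) - F.b g * (starRingEnd ℂ) x ≠ 0 := by
    intro h
    apply hne
    have := congrArg (starRingEnd ℂ) h
    simpa using this
  have hN := EZ_N_ne hx
  have hN' := EZ_N_ne ha
  -- the main identity
  have key : F.act g x * (starRingEnd ℂ) (F.dact g x) / ((1 - ‖F.act g x‖ ^ 2 : ℝ) : ℂ) =
      x / ((1 - ‖x‖ ^ 2 : ℝ) : ℂ) - F.b g / (1 - F.b g * (starRingEnd ℂ) x) := by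
    have hu : F.u g * (starRingEnd ℂ) (F.u g) = 1 := by
      rw [Complex.mul_conj, Complex.normSq_eq_norm_sq, F.hu]
      simp
    have hBB : (1 : ℂ) - F.b g * (starRingEnd ℂ) (F.b g) ≠ 0 := by
      rw [← EZ_N]
      exact EZ_N_ne (F.hb g)
    have hxX : (1 : ℂ) - x * (starRingEnd ℂ) x ≠ 0 := by
      rw [← EZ_N]
      exact hN
    have hne2 : (1 : ℂ) - x * (starRingEnd ℂ) (F.b g) ≠ 0 := by rw [mul_comm]; exact hne
    have hne3 : (1 : ℂ) - (starRingEnd ℂ) x * F.b g ≠ 0 := by rw [mul_comm]; exact hne'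
    have ea : F.act g x = F.u g * (x - F.b g) / (1 - (starRingEnd ℂ) (F.b g) * x) := rfl
    have eac : (starRingEnd ℂ) (F.act g x) = (starRingEnd ℂ) (F.u g) *
        ((starRingEnd ℂ) x - (starRingEnd ℂ) (F.b g)) / (1 - F.b g * (starRingEnd ℂ) x) := by
      rw [ea]
      simp only [map_div₀, map_mul, map_sub, map_one, Complex.conj_conj]
    have ed : (starRingEnd ℂ) (F.dact g x) = (starRingEnd ℂ) (F.u g) *
        (1 - F.b g * (starRingEnd ℂ) (F.b g)) / (1 - F.b g * (starRingEnd ℂ) x) ^ 2 := by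
      have : F.dact g x = F.u g * (1 - (starRingEnd ℂ) (F.b g) * F.b g) /
        (1 - (starRingEnd ℂ) (F.b g) * x) ^ 2 := rfl
      rw [this]
      simp only [map_div₀, map_mul, map_sub, map_one, map_pow, Complex.conj_conj]
    have eN : ((1 - ‖F.act g x‖ ^ 2 : ℝ) : ℂ) = (1 - F.b g * (starRingEnd ℂ) (F.b g)) *
        (1 - x * (starRingEnd ℂ) x) / ((1 - (starRingEnd ℂ) (F.b g) * x) *
        (1 - F.b g * (starRingEnd ℂ) x)) := by
      rw [EZ_N, eac, ea, eq_div_iff (mul_ne_zero hne hne')]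
      field_simp
      linear_combination (-(x - F.b g) * ((starRingEnd ℂ) x - (starRingEnd ℂ) (F.b g))) * hu
    rw [eN, ea, ed, EZ_N]
    have k1 : F.u g * (x - F.b g) / (1 - (starRingEnd ℂ) (F.b g) * x) *
        ((starRingEnd ℂ) (F.u g) * (1 - F.b g * (starRingEnd ℂ) (F.b g)) /
          (1 - F.b g * (starRingEnd ℂ) x) ^ 2) /
        ((1 - F.b g * (starRingEnd ℂ) (F.b g)) * (1 - x * (starRingEnd ℂ) x) /
          ((1 - (starRingEnd ℂ) (F.b g) * x) * (1 - F.b g * (starRingEnd ℂ) x))) =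
        (F.u g * (starRingEnd ℂ) (F.u g)) * ((x - F.b g) / ((1 - x * (starRingEnd ℂ) x) *
          (1 - F.b g * (starRingEnd ℂ) x))) := by
      field_simp
    rw [k1, hu, one_mul, div_sub_div _ _ hxX hne']
    congr 1
    ring
  have hc : (starRingEnd ℂ) (2 * (starRingEnd ℂ) (F.b g) / (1 - (starRingEnd ℂ) (F.b g) * x)) =
      2 * (F.b g / (1 - F.b g * (starRingEnd ℂ) x)) := by
    simp only [map_div₀, map_mul, map_sub, map_one, map_ofNat, Complex.conj_conj]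
    ring
  have hz : dz V (F.act g x) / V (F.act g x) * F.dact g x =
      2 * (starRingEnd ℂ) (F.b g) / (1 - (starRingEnd ℂ) (F.b g) * x) + dz V x / V x := by
    rw [div_mul_eq_mul_div, e1, hVa]
    field_simp
  have hzb : dzb V (F.act g x) / V (F.act g x) * (starRingEnd ℂ) (F.dact g x) = dzb V x / V x := by
    rw [div_mul_eq_mul_div, e2, hVa]
    field_simp
  have hz' := congrArg (starRingEnd ℂ) hz
  rw [map_mul, map_add, hc] at hz'
  unfold e0
  rw [sub_mul, div_mul_eq_mul_div, sub_mul, hzb, hz', div_mul_eq_mul_div (F.act g x), key]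
  ring

theorem EZ_exp {h : ℂ → ℂ} {x : ℂ} (hh : DifferentiableAt ℝ h x) :
    dz (fun y => Complex.exp (h y)) x = Complex.exp (h x) * dz h x ∧
      dzb (fun y => Complex.exp (h y)) x = Complex.exp (h x) * dzb h x := by
  have h1 := (hh.hasFDerivAt).cexp
  rw [dz, dzb, dz, dzb, h1.fderiv]
  simp only [smul_apply, smul_eq_mul]
  constructor <;> ring

theorem EZ_cot {p q : ℂ} (hp : ‖p‖ = 1) (hq : ‖q‖ = 1) (hpq : p ≠ q) {x : ℂ} (hx : ‖x‖ < 1) :
    -(starRingEnd ℂ) (1 / (x - q) - 1 / (p - x)) / 2 - x / ((1 - ‖x‖ ^ 2 : ℝ) : ℂ) =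
      Complex.I / 2 * (starRingEnd ℂ) (omD p q x) *
      ((Real.cos (om p q x).im / Real.sin (om p q x).im : ℝ) : ℂ) := by
  have hxp : x ≠ p := by rintro rfl; linarith
  have hxq : x ≠ q := by rintro rfl; linarith
  have hη := eta_ne hp hq hpq hxp hxq
  have hp0 : p ≠ 0 := by rintro rfl; simp at hp
  have hq0 : q ≠ 0 := by rintro rfl; simp at hq
  have hP : (starRingEnd ℂ) p = p⁻¹ := by
    refine eq_inv_of_mul_eq_one_right ?_
    rw [Complex.mul_conj, Complex.normSq_eq_norm_sq, hp]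
    simp
  have hQ : (starRingEnd ℂ) q = q⁻¹ := by
    refine eq_inv_of_mul_eq_one_right ?_
    rw [Complex.mul_conj, Complex.normSq_eq_norm_sq, hq]
    simp
  have h1 : p - x ≠ 0 := sub_ne_zero.2 (Ne.symm hxp)
  have h2 : x - q ≠ 0 := sub_ne_zero.2 hxq
  have h3 : p - q ≠ 0 := sub_ne_zero.2 hpq
  have hN := EZ_N_ne hx
  have him : (eta p q x).im ≠ 0 := by
    rw [eta_im hp hq]
    have h4 : 0 < 1 - ‖x‖ ^ 2 := by nlinarith [norm_nonneg x]
    have h5 : 0 < ‖p - x‖ := norm_pos_iff.2 h1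
    have h6 : 0 < ‖p - q‖ := norm_pos_iff.2 h3
    positivity
  have hcot : Real.cos (om p q x).im / Real.sin (om p q x).im =
      (eta p q x).re / (eta p q x).im := by
    rw [om, Complex.log_im, Complex.sin_arg, Complex.cos_arg hη]
    have h7 : ‖eta p q x‖ ≠ 0 := norm_ne_zero_iff.2 hη
    field_simp
  have hcotC : (((eta p q x).re / (eta p q x).im : ℝ) : ℂ) = Complex.I *
      (eta p q x + (starRingEnd ℂ) (eta p q x)) / (eta p q x - (starRingEnd ℂ) (eta p q x)) := by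
    have himC : ((eta p q x).im : ℂ) ≠ 0 := by exact_mod_cast him
    rw [Complex.add_conj, Complex.sub_conj, Complex.ofReal_div]
    push_cast
    have hI := Complex.I_ne_zero
    field_simp
  rw [hcot, hcotC]
  set X := (starRingEnd ℂ) x with hX
  have hpX : 1 - p * X ≠ 0 := by
    intro h
    apply h1
    have h8 : (starRingEnd ℂ) (1 - p * X) = 0 := by rw [h, map_zero]
    rw [map_sub, map_one, map_mul, hX, Complex.conj_conj, hP] at h8
    have h9 : p - x = p * (1 - p⁻¹ * x) := by field_simp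
    rw [h9, h8, mul_zero]
  have hqX : 1 - q * X ≠ 0 := by
    intro h
    apply h2
    have h8 : (starRingEnd ℂ) (1 - q * X) = 0 := by rw [h, map_zero]
    rw [map_sub, map_one, map_mul, hX, Complex.conj_conj, hQ] at h8
    have h9 : x - q = -(q * (1 - q⁻¹ * x)) := by field_simp; ring
    rw [h9, h8, mul_zero, neg_zero]
  have hxX : 1 - x * X ≠ 0 := by
    rw [hX, ← EZ_N]
    exact hN
  have e1 : eta p q x = -Complex.I * (p - q) * (x - q) / (q * (p - x)) := by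
    rw [eta, hQ]
    field_simp
    ring
  have e2 : (starRingEnd ℂ) (eta p q x) = Complex.I * (p - q) * (1 - q * X) / (q * (1 - p * X)) := by
    rw [e1]
    simp only [map_div₀, map_mul, map_sub, map_neg, Complex.conj_I, hP, hQ, ← hX]
    have h9 : p⁻¹ - X ≠ 0 := by
      intro h
      apply hpX
      field_simp at h
      linear_combination h
    rw [div_eq_div_iff (mul_ne_zero (inv_ne_zero hq0) h9) (mul_ne_zero hq0 hpX)]
    field_simp
    ring
  have e3 : eta p q x - (starRingEnd ℂ) (eta p q x) =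
      -Complex.I * (p - q) ^ 2 * (1 - x * X) / (q * (p - x) * (1 - p * X)) := by
    rw [e2, e1]
    field_simp
    ring
  have e4 : eta p q x + (starRingEnd ℂ) (eta p q x) =
      -Complex.I * (p - q) * (2 * x - (p + q) * (1 + x * X) + 2 * p * q * X) /
        (q * (p - x) * (1 - p * X)) := by
    rw [e2, e1]
    field_simp
    ring
  have e5 : (starRingEnd ℂ) (omD p q x) = (p - q) / ((1 - q * X) * (1 - p * X)) := by
    rw [omD]
    simp only [map_div₀, map_mul, map_sub, hP, hQ, ← hX]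
    have h9 : p⁻¹ - X ≠ 0 := by
      intro h
      apply hpX
      field_simp at h
      linear_combination h
    have h10 : X - q⁻¹ ≠ 0 := by
      intro h
      apply hqX
      field_simp at h
      linear_combination -h
    rw [div_eq_div_iff (mul_ne_zero h10 h9) (mul_ne_zero hqX hpX)]
    field_simp
    ring
  have e6 : (starRingEnd ℂ) (1 / (x - q) - 1 / (p - x)) = -(q / (1 - q * X) + p / (1 - p * X)) := by
    simp only [map_div₀, map_sub, map_one, hP, hQ, ← hX]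
    have h9 : p⁻¹ - X = (1 - p * X) / p := by field_simp
    have h10 : X - q⁻¹ = -(1 - q * X) / q := by field_simp; ring
    rw [h9, h10]
    field_simp
    ring
  rw [e3, e4, e5, e6, EZ_N, ← hX]
  have hI := Complex.I_ne_zero
  have k1 : Complex.I * (-Complex.I * (p - q) * (2 * x - (p + q) * (1 + x * X) + 2 * p * q * X) /
      (q * (p - x) * (1 - p * X))) / (-Complex.I * (p - q) ^ 2 * (1 - x * X) /
      (q * (p - x) * (1 - p * X))) = Complex.I * ((2 * x - (p + q) * (1 + x * X) + 2 * p * q * X) /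
      ((p - q) * (1 - x * X))) := by
    field_simp
  have k2 : Complex.I / 2 * ((p - q) / ((1 - q * X) * (1 - p * X))) *
      (Complex.I * ((2 * x - (p + q) * (1 + x * X) + 2 * p * q * X) / ((p - q) * (1 - x * X)))) =
      (Complex.I * Complex.I) * ((2 * x - (p + q) * (1 + x * X) + 2 * p * q * X) /
        (2 * ((1 - q * X) * (1 - p * X) * (1 - x * X)))) := by
    field_simp
  have k3 : ∀ D1 D2 D3 : ℂ, D1 ≠ 0 → D2 ≠ 0 → D3 ≠ 0 → -(-(q / D1 + p / D2)) / 2 - x / D3 =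
      ((q * D2 + p * D1) * D3 - 2 * x * (D1 * D2)) / (2 * (D1 * D2 * D3)) := by
    intro D1 D2 D3 g1 g2 g3
    field_simp
  rw [k1, k2, k3 _ _ _ hqX hpX hxX, Complex.I_mul_I, neg_one_mul, ← neg_div]
  congr 1
  ring

theorem e0_collar {p q : ℂ} (hp : ‖p‖ = 1) (hq : ‖q‖ = 1) (hpq : p ≠ q) {V : ℂ → ℂ} {c : ℝ} {x : ℂ}
    (hx : ‖x‖ < 1)
    (hV : ∀ᶠ y in 𝓝 x, V y = Xf p q y * Complex.exp (((c * (om p q y).re : ℝ) : ℂ) * Complex.I)) :
    e0 V x = Complex.I / 2 * (starRingEnd ℂ) (omD p q x) *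
      ((c + Real.cos (om p q x).im / Real.sin (om p q x).im : ℝ) : ℂ) := by
  have hxp : x ≠ p := by rintro rfl; linarith
  have hxq : x ≠ q := by rintro rfl; linarith
  have h1 : p - x ≠ 0 := sub_ne_zero.2 (Ne.symm hxp)
  have h2 : x - q ≠ 0 := sub_ne_zero.2 hxq
  have h3 : p - q ≠ 0 := sub_ne_zero.2 hpq
  have hom : HasDerivAt (om p q) (omD p q x) x := om_hasDerivAt hp hq hpq hx
  have hXf : HasDerivAt (Xf p q) (((p - x) - (x - q)) / (p - q)) x := by
    have h4 : HasDerivAt (fun y : ℂ => (y - q) * (p - y)) ((p - x) - (x - q)) x := by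
      have h5 := ((hasDerivAt_id x).sub_const q).mul ((hasDerivAt_id x).const_sub p)
      refine h5.congr_deriv ?_
      simp only [id]
      ring
    exact h4.div_const (p - q)
  set h : ℂ → ℂ := fun y => (((c * (om p q y).re : ℝ) : ℂ) * Complex.I) with hh
  have hh' : h = fun y => (c : ℂ) * Complex.I * (((om p q y).re : ℝ) : ℂ) := by
    funext y
    simp only [hh]
    push_cast
    ring
  have hre : DifferentiableAt ℝ (fun y => (((om p q y).re : ℝ) : ℂ)) x := by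
    have h4 : DifferentiableAt ℝ (om p q) x := hom.differentiableAt.restrictScalars ℝ
    exact (Complex.ofRealCLM.differentiableAt.comp x (Complex.reCLM.differentiableAt.comp x h4))
  have hhd : DifferentiableAt ℝ h x := by
    rw [hh']
    exact (differentiableAt_const _).fun_mul hre
  obtain ⟨r1, r2⟩ := dz_re hom
  have hz : dz h x = c * Complex.I * (omD p q x / 2) := by
    rw [hh', (dz_mul (differentiableAt_const _) hre).1, (dz_const _ x).1, r1, zero_mul, zero_add]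
  have hzb : dzb h x = c * Complex.I * ((starRingEnd ℂ) (omD p q x) / 2) := by
    rw [hh', (dz_mul (differentiableAt_const _) hre).2, (dz_const _ x).2, r2, zero_mul, zero_add]
  obtain ⟨e1, e2⟩ := dz_congr (g := fun y => Xf p q y * Complex.exp (h y)) hV
  obtain ⟨e3, e4⟩ := dz_mul (hXf.differentiableAt.restrictScalars ℝ) hhd.cexp
  obtain ⟨e5, e6⟩ := dz_holo hXf
  obtain ⟨e7, e8⟩ := EZ_exp hhd
  have hVx : V x = Xf p q x * Complex.exp (h x) := hV.self_of_nhds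
  have hX0 : Xf p q x ≠ 0 := div_ne_zero (mul_ne_zero h2 h1) h3
  have hE0 := Complex.exp_ne_zero (h x)
  have f1 : dz V x / V x = (1 / (x - q) - 1 / (p - x)) + c * Complex.I * (omD p q x / 2) := by
    rw [e1, e3, e5, e7, hz, hVx, Xf]
    rw [Xf] at hX0
    field_simp
  have f2 : dzb V x / V x = c * Complex.I * ((starRingEnd ℂ) (omD p q x) / 2) := by
    rw [e2, e4, e6, e8, hzb, hVx]
    field_simp
    first | done | ring
  have hcot := EZ_cot hp hq hpq hx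
  unfold e0
  rw [f1, f2, map_add]
  have f3 : (starRingEnd ℂ) ((c : ℂ) * Complex.I * (omD p q x / 2)) =
      -(c * Complex.I * ((starRingEnd ℂ) (omD p q x) / 2)) := by
    simp only [map_mul, map_div₀, Complex.conj_ofReal, Complex.conj_I, map_ofNat]
    ring
  rw [f3, Complex.ofReal_add, mul_add, ← hcot]
  ring

theorem e0_zero {V : ℂ → ℂ} {k x : ℂ} (hx : ‖x‖ < 1) (hxk : x ≠ k) (hV : ∀ᶠ y in 𝓝 x, V y = y - k) :
    e0 V x = -1 / (2 * (starRingEnd ℂ) (x - k)) - x / ((1 - ‖x‖ ^ 2 : ℝ) : ℂ) := by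
  have _ := hx
  obtain ⟨e1, e2⟩ := dz_congr (g := fun y => y - k) hV
  obtain ⟨e3, e4⟩ := dz_holo ((hasDerivAt_id x).sub_const k)
  have e3' : dz (fun y : ℂ => y - k) x = 1 := e3
  have e4' : dzb (fun y : ℂ => y - k) x = 0 := e4
  have hVx : V x = x - k := hV.self_of_nhds
  have hne : x - k ≠ 0 := sub_ne_zero.2 hxk
  have hne' : (starRingEnd ℂ) (x - k) ≠ 0 := by
    rw [Ne, map_eq_zero]
    exact hne
  unfold e0
  rw [e1, e2, e3', e4', hVx, zero_div, map_div₀, map_one]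
  field_simp
  ring

end TN

end S_H60_PH_EZ

section S_H60_PH_EF

/-!
EF (the regularised connection form).  Apply `patch` with `O i = ball (k i) s` (closure = `closedBall (k i) s`), `J g x = (conj (dact g x))⁻¹` (`dact_mul`, `dact_ne`),
`f x = if V x = 0 then 0 else e0 V x` (by `e0_equi`, and `V (act g x) = 0 ↔ V x = 0`), `fi i x = R (x - k i) - x/(1 - ‖x‖²)`, `R` from `exists_reg` with `s/2`.
`E = f'`.  `CoEqui` from the invariance.  Note `V x = x - k i ≠ 0` near every point of `closedBall (k i) s` other than `k i`... precisely: for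
`s/2 < ‖x - k i‖ < s` we have `V y = y - k i` near `x`, so `e0 V x = fi i x` (`e0_zero`).
Local analysis at `x` (`‖x‖ < 1`) by the last statement of `patch`.  First alternative: near `x` `E = f` and no point is in a translate of a `O i`, so `V ≠ 0` near `x`
(`hV0`: a zero `x'` has `act g x' = k i ∈ O i`), and `E = e0 V` near `x`: smooth (`e0_smooth`), `dz E = dz (e0 V)` (`e0_dz`).
Second alternative `(g, i)`, `‖act g x - k i‖ ≤ s`.  If `‖act g x - k i‖ < s`: near `x` `E (act g x') = fi i (act g x')`.  If `‖act g x - k i‖ = s`: near `x`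
`s/2 < ‖act g x' - k i‖`, so `E (act g x') = e0 V (act g x')` in both cases (`V (act g x) = act g x - k i ≠ 0`, so `V ≠ 0` near `act g x`).  In both cases
`E (act g x') = h (act g x')` near `x` with `h` `C¹` at `act g x` and `(dz h (act g x)).re ≤ -1/(1 - ‖act g x‖²)²` (for `fi i`: `dz (x/(1-‖x‖²)) = 1/(1-‖x‖²)²`), and
`E x' = h (act g x') * conj (dact g x')`: smooth (`act_smooth`, `dact_smooth`), and `dz E x = dz h (act g x) * dact g x * conj (dact g x)` (`dz_comp`, `dz_conj`,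
`dzb (dact g) = 0`), so `re (dz E x) = ‖dact g x‖² re (dz h (act g x)) ≤ - ‖dact g x‖²/(1 - ‖act g x‖²)² = -1/(1-‖x‖²)²` (`act_conf`).
-/

namespace TN
open Metric Set Filter Topology DS MeasureTheory

variable {Γ : Type} [Group Γ]

theorem EF_dact_deriv (F : Fuchs Γ) (g : Γ) {x : ℂ} (hx : ‖x‖ ≤ 1) :
    ∃ D, HasDerivAt (F.dact g) D x := by
  have h0 := den_ne (F.hb g) hx
  have h1 : DifferentiableAt ℂ (fun y : ℂ => F.u g * (1 - (starRingEnd ℂ) (F.b g) * F.b g) /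
      (1 - (starRingEnd ℂ) (F.b g) * y) ^ 2) x := by
    refine DifferentiableAt.fun_div (differentiableAt_const _) ?_ (pow_ne_zero 2 h0)
    fun_prop
  exact ⟨_, h1.hasDerivAt⟩

theorem EF_loc (F : Fuchs Γ) {E h : ℂ → ℂ} {g : Γ} {x : ℂ} (hx : ‖x‖ < 1)
    (hh : ContDiffAt ℝ 1 h (F.act g x))
    (hdz : (dz h (F.act g x)).re ≤ -1 / (1 - ‖F.act g x‖ ^ 2) ^ 2)
    (hE : ∀ᶠ x' in 𝓝 x, E x' = h (F.act g x') * (starRingEnd ℂ) (F.dact g x')) :
    ContDiffAt ℝ 1 E x ∧ (dz E x).re ≤ -1 / (1 - ‖x‖ ^ 2) ^ 2 := by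
  have hxb : ball (0:ℂ) 1 ∈ 𝓝 x := isOpen_ball.mem_nhds (mem_ball_zero_iff.2 hx)
  have ha : ContDiffAt ℝ 1 (F.act g) x := (act_smooth F g (n := 1)).contDiffAt hxb
  have hda : ContDiffAt ℝ 1 (F.dact g) x := (dact_smooth F g (n := 1)).contDiffAt hxb
  have h1 : ContDiffAt ℝ 1 (fun y => h (F.act g y)) x := hh.comp x ha
  have h2 : ContDiffAt ℝ 1 (fun y => (starRingEnd ℂ) (F.dact g y)) x :=
    (Complex.conjCLE : ℂ →L[ℝ] ℂ).contDiff.contDiffAt.comp x hda
  have h3 : ContDiffAt ℝ 1 (fun y => h (F.act g y) * (starRingEnd ℂ) (F.dact g y)) x := h1.mul h2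
  refine ⟨h3.congr_of_eventuallyEq hE, ?_⟩
  rw [(dz_congr hE).1, (dz_mul (h1.differentiableAt (by norm_num))
    (h2.differentiableAt (by norm_num))).1,
    (dz_comp (hh.differentiableAt (by norm_num)) (act_hasDerivAt F g hx.le)).1,
    (dz_conj (hda.differentiableAt (by norm_num))).1]
  obtain ⟨D, hD⟩ := EF_dact_deriv F g hx.le
  rw [(dz_holo hD).2, map_zero, mul_zero, add_zero, mul_assoc, Complex.mul_conj,
    Complex.re_mul_ofReal, Complex.normSq_eq_norm_sq]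
  have h4 := act_conf F g hx.le
  have h5 : 0 < ‖F.dact g x‖ := norm_pos_iff.2 (dact_ne F g hx.le)
  have h6 : 0 < 1 - ‖x‖ ^ 2 := by nlinarith [norm_nonneg x]
  rw [h4] at hdz
  calc (dz h (F.act g x)).re * ‖F.dact g x‖ ^ 2
      ≤ (-1 / (‖F.dact g x‖ * (1 - ‖x‖ ^ 2)) ^ 2) * ‖F.dact g x‖ ^ 2 :=
        mul_le_mul_of_nonneg_right hdz (sq_nonneg _)
    _ = -1 / (1 - ‖x‖ ^ 2) ^ 2 := by
        field_simp

theorem EF_fi {R : ℂ → ℂ} (hR : ContDiff ℝ 1 R) (hR2 : ∀ z, (dz R z).re ≤ 0) (k : ℂ) {x : ℂ}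
    (hx : ‖x‖ < 1) :
    ContDiffAt ℝ 1 (fun x => R (x - k) - x / ((1 - ‖x‖ ^ 2 : ℝ) : ℂ)) x ∧
      (dz (fun x => R (x - k) - x / ((1 - ‖x‖ ^ 2 : ℝ) : ℂ)) x).re ≤ -1 / (1 - ‖x‖ ^ 2) ^ 2 := by
  have h6 : 0 < 1 - ‖x‖ ^ 2 := by nlinarith [norm_nonneg x]
  have h6' : ((1 - ‖x‖ ^ 2 : ℝ) : ℂ) ≠ 0 := Complex.ofReal_ne_zero.2 h6.ne'
  have c1 : ContDiffAt ℝ 1 (fun x : ℂ => R (x - k)) x :=
    (hR.comp (contDiff_id.sub contDiff_const)).contDiffAt
  have c2 : ContDiffAt ℝ 1 (fun x : ℂ => ((‖x‖ ^ 2 : ℝ) : ℂ)) x := by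
    have : ContDiff ℝ 1 (fun x : ℂ => ((‖x‖ ^ 2 : ℝ) : ℂ)) :=
      Complex.ofRealCLM.contDiff.comp (contDiff_norm_sq ℝ)
    exact this.contDiffAt
  have e1 : (fun x : ℂ => ((1 - ‖x‖ ^ 2 : ℝ) : ℂ)) = fun x : ℂ => 1 - ((‖x‖ ^ 2 : ℝ) : ℂ) := by
    funext y
    push_cast
    rfl
  have c3 : ContDiffAt ℝ 1 (fun x : ℂ => ((1 - ‖x‖ ^ 2 : ℝ) : ℂ)) x := by
    rw [e1]
    exact contDiffAt_const.sub c2
  have c4 : ContDiffAt ℝ 1 (fun x : ℂ => x / ((1 - ‖x‖ ^ 2 : ℝ) : ℂ)) x := by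
    have := contDiffAt_id.mul (c3.inv h6')
    refine this.congr_of_eventuallyEq (Eventually.of_forall fun y => ?_)
    exact div_eq_mul_inv _ _
  refine ⟨c1.sub c4, ?_⟩
  have d1 := c1.differentiableAt (by norm_num)
  have d2 := c2.differentiableAt (by norm_num)
  have d3 := c3.differentiableAt (by norm_num)
  have d4 := c4.differentiableAt (by norm_num)
  have hid : DifferentiableAt ℝ (fun y : ℂ => y) x := differentiableAt_id
  have hz3 : dz (fun x : ℂ => ((1 - ‖x‖ ^ 2 : ℝ) : ℂ)) x = -(starRingEnd ℂ) x := by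
    rw [e1, (dz_sub (differentiableAt_const 1) d2).1, (dz_const 1 x).1, (dz_normSq x).1, zero_sub]
  have hz1 : dz (fun x : ℂ => R (x - k)) x = dz R (x - k) := by
    have h := (dz_comp (f := R) (g := fun y => y - k) (x := x) (g' := 1)
      ((hR.differentiable (by norm_num)) _) ((hasDerivAt_id x).sub_const k)).1
    rw [h, mul_one]
  have hid1 : dz (fun y : ℂ => y) x = 1 := (dz_holo (hasDerivAt_id x)).1
  have hz4 : dz (fun x : ℂ => x / ((1 - ‖x‖ ^ 2 : ℝ) : ℂ)) x = ((1 / (1 - ‖x‖ ^ 2) ^ 2 : ℝ) : ℂ) := by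
    rw [(dz_div hid d3 h6').1, hz3, hid1]
    have h7 : 1 * ((1 - ‖x‖ ^ 2 : ℝ) : ℂ) - x * -(starRingEnd ℂ) x = 1 := by
      rw [mul_neg, Complex.mul_conj, Complex.normSq_eq_norm_sq]
      push_cast
      ring
    rw [h7]
    push_cast
    ring
  rw [(dz_sub d1 d4).1, hz1, hz4, Complex.sub_re, Complex.ofReal_re]
  have h8 := hR2 (x - k)
  have h9 : -1 / (1 - ‖x‖ ^ 2) ^ 2 = -(1 / (1 - ‖x‖ ^ 2) ^ 2) := by ring
  rw [h9]
  linarith

theorem exists_form (F : Fuchs Γ) {m : ℕ} {k : Fin m → ℂ} {s : ℝ} (hs : 0 < s)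
    (hb : ∀ i, closedBall (k i) s ⊆ ball 0 1)
    (hd : ∀ i j g, (g ≠ 1 ∨ i ≠ j) → Disjoint (F.act g '' closedBall (k i) s) (closedBall (k j) s))
    {V : ℂ → ℂ} (hV : ContDiffOn ℝ 2 V (ball 0 1)) (hVe : F.Equi V)
    (hVk : ∀ i, ∀ x ∈ closedBall (k i) s, V x = x - k i)
    (hV0 : ∀ x ∈ ball (0:ℂ) 1, V x = 0 → ∃ g i, F.act g x = k i) :
    ∃ E : ℂ → ℂ, ContDiffOn ℝ 1 E (ball 0 1) ∧ F.CoEqui E ∧
      (∀ x ∈ ball (0:ℂ) 1, (dz E x).re ≤ -1 / (1 - ‖x‖ ^ 2) ^ 2) ∧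
      ∀ x ∈ ball (0:ℂ) 1, (∀ g i, F.act g x ∉ closedBall (k i) s) → E x = e0 V x := by
  classical
  obtain ⟨R, hR1, hR2, hR3⟩ := exists_reg (half_pos hs)
  have hcl : ∀ i, closure (ball (k i) s) = closedBall (k i) s := fun i => closure_ball _ hs.ne'
  set f : ℂ → ℂ := fun x => if V x = 0 then 0 else e0 V x with hf_def
  set fi : Fin m → ℂ → ℂ := fun i x => R (x - k i) - x / ((1 - ‖x‖ ^ 2 : ℝ) : ℂ) with hfi_def
  obtain ⟨E, q1, q2, q3, q4⟩ := patch F (O := fun i => ball (k i) s) (fun i => isOpen_ball)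
    (fun i => by rw [hcl]; exact hb i)
    (fun i j g h => by rw [hcl, hcl]; exact hd i j g h)
    (J := fun g x => ((starRingEnd ℂ) (F.dact g x))⁻¹)
    (fun x hx => by
      have h1 : F.dact 1 x = 1 := dact_one F (mem_ball_zero_iff.1 hx).le
      simp only [h1, map_one, inv_one])
    (fun g h x hx => by
      simp only [dact_mul F g h (mem_ball_zero_iff.1 hx).le, map_mul, mul_inv])
    (f := f)
    (fun g x hx => by
      have h1 := dact_ne F g (mem_ball_zero_iff.1 hx).le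
      have h2 := hVe g x hx
      by_cases hV0 : V x = 0
      · have h3 : V (F.act g x) = 0 := by rw [h2, hV0, mul_zero]
        simp only [hf_def, if_pos hV0, if_pos h3, mul_zero]
      · have h3 : V (F.act g x) ≠ 0 := by rw [h2]; exact mul_ne_zero h1 hV0
        simp only [hf_def, if_neg hV0, if_neg h3]
        have h4 := e0_equi F hV hVe g (mem_ball_zero_iff.1 hx) hV0
        have h5 : (starRingEnd ℂ) (F.dact g x) ≠ 0 := (map_ne_zero _).2 h1
        rw [← h4]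
        field_simp)
    fi
  have hco : F.CoEqui E := by
    intro g x hx
    have h1 : (starRingEnd ℂ) (F.dact g x) ≠ 0 :=
      (map_ne_zero _).2 (dact_ne F g (mem_ball_zero_iff.1 hx).le)
    rw [q1 g x hx]
    field_simp
  have hmain : ∀ x ∈ ball (0:ℂ) 1,
      ContDiffAt ℝ 1 E x ∧ (dz E x).re ≤ -1 / (1 - ‖x‖ ^ 2) ^ 2 := by
    intro x hx
    have hx1 : ‖x‖ < 1 := mem_ball_zero_iff.1 hx
    have hxn : ball (0:ℂ) 1 ∈ 𝓝 x := isOpen_ball.mem_nhds hx
    obtain ⟨δ, hδ, h | ⟨g, i, hgi, h⟩⟩ := q4 x hx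
    · have hne : ∀ x' ∈ ball (0:ℂ) 1, dist x' x < δ → V x' ≠ 0 := by
        intro x' hx' hd' h0
        obtain ⟨g, i, hg⟩ := hV0 x' hx' h0
        apply (h x' hx' hd').2 g i
        rw [hg]
        exact mem_ball_self hs
      have hev : E =ᶠ[𝓝 x] e0 V := by
        filter_upwards [hxn, ball_mem_nhds x hδ] with x' hx' hd'
        rw [(h x' hx' hd').1]
        simp only [hf_def, if_neg (hne x' hx' hd')]
      have h0 := hne x hx (by simpa using hδ)
      refine ⟨(e0_smooth hV hx1 h0).congr_of_eventuallyEq hev, ?_⟩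
      rw [(dz_congr hev).1, e0_dz hV hx1 h0]
    · rw [hcl] at hgi
      have hyb : F.act g x ∈ ball (0:ℂ) 1 := hb i hgi
      have hy1 : ‖F.act g x‖ < 1 := mem_ball_zero_iff.1 hyb
      have hact : ContinuousAt (F.act g) x := (act_hasDerivAt F g hx1.le).continuousAt
      have hE : ∀ᶠ x' in 𝓝 x, E x' = (if F.act g x' ∈ ball (k i) s then fi i (F.act g x') else
          f (F.act g x')) * (starRingEnd ℂ) (F.dact g x') := by
        filter_upwards [hxn, ball_mem_nhds x hδ] with x' hx' hd'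
        rw [← hco g x' hx', h x' hx' hd']
      rcases lt_or_eq_of_le (mem_closedBall.1 hgi) with hlt | heq
      · have hin : ∀ᶠ x' in 𝓝 x, F.act g x' ∈ ball (k i) s :=
          hact.eventually_mem (isOpen_ball.mem_nhds hlt)
        obtain ⟨c1, c2⟩ := EF_fi hR1 hR3 (k i) hy1
        refine EF_loc F hx1 c1 c2 ?_
        filter_upwards [hE, hin] with x' h1 h2
        rw [h1, if_pos h2]
      · have hVy : V (F.act g x) = F.act g x - k i := hVk i _ hgi
        have hVy0 : V (F.act g x) ≠ 0 := by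
          rw [hVy, ← norm_pos_iff, ← dist_eq_norm, heq]
          exact hs
        have hVc : ContinuousAt V (F.act g x) :=
          hV.continuousOn.continuousAt (isOpen_ball.mem_nhds hyb)
        have hin : ∀ᶠ x' in 𝓝 x, V (F.act g x') ≠ 0 :=
          hact.eventually (hVc.eventually_ne hVy0)
        have hfar : ∀ᶠ x' in 𝓝 x, s / 2 < dist (F.act g x') (k i) := by
          have h1 : ContinuousAt (fun x' => dist (F.act g x') (k i)) x :=
            hact.dist continuousAt_const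
          have h1' : s / 2 < dist (F.act g x) (k i) := by
            rw [heq]
            exact half_lt_self hs
          exact h1.eventually (lt_mem_nhds h1')
        refine EF_loc F hx1 (e0_smooth hV hy1 hVy0) (e0_dz hV hy1 hVy0).le ?_
        filter_upwards [hE, hin, hfar, hxn] with x' h1 h2 h3 h4
        rw [h1]
        congr 1
        split_ifs with h5
        · have h6 : F.act g x' ≠ k i := by
            intro h7
            rw [h7, dist_self] at h3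
            linarith
          have h7 : ∀ᶠ y in 𝓝 (F.act g x'), V y = y - k i := by
            filter_upwards [isOpen_ball.mem_nhds h5] with y hy
            exact hVk i y (ball_subset_closedBall hy)
          rw [e0_zero (act_lt F g (mem_ball_zero_iff.1 h4)) h6 h7]
          simp only [hfi_def]
          rw [hR2 _ (by rw [← dist_eq_norm]; exact h3.le)]
        · simp only [hf_def, if_neg h2]
  refine ⟨E, fun x hx => (hmain x hx).1.contDiffWithinAt, hco, fun x hx => (hmain x hx).2, ?_⟩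
  intro x hx hno
  have h1 : V x ≠ 0 := by
    intro h0
    obtain ⟨g, i, hg⟩ := hV0 x hx h0
    apply hno g i
    rw [hg]
    exact mem_closedBall_self hs.le
  rw [q3 x hx fun g i hgi => hno g i (ball_subset_closedBall hgi)]
  simp only [hf_def, if_neg h1]

end TN

end S_H60_PH_EF

section S_H60_PH_PC

/-!
PC (a partition function for the core).  By `Gaps.coc` with `y = b` there is `ρ < 1` such that every `x` of the disc all of whose heights
are `≥ b` has a translate in `closedBall 0 ρ`.  Let `β` be a `ContDiffBump` at `0` equal to one on `closedBall 0 (max ρ 0)`, with support in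
`closedBall 0 r`, `r < 1`.  `F.S β` is smooth on the disc (`S_smooth`), `≥ 0`, invariant, and `≥ 1` at points all of whose heights are `≥ b`
(`S_ge`).  `ψ₁ x = χ₁ x * β x / F.S β x` for `‖x‖ < 1`, `0` otherwise.  Smooth at `x`, `‖x‖ < 1`: if `F.S β x > 0` clear.
If `F.S β x = 0` then some height at `x` is `< b`, so is the same height at `x'` near `x` (`ht_lip`), and `χ₁ x' = c₁ (..) = 0`
(`Cut.eq`): `ψ₁ = 0` near `x`.  `contDiff_of_supp`.  `F.S ψ₁ = χ₁ * (F.S β)⁻¹ * F.S β` by `S_mul` (with the invariant function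
`χ₁ / F.S β`), and `χ₁ x = 0` where `F.S β x = 0`.
-/

namespace TN
open Metric Set Filter Topology DS MeasureTheory

variable {Γ : Type} [Group Γ]

theorem exists_psi1 (F : Fuchs Γ) {n : ℕ} {κ : Fin n → Γ} {p q : Fin n → ℂ} (G : Gaps F n κ p q)
    {b c : ℝ} {c₁ : ℝ → ℝ} (hc₁ : Step b c c₁) (hb : 0 < b) (hb2 : b < Real.pi / 2) {χ₁ : ℂ → ℝ}
    (hχ₁ : Cut F p q c₁ χ₁) :
    ∃ (ψ₁ : ℂ → ℝ) (r : ℝ), r < 1 ∧ ContDiff ℝ 2 ψ₁ ∧ (∀ x, 0 ≤ ψ₁ x) ∧ (∀ x, r < ‖x‖ → ψ₁ x = 0) ∧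
      (∀ x ∈ ball (0:ℂ) 1, χ₁ x = 0 → ψ₁ x = 0) ∧ ∀ x ∈ ball (0:ℂ) 1, F.S ψ₁ x = χ₁ x := by
  obtain ⟨ρ, hρ, hcoc⟩ := G.coc b hb
  have hρ' : max ρ 0 < 1 := max_lt hρ one_pos
  have hρ0 : 0 ≤ max ρ 0 := le_max_right _ _
  let β : ContDiffBump (0 : ℂ) :=
    { rIn := (1 + max ρ 0) / 2
      rOut := (1 + (1 + max ρ 0) / 2) / 2
      rIn_pos := by linarith
      rIn_lt_rOut := by linarith }
  have hr : β.rOut < 1 := by
    show (1 + (1 + max ρ 0) / 2) / 2 < 1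
    linarith
  have hβ0 : ∀ x : ℂ, 0 ≤ β x := fun x => β.nonneg
  have hβs : ∀ x : ℂ, β.rOut < ‖x‖ → β x = 0 := by
    intro x hx
    refine β.zero_of_le_dist ?_
    rw [dist_zero_right]
    exact hx.le
  have hβ1 : ∀ x : ℂ, ‖x‖ ≤ ρ → β x = 1 := by
    intro x hx
    refine β.one_of_mem_closedBall ?_
    rw [mem_closedBall_zero_iff]
    show ‖x‖ ≤ (1 + max ρ 0) / 2
    have := le_max_left ρ 0
    linarith
  have hβc : ContDiff ℝ 2 β := β.contDiff
  have hSs : ContDiffOn ℝ 2 (F.S β) (ball 0 1) := S_smooth F (n := 2) hr hβs hβc.contDiffOn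
  -- where the sum vanishes some height is less than `b`
  have hlow : ∀ x ∈ ball (0:ℂ) 1, F.S β x = 0 → ∃ i g, F.ht (p i) (q i) g x < b := by
    intro x hx h0
    by_contra h1
    push Not at h1
    obtain ⟨g, hg⟩ := hcoc x hx h1
    have h2 := S_ge F hr hβs hβ0 g hx
    rw [h0, hβ1 _ hg] at h2
    linarith
  have hcut0 : ∀ x ∈ ball (0:ℂ) 1, (∃ i g, F.ht (p i) (q i) g x < b) → χ₁ x = 0 := by
    intro x hx h1
    obtain ⟨i, g, hg⟩ := h1
    rw [hχ₁.eq (mem_ball_zero_iff.1 hx) (hg.trans hb2)]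
    exact hc₁.zero _ hg.le
  have hψ0 : ∀ x, 0 ≤ χ₁ x * β x / F.S β x := by
    intro x
    have hS := S_nonneg F hβ0 x
    by_cases hx : ‖x‖ < 1
    · exact div_nonneg (mul_nonneg (hχ₁.nonneg x (mem_ball_zero_iff.2 hx)) (hβ0 x)) hS
    · rw [hβs x (by linarith [not_lt.1 hx]), mul_zero, zero_div]
  have hψs : ∀ x, β.rOut < ‖x‖ → χ₁ x * β x / F.S β x = 0 := by
    intro x hx
    rw [hβs x hx, mul_zero, zero_div]
  refine ⟨fun x => χ₁ x * β x / F.S β x, β.rOut, hr, ?_, hψ0, hψs, ?_, ?_⟩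
  · refine contDiff_of_supp (n := 2) ?_ hr hψs
    intro x hx
    by_cases h0 : F.S β x = 0
    · obtain ⟨i, g, hg⟩ := hlow x hx h0
      obtain ⟨δ, hδ, H⟩ := ht_lip F G (mem_ball_zero_iff.1 hx) (sub_pos.2 hg)
      have h1 : (fun y => χ₁ y * β y / F.S β y) =ᶠ[𝓝 x] fun _ => (0 : ℝ) := by
        filter_upwards [ball_mem_nhds x hδ, isOpen_ball.mem_nhds hx] with y hy hy1
        have h2 := abs_lt.1 (H y hy1 hy i g)
        rw [hcut0 y hy1 ⟨i, g, by linarith [h2.2]⟩, zero_mul, zero_div]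
      exact (contDiffAt_const.congr_of_eventuallyEq h1).contDiffWithinAt
    · exact ((hχ₁.smooth x hx).mul hβc.contDiffAt.contDiffWithinAt).div (hSs x hx) h0
  · intro x _ h
    simp only [h, zero_mul, zero_div]
  · intro x hx
    have hinv : F.Invt (fun y => χ₁ y / F.S β y) := by
      intro g y hy
      simp only
      rw [hχ₁.invt g y hy, S_inv F β g (mem_ball_zero_iff.1 hy).le]
    have h1 := S_mul F hinv β hx
    have h2 : (fun y => χ₁ y * β y / F.S β y) = fun y => (χ₁ y / F.S β y) * β y := by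
      funext y
      ring
    rw [h2, h1]
    by_cases h0 : F.S β x = 0
    · rw [hcut0 x hx (hlow x hx h0), zero_div, zero_mul]
    · rw [div_mul_cancel₀ _ h0]

end TN

end S_H60_PH_PC

section S_H60_PH_PU

/-!
PU (the partition of unity).  `ψ₁` from `exists_psi1`; the functions `psiI` are smooth with support in smaller discs (`psiI_smooth`, `a/2`,
`c`, `R = l i`), take the maximum `r` of finitely many radii.  Sum at a point `x` all of whose heights are `≥ a`: `F.S` is additive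
(`S_add`, induction over the finite set of the `i`).  If some height `h = F.ht (p i) (q i) g x` is `< π/2`: then `F.S ψ₁ x = χ₁ x = c₁ h` (`Cut.eq`),
`F.S (psiI .. i) x = (1 - c₁ h) * d h = 1 - c₁ h` as `h ≥ a`, and for `j ≠ i` all heights are `≥ π/2` (`ht_disj`), so
`F.S (psiI .. j) x = 0`.  If all heights are `≥ π/2` then `χ₁ x = 1` and all `F.S (psiI ..) x = 0`.
-/

namespace TN
open Metric Set Filter Topology DS MeasureTheory

variable {Γ : Type} [Group Γ]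

theorem PU_sum (F : Fuchs Γ) {ι : Type} (s : Finset ι) {f : ι → ℂ → ℝ} {r : ℝ} (hr : r < 1)
    (hf : ∀ i, ∀ x, r < ‖x‖ → f i x = 0) {x : ℂ} (hx : x ∈ ball (0:ℂ) 1) :
    F.S (fun y => ∑ i ∈ s, f i y) x = ∑ i ∈ s, F.S (f i) x := by
  classical
  induction s using Finset.induction_on with
  | empty =>
    simp only [Finset.sum_empty]
    unfold Fuchs.S
    exact finsum_zero
  | insert a s ha ih =>
    have h1 : (fun y => ∑ i ∈ insert a s, f i y) = fun y => f a y + ∑ i ∈ s, f i y := by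
      funext y
      rw [Finset.sum_insert ha]
    rw [h1, S_add F hr (hf a) (fun y hy => Finset.sum_eq_zero fun i _ => hf i y hy) hx, ih,
      Finset.sum_insert ha]

theorem PU_cut {F : Fuchs Γ} {n : ℕ} {p q : Fin n → ℂ} {c : ℝ → ℝ} {χ : ℂ → ℝ} (hχ : Cut F p q c χ)
    {x : ℂ} (hx : x ∈ ball (0:ℂ) 1) {i : Fin n} {g : Γ} (h : F.ht (p i) (q i) g x < Real.pi / 2) :
    χ x = c (F.ht (p i) (q i) g x) := by
  rw [← hχ.invt g x hx]
  exact hχ.near i _ (mem_ball_zero_iff.2 (act_lt F g (mem_ball_zero_iff.1 hx))) h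

theorem exists_pu (F : Fuchs Γ) {n : ℕ} {κ : Fin n → Γ} {p q : Fin n → ℂ} (G : Gaps F n κ p q)
    {l : Fin n → ℝ} (hl0 : ∀ i, 0 < l i)
    (hl : ∀ i, ∀ x ∈ ball (0:ℂ) 1, om (p i) (q i) (F.act (κ i) x) = om (p i) (q i) x + l i)
    {a b c : ℝ} (ha : 0 < a) (hab : a < b) (hbc : b < c) (hc : c < Real.pi / 2) {c₁ d : ℝ → ℝ}
    (hc₁ : Step b c c₁) (hd : Step (a / 2) a d) {τ : Fin n → ℝ → ℝ} (hτ : ∀ i, Tau (l i) (τ i))
    {χ₁ : ℂ → ℝ} (hχ₁ : Cut F p q c₁ χ₁) :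
    ∃ (ψ₁ : ℂ → ℝ) (r : ℝ), r < 1 ∧ ContDiff ℝ 2 ψ₁ ∧ (∀ x, 0 ≤ ψ₁ x) ∧ (∀ x, r < ‖x‖ → ψ₁ x = 0) ∧
      (∀ x ∈ ball (0:ℂ) 1, χ₁ x = 0 → ψ₁ x = 0) ∧ (∀ x ∈ ball (0:ℂ) 1, F.S ψ₁ x = χ₁ x) ∧
      (∀ i, ContDiff ℝ 2 (psiI (p i) (q i) (τ i) (fun t => (1 - c₁ t) * d t))) ∧
      (∀ i, ∀ x, r < ‖x‖ → psiI (p i) (q i) (τ i) (fun t => (1 - c₁ t) * d t) x = 0) ∧
      (∀ i x, 0 ≤ psiI (p i) (q i) (τ i) (fun t => (1 - c₁ t) * d t) x) ∧
      ∀ x ∈ ball (0:ℂ) 1, (∀ i g, a ≤ F.ht (p i) (q i) g x) →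
        F.S (fun y => ψ₁ y + ∑ i, psiI (p i) (q i) (τ i) (fun t => (1 - c₁ t) * d t) y) x = 1 := by
  classical
  have hpi := Real.pi_pos
  obtain ⟨ψ₁, r₁, hr₁, h1, h2, h3, h4, h5⟩ := exists_psi1 F G hc₁ (ha.trans hab) (hbc.trans hc) hχ₁
  have hρs : ContDiff ℝ 2 (fun t => (1 - c₁ t) * d t) := (contDiff_const.sub hc₁.smooth).mul hd.smooth
  have hρ0 : ∀ t, t ≤ a / 2 ∨ c ≤ t → (1 - c₁ t) * d t = 0 := by
    intro t ht
    rcases ht with ht | ht
    · rw [hd.zero t ht, mul_zero]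
    · rw [hc₁.one t ht, sub_self, zero_mul]
  have hsm : ∀ i, ContDiff ℝ 2 (psiI (p i) (q i) (τ i) (fun t => (1 - c₁ t) * d t)) ∧
      ∃ r : ℝ, r < 1 ∧ ∀ x, r < ‖x‖ → psiI (p i) (q i) (τ i) (fun t => (1 - c₁ t) * d t) x = 0 := by
    intro i
    refine psiI_smooth (G.ar i).np (G.ar i).nq (G.ar i).ne (hτ i).smooth hρs (R := l i) (a := a / 2)
      (c := c) (by linarith) (by linarith) (hτ i).supp hρ0
  choose hs1 ri hri1 hri2 using hsm
  obtain ⟨r, hr, hrr₁, hrri⟩ : ∃ r : ℝ, r < 1 ∧ r₁ ≤ r ∧ ∀ i, ri i ≤ r := by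
    have hne : (insert r₁ (Finset.univ.image ri)).Nonempty := Finset.insert_nonempty _ _
    refine ⟨(insert r₁ (Finset.univ.image ri)).max' hne, ?_, ?_, ?_⟩
    · rw [Finset.max'_lt_iff]
      intro y hy
      rw [Finset.mem_insert] at hy
      rcases hy with rfl | hy
      · exact hr₁
      · rw [Finset.mem_image] at hy
        obtain ⟨i, _, rfl⟩ := hy
        exact hri1 i
    · exact Finset.le_max' _ _ (Finset.mem_insert_self _ _)
    · intro i
      exact Finset.le_max' _ _ (Finset.mem_insert_of_mem (Finset.mem_image_of_mem _ (Finset.mem_univ i)))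
  have hψs : ∀ x, r < ‖x‖ → ψ₁ x = 0 := fun x hx => h3 x (hrr₁.trans_lt hx)
  have hps : ∀ i, ∀ x, r < ‖x‖ → psiI (p i) (q i) (τ i) (fun t => (1 - c₁ t) * d t) x = 0 :=
    fun i x hx => hri2 i x ((hrri i).trans_lt hx)
  refine ⟨ψ₁, r, hr, h1, h2, hψs, h4, h5, hs1, hps, ?_, ?_⟩
  · intro i x
    unfold psiI
    split_ifs
    · exact mul_nonneg ((hτ i).nonneg _) (mul_nonneg (sub_nonneg.2 (hc₁.le_one _)) (hd.nonneg _))
    · exact le_rfl
  · intro x hx hhx
    have hx1 : ‖x‖ < 1 := mem_ball_zero_iff.1 hx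
    rw [S_add F hr hψs (fun y hy => Finset.sum_eq_zero fun i _ => hps i y hy) hx,
      PU_sum F Finset.univ hr hps hx, h5 x hx]
    have hρc : ∀ t, c ≤ t → (1 - c₁ t) * d t = 0 := fun t ht => hρ0 t (Or.inr ht)
    have hSp := fun i => S_psiI F G i (hl i) (hτ i) (ρ := fun t => (1 - c₁ t) * d t) hc hρc hx1
    by_cases hex : ∃ i g, F.ht (p i) (q i) g x < Real.pi / 2
    · obtain ⟨i, g, hg⟩ := hex
      rw [PU_cut hχ₁ hx hg, Finset.sum_eq_single i]
      · rw [(hSp i).1 g hg, hd.one _ (hhx i g)]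
        ring
      · intro j _ hj
        refine (hSp j).2 fun h => ?_
        by_contra hlt
        push Not at hlt
        exact hj (ht_disj F G hx1 hg hlt).1.symm
      · intro h
        exact absurd (Finset.mem_univ i) h
    · push Not at hex
      rw [hχ₁.far x hx hex, Finset.sum_eq_zero fun i _ => (hSp i).2 (hex i), add_zero]

end TN

end S_H60_PH_PU

section S_H60_PH_Q1

/-!
Q1 (the boundary term).  Write `ψI i = psiI (p i) (q i) (τ i) (fun t => (1 - c₁ t) * d t)`.  Let `‖x‖ < 1`.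
(1) `ψ₁ x * dz χ₀ x = 0`: if some height at `x` is `< b` then `χ₁ x = c₁ (..) = 0` (`Cut.eq`) and `ψ₁ x = 0`; if all heights are `≥ b` then all heights at
points `x'` near `x` are `≥ a₁` (`ht_lip` with `η = b - a₁`) and `χ₀ x' = 1` (`Cut.eq_one`), so `dz χ₀ x = 0`.
(2) `ψI i x * dz χ₀ x * E x = ‖omD x‖² * (τ i (re om x) * k (im om x))` with `k y = (1/4) * deriv c₀ y * (2 π w i / l i + cos y / sin y)`: let `y = im (om (p i) (q i) x)`.
If `y ≥ c` both sides vanish (`deriv c₀ y = 0` as `y ≥ a₁`: `step_deriv`).  If `y < c < π/2`: near `x` `χ₀ = c₀ (im om)` (`Cut.near`), so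
`dz χ₀ x = deriv c₀ y * omD x / (2 I)` (`dz_real`, `dz_im`); if `deriv c₀ y ≠ 0` then `a ≤ y ≤ a₁ < b` and `a₁ < y₀`, so `c₁ y = 0`, `d y = 1`, and `E x` is
given by `hE`; multiply: `(omD/(2I)) * (I/2) * conj omD = ‖omD‖²/4`.
(3) `strip_prod`: the integral of (2) is `(∫ τ i) * ∫_0^π k = l i * (1/4) (2 π w i / l i * 1 + J)` (`step_int`, `Tau.int`); `integral_ofReal`, sum over `i`
(each summand is integrable: continuous with compact support, or bounded measurable; in (3) use `integral_finsetSum`).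
-/

namespace TN
open Metric Set Filter Topology DS MeasureTheory

variable {Γ : Type} [Group Γ]

theorem Q1_om_cont {p q : ℂ} (hp : ‖p‖ = 1) (hq : ‖q‖ = 1) (hpq : p ≠ q) :
    ContinuousOn (om p q) (ball 0 1) := fun x hx =>
  (om_hasDerivAt hp hq hpq (by simpa using hx)).continuousAt.continuousWithinAt

theorem Q1_int {p q : ℂ} (hp : ‖p‖ = 1) (hq : ‖q‖ = 1) (hpq : p ≠ q) {l a a₁ : ℝ} {τ k : ℝ → ℝ}
    (hτ : Tau l τ) (ha : 0 < a) (ha₁ : a₁ < Real.pi) (hk : ContinuousOn k (Ioo 0 Real.pi))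
    (hk0 : ∀ t, t ≤ a ∨ a₁ ≤ t → k t = 0) :
    IntegrableOn (fun x => ‖omD p q x‖ ^ 2 * (τ (om p q x).re * k (om p q x).im)) (ball 0 1) := by
  have hlt : ∀ x ∈ ball (0:ℂ) 1, ‖x‖ < 1 := fun x hx => by simpa using hx
  have hcont : ContinuousOn (fun x => ‖omD p q x‖ ^ 2 * (τ (om p q x).re * k (om p q x).im))
      (ball 0 1) := by
    have h1 : ContinuousOn (omD p q) (ball 0 1) := by
      intro x hx
      have hx' := hlt x hx
      have hxp : x ≠ p := by rintro rfl; linarith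
      have hxq : x ≠ q := by rintro rfl; linarith
      apply ContinuousAt.continuousWithinAt
      unfold omD
      refine ContinuousAt.div continuousAt_const (by fun_prop) ?_
      exact mul_ne_zero (sub_ne_zero.2 hxq) (sub_ne_zero.2 (Ne.symm hxp))
    have h2 := Q1_om_cont hp hq hpq
    have h3 : ContinuousOn (fun x => τ (om p q x).re) (ball 0 1) :=
      (hτ.smooth.continuous.comp Complex.continuous_re).comp_continuousOn h2
    have h4 : ContinuousOn (fun x => k (om p q x).im) (ball 0 1) := by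
      refine hk.comp (Complex.continuous_im.comp_continuousOn h2) ?_
      intro x hx
      exact om_im_pos hp hq hpq (hlt x hx)
    exact (h1.norm.pow 2).mul (h3.mul h4)
  let K : Set ℂ := (fun z : ℝ × ℝ => (z.1 : ℂ) + (z.2 : ℂ) * Complex.I) '' (Icc (-l) l ×ˢ Icc a a₁)
  have hK : IsCompact K := (isCompact_Icc.prod isCompact_Icc).image (by fun_prop)
  have hKS : K ⊆ Str := by
    rintro _ ⟨⟨t, y⟩, ⟨ht, hy⟩, rfl⟩
    simp only [Str, mem_ofPred_eq, Complex.add_im, Complex.ofReal_im, Complex.mul_im,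
      Complex.ofReal_re, Complex.I_im, Complex.I_re, mul_one, mul_zero, zero_add, add_zero]
    exact ⟨by linarith [hy.1], by linarith [hy.2]⟩
  have hL : IsCompact (omi p q '' K) := hK.image_of_continuousOn ((omi_cont hp hq hpq).mono hKS)
  have hLb : ∀ x ∈ omi p q '' K, ‖x‖ < 1 := by
    rintro _ ⟨_, ⟨⟨t, y⟩, ⟨ht, hy⟩, rfl⟩, rfl⟩
    apply omi_ball hp hq hpq
    · simp only [Complex.add_im, Complex.ofReal_im, Complex.mul_im,
        Complex.ofReal_re, Complex.I_im, Complex.I_re, mul_one, mul_zero, zero_add, add_zero]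
      linarith [hy.1]
    · simp only [Complex.add_im, Complex.ofReal_im, Complex.mul_im,
        Complex.ofReal_re, Complex.I_im, Complex.I_re, mul_one, mul_zero, zero_add, add_zero]
      linarith [hy.2]
  obtain ⟨r, hr, hrb⟩ : ∃ r < 1, ∀ x ∈ omi p q '' K, ‖x‖ ≤ r := by
    rcases (omi p q '' K).eq_empty_or_nonempty with h | h
    · exact ⟨0, one_pos, by rw [h]; simp⟩
    · obtain ⟨z, hz, hz2⟩ := hL.exists_isMaxOn h continuous_norm.continuousOn
      exact ⟨‖z‖, hLb z hz, fun x hx => hz2 hx⟩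
  have h1 : IntegrableOn (fun x => ‖omD p q x‖ ^ 2 * (τ (om p q x).re * k (om p q x).im))
      (closedBall 0 r) :=
    (hcont.mono (closedBall_subset_ball hr)).integrableOn_compact (isCompact_closedBall _ _)
  refine h1.of_forall_sdiff_eq_zero measurableSet_ball fun x hx => ?_
  have hx1 : ‖x‖ < 1 := hlt x hx.1
  have h2 := hx.2
  rw [mem_closedBall_zero_iff, not_le] at h2
  by_contra h3
  apply absurd h2
  rw [not_lt]
  apply hrb
  have hD : x ∈ Dpq p q := ⟨hx1.le, by rintro rfl; linarith, by rintro rfl; linarith⟩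
  refine ⟨om p q x, ⟨((om p q x).re, (om p q x).im), ⟨?_, ?_⟩, ?_⟩, omi_om hp hq hpq hD⟩
  · have : ¬ l ≤ |(om p q x).re| := by
      intro h4
      apply h3
      rw [hτ.supp _ h4]
      ring
    exact abs_le.1 (not_le.1 this).le
  · have : ¬ ((om p q x).im ≤ a ∨ a₁ ≤ (om p q x).im) := by
      intro h4
      apply h3
      rw [hk0 _ h4]
      ring
    push Not at this
    exact ⟨this.1.le, this.2.le⟩
  · exact Complex.re_add_im _

noncomputable def Q1_k (c₀ : ℝ → ℝ) (A : ℝ) (y : ℝ) : ℝ :=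
  1 / 4 * (deriv c₀ y * A + deriv c₀ y * (Real.cos y / Real.sin y))

theorem Q1_cot {a a₁ : ℝ} {c₀ : ℝ → ℝ} (hc₀ : Step a a₁ c₀) (ha : 0 < a) (ha₁ : a₁ < Real.pi) :
    Continuous (fun t => deriv c₀ t) ∧
      ContinuousOn (fun t => deriv c₀ t * (Real.cos t / Real.sin t)) (Icc 0 Real.pi) := by
  have h1 : Continuous (deriv c₀) := hc₀.smooth.continuous_deriv (by norm_num)
  refine ⟨h1, fun t ht => ?_⟩
  by_cases h2 : t < a
  · have h3 : (fun t => deriv c₀ t * (Real.cos t / Real.sin t)) =ᶠ[𝓝 t] fun _ => 0 := by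
      filter_upwards [Iio_mem_nhds h2] with s hs
      rw [step_deriv hc₀ (Or.inl (le_of_lt hs)), zero_mul]
    exact (continuousAt_const.congr h3.symm).continuousWithinAt
  · by_cases h4 : a₁ < t
    · have h3 : (fun t => deriv c₀ t * (Real.cos t / Real.sin t)) =ᶠ[𝓝 t] fun _ => 0 := by
        filter_upwards [Ioi_mem_nhds h4] with s hs
        rw [step_deriv hc₀ (Or.inr (le_of_lt hs)), zero_mul]
      exact (continuousAt_const.congr h3.symm).continuousWithinAt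
    · have h5 : Real.sin t ≠ 0 := (Real.sin_pos_of_pos_of_lt_pi (by linarith) (by linarith)).ne'
      exact (h1.continuousAt.mul
        (Real.continuous_cos.continuousAt.div Real.continuous_sin.continuousAt h5)).continuousWithinAt

theorem boundary_term (F : Fuchs Γ) {n : ℕ} {κ : Fin n → Γ} {p q : Fin n → ℂ} (G : Gaps F n κ p q)
    {l : Fin n → ℝ} (hl0 : ∀ i, 0 < l i) {w : Fin n → ℤ}
    {a a₁ b c y₀ : ℝ} (ha : 0 < a) (haa : a < a₁) (hay : a₁ < y₀) (hab : a₁ < b) (hbc : b < c)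
    (hc : c < Real.pi / 2) {c₀ c₁ d : ℝ → ℝ} (hc₀ : Step a a₁ c₀) (hc₁ : Step b c c₁)
    (hd : Step (a / 2) a d) {τ : Fin n → ℝ → ℝ} (hτ : ∀ i, Tau (l i) (τ i)) {χ₀ χ₁ : ℂ → ℝ}
    (hχ₀ : Cut F p q c₀ χ₀) (hχ₁ : Cut F p q c₁ χ₁) {ψ₁ : ℂ → ℝ}
    (hψ₁ : ∀ x ∈ ball (0:ℂ) 1, χ₁ x = 0 → ψ₁ x = 0) {E : ℂ → ℂ}
    (hE : ∀ i, ∀ x ∈ ball (0:ℂ) 1, (om (p i) (q i) x).im < y₀ →
      E x = Complex.I / 2 * (starRingEnd ℂ) (omD (p i) (q i) x) *
        ((2 * Real.pi * w i / l i + Real.cos (om (p i) (q i) x).im / Real.sin (om (p i) (q i) x).im : ℝ) : ℂ)) :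
    ∫ x in ball (0:ℂ) 1,
      ((ψ₁ x + ∑ i, psiI (p i) (q i) (τ i) (fun t => (1 - c₁ t) * d t) x : ℝ) : ℂ) *
        dz (fun y => ((χ₀ y : ℝ) : ℂ)) x * E x =
      ((∑ i, 1 / 4 * (2 * Real.pi * w i +
        l i * ∫ t in (0:ℝ)..Real.pi, deriv c₀ t * (Real.cos t / Real.sin t)) : ℝ) : ℂ) := by
  have hlt : ∀ x ∈ ball (0:ℂ) 1, ‖x‖ < 1 := fun x hx => by simpa using hx
  have hpi := Real.pi_pos
  -- step 1
  have s1 : ∀ x ∈ ball (0:ℂ) 1, (ψ₁ x : ℂ) * dz (fun y => ((χ₀ y : ℝ) : ℂ)) x = 0 := by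
    intro x hx
    by_cases h : ∃ i g, F.ht (p i) (q i) g x < b
    · obtain ⟨i, g, hg⟩ := h
      have h1 : χ₁ x = 0 := by
        rw [hχ₁.eq (hlt x hx) (i := i) (g := g) (by linarith)]
        exact hc₁.zero _ hg.le
      rw [hψ₁ x hx h1]
      simp
    · push Not at h
      obtain ⟨δ, hδ, H⟩ := ht_lip F G (hlt x hx) (η := b - a₁) (by linarith)
      have h2 : (fun y => ((χ₀ y : ℝ) : ℂ)) =ᶠ[𝓝 x] fun _ => 1 := by
        filter_upwards [isOpen_ball.mem_nhds hx, ball_mem_nhds x hδ] with y hy hy2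
        have h3 : χ₀ y = 1 := by
          refine hχ₀.eq_one hc₀ (hlt y hy) fun i g => ?_
          have h4 := (abs_lt.1 (H y hy hy2 i g)).1
          linarith [h i g]
        rw [h3]
        simp
      rw [(dz_congr h2).1, (dz_const 1 x).1, mul_zero]
  -- step 2
  have s2 : ∀ i, ∀ x ∈ ball (0:ℂ) 1, (psiI (p i) (q i) (τ i) (fun t => (1 - c₁ t) * d t) x : ℂ) *
      dz (fun y => ((χ₀ y : ℝ) : ℂ)) x * E x =
      ((‖omD (p i) (q i) x‖ ^ 2 * (τ i (om (p i) (q i) x).re *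
        Q1_k c₀ (2 * Real.pi * w i / l i) (om (p i) (q i) x).im) : ℝ) : ℂ) := by
    intro i x hx
    have hx1 := hlt x hx
    have hder := om_hasDerivAt (G.ar i).np (G.ar i).nq (G.ar i).ne hx1
    have hpsi : psiI (p i) (q i) (τ i) (fun t => (1 - c₁ t) * d t) x =
        τ i (om (p i) (q i) x).re * ((1 - c₁ (om (p i) (q i) x).im) * d (om (p i) (q i) x).im) := by
      unfold psiI
      rw [if_pos hx1]
    rw [hpsi]
    by_cases hy : c ≤ (om (p i) (q i) x).im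
    · have e1 := hc₁.one _ hy
      have e2 : deriv c₀ (om (p i) (q i) x).im = 0 := step_deriv hc₀ (Or.inr (by linarith))
      simp only [e1, e2, Q1_k]
      simp
    · push Not at hy
      have e0 : (fun y => ((χ₀ y : ℝ) : ℂ)) =ᶠ[𝓝 x]
          fun y => ((c₀ (om (p i) (q i) y).im : ℝ) : ℂ) := by
        have h1 : ∀ᶠ y in 𝓝 x, (om (p i) (q i) y).im < Real.pi / 2 := by
          have h2 : ContinuousAt (fun y => (om (p i) (q i) y).im) x :=
            Complex.continuous_im.continuousAt.comp hder.continuousAt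
          exact h2.eventually (gt_mem_nhds (by linarith))
        filter_upwards [isOpen_ball.mem_nhds hx, h1] with y hy1 hy2
        rw [hχ₀.near i y hy1 hy2]
      have hsd : DifferentiableAt ℝ (fun y => (om (p i) (q i) y).im) x := by
        have h3 : DifferentiableAt ℝ (om (p i) (q i)) x := hder.differentiableAt.restrictScalars ℝ
        exact Complex.imCLM.differentiableAt.comp x h3
      have hcd : DifferentiableAt ℝ c₀ (om (p i) (q i) x).im :=
        (hc₀.smooth.differentiable (by norm_num)) _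
      have e1 : dz (fun y => ((χ₀ y : ℝ) : ℂ)) x = (deriv c₀ (om (p i) (q i) x).im : ℝ) *
          (omD (p i) (q i) x / (2 * Complex.I)) := by
        rw [(dz_congr e0).1,
          (dz_real (c := c₀) (t := fun _ => 0) (s := fun y => (om (p i) (q i) y).im) hcd hsd).1,
          (dz_im hder).1]
        rfl
      rw [e1]
      by_cases h0 : deriv c₀ (om (p i) (q i) x).im = 0
      · simp only [h0, Q1_k]
        simp
      · have h5 : ¬ ((om (p i) (q i) x).im ≤ a ∨ a₁ ≤ (om (p i) (q i) x).im) := fun h =>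
          h0 (step_deriv hc₀ h)
        push Not at h5
        rw [hc₁.zero _ (by linarith), hd.one _ h5.1.le, hE i x hx (by linarith)]
        have h6 : omD (p i) (q i) x * (starRingEnd ℂ) (omD (p i) (q i) x) =
            ((‖omD (p i) (q i) x‖ ^ 2 : ℝ) : ℂ) := by
          rw [Complex.mul_conj, Complex.normSq_eq_norm_sq]
        simp only [sub_zero, mul_one, Q1_k]
        push_cast at h6 ⊢
        rw [← h6]
        have hI : Complex.I ≠ 0 := Complex.I_ne_zero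
        field_simp
        ring
  -- integrability of the summands
  have hcot := Q1_cot hc₀ ha (by linarith)
  have s3 : ∀ i, IntegrableOn (fun x => ‖omD (p i) (q i) x‖ ^ 2 * (τ i (om (p i) (q i) x).re *
        Q1_k c₀ (2 * Real.pi * w i / l i) (om (p i) (q i) x).im)) (ball 0 1) := by
    intro i
    refine Q1_int (G.ar i).np (G.ar i).nq (G.ar i).ne (hτ i) ha (a₁ := a₁) (by linarith) ?_ ?_
    · have h1 := hcot.2.mono Ioo_subset_Icc_self
      have h2 := hcot.1.continuousOn (s := Ioo 0 Real.pi)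
      unfold Q1_k
      exact continuousOn_const.mul ((h2.mul continuousOn_const).add h1)
    · intro t ht
      rw [Q1_k, step_deriv hc₀ ht]
      ring
  have s4 : ∫ x in ball (0:ℂ) 1,
      ((ψ₁ x + ∑ i, psiI (p i) (q i) (τ i) (fun t => (1 - c₁ t) * d t) x : ℝ) : ℂ) *
        dz (fun y => ((χ₀ y : ℝ) : ℂ)) x * E x =
      ∫ x in ball (0:ℂ) 1, ((∑ i, ‖omD (p i) (q i) x‖ ^ 2 * (τ i (om (p i) (q i) x).re *
        Q1_k c₀ (2 * Real.pi * w i / l i) (om (p i) (q i) x).im) : ℝ) : ℂ) := by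
    refine setIntegral_congr_fun measurableSet_ball fun x hx => ?_
    rw [Complex.ofReal_sum, ← Finset.sum_congr rfl fun i _ => s2 i x hx, Complex.ofReal_add,
      add_mul, s1 x hx, zero_add, Complex.ofReal_sum, Finset.sum_mul, Finset.sum_mul]
  rw [s4, integral_complex_ofReal, integral_finsetSum _ fun i _ => s3 i]
  congr 1
  refine Finset.sum_congr rfl fun i _ => ?_
  rw [strip_prod (G.ar i).np (G.ar i).nq (G.ar i).ne (τ i), (hτ i).int]
  unfold Q1_k
  rw [intervalIntegral.integral_const_mul, intervalIntegral.integral_add,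
    intervalIntegral.integral_mul_const, step_int hc₀ ha.le (by linarith)]
  · have := (hl0 i).ne'
    field_simp
  · exact (hcot.1.mul continuous_const).intervalIntegrable _ _
  · apply ContinuousOn.intervalIntegrable
    rw [uIcc_of_le hpi.le]
    exact hcot.2

end TN

end S_H60_PH_Q1

section S_H60_PH_UN

/-!
UN (unfolding).  Let `t` be the finite set of `fin_supp` for `r' = r`.  For `‖x‖ ≤ r`: `F.S h x = ∑ g ∈ t, h (act g x)` (`S_eq`) and
`F.S f x = ∑ g ∈ t, f (act g⁻¹ x)` (`S_eq_inv`); for `‖x‖ > r` both integrands vanish.  So the left side is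
`∑ g ∈ t, ∫ f x * h (act g x) * T x` (each integrand is continuous on the disc with support in `closedBall 0 r`: `integrable_supp`), the
right side is `∑ g ∈ t, ∫ f (act g⁻¹ y) * h y * T y`.  By `cv` for `g`: `∫ k y = ∫ ‖dact g x‖² k (act g x)` with
`k y = f (act g⁻¹ y) * h y * T y`: `k (act g x) = f x * h (act g x) * T (act g x)`, and `‖dact g x‖² T (act g x) = T x`.
-/

namespace TN
open Metric Set Filter Topology DS MeasureTheory

variable {Γ : Type} [Group Γ]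

theorem unfold_int (F : Fuchs Γ) {f h T : ℂ → ℝ} {r : ℝ} (hr : r < 1)
    (hf : ContinuousOn f (ball 0 1)) (hfs : ∀ x, r < ‖x‖ → f x = 0)
    (hh : ContinuousOn h (ball 0 1)) (hhs : ∀ x, r < ‖x‖ → h x = 0)
    (hT : ContinuousOn T (ball 0 1))
    (hTe : ∀ g, ∀ x ∈ ball (0:ℂ) 1, ‖F.dact g x‖ ^ 2 * T (F.act g x) = T x) :
    ∫ x in ball (0:ℂ) 1, f x * F.S h x * T x = ∫ x in ball (0:ℂ) 1, F.S f x * h x * T x := by
  obtain ⟨t, ht⟩ := fin_supp F hr hr
  have hb : ∀ g, MapsTo (F.act g) (ball (0:ℂ) 1) (ball (0:ℂ) 1) := fun g x hx =>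
    mem_ball_zero_iff.2 (act_lt F g (mem_ball_zero_iff.1 hx))
  have hac : ∀ g, ContinuousOn (F.act g) (ball (0:ℂ) 1) := fun g =>
    (act_cont F g).mono ball_subset_closedBall
  have e1 : ∫ x in ball (0:ℂ) 1, f x * F.S h x * T x =
      ∫ x in ball (0:ℂ) 1, ∑ g ∈ t, f x * h (F.act g x) * T x := by
    refine setIntegral_congr_fun measurableSet_ball fun x _ => ?_
    show f x * F.S h x * T x = ∑ g ∈ t, f x * h (F.act g x) * T x
    by_cases hx : ‖x‖ ≤ r
    · rw [S_eq F hhs ht hx, Finset.mul_sum, Finset.sum_mul]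
    · rw [hfs x (not_le.1 hx)]
      simp only [zero_mul, Finset.sum_const_zero]
  have e2 : ∫ x in ball (0:ℂ) 1, F.S f x * h x * T x =
      ∫ x in ball (0:ℂ) 1, ∑ g ∈ t, f (F.act g⁻¹ x) * h x * T x := by
    refine setIntegral_congr_fun measurableSet_ball fun x _ => ?_
    show F.S f x * h x * T x = ∑ g ∈ t, f (F.act g⁻¹ x) * h x * T x
    by_cases hx : ‖x‖ ≤ r
    · rw [S_eq_inv F hfs ht hx, Finset.sum_mul, Finset.sum_mul]
    · rw [hhs x (not_le.1 hx)]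
      simp only [zero_mul, mul_zero, Finset.sum_const_zero]
  rw [e1, e2, integral_finsetSum, integral_finsetSum]
  · refine Finset.sum_congr rfl fun g _ => ?_
    rw [cv F g (fun y => f (F.act g⁻¹ y) * h y * T y)]
    refine setIntegral_congr_fun measurableSet_ball fun x hx => ?_
    show f x * h (F.act g x) * T x =
      (‖F.dact g x‖ ^ 2) • (f (F.act g⁻¹ (F.act g x)) * h (F.act g x) * T (F.act g x))
    rw [act_inv_act F g (mem_ball_zero_iff.1 hx).le, ← hTe g x hx, smul_eq_mul]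
    ring
  · intro g _
    refine integrable_supp (r := r) (((hf.comp (hac _) (hb _)).mul hh).mul hT) hr fun x hx => ?_
    rw [hhs x hx, mul_zero, zero_mul]
  · intro g _
    refine integrable_supp (r := r) ((hf.mul (hh.comp (hac _) (hb _))).mul hT) hr fun x hx => ?_
    rw [hfs x hx, zero_mul, zero_mul]

end TN

end S_H60_PH_UN

section S_H60_PH_Q2

/-!
Q2 (lower bound for the area term).  Write `T x = 1 / (1 - ‖x‖²)²` (invariant density: `act_conf`), `ψI i` as in Q1.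
Split the integral of the right side (all terms continuous on the disc with support in `closedBall 0 r`: `integrable_supp`):
`∫ χ₀ ψ₁ T + ∑ i, ∫ χ₀ ψI i T`.
(1) `χ₀ x * ψI i x * T x = ‖omD x‖² * (τ i (re om x) * k (im om x))`, `k y = c₀ y (1 - c₁ y) d y / (4 sin² y)`: both sides vanish if `im om x ≥ c`; otherwise
`χ₀ x = c₀ (im om x)` (`Cut.near`) and `‖omD x‖² (1 - ‖x‖²)² = 4 sin² (im om x)` (`om_metric`).  `c₀ y * d y = c₀ y` (`d y = 1` for `y ≥ a`).
By `strip_prod` the integral is `l i * (1/4) ∫_0^π c₀ (1 - c₁) / sin² ≥ l i / 4 * ∫_0^b c₀ / sin²` (nonnegative integrand, `c₁ = 0` on `[0,b]`; the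
integrand is continuous on `[0, π]` because it vanishes on `[0,a]` and on `[c,π]`).
(2) `∫ χ₀ ψ₁ T ≥ ∫ χ₀ ψ₁ (F.S f₀) T` (nonnegative, `F.S f₀ ≤ 1`) `= ∫ F.S (χ₀ ψ₁) f₀ T` (`unfold_int`) `= ∫ χ₀ χ₁ f₀ T` (`S_mul`, `hS₁`)
`= ∫ f₀ T`: where `f₀ x ≠ 0` all heights are `≥ π/2`, so `χ₀ x = χ₁ x = 1` (`Cut.far`).
-/

namespace TN
open Metric Set Filter Topology DS MeasureTheory

variable {Γ : Type} [Group Γ]

theorem Q2_T_inv (F : Fuchs Γ) (g : Γ) {x : ℂ} (hx : x ∈ ball (0:ℂ) 1) :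
    ‖F.dact g x‖ ^ 2 * (1 / (1 - ‖F.act g x‖ ^ 2) ^ 2) = 1 / (1 - ‖x‖ ^ 2) ^ 2 := by
  have hx1 : ‖x‖ < 1 := mem_ball_zero_iff.1 hx
  have h1 := act_conf F g hx1.le
  have h2 : ‖F.dact g x‖ ≠ 0 := norm_ne_zero_iff.2 (dact_ne F g hx1.le)
  have h3 : 1 - ‖x‖ ^ 2 ≠ 0 := by nlinarith [norm_nonneg x]
  rw [h1]
  field_simp

theorem Q2_T_cont : ContinuousOn (fun x : ℂ => 1 / (1 - ‖x‖ ^ 2) ^ 2) (ball 0 1) := by
  refine ContinuousOn.div continuousOn_const (by fun_prop) fun x hx => ?_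
  have hx1 : ‖x‖ < 1 := mem_ball_zero_iff.1 hx
  have h3 : 1 - ‖x‖ ^ 2 ≠ 0 := by nlinarith [norm_nonneg x]
  exact pow_ne_zero 2 h3

theorem Q2_k_cont {a a₁ b c : ℝ} (ha : 0 < a) (hab : a < b) (hbc : b < c)
    (hc : c < Real.pi / 2) {c₀ c₁ d : ℝ → ℝ} (hc₀ : Step a a₁ c₀) (hc₁ : Step b c c₁)
    (hd : Step (a / 2) a d) : ContinuousOn
      (fun t => c₀ t * ((1 - c₁ t) * d t) / (4 * Real.sin t ^ 2)) (Icc 0 Real.pi) := by
  intro y hy
  apply ContinuousAt.continuousWithinAt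
  have hπ := Real.pi_pos
  by_cases h1 : y < a
  · have h2 : (fun t => c₀ t * ((1 - c₁ t) * d t) / (4 * Real.sin t ^ 2)) =ᶠ[𝓝 y] fun _ => 0 := by
      filter_upwards [gt_mem_nhds h1] with t ht
      rw [hc₀.zero t ht.le, zero_mul, zero_div]
    exact continuousAt_const.congr h2.symm
  by_cases h3 : c < y
  · have h2 : (fun t => c₀ t * ((1 - c₁ t) * d t) / (4 * Real.sin t ^ 2)) =ᶠ[𝓝 y] fun _ => 0 := by
      filter_upwards [lt_mem_nhds h3] with t ht
      rw [hc₁.one t ht.le, sub_self, zero_mul, mul_zero, zero_div]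
    exact continuousAt_const.congr h2.symm
  push Not at h1 h3
  have hsin : 0 < Real.sin y := Real.sin_pos_of_pos_of_lt_pi (by linarith) (by linarith)
  have e0 := hc₀.smooth.continuous
  have e1 := hc₁.smooth.continuous
  have e2 := hd.smooth.continuous
  refine ContinuousAt.div ?_ ?_ (by positivity)
  · exact (e0.mul ((continuous_const.sub e1).mul e2)).continuousAt
  · exact (continuous_const.mul (Real.continuous_sin.pow 2)).continuousAt

theorem Q2_k_int {a a₁ b c : ℝ} (ha : 0 < a) (hab : a < b) (hbc : b < c)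
    (hc : c < Real.pi / 2) {c₀ c₁ d : ℝ → ℝ} (hc₀ : Step a a₁ c₀) (hc₁ : Step b c c₁)
    (hd : Step (a / 2) a d) :
    1 / 4 * (∫ t in (0:ℝ)..b, c₀ t / Real.sin t ^ 2) ≤
      ∫ t in (0:ℝ)..Real.pi, c₀ t * ((1 - c₁ t) * d t) / (4 * Real.sin t ^ 2) := by
  have hπ := Real.pi_pos
  have hcont := Q2_k_cont ha hab hbc hc hc₀ hc₁ hd
  have hi1 : IntervalIntegrable (fun t => c₀ t * ((1 - c₁ t) * d t) / (4 * Real.sin t ^ 2)) volume 0 b := by
    apply ContinuousOn.intervalIntegrable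
    rw [uIcc_of_le (by linarith)]
    exact hcont.mono (Icc_subset_Icc_right (by linarith))
  have hi2 : IntervalIntegrable (fun t => c₀ t * ((1 - c₁ t) * d t) / (4 * Real.sin t ^ 2)) volume b
      Real.pi := by
    apply ContinuousOn.intervalIntegrable
    rw [uIcc_of_le (by linarith)]
    exact hcont.mono (Icc_subset_Icc_left (by linarith))
  rw [← intervalIntegral.integral_add_adjacent_intervals hi1 hi2]
  have h1 : ∫ t in (0:ℝ)..b, c₀ t * ((1 - c₁ t) * d t) / (4 * Real.sin t ^ 2) =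
      1 / 4 * (∫ t in (0:ℝ)..b, c₀ t / Real.sin t ^ 2) := by
    rw [← intervalIntegral.integral_const_mul]
    apply intervalIntegral.integral_congr
    intro t ht
    rw [uIcc_of_le (by linarith)] at ht
    simp only
    rw [hc₁.zero t ht.2]
    by_cases h2 : t ≤ a
    · rw [hc₀.zero t h2]
      ring
    · push Not at h2
      rw [hd.one t h2.le]
      rw [sub_zero, one_mul, mul_one, div_mul_eq_div_div_swap, mul_comm (1 / 4 : ℝ), ← div_eq_mul_one_div]
  have h2 : 0 ≤ ∫ t in b..Real.pi, c₀ t * ((1 - c₁ t) * d t) / (4 * Real.sin t ^ 2) := by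
    apply intervalIntegral.integral_nonneg (by linarith)
    intro t _
    have e0 := hc₀.nonneg t
    have e1 : 0 ≤ 1 - c₁ t := by linarith [hc₁.le_one t]
    have e2 := hd.nonneg t
    positivity
  rw [h1]
  linarith

theorem Q2_one (F : Fuchs Γ) {n : ℕ} {κ : Fin n → Γ} {p q : Fin n → ℂ} (G : Gaps F n κ p q)
    {l : ℝ} (hl0 : 0 < l) (i : Fin n)
    {a a₁ b c : ℝ} (ha : 0 < a) (hab : a < b) (hbc : b < c)
    (hc : c < Real.pi / 2) {c₀ c₁ d : ℝ → ℝ} (hc₀ : Step a a₁ c₀) (hc₁ : Step b c c₁)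
    (hd : Step (a / 2) a d) {τ : ℝ → ℝ} (hτ : Tau l τ) {χ₀ : ℂ → ℝ}
    (hχ₀ : Cut F p q c₀ χ₀) :
    l / 4 * (∫ t in (0:ℝ)..b, c₀ t / Real.sin t ^ 2) ≤
      ∫ x in ball (0:ℂ) 1, χ₀ x * psiI (p i) (q i) τ (fun t => (1 - c₁ t) * d t) x /
        (1 - ‖x‖ ^ 2) ^ 2 := by
  have hp := (G.ar i).np
  have hq := (G.ar i).nq
  have hpq := (G.ar i).ne
  have h1 : ∫ x in ball (0:ℂ) 1, χ₀ x * psiI (p i) (q i) τ (fun t => (1 - c₁ t) * d t) x /
        (1 - ‖x‖ ^ 2) ^ 2 = ∫ x in ball (0:ℂ) 1, ‖omD (p i) (q i) x‖ ^ 2 *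
        (τ (om (p i) (q i) x).re *
          (fun t => c₀ t * ((1 - c₁ t) * d t) / (4 * Real.sin t ^ 2)) (om (p i) (q i) x).im) := by
    apply setIntegral_congr_fun measurableSet_ball
    intro x hx
    have hx1 : ‖x‖ < 1 := mem_ball_zero_iff.1 hx
    simp only
    unfold psiI
    rw [if_pos hx1]
    beta_reduce
    set y := (om (p i) (q i) x).im with hy
    by_cases h2 : c ≤ y
    · rw [hc₁.one y h2]
      ring
    · push Not at h2
      rw [hχ₀.near i x hx (by rw [← hy]; linarith), ← hy]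
      have h3 := om_metric hp hq hpq hx1
      rw [← hy] at h3
      have h4 : ‖omD (p i) (q i) x‖ ^ 2 * (1 - ‖x‖ ^ 2) ^ 2 = 4 * Real.sin y ^ 2 := by
        have h5 : ‖omD (p i) (q i) x‖ * (1 - ‖x‖ ^ 2) = 2 * Real.sin y := h3
        rw [← mul_pow, h5]
        ring
      have h5 := om_im_pos hp hq hpq hx1
      rw [← hy] at h5
      have h6 : 0 < Real.sin y := Real.sin_pos_of_pos_of_lt_pi h5.1 h5.2
      have h7 : 1 - ‖x‖ ^ 2 ≠ 0 := by nlinarith [norm_nonneg x]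
      rw [← h4]
      have h8 : ‖omD (p i) (q i) x‖ ≠ 0 := by
        intro h9
        rw [h9] at h4
        have : 0 < 4 * Real.sin y ^ 2 := by positivity
        rw [← h4] at this
        simp at this
      field_simp
  have hsp := strip_prod hp hq hpq τ (fun t => c₀ t * ((1 - c₁ t) * d t) / (4 * Real.sin t ^ 2))
  rw [hτ.int] at hsp
  refine le_trans ?_ (le_of_eq (h1.trans hsp).symm)
  have h2 := Q2_k_int ha hab hbc hc hc₀ hc₁ hd
  have h3 := mul_le_mul_of_nonneg_left h2 hl0.le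
  refine le_trans (le_of_eq ?_) h3
  ring

theorem Q2_two (F : Fuchs Γ) {n : ℕ} {p q : Fin n → ℂ}
    {c₀ c₁ : ℝ → ℝ} {χ₀ χ₁ : ℂ → ℝ}
    (hχ₀ : Cut F p q c₀ χ₀) (hχ₁ : Cut F p q c₁ χ₁) {ψ₁ : ℂ → ℝ} {r : ℝ} (hr : r < 1)
    (hψc : ContDiff ℝ 2 ψ₁) (hψ0 : ∀ x, 0 ≤ ψ₁ x) (hψs : ∀ x, r < ‖x‖ → ψ₁ x = 0)
    (hS₁ : ∀ x ∈ ball (0:ℂ) 1, F.S ψ₁ x = χ₁ x)
    {f₀ : ℂ → ℝ} (hf₀ : Continuous f₀) (hfs : ∀ x, r < ‖x‖ → f₀ x = 0)
    (hfS : ∀ x ∈ ball (0:ℂ) 1, F.S f₀ x ≤ 1)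
    (hfc : ∀ x ∈ ball (0:ℂ) 1, f₀ x ≠ 0 → ∀ i g, Real.pi / 2 ≤ F.ht (p i) (q i) g x) :
    ∫ x in ball (0:ℂ) 1, f₀ x / (1 - ‖x‖ ^ 2) ^ 2 ≤
      ∫ x in ball (0:ℂ) 1, χ₀ x * ψ₁ x / (1 - ‖x‖ ^ 2) ^ 2 := by
  have hχc : ContinuousOn χ₀ (ball 0 1) := hχ₀.smooth.continuousOn
  have hfc1 : ContinuousOn (fun x => χ₀ x * ψ₁ x) (ball 0 1) := hχc.mul hψc.continuous.continuousOn
  have hfs1 : ∀ x, r < ‖x‖ → χ₀ x * ψ₁ x = 0 := fun x hx => by rw [hψs x hx, mul_zero]
  have hSc : ContinuousOn (F.S f₀) (ball 0 1) := by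
    have h1 := S_smooth F hr hfs (n := 0) (by
      rw [Nat.cast_zero, contDiffOn_zero]
      exact hf₀.continuousOn)
    rw [Nat.cast_zero, contDiffOn_zero] at h1
    exact h1
  have hun := unfold_int F (f := fun x => χ₀ x * ψ₁ x) (h := f₀)
    (T := fun x => 1 / (1 - ‖x‖ ^ 2) ^ 2) hr hfc1 hfs1 hf₀.continuousOn hfs Q2_T_cont
    (fun g x hx => Q2_T_inv F g hx)
  have h1 : ∫ x in ball (0:ℂ) 1, F.S (fun x => χ₀ x * ψ₁ x) x * f₀ x * (1 / (1 - ‖x‖ ^ 2) ^ 2) =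
      ∫ x in ball (0:ℂ) 1, f₀ x / (1 - ‖x‖ ^ 2) ^ 2 := by
    apply setIntegral_congr_fun measurableSet_ball
    intro x hx
    simp only
    rw [S_mul F hχ₀.invt ψ₁ hx, hS₁ x hx]
    by_cases h2 : f₀ x = 0
    · rw [h2]
      ring
    · have h3 := hfc x hx h2
      rw [hχ₀.far x hx h3, hχ₁.far x hx h3]
      ring
  rw [← h1, ← hun]
  have hint1 : IntegrableOn (fun x => χ₀ x * ψ₁ x * F.S f₀ x * (1 / (1 - ‖x‖ ^ 2) ^ 2)) (ball 0 1) :=
    integrable_supp ((hfc1.mul hSc).mul Q2_T_cont) hr fun x hx => by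
      rw [hψs x hx, mul_zero, zero_mul, zero_mul]
  have hint2 : IntegrableOn (fun x => χ₀ x * ψ₁ x / (1 - ‖x‖ ^ 2) ^ 2) (ball 0 1) := by
    have h2 := integrable_supp (hfc1.mul Q2_T_cont) hr fun x hx => by
      simp only [Pi.mul_apply]
      rw [hψs x hx, mul_zero, zero_mul]
    refine h2.congr_fun (fun x _ => ?_) measurableSet_ball
    simp only [Pi.mul_apply]
    ring
  refine setIntegral_mono_on hint1 hint2 measurableSet_ball fun x hx => ?_
  have hx1 : ‖x‖ < 1 := mem_ball_zero_iff.1 hx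
  have e1 : 0 ≤ χ₀ x * ψ₁ x := mul_nonneg (hχ₀.nonneg x hx) (hψ0 x)
  have e2 : 0 ≤ 1 / (1 - ‖x‖ ^ 2) ^ 2 := by positivity
  have e3 := hfS x hx
  have e4 : χ₀ x * ψ₁ x * F.S f₀ x ≤ χ₀ x * ψ₁ x := mul_le_of_le_one_right e1 e3
  rw [div_eq_mul_one_div (χ₀ x * ψ₁ x)]
  exact mul_le_mul_of_nonneg_right e4 e2

theorem lower_bound (F : Fuchs Γ) {n : ℕ} {κ : Fin n → Γ} {p q : Fin n → ℂ} (G : Gaps F n κ p q)
    {l : Fin n → ℝ} (hl0 : ∀ i, 0 < l i)
    {a a₁ b c : ℝ} (ha : 0 < a) (haa : a < a₁) (hab : a₁ < b) (hbc : b < c)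
    (hc : c < Real.pi / 2) {c₀ c₁ d : ℝ → ℝ} (hc₀ : Step a a₁ c₀) (hc₁ : Step b c c₁)
    (hd : Step (a / 2) a d) {τ : Fin n → ℝ → ℝ} (hτ : ∀ i, Tau (l i) (τ i)) {χ₀ χ₁ : ℂ → ℝ}
    (hχ₀ : Cut F p q c₀ χ₀) (hχ₁ : Cut F p q c₁ χ₁) {ψ₁ : ℂ → ℝ} {r : ℝ} (hr : r < 1)
    (hψc : ContDiff ℝ 2 ψ₁) (hψ0 : ∀ x, 0 ≤ ψ₁ x) (hψs : ∀ x, r < ‖x‖ → ψ₁ x = 0)
    (hS₁ : ∀ x ∈ ball (0:ℂ) 1, F.S ψ₁ x = χ₁ x)
    (hIc : ∀ i, ContDiff ℝ 2 (psiI (p i) (q i) (τ i) (fun t => (1 - c₁ t) * d t)))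
    (hIs : ∀ i, ∀ x, r < ‖x‖ → psiI (p i) (q i) (τ i) (fun t => (1 - c₁ t) * d t) x = 0)
    {f₀ : ℂ → ℝ} (hf₀ : Continuous f₀) (hf0 : ∀ x, 0 ≤ f₀ x) (hfs : ∀ x, r < ‖x‖ → f₀ x = 0)
    (hfS : ∀ x ∈ ball (0:ℂ) 1, F.S f₀ x ≤ 1)
    (hfc : ∀ x ∈ ball (0:ℂ) 1, f₀ x ≠ 0 → ∀ i g, Real.pi / 2 ≤ F.ht (p i) (q i) g x) :
    ∑ i, l i / 4 * (∫ t in (0:ℝ)..b, c₀ t / Real.sin t ^ 2) +
        ∫ x in ball (0:ℂ) 1, f₀ x / (1 - ‖x‖ ^ 2) ^ 2 ≤
      ∫ x in ball (0:ℂ) 1, χ₀ x *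
        (ψ₁ x + ∑ i, psiI (p i) (q i) (τ i) (fun t => (1 - c₁ t) * d t) x) / (1 - ‖x‖ ^ 2) ^ 2 := by
  have hχc : ContinuousOn χ₀ (ball 0 1) := hχ₀.smooth.continuousOn
  have hgen : ∀ ψ : ℂ → ℝ, Continuous ψ → (∀ x, r < ‖x‖ → ψ x = 0) →
      IntegrableOn (fun x => χ₀ x * ψ x / (1 - ‖x‖ ^ 2) ^ 2) (ball 0 1) := by
    intro ψ hψ hψ'
    have h2 := integrable_supp ((hχc.mul hψ.continuousOn).mul Q2_T_cont) hr fun x hx => by
      simp only [Pi.mul_apply]
      rw [hψ' x hx, mul_zero, zero_mul]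
    refine h2.congr_fun (fun x _ => ?_) measurableSet_ball
    simp only [Pi.mul_apply]
    ring
  have h1 : ∫ x in ball (0:ℂ) 1, χ₀ x *
        (ψ₁ x + ∑ i, psiI (p i) (q i) (τ i) (fun t => (1 - c₁ t) * d t) x) / (1 - ‖x‖ ^ 2) ^ 2 =
      (∫ x in ball (0:ℂ) 1, χ₀ x * ψ₁ x / (1 - ‖x‖ ^ 2) ^ 2) +
        ∑ i, ∫ x in ball (0:ℂ) 1, χ₀ x * psiI (p i) (q i) (τ i) (fun t => (1 - c₁ t) * d t) x /
          (1 - ‖x‖ ^ 2) ^ 2 := by
    rw [← integral_finsetSum _ (fun i _ => hgen _ (hIc i).continuous (hIs i)),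
      ← integral_add (hgen _ hψc.continuous hψs)
        (integrable_finsetSum _ (fun i _ => hgen _ (hIc i).continuous (hIs i)))]
    apply setIntegral_congr_fun measurableSet_ball
    intro x _
    simp only
    rw [mul_add, add_div, Finset.mul_sum, Finset.sum_div]
  rw [h1, add_comm]
  refine add_le_add (Q2_two F hχ₀ hχ₁ hr hψc hψ0 hψs hS₁ hf₀ hfs hfS hfc)
    (Finset.sum_le_sum fun i _ => ?_)
  exact Q2_one F G (hl0 i) i ha (by linarith) hbc hc hc₀ hc₁ hd (hτ i) hχ₀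

end TN

end S_H60_PH_Q2

section S_H60_PH_LU

/-!
LU (integration by parts on the quotient).  By `ibp` with `f = χ ψ`, `h = E` and the product rule (`dz_mul`)
`∫ χ ψ dz E = - ∫ ψ dz χ E - ∫ χ dz ψ E`.  The last integral is zero: where `χ ≠ 0` we have `F.S ψ = 1`, so it is
`∫ χ dz ψ (F.S ψ) E = ∑ g ∈ t, ∫ χ x * dz ψ x * ψ (act g x) * E x` (`S_eq`, `t` from `fin_supp` with `r' = r`; the factor `dz ψ x` vanishes for
`‖x‖ > r`).  Put `k y = χ y * dz (ψ ∘ act g⁻¹) y * ψ y * E y`; by `cv` for `g` `∫ k = ∫ ‖dact g x‖² k (act g x)`, and for `y = act g x`: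
`dz (ψ ∘ act g⁻¹) y * dact g x = dz ψ x` (`dz_comp` for `ψ = (ψ ∘ act g⁻¹) ∘ act g` near `x`), `E y * conj (dact g x) = E x`,
`‖dact g x‖² = dact g x * conj (dact g x)`, `χ y = χ x`: so the term is `∫ χ y * dz (ψ ∘ act g⁻¹) y * ψ y * E y`.
Sum over `t`: `∑ g ∈ t, dz (ψ ∘ act g⁻¹) y = dz (F.S ψ) y` for `‖y‖ < r'` (`S_eq_inv` on a neighbourhood: use `t` for a slightly larger `r'`
from the beginning), and `F.S ψ = 1` on the open set `{χ ≠ 0}` of the disc, so `χ y * dz (F.S ψ) y = 0`.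
-/

namespace TN
open Metric Set Filter Topology DS MeasureTheory

variable {Γ : Type} [Group Γ]

theorem LU_real {χ : ℂ → ℝ} (hχ : ContDiffOn ℝ 1 χ (ball 0 1)) :
    ContDiffOn ℝ 1 (fun y => ((χ y : ℝ) : ℂ)) (ball 0 1) :=
  Complex.ofRealCLM.contDiff.comp_contDiffOn hχ

theorem LU_dzc {f : ℂ → ℂ} (hf : ContDiffOn ℝ 1 f (ball 0 1)) : ContinuousOn (dz f) (ball 0 1) := by
  have h : ContDiffOn ℝ ((0 : ℕ) + 1) f (ball 0 1) := by simpa using hf
  exact (dz_smooth isOpen_ball h).1.continuousOn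

theorem LU_dz0 {f : ℂ → ℂ} {x : ℂ} (h : ∀ᶠ y in 𝓝 x, f y = 0) : dz f x = 0 := by
  have h1 : f =ᶠ[𝓝 x] fun _ => 0 := h
  rw [(dz_congr h1).1, (dz_const 0 x).1]

theorem LU_inv (F : Fuchs Γ) (g : Γ) {x : ℂ} (hx : ‖x‖ ≤ 1) :
    F.dact g⁻¹ (F.act g x) * F.dact g x = 1 := by
  rw [← dact_mul F g⁻¹ g hx, inv_mul_cancel, dact_one F hx]

theorem lemU (F : Fuchs Γ) {χ ψ : ℂ → ℝ} {r : ℝ} (hr : r < 1) (hψ : ContDiffOn ℝ 1 ψ (ball 0 1))
    (hψs : ∀ x, r < ‖x‖ → ψ x = 0) (hχ : ContDiffOn ℝ 1 χ (ball 0 1)) (hχi : F.Invt χ)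
    (hS : ∀ x ∈ ball (0:ℂ) 1, χ x ≠ 0 → F.S ψ x = 1) {E : ℂ → ℂ} (hE : ContDiffOn ℝ 1 E (ball 0 1))
    (hEe : F.CoEqui E) :
    ∫ x in ball (0:ℂ) 1, ((χ x * ψ x : ℝ) : ℂ) * dz E x =
      - ∫ x in ball (0:ℂ) 1, (ψ x : ℂ) * dz (fun y => ((χ y : ℝ) : ℂ)) x * E x := by
  classical
  have hχc := LU_real hχ
  have hψc := LU_real hψ
  have hda : ∀ {f : ℂ → ℂ}, ContDiffOn ℝ 1 f (ball 0 1) → ∀ x ∈ ball (0:ℂ) 1,
      DifferentiableAt ℝ f x := fun hf x hx =>
    (hf.differentiableOn one_ne_zero).differentiableAt (isOpen_ball.mem_nhds hx)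
  -- integration by parts
  have h1 := ibp (f := fun x => ((χ x * ψ x : ℝ) : ℂ)) hr (LU_real (hχ.mul hψ)) (fun x hx => by
    simp only [hψs x hx, mul_zero, Complex.ofReal_zero]) hE
  rw [h1, neg_inj]
  have h2 : ∀ x ∈ ball (0:ℂ) 1, dz (fun x => ((χ x * ψ x : ℝ) : ℂ)) x * E x =
      (ψ x : ℂ) * dz (fun y => ((χ y : ℝ) : ℂ)) x * E x +
        (χ x : ℂ) * dz (fun y => ((ψ y : ℝ) : ℂ)) x * E x := by
    intro x hx
    have h3 : (fun x => ((χ x * ψ x : ℝ) : ℂ)) = fun x => ((χ x : ℝ) : ℂ) * ((ψ x : ℝ) : ℂ) := by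
      funext y
      push_cast
      rfl
    rw [h3, (dz_mul (hda hχc x hx) (hda hψc x hx)).1]
    ring
  have hout : ∀ x, r < ‖x‖ → ∀ᶠ y in 𝓝 x, ψ y = 0 := by
    intro x hx
    have h3 : {y : ℂ | r < ‖y‖} ∈ 𝓝 x := (isOpen_lt continuous_const continuous_norm).mem_nhds hx
    filter_upwards [h3] with y hy
    exact hψs y hy
  have hdz0 : ∀ x, r < ‖x‖ → dz (fun y => ((ψ y : ℝ) : ℂ)) x = 0 := by
    intro x hx
    apply LU_dz0
    filter_upwards [hout x hx] with y hy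
    rw [hy, Complex.ofReal_zero]
  have i1 : IntegrableOn (fun x => (ψ x : ℂ) * dz (fun y => ((χ y : ℝ) : ℂ)) x * E x)
      (ball 0 1) :=
    integrable_supp ((hψc.continuousOn.mul (LU_dzc hχc)).mul hE.continuousOn) hr fun x hx => by
      simp only [hψs x hx, Complex.ofReal_zero, zero_mul]
  have i2 : IntegrableOn (fun x => (χ x : ℂ) * dz (fun y => ((ψ y : ℝ) : ℂ)) x * E x)
      (ball 0 1) :=
    integrable_supp ((hχc.continuousOn.mul (LU_dzc hψc)).mul hE.continuousOn) hr fun x hx => by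
      simp only [hdz0 x hx, mul_zero, zero_mul]
  rw [setIntegral_congr_fun measurableSet_ball h2, integral_add i1 i2]
  -- the second integral vanishes
  have hrr : max r 0 < 1 := max_lt hr one_pos
  set r' : ℝ := (1 + max r 0) / 2 with hr'
  have hr'1 : r' < 1 := by rw [hr']; linarith
  have hrr' : r < r' := by
    have := le_max_left r 0
    rw [hr']; linarith
  obtain ⟨t, ht⟩ := fin_supp F hr hr'1
  have h3 : ∀ x ∈ ball (0:ℂ) 1, (χ x : ℂ) * dz (fun y => ((ψ y : ℝ) : ℂ)) x * E x =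
      ∑ g ∈ t, (χ x : ℂ) * dz (fun y => ((ψ y : ℝ) : ℂ)) x * (ψ (F.act g x) : ℂ) * E x := by
    intro x hx
    by_cases hxr : r < ‖x‖
    · rw [hdz0 x hxr]
      simp
    · by_cases hχx : χ x = 0
      · rw [hχx]
        simp
      · have h4 : (1 : ℂ) = ∑ g ∈ t, (ψ (F.act g x) : ℂ) := by
          have h5 := S_eq F hψs ht (x := x) (by linarith [not_lt.1 hxr])
          rw [hS x hx hχx] at h5
          exact_mod_cast h5
        calc (χ x : ℂ) * dz (fun y => ((ψ y : ℝ) : ℂ)) x * E x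
            = (χ x : ℂ) * dz (fun y => ((ψ y : ℝ) : ℂ)) x * 1 * E x := by ring
          _ = _ := by
              rw [h4, Finset.mul_sum, Finset.sum_mul]
  have hcomp : ∀ g, ContDiffOn ℝ 1 (fun y => ((ψ (F.act g y) : ℝ) : ℂ)) (ball 0 1) := by
    intro g
    have h4 : ContDiffOn ℝ 1 (F.act g) (ball 0 1) := act_smooth F g (n := 1)
    exact hψc.comp h4 fun x hx => by
      rw [mem_ball_zero_iff] at hx ⊢
      exact act_lt F g hx
  have h4 : ∀ g, ∫ x in ball (0:ℂ) 1,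
      (χ x : ℂ) * dz (fun y => ((ψ y : ℝ) : ℂ)) x * (ψ (F.act g x) : ℂ) * E x =
      ∫ y in ball (0:ℂ) 1, (χ y : ℂ) * dz (fun y => ((ψ (F.act g⁻¹ y) : ℝ) : ℂ)) y * (ψ y : ℂ) *
        E y := by
    intro g
    rw [cv F g (fun y => (χ y : ℂ) * dz (fun y => ((ψ (F.act g⁻¹ y) : ℝ) : ℂ)) y * (ψ y : ℂ) *
        E y)]
    refine setIntegral_congr_fun measurableSet_ball fun x hx => ?_
    have hx1 : ‖x‖ < 1 := mem_ball_zero_iff.1 hx
    have hgx : F.act g x ∈ ball (0:ℂ) 1 := mem_ball_zero_iff.2 (act_lt F g hx1)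
    have e1 : dz (fun y => ((ψ (F.act g⁻¹ y) : ℝ) : ℂ)) (F.act g x) =
        dz (fun y => ((ψ y : ℝ) : ℂ)) x * F.dact g⁻¹ (F.act g x) := by
      have h5 := (dz_comp (f := fun y => ((ψ y : ℝ) : ℂ)) (g := F.act g⁻¹) (x := F.act g x)
        (g' := F.dact g⁻¹ (F.act g x))
        (by rw [act_inv_act F g hx1.le]; exact hda hψc x hx)
        (act_hasDerivAt F g⁻¹ (mem_ball_zero_iff.1 hgx).le)).1
      rw [act_inv_act F g hx1.le] at h5
      exact h5
    have e2 := LU_inv F g hx1.le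
    have e3 := hEe g x hx
    have e4 : ((‖F.dact g x‖ ^ 2 : ℝ) : ℂ) = F.dact g x * (starRingEnd ℂ) (F.dact g x) := by
      rw [Complex.mul_conj, Complex.normSq_eq_norm_sq]
    show _ = (‖F.dact g x‖ ^ 2) • ((χ (F.act g x) : ℂ) *
      dz (fun y => ((ψ (F.act g⁻¹ y) : ℝ) : ℂ)) (F.act g x) * (ψ (F.act g x) : ℂ) *
        E (F.act g x))
    rw [Complex.real_smul, e4, hχi g x hx, e1, ← e3]
    linear_combination (-(χ x : ℂ) * dz (fun y => ((ψ y : ℝ) : ℂ)) x * (ψ (F.act g x) : ℂ) *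
      E (F.act g x) * (starRingEnd ℂ) (F.dact g x)) * e2
  have i3 : ∀ g ∈ t, IntegrableOn (fun x => (χ x : ℂ) * dz (fun y => ((ψ y : ℝ) : ℂ)) x *
      (ψ (F.act g x) : ℂ) * E x) (ball 0 1) := fun g _ =>
    integrable_supp (((hχc.continuousOn.mul (LU_dzc hψc)).mul (hcomp g).continuousOn).mul
      hE.continuousOn) hr fun x hx => by
        simp only [hdz0 x hx, mul_zero, zero_mul]
  have i4 : ∀ g ∈ t, IntegrableOn (fun y => (χ y : ℂ) *
      dz (fun y => ((ψ (F.act g⁻¹ y) : ℝ) : ℂ)) y * (ψ y : ℂ) * E y) (ball 0 1) := fun g _ =>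
    integrable_supp (((hχc.continuousOn.mul (LU_dzc (hcomp g⁻¹))).mul hψc.continuousOn).mul
      hE.continuousOn) hr fun x hx => by
        simp only [hψs x hx, Complex.ofReal_zero, mul_zero, zero_mul]
  have h5 : ∫ x in ball (0:ℂ) 1, (χ x : ℂ) * dz (fun y => ((ψ y : ℝ) : ℂ)) x * E x = 0 := by
    rw [setIntegral_congr_fun measurableSet_ball h3, integral_finsetSum t i3,
      Finset.sum_congr rfl fun g _ => h4 g, ← integral_finsetSum t i4]
    refine setIntegral_eq_zero_of_forall_eq_zero fun y hy => ?_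
    show ∑ g ∈ t, (χ y : ℂ) * dz (fun y => ((ψ (F.act g⁻¹ y) : ℝ) : ℂ)) y * (ψ y : ℂ) * E y = 0
    by_cases hyr : r < ‖y‖
    · simp [hψs y hyr]
    · by_cases hχy : χ y = 0
      · simp [hχy]
      · have h6 : ∑ g ∈ t, dz (fun y => ((ψ (F.act g⁻¹ y) : ℝ) : ℂ)) y = 0 := by
          rw [← dz_sum t fun g _ => hda (hcomp g⁻¹) y hy]
          have hcχ : ContinuousAt χ y := hχ.continuousOn.continuousAt (isOpen_ball.mem_nhds hy)
          have h7 : ∀ᶠ w in 𝓝 y, χ w ≠ 0 := hcχ.eventually_ne hχy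
          have h8 : ∀ᶠ w in 𝓝 y, ‖w‖ < r' :=
            (isOpen_lt continuous_norm continuous_const).mem_nhds (by
              show ‖y‖ < r'
              linarith [not_lt.1 hyr])
          have h9 : (fun w => ∑ g ∈ t, ((ψ (F.act g⁻¹ w) : ℝ) : ℂ)) =ᶠ[𝓝 y] fun _ => 1 := by
            filter_upwards [h7, h8] with w hw1 hw2
            have h10 := S_eq_inv F hψs ht (x := w) hw2.le
            rw [hS w (mem_ball_zero_iff.2 (by linarith)) hw1] at h10
            exact_mod_cast h10.symm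
          rw [(dz_congr h9).1, (dz_const 1 y).1]
        calc ∑ g ∈ t, (χ y : ℂ) * dz (fun y => ((ψ (F.act g⁻¹ y) : ℝ) : ℂ)) y * (ψ y : ℂ) * E y
            = (χ y : ℂ) * (∑ g ∈ t, dz (fun y => ((ψ (F.act g⁻¹ y) : ℝ) : ℂ)) y) *
                (ψ y : ℂ) * E y := by
              rw [Finset.mul_sum, Finset.sum_mul, Finset.sum_mul]
          _ = 0 := by rw [h6]; ring
  rw [h5, add_zero]

end TN

end S_H60_PH_LU

section S_H60_PH_Q3

/-!
Q3 (there is no such form).  `f₀` from `exists_f0`, `a₀ = ∫ f₀/(1-‖x‖²)² > 0`.  `a₁ = min (y₀/2) 1 `, `a = a₁/2`, `c₀` a step between `a` and `a₁`, `d` between `a/2` and `a`,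
`J = ∫_0^π c₀' cot`.  Choose `b ∈ (a₁, π/2)` with `(∑ l i / 4) * cot b < a₀` (`cot b → 0` for `b → π/2`), `c = (b + π/2)/2`, `c₁` between `b` and `c`.
`χ₀`, `χ₁` from `exists_cut`, `τ i` from `exists_tau`, `ψ₁`, `r` from `exists_pu`; `ψ = ψ₁ + ∑ ψI i`; enlarge `r` to be a common radius with `f₀`.
`lemU` (`χ = χ₀`, `ψ`): `∫ χ₀ ψ dz E = - ∫ ψ dz χ₀ E = - ∑ (1/4)(2 π w i + l i J)` (`boundary_term`); real parts: `∫ χ₀ ψ/(1-‖x‖²)² ≤ - re ∫ χ₀ ψ dz E = ∑ (1/4)(2πw i + l i J)`.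
`lower_bound` and `cot_ibp`: `∑ l i/4 (J - cot b) + a₀ ≤ ∑ (1/4)(2 π w i + l i J)`, so `a₀ ≤ ∑ l i/4 cot b + (π/2) ∑ w i < a₀`.
-/

namespace TN
open Metric Set Filter Topology DS MeasureTheory

variable {Γ : Type} [Group Γ]

/-- choice of `b` -/
theorem Q3_choose {L a₀ a₁ : ℝ} (ha₀ : 0 < a₀) (ha₁ : a₁ < Real.pi / 2) :
    ∃ b : ℝ, a₁ < b ∧ b < Real.pi / 2 ∧ L * (Real.cos b / Real.sin b) < a₀ := by
  have hc : ContinuousAt (fun b : ℝ => L * (Real.cos b / Real.sin b)) (Real.pi / 2) := by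
    apply ContinuousAt.mul continuousAt_const
    apply ContinuousAt.div Real.continuous_cos.continuousAt Real.continuous_sin.continuousAt
    rw [Real.sin_pi_div_two]; exact one_ne_zero
  have h0 : (fun b : ℝ => L * (Real.cos b / Real.sin b)) (Real.pi / 2) < a₀ := by
    simp only [Real.cos_pi_div_two, Real.sin_pi_div_two]
    simpa using ha₀
  have hev : ∀ᶠ b in 𝓝 (Real.pi / 2), L * (Real.cos b / Real.sin b) < a₀ :=
    hc.eventually (gt_mem_nhds h0)
  have hev2 : ∀ᶠ b in 𝓝 (Real.pi / 2), a₁ < b := lt_mem_nhds ha₁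
  have hev3 : ∃ᶠ b in 𝓝 (Real.pi / 2), b < Real.pi / 2 := by
    rw [frequently_iff]
    intro U hU
    obtain ⟨ε, hε, hU'⟩ := Metric.mem_nhds_iff.1 hU
    refine ⟨Real.pi / 2 - ε / 2, hU' ?_, by linarith⟩
    rw [mem_ball, Real.dist_eq]
    rw [show Real.pi / 2 - ε / 2 - Real.pi / 2 = -(ε / 2) by ring, abs_neg, abs_of_pos (by linarith)]
    linarith
  obtain ⟨b, hb, h2, h3⟩ := (hev3.and_eventually (hev2.and hev)).exists
  exact ⟨b, h2, hb, h3⟩

theorem no_form (F : Fuchs Γ) (hN : F.Nonel) {n : ℕ} {κ : Fin n → Γ} {p q : Fin n → ℂ}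
    (G : Gaps F n κ p q) {l : Fin n → ℝ} (hl0 : ∀ i, 0 < l i)
    (hl : ∀ i, ∀ x ∈ ball (0:ℂ) 1, om (p i) (q i) (F.act (κ i) x) = om (p i) (q i) x + l i)
    {w : Fin n → ℤ} (hw : ∀ i, w i ≤ 0) {y₀ : ℝ} (hy₀ : 0 < y₀) {E : ℂ → ℂ}
    (hE1 : ContDiffOn ℝ 1 E (ball 0 1)) (hEe : F.CoEqui E)
    (hEd : ∀ x ∈ ball (0:ℂ) 1, (dz E x).re ≤ -1 / (1 - ‖x‖ ^ 2) ^ 2)
    (hEc : ∀ i, ∀ x ∈ ball (0:ℂ) 1, (om (p i) (q i) x).im < y₀ →
      E x = Complex.I / 2 * (starRingEnd ℂ) (omD (p i) (q i) x) *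
        ((2 * Real.pi * w i / l i + Real.cos (om (p i) (q i) x).im / Real.sin (om (p i) (q i) x).im : ℝ) : ℂ)) :
    False := by
  have hpi := Real.pi_gt_three
  obtain ⟨f₀, rf, hrf, hf₀, hf0, hfs, hfS, hfc, hfpos⟩ := exists_f0 F hN G
  set a₀ := ∫ x in ball (0:ℂ) 1, f₀ x / (1 - ‖x‖ ^ 2) ^ 2 with ha₀
  set a₁ := min (y₀ / 2) 1 with ha₁
  have ha₁0 : 0 < a₁ := lt_min (by linarith) one_pos
  have ha₁y : a₁ < y₀ := lt_of_le_of_lt (min_le_left _ _) (by linarith)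
  have ha₁1 : a₁ ≤ 1 := min_le_right _ _
  set a := a₁ / 2 with ha
  have ha0 : 0 < a := by positivity
  have haa : a < a₁ := by linarith
  obtain ⟨b, hab, hb2, hbL⟩ := Q3_choose (L := ∑ i, l i / 4) hfpos (a₁ := a₁) (by linarith)
  set c := (b + Real.pi / 2) / 2 with hc
  have hbc : b < c := by linarith
  have hc2 : c < Real.pi / 2 := by linarith
  obtain ⟨c₀, hc₀⟩ := exists_step haa
  obtain ⟨c₁, hc₁⟩ := exists_step hbc
  obtain ⟨d, hd⟩ := exists_step (show a / 2 < a by linarith)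
  obtain ⟨χ₀, hχ₀⟩ := exists_cut F G hc₀ (by linarith)
  obtain ⟨χ₁, hχ₁⟩ := exists_cut F G hc₁ hc2
  choose τ hτ using fun i => exists_tau (hl0 i)
  obtain ⟨ψ₁, r, hr, hψc, hψ0, hψs, hψχ, hψS, hIc, hIs, hI0, hPU⟩ :=
    exists_pu F G hl0 hl ha0 (show a < b by linarith) hbc hc2 hc₁ hd hτ hχ₁
  set R := max r rf with hR
  have hR1 : R < 1 := max_lt hr hrf
  set ψ : ℂ → ℝ := fun y => ψ₁ y + ∑ i, psiI (p i) (q i) (τ i) (fun t => (1 - c₁ t) * d t) y with hψ
  have hψsm : ContDiff ℝ 1 ψ := by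
    apply ContDiff.add (hψc.of_le (by norm_num))
    exact ContDiff.sum fun i _ => (hIc i).of_le (by norm_num)
  have hψsupp : ∀ x, R < ‖x‖ → ψ x = 0 := by
    intro x hx
    have hx' : r < ‖x‖ := lt_of_le_of_lt (le_max_left _ _) hx
    simp only [hψ]
    rw [hψs x hx', zero_add]
    exact Finset.sum_eq_zero fun i _ => hIs i x hx'
  have hχ₀1 : ContDiffOn ℝ 1 χ₀ (ball 0 1) := hχ₀.smooth.of_le (by norm_num)
  have hS : ∀ x ∈ ball (0:ℂ) 1, χ₀ x ≠ 0 → F.S ψ x = 1 := by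
    intro x hx h0
    apply hPU x hx
    intro i g
    exact (hχ₀.ne_zero hc₀ (by linarith) (by simpa using hx) h0 i g).le
  have hLU := lemU F hR1 hψsm.contDiffOn hψsupp hχ₀1 hχ₀.invt hS hE1 hEe
  have hBT := boundary_term F G hl0 (w := w) ha0 haa ha₁y hab hbc hc2 hc₀ hc₁ hd hτ hχ₀ hχ₁ hψχ hEc
  have hLB := lower_bound F G hl0 ha0 haa hab hbc hc2 hc₀ hc₁ hd hτ hχ₀ hχ₁ hR1 hψc hψ0
    (fun x hx => hψs x (lt_of_le_of_lt (le_max_left _ _) hx)) hψS hIc
    (fun i x hx => hIs i x (lt_of_le_of_lt (le_max_left _ _) hx)) hf₀ hf0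
    (fun x hx => hfs x (lt_of_le_of_lt (le_max_right _ _) hx)) hfS hfc
  set J := ∫ t in (0:ℝ)..Real.pi, deriv c₀ t * (Real.cos t / Real.sin t) with hJ
  -- real parts
  have hdzE : ContinuousOn (dz E) (ball 0 1) := by
    have h1 : ContDiffOn ℝ ((0:ℕ) + 1) E (ball 0 1) := by
      simpa using hE1
    exact (dz_smooth isOpen_ball h1).1.continuousOn
  have hχc : ContinuousOn χ₀ (ball 0 1) := hχ₀1.continuousOn
  have hψcont : Continuous ψ := hψsm.continuous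
  have hψnn : ∀ x, 0 ≤ ψ x := fun x => add_nonneg (hψ0 x) (Finset.sum_nonneg fun i _ => hI0 i x)
  have hcont1 : ContinuousOn (fun x => ((χ₀ x * ψ x : ℝ) : ℂ) * dz E x) (ball 0 1) :=
    (Complex.continuous_ofReal.comp_continuousOn (hχc.mul hψcont.continuousOn)).mul hdzE
  have hint1 : IntegrableOn (fun x => ((χ₀ x * ψ x : ℝ) : ℂ) * dz E x) (ball 0 1) := by
    refine integrable_supp hcont1 hR1 ?_
    intro x hx
    rw [hψsupp x hx]; simp
  have hTc : ContinuousOn (fun x : ℂ => (1 - ‖x‖ ^ 2) ^ 2) (ball 0 1) := by fun_prop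
  have hTne : ∀ x ∈ ball (0:ℂ) 1, (1 - ‖x‖ ^ 2) ^ 2 ≠ 0 := by
    intro x hx
    have hx1 : ‖x‖ < 1 := by simpa using hx
    have : 0 < 1 - ‖x‖ ^ 2 := by nlinarith [norm_nonneg x]
    positivity
  have hint2 : IntegrableOn (fun x : ℂ => χ₀ x * ψ x / (1 - ‖x‖ ^ 2) ^ 2) (ball 0 1) := by
    refine integrable_supp ((hχc.mul hψcont.continuousOn).div hTc hTne) hR1 ?_
    intro x hx
    rw [hψsupp x hx]; simp
  have hre : (∫ x in ball (0:ℂ) 1, ((χ₀ x * ψ x : ℝ) : ℂ) * dz E x).re ≤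
      - ∫ x in ball (0:ℂ) 1, χ₀ x * ψ x / (1 - ‖x‖ ^ 2) ^ 2 := by
    have h1 : (∫ x in ball (0:ℂ) 1, ((χ₀ x * ψ x : ℝ) : ℂ) * dz E x).re =
        ∫ x in ball (0:ℂ) 1, (((χ₀ x * ψ x : ℝ) : ℂ) * dz E x).re := by
      have := (Complex.reCLM.integral_comp_comm hint1).symm
      exact this
    rw [h1, ← integral_neg]
    apply setIntegral_mono_on
    · exact Complex.reCLM.integrable_comp hint1
    · exact hint2.neg
    · exact measurableSet_ball
    · intro x hx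
      rw [Complex.re_ofReal_mul]
      have h2 := hEd x hx
      have h3 : 0 ≤ χ₀ x * ψ x := mul_nonneg (hχ₀.nonneg x hx) (hψnn x)
      have h4 := mul_le_mul_of_nonneg_left h2 h3
      calc χ₀ x * ψ x * (dz E x).re ≤ χ₀ x * ψ x * (-1 / (1 - ‖x‖ ^ 2) ^ 2) := h4
        _ = -(χ₀ x * ψ x / (1 - ‖x‖ ^ 2) ^ 2) := by ring
  rw [hLU] at hre
  have hBT' : ∫ x in ball (0:ℂ) 1, (ψ x : ℂ) * dz (fun y => ((χ₀ y : ℝ) : ℂ)) x * E x =
      ((∑ i, 1 / 4 * (2 * Real.pi * w i + l i * J) : ℝ) : ℂ) := hBT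
  rw [hBT', ← Complex.ofReal_neg, Complex.ofReal_re] at hre
  have hcot := cot_ibp hc₀ ha0 haa (show a₁ ≤ b by linarith) (by linarith)
  rw [← hJ] at hcot
  have hLB' : ∑ i, l i / 4 * (∫ t in (0:ℝ)..b, c₀ t / Real.sin t ^ 2) + a₀ ≤
      ∫ x in ball (0:ℂ) 1, χ₀ x * ψ x / (1 - ‖x‖ ^ 2) ^ 2 := hLB
  rw [hcot] at hLB'
  have hsum1 : ∑ i, l i / 4 * (J - Real.cos b / Real.sin b) =
      (∑ i, l i / 4) * (J - Real.cos b / Real.sin b) := by rw [Finset.sum_mul]
  have hsum2 : ∑ i, 1 / 4 * (2 * Real.pi * w i + l i * J) =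
      Real.pi / 2 * ∑ i, (w i : ℝ) + (∑ i, l i / 4) * J := by
    rw [Finset.mul_sum, Finset.sum_mul, ← Finset.sum_add_distrib]
    apply Finset.sum_congr rfl
    intro i _
    ring
  rw [hsum1] at hLB'
  rw [hsum2] at hre
  have hwsum : ∑ i, (w i : ℝ) ≤ 0 := Finset.sum_nonpos fun i _ => by exact_mod_cast hw i
  have hpw : Real.pi / 2 * ∑ i, (w i : ℝ) ≤ 0 := mul_nonpos_of_nonneg_of_nonpos (by positivity) hwsum
  have h5 : (∑ i, l i / 4) * (J - Real.cos b / Real.sin b) =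
      (∑ i, l i / 4) * J - (∑ i, l i / 4) * (Real.cos b / Real.sin b) := by ring
  rw [h5] at hLB'
  linarith

end TN

end S_H60_PH_Q3

section S_H60_PH_SM

/-!
SM (equivariant smoothing).  We may assume `y < π/2` (replace `y` by `min y 1`).  `c` a step function between `y/2` and `y` (`exists_step`), `χ` its cut-off function
(`exists_cut`), `φ` from `exists_psi1` (`b = y/2`, `c = y`): `φ ≥ 0` smooth, `φ = 0` for `‖x‖ > r`, `F.S φ = χ` on the disc.  `V₀` from `approx` for `r`.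
`V x = ∑ᶠ g, (φ (act g x) : ℂ) * V₀ (act g x) / dact g x + (1 - χ x) * W x`.
Smooth: near a point of the disc the sum is a finite sum (`fin_supp`) of smooth functions (`act_smooth`, `dact_smooth`, `dact_ne`); `(1 - χ) W` is `C²` at `x ∈ A`
(`hAs`), and if `x ∉ A` then near `x` no point is in `A` (`hAcl`), so all heights are `> y` there and `χ = 1` (`Cut.eq_one`).
Equivariance: `dact (g h) x = dact g (act h x) * dact h x`, reindex the sum by `g ↦ g h` (`finsum_comp_equiv`, `Equiv.mulRight h`).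
`x ∈ A`: `act g x ∈ A`, so for `φ (act g x) ≠ 0` (`‖act g x‖ ≤ r`) `V₀ (act g x) = W (act g x) = dact g x * W x`; the sum is `F.S φ x * W x = χ x * W x`.
`x ∉ A`: `act g x ∉ A` (`hAi` for `g⁻¹`), so `‖V₀ (act g x) / dact g x - W x‖ ≤ ‖W x‖ / 2` when `φ (act g x) ≠ 0`, and
`‖V x - W x‖ = ‖∑ φ (act g x) (V₀ (act g x)/dact g x - W x)‖ ≤ χ x * ‖W x‖ / 2 < ‖W x‖`.
-/

namespace TN
open Metric Set Filter Topology DS MeasureTheory

variable {Γ : Type} [Group Γ]

/-- the averaged field -/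
noncomputable def SM_P (F : Fuchs Γ) (φ : ℂ → ℝ) (V₀ : ℂ → ℂ) (x : ℂ) : ℂ :=
  ∑ᶠ g : Γ, (φ (F.act g x) : ℂ) * V₀ (F.act g x) / F.dact g x

theorem SM_P_eq (F : Fuchs Γ) {φ : ℂ → ℝ} (V₀ : ℂ → ℂ) {r r' : ℝ} (hf : ∀ x, r < ‖x‖ → φ x = 0)
    {t : Finset Γ}
    (ht : ∀ g, g ∉ t → ∀ x : ℂ, ‖x‖ ≤ r' → r < ‖F.act g x‖ ∧ r < ‖F.act g⁻¹ x‖) {x : ℂ}
    (hx : ‖x‖ ≤ r') :
    SM_P F φ V₀ x = ∑ g ∈ t, (φ (F.act g x) : ℂ) * V₀ (F.act g x) / F.dact g x := by
  refine finsum_eq_sum_of_support_subset _ fun g hg => ?_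
  by_contra hgt
  refine hg ?_
  simp only [hf _ (ht g hgt x hx).1, Complex.ofReal_zero, zero_mul, zero_div]

theorem SM_P_smooth (F : Fuchs Γ) {φ : ℂ → ℝ} {V₀ : ℂ → ℂ} {r : ℝ} (hr : r < 1)
    (hf : ∀ x, r < ‖x‖ → φ x = 0) (hφ : ContDiff ℝ 2 φ) (hV : ContDiff ℝ 2 V₀) :
    ContDiffOn ℝ 2 (SM_P F φ V₀) (ball 0 1) := by
  intro x hx
  have hx1 : ‖x‖ < 1 := mem_ball_zero_iff.1 hx
  obtain ⟨t, ht⟩ := fin_supp F hr (r' := (1 + ‖x‖) / 2) (by linarith)
  have h1 : ContDiffOn ℝ 2 (fun y => ∑ g ∈ t, (φ (F.act g y) : ℂ) * V₀ (F.act g y) / F.dact g y)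
      (ball 0 1) := by
    refine ContDiffOn.sum fun g _ => ?_
    simp only [div_eq_mul_inv]
    refine ContDiffOn.mul (ContDiffOn.mul ?_ ?_) (ContDiffOn.inv (dact_smooth F g (n := 2))
      fun y hy => dact_ne F g (mem_ball_zero_iff.1 hy).le)
    · exact Complex.ofRealCLM.contDiff.comp_contDiffOn
        (hφ.comp_contDiffOn (act_smooth F g (n := 2)))
    · exact hV.comp_contDiffOn (act_smooth F g (n := 2))
  have h2 := h1.contDiffAt (isOpen_ball.mem_nhds hx)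
  refine (h2.congr_of_eventuallyEq ?_).contDiffWithinAt
  have h3 : {y : ℂ | ‖y‖ < (1 + ‖x‖) / 2} ∈ 𝓝 x :=
    (isOpen_lt continuous_norm continuous_const).mem_nhds (by show ‖x‖ < _; linarith)
  filter_upwards [h3] with y hy
  exact SM_P_eq F V₀ hf ht (le_of_lt hy)

theorem SM_P_equi (F : Fuchs Γ) (φ : ℂ → ℝ) (V₀ : ℂ → ℂ) (h : Γ) {x : ℂ} (hx : ‖x‖ ≤ 1) :
    SM_P F φ V₀ (F.act h x) = F.dact h x * SM_P F φ V₀ x := by
  have h1 : SM_P F φ V₀ (F.act h x) = ∑ᶠ g : Γ, F.dact h x •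
      ((φ (F.act (g * h) x) : ℂ) * V₀ (F.act (g * h) x) / F.dact (g * h) x) := by
    unfold SM_P
    refine finsum_congr fun g => ?_
    have hd := dact_ne F h hx
    have hd2 := dact_ne F g (act_le F h hx)
    rw [act_mul F g h hx, dact_mul F g h hx, smul_eq_mul]
    field_simp
  rw [h1, ← smul_finsum, smul_eq_mul]
  congr 1
  exact finsum_comp_equiv (Equiv.mulRight h)
    (f := fun g => (φ (F.act g x) : ℂ) * V₀ (F.act g x) / F.dact g x)

theorem smo (F : Fuchs Γ) {n : ℕ} {κ : Fin n → Γ} {p q : Fin n → ℂ} (G : Gaps F n κ p q) {W : ℂ → ℂ}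
    (hW : ContinuousOn W (ball 0 1)) (hWe : F.Equi W) {A : Set ℂ}
    (hAi : ∀ g, ∀ x ∈ ball (0:ℂ) 1, x ∈ A → F.act g x ∈ A)
    (hAcl : ∀ x ∈ ball (0:ℂ) 1, x ∉ A → ∃ ε > 0, ∀ y, dist y x < ε → y ∉ A)
    (hAs : ∀ x ∈ ball (0:ℂ) 1, x ∈ A → ContDiffAt ℝ 2 W x) {y : ℝ} (hy : 0 < y)
    (hyA : ∀ i g, ∀ x ∈ ball (0:ℂ) 1, F.ht (p i) (q i) g x ≤ y → x ∈ A)
    (hne : ∀ x ∈ ball (0:ℂ) 1, x ∉ A → W x ≠ 0) :
    ∃ V : ℂ → ℂ, ContDiffOn ℝ 2 V (ball 0 1) ∧ F.Equi V ∧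
      (∀ x ∈ ball (0:ℂ) 1, x ∈ A → V x = W x) ∧ ∀ x ∈ ball (0:ℂ) 1, x ∉ A → V x ≠ 0 := by
  have hpi : (1:ℝ) < Real.pi / 2 := by have := Real.pi_gt_three; linarith
  obtain ⟨y', hy'⟩ : ∃ y', y' = min y 1 := ⟨_, rfl⟩
  have hy0 : 0 < y' := by rw [hy']; exact lt_min hy one_pos
  have hyy : y' ≤ y := by rw [hy']; exact min_le_left _ _
  have hypi : y' < Real.pi / 2 := by rw [hy']; exact (min_le_right _ _).trans_lt hpi
  obtain ⟨c, hc⟩ := exists_step (a := y' / 2) (b := y') (by linarith)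
  obtain ⟨χ, hχ⟩ := exists_cut F G hc hypi
  obtain ⟨φ, r, hr, hφs, hφ0, hφr, -, hφS⟩ := exists_psi1 F G hc (by linarith) (by linarith) hχ
  obtain ⟨V₀, hV₀, hVA, hVn⟩ := approx hr hW hAcl hAs hne
  have hχ1 : ∀ x ∈ ball (0:ℂ) 1, x ∉ A → χ x = 1 := by
    intro x hx hxA
    refine hχ.eq_one hc (mem_ball_zero_iff.1 hx) fun i g => ?_
    by_contra hlt
    push Not at hlt
    exact hxA (hyA i g x hx (hlt.le.trans hyy))
  have hsmooth : ContDiffOn ℝ 2 (fun x => ((1 - χ x : ℝ) : ℂ) * W x) (ball 0 1) := by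
    intro x hx
    by_cases hxA : x ∈ A
    · have h1 : ContDiffAt ℝ 2 χ x := hχ.smooth.contDiffAt (isOpen_ball.mem_nhds hx)
      have h2 : ContDiffAt ℝ 2 (fun x => ((1 - χ x : ℝ) : ℂ)) x :=
        Complex.ofRealCLM.contDiff.contDiffAt.comp x (contDiffAt_const.sub h1)
      exact (h2.mul (hAs x hx hxA)).contDiffWithinAt
    · obtain ⟨ε, hε, hA⟩ := hAcl x hx hxA
      have h1 : (fun x => ((1 - χ x : ℝ) : ℂ) * W x) =ᶠ[𝓝 x] fun _ => (0:ℂ) := by
        filter_upwards [ball_mem_nhds x hε, isOpen_ball.mem_nhds hx] with z hz hz1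
        rw [hχ1 z hz1 (hA z hz), sub_self, Complex.ofReal_zero, zero_mul]
      exact (contDiffAt_const.congr_of_eventuallyEq h1).contDiffWithinAt
  refine ⟨fun x => SM_P F φ V₀ x + ((1 - χ x : ℝ) : ℂ) * W x,
    (SM_P_smooth F hr hφr hφs hV₀).add hsmooth, ?_, ?_, ?_⟩
  · intro g x hx
    have hx1 := (mem_ball_zero_iff.1 hx).le
    show SM_P F φ V₀ (F.act g x) + ((1 - χ (F.act g x) : ℝ) : ℂ) * W (F.act g x) =
      F.dact g x * (SM_P F φ V₀ x + ((1 - χ x : ℝ) : ℂ) * W x)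
    rw [SM_P_equi F φ V₀ g hx1, hχ.invt g x hx, hWe g x hx]
    ring
  · intro x hx hxA
    have hx1 := (mem_ball_zero_iff.1 hx).le
    obtain ⟨t, ht⟩ := fin_supp F hr (mem_ball_zero_iff.1 hx)
    show SM_P F φ V₀ x + ((1 - χ x : ℝ) : ℂ) * W x = W x
    rw [SM_P_eq F V₀ hφr ht le_rfl]
    have h1 : ∀ g ∈ t, (φ (F.act g x) : ℂ) * V₀ (F.act g x) / F.dact g x =
        (φ (F.act g x) : ℂ) * W x := by
      intro g _
      by_cases hz : φ (F.act g x) = 0
      · rw [hz]; simp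
      · have hle : ‖F.act g x‖ ≤ r := by
          by_contra hlt
          exact hz (hφr _ (not_le.1 hlt))
        have hd := dact_ne F g hx1
        rw [hVA _ hle (hAi g x hx hxA), hWe g x hx]
        field_simp
    rw [Finset.sum_congr rfl h1, ← Finset.sum_mul]
    have h2 : ∑ g ∈ t, (φ (F.act g x) : ℂ) = (χ x : ℂ) := by
      rw [← hφS x hx, S_eq F hφr ht le_rfl]
      push_cast
      rfl
    rw [h2]
    push_cast
    ring
  · intro x hx hxA h0
    have hx1 := (mem_ball_zero_iff.1 hx).le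
    have hWx := hne x hx hxA
    have h0' : SM_P F φ V₀ x = 0 := by
      have h1 : SM_P F φ V₀ x + ((1 - χ x : ℝ) : ℂ) * W x = 0 := h0
      rw [hχ1 x hx hxA, sub_self, Complex.ofReal_zero, zero_mul, add_zero] at h1
      exact h1
    obtain ⟨t, ht⟩ := fin_supp F hr (mem_ball_zero_iff.1 hx)
    have hsum : ∑ g ∈ t, φ (F.act g x) = 1 := by
      rw [← S_eq F hφr ht le_rfl, hφS x hx, hχ1 x hx hxA]
    have h2 : SM_P F φ V₀ x - W x =
        ∑ g ∈ t, (φ (F.act g x) : ℂ) * (V₀ (F.act g x) / F.dact g x - W x) := by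
      have h5 : ∑ g ∈ t, (φ (F.act g x) : ℂ) * W x = W x := by
        rw [← Finset.sum_mul, ← Complex.ofReal_sum, hsum, Complex.ofReal_one, one_mul]
      have h6 : ∑ g ∈ t, (φ (F.act g x) : ℂ) * (V₀ (F.act g x) / F.dact g x - W x) =
          ∑ g ∈ t, (φ (F.act g x) : ℂ) * V₀ (F.act g x) / F.dact g x -
            ∑ g ∈ t, (φ (F.act g x) : ℂ) * W x := by
        rw [← Finset.sum_sub_distrib]
        refine Finset.sum_congr rfl fun g _ => ?_
        ring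
      rw [h6, h5, SM_P_eq F V₀ hφr ht le_rfl]
    have h3 : ‖SM_P F φ V₀ x - W x‖ ≤ ∑ g ∈ t, φ (F.act g x) * (‖W x‖ / 2) := by
      rw [h2]
      refine (norm_sum_le _ _).trans (Finset.sum_le_sum fun g _ => ?_)
      by_cases hz : φ (F.act g x) = 0
      · simp [hz]
      · have hle : ‖F.act g x‖ ≤ r := by
          by_contra hlt
          exact hz (hφr _ (not_le.1 hlt))
        have hd := dact_ne F g hx1
        have hnA : F.act g x ∉ A := by
          intro hA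
          have h7 := hAi g⁻¹ _ (mem_ball_zero_iff.2 (act_lt F g (mem_ball_zero_iff.1 hx))) hA
          rw [act_inv_act F g hx1] at h7
          exact hxA h7
        rw [norm_mul, Complex.norm_real, Real.norm_of_nonneg (hφ0 _)]
        refine mul_le_mul_of_nonneg_left ?_ (hφ0 _)
        have h4 := hVn _ hle hnA
        rw [hWe g x hx] at h4
        have h8 : V₀ (F.act g x) / F.dact g x - W x =
            (V₀ (F.act g x) - F.dact g x * W x) / F.dact g x := by field_simp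
        rw [h8, norm_div, div_le_iff₀ (norm_pos_iff.2 hd)]
        rw [norm_mul] at h4
        linarith
    rw [← Finset.sum_mul, hsum, one_mul, h0', zero_sub, norm_neg] at h3
    have h9 := norm_pos_iff.2 hWx
    linarith

end TN

end S_H60_PH_SM

section S_H60_PH_FN

/-!
FN (assembly of the Poincare-Hopf block, section 3.7 of /team-store/H12_8a27c0_general.md).
`V = vf H`; logarithms in the collars (`collar`, `collar_log`), holes filled (`holes_field`), collars straightened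
(`collar_field`), equivariant smoothing (`smo`), connection form (`exists_form`), contradiction (`no_form`).
-/

namespace TN
open Metric Set Filter Topology DS MeasureTheory

variable {Γ : Type} [Group Γ]

theorem FN_rad {m : ℕ} {C : Fin m → Set ℂ} (hC : ∀ i, IsClosed (C i)) (hs : ∀ i, C i ⊆ ball 0 1) :
    ∃ r : ℝ, r < 1 ∧ ∀ i, ∀ x ∈ C i, ‖x‖ ≤ r := by
  have h1 : ∀ i, ∃ r : ℝ, r < 1 ∧ ∀ x ∈ C i, ‖x‖ ≤ r := by
    intro i
    have hcomp : IsCompact (C i) :=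
      Metric.isCompact_of_isClosed_isBounded (hC i) (isBounded_ball.subset (hs i))
    rcases (C i).eq_empty_or_nonempty with h | h
    · exact ⟨0, one_pos, by rw [h]; simp⟩
    · obtain ⟨z, hz, hz'⟩ := hcomp.exists_isMaxOn h continuous_norm.continuousOn
      exact ⟨‖z‖, by simpa using hs i hz, fun x hx => hz' hx⟩
  choose r hr hrx using h1
  rcases (Finset.univ : Finset (Fin m)).eq_empty_or_nonempty with h | h
  · refine ⟨0, one_pos, fun i => ?_⟩
    have := Finset.mem_univ i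
    rw [h] at this
    simp at this
  · obtain ⟨j, _, hj⟩ := Finset.exists_max_image Finset.univ r h
    exact ⟨r j, hr j, fun i x hx => (hrx i x hx).trans (hj i (Finset.mem_univ i))⟩

theorem FN_min {n : ℕ} {y : Fin n → ℝ} (hy : ∀ i, 0 < y i) {z : ℝ} (hz : 0 < z) :
    ∃ Y : ℝ, 0 < Y ∧ Y < z ∧ ∀ i, Y ≤ y i := by
  have h1 : ∀ᶠ Y in 𝓝[>] (0:ℝ), ∀ i, Y ≤ y i := by
    rw [eventually_all]
    intro i
    exact nhdsWithin_le_nhds (Iic_mem_nhds (hy i))
  have h2 : ∀ᶠ Y in 𝓝[>] (0:ℝ), Y < z := nhdsWithin_le_nhds (Iio_mem_nhds hz)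
  have h3 : ∀ᶠ Y in 𝓝[>] (0:ℝ), 0 < Y := self_mem_nhdsWithin
  obtain ⟨Y, hY⟩ := (h1.and (h2.and h3)).exists
  exact ⟨Y, hY.2.2, hY.2.1, hY.1⟩

/-- translates of small balls: closed locally -/
theorem FN_cl1 (F : Fuchs Γ) {m : ℕ} {k : Fin m → ℂ} {s r : ℝ} (hr : r < 1)
    (hk : ∀ i, ∀ y ∈ closedBall (k i) s, ‖y‖ ≤ r) {x : ℂ} (hx : ‖x‖ < 1)
    (h : ∀ g i, F.act g x ∉ closedBall (k i) s) :
    ∀ᶠ y in 𝓝 x, ∀ g i, F.act g y ∉ closedBall (k i) s := by
  set r' := (1 + ‖x‖) / 2 with hr'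
  have hr'1 : r' < 1 := by linarith
  have hxr' : ‖x‖ < r' := by linarith
  obtain ⟨t, ht⟩ := fin_supp F hr hr'1
  have h1 : ∀ᶠ y in 𝓝 x, ‖y‖ < r' := continuous_norm.continuousAt.eventually (gt_mem_nhds hxr')
  have h2 : ∀ᶠ y in 𝓝 x, ∀ g ∈ t, ∀ i, F.act g y ∉ closedBall (k i) s := by
    rw [Filter.eventually_all_finset]
    intro g _
    rw [eventually_all]
    intro i
    have hc : ContinuousAt (F.act g) x :=
      (act_cont F g).continuousAt (mem_of_superset (isOpen_ball.mem_nhds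
        (by simpa using hx : x ∈ ball (0:ℂ) 1)) ball_subset_closedBall)
    exact hc.eventually (isClosed_closedBall.isOpen_compl.mem_nhds (h g i))
  filter_upwards [h1, h2] with y hy1 hy2 g i hmem
  by_cases hg : g ∈ t
  · exact hy2 g hg i hmem
  · have := (ht g hg y hy1.le).1
    have h3 := hk i _ hmem
    linarith

/-- heights greater than `y` everywhere: an open condition -/
theorem FN_cl2 (F : Fuchs Γ) {n : ℕ} {κ : Fin n → Γ} {p q : Fin n → ℂ} (G : Gaps F n κ p q) {y : ℝ}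
    (hy : y < Real.pi / 2) {x : ℂ} (hx : ‖x‖ < 1) (h : ∀ i g, y < F.ht (p i) (q i) g x) :
    ∃ δ > 0, ∀ x' ∈ ball (0:ℂ) 1, dist x' x < δ → ∀ i g, y < F.ht (p i) (q i) g x' := by
  have hm : ∃ M, y < M ∧ ∀ i g, M ≤ F.ht (p i) (q i) g x := by
    by_cases hex : ∃ i g, F.ht (p i) (q i) g x < Real.pi / 2
    · obtain ⟨i, g, hig⟩ := hex
      refine ⟨F.ht (p i) (q i) g x, h i g, ?_⟩
      intro j h'
      by_cases hj : F.ht (p j) (q j) h' x < Real.pi / 2
      · obtain ⟨e1, e2⟩ := ht_disj F G hx hig hj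
        subst e1
        have := ht_kappa F G i e2 g hx
        rw [inv_mul_cancel_right] at this
        exact this.ge
      · push Not at hj
        exact hig.le.trans hj
    · push Not at hex
      exact ⟨Real.pi / 2, hy, hex⟩
  obtain ⟨M, hM, hMx⟩ := hm
  obtain ⟨δ, hδ, hδ'⟩ := ht_lip F G hx (η := M - y) (by linarith)
  refine ⟨δ, hδ, fun x' hx' hd i g => ?_⟩
  have h1 := (abs_lt.1 (hδ' x' hx' hd i g)).1
  have h2 := hMx i g
  linarith

theorem FN_ht_one (F : Fuchs Γ) (p q : ℂ) {x : ℂ} (hx : ‖x‖ < 1) : F.ht p q 1 x = (om p q x).im := by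
  unfold Fuchs.ht
  rw [act_one F hx.le]

/-- a map commuting with a nonelementary convex cocompact group, with holes of index one inside and
superattracting or superrepelling fixed points on the gaps, does not exist -/
theorem ph' (F : Fuchs Γ) (hN : F.Nonel) (hU : F.UC) {e : Elt Γ} (he : Norm F e)
    (hc : ∀ g, e.θ g = g) {m : ℕ} {O : Fin m → Set ℂ} {k : Fin m → ℂ} (ho : Holes F e.H ⊤ m O k)
    (hT : ∀ ξ : ℂ, ‖ξ‖ = 1 → ξ ∉ F.lim → e.H ξ = ξ → SA e.H ξ ∨ SA e.Hi ξ) : False := by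
  have hpi := Real.pi_gt_three
  obtain ⟨n, κ, p, q, G⟩ := gaps F hN hU
  choose l hl0 hl' using fun i => om_act (F := F) (G.ar i)
  have hDpq : ∀ i, ∀ x ∈ ball (0:ℂ) 1, x ∈ Dpq (p i) (q i) := by
    intro i x hx
    have hx1 : ‖x‖ < 1 := by simpa using hx
    refine ⟨hx1.le, ?_, ?_⟩
    · rintro rfl
      linarith [(G.ar i).np]
    · rintro rfl
      linarith [(G.ar i).nq]
  have hl : ∀ i, ∀ x ∈ ball (0:ℂ) 1, om (p i) (q i) (F.act (κ i) x) = om (p i) (q i) x + l i :=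
    fun i x hx => (hl' i x (hDpq i x hx)).2
  choose y1 hy10 hy1π hy1ne L hLc hL w hw hLp using fun i =>
    collar F he (G.ar i) (hc (κ i)) (hl i)
      (fun ξ hξ hξp hξq hξe hξf => hT ξ hξ (G.gap i ξ hξ hξp hξe) hξf)
  choose M hMc hMp hM using fun i =>
    collar_log F he (G.ar i) (hy1π i) (hLc i) (hL i) (hLp i)
  obtain ⟨r, hr, hrO⟩ := FN_rad (C := fun i => closure (O i)) (fun i => isClosed_closure) ho.sub
  obtain ⟨yF, hyF0, hyF⟩ := ht_fin F G hr
  obtain ⟨Y, hY0, hYz, hYy⟩ := FN_min hy10 (z := min yF 1) (lt_min hyF0 one_pos)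
  have hYF : Y < yF := lt_of_lt_of_le hYz (min_le_left _ _)
  have hY1 : Y < 1 := lt_of_lt_of_le hYz (min_le_right _ _)
  have hYπ : Y < Real.pi / 2 := by linarith
  -- points of low height are in no hole
  have hlow : ∀ i h, ∀ x ∈ ball (0:ℂ) 1, F.ht (p i) (q i) h x < yF → ∀ g, ∀ z : ℂ, ‖z‖ ≤ r → F.act g x = z → False := by
    intro i h x hx hhx g z hz hgz
    have hx1 : ‖x‖ < 1 := by simpa using hx
    have h1 := hyF z hz i (h * g⁻¹)
    rw [← hgz, ht_mul F (p i) (q i) (h * g⁻¹) g hx1, inv_mul_cancel_right] at h1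
    linarith
  have hlow' : ∀ i, ∀ x ∈ ball (0:ℂ) 1, ∀ h, F.ht (p i) (q i) h x < yF → ∀ g j, F.act g x ∉ closure (O j) := by
    intro i x hx h hhx g j hmem
    exact hlow i h x hx hhx g _ (hrO j _ hmem) rfl
  -- the field in the holes
  have hV0 : ∀ x ∈ ball (0:ℂ) 1, vf e.H x = 0 → ∃ g i, F.act g x ∈ O i := by
    intro x hx h0
    obtain ⟨g, _, i, y, hy, hyx⟩ := ho.fix x hx ((vf_zero he hx).1 h0)
    have hy1 : ‖y‖ ≤ 1 := by
      have := ho.sub i (subset_closure hy)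
      have : ‖y‖ < 1 := by simpa using this
      exact this.le
    refine ⟨g⁻¹, i, ?_⟩
    rw [← hyx, act_inv_act F g hy1]
    exact hy
  obtain ⟨V₁, s, hs, hV₁c, hV₁e, hV₁k, hV₁0, hV₁V⟩ :=
    holes_field F ho (vf_cont he) (vf_equi F he hc) hV0 (vf_log F he ho)
  have hV₁M : ∀ i, ∀ x ∈ ball (0:ℂ) 1, (om (p i) (q i) x).im ≤ Y →
      V₁ x = Xf (p i) (q i) x * Complex.exp (M i (om (p i) (q i) x)) := by
    intro i x hx hxY
    have hx1 : ‖x‖ < 1 := by simpa using hx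
    rw [hV₁V x hx, hM i x hx (hxY.trans (hYy i))]
    intro g j hmem
    refine hlow' i x hx 1 ?_ g j (subset_closure hmem)
    rw [FN_ht_one F _ _ hx1]
    linarith
  -- the field in the collars
  obtain ⟨V₂, hV₂c, hV₂e, hV₂X, hV₂0, hV₂V⟩ := collar_field F G hl0 hl (w := w) hY0 hYπ hV₁c hV₁e
    (M := M) (fun i => (hMc i).mono fun ω hω => ⟨hω.1, hω.2.trans (hYy i)⟩)
    (fun i ω h1 h2 => hMp i ω h1 (h2.trans (hYy i))) hV₁M
  set s' := s / 2 with hs'
  have hs'0 : 0 < s' := by positivity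
  have hkO : ∀ i, closedBall (k i) s' ⊆ O i := fun i =>
    (closedBall_subset_closedBall (by linarith)).trans (hV₁k i).1
  have hkr : ∀ i, ∀ y ∈ closedBall (k i) s', ‖y‖ ≤ r := fun i y hy =>
    hrO i y (subset_closure (hkO i hy))
  have hkb : ∀ i, closedBall (k i) s' ⊆ ball 0 1 := fun i => (hkO i).trans (subset_closure.trans (ho.sub i))
  have hV₂k : ∀ i, ∀ x ∈ closedBall (k i) s, V₂ x = x - k i := by
    intro i x hx
    have hxO : x ∈ O i := (hV₁k i).1 hx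
    have hxr : ‖x‖ ≤ r := hrO i x (subset_closure hxO)
    rw [hV₂V x (ho.sub i (subset_closure hxO)) (fun j g => hYF.le.trans (hyF x hxr j g))]
    exact (hV₁k i).2 x hx
  -- smoothing
  set A : Set ℂ := {x | (∃ g i, F.act g x ∈ closedBall (k i) s') ∨ ∃ i g, F.ht (p i) (q i) g x ≤ Y / 4} with hA
  have hAi : ∀ g, ∀ x ∈ ball (0:ℂ) 1, x ∈ A → F.act g x ∈ A := by
    intro g x hx hxA
    have hx1 : ‖x‖ < 1 := by simpa using hx
    rcases hxA with ⟨h, i, hh⟩ | ⟨i, h, hh⟩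
    · left
      refine ⟨h * g⁻¹, i, ?_⟩
      rw [← act_mul F _ _ hx1.le, inv_mul_cancel_right]
      exact hh
    · right
      refine ⟨i, h * g⁻¹, ?_⟩
      rw [ht_mul F _ _ _ _ hx1, inv_mul_cancel_right]
      exact hh
  have hAcl : ∀ x ∈ ball (0:ℂ) 1, x ∉ A → ∃ ε > 0, ∀ y, dist y x < ε → y ∉ A := by
    intro x hx hxA
    have hx1 : ‖x‖ < 1 := by simpa using hx
    have hxA' : (∀ g i, F.act g x ∉ closedBall (k i) s') ∧ ∀ i g, Y / 4 < F.ht (p i) (q i) g x := by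
      constructor
      · intro g i hmem
        exact hxA (Or.inl ⟨g, i, hmem⟩)
      · intro i g
        by_contra hle
        push Not at hle
        exact hxA (Or.inr ⟨i, g, hle⟩)
    have h1 := FN_cl1 F hr hkr hx1 hxA'.1
    obtain ⟨δ, hδ, hδ'⟩ := FN_cl2 F G (by linarith : Y / 4 < Real.pi / 2) hx1 hxA'.2
    have h2 : ∀ᶠ y in 𝓝 x, y ∈ ball (0:ℂ) 1 := isOpen_ball.mem_nhds hx
    have h3 : ∀ᶠ y in 𝓝 x, dist y x < δ := ball_mem_nhds x hδ
    obtain ⟨ε, hε, hε'⟩ := Metric.eventually_nhds_iff.1 (h1.and (h2.and h3))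
    refine ⟨ε, hε, fun y hy hyA => ?_⟩
    obtain ⟨g1, g2, g3⟩ := hε' hy
    rcases hyA with ⟨g, i, hmem⟩ | ⟨i, g, hle⟩
    · exact g1 g i hmem
    · exact absurd (hδ' y g2 g3 i g) (not_lt.2 hle)
  have hAs : ∀ x ∈ ball (0:ℂ) 1, x ∈ A → ContDiffAt ℝ 2 V₂ x := by
    intro x hx hxA
    have hx1 : ‖x‖ < 1 := by simpa using hx
    have hbx : ball (0:ℂ) 1 ∈ 𝓝 x := isOpen_ball.mem_nhds hx
    have hact : ∀ g, ContDiffAt ℝ 2 (F.act g) x := fun g => (act_smooth F g (n := 2)).contDiffAt hbx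
    have hdact : ∀ g, ContDiffAt ℝ 2 (F.dact g) x := fun g => (dact_smooth F g (n := 2)).contDiffAt hbx
    have hcont : ∀ g, ContinuousAt (F.act g) x := fun g => (hact g).continuousAt
    -- reduction to the point `act g x`
    have hred : ∀ (g : Γ) (W : ℂ → ℂ), ContDiffAt ℝ 2 W (F.act g x) →
        (∀ᶠ y in 𝓝 x, V₂ (F.act g y) = W (F.act g y)) → ContDiffAt ℝ 2 V₂ x := by
      intro g W hW hev
      have h1 : ContDiffAt ℝ 2 (fun y => W (F.act g y) / F.dact g y) x := by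
        have h2 : ContDiffAt ℝ 2 (fun y => W (F.act g y) * (F.dact g y)⁻¹) x :=
          (hW.comp x (hact g)).mul (ContDiffAt.inv (hdact g) (dact_ne F g hx1.le))
        simpa only [div_eq_mul_inv] using h2
      refine h1.congr_of_eventuallyEq ?_
      filter_upwards [hev, hbx] with y hy hyb
      have hy1 : ‖y‖ < 1 := by simpa using hyb
      rw [← hy, hV₂e g y hyb]
      field_simp [dact_ne F g hy1.le]
    rcases hxA with ⟨g, i, hmem⟩ | ⟨i, g, hle⟩
    · refine hred g (fun y => y - k i) (contDiffAt_id.sub contDiffAt_const) ?_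
      have hb : F.act g x ∈ ball (k i) s := by
        rw [mem_closedBall] at hmem
        rw [mem_ball]
        linarith
      filter_upwards [(hcont g).eventually (isOpen_ball.mem_nhds hb)] with y hy
      exact hV₂k i _ (ball_subset_closedBall hy)
    · have hgb : F.act g x ∈ ball (0:ℂ) 1 := by simpa using act_lt F g hx1
      have hgn : ball (0:ℂ) 1 ∈ 𝓝 (F.act g x) := isOpen_ball.mem_nhds hgb
      have hpq := G.ar i
      have hom : ContDiffAt ℝ 2 (om (p i) (q i)) (F.act g x) :=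
        (om_smooth hpq.np hpq.nq hpq.ne (n := 2)).contDiffAt hgn
      have hXf : ContDiffAt ℝ 2 (Xf (p i) (q i)) (F.act g x) :=
        ((omD_smooth hpq.np hpq.nq hpq.ne (n := 2)).2.1).contDiffAt hgn
      refine hred g (fun y => Xf (p i) (q i) y *
        Complex.exp (((2 * Real.pi * w i / l i * (om (p i) (q i) y).re : ℝ) : ℂ) * Complex.I)) ?_ ?_
      · refine hXf.mul ?_
        have h2 : ContDiffAt ℝ 2 (fun y => ((2 * Real.pi * w i / l i * (om (p i) (q i) y).re : ℝ) : ℂ) *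
            Complex.I) (F.act g x) := by
          have h3 : ContDiffAt ℝ 2 (fun y => (om (p i) (q i) y).re) (F.act g x) :=
            Complex.reCLM.contDiff.contDiffAt.comp _ hom
          have h4 : ContDiffAt ℝ 2 (fun y => 2 * Real.pi * w i / l i * (om (p i) (q i) y).re) (F.act g x) :=
            contDiffAt_const.mul h3
          exact (Complex.ofRealCLM.contDiff.contDiffAt.comp _ h4).mul contDiffAt_const
        exact h2.cexp
      · obtain ⟨δ, hδ, hδ'⟩ := ht_lip F G hx1 (η := Y / 4) (by linarith)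
        filter_upwards [hbx, ball_mem_nhds x hδ] with y hyb hyd
        have hy1 : ‖y‖ < 1 := by simpa using hyb
        have hgy : F.act g y ∈ ball (0:ℂ) 1 := by simpa using act_lt F g hy1
        apply hV₂X i _ hgy
        have h5 := (abs_lt.1 (hδ' y hyb hyd i g)).2
        have h6 : F.ht (p i) (q i) g y = (om (p i) (q i) (F.act g y)).im := rfl
        rw [h6] at h5
        linarith
  have hyA : ∀ i g, ∀ x ∈ ball (0:ℂ) 1, F.ht (p i) (q i) g x ≤ Y / 4 → x ∈ A :=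
    fun i g x _ h => Or.inr ⟨i, g, h⟩
  have hV₂z : ∀ x ∈ ball (0:ℂ) 1, V₂ x = 0 → ∃ g i, F.act g x = k i := fun x hx h0 =>
    hV₁0 x hx ((hV₂0 x hx).1 h0)
  have hne : ∀ x ∈ ball (0:ℂ) 1, x ∉ A → V₂ x ≠ 0 := by
    intro x hx hxA h0
    obtain ⟨g, i, hgi⟩ := hV₂z x hx h0
    apply hxA
    left
    refine ⟨g, i, ?_⟩
    rw [hgi]
    exact mem_closedBall_self hs'0.le
  obtain ⟨V₃, hV₃s, hV₃e, hV₃A, hV₃n⟩ := smo F G hV₂c hV₂e hAi hAcl hAs (y := Y / 4) (by linarith) hyA hne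
  -- the form
  have hdis : ∀ i j g, (g ≠ 1 ∨ i ≠ j) →
      Disjoint (F.act g '' closedBall (k i) s') (closedBall (k j) s') := by
    intro i j g h
    exact (ho.disj i j g (Subgroup.mem_top g) h).mono
      (image_mono ((hkO i).trans subset_closure)) ((hkO j).trans subset_closure)
  have hV₃k : ∀ i, ∀ x ∈ closedBall (k i) s', V₃ x = x - k i := by
    intro i x hx
    have hxb := hkb i hx
    have hx1 : ‖x‖ < 1 := by simpa using hxb
    rw [hV₃A x hxb (Or.inl ⟨1, i, by rw [act_one F hx1.le]; exact hx⟩)]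
    exact hV₂k i x (closedBall_subset_closedBall (by linarith) hx)
  have hV₃z : ∀ x ∈ ball (0:ℂ) 1, V₃ x = 0 → ∃ g i, F.act g x = k i := by
    intro x hx h0
    by_cases hxA : x ∈ A
    · rw [hV₃A x hx hxA] at h0
      exact hV₂z x hx h0
    · exact absurd h0 (hV₃n x hx hxA)
  obtain ⟨E, hE1, hEe, hEd, hEV⟩ := exists_form F hs'0 hkb hdis hV₃s hV₃e hV₃k hV₃z
  refine no_form F hN G hl0 hl hw (y₀ := Y / 4) (by linarith) hE1 hEe hEd ?_
  intro i x hx hxY
  have hx1 : ‖x‖ < 1 := by simpa using hx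
  have hpq := G.ar i
  rw [hEV x hx]
  · apply e0_collar hpq.np hpq.nq hpq.ne hx1
    have hom : ContinuousAt (om (p i) (q i)) x :=
      ((om_smooth hpq.np hpq.nq hpq.ne (n := 0)).contDiffAt (isOpen_ball.mem_nhds hx)).continuousAt
    have him : ContinuousAt (fun y => (om (p i) (q i) y).im) x := Complex.continuous_im.continuousAt.comp hom
    filter_upwards [isOpen_ball.mem_nhds hx, him.eventually (gt_mem_nhds hxY)] with y hyb hyY
    have hy1 : ‖y‖ < 1 := by simpa using hyb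
    rw [hV₃A y hyb (Or.inr ⟨i, 1, by rw [FN_ht_one F _ _ hy1]; exact hyY.le⟩)]
    exact hV₂X i y hyb (by linarith)
  · intro g j hmem
    refine hlow i 1 x hx ?_ g _ (hkr j _ hmem) rfl
    rw [FN_ht_one F _ _ hx1]
    linarith

end TN

end S_H60_PH_FN
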