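import Mathlib
import Pool.Agent.H12.KS.K04
import Pool.Agent.H12.KS.K34

/-! Joined modules of the proof of MP_8a27c0_an (one section per module). -/

section S_H57_TOR_Defs

/-!
Project MP_8a27c0_TN, block B14 (helper57): the torus case ((2.3) of the note).  Definitions.

Plan.  `X` is the plane, `W = fil X U` is the plane, `Γ` acts by the lattice `l : Γ → ℂ`, `H = A c ∘ G^n` fixes a point,
`V x = H x - x`, `V (x + l d) = V x + l (θ^n d) - l d`.  The fixed points of `H` are in finitely many islands modulo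
`Z = {l d | θ^n d = d}`; `MD` changes `V` inside the islands, so that it has simple zeros (of index one) at points `k i + z`.
By the choice of `n` (`AM`, `AG`) the automorphism `θ^n` of the lattice is either hyperbolic (`det (θ^n - 1) < 0`; then `Z = 0` and
`V x = a x + b conj x + O(1)`, `|a| < |b|`, so the number of zeros is the winding number `-1` at infinity, `C3`), or it is
`e₁ ↦ e₁`, `e₂ ↦ e₂ + n e₁`; then `V` is `e₁`-periodic and its winding numbers along two lines `ℝ e₁ + i y e₁` on both sides of all zeros of one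
period are equal (`C1` if `n = 0`, `C2` if `n ≠ 0`), so the number of zeros is `0` (`ST`).
-/

namespace TOR

open Metric Set Filter Topology DS

/-- a continuous vector field on the plane, invariant under the translations in `Z`, whose zeros are the points `k i + z`, `z ∈ Z`,
all simple of index one -/
structure Field (Z : AddSubgroup ℂ) (V : ℂ → ℂ) (m : ℕ) (k : Fin m → ℂ) : Prop where
  cont : Continuous V
  inv : ∀ z ∈ Z, ∀ x, V (x + z) = V x
  zero : ∀ x, V x = 0 ↔ ∃ z ∈ Z, ∃ i, x + z = k i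
  ne : ∀ i j, k i - k j ∈ Z → i = j
  loc : ∀ i, ∃ q : ℂ → ℂ, Continuous q ∧ (∀ x, q x ≠ 0) ∧ ∀ᶠ x in 𝓝 (k i), V x = (x - k i) * q x

/-- `e₁`, `e₂` is a basis of the lattice `l Γ` -/
structure Bas {Γ : Type} (l : Γ → ℂ) (e₁ e₂ : Γ) : Prop where
  ne : l e₁ ≠ 0
  im : (l e₂ / l e₁).im ≠ 0
  gen : ∀ g, ∃ a b : ℤ, l g = a * l e₁ + b * l e₂

/-- `l` is the lattice of the group `Γ` -/
structure Lat {Γ : Type} [Group Γ] (l : Γ → ℂ) : Prop where
  mul : ∀ g h, l (g * h) = l g + l h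
  inj : Function.Injective l
  fin : ∀ R : ℝ, {g | ‖l g‖ ≤ R}.Finite
  coc : ∃ R : ℝ, ∀ x : ℂ, ∃ g, ‖x + l g‖ ≤ R

end TOR

end S_H57_TOR_Defs

section S_H57_TOR_AM

/-!
AM (integer matrices of size two).  `t = trace M`, Cayley-Hamilton: `M * M = t • M - 1`.
If `|t| ≥ 3`, `j = 2`: `det (M ^ 2 - 1) = 2 - trace (M ^ 2) = 4 - t ^ 2 < 0` (compute with the entries, using `a d - b c = 1`).
If `|t| ≤ 2`, `j = 12`: `t = 0`: `M ^ 4 = 1`; `t = 1`: `M ^ 3 = -1`; `t = -1`: `M ^ 3 = 1`; `t = ± 2`: `(M ^ 2 - 1) ^ 2 = (± 2 (M ∓ 1)) ^ 2 = 0`, and `M ^ 12 - 1 = (M ^ 2 - 1) * (polynomial in M)`.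
So `(M ^ 12 - 1) ^ 2 = 0` in all these cases.
-/

namespace TOR

theorem am_cases (M : Matrix (Fin 2) (Fin 2) ℤ) (h : M.det = 1) :
    ∃ j : ℕ, 0 < j ∧ ((M ^ j - 1).det < 0 ∨ (M ^ j - 1) * (M ^ j - 1) = 0) := by
  have hdet : M 0 0 * M 1 1 - M 0 1 * M 1 0 = 1 := by rw [← Matrix.det_fin_two]; exact h
  have hsq : M * M = (M 0 0 + M 1 1) • M - 1 := by
    ext i j
    simp only [Matrix.sub_apply, Matrix.smul_apply, smul_eq_mul, Matrix.mul_apply,
      Fin.sum_univ_two, Matrix.one_apply]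
    fin_cases i <;> fin_cases j
    · norm_num; linear_combination -hdet
    · norm_num; ring
    · norm_num; ring
    · norm_num; linear_combination -hdet
  set t := M 0 0 + M 1 1 with ht
  by_cases hbig : 3 ≤ |t|
  · refine ⟨2, two_pos, Or.inl ?_⟩
    have h1 : (M ^ 2 - 1).det = 4 - t ^ 2 := by
      rw [pow_two, Matrix.det_fin_two]
      simp only [Matrix.sub_apply, Matrix.mul_apply, Fin.sum_univ_two, Matrix.one_apply]
      simp only [ht]
      norm_num
      linear_combination (M 0 0 * M 1 1 - M 0 1 * M 1 0 + 3) * hdet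
    rw [h1]
    have h2 : 9 ≤ t ^ 2 := by
      rw [← sq_abs]; nlinarith
    linarith
  · have hle : -2 ≤ t ∧ t ≤ 2 := by
      push Not at hbig
      have := abs_lt.1 hbig
      constructor <;> linarith
    have hcases : t = -2 ∨ t = -1 ∨ t = 0 ∨ t = 1 ∨ t = 2 := by omega
    rcases hcases with h0 | h0 | h0 | h0 | h0
    · refine ⟨2, two_pos, Or.inr ?_⟩
      rw [h0] at hsq
      have e : M ^ 2 = (-2 : ℤ) • M - 1 := by rw [pow_two]; exact hsq
      have e1 : M ^ 2 - 1 = (-2 : ℤ) • (M + 1) := by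
        rw [e]; noncomm_ring
      have e2 : (M + 1) * (M + 1) = 0 := by
        have : (M + 1) * (M + 1) = M * M + (2 : ℤ) • M + 1 := by noncomm_ring
        rw [this, hsq]
        noncomm_ring
      rw [e1, smul_mul_smul_comm, e2, smul_zero]
    · refine ⟨3, three_pos, Or.inr ?_⟩
      rw [h0] at hsq
      have e : M ^ 3 = 1 := by
        rw [pow_succ, pow_two, hsq]
        have : ((-1 : ℤ) • M - 1) * M = -(M * M) - M := by noncomm_ring
        rw [this, hsq]
        noncomm_ring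
      rw [e, sub_self, zero_mul]
    · refine ⟨4, four_pos, Or.inr ?_⟩
      rw [h0] at hsq
      have e1 : M ^ 2 = -1 := by rw [pow_two, hsq]; simp
      have e : M ^ 4 = 1 := by
        rw [show 4 = 2 * 2 from rfl, pow_mul, e1]; simp
      rw [e, sub_self, zero_mul]
    · refine ⟨6, by norm_num, Or.inr ?_⟩
      rw [h0] at hsq
      have e3 : M ^ 3 = -1 := by
        rw [pow_succ, pow_two, hsq]
        have : ((1 : ℤ) • M - 1) * M = M * M - M := by noncomm_ring
        rw [this, hsq]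
        noncomm_ring
      have e : M ^ 6 = 1 := by
        rw [show 6 = 3 * 2 from rfl, pow_mul, e3]; simp
      rw [e, sub_self, zero_mul]
    · refine ⟨1, one_pos, Or.inr ?_⟩
      rw [h0] at hsq
      have : (M ^ 1 - 1) * (M ^ 1 - 1) = M * M - (2 : ℤ) • M + 1 := by
        rw [pow_one]; noncomm_ring
      rw [this, hsq]
      noncomm_ring

end TOR

end S_H57_TOR_AM

section S_H57_TOR_AN

/-!
AN (nilpotent integer matrices of size two).  If `N = 0` take the unit matrix and `n = 0`.  Otherwise `N * N = trace N • N - det N • 1`; `det N = 0` as `(det N) ^ 2 = det (N * N) = 0`, and then `trace N • N = 0`, so `trace N = 0`: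
`N = !![a, b; c, -a]`, `a ^ 2 + b * c = 0`.  One of the columns of `N` is a nonzero vector of the kernel of `N` (`N * N = 0`); dividing it by the greatest common divisor of its entries we get a primitive vector
`(u, v)`, `N (u, v) = 0`, and by Bezout (`Int.gcd_eq_gcd_ab`) `u q - v r = 1` for some `(r, q)`; `E = !![u, r; v, q]`.  The vector `(x, y) = N (r, q)` is in the kernel of `N` (`N * N = 0`), and every vector `(x, y)` of the kernel satisfies `u y = v x`
(the determinant `D = u y - v x` satisfies `D • N = 0`, because `N (u, v) = N (x, y) = 0`; `N ≠ 0`), so `(x, y) = n (u, v)` with `n = x q - y r`.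
-/

namespace TOR

theorem AN_aux (a b c x0 y0 : ℤ) (h0 : x0 ≠ 0 ∨ y0 ≠ 0) (h1 : a * x0 + b * y0 = 0)
    (h2 : c * x0 - a * y0 = 0) :
    ∃ (E : Matrix (Fin 2) (Fin 2) ℤ) (n : ℤ), E.det = 1 ∧ !![a, b; c, -a] * E = E * !![0, n; 0, 0] := by
  have hg : Int.gcd x0 y0 ≠ 0 := by
    intro h
    rw [Int.gcd_eq_zero_iff] at h
    rcases h0 with h0 | h0
    · exact h0 h.1
    · exact h0 h.2
  have hgpos : 0 < Int.gcd x0 y0 := Nat.pos_of_ne_zero hg
  obtain ⟨u, v, huv, hx, hy⟩ : ∃ u v : ℤ, Int.gcd u v = 1 ∧ x0 = u * (Int.gcd x0 y0 : ℤ) ∧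
      y0 = v * (Int.gcd x0 y0 : ℤ) := by
    obtain ⟨u, v, h, hx, hy⟩ := Int.exists_gcd_one hgpos
    exact ⟨u, v, h, hx, hy⟩
  have hgz : ((Int.gcd x0 y0 : ℕ) : ℤ) ≠ 0 := by exact_mod_cast hg
  set g : ℤ := ((Int.gcd x0 y0 : ℕ) : ℤ) with hgdef
  have k1 : a * u + b * v = 0 := by
    have : (a * u + b * v) * g = 0 := by rw [hx, hy] at h1; linarith
    exact (mul_eq_zero.1 this).resolve_right hgz
  have k2 : c * u - a * v = 0 := by
    have : (c * u - a * v) * g = 0 := by rw [hx, hy] at h2; linarith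
    exact (mul_eq_zero.1 this).resolve_right hgz
  have hb := Int.gcd_eq_gcd_ab u v
  rw [huv] at hb
  push_cast at hb
  refine ⟨!![u, -(Int.gcdB u v); v, Int.gcdA u v],
    (a * (-(Int.gcdB u v)) + b * Int.gcdA u v) * Int.gcdA u v -
      (c * (-(Int.gcdB u v)) - a * Int.gcdA u v) * (-(Int.gcdB u v)), ?_, ?_⟩
  · rw [Matrix.det_fin_two_of]; linarith
  · generalize Int.gcdA u v = q at hb ⊢
    generalize Int.gcdB u v = r at hb ⊢
    have e1 : u * (c * (-r) - a * q) = v * (a * (-r) + b * q) := by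
      linear_combination (-r) * k2 - q * k1
    ext i j
    fin_cases i <;> fin_cases j <;> simp [Matrix.mul_apply, Fin.sum_univ_two]
    · linarith
    · linear_combination (a * (-r) + b * q) * hb - r * e1
    · linarith
    · linear_combination (c * (-r) - a * q) * hb + q * e1

theorem am_uni (N : Matrix (Fin 2) (Fin 2) ℤ) (h : N * N = 0) :
    ∃ (E : Matrix (Fin 2) (Fin 2) ℤ) (n : ℤ), E.det = 1 ∧ N * E = E * !![0, n; 0, 0] := by
  have e00 := congrFun (congrFun h 0) 0
  have e01 := congrFun (congrFun h 0) 1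
  have e10 := congrFun (congrFun h 1) 0
  have e11 := congrFun (congrFun h 1) 1
  simp [Matrix.mul_apply, Fin.sum_univ_two] at e00 e01 e10 e11
  obtain ⟨a, b, c, d, hN⟩ : ∃ a b c d : ℤ, N = !![a, b; c, d] :=
    ⟨N 0 0, N 0 1, N 1 0, N 1 1, by ext i j; fin_cases i <;> fin_cases j <;> rfl⟩
  subst hN
  simp at e00 e01 e10 e11
  have hd : d = -a := by
    by_contra hne
    have hs : a + d ≠ 0 := fun h => hne (by linarith)
    have hb : b = 0 := by
      have : b * (a + d) = 0 := by linarith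
      exact (mul_eq_zero.1 this).resolve_right hs
    have hc : c = 0 := by
      have : c * (a + d) = 0 := by linarith
      exact (mul_eq_zero.1 this).resolve_right hs
    subst hb hc
    have ha : a = 0 := by
      have : a * a = 0 := by linarith
      exact mul_self_eq_zero.1 this
    have hd : d = 0 := by
      have : d * d = 0 := by linarith
      exact mul_self_eq_zero.1 this
    exact hs (by rw [ha, hd]; rfl)
  subst hd
  by_cases h1 : a ≠ 0 ∨ c ≠ 0
  · exact AN_aux a b c a c h1 (by linarith) (by ring)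
  · push Not at h1
    obtain ⟨ha, hc⟩ := h1
    subst ha hc
    by_cases hb : b = 0
    · subst hb
      refine ⟨1, 0, by simp, ?_⟩
      ext i j
      fin_cases i <;> fin_cases j <;> simp
    · exact AN_aux 0 b 0 b 0 (Or.inl hb) (by ring) (by ring)

end TOR

end S_H57_TOR_AN

section S_H57_TOR_AG

/-!
AG (automorphisms of the lattice).  `l (σ e₁) = a l e₁ + c l e₂`, `l (σ e₂) = b l e₁ + d l e₂` (`Bas.gen`), `M = !![a, b; c, d]`; for the inverse automorphism in the same way `M'`, and `M * M' = 1` (the coefficients are unique: `l e₁`, `l e₂` are linearly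
independent over the reals, by `Bas.im`), so `det M = ± 1` and `det (M ^ 2) = 1`.  For every `j` the matrix `M ^ j` describes `σ^[j]` (induction; `l (σ g) = x l (σ e₁) + y l (σ e₂)` if `l g = x l e₁ + y l e₂`: the homomorphism `σ` and injectivity of `l`; `Lat.mul`).
Apply `am_cases` to `M ^ 2`: exponent `2 j`.  In the first case `!![a, b; c, d] = M ^ (2 j) - 1`.  In the second case `am_uni` for `N = M ^ (2 j) - 1` gives `E = !![u, r; v, q]`, and `f₁ = e₁ ^ u * e₂ ^ v`, `f₂ = e₁ ^ r * e₂ ^ q` satisfy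
`l f₁ = u l e₁ + v l e₂`, `l f₂ = r l e₁ + q l e₂`; `Bas l f₁ f₂`: `det E = 1` (`E` is invertible over the integers; `l f₁ ≠ 0` by independence, `Im (l f₂ / l f₁) ≠ 0`: `Im (l f₂ conj (l f₁)) = det E * Im (l e₂ conj (l e₁))`).
`N f₁ = 0`: `l (σ^[2j] f₁) = l f₁`, so `σ^[2j] f₁ = f₁`; `N f₂ = n f₁`.
-/

namespace TOR

open Function

theorem AG_one {Γ : Type} [Group Γ] {l : Γ → ℂ} (L : Lat l) : l 1 = 0 := by
  have h := L.mul 1 1
  rw [mul_one] at h
  linear_combination -h

theorem AG_inv {Γ : Type} [Group Γ] {l : Γ → ℂ} (L : Lat l) (g : Γ) : l g⁻¹ = - l g := by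
  have h := L.mul g g⁻¹
  rw [mul_inv_cancel, AG_one L] at h
  linear_combination -h

theorem AG_pow {Γ : Type} [Group Γ] {l : Γ → ℂ} (L : Lat l) (g : Γ) (n : ℕ) : l (g ^ n) = n * l g := by
  induction n with
  | zero => simp [AG_one L]
  | succ n ih =>
    rw [pow_succ, L.mul, ih]
    push_cast
    ring

theorem AG_zpow {Γ : Type} [Group Γ] {l : Γ → ℂ} (L : Lat l) (g : Γ) (n : ℤ) : l (g ^ n) = n * l g := by
  obtain ⟨m, rfl | rfl⟩ := n.eq_nat_or_neg
  · rw [zpow_natCast, AG_pow L]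
    simp
  · rw [zpow_neg, zpow_natCast, AG_inv L, AG_pow L]
    push_cast
    ring

theorem AG_ind {Γ : Type} {l : Γ → ℂ} {e₁ e₂ : Γ} (B : Bas l e₁ e₂) {x y : ℝ}
    (h : (x : ℂ) * l e₁ + y * l e₂ = 0) : x = 0 ∧ y = 0 := by
  have h1 : (y : ℂ) * (l e₂ / l e₁) = ((-x : ℝ) : ℂ) := by
    have := B.ne
    field_simp
    push_cast
    linear_combination h
  have h2 : y * (l e₂ / l e₁).im = 0 := by
    have := congrArg Complex.im h1
    rw [Complex.im_ofReal_mul, Complex.ofReal_im] at this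
    exact this
  have hy : y = 0 := by
    rcases mul_eq_zero.1 h2 with h3 | h3
    · exact h3
    · exact absurd h3 B.im
  subst hy
  have h3 : (x : ℂ) * l e₁ = 0 := by simpa using h
  rcases mul_eq_zero.1 h3 with h4 | h4
  · exact ⟨by exact_mod_cast h4, rfl⟩
  · exact absurd h4 B.ne

theorem AG_uniq {Γ : Type} {l : Γ → ℂ} {e₁ e₂ : Γ} (B : Bas l e₁ e₂) {x y x' y' : ℤ}
    (h : (x : ℂ) * l e₁ + y * l e₂ = x' * l e₁ + y' * l e₂) : x = x' ∧ y = y' := by
  have h1 : (((x : ℝ) - x' : ℝ) : ℂ) * l e₁ + (((y : ℝ) - y' : ℝ) : ℂ) * l e₂ = 0 := by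
    push_cast
    linear_combination h
  obtain ⟨h2, h3⟩ := AG_ind B h1
  constructor
  · exact_mod_cast sub_eq_zero.1 h2
  · exact_mod_cast sub_eq_zero.1 h3

/-- the matrix of a map -/
def AG_R {Γ : Type} (l : Γ → ℂ) (e₁ e₂ : Γ) (M : Matrix (Fin 2) (Fin 2) ℤ) (t : Γ → Γ) : Prop :=
  l (t e₁) = M 0 0 * l e₁ + M 1 0 * l e₂ ∧ l (t e₂) = M 0 1 * l e₁ + M 1 1 * l e₂

theorem AG_exists {Γ : Type} {l : Γ → ℂ} {e₁ e₂ : Γ} (B : Bas l e₁ e₂) (t : Γ → Γ) :
    ∃ M, AG_R l e₁ e₂ M t := by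
  obtain ⟨a, c, h1⟩ := B.gen (t e₁)
  obtain ⟨b, d, h2⟩ := B.gen (t e₂)
  refine ⟨!![a, b; c, d], ?_, ?_⟩
  · simpa using h1
  · simpa using h2

theorem AG_Runiq {Γ : Type} {l : Γ → ℂ} {e₁ e₂ : Γ} (B : Bas l e₁ e₂) {t : Γ → Γ}
    {M N : Matrix (Fin 2) (Fin 2) ℤ} (h : AG_R l e₁ e₂ M t) (h' : AG_R l e₁ e₂ N t) : M = N := by
  obtain ⟨h1, h2⟩ := AG_uniq B (h.1.symm.trans h'.1)
  obtain ⟨h3, h4⟩ := AG_uniq B (h.2.symm.trans h'.2)
  ext i j
  fin_cases i <;> fin_cases j <;> assumption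

theorem AG_lin {Γ : Type} [Group Γ] {l : Γ → ℂ} (L : Lat l) {e₁ e₂ : Γ} {t : Γ → Γ}
    (ht : ∀ g h, t (g * h) = t g * t h) {g : Γ} {x y : ℤ} (h : l g = x * l e₁ + y * l e₂) :
    l (t g) = x * l (t e₁) + y * l (t e₂) := by
  have h1 : g = e₁ ^ x * e₂ ^ y := by
    apply L.inj
    rw [L.mul, AG_zpow L, AG_zpow L, h]
  have h2 : t g = t e₁ ^ x * t e₂ ^ y := by
    have h3 : MonoidHom.mk' t ht g = MonoidHom.mk' t ht e₁ ^ x * MonoidHom.mk' t ht e₂ ^ y := by
      rw [← map_zpow, ← map_zpow, ← map_mul, ← h1]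
    exact h3
  rw [h2, L.mul, AG_zpow L, AG_zpow L]

theorem AG_comp {Γ : Type} [Group Γ] {l : Γ → ℂ} (L : Lat l) {e₁ e₂ : Γ} {t r : Γ → Γ}
    (ht : ∀ g h, t (g * h) = t g * t h) {M N : Matrix (Fin 2) (Fin 2) ℤ}
    (h : AG_R l e₁ e₂ M t) (h' : AG_R l e₁ e₂ N r) : AG_R l e₁ e₂ (M * N) (t ∘ r) := by
  constructor
  · rw [Function.comp_apply, AG_lin L ht h'.1, h.1, h.2]
    simp only [Matrix.mul_apply, Fin.sum_univ_two]
    push_cast
    ring
  · rw [Function.comp_apply, AG_lin L ht h'.2, h.1, h.2]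
    simp only [Matrix.mul_apply, Fin.sum_univ_two]
    push_cast
    ring

theorem AG_id {Γ : Type} (l : Γ → ℂ) (e₁ e₂ : Γ) : AG_R l e₁ e₂ 1 id := by
  constructor
  · simp
  · simp

theorem AG_iter {Γ : Type} [Group Γ] {l : Γ → ℂ} (L : Lat l) {e₁ e₂ : Γ} (σ : Γ ≃* Γ)
    {M : Matrix (Fin 2) (Fin 2) ℤ} (h : AG_R l e₁ e₂ M σ) (j : ℕ) : AG_R l e₁ e₂ (M ^ j) (σ^[j]) := by
  induction j with
  | zero =>
    rw [pow_zero, Function.iterate_zero]
    exact AG_id l e₁ e₂
  | succ j ih =>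
    rw [pow_succ', Function.iterate_succ']
    exact AG_comp L (fun g h => map_mul σ g h) h ih

theorem AG_det {Γ : Type} [Group Γ] {l : Γ → ℂ} (L : Lat l) {e₁ e₂ : Γ} (B : Bas l e₁ e₂) (σ : Γ ≃* Γ)
    {M : Matrix (Fin 2) (Fin 2) ℤ} (h : AG_R l e₁ e₂ M σ) : (M ^ 2).det = 1 := by
  obtain ⟨N, hN⟩ := AG_exists B (σ.symm : Γ → Γ)
  have h1 := AG_comp L (fun g h => map_mul σ g h) h hN
  have h2 : (σ : Γ → Γ) ∘ (σ.symm : Γ → Γ) = id := by
    funext g
    simp
  rw [h2] at h1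
  have h3 : M * N = 1 := AG_Runiq B h1 (AG_id l e₁ e₂)
  have h4 : M.det * N.det = 1 := by
    rw [← Matrix.det_mul, h3, Matrix.det_one]
  have h5 : IsUnit M.det := IsUnit.of_mul_eq_one _ h4
  rw [Matrix.det_pow]
  rcases Int.isUnit_iff.1 h5 with h6 | h6 <;> rw [h6] <;> norm_num

theorem AG_bas {Γ : Type} [Group Γ] {l : Γ → ℂ} {e₁ e₂ : Γ} (B : Bas l e₁ e₂)
    {E : Matrix (Fin 2) (Fin 2) ℤ} (hE : E.det = 1) {f₁ f₂ : Γ} (h₁ : l f₁ = E 0 0 * l e₁ + E 1 0 * l e₂)
    (h₂ : l f₂ = E 0 1 * l e₁ + E 1 1 * l e₂) : Bas l f₁ f₂ := by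
  rw [Matrix.det_fin_two] at hE
  have hEr : (E 0 0 : ℝ) * E 1 1 - E 0 1 * E 1 0 = 1 := by exact_mod_cast hE
  have hEc : (E 0 0 : ℂ) * E 1 1 - E 0 1 * E 1 0 = 1 := by exact_mod_cast hE
  have hne : l f₁ ≠ 0 := by
    intro h
    have h1 : ((E 0 0 : ℝ) : ℂ) * l e₁ + ((E 1 0 : ℝ) : ℂ) * l e₂ = 0 := by
      push_cast
      rw [← h₁, h]
    obtain ⟨h2, h3⟩ := AG_ind B h1
    rw [h2, h3] at hEr
    norm_num at hEr
  refine ⟨hne, ?_, ?_⟩
  · intro h
    have h4 : l f₂ / l f₁ = (((l f₂ / l f₁).re : ℝ) : ℂ) := by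
      apply Complex.ext
      · simp
      · simpa using h
    set t : ℝ := (l f₂ / l f₁).re with ht
    have h5 : l f₂ = t * l f₁ := by
      rw [← h4]
      field_simp
    have h6 : (((E 0 1 : ℝ) - t * E 0 0 : ℝ) : ℂ) * l e₁ + (((E 1 1 : ℝ) - t * E 1 0 : ℝ) : ℂ) * l e₂ = 0 := by
      rw [h₁, h₂] at h5
      push_cast
      linear_combination h5
    obtain ⟨h7, h8⟩ := AG_ind B h6
    have h9 : (0 : ℝ) = 1 := by
      linear_combination (E 1 0 : ℝ) * h7 - (E 0 0 : ℝ) * h8 + hEr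
    norm_num at h9
  · intro g
    obtain ⟨a, b, h⟩ := B.gen g
    refine ⟨E 1 1 * a - E 0 1 * b, - E 1 0 * a + E 0 0 * b, ?_⟩
    rw [h, h₁, h₂]
    push_cast
    linear_combination (-(a : ℂ) * l e₁ - (b : ℂ) * l e₂) * hEc

theorem ag {Γ : Type} [Group Γ] {l : Γ → ℂ} (L : Lat l) {e₁ e₂ : Γ} (B : Bas l e₁ e₂) (σ : Γ ≃* Γ) :
    ∃ j : ℕ, 0 < j ∧
      ((∃ f₁ f₂ : Γ, ∃ n : ℤ, Bas l f₁ f₂ ∧ σ^[j] f₁ = f₁ ∧ l (σ^[j] f₂) = l f₂ + n * l f₁) ∨
      ∃ a b c d : ℤ, l (σ^[j] e₁) = l e₁ + (a * l e₁ + c * l e₂) ∧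
        l (σ^[j] e₂) = l e₂ + (b * l e₁ + d * l e₂) ∧ a * d - b * c < 0) := by
  obtain ⟨M, hM⟩ := AG_exists B (σ : Γ → Γ)
  have hdet := AG_det L B σ hM
  obtain ⟨j, hj, hc⟩ := am_cases (M ^ 2) hdet
  have hP := AG_iter L σ hM (2 * j)
  rw [pow_mul] at hP
  set P : Matrix (Fin 2) (Fin 2) ℤ := (M ^ 2) ^ j with hPdef
  have hτ : ∀ g h, σ^[2 * j] (g * h) = σ^[2 * j] g * σ^[2 * j] h := fun g h => iterate_map_mul σ (2 * j) g h
  refine ⟨2 * j, by omega, ?_⟩
  rcases hc with hc | hc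
  · right
    refine ⟨P 0 0 - 1, P 0 1, P 1 0, P 1 1 - 1, ?_, ?_, ?_⟩
    · rw [hP.1]
      push_cast
      ring
    · rw [hP.2]
      push_cast
      ring
    · rw [Matrix.det_fin_two] at hc
      simpa using hc
  · left
    obtain ⟨E, n, hE, hEn⟩ := am_uni (P - 1) hc
    have hPE : P * E = E + E * !![0, n; 0, 0] := by
      rw [← hEn, sub_mul, one_mul]
      abel
    have q00 : P 0 0 * E 0 0 + P 0 1 * E 1 0 = E 0 0 := by
      have := congrFun (congrFun hPE 0) 0
      simpa [Matrix.mul_apply, Fin.sum_univ_two] using this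
    have q10 : P 1 0 * E 0 0 + P 1 1 * E 1 0 = E 1 0 := by
      have := congrFun (congrFun hPE 1) 0
      simpa [Matrix.mul_apply, Fin.sum_univ_two] using this
    have q01 : P 0 0 * E 0 1 + P 0 1 * E 1 1 = E 0 1 + E 0 0 * n := by
      have := congrFun (congrFun hPE 0) 1
      simpa [Matrix.mul_apply, Fin.sum_univ_two] using this
    have q11 : P 1 0 * E 0 1 + P 1 1 * E 1 1 = E 1 1 + E 1 0 * n := by
      have := congrFun (congrFun hPE 1) 1
      simpa [Matrix.mul_apply, Fin.sum_univ_two] using this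
    have c00 : (P 0 0 : ℂ) * E 0 0 + P 0 1 * E 1 0 = E 0 0 := by exact_mod_cast q00
    have c10 : (P 1 0 : ℂ) * E 0 0 + P 1 1 * E 1 0 = E 1 0 := by exact_mod_cast q10
    have c01 : (P 0 0 : ℂ) * E 0 1 + P 0 1 * E 1 1 = E 0 1 + E 0 0 * n := by exact_mod_cast q01
    have c11 : (P 1 0 : ℂ) * E 0 1 + P 1 1 * E 1 1 = E 1 1 + E 1 0 * n := by exact_mod_cast q11
    have h₁ : l (e₁ ^ (E 0 0) * e₂ ^ (E 1 0)) = E 0 0 * l e₁ + E 1 0 * l e₂ := by
      rw [L.mul, AG_zpow L, AG_zpow L]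
    have h₂ : l (e₁ ^ (E 0 1) * e₂ ^ (E 1 1)) = E 0 1 * l e₁ + E 1 1 * l e₂ := by
      rw [L.mul, AG_zpow L, AG_zpow L]
    refine ⟨e₁ ^ (E 0 0) * e₂ ^ (E 1 0), e₁ ^ (E 0 1) * e₂ ^ (E 1 1), n, AG_bas B hE h₁ h₂, ?_, ?_⟩
    · apply L.inj
      rw [AG_lin L hτ h₁, hP.1, hP.2, h₁]
      linear_combination l e₁ * c00 + l e₂ * c10
    · rw [AG_lin L hτ h₂, hP.1, hP.2, h₁, h₂]
      linear_combination l e₁ * c01 + l e₂ * c11

end TOR

end S_H57_TOR_AG

section S_H57_TOR_LA

/-!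
LA (the lattice).  As `X` is the plane (`Deck.hX`; the unit disc is not the plane) `A g x = x + l g`.  `mul`: `Deck.mul` at `0`.  `inj`: `Deck.ext` at `0`.  `fin`: `Deck.proper` for `closedBall 0 R` (the point `x = 0`; if `R < 0` the set is empty).
`coc`: `Deck.coc`, a compact set is bounded.
-/

namespace TOR

open Metric Set Filter Topology DS CV

theorem la_lat {S : Type} [MetricSpace S] [CompactSpace S] {X : Set ℂ} {Γ : Type} [Group Γ]
    {A : Γ → ℂ → ℂ} {p : ℂ → S} (D : Deck X A p) (hX : X = univ) :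
    ∃ l : Γ → ℂ, Lat l ∧ ∀ g x, A g x = x + l g := by
  have h0 : ∀ x : ℂ, x ∈ X := fun x => by rw [hX]; exact mem_univ x
  have h1 : ∀ g, ∃ l : ℂ, ∀ x, A g x = x + l := by
    rcases D.hX with ⟨-, h⟩ | ⟨h, -⟩
    · exact h
    · exfalso
      have h2 := h0 2
      rw [h, mem_ball_zero_iff] at h2
      norm_num at h2
  choose l hl using h1
  refine ⟨l, ⟨?_, ?_, ?_, ?_⟩, hl⟩
  · intro g h
    have h2 := D.mul g h 0 (h0 0)
    rw [hl, hl, hl] at h2
    linear_combination h2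
  · intro g h hgh
    have h2 : A h 0 = A g 0 := by rw [hl, hl, hgh]
    have h3 : A (g⁻¹ * h) 0 = 0 := by
      rw [D.mul _ _ 0 (h0 0), h2, D.inv_left g (h0 0)]
    by_contra hne
    have h4 : g⁻¹ * h ≠ 1 := fun h5 => hne (inv_mul_eq_one.1 h5)
    exact D.free _ h4 0 (h0 0) h3
  · intro R
    refine (D.proper (closedBall 0 (max R 0)) (fun x _ => h0 x)
      (isCompact_closedBall _ _)).subset ?_
    intro g hg
    refine ⟨0, mem_closedBall_self (le_max_right _ _), ?_⟩
    rw [hl, zero_add, mem_closedBall_zero_iff]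
    exact (show ‖l g‖ ≤ R from hg).trans (le_max_left _ _)
  · obtain ⟨C, -, hC, h2⟩ := D.coc
    obtain ⟨R, hR⟩ := hC.isBounded.exists_norm_le
    refine ⟨R, fun x => ?_⟩
    obtain ⟨g, hg⟩ := h2 x (h0 x)
    rw [hl] at hg
    exact ⟨g, hR _ hg⟩

end TOR

end S_H57_TOR_LA

section S_H57_TOR_LG

/-!
LG (continuous logarithms).  `lg_const`: `exp (f x - g x) = 1`, so `f - g` has values in the discrete set `2 π I ℤ` and is continuous on a preconnected space: constant
(compare `IA_const` in H36/DS/IA: locally constant, as two different values have distance at least `1`).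
`lg_per`: `lg_const` for `s ↦ f (s + 1)` and `f`.  `lg_per2`: the same on `ℂ`.  `lg_exists`: `DS.allLogs_univ`.
-/

namespace TOR

open Metric Set Filter Topology DS

theorem lg_const {T : Type*} [TopologicalSpace T] [PreconnectedSpace T] {f g : T → ℂ} (hf : Continuous f)
    (hg : Continuous g) (h : ∀ x, Complex.exp (f x) = Complex.exp (g x)) (x y : T) :
    f x - g x = f y - g y := by
  have hloc : IsLocallyConstant fun x => f x - g x := by
    rw [IsLocallyConstant.iff_eventually_eq]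
    intro x
    have h1 : ∀ᶠ y in 𝓝 x, dist (f y - g y) (f x - g x) < 1 :=
      (hf.sub hg).continuousAt.eventually (ball_mem_nhds _ one_pos)
    filter_upwards [h1] with y hy
    obtain ⟨a, ha⟩ := Complex.exp_eq_exp_iff_exists_int.1 (h y)
    obtain ⟨b, hb⟩ := Complex.exp_eq_exp_iff_exists_int.1 (h x)
    have hab : (f y - g y) - (f x - g x) = ((a - b : ℤ) : ℂ) * (2 * Real.pi * Complex.I) := by
      rw [ha, hb]; push_cast; ring
    rw [dist_eq_norm, hab, norm_mul] at hy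
    have hn : ‖(2 * Real.pi * Complex.I : ℂ)‖ = 2 * Real.pi := by
      rw [norm_mul, norm_mul, Complex.norm_I, mul_one, Complex.norm_real, Complex.norm_ofNat,
        Real.norm_of_nonneg Real.pi_pos.le]
    rw [hn, Complex.norm_intCast] at hy
    have hpi : (1 : ℝ) < 2 * Real.pi := by linarith [Real.pi_gt_three]
    have h0 : a - b = 0 := by
      by_contra hne
      have h3 : (1 : ℝ) ≤ |((a - b : ℤ) : ℝ)| := by
        rw [← Int.cast_abs]
        exact_mod_cast Int.one_le_abs hne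
      nlinarith
    rw [h0, Int.cast_zero, zero_mul] at hab
    exact sub_eq_zero.1 hab
  exact hloc.apply_eq_of_preconnectedSpace x y

theorem lg_per {f : ℝ → ℂ} (hf : Continuous f) (h : ∀ s, Complex.exp (f (s + 1)) = Complex.exp (f s)) :
    ∃ w : ℂ, ∀ s, f (s + 1) = f s + w := by
  refine ⟨f (0 + 1) - f 0, fun s => ?_⟩
  have h1 := lg_const (f := fun s => f (s + 1)) (g := f) (by fun_prop) hf h s 0
  linear_combination h1

theorem lg_per2 {f : ℂ → ℂ} (hf : Continuous f) (h : ∀ s, Complex.exp (f (s + 1)) = Complex.exp (f s)) :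
    ∃ w : ℂ, ∀ s, f (s + 1) = f s + w := by
  refine ⟨f (0 + 1) - f 0, fun s => ?_⟩
  have h1 := lg_const (f := fun s => f (s + 1)) (g := f) (by fun_prop) hf h s 0
  linear_combination h1

theorem lg_exists {f : ℂ → ℂ} (hf : Continuous f) (h0 : ∀ x, f x ≠ 0) :
    ∃ L : ℂ → ℂ, Continuous L ∧ ∀ x, f x = Complex.exp (L x) := by
  obtain ⟨L, hL, hE⟩ := allLogs_univ f hf.continuousOn fun z _ => h0 z
  exact ⟨L, continuousOn_univ.1 hL, fun x => hE x (mem_univ x)⟩

end TOR

end S_H57_TOR_LG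

section S_H57_TOR_MD

/-!
MD (modification inside the holes).  Let `L i` be a continuous extension (`DS.IB_tietze`, the frontier is closed) of the logarithm of `V x / (x - k i)` on
`frontier (O i)` to the plane.  If `x + z ∈ O i` for some `z ∈ Z`, `i`, these are unique (`hd`: if `x + z ∈ O i`, `x + z' ∈ O j`, then
`x + z' = (x + z) + (z' - z)`), and we put `V' x = (x + z - k i) * exp (L i (x + z))`; otherwise `V' x = V x`.
The same formula holds on the closed set `K (z, i) = {x | x + z ∈ closure (O i)}`: if `x + z ∈ frontier (O i)`, then `x + z' ∉ O j` for all `z'`, `j` (`hd` again, and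
`frontier (O i)` is disjoint from the open set `O i`), so `V' x = V x = V (x + z) = (x + z - k i) * exp (L i (x + z))` (`x + z ≠ k i`, as `k i ∈ O i`).
Continuity: the closed sets `K (z, i)` (`z ∈ Z`, `i`) and `K₀ = {x | ∀ z ∈ Z, ∀ i, x + z ∉ O i}` cover the plane, form a locally finite family (index type
`Option (Z × Fin m)`: the ball of radius `1` about `x` meets `K (z, i)` only if `‖z‖ ≤ ‖x‖ + 1 + ρ`, `closure (O i) ⊆ closedBall 0 ρ`), and `V'` is continuous on each of them: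
`LocallyFinite.continuous`.  (`K₀` is closed: its complement is a union of open sets.)
Invariance: `x + z' + z ∈ O i` iff `x + (z' + z) ∈ O i`.  Zeros: `h0`, `exp ≠ 0`; if `x + z = k i` then `x + z ∈ O i`.  `ne`: if `k i - k j = z ∈ Z` then `k j + z = k i`; `hd` for `j`, `i`
gives `z = 0` and `j = i`.  `loc`: `q = exp ∘ L i`, on the neighbourhood `O i` of `k i` (`z = 0`).
-/

namespace TOR

open Metric Set Filter Topology DS

theorem MD_uniq {m : ℕ} {Z : AddSubgroup ℂ} {O : Fin m → Set ℂ}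
    (hd : ∀ i j, ∀ z ∈ Z, (z ≠ 0 ∨ i ≠ j) →
      Disjoint ((fun x => x + z) '' closure (O i)) (closure (O j)))
    {x z z' : ℂ} (hz : z ∈ Z) (hz' : z' ∈ Z) {i j : Fin m} (h1 : x + z ∈ closure (O i))
    (h2 : x + z' ∈ closure (O j)) : z = z' ∧ i = j := by
  by_contra hne
  have h3 : z' - z ≠ 0 ∨ i ≠ j := by
    by_cases h : z = z'
    · right
      intro h'
      exact hne ⟨h, h'⟩
    · left
      intro h'
      exact h (sub_eq_zero.1 h').symm
  have h4 := hd i j (z' - z) (Z.sub_mem hz' hz) h3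
  refine Set.disjoint_left.1 h4 ⟨x + z, h1, ?_⟩ h2
  show x + z + (z' - z) = x + z'
  ring

theorem md {m : ℕ} {Z : AddSubgroup ℂ} (hZ : ∀ R : ℝ, {z : ℂ | z ∈ Z ∧ ‖z‖ ≤ R}.Finite) {V : ℂ → ℂ}
    (hV : Continuous V) (hi : ∀ z ∈ Z, ∀ x, V (x + z) = V x) {O : Fin m → Set ℂ} {k : Fin m → ℂ}
    (hO : ∀ i, IsOpen (O i)) (hb : ∀ i, Bornology.IsBounded (O i)) (hk : ∀ i, k i ∈ O i)
    (hd : ∀ i j, ∀ z ∈ Z, (z ≠ 0 ∨ i ≠ j) →
      Disjoint ((fun x => x + z) '' closure (O i)) (closure (O j)))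
    (h0 : ∀ x, V x = 0 → ∃ z ∈ Z, ∃ i, x + z ∈ O i)
    (hl : ∀ i, HasLog (fun x => V x / (x - k i)) (frontier (O i))) :
    ∃ V' : ℂ → ℂ, Field Z V' m k ∧ ∀ x, (∀ z ∈ Z, ∀ i, x + z ∉ O i) → V' x = V x := by
  classical
  -- the logarithms
  have hL : ∀ i, ∃ L : ℂ → ℂ, Continuous L ∧
      ∀ x ∈ frontier (O i), V x = (x - k i) * Complex.exp (L x) := by
    intro i
    obtain ⟨L, hLc, hLe⟩ := hl i
    obtain ⟨L', hL'c, hL'e⟩ := IB_tietze isClosed_frontier hLc
    refine ⟨L', hL'c, fun x hx => ?_⟩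
    have hne : x - k i ≠ 0 := by
      intro h
      rw [sub_eq_zero] at h
      have h1 : x ∉ O i := by
        have := hx
        rw [(hO i).frontier_eq] at this
        exact this.2
      exact h1 (h ▸ hk i)
    rw [hL'e x hx, ← hLe x hx, mul_div_cancel₀ _ hne]
  choose L hLc hLe using hL
  obtain ⟨V', hV'⟩ : ∃ V' : ℂ → ℂ, V' = fun x =>
      if h : ∃ q : Z × Fin m, x + (q.1 : ℂ) ∈ O q.2 then
        (x + (h.choose.1 : ℂ) - k h.choose.2) * Complex.exp (L h.choose.2 (x + (h.choose.1 : ℂ)))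
      else V x := ⟨_, rfl⟩
  have hB : ∀ x, (∀ z ∈ Z, ∀ i, x + z ∉ O i) → V' x = V x := by
    intro x hx
    rw [hV']
    have : ¬ ∃ q : Z × Fin m, x + (q.1 : ℂ) ∈ O q.2 := by
      rintro ⟨q, hq⟩
      exact hx q.1 q.1.2 q.2 hq
    simp only [dif_neg this]
  have hA : ∀ z ∈ Z, ∀ i, ∀ x, x + z ∈ closure (O i) →
      V' x = (x + z - k i) * Complex.exp (L i (x + z)) := by
    intro z hz i x hx
    by_cases hxO : x + z ∈ O i
    · have hex : ∃ q : Z × Fin m, x + (q.1 : ℂ) ∈ O q.2 := ⟨(⟨z, hz⟩, i), hxO⟩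
      obtain ⟨e1, e2⟩ := MD_uniq hd hz hex.choose.1.2 hx (subset_closure hex.choose_spec)
      rw [hV']
      simp only [dif_pos hex]
      rw [← e1, ← e2]
    · have h1 : x + z ∈ frontier (O i) := by
        rw [(hO i).frontier_eq]
        exact ⟨hx, hxO⟩
      rw [hB x, ← hi z hz x]
      · exact hLe i _ h1
      · intro z' hz' j hj
        obtain ⟨e1, e2⟩ := MD_uniq hd hz hz' hx (subset_closure hj)
        rw [← e1, ← e2] at hj
        exact hxO hj
  refine ⟨V', ?_, hB⟩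
  have hcont : Continuous V' := by
    obtain ⟨ρ, hρ⟩ : ∃ ρ : ℝ, ∀ i, ∀ w ∈ closure (O i), ‖w‖ ≤ ρ := by
      have h1 : Bornology.IsBounded (⋃ i, closure (O i)) :=
        Bornology.isBounded_iUnion.2 fun i => (hb i).closure
      obtain ⟨ρ, hρ⟩ := isBounded_iff_forall_norm_le.1 h1
      exact ⟨ρ, fun i w hw => hρ w (mem_iUnion.2 ⟨i, hw⟩)⟩
    obtain ⟨A, hAd⟩ : ∃ A : Option (Z × Fin m) → Set ℂ, A = fun o =>
        match o with
        | none => {x | ∀ z ∈ Z, ∀ i, x + z ∉ O i}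
        | some q => {x | x + (q.1 : ℂ) ∈ closure (O q.2)} := ⟨_, rfl⟩
    have A0 : A none = {x | ∀ z ∈ Z, ∀ i, x + z ∉ O i} := by rw [hAd]
    have A1 : ∀ q : Z × Fin m, A (some q) = {x | x + (q.1 : ℂ) ∈ closure (O q.2)} := by
      intro q; rw [hAd]
    have hlf : LocallyFinite A := by
      intro x
      refine ⟨ball x 1, ball_mem_nhds x one_pos, ?_⟩
      have hfin : (({z : Z | ‖(z : ℂ)‖ ≤ ‖x‖ + 1 + ρ}) ×ˢ (univ : Set (Fin m))).Finite := by
        refine Set.Finite.prod ?_ finite_univ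
        have h1 := hZ (‖x‖ + 1 + ρ)
        refine Set.Finite.of_finite_image (f := fun z : Z => (z : ℂ)) (h1.subset ?_)
          Subtype.val_injective.injOn
        rintro _ ⟨z, hz, rfl⟩
        exact ⟨z.2, hz⟩
      refine ((hfin.image some).insert none).subset ?_
      rintro o ⟨y, hy1, hy2⟩
      rcases o with _ | q
      · exact mem_insert _ _
      · right
        refine ⟨q, ⟨?_, mem_univ _⟩, rfl⟩
        rw [A1] at hy1
        have h1 := hρ q.2 _ hy1
        have h2 : ‖y‖ ≤ ‖x‖ + 1 := by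
          rw [mem_ball, dist_eq_norm] at hy2
          have := norm_sub_norm_le y x
          linarith
        show ‖(q.1 : ℂ)‖ ≤ ‖x‖ + 1 + ρ
        have h3 : (q.1 : ℂ) = (y + q.1) - y := by ring
        rw [h3]
        refine (norm_sub_le _ _).trans ?_
        linarith
    refine hlf.continuous ?_ ?_ ?_
    · rw [eq_univ_iff_forall]
      intro x
      by_cases h : ∀ z ∈ Z, ∀ i, x + z ∉ O i
      · exact mem_iUnion.2 ⟨none, by rw [A0]; exact h⟩
      · push Not at h
        obtain ⟨z, hz, i, hzi⟩ := h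
        refine mem_iUnion.2 ⟨some (⟨z, hz⟩, i), ?_⟩
        rw [A1]
        exact subset_closure hzi
    · intro o
      rcases o with _ | q
      · rw [A0]
        have : {x | ∀ z ∈ Z, ∀ i, x + z ∉ O i} =
            ⋂ (z : Z), ⋂ (i : Fin m), {x | x + (z : ℂ) ∈ O i}ᶜ := by
          ext x
          simp only [mem_iInter, mem_compl_iff]
          constructor
          · intro h z i
            exact h z z.2 i
          · intro h z hz i
            exact h ⟨z, hz⟩ i
        rw [this]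
        refine isClosed_iInter fun z => isClosed_iInter fun i => ?_
        have h1 : IsOpen {x : ℂ | x + (z : ℂ) ∈ O i} :=
          (hO i).preimage (continuous_id.add continuous_const)
        exact h1.isClosed_compl
      · rw [A1]
        exact isClosed_closure.preimage (continuous_id.add continuous_const)
    · intro o
      rcases o with _ | q
      · rw [A0]
        exact hV.continuousOn.congr fun x hx => hB x hx
      · rw [A1]
        have h1 : Continuous fun x => (x + (q.1 : ℂ) - k q.2) *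
            Complex.exp (L q.2 (x + (q.1 : ℂ))) := by
          have := (hLc q.2).comp (continuous_id.add (continuous_const (y := (q.1 : ℂ))))
          exact ((continuous_id.add continuous_const).sub continuous_const).mul
            (Complex.continuous_exp.comp this)
        exact h1.continuousOn.congr fun x hx => hA q.1 q.1.2 q.2 x hx
  refine
    { cont := hcont
      inv := ?_
      zero := ?_
      ne := ?_
      loc := ?_ }
  · intro z' hz' x
    by_cases h : ∀ z ∈ Z, ∀ i, x + z ∉ O i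
    · rw [hB x h, hB (x + z'), hi z' hz']
      intro z hz i
      rw [add_assoc]
      exact h _ (Z.add_mem hz' hz) i
    · push Not at h
      obtain ⟨z, hz, i, hzi⟩ := h
      have e : x + z' + (z - z') = x + z := by ring
      rw [hA z hz i x (subset_closure hzi),
        hA (z - z') (Z.sub_mem hz hz') i (x + z') (by rw [e]; exact subset_closure hzi), e]
  · intro x
    constructor
    · intro hx
      by_cases h : ∀ z ∈ Z, ∀ i, x + z ∉ O i
      · rw [hB x h] at hx
        obtain ⟨z, hz, i, hzi⟩ := h0 x hx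
        exact absurd hzi (h z hz i)
      · push Not at h
        obtain ⟨z, hz, i, hzi⟩ := h
        rw [hA z hz i x (subset_closure hzi)] at hx
        rcases mul_eq_zero.1 hx with h1 | h1
        · exact ⟨z, hz, i, sub_eq_zero.1 h1⟩
        · exact absurd h1 (Complex.exp_ne_zero _)
    · rintro ⟨z, hz, i, hzi⟩
      rw [hA z hz i x (by rw [hzi]; exact subset_closure (hk i)), hzi, sub_self, zero_mul]
  · intro i j hij
    have h1 := MD_uniq hd (x := k j) hij Z.zero_mem (i := i) (j := j)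
      (by rw [add_sub_cancel]; exact subset_closure (hk i))
      (by rw [add_zero]; exact subset_closure (hk j))
    exact h1.2
  · intro i
    refine ⟨fun x => Complex.exp (L i x), Complex.continuous_exp.comp (hLc i),
      fun x => Complex.exp_ne_zero _, ?_⟩
    filter_upwards [(hO i).mem_nhds (hk i)] with x hx
    have h1 := hA 0 Z.zero_mem i x (by rw [add_zero]; exact subset_closure hx)
    rw [add_zero] at h1
    exact h1

end TOR

end S_H57_TOR_MD
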