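import Pool.Agent.H12.KS.K49

/-! Joined modules of the proof of MP_8a27c0_an (one section per module). -/

section S_H57_TOR_AB

/-!
AB (real linear maps of the plane).  `ab`: solve `a λ₁ + b conj λ₁ = μ₁`, `a λ₂ + b conj λ₂ = μ₂`: `Δ = λ₁ conj λ₂ - λ₂ conj λ₁ = - 2 I Im (conj λ₁ λ₂) ≠ 0`, `a = (μ₁ conj λ₂ - μ₂ conj λ₁) / Δ`, `b = (λ₁ μ₂ - λ₂ μ₁) / Δ`.
`Im (conj μ₁ μ₂) = (‖a‖² - ‖b‖²) Im (conj λ₁ λ₂)` and, as `μ₁ = x λ₁ + z λ₂`, `μ₂ = y λ₁ + t λ₂` (real coefficients), `Im (conj μ₁ μ₂) = (x t - y z) Im (conj λ₁ λ₂)`.  So `‖a‖² - ‖b‖² = x t - y z < 0`.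
`bd`: `V - T` is invariant under all `l d` and continuous; it is bounded on `closedBall 0 R` (`Lat.coc`).
-/

namespace TOR

open Metric Set Filter Topology DS

theorem AB_one (a b u v : ℂ) :
    ((starRingEnd ℂ) (a * u + b * (starRingEnd ℂ) u) * (a * v + b * (starRingEnd ℂ) v)).im =
      (‖a‖ ^ 2 - ‖b‖ ^ 2) * (u.re * v.im - u.im * v.re) := by
  simp only [Complex.sq_norm, Complex.normSq_apply, Complex.mul_im, Complex.mul_re, Complex.conj_re,
    Complex.conj_im, Complex.add_re, Complex.add_im]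
  ring

theorem AB_two (x y z t : ℝ) (u v : ℂ) :
    ((starRingEnd ℂ) ((x : ℂ) * u + (z : ℂ) * v) * ((y : ℂ) * u + (t : ℂ) * v)).im =
      (x * t - y * z) * (u.re * v.im - u.im * v.re) := by
  simp only [Complex.mul_im, Complex.mul_re, Complex.conj_re,
    Complex.conj_im, Complex.add_re, Complex.add_im, Complex.ofReal_re, Complex.ofReal_im]
  ring

theorem ab {u v μ₁ μ₂ : ℂ} (hu : u ≠ 0) (him : (v / u).im ≠ 0) {x y z t : ℤ}
    (h1 : μ₁ = x * u + z * v) (h2 : μ₂ = y * u + t * v) (hdet : x * t - y * z < 0) :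
    ∃ a b : ℂ, ‖a‖ < ‖b‖ ∧ a * u + b * (starRingEnd ℂ) u = μ₁ ∧ a * v + b * (starRingEnd ℂ) v = μ₂ := by
  have hI : u.re * v.im - u.im * v.re ≠ 0 := by
    intro h
    apply him
    rw [Complex.div_im]
    have h3 : v.im * u.re / Complex.normSq u - v.re * u.im / Complex.normSq u =
        (u.re * v.im - u.im * v.re) / Complex.normSq u := by ring
    rw [h3, h, zero_div]
  have hD : u * (starRingEnd ℂ) v - v * (starRingEnd ℂ) u ≠ 0 := by
    intro h
    apply hI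
    have h3 := congrArg Complex.im h
    simp only [Complex.sub_im, Complex.mul_im, Complex.conj_re, Complex.conj_im, Complex.zero_im] at h3
    linarith
  obtain ⟨a, ha⟩ : ∃ a, a = (μ₁ * (starRingEnd ℂ) v - μ₂ * (starRingEnd ℂ) u) /
    (u * (starRingEnd ℂ) v - v * (starRingEnd ℂ) u) := ⟨_, rfl⟩
  obtain ⟨b, hb⟩ : ∃ b, b = (u * μ₂ - v * μ₁) /
    (u * (starRingEnd ℂ) v - v * (starRingEnd ℂ) u) := ⟨_, rfl⟩
  have e1 : a * u + b * (starRingEnd ℂ) u = μ₁ := by
    rw [ha, hb, div_mul_eq_mul_div, div_mul_eq_mul_div, ← add_div, div_eq_iff hD]; ring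
  have e2 : a * v + b * (starRingEnd ℂ) v = μ₂ := by
    rw [ha, hb, div_mul_eq_mul_div, div_mul_eq_mul_div, ← add_div, div_eq_iff hD]; ring
  refine ⟨a, b, ?_, e1, e2⟩
  have k1 := AB_one a b u v
  have k2 := AB_two x y z t u v
  have e3 : ((x : ℝ) : ℂ) * u + ((z : ℝ) : ℂ) * v = μ₁ := by rw [h1]; push_cast; rfl
  have e4 : ((y : ℝ) : ℂ) * u + ((t : ℝ) : ℂ) * v = μ₂ := by rw [h2]; push_cast; rfl
  rw [e1, e2] at k1
  rw [e3, e4, k1] at k2
  have k3 : ‖a‖ ^ 2 - ‖b‖ ^ 2 = x * t - y * z := mul_right_cancel₀ hI k2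
  have k4 : ((x : ℝ) * t - y * z) < 0 := by exact_mod_cast hdet
  have k5 : ‖a‖ ^ 2 < ‖b‖ ^ 2 := by linarith
  exact (pow_lt_pow_iff_left₀ (norm_nonneg _) (norm_nonneg _) two_ne_zero).1 k5

theorem bd {Γ : Type} [Group Γ] {l : Γ → ℂ} (L : Lat l) {V T : ℂ → ℂ} (hV : Continuous V)
    (hT : Continuous T) (hTa : ∀ x y, T (x + y) = T x + T y) (h : ∀ x d, V (x + l d) = V x + T (l d)) :
    ∃ C : ℝ, ∀ x, ‖V x - T x‖ ≤ C := by
  obtain ⟨R, hR⟩ := L.coc
  obtain ⟨C, hC⟩ := (isCompact_closedBall (0:ℂ) R).exists_bound_of_continuousOn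
    (f := fun x => V x - T x) (hV.sub hT).continuousOn
  refine ⟨C, fun x => ?_⟩
  obtain ⟨g, hg⟩ := hR x
  have h1 := hC (x + l g) (by simpa using hg)
  have h2 : V (x + l g) - T (x + l g) = V x - T x := by rw [h, hTa]; ring
  simp only [h2] at h1
  exact h1

end TOR

end S_H57_TOR_AB

section S_H57_TOR_QU

/-!
QU (division by a holomorphic function with the same simple zeros).  For `x` with `W x = 0` choose `q` and put `Q x = q x / deriv W x`; otherwise `Q x = V x / W x`.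
Continuity at `x` with `W x ≠ 0`: `W` is nonzero near `x`, so `Q = V / W` near `x`.  At `x` with `W x = 0`: `W y = (y - x) * dslope W x y` (`dslope`, `sub_smul_dslope`),
`dslope W x` is continuous at `x` with the value `deriv W x ≠ 0` (`continuousAt_dslope_same`, `dslope_same`), so near `x`, for `y ≠ x`,
`W y ≠ 0` and `Q y = V y / W y = q y / dslope W x y`, which is also true for `y = x`; so `Q` is continuous at `x`.
-/

namespace TOR

open Metric Set Filter Topology DS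

theorem qu {V W : ℂ → ℂ} (hV : Continuous V) (hW : Differentiable ℂ W)
    (h : ∀ x, (V x ≠ 0 ∧ W x ≠ 0) ∨ (W x = 0 ∧ deriv W x ≠ 0 ∧
      ∃ q : ℂ → ℂ, ContinuousAt q x ∧ q x ≠ 0 ∧ ∀ᶠ y in 𝓝 x, V y = (y - x) * q y)) :
    ∃ Q : ℂ → ℂ, Continuous Q ∧ (∀ x, Q x ≠ 0) ∧ ∀ x, V x = Q x * W x := by
  classical
  have h' : ∀ x, W x = 0 → deriv W x ≠ 0 ∧
      ∃ q : ℂ → ℂ, ContinuousAt q x ∧ q x ≠ 0 ∧ ∀ᶠ y in 𝓝 x, V y = (y - x) * q y := by
    intro x hx
    rcases h x with ⟨-, h1⟩ | ⟨-, h1, h2⟩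
    · exact absurd hx h1
    · exact ⟨h1, h2⟩
  choose hd q hqc hq0 hq using h'
  let Q : ℂ → ℂ := fun x => if hx : W x = 0 then q x hx x / deriv W x else V x / W x
  have hQ0 : ∀ x (hx : W x = 0), Q x = q x hx x / deriv W x := fun x hx => dif_pos hx
  have hQ1 : ∀ x, W x ≠ 0 → Q x = V x / W x := fun x hx => dif_neg hx
  have hV1 : ∀ x, W x ≠ 0 → V x ≠ 0 := by
    intro x hx
    rcases h x with ⟨h1, -⟩ | ⟨h1, -⟩
    · exact h1
    · exact absurd h1 hx
  refine ⟨Q, ?_, ?_, ?_⟩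
  · rw [continuous_iff_continuousAt]
    intro x
    by_cases hx : W x = 0
    · have hds : ContinuousAt (dslope W x) x := continuousAt_dslope_same.2 (hW x)
      have hds0 : dslope W x x ≠ 0 := by rw [dslope_same]; exact hd x hx
      have h1 : ContinuousAt (fun y => q x hx y / dslope W x y) x := (hqc x hx).div hds hds0
      refine h1.congr ?_
      have h2 : ∀ᶠ y in 𝓝 x, dslope W x y ≠ 0 := hds.eventually_ne hds0
      filter_upwards [h2, hq x hx] with y hy1 hy2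
      by_cases hyx : y = x
      · subst hyx
        rw [hQ0 y hx, dslope_same]
      · have h3 : W y = (y - x) * dslope W x y := by
          have h4 := sub_smul_dslope W x y
          rw [smul_eq_mul, hx, sub_zero] at h4
          exact h4.symm
        have h5 : y - x ≠ 0 := sub_ne_zero.2 hyx
        have h6 : W y ≠ 0 := by rw [h3]; exact mul_ne_zero h5 hy1
        rw [hQ1 y h6, hy2, h3, mul_div_mul_left _ _ h5]
    · have h1 : ContinuousAt (fun y => V y / W y) x := hV.continuousAt.div (hW x).continuousAt hx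
      refine h1.congr ?_
      filter_upwards [(hW x).continuousAt.eventually_ne hx] with y hy
      exact (hQ1 y hy).symm
  · intro x
    by_cases hx : W x = 0
    · rw [hQ0 x hx]
      exact div_ne_zero (hq0 x hx) (hd x hx)
    · rw [hQ1 x hx]
      exact div_ne_zero (hV1 x hx) hx
  · intro x
    by_cases hx : W x = 0
    · have h1 := (hq x hx).self_of_nhds
      rw [h1, hx, sub_self, zero_mul, mul_zero]
    · rw [hQ1 x hx, div_mul_cancel₀ _ hx]

end TOR

end S_H57_TOR_QU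

section S_H57_TOR_ST

/-!
ST (the strip lemma).  Let `e x = exp (2 π I x)`, `W x = ∏ i, (e x - e (k i))`: entire, `W (x + 1) = W x`, `W x = 0` iff `x - k i` is an integer for some `i`, and then `deriv W x ≠ 0`
(the other factors do not vanish by `Field.ne`; `deriv e x = 2 π I e x ≠ 0`).  By `Field.zero`, `Field.loc` (moved to `x = k i + n` by `Field.inv`) `qu` applies: `V = Q W`, `Q` continuous
and nowhere zero, `Q = exp h` (`lg_exists`).  `Q (x + 1) = Q x` where `W x ≠ 0`, hence everywhere (both sides are continuous, and the set `W ≠ 0` is dense: or compare the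
formulas `V (x + 1) = V x`; the zeros of `W` are isolated), so `h (x + 1) = h x + u`, `u` constant (`lg_per2`).
On the line `Im x = y₂` we have `‖e (x - k i)‖ = exp (- 2 π (y₂ - Im (k i))) < 1`, `e x - e (k i) = - e (k i) * (1 - e (x - k i)) = exp (c i + log (1 - e (x - k i)))` with a constant `c i`; the principal logarithm is
continuous on the half plane `re > 0`, so `g₂ s = h (s + y₂ I) + ∑ i, (c i + log (1 - e (s + y₂ I - k i)))` is a continuous logarithm of `V (s + y₂ I)` with `g₂ (s + 1) = g₂ s + u`; by `lg_const` `ℓ₂ - g₂` is constant, so `w = u`.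
On the line `Im x = y₁`: `e x - e (k i) = e x * (1 - e (k i - x)) = exp (2 π I x + log (1 - e (k i - x)))`, so in the same way `w = u + m * 2 π I`.  Hence `m * 2 π I = 0`.
-/

namespace TOR

open Metric Set Filter Topology DS

/-- the exponential of period one -/
noncomputable def ST_e (x : ℂ) : ℂ := Complex.exp (2 * Real.pi * Complex.I * x)

theorem ST_e_ne (x : ℂ) : ST_e x ≠ 0 := Complex.exp_ne_zero _

theorem ST_e_cont : Continuous ST_e := by
  unfold ST_e
  fun_prop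

theorem ST_e_diff : Differentiable ℂ ST_e := by
  unfold ST_e
  fun_prop

theorem ST_e_add (x y : ℂ) : ST_e (x + y) = ST_e x * ST_e y := by
  unfold ST_e
  rw [← Complex.exp_add]
  congr 1
  ring

theorem ST_e_one : ST_e 1 = 1 := by
  unfold ST_e
  rw [mul_one]
  exact Complex.exp_two_pi_mul_I

theorem ST_e_per (x : ℂ) : ST_e (x + 1) = ST_e x := by
  rw [ST_e_add, ST_e_one, mul_one]

theorem ST_e_sub (x y : ℂ) : ST_e (x - y) * ST_e y = ST_e x := by
  rw [← ST_e_add, sub_add_cancel]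

theorem ST_e_norm (x : ℂ) : ‖ST_e x‖ = Real.exp (-(2 * Real.pi * x.im)) := by
  unfold ST_e
  rw [Complex.norm_exp]
  congr 1
  simp [Complex.mul_re, Complex.mul_im]

theorem ST_e_lt {x : ℂ} (h : 0 < x.im) : ‖ST_e x‖ < 1 := by
  rw [ST_e_norm, Real.exp_lt_one_iff]
  have := Real.pi_pos
  have h2 : 0 < 2 * Real.pi * x.im := by positivity
  linarith

theorem ST_e_eq {x y : ℂ} : ST_e x = ST_e y ↔ y - x ∈ AddSubgroup.zmultiples (1 : ℂ) := by
  unfold ST_e
  rw [Complex.exp_eq_exp_iff_exists_int, AddSubgroup.mem_zmultiples_iff]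
  have hpi : (2 * Real.pi * Complex.I : ℂ) ≠ 0 := Complex.two_pi_I_ne_zero
  constructor
  · rintro ⟨n, hn⟩
    refine ⟨-n, ?_⟩
    have h1 : 2 * Real.pi * Complex.I * (y - x + n) = 0 := by linear_combination -hn
    have h2 : y - x + n = 0 := by
      rcases mul_eq_zero.1 h1 with h3 | h3
      · exact absurd h3 hpi
      · exact h3
    rw [zsmul_eq_mul, mul_one]
    push_cast
    linear_combination -h2
  · rintro ⟨n, hn⟩
    refine ⟨-n, ?_⟩
    rw [zsmul_eq_mul, mul_one] at hn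
    push_cast
    linear_combination (2 * Real.pi * Complex.I) * hn

/-- the product -/
noncomputable def ST_W {m : ℕ} (k : Fin m → ℂ) (x : ℂ) : ℂ := ∏ i, (ST_e x - ST_e (k i))

theorem ST_W_diff {m : ℕ} (k : Fin m → ℂ) : Differentiable ℂ (ST_W k) := by
  unfold ST_W
  have := ST_e_diff
  fun_prop

theorem ST_W_per {m : ℕ} (k : Fin m → ℂ) (x : ℂ) : ST_W k (x + 1) = ST_W k x := by
  unfold ST_W
  rw [ST_e_per]

theorem ST_W_zero {m : ℕ} (k : Fin m → ℂ) (x : ℂ) : ST_W k x = 0 ↔ ∃ i, ST_e x = ST_e (k i) := by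
  unfold ST_W
  rw [Finset.prod_eq_zero_iff]
  constructor
  · rintro ⟨i, _, h⟩
    exact ⟨i, sub_eq_zero.1 h⟩
  · rintro ⟨i, h⟩
    exact ⟨i, Finset.mem_univ i, sub_eq_zero.2 h⟩

theorem ST_W_deriv {m : ℕ} {k : Fin m → ℂ} (hk : ∀ i j, k i - k j ∈ AddSubgroup.zmultiples (1 : ℂ) → i = j)
    {x : ℂ} (h : ST_W k x = 0) : deriv (ST_W k) x ≠ 0 := by
  obtain ⟨i, hi⟩ := (ST_W_zero k x).1 h
  have h1 : ST_W k = fun y => (ST_e y - ST_e (k i)) * ∏ j ∈ Finset.univ.erase i, (ST_e y - ST_e (k j)) := by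
    funext y
    unfold ST_W
    rw [Finset.mul_prod_erase Finset.univ (fun j => ST_e y - ST_e (k j)) (Finset.mem_univ i)]
  have h2 : HasDerivAt (fun y => ST_e y - ST_e (k i)) (ST_e x * (2 * Real.pi * Complex.I)) x := by
    have h3 : HasDerivAt (fun y : ℂ => 2 * Real.pi * Complex.I * y) (2 * Real.pi * Complex.I) x := by
      simpa using (hasDerivAt_id x).const_mul (2 * Real.pi * Complex.I)
    exact (h3.cexp).sub_const _
  have h3 : DifferentiableAt ℂ (fun y => ∏ j ∈ Finset.univ.erase i, (ST_e y - ST_e (k j))) x := by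
    have := ST_e_diff
    fun_prop
  have h4 := h2.mul h3.hasDerivAt
  have h5 : deriv (ST_W k) x = ST_e x * (2 * Real.pi * Complex.I) *
      ∏ j ∈ Finset.univ.erase i, (ST_e x - ST_e (k j)) := by
    have h6 : HasDerivAt (ST_W k) (ST_e x * (2 * Real.pi * Complex.I) *
        ∏ j ∈ Finset.univ.erase i, (ST_e x - ST_e (k j)) + (ST_e x - ST_e (k i)) *
        deriv (fun y => ∏ j ∈ Finset.univ.erase i, (ST_e y - ST_e (k j))) x) x := by
      rw [h1]
      exact h4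
    rw [h6.deriv, hi, sub_self, zero_mul, add_zero]
  rw [h5]
  refine mul_ne_zero (mul_ne_zero (ST_e_ne x) Complex.two_pi_I_ne_zero) ?_
  rw [Finset.prod_ne_zero_iff]
  intro j hj h6
  have h7 : ST_e (k j) = ST_e (k i) := by rw [← hi]; exact (sub_eq_zero.1 h6).symm
  have h8 := hk i j (ST_e_eq.1 h7)
  exact Finset.ne_of_mem_erase hj h8.symm

theorem ST_log {a : ℝ → ℂ} (ha : Continuous a) (h : ∀ s, ‖a s‖ < 1) :
    Continuous (fun s => Complex.log (1 - a s)) ∧ ∀ s, Complex.exp (Complex.log (1 - a s)) = 1 - a s := by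
  have h1 : ∀ s, 1 - a s ∈ Complex.slitPlane := by
    intro s
    have h2 := Complex.mem_slitPlane_of_norm_lt_one (z := - a s) (by rw [norm_neg]; exact h s)
    rwa [← sub_eq_add_neg] at h2
  constructor
  · exact Continuous.clog (by fun_prop) h1
  · intro s
    exact Complex.exp_log (Complex.slitPlane_ne_zero (h1 s))

theorem ST_Q {m : ℕ} {k : Fin m → ℂ} {V : ℂ → ℂ} (F : Field (AddSubgroup.zmultiples (1 : ℂ)) V m k) :
    ∃ (h : ℂ → ℂ) (u : ℂ), Continuous h ∧ (∀ x, V x = Complex.exp (h x) * ST_W k x) ∧ ∀ x, h (x + 1) = h x + u := by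
  have hVW : ∀ x, V x = 0 ↔ ST_W k x = 0 := by
    intro x
    rw [F.zero, ST_W_zero]
    constructor
    · rintro ⟨z, hz, i, h⟩
      refine ⟨i, ST_e_eq.2 ?_⟩
      rw [← h]
      simpa using hz
    · rintro ⟨i, h⟩
      exact ⟨k i - x, ST_e_eq.1 h, i, by ring⟩
  have hqu : ∀ x, (V x ≠ 0 ∧ ST_W k x ≠ 0) ∨ (ST_W k x = 0 ∧ deriv (ST_W k) x ≠ 0 ∧
      ∃ q : ℂ → ℂ, ContinuousAt q x ∧ q x ≠ 0 ∧ ∀ᶠ y in 𝓝 x, V y = (y - x) * q y) := by
    intro x
    by_cases hx : ST_W k x = 0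
    · right
      refine ⟨hx, ST_W_deriv F.ne hx, ?_⟩
      obtain ⟨z, hz, i, hi⟩ := (F.zero x).1 ((hVW x).2 hx)
      obtain ⟨q, hq, hq0, hqe⟩ := F.loc i
      refine ⟨fun y => q (y + z), (hq.comp (continuous_add_const z)).continuousAt, hq0 _, ?_⟩
      have h1 : Tendsto (fun y : ℂ => y + z) (𝓝 x) (𝓝 (k i)) := by
        rw [← hi]
        exact (continuous_add_const z).continuousAt
      filter_upwards [h1.eventually hqe] with y hy
      rw [← F.inv z hz y, hy, ← hi]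
      ring
    · left
      exact ⟨fun h => hx ((hVW x).1 h), hx⟩
  obtain ⟨Q, hQ, hQ0, hVQ⟩ := qu F.cont (ST_W_diff k) hqu
  have hdense : Dense {x | ST_W k x ≠ 0} := by
    intro x
    by_cases hx : ST_W k x = 0
    · have h1 : HasDerivAt (ST_W k) (deriv (ST_W k) x) x := (ST_W_diff k x).hasDerivAt
      have h2 : ∀ᶠ y in 𝓝[≠] x, ST_W k y ≠ 0 := h1.eventually_ne (ST_W_deriv F.ne hx)
      rw [mem_closure_iff_frequently]
      exact h2.frequently.filter_mono nhdsWithin_le_nhds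
    · exact subset_closure hx
  have hQper : (fun x => Q (x + 1)) = Q := by
    refine Continuous.ext_on hdense (hQ.comp (continuous_add_const 1)) hQ ?_
    intro x hx
    have h1 : V (x + 1) = V x := F.inv 1 (AddSubgroup.mem_zmultiples 1) x
    rw [hVQ, hVQ, ST_W_per] at h1
    exact mul_right_cancel₀ hx h1
  obtain ⟨h, hh, hQh⟩ := lg_exists hQ hQ0
  obtain ⟨u, hu⟩ := lg_per2 hh (fun s => by
    rw [← hQh, ← hQh]
    exact congrFun hQper s)
  refine ⟨h, u, hh, ?_, hu⟩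
  intro x
  rw [hVQ, hQh]

theorem ST_w {f g : ℝ → ℂ} (hf : Continuous f) (hg : Continuous g)
    (h : ∀ s, Complex.exp (f s) = Complex.exp (g s)) {w u : ℂ} (hw : ∀ s, f (s + 1) = f s + w)
    (hu : ∀ s, g (s + 1) = g s + u) : w = u := by
  have h1 := lg_const hf hg h (0 + 1) 0
  rw [hw, hu] at h1
  linear_combination h1

theorem st {m : ℕ} {k : Fin m → ℂ} {V : ℂ → ℂ} (F : Field (AddSubgroup.zmultiples (1 : ℂ)) V m k)
    {y₁ y₂ : ℝ} (hy₁ : ∀ i, y₁ < (k i).im) (hy₂ : ∀ i, (k i).im < y₂) {f₁ f₂ : ℝ → ℂ}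
    (c₁ : Continuous f₁) (c₂ : Continuous f₂) (h₁ : ∀ s : ℝ, V (s + y₁ * Complex.I) = Complex.exp (f₁ s))
    (h₂ : ∀ s : ℝ, V (s + y₂ * Complex.I) = Complex.exp (f₂ s)) {w : ℂ}
    (p₁ : ∀ s, f₁ (s + 1) = f₁ s + w) (p₂ : ∀ s, f₂ (s + 1) = f₂ s + w) : m = 0 := by
  obtain ⟨h, u, hh, hV, hu⟩ := ST_Q F
  have e2 : w = u := by
    have ha : ∀ i s, ‖ST_e ((s : ℝ) + y₂ * Complex.I - k i)‖ < 1 := by
      intro i s
      apply ST_e_lt
      simpa using hy₂ i
    have hc : ∀ i, Continuous (fun s : ℝ => ST_e ((s : ℂ) + y₂ * Complex.I - k i)) := by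
      intro i
      exact ST_e_cont.comp (by fun_prop)
    have hcl := fun i => (ST_log (hc i) (ha i)).1
    have hcont : Continuous (fun s : ℝ => h ((s : ℂ) + y₂ * Complex.I) +
        ∑ i, (Complex.log (- ST_e (k i)) + Complex.log (1 - ST_e ((s : ℂ) + y₂ * Complex.I - k i)))) := by
      refine Continuous.add (hh.comp (by fun_prop)) ?_
      exact continuous_finsetSum _ fun i _ => continuous_const.add (hcl i)
    refine ST_w c₂ hcont ?_ p₂ (u := u) ?_
    · intro s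
      rw [← h₂, hV, Complex.exp_add, Complex.exp_sum]
      congr 1
      unfold ST_W
      refine Finset.prod_congr rfl fun i _ => ?_
      rw [Complex.exp_add, Complex.exp_log (neg_ne_zero.2 (ST_e_ne _)), (ST_log (hc i) (ha i)).2]
      linear_combination -(ST_e_sub ((s : ℂ) + y₂ * Complex.I) (k i))
    · intro s
      have h3 : (((s + 1 : ℝ) : ℂ) + y₂ * Complex.I) = (s : ℂ) + y₂ * Complex.I + 1 := by
        push_cast
        ring
      have h4 : ∀ i, ((s : ℂ) + y₂ * Complex.I + 1 - k i) = ((s : ℂ) + y₂ * Complex.I - k i) + 1 := fun i => by ring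
      simp only [h3, hu, h4, ST_e_per]
      ring
  have e1 : w = u + m * (2 * Real.pi * Complex.I) := by
    have ha : ∀ i s, ‖ST_e (k i - ((s : ℝ) + y₁ * Complex.I))‖ < 1 := by
      intro i s
      apply ST_e_lt
      simpa using hy₁ i
    have hc : ∀ i, Continuous (fun s : ℝ => ST_e (k i - ((s : ℂ) + y₁ * Complex.I))) := by
      intro i
      exact ST_e_cont.comp (by fun_prop)
    have hcl := fun i => (ST_log (hc i) (ha i)).1
    have hcont : Continuous (fun s : ℝ => h ((s : ℂ) + y₁ * Complex.I) +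
        ∑ i, (2 * Real.pi * Complex.I * ((s : ℂ) + y₁ * Complex.I) +
          Complex.log (1 - ST_e (k i - ((s : ℂ) + y₁ * Complex.I))))) := by
      refine Continuous.add (hh.comp (by fun_prop)) ?_
      refine continuous_finsetSum _ fun i _ => Continuous.add ?_ (hcl i)
      fun_prop
    refine ST_w c₁ hcont ?_ p₁ (u := u + m * (2 * Real.pi * Complex.I)) ?_
    · intro s
      rw [← h₁, hV, Complex.exp_add, Complex.exp_sum]
      congr 1
      unfold ST_W
      refine Finset.prod_congr rfl fun i _ => ?_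
      rw [Complex.exp_add, (ST_log (hc i) (ha i)).2]
      have h5 : Complex.exp (2 * Real.pi * Complex.I * ((s : ℂ) + y₁ * Complex.I)) =
        ST_e ((s : ℂ) + y₁ * Complex.I) := rfl
      rw [h5]
      linear_combination (ST_e_sub (k i) ((s : ℂ) + y₁ * Complex.I))
    · intro s
      have h3 : (((s + 1 : ℝ) : ℂ) + y₁ * Complex.I) = (s : ℂ) + y₁ * Complex.I + 1 := by
        push_cast
        ring
      have h4 : ∀ i, ST_e (k i - ((s : ℂ) + y₁ * Complex.I + 1)) = ST_e (k i - ((s : ℂ) + y₁ * Complex.I)) := by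
        intro i
        rw [← ST_e_per]
        congr 1
        ring
      simp only [h3, hu, h4, Finset.sum_add_distrib, Finset.sum_const, Finset.card_univ, Fintype.card_fin,
        nsmul_eq_mul]
      ring
  have h6 : (m : ℂ) * (2 * Real.pi * Complex.I) = 0 := by
    linear_combination e2 - e1
  rcases mul_eq_zero.1 h6 with h7 | h7
  · exact_mod_cast h7
  · exact absurd h7 Complex.two_pi_I_ne_zero

end TOR

end S_H57_TOR_ST

section S_H57_TOR_C1

/-!
C1 (the case `Z = ℤ e₁ + ℤ e₂`).  Replacing `e₂` by `- e₂` we may assume `τ = e₂ / e₁`, `Im τ > 0`.  `V₁ ζ = V (e₁ ζ)` is invariant under `1` and `τ`, with zeros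
`k i / e₁ + a + b τ`.  Choose `y₁` not in the countable set of the numbers `Im (k i / e₁) + b Im τ`, `y₂ = y₁ + Im τ`, and for each `i` the integer `b i` with
`y₁ < Im (κ i) < y₂`, `κ i = k i / e₁ + b i τ` (`b i = ⌈(y₁ - Im (k i / e₁)) / Im τ⌉`).  Let `V₂ ζ = V₁ (Re ζ + I * clamp (Im ζ))`, `clamp y = max y₁ (min y y₂)`.  Then `V₂` is continuous, `V₂ (ζ + 1) = V₂ ζ`, and
`V₂ ζ = 0` iff `ζ' + a + b τ = κ i` for the clamped point `ζ'`; as `Im ζ' ∈ [y₁, y₂]`, `Im (κ i) ∈ (y₁, y₂)`, we get `b = 0`, so `Im ζ' = Im (κ i)` is in the open interval and `ζ' = ζ`.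
So `Field (zmultiples 1) V₂ m κ` (`ne`: `κ i - κ j = a` gives `k i - k j = a e₁ + (b j - b i) e₂ ∈ Z`; `loc`: near `κ i` `V₂ ζ = V₁ ζ = V (e₁ ζ - b i e₂) = (ζ - κ i) * e₁ * q (e₁ ζ - b i e₂)`).
The function `ζ ↦ V₁ (Re ζ + y₁ I)` is continuous and has no zero, so it has a continuous logarithm `L` (`lg_exists`), `f₁ s = L s`, `f₂ s = f₁ (s - Re τ)`
(`V₁ (s + y₂ I) = V₁ (s + y₂ I - τ) = V₁ ((s - Re τ) + y₁ I)`), `w` from `lg_per`.  `ST` gives `m = 0`.
-/

namespace TOR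

open Metric Set Filter Topology DS

/-- the clamp of the imaginary part -/
noncomputable def C1_cl (y₁ y₂ : ℝ) (ζ : ℂ) : ℂ := (ζ.re : ℂ) + (max y₁ (min ζ.im y₂) : ℝ) * Complex.I

theorem C1_cl_cont (y₁ y₂ : ℝ) : Continuous (C1_cl y₁ y₂) := by
  unfold C1_cl
  fun_prop

theorem C1_cl_im (y₁ y₂ : ℝ) (ζ : ℂ) : (C1_cl y₁ y₂ ζ).im = max y₁ (min ζ.im y₂) := by
  simp [C1_cl]

theorem C1_cl_re (y₁ y₂ : ℝ) (ζ : ℂ) : (C1_cl y₁ y₂ ζ).re = ζ.re := by
  simp [C1_cl]

theorem C1_cl_eq {y₁ y₂ : ℝ} {ζ : ℂ} (h1 : y₁ ≤ ζ.im) (h2 : ζ.im ≤ y₂) : C1_cl y₁ y₂ ζ = ζ := by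
  apply Complex.ext
  · rw [C1_cl_re]
  · rw [C1_cl_im, min_eq_left h2, max_eq_right h1]

theorem C1_cl_add (y₁ y₂ : ℝ) (ζ : ℂ) (n : ℤ) : C1_cl y₁ y₂ (ζ + n) = C1_cl y₁ y₂ ζ + n := by
  apply Complex.ext
  · simp [C1_cl_re]
  · rw [C1_cl_im, Complex.add_im, Complex.add_im, C1_cl_im]
    simp

theorem C1_pos {m : ℕ} {Z : AddSubgroup ℂ} {V : ℂ → ℂ} {k : Fin m → ℂ} (F : Field Z V m k)
    {e₁ e₂ : ℂ} (h1 : e₁ ≠ 0) (him : 0 < (e₂ / e₁).im)
    (hZ : ∀ z, z ∈ Z ↔ ∃ a b : ℤ, z = a * e₁ + b * e₂) : m = 0 := by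
  set τ := e₂ / e₁ with hτ
  have he2 : e₂ = τ * e₁ := by rw [hτ]; field_simp
  set V₁ : ℂ → ℂ := fun ζ => V (e₁ * ζ) with hV₁
  have hV₁c : Continuous V₁ := F.cont.comp (by fun_prop)
  have hper : ∀ (a b : ℤ) (ζ : ℂ), V₁ (ζ + a + b * τ) = V₁ ζ := by
    intro a b ζ
    simp only [hV₁]
    have : e₁ * (ζ + a + b * τ) = e₁ * ζ + (a * e₁ + b * e₂) := by rw [he2]; ring
    rw [this]
    exact F.inv _ ((hZ _).2 ⟨a, b, rfl⟩) _
  have hzero : ∀ ζ, V₁ ζ = 0 ↔ ∃ (a b : ℤ) (i : Fin m), ζ + a + b * τ = k i / e₁ := by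
    intro ζ
    simp only [hV₁]
    rw [F.zero]
    constructor
    · rintro ⟨z, hz, i, h⟩
      obtain ⟨a, b, rfl⟩ := (hZ z).1 hz
      refine ⟨a, b, i, ?_⟩
      rw [← h, he2]
      field_simp
      ring
    · rintro ⟨a, b, i, h⟩
      refine ⟨a * e₁ + b * e₂, (hZ _).2 ⟨a, b, rfl⟩, i, ?_⟩
      have h2 : k i = (ζ + a + b * τ) * e₁ := by rw [h]; field_simp
      rw [h2, he2]
      ring
  -- a good height
  obtain ⟨y₁, hy₁⟩ : ∃ y₁ : ℝ, ∀ (i : Fin m) (b : ℤ), y₁ ≠ (k i / e₁).im + b * τ.im := by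
    have hS : (range fun x : Fin m × ℤ => (k x.1 / e₁).im + x.2 * τ.im).Countable :=
      countable_range _
    obtain ⟨y, hy⟩ := (hS.dense_compl ℝ).nonempty
    exact ⟨y, fun i b h => hy ⟨(i, b), h.symm⟩⟩
  set y₂ : ℝ := y₁ + τ.im with hy₂
  have hy12 : y₁ < y₂ := by rw [hy₂]; linarith
  set bb : Fin m → ℤ := fun i => ⌈(y₁ - (k i / e₁).im) / τ.im⌉ with hbb
  set κ : Fin m → ℂ := fun i => k i / e₁ + bb i * τ with hκ
  have hκim : ∀ i, (κ i).im = (k i / e₁).im + bb i * τ.im := by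
    intro i
    simp [hκ]
  have hκ1 : ∀ i, y₁ < (κ i).im := by
    intro i
    rw [hκim]
    have h2 : (y₁ - (k i / e₁).im) / τ.im ≤ bb i := Int.le_ceil _
    rw [div_le_iff₀ him] at h2
    have h3 : y₁ ≤ (k i / e₁).im + bb i * τ.im := by linarith
    exact lt_of_le_of_ne h3 (hy₁ i (bb i))
  have hκ2 : ∀ i, (κ i).im < y₂ := by
    intro i
    rw [hκim]
    have h2 : (bb i : ℝ) < (y₁ - (k i / e₁).im) / τ.im + 1 := Int.ceil_lt_add_one _
    have h3 : (bb i : ℝ) * τ.im < ((y₁ - (k i / e₁).im) / τ.im + 1) * τ.im :=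
      mul_lt_mul_of_pos_right h2 him
    have h4 : ((y₁ - (k i / e₁).im) / τ.im + 1) * τ.im = y₁ - (k i / e₁).im + τ.im := by
      field_simp
    rw [h4] at h3
    rw [hy₂]
    linarith
  set V₂ : ℂ → ℂ := fun ζ => V₁ (C1_cl y₁ y₂ ζ) with hV₂
  have hclim : ∀ ζ, y₁ ≤ (C1_cl y₁ y₂ ζ).im ∧ (C1_cl y₁ y₂ ζ).im ≤ y₂ := by
    intro ζ
    rw [C1_cl_im]
    exact ⟨le_max_left _ _, max_le hy12.le (min_le_right _ _)⟩
  have hF : Field (AddSubgroup.zmultiples (1 : ℂ)) V₂ m κ := by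
    refine ⟨hV₁c.comp (C1_cl_cont _ _), ?_, ?_, ?_, ?_⟩
    · rintro z hz x
      obtain ⟨n, rfl⟩ := AddSubgroup.mem_zmultiples_iff.1 hz
      simp only [hV₂, zsmul_eq_mul, mul_one]
      rw [C1_cl_add]
      have := hper n 0 (C1_cl y₁ y₂ x)
      simpa using this
    · intro ζ
      constructor
      · intro h
        obtain ⟨a, b, i, h2⟩ := (hzero _).1 h
        have h3 : C1_cl y₁ y₂ ζ + a + ((b + bb i : ℤ) : ℂ) * τ = κ i := by
          simp only [hκ]
          rw [← h2]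
          push_cast
          ring
        have h4 := congrArg Complex.im h3
        have h5 : (C1_cl y₁ y₂ ζ + a + ((b + bb i : ℤ) : ℂ) * τ).im =
            (C1_cl y₁ y₂ ζ).im + ((b + bb i : ℤ) : ℝ) * τ.im := by
          simp
        rw [h5] at h4
        obtain ⟨c1, c2⟩ := hclim ζ
        have c3 := hκ1 i
        have c4 := hκ2 i
        have hb0 : b + bb i = 0 := by
          have e1 : ((b + bb i : ℤ) : ℝ) * τ.im < 1 * τ.im := by linarith
          have e2 : (-1 : ℝ) * τ.im < ((b + bb i : ℤ) : ℝ) * τ.im := by linarith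
          have e3 := lt_of_mul_lt_mul_right e1 him.le
          have e4 := lt_of_mul_lt_mul_right e2 him.le
          have e5 : b + bb i < 1 := by exact_mod_cast e3
          have e6 : -1 < b + bb i := by exact_mod_cast e4
          omega
        rw [hb0] at h3 h4
        simp only [Int.cast_zero, zero_mul, add_zero] at h3 h4
        have hcl : C1_cl y₁ y₂ ζ = ζ := by
          rw [C1_cl_im] at h4
          have e1 : y₁ < min ζ.im y₂ := by
            by_contra hcon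
            push Not at hcon
            rw [max_eq_left hcon] at h4
            linarith
          rw [max_eq_right e1.le] at h4
          have e2 : ζ.im < y₂ := by
            by_contra hcon
            push Not at hcon
            rw [min_eq_right hcon] at h4
            linarith
          exact C1_cl_eq (by rw [min_eq_left e2.le] at e1; exact e1.le) e2.le
        rw [hcl] at h3
        exact ⟨a, AddSubgroup.mem_zmultiples_iff.2 ⟨a, by simp⟩, i, h3⟩
      · rintro ⟨z, hz, i, h⟩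
        obtain ⟨n, rfl⟩ := AddSubgroup.mem_zmultiples_iff.1 hz
        rw [zsmul_eq_mul, mul_one] at h
        have h4 := congrArg Complex.im h
        have h5 : (ζ + (n : ℂ)).im = ζ.im := by simp
        rw [h5] at h4
        have hcl : C1_cl y₁ y₂ ζ = ζ := C1_cl_eq (by rw [h4]; exact (hκ1 i).le)
          (by rw [h4]; exact (hκ2 i).le)
        show V₁ (C1_cl y₁ y₂ ζ) = 0
        rw [hcl, hzero]
        refine ⟨n, -bb i, i, ?_⟩
        rw [h]
        simp only [hκ]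
        push_cast
        ring
    · intro i j hij
      obtain ⟨n, hn⟩ := AddSubgroup.mem_zmultiples_iff.1 hij
      apply F.ne
      rw [hZ]
      refine ⟨n, bb j - bb i, ?_⟩
      rw [zsmul_eq_mul, mul_one] at hn
      simp only [hκ] at hn
      have h2 : (n : ℂ) * e₁ = (k i / e₁ + bb i * τ - (k j / e₁ + bb j * τ)) * e₁ := by rw [hn]
      rw [h2, he2]
      push_cast
      field_simp
      ring
    · intro i
      obtain ⟨q, hq, hq0, hqe⟩ := F.loc i
      refine ⟨fun ζ => e₁ * q (e₁ * ζ - bb i * e₂), by fun_prop, fun ζ => mul_ne_zero h1 (hq0 _), ?_⟩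
      have ht : Tendsto (fun ζ : ℂ => e₁ * ζ - bb i * e₂) (𝓝 (κ i)) (𝓝 (k i)) := by
        have hc : Continuous (fun ζ : ℂ => e₁ * ζ - bb i * e₂) := by fun_prop
        have h2 := hc.tendsto (κ i)
        have h3 : e₁ * κ i - bb i * e₂ = k i := by
          simp only [hκ]
          rw [he2]
          field_simp
          ring
        rw [h3] at h2
        exact h2
      have hu : ∀ᶠ ζ in 𝓝 (κ i), y₁ < ζ.im ∧ ζ.im < y₂ :=
        Filter.Eventually.and ((isOpen_lt continuous_const Complex.continuous_im).mem_nhds (hκ1 i))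
          ((isOpen_lt Complex.continuous_im continuous_const).mem_nhds (hκ2 i))
      filter_upwards [ht.eventually hqe, hu] with ζ hζ hζ2
      show V₁ (C1_cl y₁ y₂ ζ) = _
      rw [C1_cl_eq hζ2.1.le hζ2.2.le]
      have h2 := hper 0 (-bb i) ζ
      rw [← h2]
      show V (e₁ * (ζ + ((0:ℤ):ℂ) + ((-bb i : ℤ) : ℂ) * τ)) = _
      have h3 : e₁ * (ζ + ((0:ℤ):ℂ) + ((-bb i : ℤ) : ℂ) * τ) = e₁ * ζ - bb i * e₂ := by
        rw [he2]
        push_cast
        ring
      rw [h3, hζ]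
      have h4 : e₁ * ζ - bb i * e₂ - k i = e₁ * (ζ - κ i) := by
        simp only [hκ]
        rw [he2]
        field_simp
        ring
      rw [h4]
      ring
  -- logarithms
  have hu0 : ∀ ζ : ℂ, V₁ ((ζ.re : ℂ) + y₁ * Complex.I) ≠ 0 := by
    intro ζ h
    obtain ⟨a, b, i, h2⟩ := (hzero _).1 h
    have h3 := congrArg Complex.im h2
    have h4 : ((ζ.re : ℂ) + y₁ * Complex.I + a + b * τ).im = y₁ + b * τ.im := by simp
    rw [h4] at h3
    apply hy₁ i (-b)
    push_cast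
    linarith
  obtain ⟨L, hL, hLe⟩ := lg_exists (f := fun ζ : ℂ => V₁ ((ζ.re : ℂ) + y₁ * Complex.I))
    (hV₁c.comp (by fun_prop)) hu0
  have hcl1 : ∀ s : ℝ, C1_cl y₁ y₂ (s + y₁ * Complex.I) = s + y₁ * Complex.I := fun s =>
    C1_cl_eq (by simp) (by simp [hy12.le])
  have hcl2 : ∀ s : ℝ, C1_cl y₁ y₂ (s + y₂ * Complex.I) = s + y₂ * Complex.I := fun s =>
    C1_cl_eq (by simp [hy12.le]) (by simp)
  have hLs : ∀ s : ℝ, V₁ ((s : ℂ) + y₁ * Complex.I) = Complex.exp (L s) := by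
    intro s
    have := hLe s
    simpa using this
  have hf₁c : Continuous fun s : ℝ => L s := hL.comp Complex.continuous_ofReal
  obtain ⟨w, hw⟩ := lg_per (f := fun s : ℝ => L s) hf₁c (by
    intro s
    rw [← hLs, ← hLs]
    have := hper 1 0 ((s : ℂ) + y₁ * Complex.I)
    rw [← this]
    congr 1
    push_cast
    ring)
  refine st hF hκ1 hκ2 (f₁ := fun s : ℝ => L s) (f₂ := fun s : ℝ => L ((s - τ.re : ℝ) : ℂ)) hf₁c
    (hf₁c.comp (by fun_prop)) ?_ ?_ (w := w) hw ?_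
  · intro s
    show V₁ (C1_cl y₁ y₂ (s + y₁ * Complex.I)) = _
    rw [hcl1, hLs]
  · intro s
    show V₁ (C1_cl y₁ y₂ (s + y₂ * Complex.I)) = _
    rw [hcl2, ← hLs, ← hper 0 1 (((s - τ.re : ℝ) : ℂ) + y₁ * Complex.I)]
    congr 1
    apply Complex.ext
    · simp
    · simp [hy₂]
  · intro s
    have := hw (s - τ.re)
    rw [← this]
    congr 2
    ring

theorem c1 {m : ℕ} {Z : AddSubgroup ℂ} {V : ℂ → ℂ} {k : Fin m → ℂ} (F : Field Z V m k) {e₁ e₂ : ℂ}
    (h1 : e₁ ≠ 0) (him : (e₂ / e₁).im ≠ 0) (hZ : ∀ z, z ∈ Z ↔ ∃ a b : ℤ, z = a * e₁ + b * e₂) :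
    m = 0 := by
  rcases lt_or_gt_of_ne him with h | h
  · refine C1_pos F h1 (e₂ := -e₂) (by rw [neg_div, Complex.neg_im]; linarith) ?_
    intro z
    rw [hZ]
    constructor
    · rintro ⟨a, b, rfl⟩
      exact ⟨a, -b, by push_cast; ring⟩
    · rintro ⟨a, b, rfl⟩
      exact ⟨a, -b, by push_cast; ring⟩
  · exact C1_pos F h1 h hZ

end TOR

end S_H57_TOR_C1

section S_H57_TOR_C2

/-!
C2 (the case `Z = ℤ e₁`, `V x = n t(x) e₁ + O(1)`, `t(x) = Im (x / e₁) / Im (e₂ / e₁)`, on `|Im (x / e₁)| ≥ T`).  `V₁ ζ = V (e₁ ζ)` is `1`-periodic with zeros `κ i = k i / e₁` modulo `1`: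
`Field (zmultiples 1) V₁ m κ` (`loc`: `V₁ ζ = (ζ - κ i) * e₁ * q (e₁ ζ)`).  For `ζ = s + y I`, `|y| ≥ T`: `‖V₁ ζ / e₁ - n y / T₀‖ ≤ C / ‖e₁‖`, `T₀ = Im (e₂ / e₁) ≠ 0`.
Choose `Y > 0` larger than `T`, all `|Im (κ i)|` and such that `|n| Y / |T₀| > C / ‖e₁‖`; `y₂ = Y`, `y₁ = - Y`.  On the line `Im = y₂` the real part of `σ V₁ / e₁`, `σ = ± 1` the sign of `n / T₀`, is positive,
so `f₂ s = log (σ V₁ (s + y₂ I) / e₁) + log (σ e₁)` (principal logarithms) is continuous and `1`-periodic, `w = 0`; the same on `Im = y₁` with `- σ`.  `ST`.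
-/

namespace TOR

open Metric Set Filter Topology DS

theorem C2_field {m : ℕ} {V : ℂ → ℂ} {k : Fin m → ℂ} {e₁ : ℂ}
    (F : Field (AddSubgroup.zmultiples e₁) V m k) (h1 : e₁ ≠ 0) :
    Field (AddSubgroup.zmultiples (1 : ℂ)) (fun x => V (e₁ * x)) m (fun i => k i / e₁) := by
  have hz : ∀ a : ℤ, a • e₁ = e₁ * (a • (1 : ℂ)) := by
    intro a
    rw [zsmul_eq_mul, zsmul_eq_mul]
    ring
  refine ⟨F.cont.comp (by fun_prop), ?_, ?_, ?_, ?_⟩
  · rintro z ⟨a, rfl⟩ x
    change V (e₁ * (x + a • (1 : ℂ))) = V (e₁ * x)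
    rw [mul_add, ← hz a]
    exact F.inv _ ⟨a, rfl⟩ _
  · intro x
    change V (e₁ * x) = 0 ↔ _
    rw [F.zero]
    constructor
    · rintro ⟨_, ⟨a, rfl⟩, i, hi⟩
      refine ⟨_, ⟨a, rfl⟩, i, ?_⟩
      rw [eq_div_iff h1, ← hi]
      change (x + a • (1 : ℂ)) * e₁ = e₁ * x + a • e₁
      rw [hz a]
      ring
    · rintro ⟨_, ⟨a, rfl⟩, i, hi⟩
      refine ⟨_, ⟨a, rfl⟩, i, ?_⟩
      rw [eq_div_iff h1] at hi
      rw [← hi]
      change e₁ * x + a • e₁ = (x + a • (1 : ℂ)) * e₁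
      rw [hz a]
      ring
  · rintro i j ⟨a, ha⟩
    refine F.ne i j ⟨a, ?_⟩
    change a • e₁ = k i - k j
    have ha' : a • (1 : ℂ) = k i / e₁ - k j / e₁ := ha
    rw [hz a, ha']
    field_simp
  · intro i
    obtain ⟨q, hq, hq0, hqe⟩ := F.loc i
    refine ⟨fun x => e₁ * q (e₁ * x), continuous_const.mul (hq.comp (by fun_prop)),
      fun x => mul_ne_zero h1 (hq0 _), ?_⟩
    have h2 : Tendsto (fun x : ℂ => e₁ * x) (𝓝 (k i / e₁)) (𝓝 (k i)) := by
      have h3 : Continuous (fun x : ℂ => e₁ * x) := by fun_prop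
      have h4 := h3.tendsto (k i / e₁)
      rwa [mul_div_cancel₀ _ h1] at h4
    filter_upwards [h2.eventually hqe] with x hx
    rw [hx]
    field_simp

theorem C2_log {W : ℂ → ℂ} (hW : Continuous W) {y : ℝ} {e τ : ℂ} (he : e ≠ 0) (hτ : τ * τ = 1)
    (hper : ∀ x, W (x + 1) = W x)
    (hre : ∀ s : ℝ, 0 < (τ * W (s + y * Complex.I) / e).re) :
    ∃ f : ℝ → ℂ, Continuous f ∧ (∀ s : ℝ, W (s + y * Complex.I) = Complex.exp (f s)) ∧
      ∀ s, f (s + 1) = f s + 0 := by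
  have hτ0 : τ ≠ 0 := left_ne_zero_of_mul_eq_one hτ
  have hsl : ∀ s : ℝ, τ * W (s + y * Complex.I) / e ∈ Complex.slitPlane := fun s =>
    Or.inl (hre s)
  refine ⟨fun s : ℝ => Complex.log (τ * W (s + y * Complex.I) / e) + Complex.log (τ * e), ?_, ?_,
    ?_⟩
  · refine Continuous.add (Continuous.clog ?_ hsl) continuous_const
    exact (continuous_const.mul (hW.comp (by fun_prop))).div_const _
  · intro s
    rw [Complex.exp_add, Complex.exp_log (Complex.slitPlane_ne_zero (hsl s)),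
      Complex.exp_log (mul_ne_zero hτ0 he)]
    field_simp
    linear_combination (-W (s + y * Complex.I)) * hτ
  · intro s
    have : ((s + 1 : ℝ) : ℂ) + y * Complex.I = s + y * Complex.I + 1 := by
      push_cast
      ring
    simp only [this, hper, add_zero]

theorem C2_re {z : ℂ} {τ : ℂ} (hτ : τ * τ = 1) {r B : ℝ} {σ : ℝ} (hσ : τ = σ)
    (hz : ‖z - (r : ℂ)‖ ≤ B) (h : B < σ * r) : 0 < (τ * z).re := by
  have h1 : ‖τ‖ = 1 := by
    have := congrArg norm hτ
    rw [norm_mul, norm_one] at this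
    nlinarith [norm_nonneg τ]
  have h2 : ‖τ * z - (σ * r : ℝ)‖ ≤ B := by
    have : τ * z - ((σ * r : ℝ) : ℂ) = τ * (z - r) := by
      rw [hσ]
      push_cast
      ring
    rw [this, norm_mul, h1, one_mul]
    exact hz
  have h3 := Complex.abs_re_le_norm (τ * z - (σ * r : ℝ))
  rw [Complex.sub_re, Complex.ofReal_re] at h3
  have h4 := (abs_le.1 (h3.trans h2)).1
  linarith

theorem c2 {m : ℕ} {V : ℂ → ℂ} {k : Fin m → ℂ} {e₁ e₂ : ℂ} (F : Field (AddSubgroup.zmultiples e₁) V m k)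
    (h1 : e₁ ≠ 0) (him : (e₂ / e₁).im ≠ 0) {n : ℤ} (hn : n ≠ 0) {C T : ℝ}
    (hC : ∀ x : ℂ, T ≤ |(x / e₁).im| → ‖V x - (((n : ℝ) * ((x / e₁).im / (e₂ / e₁).im) : ℝ) : ℂ) * e₁‖ ≤ C) :
    m = 0 := by
  classical
  set T₀ : ℝ := (e₂ / e₁).im with hT₀
  set W : ℂ → ℂ := fun x => V (e₁ * x) with hW
  have F₁ : Field (AddSubgroup.zmultiples (1 : ℂ)) W m (fun i => k i / e₁) := C2_field F h1
  have hper : ∀ x, W (x + 1) = W x := fun x =>
    F₁.inv 1 (AddSubgroup.mem_zmultiples 1) x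
  set a : ℝ := n / T₀ with ha
  have ha0 : a ≠ 0 := div_ne_zero (Int.cast_ne_zero.2 hn) him
  have hest : ∀ s y : ℝ, T ≤ |y| →
      ‖W (s + y * Complex.I) / e₁ - ((a * y : ℝ) : ℂ)‖ ≤ C / ‖e₁‖ := by
    intro s y hy
    have h2 : ((s : ℂ) + y * Complex.I).im = y := by simp
    have h3 : (e₁ * ((s : ℂ) + y * Complex.I)) / e₁ = s + y * Complex.I := by
      field_simp
    have h4 := hC (e₁ * (s + y * Complex.I)) (by rw [h3, h2]; exact hy)
    rw [h3, h2] at h4
    have h5 : W (s + y * Complex.I) / e₁ - ((a * y : ℝ) : ℂ) =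
        (V (e₁ * (s + y * Complex.I)) - (((n : ℝ) * (y / T₀) : ℝ) : ℂ) * e₁) / e₁ := by
      rw [sub_div, mul_div_assoc _ e₁ e₁, div_self h1, mul_one]
      congr 2
      rw [ha]
      ring
    rw [h5, norm_div]
    exact div_le_div_of_nonneg_right h4 (norm_nonneg _)
  obtain ⟨Y, hY⟩ : ∃ Y : ℝ, 0 < Y ∧ T ≤ Y ∧ (∀ i, |(k i / e₁).im| < Y) ∧ C / ‖e₁‖ < |a| * Y := by
    have hb : ∃ M : ℝ, ∀ i, |(k i / e₁).im| < M := by
      obtain ⟨M, hM⟩ := (Set.finite_range fun i => |(k i / e₁).im|).bddAbove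
      exact ⟨M + 1, fun i => (hM ⟨i, rfl⟩).trans_lt (lt_add_one M)⟩
    obtain ⟨M, hM⟩ := hb
    refine ⟨max (max 1 T) (max M (C / ‖e₁‖ / |a| + 1)), ?_, ?_, ?_, ?_⟩
    · exact zero_lt_one.trans_le ((le_max_left _ _).trans (le_max_left _ _))
    · exact (le_max_right _ _).trans (le_max_left _ _)
    · exact fun i => (hM i).trans_le ((le_max_left _ _).trans (le_max_right _ _))
    · have h2 : C / ‖e₁‖ / |a| < max (max 1 T) (max M (C / ‖e₁‖ / |a| + 1)) :=
        (lt_add_one _).trans_le ((le_max_right _ _).trans (le_max_right _ _))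
      rw [div_lt_iff₀ (abs_pos.2 ha0)] at h2
      linarith
  obtain ⟨hY0, hYT, hYk, hYC⟩ := hY
  obtain ⟨σ, hσ1, hσ2⟩ : ∃ σ : ℝ, σ * σ = 1 ∧ σ * a = |a| := by
    rcases lt_or_gt_of_ne ha0 with h | h
    · exact ⟨-1, by norm_num, by rw [abs_of_neg h]; ring⟩
    · exact ⟨1, by norm_num, by rw [abs_of_pos h]; ring⟩
  have hσc : (σ : ℂ) * σ = 1 := by
    rw [← Complex.ofReal_mul, hσ1, Complex.ofReal_one]
  obtain ⟨f₂, c₂, g₂, p₂⟩ := C2_log (y := Y) F₁.cont h1 hσc hper (by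
    intro s
    rw [mul_div_assoc]
    refine C2_re (σ := σ) hσc rfl (hest s Y (by rw [abs_of_pos hY0]; exact hYT)) ?_
    rw [← mul_assoc, hσ2]
    exact hYC)
  obtain ⟨f₁, c₁, g₁, p₁⟩ := C2_log (y := -Y) (τ := -(σ : ℂ)) F₁.cont h1 (by
      rw [neg_mul_neg]; exact hσc) hper (by
    intro s
    rw [mul_div_assoc]
    refine C2_re (σ := -σ) (by rw [neg_mul_neg]; exact hσc) (by push_cast; ring)
      (hest s (-Y) (by rw [abs_neg, abs_of_pos hY0]; exact hYT)) ?_
    have : -σ * (a * -Y) = σ * a * Y := by ring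
    rw [this, hσ2]
    exact hYC)
  exact st F₁ (y₁ := -Y) (y₂ := Y) (fun i => (abs_lt.1 (hYk i)).1) (fun i => (abs_lt.1 (hYk i)).2)
    c₁ c₂ g₁ g₂ p₁ p₂

end TOR

end S_H57_TOR_C2

section S_H57_TOR_C3

/-!
C3 (the case `Z = 0`, `V x = a x + b conj x + O(1)`, `‖a‖ < ‖b‖`).  Let `W x = ∏ i, (x - k i)` (the `k i` are distinct: `Field.ne`); by `qu` `V = Q W`, `Q = exp h` (`lg_exists`).  Let `ρ` be larger than `R`, all `‖k i‖`, `1`, and such that
`C / ρ < ‖b‖ - ‖a‖`.  On the circle `x = ρ exp (I s)`, `s` real: `x - k i = x * (1 - k i / x) = exp (log ρ + I s + log (1 - k i / x))`, so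
`g s = h x + ∑ i, (log ρ + I s + log (1 - k i / x))` is a continuous logarithm of `V x` with `g (s + 2 π) = g s + m * 2 π I`.
On the other hand `V x = b conj x * (1 + u)`, `u = (a x + (V x - a x - b conj x)) / (b conj x)`, `‖u‖ ≤ (‖a‖ ρ + C) / (‖b‖ ρ) < 1`, so `V x = exp (log b + log ρ - I s + log (1 + u))`, a continuous logarithm `g'` with
`g' (s + 2 π) = g' s - 2 π I`.  `g - g'` is constant (`lg_const`), so `m * 2 π I = - 2 π I`: contradiction (`m` is a natural number).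
-/

namespace TOR

open Metric Set Filter Topology DS

theorem C3_log_add {w : ℂ} (hw : ‖w‖ < 1) : 1 + w ∈ Complex.slitPlane :=
  Complex.mem_slitPlane_of_norm_lt_one hw

/-- the points of the circle -/
noncomputable def C3_x (ρ : ℝ) (s : ℝ) : ℂ := Complex.exp ((Real.log ρ : ℂ) + Complex.I * s)

theorem C3_x_eq {ρ : ℝ} (hρ : 0 < ρ) (s : ℝ) : C3_x ρ s = ρ * Complex.exp (Complex.I * s) := by
  unfold C3_x
  rw [Complex.exp_add, ← Complex.ofReal_exp, Real.exp_log hρ]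

theorem C3_x_norm {ρ : ℝ} (hρ : 0 < ρ) (s : ℝ) : ‖C3_x ρ s‖ = ρ := by
  rw [C3_x_eq hρ, norm_mul, mul_comm Complex.I, Complex.norm_exp_ofReal_mul_I, mul_one,
    Complex.norm_real, Real.norm_of_nonneg hρ.le]

theorem C3_x_per {ρ : ℝ} (s : ℝ) : C3_x ρ (s + 2 * Real.pi) = C3_x ρ s := by
  unfold C3_x
  have h := Complex.exp_periodic ((Real.log ρ : ℂ) + Complex.I * s)
  rw [← h]
  congr 1
  push_cast
  ring

theorem C3_x_conj {ρ : ℝ} (s : ℝ) :
    (starRingEnd ℂ) (C3_x ρ s) = Complex.exp ((Real.log ρ : ℂ) - Complex.I * s) := by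
  unfold C3_x
  rw [← Complex.exp_conj, map_add, map_mul, Complex.conj_ofReal, Complex.conj_ofReal,
    Complex.conj_I]
  congr 1
  ring

theorem C3_x_cont (ρ : ℝ) : Continuous (C3_x ρ) := by
  unfold C3_x
  fun_prop

theorem c3 {m : ℕ} {V : ℂ → ℂ} {k : Fin m → ℂ} (F : Field ⊥ V m k) {a b : ℂ} (hab : ‖a‖ < ‖b‖)
    {C R : ℝ} (hC : ∀ x : ℂ, R ≤ ‖x‖ → ‖V x - (a * x + b * (starRingEnd ℂ) x)‖ ≤ C) : False := by
  classical
  set W : ℂ → ℂ := fun x => ∏ i, (x - k i) with hW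
  have hWd : Differentiable ℂ W := by
    intro x
    exact DifferentiableAt.fun_finset_prod fun i _ => (differentiableAt_id.sub_const (k i))
  have hV0 : ∀ x, V x = 0 ↔ ∃ i, x = k i := by
    intro x
    rw [F.zero]
    constructor
    · rintro ⟨z, hz, i, h⟩
      rw [AddSubgroup.mem_bot] at hz
      exact ⟨i, by rw [← h, hz, add_zero]⟩
    · rintro ⟨i, h⟩
      exact ⟨0, AddSubgroup.zero_mem _, i, by rw [add_zero, h]⟩
  have hW0 : ∀ x, W x = 0 ↔ ∃ i, x = k i := by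
    intro x
    simp only [hW, Finset.prod_eq_zero_iff, Finset.mem_univ, true_and, sub_eq_zero]
  have hk : ∀ i j, k i = k j → i = j := fun i j h => F.ne i j (by
    rw [h, sub_self]
    exact AddSubgroup.zero_mem _)
  have hWder : ∀ i, deriv W (k i) ≠ 0 := by
    intro i
    have h1 : W = fun x => (x - k i) * ∏ j ∈ Finset.univ.erase i, (x - k j) := by
      funext x
      simp only [hW]
      rw [Finset.mul_prod_erase Finset.univ (fun j => x - k j) (Finset.mem_univ i)]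
    have hPd : DifferentiableAt ℂ (fun x => ∏ j ∈ Finset.univ.erase i, (x - k j)) (k i) :=
      DifferentiableAt.fun_finset_prod fun j _ => (differentiableAt_id.sub_const (k j))
    have h2 : HasDerivAt (fun x => x - k i) 1 (k i) := (hasDerivAt_id (k i)).sub_const (k i)
    have h3 := h2.mul hPd.hasDerivAt
    rw [h1]
    have h4 : deriv (fun x => (x - k i) * ∏ j ∈ Finset.univ.erase i, (x - k j)) (k i) =
        ∏ j ∈ Finset.univ.erase i, (k i - k j) := by
      have h5 := h3.deriv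
      simp only [sub_self, zero_mul, one_mul, add_zero] at h5
      exact h5
    rw [h4, Finset.prod_ne_zero_iff]
    intro j hj h
    exact (Finset.ne_of_mem_erase hj) (hk _ _ (sub_eq_zero.1 h)).symm
  obtain ⟨Q, hQc, hQ0, hQ⟩ := qu F.cont hWd (by
    intro x
    by_cases hx : ∃ i, x = k i
    · right
      obtain ⟨i, rfl⟩ := hx
      obtain ⟨q, hq, hq0, hqe⟩ := F.loc i
      exact ⟨(hW0 _).2 ⟨i, rfl⟩, hWder i, q, hq.continuousAt, hq0 _, hqe⟩
    · left
      exact ⟨fun h => hx ((hV0 x).1 h), fun h => hx ((hW0 x).1 h)⟩)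
  obtain ⟨L, hL, hLQ⟩ := lg_exists hQc hQ0
  -- the radius
  have hb0 : 0 < ‖b‖ := lt_of_le_of_lt (norm_nonneg a) hab
  have hb : b ≠ 0 := norm_pos_iff.1 hb0
  have hba : 0 < ‖b‖ - ‖a‖ := by linarith
  obtain ⟨ρ, hρ1, hρR, hρC, hρk⟩ : ∃ ρ : ℝ, 1 ≤ ρ ∧ R ≤ ρ ∧ ‖a‖ * ρ + C < ‖b‖ * ρ ∧
      ∀ i, ‖k i‖ < ρ := by
    refine ⟨1 + |R| + |C| / (‖b‖ - ‖a‖) + ∑ i, ‖k i‖, ?_, ?_, ?_, ?_⟩
    · have h1 : 0 ≤ ∑ i, ‖k i‖ := Finset.sum_nonneg fun i _ => norm_nonneg _
      have h2 : 0 ≤ |C| / (‖b‖ - ‖a‖) := by positivity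
      linarith [abs_nonneg R]
    · have h1 : 0 ≤ ∑ i, ‖k i‖ := Finset.sum_nonneg fun i _ => norm_nonneg _
      have h2 : 0 ≤ |C| / (‖b‖ - ‖a‖) := by positivity
      linarith [le_abs_self R]
    · set ρ : ℝ := 1 + |R| + |C| / (‖b‖ - ‖a‖) + ∑ i, ‖k i‖ with hρ
      have h1 : 0 ≤ ∑ i, ‖k i‖ := Finset.sum_nonneg fun i _ => norm_nonneg _
      have h2 : |C| / (‖b‖ - ‖a‖) < ρ := by
        rw [hρ]
        linarith [abs_nonneg R]
      rw [div_lt_iff₀ hba] at h2
      have := le_abs_self C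
      linarith
    · intro i
      have h1 : ‖k i‖ ≤ ∑ i, ‖k i‖ :=
        Finset.single_le_sum (f := fun i => ‖k i‖) (fun i _ => norm_nonneg _) (Finset.mem_univ i)
      have h2 : 0 ≤ |C| / (‖b‖ - ‖a‖) := by positivity
      linarith [abs_nonneg R]
  have hρ0 : 0 < ρ := by linarith
  set x : ℝ → ℂ := C3_x ρ with hx
  have hxn : ∀ s, ‖x s‖ = ρ := fun s => C3_x_norm hρ0 s
  have hx0 : ∀ s, x s ≠ 0 := fun s => Complex.exp_ne_zero _
  have hxc : Continuous x := C3_x_cont ρ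
  have hxper : ∀ s, x (s + 2 * Real.pi) = x s := fun s => C3_x_per s
  have hki : ∀ i s, ‖-(k i / x s)‖ < 1 := by
    intro i s
    rw [norm_neg, norm_div, hxn, div_lt_one hρ0]
    exact hρk i
  -- first logarithm
  set g : ℝ → ℂ := fun s => L (x s) + ∑ i, ((Real.log ρ : ℂ) + Complex.I * s +
    Complex.log (1 + -(k i / x s))) with hg
  have hgc : Continuous g := by
    refine (hL.comp hxc).add (continuous_finsetSum _ fun i _ => ?_)
    refine Continuous.add (by fun_prop) ?_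
    refine Continuous.clog ?_ fun s => C3_log_add (hki i s)
    exact continuous_const.add ((continuous_const.div hxc hx0).neg)
  have hgV : ∀ s, Complex.exp (g s) = V (x s) := by
    intro s
    simp only [hg]
    rw [Complex.exp_add, ← hLQ, Complex.exp_sum, hQ (x s)]
    congr 1
    simp only [hW]
    refine Finset.prod_congr rfl fun i _ => ?_
    rw [Complex.exp_add, Complex.exp_log (Complex.slitPlane_ne_zero (C3_log_add (hki i s)))]
    have h1 : Complex.exp ((Real.log ρ : ℂ) + Complex.I * s) = x s := rfl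
    rw [h1, mul_add, mul_one, mul_neg, mul_div_cancel₀ _ (hx0 s)]
    ring
  have hgper : g (0 + 2 * Real.pi) = g 0 + m * (2 * Real.pi * Complex.I) := by
    simp only [hg]
    rw [hxper 0]
    have h1 : ∑ i : Fin m, ((Real.log ρ : ℂ) + Complex.I * ((0 + 2 * Real.pi : ℝ) : ℂ) +
        Complex.log (1 + -(k i / x 0))) = ∑ i : Fin m, (((Real.log ρ : ℂ) + Complex.I * ((0 : ℝ) : ℂ) +
        Complex.log (1 + -(k i / x 0))) + 2 * Real.pi * Complex.I) := by
      refine Finset.sum_congr rfl fun i _ => ?_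
      push_cast
      ring
    rw [h1, Finset.sum_add_distrib, Finset.sum_const, Finset.card_univ, Fintype.card_fin,
      nsmul_eq_mul]
    ring
  -- second logarithm
  have hcx : ∀ s, (starRingEnd ℂ) (x s) = Complex.exp ((Real.log ρ : ℂ) - Complex.I * s) :=
    fun s => C3_x_conj s
  have hbx : ∀ s, b * (starRingEnd ℂ) (x s) ≠ 0 := by
    intro s
    rw [hcx]
    exact mul_ne_zero hb (Complex.exp_ne_zero _)
  have hbxn : ∀ s, ‖b * (starRingEnd ℂ) (x s)‖ = ‖b‖ * ρ := by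
    intro s
    rw [norm_mul, RCLike.norm_conj, hxn]
  have hu : ∀ s, ‖(V (x s) - b * (starRingEnd ℂ) (x s)) / (b * (starRingEnd ℂ) (x s))‖ < 1 := by
    intro s
    rw [norm_div, hbxn, div_lt_one (by positivity)]
    have h1 := hC (x s) (by rw [hxn]; exact hρR)
    have h2 : V (x s) - b * (starRingEnd ℂ) (x s) =
        (V (x s) - (a * x s + b * (starRingEnd ℂ) (x s))) + a * x s := by ring
    rw [h2]
    refine (norm_add_le _ _).trans_lt ?_
    rw [norm_mul, hxn]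
    linarith
  set g' : ℝ → ℂ := fun s => Complex.log b + ((Real.log ρ : ℂ) - Complex.I * s) +
    Complex.log (1 + (V (x s) - b * (starRingEnd ℂ) (x s)) / (b * (starRingEnd ℂ) (x s))) with hg'
  have hcc : Continuous fun s => b * (starRingEnd ℂ) (x s) :=
    continuous_const.mul (Complex.continuous_conj.comp hxc)
  have hgc' : Continuous g' := by
    refine Continuous.add (by fun_prop) ?_
    refine Continuous.clog ?_ fun s => C3_log_add (hu s)
    exact continuous_const.add (((F.cont.comp hxc).sub hcc).div hcc hbx)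
  have hgV' : ∀ s, Complex.exp (g' s) = V (x s) := by
    intro s
    simp only [hg']
    rw [Complex.exp_add, Complex.exp_add, Complex.exp_log hb, ← hcx,
      Complex.exp_log (Complex.slitPlane_ne_zero (C3_log_add (hu s))), mul_add, mul_one,
      mul_div_cancel₀ _ (hbx s)]
    ring
  have hgper' : g' (0 + 2 * Real.pi) = g' 0 - 2 * Real.pi * Complex.I := by
    simp only [hg']
    rw [hxper 0]
    push_cast
    ring
  have hfin := lg_const hgc hgc' (fun s => by rw [hgV, hgV']) (0 + 2 * Real.pi) 0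
  rw [hgper, hgper'] at hfin
  have h1 : ((m : ℂ) + 1) * (2 * Real.pi * Complex.I) = 0 := by linear_combination hfin
  have h2 : (2 * Real.pi * Complex.I : ℂ) ≠ 0 := Complex.two_pi_I_ne_zero
  have h3 : (m : ℂ) + 1 = 0 := (mul_eq_zero.1 h1).resolve_right h2
  exact Nat.cast_add_one_ne_zero m h3


end TOR

end S_H57_TOR_C3

section S_H57_TOR_LB

/-!
LB (a basis of the lattice).  Elementary proof.  `l 1 = 0`, `l g⁻¹ = - l g`, `l (g ^ n) = n l g` (`n : ℤ`).  By `coc` there is `g` with `l g ≠ 0` (otherwise every `x` would have `‖x‖ ≤ R`).  Let `e₁` be a nontrivial element with the smallest `‖l e₁‖ > 0` (`fin`).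
By `coc` for `x = y I l e₁`, `y` real and large, there is `g` with `Im (l g / l e₁) ≠ 0`.  Multiplying by a power of `e₁` we may assume `|Re (l g / l e₁)| ≤ 1`; so by `fin` there is an element `e₂` with `|Re (l e₂ / l e₁)| ≤ 1` and the smallest positive `|Im (l e₂ / l e₁)|`
among all elements with `|Re| ≤ 1`, hence among all elements with `Im ≠ 0`.  Let `g` be arbitrary, `b = round` or `⌊Im (l g / l e₁) / Im (l e₂ / l e₁)⌋`, `g' = g * e₂ ^ (-b)`: `|Im (l g' / l e₁)| < |Im (l e₂ / l e₁)|`, so it is `0` by minimality.  `t = l g' / l e₁` is real, `a = ⌊t⌋`, `g'' = g' * e₁ ^ (-a)`: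
`‖l g''‖ = (t - a) ‖l e₁‖ < ‖l e₁‖`, so `l g'' = 0` by minimality of `e₁`, and `l g = a l e₁ + b l e₂`.
(Alternative: `IsZLattice`, `ZLattice.rank`, `Basis.ofZLatticeBasis` of Mathlib.)
-/

namespace TOR

open Metric Set Filter Topology DS

theorem LB_zpow {Γ : Type} [Group Γ] {l : Γ → ℂ} (L : Lat l) (g : Γ) (n : ℤ) :
    l (g ^ n) = n * l g := by
  let φ : Γ →* Multiplicative ℂ := MonoidHom.mk' (fun g => Multiplicative.ofAdd (l g)) (by
    intro a b
    rw [L.mul, ofAdd_add])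
  have h : φ (g ^ n) = φ g ^ n := map_zpow φ g n
  have h2 : Multiplicative.ofAdd (l (g ^ n)) = Multiplicative.ofAdd (l g) ^ n := h
  rw [← ofAdd_zsmul] at h2
  have h3 := Multiplicative.ofAdd.injective h2
  rw [h3, zsmul_eq_mul]

theorem LB_mulz {Γ : Type} [Group Γ] {l : Γ → ℂ} (L : Lat l) (g h : Γ) (n : ℤ) :
    l (g * h ^ (-n)) = l g - n * l h := by
  rw [L.mul, LB_zpow L]
  push_cast
  ring

theorem LB_min {Γ : Type} (S : Set Γ) (f : Γ → ℝ) (g : Γ) (hg : g ∈ S)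
    (hf : {a | a ∈ S ∧ f a ≤ f g}.Finite) : ∃ a ∈ S, ∀ b ∈ S, f a ≤ f b := by
  obtain ⟨a, ha, hm⟩ := Set.exists_min_image _ f hf ⟨g, hg, le_rfl⟩
  refine ⟨a, ha.1, fun b hb => ?_⟩
  by_cases h : f b ≤ f g
  · exact hm b ⟨hb, h⟩
  · exact ha.2.trans (le_of_lt (not_le.1 h))

theorem la_bas {Γ : Type} [Group Γ] {l : Γ → ℂ} (L : Lat l) : ∃ e₁ e₂, Bas l e₁ e₂ := by
  obtain ⟨R, hR⟩ := L.coc
  -- a nontrivial element
  obtain ⟨g0, hg0⟩ : ∃ g, l g ≠ 0 := by
    by_contra hcon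
    push Not at hcon
    obtain ⟨g, hg⟩ := hR ((|R| + 1 : ℝ) : ℂ)
    rw [hcon g, add_zero, Complex.norm_real, Real.norm_eq_abs] at hg
    have h1 := le_abs_self (|R| + 1)
    have h2 := le_abs_self R
    linarith
  obtain ⟨e₁, he1, hmin1⟩ := LB_min {g | l g ≠ 0} (fun g => ‖l g‖) g0 hg0
    ((L.fin ‖l g0‖).subset (fun a ha => ha.2))
  simp only [Set.mem_setOf_eq] at he1 hmin1
  have hpos : 0 < ‖l e₁‖ := norm_pos_iff.2 he1
  -- an element outside of the line
  obtain ⟨g1, hg1⟩ : ∃ g, (l g / l e₁).im ≠ 0 := by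
    by_contra hcon
    push Not at hcon
    obtain ⟨g, hg⟩ := hR (((|R| / ‖l e₁‖ + 1 : ℝ) : ℂ) * Complex.I * l e₁)
    have h1 : (((|R| / ‖l e₁‖ + 1 : ℝ) : ℂ) * Complex.I * l e₁ + l g) / l e₁
        = ((|R| / ‖l e₁‖ + 1 : ℝ) : ℂ) * Complex.I + l g / l e₁ := by
      field_simp
    have h2 : ((((|R| / ‖l e₁‖ + 1 : ℝ) : ℂ) * Complex.I * l e₁ + l g) / l e₁).im
        = |R| / ‖l e₁‖ + 1 := by
      rw [h1, Complex.add_im, hcon g]
      simp
    have h3 := Complex.abs_im_le_norm ((((|R| / ‖l e₁‖ + 1 : ℝ) : ℂ) * Complex.I * l e₁ + l g) / l e₁)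
    rw [h2, norm_div] at h3
    have h4 := le_abs_self (|R| / ‖l e₁‖ + 1)
    have h5 : ‖((|R| / ‖l e₁‖ + 1 : ℝ) : ℂ) * Complex.I * l e₁ + l g‖ / ‖l e₁‖ ≤ |R| / ‖l e₁‖ :=
      div_le_div_of_nonneg_right (hg.trans (le_abs_self R)) hpos.le
    linarith
  have hred : ∀ g, ∃ g', |(l g' / l e₁).re| ≤ 1 ∧ (l g' / l e₁).im = (l g / l e₁).im := by
    intro g
    refine ⟨g * e₁ ^ (-⌊(l g / l e₁).re⌋), ?_, ?_⟩
    · rw [LB_mulz L, sub_div, mul_div_assoc, div_self he1, mul_one, Complex.sub_re, Complex.intCast_re]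
      rw [abs_le]
      have h1 := Int.floor_le (l g / l e₁).re
      have h2 := Int.lt_floor_add_one (l g / l e₁).re
      constructor <;> linarith
    · rw [LB_mulz L, sub_div, mul_div_assoc, div_self he1, mul_one, Complex.sub_im, Complex.intCast_im, sub_zero]
  obtain ⟨g2, hg2, hg2'⟩ := hred g1
  obtain ⟨e₂, he2, hmin2⟩ := LB_min {g | |(l g / l e₁).re| ≤ 1 ∧ (l g / l e₁).im ≠ 0}
    (fun g => |(l g / l e₁).im|) g2 ⟨hg2, by rw [hg2']; exact hg1⟩
    ((L.fin ((1 + |(l g2 / l e₁).im|) * ‖l e₁‖)).subset (fun a ha => by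
      have h1 : |(l a / l e₁).re| ≤ 1 := ha.1.1
      have h2 : |(l a / l e₁).im| ≤ |(l g2 / l e₁).im| := ha.2
      have h3 := Complex.norm_le_abs_re_add_abs_im (l a / l e₁)
      rw [norm_div, div_le_iff₀ hpos] at h3
      refine h3.trans (mul_le_mul_of_nonneg_right (by linarith) hpos.le)))
  simp only [Set.mem_setOf_eq] at he2 hmin2
  have hmin3 : ∀ g, (l g / l e₁).im ≠ 0 → |(l e₂ / l e₁).im| ≤ |(l g / l e₁).im| := by
    intro g hg
    obtain ⟨g', h1, h2⟩ := hred g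
    rw [← h2]
    exact hmin2 g' ⟨h1, by rw [h2]; exact hg⟩
  refine ⟨e₁, e₂, he1, he2.2, fun g => ?_⟩
  set τ : ℂ := l e₂ / l e₁ with hτ
  have hτ0 : τ.im ≠ 0 := he2.2
  have hl2 : l e₂ = τ * l e₁ := by rw [hτ]; field_simp
  set b : ℤ := ⌊(l g / l e₁).im / τ.im⌋ with hb
  set g' : Γ := g * e₂ ^ (-b) with hg'
  have hlg' : l g' = l g - b * l e₂ := LB_mulz L g e₂ b
  have hq : l g' / l e₁ = l g / l e₁ - b * τ := by
    rw [hlg', hl2]
    field_simp
  have him : (l g' / l e₁).im = 0 := by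
    by_contra hne
    have h1 := hmin3 g' hne
    have h2 : (l g' / l e₁).im = ((l g / l e₁).im / τ.im - b) * τ.im := by
      rw [hq, Complex.sub_im]
      have : ((b : ℂ) * τ).im = b * τ.im := by simp
      rw [this]
      field_simp
    rw [h2, abs_mul] at h1
    have h3 := Int.floor_le ((l g / l e₁).im / τ.im)
    have h4 := Int.lt_floor_add_one ((l g / l e₁).im / τ.im)
    have h5 : |(l g / l e₁).im / τ.im - b| < 1 := by
      rw [abs_of_nonneg (by rw [hb]; linarith)]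
      rw [hb]; linarith
    have h6 : 0 < |τ.im| := abs_pos.2 hτ0
    nlinarith
  set a : ℤ := ⌊(l g' / l e₁).re⌋ with ha
  have hfin : l (g' * e₁ ^ (-a)) = l g' - a * l e₁ := LB_mulz L g' e₁ a
  have hz : l (g' * e₁ ^ (-a)) = 0 := by
    by_contra hne
    have h1 := hmin1 _ hne
    rw [hfin] at h1
    have h2 : l g' - a * l e₁ = (l g' / l e₁ - a) * l e₁ := by field_simp
    rw [h2, norm_mul] at h1
    have h3 : l g' / l e₁ - a = (((l g' / l e₁).re - a : ℝ) : ℂ) := by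
      apply Complex.ext
      · simp
      · simp [him]
    rw [h3, Complex.norm_real, Real.norm_eq_abs] at h1
    have h4 := Int.floor_le (l g' / l e₁).re
    have h5 := Int.lt_floor_add_one (l g' / l e₁).re
    have h6 : |(l g' / l e₁).re - a| < 1 := by
      rw [abs_of_nonneg (by rw [ha]; linarith)]
      rw [ha]; linarith
    nlinarith
  refine ⟨a, b, ?_⟩
  rw [hz] at hfin
  rw [hlg'] at hfin
  linear_combination (-1 : ℂ) * hfin

end TOR

end S_H57_TOR_LB
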