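import Pool.Agent.H12.KS.K11
import Pool.Agent.H12.KS.K12
import Pool.Agent.H12.KS.K18
import Pool.Agent.H12.KS.K28
import Pool.Agent.H12.KS.K30
import Pool.Agent.H12.KS.K40
import Pool.Agent.H12.KS.K41
import Pool.Agent.H12.KS.K42
import Pool.Agent.H12.KS.K45
import Pool.Agent.H12.KS.K48
import Pool.Agent.H12.KS.K51

/-! Joined modules of the proof of MP_8a27c0_an (one section per module). -/

section S_H12_CV_B14

/-!
B14 (the torus, (2.3) of the note; block of helper57).  Proof: Pool/Agent/H57/TOR.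
-/

namespace CV

open Metric Set Filter Topology Function DS TN

variable {S : Type} [MetricSpace S] [CompactSpace S] {X : Set ℂ} {Γ : Type} [Group Γ]
  {A : Γ → ℂ → ℂ} {p : ℂ → S} {g gi : S → S} {G Gi : ℂ → ℂ} {θ : Γ ≃* Γ} {ρ : ℂ → ℝ}
  {Hyp : S → Prop} {U : Set ℂ} {N : Subgroup Γ}

theorem case_torus (D : Deck X A p) (L : Lift X A p g gi G Gi θ ρ) (C : Cond X A p g gi G Hyp)
    (M : Dom X A p g G U N) (hW : fil X U = univ) (hper : ∃ x ∈ X, p x ∈ periodicPts g) :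
    False :=
  TOR.case_torus' D L C M hW hper

end CV

end S_H12_CV_B14

section S_H12_CV_B5

/-!
B4, B5 (extension to the closed disc; no fixed points outside the limit set; blocks of helper36).  Proofs: Pool/Agent/H36/DG.
-/

namespace CV

open Metric Set Filter Topology Function DS TN

variable {S : Type} [MetricSpace S] [CompactSpace S] {X : Set ℂ} {Γ : Type} [Group Γ]
  {A : Γ → ℂ → ℂ} {p : ℂ → S} {g gi : S → S} {G Gi : ℂ → ℂ} {θ : Γ ≃* Γ} {ρ : ℂ → ℝ}
  {Hyp : S → Prop} {U : Set ℂ} {N : Subgroup Γ} {ψ v : ℂ → ℂ} {F : Fuchs N}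

/-- B4: extension to the closed disc -/
theorem exists_lf (D : Deck X A p) (L : Lift X A p g gi G Gi θ ρ) (M : Dom X A p g G U N)
    (R : Riem (fil X U) ψ v) (hF : Act A ψ v F) {n : ℕ} (hn : 0 < n) (c : N) :
    ∃ e, Lf A G Gi θ ψ v F n c e :=
  exists_lf' D L M R hF hn c

/-- B5: no fixed point outside the limit set -/
theorem fixed_lim (D : Deck X A p) (L : Lift X A p g gi G Gi θ ρ) (C : Cond X A p g gi G Hyp)
    (M : Dom X A p g G U N) (R : Riem (fil X U) ψ v) (hF : Act A ψ v F)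
    (hI : F.Nonel → F.UC) {n : ℕ} (hn : 0 < n) {c : N} {e : Elt N}
    (he : Lf A G Gi θ ψ v F n c e) {ξ : ℂ} (hξ : ‖ξ‖ = 1) (hf : e.H ξ = ξ) : ξ ∈ F.lim :=
  fixed_lim' D L C M R hF hI hn he hξ hf

end CV

end S_H12_CV_B5

section S_H12_CV_HD

/-!
HD (holes).  `exists_holes`: `choose_islands` gives `m`, `Y`.  Let `Z = {d ∈ N | c θ^n(d) c⁻¹ = d}`: by `Lf.th` `d ∈ e.cen` iff `(d : Γ) ∈ Z`.  For `d ∈ Z`, `d ≠ 1`: `A d '' Y i` is disjoint from `Y i` (`island_free`; `d^n ≠ 1` by `TN.inf_order F`).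
So `separate` (with `W = fil X U`) gives `V i`.  `island_index` with `V i` and `H = A c ∘ G^n` gives `O i`, `k i` (`closure (O i) ⊆ V i`, compact as a closed subset of `closure (V i)`).  `transport` gives the holes `v '' O i`, `v (k i)` for `e.H` (`Lf.H`).
`Holes.disj`: `F.act d '' closure (v '' O i) = v '' (A d '' closure (O i))` (`Act`), `v` injective on `fil X U`.  `Holes.fix`: `z` in the disc, `e.H z = z`: `x = ψ z` satisfies `A c (G^n x) = x` (`v` injective), so `A d x ∈ Y i`, `d ∈ Z`, and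
`z = F.act d⁻¹ (F.act d z)`, `F.act d z = v (A d x) ∈ v '' O i`; `d⁻¹ ∈ e.cen`.  The same for `e.Hi` with the second form of `H` (`e.Hi z = z` iff `e.H z = z` in the disc; `Lf.Hi`).
`lf_comp`: `c'' = c * θ^n c'` is in `N` (`Dom.theta_mem`), `A c (G^n (A c' (G^n' x))) = A c'' (G^(n+n') x)` (`Lift.iter`), `v (ψ ..)` cancel; `Hi`: `Gi^n' (A c'⁻¹ (Gi^n (A c⁻¹ x))) = Gi^(n+n') (A c''⁻¹ x)` (`Lift.equi_inv`); `norm`: `Norm.comp`
(TN/FN); `th` by computation.  `lf_lmul`: `(d * c)`, `Norm.lmul`.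
`fam`: `ne`: `exists_lf` with `n = 1`, `c = 1`; `norm`; `comp`, `lmul`; `bd` = `fixed_lim`; `holes`, `holesi` from `exists_holes`.
-/

namespace CV

open Metric Set Filter Topology Function DS TN

variable {S : Type} [MetricSpace S] [CompactSpace S] {X : Set ℂ} {Γ : Type} [Group Γ]
  {A : Γ → ℂ → ℂ} {p : ℂ → S} {g gi : S → S} {G Gi : ℂ → ℂ} {θ : Γ ≃* Γ} {ρ : ℂ → ℝ}
  {Hyp : S → Prop} {U : Set ℂ} {N : Subgroup Γ} {ψ v : ℂ → ℂ} {F : Fuchs N}

theorem HD_cen {n : ℕ} {c : N} {e : Elt N} (he : Lf A G Gi θ ψ v F n c e) (d : N) :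
    d ∈ e.cen ↔ (c : Γ) * θ^[n] (d : Γ) * (c : Γ)⁻¹ = d := by
  have h : d ∈ e.cen ↔ e.θ d = d := Iff.rfl
  rw [h, ← he.th d]
  constructor
  · intro h1; rw [h1]
  · intro h1; exact Subtype.ext h1

theorem HD_sub {Y : Set ℂ} (hY : Island X U Y) : Y ⊆ fil X U := by
  obtain ⟨x, hx, rfl⟩ := hY.comp
  intro y hy
  have hyX : y ∈ X \ U := connectedComponentIn_subset _ _ hy
  refine ⟨hyX.1, Or.inr ?_⟩
  rw [← connectedComponentIn_eq hy]
  exact hY.cpt

/-- the holes for one of the two maps -/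
theorem HD_one (D : Deck X A p) (L : Lift X A p g gi G Gi θ ρ) (C : Cond X A p g gi G Hyp)
    (M : Dom X A p g G U N) (R : Riem (fil X U) ψ v) (hF : Act A ψ v F) {n : ℕ} (hn : 0 < n)
    {c : N} {m : ℕ} {Y : Fin m → Set ℂ} (hYI : ∀ i, Island X U (Y i))
    (hYH : ∀ i, (fun x => A c (G^[n] x)) '' Y i = Y i) {Z : Subgroup N} {V : Fin m → Set ℂ}
    (hV : ∀ i, IsOpen (V i) ∧ Y i ⊆ V i ∧ closure (V i) ⊆ fil X U ∧ IsCompact (closure (V i)))
    (hVd : ∀ i j, ∀ d ∈ Z, (d ≠ 1 ∨ i ≠ j) →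
      Disjoint (A (d : Γ) '' closure (V i)) (closure (V j)))
    (hYf : ∀ x ∈ fil X U, A c (G^[n] x) = x → ∃ d ∈ Z, ∃ i, A (d : Γ) x ∈ Y i)
    {H : ℂ → ℂ} (hH : (∀ x ∈ X, H x = A c (G^[n] x)) ∨ ∀ x ∈ X, H x = Gi^[n] (A (c : Γ)⁻¹ x))
    (hc : ContinuousOn H (fil X U)) (hm : MapsTo H (fil X U) (fil X U))
    (hfix : ∀ x ∈ fil X U, H x = x → A c (G^[n] x) = x) {e : ℂ → ℂ}
    (he : ∀ z ∈ ball (0:ℂ) 1, e z = v (H (ψ z))) :
    ∃ O k, Holes F e Z m O k ∧ ∀ i, v '' Y i ⊆ O i := by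
  have hW : IsOpen (fil X U) := fil_open D M
  have h1 : ∀ i, ∃ O : Set ℂ, ∃ k ∈ Y i, IsOpen O ∧ Y i ⊆ O ∧ closure O ⊆ V i ∧
      Bornology.IsBounded O ∧ HasLog (fun x => (H x - x) / (x - k)) (frontier O) := by
    intro i
    obtain ⟨O, k, hk, h2, h3, h4, h5, h6, -⟩ := island_index D L C M hn c (hYI i) (hYH i)
      (hV i).1 (hV i).2.1 hH
    exact ⟨O, k, hk, h2, h3, h4, h5, h6⟩
  choose O k hk hO hYO hOV hOb hOl using h1
  have hOW : ∀ i, closure (O i) ⊆ fil X U := fun i =>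
    (hOV i).trans (subset_closure.trans (hV i).2.2.1)
  have hOc : ∀ i, IsCompact (closure (O i)) := fun i =>
    Metric.isCompact_of_isClosed_isBounded isClosed_closure (hOb i).closure
  have hT := fun i => transport hW R hc hm (hO i) (hYO i (hk i)) (hOW i) (hOc i) (hOl i) he
  have hact : ∀ (d : N), ∀ x ∈ fil X U, F.act d (v x) = v (A (d : Γ) x) := by
    intro d x hx
    rw [hF d (v x) (R.mv hx), R.ψv x hx]
  have hinv : ∀ (d : N), ∀ x ∈ fil X U, A (d : Γ) x ∈ fil X U := by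
    intro d x hx
    rw [← fil_inv D M d.2]
    exact ⟨x, hx, rfl⟩
  refine ⟨fun i => v '' O i, fun i => v (k i), ⟨fun i => (hT i).1, fun i => (hT i).2.2.1,
    fun i => (hT i).2.2.2.1, ?_, ?_, fun i => (hT i).2.2.2.2⟩, fun i => image_mono (hYO i)⟩
  · intro i j d hd hij
    rw [(hT i).2.1, (hT j).2.1, disjoint_left]
    rintro _ ⟨_, ⟨x, hx, rfl⟩, rfl⟩ ⟨y, hy, hxy⟩
    rw [hact d x (hOW i hx)] at hxy
    have h2 : y = A (d : Γ) x := by
      rw [← R.ψv y (hOW j hy), hxy, R.ψv _ (hinv d x (hOW i hx))]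
    refine disjoint_left.1 (hVd i j d hd hij) ⟨x, subset_closure (hOV i hx), rfl⟩ ?_
    rw [← h2]
    exact subset_closure (hOV j hy)
  · intro z hz hez
    have hzW : ψ z ∈ fil X U := R.mψ hz
    have h2 : H (ψ z) = ψ z := by
      rw [he z hz] at hez
      rw [← R.ψv _ (hm hzW), hez]
    obtain ⟨d, hd, i, hi⟩ := hYf _ hzW (hfix _ hzW h2)
    have hz1 : ‖z‖ ≤ 1 := (mem_ball_zero_iff.1 hz).le
    refine ⟨d⁻¹, Z.inv_mem hd, i, F.act d z, ?_, act_inv_act F d hz1⟩
    rw [hF d z hz]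
    exact ⟨_, hYO i hi, rfl⟩

theorem exists_holes (D : Deck X A p) (L : Lift X A p g gi G Gi θ ρ) (C : Cond X A p g gi G Hyp)
    (M : Dom X A p g G U N) (R : Riem (fil X U) ψ v) (hF : Act A ψ v F) {n : ℕ} (hn : 0 < n)
    {c : N} {e : Elt N} (he : Lf A G Gi θ ψ v F n c e) :
    ∃ (m : ℕ) (Y : Fin m → Set ℂ), (∀ i, Island X U (Y i)) ∧
      (∀ i, (fun x => A c (G^[n] x)) '' Y i = Y i) ∧
      (∃ O k, Holes F e.H e.cen m O k ∧ ∀ i, v '' Y i ⊆ O i) ∧
      (∃ O k, Holes F e.Hi e.cen m O k ∧ ∀ i, v '' Y i ⊆ O i) ∧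
      ∀ x ∈ fil X U, A c (G^[n] x) = x → ∃ d ∈ e.cen, ∃ i, A (d : N) x ∈ Y i := by
  obtain ⟨m, Y, hYI, hYH, hYd, hYf⟩ := choose_islands D L C M hn c
  have hW : IsOpen (fil X U) := fil_open D M
  obtain ⟨i1, i2, i3, i4, i5, i6, -, -⟩ := L.iter n
  obtain ⟨V, hV, hVd⟩ := separate D hW fil_sub (fun i => (hYI i).cpt) (fun i => HD_sub (hYI i))
    (Z := {d | d ∈ N ∧ (c : Γ) * θ^[n] d * (c : Γ)⁻¹ = d}) (by
      rintro i j d ⟨hdN, hdc⟩ hij
      by_cases h : i = j
      · subst h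
        have hd1 : d ≠ 1 := by
          rcases hij with h | h
          · exact h
          · exact absurd rfl h
        refine island_free D L M (hYI i) hdN fun r hr h2 => ?_
        have h3 : (⟨d, hdN⟩ : N) ≠ 1 := fun h4 => hd1 (by
          have := congrArg Subtype.val h4
          simpa using this)
        exact inf_order F h3 hr.ne' (Subtype.ext (by simpa using h2))
      · exact hYd i j d hdN hdc h)
  have hVd' : ∀ i j, ∀ d ∈ e.cen, (d ≠ 1 ∨ i ≠ j) →
      Disjoint (A (d : N) '' closure (V i)) (closure (V j)) := by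
    intro i j d hd hij
    refine hVd i j d ⟨d.2, (HD_cen he d).1 hd⟩ ?_
    rcases hij with h | h
    · exact Or.inl fun h1 => h (Subtype.ext (by simpa using h1))
    · exact Or.inr h
  have hYf' : ∀ x ∈ fil X U, A c (G^[n] x) = x → ∃ d ∈ e.cen, ∃ i, A (d : N) x ∈ Y i := by
    intro x hx hfx
    obtain ⟨d, hdN, hdc, i, hi⟩ := hYf x hx hfx
    exact ⟨⟨d, hdN⟩, (HD_cen he _).2 hdc, i, hi⟩
  obtain ⟨f1, f2, -, -⟩ := fil_iter D L M n c.2
  refine ⟨m, Y, hYI, hYH, ?_, ?_, hYf'⟩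
  · refine HD_one D L C M R hF hn hYI hYH hV hVd' hYf' (H := fun x => A c (G^[n] x))
      (Or.inl fun x _ => rfl) ?_ ?_ (fun x _ h => h) he.H
    · exact ((D.cont c).comp i5.continuousOn i1).mono fil_sub
    · intro x hx
      rw [← f1]
      exact ⟨x, hx, rfl⟩
  · refine HD_one D L C M R hF hn hYI hYH hV hVd' hYf' (H := fun x => Gi^[n] (A (c : Γ)⁻¹ x))
      (Or.inr fun x _ => rfl) ?_ ?_ ?_ he.Hi
    · exact (i6.continuousOn.comp (D.cont (c : Γ)⁻¹) (D.maps (c : Γ)⁻¹)).mono fil_sub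
    · intro x hx
      rw [← f2]
      exact ⟨x, hx, rfl⟩
    · intro x hx hfx
      have hxX := fil_sub hx
      conv_lhs => rw [← hfx]
      rw [i4 _ (D.maps _ hxX), D.inv_right _ hxX]

end CV

end S_H12_CV_HD

section S_H12_CV_HE

/-!
HE: the family satisfies the hypotheses of Theorem N.  Proofs in the header of HD (`lf_comp`, `lf_lmul`, `fam`).
-/

namespace CV

open Metric Set Filter Topology Function DS TN

variable {S : Type} [MetricSpace S] [CompactSpace S] {X : Set ℂ} {Γ : Type} [Group Γ]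
  {A : Γ → ℂ → ℂ} {p : ℂ → S} {g gi : S → S} {G Gi : ℂ → ℂ} {θ : Γ ≃* Γ} {ρ : ℂ → ℝ}
  {Hyp : S → Prop} {U : Set ℂ} {N : Subgroup Γ} {ψ v : ℂ → ℂ} {F : Fuchs N}

omit [CompactSpace S] in
theorem CV_HE_mem (D : Deck X A p) (L : Lift X A p g gi G Gi θ ρ) (M : Dom X A p g G U N)
    (n : ℕ) {c : Γ} (hc : c ∈ N) : θ^[n] c ∈ N := by
  induction n with
  | zero => exact hc
  | succ n ih =>
    rw [iterate_succ_apply']
    exact (Dom.theta_mem D L M _).2 ih

omit [CompactSpace S] in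
theorem CV_HE_equi (D : Deck X A p) (L : Lift X A p g gi G Gi θ ρ) (n : ℕ) (d : Γ) {x : ℂ}
    (hx : x ∈ X) : Gi^[n] (A (θ^[n] d) x) = A d (Gi^[n] x) := by
  obtain ⟨i1, i2, i3, i4, -, -, i7, -⟩ := L.iter n
  have h1 := i7 d (Gi^[n] x) (i2 hx)
  rw [i4 x hx] at h1
  rw [← h1, i3 _ (D.maps d (i2 hx))]

omit [CompactSpace S] in
theorem CV_HE_map (D : Deck X A p) (L : Lift X A p g gi G Gi θ ρ) (M : Dom X A p g G U N)
    (n : ℕ) {c : Γ} (hc : c ∈ N) {x : ℂ} (hx : x ∈ fil X U) :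
    A c (G^[n] x) ∈ fil X U ∧ Gi^[n] (A c⁻¹ x) ∈ fil X U := by
  obtain ⟨h1, h2, -, -⟩ := fil_iter D L M n hc
  constructor
  · rw [← h1]; exact ⟨x, hx, rfl⟩
  · rw [← h2]; exact ⟨x, hx, rfl⟩

theorem lf_comp (D : Deck X A p) (L : Lift X A p g gi G Gi θ ρ) (M : Dom X A p g G U N)
    (R : Riem (fil X U) ψ v) (hF : Act A ψ v F) {n n' : ℕ} {c c' : N} {e e' : Elt N}
    (he : Lf A G Gi θ ψ v F n c e) (he' : Lf A G Gi θ ψ v F n' c' e') :
    ∃ c'', Lf A G Gi θ ψ v F (n + n') c'' (e.comp e') := by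
  refine ⟨⟨c * θ^[n] c', N.mul_mem c.2 (CV_HE_mem D L M n c'.2)⟩, he.norm.comp he'.norm, ?_, ?_, ?_⟩
  · intro z hz
    have hx : ψ z ∈ fil X U := R.mψ hz
    have hxX : ψ z ∈ X := fil_sub hx
    obtain ⟨j1, -, -, -, -, -, -, -⟩ := L.iter n'
    obtain ⟨i1, -, -, -, -, -, i7, -⟩ := L.iter n
    have hw := (CV_HE_map D L M n' c'.2 hx).1
    show e.H (e'.H z) = v (A ((c : Γ) * θ^[n] c') (G^[n + n'] (ψ z)))
    rw [he'.H z hz, he.H _ (R.mv hw), R.ψv _ hw, i7 _ _ (j1 hxX), ← D.mul _ _ _ (i1 (j1 hxX)),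
      iterate_add_apply]
  · intro z hz
    have hx : ψ z ∈ fil X U := R.mψ hz
    have hxX : ψ z ∈ X := fil_sub hx
    have hw := (CV_HE_map D L M n c.2 hx).2
    have hy : A (c : Γ)⁻¹ (ψ z) ∈ X := D.maps _ hxX
    show e'.Hi (e.Hi z) = v (Gi^[n + n'] (A ((c : Γ) * θ^[n] c')⁻¹ (ψ z)))
    rw [he.Hi z hz, he'.Hi _ (R.mv hw), R.ψv _ hw, mul_inv_rev, D.mul _ _ _ hxX,
      ← iterate_map_inv, add_comm n n', iterate_add_apply, CV_HE_equi D L n _ hy]
  · intro d
    show ((e.θ (e'.θ d) : N) : Γ) = (c : Γ) * θ^[n] c' * (θ^[n + n'] d) * ((c : Γ) * θ^[n] c')⁻¹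
    rw [he.th, he'.th, iterate_map_mul, iterate_map_mul, iterate_map_inv, iterate_add_apply]
    group

theorem lf_lmul (D : Deck X A p) (L : Lift X A p g gi G Gi θ ρ) (M : Dom X A p g G U N)
    (R : Riem (fil X U) ψ v) (hF : Act A ψ v F) {n : ℕ} {c : N} {e : Elt N}
    (he : Lf A G Gi θ ψ v F n c e) (d : N) :
    Lf A G Gi θ ψ v F n (d * c) (e.lmul F d) := by
  refine ⟨he.norm.lmul d, ?_, ?_, ?_⟩
  · intro z hz
    have hx : ψ z ∈ fil X U := R.mψ hz
    have hxX : ψ z ∈ X := fil_sub hx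
    obtain ⟨i1, -, -, -, -, -, -, -⟩ := L.iter n
    have hw := (CV_HE_map D L M n c.2 hx).1
    show F.act d (e.H z) = v (A ((d : Γ) * c) (G^[n] (ψ z)))
    rw [he.H z hz, hF d _ (R.mv hw), R.ψv _ hw, D.mul _ _ _ (i1 hxX)]
  · intro z hz
    have hx : ψ z ∈ fil X U := R.mψ hz
    have hxX : ψ z ∈ X := fil_sub hx
    have hw : A (d : Γ)⁻¹ (ψ z) ∈ fil X U := by
      have := (CV_HE_map D L M 0 d.2 hx).2
      exact this
    show e.Hi (F.act d⁻¹ z) = v (Gi^[n] (A ((d : Γ) * c)⁻¹ (ψ z)))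
    rw [hF d⁻¹ z hz, Subgroup.coe_inv, he.Hi _ (R.mv hw), R.ψv _ hw, mul_inv_rev, D.mul _ _ _ hxX]
  · intro a
    show ((d * e.θ a * d⁻¹ : N) : Γ) = (d : Γ) * c * (θ^[n] a) * ((d : Γ) * c)⁻¹
    rw [Subgroup.coe_mul, Subgroup.coe_mul, Subgroup.coe_inv, he.th]
    group

theorem fam (D : Deck X A p) (L : Lift X A p g gi G Gi θ ρ) (C : Cond X A p g gi G Hyp)
    (M : Dom X A p g G U N) (R : Riem (fil X U) ψ v) (hF : Act A ψ v F) (hI : F.Nonel → F.UC) :
    Fam F (FamH A G Gi θ ψ v F) where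
  ne := by
    obtain ⟨e, he⟩ := exists_lf D L M R hF one_pos (1 : N)
    exact ⟨e, 1, one_pos, 1, he⟩
  norm := by
    rintro e ⟨n, -, c, he⟩
    exact he.norm
  comp := by
    rintro e ⟨n, hn, c, he⟩ e' ⟨n', -, c', he'⟩
    obtain ⟨c'', h⟩ := lf_comp D L M R hF he he'
    exact ⟨n + n', by omega, c'', h⟩
  lmul := by
    rintro e ⟨n, hn, c, he⟩ d
    exact ⟨n, hn, d * c, lf_lmul D L M R hF he d⟩
  bd := by
    rintro e ⟨n, hn, c, he⟩ ξ hξ hf
    exact fixed_lim D L C M R hF hI hn he hξ hf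
  holes := by
    rintro e ⟨n, hn, c, he⟩
    obtain ⟨m, Y, -, -, ⟨O, k, h, -⟩, -, -⟩ := exists_holes D L C M R hF hn he
    exact ⟨m, O, k, h⟩
  holesi := by
    rintro e ⟨n, hn, c, he⟩
    obtain ⟨m, Y, -, -, -, ⟨O, k, h, -⟩, -⟩ := exists_holes D L C M R hF hn he
    exact ⟨m, O, k, h⟩

end CV

end S_H12_CV_HE

section S_H12_CV_CT

/-!
CT (trivial stabiliser, (2.1) of the note).  `W = fil X U`, all `c ∈ N` are `1`.
`triv_island`: `F.lim = ∅` (its points have norm one and are in the closure of `{F.act 1 0} = {0}`), so by `fixed_lim` no `e.H` (`Lf ... n 1 e`) has a fixed point on the circle.  For each `n ≥ 1` let `e_n` be given by `exists_lf` (with `c = 1`) and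
`m`, `Y` by `exists_holes`; `e_n.cen = ⊥` as `N` is trivial; `index0` gives `m + #A = 1` with `A = ∅` (a point of `A` would be a fixed point on the circle: `SA` contains `H ξ = ξ`), so `m = 1`: one island `Y_n` with `G^n '' Y_n = Y_n`
(`A 1 x = x`), containing all `x ∈ W` with `G^n x = x`.  By `DS.no_nonvanishing` (H36/DS/IE) applied to `e_1.H z - z` on the hole (index one) there is a zero `z` of `e_1.H z - z` in `closure (O 0)`, not on the frontier (the function has a logarithm there), so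
`x₀ = ψ z ∈ W` is fixed by `G`; `x₀ ∈ Y_1` and `x₀ ∈ Y_n` for all `n`, so `Y_n = Y_1` (`Island.basic`).  `Y₀ = Y_1`.
If `A c (G^n x) = x` with `x ∈ W`, `c : Γ`: `G^n x ∈ W` (`fil_iter`), so `c ∈ N` (`fil_same`), `c = 1`.
`minus_island`: `W \ Y₀` is homeomorphic to the annulus.  The disc is homeomorphic to the plane (`z ↦ z/(1 - ‖z‖)`), so there are `h : W → ℂ`, a homeomorphism onto `ℂ` (from `v`).  `K = h '' Y₀` is compact connected, `Kᶜ = h '' (W \ Y₀)` is connected: `W \ Y₀` is connected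
by Kuratowski (`DS.compl_component` with `S = W`, `V = U`, `K = Y₀`: maximality because `Y₀` is a component of `X \ U`).  `DS.plane_annulus`.
`case_triv`: `B = p '' (W \ Y₀)`; `p` is injective on `W` (`Deck.fib`, `fil_same`, `N` trivial), continuous and open: `B` is open and homeomorphic to `W \ Y₀`.  `g '' B = B` because `G '' W = W`, `G '' Y₀ = Y₀`.  No periodic point: `g^n (p x) = p x`, `x ∈ W \ Y₀`, `n ≥ 1`, gives
`A c (G^n x) = x`, so `x ∈ Y₀`.  `h4` with `n = 1`.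
-/

namespace CV

open Metric Set Filter Topology Function DS TN

variable {S : Type} [MetricSpace S] [CompactSpace S] {X : Set ℂ} {Γ : Type} [Group Γ]
  {A : Γ → ℂ → ℂ} {p : ℂ → S} {g gi : S → S} {G Gi : ℂ → ℂ} {θ : Γ ≃* Γ} {ρ : ℂ → ℝ}
  {Hyp : S → Prop} {U : Set ℂ} {N : Subgroup Γ} {ψ v : ℂ → ℂ} {F : Fuchs N}

theorem CV_CT_per (D : Deck X A p) (L : Lift X A p g gi G Gi θ ρ) (C : Cond X A p g gi G Hyp)
    (M : Dom X A p g G U N) (R : Riem (fil X U) ψ v) (hF : Act A ψ v F) (h : ∀ c : N, c = 1)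
    {n : ℕ} (hn : 0 < n) :
    ∃ Y, Island X U Y ∧ (fun x => G^[n] x) '' Y = Y ∧ (∃ x ∈ fil X U, G^[n] x = x) ∧
      ∀ x ∈ fil X U, G^[n] x = x → x ∈ Y := by
  have hsub : Subsingleton N := ⟨fun a b => (h a).trans (h b).symm⟩
  have hlim : ∀ ξ, ξ ∉ F.lim := by
    rintro ξ ⟨h1, h2⟩
    have h3 : range (fun g => F.act g 0) ⊆ {0} := by
      rintro _ ⟨c, rfl⟩
      rw [h c, mem_singleton_iff]
      exact F.one 0 (by simp)
    have h4 := closure_mono h3 h2
    rw [closure_singleton, mem_singleton_iff] at h4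
    rw [h4, norm_zero] at h1
    exact zero_ne_one h1
  have hI : F.Nonel → F.UC := by
    rintro ⟨a, b, ha, -, -⟩
    exact absurd (h a) ha
  have hAone : ∀ x ∈ X, A ((1 : N) : Γ) x = x := fun x hx => D.one x hx
  obtain ⟨e, he⟩ := exists_lf D L M R hF hn (1 : N)
  obtain ⟨m, Y, hY, hGY, ⟨O, k, hO, -⟩, -, hfix⟩ := exists_holes D L C M R hF hn he
  have hbd : ∀ ξ : ℂ, ‖ξ‖ = 1 → e.H ξ ≠ ξ := fun ξ hξ hf =>
    hlim ξ (fixed_lim D L C M R hF hI hn he hξ hf)
  have hcen : e.cen = ⊥ := Subgroup.eq_bot_of_subsingleton _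
  have hO' := hO
  rw [hcen] at hO'
  obtain ⟨B, hB, hm⟩ := index0 F he.norm hO' (fun ξ hξ hf => absurd hf (hbd ξ hξ))
  have hB0 : B = ∅ := by
    rw [Finset.eq_empty_iff_forall_notMem]
    intro ξ hξ
    obtain ⟨h1, h2⟩ := (hB ξ).1 hξ
    exact hbd ξ h1 h2.1
  rw [hB0, Finset.card_empty, add_zero] at hm
  subst hm
  have himg := (fil_iter D L M n (c := 1) N.one_mem).1
  refine ⟨Y 0, hY 0, ?_, ?_, ?_⟩
  · have h1 := hGY 0
    have h2 : Y 0 ⊆ X := fun x hx => ((hY 0).basic.2.1 hx).1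
    conv_rhs => rw [← h1]
    apply image_congr
    intro x hx
    exact (hAone _ ((L.iter n).1 (h2 hx))).symm
  · by_contra hno
    push Not at hno
    have hcl : closure (O 0) ⊆ ball 0 1 := hO.sub 0
    refine no_nonvanishing (hO.opn 0) ((isBounded_ball (x := (0:ℂ)) (r := 1)).subset
      (subset_closure.trans hcl)) (hO.mem 0) (f := fun z => e.H z - z) ?_ ?_ (hO.log 0)
    · exact (he.norm.cont.mono (hcl.trans ball_subset_closedBall)).sub continuousOn_id
    · intro z hz h0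
      have hz1 := hcl hz
      have h1 : e.H z = z := sub_eq_zero.1 h0
      rw [he.H z hz1] at h1
      have hw := R.mψ hz1
      have hw2 : A ((1 : N) : Γ) (G^[n] (ψ z)) ∈ fil X U := by
        rw [← himg]
        exact ⟨ψ z, hw, rfl⟩
      have h2 := congrArg ψ h1
      rw [R.ψv _ hw2] at h2
      refine hno (ψ z) hw ?_
      rw [hAone _ ((L.iter n).1 hw.1)] at h2
      exact h2
  · intro x hx hfx
    obtain ⟨d, -, i, hi⟩ := hfix x hx (by rw [hfx]; exact hAone x hx.1)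
    rw [h d, hAone x hx.1] at hi
    rwa [Subsingleton.elim i 0] at hi

theorem triv_island (D : Deck X A p) (L : Lift X A p g gi G Gi θ ρ) (C : Cond X A p g gi G Hyp)
    (M : Dom X A p g G U N) (R : Riem (fil X U) ψ v) (hF : Act A ψ v F) (h : ∀ c : N, c = 1) :
    ∃ Y₀, Island X U Y₀ ∧ G '' Y₀ = Y₀ ∧
      ∀ x ∈ fil X U, ∀ n, 0 < n → ∀ c, A c (G^[n] x) = x → x ∈ Y₀ := by
  obtain ⟨Y₀, hY₀, hGY, ⟨x₀, hx₀, hfx₀⟩, hall⟩ := CV_CT_per D L C M R hF h one_pos
  simp only [iterate_one] at hGY hfx₀ hall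
  have hx₀Y := hall x₀ hx₀ hfx₀
  refine ⟨Y₀, hY₀, hGY, ?_⟩
  intro x hx n hn c hc
  have h1 : G^[n] x ∈ fil X U := by
    have himg := (fil_iter D L M n (c := 1) N.one_mem).1
    rw [← himg]
    exact ⟨x, hx, D.one _ ((L.iter n).1 hx.1)⟩
  have h2 : c ∈ N := fil_same D M h1 (by rw [hc]; exact hx)
  have h3 : c = 1 := congrArg Subtype.val (h ⟨c, h2⟩)
  rw [h3, D.one _ h1.1] at hc
  obtain ⟨Y, hY, -, -, hall'⟩ := CV_CT_per D L C M R hF h hn
  have h4 : G^[n] x₀ = x₀ := iterate_fixed hfx₀ n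
  have h5 := hall' x₀ hx₀ h4
  have h6 := hY₀.basic.2.2.2 Y hY ⟨x₀, hx₀Y, h5⟩
  rw [h6]
  exact hall' x hx hc

theorem CV_CT_d1 {t : ℂ} (ht : ‖t‖ < 1) :
    (t / ((1 - ‖t‖ : ℝ) : ℂ)) / ((1 + ‖t / ((1 - ‖t‖ : ℝ) : ℂ)‖ : ℝ) : ℂ) = t := by
  have h1 : (0:ℝ) < 1 - ‖t‖ := by linarith
  have h2 : ‖t / ((1 - ‖t‖ : ℝ) : ℂ)‖ = ‖t‖ / (1 - ‖t‖) := by
    rw [norm_div, Complex.norm_real, Real.norm_eq_abs, abs_of_pos h1]
  have h3 : 1 + ‖t‖ / (1 - ‖t‖) = (1 - ‖t‖)⁻¹ := by field_simp; ring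
  rw [h2, h3, Complex.ofReal_inv, div_inv_eq_mul, div_mul_cancel₀]
  rw [Ne, Complex.ofReal_eq_zero]
  exact h1.ne'

theorem CV_CT_d2 (z : ℂ) : ‖z / ((1 + ‖z‖ : ℝ) : ℂ)‖ < 1 ∧
    (z / ((1 + ‖z‖ : ℝ) : ℂ)) / ((1 - ‖z / ((1 + ‖z‖ : ℝ) : ℂ)‖ : ℝ) : ℂ) = z := by
  have h1 : (0:ℝ) < 1 + ‖z‖ := by positivity
  have h2 : ‖z / ((1 + ‖z‖ : ℝ) : ℂ)‖ = ‖z‖ / (1 + ‖z‖) := by
    rw [norm_div, Complex.norm_real, Real.norm_eq_abs, abs_of_pos h1]
  have h3 : 1 - ‖z‖ / (1 + ‖z‖) = (1 + ‖z‖)⁻¹ := by field_simp; ring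
  constructor
  · rw [h2, div_lt_one h1]
    linarith
  · rw [h2, h3, Complex.ofReal_inv, div_inv_eq_mul, div_mul_cancel₀]
    rw [Ne, Complex.ofReal_eq_zero]
    exact h1.ne'

theorem minus_island (D : Deck X A p) (M : Dom X A p g G U N) (R : Riem (fil X U) ψ v)
    {Y₀ : Set ℂ} (hY : Island X U Y₀) :
    Nonempty ((fil X U \ Y₀ : Set ℂ) ≃ₜ {z : ℂ | 1 < ‖z‖ ∧ ‖z‖ < 2}) := by
  set W : Set ℂ := fil X U with hW
  obtain ⟨hYc, hYs, hYW, -⟩ := hY.basic
  set h : ℂ → ℂ := fun x => v x / ((1 - ‖v x‖ : ℝ) : ℂ) with hh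
  set hi : ℂ → ℂ := fun z => ψ (z / ((1 + ‖z‖ : ℝ) : ℂ)) with hhi
  have hv1 : ∀ x ∈ W, ‖v x‖ < 1 := fun x hx => mem_ball_zero_iff.1 (R.mv hx)
  have hhc : ContinuousOn h W := by
    refine R.dv.continuousOn.div (Complex.continuous_ofReal.comp_continuousOn
      (continuousOn_const.sub R.dv.continuousOn.norm)) fun x hx => ?_
    rw [Ne, Complex.ofReal_eq_zero]
    have := hv1 x hx
    linarith
  have hbm : ∀ z : ℂ, z / ((1 + ‖z‖ : ℝ) : ℂ) ∈ ball (0:ℂ) 1 := fun z =>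
    mem_ball_zero_iff.2 (CV_CT_d2 z).1
  have hhic : Continuous hi := by
    refine R.dψ.continuousOn.comp_continuous ?_ hbm
    refine continuous_id.div (Complex.continuous_ofReal.comp
      (continuous_const.add continuous_norm)) fun z => ?_
    rw [Ne, Complex.ofReal_eq_zero]
    have := norm_nonneg z
    positivity
  have hiW : ∀ z, hi z ∈ W := fun z => R.mψ (hbm z)
  have hih : ∀ x ∈ W, hi (h x) = x := by
    intro x hx
    simp only [hh, hhi]
    rw [CV_CT_d1 (hv1 x hx), R.ψv x hx]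
  have hhi' : ∀ z, h (hi z) = z := by
    intro z
    simp only [hh, hhi]
    rw [R.vψ _ (hbm z), (CV_CT_d2 z).2]
  have hKc : (h '' Y₀)ᶜ = h '' (W \ Y₀) := by
    ext z
    constructor
    · intro hz
      refine ⟨hi z, ⟨hiW z, fun hz' => hz ⟨hi z, hz', hhi' z⟩⟩, hhi' z⟩
    · rintro ⟨x, ⟨hx, hxY⟩, rfl⟩ ⟨y, hy, hyx⟩
      apply hxY
      rw [← hih x hx, ← hyx, hih y (hYW hy)]
      exact hy
  have hUW : U ⊆ W := sub_fil M.sub
  have hcon : IsConnected (W \ Y₀) := by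
    refine ⟨?_, ?_⟩
    · obtain ⟨x, hx⟩ := M.conn.nonempty
      exact ⟨x, hUW hx, fun hxY => (hYs hxY).2 hx⟩
    · refine compl_component (fil_conn D M).isPreconnected M.conn.isPreconnected M.conn.nonempty hUW
        hYc.isPreconnected (fun x hx => ⟨hYW hx, (hYs hx).2⟩) ?_
      intro C hC hCp hCY
      obtain ⟨x, -, hx⟩ := hY.comp
      rw [hx] at hCY ⊢
      exact auxTB_max x C (fun y hy => ⟨(hC hy).1.1, (hC hy).2⟩) hCp hCY
  have hann := plane_annulus (hY.cpt.image_of_continuousOn (hhc.mono hYW))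
    (hYc.image h (hhc.mono hYW)) (by
      rw [hKc]
      exact hcon.image h (hhc.mono sdiff_subset))
  obtain ⟨Φ⟩ := hann
  refine ⟨Homeomorph.trans ?_ Φ⟩
  refine
    { toFun := fun x => ⟨h x, by rw [hKc]; exact ⟨x, x.2, rfl⟩⟩
      invFun := fun z => ⟨hi z, hiW z, fun hz => z.2 ⟨hi z, hz, hhi' z⟩⟩
      left_inv := fun x => Subtype.ext (hih x x.2.1)
      right_inv := fun z => Subtype.ext (hhi' z)
      continuous_toFun := ?_
      continuous_invFun := ?_ }
  · refine Continuous.subtype_mk ?_ _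
    exact (hhc.mono sdiff_subset).comp_continuous continuous_subtype_val fun x => x.2
  · exact (hhic.comp continuous_subtype_val).subtype_mk _

theorem case_triv (D : Deck X A p) (L : Lift X A p g gi G Gi θ ρ) (C : Cond X A p g gi G Hyp)
    (M : Dom X A p g G U N) (R : Riem (fil X U) ψ v) (hF : Act A ψ v F)
    (h : ∀ c : N, c = 1) (h4 : NoAnn g) : False := by
  obtain ⟨Y₀, hY, hGY, hall⟩ := triv_island D L C M R hF h
  obtain ⟨Φ⟩ := minus_island D M R hY
  obtain ⟨hYc, hYs, hYW, -⟩ := hY.basic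
  have hWo := fil_open D M
  have hVo : IsOpen (fil X U \ Y₀) := hWo.sdiff hY.cpt.isClosed
  have hVX : fil X U \ Y₀ ⊆ X := fun x hx => hx.1.1
  have hGW := fil_G D L M
  have hinj : InjOn p (fil X U) := by
    intro x hx y hy hxy
    obtain ⟨c, hc⟩ := (D.fib x hx.1 y hy.1).1 hxy
    have h2 : c ∈ N := fil_same D M hx (by rw [hc]; exact hy)
    have h3 : c = 1 := congrArg Subtype.val (h ⟨c, h2⟩)
    rw [h3, D.one x hx.1] at hc
    exact hc
  have hGinj : InjOn G X := by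
    intro x hx y hy hxy
    rw [← L.GiG x hx, hxy, L.GiG y hy]
  refine h4 1 one_pos (p '' (fil X U \ Y₀)) ⟨D.pop _ hVX hVo, ?_, ?_, ?_⟩
  · rw [iterate_one]
    have hGV : G '' (fil X U \ Y₀) = fil X U \ Y₀ := by
      ext y
      constructor
      · rintro ⟨x, ⟨hx, hxY⟩, rfl⟩
        refine ⟨by rw [← hGW]; exact ⟨x, hx, rfl⟩, fun hy => hxY ?_⟩
        rw [← hGY] at hy
        obtain ⟨x', hx', he⟩ := hy
        rw [← hGinj (hYW hx').1 hx.1 he]
        exact hx'
      · rintro ⟨hy, hyY⟩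
        rw [← hGW] at hy
        obtain ⟨x, hx, rfl⟩ := hy
        exact ⟨x, ⟨hx, fun hxY => hyY (by rw [← hGY]; exact ⟨x, hxY, rfl⟩)⟩, rfl⟩
    conv_rhs => rw [← hGV]
    rw [image_image, image_image]
    apply image_congr
    intro x hx
    exact (L.lift x hx.1.1).symm
  · let f : (fil X U \ Y₀ : Set ℂ) → S := fun x => p x
    have hfc : Continuous f := (D.pc.mono hVX).comp_continuous continuous_subtype_val fun x => x.2
    have hfi : Function.Injective f := fun x y hxy => Subtype.ext (hinj x.2.1 y.2.1 hxy)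
    have hfo : IsOpenMap f := by
      intro O hO
      have h1 : f '' O = p '' (Subtype.val '' O) := by rw [image_image]
      rw [h1]
      refine D.pop _ ?_ (hVo.isOpenMap_subtype_val O hO)
      rintro _ ⟨x, -, rfl⟩
      exact hVX x.2
    have hfe := Topology.IsOpenEmbedding.of_continuous_injective_isOpenMap hfc hfi hfo
    have hr : range f = p '' (fil X U \ Y₀) := by
      ext s
      constructor
      · rintro ⟨x, rfl⟩
        exact ⟨x, x.2, rfl⟩
      · rintro ⟨x, hx, rfl⟩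
        exact ⟨⟨x, hx⟩, rfl⟩
    exact ⟨((Homeomorph.setCongr hr.symm).trans hfe.isEmbedding.toHomeomorph.symm).trans Φ⟩
  · rintro P ⟨x, ⟨hx, hxY⟩, rfl⟩ ⟨n, hn, hper⟩
    apply hxY
    have h1 : p (G^[n] x) = p x := by
      rw [(L.iter n).2.2.2.2.2.2.2 x hx.1]
      exact hper
    obtain ⟨c, hc⟩ := (D.fib _ ((L.iter n).1 hx.1) x hx.1).1 h1
    exact hall x hx n hn c hc

end CV

end S_H12_CV_CT

section S_H12_CV_CC

/-!
CC (cyclic stabiliser, (2.2) of the note).  `W = fil X U`, `N = zpowers κ`, `AR κ P Q`.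
`cyc_lim`: points of `F.lim`: norm one and limits of `F.act (κ^j) 0`, `j ∈ ℤ`; each of these has norm `< 1`, so `|j| → ∞` along a subsequence and the limit is `P` or `Q` (`AR.att`, `AR.inv`).
`cyc_free`: let `n` be even, `c ∈ N`, `x ∈ W`, `A c (G^n x) = x`.  Let `e` be given by `exists_lf`.  `e.θ` is conjugation by `c` composed with `θ^n` restricted to the infinite cyclic group `N`; `θ` maps `N` onto `N` (`theta_mem`), so `θ κ = κ^(±1)` (generator to generator; `κ` has infinite order,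
`TN.pow_inj`), `θ^n κ = κ`, and `N` is commutative: `e.θ κ = κ`.  So `e.cen = N = ⊤ = zpowers κ`.  Fixed points of `e.H` on the circle are in `F.lim`, so they are `P` or `Q`.  `index1` for the holes of `exists_holes` gives `m = 0`; but the last
statement of `exists_holes` for the fixed point `x` gives an element of `Fin m`: contradiction.
`annulus_quot`: `l > 0` with `om (act κ z) = om z + l` (CP); `E₀ z = exp (2 π i (om z) / l)` maps the disc onto the annulus `exp (-2 π²/l) < ‖w‖ < 1`; `E₀ z = E₀ z'` iff `om z' = om z + k l`, `k ∈ ℤ`, iff `z' = act (κ^k) z`.  `E₀` is continuous and open (nonconstant holomorphic, or: `om` is a homeomorphism of the disc onto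
the open strip and `exp` is open).  Compose with the radial homeomorphism `w ↦ (w/‖w‖) (1 + (‖w‖ - a)/(1 - a))`, `a = exp (-2 π²/l)`.
`case_cyc`: `B = p '' W` is open.  The maps `z ↦ p (ψ z)` (disc onto `B`) and `E` (disc onto the annulus) are continuous, open and have the same fibres (`p (ψ z) = p (ψ z')` iff `ψ z' = A c (ψ z)`, `c ∈ N` (`fib`, `fil_same`), iff `z' = F.act c z`), so `B` is homeomorphic to the annulus.
`g^2 '' B = B` (`G '' W = W`).  No periodic point: `g^n (p x) = p x`, `x ∈ W`, implies `g^(2n) (p x) = p x`, `A c (G^(2n) x) = x` for some `c`, `c ∈ N` (`fil_same`): contradiction to `cyc_free`.  `h4` with `n = 1` or `2`.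
-/

namespace CV

open Metric Set Filter Topology Function DS TN

theorem cyc_lim {Γ : Type} [Group Γ] (F : Fuchs Γ) {κ : Γ} {P Q : ℂ} (hκ : F.AR κ P Q)
    (h : ∀ c : Γ, c ∈ Subgroup.zpowers κ) {ξ : ℂ} (hξ : ξ ∈ F.lim) : ξ = P ∨ ξ = Q := by
  have h0 : (0:ℂ) ∈ closedBall (0:ℂ) 1 := by simp
  have hz : ∀ R : ℂ, ‖R‖ = 1 → (0:ℂ) ≠ R := by
    rintro R hR rfl
    rw [norm_zero] at hR
    exact zero_ne_one hR
  have h1 := (hκ.att 0 h0 (hz Q hκ.nq)).isCompact_insert_range.isClosed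
  have hκ' := AR.inv hκ
  have h2 := (hκ'.att 0 h0 (hz P hκ.np)).isCompact_insert_range.isClosed
  have h3 : (range fun g => F.act g 0) ⊆ insert P (range fun n : ℕ => F.act (κ ^ n) 0) ∪
      insert Q (range fun n : ℕ => F.act (κ⁻¹ ^ n) 0) := by
    rintro _ ⟨g, rfl⟩
    obtain ⟨k, hk⟩ := Subgroup.mem_zpowers_iff.1 (h g)
    rcases Int.eq_nat_or_neg k with ⟨n, rfl | rfl⟩
    · left
      right
      exact ⟨n, by simp only; rw [← hk, zpow_natCast]⟩
    · right
      right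
      exact ⟨n, by simp only; rw [← hk, zpow_neg, zpow_natCast, inv_pow]⟩
  have h4 := closure_minimal h3 (h1.union h2) hξ.2
  have hlt : ∀ g : Γ, ξ ≠ F.act g 0 := by
    intro g hg
    have h5 := act_lt F g (x := 0) (by simp)
    rw [← hg, hξ.1] at h5
    exact lt_irrefl _ h5
  rcases h4 with (h4 | ⟨n, hn⟩) | (h4 | ⟨n, hn⟩)
  · exact Or.inl h4
  · exact absurd hn.symm (hlt _)
  · exact Or.inr h4
  · exact absurd hn.symm (hlt _)

private theorem CC_re (a b : ℝ) : ((a : ℂ) + (b : ℂ) * Complex.I).re = a := by simp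

private theorem CC_im (a b : ℝ) : ((a : ℂ) + (b : ℂ) * Complex.I).im = b := by simp

/-- the inverse of the coordinate change of the strip -/
private noncomputable def CC_S (l : ℝ) (ζ : ℂ) : ℂ :=
  ((l / (2 * Real.pi) * ζ.im : ℝ) : ℂ) + ((Real.pi * (Real.exp ζ.re - 1) : ℝ) : ℂ) * Complex.I

/-- coordinate change of the strip -/
private noncomputable def CC_T (l : ℝ) (ω : ℂ) : ℂ :=
  ((Real.log (1 + ω.im / Real.pi) : ℝ) : ℂ) + ((2 * Real.pi / l * ω.re : ℝ) : ℂ) * Complex.I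

private theorem CC_S_cont (l : ℝ) : Continuous (CC_S l) := by
  unfold CC_S
  have h1 : Continuous fun ζ : ℂ => l / (2 * Real.pi) * ζ.im :=
    continuous_const.mul Complex.continuous_im
  have h2 : Continuous fun ζ : ℂ => Real.pi * (Real.exp ζ.re - 1) :=
    continuous_const.mul ((Real.continuous_exp.comp Complex.continuous_re).sub continuous_const)
  exact (Complex.continuous_ofReal.comp h1).add ((Complex.continuous_ofReal.comp h2).mul
    continuous_const)

private theorem CC_ST {l : ℝ} (hl : 0 < l) {ω : ℂ} (hω : 0 < ω.im) : CC_S l (CC_T l ω) = ω := by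
  have hpi := Real.pi_pos
  have h1 : (CC_T l ω).re = Real.log (1 + ω.im / Real.pi) := CC_re _ _
  have h2 : (CC_T l ω).im = 2 * Real.pi / l * ω.re := CC_im _ _
  unfold CC_S
  rw [h1, h2, Real.exp_log (by positivity)]
  have h3 : l / (2 * Real.pi) * (2 * Real.pi / l * ω.re) = ω.re := by field_simp
  have h4 : Real.pi * (1 + ω.im / Real.pi - 1) = ω.im := by field_simp; ring
  rw [h3, h4]
  exact Complex.re_add_im ω

private theorem CC_TS {l : ℝ} (hl : 0 < l) (ζ : ℂ) : CC_T l (CC_S l ζ) = ζ := by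
  have hpi := Real.pi_pos
  have h1 : (CC_S l ζ).re = l / (2 * Real.pi) * ζ.im := CC_re _ _
  have h2 : (CC_S l ζ).im = Real.pi * (Real.exp ζ.re - 1) := CC_im _ _
  unfold CC_T
  rw [h1, h2]
  have h3 : 1 + Real.pi * (Real.exp ζ.re - 1) / Real.pi = Real.exp ζ.re := by field_simp; ring
  have h4 : 2 * Real.pi / l * (l / (2 * Real.pi) * ζ.im) = ζ.im := by field_simp
  rw [h3, h4, Real.log_exp]
  exact Complex.re_add_im ζ

theorem annulus_quot {Γ : Type} [Group Γ] (F : Fuchs Γ) {κ : Γ} {P Q : ℂ} (hκ : F.AR κ P Q) :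
    ∃ E : ℂ → ℂ, ContinuousOn E (ball 0 1) ∧ E '' ball 0 1 = {z : ℂ | 1 < ‖z‖ ∧ ‖z‖ < 2} ∧
      (∀ O ⊆ ball (0:ℂ) 1, IsOpen O → IsOpen (E '' O)) ∧
      ∀ z ∈ ball (0:ℂ) 1, ∀ z' ∈ ball (0:ℂ) 1, E z = E z' ↔ ∃ k : ℤ, F.act (κ ^ k) z = z' := by
  have hpi := Real.pi_pos
  have hP := hκ.np
  have hQ := hκ.nq
  have hPQ := hκ.ne
  obtain ⟨l, hl, hact⟩ := om_act hκ
  have hB : ∀ z ∈ ball (0:ℂ) 1, z ∈ Dpq P Q := fun z hz => CP_ball_Dpq hP hQ hz
  have hstr : ∀ z ∈ ball (0:ℂ) 1, 0 < (om P Q z).im ∧ (om P Q z).im < Real.pi := fun z hz =>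
    om_im_pos hP hQ hPQ (by simpa using hz)
  have hzp := (om_act_zpow hκ (l := l) (fun x hx => (hact x (hB x hx)).2)).2
  have hTn : ∀ z ∈ ball (0:ℂ) 1, ‖Complex.exp (CC_T l (om P Q z))‖ = 1 + (om P Q z).im / Real.pi := by
    intro z hz
    have h1 := (hstr z hz).1
    rw [Complex.norm_exp]
    have h2 : (CC_T l (om P Q z)).re = Real.log (1 + (om P Q z).im / Real.pi) := CC_re _ _
    rw [h2, Real.exp_log (by positivity)]
  have homopen : ∀ O ⊆ ball (0:ℂ) 1, IsOpen O → IsOpen (om P Q '' O) := by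
    intro O hO hOo
    have h1 : IsOpen {ω : ℂ | 0 < ω.im ∧ ω.im < Real.pi} :=
      (isOpen_lt continuous_const Complex.continuous_im).inter
        (isOpen_lt Complex.continuous_im continuous_const)
    have h2 : ContinuousOn (omi P Q) {ω : ℂ | 0 < ω.im ∧ ω.im < Real.pi} :=
      (omi_cont hP hQ hPQ).mono fun ω hω => ⟨hω.1.le, hω.2.le⟩
    have h3 : om P Q '' O = {ω : ℂ | 0 < ω.im ∧ ω.im < Real.pi} ∩ omi P Q ⁻¹' O := by
      ext ω
      constructor
      · rintro ⟨z, hz, rfl⟩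
        refine ⟨hstr z (hO hz), ?_⟩
        rw [mem_preimage, omi_om hP hQ hPQ (hB z (hO hz))]
        exact hz
      · rintro ⟨h4, h5⟩
        exact ⟨omi P Q ω, h5, om_omi hP hQ hPQ ⟨h4.1.le, h4.2.le⟩⟩
    rw [h3]
    exact h2.isOpen_inter_preimage h1 hOo
  refine ⟨fun z => Complex.exp (CC_T l (om P Q z)), ?_, ?_, ?_, ?_⟩
  · refine Complex.continuous_exp.comp_continuousOn ?_
    have h1 : ContinuousOn (om P Q) (ball 0 1) := (om_cont hP hQ hPQ).mono hB
    have h2 : ContinuousOn (fun z => Real.log (1 + (om P Q z).im / Real.pi)) (ball 0 1) := by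
      refine ContinuousOn.log (continuousOn_const.add
        ((Complex.continuous_im.comp_continuousOn h1).div_const _)) ?_
      intro z hz
      have h3 := (hstr z hz).1
      positivity
    have h3 : ContinuousOn (fun z => 2 * Real.pi / l * (om P Q z).re) (ball 0 1) :=
      continuousOn_const.mul (Complex.continuous_re.comp_continuousOn h1)
    exact (Complex.continuous_ofReal.comp_continuousOn h2).add
      ((Complex.continuous_ofReal.comp_continuousOn h3).mul continuousOn_const)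
  · ext w
    constructor
    · rintro ⟨z, hz, rfl⟩
      have h1 := hstr z hz
      have h2 : 0 < (om P Q z).im / Real.pi := div_pos h1.1 hpi
      have h3 : (om P Q z).im / Real.pi < 1 := (div_lt_one hpi).2 h1.2
      simp only [mem_ofPred_eq]
      rw [hTn z hz]
      constructor <;> linarith
    · rintro ⟨h1, h2⟩
      have hw : w ≠ 0 := by
        rintro rfl
        rw [norm_zero] at h1
        linarith
      set ζ := Complex.log w with hζ
      have h3 : Real.exp ζ.re = ‖w‖ := by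
        rw [hζ, Complex.log_re, Real.exp_log (by linarith)]
      have h4 : (CC_S l ζ).im = Real.pi * (‖w‖ - 1) := by
        rw [← h3]
        exact CC_im _ _
      have h5 : 0 < (CC_S l ζ).im := by
        rw [h4]
        exact mul_pos hpi (by linarith)
      have h6 : (CC_S l ζ).im < Real.pi := by
        rw [h4]
        nlinarith
      refine ⟨omi P Q (CC_S l ζ), ?_, ?_⟩
      · rw [mem_ball_zero_iff]
        exact omi_ball hP hQ hPQ h5 h6
      · simp only
        rw [om_omi hP hQ hPQ ⟨h5.le, h6.le⟩, CC_TS hl, hζ, Complex.exp_log hw]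
  · intro O hO hOo
    have h1 : (fun z => Complex.exp (CC_T l (om P Q z))) '' O =
        Complex.exp '' (CC_S l ⁻¹' (om P Q '' O)) := by
      ext w
      constructor
      · rintro ⟨z, hz, rfl⟩
        refine ⟨CC_T l (om P Q z), ?_, rfl⟩
        rw [mem_preimage, CC_ST hl (hstr z (hO hz)).1]
        exact ⟨z, hz, rfl⟩
      · rintro ⟨ζ, ⟨z, hz, hz2⟩, rfl⟩
        refine ⟨z, hz, ?_⟩
        simp only
        rw [hz2, CC_TS hl]
    rw [h1]
    exact Complex.isOpenMap_exp _ ((homopen O hO hOo).preimage (CC_S_cont l))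
  · intro z hz z' hz'
    have h1 := (hstr z hz).1
    have h2 := (hstr z' hz').1
    have hre : ∀ ω : ℂ, (CC_T l ω).re = Real.log (1 + ω.im / Real.pi) := fun ω => CC_re _ _
    have him : ∀ ω : ℂ, (CC_T l ω).im = 2 * Real.pi / l * ω.re := fun ω => CC_im _ _
    simp only
    rw [Complex.exp_eq_exp_iff_exists_int]
    have hnm : ∀ n : ℤ, (n * (2 * Real.pi * Complex.I) : ℂ).re = 0 := by
      intro n
      have h3 : (n * (2 * Real.pi * Complex.I) : ℂ) = ((n * (2 * Real.pi) : ℝ) : ℂ) * Complex.I := by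
        push_cast
        ring
      rw [h3]
      simp
    have hnm2 : ∀ n : ℤ, (n * (2 * Real.pi * Complex.I) : ℂ).im = n * (2 * Real.pi) := by
      intro n
      have h3 : (n * (2 * Real.pi * Complex.I) : ℂ) =
          ((0 : ℝ) : ℂ) + ((n * (2 * Real.pi) : ℝ) : ℂ) * Complex.I := by
        push_cast
        ring
      rw [h3]
      exact CC_im _ _
    constructor
    · rintro ⟨n, hn⟩
      have h3 := congrArg Complex.re hn
      have h4 := congrArg Complex.im hn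
      rw [Complex.add_re, hnm, hre, hre, add_zero] at h3
      rw [Complex.add_im, hnm2, him, him] at h4
      have h5 : (om P Q z).im = (om P Q z').im := by
        have h6 := Real.log_injOn_pos (show 0 < 1 + (om P Q z).im / Real.pi by positivity)
          (show 0 < 1 + (om P Q z').im / Real.pi by positivity) h3
        field_simp at h6
        linarith
      have h7 : (om P Q z).re = (om P Q z').re + n * l := by
        field_simp at h4
        linarith
      refine ⟨-n, ?_⟩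
      obtain ⟨q1, q2⟩ := hzp (-n) z (hB z hz)
      rw [← omi_om hP hQ hPQ q1, ← omi_om hP hQ hPQ (hB z' hz'), q2]
      congr 1
      apply Complex.ext
      · push_cast
        simp only [Complex.add_re, Complex.mul_re, Complex.neg_re, Complex.intCast_re,
          Complex.ofReal_re, Complex.neg_im, Complex.intCast_im, Complex.ofReal_im]
        rw [h7]
        ring
      · simp [h5]
    · rintro ⟨k, hk⟩
      obtain ⟨q1, q2⟩ := hzp k z (hB z hz)
      rw [hk] at q2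
      refine ⟨-k, ?_⟩
      apply Complex.ext
      · rw [Complex.add_re, hnm, hre, hre, add_zero, q2]
        simp
      · rw [Complex.add_im, hnm2, him, him, q2]
        simp only [Complex.add_re, Complex.mul_re, Complex.intCast_re,
          Complex.ofReal_re, Complex.intCast_im, Complex.ofReal_im]
        push_cast
        field_simp
        ring

/-- two open quotients with the same fibres are homeomorphic -/
private theorem CC_homeo {Y1 Y2 : Type} [TopologicalSpace Y1] [TopologicalSpace Y2]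
    {f1 : ℂ → Y1} {f2 : ℂ → Y2} {B : Set ℂ} (hB : IsOpen B) (hc1 : ContinuousOn f1 B)
    (hc2 : ContinuousOn f2 B) (ho1 : ∀ O ⊆ B, IsOpen O → IsOpen (f1 '' O))
    (ho2 : ∀ O ⊆ B, IsOpen O → IsOpen (f2 '' O))
    (hf : ∀ z ∈ B, ∀ z' ∈ B, f1 z = f1 z' ↔ f2 z = f2 z') : Nonempty (f1 '' B ≃ₜ f2 '' B) := by
  have key : ∀ {Y : Type} [TopologicalSpace Y] {f : ℂ → Y}, ContinuousOn f B →
      (∀ O ⊆ B, IsOpen O → IsOpen (f '' O)) →
      ∃ Φ : C(B, f '' B), (∀ z, (Φ z : Y) = f z) ∧ IsQuotientMap Φ := by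
    intro Y _ f hc ho
    refine ⟨⟨fun z : B => (⟨f z, mem_image_of_mem f z.2⟩ : f '' B),
      Continuous.subtype_mk (continuousOn_iff_continuous_domRestrict.1 hc) _⟩, fun _ => rfl, ?_⟩
    refine IsOpenMap.isQuotientMap ?_ ?_ ?_
    · intro V hV
      obtain ⟨O, hO, rfl⟩ := isOpen_induced_iff.1 hV
      refine isOpen_induced_iff.2 ⟨f '' (B ∩ O), ho _ inter_subset_left (hB.inter hO), ?_⟩
      ext ⟨y, hy⟩
      constructor
      · rintro ⟨z, hz, hzy⟩
        exact ⟨⟨z, hz.1⟩, hz.2, Subtype.ext hzy⟩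
      · rintro ⟨z, hz, hzy⟩
        exact ⟨z, ⟨z.2, hz⟩, congrArg Subtype.val hzy⟩
    · exact Continuous.subtype_mk (continuousOn_iff_continuous_domRestrict.1 hc) _
    · rintro ⟨y, z, hz, rfl⟩
      exact ⟨⟨z, hz⟩, rfl⟩
  obtain ⟨Φ1, e1, q1⟩ := key hc1 ho1
  obtain ⟨Φ2, e2, q2⟩ := key hc2 ho2
  have hk : Setoid.ker Φ1 = Setoid.ker Φ2 := by
    ext z z'
    rw [Setoid.ker_def, Setoid.ker_def, ← Subtype.coe_inj, ← Subtype.coe_inj, e1, e1, e2, e2]
    exact hf z z.2 z' z'.2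
  have h1 := q1.homeomorph
  rw [hk] at h1
  exact ⟨h1.symm.trans q2.homeomorph⟩

variable {S : Type} [MetricSpace S] [CompactSpace S] {X : Set ℂ} {Γ : Type} [Group Γ]
  {A : Γ → ℂ → ℂ} {p : ℂ → S} {g gi : S → S} {G Gi : ℂ → ℂ} {θ : Γ ≃* Γ} {ρ : ℂ → ℝ}
  {Hyp : S → Prop} {U : Set ℂ} {N : Subgroup Γ} {ψ v : ℂ → ℂ} {F : Fuchs N}

omit [CompactSpace S] in
/-- an automorphism which preserves an infinite cyclic subgroup squares to the identity there -/
private theorem CC_theta (D : Deck X A p) (L : Lift X A p g gi G Gi θ ρ)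
    (M : Dom X A p g G U N) {κ : N} {P Q : ℂ} (hκ : F.AR κ P Q)
    (h : ∀ c : N, c ∈ Subgroup.zpowers κ) {n : ℕ} (h2 : Even n) : θ^[n] (κ : Γ) = κ := by
  have hmem := Dom.theta_mem D L M
  obtain ⟨a, ha⟩ := Subgroup.mem_zpowers_iff.1 (h ⟨θ κ, (hmem κ).2 κ.2⟩)
  have ha' : (κ : Γ) ^ a = θ κ := congrArg Subtype.val ha
  have hs : θ.symm (κ : Γ) ∈ N := by
    rw [← hmem, MulEquiv.apply_symm_apply]
    exact κ.2
  obtain ⟨b, hb⟩ := Subgroup.mem_zpowers_iff.1 (h ⟨θ.symm κ, hs⟩)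
  have hb' : (κ : Γ) ^ b = θ.symm κ := congrArg Subtype.val hb
  have h3 : (κ : Γ) ^ (a * b) = (κ : Γ) ^ (1 : ℤ) := by
    rw [zpow_mul, ha', ← map_zpow, hb', MulEquiv.apply_symm_apply, zpow_one]
  have h4 : κ ^ (a * b) = κ ^ (1 : ℤ) := Subtype.ext (by
    rw [Subgroup.coe_zpow, Subgroup.coe_zpow]
    exact h3)
  have h5 : a * b = 1 := pow_inj F (AR.ne_one hκ) h4
  have h6 : a * a = 1 := by
    rcases Int.mul_eq_one_iff_eq_one_or_neg_one.1 h5 with ⟨h, _⟩ | ⟨h, _⟩ <;> rw [h] <;> norm_num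
  have h7 : θ (θ (κ : Γ)) = κ := by
    rw [← ha', map_zpow, ← ha', ← zpow_mul, h6, zpow_one]
  obtain ⟨m, rfl⟩ := h2
  have h8 : ∀ m : ℕ, θ^[m + m] (κ : Γ) = κ := by
    intro m
    induction m with
    | zero => rfl
    | succ m ih =>
      have : m + 1 + (m + 1) = (m + m) + 1 + 1 := by ring
      rw [this, iterate_succ_apply', iterate_succ_apply', ih, h7]
  exact h8 m

theorem cyc_free (D : Deck X A p) (L : Lift X A p g gi G Gi θ ρ) (C : Cond X A p g gi G Hyp)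
    (M : Dom X A p g G U N) (R : Riem (fil X U) ψ v) (hF : Act A ψ v F) {κ : N} {P Q : ℂ}
    (hκ : F.AR κ P Q) (h : ∀ c : N, c ∈ Subgroup.zpowers κ) {n : ℕ} (hn : 0 < n) (h2 : Even n)
    {c : Γ} {x : ℂ} (hx : x ∈ fil X U) : A c (G^[n] x) ≠ x := by
  intro hfx
  have hGx : G^[n] x ∈ fil X U := by
    have h3 := (fil_iter D L M n N.one_mem).1
    have h4 : A 1 (G^[n] x) ∈ fil X U := h3 ▸ mem_image_of_mem _ hx
    rwa [D.one _ ((Lift.iter L n).1 hx.1)] at h4
  have hc : c ∈ N := fil_same D M hGx (by rw [hfx]; exact hx)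
  obtain ⟨e, he⟩ := exists_lf D L M R hF hn ⟨c, hc⟩
  obtain ⟨m, Y, _, _, ⟨O, k, ho, _⟩, _, hfix⟩ := exists_holes D L C M R hF hn he
  have hθ := CC_theta D L M hκ h h2
  have heκ : e.θ κ = κ := by
    apply Subtype.ext
    rw [he.th, hθ]
    obtain ⟨j, hj⟩ := Subgroup.mem_zpowers_iff.1 (h ⟨c, hc⟩)
    have hj' : (κ : Γ) ^ j = c := congrArg Subtype.val hj
    simp only
    rw [← hj', ((Commute.refl (κ : Γ)).zpow_left j).eq, mul_inv_cancel_right]
  have hcen : e.cen = Subgroup.zpowers κ := by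
    ext d
    refine ⟨fun _ => h d, fun hd => ?_⟩
    obtain ⟨j, rfl⟩ := Subgroup.mem_zpowers_iff.1 hd
    show e.θ (κ ^ j) = κ ^ j
    rw [map_zpow, heκ]
  rw [hcen] at ho
  have hnon : F.Nonel → F.UC := by
    rintro ⟨a, b, _, _, hab⟩
    exfalso
    have hP : ∀ a : N, F.act a P = P := by
      intro a
      obtain ⟨j, rfl⟩ := Subgroup.mem_zpowers_iff.1 (h a)
      have hnat : ∀ (κ : N), F.act κ P = P → ∀ i : ℕ, F.act (κ ^ i) P = P := by
        intro κ hκ0 i
        induction i with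
        | zero => rw [pow_zero, act_one F hκ.np.le]
        | succ i ih => rw [pow_succ, act_mul F _ _ hκ.np.le, hκ0, ih]
      rcases Int.eq_nat_or_neg j with ⟨i, rfl | rfl⟩
      · rw [zpow_natCast]
        exact hnat κ hκ.fp i
      · rw [zpow_neg, zpow_natCast, ← inv_pow]
        exact hnat κ⁻¹ (AR.inv hκ).fq i
    exact hab P hκ.np (hP a) (hP b)
  have hm := (index1 F he.norm hκ heκ ho (fun ξ hξ h3 h4 h5 => by
    rcases cyc_lim F hκ h (fixed_lim D L C M R hF hnon hn he hξ h5) with h6 | h6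
    · exact absurd h6 h3
    · exact absurd h6 h4)).1
  subst hm
  obtain ⟨_, _, i, _⟩ := hfix x hx hfx
  exact i.elim0

theorem case_cyc (D : Deck X A p) (L : Lift X A p g gi G Gi θ ρ) (C : Cond X A p g gi G Hyp)
    (M : Dom X A p g G U N) (R : Riem (fil X U) ψ v) (hF : Act A ψ v F) {κ : N} {P Q : ℂ}
    (hκ : F.AR κ P Q) (h : ∀ c : N, c ∈ Subgroup.zpowers κ) (h4 : NoAnn g) : False := by
  obtain ⟨E, hEc, hEi, hEo, hEf⟩ := annulus_quot F hκ
  have hWo := fil_open D M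
  have hWX : fil X U ⊆ X := fil_sub
  have hψi : ψ '' ball 0 1 = fil X U := by
    ext w
    constructor
    · rintro ⟨z, hz, rfl⟩
      exact R.mψ hz
    · intro hw
      exact ⟨v w, R.mv hw, R.ψv w hw⟩
  have hψo : ∀ O ⊆ ball (0:ℂ) 1, IsOpen O → IsOpen (ψ '' O) := by
    intro O hO hOo
    have h1 : ψ '' O = fil X U ∩ v ⁻¹' O := by
      ext w
      constructor
      · rintro ⟨z, hz, rfl⟩
        refine ⟨R.mψ (hO hz), ?_⟩
        rw [mem_preimage, R.vψ z (hO hz)]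
        exact hz
      · rintro ⟨hw, hw2⟩
        exact ⟨v w, hw2, R.ψv w hw⟩
    rw [h1]
    exact R.dv.continuousOn.isOpen_inter_preimage hWo hOo
  have hi : (fun z => p (ψ z)) '' ball 0 1 = p '' fil X U := by
    rw [← hψi, image_image]
  have hfib : ∀ z ∈ ball (0:ℂ) 1, ∀ z' ∈ ball (0:ℂ) 1, p (ψ z) = p (ψ z') ↔ E z = E z' := by
    intro z hz z' hz'
    rw [hEf z hz z' hz', D.fib _ (hWX (R.mψ hz)) _ (hWX (R.mψ hz'))]
    constructor
    · rintro ⟨c, hc⟩
      have hcN : c ∈ N := fil_same D M (R.mψ hz) (by rw [hc]; exact R.mψ hz')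
      obtain ⟨k, hk⟩ := Subgroup.mem_zpowers_iff.1 (h ⟨c, hcN⟩)
      refine ⟨k, ?_⟩
      rw [hk, hF ⟨c, hcN⟩ z hz]
      simp only
      rw [hc, R.vψ z' hz']
    · rintro ⟨k, hk⟩
      refine ⟨((κ ^ k : N) : Γ), ?_⟩
      rw [hF (κ ^ k) z hz] at hk
      have hW : A ((κ ^ k : N) : Γ) (ψ z) ∈ fil X U := by
        rw [← fil_inv D M (κ ^ k : N).2]
        exact mem_image_of_mem _ (R.mψ hz)
      rw [← R.ψv _ hW, hk]
  have hhom : Nonempty ((fun z => p (ψ z)) '' ball 0 1 ≃ₜ E '' ball 0 1) := by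
    refine CC_homeo isOpen_ball ?_ hEc ?_ hEo hfib
    · exact D.pc.comp R.dψ.continuousOn fun z hz => hWX (R.mψ hz)
    · intro O hO hOo
      have h1 : (fun z => p (ψ z)) '' O = p '' (ψ '' O) := by rw [image_image]
      rw [h1]
      refine D.pop _ ?_ (hψo O hO hOo)
      rintro _ ⟨z, hz, rfl⟩
      exact hWX (R.mψ (hO hz))
  rw [hi, hEi] at hhom
  refine h4 1 one_pos (p '' fil X U) ⟨D.pop _ hWX hWo, ?_, hhom, ?_⟩
  · have h1 : p '' (G '' fil X U) = g '' (p '' fil X U) := by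
      rw [image_image, image_image]
      exact image_congr fun x hx => L.lift x (hWX hx)
    rw [iterate_one, ← h1, fil_G D L M]
  · rintro _ ⟨x, hx, rfl⟩ hper
    obtain ⟨n, hn, hnp⟩ := mem_periodicPts.1 hper
    have h1 : g^[2 * n] (p x) = p x := (hnp.const_mul 2)
    rw [← (Lift.iter L (2 * n)).2.2.2.2.2.2.2 x (hWX hx)] at h1
    obtain ⟨c, hc⟩ := (D.fib _ ((Lift.iter L (2 * n)).1 (hWX hx)) _ (hWX hx)).1 h1
    exact cyc_free D L C M R hF hκ h (by omega) (even_two_mul n) hx hc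

end CV

end S_H12_CV_CC

section S_H12_CV_Blocks

/-!
Final assembly of the covering part: blocks B1 B2 (fil), RM FU (Riemann map, group), B5 (helper36), B6 (helper36), HD HE (holes, family), CT CC EG, B8 (helper70), B14 (helper57).
-/

namespace CV

open Metric Set Filter Topology Function DS TN

section
variable {S : Type} [MetricSpace S] [CompactSpace S] {X : Set ℂ} {Γ : Type} [Group Γ]
  {A : Γ → ℂ → ℂ} {p : ℂ → S} {g gi : S → S} {G Gi : ℂ → ℂ} {θ : Γ ≃* Γ} {ρ : ℂ → ℝ}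
  {Hyp : S → Prop} {U : Set ℂ} {N : Subgroup Γ} {ψ v : ℂ → ℂ} {F : Fuchs N}

/-- the assembly -/
theorem core (D : Deck X A p) (L : Lift X A p g gi G Gi θ ρ) (C : Cond X A p g gi G Hyp)
    (M : Dom X A p g G U N) (h4 : NoAnn g) (hper : ∃ x ∈ X, p x ∈ periodicPts g) : False := by
  by_cases hW : fil X U = univ
  · exact case_torus D L C M hW hper
  obtain ⟨ψ, v, R⟩ := exists_riem D M hW
  obtain ⟨F, hF⟩ := exists_fuchs D M R
  rcases elem F with h | ⟨κ, P, Q, hκ, h⟩ | hN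
  · exact case_triv D L C M R hF h h4
  · exact case_cyc D L C M R hF hκ h h4
  · rcases D.hX with ⟨hX, -⟩ | ⟨hX, -⟩
    · exact flat_elem D hX hN
    · have hU : F.UC := nonel_uc D hX M R hF hN
      refine no_family F hN hU (fam D L C M R hF fun _ => hU) ?_
      by_cases hWX : fil X U = X
      · left
        obtain ⟨x, hx, hpx⟩ := hper
        obtain ⟨n, hn, hpn⟩ := hpx
        have h1 : p (G^[n] x) = g^[n] (p x) := by
          clear hpn hn
          induction n with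
          | zero => rfl
          | succ n ih =>
            have hmem : G^[n] x ∈ X := by
              clear ih
              induction n with
              | zero => exact hx
              | succ n ih => rw [iterate_succ_apply']; exact L.mG ih
            rw [iterate_succ_apply', iterate_succ_apply', L.lift _ hmem, ih]
        have hGx : G^[n] x ∈ X := by
          clear h1 hpn hn
          induction n with
          | zero => exact hx
          | succ n ih => rw [iterate_succ_apply']; exact L.mG ih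
        have h2 : p (G^[n] x) = p x := h1.trans hpn
        obtain ⟨c, hc⟩ := (D.fib _ hGx _ hx).1 h2
        have hcN : c ∈ N := by
          by_contra hcN
          have h3 := fil_disj D M hcN
          rw [hWX] at h3
          exact disjoint_left.1 h3 ⟨_, hGx, hc⟩ hx
        obtain ⟨e, he⟩ := exists_lf D L M R hF hn ⟨c, hcN⟩
        have hx' : x ∈ fil X U := by rw [hWX]; exact hx
        refine ⟨e, ⟨n, hn, _, he⟩, v x, R.mv hx', ?_⟩
        rw [he.H _ (R.mv hx'), R.ψv _ hx']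
        exact congrArg v hc
      · exact Or.inr (exists_gap D M R hF hU hWX)

end

end CV

end S_H12_CV_Blocks
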