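import Pool.Agent.H12.FIN.Defs
import Pool.Agent.H12.KS.K21
import Pool.Agent.H36.DS.Surf

/-! Joined modules of the proof of MP_8a27c0_an (one section per module). -/

section S_H12_FIN_Tr

/-!
Transport of the statement from surfaces with an atlas with values in `ℂ` to surfaces with an atlas with values in
the Euclidean plane.
-/

namespace StableSets

open Metric Set Filter Topology Function
open scoped Manifold ContDiff

/-- the linear identification of `ℂ` with the Euclidean plane -/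
noncomputable def eL : ℂ ≃L[ℝ] DS.Surf.E2 :=
  Complex.orthonormalBasisOneI.repr.toContinuousLinearEquiv

/-- as a chart -/
noncomputable def eH : OpenPartialHomeomorph ℂ DS.Surf.E2 :=
  eL.toHomeomorph.toOpenPartialHomeomorph

theorem eH_source : eH.source = univ := rfl
theorem eH_target : eH.target = univ := rfl
theorem eH_coe : (eH : ℂ → DS.Surf.E2) = eL := rfl
theorem eH_symm_coe : (eH.symm : DS.Surf.E2 → ℂ) = eL.symm := rfl

section
variable {S : Type} [MetricSpace S] [ChartedSpace ℂ S]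

/-- the atlas with values in the Euclidean plane -/
@[reducible] noncomputable def cs2 (S : Type) [MetricSpace S] [ChartedSpace ℂ S] :
    ChartedSpace DS.Surf.E2 S where
  atlas := (fun c : OpenPartialHomeomorph S ℂ => c ≫ₕ eH) '' atlas ℂ S
  chartAt x := chartAt ℂ x ≫ₕ eH
  mem_chart_source x := by
    rw [OpenPartialHomeomorph.trans_source, eH_source, preimage_univ, inter_univ]
    exact mem_chart_source ℂ x
  chart_mem_atlas x := mem_image_of_mem _ (chart_mem_atlas ℂ x)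

theorem man2 [IsManifold 𝓘(ℝ, ℂ) ∞ S] : @IsManifold ℝ _ DS.Surf.E2 _ _ DS.Surf.E2 _ (𝓡 2) ∞ S _
    (cs2 S) := by
  letI := cs2 S
  refine isManifold_of_contDiffOn (𝓡 2) ∞ S ?_
  rintro _ _ ⟨c, hc, rfl⟩ ⟨c', hc', rfl⟩
  have h1 := (contDiffGroupoid ∞ 𝓘(ℝ, ℂ)).compatible hc hc'
  rw [contDiffGroupoid, mem_groupoid_of_pregroupoid] at h1
  have h2 := h1.1
  simp only [contDiffPregroupoid, modelWithCornersSelf_coe, modelWithCornersSelf_coe_symm,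
    CompTriple.comp_eq, preimage_id_eq, id_eq, range_id, inter_univ] at h2 ⊢
  have h3 : ContDiffOn ℝ ∞ (fun y => eL ((c.symm ≫ₕ c') (eL.symm y)))
      ((c ≫ₕ eH).symm ≫ₕ c' ≫ₕ eH).source := by
    refine eL.contDiff.comp_contDiffOn (h2.comp eL.symm.contDiff.contDiffOn ?_)
    intro y hy
    rw [OpenPartialHomeomorph.trans_source] at hy
    obtain ⟨hy1, hy2⟩ := hy
    rw [OpenPartialHomeomorph.trans_source]
    rw [OpenPartialHomeomorph.symm_source, OpenPartialHomeomorph.trans_target] at hy1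
    rw [mem_preimage, OpenPartialHomeomorph.trans_source] at hy2
    exact ⟨hy1.2, hy2.1⟩
  exact h3

/-- the identity map from the first to the second manifold structure -/
theorem id12 : @ContMDiff ℝ _ ℂ _ _ ℂ _ 𝓘(ℝ, ℂ) S _ _ DS.Surf.E2 _ _ DS.Surf.E2 _ (𝓡 2) S _
    (cs2 S) ω (id : S → S) := by
  letI := cs2 S
  intro x
  rw [contMDiffAt_iff]
  refine ⟨continuousAt_id, ?_⟩
  have h1 : ContDiffWithinAt ℝ ω eL (range 𝓘(ℝ, ℂ)) (extChartAt 𝓘(ℝ, ℂ) x x) :=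
    eL.contDiff.contDiffAt.contDiffWithinAt
  refine h1.congr_of_eventuallyEq ?_ ?_
  · have h2 : (extChartAt 𝓘(ℝ, ℂ) x).target ∈ 𝓝[range 𝓘(ℝ, ℂ)] (extChartAt 𝓘(ℝ, ℂ) x x) :=
      extChartAt_target_mem_nhdsWithin x
    filter_upwards [h2] with y hy
    have h3 := (extChartAt 𝓘(ℝ, ℂ) x).right_inv hy
    show eL (chartAt ℂ x ((extChartAt 𝓘(ℝ, ℂ) x).symm y)) = eL y
    exact congrArg eL h3
  · show eL (chartAt ℂ x ((extChartAt 𝓘(ℝ, ℂ) x).symm (extChartAt 𝓘(ℝ, ℂ) x x))) =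
      eL (extChartAt 𝓘(ℝ, ℂ) x x)
    rw [extChartAt_to_inv]
    rfl

/-- the identity map from the second to the first manifold structure -/
theorem id21 : @ContMDiff ℝ _ DS.Surf.E2 _ _ DS.Surf.E2 _ (𝓡 2) S _ (cs2 S) ℂ _ _ ℂ _ 𝓘(ℝ, ℂ) S _ _
    ω (id : S → S) := by
  letI := cs2 S
  intro x
  rw [contMDiffAt_iff]
  refine ⟨continuousAt_id, ?_⟩
  have h1 : ContDiffWithinAt ℝ ω eL.symm (range (𝓡 2)) (extChartAt (𝓡 2) x x) :=
    eL.symm.contDiff.contDiffAt.contDiffWithinAt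
  refine h1.congr_of_eventuallyEq ?_ ?_
  · have h2 : (extChartAt (𝓡 2) x).target ∈ 𝓝[range (𝓡 2)] (extChartAt (𝓡 2) x x) :=
      extChartAt_target_mem_nhdsWithin x
    filter_upwards [h2] with y hy
    have h3 := (extChartAt (𝓡 2) x).right_inv hy
    have h4 : eL (chartAt ℂ x ((extChartAt (𝓡 2) x).symm y)) = y := h3
    show chartAt ℂ x ((extChartAt (𝓡 2) x).symm y) = eL.symm y
    rw [← h4, ContinuousLinearEquiv.symm_apply_apply, h4]
  · show chartAt ℂ x ((extChartAt (𝓡 2) x).symm (extChartAt (𝓡 2) x x)) =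
      eL.symm (extChartAt (𝓡 2) x x)
    rw [extChartAt_to_inv]
    show chartAt ℂ x x = eL.symm (eL (chartAt ℂ x x))
    rw [ContinuousLinearEquiv.symm_apply_apply]

/-- the derivative of the identity map from the first to the second structure -/
noncomputable def T (x : S) : ℂ →L[ℝ] DS.Surf.E2 :=
  @mfderiv ℝ _ ℂ _ _ ℂ _ 𝓘(ℝ, ℂ) S _ _ DS.Surf.E2 _ _ DS.Surf.E2 _ (𝓡 2) S _ (cs2 S) id x

/-- the derivative of the identity map from the second to the first structure -/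
noncomputable def R (x : S) : DS.Surf.E2 →L[ℝ] ℂ :=
  @mfderiv ℝ _ DS.Surf.E2 _ _ DS.Surf.E2 _ (𝓡 2) S _ (cs2 S) ℂ _ _ ℂ _ 𝓘(ℝ, ℂ) S _ _ id x

theorem md12 (x : S) : @MDifferentiableAt ℝ _ ℂ _ _ ℂ _ 𝓘(ℝ, ℂ) S _ _ DS.Surf.E2 _ _ DS.Surf.E2 _
    (𝓡 2) S _ (cs2 S) (id : S → S) x := by
  letI := cs2 S
  exact (id12 x).mdifferentiableAt (by simp)

theorem md21 (x : S) : @MDifferentiableAt ℝ _ DS.Surf.E2 _ _ DS.Surf.E2 _ (𝓡 2) S _ (cs2 S) ℂ _ _ ℂ _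
    𝓘(ℝ, ℂ) S _ _ (id : S → S) x := by
  letI := cs2 S
  exact (id21 x).mdifferentiableAt (by simp)

theorem RT (x : S) (v : ℂ) : R x (T x v) = v := by
  letI := cs2 S
  have h1 := mfderiv_comp (I := 𝓘(ℝ, ℂ)) (I' := 𝓡 2) (I'' := 𝓘(ℝ, ℂ)) x (md21 (id x)) (md12 x)
  have h2 : mfderiv 𝓘(ℝ, ℂ) 𝓘(ℝ, ℂ) ((id : S → S) ∘ id) x = ContinuousLinearMap.id ℝ ℂ :=
    mfderiv_id
  rw [h1] at h2
  exact congrArg (fun L : ℂ →L[ℝ] ℂ => L v) h2

theorem TR (x : S) (v : DS.Surf.E2) : T x (R x v) = v := by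
  letI := cs2 S
  have h1 := mfderiv_comp (I := 𝓡 2) (I' := 𝓘(ℝ, ℂ)) (I'' := 𝓡 2) x (md12 (id x)) (md21 x)
  have h2 : mfderiv (𝓡 2) (𝓡 2) ((id : S → S) ∘ id) x = ContinuousLinearMap.id ℝ DS.Surf.E2 :=
    mfderiv_id
  rw [h1] at h2
  exact congrArg (fun L : DS.Surf.E2 →L[ℝ] DS.Surf.E2 => L v) h2

/-- the derivative at `x` as a linear equivalence -/
noncomputable def TE (x : S) : ℂ ≃ₗ[ℝ] DS.Surf.E2 where
  toFun := T x
  map_add' := map_add _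
  map_smul' := map_smul _
  invFun := R x
  left_inv := RT x
  right_inv := TR x

theorem d22 {g : S → S} {x : S} (hg : MDifferentiableAt 𝓘(ℝ, ℂ) 𝓘(ℝ, ℂ) g x)
    (v : DS.Surf.E2) :
    @mfderiv ℝ _ DS.Surf.E2 _ _ DS.Surf.E2 _ (𝓡 2) S _ (cs2 S) DS.Surf.E2 _ _ DS.Surf.E2 _ (𝓡 2) S _
      (cs2 S) g x v = T (g x) (mfderiv 𝓘(ℝ, ℂ) 𝓘(ℝ, ℂ) g x (R x v)) := by
  letI := cs2 S
  have h0 : MDifferentiableAt (𝓡 2) 𝓘(ℝ, ℂ) (g ∘ id) x := hg.comp x (md21 x)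
  have h1 := mfderiv_comp (I := 𝓡 2) (I' := 𝓘(ℝ, ℂ)) (I'' := 𝓡 2) x (md12 ((g ∘ id) x)) h0
  have h2 := mfderiv_comp (I := 𝓡 2) (I' := 𝓘(ℝ, ℂ)) (I'' := 𝓘(ℝ, ℂ)) x hg (md21 x)
  have h3 : mfderiv (𝓡 2) (𝓡 2) ((id : S → S) ∘ (g ∘ id)) x v =
      T (g x) (mfderiv (𝓡 2) 𝓘(ℝ, ℂ) (g ∘ id) x v) := by
    rw [h1]
    rfl
  rw [h2] at h3
  exact h3

theorem dT {F : Type} [NormedAddCommGroup F] [NormedSpace ℝ F] {h : F → S} {z : F}
    (hh : MDifferentiableAt 𝓘(ℝ, F) 𝓘(ℝ, ℂ) h z) (v : F) :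
    @mfderiv ℝ _ F _ _ F _ 𝓘(ℝ, F) F _ _ DS.Surf.E2 _ _ DS.Surf.E2 _ (𝓡 2) S _ (cs2 S) h z v =
      T (h z) (mfderiv 𝓘(ℝ, F) 𝓘(ℝ, ℂ) h z v) := by
  letI := cs2 S
  have h1 := mfderiv_comp (I := 𝓘(ℝ, F)) (I' := 𝓘(ℝ, ℂ)) (I'' := 𝓡 2) z (md12 (h z)) hh
  have h3 : mfderiv 𝓘(ℝ, F) (𝓡 2) ((id : S → S) ∘ h) z v =
      T (h z) (mfderiv 𝓘(ℝ, F) 𝓘(ℝ, ℂ) h z v) := by
    rw [h1]
    rfl
  exact h3

theorem dR {F : Type} [NormedAddCommGroup F] [NormedSpace ℝ F] {h : F → S} {z : F}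
    (hh : @MDifferentiableAt ℝ _ F _ _ F _ 𝓘(ℝ, F) F _ _ DS.Surf.E2 _ _ DS.Surf.E2 _ (𝓡 2) S _ (cs2 S)
      h z) (v : F) :
    mfderiv 𝓘(ℝ, F) 𝓘(ℝ, ℂ) h z v =
      R (h z) (@mfderiv ℝ _ F _ _ F _ 𝓘(ℝ, F) F _ _ DS.Surf.E2 _ _ DS.Surf.E2 _ (𝓡 2) S _ (cs2 S)
        h z v) := by
  letI := cs2 S
  have h1 := mfderiv_comp (I := 𝓘(ℝ, F)) (I' := 𝓡 2) (I'' := 𝓘(ℝ, ℂ)) z (md21 (h z)) hh
  have h3 : mfderiv 𝓘(ℝ, F) 𝓘(ℝ, ℂ) ((id : S → S) ∘ h) z v =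
      R (h z) (mfderiv 𝓘(ℝ, F) (𝓡 2) h z v) := by
    rw [h1]
    rfl
  exact h3

theorem c12 {F : Type} [NormedAddCommGroup F] [NormedSpace ℝ F] {h : F → S} {n : WithTop ℕ∞}
    {W : Set F} (hh : ContMDiffOn 𝓘(ℝ, F) 𝓘(ℝ, ℂ) n h W) :
    @ContMDiffOn ℝ _ F _ _ F _ 𝓘(ℝ, F) F _ _ DS.Surf.E2 _ _ DS.Surf.E2 _ (𝓡 2) S _ (cs2 S) n h W := by
  letI := cs2 S
  exact ((id12 (S := S)).of_le le_top).comp_contMDiffOn hh

theorem c21 {F : Type} [NormedAddCommGroup F] [NormedSpace ℝ F] {h : F → S} {n : WithTop ℕ∞}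
    {W : Set F} (hh : @ContMDiffOn ℝ _ F _ _ F _ 𝓘(ℝ, F) F _ _ DS.Surf.E2 _ _ DS.Surf.E2 _ (𝓡 2) S _
      (cs2 S) n h W) : ContMDiffOn 𝓘(ℝ, F) 𝓘(ℝ, ℂ) n h W := by
  letI := cs2 S
  exact ((id21 (S := S)).of_le le_top).comp_contMDiffOn hh

theorem bij_T {L : ℂ →L[ℝ] ℂ} (x : S) (hL : Bijective L) : Bijective fun v => T x (L v) :=
  (TE x).bijective.comp hL

theorem unif2 (h : Uniformised S) : @DS.Surf.Uniformised S _ (cs2 S) := by
  letI := cs2 S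
  rcases h with ⟨⟨Φ⟩⟩ | ⟨p, hp, hs, hb, hq⟩ | ⟨p, hp, hs, hb, hq⟩
  · refine Or.inl ⟨{ toEquiv := Φ.toEquiv, contMDiff_toFun := ?_, contMDiff_invFun := ?_ }⟩
    · exact ((id12 (S := S)).of_le le_top).comp Φ.contMDiff_toFun
    · exact Φ.contMDiff_invFun.comp ((id21 (S := S)).of_le le_top)
  · refine Or.inr (Or.inl ⟨p, ((id12 (S := S)).of_le le_top).comp hp, hs, fun z => ?_, hq⟩)
    have h1 := bij_T (p z) (hb z)
    have h2 : ⇑(mfderiv 𝓘(ℝ, ℂ) (𝓡 2) p z) = fun v => T (p z) (mfderiv 𝓘(ℝ, ℂ) 𝓘(ℝ, ℂ) p z v) := by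
      funext v
      exact dT (hp.mdifferentiableAt (by simp)) v
    rw [h2]
    exact h1
  · refine Or.inr (Or.inr ⟨p, c12 hp, hs, fun z hz => ?_, hq⟩)
    have h1 := bij_T (p z) (hb z hz)
    have hd : MDifferentiableAt 𝓘(ℝ, ℂ) 𝓘(ℝ, ℂ) p z :=
      ((hp z hz).contMDiffAt (isOpen_ball.mem_nhds hz)).mdifferentiableAt (by simp)
    have h2 : ⇑(mfderiv 𝓘(ℝ, ℂ) (𝓡 2) p z) = fun v => T (p z) (mfderiv 𝓘(ℝ, ℂ) 𝓘(ℝ, ℂ) p z v) := by
      funext v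
      exact dT hd v
    rw [h2]
    exact h1

/-- the area form in the second structure -/
noncomputable def om2
    (om : ∀ x : S, TangentSpace 𝓘(ℝ, ℂ) x →ₗ[ℝ] TangentSpace 𝓘(ℝ, ℂ) x →ₗ[ℝ] ℝ) (x : S) :
    DS.Surf.E2 →ₗ[ℝ] DS.Surf.E2 →ₗ[ℝ] ℝ :=
  LinearMap.compl₁₂ (om x : ℂ →ₗ[ℝ] ℂ →ₗ[ℝ] ℝ) (R x).toLinearMap (R x).toLinearMap

theorem om2_apply (om : ∀ x : S, TangentSpace 𝓘(ℝ, ℂ) x →ₗ[ℝ] TangentSpace 𝓘(ℝ, ℂ) x →ₗ[ℝ] ℝ)
    (x : S) (v w : DS.Surf.E2) : om2 om x v w = om x (R x v) (R x w) := rfl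

theorem area2 {om : ∀ x : S, TangentSpace 𝓘(ℝ, ℂ) x →ₗ[ℝ] TangentSpace 𝓘(ℝ, ℂ) x →ₗ[ℝ] ℝ}
    (h : IsAreaForm om) : @DS.Surf.IsAreaForm S _ (cs2 S) (om2 om) := by
  letI := cs2 S
  constructor
  · intro x v
    exact h.alt x _
  · intro x
    obtain ⟨v, w, hvw⟩ := h.ne x
    refine ⟨T x v, T x w, ?_⟩
    show om x (R x (T x v)) (R x (T x w)) ≠ 0
    rw [RT, RT]
    exact hvw
  · intro c hc
    have hc' : ContMDiff 𝓘(ℝ, ℂ) 𝓘(ℝ, ℂ) 1 c := ((id21 (S := S)).of_le le_top).comp hc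
    refine (h.cont c hc').congr fun z => ?_
    have h1 := dR (hc.mdifferentiableAt one_ne_zero : MDifferentiableAt 𝓘(ℝ, ℂ) (𝓡 2) c z) (1 : ℂ)
    have h2 := dR (hc.mdifferentiableAt one_ne_zero : MDifferentiableAt 𝓘(ℝ, ℂ) (𝓡 2) c z) Complex.I
    show om (c z) (mfderiv 𝓘(ℝ, ℂ) 𝓘(ℝ, ℂ) c z (1:ℂ)) (mfderiv 𝓘(ℝ, ℂ) 𝓘(ℝ, ℂ) c z Complex.I) =
      om (c z) (R (c z) (mfderiv 𝓘(ℝ, ℂ) (𝓡 2) c z (1:ℂ)))
        (R (c z) (mfderiv 𝓘(ℝ, ℂ) (𝓡 2) c z Complex.I))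
    rw [← h1, ← h2]

theorem pres2 {om : ∀ x : S, TangentSpace 𝓘(ℝ, ℂ) x →ₗ[ℝ] TangentSpace 𝓘(ℝ, ℂ) x →ₗ[ℝ] ℝ}
    {f : S → S} (hf : MDifferentiable 𝓘(ℝ, ℂ) 𝓘(ℝ, ℂ) f) (h : PreservesArea om f) :
    @DS.Surf.PreservesArea S _ (cs2 S) (om2 om) f := by
  letI := cs2 S
  intro x v w
  show om (f x) (R (f x) (mfderiv (𝓡 2) (𝓡 2) f x v)) (R (f x) (mfderiv (𝓡 2) (𝓡 2) f x w)) =
    om x (R x v) (R x w)
  have h1 : mfderiv (𝓡 2) (𝓡 2) f x v = T (f x) (mfderiv 𝓘(ℝ, ℂ) 𝓘(ℝ, ℂ) f x (R x v)) := d22 (hf x) v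
  have h2 : mfderiv (𝓡 2) (𝓡 2) f x w = T (f x) (mfderiv 𝓘(ℝ, ℂ) 𝓘(ℝ, ℂ) f x (R x w)) := d22 (hf x) w
  rw [h1, h2, RT, RT]
  exact h x _ _

theorem mult2 {f : S → S} (hf : ∀ n : ℕ, MDifferentiable 𝓘(ℝ, ℂ) 𝓘(ℝ, ℂ) (f^[n])) {P : S} {μ : ℂ} :
    @DS.Surf.IsMultiplier S _ (cs2 S) f P μ ↔ IsMultiplier f P μ := by
  letI := cs2 S
  have hP : f^[minimalPeriod f P] P = P := iterate_minimalPeriod
  have h1 : ((DS.Surf.iterDeriv f (minimalPeriod f P) P : DS.Surf.E2 →L[ℝ] DS.Surf.E2) :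
      DS.Surf.E2 →ₗ[ℝ] DS.Surf.E2) =
        (TE P).conj ((iterDeriv f (minimalPeriod f P) P : ℂ →L[ℝ] ℂ) : ℂ →ₗ[ℝ] ℂ) := by
    ext1 v
    have h2 := d22 (hf (minimalPeriod f P) P) v
    rw [hP] at h2
    exact h2
  unfold DS.Surf.IsMultiplier IsMultiplier
  rw [h1, LinearEquiv.charpoly_conj]

theorem cond1_2 {f : S → S} (hf : ∀ n : ℕ, MDifferentiable 𝓘(ℝ, ℂ) 𝓘(ℝ, ℂ) (f^[n]))
    (h : Cond1 f) : @DS.Surf.Cond1 S _ (cs2 S) f := by
  letI := cs2 S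
  intro P hP μ hμ
  exact h P hP μ ((mult2 hf).1 hμ)

theorem hyp2 {f : S → S} (hf : ∀ n : ℕ, MDifferentiable 𝓘(ℝ, ℂ) 𝓘(ℝ, ℂ) (f^[n])) {P : S}
    (h : @DS.Surf.Hyperbolic S _ (cs2 S) f P) : Hyperbolic f P := by
  letI := cs2 S
  exact ⟨h.1, fun μ hμ => h.2 μ ((mult2 hf).2 hμ)⟩

theorem tan2 {W : Set S} {x : S} {v : DS.Surf.E2} (h : @DS.Surf.TangentTo S _ (cs2 S) W x v) :
    TangentTo W x (R x v) := by
  letI := cs2 S
  obtain ⟨hv, α, hα, hW, h0, hd⟩ := h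
  refine ⟨fun h => hv ?_, α, c21 hα, hW, h0, ?_⟩
  · rw [← TR x v, h, map_zero]
  · have hda : MDifferentiableAt 𝓘(ℝ, ℝ) (𝓡 2) α 0 :=
      ((hα 0 ⟨by norm_num, by norm_num⟩).contMDiffAt
        (isOpen_Ioo.mem_nhds ⟨by norm_num, by norm_num⟩)).mdifferentiableAt one_ne_zero
    have h1 := dR hda (1 : ℝ)
    have h2 : (mfderiv 𝓘(ℝ, ℝ) (𝓡 2) α 0 : ℝ →L[ℝ] DS.Surf.E2) 1 = v := hd
    subst h0
    exact h1.trans (congrArg (R (α 0)) h2)

theorem cond2_2 {f fi : S → S} (hf : ∀ n : ℕ, MDifferentiable 𝓘(ℝ, ℂ) 𝓘(ℝ, ℂ) (f^[n]))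
    (h : Cond2 f fi) : @DS.Surf.Cond2 S _ (cs2 S) f fi := by
  letI := cs2 S
  intro P Q hP hQ x hx v w hv hw
  have h1 := h P Q (hyp2 hf hP) (hyp2 hf hQ) x hx (R x v) (R x w) (tan2 hv) (tan2 hw)
  refine LinearIndependent.of_comp ((R x : DS.Surf.E2 →L[ℝ] ℂ) : DS.Surf.E2 →ₗ[ℝ] ℂ) ?_
  have h2 : ((R x : DS.Surf.E2 →L[ℝ] ℂ) : DS.Surf.E2 →ₗ[ℝ] ℂ) ∘ ![v, w] = ![R x v, R x w] := by
    funext i
    fin_cases i <;> rfl
  rw [h2]
  exact h1

/-- the theorem for surfaces with an atlas in `ℂ` -/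
theorem transport (hmain : DS.Surf.Main) (S : Type) [MetricSpace S] [ChartedSpace ℂ S]
    [IsManifold 𝓘(ℝ, ℂ) ∞ S] [CompactSpace S] (hS : Uniformised S) (r : WithTop ℕ∞) (hr : 1 ≤ r)
    (f : Diffeomorph 𝓘(ℝ, ℂ) 𝓘(ℝ, ℂ) S S r)
    (om : ∀ x : S, TangentSpace 𝓘(ℝ, ℂ) x →ₗ[ℝ] TangentSpace 𝓘(ℝ, ℂ) x →ₗ[ℝ] ℝ)
    (hom : IsAreaForm om) (hf : PreservesArea om f) (hper : (periodicPts f).Nonempty)
    (h1 : Cond1 f) (h2 : Cond2 f f.symm) (h4 : Cond4 f) :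
    Dense (⋃ P ∈ periodicPts f, stableSet f P) := by
  letI := cs2 S
  haveI : IsManifold (𝓡 2) ∞ S := man2
  have hc : ContMDiff 𝓘(ℝ, ℂ) 𝓘(ℝ, ℂ) 1 f := f.contMDiff.of_le hr
  have hci : ContMDiff 𝓘(ℝ, ℂ) 𝓘(ℝ, ℂ) 1 f.symm := f.symm.contMDiff.of_le hr
  have hit : ∀ n : ℕ, ContMDiff 𝓘(ℝ, ℂ) 𝓘(ℝ, ℂ) 1 (f^[n]) := by
    intro n
    induction n with
    | zero => exact contMDiff_id
    | succ n ih =>
      rw [iterate_succ]
      exact ih.comp hc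
  have hmd : ∀ n : ℕ, MDifferentiable 𝓘(ℝ, ℂ) 𝓘(ℝ, ℂ) (f^[n]) := fun n =>
    (hit n).mdifferentiable one_ne_zero
  let f2 : Diffeomorph (𝓡 2) (𝓡 2) S S 1 :=
    { toEquiv := f.toEquiv
      contMDiff_toFun := ((id12 (S := S)).of_le le_top).comp
        (hc.comp ((id21 (S := S)).of_le le_top))
      contMDiff_invFun := ((id12 (S := S)).of_le le_top).comp
        (hci.comp ((id21 (S := S)).of_le le_top)) }
  exact hmain S (unif2 hS) 1 le_rfl f2 (om2 om) (area2 hom)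
    (pres2 (hc.mdifferentiable one_ne_zero) hf) hper (cond1_2 hmd h1) (cond2_2 hmd h2) h4

end

end StableSets

end S_H12_FIN_Tr

section S_H36_DS_BA

/-!
BA (transport of the topological conditions to the sphere).  `S` is a compact metric space homeomorphic to the sphere by
`Ψ : S2 → S` (inverse `Ψi`), `f' = Ψi ∘ f ∘ Ψ`.  `f'^[n] = Ψi ∘ f^[n] ∘ Ψ`.
`stable`: `dist (f^[n] (Ψ x)) (f^[n] (Ψ P)) → 0` iff `dist (f'^[n] x) (f'^[n] P) → 0`: `Ψ` and `Ψi` are uniformly continuous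
(compactness).  `per`: clear.  `cond4`: an annulus `A` for `f'^[q]` gives the annulus `Ψ '' A` for `f^[q]` (homeomorphic to `A`).
`dense`: `Ψ` maps the union for `f'` onto the union for `f`.
-/

namespace DS
open Metric Set Filter Topology Function

private theorem BA_semi {X S : Type*} [TopologicalSpace X] [TopologicalSpace S] (e : X ≃ₜ S) (f : S → S) :
    Semiconj e (fun y => e.symm (f (e y))) f := fun y => e.apply_symm_apply _

private theorem BA_uc {X Y : Type*} [PseudoMetricSpace X] [PseudoMetricSpace Y] {φ : X → Y}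
    (h : UniformContinuous φ) {a b : ℕ → X}
    (hab : Tendsto (fun n => dist (a n) (b n)) atTop (𝓝 0)) :
    Tendsto (fun n => dist (φ (a n)) (φ (b n))) atTop (𝓝 0) := by
  rw [Metric.tendsto_atTop] at hab ⊢
  intro ε hε
  obtain ⟨δ, hδ, H⟩ := Metric.uniformContinuous_iff.1 h ε hε
  obtain ⟨N, hN⟩ := hab δ hδ
  refine ⟨N, fun n hn => ?_⟩
  have h1 := hN n hn
  rw [Real.dist_0_eq_abs, abs_of_nonneg dist_nonneg] at h1 ⊢
  exact H h1

private theorem BA_pp {X S : Type*} {e : X → S} (he : Injective e) {g : X → X} {f : S → S}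
    (h : Semiconj e g f) (n : ℕ) (P : X) : IsPeriodicPt g n P ↔ IsPeriodicPt f n (e P) := by
  have h1 : e (g^[n] P) = f^[n] (e P) := h.iterate_right n P
  constructor
  · intro h2
    have h3 : g^[n] P = P := h2
    rw [h3] at h1
    exact h1.symm
  · intro h2
    have h3 : f^[n] (e P) = e P := h2
    rw [h3] at h1
    exact he h1

private theorem BA_pps {X S : Type*} {e : X → S} (he : Injective e) {g : X → X} {f : S → S}
    (h : Semiconj e g f) (P : X) : P ∈ periodicPts g ↔ e P ∈ periodicPts f := by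
  constructor
  · rintro ⟨n, hn, h1⟩
    exact ⟨n, hn, (BA_pp he h n P).1 h1⟩
  · rintro ⟨n, hn, h1⟩
    exact ⟨n, hn, (BA_pp he h n P).2 h1⟩

theorem BA_stable {S : Type*} [MetricSpace S] [CompactSpace S] (e : S2 ≃ₜ S) (f : S → S)
    (P x : S2) : x ∈ stableSet (fun y => e.symm (f (e y))) P ↔ e x ∈ Surf.stableSet f (e P) := by
  have hs := BA_semi e f
  have hu : UniformContinuous e := CompactSpace.uniformContinuous_of_continuous e.continuous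
  have hu' : UniformContinuous e.symm := CompactSpace.uniformContinuous_of_continuous e.symm.continuous
  constructor
  · intro h
    have h1 := BA_uc hu h
    refine h1.congr fun n => ?_
    rw [hs.iterate_right n x, hs.iterate_right n P]
  · intro h
    have h1 := BA_uc hu' h
    refine h1.congr fun n => ?_
    rw [← hs.iterate_right n x, ← hs.iterate_right n P, e.symm_apply_apply, e.symm_apply_apply]

theorem BA_per {S : Type*} [MetricSpace S] (e : S2 ≃ₜ S) (f : S → S) (P : S2) :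
    (P ∈ periodicPts (fun y => e.symm (f (e y))) ↔ e P ∈ periodicPts f) ∧
      minimalPeriod (fun y => e.symm (f (e y))) P = minimalPeriod f (e P) :=
  ⟨BA_pps e.injective (BA_semi e f) P, minimalPeriod_eq_minimalPeriod_iff.2 fun n =>
    BA_pp e.injective (BA_semi e f) n P⟩

theorem BA_cond4 {S : Type*} [MetricSpace S] (e : S2 ≃ₜ S) (f : S → S) (h : Surf.Cond4 f) :
    Cond4 (fun y => e.symm (f (e y))) := by
  rintro q hq A ⟨hA1, hA2, ⟨ψ⟩, hA4⟩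
  have hs := (BA_semi e f).iterate_right q
  refine h q hq (e '' A) ⟨e.isOpenMap A hA1, ?_, ⟨(e.image A).symm.trans ψ⟩, ?_⟩
  · rw [← image_comp]
    have h1 : f^[q] ∘ e = e ∘ (fun y => e.symm (f (e y)))^[q] := by
      funext y
      exact (hs y).symm
    rw [h1, image_comp, hA2]
  · rintro _ ⟨P, hP, rfl⟩ h1
    exact hA4 P hP ((BA_pps e.injective hs P).2 h1)

theorem BA_dense {S : Type*} [MetricSpace S] [CompactSpace S] (e : S2 ≃ₜ S) (f : S → S)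
    (h : Dense (⋃ P ∈ periodicPts (fun y => e.symm (f (e y))),
      stableSet (fun y => e.symm (f (e y))) P)) :
    Dense (⋃ P ∈ periodicPts f, Surf.stableSet f P) := by
  have h1 := e.surjective.denseRange.dense_image e.continuous h
  refine h1.mono ?_
  rintro _ ⟨x, hx, rfl⟩
  simp only [mem_iUnion] at hx ⊢
  obtain ⟨P, hP, hx⟩ := hx
  exact ⟨e P, (BA_per e f P).1.1 hP, (BA_stable e f P x).1 hx⟩

end DS

end S_H36_DS_BA

section S_H36_DS_BB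

/-!
BB (transport of the differentiable conditions to the sphere).  `Ψ : S2 → S` a diffeomorphism, `f' = Ψ.symm ∘ f ∘ Ψ`.
`BB_mult`: with `q = minimalPeriod` (the same, `BA_per`) `f'^[q] = Ψ.symm ∘ f^[q] ∘ Ψ`, so the differential at the fixed point
`P` is conjugate (`mfderiv_comp`, the differential of `Ψ` at `P` is a linear isomorphism `E2 → E2`) to the one of `f^[q]` at
`Ψ P`; characteristic polynomials of conjugate maps are equal (`LinearEquiv.charpoly_conj`).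
`BB_tangent`: let `α` be the curve of `DS.TangentTo W x v` (`coe ∘ α` is `C¹` on `Ioo (-1) 1` as a map into `E3`).  `α` is
`C¹` as a map into the sphere on `Ioo (-1) 1` (`ContMDiffOn.codRestrict_sphere` or the corresponding statement for `ContMDiff`;
a direct proof in a stereographic chart is also possible), so `Ψ ∘ α` is `C¹`.  `v₀ = mfderiv α 0 1`, `emb x v₀ = v` by the chain rule,
`v₀ ≠ 0`, and `mfderiv (Ψ ∘ α) 0 1 = mfderiv Ψ x v₀ ≠ 0`.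
`BB_cond2`: given `v, w` from `DS.TangentTo`, `v = emb x v₀`, `w = emb x w₀`; `Surf.Cond2` at `Ψ x` (the stable sets correspond by
`BA_stable`, hyperbolic points by `BB_mult`) gives that `DΨ v₀, DΨ w₀` are independent, so `v₀, w₀` are, and so `v, w`
(`emb x` is injective linear: `mfderiv_coe_sphere_injective`).
-/

namespace DS
open Metric Set Filter Topology Function
open scoped Manifold ContDiff

/-- the differential of a diffeomorphism and the one of its inverse are inverse to each other -/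
theorem BB_inv {S : Type*} [MetricSpace S] [ChartedSpace E2 S] [IsManifold (𝓡 2) ∞ S]
    (Ψ : Diffeomorph (𝓡 2) (𝓡 2) S2 S ∞) (P : S2) :
    (mfderiv (𝓡 2) (𝓡 2) Ψ.symm (Ψ P) : E2 →L[ℝ] E2).comp
      (mfderiv (𝓡 2) (𝓡 2) Ψ P : E2 →L[ℝ] E2) = ContinuousLinearMap.id ℝ E2 ∧
    (mfderiv (𝓡 2) (𝓡 2) Ψ P : E2 →L[ℝ] E2).comp
      (mfderiv (𝓡 2) (𝓡 2) Ψ.symm (Ψ P) : E2 →L[ℝ] E2) = ContinuousLinearMap.id ℝ E2 := by
  have h1 : MDifferentiableAt (𝓡 2) (𝓡 2) Ψ P :=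
    Ψ.contMDiff.mdifferentiableAt (by simp)
  have h2 : MDifferentiableAt (𝓡 2) (𝓡 2) Ψ.symm (Ψ P) :=
    Ψ.symm.contMDiff.mdifferentiableAt (by simp)
  constructor
  · have h3 := mfderiv_comp P h2 h1
    have h4 : (Ψ.symm ∘ Ψ : S2 → S2) = id := by
      funext y; simp
    rw [h4, mfderiv_id] at h3
    exact h3.symm
  · have h5 : MDifferentiableAt (𝓡 2) (𝓡 2) Ψ (Ψ.symm (Ψ P)) := by
      rw [Ψ.symm_apply_apply]; exact h1
    have h3 := mfderiv_comp (Ψ P) h5 h2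
    have h4 : (Ψ ∘ Ψ.symm : S → S) = id := by
      funext y; simp
    rw [h4, mfderiv_id] at h3
    rw [Ψ.symm_apply_apply] at h3
    exact h3.symm

theorem BB_iter {S : Type*} [MetricSpace S] [ChartedSpace E2 S] [IsManifold (𝓡 2) ∞ S]
    (Ψ : Diffeomorph (𝓡 2) (𝓡 2) S2 S ∞) (f : S → S) (q : ℕ) :
    (fun y => Ψ.symm (f (Ψ y)))^[q] = Ψ.symm ∘ (f^[q] ∘ Ψ) := by
  induction q with
  | zero => funext y; simp
  | succ n ih =>
    funext y
    rw [iterate_succ_apply', ih]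
    simp only [comp_apply]
    rw [Ψ.apply_symm_apply, iterate_succ_apply']

theorem BB_conj (A B G : E2 →L[ℝ] E2) (h1 : B.comp A = ContinuousLinearMap.id ℝ E2)
    (h2 : A.comp B = ContinuousLinearMap.id ℝ E2) :
    ((B.comp (G.comp A) : E2 →L[ℝ] E2) : E2 →ₗ[ℝ] E2).charpoly = (G : E2 →ₗ[ℝ] E2).charpoly := by
  have h1' : (B : E2 →ₗ[ℝ] E2) ∘ₗ (A : E2 →ₗ[ℝ] E2) = LinearMap.id := by
    ext v i
    have := congrArg (fun L : E2 →L[ℝ] E2 => (L v) i) h1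
    simpa using this
  have h2' : (A : E2 →ₗ[ℝ] E2) ∘ₗ (B : E2 →ₗ[ℝ] E2) = LinearMap.id := by
    ext v i
    have := congrArg (fun L : E2 →L[ℝ] E2 => (L v) i) h2
    simpa using this
  let e : E2 ≃ₗ[ℝ] E2 := LinearEquiv.ofLinearMap (B : E2 →ₗ[ℝ] E2) (A : E2 →ₗ[ℝ] E2) h1' h2'
  have h := LinearEquiv.charpoly_conj e (G : Module.End ℝ E2)
  rw [← h]
  congr 1

theorem BB_zero (A B : E2 →L[ℝ] E2) (h1 : B.comp A = ContinuousLinearMap.id ℝ E2) (u : E2)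
    (hu : A u = 0) : u = 0 := by
  have h2 := congrArg (fun L : E2 →L[ℝ] E2 => L u) h1
  simp only [ContinuousLinearMap.comp_apply, ContinuousLinearMap.id_apply] at h2
  rw [hu, map_zero] at h2
  exact h2.symm

theorem BB_li1 (A : E2 →L[ℝ] E2) (v w : E2) (h : LinearIndependent ℝ ![A v, A w]) :
    LinearIndependent ℝ ![v, w] := by
  refine LinearIndependent.of_comp (A : E2 →ₗ[ℝ] E2) ?_
  convert h using 1
  funext i
  fin_cases i <;> rfl

theorem BB_li2 (A : E2 →L[ℝ] E3) (hA : Injective A) (v w : E2) (h : LinearIndependent ℝ ![v, w]) :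
    LinearIndependent ℝ ![A v, A w] := by
  have h5 := h.map' (A : E2 →ₗ[ℝ] E3) (LinearMap.ker_eq_bot.mpr hA)
  have h6 : (⇑(A : E2 →ₗ[ℝ] E3) ∘ ![v, w] : Fin 2 → E3) = ![A v, A w] := by
    funext i
    fin_cases i <;> rfl
  exact h6 ▸ h5

theorem BB_mult {S : Type*} [MetricSpace S] [ChartedSpace E2 S] [IsManifold (𝓡 2) ∞ S]
    (Ψ : Diffeomorph (𝓡 2) (𝓡 2) S2 S ∞) (f : Diffeomorph (𝓡 2) (𝓡 2) S S 1) (P : S2)
    (hP : P ∈ periodicPts (fun y => Ψ.symm (f (Ψ y)))) (μ : ℂ) :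
    IsMultiplier (fun y => Ψ.symm (f (Ψ y))) P μ ↔ Surf.IsMultiplier f (Ψ P) μ := by
  have hq : minimalPeriod (fun y => Ψ.symm (f (Ψ y))) P = minimalPeriod f (Ψ P) :=
    (BA_per Ψ.toHomeomorph f P).2
  have key : ((iterDeriv (fun y => Ψ.symm (f (Ψ y)))
      (minimalPeriod (fun y => Ψ.symm (f (Ψ y))) P) P : E2 →L[ℝ] E2) : E2 →ₗ[ℝ] E2).charpoly =
      ((Surf.iterDeriv f (minimalPeriod f (Ψ P)) (Ψ P) : E2 →L[ℝ] E2) :
        E2 →ₗ[ℝ] E2).charpoly := by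
    rw [hq]
    set q := minimalPeriod f (Ψ P) with hqdef
    have hfix : f^[q] (Ψ P) = Ψ P := iterate_minimalPeriod
    have hfq : ContMDiff (𝓡 2) (𝓡 2) 1 (f^[q]) := by
      have : ∀ n : ℕ, ContMDiff (𝓡 2) (𝓡 2) 1 (f^[n]) := by
        intro n
        induction n with
        | zero => exact contMDiff_id
        | succ m ih =>
          rw [iterate_succ']
          exact f.contMDiff.comp ih
      exact this q
    have h1 : MDifferentiableAt (𝓡 2) (𝓡 2) Ψ P :=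
      Ψ.contMDiff.mdifferentiableAt (by simp)
    have h2 : MDifferentiableAt (𝓡 2) (𝓡 2) Ψ.symm (Ψ P) :=
      Ψ.symm.contMDiff.mdifferentiableAt (by simp)
    have h3 : MDifferentiableAt (𝓡 2) (𝓡 2) (f^[q]) (Ψ P) :=
      hfq.mdifferentiableAt (by simp)
    have h4 : MDifferentiableAt (𝓡 2) (𝓡 2) (f^[q] ∘ Ψ) P := h3.comp P h1
    have h5 : (iterDeriv (fun y => Ψ.symm (f (Ψ y))) q P : E2 →L[ℝ] E2) =
        (mfderiv (𝓡 2) (𝓡 2) Ψ.symm (Ψ P) : E2 →L[ℝ] E2).comp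
          ((mfderiv (𝓡 2) (𝓡 2) (f^[q]) (Ψ P) : E2 →L[ℝ] E2).comp
            (mfderiv (𝓡 2) (𝓡 2) Ψ P : E2 →L[ℝ] E2)) := by
      unfold iterDeriv
      rw [BB_iter Ψ f q]
      have h6 := mfderiv_comp_of_eq (x := P) (y := Ψ P) h2 h4 hfix
      have h7 := mfderiv_comp P h3 h1
      rw [h6, h7]
      have h8 : (mfderiv (𝓡 2) (𝓡 2) Ψ.symm ((f^[q] ∘ Ψ) P) : E2 →L[ℝ] E2) =
          (mfderiv (𝓡 2) (𝓡 2) Ψ.symm (Ψ P) : E2 →L[ℝ] E2) := by
        simp only [comp_apply]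
        rw [hfix]
      exact congrArg (fun L : E2 →L[ℝ] E2 => L.comp
        ((mfderiv (𝓡 2) (𝓡 2) (f^[q]) (Ψ P) : E2 →L[ℝ] E2).comp
            (mfderiv (𝓡 2) (𝓡 2) Ψ P : E2 →L[ℝ] E2))) h8
    rw [h5]
    exact BB_conj _ _ _ (BB_inv Ψ P).1 (BB_inv Ψ P).2
  unfold IsMultiplier Surf.IsMultiplier
  rw [key]

theorem BB_curve {α : ℝ → S2}
    (hα : ContDiffOn ℝ 1 (fun t => (α t : E3)) (Ioo (-1) 1)) {t : ℝ} (ht : t ∈ Ioo (-1:ℝ) 1) :
    ContMDiffAt 𝓘(ℝ, ℝ) (𝓡 2) 1 α t := by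
  let U : TopologicalSpace.Opens ℝ := ⟨Ioo (-1) 1, isOpen_Ioo⟩
  have h1 : ContMDiff 𝓘(ℝ, ℝ) 𝓘(ℝ, E3) 1 (fun s : U => (α s : E3)) := by
    intro s
    have h2 : ContMDiffAt 𝓘(ℝ, ℝ) 𝓘(ℝ, E3) 1 (fun t => (α t : E3)) (s : ℝ) :=
      (hα.contDiffAt (isOpen_Ioo.mem_nhds s.2)).contMDiffAt
    exact (contMDiffAt_subtype_iff (U := U) (f := fun t => (α t : E3)) (x := s)).mpr h2
  have h3 := h1.codRestrict_sphere (n := 2) (fun s => (α s).2)
  have h4 : (Set.codRestrict _ _ (fun s : U => (α s).2) : U → sphere (0 : E3) 1) =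
      fun s : U => α s := by
    funext s
    apply Subtype.ext
    rfl
  rw [h4] at h3
  exact (contMDiffAt_subtype_iff (U := U) (f := α) (x := ⟨t, ht⟩)).mp (h3 ⟨t, ht⟩)

theorem BB_tangent {S : Type*} [MetricSpace S] [ChartedSpace E2 S] [IsManifold (𝓡 2) ∞ S]
    (Ψ : Diffeomorph (𝓡 2) (𝓡 2) S2 S ∞) {W : Set S2} {x : S2} {v : E3} (h : TangentTo W x v) :
    ∃ v₀ : E2, emb x v₀ = v ∧
      Surf.TangentTo (Ψ '' W) (Ψ x) ((mfderiv (𝓡 2) (𝓡 2) Ψ x : E2 →L[ℝ] E2) v₀) := by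
  obtain ⟨hv, α, hα, hW, h0, hd⟩ := h
  subst h0
  have hm0 : (0:ℝ) ∈ Ioo (-1:ℝ) 1 := by constructor <;> norm_num
  have hα0 : MDifferentiableAt 𝓘(ℝ, ℝ) (𝓡 2) α 0 := (BB_curve hα hm0).mdifferentiableAt (by simp)
  have hc0 : MDifferentiableAt (𝓡 2) 𝓘(ℝ, E3) (fun y : S2 => (y : E3)) (α 0) :=
    (contMDiff_coe_sphere (m := 1)).mdifferentiableAt (by simp)
  have hΨ0 : MDifferentiableAt (𝓡 2) (𝓡 2) Ψ (α 0) :=
    Ψ.contMDiff.mdifferentiableAt (by simp)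
  have he : emb (α 0) ((mfderiv 𝓘(ℝ, ℝ) (𝓡 2) α 0 : ℝ →L[ℝ] E2) 1) = v := by
    have h1 := mfderiv_comp_apply (x := (0:ℝ)) hc0 hα0 (1:ℝ)
    unfold emb
    have h2 : (mfderiv 𝓘(ℝ, ℝ) 𝓘(ℝ, E3) ((fun y : S2 => (y : E3)) ∘ α) 0 : ℝ →L[ℝ] E3) 1 = v := by
      rw [mfderiv_eq_fderiv]
      exact hd
    exact h1.symm.trans h2
  refine ⟨(mfderiv 𝓘(ℝ, ℝ) (𝓡 2) α 0 : ℝ →L[ℝ] E2) 1, he, ?_, fun t => Ψ (α t), ?_, ?_, rfl, ?_⟩
  · intro hz
    have h1 : (mfderiv 𝓘(ℝ, ℝ) (𝓡 2) α 0 : ℝ →L[ℝ] E2) 1 = 0 := by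
      exact BB_zero _ _ (BB_inv Ψ (α 0)).1 _ hz
    apply hv
    rw [← he, h1]
    unfold emb
    exact map_zero (mfderiv (𝓡 2) 𝓘(ℝ, E3) (fun y : S2 => (y : E3)) (α 0))
  · intro t ht
    exact ((Ψ.contMDiff.of_le (by exact_mod_cast le_top)).contMDiffAt.comp t
      (BB_curve hα ht)).contMDiffWithinAt
  · intro t ht
    exact ⟨α t, hW t ht, rfl⟩
  · exact mfderiv_comp_apply (x := (0:ℝ)) hΨ0 hα0 (1:ℝ)

theorem BB_per {S : Type*} [MetricSpace S] [ChartedSpace E2 S] [IsManifold (𝓡 2) ∞ S]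
    (Ψ : Diffeomorph (𝓡 2) (𝓡 2) S2 S ∞) (f : S → S) (P : S2) :
    P ∈ periodicPts (fun y => Ψ.symm (f (Ψ y))) ↔ Ψ P ∈ periodicPts f :=
  (BA_per Ψ.toHomeomorph f P).1

theorem BB_stable {S : Type*} [MetricSpace S] [CompactSpace S] [ChartedSpace E2 S]
    [IsManifold (𝓡 2) ∞ S] (Ψ : Diffeomorph (𝓡 2) (𝓡 2) S2 S ∞) (f : S → S) (P x : S2) :
    x ∈ stableSet (fun y => Ψ.symm (f (Ψ y))) P ↔ Ψ x ∈ Surf.stableSet f (Ψ P) :=
  BA_stable Ψ.toHomeomorph f P x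

theorem BB_cond1 {S : Type*} [MetricSpace S] [ChartedSpace E2 S] [IsManifold (𝓡 2) ∞ S]
    (Ψ : Diffeomorph (𝓡 2) (𝓡 2) S2 S ∞) (f : Diffeomorph (𝓡 2) (𝓡 2) S S 1)
    (h : Surf.Cond1 f) : Cond1 (fun y => Ψ.symm (f (Ψ y))) := by
  intro P hP μ hμ n hn
  exact h (Ψ P) ((BB_per Ψ f P).mp hP) μ ((BB_mult Ψ f P hP μ).mp hμ) n hn

theorem BB_hyp {S : Type*} [MetricSpace S] [ChartedSpace E2 S] [IsManifold (𝓡 2) ∞ S]
    (Ψ : Diffeomorph (𝓡 2) (𝓡 2) S2 S ∞) (f : Diffeomorph (𝓡 2) (𝓡 2) S S 1) {P : S2}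
    (h : Hyperbolic (fun y => Ψ.symm (f (Ψ y))) P) : Surf.Hyperbolic f (Ψ P) :=
  ⟨(BB_per Ψ f P).mp h.1, fun μ hμ => h.2 μ ((BB_mult Ψ f P h.1 μ).mpr hμ)⟩

theorem BB_mono {S : Type*} [MetricSpace S] [ChartedSpace E2 S] {W W' : Set S} (hW : W ⊆ W')
    {x : S} {v : E2} (h : Surf.TangentTo W x v) : Surf.TangentTo W' x v := by
  obtain ⟨hv, α, hα, h1, h2, h3⟩ := h
  exact ⟨hv, α, hα, fun t ht => hW (h1 t ht), h2, h3⟩

theorem BB_cond2 {S : Type*} [MetricSpace S] [CompactSpace S] [ChartedSpace E2 S]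
    [IsManifold (𝓡 2) ∞ S] (Ψ : Diffeomorph (𝓡 2) (𝓡 2) S2 S ∞)
    (f : Diffeomorph (𝓡 2) (𝓡 2) S S 1) (h : Surf.Cond2 f f.symm) :
    Cond2 (fun y => Ψ.symm (f (Ψ y))) (fun y => Ψ.symm (f.symm (Ψ y))) := by
  intro P Q hP hQ x hx v w hv hw
  obtain ⟨v₀, hv₀, hv₁⟩ := BB_tangent Ψ hv
  obtain ⟨w₀, hw₀, hw₁⟩ := BB_tangent Ψ hw
  have h1 : Ψ '' stableSet (fun y => Ψ.symm (f (Ψ y))) P ⊆ Surf.stableSet f (Ψ P) := by
    rintro _ ⟨y, hy, rfl⟩
    exact (BB_stable Ψ f P y).mp hy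
  have h2 : Ψ '' stableSet (fun y => Ψ.symm (f.symm (Ψ y))) Q ⊆
      Surf.stableSet f.symm (Ψ Q) := by
    rintro _ ⟨y, hy, rfl⟩
    exact (BB_stable Ψ f.symm Q y).mp hy
  have h3 := h (Ψ P) (Ψ Q) (BB_hyp Ψ f hP) (BB_hyp Ψ f hQ) (Ψ x)
    ⟨(BB_stable Ψ f P x).mp hx.1, (BB_stable Ψ f.symm Q x).mp hx.2⟩ _ _
    (BB_mono h1 hv₁) (BB_mono h2 hw₁)
  have h4 : LinearIndependent ℝ ![v₀, w₀] :=
    BB_li1 (mfderiv (𝓡 2) (𝓡 2) Ψ x : E2 →L[ℝ] E2) v₀ w₀ h3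
  have hinj : Injective (mfderiv (𝓡 2) 𝓘(ℝ, E3) (fun y : S2 => (y : E3)) x : E2 →L[ℝ] E3) :=
    injective_mvfderiv_subtypeVal_sphere (n := 2) x
  have h5 := BB_li2 (mfderiv (𝓡 2) 𝓘(ℝ, E3) (fun y : S2 => (y : E3)) x : E2 →L[ℝ] E3) hinj
    v₀ w₀ h4
  rw [← hv₀, ← hw₀]
  exact h5

end DS

end S_H36_DS_BB

section S_H36_DS_SA

/-!
SA (the invariant measure of the area form).  Proof (cone trick).  Let `C = ball 0 1 \ {0}` in `E3`, `π x = x / ‖x‖`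
(values in `S2`), `m = (volume.restrict C).withDensity (ρ ∘ π)`, `ν = Measure.map π m`: finite because `ρ` is bounded
(compactness), positive on nonempty open sets because `C ∩ π ⁻¹' O` is open and nonempty.
Let `F x = ‖x‖ • f (π x)`, a bijection of `C` (inverse built from `fi`), differentiable at every `x ∈ C`; with
`x' = π x`: `F' x (x') = f x'` (`F (s x') = s f x'`), and for a tangent vector `e` at `x'`, `v = emb x' e`:
`F' x v = emb (f x') (mfderiv f x' e)` (`v` is orthogonal to `x`, and `F (x + s v) = ‖x + s v‖ • f (π (x + s v))`; use that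
`π` restricted to the sphere is the identity and that `F` is homogeneous of degree one, so `F' (t x) = F' x` for `t > 0`, and the
restriction of `F` to the sphere is `f`).  For the standard basis `e₁, e₂`, `v i = emb x' (e i)`, `w i = F' x (v i)`:
`det3 (f x') w₁ w₂ = det (F' x) * det3 x' v₁ v₂`, and `PreservesArea` says
`ρ (f x') * det3 (f x') w₁ w₂ = ρ x' * det3 x' v₁ v₂`, with `det3 x' v₁ v₂ ≠ 0` (`emb x'` is injective with range the orthogonal complement of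
`x'`).  So `ρ (f x') * det (F' x) = ρ x'`.
By the change of variables formula (`lintegral_image_eq_lintegral_abs_det_fderiv_mul`) for `B ⊆ S2` measurable
`ν (f '' B) = m (F '' (C ∩ π ⁻¹' B)) = ∫_{C ∩ π ⁻¹' B} |det F'| ρ (π (F x)) = ∫_{C ∩ π ⁻¹' B} ρ (π x) = ν B`.
-/

namespace DS
open Metric Set Filter Topology Function MeasureTheory
open scoped Manifold ContDiff

/-- the point of the sphere on the ray of a nonzero vector -/
private noncomputable def SA_pr (x : E3) : S2 :=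
  if h : x = 0 then ⟨EuclideanSpace.single 0 1, by simp⟩
  else ⟨‖x‖⁻¹ • x, by
    rw [mem_sphere_zero_iff_norm, norm_smul, norm_inv, norm_norm,
      inv_mul_cancel₀ (norm_ne_zero_iff.2 h)]⟩

private theorem SA_pr_coe {x : E3} (h : x ≠ 0) : (SA_pr x : E3) = ‖x‖⁻¹ • x := by
  simp [SA_pr, h]

private theorem SA_pr_smul {x : E3} (h : x ≠ 0) {t : ℝ} (ht : 0 < t) : SA_pr (t • x) = SA_pr x := by
  apply Subtype.ext
  rw [SA_pr_coe h, SA_pr_coe (smul_ne_zero ht.ne' h), norm_smul, Real.norm_of_nonneg ht.le,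
    smul_smul]
  congr 1
  field_simp

private theorem SA_pr_self (x : S2) : SA_pr (x : E3) = x := by
  have h1 : ‖(x : E3)‖ = 1 := by simpa using x.2
  have h0 : (x : E3) ≠ 0 := by
    intro h; rw [h] at h1; simp at h1
  apply Subtype.ext
  rw [SA_pr_coe h0, h1]; simp

private theorem SA_pr_smooth {x : E3} (h : x ≠ 0) :
    ContMDiffAt 𝓘(ℝ, E3) (𝓡 2) 1 SA_pr x := by
  let U : TopologicalSpace.Opens E3 := ⟨{0}ᶜ, isOpen_compl_singleton⟩
  have h1 : ContMDiff 𝓘(ℝ, E3) 𝓘(ℝ, E3) 1 (fun y : U => ‖(y : E3)‖⁻¹ • (y : E3)) := by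
    intro y
    have hy : (y : E3) ≠ 0 := y.2
    have : ContMDiffAt 𝓘(ℝ, E3) 𝓘(ℝ, E3) 1 (fun y : E3 => ‖y‖⁻¹ • y) (y : E3) := by
      rw [contMDiffAt_iff_contDiffAt]
      exact ((contDiffAt_norm ℝ hy).inv (norm_ne_zero_iff.2 hy)).smul contDiffAt_id
    exact contMDiffAt_subtype_iff.2 this
  have h2 : ∀ y : U, ‖(y : E3)‖⁻¹ • (y : E3) ∈ sphere (0 : E3) 1 := by
    intro y
    have hy : (y : E3) ≠ 0 := y.2
    rw [mem_sphere_zero_iff_norm, norm_smul, norm_inv, norm_norm,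
      inv_mul_cancel₀ (norm_ne_zero_iff.2 hy)]
  have h3 := (ContMDiff.codRestrict_sphere (n := 2) h1 h2) (⟨x, h⟩ : U)
  have h4 : (fun y : U => SA_pr y) = (Set.codRestrict (fun y : U => ‖(y : E3)‖⁻¹ • (y : E3)) (sphere (0 : E3) 1) h2 : U → S2) := by
    funext y
    apply Subtype.ext
    exact SA_pr_coe y.2
  have h5 : ContMDiffAt 𝓘(ℝ, E3) (𝓡 2) 1 (fun y : U => SA_pr y) (⟨x, h⟩ : U) := by
    rw [h4]; exact h3
  exact contMDiffAt_subtype_iff.1 h5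

/-- the homogeneous extension -/
private noncomputable def SA_F (f : S2 → S2) (x : E3) : E3 := ‖x‖ • (f (SA_pr x) : E3)

private theorem SA_F_norm (f : S2 → S2) (x : E3) : ‖SA_F f x‖ = ‖x‖ := by
  have h1 : ‖(f (SA_pr x) : E3)‖ = 1 := by simpa using (f (SA_pr x)).2
  rw [SA_F, norm_smul, h1, norm_norm, mul_one]

private theorem SA_F_ne {f : S2 → S2} {x : E3} (h : x ≠ 0) : SA_F f x ≠ 0 := by
  rw [← norm_ne_zero_iff, SA_F_norm]; exact norm_ne_zero_iff.2 h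

private theorem SA_pr_F {f : S2 → S2} {x : E3} (h : x ≠ 0) : SA_pr (SA_F f x) = f (SA_pr x) := by
  have h1 : ‖(f (SA_pr x) : E3)‖ = 1 := by simpa using (f (SA_pr x)).2
  have h0 : (f (SA_pr x) : E3) ≠ 0 := by
    intro h; rw [h] at h1; simp at h1
  rw [SA_F, SA_pr_smul h0 (norm_pos_iff.2 h), SA_pr_self]

private theorem SA_F_inv {f fi : S2 → S2} (hfif : ∀ x, fi (f x) = x) {x : E3} (h : x ≠ 0) :
    SA_F fi (SA_F f x) = x := by
  rw [SA_F, SA_F_norm, SA_pr_F h, hfif, SA_pr_coe h, smul_smul,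
    mul_inv_cancel₀ (norm_ne_zero_iff.2 h), one_smul]

private theorem SA_det3 (L : E3 →ₗ[ℝ] E3) (a b c : E3) :
    det3 (L a) (L b) (L c) = LinearMap.det L * det3 a b c := by
  have key : ∀ a b c : E3, (EuclideanSpace.basisFun (Fin 3) ℝ).toBasis.det ![a, b, c] = det3 a b c := by
    intro a b c
    rw [Module.Basis.det_apply, det3, ← Matrix.det_transpose]
    congr 1
    ext i j
    fin_cases i <;> fin_cases j <;> simp [Module.Basis.toMatrix_apply]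
  rw [← key, ← key, ← Module.Basis.det_comp]
  congr 1
  ext i
  fin_cases i <;> rfl

/-- two vectors orthogonal to a unit vector with nonzero determinant -/
private theorem SA_vec (x : E3) (hx : x ≠ 0) : ∃ v w : E3, inner ℝ x v = 0 ∧ inner ℝ x w = 0 ∧
    det3 x v w ≠ 0 := by
  have hx' : x 0 ≠ 0 ∨ x 1 ≠ 0 ∨ x 2 ≠ 0 := by
    by_contra hc
    push Not at hc
    apply hx
    ext i
    fin_cases i
    · exact hc.1
    · exact hc.2.1
    · exact hc.2.2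
  by_cases h01 : x 0 = 0 ∧ x 1 = 0
  · have h2 : x 2 ≠ 0 := by tauto
    refine ⟨!₂[1, 0, 0], !₂[0, 1, 0], ?_, ?_, ?_⟩
    · simp [PiLp.inner_apply, Fin.sum_univ_three, h01.1, h01.2]
    · simp [PiLp.inner_apply, Fin.sum_univ_three, h01.1, h01.2]
    · simp [det3, Matrix.det_fin_three, h01.1, h01.2, h2]
  · refine ⟨!₂[-x 1, x 0, 0], !₂[-(x 2 * x 0), -(x 2 * x 1), x 0 * x 0 + x 1 * x 1], ?_, ?_, ?_⟩
    · simp [PiLp.inner_apply, Fin.sum_univ_three]; ring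
    · simp [PiLp.inner_apply, Fin.sum_univ_three]; ring
    · have : det3 x !₂[-x 1, x 0, 0] !₂[-(x 2 * x 0), -(x 2 * x 1), x 0 * x 0 + x 1 * x 1] =
          (x 0 ^ 2 + x 1 ^ 2) * (x 0 ^ 2 + x 1 ^ 2 + x 2 ^ 2) := by
        simp [det3, Matrix.det_fin_three]; ring
      rw [this]
      have h1 : 0 < x 0 ^ 2 + x 1 ^ 2 := by
        rcases not_and_or.1 h01 with h | h
        · positivity
        · positivity
      have h2 : 0 < x 0 ^ 2 + x 1 ^ 2 + x 2 ^ 2 := by positivity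
      positivity

private theorem SA_G_diff {f : S2 → S2} (cf : ContMDiff (𝓡 2) (𝓡 2) 1 f) {x : E3} (h : x ≠ 0) :
    ContDiffAt ℝ 1 (fun y => (f (SA_pr y) : E3)) x := by
  rw [← contMDiffAt_iff_contDiffAt]
  have h1 : ContMDiffAt 𝓘(ℝ, E3) (𝓡 2) 1 (f ∘ SA_pr) x := cf.contMDiffAt.comp x (SA_pr_smooth h)
  have h2 : ContMDiff (𝓡 2) 𝓘(ℝ, E3) 1 (fun y : S2 => (y : E3)) := contMDiff_coe_sphere
  exact h2.contMDiffAt.comp x h1

private theorem SA_F_diff {f : S2 → S2} (cf : ContMDiff (𝓡 2) (𝓡 2) 1 f) {x : E3} (h : x ≠ 0) :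
    DifferentiableAt ℝ (SA_F f) x :=
  ((contDiffAt_norm ℝ h).smul (SA_G_diff cf h)).differentiableAt (by norm_num)

/-- the derivative along the ray -/
private theorem SA_F_ray {f : S2 → S2} (cf : ContMDiff (𝓡 2) (𝓡 2) 1 f) {x : E3} (h : x ≠ 0) :
    fderiv ℝ (SA_F f) x (SA_pr x : E3) = f (SA_pr x) := by
  have hx : 0 < ‖x‖ := norm_pos_iff.2 h
  have h1 : HasDerivAt (fun s : ℝ => x + s • (SA_pr x : E3)) (SA_pr x : E3) 0 := by
    simpa using ((hasDerivAt_id (0:ℝ)).smul_const (SA_pr x : E3)).const_add x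
  have h2 : HasFDerivAt (SA_F f) (fderiv ℝ (SA_F f) x) (x + (0:ℝ) • (SA_pr x : E3)) := by
    simpa using (SA_F_diff cf h).hasFDerivAt
  have h3 := h2.comp_hasDerivAt (0:ℝ) h1
  have h4 : HasDerivAt (fun s : ℝ => (‖x‖ + s) • (f (SA_pr x) : E3)) (f (SA_pr x) : E3) 0 := by
    simpa using (((hasDerivAt_id (0:ℝ)).const_add ‖x‖).smul_const (f (SA_pr x) : E3))
  have h5 : (SA_F f ∘ fun s : ℝ => x + s • (SA_pr x : E3)) =ᶠ[𝓝 0]
      (fun s : ℝ => (‖x‖ + s) • (f (SA_pr x) : E3)) := by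
    have : ∀ᶠ s : ℝ in 𝓝 0, -‖x‖ < s := lt_mem_nhds (by linarith)
    filter_upwards [this] with s hs
    have e1 : x + s • (SA_pr x : E3) = ((‖x‖ + s) * ‖x‖⁻¹) • x := by
      rw [SA_pr_coe h, smul_smul, add_mul, mul_inv_cancel₀ hx.ne', add_smul, one_smul]
    have e2 : 0 < (‖x‖ + s) * ‖x‖⁻¹ := mul_pos (by linarith) (inv_pos.2 hx)
    simp only [Function.comp]
    rw [e1, SA_F, SA_pr_smul h e2, norm_smul, Real.norm_of_nonneg e2.le]
    congr 1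
    field_simp
  exact (h3.congr_of_eventuallyEq h5.symm).unique h4

private theorem SA_norm_fderiv {x v : E3} (h : x ≠ 0) (hv : inner ℝ x v = 0) :
    fderiv ℝ (fun y : E3 => ‖y‖) x v = 0 := by
  have h1 : HasFDerivAt (fun y : E3 => ‖y‖) (fderiv ℝ (fun y : E3 => ‖y‖) x) x :=
    ((contDiffAt_norm ℝ h).differentiableAt (n := 1) (by norm_num)).hasFDerivAt
  have h2 : HasFDerivAt (fun y : E3 => ‖y‖ ^ 2) (2 • innerSL ℝ x) x := by
    simpa using (hasStrictFDerivAt_norm_sq x).hasFDerivAt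
  have h3 := (h1.pow 2).unique h2
  have h4 := DFunLike.congr_fun h3 v
  have hx : 0 < ‖x‖ := norm_pos_iff.2 h
  simp [hv, hx.ne'] at h4
  exact h4

/-- the derivative along tangent vectors -/
private theorem SA_F_tan {f : S2 → S2} (cf : ContMDiff (𝓡 2) (𝓡 2) 1 f) {x v : E3} (h : x ≠ 0)
    (hv : inner ℝ x v = 0) :
    ∃ e : TangentSpace (𝓡 2) (SA_pr x), emb (SA_pr x) e = v ∧
      fderiv ℝ (SA_F f) x v = emb (f (SA_pr x)) (mfderiv (𝓡 2) (𝓡 2) f (SA_pr x) e) := by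
  have hx : 0 < ‖x‖ := norm_pos_iff.2 h
  have hp : MDifferentiableAt 𝓘(ℝ, E3) (𝓡 2) SA_pr x := (SA_pr_smooth h).mdifferentiableAt (by norm_num)
  have hf : MDifferentiableAt (𝓡 2) (𝓡 2) f (SA_pr x) := cf.contMDiffAt.mdifferentiableAt (by norm_num)
  have hc : ContMDiff (𝓡 2) 𝓘(ℝ, E3) 1 (fun y : S2 => (y : E3)) := contMDiff_coe_sphere
  have hc' : ∀ z : S2, MDifferentiableAt (𝓡 2) 𝓘(ℝ, E3) (fun y : S2 => (y : E3)) z := fun z =>
    hc.contMDiffAt.mdifferentiableAt (by norm_num)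
  refine ⟨(‖x‖ • (mfderiv 𝓘(ℝ, E3) (𝓡 2) SA_pr x v : TangentSpace (𝓡 2) (SA_pr x)) : TangentSpace (𝓡 2) (SA_pr x)), ?_, ?_⟩
  · have h1 : mfderiv 𝓘(ℝ, E3) 𝓘(ℝ, E3) ((fun y : S2 => (y : E3)) ∘ SA_pr) x =
        (mfderiv (𝓡 2) 𝓘(ℝ, E3) (fun y : S2 => (y : E3)) (SA_pr x)).comp
          (mfderiv 𝓘(ℝ, E3) (𝓡 2) SA_pr x) := mfderiv_comp x (hc' _) hp
    rw [mfderiv_eq_fderiv] at h1
    have h2 : fderiv ℝ ((fun y : S2 => (y : E3)) ∘ SA_pr) x v = ‖x‖⁻¹ • v := by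
      have h3 : ((fun y : S2 => (y : E3)) ∘ SA_pr) =ᶠ[𝓝 x] (fun y : E3 => ‖y‖⁻¹ • y) := by
        filter_upwards [isOpen_compl_singleton.mem_nhds (show x ∈ ({0}ᶜ : Set E3) from h)] with y hy
        exact SA_pr_coe hy
      have h4 : HasFDerivAt (fun y : E3 => ‖y‖) (fderiv ℝ (fun y : E3 => ‖y‖) x) x :=
        ((contDiffAt_norm ℝ h).differentiableAt (n := 1) (by norm_num)).hasFDerivAt
      have h5 := ((hasDerivAt_inv hx.ne').comp_hasFDerivAt x h4).smul (hasFDerivAt_id x)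
      rw [h3.fderiv_eq]
      have h6 : HasFDerivAt (fun y : E3 => ‖y‖⁻¹ • y) _ x := h5
      rw [h6.fderiv]
      simp [SA_norm_fderiv h hv]
    have h7 := DFunLike.congr_fun h1 v
    have h7' : (‖x‖⁻¹ • v : E3) = ((mfderiv (𝓡 2) 𝓘(ℝ, E3) (fun y : S2 => (y : E3)) (SA_pr x)).comp
          (mfderiv 𝓘(ℝ, E3) (𝓡 2) SA_pr x)) v := h2.symm.trans h7
    have h8 : emb (SA_pr x) (‖x‖ • (mfderiv 𝓘(ℝ, E3) (𝓡 2) SA_pr x v : TangentSpace (𝓡 2) (SA_pr x)) : TangentSpace (𝓡 2) (SA_pr x)) = ‖x‖ • (‖x‖⁻¹ • v) := by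
      rw [h7', emb, map_smul]
      rfl
    rw [h8, smul_smul, mul_inv_cancel₀ hx.ne', one_smul]
  · have h1 : mfderiv 𝓘(ℝ, E3) 𝓘(ℝ, E3) ((fun y : S2 => (y : E3)) ∘ (f ∘ SA_pr)) x =
        (mfderiv (𝓡 2) 𝓘(ℝ, E3) (fun y : S2 => (y : E3)) (f (SA_pr x))).comp
          ((mfderiv (𝓡 2) (𝓡 2) f (SA_pr x)).comp (mfderiv 𝓘(ℝ, E3) (𝓡 2) SA_pr x)) := by
      rw [← mfderiv_comp x hf hp]
      exact mfderiv_comp x (hc' _) (hf.comp x hp)
    rw [mfderiv_eq_fderiv] at h1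
    have h4 : HasFDerivAt (fun y : E3 => ‖y‖) (fderiv ℝ (fun y : E3 => ‖y‖) x) x :=
      ((contDiffAt_norm ℝ h).differentiableAt (n := 1) (by norm_num)).hasFDerivAt
    have h5 : HasFDerivAt (fun y : E3 => (f (SA_pr y) : E3)) (fderiv ℝ ((fun y : S2 => (y : E3)) ∘ (f ∘ SA_pr)) x) x :=
      ((SA_G_diff cf h).differentiableAt (by norm_num)).hasFDerivAt
    have h6 : HasFDerivAt (SA_F f) _ x := h4.smul h5
    rw [h6.fderiv, h1]
    simp only [add_apply, smul_apply,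
      ContinuousLinearMap.smulRight_apply, SA_norm_fderiv h hv, zero_smul, add_zero]
    rw [emb, map_smul, map_smul]
    rfl

private theorem SA_det {f : S2 → S2} (cf : ContMDiff (𝓡 2) (𝓡 2) 1 f) {ρ : S2 → ℝ}
    (hf : PreservesArea ρ f) {x : E3} (h : x ≠ 0) :
    ρ (f (SA_pr x)) * (fderiv ℝ (SA_F f) x).det = ρ (SA_pr x) := by
  have hx : 0 < ‖x‖ := norm_pos_iff.2 h
  have h1 : ‖(SA_pr x : E3)‖ = 1 := by simp
  have h0 : (SA_pr x : E3) ≠ 0 := by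
    intro h; rw [h] at h1; simp at h1
  obtain ⟨v, w, hv, hw, hD⟩ := SA_vec (SA_pr x : E3) h0
  have hvx : ∀ u : E3, inner ℝ (SA_pr x : E3) u = 0 → inner ℝ x u = 0 := by
    intro u hu
    rw [SA_pr_coe h, inner_smul_left] at hu
    rcases mul_eq_zero.1 hu with h2 | h2
    · exfalso
      simp [hx.ne'] at h2
    · exact h2
  obtain ⟨e, he, he'⟩ := SA_F_tan cf h (hvx v hv)
  obtain ⟨g, hg, hg'⟩ := SA_F_tan cf h (hvx w hw)
  have h2 := hf (SA_pr x) e g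
  unfold areaForm at h2
  rw [← he', ← hg', he, hg, ← SA_F_ray cf h] at h2
  have h3 := SA_det3 (fderiv ℝ (SA_F f) x : E3 →ₗ[ℝ] E3) (SA_pr x : E3) v w
  simp only [ContinuousLinearMap.coe_coe] at h3
  rw [h3, ← mul_assoc] at h2
  exact mul_right_cancel₀ hD h2

private theorem SA_pr_meas : Measurable SA_pr := by
  apply measurable_of_continuousOn_compl_singleton (0 : E3)
  intro x hx
  exact (SA_pr_smooth hx).continuousAt.continuousWithinAt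


theorem exists_measure {f fi : S2 → S2} (cf : ContMDiff (𝓡 2) (𝓡 2) 1 f)
    (cfi : ContMDiff (𝓡 2) (𝓡 2) 1 fi) (hffi : ∀ x, f (fi x) = x) (hfif : ∀ x, fi (f x) = x)
    {ρ : S2 → ℝ} (hρ : Continuous ρ) (hρ0 : ∀ x, 0 < ρ x) (hf : PreservesArea ρ f) :
    ∃ ν : Measure S2, ν univ < ⊤ ∧ (∀ B, MeasurableSet B → ν (f '' B) = ν B) ∧
      ∀ O, IsOpen O → O.Nonempty → 0 < ν O := by
  classical
  set C : Set E3 := ball 0 1 \ {0} with hC
  have hCo : IsOpen C := isOpen_ball.sdiff isClosed_singleton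
  have hCm : MeasurableSet C := hCo.measurableSet
  have hC0 : ∀ x ∈ C, x ≠ 0 := fun x hx => hx.2
  have hCfin : volume C < ⊤ := lt_of_le_of_lt (measure_mono sdiff_subset) measure_ball_lt_top
  set R : S2 → ENNReal := fun x => ENNReal.ofReal (ρ x) with hR
  have hRm : Measurable R := ENNReal.measurable_ofReal.comp hρ.measurable
  set m : Measure E3 := (volume.restrict C).withDensity (R ∘ SA_pr) with hm
  have hval : ∀ B, MeasurableSet B → Measure.map SA_pr m B = ∫⁻ x in C ∩ SA_pr ⁻¹' B, R (SA_pr x) := by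
    intro B hB
    rw [Measure.map_apply SA_pr_meas hB, hm, withDensity_apply _ (SA_pr_meas hB),
      Measure.restrict_restrict (SA_pr_meas hB), inter_comm]
    rfl
  have hfc : Continuous f := cf.continuous
  have hfic : Continuous fi := cfi.continuous
  refine ⟨Measure.map SA_pr m, ?_, ?_, ?_⟩
  · rw [hval univ MeasurableSet.univ]
    obtain ⟨M, hM⟩ := (isCompact_range hρ).bddAbove
    calc ∫⁻ x in C ∩ SA_pr ⁻¹' univ, R (SA_pr x) ≤ ∫⁻ x in C ∩ SA_pr ⁻¹' univ, ENNReal.ofReal M := by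
          apply lintegral_mono
          intro x
          exact ENNReal.ofReal_le_ofReal (hM ⟨_, rfl⟩)
      _ = ENNReal.ofReal M * volume (C ∩ SA_pr ⁻¹' univ) := by
          rw [setLIntegral_const]
      _ < ⊤ := by
          apply ENNReal.mul_lt_top ENNReal.ofReal_lt_top
          simpa using hCfin
  · intro B hB
    have hfB : f '' B = fi ⁻¹' B := by
      ext y
      constructor
      · rintro ⟨x, hx, rfl⟩
        simpa [hfif] using hx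
      · intro hy
        exact ⟨fi y, hy, hffi y⟩
    have hfBm : MeasurableSet (f '' B) := by
      rw [hfB]; exact hfic.measurable hB
    rw [hval _ hfBm, hval _ hB]
    have himg : C ∩ SA_pr ⁻¹' (f '' B) = SA_F f '' (C ∩ SA_pr ⁻¹' B) := by
      ext y
      constructor
      · rintro ⟨hyC, hy⟩
        have hy0 := hC0 y hyC
        have hF : SA_F f (SA_F fi y) = y := SA_F_inv hffi hy0
        refine ⟨SA_F fi y, ⟨⟨?_, SA_F_ne hy0⟩, ?_⟩, hF⟩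
        · rw [mem_ball_zero_iff, SA_F_norm]
          exact mem_ball_zero_iff.1 hyC.1
        · rw [mem_preimage, SA_pr_F hy0]
          rw [hfB] at hy
          exact hy
      · rintro ⟨x, ⟨hxC, hx⟩, rfl⟩
        have hx0 := hC0 x hxC
        refine ⟨⟨?_, SA_F_ne hx0⟩, ?_⟩
        · rw [mem_ball_zero_iff, SA_F_norm]
          exact mem_ball_zero_iff.1 hxC.1
        · rw [mem_preimage, SA_pr_F hx0]
          exact ⟨_, hx, rfl⟩
    have hinj : InjOn (SA_F f) (C ∩ SA_pr ⁻¹' B) := by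
      intro x hx y hy hxy
      rw [← SA_F_inv hfif (hC0 x hx.1), hxy, SA_F_inv hfif (hC0 y hy.1)]
    rw [himg, lintegral_image_eq_lintegral_abs_det_fderiv_mul volume
      (hCm.inter (SA_pr_meas hB)) (fun x hx => (SA_F_diff cf (hC0 x hx.1)).hasFDerivAt.hasFDerivWithinAt)
      hinj]
    apply setLIntegral_congr_fun (hCm.inter (SA_pr_meas hB))
    intro x hx
    have hx0 := hC0 x hx.1
    have hd := SA_det cf hf hx0
    have hdp : 0 < (fderiv ℝ (SA_F f) x).det := by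
      have h1 := hρ0 (SA_pr x)
      rw [← hd] at h1
      exact pos_of_mul_pos_right h1 (hρ0 _).le
    simp only [hR]
    rw [abs_of_pos hdp, SA_pr_F hx0, ← ENNReal.ofReal_mul hdp.le, mul_comm, hd]
  · intro O hO hOne
    rw [hval O hO.measurableSet]
    have hopen : IsOpen (C ∩ SA_pr ⁻¹' O) := by
      rw [isOpen_iff_mem_nhds]
      rintro x ⟨hx, hxO⟩
      exact Filter.inter_mem (hCo.mem_nhds hx)
        ((SA_pr_smooth (hC0 x hx)).continuousAt.preimage_mem_nhds (hO.mem_nhds hxO))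
    obtain ⟨y, hy⟩ := hOne
    have hne : (C ∩ SA_pr ⁻¹' O).Nonempty := by
      have h1 : ‖(y : E3)‖ = 1 := by simp
      have h0 : (y : E3) ≠ 0 := by
        intro h; rw [h] at h1; simp at h1
      refine ⟨(1/2 : ℝ) • (y : E3), ⟨?_, ?_⟩, ?_⟩
      · rw [mem_ball_zero_iff, norm_smul, h1]; norm_num
      · exact smul_ne_zero (by norm_num) h0
      · rw [mem_preimage, SA_pr_smul h0 (by norm_num), SA_pr_self]; exact hy
    have hpos : 0 < volume (C ∩ SA_pr ⁻¹' O) := hopen.measure_pos volume hne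
    obtain ⟨z, hz⟩ := hρ.exists_forall_le' (x₀ := y) (by
      have : cocompact S2 = ⊥ := by simp
      rw [this]; exact Filter.eventually_bot)
    calc 0 < ENNReal.ofReal (ρ z) * volume (C ∩ SA_pr ⁻¹' O) :=
          ENNReal.mul_pos (by simpa using hρ0 z) hpos.ne'
      _ = ∫⁻ x in C ∩ SA_pr ⁻¹' O, ENNReal.ofReal (ρ z) := by rw [setLIntegral_const]
      _ ≤ ∫⁻ x in C ∩ SA_pr ⁻¹' O, R (SA_pr x) := by
          apply lintegral_mono
          intro x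
          exact ENNReal.ofReal_le_ofReal (hz _)

end DS

end S_H36_DS_SA

section S_H36_DS_SB

/-!
SB.  `det_one`: the iterates preserve the area form (chain rule for `mfderiv`, `f` is differentiable).  At a point
with `f^[n] P = P` the differential `D = iterDeriv f n P` satisfies `ρ P * det3 P (emb P (D v)) (emb P (D w)) =
ρ P * det3 P (emb P v) (emb P w)`; the right side is a nonzero alternating bilinear form on the two dimensional
tangent space (`emb P` is injective with values orthogonal to `P ≠ 0`, so `P, emb P v, emb P w` are independent for a basis), so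
`det D = 1`.
`sys_of`: collect (`f` and `f.symm` are `C^r` with `r ≥ 1`, so `C¹`; `exists_measure`).
-/

namespace DS
open Metric Set Filter Topology Function MeasureTheory
open scoped Manifold ContDiff

private theorem SB_det3 (p x y : E3) (a b c d : ℝ) :
    det3 p (a • x + b • y) (c • x + d • y) = (a * d - b * c) * det3 p x y := by
  simp [det3, Matrix.det_fin_three]
  ring

private theorem SB_basis (v : E2) : v = v 0 • (EuclideanSpace.single 0 1 : E2) +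
    v 1 • (EuclideanSpace.single 1 1 : E2) := by
  ext i
  fin_cases i <;> simp

/-- the determinant of a linear map of the plane and a pulled back area form -/
private theorem SB_alt (T : E2 →ₗ[ℝ] E3) (p : E3) (A : E2 →ₗ[ℝ] E2) (v w : E2) :
    det3 p (T (A v)) (T (A w)) = LinearMap.det A * det3 p (T v) (T w) := by
  set x : E2 := EuclideanSpace.single 0 1 with hx
  set y : E2 := EuclideanSpace.single 1 1 with hy
  have hdet : LinearMap.det A = (A x) 0 * (A y) 1 - (A y) 0 * (A x) 1 := by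
    rw [← LinearMap.det_toMatrix (EuclideanSpace.basisFun (Fin 2) ℝ).toBasis, Matrix.det_fin_two]
    simp [LinearMap.toMatrix_apply, hx, hy]
  have hT : ∀ u : E2, T u = u 0 • T x + u 1 • T y := by
    intro u
    conv_lhs => rw [SB_basis u]
    rw [map_add, map_smul, map_smul]
  have hA : ∀ u : E2, A u = u 0 • A x + u 1 • A y := by
    intro u
    conv_lhs => rw [SB_basis u]
    rw [map_add, map_smul, map_smul]
  rw [hT (A v), hT (A w), hT v, hT w, SB_det3, SB_det3, hdet, hA v, hA w]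
  simp only [PiLp.add_apply, PiLp.smul_apply, smul_eq_mul]
  ring

/-- two vectors orthogonal to a vector with nonzero determinant -/
private theorem SB_vec (x : E3) (hx : x ≠ 0) : ∃ v w : E3, inner ℝ x v = 0 ∧ inner ℝ x w = 0 ∧
    det3 x v w ≠ 0 := by
  have hx' : x 0 ≠ 0 ∨ x 1 ≠ 0 ∨ x 2 ≠ 0 := by
    by_contra hc
    push Not at hc
    apply hx
    ext i
    fin_cases i
    · exact hc.1
    · exact hc.2.1
    · exact hc.2.2
  by_cases h01 : x 0 = 0 ∧ x 1 = 0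
  · have h2 : x 2 ≠ 0 := by tauto
    refine ⟨!₂[1, 0, 0], !₂[0, 1, 0], ?_, ?_, ?_⟩
    · simp [PiLp.inner_apply, Fin.sum_univ_three, h01.1, h01.2]
    · simp [PiLp.inner_apply, Fin.sum_univ_three, h01.1, h01.2]
    · simp [det3, Matrix.det_fin_three, h01.1, h01.2, h2]
  · refine ⟨!₂[-x 1, x 0, 0], !₂[-(x 2 * x 0), -(x 2 * x 1), x 0 * x 0 + x 1 * x 1], ?_, ?_, ?_⟩
    · simp [PiLp.inner_apply, Fin.sum_univ_three]; ring
    · simp [PiLp.inner_apply, Fin.sum_univ_three]; ring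
    · have : det3 x !₂[-x 1, x 0, 0] !₂[-(x 2 * x 0), -(x 2 * x 1), x 0 * x 0 + x 1 * x 1] =
          (x 0 ^ 2 + x 1 ^ 2) * (x 0 ^ 2 + x 1 ^ 2 + x 2 ^ 2) := by
        simp [det3, Matrix.det_fin_three]; ring
      rw [this]
      have h1 : 0 < x 0 ^ 2 + x 1 ^ 2 := by
        rcases not_and_or.1 h01 with h | h
        · positivity
        · positivity
      have h2 : 0 < x 0 ^ 2 + x 1 ^ 2 + x 2 ^ 2 := by positivity
      positivity

private theorem SB_iter {f : S2 → S2} (cf : ContMDiff (𝓡 2) (𝓡 2) 1 f) (k : ℕ) :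
    ContMDiff (𝓡 2) (𝓡 2) 1 (f^[k]) := by
  induction k with
  | zero => exact contMDiff_id
  | succ k ih =>
    rw [Function.iterate_succ']
    exact cf.comp ih

private theorem SB_comp {f g : S2 → S2} (cf : ContMDiff (𝓡 2) (𝓡 2) 1 f)
    (cg : ContMDiff (𝓡 2) (𝓡 2) 1 g) {ρ : S2 → ℝ} (hf : PreservesArea ρ f)
    (hg : PreservesArea ρ g) : PreservesArea ρ (f ∘ g) := by
  intro x v w
  have h1 : mfderiv (𝓡 2) (𝓡 2) (f ∘ g) x =
      (mfderiv (𝓡 2) (𝓡 2) f (g x)).comp (mfderiv (𝓡 2) (𝓡 2) g x) :=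
    mfderiv_comp x (cf.mdifferentiable (by norm_num) (g x)) (cg.mdifferentiable (by norm_num) x)
  rw [h1]
  exact (hf (g x) _ _).trans (hg x v w)

private theorem SB_pres {f : S2 → S2} (cf : ContMDiff (𝓡 2) (𝓡 2) 1 f) {ρ : S2 → ℝ}
    (hf : PreservesArea ρ f) (k : ℕ) : PreservesArea ρ (f^[k]) := by
  induction k with
  | zero =>
    intro x v w
    rw [Function.iterate_zero, mfderiv_id]
    rfl
  | succ k ih =>
    rw [Function.iterate_succ']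
    exact SB_comp cf (SB_iter cf k) hf ih

theorem det_one {f : S2 → S2} (cf : ContMDiff (𝓡 2) (𝓡 2) 1 f) {ρ : S2 → ℝ}
    (hρ0 : ∀ x, 0 < ρ x) (hf : PreservesArea ρ f) (P : S2) (n : ℕ) (hP : f^[n] P = P) :
    (iterDeriv f n P).det = 1 := by
  set A : E2 →L[ℝ] E2 := iterDeriv f n P with hA
  have h1 : ∀ (y : S2), y = f^[n] P → ∀ v w : E2, ρ y * det3 y (emb y (A v)) (emb y (A w)) =
      ρ P * det3 P (emb P v) (emb P w) := by
    rintro y rfl v w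
    exact SB_pres cf hf n P v w
  have h2 := h1 P hP.symm
  let T' : E2 →L[ℝ] E3 := mfderiv (𝓡 2) 𝓘(ℝ, E3) (fun y : S2 => (y : E3)) P
  set T : E2 →ₗ[ℝ] E3 := (T' : E2 →ₗ[ℝ] E3) with hT
  have hTe : ∀ v : E2, emb P v = T v := fun v => rfl
  have hPn : ‖(P : E3)‖ = 1 := by simp
  have hP0 : (P : E3) ≠ 0 := by
    intro h
    rw [h] at hPn
    simp at hPn
  obtain ⟨v, w, hv, hw, hD⟩ := SB_vec (P : E3) hP0
  have hrange := range_mfderiv_coe_sphere (n := 2) P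
  have hmem : ∀ u : E3, inner ℝ (P : E3) u = 0 → ∃ e : E2, T e = u := by
    intro u hu
    have h3 : u ∈ (ℝ ∙ (P : E3))ᗮ := by
      rw [Submodule.mem_orthogonal_singleton_iff_inner_right]
      exact hu
    rw [← hrange] at h3
    obtain ⟨e, he⟩ := h3
    exact ⟨e, he⟩
  obtain ⟨a, rfl⟩ := hmem v hv
  obtain ⟨b, rfl⟩ := hmem w hw
  have h4 := h2 a b
  rw [hTe, hTe, hTe, hTe] at h4
  have h5 := SB_alt T P (A : E2 →ₗ[ℝ] E2) a b
  simp only [ContinuousLinearMap.coe_coe] at h5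
  rw [h5] at h4
  have h6 := mul_left_cancel₀ (hρ0 P).ne' h4
  have h7 : LinearMap.det (A : E2 →ₗ[ℝ] E2) = 1 := by
    have h8 : LinearMap.det (A : E2 →ₗ[ℝ] E2) * det3 P (T a) (T b) = 1 * det3 P (T a) (T b) := by
      rw [one_mul]
      exact h6
    exact mul_right_cancel₀ hD h8
  exact h7

theorem sys_of (r : WithTop ℕ∞) (hr : 1 ≤ r) (f : Diffeomorph (𝓡 2) (𝓡 2) S2 S2 r) (ρ : S2 → ℝ)
    (hρ : Continuous ρ) (hρ0 : ∀ x, 0 < ρ x) (hf : PreservesArea ρ f) (h1 : Cond1 f)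
    (h2 : Cond2 f f.symm) : ∃ ν : Measure S2, Sys f f.symm ν := by
  have cf : ContMDiff (𝓡 2) (𝓡 2) 1 f := f.contMDiff.of_le hr
  have cfi : ContMDiff (𝓡 2) (𝓡 2) 1 f.symm := f.symm.contMDiff.of_le hr
  obtain ⟨ν, hν1, hν2, hν3⟩ := exists_measure cf cfi f.apply_symm_apply f.symm_apply_apply hρ hρ0 hf
  exact ⟨ν, ⟨cf, cfi, f.apply_symm_apply, f.symm_apply_apply, hν1, hν2, hν3,
    fun P n hP => det_one cf hρ0 hf P n hP, h1, h2⟩⟩

end DS

end S_H36_DS_SB
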