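import Mathlib
import Pool.Agent.H12.KS.K22
import Pool.Agent.H12.KS.K28
import Pool.Agent.H12.KS.K31
import Pool.Agent.H12.KS.K32
import Pool.Agent.H12.KS.K34
import Pool.Agent.H12.KS.K37
import Pool.Agent.H12.KS.K39
import Pool.Agent.H12.KS.K40
import Pool.Agent.H12.KS.K53

/-! Joined modules of the proof of MP_8a27c0_an (one section per module). -/

section S_H36_DS_TA

/-!
TA (components of an invariant open set are periodic).  Proof.  `f` maps connected components of `U` onto connected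
components of `U` (`f '' U = U`, homeomorphism): `f^[n] '' (connectedComponentIn U x) = connectedComponentIn U (f^[n] x)`.
All these sets are open (`IsOpen.connectedComponentIn`, locally connected) and have the same measure, positive and finite.
If they were pairwise disjoint for different `n` the total measure would be infinite (`tsum` of a positive constant); so
`f^[n] '' V ∩ f^[m] '' V ≠ ∅` for some `n < m`; then the two components are equal, and applying the inverse `n` times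
`f^[m - n] '' V = V`.
-/

namespace DS
open Metric Set Filter Topology Function MeasureTheory

theorem auxTA_iter {X : Type*} [TopologicalSpace X] {f fi : X → X} (hf : Continuous f)
    (hfi : Continuous fi) (hffi : ∀ x, f (fi x) = x) (hfif : ∀ x, fi (f x) = x) {U : Set X}
    (hfU : f '' U = U) {x : X} (hx : x ∈ U) (n : ℕ) :
    f^[n] x ∈ U ∧ f^[n] '' connectedComponentIn U x = connectedComponentIn U (f^[n] x) := by
  let h : X ≃ₜ X := { toFun := f, invFun := fi, left_inv := hfif, right_inv := hffi,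
                      continuous_toFun := hf, continuous_invFun := hfi }
  induction n with
  | zero => simpa using hx
  | succ n ih =>
    obtain ⟨ih1, ih2⟩ := ih
    constructor
    · rw [iterate_succ', comp_apply, ← hfU]
      exact mem_image_of_mem f ih1
    · rw [iterate_succ', image_comp, ih2, comp_apply]
      have := h.image_connectedComponentIn ih1
      change f '' connectedComponentIn U (f^[n] x) = connectedComponentIn (f '' U) (f (f^[n] x))
        at this
      rw [this, hfU]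

theorem component_periodic {X : Type*} [TopologicalSpace X] [LocallyConnectedSpace X]
    [MeasurableSpace X] [BorelSpace X] (ν : Measure X) (hfin : ν univ < ⊤)
    (hpos : ∀ O : Set X, IsOpen O → O.Nonempty → 0 < ν O) {f fi : X → X} (hf : Continuous f)
    (hfi : Continuous fi) (hffi : ∀ x, f (fi x) = x) (hfif : ∀ x, fi (f x) = x)
    (hν : ∀ B, MeasurableSet B → ν (f '' B) = ν B) {U : Set X} (hU : IsOpen U)
    (hfU : f '' U = U) {x : X} (hx : x ∈ U) :
    ∃ q, 0 < q ∧ f^[q] '' connectedComponentIn U x = connectedComponentIn U x := by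
  set V := connectedComponentIn U x with hV
  have hit := auxTA_iter hf hfi hffi hfif hfU hx
  have hopen : ∀ n, IsOpen (f^[n] '' V) := by
    intro n
    rw [(hit n).2]
    exact hU.connectedComponentIn
  have hmeas : ∀ n, ν (f^[n] '' V) = ν V := by
    intro n
    induction n with
    | zero => simp
    | succ n ih =>
      rw [iterate_succ', image_comp, hν _ (hopen n).measurableSet, ih]
  have hVpos : 0 < ν V := by
    apply hpos V hU.connectedComponentIn
    exact ⟨x, mem_connectedComponentIn hx⟩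
  have htsum : ν univ < ∑' n, ν (f^[n] '' V) := by
    simp only [hmeas]
    rw [ENNReal.tsum_const_eq_top_of_ne_zero hVpos.ne']
    exact hfin
  obtain ⟨n, m, hnm, z, hz1, hz2⟩ := exists_nonempty_inter_of_measure_univ_lt_tsum_measure ν
    (fun n => (hopen n).measurableSet.nullMeasurableSet) htsum
  have hinj : Injective f := fun a b hab => by rw [← hfif a, ← hfif b, hab]
  have key : ∀ n m : ℕ, n < m → z ∈ f^[n] '' V → z ∈ f^[m] '' V →
      ∃ q, 0 < q ∧ f^[q] '' V = V := by
    intro n m hlt h1 h2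
    refine ⟨m - n, by omega, ?_⟩
    have h3 : f^[n] '' V = f^[m] '' V := by
      rw [(hit n).2] at h1 ⊢
      rw [(hit m).2] at h2 ⊢
      rw [connectedComponentIn_eq h1, connectedComponentIn_eq h2]
    have h4 : f^[n] '' (f^[m - n] '' V) = f^[n] '' V := by
      rw [← image_comp, ← iterate_add, h3]
      congr 2
      omega
    exact (hinj.iterate n).image_injective h4
  rcases lt_or_gt_of_ne hnm with h | h
  · exact key n m h hz1 hz2
  · exact key m n h hz2 hz1

end DS

end S_H36_DS_TA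

section S_H36_DS_TCA

/-!
TCA (compactness near the circle; separation of finitely many compact sets).  Plain Mathlib.
-/

namespace DS
open Metric Set Filter Topology

theorem far_circle {F : ℂ → ℝ} (hF : ContinuousOn F (closedBall 0 1))
    (hpos : ∀ z ∈ sphere (0:ℂ) 1, 0 < F z) :
    ∃ ρ : ℝ, 0 < ρ ∧ ρ < 1 ∧ ∃ c > 0, ∀ z : ℂ, ρ ≤ ‖z‖ → ‖z‖ ≤ 1 → c ≤ F z := by
  have hsc : IsCompact (sphere (0:ℂ) 1) := isCompact_sphere 0 1
  have hsub : sphere (0:ℂ) 1 ⊆ closedBall 0 1 := sphere_subset_closedBall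
  obtain ⟨z₀, hz₀, hmin⟩ := hsc.exists_isMinOn ⟨1, by simp⟩ (hF.mono hsub)
  set c := F z₀ / 2 with hc
  have hc0 : 0 < c := by have := hpos z₀ hz₀; positivity
  -- the compact set where `F` is small
  have hT : IsCompact (closedBall (0:ℂ) 1 ∩ F ⁻¹' Iic c) := by
    apply (isCompact_closedBall (0:ℂ) 1).of_isClosed_subset _ inter_subset_left
    exact hF.preimage_isClosed_of_isClosed isClosed_closedBall isClosed_Iic
  rcases (closedBall (0:ℂ) 1 ∩ F ⁻¹' Iic c).eq_empty_or_nonempty with he | hne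
  · refine ⟨1 / 2, by norm_num, by norm_num, c, hc0, fun z _ hz => ?_⟩
    by_contra h
    push Not at h
    have : z ∈ closedBall (0:ℂ) 1 ∩ F ⁻¹' Iic c := ⟨by simpa using hz, h.le⟩
    rw [he] at this
    exact this
  · obtain ⟨w, hw, hmax⟩ := hT.exists_isMaxOn hne continuous_norm.continuousOn
    have hw1 : ‖w‖ < 1 := by
      have h1 : ‖w‖ ≤ 1 := by simpa using hw.1
      rcases h1.lt_or_eq with h | h
      · exact h
      · exfalso
        have h2 : F z₀ ≤ F w := hmin (by simpa using h)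
        have h3 : F w ≤ c := hw.2
        linarith
    refine ⟨(1 + ‖w‖) / 2, by positivity, by linarith, c, hc0, fun z hz hz1 => ?_⟩
    by_contra h
    push Not at h
    have h1 : ‖z‖ ≤ ‖w‖ := hmax (⟨by simpa using hz1, h.le⟩ : z ∈ closedBall (0:ℂ) 1 ∩ F ⁻¹' Iic c)
    linarith

theorem sep_open {m : ℕ} (K : Fin m → Set ℂ) (hK : ∀ i, IsCompact (K i))
    (hd : ∀ i j, i ≠ j → Disjoint (K i) (K j)) :
    ∃ N : Fin m → Set ℂ, (∀ i, IsOpen (N i)) ∧ (∀ i, K i ⊆ N i) ∧
      ∀ i j, i ≠ j → Disjoint (N i) (N j) := by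
  have h1 : ∀ i j, ∃ δ > 0, i ≠ j → Disjoint (thickening δ (K i)) (thickening δ (K j)) := by
    intro i j
    by_cases h : i = j
    · exact ⟨1, one_pos, fun h' => absurd h h'⟩
    · obtain ⟨δ, hδ, hdis⟩ := (hd i j h).exists_thickenings (hK i) (hK j).isClosed
      exact ⟨δ, hδ, fun _ => hdis⟩
  choose δ hδ hdis using h1
  obtain ⟨d, hd0, hdle⟩ : ∃ d > 0, ∀ i j, d ≤ δ i j := by
    rcases isEmpty_or_nonempty (Fin m) with he | hne
    · exact ⟨1, one_pos, fun i => (he.false i).elim⟩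
    · obtain ⟨p, hp⟩ := Finite.exists_min (fun p : Fin m × Fin m => δ p.1 p.2)
      exact ⟨δ p.1 p.2, hδ _ _, fun i j => hp (i, j)⟩
  refine ⟨fun i => thickening d (K i), fun i => isOpen_thickening,
    fun i => self_subset_thickening hd0 _, fun i j hij => ?_⟩
  exact (hdis i j hij).mono (thickening_mono (hdle i j) _) (thickening_mono (hdle i j) _)

end DS

end S_H36_DS_TCA

section S_H36_DS_SF

/-!
SF (no fixed prime ends, sphere case).  Proof.  `no_fixed_end` for `g = f^[m]`, `E = sphere 0 1`, `SP = SPt f`: the measure is finite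
and invariant under iterates; `hloc` for `m'`: the boundary map of `f^[m * m'] = (f^[m])^[m']` is `hb^[m']` (`endMap_iter`), so
`sphere_loc` applies (`2 * (m * m') = m * (2 * m')`, `f^[m * (2 * m')] = (f^[m])^[2 * m']`); `hnext` is trivial since `E` is
the whole circle; `spt_back` iterated.
-/

namespace DS
open Metric Set Filter Topology Function MeasureTheory
open scoped Manifold ContDiff

private theorem SF_image_iter {K : Set S2} {g : S2 → S2} (hgK : g '' K = K) (j : ℕ) :
    g^[j] '' K = K := by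
  induction j with
  | zero => simp
  | succ n ih => rw [Function.iterate_succ', image_comp, ih, hgK]

private theorem SF_maps {K : Set S2} {g gi : S2 → S2} (hgig : ∀ x, gi (g x) = x)
    (hgK : g '' K = K) : MapsTo g Kᶜ Kᶜ := by
  intro x hx hgx
  rw [← hgK] at hgx
  obtain ⟨y, hy, hyx⟩ := hgx
  have : y = x := by rw [← hgig y, hyx, hgig]
  exact hx (this ▸ hy)

private theorem SF_maps' {K : Set S2} {g gi : S2 → S2} (hggi : ∀ x, g (gi x) = x)
    (hgK : g '' K = K) : MapsTo gi Kᶜ Kᶜ := by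
  intro x hx hgx
  apply hx
  rw [← hggi x, ← hgK]
  exact ⟨_, hgx, rfl⟩

private theorem SF_nu_iter {f fi : S2 → S2} {ν : Measure S2} (hS : Sys f fi ν) (j : ℕ) :
    ∀ B, MeasurableSet B → ν (f^[j] '' B) = ν B := by
  have hc : Continuous f := hS.cf.continuous
  have hci : Continuous fi := hS.cfi.continuous
  induction j with
  | zero => intro B _; simp
  | succ n ih =>
    intro B hBm
    rw [Function.iterate_succ, image_comp]
    have h1 : f '' B = fi ⁻¹' B := by
      ext y
      constructor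
      · rintro ⟨x, hx, rfl⟩
        rw [mem_preimage, hS.fif]
        exact hx
      · intro hy
        exact ⟨fi y, hy, hS.ffi y⟩
    rw [ih (f '' B) (by rw [h1]; exact hci.measurable hBm), hS.inv B hBm]

private theorem SF_spt {f fi : S2 → S2} {ν : Measure S2} (hS : Sys f fi ν) (j : ℕ) {x : S2}
    (h : SPt f x) : SPt f (fi^[j] x) := by
  induction j with
  | zero => exact h
  | succ n ih =>
    rw [Function.iterate_succ_apply']
    exact spt_back hS ih

theorem sphere_no_fixed_end {f fi : S2 → S2} {ν : Measure S2} (hS : Sys f fi ν) {V K : Set S2}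
    (hC : CompK f V K) (hn : K.Nontrivial) {φ : ℂ → S2} {u : S2 → ℂ} (hD : DiscMap K φ u) {m : ℕ}
    (hm0 : 0 < m) (hm : f^[m] '' K = K) {hb hbi : ℂ → ℂ}
    (hE : EndMap φ u (f^[m]) (fi^[m]) hb hbi) : ∀ ζ ∈ sphere (0:ℂ) 1, hb ζ ≠ ζ := by
  have hgig : ∀ x, fi^[m] (f^[m] x) = x := Function.LeftInverse.iterate hS.fif m
  have hggi : ∀ x, f^[m] (fi^[m] x) = x := Function.LeftInverse.iterate hS.ffi m
  have hM1 : MapsTo (f^[m]) Kᶜ Kᶜ := SF_maps hgig hm
  have hM2 : MapsTo (fi^[m]) Kᶜ Kᶜ := SF_maps' hggi hm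
  refine no_fixed_end hC.K_closed hD (hS.cf.continuous.iterate m) (hS.cfi.continuous.iterate m)
    hggi hgig hm hE ν (fun B _ hB => SF_nu_iter hS m B hB) (fun O _ hO hO' => hS.pos O hO hO')
    (SP := SPt f) (fun x hx => SF_spt hS m hx) (Subset.refl _)
    (fun ζ _ => ⟨1, one_pos, inter_subset_left⟩) ?_ ?_ ?_ ?_
  · apply Subset.antisymm
    · rintro _ ⟨z, hz, rfl⟩
      exact hE.bs hz
    · intro z hz
      exact ⟨hbi z, hE.bis hz, hE.bbi z (sphere_subset_closedBall hz)⟩
  · intro ζ _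
    exact ⟨1, one_pos, lt_of_le_of_lt (measure_mono (subset_univ _)) hS.fin⟩
  · intro ζ hζ m' hm' hfix
    have hE' : EndMap φ u (f^[m * m']) (fi^[m * m']) (hb^[m']) (hbi^[m']) := by
      rw [Function.iterate_mul, Function.iterate_mul]
      exact endMap_iter hD hM1 hM2 hE m'
    have hK' : f^[m * m'] '' K = K := by
      rw [Function.iterate_mul]
      exact SF_image_iter hm m'
    obtain ⟨P, hP, hPr, h⟩ := sphere_loc hS hC hn hD (Nat.mul_pos hm0 hm') hK' hE'
      (mem_sphere_zero_iff_norm.1 hζ) hfix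
    refine ⟨P, hP, hPr, ?_⟩
    rcases h with h | ⟨P', χ, κ, r, lp, km, kp, h⟩
    · left
      rw [← Function.iterate_mul]
      exact h
    · right
      refine ⟨P', χ, κ, r, lp, km, kp, ?_⟩
      rw [← Function.iterate_mul]
      have : m * (2 * m') = 2 * (m * m') := by ring
      rw [this]
      exact h
  · intro ζ _ m' _ _ J _ _ _ _ e he _
    exact he

end DS

end S_H36_DS_SF

section S_H36_DS_TCB

/-!
TCB (Star property of an invariant component with more than one point).  Proof.  `K` is one of the components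
(`hK.1` : `K = connectedComponentIn Vᶜ x`), `hC := hV.compK' hK : CompK f V K`, `Kᶜ` is connected (`hV.compl_conn`), `O ∈ Kᶜ`.
1. As in the proof of `sphere_plane` in `NA.lean` (copy): `p '' K` is compact, connected, nontrivial, and its complement is connected
(`punctured_connected`); `k₀ ∈ p '' K`, `K₀ = (p '' K) - k₀` (copy `NA_trans`): `g7 : (fun z => k₀ + z) '' K₀ = p '' K`;
`ext_map` gives `hE : ExtMap K₀ ψ v`; `discMap_ext` with `g7` and `q '' (p '' K) = K` gives `hD : DiscMap K φ u` with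
`φ = fun z => if z = 0 then O else q (k₀ + (ψ z)⁻¹)`, `u = fun x => if x = O then 0 else v ((p x - k₀)⁻¹)`.
2. `end_homeo hC.K_closed hD` (for `g = f^[m]`, `gi = fi^[m]`, `hS.cf.continuous.iterate m`, `iter_fif`, `hK.2`) gives
`hb, hbi, hEM : EndMap φ u (f^[m]) (fi^[m]) hb hbi`, and `sphere_no_fixed_end hS hC hn hD hV.hm hK.2 hEM` gives `hb ζ ≠ ζ` on the circle.
3. `far_circle` for `F z = min ‖hb z - z‖ ‖hb z‖` (continuous on the closed disc by `hEM.bc`; positive on the circle, where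
`‖hb z‖ = 1` by `hEM.bs`) gives `ρ₀, c`; `far_circle` for `F z = ‖hb z‖ - (1 - ε)` gives `hlim`.
4. `star_nontrivial g1 g2 g5 hE k₀ hρ₀ hρ₀' hc (h := hb)` with `g z = p (f^[m] (q z))`: `ContinuousOn hb` from `hEM.bc`; for
`ρ₀ ≤ ‖z‖ < 1`: `‖hb z‖ < 1` by `hEM.bo`; `hb z ≠ 0` as `c ≤ ‖hb z‖`; the conjugacy: `z ≠ 0`, `φ z = q (k₀ + (ψ z)⁻¹)`,
`hb z = u (f^[m] (φ z))` (`hEM.be`), so `φ (hb z) = f^[m] (φ z)` (`hD.φu`, since `f^[m] (φ z) ∉ K`: `f^[m]` is injective and maps `K` onto
`K`), and `φ (hb z) = q (k₀ + (ψ (hb z))⁻¹)` as `hb z ≠ 0`; apply `p` (`hC'.pq`).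
-/

namespace DS
open Metric Set Filter Topology Function MeasureTheory
open scoped Manifold ContDiff

private theorem TCB_trans {K : Set ℂ} (hK : IsCompact K) (hc : IsConnected K) (hcc : IsConnected Kᶜ)
    (hn : K.Nontrivial) {k₀ : ℂ} (hk₀ : k₀ ∈ K) :
    ∃ K₀ : Set ℂ, IsCompact K₀ ∧ IsConnected K₀ ∧ IsConnected K₀ᶜ ∧ K₀.Nontrivial ∧ (0:ℂ) ∈ K₀ ∧
      (∀ z, z ∈ K₀ ↔ k₀ + z ∈ K) ∧ (fun z => k₀ + z) '' K₀ = K := by
  have hiff : ∀ z, z ∈ (fun z => z - k₀) '' K ↔ k₀ + z ∈ K := by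
    intro z
    constructor
    · rintro ⟨w, hw, rfl⟩
      simpa using hw
    · intro h
      exact ⟨k₀ + z, h, by simp⟩
  have hcont : Continuous (fun z : ℂ => z - k₀) := continuous_id.sub continuous_const
  refine ⟨(fun z => z - k₀) '' K, hK.image hcont, hc.image _ hcont.continuousOn, ?_, ?_, ?_, hiff, ?_⟩
  · have : ((fun z => z - k₀) '' K)ᶜ = (fun z => z - k₀) '' Kᶜ := by
      ext z
      rw [mem_compl_iff, hiff]
      constructor
      · intro h
        exact ⟨k₀ + z, h, by simp⟩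
      · rintro ⟨w, hw, rfl⟩
        simpa using hw
    rw [this]
    exact hcc.image _ hcont.continuousOn
  · exact hn.image (fun a b h => by simpa using h)
  · exact ⟨k₀, hk₀, by simp⟩
  · ext z
    constructor
    · rintro ⟨w, hw, rfl⟩
      exact (hiff w).mp hw
    · intro h
      exact ⟨z - k₀, ⟨z, h, rfl⟩, by simp⟩

theorem star_comp_nontrivial {f fi : S2 → S2} {ν : Measure S2} (hS : Sys f fi ν) {m : ℕ}
    {V : Set S2} (hV : InvV f m V) {O : S2} {p : S2 → ℂ} {q : ℂ → S2} (hO : O ∈ V)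
    (hpq : SC O p q) {K : Set S2} (hK : K ∈ invComp (f^[m]) V) (hn : K.Nontrivial) {k : ℂ}
    (hk : k ∈ p '' K) : Star (fun z => p (f^[m] (q z))) k (p '' K) := by
  have hC : CompK f V K := hV.compK' hK
  have hcc : IsConnected Kᶜ := by
    obtain ⟨⟨x, hx, rfl⟩, -⟩ := hK
    exact hV.compl_conn hx
  have hOK : O ∉ K := fun h => disjoint_left.mp hC.K_V h hO
  have hKO : K ⊆ {O}ᶜ := fun x hx h => hOK (by rw [mem_singleton_iff] at h; exact h ▸ hx)
  have hpK : ContinuousOn p K := hpq.p_smooth.continuousOn.mono hKO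
  have h1 : IsCompact (p '' K) := hC.K_closed.isCompact.image_of_continuousOn hpK
  have h2 : IsConnected (p '' K) := hC.K_conn.image _ hpK
  have hiff : ∀ z, z ∈ p '' K ↔ q z ∈ K := by
    intro z
    constructor
    · rintro ⟨x, hx, rfl⟩
      rw [hpq.qp x (hKO hx)]
      exact hx
    · intro h
      exact ⟨q z, h, hpq.pq z⟩
  have h3 : IsConnected (p '' K)ᶜ := by
    have h4 : IsConnected (Kᶜ \ {O}) := punctured_connected hpq hC.K_closed.isOpen_compl hcc hOK
    have h5 : (p '' K)ᶜ = p '' (Kᶜ \ {O}) := by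
      ext z
      rw [mem_compl_iff, hiff]
      constructor
      · intro h
        exact ⟨q z, ⟨h, hpq.q_ne z⟩, hpq.pq z⟩
      · rintro ⟨x, ⟨hx, hxO⟩, rfl⟩
        rw [hpq.qp x hxO]
        exact hx
    rw [h5]
    exact h4.image _ (hpq.p_smooth.continuousOn.mono fun x hx => hx.2)
  have h4 : (p '' K).Nontrivial := by
    obtain ⟨a, ha, b, hb, hab⟩ := hn
    refine ⟨p a, ⟨a, ha, rfl⟩, p b, ⟨b, hb, rfl⟩, fun h => hab ?_⟩
    rw [← hpq.qp a (hKO ha), ← hpq.qp b (hKO hb), h]
  obtain ⟨k₀, hk₀⟩ := h2.nonempty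
  obtain ⟨K₀, g1, g2, g3, g4, g5, g6, g7⟩ := TCB_trans h1 h2 h3 h4 hk₀
  obtain ⟨ψ, v, hE⟩ := ext_map g1 g2 g5 g4 g3
  have hD := discMap_ext hpq g1 g2 g5 g4 hE k₀
  rw [g7] at hD
  have hqK : q '' (p '' K) = K := by
    ext x
    constructor
    · rintro ⟨_, ⟨y, hy, rfl⟩, rfl⟩
      rw [hpq.qp y (hKO hy)]
      exact hy
    · intro hx
      exact ⟨p x, ⟨x, hx, rfl⟩, hpq.qp x (hKO hx)⟩
  rw [hqK] at hD
  set φ : ℂ → S2 := fun z => if z = 0 then O else q (k₀ + (ψ z)⁻¹) with hφ
  set u : S2 → ℂ := fun x => if x = O then 0 else v ((p x - k₀)⁻¹) with hu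
  obtain ⟨hb, hbi, hEM⟩ := end_homeo hC.K_closed hD (hS.cf.continuous.iterate m)
    (hS.cfi.continuous.iterate m) (iter_fif hS.ffi m) (iter_fif hS.fif m) hK.2
  have hnf := sphere_no_fixed_end hS hC hn hD hV.hm hK.2 hEM
  have hsph : ∀ z ∈ sphere (0:ℂ) 1, ‖hb z‖ = 1 := fun z hz => by
    have := hEM.bs hz
    rwa [mem_sphere_zero_iff_norm] at this
  -- step 3
  obtain ⟨ρ₀, hρ₀, hρ₀', c, hc, hfar⟩ := far_circle (F := fun z => min ‖hb z - z‖ ‖hb z‖)
    (ContinuousOn.inf (hEM.bc.sub continuousOn_id).norm hEM.bc.norm) (fun z hz => by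
      refine lt_min (norm_pos_iff.mpr (sub_ne_zero.mpr (hnf z hz))) ?_
      rw [hsph z hz]
      exact one_pos)
  have hinj : Injective (f^[m]) := Function.LeftInverse.injective (iter_fif hS.fif m)
  have hgK : ∀ x, x ∉ K → f^[m] x ∉ K := by
    intro x hx h
    have hx' : f^[m] x ∈ f^[m] '' K := by rw [hK.2]; exact h
    obtain ⟨y, hy, hyx⟩ := hx'
    exact hx (hinj hyx ▸ hy)
  intro N hN hKN
  have key := star_nontrivial g1 g2 g5 hE k₀ (g := fun z => p (f^[m] (q z))) (h := hb) hρ₀ hρ₀' hc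
    (hEM.bc.mono fun z hz => by
      rw [mem_closedBall_zero_iff]
      exact hz.2.le) ?_ ?_ hN (by rw [g7]; exact hKN) (k := k) (by rw [g7]; exact hk)
  · rw [g7] at key
    exact key
  · intro z hz1 hz2
    have hz : z ∈ ball (0:ℂ) 1 := by rw [mem_ball_zero_iff]; exact hz2
    have hz0 : z ≠ 0 := by
      intro h
      rw [h, norm_zero] at hz1
      linarith
    have hfz := hfar z hz1 hz2.le
    have hcz : c ≤ ‖hb z - z‖ := hfz.trans (min_le_left _ _)
    have hb0 : hb z ≠ 0 := by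
      intro h
      have : c ≤ ‖hb z‖ := hfz.trans (min_le_right _ _)
      rw [h, norm_zero] at this
      linarith
    have hbz := hEM.bo hz
    refine ⟨by rwa [mem_ball_zero_iff] at hbz, hb0, hcz, ?_⟩
    have e1 : φ z = q (k₀ + (ψ z)⁻¹) := by simp only [hφ, if_neg hz0]
    have e2 : φ (hb z) = q (k₀ + (ψ (hb z))⁻¹) := by simp only [hφ, if_neg hb0]
    have e3 : φ (hb z) = f^[m] (φ z) := by
      rw [hEM.be z hz]
      exact hD.φu _ (hgK _ (hD.φ_maps hz))
    show p (f^[m] (q (k₀ + (ψ z)⁻¹))) = _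
    rw [← e1, ← e3, e2, hpq.pq]
  · intro ε hε
    obtain ⟨ρ, -, hρ1, c', hc', hfar'⟩ := far_circle (F := fun z => ‖hb z‖ - (1 - ε))
      (hEM.bc.norm.sub continuousOn_const) (fun z hz => by
        show 0 < ‖hb z‖ - (1 - ε)
        rw [hsph z hz]
        linarith)
    refine ⟨ρ, hρ1, fun z hz1 hz2 => ?_⟩
    have : c' ≤ ‖hb z‖ - (1 - ε) := hfar' z hz1 hz2.le
    linarith

end DS

end S_H36_DS_TCB

section S_H36_DS_TCC

/-!
TCC (Star property of an invariant component consisting of one point).  Proof.  `hK.2` gives `f^[m] P = P`; `P ∉ V` so `P ≠ O`.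
1. `tr f m P < 2`: by `trichotomy hS hV.hm` it remains to exclude that `P` is hyperbolic with `2 < |tr f m P|`.  Then
`tr f (2 * m) P = tr f m P ^ 2 - 2 > 2` (`tr_two`); `g = f^[2 * m]` fixes `P`; `iterDeriv g 1 P = iterDeriv f (2 * m) P` and `tr g 1 P = tr f (2 * m) P`
(`rfl` or `simp [iterDeriv, tr]`: the first iterate is the map itself), determinant one by `hS.det1`; `hyp_chart` for `g`, `P`, `O` gives `χ κ r …`;
`axis_stable hS.cf.continuous (M := 2 * m)` : `κ ⟨x, 0⟩ ∈ stableSet f P` for `|x| ≤ r`.  The set `C = κ '' ((fun x : ℝ => ⟨x, 0⟩) '' Icc (-r) r)` is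
preconnected, misses `V` (`hV.V_stab P`, `P` is periodic) and contains `P = κ 0`; by `(hV.compK' hK).K_max` it is contained in `K = {P}`; but
`κ ⟨r, 0⟩ = κ 0` contradicts `χ (κ z) = z` and `0 < r` (`HypLoc.hr`).
2. `chart_deriv (pc1_of_SC hpq)` for `g = f^[m]` (smooth: `ContMDiff.iterate`) gives `B` with `HasFDerivAt (fun z => p (g (q z))) B (p P)`, `B.det = 1`
and trace `tr f m P`.  The determinant of `B - id` is `det B - tr B + 1 = 2 - tr > 0`: for a linear map `T` of a two dimensional space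
`det (T - 1) = det T - tr T + 1` (take the matrix in the basis `Complex.basisOneI`, `LinearMap.det_toLin`/`LinearMap.trace_eq_matrix_trace`,
`Matrix.det_fin_two`, `Matrix.trace_fin_two`).
3. Continuity near `p P`: `chart_c1` (the set `{z | g (q z) ≠ O}` is open, contains `p P`, and the map is `C¹` on it).
4. `star_point` with `N` gives the claim (`p '' {P} = {p P}`, `k = p P`).
-/

namespace DS
open Metric Set Filter Topology Function MeasureTheory
open scoped Manifold ContDiff

theorem TCC_iter {f : S2 → S2} (cf : ContMDiff (𝓡 2) (𝓡 2) 1 f) (k : ℕ) :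
    ContMDiff (𝓡 2) (𝓡 2) 1 (f^[k]) := by
  induction k with
  | zero => exact contMDiff_id
  | succ k ih =>
    rw [Function.iterate_succ']
    exact cf.comp ih

/-- the trace at a fixed point contained in a one point component is less than two -/
theorem TCC_tr {f fi : S2 → S2} {ν : Measure S2} (hS : Sys f fi ν) {m : ℕ}
    {V : Set S2} (hV : InvV f m V) {O : S2} (hO : O ∈ V) {P : S2}
    (hK : {P} ∈ invComp (f^[m]) V) (hP : f^[m] P = P) : tr f m P < 2 := by
  by_contra hcon
  have hPO : P ≠ O := fun h => hV.not_per ⟨m, hV.hm, hP⟩ (h ▸ hO)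
  have h2 : 2 < |tr f m P| := by
    rcases trichotomy hS hV.hm hP with h | h
    · exact absurd (lt_of_le_of_lt (le_abs_self _) h) hcon
    · exact h.2
  have hm2 : 0 < 2 * m := by have := hV.hm; omega
  have hP2 : f^[2 * m] P = P := by
    rw [two_mul, Function.iterate_add_apply, hP, hP]
  have htr2 : 2 < tr f (2 * m) P := by
    rw [tr_two hS hP]
    have : (2:ℝ) ^ 2 < tr f m P ^ 2 := by
      rw [← sq_abs (tr f m P)]
      exact pow_lt_pow_left₀ h2 (by norm_num) (by norm_num)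
    linarith
  have hdet : (iterDeriv (f^[2 * m]) 1 P).det = 1 := by
    rw [iterDeriv_iter]
    exact hS.det1 P _ hP2
  have htr3 : 2 < tr (f^[2 * m]) 1 P := by
    unfold tr
    rw [iterDeriv_iter]
    exact htr2
  obtain ⟨χ, κ, r, lp, km, kp, hχ, hκ0, HL, hO'⟩ :=
    hyp_chart (TCC_iter hS.cf (2 * m)) hP2 hPO hdet htr3
  have hr : 0 < r := HL.hr
  set C : Set S2 := (fun x : ℝ => κ ⟨x, 0⟩) '' Icc (-r) r with hC
  have hcont : Continuous (fun x : ℝ => κ ⟨x, 0⟩) := by
    have h1 : Continuous (fun x : ℝ => (⟨x, 0⟩ : ℂ)) := by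
      have : (fun x : ℝ => (⟨x, 0⟩ : ℂ)) = fun x : ℝ => (x : ℂ) := by
        funext x
        rfl
      rw [this]
      exact Complex.continuous_ofReal
    exact hχ.κ_smooth.continuous.comp h1
  have hCp : IsPreconnected C := isPreconnected_Icc.image _ hcont.continuousOn
  have hCV : Disjoint C V := by
    rw [disjoint_left]
    rintro z ⟨x, hx, rfl⟩ hzV
    have hst := axis_stable hS.cf.continuous hm2 hχ hκ0 hP2 HL hO' (x := x)
      (abs_le.mpr ⟨hx.1, hx.2⟩)
    exact disjoint_left.mp (hV.V_stab P ⟨m, hV.hm, hP⟩) hzV hst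
  have hCP : (C ∩ {P}).Nonempty := by
    refine ⟨P, ⟨0, ⟨by linarith, hr.le⟩, ?_⟩, rfl⟩
    exact hκ0
  have hsub := (hV.compK' hK).K_max C hCp hCV hCP
  have h3 : κ ⟨r, 0⟩ = P := hsub ⟨r, ⟨by linarith, le_rfl⟩, rfl⟩
  have h4 : χ (κ ⟨r, 0⟩) = χ (κ 0) := by rw [h3, hκ0]
  rw [hχ.χκ, hχ.χκ] at h4
  have h5 := congrArg Complex.re h4
  simp only [Complex.zero_re] at h5
  exact hr.ne' h5

theorem TCC_det (B : ℂ →L[ℝ] ℂ) : (B - ContinuousLinearMap.id ℝ ℂ).det =
    B.det - LinearMap.trace ℝ ℂ (B : ℂ →ₗ[ℝ] ℂ) + 1 := by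
  rw [(SH_entries B).1, (SH_entries B).2, (SH_entries (B - ContinuousLinearMap.id ℝ ℂ)).1]
  simp only [sub_apply, ContinuousLinearMap.id_apply, Complex.sub_re,
    Complex.sub_im, Complex.one_re, Complex.one_im, Complex.I_re, Complex.I_im]
  ring

theorem star_comp_point {f fi : S2 → S2} {ν : Measure S2} (hS : Sys f fi ν) {m : ℕ}
    {V : Set S2} (hV : InvV f m V) {O : S2} {p : S2 → ℂ} {q : ℂ → S2} (hO : O ∈ V)
    (hpq : SC O p q) {P : S2} (hK : {P} ∈ invComp (f^[m]) V) :
    Star (fun z => p (f^[m] (q z))) (p P) (p '' {P}) := by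
  have hP : f^[m] P = P := by
    have h := hK.2
    rw [image_singleton] at h
    exact singleton_injective h
  have hPO : P ≠ O := fun h => hV.not_per ⟨m, hV.hm, hP⟩ (h ▸ hO)
  have htr := TCC_tr hS hV hO hK hP
  have hg : ContMDiff (𝓡 2) (𝓡 2) 1 (f^[m]) := TCC_iter hS.cf m
  obtain ⟨B, hB, hBdet, hBtr⟩ := chart_deriv (pc1_of_SC hpq) hg hP hPO
  have hdet1 : (iterDeriv (f^[m]) 1 P).det = 1 := by
    rw [iterDeriv_iter]
    exact hS.det1 P _ hP
  have htr1 : tr (f^[m]) 1 P = tr f m P := by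
    unfold tr
    rw [iterDeriv_iter]
  obtain ⟨hU, hF⟩ := chart_c1 (pc1_of_SC hpq) hg
  have hPU : p P ∈ {z | f^[m] (q z) ≠ O} := by
    show f^[m] (q (p P)) ≠ O
    rw [hpq.qp P hPO, hP]
    exact hPO
  have hgP : (fun z => p (f^[m] (q z))) (p P) = p P := by
    show p (f^[m] (q (p P))) = p P
    rw [hpq.qp P hPO, hP]
  have hcont : ∀ᶠ z in 𝓝 (p P), ContinuousAt (fun z => p (f^[m] (q z))) z := by
    filter_upwards [hU.mem_nhds hPU] with z hz
    exact hF.continuousOn.continuousAt (hU.mem_nhds hz)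
  intro N hN hKN
  rw [image_singleton] at hKN ⊢
  obtain ⟨W, w1, w2, w3, w4, w5, w6, w7⟩ := star_point hB hgP
    (by rw [TCC_det, hBdet, hdet1, hBtr, htr1]; linarith)
    (by rw [hBdet, hdet1]; norm_num) hcont hN (hKN rfl)
  refine ⟨W, w1, singleton_subset_iff.mpr w2, w3, w4, w5, w6, ?_⟩
  intro x hx hxP
  exact w7 x hx hxP

end DS

end S_H36_DS_TCC

section S_H36_DS_TD

/-!
TD (fixed points in invariant components; finitely many invariant components).
Preparation.  `G = fun z => p (f^[m] (q z))`, `a = p (fi^[m] O)` (`fi^[m] O ≠ O`: otherwise `O` would be periodic, `hV.not_per`; so `q a = fi^[m] O`),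
and `G` is continuous on `{a}ᶜ` (`f^[m] (q z) = O` only for `z = a`).  `a ∉ p '' K` for `K ∈ invComp` (`fi^[m] O ∈ V`).
`star_comp`: `K ∈ invComp` is not empty; either `K = {P}` (`star_comp_point`; `k = p P`) or nontrivial (`star_comp_nontrivial`).
`comp_has_fix`.  Take a stereographic chart with pole `O ∈ V` (`exists_SC`), `k ∈ p '' K`, `Star` with `N = {a}ᶜ`: `O'`.  If `K` had no fixed point then
`G x - x ≠ 0` on `closure O'` (for `x ∈ p '' K`, `x = p y`, `G x = p (f^[m] y)`, and `p` is injective on `K`; otherwise the last clause), `G` is continuous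
on `closure O' ⊆ {a}ᶜ`; `no_nonvanishing` gives a contradiction.
`invComp_finite`.  `F = {x | f^[m] x = x}` is closed, so compact.  For `x ∈ F`, `K_x = connectedComponentIn Vᶜ x ∈ invComp` (`hV.comp_fix`) and `Star` with
`N = univ` gives `O'_x`; `W_x = {O}ᶜ ∩ p ⁻¹' O'_x` is an open neighbourhood of `x` with `F ∩ W_x ⊆ K_x`.  Finitely many `W_{x_i}` cover `F`
(`IsCompact.elim_nhds_subcover`); every `K ∈ invComp` contains a fixed point `y` (`comp_has_fix`), `y ∈ W_{x_i}`, so `y ∈ K_{x_i} ∩ K` and `K = K_{x_i}`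
(`invComp_disj`): `invComp ⊆` image of a finite set.
-/

namespace DS
open Metric Set Filter Topology Function MeasureTheory
open scoped Manifold ContDiff

theorem star_comp {f fi : S2 → S2} {ν : Measure S2} (hS : Sys f fi ν) {m : ℕ}
    {V : Set S2} (hV : InvV f m V) {O : S2} {p : S2 → ℂ} {q : ℂ → S2} (hO : O ∈ V)
    (hpq : SC O p q) {K : Set S2} (hK : K ∈ invComp (f^[m]) V) {k : ℂ}
    (hk : k ∈ p '' K) : Star (fun z => p (f^[m] (q z))) k (p '' K) := by
  have hKe : K.Nonempty := by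
    obtain ⟨⟨x, hx, rfl⟩, -⟩ := hK
    exact ⟨x, mem_connectedComponentIn hx⟩
  rcases hKe.exists_eq_singleton_or_nontrivial with ⟨P, rfl⟩ | hn
  · rw [image_singleton, mem_singleton_iff] at hk
    rw [hk]
    exact star_comp_point hS hV hO hpq hK
  · exact star_comp_nontrivial hS hV hO hpq hK hn hk

theorem comp_has_fix {f fi : S2 → S2} {ν : Measure S2} (hS : Sys f fi ν) {m : ℕ}
    {V : Set S2} (hV : InvV f m V) {K : Set S2} (hK : K ∈ invComp (f^[m]) V) :
    ∃ x ∈ K, f^[m] x = x := by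
  by_contra hcon
  push Not at hcon
  obtain ⟨O, hO⟩ := hV.V_conn.nonempty
  obtain ⟨p, q, hpq⟩ := exists_SC O
  have hKC := hV.compK' hK
  obtain ⟨y0, hy0⟩ := hKC.K_conn.nonempty
  have hKO : ∀ y ∈ K, y ≠ O := by
    rintro y hy rfl
    exact disjoint_left.mp hKC.K_V hy hO
  have ha0 : fi^[m] O ≠ O := by
    intro h
    have h1 : f^[m] O = O := by
      have h2 := iter_fif hS.ffi m O
      rwa [h] at h2
    exact hV.not_per ⟨m, hV.hm, h1⟩ hO
  have haV : fi^[m] O ∈ V := by
    rw [← hV.mem_iff hS, iter_fif hS.ffi m O]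
    exact hO
  have hqa : q (p (fi^[m] O)) = fi^[m] O := hpq.qp _ ha0
  have haK : p '' K ⊆ {p (fi^[m] O)}ᶜ := by
    rintro _ ⟨y, hy, rfl⟩ h
    rw [mem_singleton_iff] at h
    have h1 : y = fi^[m] O := by rw [← hpq.qp y (hKO y hy), h, hqa]
    rw [h1] at hy
    exact disjoint_left.mp hKC.K_V hy haV
  obtain ⟨U, hU, hKU, hUN, hUb, hlog, -, hUf⟩ :=
    star_comp hS hV hO hpq hK (mem_image_of_mem p hy0) _ isOpen_compl_singleton haK
  have hne : ∀ z ∈ closure U, f^[m] (q z) ≠ O := by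
    intro z hz h
    apply hUN hz
    rw [mem_singleton_iff, ← h, iter_fif hS.fif m, hpq.pq]
  have hpc : ContinuousOn p {O}ᶜ := hpq.p_smooth.continuousOn
  have hGc : ContinuousOn (fun z => p (f^[m] (q z)) - z) (closure U) := by
    refine ContinuousOn.sub ?_ continuousOn_id
    exact hpc.comp ((hS.cf.continuous.iterate m).comp hpq.q_smooth.continuous).continuousOn
      (fun z hz => hne z hz)
  refine no_nonvanishing hU hUb (hKU (mem_image_of_mem p hy0)) hGc ?_ hlog
  intro z hz h0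
  rw [sub_eq_zero] at h0
  by_cases hzK : z ∈ p '' K
  · obtain ⟨y, hy, rfl⟩ := hzK
    rw [hpq.qp y (hKO y hy)] at h0
    have h1 : f^[m] y ∈ K := by
      rw [← hK.2]
      exact mem_image_of_mem _ hy
    apply hcon y hy
    rw [← hpq.qp _ (hKO _ h1), h0, hpq.qp y (hKO y hy)]
  · exact hUf z hz hzK h0

theorem invComp_finite {f fi : S2 → S2} {ν : Measure S2} (hS : Sys f fi ν) {m : ℕ}
    {V : Set S2} (hV : InvV f m V) : (invComp (f^[m]) V).Finite := by
  classical
  obtain ⟨O, hO⟩ := hV.V_conn.nonempty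
  obtain ⟨p, q, hpq⟩ := exists_SC O
  have hFc : IsClosed {x : S2 | f^[m] x = x} :=
    isClosed_eq (hS.cf.continuous.iterate m) continuous_id
  have hpc : ContinuousOn p {O}ᶜ := hpq.p_smooth.continuousOn
  have hW : ∀ x ∈ {x : S2 | f^[m] x = x}, ∃ W : Set S2, IsOpen W ∧ x ∈ W ∧
      ∀ y ∈ W, f^[m] y = y → y ∈ connectedComponentIn Vᶜ x := by
    intro x hx
    have hxK : connectedComponentIn Vᶜ x ∈ invComp (f^[m]) V := hV.comp_fix hS hx
    have hxV : x ∉ V := hV.not_per ⟨m, hV.hm, hx⟩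
    have hKO : ∀ y ∈ connectedComponentIn Vᶜ x, y ≠ O := by
      rintro y hy rfl
      exact connectedComponentIn_subset _ _ hy hO
    have hxx : x ∈ connectedComponentIn Vᶜ x := mem_connectedComponentIn hxV
    obtain ⟨U, hU, hKU, -, -, -, -, hUf⟩ :=
      star_comp hS hV hO hpq hxK (mem_image_of_mem p hxx) univ isOpen_univ (subset_univ _)
    refine ⟨{O}ᶜ ∩ p ⁻¹' U, hpc.isOpen_inter_preimage isOpen_compl_singleton hU,
      ⟨hKO x hxx, hKU (mem_image_of_mem p hxx)⟩, ?_⟩
    rintro y ⟨hyO, hyU⟩ hyf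
    have hyO' : y ≠ O := hyO
    by_cases h1 : p y ∈ p '' connectedComponentIn Vᶜ x
    · obtain ⟨z, hz, hzy⟩ := h1
      have h2 : z = y := by rw [← hpq.qp z (hKO z hz), hzy, hpq.qp y hyO']
      rwa [← h2]
    · exfalso
      apply hUf (p y) (subset_closure hyU) h1
      change p (f^[m] (q (p y))) = p y
      rw [hpq.qp y hyO', hyf]
  choose! W hWo hWx hWK using hW
  obtain ⟨t, ht, hcov⟩ := hFc.isCompact.elim_nhds_subcover W
    (fun x hx => (hWo x hx).mem_nhds (hWx x hx))
  refine (t.finite_toSet.image (fun x => connectedComponentIn Vᶜ x)).subset ?_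
  intro K hK
  obtain ⟨y, hyK, hyf⟩ := comp_has_fix hS hV hK
  obtain ⟨x, hxt, hyx⟩ := mem_iUnion₂.mp (hcov hyf)
  refine ⟨x, hxt, ?_⟩
  have hx := ht x hxt
  have h1 := hWK x hx y hyx hyf
  by_contra hne
  exact disjoint_left.mp (invComp_disj (hV.comp_fix hS hx) hK hne) h1 hyK

end DS

end S_H36_DS_TD

section S_H36_DS_TDD

/-!
TDD (exactly two invariant components).  Proof.  `O ∈ V`, a stereographic chart `hpq : SC O p q` (`exists_SC`).  `T = invComp (f^[m]) V` is finite
(`invComp_finite`) and not empty; let `n = T.ncard` and `K : Fin n → Set S2` an enumeration (injective, range `T`; e.g. `Finite.equivFin` of the subtype, or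
`hT.toFinset.equivFin`).  `K' i = p '' K i` compact (`K i` is closed and contained in `{O}ᶜ`), pairwise disjoint (`invComp_disj`, `p` injective on `{O}ᶜ`);
`k i ∈ K' i`.  `a = p (fi^[m] O)`, `b = p (f^[m] O)` (`fi^[m] O ≠ O ≠ f^[m] O` as `O` is not periodic, `hV.not_per`; `q a = fi^[m] O`).
`sep_open` gives `N i`; `star_comp` with the open set `N i \ {a}` (contains `K' i`: `fi^[m] O ∈ V`) gives `O' i`.  Apply `two_holes O' k` with
`g z = p (f^[m] (q z))`: `ContinuousOn g {a}ᶜ`: `f^[m] (q z) ≠ O` for `z ≠ a`; `hfix`: `g z = z`, `z ≠ a` implies `f^[m] (q z) = q z` (apply `q`), so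
`connectedComponentIn Vᶜ (q z) ∈ T` (`hV.comp_fix`) is some `K i` and `z = p (q z) ∈ K' i ⊆ O' i`; `hpole`: `q` is continuous at `a`,
`f^[m] (q z) → O` and `≠ O` for `z ≠ a`, `hpq.p_lim`; `hinf`: `q z → O` (`hpq.q_lim`), `f^[m] (q z) → f^[m] O ≠ O`, `p` continuous there; `i₀` any index (`T` not
empty); `hk₀`: `g z = k i₀`, `z ≠ a`: `k i₀ = p x`, `x ∈ K i₀`, so `f^[m] (q z) = x ∈ K i₀ = f^[m] '' K i₀`, `q z ∈ K i₀`; `hbk`: `f^[m] O ∈ V`, `x ∉ V`, both `≠ O`.
-/

namespace DS
open Metric Set Filter Topology Function MeasureTheory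
open scoped Manifold ContDiff

theorem invComp_two {f fi : S2 → S2} {ν : Measure S2} (hS : Sys f fi ν) {m : ℕ}
    {V : Set S2} (hV : InvV f m V) (hne : (invComp (f^[m]) V).Nonempty) :
    (invComp (f^[m]) V).ncard = 2 := by
  obtain ⟨O, hO⟩ := hV.V_conn.nonempty
  obtain ⟨p, q, hpq⟩ := exists_SC O
  have hT := invComp_finite hS hV
  obtain ⟨n, K, hKinj, hKr⟩ := hT.fin_param
  have hcard : (invComp (f^[m]) V).ncard = n := by
    rw [← hKr, ← image_univ, Set.ncard_image_of_injective _ hKinj, Set.ncard_univ, Nat.card_fin]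
  rw [hcard]
  have hKT : ∀ i, K i ∈ invComp (f^[m]) V := fun i => hKr ▸ mem_range_self i
  have hgc : Continuous (f^[m]) := hS.cf.continuous.iterate m
  have hnper : O ∉ periodicPts f := fun h => hV.not_per h hO
  -- the points `A` and `B`
  obtain ⟨A, hA⟩ : ∃ A, A = fi^[m] O := ⟨_, rfl⟩
  obtain ⟨B, hB⟩ : ∃ B, B = f^[m] O := ⟨_, rfl⟩
  have hfA : f^[m] A = O := by rw [hA]; exact iter_fif hS.ffi m O
  have hBO : B ≠ O := fun h => hnper ⟨m, hV.hm, hB.symm.trans h⟩
  have hAO : A ≠ O := by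
    intro h
    rw [h] at hfA
    exact hnper ⟨m, hV.hm, hfA⟩
  have hAV : A ∈ V := (hV.mem_iff hS A).1 (hfA ▸ hO)
  have hBV : B ∈ V := hB ▸ (hV.mem_iff hS O).2 hO
  have hginj : ∀ x y, f^[m] x = f^[m] y → x = y := by
    intro x y h
    rw [← iter_fif hS.fif m x, h, iter_fif hS.fif]
  have hqA : q (p A) = A := hpq.qp A hAO
  have hpinj : ∀ x y, x ≠ O → y ≠ O → p x = p y → x = y := by
    intro x y hx hy h
    rw [← hpq.qp x hx, h, hpq.qp y hy]
  have hne0 : ∀ z, z ≠ p A → f^[m] (q z) ≠ O := by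
    intro z hz h
    apply hz
    have h1 : q z = A := hginj _ _ (h.trans hfA.symm)
    rw [← h1, hpq.pq]
  have hKV : ∀ i, ∀ x ∈ K i, x ∉ V := fun i x hx hx' =>
    disjoint_left.1 (hV.compK' (hKT i)).K_V hx hx'
  have hKO : ∀ i, ∀ x ∈ K i, x ≠ O := fun i x hx h => hKV i x hx (h ▸ hO)
  have hK'c : ∀ i, IsCompact (p '' K i) := fun i =>
    (hV.compK' (hKT i)).K_closed.isCompact.image_of_continuousOn
      (hpq.p_smooth.continuousOn.mono fun x hx => hKO i x hx)
  have hK'd : ∀ i j, i ≠ j → Disjoint (p '' K i) (p '' K j) := by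
    intro i j hij
    rw [disjoint_left]
    rintro _ ⟨x, hx, rfl⟩ ⟨y, hy, hxy⟩
    have h1 : y = x := hpinj _ _ (hKO j y hy) (hKO i x hx) hxy
    exact disjoint_left.1 (invComp_disj (hKT i) (hKT j) fun h => hij (hKinj h)) hx (h1 ▸ hy)
  have haK : ∀ i, p A ∉ p '' K i := by
    rintro i ⟨x, hx, hxA⟩
    have h1 : x = A := hpinj _ _ (hKO i x hx) hAO hxA
    exact hKV i x hx (h1 ▸ hAV)
  obtain ⟨N, hNo, hKN, hNd⟩ := sep_open (fun i => p '' K i) hK'c hK'd
  have hkex : ∀ i, ∃ z, z ∈ p '' K i := fun i =>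
    (hV.compK' (hKT i)).K_conn.nonempty.image p
  choose k hk using hkex
  have hstar : ∀ i, ∃ O' : Set ℂ, IsOpen O' ∧ p '' K i ⊆ O' ∧ closure O' ⊆ N i \ {p A} ∧
      Bornology.IsBounded O' ∧
      HasLog (fun x => ((fun z => p (f^[m] (q z))) x - x) / (x - k i)) (frontier O') ∧
      HasLog (fun x => ((fun z => p (f^[m] (q z))) x - k i) / (x - k i)) (frontier O') ∧
      ∀ x ∈ closure O', x ∉ p '' K i → (fun z => p (f^[m] (q z))) x ≠ x := fun i =>
    star_comp hS hV hO hpq (hKT i) (hk i) (N i \ {p A}) ((hNo i).sdiff isClosed_singleton)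
      (fun z hz => ⟨hKN i hz, fun h => haK i (h ▸ hz)⟩)
  choose O' hO'o hKO' hO'N hO'b hl1 hl2 hO'f using hstar
  obtain ⟨X, hX⟩ := hne
  rw [← hKr] at hX
  obtain ⟨i₀, -⟩ := hX
  have hcq : Continuous q := hpq.q_smooth.continuous
  refine two_holes O' k hO'o hO'b (fun i => hKO' i (hk i)) ?_ (g := fun z => p (f^[m] (q z)))
    (a := p A) (b := p B) ?_ ?_ ?_ ?_ ?_ hl1 i₀ ?_ ?_ (hl2 i₀)
  · intro i j hij
    exact (hNd i j hij).mono (fun z hz => (hO'N i hz).1) (fun z hz => (hO'N j hz).1)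
  · intro i h
    exact (hO'N i h).2 rfl
  · exact hpq.p_smooth.continuousOn.comp (hgc.comp hcq).continuousOn fun z hz => hne0 z hz
  · intro z hz hgz
    have h1 : f^[m] (q z) = q z := by
      rw [← hpq.qp _ (hne0 z hz), hgz]
    have h2 := hV.comp_fix hS h1
    have h3 : q z ∉ V := hV.not_per ⟨m, hV.hm, h1⟩
    rw [← hKr] at h2
    obtain ⟨i, hi⟩ := h2
    refine ⟨i, hKO' i ⟨q z, ?_, hpq.pq z⟩⟩
    rw [hi]
    exact mem_connectedComponentIn h3
  · refine hpq.p_lim.comp (tendsto_nhdsWithin_iff.2 ⟨?_, ?_⟩)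
    · have h1 : Tendsto (fun z => f^[m] (q z)) (𝓝 (p A)) (𝓝 (f^[m] (q (p A)))) :=
        (hgc.comp hcq).tendsto (p A)
      rw [hqA, hfA] at h1
      exact h1.mono_left nhdsWithin_le_nhds
    · filter_upwards [self_mem_nhdsWithin] with z hz
      exact hne0 z hz
  · have h1 : Tendsto (fun z => f^[m] (q z)) (cocompact ℂ) (𝓝 B) := by
      rw [hB]
      exact (hgc.tendsto O).comp hpq.q_lim
    have h2 : ContinuousAt p B :=
      hpq.p_smooth.continuousOn.continuousAt (isOpen_compl_singleton.mem_nhds hBO)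
    exact h2.tendsto.comp h1
  · intro z hz hgz
    obtain ⟨x, hx, hxk⟩ := hk i₀
    have h1 : f^[m] (q z) = x :=
      hpinj _ _ (hne0 z hz) (hKO i₀ x hx) (hgz.trans hxk.symm)
    have h2 : f^[m] '' K i₀ = K i₀ := (hKT i₀).2
    rw [← h1, ← h2] at hx
    obtain ⟨y, hy, hyz⟩ := hx
    have h3 : y = q z := hginj _ _ hyz
    exact hKO' i₀ ⟨q z, h3 ▸ hy, hpq.pq z⟩
  · intro h
    obtain ⟨x, hx, hxk⟩ := hk i₀
    have h1 : B = x := hpinj _ _ hBO (hKO i₀ x hx) (h.trans hxk.symm)
    exact hKV i₀ x hx (h1 ▸ hBV)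

end DS

end S_H36_DS_TDD

section S_H36_DS_TE

/-!
TE (the two components contain all the periodic points).
-/

namespace DS
open Metric Set Filter Topology Function MeasureTheory
open scoped Manifold ContDiff

theorem image_iter_mul {X : Type*} {f : X → X} {q : ℕ} {A : Set X} (h : f^[q] '' A = A) (l : ℕ) :
    f^[q * l] '' A = A := by
  induction l with
  | zero => simp
  | succ l ih =>
    rw [Nat.mul_succ, iterate_add, image_comp, h, ih]

theorem two_for_all {f fi : S2 → S2} {ν : Measure S2} (hS : Sys f fi ν) {q : ℕ}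
    {V : Set S2} (hV : InvV f q V) (hper : (periodicPts f).Nonempty) :
    ∃ M > 0, f^[M] '' V = V ∧ ∃ x ∉ V, ∃ y ∉ V,
      connectedComponentIn Vᶜ x ≠ connectedComponentIn Vᶜ y ∧
      f^[M] '' connectedComponentIn Vᶜ x = connectedComponentIn Vᶜ x ∧
      f^[M] '' connectedComponentIn Vᶜ y = connectedComponentIn Vᶜ y ∧
      periodicPts f ⊆ connectedComponentIn Vᶜ x ∪ connectedComponentIn Vᶜ y := by
  obtain ⟨P, n, hn, hP⟩ := hper
  have hInv : ∀ l > 0, InvV f (q * l) V := fun l hl =>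
    ⟨hV.V_open, hV.V_conn, hV.V_stab, Nat.mul_pos hV.hm hl, image_iter_mul hV.inv l⟩
  have hM := hInv n hn
  have hPM : f^[q * n] P = P := hP.const_mul q
  have hT := invComp_two hS hM ⟨_, hM.comp_fix hS hPM⟩
  obtain ⟨K₁, K₂, hK, hTe⟩ := Set.ncard_eq_two.mp hT
  have h1 : K₁ ∈ invComp (f^[q * n]) V := by rw [hTe]; simp
  have h2 : K₂ ∈ invComp (f^[q * n]) V := by rw [hTe]; simp
  have hall : ∀ Q ∈ periodicPts f, Q ∈ K₁ ∪ K₂ := by
    rintro Q ⟨s, hs, hQ⟩
    have hM' : InvV f (q * n * s) V := by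
      have := hInv (n * s) (Nat.mul_pos hn hs)
      rwa [← mul_assoc] at this
    have hQM : f^[q * n * s] Q = Q := hQ.const_mul (q * n)
    have hsub : invComp (f^[q * n]) V ⊆ invComp (f^[q * n * s]) V := by
      rintro K ⟨hK1, hK2⟩
      exact ⟨hK1, image_iter_mul hK2 s⟩
    have hQT := hM'.comp_fix hS hQM
    have hT' := invComp_two hS hM' ⟨_, hQT⟩
    have heq := Set.eq_of_subset_of_ncard_le hsub (by rw [hT, hT']) (invComp_finite hS hM')
    rw [← heq, hTe] at hQT
    have hQV : Q ∈ Vᶜ := hV.not_per ⟨s, hs, hQ⟩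
    have hQc : Q ∈ connectedComponentIn Vᶜ Q := mem_connectedComponentIn hQV
    rcases hQT with h | h
    · left; rw [← h]; exact hQc
    · right; rw [mem_singleton_iff] at h; rw [← h]; exact hQc
  obtain ⟨⟨x, hx, rfl⟩, hx1⟩ := h1
  obtain ⟨⟨y, hy, rfl⟩, hy1⟩ := h2
  exact ⟨q * n, hM.hm, hM.inv, x, hx, y, hy, hK, hx1, hy1, hall⟩

end DS

end S_H36_DS_TE

section S_H36_DS_FIN

/-!
FIN (the theorem for the sphere).  Assembly: let `S` be the union of the stable sets of the periodic points and suppose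
that the complement `U` of its closure is not empty.  A component `V` of `U` is periodic (`component_periodic`), `f^[q] '' V = V`;
two components `K₁`, `K₂` of `Vᶜ` contain all the periodic points and are invariant under some `f^[M]` (`two_for_all`); the
complement of `K₁ ∪ K₂` is an annulus (`two_annulus`) without periodic points, contradicting condition 4.
-/

namespace DS
open Metric Set Filter Topology Function MeasureTheory
open scoped Manifold ContDiff

theorem stable_image {f fi : S2 → S2} (hffi : ∀ x, f (fi x) = x) (hfif : ∀ x, fi (f x) = x) :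
    f '' (⋃ P ∈ periodicPts f, stableSet f P) = ⋃ P ∈ periodicPts f, stableSet f P := by
  apply Subset.antisymm
  · rintro _ ⟨x, hx, rfl⟩
    simp only [mem_iUnion] at hx ⊢
    obtain ⟨P, hP, hx⟩ := hx
    refine ⟨f P, ?_, ?_⟩
    · obtain ⟨n, hn, h⟩ := hP
      exact ⟨n, hn, h.apply⟩
    · have h1 : Tendsto (fun n : ℕ => dist (f^[n] x) (f^[n] P)) atTop (𝓝 0) := hx
      show Tendsto (fun n : ℕ => dist (f^[n] (f x)) (f^[n] (f P))) atTop (𝓝 0)
      have h2 := h1.comp (tendsto_add_atTop_nat 1)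
      refine h2.congr fun n => ?_
      simp only [comp_apply, iterate_succ_apply]
  · intro x hx
    simp only [mem_iUnion] at hx
    obtain ⟨P, hP, hx⟩ := hx
    refine ⟨fi x, ?_, hffi x⟩
    simp only [mem_iUnion]
    refine ⟨fi P, ?_, ?_⟩
    · obtain ⟨n, hn, h⟩ := hP
      refine ⟨n, hn, ?_⟩
      have h1 : f (f^[n] (fi P)) = f (fi P) := by
        rw [← iterate_succ_apply' f n, iterate_succ_apply, hffi]
        exact h
      have h2 := congrArg fi h1
      rwa [hfif, hfif] at h2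
    · show Tendsto (fun n : ℕ => dist (f^[n] (fi x)) (f^[n] (fi P))) atTop (𝓝 0)
      have h1 : Tendsto (fun n : ℕ => dist (f^[n] x) (f^[n] P)) atTop (𝓝 0) := hx
      rw [← tendsto_add_atTop_iff_nat 1]
      refine h1.congr fun n => ?_
      simp only [iterate_succ_apply, hffi]

theorem sphere_main (r : WithTop ℕ∞) (hr : 1 ≤ r) (f : Diffeomorph (𝓡 2) (𝓡 2) S2 S2 r)
    (ρ : S2 → ℝ) (hρ : Continuous ρ) (hρ0 : ∀ x, 0 < ρ x) (hf : PreservesArea ρ f)
    (hper : (periodicPts f).Nonempty) (h1 : Cond1 f) (h2 : Cond2 f f.symm) (h4 : Cond4 f) :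
    Dense (⋃ P ∈ periodicPts f, stableSet f P) := by
  obtain ⟨ν, hS⟩ := sys_of r hr f ρ hρ hρ0 hf h1 h2
  set S : Set S2 := ⋃ P ∈ periodicPts f, stableSet f P with hSdef
  by_contra hden
  rw [dense_iff_closure_eq] at hden
  obtain ⟨x, hx⟩ : ∃ x, x ∉ closure S := by
    by_contra h
    push Not at h
    exact hden (eq_univ_of_forall h)
  have hSf : f '' S = S := stable_image hS.ffi hS.fif
  have hcf : Continuous f := hS.cf.continuous
  have hcfi : Continuous f.symm := hS.cfi.continuous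
  let H : S2 ≃ₜ S2 := { toFun := f, invFun := f.symm, left_inv := hS.fif, right_inv := hS.ffi,
                        continuous_toFun := hcf, continuous_invFun := hcfi }
  have hclf : f '' closure S = closure S := by
    have h := H.image_closure S
    change f '' closure S = closure (f '' S) at h
    rw [h, hSf]
  set U : Set S2 := (closure S)ᶜ with hU
  have hUo : IsOpen U := isClosed_closure.isOpen_compl
  have hUf : f '' U = U := by
    have h : H '' (closure S)ᶜ = (H '' closure S)ᶜ := image_compl_eq H.bijective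
    change f '' U = (f '' closure S)ᶜ at h
    rw [h, hclf]
  obtain ⟨q, hq, hqV⟩ := component_periodic ν hS.fin hS.pos hcf hcfi hS.ffi hS.fif hS.inv hUo hUf
    (x := x) hx
  set V := connectedComponentIn U x with hVdef
  have hV : InvV f q V := by
    refine ⟨hUo.connectedComponentIn, isConnected_connectedComponentIn_iff.mpr hx, ?_, hq, hqV⟩
    intro P hP
    rw [disjoint_left]
    intro z hz hzP
    have h3 : z ∈ S := by
      simp only [hSdef, mem_iUnion]
      exact ⟨P, hP, hzP⟩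
    exact connectedComponentIn_subset _ _ hz (subset_closure h3)
  obtain ⟨M, hM, hMV, a, ha, b, hb, hab, hMa, hMb, hall⟩ := two_for_all hS hV hper
  have hCa := hV.compK ha
  have hCb := hV.compK hb
  have hann := two_annulus hCa.K_closed hCb.K_closed hCa.K_conn hCb.K_conn (comp_disj hab)
    (hV.compl_conn ha) ⟨by
      obtain ⟨y, hy⟩ := hV.V_conn.nonempty
      refine ⟨y, ?_⟩
      rintro (h | h)
      · exact connectedComponentIn_subset _ _ h hy
      · exact connectedComponentIn_subset _ _ h hy,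
      compl_two hV.V_conn.isPreconnected hV.V_conn.nonempty a b ha hb hab⟩
  refine h4 M hM _ ⟨(hCa.K_closed.union hCb.K_closed).isOpen_compl, ?_, hann, ?_⟩
  · have h : (hS.homeo M) '' (connectedComponentIn Vᶜ a ∪ connectedComponentIn Vᶜ b)ᶜ
        = ((hS.homeo M) '' (connectedComponentIn Vᶜ a ∪ connectedComponentIn Vᶜ b))ᶜ :=
      image_compl_eq (hS.homeo M).bijective
    change (f : S2 → S2)^[M] '' _ = ((f : S2 → S2)^[M] '' _)ᶜ at h
    rw [h, image_union, hMa, hMb]
  · intro P hP hPper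
    apply hP
    apply hall
    obtain ⟨n, hn, h⟩ := hPper
    refine ⟨M * n, Nat.mul_pos hM hn, ?_⟩
    show (f : S2 → S2)^[M * n] P = P
    rw [iterate_mul]
    exact h

end DS

end S_H36_DS_FIN

section S_H36_DS_BE

/-!
BE (the theorem for surfaces diffeomorphic to the sphere).  Proof.  Replace `f` by the same map regarded as a `C¹`
diffeomorphism (`1 ≤ r`).  `f' = (Ψ.trans f).trans Ψ.symm` as a `C¹` diffeomorphism of the sphere.  `BD_area`, `BB_cond1`,
`BB_cond2`, `BA_cond4`, `BA_per` give the hypotheses of `sphere_main` (`r = 1`); `BA_dense` gives the conclusion.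
-/

namespace DS
open Metric Set Filter Topology Function
open scoped Manifold ContDiff

theorem sphere_case (S : Type) [MetricSpace S] [ChartedSpace E2 S] [IsManifold (𝓡 2) ∞ S]
    [CompactSpace S] (Ψ : Diffeomorph (𝓡 2) (𝓡 2) S2 S ∞) (r : WithTop ℕ∞) (hr : 1 ≤ r)
    (f : Diffeomorph (𝓡 2) (𝓡 2) S S r)
    (om : ∀ x : S, TangentSpace (𝓡 2) x →ₗ[ℝ] TangentSpace (𝓡 2) x →ₗ[ℝ] ℝ)
    (hom : Surf.IsAreaForm om) (hf : Surf.PreservesArea om f) (hper : (periodicPts f).Nonempty)
    (h1 : Surf.Cond1 f) (h2 : Surf.Cond2 f f.symm) (h4 : Surf.Cond4 f) :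
    Dense (⋃ P ∈ periodicPts f, Surf.stableSet f P) := by
  let f1 : Diffeomorph (𝓡 2) (𝓡 2) S S 1 :=
    { toEquiv := f.toEquiv
      contMDiff_toFun := f.contMDiff.of_le hr
      contMDiff_invFun := f.symm.contMDiff.of_le hr }
  let Ψ1 : Diffeomorph (𝓡 2) (𝓡 2) S2 S 1 :=
    { toEquiv := Ψ.toEquiv
      contMDiff_toFun := Ψ.contMDiff.of_le (by exact_mod_cast le_top)
      contMDiff_invFun := Ψ.symm.contMDiff.of_le (by exact_mod_cast le_top) }
  let f' : Diffeomorph (𝓡 2) (𝓡 2) S2 S2 1 := (Ψ1.trans f1).trans Ψ1.symm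
  have e1 : (f' : S2 → S2) = fun y => Ψ.symm (f1 (Ψ y)) := rfl
  have e2 : (f'.symm : S2 → S2) = fun y => Ψ.symm (f1.symm (Ψ y)) := rfl
  have hf1 : Surf.PreservesArea om f1 := hf
  obtain ⟨ρ, hρ, hρ0, hρf⟩ := BD_area Ψ f1 om hom hf1
  have hper' : (periodicPts f').Nonempty := by
    obtain ⟨P, hP⟩ := hper
    refine ⟨Ψ.symm P, ?_⟩
    rw [e1]
    rw [BB_per Ψ f1, Ψ.apply_symm_apply]
    exact hP
  have hd := sphere_main 1 le_rfl f' ρ hρ hρ0 hρf hper' (BB_cond1 Ψ f1 h1) (BB_cond2 Ψ f1 h2)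
    (BA_cond4 Ψ.toHomeomorph f1 h4)
  exact BA_dense Ψ.toHomeomorph f1 hd

end DS

end S_H36_DS_BE
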