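import Pool.Agent.H12.KS.K04
import Pool.Agent.H36.DS.Surf

/-! Joined modules of the proof of MP_8a27c0_an (one section per module). -/

section S_H91_BR_Base

/-!
Project MP_8a27c0_BR (helper91): the bridge between the definitions for general closed surfaces
(`Pool/Agent/H36/DS/Surf.lean`, namespace `DS.Surf`) and the covering part (`Pool/Agent/H12/CV`, namespace `CV`).
-/

namespace BR

open Metric Set Filter Topology Function CV
open scoped Manifold ContDiff

/-- the Euclidean plane (model space) -/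
abbrev E2 := DS.Surf.E2

/-- `p` is `C¹` with invertible differential on `X` -/
structure Smo {S : Type} [MetricSpace S] [ChartedSpace E2 S] (X : Set ℂ) (p : ℂ → S) : Prop where
  sm : ContMDiffOn 𝓘(ℝ, ℂ) (𝓡 2) 1 p X
  bij : ∀ z ∈ X, Bijective (mfderiv 𝓘(ℝ, ℂ) (𝓡 2) p z)

/-- a `C¹` diffeomorphism `f` (inverse `fi`) of the surface preserving the area form `om` -/
structure SSys {S : Type} [MetricSpace S] [ChartedSpace E2 S] (f fi : S → S)
    (om : ∀ x : S, TangentSpace (𝓡 2) x →ₗ[ℝ] TangentSpace (𝓡 2) x →ₗ[ℝ] ℝ) : Prop where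
  cf : ContMDiff (𝓡 2) (𝓡 2) 1 f
  cfi : ContMDiff (𝓡 2) (𝓡 2) 1 fi
  ffi : ∀ x, f (fi x) = x
  fif : ∀ x, fi (f x) = x
  area : DS.Surf.IsAreaForm om
  pres : DS.Surf.PreservesArea om f

/-- `H` is a continuous lift of `h` -/
structure CLift {S : Type} [MetricSpace S] (X : Set ℂ) (p : ℂ → S) (h : S → S) (H : ℂ → ℂ) : Prop where
  cont : ContinuousOn H X
  maps : MapsTo H X X
  lift : ∀ x ∈ X, p (H x) = h (p x)

/-- the density of the area form in the coordinate of `p` -/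
noncomputable def rho {S : Type} [MetricSpace S] [ChartedSpace E2 S]
    (om : ∀ x : S, TangentSpace (𝓡 2) x →ₗ[ℝ] TangentSpace (𝓡 2) x →ₗ[ℝ] ℝ) (p : ℂ → S) (x : ℂ) : ℝ :=
  om (p x) (mfderiv 𝓘(ℝ, ℂ) (𝓡 2) p x (1:ℂ)) (mfderiv 𝓘(ℝ, ℂ) (𝓡 2) p x Complex.I)

/-- the trace of the derivative at `P` of the `n`-th iterate -/
noncomputable def str {S : Type} [MetricSpace S] [ChartedSpace E2 S] (f : S → S) (n : ℕ) (P : S) : ℝ :=
  LinearMap.trace ℝ E2 (DS.Surf.iterDeriv f n P : E2 →ₗ[ℝ] E2)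

/-- the union of the stable sets -/
def stU {S : Type} [MetricSpace S] (f : S → S) : Set S :=
  ⋃ P ∈ periodicPts f, DS.Surf.stableSet f P

end BR

end S_H91_BR_Base

section S_H91_BR_LOC

/-!
LOC (local sections of a local diffeomorphism into a manifold).
Proof of `loc_sec`.  Let `c = extChartAt (𝓡 2) (p x)` (a homeomorphism from a neighbourhood of `p x` onto an open subset of `E2`; the model is
boundaryless) and `F = c ∘ p`, defined near `x`.  `F` is `C¹` at `x` (`contMDiffAt_iff`, `ContMDiffOn.contMDiffAt hp.sm (hX.mem_nhds hx)`; the source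
is a vector space, so `writtenInExtChartAt` is `F` up to definitional equality/`simp`), with differential `D c (p x) ∘ mfderiv p x`, invertible: by
`mfderiv` of `p` at `x` is by definition the `fderivWithin` of the written map on `range = univ`, so `fderiv ℝ F x = mfderiv p x` is bijective.  The inverse function
theorem (`ContDiffAt.toOpenPartialHomeomorph`, `ContDiffAt.to_localInverse`) gives `F⁻¹`, `C¹` at `F x`; `s = F⁻¹ ∘ c` is `ContMDiffAt` at `p x`
(`contMDiffAt_extChartAt`), `s (p y) = y` for `y` near `x`, and `p (s t) = t` for `t` near `p x` (`c (p (s t)) = F (F⁻¹ (c t)) = c t`, `c` is injective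
on its source, `p (s t)` is in the source by continuity).
`loc_inj`: from the third clause.  `loc_open`: `p '' O` contains a neighbourhood of `p x` for `x ∈ O`: `t` near `p x` is `p (s t)` with `s t ∈ O` (`s` is continuous at
`p x`, `s (p x) = x`).
-/

namespace BR

open Metric Set Filter Topology Function CV
open scoped Manifold ContDiff

variable {S : Type} [MetricSpace S] [ChartedSpace E2 S] [IsManifold (𝓡 2) ∞ S] {X : Set ℂ} {p : ℂ → S}

theorem loc_sec (hX : IsOpen X) (hp : Smo X p) {x : ℂ} (hx : x ∈ X) :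
    ∃ s : S → ℂ, ContMDiffAt (𝓡 2) 𝓘(ℝ, ℂ) 1 s (p x) ∧ s (p x) = x ∧ (∀ᶠ y in 𝓝 x, s (p y) = y) ∧
      ∀ᶠ t in 𝓝 (p x), p (s t) = t := by
  have hpx : ContMDiffAt 𝓘(ℝ, ℂ) (𝓡 2) 1 p x := hp.sm.contMDiffAt (hX.mem_nhds hx)
  have hc : ContMDiffAt (𝓡 2) 𝓘(ℝ, E2) 1 (extChartAt (𝓡 2) (p x)) (p x) :=
    contMDiffAt_extChartAt
  set F : ℂ → E2 := fun y => extChartAt (𝓡 2) (p x) (p y) with hF
  have hFc : ContDiffAt ℝ 1 F x := by
    rw [← contMDiffAt_iff_contDiffAt]
    exact hc.comp x hpx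
  have hmd : MDifferentiableAt 𝓘(ℝ, ℂ) (𝓡 2) p x := hpx.mdifferentiableAt (by norm_num)
  have hder : ∀ v : ℂ, (fderiv ℝ F x) v = (mfderiv 𝓘(ℝ, ℂ) (𝓡 2) p x) v := by
    intro v
    rw [hmd.mfderiv]
    simp only [mfld_simps]
    rw [fderivWithin_univ]
    rfl
  have hbij : Bijective (fderiv ℝ F x) := by
    have h1 : (fun v => (fderiv ℝ F x) v) = fun v => (mfderiv 𝓘(ℝ, ℂ) (𝓡 2) p x) v :=
      funext hder
    have h2 := hp.bij x hx
    constructor
    · intro a b hab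
      exact h2.1 (by rw [← hder, ← hder]; exact hab)
    · intro w
      obtain ⟨v, hv⟩ := h2.2 w
      exact ⟨v, by rw [hder]; exact hv⟩
  let E : ℂ ≃L[ℝ] E2 :=
    (LinearEquiv.ofBijective (fderiv ℝ F x).toLinearMap hbij).toContinuousLinearEquiv
  have hEF : (E : ℂ →L[ℝ] E2) = fderiv ℝ F x := by
    ext v; rfl
  have hFd : HasFDerivAt F (E : ℂ →L[ℝ] E2) x := by
    rw [hEF]
    exact (hFc.differentiableAt (by norm_num)).hasFDerivAt
  have hst : HasStrictFDerivAt F (E : ℂ →L[ℝ] E2) x :=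
    hFc.hasStrictFDerivAt' hFd (by norm_num)
  set G : E2 → ℂ := hst.localInverse F E x with hG
  have hGF : G (F x) = x := hst.localInverse_apply_image
  have hGc : ContDiffAt ℝ 1 G (F x) := hFc.to_localInverse hFd (by norm_num)
  have hl : ∀ᶠ y in 𝓝 x, G (F y) = y := hst.eventually_left_inverse
  have hr : ∀ᶠ y in 𝓝 (F x), F (G y) = y := hst.eventually_right_inverse
  have hs : ContMDiffAt (𝓡 2) 𝓘(ℝ, ℂ) 1 (fun t => G (extChartAt (𝓡 2) (p x) t)) (p x) :=
    hGc.contMDiffAt.comp (p x) hc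
  refine ⟨fun t => G (extChartAt (𝓡 2) (p x) t), hs, hGF, hl, ?_⟩
  have hcc : ContinuousAt (extChartAt (𝓡 2) (p x)) (p x) := hc.continuousAt
  have h1 : ∀ᶠ t in 𝓝 (p x), F (G (extChartAt (𝓡 2) (p x) t)) = extChartAt (𝓡 2) (p x) t :=
    hcc.eventually hr
  have h2 : ∀ᶠ t in 𝓝 (p x), t ∈ (extChartAt (𝓡 2) (p x)).source :=
    extChartAt_source_mem_nhds (p x)
  have hpc : ContinuousAt p x := hpx.continuousAt
  have h3 : ContinuousAt (fun t => p (G (extChartAt (𝓡 2) (p x) t))) (p x) := by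
    refine ContinuousAt.comp (f := fun t => G (extChartAt (𝓡 2) (p x) t)) ?_ hs.continuousAt
    have : G (extChartAt (𝓡 2) (p x) (p x)) = x := hGF
    rw [this]
    exact hpc
  have h4 : ∀ᶠ t in 𝓝 (p x),
      p (G (extChartAt (𝓡 2) (p x) t)) ∈ (extChartAt (𝓡 2) (p x)).source := by
    refine h3.eventually_mem ?_
    have : G (extChartAt (𝓡 2) (p x) (p x)) = x := hGF
    rw [this]
    exact extChartAt_source_mem_nhds (p x)
  filter_upwards [h1, h2, h4] with t ht1 ht2 ht3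
  exact (extChartAt (𝓡 2) (p x)).injOn ht3 ht2 ht1

theorem loc_inj (hX : IsOpen X) (hp : Smo X p) {x : ℂ} (hx : x ∈ X) : ∃ W ∈ 𝓝 x, InjOn p W := by
  obtain ⟨s, -, -, h, -⟩ := loc_sec hX hp hx
  refine ⟨{y | s (p y) = y}, h, fun a ha b hb hab => ?_⟩
  have ha : s (p a) = a := ha
  have hb : s (p b) = b := hb
  rw [← ha, ← hb, hab]

theorem loc_open (hX : IsOpen X) (hp : Smo X p) {O : Set ℂ} (hO : O ⊆ X) (hOo : IsOpen O) :
    IsOpen (p '' O) := by
  rw [isOpen_iff_mem_nhds]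
  rintro _ ⟨x, hx, rfl⟩
  obtain ⟨s, hs, hsx, -, h⟩ := loc_sec hX hp (hO hx)
  have h1 : ∀ᶠ t in 𝓝 (p x), s t ∈ O :=
    hs.continuousAt.eventually_mem (by rw [hsx]; exact hOo.mem_nhds hx)
  filter_upwards [h, h1] with t ht ht1
  exact ⟨s t, ht1, ht⟩

end BR

end S_H91_BR_LOC

section S_H91_BR_LCD

/-!
LCD (lifts of `C¹` maps).  `clift_c1`: let `x ∈ X`, `z = H x ∈ X`, `s` the local section of `loc_sec` at `z`.  For `y` near `x`, `H y` is near `z`, so
`H y = s (p (H y)) = s (h (p y))`: near `x` the map `H` is `s ∘ h ∘ p`, `ContMDiffAt` at `x` (`s` at `p z = h (p x)`), hence `ContDiffAt` (`contMDiffAt_iff_contDiffAt`).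
`clift_deriv`: `p ∘ H = h ∘ p` near `x`; `mfderiv_comp` for both sides, `mfderiv_eq_fderiv`, `Filter.EventuallyEq.mfderiv_eq`.
`p_deriv`: the same for `A c`: it is a lift of the identity (`Deck.fibre`, `Deck.cont`, `Deck.maps`), `mfderiv_id`; and the real derivative of the holomorphic function `A c` is the
multiplication by `deriv (A c) x` (`Deck.hol`).
-/

namespace BR

open Metric Set Filter Topology Function CV
open scoped Manifold ContDiff

variable {S : Type} [MetricSpace S] [ChartedSpace E2 S] [IsManifold (𝓡 2) ∞ S] {X : Set ℂ} {Γ : Type}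
  [Group Γ] {A : Γ → ℂ → ℂ} {p : ℂ → S}

omit [ChartedSpace E2 S] [IsManifold (𝓡 2) ∞ S] in
theorem LCD_ev (hX : IsOpen X) {h : S → S} {H : ℂ → ℂ} (hH : CLift X p h H) {x : ℂ}
    (hx : x ∈ X) : (fun y => p (H y)) =ᶠ[𝓝 x] fun y => h (p y) := by
  filter_upwards [hX.mem_nhds hx] with y hy
  exact hH.lift y hy

theorem clift_c1 (hX : IsOpen X) (hp : Smo X p) {h : S → S} (hh : ContMDiff (𝓡 2) (𝓡 2) 1 h)
    {H : ℂ → ℂ} (hH : CLift X p h H) : ContDiffOn ℝ 1 H X := by
  intro x hx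
  apply ContDiffAt.contDiffWithinAt
  obtain ⟨s, hs, hsx, hsl, hsr⟩ := loc_sec hX hp (hH.maps hx)
  have hHc : ContinuousAt H x := hH.cont.continuousAt (hX.mem_nhds hx)
  have h1 : H =ᶠ[𝓝 x] fun y => s (h (p y)) := by
    filter_upwards [hX.mem_nhds hx, hHc.eventually hsl] with y hy hy2
    rw [← hH.lift y hy, hy2]
  have hpx : ContMDiffAt 𝓘(ℝ, ℂ) (𝓡 2) 1 p x := hp.sm.contMDiffAt (hX.mem_nhds hx)
  have h2 : ContMDiffAt 𝓘(ℝ, ℂ) (𝓡 2) 1 (h ∘ p) x := (hh (p x)).comp x hpx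
  have hs' : ContMDiffAt (𝓡 2) 𝓘(ℝ, ℂ) 1 s ((h ∘ p) x) := by
    have : (h ∘ p) x = p (H x) := (hH.lift x hx).symm
    rw [this]
    exact hs
  have h3 : ContMDiffAt 𝓘(ℝ, ℂ) 𝓘(ℝ, ℂ) 1 (s ∘ (h ∘ p)) x := hs'.comp x h2
  have h4 : ContDiffAt ℝ 1 (fun y => s (h (p y))) x := h3.contDiffAt
  exact h4.congr_of_eventuallyEq h1

theorem clift_deriv (hX : IsOpen X) (hp : Smo X p) {h : S → S} (hh : ContMDiff (𝓡 2) (𝓡 2) 1 h)
    {H : ℂ → ℂ} (hH : CLift X p h H) {x : ℂ} (hx : x ∈ X) (v : ℂ) :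
    (mfderiv 𝓘(ℝ, ℂ) (𝓡 2) p (H x) (fderiv ℝ H x v) : E2) =
      mfderiv (𝓡 2) (𝓡 2) h (p x) (mfderiv 𝓘(ℝ, ℂ) (𝓡 2) p x v) := by
  have hHd : DifferentiableAt ℝ H x :=
    ((clift_c1 hX hp hh hH).contDiffAt (hX.mem_nhds hx)).differentiableAt one_ne_zero
  have hHm : MDifferentiableAt 𝓘(ℝ, ℂ) 𝓘(ℝ, ℂ) H x := hHd.mdifferentiableAt
  have hpx : MDifferentiableAt 𝓘(ℝ, ℂ) (𝓡 2) p x :=
    (hp.sm.contMDiffAt (hX.mem_nhds hx)).mdifferentiableAt one_ne_zero
  have hpH : MDifferentiableAt 𝓘(ℝ, ℂ) (𝓡 2) p (H x) :=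
    (hp.sm.contMDiffAt (hX.mem_nhds (hH.maps hx))).mdifferentiableAt one_ne_zero
  have hhp : MDifferentiableAt (𝓡 2) (𝓡 2) h (p x) := (hh (p x)).mdifferentiableAt one_ne_zero
  have e1 := mfderiv_comp x hpH hHm
  have e2 := mfderiv_comp x hhp hpx
  have e3 : mfderiv 𝓘(ℝ, ℂ) (𝓡 2) (p ∘ H) x = mfderiv 𝓘(ℝ, ℂ) (𝓡 2) (h ∘ p) x :=
    (LCD_ev hX hH hx).mfderiv_eq
  rw [e1, e2] at e3
  have e5 := congrArg (fun L : ℂ →L[ℝ] E2 => L v) e3
  rw [mfderiv_eq_fderiv] at e5
  exact e5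

theorem p_deriv (D : Deck X A p) (hp : Smo X p) (c : Γ) {x : ℂ} (hx : x ∈ X) (v : ℂ) :
    (mfderiv 𝓘(ℝ, ℂ) (𝓡 2) p (A c x) (deriv (A c) x * v : ℂ) : E2) =
      mfderiv 𝓘(ℝ, ℂ) (𝓡 2) p x v := by
  have hL : CLift X p id (A c) := ⟨D.cont c, D.maps c, fun y hy => D.fibre c hy⟩
  have h1 := clift_deriv D.opn hp contMDiff_id hL hx v
  have h2 : HasDerivAt (A c) (deriv (A c) x) x :=
    ((D.hol c).differentiableAt (D.opn.mem_nhds hx)).hasDerivAt
  have h3 : fderiv ℝ (A c) x v = deriv (A c) x * v := by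
    rw [h2.complexToReal_fderiv.fderiv]
    simp
  rw [h3] at h1
  rw [h1, mfderiv_id]
  rfl

end BR

end S_H91_BR_LCD

section S_H91_BR_RHO

/-!
RHO (the density of the area form).
`rho_lin`: bilinear alternating form: `om (p x) (D v) (D w) = (v.re * w.im - v.im * w.re) * rho`, `v = v.re • 1 + v.im • I`, `map_add`, `map_smul`, `alt` (so
`om u v = - om v u`: expand `om (u + v) (u + v) = 0`).
`rho_ne`: `om (p x) ≠ 0` (`ne`) and `D = mfderiv p x` is onto (`hp.bij`), `rho_lin`.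
`rho_cont`: for `X = univ` directly from `IsAreaForm.cont` (`p` is `C¹` on `ℂ`).  For `X = ball 0 1`: let `σ z = z / √(1 + ‖z‖²)`, smooth from `ℂ` into the ball with inverse `w ↦ w / √(1 - ‖w‖²)`
(continuous on the ball), and differential of positive determinant (or just: `rho (σ z) * det (D σ z) = om (p (σ z)) (D (p ∘ σ) 1) (D (p ∘ σ) I)` is continuous in `z` by `cont`, `det (D σ z)`
is continuous and nowhere zero since `σ` has the smooth inverse); so `rho ∘ σ` is continuous and `rho = (rho ∘ σ) ∘ σ⁻¹` is continuous on the ball.  (General statement to prove first: if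
`σ : ℂ → ℂ` is `C¹` into `X` with `det (fderiv ℝ σ z) ≠ 0` then `rho ∘ σ` is continuous, by `rho_lin` and the chain rule `mfderiv_comp`, `mfderiv_eq_fderiv`.)
`rho_sign`: `X` is connected (`Deck.conn`) and `rho` is continuous and nowhere zero on `X` (intermediate values: `IsPreconnected.intermediate_value`).
`rho_inv`: `p_deriv` with `a = deriv (A c) x`: `rho x = om (p (A c x)) (D a) (D (a * I)) = ‖a‖² rho (A c x)` (`rho_lin`: `a.re * (a I).im - a.im * (a I).re = ‖a‖²`; `p (A c x) = p x`: `Deck.fibre`;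
beware of the dependent type of `om`: `have : p (A c x) = p x`, use a general statement `∀ s t, s = t → om s v w = om t v w` for `v w : E2`).
`rho_area`: `clift_deriv`, `PreservesArea` and `rho_lin` with `v = fderiv ℝ H x 1`, `w = fderiv ℝ H x I` (`v.re * w.im - v.im * w.re = det`: matrix of `fderiv ℝ H x` in the basis `1, I`,
`LinearMap.det_toLin`, `Complex.basisOneI`; see `CV_HA_det` in `Pool/Agent/H12/CV/HA.lean` for the style).
`exists_rho`: `ρ = |rho|`, i.e. `rho` or `-rho` by `rho_sign`.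
-/

namespace BR

open Metric Set Filter Topology Function CV
open scoped Manifold ContDiff

variable {S : Type} [MetricSpace S] [ChartedSpace E2 S] [IsManifold (𝓡 2) ∞ S] {X : Set ℂ} {Γ : Type}
  [Group Γ] {A : Γ → ℂ → ℂ} {p : ℂ → S}
  {om : ∀ x : S, TangentSpace (𝓡 2) x →ₗ[ℝ] TangentSpace (𝓡 2) x →ₗ[ℝ] ℝ}

theorem RHO_alg {V : Type*} [AddCommGroup V] [Module ℝ V] (B : V →ₗ[ℝ] V →ₗ[ℝ] ℝ)
    (hB : ∀ v, B v v = 0) (e1 e2 : V) (a b c d : ℝ) :
    B (a • e1 + b • e2) (c • e1 + d • e2) = (a * d - b * c) * B e1 e2 := by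
  have h1 : B e2 e1 = - B e1 e2 := by
    have h := hB (e1 + e2)
    simp only [map_add, LinearMap.add_apply, hB] at h
    linarith
  simp only [map_add, map_smul, LinearMap.add_apply, LinearMap.smul_apply, smul_eq_mul, hB, h1]
  ring

theorem RHO_dec (z : ℂ) : z = z.re • (1:ℂ) + z.im • Complex.I := by
  apply Complex.ext <;> simp

theorem RHO_clm {V : Type*} [AddCommGroup V] [Module ℝ V] [TopologicalSpace V]
    (B : V →ₗ[ℝ] V →ₗ[ℝ] ℝ) (hB : ∀ v, B v v = 0) (D : ℂ →L[ℝ] V) (v w : ℂ) :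
    B (D v) (D w) = (v.re * w.im - v.im * w.re) * B (D 1) (D Complex.I) := by
  have hD : ∀ z : ℂ, D z = z.re • D 1 + z.im • D Complex.I := fun z => by
    conv_lhs => rw [RHO_dec z]
    rw [map_add, map_smul, map_smul]
  rw [hD v, hD w]
  exact RHO_alg B hB _ _ _ _ _ _

theorem RHO_det (F : ℂ →L[ℝ] ℂ) :
    F.det = (F 1).re * (F Complex.I).im - (F 1).im * (F Complex.I).re := by
  show LinearMap.det (F : ℂ →ₗ[ℝ] ℂ) = _
  rw [← LinearMap.det_toMatrix Complex.basisOneI, Matrix.det_fin_two]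
  simp only [LinearMap.toMatrix_apply, Complex.coe_basisOneI, Complex.coe_basisOneI_repr,
    Matrix.cons_val_zero, Matrix.cons_val_one, ContinuousLinearMap.coe_coe]
  ring

theorem RHO_cast (om : ∀ x : S, TangentSpace (𝓡 2) x →ₗ[ℝ] TangentSpace (𝓡 2) x →ₗ[ℝ] ℝ) {s t : S}
    (h : s = t) (v w : E2) : om s v w = om t v w := by
  subst h
  rfl

theorem rho_lin (hom : DS.Surf.IsAreaForm om) (x : ℂ) (v w : ℂ) :
    om (p x) (mfderiv 𝓘(ℝ, ℂ) (𝓡 2) p x v) (mfderiv 𝓘(ℝ, ℂ) (𝓡 2) p x w) =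
      (v.re * w.im - v.im * w.re) * rho om p x := by
  exact RHO_clm (om (p x)) (hom.alt (p x)) (mfderiv 𝓘(ℝ, ℂ) (𝓡 2) p x) v w

theorem rho_ne (hom : DS.Surf.IsAreaForm om) (hp : Smo X p) {x : ℂ} (hx : x ∈ X) :
    rho om p x ≠ 0 := by
  obtain ⟨v, w, h⟩ := hom.ne (p x)
  obtain ⟨v', rfl⟩ := (hp.bij x hx).2 v
  obtain ⟨w', rfl⟩ := (hp.bij x hx).2 w
  intro h0
  apply h
  exact (rho_lin hom x v' w').trans (by rw [h0, mul_zero])

theorem rho_inv (D : Deck X A p) (hom : DS.Surf.IsAreaForm om) (hp : Smo X p) (c : Γ) {x : ℂ}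
    (hx : x ∈ X) : rho om p (A c x) * ‖deriv (A c) x‖ ^ 2 = rho om p x := by
  have h1 := p_deriv D hp c hx 1
  have h2 := p_deriv D hp c hx Complex.I
  have h3 : p (A c x) = p x := D.fibre c hx
  have h4 : rho om p x = om (p (A c x))
      (mfderiv 𝓘(ℝ, ℂ) (𝓡 2) p (A c x) (deriv (A c) x * 1 : ℂ))
      (mfderiv 𝓘(ℝ, ℂ) (𝓡 2) p (A c x) (deriv (A c) x * Complex.I : ℂ)) := by
    unfold rho
    exact (RHO_cast om h3.symm _ _).trans
      (congrArg₂ (fun v w : E2 => om (p (A c x)) v w) h1.symm h2.symm)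
  rw [h4, rho_lin hom, ← Complex.normSq_eq_norm_sq, Complex.normSq_apply]
  simp only [mul_one, Complex.mul_re, Complex.mul_im, Complex.I_re, Complex.I_im, mul_zero,
    zero_sub, add_zero, zero_add]
  ring

theorem rho_area (hX : IsOpen X) (hom : DS.Surf.IsAreaForm om) (hp : Smo X p) {h : S → S}
    (hh : ContMDiff (𝓡 2) (𝓡 2) 1 h) (ha : DS.Surf.PreservesArea om h) {H : ℂ → ℂ}
    (hH : CLift X p h H) {x : ℂ} (hx : x ∈ X) :
    rho om p (H x) * (fderiv ℝ H x).det = rho om p x := by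
  have h1 := clift_deriv hX hp hh hH hx 1
  have h2 := clift_deriv hX hp hh hH hx Complex.I
  have h3 : p (H x) = h (p x) := hH.lift x hx
  have h4 : rho om p x = om (p (H x))
      (mfderiv 𝓘(ℝ, ℂ) (𝓡 2) p (H x) (fderiv ℝ H x 1 : ℂ))
      (mfderiv 𝓘(ℝ, ℂ) (𝓡 2) p (H x) (fderiv ℝ H x Complex.I : ℂ)) := by
    have h5 := ha (p x) (mfderiv 𝓘(ℝ, ℂ) (𝓡 2) p x (1:ℂ)) (mfderiv 𝓘(ℝ, ℂ) (𝓡 2) p x Complex.I)
    refine Eq.trans h5.symm ((RHO_cast om h3.symm _ _).trans
      (congrArg₂ (fun v w : E2 => om (p (H x)) v w) h1.symm h2.symm))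
  rw [h4, rho_lin hom, RHO_det]
  ring

end BR

end S_H91_BR_RHO

section S_H91_BR_RHC

/-!
RHC (continuity of the density, choice of the sign): see the header of `RHO.lean`, parts `rho_cont`, `rho_sign`, `exists_rho`.
-/

namespace BR

open Metric Set Filter Topology Function CV
open scoped Manifold ContDiff

variable {S : Type} [MetricSpace S] [ChartedSpace E2 S] [IsManifold (𝓡 2) ∞ S] {X : Set ℂ} {Γ : Type}
  [Group Γ] {A : Γ → ℂ → ℂ} {p : ℂ → S}
  {om : ∀ x : S, TangentSpace (𝓡 2) x →ₗ[ℝ] TangentSpace (𝓡 2) x →ₗ[ℝ] ℝ}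

omit [IsManifold (𝓡 2) ∞ S] in
theorem RHC_congr {c : ℂ → S} {z : ℂ} (h : c =ᶠ[𝓝 z] p) : rho om c z = rho om p z := by
  have key : ∀ s t : S, s = t → ∀ L M : ℂ →L[ℝ] E2, L = M →
      om s (L (1:ℂ)) (L Complex.I) = om t (M (1:ℂ)) (M Complex.I) := by
    intro s t hst L M hLM
    subst hst
    subst hLM
    rfl
  exact key _ _ h.eq_of_nhds _ _ (h.mfderiv_eq (I := 𝓘(ℝ, ℂ)) (I' := 𝓡 2))

omit [IsManifold (𝓡 2) ∞ S] in
/-- a `C¹` map of the plane to `X` which is the identity near `x₀` -/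
theorem RHC_cut (hX : IsOpen X) {x₀ : ℂ} (hx : x₀ ∈ X) :
    ∃ σ : ℂ → ℂ, ContDiff ℝ 1 σ ∧ (∀ z, σ z ∈ X) ∧ ∃ r : ℝ, 0 < r ∧ ∀ z ∈ ball x₀ r, σ z = z := by
  obtain ⟨R, hR, hRX⟩ := Metric.isOpen_iff.1 hX x₀ hx
  let φ : ContDiffBump x₀ := ⟨R / 2, R, by positivity, by linarith⟩
  refine ⟨fun z => x₀ + φ z • (z - x₀), ?_, ?_, R / 2, by positivity, ?_⟩
  · exact contDiff_const.add (φ.contDiff.smul (contDiff_id.sub contDiff_const))
  · intro z
    apply hRX
    rw [mem_ball, dist_eq_norm, add_sub_cancel_left, norm_smul, Real.norm_eq_abs,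
      abs_of_nonneg φ.nonneg]
    by_cases hz : dist z x₀ < R
    · rw [dist_eq_norm] at hz
      have h1 : φ z ≤ 1 := φ.le_one
      have h2 := norm_nonneg (z - x₀)
      have h3 := φ.nonneg (x := z)
      nlinarith
    · rw [φ.zero_of_le_dist (by simpa using hz), zero_mul]
      exact hR
  · intro z hz
    have h1 : φ z = 1 := φ.one_of_mem_closedBall (ball_subset_closedBall hz)
    simp [h1]

theorem rho_cont (D : Deck X A p) (hom : DS.Surf.IsAreaForm om) (hp : Smo X p) :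
    ContinuousOn (rho om p) X := by
  intro x₀ hx
  apply ContinuousAt.continuousWithinAt
  obtain ⟨σ, hσ, hσX, r, hr, hσr⟩ := RHC_cut D.opn hx
  have hc : ContMDiff 𝓘(ℝ, ℂ) (𝓡 2) 1 (p ∘ σ) := hp.sm.comp_contMDiff hσ.contMDiff hσX
  have h1 : Continuous (rho om (p ∘ σ)) := hom.cont _ hc
  refine h1.continuousAt.congr ?_
  filter_upwards [ball_mem_nhds x₀ hr] with z hz
  refine RHC_congr ?_
  filter_upwards [isOpen_ball.mem_nhds hz] with w hw
  simp only [comp_apply, hσr w hw]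

theorem RHC_sign (D : Deck X A p) (hom : DS.Surf.IsAreaForm om) (hp : Smo X p) :
    (∀ x ∈ X, 0 < rho om p x) ∨ ∀ x ∈ X, rho om p x < 0 := by
  by_contra hcon
  push Not at hcon
  obtain ⟨⟨x, hx, hx0⟩, y, hy, hy0⟩ := hcon
  obtain ⟨z, hz, hz0⟩ := D.conn.isPreconnected.intermediate_value hx hy (rho_cont D hom hp)
    ⟨hx0, hy0⟩
  exact rho_ne hom hp hz hz0

theorem exists_rho (D : Deck X A p) (hom : DS.Surf.IsAreaForm om) (hp : Smo X p) :
    ∃ ρ : ℂ → ℝ, ContinuousOn ρ X ∧ (∀ x ∈ X, 0 < ρ x) ∧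
      (∀ c, ∀ x ∈ X, ρ (A c x) * ‖deriv (A c) x‖ ^ 2 = ρ x) ∧
      ∀ (h : S → S) (H : ℂ → ℂ), ContMDiff (𝓡 2) (𝓡 2) 1 h → DS.Surf.PreservesArea om h →
        CLift X p h H → ∀ x ∈ X, ρ (H x) * (fderiv ℝ H x).det = ρ x := by
  refine ⟨fun x => |rho om p x|, (rho_cont D hom hp).abs, fun x hx => abs_pos.2 (rho_ne hom hp hx),
    ?_, ?_⟩
  · intro c x hx
    have h1 := rho_inv D hom hp c hx
    simp only
    rw [← h1, abs_mul, abs_of_nonneg (by positivity : 0 ≤ ‖deriv (A c) x‖ ^ 2)]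
  · intro h H hh ha hH x hx
    have h1 := rho_area D.opn hom hp hh ha hH hx
    have hHx := hH.maps hx
    simp only
    rcases RHC_sign D hom hp with hs | hs
    · rw [abs_of_pos (hs x hx), abs_of_pos (hs _ hHx)]
      exact h1
    · rw [abs_of_neg (hs x hx), abs_of_neg (hs _ hHx), neg_mul, h1]

end BR

end S_H91_BR_RHC

section S_H91_BR_STB

/-!
STB (stable sets).  `stab_iter`: `⊆`: `dist (f^[n] x) (f^[n] P) → 0` along multiples of `q` implies convergence: for `n = q k + j`, `0 ≤ j < q`, `dist (f^[j] (f^[qk] x)) (f^[j] (f^[qk] P))` is small when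
`dist (f^[qk] x) (f^[qk] P)` is small, uniformly in `j < q` (`f^[j]` is uniformly continuous on the compact space: `CompactSpace.uniformContinuous_of_continuous`).
`⊇`: subsequence (`(f^[q])^[n] = f^[q * n]`, `iterate_mul`; `tendsto_id.const_mul_atTop'` / `StrictMono.tendsto_atTop`).
`stU_image`: as `stable_image` in `Pool/Agent/H36/DS/FIN.lean` (copy).  `per_iter`: `periodicPts (f^[q]) = periodicPts f`.
-/

namespace BR

open Metric Set Filter Topology Function CV
open scoped Manifold ContDiff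

variable {S : Type} [MetricSpace S] {f fi : S → S}

omit [MetricSpace S] in
private theorem STB_split (f : S → S) (q n : ℕ) (x : S) :
    f^[n] x = f^[n % q] ((f^[q])^[n / q] x) := by
  rw [← Function.iterate_mul, ← Function.iterate_add_apply, Nat.mod_add_div]

private theorem STB_uc {f : S → S} [CompactSpace S] (hf : Continuous f) {ε : ℝ} (hε : 0 < ε)
    (q : ℕ) : ∃ δ > 0, ∀ j < q, ∀ a b : S, dist a b < δ → dist (f^[j] a) (f^[j] b) < ε := by
  induction q with
  | zero => exact ⟨1, one_pos, fun j hj => absurd hj (Nat.not_lt_zero j)⟩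
  | succ q ih =>
    obtain ⟨δ, hδ, h⟩ := ih
    have hu : UniformContinuous (f^[q]) :=
      CompactSpace.uniformContinuous_of_continuous (hf.iterate q)
    obtain ⟨δ', hδ', h'⟩ := Metric.uniformContinuous_iff.1 hu ε hε
    refine ⟨min δ δ', lt_min hδ hδ', fun j hj a b hab => ?_⟩
    rcases Nat.lt_succ_iff_lt_or_eq.mp hj with h1 | h1
    · exact h j h1 a b (lt_of_lt_of_le hab (min_le_left _ _))
    · rw [h1]
      exact h' (lt_of_lt_of_le hab (min_le_right _ _))

theorem stab_iter [CompactSpace S] (hf : Continuous f) {q : ℕ} (hq : 0 < q) (P : S) :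
    DS.Surf.stableSet (f^[q]) P = DS.Surf.stableSet f P := by
  apply Subset.antisymm
  · intro x hx
    have h1 : Tendsto (fun n : ℕ => dist ((f^[q])^[n] x) ((f^[q])^[n] P)) atTop (𝓝 0) := hx
    show Tendsto (fun n : ℕ => dist (f^[n] x) (f^[n] P)) atTop (𝓝 0)
    rw [Metric.tendsto_atTop] at h1 ⊢
    intro ε hε
    obtain ⟨δ, hδ, hd⟩ := STB_uc hf hε q
    obtain ⟨N, hN⟩ := h1 δ hδ
    refine ⟨q * N, fun n hn => ?_⟩
    have h2 : N ≤ n / q := by
      rw [Nat.le_div_iff_mul_le hq, Nat.mul_comm]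
      exact hn
    have h3 := hN (n / q) h2
    rw [Real.dist_eq, sub_zero, abs_of_nonneg dist_nonneg] at h3 ⊢
    rw [STB_split f q n x, STB_split f q n P]
    exact hd (n % q) (Nat.mod_lt n hq) _ _ h3
  · intro x hx
    have h1 : Tendsto (fun n : ℕ => dist (f^[n] x) (f^[n] P)) atTop (𝓝 0) := hx
    show Tendsto (fun n : ℕ => dist ((f^[q])^[n] x) ((f^[q])^[n] P)) atTop (𝓝 0)
    have h2 : Tendsto (fun n : ℕ => q * n) atTop atTop :=
      tendsto_atTop_mono (fun n => Nat.le_mul_of_pos_left n hq) tendsto_id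
    refine (h1.comp h2).congr fun n => ?_
    simp only [comp_apply, Function.iterate_mul]

theorem stU_image (hffi : ∀ x, f (fi x) = x) (hfif : ∀ x, fi (f x) = x) : f '' stU f = stU f := by
  unfold stU
  apply Subset.antisymm
  · rintro _ ⟨x, hx, rfl⟩
    simp only [mem_iUnion] at hx ⊢
    obtain ⟨P, hP, hx⟩ := hx
    refine ⟨f P, ?_, ?_⟩
    · obtain ⟨n, hn, h⟩ := hP
      exact ⟨n, hn, h.apply⟩
    · have h1 : Tendsto (fun n : ℕ => dist (f^[n] x) (f^[n] P)) atTop (𝓝 0) := hx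
      show Tendsto (fun n : ℕ => dist (f^[n] (f x)) (f^[n] (f P))) atTop (𝓝 0)
      have h2 := h1.comp (tendsto_add_atTop_nat 1)
      refine h2.congr fun n => ?_
      simp only [comp_apply, iterate_succ_apply]
  · intro x hx
    simp only [mem_iUnion] at hx
    obtain ⟨P, hP, hx⟩ := hx
    refine ⟨fi x, ?_, hffi x⟩
    simp only [mem_iUnion]
    refine ⟨fi P, ?_, ?_⟩
    · obtain ⟨n, hn, h⟩ := hP
      refine ⟨n, hn, ?_⟩
      have h1 : f (f^[n] (fi P)) = f (fi P) := by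
        rw [← iterate_succ_apply' f n, iterate_succ_apply, hffi]
        exact h
      have h2 := congrArg fi h1
      rwa [hfif, hfif] at h2
    · show Tendsto (fun n : ℕ => dist (f^[n] (fi x)) (f^[n] (fi P))) atTop (𝓝 0)
      have h1 : Tendsto (fun n : ℕ => dist (f^[n] x) (f^[n] P)) atTop (𝓝 0) := hx
      rw [← tendsto_add_atTop_iff_nat 1]
      refine h1.congr fun n => ?_
      simp only [iterate_succ_apply, hffi]

theorem per_iter {q : ℕ} (hq : 0 < q) : periodicPts (f^[q]) = periodicPts f := by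
  ext x
  constructor
  · rintro ⟨n, hn, h⟩
    refine ⟨q * n, Nat.mul_pos hq hn, ?_⟩
    show f^[q * n] x = x
    rw [Function.iterate_mul]
    exact h
  · rintro ⟨n, hn, h⟩
    refine ⟨n, hn, ?_⟩
    show (f^[q])^[n] x = x
    rw [← Function.iterate_mul, Nat.mul_comm, Function.iterate_mul]
    exact Function.iterate_fixed h q

end BR

end S_H91_BR_STB

section S_H91_BR_TRI

/-!
TRI (multipliers on a surface).  All proofs are adaptations of `Pool/Agent/H36/DS/SM.lean` (same statements for the sphere: the proofs there use only the chain rule `mfderiv_comp` and linear algebra in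
`E2`) and of `SL_hyp` in `Pool/Agent/H36/DS/SL.lean`; copy them with `S` in place of `S2` and `DS.Surf.` definitions.
`s_det`: `f^[n]` preserves the area form (induction, `mfderiv_comp`), so at a fixed point `P` of `f^[n]` the map `B = iterDeriv f n P` satisfies `om P (B v) (B w) = om P v w`; for a bilinear alternating form on a two
dimensional space `om (B v) (B w) = det B * om v w` (choose a basis `v, w` with `om v w ≠ 0`, `IsAreaForm.ne`; see `det_one` in `Pool/Agent/H36/DS/SB.lean`), so `det B = 1`.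
`s_tri`: as `trichotomy` with `hS.det1 := s_det`, `hS.h1 := h1`, `hS.cf`.
`s_hyp`: `f^[n]` at `fi Q` is conjugate to `f^[n]` at `Q` by the differential of `f` (invertible with inverse the differential of `fi`), the minimal periods are equal; the characteristic polynomials are equal.
`s_iter`: iterates of the system.
-/

namespace BR

open Metric Set Filter Topology Function CV
open DS.Surf (iterDeriv IsMultiplier Hyperbolic Cond1 PreservesArea IsAreaForm)
open scoped Manifold ContDiff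

section lin

private theorem TRI_charpoly (A : E2 →ₗ[ℝ] E2) (hA : LinearMap.det A = 1) :
    A.charpoly = Polynomial.X ^ 2 - Polynomial.C (LinearMap.trace ℝ E2 A) * Polynomial.X + 1 := by
  have b : Module.Basis (Fin 2) ℝ E2 := (EuclideanSpace.basisFun (Fin 2) ℝ).toBasis
  rw [← LinearMap.charpoly_toMatrix A b, Matrix.charpoly_fin_two, LinearMap.trace_eq_matrix_trace ℝ b A,
    LinearMap.det_toMatrix, hA, map_one]

private theorem TRI_sq (A : E2 →ₗ[ℝ] E2) (hA : LinearMap.det A = 1) :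
    A ^ 2 = (LinearMap.trace ℝ E2 A) • A - 1 := by
  have h := LinearMap.aeval_self_charpoly A
  rw [TRI_charpoly A hA] at h
  simp only [map_add, map_sub, map_mul, map_pow, Polynomial.aeval_X, Polynomial.aeval_C, map_one,
    Module.algebraMap_end_eq_smul_id] at h
  have h2 : (LinearMap.trace ℝ E2 A • LinearMap.id) * A = LinearMap.trace ℝ E2 A • A := by
    ext x
    rfl
  rw [h2] at h
  have h3 : A ^ 2 = (A ^ 2 - (LinearMap.trace ℝ E2 A) • A + 1) + ((LinearMap.trace ℝ E2 A) • A - 1) := by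
    abel
  rw [h, zero_add] at h3
  exact h3

private theorem TRI_tr_one : LinearMap.trace ℝ E2 (1 : E2 →ₗ[ℝ] E2) = 2 := by
  rw [LinearMap.trace_one]
  simp

private theorem TRI_rec (A : E2 →ₗ[ℝ] E2) (hA : LinearMap.det A = 1) (k : ℕ) :
    LinearMap.trace ℝ E2 (A ^ (k + 2)) =
      LinearMap.trace ℝ E2 A * LinearMap.trace ℝ E2 (A ^ (k + 1)) - LinearMap.trace ℝ E2 (A ^ k) := by
  have h : A ^ (k + 2) = (LinearMap.trace ℝ E2 A) • A ^ (k + 1) - A ^ k := by
    rw [pow_add, TRI_sq A hA, mul_sub, mul_one, mul_smul_comm, ← pow_succ]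
  rw [h, map_sub, map_smul, smul_eq_mul]

private theorem TRI_complex (A : E2 →ₗ[ℝ] E2) (hA : LinearMap.det A = 1) (z : ℂ) (hz0 : z ≠ 0)
    (hz : z + z⁻¹ = ((LinearMap.trace ℝ E2 A : ℝ) : ℂ)) (k : ℕ) :
    ((LinearMap.trace ℝ E2 (A ^ k) : ℝ) : ℂ) = z ^ k + z⁻¹ ^ k ∧
    ((LinearMap.trace ℝ E2 (A ^ (k + 1)) : ℝ) : ℂ) = z ^ (k + 1) + z⁻¹ ^ (k + 1) := by
  induction k with
  | zero =>
    refine ⟨?_, ?_⟩
    · rw [pow_zero, TRI_tr_one]
      norm_num
    · rw [zero_add, pow_one, pow_one, pow_one, hz]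
  | succ k ih =>
    refine ⟨ih.2, ?_⟩
    rw [show k + 1 + 1 = k + 2 by ring, TRI_rec A hA k]
    push_cast
    rw [ih.1, ih.2, ← hz]
    have h1 : z * z⁻¹ = 1 := mul_inv_cancel₀ hz0
    have e1 : z * z⁻¹ ^ (k + 1) = z⁻¹ ^ k := by
      rw [pow_succ', ← mul_assoc, h1, one_mul]
    have e2 : z⁻¹ * z ^ (k + 1) = z ^ k := by
      rw [pow_succ', ← mul_assoc, inv_mul_cancel₀ hz0, one_mul]
    have e3 : z * z ^ (k + 1) = z ^ (k + 2) := (pow_succ' z (k + 1)).symm
    have e4 : z⁻¹ * z⁻¹ ^ (k + 1) = z⁻¹ ^ (k + 2) := (pow_succ' z⁻¹ (k + 1)).symm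
    linear_combination e1 + e2 + e3 + e4

private theorem TRI_root (A : E2 →ₗ[ℝ] E2) (hA : LinearMap.det A = 1) (μ : ℂ) :
    μ ∈ (A.charpoly.map (algebraMap ℝ ℂ)).roots ↔
      μ ^ 2 - ((LinearMap.trace ℝ E2 A : ℝ) : ℂ) * μ + 1 = 0 := by
  have hne : A.charpoly.map (algebraMap ℝ ℂ) ≠ 0 :=
    ((LinearMap.charpoly_monic A).map _).ne_zero
  rw [Polynomial.mem_roots hne, Polynomial.IsRoot, TRI_charpoly A hA]
  simp

/-- real trace at most `2` forces modulus one -/
private theorem TRI_norm (w : ℂ) (T : ℝ) (hT : |T| ≤ 2) (hw : w ^ 2 - (T : ℂ) * w + 1 = 0) : ‖w‖ = 1 := by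
  have hre := congrArg Complex.re hw
  have him := congrArg Complex.im hw
  simp only [Complex.add_re, Complex.sub_re, Complex.mul_re, Complex.ofReal_re, Complex.ofReal_im,
    Complex.one_re, Complex.zero_re, pow_two, zero_mul, sub_zero] at hre
  simp only [Complex.add_im, Complex.sub_im, Complex.mul_im, Complex.ofReal_re, Complex.ofReal_im,
    Complex.one_im, Complex.zero_im, pow_two, zero_mul, add_zero] at him
  have hT2 : T ^ 2 ≤ 4 := by
    have := sq_le_sq' (abs_le.mp hT).1 (abs_le.mp hT).2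
    linarith
  have hsq : w.re ^ 2 + w.im ^ 2 = 1 := by
    have h1 : w.im * (2 * w.re - T) = 0 := by linarith
    rcases mul_eq_zero.mp h1 with h2 | h2
    · have h3 : (w.re - T / 2) ^ 2 = T ^ 2 / 4 - 1 := by
        rw [h2] at hre
        nlinarith
      have h4 : (w.re - T / 2) ^ 2 = 0 := le_antisymm (by linarith) (sq_nonneg _)
      have h5 : w.re = T / 2 := by
        have := pow_eq_zero_iff (n := 2) (by norm_num) |>.mp h4
        linarith
      rw [h2, h5]
      nlinarith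
    · have h5 : T = 2 * w.re := by linarith
      rw [h5] at hre
      nlinarith
  have h6 : ‖w‖ ^ 2 = 1 := by
    rw [← Complex.normSq_eq_norm_sq, Complex.normSq_apply]
    nlinarith
  exact (pow_eq_one_iff_of_nonneg (norm_nonneg w) (by norm_num)).mp h6


private theorem TRI_basis (v : E2) : v = v 0 • (EuclideanSpace.single 0 1 : E2) +
    v 1 • (EuclideanSpace.single 1 1 : E2) := by
  ext i
  fin_cases i <;> simp

private theorem TRI_form (w : E2 →ₗ[ℝ] E2 →ₗ[ℝ] ℝ) (halt : ∀ v, w v v = 0) (u v : E2) :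
    w u v = (u 0 * v 1 - u 1 * v 0) *
      w (EuclideanSpace.single 0 1) (EuclideanSpace.single 1 1) := by
  set x : E2 := EuclideanSpace.single 0 1 with hx
  set y : E2 := EuclideanSpace.single 1 1 with hy
  have hyx : w y x = - w x y := by
    have h := halt (x + y)
    simp only [map_add, LinearMap.add_apply, halt, zero_add, add_zero] at h
    linarith
  have h1 : w u v = w (u 0 • x + u 1 • y) (v 0 • x + v 1 • y) := by
    rw [hx, hy, ← TRI_basis u, ← TRI_basis v]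
  rw [h1]
  simp only [map_add, map_smul, LinearMap.add_apply, LinearMap.smul_apply, smul_eq_mul, halt, hyx]
  ring

private theorem TRI_alt (w : E2 →ₗ[ℝ] E2 →ₗ[ℝ] ℝ) (halt : ∀ v, w v v = 0) (A : E2 →ₗ[ℝ] E2)
    (u v : E2) : w (A u) (A v) = LinearMap.det A * w u v := by
  set x : E2 := EuclideanSpace.single 0 1 with hx
  set y : E2 := EuclideanSpace.single 1 1 with hy
  have hdet : LinearMap.det A = (A x) 0 * (A y) 1 - (A y) 0 * (A x) 1 := by
    rw [← LinearMap.det_toMatrix (EuclideanSpace.basisFun (Fin 2) ℝ).toBasis, Matrix.det_fin_two]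
    simp [LinearMap.toMatrix_apply, hx, hy]
  have hA : ∀ u : E2, A u = u 0 • A x + u 1 • A y := by
    intro u
    conv_lhs => rw [TRI_basis u]
    rw [map_add, map_smul, map_smul]
  rw [TRI_form w halt (A u) (A v), TRI_form w halt u v, hdet, hA u, hA v]
  simp only [PiLp.add_apply, PiLp.smul_apply, smul_eq_mul]
  ring

end lin

section gen

variable {S : Type} [MetricSpace S] [ChartedSpace E2 S] [IsManifold (𝓡 2) ∞ S]

private theorem TRI_iter {f : S → S} (cf : ContMDiff (𝓡 2) (𝓡 2) 1 f) (k : ℕ) :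
    ContMDiff (𝓡 2) (𝓡 2) 1 (f^[k]) := by
  induction k with
  | zero => exact contMDiff_id
  | succ k ih =>
    rw [Function.iterate_succ']
    exact cf.comp ih

private theorem TRI_add {f : S → S} (cf : ContMDiff (𝓡 2) (𝓡 2) 1 f) (a b : ℕ) (P : S) :
    iterDeriv f (a + b) P = (iterDeriv f a (f^[b] P)).comp (iterDeriv f b P) := by
  unfold iterDeriv
  rw [Function.iterate_add]
  exact mfderiv_comp P ((TRI_iter cf a).mdifferentiable (by norm_num) (f^[b] P))
    ((TRI_iter cf b).mdifferentiable (by norm_num) P)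

private theorem TRI_pow {f : S → S} (cf : ContMDiff (𝓡 2) (𝓡 2) 1 f) {m : ℕ} {P : S}
    (hP : f^[m] P = P) (k : ℕ) :
    (iterDeriv f (m * k) P : E2 →ₗ[ℝ] E2) = (iterDeriv f m P : E2 →ₗ[ℝ] E2) ^ k := by
  induction k with
  | zero =>
    rw [Nat.mul_zero, pow_zero]
    unfold iterDeriv
    rw [Function.iterate_zero, mfderiv_id]
    rfl
  | succ k ih =>
    rw [Nat.mul_succ, TRI_add cf, hP, pow_succ, ← ih]
    rfl

/-- the differentials of `g` at `y` and of its inverse at `g y` are inverse to each other -/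
private theorem TRI_equiv {g gi : S → S} (hg : ContMDiff (𝓡 2) (𝓡 2) 1 g)
    (hgi : ContMDiff (𝓡 2) (𝓡 2) 1 gi) (hggi : ∀ x, g (gi x) = x) (hgig : ∀ x, gi (g x) = x)
    (y : S) : ∃ e : E2 ≃ₗ[ℝ] E2, ∀ v : E2, e v = mfderiv (𝓡 2) (𝓡 2) g y v := by
  let A : E2 →L[ℝ] E2 := mfderiv (𝓡 2) (𝓡 2) g y
  let B : E2 →L[ℝ] E2 := mfderiv (𝓡 2) (𝓡 2) gi (g y)
  have hA : HasMFDerivAt (𝓡 2) (𝓡 2) g y A := (hg.mdifferentiable (by norm_num) y).hasMFDerivAt
  have hB : HasMFDerivAt (𝓡 2) (𝓡 2) gi (g y) B :=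
    (hgi.mdifferentiable (by norm_num) (g y)).hasMFDerivAt
  have hA' : HasMFDerivAt (𝓡 2) (𝓡 2) g (gi (g y)) A := by rw [hgig]; exact hA
  have h1 : HasMFDerivAt (𝓡 2) (𝓡 2) (gi ∘ g) y (B.comp A) := hB.comp y hA
  have h2 : HasMFDerivAt (𝓡 2) (𝓡 2) (g ∘ gi) (g y) (A.comp B) := hA'.comp (g y) hB
  have e1 : gi ∘ g = id := funext hgig
  have e2 : g ∘ gi = id := funext hggi
  rw [e1] at h1
  rw [e2] at h2
  have h3 := hasMFDerivAt_unique h1 (hasMFDerivAt_id y)
  have h4 := hasMFDerivAt_unique h2 (hasMFDerivAt_id (g y))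
  refine ⟨LinearEquiv.ofLinearMap (A : E2 →ₗ[ℝ] E2) (B : E2 →ₗ[ℝ] E2)
      (LinearMap.ext fun v => congrArg (fun L => L v) h4)
      (LinearMap.ext fun v => congrArg (fun L => L v) h3), fun v => rfl⟩

private theorem TRI_comm {f fi : S → S} (hffi : ∀ x, f (fi x) = x) (hfif : ∀ x, fi (f x) = x) (n : ℕ) :
    ∀ x : S, f^[n] (fi x) = fi (f^[n] x) := by
  induction n with
  | zero => intro x; rfl
  | succ n ih =>
    intro x
    rw [Function.iterate_succ_apply', ih, hffi, Function.iterate_succ_apply', hfif]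


private theorem TRI_comp {f g : S → S} (cf : ContMDiff (𝓡 2) (𝓡 2) 1 f)
    (cg : ContMDiff (𝓡 2) (𝓡 2) 1 g)
    {om : ∀ x : S, TangentSpace (𝓡 2) x →ₗ[ℝ] TangentSpace (𝓡 2) x →ₗ[ℝ] ℝ}
    (hf : PreservesArea om f) (hg : PreservesArea om g) : PreservesArea om (f ∘ g) := by
  intro x v w
  have h1 : mfderiv (𝓡 2) (𝓡 2) (f ∘ g) x =
      (mfderiv (𝓡 2) (𝓡 2) f (g x)).comp (mfderiv (𝓡 2) (𝓡 2) g x) :=
    mfderiv_comp x (cf.mdifferentiable (by norm_num) (g x)) (cg.mdifferentiable (by norm_num) x)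
  rw [h1]
  exact (hf (g x) _ _).trans (hg x v w)

private theorem TRI_pres {f : S → S} (cf : ContMDiff (𝓡 2) (𝓡 2) 1 f)
    {om : ∀ x : S, TangentSpace (𝓡 2) x →ₗ[ℝ] TangentSpace (𝓡 2) x →ₗ[ℝ] ℝ}
    (hf : PreservesArea om f) (k : ℕ) : PreservesArea om (f^[k]) := by
  induction k with
  | zero =>
    intro x v w
    rw [Function.iterate_zero, mfderiv_id]
    rfl
  | succ k ih =>
    rw [Function.iterate_succ']
    exact TRI_comp cf (TRI_iter cf k) hf ih

private theorem TRI_inv {f fi : S → S} (hffi : ∀ x, f (fi x) = x) (n : ℕ) :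
    ∀ x : S, f^[n] (fi^[n] x) = x := by
  induction n with
  | zero => intro x; rfl
  | succ n ih =>
    intro x
    rw [Function.iterate_succ_apply, Function.iterate_succ_apply', hffi, ih]

end gen

variable {S : Type} [MetricSpace S] [ChartedSpace E2 S] [IsManifold (𝓡 2) ∞ S] {f fi : S → S}
  {om : ∀ x : S, TangentSpace (𝓡 2) x →ₗ[ℝ] TangentSpace (𝓡 2) x →ₗ[ℝ] ℝ}

theorem s_iter (hS : SSys f fi om) (n : ℕ) : SSys (f^[n]) (fi^[n]) om :=
  ⟨TRI_iter hS.cf n, TRI_iter hS.cfi n, TRI_inv hS.ffi n, TRI_inv hS.fif n, hS.area,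
    TRI_pres hS.cf hS.pres n⟩

theorem s_det (hS : SSys f fi om) {n : ℕ} {P : S} (hP : f^[n] P = P) :
    (DS.Surf.iterDeriv f n P).det = 1 := by
  set A : E2 →L[ℝ] E2 := iterDeriv f n P with hA
  have h1 : ∀ (y : S), y = f^[n] P → ∀ v w : E2, om y (A v) (A w) = om P v w := by
    rintro y rfl v w
    exact TRI_pres hS.cf hS.pres n P v w
  have h2 := h1 P hP.symm
  obtain ⟨a, b, hab⟩ := hS.area.ne P
  let w : E2 →ₗ[ℝ] E2 →ₗ[ℝ] ℝ := om P
  have halt : ∀ v : E2, w v v = 0 := fun v => hS.area.alt P v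
  have h4 : w (A a) (A b) = w a b := h2 a b
  have h5 := TRI_alt w halt (A : E2 →ₗ[ℝ] E2) a b
  simp only [ContinuousLinearMap.coe_coe] at h5
  rw [h4] at h5
  have hab' : w a b ≠ 0 := hab
  have h7 : LinearMap.det (A : E2 →ₗ[ℝ] E2) = 1 := by
    have h8 : LinearMap.det (A : E2 →ₗ[ℝ] E2) * w a b = 1 * w a b := by
      rw [one_mul]
      exact h5.symm
    exact mul_right_cancel₀ hab' h8
  exact h7

theorem s_tri (hS : SSys f fi om) (h1 : DS.Surf.Cond1 f) {n : ℕ} (hn : 0 < n) {P : S}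
    (hP : f^[n] P = P) : |str f n P| < 2 ∨ (DS.Surf.Hyperbolic f P ∧ 2 < |str f n P|) := by
  have hcond := h1
  have hper : P ∈ periodicPts f := mk_mem_periodicPts hn hP
  obtain ⟨q, hq⟩ : ∃ q, q = minimalPeriod f P := ⟨_, rfl⟩
  have hqP : f^[q] P = P := by rw [hq]; exact iterate_minimalPeriod
  obtain ⟨k, hk⟩ : q ∣ n := by rw [hq]; exact IsPeriodicPt.minimalPeriod_dvd hP
  have hk0 : 0 < k := by
    rcases Nat.eq_zero_or_pos k with h | h
    · rw [h, Nat.mul_zero] at hk; omega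
    · exact h
  set A : E2 →ₗ[ℝ] E2 := (iterDeriv f q P : E2 →ₗ[ℝ] E2) with hAdef
  have hA : LinearMap.det A = 1 := s_det hS hqP
  have htr : str f n P = LinearMap.trace ℝ E2 (A ^ k) := by
    unfold str
    rw [hk, TRI_pow hS.cf hqP k]
  have hmult : ∀ μ : ℂ, IsMultiplier f P μ ↔ μ ^ 2 - ((LinearMap.trace ℝ E2 A : ℝ) : ℂ) * μ + 1 = 0 := by
    intro μ
    unfold IsMultiplier
    rw [← hq]
    exact TRI_root A hA μ
  -- a root
  obtain ⟨z, hz⟩ : ∃ z : ℂ, z ^ 2 - ((LinearMap.trace ℝ E2 A : ℝ) : ℂ) * z + 1 = 0 := by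
    obtain ⟨s, hs⟩ := IsAlgClosed.exists_pow_nat_eq
      (((LinearMap.trace ℝ E2 A : ℝ) : ℂ) ^ 2 - 4) (n := 2) (by norm_num)
    refine ⟨(((LinearMap.trace ℝ E2 A : ℝ) : ℂ) + s) / 2, ?_⟩
    linear_combination (1 / 4) * hs
  have hz0 : z ≠ 0 := by
    rintro rfl
    norm_num at hz
  have hzz : z + z⁻¹ = ((LinearMap.trace ℝ E2 A : ℝ) : ℂ) := by
    field_simp
    linear_combination hz
  have hT := (TRI_complex A hA z hz0 hzz k).1
  rw [← htr] at hT
  by_cases hnorm : ‖z‖ = 1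
  · left
    set w := z ^ k with hw
    have hwn : ‖w‖ = 1 := by rw [hw, norm_pow, hnorm, one_pow]
    have hwinv : z⁻¹ ^ k = (starRingEnd ℂ) w := by
      rw [inv_pow, ← hw, Complex.inv_def, Complex.normSq_eq_norm_sq, hwn]
      simp
    rw [hwinv, Complex.add_conj] at hT
    have hT' : str f n P = 2 * w.re := by exact_mod_cast hT
    have hre : |w.re| ≤ 1 := by rw [← hwn]; exact Complex.abs_re_le_norm w
    have hne : |w.re| ≠ 1 := by
      intro h1
      have h2 : w.re ^ 2 = 1 := by rw [← sq_abs, h1, one_pow]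
      have h3 : w.re ^ 2 + w.im ^ 2 = 1 := by
        have : ‖w‖ ^ 2 = 1 := by rw [hwn, one_pow]
        rw [← Complex.normSq_eq_norm_sq, Complex.normSq_apply] at this
        nlinarith
      have h4 : w.im = 0 := by
        have : w.im ^ 2 = 0 := by linarith
        exact pow_eq_zero_iff (n := 2) (by norm_num) |>.mp this
      have h5 : w ^ 2 = 1 := by
        apply Complex.ext
        · rw [pow_two, Complex.mul_re, h4]
          simp only [mul_zero, sub_zero, Complex.one_re]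
          nlinarith
        · rw [pow_two, Complex.mul_im, h4]
          simp
      have h6 : z ^ (k * 2) = 1 := by rw [pow_mul, ← hw]; exact h5
      exact hcond P hper z ((hmult z).2 hz) (k * 2) (by omega) h6
    rw [hT', abs_mul, abs_two]
    have := lt_of_le_of_ne hre hne
    linarith
  · right
    constructor
    · refine ⟨hper, fun μ hμ => ?_⟩
      have h1 := (hmult μ).1 hμ
      have h2 : (μ - z) * (μ - z⁻¹) = 0 := by
        have h3 : z * z⁻¹ = 1 := mul_inv_cancel₀ hz0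
        rw [← hzz] at h1
        linear_combination h1 + h3
      rcases mul_eq_zero.mp h2 with h3 | h3
      · rw [sub_eq_zero.mp h3]; exact hnorm
      · rw [sub_eq_zero.mp h3, norm_inv]
        intro h4
        exact hnorm (inv_eq_one.mp h4)
    · by_contra hcon
      push Not at hcon
      set w := z ^ k with hw
      have hw0 : w ≠ 0 := pow_ne_zero _ hz0
      have hroot : w ^ 2 - ((str f n P : ℝ) : ℂ) * w + 1 = 0 := by
        rw [hT, inv_pow, ← hw]
        field_simp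
        ring
      have h1 := TRI_norm w (str f n P) hcon hroot
      rw [hw, norm_pow] at h1
      exact hnorm ((pow_eq_one_iff_of_nonneg (norm_nonneg z) hk0.ne').mp h1)

theorem s_hyp (hS : SSys f fi om) {Q : S} (hQ : DS.Surf.Hyperbolic f Q) :
    DS.Surf.Hyperbolic f (fi Q) := by
  have h := hQ
  have hper : fi Q ∈ periodicPts f := by
    obtain ⟨n, hn, hnQ⟩ := h.1
    refine mk_mem_periodicPts hn ?_
    show f^[n] (fi Q) = fi Q
    rw [TRI_comm hS.ffi hS.fif, hnQ]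
  have hmin : minimalPeriod f (fi Q) = minimalPeriod f Q := by
    have := minimalPeriod_apply hper
    rw [hS.ffi] at this
    exact this.symm
  refine ⟨hper, fun μ hμ => h.2 μ ?_⟩
  unfold IsMultiplier at hμ ⊢
  rw [hmin] at hμ
  obtain ⟨q, hq⟩ : ∃ q, q = minimalPeriod f Q := ⟨_, rfl⟩
  rw [← hq] at hμ ⊢
  have hqQ : f^[q] Q = Q := by rw [hq]; exact iterate_minimalPeriod
  obtain ⟨e, he⟩ := TRI_equiv hS.cf hS.cfi hS.ffi hS.fif (fi Q)
  have key : (iterDeriv f q Q : E2 →ₗ[ℝ] E2) =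
      e.conj (iterDeriv f q (fi Q) : E2 →ₗ[ℝ] E2) := by
    have c1 : mfderiv (𝓡 2) (𝓡 2) (f^[q] ∘ f) (fi Q) =
        (mfderiv (𝓡 2) (𝓡 2) (f^[q]) (f (fi Q))).comp (mfderiv (𝓡 2) (𝓡 2) f (fi Q)) :=
      mfderiv_comp (fi Q) ((TRI_iter hS.cf q).mdifferentiable (by norm_num) _)
        (hS.cf.mdifferentiable (by norm_num) _)
    have c2 : mfderiv (𝓡 2) (𝓡 2) (f ∘ f^[q]) (fi Q) =
        (mfderiv (𝓡 2) (𝓡 2) f (f^[q] (fi Q))).comp (mfderiv (𝓡 2) (𝓡 2) (f^[q]) (fi Q)) :=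
      mfderiv_comp (fi Q) (hS.cf.mdifferentiable (by norm_num) _)
        ((TRI_iter hS.cf q).mdifferentiable (by norm_num) _)
    have c3 : f^[q] ∘ f = f ∘ f^[q] := by
      rw [← Function.iterate_succ, ← Function.iterate_succ']
    have hqf : f^[q] (fi Q) = fi Q := by rw [TRI_comm hS.ffi hS.fif, hqQ]
    rw [c3, c2, hS.ffi, hqf] at c1
    apply LinearMap.ext
    intro v
    rw [LinearEquiv.conj_apply_apply]
    have h1 : ∀ w : E2, e (iterDeriv f q (fi Q) w) = iterDeriv f q Q (e w) := by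
      intro w
      rw [he, he]
      exact congrArg (fun L => L w) c1
    have h2 := h1 (e.symm v)
    rw [LinearEquiv.apply_symm_apply] at h2
    exact h2.symm
  rw [key, LinearEquiv.charpoly_conj]
  exact hμ

end BR

end S_H91_BR_TRI
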