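import Pool.Agent.H12.KS.K05
import Pool.Agent.H12.KS.K55

/-! Joined modules of the proof of MP_8a27c0_an (one section per module). -/

section S_H91_BR_CNC

/-!
CNC (cond_c2; the header is common with CNT).  `g = f^[q]`, `gi = fi^[q]`, `Hyp = DS.Surf.Hyperbolic f`.
`per`: `per_iter`.  `inv`: `s_hyp`, `q` times.
`tri`: `T x = A c (G^[n] x)` is a `CLift` of `h = f^[q * n] = g^[n]` (`L.cg`, `L.lift`, `L.mG`, `Deck.fibre`, `Deck.maps`, `Deck.cont`; `Lift.iter` of `DK.lean`), `T P = P`, so `f^[q * n] (p P) = p P`.  `clift_deriv`: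
`E (fderiv ℝ T P v) = B (E v)` with `E = mfderiv p P : ℂ → E2` bijective linear and `B = iterDeriv f (q * n) (p P)` (here `p (T P) = p P`; rewrite `T P = P` first in the statement for a general point: the differential of `p` is
taken at `T P`), so the traces of `fderiv ℝ T P` and `B` are equal (`LinearMap.trace_conj'` with the linear equivalence of `E`): trace `= str f (q * n) (p P)`; `s_tri`.
`c2`: let `P, Q, x, v, w` be given.  The curve `α` of `TanX (StabX X p g P) x v`: `p ∘ α` is `C¹` on `Ioo (-1) 1` (`ContMDiffOn.comp`, `hp.sm`), its points are in `DS.Surf.stableSet g (p P) = DS.Surf.stableSet f (p P)` (`stab_iter`),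
`(p ∘ α) 0 = p x`, velocity `mfderiv p x v` (chain rule), nonzero as `mfderiv p x` is injective: `DS.Surf.TangentTo (DS.Surf.stableSet f (p P)) (p x) (mfderiv p x v)`.  The same for `Q` with `fi`.  `Cond2` gives the linear independence of
`![E v, E w]`, hence of `![v, w]` (`LinearIndependent.of_comp`, or with `LinearIndependent.pair_iff`).
-/

namespace BR

open Metric Set Filter Topology Function CV
open scoped Manifold ContDiff

variable {S : Type} [MetricSpace S] [ChartedSpace E2 S] [IsManifold (𝓡 2) ∞ S] [CompactSpace S]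
  {X : Set ℂ} {Γ : Type} [Group Γ] {A : Γ → ℂ → ℂ} {p : ℂ → S} {f fi : S → S}
  {om : ∀ x : S, TangentSpace (𝓡 2) x →ₗ[ℝ] TangentSpace (𝓡 2) x →ₗ[ℝ] ℝ}

omit [IsManifold (𝓡 2) ∞ S] in
theorem CNC_tan (hX : IsOpen X) (hp : Smo X p) {h : S → S} (hh : Continuous h) {q : ℕ}
    (hq : 0 < q) {P x v : ℂ} (hv : TanX (StabX X p (h^[q]) P) x v) :
    x ∈ X ∧ p x ∈ DS.Surf.stableSet h (p P) ∧
      DS.Surf.TangentTo (DS.Surf.stableSet h (p P)) (p x) (mfderiv 𝓘(ℝ, ℂ) (𝓡 2) p x v) := by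
  obtain ⟨hv0, α, hα, hW, rfl, rfl⟩ := hv
  have h00 : (0 : ℝ) ∈ Ioo (-1 : ℝ) 1 := ⟨by norm_num, by norm_num⟩
  have hst : ∀ t ∈ Ioo (-1 : ℝ) 1, p (α t) ∈ DS.Surf.stableSet h (p P) := by
    intro t ht
    rw [← stab_iter hh hq]
    exact (hW t ht).2
  have hx : α 0 ∈ X := (hW 0 h00).1
  have hnb : Ioo (-1 : ℝ) 1 ∈ 𝓝 (0 : ℝ) := Ioo_mem_nhds h00.1 h00.2
  have hαd : DifferentiableAt ℝ α 0 := (hα.contDiffAt hnb).differentiableAt one_ne_zero
  have hαm : MDifferentiableAt 𝓘(ℝ, ℝ) 𝓘(ℝ, ℂ) α 0 := hαd.mdifferentiableAt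
  have hpx : MDifferentiableAt 𝓘(ℝ, ℂ) (𝓡 2) p (α 0) :=
    (hp.sm.contMDiffAt (hX.mem_nhds hx)).mdifferentiableAt one_ne_zero
  refine ⟨hx, hst 0 h00, ?_, fun t => p (α t), ?_, hst, rfl, ?_⟩
  · intro hz
    apply hv0
    apply (hp.bij _ hx).1
    rw [hz]
    exact (map_zero _).symm
  · exact hp.sm.comp hα.contMDiffOn fun t ht => (hW t ht).1
  · have e1 := mfderiv_comp 0 hpx hαm
    have e2 := congrArg (fun L : ℝ →L[ℝ] E2 => L 1) e1
    rw [mfderiv_eq_fderiv] at e2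
    exact e2

theorem cond_c2 (D : Deck X A p) (hp : Smo X p) (hS : SSys f fi om) (h2 : DS.Surf.Cond2 f fi) {q : ℕ}
    (hq : 0 < q) {P Q : ℂ} (hP : P ∈ X) (hQ : Q ∈ X) (hHP : DS.Surf.Hyperbolic f (p P))
    (hHQ : DS.Surf.Hyperbolic f (p Q)) {x v w : ℂ} (hv : TanX (StabX X p (f^[q]) P) x v)
    (hw : TanX (StabX X p (fi^[q]) Q) x w) : LinearIndependent ℝ ![v, w] := by
  obtain ⟨hx, m1, t1⟩ := CNC_tan D.opn hp hS.cf.continuous hq hv
  obtain ⟨-, m2, t2⟩ := CNC_tan D.opn hp hS.cfi.continuous hq hw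
  have h3 := h2 (p P) (p Q) hHP hHQ (p x) ⟨m1, m2⟩ _ _ t1 t2
  let E : ℂ →L[ℝ] E2 := mfderiv 𝓘(ℝ, ℂ) (𝓡 2) p x
  apply LinearIndependent.of_comp (E : ℂ →ₗ[ℝ] E2)
  have h4 : (E : ℂ →ₗ[ℝ] E2) ∘ ![v, w] = ![E v, E w] := by
    funext i
    fin_cases i <;> rfl
  rw [h4]
  exact h3

end BR

end S_H91_BR_CNC

section S_H91_BR_CNT

/-!
CNT (cond_tri; the header is common with CNC).  `g = f^[q]`, `gi = fi^[q]`, `Hyp = DS.Surf.Hyperbolic f`.
`per`: `per_iter`.  `inv`: `s_hyp`, `q` times.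
`tri`: `T x = A c (G^[n] x)` is a `CLift` of `h = f^[q * n] = g^[n]` (`L.cg`, `L.lift`, `L.mG`, `Deck.fibre`, `Deck.maps`, `Deck.cont`; `Lift.iter` of `DK.lean`), `T P = P`, so `f^[q * n] (p P) = p P`.  `clift_deriv`:
`E (fderiv ℝ T P v) = B (E v)` with `E = mfderiv p P : ℂ → E2` bijective linear and `B = iterDeriv f (q * n) (p P)` (here `p (T P) = p P`; rewrite `T P = P` first in the statement for a general point: the differential of `p` is
taken at `T P`), so the traces of `fderiv ℝ T P` and `B` are equal (`LinearMap.trace_conj'` with the linear equivalence of `E`): trace `= str f (q * n) (p P)`; `s_tri`.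
`c2`: let `P, Q, x, v, w` be given.  The curve `α` of `TanX (StabX X p g P) x v`: `p ∘ α` is `C¹` on `Ioo (-1) 1` (`ContMDiffOn.comp`, `hp.sm`), its points are in `DS.Surf.stableSet g (p P) = DS.Surf.stableSet f (p P)` (`stab_iter`),
`(p ∘ α) 0 = p x`, velocity `mfderiv p x v` (chain rule), nonzero as `mfderiv p x` is injective: `DS.Surf.TangentTo (DS.Surf.stableSet f (p P)) (p x) (mfderiv p x v)`.  The same for `Q` with `fi`.  `Cond2` gives the linear independence of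
`![E v, E w]`, hence of `![v, w]` (`LinearIndependent.of_comp`, or with `LinearIndependent.pair_iff`).
-/

namespace BR

open Metric Set Filter Topology Function CV
open scoped Manifold ContDiff

variable {S : Type} [MetricSpace S] [ChartedSpace E2 S] [IsManifold (𝓡 2) ∞ S] [CompactSpace S]
  {X : Set ℂ} {Γ : Type} [Group Γ] {A : Γ → ℂ → ℂ} {p : ℂ → S} {f fi : S → S}
  {om : ∀ x : S, TangentSpace (𝓡 2) x →ₗ[ℝ] TangentSpace (𝓡 2) x →ₗ[ℝ] ℝ}

theorem CNT_trace (E : ℂ →L[ℝ] E2) (hE : Bijective E) (T : ℂ →L[ℝ] ℂ) (B : E2 →L[ℝ] E2)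
    (h : ∀ v, E (T v) = B (E v)) :
    LinearMap.trace ℝ ℂ (T : ℂ →ₗ[ℝ] ℂ) = LinearMap.trace ℝ E2 (B : E2 →ₗ[ℝ] E2) := by
  let e : ℂ ≃ₗ[ℝ] E2 := LinearEquiv.ofBijective (E : ℂ →ₗ[ℝ] E2) hE
  have h1 : (B : E2 →ₗ[ℝ] E2) = e.conj (T : ℂ →ₗ[ℝ] ℂ) := by
    apply LinearMap.ext
    intro v
    obtain ⟨w, rfl⟩ := e.surjective v
    rw [LinearEquiv.conj_apply_apply, LinearEquiv.symm_apply_apply]
    exact (h w).symm
  rw [h1, LinearMap.trace_conj']

theorem cond_tri (D : Deck X A p) (hp : Smo X p) (hS : SSys f fi om) (h1 : DS.Surf.Cond1 f) {q : ℕ}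
    (hq : 0 < q) {G Gi : ℂ → ℂ} {θ : Γ ≃* Γ} {ρ : ℂ → ℝ}
    (L : Lift X A p (f^[q]) (fi^[q]) G Gi θ ρ) {n : ℕ} (hn : 0 < n) (c : Γ) {P : ℂ} (hP : P ∈ X)
    (hfix : A c (G^[n] P) = P) :
    |LinearMap.trace ℝ ℂ (fderiv ℝ (fun x => A c (G^[n] x)) P : ℂ →ₗ[ℝ] ℂ)| < 2 ∨
      (DS.Surf.Hyperbolic f (p P) ∧
        2 < |LinearMap.trace ℝ ℂ (fderiv ℝ (fun x => A c (G^[n] x)) P : ℂ →ₗ[ℝ] ℂ)|) := by
  obtain ⟨i1, -, -, -, i5, -, -, i8⟩ := L.iter n
  obtain ⟨T, hT⟩ : ∃ T : ℂ → ℂ, T = fun x => A c (G^[n] x) := ⟨_, rfl⟩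
  have hC : CLift X p (f^[q * n]) T := by
    refine ⟨?_, ?_, ?_⟩
    · rw [hT]
      exact (D.cont c).comp i5.continuousOn i1
    · rw [hT]
      exact fun x hx => D.maps c (i1 hx)
    · intro x hx
      rw [hT, Function.iterate_mul]
      show p (A c (G^[n] x)) = _
      rw [D.fibre c (i1 hx)]
      exact i8 x hx
  have hTP : T P = P := by rw [hT]; exact hfix
  have hfP : f^[q * n] (p P) = p P := by
    rw [← hC.lift P hP, hTP]
  have hd := clift_deriv D.opn hp (s_iter hS (q * n)).cf hC hP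
  rw [hTP] at hd
  have htr := CNT_trace (mfderiv 𝓘(ℝ, ℂ) (𝓡 2) p P) (hp.bij P hP) (fderiv ℝ T P)
    (DS.Surf.iterDeriv f (q * n) (p P)) hd
  rw [← hT, htr]
  exact s_tri hS h1 (Nat.mul_pos hq hn) hfP

end BR

end S_H91_BR_CNT

section S_H91_BR_CND

/-!
CND (conditions 1 and 2 in the covering), assembly (helper91).
-/

namespace BR

open Metric Set Filter Topology Function CV
open scoped Manifold ContDiff

variable {S : Type} [MetricSpace S] [ChartedSpace E2 S] [IsManifold (𝓡 2) ∞ S] [CompactSpace S]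
  {X : Set ℂ} {Γ : Type} [Group Γ] {A : Γ → ℂ → ℂ} {p : ℂ → S} {f fi : S → S}
  {om : ∀ x : S, TangentSpace (𝓡 2) x →ₗ[ℝ] TangentSpace (𝓡 2) x →ₗ[ℝ] ℝ}

theorem exists_cond (D : Deck X A p) (hp : Smo X p) (hS : SSys f fi om) (h1 : DS.Surf.Cond1 f)
    (h2 : DS.Surf.Cond2 f fi) {q : ℕ} (hq : 0 < q) {G Gi : ℂ → ℂ} {θ : Γ ≃* Γ} {ρ : ℂ → ℝ}
    (L : Lift X A p (f^[q]) (fi^[q]) G Gi θ ρ) :
    Cond X A p (f^[q]) (fi^[q]) G (DS.Surf.Hyperbolic f) where
  per s hs := by
    rw [per_iter hq]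
    exact hs.1
  inv s hs := by
    clear L
    induction q with
    | zero => exact hs
    | succ n ih =>
      rw [iterate_succ_apply']
      rcases Nat.eq_zero_or_pos n with h | h
      · subst h
        exact s_hyp hS hs
      · exact s_hyp hS (ih h)
  tri n hn c P hP hfix := cond_tri D hp hS h1 hq L hn c hP hfix
  c2 P hP Q hQ hHP hHQ x v w hv hw := cond_c2 D hp hS h2 hq hP hQ hHP hHQ hv hw

end BR

end S_H91_BR_CND

section S_H91_BR_CVM

/-!
CVM (lifting through the covering `p : X → S`).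
`lift_unique`: the set `{x ∈ X | H₁ x = H₂ x}` is closed in `X` (continuity) and open: if `H₁ x = H₂ x = z`, by `Deck.loc` (`Pool/Agent/H12/CV/DK.lean`) or directly from `proper` and `free` there is a ball about `z`
in `X` whose translates by `g ≠ 1` are disjoint from it; for `y` near `x` both `H₁ y`, `H₂ y` are in this ball and `H₂ y = A g (H₁ y)` for some `g` (`fib`), so
`g = 1`.  `X` is connected (`Deck.conn`).
`lift_exists`: let `π : X → S` be the restriction of `p` to the subtype.  It is a covering map: either `isQuotientCoveringMap_of_properlyDiscontinuousSMul`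
(`Mathlib/Topology/Covering/Quotient.lean`) with the action of `Γ` on the subtype `X` (discrete topology on `Γ`; `Deck.maps`, `Deck.cont`, `mul`, `one`; properly
discontinuous: `proper`; free: `free`; `π` is a quotient map since it is continuous, open (`pop`) and onto (`ps`); fibres are orbits: `fib`), or
`IsQuotientCoveringMap` directly with its field `disjoint` from `Deck.loc`.  The subtype `X` is simply connected (convex and nonempty: contractible) and locally path connected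
(open subset of `ℂ`: `IsOpen.locallyPathConnectedSpace`).  `IsCoveringMap.existsUnique_continuousMap_lifts` (`Mathlib/Topology/Homotopy/Lifting.lean`) for `h ∘ π : X → S` gives
the lift with `x₀ ↦ y₀`; extend it to `ℂ` by `0` outside of `X`.
-/

namespace BR

open Metric Set Filter Topology Function CV
open scoped Manifold ContDiff

variable {S : Type} [MetricSpace S] {X : Set ℂ} {Γ : Type} [Group Γ] {A : Γ → ℂ → ℂ} {p : ℂ → S}

/-- the action of the deck group on the subtype -/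
@[reducible] def dact (D : Deck X A p) : MulAction Γ X where
  smul g x := ⟨A g x, D.maps g x.2⟩
  one_smul x := Subtype.ext (D.one x x.2)
  mul_smul g h x := Subtype.ext (D.mul g h x x.2)

theorem pi_isCov (D : Deck X A p) : IsCoveringMap (fun x : X => p x) := by
  letI := dact D
  have hc : Continuous (fun x : X => p x) := D.pc.comp_continuous continuous_subtype_val fun x => x.2
  have ho : IsOpenMap (fun x : X => p x) := by
    intro O hO
    have h1 : (fun x : X => p x) '' O = p '' (Subtype.val '' O) := by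
      rw [image_image]
    rw [h1]
    refine D.pop _ ?_ (D.opn.isOpenMap_subtype_val O hO)
    rintro _ ⟨x, -, rfl⟩
    exact x.2
  have hs : Surjective (fun x : X => p x) := by
    intro s
    obtain ⟨x, hx, rfl⟩ := D.ps s
    exact ⟨⟨x, hx⟩, rfl⟩
  have hq : IsQuotientCoveringMap (fun x : X => p x) Γ := by
    refine ⟨ho.isQuotientMap hc hs, ⟨fun g => ?_⟩, ?_, ?_⟩
    · refine Continuous.subtype_mk ?_ _
      exact (D.cont g).comp_continuous continuous_subtype_val fun x => x.2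
    · intro e₁ e₂
      constructor
      · intro h
        obtain ⟨g, hg⟩ := (D.fib e₂ e₂.2 e₁ e₁.2).1 h.symm
        exact ⟨g, Subtype.ext hg⟩
      · rintro ⟨g, hg⟩
        have h1 : A g e₂ = e₁ := congrArg Subtype.val hg
        exact ((D.fib e₂ e₂.2 e₁ e₁.2).2 ⟨g, h1⟩).symm
    · intro e
      obtain ⟨r, hr, hrX, hd⟩ := D.loc e.2
      refine ⟨Subtype.val ⁻¹' ball (e : ℂ) r, ?_, ?_⟩
      · exact continuous_subtype_val.continuousAt.preimage_mem_nhds (ball_mem_nhds _ hr)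
      · intro g hg
        by_contra hne
        obtain ⟨_, ⟨y, hy, rfl⟩, hy2⟩ := hg
        exact Set.disjoint_left.1 (hd g hne) ⟨y, hy, rfl⟩ hy2
  exact hq.isCoveringMap

theorem lift_unique (D : Deck X A p) {h : S → S} {H₁ H₂ : ℂ → ℂ} (h1 : CLift X p h H₁)
    (h2 : CLift X p h H₂) {x₀ : ℂ} (hx₀ : x₀ ∈ X) (h0 : H₁ x₀ = H₂ x₀) : EqOn H₁ H₂ X := by
  have : PreconnectedSpace X := isPreconnected_iff_preconnectedSpace.1 D.conn.isPreconnected
  have c1 : Continuous fun x : X => (⟨H₁ x, h1.maps x.2⟩ : X) :=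
    Continuous.subtype_mk (h1.cont.comp_continuous continuous_subtype_val fun x => x.2) _
  have c2 : Continuous fun x : X => (⟨H₂ x, h2.maps x.2⟩ : X) :=
    Continuous.subtype_mk (h2.cont.comp_continuous continuous_subtype_val fun x => x.2) _
  have he := (pi_isCov D).eq_of_comp_eq c1 c2
    (funext fun x => (h1.lift x x.2).trans (h2.lift x x.2).symm) ⟨x₀, hx₀⟩ (Subtype.ext h0)
  intro x hx
  exact congrArg Subtype.val (congrFun he ⟨x, hx⟩)

theorem lift_exists (D : Deck X A p) {h : S → S} (hh : Continuous h) {x₀ y₀ : ℂ} (hx₀ : x₀ ∈ X)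
    (hy₀ : y₀ ∈ X) (h0 : p y₀ = h (p x₀)) : ∃ H : ℂ → ℂ, CLift X p h H ∧ H x₀ = y₀ := by
  have hconv : Convex ℝ X := by
    rcases D.hX with ⟨h, -⟩ | ⟨h, -⟩
    · rw [h]; exact convex_univ
    · rw [h]; exact convex_ball _ _
  have : ContractibleSpace X := hconv.contractibleSpace ⟨x₀, hx₀⟩
  have : LocallyPathConnectedSpace X := D.opn.locallyPathConnectedSpace
  have hc : Continuous (fun x : X => p x) := D.pc.comp_continuous continuous_subtype_val fun x => x.2
  obtain ⟨F, ⟨hF0, hF⟩, -⟩ := (pi_isCov D).existsUnique_continuousMap_lifts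
    (⟨fun x : X => h (p x), hh.comp hc⟩ : C(X, S)) ⟨x₀, hx₀⟩ ⟨y₀, hy₀⟩ h0
  classical
  refine ⟨fun x => if hx : x ∈ X then (F ⟨x, hx⟩ : ℂ) else 0, ⟨?_, ?_, ?_⟩, ?_⟩
  · rw [continuousOn_iff_continuous_domRestrict]
    have h1 : X.domRestrict (fun x => if hx : x ∈ X then (F ⟨x, hx⟩ : ℂ) else 0) =
        fun x : X => (F x : ℂ) := by
      funext x
      change (if hx : (x : ℂ) ∈ X then (F ⟨x, hx⟩ : ℂ) else 0) = _
      rw [dif_pos x.2]
    rw [h1]
    exact continuous_subtype_val.comp F.continuous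
  · intro x hx
    simp only [dif_pos hx]
    exact (F ⟨x, hx⟩).2
  · intro x hx
    simp only [dif_pos hx]
    exact congrFun hF ⟨x, hx⟩
  · simp only [dif_pos hx₀]
    rw [hF0]

end BR

end S_H91_BR_CVM

section S_H91_BR_DKD

/-!
DKD (the deck group of a quotient of the disc).  `DS.Surf.moeb c b` is `TN.mob c b` (same formula).
Group.  Let `B = ball 0 1`, `Γ` the subgroup of `Equiv.Perm B` of the permutations `σ` such that there are `u b` with `‖u‖ = 1`, `‖b‖ < 1` and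
`(σ x : ℂ) = mob u b x` for all `x ∈ B`, and `p (σ x) = p x` for all `x ∈ B`.  It is closed under products and inverses: `mob u b ∘ mob u' b'` is again of this form on
`B`, and the inverse of `mob u b` is `mob u⁻¹ (-u b)` (explicit; see `mob_inv`, `mob_comp` or similar names in `Pool/Agent/H12/TN/MB.lean`, or use `auto_mob` of
`Pool/Agent/H12/CV/MM.lean`: a holomorphic bijection of the disc is of the form `mob u b`).  `A σ = mob u b` with chosen parameters.
`one`, `mul`: on `B` both sides are the value of the permutation.  `fib`: if `p x = p y`, `DiscUnif` gives `c b` with `moeb c b x = y` and `p ∘ moeb c b = p` on `B`: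
`moeb c b` is a permutation of `B`, in `Γ`.  Conversely clear.
`free`: let `σ ∈ Γ`, `σ x = x`.  By `loc_inj` `p` is injective on a neighbourhood `W` of `x`; for `y` near `x` both `y` and `σ y` are in `W` and `p (σ y) = p y`, so
`σ y = y`; a Moebius map that is the identity near `x` is the identity on `B` (identity theorem `AnalyticOnNhd.eqOn_of_preconnected_of_eventuallyEq`, or `mob_unique`), `σ = 1`.
`proper`: suppose that infinitely many `g` have `x ∈ C` with `A g x ∈ C`; an injective sequence `g_n`, `x_n`, `A g_n x_n = y_n ∈ C`.  The parameters: `‖b_n‖ ≤ r < 1`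
(`b_n` is the zero of `A g_n`; the pseudo-hyperbolic distance of `b_n` and `x_n` is that of `0` and `y_n`, at most `max ‖C‖ < 1`; or: `1 - ‖mob u b x‖² = (1 - ‖b‖²)(1 - ‖x‖²)/‖1 - conj b x‖²`
and `‖1 - conj b x‖ ≥ 1 - ‖x‖` give `1 - ‖b_n‖² ≥ (1 - ‖y_n‖²)(1 - ‖x_n‖)²`), so by compactness a subsequence converges: `u_n → u`, `b_n → b`, `‖u‖ = 1`, `‖b‖ ≤ r`.  Then
`A g_n 0 = -u_n b_n` converges to some `w ∈ B`; `p (A g_n 0) = p 0` for all `n`, and `p` is injective near `w`, so `A g_n 0 = A g_m 0` for large `n, m` of the subsequence; by `free`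
(`g_m⁻¹ g_n` fixes `0`) `g_n = g_m`: contradiction.
`pc`, `pop` (`loc_open`), `ps`: clear.  `hX`: right.
-/

namespace BR

open Metric Set Filter Topology Function CV
open scoped Manifold ContDiff

variable {S : Type}

theorem DKD_conj {u : ℂ} (hu : ‖u‖ = 1) : ‖(starRingEnd ℂ) u‖ = 1 := by
  rw [RCLike.norm_conj]; exact hu

theorem DKD_neg {u b : ℂ} (hu : ‖u‖ = 1) (hb : ‖b‖ < 1) : ‖-(u * b)‖ < 1 := by
  rw [norm_neg, norm_mul, hu, one_mul]; exact hb

theorem DKD_maps {u b : ℂ} (hu : ‖u‖ = 1) (hb : ‖b‖ < 1) :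
    MapsTo (TN.mob u b) (ball 0 1) (ball 0 1) := by
  intro x hx
  rw [mem_ball_zero_iff] at hx ⊢
  exact TN.mob_ball hu hb hx

theorem DKD_comp {u b u' b' : ℂ} (hu : ‖u‖ = 1) (hb : ‖b‖ < 1) (hu' : ‖u'‖ = 1) (hb' : ‖b'‖ < 1) :
    ∃ v c : ℂ, ‖v‖ = 1 ∧ ‖c‖ < 1 ∧
      ∀ z ∈ ball (0:ℂ) 1, TN.mob u b (TN.mob u' b' z) = TN.mob v c z := by
  refine auto_mob (T := fun z => TN.mob u b (TN.mob u' b' z))
    (Ti := fun z => TN.mob ((starRingEnd ℂ) u') (-(u' * b'))
      (TN.mob ((starRingEnd ℂ) u) (-(u * b)) z)) ?_ ?_ ?_ ?_ ?_ ?_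
  · exact (MM_diff hb).comp (MM_diff hb') (DKD_maps hu' hb')
  · exact (MM_diff (DKD_neg hu' hb')).comp (MM_diff (DKD_neg hu hb))
      (DKD_maps (DKD_conj hu) (DKD_neg hu hb))
  · exact (DKD_maps hu hb).comp (DKD_maps hu' hb')
  · exact (DKD_maps (DKD_conj hu') (DKD_neg hu' hb')).comp
      (DKD_maps (DKD_conj hu) (DKD_neg hu hb))
  · intro z hz
    have h1 := (mem_ball_zero_iff.1 (DKD_maps hu' hb' hz)).le
    rw [(TN.mob_comp_inv hu hb h1).1, (TN.mob_comp_inv hu' hb' (mem_ball_zero_iff.1 hz).le).1]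
  · intro z hz
    have h1 := (mem_ball_zero_iff.1 (DKD_maps (DKD_conj hu) (DKD_neg hu hb) hz)).le
    rw [(TN.mob_comp_inv hu' hb' h1).2, (TN.mob_comp_inv hu hb (mem_ball_zero_iff.1 hz).le).2]

/-- the deck group of `p` -/
def DKD_grp (p : ℂ → S) : Subgroup (Equiv.Perm (ball (0:ℂ) 1)) where
  carrier := {σ | (∃ u b : ℂ, ‖u‖ = 1 ∧ ‖b‖ < 1 ∧
    ∀ x : ball (0:ℂ) 1, ((σ x : ball (0:ℂ) 1) : ℂ) = TN.mob u b x) ∧
    ∀ x : ball (0:ℂ) 1, p (σ x) = p x}
  mul_mem' := by
    rintro σ τ ⟨⟨u, b, hu, hb, h⟩, hp⟩ ⟨⟨u', b', hu', hb', h'⟩, hp'⟩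
    obtain ⟨v, c, hv, hc, h''⟩ := DKD_comp hu hb hu' hb'
    refine ⟨⟨v, c, hv, hc, fun x => ?_⟩, fun x => ?_⟩
    · rw [Equiv.Perm.mul_apply, h, h', h'' x x.2]
    · rw [Equiv.Perm.mul_apply, hp, hp']
  one_mem' := by
    refine ⟨⟨1, 0, norm_one, by simp, fun x => ?_⟩, fun x => rfl⟩
    simp [TN.mob]
  inv_mem' := by
    rintro σ ⟨⟨u, b, hu, hb, h⟩, hp⟩
    refine ⟨⟨(starRingEnd ℂ) u, -(u * b), DKD_conj hu, DKD_neg hu hb, fun x => ?_⟩, fun x => ?_⟩
    · obtain ⟨y, rfl⟩ := σ.surjective x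
      have h1 : σ⁻¹ (σ y) = y := σ.symm_apply_apply y
      rw [h1, h]
      exact (TN.mob_comp_inv hu hb (mem_ball_zero_iff.1 y.2).le).1.symm
    · obtain ⟨y, rfl⟩ := σ.surjective x
      have h1 : σ⁻¹ (σ y) = y := σ.symm_apply_apply y
      rw [h1, hp]

theorem DKD_mem {p : ℂ → S} {u b : ℂ} (hu : ‖u‖ = 1) (hb : ‖b‖ < 1)
    (h : ∀ x ∈ ball (0:ℂ) 1, p (TN.mob u b x) = p x) :
    ∃ σ ∈ DKD_grp p, ∀ x : ball (0:ℂ) 1, ((σ x : ball (0:ℂ) 1) : ℂ) = TN.mob u b x := by
  refine ⟨⟨fun x => ⟨TN.mob u b x, DKD_maps hu hb x.2⟩,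
    fun x => ⟨TN.mob ((starRingEnd ℂ) u) (-(u * b)) x,
      DKD_maps (DKD_conj hu) (DKD_neg hu hb) x.2⟩, fun x => ?_, fun x => ?_⟩, ?_, fun x => rfl⟩
  · exact Subtype.ext (TN.mob_comp_inv hu hb (mem_ball_zero_iff.1 x.2).le).1
  · exact Subtype.ext (TN.mob_comp_inv hu hb (mem_ball_zero_iff.1 x.2).le).2
  · exact ⟨⟨u, b, hu, hb, fun x => rfl⟩, fun x => h x x.2⟩

/-- a Moebius map commuting with a locally injective `p` and with a fixed point is the identity -/
theorem DKD_id {p : ℂ → S} {u b : ℂ} (hb : ‖b‖ < 1)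
    (h : ∀ x ∈ ball (0:ℂ) 1, p (TN.mob u b x) = p x) {x : ℂ} (hx : x ∈ ball (0:ℂ) 1)
    (hW : ∃ W ∈ 𝓝 x, InjOn p W) (hfix : TN.mob u b x = x) :
    ∀ y ∈ ball (0:ℂ) 1, TN.mob u b y = y := by
  obtain ⟨W, hW, hinj⟩ := hW
  have hd : DifferentiableOn ℂ (TN.mob u b) (ball 0 1) := MM_diff hb
  have ha : AnalyticOnNhd ℂ (TN.mob u b) (ball 0 1) := hd.analyticOnNhd isOpen_ball
  have hc : ContinuousAt (TN.mob u b) x := (ha x hx).continuousAt
  have h1 : ∀ᶠ y in 𝓝 x, TN.mob u b y ∈ W := hc.eventually_mem (by rw [hfix]; exact hW)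
  have h2 : (TN.mob u b) =ᶠ[𝓝 x] id := by
    filter_upwards [h1, hW, isOpen_ball.mem_nhds hx] with y hy1 hy2 hy3
    exact hinj hy1 hy2 (h y hy3)
  exact ha.eqOn_of_preconnected_of_eventuallyEq analyticOnNhd_id
    (convex_ball (0 : ℂ) 1).isPreconnected hx h2

theorem deck_disc {S : Type} [MetricSpace S] [ChartedSpace E2 S] [IsManifold (𝓡 2) ∞ S]
    (h : DS.Surf.DiscUnif S) :
    ∃ (Γ : Type) (_ : Group Γ) (A : Γ → ℂ → ℂ) (p : ℂ → S), Deck (ball 0 1) A p ∧ Smo (ball 0 1) p := by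
  obtain ⟨p, hsm, hsurj, hbij, hfib⟩ := h
  have hS : Smo (ball 0 1) p := ⟨hsm.of_le (by exact_mod_cast le_top), hbij⟩
  have hli : ∀ x ∈ ball (0:ℂ) 1, ∃ W ∈ 𝓝 x, InjOn p W := fun x hx => loc_inj isOpen_ball hS hx
  choose u b hu hb hA using fun g : DKD_grp p => g.2.1
  have hgp : ∀ g : DKD_grp p, ∀ x ∈ ball (0:ℂ) 1, p (TN.mob (u g) (b g) x) = p x := by
    intro g x hx
    have := g.2.2 ⟨x, hx⟩
    rw [hA] at this
    exact this
  have hfree : ∀ g : DKD_grp p, ∀ x ∈ ball (0:ℂ) 1, TN.mob (u g) (b g) x = x → g = 1 := by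
    intro g x hx hfix
    have h1 := DKD_id (hb g) (hgp g) hx (hli x hx) hfix
    refine Subtype.ext (Equiv.ext fun y => Subtype.ext ?_)
    rw [hA, h1 y y.2]
    rfl
  have hmul : ∀ g h : DKD_grp p, ∀ x ∈ ball (0:ℂ) 1,
      TN.mob (u (g * h)) (b (g * h)) x = TN.mob (u g) (b g) (TN.mob (u h) (b h) x) := by
    intro g h x hx
    have h1 := hA (g * h) ⟨x, hx⟩
    have h2 : ((g * h : DKD_grp p) : Equiv.Perm (ball (0:ℂ) 1)) ⟨x, hx⟩ =
      (g : Equiv.Perm (ball (0:ℂ) 1)) ((h : Equiv.Perm (ball (0:ℂ) 1)) ⟨x, hx⟩) := rfl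
    rw [h2, hA g, hA h] at h1
    exact h1.symm
  have hone : ∀ x ∈ ball (0:ℂ) 1, TN.mob (u 1) (b 1) x = x := by
    intro x hx
    have h1 := hA 1 ⟨x, hx⟩
    exact h1.symm
  have hinv : ∀ g : DKD_grp p, ∀ x ∈ ball (0:ℂ) 1,
      TN.mob (u g⁻¹) (b g⁻¹) (TN.mob (u g) (b g) x) = x := by
    intro g x hx
    rw [← hmul g⁻¹ g x hx, inv_mul_cancel, hone x hx]
  have hext : ∀ g h : DKD_grp p, ∀ x ∈ ball (0:ℂ) 1,
      TN.mob (u g) (b g) x = TN.mob (u h) (b h) x → g = h := by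
    intro g h x hx he
    have h1 : h⁻¹ * g = 1 := by
      refine hfree _ x hx ?_
      rw [hmul h⁻¹ g x hx, he, hinv h x hx]
    exact (inv_mul_eq_one.1 h1).symm
  refine ⟨DKD_grp p, inferInstance, fun g => TN.mob (u g) (b g), p, ⟨?_, hone, hmul, ?_, ?_, ?_, ?_, ?_, ?_⟩, hS⟩
  · exact Or.inr ⟨rfl, fun g => ⟨u g, b g, hu g, hb g, fun x => rfl⟩⟩
  · intro g hg x hx he
    exact hg (hfree g x hx he)
  · -- proper
    intro C hC hCc
    obtain ⟨ρ, hρ, hCρ⟩ : ∃ ρ < 1, ∀ x ∈ C, ‖x‖ ≤ ρ := by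
      rcases C.eq_empty_or_nonempty with rfl | hne
      · exact ⟨0, one_pos, fun x hx => absurd hx (notMem_empty x)⟩
      · obtain ⟨x, hx, hmax⟩ := hCc.exists_isMaxOn hne continuous_norm.continuousOn
        exact ⟨‖x‖, mem_ball_zero_iff.1 (hC hx), fun y hy => hmax hy⟩
    obtain ⟨s, hs, hsb⟩ := TN.norm_le_of_pd (ρ := ρ) (r := ρ) hρ hρ
    have hbs : ∀ g : DKD_grp p, (∃ x ∈ C, TN.mob (u g) (b g) x ∈ C) → ‖b g‖ ≤ s := by
      rintro g ⟨x, hx, hgx⟩
      refine hsb x (b g) (hCρ x hx) (hb g) ?_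
      have h1 := TN.mob_pd (hu g) (hb g) (mem_ball_zero_iff.1 (hC hx)).le (hb g)
      rw [← h1]
      have h2 : TN.mob (u g) (b g) (b g) = 0 := by simp [TN.mob]
      rw [h2, TN.pd]
      simpa using hCρ _ hgx
    by_contra hinf
    have hinf : {g : DKD_grp p | ∃ x ∈ C, TN.mob (u g) (b g) x ∈ C}.Infinite := hinf
    have hinj : Injective fun g : DKD_grp p => (u g, b g) := by
      intro g h he
      simp only [Prod.mk.injEq] at he
      refine hext g h 0 (mem_ball_self one_pos) ?_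
      rw [he.1, he.2]
    have hK : IsCompact (sphere (0:ℂ) 1 ×ˢ closedBall (0:ℂ) s) :=
      (isCompact_sphere _ _).prod (isCompact_closedBall _ _)
    have hinf2 := hinf.image hinj.injOn
    have hsub : (fun g : DKD_grp p => (u g, b g)) ''
        {g : DKD_grp p | ∃ x ∈ C, TN.mob (u g) (b g) x ∈ C} ⊆
        sphere (0:ℂ) 1 ×ˢ closedBall (0:ℂ) s := by
      rintro _ ⟨g, hg, rfl⟩
      exact ⟨mem_sphere_zero_iff_norm.2 (hu g), mem_closedBall_zero_iff.2 (hbs g hg)⟩
    obtain ⟨q, hq, hacc⟩ := hinf2.exists_accPt_of_subset_isCompact hK hsub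
    have hq1 : ‖q.1‖ = 1 := mem_sphere_zero_iff_norm.1 hq.1
    have hq2 : ‖q.2‖ < 1 := (mem_closedBall_zero_iff.1 hq.2).trans_lt hs
    set w : ℂ := -(q.1 * q.2) with hw
    have hwb : w ∈ ball (0:ℂ) 1 := mem_ball_zero_iff.2 (DKD_neg hq1 hq2)
    obtain ⟨W, hW, hWi⟩ := hli w hwb
    have hcont : Continuous fun t : ℂ × ℂ => -(t.1 * t.2) := by fun_prop
    have hN : (fun t : ℂ × ℂ => -(t.1 * t.2)) ⁻¹' W ∈ 𝓝 q := hcont.continuousAt.preimage_mem_nhds hW
    have hm0 : ∀ g : DKD_grp p, TN.mob (u g) (b g) 0 = -(u g * b g) := by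
      intro g
      simp [TN.mob]
    -- two points near `q`
    have hfr := accPt_iff_frequently.1 hacc
    obtain ⟨t1, ⟨ht1, g1, hg1, hg1'⟩, hN1⟩ := (hfr.and_eventually hN).exists
    have hne : {t1}ᶜ ∈ 𝓝 q := isOpen_compl_singleton.mem_nhds (by
      rw [mem_compl_iff, mem_singleton_iff]
      exact fun h => ht1 h.symm)
    obtain ⟨t2, ⟨⟨ht2, g2, hg2, hg2'⟩, hN2⟩, hN3⟩ := ((hfr.and_eventually hN).and_eventually hne).exists
    have e1 : TN.mob (u g1) (b g1) 0 = -(t1.1 * t1.2) := by rw [hm0, ← hg1']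
    have e2 : TN.mob (u g2) (b g2) 0 = -(t2.1 * t2.2) := by rw [hm0, ← hg2']
    have h0 : (0:ℂ) ∈ ball (0:ℂ) 1 := mem_ball_self one_pos
    have h3 : TN.mob (u g1) (b g1) 0 = TN.mob (u g2) (b g2) 0 := by
      refine hWi ?_ ?_ ?_
      · rw [e1]; exact hN1
      · rw [e2]; exact hN2
      · rw [hgp g1 0 h0, hgp g2 0 h0]
    have h4 := hext g1 g2 0 h0 h3
    refine hN3 ?_
    rw [mem_singleton_iff, ← hg1', ← hg2', h4]
  · exact hS.sm.continuousOn
  · intro O hO hOo
    exact loc_open isOpen_ball hS hO hOo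
  · intro s
    have : s ∈ p '' ball 0 1 := by rw [hsurj]; exact mem_univ s
    exact this
  · intro x hx y hy
    constructor
    · intro he
      obtain ⟨c, b', hc, hb', hxy, hp⟩ := hfib x hx y hy he
      obtain ⟨σ, hσ, hσ'⟩ := DKD_mem (p := p) hc hb' hp
      refine ⟨⟨σ, hσ⟩, ?_⟩
      have h1 := hA ⟨σ, hσ⟩ ⟨x, hx⟩
      rw [hσ'] at h1
      exact h1.symm.trans hxy
    · rintro ⟨g, rfl⟩
      exact (hgp g x hx).symm

end BR

end S_H91_BR_DKD

section S_H91_BR_DKF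

/-!
DKF (the deck group of a quotient of the plane by translations).  Proof.  `h` gives `p`.  Let `Λ : AddSubgroup ℂ` be the group of `l` with
`∀ x, p (x + l) = p x`, `Γ = Multiplicative Λ`, `A g x = x + l`.  `Smo`: `ContMDiff.contMDiffOn`, `of_le`.  `hX`: left.  `one`, `mul` (add_comm), `free`
(`x + l = x` implies `l = 0`): clear.  `proper`: by `loc_inj` at `0` there is `ε > 0` with `p` injective on `ball 0 ε`, so `‖l‖ < ε`, `l ∈ Λ` implies `l = 0`
(`p (0 + l) = p 0`); so different elements of `Λ` have distance at least `ε`, and `{l | ∃ x ∈ C, x + l ∈ C}` is contained in a ball (`C` is bounded):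
a uniformly discrete bounded subset of `ℂ` is finite (e.g. cover the compact ball by finitely many balls of radius `ε / 2`, or `Metric.finite_isBounded_inter_isClosed`,
`IsCompact.finite`; `Set.Finite.preimage`).  `pc`: continuity.  `pop`: `loc_open`.  `ps`: surjectivity.  `fib`: `p x = p y` gives `y - x ∈ Λ` by the last property of `FlatUnif`.
-/

namespace BR

open Metric Set Filter Topology Function CV
open scoped Manifold ContDiff

theorem deck_flat {S : Type} [MetricSpace S] [ChartedSpace E2 S] [IsManifold (𝓡 2) ∞ S]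
    (h : DS.Surf.FlatUnif S) :
    ∃ (Γ : Type) (_ : Group Γ) (A : Γ → ℂ → ℂ) (p : ℂ → S), Deck univ A p ∧ Smo univ p := by
  obtain ⟨p, hsm, hsur, hbij, hdeck⟩ := h
  have hS : Smo univ p := ⟨(hsm.of_le (by simp)).contMDiffOn, fun z _ => hbij z⟩
  let Λ : AddSubgroup ℂ :=
    { carrier := {l | ∀ x, p (x + l) = p x}
      zero_mem' := fun x => by simp
      add_mem' := fun {a b} ha hb x => by rw [← add_assoc, hb, ha]
      neg_mem' := fun {a} ha x => by
        have := ha (x + -a)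
        rw [neg_add_cancel_right] at this
        exact this.symm }
  have hmem : ∀ l : ℂ, l ∈ Λ ↔ ∀ x, p (x + l) = p x := fun l => Iff.rfl
  obtain ⟨W, hW, hinj⟩ := loc_inj isOpen_univ hS (mem_univ (0:ℂ))
  obtain ⟨ε, hε, hball⟩ := Metric.mem_nhds_iff.1 hW
  have hsmall : ∀ l ∈ Λ, ‖l‖ < ε → l = 0 := by
    intro l hl hlt
    have h1 : l ∈ ball (0:ℂ) ε := by simpa using hlt
    have h2 : p l = p 0 := by
      have := (hmem l).1 hl 0
      rwa [zero_add] at this
    exact hinj (hball h1) (hball (mem_ball_self hε)) h2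
  refine ⟨Multiplicative Λ, inferInstance, fun g x => x + ((Multiplicative.toAdd g : Λ) : ℂ), p,
    ?_, hS⟩
  refine ⟨?_, ?_, ?_, ?_, ?_, ?_, ?_, ?_, ?_⟩
  · exact Or.inl ⟨rfl, fun g => ⟨((Multiplicative.toAdd g : Λ) : ℂ), fun x => rfl⟩⟩
  · intro x _
    simp
  · intro g h x _
    simp only [toAdd_mul, AddSubgroup.coe_add]
    ring
  · intro g hg x _ he
    apply hg
    have h0 : ((Multiplicative.toAdd g : Λ) : ℂ) = 0 := by
      have : x + ((Multiplicative.toAdd g : Λ) : ℂ) = x := he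
      simpa using this
    have h1 : (Multiplicative.toAdd g : Λ) = 0 := by
      ext
      simpa using h0
    exact Multiplicative.toAdd.injective (by simpa using h1)
  · intro C _ hC
    have hCC : IsCompact ((fun q : ℂ × ℂ => q.1 - q.2) '' (C ×ˢ C)) :=
      (hC.prod hC).image (continuous_fst.sub continuous_snd)
    obtain ⟨t, _, htf, htc⟩ := hCC.finite_cover_balls (half_pos hε)
    have hex : ∀ g : Multiplicative Λ, (∃ x ∈ C, x + ((Multiplicative.toAdd g : Λ) : ℂ) ∈ C) →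
        ∃ c ∈ t, ((Multiplicative.toAdd g : Λ) : ℂ) ∈ ball c (ε / 2) := by
      rintro g ⟨x, hx, hxg⟩
      have h1 : ((Multiplicative.toAdd g : Λ) : ℂ) ∈ (fun q : ℂ × ℂ => q.1 - q.2) '' (C ×ˢ C) :=
        ⟨(x + ((Multiplicative.toAdd g : Λ) : ℂ), x), ⟨hxg, hx⟩, by simp⟩
      have h2 := htc h1
      simp only [Set.mem_iUnion, exists_prop] at h2
      exact h2
    choose! c hc1 hc2 using hex
    refine Set.Finite.of_injOn (f := c) (t := t) (fun g hg => hc1 g hg) (fun g hg g' hg' he => ?_)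
      htf
    have h1 := hc2 g hg
    have h2 := hc2 g' hg'
    have he' : c g = c g' := he
    rw [he'] at h1
    have h3 : ‖((Multiplicative.toAdd g : Λ) : ℂ) - ((Multiplicative.toAdd g' : Λ) : ℂ)‖ < ε := by
      rw [← dist_eq_norm]
      calc dist ((Multiplicative.toAdd g : Λ) : ℂ) ((Multiplicative.toAdd g' : Λ) : ℂ)
          ≤ dist ((Multiplicative.toAdd g : Λ) : ℂ) (c g') +
            dist ((Multiplicative.toAdd g' : Λ) : ℂ) (c g') := dist_triangle_right _ _ _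
        _ < ε / 2 + ε / 2 := add_lt_add h1 h2
        _ = ε := by ring
    have h4 := hsmall _ (Λ.sub_mem (Multiplicative.toAdd g).2 (Multiplicative.toAdd g').2) h3
    apply Multiplicative.toAdd.injective
    exact Subtype.ext (sub_eq_zero.1 h4)
  · exact hsm.continuous.continuousOn
  · intro O hO hOo
    exact loc_open isOpen_univ hS hO hOo
  · intro s
    obtain ⟨x, hx⟩ := hsur s
    exact ⟨x, mem_univ x, hx⟩
  · intro x _ y _
    constructor
    · intro h
      refine ⟨Multiplicative.ofAdd (⟨y - x, (hmem _).2 (hdeck x y h)⟩ : Λ), ?_⟩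
      simp
    · rintro ⟨g, hg⟩
      have h1 := (hmem _).1 (Multiplicative.toAdd g).2 x
      have hg' : x + ((Multiplicative.toAdd g : Λ) : ℂ) = y := hg
      rw [hg'] at h1
      exact h1.symm

end BR

end S_H91_BR_DKF

section S_H91_BR_DOM

/-!
DOM (components of the preimage of a domain).  Let `Z = X ∩ p ⁻¹' V` (open: `p` is continuous on the open set `X`), `U = connectedComponentIn Z x₀`, open (`IsOpen.connectedComponentIn`),
connected.  `A c` maps `Z` homeomorphically onto `Z` (`Deck.maps`, `Deck.cont`, `Deck.inv_left`, `Deck.fibre`), so it maps components of `Z` onto components of `Z`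
(use: `A c '' U` is connected, contained in `Z`, so contained in the component of each of its points; the same for `A c⁻¹`).
`dom_onto`: `p '' U = V`: `V` is the union of the sets `p '' C`, `C` a component of `Z` (`ps`), open (`pop`); if `p '' C` meets `p '' U`, `p z = p u`, `z ∈ C`, `u ∈ U`, then
`u = A c z` (`fib`), `A c '' C` is the component of `u`, `= U`, so `p '' C = p '' (A c '' C) = p '' U`.  So `p '' U` and the union of the other `p '' C` are disjoint open sets covering the connected set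
`V`, and the first one is not empty.
`dom_G`: `G` maps `Z` onto `Z` (`lift`, `g '' V = V`, `Gi`), homeomorphically, so `G '' U` is the component of `G x₀`; if `G x₀ ∈ U` it is `U`.
`dom_stab`: `N = {c | A c '' U = U}` is a subgroup (`Deck.image_mul`, `Deck.image_inv`, `one`); for `c ∉ N` the components `A c '' U ≠ U` are disjoint.
-/

namespace BR

open Metric Set Filter Topology Function CV
open scoped Manifold ContDiff

variable {S : Type} [MetricSpace S] {X : Set ℂ} {Γ : Type} [Group Γ] {A : Γ → ℂ → ℂ} {p : ℂ → S}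

/-- a self homeomorphism of `Z` permutes the components of `Z` -/
theorem DOM_image {Z : Set ℂ} {a b : ℂ → ℂ} (ha : ContinuousOn a Z) (hb : ContinuousOn b Z)
    (ma : MapsTo a Z Z) (mb : MapsTo b Z Z) (hba : ∀ x ∈ Z, b (a x) = x)
    (hab : ∀ x ∈ Z, a (b x) = x) {x : ℂ} (hx : x ∈ Z) :
    a '' connectedComponentIn Z x = connectedComponentIn Z (a x) := by
  have key : ∀ {c : ℂ → ℂ}, ContinuousOn c Z → MapsTo c Z Z → ∀ y ∈ Z,
      c '' connectedComponentIn Z y ⊆ connectedComponentIn Z (c y) := by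
    intro c hc mc y hy
    refine IsPreconnected.subset_connectedComponentIn
      (isPreconnected_connectedComponentIn.image _ (hc.mono (connectedComponentIn_subset _ _)))
      (mem_image_of_mem _ (mem_connectedComponentIn hy)) ?_
    rintro _ ⟨z, hz, rfl⟩
    exact mc (connectedComponentIn_subset _ _ hz)
  apply Subset.antisymm (key ha ma x hx)
  intro y hy
  have h1 := key hb mb (a x) (ma hx) (mem_image_of_mem _ hy)
  rw [hba x hx] at h1
  exact ⟨b y, h1, hab y (connectedComponentIn_subset _ _ hy)⟩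

theorem DOM_mapsA (D : Deck X A p) (V : Set S) (c : Γ) :
    MapsTo (A c) (X ∩ p ⁻¹' V) (X ∩ p ⁻¹' V) := by
  intro x hx
  refine ⟨D.maps c hx.1, ?_⟩
  rw [mem_preimage, D.fibre c hx.1]
  exact hx.2

theorem DOM_imageA (D : Deck X A p) (V : Set S) (c : Γ) {x : ℂ} (hx : x ∈ X ∩ p ⁻¹' V) :
    A c '' connectedComponentIn (X ∩ p ⁻¹' V) x = connectedComponentIn (X ∩ p ⁻¹' V) (A c x) :=
  DOM_image (b := A c⁻¹) ((D.cont c).mono inter_subset_left) ((D.cont c⁻¹).mono inter_subset_left)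
    (DOM_mapsA D V c) (DOM_mapsA D V c⁻¹) (fun _ hy => D.inv_left c hy.1)
    (fun _ hy => D.inv_right c hy.1) hx

theorem dom_onto (D : Deck X A p) {V : Set S} (hV : IsOpen V) (hVc : IsConnected V) {x₀ : ℂ}
    (hx₀ : x₀ ∈ X) (hp : p x₀ ∈ V) : p '' connectedComponentIn (X ∩ p ⁻¹' V) x₀ = V := by
  have hZ : IsOpen (X ∩ p ⁻¹' V) := D.pc.isOpen_inter_preimage D.opn hV
  have hsub : ∀ z, connectedComponentIn (X ∩ p ⁻¹' V) z ⊆ X := fun z =>
    (connectedComponentIn_subset _ _).trans inter_subset_left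
  have hsubV : ∀ z, p '' connectedComponentIn (X ∩ p ⁻¹' V) z ⊆ V := by
    rintro z _ ⟨y, hy, rfl⟩
    exact (connectedComponentIn_subset _ _ hy).2
  have hopen : ∀ z, IsOpen (p '' connectedComponentIn (X ∩ p ⁻¹' V) z) := fun z =>
    D.pop _ (hsub z) hZ.connectedComponentIn
  have hx₀Z : x₀ ∈ X ∩ p ⁻¹' V := ⟨hx₀, hp⟩
  have hcompl : IsOpen (V \ p '' connectedComponentIn (X ∩ p ⁻¹' V) x₀) := by
    rw [isOpen_iff_mem_nhds]
    rintro s ⟨hsV, hs⟩
    obtain ⟨z, hzX, rfl⟩ := D.ps s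
    have hzZ : z ∈ X ∩ p ⁻¹' V := ⟨hzX, hsV⟩
    refine mem_of_superset ((hopen z).mem_nhds (mem_image_of_mem _ (mem_connectedComponentIn hzZ))) ?_
    intro t ht
    refine ⟨hsubV z ht, ?_⟩
    obtain ⟨z', hz', rfl⟩ := ht
    rintro ⟨u, hu, hpu⟩
    obtain ⟨c, hc⟩ := (D.fib z' (hsub z hz') u (hsub x₀ hu)).1 hpu.symm
    have h1 : A c '' connectedComponentIn (X ∩ p ⁻¹' V) z =
        connectedComponentIn (X ∩ p ⁻¹' V) x₀ := by
      rw [connectedComponentIn_eq hz', DOM_imageA D V c (connectedComponentIn_subset _ _ hz'), hc,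
        ← connectedComponentIn_eq hu]
    have h2 : A c z ∈ connectedComponentIn (X ∩ p ⁻¹' V) x₀ := by
      rw [← h1]
      exact mem_image_of_mem _ (mem_connectedComponentIn hzZ)
    exact hs ⟨A c z, h2, D.fibre c hzX⟩
  apply Subset.antisymm (hsubV x₀)
  refine IsPreconnected.subset_left_of_subset_union (hopen x₀) hcompl disjoint_sdiff_right ?_ ?_
    hVc.isPreconnected
  · rw [union_sdiff_self]
    exact subset_union_right
  · exact ⟨p x₀, hp, mem_image_of_mem _ (mem_connectedComponentIn hx₀Z)⟩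

theorem dom_G (D : Deck X A p) {g gi : S → S} {G Gi : ℂ → ℂ} {θ : Γ ≃* Γ} {ρ : ℂ → ℝ}
    (L : Lift X A p g gi G Gi θ ρ) {V : Set S} (hV : IsOpen V) (hgV : g '' V = V) {x₀ : ℂ}
    (hx₀ : x₀ ∈ X) (hp : p x₀ ∈ V) (hG : G x₀ ∈ connectedComponentIn (X ∩ p ⁻¹' V) x₀) :
    G '' connectedComponentIn (X ∩ p ⁻¹' V) x₀ = connectedComponentIn (X ∩ p ⁻¹' V) x₀ := by
  have mG : MapsTo G (X ∩ p ⁻¹' V) (X ∩ p ⁻¹' V) := by
    intro x hx
    refine ⟨L.mG hx.1, ?_⟩
    rw [mem_preimage, L.lift x hx.1, ← hgV]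
    exact mem_image_of_mem _ hx.2
  have mGi : MapsTo Gi (X ∩ p ⁻¹' V) (X ∩ p ⁻¹' V) := by
    intro y hy
    refine ⟨L.mGi hy.1, ?_⟩
    have h1 : g (p (Gi y)) = p y := by
      rw [← L.lift _ (L.mGi hy.1), L.GGi y hy.1]
    have h2 : p y ∈ g '' V := by
      rw [hgV]
      exact hy.2
    obtain ⟨v, hv, hvy⟩ := h2
    have h3 : p (Gi y) = v := by
      rw [← L.gig (p (Gi y)), h1, ← hvy, L.gig]
    rw [mem_preimage, h3]
    exact hv
  rw [DOM_image (b := Gi) (L.c1.continuousOn.mono inter_subset_left)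
    (L.c1i.continuousOn.mono inter_subset_left) mG mGi (fun _ hy => L.GiG _ hy.1)
    (fun _ hy => L.GGi _ hy.1) ⟨hx₀, hp⟩]
  exact (connectedComponentIn_eq hG).symm

theorem dom_stab (D : Deck X A p) {V : Set S} (hV : IsOpen V) {x₀ : ℂ} (hx₀ : x₀ ∈ X)
    (hp : p x₀ ∈ V) : ∃ N : Subgroup Γ,
      (∀ c, c ∈ N ↔ A c '' connectedComponentIn (X ∩ p ⁻¹' V) x₀ =
        connectedComponentIn (X ∩ p ⁻¹' V) x₀) ∧
      ∀ c, c ∉ N → Disjoint (A c '' connectedComponentIn (X ∩ p ⁻¹' V) x₀)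
        (connectedComponentIn (X ∩ p ⁻¹' V) x₀) := by
  have hsub : connectedComponentIn (X ∩ p ⁻¹' V) x₀ ⊆ X :=
    (connectedComponentIn_subset _ _).trans inter_subset_left
  refine ⟨{ carrier := {c | A c '' connectedComponentIn (X ∩ p ⁻¹' V) x₀ =
              connectedComponentIn (X ∩ p ⁻¹' V) x₀}
            mul_mem' := ?_
            one_mem' := ?_
            inv_mem' := ?_ }, fun c => Iff.rfl, ?_⟩
  · intro c d hc hd
    simp only [mem_setOf_eq] at hc hd ⊢
    rw [D.image_mul c d hsub, hd, hc]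
  · simp only [mem_setOf_eq]
    rw [image_congr fun x hx => D.one x (hsub hx)]
    exact image_id' _
  · intro c hc
    simp only [mem_setOf_eq] at hc ⊢
    conv_lhs => rw [← hc]
    exact D.image_inv c hsub
  · intro c hc
    have hne : A c '' connectedComponentIn (X ∩ p ⁻¹' V) x₀ ≠
        connectedComponentIn (X ∩ p ⁻¹' V) x₀ := hc
    rw [disjoint_left]
    intro y hy hy'
    apply hne
    rw [DOM_imageA D V c ⟨hx₀, hp⟩] at hy ⊢
    rw [connectedComponentIn_eq hy, connectedComponentIn_eq hy']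

end BR

end S_H91_BR_DOM

section S_H91_BR_LFT

/-!
LFT (the lift of the diffeomorphism).  Proof.  `lift_exists` gives `G` (lift of `g`, `G x₀ = y₀`) and `Gi` (lift of `gi`, `Gi y₀ = x₀`; `gi (p y₀) = gi (g (p x₀)) = p x₀`).
`Gi ∘ G` and `id` are lifts of the identity that agree at `x₀`: `lift_unique`; the same for `G ∘ Gi` at `y₀`.  `clift_c1` gives `c1`, `c1i`.
`θ`: for `c : Γ`, `p (G (A c x₀)) = g (p x₀) = p (G x₀)`, so `G (A c x₀) = A d (G x₀)` for some `d` (`fib`), and `G ∘ A c`, `A d ∘ G` are lifts of `g` that agree at `x₀`, so they agree on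
`X`; `d` is unique by freeness (`Deck.ext`): `θ c = d`.  `θ (c c') = θ c θ c'`: both describe `G ∘ A (c c')` (`mul`, `Deck.ext`).  The same construction for `Gi` gives the inverse of
`θ`: `Gi (A d y) = A (θi d) (Gi y)`; `θi (θ c) = c`, `θ (θi d) = d` by `Deck.ext`.  `MulEquiv.mk'` or an explicit structure.
`ρ` and the last four fields: `exists_rho` (area: `h = g`).  Continuity of `g`, `gi`: `ContMDiff.continuous`.
-/

namespace BR

open Metric Set Filter Topology Function CV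
open scoped Manifold ContDiff

variable {S : Type} [MetricSpace S] [ChartedSpace E2 S] [IsManifold (𝓡 2) ∞ S] {X : Set ℂ} {Γ : Type}
  [Group Γ] {A : Γ → ℂ → ℂ} {p : ℂ → S}
  {om : ∀ x : S, TangentSpace (𝓡 2) x →ₗ[ℝ] TangentSpace (𝓡 2) x →ₗ[ℝ] ℝ}

theorem LFT_comp {S : Type} [MetricSpace S] {X : Set ℂ} {p : ℂ → S} {h h' : S → S} {H H' : ℂ → ℂ}
    (h1 : CLift X p h H) (h2 : CLift X p h' H') :
    CLift X p (fun s => h (h' s)) (fun x => H (H' x)) where
  cont := h1.cont.comp h2.cont h2.maps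
  maps := h1.maps.comp h2.maps
  lift x hx := by
    show p (H (H' x)) = h (h' (p x))
    rw [h1.lift _ (h2.maps hx), h2.lift x hx]

theorem LFT_id {S : Type} [MetricSpace S] {X : Set ℂ} {p : ℂ → S} :
    CLift X p (fun s => s) (fun x => x) where
  cont := continuousOn_id
  maps := mapsTo_id X
  lift _ _ := rfl

theorem LFT_A {S : Type} [MetricSpace S] {X : Set ℂ} {Γ : Type} [Group Γ] {A : Γ → ℂ → ℂ}
    {p : ℂ → S} (D : Deck X A p) (c : Γ) : CLift X p (fun s => s) (A c) where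
  cont := D.cont c
  maps := D.maps c
  lift _ hx := D.fibre c hx

theorem LFT_equi {S : Type} [MetricSpace S] {X : Set ℂ} {Γ : Type} [Group Γ] {A : Γ → ℂ → ℂ}
    {p : ℂ → S} (D : Deck X A p) {h : S → S} {H : ℂ → ℂ} (hH : CLift X p h H) {x₀ : ℂ}
    (hx₀ : x₀ ∈ X) (c : Γ) : ∃ d : Γ, ∀ x ∈ X, H (A c x) = A d (H x) := by
  have h1 : p (H x₀) = p (H (A c x₀)) := by
    rw [hH.lift _ hx₀, hH.lift _ (D.maps c hx₀), D.fibre c hx₀]
  obtain ⟨d, hd⟩ := (D.fib _ (hH.maps hx₀) _ (hH.maps (D.maps c hx₀))).1 h1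
  refine ⟨d, ?_⟩
  have h2 : CLift X p h (fun x => H (A c x)) := LFT_comp (h' := fun s => s) hH (LFT_A D c)
  have h3 : CLift X p h (fun x => A d (H x)) := LFT_comp (h := fun s => s) (LFT_A D d) hH
  exact lift_unique D h2 h3 hx₀ hd.symm

theorem exists_lift (D : Deck X A p) (hp : Smo X p) {g gi : S → S} (hg : SSys g gi om) {x₀ y₀ : ℂ}
    (hx₀ : x₀ ∈ X) (hy₀ : y₀ ∈ X) (h0 : p y₀ = g (p x₀)) :
    ∃ (G Gi : ℂ → ℂ) (θ : Γ ≃* Γ) (ρ : ℂ → ℝ), Lift X A p g gi G Gi θ ρ ∧ G x₀ = y₀ := by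
  have cg : Continuous g := hg.cf.continuous
  have cgi : Continuous gi := hg.cfi.continuous
  obtain ⟨G, hG, hG0⟩ := lift_exists D cg hx₀ hy₀ h0
  have h0' : p x₀ = gi (p y₀) := by rw [h0, hg.fif]
  obtain ⟨Gi, hGi, hGi0⟩ := lift_exists D cgi hy₀ hx₀ h0'
  have hGiG : ∀ x ∈ X, Gi (G x) = x := by
    have h1 : CLift X p (fun s => s) (fun x => Gi (G x)) := by
      have h2 := LFT_comp hGi hG
      simp only [hg.fif] at h2
      exact h2
    exact lift_unique D h1 LFT_id hx₀ (by show Gi (G x₀) = x₀; rw [hG0, hGi0])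
  have hGGi : ∀ x ∈ X, G (Gi x) = x := by
    have h1 : CLift X p (fun s => s) (fun x => G (Gi x)) := by
      have h2 := LFT_comp hG hGi
      simp only [hg.ffi] at h2
      exact h2
    exact lift_unique D h1 LFT_id hy₀ (by show G (Gi y₀) = y₀; rw [hGi0, hG0])
  choose θ hθ using fun c => LFT_equi D hG hx₀ c
  choose θi hθi using fun c => LFT_equi D hGi hy₀ c
  have hGx : G x₀ ∈ X := hG.maps hx₀
  have hGiy : Gi y₀ ∈ X := hGi.maps hy₀
  have e1 : ∀ c, θi (θ c) = c := by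
    intro c
    refine D.ext hx₀ ?_
    have h1 := hθi (θ c) (G x₀) hGx
    rw [hGiG x₀ hx₀] at h1
    rw [← h1, ← hθ c x₀ hx₀, hGiG _ (D.maps c hx₀)]
  have e2 : ∀ d, θ (θi d) = d := by
    intro d
    refine D.ext hy₀ ?_
    have h1 := hθ (θi d) (Gi y₀) hGiy
    rw [hGGi y₀ hy₀] at h1
    rw [← h1, ← hθi d y₀ hy₀, hGGi _ (D.maps d hy₀)]
  have e3 : ∀ c c', θ (c * c') = θ c * θ c' := by
    intro c c'
    refine D.ext hGx ?_
    rw [← hθ (c * c') x₀ hx₀, D.mul c c' x₀ hx₀, hθ c _ (D.maps c' hx₀), hθ c' x₀ hx₀,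
      D.mul _ _ _ hGx]
  let Θ : Γ ≃* Γ :=
    { toFun := θ
      invFun := θi
      left_inv := e1
      right_inv := e2
      map_mul' := e3 }
  obtain ⟨ρ, ρc, ρpos, ρinv, ρarea⟩ := exists_rho D hg.area hp
  refine ⟨G, Gi, Θ, ρ, ?_, hG0⟩
  exact
    { cg := cg
      cgi := cgi
      ggi := hg.ffi
      gig := hg.fif
      mG := hG.maps
      mGi := hGi.maps
      GiG := hGiG
      GGi := hGGi
      c1 := clift_c1 D.opn hp hg.cf hG
      c1i := clift_c1 D.opn hp hg.cfi hGi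
      equi := hθ
      lift := hG.lift
      ρc := ρc
      ρpos := ρpos
      ρinv := ρinv
      area := ρarea g G hg.cf hg.pres hG }

end BR

end S_H91_BR_LFT

section S_H91_BR_PER

/-!
PER (components of an invariant open set are periodic).  Proof.
1. `V = connectedComponentIn U x`; `f^[n] '' V = connectedComponentIn U (f^[n] x)` (copy `auxTA_iter` of `Pool/Agent/H36/DS/TA.lean`; `S` is locally connected:
`ChartedSpace.locallyConnectedSpace E2 S`).  Suppose that no `q > 0` works.  Then the sets `f^[n] '' V`, `n ≥ 0`, are pairwise disjoint (otherwise `f^[n] '' V = f^[m] '' V`, `n < m`, and `f^[m - n] '' V = V` as `f` is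
injective; end of the proof of `component_periodic`).
2. `x = p x₀` (`D.ps`), `f (p x₀) = p y₀`, `exists_lift` for `g = f`: `L : Lift X A p f fi G Gi θ ρ`.  Let `m` be the measure `∫⁻ x in B, ENNReal.ofReal (ρ x)` on subsets of `X`.  For measurable `B ⊆ X`
`m (G '' B) = m B` and `m (A c '' B) = m B`: `lintegral_image_eq_lintegral_abs_det_fderiv_mul` (`G` injective and `C¹` on the open set `X`, `L.area`: the determinant is positive; `A c`: the real derivative is the
multiplication by `deriv (A c) x`, with determinant `‖deriv (A c) x‖ ^ 2`, `L.ρinv`).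
3. `loc_inj` and continuity of `p` give a ball `B₀` about `x₀`, `B₀ ⊆ X`, `p '' B₀ ⊆ V`, `p` injective on `B₀`; `δ = m B₀ > 0`.  `B_n = G^[n] '' B₀`: measurable (open: `G` is a homeomorphism of `X`), `m B_n = δ`, `p` is injective
on `B_n` (`p (G^[n] y) = f^[n] (p y)`), `p '' B_n ⊆ f^[n] '' V`.
4. `C` compact, `C ⊆ X`, from `D.coc`; `m C < ⊤` (`ρ` is bounded on `C`).  The sets `E n c = (A c '' B_n) ∩ C`, `(n, c) ∈ ℕ × Γ`, are pairwise disjoint: if `A c y = A d z`, `y ∈ B_n`, `z ∈ B_k`, then `p y = p z`, so `n = k`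
(disjoint `f^[n] '' V`), `y = z` (injectivity on `B_n`), `c = d` (`Deck.ext`).  `Γ` is countable (`D.proper` for an exhaustion of `X` by compact sets, or: the orbit of `x₀` is a discrete
subset).  `∑_c m (E n c) = ∑_c m (B_n ∩ A c⁻¹ '' C) ≥ m B_n = δ` (`m` invariant; the sets `A c⁻¹ '' C` cover `X`).  So `m C ≥ ∑_(n,c) m (E n c) ≥ ∑_n δ = ⊤`: contradiction.
-/

namespace BR

open Metric Set Filter Topology Function CV
open scoped Manifold ContDiff

variable {S : Type} [MetricSpace S] [ChartedSpace E2 S] [IsManifold (𝓡 2) ∞ S] [CompactSpace S]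
  {X : Set ℂ} {Γ : Type} [Group Γ] {A : Γ → ℂ → ℂ} {p : ℂ → S}
  {om : ∀ x : S, TangentSpace (𝓡 2) x →ₗ[ℝ] TangentSpace (𝓡 2) x →ₗ[ℝ] ℝ}

theorem PER_iter {X : Type*} [TopologicalSpace X] {f fi : X → X} (hf : Continuous f)
    (hfi : Continuous fi) (hffi : ∀ x, f (fi x) = x) (hfif : ∀ x, fi (f x) = x) {U : Set X}
    (hfU : f '' U = U) {x : X} (hx : x ∈ U) (n : ℕ) :
    f^[n] x ∈ U ∧ f^[n] '' connectedComponentIn U x = connectedComponentIn U (f^[n] x) := by
  let h : X ≃ₜ X := { toFun := f, invFun := fi, left_inv := hfif, right_inv := hffi,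
                      continuous_toFun := hf, continuous_invFun := hfi }
  induction n with
  | zero => simpa using hx
  | succ n ih =>
    obtain ⟨ih1, ih2⟩ := ih
    constructor
    · rw [iterate_succ', comp_apply, ← hfU]
      exact mem_image_of_mem f ih1
    · rw [iterate_succ', image_comp, ih2, comp_apply]
      have := h.image_connectedComponentIn ih1
      change f '' connectedComponentIn U (f^[n] x) = connectedComponentIn (f '' U) (f (f^[n] x))
        at this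
      rw [this, hfU]

/-- either some component is periodic or all images are disjoint -/
theorem PER_disj {X : Type*} [TopologicalSpace X] {f fi : X → X} (hf : Continuous f)
    (hfi : Continuous fi) (hffi : ∀ x, f (fi x) = x) (hfif : ∀ x, fi (f x) = x) {U : Set X}
    (hfU : f '' U = U) {x : X} (hx : x ∈ U)
    (hno : ¬ ∃ q, 0 < q ∧ f^[q] '' connectedComponentIn U x = connectedComponentIn U x)
    {n m : ℕ} (hnm : n ≠ m) {z : X} (hz1 : z ∈ f^[n] '' connectedComponentIn U x)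
    (hz2 : z ∈ f^[m] '' connectedComponentIn U x) : False := by
  have hit := PER_iter hf hfi hffi hfif hfU hx
  have hinj : Injective f := fun a b hab => by rw [← hfif a, ← hfif b, hab]
  have key : ∀ n m : ℕ, n < m → z ∈ f^[n] '' connectedComponentIn U x →
      z ∈ f^[m] '' connectedComponentIn U x → False := by
    intro n m hlt h1 h2
    apply hno
    refine ⟨m - n, by omega, ?_⟩
    have h3 : f^[n] '' connectedComponentIn U x = f^[m] '' connectedComponentIn U x := by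
      rw [(hit n).2] at h1 ⊢
      rw [(hit m).2] at h2 ⊢
      rw [connectedComponentIn_eq h1, connectedComponentIn_eq h2]
    have h4 : f^[n] '' (f^[m - n] '' connectedComponentIn U x) =
        f^[n] '' connectedComponentIn U x := by
      rw [← image_comp, ← iterate_add, h3]
      congr 2
      omega
    exact (hinj.iterate n).image_injective h4
  rcases lt_or_gt_of_ne hnm with h | h
  · exact key n m h hz1 hz2
  · exact key m n h hz2 hz1

theorem PER_det (c : ℂ) :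
    ((ContinuousLinearMap.toSpanSingleton ℂ c).restrictScalars ℝ : ℂ →L[ℝ] ℂ).det = ‖c‖ ^ 2 := by
  have h1 : (((ContinuousLinearMap.toSpanSingleton ℂ c).restrictScalars ℝ : ℂ →L[ℝ] ℂ) :
      ℂ →ₗ[ℝ] ℂ) = LinearMap.mulLeft ℝ c := by
    ext x
    simp [mul_comm]
  rw [ContinuousLinearMap.det, h1]
  have h2 := Algebra.norm_complex_apply c
  rw [Algebra.norm_apply] at h2
  rw [Complex.sq_norm, ← h2]
  rfl

/-- the measure with density `ρ` -/
noncomputable def PER_m (ρ : ℂ → ℝ) : MeasureTheory.Measure ℂ :=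
  MeasureTheory.volume.withDensity (fun x => ENNReal.ofReal (ρ x))

open MeasureTheory in
theorem PER_inv {ρ : ℂ → ℝ} {H : ℂ → ℂ} {H' : ℂ → ℂ →L[ℝ] ℂ} {B : Set ℂ} (hB : MeasurableSet B)
    (hH : ∀ x ∈ B, HasFDerivWithinAt H (H' x) B x) (hi : InjOn H B) (hρ : ∀ x ∈ B, 0 < ρ x)
    (hρ' : ∀ x ∈ B, 0 < ρ (H x)) (hd : ∀ x ∈ B, ρ (H x) * (H' x).det = ρ x) :
    PER_m ρ (H '' B) = PER_m ρ B := by
  have hm : MeasurableSet (H '' B) := measurable_image_of_fderivWithin hB hH hi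
  unfold PER_m
  rw [withDensity_apply _ hB, withDensity_apply _ hm,
    lintegral_image_eq_lintegral_abs_det_fderiv_mul volume hB hH hi]
  apply setLIntegral_congr_fun hB
  intro x hx
  have h1 : 0 < (H' x).det := by
    have h2 := hd x hx
    have h3 := hρ x hx
    rw [← h2] at h3
    exact (mul_pos_iff_of_pos_left (hρ' x hx)).1 h3
  show ENNReal.ofReal |(H' x).det| * ENNReal.ofReal (ρ (H x)) = ENNReal.ofReal (ρ x)
  rw [← ENNReal.ofReal_mul (abs_nonneg _), abs_of_pos h1, mul_comm, hd x hx]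

open MeasureTheory in
theorem PER_finite {ρ : ℂ → ℝ} {C : Set ℂ} (hC : IsCompact C) (hρ : ContinuousOn ρ C) :
    PER_m ρ C < ⊤ := by
  obtain ⟨K, hK⟩ := hC.exists_bound_of_continuousOn hρ
  unfold PER_m
  rw [withDensity_apply _ hC.measurableSet]
  calc ∫⁻ x in C, ENNReal.ofReal (ρ x) ≤ ∫⁻ _ in C, ENNReal.ofReal K := by
        apply setLIntegral_mono' hC.measurableSet
        intro x hx
        exact ENNReal.ofReal_le_ofReal ((le_abs_self _).trans (hK x hx))
    _ = ENNReal.ofReal K * volume C := by rw [setLIntegral_const]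
    _ < ⊤ := ENNReal.mul_lt_top ENNReal.ofReal_lt_top hC.measure_lt_top

open MeasureTheory in
theorem PER_pos {ρ : ℂ → ℝ} {x : ℂ} {r a : ℝ} (hr : 0 < r) (ha : 0 < a)
    (h : ∀ y ∈ ball x r, a ≤ ρ y) : 0 < PER_m ρ (ball x r) := by
  unfold PER_m
  rw [withDensity_apply _ isOpen_ball.measurableSet]
  calc (0 : ENNReal) < ENNReal.ofReal a * volume (ball x r) :=
        ENNReal.mul_pos (by simpa using ha) (measure_ball_pos _ _ hr).ne'
    _ = ∫⁻ _ in ball x r, ENNReal.ofReal a := by rw [setLIntegral_const]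
    _ ≤ ∫⁻ y in ball x r, ENNReal.ofReal (ρ y) := by
        apply setLIntegral_mono' isOpen_ball.measurableSet
        intro y hy
        exact ENNReal.ofReal_le_ofReal (h y hy)

omit [ChartedSpace E2 S] [IsManifold (𝓡 2) ∞ S] [CompactSpace S] in
theorem PER_open (D : Deck X A p) (c : Γ) {B : Set ℂ} (hB : B ⊆ X) (ho : IsOpen B) :
    IsOpen (A c '' B) := by
  have h1 : A c '' B = X ∩ (A c⁻¹) ⁻¹' B := by
    ext y
    constructor
    · rintro ⟨x, hx, rfl⟩
      refine ⟨D.maps c (hB hx), ?_⟩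
      rw [mem_preimage, D.inv_left c (hB hx)]
      exact hx
    · rintro ⟨h1, h2⟩
      exact ⟨_, h2, D.inv_right c h1⟩
  rw [h1]
  exact (D.cont c⁻¹).isOpen_inter_preimage D.opn ho

omit [ChartedSpace E2 S] [IsManifold (𝓡 2) ∞ S] [CompactSpace S] in
theorem PER_countable (D : Deck X A p) {x : ℂ} (hx : x ∈ X) : Countable Γ := by
  obtain ⟨r, hr, hrX, hd⟩ := D.loc hx
  have h1 : (univ : Set Γ).Countable := by
    refine Set.PairwiseDisjoint.countable_of_isOpen (s := fun c : Γ => A c '' ball x r) ?_ ?_ ?_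
    · intro a _ b _ hab
      show Disjoint (A a '' ball x r) (A b '' ball x r)
      rw [Set.disjoint_left]
      rintro y ⟨u, hu, rfl⟩ ⟨v, hv, hvy⟩
      have h2 : b⁻¹ * a ≠ 1 := fun h => hab (inv_mul_eq_one.1 h).symm
      have h3 := Set.disjoint_left.1 (hd _ h2)
      refine h3 (?_ : v ∈ _) hv
      refine ⟨u, hu, ?_⟩
      rw [D.mul b⁻¹ a u (hrX hu), ← hvy, D.inv_left b (hrX hv)]
    · intro c _
      exact PER_open D c hrX isOpen_ball
    · intro c _
      exact ⟨_, mem_image_of_mem _ (mem_ball_self hr)⟩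
  exact countable_univ_iff.1 h1

open MeasureTheory in
omit [ChartedSpace E2 S] [IsManifold (𝓡 2) ∞ S] [CompactSpace S] in
theorem PER_A (D : Deck X A p) {ρ : ℂ → ℝ} (ρpos : ∀ x ∈ X, 0 < ρ x)
    (ρinv : ∀ c, ∀ x ∈ X, ρ (A c x) * ‖deriv (A c) x‖ ^ 2 = ρ x) (c : Γ) {B : Set ℂ}
    (hB : MeasurableSet B) (hBX : B ⊆ X) : PER_m ρ (A c '' B) = PER_m ρ B := by
  refine PER_inv (H' := fun x => (ContinuousLinearMap.toSpanSingleton ℂ
    (deriv (A c) x)).restrictScalars ℝ) hB ?_ ((D.inj c).mono hBX) (fun x hx => ρpos x (hBX hx))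
    (fun x hx => ρpos _ (D.maps c (hBX hx))) ?_
  · intro x hx
    have h1 : HasDerivAt (A c) (deriv (A c) x) x :=
      ((D.hol c).differentiableAt (D.opn.mem_nhds (hBX hx))).hasDerivAt
    exact (h1.hasFDerivAt.restrictScalars ℝ).hasFDerivWithinAt
  · intro x hx
    rw [PER_det]
    exact ρinv c x (hBX hx)

open MeasureTheory in
omit [ChartedSpace E2 S] [IsManifold (𝓡 2) ∞ S] [CompactSpace S] in
theorem PER_G (D : Deck X A p) {g gi : S → S} {G Gi : ℂ → ℂ} {θ : Γ ≃* Γ} {ρ : ℂ → ℝ}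
    (L : Lift X A p g gi G Gi θ ρ) {B : Set ℂ} (hB : MeasurableSet B) (hBX : B ⊆ X) :
    PER_m ρ (G '' B) = PER_m ρ B := by
  have hinj : InjOn G X := by
    intro x hx y hy h
    rw [← L.GiG x hx, h, L.GiG y hy]
  refine PER_inv (H' := fun x => fderiv ℝ G x) hB ?_ (hinj.mono hBX)
    (fun x hx => L.ρpos x (hBX hx)) (fun x hx => L.ρpos _ (L.mG (hBX hx)))
    (fun x hx => L.area x (hBX hx))
  intro x hx
  have h1 : DifferentiableAt ℝ G x :=
    (L.c1.contDiffAt (D.opn.mem_nhds (hBX hx))).differentiableAt (by norm_num)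
  exact h1.hasFDerivAt.hasFDerivWithinAt

open MeasureTheory in
omit [ChartedSpace E2 S] [IsManifold (𝓡 2) ∞ S] [CompactSpace S] in
theorem PER_Bn (D : Deck X A p) {g gi : S → S} {G Gi : ℂ → ℂ} {θ : Γ ≃* Γ} {ρ : ℂ → ℝ}
    (L : Lift X A p g gi G Gi θ ρ) {B : Set ℂ} (hB : IsOpen B) (hBX : B ⊆ X) (n : ℕ) :
    IsOpen (G^[n] '' B) ∧ G^[n] '' B ⊆ X ∧ PER_m ρ (G^[n] '' B) = PER_m ρ B := by
  have hop : ∀ n, IsOpen (G^[n] '' B) ∧ G^[n] '' B ⊆ X := by
    intro n
    obtain ⟨i1, i2, i3, i4, i5, i6, -, -⟩ := L.iter n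
    refine ⟨?_, ?_⟩
    · have h1 : G^[n] '' B = X ∩ (Gi^[n]) ⁻¹' B := by
        ext y
        constructor
        · rintro ⟨x, hx, rfl⟩
          refine ⟨i1 (hBX hx), ?_⟩
          rw [mem_preimage, i3 x (hBX hx)]
          exact hx
        · rintro ⟨h1, h2⟩
          exact ⟨_, h2, i4 y h1⟩
      rw [h1]
      exact i6.continuousOn.isOpen_inter_preimage D.opn hB
    · rintro _ ⟨x, hx, rfl⟩
      exact i1 (hBX hx)
  refine ⟨(hop n).1, (hop n).2, ?_⟩
  induction n with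
  | zero => simp
  | succ n ih =>
    rw [iterate_succ', image_comp, PER_G D L (hop n).1.measurableSet (hop n).2, ih]

theorem comp_periodic (D : Deck X A p) (hp : Smo X p) {f fi : S → S} (hS : SSys f fi om) {U : Set S}
    (hU : IsOpen U) (hfU : f '' U = U) {x : S} (hx : x ∈ U) :
    ∃ q, 0 < q ∧ f^[q] '' connectedComponentIn U x = connectedComponentIn U x := by
  by_contra hno
  have hf : Continuous f := hS.cf.continuous
  have hfi : Continuous fi := hS.cfi.continuous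
  haveI : LocallyConnectedSpace S := ChartedSpace.locallyConnectedSpace E2 S
  have hdis := fun {n m : ℕ} (hnm : n ≠ m) {z : S} =>
    PER_disj hf hfi hS.ffi hS.fif hfU hx hno hnm (z := z)
  set V := connectedComponentIn U x with hV
  have hVo : IsOpen V := hU.connectedComponentIn
  have hinjf : Injective f := fun a b hab => by rw [← hS.fif a, ← hS.fif b, hab]
  obtain ⟨x₀, hx₀, hpx⟩ := D.ps x
  obtain ⟨y₀, hy₀, hpy⟩ := D.ps (f (p x₀))
  obtain ⟨G, Gi, θ, ρ, L, -⟩ := exists_lift D hp hS hx₀ hy₀ hpy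
  -- the ball
  obtain ⟨W, hW, hWi⟩ := loc_inj D.opn hp hx₀
  have hXn : X ∈ 𝓝 x₀ := D.opn.mem_nhds hx₀
  have hVn : p ⁻¹' V ∈ 𝓝 x₀ := by
    refine (D.pc.continuousAt hXn).preimage_mem_nhds (hVo.mem_nhds ?_)
    rw [hpx]
    exact mem_connectedComponentIn hx
  have hρn : {y | ρ x₀ / 2 ≤ ρ y} ∈ 𝓝 x₀ := by
    have h1 : ρ x₀ / 2 < ρ x₀ := half_lt_self (L.ρpos x₀ hx₀)
    filter_upwards [(L.ρc.continuousAt hXn).preimage_mem_nhds (Ioi_mem_nhds h1)] with y hy
    exact le_of_lt hy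
  obtain ⟨r, hr, hball⟩ := Metric.mem_nhds_iff.1
    (Filter.inter_mem (Filter.inter_mem hW hXn) (Filter.inter_mem hVn hρn))
  have hBX : ball x₀ r ⊆ X := fun y hy => (hball hy).1.2
  have hBi : InjOn p (ball x₀ r) := hWi.mono fun y hy => (hball hy).1.1
  have hBV : ∀ y ∈ ball x₀ r, p y ∈ V := fun y hy => (hball hy).2.1
  have hδ : 0 < PER_m ρ (ball x₀ r) :=
    PER_pos hr (half_pos (L.ρpos x₀ hx₀)) fun y hy => (hball hy).2.2
  obtain ⟨C, hCX, hC, hCc⟩ := D.coc
  have hCfin : PER_m ρ C < ⊤ := PER_finite hC (L.ρc.mono hCX)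
  haveI : Countable Γ := PER_countable D hx₀
  set Bn : ℕ → Set ℂ := fun n => G^[n] '' ball x₀ r with hBn
  have hBn' := fun n => PER_Bn D L isOpen_ball hBX n
  set E : ℕ × Γ → Set ℂ := fun i => (A i.2 '' Bn i.1) ∩ C with hE
  have hEm : ∀ i, MeasurableSet (E i) := fun i =>
    (PER_open D i.2 (hBn' i.1).2.1 (hBn' i.1).1).measurableSet.inter hC.measurableSet
  have hEX : ∀ i, E i ⊆ X := fun i y hy => hCX hy.2
  have hEd : Pairwise (Disjoint on E) := by
    rintro ⟨n, c⟩ ⟨k, d⟩ hne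
    show Disjoint (E (n, c)) (E (k, d))
    rw [Set.disjoint_left]
    rintro w ⟨⟨y, ⟨a, ha, rfl⟩, rfl⟩, -⟩ ⟨⟨z, ⟨b, hb, rfl⟩, hw⟩, -⟩
    obtain ⟨n1, -, -, -, -, -, -, n8⟩ := L.iter n
    obtain ⟨k1, -, -, -, -, -, -, k8⟩ := L.iter k
    have hw' : A d (G^[k] b) = A c (G^[n] a) := hw
    have e1 : p (G^[n] a) = p (G^[k] b) := by
      rw [← D.fibre c (n1 (hBX ha)), ← hw', D.fibre d (k1 (hBX hb))]
    have e2 : f^[n] (p a) = f^[k] (p b) := by
      rw [← n8 a (hBX ha), ← k8 b (hBX hb)]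
      exact e1
    have hnk : n = k := by
      by_contra hnk
      exact hdis hnk ⟨p a, hBV a ha, rfl⟩ ⟨p b, hBV b hb, e2.symm⟩
    subst hnk
    have e3 : a = b := hBi ha hb ((hinjf.iterate n) e2)
    subst e3
    have e4 : d = c := D.ext (n1 (hBX ha)) hw'
    exact hne (by rw [e4])
  have hsum : ∀ n, PER_m ρ (ball x₀ r) ≤ ∑' c : Γ, PER_m ρ (E (n, c)) := by
    intro n
    rw [← (hBn' n).2.2]
    have hcov : G^[n] '' ball x₀ r ⊆ ⋃ c : Γ, A c⁻¹ '' E (n, c) := by
      intro y hy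
      have hyX : y ∈ X := (hBn' n).2.1 hy
      obtain ⟨c, hc⟩ := hCc y hyX
      rw [mem_iUnion]
      exact ⟨c, A c y, ⟨⟨y, hy, rfl⟩, hc⟩, D.inv_left c hyX⟩
    calc PER_m ρ (G^[n] '' ball x₀ r) ≤ PER_m ρ (⋃ c : Γ, A c⁻¹ '' E (n, c)) :=
          MeasureTheory.measure_mono hcov
      _ ≤ ∑' c : Γ, PER_m ρ (A c⁻¹ '' E (n, c)) := MeasureTheory.measure_iUnion_le _
      _ = ∑' c : Γ, PER_m ρ (E (n, c)) := by
          congr 1
          funext c
          exact PER_A D L.ρpos L.ρinv c⁻¹ (hEm _) (hEX _)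
  have htot : ∑' i : ℕ × Γ, PER_m ρ (E i) ≤ PER_m ρ C := by
    rw [← MeasureTheory.measure_iUnion hEd hEm]
    exact MeasureTheory.measure_mono (iUnion_subset fun i => inter_subset_right)
  rw [ENNReal.tsum_prod'] at htot
  have h1 : ∑' _ : ℕ, PER_m ρ (ball x₀ r) ≤ PER_m ρ C :=
    (ENNReal.tsum_le_tsum hsum).trans htot
  rw [ENNReal.tsum_const_eq_top_of_ne_zero hδ.ne'] at h1
  exact absurd hCfin (not_lt.2 h1)

end BR

end S_H91_BR_PER
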