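import Pool.Agent.H12.KS.K52
import Pool.Agent.H12.KS.K54
import Pool.Agent.H12.KS.K56

/-! Joined modules of the proof of MP_8a27c0_an (one section per module). -/

section S_H91_BR_MAIN

/-!
MAIN (final assembly, helper91): the theorem for all closed surfaces.
-/

namespace BR

open Metric Set Filter Topology Function CV
open scoped Manifold ContDiff

theorem covering_case {S : Type} [MetricSpace S] [ChartedSpace E2 S] [IsManifold (𝓡 2) ∞ S]
    [CompactSpace S] {X : Set ℂ} {Γ : Type} [Group Γ] {A : Γ → ℂ → ℂ} {p : ℂ → S}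
    {om : ∀ x : S, TangentSpace (𝓡 2) x →ₗ[ℝ] TangentSpace (𝓡 2) x →ₗ[ℝ] ℝ}
    (D : Deck X A p) (hp : Smo X p) {f fi : S → S} (hS : SSys f fi om)
    (hper : (periodicPts f).Nonempty) (h1 : DS.Surf.Cond1 f) (h2 : DS.Surf.Cond2 f fi)
    (h4 : DS.Surf.Cond4 f) : Dense (stU f) := by
  by_contra hden
  rw [dense_iff_closure_eq] at hden
  obtain ⟨x, hx⟩ : ∃ x, x ∉ closure (stU f) := by
    by_contra h
    push Not at h
    exact hden (eq_univ_of_forall h)
  have hcf : Continuous f := hS.cf.continuous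
  have hcfi : Continuous fi := hS.cfi.continuous
  let H : S ≃ₜ S := { toFun := f, invFun := fi, left_inv := hS.fif, right_inv := hS.ffi,
                      continuous_toFun := hcf, continuous_invFun := hcfi }
  have hclf : f '' closure (stU f) = closure (stU f) := by
    have h := H.image_closure (stU f)
    change f '' closure (stU f) = closure (f '' stU f) at h
    rw [h, stU_image hS.ffi hS.fif]
  set U : Set S := (closure (stU f))ᶜ with hU
  have hUo : IsOpen U := isClosed_closure.isOpen_compl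
  have hUf : f '' U = U := by
    have h : H '' (closure (stU f))ᶜ = (H '' closure (stU f))ᶜ := image_compl_eq H.bijective
    change f '' U = (f '' closure (stU f))ᶜ at h
    rw [h, hclf]
  obtain ⟨q, hq, hqV⟩ := comp_periodic D hp hS hUo hUf (x := x) hx
  haveI : LocallyConnectedSpace S := ChartedSpace.locallyConnectedSpace E2 S
  set V := connectedComponentIn U x with hVdef
  have hVo : IsOpen V := hUo.connectedComponentIn
  have hVc : IsConnected V := isConnected_connectedComponentIn_iff.mpr hx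
  obtain ⟨x₀, hx₀, hpx₀⟩ := D.ps x
  have hxV : p x₀ ∈ V := by rw [hpx₀]; exact mem_connectedComponentIn hx
  have honto := dom_onto D hVo hVc hx₀ hxV
  have hgx : f^[q] (p x₀) ∈ p '' connectedComponentIn (X ∩ p ⁻¹' V) x₀ := by
    rw [honto]
    exact hqV ▸ mem_image_of_mem _ hxV
  obtain ⟨y₀, hy₀, hpy₀⟩ := hgx
  have hsub : connectedComponentIn (X ∩ p ⁻¹' V) x₀ ⊆ X ∩ p ⁻¹' V := connectedComponentIn_subset _ _
  obtain ⟨G, Gi, θ, ρ, L, hG⟩ := exists_lift D hp (s_iter hS q) hx₀ (hsub hy₀).1 hpy₀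
  have hGU := dom_G D L hVo hqV hx₀ hxV (by rw [hG]; exact hy₀)
  obtain ⟨N, hN, hN'⟩ := dom_stab D hVo hx₀ hxV
  have hZo : IsOpen (X ∩ p ⁻¹' V) := D.pc.isOpen_inter_preimage D.opn hVo
  have M : Dom X A p (f^[q]) G (connectedComponentIn (X ∩ p ⁻¹' V) x₀) N := by
    refine ⟨hZo.connectedComponentIn, isConnected_connectedComponentIn_iff.mpr ⟨hx₀, hxV⟩,
      fun z hz => (hsub hz).1, hGU, hN, hN', ?_⟩
    intro P hP hPper
    rw [disjoint_left]
    intro z hz hzP
    have h3 : p z ∈ DS.Surf.stableSet (f^[q]) (p P) := hzP.2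
    rw [stab_iter hcf hq] at h3
    rw [per_iter hq] at hPper
    have h5 : p z ∈ stU f := by
      simp only [stU, mem_iUnion]
      exact ⟨p P, hPper, h3⟩
    exact connectedComponentIn_subset _ _ (hsub hz).2 (subset_closure h5)
  have hNA : NoAnn (f^[q]) := by
    rintro n hn B ⟨hB1, hB2, hB3, hB4⟩
    refine h4 (q * n) (Nat.mul_pos hq hn) B ⟨hB1, by rw [iterate_mul]; exact hB2, hB3, ?_⟩
    intro P hP hPper
    rw [per_iter (Nat.mul_pos hq hn)] at hPper
    apply hB4 P hP
    rw [per_iter hq]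
    exact hPper
  refine core D L (exists_cond D hp hS h1 h2 hq L) M hNA ?_
  obtain ⟨P, hP⟩ := hper
  obtain ⟨z, hz, hpz⟩ := D.ps P
  refine ⟨z, hz, ?_⟩
  rw [hpz, per_iter hq]
  exact hP

theorem main : DS.Surf.Main := by
  intro S _ _ _ _ hU r hr f om hom hf hper h1 h2 h4
  rcases hU with ⟨⟨Ψ⟩⟩ | hU
  · exact DS.sphere_case S Ψ r hr f om hom hf hper h1 h2 h4
  · have hS : SSys f f.symm om := by
      refine ⟨f.contMDiff.of_le hr, f.symm.contMDiff.of_le hr, f.apply_symm_apply,
        f.symm_apply_apply, hom, hf⟩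
    rcases hU with hU | hU
    · obtain ⟨Γ, _, A, p, D, hp⟩ := deck_flat hU
      exact covering_case D hp hS hper h1 h2 h4
    · obtain ⟨Γ, _, A, p, D, hp⟩ := deck_disc hU
      exact covering_case D hp hS hper h1 h2 h4

end BR

end S_H91_BR_MAIN
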